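import Pool.Agent.Lib.MP_1c8e06_ag.AI.Defs3

section

set_option autoImplicit false

open Polynomial

namespace Pool.Agent.MP_1c8e06_ag.AI

noncomputable section

/-!
# Task A4w: substitution homomorphisms, general form

Proof.  `w ≠ 0` since its order is positive.  Mathlib (file
`Mathlib/RingTheory/HahnSeries/HEval.lean`) has the ring homomorphism
`PowerSeries.heval w : PowerSeries κ' →ₐ[κ'] LaurentSeries κ'` with `X ↦ w` (`heval_X`, needs
`0 < w.orderTop`).  Put `σ₀ := (heval w) ∘ PowerSeries.map φ : κ[[s]] → κ'((s))`.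
Order: for `0 ≠ f ∈ κ[[s]]`, `f = s^d * u` with `u` a unit of `κ[[s]]`; `σ₀ u` has `coeff 0 ≠ 0`
(`coeff_heval_zero`) and no negative coefficients (each `w^n` has order `≥ 0`; `coeff_heval`);
hence `order (σ₀ f) = m d`, `m := w.order`.  In particular `σ₀` is injective, so it extends to the
fraction field `κ((s))` (`instance : IsFractionRing K⟦X⟧ K⸨X⸩`, use `IsFractionRing.lift` or
`IsLocalization.lift`).  Order of `σ a`: write `a = s^k * f`
(`LaurentSeries.single_order_mul_powerSeriesPart`).
-/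
theorem exists_subw {κ κ' : Type} [Field κ] [Field κ'] (φ : κ →+* κ') (w : LaurentSeries κ')
    (hw : 0 < w.order) :
    ∃ σ : LaurentSeries κ →+* LaurentSeries κ',
      σ (HahnSeries.single 1 1) = w ∧
      (∀ c : κ, σ (HahnSeries.C c) = HahnSeries.C (φ c)) ∧
      (∀ a : LaurentSeries κ, a ≠ 0 → (σ a).order = w.order * a.order) := by
  have hw0 : w ≠ 0 := by
    rintro rfl
    simp at hw
  have htop : 0 < w.orderTop := by
    rw [← HahnSeries.order_eq_orderTop_of_ne_zero hw0]
    exact_mod_cast hw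
  obtain ⟨σ₀, hσ₀X, hσ₀C, hσ₀c⟩ : ∃ σ₀ : PowerSeries κ →+* LaurentSeries κ',
      σ₀ PowerSeries.X = w ∧ (∀ c : κ, σ₀ (PowerSeries.C c) = HahnSeries.C (φ c)) ∧
      ∀ f : PowerSeries κ, (σ₀ f).coeff 0 = φ (PowerSeries.constantCoeff f) := by
    refine ⟨(RingHomClass.toRingHom (PowerSeries.heval (R := κ') w)).comp (PowerSeries.map φ),
      ?_, ?_, ?_⟩
    · rw [RingHom.comp_apply, PowerSeries.map_X]
      exact PowerSeries.heval_X _ htop
    · intro c
      rw [RingHom.comp_apply, PowerSeries.map_C]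
      refine Eq.trans (PowerSeries.heval_C _ (φ c)) ?_
      ext n
      by_cases hn : n = 0
      · subst hn
        simp
      · simp [hn]
    · intro f
      rw [RingHom.comp_apply]
      refine Eq.trans (PowerSeries.coeff_heval_zero _ (PowerSeries.map φ f)) ?_
      rw [← PowerSeries.coeff_zero_eq_constantCoeff_apply,
        ← PowerSeries.coeff_zero_eq_constantCoeff_apply, PowerSeries.coeff_map]
  have hunit : ∀ y : Submonoid.powers (PowerSeries.X : PowerSeries κ),
      IsUnit (σ₀ (y : PowerSeries κ)) := by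
    rintro ⟨_, n, rfl⟩
    show IsUnit (σ₀ (PowerSeries.X ^ n))
    rw [map_pow, hσ₀X]
    exact (isUnit_iff_ne_zero.2 hw0).pow n
  obtain ⟨σ, hσ⟩ : ∃ σ : LaurentSeries κ →+* LaurentSeries κ',
      ∀ f : PowerSeries κ, σ (HahnSeries.ofPowerSeries ℤ κ f) = σ₀ f :=
    ⟨IsLocalization.lift (S := LaurentSeries κ) hunit, fun f => IsLocalization.lift_eq hunit f⟩
  have hσX : σ (HahnSeries.single 1 1) = w := by
    rw [← HahnSeries.ofPowerSeries_X, hσ, hσ₀X]
  refine ⟨σ, hσX, ?_, ?_⟩
  · intro c
    rw [← HahnSeries.ofPowerSeries_C, hσ, hσ₀C]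
  · intro a ha
    -- the order of the powers of `w`
    have hpow : ∀ n : ℤ, (w ^ n).order = w.order * n := by
      intro n
      have hnat : ∀ m : ℕ, (w ^ m).order = w.order * m := by
        intro m
        rw [HahnSeries.order_pow, nsmul_eq_mul, mul_comm]
      rcases Int.eq_nat_or_neg n with ⟨m, rfl | rfl⟩
      · rw [zpow_natCast, hnat]
      · have h1 : w ^ (-(m : ℤ)) * w ^ m = 1 := by
          rw [zpow_neg, zpow_natCast, inv_mul_cancel₀ (pow_ne_zero _ hw0)]
        have h2 : w ^ (-(m : ℤ)) ≠ 0 := zpow_ne_zero _ hw0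
        have h3 := HahnSeries.order_mul h2 (pow_ne_zero m hw0)
        rw [h1, HahnSeries.order_one, hnat] at h3
        linarith
    -- units have order `0`
    have hord : ∀ f : PowerSeries κ, IsUnit f → (σ₀ f).order = 0 := by
      have hle : ∀ f : PowerSeries κ, IsUnit f → σ₀ f ≠ 0 ∧ (σ₀ f).order ≤ 0 := by
        intro f hf
        have h1 : IsUnit (PowerSeries.constantCoeff f) :=
          PowerSeries.isUnit_constantCoeff f hf
        have h2 : (σ₀ f).coeff 0 ≠ 0 := by
          rw [hσ₀c]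
          exact (map_ne_zero φ).mpr h1.ne_zero
        exact ⟨(hf.map σ₀).ne_zero, HahnSeries.order_le_of_coeff_ne_zero h2⟩
      intro f hf
      obtain ⟨g, hg⟩ := hf.exists_right_inv
      have hgu : IsUnit g := IsUnit.of_mul_eq_one f (by rw [mul_comm]; exact hg)
      obtain ⟨h1, h2⟩ := hle f hf
      obtain ⟨h3, h4⟩ := hle g hgu
      have h5 := HahnSeries.order_mul h1 h3
      rw [← map_mul, hg, map_one, HahnSeries.order_one] at h5
      linarith
    have hu : IsUnit (LaurentSeries.powerSeriesPart a) := by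
      rw [PowerSeries.isUnit_iff_constantCoeff, ← PowerSeries.coeff_zero_eq_constantCoeff_apply,
        LaurentSeries.powerSeriesPart_coeff, isUnit_iff_ne_zero]
      rw [Nat.cast_zero, add_zero]
      exact HahnSeries.coeff_order_eq_zero.not.mpr ha
    have hs : HahnSeries.single a.order (1 : κ) = (HahnSeries.single (1 : ℤ) (1 : κ)) ^ a.order :=
      RatFunc.single_zpow a.order
    have h1 := LaurentSeries.single_order_mul_powerSeriesPart a
    have h2 : σ a = w ^ a.order * σ₀ (LaurentSeries.powerSeriesPart a) := by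
      conv_lhs => rw [← h1]
      rw [map_mul, hσ, hs, map_zpow₀, hσX]
    rw [h2, HahnSeries.order_mul (zpow_ne_zero _ hw0) (hu.map σ₀).ne_zero, hpow, hord _ hu,
      add_zero]

end

end Pool.Agent.MP_1c8e06_ag.AI
end

section

set_option autoImplicit false

open Polynomial

namespace Pool.Agent.MP_1c8e06_ag.AI

noncomputable section

/-!
# Task A1: the weight filtration `Fil`

`Fil p F N a` : `s` has weight `p`, `y = yy p F` has weight `-n` where `n = F.natDegree`.
`F` is an arbitrary polynomial over an arbitrary nontrivial commutative ring here.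

Proofs.  Everything follows from the coordinates (`AI/A0.lean`: `coordE_add`, `coordE_ofL_mul`,
`coordE_sum_yy`, `eq_sum_coordE`, `extE`, `yy_pow_eq`, `zinv_coeff`).
* `Fil.ofL_mul`: coefficientwise, `coordE (ofL c * a) j = c * coordE a j`; the coefficient of a
  product of Laurent series is a sum over `addAntidiagonal` (or use
  `HahnSeries.coeff_mul`): if `i = k + l` with `p i - j n < p M + N` then `k < M` or
  `p l - j n < N`.
* `Fil.mul`: first show `Fil p F (-(k n)) (yy ^ k)` for all `k` by induction: multiplying by `yy`: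
  if `a = ∑_{j<p} a_j y^j` then `y a = ∑_{j<p-1} a_j y^(j+1) + a_(p-1) (y + F)`; here the weight
  of `a_(p-1) y` is that of `a_(p-1)` minus `n` and the weight of `a_(p-1) F(s⁻¹)` is at least the
  weight of `a_(p-1)` minus `p n`, both `≥ N - n` as `a_(p-1) y^(p-1)` has weight
  `w(a_(p-1)) - (p-1) n ≥ N` (and `n ≥ 0`).  So `Fil N a → Fil (N - n) (yy * a)`.  Then for general
  `b = ∑ b_j y^j`: `a b = ∑_j ofL b_j * (y^j a)`, `b_j` has weight `≥ M + j n` that is
  `(b_j).coeff i = 0` for `p i < M + j n`; use a version of `ofL_mul` for the weight bound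
  `p i < K` instead of `i < M` (prove that version first: `ofL_mul'`).
* `Fil.tau_sub`: `τ(a) - a = ∑_j a_j ((y+1)^j - y^j)` and
  `(y+1)^j - y^j = ∑_{k<j} (j choose k) y^k` has weight `≥ -(j-1) n`.
* `Fil.exists`: every Laurent series vanishes below its order.  `Fil.sep`: if all `Fil N a` then all
  coefficients vanish.
-/

variable {p : ℕ} [hp : Fact p.Prime] {R : Type} [CommRing R] [Nontrivial R] {F : R[X]}

theorem Fil.mono {N M : ℤ} {a : EE p F} (h : Fil p F M a) (hNM : N ≤ M) : Fil p F N a :=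
  fun j hj i hi => h j hj i (lt_of_lt_of_le hi hNM)

theorem Fil.zero (N : ℤ) : Fil p F N 0 := by
  intro j _ i _
  rw [coordE_zero]
  rfl

theorem Fil.add {N : ℤ} {a b : EE p F} (ha : Fil p F N a) (hb : Fil p F N b) :
    Fil p F N (a + b) := by
  intro j hj i hi
  rw [coordE_add, HahnSeries.coeff_add, ha j hj i hi, hb j hj i hi, add_zero]

theorem Fil.neg {N : ℤ} {a : EE p F} (ha : Fil p F N a) : Fil p F N (-a) := by
  intro j hj i hi
  rw [coordE_neg, HahnSeries.coeff_neg, ha j hj i hi, neg_zero]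

theorem Fil.sub {N : ℤ} {a b : EE p F} (ha : Fil p F N a) (hb : Fil p F N b) :
    Fil p F N (a - b) := by
  rw [sub_eq_add_neg]
  exact ha.add hb.neg

theorem Fil.sum {ι : Type} (s : Finset ι) {N : ℤ} {f : ι → EE p F}
    (h : ∀ i ∈ s, Fil p F N (f i)) : Fil p F N (∑ i ∈ s, f i) := by
  classical
  induction s using Finset.induction_on with
  | empty =>
    rw [Finset.sum_empty]
    exact Fil.zero N
  | insert a s ha ih =>
    rw [Finset.sum_insert ha]
    exact (h a (Finset.mem_insert_self a s)).add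
      (ih fun i hi => h i (Finset.mem_insert_of_mem hi))

theorem Fil.exists (a : EE p F) : ∃ N : ℤ, Fil p F N a := by
  classical
  have h1 : ∃ N : ℤ, ∀ j ∈ Finset.range p,
      N ≤ (p : ℤ) * (coordE p F a j).order - (j : ℤ) * (F.natDegree : ℤ) := by
    induction (Finset.range p) using Finset.induction_on with
    | empty => exact ⟨0, fun j hj => absurd hj (Finset.notMem_empty j)⟩
    | insert b s hb ih =>
      obtain ⟨N, hN⟩ := ih
      refine ⟨min N ((p : ℤ) * (coordE p F a b).order - (b : ℤ) * (F.natDegree : ℤ)), ?_⟩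
      intro j hj
      rcases Finset.mem_insert.1 hj with h | h
      · rw [h]
        exact min_le_right _ _
      · exact (min_le_left _ _).trans (hN j h)
  obtain ⟨N, hN⟩ := h1
  refine ⟨N, fun j hj i hi => ?_⟩
  apply HahnSeries.coeff_eq_zero_of_lt_order
  have h2 := hN j (Finset.mem_range.2 hj)
  have h3 : (p : ℤ) * i < (p : ℤ) * (coordE p F a j).order := by linarith
  exact lt_of_mul_lt_mul_left h3 (Int.natCast_nonneg p)

theorem Fil.sep {a : EE p F} (h : ∀ N : ℤ, Fil p F N a) : a = 0 := by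
  refine extE fun j hj => ?_
  rw [coordE_zero]
  ext i
  exact h ((p : ℤ) * i - (j : ℤ) * (F.natDegree : ℤ) + 1) j hj i (by omega)

/-- version of `ofL_mul` with a weight bound on `c`. -/
theorem Fil.ofL_mul' {K N : ℤ} {c : LaurentSeries R} {a : EE p F}
    (hc : ∀ i : ℤ, (p : ℤ) * i < K → c.coeff i = 0) (ha : Fil p F N a) :
    Fil p F (K + N) (ofL p F c * a) := by
  intro j hj i hi
  rw [coordE_ofL_mul, HahnSeries.coeff_mul]
  refine Finset.sum_eq_zero fun x hx => ?_
  have h1 : x.1 + x.2 = i := (Finset.mem_addAntidiagonal.1 hx).2.2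
  by_cases h2 : (p : ℤ) * x.1 < K
  · rw [hc _ h2, zero_mul]
  · have h3 : (p : ℤ) * x.2 - (j : ℤ) * (F.natDegree : ℤ) < N := by
      have h4 : (p : ℤ) * i = (p : ℤ) * x.1 + (p : ℤ) * x.2 := by
        rw [← h1]
        ring
      linarith
    rw [ha j hj _ h3, mul_zero]

theorem A1_coordE_yy_pow {j l : ℕ} (hj : j < p) (hl : l < p) :
    coordE p F (yy p F ^ j) l = if l = j then 1 else 0 := by
  have h := coordE_sum_yy (p := p) (F := F) (fun i => if i = j then (1 : LaurentSeries R) else 0) hl
  rw [Finset.sum_eq_single j] at h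
  · simpa using h
  · intro i _ hi
    simp [hi]
  · intro h1
    exact absurd (Finset.mem_range.2 hj) h1

theorem A1_term {K : ℤ} {c : LaurentSeries R} {j : ℕ} (hj : j < p)
    (hc : ∀ i : ℤ, (p : ℤ) * i - (j : ℤ) * (F.natDegree : ℤ) < K → c.coeff i = 0) :
    Fil p F K (ofL p F c * AI.yy p F ^ j) := by
  intro l hl i hi
  rw [coordE_ofL_mul, A1_coordE_yy_pow hj hl]
  by_cases h : l = j
  · rw [if_pos h, mul_one]
    rw [h] at hi
    exact hc i hi
  · rw [if_neg h, mul_zero]
    rfl

theorem A1_coeff_one {i : ℤ} (hi : i ≠ 0) : (1 : LaurentSeries R).coeff i = 0 := by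
  rw [HahnSeries.coeff_one, if_neg hi]

theorem Fil.one : Fil p F 0 (1 : EE p F) := by
  have h := A1_term (p := p) (R := R) (F := F) (K := 0) (c := 1) (j := 0) hp.out.pos (by
    intro i hi
    refine A1_coeff_one ?_
    rintro rfl
    simp at hi)
  simpa using h

theorem Fil.yy : Fil p F (-(F.natDegree : ℤ)) (yy p F) := by
  have h := A1_term (p := p) (R := R) (F := F) (K := -(F.natDegree : ℤ)) (c := 1) (j := 1)
    hp.out.one_lt (by
    intro i hi
    refine A1_coeff_one ?_
    rintro rfl
    simp at hi)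
  simpa using h

theorem A1_zinv_coeff (f : R[X]) {i : ℤ} (hi : (p : ℤ) * i < -((p : ℤ) * f.natDegree)) :
    (zinv R f).coeff i = 0 := by
  have hp0 : (0 : ℤ) < p := by exact_mod_cast hp.out.pos
  have h1 : i < -(f.natDegree : ℤ) := by
    have h2 : (p : ℤ) * i < (p : ℤ) * (-(f.natDegree : ℤ)) := by
      rw [mul_neg]
      exact hi
    exact lt_of_mul_lt_mul_left h2 hp0.le
  rw [zinv_coeff]
  split_ifs with h
  · apply Polynomial.coeff_eq_zero_of_natDegree_lt
    omega
  · rfl

theorem Fil.ze (f : R[X]) : Fil p F (-((p : ℤ) * f.natDegree)) (ze p F f) := by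
  have h := Fil.ofL_mul' (p := p) (F := F) (K := -((p : ℤ) * f.natDegree)) (c := zinv R f)
    (fun i hi => A1_zinv_coeff (p := p) f hi) Fil.one
  rw [add_zero, mul_one] at h
  exact h

/-- the coordinates of an element of the filtration -/
theorem A1_coord {N : ℤ} {a : EE p F} (ha : Fil p F N a) {j : ℕ} (hj : j < p) {i : ℤ}
    (hi : (p : ℤ) * i < N + (j : ℤ) * (F.natDegree : ℤ)) : (coordE p F a j).coeff i = 0 :=
  ha j hj i (by linarith)

theorem A1_yy_mul {N : ℤ} {a : EE p F} (ha : Fil p F N a) :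
    Fil p F (N - F.natDegree) (AI.yy p F * a) := by
  have hn : (0 : ℤ) ≤ F.natDegree := Int.natCast_nonneg _
  have hp1 := hp.out.one_lt
  have e : AI.yy p F * a = ∑ j ∈ Finset.range p,
      ofL p F (coordE p F a j) * AI.yy p F ^ (j + 1) := by
    conv_lhs => rw [eq_sum_coordE a]
    rw [Finset.mul_sum]
    refine Finset.sum_congr rfl fun j _ => ?_
    ring
  rw [e]
  refine Fil.sum _ fun j hj => ?_
  have hj' := Finset.mem_range.1 hj
  by_cases h : j + 1 < p
  · refine A1_term h fun i hi => ha j hj' i ?_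
    push_cast at hi
    linarith
  · have hjp : j + 1 = p := by omega
    have e1 : ofL p F (coordE p F a j) * AI.yy p F ^ (j + 1) =
        ofL p F (coordE p F a j) * AI.yy p F ^ 1 +
        ofL p F (zinv R F) * (ofL p F (coordE p F a j) * AI.yy p F ^ 0) := by
      rw [hjp, yy_pow_eq, ze_apply]
      ring
    rw [e1]
    have hjn : (0 : ℤ) ≤ (j : ℤ) * (F.natDegree : ℤ) := mul_nonneg (Int.natCast_nonneg _) hn
    refine Fil.add ?_ ?_
    · refine A1_term hp1 fun i hi => A1_coord ha hj' ?_
      push_cast at hi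
      linarith
    · have h1 : Fil p F (N + (j : ℤ) * (F.natDegree : ℤ))
          (ofL p F (coordE p F a j) * AI.yy p F ^ 0) :=
        A1_term hp.out.pos fun i hi => A1_coord ha hj' (by push_cast at hi; linarith)
      have h2 := Fil.ofL_mul' (p := p) (F := F) (K := -((p : ℤ) * F.natDegree)) (c := zinv R F)
        (fun i hi => A1_zinv_coeff (p := p) F hi) h1
      refine h2.mono (le_of_eq ?_)
      have h3 : (p : ℤ) = j + 1 := by exact_mod_cast hjp.symm
      rw [h3]
      ring

theorem A1_yy_pow_mul {N : ℤ} {a : EE p F} (ha : Fil p F N a) (k : ℕ) :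
    Fil p F (N - (k : ℤ) * F.natDegree) (AI.yy p F ^ k * a) := by
  induction k with
  | zero => simpa using ha
  | succ k ih =>
    have h := A1_yy_mul ih
    rw [← mul_assoc, ← pow_succ'] at h
    refine h.mono (le_of_eq ?_)
    push_cast
    ring

theorem Fil.mul {N M : ℤ} {a b : EE p F} (ha : Fil p F N a) (hb : Fil p F M b) :
    Fil p F (N + M) (a * b) := by
  have e : a * b = ∑ j ∈ Finset.range p,
      ofL p F (coordE p F b j) * (AI.yy p F ^ j * a) := by
    conv_lhs => rw [eq_sum_coordE b]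
    rw [Finset.mul_sum]
    refine Finset.sum_congr rfl fun j _ => ?_
    ring
  rw [e]
  refine Fil.sum _ fun j hj => ?_
  have hj' := Finset.mem_range.1 hj
  have h1 := A1_yy_pow_mul ha j
  have h2 := Fil.ofL_mul' (p := p) (F := F) (K := M + (j : ℤ) * (F.natDegree : ℤ))
    (c := coordE p F b j) (fun i hi => A1_coord hb hj' hi) h1
  refine h2.mono (le_of_eq ?_)
  ring

theorem A1_natCast_mul {N : ℤ} {a : EE p F} (ha : Fil p F N a) (m : ℕ) :
    Fil p F N ((m : EE p F) * a) := by
  induction m with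
  | zero =>
    rw [Nat.cast_zero, zero_mul]
    exact Fil.zero N
  | succ m ih =>
    rw [Nat.cast_succ, add_mul, one_mul]
    exact ih.add ha

theorem Fil.tau_sub [CharP R p] {N : ℤ} {a : EE p F} (ha : Fil p F N a) :
    Fil p F (N + F.natDegree) (tau p F a - a) := by
  have hn : (0 : ℤ) ≤ F.natDegree := Int.natCast_nonneg _
  have e : AI.tau p F a - a = ∑ j ∈ Finset.range p, ∑ k ∈ Finset.range j,
      ((j.choose k : ℕ) : EE p F) * (ofL p F (coordE p F a j) * AI.yy p F ^ k) := by
    conv_lhs => rw [eq_sum_coordE a]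
    rw [map_sum, ← Finset.sum_sub_distrib]
    refine Finset.sum_congr rfl fun j _ => ?_
    rw [map_mul, map_pow, tau_ofL, tau_yy, add_pow, Finset.sum_range_succ, Nat.choose_self,
      mul_add, Nat.cast_one, mul_one, Nat.sub_self, pow_zero, mul_one, add_sub_cancel_right,
      Finset.mul_sum]
    refine Finset.sum_congr rfl fun k _ => ?_
    rw [one_pow]
    ring
  rw [e]
  refine Fil.sum _ fun j hj => Fil.sum _ fun k hk => A1_natCast_mul ?_ _
  have hj' := Finset.mem_range.1 hj
  have hk' := Finset.mem_range.1 hk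
  refine A1_term (hk'.trans hj') fun i hi => A1_coord ha hj' ?_
  have h1 : ((k : ℤ) + 1) * (F.natDegree : ℤ) ≤ (j : ℤ) * (F.natDegree : ℤ) := by
    refine mul_le_mul_of_nonneg_right ?_ hn
    exact_mod_cast hk'
  linarith

theorem Fil.tau [CharP R p] {N : ℤ} {a : EE p F} (ha : Fil p F N a) :
    Fil p F N (tau p F a) := by
  have h := (ha.tau_sub.mono (show N ≤ N + (F.natDegree : ℤ) by
    have : (0 : ℤ) ≤ F.natDegree := Int.natCast_nonneg _
    linarith)).add ha
  rwa [sub_add_cancel] at h

end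

end Pool.Agent.MP_1c8e06_ag.AI
end

section

set_option autoImplicit false

open Polynomial

namespace Pool.Agent.MP_1c8e06_ag.AI

noncomputable section

/-!
# Task A5: the weight is a valuation, `EE p F` is a field, when `p ∤ deg F`

`n := F.natDegree`, `p ∤ n`.
Proof.
1. `le_wt_iff`: unfold (`Finset.le_inf_iff`); a nonzero Laurent series `c` satisfies
   (`∀ i, p*i - j*n < N → c.coeff i = 0`) iff `N ≤ p * c.order - j * n`.
2. `wt_eq_top_iff`.
3. Leading monomials.  Let `a ≠ 0` and `wt a = N`.  Since `gcd(p, n) = 1`, the integers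
   `p i - j n` (`i ∈ ℤ`, `0 ≤ j < p`) are pairwise distinct for distinct `(i,j)`; so there is a
   unique `(i, j)` with `j < p`, `p i - j n = N`, the coefficient `c := (coordE a j).coeff i` is
   nonzero, and `a = ofL (single i c) * y^j + a'` with `Fil p F (N+1) a'`.
   So: `∃ i j c, j < p ∧ c ≠ 0 ∧ p i - j n = N ∧ Fil p F (N+1) (a - ofL (single i c) * y^j)`.
4. Product of leading monomials: `y^j * y^j'` with `j, j' < p`.  If `j + j' < p` then
   `ofL (single i c) y^j * ofL (single i' c') y^j' = ofL (single (i+i') (c c')) y^(j+j')` has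
   weight exactly `N + N'` (not in `Fil (N+N'+1)`).  If `j + j' = p + r`, `0 ≤ r < p - 1`, then
   `y^(j+j') = y^(r+1) + ze F * y^r` and `ze F = ofL (single (-n) lc + higher terms)`, so the product
   is `ofL (single (i+i'-n) (c c' lc)) y^r` plus terms in `Fil (N+N'+1)`:
   `p (i+i'-n) - r n = N + N'` because `N + N' = p(i+i') - (p+r) n`; the term `y^(r+1)` has weight
   `p (i+i') - (r+1) n = N + N' + (p-1) n > N + N'` (and `r + 1 < p`), and
   the lower terms of `F` contribute weight `≥ N+N'+p`.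
   Hence `coordE`-coefficient at the leading position of the product is nonzero.
5. By `Fil.mul` (`AI/A1.lean`): `a b - lead(a) lead(b) ∈ Fil (N+N'+1)`, so `wt (a b) = N + N'`.
6. So `EE p F` has no zero divisors; it is nontrivial; `AdjoinRoot f` is a domain iff the ideal
   `(f)` is prime, so `asPoly p F` is prime, hence irreducible.
-/

variable {p : ℕ} [hp : Fact p.Prime] {κ : Type} [Field κ] {F : κ[X]}

theorem le_wt_iff (a : EE p F) (N : ℤ) : (N : WithTop ℤ) ≤ wt p F a ↔ Fil p F N a := by
  unfold wt Fil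
  rw [Finset.le_inf_iff]
  constructor
  · intro h j hj i hi
    have h1 := h j (Finset.mem_range.2 hj)
    by_cases h0 : coordE p F a j = 0
    · rw [h0, HahnSeries.coeff_zero]
    · rw [if_neg h0] at h1
      have h2 : N ≤ (p : ℤ) * (coordE p F a j).order - (j : ℤ) * (F.natDegree : ℤ) := by
        exact_mod_cast h1
      refine HahnSeries.coeff_eq_zero_of_lt_order ?_
      have hp0 : (0 : ℤ) < p := by exact_mod_cast hp.out.pos
      by_contra hc
      have h3 : (p : ℤ) * (coordE p F a j).order ≤ (p : ℤ) * i :=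
        mul_le_mul_of_nonneg_left (not_lt.1 hc) hp0.le
      linarith
  · intro h j hj
    by_cases h0 : coordE p F a j = 0
    · rw [if_pos h0]
      exact le_top
    · rw [if_neg h0]
      have h2 : N ≤ (p : ℤ) * (coordE p F a j).order - (j : ℤ) * (F.natDegree : ℤ) := by
        by_contra hc
        exact HahnSeries.coeff_order_eq_zero.not.2 h0
          (h j (Finset.mem_range.1 hj) _ (not_le.1 hc))
      exact_mod_cast h2

theorem wt_eq_top_iff (a : EE p F) : wt p F a = ⊤ ↔ a = 0 := by
  constructor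
  · intro h
    refine Fil.sep fun N => ?_
    rw [← le_wt_iff, h]
    exact le_top
  · rintro rfl
    by_contra h
    obtain ⟨m, hm⟩ := WithTop.ne_top_iff_exists.1 h
    have h1 := (le_wt_iff (0 : EE p F) (m + 1)).2 (Fil.zero _)
    rw [← hm] at h1
    have h2 : m + 1 ≤ m := by exact_mod_cast h1
    omega

theorem A5_wt_eq {a : EE p F} {N : ℤ} (h1 : Fil p F N a) (h2 : ¬ Fil p F (N + 1) a) :
    wt p F a = (N : WithTop ℤ) := by
  have h3 := (le_wt_iff a N).2 h1
  have h4 : ¬ ((N + 1 : ℤ) : WithTop ℤ) ≤ wt p F a := fun h => h2 ((le_wt_iff a (N + 1)).1 h)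
  have h5 : wt p F a ≠ ⊤ := by
    intro h
    rw [h] at h4
    exact h4 le_top
  obtain ⟨m, hm⟩ := WithTop.ne_top_iff_exists.1 h5
  rw [← hm] at h3 h4 ⊢
  have h6 : N ≤ m := by exact_mod_cast h3
  have h7 : ¬ (N + 1 ≤ m) := by exact_mod_cast h4
  have h8 : m = N := by omega
  rw [h8]

theorem A5_coordE_yy_pow {k : ℕ} (hk : k < p) (j : ℕ) :
    coordE p F (yy p F ^ k) j = if j = k then 1 else 0 := by
  by_cases hj : j < p
  · have h := coordE_sum_yy (p := p) (F := F)
      (fun i => if i = k then (1 : LaurentSeries κ) else 0) hj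
    rw [Finset.sum_eq_single k] at h
    · rw [if_pos rfl, map_one, one_mul] at h
      exact h
    · intro i _ hi
      rw [if_neg hi, map_zero, zero_mul]
    · intro h1
      exact absurd (Finset.mem_range.2 hk) h1
  · rw [coordE_of_le _ (not_lt.1 hj), if_neg]
    omega

theorem A5_coordE_mono (c : LaurentSeries κ) {k : ℕ} (hk : k < p) (j : ℕ) :
    coordE p F (ofL p F c * yy p F ^ k) j = if j = k then c else 0 := by
  rw [coordE_ofL_mul, A5_coordE_yy_pow hk]
  split_ifs <;> simp

/-- the leading monomial. -/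
theorem A5_lead (hF : ¬ p ∣ F.natDegree) {a : EE p F} (ha : a ≠ 0) :
    ∃ (N i : ℤ) (j : ℕ) (c : κ), j < p ∧ c ≠ 0 ∧
      (p : ℤ) * i - (j : ℤ) * (F.natDegree : ℤ) = N ∧ Fil p F N a ∧ ¬ Fil p F (N + 1) a ∧
      Fil p F (N + 1) (a - ofL p F (HahnSeries.single i c) * yy p F ^ j) := by
  have h1 : wt p F a ≠ ⊤ := fun h => ha ((wt_eq_top_iff a).1 h)
  obtain ⟨N, hN⟩ := WithTop.ne_top_iff_exists.1 h1
  have h2 : Fil p F N a := (le_wt_iff a N).1 (by rw [← hN])
  have h3 : ¬ Fil p F (N + 1) a := by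
    intro h
    have h4 := (le_wt_iff a (N + 1)).2 h
    rw [← hN] at h4
    have h5 : N + 1 ≤ N := by exact_mod_cast h4
    omega
  have h4 := h3
  unfold Fil at h4
  push Not at h4
  obtain ⟨j, hj, i, hi, hc⟩ := h4
  have h5 : (p : ℤ) * i - (j : ℤ) * (F.natDegree : ℤ) = N := by
    by_contra hne
    exact hc (h2 j hj i (lt_of_le_of_ne (by omega) hne))
  refine ⟨N, i, j, (coordE p F a j).coeff i, hj, hc, h5, h2, h3, ?_⟩
  intro j' hj' i' hi'
  rw [coordE_sub, A5_coordE_mono _ hj]
  by_cases hjj : j' = j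
  · subst hjj
    rw [if_pos rfl, HahnSeries.coeff_sub]
    by_cases hii : i' = i
    · subst hii
      rw [HahnSeries.coeff_single_same, sub_self]
    · rw [HahnSeries.coeff_single_of_ne hii, sub_zero]
      refine h2 j' hj' i' (lt_of_le_of_ne (by omega) ?_)
      intro h6
      apply hii
      have h7 : (p : ℤ) * i' = (p : ℤ) * i := by linarith
      exact mul_left_cancel₀ (by exact_mod_cast hp.out.ne_zero) h7
  · rw [if_neg hjj, sub_zero]
    refine h2 j' hj' i' (lt_of_le_of_ne (by omega) ?_)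
    intro h6
    apply hjj
    have h7 : (p : ℤ) * (i' - i) = ((j' : ℤ) - j) * (F.natDegree : ℤ) := by linarith
    have h8 : (p : ℤ) ∣ ((j' : ℤ) - j) * (F.natDegree : ℤ) := ⟨_, h7.symm⟩
    have hpp : Prime (p : ℤ) := Nat.prime_iff_prime_int.1 hp.out
    rcases hpp.dvd_or_dvd h8 with h9 | h9
    · have h10 : ((j' : ℤ) - j) = 0 := by
        refine Int.eq_zero_of_abs_lt_dvd h9 ?_
        rw [abs_lt]
        constructor <;> omega
      omega
    · exact absurd (Int.natCast_dvd_natCast.1 h9) hF

theorem A5_lead_mul {N N' i i' : ℤ} {j j' : ℕ} {c c' : κ}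
    (hj : j < p) (hc : c ≠ 0) (hN : (p : ℤ) * i - (j : ℤ) * (F.natDegree : ℤ) = N)
    (hj' : j' < p) (hc' : c' ≠ 0) (hN' : (p : ℤ) * i' - (j' : ℤ) * (F.natDegree : ℤ) = N')
    (hF0 : F ≠ 0) :
    ¬ Fil p F (N + N' + 1) ((ofL p F (HahnSeries.single i c) * yy p F ^ j) *
      (ofL p F (HahnSeries.single i' c') * yy p F ^ j')) := by
  have e : (ofL p F (HahnSeries.single i c) * yy p F ^ j) *
      (ofL p F (HahnSeries.single i' c') * yy p F ^ j') =
      ofL p F (HahnSeries.single (i + i') (c * c')) * yy p F ^ (j + j') := by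
    rw [← HahnSeries.single_mul_single, map_mul, pow_add]
    ring
  rw [e]
  intro h
  by_cases hjj : j + j' < p
  · have h1 := h (j + j') hjj (i + i') (by push_cast; linarith)
    rw [A5_coordE_mono _ hjj, if_pos rfl, HahnSeries.coeff_single_same] at h1
    exact mul_ne_zero hc hc' h1
  · obtain ⟨r, hr⟩ : ∃ r, j + j' = p + r := ⟨j + j' - p, by omega⟩
    have hrp : r + 1 < p := by omega
    have e2 : ofL p F (HahnSeries.single (i + i') (c * c')) * yy p F ^ (j + j') =
        ofL p F (HahnSeries.single (i + i') (c * c')) *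
          (yy p F ^ (r + 1) + ofL p F (zinv κ F) * yy p F ^ r) := by
      rw [hr, pow_add, yy_pow_eq, ze_apply]
      ring
    have hsum : (j : ℤ) + j' = p + r := by exact_mod_cast hr
    have h1 := h r (by omega) (i + i' + -(F.natDegree : ℤ)) (by
      have h2 : (j : ℤ) * (F.natDegree : ℤ) + (j' : ℤ) * (F.natDegree : ℤ) =
        (p : ℤ) * (F.natDegree : ℤ) + (r : ℤ) * (F.natDegree : ℤ) := by
        rw [← add_mul, hsum, add_mul]
      linarith)
    rw [e2, coordE_ofL_mul, coordE_add, A5_coordE_yy_pow hrp, A5_coordE_mono _ (by omega),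
      if_neg (by omega), if_pos rfl, zero_add, add_comm (i + i'),
      HahnSeries.coeff_single_mul_add, zinv_coeff, if_pos (by omega), neg_neg,
      Int.toNat_natCast, Polynomial.coeff_natDegree] at h1
    exact mul_ne_zero (mul_ne_zero hc hc') (Polynomial.leadingCoeff_ne_zero.2 hF0) h1

theorem wt_mul (hF : ¬ p ∣ F.natDegree) (a b : EE p F) :
    wt p F (a * b) = wt p F a + wt p F b := by
  have hF0 : F ≠ 0 := by
    rintro rfl
    exact hF (by rw [Polynomial.natDegree_zero]; exact dvd_zero p)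
  by_cases ha : a = 0
  · subst ha
    rw [zero_mul, (wt_eq_top_iff (0 : EE p F)).2 rfl, top_add]
  by_cases hb : b = 0
  · subst hb
    rw [mul_zero, (wt_eq_top_iff (0 : EE p F)).2 rfl, add_top]
  obtain ⟨N, i, j, c, hj, hc, hN, h1, h2, h3⟩ := A5_lead hF ha
  obtain ⟨N', i', j', c', hj', hc', hN', h1', h2', h3'⟩ := A5_lead hF hb
  rw [A5_wt_eq h1 h2, A5_wt_eq h1' h2', ← WithTop.coe_add]
  refine A5_wt_eq (Fil.mul h1 h1') ?_
  intro h
  refine A5_lead_mul hj hc hN hj' hc' hN' hF0 ?_
  set M := ofL p F (HahnSeries.single i c) * yy p F ^ j with hM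
  set M' := ofL p F (HahnSeries.single i' c') * yy p F ^ j' with hM'
  have hMF : Fil p F N M := by
    have h5 := Fil.sub h1 (Fil.mono h3 (by omega : N ≤ N + 1))
    rwa [sub_sub_cancel] at h5
  have e : M * M' = a * b - (a - M) * b - M * (b - M') := by ring
  rw [e]
  refine Fil.sub (Fil.sub h ?_) ?_
  · have h6 := Fil.mul h3 h1'
    rwa [show N + 1 + N' = N + N' + 1 by ring] at h6
  · have h6 := Fil.mul hMF h3'
    rwa [← add_assoc] at h6

theorem isDomain_EE (hF : ¬ p ∣ F.natDegree) : IsDomain (EE p F) := by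
  have hnt : Nontrivial (EE p F) := (ofL_injective (p := p) (F := F)).nontrivial
  have hnz : NoZeroDivisors (EE p F) := by
    refine ⟨fun {a b} hab => ?_⟩
    by_contra hc
    push Not at hc
    have h1 := wt_mul hF a b
    rw [hab, (wt_eq_top_iff (0 : EE p F)).2 rfl] at h1
    rcases WithTop.add_eq_top.1 h1.symm with h2 | h2
    · exact hc.1 ((wt_eq_top_iff a).1 h2)
    · exact hc.2 ((wt_eq_top_iff b).1 h2)
  exact NoZeroDivisors.to_isDomain _

theorem irreducible_asPoly (hF : ¬ p ∣ F.natDegree) : Irreducible (asPoly p F) := by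
  have h1 := isDomain_EE hF
  have h2 : IsDomain ((LaurentSeries κ)[X] ⧸ Ideal.span ({asPoly p F} : Set (LaurentSeries κ)[X])) :=
    h1
  rw [Ideal.Quotient.isDomain_iff_prime, Ideal.span_singleton_prime (asPoly_monic p F).ne_zero]
    at h2
  exact h2.irreducible

theorem wt_yy (hF : ¬ p ∣ F.natDegree) : wt p F (yy p F) = ((-(F.natDegree : ℤ) : ℤ) : WithTop ℤ) := by
  refine A5_wt_eq Fil.yy ?_
  intro h
  have h1 := h 1 hp.out.one_lt 0 (by push_cast; linarith)
  have h2 := A5_coordE_yy_pow (F := F) hp.out.one_lt 1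
  rw [pow_one, if_pos rfl] at h2
  rw [h2, HahnSeries.coeff_one, if_pos rfl] at h1
  exact one_ne_zero h1

theorem wt_ofL (c : LaurentSeries κ) (hc : c ≠ 0) :
    wt p F (ofL p F c) = (((p : ℤ) * c.order : ℤ) : WithTop ℤ) := by
  refine A5_wt_eq ?_ ?_
  · intro j _ i hi
    rw [coordE_ofL]
    by_cases hj : j = 0
    · subst hj
      rw [if_pos rfl]
      refine HahnSeries.coeff_eq_zero_of_lt_order ?_
      have hp0 : (0 : ℤ) < p := by exact_mod_cast hp.out.pos
      by_contra hcc
      have h3 : (p : ℤ) * c.order ≤ (p : ℤ) * i :=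
        mul_le_mul_of_nonneg_left (not_lt.1 hcc) hp0.le
      push_cast at hi
      linarith
    · rw [if_neg hj, HahnSeries.coeff_zero]
  · intro h
    have h1 := h 0 hp.out.pos c.order (by push_cast; linarith)
    rw [coordE_ofL, if_pos rfl] at h1
    exact HahnSeries.coeff_order_eq_zero.not.2 hc h1

theorem wt_ze (f : κ[X]) (hf : f ≠ 0) :
    wt p F (ze p F f) = ((-((p : ℤ) * f.natDegree) : ℤ) : WithTop ℤ) := by
  refine A5_wt_eq (Fil.ze f) ?_
  intro h
  have h1 := h 0 hp.out.pos (-(f.natDegree : ℤ)) (by push_cast; linarith)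
  rw [ze_apply, coordE_ofL, if_pos rfl, zinv_coeff, if_pos (by omega), neg_neg,
    Int.toNat_natCast, Polynomial.coeff_natDegree] at h1
  exact Polynomial.leadingCoeff_ne_zero.2 hf h1

end

end Pool.Agent.MP_1c8e06_ag.AI
end

section

set_option autoImplicit false

open Polynomial

namespace Pool.Agent.MP_1c8e06_ag.AI

noncomputable section

/-!
# Task W1: from the abstract data `W0` to the explicit data `WD`

Proof.  `E := EE p F` is a field (`irreducible_asPoly hF`).  `S := W.S`, a `κ[X]`-algebra via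
`P ↦ (fun _ => ze P)`, finitely generated as a module (`hfin`) and torsion free (`ze` injective, `E` a
domain, functions), so free over the PID `κ[X]`: a basis `b_i : G → E`, `i : Fin r`.
1. For `f ∈ S`, the constant function `Tr f := ∑_x f x` is in `S` (`∑_h f(x h)`, `hact`) and invariant, so
   it is `ze` of a polynomial (`hinv`).  So `T i j := Tr (b_i b_j) ∈ κ[X]`.
2. `u, v` from `hdual`.  Write `u_k = ∑ ze(p k i) b_i`, `v_k = ∑ ze (q k i) b_i` and
   `Z i j := ∑_k p k i * q k j`.  Then `∑_{i,j} b_i x * ze (Z i j) * b_j x' = δ_{x,x'}`.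
3. For every `l`: `b_l x = ∑_{x'} δ_{x,x'} b_l x' = ∑_{i} b_i x ze ((Z T) i l)`, so `Z T = 1` (basis).
   So `T` is invertible over `κ[X]`.
4. `r = card G`: with the matrix `B : G × Fin r → E`, `B x i = b_i x`: `B Z Bᵀ = 1` gives
   `rank B ≥ card G`, `card G ≤ r`; `Bᵀ B = T` is invertible over the field `E`, so `r ≤ card G`.
   Reindex the basis by `G` (`Fintype.equivOfCardEq`).
5. `μ, α, ν`: coordinates of `b_i b_j ∈ S`, of `x ↦ b_l (x h)`, of `1`.  `T' := Z`.  `hg`: from `W.hg`.
Last: `Conn H`: `∑_l ze (f l) b_l ∈ S`.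
-/
private theorem W1_abs {R E : Type} [CommRing R] [IsDomain R] [IsPrincipalIdealRing R]
    [CommRing E] [IsDomain E] (z : R →+* E) (hz : Function.Injective z)
    {G : Type} [Group G] [Fintype G] (S : Subring (G → E))
    (hact : ∀ f ∈ S, ∀ h, (fun x => f (x * h)) ∈ S)
    (hze : ∀ P : R, (fun _ => z P) ∈ S)
    (hfin : ∃ (n : ℕ) (v : Fin n → G → E), (∀ i, v i ∈ S) ∧
      ∀ f ∈ S, ∃ c : Fin n → R, ∀ x, f x = ∑ i, z (c i) * v i x)
    (hinv : ∀ f ∈ S, (∀ h x, f (x * h) = f x) → ∃ P : R, ∀ x, f x = z P)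
    (hdual : ∃ (n : ℕ) (u v : Fin n → G → E), (∀ i, u i ∈ S) ∧ (∀ i, v i ∈ S) ∧
      ∀ x x' [Decidable (x = x')], ∑ i, u i x * v i x' = if x = x' then 1 else 0) :
    ∃ b : G → G → E, (∀ l, b l ∈ S) ∧
      (∀ f ∈ S, ∃ c : G → R, ∀ x, f x = ∑ l, z (c l) * b l x) ∧
      (∃ T : G → G → R, ∀ i j, ∑ x, b i x * b j x = z (T i j)) ∧
      (∃ T' : G → G → R, ∀ x x' [Decidable (x = x')],
        ∑ l, ∑ m, b l x * z (T' l m) * b m x' = if x = x' then 1 else 0) := by
  classical
  let algE : Algebra R E := z.toAlgebra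
  have hsm : ∀ (c : R) (f : G → E), c • f = (fun _ => z c) * f := fun c f => by
    funext x
    rfl
  let SS : Submodule R (G → E) :=
    { carrier := S
      add_mem' := fun ha hb => S.add_mem ha hb
      zero_mem' := S.zero_mem
      smul_mem' := fun c f hf => by
        rw [hsm]
        exact S.mul_mem (hze c) hf }
  obtain ⟨n, v, hv, hvs⟩ := hfin
  have hfinite : Module.Finite R SS := by
    rw [Module.Finite.iff_fg]
    refine ⟨(Set.finite_range v).toFinset, ?_⟩
    rw [Set.Finite.coe_toFinset]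
    apply le_antisymm
    · rw [Submodule.span_le]
      rintro _ ⟨i, rfl⟩
      exact hv i
    · intro f hf
      obtain ⟨c, hc⟩ := hvs f hf
      have h1 : f = ∑ i, c i • v i := by
        funext x
        rw [hc x, Finset.sum_apply]
        rfl
      rw [h1]
      exact Submodule.sum_mem _ fun i _ => Submodule.smul_mem _ _
        (Submodule.subset_span ⟨i, rfl⟩)
  have htf : Module.IsTorsionFree R SS := by
    refine ⟨fun r hr => ?_⟩
    have hr0 : r ≠ 0 := hr.ne_zero
    have hzr : z r ≠ 0 := fun h => hr0 (hz (by rw [h, map_zero]))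
    intro f f' hff
    apply Subtype.ext
    funext x
    have h1 : (r • (f : G → E)) x = (r • (f' : G → E)) x :=
      congrFun (congrArg Subtype.val hff) x
    have h2 : z r * (f : G → E) x = z r * (f' : G → E) x := h1
    exact mul_left_cancel₀ hzr h2
  obtain ⟨ι, hft, ⟨b0⟩⟩ : ∃ (ι : Type) (_ : Fintype ι), Nonempty (Module.Basis ι R SS) :=
    ⟨Module.Free.ChooseBasisIndex R SS, inferInstance, ⟨Module.Free.chooseBasis R SS⟩⟩
  let B : ι → G → E := fun i => (b0 i : G → E)
  have hBS : ∀ i, B i ∈ S := fun i => (b0 i).2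
  have hspan : ∀ f ∈ S, ∃ c : ι → R, ∀ x, f x = ∑ i, z (c i) * B i x := by
    intro f hf
    refine ⟨fun i => b0.repr ⟨f, hf⟩ i, fun x => ?_⟩
    have h1 : ((∑ i, b0.repr ⟨f, hf⟩ i • b0 i : SS) : G → E) x = f x := by
      rw [b0.sum_repr]
    rw [← h1, Submodule.coe_sum, Finset.sum_apply]
    rfl
  have huniq : ∀ c : ι → R, (∀ x, ∑ i, z (c i) * B i x = 0) → ∀ i, c i = 0 := by
    intro c hc
    have h1 : ∑ i, c i • b0 i = 0 := by
      apply Subtype.ext
      funext x
      rw [Submodule.coe_sum, Finset.sum_apply]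
      exact hc x
    exact Fintype.linearIndependent_iff.mp b0.linearIndependent c h1
  have htr : ∀ f ∈ S, ∃ P : R, ∑ x, f x = z P := by
    intro f hf
    have h1 : (fun _ : G => ∑ y, f y) ∈ S := by
      have h2 : (fun _ : G => ∑ y, f y) = ∑ h : G, fun x => f (x * h) := by
        funext x
        rw [Finset.sum_apply]
        exact (Equiv.sum_comp (Equiv.mulLeft x) f).symm
      rw [h2]
      exact Subring.sum_mem _ fun h _ => hact f hf h
    obtain ⟨P, hP⟩ := hinv _ h1 fun _ _ => rfl
    exact ⟨P, hP 1⟩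
  have hT : ∀ i j, ∃ P : R, ∑ x, B i x * B j x = z P := fun i j =>
    htr (B i * B j) (S.mul_mem (hBS i) (hBS j))
  choose T0 hT0 using hT
  obtain ⟨m, u, w, hu, hw, huw⟩ := hdual
  choose pp hpp using fun k => hspan (u k) (hu k)
  choose qq hqq using fun k => hspan (w k) (hw k)
  let Z0 : ι → ι → R := fun i j => ∑ k, pp k i * qq k j
  have hZ : ∀ (x x' : G) [Decidable (x = x')], ∑ i, ∑ j, B i x * z (Z0 i j) * B j x' =
      if x = x' then 1 else 0 := by
    intro x x' _
    rw [← huw x x']
    have h1 : ∀ k, u k x * w k x' = ∑ i, ∑ j, B i x * z (pp k i * qq k j) * B j x' := by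
      intro k
      rw [hpp k x, hqq k x', Finset.sum_mul_sum]
      refine Finset.sum_congr rfl fun i _ => Finset.sum_congr rfl fun j _ => ?_
      rw [map_mul]
      ring
    calc ∑ i, ∑ j, B i x * z (Z0 i j) * B j x'
        = ∑ i, ∑ j, ∑ k, B i x * z (pp k i * qq k j) * B j x' := by
          refine Finset.sum_congr rfl fun i _ => Finset.sum_congr rfl fun j _ => ?_
          rw [map_sum, Finset.mul_sum, Finset.sum_mul]
      _ = ∑ i, ∑ k, ∑ j, B i x * z (pp k i * qq k j) * B j x' :=
          Finset.sum_congr rfl fun i _ => Finset.sum_comm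
      _ = ∑ k, ∑ i, ∑ j, B i x * z (pp k i * qq k j) * B j x' := Finset.sum_comm
      _ = ∑ k, u k x * w k x' := Finset.sum_congr rfl fun k _ => (h1 k).symm
  -- the matrices
  let MB : Matrix G ι E := Matrix.of fun x i => B i x
  let Zm : Matrix ι ι E := Matrix.of fun i j => z (Z0 i j)
  have hm1 : MB * (Zm * MB.transpose) = 1 := by
    ext x x'
    rw [Matrix.one_apply, ← hZ x x', Matrix.mul_apply]
    refine Finset.sum_congr rfl fun i _ => ?_
    rw [Matrix.mul_apply, Finset.mul_sum]
    refine Finset.sum_congr rfl fun j _ => ?_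
    change B i x * (z (Z0 i j) * B j x') = _
    ring
  have hZT : ∀ i l, ∑ j, Z0 i j * T0 j l = if i = l then 1 else 0 := by
    intro i l
    have h2 : ∀ i', (∑ j, Z0 i' j * T0 j l) - (if i' = l then 1 else 0) = 0 := by
      refine huniq (fun i' => (∑ j, Z0 i' j * T0 j l) - (if i' = l then 1 else 0)) fun x => ?_
      have h3 : ∑ i', z (∑ j, Z0 i' j * T0 j l) * B i' x = B l x := by
        calc ∑ i', z (∑ j, Z0 i' j * T0 j l) * B i' x
            = ∑ i', ∑ j, B i' x * z (Z0 i' j) * (∑ x', B j x' * B l x') := by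
              refine Finset.sum_congr rfl fun i' _ => ?_
              rw [map_sum, Finset.sum_mul]
              refine Finset.sum_congr rfl fun j _ => ?_
              rw [map_mul, hT0 j l]
              ring
          _ = ∑ i', ∑ j, ∑ x', B i' x * z (Z0 i' j) * B j x' * B l x' := by
              refine Finset.sum_congr rfl fun i' _ => Finset.sum_congr rfl fun j _ => ?_
              rw [Finset.mul_sum]
              refine Finset.sum_congr rfl fun x' _ => ?_
              ring
          _ = ∑ i', ∑ x', ∑ j, B i' x * z (Z0 i' j) * B j x' * B l x' :=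
              Finset.sum_congr rfl fun i' _ => Finset.sum_comm
          _ = ∑ x', ∑ i', ∑ j, B i' x * z (Z0 i' j) * B j x' * B l x' := Finset.sum_comm
          _ = ∑ x', (if x = x' then 1 else 0) * B l x' := by
              refine Finset.sum_congr rfl fun x' _ => ?_
              rw [← hZ x x', Finset.sum_mul]
              refine Finset.sum_congr rfl fun i' _ => ?_
              rw [Finset.sum_mul]
          _ = B l x := by simp
      have h4 : ∑ i', z ((∑ j, Z0 i' j * T0 j l) - (if i' = l then 1 else 0)) * B i' x =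
          (∑ i', z (∑ j, Z0 i' j * T0 j l) * B i' x) -
            ∑ i', z (if i' = l then 1 else 0) * B i' x := by
        rw [← Finset.sum_sub_distrib]
        refine Finset.sum_congr rfl fun i' _ => ?_
        rw [map_sub, sub_mul]
      rw [h4, h3]
      have h5 : ∑ i', z (if i' = l then 1 else 0) * B i' x = B l x := by
        rw [Finset.sum_eq_single l]
        · simp
        · intro i' _ hi'
          rw [if_neg hi', map_zero, zero_mul]
        · intro h
          exact absurd (Finset.mem_univ l) h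
      rw [h5, sub_self]
    exact sub_eq_zero.mp (h2 i)
  have hm2 : (Zm * MB.transpose) * MB = 1 := by
    ext i l
    rw [Matrix.mul_assoc, Matrix.mul_apply, Matrix.one_apply]
    have h2 : ∀ j, (MB.transpose * MB) j l = z (T0 j l) := by
      intro j
      rw [Matrix.mul_apply, ← hT0 j l]
      rfl
    calc ∑ j, Zm i j * (MB.transpose * MB) j l = ∑ j, z (Z0 i j) * z (T0 j l) :=
          Finset.sum_congr rfl fun j _ => by rw [h2]; rfl
      _ = z (∑ j, Z0 i j * T0 j l) := by
          rw [map_sum]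
          exact Finset.sum_congr rfl fun j _ => (map_mul z _ _).symm
      _ = if i = l then 1 else 0 := by
          rw [hZT]
          split_ifs <;> simp
  have hc1 : Fintype.card G ≤ Fintype.card ι := by
    have h2 := Matrix.rank_mul_le_left MB (Zm * MB.transpose)
    rw [hm1, Matrix.rank_one] at h2
    exact h2.trans (Matrix.rank_le_card_width MB)
  have hc2 : Fintype.card ι ≤ Fintype.card G := by
    have h2 := Matrix.rank_mul_le_left (Zm * MB.transpose) MB
    rw [hm2, Matrix.rank_one] at h2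
    exact h2.trans (Matrix.rank_le_card_width _)
  let e : G ≃ ι := Fintype.equivOfCardEq (le_antisymm hc1 hc2)
  refine ⟨fun l => B (e l), fun l => hBS _, ?_, ⟨fun i j => T0 (e i) (e j), fun i j =>
    hT0 _ _⟩, ⟨fun i j => Z0 (e i) (e j), ?_⟩⟩
  · intro f hf
    obtain ⟨c, hc⟩ := hspan f hf
    refine ⟨fun l => c (e l), fun x => ?_⟩
    rw [hc x]
    exact (Equiv.sum_comp e fun i => z (c i) * B i x).symm
  · intro x x' _
    rw [← hZ x x', ← Equiv.sum_comp e fun i => ∑ j, B i x * z (Z0 i j) * B j x']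
    refine Finset.sum_congr rfl fun i _ => ?_
    exact Equiv.sum_comp e fun j => B (e i) x * z (Z0 (e i) j) * B j x'

theorem exists_WD {p : ℕ} [hp : Fact p.Prime] {κ : Type} [Field κ] [CharP κ p] {G : Type}
    [Group G] [Fintype G] {g : G} {F : κ[X]} (W : W0 p κ G g F) (hF : ¬ p ∣ F.natDegree)
    (H : Subgroup G) (hH : ∀ h ∈ H, ∀ f ∈ W.S, f 1 = 0 → f h = 0) :
    ∃ D : WD p κ G g F, D.Conn H := by
  have hdom : IsDomain (EE p F) := isDomain_EE hF
  obtain ⟨b, hbS, hspan, ⟨T, hT⟩, ⟨T', hT'⟩⟩ := W1_abs (ze p F) ze_injective W.S W.hact W.hze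
    W.hfin W.hinv W.hdual
  choose μ hμ using fun i j => hspan (b i * b j) (W.S.mul_mem (hbS i) (hbS j))
  choose α hα using fun h l => hspan (fun x => b l (x * h)) (W.hact (b l) (hbS l) h)
  obtain ⟨ν, hν⟩ := hspan 1 W.S.one_mem
  refine ⟨{ b := b, μ := μ, α := α, ν := ν, T := T, T' := T', hg := ?_, hmul := ?_,
            hact := ?_, hone := ?_, htr := hT, hdual := hT' }, ?_⟩
  · exact fun l x => W.hg (b l) (hbS l) x
  · exact fun i j x => hμ i j x
  · exact fun h l x => hα h l x
  · exact fun x => (hν x).symm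
  · intro h hh f hf
    have h1 : (∑ l, (fun _ : G => ze p F (f l)) * b l) ∈ W.S :=
      Subring.sum_mem _ fun l _ => W.S.mul_mem (W.hze (f l)) (hbS l)
    have h2 : ∀ x, (∑ l, (fun _ : G => ze p F (f l)) * b l) x = ∑ l, ze p F (f l) * b l x := by
      intro x
      rw [Finset.sum_apply]
      rfl
    have h3 := hH h hh _ h1 (by rw [h2]; exact hf)
    rw [h2] at h3
    exact h3

end

end Pool.Agent.MP_1c8e06_ag.AI
end

section

set_option autoImplicit false

open Polynomial

namespace Pool.Agent.MP_1c8e06_ag.AI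

noncomputable section

/-!
# Task A4: the substitution `X ↦ h(X)` at infinity, i.e. `s ↦ 1 / h(1/s)`

Proof.  In `κ'((s))` the element `zinv h` has order `-m`, `m = h.natDegree` (leading coefficient of
`h`, `zinv_coeff`), so it is nonzero and `w := (zinv h)⁻¹` has order `m > 0`.  Take `σ` from
`exists_subw φ w` (`AI/A4w.lean`).  `σ (single (-1) 1) = (σ (single 1 1))⁻¹ = zinv h`, so `σ ∘ zinv` and
`f ↦ zinv ((f.map φ).comp h)` are ring homomorphisms that agree on `C c` and `X`
(`Polynomial.ringHom_ext`, `zinv_X`, `zinv_C`).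
-/
theorem exists_sub {κ κ' : Type} [Field κ] [Field κ'] (φ : κ →+* κ') (h : κ'[X])
    (hm : 0 < h.natDegree) :
    ∃ σ : LaurentSeries κ →+* LaurentSeries κ',
      (∀ f : κ[X], σ (zinv κ f) = zinv κ' ((f.map φ).comp h)) ∧
      (∀ a : LaurentSeries κ, a ≠ 0 → (σ a).order = (h.natDegree : ℤ) * a.order) := by
  have hc : ∀ n : ℤ, (zinv κ' h).coeff n = if n ≤ 0 then h.coeff (-n).toNat else 0 :=
    fun n => zinv_coeff h n
  have hh0 : h ≠ 0 := by
    rintro rfl
    simp at hm
  have hcm : (zinv κ' h).coeff (-(h.natDegree : ℤ)) ≠ 0 := by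
    rw [hc, if_pos (by omega)]
    simpa using hh0
  have hz0 : zinv κ' h ≠ 0 := by
    intro h0
    rw [h0] at hcm
    simp at hcm
  have hord : (zinv κ' h).order = -(h.natDegree : ℤ) := by
    apply le_antisymm
    · exact HahnSeries.order_le_of_coeff_ne_zero hcm
    · by_contra hlt
      rw [not_le] at hlt
      have h1 : (zinv κ' h).coeff (zinv κ' h).order ≠ 0 := 
        fun h0 => hz0 (HahnSeries.coeff_order_eq_zero.mp h0)
      rw [hc] at h1
      split_ifs at h1 with h2
      · apply h1
        apply Polynomial.coeff_eq_zero_of_natDegree_lt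
        omega
      · exact h1 rfl
  set w := (zinv κ' h)⁻¹ with hw
  have hw0 : w ≠ 0 := inv_ne_zero hz0
  have hww : w * zinv κ' h = 1 := inv_mul_cancel₀ hz0
  have hwo : w.order = h.natDegree := by
    have h1 := HahnSeries.order_mul hw0 hz0
    rw [hww, HahnSeries.order_one, hord] at h1
    omega
  obtain ⟨σ, h1, h2, h3⟩ := exists_subw φ w (by rw [hwo]; exact_mod_cast hm)
  refine ⟨σ, ?_, ?_⟩
  · intro f
    have h4 : σ (HahnSeries.single (-1 : ℤ) (1 : κ)) = zinv κ' h := by
      have h5 : (HahnSeries.single (1 : ℤ) (1 : κ)) * HahnSeries.single (-1 : ℤ) (1 : κ) = 1 := by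
        rw [HahnSeries.single_mul_single]
        simp
      have h6 : w * σ (HahnSeries.single (-1 : ℤ) (1 : κ)) = 1 := by
        rw [← h1, ← map_mul, h5, map_one]
      exact mul_left_cancel₀ hw0 (h6.trans hww.symm)
    have h7 : σ.comp (zinv κ) =
        (zinv κ').comp ((Polynomial.compRingHom h).comp (Polynomial.mapRingHom φ)) := by
      refine Polynomial.ringHom_ext ?_ ?_
      · intro c
        simp only [RingHom.comp_apply, Polynomial.coe_compRingHom_apply,
          Polynomial.coe_mapRingHom, Polynomial.map_C, Polynomial.C_comp]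
        rw [zinv_C, zinv_C, h2]
      · simp only [RingHom.comp_apply, Polynomial.coe_compRingHom_apply,
          Polynomial.coe_mapRingHom, Polynomial.map_X, Polynomial.X_comp]
        rw [zinv_X, h4]
    have h8 := RingHom.congr_fun h7 f
    simpa only [RingHom.comp_apply, Polynomial.coe_compRingHom_apply,
      Polynomial.coe_mapRingHom] using h8
  · intro a ha
    rw [h3 a ha, hwo]

end

end Pool.Agent.MP_1c8e06_ag.AI
end

section

set_option autoImplicit false

open Polynomial

namespace Pool.Agent.MP_1c8e06_ag.AI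

noncomputable section

private def D1_K {A E G : Type} [CommRing A] [CommRing E] [Fintype G] (z : A →+* E) (b : G → E) :
    Submodule A (G → A) where
  carrier := {f | ∑ l, z (f l) * b l = 0}
  add_mem' := by
    intro f f' hf hf'
    change ∑ l, z ((f + f') l) * b l = 0
    change ∑ l, z (f l) * b l = 0 at hf
    change ∑ l, z (f' l) * b l = 0 at hf'
    simp only [Pi.add_apply, map_add, add_mul, Finset.sum_add_distrib]
    rw [hf, hf', add_zero]
  zero_mem' := by
    change ∑ l, z ((0 : G → A) l) * b l = 0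
    simp
  smul_mem' := by
    intro a f hf
    change ∑ l, z ((a • f) l) * b l = 0
    change ∑ l, z (f l) * b l = 0 at hf
    simp only [Pi.smul_apply, smul_eq_mul, map_mul, mul_assoc]
    rw [← Finset.mul_sum, hf, mul_zero]

private theorem D1_mem {A E G : Type} [CommRing A] [CommRing E] [Fintype G] (z : A →+* E)
    (b : G → E) (f : G → A) : f ∈ D1_K z b ↔ ∑ l, z (f l) * b l = 0 := Iff.rfl

private theorem D1_lin {A E G : Type} [CommRing A] [CommRing E] [Fintype G] (z : A →+* E)
    (b : G → E) {r : ℕ} (w : Fin r → G → A) (a : Fin r → A) :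
    ∑ l, z ((∑ m, a m • w m) l) * b l = ∑ m, z (a m) * ∑ l, z (w m l) * b l := by
  simp only [Finset.sum_apply, Pi.smul_apply, smul_eq_mul, map_sum, map_mul, Finset.mul_sum,
    Finset.sum_mul]
  rw [Finset.sum_comm]
  refine Finset.sum_congr rfl fun m _ => Finset.sum_congr rfl fun l _ => ?_
  ring

private theorem D1_basis {A E G : Type} [CommRing A] [IsDomain A] [IsPrincipalIdealRing A]
    [CommRing E] [IsDomain E] [Fintype G] (z : A →+* E) (hz : Function.Injective z) (b : G → E) :
    ∃ (r : ℕ) (w : Fin r → G → A) (co : (G → A) → Fin r → A),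
      (∀ f, ∑ l, z (f l) * b l = ∑ m, z (co f m) * ∑ l, z (w m l) * b l) ∧
      (∀ f : Fin r → A, ∑ m, z (f m) * ∑ l, z (w m l) * b l = 0 → f = 0) := by
  have htf : Module.IsTorsionFree A ((G → A) ⧸ D1_K z b) := by
    rw [Module.isTorsionFree_iff_smul_eq_zero]
    intro a q hq
    induction q using Submodule.Quotient.induction_on with
    | _ f =>
      rw [← Submodule.Quotient.mk_smul, Submodule.Quotient.mk_eq_zero, D1_mem] at hq
      rw [Submodule.Quotient.mk_eq_zero, D1_mem]
      simp only [Pi.smul_apply, smul_eq_mul, map_mul, mul_assoc] at hq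
      rw [← Finset.mul_sum] at hq
      rcases mul_eq_zero.1 hq with h | h
      · left
        exact hz (by rw [h, map_zero])
      · right
        exact h
  obtain ⟨bas, hbas⟩ : ∃ bas : Module.Basis (Fin (Module.finrank A ((G → A) ⧸ D1_K z b))) A
      ((G → A) ⧸ D1_K z b), bas = Module.finBasis A ((G → A) ⧸ D1_K z b) := ⟨_, rfl⟩
  choose w hw using fun i => Submodule.Quotient.mk_surjective (D1_K z b) (bas i)
  refine ⟨_, w, fun f m => bas.repr (Submodule.Quotient.mk f) m, ?_, ?_⟩
  · intro f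
    rw [← D1_lin]
    have h1 : (Submodule.Quotient.mk f : (G → A) ⧸ D1_K z b) =
        Submodule.Quotient.mk (∑ m, (bas.repr (Submodule.Quotient.mk f) m) • w m) := by
      conv_lhs => rw [← bas.sum_repr (Submodule.Quotient.mk f)]
      rw [← Submodule.mkQ_apply, ← Submodule.mkQ_apply, map_sum]
      refine Finset.sum_congr rfl fun m _ => ?_
      rw [map_smul, Submodule.mkQ_apply, Submodule.mkQ_apply, hw]
    rw [Submodule.Quotient.eq, D1_mem] at h1
    simp only [Pi.sub_apply, map_sub, sub_mul, Finset.sum_sub_distrib] at h1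
    exact sub_eq_zero.1 h1
  · intro f hf
    rw [← D1_lin, ← D1_mem, ← Submodule.Quotient.mk_eq_zero, ← Submodule.mkQ_apply, map_sum] at hf
    have h2 : ∑ m, f m • bas m = 0 := by
      rw [← hf]
      refine Finset.sum_congr rfl fun m _ => ?_
      rw [map_smul, Submodule.mkQ_apply, hw]
    funext m
    exact Fintype.linearIndependent_iff.1 bas.linearIndependent f h2 m

private theorem D1_sum3 {ι ι' ι'' M : Type} [Fintype ι] [Fintype ι'] [Fintype ι'']
    [AddCommMonoid M] (f : ι → ι' → ι'' → M) :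
    ∑ l, ∑ m, ∑ n, f l m n = ∑ n, ∑ l, ∑ m, f l m n := by
  calc ∑ l, ∑ m, ∑ n, f l m n = ∑ l, ∑ n, ∑ m, f l m n :=
        Finset.sum_congr rfl fun l _ => Finset.sum_comm
    _ = _ := Finset.sum_comm

private theorem D1_main {A E G : Type} [CommRing A] [IsDomain A] [IsPrincipalIdealRing A]
    [CommRing E] [IsDomain E] [Group G] [Fintype G] (z : A →+* E) (hz : Function.Injective z)
    (b : G → G → E) (μ α : G → G → G → A) (ν : G → A)
    (hmul : ∀ i j x, b i x * b j x = ∑ l, z (μ i j l) * b l x)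
    (hact : ∀ h l x, b l (x * h) = ∑ m, z (α h l m) * b m x)
    (hone : ∀ x, ∑ l, z (ν l) * b l x = 1) (H : Subgroup G)
    (hD : ∀ h ∈ H, ∀ f : G → A, ∑ l, z (f l) * b l 1 = 0 → ∑ l, z (f l) * b l h = 0) :
    ∃ (r : ℕ) (c : Fin r → E) (β : G → G → Fin r → A) (γ : Fin r → Fin r → Fin r → A),
      (∀ l x, b l x = ∑ m, z (β l x m) * c m) ∧
      (∀ i j, c i * c j = ∑ m, z (γ i j m) * c m) ∧
      (∀ f : Fin r → A, ∑ m, z (f m) * c m = 0 → f = 0) ∧
      (∀ f : Fin r → A, f ≠ 0 →
        (Matrix.of fun k m => ∑ i, f i * γ i k m : Matrix (Fin r) (Fin r) A).det ≠ 0) ∧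
      (∃ i, c i ≠ 0) ∧
      (∀ h ∈ H, ∃ δ : Fin r → Fin r → A, ∀ l x m,
        β l (h * x) m = ∑ n, β l x n * δ n m) := by
  classical
  obtain ⟨r, w, co, hco, hind⟩ := D1_basis (z) hz (fun l => b l 1)
  have hα : ∀ l x, b l x = ∑ m, z (α x l m) * b m 1 := by
    intro l x
    rw [← hact, one_mul]
  obtain ⟨c, hc⟩ : ∃ c : Fin r → E, ∀ m, c m = ∑ l, z (w m l) * b l 1 :=
    ⟨_, fun _ => rfl⟩
  simp only [← hc] at hco hind
  have hΦ : ∀ f : G → A, ∑ l, z (f l) * b l 1 = ∑ m, z (co f m) * c m := hco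
  have hmulΦ : ∀ f f' : G → A, (∑ l, z (f l) * b l 1) * (∑ l, z (f' l) * b l 1) =
      ∑ n, z (∑ l, ∑ m, f l * f' m * μ l m n) * b n 1 := by
    intro f f'
    rw [Finset.sum_mul_sum]
    have e1 : ∀ l m, z (f l) * b l 1 * (z (f' m) * b m 1) =
        ∑ n, z (f l * f' m * μ l m n) * b n 1 := by
      intro l m
      have : z (f l) * b l 1 * (z (f' m) * b m 1) =
          z (f l) * z (f' m) * (b l 1 * b m 1) := by ring
      rw [this, hmul, Finset.mul_sum]
      refine Finset.sum_congr rfl fun n _ => ?_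
      rw [map_mul, map_mul]
      ring
    simp_rw [e1, map_sum, Finset.sum_mul]
    exact D1_sum3 _
  have hcc : ∀ i j, c i * c j = ∑ m, z (co (fun n => ∑ l, ∑ l', w i l * w j l' *
      μ l l' n) m) * c m := by
    intro i j
    rw [hc i, hc j, hmulΦ, ← hΦ]
  have h1 : (1 : E) = ∑ m, z (co ν m) * c m := by
    rw [← hΦ, hone]
  refine ⟨r, c, fun l x => co (α x l), fun i j => co (fun n => ∑ l, ∑ l', w i l * w j l' *
      μ l l' n), ?_, hcc, hind, ?_, ?_, ?_⟩
  · intro l x
    rw [hα l x, hΦ]
  · intro f hf hdet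
    obtain ⟨v, hv0, hv⟩ := Matrix.exists_vecMul_eq_zero_iff.2 hdet
    have e1 : (∑ i, z (f i) * c i) * (∑ k, z (v k) * c k) = 0 := by
      rw [Finset.sum_mul_sum, Finset.sum_comm]
      have e2 : ∀ k i, z (f i) * c i * (z (v k) * c k) = ∑ m,
          z (v k * (f i * co (fun n => ∑ l, ∑ l', w i l * w k l' * μ l l' n) m)) * c m := by
        intro k i
        have : z (f i) * c i * (z (v k) * c k) =
          z (f i) * z (v k) * (c i * c k) := by ring
        rw [this, hcc, Finset.mul_sum]
        refine Finset.sum_congr rfl fun m _ => ?_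
        rw [map_mul, map_mul]
        ring
      simp_rw [e2]
      have e3 : ∀ m, ∑ k, ∑ i, v k * (f i * co (fun n => ∑ l, ∑ l', w i l * w k l' *
          μ l l' n) m) = 0 := by
        intro m
        have := congrFun hv m
        rw [Matrix.vecMul] at this
        simp only [dotProduct, Matrix.of_apply, Finset.mul_sum, Pi.zero_apply] at this
        exact this
      calc ∑ k, ∑ i, ∑ m, z (v k * (f i * co (fun n => ∑ l, ∑ l', w i l * w k l' *
            μ l l' n) m)) * c m = ∑ m, z (∑ k, ∑ i, v k * (f i *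
            co (fun n => ∑ l, ∑ l', w i l * w k l' * μ l l' n) m)) * c m := by
              simp_rw [map_sum, Finset.sum_mul]
              exact D1_sum3 _
        _ = 0 := Finset.sum_eq_zero fun m _ => by rw [e3, map_zero, zero_mul]
    rcases mul_eq_zero.1 e1 with h | h
    · exact hf (hind f h)
    · exact hv0 (hind v h)
  · by_contra hne
    push Not at hne
    rw [Finset.sum_eq_zero fun m _ => by rw [hne m, mul_zero]] at h1
    exact one_ne_zero h1
  · intro h hh
    refine ⟨fun n => co (fun k => ∑ l, w n l * α h l k), ?_⟩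
    have hδ : ∀ n, ∑ m, z (co (fun k => ∑ l, w n l * α h l k) m) * c m =
        ∑ l, z (w n l) * b l h := by
      intro n
      rw [← hΦ]
      have : ∀ l, z (w n l) * b l h = ∑ k, z (w n l * α h l k) * b k 1 := by
        intro l
        rw [hα l h, Finset.mul_sum]
        refine Finset.sum_congr rfl fun k _ => ?_
        rw [map_mul]
        ring
      simp_rw [this, map_sum, Finset.sum_mul]
      exact Finset.sum_comm
    intro l x
    have key : b l (h * x) = ∑ n, z (co (α x l) n) * ∑ l', z (w n l') * b l' h := by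
      rw [← D1_lin]
      have k1 := hD h hh (fun l' => α x l l' - (∑ n, co (α x l) n • w n) l') (by
        simp only [map_sub, sub_mul, Finset.sum_sub_distrib]
        rw [D1_lin (z) (fun l => b l 1), hΦ]
        simp only [← hc]
        exact sub_self _)
      simp only [map_sub, sub_mul, Finset.sum_sub_distrib] at k1
      rw [← hact] at k1
      exact sub_eq_zero.1 k1
    have hz0 : (fun m => co (α (h * x) l) m - ∑ n, co (α x l) n *
        co (fun k => ∑ l, w n l * α h l k) m) = 0 := by
      apply hind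
      simp only [map_sub, sub_mul, Finset.sum_sub_distrib]
      rw [← hΦ, ← hα, key, sub_eq_zero]
      simp_rw [← hδ, Finset.mul_sum, map_sum, Finset.sum_mul]
      rw [Finset.sum_comm]
      refine Finset.sum_congr rfl fun m _ => Finset.sum_congr rfl fun n _ => ?_
      rw [map_mul]
      ring
    intro m
    exact sub_eq_zero.1 (congrFun hz0 m)

/-!
# Task D1: a basis of the component ring `S₁`

Let `S₁ ⊆ EE p F` be the `κ[X]`-span (via `ze`) of the `b l 1`.
Proof.  `EE p F` is a domain (`isDomain_EE`), `ze` is injective.  `S₁` is a subring by `hmul`, `hone`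
and a finitely generated `κ[X]`-submodule (make `EE p F` a `κ[X]`-algebra through `ze p F`:
`letI := (ze p F).toAlgebra`), torsion free, so free (`κ[X]` is a PID): a basis
`c : Fin r → EE p F` of `S₁`, `r ≥ 1` as `1 ∈ S₁`, `c i ≠ 0`.
`b l x = ∑_m ze (α x l m) b m 1` (`hact` with `x := 1`, `one_mul`) lies in `S₁`, so
`b l x = ∑_m ze (β l x m) c m`.  Table `γ` since `S₁` is a ring.  Independence: basis.
`hγ`: the matrix `(∑_i f_i γ_{ikm})_{k,m}` is the matrix of multiplication by `a := ∑ ze(f_i) c_i ≠ 0`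
on the basis: `a c_k = ∑_m (∑_i f_i γ_{ikm}) c_m`.  If the determinant vanished there would be a nonzero
vector `w ∈ κ[X]^r` with `w ᵥ* N = 0` (`Matrix.exists_vecMul_eq_zero_iff`), so
`a * (∑_k ze(w_k) c_k) = 0` with both factors nonzero, contradiction.
`δ`: for `h ∈ H` the map `θ : S₁ → S₁`, `∑ ze(f_l) b l 1 ↦ ∑ ze(f_l) b l h` is well defined by
`D.Conn H` and `κ[X]`-linear.  `θ (b l x) = b l (h * x)` for all `x`: `b l x = ∑ ze(α x l m) b m 1`
is mapped to `∑ ze(α x l m) b m h = b l (h * x)` (`hact`).  Put `θ (c n) = ∑_m ze (δ n m) c m`; then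
`b l (h x) = θ (∑_n ze(β l x n) c n) = ∑_m ze (∑_n β l x n * δ n m) c m`; compare coordinates.
(One can avoid `θ` as a map: `c n = ∑_l ze(w n l) b l 1` for some `w`, and let
`∑_l ze (w n l) b l h = ∑_m ze(δ n m) c m`.)
-/
theorem exists_component_basis {p : ℕ} [hp : Fact p.Prime] {κ : Type} [Field κ] [CharP κ p]
    {G : Type} [Group G] [Fintype G] {g : G} {F : κ[X]} (D : WD p κ G g F)
    (hF : ¬ p ∣ F.natDegree) (H : Subgroup G) (hD : D.Conn H) :
    ∃ (r : ℕ) (c : Fin r → EE p F) (β : G → G → Fin r → κ[X])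
      (γ : Fin r → Fin r → Fin r → κ[X]),
      (∀ l x, D.b l x = ∑ m, ze p F (β l x m) * c m) ∧
      (∀ i j, c i * c j = ∑ m, ze p F (γ i j m) * c m) ∧
      (∀ f : Fin r → κ[X], ∑ m, ze p F (f m) * c m = 0 → f = 0) ∧
      (∀ f : Fin r → κ[X], f ≠ 0 →
        (Matrix.of fun k m => ∑ i, f i * γ i k m : Matrix (Fin r) (Fin r) κ[X]).det ≠ 0) ∧
      (∃ i, c i ≠ 0) ∧
      (∀ h ∈ H, ∃ δ : Fin r → Fin r → κ[X], ∀ l x m,
        β l (h * x) m = ∑ n, β l x n * δ n m) := by
  have hdom : IsDomain (EE p F) := isDomain_EE hF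
  exact D1_main (ze p F) ze_injective D.b D.μ D.α D.ν D.hmul D.hact D.hone H hD

end

end Pool.Agent.MP_1c8e06_ag.AI
end
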