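import Pool.Agent.Lib.MP_1c8e06_ag.AI.Defs3
import Pool.Agent.Lib.MP_1c8e06_ag.Mg.G090

section

set_option autoImplicit false

open Polynomial

namespace Pool.Agent.MP_1c8e06_ag.AI

noncomputable section

/-!
# Task A2: the elements fixed by `tau`

Proof.  Write `a = ∑_{j<p} ofL (a_j) * y^j` (`eq_sum_coordE`), so
`τ a = ∑_{j<p} ofL (a_j) (y+1)^j`.  Suppose some `a_j ≠ 0` with `1 ≤ j < p` and let `J` be the
largest such `j`.  Comparing the coefficient of `y^(J-1)` (use `coordE_sum_yy`) in `τ a - a = 0`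
gives `J * a_J = 0` (only `j = J` contributes: `(y+1)^j = ∑_k (j choose k) y^k`).
As `1 ≤ J < p`, `J` is a unit in `R` (char `p`: choose `u` with `J u ≡ 1 mod p`), so `a_J = 0`,
contradiction.  Hence `a = ofL (a_0)`.
-/
theorem tau_fixed {p : ℕ} [hp : Fact p.Prime] {R : Type} [CommRing R] [Nontrivial R] [CharP R p]
    {F : R[X]} (a : EE p F) (h : tau p F a = a) : ∃ c : LaurentSeries R, a = ofL p F c := by
  classical
  -- the coordinates of `tau a`
  have hco : ∀ k < p, coordE p F (tau p F a) k =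
      ∑ j ∈ Finset.range p, ((j.choose k : ℕ) : LaurentSeries R) * coordE p F a j := by
    intro k hk
    have h1 : tau p F a = ∑ k ∈ Finset.range p,
        ofL p F (∑ j ∈ Finset.range p, ((j.choose k : ℕ) : LaurentSeries R) * coordE p F a j) *
          yy p F ^ k := by
      conv_lhs => rw [eq_sum_coordE a]
      rw [map_sum]
      simp only [map_mul, map_pow, tau_ofL, tau_yy, map_sum, map_natCast]
      have h2 : ∀ j ∈ Finset.range p, ofL p F (coordE p F a j) * (yy p F + 1) ^ j =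
          ∑ k ∈ Finset.range p, ((j.choose k : ℕ) : EE p F) * ofL p F (coordE p F a j) *
            yy p F ^ k := by
        intro j hj
        rw [add_pow, Finset.mul_sum]
        have h3 : Finset.range (j + 1) ⊆ Finset.range p :=
          Finset.range_subset_range.2 (Finset.mem_range.1 hj)
        rw [← Finset.sum_subset h3]
        · refine Finset.sum_congr rfl fun k _ => ?_
          rw [one_pow, mul_one]
          ring
        · intro k _ hk'
          rw [Finset.mem_range, not_lt] at hk'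
          rw [Nat.choose_eq_zero_of_lt (by omega), Nat.cast_zero, zero_mul, zero_mul]
      rw [Finset.sum_congr rfl h2, Finset.sum_comm]
      refine Finset.sum_congr rfl fun k _ => ?_
      rw [Finset.sum_mul]
    rw [h1]
    exact coordE_sum_yy _ hk
  rw [h] at hco
  have hp0 : ((p : ℕ) : LaurentSeries R) = 0 := by
    have h1 : ((p : ℕ) : LaurentSeries R) = HahnSeries.C ((p : ℕ) : R) := by
      rw [map_natCast]
    rw [h1, CharP.cast_eq_zero, map_zero]
  have hz : ∀ m j : ℕ, 1 ≤ j → j < p → p - j ≤ m → coordE p F a j = 0 := by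
    intro m
    induction m with
    | zero =>
      intro j _ h2 h3
      omega
    | succ m ih =>
      intro j h1 h2 h3
      have h4 := hco (j - 1) (by omega)
      have h5 : ∑ i ∈ Finset.range p, ((i.choose (j - 1) : ℕ) : LaurentSeries R) *
          coordE p F a i = coordE p F a (j - 1) + (j : LaurentSeries R) * coordE p F a j := by
        have h6 : ({j - 1, j} : Finset ℕ) ⊆ Finset.range p := by
          intro i hi
          rw [Finset.mem_insert, Finset.mem_singleton] at hi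
          rw [Finset.mem_range]
          omega
        rw [← Finset.sum_subset h6, Finset.sum_pair (by omega), Nat.choose_self, Nat.cast_one,
          one_mul]
        · congr 3
          obtain ⟨l, rfl⟩ : ∃ l, j = l + 1 := ⟨j - 1, by omega⟩
          rw [Nat.add_sub_cancel, Nat.choose_succ_self_right]
        · intro i hi hi'
          rw [Finset.mem_insert, Finset.mem_singleton, not_or] at hi'
          rw [Finset.mem_range] at hi
          rcases lt_or_ge i (j - 1) with h7 | h7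
          · rw [Nat.choose_eq_zero_of_lt h7, Nat.cast_zero, zero_mul]
          · rw [ih i (by omega) hi (by omega), mul_zero]
      rw [h5] at h4
      have h6 : (j : LaurentSeries R) * coordE p F a j = 0 := by
        have h7 : coordE p F a (j - 1) + 0 =
            coordE p F a (j - 1) + (j : LaurentSeries R) * coordE p F a j := by
          rw [add_zero]
          exact h4
        exact (add_left_cancel h7).symm
      have hcop : Nat.Coprime j p := by
        rw [Nat.coprime_comm]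
        exact (Nat.Prime.coprime_iff_not_dvd hp.out).2 fun hd => by
          have := Nat.le_of_dvd (by omega) hd
          omega
      obtain ⟨u, v, huv⟩ := Nat.isCoprime_iff_coprime.2 hcop
      have h8 : ((u : LaurentSeries R) * (j : LaurentSeries R) +
          (v : LaurentSeries R) * (p : LaurentSeries R)) = 1 := by
        exact_mod_cast congrArg (Int.cast : ℤ → LaurentSeries R) huv
      calc coordE p F a j = 1 * coordE p F a j := (one_mul _).symm
        _ = ((u : LaurentSeries R) * (j : LaurentSeries R) +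
          (v : LaurentSeries R) * (p : LaurentSeries R)) * coordE p F a j := by rw [h8]
        _ = (u : LaurentSeries R) * ((j : LaurentSeries R) * coordE p F a j) := by
            rw [hp0]
            ring
        _ = 0 := by rw [h6, mul_zero]
  refine ⟨coordE p F a 0, extE fun j hj => ?_⟩
  rw [coordE_ofL]
  split_ifs with h0
  · rw [h0]
  · exact hz p j (Nat.one_le_iff_ne_zero.2 h0) hj (Nat.sub_le _ _)

end

end Pool.Agent.MP_1c8e06_ag.AI
end

section

set_option autoImplicit false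

open Polynomial

namespace Pool.Agent.MP_1c8e06_ag.AI

noncomputable section

/-!
# Task BA5: the ring `S = κ[ν_i]`: generation and finiteness

Setting: `E := EE p (X^e)`, `y := yy`, `x := ze X`, `ν : ZMod p → E` with `ν_i^e = y - i`,
`∏ ν_i = x`, `tau ν_i = ν_{i-1}`; `S := Sring ν` is the subring of `E` generated by the constants and the
`ν_i`.
Proofs.
(1) `y = ν_0^e ∈ S`; `ze P ∈ S` as `ze X = ∏ ν_i`.
(2) `tau` maps `S` into `S` (generators; `Subring.closure_induction`).
(3) `Sring_span`: the set `T` of all `∑_a ∑_{j<p} ze(P a j) y^j ν^a` is an additive subgroup containing the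
    constants, and stable under multiplication by `y` (`y^p = y + ze X^e`) and by each `ν_i`
    (raise `a_i`; if it becomes `e` replace `ν_i^e` by `y - i`).  So `T * S ⊆ T` and `1 ∈ T`
    (induction on the closure; e.g. show `∀ s ∈ S, ∀ t ∈ T, s * t ∈ T`), `S ⊆ T`.
(4) `Sring_finite`: the elements `y^j ν^a` span; they are in `S`.
-/

/-- The subring generated by the constants and the `ν i`. -/
def Sring {p : ℕ} {κ : Type} [Field κ] {F : κ[X]} (ν : ZMod p → EE p F) : Subring (EE p F) :=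
  Subring.closure (Set.range (fun c : κ => ze p F (C c)) ∪ Set.range ν)

variable {p : ℕ} [hp : Fact p.Prime] {κ : Type} [Field κ] [CharP κ p] {e : ℕ}
  (hpe : ¬ p ∣ e) (ν : ZMod p → EE p (X ^ e : κ[X]))
  (h1 : ∀ i, ν i ^ e = yy p (X ^ e) - ((i.val : ℕ) : EE p (X ^ e : κ[X])))
  (h2 : ∏ i, ν i = ze p (X ^ e) X)
  (h3 : ∀ i, tau p (X ^ e) (ν i) = ν (i - 1))

omit [CharP κ p] in
private theorem BA5_nu_mem (i : ZMod p) : ν i ∈ Sring ν :=
  Subring.subset_closure (Or.inr ⟨i, rfl⟩)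

include h1 in
theorem yy_mem_Sring : yy p (X ^ e : κ[X]) ∈ Sring ν := by
  have h := h1 0
  rw [ZMod.val_zero, Nat.cast_zero, sub_zero] at h
  rw [← h]
  exact pow_mem (BA5_nu_mem ν 0) e

include h2 in
theorem ze_mem_Sring (P : κ[X]) : ze p (X ^ e) P ∈ Sring ν := by
  have hX : ze p (X ^ e : κ[X]) X ∈ Sring ν := by
    rw [← h2]
    exact prod_mem fun i _ => Subring.subset_closure (Or.inr ⟨i, rfl⟩)
  have hC : ∀ a : κ, ze p (X ^ e : κ[X]) (C a) ∈ Sring ν := fun a =>
    Subring.subset_closure (Or.inl ⟨a, rfl⟩)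
  induction P using Polynomial.induction_on' with
  | add f g hf hg => rw [map_add]; exact add_mem hf hg
  | monomial n a =>
    rw [← Polynomial.C_mul_X_pow_eq_monomial, map_mul, map_pow]
    exact mul_mem (hC a) (pow_mem hX n)

include h3 in
theorem tau_mem_Sring (s : EE p (X ^ e : κ[X])) (hs : s ∈ Sring ν) :
    tau p (X ^ e) s ∈ Sring ν := by
  induction hs using Subring.closure_induction with
  | mem x hx =>
    rcases hx with ⟨c, rfl⟩ | ⟨i, rfl⟩
    · show tau p (X ^ e) (ze p (X ^ e) (C c)) ∈ Sring ν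
      rw [tau_ze]
      exact Subring.subset_closure (Or.inl ⟨c, rfl⟩)
    · rw [h3]
      exact Subring.subset_closure (Or.inr ⟨i - 1, rfl⟩)
  | zero => rw [map_zero]; exact zero_mem _
  | one => rw [map_one]; exact one_mem _
  | add x y _ _ hx hy => rw [map_add]; exact add_mem hx hy
  | neg x _ hx => rw [map_neg]; exact neg_mem hx
  | mul x y _ _ hx hy => rw [map_mul]; exact mul_mem hx hy

private def BA5_TT (ν : ZMod p → EE p (X ^ e : κ[X])) (x : EE p (X ^ e : κ[X])) : Prop :=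
  ∃ P : (ZMod p → Fin e) → Fin p → κ[X],
      x = ∑ a, ∑ j, ze p (X ^ e) (P a j) * yy p (X ^ e) ^ (j : ℕ) * ∏ i, ν i ^ (a i : ℕ)

private theorem BA5_zero : BA5_TT ν 0 := ⟨fun _ _ => 0, by simp⟩

private theorem BA5_add {x y : EE p (X ^ e : κ[X])} (hx : BA5_TT ν x) (hy : BA5_TT ν y) :
    BA5_TT ν (x + y) := by
  obtain ⟨P, rfl⟩ := hx
  obtain ⟨Q, rfl⟩ := hy
  refine ⟨fun a j => P a j + Q a j, ?_⟩
  rw [← Finset.sum_add_distrib]
  refine Finset.sum_congr rfl fun a _ => ?_
  rw [← Finset.sum_add_distrib]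
  refine Finset.sum_congr rfl fun j _ => ?_
  rw [map_add]
  ring

private theorem BA5_smul (f : κ[X]) {x : EE p (X ^ e : κ[X])} (hx : BA5_TT ν x) :
    BA5_TT ν (ze p (X ^ e) f * x) := by
  obtain ⟨P, rfl⟩ := hx
  refine ⟨fun a j => f * P a j, ?_⟩
  rw [Finset.mul_sum]
  refine Finset.sum_congr rfl fun a _ => ?_
  rw [Finset.mul_sum]
  refine Finset.sum_congr rfl fun j _ => ?_
  rw [map_mul]
  ring

private theorem BA5_neg {x : EE p (X ^ e : κ[X])} (hx : BA5_TT ν x) : BA5_TT ν (-x) := by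
  have h := BA5_smul ν (-1) hx
  rw [map_neg, map_one, neg_one_mul] at h
  exact h

private theorem BA5_sum {ι : Type} (s : Finset ι) (f : ι → EE p (X ^ e : κ[X]))
    (h : ∀ i ∈ s, BA5_TT ν (f i)) : BA5_TT ν (∑ i ∈ s, f i) := by
  classical
  induction s using Finset.induction_on with
  | empty => rw [Finset.sum_empty]; exact BA5_zero ν
  | insert a s ha ih =>
    rw [Finset.sum_insert ha]
    exact BA5_add ν (h a (Finset.mem_insert_self a s))
      (ih fun i hi => h i (Finset.mem_insert_of_mem hi))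

private theorem BA5_basis (a : ZMod p → Fin e) (j : Fin p) :
    BA5_TT ν (yy p (X ^ e) ^ (j : ℕ) * ∏ i, ν i ^ (a i : ℕ)) := by
  classical
  refine ⟨fun a' j' => if a' = a ∧ j' = j then 1 else 0, ?_⟩
  rw [Finset.sum_eq_single a, Finset.sum_eq_single j]
  · simp
  · intro j' _ hj
    beta_reduce
    rw [if_neg (fun h => hj h.2), map_zero, zero_mul, zero_mul]
  · intro h
    exact absurd (Finset.mem_univ _) h
  · intro a' _ ha
    refine Finset.sum_eq_zero fun j' _ => ?_
    beta_reduce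
    rw [if_neg (fun h => ha h.1), map_zero, zero_mul, zero_mul]
  · intro h
    exact absurd (Finset.mem_univ _) h

private theorem BA5_yy {x : EE p (X ^ e : κ[X])} (hx : BA5_TT ν x) :
    BA5_TT ν (yy p (X ^ e) * x) := by
  obtain ⟨P, rfl⟩ := hx
  rw [Finset.mul_sum]
  refine BA5_sum ν _ _ fun a _ => ?_
  rw [Finset.mul_sum]
  refine BA5_sum ν _ _ fun j _ => ?_
  have key : BA5_TT ν (yy p (X ^ e) ^ ((j : ℕ) + 1) * ∏ i, ν i ^ (a i : ℕ)) := by
    by_cases hj : (j : ℕ) + 1 < p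
    · exact BA5_basis ν a ⟨(j : ℕ) + 1, hj⟩
    · have hj' : (j : ℕ) + 1 = p := by omega
      rw [hj', yy_pow_eq, add_mul]
      refine BA5_add ν ?_ (BA5_smul ν _ ?_)
      · have := BA5_basis ν a ⟨1, hp.out.one_lt⟩
        simpa using this
      · have := BA5_basis ν a ⟨0, hp.out.pos⟩
        simpa using this
  have := BA5_smul ν (P a j) key
  rw [show yy p (X ^ e) * (ze p (X ^ e) (P a j) * yy p (X ^ e) ^ (j : ℕ) * ∏ i, ν i ^ (a i : ℕ)) =
    ze p (X ^ e) (P a j) * (yy p (X ^ e) ^ ((j : ℕ) + 1) * ∏ i, ν i ^ (a i : ℕ)) by ring]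
  exact this

private theorem BA5_yyj (n : ℕ) {x : EE p (X ^ e : κ[X])} (hx : BA5_TT ν x) :
    BA5_TT ν (yy p (X ^ e) ^ n * x) := by
  induction n with
  | zero => rw [pow_zero, one_mul]; exact hx
  | succ n ih => rw [pow_succ', mul_assoc]; exact BA5_yy ν ih

private theorem BA5_prod_update [DecidableEq (ZMod p)] (a : ZMod p → Fin e) (i : ZMod p)
    (b : Fin e) : ∏ k, ν k ^ ((Function.update a i b) k : ℕ) =
      ν i ^ (b : ℕ) * ∏ k ∈ Finset.univ.erase i, ν k ^ (a k : ℕ) := by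
  rw [← Finset.mul_prod_erase _ _ (Finset.mem_univ i), Function.update_self]
  congr 1
  refine Finset.prod_congr rfl fun k hk => ?_
  rw [Function.update_of_ne (Finset.ne_of_mem_erase hk)]

include h1 in
private theorem BA5_nu (i : ZMod p) {x : EE p (X ^ e : κ[X])} (hx : BA5_TT ν x) :
    BA5_TT ν (ν i * x) := by
  classical
  obtain ⟨P, rfl⟩ := hx
  rw [Finset.mul_sum]
  refine BA5_sum ν _ _ fun a _ => ?_
  rw [Finset.mul_sum]
  refine BA5_sum ν _ _ fun j _ => ?_
  have key : BA5_TT ν (ν i * ∏ k, ν k ^ (a k : ℕ)) := by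
    have hsplit : ν i * ∏ k, ν k ^ (a k : ℕ) =
        ν i ^ ((a i : ℕ) + 1) * ∏ k ∈ Finset.univ.erase i, ν k ^ (a k : ℕ) := by
      rw [← Finset.mul_prod_erase _ _ (Finset.mem_univ i), pow_succ]
      ring
    by_cases hi : (a i : ℕ) + 1 < e
    · have h := BA5_basis ν (Function.update a i ⟨(a i : ℕ) + 1, hi⟩) ⟨0, hp.out.pos⟩
      rw [BA5_prod_update] at h
      rw [hsplit]
      simpa using h
    · have hi' : (a i : ℕ) + 1 = e := by
        have := (a i).2
        omega
      have he : 0 < e := by omega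
      have h := BA5_basis ν (Function.update a i ⟨0, he⟩) ⟨0, hp.out.pos⟩
      rw [BA5_prod_update] at h
      simp only [pow_zero, one_mul] at h
      rw [hsplit, hi', h1, sub_mul]
      rw [sub_eq_add_neg]
      refine BA5_add ν (BA5_yy ν h) (BA5_neg ν ?_)
      have h4 := BA5_smul ν ((i.val : ℕ) : κ[X]) h
      rw [map_natCast] at h4
      exact h4
  have := BA5_smul ν (P a j) (BA5_yyj ν (j : ℕ) key)
  rw [show ν i * (ze p (X ^ e) (P a j) * yy p (X ^ e) ^ (j : ℕ) * ∏ i, ν i ^ (a i : ℕ)) =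
    ze p (X ^ e) (P a j) * (yy p (X ^ e) ^ (j : ℕ) * (ν i * ∏ k, ν k ^ (a k : ℕ))) by ring]
  exact this

include h1 in
private theorem BA5_mul (s : EE p (X ^ e : κ[X])) (hs : s ∈ Sring ν) :
    ∀ t, BA5_TT ν t → BA5_TT ν (s * t) := by
  induction hs using Subring.closure_induction with
  | mem x hx =>
    rcases hx with ⟨c, rfl⟩ | ⟨i, rfl⟩
    · intro t ht
      exact BA5_smul ν _ ht
    · intro t ht
      exact BA5_nu ν h1 i ht
  | zero => intro t _; rw [zero_mul]; exact BA5_zero ν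
  | one => intro t ht; rw [one_mul]; exact ht
  | add x y _ _ hx hy => intro t ht; rw [add_mul]; exact BA5_add ν (hx t ht) (hy t ht)
  | neg x _ hx => intro t ht; rw [neg_mul]; exact BA5_neg ν (hx t ht)
  | mul x y _ _ hx hy => intro t ht; rw [mul_assoc]; exact hx _ (hy t ht)

include hpe h1 h2 in
theorem Sring_span (s : EE p (X ^ e : κ[X])) (hs : s ∈ Sring ν) :
    ∃ P : (ZMod p → Fin e) → Fin p → κ[X],
      s = ∑ a, ∑ j, ze p (X ^ e) (P a j) * yy p (X ^ e) ^ (j : ℕ) * ∏ i, ν i ^ (a i : ℕ) := by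
  have _ := h2
  have he : 0 < e := by
    rcases Nat.eq_zero_or_pos e with h | h
    · exact absurd (h ▸ dvd_zero p) hpe
    · exact h
  have h1' : BA5_TT ν 1 := by
    have := BA5_basis ν (fun _ => ⟨0, he⟩) ⟨0, hp.out.pos⟩
    simpa using this
  have := BA5_mul ν h1 s hs 1 h1'
  rw [mul_one] at this
  exact this

include hpe h1 h2 in
theorem Sring_finite : ∃ (n : ℕ) (v : Fin n → Sring ν), ∀ s : Sring ν, ∃ c : Fin n → κ[X],
    (s : EE p (X ^ e : κ[X])) = ∑ i, ze p (X ^ e) (c i) * (v i : EE p (X ^ e : κ[X])) := by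
  let ε := Fintype.equivFin ((ZMod p → Fin e) × Fin p)
  refine ⟨Fintype.card ((ZMod p → Fin e) × Fin p), fun i =>
    ⟨yy p (X ^ e) ^ ((ε.symm i).2 : ℕ) * ∏ k, ν k ^ ((ε.symm i).1 k : ℕ), ?_⟩, ?_⟩
  · exact mul_mem (pow_mem (yy_mem_Sring ν h1) _)
      (prod_mem fun k _ => pow_mem (BA5_nu_mem ν k) _)
  · intro s
    obtain ⟨P, hP⟩ := Sring_span hpe ν h1 h2 s s.2
    refine ⟨fun i => P (ε.symm i).1 (ε.symm i).2, ?_⟩
    rw [hP, ← Fintype.sum_prod_type', ← Equiv.sum_comp ε.symm]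
    refine Finset.sum_congr rfl fun i _ => ?_
    rw [mul_assoc]

end

end Pool.Agent.MP_1c8e06_ag.AI
end

section

set_option autoImplicit false

open Polynomial

namespace Pool.Agent.MP_1c8e06_ag.AI

noncomputable section

/-!
# Task BA5i: the invariants of `S = κ[ν_i]`

Proof.  Suppose `s ∈ S` is fixed by `tau` and by all the `σ_c` (`hσ`: a ring automorphism of `S`
with `σ_c ν_i = ζ^{c_i} ν_i`, fixing `κ`; given for all `c : ZMod p → ℕ` with `e ∣ ∑ c_i`).
Write `s = ∑_a P_a(x, y) ν^a` (`Sring_span`).  `σ_c` fixes `y = ν_0^e` (as `ζ^e = 1`) and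
`x = ze X = ∏ ν_i` (as `e ∣ ∑ c_i`), hence all `ze P`, and `σ_c ν^a = ζ^{∑ a_i c_i} ν^a`.
Average over `c ∈ 𝒞 := {c : ZMod p → Fin e | e ∣ ∑ c_i}` (a finite set, of cardinality
`e^(p-1)` prime to `p`; it is in bijection with a group): `∑_{c ∈ 𝒞} ζ^{∑ a_i c_i}` is `card 𝒞` if all the
`a_i` are equal (then `ν^a = x^{a_0}`) and `0` otherwise (if `a_i ≠ a_j` for some `i ≠ j`, the
permutation `c ↦ c + δ_i - δ_j` mod `e` of `𝒞` multiplies the sum by `ζ^{a_i - a_j} ≠ 1`).  So
`card 𝒞 * s = ∑_c σ_c s = card 𝒞 * ∑_{a constant} P_a(x,y) x^{a_0}`: `s = ∑_{j<p} ze(Q_j) y^j`.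
Finally `tau s = s` gives `s = ofL c'` (`tau_fixed`), so comparing coordinates (`coordE_sum_yy`,
`coordE_ofL`) `Q_j = 0` for `j ≥ 1` and `s = ze Q_0`.
-/

variable {p : ℕ} [hp : Fact p.Prime] {κ : Type} [Field κ] [CharP κ p] {e : ℕ}
  (hpe : ¬ p ∣ e) (ν : ZMod p → EE p (X ^ e : κ[X]))
  (h1 : ∀ i, ν i ^ e = yy p (X ^ e) - ((i.val : ℕ) : EE p (X ^ e : κ[X])))
  (h2 : ∏ i, ν i = ze p (X ^ e) X)

/-- geometric sums of roots of unity -/
private theorem BA5i_geom {ζ : κ} (hζ : IsPrimitiveRoot ζ e) (a b : Fin e) :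
    ∑ d : Fin e, (ζ ^ ((a : ℕ) + (e - 1) * (b : ℕ))) ^ (d : ℕ) = if a = b then (e : κ) else 0 := by
  have he : 0 < e := a.pos
  rw [Fin.sum_univ_eq_sum_range (fun d => (ζ ^ ((a : ℕ) + (e - 1) * (b : ℕ))) ^ d) e]
  split_ifs with hab
  · have h1 : ζ ^ ((a : ℕ) + (e - 1) * (b : ℕ)) = 1 := by
      rw [hab]
      have : (b : ℕ) + (e - 1) * (b : ℕ) = e * (b : ℕ) := by
        obtain ⟨m, rfl⟩ : ∃ m, e = m + 1 := ⟨e - 1, by omega⟩
        rw [Nat.add_sub_cancel]
        ring
      rw [this, pow_mul, hζ.pow_eq_one, one_pow]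
    simp [h1]
  · have hne : ζ ^ ((a : ℕ) + (e - 1) * (b : ℕ)) ≠ 1 := by
      intro h
      rw [hζ.pow_eq_one_iff_dvd] at h
      apply hab
      apply Fin.ext
      have hb : (b : ℕ) + (e - 1) * (b : ℕ) = e * (b : ℕ) := by
        obtain ⟨m, rfl⟩ : ∃ m, e = m + 1 := ⟨e - 1, by omega⟩
        rw [Nat.add_sub_cancel]
        ring
      have h3 : (a : ℕ) ≡ (b : ℕ) [MOD e] := by
        have h4 : (a : ℕ) + (e - 1) * (b : ℕ) ≡ (b : ℕ) + (e - 1) * (b : ℕ) [MOD e] := by
          rw [hb]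
          exact ((Nat.modEq_zero_iff_dvd.2 h).trans
            (Nat.modEq_zero_iff_dvd.2 (dvd_mul_right _ _)).symm)
        exact Nat.ModEq.add_right_cancel' _ h4
      have h5 := h3
      unfold Nat.ModEq at h5
      rwa [Nat.mod_eq_of_lt a.2, Nat.mod_eq_of_lt b.2] at h5
    have hpow : (ζ ^ ((a : ℕ) + (e - 1) * (b : ℕ))) ^ e = 1 := by
      rw [← pow_mul, mul_comm, pow_mul, hζ.pow_eq_one, one_pow]
    have hg := geom_sum_mul (ζ ^ ((a : ℕ) + (e - 1) * (b : ℕ))) e
    rw [hpow, sub_self] at hg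
    rcases mul_eq_zero.1 hg with h | h
    · exact h
    · exact absurd (sub_eq_zero.1 h) hne

include hpe h1 h2 in
theorem Sring_inv (ζ : κ) (hζ : IsPrimitiveRoot ζ e) (s : Sring ν)
    (hs : tau p (X ^ e) (s : EE p (X ^ e : κ[X])) = s)
    (hσ : ∀ c : ZMod p → ℕ, e ∣ ∑ i, c i → ∃ σ : Sring ν ≃+* Sring ν,
      (∀ (i : ZMod p) (h : ν i ∈ Sring ν), ((σ ⟨ν i, h⟩ : Sring ν) : EE p (X ^ e : κ[X])) =
        ze p (X ^ e) (C (ζ ^ c i)) * ν i) ∧
      (∀ (a : κ) (h : ze p (X ^ e) (C a) ∈ Sring ν),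
        ((σ ⟨_, h⟩ : Sring ν) : EE p (X ^ e : κ[X])) = ze p (X ^ e) (C a)) ∧ σ s = s) :
    ∃ P : κ[X], (s : EE p (X ^ e : κ[X])) = ze p (X ^ e) P := by
  classical
  have he : 0 < e := by
    rcases Nat.eq_zero_or_pos e with h | h
    · exact absurd (h ▸ dvd_zero p) hpe
    · exact h
  have hee : (e : κ) ≠ 0 := by
    intro h
    exact hpe ((CharP.cast_eq_zero_iff κ p e).1 h)
  obtain ⟨P, hP⟩ := Sring_span hpe ν h1 h2 s s.2
  have hν : ∀ i, ν i ∈ Sring ν := fun i => Subring.subset_closure (Or.inr ⟨i, rfl⟩)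
  have hC : ∀ a : κ, ze p (X ^ e : κ[X]) (C a) ∈ Sring ν := fun a =>
    Subring.subset_closure (Or.inl ⟨a, rfl⟩)
  -- the action on the expansion
  have key : ∀ c : ZMod p → ℕ, e ∣ ∑ i, c i → (s : EE p (X ^ e : κ[X])) =
      ∑ a, ∑ j, ze p (X ^ e) (P a j) * yy p (X ^ e) ^ (j : ℕ) *
        (ze p (X ^ e) (C (∏ i, (ζ ^ c i) ^ (a i : ℕ))) * ∏ i, ν i ^ (a i : ℕ)) := by
    intro c hc
    obtain ⟨σ, hσ1, hσ2, hσ3⟩ := hσ c hc
    let φ : Sring ν →+* EE p (X ^ e : κ[X]) := (Sring ν).subtype.comp σ.toRingHom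
    have hφν : ∀ i, φ ⟨ν i, hν i⟩ = ze p (X ^ e) (C (ζ ^ c i)) * ν i := fun i => hσ1 i (hν i)
    have hφC : ∀ a, φ ⟨ze p (X ^ e) (C a), hC a⟩ = ze p (X ^ e) (C a) := fun a => hσ2 a (hC a)
    let zr : κ[X] →+* Sring ν := (ze p (X ^ e)).codRestrict (Sring ν) (ze_mem_Sring ν h2)
    have hX : zr X = ∏ i, (⟨ν i, hν i⟩ : Sring ν) := by
      apply Subtype.ext
      rw [SubmonoidClass.coe_finsetProd]
      exact h2.symm
    have hφz : φ.comp zr = ze p (X ^ e) := by
      refine Polynomial.ringHom_ext ?_ ?_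
      · intro a
        exact hφC a
      · rw [RingHom.comp_apply, hX, map_prod]
        simp only [hφν]
        rw [Finset.prod_mul_distrib, ← map_prod, ← map_prod, Finset.prod_pow_eq_pow_sum]
        obtain ⟨m, hm⟩ := hc
        rw [hm, pow_mul, hζ.pow_eq_one, one_pow, C_1, map_one, one_mul, h2]
    have hφz' : ∀ Q : κ[X], φ (zr Q) = ze p (X ^ e) Q := fun Q => RingHom.congr_fun hφz Q
    have hy0 : yy p (X ^ e : κ[X]) = ν 0 ^ e := by
      have h := h1 0
      rw [ZMod.val_zero, Nat.cast_zero, sub_zero] at h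
      exact h.symm
    have hφy : φ ⟨yy p (X ^ e), yy_mem_Sring ν h1⟩ = yy p (X ^ e) := by
      have h3 : (⟨yy p (X ^ e), yy_mem_Sring ν h1⟩ : Sring ν) = ⟨ν 0, hν 0⟩ ^ e := by
        apply Subtype.ext
        rw [SubmonoidClass.coe_pow]
        exact hy0
      rw [h3, map_pow, hφν, mul_pow, ← map_pow, ← C_pow, ← pow_mul, mul_comm (c 0) e, pow_mul,
        hζ.pow_eq_one, one_pow, C_1, map_one, one_mul, hy0]
    have hsS : s = ∑ a, ∑ j, zr (P a j) * (⟨yy p (X ^ e), yy_mem_Sring ν h1⟩ : Sring ν) ^ (j : ℕ) *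
        ∏ i, (⟨ν i, hν i⟩ : Sring ν) ^ (a i : ℕ) := by
      apply Subtype.ext
      rw [hP]
      simp only [AddSubmonoidClass.coe_finsetSum, Subring.coe_mul, SubmonoidClass.coe_pow,
        SubmonoidClass.coe_finsetProd]
      rfl
    have hφs : φ s = (s : EE p (X ^ e : κ[X])) := by
      show ((σ s : Sring ν) : EE p (X ^ e : κ[X])) = s
      rw [hσ3]
    rw [← hφs]
    conv_lhs => rw [hsS]
    rw [map_sum]
    refine Finset.sum_congr rfl fun a _ => ?_
    rw [map_sum]
    refine Finset.sum_congr rfl fun j _ => ?_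
    rw [map_mul, map_mul, map_pow, hφz', hφy, map_prod]
    congr 1
    rw [map_prod, map_prod, ← Finset.prod_mul_distrib]
    refine Finset.prod_congr rfl fun i _ => ?_
    rw [map_pow, hφν, mul_pow, ← map_pow (ze p (X ^ e : κ[X])) (C (ζ ^ c i)), ← C_pow]
  -- the averages
  let cc : (ZMod p → Fin e) → ZMod p → ℕ := fun d i =>
    (d i : ℕ) + if i = 0 then (e - 1) * ∑ k, (d k : ℕ) else 0
  have hcc : ∀ d, e ∣ ∑ i, cc d i := by
    intro d
    have : ∑ i, cc d i = e * ∑ k, (d k : ℕ) := by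
      show ∑ i, ((d i : ℕ) + if i = 0 then (e - 1) * ∑ k, (d k : ℕ) else 0) = _
      rw [Finset.sum_add_distrib, Finset.sum_ite_eq' Finset.univ (0 : ZMod p), if_pos (Finset.mem_univ _)]
      have h := Nat.sub_add_cancel he
      calc ∑ k, (d k : ℕ) + (e - 1) * ∑ k, (d k : ℕ) = (e - 1 + 1) * ∑ k, (d k : ℕ) := by ring
        _ = e * ∑ k, (d k : ℕ) := by rw [h]
    rw [this]
    exact dvd_mul_right _ _
  have hprod : ∀ (a d : ZMod p → Fin e), ∏ i, (ζ ^ cc d i) ^ (a i : ℕ) =
      ∏ k, (ζ ^ ((a k : ℕ) + (e - 1) * (a 0 : ℕ))) ^ (d k : ℕ) := by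
    intro a d
    have e1 : ∏ i, (ζ ^ cc d i) ^ (a i : ℕ) = ζ ^ (∑ i, cc d i * (a i : ℕ)) := by
      rw [← Finset.prod_pow_eq_pow_sum]
      exact Finset.prod_congr rfl fun i _ => (pow_mul _ _ _).symm
    have e2 : ∏ k, (ζ ^ ((a k : ℕ) + (e - 1) * (a 0 : ℕ))) ^ (d k : ℕ) =
        ζ ^ (∑ k, ((a k : ℕ) + (e - 1) * (a 0 : ℕ)) * (d k : ℕ)) := by
      rw [← Finset.prod_pow_eq_pow_sum]
      exact Finset.prod_congr rfl fun i _ => (pow_mul _ _ _).symm
    rw [e1, e2]
    congr 1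
    have e3 : ∀ i, cc d i * (a i : ℕ) = (d i : ℕ) * (a i : ℕ) +
        if i = 0 then (e - 1) * (∑ k, (d k : ℕ)) * (a 0 : ℕ) else 0 := by
      intro i
      show ((d i : ℕ) + if i = 0 then (e - 1) * ∑ k, (d k : ℕ) else 0) * (a i : ℕ) = _
      split_ifs with h
      · rw [h]; ring
      · ring
    rw [Finset.sum_congr rfl fun i _ => e3 i, Finset.sum_add_distrib,
      Finset.sum_ite_eq' Finset.univ (0 : ZMod p), if_pos (Finset.mem_univ _)]
    have e4 : ∀ k, ((a k : ℕ) + (e - 1) * (a 0 : ℕ)) * (d k : ℕ) = (d k : ℕ) * (a k : ℕ) +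
        (e - 1) * (a 0 : ℕ) * (d k : ℕ) := fun k => by ring
    rw [Finset.sum_congr rfl fun i _ => e4 i, Finset.sum_add_distrib, ← Finset.mul_sum]
    ring
  have hsum : ∀ a : ZMod p → Fin e, ∑ d : ZMod p → Fin e, ∏ i, (ζ ^ cc d i) ^ (a i : ℕ) =
      if ∀ k, a k = a 0 then (e : κ) ^ Fintype.card (ZMod p) else 0 := by
    intro a
    rw [Finset.sum_congr rfl fun d _ => hprod a d]
    have h5 := Finset.prod_univ_sum (fun _ : ZMod p => (Finset.univ : Finset (Fin e)))
      (fun k (d : Fin e) => (ζ ^ ((a k : ℕ) + (e - 1) * (a 0 : ℕ))) ^ (d : ℕ))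
    rw [Fintype.piFinset_univ] at h5
    rw [← h5]
    rw [Finset.prod_congr rfl fun k _ => BA5i_geom hζ (a k) (a 0)]
    split_ifs with h
    · rw [Finset.prod_congr rfl fun k _ => if_pos (h k), Finset.prod_const, Finset.card_univ]
    · push Not at h
      obtain ⟨k, hk⟩ := h
      exact Finset.prod_eq_zero (Finset.mem_univ k) (if_neg hk)
  set N : κ := (e : κ) ^ Fintype.card (ZMod p) with hN
  have hN0 : N ≠ 0 := pow_ne_zero _ hee
  have hcard : ((Finset.univ : Finset (ZMod p → Fin e)).card : κ) = N := by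
    rw [Finset.card_univ, Fintype.card_fun, Fintype.card_fin, Nat.cast_pow]
  -- the averaged expansion
  have havg : ze p (X ^ e) (C N) * (s : EE p (X ^ e : κ[X])) =
      ze p (X ^ e) (C N) * ∑ j : Fin p, ze p (X ^ e)
        (∑ a : ZMod p → Fin e, if ∀ k, a k = a 0 then P a j * X ^ (a 0 : ℕ) else 0) *
        yy p (X ^ e) ^ (j : ℕ) := by
    have h6 : ze p (X ^ e) (C N) * (s : EE p (X ^ e : κ[X])) =
        ∑ _d : ZMod p → Fin e, (s : EE p (X ^ e : κ[X])) := by
      rw [Finset.sum_const, nsmul_eq_mul, ← hcard, C_eq_natCast, map_natCast]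
    rw [h6, Finset.sum_congr rfl fun d _ => key (cc d) (hcc d), Finset.sum_comm, Finset.mul_sum]
    have h7 : ∀ j : Fin p, ze p (X ^ e) (C N) * (ze p (X ^ e)
        (∑ a : ZMod p → Fin e, if ∀ k, a k = a 0 then P a j * X ^ (a 0 : ℕ) else 0) *
        yy p (X ^ e) ^ (j : ℕ)) = ∑ a : ZMod p → Fin e,
          ze p (X ^ e) (if ∀ k, a k = a 0 then C N * (P a j * X ^ (a 0 : ℕ)) else 0) *
            yy p (X ^ e) ^ (j : ℕ) := by
      intro j
      rw [map_sum, Finset.sum_mul, Finset.mul_sum]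
      refine Finset.sum_congr rfl fun a _ => ?_
      split_ifs
      · rw [map_mul (ze p (X ^ e)) (C N)]
        ring
      · rw [map_zero, zero_mul, mul_zero]
    rw [Finset.sum_congr rfl fun j _ => h7 j]
    refine Eq.trans ?_ Finset.sum_comm
    refine Finset.sum_congr rfl fun a _ => ?_
    rw [Finset.sum_comm]
    refine Finset.sum_congr rfl fun j _ => ?_
    rw [← Finset.mul_sum, ← Finset.sum_mul, ← map_sum, ← map_sum, hsum a]
    split_ifs with h
    · have h8 : ∏ i, ν i ^ (a i : ℕ) = ze p (X ^ e) X ^ (a 0 : ℕ) := by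
        rw [Finset.prod_congr rfl fun i _ => by rw [h i], Finset.prod_pow, h2]
      rw [h8, map_mul (ze p (X ^ e : κ[X])) (C N), map_mul (ze p (X ^ e : κ[X])) (P a j),
        map_pow (ze p (X ^ e : κ[X])) X]
      ring
    · simp
  have hfin : (s : EE p (X ^ e : κ[X])) = ∑ j : Fin p, ze p (X ^ e)
        (∑ a : ZMod p → Fin e, if ∀ k, a k = a 0 then P a j * X ^ (a 0 : ℕ) else 0) *
        yy p (X ^ e) ^ (j : ℕ) := by
    have h9 := congrArg (fun z => ze p (X ^ e) (C N⁻¹) * z) havg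
    simp only [← mul_assoc, ← map_mul] at h9
    rw [inv_mul_cancel₀ hN0, C_1, map_one, one_mul, one_mul] at h9
    exact h9
  obtain ⟨c', hc'⟩ := tau_fixed _ hs
  let Q : ℕ → κ[X] := fun j => if h : j < p then
    (∑ a : ZMod p → Fin e, if ∀ k, a k = a 0 then P a ⟨j, h⟩ * X ^ (a 0 : ℕ) else 0) else 0
  have hfin2 : (s : EE p (X ^ e : κ[X])) =
      ∑ j ∈ Finset.range p, ofL p (X ^ e) (zinv κ (Q j)) * yy p (X ^ e) ^ j := by
    rw [hfin, ← Fin.sum_univ_eq_sum_range (fun j => ofL p (X ^ e) (zinv κ (Q j)) * yy p (X ^ e) ^ j)]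
    refine Finset.sum_congr rfl fun j _ => ?_
    show _ = ze p (X ^ e) (Q j) * _
    simp only [Q, j.2, dif_pos, Fin.eta]
  have h10 := coordE_sum_yy (p := p) (F := (X ^ e : κ[X])) (fun j => zinv κ (Q j)) hp.out.pos
  rw [← hfin2, hc', coordE_ofL, if_pos rfl] at h10
  refine ⟨Q 0, ?_⟩
  rw [hc', h10]
  rfl

end

end Pool.Agent.MP_1c8e06_ag.AI
end

section

set_option autoImplicit false

open Polynomial

namespace Pool.Agent.MP_1c8e06_ag.AI

noncomputable section

/-!
# Task A4E: the substitution on the Artin-Schreier algebras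

Proof.  `subst hF'`.  Take `σ` from `exists_sub` (`AI/A4.lean`).  `σE` is
`AdjoinRoot.lift ((ofL p F').comp σ) (yy p F') _` (`eval₂_asPoly`, `yy_pow`,
`σ (zinv F) = zinv F'`).  Then `σE (∑ ofL (a_j) y^j) = ∑ ofL (σ a_j) y^j`, so
`coordE (σE a) j = σ (coordE a j)` by `coordE_sum_yy`.
`tau`: compare on `ofL c` and `yy` (or on the sum `eq_sum_coordE`).
Weights: `F'.natDegree = m * F.natDegree` (`natDegree_comp`, `natDegree_map`), and
`order (σ a_j) = m * order a_j`, so every term of `wt` is multiplied by `m`.  For the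
`Fil` statement: `coordE (σE a) j = σ(a_j)`; if `Fil p F N a`, then `a_j = 0` or
`p * order a_j - j n ≥ N`, etc.
-/
theorem exists_sigmaE {p : ℕ} [hp : Fact p.Prime] {κ κ' : Type} [Field κ] [Field κ'] [CharP κ p]
    [CharP κ' p] (F : κ[X]) (φ : κ →+* κ') (h : κ'[X]) (hm : 0 < h.natDegree) (F' : κ'[X])
    (hF' : F' = (F.map φ).comp h) :
    ∃ σE : EE p F →+* EE p F',
      (∀ f : κ[X], σE (ze p F f) = ze p F' ((f.map φ).comp h)) ∧
      (σE (yy p F) = yy p F') ∧
      (∀ a, σE (tau p F a) = tau p F' (σE a)) ∧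
      (∀ a, a ≠ 0 → σE a ≠ 0) ∧
      (∀ (a : EE p F) (N : ℤ), wt p F a = (N : WithTop ℤ) →
        wt p F' (σE a) = (((h.natDegree : ℤ) * N : ℤ) : WithTop ℤ)) := by
  obtain ⟨σ, h1, h2⟩ := exists_sub φ h hm
  have hσ0 : ∀ c : LaurentSeries κ, σ c = 0 ↔ c = 0 := fun c => map_eq_zero σ
  have hroot : Polynomial.eval₂ ((ofL p F').comp σ) (yy p F') (asPoly p F) = 0 := by
    rw [eval₂_asPoly, RingHom.comp_apply, h1, ← hF']
    exact yy_pow p F'
  set σE : EE p F →+* EE p F' := AdjoinRoot.lift ((ofL p F').comp σ) (yy p F') hroot with hσE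
  have hL : ∀ c, σE (ofL p F c) = ofL p F' (σ c) := fun c => AdjoinRoot.lift_of _
  have hy : σE (yy p F) = yy p F' := AdjoinRoot.lift_root _
  have hco : ∀ (a : EE p F) (j : ℕ), j < p → coordE p F' (σE a) j = σ (coordE p F a j) := by
    intro a j hj
    conv_lhs => rw [eq_sum_coordE a]
    rw [map_sum]
    simp only [map_mul, map_pow, hL, hy]
    exact coordE_sum_yy (fun i => σ (coordE p F a i)) hj
  refine ⟨σE, ?_, hy, ?_, ?_, ?_⟩
  · intro f
    rw [ze_apply, hL, h1]
    rfl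
  · intro a
    rw [eq_sum_coordE a]
    simp only [map_sum, map_mul, map_pow, hL, hy, tau_ofL, tau_yy, map_add, map_one]
  · intro a ha h0
    apply ha
    refine extE fun j hj => ?_
    have h3 := hco a j hj
    rw [h0, coordE_zero] at h3
    rw [coordE_zero]
    exact (hσ0 _).1 h3.symm
  · intro a N hN
    have hdeg : F'.natDegree = F.natDegree * h.natDegree := by
      rw [hF', Polynomial.natDegree_comp, Polynomial.natDegree_map]
    have hmono : Monotone (WithTop.map (fun x : ℤ => (h.natDegree : ℤ) * x)) := by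
      apply Monotone.withTop_map
      intro x y hxy
      exact mul_le_mul_of_nonneg_left hxy (Int.natCast_nonneg _)
    have h5 : wt p F' (σE a) = WithTop.map (fun x : ℤ => (h.natDegree : ℤ) * x) (wt p F a) := by
      unfold wt
      rw [Finset.apply_inf_eq_inf_comp_of_linearOrder _ hmono rfl]
      refine Finset.inf_congr rfl fun j hj => ?_
      simp only [Function.comp_apply]
      rw [hco a j (Finset.mem_range.1 hj)]
      by_cases h0 : coordE p F a j = 0
      · rw [if_pos h0, if_pos ((hσ0 _).2 h0)]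
        rfl
      · rw [if_neg h0, if_neg (fun h6 => h0 ((hσ0 _).1 h6)), h2 _ h0, hdeg, WithTop.map_coe]
        congr 1
        push_cast
        ring
    rw [h5, hN, WithTop.map_coe]

end

end Pool.Agent.MP_1c8e06_ag.AI
end
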