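import Pool.Agent.Lib.MP_1c8e06_ag.AI.Defs3
import Pool.Agent.Lib.MP_1c8e06_ag.Mg.G094
import Pool.Agent.Lib.MP_1c8e06_ag.Mg.G090

section

set_option autoImplicit false

open Polynomial

namespace Pool.Agent.MP_1c8e06_ag.AI

noncomputable section

/-!
# Task FA: factorisation of matrices close to the identity

Proof.  Write `M = 1 + ∑_{n ≥ 1} M_n t^n` with `M_n` matrices over `κ((s))`.  Look for
`V = 1 + ∑ V_n t^n` with `V_n` over `s κ[[s]]` and `U = 1 + ∑ U_n t^n` with `U_n` over
`κ[s⁻¹]` (the image of `zinv`) such that `V M = U`: for `n ≥ 1`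
`V_n + (M_n + ∑_{0<i<n} V_i M_{n-i}) = U_n`.  Every Laurent series is uniquely the sum of a polynomial in
`s⁻¹` and an element of `s κ[[s]]`: for `c ∈ κ((s))` let `pol c : κ[X] := ∑_{m ≤ N} C (c.coeff (-m)) X^m`
(`N` large) and `neg c : PowerSeries κ` with coefficients `c.coeff m`, `m ≥ 1`, and `0` at `m = 0`;
`c = zinv (pol c) + ofPowerSeries (neg c)`.  So define by strong recursion on `n`:
`W_n := M_n + ∑_{0<i<n} V_i M_{n-i}`, `V_n := - neg W_n`, `U_n := pol W_n` entrywise.
(For the recursion define the sequence `V : ℕ → Matrix n n (PowerSeries κ)` by strong recursion.)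
-/

private theorem FA_split {κ : Type} [Field κ] (c : LaurentSeries κ) :
    ∃ (P : κ[X]) (v : PowerSeries κ), zinv κ P = c + HahnSeries.ofPowerSeries ℤ κ v := by
  classical
  -- the polynomial part
  let N : ℕ := (-c.order).toNat
  refine ⟨∑ i ∈ Finset.range (N + 1), monomial i (c.coeff (-(i : ℤ))),
    PowerSeries.mk fun m => if m = 0 then 0 else -c.coeff (m : ℤ), ?_⟩
  ext m
  rw [zinv_coeff, HahnSeries.coeff_add, Polynomial.finsetSum_coeff]
  simp only [Polynomial.coeff_monomial]
  rw [Finset.sum_ite_eq']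
  split_ifs with h1 h2
  · have h3 : (-(((-m).toNat : ℕ) : ℤ)) = m := by omega
    rw [h3]
    have h4 : (HahnSeries.ofPowerSeries ℤ κ (PowerSeries.mk fun m : ℕ =>
        if m = 0 then 0 else -c.coeff (m : ℤ))).coeff m = 0 := by
      rcases eq_or_lt_of_le h1 with h5 | h5
      · have h6 := HahnSeries.ofPowerSeries_apply_coeff (Γ := ℤ) (R := κ) (PowerSeries.mk fun m : ℕ =>
          if m = 0 then 0 else -c.coeff (m : ℤ)) 0
        rw [h5]
        simpa using h6
      · rw [HahnSeries.ofPowerSeries_apply, HahnSeries.embDomain_of_notMem_range]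
        rintro ⟨k, hk⟩
        simp at hk
        omega
    rw [h4, add_zero]
  · have h3 : c.coeff m = 0 := by
      apply HahnSeries.coeff_eq_zero_of_lt_order
      rw [Finset.mem_range] at h2
      omega
    rw [h3, zero_add]
    rcases eq_or_lt_of_le h1 with h5 | h5
    · exfalso
      apply h2
      rw [h5]
      simp
    · rw [HahnSeries.ofPowerSeries_apply, HahnSeries.embDomain_of_notMem_range]
      rintro ⟨k, hk⟩
      simp at hk
      omega
  · obtain ⟨k, rfl⟩ : ∃ k : ℕ, m = (k : ℤ) := ⟨m.toNat, by omega⟩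
    have h6 := HahnSeries.ofPowerSeries_apply_coeff (Γ := ℤ) (R := κ) (PowerSeries.mk fun m : ℕ =>
          if m = 0 then 0 else -c.coeff (m : ℤ)) k
    have h7 : k ≠ 0 := by omega
    rw [PowerSeries.coeff_mk, if_neg h7] at h6
    have h8 : (HahnSeries.ofPowerSeries ℤ κ (PowerSeries.mk fun m : ℕ =>
        if m = 0 then 0 else -c.coeff (m : ℤ))).coeff (k : ℤ) = -c.coeff (k : ℤ) := h6
    rw [h8, add_neg_cancel]

/-- The sequence of the coefficients of `V`. -/
private def FA_V {κ : Type} [Field κ] {n : Type} [Fintype n] [DecidableEq n]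
    (v : LaurentSeries κ → PowerSeries κ) (M : ℕ → Matrix n n (LaurentSeries κ)) :
    ℕ → Matrix n n (PowerSeries κ)
  | 0 => 1
  | k + 1 => (∑ i : Fin (k + 1), (FA_V v M i).map (HahnSeries.ofPowerSeries ℤ κ) *
      M (k + 1 - i)).map v
decreasing_by exact i.2

theorem exists_factor {κ : Type} [Field κ] {n : Type} [Fintype n] [DecidableEq n]
    (M : Matrix n n (AA κ)) (hM : M.map PowerSeries.constantCoeff = 1) :
    ∃ (V : Matrix n n (PowerSeries (PowerSeries κ))) (U : Matrix n n (PowerSeries κ[X])),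
      V.map PowerSeries.constantCoeff = 1 ∧ U.map PowerSeries.constantCoeff = 1 ∧
      V.map (minus κ) * M = U.map (plus κ) := by
  classical
  choose P v hPv using FA_split (κ := κ)
  let Mk : ℕ → Matrix n n (LaurentSeries κ) := fun k => M.map (PowerSeries.coeff k)
  let Vk := FA_V v Mk
  let Wk : ℕ → Matrix n n (LaurentSeries κ) := fun k =>
    ∑ i : Fin (k + 1), (Vk i).map (HahnSeries.ofPowerSeries ℤ κ) * Mk (k + 1 - i)
  have hV0 : Vk 0 = 1 := by
    show FA_V v Mk 0 = 1
    rw [FA_V]
  have hV : ∀ k, Vk (k + 1) = (Wk k).map v := by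
    intro k
    show FA_V v Mk (k + 1) = _
    rw [FA_V]
  let Uk : ℕ → Matrix n n κ[X] := fun k => match k with
    | 0 => 1
    | k + 1 => (Wk k).map P
  have hM0 : Mk 0 = 1 := by
    rw [← hM]
    refine Matrix.ext fun i j => ?_
    show PowerSeries.coeff 0 (M i j) = PowerSeries.constantCoeff (M i j)
    rw [PowerSeries.coeff_zero_eq_constantCoeff_apply]
  have key : ∀ k, ∑ ab ∈ Finset.HasAntidiagonal.antidiagonal k,
      (Vk ab.1).map (HahnSeries.ofPowerSeries ℤ κ) * Mk ab.2 = (Uk k).map (zinv κ) := by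
    intro k
    cases k with
    | zero =>
      rw [Finset.Nat.antidiagonal_zero, Finset.sum_singleton, hV0, hM0, mul_one]
      show (1 : Matrix n n (PowerSeries κ)).map _ = (1 : Matrix n n κ[X]).map _
      rw [Matrix.map_one _ (map_zero _) (map_one _), Matrix.map_one _ (map_zero _) (map_one _)]
    | succ k =>
      rw [Finset.Nat.sum_antidiagonal_eq_sum_range_succ
        (fun a b => (Vk a).map (HahnSeries.ofPowerSeries ℤ κ) * Mk b) (k + 1),
        Finset.sum_range_succ, Nat.sub_self, hM0, mul_one, Finset.sum_range]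
      show Wk k + (Vk (k + 1)).map (HahnSeries.ofPowerSeries ℤ κ) = ((Wk k).map P).map (zinv κ)
      rw [hV]
      refine Matrix.ext fun i j => ?_
      show Wk k i j + HahnSeries.ofPowerSeries ℤ κ (v (Wk k i j)) = zinv κ (P (Wk k i j))
      rw [hPv]
  refine ⟨Matrix.of fun i j => PowerSeries.mk fun k => Vk k i j,
    Matrix.of fun i j => PowerSeries.mk fun k => Uk k i j, ?_, ?_, ?_⟩
  · refine Matrix.ext fun i j => ?_
    rw [Matrix.map_apply, Matrix.of_apply, ← PowerSeries.coeff_zero_eq_constantCoeff_apply,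
      PowerSeries.coeff_mk, hV0]
  · refine Matrix.ext fun i j => ?_
    rw [Matrix.map_apply, Matrix.of_apply, ← PowerSeries.coeff_zero_eq_constantCoeff_apply,
      PowerSeries.coeff_mk]
  · refine Matrix.ext fun i j => PowerSeries.ext fun k => ?_
    rw [Matrix.mul_apply, map_sum, Matrix.map_apply, Matrix.of_apply, plus, PowerSeries.coeff_map,
      PowerSeries.coeff_mk]
    have h1 := congrFun (congrFun (key k) i) j
    rw [Matrix.sum_apply, Matrix.map_apply] at h1
    rw [← h1]
    simp only [PowerSeries.coeff_mul]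
    rw [Finset.sum_comm]
    refine Finset.sum_congr rfl fun ab _ => ?_
    rw [Matrix.mul_apply]
    refine Finset.sum_congr rfl fun l _ => ?_
    rw [Matrix.map_apply, Matrix.of_apply, minus, PowerSeries.coeff_map, PowerSeries.coeff_mk]
    rfl

/-- A square matrix of power series with constant part `1` is invertible.
(The determinant has constant coefficient `1`: `RingHom.map_det`.) -/
theorem exists_inv {A : Type} [CommRing A] {n : Type} [Fintype n] [DecidableEq n]
    (M : Matrix n n (PowerSeries A)) (hM : M.map PowerSeries.constantCoeff = 1) :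
    ∃ N : Matrix n n (PowerSeries A), M * N = 1 ∧ N * M = 1 := by
  have h1 : IsUnit M.det := by
    rw [PowerSeries.isUnit_iff_constantCoeff]
    have h2 := RingHom.map_det (PowerSeries.constantCoeff : PowerSeries A →+* A) M
    rw [RingHom.mapMatrix_apply, hM, Matrix.det_one] at h2
    rw [h2]
    exact isUnit_one
  exact ⟨M⁻¹, Matrix.mul_nonsing_inv _ h1, Matrix.nonsing_inv_mul _ h1⟩

end

end Pool.Agent.MP_1c8e06_ag.AI
end

section

set_option autoImplicit false

open Polynomial

namespace Pool.Agent.MP_1c8e06_ag.AI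

noncomputable section

/-!
# Task P0: linear algebra of the data `WD`

Proofs.  Let `B : Matrix G G (EE p F)`, `B x l = b l x`, and `T, T'` mapped to `EE p F` by `ze`.
`htr` says `Bᵀ B = T`, `hdual` says `B T' Bᵀ = 1`.  Square matrices over a commutative ring:
`B (T' Bᵀ) = 1` implies `(T' Bᵀ) B = 1` (`Matrix.mul_eq_one_comm`), i.e. `T' T = 1` and again
`T T' = 1` over `EE p F`; `ze` is injective so also over `R[X]`.
`dual_left`: `∑_x b l x * (∑_m ze (T' n m) b m x) = (T T'ᵀ ...)`: it is `(Bᵀ B T'ᵀ)_{l n}`; `T` is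
symmetric so `T'` is symmetric (inverse of a symmetric matrix), giving `(T T')_{l n} = δ_{l n}`.
`coord_unique`: multiply by `∑_m ze(T' n m) b m x` and sum over `x`.
The generalised version `coord_unique'` is for a ring homomorphism `j : EE p F → A` into a
commutative ring `A` and coefficients in `A`.
`Conn_mul`: the predicate `Q h := ∀ f x, ∑ ze(f l) b l x = 0 → ∑ ze(f l) b l (h * x) = 0`.
`Q h` follows from the case `x = 1` by `hact`: `b l x = ∑ ze(α x l m) b m 1` and
`b l (h x) = ∑ ze(α x l m) b m h`.  `Q` is closed under products; `G` is finite so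
`h⁻¹ = h^(orderOf h - 1)`; so `{h | Q h}` contains the subgroup generated by `H₁ ∪ H₂`.
-/

variable {p : ℕ} [hp : Fact p.Prime] {R : Type} [CommRing R] [Nontrivial R] [CharP R p]
  {G : Type} [Group G] [Fintype G] {g : G} {F : R[X]} (D : WD p R G g F)

include D

private def P0_B : Matrix G G (EE p F) := Matrix.of fun x l => D.b l x

private def P0_T : Matrix G G (EE p F) := Matrix.of fun i j => ze p F (D.T i j)

private def P0_T' : Matrix G G (EE p F) := Matrix.of fun i j => ze p F (D.T' i j)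

omit [Nontrivial R] in
private theorem P0_BB : (P0_B D).transpose * P0_B D = P0_T D := by
  ext i j
  rw [Matrix.mul_apply]
  simp only [Matrix.transpose_apply, P0_B, P0_T, Matrix.of_apply]
  exact D.htr i j

omit [Nontrivial R] in
private theorem P0_dual [DecidableEq G] : P0_B D * (P0_T' D * (P0_B D).transpose) = 1 := by
  ext x x'
  rw [Matrix.mul_apply, Matrix.one_apply, ← D.hdual x x']
  refine Finset.sum_congr rfl fun l _ => ?_
  rw [Matrix.mul_apply, Finset.mul_sum]
  refine Finset.sum_congr rfl fun m _ => ?_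
  simp only [Matrix.transpose_apply, P0_B, P0_T', Matrix.of_apply]
  rw [mul_assoc]

omit [Nontrivial R] in
private theorem P0_T'T [DecidableEq G] : P0_T' D * P0_T D = 1 := by
  have h := mul_eq_one_comm.1 (P0_dual D)
  rwa [Matrix.mul_assoc, P0_BB] at h

omit [Nontrivial R] in
private theorem P0_TT' [DecidableEq G] : P0_T D * P0_T' D = 1 :=
  mul_eq_one_comm.1 (P0_T'T D)

theorem WD.T_symm (i j : G) : D.T i j = D.T j i := by
  apply ze_injective (p := p) (F := F)
  rw [← D.htr, ← D.htr]
  exact Finset.sum_congr rfl fun x _ => mul_comm _ _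

theorem WD.TT' (i j : G) [Decidable (i = j)] : ∑ m, D.T i m * D.T' m j = if i = j then 1 else 0 := by
  classical
  apply ze_injective (p := p) (F := F)
  have h := congrFun (congrFun (P0_TT' D) i) j
  rw [Matrix.mul_apply, Matrix.one_apply] at h
  simp only [P0_T, P0_T', Matrix.of_apply] at h
  rw [map_sum]
  simp only [map_mul]
  rw [h]
  split_ifs <;> simp

theorem WD.T'T (i j : G) [Decidable (i = j)] : ∑ m, D.T' i m * D.T m j = if i = j then 1 else 0 := by
  classical
  apply ze_injective (p := p) (F := F)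
  have h := congrFun (congrFun (P0_T'T D) i) j
  rw [Matrix.mul_apply, Matrix.one_apply] at h
  simp only [P0_T, P0_T', Matrix.of_apply] at h
  rw [map_sum]
  simp only [map_mul]
  rw [h]
  split_ifs <;> simp

private theorem P0_T'_transpose : (P0_T' D).transpose = P0_T' D := by
  classical
  have hT : (P0_T D).transpose = P0_T D := by
    ext i j
    simp only [Matrix.transpose_apply, P0_T, Matrix.of_apply]
    rw [D.T_symm]
  have h1 := congrArg Matrix.transpose (P0_TT' D)
  rw [Matrix.transpose_mul, Matrix.transpose_one, hT] at h1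
  calc (P0_T' D).transpose = (P0_T' D).transpose * (P0_T D * P0_T' D) := by
        rw [P0_TT', Matrix.mul_one]
    _ = P0_T' D := by rw [← Matrix.mul_assoc, h1, Matrix.one_mul]

theorem WD.T'_symm (i j : G) : D.T' i j = D.T' j i := by
  apply ze_injective (p := p) (F := F)
  exact (congrFun (congrFun (P0_T'_transpose D) i) j).symm

theorem WD.dual_left (l n : G) [Decidable (l = n)] :
    ∑ x, D.b l x * ∑ m, ze p F (D.T' n m) * D.b m x = if l = n then 1 else 0 := by
  classical
  have h : (P0_B D).transpose * (P0_B D * (P0_T' D).transpose) = 1 := by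
    rw [← Matrix.mul_assoc, P0_BB, P0_T'_transpose, P0_TT']
  have h2 := congrFun (congrFun h l) n
  rw [Matrix.mul_apply, Matrix.one_apply] at h2
  have h3 : ∑ x, D.b l x * ∑ m, ze p F (D.T' n m) * D.b m x =
      ∑ j, (P0_B D).transpose l j * (P0_B D * (P0_T' D).transpose) j n := by
    refine Finset.sum_congr rfl fun x _ => ?_
    rw [Matrix.mul_apply]
    simp only [Matrix.transpose_apply, P0_B, P0_T', Matrix.of_apply]
    congr 1
    exact Finset.sum_congr rfl fun m _ => mul_comm _ _
  rw [h3, h2]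
  split_ifs <;> simp

theorem WD.dual_right (x x' : G) [Decidable (x = x')] :
    ∑ l, D.b l x * ∑ m, ze p F (D.T' l m) * D.b m x' = if x = x' then 1 else 0 := by
  rw [← D.hdual x x']
  refine Finset.sum_congr rfl fun l _ => ?_
  rw [Finset.mul_sum]
  exact Finset.sum_congr rfl fun m _ => (mul_assoc _ _ _).symm

theorem WD.coord_unique' {A : Type} [CommRing A] (j : EE p F →+* A) (a : G → A)
    (h : ∀ x, ∑ l, a l * j (D.b l x) = 0) : a = 0 := by
  classical
  funext n
  have h1 : ∑ x, (∑ l, a l * j (D.b l x)) * j (∑ m, ze p F (D.T' n m) * D.b m x) = a n := by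
    calc ∑ x, (∑ l, a l * j (D.b l x)) * j (∑ m, ze p F (D.T' n m) * D.b m x)
        = ∑ x, ∑ l, a l * j (D.b l x * ∑ m, ze p F (D.T' n m) * D.b m x) := by
          refine Finset.sum_congr rfl fun x _ => ?_
          rw [Finset.sum_mul]
          refine Finset.sum_congr rfl fun l _ => ?_
          rw [map_mul, mul_assoc]
      _ = ∑ l, a l * j (∑ x, D.b l x * ∑ m, ze p F (D.T' n m) * D.b m x) := by
          rw [Finset.sum_comm]
          refine Finset.sum_congr rfl fun l _ => ?_
          rw [map_sum, Finset.mul_sum]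
      _ = ∑ l, a l * j (if l = n then 1 else 0) := by
          refine Finset.sum_congr rfl fun l _ => ?_
          rw [D.dual_left l n]
      _ = a n := by
          rw [Finset.sum_eq_single n]
          · simp
          · intro l _ hl
            rw [if_neg hl, map_zero, mul_zero]
          · intro hn
            exact absurd (Finset.mem_univ n) hn
  rw [← h1]
  refine Finset.sum_eq_zero fun x _ => ?_
  rw [h x, zero_mul]

theorem WD.conn_translate {H : Subgroup G} (hD : D.Conn H) {h : G} (hh : h ∈ H) (f : G → R[X])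
    (x : G) (hx : ∑ l, ze p F (f l) * D.b l x = 0) :
    ∑ l, ze p F (f l) * D.b l (h * x) = 0 := by
  have key : ∀ y : G, ∑ l, ze p F (f l) * D.b l (y * x) =
      ∑ m, ze p F (∑ l, f l * D.α x l m) * D.b m y := by
    intro y
    calc ∑ l, ze p F (f l) * D.b l (y * x)
        = ∑ l, ∑ m, ze p F (f l * D.α x l m) * D.b m y := by
          refine Finset.sum_congr rfl fun l _ => ?_
          rw [D.hact x l y, Finset.mul_sum]
          refine Finset.sum_congr rfl fun m _ => ?_
          rw [map_mul, mul_assoc]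
      _ = _ := by
          rw [Finset.sum_comm]
          refine Finset.sum_congr rfl fun m _ => ?_
          rw [map_sum, Finset.sum_mul]
  rw [key h]
  refine hD h hh _ ?_
  rw [← key 1, one_mul]
  exact hx

theorem WD.conn_sup {H₁ H₂ : Subgroup G} (h₁ : D.Conn H₁) (h₂ : D.Conn H₂) :
    D.Conn (H₁ ⊔ H₂) := by
  have key : ∀ h ∈ Subgroup.closure ((H₁ : Set G) ∪ H₂),
      (∀ (f : G → R[X]) (x : G), ∑ l, ze p F (f l) * D.b l x = 0 →
        ∑ l, ze p F (f l) * D.b l (h * x) = 0) ∧
      (∀ (f : G → R[X]) (x : G), ∑ l, ze p F (f l) * D.b l x = 0 →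
        ∑ l, ze p F (f l) * D.b l (h⁻¹ * x) = 0) := by
    intro h hh
    induction hh using Subgroup.closure_induction with
    | mem y hy =>
      rcases hy with hy | hy
      · exact ⟨fun f x => D.conn_translate h₁ hy f x, fun f x =>
          D.conn_translate h₁ (inv_mem hy) f x⟩
      · exact ⟨fun f x => D.conn_translate h₂ hy f x, fun f x =>
          D.conn_translate h₂ (inv_mem hy) f x⟩
    | one => exact ⟨fun f x hx => by rwa [one_mul], fun f x hx => by rwa [inv_one, one_mul]⟩
    | mul y z _ _ hy hz =>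
      constructor
      · intro f x hx
        rw [mul_assoc]
        exact hy.1 f _ (hz.1 f x hx)
      · intro f x hx
        rw [mul_inv_rev, mul_assoc]
        exact hz.2 f _ (hy.2 f x hx)
    | inv y _ hy =>
      refine ⟨hy.2, ?_⟩
      rw [inv_inv]
      exact hy.1
  intro h hh f hf
  rw [Subgroup.sup_eq_closure] at hh
  have := (key h hh).1 f 1 hf
  rwa [mul_one] at this

end

end Pool.Agent.MP_1c8e06_ag.AI
end

section

set_option autoImplicit false

open Polynomial

namespace Pool.Agent.MP_1c8e06_ag.AI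

noncomputable section

/-!
# Task P1: the gluing matrices

Notation: `b1 = D₁.b`, `b2 = D₂.b`, `B̃ l x = E.T (b2 l x)`, `j = PowerSeries.map (ofL p F) : AA κ → 𝓔`,
`𝓔 = PowerSeries (EE p F)`, `j` injective, `C = PowerSeries.C : EE p F → 𝓔`.
Let `λ1 m x := ∑_j ze (T1' m j) b1 j x` and `λ2` similarly.
Proof.
1. `g l m := ∑_x B̃ l x * C (λ1 m x)` lies in the range of `j`: it is fixed by
   `PowerSeries.map tau` (`Env.Ttau`, `D.hg`, `tau_ze`: `map tau` of the `x`-term is the `g x`-term;
   `x ↦ g * x` is a bijection), so each coefficient is fixed by `tau` and `tau_fixed` (`AI/A2.lean`)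
   applies.  Say `g l m = j (ĝ l m)`.  By `WD.dual_right`: `B̃ l x = ∑_m j (ĝ l m) * C (b1 m x)`.
2. Similarly `g' m l := ∑_x C (b1 m x) * E.T (λ2 l x) = j (ĝ' m l)` and
   `C (b1 m x) = ∑_l j (ĝ' m l) * B̃ l x`.
3. `ĝ * ĝ' = 1` and `ĝ' * ĝ = 1` as matrices over `AA κ` (`coord_unique'`-type uniqueness: substitute one
   in the other; `j` injective).
4. `ḡ := ĝ.map constantCoeff`, `ḡ' := ĝ'.map constantCoeff` over `κ((s))`, `ḡ ḡ' = ḡ' ḡ = 1`.
   `M := (ḡ'.map C) * ĝ` has `M.map constantCoeff = 1`.  `exists_factor`: `minus V * M = plus U`;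
   `exists_inv`: `V`, `U` invertible with inverses `V'`, `U'`.
5. `W := minus V * ḡ'.map C`, `Wi := ḡ.map C * minus V'`, entries in `Bm κ` (`minus_mem`, `C_mem`).
   `∑_m j (W l m) B̃ m x = ∑ j (minus V ḡ' ĝ)_{l m} C (b1 m x) = ∑_m j (plus (U l m)) C (b1 m x)`.
-/

section

variable {p : ℕ} [hp : Fact p.Prime] {κ : Type} [Field κ] [CharP κ p] {G : Type}
    [Group G] [Fintype G] {g : G} {F q : κ[X]}

private theorem P1_fixed (a : PowerSeries (EE p F)) (h : PowerSeries.map (tau p F) a = a) :
    ∃ c : AA κ, a = PowerSeries.map (ofL p F) c := by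
  have h1 : ∀ n, ∃ c : LaurentSeries κ, PowerSeries.coeff n a = ofL p F c := by
    intro n
    apply tau_fixed
    have h2 := congrArg (PowerSeries.coeff n) h
    rwa [PowerSeries.coeff_map] at h2
  choose c hc using h1
  refine ⟨PowerSeries.mk c, ?_⟩
  ext n
  rw [PowerSeries.coeff_map, PowerSeries.coeff_mk, hc]

omit [CharP κ p] in
private theorem P1_map_inj : Function.Injective (PowerSeries.map (ofL p F)) := by
  intro a b h
  ext n : 1
  apply ofL_injective (p := p) (F := F)
  have h2 := congrArg (PowerSeries.coeff n) h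
  rwa [PowerSeries.coeff_map, PowerSeries.coeff_map] at h2

/-- The dual system. -/
private def P1_lam (D : WD p κ G g F) (m x : G) : EE p F :=
  ∑ n, ze p F (D.T' m n) * D.b n x

private theorem P1_tau_lam (D : WD p κ G g F) (m x : G) :
    tau p F (P1_lam D m x) = P1_lam D m (g * x) := by
  unfold P1_lam
  rw [map_sum]
  refine Finset.sum_congr rfl fun n _ => ?_
  rw [map_mul, tau_ze, D.hg]

private theorem P1_shift (f f' : G → PowerSeries (EE p F))
    (h : ∀ x, PowerSeries.map (tau p F) (f x) = f (g * x))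
    (h' : ∀ x, PowerSeries.map (tau p F) (f' x) = f' (g * x)) :
    ∃ c : AA κ, ∑ x, f x * f' x = PowerSeries.map (ofL p F) c := by
  apply P1_fixed
  rw [map_sum]
  simp only [map_mul, h, h']
  exact Fintype.sum_equiv (Equiv.mulLeft g) _ _ fun x => rfl

end

theorem exists_glue {p : ℕ} [hp : Fact p.Prime] {κ : Type} [Field κ] [CharP κ p] {G : Type}
    [Group G] [Fintype G] [DecidableEq G] {g : G} {F q : κ[X]} (E : Env p κ F q)
    (D₁ D₂ : WD p κ G g F) :
    ∃ (U Ui : Matrix G G (PowerSeries κ[X])) (W Wi : Matrix G G (Bm κ)),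
      U * Ui = 1 ∧ Ui * U = 1 ∧ W * Wi = 1 ∧ Wi * W = 1 ∧
      ∀ l x, ∑ m, PowerSeries.map (ofL p F) (plus κ (U l m)) * PowerSeries.C (D₁.b m x) =
        ∑ m, PowerSeries.map (ofL p F) (W l m : AA κ) * E.T (D₂.b m x) := by
  classical
  -- `C (b1 m x)`, `T (b2 l x)` and the dual systems
  have hC : ∀ a : EE p F, PowerSeries.map (tau p F) (PowerSeries.C a) =
      PowerSeries.C (tau p F a) := fun a => PowerSeries.map_C _ _
  have h1 : ∀ l m : G, ∃ c : AA κ, ∑ x, E.T (D₂.b l x) * PowerSeries.C (P1_lam D₁ m x) =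
      PowerSeries.map (ofL p F) c := by
    intro l m
    refine P1_shift (g := g) _ _ (fun x => ?_) (fun x => ?_)
    · rw [← E.Ttau, D₂.hg]
    · rw [hC, P1_tau_lam]
  have h2 : ∀ m l : G, ∃ c : AA κ, ∑ x, PowerSeries.C (D₁.b m x) * E.T (P1_lam D₂ l x) =
      PowerSeries.map (ofL p F) c := by
    intro m l
    refine P1_shift (g := g) _ _ (fun x => ?_) (fun x => ?_)
    · rw [hC, D₁.hg]
    · rw [← E.Ttau, P1_tau_lam]
  choose gh hgh using h1
  choose gh' hgh' using h2
  have I1 : ∀ l x, ∑ m, PowerSeries.map (ofL p F) (gh l m) * PowerSeries.C (D₁.b m x) =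
      E.T (D₂.b l x) := by
    intro l x
    have e1 : ∑ m, PowerSeries.map (ofL p F) (gh l m) * PowerSeries.C (D₁.b m x) =
        ∑ x', E.T (D₂.b l x') * PowerSeries.C (∑ m, D₁.b m x * P1_lam D₁ m x') := by
      simp only [← hgh, map_sum, map_mul, Finset.sum_mul, Finset.mul_sum]
      rw [Finset.sum_comm]
      refine Finset.sum_congr rfl fun x' _ => Finset.sum_congr rfl fun m _ => ?_
      ring
    rw [e1]
    have e2 : ∀ x', ∑ m, D₁.b m x * P1_lam D₁ m x' = if x = x' then 1 else 0 := fun x' =>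
      D₁.dual_right x x'
    simp only [e2]
    rw [Finset.sum_eq_single x]
    · simp
    · intro x' _ hx'
      rw [if_neg (Ne.symm hx'), map_zero, mul_zero]
    · intro h; exact absurd (Finset.mem_univ x) h
  have I2 : ∀ m x, ∑ l, PowerSeries.map (ofL p F) (gh' m l) * E.T (D₂.b l x) =
      PowerSeries.C (D₁.b m x) := by
    intro m x
    have e1 : ∑ l, PowerSeries.map (ofL p F) (gh' m l) * E.T (D₂.b l x) =
        ∑ x', PowerSeries.C (D₁.b m x') * E.T (∑ l, D₂.b l x * P1_lam D₂ l x') := by
      simp only [← hgh', map_sum, map_mul, Finset.sum_mul, Finset.mul_sum]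
      rw [Finset.sum_comm]
      refine Finset.sum_congr rfl fun x' _ => Finset.sum_congr rfl fun l _ => ?_
      ring
    rw [e1]
    have e2 : ∀ x', ∑ l, D₂.b l x * P1_lam D₂ l x' = if x = x' then 1 else 0 := fun x' =>
      D₂.dual_right x x'
    simp only [e2]
    rw [Finset.sum_eq_single x]
    · simp
    · intro x' _ hx'
      rw [if_neg (Ne.symm hx'), map_zero, mul_zero]
    · intro h; exact absurd (Finset.mem_univ x) h
  -- the matrices
  let Gm : Matrix G G (AA κ) := Matrix.of gh
  let Gm' : Matrix G G (AA κ) := Matrix.of gh'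
  have hG'G : Gm' * Gm = 1 := by
    ext m n : 2
    have key : (fun n => PowerSeries.map (ofL p F) ((Gm' * Gm) m n) -
        PowerSeries.map (ofL p F) ((1 : Matrix G G (AA κ)) m n)) = 0 := by
      refine D₁.coord_unique' (PowerSeries.C : EE p F →+* PowerSeries (EE p F)) _ fun x => ?_
      simp only [sub_mul, Finset.sum_sub_distrib]
      have e1 : ∑ n, PowerSeries.map (ofL p F) ((Gm' * Gm) m n) * PowerSeries.C (D₁.b n x) =
          PowerSeries.C (D₁.b m x) := by
        rw [← I2 m x]
        simp only [← I1, Matrix.mul_apply, map_sum, map_mul, Finset.sum_mul, Finset.mul_sum]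
        rw [Finset.sum_comm]
        refine Finset.sum_congr rfl fun l _ => Finset.sum_congr rfl fun n _ => ?_
        show _ = PowerSeries.map (ofL p F) (Gm' m l) *
          (PowerSeries.map (ofL p F) (Gm l n) * PowerSeries.C (D₁.b n x))
        ring
      have e2 : ∑ n, PowerSeries.map (ofL p F) ((1 : Matrix G G (AA κ)) m n) *
          PowerSeries.C (D₁.b n x) = PowerSeries.C (D₁.b m x) := by
        rw [Finset.sum_eq_single m]
        · rw [Matrix.one_apply_eq, map_one, one_mul]
        · intro n _ hn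
          rw [Matrix.one_apply_ne (Ne.symm hn), map_zero, zero_mul]
        · intro h; exact absurd (Finset.mem_univ m) h
      rw [e1, e2, sub_self]
    have h3 := congrFun key n
    exact congrArg _ (P1_map_inj (p := p) (F := F) (sub_eq_zero.1 h3))
  have hGG' : Gm * Gm' = 1 := mul_eq_one_comm.1 hG'G
  -- constant parts
  let c0 : AA κ →+* LaurentSeries κ := PowerSeries.constantCoeff
  let CC : LaurentSeries κ →+* AA κ := PowerSeries.C
  let g0 : Matrix G G (LaurentSeries κ) := c0.mapMatrix Gm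
  let g0' : Matrix G G (LaurentSeries κ) := c0.mapMatrix Gm'
  have hg0 : g0' * g0 = 1 := by
    show c0.mapMatrix Gm' * c0.mapMatrix Gm = 1
    rw [← map_mul, hG'G, map_one]
  have hg0' : g0 * g0' = 1 := mul_eq_one_comm.1 hg0
  let Mt : Matrix G G (AA κ) := CC.mapMatrix g0' * Gm
  have hMt : Mt.map PowerSeries.constantCoeff = 1 := by
    show c0.mapMatrix (CC.mapMatrix g0' * Gm) = 1
    rw [map_mul]
    have e : c0.mapMatrix (CC.mapMatrix g0') = g0' := by
      ext i j : 2
      exact PowerSeries.constantCoeff_C _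
    rw [e]
    exact hg0
  obtain ⟨V, U, hV, hU, hVU⟩ := exists_factor Mt hMt
  obtain ⟨V', hVV', hV'V⟩ := exists_inv V hV
  obtain ⟨Ui, hUU, hUU'⟩ := exists_inv U hU
  let mB : PowerSeries (PowerSeries κ) →+* Bm κ := (minus κ).codRestrict (Bm κ) minus_mem
  let CB : LaurentSeries κ →+* Bm κ :=
    (PowerSeries.C : LaurentSeries κ →+* AA κ).codRestrict (Bm κ) C_mem
  refine ⟨U, Ui, mB.mapMatrix V * CB.mapMatrix g0', CB.mapMatrix g0 * mB.mapMatrix V', hUU, hUU',
    ?_, ?_, ?_⟩
  · rw [mul_assoc, ← mul_assoc (CB.mapMatrix g0'), ← map_mul, hg0, map_one, one_mul, ← map_mul,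
      hVV', map_one]
  · rw [mul_assoc, ← mul_assoc (mB.mapMatrix V'), ← map_mul, hV'V, map_one, one_mul, ← map_mul,
      hg0', map_one]
  · intro l x
    have e0 : ∀ m, ((mB.mapMatrix V * CB.mapMatrix g0') l m : AA κ) =
        (V.map (minus κ) * CC.mapMatrix g0') l m := by
      intro m
      rw [Matrix.mul_apply, Matrix.mul_apply]
      rw [AddSubmonoidClass.coe_finsetSum]
      rfl
    have e1 : V.map (minus κ) * CC.mapMatrix g0' * Gm = U.map (plus κ) := by
      rw [mul_assoc]
      exact hVU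
    have e2 : ∀ n, plus κ (U l n) = ∑ m, (V.map (minus κ) * CC.mapMatrix g0') l m * gh m n := by
      intro n
      have h5 := congrFun (congrFun e1 l) n
      rw [Matrix.mul_apply] at h5
      exact h5.symm
    simp only [e0, ← I1, e2, map_sum, map_mul, Finset.sum_mul, Finset.mul_sum]
    rw [Finset.sum_comm]
    refine Finset.sum_congr rfl fun m _ => Finset.sum_congr rfl fun n _ => ?_
    ring

end

end Pool.Agent.MP_1c8e06_ag.AI
end

section

set_option autoImplicit false

open Polynomial

namespace Pool.Agent.MP_1c8e06_ag.AI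

noncomputable section

/-!
# Task PM: `plus ∩ Bm = incl`

Proof.  (1) `u = plus U` with `coeff n u = zinv (U_n)`.  If `u ∈ Bm` with bound `N` then
`(U_n).coeff m = (zinv U_n).coeff (-m) = 0` for `m > N` (`zinv_coeff`), so
`P := ∑_{m ≤ N} C (PowerSeries.mk fun n => (U_n).coeff m) * X^m` satisfies `incl P = u`:
compare coefficients (`(coeff n (incl P)).coeff k`).
(2) conversely `incl P = plus U` where `coeff n U = ∑_m C (coeff n (P.coeff m)) X^m`; by linearity it is
enough to treat monomials, or define `U := P.eval₂ (PowerSeries.map C) (PowerSeries.C X)` (a ring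
homomorphism in `P`) and compare ring homomorphisms with `Polynomial.ringHom_ext`.
(3) `incl` is injective: coefficients.
-/

private theorem PM_coeff {κ : Type} [Field κ] (P : (PowerSeries κ)[X]) (n : ℕ) (m : ℤ) :
    (PowerSeries.coeff n (incl κ P)).coeff m =
      if m ≤ 0 then PowerSeries.coeff n (P.coeff (-m).toNat) else 0 := by
  induction P using Polynomial.induction_on' with
  | add f g hf hg =>
    rw [map_add, map_add, HahnSeries.coeff_add, hf, hg]
    split_ifs
    · rw [Polynomial.coeff_add, map_add]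
    · rw [add_zero]
  | monomial k a =>
    rw [incl, Polynomial.coe_eval₂RingHom, Polynomial.eval₂_monomial, ← map_pow,
      PowerSeries.coeff_mul_C, PowerSeries.coeff_map, HahnSeries.single_pow, one_pow,
      HahnSeries.C_mul_eq_smul, HahnSeries.coeff_smul, HahnSeries.coeff_single, smul_eq_mul,
      Polynomial.coeff_monomial]
    by_cases h1 : m = k • (-1 : ℤ)
    · have h2 : m ≤ 0 := by rw [h1]; simp
      have h3 : k = (-m).toNat := by rw [h1]; simp
      rw [if_pos h1, if_pos h2, if_pos h3, mul_one]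
    · rw [if_neg h1, mul_zero]
      split_ifs with h2 h3
      · exfalso
        apply h1
        simp only [smul_neg, smul_eq_mul, mul_one, nsmul_eq_mul]
        omega
      · rw [map_zero]
      · rfl

private theorem PM_coeff_plus {κ : Type} [Field κ] (U : PowerSeries κ[X]) (n : ℕ) (m : ℤ) :
    (PowerSeries.coeff n (plus κ U)).coeff m =
      if m ≤ 0 then (PowerSeries.coeff n U).coeff (-m).toNat else 0 := by
  rw [plus, PowerSeries.coeff_map, zinv_coeff]

theorem exists_incl_of_plus {κ : Type} [Field κ] (U : PowerSeries κ[X]) (h : plus κ U ∈ Bm κ) :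
    ∃ P : (PowerSeries κ)[X], incl κ P = plus κ U := by
  obtain ⟨N, hN⟩ := mem_Bm.1 h
  refine ⟨∑ i ∈ Finset.range (N + 1), monomial i (PowerSeries.mk fun n =>
    (PowerSeries.coeff n U).coeff i), ?_⟩
  ext n m
  rw [PM_coeff, PM_coeff_plus]
  split_ifs with h1
  · rw [Polynomial.finset_sum_coeff]
    simp only [Polynomial.coeff_monomial]
    rw [Finset.sum_ite_eq']
    split_ifs with h2
    · rw [PowerSeries.coeff_mk]
    · have h3 := hN n m (by rw [Finset.mem_range] at h2; omega)
      rw [PM_coeff_plus, if_pos h1] at h3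
      rw [h3, map_zero]
  · rfl

theorem exists_plus_of_incl {κ : Type} [Field κ] (P : (PowerSeries κ)[X]) :
    ∃ U : PowerSeries κ[X], plus κ U = incl κ P := by
  refine ⟨PowerSeries.mk fun n => ∑ i ∈ P.support, monomial i (PowerSeries.coeff n (P.coeff i)), ?_⟩
  ext n m
  rw [PM_coeff, PM_coeff_plus, PowerSeries.coeff_mk, Polynomial.finset_sum_coeff]
  simp only [Polynomial.coeff_monomial]
  rw [Finset.sum_ite_eq']
  split_ifs with h1 h2
  · rfl
  · rw [Polynomial.notMem_support_iff] at h2
    rw [h2, map_zero]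
  · rfl

theorem incl_injective {κ : Type} [Field κ] : Function.Injective (incl κ) := by
  intro P Q h
  ext j n
  have h1 := congrArg (fun a => (PowerSeries.coeff n a).coeff (-(j : ℤ))) h
  simp only [PM_coeff] at h1
  simpa using h1

theorem plus_injective {κ : Type} [Field κ] : Function.Injective (plus κ) := by
  intro U V h
  ext n j
  have h1 := congrArg (fun a => (PowerSeries.coeff n a).coeff (-(j : ℤ))) h
  simp only [PM_coeff_plus] at h1
  simpa using h1

end

end Pool.Agent.MP_1c8e06_ag.AI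
end

section

set_option autoImplicit false

open Polynomial

namespace Pool.Agent.MP_1c8e06_ag.AI

noncomputable section

/-- a finite spanning family closed under multiplication -/
private def E1_sub {R A : Type} [CommRing R] [CommRing A] [Algebra R A] {ι : Type} (v : ι → A)
    (h1 : (1 : A) ∈ Submodule.span R (Set.range v))
    (hm : ∀ i j, v i * v j ∈ Submodule.span R (Set.range v)) : Subalgebra R A :=
  Submodule.toSubalgebra (Submodule.span R (Set.range v)) h1 (by
    intro x y hx hy
    have h2 : x * y ∈ Submodule.span R (Set.range v) * Submodule.span R (Set.range v) :=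
      Submodule.mul_mem_mul hx hy
    rw [Submodule.span_mul_span] at h2
    refine Submodule.span_le.2 ?_ h2
    rintro _ ⟨_, ⟨i, rfl⟩, _, ⟨j, rfl⟩, rfl⟩
    exact hm i j)

private theorem E1_sub_fg {R A : Type} [CommRing R] [CommRing A] [Algebra R A] {ι : Type} [Finite ι]
    (v : ι → A) (h1 : (1 : A) ∈ Submodule.span R (Set.range v))
    (hm : ∀ i j, v i * v j ∈ Submodule.span R (Set.range v)) :
    (Subalgebra.toSubmodule (E1_sub v h1 hm)).FG :=
  Submodule.fg_span (Set.finite_range v)

private theorem E1_core {κ K E G : Type} [Field κ] [Field K] [Field E] [Fintype G]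
    [Algebra κ[X] K] [IsFractionRing κ[X] K] [Algebra κ[X] E] [Algebra K E]
    [IsScalarTower κ[X] K E] (b : G → G → E) (μ : G → G → G → κ[X]) (ν : G → κ[X])
    (T T' : G → G → κ[X])
    (hmul : ∀ i j x, b i x * b j x = ∑ l, algebraMap κ[X] E (μ i j l) * b l x)
    (hone : ∀ x, ∑ l, algebraMap κ[X] E (ν l) * b l x = 1)
    (htr : ∀ i j, ∑ x, b i x * b j x = algebraMap κ[X] E (T i j))
    (hTT' : ∀ (i j : G) [Decidable (i = j)], ∑ m, T i m * T' m j = if i = j then 1 else 0)
    (e h : G)
    (hc : ∀ (f : G → κ[X]) (c : G → κ),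
      (∀ x, ∑ l, algebraMap κ[X] E (f l) * b l x = algebraMap κ[X] E (C (c x))) → c h = c e)
    (f : G → κ[X]) (hf : ∑ l, algebraMap κ[X] E (f l) * b l e = 0) :
    ∑ l, algebraMap κ[X] E (f l) * b l h = 0 := by
  classical
  -- the functions `B l`
  let B : G → G → E := fun l x => b l x
  have hsm : ∀ (r : κ[X]) (z : E), algebraMap κ[X] E r * z = algebraMap κ[X] K r • z := by
    intro r z
    rw [Algebra.smul_def, ← IsScalarTower.algebraMap_apply]
  have hBone : (1 : G → E) ∈ Submodule.span K (Set.range B) := by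
    rw [Submodule.mem_span_range_iff_exists_fun]
    refine ⟨fun l => algebraMap κ[X] K (ν l), ?_⟩
    funext x
    rw [Finset.sum_apply, Pi.one_apply, ← hone x]
    refine Finset.sum_congr rfl fun l _ => ?_
    rw [Pi.smul_apply, hsm]
  have hBmul : ∀ i j, B i * B j ∈ Submodule.span K (Set.range B) := by
    intro i j
    rw [Submodule.mem_span_range_iff_exists_fun]
    refine ⟨fun l => algebraMap κ[X] K (μ i j l), ?_⟩
    funext x
    rw [Finset.sum_apply, Pi.mul_apply]
    change _ = b i x * b j x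
    rw [hmul]
    refine Finset.sum_congr rfl fun l _ => ?_
    rw [Pi.smul_apply, hsm]
  let S : Subalgebra K (G → E) := E1_sub B hBone hBmul
  have hSfg : (Subalgebra.toSubmodule S).FG := E1_sub_fg B hBone hBmul
  have hSmem : ∀ Θ : G → E, Θ ∈ S ↔ ∃ w : G → K, ∀ x, Θ x = ∑ l, w l • b l x := by
    intro Θ
    change Θ ∈ Submodule.span K (Set.range B) ↔ _
    rw [Submodule.mem_span_range_iff_exists_fun]
    constructor
    · rintro ⟨w, hw⟩
      refine ⟨w, fun x => ?_⟩
      rw [← hw, Finset.sum_apply]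
      rfl
    · rintro ⟨w, hw⟩
      refine ⟨w, ?_⟩
      funext x
      rw [hw x, Finset.sum_apply]
      rfl
  -- inverses
  have hinv : ∀ Θ ∈ S, ∀ x, Θ x ≠ 0 → ∃ Θ' ∈ S, Θ' x * Θ x = 1 := by
    intro Θ hΘ x hx
    have hint : IsIntegral K Θ := IsIntegral.of_mem_of_fg S hSfg Θ hΘ
    let ev : (G → E) →ₐ[K] E := Pi.evalAlgHom K (fun _ => E) x
    have hint2 : IsIntegral K (ev Θ) := hint.map ev
    have hmem : ev Θ ∈ S.map ev := ⟨Θ, hΘ, rfl⟩
    have h2 := Subalgebra.inv_mem_of_algebraic (S.map ev) (x := ⟨ev Θ, hmem⟩) hint2.isAlgebraic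
    obtain ⟨Θ', hΘ', h3⟩ := h2
    refine ⟨Θ', hΘ', ?_⟩
    have h4 : Θ' x = (Θ x)⁻¹ := h3
    rw [h4, inv_mul_cancel₀ hx]
  -- the relation
  let Rl : G → Prop := fun x => ∀ Θ ∈ S, Θ x = 0 → Θ e = 0
  have hRl' : ∀ x, Rl x → ∀ Θ ∈ S, Θ e = 0 → Θ x = 0 := by
    intro x hx Θ hΘ he
    by_contra hne
    obtain ⟨Θ', hΘ', h1⟩ := hinv Θ hΘ x hne
    have h2 := hx (1 - Θ' * Θ) (S.sub_mem S.one_mem (S.mul_mem hΘ' hΘ)) (by
      rw [Pi.sub_apply, Pi.mul_apply, h1, Pi.one_apply, sub_self])
    rw [Pi.sub_apply, Pi.mul_apply, he, mul_zero, Pi.one_apply, sub_zero] at h2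
    exact one_ne_zero h2
  have hsep : ∀ x, ¬ Rl x → ∃ Θ ∈ S, Θ x = 0 ∧ Θ e = 1 := by
    intro x hx
    have h1 : ∃ Θ ∈ S, Θ x = 0 ∧ Θ e ≠ 0 := by
      by_contra hno
      refine hx fun Θ hΘ h0 => ?_
      by_contra hne
      exact hno ⟨Θ, hΘ, h0, hne⟩
    obtain ⟨Θ, hΘ, h0, hne⟩ := h1
    obtain ⟨Θ', hΘ', h2⟩ := hinv Θ hΘ e hne
    refine ⟨Θ' * Θ, S.mul_mem hΘ' hΘ, ?_, ?_⟩
    · rw [Pi.mul_apply, h0, mul_zero]
    · rw [Pi.mul_apply, h2]
  -- the separating functions
  have hsep2 : ∀ x, ∃ Θ ∈ S, (¬ Rl x → Θ x = 0) ∧ Θ e = 1 := by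
    intro x
    by_cases hx : Rl x
    · exact ⟨1, S.one_mem, fun h => absurd hx h, rfl⟩
    · obtain ⟨Θ, hΘ, h0, h1⟩ := hsep x hx
      exact ⟨Θ, hΘ, fun _ => h0, h1⟩
  choose th hthS hth0 hth1 using hsep2
  let ω : G → E := ∏ x, th x
  have hωS : ω ∈ S := S.prod_mem fun x _ => hthS x
  have hωe : ω e = 1 := by
    change (∏ x, th x) e = 1
    rw [Finset.prod_apply]
    exact Finset.prod_eq_one fun x _ => hth1 x
  have hω : ∀ x, ω x = if Rl x then 1 else 0 := by
    intro x
    split_ifs with hx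
    · have h1 := hRl' x hx (ω - 1) (S.sub_mem hωS S.one_mem) (by
        rw [Pi.sub_apply, hωe, Pi.one_apply, sub_self])
      rw [Pi.sub_apply, Pi.one_apply, sub_eq_zero] at h1
      exact h1
    · change (∏ y, th y) x = 0
      rw [Finset.prod_apply]
      exact Finset.prod_eq_zero (Finset.mem_univ x) (hth0 x hx)
  obtain ⟨w, hw⟩ := (hSmem ω).1 hωS
  -- integrality of the values
  have hbint : ∀ m x, IsIntegral κ[X] (b m x) := by
    intro m x
    have h1 : (1 : E) ∈ Submodule.span κ[X] (Set.range fun l => b l x) := by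
      rw [Submodule.mem_span_range_iff_exists_fun]
      refine ⟨ν, ?_⟩
      rw [← hone x]
      exact Finset.sum_congr rfl fun l _ => Algebra.smul_def _ _
    have h2 : ∀ i j, b i x * b j x ∈ Submodule.span κ[X] (Set.range fun l => b l x) := by
      intro i j
      rw [Submodule.mem_span_range_iff_exists_fun]
      refine ⟨μ i j, ?_⟩
      rw [hmul]
      exact Finset.sum_congr rfl fun l _ => Algebra.smul_def _ _
    refine IsIntegral.of_mem_of_fg (E1_sub (fun l => b l x) h1 h2) (E1_sub_fg _ h1 h2) _ ?_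
    exact Submodule.subset_span ⟨m, rfl⟩
  -- the coefficients
  let r : G → K := fun m => ∑ l, w l * algebraMap κ[X] K (T l m)
  have hr : ∀ m, algebraMap K E (r m) = ∑ x, ω x * b m x := by
    intro m
    have h1 : ∑ x, ω x * b m x = ∑ l, w l • algebraMap κ[X] E (T l m) := by
      calc ∑ x, ω x * b m x = ∑ x, ∑ l, w l • (b l x * b m x) := by
            refine Finset.sum_congr rfl fun x _ => ?_
            rw [hw x, Finset.sum_mul]
            exact Finset.sum_congr rfl fun l _ => smul_mul_assoc _ _ _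
        _ = ∑ l, ∑ x, w l • (b l x * b m x) := Finset.sum_comm
        _ = ∑ l, w l • algebraMap κ[X] E (T l m) := by
            refine Finset.sum_congr rfl fun l _ => ?_
            rw [← Finset.smul_sum, htr]
    rw [h1, map_sum]
    refine Finset.sum_congr rfl fun l _ => ?_
    rw [map_mul, Algebra.smul_def, ← IsScalarTower.algebraMap_apply]
  have hrint : ∀ m, ∃ s : κ[X], algebraMap κ[X] K s = r m := by
    intro m
    rw [← IsIntegrallyClosed.isIntegral_iff (R := κ[X]) (K := K)]
    have h1 : IsIntegral κ[X] (algebraMap K E (r m)) := by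
      rw [hr m]
      refine IsIntegral.sum _ fun x _ => ?_
      rw [hω x]
      split_ifs
      · rw [one_mul]; exact hbint m x
      · rw [zero_mul]; exact isIntegral_zero
    exact (isIntegral_algebraMap_iff (algebraMap K E).injective).1 h1
  choose s hs using hrint
  have hw' : ∀ n, w n = algebraMap κ[X] K (∑ m, s m * T' m n) := by
    intro n
    rw [map_sum]
    calc w n = ∑ l, w l * (if l = n then 1 else 0) := by
          rw [Finset.sum_eq_single n]
          · rw [if_pos rfl, mul_one]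
          · intro l _ hl
            rw [if_neg hl, mul_zero]
          · intro hn
            exact absurd (Finset.mem_univ n) hn
      _ = ∑ l, w l * algebraMap κ[X] K (∑ m, T l m * T' m n) := by
          refine Finset.sum_congr rfl fun l _ => ?_
          rw [hTT' l n]
          split_ifs <;> simp
      _ = ∑ l, ∑ m, w l * (algebraMap κ[X] K (T l m) * algebraMap κ[X] K (T' m n)) := by
          refine Finset.sum_congr rfl fun l _ => ?_
          rw [map_sum, Finset.mul_sum]
          exact Finset.sum_congr rfl fun m _ => by rw [map_mul]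
      _ = ∑ m, ∑ l, w l * (algebraMap κ[X] K (T l m) * algebraMap κ[X] K (T' m n)) :=
          Finset.sum_comm
      _ = ∑ m, algebraMap κ[X] K (s m * T' m n) := by
          refine Finset.sum_congr rfl fun m _ => ?_
          rw [map_mul, hs m]
          change _ = (∑ l, w l * algebraMap κ[X] K (T l m)) * _
          rw [Finset.sum_mul]
          exact Finset.sum_congr rfl fun l _ => (mul_assoc _ _ _).symm
  have hfin := hc (fun n => ∑ m, s m * T' m n) (fun x => if Rl x then 1 else 0) (by
    intro x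
    calc ∑ l, algebraMap κ[X] E (∑ m, s m * T' m l) * b l x = ω x := by
          rw [hw x]
          exact Finset.sum_congr rfl fun l _ => by rw [hsm, ← hw' l]
      _ = algebraMap κ[X] E (C (if Rl x then (1 : κ) else 0)) := by
          rw [hω x]
          split_ifs <;> simp)
  have hRe : Rl e := fun Θ _ h0 => h0
  have hRh : Rl h := by
    by_contra hno
    rw [if_neg hno, if_pos hRe] at hfin
    exact zero_ne_one hfin
  have hlast := hRl' h hRh (fun x => ∑ l, algebraMap κ[X] E (f l) * b l x)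
    ((hSmem _).2 ⟨fun l => algebraMap κ[X] K (f l), fun x =>
      Finset.sum_congr rfl fun l _ => hsm _ _⟩) hf
  exact hlast


private theorem E1_core2 {κ E G : Type} [Field κ] [Field E] [Fintype G] (z : κ[X] →+* E)
    (hz : Function.Injective z) (b : G → G → E) (μ : G → G → G → κ[X]) (ν : G → κ[X])
    (T T' : G → G → κ[X])
    (hmul : ∀ i j x, b i x * b j x = ∑ l, z (μ i j l) * b l x)
    (hone : ∀ x, ∑ l, z (ν l) * b l x = 1)
    (htr : ∀ i j, ∑ x, b i x * b j x = z (T i j))
    (hTT' : ∀ (i j : G) [Decidable (i = j)], ∑ m, T i m * T' m j = if i = j then 1 else 0)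
    (e h : G)
    (hc : ∀ (f : G → κ[X]) (c : G → κ),
      (∀ x, ∑ l, z (f l) * b l x = z (C (c x))) → c h = c e)
    (f : G → κ[X]) (hf : ∑ l, z (f l) * b l e = 0) :
    ∑ l, z (f l) * b l h = 0 := by
  let i1 : Algebra κ[X] E := z.toAlgebra
  let i2 : Algebra (FractionRing κ[X]) E :=
    (IsFractionRing.lift (A := κ[X]) (K := FractionRing κ[X]) hz).toAlgebra
  have i3 : IsScalarTower κ[X] (FractionRing κ[X]) E := IsScalarTower.of_algebraMap_eq
    fun x => (IsFractionRing.lift_algebraMap hz x).symm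
  exact E1_core (K := FractionRing κ[X]) b μ ν T T' hmul hone htr hTT' e h hc f hf

/-!
# Task E1: locally constant elements detect components

Proof.  Suppose `∑_l ze (f l) b l 1 = 0`; we want the same at `h ∈ H`.
`E := EE p F` is a field (`irreducible_asPoly`, `AdjoinRoot.instField`).  Let `K₀ ⊆ E` be the subfield
of fractions `ze u / ze v`.  Let `S_K` be the `K₀`-span of the functions `B_l : x ↦ b l x` in `G → E`:
a commutative `K₀`-subalgebra (`hmul`, `hone`), finite dimensional over `K₀`, hence artinian and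
reduced.  For `x : G` let `𝔪_x := {Θ ∈ S_K | Θ x = 0}`: the kernel of the evaluation at `x`, whose image is a
finite dimensional `K₀`-subalgebra of the field `E`, hence a field; so `𝔪_x` is maximal.
By the Chinese remainder theorem (distinct maximal ideals are coprime) there is `ω ∈ S_K` with
`ω x = 1` if `𝔪_x = 𝔪_1` and `ω x = 0` otherwise.  (Concretely: for every `x` with `𝔪_x ≠ 𝔪_1` there is
`θ_x ∈ S_K` with `θ_x x = 0` and `θ_x 1 = 1` (maximality of `𝔪_x`, `𝔪_x ⊄ 𝔪_1`, and divide in the field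
`S_K/𝔪_1`); then `θ := ∏ θ_x` has `θ 1 = 1`, and vanishes at all `x` with `𝔪_x ≠ 𝔪_1`; moreover
`θ x = 1` when `𝔪_x = 𝔪_1` since `θ - 1 ∈ 𝔪_1`.)
Write `ω = ∑_l w_l B_l`, `w_l ∈ K₀`.  For each `m`, `t_m := ∑_{x : 𝔪_x = 𝔪_1} b m x = ∑_x ω x * b m x
 = ∑_l w_l ze (T l m) ∈ K₀`, and `t_m` is integral over `κ[X]` (via `ze`), because every `b m x` is:
the `κ[X]`-module `∑_l ze(κ[X]) b l x` is finitely generated, contains `1` and is stable under
multiplication (`hmul`, `hone`).  `κ[X]` is integrally closed, so `t_m = ze (s_m)`, and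
`w_n = ∑_m t_m ze (T' m n) = ze (f' n)` (`WD.TT'`).  Thus `∑_l ze (f' l) b l x = ze (C (c x))` with
`c x = 1` if `𝔪_x = 𝔪_1`, else `0`.  `hD`: `c h = c 1 = 1` for `h ∈ H`, i.e. `𝔪_h = 𝔪_1`.
As `∑_l ze (f l) B_l ∈ 𝔪_1 = 𝔪_h`, done.
-/
theorem conn_of_conn' {p : ℕ} [hp : Fact p.Prime] {κ : Type} [Field κ] [CharP κ p] {G : Type}
    [Group G] [Fintype G] {g : G} {F : κ[X]} (D : WD p κ G g F) (hF : ¬ p ∣ F.natDegree)
    (H : Subgroup G) (hD : D.Conn' H) : D.Conn H := by
  have hirr : Fact (Irreducible (asPoly p F)) := ⟨irreducible_asPoly hF⟩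
  intro h hh f hf
  exact E1_core2 (ze p F) ze_injective D.b D.μ D.ν D.T D.T' D.hmul D.hone D.htr
    (fun i j _ => D.TT' i j) 1 h (fun f' c hc => hD h hh f' c hc) f hf

end

end Pool.Agent.MP_1c8e06_ag.AI
end

section

set_option autoImplicit false

open Polynomial

namespace Pool.Agent.MP_1c8e06_ag.AI

noncomputable section

/-!
# Task E0b: the Newton step for the values `b c 1`

Proof.  Put `β c := D.b c 1`, `ε c := y c - β c`, `u j := ∑_l ze (T' j l) * β l`.
By `WD.dual_right` (with `x' = 1`) and symmetry of `T'` : `∑_j b j x * u j = if x = 1 then 1 else 0`.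
(★) `∑_j u j * ze (μ j c m) = u m * β c` for all `m`: both sides `w m` satisfy
`∑_m w m * b m x = δ_{x,1} β c` for all `x` (left: `∑_m ze(μ j c m) b m x = b j x * b c x`), and
`coord_unique'` (with `j = RingHom.id`).
Hence, with `e j c := ∑_m ze (μ j c m) y m - y j y c
 = ∑_m ze (μ j c m) ε m - β j ε c - ε j β c - ε j ε c` (the `β`-terms cancel by `hmul` at `x = 1`):
`∑_j u j e j c = ∑_m u m β c ε m - (∑_j u j β j) ε c - ∑_j u j ε j β c - ∑_j u j ε j ε c
 = - ε c - ε c ∑_j u j ε j` (as `∑_j u j β j = 1`).  Therefore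
`newt D y c - β c = - ε c ∑_j u j ε j + ∑_j (∑_l ze (T' j l) ε l) * e j c`,
each term containing at least two factors `ε`.  Choose `K₀ ≥ 0` with all of
`β c, u c, ze (T' j l), ze (μ j c m)` in `Fil (-K₀)` (`Fil.exists`, finitely many, `Fil.mono`), and
`K := 3 K₀`.  If `N ≥ K ≥ 0`, all terms are in `Fil (2 N - K)` (`Fil.mul`, `Fil.sum`; terms with three
`ε` are in `Fil (3 N - K₀)`).
-/

/-- The Newton step. -/
def newt {p : ℕ} [Fact p.Prime] {R : Type} [CommRing R] [CharP R p] {G : Type} [Group G]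
    [Fintype G] {g : G} {F : R[X]} (D : WD p R G g F) (y : G → EE p F) (c : G) : EE p F :=
  y c + ∑ j, (∑ l, ze p F (D.T' j l) * y l) * (∑ m, ze p F (D.μ j c m) * y m - y j * y c)

private theorem E0b_bd {p : ℕ} [hp : Fact p.Prime] {R : Type} [CommRing R] [Nontrivial R]
    {F : R[X]} {ι : Type} [Finite ι] (f : ι → EE p F) :
    ∃ K : ℤ, 0 ≤ K ∧ ∀ i, Fil p F (-K) (f i) := by
  choose N hN using fun i => Fil.exists (f i)
  obtain ⟨M, hM⟩ := Finite.exists_le (fun i => -N i)
  refine ⟨max M 0, le_max_right _ _, fun i => (hN i).mono ?_⟩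
  have h1 := hM i
  have h2 := le_max_left M 0
  omega

private theorem E0b_alg {A G : Type} [CommRing A] [Fintype G] (u β ε : G → A) (t : G → G → A)
    (μ : G → G → G → A) (c : G) (hu : ∀ j, u j = ∑ l, t j l * β l)
    (h1 : ∑ j, u j * β j = 1) (hm : ∀ j, β j * β c = ∑ m, μ j c m * β m)
    (hs : ∀ m, ∑ j, u j * μ j c m = u m * β c) :
    (β c + ε c) + ∑ j, (∑ l, t j l * (β l + ε l)) *
        (∑ m, μ j c m * (β m + ε m) - (β j + ε j) * (β c + ε c)) - β c =
      -((∑ j, u j * ε j) * ε c) + ∑ j, (∑ l, t j l * ε l) *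
        (∑ m, μ j c m * ε m - β j * ε c - ε j * β c - ε j * ε c) := by
  have e1 : ∀ j, ∑ m, μ j c m * (β m + ε m) - (β j + ε j) * (β c + ε c) =
      ∑ m, μ j c m * ε m - β j * ε c - ε j * β c - ε j * ε c := by
    intro j
    have : ∑ m, μ j c m * (β m + ε m) = ∑ m, μ j c m * β m + ∑ m, μ j c m * ε m := by
      rw [← Finset.sum_add_distrib]
      exact Finset.sum_congr rfl fun m _ => mul_add _ _ _
    rw [this, ← hm j]
    ring
  have e2 : ∀ j, ∑ l, t j l * (β l + ε l) = u j + ∑ l, t j l * ε l := by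
    intro j
    rw [hu j, ← Finset.sum_add_distrib]
    exact Finset.sum_congr rfl fun m _ => mul_add _ _ _
  have e3 : ∑ j, (∑ l, t j l * (β l + ε l)) *
        (∑ m, μ j c m * (β m + ε m) - (β j + ε j) * (β c + ε c)) =
      ∑ j, u j * (∑ m, μ j c m * ε m - β j * ε c - ε j * β c - ε j * ε c) +
      ∑ j, (∑ l, t j l * ε l) *
        (∑ m, μ j c m * ε m - β j * ε c - ε j * β c - ε j * ε c) := by
    rw [← Finset.sum_add_distrib]
    refine Finset.sum_congr rfl fun j _ => ?_
    rw [e1, e2, add_mul]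
  have e4 : ∑ j, u j * ∑ m, μ j c m * ε m = (∑ m, u m * ε m) * β c := by
    simp_rw [Finset.mul_sum]
    rw [Finset.sum_comm, Finset.sum_mul]
    refine Finset.sum_congr rfl fun m _ => ?_
    calc ∑ j, u j * (μ j c m * ε m) = (∑ j, u j * μ j c m) * ε m := by
          rw [Finset.sum_mul]
          exact Finset.sum_congr rfl fun j _ => by ring
      _ = u m * ε m * β c := by rw [hs m]; ring
  have e5 : ∑ j, u j * (∑ m, μ j c m * ε m - β j * ε c - ε j * β c - ε j * ε c) =
      ∑ j, u j * ∑ m, μ j c m * ε m - (∑ j, u j * β j) * ε c - (∑ j, u j * ε j) * β c -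
        (∑ j, u j * ε j) * ε c := by
    rw [Finset.sum_mul, Finset.sum_mul, Finset.sum_mul, ← Finset.sum_sub_distrib,
      ← Finset.sum_sub_distrib, ← Finset.sum_sub_distrib]
    refine Finset.sum_congr rfl fun j _ => ?_
    ring
  rw [e3, e5, e4, h1]
  ring

theorem newton {p : ℕ} [hp : Fact p.Prime] {R : Type} [CommRing R] [Nontrivial R] [CharP R p]
    {G : Type} [Group G] [Fintype G] {g : G} {F : R[X]} (D : WD p R G g F) :
    ∃ K : ℤ, 0 ≤ K ∧ ∀ (N : ℤ), K ≤ N → ∀ y : G → EE p F,
      (∀ c, Fil p F N (y c - D.b c 1)) → ∀ c, Fil p F (2 * N - K) (newt D y c - D.b c 1) := by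
  classical
  obtain ⟨u, hu⟩ : ∃ u : G → EE p F, ∀ j, u j = ∑ l, ze p F (D.T' j l) * D.b l 1 :=
    ⟨_, fun _ => rfl⟩
  have hdr : ∀ x, ∑ j, D.b j x * u j = if x = 1 then 1 else 0 := by
    intro x
    rw [← D.dual_right x 1]
    exact Finset.sum_congr rfl fun j _ => by rw [hu j]
  have h1 : ∑ j, u j * D.b j 1 = 1 := by
    have := hdr 1
    rw [if_pos rfl] at this
    rw [← this]
    exact Finset.sum_congr rfl fun j _ => mul_comm _ _
  have hstar : ∀ c m, ∑ j, u j * ze p F (D.μ j c m) = u m * D.b c 1 := by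
    intro c
    have h0 : (fun m => ∑ j, u j * ze p F (D.μ j c m) - u m * D.b c 1) = 0 := by
      refine D.coord_unique' (RingHom.id _) _ fun x => ?_
      simp only [RingHom.id_apply]
      have a1 : ∑ m, (∑ j, u j * ze p F (D.μ j c m)) * D.b m x =
          (∑ j, D.b j x * u j) * D.b c x := by
        simp_rw [Finset.sum_mul]
        rw [Finset.sum_comm]
        refine Finset.sum_congr rfl fun j _ => ?_
        calc ∑ m, u j * ze p F (D.μ j c m) * D.b m x =
              u j * ∑ m, ze p F (D.μ j c m) * D.b m x := by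
              rw [Finset.mul_sum]
              exact Finset.sum_congr rfl fun m _ => by ring
          _ = D.b j x * u j * D.b c x := by rw [← D.hmul]; ring
      have a2 : ∑ m, (u m * D.b c 1) * D.b m x = (∑ j, D.b j x * u j) * D.b c 1 := by
        rw [Finset.sum_mul]
        exact Finset.sum_congr rfl fun m _ => by ring
      simp_rw [sub_mul]
      rw [Finset.sum_sub_distrib, a1, a2, hdr x]
      split_ifs with hx
      · rw [hx, sub_self]
      · rw [zero_mul, zero_mul, sub_self]
    intro m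
    have := congrFun h0 m
    exact sub_eq_zero.1 this
  obtain ⟨K1, hK1, hb1⟩ := E0b_bd (fun c : G => D.b c 1)
  obtain ⟨K2, hK2, hb2⟩ := E0b_bd u
  obtain ⟨K3, hK3, hb3⟩ := E0b_bd (fun q : G × G => ze p F (D.T' q.1 q.2))
  obtain ⟨K4, hK4, hb4⟩ := E0b_bd (fun q : G × G × G => ze p F (D.μ q.1 q.2.1 q.2.2))
  obtain ⟨K, hK⟩ : ∃ K : ℤ, K = K1 + K2 + K3 + K4 := ⟨_, rfl⟩
  have k1 : ∀ c, Fil p F (-K) (D.b c 1) := fun c => (hb1 c).mono (by omega)
  have k2 : ∀ c, Fil p F (-K) (u c) := fun c => (hb2 c).mono (by omega)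
  have k3 : ∀ i j, Fil p F (-K) (ze p F (D.T' i j)) := fun i j => (hb3 (i, j)).mono (by omega)
  have k4 : ∀ i j l, Fil p F (-K) (ze p F (D.μ i j l)) :=
    fun i j l => (hb4 (i, j, l)).mono (by omega)
  refine ⟨3 * K, by omega, ?_⟩
  intro N hN y hy c
  obtain ⟨ε, hε⟩ : ∃ ε : G → EE p F, ∀ c, ε c = y c - D.b c 1 := ⟨_, fun _ => rfl⟩
  have hy' : ∀ c, y c = D.b c 1 + ε c := fun c => by rw [hε]; ring
  have hFε : ∀ c, Fil p F N (ε c) := fun c => by rw [hε]; exact hy c
  have key := E0b_alg u (fun c => D.b c 1) ε (fun i j => ze p F (D.T' i j))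
    (fun i j l => ze p F (D.μ i j l)) c hu h1 (fun j => D.hmul j c 1) (fun m => hstar c m)
  have e0 : newt D y c - D.b c 1 = -((∑ j, u j * ε j) * ε c) +
      ∑ j, (∑ l, ze p F (D.T' j l) * ε l) * (∑ m, ze p F (D.μ j c m) * ε m -
        D.b j 1 * ε c - ε j * D.b c 1 - ε j * ε c) := by
    rw [← key, newt]
    simp only [hy']
  rw [e0]
  have f1 : Fil p F (2 * N - 3 * K) (-((∑ j, u j * ε j) * ε c)) := by
    refine Fil.neg ?_
    refine Fil.mono (Fil.mul (N := -K + N) (M := N) (Fil.sum _ fun j _ => ?_) (hFε c)) (by omega)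
    exact Fil.mul (k2 j) (hFε j)
  refine Fil.add f1 (Fil.sum _ fun j _ => ?_)
  refine Fil.mono (Fil.mul (N := -K + N) (M := -K + N) (Fil.sum _ fun l _ => ?_) ?_) (by omega)
  · exact Fil.mul (k3 j l) (hFε l)
  · refine Fil.sub (Fil.sub (Fil.sub (Fil.sum _ fun m _ => ?_) ?_) ?_) ?_
    · exact Fil.mul (k4 j c m) (hFε m)
    · exact Fil.mul (k1 j) (hFε c)
    · exact Fil.mono (Fil.mul (hFε j) (k1 c)) (by omega)
    · exact Fil.mono (Fil.mul (hFε j) (hFε c)) (by omega)

end

end Pool.Agent.MP_1c8e06_ag.AI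
end
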