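import Pool.Agent.Lib.MP_1c8e06_ag.AI.Defs3
import Pool.Agent.Lib.MP_1c8e06_ag.Mg.G098

section

set_option autoImplicit false

open Polynomial

namespace Pool.Agent.MP_1c8e06_ag.AI

noncomputable section

/-!
# Task PB1: `h`-adic expansion of polynomials, transposed

Proof.  Strong induction on `f.natDegree`.  If `f.natDegree < m` take `c i = C (f.coeff i)`.
Otherwise divide by `h` (a nonzero polynomial over a field): `f = h * q + r` with
`deg r < m`, `deg q < deg f`; `q = ∑_i X^i * (d i).comp h` gives
`f = ∑_i X^i * (X * d i + C (r.coeff i)).comp h`.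
-/
theorem exists_expansion {κ : Type} [Field κ] (h : κ[X]) (hm : 0 < h.natDegree) (f : κ[X]) :
    ∃ c : Fin h.natDegree → κ[X], f = ∑ i : Fin h.natDegree, X ^ (i : ℕ) * (c i).comp h := by
  have key : ∀ N : ℕ, ∀ f : κ[X], f.natDegree < N →
      ∃ c : Fin h.natDegree → κ[X],
        f = ∑ i : Fin h.natDegree, X ^ (i : ℕ) * (c i).comp h := by
    intro N
    induction N with
    | zero => intro f hf; omega
    | succ N ih =>
      intro f hf
      have small : ∀ r : κ[X], r.natDegree < h.natDegree →
          r = ∑ i : Fin h.natDegree, X ^ (i : ℕ) * (C (r.coeff i)).comp h := by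
        intro r hr
        have h1 := r.as_sum_range' h.natDegree hr
        rw [Fin.sum_univ_eq_sum_range (fun i => X ^ i * (C (r.coeff i)).comp h)]
        refine h1.trans (Finset.sum_congr rfl fun i _ => ?_)
        rw [C_comp, ← C_mul_X_pow_eq_monomial, mul_comm]
      rcases lt_or_ge f.natDegree h.natDegree with hlt | hge
      · exact ⟨_, small f hlt⟩
      · have hh0 : h ≠ 0 := by
          rintro rfl
          simp at hm
        have hr : (f % h).natDegree < h.natDegree := natDegree_mod_lt f hm.ne'
        have hq : (f / h).natDegree < N := by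
          have hf0 : f ≠ 0 := by
            rintro rfl
            simp at hge
            omega
          have h2 : (f / h).degree < f.degree :=
            degree_div_lt hf0 (natDegree_pos_iff_degree_pos.1 hm)
          have h3 : (f / h).natDegree < f.natDegree := by
            rcases eq_or_ne (f / h) 0 with h0 | h0
            · rw [h0, natDegree_zero]
              omega
            · exact natDegree_lt_natDegree h0 h2
          omega
        obtain ⟨d, hd⟩ := ih (f / h) hq
        refine ⟨fun i => X * d i + C ((f % h).coeff i), ?_⟩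
        have e : f = h * (f / h) + f % h := (EuclideanDomain.div_add_mod f h).symm
        calc f = h * (f / h) + f % h := e
          _ = h * (∑ i : Fin h.natDegree, X ^ (i : ℕ) * (d i).comp h) +
              ∑ i : Fin h.natDegree, X ^ (i : ℕ) * (C ((f % h).coeff i)).comp h := by
              rw [← hd, ← small _ hr]
          _ = _ := by
              rw [Finset.mul_sum, ← Finset.sum_add_distrib]
              refine Finset.sum_congr rfl fun i _ => ?_
              rw [add_comp, mul_comp, X_comp]
              ring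
  exact key (f.natDegree + 1) f (Nat.lt_succ_self _)

end

end Pool.Agent.MP_1c8e06_ag.AI
end

section

set_option autoImplicit false

open Polynomial

namespace Pool.Agent.MP_1c8e06_ag.AI

noncomputable section

/-!
# Task E0a: elements with coefficients in a subring

Proof.  Coordinates (`AI/A0.lean`).  Products of Laurent series with coefficients in `R` have
coefficients in `R` (`HahnSeries.coeff_mul`, `Subring.sum_mem`).  Multiplication by `yy`: if
`a = ∑_{j<p} a_j y^j` then `y a = ∑_{j<p-1} a_j y^(j+1) + a_(p-1) (y + F(s⁻¹))`; hence `CoefIn` is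
stable under multiplication by `yy`, then by every element of `CoefIn` (`eq_sum_coordE`).
`lift`: let `F = F₀.map R.subtype`; given `a` with coefficients in `R`, lift each `coordE a j` to a
Laurent series over `R` (support bounded below) and put `∑_{j<p} ofL (_) * yy^j`; use `mapE_ofL`,
`mapE_yy`, `eq_sum_coordE`.
-/

section
variable {p : ℕ} [hp : Fact p.Prime] {κ : Type} [Field κ] {F : κ[X]} {R : Subring κ}

theorem CoefIn.zero : CoefIn R (0 : EE p F) := by
  intro j i
  rw [coordE_zero, HahnSeries.coeff_zero]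
  exact R.zero_mem

theorem CoefIn.one : CoefIn R (1 : EE p F) := by
  intro j i
  have h1 : (1 : EE p F) = ofL p F 1 := (map_one _).symm
  rw [h1, coordE_ofL]
  split_ifs
  · rw [HahnSeries.coeff_one]
    split_ifs
    · exact R.one_mem
    · exact R.zero_mem
  · rw [HahnSeries.coeff_zero]
    exact R.zero_mem

theorem CoefIn.add {a b : EE p F} (ha : CoefIn R a) (hb : CoefIn R b) : CoefIn R (a + b) := by
  intro j i
  rw [coordE_add, HahnSeries.coeff_add]
  exact R.add_mem (ha j i) (hb j i)

theorem CoefIn.sub {a b : EE p F} (ha : CoefIn R a) (hb : CoefIn R b) : CoefIn R (a - b) := by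
  intro j i
  rw [coordE_sub, HahnSeries.coeff_sub]
  exact R.sub_mem (ha j i) (hb j i)

theorem CoefIn.sum {ι : Type} (s : Finset ι) {f : ι → EE p F} (h : ∀ i ∈ s, CoefIn R (f i)) :
    CoefIn R (∑ i ∈ s, f i) := by
  intro j i
  rw [coordE_sum, HahnSeries.coeff_sum]
  exact R.sum_mem fun k hk => h k hk j i

theorem CoefIn.ze {f : κ[X]} (h : ∀ n, f.coeff n ∈ R) : CoefIn R (ze p F f) := by
  intro j i
  rw [ze_apply, coordE_ofL]
  split_ifs
  · rw [zinv_coeff]
    split_ifs
    · exact h _
    · exact R.zero_mem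
  · rw [HahnSeries.coeff_zero]
    exact R.zero_mem

private theorem E0a_mulL {c d : LaurentSeries κ} (hc : ∀ i, c.coeff i ∈ R)
    (hd : ∀ i, d.coeff i ∈ R) (i : ℤ) : (c * d).coeff i ∈ R := by
  rw [HahnSeries.coeff_mul]
  exact R.sum_mem fun k _ => R.mul_mem (hc _) (hd _)

private theorem E0a_ofL_mul {c : LaurentSeries κ} (hc : ∀ i, c.coeff i ∈ R) {b : EE p F}
    (hb : CoefIn R b) : CoefIn R (ofL p F c * b) := by
  intro j i
  rw [coordE_ofL_mul]
  exact E0a_mulL hc (hb j) i

private theorem E0a_yy_pow_lt {n : ℕ} (hn : n < p) : CoefIn R (yy p F ^ n) := by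
  intro j i
  by_cases hj : j < p
  · have h := coordE_sum_yy (p := p) (F := F) (fun i => if i = n then (1 : LaurentSeries κ) else 0) hj
    rw [Finset.sum_eq_single n] at h
    · rw [if_pos rfl, map_one, one_mul] at h
      rw [h]
      split_ifs
      · rw [HahnSeries.coeff_one]
        split_ifs
        · exact R.one_mem
        · exact R.zero_mem
      · rw [HahnSeries.coeff_zero]
        exact R.zero_mem
    · intro k _ hk
      rw [if_neg hk, map_zero, zero_mul]
    · intro h1
      exact absurd (Finset.mem_range.2 hn) h1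
  · rw [coordE_of_le _ (not_lt.1 hj), HahnSeries.coeff_zero]
    exact R.zero_mem

private theorem E0a_yy_mul (hF : ∀ n, F.coeff n ∈ R) {a : EE p F} (ha : CoefIn R a) :
    CoefIn R (yy p F * a) := by
  have h2 := hp.out.two_le
  rw [eq_sum_coordE a, Finset.mul_sum]
  refine CoefIn.sum _ fun j hj => ?_
  have e : yy p F * (ofL p F (coordE p F a j) * yy p F ^ j) =
      ofL p F (coordE p F a j) * yy p F ^ (j + 1) := by ring
  rw [e]
  refine E0a_ofL_mul (ha j) ?_
  rw [Finset.mem_range] at hj
  by_cases hj1 : j + 1 < p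
  · exact E0a_yy_pow_lt hj1
  · have : j + 1 = p := by omega
    rw [this, yy_pow_eq]
    refine CoefIn.add ?_ (CoefIn.ze hF)
    have h3 := E0a_yy_pow_lt (R := R) (F := F) (n := 1) (by omega : 1 < p)
    rwa [pow_one] at h3

private theorem E0a_yy_pow_mul (hF : ∀ n, F.coeff n ∈ R) {a : EE p F} (ha : CoefIn R a) (n : ℕ) :
    CoefIn R (yy p F ^ n * a) := by
  induction n with
  | zero => rwa [pow_zero, one_mul]
  | succ n ih =>
    rw [pow_succ', mul_assoc]
    exact E0a_yy_mul hF ih

theorem CoefIn.mul (hF : ∀ n, F.coeff n ∈ R) {a b : EE p F} (ha : CoefIn R a)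
    (hb : CoefIn R b) : CoefIn R (a * b) := by
  rw [eq_sum_coordE a, Finset.sum_mul]
  refine CoefIn.sum _ fun j _ => ?_
  rw [mul_assoc]
  exact E0a_ofL_mul (ha j) (E0a_yy_pow_mul hF hb j)

end

theorem exists_lift {p : ℕ} [hp : Fact p.Prime] {κ : Type} [Field κ] (R : Subring κ) (F₀ : R[X])
    (a : EE p (F₀.map R.subtype)) (ha : CoefIn R a) :
    ∃ a₀ : EE p F₀, mapE p R.subtype F₀ a₀ = a := by
  let c : ℕ → LaurentSeries R := fun j =>
    { coeff := fun i => ⟨(coordE p _ a j).coeff i, ha j i⟩
      isPWO_support' := by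
        refine (coordE p _ a j).isPWO_support'.mono ?_
        intro i hi h0
        apply hi
        exact Subtype.ext h0 }
  refine ⟨∑ j ∈ Finset.range p, ofL p F₀ (c j) * yy p F₀ ^ j, ?_⟩
  rw [map_sum, eq_sum_coordE a]
  refine Finset.sum_congr rfl fun j _ => ?_
  have hj : mapL R.subtype (c j) = coordE p _ a j := by
    ext i
    rfl
  rw [map_mul, map_pow, mapE_ofL, mapE_yy, hj]

end

end Pool.Agent.MP_1c8e06_ag.AI
end

section

set_option autoImplicit false

open Polynomial

namespace Pool.Agent.MP_1c8e06_ag.AI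

noncomputable section

/-!
# Task E0c: the values of the basis have coefficients in a finitely generated ring

Proof.  `K` from `newton`, `N₀ := K + 1`.  Let `S₀` be a finite set containing: all coefficients of
`F`, of all `μ i j l`, `T' i j`, `α h l m`; and all coefficients
`(coordE (b c 1) j).coeff i` (`c : G`, `j < p`) with `p i - j n < N₀`, `n = F.natDegree` (finitely many
nonzero ones, because Laurent series are bounded below; put also `0`).
Let `R ⊇ S₀`.  Claim by induction on `N ≥ N₀`: all coefficients of all `b c 1` of weight `< N`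
(i.e. `p i - j n < N`) are in `R`.  Step `N → N+1`: let `y c` be the truncation of `b c 1` to weights
`< N` : `y c := ∑_{j<p} ofL (trunc_j) * yy^j` where `trunc_j` is the Laurent series with the coefficients
`i` such that `p i - j n < N`.  Then `CoefIn R (y c)` and `Fil N (y c - b c 1)`.
`newt D y c` has coefficients in `R` (`CoefIn.*`), and `newt D y c - b c 1` is in
`Fil (2 N - K)`, `2 N - K ≥ N + 1`, so the coefficients of `b c 1` of weight `< N+1` agree with
those of `newt D y c`.
Finally `b l x = ∑_m ze (α x l m) * b m 1` (`hact` with `x := 1`).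
-/

/-- Truncation of a Laurent series to the exponents satisfying `P`. -/
private def E0c_tr {κ : Type} [Field κ] (P : ℤ → Prop) [DecidablePred P] (a : LaurentSeries κ) :
    LaurentSeries κ where
  coeff i := if P i then a.coeff i else 0
  isPWO_support' := a.isPWO_support.mono (by
    intro i hi
    rw [Function.mem_support] at hi
    rw [HahnSeries.mem_support]
    intro h0
    apply hi
    rw [h0, ite_self])

private theorem E0c_tr_coeff {κ : Type} [Field κ] (P : ℤ → Prop) [DecidablePred P]
    (a : LaurentSeries κ) (i : ℤ) : (E0c_tr P a).coeff i = if P i then a.coeff i else 0 := rfl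

private theorem E0c_range_finite {κ : Type} [Field κ] (f : κ[X]) : (Set.range f.coeff).Finite := by
  refine ((f.coeffs : Set κ).toFinite.union (Set.finite_singleton (0 : κ))).subset ?_
  rintro _ ⟨n, rfl⟩
  by_cases h : f.coeff n = 0
  · exact Or.inr h
  · exact Or.inl (Finset.mem_coe.2 (Polynomial.coeff_mem_coeffs h))

theorem exists_finite_coef {p : ℕ} [hp : Fact p.Prime] {κ : Type} [Field κ] [CharP κ p]
    {G : Type} [Group G] [Fintype G] {g : G} {F : κ[X]} (D : WD p κ G g F) :
    ∃ S₀ : Finset κ, ∀ R : Subring κ, (∀ c ∈ S₀, c ∈ R) → ∀ l x, CoefIn R (D.b l x) := by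
  classical
  obtain ⟨K, hK0, hK⟩ := newton D
  have hp0 : 0 < (p : ℤ) := by exact_mod_cast hp.out.pos
  -- the finite set
  let S1 : Set κ := Set.range F.coeff
  let S2 : Set κ := ⋃ (i : G) (j : G) (l : G), Set.range (D.μ i j l).coeff
  let S3 : Set κ := ⋃ (i : G) (j : G), Set.range (D.T' i j).coeff
  let S4 : Set κ := ⋃ (i : G) (j : G) (l : G), Set.range (D.α i j l).coeff
  let S5 : Set κ := ⋃ (c : G) (j : Fin p),
    (fun i : ℤ => (coordE p F (D.b c 1) j).coeff i) ''
      {i : ℤ | (p : ℤ) * i - ((j : ℕ) : ℤ) * (F.natDegree : ℤ) < K + 1}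
  have h5 : S5.Finite := by
    refine Set.finite_iUnion fun c => Set.finite_iUnion fun j => ?_
    have hfin : ((fun i : ℤ => (coordE p F (D.b c 1) j).coeff i) ''
        (Set.Icc ((coordE p F (D.b c 1) j).order) (K + 1 + ((j : ℕ) : ℤ) * (F.natDegree : ℤ)))).Finite :=
      (Set.finite_Icc _ _).image _
    refine (hfin.union (Set.finite_singleton (0 : κ))).subset ?_
    rintro _ ⟨i, hi, rfl⟩
    change (p : ℤ) * i - ((j : ℕ) : ℤ) * (F.natDegree : ℤ) < K + 1 at hi
    by_cases h : (coordE p F (D.b c 1) j).coeff i = 0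
    · exact Or.inr h
    · refine Or.inl ⟨i, ⟨?_, ?_⟩, rfl⟩
      · by_contra hlt
        exact h (HahnSeries.coeff_eq_zero_of_lt_order (not_le.1 hlt))
      · rcases le_or_gt i 0 with h0 | h0
        · have : 0 ≤ ((j : ℕ) : ℤ) * (F.natDegree : ℤ) := by positivity
          omega
        · have h1 : 1 * i ≤ (p : ℤ) * i := by
            apply mul_le_mul_of_nonneg_right _ h0.le
            omega
          omega
  have hS : (S1 ∪ S2 ∪ S3 ∪ S4 ∪ S5).Finite := by
    refine (((E0c_range_finite F).union ?_).union ?_).union ?_ |>.union h5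
    · exact Set.finite_iUnion fun i => Set.finite_iUnion fun j => Set.finite_iUnion fun l =>
        E0c_range_finite _
    · exact Set.finite_iUnion fun i => Set.finite_iUnion fun j => E0c_range_finite _
    · exact Set.finite_iUnion fun i => Set.finite_iUnion fun j => Set.finite_iUnion fun l =>
        E0c_range_finite _
  refine ⟨hS.toFinset, fun R hR => ?_⟩
  have hR' : ∀ a ∈ S1 ∪ S2 ∪ S3 ∪ S4 ∪ S5, a ∈ R := fun a ha => hR a (hS.mem_toFinset.2 ha)
  have hF : ∀ n, F.coeff n ∈ R := fun n =>
    hR' _ (Or.inl (Or.inl (Or.inl (Or.inl ⟨n, rfl⟩))))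
  have hμ : ∀ i j l n, (D.μ i j l).coeff n ∈ R := fun i j l n =>
    hR' _ (Or.inl (Or.inl (Or.inl (Or.inr (by
      simp only [S2, Set.mem_iUnion]
      exact ⟨i, j, l, n, rfl⟩)))))
  have hT' : ∀ i j n, (D.T' i j).coeff n ∈ R := fun i j n =>
    hR' _ (Or.inl (Or.inl (Or.inr (by
      simp only [S3, Set.mem_iUnion]
      exact ⟨i, j, n, rfl⟩))))
  have hα : ∀ i j l n, (D.α i j l).coeff n ∈ R := fun i j l n =>
    hR' _ (Or.inl (Or.inr (by
      simp only [S4, Set.mem_iUnion]
      exact ⟨i, j, l, n, rfl⟩)))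
  have hb : ∀ (c : G) (j : ℕ), j < p → ∀ i : ℤ,
      (p : ℤ) * i - (j : ℤ) * (F.natDegree : ℤ) < K + 1 → (coordE p F (D.b c 1) j).coeff i ∈ R :=
    fun c j hj i hi => hR' _ (Or.inr (by
      simp only [S5, Set.mem_iUnion]
      exact ⟨c, ⟨j, hj⟩, i, hi, rfl⟩))
  have key : ∀ (M : ℕ) (c : G) (j : ℕ), j < p → ∀ i : ℤ,
      (p : ℤ) * i - (j : ℤ) * (F.natDegree : ℤ) < K + 1 + M →
        (coordE p F (D.b c 1) j).coeff i ∈ R := by
    intro M
    induction M with
    | zero =>
      intro c j hj i hi
      exact hb c j hj i (by simpa using hi)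
    | succ M ih =>
      set N : ℤ := K + 1 + M with hN
      let y : G → EE p F := fun c => ∑ j ∈ Finset.range p,
        ofL p F (E0c_tr (fun i => (p : ℤ) * i - (j : ℤ) * (F.natDegree : ℤ) < N)
          (coordE p F (D.b c 1) j)) * yy p F ^ j
      have hyc : ∀ (c : G) (j : ℕ), j < p → coordE p F (y c) j =
          E0c_tr (fun i => (p : ℤ) * i - (j : ℤ) * (F.natDegree : ℤ) < N)
            (coordE p F (D.b c 1) j) := by
        intro c j hj
        exact coordE_sum_yy (fun j => E0c_tr
          (fun i => (p : ℤ) * i - (j : ℤ) * (F.natDegree : ℤ) < N) (coordE p F (D.b c 1) j)) hj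
      have hyR : ∀ c, CoefIn R (y c) := by
        intro c j i
        rcases lt_or_ge j p with hj | hj
        · rw [hyc c j hj, E0c_tr_coeff]
          split_ifs with h
          · exact ih c j hj i h
          · exact R.zero_mem
        · rw [coordE_of_le _ hj, HahnSeries.coeff_zero]
          exact R.zero_mem
      have hyF : ∀ c, Fil p F N (y c - D.b c 1) := by
        intro c j hj i hi
        rw [coordE_sub, HahnSeries.coeff_sub, hyc c j hj, E0c_tr_coeff, if_pos hi, sub_self]
      have hnR : ∀ c, CoefIn R (newt D y c) := by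
        intro c
        refine (hyR c).add (CoefIn.sum _ fun j _ => CoefIn.mul hF ?_ ?_)
        · exact CoefIn.sum _ fun l _ => CoefIn.mul hF (CoefIn.ze (hT' j l)) (hyR l)
        · exact (CoefIn.sum _ fun m _ => CoefIn.mul hF (CoefIn.ze (hμ j c m)) (hyR m)).sub
            (CoefIn.mul hF (hyR j) (hyR c))
      intro c j hj i hi
      have h1 := hK N (by omega) y hyF c j hj i (by push_cast at hi; omega)
      rw [coordE_sub, HahnSeries.coeff_sub, sub_eq_zero] at h1
      rw [← h1]
      exact hnR c j i
  have hb1 : ∀ c, CoefIn R (D.b c 1) := by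
    intro c j i
    rcases lt_or_ge j p with hj | hj
    · refine key ((p : ℤ) * i - (j : ℤ) * (F.natDegree : ℤ)).toNat c j hj i ?_
      omega
    · rw [coordE_of_le _ hj, HahnSeries.coeff_zero]
      exact R.zero_mem
  intro l x
  have h := D.hact x l 1
  rw [one_mul] at h
  rw [h]
  exact CoefIn.sum _ fun m _ => CoefIn.mul hF (CoefIn.ze (hα x l m)) (hb1 m)

end

end Pool.Agent.MP_1c8e06_ag.AI
end

section

set_option autoImplicit false

open Polynomial

namespace Pool.Agent.MP_1c8e06_ag.AI

noncomputable section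

/-!
# Task E4a: the data over a subring

Proof.  Lift every `D.b l x` with `exists_lift` (choose), every polynomial `μ, α, ν, T, T'` to `R[X]`
(coefficients in `R`: e.g. `Polynomial.toSubring`, or `Polynomial.lifts`/`mem_map_range`).  All
identities of `WD` hold after applying the injective homomorphism `mapE p R.subtype F₀`
(`mapE_injective`, `mapE_ze`, `mapE_tau`), hence they hold over `R`.
-/
theorem exists_WD_subring {p : ℕ} [hp : Fact p.Prime] {κ : Type} [Field κ] [CharP κ p]
    {G : Type} [Group G] [Fintype G] {g : G} (R : Subring κ) [CharP R p] (F₀ : R[X])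
    (D : WD p κ G g (F₀.map R.subtype)) (hb : ∀ l x, CoefIn R (D.b l x))
    (hμ : ∀ i j l n, (D.μ i j l).coeff n ∈ R) (hα : ∀ i j l n, (D.α i j l).coeff n ∈ R)
    (hν : ∀ l n, (D.ν l).coeff n ∈ R) (hT : ∀ i j n, (D.T i j).coeff n ∈ R)
    (hT' : ∀ i j n, (D.T' i j).coeff n ∈ R) :
    ∃ D₀ : WD p R G g F₀, (∀ l x, mapE p R.subtype F₀ (D₀.b l x) = D.b l x) ∧
      (∀ i j, (D₀.T' i j).map R.subtype = D.T' i j) := by
  classical
  have hlift : ∀ f : κ[X], (∀ n, f.coeff n ∈ R) → ∃ f₀ : R[X], f₀.map R.subtype = f := by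
    intro f hf
    have h1 : f ∈ Polynomial.lifts R.subtype := by
      rw [Polynomial.lifts_iff_coeff_lifts]
      intro n
      exact ⟨⟨f.coeff n, hf n⟩, rfl⟩
    exact (Polynomial.mem_lifts f).1 h1
  choose b₀ hb₀ using fun l x => exists_lift R F₀ (D.b l x) (hb l x)
  choose μ₀ hμ₀ using fun i j l => hlift (D.μ i j l) (hμ i j l)
  choose α₀ hα₀ using fun i j l => hlift (D.α i j l) (hα i j l)
  choose ν₀ hν₀ using fun l => hlift (D.ν l) (hν l)
  choose T₀ hT₀ using fun i j => hlift (D.T i j) (hT i j)
  choose T'₀ hT'₀ using fun i j => hlift (D.T' i j) (hT' i j)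
  have hinj : Function.Injective (mapE p R.subtype F₀) :=
    mapE_injective R.subtype R.subtype_injective
  refine ⟨⟨b₀, μ₀, α₀, ν₀, T₀, T'₀, ?_, ?_, ?_, ?_, ?_, ?_⟩, hb₀, hT'₀⟩
  · intro l x
    apply hinj
    rw [mapE_tau, hb₀, hb₀, D.hg]
  · intro i j x
    apply hinj
    rw [map_mul, map_sum, hb₀, hb₀, D.hmul]
    refine Finset.sum_congr rfl fun l _ => ?_
    rw [map_mul, mapE_ze, hb₀, hμ₀]
  · intro h l x
    apply hinj
    rw [map_sum, hb₀, D.hact]
    refine Finset.sum_congr rfl fun m _ => ?_
    rw [map_mul, mapE_ze, hb₀, hα₀]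
  · intro x
    apply hinj
    rw [map_sum, map_one, ← D.hone x]
    refine Finset.sum_congr rfl fun l _ => ?_
    rw [map_mul, mapE_ze, hb₀, hν₀]
  · intro i j
    apply hinj
    rw [map_sum, mapE_ze, hT₀, ← D.htr]
    refine Finset.sum_congr rfl fun x _ => ?_
    rw [map_mul, hb₀, hb₀]
  · intro x x' hd
    apply hinj
    have h1 := D.hdual x x'
    have h2 : mapE p R.subtype F₀ (if x = x' then 1 else 0) = if x = x' then 1 else 0 := by
      split_ifs
      · exact map_one _
      · exact map_zero _
    rw [h2, ← h1, map_sum]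
    refine Finset.sum_congr rfl fun l _ => ?_
    rw [map_sum]
    refine Finset.sum_congr rfl fun m _ => ?_
    rw [map_mul, map_mul, mapE_ze, hb₀, hb₀, hT'₀]

end

end Pool.Agent.MP_1c8e06_ag.AI
end
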