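import Pool.Agent.Lib.MP_1c8e06_ag.AI.Defs3
import Pool.Agent.Lib.MP_1c8e06_ag.Mg.G090
import Pool.Agent.Lib.MP_1c8e06_ag.Mg.G098

section

set_option autoImplicit false

open Polynomial

namespace Pool.Agent.MP_1c8e06_ag.AI

noncomputable section

/-!
# Task E3: the certificate of connectedness

Proof.  For `ω : G → Fin (N+1) → κ` put `f l := ∑_d C (ω l d) * X^d` and
`Θ_ω x := ∑_l ze (f l) * b l x`, linear in `ω`.  For `x : G`, `j : ℕ`, `n : ℤ` let
`Λ_{x,j,n}(ω) := (coordE (Θ_ω x) j).coeff n
 = ∑_l ∑_d ω l d * (coordE (b l x) j).coeff (n + d)` (`coeff_coordE_X_pow_mul`).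
Claim: if `Λ_{x,j,n}(ω) = 0` for all `x`, all `j < p` and all `n` with `(j,n) ≠ (0,0)`, then
`Λ_{1,0,0}(ω) = Λ_{x,0,0}(ω)` for all `x`.  Indeed then `Θ_ω x = ze (C (c x))` with
`c x = Λ_{x,0,0}(ω)` (`extE`, `coordE_of_le`), and `Θ_ω x - ze (C (c 1)) = ∑_l ze (f l - C (c 1) * ν l) b l x`
(`hone`) vanishes at `x = 1`, hence at all `x` by `hD`: `c x = c 1` (`ze` injective).
So the linear functional `Λ_{1,0,0} - Λ_{x,0,0}` on the finite dimensional space
`V = G → Fin (N+1) → κ` vanishes on the common kernel of the family `Λ_{i}`,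
`i ∈ {(x',j,n) : j < p, (j,n) ≠ (0,0)}`, so it is in its span (e.g.
`mem_span_of_iInf_ker_le_ker` after reducing to a finite subfamily, or
`Subspace.dualAnnihilator`/`dualCoannihilator` double annihilator in the finite dimensional dual);
this gives finitely many indices and coefficients for each `x`; let `I` be the union over `x`, and
extend the coefficients by zero.  Evaluate at the basis vectors `ω = e_{l,d}`.
-/
/-- The functional `Λ_{x,j,n}`. -/
private def E3_Lam {p : ℕ} [hp : Fact p.Prime] {κ : Type} [Field κ] [CharP κ p]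
    {G : Type} [Group G] [Fintype G] {g : G} {F : κ[X]} (D : WD p κ G g F) (N : ℕ)
    (i : G × ℕ × ℤ) : (G × Fin (N + 1) → κ) →ₗ[κ] κ :=
  ∑ ld : G × Fin (N + 1), (coordE p F (D.b ld.1 i.1) i.2.1).coeff (i.2.2 + (ld.2 : ℕ)) •
    LinearMap.proj ld

private theorem E3_Lam_apply {p : ℕ} [hp : Fact p.Prime] {κ : Type} [Field κ] [CharP κ p]
    {G : Type} [Group G] [Fintype G] {g : G} {F : κ[X]} (D : WD p κ G g F) (N : ℕ)
    (i : G × ℕ × ℤ) (ω : G × Fin (N + 1) → κ) :
    E3_Lam D N i ω = ∑ ld : G × Fin (N + 1),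
      ω ld * (coordE p F (D.b ld.1 i.1) i.2.1).coeff (i.2.2 + (ld.2 : ℕ)) := by
  rw [E3_Lam, LinearMap.sum_apply]
  refine Finset.sum_congr rfl fun ld _ => ?_
  rw [LinearMap.smul_apply, LinearMap.proj_apply, smul_eq_mul, mul_comm]

/-- The element `Θ_ω x`. -/
private theorem E3_coeff {p : ℕ} [hp : Fact p.Prime] {κ : Type} [Field κ] [CharP κ p]
    {G : Type} [Group G] [Fintype G] {g : G} {F : κ[X]} (D : WD p κ G g F) (N : ℕ)
    (ω : G × Fin (N + 1) → κ) (x : G) (j : ℕ) (n : ℤ) :
    (coordE p F (∑ l, ze p F (∑ d : Fin (N + 1), C (ω (l, d)) * X ^ (d : ℕ)) * D.b l x) j).coeff n =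
      E3_Lam D N (x, j, n) ω := by
  rw [E3_Lam_apply, coordE_sum, HahnSeries.coeff_sum, Fintype.sum_prod_type]
  refine Finset.sum_congr rfl fun l _ => ?_
  rw [map_sum, Finset.sum_mul, coordE_sum, HahnSeries.coeff_sum]
  exact Finset.sum_congr rfl fun d _ => coeff_coordE_X_pow_mul _ _ _ _ _

theorem exists_certificate {p : ℕ} [hp : Fact p.Prime] {κ : Type} [Field κ] [CharP κ p]
    {G : Type} [Group G] [Fintype G] {g : G} {F : κ[X]} (D : WD p κ G g F) (hD : D.Conn ⊤)
    (N : ℕ) :
    ∃ (I : Finset (G × ℕ × ℤ)) (r : G → G × ℕ × ℤ → κ),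
      (∀ i ∈ I, i.2.1 < p ∧ ¬ (i.2.1 = 0 ∧ i.2.2 = 0)) ∧
      ∀ (x l : G) (d : ℕ), d ≤ N →
        (coordE p F (D.b l 1) 0).coeff (d : ℤ) - (coordE p F (D.b l x) 0).coeff (d : ℤ) =
          ∑ i ∈ I, r x i * (coordE p F (D.b l i.1) i.2.1).coeff (i.2.2 + d) := by
  classical
  set J : Set (G × ℕ × ℤ) := {i | i.2.1 < p ∧ ¬ (i.2.1 = 0 ∧ i.2.2 = 0)} with hJ
  -- the claim
  have claim : ∀ ω : G × Fin (N + 1) → κ, (∀ i ∈ J, E3_Lam D N i ω = 0) → ∀ x,
      E3_Lam D N (1, 0, 0) ω = E3_Lam D N (x, 0, 0) ω := by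
    intro ω hω x
    set f : G → κ[X] := fun l => ∑ d : Fin (N + 1), C (ω (l, d)) * X ^ (d : ℕ) with hf
    set c : G → κ := fun x => E3_Lam D N (x, 0, 0) ω with hc
    have h1 : ∀ x, ∑ l, ze p F (f l) * D.b l x = ze p F (C (c x)) := by
      intro x
      refine extE fun j hj => ?_
      rw [ze_apply (C (c x)), coordE_ofL, zinv_C]
      ext n
      rw [E3_coeff D N ω x j n]
      by_cases hj0 : j = 0
      · rw [if_pos hj0, HahnSeries.C_apply, HahnSeries.coeff_single]
        by_cases hn : n = 0
        · rw [if_pos hn, hj0, hn]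
        · rw [if_neg hn]
          exact hω (x, j, n) ⟨hj, fun h => hn h.2⟩
      · rw [if_neg hj0, HahnSeries.coeff_zero]
        exact hω (x, j, n) ⟨hj, fun h => hj0 h.1⟩
    have h2 : ∀ x, ∑ l, ze p F (f l - C (c 1) * D.ν l) * D.b l x =
        ze p F (C (c x)) - ze p F (C (c 1)) := by
      intro x
      have h3 : ∀ l, ze p F (f l - C (c 1) * D.ν l) * D.b l x =
          ze p F (f l) * D.b l x - ze p F (C (c 1)) * (ze p F (D.ν l) * D.b l x) := by
        intro l
        rw [map_sub, map_mul]; ring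
      rw [Finset.sum_congr rfl fun l _ => h3 l, Finset.sum_sub_distrib, h1, ← Finset.mul_sum,
        D.hone, mul_one]
    have h4 := hD x (Subgroup.mem_top x) (fun l => f l - C (c 1) * D.ν l) (by
      rw [h2, sub_self])
    rw [h2, sub_eq_zero] at h4
    have h5 := Polynomial.C_injective (ze_injective (p := p) (F := F) h4)
    exact h5.symm
  -- the span
  set W : Submodule κ (Module.Dual κ (G × Fin (N + 1) → κ)) :=
    Submodule.span κ (E3_Lam D N '' J) with hW
  have hspan : ∀ x, E3_Lam D N (1, 0, 0) - E3_Lam D N (x, 0, 0) ∈ W := by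
    intro x
    have h1 : W.dualCoannihilator.dualAnnihilator = W :=
      Subspace.dualCoannihilator_dualAnnihilator_eq
    rw [← h1, Submodule.mem_dualAnnihilator]
    intro ω hω
    rw [Submodule.mem_dualCoannihilator] at hω
    rw [LinearMap.sub_apply, sub_eq_zero]
    exact claim ω (fun i hi => hω _ (Submodule.subset_span ⟨i, hi, rfl⟩)) x
  have hex : ∀ x, ∃ c ∈ Finsupp.supported κ κ J,
      Finsupp.linearCombination κ (E3_Lam D N) c = E3_Lam D N (1, 0, 0) - E3_Lam D N (x, 0, 0) :=
    fun x => (Finsupp.mem_span_image_iff_linearCombination κ).1 (hspan x)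
  choose c hcJ hc using hex
  refine ⟨Finset.univ.biUnion fun x => (c x).support, fun x i => c x i, fun i hi => ?_,
    fun x l d hd => ?_⟩
  · rw [Finset.mem_biUnion] at hi
    obtain ⟨x, -, hx⟩ := hi
    exact (Finsupp.mem_supported κ (c x)).1 (hcJ x) hx
  · have h1 := congrArg (fun Φ => Φ (Pi.single (l, (⟨d, by omega⟩ : Fin (N + 1))) 1)) (hc x)
    have h2 : ∀ i, E3_Lam D N i (Pi.single (l, (⟨d, by omega⟩ : Fin (N + 1))) 1) =
        (coordE p F (D.b l i.1) i.2.1).coeff (i.2.2 + d) := by
      intro i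
      rw [E3_Lam_apply, Finset.sum_eq_single (l, (⟨d, by omega⟩ : Fin (N + 1)))]
      · rw [Pi.single_eq_same, one_mul]
      · intro ld _ hld
        rw [Pi.single_eq_of_ne hld, zero_mul]
      · intro h; exact absurd (Finset.mem_univ _) h
    simp only [LinearMap.sub_apply, h2, zero_add] at h1
    rw [Finsupp.linearCombination_apply, Finsupp.sum, LinearMap.sum_apply] at h1
    simp only [LinearMap.smul_apply, h2, smul_eq_mul] at h1
    rw [← h1]
    refine Finset.sum_subset (Finset.subset_biUnion_of_mem (fun x => (c x).support)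
      (Finset.mem_univ x)) fun i _ hi => ?_
    rw [Finsupp.notMem_support_iff.1 hi, zero_mul]

end

end Pool.Agent.MP_1c8e06_ag.AI
end

section

set_option autoImplicit false

open Polynomial

namespace Pool.Agent.MP_1c8e06_ag.AI

noncomputable section

/-!
# Task NS: a weak Nullstellensatz

Proof.  Take a maximal ideal `𝔪` of `A`; `A ⧸ 𝔪` is a field of finite type over `k`, so it is a
finite extension (Zariski's lemma, `finite_of_finite_type_of_isJacobsonRing` or
`Algebra.FiniteType` → `Module.Finite`), so `algebraMap k (A ⧸ 𝔪)` is bijective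
(`IsAlgClosed.algebraMap_bijective_of_isIntegral`).
-/
theorem exists_point (k : Type) [Field k] [IsAlgClosed k] (A : Type) [CommRing A] [Nontrivial A]
    [Algebra k A] [Algebra.FiniteType k A] : Nonempty (A →ₐ[k] k) := by
  obtain ⟨m, hm⟩ := Ideal.exists_maximal A
  letI : Field (A ⧸ m) := Ideal.Quotient.field m
  haveI : Algebra.FiniteType k (A ⧸ m) :=
    Algebra.FiniteType.of_surjective (Ideal.Quotient.mkₐ k m) (Ideal.Quotient.mkₐ_surjective k m)
  haveI : Module.Finite k (A ⧸ m) := finite_of_finite_type_of_isJacobsonRing k (A ⧸ m)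
  haveI : Algebra.IsIntegral k (A ⧸ m) := Algebra.IsIntegral.of_finite k (A ⧸ m)
  have hb := IsAlgClosed.algebraMap_bijective_of_isIntegral (k := k) (K := A ⧸ m)
  exact ⟨((AlgEquiv.ofBijective (Algebra.ofId k (A ⧸ m)) hb).symm : (A ⧸ m) →ₐ[k] k).comp
    (Ideal.Quotient.mkₐ k m)⟩

end

end Pool.Agent.MP_1c8e06_ag.AI
end

section

set_option autoImplicit false

open Polynomial

namespace Pool.Agent.MP_1c8e06_ag.AI

noncomputable section

private theorem TR1_gen {K E : Type} [Field K] [Field E] [Algebra K E] {G : Type} [Group G]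
    [Fintype G] (b : G → G → E) (μ : G → G → G → K) (α : G → G → G → K) (ν : G → K)
    (hmul : ∀ i j x, b i x * b j x = ∑ l, μ i j l • b l x)
    (hact : ∀ h l x, b l (x * h) = ∑ m, α h l m • b m x)
    (hone : ∀ x, ∑ l, ν l • b l x = 1)
    (hinj : ∀ h, (∀ l, b l h = b l 1) → h = 1)
    (hind : LinearIndependent K (fun l => b l 1)) :
    ∃ (L : IntermediateField K E) (_ : FiniteDimensional K L) (_ : IsGalois K L)
      (ρ : G ≃* (L ≃ₐ[K] L)) (bL : G → L), (∀ l, (bL l : E) = b l 1) ∧
      (∀ h l, ((ρ h (bL l) : L) : E) = b l h) ∧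
      ∀ a : L, ∃ r : G → K, a = ∑ l, r l • bL l := by
  classical
  set M : Submodule K E := Submodule.span K (Set.range fun l => b l 1) with hM
  have hbM : ∀ l, b l 1 ∈ M := fun l => Submodule.subset_span ⟨l, rfl⟩
  have hbMh : ∀ h l, b l h ∈ M := by
    intro h l
    have h1 := hact h l 1
    rw [one_mul] at h1
    rw [h1]
    exact Submodule.sum_mem _ fun m _ => M.smul_mem _ (hbM m)
  have h1M : (1 : E) ∈ M := by
    rw [← hone 1]
    exact Submodule.sum_mem _ fun l _ => M.smul_mem _ (hbM l)
  have hMM : M * M ≤ M := by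
    conv_lhs => rw [hM, Submodule.span_mul_span]
    rw [Submodule.span_le]
    rintro _ ⟨_, ⟨i, rfl⟩, _, ⟨j, rfl⟩, rfl⟩
    change b i 1 * b j 1 ∈ M
    rw [hmul]
    exact Submodule.sum_mem _ fun l _ => M.smul_mem _ (hbM l)
  have hmulM : ∀ x y, x ∈ M → y ∈ M → x * y ∈ M := fun x y hx hy =>
    hMM (Submodule.mul_mem_mul hx hy)
  have hfinM : Module.Finite K M := FiniteDimensional.span_of_finite K (Set.finite_range _)
  have hinvM : ∀ x ∈ M, x⁻¹ ∈ M := by
    intro x hx
    by_cases hx0 : x = 0
    · rw [hx0, inv_zero]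
      exact M.zero_mem
    · let f : M →ₗ[K] M := (LinearMap.mulLeft K x).restrict fun y hy => hmulM x y hx hy
      have hf : Function.Injective f := by
        intro y z hyz
        have h1 := congrArg Subtype.val hyz
        exact Subtype.ext (mul_left_cancel₀ hx0 h1)
      obtain ⟨y, hy⟩ := LinearMap.injective_iff_surjective.1 hf ⟨1, h1M⟩
      have h1 : x * (y : E) = 1 := congrArg Subtype.val hy
      rw [← eq_inv_of_mul_eq_one_right h1]
      exact y.2
  let L : IntermediateField K E := (M.toSubalgebra h1M hmulM).toIntermediateField hinvM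
  let bL : G → L := fun l => ⟨b l 1, hbM l⟩
  have hindL : LinearIndependent K bL := by
    have h1 : LinearIndependent K ((IntermediateField.val L).toLinearMap ∘ bL) := hind
    exact h1.of_comp
  have hspanL : ⊤ ≤ Submodule.span K (Set.range bL) := by
    intro x _
    have h1 : (x : E) ∈ M := x.2
    rw [hM, Submodule.mem_span_range_iff_exists_fun] at h1
    obtain ⟨c, hc⟩ := h1
    rw [Submodule.mem_span_range_iff_exists_fun]
    refine ⟨c, Subtype.ext ?_⟩
    rw [← hc]
    simp [bL]
  let B : Module.Basis G K L := Module.Basis.mk hindL hspanL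
  have hB : ∀ l, B l = bL l := fun l => Module.Basis.mk_apply _ _ l
  have hfin : FiniteDimensional K L := Module.Finite.of_basis B
  let c : G → G → L := fun h l => ⟨b l h, hbMh h l⟩
  let f : G → L →ₗ[K] L := fun h => B.constr K (c h)
  have hf : ∀ h l, f h (bL l) = c h l := by
    intro h l
    rw [← hB]
    exact B.constr_basis K (c h) l
  have hmulL : ∀ i j, bL i * bL j = ∑ l, μ i j l • bL l := by
    intro i j
    apply Subtype.ext
    simp only [bL]
    simpa using hmul i j 1
  have hmulc : ∀ h i j, c h i * c h j = ∑ l, μ i j l • c h l := by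
    intro h i j
    apply Subtype.ext
    simpa [c] using hmul i j h
  have honeL : ∑ l, ν l • bL l = 1 := by
    apply Subtype.ext
    simpa [bL] using hone 1
  have honec : ∀ h, ∑ l, ν l • c h l = 1 := by
    intro h
    apply Subtype.ext
    simpa [c] using hone h
  have hactL : ∀ h l, c h l = ∑ m, α h l m • bL m := by
    intro h l
    apply Subtype.ext
    have h1 := hact h l 1
    rw [one_mul] at h1
    simpa [c, bL] using h1
  have hactc : ∀ h h' l, c (h * h') l = ∑ m, α h' l m • c h m := by
    intro h h' l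
    apply Subtype.ext
    simpa [c] using hact h' l h
  have hfone : ∀ h, f h 1 = 1 := by
    intro h
    rw [← honeL, map_sum]
    simp only [map_smul, hf]
    rw [honec, honeL]
  have hfmul : ∀ h x y, f h (x * y) = f h x * f h y := by
    intro h
    have key : (LinearMap.mul K L).compr₂ (f h) = (LinearMap.mul K L).compl₁₂ (f h) (f h) := by
      refine B.ext fun i => B.ext fun j => ?_
      rw [LinearMap.compr₂_apply, LinearMap.compl₁₂_apply, LinearMap.mul_apply',
        LinearMap.mul_apply', hB, hB, hf, hf, hmulL, hmulc, map_sum]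
      simp only [map_smul, hf]
    intro x y
    exact LinearMap.congr_fun (LinearMap.congr_fun key x) y
  let Ψ0 : G → (L →ₐ[K] L) := fun h => AlgHom.ofLinearMap (f h) (hfone h) (hfmul h)
  have hΨ0 : ∀ h l, Ψ0 h (bL l) = c h l := hf
  have hext : ∀ u v : L →ₐ[K] L, (∀ l, u (bL l) = v (bL l)) → u = v := by
    intro u v huv
    apply AlgHom.toLinearMap_injective
    refine B.ext fun l => ?_
    rw [hB]
    exact huv l
  let Ψ : G →* (L →ₐ[K] L) :=
    { toFun := Ψ0
      map_one' := by
        apply hext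
        intro l
        rw [hΨ0]
        rfl
      map_mul' := by
        intro h h'
        apply hext
        intro l
        rw [hΨ0, AlgHom.mul_apply, hΨ0, hactL h' l, map_sum, hactc]
        simp only [map_smul, hΨ0] }
  let ρ0 : G →* (L ≃ₐ[K] L) :=
    (AlgEquiv.algHomUnitsEquiv K L).toMonoidHom.comp Ψ.toHomUnits
  have hρ0 : ∀ h l, ρ0 h (bL l) = c h l := by
    intro h l
    exact hΨ0 h l
  have hρinj : Function.Injective ρ0 := by
    rw [injective_iff_map_eq_one]
    intro h hh
    apply hinj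
    intro l
    have h1 := hρ0 h l
    rw [hh] at h1
    exact (congrArg Subtype.val h1).symm
  have hfr : Module.finrank K L = Fintype.card G := Module.finrank_eq_card_basis B
  have hcard : Fintype.card (L ≃ₐ[K] L) = Fintype.card G := by
    apply le_antisymm
    · rw [← hfr]
      exact AlgEquiv.card_le
    · exact Fintype.card_le_of_injective ρ0 hρinj
  have hρbij : Function.Bijective ρ0 :=
    (Fintype.bijective_iff_injective_and_card ρ0).2 ⟨hρinj, hcard.symm⟩
  have hgal : IsGalois K L := IsGalois.of_card_aut_eq_finrank K L (by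
    rw [Nat.card_eq_fintype_card, hcard, hfr])
  refine ⟨L, hfin, hgal, MulEquiv.ofBijective ρ0 hρbij, bL, fun l => rfl, ?_, ?_⟩
  · intro h l
    exact congrArg Subtype.val (hρ0 h l)
  · intro a
    refine ⟨B.repr a, ?_⟩
    conv_lhs => rw [← B.sum_repr a]
    refine Finset.sum_congr rfl fun l _ => ?_
    rw [hB]

/-!
# Task TR1: the function field

Proof.  `E := EE p F` is a field (`irreducible_asPoly`).  `ze` extends to a field homomorphism
`ι : RatFunc k →+* E` (`RatFunc.liftRingHom`/`IsFractionRing.lift ze_injective`); make `E` a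
`RatFunc k`-algebra.  `L` := the `RatFunc k`-span of the `b l 1` in `E`: a subalgebra (`hmul`, `hone` at
`x = 1`), finite dimensional over `RatFunc k` and a domain, hence a field (e.g. as an
`IntermediateField` via `Subalgebra.toIntermediateField'`, or `Algebra.IsIntegral` +
`isField_of_isIntegral_of_isField'`).
Independence of the `b l 1` over `RatFunc k`: a relation with coefficients in `RatFunc k` gives, after
clearing denominators, `∑ ze (f l) b l 1 = 0`, so by `hD` (for `⊤`) `∑ ze (f l) b l x = 0` for all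
`x`, so `f = 0` by `WD.coord_unique'`.  Hence `[L : RatFunc k] = card G`.
For `h : G` define `ρ h : L → L` to be the `RatFunc k`-linear map with `b l 1 ↦ b l h`
(`b l h = ∑ ze(α h l m) b m 1 ∈ L`).  It is a ring homomorphism by `hmul`, `hone`.
`ρ h ∘ ρ h' = ρ (h h')`: `ρ h' (b l 1) = b l h' = ∑ ze (α h' l m) b m 1`, and `ρ h` of it is
`∑ ze (α h' l m) b m h = b l (h * h')` (`hact`).  Injective: if `ρ h = 1` then `b l h = b l 1` for
all `l`, and `hdual` gives `1 = ∑ b l 1 .. b m 1 = ∑ b l h .. b m 1 = δ_{h,1}`, so `h = 1`.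
So `G` embeds in `Aut(L / RatFunc k)` and `card G = [L : RatFunc k]`, so `L` is Galois
(`IsGalois.of_card_aut_eq_finrank`, `AlgEquiv.card_le`) and `ρ` is bijective.
`j_tau`: `tau` and `ρ g` are ring homomorphisms `L → E` that agree on `ι(RatFunc k)` (`tau_ze`) and on
`b l 1`: `tau (b l 1) = b l (g * 1)`.
-/
theorem exists_FD {p : ℕ} [hp : Fact p.Prime] {k : Type} [Field k] [CharP k p] {G : Type}
    [Group G] [Fintype G] {g : G} {F : k[X]} (D : WD p k G g F) (hF : ¬ p ∣ F.natDegree)
    (hD : D.Conn ⊤) :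
    ∃ (L : Type) (_ : Field L) (_ : Algebra (RatFunc k) L)
      (_ : FiniteDimensional (RatFunc k) L) (_ : IsGalois (RatFunc k) L), Nonempty (FD D L) := by
  classical
  have hirr : Fact (Irreducible (asPoly p F)) := ⟨irreducible_asPoly hF⟩
  let fE : Field (EE p F) := AdjoinRoot.instField
  let ι : RatFunc k →+* EE p F :=
    IsFractionRing.lift (A := k[X]) (K := RatFunc k) (g := ze p F) ze_injective
  have hι : ∀ f : k[X], ι (algebraMap k[X] (RatFunc k) f) = ze p F f := fun f =>
    IsFractionRing.lift_algebraMap _ f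
  let aE : Algebra (RatFunc k) (EE p F) := ι.toAlgebra
  have hsm : ∀ (r : RatFunc k) (x : EE p F), r • x = ι r * x := fun r x => rfl
  have hsz : ∀ (f : k[X]) (x : EE p F),
      (algebraMap k[X] (RatFunc k) f) • x = ze p F f * x := fun f x => by
    rw [hsm, hι]
  have hind : LinearIndependent (RatFunc k) (fun l => D.b l 1) := by
    rw [Fintype.linearIndependent_iff]
    intro r hr i
    obtain ⟨d, hd⟩ := IsLocalization.exist_integer_multiples_of_finite
      (nonZeroDivisors k[X]) r
    choose f hf using hd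
    have h1 : ∑ l, ze p F (f l) * D.b l 1 = 0 := by
      have h2 : ∑ l, ze p F (f l) * D.b l 1 =
          ι (algebraMap k[X] (RatFunc k) (d : k[X])) * ∑ l, r l • D.b l 1 := by
        rw [Finset.mul_sum]
        refine Finset.sum_congr rfl fun l _ => ?_
        rw [← hι, hf l, Algebra.smul_def, map_mul, hsm, mul_assoc]
      rw [h2, hr, mul_zero]
    have h3 : ∀ x, ∑ l, ze p F (f l) * RingHom.id (EE p F) (D.b l x) = 0 := fun x =>
      hD x (Subgroup.mem_top x) f h1
    have h4 := D.coord_unique' (RingHom.id (EE p F)) (fun l => ze p F (f l)) h3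
    have h5 : ze p F (f i) = 0 := congrFun h4 i
    have h6 : f i = 0 := ze_injective (by rw [h5, map_zero])
    have h7 := hf i
    rw [h6, map_zero, Algebra.smul_def] at h7
    have h8 : algebraMap k[X] (RatFunc k) (d : k[X]) ≠ 0 := by
      intro h9
      have h10 : (d : k[X]) = 0 := IsFractionRing.injective k[X] (RatFunc k) (by rw [h9, map_zero])
      exact nonZeroDivisors.coe_ne_zero d h10
    exact (mul_eq_zero.1 h7.symm).resolve_left h8
  have hinj : ∀ h, (∀ l, D.b l h = D.b l 1) → h = 1 := by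
    intro h hh
    have h1 := D.hdual h 1
    have h2 := D.hdual 1 1
    simp only [hh] at h1
    rw [h1] at h2
    by_contra hne
    rw [if_neg hne, if_pos rfl] at h2
    exact zero_ne_one h2
  obtain ⟨L, hfin, hgal, ρ, bL, hbL, hρ, hspan⟩ := TR1_gen (K := RatFunc k) (E := EE p F)
    D.b (fun i j l => algebraMap k[X] (RatFunc k) (D.μ i j l))
    (fun h l m => algebraMap k[X] (RatFunc k) (D.α h l m))
    (fun l => algebraMap k[X] (RatFunc k) (D.ν l))
    (fun i j x => by simp only [hsz]; exact D.hmul i j x)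
    (fun h l x => by simp only [hsz]; exact D.hact h l x)
    (fun x => by simp only [hsz]; exact D.hone x)
    hinj hind
  have hτι : ∀ r : RatFunc k, tau p F (ι r) = ι r := by
    intro r
    have h1 : (tau p F).comp ι = ι := by
      apply IsLocalization.ringHom_ext (nonZeroDivisors k[X])
      ext f
      · simp only [RingHom.comp_apply, hι, tau_ze]
      · simp only [RingHom.comp_apply, hι, tau_ze]
    exact RingHom.congr_fun h1 r
  refine ⟨L, inferInstance, inferInstance, hfin, hgal, ⟨?_⟩⟩
  refine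
    { ρ := ρ
      j := (IntermediateField.val L).toRingHom
      bL := bL
      j_bL := hbL
      j_alg := fun f => hι f
      j_ρ := hρ
      span := hspan
      j_tau := ?_ }
  intro a
  obtain ⟨r, hr⟩ := hspan a
  rw [hr]
  simp only [map_sum, map_smul]
  refine Finset.sum_congr rfl fun l _ => ?_
  have h1 : ∀ y : L, (IntermediateField.val L).toRingHom (r l • y) =
      ι (r l) * (y : EE p F) := fun y => rfl
  rw [h1, h1, map_mul, hτι, hbL, hρ, ← D.hg, mul_one]

end

end Pool.Agent.MP_1c8e06_ag.AI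
end
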