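import Pool.Agent.Lib.MP_1c8e06_ag.Mg.G090
import Pool.Agent.Lib.MP_1c8e06_ag.Mg.G098
import Pool.Agent.Lib.MP_1c8e06_ag.Mg.G094

section

set_option autoImplicit false

open Polynomial

namespace Pool.Agent.MP_1c8e06_ag.AI

noncomputable section

/-!
# Task TR2: no inertia over the affine line

Proof.  Let `O` be a valuation subring of `L` containing `k` and `X`, so it contains the image of
`k[X]`.  `I.bL l * I.bL m = ∑ algebraMap (μ l m n) * I.bL n` and `1 = ∑ algebraMap (ν l) * I.bL l` in `L`
(`I.j` injective, `D.hmul`, `D.hone` at `x = 1`), so the `k[X]`-span of the `bL l` is a finitely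
generated ring, and every `bL l` is integral over `k[X]`, hence lies in `O` (integrally closed).
Let `u l := ∑_m algebraMap (T' l m) * bL m ∈ O`.  By `WD.dual_right`/`hdual` (symmetric `T'`):
`∑_l u l * ρ h (bL l) = if h = 1 then 1 else 0`.
Let `σ` be in the inertia group of `O`: an element of the decomposition group acting trivially on the
residue field of `O`; `σ = ρ h`.  Then `σ a - a ∈ 𝔪_O` for all `a ∈ O`.  If `h ≠ 1`:
`1 = 1 - 0 = ∑_l u l * (bL l - ρ h (bL l)) ∈ 𝔪_O`, contradiction.  So `h = 1`, `σ = 1`.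
(`ValuationSubring.inertiaSubgroup` is the kernel of
`MulSemiringAction.toRingAut (O.decompositionSubgroup (RatFunc k)) (IsLocalRing.ResidueField O)`.)
-/
theorem inertia_affine {p : ℕ} [hp : Fact p.Prime] {k : Type} [Field k] [CharP k p] {G : Type}
    [Group G] [Fintype G] {g : G} {F : k[X]} (D : WD p k G g F) (hF : ¬ p ∣ F.natDegree)
    {L : Type} [Field L] [Algebra (RatFunc k) L] (I : FD D L) (O : ValuationSubring L)
    (hk : ∀ c : k, algebraMap (RatFunc k) L (algebraMap k (RatFunc k) c) ∈ O)
    (hX : algebraMap (RatFunc k) L RatFunc.X ∈ O) :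
    O.inertiaSubgroup (RatFunc k) = ⊥ := by
  classical
  have hdom := isDomain_EE (p := p) hF
  have hjinj : Function.Injective I.j := I.j.injective
  obtain ⟨aL, haL⟩ : ∃ aL : k[X] →+* L,
      aL = (algebraMap (RatFunc k) L).comp (algebraMap k[X] (RatFunc k)) := ⟨_, rfl⟩
  have hjaL : ∀ f, I.j (aL f) = ze p F f := by
    intro f
    rw [haL]
    exact I.j_alg f
  -- the polynomials are in `O`
  have hpoly : ∀ f : k[X], aL f ∈ O := by
    intro f
    induction f using Polynomial.induction_on' with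
    | add f g hf hg => rw [map_add]; exact O.add_mem _ _ hf hg
    | monomial n a =>
      rw [← Polynomial.C_mul_X_pow_eq_monomial, map_mul, map_pow]
      refine O.mul_mem _ _ ?_ (pow_mem ?_ n)
      · have h1 : aL (C a) = algebraMap (RatFunc k) L (algebraMap k (RatFunc k) a) := by
          rw [haL, RingHom.comp_apply, RatFunc.algebraMap_C, RatFunc.algebraMap_eq_C]
        rw [h1]
        exact hk a
      · have h1 : aL X = algebraMap (RatFunc k) L RatFunc.X := by
          rw [haL, RingHom.comp_apply, RatFunc.algebraMap_X]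
        rw [h1]
        exact hX
  -- the multiplication table in `L`
  have hmulL : ∀ l m, I.bL l * I.bL m = ∑ n, aL (D.μ l m n) * I.bL n := by
    intro l m
    apply hjinj
    rw [map_mul, map_sum, I.j_bL, I.j_bL, D.hmul]
    refine Finset.sum_congr rfl fun n _ => ?_
    rw [map_mul, hjaL, I.j_bL]
  -- the basis elements are in `O`
  have hbL : ∀ l, I.bL l ∈ O := by
    obtain ⟨l0, hl0⟩ := Finite.exists_max fun l => O.valuation (I.bL l)
    have h1 : O.valuation (I.bL l0) ≤ 1 := by
      by_contra hcon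
      rw [not_le] at hcon
      have h2 : O.valuation (I.bL l0 * I.bL l0) ≤ O.valuation (I.bL l0) := by
        rw [hmulL]
        refine Valuation.map_sum_le _ fun n _ => ?_
        rw [map_mul]
        calc O.valuation (aL (D.μ l0 l0 n)) * O.valuation (I.bL n)
            ≤ 1 * O.valuation (I.bL l0) := mul_le_mul' ((O.valuation_le_one_iff _).2 (hpoly _)) (hl0 n)
          _ = _ := one_mul _
      rw [map_mul] at h2
      have h3 : O.valuation (I.bL l0) < O.valuation (I.bL l0) * O.valuation (I.bL l0) := by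
        have h4 : 0 < O.valuation (I.bL l0) := lt_trans zero_lt_one hcon
        calc O.valuation (I.bL l0) = 1 * O.valuation (I.bL l0) := (one_mul _).symm
          _ < O.valuation (I.bL l0) * O.valuation (I.bL l0) := mul_lt_mul_of_pos_right hcon h4
      exact absurd h2 (not_le.2 h3)
    intro l
    exact (O.valuation_le_one_iff _).1 ((hl0 l).trans h1)
  -- the dual elements
  obtain ⟨u, hu⟩ : ∃ u : G → L, u = fun l => ∑ m, aL (D.T' l m) * I.bL m := ⟨_, rfl⟩
  have huO : ∀ l, u l ∈ O := by
    intro l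
    rw [hu]
    exact sum_mem fun m _ => O.mul_mem _ _ (hpoly _) (hbL m)
  have hdual : ∀ h : G, ∑ l, u l * I.ρ h (I.bL l) = if h = 1 then 1 else 0 := by
    intro h
    apply hjinj
    have h1 := D.dual_right h 1
    rw [map_sum]
    have h2 : ∀ l, I.j (u l * I.ρ h (I.bL l)) =
        D.b l h * ∑ m, ze p F (D.T' l m) * D.b m 1 := by
      intro l
      rw [map_mul, I.j_ρ, hu, map_sum, mul_comm]
      congr 1
      refine Finset.sum_congr rfl fun m _ => ?_
      rw [map_mul, hjaL, I.j_bL]
    rw [Finset.sum_congr rfl fun l _ => h2 l, h1]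
    split_ifs <;> simp
  rw [eq_bot_iff]
  intro σ hσ
  rw [Subgroup.mem_bot]
  obtain ⟨h, hh⟩ : ∃ h : G, I.ρ h = (σ : L ≃ₐ[RatFunc k] L) := I.ρ.surjective _
  have htriv : ∀ a : O, IsLocalRing.residue O (σ • a) = IsLocalRing.residue O a := by
    intro a
    rw [IsLocalRing.ResidueField.residue_smul]
    have h1 : MulSemiringAction.toRingAut (O.decompositionSubgroup (RatFunc k))
        (IsLocalRing.ResidueField O) σ = 1 := hσ
    have h2 := congrArg (fun e : RingAut (IsLocalRing.ResidueField O) =>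
      e (IsLocalRing.residue O a)) h1
    exact h2
  have hh1 : h = 1 := by
    by_contra hne
    have e1 := hdual 1
    have e2 := hdual h
    rw [if_pos rfl] at e1
    rw [if_neg hne] at e2
    have e3 : (∑ l, (⟨u l, huO l⟩ : O) * (⟨I.bL l, hbL l⟩ - σ • (⟨I.bL l, hbL l⟩ : O))) = 1 := by
      apply Subtype.ext
      have e4 : ((∑ l, (⟨u l, huO l⟩ : O) * (⟨I.bL l, hbL l⟩ - σ • (⟨I.bL l, hbL l⟩ : O)) : O) : L)
          = ∑ l, u l * (I.bL l - I.ρ h (I.bL l)) := by
        rw [AddSubmonoidClass.coe_finsetSum]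
        refine Finset.sum_congr rfl fun l _ => ?_
        rw [hh]
        rfl
      rw [e4]
      have e5 : ∑ l, u l * (I.bL l - I.ρ h (I.bL l)) =
          ∑ l, u l * I.ρ 1 (I.bL l) - ∑ l, u l * I.ρ h (I.bL l) := by
        rw [← Finset.sum_sub_distrib]
        refine Finset.sum_congr rfl fun l _ => ?_
        rw [map_one, AlgEquiv.one_apply]
        ring
      rw [e5, e1, e2, sub_zero]
      rfl
    have e6 := congrArg (IsLocalRing.residue O) e3
    rw [map_sum, map_one] at e6
    have e7 : ∀ l, IsLocalRing.residue O ((⟨u l, huO l⟩ : O) *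
        (⟨I.bL l, hbL l⟩ - σ • (⟨I.bL l, hbL l⟩ : O))) = 0 := by
      intro l
      rw [map_mul, map_sub, htriv, sub_self, mul_zero]
    rw [Finset.sum_congr rfl fun l _ => e7 l, Finset.sum_const_zero] at e6
    exact zero_ne_one e6
  apply Subtype.ext
  rw [← hh, hh1, map_one]
  rfl

end

end Pool.Agent.MP_1c8e06_ag.AI
end

section

set_option autoImplicit false

open Polynomial

namespace Pool.Agent.MP_1c8e06_ag.AI

noncomputable section

/-!
# Task TR3: separating the point `1` from the points outside `⟨g⟩`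

For `σ ∉ ⟨g⟩` there is `a ∈ L` with `j a` of weight `0` (a unit) and `j (ρ σ a)` of positive weight.
Proof.  Consider the function `e : G → EE p F`, `e x = 1` if `x ∈ ⟨g⟩` and `0` otherwise.
`c n := ∑_x e x * (∑_m ze (T' n m) * b m x)` is fixed by `tau` (reindex by `g`; `e (g x) = e x`), so
`c n = ofL (c' n)` (`tau_fixed`), and `∑_n ofL (c' n) * b n x = e x` for all `x`
(`WD.dual_right`/`hdual`).  Choose `M` with `Fil (-M) (b n x)` for all `n, x` and approximate
`c' n ∈ k((s))` by `c'' n := ∑_{i < i₀} (c' n).coeff i * s^i` (a finite sum, `i₀ ≥ M+1`), so that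
`Fil (M+1) (ofL (c' n - c'' n))`.  `s = 1/X`, so `ofL (c'' n) = I.j (algebraMap r_n)` with
`r_n ∈ RatFunc k` (`r_n = ∑ C(..) * X^(-i)`; `I.j_alg`).
`a := ∑_n r_n • bL n`; `j a = ∑ ofL (c'' n) b n 1 = 1 - (element of Fil 1)` and
`j (ρ σ a) = ∑ ofL (c'' n) b n σ = 0 - (element of Fil 1)` as `e σ = 0`.
(`j (ρ h (r • b)) = j(algebraMap r) * b l h`: `ρ h` is `RatFunc k`-linear and `I.j_ρ`.)
-/
private theorem TR3_approx {k : Type} [Field k] (c : LaurentSeries k) (d : ℕ) :
    ∃ f : k[X], ∀ i : ℤ, i ≤ d →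
      (c - HahnSeries.single (d : ℤ) (1 : k) * zinv k f).coeff i = 0 := by
  classical
  obtain ⟨N, hN⟩ : ∃ N : ℕ, ∀ i : ℤ, i < -(N : ℤ) → c.coeff i = 0 :=
    ⟨(-c.order).toNat, fun i hi => HahnSeries.coeff_eq_zero_of_lt_order (by omega)⟩
  refine ⟨∑ m ∈ Finset.range (N + d + 1), C (c.coeff ((d : ℤ) - m)) * X ^ m, fun i hi => ?_⟩
  have h1 := HahnSeries.coeff_single_mul_add (r := (1 : k))
    (x := zinv k (∑ m ∈ Finset.range (N + d + 1), C (c.coeff ((d : ℤ) - m)) * X ^ m))
    (a := i - d) (b := (d : ℤ))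
  rw [one_mul, sub_add_cancel] at h1
  rw [HahnSeries.coeff_sub, h1, zinv_coeff, if_pos (by omega), Polynomial.finsetSum_coeff]
  obtain ⟨m, hm⟩ : ∃ m : ℕ, m = (-(i - (d : ℤ))).toNat := ⟨_, rfl⟩
  rw [← hm]
  have hmi : (d : ℤ) - m = i := by omega
  by_cases hmN : m < N + d + 1
  · rw [Finset.sum_eq_single m]
    · rw [Polynomial.coeff_C_mul_X_pow, if_pos rfl, hmi, sub_self]
    · intro b _ hb
      rw [Polynomial.coeff_C_mul_X_pow, if_neg (Ne.symm hb)]
    · intro h
      exact absurd (Finset.mem_range.2 hmN) h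
  · rw [Finset.sum_eq_zero, hN i (by omega), sub_zero]
    intro b hb
    rw [Polynomial.coeff_C_mul_X_pow, if_neg]
    have := Finset.mem_range.1 hb
    omega

theorem exists_separate {p : ℕ} [hp : Fact p.Prime] {k : Type} [Field k] [CharP k p] {G : Type}
    [Group G] [Fintype G] {g : G} {F : k[X]} (D : WD p k G g F) (hF : ¬ p ∣ F.natDegree)
    {L : Type} [Field L] [Algebra (RatFunc k) L] (I : FD D L) (σ : G)
    (hσ : σ ∉ Subgroup.zpowers g) :
    ∃ a : L, Fil p F 1 (I.j a - 1) ∧ Fil p F 1 (I.j (I.ρ σ a)) := by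
  classical
  have hdom := isDomain_EE (p := p) hF
  obtain ⟨e, he⟩ : ∃ e : G → EE p F, e = fun x => if x ∈ Subgroup.zpowers g then 1 else 0 :=
    ⟨_, rfl⟩
  have heg : ∀ x, e (g * x) = e x := by
    intro x
    rw [he]
    have h1 : g * x ∈ Subgroup.zpowers g ↔ x ∈ Subgroup.zpowers g :=
      Subgroup.mul_mem_cancel_left _ (Subgroup.mem_zpowers g)
    simp only [h1]
  have hetau : ∀ x, tau p F (e x) = e x := by
    intro x
    rw [he]
    simp only
    split_ifs <;> simp
  have he1 : e 1 = 1 := by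
    rw [he]
    simp only
    rw [if_pos (one_mem _)]
  have heσ : e σ = 0 := by
    rw [he]
    simp only
    rw [if_neg hσ]
  obtain ⟨c, hc⟩ : ∃ c : G → EE p F,
      c = fun n => ∑ x, e x * ∑ m, ze p F (D.T' n m) * D.b m x := ⟨_, rfl⟩
  have hctau : ∀ n, tau p F (c n) = c n := by
    intro n
    rw [hc]
    simp only [map_sum, map_mul, tau_ze, hetau, ← D.hg]
    rw [← Equiv.sum_comp (Equiv.mulLeft g) fun x => e x * ∑ m, ze p F (D.T' n m) * D.b m x]
    refine Finset.sum_congr rfl fun x _ => ?_
    rw [Equiv.coe_mulLeft, heg]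
  choose c' hc' using fun n => tau_fixed (c n) (hctau n)
  have hce : ∀ x, ∑ n, c n * D.b n x = e x := by
    intro x
    have h1 : ∀ n, c n * D.b n x =
        ∑ y, e y * (D.b n x * ∑ m, ze p F (D.T' n m) * D.b m y) := by
      intro n
      rw [hc, Finset.sum_mul]
      refine Finset.sum_congr rfl fun y _ => ?_
      ring
    rw [Finset.sum_congr rfl fun n _ => h1 n, Finset.sum_comm]
    have h2 : ∀ y, ∑ n, e y * (D.b n x * ∑ m, ze p F (D.T' n m) * D.b m y) =
        if x = y then e y else 0 := by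
      intro y
      rw [← Finset.mul_sum, D.dual_right x y]
      split_ifs <;> simp
    rw [Finset.sum_congr rfl fun y _ => h2 y, Finset.sum_ite_eq]
    simp
  -- a common bound for the weights
  obtain ⟨M, hM⟩ : ∃ M : ℕ, ∀ n x, Fil p F (-(M : ℤ)) (D.b n x) := by
    choose N hN using fun q : G × G => Fil.exists (D.b q.1 q.2)
    obtain ⟨q0, hq0⟩ := Finite.exists_min N
    refine ⟨(-(N q0)).toNat, fun n x => (hN (n, x)).mono ?_⟩
    have := hq0 (n, x)
    omega
  choose f hf using fun n => TR3_approx (c' n) (M + 1)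
  obtain ⟨c'', hc''⟩ : ∃ c'' : G → LaurentSeries k,
      c'' = fun n => HahnSeries.single ((M + 1 : ℕ) : ℤ) (1 : k) * zinv k (f n) := ⟨_, rfl⟩
  have hK : ∀ n (i : ℤ), (p : ℤ) * i < ((M : ℤ) + 1) → (c' n - c'' n).coeff i = 0 := by
    intro n i hi
    rw [hc'']
    apply hf
    by_contra hcon
    rw [not_le] at hcon
    have hp1 : (1 : ℤ) ≤ p := by exact_mod_cast hp.out.pos
    push_cast at hcon
    nlinarith
  -- the rational functions
  obtain ⟨r, hr⟩ : ∃ r : G → RatFunc k, r = fun n =>
      algebraMap k[X] (RatFunc k) (f n) / algebraMap k[X] (RatFunc k) (X ^ (M + 1)) := ⟨_, rfl⟩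
  have hX0 : algebraMap k[X] (RatFunc k) (X ^ (M + 1)) ≠ 0 := by
    rw [Ne, map_eq_zero_iff _ (IsFractionRing.injective k[X] (RatFunc k))]
    exact pow_ne_zero _ Polynomial.X_ne_zero
  have hjr : ∀ n, I.j (algebraMap (RatFunc k) L (r n)) = ofL p F (c'' n) := by
    intro n
    have h1 : I.j (algebraMap (RatFunc k) L (r n)) * ze p F (X ^ (M + 1)) = ze p F (f n) := by
      rw [← I.j_alg (X ^ (M + 1)), ← I.j_alg (f n), ← map_mul, ← map_mul]
      congr 2
      rw [hr]
      exact div_mul_cancel₀ _ hX0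
    have h2 : ofL p F (c'' n) * ze p F (X ^ (M + 1)) = ze p F (f n) := by
      rw [ze_apply, ze_apply, ← map_mul]
      congr 1
      rw [hc'', map_pow, zinv_X, HahnSeries.single_pow, one_pow, mul_right_comm,
        HahnSeries.single_mul_single, mul_one]
      have h3 : ((M + 1 : ℕ) : ℤ) + (M + 1) • (-1 : ℤ) = 0 := by
        simp
      rw [h3]
      exact one_mul _
    have h3 : ze p F (X ^ (M + 1)) ≠ 0 := by
      rw [Ne, map_eq_zero_iff _ ze_injective]
      exact pow_ne_zero _ Polynomial.X_ne_zero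
    exact mul_right_cancel₀ h3 (h1.trans h2.symm)
  -- the element
  have hsum : ∀ x, ∑ n, ofL p F (c'' n) * D.b n x =
      e x - ∑ n, ofL p F (c' n - c'' n) * D.b n x := by
    intro x
    rw [← hce x, ← Finset.sum_sub_distrib]
    refine Finset.sum_congr rfl fun n _ => ?_
    rw [hc' n, map_sub]
    ring
  have herr : ∀ x, Fil p F 1 (∑ n, ofL p F (c' n - c'' n) * D.b n x) := by
    intro x
    refine Fil.sum _ fun n _ => ?_
    have h1 := Fil.ofL_mul' (hK n) (hM n x)
    have h2 : (M : ℤ) + 1 + -(M : ℤ) = 1 := by ring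
    rwa [h2] at h1
  refine ⟨∑ n, algebraMap (RatFunc k) L (r n) * I.bL n, ?_, ?_⟩
  · have h1 : I.j (∑ n, algebraMap (RatFunc k) L (r n) * I.bL n) =
        ∑ n, ofL p F (c'' n) * D.b n 1 := by
      rw [map_sum]
      refine Finset.sum_congr rfl fun n _ => ?_
      rw [map_mul, hjr, I.j_bL]
    rw [h1, hsum, he1, sub_sub_cancel_left]
    exact (herr 1).neg
  · have h1 : I.j (I.ρ σ (∑ n, algebraMap (RatFunc k) L (r n) * I.bL n)) =
        ∑ n, ofL p F (c'' n) * D.b n σ := by
      rw [map_sum, map_sum]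
      refine Finset.sum_congr rfl fun n _ => ?_
      rw [map_mul, AlgEquiv.commutes, map_mul, hjr, I.j_ρ]
    rw [h1, hsum, heσ, zero_sub]
    exact (herr σ).neg

end

end Pool.Agent.MP_1c8e06_ag.AI
end

section

set_option autoImplicit false

open Polynomial

namespace Pool.Agent.MP_1c8e06_ag.AI

noncomputable section

/-!
# Task TR4: the place at infinity

Proof.  `O := {a : L | Fil p F 0 (I.j a)}` is a valuation subring: closed under `+, *, -`
(`AI/A1.lean`), and if `a ∉ O` then `wt (j a) < 0`, so `wt (j a⁻¹) = - wt (j a) > 0`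
(`wt_mul`, `le_wt_iff`), `a⁻¹ ∈ O`.  `k ⊆ O` : `wt (ze (C c)) ≥ 0`.
`X ∉ O` and `X⁻¹ ∈ O`: `wt (ze X) = -p` (`wt_ze`).
Maximal ideal: `a ∈ 𝔪_O` iff `Fil 1 (j a)`.
Decomposition group: `τ := ρ g` maps `O` to itself: `j (ρ g a) = tau (j a)`, `Fil.tau`; the same for all
powers, so `ρ(⟨g⟩)` stabilises `O` (finite order).  Conversely, let `σ : G` with `ρ σ O = O` and
suppose `σ ∉ ⟨g⟩`: `exists_separate` gives `a ∈ O` (`j a = 1 + Fil 1`), a unit of `O`
(`wt (j a) = 0`), with `ρ σ a ∈ 𝔪_O`; but `ρ σ` restricts to a ring automorphism of `O`, which maps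
units to units: contradiction.  So the decomposition group is exactly `ρ(⟨g⟩)`.
Inertia: for `a ∈ O`: `j (ρ g a - a) = tau (j a) - j a ∈ Fil (0 + n) ⊆ Fil 1` (`Fil.tau_sub`, `n ≥ 1`), so
`ρ g` acts trivially on the residue field; so the inertia group is the whole decomposition group.
Thus the image of the inertia group under `ρ⁻¹` is `⟨g⟩`.
(`ValuationSubring.decompositionSubgroup K A = MulAction.stabilizer _ A`,
`ValuationSubring.inertiaSubgroup` = kernel of `MulSemiringAction.toRingAut _ (ResidueField A)`.)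
-/
theorem exists_place {p : ℕ} [hp : Fact p.Prime] {k : Type} [Field k] [CharP k p] {G : Type}
    [Group G] [Fintype G] {g : G} {F : k[X]} (D : WD p k G g F) (hF : ¬ p ∣ F.natDegree)
    {L : Type} [Field L] [Algebra (RatFunc k) L] (I : FD D L) :
    ∃ O : ValuationSubring L,
      (∀ c : k, algebraMap (RatFunc k) L (algebraMap k (RatFunc k) c) ∈ O) ∧
      algebraMap (RatFunc k) L (RatFunc.X)⁻¹ ∈ O ∧
      algebraMap (RatFunc k) L RatFunc.X ∉ O ∧
      ((O.inertiaSubgroup (RatFunc k)).map
          (O.decompositionSubgroup (RatFunc k)).subtype).map I.ρ.symm.toMonoidHom =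
        Subgroup.zpowers g := by
  classical
  have hdom := isDomain_EE (p := p) hF
  have hjinj : Function.Injective I.j := I.j.injective
  have hn1 : 1 ≤ F.natDegree := by
    by_contra hcon
    apply hF
    have : F.natDegree = 0 := by omega
    rw [this]
    exact dvd_zero p
  have hwt1 : wt p F (1 : EE p F) = ((0 : ℤ) : WithTop ℤ) := by
    have h1 := wt_ze (p := p) (F := F) (1 : k[X]) one_ne_zero
    rw [map_one, Polynomial.natDegree_one] at h1
    simpa using h1
  have hnot1 : ¬ Fil p F 1 (1 : EE p F) := by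
    intro h
    have h1 := (le_wt_iff _ _).2 h
    rw [hwt1, WithTop.coe_le_coe] at h1
    omega
  -- the valuation ring
  obtain ⟨O, hO⟩ : ∃ O : ValuationSubring L, ∀ a, a ∈ O ↔ Fil p F 0 (I.j a) := by
    refine ⟨{ carrier := {a | Fil p F 0 (I.j a)}
              mul_mem' := ?_
              one_mem' := ?_
              add_mem' := ?_
              zero_mem' := ?_
              neg_mem' := ?_
              mem_or_inv_mem' := ?_ }, fun a => Iff.rfl⟩
    · intro a b ha hb
      have h1 := Fil.mul ha hb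
      rw [Set.mem_ofPred_eq, map_mul]
      simpa using h1
    · rw [Set.mem_ofPred_eq, map_one]
      exact Fil.one
    · intro a b ha hb
      rw [Set.mem_ofPred_eq, map_add]
      exact Fil.add ha hb
    · rw [Set.mem_ofPred_eq, map_zero]
      exact Fil.zero 0
    · intro a ha
      rw [Set.mem_ofPred_eq, map_neg]
      exact Fil.neg ha
    · intro a
      by_cases ha0 : a = 0
      · left
        change Fil p F 0 (I.j a)
        rw [ha0, map_zero]
        exact Fil.zero 0
      · by_cases hL : Fil p F 0 (I.j a)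
        · exact Or.inl hL
        · right
          change Fil p F 0 (I.j a⁻¹)
          have h1 : wt p F (I.j a) + wt p F (I.j a⁻¹) = ((0 : ℤ) : WithTop ℤ) := by
            rw [← wt_mul hF, ← map_mul, mul_inv_cancel₀ ha0, map_one, hwt1]
          rw [← le_wt_iff] at hL ⊢
          revert h1 hL
          generalize wt p F (I.j a) = x
          generalize wt p F (I.j a⁻¹) = y
          intro hL h1
          cases x with
          | top => exact absurd le_top hL
          | coe x =>
            cases y with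
            | top => exact le_top
            | coe y =>
              rw [← WithTop.coe_add, WithTop.coe_inj] at h1
              rw [WithTop.coe_le_coe] at hL ⊢
              omega
  -- elements of weight at least one are in the maximal ideal
  have hmax : ∀ a : O, Fil p F 1 (I.j a) → IsLocalRing.residue O a = 0 := by
    intro a ha
    rw [IsLocalRing.residue_eq_zero_iff, IsLocalRing.mem_maximalIdeal, mem_nonunits_iff]
    intro hu
    obtain ⟨b, hb⟩ := hu.exists_right_inv
    apply hnot1
    have h1 : (a : L) * (b : L) = 1 := by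
      have := congrArg (fun x : O => (x : L)) hb
      simpa using this
    have h2 := Fil.mul ha ((hO b).1 b.2)
    rw [← map_mul, h1, map_one, add_zero] at h2
    exact h2
  -- the action of the powers of `g`
  have hpow : ∀ h ∈ Subgroup.zpowers g, ∀ a, Fil p F 0 (I.j a) →
      Fil p F 0 (I.j (I.ρ h a)) ∧ Fil p F 1 (I.j (I.ρ h a) - I.j a) := by
    intro h hh
    rw [← mem_powers_iff_mem_zpowers] at hh
    obtain ⟨n, rfl⟩ := hh
    intro a ha
    simp only
    induction n with
    | zero =>
      rw [pow_zero, map_one, AlgEquiv.one_apply, sub_self]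
      exact ⟨ha, Fil.zero 1⟩
    | succ n ih =>
      have h1 : I.j (I.ρ (g ^ (n + 1)) a) = tau p F (I.j (I.ρ (g ^ n) a)) := by
        rw [I.j_tau, pow_succ', map_mul, AlgEquiv.mul_apply]
      rw [h1]
      refine ⟨Fil.tau ih.1, ?_⟩
      have h2 := (Fil.tau_sub ih.1).mono (N := 1) (by omega)
      have h3 := Fil.add h2 ih.2
      rwa [sub_add_sub_cancel] at h3
  have hdec : ∀ h ∈ Subgroup.zpowers g, I.ρ h ∈ O.decompositionSubgroup (RatFunc k) := by
    intro h hh
    open Pointwise in
    rw [ValuationSubring.decompositionSubgroup, MulAction.mem_stabilizer_iff]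
    ext a
    rw [ValuationSubring.mem_pointwise_smul_iff_inv_smul_mem, ← map_inv, hO, hO]
    constructor
    · intro h1
      have h2 := (hpow h hh _ h1).1
      have h3 : I.ρ h (I.ρ h⁻¹ • a) = a := by
        change I.ρ h (I.ρ h⁻¹ a) = a
        rw [← AlgEquiv.mul_apply, ← map_mul, mul_inv_cancel, map_one, AlgEquiv.one_apply]
      rwa [h3] at h2
    · intro h1
      exact (hpow h⁻¹ (inv_mem hh) a h1).1
  have hin : ∀ h (hh : h ∈ Subgroup.zpowers g),
      (⟨I.ρ h, hdec h hh⟩ : O.decompositionSubgroup (RatFunc k)) ∈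
        O.inertiaSubgroup (RatFunc k) := by
    intro h hh
    change MulSemiringAction.toRingAut (O.decompositionSubgroup (RatFunc k))
        (IsLocalRing.ResidueField O) ⟨I.ρ h, hdec h hh⟩ = 1
    apply RingEquiv.ext
    intro x
    obtain ⟨a, rfl⟩ := IsLocalRing.residue_surjective x
    change (⟨I.ρ h, hdec h hh⟩ : O.decompositionSubgroup (RatFunc k)) •
      IsLocalRing.residue O a = IsLocalRing.residue O a
    rw [← IsLocalRing.ResidueField.residue_smul, ← sub_eq_zero, ← map_sub]
    apply hmax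
    have h1 := (hpow h hh a ((hO a).1 a.2)).2
    rw [← map_sub] at h1
    exact h1
  refine ⟨O, ?_, ?_, ?_, ?_⟩
  · intro c
    rw [hO]
    have h1 : algebraMap (RatFunc k) L (algebraMap k (RatFunc k) c) =
        algebraMap (RatFunc k) L (algebraMap k[X] (RatFunc k) (C c)) := by
      rw [RatFunc.algebraMap_C, RatFunc.algebraMap_eq_C]
    rw [h1, I.j_alg]
    have h2 := Fil.ze (p := p) (F := F) (C c)
    rw [Polynomial.natDegree_C] at h2
    simpa using h2
  · rw [hO]
    have h1 : I.j (algebraMap (RatFunc k) L (RatFunc.X)⁻¹) * ze p F X = 1 := by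
      rw [← I.j_alg, ← map_mul, ← map_mul, RatFunc.algebraMap_X, inv_mul_cancel₀ RatFunc.X_ne_zero,
        map_one, map_one]
    have h2 := congrArg (wt p F) h1
    rw [wt_mul hF, hwt1, wt_ze X Polynomial.X_ne_zero, Polynomial.natDegree_X] at h2
    rw [← le_wt_iff]
    revert h2
    generalize wt p F (I.j (algebraMap (RatFunc k) L (RatFunc.X)⁻¹)) = x
    intro h2
    cases x with
    | top => exact le_top
    | coe x =>
      rw [← WithTop.coe_add, WithTop.coe_inj] at h2
      rw [WithTop.coe_le_coe]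
      have := hp.out.pos
      push_cast at h2
      omega
  · rw [hO]
    intro h
    have h1 := (le_wt_iff _ _).2 h
    rw [← RatFunc.algebraMap_X, I.j_alg, wt_ze X Polynomial.X_ne_zero, Polynomial.natDegree_X,
      WithTop.coe_le_coe] at h1
    have := hp.out.pos
    push_cast at h1
    omega
  · ext h
    simp only [Subgroup.mem_map]
    constructor
    · rintro ⟨_, ⟨σ, hσ, rfl⟩, hσh⟩
      by_contra hcon
      obtain ⟨a, ha1, ha2⟩ := exists_separate D hF I h hcon
      have hσ' : I.ρ h = (σ : L ≃ₐ[RatFunc k] L) := by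
        rw [← hσh]
        exact I.ρ.apply_symm_apply _
      have haO : a ∈ O := by
        rw [hO]
        have h1 := Fil.add (ha1.mono (N := 0) (by omega)) (Fil.one (p := p) (F := F))
        rwa [sub_add_cancel] at h1
      have h1 : IsLocalRing.residue O (⟨a, haO⟩ : O) = 1 := by
        rw [← sub_eq_zero, ← map_one (IsLocalRing.residue O), ← map_sub]
        apply hmax
        have h2 : ((⟨a, haO⟩ - 1 : O) : L) = a - 1 := rfl
        rw [h2, map_sub, map_one]
        exact ha1
      have h3 : IsLocalRing.residue O (σ • (⟨a, haO⟩ : O)) = 0 := by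
        apply hmax
        have h4 : ((σ • (⟨a, haO⟩ : O) : O) : L) = I.ρ h a := by
          rw [hσ']
          rfl
        rw [h4]
        exact ha2
      rw [IsLocalRing.ResidueField.residue_smul, h1, smul_one] at h3
      exact one_ne_zero h3
    · intro hh
      refine ⟨I.ρ h, ⟨⟨I.ρ h, hdec h hh⟩, hin h hh, rfl⟩, ?_⟩
      exact I.ρ.symm_apply_apply h

end

end Pool.Agent.MP_1c8e06_ag.AI
end
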