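import Pool.Agent.Lib.MP_1c8e06_ag.Mg.G094
import Pool.Agent.Lib.MP_1c8e06_ag.Mg.G090
import Pool.Agent.Lib.MP_1c8e06_ag.Mg.G101
import Pool.Agent.Lib.MP_1c8e06_ag.Mg.G103
import Pool.Agent.Lib.MP_1c8e06_ag.Mg.G104
import Pool.Agent.Lib.MP_1c8e06_ag.Mg.G098

section

set_option autoImplicit false

open Polynomial

namespace Pool.Agent.MP_1c8e06_ag.AI

noncomputable section

/-!
# Task PB2: pull back of the covering data along `X ↦ h(X)`, `p ∤ deg h`

Proof.  Let `m = h.natDegree ≥ 1` (as `p ∣ 0`).  Take `σE` from `exists_sigmaE` with `φ = id`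
(`κ' = κ`, `F' = F.comp h`, `Polynomial.map_id`), `θ := Polynomial.compRingHom h : κ[X] →+* κ[X]`
(`f ↦ f.comp h`).  `D' := D.map θ σE _ _` (`AI/Defs3.lean`).
`Conn H`: let `h₀ ∈ H` and `f : G → κ[X]` with `∑_l ze (f_l) * σE (b l 1) = 0`.
By `exists_expansion`, `f_l = ∑_{i<m} X^i * (f_{l,i}).comp h`, so
`0 = ∑_{i<m} ze (X^i) * σE (Θ_i(1))` with `Θ_i(x) := ∑_l ze (f_{l,i}) * b l x`.
The nonzero terms have weights `wt = -p i + m * wt(Θ_i(1))` (`wt_mul`, `wt_ze`, `exists_sigmaE`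
last item; `(F.comp h).natDegree = F.natDegree * m` is prime to `p`), which are pairwise
distinct modulo `m` for `0 ≤ i < m` because `gcd(p, m) = 1`.  A finite sum of elements with
pairwise distinct weights, not all zero, is nonzero (use `le_wt_iff`, `Fil.add/sum`: take the
term of least weight `N`; the others are in `Fil (N+1)`, so it would be in `Fil (N+1)` too).
Hence all `Θ_i(1) = 0` (`σE` injective), so `Θ_i(h₀) = 0` by `D.Conn H`, and then
`∑_l ze (f_l) * σE (b l h₀) = ∑_i ze (X^i) * σE (Θ_i(h₀)) = 0`.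
-/

private theorem PB2_indep {p : ℕ} [hp : Fact p.Prime] {κ : Type} [Field κ] {F : κ[X]} {m : ℕ}
    (T : Fin m → EE p F) (v : Fin m → ℤ)
    (hv : ∀ i, T i ≠ 0 → wt p F (T i) = (v i : WithTop ℤ))
    (hinj : ∀ i j, v i = v j → i = j) (hsum : ∑ i, T i = 0) : ∀ i, T i = 0 := by
  classical
  by_contra hcon
  push Not at hcon
  obtain ⟨i, hi⟩ := hcon
  obtain ⟨i0, hi0, hmin⟩ := (Finset.univ.filter fun j => T j ≠ 0).exists_min_image v
    ⟨i, Finset.mem_filter.2 ⟨Finset.mem_univ _, hi⟩⟩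
  have hT0 : T i0 ≠ 0 := (Finset.mem_filter.1 hi0).2
  have hrest : ∀ j ∈ Finset.univ.erase i0, Fil p F (v i0 + 1) (T j) := by
    intro j hj
    have hji : j ≠ i0 := (Finset.mem_erase.1 hj).1
    by_cases hTj : T j = 0
    · rw [hTj]
      exact Fil.zero _
    · rw [← le_wt_iff, hv j hTj, WithTop.coe_le_coe]
      have h1 := hmin j (Finset.mem_filter.2 ⟨Finset.mem_univ _, hTj⟩)
      have h2 : v j ≠ v i0 := fun h => hji (hinj _ _ h)
      omega
  have hF : Fil p F (v i0 + 1) (T i0) := by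
    have h1 : T i0 = -∑ j ∈ Finset.univ.erase i0, T j := by
      have h2 := Finset.add_sum_erase Finset.univ T (Finset.mem_univ i0)
      rw [hsum] at h2
      exact eq_neg_of_add_eq_zero_left h2
    rw [h1]
    exact Fil.neg (Fil.sum _ hrest)
  rw [← le_wt_iff, hv i0 hT0, WithTop.coe_le_coe] at hF
  omega

theorem pullback {p : ℕ} [hp : Fact p.Prime] {κ : Type} [Field κ] [CharP κ p] {G : Type}
    [Group G] [Fintype G] {g : G} {F : κ[X]} (D : WD p κ G g F) (hF : ¬ p ∣ F.natDegree)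
    (H : Subgroup G) (hD : D.Conn H) (h : κ[X]) (hh : ¬ p ∣ h.natDegree) :
    ∃ D' : WD p κ G g (F.comp h), D'.Conn H := by
  classical
  have hm : 0 < h.natDegree := Nat.pos_of_ne_zero fun h0 => hh (h0 ▸ dvd_zero p)
  obtain ⟨σE, hze, -, htau, hne, hwt⟩ := exists_sigmaE (p := p) F (RingHom.id κ) h hm
    (F.comp h) (by rw [Polynomial.map_id])
  have hze' : ∀ f : κ[X], σE (ze p F f) = ze p (F.comp h) (Polynomial.compRingHom h f) := by
    intro f
    rw [hze f, Polynomial.map_id]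
    rfl
  refine ⟨D.map (Polynomial.compRingHom h) σE hze' htau, ?_⟩
  intro h₀ hh₀ f hf
  change ∑ l, ze p (F.comp h) (f l) * σE (D.b l 1) = 0 at hf
  change ∑ l, ze p (F.comp h) (f l) * σE (D.b l h₀) = 0
  choose c hc using fun l => exists_expansion h hm (f l)
  let Θ : Fin h.natDegree → G → EE p F := fun i x => ∑ l, ze p F (c l i) * D.b l x
  have key : ∀ x, ∑ l, ze p (F.comp h) (f l) * σE (D.b l x) =
      ∑ i : Fin h.natDegree, ze p (F.comp h) (X ^ (i : ℕ)) * σE (Θ i x) := by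
    intro x
    have h1 : ∀ l, ze p (F.comp h) (f l) * σE (D.b l x) =
        ∑ i : Fin h.natDegree,
          ze p (F.comp h) (X ^ (i : ℕ)) * σE (ze p F (c l i) * D.b l x) := by
      intro l
      conv_lhs => rw [hc l]
      rw [map_sum, Finset.sum_mul]
      refine Finset.sum_congr rfl fun i _ => ?_
      rw [map_mul, map_mul, hze', Polynomial.coe_compRingHom_apply]
      ring
    rw [Finset.sum_congr rfl fun l _ => h1 l, Finset.sum_comm]
    refine Finset.sum_congr rfl fun i _ => ?_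
    rw [← Finset.mul_sum, ← map_sum]
  rw [key] at hf ⊢
  have hF' : ¬ p ∣ (F.comp h).natDegree := by
    rw [Polynomial.natDegree_comp]
    intro hd
    rcases hp.out.dvd_mul.1 hd with h1 | h1
    · exact hF h1
    · exact hh h1
  have hN : ∀ i : Fin h.natDegree, ∃ N : ℤ, Θ i 1 ≠ 0 → wt p F (Θ i 1) = (N : WithTop ℤ) := by
    intro i
    by_cases h0 : Θ i 1 = 0
    · exact ⟨0, fun h1 => absurd h0 h1⟩
    · have h1 : wt p F (Θ i 1) ≠ ⊤ := fun h2 => h0 ((wt_eq_top_iff _).1 h2)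
      obtain ⟨N, hN⟩ := WithTop.ne_top_iff_exists.1 h1
      exact ⟨N, fun _ => hN.symm⟩
  choose N hN using hN
  have hwT : ∀ i : Fin h.natDegree, Θ i 1 ≠ 0 →
      wt p (F.comp h) (ze p (F.comp h) (X ^ (i : ℕ)) * σE (Θ i 1)) =
        ((-((p : ℤ) * (i : ℕ)) + (h.natDegree : ℤ) * N i : ℤ) : WithTop ℤ) := by
    intro i hi
    rw [wt_mul hF', wt_ze _ (pow_ne_zero _ Polynomial.X_ne_zero), hwt _ _ (hN i hi),
      Polynomial.natDegree_X_pow, ← WithTop.coe_add]
  have hT : ∀ i : Fin h.natDegree, ze p (F.comp h) (X ^ (i : ℕ)) * σE (Θ i 1) = 0 := by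
    refine PB2_indep _ (fun i => -((p : ℤ) * (i : ℕ)) + (h.natDegree : ℤ) * N i) ?_ ?_ hf
    · intro i hi
      refine hwT i ?_
      intro h0
      apply hi
      rw [h0, map_zero, mul_zero]
    · intro i j hij
      have h1 : (h.natDegree : ℤ) ∣ (p : ℤ) * ((i : ℕ) - (j : ℕ) : ℤ) := by
        refine ⟨N i - N j, ?_⟩
        have hij' : -((p : ℤ) * (i : ℕ)) + (h.natDegree : ℤ) * N i =
            -((p : ℤ) * (j : ℕ)) + (h.natDegree : ℤ) * N j := hij
        linear_combination (-1 : ℤ) * hij'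
      have hcop : IsCoprime (h.natDegree : ℤ) (p : ℤ) := by
        rw [Nat.isCoprime_iff_coprime]
        exact ((Nat.Prime.coprime_iff_not_dvd hp.out).2 hh).symm
      have h2 : (h.natDegree : ℤ) ∣ ((i : ℕ) - (j : ℕ) : ℤ) := hcop.dvd_of_dvd_mul_left h1
      have hi := i.2
      have hj := j.2
      have h3 : ((i : ℕ) - (j : ℕ) : ℤ) = 0 := by
        refine Int.eq_zero_of_abs_lt_dvd h2 ?_
        rw [abs_lt]
        constructor <;> omega
      exact Fin.ext (by omega)
  have hΘ : ∀ i, Θ i 1 = 0 := by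
    intro i
    by_contra h0
    have h1 := hwT i h0
    rw [hT i, (wt_eq_top_iff _).2 rfl] at h1
    exact WithTop.coe_ne_top h1.symm
  have hΘ' : ∀ i, Θ i h₀ = 0 := fun i => hD h₀ hh₀ (fun l => c l i) (hΘ i)
  refine Finset.sum_eq_zero fun i _ => ?_
  rw [hΘ' i, map_zero, mul_zero]

end

end Pool.Agent.MP_1c8e06_ag.AI
end

section

set_option autoImplicit false

open Polynomial

namespace Pool.Agent.MP_1c8e06_ag.AI

noncomputable section

section E4b_aux

/-- The certificate over `k` gives `Conn'`. -/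
private theorem E4b_conn {p : ℕ} [hp : Fact p.Prime] {k : Type} [Field k] [CharP k p]
    {G : Type} [Group G] [Fintype G] {g : G} {F : k[X]} (D : WD p k G g F)
    (Nb dT : ℕ) (hNb : ∀ l x j, ∀ i : ℤ, i < -(Nb : ℤ) → (coordE p F (D.b l x) j).coeff i = 0)
    (hdT : ∀ i j, (D.T' i j).natDegree ≤ dT)
    (I : Finset (G × ℕ × ℤ)) (r : G → G × ℕ × ℤ → k)
    (hI : ∀ i ∈ I, i.2.1 < p ∧ ¬ (i.2.1 = 0 ∧ i.2.2 = 0))
    (hr : ∀ (x l : G) (d : ℕ), d ≤ Nb + dT →
        (coordE p F (D.b l 1) 0).coeff (d : ℤ) - (coordE p F (D.b l x) 0).coeff (d : ℤ) =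
          ∑ i ∈ I, r x i * (coordE p F (D.b l i.1) i.2.1).coeff (i.2.2 + d)) :
    D.Conn' ⊤ := by
  classical
  intro h _ f c hc
  -- degree bounds
  have h1 : ∀ m, ze p F (∑ l, f l * D.T l m) = ∑ x, ze p F (C (c x)) * D.b m x := by
    intro m
    rw [map_sum]
    have e1 : ∀ l, ze p F (f l * D.T l m) = ∑ x, ze p F (f l) * D.b l x * D.b m x := by
      intro l
      rw [map_mul, ← D.htr, Finset.mul_sum]
      exact Finset.sum_congr rfl fun x _ => by ring
    rw [Finset.sum_congr rfl fun l _ => e1 l, Finset.sum_comm]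
    refine Finset.sum_congr rfl fun x _ => ?_
    rw [← hc x, Finset.sum_mul]
  have hcoef : ∀ (P : k[X]) (n : ℤ), (coordE p F (ze p F P) 0).coeff n =
      if n ≤ 0 then P.coeff (-n).toNat else 0 := by
    intro P n
    rw [ze_apply, coordE_ofL, if_pos rfl, zinv_coeff]
  have h2 : ∀ m, (∑ l, f l * D.T l m).natDegree ≤ Nb := by
    intro m
    rw [Polynomial.natDegree_le_iff_coeff_eq_zero]
    intro n hn
    have h3 := hcoef (∑ l, f l * D.T l m) (-(n : ℤ))
    rw [if_pos (by omega)] at h3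
    rw [neg_neg, Int.toNat_natCast] at h3
    rw [← h3, h1, coordE_sum, HahnSeries.coeff_sum]
    refine Finset.sum_eq_zero fun x _ => ?_
    have h4 := coeff_coordE_X_pow_mul (p := p) (F := F) 0 (c x) (D.b m x) 0 (-(n : ℤ))
    rw [pow_zero, mul_one] at h4
    rw [h4, hNb m x 0 _ (by push_cast; omega), mul_zero]
  have h5 : ∀ n, f n = ∑ m, (∑ l, f l * D.T l m) * D.T' m n := by
    intro n
    have e1 : ∀ m, (∑ l, f l * D.T l m) * D.T' m n = ∑ l, f l * (D.T l m * D.T' m n) := by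
      intro m
      rw [Finset.sum_mul]
      exact Finset.sum_congr rfl fun l _ => by ring
    rw [Finset.sum_congr rfl fun m _ => e1 m, Finset.sum_comm]
    have e2 : ∀ l, ∑ m, f l * (D.T l m * D.T' m n) = if l = n then f l else 0 := by
      intro l
      rw [← Finset.mul_sum, D.TT']
      split_ifs <;> simp
    rw [Finset.sum_congr rfl fun l _ => e2 l, Finset.sum_ite_eq' Finset.univ n f,
      if_pos (Finset.mem_univ n)]
  have h6 : ∀ n, (f n).natDegree ≤ Nb + dT := by
    intro n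
    rw [h5 n]
    refine Polynomial.natDegree_sum_le_of_forall_le _ _ fun m _ => ?_
    exact (Polynomial.natDegree_mul_le).trans (Nat.add_le_add (h2 m) (hdT m n))
  -- the coefficient formula
  have h7 : ∀ (x : G) (j : ℕ) (n : ℤ), (coordE p F (ze p F (C (c x))) j).coeff n =
      ∑ l, ∑ d ∈ Finset.range (Nb + dT + 1),
        (f l).coeff d * (coordE p F (D.b l x) j).coeff (n + d) := by
    intro x j n
    rw [← hc x, coordE_sum, HahnSeries.coeff_sum]
    refine Finset.sum_congr rfl fun l _ => ?_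
    have e1 : f l = ∑ d ∈ Finset.range (Nb + dT + 1), C ((f l).coeff d) * X ^ d :=
      Polynomial.as_sum_range_C_mul_X_pow' (f l) (Nat.lt_succ_of_le (h6 l))
    conv_lhs => rw [e1]
    rw [map_sum, Finset.sum_mul, coordE_sum, HahnSeries.coeff_sum]
    refine Finset.sum_congr rfl fun d _ => ?_
    rw [coeff_coordE_X_pow_mul]
  have h8 : ∀ (x : G), (coordE p F (ze p F (C (c x))) 0).coeff 0 = c x := by
    intro x
    rw [hcoef, if_pos le_rfl]
    simp
  have h9 : ∀ (x : G) (j : ℕ) (n : ℤ), ¬ (j = 0 ∧ n = 0) →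
      (coordE p F (ze p F (C (c x))) j).coeff n = 0 := by
    intro x j n hjn
    rw [ze_apply, coordE_ofL]
    split_ifs with hj
    · rw [zinv_coeff]
      split_ifs with hn
      · rw [Polynomial.coeff_C, if_neg]
        intro h0
        exact hjn ⟨hj, by omega⟩
      · rfl
    · rfl
  have h10 : c 1 - c h = 0 := by
    rw [← h8 1, ← h8 h, h7 1 0 0, h7 h 0 0, ← Finset.sum_sub_distrib]
    have e1 : ∀ l, (∑ d ∈ Finset.range (Nb + dT + 1),
          (f l).coeff d * (coordE p F (D.b l 1) 0).coeff (0 + (d : ℤ))) -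
        (∑ d ∈ Finset.range (Nb + dT + 1),
          (f l).coeff d * (coordE p F (D.b l h) 0).coeff (0 + (d : ℤ))) =
        ∑ i ∈ I, r h i * ∑ d ∈ Finset.range (Nb + dT + 1),
          (f l).coeff d * (coordE p F (D.b l i.1) i.2.1).coeff (i.2.2 + d) := by
      intro l
      rw [← Finset.sum_sub_distrib]
      have e2 : ∀ d ∈ Finset.range (Nb + dT + 1),
          (f l).coeff d * (coordE p F (D.b l 1) 0).coeff (0 + (d : ℤ)) -
          (f l).coeff d * (coordE p F (D.b l h) 0).coeff (0 + (d : ℤ)) =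
          ∑ i ∈ I, r h i * ((f l).coeff d *
            (coordE p F (D.b l i.1) i.2.1).coeff (i.2.2 + d)) := by
        intro d hd
        rw [zero_add, ← mul_sub, hr h l d (by have := Finset.mem_range.1 hd; omega),
          Finset.mul_sum]
        exact Finset.sum_congr rfl fun i _ => by ring
      rw [Finset.sum_congr rfl e2, Finset.sum_comm]
      exact Finset.sum_congr rfl fun i _ => by rw [Finset.mul_sum]
    rw [Finset.sum_congr rfl fun l _ => e1 l, Finset.sum_comm]
    refine Finset.sum_eq_zero fun i hi => ?_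
    rw [← Finset.mul_sum, ← h7 i.1 i.2.1 i.2.2, h9 i.1 i.2.1 i.2.2 (hI i hi).2, mul_zero]
  exact (sub_eq_zero.1 h10).symm

/-- The specialisation, with all data over a subring. -/
private theorem E4b_sub {p : ℕ} [hp : Fact p.Prime] {k : Type} [Field k] [CharP k p]
    {κ : Type} [Field κ] [CharP κ p] {G : Type} [Group G] [Fintype G] {g : G}
    (R : Subring κ) [CharP R p] (F₀ : R[X]) {F : κ[X]} (hF₀ : F₀.map R.subtype = F)
    (D : WD p κ G g F)
    (hb : ∀ l x, CoefIn R (D.b l x))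
    (hμ : ∀ i j l n, (D.μ i j l).coeff n ∈ R) (hα : ∀ i j l n, (D.α i j l).coeff n ∈ R)
    (hν : ∀ l n, (D.ν l).coeff n ∈ R) (hT : ∀ i j n, (D.T i j).coeff n ∈ R)
    (hT' : ∀ i j n, (D.T' i j).coeff n ∈ R) (φ : R →+* k) (hlead : φ F₀.leadingCoeff ≠ 0)
    (Nb dT : ℕ) (hNb : ∀ l x j, ∀ i : ℤ, i < -(Nb : ℤ) → (coordE p F (D.b l x) j).coeff i = 0)
    (hdT : ∀ i j, (D.T' i j).natDegree ≤ dT)
    (I : Finset (G × ℕ × ℤ)) (r : G → G × ℕ × ℤ → κ) (hrR : ∀ x, ∀ i ∈ I, r x i ∈ R)
    (hI : ∀ i ∈ I, i.2.1 < p ∧ ¬ (i.2.1 = 0 ∧ i.2.2 = 0))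
    (hr : ∀ (x l : G) (d : ℕ), d ≤ Nb + dT →
        (coordE p F (D.b l 1) 0).coeff (d : ℤ) - (coordE p F (D.b l x) 0).coeff (d : ℤ) =
          ∑ i ∈ I, r x i * (coordE p F (D.b l i.1) i.2.1).coeff (i.2.2 + d)) :
    ∃ F' : k[X], F'.natDegree = F.natDegree ∧ ∃ D' : WD p k G g F', D'.Conn' ⊤ := by
  classical
  subst hF₀
  obtain ⟨D₀, hD₀, hT₀⟩ := exists_WD_subring R F₀ D hb hμ hα hν hT hT'
  have hinj : Function.Injective R.subtype := Subtype.val_injective
  refine ⟨F₀.map φ, ?_, D₀.map (mapRingHom φ) (mapE p φ F₀) (fun f => mapE_ze φ f)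
    (fun a => mapE_tau φ a), ?_⟩
  · rw [Polynomial.natDegree_map_of_leadingCoeff_ne_zero _ hlead,
      Polynomial.natDegree_map_eq_of_injective hinj]
  · have c1 : ∀ l x j (i : ℤ), (coordE p (F₀.map φ) (mapE p φ F₀ (D₀.b l x)) j).coeff i =
        φ ((coordE p F₀ (D₀.b l x) j).coeff i) := by
      intro l x j i
      rw [coordE_mapE, mapL_coeff]
    have c2 : ∀ l x j (i : ℤ), (coordE p (F₀.map R.subtype) (D.b l x) j).coeff i =
        R.subtype ((coordE p F₀ (D₀.b l x) j).coeff i) := by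
      intro l x j i
      rw [← hD₀, coordE_mapE, mapL_coeff]
    refine E4b_conn _ Nb dT ?_ ?_ I
      (fun x i => if hi : i ∈ I then φ ⟨r x i, hrR x i hi⟩ else 0) hI ?_
    · intro l x j i hi
      change (coordE p (F₀.map φ) (mapE p φ F₀ (D₀.b l x)) j).coeff i = 0
      rw [c1]
      have h1 := hNb l x j i hi
      rw [c2] at h1
      have h2 : (coordE p F₀ (D₀.b l x) j).coeff i = 0 := hinj (by rw [h1, map_zero])
      rw [h2, map_zero]
    · intro i j
      change ((D₀.T' i j).map φ).natDegree ≤ dT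
      refine (Polynomial.natDegree_map_le).trans ?_
      rw [← Polynomial.natDegree_map_eq_of_injective hinj (D₀.T' i j), hT₀]
      exact hdT i j
    · intro x l d hd
      change (coordE p (F₀.map φ) (mapE p φ F₀ (D₀.b l 1)) 0).coeff (d : ℤ) -
        (coordE p (F₀.map φ) (mapE p φ F₀ (D₀.b l x)) 0).coeff (d : ℤ) =
        ∑ i ∈ I, (if hi : i ∈ I then φ ⟨r x i, hrR x i hi⟩ else 0) *
          (coordE p (F₀.map φ) (mapE p φ F₀ (D₀.b l i.1)) i.2.1).coeff (i.2.2 + d)
      have h1 := hr x l d hd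
      have h2 : (coordE p F₀ (D₀.b l 1) 0).coeff (d : ℤ) -
          (coordE p F₀ (D₀.b l x) 0).coeff (d : ℤ) =
          ∑ i ∈ I, (if hi : i ∈ I then (⟨r x i, hrR x i hi⟩ : R) else 0) *
            (coordE p F₀ (D₀.b l i.1) i.2.1).coeff (i.2.2 + d) := by
        apply hinj
        rw [map_sub, ← c2, ← c2, h1, map_sum]
        refine Finset.sum_congr rfl fun i hi => ?_
        rw [map_mul, ← c2, dif_pos hi]
        rfl
      rw [c1, c1, ← map_sub, h2, map_sum]
      refine Finset.sum_congr rfl fun i hi => ?_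
      rw [map_mul, ← c1, dif_pos hi, dif_pos hi]

end E4b_aux

/-!
# Task E4b: specialisation of a connected cover

Proof.  (`n = F.natDegree ≥ 1`.)
1. `exists_finite_coef`: a finite set `S₀`.  Bound `Nb : ℕ` with
   `(coordE (b l x) j).coeff i = 0` for `i < -Nb` (all `l, x, j`), `dT : ℕ` a bound for the degrees of
   all `T' i j`, `N := Nb + dT`.  `exists_certificate D hD N`: `I`, `r`.
2. Let `S` be the finite set of: `S₀`, the coefficients of `F, μ, α, ν, T, T'`, `F.leadingCoeff⁻¹`, and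
   the `r x i`, `x : G`, `i ∈ I`.  `A := Algebra.adjoin k S : Subalgebra k κ`, of finite type over `k`.
   `φ : A →ₐ[k] k` from `exists_point`.  `R := A.toSubring`, `F = F₀.map R.subtype` with `F₀ : R[X]`
   (`subst`).  `D_R` from `exists_WD_subring`.  `D₀ := D_R.map (mapRingHom φ) (mapE p φ F₀) _ _`
   over `k`, `F' := F₀.map φ`.  `natDegree F' = natDegree F`: the leading coefficient of `F₀` is a unit
   of `R`, so it is not killed by `φ`.
3. Coefficients: `(coordE (D₀.b l x) j).coeff i = φ ((coordE (D_R.b l x) j).coeff i)` and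
   `R.subtype ((coordE (D_R.b l x) j).coeff i) = (coordE (D.b l x) j).coeff i` (`coordE_mapE`,
   `mapL_coeff`).  So the bound `Nb`, the degree bound `dT` for `D₀.T'`, and the certificate (with
   `φ (r x i)`) hold for `D₀`.
4. `Conn'`: let `f : G → k[X]`, `c : G → k` with `∑_l ze (f l) * D₀.b l x = ze (C (c x))` for all `x`.
   For each `m`: `ze (∑_l f l * T l m) = ∑_x ze (C (c x)) * b m x` (`htr`) has coordinate `0` vanishing
   below `-Nb`, so `natDegree (∑_l f l * T l m) ≤ Nb`; and `f n = ∑_m (∑_l f l * T l m) * T' m n`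
   (`WD.TT'`) has degree `≤ N`.  Write `f l = ∑_{d ≤ N} C (f l).coeff d * X^d`; then
   (`coeff_coordE_X_pow_mul`) for all `x, j, n`:
   `(coordE (ze (C (c x))) j).coeff n = ∑_l ∑_{d≤N} (f l).coeff d * (coordE (b l x) j).coeff (n + d)`,
   which is `c x` for `(j,n) = (0,0)` and `0` otherwise.  Multiply the certificate by `(f l).coeff d`
   and sum over `l, d ≤ N`: `c 1 - c x = ∑_{i ∈ I} φ(r x i) * 0 = 0`.
-/
theorem specialise {p : ℕ} [hp : Fact p.Prime] (k : Type) [Field k] [IsAlgClosed k] [CharP k p]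
    {κ : Type} [Field κ] [CharP κ p] [Algebra k κ] {G : Type} [Group G] [Fintype G] {g : G}
    {F : κ[X]} (D : WD p κ G g F) (hF : ¬ p ∣ F.natDegree) (hD : D.Conn ⊤) :
    ∃ F' : k[X], F'.natDegree = F.natDegree ∧ ∃ D' : WD p k G g F', D'.Conn' ⊤ := by
  classical
  have hF0 : F ≠ 0 := by
    rintro rfl
    exact hF (by simp)
  obtain ⟨S₀, hS₀⟩ := exists_finite_coef D
  -- bounds
  obtain ⟨Nb, hNb⟩ : ∃ Nb : ℕ, ∀ l x j, ∀ i : ℤ, i < -(Nb : ℤ) →
      (coordE p F (D.b l x) j).coeff i = 0 := by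
    refine ⟨Finset.univ.sup fun l => Finset.univ.sup fun x => (Finset.range p).sup fun j =>
      (-(coordE p F (D.b l x) j).order).toNat, fun l x j i hi => ?_⟩
    by_cases hj : j < p
    · have h1 : (-(coordE p F (D.b l x) j).order).toNat ≤
          Finset.univ.sup fun l => Finset.univ.sup fun x => (Finset.range p).sup fun j =>
            (-(coordE p F (D.b l x) j).order).toNat :=
        ((Finset.le_sup (f := fun j => (-(coordE p F (D.b l x) j).order).toNat)
          (Finset.mem_range.2 hj)).trans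
          (Finset.le_sup (f := fun x => (Finset.range p).sup fun j =>
            (-(coordE p F (D.b l x) j).order).toNat) (Finset.mem_univ x))).trans
          (Finset.le_sup (f := fun l => Finset.univ.sup fun x => (Finset.range p).sup fun j =>
            (-(coordE p F (D.b l x) j).order).toNat) (Finset.mem_univ l))
      refine HahnSeries.coeff_eq_zero_of_lt_order ?_
      have h2 := Int.self_le_toNat (-(coordE p F (D.b l x) j).order)
      omega
    · rw [coordE_of_le _ (not_lt.1 hj)]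
      rfl
  obtain ⟨dT, hdT⟩ : ∃ dT : ℕ, ∀ i j, (D.T' i j).natDegree ≤ dT :=
    ⟨Finset.univ.sup fun i => Finset.univ.sup fun j => (D.T' i j).natDegree, fun i j =>
      (Finset.le_sup (f := fun j => (D.T' i j).natDegree) (Finset.mem_univ j)).trans
        (Finset.le_sup (f := fun i => Finset.univ.sup fun j => (D.T' i j).natDegree)
          (Finset.mem_univ i))⟩
  obtain ⟨I, r, hI, hr⟩ := exists_certificate D hD (Nb + dT)
  -- the finitely generated algebra
  let S : Set κ := ↑S₀ ∪ ↑F.coeffs ∪ (⋃ i, ⋃ j, ⋃ l, ↑(D.μ i j l).coeffs) ∪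
    (⋃ i, ⋃ j, ⋃ l, ↑(D.α i j l).coeffs) ∪ (⋃ l, ↑(D.ν l).coeffs) ∪
    (⋃ i, ⋃ j, ↑(D.T i j).coeffs) ∪ (⋃ i, ⋃ j, ↑(D.T' i j).coeffs) ∪
    {F.leadingCoeff⁻¹} ∪ (⋃ x, ⋃ i ∈ I, {r x i})
  have hSfin : S.Finite := by
    refine Set.Finite.union (Set.Finite.union (Set.Finite.union (Set.Finite.union
      (Set.Finite.union (Set.Finite.union (Set.Finite.union (Set.Finite.union
        S₀.finite_toSet F.coeffs.finite_toSet) ?_) ?_) ?_) ?_) ?_) (Set.finite_singleton _)) ?_
    · exact Set.finite_iUnion fun i => Set.finite_iUnion fun j => Set.finite_iUnion fun l =>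
        Finset.finite_toSet _
    · exact Set.finite_iUnion fun i => Set.finite_iUnion fun j => Set.finite_iUnion fun l =>
        Finset.finite_toSet _
    · exact Set.finite_iUnion fun l => Finset.finite_toSet _
    · exact Set.finite_iUnion fun i => Set.finite_iUnion fun j => Finset.finite_toSet _
    · exact Set.finite_iUnion fun i => Set.finite_iUnion fun j => Finset.finite_toSet _
    · exact Set.finite_iUnion fun x => Set.Finite.biUnion I.finite_toSet
        fun i _ => Set.finite_singleton _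
  let A : Subalgebra k κ := Algebra.adjoin k S
  have hSA : ∀ c ∈ S, c ∈ A := fun c hc => Algebra.subset_adjoin hc
  have hft : Algebra.FiniteType k A :=
    (Subalgebra.fg_iff_finiteType A).1 (Subalgebra.fg_def.2 ⟨S, hSfin, rfl⟩)
  obtain ⟨φ⟩ := exists_point k A
  let R : Subring κ := A.toSubring
  let ψ : R →+* k := φ.toRingHom
  have hRp : CharP R p := RingHom.charP R.subtype Subtype.val_injective p
  have hco : ∀ P : κ[X], (∀ c ∈ P.coeffs, c ∈ S) → ∀ n, P.coeff n ∈ R := by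
    intro P hP n
    by_cases h0 : P.coeff n = 0
    · rw [h0]
      exact R.zero_mem
    · exact hSA _ (hP _ (Polynomial.coeff_mem_coeffs h0))
  have hSu : ∀ c, (c ∈ S₀ ∨ c ∈ F.coeffs ∨ (∃ i j l, c ∈ (D.μ i j l).coeffs) ∨
      (∃ i j l, c ∈ (D.α i j l).coeffs) ∨ (∃ l, c ∈ (D.ν l).coeffs) ∨
      (∃ i j, c ∈ (D.T i j).coeffs) ∨ (∃ i j, c ∈ (D.T' i j).coeffs) ∨
      c = F.leadingCoeff⁻¹ ∨ (∃ x, ∃ i ∈ I, c = r x i)) → c ∈ S := by
    intro c hc
    simp only [S, Set.mem_union, Set.mem_iUnion, Finset.mem_coe, Set.mem_singleton_iff,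
      exists_prop, or_assoc]
    exact hc
  have hFR : ∀ n, F.coeff n ∈ R := hco F fun c hc => hSu c (Or.inr (Or.inl hc))
  obtain ⟨F₀, hF₀⟩ : ∃ F₀ : R[X], F₀.map R.subtype = F :=
    ⟨F.toSubring R (fun c hc => hSA c (hSu c (Or.inr (Or.inl hc)))), Polynomial.map_toSubring _ _ _⟩
  have hlead0 : R.subtype F₀.leadingCoeff = F.leadingCoeff := by
    rw [← hF₀, Polynomial.leadingCoeff_map_of_injective Subtype.val_injective]
  have hlead : ψ F₀.leadingCoeff ≠ 0 := by
    have hinv : F.leadingCoeff⁻¹ ∈ R := hSA _ (hSu _ (by tauto))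
    have h1 : F₀.leadingCoeff * ⟨F.leadingCoeff⁻¹, hinv⟩ = 1 := by
      apply Subtype.val_injective
      change R.subtype F₀.leadingCoeff * F.leadingCoeff⁻¹ = 1
      rw [hlead0]
      exact mul_inv_cancel₀ (Polynomial.leadingCoeff_ne_zero.2 hF0)
    intro h0
    have h2 := congrArg ψ h1
    rw [map_mul, h0, zero_mul, map_one] at h2
    exact zero_ne_one h2
  refine E4b_sub R F₀ hF₀ D (hS₀ R fun c hc => hSA c (hSu c (Or.inl hc)))
    (fun i j l => hco _ fun c hc => hSu c ?_) (fun i j l => hco _ fun c hc => hSu c ?_)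
    (fun l => hco _ fun c hc => hSu c ?_) (fun i j => hco _ fun c hc => hSu c ?_)
    (fun i j => hco _ fun c hc => hSu c ?_) ψ hlead Nb dT hNb hdT I r
    (fun x i hi => hSA _ (hSu _ ?_)) hI hr
  · exact Or.inr (Or.inr (Or.inl ⟨i, j, l, hc⟩))
  · exact Or.inr (Or.inr (Or.inr (Or.inl ⟨i, j, l, hc⟩)))
  · exact Or.inr (Or.inr (Or.inr (Or.inr (Or.inl ⟨l, hc⟩))))
  · exact Or.inr (Or.inr (Or.inr (Or.inr (Or.inr (Or.inl ⟨i, j, hc⟩)))))
  · exact Or.inr (Or.inr (Or.inr (Or.inr (Or.inr (Or.inr (Or.inl ⟨i, j, hc⟩))))))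
  · exact Or.inr (Or.inr (Or.inr (Or.inr (Or.inr (Or.inr (Or.inr (Or.inr ⟨x, i, hi, rfl⟩)))))))

end

end Pool.Agent.MP_1c8e06_ag.AI
end

section

set_option autoImplicit false

open Polynomial

namespace Pool.Agent.MP_1c8e06_ag.AI

noncomputable section

/-!
# Task TR5: from covering data to the frozen formula (assembly)

Proof.  `exists_FD`, `inertia_affine`, `exists_place`, with `e := I.ρ.symm`.
Second theorem: `specialise` and `conn_of_conn'` first (`F'.natDegree = F.natDegree`).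
-/
theorem realised_of_WD {p : ℕ} [hp : Fact p.Prime] {k : Type} [Field k] [CharP k p] {G : Type}
    [Group G] [Fintype G] {g : G} {F : k[X]} (D : WD p k G g F) (hF : ¬ p ∣ F.natDegree)
    (hD : D.Conn ⊤) : Realised k G (Subgroup.zpowers g) := by
  obtain ⟨L, i1, i2, i3, i4, ⟨I⟩⟩ := exists_FD D hF hD
  exact ⟨L, i1, i2, i3, i4, I.ρ.symm, fun O hk hX => inertia_affine D hF I O hk hX,
    exists_place D hF I⟩

theorem realised_of_WD_ext {p : ℕ} [hp : Fact p.Prime] (k : Type) [Field k] [IsAlgClosed k]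
    [CharP k p] {κ : Type} [Field κ] [CharP κ p] [Algebra k κ] {G : Type} [Group G] [Fintype G]
    {g : G} {F : κ[X]} (D : WD p κ G g F) (hF : ¬ p ∣ F.natDegree) (hD : D.Conn ⊤) :
    Realised k G (Subgroup.zpowers g) := by
  obtain ⟨F', hF', D', hD'⟩ := specialise k D hF hD
  rw [← hF'] at hF
  exact realised_of_WD D' hF (conn_of_conn' D' hF ⊤ hD')

end

end Pool.Agent.MP_1c8e06_ag.AI
end
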