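import Pool.Agent.Lib.MP_1c8e06_ag.AJ.Defs
import Pool.Agent.Lib.MP_1c8e06_ag.AJ.A1
import Pool.Agent.Lib.MP_1c8e06_ag.AJ.Defs2

section

set_option autoImplicit false

open Polynomial
open scoped Classical

namespace Pool.Agent.MP_1c8e06_ag.AJ

noncomputable section

/-!
# Task A2: linear algebra of the data `GD`

Proofs.  Let `M : Matrix G G A`, `M x l = b l x`, and `T, T'` mapped to `A` by `ze`.  `htr` says
`Mᵀ M = T`, `hdual` says `M T' Mᵀ = 1`.  Square matrices over a commutative ring: `M (T' Mᵀ) = 1`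
implies `(T' Mᵀ) M = 1` (`Matrix.mul_eq_one_comm`), i.e. `T' T = 1` over `A`, and then `T T' = 1`; `ze` is
injective, so the same holds over `B`.  `T` is symmetric (`htr`), hence `T'` is symmetric.
* `coord_unique`: apply the ring homomorphism `j`: `(a ᵥ* (M^j)ᵀ) = 0`, multiply by the inverse
  of `(M^j)ᵀ`, which is `(T' Mᵀ M = 1)`: i.e. multiply the relation at `x` by
  `j (∑_m ze (T' n m) b m x)` and sum over `x`; use `∑_x b l x * (∑_m ze (T' n m) b m x) = δ` (`dual_left`).
* `exists_coord`: `c l := ∑_x f x * ∑_m ze (T' m l) * b m x` is fixed by every `act u`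
  (reindex `x ↦ i u * x`; `hP`, and `act u (ze _) = ze _`: hypothesis `hz`), so it is `ze` of
  something; `f x = ∑_l c l * b l x` by `hdual`.
* `uniq`: `T` from `htr` and injectivity; `μ, α, ν` by `coord_eq` (coordinates of `b j * b l`, of
  `x ↦ b l (x h)`, of `1`); `T'` is the inverse of `T` (`TT'`, `T'T`).  The constants are `D.k.μ` etc.
  (`Ks` has no ext attribute: use `cases` on both `k` and `congr`/`simp`.)
* `compare`: `exists_coord` for the functions `D.b l` and the data `D'` gives `g`; the other way round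
  `gi`; `g * gi = 1` by `coord_eq`.
* `conn_sup`: let `Q h` mean: for every locally constant `(f, c)`: `c h = c 1`.  If `(f, c)` is locally
  constant and `y : G`, then so is `(f', c')` with `f' m = ∑ l, f l * α y l m`, `c' x = c (x y)`
  (`hact`).  Hence `Q h` gives `c (h y) = c y` for all `y`, `Q` is closed under products, and
  (finite group) under inverses: `{h | Q h}` is a subgroup containing `H₁` and `H₂`.
-/

variable {B : Type} [CommRing B] {P : Type} [Group P] [Fintype P] {G : Type} [Group G] [Fintype G]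
  {i : P →* G} {A : Type} [CommRing A] {ze : B →+* A} {act : P →* (A →+* A)}

private def A2_B (D : GD i ze act) : Matrix G G A := Matrix.of fun x l => D.b l x

private def A2_T (D : GD i ze act) : Matrix G G A := Matrix.of fun a b => ze (D.k.T a b)

private def A2_T' (D : GD i ze act) : Matrix G G A := Matrix.of fun a b => ze (D.k.T' a b)

private theorem A2_BB (D : GD i ze act) : (A2_B D).transpose * A2_B D = A2_T D := by
  ext a b
  rw [Matrix.mul_apply]
  simp only [Matrix.transpose_apply, A2_B, A2_T, Matrix.of_apply]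
  exact D.htr a b

private theorem A2_dual (D : GD i ze act) :
    A2_B D * (A2_T' D * (A2_B D).transpose) = 1 := by
  ext x x'
  rw [Matrix.mul_apply, Matrix.one_apply, ← D.hdual x x']
  refine Finset.sum_congr rfl fun l _ => ?_
  rw [Matrix.mul_apply, Finset.mul_sum]
  refine Finset.sum_congr rfl fun m _ => ?_
  simp only [Matrix.transpose_apply, A2_B, A2_T', Matrix.of_apply]
  rw [mul_assoc]

private theorem A2_T'T (D : GD i ze act) : A2_T' D * A2_T D = 1 := by
  have h := mul_eq_one_comm.1 (A2_dual D)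
  rwa [Matrix.mul_assoc, A2_BB] at h

private theorem A2_TT' (D : GD i ze act) : A2_T D * A2_T' D = 1 :=
  mul_eq_one_comm.1 (A2_T'T D)

private theorem A2_Tsymm (D : GD i ze act) : (A2_T D).transpose = A2_T D := by
  ext a b
  simp only [Matrix.transpose_apply, A2_T, Matrix.of_apply]
  rw [← D.htr, ← D.htr]
  exact Finset.sum_congr rfl fun x _ => mul_comm _ _

private theorem A2_T'symm (D : GD i ze act) : (A2_T' D).transpose = A2_T' D := by
  have h1 := congrArg Matrix.transpose (A2_TT' D)
  rw [Matrix.transpose_mul, Matrix.transpose_one, A2_Tsymm] at h1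
  calc (A2_T' D).transpose = (A2_T' D).transpose * (A2_T D * A2_T' D) := by
        rw [A2_TT', Matrix.mul_one]
    _ = A2_T' D := by rw [← Matrix.mul_assoc, h1, Matrix.one_mul]

theorem GD.dual_left (D : GD i ze act) (l n : G) :
    ∑ x, D.b l x * ∑ m, ze (D.k.T' n m) * D.b m x = if l = n then 1 else 0 := by
  have h : (A2_B D).transpose * (A2_B D * (A2_T' D).transpose) = 1 := by
    rw [← Matrix.mul_assoc, A2_BB, A2_T'symm, A2_TT']
  have h2 := congrFun (congrFun h l) n
  rw [Matrix.mul_apply, Matrix.one_apply] at h2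
  have h3 : ∑ x, D.b l x * ∑ m, ze (D.k.T' n m) * D.b m x =
      ∑ j, (A2_B D).transpose l j * (A2_B D * (A2_T' D).transpose) j n := by
    refine Finset.sum_congr rfl fun x _ => ?_
    rw [Matrix.mul_apply]
    simp only [Matrix.transpose_apply, A2_B, A2_T', Matrix.of_apply]
    congr 1
    exact Finset.sum_congr rfl fun m _ => mul_comm _ _
  rw [h3, h2]

theorem GD.coord_unique (D : GD i ze act) {A' : Type} [CommRing A'] (j : A →+* A') (a : G → A')
    (h : ∀ x, ∑ l, a l * j (D.b l x) = 0) : a = 0 := by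
  funext n
  have h1 : ∑ x, (∑ l, a l * j (D.b l x)) * j (∑ m, ze (D.k.T' n m) * D.b m x) = a n := by
    calc ∑ x, (∑ l, a l * j (D.b l x)) * j (∑ m, ze (D.k.T' n m) * D.b m x)
        = ∑ x, ∑ l, a l * j (D.b l x * ∑ m, ze (D.k.T' n m) * D.b m x) := by
          refine Finset.sum_congr rfl fun x _ => ?_
          rw [Finset.sum_mul]
          refine Finset.sum_congr rfl fun l _ => ?_
          rw [map_mul, mul_assoc]
      _ = ∑ l, a l * j (∑ x, D.b l x * ∑ m, ze (D.k.T' n m) * D.b m x) := by
          rw [Finset.sum_comm]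
          refine Finset.sum_congr rfl fun l _ => ?_
          rw [map_sum, Finset.mul_sum]
      _ = ∑ l, a l * j (if l = n then 1 else 0) := by
          refine Finset.sum_congr rfl fun l _ => ?_
          rw [D.dual_left l n]
      _ = a n := by
          rw [Finset.sum_eq_single n]
          · simp
          · intro l _ hl
            rw [if_neg hl, map_zero, mul_zero]
          · intro hn
            exact absurd (Finset.mem_univ n) hn
  rw [← h1]
  refine Finset.sum_eq_zero fun x _ => ?_
  rw [h x, zero_mul]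

theorem GD.coord_eq (D : GD i ze act) (hze : Function.Injective ze) (a a' : G → B)
    (h : ∀ x, ∑ l, ze (a l) * D.b l x = ∑ l, ze (a' l) * D.b l x) : a = a' := by
  have h1 := D.coord_unique (RingHom.id A) (fun l => ze (a l) - ze (a' l)) (by
    intro x
    simp only [RingHom.id_apply, sub_mul, Finset.sum_sub_distrib]
    rw [h x, sub_self])
  funext l
  exact hze (sub_eq_zero.1 (congrFun h1 l))

theorem GD.T_symm (D : GD i ze act) (hze : Function.Injective ze) (j l : G) :
    D.k.T j l = D.k.T l j := by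
  apply hze
  rw [← D.htr, ← D.htr]
  exact Finset.sum_congr rfl fun x _ => mul_comm _ _

theorem GD.TT' (D : GD i ze act) (hze : Function.Injective ze) (j l : G) :
    ∑ m, D.k.T j m * D.k.T' m l = if j = l then 1 else 0 := by
  apply hze
  have h := congrFun (congrFun (A2_TT' D) j) l
  rw [Matrix.mul_apply, Matrix.one_apply] at h
  simp only [A2_T, A2_T', Matrix.of_apply] at h
  rw [map_sum]
  simp only [map_mul]
  rw [h]
  split_ifs <;> simp

theorem GD.T'T (D : GD i ze act) (hze : Function.Injective ze) (j l : G) :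
    ∑ m, D.k.T' j m * D.k.T m l = if j = l then 1 else 0 := by
  apply hze
  have h := congrFun (congrFun (A2_T'T D) j) l
  rw [Matrix.mul_apply, Matrix.one_apply] at h
  simp only [A2_T, A2_T', Matrix.of_apply] at h
  rw [map_sum]
  simp only [map_mul]
  rw [h]
  split_ifs <;> simp

theorem GD.T'_symm (D : GD i ze act) (hze : Function.Injective ze) (j l : G) :
    D.k.T' j l = D.k.T' l j := by
  apply hze
  exact (congrFun (congrFun (A2_T'symm D) j) l).symm

theorem GD.exists_coord (D : GD i ze act) (hz : ∀ u b, act u (ze b) = ze b)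
    (hfix : ∀ a : A, (∀ u, act u a = a) → ∃ c, a = ze c) (f : G → A)
    (hf : ∀ u x, f (i u * x) = act u (f x)) :
    ∃ c : G → B, ∀ x, f x = ∑ l, ze (c l) * D.b l x := by
  have hd : ∀ l, ∃ c, ∑ x, f x * ∑ m, ze (D.k.T' l m) * D.b m x = ze c := by
    intro l
    apply hfix
    intro u
    rw [map_sum]
    refine Fintype.sum_equiv (Equiv.mulLeft (i u)) _ _ fun x => ?_
    rw [map_mul, map_sum]
    simp only [Equiv.coe_mulLeft, map_mul, hz, hf, D.hP]
  choose c hc using hd
  refine ⟨c, fun x => ?_⟩
  have e1 : ∑ l, ze (c l) * D.b l x =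
      ∑ x', f x' * ∑ l, ∑ m, D.b l x * ze (D.k.T' l m) * D.b m x' := by
    simp only [← hc, Finset.sum_mul, Finset.mul_sum]
    rw [Finset.sum_comm]
    refine Finset.sum_congr rfl fun x' _ => Finset.sum_congr rfl fun l _ =>
      Finset.sum_congr rfl fun m _ => ?_
    ring
  rw [e1]
  simp only [D.hdual]
  rw [Finset.sum_eq_single x]
  · simp
  · intro x' _ hx'
    rw [if_neg (Ne.symm hx'), mul_zero]
  · intro h
    exact absurd (Finset.mem_univ x) h

theorem GD.uniq (D D' : GD i ze act) (hze : Function.Injective ze)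
    (hb : ∀ l x, D.b l x = D'.b l x) : D.k = D'.k := by
  have hμ : D.k.μ = D'.k.μ := by
    funext j l
    refine D.coord_eq hze _ _ fun x => ?_
    rw [← D.hmul]
    simp only [hb]
    exact D'.hmul j l x
  have hα : D.k.α = D'.k.α := by
    funext h l
    refine D.coord_eq hze _ _ fun x => ?_
    rw [← D.hact]
    simp only [hb]
    exact D'.hact h l x
  have hν : D.k.ν = D'.k.ν := by
    refine D.coord_eq hze _ _ fun x => ?_
    rw [D.hone]
    simp only [hb]
    exact (D'.hone x).symm
  have hT : D.k.T = D'.k.T := by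
    funext j l
    apply hze
    rw [← D.htr, ← D'.htr]
    simp only [hb]
  have hT' : D.k.T' = D'.k.T' := by
    have h1 : (Matrix.of D.k.T' : Matrix G G B) * Matrix.of D.k.T = 1 := by
      ext a b
      rw [Matrix.mul_apply, Matrix.one_apply]
      exact D.T'T hze a b
    have h2 : (Matrix.of D'.k.T : Matrix G G B) * Matrix.of D'.k.T' = 1 := by
      ext a b
      rw [Matrix.mul_apply, Matrix.one_apply]
      exact D'.TT' hze a b
    have h3 : (Matrix.of D.k.T' : Matrix G G B) = Matrix.of D'.k.T' := by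
      calc (Matrix.of D.k.T' : Matrix G G B)
          = Matrix.of D.k.T' * (Matrix.of D'.k.T * Matrix.of D'.k.T') := by
            rw [h2, Matrix.mul_one]
        _ = Matrix.of D'.k.T' := by rw [← Matrix.mul_assoc, ← hT, h1, Matrix.one_mul]
    exact Matrix.of.injective h3
  cases hk : D.k with
  | mk μ α ν T T' =>
    cases hk' : D'.k with
    | mk μ₂ α₂ ν₂ T₂ T'₂ =>
      rw [hk, hk'] at hμ hα hν hT hT'
      simp only at hμ hα hν hT hT'
      subst hμ hα hν hT hT'
      rfl

theorem GD.compare (D D' : GD i ze act) (hze : Function.Injective ze)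
    (hz : ∀ u b, act u (ze b) = ze b) (hfix : ∀ a : A, (∀ u, act u a = a) → ∃ c, a = ze c) :
    ∃ g gi : Matrix G G B, g * gi = 1 ∧ gi * g = 1 ∧
      (∀ l x, D.b l x = ∑ m, ze (g l m) * D'.b m x) ∧
      ∀ l x, D'.b l x = ∑ m, ze (gi l m) * D.b m x := by
  have h1 : ∀ l, ∃ c : G → B, ∀ x, D.b l x = ∑ m, ze (c m) * D'.b m x := fun l =>
    D'.exists_coord hz hfix (D.b l) fun u x => D.hP u l x
  have h2 : ∀ l, ∃ c : G → B, ∀ x, D'.b l x = ∑ m, ze (c m) * D.b m x := fun l =>
    D.exists_coord hz hfix (D'.b l) fun u x => D'.hP u l x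
  choose g hg using h1
  choose gi hgi using h2
  have h3 : (Matrix.of g : Matrix G G B) * Matrix.of gi = 1 := by
    refine funext fun l => ?_
    refine D.coord_eq hze _ _ fun x => ?_
    have e1 : ∑ n, ze (((Matrix.of g : Matrix G G B) * Matrix.of gi) l n) * D.b n x =
        D.b l x := by
      rw [hg l x]
      simp only [hgi, Matrix.mul_apply, Matrix.of_apply, map_sum, map_mul, Finset.sum_mul,
        Finset.mul_sum]
      rw [Finset.sum_comm]
      refine Finset.sum_congr rfl fun m _ => Finset.sum_congr rfl fun n _ => ?_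
      ring
    have e2 : ∑ n, ze ((1 : Matrix G G B) l n) * D.b n x = D.b l x := by
      rw [Finset.sum_eq_single l]
      · rw [Matrix.one_apply_eq, map_one, one_mul]
      · intro n _ hn
        rw [Matrix.one_apply_ne (Ne.symm hn), map_zero, zero_mul]
      · intro h
        exact absurd (Finset.mem_univ l) h
    rw [e1, e2]
  exact ⟨Matrix.of g, Matrix.of gi, h3, mul_eq_one_comm.1 h3, hg, hgi⟩

private theorem A2_translate {R : Type} [CommRing R] {ze : R[X] →+* A} {act : P →* (A →+* A)}
    (D : GD i ze act) {H : Subgroup G} (hD : D.Conn' H) {h : G} (hh : h ∈ H) (f : G → R[X])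
    (c : G → R) (hf : ∀ x, ∑ l, ze (f l) * D.b l x = ze (C (c x))) (y : G) :
    c (h * y) = c y := by
  have h1 := hD h hh (fun m => ∑ l, f l * D.k.α y l m) (fun x => c (x * y)) (by
    intro x
    rw [← hf (x * y)]
    simp only [D.hact, map_sum, map_mul, Finset.sum_mul, Finset.mul_sum]
    rw [Finset.sum_comm]
    refine Finset.sum_congr rfl fun l _ => Finset.sum_congr rfl fun m _ => ?_
    ring)
  simpa using h1

theorem GD.conn_sup {R : Type} [CommRing R] {ze : R[X] →+* A} {act : P →* (A →+* A)}
    (D : GD i ze act) {H₁ H₂ : Subgroup G} (h₁ : D.Conn' H₁) (h₂ : D.Conn' H₂) :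
    D.Conn' (H₁ ⊔ H₂) := by
  have key : ∀ h ∈ Subgroup.closure ((H₁ : Set G) ∪ H₂),
      (∀ (f : G → R[X]) (c : G → R), (∀ x, ∑ l, ze (f l) * D.b l x = ze (C (c x))) →
        ∀ y, c (h * y) = c y) ∧
      (∀ (f : G → R[X]) (c : G → R), (∀ x, ∑ l, ze (f l) * D.b l x = ze (C (c x))) →
        ∀ y, c (h⁻¹ * y) = c y) := by
    intro h hh
    induction hh using Subgroup.closure_induction with
    | mem y hy =>
      rcases hy with hy | hy
      · exact ⟨fun f c hf => A2_translate D h₁ hy f c hf, fun f c hf =>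
          A2_translate D h₁ (inv_mem hy) f c hf⟩
      · exact ⟨fun f c hf => A2_translate D h₂ hy f c hf, fun f c hf =>
          A2_translate D h₂ (inv_mem hy) f c hf⟩
    | one => exact ⟨fun f c _ y => by rw [one_mul], fun f c _ y => by rw [inv_one, one_mul]⟩
    | mul a b _ _ ha hb =>
      constructor
      · intro f c hf y
        rw [mul_assoc, ha.1 f c hf, hb.1 f c hf]
      · intro f c hf y
        rw [mul_inv_rev, mul_assoc, hb.2 f c hf, ha.2 f c hf]
    | inv y _ hy =>
      refine ⟨hy.2, ?_⟩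
      rw [inv_inv]
      exact hy.1
  intro h hh f c hf
  rw [Subgroup.sup_eq_closure] at hh
  have h1 := (key h hh).1 f c hf 1
  rwa [mul_one] at h1

theorem GD.conn_translate {R : Type} [CommRing R] {ze : R[X] →+* A} {act : P →* (A →+* A)}
    (D : GD i ze act) {H : Subgroup G} (hD : D.Conn' H) {h : G} (hh : h ∈ H) (f : G → R[X])
    (c : G → R) (hf : ∀ x, ∑ l, ze (f l) * D.b l x = ze (C (c x))) (y : G) : c (h * y) = c y := by
  exact A2_translate D hD hh f c hf y

end

end Pool.Agent.MP_1c8e06_ag.AJ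
end

section

set_option autoImplicit false

open Polynomial
open scoped Classical

namespace Pool.Agent.MP_1c8e06_ag.AJ

noncomputable section

/-!
# Task A4: structure constants and explicit data

* `Al.exists_univ`: `b l x := act x (e l)`, constants those of `S`.
  `hmul`: `act x` of `e_mul_e`; `hact`: `act (x h) (e l) = act x (act h (e l))` and `act_e`;
  `hone`: `act x` of `one_eq_sum`; `htr`: `tr_ee`; `hdual`:
  `∑ act x (e l) * cst (T' l m) * act x' (e m) = act x (∑ cst (T' l m) e l * act (x⁻¹ x') (e m))`, `dual_e`.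
* `GD.exists_SC`: the axioms of `SC` follow from the identities of functions on `G` and the
  uniqueness of coordinates (`GD.coord_eq`): e.g. `assoc`: both sides are the `l`-coordinate of
  `b i * b j * b k`; `α_mul`: `b l (x g h)`; `α_one`: `b l (x 1) = b l x`;
  `tr`: `∑_y (b i b j)(x y) = ze (T i j)` for every `x`, and `b m (x y) = ∑ ze (α y m n) b n x`;
  `dual`: `∑_{l,m} b l x * ze (T' l m) * b m (x y) = if y = 1 then 1 else 0` for every `x`
  (`hdual` with `x' = x y`).
* `El` facts: `oE`, `zeE` are injective (`cst_injective`, `AI.zinv_injective`), fixed elements: `fixed`.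
  `El((t))`: coefficientwise (`oL_coeff`, `actL_coeff`; the Laurent series `c` has the coefficients
  from `fixedE`, zero where `a.coeff n = 0`, as `oE` is injective).
-/

theorem Al.exists_univ {B : Type} [CommRing B] {P : Type} [Group P] [Fintype P] (S : SC B P) :
    ∃ D : GD (MonoidHom.id P) (Al.cst S) (Al.act S), D.k = S.ks ∧
      ∀ l x, D.b l x = Al.act S x (Al.e S l) := by
  refine ⟨{ b := fun l x => Al.act S x (Al.e S l)
            k := S.ks
            hP := ?_
            hmul := ?_
            hact := ?_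
            hone := ?_
            htr := ?_
            hdual := ?_ }, rfl, fun _ _ => rfl⟩
  · intro u l x
    rw [MonoidHom.id_apply, Al.act_mul_apply]
  · intro j l x
    rw [← map_mul, Al.e_mul_e, map_sum]
    refine Finset.sum_congr rfl fun m _ => ?_
    rw [map_mul, Al.act_cst]
    rfl
  · intro h l x
    rw [Al.act_mul_apply, Al.act_e, map_sum]
    refine Finset.sum_congr rfl fun m _ => ?_
    rw [map_mul, Al.act_cst]
    rfl
  · intro x
    have h1 := congrArg (Al.act S x) (Al.one_eq_sum S)
    rw [map_one, map_sum] at h1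
    rw [h1]
    refine Finset.sum_congr rfl fun l _ => ?_
    rw [map_mul, Al.act_cst]
    rfl
  · intro j l
    have h1 := tr_ee S j l
    simp only [map_mul] at h1
    exact h1
  · intro x x'
    have h1 := congrArg (Al.act S x) (dual_e S (x⁻¹ * x'))
    have h2 : Al.act S x (if x⁻¹ * x' = 1 then 1 else 0) = if x = x' then 1 else 0 := by
      by_cases h : x = x'
      · rw [if_pos h, if_pos (by rw [h, inv_mul_cancel]), map_one]
      · rw [if_neg h, if_neg (fun h' => h (inv_mul_eq_one.1 h')), map_zero]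
    rw [h2, map_sum] at h1
    rw [← h1]
    refine Finset.sum_congr rfl fun l _ => ?_
    rw [map_sum]
    refine Finset.sum_congr rfl fun m _ => ?_
    rw [map_mul, map_mul, Al.act_cst, ← Al.act_mul_apply, mul_inv_cancel_left,
      mul_comm (Al.act S x (Al.e S l))]
    rfl

theorem GD.exists_SC {B : Type} [CommRing B] {P : Type} [Group P] [Fintype P] {G : Type} [Group G]
    [Fintype G] {i : P →* G} {A : Type} [CommRing A] {ze : B →+* A} {act : P →* (A →+* A)}
    (D : GD i ze act) (hze : Function.Injective ze) : ∃ S : SC B G, S.ks = D.k := by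
  have key := D.coord_eq hze
  have hsum : ∀ (c : G → B) (M : G → G → B) (x : G),
      ∑ l, ze (∑ m, c m * M m l) * D.b l x = ∑ m, ze (c m) * ∑ l, ze (M m l) * D.b l x := by
    intro c M x
    simp only [map_sum, map_mul, Finset.sum_mul, Finset.mul_sum]
    rw [Finset.sum_comm]
    refine Finset.sum_congr rfl fun m _ => Finset.sum_congr rfl fun l _ => ?_
    ring
  have hdel : ∀ (j x : G), ∑ l, ze (if j = l then 1 else 0) * D.b l x = D.b j x := by
    intro j x
    rw [Finset.sum_eq_single j]
    · rw [if_pos rfl, map_one, one_mul]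
    · intro l _ hl
      rw [if_neg (Ne.symm hl), map_zero, zero_mul]
    · intro h
      exact absurd (Finset.mem_univ j) h
  refine ⟨{ μ := D.k.μ
            α := D.k.α
            ν := D.k.ν
            T := D.k.T
            T' := D.k.T'
            comm := ?_
            assoc := ?_
            unit := ?_
            α_one := ?_
            α_mul := ?_
            α_μ := ?_
            α_ν := ?_
            tr := ?_
            dual := ?_ }, rfl⟩
  · intro i j l
    refine congrFun (key (D.k.μ i j) (D.k.μ j i) fun x => ?_) l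
    rw [← D.hmul, ← D.hmul, mul_comm]
  · intro i j k l
    refine congrFun (key (fun l => ∑ m, D.k.μ i j m * D.k.μ m k l)
      (fun l => ∑ m, D.k.μ j k m * D.k.μ i m l) fun x => ?_) l
    rw [hsum, hsum (D.k.μ j k) (fun m l => D.k.μ i m l)]
    simp only [← D.hmul]
    have e1 : ∀ m, ze (D.k.μ i j m) * (D.b m x * D.b k x) =
        (ze (D.k.μ i j m) * D.b m x) * D.b k x := fun m => by ring
    have e2 : ∀ m, ze (D.k.μ j k m) * (D.b i x * D.b m x) =
        (ze (D.k.μ j k m) * D.b m x) * D.b i x := fun m => by ring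
    simp only [e1, e2]
    rw [← Finset.sum_mul, ← Finset.sum_mul, ← D.hmul, ← D.hmul]
    ring
  · intro j l
    refine congrFun (key (fun l => ∑ i, D.k.ν i * D.k.μ i j l)
      (fun l => if j = l then 1 else 0) fun x => ?_) l
    rw [hsum D.k.ν (fun i l => D.k.μ i j l), hdel]
    simp only [← D.hmul]
    have e1 : ∀ m, ze (D.k.ν m) * (D.b m x * D.b j x) =
        (ze (D.k.ν m) * D.b m x) * D.b j x := fun m => by ring
    simp only [e1]
    rw [← Finset.sum_mul, D.hone, one_mul]
  · intro l m
    refine congrFun (key (D.k.α 1 l) (fun m => if l = m then 1 else 0) fun x => ?_) m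
    rw [← D.hact, hdel, mul_one]
  · intro g h l n
    refine congrFun (key (D.k.α (g * h) l) (fun n => ∑ m, D.k.α h l m * D.k.α g m n)
      fun x => ?_) n
    rw [← D.hact, hsum, ← mul_assoc, D.hact h l (x * g)]
    simp only [D.hact g]
  · intro h i j l
    refine congrFun (key (fun l => ∑ m, D.k.μ i j m * D.k.α h m l)
      (fun l => ∑ m, ∑ n, D.k.α h i m * D.k.α h j n * D.k.μ m n l) fun x => ?_) l
    rw [hsum (D.k.μ i j) (fun m l => D.k.α h m l)]
    simp only [← D.hact]
    rw [← D.hmul, D.hact h i, D.hact h j, Finset.sum_mul_sum]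
    simp only [map_sum, map_mul, Finset.sum_mul]
    rw [Finset.sum_comm]
    rw [Finset.sum_comm (s := Finset.univ (α := G)) (t := Finset.univ (α := G))
      (f := fun l m => ∑ n, ze (D.k.α h i m) * ze (D.k.α h j n) * ze (D.k.μ m n l) * D.b l x)]
    rw [Finset.sum_comm]
    refine Finset.sum_congr rfl fun m _ => ?_
    rw [Finset.sum_comm]
    refine Finset.sum_congr rfl fun n _ => ?_
    calc ze (D.k.α h i m) * D.b m x * (ze (D.k.α h j n) * D.b n x)
        = ze (D.k.α h i m) * ze (D.k.α h j n) * (D.b m x * D.b n x) := by ring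
      _ = _ := by
        rw [D.hmul, Finset.mul_sum]
        refine Finset.sum_congr rfl fun l _ => ?_
        ring
  · intro h m
    refine congrFun (key (fun m => ∑ l, D.k.ν l * D.k.α h l m) D.k.ν fun x => ?_) m
    rw [hsum D.k.ν (fun l m => D.k.α h l m)]
    simp only [← D.hact]
    rw [D.hone, D.hone]
  · intro i j l
    refine congrFun (key (fun l => ∑ y, ∑ m, D.k.μ i j m * D.k.α y m l)
      (fun l => D.k.T i j * D.k.ν l) fun x => ?_) l
    have e1 : ∑ l, ze (∑ y, ∑ m, D.k.μ i j m * D.k.α y m l) * D.b l x =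
        ∑ y, ∑ l, ze (∑ m, D.k.μ i j m * D.k.α y m l) * D.b l x := by
      rw [Finset.sum_comm]
      refine Finset.sum_congr rfl fun l _ => ?_
      rw [map_sum, Finset.sum_mul]
    rw [e1]
    have e2 : ∀ y, ∑ l, ze (∑ m, D.k.μ i j m * D.k.α y m l) * D.b l x =
        D.b i (x * y) * D.b j (x * y) := by
      intro y
      rw [hsum (D.k.μ i j) (fun m l => D.k.α y m l)]
      simp only [← D.hact]
      rw [← D.hmul]
    simp only [e2]
    rw [Fintype.sum_equiv (Equiv.mulLeft x) (fun y => D.b i (x * y) * D.b j (x * y))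
      (fun y => D.b i y * D.b j y) (fun y => rfl), D.htr]
    simp only [map_mul, mul_assoc]
    rw [← Finset.mul_sum, D.hone, mul_one]
  · intro x k
    refine congrFun (key (fun k => ∑ l, ∑ m, ∑ n, D.k.T' l m * D.k.α x m n * D.k.μ l n k)
      (fun k => if x = 1 then D.k.ν k else 0) fun y => ?_) k
    have e1 : ∑ k, ze (∑ l, ∑ m, ∑ n, D.k.T' l m * D.k.α x m n * D.k.μ l n k) * D.b k y =
        ∑ l, ∑ m, D.b l y * ze (D.k.T' l m) * D.b m (y * x) := by
      simp only [map_sum, map_mul, Finset.sum_mul]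
      rw [Finset.sum_comm]
      refine Finset.sum_congr rfl fun l _ => ?_
      rw [Finset.sum_comm]
      refine Finset.sum_congr rfl fun m _ => ?_
      rw [D.hact, Finset.mul_sum, Finset.sum_comm]
      refine Finset.sum_congr rfl fun n _ => ?_
      calc ∑ k, ze (D.k.T' l m) * ze (D.k.α x m n) * ze (D.k.μ l n k) * D.b k y
          = ze (D.k.T' l m) * ze (D.k.α x m n) * ∑ k, ze (D.k.μ l n k) * D.b k y := by
            rw [Finset.mul_sum]
            refine Finset.sum_congr rfl fun k _ => ?_
            ring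
        _ = _ := by
            rw [← D.hmul]
            ring
    rw [e1, D.hdual]
    by_cases hx : x = 1
    · rw [if_pos (by rw [hx, mul_one])]
      simp only [if_pos hx]
      exact (D.hone y).symm
    · rw [if_neg (fun h => hx (left_eq_mul.1 h))]
      simp only [if_neg hx, map_zero, zero_mul, Finset.sum_const_zero]

section
variable {R : Type} [CommRing R] {P : Type} [Group P] [Fintype P] (S : SC R[X] P)

theorem oE_injective : Function.Injective (oE S) := by
  exact cst_injective _

theorem zeE_injective : Function.Injective (zeE S) := by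
  exact (oE_injective S).comp AI.zinv_injective

theorem actE_oE (u : P) (c : LaurentSeries R) : actE S u (oE S c) = oE S c := by
  exact Al.act_cst _ _ _

theorem actE_zeE (u : P) (f : R[X]) : actE S u (zeE S f) = zeE S f := by
  exact Al.act_cst _ _ _

theorem fixedE (a : El S) (h : ∀ u, actE S u a = a) : ∃ c, a = oE S c := by
  exact fixed _ a h

end

section
variable {κ : Type} [Field κ] {P : Type} [Group P] [Fintype P] (S : SC κ[X] P)

theorem oL_injective : Function.Injective (oL S) := by
  intro a b h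
  ext n : 2
  have h1 := congrArg (fun c => HahnSeries.coeff c n) h
  simp only [oL_coeff] at h1
  exact oE_injective S h1

theorem actL_oL (u : P) (c : AL κ) : actL S u (oL S c) = oL S c := by
  refine HahnSeries.ext (funext fun n => ?_)
  rw [actL_coeff, oL_coeff, actE_oE]

theorem fixedL (a : LaurentSeries (El S)) (h : ∀ u, actL S u a = a) : ∃ c, a = oL S c := by
  have h1 : ∀ n : ℤ, ∃ c, a.coeff n = oE S c := by
    intro n
    refine fixedE S (a.coeff n) fun u => ?_
    rw [← actL_coeff, h u]
  choose c hc using h1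
  have hs : Function.support c ⊆ a.support := by
    intro n hn h0
    refine hn ?_
    have h2 : oE S (c n) = oE S 0 := by
      rw [← hc n, map_zero]
      exact h0
    exact oE_injective S h2
  refine ⟨⟨c, a.isPWO_support.mono hs⟩, HahnSeries.ext (funext fun n => ?_)⟩
  rw [oL_coeff]
  exact hc n

end

end

end Pool.Agent.MP_1c8e06_ag.AJ
end

section

set_option autoImplicit false

open Polynomial
open scoped Classical

namespace Pool.Agent.MP_1c8e06_ag.AJ

noncomputable section

/-!
# Task A6: from a ring of functions to the explicit data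

(The same as `AI/W1.lean`, `exists_WD`, already proved there for `EE p F`: copy that proof.)
Proof.  `S` is a `κ[X]`-algebra via `P ↦ (fun _ => ze P)`, finitely generated as a module (`hfin`) and
torsion free (`htf`), so free over the PID `κ[X]`: a basis `b_i : G → A`, `i : Fin r`.
1. For `f ∈ S`, the constant function `Tr f := ∑_x f x` is in `S` (`∑_h f(x h)`, `hact`) and invariant, so
   it is `ze` of a polynomial (`hinv`).  So `T i j := Tr (b_i b_j) ∈ κ[X]`.
2. `u, v` from `hdual`.  Write `u_k = ∑ ze(p k i) b_i`, `v_k = ∑ ze (q k i) b_i` and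
   `Z i j := ∑_k p k i * q k j`.  Then `∑_{i,j} b_i x * ze (Z i j) * b_j x' = δ_{x,x'}`.
3. For every `l`: `b_l x = ∑_{x'} δ_{x,x'} b_l x' = ∑_{i} b_i x ze ((Z T) i l)`, so `Z T = 1` (basis).
   So `T` is invertible over `κ[X]`.
4. `r = card G`: with the matrix `M : G × Fin r → A`, `M x i = b_i x`: `M Z Mᵀ = 1` gives
   `card G ≤ r`; `Mᵀ M = T` is invertible over `A`, so `r ≤ card G` (`A` is a nontrivial commutative
   ring: a matrix with a left inverse over such a ring; e.g. map to the residue field of a maximal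
   ideal of `A` and use ranks, or `Matrix` / `LinearMap` strong rank condition
   `Fintype.card_le_of_injective`-type lemmas).  Reindex the basis by `G` (`Fintype.equivOfCardEq`).
5. `μ, α, ν`: coordinates of `b_i b_j ∈ S`, of `x ↦ b_l (x h)`, of `1`.  `T' := Z`.
-/

private theorem A6_abs {R E : Type} [CommRing R] [IsDomain R] [IsPrincipalIdealRing R]
    [CommRing E] [Nontrivial E] (z : R →+* E)
    (hzt : ∀ (f : R) (a : E), z f * a = 0 → f = 0 ∨ a = 0)
    {G : Type} [Group G] [Fintype G] (S : Subring (G → E))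
    (hact : ∀ f ∈ S, ∀ h, (fun x => f (x * h)) ∈ S)
    (hze : ∀ P : R, (fun _ => z P) ∈ S)
    (hfin : ∃ (n : ℕ) (v : Fin n → G → E), (∀ i, v i ∈ S) ∧
      ∀ f ∈ S, ∃ c : Fin n → R, ∀ x, f x = ∑ i, z (c i) * v i x)
    (hinv : ∀ f ∈ S, (∀ h x, f (x * h) = f x) → ∃ P : R, ∀ x, f x = z P)
    (hdual : ∃ (n : ℕ) (u v : Fin n → G → E), (∀ i, u i ∈ S) ∧ (∀ i, v i ∈ S) ∧
      ∀ x x' [Decidable (x = x')], ∑ i, u i x * v i x' = if x = x' then 1 else 0) :
    ∃ b : G → G → E, (∀ l, b l ∈ S) ∧
      (∀ f ∈ S, ∃ c : G → R, ∀ x, f x = ∑ l, z (c l) * b l x) ∧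
      (∃ T : G → G → R, ∀ i j, ∑ x, b i x * b j x = z (T i j)) ∧
      (∃ T' : G → G → R, ∀ x x' [Decidable (x = x')],
        ∑ l, ∑ m, b l x * z (T' l m) * b m x' = if x = x' then 1 else 0) := by
  classical
  let algE : Algebra R E := z.toAlgebra
  have hsm : ∀ (c : R) (f : G → E), c • f = (fun _ => z c) * f := fun c f => by
    funext x
    rfl
  let SS : Submodule R (G → E) :=
    { carrier := S
      add_mem' := fun ha hb => S.add_mem ha hb
      zero_mem' := S.zero_mem
      smul_mem' := fun c f hf => by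
        rw [hsm]
        exact S.mul_mem (hze c) hf }
  obtain ⟨n, v, hv, hvs⟩ := hfin
  have hfinite : Module.Finite R SS := by
    rw [Module.Finite.iff_fg]
    refine ⟨(Set.finite_range v).toFinset, ?_⟩
    rw [Set.Finite.coe_toFinset]
    apply le_antisymm
    · rw [Submodule.span_le]
      rintro _ ⟨i, rfl⟩
      exact hv i
    · intro f hf
      obtain ⟨c, hc⟩ := hvs f hf
      have h1 : f = ∑ i, c i • v i := by
        funext x
        rw [hc x, Finset.sum_apply]
        rfl
      rw [h1]
      exact Submodule.sum_mem _ fun i _ => Submodule.smul_mem _ _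
        (Submodule.subset_span ⟨i, rfl⟩)
  have htf : Module.IsTorsionFree R SS := by
    refine ⟨fun r hr => ?_⟩
    have hr0 : r ≠ 0 := hr.ne_zero
    intro f f' hff
    apply Subtype.ext
    funext x
    have h1 : (r • (f : G → E)) x = (r • (f' : G → E)) x :=
      congrFun (congrArg Subtype.val hff) x
    have h2 : z r * (f : G → E) x = z r * (f' : G → E) x := h1
    have h3 : z r * ((f : G → E) x - (f' : G → E) x) = 0 := by
      rw [mul_sub, h2, sub_self]
    exact sub_eq_zero.1 ((hzt r _ h3).resolve_left hr0)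
  obtain ⟨ι, hft, ⟨b0⟩⟩ : ∃ (ι : Type) (_ : Fintype ι), Nonempty (Module.Basis ι R SS) :=
    ⟨Module.Free.ChooseBasisIndex R SS, inferInstance, ⟨Module.Free.chooseBasis R SS⟩⟩
  let B : ι → G → E := fun i => (b0 i : G → E)
  have hBS : ∀ i, B i ∈ S := fun i => (b0 i).2
  have hspan : ∀ f ∈ S, ∃ c : ι → R, ∀ x, f x = ∑ i, z (c i) * B i x := by
    intro f hf
    refine ⟨fun i => b0.repr ⟨f, hf⟩ i, fun x => ?_⟩
    have h1 : ((∑ i, b0.repr ⟨f, hf⟩ i • b0 i : SS) : G → E) x = f x := by
      rw [b0.sum_repr]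
    rw [← h1, Submodule.coe_sum, Finset.sum_apply]
    rfl
  have huniq : ∀ c : ι → R, (∀ x, ∑ i, z (c i) * B i x = 0) → ∀ i, c i = 0 := by
    intro c hc
    have h1 : ∑ i, c i • b0 i = 0 := by
      apply Subtype.ext
      funext x
      rw [Submodule.coe_sum, Finset.sum_apply]
      exact hc x
    exact Fintype.linearIndependent_iff.mp b0.linearIndependent c h1
  have htr : ∀ f ∈ S, ∃ P : R, ∑ x, f x = z P := by
    intro f hf
    have h1 : (fun _ : G => ∑ y, f y) ∈ S := by
      have h2 : (fun _ : G => ∑ y, f y) = ∑ h : G, fun x => f (x * h) := by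
        funext x
        rw [Finset.sum_apply]
        exact (Equiv.sum_comp (Equiv.mulLeft x) f).symm
      rw [h2]
      exact Subring.sum_mem _ fun h _ => hact f hf h
    obtain ⟨P, hP⟩ := hinv _ h1 fun _ _ => rfl
    exact ⟨P, hP 1⟩
  have hT : ∀ i j, ∃ P : R, ∑ x, B i x * B j x = z P := fun i j =>
    htr (B i * B j) (S.mul_mem (hBS i) (hBS j))
  choose T0 hT0 using hT
  obtain ⟨m, u, w, hu, hw, huw⟩ := hdual
  choose pp hpp using fun k => hspan (u k) (hu k)
  choose qq hqq using fun k => hspan (w k) (hw k)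
  let Z0 : ι → ι → R := fun i j => ∑ k, pp k i * qq k j
  have hZ : ∀ (x x' : G) [Decidable (x = x')], ∑ i, ∑ j, B i x * z (Z0 i j) * B j x' =
      if x = x' then 1 else 0 := by
    intro x x' _
    rw [← huw x x']
    have h1 : ∀ k, u k x * w k x' = ∑ i, ∑ j, B i x * z (pp k i * qq k j) * B j x' := by
      intro k
      rw [hpp k x, hqq k x', Finset.sum_mul_sum]
      refine Finset.sum_congr rfl fun i _ => Finset.sum_congr rfl fun j _ => ?_
      rw [map_mul]
      ring
    calc ∑ i, ∑ j, B i x * z (Z0 i j) * B j x'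
        = ∑ i, ∑ j, ∑ k, B i x * z (pp k i * qq k j) * B j x' := by
          refine Finset.sum_congr rfl fun i _ => Finset.sum_congr rfl fun j _ => ?_
          rw [map_sum, Finset.mul_sum, Finset.sum_mul]
      _ = ∑ i, ∑ k, ∑ j, B i x * z (pp k i * qq k j) * B j x' :=
          Finset.sum_congr rfl fun i _ => Finset.sum_comm
      _ = ∑ k, ∑ i, ∑ j, B i x * z (pp k i * qq k j) * B j x' := Finset.sum_comm
      _ = ∑ k, u k x * w k x' := Finset.sum_congr rfl fun k _ => (h1 k).symm
  -- the matrices
  let MB : Matrix G ι E := Matrix.of fun x i => B i x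
  let Zm : Matrix ι ι E := Matrix.of fun i j => z (Z0 i j)
  have hm1 : MB * (Zm * MB.transpose) = 1 := by
    ext x x'
    rw [Matrix.one_apply, ← hZ x x', Matrix.mul_apply]
    refine Finset.sum_congr rfl fun i _ => ?_
    rw [Matrix.mul_apply, Finset.mul_sum]
    refine Finset.sum_congr rfl fun j _ => ?_
    change B i x * (z (Z0 i j) * B j x') = _
    ring
  have hZT : ∀ i l, ∑ j, Z0 i j * T0 j l = if i = l then 1 else 0 := by
    intro i l
    have h2 : ∀ i', (∑ j, Z0 i' j * T0 j l) - (if i' = l then 1 else 0) = 0 := by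
      refine huniq (fun i' => (∑ j, Z0 i' j * T0 j l) - (if i' = l then 1 else 0)) fun x => ?_
      have h3 : ∑ i', z (∑ j, Z0 i' j * T0 j l) * B i' x = B l x := by
        calc ∑ i', z (∑ j, Z0 i' j * T0 j l) * B i' x
            = ∑ i', ∑ j, B i' x * z (Z0 i' j) * (∑ x', B j x' * B l x') := by
              refine Finset.sum_congr rfl fun i' _ => ?_
              rw [map_sum, Finset.sum_mul]
              refine Finset.sum_congr rfl fun j _ => ?_
              rw [map_mul, hT0 j l]
              ring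
          _ = ∑ i', ∑ j, ∑ x', B i' x * z (Z0 i' j) * B j x' * B l x' := by
              refine Finset.sum_congr rfl fun i' _ => Finset.sum_congr rfl fun j _ => ?_
              rw [Finset.mul_sum]
              refine Finset.sum_congr rfl fun x' _ => ?_
              ring
          _ = ∑ i', ∑ x', ∑ j, B i' x * z (Z0 i' j) * B j x' * B l x' :=
              Finset.sum_congr rfl fun i' _ => Finset.sum_comm
          _ = ∑ x', ∑ i', ∑ j, B i' x * z (Z0 i' j) * B j x' * B l x' := Finset.sum_comm
          _ = ∑ x', (if x = x' then 1 else 0) * B l x' := by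
              refine Finset.sum_congr rfl fun x' _ => ?_
              rw [← hZ x x', Finset.sum_mul]
              refine Finset.sum_congr rfl fun i' _ => ?_
              rw [Finset.sum_mul]
          _ = B l x := by simp
      have h4 : ∑ i', z ((∑ j, Z0 i' j * T0 j l) - (if i' = l then 1 else 0)) * B i' x =
          (∑ i', z (∑ j, Z0 i' j * T0 j l) * B i' x) -
            ∑ i', z (if i' = l then 1 else 0) * B i' x := by
        rw [← Finset.sum_sub_distrib]
        refine Finset.sum_congr rfl fun i' _ => ?_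
        rw [map_sub, sub_mul]
      rw [h4, h3]
      have h5 : ∑ i', z (if i' = l then 1 else 0) * B i' x = B l x := by
        rw [Finset.sum_eq_single l]
        · simp
        · intro i' _ hi'
          rw [if_neg hi', map_zero, zero_mul]
        · intro h
          exact absurd (Finset.mem_univ l) h
      rw [h5, sub_self]
    exact sub_eq_zero.mp (h2 i)
  have hm2 : (Zm * MB.transpose) * MB = 1 := by
    ext i l
    rw [Matrix.mul_assoc, Matrix.mul_apply, Matrix.one_apply]
    have h2 : ∀ j, (MB.transpose * MB) j l = z (T0 j l) := by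
      intro j
      rw [Matrix.mul_apply, ← hT0 j l]
      rfl
    calc ∑ j, Zm i j * (MB.transpose * MB) j l = ∑ j, z (Z0 i j) * z (T0 j l) :=
          Finset.sum_congr rfl fun j _ => by rw [h2]; rfl
      _ = z (∑ j, Z0 i j * T0 j l) := by
          rw [map_sum]
          exact Finset.sum_congr rfl fun j _ => (map_mul z _ _).symm
      _ = if i = l then 1 else 0 := by
          rw [hZT]
          split_ifs <;> simp
  have hc1 : Fintype.card G ≤ Fintype.card ι := by
    have h2 := Matrix.rank_mul_le_left MB (Zm * MB.transpose)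
    rw [hm1, Matrix.rank_one] at h2
    exact h2.trans (Matrix.rank_le_card_width MB)
  have hc2 : Fintype.card ι ≤ Fintype.card G := by
    have h2 := Matrix.rank_mul_le_left (Zm * MB.transpose) MB
    rw [hm2, Matrix.rank_one] at h2
    exact h2.trans (Matrix.rank_le_card_width _)
  let e : G ≃ ι := Fintype.equivOfCardEq (le_antisymm hc1 hc2)
  refine ⟨fun l => B (e l), fun l => hBS _, ?_, ⟨fun i j => T0 (e i) (e j), fun i j =>
    hT0 _ _⟩, ⟨fun i j => Z0 (e i) (e j), ?_⟩⟩
  · intro f hf
    obtain ⟨c, hc⟩ := hspan f hf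
    refine ⟨fun l => c (e l), fun x => ?_⟩
    rw [hc x]
    exact (Equiv.sum_comp e fun i => z (c i) * B i x).symm
  · intro x x' _
    rw [← hZ x x', ← Equiv.sum_comp e fun i => ∑ j, B i x * z (Z0 i j) * B j x']
    refine Finset.sum_congr rfl fun i _ => ?_
    exact Equiv.sum_comp e fun j => B (e i) x * z (Z0 (e i) j) * B j x'

theorem exists_GD {κ : Type} [Field κ] {P : Type} [Group P] [Fintype P] {G : Type} [Group G]
    [Fintype G] (i : P →* G) {A : Type} [CommRing A] [Nontrivial A] (ze : κ[X] →+* A)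
    (act : P →* (A →+* A)) (htf : ∀ (f : κ[X]) (a : A), ze f * a = 0 → f = 0 ∨ a = 0)
    (S : Subring (G → A)) (hP : ∀ f ∈ S, ∀ u x, f (i u * x) = act u (f x))
    (hact : ∀ f ∈ S, ∀ h, (fun x => f (x * h)) ∈ S) (hze : ∀ f : κ[X], (fun _ => ze f) ∈ S)
    (hfin : ∃ (n : ℕ) (v : Fin n → G → A), (∀ j, v j ∈ S) ∧
      ∀ f ∈ S, ∃ c : Fin n → κ[X], ∀ x, f x = ∑ j, ze (c j) * v j x)
    (hinv : ∀ f ∈ S, (∀ h x, f (x * h) = f x) → ∃ c : κ[X], ∀ x, f x = ze c)
    (hdual : ∃ (n : ℕ) (u v : Fin n → G → A), (∀ j, u j ∈ S) ∧ (∀ j, v j ∈ S) ∧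
      ∀ x x', ∑ j, u j x * v j x' = if x = x' then 1 else 0) :
    ∃ D : GD i ze act, (∀ l, (fun x => D.b l x) ∈ S) ∧
      ∀ f ∈ S, ∃ c : G → κ[X], ∀ x, f x = ∑ l, ze (c l) * D.b l x := by
  obtain ⟨b, hbS, hspan, ⟨T, hT⟩, ⟨T', hT'⟩⟩ := A6_abs ze htf S hact hze hfin hinv
    (by
      obtain ⟨n, u, v, hu, hv, huv⟩ := hdual
      refine ⟨n, u, v, hu, hv, fun x x' _ => ?_⟩
      rw [huv x x']
      split_ifs <;> rfl)
  choose μ hμ using fun i j => hspan (b i * b j) (S.mul_mem (hbS i) (hbS j))
  choose α hα using fun h l => hspan (fun x => b l (x * h)) (hact (b l) (hbS l) h)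
  obtain ⟨ν, hν⟩ := hspan 1 S.one_mem
  refine ⟨{ b := b, k := ⟨μ, α, ν, T, T'⟩, hP := ?_, hmul := ?_,
            hact := ?_, hone := ?_, htr := hT, hdual := fun x x' => hT' x x' }, hbS, hspan⟩
  · exact fun u l x => hP (b l) (hbS l) u x
  · exact fun i j x => hμ i j x
  · exact fun h l x => hα h l x
  · exact fun x => (hν x).symm

end

end Pool.Agent.MP_1c8e06_ag.AJ
end

section

set_option autoImplicit false

open Polynomial
open scoped Classical

namespace Pool.Agent.MP_1c8e06_ag.AJ

noncomputable section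

/-!
# Task A8: the induced algebra

Proof.  `exists_GD` for `S' := {f : G → Al S | ∀ u x, f (i u * x) = act u (f x)}` (a subring).
`Al S` is nontrivial (`P` is nonempty, `κ[X]` nontrivial: `cst_injective`); `htf`: `cst_mul`, coordinates.
`hfin`: `G → Al S` is a finitely generated `κ[X]`-module (via `cst`; it is `G → P → κ[X]`) over a
noetherian ring, and `S'` is a submodule.
`hinv`: `f` constant with value `a = f (i u * 1) = act u a`, so `a = cst c` by `fixed`.
`hdual`: let `R` be a set of representatives of the cosets `i(P) \ G` (every `x` is uniquely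
`i u * r`, `i` injective).  For `a : Al S`, `r ∈ R` let `[a]_r x := act u a` if `x = i u * r` and `0` if
`x ∉ i(P) r`; it is in `S'`.  The dual system is indexed by `P × R`: `[e l]_r`, `[∑ m, cst (T' l m) * e m]_r`:
for `x = i u * r`, `x' = i u' * r`: `∑_l act u (e l) * act u' (∑_m cst (T' l m) e m)
 = act u (∑_{l,m} cst (T' l m) * e l * act (u⁻¹ u') (e m)) = δ_{u,u'}` (`dual_e`).
(Reindex `P × R` by `Fin n`.)
-/

private theorem A8_reps {P : Type} [Group P] {G : Type} [Group G] (i : P →* G)
    (hi : Function.Injective i) : ∃ (r : G → G) (u : G → P), (∀ x, x = i (u x) * r x) ∧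
      (∀ v x, r (i v * x) = r x) ∧ ∀ v x, u (i v * x) = v * u x := by
  let st : Setoid G := QuotientGroup.rightRel i.range
  let r : G → G := fun x => (Quotient.mk st x).out
  have h1 : ∀ x, ∃ v, i v = x * (r x)⁻¹ := by
    intro x
    have h : st (r x) x := Quotient.mk_out (s := st) x
    have h2 : x * (r x)⁻¹ ∈ i.range := QuotientGroup.rightRel_apply.1 h
    exact h2
  choose u hu using h1
  have hr : ∀ v x, r (i v * x) = r x := by
    intro v x
    change (Quotient.mk st (i v * x)).out = (Quotient.mk st x).out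
    have h : Quotient.mk st (i v * x) = Quotient.mk st x := by
      apply Quotient.sound
      refine QuotientGroup.rightRel_apply.2 ?_
      refine ⟨v⁻¹, ?_⟩
      rw [map_inv]
      group
    rw [h]
  refine ⟨r, u, ?_, hr, ?_⟩
  · intro x
    rw [hu x]
    group
  · intro v x
    apply hi
    rw [hu, map_mul, hu, hr]
    group

private theorem A8_ring {A : Type} [CommRing A] (a b c : A) : a * (b * c) = b * a * c := by ring

private theorem A8_ring' {A : Type} [CommRing A] (a b c : A) : a * b * c = b * c * a := by ring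

private theorem A8_alg {B : Type} [CommRing B] {P : Type} [Group P] [Fintype P] (S : SC B P)
    (v l : P) : Al.e S l * Al.act S v (∑ m, Al.cst S (S.T' l m) * Al.e S m) =
      ∑ m, Al.cst S (S.T' l m) * Al.e S l * Al.act S v (Al.e S m) := by
  rw [map_sum (Al.act S v), Finset.mul_sum]
  refine Finset.sum_congr rfl fun m _ => ?_
  rw [map_mul (Al.act S v), Al.act_cst]
  exact A8_ring _ _ _

private theorem A8_split {B : Type} [CommRing B] {P : Type} [Group P] [Fintype P] (S : SC B P)
    (u u' : P) (a : Al S) : Al.act S u' a = Al.act S u (Al.act S (u⁻¹ * u') a) := by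
  rw [← Al.act_mul_apply]
  congr 2
  group

theorem exists_induced {κ : Type} [Field κ] {P : Type} [Group P] [Fintype P] {G : Type} [Group G]
    [Fintype G] (S : SC κ[X] P) (i : P →* G) (hi : Function.Injective i) :
    Nonempty (GD i (Al.cst S) (Al.act S)) := by
  have : Nontrivial (Al S) := (cst_injective S).nontrivial
  obtain ⟨r, w, hx, hr, hw⟩ := A8_reps i hi
  let S' : Subring (G → Al S) :=
    { carrier := {f | ∀ u x, f (i u * x) = Al.act S u (f x)}
      mul_mem' := by
        intro f g hf hg u x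
        change f (i u * x) * g (i u * x) = Al.act S u (f x * g x)
        rw [hf u x, hg u x, map_mul]
      one_mem' := by
        intro u x
        change (1 : Al S) = Al.act S u 1
        rw [map_one]
      add_mem' := by
        intro f g hf hg u x
        change f (i u * x) + g (i u * x) = Al.act S u (f x + g x)
        rw [hf u x, hg u x, map_add]
      zero_mem' := by
        intro u x
        change (0 : Al S) = Al.act S u 0
        rw [map_zero]
      neg_mem' := by
        intro f hf u x
        change - f (i u * x) = Al.act S u (- f x)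
        rw [hf u x, map_neg] }
  have memS : ∀ f : G → Al S, f ∈ S' ↔ ∀ u x, f (i u * x) = Al.act S u (f x) := fun f => Iff.rfl
  -- the elements `[a]_g`
  let br : G → Al S → G → Al S := fun g a x => if r x = g then Al.act S (w x) a else 0
  have hbr : ∀ g a, br g a ∈ S' := by
    intro g a
    rw [memS]
    intro u x
    change (if r (i u * x) = g then Al.act S (w (i u * x)) a else 0) =
      Al.act S u (if r x = g then Al.act S (w x) a else 0)
    rw [hr, hw]
    split_ifs
    · rw [Al.act_mul_apply]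
    · rw [map_zero]
  have hdual0 : ∀ x x', ∑ q : P × G, br q.2 (Al.e S q.1) x *
      br q.2 (∑ m, Al.cst S (S.T' q.1 m) * Al.e S m) x' = if x = x' then 1 else 0 := by
    intro x x'
    rw [Fintype.sum_prod_type]
    have h1 : ∀ l : P, ∑ g : G, br g (Al.e S l) x *
        br g (∑ m, Al.cst S (S.T' l m) * Al.e S m) x' =
        if r x' = r x then Al.act S (w x) (Al.e S l) *
          Al.act S (w x') (∑ m, Al.cst S (S.T' l m) * Al.e S m) else 0 := by
      intro l
      rw [Finset.sum_eq_single (r x)]
      · simp only [br, if_true]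
        split_ifs
        · rfl
        · rw [mul_zero]
      · intro g _ hg
        simp only [br]
        rw [if_neg (fun h => hg h.symm), zero_mul]
      · intro h
        exact absurd (Finset.mem_univ _) h
    rw [Finset.sum_congr rfl fun l _ => h1 l]
    by_cases hrr : r x' = r x
    · simp only [if_pos hrr]
      have h2 : ∀ l : P, Al.act S (w x) (Al.e S l) *
          Al.act S (w x') (∑ m, Al.cst S (S.T' l m) * Al.e S m) =
          Al.act S (w x) (∑ m, Al.cst S (S.T' l m) * Al.e S l *
            Al.act S ((w x)⁻¹ * w x') (Al.e S m)) := by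
        intro l
        rw [A8_split S (w x) (w x'), ← map_mul (Al.act S (w x)), A8_alg S ((w x)⁻¹ * w x') l]
      rw [Finset.sum_congr rfl fun l _ => h2 l, ← map_sum (Al.act S (w x)), dual_e]
      by_cases hxx : x = x'
      · subst hxx
        rw [if_pos rfl, if_pos (by group), map_one (Al.act S (w x))]
      · rw [if_neg hxx, if_neg, map_zero (Al.act S (w x))]
        intro h5
        apply hxx
        have h6 : w x' = w x := by
          have h7 : w x' = w x * ((w x)⁻¹ * w x') := by group
          rw [h7, h5, mul_one]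
        rw [hx x, hx x', hrr, h6]
    · simp only [if_neg hrr]
      rw [Finset.sum_const_zero, if_neg]
      intro h
      apply hrr
      rw [h]
  have hfix : ∀ f ∈ S', ∀ g ∈ S', ∃ c, ∑ x, f x * g x = Al.cst S c := by
    intro f hf g hg
    refine fixed S _ fun u => ?_
    rw [map_sum]
    have h1 : ∀ x, Al.act S u (f x * g x) = f (i u * x) * g (i u * x) := by
      intro x
      rw [map_mul, (memS f).1 hf u x, (memS g).1 hg u x]
    rw [Finset.sum_congr rfl fun x _ => h1 x]
    exact Equiv.sum_comp (Equiv.mulLeft (i u)) (fun x => f x * g x)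
  let n := Fintype.card (P × G)
  let eq : Fin n ≃ P × G := (Fintype.equivFin (P × G)).symm
  have hD := exists_GD i (Al.cst S) (Al.act S) ?_ S' ?_ ?_ ?_ ?_ ?_ ?_
  · obtain ⟨D, _⟩ := hD
    exact ⟨D⟩
  · intro f a h
    by_cases hf : f = 0
    · exact Or.inl hf
    · right
      refine Al.ext fun l => ?_
      have h1 : (Al.cst S f * a) l = (0 : Al S) l := by rw [h]
      rw [Al.cst_mul, Al.zero_apply] at h1
      rw [Al.zero_apply]
      exact (mul_eq_zero.1 h1).resolve_left hf
  · intro f hf u x
    exact hf u x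
  · intro f hf h
    rw [memS]
    intro u x
    rw [mul_assoc]
    exact (memS f).1 hf u (x * h)
  · intro f
    rw [memS]
    intro u x
    change Al.cst S f = Al.act S u (Al.cst S f)
    rw [Al.act_cst]
  · refine ⟨n, fun j => br (eq j).2 (Al.e S (eq j).1), fun j => hbr _ _, ?_⟩
    intro f hf
    have hc : ∀ q : P × G, ∃ c, ∑ x, br q.2 (∑ m, Al.cst S (S.T' q.1 m) * Al.e S m) x * f x =
        Al.cst S c := fun q => hfix _ (hbr _ _) f hf
    choose c hc using hc
    refine ⟨fun j => c (eq j), fun x => ?_⟩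
    rw [Equiv.sum_comp eq (fun q : P × G => Al.cst S (c q) * br q.2 (Al.e S q.1) x)]
    have h1 : f x = ∑ x', (if x = x' then 1 else 0) * f x' := by
      simp
    rw [h1, Finset.sum_congr rfl fun x' _ => by rw [← hdual0 x x', Finset.sum_mul],
      Finset.sum_comm]
    refine Finset.sum_congr rfl fun q _ => ?_
    rw [← hc q, Finset.sum_mul]
    refine Finset.sum_congr rfl fun x' _ => ?_
    exact A8_ring' _ _ _
  · intro f hf hinv
    have h1 : ∀ x, f x = f 1 := by
      intro x
      have h2 := hinv x 1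
      rw [one_mul] at h2
      exact h2
    obtain ⟨c, hc⟩ := fixed S (f 1) fun u => by
      rw [← (memS f).1 hf u 1, mul_one]
      exact h1 _
    exact ⟨c, fun x => by rw [h1 x, hc]⟩
  · refine ⟨n, fun j => br (eq j).2 (Al.e S (eq j).1),
      fun j => br (eq j).2 (∑ m, Al.cst S (S.T' (eq j).1 m) * Al.e S m),
      fun j => hbr _ _, fun j => hbr _ _, ?_⟩
    intro x x'
    rw [← hdual0 x x']
    exact Equiv.sum_comp eq (fun q : P × G => br q.2 (Al.e S q.1) x *
      br q.2 (∑ m, Al.cst S (S.T' q.1 m) * Al.e S m) x')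

end

end Pool.Agent.MP_1c8e06_ag.AJ
end

section

set_option autoImplicit false

open Polynomial
open scoped Classical

namespace Pool.Agent.MP_1c8e06_ag.AJ

noncomputable section

/-!
# Task A3: change of basis

`b' l x := ∑ m, ze (g l m) * b m x`, so `b l x = ∑ m, ze (gi l m) * b' m x`; the constants of
`Ks.chb` are obtained by inserting.  Details:
`hmul`: `b' j x b' l x = ∑_{a,b} ze (g j a g l b) b_a x b_b x = ∑_{a,b,c} ze (g j a g l b μ a b c) b_c x`
and `b_c x = ∑_m ze (gi c m) b' m x`.  `hact`, `hone`, `htr` similar.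
`hdual`: `∑_{l,m} b' l x ze (∑_{a,b} gi a l T' a b gi b m) b' m x' = ∑_{a,b} b a x ze (T' a b) b b x'` because
`∑_l ze (gi a l) * b' l x = b a x`.
-/

variable {B : Type} [CommRing B] {P : Type} [Group P] [Fintype P] {G : Type} [Group G] [Fintype G]
  {i : P →* G} {A : Type} [CommRing A] {ze : B →+* A} {act : P →* (A →+* A)}

private theorem A3_comm4 {M : Type} [AddCommMonoid M] (F : G → G → G → G → M) :
    ∑ l, ∑ m, ∑ a, ∑ b, F l m a b = ∑ a, ∑ b, ∑ l, ∑ m, F l m a b :=
  calc ∑ l, ∑ m, ∑ a, ∑ b, F l m a b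
      = ∑ l, ∑ a, ∑ m, ∑ b, F l m a b := Finset.sum_congr rfl fun _ _ => Finset.sum_comm
    _ = ∑ a, ∑ l, ∑ m, ∑ b, F l m a b := Finset.sum_comm
    _ = ∑ a, ∑ l, ∑ b, ∑ m, F l m a b := Finset.sum_congr rfl fun _ _ =>
        Finset.sum_congr rfl fun _ _ => Finset.sum_comm
    _ = ∑ a, ∑ b, ∑ l, ∑ m, F l m a b := Finset.sum_congr rfl fun _ _ => Finset.sum_comm

private theorem A3_W (ze : B →+* A) (gi : Matrix G G B) (b b' : G → A)
    (h : ∀ c, b c = ∑ m, ze (gi c m) * b' m) (F : G → B) :
    ∑ m, ze (∑ c, F c * gi c m) * b' m = ∑ c, ze (F c) * b c := by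
  calc ∑ m, ze (∑ c, F c * gi c m) * b' m
      = ∑ m, ∑ c, ze (F c) * (ze (gi c m) * b' m) := by
        refine Finset.sum_congr rfl fun m _ => ?_
        rw [map_sum, Finset.sum_mul]
        refine Finset.sum_congr rfl fun c _ => ?_
        rw [map_mul, mul_assoc]
    _ = ∑ c, ∑ m, ze (F c) * (ze (gi c m) * b' m) := Finset.sum_comm
    _ = _ := by
        refine Finset.sum_congr rfl fun c _ => ?_
        rw [h c, Finset.mul_sum]

private theorem A3_inv (ze : B →+* A) (g gi : Matrix G G B) (h2 : gi * g = 1) (b : G → A) (c : G) :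
    b c = ∑ m, ze (gi c m) * ∑ n, ze (g m n) * b n := by
  have h3 : ∀ n, ∑ m, ze (gi c m) * ze (g m n) = if c = n then 1 else 0 := by
    intro n
    have h4 := congrArg ze (congrFun (congrFun h2 c) n)
    rw [Matrix.mul_apply, map_sum, Matrix.one_apply] at h4
    simp only [map_mul] at h4
    rw [h4]
    split_ifs <;> simp
  calc b c = ∑ n, (if c = n then 1 else 0) * b n := by simp
    _ = ∑ n, (∑ m, ze (gi c m) * ze (g m n)) * b n := by
        refine Finset.sum_congr rfl fun n _ => ?_
        rw [h3]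
    _ = ∑ n, ∑ m, ze (gi c m) * (ze (g m n) * b n) := by
        refine Finset.sum_congr rfl fun n _ => ?_
        rw [Finset.sum_mul]
        refine Finset.sum_congr rfl fun m _ => ?_
        rw [mul_assoc]
    _ = ∑ m, ∑ n, ze (gi c m) * (ze (g m n) * b n) := Finset.sum_comm
    _ = _ := by
        refine Finset.sum_congr rfl fun m _ => ?_
        rw [Finset.mul_sum]

private theorem A3_bil (ze : B →+* A) (u v : G → B) (b : G → A) :
    (∑ m, ze (u m) * b m) * (∑ m, ze (v m) * b m) =
      ∑ a, ∑ c, ze (u a) * ze (v c) * (b a * b c) := by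
  rw [Finset.sum_mul]
  refine Finset.sum_congr rfl fun a _ => ?_
  rw [Finset.mul_sum]
  refine Finset.sum_congr rfl fun c _ => ?_
  ring

private theorem A3_dual (ze : B →+* A) (gi : Matrix G G B) (T' : G → G → B) (v w b b2 : G → A)
    (hv : ∀ a, b a = ∑ l, ze (gi a l) * v l) (hw : ∀ c, b2 c = ∑ m, ze (gi c m) * w m) :
    ∑ l, ∑ m, v l * ze (∑ a, ∑ b, gi a l * T' a b * gi b m) * w m =
      ∑ a, ∑ c, b a * ze (T' a c) * b2 c := by
  calc ∑ l, ∑ m, v l * ze (∑ a, ∑ b, gi a l * T' a b * gi b m) * w m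
      = ∑ l, ∑ m, ∑ a, ∑ b, (ze (gi a l) * v l) * ze (T' a b) * (ze (gi b m) * w m) := by
        refine Finset.sum_congr rfl fun l _ => Finset.sum_congr rfl fun m _ => ?_
        rw [map_sum, Finset.mul_sum, Finset.sum_mul]
        refine Finset.sum_congr rfl fun a _ => ?_
        rw [map_sum, Finset.mul_sum, Finset.sum_mul]
        refine Finset.sum_congr rfl fun b _ => ?_
        rw [map_mul, map_mul]
        ring
    _ = ∑ a, ∑ b, ∑ l, ∑ m, (ze (gi a l) * v l) * ze (T' a b) * (ze (gi b m) * w m) :=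
        A3_comm4 _
    _ = _ := by
        refine Finset.sum_congr rfl fun a _ => Finset.sum_congr rfl fun c _ => ?_
        rw [hv a, hw c, Finset.sum_mul, Finset.sum_mul]
        refine Finset.sum_congr rfl fun l _ => ?_
        rw [Finset.mul_sum]

theorem GD.exists_chb (D : GD i ze act) (hz : ∀ u b, act u (ze b) = ze b) (g gi : Matrix G G B)
    (h1 : g * gi = 1) (h2 : gi * g = 1) :
    ∃ D' : GD i ze act, D'.k = D.k.chb g gi ∧ ∀ l x, D'.b l x = ∑ m, ze (g l m) * D.b m x := by
  have hinv : ∀ c x, D.b c x = ∑ m, ze (gi c m) * ∑ n, ze (g m n) * D.b n x := fun c x =>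
    A3_inv ze g gi h2 (fun n => D.b n x) c
  refine ⟨{ b := fun l x => ∑ m, ze (g l m) * D.b m x
            k := D.k.chb g gi
            hP := ?_
            hmul := ?_
            hact := ?_
            hone := ?_
            htr := ?_
            hdual := ?_ }, rfl, fun l x => rfl⟩
  · intro u l x
    rw [map_sum]
    refine Finset.sum_congr rfl fun m _ => ?_
    rw [map_mul, hz, D.hP]
  · intro j l x
    have e1 : ∀ m, (D.k.chb g gi).μ j l m =
        ∑ c, (∑ a, ∑ b, g j a * g l b * D.k.μ a b c) * gi c m := by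
      intro m
      change ∑ a, ∑ b, ∑ c, g j a * g l b * D.k.μ a b c * gi c m = _
      calc ∑ a, ∑ b, ∑ c, g j a * g l b * D.k.μ a b c * gi c m
          = ∑ a, ∑ c, ∑ b, g j a * g l b * D.k.μ a b c * gi c m :=
            Finset.sum_congr rfl fun _ _ => Finset.sum_comm
        _ = ∑ c, ∑ a, ∑ b, g j a * g l b * D.k.μ a b c * gi c m := Finset.sum_comm
        _ = _ := by
            refine Finset.sum_congr rfl fun c _ => ?_
            rw [Finset.sum_mul]
            refine Finset.sum_congr rfl fun a _ => ?_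
            rw [Finset.sum_mul]
    simp only [e1]
    rw [A3_W ze gi (fun c => D.b c x) (fun m => ∑ n, ze (g m n) * D.b n x)
      (fun c => hinv c x), A3_bil]
    calc ∑ a, ∑ c, ze (g j a) * ze (g l c) * (D.b a x * D.b c x)
        = ∑ a, ∑ b, ∑ c, ze (g j a * g l b * D.k.μ a b c) * D.b c x := by
          refine Finset.sum_congr rfl fun a _ => Finset.sum_congr rfl fun b _ => ?_
          rw [D.hmul, Finset.mul_sum]
          refine Finset.sum_congr rfl fun c _ => ?_
          rw [map_mul, map_mul]
          ring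
      _ = ∑ a, ∑ c, ∑ b, ze (g j a * g l b * D.k.μ a b c) * D.b c x :=
          Finset.sum_congr rfl fun _ _ => Finset.sum_comm
      _ = ∑ c, ∑ a, ∑ b, ze (g j a * g l b * D.k.μ a b c) * D.b c x := Finset.sum_comm
      _ = _ := by
          refine Finset.sum_congr rfl fun c _ => ?_
          rw [map_sum, Finset.sum_mul]
          refine Finset.sum_congr rfl fun a _ => ?_
          rw [map_sum, Finset.sum_mul]
  · intro h l x
    have e1 : ∀ m, (D.k.chb g gi).α h l m = ∑ c, (∑ a, g l a * D.k.α h a c) * gi c m := by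
      intro m
      change ∑ a, ∑ c, g l a * D.k.α h a c * gi c m = _
      rw [Finset.sum_comm]
      refine Finset.sum_congr rfl fun c _ => ?_
      rw [Finset.sum_mul]
    simp only [e1]
    rw [A3_W ze gi (fun c => D.b c x) (fun m => ∑ n, ze (g m n) * D.b n x)
      (fun c => hinv c x)]
    calc ∑ m, ze (g l m) * D.b m (x * h)
        = ∑ a, ∑ c, ze (g l a * D.k.α h a c) * D.b c x := by
          refine Finset.sum_congr rfl fun a _ => ?_
          rw [D.hact, Finset.mul_sum]
          refine Finset.sum_congr rfl fun c _ => ?_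
          rw [map_mul, mul_assoc]
      _ = ∑ c, ∑ a, ze (g l a * D.k.α h a c) * D.b c x := Finset.sum_comm
      _ = _ := by
          refine Finset.sum_congr rfl fun c _ => ?_
          rw [map_sum, Finset.sum_mul]
  · intro x
    change ∑ l, ze (∑ a, D.k.ν a * gi a l) * ∑ n, ze (g l n) * D.b n x = 1
    rw [A3_W ze gi (fun c => D.b c x) (fun m => ∑ n, ze (g m n) * D.b n x)
      (fun c => hinv c x)]
    exact D.hone x
  · intro j l
    change _ = ze (∑ a, ∑ b, g j a * g l b * D.k.T a b)
    calc ∑ x, (∑ m, ze (g j m) * D.b m x) * ∑ m, ze (g l m) * D.b m x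
        = ∑ x, ∑ a, ∑ b, ze (g j a) * ze (g l b) * (D.b a x * D.b b x) := by
          refine Finset.sum_congr rfl fun x _ => ?_
          rw [A3_bil]
      _ = ∑ a, ∑ x, ∑ b, ze (g j a) * ze (g l b) * (D.b a x * D.b b x) := Finset.sum_comm
      _ = ∑ a, ∑ b, ∑ x, ze (g j a) * ze (g l b) * (D.b a x * D.b b x) :=
          Finset.sum_congr rfl fun _ _ => Finset.sum_comm
      _ = _ := by
          rw [map_sum]
          refine Finset.sum_congr rfl fun a _ => ?_
          rw [map_sum]
          refine Finset.sum_congr rfl fun b _ => ?_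
          rw [← Finset.mul_sum, D.htr, map_mul, map_mul]
  · intro x x'
    rw [← D.hdual x x']
    change ∑ l, ∑ m, (∑ n, ze (g l n) * D.b n x) * ze (∑ a, ∑ b, gi a l * D.k.T' a b * gi b m) *
      (∑ n, ze (g m n) * D.b n x') = _
    exact A3_dual ze gi D.k.T' (fun l => ∑ n, ze (g l n) * D.b n x)
      (fun m => ∑ n, ze (g m n) * D.b n x') (fun a => D.b a x) (fun a => D.b a x')
      (fun a => hinv a x) (fun a => hinv a x')

theorem Ks.chb_map {B' : Type} [CommRing B'] (φ : B →+* B') (k : Ks B G) (g gi : Matrix G G B) :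
    (k.chb g gi).map φ = (k.map φ).chb (g.map φ) (gi.map φ) := by
  simp only [Ks.map, Ks.chb, map_sum, map_mul, Matrix.map_apply]

theorem Ks.map_map {B' B'' : Type} (φ : B → B') (φ' : B' → B'') (k : Ks B G) :
    (k.map φ).map φ' = k.map (φ' ∘ φ) := by
  rfl

end

end Pool.Agent.MP_1c8e06_ag.AJ
end

section

set_option autoImplicit false

open Polynomial
open scoped Classical

namespace Pool.Agent.MP_1c8e06_ag.AJ

noncomputable section

/-!
# Task A9: induction of a cover along an injective homomorphism `φ : G₀ → G`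

Proof.  Let `E := El S` and `S₀ := {f : G₀ → E | ∃ c, ∀ x, f x = ∑ l, zeE (c l) * D₀.b l x}`.
`exists_GD` for `S' := {f : G → E | ∀ x : G, (fun h => f (φ h * x)) ∈ S₀}`.  It is a subring of `G → E`
(`S₀` is a subring by `hmul`, `hone`; closed under right translations by `hact`).
`htf`: `E` is `P → κ((s))` and `zeE f * a` has coordinates `zinv f * a l` (`Al.cst_mul`).
`hP`: `f (φ (i₀ u) * x) = (fun h => f (φ h * x)) (i₀ u * 1) = act u (f x)` (`D₀.hP`).
`hact`: `f' x = f (x g)`: `f' (φ h * x) = f (φ h * (x g))`.  `hze`: constants are in `S₀` (`hone`).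
`hfin`: choose representatives `R` of `φ(G₀) \ G`; `f` is determined by the functions
`f (φ h * r)`, `r ∈ R`: generators `[b]_r (φ h * r') = b h` if `r' = r`, else `0`, for `b = D₀.b l`.
`hinv`: a constant function in `S₀` is `zeE` of a polynomial: let `a` be its value;
`∑_h b l h * a`... use: `a = ∑_l zeE (c l) b l x` for all `x`; by a trace one element
(`θ = ∑ zeE (t l) b l` with `∑_h θ (x h) = 1` for all `x`: take the structure constants `S₁` of `D₀` from
`GD.exists_SC` and `exists_theta S₁`): `a = ∑_h θ(x h) a = ∑_h (θ a)(x h) ∈ zeE(κ[X])` by `htr`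
(the trace of `∑_{l,m} ze (t l c m) b l b m` is `∑ ze (t l * c m * T l m)`).
`hdual`: `[b l]_r`, `[∑_m zeE (T' l m) b m]_r` with `D₀.hdual`.
`Conn'`: let `D` be the result and `(f, c)` locally constant for `D`.  The function
`F x := ∑ zeE (f l) D.b l x` is in `S'`, so `h ↦ F (φ h * 1)` is in `S₀` and its values are
`zeE (C (c (φ h)))`; so `D₀.Conn' H` gives `c (φ h) = c 1` for `h ∈ H`.
-/

section
variable {k : Type} [Field k] {P : Type} [Group P] [Fintype P] {G₀ : Type} [Group G₀]
  [Fintype G₀] {i₀ : P →* G₀} {S : SC k[X] P} (D₀ : GD i₀ (zeE S) (actE S))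

/-- the functions with coordinates in `k[X]` -/
private def A9_S0 : Subring (G₀ → El S) where
  carrier := {f | ∃ c : G₀ → k[X], ∀ x, f x = ∑ l, zeE S (c l) * D₀.b l x}
  mul_mem' := by
    rintro f g ⟨c, hc⟩ ⟨c', hc'⟩
    refine ⟨fun m => ∑ j, ∑ l, c j * c' l * D₀.k.μ j l m, fun x => ?_⟩
    rw [Pi.mul_apply, hc, hc', Finset.sum_mul_sum]
    calc ∑ j, ∑ l, zeE S (c j) * D₀.b j x * (zeE S (c' l) * D₀.b l x)
        = ∑ j, ∑ l, ∑ m, zeE S (c j * c' l * D₀.k.μ j l m) * D₀.b m x := by
          refine Finset.sum_congr rfl fun j _ => Finset.sum_congr rfl fun l _ => ?_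
          have h : zeE S (c j) * D₀.b j x * (zeE S (c' l) * D₀.b l x) =
              zeE S (c j) * zeE S (c' l) * (D₀.b j x * D₀.b l x) := by ring
          rw [h, D₀.hmul, Finset.mul_sum]
          refine Finset.sum_congr rfl fun m _ => ?_
          rw [map_mul, map_mul]
          ring
      _ = ∑ m, ∑ j, ∑ l, zeE S (c j * c' l * D₀.k.μ j l m) * D₀.b m x := by
          rw [Finset.sum_congr rfl fun j _ => Finset.sum_comm (s := Finset.univ (α := G₀))
            (t := Finset.univ (α := G₀)) (f := fun l m => zeE S (c j * c' l * D₀.k.μ j l m) *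
              D₀.b m x), Finset.sum_comm]
      _ = _ := by
          refine Finset.sum_congr rfl fun m _ => ?_
          rw [map_sum, Finset.sum_mul]
          refine Finset.sum_congr rfl fun j _ => ?_
          rw [map_sum, Finset.sum_mul]
  one_mem' := ⟨D₀.k.ν, fun x => (D₀.hone x).symm⟩
  add_mem' := by
    rintro f g ⟨c, hc⟩ ⟨c', hc'⟩
    refine ⟨fun l => c l + c' l, fun x => ?_⟩
    rw [Pi.add_apply, hc, hc', ← Finset.sum_add_distrib]
    refine Finset.sum_congr rfl fun l _ => ?_
    rw [map_add, add_mul]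
  zero_mem' := ⟨fun _ => 0, fun x => by simp⟩
  neg_mem' := by
    rintro f ⟨c, hc⟩
    refine ⟨fun l => -c l, fun x => ?_⟩
    rw [Pi.neg_apply, hc, ← Finset.sum_neg_distrib]
    refine Finset.sum_congr rfl fun l _ => ?_
    rw [map_neg, neg_mul]

private theorem A9_mem (f : G₀ → El S) :
    f ∈ A9_S0 D₀ ↔ ∃ c : G₀ → k[X], ∀ x, f x = ∑ l, zeE S (c l) * D₀.b l x := Iff.rfl

private theorem A9_b (l : G₀) : (fun x => D₀.b l x) ∈ A9_S0 D₀ := by
  refine ⟨fun m => if l = m then 1 else 0, fun x => ?_⟩
  simp [apply_ite (zeE S)]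

private theorem A9_tr (f : G₀ → El S) (hf : f ∈ A9_S0 D₀) (g : G₀) :
    (fun x => f (x * g)) ∈ A9_S0 D₀ := by
  obtain ⟨c, hc⟩ := hf
  refine ⟨fun m => ∑ l, c l * D₀.k.α g l m, fun x => ?_⟩
  change f (x * g) = _
  rw [hc]
  calc ∑ l, zeE S (c l) * D₀.b l (x * g)
      = ∑ l, ∑ m, zeE S (c l * D₀.k.α g l m) * D₀.b m x := by
        refine Finset.sum_congr rfl fun l _ => ?_
        rw [D₀.hact, Finset.mul_sum]
        refine Finset.sum_congr rfl fun m _ => ?_
        rw [map_mul]
        ring
    _ = ∑ m, ∑ l, zeE S (c l * D₀.k.α g l m) * D₀.b m x := Finset.sum_comm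
    _ = _ := by
        refine Finset.sum_congr rfl fun m _ => ?_
        rw [map_sum, Finset.sum_mul]

private theorem A9_ze (c : k[X]) : (fun _ : G₀ => zeE S c) ∈ A9_S0 D₀ := by
  refine ⟨fun l => c * D₀.k.ν l, fun x => ?_⟩
  calc zeE S c = zeE S c * ∑ l, zeE S (D₀.k.ν l) * D₀.b l x := by rw [D₀.hone, mul_one]
    _ = _ := by
        rw [Finset.mul_sum]
        refine Finset.sum_congr rfl fun l _ => ?_
        rw [map_mul]
        ring

private theorem A9_P (f : G₀ → El S) (hf : f ∈ A9_S0 D₀) (u : P) (x : G₀) :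
    f (i₀ u * x) = actE S u (f x) := by
  obtain ⟨c, hc⟩ := hf
  rw [hc, hc, map_sum]
  refine Finset.sum_congr rfl fun l _ => ?_
  rw [map_mul, actE_zeE, D₀.hP]

/-- a constant function in `S₀` -/
private theorem A9_const (a : El S) (ha : (fun _ : G₀ => a) ∈ A9_S0 D₀) :
    ∃ c : k[X], a = zeE S c := by
  obtain ⟨c, hc⟩ := ha
  obtain ⟨S₁, hS₁⟩ := GD.exists_SC D₀ (zeE_injective S)
  obtain ⟨θ, hθ⟩ := exists_theta S₁
  have hν : S₁.ν = D₀.k.ν := congrArg Ks.ν hS₁
  have hα : S₁.α = D₀.k.α := congrArg Ks.α hS₁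
  -- the trace of theta
  have h1 : ∑ h : G₀, ∑ l, zeE S (θ l) * D₀.b l h = 1 := by
    have h2 : ∀ m, ∑ h : G₀, ∑ l, θ l * D₀.k.α h l m = D₀.k.ν m := by
      intro m
      have h3 := congrFun hθ m
      rw [Al.sum_apply, Al.one_apply, hν] at h3
      rw [← h3]
      refine Finset.sum_congr rfl fun h _ => ?_
      rw [Al.act_apply, hα]
    calc ∑ h : G₀, ∑ l, zeE S (θ l) * D₀.b l h
        = ∑ h : G₀, ∑ l, ∑ m, zeE S (θ l * D₀.k.α h l m) * D₀.b m 1 := by
          refine Finset.sum_congr rfl fun h _ => Finset.sum_congr rfl fun l _ => ?_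
          have h3 := D₀.hact h l 1
          rw [one_mul] at h3
          rw [h3, Finset.mul_sum]
          refine Finset.sum_congr rfl fun m _ => ?_
          rw [map_mul]
          ring
      _ = ∑ h : G₀, ∑ m, ∑ l, zeE S (θ l * D₀.k.α h l m) * D₀.b m 1 :=
          Finset.sum_congr rfl fun h _ => Finset.sum_comm
      _ = ∑ m, ∑ h : G₀, ∑ l, zeE S (θ l * D₀.k.α h l m) * D₀.b m 1 := Finset.sum_comm
      _ = ∑ m, zeE S (D₀.k.ν m) * D₀.b m 1 := by
          refine Finset.sum_congr rfl fun m _ => ?_
          rw [← h2 m, map_sum, Finset.sum_mul]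
          refine Finset.sum_congr rfl fun h _ => ?_
          rw [map_sum, Finset.sum_mul]
      _ = 1 := D₀.hone 1
  refine ⟨∑ l, ∑ m, θ l * c m * D₀.k.T l m, ?_⟩
  calc a = a * ∑ h : G₀, ∑ l, zeE S (θ l) * D₀.b l h := by rw [h1, mul_one]
    _ = ∑ h : G₀, ∑ l, ∑ m, zeE S (θ l * c m) * (D₀.b l h * D₀.b m h) := by
        rw [Finset.mul_sum]
        refine Finset.sum_congr rfl fun h _ => ?_
        rw [Finset.mul_sum]
        refine Finset.sum_congr rfl fun l _ => ?_
        have h2 : a = ∑ m, zeE S (c m) * D₀.b m h := hc h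
        conv_lhs => rw [h2]
        rw [Finset.sum_mul]
        refine Finset.sum_congr rfl fun m _ => ?_
        rw [map_mul]
        ring
    _ = ∑ l, ∑ m, ∑ h : G₀, zeE S (θ l * c m) * (D₀.b l h * D₀.b m h) := by
        rw [Finset.sum_comm]
        exact Finset.sum_congr rfl fun l _ => Finset.sum_comm
    _ = _ := by
        rw [map_sum]
        refine Finset.sum_congr rfl fun l _ => ?_
        rw [map_sum]
        refine Finset.sum_congr rfl fun m _ => ?_
        rw [← Finset.mul_sum, D₀.htr, ← map_mul]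

end

private theorem A9_rep {G₀ G : Type} [Group G₀] [Group G] (φ : G₀ →* G)
    (hφ : Function.Injective φ) : ∃ (rep : G → G) (η : G → G₀), (∀ x, x = φ (η x) * rep x) ∧
      (∀ h x, rep (φ h * x) = rep x) ∧ ∀ h x, η (φ h * x) = h * η x := by
  let s : Setoid G := ⟨fun x y => ∃ h, y = φ h * x,
    ⟨fun x => ⟨1, by simp⟩, fun {x y} ⟨h, e⟩ => ⟨h⁻¹, by rw [e]; simp⟩,
      fun {x y z} ⟨h, e⟩ ⟨h', e'⟩ => ⟨h' * h, by rw [e', e, map_mul, mul_assoc]⟩⟩⟩
  let rep : G → G := fun x => (Quotient.mk s x).out
  have h1 : ∀ x, ∃ h, x = φ h * rep x := fun x => by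
    have h2 : s.r (rep x) x := Quotient.exact (s := s) (Quotient.out_eq (Quotient.mk s x))
    exact h2
  choose η hη using h1
  have hrep : ∀ h x, rep (φ h * x) = rep x := by
    intro h x
    have h2 : Quotient.mk s (φ h * x) = Quotient.mk s x :=
      Quotient.sound (s := s) ⟨h⁻¹, by simp⟩
    change (Quotient.mk s (φ h * x)).out = (Quotient.mk s x).out
    rw [h2]
  refine ⟨rep, η, hη, hrep, fun h x => ?_⟩
  apply hφ
  have h2 := hη (φ h * x)
  rw [hrep] at h2
  have h3 := hη x
  rw [map_mul]
  apply mul_right_cancel (b := rep x)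
  rw [← h2, mul_assoc, ← h3]

theorem re_ind {p : ℕ} {k : Type} [Field k] {P : Type} [Group P] [Fintype P] {G₀ : Type}
    [Group G₀] [Fintype G₀] {G : Type} [Group G] [Fintype G] (i₀ : P →* G₀) (φ : G₀ →* G)
    (hφ : Function.Injective φ) (H : Subgroup G₀) (h : RE p k i₀ H) :
    RE p k (φ.comp i₀) (H.map φ) := by
  obtain ⟨S, hTC, D₀, hD₀⟩ := h
  obtain ⟨rep, η, hη, hrep, hηm⟩ := A9_rep φ hφ
  -- the subring
  let S' : Subring (G → El S) :=
    { carrier := {f | ∀ x : G, (fun h => f (φ h * x)) ∈ A9_S0 D₀}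
      mul_mem' := fun {f g} hf hg x => (A9_S0 D₀).mul_mem (hf x) (hg x)
      one_mem' := fun _ => (A9_S0 D₀).one_mem
      add_mem' := fun {f g} hf hg x => (A9_S0 D₀).add_mem (hf x) (hg x)
      zero_mem' := fun _ => (A9_S0 D₀).zero_mem
      neg_mem' := fun {f} hf x => (A9_S0 D₀).neg_mem (hf x) }
  have hmem : ∀ f : G → El S, f ∈ S' ↔ ∀ x : G, (fun h => f (φ h * x)) ∈ A9_S0 D₀ :=
    fun _ => Iff.rfl
  have hnt : Nontrivial (El S) := (oE_injective S).nontrivial
  have htf : ∀ (f : k[X]) (a : El S), zeE S f * a = 0 → f = 0 ∨ a = 0 := by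
    intro f a hfa
    by_cases hf : f = 0
    · exact Or.inl hf
    · right
      refine Al.ext fun l => ?_
      have h1 : (zeE S f * a) l = AI.zinv k f * a l := Al.cst_mul _ _ _ _
      rw [hfa] at h1
      have h2 : AI.zinv k f ≠ 0 := by
        intro h3
        exact hf (AI.zinv_injective (h3.trans (map_zero _).symm))
      exact (mul_eq_zero.1 h1.symm).resolve_left h2
  -- the functions `[b]_r`
  let ext : (G₀ → El S) → G → G → El S := fun b r x => if rep x = r then b (η x) else 0
  have hext : ∀ b ∈ A9_S0 D₀, ∀ r, ext b r ∈ S' := by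
    intro b hb r x
    by_cases hr : rep x = r
    · have h1 : (fun h => ext b r (φ h * x)) = fun h => b (h * η x) := by
        funext h
        simp only [ext, hrep, hηm, if_pos hr]
      rw [h1]
      exact A9_tr D₀ b hb (η x)
    · have h1 : (fun h => ext b r (φ h * x)) = 0 := by
        funext h
        simp only [ext, hrep, if_neg hr]
        rfl
      rw [h1]
      exact (A9_S0 D₀).zero_mem
  have hzeS : ∀ f : k[X], (fun _ => zeE S f) ∈ S' := fun f _ => A9_ze D₀ f
  obtain ⟨D, hD1, hD2⟩ := exists_GD (φ.comp i₀) (zeE S) (actE S) htf S'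
    (by
      intro f hf u x
      have h1 := A9_P D₀ _ (hf x) u 1
      simp only [mul_one, map_one, one_mul] at h1
      exact h1)
    (by
      intro f hf g x
      have h1 := hf (x * g)
      simp only [← mul_assoc] at h1
      exact h1)
    hzeS
    (by
      refine ⟨Fintype.card (G × G₀), fun j => ext (fun x => D₀.b ((Fintype.equivFin _).symm j).2 x)
        ((Fintype.equivFin (G × G₀)).symm j).1, fun j => hext _ (A9_b D₀ _) _, ?_⟩
      intro f hf
      choose c hc using hf
      refine ⟨fun j => c ((Fintype.equivFin (G × G₀)).symm j).1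
        ((Fintype.equivFin (G × G₀)).symm j).2, fun x => ?_⟩
      rw [(Fintype.equivFin (G × G₀)).symm.sum_comp
        (fun a : G × G₀ => zeE S (c a.1 a.2) * ext (fun x => D₀.b a.2 x) a.1 x),
        Fintype.sum_prod_type]
      have h1 : f x = ∑ l, zeE S (c (rep x) l) * D₀.b l (η x) := by
        have h2 := hc (rep x) (η x)
        simp only [← hη x] at h2
        exact h2
      rw [h1]
      simp only [ext, mul_ite, mul_zero]
      rw [Finset.sum_comm]
      simp)
    (by
      intro f hf hinv
      have h1 : (fun _ : G₀ => f 1) ∈ A9_S0 D₀ := by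
        have h2 := hf 1
        have h3 : (fun h => f (φ h * 1)) = fun _ : G₀ => f 1 := by
          funext h
          have := hinv (φ h) 1
          rw [one_mul] at this
          rw [mul_one, this]
        rw [h3] at h2
        exact h2
      obtain ⟨c, hc⟩ := A9_const D₀ _ h1
      refine ⟨c, fun x => ?_⟩
      have := hinv x 1
      rw [one_mul] at this
      rw [this, hc])
    (by
      refine ⟨Fintype.card (G × G₀), fun j => ext (fun x => D₀.b ((Fintype.equivFin _).symm j).2 x)
        ((Fintype.equivFin (G × G₀)).symm j).1,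
        fun j => ext (fun x => ∑ m, zeE S (D₀.k.T' ((Fintype.equivFin (G × G₀)).symm j).2 m) *
          D₀.b m x) ((Fintype.equivFin (G × G₀)).symm j).1, fun j => hext _ (A9_b D₀ _) _,
        fun j => hext _ ⟨fun m => D₀.k.T' _ m, fun x => rfl⟩ _, ?_⟩
      intro x x'
      rw [(Fintype.equivFin (G × G₀)).symm.sum_comp
        (fun a : G × G₀ => ext (fun x => D₀.b a.2 x) a.1 x *
          ext (fun x => ∑ m, zeE S (D₀.k.T' a.2 m) * D₀.b m x) a.1 x'),
        Fintype.sum_prod_type]
      have h1 : ∀ r : G, (∑ l, ext (fun x => D₀.b l x) r x *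
          ext (fun x => ∑ m, zeE S (D₀.k.T' l m) * D₀.b m x) r x') =
          if rep x = r then (if rep x' = r then (if η x = η x' then 1 else 0) else 0) else 0 := by
        intro r
        simp only [ext]
        by_cases h2 : rep x = r
        · by_cases h3 : rep x' = r
          · simp only [if_pos h2, if_pos h3]
            rw [← D₀.hdual (η x) (η x')]
            refine Finset.sum_congr rfl fun l _ => ?_
            rw [Finset.mul_sum]
            refine Finset.sum_congr rfl fun m _ => ?_
            ring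
          · simp only [if_pos h2, if_neg h3, mul_zero, Finset.sum_const_zero]
        · simp only [if_neg h2, zero_mul, Finset.sum_const_zero]
      rw [Finset.sum_congr rfl fun r _ => h1 r, Finset.sum_ite_eq Finset.univ (rep x),
        if_pos (Finset.mem_univ _)]
      by_cases h2 : x = x'
      · subst h2
        simp
      · rw [if_neg h2]
        by_cases h3 : rep x' = rep x
        · rw [if_pos h3, if_neg]
          intro h4
          apply h2
          rw [hη x, hη x', h3, h4]
        · rw [if_neg h3])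
  refine ⟨S, hTC, D, ?_⟩
  rintro _ ⟨h, hh, rfl⟩ f c hloc
  have hF : (fun x => ∑ l, zeE S (f l) * D.b l x) ∈ S' := by
    have h1 : (fun x => ∑ l, zeE S (f l) * D.b l x) =
        ∑ l, (fun _ => zeE S (f l)) * fun x => D.b l x := by
      funext x
      rw [Finset.sum_apply]
      rfl
    rw [h1]
    exact S'.sum_mem fun l _ => S'.mul_mem (hzeS _) (hD1 l)
  obtain ⟨c', hc'⟩ := hF 1
  have h2 := hD₀ h hh c' (fun x => c (φ x)) (fun x => by
    rw [← hc' x]
    simp only [mul_one]
    exact hloc (φ x))
  simp only [map_one] at h2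
  exact h2

end

end Pool.Agent.MP_1c8e06_ag.AJ
end

section

set_option autoImplicit false

open Polynomial
open scoped Classical

namespace Pool.Agent.MP_1c8e06_ag.AJ

noncomputable section

/-!
# Task L7: the group of the component

Proof.  Let `𝓒` be the set of functions `c : G → k` for which some `f` satisfies
`∑ zeE (f l) * D.b l x = zeE (C (c x))` for all `x`.  `𝓒` is a `k`-subalgebra of `G → k` (`hmul`, `hone`), stable under
`c ↦ c (· * y)` (`hact`).  `H := {h | ∀ c ∈ 𝓒, c h = c 1}` is a subgroup (as in `GD.conn_sup`), `D.Conn' H`, and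
`c x = c y` for all `c ∈ 𝓒` iff `x * y⁻¹ ∈ H` (translate).  `i u ∈ H`: `D.hP`, `actE_zeE`, `zeE_injective`.
Suppose `g₀ ∉ H ⊔ Q.ker`.  The function `ε x := 1` if `x ∈ H ⊔ ker Q` and `0` otherwise is in `𝓒`: it is constant on the
classes `{x : x y⁻¹ ∈ H}`; `𝓒` is an algebra of functions on the finite set `G` which separates the
classes, so it contains the indicator function of every class (product over the other classes `y` of
`(c_y - c_y(y)) / (c_y(x) - c_y(y))`) and hence all functions constant on classes.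
`ker Q` is normal, so `H ⊔ ker Q = H * ker Q` and `ε (x n) = ε x` for `n ∈ ker Q`.  By `hD` there is `f'` with
`∑ zeE (f' l) * D₁.b l (Q x) = zeE (C (ε x))`; `ε` factors through `Q` (onto), so `D₁.Conn' ⊤` gives
`ε g₀ = ε 1`, i.e. `0 = 1`: contradiction.
-/

/-- locally constant functions -/
private def L7_C {R : Type} [CommRing R] {P : Type} [Group P] [Fintype P] {G : Type} [Group G]
    [Fintype G] {i : P →* G} {A : Type} [CommRing A] {ze : R[X] →+* A} {act : P →* (A →+* A)}
    (D : GD i ze act) : Subring (G → R) where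
  carrier := {c | ∃ f : G → R[X], ∀ x, ∑ l, ze (f l) * D.b l x = ze (C (c x))}
  zero_mem' := ⟨fun _ => 0, fun x => by simp⟩
  one_mem' := ⟨D.k.ν, fun x => by rw [D.hone]; simp⟩
  add_mem' := by
    rintro c c' ⟨f, hf⟩ ⟨f', hf'⟩
    refine ⟨fun l => f l + f' l, fun x => ?_⟩
    simp only [map_add, add_mul, Finset.sum_add_distrib, Pi.add_apply]
    rw [hf, hf']
  neg_mem' := by
    rintro c ⟨f, hf⟩
    refine ⟨fun l => -f l, fun x => ?_⟩
    simp only [map_neg, neg_mul, Finset.sum_neg_distrib, Pi.neg_apply]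
    rw [hf]
  mul_mem' := by
    rintro c c' ⟨f, hf⟩ ⟨f', hf'⟩
    refine ⟨fun m => ∑ j, ∑ l, f j * f' l * D.k.μ j l m, fun x => ?_⟩
    rw [Pi.mul_apply, map_mul, map_mul, ← hf, ← hf', Finset.sum_mul_sum]
    simp only [map_sum, map_mul, Finset.sum_mul]
    rw [Finset.sum_comm]
    refine Finset.sum_congr rfl fun j _ => ?_
    rw [Finset.sum_comm]
    refine Finset.sum_congr rfl fun l _ => ?_
    calc ∑ m, ze (f j) * ze (f' l) * ze (D.k.μ j l m) * D.b m x
        = ze (f j) * ze (f' l) * ∑ m, ze (D.k.μ j l m) * D.b m x := by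
          rw [Finset.mul_sum]
          refine Finset.sum_congr rfl fun m _ => ?_
          ring
      _ = _ := by
          rw [← D.hmul]
          ring

section
variable {R : Type} [CommRing R] {P : Type} [Group P] [Fintype P] {G : Type} [Group G]
    [Fintype G] {i : P →* G} {A : Type} [CommRing A] {ze : R[X] →+* A} {act : P →* (A →+* A)}

private theorem L7_mem (D : GD i ze act) (c : G → R) : c ∈ L7_C D ↔
    ∃ f : G → R[X], ∀ x, ∑ l, ze (f l) * D.b l x = ze (C (c x)) := Iff.rfl

private theorem L7_const (D : GD i ze act) (r : R) : (fun _ => r) ∈ L7_C D := by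
  refine ⟨fun l => C r * D.k.ν l, fun x => ?_⟩
  simp only [map_mul, mul_assoc]
  rw [← Finset.mul_sum, D.hone, mul_one]

private theorem L7_shift (D : GD i ze act) {c : G → R} (hc : c ∈ L7_C D) (y : G) :
    (fun x => c (x * y)) ∈ L7_C D := by
  obtain ⟨f, hf⟩ := hc
  refine ⟨fun m => ∑ l, f l * D.k.α y l m, fun x => ?_⟩
  rw [← hf]
  simp only [map_sum, map_mul, Finset.sum_mul]
  rw [Finset.sum_comm]
  refine Finset.sum_congr rfl fun l _ => ?_
  rw [D.hact, Finset.mul_sum]
  refine Finset.sum_congr rfl fun m _ => ?_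
  ring

private def L7_H (D : GD i ze act) : Subgroup G where
  carrier := {h | ∀ c ∈ L7_C D, c h = c 1}
  one_mem' := fun _ _ => rfl
  mul_mem' := by
    intro h h' hh hh' c hc
    have h1 := hh _ (L7_shift D hc h')
    simp only [one_mul] at h1
    rw [h1]
    exact hh' c hc
  inv_mem' := by
    intro h hh c hc
    have h1 := hh _ (L7_shift D hc h⁻¹)
    simp only [one_mul, mul_inv_cancel] at h1
    exact h1.symm

private theorem L7_memH (D : GD i ze act) (h : G) : h ∈ L7_H D ↔ ∀ c ∈ L7_C D, c h = c 1 := Iff.rfl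

private theorem L7_class (D : GD i ze act) {x y : G} (h : ∀ c ∈ L7_C D, c x = c y) :
    x * y⁻¹ ∈ L7_H D := by
  intro c hc
  have h1 := h _ (L7_shift D hc y⁻¹)
  simp only [mul_inv_cancel] at h1
  exact h1

end

section
variable {R : Type} [Field R] {P : Type} [Group P] [Fintype P] {G : Type} [Group G]
    [Fintype G] {i : P →* G} {A : Type} [CommRing A] {ze : R[X] →+* A} {act : P →* (A →+* A)}

private theorem L7_sep (D : GD i ze act) {x y : G} (h : ¬ ∀ c ∈ L7_C D, c x = c y) :
    ∃ g ∈ L7_C D, g x = 1 ∧ g y = 0 := by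
  push Not at h
  obtain ⟨c, hc, hxy⟩ := h
  refine ⟨(fun _ => (c x - c y)⁻¹) * (c - fun _ => c y),
    (L7_C D).mul_mem (L7_const D _) ((L7_C D).sub_mem hc (L7_const D _)), ?_, ?_⟩
  · simp only [Pi.mul_apply, Pi.sub_apply]
    exact inv_mul_cancel₀ (sub_ne_zero.2 hxy)
  · simp only [Pi.mul_apply, Pi.sub_apply, sub_self, mul_zero]

private theorem L7_delta (D : GD i ze act) (x : G) :
    ∃ g ∈ L7_C D, g x = 1 ∧ ∀ y, (¬ ∀ c ∈ L7_C D, c x = c y) → g y = 0 := by
  have h1 : ∀ y, ∃ g ∈ L7_C D, g x = 1 ∧ ((¬ ∀ c ∈ L7_C D, c x = c y) → g y = 0) := by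
    intro y
    by_cases h : ∀ c ∈ L7_C D, c x = c y
    · exact ⟨1, (L7_C D).one_mem, rfl, fun h' => absurd h h'⟩
    · obtain ⟨g, hg, h1, h2⟩ := L7_sep D h
      exact ⟨g, hg, h1, fun _ => h2⟩
  choose g hg hg1 hg2 using h1
  refine ⟨∏ y, g y, Subring.prod_mem _ fun y _ => hg y, ?_, fun y hy => ?_⟩
  · rw [Finset.prod_apply]
    exact Finset.prod_eq_one fun y _ => hg1 y
  · rw [Finset.prod_apply]
    exact Finset.prod_eq_zero (Finset.mem_univ y) (hg2 y hy)

private theorem L7_ind (D : GD i ze act) (W : Subgroup G) (hW : L7_H D ≤ W) :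
    (fun x => if x ∈ W then (1 : R) else 0) ∈ L7_C D := by
  choose g hg hg1 hg2 using L7_delta D
  have h1 : (fun x => if x ∈ W then (1 : R) else 0) =
      1 - ∏ x ∈ Finset.univ.filter (fun x => x ∈ W), (1 - g x) := by
    funext z
    rw [Pi.sub_apply, Finset.prod_apply, Pi.one_apply]
    by_cases hz : z ∈ W
    · rw [if_pos hz, Finset.prod_eq_zero (i := z) (by simpa using hz), sub_zero]
      rw [Pi.sub_apply, hg1, Pi.one_apply, sub_self]
    · rw [if_neg hz, Finset.prod_eq_one, sub_self]
      intro x hx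
      have hxW : x ∈ W := by simpa using hx
      rw [Pi.sub_apply, Pi.one_apply, hg2 x z, sub_zero]
      intro h
      have h2 := hW (L7_class D (x := z) (y := x) fun c hc => (h c hc).symm)
      apply hz
      have h3 := W.mul_mem h2 hxW
      rwa [inv_mul_cancel_right] at h3
  rw [h1]
  exact (L7_C D).sub_mem (L7_C D).one_mem (Subring.prod_mem _ fun x _ =>
    (L7_C D).sub_mem (L7_C D).one_mem (hg x))

end

theorem component_group {k : Type} [Field k] {P G G' : Type} [Group P] [Fintype P] [Group G]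
    [Fintype G] [Group G'] [Fintype G'] (i : P →* G) (Q : G →* G') (hQ : Function.Surjective Q)
    (S : SC k[X] P) (D₁ : GD (Q.comp i) (zeE S) (actE S)) (hD₁ : D₁.Conn' ⊤)
    (D : GD i (zeE S) (actE S))
    (hD : ∀ (f : G → k[X]) (c' : G → k), (∀ x, ∑ l, zeE S (f l) * D.b l x = zeE S (C (c' x))) →
      (∀ x n, Q n = 1 → c' (x * n) = c' x) →
      ∃ f' : G' → k[X], ∀ x, ∑ l, zeE S (f' l) * D₁.b l (Q x) = zeE S (C (c' x))) :
    ∃ H : Subgroup G, i.range ≤ H ∧ H ⊔ Q.ker = ⊤ ∧ D.Conn' H := by
  refine ⟨L7_H D, ?_, ?_, ?_⟩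
  · rintro _ ⟨u, rfl⟩
    intro c hc
    obtain ⟨f, hf⟩ := hc
    have h1 := hf (i u)
    have h2 := hf 1
    have h3 := congrArg (actE S u) h2
    rw [actE_zeE, map_sum] at h3
    have h4 : zeE S (C (c (i u))) = zeE S (C (c 1)) := by
      rw [← h1, ← h3]
      refine Finset.sum_congr rfl fun l _ => ?_
      rw [map_mul, actE_zeE, ← D.hP, mul_one]
    exact C_injective (zeE_injective S h4)
  · by_contra hne
    obtain ⟨g₀, hg₀⟩ : ∃ g₀, g₀ ∉ L7_H D ⊔ Q.ker := by
      by_contra hc
      push Not at hc
      exact hne (Subgroup.eq_top_iff' _ |>.2 hc)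
    obtain ⟨f, hf⟩ := L7_ind D (L7_H D ⊔ Q.ker) le_sup_left
    obtain ⟨f', hf'⟩ := hD f _ hf (by
      intro x n hn
      have hn' : n ∈ L7_H D ⊔ Q.ker := (le_sup_right : Q.ker ≤ _) hn
      have h1 : x * n ∈ L7_H D ⊔ Q.ker ↔ x ∈ L7_H D ⊔ Q.ker := Subgroup.mul_mem_cancel_right _ hn'
      by_cases hx : x ∈ L7_H D ⊔ Q.ker
      · rw [if_pos hx, if_pos (h1.2 hx)]
      · rw [if_neg hx, if_neg (fun h => hx (h1.1 h))])
    have h2 := hD₁ (Q g₀) (Subgroup.mem_top _) f'
      (fun y => if Function.surjInv hQ y ∈ L7_H D ⊔ Q.ker then (1 : k) else 0) (by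
        intro y
        rw [← hf' (Function.surjInv hQ y), Function.surjInv_eq hQ y])
    have h3 : ∀ x : G, (if Function.surjInv hQ (Q x) ∈ L7_H D ⊔ Q.ker then (1 : k) else 0) =
        if x ∈ L7_H D ⊔ Q.ker then (1 : k) else 0 := by
      intro x
      apply C_injective (R := k)
      apply zeE_injective S
      rw [← hf' (Function.surjInv hQ (Q x)), ← hf' x, Function.surjInv_eq hQ (Q x)]

    rw [h3, ← map_one Q, h3, if_neg hg₀, if_pos (Subgroup.one_mem _)] at h2
    exact zero_ne_one h2
  · intro h hh f c hf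
    exact hh c ⟨f, hf⟩

end

end Pool.Agent.MP_1c8e06_ag.AJ
end
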