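import Pool.Agent.Lib.MP_1c8e06_ag.AJ.Defs3
import Pool.Agent.Lib.MP_1c8e06_ag.Mg.G049

section

set_option autoImplicit false

open Polynomial
open scoped Classical

namespace Pool.Agent.MP_1c8e06_ag.AJ

noncomputable section

/-!
# Task B1: `jP`, `iP`, `inclL` and the intersection `BL ∩ κ[X]((t)) = κ((t))[X]`

Proofs.
* `jP_iP`: both sides are ring homomorphisms in `f`: check `C c` (`mapL zinv (mapL C c) = mapL C c`,
  `AI.zinv_C`) and `X` (`AI.zinv_X`).
* `jP_injective`: coefficientwise, `AI.zinv_injective`.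
* `exists_of_mem`: let `N` be the bound of `a`.  `(a.coeff n) = zinv (b.coeff n)`, so
  `(b.coeff n).coeff m = ((a.coeff n)).coeff (-m) = 0` for `m > N` (`AI.zinv_coeff`).  Put
  `f := ∑_{m ≤ N} C (c_m) * X^m` with `c_m ∈ κ((t))` the Laurent series `n ↦ (b.coeff n).coeff m`
  (`HahnSeries.map b (lcoeff m)` or `AI.mapL`-like: its support is contained in the support of `b`).
  `iP f = b`: compare coefficients; then `iB f = a` since both have the image `jP b` in `AL κ`.
* `trP_C`, `trP_X`: `Polynomial.C_comp`, `X_comp`.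
* `trP_inj`: it has the inverse `comp (X - C t⁻¹)`.
-/

variable {κ : Type} [Field κ]

private theorem B1_mapL_C {R S : Type} [CommRing R] [CommRing S] (φ : R →+* S) (x : R) :
    AI.mapL φ (HahnSeries.C x) = HahnSeries.C (φ x) := by
  ext n
  rw [AI.mapL_coeff, HahnSeries.C_apply, HahnSeries.C_apply, HahnSeries.coeff_single,
    HahnSeries.coeff_single]
  split_ifs
  · rfl
  · exact map_zero φ

theorem jP_iP (f : (LaurentSeries κ)[X]) : jP κ (iP κ f) = inclL κ f := by
  have h : (jP κ).comp (iP κ) = inclL κ := by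
    refine Polynomial.ringHom_ext ?_ ?_
    · intro a
      rw [RingHom.comp_apply, iP, inclL, Polynomial.coe_eval₂RingHom, Polynomial.eval₂_C,
        Polynomial.coe_eval₂RingHom, Polynomial.eval₂_C, jP]
      ext n : 2
      rw [AI.mapL_coeff, AI.mapL_coeff, AI.mapL_coeff, AI.zinv_C]
    · rw [RingHom.comp_apply, iP, inclL, Polynomial.coe_eval₂RingHom, Polynomial.eval₂_X,
        Polynomial.coe_eval₂RingHom, Polynomial.eval₂_X, jP, B1_mapL_C, AI.zinv_X]
  exact RingHom.congr_fun h f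

theorem jP_injective : Function.Injective (jP κ) := by
  intro a b h
  ext n : 2
  have h1 := congrArg (fun z : AL κ => z.coeff n) h
  exact AI.zinv_injective h1

theorem exists_of_mem (a : BL κ) (b : LaurentSeries κ[X]) (h : (a : AL κ) = jP κ b) :
    ∃ f, iB κ f = a ∧ iP κ f = b := by
  obtain ⟨N, hN⟩ := (mem_BL κ).1 a.2
  have h1 : ∀ (n : ℤ) (m : ℕ), N < m → (b.coeff n).coeff m = 0 := by
    intro n m hm
    have h2 := hN n (-(m : ℤ)) (by omega)
    rw [h] at h2
    change (AI.zinv κ (b.coeff n)).coeff (-(m : ℤ)) = 0 at h2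
    rw [AI.zinv_coeff, if_pos (by omega)] at h2
    simpa using h2
  have h3 : iP κ (∑ m ∈ Finset.range (N + 1),
      C (HahnSeries.map b (Polynomial.lcoeff κ m) : LaurentSeries κ) * X ^ m) = b := by
    ext n : 2
    rw [map_sum, HahnSeries.coeff_sum]
    have h4 : ∀ m ∈ Finset.range (N + 1), ((iP κ) (C (HahnSeries.map b (Polynomial.lcoeff κ m) :
        LaurentSeries κ) * X ^ m)).coeff n = Polynomial.monomial m ((b.coeff n).coeff m) := by
      intro m _
      rw [map_mul, map_pow, iP, Polynomial.coe_eval₂RingHom, Polynomial.eval₂_C,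
        Polynomial.eval₂_X, ← map_pow, mul_comm, HahnSeries.C_mul_eq_smul, HahnSeries.coeff_smul,
        AI.mapL_coeff, HahnSeries.map_coeff, Polynomial.lcoeff_apply, smul_eq_mul, mul_comm,
        Polynomial.C_mul_X_pow_eq_monomial]
    rw [Finset.sum_congr rfl h4]
    refine (Polynomial.as_sum_range' _ _ ?_).symm
    rw [Nat.lt_succ_iff, Polynomial.natDegree_le_iff_coeff_eq_zero]
    exact fun m hm => h1 n m hm
  refine ⟨_, ?_, h3⟩
  apply Subtype.ext
  rw [iB_coe, h, ← jP_iP, h3]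

theorem trP_surjective : Function.Surjective (trP κ) := by
  intro f
  refine ⟨f.comp (X - C (HahnSeries.single (-1 : ℤ) (1 : κ))), ?_⟩
  change (f.comp (X - C (HahnSeries.single (-1 : ℤ) (1 : κ)))).comp
    (X + C (HahnSeries.single (-1 : ℤ) (1 : κ))) = f
  rw [Polynomial.comp_assoc, Polynomial.sub_comp, Polynomial.X_comp, Polynomial.C_comp,
    add_sub_cancel_right, Polynomial.comp_X]

theorem iP_C (c : LaurentSeries κ) : iP κ (C c) = AI.mapL (Polynomial.C : κ →+* κ[X]) c := by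
  rw [iP, Polynomial.coe_eval₂RingHom, Polynomial.eval₂_C]

theorem iP_X : iP κ X = HahnSeries.C X := by
  rw [iP, Polynomial.coe_eval₂RingHom, Polynomial.eval₂_X]

end

end Pool.Agent.MP_1c8e06_ag.AJ
end

section

set_option autoImplicit false

open Polynomial
open scoped Classical

namespace Pool.Agent.MP_1c8e06_ag.AJ

noncomputable section

/-- The diagonal `∑ c_n(t) T^n ↦ ∑ c_n(t) t^n`. -/
private def B3_diagF {A : Type} [CommRing A] (a : PowerSeries (PowerSeries A)) : PowerSeries A :=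
  PowerSeries.mk fun K => ∑ q ∈ Finset.HasAntidiagonal.antidiagonal K,
    PowerSeries.coeff q.2 (PowerSeries.coeff q.1 a)

private theorem B3_coeff_diagF {A : Type} [CommRing A] (a : PowerSeries (PowerSeries A)) (K : ℕ) :
    PowerSeries.coeff K (B3_diagF a) = ∑ q ∈ Finset.HasAntidiagonal.antidiagonal K,
      PowerSeries.coeff q.2 (PowerSeries.coeff q.1 a) := PowerSeries.coeff_mk _ _

private theorem B3_diag_mul {A : Type} [CommRing A] (a b : PowerSeries (PowerSeries A)) :
    B3_diagF (a * b) = B3_diagF a * B3_diagF b := by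
  ext K
  rw [PowerSeries.coeff_mul]
  simp only [B3_coeff_diagF, PowerSeries.coeff_mul, map_sum, Finset.sum_mul_sum,
    Finset.sum_sigma']
  refine Finset.sum_nbij'
    (fun x => ⟨(x.2.1.1 + x.2.2.1, x.2.1.2 + x.2.2.2), ⟨(x.2.1.1, x.2.2.1), (x.2.1.2, x.2.2.2)⟩⟩)
    (fun x => ⟨(x.2.1.1 + x.2.2.1, x.2.1.2 + x.2.2.2), ⟨(x.2.1.1, x.2.2.1), (x.2.1.2, x.2.2.2)⟩⟩)
    ?_ ?_ ?_ ?_ ?_
  · rintro ⟨⟨n, l⟩, ⟨⟨i, j⟩, ⟨r, s⟩⟩⟩ h
    simp only [Finset.mem_sigma, Finset.HasAntidiagonal.mem_antidiagonal, and_true] at h ⊢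
    obtain ⟨h1, h2, h3⟩ := h
    omega
  · rintro ⟨⟨n, l⟩, ⟨⟨i, j⟩, ⟨r, s⟩⟩⟩ h
    simp only [Finset.mem_sigma, Finset.HasAntidiagonal.mem_antidiagonal, and_true] at h ⊢
    obtain ⟨h1, h2, h3⟩ := h
    omega
  · rintro ⟨⟨n, l⟩, ⟨⟨i, j⟩, ⟨r, s⟩⟩⟩ h
    simp only [Finset.mem_sigma, Finset.HasAntidiagonal.mem_antidiagonal] at h
    obtain ⟨h1, h2, h3⟩ := h
    subst h2
    subst h3
    rfl
  · rintro ⟨⟨n, l⟩, ⟨⟨i, j⟩, ⟨r, s⟩⟩⟩ h
    simp only [Finset.mem_sigma, Finset.HasAntidiagonal.mem_antidiagonal] at h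
    obtain ⟨h1, h2, h3⟩ := h
    subst h2
    subst h3
    rfl
  · rintro ⟨⟨n, l⟩, ⟨⟨i, j⟩, ⟨r, s⟩⟩⟩ h
    rfl

private theorem B3_diag_C {A : Type} [CommRing A] (c : PowerSeries A) :
    B3_diagF (PowerSeries.C c) = c := by
  ext K
  rw [B3_coeff_diagF, Finset.sum_eq_single (0, K)]
  · rw [PowerSeries.coeff_C, if_pos rfl]
  · rintro ⟨n, l⟩ h1 h2
    rw [Finset.HasAntidiagonal.mem_antidiagonal] at h1
    have hn : n ≠ 0 := by
      rintro rfl
      apply h2
      simp only [zero_add] at h1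
      rw [h1]
    rw [PowerSeries.coeff_C, if_neg hn, map_zero]
  · intro h
    exact absurd (Finset.HasAntidiagonal.mem_antidiagonal.mpr (zero_add K)) h

private theorem B3_diag_mapC {A : Type} [CommRing A] (d : PowerSeries A) :
    B3_diagF (PowerSeries.map PowerSeries.C d) = d := by
  ext K
  rw [B3_coeff_diagF, Finset.sum_eq_single (K, 0)]
  · rw [PowerSeries.coeff_map, PowerSeries.coeff_C, if_pos rfl]
  · rintro ⟨n, l⟩ h1 h2
    rw [Finset.HasAntidiagonal.mem_antidiagonal] at h1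
    have hn : l ≠ 0 := by
      rintro rfl
      apply h2
      simp only [add_zero] at h1
      rw [h1]
    rw [PowerSeries.coeff_map, PowerSeries.coeff_C, if_neg hn]
  · intro h
    exact absurd (Finset.HasAntidiagonal.mem_antidiagonal.mpr (add_zero K)) h

private theorem B3_diag_add {A : Type} [CommRing A] (a b : PowerSeries (PowerSeries A)) :
    B3_diagF (a + b) = B3_diagF a + B3_diagF b := by
  ext K
  rw [map_add, B3_coeff_diagF, B3_coeff_diagF, B3_coeff_diagF, ← Finset.sum_add_distrib]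
  refine Finset.sum_congr rfl fun q _ => ?_
  rw [map_add, map_add]

private def B3_diag (A : Type) [CommRing A] : PowerSeries (PowerSeries A) →+* PowerSeries A where
  toFun := B3_diagF
  map_one' := by
    rw [← map_one (PowerSeries.C : PowerSeries A →+* PowerSeries (PowerSeries A)), B3_diag_C]
  map_mul' := B3_diag_mul
  map_zero' := by
    rw [← map_zero (PowerSeries.C : PowerSeries A →+* PowerSeries (PowerSeries A)), B3_diag_C]
  map_add' := B3_diag_add


private theorem B3_exists_nab0 (κ : Type) [Field κ] (v : PowerSeries κ[X]) :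
    ∃ ν₀ : PowerSeries (PowerSeries κ) →+* PowerSeries κ[X],
      ν₀ (PowerSeries.C PowerSeries.X) = PowerSeries.X * v ∧
      ν₀ PowerSeries.X = PowerSeries.X ∧
      (∀ c : PowerSeries κ, ν₀ (PowerSeries.map PowerSeries.C c) = PowerSeries.map C c) := by
  have hb : PowerSeries.HasSubst (PowerSeries.X * v) := by
    apply PowerSeries.HasSubst.of_constantCoeff_zero'
    rw [map_mul, PowerSeries.constantCoeff_X, zero_mul]
  let S : PowerSeries κ →+* PowerSeries κ[X] :=
    RingHomClass.toRingHom (PowerSeries.substAlgHom (R := κ) hb)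
  have hS : ∀ f, S f = PowerSeries.subst (PowerSeries.X * v) f := fun f =>
    congrFun (PowerSeries.coe_substAlgHom hb) f
  have hSX : S PowerSeries.X = PowerSeries.X * v := by
    rw [hS]
    exact PowerSeries.subst_X hb
  have hSC : ∀ c : κ, S (PowerSeries.C c) = PowerSeries.C (C c) := by
    intro c
    have e1 : algebraMap κ (PowerSeries κ) c = PowerSeries.C c := by
      rw [PowerSeries.algebraMap_apply]
      rfl
    have e2 : algebraMap κ (PowerSeries κ[X]) c = PowerSeries.C (C c) := by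
      rw [PowerSeries.algebraMap_apply]
      rfl
    have h := (PowerSeries.substAlgHom (R := κ) hb).commutes c
    rw [e1] at h
    exact h.trans e2
  let ν₀ : PowerSeries (PowerSeries κ) →+* PowerSeries κ[X] :=
    (B3_diag κ[X]).comp (PowerSeries.map S)
  have hν : ∀ a, ν₀ a = B3_diagF (PowerSeries.map S a) := fun a => rfl
  have h4 : ∀ c : PowerSeries κ, ν₀ (PowerSeries.map PowerSeries.C c) = PowerSeries.map C c := by
    intro c
    have h5 : PowerSeries.map S (PowerSeries.map PowerSeries.C c) =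
        PowerSeries.map PowerSeries.C (PowerSeries.map C c) := by
      ext n
      rw [PowerSeries.coeff_map, PowerSeries.coeff_map, PowerSeries.coeff_map,
        PowerSeries.coeff_map, hSC]
    rw [hν, h5, B3_diag_mapC]
  refine ⟨ν₀, ?_, ?_, h4⟩
  · rw [hν, PowerSeries.map_C, hSX, B3_diag_C]
  · have h9 := h4 PowerSeries.X
    rw [PowerSeries.map_X, PowerSeries.map_X] at h9
    exact h9

private theorem B3_coeff_ofPS {A : Type} [CommRing A] (f : PowerSeries A) (n : ℤ) :
    (HahnSeries.ofPowerSeries ℤ A f).coeff n =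
      if 0 ≤ n then PowerSeries.coeff n.toNat f else 0 := by
  rcases le_or_gt 0 n with hn | hn
  · obtain ⟨k, rfl⟩ := Int.eq_ofNat_of_zero_le hn
    rw [if_pos hn, Int.toNat_natCast]
    exact HahnSeries.ofPowerSeries_apply_coeff f k
  · rw [if_neg (by omega), HahnSeries.ofPowerSeries_apply,
      HahnSeries.embDomain_of_notMem_range]
    rintro ⟨k, hk⟩
    simp at hk
    omega

/-- `κ[[s]][[t]] → κ((s))((t))`. -/
private def B3_th0 (κ : Type) [Field κ] : PowerSeries (PowerSeries κ) →+* AL κ :=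
  (AI.mapL (HahnSeries.ofPowerSeries ℤ κ)).comp (HahnSeries.ofPowerSeries ℤ (PowerSeries κ))

private theorem B3_th0_coeff (κ : Type) [Field κ] (a : PowerSeries (PowerSeries κ)) (n m : ℤ) :
    ((B3_th0 κ a).coeff n).coeff m = if 0 ≤ n then (if 0 ≤ m then
      PowerSeries.coeff m.toNat (PowerSeries.coeff n.toNat a) else 0) else 0 := by
  rw [B3_th0, RingHom.comp_apply, AI.mapL_coeff, B3_coeff_ofPS, B3_coeff_ofPS]
  by_cases h1 : 0 ≤ n
  · rw [if_pos h1, if_pos h1]
  · rw [if_neg h1, if_neg h1, map_zero]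
    split_ifs <;> rfl

private theorem B3_th0_mem (κ : Type) [Field κ] (a : PowerSeries (PowerSeries κ)) :
    B3_th0 κ a ∈ BL κ := by
  refine ⟨0, fun n m hm => ?_⟩
  rw [B3_th0_coeff, if_neg (show ¬ (0 ≤ m) by push_cast at hm; omega)]
  split_ifs <;> rfl

private def B3_th (κ : Type) [Field κ] : PowerSeries (PowerSeries κ) →+* BL κ :=
  (B3_th0 κ).codRestrict (BL κ) (B3_th0_mem κ)

private theorem B3_th_coe (κ : Type) [Field κ] (a : PowerSeries (PowerSeries κ)) :
    ((B3_th κ a : BL κ) : AL κ) = B3_th0 κ a := rfl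

private theorem B3_th_inj (κ : Type) [Field κ] : Function.Injective (B3_th κ) := by
  intro a b h
  have h1 : B3_th0 κ a = B3_th0 κ b := congrArg Subtype.val h
  ext n m
  have h2 := congrArg (fun z => (z.coeff (n : ℤ)).coeff (m : ℤ)) h1
  simp only [B3_th0_coeff, Int.toNat_natCast] at h2
  rw [if_pos (Int.natCast_nonneg n), if_pos (Int.natCast_nonneg m),
    if_pos (Int.natCast_nonneg n), if_pos (Int.natCast_nonneg m)] at h2
  exact h2

private theorem B3_th0_X (κ : Type) [Field κ] : B3_th0 κ PowerSeries.X =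
    HahnSeries.single (1 : ℤ) (1 : LaurentSeries κ) := by
  rw [B3_th0, RingHom.comp_apply, HahnSeries.ofPowerSeries_X]
  ext n : 2
  rw [AI.mapL_coeff, HahnSeries.coeff_single, HahnSeries.coeff_single]
  split_ifs
  · rw [map_one]
  · rw [map_zero]

private theorem B3_th0_CX (κ : Type) [Field κ] : B3_th0 κ (PowerSeries.C PowerSeries.X) =
    HahnSeries.C (HahnSeries.single (1 : ℤ) (1 : κ)) := by
  rw [B3_th0, RingHom.comp_apply, HahnSeries.ofPowerSeries_C]
  ext n : 2
  rw [AI.mapL_coeff, HahnSeries.C_apply, HahnSeries.C_apply, HahnSeries.coeff_single,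
    HahnSeries.coeff_single]
  split_ifs
  · rw [HahnSeries.ofPowerSeries_X]
  · rw [map_zero]

private theorem B3_th0_XCX (κ : Type) [Field κ] :
    B3_th0 κ (PowerSeries.X * PowerSeries.C PowerSeries.X) =
      HahnSeries.single (1 : ℤ) (HahnSeries.single (1 : ℤ) (1 : κ) : LaurentSeries κ) := by
  rw [map_mul, B3_th0_X, B3_th0_CX, HahnSeries.C_apply, HahnSeries.single_mul_single, one_mul,
    add_zero]

private theorem B3_single_mem (κ : Type) [Field κ] :
    (HahnSeries.single (-1 : ℤ) (HahnSeries.single (-1 : ℤ) (1 : κ) : LaurentSeries κ) : AL κ) ∈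
      BL κ := by
  refine ⟨1, fun n m hm => ?_⟩
  rw [HahnSeries.coeff_single]
  split_ifs
  · rw [HahnSeries.coeff_single_of_ne]
    push_cast at hm
    omega
  · rfl

private theorem B3_unit (κ : Type) [Field κ] :
    IsUnit (B3_th κ (PowerSeries.X * PowerSeries.C PowerSeries.X)) := by
  refine IsUnit.of_mul_eq_one (⟨_, B3_single_mem κ⟩ : BL κ) ?_
  apply Subtype.ext
  change B3_th0 κ (PowerSeries.X * PowerSeries.C PowerSeries.X) * _ = 1
  rw [B3_th0_XCX, HahnSeries.single_mul_single, HahnSeries.single_mul_single]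
  simp

private theorem B3_pow (κ : Type) [Field κ] (M : ℕ) :
    B3_th0 κ ((PowerSeries.X * PowerSeries.C PowerSeries.X) ^ M) =
      HahnSeries.single (M : ℤ) (HahnSeries.single (M : ℤ) (1 : κ) : LaurentSeries κ) := by
  rw [map_pow, B3_th0_XCX, HahnSeries.single_pow, HahnSeries.single_pow, one_pow]
  simp

private theorem B3_surj (κ : Type) [Field κ] (a : BL κ) :
    ∃ (M : ℕ) (a' : PowerSeries (PowerSeries κ)),
      a * B3_th κ ((PowerSeries.X * PowerSeries.C PowerSeries.X) ^ M) = B3_th κ a' := by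
  obtain ⟨a, N, hN⟩ := a
  obtain ⟨M, hM⟩ : ∃ M : ℕ, M = max N (-a.order).toNat := ⟨_, rfl⟩
  refine ⟨M, PowerSeries.mk fun n => PowerSeries.mk fun m =>
    (a.coeff ((n : ℤ) - M)).coeff ((m : ℤ) - M), ?_⟩
  apply Subtype.ext
  change a * B3_th0 κ ((PowerSeries.X * PowerSeries.C PowerSeries.X) ^ M) = B3_th0 κ _
  rw [B3_pow]
  refine HahnSeries.ext (funext fun n => HahnSeries.ext (funext fun m => ?_))
  have h1 : (a * HahnSeries.single (M : ℤ)
      (HahnSeries.single (M : ℤ) (1 : κ) : LaurentSeries κ)).coeff n =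
      a.coeff (n - M) * (HahnSeries.single (M : ℤ) (1 : κ) : LaurentSeries κ) := by
    have h := HahnSeries.coeff_mul_single_add
      (r := (HahnSeries.single (M : ℤ) (1 : κ) : LaurentSeries κ)) (x := a) (a := n - M)
      (b := (M : ℤ))
    rw [sub_add_cancel] at h
    exact h
  have h2 : (a.coeff (n - M) * (HahnSeries.single (M : ℤ) (1 : κ) : LaurentSeries κ)).coeff m =
      (a.coeff (n - M)).coeff (m - M) := by
    have h := HahnSeries.coeff_mul_single_add (r := (1 : κ)) (x := a.coeff (n - M))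
      (a := m - M) (b := (M : ℤ))
    rw [sub_add_cancel, mul_one] at h
    exact h
  rw [h1, h2, B3_th0_coeff]
  rcases le_or_gt 0 n with hn | hn
  · rcases le_or_gt 0 m with hm | hm
    · rw [if_pos hn, if_pos hm, PowerSeries.coeff_mk, PowerSeries.coeff_mk, Int.toNat_of_nonneg hn,
        Int.toNat_of_nonneg hm]
    · rw [if_pos hn, if_neg (by omega)]
      refine hN _ _ ?_
      have : N ≤ M := by
        rw [hM]
        exact le_max_left _ _
      omega
  · rw [if_neg (by omega)]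
    have h3 : a.coeff (n - M) = 0 := by
      refine HahnSeries.coeff_eq_zero_of_lt_order ?_
      have : (-a.order).toNat ≤ M := by
        rw [hM]
        exact le_max_right _ _
      omega
    rw [h3, HahnSeries.coeff_zero]

private theorem B3_isLoc (κ : Type) [Field κ] :
    let _ : Algebra (PowerSeries (PowerSeries κ)) (BL κ) := (B3_th κ).toAlgebra
    IsLocalization.Away (PowerSeries.X * PowerSeries.C (PowerSeries.X : PowerSeries κ)) (BL κ) := by
  intro _
  refine ⟨?_, ?_, ?_⟩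
  · rintro ⟨_, n, rfl⟩
    change IsUnit (B3_th κ ((PowerSeries.X * PowerSeries.C PowerSeries.X) ^ n))
    rw [map_pow]
    exact (B3_unit κ).pow n
  · intro a
    obtain ⟨N, a', h⟩ := B3_surj κ a
    exact ⟨⟨a', ⟨_, N, rfl⟩⟩, h⟩
  · intro x y h
    exact ⟨1, by rw [B3_th_inj κ h]⟩

private theorem B3_ext (κ : Type) [Field κ] {S : Type} [CommRing S]
    (g : PowerSeries (PowerSeries κ) →+* S)
    (hu : IsUnit (g (PowerSeries.X * PowerSeries.C PowerSeries.X))) :
    ∃ nab : BL κ →+* S, ∀ a, nab (B3_th κ a) = g a := by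
  let i1 : Algebra (PowerSeries (PowerSeries κ)) (BL κ) := (B3_th κ).toAlgebra
  have i2 : IsLocalization.Away (PowerSeries.X * PowerSeries.C (PowerSeries.X : PowerSeries κ))
      (BL κ) := B3_isLoc κ
  exact ⟨IsLocalization.Away.lift (PowerSeries.X * PowerSeries.C (PowerSeries.X : PowerSeries κ))
    hu, fun a => IsLocalization.Away.lift_eq _ hu a⟩

private theorem B3_mapL_ofPS {A B : Type} [CommRing A] [CommRing B] (φ : A →+* B)
    (c : PowerSeries A) : AI.mapL φ (HahnSeries.ofPowerSeries ℤ A c) =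
      HahnSeries.ofPowerSeries ℤ B (PowerSeries.map φ c) := by
  refine HahnSeries.ext (funext fun n => ?_)
  rw [AI.mapL_coeff, B3_coeff_ofPS, B3_coeff_ofPS]
  split_ifs
  · rw [PowerSeries.coeff_map]
  · rw [map_zero]

/-!
# Task B3: restriction to the disc `z = t⁻¹ + u`

Here `s = z⁻¹ = t (1 + t u)⁻¹` and `u` is the variable of `κ[X]`.
Proof.  Let `w := t (1 + t u)⁻¹ ∈ κ[X][[t]]` (outer variable `t`; `1 + t u` is a unit, e.g.
`PowerSeries.invOfUnit`); `constantCoeff w = 0`, so `PowerSeries.HasSubst w` and Mathlib's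
`PowerSeries.subst w : PowerSeries κ → PowerSeries κ[X]` is a ring homomorphism
(`PowerSeries.substAlgHom`), `f(s) ↦ f(w)`.
`diag : PowerSeries (PowerSeries A) → PowerSeries A`, `∑ c_n(t) T^n ↦ ∑ c_n(t) t^n` (coefficient of `t^K` is
`∑_{n+l=K} coeff l (c_n)`) is a ring homomorphism.  `ν₀ := diag ∘ PowerSeries.map (subst w)`:
`PowerSeries (PowerSeries κ) → PowerSeries κ[X]`, `C X ↦ w`, `X ↦ t`.
(`AI/NB1.lean`, `AI/NB2.lean` contain this with `w = t (1 + t u)`: copy and adapt; injectivity is not needed.)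
Every `a ∈ BL κ` is `t^(-c) s^(-N) a'` with `a' ∈ κ[[s]][[t]]` (embedded in `κ((s))((t))` by
`mapL ofPowerSeries ∘ ofPowerSeries`), `c, N : ℕ` large, `a'` unique for given `c, N`.  Put
`nab a := t^(-c) * ŵ^N * ofPowerSeries (ν₀ a')` with `ŵ := t⁻¹ (1 + t u) = ofPowerSeries(w)⁻¹ ∈ κ[X]((t))`;
it is independent of `c, N` and is a ring homomorphism (or use the universal property of the localisation of
`PowerSeries (PowerSeries κ)` at the products `X^c (C X)^N`).
`nab (iB f) = iP (trP f)`: ring homomorphisms in `f`.  `f = X`: `iB X = s⁻¹`, `nab = t⁻¹ (1 + t u) = t⁻¹ + u`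
and `iP (X + C t⁻¹) = u + t⁻¹`.  `f = C c`, `c ∈ κ((t))`: `c = t^(-n) c'` with `c' ∈ κ[[t]]` and
`ν₀ (map C c') = map C c'` (no `s` occurs).
-/

theorem exists_nabL (κ : Type) [Field κ] :
    ∃ nab : BL κ →+* LaurentSeries κ[X], ∀ f, nab (iB κ f) = iP κ (trP κ f) := by
  -- the inverse of `1 + t u`
  obtain ⟨v, hv⟩ : ∃ v : PowerSeries κ[X],
      (1 + PowerSeries.X * PowerSeries.C (X : κ[X])) * v = 1 := by
    have h1 : IsUnit (1 + PowerSeries.X * PowerSeries.C (X : κ[X])) := by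
      rw [PowerSeries.isUnit_iff_constantCoeff]
      simp
    exact h1.exists_right_inv
  obtain ⟨ν₀, hs, ht, hc⟩ := B3_exists_nab0 κ v
  let o := HahnSeries.ofPowerSeries ℤ κ[X]
  have hoX : o PowerSeries.X = HahnSeries.single (1 : ℤ) (1 : κ[X]) := HahnSeries.ofPowerSeries_X
  have hoXi : o PowerSeries.X * HahnSeries.single (-1 : ℤ) (1 : κ[X]) = 1 := by
    rw [hoX, HahnSeries.single_mul_single]
    simp
  have hov : o v * o (1 + PowerSeries.X * PowerSeries.C (X : κ[X])) = 1 := by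
    rw [← map_mul, mul_comm, hv, map_one]
  have hg : IsUnit ((o.comp ν₀) (PowerSeries.X * PowerSeries.C PowerSeries.X)) := by
    rw [RingHom.comp_apply, map_mul, hs, ht, map_mul, map_mul]
    exact (IsUnit.of_mul_eq_one _ hoXi).mul ((IsUnit.of_mul_eq_one _ hoXi).mul
      (IsUnit.of_mul_eq_one _ hov))
  obtain ⟨nab, hn⟩ := B3_ext κ (o.comp ν₀) hg
  refine ⟨nab, fun f => ?_⟩
  have key : nab.comp (iB κ) = (iP κ).comp (trP κ) := by
    refine Polynomial.ringHom_ext ?_ ?_
    · -- constants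
      have h1 : (nab.comp (iB κ)).comp (C : LaurentSeries κ →+* (LaurentSeries κ)[X]) =
          ((iP κ).comp (trP κ)).comp C := by
        refine IsLocalization.ringHom_ext (Submonoid.powers (PowerSeries.X : PowerSeries κ)) ?_
        refine RingHom.ext fun c => ?_
        change nab (iB κ (C (HahnSeries.ofPowerSeries ℤ κ c))) =
          iP κ (trP κ (C (HahnSeries.ofPowerSeries ℤ κ c)))
        have e1 : iB κ (C (HahnSeries.ofPowerSeries ℤ κ c)) =
            B3_th κ (PowerSeries.map PowerSeries.C c) := by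
          apply Subtype.ext
          rw [iB_coe, B3_th_coe, inclL, Polynomial.coe_eval₂RingHom, Polynomial.eval₂_C,
            B3_mapL_ofPS, B3_th0, RingHom.comp_apply, B3_mapL_ofPS]
          congr 1
          ext n : 1
          rw [PowerSeries.coeff_map, PowerSeries.coeff_map, PowerSeries.coeff_map,
            HahnSeries.ofPowerSeries_C]
        rw [e1, hn, RingHom.comp_apply, hc, trP, Polynomial.coe_compRingHom_apply,
          Polynomial.C_comp, iP, Polynomial.coe_eval₂RingHom, Polynomial.eval₂_C, B3_mapL_ofPS]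
      intro c
      exact RingHom.congr_fun h1 c
    · change nab (iB κ X) = iP κ (trP κ X)
      have e1 : B3_th κ (PowerSeries.C PowerSeries.X) * iB κ X = 1 := by
        apply Subtype.ext
        change B3_th0 κ (PowerSeries.C PowerSeries.X) * inclL κ X = 1
        rw [B3_th0_CX, inclL, Polynomial.coe_eval₂RingHom, Polynomial.eval₂_X, ← map_mul,
          HahnSeries.single_mul_single]
        simp
      have e2 : o (PowerSeries.X * v) * nab (iB κ X) = 1 := by
        rw [← hs]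
        change (o.comp ν₀) (PowerSeries.C PowerSeries.X) * nab (iB κ X) = 1
        rw [← hn, ← map_mul, e1, map_one]
      have e3 : iP κ (trP κ X) = HahnSeries.C X + HahnSeries.single (-1 : ℤ) (1 : κ[X]) := by
        rw [trP, Polynomial.coe_compRingHom_apply, Polynomial.X_comp, map_add, iP,
          Polynomial.coe_eval₂RingHom, Polynomial.eval₂_X, Polynomial.eval₂_C]
        congr 1
        refine HahnSeries.ext (funext fun n => ?_)
        rw [AI.mapL_coeff, HahnSeries.coeff_single, HahnSeries.coeff_single]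
        split_ifs
        · rw [map_one]
        · rw [map_zero]
      have e4 : o (PowerSeries.X * v) *
          (HahnSeries.C X + HahnSeries.single (-1 : ℤ) (1 : κ[X])) = 1 := by
        have e5 : (HahnSeries.C X : LaurentSeries κ[X]) = o (PowerSeries.C X) :=
          (HahnSeries.ofPowerSeries_C X).symm
        have e6 := hov
        rw [map_add, map_one, map_mul, ← e5] at e6
        rw [map_mul]
        linear_combination e6 + (o v) * hoXi
      rw [e3]
      have e7 : nab (iB κ X) = nab (iB κ X) * (o (PowerSeries.X * v) *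
          (HahnSeries.C X + HahnSeries.single (-1 : ℤ) (1 : κ[X]))) := by
        rw [e4, mul_one]
      rw [e7]
      linear_combination (HahnSeries.C X + HahnSeries.single (-1 : ℤ) (1 : κ[X])) * e2
  exact RingHom.congr_fun key f

end

end Pool.Agent.MP_1c8e06_ag.AJ
end

section

set_option autoImplicit false

open Polynomial
open scoped Classical

namespace Pool.Agent.MP_1c8e06_ag.AJ

noncomputable section

/-!
# Task B8: locally constant functions on the glued cover

Notation: `K = κ((t))`, `zE := Al.mapA S (AI.zinv K)` (`zE (cst f) = zeE S f = oE S (zinv f)`).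
Let `f : G → K[X]`, `c : G → K` with `∑_l zeE (f l) * D.b l x = zeE (C (c x))` for all `x`.
Claim: `c h = c 1` for `h ∈ H₁` and for `h ∈ H₂` (then `GD.conn_sup`).
(a) `c (i u * x) = c x` for `u : P`: `D.hP`, `actE_zeE`, `zeE_injective`, `C` injective.
(b) `GD.exists_coord C₀` (`fixed`, `Al.act_cst`) for the function `x ↦ cst (C (c x))` (equivariant by (a)): there is
    `c₀ : G → K[X]` with `∑_n cst (c₀ n) * C₀.b n x = cst (C (c x))` for all `x`.
(c) Put `g₂ m := ∑_l iB (trP (f l)) * W₂ l m : BL κ`.  By `hDb`, `E.sw2_iB` and (b) (apply `zE`):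
    `∑_n oE (∑_m E.sw2 (g₂ m) * E.sw1 (W₁ m n)) * zE (C₀.b n x) = ∑_n oE (zinv (c₀ n)) * zE (C₀.b n x)` for all
    `x`, so (`GD.coord_unique C₀ zE`, `oE_injective`) `∑_m E.sw2 (g₂ m) * E.sw1 (W₁ m n) = zinv (c₀ n)` in
    `κ((t))((s))`.
(d) Multiply by `W₁i` (`W₁ * W₁i = 1`): `E.sw2 (g₂ m) = E.sw1 (g₁ m)` with
    `g₁ m := ∑_n iB (c₀ n) * W₁i n m` (`E.sw1_iB`).  `E.bb`: there is `γ m : K[X]` with `iB (γ m) = g₁ m` and
    `iB (trP (γ m)) = g₂ m`.
(e) `∑_m g₁ m * W₁ m n = iB (c₀ n)` (`W₁i * W₁ = 1`, from `W₁ * W₁i = 1`, `Matrix.mul_eq_one_comm`), so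
    `∑_m inclL (γ m) * (W₁ m n) = inclL (c₀ n)` in `AL κ`, and (apply `E.nab`, `jP`; `E.nab_iB`, `jP_iP`)
    `∑_m inclL (trP (γ m)) * jP (E.nab (W₁ m n)) = inclL (trP (c₀ n))`.
(f) Disc 1: multiply `h1` at `(m, x)` by `oL (inclL (γ m))` and sum over `m`: the left side is
    `∑_n oL (inclL (c₀ n)) * T₁ (C₀.b n x) = T₁ (∑_n cst (c₀ n) * C₀.b n x) = T₁ (cst (C (c x)))
    = oL (inclL (C (c x)))`, whose `t^ν`-coefficient is `zeE S₁ (C ((c x).coeff ν))` (`inclL (C c) = mapL C c`).
    The right side is `∑_n oL (jP (a n)) * HahnSeries.C (D₁.b n x)` with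
    `a n := ∑_m iP (γ m) * U₁ m n ∈ κ[X]((t))` (`jP_iP`); its `t^ν`-coefficient is
    `∑_n zeE S₁ ((a n).coeff ν) * D₁.b n x`.  So `D₁.Conn' H₁` gives `(c h).coeff ν = (c 1).coeff ν` for
    all `ν` and `h ∈ H₁`, i.e. `c h = c 1`.
(g) Disc 2: multiply `h2` at `(l, x)` by `oL (inclL (trP (f l)))` and sum over `l`.  The left side is
    `∑_n oL (∑_m (g₂ m) * jP (E.nab (W₁ m n))) * T₂ (C₀.b n x)` and `(g₂ m : AL κ) = inclL (trP (γ m))`, so by (e)
    it is `∑_n oL (inclL (trP (c₀ n))) * T₂ (C₀.b n x) = T₂ (cst (C (c x))) = oL (inclL (trP (C (c x))))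
    = oL (inclL (C (c x)))` (`trP` fixes constants).  The right side is
    `∑_m oL (jP (a' m)) * HahnSeries.C (D₂.b m x)`, `a' m := ∑_l iP (trP (f l)) * U₂ l m`.  Conclude as in (f).
-/

private theorem B8_alg {R A' : Type} [CommRing R] [CommRing A'] (o : R →+* A') {G : Type}
    [Fintype G] (F : G → R) (W₂ W₁ : G → G → R) (b : G → A') :
    ∑ l, o (F l) * ∑ m, ∑ n, o (W₂ l m * W₁ m n) * b n =
      ∑ n, o (∑ m, (∑ l, F l * W₂ l m) * W₁ m n) * b n := by
  simp only [Finset.mul_sum, map_sum, Finset.sum_mul, map_mul]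
  rw [Finset.sum_comm]
  rw [Finset.sum_congr rfl fun m _ => Finset.sum_comm]
  rw [Finset.sum_comm]
  refine Finset.sum_congr rfl fun n _ => Finset.sum_congr rfl fun m _ =>
    Finset.sum_congr rfl fun l _ => ?_
  ring

private theorem B8_zeE {R : Type} [CommRing R] {P : Type} [Group P] [Fintype P] (S : SC R[X] P)
    (f : R[X]) : zeE S f = oE S (AI.zinv R f) := rfl

private theorem B8_mapA {R : Type} [CommRing R] {P : Type} [Group P] [Fintype P] (S : SC R[X] P)
    (f : R[X]) : Al.mapA S (AI.zinv R) (Al.cst S f) = oE S (AI.zinv R f) := Al.mapA_cst S _ f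

private theorem B8_vec {R : Type} [CommRing R] {G : Type} [Fintype G] (W Wi : Matrix G G R)
    (h : W * Wi = 1) (a b : G → R) (hab : ∀ n, ∑ m, a m * W m n = b n) (m' : G) :
    a m' = ∑ n, b n * Wi n m' := by
  have h1 : Matrix.vecMul a W = b := funext hab
  have h2 : Matrix.vecMul b Wi = a := by
    rw [← h1, Matrix.vecMul_vecMul, h, Matrix.vecMul_one]
  exact (congrFun h2 m').symm

private theorem B8_end {κ : Type} [Field κ] {G : Type} [Group G] [Fintype G] {I : Type} [Group I]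
    [Fintype I] {i₁ : I →* G} (S₁ : SC κ[X] I) (D₁ : GD i₁ (zeE S₁) (actE S₁)) (H₁ : Subgroup G)
    (hD₁ : D₁.Conn' H₁) (c : G → LaurentSeries κ) (a : G → LaurentSeries κ[X])
    (h : ∀ x, ∑ n, oL S₁ (jP κ (a n)) * HahnSeries.C (D₁.b n x) =
      oL S₁ (inclL κ (C (c x)))) : ∀ h ∈ H₁, c h = c 1 := by
  intro h' hh'
  ext ν
  refine hD₁ h' hh' (fun n => (a n).coeff ν) (fun x => (c x).coeff ν) fun x => ?_
  have h1 := congrArg (fun y => HahnSeries.coeff y ν) (h x)
  simp only [HahnSeries.coeff_sum] at h1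
  have h2 : ∀ n, (oL S₁ (jP κ (a n)) * HahnSeries.C (D₁.b n x)).coeff ν =
      zeE S₁ ((a n).coeff ν) * D₁.b n x := by
    intro n
    rw [HahnSeries.C_apply, HahnSeries.coeff_mul_single_zero]
    rfl
  rw [Finset.sum_congr rfl fun n _ => h2 n] at h1
  rw [h1]
  change (oE S₁) ((inclL κ (C (c x))).coeff ν) = (oE S₁) (AI.zinv κ (C ((c x).coeff ν)))
  congr 1
  rw [AI.zinv_C, inclL, Polynomial.coe_eval₂RingHom, Polynomial.eval₂_C, AI.mapL_coeff]

theorem conn_two {κ : Type} [Field κ] (E : EnvL κ) {G : Type} [Group G] [Fintype G]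
    {P I₁ I₂ : Type} [Group P] [Fintype P] [Group I₁] [Fintype I₁] [Group I₂] [Fintype I₂]
    (i : P →* G) (j₁ : I₁ →* P) (j₂ : I₂ →* P)
    (S : SC (LaurentSeries κ)[X] P) (S₁ : SC κ[X] I₁) (S₂ : SC κ[X] I₂)
    (T₁ : Al S →+* LaurentSeries (El S₁)) (hT₁ : ∀ f, T₁ (Al.cst S f) = oL S₁ (inclL κ f))
    (T₂ : Al S →+* LaurentSeries (El S₂))
    (hT₂ : ∀ f, T₂ (Al.cst S f) = oL S₂ (inclL κ (trP κ f)))
    (D₁ : GD (i.comp j₁) (zeE S₁) (actE S₁)) (D₂ : GD (i.comp j₂) (zeE S₂) (actE S₂))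
    (C₀ : GD i (Al.cst S) (Al.act S)) (W₁ W₁i W₂ W₂i : Matrix G G (BL κ))
    (U₁ U₂ : Matrix G G (LaurentSeries κ[X])) (D : GD i (zeE S) (actE S))
    (hW₁ : W₁ * W₁i = 1) (hW₂ : W₂ * W₂i = 1)
    (hDb : ∀ l x, D.b l x = ∑ m, ∑ n, oE S (E.sw2 (W₂ l m) * E.sw1 (W₁ m n)) *
        Al.mapA S (AI.zinv (LaurentSeries κ)) (C₀.b n x))
    (h1 : ∀ m x, ∑ n, oL S₁ (W₁ m n : AL κ) * T₁ (C₀.b n x) =
        ∑ n, oL S₁ (jP κ (U₁ m n)) * HahnSeries.C (D₁.b n x))
    (h2 : ∀ l x, ∑ m, ∑ n, oL S₂ ((W₂ l m : AL κ) * jP κ (E.nab (W₁ m n))) * T₂ (C₀.b n x) =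
        ∑ m, oL S₂ (jP κ (U₂ l m)) * HahnSeries.C (D₂.b m x))
    (H₁ H₂ : Subgroup G) (hD₁ : D₁.Conn' H₁) (hD₂ : D₂.Conn' H₂) : D.Conn' (H₁ ⊔ H₂) := by
  have key : ∀ (f : G → (LaurentSeries κ)[X]) (c : G → LaurentSeries κ),
      (∀ x, ∑ l, zeE S (f l) * D.b l x = zeE S (C (c x))) →
      ∃ c₀ γ : G → (LaurentSeries κ)[X],
        (∀ x, ∑ n, Al.cst S (c₀ n) * C₀.b n x = Al.cst S (C (c x))) ∧
        (∀ m, ∑ l, inclL κ (trP κ (f l)) * (W₂ l m : AL κ) = inclL κ (trP κ (γ m))) ∧
        (∀ n, ∑ m, inclL κ (γ m) * (W₁ m n : AL κ) = inclL κ (c₀ n)) ∧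
        (∀ n, ∑ m, inclL κ (trP κ (γ m)) * jP κ (E.nab (W₁ m n)) = inclL κ (trP κ (c₀ n))) := by
    intro f c hfc
    have ha : ∀ u x, c (i u * x) = c x := by
      intro u x
      have h3 := hfc (i u * x)
      simp only [D.hP] at h3
      have h4 : ∑ l, zeE S (f l) * actE S u (D.b l x) = actE S u (zeE S (C (c x))) := by
        rw [← hfc x, map_sum]
        refine Finset.sum_congr rfl fun l _ => ?_
        rw [map_mul, actE_zeE]
      rw [h4, actE_zeE] at h3
      exact (Polynomial.C_injective (zeE_injective S h3)).symm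
    obtain ⟨c₀, hc₀⟩ := C₀.exists_coord (Al.act_cst S) (fixed S) (fun x => Al.cst S (C (c x)))
      (fun u x => by rw [ha, Al.act_cst])
    set g₂ : G → BL κ := fun m => ∑ l, iB κ (trP κ (f l)) * W₂ l m with hg₂
    have hc : ∀ n, ∑ m, E.sw2 (g₂ m) * E.sw1 (W₁ m n) = E.sw1 (iB κ (c₀ n)) := by
      have h3 := C₀.coord_unique (Al.mapA S (AI.zinv (LaurentSeries κ)))
        (fun n => oE S (∑ m, E.sw2 (g₂ m) * E.sw1 (W₁ m n)) -
          oE S (AI.zinv (LaurentSeries κ) (c₀ n))) (fun x => by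
          have e1 : ∑ n, oE S (AI.zinv (LaurentSeries κ) (c₀ n)) *
              Al.mapA S (AI.zinv (LaurentSeries κ)) (C₀.b n x) = zeE S (C (c x)) := by
            have e2 := congrArg (Al.mapA S (AI.zinv (LaurentSeries κ))) (hc₀ x)
            rw [B8_mapA, map_sum] at e2
            rw [B8_zeE, e2]
            refine Finset.sum_congr rfl fun n _ => ?_
            rw [map_mul, B8_mapA]
          have e3 : ∑ n, oE S (∑ m, E.sw2 (g₂ m) * E.sw1 (W₁ m n)) *
              Al.mapA S (AI.zinv (LaurentSeries κ)) (C₀.b n x) = zeE S (C (c x)) := by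
            rw [← hfc x]
            have e5 := B8_alg (oE S) (fun l => E.sw2 (iB κ (trP κ (f l))))
              (fun l m => E.sw2 (W₂ l m)) (fun m n => E.sw1 (W₁ m n))
              (fun n => Al.mapA S (AI.zinv (LaurentSeries κ)) (C₀.b n x))
            simp only [E.sw2_iB] at e5
            have e6 : ∀ l, zeE S (f l) * D.b l x = oE S (AI.zinv (LaurentSeries κ) (f l)) *
                ∑ m, ∑ n, oE S (E.sw2 (W₂ l m) * E.sw1 (W₁ m n)) *
                Al.mapA S (AI.zinv (LaurentSeries κ)) (C₀.b n x) := fun l => by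
              rw [hDb, B8_zeE]
            rw [Finset.sum_congr rfl fun l _ => e6 l, e5]
            refine Finset.sum_congr rfl fun n _ => ?_
            congr 2
            refine Finset.sum_congr rfl fun m _ => ?_
            rw [hg₂]
            simp only [map_sum, map_mul, E.sw2_iB]
          simp only [sub_mul]
          rw [Finset.sum_sub_distrib, e1, e3, sub_self])
      intro n
      have h4 := congrFun h3 n
      have h5 := oE_injective S (sub_eq_zero.1 h4)
      rw [h5, E.sw1_iB]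
    set g₁ : G → BL κ := fun m => ∑ n, iB κ (c₀ n) * W₁i n m with hg₁
    have hd : ∀ m, E.sw1 (g₁ m) = E.sw2 (g₂ m) := by
      intro m'
      have h3 := B8_vec (W₁.map E.sw1) (W₁i.map E.sw1) (by
        rw [← Matrix.map_mul, hW₁]
        exact Matrix.map_one _ (map_zero _) (map_one _)) (fun m => E.sw2 (g₂ m))
        (fun n => E.sw1 (iB κ (c₀ n))) hc m'
      rw [h3, hg₁]
      simp only [map_sum, map_mul, Matrix.map_apply]
    choose γ hγ1 hγ2 using fun m => E.bb (g₁ m) (g₂ m) (hd m)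
    have hW₁' : W₁i * W₁ = 1 := mul_eq_one_comm.1 hW₁
    have he : ∀ n, ∑ m, iB κ (γ m) * W₁ m n = iB κ (c₀ n) := by
      intro n
      refine (B8_vec W₁i W₁ hW₁' (fun n => iB κ (c₀ n)) (fun m => iB κ (γ m)) (fun m => ?_)
        n).symm
      rw [hγ1]
    refine ⟨c₀, γ, fun x => (hc₀ x).symm, fun m => ?_, fun n => ?_, fun n => ?_⟩
    · have h3 := congrArg (fun y : BL κ => (y : AL κ)) (hγ2 m)
      rw [hg₂] at h3
      simp only at h3
      rw [iB_coe] at h3
      rw [h3, AddSubmonoidClass.coe_finsetSum]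
      rfl
    · have h3 := congrArg (fun y : BL κ => (y : AL κ)) (he n)
      rw [iB_coe, AddSubmonoidClass.coe_finsetSum] at h3
      rw [← h3]
      rfl
    · have h3 := congrArg (fun y : BL κ => jP κ (E.nab y)) (he n)
      simp only [map_sum, map_mul, E.nab_iB, jP_iP] at h3
      exact h3
  refine D.conn_sup ?_ ?_
  · intro h hh f c hfc
    obtain ⟨c₀, γ, k1, k2, k3, k4⟩ := key f c hfc
    refine B8_end S₁ D₁ H₁ hD₁ c (fun n => ∑ m, iP κ (γ m) * U₁ m n) (fun x => ?_) h hh
    have e1 : ∑ m, oL S₁ (inclL κ (γ m)) * ∑ n, oL S₁ (W₁ m n : AL κ) * T₁ (C₀.b n x) =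
        oL S₁ (inclL κ (C (c x))) := by
      rw [← hT₁, ← k1 x, map_sum]
      simp only [Finset.mul_sum]
      rw [Finset.sum_comm]
      refine Finset.sum_congr rfl fun n _ => ?_
      rw [map_mul, hT₁, ← k3 n, map_sum, Finset.sum_mul]
      refine Finset.sum_congr rfl fun m _ => ?_
      rw [map_mul, mul_assoc]
    rw [← e1]
    simp only [h1]
    simp only [Finset.mul_sum]
    rw [Finset.sum_comm]
    refine Finset.sum_congr rfl fun n _ => ?_
    rw [map_sum, map_sum, Finset.sum_mul]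
    refine Finset.sum_congr rfl fun m _ => ?_
    rw [map_mul, map_mul, jP_iP, mul_assoc]
  · intro h hh f c hfc
    obtain ⟨c₀, γ, k1, k2, k3, k4⟩ := key f c hfc
    refine B8_end S₂ D₂ H₂ hD₂ c (fun m => ∑ l, iP κ (trP κ (f l)) * U₂ l m) (fun x => ?_) h hh
    have e0 : trP κ (C (c x)) = C (c x) := by
      change (C (c x)).comp _ = _
      rw [Polynomial.C_comp]
    have e1 : ∑ l, oL S₂ (inclL κ (trP κ (f l))) * ∑ m, ∑ n,
        oL S₂ ((W₂ l m : AL κ) * jP κ (E.nab (W₁ m n))) * T₂ (C₀.b n x) =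
        oL S₂ (inclL κ (C (c x))) := by
      have e2 : oL S₂ (inclL κ (C (c x))) = ∑ n, ∑ m,
          oL S₂ (inclL κ (trP κ (γ m)) * jP κ (E.nab (W₁ m n))) * T₂ (C₀.b n x) := by
        conv_lhs => rw [← e0, ← hT₂, ← k1 x, map_sum]
        refine Finset.sum_congr rfl fun n _ => ?_
        rw [map_mul, hT₂, ← k4 n, map_sum, Finset.sum_mul]
      rw [e2]
      have e3 : ∀ l, oL S₂ (inclL κ (trP κ (f l))) * ∑ m, ∑ n,
          oL S₂ ((W₂ l m : AL κ) * jP κ (E.nab (W₁ m n))) * T₂ (C₀.b n x) =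
          ∑ n, ∑ m, oL S₂ (inclL κ (trP κ (f l)) * (W₂ l m : AL κ) * jP κ (E.nab (W₁ m n))) *
            T₂ (C₀.b n x) := by
        intro l
        simp only [Finset.mul_sum]
        rw [Finset.sum_comm]
        refine Finset.sum_congr rfl fun n _ => Finset.sum_congr rfl fun m _ => ?_
        rw [mul_assoc (inclL κ _), map_mul (oL S₂) (inclL κ _), mul_assoc]
      rw [Finset.sum_congr rfl fun l _ => e3 l, Finset.sum_comm]
      refine Finset.sum_congr rfl fun n _ => ?_
      rw [Finset.sum_comm]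
      refine Finset.sum_congr rfl fun m _ => ?_
      rw [← Finset.sum_mul, ← map_sum, ← Finset.sum_mul, k2]
    rw [← e1]
    simp only [h2]
    simp only [Finset.mul_sum]
    rw [Finset.sum_comm]
    refine Finset.sum_congr rfl fun m _ => ?_
    rw [map_sum, map_sum, Finset.sum_mul]
    refine Finset.sum_congr rfl fun l _ => ?_
    rw [map_mul, map_mul, jP_iP, mul_assoc]

end

end Pool.Agent.MP_1c8e06_ag.AJ
end

section

set_option autoImplicit false

open Polynomial
open scoped Classical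

namespace Pool.Agent.MP_1c8e06_ag.AJ

noncomputable section

/-!
# Task C2: polynomials over `κ((t))` with prescribed reductions on the two discs

Proof.  `t⁻¹ = single (-1) 1`, `t = single 1 1 ∈ κ((t))`.  Let `M := max (natDegree f₁) (natDegree f₂) + 1`,
`g₀ := f₁(X) (1 - t X)^M + f₂(X - t⁻¹) (t X)^M` (`f₁`, `f₂` mapped to `κ((t))[X]` by `HahnSeries.C`) and
`N₀ := 3 M + 3` (larger than the degree of `g₀`), `g := g₀ + t^(N+1) X^N`, of degree `N`.
In `z = X`: `f₂(X - t⁻¹) (t X)^M` is a sum of `c_j (X - t⁻¹)^j t^M X^M = c_j (t X - 1)^j t^(M-j) X^M` with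
`j ≤ natDegree f₂ < M`, so it is `t` times an element of `κ[X][[t]]`; `(1 - t X)^M ≡ 1 mod t`; so `g₁ ≡ f₁`.
After the translation `X ↦ X + t⁻¹`: `(1 - t (X + t⁻¹))^M = (- t X)^M`, and
`f₁(X + t⁻¹) (- t X)^M = ∑ c_j (t X + 1)^j (-1)^M t^(M-j) X^M ≡ 0`; `f₂(X) (1 + t X)^M ≡ f₂(X)`;
`t^(N+1) (X + t⁻¹)^N = t (t X + 1)^N ≡ 0`.
(`iP` is a ring homomorphism with `iP X = C X`, `iP (C c) = mapL C c`; `iP (C t) = single 1 1 = ofPowerSeries X`.)
-/

private theorem C2_key {κ A : Type} [Field κ] [CommRing A] (φ : κ →+* A) (f : κ[X]) (M : ℕ)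
    (hM : f.natDegree < M) (a u v w : A) (huv : u * v = w) :
    eval₂ φ (a + v) f * u ^ M =
      u * ∑ j ∈ Finset.range (f.natDegree + 1), φ (f.coeff j) * (u * a + w) ^ j * u ^ (M - 1 - j) := by
  rw [Polynomial.eval₂_eq_sum_range, Finset.sum_mul, Finset.mul_sum]
  refine Finset.sum_congr rfl fun j hj => ?_
  rw [Finset.mem_range] at hj
  obtain ⟨e, he⟩ : ∃ e, M = j + 1 + e := ⟨M - (j + 1), by omega⟩
  have h1 : M - 1 - j = e := by omega
  rw [h1, he, ← huv, ← mul_add, mul_pow, pow_add, pow_add]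
  ring

/-- The ring homomorphism `w ↦ (w, w(0))`. -/
private def C2_O (κ : Type) [Field κ] : PowerSeries κ[X] →+* LaurentSeries κ[X] × κ[X] :=
  (HahnSeries.ofPowerSeries ℤ κ[X]).prod (PowerSeries.constantCoeff)

/-- The constants. -/
private def C2_c (κ : Type) [Field κ] : κ[X] →+* LaurentSeries κ[X] × κ[X] :=
  (HahnSeries.C : κ[X] →+* LaurentSeries κ[X]).prod (RingHom.id κ[X])

private def C2_t (κ : Type) [Field κ] : LaurentSeries κ[X] × κ[X] :=
  (HahnSeries.single (1 : ℤ) (1 : κ[X]), 0)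

private theorem C2_c_mem (κ : Type) [Field κ] (f : κ[X]) : C2_c κ f ∈ (C2_O κ).range := by
  refine ⟨PowerSeries.C f, ?_⟩
  refine Prod.ext ?_ ?_
  · change HahnSeries.ofPowerSeries ℤ κ[X] (PowerSeries.C f) = HahnSeries.C f
    rw [HahnSeries.ofPowerSeries_C]
  · change PowerSeries.constantCoeff (PowerSeries.C f) = f
    rw [PowerSeries.constantCoeff_C]

private theorem C2_t_mem (κ : Type) [Field κ] : C2_t κ ∈ (C2_O κ).range := by
  refine ⟨PowerSeries.X, ?_⟩
  refine Prod.ext ?_ ?_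
  · change HahnSeries.ofPowerSeries ℤ κ[X] PowerSeries.X = HahnSeries.single 1 1
    rw [HahnSeries.ofPowerSeries_X]
  · change PowerSeries.constantCoeff PowerSeries.X = (0 : κ[X])
    rw [PowerSeries.constantCoeff_X]

private theorem C2_iP_T (κ : Type) [Field κ] :
    iP κ (C (HahnSeries.single (1 : ℤ) (1 : κ))) = HahnSeries.single (1 : ℤ) (1 : κ[X]) := by
  rw [iP_C]
  ext n
  rw [AI.mapL_coeff, HahnSeries.coeff_single, HahnSeries.coeff_single]
  split_ifs <;> simp

private theorem C2_iP_eval (κ : Type) [Field κ] (f : κ[X]) :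
    iP κ (eval₂ ((C : LaurentSeries κ →+* (LaurentSeries κ)[X]).comp
      (HahnSeries.C : κ →+* LaurentSeries κ)) X f) = HahnSeries.C f := by
  rw [Polynomial.hom_eval₂, iP_X]
  have h : (iP κ).comp ((C : LaurentSeries κ →+* (LaurentSeries κ)[X]).comp
      (HahnSeries.C : κ →+* LaurentSeries κ)) =
      (HahnSeries.C : κ[X] →+* LaurentSeries κ[X]).comp C := by
    refine RingHom.ext fun c => ?_
    rw [RingHom.comp_apply, RingHom.comp_apply, RingHom.comp_apply, iP_C]
    ext n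
    rw [AI.mapL_coeff, HahnSeries.C_apply, HahnSeries.C_apply, HahnSeries.coeff_single,
      HahnSeries.coeff_single]
    split_ifs <;> simp
  rw [h, ← Polynomial.hom_eval₂, Polynomial.eval₂_C_X]

private theorem C2_iP_c (κ : Type) [Field κ] (c : κ) :
    iP κ (((C : LaurentSeries κ →+* (LaurentSeries κ)[X]).comp
      (HahnSeries.C : κ →+* LaurentSeries κ)) c) = HahnSeries.C (C c) := by
  have h := C2_iP_eval κ (C c)
  rwa [Polynomial.eval₂_C] at h

private theorem C2_trP_eval (κ : Type) [Field κ] (a : (LaurentSeries κ)[X]) (f : κ[X]) :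
    trP κ (eval₂ ((C : LaurentSeries κ →+* (LaurentSeries κ)[X]).comp
      (HahnSeries.C : κ →+* LaurentSeries κ)) a f) =
    eval₂ ((C : LaurentSeries κ →+* (LaurentSeries κ)[X]).comp
      (HahnSeries.C : κ →+* LaurentSeries κ)) (trP κ a) f := by
  rw [Polynomial.hom_eval₂]
  have h : (trP κ).comp ((C : LaurentSeries κ →+* (LaurentSeries κ)[X]).comp
      (HahnSeries.C : κ →+* LaurentSeries κ)) = (C : LaurentSeries κ →+* (LaurentSeries κ)[X]).comp
      (HahnSeries.C : κ →+* LaurentSeries κ) := by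
    refine RingHom.ext fun c => ?_
    rw [RingHom.comp_apply, RingHom.comp_apply, trP, Polynomial.coe_compRingHom_apply,
      Polynomial.C_comp]
  rw [h]

private theorem C2_trP_C (κ : Type) [Field κ] (a : LaurentSeries κ) :
    trP κ (C a) = C a := by
  rw [trP, Polynomial.coe_compRingHom_apply, Polynomial.C_comp]

private theorem C2_trP_X (κ : Type) [Field κ] :
    trP κ X = X + C (HahnSeries.single (-1 : ℤ) (1 : κ)) := by
  rw [trP, Polynomial.coe_compRingHom_apply, Polynomial.X_comp]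

private theorem C2_TTi (κ : Type) [Field κ] :
    (HahnSeries.single (1 : ℤ) (1 : κ)) * (HahnSeries.single (-1 : ℤ) (1 : κ)) = 1 := by
  rw [HahnSeries.single_mul_single, add_neg_cancel, mul_one, HahnSeries.single_zero_one]

theorem exists_glp {κ : Type} [Field κ] (f₁ f₂ : κ[X]) :
    ∃ N₀ : ℕ, ∀ N : ℕ, N₀ ≤ N → ∃ (g : (LaurentSeries κ)[X]) (g₁ g₂ : PowerSeries κ[X]),
      g.natDegree = N ∧
      iP κ g = HahnSeries.ofPowerSeries ℤ κ[X] g₁ ∧ PowerSeries.constantCoeff g₁ = f₁ ∧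
      iP κ (trP κ g) = HahnSeries.ofPowerSeries ℤ κ[X] g₂ ∧ PowerSeries.constantCoeff g₂ = f₂ := by
  obtain ⟨M, hM1, hM2⟩ : ∃ M : ℕ, f₁.natDegree < M ∧ f₂.natDegree < M :=
    ⟨max f₁.natDegree f₂.natDegree + 1, by omega, by omega⟩
  refine ⟨2 * M + 1, fun N hN => ?_⟩
  set φ : κ →+* (LaurentSeries κ)[X] := (C : LaurentSeries κ →+* (LaurentSeries κ)[X]).comp
      (HahnSeries.C : κ →+* LaurentSeries κ) with hφ
  set T : LaurentSeries κ := HahnSeries.single (1 : ℤ) (1 : κ) with hT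
  set Ti : LaurentSeries κ := HahnSeries.single (-1 : ℤ) (1 : κ) with hTi
  have hTT : T * Ti = 1 := C2_TTi κ
  have hCT : (C T : (LaurentSeries κ)[X]) * C Ti = 1 := by rw [← C_mul, hTT, C_1]
  have hT0 : T ≠ 0 := left_ne_zero_of_mul_eq_one hTT
  -- the polynomial
  let g₀ : (LaurentSeries κ)[X] := eval₂ φ X f₁ * (1 - C T * X) ^ M +
    eval₂ φ (X + -C Ti) f₂ * (C T * X) ^ M
  let g : (LaurentSeries κ)[X] := g₀ + C (T ^ (N + 1)) * X ^ N
  -- degrees
  have hd1 : (1 - C T * X : (LaurentSeries κ)[X]).natDegree ≤ 1 := by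
    refine (natDegree_sub_le _ _).trans ?_
    rw [natDegree_one]
    exact max_le (by omega) ((natDegree_C_mul_le _ _).trans natDegree_X_le)
  have hd2 : (C T * X : (LaurentSeries κ)[X]).natDegree ≤ 1 :=
    (natDegree_C_mul_le _ _).trans natDegree_X_le
  have hd3 : ∀ (f : κ[X]) (a : (LaurentSeries κ)[X]), a.natDegree ≤ 1 →
      (eval₂ φ a f).natDegree ≤ f.natDegree := by
    intro f a ha
    rw [Polynomial.eval₂_eq_sum_range]
    refine natDegree_sum_le_of_forall_le _ _ fun j hj => ?_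
    rw [Finset.mem_range] at hj
    rw [hφ, RingHom.comp_apply]
    refine (natDegree_C_mul_le _ _).trans ((natDegree_pow_le).trans ?_)
    calc j * a.natDegree ≤ j * 1 := Nat.mul_le_mul_left _ ha
      _ ≤ f.natDegree := by omega
  have hd4 : (X + -C Ti : (LaurentSeries κ)[X]).natDegree ≤ 1 := by
    rw [← C_neg]
    exact (natDegree_X_add_C _).le
  have hg0 : g₀.natDegree < N := by
    have e1 : (eval₂ φ X f₁ * (1 - C T * X) ^ M).natDegree ≤ f₁.natDegree + M * 1 :=
      natDegree_mul_le_of_le (hd3 _ _ natDegree_X_le)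
        ((natDegree_pow_le).trans (Nat.mul_le_mul_left _ hd1))
    have e2 : (eval₂ φ (X + -C Ti) f₂ * (C T * X) ^ M).natDegree ≤ f₂.natDegree + M * 1 :=
      natDegree_mul_le_of_le (hd3 _ _ hd4)
        ((natDegree_pow_le).trans (Nat.mul_le_mul_left _ hd2))
    have e3 : g₀.natDegree ≤ 2 * M := natDegree_add_le_of_le (by omega) (by omega) |>.trans (max_le (le_refl _) (le_refl _))
    omega
  have hgN : g.natDegree = N := by
    have e1 : (C (T ^ (N + 1)) * X ^ N : (LaurentSeries κ)[X]).natDegree = N :=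
      natDegree_C_mul_X_pow _ _ (pow_ne_zero _ hT0)
    change (g₀ + C (T ^ (N + 1)) * X ^ N).natDegree = N
    rw [natDegree_add_eq_right_of_natDegree_lt (by rw [e1]; exact hg0), e1]
  -- first disc
  have k1 := C2_key φ f₂ M hM2 X (C T) (-C Ti) (-1)
    (by linear_combination (-1 : (LaurentSeries κ)[X]) * hCT)
  have k2 := C2_key φ f₁ M hM1 X (C T) (C Ti) 1 hCT
  have r1 : ((iP κ g, f₁) : LaurentSeries κ[X] × κ[X]) ∈ (C2_O κ).range := by
    have h1 : ((iP κ g, f₁) : LaurentSeries κ[X] × κ[X]) =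
        C2_c κ f₁ * (1 - C2_t κ * C2_c κ X) ^ M +
        C2_t κ * (∑ j ∈ Finset.range (f₂.natDegree + 1), C2_c κ (C (f₂.coeff j)) *
          (C2_t κ * C2_c κ X + -1) ^ j * C2_t κ ^ (M - 1 - j)) * C2_c κ X ^ M +
        C2_t κ ^ (N + 1) * C2_c κ X ^ N := by
      refine Prod.ext ?_ ?_
      · have h2 : g = eval₂ φ X f₁ * (1 - C T * X) ^ M +
            C T * (∑ j ∈ Finset.range (f₂.natDegree + 1), φ (f₂.coeff j) *
              (C T * X + -1) ^ j * C T ^ (M - 1 - j)) * X ^ M + C T ^ (N + 1) * X ^ N := by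
          change eval₂ φ X f₁ * (1 - C T * X) ^ M +
            eval₂ φ (X + -C Ti) f₂ * (C T * X) ^ M + C (T ^ (N + 1)) * X ^ N = _
          rw [mul_pow (C T) X M, ← mul_assoc (eval₂ φ (X + -C Ti) f₂), k1, C_pow]
        change iP κ g = _
        rw [h2]
        simp only [map_add, map_mul, map_pow, map_sub, map_one, map_sum, map_neg,
          Prod.fst_add, Prod.fst_mul, Prod.fst_sub, Prod.fst_one, Prod.pow_fst, Prod.fst_sum,
          Prod.fst_neg]
        rw [hφ, hT, C2_iP_eval, C2_iP_T, iP_X]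
        simp only [C2_iP_c]
        rfl
      · change f₁ = _
        simp only [Prod.snd_add, Prod.snd_mul, Prod.snd_sub, Prod.snd_one, Prod.pow_snd,
          Prod.snd_sum, Prod.snd_neg]
        have h3 : (C2_t κ).2 = 0 := rfl
        have h4 : (C2_c κ f₁).2 = f₁ := rfl
        rw [h3, h4]
        simp
    rw [h1]
    have hc := C2_c_mem κ
    have ht := C2_t_mem κ
    refine add_mem (add_mem (mul_mem (hc _) (pow_mem (sub_mem (one_mem _) (mul_mem ht (hc _))) _))
      (mul_mem (mul_mem ht (sum_mem fun j _ => mul_mem (mul_mem (hc _) (pow_mem (add_mem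
        (mul_mem ht (hc _)) (neg_mem (one_mem _))) _)) (pow_mem ht _))) (pow_mem (hc _) _)))
      (mul_mem (pow_mem ht _) (pow_mem (hc _) _))
  have r2 : ((iP κ (trP κ g), f₂) : LaurentSeries κ[X] × κ[X]) ∈ (C2_O κ).range := by
    have h1 : ((iP κ (trP κ g), f₂) : LaurentSeries κ[X] × κ[X]) =
        C2_t κ * (∑ j ∈ Finset.range (f₁.natDegree + 1), C2_c κ (C (f₁.coeff j)) *
          (C2_t κ * C2_c κ X + 1) ^ j * C2_t κ ^ (M - 1 - j)) * (-C2_c κ X) ^ M +
        C2_c κ f₂ * (1 + C2_t κ * C2_c κ X) ^ M +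
        C2_t κ * (C2_t κ * C2_c κ X + 1) ^ N := by
      refine Prod.ext ?_ ?_
      · have h2 : trP κ g = C T * (∑ j ∈ Finset.range (f₁.natDegree + 1), φ (f₁.coeff j) *
              (C T * X + 1) ^ j * C T ^ (M - 1 - j)) * (-X) ^ M +
            eval₂ φ X f₂ * (1 + C T * X) ^ M + C T * (C T * X + 1) ^ N := by
          change trP κ (eval₂ φ X f₁ * (1 - C T * X) ^ M +
            eval₂ φ (X + -C Ti) f₂ * (C T * X) ^ M + C (T ^ (N + 1)) * X ^ N) = _
          have e4 : trP κ (C (T ^ (N + 1)) * X ^ N) = C (T ^ (N + 1)) * (X + C Ti) ^ N := by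
            rw [map_mul, C2_trP_C, map_pow (trP κ) X N, C2_trP_X]
          have e5 : trP κ (eval₂ φ X f₁ * (1 - C T * X) ^ M) =
              eval₂ φ (X + C Ti) f₁ * (1 - C T * (X + C Ti)) ^ M := by
            rw [map_mul, map_pow, map_sub, map_one, map_mul, C2_trP_C, hφ, C2_trP_eval, C2_trP_X]
          have e6 : trP κ (eval₂ φ (X + -C Ti) f₂ * (C T * X) ^ M) =
              eval₂ φ X f₂ * (C T * (X + C Ti)) ^ M := by
            rw [map_mul, map_pow, map_mul, C2_trP_C, hφ, C2_trP_eval, map_add, map_neg,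
              C2_trP_X, C2_trP_C, ← hTi, add_neg_cancel_right]
          rw [map_add, map_add, e4, e5, e6, ← k2]
          have e1 : (1 - C T * (X + C Ti) : (LaurentSeries κ)[X]) = C T * (-X) := by
            rw [mul_add, hCT]; ring
          have e2 : (C T * (X + C Ti) : (LaurentSeries κ)[X]) = C T * X + 1 := by
            rw [mul_add, hCT]
          have e3 : (C (T ^ (N + 1)) * (X + C Ti) ^ N : (LaurentSeries κ)[X]) =
              C T * (C T * X + 1) ^ N := by
            rw [← e2, C_pow, mul_pow, pow_succ]; ring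
          rw [e1, e2, e3]
          ring
        change iP κ (trP κ g) = _
        rw [h2]
        simp only [map_add, map_mul, map_pow, map_one, map_sum, map_neg,
          Prod.fst_add, Prod.fst_mul, Prod.fst_one, Prod.pow_fst, Prod.fst_sum,
          Prod.fst_neg]
        rw [hφ, hT, C2_iP_eval, C2_iP_T, iP_X]
        simp only [C2_iP_c]
        rfl
      · change f₂ = _
        simp only [Prod.snd_add, Prod.snd_mul, Prod.snd_one, Prod.pow_snd,
          Prod.snd_sum, Prod.snd_neg]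
        have h3 : (C2_t κ).2 = 0 := rfl
        have h4 : (C2_c κ f₂).2 = f₂ := rfl
        rw [h3, h4]
        simp
    rw [h1]
    have hc := C2_c_mem κ
    have ht := C2_t_mem κ
    refine add_mem (add_mem (mul_mem (mul_mem ht (sum_mem fun j _ => mul_mem (mul_mem (hc _)
      (pow_mem (add_mem (mul_mem ht (hc _)) (one_mem _)) _)) (pow_mem ht _)))
        (pow_mem (neg_mem (hc _)) _))
      (mul_mem (hc _) (pow_mem (add_mem (one_mem _) (mul_mem ht (hc _))) _)))
      (mul_mem ht (pow_mem (add_mem (mul_mem ht (hc _)) (one_mem _)) _))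
  obtain ⟨g₁, hg₁⟩ := r1
  obtain ⟨g₂, hg₂⟩ := r2
  refine ⟨g, g₁, g₂, hgN, ?_, ?_, ?_, ?_⟩
  · exact (congrArg Prod.fst hg₁).symm
  · exact congrArg Prod.snd hg₁
  · exact (congrArg Prod.fst hg₂).symm
  · exact congrArg Prod.snd hg₂

end

end Pool.Agent.MP_1c8e06_ag.AJ
end
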