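import Pool.Agent.Lib.MP_1c8e06_ag.Mg.G049
import Pool.Agent.Lib.MP_1c8e06_ag.AJ.Defs3

section

set_option autoImplicit false

open Polynomial
open scoped Classical

namespace Pool.Agent.MP_1c8e06_ag.AJ

noncomputable section

/-!
# Task A7: structure constants of an abstract Galois algebra

Proof.  `exists_GD` for `G = P`, `i = id` and the ring of functions `S := {x ↦ act x a | a : A}`
(a subring of `P → A`, image of the ring homomorphism `a ↦ (x ↦ act x a)`, injective: value at `1`).
`hP`: `act (u x) a = act u (act x a)`.  `hact`: `x ↦ act (x h) a = act x (act h a)`.  `hze`: `hz`.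
`hinv`: `act (x h) a = act x a` for all `h`, `x`: `act h a = a`.
`hdual`: `∑ j, act x (u j) * act x' (v j) = act x (∑ j, u j * act (x⁻¹ x') (v j))`.
Then `GD.exists_SC` gives `S'` with `S'.ks = D.k` (`hze`: `ze` injective by `htf` with `a = 1`).
`Φ := Al.lift S' ze (fun l => D.b l 1)`; it is bijective: every `a` is `∑ ze (c l) * D.b l 1`
(second conclusion of `exists_GD` at `x = 1`); injective: `∑ ze (c l) * D.b l 1 = 0` gives the same
at all `x` (`D.b l x = act x (D.b l 1)` as `D.b l` is of the form `x ↦ act x a`), `GD.coord_eq`.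
Equivariance: on `e l`: `act u (D.b l 1) = D.b l u = D.b l (1 * u) = ∑ ze (α u l m) D.b m 1`.
-/

theorem exists_SC {κ : Type} [Field κ] {P : Type} [Group P] [Fintype P] {A : Type} [CommRing A]
    [Nontrivial A] (ze : κ[X] →+* A) (act : P →* (A →+* A)) (hz : ∀ u f, act u (ze f) = ze f)
    (htf : ∀ (f : κ[X]) (a : A), ze f * a = 0 → f = 0 ∨ a = 0)
    (hfin : ∃ (n : ℕ) (v : Fin n → A), ∀ a : A, ∃ c : Fin n → κ[X], a = ∑ j, ze (c j) * v j)
    (hinv : ∀ a : A, (∀ u, act u a = a) → ∃ c : κ[X], a = ze c)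
    (hdual : ∃ (n : ℕ) (u v : Fin n → A), ∀ x : P,
      ∑ j, u j * act x (v j) = if x = 1 then 1 else 0) :
    ∃ (S : SC κ[X] P) (Φ : Al S ≃+* A), (∀ f, Φ (Al.cst S f) = ze f) ∧
      ∀ u a, Φ (Al.act S u a) = act u (Φ a) := by
  let ρ : A →+* (P → A) := RingHom.pi fun x => act x
  have hρ : ∀ a x, ρ a x = act x a := fun _ _ => rfl
  have hmul : ∀ u v a, act (u * v) a = act u (act v a) := fun u v a => by
    rw [map_mul]
    rfl
  have hone : ∀ a, act 1 a = a := fun a => by
    rw [map_one]
    rfl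
  have hexD := exists_GD (MonoidHom.id P) ze act htf ρ.range
    (by
      rintro f ⟨a, rfl⟩ u x
      rw [hρ, hρ, MonoidHom.id_apply, hmul])
    (by
      rintro f ⟨a, rfl⟩ h
      refine ⟨act h a, funext fun x => ?_⟩
      rw [hρ, hρ, hmul])
    (by
      intro f
      refine ⟨ze f, funext fun x => ?_⟩
      rw [hρ, hz])
    (by
      obtain ⟨n, v, hv⟩ := hfin
      refine ⟨n, fun j => ρ (v j), fun j => ⟨v j, rfl⟩, ?_⟩
      rintro f ⟨a, rfl⟩
      obtain ⟨c, hc⟩ := hv a
      refine ⟨c, fun x => ?_⟩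
      rw [hρ, hc, map_sum]
      refine Finset.sum_congr rfl fun j _ => ?_
      rw [map_mul, hz]
      rfl)
    (by
      rintro f ⟨a, rfl⟩ h
      obtain ⟨c, hc⟩ := hinv a (fun u => by
        have h1 := h u 1
        rw [hρ, hρ, one_mul, hone] at h1
        exact h1)
      refine ⟨c, fun x => ?_⟩
      rw [hρ, hc, hz])
    (by
      obtain ⟨n, u, v, huv⟩ := hdual
      refine ⟨n, fun j => ρ (u j), fun j => ρ (v j), fun j => ⟨u j, rfl⟩, fun j => ⟨v j, rfl⟩, ?_⟩
      intro x x'
      have h1 := congrArg (act x) (huv (x⁻¹ * x'))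
      have h2 : act x (if x⁻¹ * x' = 1 then 1 else 0) = if x = x' then 1 else 0 := by
        by_cases h : x = x'
        · rw [if_pos h, if_pos (by rw [h, inv_mul_cancel]), map_one]
        · rw [if_neg h, if_neg (fun h' => h (inv_mul_eq_one.1 h')), map_zero]
      rw [h2, map_sum] at h1
      rw [← h1]
      refine Finset.sum_congr rfl fun j _ => ?_
      rw [map_mul, ← hmul, mul_inv_cancel_left]
      rfl)
  obtain ⟨D, hD, hc⟩ := hexD
  have hzi : Function.Injective ze := by
    intro f g hfg
    have h1 : ze (f - g) * 1 = 0 := by rw [map_sub, hfg, sub_self, zero_mul]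
    rcases htf _ _ h1 with h2 | h2
    · exact sub_eq_zero.1 h2
    · exact absurd h2 one_ne_zero
  obtain ⟨S, hS⟩ := D.exists_SC hzi
  have hμ : ∀ i j l, S.μ i j l = D.k.μ i j l := fun i j l =>
    congrArg (fun k : Ks κ[X] P => k.μ i j l) hS
  have hν : ∀ l, S.ν l = D.k.ν l := fun l => congrArg (fun k : Ks κ[X] P => k.ν l) hS
  have hα : ∀ h l m, S.α h l m = D.k.α h l m := fun h l m =>
    congrArg (fun k : Ks κ[X] P => k.α h l m) hS
  have hb : ∀ l x, D.b l x = act x (D.b l 1) := by
    intro l x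
    obtain ⟨a, ha⟩ := hD l
    have h1 : ∀ x, D.b l x = act x a := fun x => by
      rw [← hρ, ha]
    rw [h1, h1, hone]
  have h1 : ∀ i j, D.b i 1 * D.b j 1 = ∑ l, ze (S.μ i j l) * D.b l 1 := by
    intro i j
    rw [D.hmul]
    refine Finset.sum_congr rfl fun l _ => ?_
    rw [hμ]
  have h2 : ∑ l, ze (S.ν l) * D.b l 1 = 1 := by
    rw [← D.hone 1]
    refine Finset.sum_congr rfl fun l _ => ?_
    rw [hν]
  let Φ0 : Al S →+* A := Al.lift S ze (fun l => D.b l 1) h1 h2
  have hΦ0 : ∀ a, Φ0 a = ∑ l, ze (a l) * D.b l 1 := fun a => rfl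
  have hinj : Function.Injective Φ0 := by
    rw [injective_iff_map_eq_zero]
    intro a ha
    have h3 : (a : P → κ[X]) = fun _ => 0 := by
      refine D.coord_eq hzi a (fun _ => 0) fun x => ?_
      have h4 := congrArg (act x) ((hΦ0 a).symm.trans ha)
      rw [map_sum, map_zero] at h4
      simp only [map_mul, hz, ← hb] at h4
      rw [h4]
      simp only [map_zero, zero_mul, Finset.sum_const_zero]
    exact h3
  have hsurj : Function.Surjective Φ0 := by
    intro a
    obtain ⟨c, hc'⟩ := hc (ρ a) ⟨a, rfl⟩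
    refine ⟨c, ?_⟩
    rw [hΦ0, ← hc' 1, hρ, hone]
  refine ⟨S, RingEquiv.ofBijective Φ0 ⟨hinj, hsurj⟩, ?_, ?_⟩
  · intro f
    exact Al.lift_cst S ze _ h1 h2 f
  · intro u a
    have h3 : Φ0.comp (Al.act S u) = (act u).comp Φ0 := by
      refine Al.hom_ext S (fun f => ?_) (fun l => ?_)
      · rw [RingHom.comp_apply, RingHom.comp_apply, Al.act_cst]
        change Al.lift S ze (fun l => D.b l 1) h1 h2 (Al.cst S f) =
          act u (Al.lift S ze (fun l => D.b l 1) h1 h2 (Al.cst S f))
        rw [Al.lift_cst, hz]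
      · rw [RingHom.comp_apply, RingHom.comp_apply, Al.act_e, map_sum]
        have h4 : Φ0 (Al.e S l) = D.b l 1 := Al.lift_e S ze _ h1 h2 l
        rw [h4, ← hb]
        have h5 := D.hact u l 1
        rw [one_mul] at h5
        rw [h5]
        refine Finset.sum_congr rfl fun m _ => ?_
        have h6 : Φ0 (Al.e S m) = D.b m 1 := Al.lift_e S ze _ h1 h2 m
        have h7 : Φ0 (Al.cst S (S.α u l m)) = ze (S.α u l m) := Al.lift_cst S ze _ h1 h2 _
        rw [map_mul, h6, h7, hα]
    exact congrArg (fun g : Al S →+* A => g a) h3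

end

end Pool.Agent.MP_1c8e06_ag.AJ
end

section

set_option autoImplicit false

open Polynomial
open scoped Classical

namespace Pool.Agent.MP_1c8e06_ag.AJ

noncomputable section

/-!
# Task C5: Artin-Schreier extensions of Galois algebras

Proof.  `A₀ := Al S'`, `A := AS p b`, `ze := (AS.of p b).comp (Al.cst S')`,
`act u := AS.aff (charP_Al S') (Al.act S' (q u)) (a u) (hb u)` (`AS.aff_of`, `AS.aff_rt`, `AS.hom_ext`: it is
multiplicative in `u` by `ha`; `a 1 = 0` by `ha 1 1`).  Every element of `A` is uniquely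
`∑_{j<p} of (c j) * rt^j` (`asP p b` is monic of degree `p`: `AdjoinRoot.powerBasis'`/`modByMonicHom`, as in
`AI/A0.lean`).  Apply `exists_SC`:
* `hz`: `Al.act_cst`.  `htf`: coordinates, `Al.cst_mul`.  `hfin`: the products `of (e l) * rt^j`.
* `hinv`: let `x = ∑ of (c j) rt^j` be fixed.  Fixed by `act ι₀`, which is the identity on `of` and
  `rt ↦ rt + 1` (`q ι₀ = 1`, `a ι₀ = 1`): if `J ≥ 1` is the largest index with `c J ≠ 0`, the coefficient of
  `rt^(J-1)` in `act ι₀ x - x` is `J * c J`, and `J` is a unit in `K` (`1 ≤ J < p`): contradiction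
  (as in `AI/A2.lean`).  So `x = of (c 0)`, and `c 0` is fixed by all `act (q u)`, `q` surjective: `fixed`.
* `hdual`: in `A`, for `n : ℕ`: `1 - ((rt + n) - rt)^(p-1) = 1 - n^(p-1) = if p ∣ n then 1 else 0`; expand the
  power: there are `U_k, V_k ∈ A`, `k < p + 1`, (`(U,V) = (1, 1)` and
  `(- (p-1 choose k) (-rt)^(p-1-k), rt^k)`) with `∑_k U_k * V_k(rt + n) = if p ∣ n then 1 else 0`.
  Dual system: `of (e l) * U_k` and `of (∑_m cst (T' l m) * e m) * V_k` (indices `l : P'`, `k`):
  `∑ = of (∑_{l,m} cst (T' l m) e l * act (q u) (e m)) * ∑_k U_k * act u V_k`, the first factor is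
  `if q u = 1 then 1 else 0` (`dual_e`), and for `q u = 1`: `u = ι₀^n`, `a u = n` (induction, `ha`),
  `∑_k U_k V_k(rt + n) = if p ∣ n then 1 else 0`, and `p ∣ n ↔ u = 1` (`orderOf ι₀ = p`).
-/

section generic
variable {A₀ : Type} [CommRing A₀] {p : ℕ} [hp : Fact p.Prime] {b : A₀}

private theorem C5_monic (b : A₀) : (asP p b).Monic := by
  have h2 := hp.out.two_le
  have e : asP p b = X ^ p + (-(X + C b)) := by
    unfold asP
    ring
  rw [e]
  refine monic_X_pow_add (lt_of_le_of_lt (degree_neg_le_of_le ?_) (?_ : (1 : WithBot ℕ) < p))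
  · exact (degree_add_le _ _).trans (max_le degree_X_le (degree_C_le.trans (by decide)))
  · exact_mod_cast h2

private theorem C5_natDegree [Nontrivial A₀] (b : A₀) : (asP p b).natDegree = p := by
  have h2 := hp.out.two_le
  unfold asP
  rw [sub_sub, natDegree_sub_eq_left_of_natDegree_lt, natDegree_X_pow]
  rw [natDegree_X_pow]
  refine lt_of_le_of_lt (natDegree_add_le _ _) ?_
  rw [natDegree_C, natDegree_X]
  simp only [max_lt_iff]
  omega

private def C5_co (a : AS p b) (j : ℕ) : A₀ :=
  (AdjoinRoot.modByMonicHom (C5_monic (p := p) b) a).coeff j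

private theorem C5_co_of_mul (c : A₀) (a : AS p b) (j : ℕ) :
    C5_co (AS.of p b c * a) j = c * C5_co a j := by
  have h : AS.of p b c * a = c • a := by
    rw [Algebra.smul_def]
    rfl
  rw [h, C5_co, map_smul, Polynomial.coeff_smul, smul_eq_mul]
  rfl

private theorem C5_eq_sum [Nontrivial A₀] (a : AS p b) :
    a = ∑ j ∈ Finset.range p, AS.of p b (C5_co a j) * AS.rt p b ^ j := by
  obtain ⟨f, rfl⟩ := AdjoinRoot.mk_surjective a
  have h1 : AdjoinRoot.mk (asP p b) f = AdjoinRoot.mk (asP p b) (f %ₘ asP p b) := by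
    rw [AdjoinRoot.mk_eq_mk, Polynomial.modByMonic_eq_sub_mul_div]
    simp
  have hd : (f %ₘ asP p b).natDegree < p := by
    have h2 := Polynomial.natDegree_modByMonic_lt f (C5_monic (p := p) b) (by
      intro h
      have h3 := C5_natDegree (p := p) b
      rw [h, natDegree_one] at h3
      exact hp.out.ne_zero h3.symm)
    rwa [C5_natDegree] at h2
  have h3 : AdjoinRoot.mk (asP p b) (f %ₘ asP p b) =
      ∑ j ∈ Finset.range p, AS.of p b ((f %ₘ asP p b).coeff j) * AS.rt p b ^ j := by
    conv_lhs => rw [Polynomial.as_sum_range' _ p hd]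
    rw [map_sum]
    refine Finset.sum_congr rfl fun j _ => ?_
    rw [← Polynomial.C_mul_X_pow_eq_monomial, map_mul, map_pow]
    rfl
  rw [h1, h3]
  refine Finset.sum_congr rfl fun j _ => ?_
  congr 2
  rw [← h3, ← h1, C5_co, AdjoinRoot.modByMonicHom_mk]

private theorem C5_co_sum [Nontrivial A₀] (c : ℕ → A₀) {j : ℕ} (hj : j < p) :
    C5_co (∑ i ∈ Finset.range p, AS.of p b (c i) * AS.rt p b ^ i) j = c j := by
  have h : ∑ i ∈ Finset.range p, AS.of p b (c i) * AS.rt p b ^ i =
      AdjoinRoot.mk (asP p b) (∑ i ∈ Finset.range p, C (c i) * X ^ i) := by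
    rw [map_sum]
    refine Finset.sum_congr rfl fun i _ => ?_
    rw [map_mul, map_pow]
    rfl
  have hd : (∑ i ∈ Finset.range p, C (c i) * X ^ i).degree < (asP p b).degree := by
    rw [Polynomial.degree_eq_natDegree (C5_monic (p := p) b).ne_zero, C5_natDegree]
    have hmem : ∑ i ∈ Finset.range p, C (c i) * X ^ i ∈ Polynomial.degreeLT A₀ p := by
      refine Submodule.sum_mem _ fun i hi => ?_
      rw [Polynomial.mem_degreeLT]
      refine lt_of_le_of_lt (Polynomial.degree_C_mul_X_pow_le _ _) ?_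
      exact_mod_cast Finset.mem_range.1 hi
    exact Polynomial.mem_degreeLT.1 hmem
  rw [h, C5_co, AdjoinRoot.modByMonicHom_mk,
    (Polynomial.modByMonic_eq_self_iff (C5_monic (p := p) b)).2 hd, Polynomial.finsetSum_coeff,
    Finset.sum_eq_single j]
  · simp
  · intro i _ hij
    rw [Polynomial.coeff_C_mul_X_pow, if_neg (Ne.symm hij)]
  · intro h1
    exact absurd (Finset.mem_range.2 hj) h1

private theorem C5_ext [Nontrivial A₀] {x y : AS p b} (h : ∀ j < p, C5_co x j = C5_co y j) :
    x = y := by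
  rw [C5_eq_sum x, C5_eq_sum y]
  refine Finset.sum_congr rfl fun j hj => ?_
  rw [h j (Finset.mem_range.1 hj)]

private theorem C5_co_of [Nontrivial A₀] (c : A₀) {j : ℕ} (hj : j < p) :
    C5_co (AS.of p b c) j = if j = 0 then c else 0 := by
  have h := C5_co_sum (p := p) (b := b) (fun i => if i = 0 then c else 0) hj
  rw [Finset.sum_eq_single 0] at h
  · simpa using h
  · intro i _ hi
    simp [hi]
  · intro h1
    exact absurd (Finset.mem_range.2 hp.out.pos) h1

private theorem C5_of_inj [Nontrivial A₀] : Function.Injective (AS.of p b) := by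
  intro x y h
  have h1 := C5_co_of (p := p) (b := b) x hp.out.pos
  rw [h, C5_co_of _ hp.out.pos] at h1
  simpa using h1.symm

private theorem C5_fixed [Nontrivial A₀] (h0 : ((p : ℕ) : A₀) = 0) (σ : AS p b →+* AS p b)
    (hσ1 : ∀ c, σ (AS.of p b c) = AS.of p b c) (hσ2 : σ (AS.rt p b) = AS.rt p b + 1)
    (a : AS p b) (h : σ a = a) : ∃ c : A₀, a = AS.of p b c := by
  -- the coordinates of `tau a`
  have hco : ∀ k < p, C5_co (σ a) k =
      ∑ j ∈ Finset.range p, ((j.choose k : ℕ) : A₀) * C5_co a j := by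
    intro k hk
    have h1 : σ a = ∑ k ∈ Finset.range p,
        AS.of p b (∑ j ∈ Finset.range p, ((j.choose k : ℕ) : A₀) * C5_co a j) *
          AS.rt p b ^ k := by
      conv_lhs => rw [C5_eq_sum a]
      rw [map_sum]
      simp only [map_mul, map_pow, hσ1, hσ2, map_sum, map_natCast]
      have h2 : ∀ j ∈ Finset.range p, AS.of p b (C5_co a j) * (AS.rt p b + 1) ^ j =
          ∑ k ∈ Finset.range p, ((j.choose k : ℕ) : AS p b) * AS.of p b (C5_co a j) *
            AS.rt p b ^ k := by
        intro j hj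
        rw [add_pow, Finset.mul_sum]
        have h3 : Finset.range (j + 1) ⊆ Finset.range p :=
          Finset.range_subset_range.2 (Finset.mem_range.1 hj)
        rw [← Finset.sum_subset h3]
        · refine Finset.sum_congr rfl fun k _ => ?_
          rw [one_pow, mul_one]
          ring
        · intro k _ hk'
          rw [Finset.mem_range, not_lt] at hk'
          rw [Nat.choose_eq_zero_of_lt (by omega), Nat.cast_zero, zero_mul, zero_mul]
      rw [Finset.sum_congr rfl h2, Finset.sum_comm]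
      refine Finset.sum_congr rfl fun k _ => ?_
      rw [Finset.sum_mul]
    rw [h1]
    exact C5_co_sum _ hk
  rw [h] at hco
  have hz : ∀ m j : ℕ, 1 ≤ j → j < p → p - j ≤ m → C5_co a j = 0 := by
    intro m
    induction m with
    | zero =>
      intro j _ h2 h3
      omega
    | succ m ih =>
      intro j h1 h2 h3
      have h4 := hco (j - 1) (by omega)
      have h5 : ∑ i ∈ Finset.range p, ((i.choose (j - 1) : ℕ) : A₀) *
          C5_co a i = C5_co a (j - 1) + (j : A₀) * C5_co a j := by
        have h6 : ({j - 1, j} : Finset ℕ) ⊆ Finset.range p := by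
          intro i hi
          rw [Finset.mem_insert, Finset.mem_singleton] at hi
          rw [Finset.mem_range]
          omega
        rw [← Finset.sum_subset h6, Finset.sum_pair (by omega), Nat.choose_self, Nat.cast_one,
          one_mul]
        · congr 3
          obtain ⟨l, rfl⟩ : ∃ l, j = l + 1 := ⟨j - 1, by omega⟩
          rw [Nat.add_sub_cancel, Nat.choose_succ_self_right]
        · intro i hi hi'
          rw [Finset.mem_insert, Finset.mem_singleton, not_or] at hi'
          rw [Finset.mem_range] at hi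
          rcases lt_or_ge i (j - 1) with h7 | h7
          · rw [Nat.choose_eq_zero_of_lt h7, Nat.cast_zero, zero_mul]
          · rw [ih i (by omega) hi (by omega), mul_zero]
      rw [h5] at h4
      have h6 : (j : A₀) * C5_co a j = 0 := by
        have h7 : C5_co a (j - 1) + 0 =
            C5_co a (j - 1) + (j : A₀) * C5_co a j := by
          rw [add_zero]
          exact h4
        exact (add_left_cancel h7).symm
      have hcop : Nat.Coprime j p := by
        rw [Nat.coprime_comm]
        exact (Nat.Prime.coprime_iff_not_dvd hp.out).2 fun hd => by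
          have := Nat.le_of_dvd (by omega) hd
          omega
      obtain ⟨u, v, huv⟩ := Nat.isCoprime_iff_coprime.2 hcop
      have h8 : ((u : A₀) * (j : A₀) + (v : A₀) * (p : A₀)) = 1 := by
        exact_mod_cast congrArg (Int.cast : ℤ → A₀) huv
      calc C5_co a j = 1 * C5_co a j := (one_mul _).symm
        _ = ((u : A₀) * (j : A₀) + (v : A₀) * (p : A₀)) * C5_co a j := by rw [h8]
        _ = (u : A₀) * ((j : A₀) * C5_co a j) := by
            rw [h0]
            ring
        _ = 0 := by rw [h6, mul_zero]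
  refine ⟨C5_co a 0, C5_ext fun j hj => ?_⟩
  rw [C5_co_of _ hj]
  split_ifs with h0
  · rw [h0]
  · exact hz p j (Nat.one_le_iff_ne_zero.2 h0) hj (Nat.sub_le _ _)

/-- Fermat's little theorem in a ring of characteristic `p`. -/
private theorem C5_fermat (h0 : ((p : ℕ) : A₀) = 0) (n : ℕ) :
    (1 : A₀) - (n : A₀) ^ (p - 1) = if p ∣ n then 1 else 0 := by
  have h2 := hp.out.two_le
  split_ifs with hd
  · obtain ⟨m, rfl⟩ := hd
    rw [Nat.cast_mul, h0, zero_mul, zero_pow (by omega), sub_zero]
  · have hc : Nat.Coprime n p := by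
      rw [Nat.coprime_comm]
      exact (Nat.Prime.coprime_iff_not_dvd hp.out).2 hd
    have h1 : n ^ (p - 1) ≡ 1 [MOD p] := by
      have := Nat.ModEq.pow_totient hc
      rwa [Nat.totient_prime hp.out] at this
    have hn : 1 ≤ n ^ (p - 1) := by
      apply Nat.one_le_pow
      rcases Nat.eq_zero_or_pos n with h | h
      · subst h
        exact absurd (dvd_zero p) hd
      · exact h
    obtain ⟨m, hm⟩ := (Nat.modEq_iff_dvd' hn).1 h1.symm
    have h3 : n ^ (p - 1) = 1 + p * m := by omega
    have h4 : (n : A₀) ^ (p - 1) = 1 := by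
      rw [← Nat.cast_pow, h3]
      push_cast
      rw [h0, zero_mul, add_zero]
    rw [h4, sub_self]

/-- The Artin-Schreier dual system. -/
private theorem C5_dual (h0 : ((p : ℕ) : A₀) = 0) (y : A₀) (n : ℕ) :
    (1 : A₀) * 1 + ∑ k ∈ Finset.range p, (-(((p - 1).choose k : ℕ) : A₀) * (-y) ^ (p - 1 - k)) *
      (y + n) ^ k = if p ∣ n then 1 else 0 := by
  rw [← C5_fermat h0 n]
  have h2 := hp.out.two_le
  have e : (n : A₀) ^ (p - 1) = ((y + n) + (-y)) ^ (p - 1) := by
    congr 1
    ring
  rw [e, add_pow]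
  have e2 : p - 1 + 1 = p := by omega
  rw [e2, sub_eq_add_neg, ← Finset.sum_neg_distrib, mul_one]
  congr 1
  refine Finset.sum_congr rfl fun k _ => ?_
  ring

end generic

theorem exists_ASG {p : ℕ} [hp : Fact p.Prime] {K : Type} [Field K] [CharP K p] {P P' : Type}
    [Group P] [Fintype P] [Group P'] [Fintype P'] (q : P →* P') (hq : Function.Surjective q)
    (ι₀ : P) (hι₀ : q ι₀ = 1) (hord : orderOf ι₀ = p) (hker : ∀ u, q u = 1 → ∃ n : ℕ, u = ι₀ ^ n)
    (S' : SC K[X] P') (a : P → Al S') (ha : ∀ u v, a (u * v) = a u + Al.act S' (q u) (a v))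
    (ha0 : a ι₀ = 1) (b : Al S') (hb : ∀ u, Al.act S' (q u) b = b + (a u ^ p - a u)) :
    ∃ (S : SC K[X] P) (Φ : Al S ≃+* AS p b),
      (∀ f, Φ (Al.cst S f) = AS.of p b (Al.cst S' f)) ∧
      ∀ u, ∀ σ : AS p b →+* AS p b, (∀ c, σ (AS.of p b c) = AS.of p b (Al.act S' (q u) c)) →
        σ (AS.rt p b) = AS.rt p b + AS.of p b (a u) → ∀ x, Φ (Al.act S u x) = σ (Φ x) := by
  have hpp := hp.out.two_le
  have h0 : ((p : ℕ) : Al S') = 0 := charP_Al S'
  haveI : Nontrivial (Al S') := (cst_injective S').nontrivial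
  haveI : Nontrivial (AS p b) := (C5_of_inj (p := p) (b := b)).nontrivial
  have h0' : ((p : ℕ) : AS p b) = 0 := by
    rw [← map_natCast (AS.of p b) p, h0, map_zero]
  have ha1 : a 1 = 0 := by
    have h := ha 1 1
    rw [mul_one, map_one, Al.act_one_apply] at h
    exact left_eq_add.1 h
  let act : P →* (AS p b →+* AS p b) :=
    { toFun := fun u => AS.aff h0 (Al.act S' (q u)) (a u) (hb u)
      map_one' := by
        refine AS.hom_ext (fun c => ?_) ?_
        · rw [AS.aff_of, map_one, Al.act_one_apply]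
          rfl
        · rw [AS.aff_rt, ha1, map_zero, add_zero]
          rfl
      map_mul' := by
        intro u v
        refine AS.hom_ext (fun c => ?_) ?_
        · rw [AS.aff_of, RingHom.mul_def, RingHom.comp_apply, AS.aff_of, AS.aff_of, map_mul,
            Al.act_mul_apply]
        · rw [AS.aff_rt, RingHom.mul_def, RingHom.comp_apply, AS.aff_rt, map_add, AS.aff_rt,
            AS.aff_of, ha, map_add, add_assoc] }
  have act_of : ∀ u c, act u (AS.of p b c) = AS.of p b (Al.act S' (q u) c) := fun u c =>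
    AS.aff_of h0 _ _ (hb u) c
  have act_rt : ∀ u, act u (AS.rt p b) = AS.rt p b + AS.of p b (a u) := fun u =>
    AS.aff_rt h0 _ _ (hb u)
  have han : ∀ n : ℕ, a (ι₀ ^ n) = (n : Al S') := by
    intro n
    induction n with
    | zero => rw [pow_zero, ha1, Nat.cast_zero]
    | succ n ih =>
      rw [pow_succ, ha, ih, ha0, map_one]
      push_cast
      rfl
  obtain ⟨S, Φ, hΦ1, hΦ2⟩ := exists_SC (κ := K) (P := P) (A := AS p b)
    ((AS.of p b).comp (Al.cst S')) act
    (by
      intro u f
      rw [RingHom.comp_apply, act_of, Al.act_cst])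
    (by
      intro f x hx
      by_cases hf : f = 0
      · exact Or.inl hf
      · refine Or.inr (C5_ext fun j hj => ?_)
        have h1 : C5_co (((AS.of p b).comp (Al.cst S')) f * x) j = Al.cst S' f * C5_co x j := by
          rw [RingHom.comp_apply, C5_co_of_mul]
        have hz0 : C5_co (0 : AS p b) j = 0 := by
          rw [← map_zero (AS.of p b), C5_co_of _ hj]
          split_ifs <;> rfl
        rw [hx, hz0] at h1
        rw [hz0]
        refine Al.ext fun l => ?_
        have h2 := congrArg (fun z : Al S' => z l) h1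
        simp only [Al.cst_mul] at h2
        have h3 : (0 : Al S') l = 0 := rfl
        rw [h3] at h2 ⊢
        exact (mul_eq_zero.1 h2.symm).resolve_left hf)
    (by
      let ε := Fintype.equivFin (P' × Fin p)
      refine ⟨Fintype.card (P' × Fin p),
        fun k => AS.of p b (Al.e S' (ε.symm k).1) * AS.rt p b ^ ((ε.symm k).2 : ℕ), fun x => ?_⟩
      refine ⟨fun k => C5_co x ((ε.symm k).2 : ℕ) (ε.symm k).1, ?_⟩
      have e1 := Equiv.sum_comp ε.symm (fun y : P' × Fin p =>
        ((AS.of p b).comp (Al.cst S')) (C5_co x (y.2 : ℕ) y.1) *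
          (AS.of p b (Al.e S' y.1) * AS.rt p b ^ (y.2 : ℕ)))
      rw [e1, Fintype.sum_prod_type_right]
      conv_lhs => rw [C5_eq_sum x, Finset.sum_range]
      refine Finset.sum_congr rfl fun j _ => ?_
      conv_lhs => rw [Al.eq_sum S' (C5_co x (j : ℕ)), map_sum, Finset.sum_mul]
      refine Finset.sum_congr rfl fun l _ => ?_
      rw [map_mul, RingHom.comp_apply, mul_assoc])
    (by
      intro x hx
      have h1 := hx ι₀
      obtain ⟨c, rfl⟩ := C5_fixed h0 (act ι₀)
        (fun c => by rw [act_of, hι₀, Al.act_one_apply])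
        (by rw [act_rt, ha0, map_one]) x h1
      have h2 : ∀ u', Al.act S' u' c = c := by
        intro u'
        obtain ⟨u, rfl⟩ := hq u'
        have h3 := hx u
        rw [act_of] at h3
        exact C5_of_inj h3
      obtain ⟨f, hf⟩ := fixed S' c h2
      exact ⟨f, by rw [RingHom.comp_apply, ← hf]⟩)
    (by
      let Uk : Option (Fin p) → AS p b := fun o => match o with
        | none => 1
        | some k => -(((p - 1).choose (k : ℕ) : ℕ) : AS p b) * (-AS.rt p b) ^ (p - 1 - (k : ℕ))
      let Vk : Option (Fin p) → AS p b := fun o => match o with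
        | none => 1
        | some k => AS.rt p b ^ (k : ℕ)
      let ε := Fintype.equivFin (P' × Option (Fin p))
      refine ⟨Fintype.card (P' × Option (Fin p)),
        fun k => AS.of p b (Al.e S' (ε.symm k).1) * Uk (ε.symm k).2,
        fun k => AS.of p b (∑ m, Al.cst S' (S'.T' (ε.symm k).1 m) * Al.e S' m) * Vk (ε.symm k).2,
        fun x => ?_⟩
      have e1 := Equiv.sum_comp ε.symm (fun y : P' × Option (Fin p) =>
        (AS.of p b (Al.e S' y.1) * Uk y.2) *
          act x (AS.of p b (∑ m, Al.cst S' (S'.T' y.1 m) * Al.e S' m) * Vk y.2))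
      rw [e1, Fintype.sum_prod_type]
      have e2 : ∑ l : P', ∑ o : Option (Fin p), (AS.of p b (Al.e S' l) * Uk o) *
          act x (AS.of p b (∑ m, Al.cst S' (S'.T' l m) * Al.e S' m) * Vk o) =
          (AS.of p b (∑ l, ∑ m, Al.cst S' (S'.T' l m) * Al.e S' l * Al.act S' (q x) (Al.e S' m))) *
            ∑ o, Uk o * act x (Vk o) := by
        rw [map_sum, Finset.sum_mul]
        refine Finset.sum_congr rfl fun l _ => ?_
        rw [Finset.mul_sum]
        refine Finset.sum_congr rfl fun o _ => ?_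
        rw [map_mul, act_of]
        have e3 : Al.act S' (q x) (∑ m, Al.cst S' (S'.T' l m) * Al.e S' m) =
            ∑ m, Al.cst S' (S'.T' l m) * Al.act S' (q x) (Al.e S' m) := by
          rw [map_sum]
          refine Finset.sum_congr rfl fun m _ => ?_
          rw [map_mul, Al.act_cst]
        have e4 : ∑ m, Al.cst S' (S'.T' l m) * Al.e S' l * Al.act S' (q x) (Al.e S' m) =
            Al.e S' l * ∑ m, Al.cst S' (S'.T' l m) * Al.act S' (q x) (Al.e S' m) := by
          rw [Finset.mul_sum]
          refine Finset.sum_congr rfl fun m _ => ?_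
          ring
        rw [e3, e4, map_mul]
        ring
      rw [e2, dual_e]
      by_cases hx : q x = 1
      · rw [if_pos hx, map_one, one_mul]
        obtain ⟨n, hn⟩ := hker x hx
        have e5 : act x (AS.rt p b) = AS.rt p b + n := by
          rw [act_rt, hn, han, map_natCast]
        rw [Fintype.sum_option]
        have e6 : ∀ k : Fin p, Uk (some k) * act x (Vk (some k)) =
            (-(((p - 1).choose (k : ℕ) : ℕ) : AS p b) * (-AS.rt p b) ^ (p - 1 - (k : ℕ))) *
              (AS.rt p b + n) ^ (k : ℕ) := by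
          intro k
          change (-(((p - 1).choose (k : ℕ) : ℕ) : AS p b) * (-AS.rt p b) ^ (p - 1 - (k : ℕ))) *
            act x (AS.rt p b ^ (k : ℕ)) = _
          rw [map_pow, e5]
        rw [Finset.sum_congr rfl fun k _ => e6 k]
        have e7 : Uk none * act x (Vk none) = 1 * 1 := by
          change 1 * act x 1 = _
          rw [map_one]
        rw [e7]
        have e8 := C5_dual (p := p) h0' (AS.rt p b) n
        rw [Finset.sum_range] at e8
        rw [e8]
        have e9 : p ∣ n ↔ x = 1 := by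
          rw [hn, ← orderOf_dvd_iff_pow_eq_one, hord]
        by_cases h : x = 1
        · rw [if_pos (e9.2 h), if_pos h]
        · rw [if_neg (fun hh => h (e9.1 hh)), if_neg h]
      · rw [if_neg hx, map_zero, zero_mul, if_neg]
        intro h
        apply hx
        rw [h, map_one])
  refine ⟨S, Φ, fun f => hΦ1 f, ?_⟩
  intro u σ hσ1 hσ2 x
  have hσ : σ = act u := by
    refine AS.hom_ext (fun c => ?_) ?_
    · rw [hσ1, act_of]
    · rw [hσ2, act_rt]
  rw [hσ]
  exact hΦ2 u x

end

end Pool.Agent.MP_1c8e06_ag.AJ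
end

section

set_option autoImplicit false

open Polynomial
open scoped Classical

namespace Pool.Agent.MP_1c8e06_ag.AJ

noncomputable section

/-!
# Task C5q: the invariants under a normal subgroup

Proof.  `N := q.ker`.  `A := ` the subring of `Al S` of all `a` with `act u a = a` for `q u = 1`.  `P'` acts on it:
`act' (q u) a := act u a` (choose preimages; well defined).  `exists_SC` for `A`:
`hz`, `htf`: as in `Al S` (`cst_mul`).  `hfin`: submodule of the finitely generated `K[X]`-module `Al S`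
(noetherian).  `hinv`: `fixed`.
`hdual`: `tr a := ∑_{n ∈ N} act n a ∈ A`.  `exists_theta`: `θ`; with a section `s` of `q`,
`θ' := ∑_{h : P'} act (s h) θ` satisfies `tr θ' = ∑_{x : P} act x θ = 1` (`P` is the disjoint union of the `N s(h)`).
Dual system indexed by `l : P`: `tr (θ' * e l)` and `tr (∑_m cst (T' l m) * e m)`: for `x : P`
`∑_l tr (θ' e l) * act x (tr (∑_m ..)) = ∑_{n, n'} act n θ' * act n (∑_l e l * act (n⁻¹ x n') (∑_m cst (T' l m) e m))
 = ∑_{n, n'} act n θ' * [n⁻¹ x n' = 1] = if x ∈ N then 1 else 0` (`dual_e`).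
`J := (inclusion A → Al S) ∘ Φ`.
-/

section
variable {K : Type} [Field K] {P P' : Type} [Group P] [Fintype P] [Group P'] [Fintype P']
  (q : P →* P') (S : SC K[X] P)

private def C5q_A : Subring (Al S) where
  carrier := {a | ∀ u, q u = 1 → Al.act S u a = a}
  mul_mem' := by
    intro a b ha hb u hu
    rw [map_mul, ha u hu, hb u hu]
  one_mem' := fun u _ => map_one _
  add_mem' := by
    intro a b ha hb u hu
    rw [map_add, ha u hu, hb u hu]
  zero_mem' := fun u _ => map_zero _
  neg_mem' := by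
    intro a ha u hu
    rw [map_neg, ha u hu]

private theorem C5q_mem (a : Al S) : a ∈ C5q_A q S ↔ ∀ u, q u = 1 → Al.act S u a = a := Iff.rfl

private theorem C5q_congr {a : Al S} (ha : a ∈ C5q_A q S) {u v : P} (h : q u = q v) :
    Al.act S u a = Al.act S v a := by
  have h1 : u = v * (v⁻¹ * u) := by group
  rw [h1, Al.act_mul_apply, ha (v⁻¹ * u) (by rw [map_mul, map_inv, h, inv_mul_cancel])]

private theorem C5q_act_mem {a : Al S} (ha : a ∈ C5q_A q S) (v : P) :
    Al.act S v a ∈ C5q_A q S := by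
  intro u hu
  rw [← Al.act_mul_apply]
  exact C5q_congr q S ha (by rw [map_mul, hu, one_mul])

private def C5q_ze : K[X] →+* C5q_A q S :=
  (Al.cst S).codRestrict (C5q_A q S) (fun f u _ => Al.act_cst S u f)

private theorem C5q_ze_coe (f : K[X]) : (C5q_ze q S f : Al S) = Al.cst S f := rfl

private def C5q_s (hq : Function.Surjective q) : P' → P := Function.surjInv hq

private theorem C5q_qs (hq : Function.Surjective q) (h : P') : q (C5q_s q hq h) = h :=
  Function.surjInv_eq hq h

private def C5q_actOne (v : P) : C5q_A q S →+* C5q_A q S :=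
  ((Al.act S v).comp (C5q_A q S).subtype).codRestrict (C5q_A q S)
    (fun a => C5q_act_mem q S a.2 v)

private theorem C5q_actOne_coe (v : P) (a : C5q_A q S) :
    (C5q_actOne q S v a : Al S) = Al.act S v (a : Al S) := rfl

private def C5q_act (hq : Function.Surjective q) : P' →* (C5q_A q S →+* C5q_A q S) where
  toFun h := C5q_actOne q S (C5q_s q hq h)
  map_one' := by
    refine RingHom.ext fun a => Subtype.ext ?_
    rw [C5q_actOne_coe]
    exact a.2 _ (C5q_qs q hq 1)
  map_mul' g h := by
    refine RingHom.ext fun a => Subtype.ext ?_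
    rw [C5q_actOne_coe, RingHom.mul_def, RingHom.comp_apply, C5q_actOne_coe, C5q_actOne_coe,
      ← Al.act_mul_apply]
    refine C5q_congr q S a.2 ?_
    rw [map_mul, C5q_qs, C5q_qs, C5q_qs]

private theorem C5q_act_coe (hq : Function.Surjective q) (u : P) (a : C5q_A q S) :
    (C5q_act q S hq (q u) a : Al S) = Al.act S u (a : Al S) := by
  change Al.act S (C5q_s q hq (q u)) (a : Al S) = _
  exact C5q_congr q S a.2 (C5q_qs q hq (q u))

private def C5q_N : Finset P := Finset.univ.filter (fun u => q u = 1)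

private theorem C5q_mem_N (u : P) : u ∈ C5q_N q ↔ q u = 1 := by
  simp [C5q_N]

private def C5q_tr (a : Al S) : Al S := ∑ n ∈ C5q_N q, Al.act S n a

private theorem C5q_tr_mem (a : Al S) : C5q_tr q S a ∈ C5q_A q S := by
  intro u hu
  rw [C5q_tr, map_sum]
  refine Finset.sum_bij (fun n _ => u * n) ?_ ?_ ?_ ?_
  · intro n hn
    rw [C5q_mem_N] at hn ⊢
    rw [map_mul, hu, hn, one_mul]
  · intro a _ b _ h
    exact mul_left_cancel h
  · intro b hb
    refine ⟨u⁻¹ * b, ?_, by group⟩
    rw [C5q_mem_N] at hb ⊢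
    rw [map_mul, map_inv, hu, hb, inv_one, one_mul]
  · intro n _
    rw [Al.act_mul_apply]

private theorem C5q_theta (hq : Function.Surjective q) : ∃ θ : Al S, C5q_tr q S θ = 1 := by
  obtain ⟨θ, hθ⟩ := exists_theta S
  refine ⟨∑ h : P', Al.act S (C5q_s q hq h) θ, ?_⟩
  rw [← hθ, C5q_tr]
  simp only [map_sum, ← Al.act_mul_apply]
  rw [← Finset.sum_product' (C5q_N q) (Finset.univ : Finset P')
    (fun n h => Al.act S (n * C5q_s q hq h) θ)]
  refine Finset.sum_bij (fun x _ => x.1 * C5q_s q hq x.2) ?_ ?_ ?_ ?_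
  · intro x _
    exact Finset.mem_univ _
  · rintro ⟨n, h⟩ hn ⟨n', h'⟩ hn' heq
    rw [Finset.mem_product, C5q_mem_N] at hn hn'
    have h1 : h = h' := by
      have := congrArg q heq
      simp only [map_mul, C5q_qs] at this
      have e1 : q n = 1 := hn.1
      have e2 : q n' = 1 := hn'.1
      rwa [e1, e2, one_mul, one_mul] at this
    subst h1
    have h2 : n = n' := mul_right_cancel heq
    rw [h2]
  · intro x _
    refine ⟨(x * (C5q_s q hq (q x))⁻¹, q x), ?_, by simp⟩
    rw [Finset.mem_product, C5q_mem_N]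
    refine ⟨?_, Finset.mem_univ _⟩
    change q (x * (C5q_s q hq (q x))⁻¹) = 1
    rw [map_mul, map_inv, C5q_qs, mul_inv_cancel]
  · intro x _
    rfl

private theorem C5q_dual_e (y : P) :
    ∑ l, Al.e S l * Al.act S y (∑ m, Al.cst S (S.T' l m) * Al.e S m) = if y = 1 then 1 else 0 := by
  rw [← dual_e S y]
  refine Finset.sum_congr rfl fun l _ => ?_
  rw [map_sum, Finset.mul_sum]
  refine Finset.sum_congr rfl fun m _ => ?_
  rw [map_mul, Al.act_cst]
  ring

private theorem C5q_dual {θ : Al S} (hθ : C5q_tr q S θ = 1) (x : P) :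
    ∑ l, C5q_tr q S (θ * Al.e S l) *
      Al.act S x (C5q_tr q S (∑ m, Al.cst S (S.T' l m) * Al.e S m)) =
      if q x = 1 then 1 else 0 := by
  have h1 : ∀ n n' : P, ∑ l, Al.act S n (Al.e S l) *
      Al.act S (x * n') (∑ m, Al.cst S (S.T' l m) * Al.e S m) =
      if n' = x⁻¹ * n then 1 else 0 := by
    intro n n'
    have h2 : ∀ l, Al.act S n (Al.e S l) *
        Al.act S (x * n') (∑ m, Al.cst S (S.T' l m) * Al.e S m) =
        Al.act S n (Al.e S l *
          Al.act S (n⁻¹ * (x * n')) (∑ m, Al.cst S (S.T' l m) * Al.e S m)) := by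
      intro l
      have h3 : n * (n⁻¹ * (x * n')) = x * n' := by group
      rw [map_mul (Al.act S n), ← Al.act_mul_apply S n (n⁻¹ * (x * n')), h3]
    rw [Finset.sum_congr rfl fun l _ => h2 l, ← map_sum, C5q_dual_e]
    have h4 : n⁻¹ * (x * n') = 1 ↔ n' = x⁻¹ * n := by
      constructor
      · intro h
        have := congrArg (fun z => x⁻¹ * (n * z)) h
        simpa using this
      · intro h
        rw [h]
        group
    by_cases h5 : n' = x⁻¹ * n
    · rw [if_pos h5, if_pos (h4.2 h5), map_one]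
    · rw [if_neg h5, if_neg (fun h => h5 (h4.1 h)), map_zero]
  have h6 : ∑ l, C5q_tr q S (θ * Al.e S l) *
      Al.act S x (C5q_tr q S (∑ m, Al.cst S (S.T' l m) * Al.e S m)) =
      ∑ n ∈ C5q_N q, ∑ n' ∈ C5q_N q, Al.act S n θ * ∑ l, Al.act S n (Al.e S l) *
        Al.act S (x * n') (∑ m, Al.cst S (S.T' l m) * Al.e S m) := by
    calc ∑ l, C5q_tr q S (θ * Al.e S l) *
          Al.act S x (C5q_tr q S (∑ m, Al.cst S (S.T' l m) * Al.e S m))
        = ∑ l, ∑ n ∈ C5q_N q, ∑ n' ∈ C5q_N q, Al.act S n θ * (Al.act S n (Al.e S l) *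
          Al.act S (x * n') (∑ m, Al.cst S (S.T' l m) * Al.e S m)) := by
          refine Finset.sum_congr rfl fun l _ => ?_
          rw [C5q_tr, C5q_tr, map_sum, Finset.sum_mul]
          refine Finset.sum_congr rfl fun n _ => ?_
          rw [Finset.mul_sum]
          refine Finset.sum_congr rfl fun n' _ => ?_
          rw [map_mul (Al.act S n), Al.act_mul_apply S x n', mul_assoc]
      _ = ∑ n ∈ C5q_N q, ∑ l, ∑ n' ∈ C5q_N q, Al.act S n θ * (Al.act S n (Al.e S l) *
          Al.act S (x * n') (∑ m, Al.cst S (S.T' l m) * Al.e S m)) := Finset.sum_comm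
      _ = _ := by
          refine Finset.sum_congr rfl fun n _ => ?_
          rw [Finset.sum_comm]
          refine Finset.sum_congr rfl fun n' _ => ?_
          rw [Finset.mul_sum]
  rw [h6]
  have h7 : ∀ n ∈ C5q_N q, ∑ n' ∈ C5q_N q, Al.act S n θ * ∑ l, Al.act S n (Al.e S l) *
        Al.act S (x * n') (∑ m, Al.cst S (S.T' l m) * Al.e S m) =
        if q x = 1 then Al.act S n θ else 0 := by
    intro n hn
    rw [Finset.sum_congr rfl fun n' _ => by rw [h1 n n'], ← Finset.mul_sum]
    rw [Finset.sum_ite_eq' (C5q_N q) (x⁻¹ * n) (fun _ => (1 : Al S))]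
    rw [C5q_mem_N] at hn
    have h8 : x⁻¹ * n ∈ C5q_N q ↔ q x = 1 := by
      rw [C5q_mem_N, map_mul, map_inv, hn, mul_one, inv_eq_one]
    by_cases h9 : q x = 1
    · rw [if_pos h9, if_pos (h8.2 h9), mul_one]
    · rw [if_neg h9, if_neg (fun h => h9 (h8.1 h)), mul_zero]
  rw [Finset.sum_congr rfl h7]
  by_cases h9 : q x = 1
  · simp only [if_pos h9]
    exact hθ
  · simp only [if_neg h9]
    exact Finset.sum_const_zero

private def C5q_M : Submodule K[X] (P → K[X]) where
  carrier := {f | (show Al S from f) ∈ C5q_A q S}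
  add_mem' := by
    intro a b ha hb
    exact (C5q_A q S).add_mem ha hb
  zero_mem' := (C5q_A q S).zero_mem
  smul_mem' := by
    intro c f hf
    have h : (show Al S from (c • f)) = Al.cst S c * (show Al S from f) := by
      refine Al.ext fun l => ?_
      rw [Al.cst_mul]
      rfl
    change (show Al S from (c • f)) ∈ C5q_A q S
    rw [h]
    exact (C5q_A q S).mul_mem (C5q_ze q S c).2 hf

private theorem C5q_fin : ∃ (n : ℕ) (v : Fin n → C5q_A q S), ∀ a : C5q_A q S,
    ∃ c : Fin n → K[X], a = ∑ j, C5q_ze q S (c j) * v j := by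
  obtain ⟨n, s, hs⟩ := (Submodule.fg_iff_exists_fin_generating_family (N := C5q_M q S)).1
    (IsNoetherian.noetherian (C5q_M q S))
  have hmem : ∀ j, s j ∈ C5q_M q S := by
    intro j
    rw [← hs]
    exact Submodule.subset_span ⟨j, rfl⟩
  refine ⟨n, fun j => ⟨(show Al S from s j), hmem j⟩, fun a => ?_⟩
  have ha : (show P → K[X] from (a : Al S)) ∈ Submodule.span K[X] (Set.range s) := by
    rw [hs]
    exact a.2
  obtain ⟨c, hc⟩ := (Submodule.mem_span_range_iff_exists_fun K[X]).1 ha
  refine ⟨c, Subtype.ext ?_⟩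
  have h1 : ((∑ j, C5q_ze q S (c j) * (⟨(show Al S from s j), hmem j⟩ : C5q_A q S) :
      C5q_A q S) : Al S) = ∑ j, Al.cst S (c j) * (show Al S from s j) := by
    rw [AddSubmonoidClass.coe_finsetSum]
    rfl
  rw [h1]
  refine Al.ext fun l => ?_
  rw [Al.sum_apply]
  have h2 : (show P → K[X] from (a : Al S)) l = ∑ j, c j * s j l := by
    rw [← hc, Finset.sum_apply]
    rfl
  refine Eq.trans h2 (Finset.sum_congr rfl fun j _ => ?_)
  rw [Al.cst_mul]

end

theorem exists_quot {K : Type} [Field K] {P P' : Type} [Group P] [Fintype P] [Group P']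
    [Fintype P'] (q : P →* P') (hq : Function.Surjective q) (S : SC K[X] P) :
    ∃ (S' : SC K[X] P') (J : Al S' →+* Al S), Function.Injective J ∧
      (∀ f, J (Al.cst S' f) = Al.cst S f) ∧
      (∀ u a, J (Al.act S' (q u) a) = Al.act S u (J a)) ∧
      ∀ a, (∀ u, q u = 1 → Al.act S u a = a) → ∃ a', J a' = a := by
  have h01 : (0 : Al S) ≠ 1 := by
    intro h
    have h2 : Al.cst S (0 : K[X]) = Al.cst S 1 := by rw [map_zero, map_one, h]
    exact zero_ne_one (cst_injective S h2)
  have : Nontrivial (C5q_A q S) := ⟨⟨0, 1, fun h => h01 (congrArg Subtype.val h)⟩⟩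
  obtain ⟨θ, hθ⟩ := C5q_theta q S hq
  obtain ⟨S', Φ, hΦ1, hΦ2⟩ := exists_SC (C5q_ze q S) (C5q_act q S hq) (by
      intro h f
      obtain ⟨u, rfl⟩ := hq h
      refine Subtype.ext ?_
      rw [C5q_act_coe, C5q_ze_coe, Al.act_cst]) (by
      intro f a h
      by_cases hf : f = 0
      · exact Or.inl hf
      · refine Or.inr (Subtype.ext (Al.ext fun l => ?_))
        have h1 : (Al.cst S f * (a : Al S)) l = 0 := by
          have h2 : Al.cst S f * (a : Al S) = 0 := congrArg Subtype.val h
          rw [h2]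
          rfl
        rw [Al.cst_mul] at h1
        exact (mul_eq_zero.1 h1).resolve_left hf) (C5q_fin q S) (by
      intro a ha
      obtain ⟨b, hb⟩ := fixed S (a : Al S) (fun u => by
        rw [← C5q_act_coe q S hq, ha])
      exact ⟨b, Subtype.ext hb⟩) (by
      let eq := Fintype.equivFin P
      refine ⟨Fintype.card P,
        fun j => ⟨C5q_tr q S (θ * Al.e S (eq.symm j)), C5q_tr_mem q S _⟩,
        fun j => ⟨C5q_tr q S (∑ m, Al.cst S (S.T' (eq.symm j) m) * Al.e S m),
          C5q_tr_mem q S _⟩, ?_⟩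
      intro h
      obtain ⟨x, rfl⟩ := hq h
      refine Subtype.ext ?_
      rw [AddSubmonoidClass.coe_finsetSum]
      have h1 : ((if q x = 1 then 1 else 0 : C5q_A q S) : Al S) = if q x = 1 then 1 else 0 := by
        split_ifs <;> rfl
      rw [h1, ← C5q_dual q S hθ x]
      rw [← Equiv.sum_comp eq.symm]
      refine Finset.sum_congr rfl fun j _ => ?_
      rw [Subring.coe_mul, C5q_act_coe])
  refine ⟨S', (C5q_A q S).subtype.comp Φ.toRingHom, ?_, ?_, ?_, ?_⟩
  · intro a b h
    exact Φ.injective (Subtype.ext h)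
  · intro f
    change ((Φ (Al.cst S' f) : C5q_A q S) : Al S) = _
    rw [hΦ1]
    rfl
  · intro u a
    change ((Φ (Al.act S' (q u) a) : C5q_A q S) : Al S) = Al.act S u ((Φ a : C5q_A q S) : Al S)
    rw [hΦ2, C5q_act_coe]
  · intro a ha
    obtain ⟨a', ha'⟩ := Φ.surjective ⟨a, ha⟩
    refine ⟨a', ?_⟩
    change ((Φ a' : C5q_A q S) : Al S) = a
    rw [ha']

end

end Pool.Agent.MP_1c8e06_ag.AJ
end
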