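import Pool.Agent.Lib.MP_1c8e06_ag.AI.Defs3

section

set_option autoImplicit false

open Polynomial

namespace Pool.Agent.MP_1c8e06_ag.AI

noncomputable section

/-!
# Task SW: reordering `κ((s))[[t]]_bounded → κ((t))((s))`

Proof.  For `a ∈ Bm κ` with bound `N` (all `(coeff n a).coeff m = 0` for `m < -N`), let `sw a` be the
Laurent series in `s` whose coefficient at `m` is
`ofPowerSeries (PowerSeries.mk fun n => (coeff n a).coeff m) ∈ κ((t))`; its support is bounded below.
Additive and `1 ↦ 1`: clear.  Multiplicative: the coefficient of `s^m t^n` of both sides is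
`∑_{n1+n2=n} ∑_{m1+m2=m} a_{n1,m1} b_{n2,m2}` with `m1 ≥ -N`, `m2 ≥ -M` (finite double sum).
(A useful auxiliary lemma: if Laurent series `a`, `b` vanish below `A`, `B` then
`(a * b).coeff m = ∑ i ∈ Finset.Icc A (m - B), a.coeff i * b.coeff (m - i)`.)
Injective: coefficients.  `sw_incl`: both sides are ring homomorphisms in `P`; check `P = C c`
(`c ∈ κ[[t]]`) and `P = X`.
-/
private theorem SW_coeff_mul {R : Type} [CommRing R] (a b : LaurentSeries R) (A B m : ℤ)
    (ha : ∀ i < A, a.coeff i = 0) (hb : ∀ i < B, b.coeff i = 0) :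
    (a * b).coeff m = ∑ i ∈ Finset.Icc A (m - B), a.coeff i * b.coeff (m - i) := by
  classical
  rw [HahnSeries.coeff_mul]
  have h1 : ∑ ij ∈ Finset.antidiagonal a.isPWO_support b.isPWO_support m,
      a.coeff ij.1 * b.coeff ij.2 =
      ∑ i ∈ (Finset.antidiagonal a.isPWO_support b.isPWO_support m).image Prod.fst,
        a.coeff i * b.coeff (m - i) := by
    rw [Finset.sum_image]
    · refine Finset.sum_congr rfl fun ij hij => ?_
      rw [Finset.mem_antidiagonal] at hij
      have h2 : ij.2 = m - ij.1 := by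
        have := hij.2.2
        omega
      rw [h2]
    · intro x hx y hy hxy
      rw [Finset.mem_coe, Finset.mem_antidiagonal] at hx hy
      have h2 := hx.2.2
      have h3 := hy.2.2
      refine Prod.ext hxy ?_
      omega
  rw [h1]
  refine Finset.sum_subset ?_ ?_
  · intro i hi
    rw [Finset.mem_image] at hi
    obtain ⟨ij, hij, rfl⟩ := hi
    rw [Finset.mem_antidiagonal] at hij
    obtain ⟨h2, h3, h4⟩ := hij
    rw [Finset.mem_Icc]
    have h5 : A ≤ ij.1 := by
      by_contra hc
      exact h2 (ha _ (by omega))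
    have h6 : B ≤ ij.2 := by
      by_contra hc
      exact h3 (hb _ (by omega))
    omega
  · intro i _ hi
    by_contra hne
    apply hi
    rw [Finset.mem_image]
    refine ⟨(i, m - i), ?_, rfl⟩
    rw [Finset.mem_antidiagonal]
    refine ⟨left_ne_zero_of_mul hne, right_ne_zero_of_mul hne, ?_⟩
    show i + (m - i) = m
    omega

/-- the coefficient of `s^m`, a power series in `t`. -/
private def SW_P {κ : Type} [Field κ] (a : AA κ) (m : ℤ) : PowerSeries κ :=
  PowerSeries.mk fun n => (PowerSeries.coeff n a).coeff m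

private theorem SW_P_coeff {κ : Type} [Field κ] (a : AA κ) (m : ℤ) (n : ℕ) :
    PowerSeries.coeff n (SW_P a m) = (PowerSeries.coeff n a).coeff m := PowerSeries.coeff_mk _ _

private theorem SW_P_zero {κ : Type} [Field κ] {a : AA κ} {N : ℕ}
    (h : ∀ n : ℕ, ∀ m : ℤ, m < -(N : ℤ) → (PowerSeries.coeff n a).coeff m = 0) {m : ℤ}
    (hm : m < -(N : ℤ)) : SW_P a m = 0 := by
  ext n
  rw [SW_P_coeff, h n m hm, map_zero]

private def SW_fun {κ : Type} [Field κ] (a : Bm κ) : LaurentSeries (PowerSeries κ) :=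
  HahnSeries.ofSuppBddBelow (fun m => SW_P a.1 m) (by
    obtain ⟨N, hN⟩ := mem_Bm.1 a.2
    refine ⟨-(N : ℤ), ?_⟩
    intro m hm
    by_contra hc
    exact hm (SW_P_zero hN (not_le.1 hc)))

private theorem SW_fun_coeff {κ : Type} [Field κ] (a : Bm κ) (m : ℤ) :
    (SW_fun a).coeff m = SW_P a.1 m := rfl

private def SW_hom (κ : Type) [Field κ] : Bm κ →+* LaurentSeries (PowerSeries κ) where
  toFun := SW_fun
  map_one' := by
    ext m n
    rw [SW_fun_coeff, SW_P_coeff]
    show (PowerSeries.coeff n (1 : AA κ)).coeff m = _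
    rw [PowerSeries.coeff_one, HahnSeries.coeff_one]
    by_cases hm : m = 0
    · rw [if_pos hm, PowerSeries.coeff_one]
      split_ifs with hn
      · rw [HahnSeries.coeff_one, if_pos hm]
      · rfl
    · rw [if_neg hm, map_zero]
      split_ifs with hn
      · rw [HahnSeries.coeff_one, if_neg hm]
      · rfl
  map_zero' := by
    ext m n
    rw [SW_fun_coeff, SW_P_coeff]
    show (PowerSeries.coeff n (0 : AA κ)).coeff m = _
    rw [map_zero, HahnSeries.coeff_zero, HahnSeries.coeff_zero, map_zero]
  map_add' a b := by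
    ext m n
    rw [HahnSeries.coeff_add, SW_fun_coeff, SW_fun_coeff, SW_fun_coeff, map_add, SW_P_coeff,
      SW_P_coeff, SW_P_coeff]
    show (PowerSeries.coeff n ((a : AA κ) + (b : AA κ))).coeff m = _
    rw [map_add, HahnSeries.coeff_add]
  map_mul' a b := by
    obtain ⟨N, hN⟩ := mem_Bm.1 a.2
    obtain ⟨M, hM⟩ := mem_Bm.1 b.2
    ext m n
    rw [SW_coeff_mul (SW_fun a) (SW_fun b) (-(N : ℤ)) (-(M : ℤ)) m
      (fun i hi => by rw [SW_fun_coeff]; exact SW_P_zero hN hi)
      (fun i hi => by rw [SW_fun_coeff]; exact SW_P_zero hM hi)]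
    rw [SW_fun_coeff, SW_P_coeff, map_sum]
    show (PowerSeries.coeff n ((a : AA κ) * (b : AA κ))).coeff m = _
    rw [PowerSeries.coeff_mul, HahnSeries.coeff_sum]
    have h1 : ∀ ij ∈ Finset.HasAntidiagonal.antidiagonal n, (PowerSeries.coeff ij.1 (a : AA κ) *
        PowerSeries.coeff ij.2 (b : AA κ)).coeff m =
        ∑ i ∈ Finset.Icc (-(N : ℤ)) (m - (-(M : ℤ))), (PowerSeries.coeff ij.1 (a : AA κ)).coeff i *
          (PowerSeries.coeff ij.2 (b : AA κ)).coeff (m - i) := fun ij _ =>
      SW_coeff_mul _ _ _ _ _ (hN ij.1) (hM ij.2)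
    rw [Finset.sum_congr rfl h1, Finset.sum_comm]
    refine Finset.sum_congr rfl fun i _ => ?_
    rw [PowerSeries.coeff_mul]
    refine Finset.sum_congr rfl fun ij _ => ?_
    rw [SW_fun_coeff, SW_fun_coeff, SW_P_coeff, SW_P_coeff]

private theorem SW_hom_coeff {κ : Type} [Field κ] (a : Bm κ) (m : ℤ) :
    (SW_hom κ a).coeff m = SW_P a.1 m := rfl

private theorem SW_incl (κ : Type) [Field κ] (P : (PowerSeries κ)[X]) :
    SW_hom κ (inclB P) = zinv (PowerSeries κ) P := by
  have h : (SW_hom κ).comp inclB = zinv (PowerSeries κ) := by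
    refine Polynomial.ringHom_ext ?_ ?_
    · intro c
      rw [RingHom.comp_apply, zinv_C]
      ext m n
      rw [SW_hom_coeff, SW_P_coeff]
      show (PowerSeries.coeff n (incl κ (C c))).coeff m = _
      rw [incl, Polynomial.coe_eval₂RingHom, Polynomial.eval₂_C, PowerSeries.coeff_map,
        HahnSeries.C_apply, HahnSeries.C_apply, HahnSeries.coeff_single, HahnSeries.coeff_single]
      split_ifs
      · rfl
      · rw [map_zero]
    · rw [RingHom.comp_apply, zinv_X]
      ext m n
      rw [SW_hom_coeff, SW_P_coeff]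
      show (PowerSeries.coeff n (incl κ X)).coeff m = _
      rw [incl, Polynomial.coe_eval₂RingHom, Polynomial.eval₂_X, PowerSeries.coeff_C,
        HahnSeries.coeff_single]
      split_ifs with h1 h2 h2
      · rw [h2, HahnSeries.coeff_single_same, PowerSeries.coeff_one, if_pos h1]
      · rw [HahnSeries.coeff_single_of_ne h2, map_zero]
      · rw [HahnSeries.coeff_zero, PowerSeries.coeff_one, if_neg h1]
      · rw [HahnSeries.coeff_zero, map_zero]
  exact RingHom.congr_fun h P

theorem exists_sw (κ : Type) [Field κ] :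
    ∃ sw : Bm κ →+* LaurentSeries (LaurentSeries κ), Function.Injective sw ∧
      ∀ P : (PowerSeries κ)[X],
        sw (inclB P) = zinv (LaurentSeries κ) (P.map (HahnSeries.ofPowerSeries ℤ κ)) := by
  refine ⟨(mapL (HahnSeries.ofPowerSeries ℤ κ)).comp (SW_hom κ), ?_, ?_⟩
  · intro a b hab
    have h1 : ∀ m, SW_P a.1 m = SW_P b.1 m := by
      intro m
      have h2 := congrArg (fun x => HahnSeries.coeff x m) hab
      simp only [RingHom.comp_apply, mapL_coeff, SW_hom_coeff] at h2
      exact HahnSeries.ofPowerSeries_injective h2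
    apply Subtype.ext
    ext n m
    rw [← SW_P_coeff, ← SW_P_coeff, h1]
  · intro P
    rw [RingHom.comp_apply, SW_incl, mapL_zinv]

end

end Pool.Agent.MP_1c8e06_ag.AI
end

section

set_option autoImplicit false

open Polynomial

namespace Pool.Agent.MP_1c8e06_ag.AI

noncomputable section

/-!
# Task TY1: the substitution `s ↦ s * q(t/s)⁻¹` on `κ((s))`, with values in `κ((s))[[t]]`

(In terms of `z = 1/s` this is `X ↦ z q(t z)`.)

Proof.  Let `c n k` (`n : ℕ`, `k : ℤ`) be the coefficient of `T^n` in `q(T)^(-k) ∈ κ[[T]]`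
(`q(0) = 1`, so `q` is a unit of `κ[[T]]`; take a unit `Q : (PowerSeries κ)ˣ` and
`c n k := PowerSeries.coeff n ((Q ^ (-k) : (PowerSeries κ)ˣ) : PowerSeries κ)`).  Then
`c 0 k = 1`, `c n 0 = if n = 0 then 1 else 0`, and
`∑_{n1+n2=n} c n1 k1 * c n2 k2 = c n (k1 + k2)` (`zpow_add`, `PowerSeries.coeff_mul`).
Define `(Ty a)_n ∈ κ((s))` by `((Ty a)_n).coeff m = a.coeff (m + n) * c n (m + n)`; its support is
bounded below by `a.order - n`, so it is a Laurent series (`HahnSeries.ofSuppBddBelow` or
`⟨_, isPWO⟩`).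
Additive: clear.  One: `c n 0`.  Multiplicative: the coefficient of `t^n s^m` in `Ty a * Ty b` is
`∑_{n1+n2=n} ∑_{m1+m2=m} a_(m1+n1) b_(m2+n2) c n1 (m1+n1) c n2 (m2+n2)`; put `i = m1 + n1`,
`j = m2 + n2`, so `i + j = m + n`; this is
`∑_{i+j=m+n} a_i b_j ∑_{n1+n2=n} c n1 i c n2 j = ∑_{i+j=m+n} a_i b_j c n (m+n)`.
(All sums over `ℤ` are finite; handle them as `finsum`s or as sums over a big interval, e.g.
`HahnSeries.coeff_mul` rewritten over `Finset.Icc`.  A useful auxiliary lemma:
if `a` vanishes below `A` and `b` vanishes below `B` then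
`(a * b).coeff m = ∑ i ∈ Finset.Icc A (m - B), a.coeff i * b.coeff (m - i)`.)
`constantCoeff (Ty a) = a`: `c 0 k = 1`.
Last item: both sides are ring homomorphisms in `f` (`compft q`, `incl`, `zinv`), so check
`f = C c` (`c n 0`) and `f = X`: `zinv X = single (-1) 1`, `((Ty _)_n).coeff m = 1 * c n (-1)` if
`m + n = -1` and `0` otherwise, and `c n (-1)` is the coefficient `q_n` of `q`; and
`incl (ft q) = incl (X * ∑ q_n t^n X^n) = ∑_n q_n t^n s^(-1-n)`.
-/

private theorem TY1_mul {κ : Type} [Field κ] (x y : LaurentSeries κ) (A B m : ℤ)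
    (hx : ∀ i < A, x.coeff i = 0) (hy : ∀ i < B, y.coeff i = 0) :
    (x * y).coeff m = ∑ i ∈ Finset.Icc A (m - B), x.coeff i * y.coeff (m - i) := by
  classical
  rw [HahnSeries.coeff_mul]
  have h1 : ∑ ij ∈ Finset.antidiagonal x.isPWO_support y.isPWO_support m,
      x.coeff ij.1 * y.coeff ij.2 =
      ∑ i ∈ (Finset.antidiagonal x.isPWO_support y.isPWO_support m).image Prod.fst,
        x.coeff i * y.coeff (m - i) := by
    rw [Finset.sum_image]
    · refine Finset.sum_congr rfl fun ij hij => ?_
      obtain ⟨-, -, h3⟩ := Finset.mem_antidiagonal.1 hij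
      rw [show m - ij.1 = ij.2 by omega]
    · intro a ha b hb hab
      obtain ⟨-, -, h3⟩ := Finset.mem_antidiagonal.1 (Finset.mem_coe.1 ha)
      obtain ⟨-, -, h4⟩ := Finset.mem_antidiagonal.1 (Finset.mem_coe.1 hb)
      refine Prod.ext hab ?_
      have hab' : a.1 = b.1 := hab
      omega
  rw [h1]
  refine Finset.sum_subset ?_ ?_
  · intro i hi
    obtain ⟨ij, hij, rfl⟩ := Finset.mem_image.1 hi
    obtain ⟨h1, h2, h3⟩ := Finset.mem_antidiagonal.1 hij
    rw [Finset.mem_Icc]
    constructor
    · by_contra hc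
      exact h1 (hx _ (by omega))
    · by_contra hc
      exact h2 (hy _ (by omega))
  · intro i _ hi
    by_contra hc
    apply hi
    rw [Finset.mem_image]
    refine ⟨(i, m - i), ?_, rfl⟩
    rw [Finset.mem_antidiagonal]
    refine ⟨fun h0 => hc ?_, fun h0 => hc ?_, by omega⟩
    · rw [h0, zero_mul]
    · rw [h0, mul_zero]

section
variable {κ : Type} [Field κ] (c : ℕ → ℤ → κ)

private def TY1_fun (a : LaurentSeries κ) (n : ℕ) : LaurentSeries κ :=
  HahnSeries.ofSuppBddBelow (fun m : ℤ => a.coeff (m + n) * c n (m + n)) (by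
    refine ⟨a.order - n, ?_⟩
    intro m hm
    by_contra hc
    apply hm
    change a.coeff (m + n) * c n (m + n) = 0
    rw [HahnSeries.coeff_eq_zero_of_lt_order (by omega), zero_mul])

private theorem TY1_fun_coeff (a : LaurentSeries κ) (n : ℕ) (m : ℤ) :
    (TY1_fun c a n).coeff m = a.coeff (m + n) * c n (m + n) := by
  rw [TY1_fun, HahnSeries.coeff_ofSuppBddBelow]

private theorem TY1_fun_mul (hc : ∀ n k1 k2, ∑ ij ∈ Finset.HasAntidiagonal.antidiagonal n,
    c ij.1 k1 * c ij.2 k2 = c n (k1 + k2)) (a b : LaurentSeries κ) (n : ℕ) :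
    TY1_fun c (a * b) n = ∑ ij ∈ Finset.HasAntidiagonal.antidiagonal n, TY1_fun c a ij.1 * TY1_fun c b ij.2 := by
  ext m
  rw [TY1_fun_coeff, HahnSeries.coeff_sum]
  have ha : ∀ i < a.order, a.coeff i = 0 := fun i hi => HahnSeries.coeff_eq_zero_of_lt_order hi
  have hb : ∀ i < b.order, b.coeff i = 0 := fun i hi => HahnSeries.coeff_eq_zero_of_lt_order hi
  rw [TY1_mul a b _ _ (m + n) ha hb]
  have h1 : ∀ ij ∈ Finset.HasAntidiagonal.antidiagonal n, (TY1_fun c a ij.1 * TY1_fun c b ij.2).coeff m =
      ∑ i ∈ Finset.Icc a.order (m + n - b.order),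
        a.coeff i * b.coeff (m + n - i) * (c ij.1 i * c ij.2 (m + n - i)) := by
    intro ij hij
    have hij' := Finset.HasAntidiagonal.mem_antidiagonal.1 hij
    rw [TY1_mul (TY1_fun c a ij.1) (TY1_fun c b ij.2) (a.order - ij.1) (b.order - ij.2) m]
    · refine Finset.sum_nbij' (fun i => i + (ij.1 : ℤ)) (fun i => i - (ij.1 : ℤ)) ?_ ?_ ?_ ?_ ?_
      · intro i hi
        rw [Finset.mem_Icc] at hi ⊢
        constructor <;> omega
      · intro i hi
        rw [Finset.mem_Icc] at hi ⊢
        constructor <;> omega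
      · intro i _
        omega
      · intro i _
        omega
      · intro i _
        rw [TY1_fun_coeff, TY1_fun_coeff]
        have h2 : m - i + (ij.2 : ℤ) = m + n - (i + (ij.1 : ℤ)) := by omega
        rw [h2]
        ring
    · intro i hi
      rw [TY1_fun_coeff, ha _ (by omega), zero_mul]
    · intro i hi
      rw [TY1_fun_coeff, hb _ (by omega), zero_mul]
  rw [Finset.sum_congr rfl h1, Finset.sum_comm, Finset.sum_mul]
  refine Finset.sum_congr rfl fun i _ => ?_
  rw [← Finset.mul_sum, hc, show i + (m + n - i) = m + n by ring]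

end

private theorem TY1_ft {κ : Type} [Field κ] (q : κ[X]) (n : ℕ) :
    PowerSeries.coeff n (incl κ (ft q)) = HahnSeries.single (-1 - n : ℤ) (q.coeff n) := by
  have h0 : incl κ (C PowerSeries.X * X) =
      (PowerSeries.X : AA κ) * PowerSeries.C (HahnSeries.single (-1 : ℤ) (1 : κ)) := by
    simp [incl]
  have h1 : incl κ ((q.map (PowerSeries.C : κ →+* PowerSeries κ)).comp (C PowerSeries.X * X)) =
      q.eval₂ ((PowerSeries.C : LaurentSeries κ →+* AA κ).comp HahnSeries.C)
        ((PowerSeries.X : AA κ) * PowerSeries.C (HahnSeries.single (-1 : ℤ) (1 : κ))) := by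
    rw [Polynomial.comp, Polynomial.eval₂_map, Polynomial.hom_eval₂, h0]
    congr 1
    ext a
    simp [incl]
  have h2 : incl κ X = PowerSeries.C (HahnSeries.single (-1 : ℤ) (1 : κ)) := by
    simp [incl]
  rw [ft, map_mul, h1, h2, PowerSeries.coeff_C_mul, Polynomial.eval₂_eq_sum_range, map_sum]
  have h3 : ∀ j ∈ Finset.range (q.natDegree + 1),
      PowerSeries.coeff n (((PowerSeries.C : LaurentSeries κ →+* AA κ).comp HahnSeries.C)
        (q.coeff j) * ((PowerSeries.X : AA κ) *
          PowerSeries.C (HahnSeries.single (-1 : ℤ) (1 : κ))) ^ j) =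
      if n = j then HahnSeries.single (-j : ℤ) (q.coeff j) else 0 := by
    intro j _
    rw [RingHom.comp_apply, mul_pow, ← map_pow, PowerSeries.coeff_C_mul,
      PowerSeries.coeff_mul_C, PowerSeries.coeff_X_pow, HahnSeries.single_pow, one_pow]
    split_ifs with h
    · rw [one_mul, HahnSeries.C_apply, HahnSeries.single_mul_single]
      simp
    · rw [zero_mul, mul_zero]
  rw [Finset.sum_congr rfl h3, Finset.sum_ite_eq]
  split_ifs with h
  · rw [HahnSeries.single_mul_single, one_mul]
    congr 1
  · have h4 : q.coeff n = 0 := Polynomial.coeff_eq_zero_of_natDegree_lt (by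
      rw [Finset.mem_range] at h
      omega)
    rw [h4, mul_zero, HahnSeries.single_eq_zero]

theorem exists_Tay {κ : Type} [Field κ] (q : κ[X]) (hq0 : q.coeff 0 = 1) :
    ∃ Ty : LaurentSeries κ →+* AA κ, (∀ a, PowerSeries.constantCoeff (Ty a) = a) ∧
      (∀ f : κ[X], Ty (zinv κ f) = incl κ (compft q f)) := by
  classical
  have hcc : PowerSeries.constantCoeff (q : PowerSeries κ) = 1 := by
    rw [Polynomial.constantCoeff_coe, hq0]
  have hne : PowerSeries.constantCoeff (q : PowerSeries κ) ≠ 0 := by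
    rw [hcc]
    exact one_ne_zero
  let Q : (PowerSeries κ)ˣ := ⟨(q : PowerSeries κ), (q : PowerSeries κ)⁻¹,
    PowerSeries.mul_inv_cancel _ hne, PowerSeries.inv_mul_cancel _ hne⟩
  let c : ℕ → ℤ → κ := fun n k =>
    PowerSeries.coeff n ((Q ^ (-k) : (PowerSeries κ)ˣ) : PowerSeries κ)
  have hc0 : ∀ n, c n 0 = if n = 0 then 1 else 0 := by
    intro n
    change PowerSeries.coeff n ((Q ^ (-(0 : ℤ)) : (PowerSeries κ)ˣ) : PowerSeries κ) = _
    rw [neg_zero, zpow_zero, Units.val_one, PowerSeries.coeff_one]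
  have hc1 : ∀ k, c 0 k = 1 := by
    intro k
    have h1 : Units.map (PowerSeries.constantCoeff (R := κ)).toMonoidHom Q = 1 := by
      ext
      exact hcc
    have h2 : Units.map (PowerSeries.constantCoeff (R := κ)).toMonoidHom (Q ^ (-k)) = 1 := by
      rw [map_zpow, h1, one_zpow]
    have h3 := congrArg Units.val h2
    change PowerSeries.coeff 0 ((Q ^ (-k) : (PowerSeries κ)ˣ) : PowerSeries κ) = 1
    rw [PowerSeries.coeff_zero_eq_constantCoeff_apply]
    exact h3
  have hc : ∀ n k1 k2, ∑ ij ∈ Finset.HasAntidiagonal.antidiagonal n, c ij.1 k1 * c ij.2 k2 = c n (k1 + k2) := by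
    intro n k1 k2
    change _ = PowerSeries.coeff n ((Q ^ (-(k1 + k2)) : (PowerSeries κ)ˣ) : PowerSeries κ)
    rw [neg_add, zpow_add, Units.val_mul, PowerSeries.coeff_mul]
  have hcq : ∀ n, c n (-1) = q.coeff n := by
    intro n
    change PowerSeries.coeff n ((Q ^ (-(-1 : ℤ)) : (PowerSeries κ)ˣ) : PowerSeries κ) = _
    rw [neg_neg, zpow_one]
    exact Polynomial.coeff_coe q n
  let Ty : LaurentSeries κ →+* AA κ :=
    { toFun := fun a => PowerSeries.mk fun n => TY1_fun c a n
      map_one' := by
        ext n m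
        rw [PowerSeries.coeff_mk, TY1_fun_coeff, PowerSeries.coeff_one, HahnSeries.coeff_one]
        split_ifs with h1 h2 h2
        · subst h2
          rw [h1, hc0, if_pos rfl, HahnSeries.coeff_one, if_pos (by simpa using h1), one_mul]
        · rw [h1, hc0, if_neg h2, mul_zero, HahnSeries.coeff_zero]
        · subst h2
          rw [HahnSeries.coeff_one, if_neg (by simpa using h1), zero_mul]
        · rw [zero_mul, HahnSeries.coeff_zero]
      map_mul' := by
        intro a b
        ext1 n
        rw [PowerSeries.coeff_mk, PowerSeries.coeff_mul, TY1_fun_mul c hc]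
        refine Finset.sum_congr rfl fun ij _ => ?_
        rw [PowerSeries.coeff_mk, PowerSeries.coeff_mk]
      map_zero' := by
        ext n m
        rw [PowerSeries.coeff_mk, TY1_fun_coeff]
        simp
      map_add' := by
        intro a b
        ext n m
        rw [PowerSeries.coeff_mk, TY1_fun_coeff, map_add, PowerSeries.coeff_mk,
          PowerSeries.coeff_mk, HahnSeries.coeff_add, HahnSeries.coeff_add, TY1_fun_coeff,
          TY1_fun_coeff, add_mul] }
  have hTy : ∀ a n m, (PowerSeries.coeff n (Ty a)).coeff m = a.coeff (m + n) * c n (m + n) := by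
    intro a n m
    change (PowerSeries.coeff n (PowerSeries.mk fun n => TY1_fun c a n)).coeff m = _
    rw [PowerSeries.coeff_mk, TY1_fun_coeff]
  refine ⟨Ty, ?_, ?_⟩
  · intro a
    rw [← PowerSeries.coeff_zero_eq_constantCoeff_apply]
    ext m
    rw [hTy, Nat.cast_zero, add_zero, hc1, mul_one]
  · have hhom : Ty.comp (zinv κ) = (incl κ).comp (compft q) := by
      refine Polynomial.ringHom_ext ?_ ?_
      · intro a
        have h1 : (incl κ).comp (compft q) (C a) = PowerSeries.C (HahnSeries.C a) := by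
          simp [compft, incl]
        rw [h1, RingHom.comp_apply, zinv_C]
        ext n m
        rw [hTy, PowerSeries.coeff_C, HahnSeries.C_apply, HahnSeries.coeff_single]
        by_cases hmn : m + n = 0
        · rw [if_pos hmn, hmn, hc0]
          by_cases hn : n = 0
          · subst hn
            have hm : m = 0 := by simpa using hmn
            rw [if_pos rfl, if_pos rfl, mul_one, HahnSeries.coeff_single, if_pos hm]
          · rw [if_neg hn, if_neg hn, mul_zero, HahnSeries.coeff_zero]
        · rw [if_neg hmn, zero_mul]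
          by_cases hn : n = 0
          · subst hn
            have hm : ¬ m = 0 := by simpa using hmn
            rw [if_pos rfl, HahnSeries.coeff_single, if_neg hm]
          · rw [if_neg hn, HahnSeries.coeff_zero]
      · have h1 : (incl κ).comp (compft q) X = incl κ (ft q) := by
          simp [compft]
        rw [h1, RingHom.comp_apply, zinv_X]
        ext n m
        rw [hTy, TY1_ft, HahnSeries.coeff_single, HahnSeries.coeff_single]
        by_cases hmn : m + n = -1
        · rw [if_pos hmn, if_pos (by omega), hmn, hcq, one_mul]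
        · rw [if_neg hmn, if_neg (by omega), zero_mul]
    intro f
    exact RingHom.congr_fun hhom f

end

end Pool.Agent.MP_1c8e06_ag.AI
end

section

set_option autoImplicit false

open Polynomial

namespace Pool.Agent.MP_1c8e06_ag.AI

noncomputable section

private def TY2_e (p : ℕ) {R : Type} [CommRing R] (d : ℕ → R) : ℕ → R
  | 0 => 0
  | (n + 1) =>
    if h : p ∣ n + 1 ∧ (n + 1) / p < n + 1 then (TY2_e p d ((n + 1) / p)) ^ p - d (n + 1)
    else - d (n + 1)
termination_by n => n
decreasing_by exact h.2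

/-!
# Task TY2: Artin-Schreier roots in power series rings

Proof.  Existence.  Define `e : ℕ → R` by strong recursion: `e 0 = 0` and for `n ≥ 1`
`e n = (if p ∣ n then (e (n/p))^p else 0) - coeff n δ` (note `n / p < n`).  Put
`η = PowerSeries.mk e`.  In characteristic `p`, the coefficient of `X^n` in `η^p` is
`(coeff (n/p) η)^p` if `p ∣ n` and `0` otherwise (Frobenius: e.g. truncate and use
`Polynomial.expand`/`frobenius`, or prove it through `PowerSeries` sums; one way: let
`P_N := ∑_{i ≤ N} C (e i) X^i`, `η = P_N + X^(N+1) * r`, so `η^p = P_N^p + X^(p(N+1)) r^p` by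
`add_pow_char` and `P_N^p = ∑_{i≤N} C (e i ^ p) X^(p i)` by `sum_pow_char`).
(`CharP (PowerSeries R) p`: from `charP_of_injective_algebraMap`/`PowerSeries.C` injective.)
-/
theorem exists_AS_root {p : ℕ} [hp : Fact p.Prime] {R : Type} [CommRing R] [CharP R p]
    (δ : PowerSeries R) (hδ : PowerSeries.constantCoeff δ = 0) :
    ∃ η : PowerSeries R, PowerSeries.constantCoeff η = 0 ∧ η ^ p - η = δ := by
  have hE : ExpChar R p := ExpChar.prime hp.out
  have hp0 : p ≠ 0 := hp.out.ne_zero
  have hfrob : ∀ (η : PowerSeries R) (n : ℕ), PowerSeries.coeff n (η ^ p) =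
      if p ∣ n then (PowerSeries.coeff (n / p) η) ^ p else 0 := by
    intro η n
    have h1 : PowerSeries.map (frobenius R p) (PowerSeries.expand p hp0 η) = η ^ p :=
      MvPowerSeries.map_frobenius_expand (σ := Unit) p hp0 (f := η)
    rw [← h1, PowerSeries.coeff_map, PowerSeries.coeff_expand, frobenius_def]
    split_ifs
    · rfl
    · exact zero_pow hp0
  refine ⟨PowerSeries.mk (TY2_e p fun n => PowerSeries.coeff n δ), ?_, ?_⟩
  · rw [← PowerSeries.coeff_zero_eq_constantCoeff_apply, PowerSeries.coeff_mk, TY2_e]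
  · ext n
    rw [map_sub, hfrob, PowerSeries.coeff_mk, PowerSeries.coeff_mk]
    rcases n with _ | n
    · rw [if_pos (dvd_zero p), Nat.zero_div, TY2_e, zero_pow hp0,
        PowerSeries.coeff_zero_eq_constantCoeff_apply, hδ, sub_zero]
    · have hlt : (n + 1) / p < n + 1 := Nat.div_lt_self (Nat.succ_pos n) hp.out.one_lt
      have h2 : TY2_e p (fun n => PowerSeries.coeff n δ) (n + 1) =
          (if p ∣ n + 1 then (TY2_e p (fun n => PowerSeries.coeff n δ) ((n + 1) / p)) ^ p else 0)
            - PowerSeries.coeff (n + 1) δ := by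
        rw [TY2_e]
        by_cases h : p ∣ n + 1
        · rw [dif_pos ⟨h, hlt⟩, if_pos h]
        · rw [dif_neg (fun h' => h h'.1), if_neg h, zero_sub]
      rw [h2]
      ring

end

end Pool.Agent.MP_1c8e06_ag.AI
end

section

set_option autoImplicit false

open Polynomial

namespace Pool.Agent.MP_1c8e06_ag.AI

noncomputable section

/-!
# Task TY3: extension of the substitution `Ty` to the Artin-Schreier algebra

Proof.  Take `Ty` from `exists_Tay`.  Let `δ := Ty (zinv F) - C (zinv F) ∈ κ((s))[[t]]`, constant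
coefficient `0`.  By `exists_AS_root` (over `R = κ((s))`, `CharP` instance `charP_laurent`) there is
`η ∈ κ((s))[[t]]` with zero constant coefficient and `η^p - η = δ`.
`T := AdjoinRoot.lift ((PowerSeries.map (ofL p F)).comp Ty) (C (yy p F) + PowerSeries.map (ofL p F) η) _`;
the root condition (`eval₂_asPoly`): `(C y + η)^p - (C y + η) - Ty (zinv F) =
C (y^p - y) + (η^p - η) - Ty (zinv F) = C (ze F) + δ - Ty (zinv F) = 0`, using
`add_pow_char` in `PowerSeries (EE p F)` (char `p`: `CharP (PowerSeries (EE p F)) p`, e.g. from an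
injective ring homomorphism from `κ`, or use `exists_add_pow_prime_eq` and `(p : _) = 0`).
`T0`: the ring homomorphism `constantCoeff ∘ T` fixes `ofL c` and `yy`, so it is the identity
(use `eq_sum_coordE`).
`Tze`: from `exists_Tay`.
`Ttau`: both sides are ring homomorphisms in `a`; on `ofL c` : `tau (ofL c) = ofL c` and
`map tau (map ofL x) = map ofL x`; on `yy`: `T (y+1) = C y + η + 1` and
`map tau (C y + map ofL η) = C (y+1) + map ofL η`.
-/
theorem exists_TayE {p : ℕ} [hp : Fact p.Prime] {κ : Type} [Field κ] [CharP κ p] (F q : κ[X])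
    (hq0 : q.coeff 0 = 1) :
    ∃ T : EE p F →+* PowerSeries (EE p F), (∀ a, PowerSeries.constantCoeff (T a) = a) ∧
      (∀ f : κ[X], T (ze p F f) = PowerSeries.map (ofL p F) (incl κ (compft q f))) ∧
      (∀ a, T (tau p F a) = PowerSeries.map (tau p F) (T a)) := by
  obtain ⟨Ty, hTy0, hTyf⟩ := exists_Tay q hq0
  obtain ⟨η, hη0, hη⟩ := exists_AS_root (p := p) (R := LaurentSeries κ)
    (Ty (zinv κ F) - PowerSeries.C (zinv κ F)) (by
      rw [map_sub, hTy0, PowerSeries.constantCoeff_C, sub_self])
  have hpc : ((p : ℕ) : PowerSeries (EE p F)) = 0 := by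
    have h1 : ((p : ℕ) : PowerSeries (EE p F)) =
        PowerSeries.C (ofL p F (HahnSeries.C ((p : ℕ) : κ))) := by
      rw [map_natCast, map_natCast, map_natCast]
    rw [h1, CharP.cast_eq_zero, map_zero, map_zero, map_zero]
  have hroot : Polynomial.eval₂ ((PowerSeries.map (ofL p F)).comp Ty)
      (PowerSeries.C (yy p F) + PowerSeries.map (ofL p F) η) (asPoly p F) = 0 := by
    rw [eval₂_asPoly]
    obtain ⟨r, hr⟩ := exists_add_pow_prime_eq hp.out (PowerSeries.C (yy p F))
      (PowerSeries.map (ofL p F) η)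
    rw [hr, hpc]
    have h1 : (PowerSeries.C (yy p F)) ^ p = PowerSeries.C (yy p F) +
        PowerSeries.C (ofL p F (zinv κ F)) := by
      rw [← map_pow, yy_pow_eq, map_add]
      rfl
    have h2 : (PowerSeries.map (ofL p F) η) ^ p = PowerSeries.map (ofL p F) η +
        (PowerSeries.map (ofL p F) (Ty (zinv κ F)) - PowerSeries.C (ofL p F (zinv κ F))) := by
      have h3 : η ^ p = η + (Ty (zinv κ F) - PowerSeries.C (zinv κ F)) := by
        rw [← hη]; ring
      rw [← map_pow, h3, map_add, map_sub, PowerSeries.map_C]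
    rw [h1, h2, RingHom.comp_apply]
    ring
  let T : EE p F →+* PowerSeries (EE p F) := AdjoinRoot.lift ((PowerSeries.map (ofL p F)).comp Ty)
    (PowerSeries.C (yy p F) + PowerSeries.map (ofL p F) η) hroot
  have hTL : ∀ c, T (ofL p F c) = PowerSeries.map (ofL p F) (Ty c) := fun c => AdjoinRoot.lift_of _
  have hTy : T (yy p F) = PowerSeries.C (yy p F) + PowerSeries.map (ofL p F) η :=
    AdjoinRoot.lift_root _
  have hcm : ∀ x : PowerSeries (LaurentSeries κ),
      PowerSeries.constantCoeff (PowerSeries.map (ofL p F) x) =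
        ofL p F (PowerSeries.constantCoeff x) := by
    intro x
    rw [← PowerSeries.coeff_zero_eq_constantCoeff_apply, PowerSeries.coeff_map,
      PowerSeries.coeff_zero_eq_constantCoeff_apply]
  have hmm : ∀ x : PowerSeries (LaurentSeries κ),
      PowerSeries.map (tau p F) (PowerSeries.map (ofL p F) x) = PowerSeries.map (ofL p F) x := by
    intro x
    ext n
    rw [PowerSeries.coeff_map, PowerSeries.coeff_map, tau_ofL]
  refine ⟨T, ?_, ?_, ?_⟩
  · intro a
    have h1 : PowerSeries.constantCoeff (T (yy p F)) = yy p F := by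
      rw [hTy, map_add, PowerSeries.constantCoeff_C, hcm, hη0, map_zero, add_zero]
    conv_rhs => rw [eq_sum_coordE a]
    conv_lhs => rw [eq_sum_coordE a]
    rw [map_sum, map_sum]
    refine Finset.sum_congr rfl fun j _ => ?_
    rw [map_mul, map_mul, map_pow, map_pow, h1, hTL, hcm, hTy0]
  · intro f
    rw [ze_apply, hTL, hTyf]
  · intro a
    have h1 : T (tau p F (yy p F)) = PowerSeries.map (tau p F) (T (yy p F)) := by
      rw [tau_yy, map_add, map_one, hTy, map_add, hmm, PowerSeries.map_C, tau_yy, map_add, map_one]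
      ring
    rw [eq_sum_coordE a]
    rw [map_sum, map_sum, map_sum, map_sum]
    refine Finset.sum_congr rfl fun j _ => ?_
    rw [map_mul, map_mul, map_mul, map_mul, map_pow, map_pow, map_pow, map_pow, h1, tau_ofL, hTL, hmm]

end

end Pool.Agent.MP_1c8e06_ag.AI
end
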