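import Pool.Agent.Lib.MP_1c8e06_ag.Mg.G051
import Pool.Agent.Lib.MP_1c8e06_ag.AJ.Defs3
import Pool.Agent.Lib.MP_1c8e06_ag.Mg.G049
import Pool.Agent.Lib.MP_1c8e06_ag.Mg.G047
import Pool.Agent.Lib.MP_1c8e06_ag.Mg.G103
import Pool.Agent.Lib.MP_1c8e06_ag.Mg.G096

section

set_option autoImplicit false

open Polynomial
open scoped Classical

namespace Pool.Agent.MP_1c8e06_ag.AJ

noncomputable section

/-!
# Task C5s: a central Artin-Schreier step

Proof.  `S', J` from `exists_quot`.  `θ` from `exists_theta`; as in `AJ/C5q.lean` let `s` be a section of `q` and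
`θ' := ∑_{h : P'} act (s h) θ`; then `∑_{n < p} act (ι₀^n) θ' = 1` (the kernel is `{ι₀^n : n < p}`).
`y := - ∑_{n < p} (n : Al S) * act (ι₀^n) θ'`: `act ι₀ y = y + 1` (reindex `n + 1` modulo `p`; `(p : Al S) = 0`).
For `u : P`, `act u y - y` is fixed by `act ι₀` (`hcent`), so it is `J (a u)`; `y^p - y` is fixed by `act ι₀`
(`(y+1)^p = y^p + 1`, `add_pow_p`), so it is `J b`.  The identities follow after applying the injective
`J`: `J (a (u v)) = act u (act v y) - y = act u (y + J (a v)) - y`; `act u (y^p - y) = (y + J (a u))^p - (y + J (a u))`.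
-/

theorem exists_split {p : ℕ} [hp : Fact p.Prime] {K : Type} [Field K] [CharP K p] {P P' : Type}
    [Group P] [Fintype P] [Group P'] [Fintype P'] (q : P →* P') (hq : Function.Surjective q)
    (ι₀ : P) (hι₀ : q ι₀ = 1) (hord : orderOf ι₀ = p) (hker : ∀ u, q u = 1 → ∃ n : ℕ, u = ι₀ ^ n)
    (hcent : ∀ u, u * ι₀ = ι₀ * u) (S : SC K[X] P) :
    ∃ (S' : SC K[X] P') (J : Al S' →+* Al S) (y : Al S) (a : P → Al S') (b : Al S'),
      Function.Injective J ∧ (∀ f, J (Al.cst S' f) = Al.cst S f) ∧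
      (∀ u c, J (Al.act S' (q u) c) = Al.act S u (J c)) ∧
      (∀ c, (∀ u, q u = 1 → Al.act S u c = c) → ∃ c', J c' = c) ∧
      (∀ u, Al.act S u y = y + J (a u)) ∧ y ^ p - y = J b ∧ a ι₀ = 1 ∧
      (∀ u v, a (u * v) = a u + Al.act S' (q u) (a v)) ∧
      ∀ u, Al.act S' (q u) b = b + (a u ^ p - a u) := by
  obtain ⟨S', J, hJi, hJc, hJa, hJf⟩ := exists_quot q hq S
  obtain ⟨θ, hθ⟩ := exists_theta S
  choose s hs using hq
  have hp0 : ((p : ℕ) : Al S) = 0 := charP_Al S
  have hpos : 0 < p := hp.out.pos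
  have hqpow : ∀ n : ℕ, q (ι₀ ^ n) = 1 := fun n => by rw [map_pow, hι₀, one_pow]
  have hιp : ι₀ ^ p = 1 := by
    rw [← hord]
    exact pow_orderOf_eq_one ι₀
  set θ' : Al S := ∑ h : P', Al.act S (s h) θ with hθ'
  have hsum : ∑ n ∈ Finset.range p, Al.act S (ι₀ ^ n) θ' = 1 := by
    rw [← hθ]
    have h1 : ∀ n ∈ Finset.range p, Al.act S (ι₀ ^ n) θ' =
        ∑ h : P', Al.act S (ι₀ ^ n * s h) θ := by
      intro n _
      rw [hθ', map_sum]
      refine Finset.sum_congr rfl fun h _ => ?_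
      rw [Al.act_mul_apply]
    rw [Finset.sum_congr rfl h1, ← Finset.sum_product']
    refine Finset.sum_bij (fun (x : ℕ × P') _ => ι₀ ^ x.1 * s x.2) (fun _ _ => Finset.mem_univ _)
      ?_ ?_ (fun _ _ => rfl)
    · rintro ⟨n, h⟩ hn ⟨n', h'⟩ hn' heq
      have heq' : ι₀ ^ n * s h = ι₀ ^ n' * s h' := heq
      have hh : h = h' := by
        have h2 := congrArg q heq'
        rw [map_mul, map_mul, hqpow, hqpow, one_mul, one_mul, hs, hs] at h2
        exact h2
      subst hh
      have h3 : ι₀ ^ n = ι₀ ^ n' := mul_right_cancel heq'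
      have hn1 : n < orderOf ι₀ := by
        rw [hord]
        exact Finset.mem_range.1 (Finset.mem_product.1 hn).1
      have hn2 : n' < orderOf ι₀ := by
        rw [hord]
        exact Finset.mem_range.1 (Finset.mem_product.1 hn').1
      have h4 : n = n' := pow_injOn_Iio_orderOf hn1 hn2 h3
      rw [h4]
    · intro x _
      obtain ⟨n, hn⟩ := hker (x * (s (q x))⁻¹) (by rw [map_mul, map_inv, hs, mul_inv_cancel])
      refine ⟨(n % p, q x), Finset.mem_product.2 ⟨Finset.mem_range.2 (Nat.mod_lt _ hpos),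
        Finset.mem_univ _⟩, ?_⟩
      change ι₀ ^ (n % p) * s (q x) = x
      have h5 : ι₀ ^ (n % p) = ι₀ ^ n := by
        rw [← hord]
        exact pow_mod_orderOf ι₀ n
      rw [h5, ← hn, inv_mul_cancel_right]
  set f : ℕ → Al S := fun n => Al.act S (ι₀ ^ n) θ' with hf
  have hfp : f p = f 0 := by
    simp only [hf, hιp, pow_zero]
  have hfs : ∀ n, Al.act S ι₀ (f n) = f (n + 1) := by
    intro n
    simp only [hf]
    rw [← Al.act_mul_apply, ← pow_succ']
  have hsum' : ∑ n ∈ Finset.range p, f n = 1 := hsum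
  have hshift : ∀ g : ℕ → Al S, g p = g 0 →
      ∑ n ∈ Finset.range p, g (n + 1) = ∑ n ∈ Finset.range p, g n := by
    intro g hg
    have h1 := Finset.sum_range_succ' g p
    rw [Finset.sum_range_succ, hg] at h1
    exact (add_right_cancel h1).symm
  set y : Al S := - ∑ n ∈ Finset.range p, ((n : ℕ) : Al S) * f n with hy
  have hy1 : Al.act S ι₀ y = y + 1 := by
    have h1 := hshift f hfp
    have h2 := hshift (fun n => ((n : ℕ) : Al S) * f n) (by
      rw [hp0, Nat.cast_zero, zero_mul, zero_mul])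
    have h3 : Al.act S ι₀ y = -∑ n ∈ Finset.range p, ((n : ℕ) : Al S) * f (n + 1) := by
      rw [hy, map_neg, map_sum]
      congr 1
      refine Finset.sum_congr rfl fun n _ => ?_
      rw [map_mul, map_natCast, hfs]
    have h4 : ∑ n ∈ Finset.range p, ((n : ℕ) : Al S) * f (n + 1) =
        ∑ n ∈ Finset.range p, ((n : ℕ) : Al S) * f n - 1 := by
      rw [← h2, ← hsum', ← h1, ← Finset.sum_sub_distrib]
      refine Finset.sum_congr rfl fun n _ => ?_
      push_cast
      ring
    rw [h3, h4, hy]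
    ring
  have hfixpow : ∀ c : Al S, Al.act S ι₀ c = c → ∀ u, q u = 1 → Al.act S u c = c := by
    intro c hc u hu
    obtain ⟨n, rfl⟩ := hker u hu
    clear hu
    induction n with
    | zero => rw [pow_zero, Al.act_one_apply]
    | succ n ih => rw [pow_succ, Al.act_mul_apply, hc, ih]
  have hfa : ∀ u, ∃ c, J c = Al.act S u y - y := by
    intro u
    refine hJf _ (hfixpow _ ?_)
    rw [map_sub, ← Al.act_mul_apply, ← hcent u, Al.act_mul_apply, hy1, map_add, map_one]
    ring
  choose a ha using hfa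
  obtain ⟨b, hb⟩ := hJf (y ^ p - y) (hfixpow _ (by
    rw [map_sub, map_pow, hy1, add_pow_p hp0, one_pow]
    ring))
  have hau : ∀ u, Al.act S u y = y + J (a u) := by
    intro u
    rw [ha]
    ring
  refine ⟨S', J, y, a, b, hJi, hJc, hJa, hJf, hau, hb.symm, ?_, ?_, ?_⟩
  · refine hJi ?_
    rw [ha, hy1, map_one]
    ring
  · intro u v
    refine hJi ?_
    rw [ha, map_add, ha, hJa, Al.act_mul_apply, hau v, map_add]
    ring
  · intro u
    refine hJi ?_
    rw [hJa, hb, map_add, map_sub J, map_pow, hb, map_sub, map_pow, hau u, add_pow_p hp0]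
    ring

end

end Pool.Agent.MP_1c8e06_ag.AJ
end

section

set_option autoImplicit false

open Polynomial
open scoped Classical

namespace Pool.Agent.MP_1c8e06_ag.AJ

noncomputable section

/-!
# Task C1: Hensel's lemma for Galois algebras

Notation: `e l = Al.e S l`, `T'` the constants `S.T'`.
* `sep`: let `D` be the universal data (`Al.exists_univ`), `b l x = act x (e l)`.  For all `x, x'`:
  `∑_{l,m} (e_c e_l)(x) T' l m e_m(x') = b c x * δ_{x,x'} = ∑_{n,k} e_n(x) T' n k (e_k e_c)(x')` (`hdual`, `hmul`).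
  Uniqueness of coordinates (`GD.coord_unique`, in `x`, then in `x'`; `cst` injective) gives the identity of
  coefficients of `e_n(x) e_m(x')`.
* `hensel_unique`: put `ε := ∑_{l,m} ψ (cst (T' l m) * e l) * ψ' (e m)`.  By `sep`,
  `ψ (e c) * ε = ε * ψ' (e c)`, hence `(ψ a - ψ' a) * ε = 0` for all `a` (both agree on `cst`).  The constant
  coefficient of `ε` is `ψ₀ (∑ cst (T' l m) e l e m) = ψ₀ 1 = 1` (`dual_e` at `x = 1`), so `ε` is a unit.
* `exists_hensel`.  Step: let `n ≥ 1` and `y : P → R₀[[t]]` with `y c y d - ∑ θ (μ c d m) y m ∈ (t^n)` for all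
  `c, d`, `∑ θ (ν l) y l - 1 ∈ (t^n)` and `constantCoeff (y l) = ψ₀ (e l)`.  For `a, b ∈ Al S` put
  `ψ~ a := ∑ θ (a l) y l` (additive, `θ`-linear) and `f(a,b) := ψ~ (a b) - ψ~ a ψ~ b ∈ (t^n)` (bilinear); then
  modulo `(t^(2n))`, hence modulo `(t^(n+1))`:
  `ψ~ a f(b,c) - f(ab,c) + f(a,bc) - f(a,b) ψ~ c = 0` (exactly).  Let `g(b) := ∑_{l,m} θ (T' l m) y l f(e m, b)`.
  By `sep` (`∑ T' (a e_l) ⊗ e_m = ∑ T' e_l ⊗ (e_m a)`), `∑ θ (T' l m) y l y m ≡ 1` (up to `(t^n)`, by `dual_e`
  at `x = 1`), modulo `(t^(n+1))`: `g(ab) = ψ~ a g(b) + g(a) ψ~ b - f(a,b)`.  So `y' c := y c + g(e c)`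
  satisfies the multiplicative relations modulo `(t^(n+1))`, and `y' ≡ y mod (t^n)`.
  Unit: `w := ∑ θ (ν l) y' l` satisfies `w y' c ≡ y' c mod (t^(n+1))` (multiplicativity with `1 * e c`), in
  particular `w² ≡ w`, and `w ≡ 1 mod t`, so `w ≡ 1 mod (t^(n+1))` (`w` is a unit of `R₀[[t]]`).
  Start: `y⁽¹⁾ l := C (ψ₀ (e l))` (relations modulo `(t)` by `h0`).  The sequence converges: the limit `y` has
  coefficient of `t^m` equal to that of `y⁽ⁿ⁾` for `n > m`; the relations hold modulo every `(t^n)`, hence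
  exactly.  `ψ := Al.lift S θ y _ _`.
-/

private theorem C1_sep_aux {B : Type} [CommRing B] {P : Type} [Group P] [Fintype P] (S : SC B P)
    (c : P) (n m : P) :
    Al.cst S (∑ l, S.T' l m * S.μ c l n) = Al.cst S (∑ k, S.T' n k * S.μ k c m) := by
  obtain ⟨D, hk, hb⟩ := Al.exists_univ S
  have hT : D.k.T' = S.T' := by rw [hk]; rfl
  have hμ : D.k.μ = S.μ := by rw [hk]; rfl
  have key : ∀ x x' : P,
      ∑ n, (∑ m, (Al.cst S (∑ l, S.T' l m * S.μ c l n) - Al.cst S (∑ k, S.T' n k * S.μ k c m)) *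
        D.b m x') * D.b n x = 0 := by
    intro x x'
    have h1 : ∑ n, (∑ m, Al.cst S (∑ l, S.T' l m * S.μ c l n) * D.b m x') * D.b n x =
        D.b c x * ∑ l, ∑ m, D.b l x * Al.cst S (D.k.T' l m) * D.b m x' := by
      rw [hT]
      calc ∑ n, (∑ m, Al.cst S (∑ l, S.T' l m * S.μ c l n) * D.b m x') * D.b n x
          = ∑ n, ∑ m, ∑ l, Al.cst S (S.T' l m) * D.b m x' * (Al.cst S (S.μ c l n) * D.b n x) := by
            refine Finset.sum_congr rfl fun n _ => ?_
            rw [Finset.sum_mul]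
            refine Finset.sum_congr rfl fun m _ => ?_
            rw [map_sum, Finset.sum_mul, Finset.sum_mul]
            refine Finset.sum_congr rfl fun l _ => ?_
            rw [map_mul]
            ring
        _ = ∑ l, ∑ m, ∑ n, Al.cst S (S.T' l m) * D.b m x' * (Al.cst S (S.μ c l n) * D.b n x) := by
            rw [Finset.sum_congr rfl fun n _ => Finset.sum_comm, Finset.sum_comm]
            refine Finset.sum_congr rfl fun l _ => ?_
            rw [Finset.sum_comm]
        _ = D.b c x * ∑ l, ∑ m, D.b l x * Al.cst S (S.T' l m) * D.b m x' := by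
            rw [Finset.mul_sum]
            refine Finset.sum_congr rfl fun l _ => ?_
            rw [Finset.mul_sum]
            refine Finset.sum_congr rfl fun m _ => ?_
            rw [← Finset.mul_sum]
            have := D.hmul c l x
            rw [hμ] at this
            rw [← this]
            ring
    have h2 : ∑ n, (∑ m, Al.cst S (∑ k, S.T' n k * S.μ k c m) * D.b m x') * D.b n x =
        D.b c x' * ∑ l, ∑ m, D.b l x * Al.cst S (D.k.T' l m) * D.b m x' := by
      rw [hT]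
      calc ∑ n, (∑ m, Al.cst S (∑ k, S.T' n k * S.μ k c m) * D.b m x') * D.b n x
          = ∑ n, ∑ m, ∑ k, Al.cst S (S.T' n k) * D.b n x * (Al.cst S (S.μ k c m) * D.b m x') := by
            refine Finset.sum_congr rfl fun n _ => ?_
            rw [Finset.sum_mul]
            refine Finset.sum_congr rfl fun m _ => ?_
            rw [map_sum, Finset.sum_mul, Finset.sum_mul]
            refine Finset.sum_congr rfl fun l _ => ?_
            rw [map_mul]
            ring
        _ = ∑ n, ∑ k, ∑ m, Al.cst S (S.T' n k) * D.b n x * (Al.cst S (S.μ k c m) * D.b m x') := by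
            refine Finset.sum_congr rfl fun n _ => ?_
            rw [Finset.sum_comm]
        _ = D.b c x' * ∑ l, ∑ m, D.b l x * Al.cst S (S.T' l m) * D.b m x' := by
            rw [Finset.mul_sum]
            refine Finset.sum_congr rfl fun l _ => ?_
            rw [Finset.mul_sum]
            refine Finset.sum_congr rfl fun m _ => ?_
            rw [← Finset.mul_sum]
            have := D.hmul m c x'
            rw [hμ] at this
            rw [← this]
            ring
    have h3 := D.hdual x x'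
    rw [h3] at h1 h2
    have h4 : D.b c x * (if x = x' then (1 : Al S) else 0) =
        D.b c x' * (if x = x' then (1 : Al S) else 0) := by
      split_ifs with h
      · rw [h]
      · simp
    rw [← h4, ← h1] at h2
    rw [← sub_eq_zero.2 h2.symm, ← Finset.sum_sub_distrib]
    refine Finset.sum_congr rfl fun n _ => ?_
    rw [← sub_mul, ← Finset.sum_sub_distrib]
    congr 1
    refine Finset.sum_congr rfl fun m _ => ?_
    rw [sub_mul]
  have h5 : ∀ x' n, ∑ m, (Al.cst S (∑ l, S.T' l m * S.μ c l n) -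
      Al.cst S (∑ k, S.T' n k * S.μ k c m)) * D.b m x' = 0 := by
    intro x' n
    have := D.coord_unique (RingHom.id (Al S)) (fun n =>
      ∑ m, (Al.cst S (∑ l, S.T' l m * S.μ c l n) -
        Al.cst S (∑ k, S.T' n k * S.μ k c m)) * D.b m x') (fun x => key x x')
    exact congrFun this n
  have h6 := D.coord_unique (RingHom.id (Al S)) (fun m =>
    Al.cst S (∑ l, S.T' l m * S.μ c l n) - Al.cst S (∑ k, S.T' n k * S.μ k c m))
    (fun x' => h5 x' n)
  exact sub_eq_zero.1 (congrFun h6 m)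

theorem sep {B : Type} [CommRing B] {P : Type} [Group P] [Fintype P] (S : SC B P) (c m n : P) :
    ∑ l, S.T' l m * S.μ c l n = ∑ k, S.T' n k * S.μ k c m :=
  cst_injective S (C1_sep_aux S c n m)

private theorem C1_sep' {B : Type} [CommRing B] {P : Type} [Group P] [Fintype P] (S : SC B P)
    {R : Type} [CommRing R] (θ : B →+* R) (c : P) (u v : P → R) :
    ∑ l, ∑ m, θ (S.T' l m) * (∑ n, θ (S.μ c l n) * u n) * v m =
      ∑ n, ∑ k, θ (S.T' n k) * u n * (∑ m, θ (S.μ k c m) * v m) := by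
  calc ∑ l, ∑ m, θ (S.T' l m) * (∑ n, θ (S.μ c l n) * u n) * v m
      = ∑ l, ∑ m, ∑ n, θ (S.T' l m * S.μ c l n) * (u n * v m) := by
        refine Finset.sum_congr rfl fun l _ => Finset.sum_congr rfl fun m _ => ?_
        rw [Finset.mul_sum, Finset.sum_mul]
        refine Finset.sum_congr rfl fun n _ => ?_
        rw [map_mul]
        ring
    _ = ∑ n, ∑ m, ∑ l, θ (S.T' l m * S.μ c l n) * (u n * v m) := by
        rw [Finset.sum_congr rfl fun l _ => Finset.sum_comm, Finset.sum_comm]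
        refine Finset.sum_congr rfl fun n _ => ?_
        rw [Finset.sum_comm]
    _ = ∑ n, ∑ m, ∑ k, θ (S.T' n k * S.μ k c m) * (u n * v m) := by
        refine Finset.sum_congr rfl fun n _ => Finset.sum_congr rfl fun m _ => ?_
        rw [← Finset.sum_mul, ← Finset.sum_mul, ← map_sum, ← map_sum, sep]
    _ = ∑ n, ∑ k, ∑ m, θ (S.T' n k * S.μ k c m) * (u n * v m) := by
        refine Finset.sum_congr rfl fun n _ => ?_
        rw [Finset.sum_comm]
    _ = _ := by
        refine Finset.sum_congr rfl fun n _ => Finset.sum_congr rfl fun k _ => ?_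
        rw [Finset.mul_sum]
        refine Finset.sum_congr rfl fun m _ => ?_
        rw [map_mul]
        ring

private theorem C1_dual {B : Type} [CommRing B] {P : Type} [Group P] [Fintype P] (S : SC B P)
    (k : P) : ∑ l, ∑ m, S.T' l m * S.μ l m k = S.ν k := by
  have h := S.dual 1 k
  rw [if_pos rfl] at h
  rw [← h]
  refine Finset.sum_congr rfl fun l _ => Finset.sum_congr rfl fun m _ => ?_
  rw [Finset.sum_eq_single m]
  · rw [S.α_one, if_pos rfl, mul_one]
  · intro n _ hn
    rw [S.α_one, if_neg (Ne.symm hn)]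
    ring
  · intro h
    exact absurd (Finset.mem_univ m) h

theorem hensel_unique {B : Type} [CommRing B] {P : Type} [Group P] [Fintype P] (S : SC B P)
    {R₀ : Type} [CommRing R₀] (ψ ψ' : Al S →+* PowerSeries R₀)
    (h1 : ∀ b, ψ (Al.cst S b) = ψ' (Al.cst S b))
    (h2 : ∀ a, PowerSeries.constantCoeff (ψ a) = PowerSeries.constantCoeff (ψ' a)) : ψ = ψ' := by
  set ε : PowerSeries R₀ := ∑ l, ∑ m, ψ (Al.cst S (S.T' l m)) * ψ (Al.e S l) * ψ' (Al.e S m)
    with hε
  have hc : ∀ c, ψ (Al.e S c) * ε = ε * ψ' (Al.e S c) := by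
    intro c
    have h := C1_sep' S (ψ.comp (Al.cst S)) c (fun n => ψ (Al.e S n)) (fun m => ψ' (Al.e S m))
    have e1 : ∀ l, ∑ n, (ψ.comp (Al.cst S)) (S.μ c l n) * ψ (Al.e S n) =
        ψ (Al.e S c) * ψ (Al.e S l) := by
      intro l
      rw [← map_mul, Al.e_mul_e, map_sum]
      refine Finset.sum_congr rfl fun n _ => ?_
      rw [map_mul]
      rfl
    have e2 : ∀ k, ∑ m, (ψ.comp (Al.cst S)) (S.μ k c m) * ψ' (Al.e S m) =
        ψ' (Al.e S k) * ψ' (Al.e S c) := by
      intro k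
      rw [← map_mul, Al.e_mul_e, map_sum]
      refine Finset.sum_congr rfl fun n _ => ?_
      rw [map_mul, ← h1]
      rfl
    simp only [e1, e2] at h
    rw [hε, Finset.mul_sum, Finset.sum_mul]
    calc ∑ l, ψ (Al.e S c) * ∑ m, ψ (Al.cst S (S.T' l m)) * ψ (Al.e S l) * ψ' (Al.e S m)
        = ∑ l, ∑ m, (ψ.comp (Al.cst S)) (S.T' l m) * (ψ (Al.e S c) * ψ (Al.e S l)) *
            ψ' (Al.e S m) := by
          refine Finset.sum_congr rfl fun l _ => ?_
          rw [Finset.mul_sum]
          refine Finset.sum_congr rfl fun m _ => ?_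
          rw [RingHom.comp_apply]
          ring
      _ = _ := h
      _ = _ := by
          refine Finset.sum_congr rfl fun l _ => ?_
          rw [Finset.sum_mul]
          refine Finset.sum_congr rfl fun m _ => ?_
          rw [RingHom.comp_apply]
          ring
  have hu : PowerSeries.constantCoeff ε = 1 := by
    have : PowerSeries.constantCoeff ε = PowerSeries.constantCoeff
        (ψ (∑ l, ∑ m, Al.cst S (S.T' l m) * Al.e S l * Al.act S 1 (Al.e S m))) := by
      rw [hε]
      simp only [map_sum, map_mul, h2, Al.act_one_apply]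
    rw [this, dual_e, if_pos rfl, map_one, map_one]
  have hunit : IsUnit ε := by
    rw [PowerSeries.isUnit_iff_constantCoeff, hu]
    exact isUnit_one
  refine Al.hom_ext S h1 fun l => ?_
  have := hc l
  rw [mul_comm] at this
  exact hunit.mul_left_cancel this

/-- The relations modulo the ideal `I`. -/
private def C1Rel {B : Type} [CommRing B] {P : Type} [Group P] [Fintype P] (S : SC B P)
    {R : Type} [CommRing R] (θ : B →+* R) (I : Ideal R) (y : P → R) : Prop :=
  (∀ c d, y c * y d - ∑ k, θ (S.μ c d k) * y k ∈ I) ∧ ∑ l, θ (S.ν l) * y l - 1 ∈ I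

private theorem C1_step {B : Type} [CommRing B] {P : Type} [Group P] [Fintype P] (S : SC B P)
    {R : Type} [CommRing R] (θ : B →+* R) (I : Ideal R) (y : P → R) (h : C1Rel S θ I y) :
    ∃ y' : P → R, (∀ l, y' l - y l ∈ I) ∧ C1Rel S θ (I * I) y' := by
  obtain ⟨h1, h2⟩ := h
  set F : P → P → R := fun c d => ∑ k, θ (S.μ c d k) * y k - y c * y d with hF
  have hFI : ∀ c d, F c d ∈ I := fun c d => by
    have := I.neg_mem (h1 c d)
    rwa [neg_sub] at this
  have hFe : ∀ c d, ∑ k, θ (S.μ c d k) * y k = y c * y d + F c d := fun c d => by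
    simp only [hF]
    ring
  set g : P → R := fun d => ∑ l, ∑ m, θ (S.T' l m) * y l * F m d with hg
  have hgI : ∀ d, g d ∈ I := fun d => by
    refine I.sum_mem fun l _ => I.sum_mem fun m _ => I.mul_mem_left _ (hFI m d)
  set E : R := ∑ l, ∑ m, θ (S.T' l m) * y l * y m with hE
  have hEI : E - 1 ∈ I := by
    have e1 : E = ∑ l, θ (S.ν l) * y l - ∑ l, ∑ m, θ (S.T' l m) * F l m := by
      have : ∑ l, θ (S.ν l) * y l = ∑ l, ∑ m, θ (S.T' l m) * ∑ k, θ (S.μ l m k) * y k := by
        calc ∑ k, θ (S.ν k) * y k = ∑ k, ∑ l, ∑ m, θ (S.T' l m * S.μ l m k) * y k := by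
              refine Finset.sum_congr rfl fun k _ => ?_
              rw [← C1_dual S k, map_sum, Finset.sum_mul]
              refine Finset.sum_congr rfl fun l _ => ?_
              rw [map_sum, Finset.sum_mul]
          _ = ∑ l, ∑ m, ∑ k, θ (S.T' l m * S.μ l m k) * y k := by
              rw [Finset.sum_comm]
              refine Finset.sum_congr rfl fun l _ => ?_
              rw [Finset.sum_comm]
          _ = _ := by
              refine Finset.sum_congr rfl fun l _ => Finset.sum_congr rfl fun m _ => ?_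
              rw [Finset.mul_sum]
              refine Finset.sum_congr rfl fun k _ => ?_
              rw [map_mul]
              ring
      rw [this, hE, ← Finset.sum_sub_distrib]
      refine Finset.sum_congr rfl fun l _ => ?_
      rw [← Finset.sum_sub_distrib]
      refine Finset.sum_congr rfl fun m _ => ?_
      rw [hFe]
      ring
    have e2 : E - 1 = (∑ l, θ (S.ν l) * y l - 1) - ∑ l, ∑ m, θ (S.T' l m) * F l m := by
      rw [e1]
      ring
    rw [e2]
    exact I.sub_mem h2 (I.sum_mem fun l _ => I.sum_mem fun m _ => I.mul_mem_left _ (hFI l m))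
  -- the cocycle identity
  have hco : ∀ m c d, ∑ k, θ (S.μ c d k) * F m k =
      F m c * y d - y m * F c d + ∑ k, θ (S.μ m c k) * F k d := by
    intro m c d
    have as : ∑ k, θ (S.μ c d k) * ∑ j, θ (S.μ m k j) * y j =
        ∑ k, θ (S.μ m c k) * ∑ j, θ (S.μ k d j) * y j := by
      have a1 : ∀ j, ∑ k, θ (S.μ c d k) * θ (S.μ m k j) =
          ∑ k, θ (S.μ m c k) * θ (S.μ k d j) := by
        intro j
        have := congrArg θ (S.assoc m c d j)
        simp only [map_sum, map_mul] at this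
        exact this.symm
      simp only [Finset.mul_sum]
      rw [Finset.sum_comm, Finset.sum_comm (f := fun k j => θ (S.μ m c k) * _)]
      refine Finset.sum_congr rfl fun j _ => ?_
      simp only [← mul_assoc, ← Finset.sum_mul]
      rw [a1]
    have b1 : ∑ k, θ (S.μ c d k) * F m k = ∑ k, θ (S.μ c d k) * (∑ j, θ (S.μ m k j) * y j) -
        y m * ∑ k, θ (S.μ c d k) * y k := by
      rw [Finset.mul_sum, ← Finset.sum_sub_distrib]
      refine Finset.sum_congr rfl fun k _ => ?_
      simp only [hF]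
      ring
    have b2 : ∑ k, θ (S.μ m c k) * F k d = ∑ k, θ (S.μ m c k) * (∑ j, θ (S.μ k d j) * y j) -
        (∑ k, θ (S.μ m c k) * y k) * y d := by
      rw [Finset.sum_mul, ← Finset.sum_sub_distrib]
      refine Finset.sum_congr rfl fun k _ => ?_
      simp only [hF]
      ring
    rw [b1, b2, as]
    simp only [hF]
    ring
  have hmain : ∀ c d, ∑ k, θ (S.μ c d k) * g k = g c * y d + y c * g d - F c d * E +
      ∑ l, ∑ m, θ (S.T' l m) * F c l * F m d := by
    intro c d
    have a1 : ∑ k, θ (S.μ c d k) * g k =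
        ∑ l, ∑ m, θ (S.T' l m) * y l * ∑ k, θ (S.μ c d k) * F m k := by
      simp only [hg, Finset.mul_sum]
      rw [Finset.sum_comm]
      refine Finset.sum_congr rfl fun l _ => ?_
      rw [Finset.sum_comm]
      refine Finset.sum_congr rfl fun m _ => Finset.sum_congr rfl fun k _ => ?_
      ring
    have a2 : ∑ l, ∑ m, θ (S.T' l m) * y l * ∑ k, θ (S.μ m c k) * F k d =
        y c * g d + ∑ l, ∑ m, θ (S.T' l m) * F c l * F m d := by
      rw [← C1_sep' S θ c y (fun m => F m d)]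
      simp only [hFe, hg, Finset.mul_sum]
      rw [← Finset.sum_add_distrib]
      refine Finset.sum_congr rfl fun l _ => ?_
      rw [← Finset.sum_add_distrib]
      refine Finset.sum_congr rfl fun m _ => ?_
      ring
    rw [a1]
    have a3 : ∑ l, ∑ m, θ (S.T' l m) * y l * ∑ k, θ (S.μ c d k) * F m k =
        g c * y d - F c d * E + ∑ l, ∑ m, θ (S.T' l m) * y l * ∑ k, θ (S.μ m c k) * F k d := by
      simp only [hco, hg, hE, Finset.mul_sum, Finset.sum_mul]
      rw [← Finset.sum_sub_distrib, ← Finset.sum_add_distrib]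
      refine Finset.sum_congr rfl fun l _ => ?_
      rw [← Finset.sum_sub_distrib, ← Finset.sum_add_distrib]
      refine Finset.sum_congr rfl fun m _ => ?_
      rw [← Finset.mul_sum]
      ring
    rw [a3, a2]
    ring
  have hrel : ∀ c d, (y c + g c) * (y d + g d) - ∑ k, θ (S.μ c d k) * (y k + g k) ∈ I * I := by
    intro c d
    have e : (y c + g c) * (y d + g d) - ∑ k, θ (S.μ c d k) * (y k + g k) =
        F c d * (E - 1) + g c * g d - ∑ l, ∑ m, θ (S.T' l m) * F c l * F m d := by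
      simp only [mul_add, Finset.sum_add_distrib]
      rw [hmain, hFe]
      ring
    rw [e]
    refine Ideal.sub_mem _ (Ideal.add_mem _ (Ideal.mul_mem_mul (hFI c d) hEI)
      (Ideal.mul_mem_mul (hgI c) (hgI d))) ?_
    refine Ideal.sum_mem _ fun l _ => Ideal.sum_mem _ fun m _ => ?_
    exact Ideal.mul_mem_mul (I.mul_mem_left _ (hFI c l)) (hFI m d)
  refine ⟨fun l => y l + g l, fun l => ?_, hrel, ?_⟩
  · rw [add_sub_cancel_left]
    exact hgI l
  · set W : R := ∑ l, θ (S.ν l) * (y l + g l) with hW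
    have hWI : W - 1 ∈ I := by
      have : W - 1 = (∑ l, θ (S.ν l) * y l - 1) + ∑ l, θ (S.ν l) * g l := by
        simp only [hW, mul_add, Finset.sum_add_distrib]
        ring
      rw [this]
      exact I.add_mem h2 (I.sum_mem fun l _ => I.mul_mem_left _ (hgI l))
    have hWW : W * W - W ∈ I * I := by
      have e1 : W = ∑ l, ∑ m, θ (S.ν l) * θ (S.ν m) * ∑ k, θ (S.μ l m k) * (y k + g k) := by
        have u1 : ∀ k, ∑ l, ∑ m, θ (S.ν l) * θ (S.ν m) * θ (S.μ l m k) = θ (S.ν k) := by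
          intro k
          rw [Finset.sum_comm]
          have u2 : ∀ m, ∑ l, θ (S.ν l) * θ (S.ν m) * θ (S.μ l m k) =
              θ (S.ν m) * if m = k then 1 else 0 := by
            intro m
            have := congrArg θ (S.unit m k)
            rw [map_sum] at this
            have u3 : θ (if m = k then (1 : B) else 0) = if m = k then 1 else 0 := by
              split_ifs <;> simp
            rw [u3] at this
            rw [← this, Finset.mul_sum]
            refine Finset.sum_congr rfl fun l _ => ?_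
            rw [map_mul]
            ring
          rw [Finset.sum_congr rfl fun m _ => u2 m]
          simp
        rw [hW]
        calc ∑ k, θ (S.ν k) * (y k + g k)
            = ∑ k, ∑ l, ∑ m, θ (S.ν l) * θ (S.ν m) * θ (S.μ l m k) * (y k + g k) := by
              refine Finset.sum_congr rfl fun k _ => ?_
              rw [← u1 k, Finset.sum_mul]
              refine Finset.sum_congr rfl fun l _ => ?_
              rw [Finset.sum_mul]
          _ = ∑ l, ∑ m, ∑ k, θ (S.ν l) * θ (S.ν m) * θ (S.μ l m k) * (y k + g k) := by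
              rw [Finset.sum_comm]
              refine Finset.sum_congr rfl fun l _ => ?_
              rw [Finset.sum_comm]
          _ = _ := by
              refine Finset.sum_congr rfl fun l _ => Finset.sum_congr rfl fun m _ => ?_
              rw [Finset.mul_sum]
              refine Finset.sum_congr rfl fun k _ => ?_
              ring
      have e2 : W * W = ∑ l, ∑ m, θ (S.ν l) * θ (S.ν m) * ((y l + g l) * (y m + g m)) := by
        rw [hW, Finset.sum_mul]
        refine Finset.sum_congr rfl fun l _ => ?_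
        rw [Finset.mul_sum]
        refine Finset.sum_congr rfl fun m _ => ?_
        ring
      have e3 : W * W - W = ∑ l, ∑ m, θ (S.ν l) * θ (S.ν m) *
          ((y l + g l) * (y m + g m) - ∑ k, θ (S.μ l m k) * (y k + g k)) := by
        rw [e2]
        conv_lhs => rw [e1]
        rw [← Finset.sum_sub_distrib]
        refine Finset.sum_congr rfl fun l _ => ?_
        rw [← Finset.sum_sub_distrib]
        refine Finset.sum_congr rfl fun m _ => ?_
        ring
      rw [e3]
      exact Ideal.sum_mem _ fun l _ => Ideal.sum_mem _ fun m _ => Ideal.mul_mem_left _ _ (hrel l m)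
    have e4 : W - 1 = (W * W - W) - (W - 1) * (W - 1) := by ring
    rw [e4]
    exact Ideal.sub_mem _ hWW (Ideal.mul_mem_mul hWI hWI)

private theorem C1_rel_congr {B : Type} [CommRing B] {P : Type} [Group P] [Fintype P] (S : SC B P)
    {R : Type} [CommRing R] (θ : B →+* R) (I : Ideal R) (y y' : P → R) (h : C1Rel S θ I y)
    (h' : ∀ l, y' l - y l ∈ I) : C1Rel S θ I y' := by
  refine ⟨fun c d => ?_, ?_⟩
  · have e : y' c * y' d - ∑ k, θ (S.μ c d k) * y' k = (y c * y d - ∑ k, θ (S.μ c d k) * y k) +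
        (y' c * (y' d - y d) + y d * (y' c - y c)) - ∑ k, θ (S.μ c d k) * (y' k - y k) := by
      simp only [mul_sub, Finset.sum_sub_distrib]
      ring
    rw [e]
    exact I.sub_mem (I.add_mem (h.1 c d) (I.add_mem (I.mul_mem_left _ (h' d))
      (I.mul_mem_left _ (h' c)))) (I.sum_mem fun k _ => I.mul_mem_left _ (h' k))
  · have e : ∑ l, θ (S.ν l) * y' l - 1 = (∑ l, θ (S.ν l) * y l - 1) +
        ∑ l, θ (S.ν l) * (y' l - y l) := by
      simp only [mul_sub, Finset.sum_sub_distrib]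
      ring
    rw [e]
    exact I.add_mem h.2 (I.sum_mem fun k _ => I.mul_mem_left _ (h' k))

theorem exists_hensel {B : Type} [CommRing B] {P : Type} [Group P] [Fintype P] (S : SC B P)
    {R₀ : Type} [CommRing R₀] (θ : B →+* PowerSeries R₀) (ψ₀ : Al S →+* R₀)
    (h0 : ∀ b, ψ₀ (Al.cst S b) = PowerSeries.constantCoeff (θ b)) :
    ∃ ψ : Al S →+* PowerSeries R₀, (∀ b, ψ (Al.cst S b) = θ b) ∧
      ∀ a, PowerSeries.constantCoeff (ψ a) = ψ₀ a := by
  set I : ℕ → Ideal (PowerSeries R₀) := fun n => Ideal.span {(PowerSeries.X : PowerSeries R₀) ^ n}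
    with hI
  have memI : ∀ n (f : PowerSeries R₀), f ∈ I n ↔ ∀ k < n, PowerSeries.coeff k f = 0 := by
    intro n f
    rw [hI, Ideal.mem_span_singleton, PowerSeries.X_pow_dvd_iff]
  have hII : ∀ n, I (n + 1) * I (n + 1) ≤ I (n + 2) := by
    intro n
    rw [hI]
    simp only
    rw [Ideal.span_singleton_mul_span_singleton, ← pow_add,
      Ideal.span_singleton_le_span_singleton]
    exact pow_dvd_pow _ (by omega)
  have hstep : ∀ n (y : P → PowerSeries R₀), C1Rel S θ (I (n + 1)) y →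
      ∃ y' : P → PowerSeries R₀, (∀ l, y' l - y l ∈ I (n + 1)) ∧ C1Rel S θ (I (n + 2)) y' := by
    intro n y hy
    obtain ⟨y', h1, h2⟩ := C1_step S θ (I (n + 1)) y hy
    exact ⟨y', h1, fun c d => hII n (h2.1 c d), hII n h2.2⟩
  have hstart : C1Rel S θ (I 1) (fun l => PowerSeries.C (ψ₀ (Al.e S l))) := by
    refine ⟨fun c d => ?_, ?_⟩
    · rw [memI]
      intro k hk
      obtain rfl : k = 0 := by omega
      rw [PowerSeries.coeff_zero_eq_constantCoeff_apply]
      simp only [map_sub, map_mul, map_sum, PowerSeries.constantCoeff_C, ← h0]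
      rw [← map_mul, Al.e_mul_e, map_sum]
      simp only [map_mul, sub_self]
    · rw [memI]
      intro k hk
      obtain rfl : k = 0 := by omega
      rw [PowerSeries.coeff_zero_eq_constantCoeff_apply]
      simp only [map_sub, map_mul, map_sum, PowerSeries.constantCoeff_C, ← h0, map_one]
      rw [sub_eq_zero, ← map_one ψ₀, Al.one_eq_sum, map_sum]
      simp only [map_mul]
  choose! st hst1 hst2 using hstep
  let Y : ℕ → P → PowerSeries R₀ := fun n =>
    Nat.rec (fun l => PowerSeries.C (ψ₀ (Al.e S l))) (fun n y => st n y) n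
  have hY0 : Y 0 = fun l => PowerSeries.C (ψ₀ (Al.e S l)) := rfl
  have hYs : ∀ n, Y (n + 1) = st n (Y n) := fun n => rfl
  have hYrel : ∀ n, C1Rel S θ (I (n + 1)) (Y n) := by
    intro n
    induction n with
    | zero => exact hstart
    | succ n ih => rw [hYs]; exact hst2 n _ ih
  have hYd : ∀ n l, Y (n + 1) l - Y n l ∈ I (n + 1) := by
    intro n l
    rw [hYs]
    exact hst1 n _ (hYrel n) l
  have hYc : ∀ k l n, k ≤ n → PowerSeries.coeff k (Y n l) = PowerSeries.coeff k (Y k l) := by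
    intro k l n hn
    induction n, hn using Nat.le_induction with
    | base => rfl
    | succ n hn ih =>
      rw [← ih]
      have := (memI _ _).1 (hYd n l) k (by omega)
      rw [map_sub, sub_eq_zero] at this
      exact this
  let y : P → PowerSeries R₀ := fun l => PowerSeries.mk fun k => PowerSeries.coeff k (Y k l)
  have hyY : ∀ n l, y l - Y n l ∈ I (n + 1) := by
    intro n l
    rw [memI]
    intro k hk
    rw [map_sub, PowerSeries.coeff_mk, hYc k l n (by omega), sub_self]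
  have hyrel : ∀ n, C1Rel S θ (I (n + 1)) y := fun n =>
    C1_rel_congr S θ _ _ _ (hYrel n) (hyY n)
  have hzero : ∀ f : PowerSeries R₀, (∀ n, f ∈ I (n + 1)) → f = 0 := by
    intro f hf
    ext k
    rw [map_zero]
    exact (memI _ _).1 (hf k) k (by omega)
  have r1 : ∀ c d, y c * y d = ∑ k, θ (S.μ c d k) * y k := fun c d =>
    sub_eq_zero.1 (hzero _ fun n => (hyrel n).1 c d)
  have r2 : ∑ l, θ (S.ν l) * y l = 1 := sub_eq_zero.1 (hzero _ fun n => (hyrel n).2)
  refine ⟨Al.lift S θ y r1 r2, fun b => Al.lift_cst S θ y r1 r2 b, fun a => ?_⟩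
  have hy0 : ∀ l, PowerSeries.constantCoeff (y l) = ψ₀ (Al.e S l) := by
    intro l
    rw [← PowerSeries.coeff_zero_eq_constantCoeff_apply, PowerSeries.coeff_mk, hY0,
      PowerSeries.coeff_zero_eq_constantCoeff_apply, PowerSeries.constantCoeff_C]
  rw [Al.lift_apply, map_sum]
  conv_rhs => rw [Al.eq_sum S a, map_sum]
  refine Finset.sum_congr rfl fun l _ => ?_
  rw [map_mul, map_mul, hy0, h0]

end

end Pool.Agent.MP_1c8e06_ag.AJ
end

section

set_option autoImplicit false

open Polynomial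
open scoped Classical

namespace Pool.Agent.MP_1c8e06_ag.AJ

noncomputable section

/-!
# Task C3a: expansion of a pulled back type on a disc

`ρ` is `iP κ` or `(iP κ).comp (trP κ)`.  `K = κ((t))`, `S_h := S.map (subK h)`.
Proof.  `θ₀ : κ[X] →+* PowerSeries κ[X]`, `f ↦ f(h₁)` (`eval₂RingHom (PowerSeries.C.comp C) h₁`).  Then
`ρ (subK h f) = ofPowerSeries (θ₀ f)` (ring homomorphisms in `f`: `C c`: `hρ`, `X`: `hh`).
* `exists_T`: `exists_hensel S` with `R₀ := El S`, `θ := (PowerSeries.map (zeE S)).comp θ₀`,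
  `ψ₀ := Al.mapA S (zinv κ) : Al S →+* El S`; `h0`: `constantCoeff (θ₀ f) = f(X) = f` by `hh0`,
  `ψ₀ (cst f) = cst (zinv f) = zeE f` (`Al.mapA_cst`).  Get `ψ : Al S →+* PowerSeries (El S)`.
  `T := Al.lift S_h θT (fun l => ofPowerSeries (ψ (e l)))`, `θT f := oL S (jP κ (ρ f))`; relations: the constants
  of `S_h` are `subK h (μ ..)` and `oL (jP (ofPowerSeries (θ₀ m))) = ofPowerSeries (θ m)` (coefficients:
  `zeE = oE ∘ zinv`).
  Equivariance: by `Al.hom_ext` it is enough to check it on `cst f` (`Al.act_cst`, `actL_oL`) and on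
  `e l`: `act u (e l) = ∑ cst (subK h (α u l m)) * e m`, so `T (act u (e l)) = ofPowerSeries (ψ (act S u (e l)))`;
  and `ψ (act S u a) = PowerSeries.map (actE S u) (ψ a)` by `hensel_unique` (both sides are ring
  homomorphisms in `a`; on `cst`: `θ` has values fixed by `actE`; constant coefficients: `Al.mapA_act`).
* `exists_T0`: the same with `R₀ := κ[X]`, `θ := θ₀`, `ψ₀ := C.comp φ₀`; `h0`: `constantCoeff (θ₀ f) = f(0)`
  (`hh0 : constantCoeff h₁ = 0`), `T := Al.lift S_h ρ (fun l => ofPowerSeries (ψ (e l)))`.  The last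
  conclusion: `T (mapA a) = ofPowerSeries (ψ a)`.
-/

private theorem C3a_mapL_ofPS {R R' : Type} [CommRing R] [CommRing R'] (φ : R →+* R')
    (g : PowerSeries R) : AI.mapL φ (HahnSeries.ofPowerSeries ℤ R g) =
      HahnSeries.ofPowerSeries ℤ R' (PowerSeries.map φ g) := by
  ext n
  rw [AI.mapL_coeff]
  by_cases hn : 0 ≤ n
  · obtain ⟨m, rfl⟩ := Int.eq_ofNat_of_zero_le hn
    have h1 := HahnSeries.ofPowerSeries_apply_coeff (Γ := ℤ) g m
    have h2 := HahnSeries.ofPowerSeries_apply_coeff (Γ := ℤ) (PowerSeries.map φ g) m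
    rw [h1, h2, PowerSeries.coeff_map]
  · have key : ∀ {Q : Type} [CommRing Q] (f : PowerSeries Q),
        ((HahnSeries.ofPowerSeries ℤ Q) f).coeff n = 0 := by
      intro Q _ f
      rw [HahnSeries.ofPowerSeries_apply, HahnSeries.embDomain_of_notMem_range]
      rintro ⟨m, hm⟩
      apply hn
      have : (m : ℤ) = n := hm
      omega
    rw [key, key, map_zero]

/-- `f ↦ f(h₁)`. -/
private def C3a_th {κ : Type} [Field κ] (h₁ : PowerSeries κ[X]) : κ[X] →+* PowerSeries κ[X] :=
  Polynomial.eval₂RingHom ((PowerSeries.C (R := κ[X])).comp C) h₁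

private theorem C3a_rho {κ : Type} [Field κ]
    (h : (LaurentSeries κ)[X]) (ρ : (LaurentSeries κ)[X] →+* LaurentSeries κ[X])
    (hρ : ∀ c : κ, ρ (C (HahnSeries.C c)) = HahnSeries.C (C c)) (h₁ : PowerSeries κ[X])
    (hh : ρ h = HahnSeries.ofPowerSeries ℤ κ[X] h₁) (f : κ[X]) :
    ρ (subK h f) = HahnSeries.ofPowerSeries ℤ κ[X] (C3a_th h₁ f) := by
  have key : ρ.comp (subK h) = (HahnSeries.ofPowerSeries ℤ κ[X]).comp (C3a_th h₁) := by
    refine Polynomial.ringHom_ext (fun c => ?_) ?_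
    · rw [RingHom.comp_apply, RingHom.comp_apply, subK, C3a_th, Polynomial.coe_eval₂RingHom,
        Polynomial.coe_eval₂RingHom, Polynomial.eval₂_C, Polynomial.eval₂_C, RingHom.comp_apply,
        RingHom.comp_apply, hρ, HahnSeries.ofPowerSeries_C]
    · rw [RingHom.comp_apply, RingHom.comp_apply, subK, C3a_th, Polynomial.coe_eval₂RingHom,
        Polynomial.coe_eval₂RingHom, Polynomial.eval₂_X, Polynomial.eval₂_X, hh]
  exact RingHom.congr_fun key f

private theorem C3a_cc {κ : Type} [Field κ] (h₁ : PowerSeries κ[X])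
    (hh0 : PowerSeries.constantCoeff h₁ = X) (f : κ[X]) :
    PowerSeries.constantCoeff (C3a_th h₁ f) = f := by
  have key : (PowerSeries.constantCoeff (R := κ[X])).comp (C3a_th h₁) = RingHom.id κ[X] := by
    refine Polynomial.ringHom_ext (fun c => ?_) ?_
    · rw [RingHom.comp_apply, C3a_th, Polynomial.coe_eval₂RingHom, Polynomial.eval₂_C,
        RingHom.comp_apply, PowerSeries.constantCoeff_C, RingHom.id_apply]
    · rw [RingHom.comp_apply, C3a_th, Polynomial.coe_eval₂RingHom, Polynomial.eval₂_X, hh0,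
        RingHom.id_apply]
  exact RingHom.congr_fun key f

private theorem C3a_cc0 {κ : Type} [Field κ] (h₁ : PowerSeries κ[X])
    (hh0 : PowerSeries.constantCoeff h₁ = 0) (f : κ[X]) :
    PowerSeries.constantCoeff (C3a_th h₁ f) = C (f.eval 0) := by
  have key : (PowerSeries.constantCoeff (R := κ[X])).comp (C3a_th h₁) =
      (C : κ →+* κ[X]).comp (Polynomial.evalRingHom 0) := by
    refine Polynomial.ringHom_ext (fun c => ?_) ?_
    · rw [RingHom.comp_apply, C3a_th, Polynomial.coe_eval₂RingHom, Polynomial.eval₂_C,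
        RingHom.comp_apply, PowerSeries.constantCoeff_C, RingHom.comp_apply,
        Polynomial.coe_evalRingHom, Polynomial.eval_C]
    · rw [RingHom.comp_apply, C3a_th, Polynomial.coe_eval₂RingHom, Polynomial.eval₂_X, hh0,
        RingHom.comp_apply, Polynomial.coe_evalRingHom, Polynomial.eval_X, map_zero]
  exact RingHom.congr_fun key f

/-- The lift of a family `ψ (e l)` to the algebra pulled back along `subK h`. -/
private theorem C3a_lift {κ : Type} [Field κ] {P : Type} [Group P] [Fintype P] (S : SC κ[X] P)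
    {A₀ : Type} [CommRing A₀] (h : (LaurentSeries κ)[X])
    (θT : (LaurentSeries κ)[X] →+* LaurentSeries A₀) (θ : κ[X] →+* PowerSeries A₀)
    (hθ : ∀ f, θT (subK h f) = HahnSeries.ofPowerSeries ℤ A₀ (θ f))
    (ψ : Al S →+* PowerSeries A₀) (hψ : ∀ b, ψ (Al.cst S b) = θ b) :
    ∃ T : Al (S.map (subK h)) →+* LaurentSeries A₀,
      (∀ f, T (Al.cst (S.map (subK h)) f) = θT f) ∧
      ∀ a : Al S, T (Al.mapA S (subK h) a) = HahnSeries.ofPowerSeries ℤ A₀ (ψ a) := by
  have h1 : ∀ i j, HahnSeries.ofPowerSeries ℤ A₀ (ψ (Al.e S i)) *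
      HahnSeries.ofPowerSeries ℤ A₀ (ψ (Al.e S j)) =
      ∑ l, θT ((S.map (subK h)).μ i j l) * HahnSeries.ofPowerSeries ℤ A₀ (ψ (Al.e S l)) := by
    intro i j
    rw [← map_mul, ← map_mul, Al.e_mul_e, map_sum, map_sum]
    refine Finset.sum_congr rfl fun l _ => ?_
    rw [map_mul, map_mul, hψ, ← hθ]
    rfl
  have h2 : ∑ l, θT ((S.map (subK h)).ν l) * HahnSeries.ofPowerSeries ℤ A₀ (ψ (Al.e S l)) = 1 := by
    rw [← map_one (HahnSeries.ofPowerSeries ℤ A₀), ← map_one ψ, Al.one_eq_sum, map_sum, map_sum]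
    refine Finset.sum_congr rfl fun l _ => ?_
    rw [map_mul, map_mul, hψ, ← hθ]
    rfl
  refine ⟨Al.lift (S.map (subK h)) θT _ h1 h2, fun f => Al.lift_cst _ _ _ _ _ f, ?_⟩
  have key : (Al.lift (S.map (subK h)) θT _ h1 h2).comp (Al.mapA S (subK h)) =
      (HahnSeries.ofPowerSeries ℤ A₀).comp ψ := by
    refine Al.hom_ext S (fun b => ?_) (fun l => ?_)
    · rw [RingHom.comp_apply, RingHom.comp_apply, Al.mapA_cst, Al.lift_cst, hθ, hψ]
    · rw [RingHom.comp_apply, RingHom.comp_apply, Al.mapA_e, Al.lift_e]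
  exact fun a => RingHom.congr_fun key a

theorem exists_T {κ : Type} [Field κ] {P : Type} [Group P] [Fintype P] (S : SC κ[X] P)
    (h : (LaurentSeries κ)[X]) (ρ : (LaurentSeries κ)[X] →+* LaurentSeries κ[X])
    (hρ : ∀ c : κ, ρ (C (HahnSeries.C c)) = HahnSeries.C (C c)) (h₁ : PowerSeries κ[X])
    (hh : ρ h = HahnSeries.ofPowerSeries ℤ κ[X] h₁) (hh0 : PowerSeries.constantCoeff h₁ = X) :
    ∃ T : Al (S.map (subK h)) →+* LaurentSeries (El S),
      (∀ f, T (Al.cst (S.map (subK h)) f) = oL S (jP κ (ρ f))) ∧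
      ∀ u a, T (Al.act (S.map (subK h)) u a) = actL S u (T a) := by
  obtain ⟨ψ, hψ1, hψ2⟩ := exists_hensel S ((PowerSeries.map (zeE S)).comp (C3a_th h₁))
    (Al.mapA S (AI.zinv κ) : Al S →+* El S) (fun f => by
      rw [RingHom.comp_apply, ← PowerSeries.coeff_zero_eq_constantCoeff_apply,
        PowerSeries.coeff_map, PowerSeries.coeff_zero_eq_constantCoeff_apply, C3a_cc h₁ hh0]
      exact Al.mapA_cst S (AI.zinv κ) f)
  have hact : ∀ u f, actE S u (zeE S f) = zeE S f := fun u f =>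
    Al.act_cst (S.map (AI.zinv κ)) u (AI.zinv κ f)
  have hψact : ∀ u a, ψ (Al.act S u a) = PowerSeries.map (actE S u) (ψ a) := by
    intro u
    have key : ψ.comp (Al.act S u) = (PowerSeries.map (actE S u)).comp ψ := by
      refine hensel_unique S _ _ (fun b => ?_) (fun a => ?_)
      · rw [RingHom.comp_apply, RingHom.comp_apply, Al.act_cst, hψ1, RingHom.comp_apply]
        refine PowerSeries.ext fun n => ?_
        rw [PowerSeries.coeff_map, PowerSeries.coeff_map, PowerSeries.coeff_map, hact]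
      · rw [RingHom.comp_apply, RingHom.comp_apply, hψ2,
          ← PowerSeries.coeff_zero_eq_constantCoeff_apply, PowerSeries.coeff_map,
          PowerSeries.coeff_zero_eq_constantCoeff_apply, hψ2]
        exact Al.mapA_act S (AI.zinv κ) u a
    exact fun a => RingHom.congr_fun key a
  have hθ : ∀ f, (((oL S).comp (jP κ)).comp ρ) (subK h f) = HahnSeries.ofPowerSeries ℤ (El S)
      (((PowerSeries.map (zeE S)).comp (C3a_th h₁)) f) := by
    intro f
    rw [RingHom.comp_apply, RingHom.comp_apply, C3a_rho h ρ hρ h₁ hh, jP, C3a_mapL_ofPS, oL,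
      C3a_mapL_ofPS, RingHom.comp_apply]
    congr 1
  obtain ⟨T, hT1, hT2⟩ := C3a_lift S h _ _ hθ ψ hψ1
  refine ⟨T, fun f => hT1 f, fun u => ?_⟩
  have key : T.comp (Al.act (S.map (subK h)) u) = (actL S u).comp T := by
    refine Al.hom_ext _ (fun f => ?_) (fun l => ?_)
    · rw [RingHom.comp_apply, RingHom.comp_apply, Al.act_cst, hT1]
      ext n
      rw [actL_coeff, RingHom.comp_apply, RingHom.comp_apply, oL_coeff]
      exact (Al.act_cst (S.map (AI.zinv κ)) u _).symm
    · rw [RingHom.comp_apply, RingHom.comp_apply, ← Al.mapA_e, ← Al.mapA_act, hT2, hT2, hψact]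
      exact (C3a_mapL_ofPS (actE S u) (ψ (Al.e S l))).symm
  exact fun a => RingHom.congr_fun key a

theorem exists_T0 {κ : Type} [Field κ] {P : Type} [Group P] [Fintype P] (S : SC κ[X] P)
    (φ₀ : Al S →+* κ) (hφ₀ : ∀ f : κ[X], φ₀ (Al.cst S f) = f.eval 0)
    (h : (LaurentSeries κ)[X]) (ρ : (LaurentSeries κ)[X] →+* LaurentSeries κ[X])
    (hρ : ∀ c : κ, ρ (C (HahnSeries.C c)) = HahnSeries.C (C c)) (h₁ : PowerSeries κ[X])
    (hh : ρ h = HahnSeries.ofPowerSeries ℤ κ[X] h₁) (hh0 : PowerSeries.constantCoeff h₁ = 0) :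
    ∃ T : Al (S.map (subK h)) →+* LaurentSeries κ[X],
      (∀ f, T (Al.cst (S.map (subK h)) f) = ρ f) ∧
      ∀ a : Al S, ∃ g : PowerSeries κ[X], PowerSeries.constantCoeff g = C (φ₀ a) ∧
        T (Al.mapA S (subK h) a) = HahnSeries.ofPowerSeries ℤ κ[X] g := by
  obtain ⟨ψ, hψ1, hψ2⟩ := exists_hensel S (C3a_th h₁) ((C : κ →+* κ[X]).comp φ₀) (fun f => by
    rw [RingHom.comp_apply, hφ₀, C3a_cc0 h₁ hh0])
  obtain ⟨T, hT1, hT2⟩ := C3a_lift S h ρ (C3a_th h₁) (C3a_rho h ρ hρ h₁ hh) ψ hψ1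
  exact ⟨T, hT1, fun a => ⟨ψ a, by rw [hψ2, RingHom.comp_apply], hT2 a⟩⟩

/-- A point over `X = 0`, for an algebraically closed field. -/
theorem exists_point_zero {κ : Type} [Field κ] [IsAlgClosed κ] {P : Type} [Group P] [Fintype P]
    (S : SC κ[X] P) : ∃ φ₀ : Al S →+* κ, ∀ f : κ[X], φ₀ (Al.cst S f) = f.eval 0 := by
  set S₀ : SC κ P := S.map (Polynomial.evalRingHom 0) with hS₀
  let _ : Algebra κ (Al S₀) := (Al.cst S₀).toAlgebra
  have hsmul : ∀ (c : κ) (a : Al S₀), c • a = Al.cst S₀ c * a := fun c a => Algebra.smul_def c a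
  have : Nontrivial (Al S₀) := by
    refine ⟨Al.e S₀ 1, 0, fun h => ?_⟩
    have h1 := congrFun h (1 : P)
    rw [Al.zero_apply] at h1
    simp [Al.e] at h1
  have : Module.Finite κ (Al S₀) := by
    refine ⟨⟨Finset.univ.image (Al.e S₀), ?_⟩⟩
    rw [eq_top_iff]
    intro a _
    rw [Al.eq_sum S₀ a]
    refine Submodule.sum_mem _ fun l _ => ?_
    rw [← hsmul]
    refine Submodule.smul_mem _ _ (Submodule.subset_span ?_)
    rw [Finset.coe_image]
    exact ⟨l, Finset.mem_coe.2 (Finset.mem_univ l), rfl⟩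
  obtain ⟨φ⟩ := AI.exists_point κ (Al S₀)
  refine ⟨(φ : Al S₀ →+* κ).comp (Al.mapA S (Polynomial.evalRingHom 0)), fun f => ?_⟩
  rw [RingHom.comp_apply, Al.mapA_cst]
  exact φ.commutes (f.eval 0)

end

end Pool.Agent.MP_1c8e06_ag.AJ
end

section

set_option autoImplicit false

open Polynomial
open scoped Classical

namespace Pool.Agent.MP_1c8e06_ag.AJ

noncomputable section

/-!
# Task C6a: the first disc in the construction with small inertia

Notation: `K = κ((t))`, `S'_h := S'.map (subK h)`, `B := Al.mapA S' (subK h) b + Al.cst S'_h β`.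
Proof.  `φ₀` from `exists_point_zero S'`; `τ` from `exists_T0 S' φ₀` with `ρ := iP κ` (it fixes constants):
`τ : Al S'_h →+* LaurentSeries κ[X]`, `τ (cst f) = iP f`, `τ (mapA b) = ofPowerSeries g`, `constantCoeff g = C (φ₀ b)`.
`κ` is algebraically closed: `c₀^p - c₀ = φ₀ b` for some `c₀ : κ` (the polynomial `X^p - X - C _` has a root).
`δ := g - C (C (φ₀ b)) + (β₁ - C F₁) ∈ PowerSeries κ[X]` has constant coefficient `0`: `AI.exists_AS_root`
(`CharP κ[X] p`) gives `η` with `η^p - η = δ`.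
`T' := (oL S₁).comp ((jP κ).comp τ) : Al S'_h →+* LaurentSeries (El S₁)`.
`y₁' := HahnSeries.C (Al.mapA S₁ (zinv κ) y₁)`, `Y := y₁' + oL (jP (C (C c₀) + ofPowerSeries η))`;
`Y^p - Y = C (zeE F₁) + oL (jP (C (C (φ₀ b)) + ofPowerSeries δ)) = T' B` (`add_pow_p` in the ring
`LaurentSeries (El S₁)` of characteristic `p`; `oL (jP (C f)) = C (zeE f)`).
`T₁ := (AS.lift T' Y _).comp Φ`.  `T₁ (cst f) = T' (cst f) = oL (jP (iP f)) = oL (inclL f)` (`jP_iP`).
Equivariance: it is enough to treat `u = ι` (`hι`; `act (j (ι^n))` is the `n`-th iterate).  Let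
`τ₁ : AS p B →+* AS p B` be `AS.aff` with `σ = RingHom.id`, `r = 1`; `hΦι` gives `Φ (act (j ι) x) = τ₁ (Φ x)`.
`(AS.lift T' Y) ∘ τ₁ = actL ι ∘ (AS.lift T' Y)` by `AS.hom_ext`: on `of c` both are `T' c` (`actL_oL`); on
`rt`: `Y + 1`, and `actL ι Y = Y + 1` by `hy₁`.
-/

private theorem C6a_mapL_C {R S : Type} [CommRing R] [CommRing S] (φ : R →+* S) (a : R) :
    AI.mapL φ (HahnSeries.C a) = HahnSeries.C (φ a) := by
  ext n
  rw [AI.mapL_coeff, HahnSeries.C_apply, HahnSeries.C_apply, HahnSeries.coeff_single,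
    HahnSeries.coeff_single]
  split_ifs
  · rfl
  · rw [map_zero]

private theorem C6a_root {p : ℕ} [hp : Fact p.Prime] {κ : Type} [Field κ] [IsAlgClosed κ] (a : κ) :
    ∃ c : κ, c ^ p - c = a := by
  have hd : (X ^ p - X - C a : κ[X]).degree ≠ 0 := by
    have h1 : (X ^ p - X - C a : κ[X]).natDegree = p := by
      have h2 : (X ^ p - X - C a : κ[X]) = X ^ p - (X + C a) := by ring
      have h3 : (X + C a : κ[X]).natDegree < (X ^ p : κ[X]).natDegree := by
        rw [natDegree_X_add_C, natDegree_X_pow]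
        exact hp.out.one_lt
      rw [h2, natDegree_sub_eq_left_of_natDegree_lt h3, natDegree_X_pow]
    intro h4
    have h5 := natDegree_eq_of_degree_eq_some h4
    rw [h1] at h5
    exact hp.out.ne_zero h5
  obtain ⟨c, hc⟩ := IsAlgClosed.exists_root _ hd
  refine ⟨c, ?_⟩
  rw [IsRoot.def, eval_sub, eval_sub, eval_pow, eval_X, eval_C] at hc
  exact sub_eq_zero.1 hc

theorem exists_T1 {p : ℕ} [hp : Fact p.Prime] {κ : Type} [Field κ] [IsAlgClosed κ] [CharP κ p]
    {P P' I : Type} [Group P] [Fintype P] [Group P'] [Fintype P'] [Group I] [Fintype I]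
    (j : I →* P) (ι : I) (hι : ∀ u : I, ∃ n : ℕ, u = ι ^ n) (S' : SC κ[X] P') (b : Al S')
    (h β : (LaurentSeries κ)[X]) (h₁ β₁ : PowerSeries κ[X])
    (hh : iP κ h = HahnSeries.ofPowerSeries ℤ κ[X] h₁) (hh0 : PowerSeries.constantCoeff h₁ = 0)
    (F₁ : κ[X]) (hβ : iP κ β = HahnSeries.ofPowerSeries ℤ κ[X] β₁)
    (hβ0 : PowerSeries.constantCoeff β₁ = F₁) (S₁ : SC κ[X] I) (y₁ : Al S₁)
    (hy₁ : Al.act S₁ ι y₁ = y₁ + 1) (hy₁' : y₁ ^ p - y₁ = Al.cst S₁ F₁)
    (S : SC (LaurentSeries κ)[X] P)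
    (Φ : Al S ≃+* AS p (Al.mapA S' (subK h) b + Al.cst (S'.map (subK h)) β))
    (hΦ : ∀ f, Φ (Al.cst S f) = AS.of p _ (Al.cst (S'.map (subK h)) f))
    (hΦι : ∀ σ : AS p (Al.mapA S' (subK h) b + Al.cst (S'.map (subK h)) β) →+*
        AS p (Al.mapA S' (subK h) b + Al.cst (S'.map (subK h)) β),
      (∀ c, σ (AS.of p _ c) = AS.of p _ c) → σ (AS.rt p _) = AS.rt p _ + 1 →
      ∀ x, Φ (Al.act S (j ι) x) = σ (Φ x)) :
    ∃ T₁ : Al S →+* LaurentSeries (El S₁), (∀ f, T₁ (Al.cst S f) = oL S₁ (inclL κ f)) ∧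
      ∀ u a, T₁ (Al.act S (j u) a) = actL S₁ u (T₁ a) := by
  obtain ⟨φ₀, hφ₀⟩ := exists_point_zero S'
  obtain ⟨τ, hτ1, hτ2⟩ := exists_T0 S' φ₀ hφ₀ h (iP κ)
    (fun c => by rw [iP_C, C6a_mapL_C]) h₁ hh hh0
  obtain ⟨g, hg0, hg⟩ := hτ2 b
  obtain ⟨c₀, hc₀⟩ := C6a_root (p := p) (φ₀ b)
  obtain ⟨δ, hδ⟩ : ∃ δ : PowerSeries κ[X], δ = g - PowerSeries.C (C (φ₀ b)) +
    (β₁ - PowerSeries.C F₁) := ⟨_, rfl⟩
  obtain ⟨η, hη0, hη⟩ := AI.exists_AS_root (p := p) (R := κ[X]) δ (by
    rw [hδ, map_add, map_sub, map_sub, hg0, hβ0, PowerSeries.constantCoeff_C,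
      PowerSeries.constantCoeff_C, sub_self, sub_self, add_zero])
  -- the map on the base algebra
  obtain ⟨T', hT'⟩ : ∃ T' : Al (S'.map (subK h)) →+* LaurentSeries (El S₁),
      ∀ x, T' x = oL S₁ (jP κ (τ x)) := ⟨(oL S₁).comp ((jP κ).comp τ), fun x => rfl⟩
  -- constants
  have hcE : ∀ f : κ[X], oL S₁ (jP κ (HahnSeries.C f)) =
      HahnSeries.C (Al.cst (S₁.map (AI.zinv κ)) (AI.zinv κ f)) := by
    intro f
    rw [jP, C6a_mapL_C, oL, C6a_mapL_C]
    rfl
  -- characteristic `p`
  have hpL : ((p : ℕ) : LaurentSeries κ[X]) = 0 := by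
    rw [← map_natCast (HahnSeries.C : κ[X] →+* LaurentSeries κ[X]) p, CharP.cast_eq_zero, map_zero]
  have hpE : ((p : ℕ) : LaurentSeries (El S₁)) = 0 := by
    rw [← map_natCast ((oL S₁).comp (jP κ)) p, hpL, map_zero]
  obtain ⟨y₁', hy₁'e⟩ : ∃ y₁' : El S₁, y₁' = Al.mapA S₁ (AI.zinv κ) y₁ := ⟨_, rfl⟩
  have hyy : y₁' ^ p - y₁' = Al.cst (S₁.map (AI.zinv κ)) (AI.zinv κ F₁) := by
    rw [hy₁'e, ← map_pow, ← map_sub, hy₁', Al.mapA_cst]
  have hya : actE S₁ ι y₁' = y₁' + 1 := by
    rw [hy₁'e, actE, ← Al.mapA_act, hy₁, map_add, map_one]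
  obtain ⟨w, hw⟩ : ∃ w : LaurentSeries κ[X], w = HahnSeries.C (C c₀) +
    HahnSeries.ofPowerSeries ℤ κ[X] η := ⟨_, rfl⟩
  have hww : w ^ p - w = HahnSeries.C (C (φ₀ b)) + HahnSeries.ofPowerSeries ℤ κ[X] δ := by
    have h2 : (HahnSeries.C (C c₀) : LaurentSeries κ[X]) ^ p - HahnSeries.C (C c₀) =
        HahnSeries.C (C (φ₀ b)) := by
      rw [← map_pow, ← map_pow, ← map_sub, ← map_sub, hc₀]
    have h3 : (HahnSeries.ofPowerSeries ℤ κ[X] η) ^ p - HahnSeries.ofPowerSeries ℤ κ[X] η =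
        HahnSeries.ofPowerSeries ℤ κ[X] δ := by
      rw [← map_pow, ← map_sub, hη]
    rw [hw, add_pow_p hpL, ← h2, ← h3]
    ring
  obtain ⟨Y, hY⟩ : ∃ Y : LaurentSeries (El S₁), Y = HahnSeries.C y₁' + oL S₁ (jP κ w) := ⟨_, rfl⟩
  have hYY : Y ^ p - Y = T' (Al.mapA S' (subK h) b + Al.cst (S'.map (subK h)) β) := by
    have h2 : (HahnSeries.C y₁' : LaurentSeries (El S₁)) ^ p - HahnSeries.C y₁' =
        oL S₁ (jP κ (HahnSeries.C F₁)) := by
      rw [hcE, ← hyy, map_sub, map_pow]
    have h3 : (oL S₁ (jP κ w)) ^ p - oL S₁ (jP κ w) = oL S₁ (jP κ (w ^ p - w)) := by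
      rw [map_sub, map_sub, map_pow, map_pow]
    have h4 : HahnSeries.C F₁ + (HahnSeries.C (C (φ₀ b)) + HahnSeries.ofPowerSeries ℤ κ[X] δ) =
        HahnSeries.ofPowerSeries ℤ κ[X] g + HahnSeries.ofPowerSeries ℤ κ[X] β₁ := by
      rw [← HahnSeries.ofPowerSeries_C, ← HahnSeries.ofPowerSeries_C, ← map_add, ← map_add,
        ← map_add, hδ]
      congr 1
      ring
    calc Y ^ p - Y = ((HahnSeries.C y₁' : LaurentSeries (El S₁)) ^ p - HahnSeries.C y₁') +
          ((oL S₁ (jP κ w)) ^ p - oL S₁ (jP κ w)) := by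
          rw [hY, add_pow_p hpE]
          ring
      _ = oL S₁ (jP κ (HahnSeries.C F₁)) + oL S₁ (jP κ (w ^ p - w)) := by rw [h2, h3]
      _ = oL S₁ (jP κ (HahnSeries.C F₁ + (w ^ p - w))) := by rw [map_add (jP κ), map_add (oL S₁)]
      _ = _ := by
          rw [hww, h4, hT', map_add τ, hg, hτ1, hβ]
  obtain ⟨L, hL1, hL2⟩ : ∃ L : AS p (Al.mapA S' (subK h) b + Al.cst (S'.map (subK h)) β) →+*
      LaurentSeries (El S₁), (∀ a, L (AS.of p _ a) = T' a) ∧ L (AS.rt p _) = Y :=
    ⟨AS.lift T' Y hYY, AS.lift_of T' Y hYY, AS.lift_rt T' Y hYY⟩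
  have hpA : ((p : ℕ) : Al (S'.map (subK h))) = 0 := by
    rw [← map_natCast (Al.cst (S'.map (subK h))) p, ← map_natCast (subK h) p,
      CharP.cast_eq_zero, map_zero, map_zero]
  obtain ⟨τ₁, hτ₁1, hτ₁2⟩ : ∃ τ₁ : AS p (Al.mapA S' (subK h) b + Al.cst (S'.map (subK h)) β) →+*
      AS p (Al.mapA S' (subK h) b + Al.cst (S'.map (subK h)) β),
      (∀ c, τ₁ (AS.of p _ c) = AS.of p _ c) ∧ τ₁ (AS.rt p _) = AS.rt p _ + 1 := by
    have h2 : (RingHom.id (Al (S'.map (subK h)))) (Al.mapA S' (subK h) b +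
        Al.cst (S'.map (subK h)) β) = (Al.mapA S' (subK h) b + Al.cst (S'.map (subK h)) β) +
        ((1 : Al (S'.map (subK h))) ^ p - 1) := by
      rw [one_pow, sub_self, add_zero]
      rfl
    refine ⟨AS.aff hpA (RingHom.id _) 1 h2, fun c => AS.aff_of hpA _ 1 h2 c, ?_⟩
    rw [AS.aff_rt hpA _ 1 h2, map_one]
  have hΦ1 := hΦι τ₁ hτ₁1 hτ₁2
  have hLτ : ∀ x, L (τ₁ x) = actL S₁ ι (L x) := by
    have h2 : L.comp τ₁ = (actL S₁ ι).comp L := by
      refine AS.hom_ext (fun a => ?_) ?_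
      · rw [RingHom.comp_apply, RingHom.comp_apply, hτ₁1, hL1, hT', actL_oL]
      · rw [RingHom.comp_apply, RingHom.comp_apply, hτ₁2, map_add, map_one, hL2, hY, map_add,
          actL_oL]
        have h3 : actL S₁ ι (HahnSeries.C y₁') = HahnSeries.C y₁' + 1 := by
          change AI.mapL (actE S₁ ι) (HahnSeries.C y₁') = _
          rw [C6a_mapL_C, hya, map_add, map_one]
        rw [h3]
        ring
    intro x
    exact RingHom.congr_fun h2 x
  have hone : ∀ a, L (Φ (Al.act S (j ι) a)) = actL S₁ ι (L (Φ a)) := fun a => by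
    rw [hΦ1, hLτ]
  have hpow : ∀ (n : ℕ) (a : Al S), L (Φ (Al.act S (j (ι ^ n)) a)) = actL S₁ (ι ^ n) (L (Φ a)) := by
    intro n
    induction n with
    | zero =>
      intro a
      rw [pow_zero, map_one, Al.act_one_apply, map_one]
      rfl
    | succ n ih =>
      intro a
      rw [pow_succ, map_mul j, Al.act_mul_apply, ih, hone, map_mul]
      rfl
  refine ⟨L.comp (Φ : Al S →+* AS p (Al.mapA S' (subK h) b + Al.cst (S'.map (subK h)) β)),
    fun f => ?_, fun u a => ?_⟩
  · change L (Φ (Al.cst S f)) = _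
    rw [hΦ, hL1, hT', hτ1, jP_iP]
  · obtain ⟨n, rfl⟩ := hι u
    exact hpow n a

end

end Pool.Agent.MP_1c8e06_ag.AJ
end
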