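import Pool.Agent.Lib.MP_1c8e06_ag.Mg.G052
import Pool.Agent.Lib.MP_1c8e06_ag.Mg.G096
import Pool.Agent.Lib.MP_1c8e06_ag.Mg.G049
import Pool.Agent.Lib.MP_1c8e06_ag.Mg.G047
import Pool.Agent.Lib.MP_1c8e06_ag.AJ.Defs4
import Pool.Agent.Lib.MP_1c8e06_ag.AJ.Defs5

section

set_option autoImplicit false

open Polynomial
open scoped Classical

namespace Pool.Agent.MP_1c8e06_ag.AJ

noncomputable section

/-!
# Task C6b: the second disc in the construction with small inertia

Notation: `K = κ((t))`, `S'_h := S'.map (subK h)`, `B := Al.mapA S' (subK h) b + Al.cst S'_h β`.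
Proof.  `T` from `exists_T S₂ h` with `ρ := (iP κ).comp (trP κ)`: `T : Al (S₂.map (subK h)) →+* LaurentSeries (El S₂)`,
`T (cst f) = oL (jP (iP (trP f))) = oL (inclL (trP f))` (`jP_iP`), equivariant.
`J_h : Al S'_h →+* Al (S₂.map (subK h))` := `Al.lift` with `e l ↦ Al.mapA S₂ (subK h) (J (e l))`, so
`J_h (Al.mapA S' (subK h) c) = Al.mapA S₂ (subK h) (J c)`, `J_h (cst f) = cst f`.
`T' := T.comp J_h`, `y_h := Al.mapA S₂ (subK h) y`: `y_h^p - y_h = J_h (mapA b)`.
`AI.exists_AS_root` for `β₂` (`CharP κ[X] p`): `η₂^p - η₂ = β₂`.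
`Y := T y_h + oL (jP (ofPowerSeries η₂))`; `Y^p - Y = T (J_h (mapA b)) + oL (jP (iP (trP β))) = T' B`.
`T₂ := (AS.lift T' Y _).comp Φ`.
Equivariance: for `u : P` let `σ_u := AS.aff (act S'_h (q u)) (mapA (a u)) _ : AS p B →+* AS p B`
(`act (q u) B = B + (mapA (a u))^p - mapA (a u)` by `hb`, `Al.mapA_act`, `Al.act_cst`).  `hΦa`:
`Φ (act u x) = σ_u (Φ x)`.  `(AS.lift T' Y) ∘ σ_u = actL u ∘ (AS.lift T' Y)` by `AS.hom_ext`: on `of c`:
`T' (act (q u) c) = actL u (T' c)` (`J_h (act (q u) c) = act u (J_h c)`: check on `cst` and on `mapA (e l)` by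
`hJa`); on `rt`: `Y + T' (mapA (a u))`, and `actL u Y = T (act u y_h) + .. = T (y_h + mapA (J (a u))) + ..`.
-/

theorem exists_T2 {p : ℕ} [hp : Fact p.Prime] {κ : Type} [Field κ] [CharP κ p]
    {P P' : Type} [Group P] [Fintype P] [Group P'] [Fintype P'] (q : P →* P')
    (S₂ : SC κ[X] P) (S' : SC κ[X] P') (J : Al S' →+* Al S₂) (y : Al S₂) (a : P → Al S')
    (b : Al S') (hJ : ∀ f, J (Al.cst S' f) = Al.cst S₂ f)
    (hJa : ∀ u c, J (Al.act S' (q u) c) = Al.act S₂ u (J c))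
    (hy : ∀ u, Al.act S₂ u y = y + J (a u)) (hyb : y ^ p - y = J b)
    (hb : ∀ u, Al.act S' (q u) b = b + (a u ^ p - a u))
    (h β : (LaurentSeries κ)[X]) (h₂ β₂ : PowerSeries κ[X])
    (hh : iP κ (trP κ h) = HahnSeries.ofPowerSeries ℤ κ[X] h₂)
    (hh0 : PowerSeries.constantCoeff h₂ = X)
    (hβ : iP κ (trP κ β) = HahnSeries.ofPowerSeries ℤ κ[X] β₂)
    (hβ0 : PowerSeries.constantCoeff β₂ = 0) (S : SC (LaurentSeries κ)[X] P)
    (Φ : Al S ≃+* AS p (Al.mapA S' (subK h) b + Al.cst (S'.map (subK h)) β))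
    (hΦ : ∀ f, Φ (Al.cst S f) = AS.of p _ (Al.cst (S'.map (subK h)) f))
    (hΦa : ∀ u, ∀ σ : AS p (Al.mapA S' (subK h) b + Al.cst (S'.map (subK h)) β) →+*
        AS p (Al.mapA S' (subK h) b + Al.cst (S'.map (subK h)) β),
      (∀ c, σ (AS.of p _ c) = AS.of p _ (Al.act (S'.map (subK h)) (q u) c)) →
      σ (AS.rt p _) = AS.rt p _ + AS.of p _ (Al.mapA S' (subK h) (a u)) →
      ∀ x, Φ (Al.act S u x) = σ (Φ x)) :
    ∃ T₂ : Al S →+* LaurentSeries (El S₂), (∀ f, T₂ (Al.cst S f) = oL S₂ (inclL κ (trP κ f))) ∧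
      ∀ u x, T₂ (Al.act S u x) = actL S₂ u (T₂ x) := by
  have hρ : ∀ c : κ, ((iP κ).comp (trP κ)) (C (HahnSeries.C c)) = HahnSeries.C (C c) := by
    intro c
    rw [RingHom.comp_apply]
    have h1 : trP κ (C (HahnSeries.C c)) = C (HahnSeries.C c) := by
      rw [trP, Polynomial.coe_compRingHom_apply, Polynomial.C_comp]
    rw [h1, iP_C]
    ext n
    rw [AI.mapL_coeff, HahnSeries.C_apply, HahnSeries.C_apply, HahnSeries.coeff_single,
      HahnSeries.coeff_single]
    split_ifs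
    · rfl
    · rw [map_zero]
  obtain ⟨T, hT1, hT2⟩ := exists_T S₂ h ((iP κ).comp (trP κ)) hρ h₂
    (by rw [RingHom.comp_apply, hh]) hh0
  -- the map `J_h`
  have e1 : ∀ i j, Al.mapA S₂ (subK h) (J (Al.e S' i)) * Al.mapA S₂ (subK h) (J (Al.e S' j)) =
      ∑ l, Al.cst (S₂.map (subK h)) ((S'.map (subK h)).μ i j l) *
        Al.mapA S₂ (subK h) (J (Al.e S' l)) := by
    intro i j
    rw [← map_mul, ← map_mul, Al.e_mul_e, map_sum, map_sum]
    refine Finset.sum_congr rfl fun l _ => ?_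
    rw [map_mul, map_mul, hJ, Al.mapA_cst]
    rfl
  have e2 : ∑ l, Al.cst (S₂.map (subK h)) ((S'.map (subK h)).ν l) *
      Al.mapA S₂ (subK h) (J (Al.e S' l)) = 1 := by
    have h1 : Al.mapA S₂ (subK h) (J 1) = 1 := by rw [map_one, map_one]
    rw [Al.one_eq_sum S', map_sum, map_sum] at h1
    rw [← h1]
    refine Finset.sum_congr rfl fun l _ => ?_
    rw [map_mul, map_mul, hJ, Al.mapA_cst]
    rfl
  obtain ⟨Jh, hJh1, hJh2⟩ : ∃ Jh : Al (S'.map (subK h)) →+* Al (S₂.map (subK h)),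
      (∀ f, Jh (Al.cst (S'.map (subK h)) f) = Al.cst (S₂.map (subK h)) f) ∧
      ∀ l, Jh (Al.e (S'.map (subK h)) l) = Al.mapA S₂ (subK h) (J (Al.e S' l)) :=
    ⟨Al.lift (S'.map (subK h)) (Al.cst (S₂.map (subK h)))
      (fun l => Al.mapA S₂ (subK h) (J (Al.e S' l))) e1 e2,
      fun f => Al.lift_cst _ _ _ _ _ f, fun l => Al.lift_e _ _ _ _ _ l⟩
  have hJm : ∀ c : Al S', Jh (Al.mapA S' (subK h) c) = Al.mapA S₂ (subK h) (J c) := by
    have h1 : Jh.comp (Al.mapA S' (subK h)) = (Al.mapA S₂ (subK h)).comp J := by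
      refine Al.hom_ext S' (fun f => ?_) (fun l => ?_)
      · rw [RingHom.comp_apply, RingHom.comp_apply, Al.mapA_cst, hJh1, hJ, Al.mapA_cst]
      · rw [RingHom.comp_apply, RingHom.comp_apply, Al.mapA_e, hJh2]
    intro c
    exact congrArg (fun g : Al S' →+* Al (S₂.map (subK h)) => g c) h1
  have hJact : ∀ (u : P) (c : Al (S'.map (subK h))),
      Jh (Al.act (S'.map (subK h)) (q u) c) = Al.act (S₂.map (subK h)) u (Jh c) := by
    intro u
    have h1 : Jh.comp (Al.act (S'.map (subK h)) (q u)) =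
        (Al.act (S₂.map (subK h)) u).comp Jh := by
      refine Al.hom_ext (S'.map (subK h)) (fun f => ?_) (fun l => ?_)
      · rw [RingHom.comp_apply, RingHom.comp_apply, Al.act_cst, hJh1, Al.act_cst]
      · rw [RingHom.comp_apply, RingHom.comp_apply, ← Al.mapA_e, ← Al.mapA_act, hJm, hJm, hJa,
          Al.mapA_act]
    intro c
    exact congrArg (fun g : Al (S'.map (subK h)) →+* Al (S₂.map (subK h)) => g c) h1
  have hyh : (Al.mapA S₂ (subK h) y) ^ p - Al.mapA S₂ (subK h) y =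
      Jh (Al.mapA S' (subK h) b) := by
    rw [hJm, ← hyb, map_sub, map_pow]
  obtain ⟨η₂, hη0, hη⟩ := AI.exists_AS_root (p := p) β₂ hβ0
  have hp0 : ((p : ℕ) : LaurentSeries (El S₂)) = 0 := by
    rw [← map_natCast ((oL S₂).comp ((jP κ).comp
      ((HahnSeries.C : κ[X] →+* LaurentSeries κ[X]).comp (Polynomial.C : κ →+* κ[X])))) p,
      CharP.cast_eq_zero, map_zero]
  set w : LaurentSeries (El S₂) := oL S₂ (jP κ (HahnSeries.ofPowerSeries ℤ κ[X] η₂)) with hw
  have hwp : w ^ p - w = oL S₂ (jP κ (HahnSeries.ofPowerSeries ℤ κ[X] β₂)) := by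
    rw [hw, ← map_pow, ← map_sub, ← map_pow, ← map_sub, ← map_pow, ← map_sub, hη]
  have hTc : ∀ f, T (Jh (Al.cst (S'.map (subK h)) f)) = oL S₂ (jP κ (iP κ (trP κ f))) := by
    intro f
    rw [hJh1, hT1]
    rfl
  have hY : (T (Al.mapA S₂ (subK h) y) + w) ^ p - (T (Al.mapA S₂ (subK h) y) + w) =
      (T.comp Jh) (Al.mapA S' (subK h) b + Al.cst (S'.map (subK h)) β) := by
    rw [map_add, RingHom.comp_apply, RingHom.comp_apply, hTc, hβ, ← hwp, ← hyh, map_sub, map_pow,
      add_pow_p hp0]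
    ring
  refine ⟨(AS.lift (T.comp Jh) (T (Al.mapA S₂ (subK h) y) + w) hY).comp (Φ : Al S →+* _),
    fun f => ?_, fun u x => ?_⟩
  · rw [RingHom.comp_apply, RingHom.coe_coe, hΦ, AS.lift_of, RingHom.comp_apply, hTc, jP_iP]
  · have hpA : ((p : ℕ) : Al (S'.map (subK h))) = 0 := by
      rw [← map_natCast ((Al.cst (S'.map (subK h))).comp ((subK h).comp
        (Polynomial.C : κ →+* κ[X]))) p, CharP.cast_eq_zero, map_zero]
    have hσ : Al.act (S'.map (subK h)) (q u)
        (Al.mapA S' (subK h) b + Al.cst (S'.map (subK h)) β) =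
        (Al.mapA S' (subK h) b + Al.cst (S'.map (subK h)) β) +
          ((Al.mapA S' (subK h) (a u)) ^ p - Al.mapA S' (subK h) (a u)) := by
      rw [map_add, Al.act_cst, ← Al.mapA_act, hb, map_add, map_sub, map_pow]
      ring
    have h1 := hΦa u (AS.aff hpA (Al.act (S'.map (subK h)) (q u)) (Al.mapA S' (subK h) (a u)) hσ)
      (fun c => AS.aff_of hpA _ _ hσ c) (AS.aff_rt hpA _ _ hσ) x
    rw [RingHom.comp_apply, RingHom.comp_apply, RingHom.coe_coe, h1]
    generalize Φ x = z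
    have h2 : (AS.lift (T.comp Jh) (T (Al.mapA S₂ (subK h) y) + w) hY).comp
        (AS.aff hpA (Al.act (S'.map (subK h)) (q u)) (Al.mapA S' (subK h) (a u)) hσ) =
        (actL S₂ u).comp (AS.lift (T.comp Jh) (T (Al.mapA S₂ (subK h) y) + w) hY) := by
      refine AS.hom_ext (fun c => ?_) ?_
      · rw [RingHom.comp_apply, RingHom.comp_apply, AS.aff_of, AS.lift_of, AS.lift_of,
          RingHom.comp_apply, RingHom.comp_apply, hJact, hT2]
      · rw [RingHom.comp_apply, RingHom.comp_apply, AS.aff_rt, map_add, AS.lift_rt, AS.lift_of,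
          RingHom.comp_apply, hJm, map_add, ← hT2, ← Al.mapA_act, hy, map_add, map_add, hw,
          actL_oL]
        ring
    exact congrArg (fun g => g z) h2

end

end Pool.Agent.MP_1c8e06_ag.AJ
end

section

set_option autoImplicit false

open Polynomial
open scoped Classical

namespace Pool.Agent.MP_1c8e06_ag.AJ

noncomputable section

/-!
# Task C3c: the certificate of total ramification under pull back

Proof.  For `χ` take `y, F` from `hT`; use `Al.mapA S (subK h) y` and `subK h F`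
(`Al.mapA_act`, `Al.mapA_cst`).  `subK h F = (F.map C).comp h`, so its degree is
`F.natDegree * h.natDegree` (`natDegree_comp`, `natDegree_map_eq_of_injective`), prime to `p`.
-/

theorem natDegree_subK {κ : Type} [Field κ] (h : (LaurentSeries κ)[X]) (F : κ[X]) :
    (subK h F).natDegree = F.natDegree * h.natDegree := by
  have h1 : subK h F = (F.map (HahnSeries.C : κ →+* LaurentSeries κ)).comp h := by
    rw [subK, Polynomial.coe_eval₂RingHom, Polynomial.comp, Polynomial.eval₂_map]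
  rw [h1, Polynomial.natDegree_comp,
    Polynomial.natDegree_map_eq_of_injective (HahnSeries.C : κ →+* LaurentSeries κ).injective]

theorem TC_map {p : ℕ} [hp : Fact p.Prime] {κ : Type} [Field κ] {P : Type} [Group P] [Fintype P]
    (S : SC κ[X] P) (hT : TC p S) (h : (LaurentSeries κ)[X]) (hd : ¬ p ∣ h.natDegree) :
    TC p (S.map (subK h)) := by
  intro χ h1 h2
  obtain ⟨y, F, hF, hy, hyp⟩ := hT χ h1 h2
  refine ⟨Al.mapA S (subK h) y, subK h F, ?_, ?_, ?_⟩
  · rw [natDegree_subK, hp.out.dvd_mul]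
    exact fun hc => hc.elim hF hd
  · intro u
    rw [← Al.mapA_act, hy u, map_add, map_natCast]
  · rw [← map_pow, ← map_sub, hyp, Al.mapA_cst]

end

end Pool.Agent.MP_1c8e06_ag.AJ
end

section

set_option autoImplicit false

open Polynomial
open scoped Classical

namespace Pool.Agent.MP_1c8e06_ag.AJ

noncomputable section

/-!
# Task C6c: the certificate of total ramification in the construction with small inertia

Proof.  For every additive `χ : P → ZMod p`, `χ ≠ 0`, choose `y_χ, F_χ` from `hT` (finitely many `χ`), and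
`d₀ := max of the F_χ.natDegree`, plus `1`.  Let `χ` be given, `c := (χ ι₀).val : ℕ`.
`w₀ := y_χ - c * y ∈ Al S₂` is fixed by `act ι₀` (`act ι₀ y = y + J (a ι₀) = y + 1`), hence by the kernel of `q`
(`hker`), so `w₀ = J w`.  For all `u`: `J (act (q u) w) = act u w₀ = w₀ + χ(u) - c * J (a u)`, so
`act (q u) w = w + χ(u) - c * a u` (`J` injective).
In `AS p B` (notation of `AJ/C6b.lean`) put `Y := c * rt + of (mapA w)`.  By `hΦa` with `σ = σ_u` (`AS.aff`),
`Φ (act u (Φ⁻¹ Y)) = c * (rt + of (mapA (a u))) + of (mapA (w + χ(u) - c * a u)) = Y + χ(u)`.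
`Y^p - Y = c * (rt^p - rt) + of (mapA (w^p - w)) = of (c * (mapA b + cst β) + mapA (w^p - w))` (`c^p = c` in
characteristic `p`).  Since `J (c b + w^p - w) = c (y^p - y) + w₀^p - w₀ = y_χ^p - y_χ = cst F_χ`, we have
`c b + w^p - w = cst F_χ` and `Y^p - Y = of (cst (subK h F_χ + c * β))`.
The degree: if `c = 0` it is `F_χ.natDegree * h.natDegree` (`natDegree_subK`), prime to `p`; if `c ≠ 0` (in
`κ((t))`) it is `β.natDegree`, because `F_χ.natDegree * h.natDegree < β.natDegree`.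
The element of `Al S` is `Φ.symm Y`, and `F := subK h F_χ + c * β`.
-/

private theorem C6c_cpow {p : ℕ} [hp : Fact p.Prime] {A : Type} [CommRing A] (h0 : (p : A) = 0)
    (c : ℕ) : (c : A) ^ p = (c : A) := by
  have h1 : (((c : ℤ) ^ p - (c : ℤ) : ℤ) : ZMod p) = 0 := by
    push_cast
    rw [ZMod.pow_card, sub_self]
  obtain ⟨m, hm⟩ := (ZMod.intCast_zmod_eq_zero_iff_dvd _ p).1 h1
  have h2 : (((c : ℤ) ^ p - (c : ℤ) : ℤ) : A) = (((p : ℤ) * m : ℤ) : A) := by rw [hm]
  push_cast at h2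
  rw [h0, zero_mul] at h2
  exact sub_eq_zero.1 h2

/-- The identity `Y ^ p - Y` for `Y = w + c y`. -/
private theorem C6c_AS {p : ℕ} [hp : Fact p.Prime] {A : Type} [CommRing A] (h0 : (p : A) = 0)
    (c : ℕ) (w y : A) : ((c : A) * y + w) ^ p - ((c : A) * y + w) =
      (c : A) * (y ^ p - y) + (w ^ p - w) := by
  rw [add_pow_p h0, mul_pow, C6c_cpow h0]
  ring

private theorem C6c_ring {A : Type} [CommRing A] (c r a w v : A) :
    c * (r + a) + (w + v - c * a) = c * r + w + v := by ring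

private theorem C6c_ring2 {A : Type} [CommRing A] (c m v e : A) :
    c * (m + v) + e = c * m + e + c * v := by ring

theorem twist_TC {p : ℕ} [hp : Fact p.Prime] {κ : Type} [Field κ] [CharP κ p]
    {P P' : Type} [Group P] [Fintype P] [Group P'] [Fintype P'] (q : P →* P')
    (ι₀ : P) (hι₀ : q ι₀ = 1) (hker : ∀ u, q u = 1 → ∃ n : ℕ, u = ι₀ ^ n)
    (S₂ : SC κ[X] P) (hT : TC p S₂) (S' : SC κ[X] P') (J : Al S' →+* Al S₂) (y : Al S₂)
    (a : P → Al S') (b : Al S') (hJi : Function.Injective J)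
    (hJ : ∀ f, J (Al.cst S' f) = Al.cst S₂ f)
    (hJa : ∀ u c, J (Al.act S' (q u) c) = Al.act S₂ u (J c))
    (hJs : ∀ c, (∀ u, q u = 1 → Al.act S₂ u c = c) → ∃ c', J c' = c)
    (hy : ∀ u, Al.act S₂ u y = y + J (a u)) (hyb : y ^ p - y = J b) (ha0 : a ι₀ = 1)
    (hb : ∀ u, Al.act S' (q u) b = b + (a u ^ p - a u)) :
    ∃ d₀ : ℕ, ∀ (h β : (LaurentSeries κ)[X]), ¬ p ∣ h.natDegree → ¬ p ∣ β.natDegree →
      d₀ * h.natDegree < β.natDegree → ∀ (S : SC (LaurentSeries κ)[X] P)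
      (Φ : Al S ≃+* AS p (Al.mapA S' (subK h) b + Al.cst (S'.map (subK h)) β)),
      (∀ f, Φ (Al.cst S f) = AS.of p _ (Al.cst (S'.map (subK h)) f)) →
      (∀ u, ∀ σ : AS p (Al.mapA S' (subK h) b + Al.cst (S'.map (subK h)) β) →+*
          AS p (Al.mapA S' (subK h) b + Al.cst (S'.map (subK h)) β),
        (∀ c, σ (AS.of p _ c) = AS.of p _ (Al.act (S'.map (subK h)) (q u) c)) →
        σ (AS.rt p _) = AS.rt p _ + AS.of p _ (Al.mapA S' (subK h) (a u)) →
        ∀ x, Φ (Al.act S u x) = σ (Φ x)) →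
      TC p S := by
  choose! yc Fc h1 h2 h3 using hT
  refine ⟨∑ χ : P → ZMod p, (Fc χ).natDegree, ?_⟩
  intro h β hdh hdβ hlt S
  generalize hB : Al.mapA S' (subK h) b + Al.cst (S'.map (subK h)) β = B
  intro Φ hΦ hΦa χ hχ hχ0
  set c : ℕ := (χ ι₀).val with hc
  have hp2 : (p : Al S₂) = 0 := charP_Al S₂
  have hw0 : ∀ u, Al.act S₂ u (yc χ - (c : Al S₂) * y) =
      (yc χ - (c : Al S₂) * y) + (((χ u).val : ℕ) : Al S₂) - (c : Al S₂) * J (a u) := by
    intro u
    rw [map_sub, map_mul, map_natCast, h2 χ hχ hχ0 u, hy u]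
    ring
  have hw1 : ∀ u, q u = 1 → Al.act S₂ u (yc χ - (c : Al S₂) * y) = yc χ - (c : Al S₂) * y := by
    intro u hu
    obtain ⟨n, rfl⟩ := hker u hu
    clear hu
    induction n with
    | zero => rw [pow_zero, Al.act_one_apply]
    | succ n ih =>
      rw [pow_succ, Al.act_mul_apply, hw0 ι₀, ha0, map_one, ← hc]
      rw [show yc χ - (c : Al S₂) * y + (c : Al S₂) - (c : Al S₂) * 1 = yc χ - (c : Al S₂) * y by ring]
      exact ih
  obtain ⟨w, hw⟩ := hJs _ hw1
  have hw2 : ∀ u, Al.act S' (q u) w = w + (((χ u).val : ℕ) : Al S') - (c : Al S') * a u := by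
    intro u
    apply hJi
    rw [hJa, hw, hw0, map_sub, map_add, map_mul, map_natCast, map_natCast, hw]
  have hw3 : (c : Al S') * b + (w ^ p - w) = Al.cst S' (Fc χ) := by
    apply hJi
    rw [hJ, ← h3 χ hχ hχ0, map_add, map_mul, map_natCast, map_sub, map_pow, hw, ← hyb,
      ← C6c_AS hp2 c]
    rw [show (c : Al S₂) * y + (yc χ - (c : Al S₂) * y) = yc χ by ring]
  have hpA : (p : Al (S'.map (subK h))) = 0 := by
    have h5 : (p : Al S') = 0 := charP_Al S'
    rw [← map_natCast (Al.mapA S' (subK h)) p, h5, map_zero]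
  have hpY : (p : AS p B) = 0 := by
    rw [← map_natCast (AS.of p B) p, hpA, map_zero]
  have hB1 : ∀ u, Al.act (S'.map (subK h)) (q u) B =
      B + ((Al.mapA S' (subK h) (a u)) ^ p - Al.mapA S' (subK h) (a u)) := by
    intro u
    rw [← hB, map_add, ← Al.mapA_act, hb, Al.act_cst, map_add, map_sub, map_pow]
    ring
  have hW2 : ∀ u, Al.act (S'.map (subK h)) (q u) (Al.mapA S' (subK h) w) =
      Al.mapA S' (subK h) w + (((χ u).val : ℕ) : Al (S'.map (subK h))) -
        (c : Al (S'.map (subK h))) * Al.mapA S' (subK h) (a u) := by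
    intro u
    rw [← Al.mapA_act, hw2, map_sub, map_add, map_mul, map_natCast, map_natCast]
  have hW3 : (c : Al (S'.map (subK h))) * Al.mapA S' (subK h) b +
      ((Al.mapA S' (subK h) w) ^ p - Al.mapA S' (subK h) w) =
      Al.cst (S'.map (subK h)) (subK h (Fc χ)) := by
    rw [← Al.mapA_cst, ← hw3, map_add, map_mul, map_natCast, map_sub, map_pow]
  refine ⟨Φ.symm ((c : AS p B) * AS.rt p B + AS.of p B (Al.mapA S' (subK h) w)),
    subK h (Fc χ) + (c : (LaurentSeries κ)[X]) * β, ?_, ?_, ?_⟩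
  · have hdF : (subK h (Fc χ)).natDegree = (Fc χ).natDegree * h.natDegree := natDegree_subK h _
    by_cases hc0 : c = 0
    · rw [hc0, Nat.cast_zero, zero_mul, add_zero, hdF]
      intro hd
      rcases hp.out.dvd_mul.1 hd with hd | hd
      · exact h1 χ hχ hχ0 hd
      · exact hdh hd
    · have hcκ : (c : κ) ≠ 0 := by
        rw [Ne, CharP.cast_eq_zero_iff κ p]
        intro hd
        exact absurd (Nat.le_of_dvd (Nat.pos_of_ne_zero hc0) hd) (not_le.2 (ZMod.val_lt _))
      have hcK : (c : LaurentSeries κ) ≠ 0 := by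
        intro h6
        apply hcκ
        apply HahnSeries.C_injective (Γ := ℤ)
        rw [map_natCast, map_zero]
        exact h6
      have hcβ : ((c : (LaurentSeries κ)[X]) * β).natDegree = β.natDegree := by
        rw [← map_natCast (C : LaurentSeries κ →+* (LaurentSeries κ)[X]) c]
        exact natDegree_C_mul hcK
      rw [natDegree_add_eq_right_of_natDegree_lt, hcβ]
      · exact hdβ
      · rw [hcβ, hdF]
        refine lt_of_le_of_lt (Nat.mul_le_mul_right _ ?_) hlt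
        exact Finset.single_le_sum (f := fun χ : P → ZMod p => (Fc χ).natDegree)
          (fun _ _ => Nat.zero_le _) (Finset.mem_univ χ)
  · intro u
    apply Φ.injective
    rw [hΦa u (AS.aff hpA (Al.act (S'.map (subK h)) (q u)) (Al.mapA S' (subK h) (a u)) (hB1 u))
      (fun c => AS.aff_of _ _ _ _ c) (AS.aff_rt _ _ _ _), map_add Φ, RingEquiv.apply_symm_apply,
      map_natCast Φ]
    have e1 : AS.aff hpA (Al.act (S'.map (subK h)) (q u)) (Al.mapA S' (subK h) (a u)) (hB1 u)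
        ((c : AS p B) * AS.rt p B + AS.of p B (Al.mapA S' (subK h) w)) =
        (c : AS p B) * (AS.rt p B + AS.of p B (Al.mapA S' (subK h) (a u))) +
          (AS.of p B (Al.mapA S' (subK h) w) + (((χ u).val : ℕ) : AS p B) -
            (c : AS p B) * AS.of p B (Al.mapA S' (subK h) (a u))) := by
      rw [map_add, map_mul, map_natCast, AS.aff_of, AS.aff_rt, hW2, map_sub, map_add, map_mul,
        map_natCast, map_natCast]
    rw [e1]
    exact C6c_ring _ _ _ _ _
  · apply Φ.injective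
    rw [map_sub, map_pow, RingEquiv.apply_symm_apply, C6c_AS hpY, AS.rt_eq, hΦ, ← map_pow,
      ← map_sub, ← map_natCast (AS.of p B) c, ← map_mul, ← map_add]
    congr 1
    rw [map_add, ← hW3, ← hB, map_mul, map_natCast]
    ring

end

end Pool.Agent.MP_1c8e06_ag.AJ
end

section

set_option autoImplicit false

open Polynomial
open scoped Classical

namespace Pool.Agent.MP_1c8e06_ag.AJ

noncomputable section

/-!
# Task E1: the filtration `Fl` on `El S`

`Fl S N a`: all coordinates of `a` vanish below `N`.  Proofs: coordinates.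
`Fl.mul`: the coordinates of `a * b` are `∑_{i,j} a i * b j * zinv (μ i j l)` (`Al.mul_apply`), and `zinv f` vanishes
below `- f.natDegree` (`AI.zinv_coeff`).  Products of
Laurent series vanishing below `N` and `M` vanish below `N + M` (`HahnSeries.coeff_mul`).
`Fl.act`: the same with `α` (`Al.act_apply`).  `Fl.oE_mul`: `Al.cst_mul`.  `Fl.exists`: orders.
-/

variable {R : Type} [CommRing R] {P : Type} [Group P] [Fintype P] {S : SC R[X] P}

private theorem E1_mul {M N : ℤ} {c d : LaurentSeries R} (hc : ∀ n < M, c.coeff n = 0)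
    (hd : ∀ n < N, d.coeff n = 0) : ∀ n < M + N, (c * d).coeff n = 0 := by
  intro n hn
  rw [HahnSeries.coeff_mul]
  refine Finset.sum_eq_zero fun ij hij => ?_
  rw [Finset.mem_antidiagonal] at hij
  obtain ⟨h1, h2, h3⟩ := hij
  exfalso
  by_cases h : ij.1 < M
  · exact h1 (hc _ h)
  · exact h2 (hd _ (by omega))

private theorem E1_zinv {f : R[X]} {c₀ : ℕ} (hf : f.natDegree ≤ c₀) :
    ∀ n < (-(c₀ : ℤ)), (AI.zinv R f).coeff n = 0 := by
  intro n hn
  rw [AI.zinv_coeff, if_pos (by omega)]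
  refine Polynomial.coeff_eq_zero_of_natDegree_lt ?_
  omega

private theorem E1_sum {ι : Type} (s : Finset ι) {N : ℤ} {f : ι → LaurentSeries R}
    (h : ∀ j ∈ s, ∀ n < N, (f j).coeff n = 0) : ∀ n < N, (∑ j ∈ s, f j).coeff n = 0 := by
  intro n hn
  rw [HahnSeries.coeff_sum]
  exact Finset.sum_eq_zero fun j hj => h j hj n hn

theorem Fl.mono {N M : ℤ} {a : El S} (h : Fl S M a) (hNM : N ≤ M) : Fl S N a := by
  intro l n hn
  exact h l n (by omega)

theorem Fl.zero (N : ℤ) : Fl S N 0 := by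
  intro l n _
  rfl

theorem Fl.add {N : ℤ} {a b : El S} (ha : Fl S N a) (hb : Fl S N b) : Fl S N (a + b) := by
  intro l n hn
  rw [Al.add_apply, HahnSeries.coeff_add, ha l n hn, hb l n hn, add_zero]

theorem Fl.neg {N : ℤ} {a : El S} (ha : Fl S N a) : Fl S N (-a) := by
  intro l n hn
  rw [Al.neg_apply, HahnSeries.coeff_neg, ha l n hn, neg_zero]

theorem Fl.sub {N : ℤ} {a b : El S} (ha : Fl S N a) (hb : Fl S N b) : Fl S N (a - b) := by
  rw [sub_eq_add_neg]
  exact ha.add hb.neg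

theorem Fl.sum {ι : Type} (s : Finset ι) {N : ℤ} {f : ι → El S} (h : ∀ j ∈ s, Fl S N (f j)) :
    Fl S N (∑ j ∈ s, f j) := by
  intro l n hn
  rw [Al.sum_apply, HahnSeries.coeff_sum]
  exact Finset.sum_eq_zero fun j hj => h j hj l n hn

theorem Fl.exists (a : El S) : ∃ N : ℤ, Fl S N a := by
  have h1 : ∀ l : P, ∃ N : ℤ, ∀ n < N, (a l : LaurentSeries R).coeff n = 0 := fun l =>
    ⟨(a l : LaurentSeries R).order, fun n hn => HahnSeries.coeff_eq_zero_of_lt_order hn⟩
  choose N hN using h1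
  refine ⟨Finset.univ.inf' ⟨1, Finset.mem_univ 1⟩ N, fun l n hn => hN l n ?_⟩
  exact hn.trans_le (Finset.inf'_le _ (Finset.mem_univ l))

theorem Fl.sep {a : El S} (h : ∀ N : ℤ, Fl S N a) : a = 0 := by
  refine Al.ext fun l => ?_
  refine HahnSeries.ext (funext fun n => ?_)
  exact h (n + 1) l n (by omega)

theorem Fl.oE_mul {M N : ℤ} {c : LaurentSeries R} {a : El S} (hc : ∀ n < M, c.coeff n = 0)
    (ha : Fl S N a) : Fl S (M + N) (oE S c * a) := by
  intro l
  rw [oE, Al.cst_mul]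
  exact E1_mul hc (ha l)

theorem Fl.mul {c₀ : ℕ} (hc : ∀ i j l, (S.μ i j l).natDegree ≤ c₀) {N M : ℤ} {a b : El S}
    (ha : Fl S N a) (hb : Fl S M b) : Fl S (N + M - c₀) (a * b) := by
  intro l
  rw [Al.mul_apply]
  refine E1_sum _ fun i _ => E1_sum _ fun j _ => ?_
  exact E1_mul (E1_mul (ha i) (hb j)) (E1_zinv (hc i j l))

theorem Fl.act {c₀ : ℕ} (hc : ∀ h l m, (S.α h l m).natDegree ≤ c₀) {N : ℤ} {a : El S} (u : P)
    (ha : Fl S N a) : Fl S (N - c₀) (actE S u a) := by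
  intro l
  rw [actE, Al.act_apply]
  refine E1_sum _ fun i _ => ?_
  exact E1_mul (ha i) (E1_zinv (hc u i l))

theorem Fl.e (l : P) : Fl S 0 (Al.e (S.map (AI.zinv R)) l : El S) := by
  intro m n hn
  change (if l = m then (1 : LaurentSeries R) else 0).coeff n = 0
  split_ifs
  · rw [HahnSeries.coeff_one, if_neg (by omega)]
  · rfl

variable (S) in
theorem Fl.exists_bound : ∃ c₀ : ℕ, (∀ i j l, (S.μ i j l).natDegree ≤ c₀) ∧
    (∀ h l m, (S.α h l m).natDegree ≤ c₀) ∧ ∀ l, (S.ν l).natDegree ≤ c₀ := by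
  refine ⟨(∑ i, ∑ j, ∑ l, (S.μ i j l).natDegree) + (∑ h, ∑ l, ∑ m, (S.α h l m).natDegree) +
    ∑ l, (S.ν l).natDegree, ?_, ?_, ?_⟩
  · intro i j l
    have h1 : (S.μ i j l).natDegree ≤ ∑ l, (S.μ i j l).natDegree :=
      Finset.single_le_sum (f := fun l => (S.μ i j l).natDegree) (fun _ _ => Nat.zero_le _)
        (Finset.mem_univ l)
    have h2 : ∑ l, (S.μ i j l).natDegree ≤ ∑ j, ∑ l, (S.μ i j l).natDegree :=
      Finset.single_le_sum (f := fun j => ∑ l, (S.μ i j l).natDegree) (fun _ _ => Nat.zero_le _)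
        (Finset.mem_univ j)
    have h3 : ∑ j, ∑ l, (S.μ i j l).natDegree ≤ ∑ i, ∑ j, ∑ l, (S.μ i j l).natDegree :=
      Finset.single_le_sum (f := fun i => ∑ j, ∑ l, (S.μ i j l).natDegree)
        (fun _ _ => Nat.zero_le _) (Finset.mem_univ i)
    omega
  · intro i j l
    have h1 : (S.α i j l).natDegree ≤ ∑ l, (S.α i j l).natDegree :=
      Finset.single_le_sum (f := fun l => (S.α i j l).natDegree) (fun _ _ => Nat.zero_le _)
        (Finset.mem_univ l)
    have h2 : ∑ l, (S.α i j l).natDegree ≤ ∑ j, ∑ l, (S.α i j l).natDegree :=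
      Finset.single_le_sum (f := fun j => ∑ l, (S.α i j l).natDegree) (fun _ _ => Nat.zero_le _)
        (Finset.mem_univ j)
    have h3 : ∑ j, ∑ l, (S.α i j l).natDegree ≤ ∑ i, ∑ j, ∑ l, (S.α i j l).natDegree :=
      Finset.single_le_sum (f := fun i => ∑ j, ∑ l, (S.α i j l).natDegree)
        (fun _ _ => Nat.zero_le _) (Finset.mem_univ i)
    omega
  · intro l
    have h1 : (S.ν l).natDegree ≤ ∑ l, (S.ν l).natDegree :=
      Finset.single_le_sum (f := fun l => (S.ν l).natDegree) (fun _ _ => Nat.zero_le _)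
        (Finset.mem_univ l)
    omega

end

end Pool.Agent.MP_1c8e06_ag.AJ
end

section

set_option autoImplicit false

open Polynomial
open scoped Classical

namespace Pool.Agent.MP_1c8e06_ag.AJ

noncomputable section

/-!
# Task E2: the Newton step for the values `b c 1`

(Adaptation of `AI/E0b.lean`.)
Proof.  Put `β c := D.b c 1`, `ε c := y c - β c`, `u j := ∑_l zeE (T' j l) * β l`.
By `GD.hdual` and symmetry of `T'`: `∑_j b j x * u j = if x = 1 then 1 else 0`.
(★) `∑_j u j * zeE (μ j c m) = u m * β c` for all `m`: both sides `w m` satisfy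
`∑_m w m * b m x = δ_{x,1} β c` for all `x` (left: `∑_m zeE (μ j c m) b m x = b j x * b c x`), and
`GD.coord_unique` (with `j = RingHom.id`).
Hence, with `e j c := ∑_m zeE (μ j c m) y m - y j y c
 = ∑_m zeE (μ j c m) ε m - β j ε c - ε j β c - ε j ε c` (the `β`-terms cancel by `hmul` at `x = 1`):
`∑_j u j e j c = ∑_m u m β c ε m - (∑_j u j β j) ε c - ∑_j u j ε j β c - ∑_j u j ε j ε c
 = - ε c - ε c ∑_j u j ε j` (as `∑_j u j β j = 1`).  Therefore
`newt D y c - β c = - ε c ∑_j u j ε j + ∑_j (∑_l zeE (T' j l) ε l) * e j c`,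
each term containing at least two factors `ε`.  Choose `K₀ ≥ 0` with all of
`β c, u c, zeE (T' j l), zeE (μ j c m)` in `Fl (-K₀)` (`Fl.exists`, finitely many, `Fl.mono`), `c₀` from `Fl.exists_bound`, and
`K := 3 K₀ + 4 c₀`.  If `N ≥ K ≥ 0`, all terms are in `Fl (2 N - K)`.
-/

/-- The Newton step. -/
def newt {R : Type} [CommRing R] {P : Type} [Group P] [Fintype P] {G : Type} [Group G]
    [Fintype G] {i : P →* G} {S : SC R[X] P} (D : GD i (zeE S) (actE S)) (y : G → El S) (c : G) :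
    El S :=
  y c + ∑ j, (∑ l, zeE S (D.k.T' j l) * y l) * (∑ m, zeE S (D.k.μ j c m) * y m - y j * y c)

private theorem E2_bd {R : Type} [CommRing R] {P : Type} [Group P] [Fintype P] {S : SC R[X] P}
    {ι : Type} [Finite ι] (f : ι → El S) :
    ∃ K : ℤ, 0 ≤ K ∧ ∀ i, Fl S (-K) (f i) := by
  choose N hN using fun i => Fl.exists (f i)
  obtain ⟨M, hM⟩ := Finite.exists_le (fun i => -N i)
  refine ⟨max M 0, le_max_right _ _, fun i => (hN i).mono ?_⟩
  have h1 := hM i
  have h2 := le_max_left M 0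
  omega

private theorem E2_alg {A G : Type} [CommRing A] [Fintype G] (u β ε : G → A) (t : G → G → A)
    (μ : G → G → G → A) (c : G) (hu : ∀ j, u j = ∑ l, t j l * β l)
    (h1 : ∑ j, u j * β j = 1) (hm : ∀ j, β j * β c = ∑ m, μ j c m * β m)
    (hs : ∀ m, ∑ j, u j * μ j c m = u m * β c) :
    (β c + ε c) + ∑ j, (∑ l, t j l * (β l + ε l)) *
        (∑ m, μ j c m * (β m + ε m) - (β j + ε j) * (β c + ε c)) - β c =
      -((∑ j, u j * ε j) * ε c) + ∑ j, (∑ l, t j l * ε l) *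
        (∑ m, μ j c m * ε m - β j * ε c - ε j * β c - ε j * ε c) := by
  have e1 : ∀ j, ∑ m, μ j c m * (β m + ε m) - (β j + ε j) * (β c + ε c) =
      ∑ m, μ j c m * ε m - β j * ε c - ε j * β c - ε j * ε c := by
    intro j
    have : ∑ m, μ j c m * (β m + ε m) = ∑ m, μ j c m * β m + ∑ m, μ j c m * ε m := by
      rw [← Finset.sum_add_distrib]
      exact Finset.sum_congr rfl fun m _ => mul_add _ _ _
    rw [this, ← hm j]
    ring
  have e2 : ∀ j, ∑ l, t j l * (β l + ε l) = u j + ∑ l, t j l * ε l := by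
    intro j
    rw [hu j, ← Finset.sum_add_distrib]
    exact Finset.sum_congr rfl fun m _ => mul_add _ _ _
  have e3 : ∑ j, (∑ l, t j l * (β l + ε l)) *
        (∑ m, μ j c m * (β m + ε m) - (β j + ε j) * (β c + ε c)) =
      ∑ j, u j * (∑ m, μ j c m * ε m - β j * ε c - ε j * β c - ε j * ε c) +
      ∑ j, (∑ l, t j l * ε l) *
        (∑ m, μ j c m * ε m - β j * ε c - ε j * β c - ε j * ε c) := by
    rw [← Finset.sum_add_distrib]
    refine Finset.sum_congr rfl fun j _ => ?_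
    rw [e1, e2, add_mul]
  have e4 : ∑ j, u j * ∑ m, μ j c m * ε m = (∑ m, u m * ε m) * β c := by
    simp_rw [Finset.mul_sum]
    rw [Finset.sum_comm, Finset.sum_mul]
    refine Finset.sum_congr rfl fun m _ => ?_
    calc ∑ j, u j * (μ j c m * ε m) = (∑ j, u j * μ j c m) * ε m := by
          rw [Finset.sum_mul]
          exact Finset.sum_congr rfl fun j _ => by ring
      _ = u m * ε m * β c := by rw [hs m]; ring
  have e5 : ∑ j, u j * (∑ m, μ j c m * ε m - β j * ε c - ε j * β c - ε j * ε c) =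
      ∑ j, u j * ∑ m, μ j c m * ε m - (∑ j, u j * β j) * ε c - (∑ j, u j * ε j) * β c -
        (∑ j, u j * ε j) * ε c := by
    rw [Finset.sum_mul, Finset.sum_mul, Finset.sum_mul, ← Finset.sum_sub_distrib,
      ← Finset.sum_sub_distrib, ← Finset.sum_sub_distrib]
    refine Finset.sum_congr rfl fun j _ => ?_
    ring
  rw [e3, e5, e4, h1]
  ring

theorem newton {R : Type} [CommRing R] {P : Type} [Group P] [Fintype P] {G : Type} [Group G]
    [Fintype G] {i : P →* G} {S : SC R[X] P} (D : GD i (zeE S) (actE S)) :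
    ∃ K : ℤ, 0 ≤ K ∧ ∀ (N : ℤ), K ≤ N → ∀ y : G → El S,
      (∀ c, Fl S N (y c - D.b c 1)) → ∀ c, Fl S (2 * N - K) (newt D y c - D.b c 1) := by
  obtain ⟨u, hu⟩ : ∃ u : G → El S, ∀ j, u j = ∑ l, zeE S (D.k.T' j l) * D.b l 1 :=
    ⟨_, fun _ => rfl⟩
  have hdr : ∀ x, ∑ j, D.b j x * u j = if x = 1 then 1 else 0 := by
    intro x
    rw [← D.hdual x 1]
    refine Finset.sum_congr rfl fun j _ => ?_
    rw [hu j, Finset.mul_sum]
    exact Finset.sum_congr rfl fun l _ => (mul_assoc _ _ _).symm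
  have h1 : ∑ j, u j * D.b j 1 = 1 := by
    have := hdr 1
    rw [if_pos rfl] at this
    rw [← this]
    exact Finset.sum_congr rfl fun j _ => mul_comm _ _
  have hstar : ∀ c m, ∑ j, u j * zeE S (D.k.μ j c m) = u m * D.b c 1 := by
    intro c
    have h0 : (fun m => ∑ j, u j * zeE S (D.k.μ j c m) - u m * D.b c 1) = 0 := by
      refine D.coord_unique (RingHom.id _) _ fun x => ?_
      simp only [RingHom.id_apply]
      have a1 : ∑ m, (∑ j, u j * zeE S (D.k.μ j c m)) * D.b m x =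
          (∑ j, D.b j x * u j) * D.b c x := by
        simp_rw [Finset.sum_mul]
        rw [Finset.sum_comm]
        refine Finset.sum_congr rfl fun j _ => ?_
        calc ∑ m, u j * zeE S (D.k.μ j c m) * D.b m x =
              u j * ∑ m, zeE S (D.k.μ j c m) * D.b m x := by
              rw [Finset.mul_sum]
              exact Finset.sum_congr rfl fun m _ => by ring
          _ = D.b j x * u j * D.b c x := by rw [← D.hmul]; ring
      have a2 : ∑ m, (u m * D.b c 1) * D.b m x = (∑ j, D.b j x * u j) * D.b c 1 := by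
        rw [Finset.sum_mul]
        exact Finset.sum_congr rfl fun m _ => by ring
      simp_rw [sub_mul]
      rw [Finset.sum_sub_distrib, a1, a2, hdr x]
      split_ifs with hx
      · rw [hx, sub_self]
      · rw [zero_mul, zero_mul, sub_self]
    intro m
    have := congrFun h0 m
    exact sub_eq_zero.1 this
  obtain ⟨c₀, hμ, -, -⟩ := Fl.exists_bound S
  have hmul : ∀ {N M : ℤ} {a b : El S}, Fl S N a → Fl S M b → Fl S (N + M - c₀) (a * b) :=
    fun ha hb => Fl.mul hμ ha hb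
  have hc₀ : (0 : ℤ) ≤ c₀ := Int.natCast_nonneg c₀
  obtain ⟨K1, hK1, hb1⟩ := E2_bd (fun c : G => D.b c 1)
  obtain ⟨K2, hK2, hb2⟩ := E2_bd u
  obtain ⟨K3, hK3, hb3⟩ := E2_bd (fun q : G × G => zeE S (D.k.T' q.1 q.2))
  obtain ⟨K4, hK4, hb4⟩ := E2_bd (fun q : G × G × G => zeE S (D.k.μ q.1 q.2.1 q.2.2))
  obtain ⟨K, hK⟩ : ∃ K : ℤ, K = K1 + K2 + K3 + K4 := ⟨_, rfl⟩
  have k1 : ∀ c, Fl S (-K) (D.b c 1) := fun c => (hb1 c).mono (by omega)
  have k2 : ∀ c, Fl S (-K) (u c) := fun c => (hb2 c).mono (by omega)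
  have k3 : ∀ i j, Fl S (-K) (zeE S (D.k.T' i j)) := fun i j => (hb3 (i, j)).mono (by omega)
  have k4 : ∀ i j l, Fl S (-K) (zeE S (D.k.μ i j l)) :=
    fun i j l => (hb4 (i, j, l)).mono (by omega)
  refine ⟨3 * K + 4 * c₀, by omega, ?_⟩
  intro N hN y hy c
  obtain ⟨ε, hε⟩ : ∃ ε : G → El S, ∀ c, ε c = y c - D.b c 1 := ⟨_, fun _ => rfl⟩
  have hy' : ∀ c, y c = D.b c 1 + ε c := fun c => by rw [hε]; ring
  have hFε : ∀ c, Fl S N (ε c) := fun c => by rw [hε]; exact hy c
  have key := E2_alg u (fun c => D.b c 1) ε (fun i j => zeE S (D.k.T' i j))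
    (fun i j l => zeE S (D.k.μ i j l)) c hu h1 (fun j => D.hmul j c 1) (fun m => hstar c m)
  have e0 : newt D y c - D.b c 1 = -((∑ j, u j * ε j) * ε c) +
      ∑ j, (∑ l, zeE S (D.k.T' j l) * ε l) * (∑ m, zeE S (D.k.μ j c m) * ε m -
        D.b j 1 * ε c - ε j * D.b c 1 - ε j * ε c) := by
    rw [← key, newt]
    simp only [hy']
  rw [e0]
  have f1 : Fl S (2 * N - (3 * K + 4 * c₀)) (-((∑ j, u j * ε j) * ε c)) := by
    refine Fl.neg ?_
    refine Fl.mono (hmul (N := -K + N - c₀) (M := N) (Fl.sum _ fun j _ => ?_) (hFε c)) (by omega)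
    exact hmul (k2 j) (hFε j)
  refine Fl.add f1 (Fl.sum _ fun j _ => ?_)
  refine Fl.mono (hmul (N := -K + N - c₀) (M := -K + N - c₀) (Fl.sum _ fun l _ => ?_) ?_)
    (by omega)
  · exact hmul (k3 j l) (hFε l)
  · refine Fl.sub (Fl.sub (Fl.sub (Fl.sum _ fun m _ => ?_) ?_) ?_) ?_
    · exact hmul (k4 j c m) (hFε m)
    · exact hmul (k1 j) (hFε c)
    · exact Fl.mono (hmul (hFε j) (k1 c)) (by omega)
    · exact Fl.mono (hmul (hFε j) (hFε c)) (by omega)

end

end Pool.Agent.MP_1c8e06_ag.AJ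
end

section

set_option autoImplicit false

open Polynomial
open scoped Classical

namespace Pool.Agent.MP_1c8e06_ag.AJ

noncomputable section

/-!
# Task L5a: small elements are of the form `x ^ p - x`

Proof.  `N₀ ≥ c₀ + 1`.  `Fl.mul` (with `hc`): by induction `Fl N a → Fl (n N - (n-1) c₀) (a^n)`; so `Fl N a` with
`N ≥ c₀ + 1` gives `Fl (N + 1) (a^p)` (`p N - (p-1) c₀ ≥ N + (p-1)`).  Hence `a^(p^n)` is in `Fl (N₀ + n)`.
Existence: `a' := - ∑_{n ≥ 0} a^(p^n)`, defined coordinatewise: the coefficient of `s^j` in the coordinate `l` is the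
finite sum over `n ≤ j - N₀`.  For every `M`: `a' + ∑_{n < M} a^(p^n) ∈ Fl (N₀ + M)`, and with the finite sums
`σ_M = - ∑_{n<M} a^(p^n)`: `σ_M^p - σ_M = a - a^(p^M)`; `(a')^p - σ_M^p = (a' - σ_M)^p` (characteristic `p`,
`add_pow_p`) is in `Fl (N₀ + M)`; so `a'^p - a' - a ∈ Fl (N₀ + M)` for all `M`, hence `0` (`Fl.sep`).
Uniqueness: `δ = a₁ - a₂ ∈ Fl (c₀ + 1)` with `δ^p = δ`: then `δ = δ^(p^n) ∈ Fl (c₀ + 1 + n)` for all `n`, so `δ = 0`.
-/

private theorem L5a_p0 {p : ℕ} [hp : Fact p.Prime] {R : Type} [CommRing R] [CharP R p] {P : Type}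
    [Group P] [Fintype P] (S : SC R[X] P) : ((p : ℕ) : El S) = 0 := by
  rw [← map_natCast (zeE S) p, CharP.cast_eq_zero, map_zero]

/-- The Frobenius map as an additive map. -/
private def L5a_fr {p : ℕ} [hp : Fact p.Prime] {R : Type} [CommRing R] [CharP R p] {P : Type}
    [Group P] [Fintype P] (S : SC R[X] P) : El S →+ El S :=
  AddMonoidHom.mk' (fun x => x ^ p) (fun a b => add_pow_p (L5a_p0 (p := p) S) a b)

private theorem L5a_fr_apply {p : ℕ} [hp : Fact p.Prime] {R : Type} [CommRing R] [CharP R p]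
    {P : Type} [Group P] [Fintype P] (S : SC R[X] P) (x : El S) :
    L5a_fr (p := p) S x = x ^ p := rfl

private theorem L5a_pow {R : Type} [CommRing R] {P : Type} [Group P] [Fintype P] (S : SC R[X] P)
    {c₀ : ℕ} (hc : ∀ i j l, (S.μ i j l).natDegree ≤ c₀) {N : ℤ} (a : El S) (ha : Fl S N a) :
    ∀ n : ℕ, Fl S (((n : ℤ) + 1) * N - (n : ℤ) * c₀) (a ^ (n + 1)) := by
  intro n
  induction n with
  | zero =>
    rw [zero_add, pow_one]
    refine ha.mono ?_
    push_cast
    linarith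
  | succ n ih =>
    rw [pow_succ]
    refine (ih.mul hc ha).mono ?_
    push_cast
    linarith

private theorem L5a_powp {p : ℕ} [hp : Fact p.Prime] {R : Type} [CommRing R] {P : Type} [Group P]
    [Fintype P] (S : SC R[X] P) {c₀ : ℕ} (hc : ∀ i j l, (S.μ i j l).natDegree ≤ c₀) {N : ℤ}
    (hN : (c₀ : ℤ) + 1 ≤ N) (a : El S) (ha : Fl S N a) : Fl S (N + 1) (a ^ p) := by
  obtain ⟨q, hq⟩ : ∃ q : ℕ, p = q + 1 + 1 := ⟨p - 2, by have := hp.out.two_le; omega⟩
  have h1 := L5a_pow S hc a ha (q + 1)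
  rw [← hq] at h1
  refine h1.mono ?_
  have h2 : (0 : ℤ) ≤ (q : ℤ) * (N - c₀ - 1) :=
    mul_nonneg (Int.natCast_nonneg q) (by linarith)
  have h3 : (0 : ℤ) ≤ (q : ℤ) := Int.natCast_nonneg q
  push_cast
  nlinarith

private theorem L5a_powpn {p : ℕ} [hp : Fact p.Prime] {R : Type} [CommRing R] {P : Type} [Group P]
    [Fintype P] (S : SC R[X] P) {c₀ : ℕ} (hc : ∀ i j l, (S.μ i j l).natDegree ≤ c₀) {N : ℤ}
    (hN : (c₀ : ℤ) + 1 ≤ N) (a : El S) (ha : Fl S N a) (n : ℕ) :
    Fl S (N + n) (a ^ (p ^ n)) := by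
  induction n with
  | zero =>
    rw [pow_zero, pow_one]
    refine ha.mono ?_
    push_cast
    linarith
  | succ n ih =>
    rw [pow_succ, pow_mul]
    have h1 := L5a_powp (p := p) S hc (N := N + n) (by
      have h3 : (0 : ℤ) ≤ (n : ℤ) := Int.natCast_nonneg n
      linarith) _ ih
    refine h1.mono ?_
    push_cast
    linarith

theorem small_AS {p : ℕ} [hp : Fact p.Prime] {R : Type} [CommRing R] [CharP R p] {P : Type}
    [Group P] [Fintype P] (S : SC R[X] P) {c₀ : ℕ} (hc : ∀ i j l, (S.μ i j l).natDegree ≤ c₀)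
    {N₀ : ℤ} (hN₀ : (c₀ : ℤ) + 1 ≤ N₀) (a : El S) (ha : Fl S N₀ a) :
    ∃ a', Fl S N₀ a' ∧ a' ^ p - a' = a := by
  have hpn := L5a_powpn (p := p) S hc hN₀ a ha
  -- the coefficients of `-a'`
  let g : P → ℤ → R := fun l j =>
    ∑ n ∈ Finset.range (j - N₀ + 1).toNat, ((a ^ (p ^ n) : El S) l : LaurentSeries R).coeff j
  have hg0 : ∀ l j, j < N₀ → g l j = 0 := by
    intro l j hj
    have h1 : (j - N₀ + 1).toNat = 0 := by omega
    change ∑ n ∈ Finset.range (j - N₀ + 1).toNat, _ = 0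
    rw [h1, Finset.sum_range_zero]
  have hgM : ∀ (M : ℕ) l j, j < N₀ + M → g l j =
      ∑ n ∈ Finset.range M, ((a ^ (p ^ n) : El S) l : LaurentSeries R).coeff j := by
    intro M l j hj
    refine Finset.sum_subset ?_ ?_
    · intro n hn
      rw [Finset.mem_range] at hn ⊢
      omega
    · intro n _ hn
      rw [Finset.mem_range, not_lt] at hn
      exact hpn n l j (by omega)
  let b : El S := (fun l => HahnSeries.ofSuppBddBelow (g l) ⟨N₀, fun j hj => by
    by_contra hcon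
    exact hj (hg0 l j (not_le.mp hcon))⟩ : P → LaurentSeries R)
  have hb : ∀ l j, ((b l : LaurentSeries R)).coeff j = g l j := fun l j => rfl
  have hb0 : Fl S N₀ b := by
    intro l n hn
    rw [hb, hg0 l n hn]
  have hbM : ∀ M : ℕ, Fl S (N₀ + M) (b - ∑ n ∈ Finset.range M, a ^ (p ^ n)) := by
    intro M l j hj
    rw [Al.sub_apply, HahnSeries.coeff_sub, hb, hgM M l j hj, Al.sum_apply, HahnSeries.coeff_sum,
      sub_self]
  have hfr : ∀ x : El S, L5a_fr (p := p) S x = x ^ p := L5a_fr_apply S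
  have key : b - b ^ p = a := by
    have h1 : (b - b ^ p) - a = 0 := by
      refine Fl.sep fun N => ?_
      set M := (N - N₀).toNat with hM
      have h2 := hbM M
      set d := b - ∑ n ∈ Finset.range M, a ^ (p ^ n) with hd
      have h3 : Fl S (N₀ + M) (d ^ p) := by
        refine (L5a_powp (p := p) S hc (N := N₀ + M) ?_ d h2).mono ?_
        · have h3 : (0 : ℤ) ≤ (M : ℤ) := Int.natCast_nonneg M
          linarith
        · linarith
      have h4 : (∑ n ∈ Finset.range M, a ^ (p ^ n)) - (∑ n ∈ Finset.range M, a ^ (p ^ n)) ^ p =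
          a - a ^ (p ^ M) := by
        rw [← hfr, map_sum, ← Finset.sum_sub_distrib]
        have h5 : ∀ n ∈ Finset.range M, a ^ (p ^ n) - L5a_fr (p := p) S (a ^ (p ^ n)) =
            a ^ (p ^ n) - a ^ (p ^ (n + 1)) := by
          intro n _
          rw [hfr, ← pow_mul, ← pow_succ]
        rw [Finset.sum_congr rfl h5, Finset.sum_range_sub' (fun n => a ^ (p ^ n)) M]
        simp only [pow_zero, pow_one]
      have h6 : d ^ p = b ^ p - (∑ n ∈ Finset.range M, a ^ (p ^ n)) ^ p := by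
        rw [← hfr, ← hfr, ← hfr, ← map_sub]
      have h7 : (b - b ^ p) - a = d - d ^ p - a ^ (p ^ M) := by
        have h8 : b = d + ∑ n ∈ Finset.range M, a ^ (p ^ n) := by
          rw [hd]
          ring
        have h9 : b ^ p = d ^ p + (∑ n ∈ Finset.range M, a ^ (p ^ n)) ^ p := by
          rw [h6]
          ring
        calc (b - b ^ p) - a = d - d ^ p + ((∑ n ∈ Finset.range M, a ^ (p ^ n)) -
              (∑ n ∈ Finset.range M, a ^ (p ^ n)) ^ p) - a := by
              rw [h9]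
              nth_rewrite 1 [h8]
              ring
          _ = _ := by
              rw [h4]
              ring
      rw [h7]
      refine ((h2.sub h3).sub (hpn M)).mono ?_
      omega
    exact sub_eq_zero.mp h1
  refine ⟨-b, hb0.neg, ?_⟩
  have h1 : (-b) ^ p = -(b ^ p) := by
    rw [← hfr, ← hfr, map_neg]
  rw [h1, ← key]
  ring

theorem small_AS_unique {p : ℕ} [hp : Fact p.Prime] {R : Type} [CommRing R] [CharP R p]
    {P : Type} [Group P] [Fintype P] (S : SC R[X] P) {c₀ : ℕ}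
    (hc : ∀ i j l, (S.μ i j l).natDegree ≤ c₀) (a₁ a₂ : El S)
    (h1 : Fl S ((c₀ : ℤ) + 1) a₁) (h2 : Fl S ((c₀ : ℤ) + 1) a₂)
    (h : a₁ ^ p - a₁ = a₂ ^ p - a₂) : a₁ = a₂ := by
  have hfr : ∀ x : El S, L5a_fr (p := p) S x = x ^ p := L5a_fr_apply S
  have hd : Fl S ((c₀ : ℤ) + 1) (a₁ - a₂) := h1.sub h2
  have hp1 : (a₁ - a₂) ^ p = a₁ - a₂ := by
    rw [← hfr, map_sub, hfr, hfr]
    calc a₁ ^ p - a₂ ^ p = (a₁ ^ p - a₁) - (a₂ ^ p - a₂) + (a₁ - a₂) := by ring
      _ = a₁ - a₂ := by rw [h]; ring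
  have hpn : ∀ n : ℕ, (a₁ - a₂) ^ (p ^ n) = a₁ - a₂ := by
    intro n
    induction n with
    | zero => rw [pow_zero, pow_one]
    | succ n ih => rw [pow_succ, pow_mul, ih, hp1]
  have h3 : a₁ - a₂ = 0 := by
    refine Fl.sep fun N => ?_
    have h4 := L5a_powpn (p := p) S hc le_rfl _ hd (N - ((c₀ : ℤ) + 1)).toNat
    rw [hpn] at h4
    refine h4.mono ?_
    omega
  exact sub_eq_zero.mp h3

end

end Pool.Agent.MP_1c8e06_ag.AJ
end
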