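import Pool.Agent.Lib.MP_1c8e06_ag.AJ.Defs4
import Pool.Agent.Lib.MP_1c8e06_ag.Mg.G049
import Pool.Agent.Lib.MP_1c8e06_ag.AJ.A1
import Pool.Agent.Lib.MP_1c8e06_ag.AJ.Defs5
import Pool.Agent.Lib.MP_1c8e06_ag.Mg.G051

section

set_option autoImplicit false

open Polynomial
open scoped Classical

namespace Pool.Agent.MP_1c8e06_ag.AJ

noncomputable section

/-!
# Task E3: elements with coefficients in a subring

(Adaptation of `AI/E0a.lean`.)  Coordinates: `Al.mul_apply`, `zeE`, `Al.cst_apply`; products of Laurent series with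
coefficients in `R` have coefficients in `R`; `zinv f` has its coefficients among those of `f` and `0`
(`AI.zinv_coeff`).  `CoefIn.one`: coordinates `zinv (ν l)`.
`exists_lift`: lift every coordinate to a Laurent series over `R` (the same support).
-/

section
variable {κ : Type} [Field κ] {P : Type} [Group P] [Fintype P] {S : SC κ[X] P} {R : Subring κ}

theorem CoefIn.zero : CoefIn R (0 : El S) := by
  intro l n
  rw [Al.zero_apply, HahnSeries.coeff_zero]
  exact R.zero_mem

theorem CoefIn.add {a b : El S} (ha : CoefIn R a) (hb : CoefIn R b) : CoefIn R (a + b) := by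
  intro l n
  rw [Al.add_apply, HahnSeries.coeff_add]
  exact R.add_mem (ha l n) (hb l n)

theorem CoefIn.sub {a b : El S} (ha : CoefIn R a) (hb : CoefIn R b) : CoefIn R (a - b) := by
  intro l n
  rw [Al.sub_apply, HahnSeries.coeff_sub]
  exact R.sub_mem (ha l n) (hb l n)

theorem CoefIn.sum {ι : Type} (s : Finset ι) {f : ι → El S} (h : ∀ j ∈ s, CoefIn R (f j)) :
    CoefIn R (∑ j ∈ s, f j) := by
  intro l n
  rw [Al.sum_apply, HahnSeries.coeff_sum]
  exact R.sum_mem fun k hk => h k hk l n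

private theorem E3_mulL {c d : LaurentSeries κ} (hc : ∀ i, c.coeff i ∈ R)
    (hd : ∀ i, d.coeff i ∈ R) (i : ℤ) : (c * d).coeff i ∈ R := by
  rw [HahnSeries.coeff_mul]
  exact R.sum_mem fun k _ => R.mul_mem (hc _) (hd _)

private theorem E3_zinv {f : κ[X]} (h : ∀ n, f.coeff n ∈ R) (i : ℤ) :
    (AI.zinv κ f : LaurentSeries κ).coeff i ∈ R := by
  rw [AI.zinv_coeff]
  split_ifs
  · exact h _
  · exact R.zero_mem

theorem CoefIn.ze_mul {f : κ[X]} (h : ∀ n, f.coeff n ∈ R) {a : El S} (ha : CoefIn R a) :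
    CoefIn R (zeE S f * a) := by
  intro l n
  have e : (zeE S f * a) l = AI.zinv κ f * a l := Al.cst_mul _ _ _ _
  rw [e]
  exact E3_mulL (E3_zinv h) (ha l) n

theorem CoefIn.mul (hS : ∀ i j l n, (S.μ i j l).coeff n ∈ R) {a b : El S} (ha : CoefIn R a)
    (hb : CoefIn R b) : CoefIn R (a * b) := by
  intro l n
  rw [Al.mul_apply, HahnSeries.coeff_sum]
  refine R.sum_mem fun i _ => ?_
  rw [HahnSeries.coeff_sum]
  refine R.sum_mem fun j _ => ?_
  exact E3_mulL (E3_mulL (ha i) (hb j)) (E3_zinv (hS i j l)) n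

end

theorem exists_lift {κ : Type} [Field κ] {P : Type} [Group P] [Fintype P] (R : Subring κ)
    (S₀ : SC R[X] P) (a : El (S₀.map (Polynomial.mapRingHom R.subtype))) (ha : CoefIn R a) :
    ∃ a₀ : El S₀, mapE R.subtype S₀ a₀ = a := by
  refine ⟨(fun l => ({ coeff := fun n => ⟨(a l : LaurentSeries κ).coeff n, ha l n⟩
                       isPWO_support' := by
                        refine (a l : LaurentSeries κ).isPWO_support'.mono ?_
                        intro n hn h0
                        apply hn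
                        exact Subtype.ext h0 } : LaurentSeries R) : El S₀), ?_⟩
  refine Al.ext fun l => ?_
  ext n
  rw [mapE_coeff]
  rfl

end

end Pool.Agent.MP_1c8e06_ag.AJ
end

section

set_option autoImplicit false

open Polynomial
open scoped Classical

namespace Pool.Agent.MP_1c8e06_ag.AJ

noncomputable section

/-!
# Task E5: the certificate for locally constant functions

Let `νL l := zinv (S.ν l) ∈ κ((s))` be the coordinates of `1 : El S`; those of `zeE (C c) = oE (C c)` are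
`C c * νL l`.  Write `νc l n := (νL l).coeff n ∈ κ`.
Proof.  For `ω : G → Fin (N+1) → κ` put `f l := ∑_d C (ω l d) * X^d` and `Θ_ω x := ∑_l zeE (f l) * b l x`, linear in
`ω`; `(Θ_ω x m).coeff n = ∑_l ∑_d ω l d * (b l x m).coeff (n + d)` (`zeE (C c * X^d) * a` has the coordinates
`C c * single (-d) 1 * a m`).
For a candidate `(x, m, n)` and a scalar `c`: `Θ_ω x = zeE (C c)` iff `(Θ_ω x m).coeff n = c * νc m n` for all
`m, n`.  Consider the finite dimensional space `W := (G → Fin (N+1) → κ) × (G → κ)` of pairs `(ω, c)` and the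
functionals `Λ_{x,m,n}(ω, c) := (Θ_ω x m).coeff n - c x * νc m n`.  On the common kernel of all of them
`(f, c)` is locally constant, so `c h = c 1` for every `h ∈ H` by `hD`.  Hence the functional
`(ω, c) ↦ c 1 - c h` is in the span of the `Λ_{x,m,n}` (finite dimensional space, common kernel contained in its
kernel: `mem_span_of_iInf_ker_le_ker` after reducing to a finite subfamily, or double annihilators).  This
gives a finite set `I` of indices and coefficients `r h i` for each `h ∈ H` (union over `h`, extended by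
zero; put `r h = 0` for `h ∉ H`).
The statement is the equality of functionals evaluated on all `(ω, c)`; written in terms of the basis: on
`e_{l,d}` (first family) and on `c = δ_x` (second family).
-/

private theorem E5_coeff_mul {κ : Type} [Field κ] {P : Type} [Group P] [Fintype P] {S : SC κ[X] P}
    (d : ℕ) (c : κ) (a : El S) (m : P) (n : ℤ) :
    ((zeE S (C c * X ^ d) * a) m : LaurentSeries κ).coeff n =
      c * ((a m : LaurentSeries κ)).coeff (n + d) := by
  have h0 : (zeE S (C c * X ^ d) * a) m = AI.zinv κ (C c * X ^ d) * a m :=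
    Al.cst_mul (S.map (AI.zinv κ)) (AI.zinv κ (C c * X ^ d)) a m
  have hC : ∀ z : LaurentSeries κ, (HahnSeries.C c * z).coeff n = c * z.coeff n := fun z => by
    rw [HahnSeries.C_mul_eq_smul, HahnSeries.coeff_smul, smul_eq_mul]
  rw [h0, map_mul, map_pow, AI.zinv_X, AI.zinv_C, HahnSeries.single_pow, one_pow, mul_assoc, hC]
  congr 1
  have h := HahnSeries.coeff_single_mul_add (r := (1 : κ)) (x := (a m : LaurentSeries κ))
    (a := n + d) (b := d • (-1 : ℤ))
  rw [one_mul] at h
  rw [← h]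
  congr 1
  simp

private theorem E5_coeff_C {κ : Type} [Field κ] {P : Type} [Group P] [Fintype P] (S : SC κ[X] P)
    (c : κ) (m : P) (n : ℤ) :
    ((zeE S (C c)) m : LaurentSeries κ).coeff n = c * (AI.zinv κ (S.ν m)).coeff n := by
  have h0 : (zeE S (C c)) m = AI.zinv κ (C c) * AI.zinv κ (S.ν m) := rfl
  rw [h0, AI.zinv_C, HahnSeries.C_mul_eq_smul, HahnSeries.coeff_smul, smul_eq_mul]

/-- The functional `(ω, c) ↦ c y`. -/
private def E5_pr (κ : Type) [Field κ] {G : Type} (N : ℕ) (y : G) :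
    ((G × Fin (N + 1)) ⊕ G → κ) →ₗ[κ] κ := LinearMap.proj (Sum.inr y)

private theorem E5_pr_apply {κ : Type} [Field κ] {G : Type} (N : ℕ) (y : G)
    (ω : (G × Fin (N + 1)) ⊕ G → κ) : E5_pr κ N y ω = ω (Sum.inr y) := rfl

/-- The functional `Λ_{x,m,n}`. -/
private def E5_Lam {κ : Type} [Field κ] {P : Type} [Group P] [Fintype P] {G : Type}
    [Group G] [Fintype G] {i : P →* G} {S : SC κ[X] P} (D : GD i (zeE S) (actE S)) (N : ℕ)
    (w : G × P × ℤ) : ((G × Fin (N + 1)) ⊕ G → κ) →ₗ[κ] κ :=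
  (∑ ld : G × Fin (N + 1), (D.b ld.1 w.1 w.2.1 : LaurentSeries κ).coeff (w.2.2 + (ld.2 : ℕ)) •
    LinearMap.proj (Sum.inl ld)) - (AI.zinv κ (S.ν w.2.1)).coeff w.2.2 • LinearMap.proj (Sum.inr w.1)

private theorem E5_Lam_apply {κ : Type} [Field κ] {P : Type} [Group P] [Fintype P] {G : Type}
    [Group G] [Fintype G] {i : P →* G} {S : SC κ[X] P} (D : GD i (zeE S) (actE S)) (N : ℕ)
    (w : G × P × ℤ) (ω : (G × Fin (N + 1)) ⊕ G → κ) :
    E5_Lam D N w ω = (∑ ld : G × Fin (N + 1), ω (Sum.inl ld) *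
      (D.b ld.1 w.1 w.2.1 : LaurentSeries κ).coeff (w.2.2 + (ld.2 : ℕ))) -
      ω (Sum.inr w.1) * (AI.zinv κ (S.ν w.2.1)).coeff w.2.2 := by
  rw [E5_Lam, LinearMap.sub_apply, LinearMap.sum_apply, LinearMap.smul_apply, LinearMap.proj_apply,
    smul_eq_mul, mul_comm (ω (Sum.inr w.1))]
  congr 1
  refine Finset.sum_congr rfl fun ld _ => ?_
  rw [LinearMap.smul_apply, LinearMap.proj_apply, smul_eq_mul, mul_comm]

private theorem E5_coeff {κ : Type} [Field κ] {P : Type} [Group P] [Fintype P] {G : Type}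
    [Group G] [Fintype G] {i : P →* G} {S : SC κ[X] P} (D : GD i (zeE S) (actE S)) (N : ℕ)
    (ω : (G × Fin (N + 1)) ⊕ G → κ) (x : G) (m : P) (n : ℤ) :
    (((∑ l, zeE S (∑ d : Fin (N + 1), C (ω (Sum.inl (l, d))) * X ^ (d : ℕ)) * D.b l x : El S)) m :
      LaurentSeries κ).coeff n = ∑ ld : G × Fin (N + 1), ω (Sum.inl ld) *
      (D.b ld.1 x m : LaurentSeries κ).coeff (n + (ld.2 : ℕ)) := by
  rw [Al.sum_apply, HahnSeries.coeff_sum, Fintype.sum_prod_type]
  refine Finset.sum_congr rfl fun l _ => ?_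
  rw [map_sum, Finset.sum_mul, Al.sum_apply, HahnSeries.coeff_sum]
  exact Finset.sum_congr rfl fun d _ => E5_coeff_mul _ _ _ _ _

theorem exists_certificate {κ : Type} [Field κ] {P : Type} [Group P] [Fintype P] {G : Type}
    [Group G] [Fintype G] {i : P →* G} {S : SC κ[X] P} (D : GD i (zeE S) (actE S))
    (H : Subgroup G) (hD : D.Conn' H) (N : ℕ) :
    ∃ (I : Finset (G × P × ℤ)) (r : G → G × P × ℤ → κ),
      (∀ h ∈ H, ∀ (l : G) (d : ℕ), d ≤ N →
        ∑ w ∈ I, r h w * (D.b l w.1 w.2.1 : LaurentSeries κ).coeff (w.2.2 + d) = 0) ∧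
      (∀ h ∈ H, ∀ x : G, (if x = 1 then (1 : κ) else 0) - (if x = h then 1 else 0) +
        ∑ w ∈ I, (if w.1 = x then
          r h w * (AI.zinv κ (S.ν w.2.1)).coeff w.2.2 else 0) = 0) := by
  -- the claim
  have claim : ∀ h ∈ H, ∀ ω : (G × Fin (N + 1)) ⊕ G → κ, (∀ w, E5_Lam D N w ω = 0) →
      ω (Sum.inr h) = ω (Sum.inr 1) := by
    intro h hh ω hω
    refine hD h hh (fun l => ∑ d : Fin (N + 1), C (ω (Sum.inl (l, d))) * X ^ (d : ℕ))
      (fun x => ω (Sum.inr x)) fun x => ?_
    refine Al.ext fun m => ?_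
    ext n
    have h1 := hω (x, m, n)
    rw [E5_Lam_apply, sub_eq_zero] at h1
    rw [E5_coeff D N ω x m n, E5_coeff_C]
    exact h1
  -- the span
  set W : Submodule κ (Module.Dual κ ((G × Fin (N + 1)) ⊕ G → κ)) :=
    Submodule.span κ (Set.range (E5_Lam D N)) with hW
  have hspan : ∀ h ∈ H, E5_pr κ N (1 : G) - E5_pr κ N h ∈ W := by
    intro h hh
    have h1 : W.dualCoannihilator.dualAnnihilator = W :=
      Subspace.dualCoannihilator_dualAnnihilator_eq
    rw [← h1, Submodule.mem_dualAnnihilator]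
    intro ω hω
    rw [Submodule.mem_dualCoannihilator] at hω
    rw [LinearMap.sub_apply, E5_pr_apply, E5_pr_apply, sub_eq_zero]
    exact (claim h hh ω (fun w => hω _ (Submodule.subset_span ⟨w, rfl⟩))).symm
  have hex : ∀ h : G, ∃ c : (G × P × ℤ) →₀ κ, h ∈ H →
      Finsupp.linearCombination κ (E5_Lam D N) c = E5_pr κ N (1 : G) - E5_pr κ N h := by
    intro h
    by_cases hh : h ∈ H
    · obtain ⟨c, hc⟩ := (Finsupp.mem_span_range_iff_exists_finsupp).1 (hspan h hh)
      exact ⟨c, fun _ => by rw [Finsupp.linearCombination_apply]; exact hc⟩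
    · exact ⟨0, fun h' => absurd h' hh⟩
  choose c hc using hex
  set I : Finset (G × P × ℤ) := Finset.univ.biUnion fun x => (c x).support with hI
  have hcI : ∀ h ∈ H, ∀ ω : (G × Fin (N + 1)) ⊕ G → κ, ∑ w ∈ I, c h w * E5_Lam D N w ω =
      ω (Sum.inr 1) - ω (Sum.inr h) := by
    intro h hh ω
    have h1 := congrArg (fun Φ : ((G × Fin (N + 1)) ⊕ G → κ) →ₗ[κ] κ => Φ ω) (hc h hh)
    simp only [LinearMap.sub_apply, E5_pr_apply] at h1
    rw [Finsupp.linearCombination_apply, Finsupp.sum, LinearMap.sum_apply] at h1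
    simp only [LinearMap.smul_apply, smul_eq_mul] at h1
    rw [← h1]
    symm
    refine Finset.sum_subset (Finset.subset_biUnion_of_mem (fun x => (c x).support)
      (Finset.mem_univ h)) fun w _ hw => ?_
    rw [Finsupp.notMem_support_iff.1 hw, zero_mul]
  refine ⟨I, fun h w => c h w, fun h hh l d hd => ?_, fun h hh x => ?_⟩
  · have h1 := hcI h hh (Pi.single (Sum.inl (l, (⟨d, by omega⟩ : Fin (N + 1)))) 1)
    have h2 : ∀ w, E5_Lam D N w (Pi.single (Sum.inl (l, (⟨d, by omega⟩ : Fin (N + 1)))) 1) =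
        (D.b l w.1 w.2.1 : LaurentSeries κ).coeff (w.2.2 + d) := by
      intro w
      rw [E5_Lam_apply, Finset.sum_eq_single (l, (⟨d, by omega⟩ : Fin (N + 1)))]
      · rw [Pi.single_eq_same, one_mul, Pi.single_eq_of_ne (by simp), zero_mul, sub_zero]
      · intro ld _ hld
        rw [Pi.single_eq_of_ne (fun e => hld (Sum.inl_injective e)), zero_mul]
      · intro h; exact absurd (Finset.mem_univ _) h
    simp only [h2] at h1
    rw [h1, Pi.single_eq_of_ne (by simp), Pi.single_eq_of_ne (by simp), sub_zero]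
  · have h1 := hcI h hh (Pi.single (Sum.inr x) 1)
    have h2 : ∀ w, E5_Lam D N w (Pi.single (Sum.inr x) 1) =
        - (if w.1 = x then (AI.zinv κ (S.ν w.2.1)).coeff w.2.2 else 0) := by
      intro w
      rw [E5_Lam_apply, Finset.sum_eq_zero, zero_sub]
      · by_cases e : w.1 = x
        · rw [if_pos e, e, Pi.single_eq_same, one_mul]
        · rw [if_neg e, Pi.single_eq_of_ne (fun h' => e (Sum.inr_injective h')), zero_mul]
      · intro ld _
        rw [Pi.single_eq_of_ne (by simp), zero_mul]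
    simp only [h2] at h1
    have h3 : ∀ y : G, (Pi.single (Sum.inr x) (1 : κ) : (G × Fin (N + 1)) ⊕ G → κ) (Sum.inr y) =
        if x = y then 1 else 0 := by
      intro y
      by_cases e : x = y
      · rw [if_pos e, e, Pi.single_eq_same]
      · rw [if_neg e, Pi.single_eq_of_ne (fun h' => e (Sum.inr_injective h').symm)]
    rw [h3, h3] at h1
    rw [← h1, ← Finset.sum_add_distrib]
    refine Finset.sum_eq_zero fun w _ => ?_
    by_cases e : w.1 = x
    · rw [if_pos e, if_pos e]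
      ring
    · rw [if_neg e, if_neg e]
      ring

end

end Pool.Agent.MP_1c8e06_ag.AJ
end

section

set_option autoImplicit false

open Polynomial
open scoped Classical

namespace Pool.Agent.MP_1c8e06_ag.AJ

noncomputable section

/-!
# Task E6: the data over a subring

Proofs.  Lift all polynomials to `R[X]` (coefficients in `R`); all identities hold after applying the injective
map `Polynomial.mapRingHom R.subtype` (resp. `mapE R.subtype S₀`, `mapE_injective`), hence they hold over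
`R`.  `exists_SC_subring`: two `SC` with the same `μ, α, ν, T, T'` are equal.
`exists_GD_subring`: lift every `D.b l x` with `exists_lift` (choose).
-/

private theorem E6_lift {κ : Type} [Field κ] (R : Subring κ) (f : κ[X])
    (hf : ∀ n, f.coeff n ∈ R) : ∃ f₀ : R[X], Polynomial.mapRingHom R.subtype f₀ = f := by
  have h1 : f ∈ Polynomial.lifts R.subtype := by
    rw [Polynomial.lifts_iff_coeff_lifts]
    intro n
    exact ⟨⟨f.coeff n, hf n⟩, rfl⟩
  exact (Polynomial.mem_lifts f).1 h1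

private theorem E6_inj {κ : Type} [Field κ] (R : Subring κ) :
    Function.Injective (Polynomial.mapRingHom R.subtype) :=
  Polynomial.map_injective R.subtype R.subtype_injective

theorem exists_SC_subring {κ : Type} [Field κ] {P : Type} [Group P] [Fintype P] (R : Subring κ)
    (S : SC κ[X] P) (hμ : ∀ i j l n, (S.μ i j l).coeff n ∈ R)
    (hα : ∀ i j l n, (S.α i j l).coeff n ∈ R) (hν : ∀ l n, (S.ν l).coeff n ∈ R)
    (hT : ∀ i j n, (S.T i j).coeff n ∈ R) (hT' : ∀ i j n, (S.T' i j).coeff n ∈ R) :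
    ∃ S₀ : SC R[X] P, S₀.map (Polynomial.mapRingHom R.subtype) = S := by
  choose μ₀ hμ₀ using fun i j l => E6_lift R (S.μ i j l) (hμ i j l)
  choose α₀ hα₀ using fun i j l => E6_lift R (S.α i j l) (hα i j l)
  choose ν₀ hν₀ using fun l => E6_lift R (S.ν l) (hν l)
  choose T₀ hT₀ using fun i j => E6_lift R (S.T i j) (hT i j)
  choose T'₀ hT'₀ using fun i j => E6_lift R (S.T' i j) (hT' i j)
  have hinj := E6_inj R
  refine ⟨⟨μ₀, α₀, ν₀, T₀, T'₀, ?_, ?_, ?_, ?_, ?_, ?_, ?_, ?_, ?_⟩, ?_⟩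
  · intro i j l
    apply hinj
    rw [hμ₀, hμ₀, S.comm]
  · intro i j k l
    apply hinj
    simp only [map_sum, map_mul, hμ₀]
    exact S.assoc i j k l
  · intro j l
    apply hinj
    simp only [map_sum, map_mul, hμ₀, hν₀]
    rw [S.unit]
    split_ifs
    · exact (map_one _).symm
    · exact (map_zero _).symm
  · intro l m
    apply hinj
    rw [hα₀, S.α_one]
    split_ifs
    · exact (map_one _).symm
    · exact (map_zero _).symm
  · intro g h l n
    apply hinj
    simp only [map_sum, map_mul, hα₀]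
    exact S.α_mul g h l n
  · intro h i j l
    apply hinj
    simp only [map_sum, map_mul, hα₀, hμ₀]
    exact S.α_μ h i j l
  · intro h m
    apply hinj
    simp only [map_sum, map_mul, hα₀, hν₀]
    exact S.α_ν h m
  · intro i j l
    apply hinj
    simp only [map_sum, map_mul, hα₀, hμ₀, hν₀, hT₀]
    exact S.tr i j l
  · intro x k
    apply hinj
    simp only [map_sum, map_mul, hα₀, hμ₀, hT'₀]
    rw [S.dual]
    split_ifs
    · exact (hν₀ k).symm
    · exact (map_zero _).symm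
  · obtain ⟨μ, α, ν, T, T', h1, h2, h3, h4, h5, h6, h7, h8, h9⟩ := S
    have e1 : (fun i j l => Polynomial.mapRingHom R.subtype (μ₀ i j l)) = μ :=
      funext fun i => funext fun j => funext fun l => hμ₀ i j l
    have e2 : (fun i j l => Polynomial.mapRingHom R.subtype (α₀ i j l)) = α :=
      funext fun i => funext fun j => funext fun l => hα₀ i j l
    have e3 : (fun l => Polynomial.mapRingHom R.subtype (ν₀ l)) = ν :=
      funext fun l => hν₀ l
    have e4 : (fun i j => Polynomial.mapRingHom R.subtype (T₀ i j)) = T :=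
      funext fun i => funext fun j => hT₀ i j
    have e5 : (fun i j => Polynomial.mapRingHom R.subtype (T'₀ i j)) = T' :=
      funext fun i => funext fun j => hT'₀ i j
    unfold SC.map
    subst e1
    subst e2
    subst e3
    subst e4
    subst e5
    rfl

theorem exists_GD_subring {κ : Type} [Field κ] {P : Type} [Group P] [Fintype P] {G : Type}
    [Group G] [Fintype G] {i : P →* G} (R : Subring κ) (S₀ : SC R[X] P)
    (D : GD i (zeE (S₀.map (Polynomial.mapRingHom R.subtype)))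
      (actE (S₀.map (Polynomial.mapRingHom R.subtype))))
    (hb : ∀ l x, CoefIn R (D.b l x)) (hμ : ∀ i j l n, (D.k.μ i j l).coeff n ∈ R)
    (hα : ∀ i j l n, (D.k.α i j l).coeff n ∈ R) (hν : ∀ l n, (D.k.ν l).coeff n ∈ R)
    (hT : ∀ i j n, (D.k.T i j).coeff n ∈ R) (hT' : ∀ i j n, (D.k.T' i j).coeff n ∈ R) :
    ∃ D₀ : GD i (zeE S₀) (actE S₀), (∀ l x, mapE R.subtype S₀ (D₀.b l x) = D.b l x) ∧
      ∀ i j, (D₀.k.T' i j).map R.subtype = D.k.T' i j := by
  choose b₀ hb₀ using fun l x => exists_lift R S₀ (D.b l x) (hb l x)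
  choose μ₀ hμ₀ using fun i j l => E6_lift R (D.k.μ i j l) (hμ i j l)
  choose α₀ hα₀ using fun i j l => E6_lift R (D.k.α i j l) (hα i j l)
  choose ν₀ hν₀ using fun l => E6_lift R (D.k.ν l) (hν l)
  choose T₀ hT₀ using fun i j => E6_lift R (D.k.T i j) (hT i j)
  choose T'₀ hT'₀ using fun i j => E6_lift R (D.k.T' i j) (hT' i j)
  have hinj : Function.Injective (mapE R.subtype S₀) :=
    mapE_injective R.subtype R.subtype_injective S₀
  have hze : ∀ (f₀ : R[X]) (f : κ[X]), Polynomial.mapRingHom R.subtype f₀ = f →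
      mapE R.subtype S₀ (zeE S₀ f₀) = zeE (S₀.map (Polynomial.mapRingHom R.subtype)) f := by
    intro f₀ f h
    rw [mapE_zeE, ← h]
    rfl
  refine ⟨⟨b₀, ⟨μ₀, α₀, ν₀, T₀, T'₀⟩, ?_, ?_, ?_, ?_, ?_, ?_⟩, hb₀, hT'₀⟩
  · intro u l x
    apply hinj
    rw [mapE_actE, hb₀, hb₀, D.hP]
  · intro j l x
    apply hinj
    rw [map_mul, map_sum, hb₀, hb₀, D.hmul]
    refine Finset.sum_congr rfl fun m _ => ?_
    rw [map_mul, hze _ _ (hμ₀ j l m), hb₀]
  · intro h l x
    apply hinj
    rw [map_sum, hb₀, D.hact]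
    refine Finset.sum_congr rfl fun m _ => ?_
    rw [map_mul, hze _ _ (hα₀ h l m), hb₀]
  · intro x
    apply hinj
    rw [map_sum, map_one, ← D.hone x]
    refine Finset.sum_congr rfl fun l _ => ?_
    rw [map_mul, hze _ _ (hν₀ l), hb₀]
  · intro j l
    apply hinj
    rw [map_sum, hze _ _ (hT₀ j l), ← D.htr]
    refine Finset.sum_congr rfl fun x _ => ?_
    rw [map_mul, hb₀, hb₀]
  · intro x x'
    apply hinj
    have h2 : mapE R.subtype S₀ (if x = x' then 1 else 0) = if x = x' then 1 else 0 := by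
      split_ifs
      · exact map_one _
      · exact map_zero _
    rw [h2, ← D.hdual x x', map_sum]
    refine Finset.sum_congr rfl fun l _ => ?_
    rw [map_sum]
    refine Finset.sum_congr rfl fun m _ => ?_
    rw [map_mul, map_mul, hze _ _ (hT'₀ l m), hb₀, hb₀]

end

end Pool.Agent.MP_1c8e06_ag.AJ
end

section

set_option autoImplicit false

open Polynomial
open scoped Classical

namespace Pool.Agent.MP_1c8e06_ag.AJ

noncomputable section

/-!
# Task L1: the cocycle of an extension with elementary abelian kernel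

`N := q.ker`; `v` are coordinates on `N` (values in `(ZMod p)^m`), `ρ` the action of `Γ` on them.
Proof.  Let `σ : Γ' → Γ` be a section of `q`, `θ : Al S'` with `∑_x act x θ = 1` (`exists_theta`).  For `g : Γ`, `h : Γ'`
let `n(g,h) := g * σ h * (σ (q g * h))⁻¹ ∈ N`.
`c g r := ∑_{h : Γ'} zc (v (n(g,h)) r) * act (q g * h) θ`.
* `n(g g', h) = (g * n(g', h) * g⁻¹) * n(g, q g' * h)`; so `v (n(g g',h)) = ρ g (v (n(g',h))) + v (n(g, q g' h))`, and
  the cocycle identity follows (in the second sum reindex `h ↦ q g' * h`).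
* for `n ∈ N`: `n(n,h) = n`, so `c n r = zc (v n r) * ∑_h act h θ`.
`d g r := (c g r)^p - c g r` is again a cocycle (`(x + y)^p = x^p + y^p`, `zc^p = zc`), and `d n = 0` for `n ∈ N`, so
`d (g n) = d g` and `ρ (g n) = ρ g`: `d g` depends only on `q g`.
`M r := - ∑_{h : Γ'} d (σ h) r * act h θ`.  Then
`∑_t ρ g r t * act (q g) (M t) = - ∑_h (∑_t ρ g r t * act (q g) (d (σ h) t)) * act (q g * h) θ
 = - ∑_h (d (g σ h) r - d g r) * act (q g * h) θ = M r + d g r` (`d (g σ h) = d (σ (q g * h))`).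
-/

private theorem L1_aux {p : ℕ} [hp : Fact p.Prime] {A : Type} [CommRing A]
    (h0 : ((p : ℕ) : A) = 0) {Γ Γ' : Type}
    [Group Γ] [Fintype Γ] [Group Γ'] [Fintype Γ'] (q : Γ →* Γ') (hq : Function.Surjective q)
    (m : ℕ) (v : Γ → Fin m → ZMod p) (ρ : Γ →* Matrix (Fin m) (Fin m) (ZMod p))
    (hv : ∀ a b, q a = 1 → q b = 1 → v (a * b) = v a + v b)
    (hρ : ∀ g n, q n = 1 → v (g * n * g⁻¹) = (ρ g).mulVec (v n))
    (act : Γ' → (A →+* A)) (hact : ∀ x y a, act (x * y) a = act x (act y a)) (θ : A)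
    (hθ : ∑ x, act x θ = 1) :
    ∃ (c : Γ → Fin m → A) (M : Fin m → A),
      (∀ g h r, c (g * h) r = c g r + ∑ t, zc A (ρ g r t) * act (q g) (c h t)) ∧
      (∀ n, q n = 1 → ∀ r, c n r = zc A (v n r)) ∧
      ∀ g r, ∑ t, zc A (ρ g r t) * act (q g) (M t) = M r + (c g r ^ p - c g r) := by
  have hzsum : ∀ (f : Fin m → ZMod p), zc A (∑ t, f t) = ∑ t, zc A (f t) := by
    intro f
    let F : ZMod p →+ A :=
      { toFun := fun x => zc A x
        map_zero' := zc_zero
        map_add' := fun x y => zc_add h0 x y }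
    exact map_sum F f Finset.univ
  obtain ⟨σ, hσ⟩ := hq.hasRightInverse
  obtain ⟨nn, hnn⟩ : ∃ nn : Γ → Γ' → Γ, ∀ g h, nn g h = g * σ h * (σ (q g * h))⁻¹ :=
    ⟨_, fun _ _ => rfl⟩
  have hqn : ∀ g h, q (nn g h) = 1 := by
    intro g h
    rw [hnn, map_mul, map_mul, map_inv, hσ, hσ, mul_inv_cancel]
  have hnmul : ∀ g g' h, nn (g * g') h = (g * nn g' h * g⁻¹) * nn g (q g' * h) := by
    intro g g' h
    rw [hnn, hnn, hnn, map_mul, mul_assoc (q g)]
    group
  have hvmul : ∀ g g' h r, v (nn (g * g') h) r =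
      (∑ t, ρ g r t * v (nn g' h) t) + v (nn g (q g' * h)) r := by
    intro g g' h r
    have h1 : q (g * nn g' h * g⁻¹) = 1 := by
      rw [map_mul, map_mul, hqn, map_inv, mul_one, mul_inv_cancel]
    rw [hnmul, hv _ _ h1 (hqn _ _), Pi.add_apply, hρ _ _ (hqn _ _)]
    rfl
  obtain ⟨c, hcdef⟩ : ∃ c : Γ → Fin m → A, ∀ g r,
      c g r = ∑ h : Γ', zc A (v (nn g h) r) * act (q g * h) θ := ⟨_, fun _ _ => rfl⟩
  have hc1 : ∀ g h r, c (g * h) r =
      c g r + ∑ t, zc A (ρ g r t) * act (q g) (c h t) := by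
    intro g g' r
    have e1 : ∀ h : Γ', zc A (v (nn (g * g') h) r) * act (q (g * g') * h) θ =
        zc A (v (nn g (q g' * h)) r) * act (q g * (q g' * h)) θ +
        ∑ t, zc A (ρ g r t) *
          (zc A (v (nn g' h) t) * act (q g) (act (q g' * h) θ)) := by
      intro h
      rw [hvmul, zc_add h0, hzsum, map_mul q g g', mul_assoc (q g), hact, add_mul,
        Finset.sum_mul, add_comm]
      congr 1
      refine Finset.sum_congr rfl fun t _ => ?_
      rw [zc_mul h0, mul_assoc]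
    rw [hcdef, Finset.sum_congr rfl fun h _ => e1 h, Finset.sum_add_distrib, hcdef]
    congr 1
    · exact Fintype.sum_equiv (Equiv.mulLeft (q g')) _ _ fun h => rfl
    · rw [Finset.sum_comm]
      refine Finset.sum_congr rfl fun t _ => ?_
      rw [hcdef, map_sum, Finset.mul_sum]
      refine Finset.sum_congr rfl fun h _ => ?_
      rw [map_mul (act (q g)), map_zc]
  have hc2 : ∀ n, q n = 1 → ∀ r, c n r = zc A (v n r) := by
    intro n hn r
    have e1 : ∀ h : Γ', zc A (v (nn n h) r) * act (q n * h) θ =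
        zc A (v n r) * act h θ := by
      intro h
      rw [hnn, hn, one_mul, mul_assoc, mul_inv_cancel, mul_one]
    rw [hcdef, Finset.sum_congr rfl fun h _ => e1 h, ← Finset.mul_sum, hθ, mul_one]
  obtain ⟨Fr, hFr⟩ : ∃ Fr : A →+ A, ∀ x, Fr x = x ^ p - x :=
    ⟨{ toFun := fun x => x ^ p - x
       map_zero' := by rw [zero_pow hp.out.ne_zero, sub_zero]
       map_add' := fun x y => by rw [add_pow_p h0]; ring }, fun _ => rfl⟩
  have hFrz : ∀ (z : ZMod p) (x : A), Fr (zc A z * x) = zc A z * Fr x := by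
    intro z x
    rw [hFr, hFr, mul_pow, zc_pow h0]
    ring
  have hFra : ∀ (u : Γ') (x : A), Fr (act u x) = act u (Fr x) := by
    intro u x
    rw [hFr, hFr, map_sub, map_pow]
  have hd1 : ∀ g h r, Fr (c (g * h) r) =
      Fr (c g r) + ∑ t, zc A (ρ g r t) * act (q g) (Fr (c h t)) := by
    intro g h r
    rw [hc1, map_add Fr, map_sum Fr]
    congr 1
    refine Finset.sum_congr rfl fun t _ => ?_
    rw [hFrz, hFra]
  have hd2 : ∀ n, q n = 1 → ∀ r, Fr (c n r) = 0 := by
    intro n hn r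
    rw [hc2 n hn, hFr, zc_pow h0, sub_self]
  have hd3 : ∀ g g', q g = q g' → ∀ r, Fr (c g r) = Fr (c g' r) := by
    intro g g' hgg r
    have h1 : q (g⁻¹ * g') = 1 := by rw [map_mul, map_inv, hgg, inv_mul_cancel]
    have h2 := hd1 g (g⁻¹ * g') r
    rw [mul_inv_cancel_left] at h2
    rw [h2, Finset.sum_eq_zero, add_zero]
    intro t _
    rw [hd2 _ h1, map_zero, mul_zero]
  refine ⟨c, fun r => -∑ h : Γ', Fr (c (σ h) r) * act h θ, hc1, hc2, fun g r => ?_⟩
  have e1 : ∀ t, zc A (ρ g r t) *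
      act (q g) (-∑ h : Γ', Fr (c (σ h) t) * act h θ) =
      -∑ h : Γ', (zc A (ρ g r t) * act (q g) (Fr (c (σ h) t))) *
        act (q g * h) θ := by
    intro t
    rw [map_neg (act (q g)), map_sum (act (q g)), mul_neg, Finset.mul_sum]
    refine congrArg Neg.neg (Finset.sum_congr rfl fun h _ => ?_)
    rw [map_mul (act (q g)), hact, mul_assoc]
  have e2 : ∀ h : Γ', ∑ t, zc A (ρ g r t) * act (q g) (Fr (c (σ h) t)) =
      Fr (c (σ (q g * h)) r) - Fr (c g r) := by
    intro h
    have h1 := hd1 g (σ h) r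
    have h2 : q (g * σ h) = q (σ (q g * h)) := by rw [map_mul, hσ, hσ]
    rw [hd3 _ _ h2] at h1
    rw [h1]
    ring
  have e3 : ∑ h : Γ', act (q g * h) θ = 1 := by
    rw [← hθ]
    exact Fintype.sum_equiv (Equiv.mulLeft (q g)) _ _ fun h => rfl
  calc ∑ t, zc A (ρ g r t) *
        act (q g) (-∑ h : Γ', Fr (c (σ h) t) * act h θ)
      = ∑ t, -∑ h : Γ', (zc A (ρ g r t) * act (q g) (Fr (c (σ h) t))) *
        act (q g * h) θ := Finset.sum_congr rfl fun t _ => e1 t
    _ = -∑ h : Γ', (∑ t, zc A (ρ g r t) * act (q g) (Fr (c (σ h) t))) *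
        act (q g * h) θ := by
        rw [Finset.sum_neg_distrib, Finset.sum_comm]
        refine congrArg Neg.neg (Finset.sum_congr rfl fun h _ => ?_)
        rw [Finset.sum_mul]
    _ = -∑ h : Γ', (Fr (c (σ (q g * h)) r) - Fr (c g r)) * act (q g * h) θ := by
        refine congrArg Neg.neg (Finset.sum_congr rfl fun h _ => ?_)
        rw [e2]
    _ = -∑ h : Γ', Fr (c (σ (q g * h)) r) * act (q g * h) θ +
        Fr (c g r) * ∑ h : Γ', act (q g * h) θ := by
        rw [Finset.mul_sum, neg_add_eq_sub, ← Finset.sum_sub_distrib, ← Finset.sum_neg_distrib]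
        refine Finset.sum_congr rfl fun h _ => ?_
        ring
    _ = _ := by
        rw [e3, mul_one, hFr]
        refine congrArg (fun x => -x + (c g r ^ p - c g r)) ?_
        exact Fintype.sum_equiv (Equiv.mulLeft (q g)) _ _ fun h => rfl


theorem exists_cm {p : ℕ} [hp : Fact p.Prime] {R : Type} [CommRing R] [CharP R p] {Γ Γ' : Type}
    [Group Γ] [Fintype Γ] [Group Γ'] [Fintype Γ'] (q : Γ →* Γ') (hq : Function.Surjective q)
    (m : ℕ) (v : Γ → Fin m → ZMod p) (ρ : Γ →* Matrix (Fin m) (Fin m) (ZMod p))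
    (hv : ∀ a b, q a = 1 → q b = 1 → v (a * b) = v a + v b)
    (hρ : ∀ g n, q n = 1 → v (g * n * g⁻¹) = (ρ g).mulVec (v n)) (hρ1 : ∀ n, q n = 1 → ρ n = 1)
    (S' : SC R[X] Γ') :
    ∃ (c : Γ → Fin m → Al S') (M : Fin m → Al S'),
      (∀ g h r, c (g * h) r = c g r + ∑ t, zc (Al S') (ρ g r t) * Al.act S' (q g) (c h t)) ∧
      (∀ n, q n = 1 → ∀ r, c n r = zc (Al S') (v n r)) ∧
      ∀ g r, ∑ t, zc (Al S') (ρ g r t) * Al.act S' (q g) (M t) = M r + (c g r ^ p - c g r) := by
  obtain ⟨θ, hθ⟩ := exists_theta S'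
  exact L1_aux (charP_Al S') q hq m v ρ hv hρ (fun x => Al.act S' x)
    (fun x y a => Al.act_mul_apply S' x y a) θ hθ

end

end Pool.Agent.MP_1c8e06_ag.AJ
end

section

set_option autoImplicit false

open Polynomial
open scoped Classical

namespace Pool.Agent.MP_1c8e06_ag.AJ

noncomputable section

/-!
# Task L2: extending the type by a central step

Proof.  `N := q.ker = {ι₀^n}`.  `exists_cm` with `m = 1`, `ρ = 1`, `v (ι₀^n) 0 = n` (`v u 0` := the class of some `n`
with `u = ι₀^n` if `q u = 1`, else `0`; additive on `N` as `orderOf ι₀ = p`; conjugation is trivial on `N` as `ι₀`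
is central): `c`, `M`.  Put `a u := c u 0`, `b₀ := M 0`: `a (u v) = a u + act (q u) (a v)`, `a ι₀ = 1`,
`act (q u) b₀ = b₀ + (a u ^ p - a u)`.
For a natural number `n` let `b := b₀ + cst (X^n)` (the same identities).  `exists_ASG`: `S`, `Φ : Al S ≃ AS p b`.
`J := Φ.symm ∘ AS.of p b`: `J (cst f) = cst f`; `J (act (q u) c) = act u (J c)` (the conclusion of `exists_ASG` with
`σ = AS.aff ..`).
`TC p S` for suitable `n`.  Let `χ : P → ZMod p` be additive, nonzero.
 (i) `χ ι₀ = 0`: `χ` factors through `q`: `χ = χ' ∘ q`, `χ' ≠ 0`; `y', F` from `TC p S'`; `y := J y'`.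
 (ii) `c₁ := χ ι₀ ≠ 0`: the function `u ↦ zc (χ u) - zc c₁ * a u : P → Al S'` is a cocycle
 (`f (u v) = f u + act (q u) (f v)`) and vanishes on `N`, so it is `f' ∘ q`, `f'` a cocycle on `P'`; `H1`: `w` with
 `act (q u) w = w + zc (χ u) - zc c₁ * a u`.  `y := Φ.symm (zc c₁ * rt + of w)`: `act u y = y + zc (χ u)` and
 `y^p - y = Φ.symm (of (zc c₁ * b + w^p - w))`; here `zc c₁ * b₀ + w^p - w` is fixed by `P'` so it is
 `cst (F_χ)` (`fixed`), `F_χ ∈ k[X]` not depending on `n`; so `y^p - y = cst (F_χ + c₁ X^n)`.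
 Choose `n` prime to `p` and larger than the degrees of all `F_χ` (finitely many `χ`; choose `w` for each
 `χ` first).  Then the degree is `n`.
-/

private theorem L2_sub_pow {p : ℕ} [hp : Fact p.Prime] {A : Type} [CommRing A] (h0 : (p : A) = 0)
    (x y : A) : (x - y) ^ p = x ^ p - y ^ p := by
  have h := add_pow_p h0 (x - y) y
  rw [sub_add_cancel] at h
  rw [h, add_sub_cancel_right]

private theorem L2_pow {p : ℕ} {P : Type} [Group P] {χ : P → ZMod p}
    (hχ : ∀ u v, χ (u * v) = χ u + χ v) (u : P) (n : ℕ) : χ (u ^ n) = n * χ u := by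
  induction n with
  | zero =>
    have h := hχ 1 1
    rw [mul_one] at h
    rw [pow_zero, Nat.cast_zero, zero_mul]
    exact left_eq_add.1 h
  | succ n ih =>
    rw [pow_succ, hχ, ih]
    push_cast
    ring

/-- The element `w` and the polynomial `F` for a character which is not trivial on `ι₀`. -/
private theorem L2_char {p : ℕ} [hp : Fact p.Prime] {k : Type} [Field k] [CharP k p] {P P' : Type}
    [Group P] [Fintype P] [Group P'] [Fintype P'] (q : P →* P') (hq : Function.Surjective q)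
    (ι₀ : P) (hker : ∀ u, q u = 1 → ∃ n : ℕ, u = ι₀ ^ n) (S' : SC k[X] P')
    (a : P → Al S') (ha : ∀ u v, a (u * v) = a u + Al.act S' (q u) (a v))
    (han : ∀ n : ℕ, a (ι₀ ^ n) = (n : Al S'))
    (b₀ : Al S') (hb : ∀ u, Al.act S' (q u) b₀ = b₀ + (a u ^ p - a u))
    (χ : P → ZMod p) (hχ : ∀ u v, χ (u * v) = χ u + χ v) :
    ∃ (w : Al S') (F : k[X]), (∀ u, Al.act S' (q u) w = w + (zc (Al S') (χ u) -
      zc (Al S') (χ ι₀) * a u)) ∧ zc (Al S') (χ ι₀) * b₀ + (w ^ p - w) = Al.cst S' F := by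
  have h0 : ((p : ℕ) : Al S') = 0 := charP_Al S'
  set f : P → Al S' := fun u => zc (Al S') (χ u) - zc (Al S') (χ ι₀) * a u with hf
  have hfc : ∀ u v, f (u * v) = f u + Al.act S' (q u) (f v) := by
    intro u v
    simp only [hf]
    rw [hχ, zc_add h0, ha, map_sub, map_mul, map_zc, map_zc]
    ring
  have hf0 : ∀ u, q u = 1 → f u = 0 := by
    intro u hu
    obtain ⟨n, rfl⟩ := hker u hu
    simp only [hf]
    rw [L2_pow hχ, han, zc_mul h0, zc_natCast h0]
    ring
  have hfq : ∀ u v, q u = q v → f u = f v := by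
    intro u v huv
    have h1 : v = u * (u⁻¹ * v) := by group
    rw [h1, hfc, hf0 (u⁻¹ * v) (by rw [map_mul, map_inv, huv, inv_mul_cancel]), map_zero, add_zero]
  have hσ : ∀ x, q (Function.surjInv hq x) = x := Function.surjInv_eq hq
  obtain ⟨w, hw⟩ := H1 S' (fun x => f (Function.surjInv hq x)) (by
    intro x y
    rw [hfq (Function.surjInv hq (x * y)) (Function.surjInv hq x * Function.surjInv hq y)
      (by rw [map_mul, hσ, hσ, hσ]), hfc, hσ])
  have hw' : ∀ u, Al.act S' (q u) w = w + f u := by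
    intro u
    rw [hw]
    rw [hfq (Function.surjInv hq (q u)) u (hσ _)]
  obtain ⟨F, hF⟩ := fixed S' (zc (Al S') (χ ι₀) * b₀ + (w ^ p - w)) (by
    intro x
    obtain ⟨u, rfl⟩ := hq x
    rw [map_add, map_mul, map_zc, hb, map_sub, map_pow, hw', add_pow_p h0]
    simp only [hf]
    rw [L2_sub_pow h0, mul_pow, zc_pow h0, zc_pow h0]
    ring)
  exact ⟨w, F, hw', hF⟩

theorem exists_ext1 {p : ℕ} [hp : Fact p.Prime] {k : Type} [Field k] [CharP k p] {P P' : Type}
    [Group P] [Fintype P] [Group P'] [Fintype P'] (q : P →* P') (hq : Function.Surjective q)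
    (ι₀ : P) (hι₀ : q ι₀ = 1) (hord : orderOf ι₀ = p) (hker : ∀ u, q u = 1 → ∃ n : ℕ, u = ι₀ ^ n)
    (hcent : ∀ u, u * ι₀ = ι₀ * u) (S' : SC k[X] P') (hT : TC p S') :
    ∃ S : SC k[X] P, TC p S ∧ ∃ J : Al S' →+* Al S, (∀ f, J (Al.cst S' f) = Al.cst S f) ∧
      ∀ u c, J (Al.act S' (q u) c) = Al.act S u (J c) := by
  have h0 : ((p : ℕ) : Al S') = 0 := charP_Al S'
  -- the coordinate on the kernel
  set v : P → Fin 1 → ZMod p := fun u _ =>
    if h : q u = 1 then (((hker u h).choose : ℕ) : ZMod p) else 0 with hv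
  have hιn : ∀ n : ℕ, q (ι₀ ^ n) = 1 := by
    intro n
    rw [map_pow, hι₀, one_pow]
  have hvn : ∀ (n : ℕ) (r : Fin 1), v (ι₀ ^ n) r = (n : ZMod p) := by
    intro n r
    simp only [hv]
    rw [dif_pos (hιn n)]
    have h1 := (hker (ι₀ ^ n) (hιn n)).choose_spec
    have h2 := pow_eq_pow_iff_modEq.1 h1
    rw [hord] at h2
    exact ((ZMod.natCast_eq_natCast_iff _ _ _).2 h2).symm
  have hcn' : ∀ (u : P) (n : ℕ), u * ι₀ ^ n = ι₀ ^ n * u := by
    intro u n
    exact (Commute.pow_right (show Commute u ι₀ from hcent u) n)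
  obtain ⟨c, M, hc, hcn, hM⟩ := exists_cm q hq 1 v (1 : P →* Matrix (Fin 1) (Fin 1) (ZMod p))
    (by
      intro x y hx hy
      obtain ⟨n, rfl⟩ := hker x hx
      obtain ⟨m, rfl⟩ := hker y hy
      funext r
      rw [← pow_add, Pi.add_apply, hvn (n + m) r, hvn n r, hvn m r, Nat.cast_add])
    (by
      intro g n hn
      obtain ⟨m, rfl⟩ := hker n hn
      rw [MonoidHom.one_apply, Matrix.one_mulVec, hcn', mul_inv_cancel_right])
    (fun _ _ => rfl) S'
  set a : P → Al S' := fun u => c u 0 with ha_def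
  set b₀ : Al S' := M 0 with hb₀
  have ha : ∀ u v, a (u * v) = a u + Al.act S' (q u) (a v) := by
    intro u v
    have h1 := hc u v 0
    rw [Fin.sum_univ_one, MonoidHom.one_apply, Matrix.one_apply_eq, zc_one, one_mul] at h1
    exact h1
  have han : ∀ n : ℕ, a (ι₀ ^ n) = (n : Al S') := by
    intro n
    have h1 := hcn (ι₀ ^ n) (hιn n) 0
    rw [hvn n 0, zc_natCast h0] at h1
    exact h1
  have ha0 : a ι₀ = 1 := by
    have h1 := han 1
    rwa [pow_one, Nat.cast_one] at h1
  have hb : ∀ u, Al.act S' (q u) b₀ = b₀ + (a u ^ p - a u) := by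
    intro u
    have h1 := hM u 0
    rw [Fin.sum_univ_one, MonoidHom.one_apply, Matrix.one_apply_eq, zc_one, one_mul] at h1
    exact h1
  -- the data of the characters
  have hdata : ∀ x : {χ : P → ZMod p // ∀ u v, χ (u * v) = χ u + χ v},
      ∃ (w : Al S') (F : k[X]), (∀ u, Al.act S' (q u) w = w + (zc (Al S') (x.1 u) -
        zc (Al S') (x.1 ι₀) * a u)) ∧
        zc (Al S') (x.1 ι₀) * b₀ + (w ^ p - w) = Al.cst S' F := fun x =>
    L2_char q hq ι₀ hker S' a ha han b₀ hb x.1 x.2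
  choose w F hw hF using hdata
  obtain ⟨N, hN⟩ := Finite.exists_le (fun x => (F x).natDegree)
  set n : ℕ := p * (N + 1) + 1 with hn
  have hp1 : 1 < p := hp.out.one_lt
  have hNn : N < n := by
    have : N + 1 ≤ p * (N + 1) := Nat.le_mul_of_pos_left _ hp.out.pos
    omega
  have hpn : ¬ p ∣ n := by
    intro h
    have h1 : p ∣ 1 := (Nat.dvd_add_right (Dvd.intro _ rfl)).1 (hn ▸ h)
    exact absurd (Nat.dvd_one.1 h1) hp1.ne'
  set b : Al S' := b₀ + Al.cst S' (X ^ n) with hbdef
  have hb' : ∀ u, Al.act S' (q u) b = b + (a u ^ p - a u) := by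
    intro u
    rw [hbdef, map_add, hb, Al.act_cst]
    ring
  obtain ⟨S, Φ, hΦ1, hΦ2⟩ := exists_ASG q hq ι₀ hι₀ hord hker S' a ha ha0 b hb'
  have hσ : ∀ u x, Φ (Al.act S u x) = AS.aff h0 (Al.act S' (q u)) (a u) (hb' u) (Φ x) :=
    fun u x => hΦ2 u _ (AS.aff_of h0 _ _ (hb' u)) (AS.aff_rt h0 _ _ (hb' u)) x
  set J : Al S' →+* Al S := (Φ.symm : AS p b →+* Al S).comp (AS.of p b) with hJ
  have hJa : ∀ x, J x = Φ.symm (AS.of p b x) := fun x => rfl
  have hJ1 : ∀ f, J (Al.cst S' f) = Al.cst S f := by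
    intro f
    rw [hJa, ← hΦ1, RingEquiv.symm_apply_apply]
  have hJ2 : ∀ u x, J (Al.act S' (q u) x) = Al.act S u (J x) := by
    intro u x
    apply Φ.injective
    rw [hσ, hJa, hJa, RingEquiv.apply_symm_apply, RingEquiv.apply_symm_apply, AS.aff_of]
  refine ⟨S, ?_, J, hJ1, hJ2⟩
  intro χ hχ hne
  have hs : ∀ x, q (Function.surjInv hq x) = x := Function.surjInv_eq hq
  by_cases hc1 : χ ι₀ = 0
  · have hχ0 : ∀ u, q u = 1 → χ u = 0 := by
      intro u hu
      obtain ⟨m, rfl⟩ := hker u hu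
      rw [L2_pow hχ, hc1, mul_zero]
    have hχq : ∀ u v, q u = q v → χ u = χ v := by
      intro u v huv
      have h1 : v = u * (u⁻¹ * v) := by group
      rw [h1, hχ, hχ0 (u⁻¹ * v) (by rw [map_mul, map_inv, huv, inv_mul_cancel]), add_zero]
    obtain ⟨y', G, hG, hy1, hy2⟩ := hT (fun x => χ (Function.surjInv hq x))
      (by
        intro x y
        change χ _ = χ _ + χ _
        rw [← hχ]
        exact hχq _ _ (by rw [map_mul, hs, hs, hs]))
      (by
        obtain ⟨u, hu⟩ := hne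
        refine ⟨q u, ?_⟩
        change χ _ ≠ 0
        rwa [hχq (Function.surjInv hq (q u)) u (hs _)])
    refine ⟨J y', G, hG, fun u => ?_, ?_⟩
    · rw [← hJ2, hy1, map_add, map_natCast]
      change J y' + (((χ (Function.surjInv hq (q u))).val : ℕ) : Al S) = _
      rw [hχq (Function.surjInv hq (q u)) u (hs _)]
    · rw [← map_pow, ← map_sub, hy2, hJ1]
  · have h1 := hw ⟨χ, hχ⟩
    have h2 := hF ⟨χ, hχ⟩
    have h3 := hN ⟨χ, hχ⟩
    set w₁ := w ⟨χ, hχ⟩ with hw₁
    set F₁ := F ⟨χ, hχ⟩ with hF₁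
    change ∀ u, Al.act S' (q u) w₁ = w₁ + (zc (Al S') (χ u) - zc (Al S') (χ ι₀) * a u) at h1
    change zc (Al S') (χ ι₀) * b₀ + (w₁ ^ p - w₁) = Al.cst S' F₁ at h2
    change F₁.natDegree ≤ N at h3
    have h0A : ((p : ℕ) : AS p b) = 0 := by
      rw [← map_natCast (AS.of p b) p, h0, map_zero]
    obtain ⟨y, hy⟩ : ∃ y, Φ y = zc (AS p b) (χ ι₀) * AS.rt p b + AS.of p b w₁ :=
      Φ.surjective _
    refine ⟨y, F₁ + zc k[X] (χ ι₀) * X ^ n, ?_, fun u => ?_, ?_⟩
    · have h4 : (((χ ι₀).val : ℕ) : k) ≠ 0 := by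
        intro h
        rw [CharP.cast_eq_zero_iff k p] at h
        have h5 : (χ ι₀).val < p := ZMod.val_lt _
        have h6 : (χ ι₀).val = 0 := Nat.eq_zero_of_dvd_of_lt h h5
        exact hc1 ((ZMod.val_eq_zero _).1 h6)
      have h5 : (zc k[X] (χ ι₀) * X ^ n : k[X]) = C (((χ ι₀).val : ℕ) : k) * X ^ n := by
        rw [zc, Polynomial.C_eq_natCast]
      have h6 : (zc k[X] (χ ι₀) * X ^ n : k[X]).natDegree = n := by
        rw [h5, Polynomial.natDegree_C_mul_X_pow n _ h4]
      rw [Polynomial.natDegree_add_eq_right_of_natDegree_lt (by rw [h6]; omega), h6]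
      exact hpn
    · apply Φ.injective
      have h4 : Φ (((χ u).val : ℕ) : Al S) = zc (AS p b) (χ u) := by
        rw [zc, map_natCast]
      rw [hσ, hy, map_add (AS.aff h0 _ _ _), map_mul, AS.aff_rt, AS.aff_of, h1, map_zc,
        map_add Φ, h4, hy, map_add (AS.of p b), map_sub, map_mul, map_zc, map_zc]
      ring
    · apply Φ.injective
      have h4 : AS.rt p b ^ p = AS.rt p b + AS.of p b b := by
        rw [← AS.rt_eq p b]
        ring
      have h5 := congrArg (AS.of p b) h2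
      rw [map_add, map_mul, map_zc, map_sub, map_pow] at h5
      rw [map_sub, map_pow, hy, hΦ1, add_pow_p h0A, mul_pow, zc_pow h0A, h4, hbdef,
        map_add (AS.of p _), map_add (Al.cst S'), map_mul (Al.cst S'), map_zc, map_add (AS.of p _),
        map_mul (AS.of p _), map_zc]
      linear_combination h5

end

end Pool.Agent.MP_1c8e06_ag.AJ
end
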