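import Pool.Agent.Lib.MP_1c8e06_ag.Mg.G053
import Pool.Agent.Lib.MP_1c8e06_ag.Mg.G054
import Pool.Agent.Lib.MP_1c8e06_ag.Mg.G103

section

set_option autoImplicit false

open Polynomial
open scoped Classical

namespace Pool.Agent.MP_1c8e06_ag.AJ

noncomputable section

/-!
# Task E4: the values of the basis have coefficients in a finitely generated ring

(Adaptation of `AI/E0c.lean`.)
Proof.  `K` from `newton`, `N₀ := K + 1`.  Let `S₀` be a finite set containing: all coefficients of all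
`S.μ i j l`, of `D.k.μ`, `D.k.T'`, `D.k.α`; and all coefficients `(b c 1 l).coeff n` (`c : G`, `l : P`) with
`n < N₀` (finitely many nonzero ones; put also `0`).
Let `R ⊇ S₀`.  Claim by induction on `N ≥ N₀`: all coefficients of all `b c 1` of index `< N` are in `R`.
Step `N → N+1`: let `y c` be the truncation of `b c 1` to indices `< N` (each coordinate).  Then `CoefIn R (y c)` and
`Fl N (y c - b c 1)`.  `newt D y c` has coefficients in `R` (`CoefIn.*`), and `newt D y c - b c 1` is in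
`Fl (2 N - K)`, `2 N - K ≥ N + 1`, so the coefficients of `b c 1` of index `< N+1` agree with those of `newt D y c`.
Finally `b l x = b l (1 * x) = ∑_m zeE (α x l m) * b m 1` (`hact`).
-/

/-- Truncation of a Laurent series to the exponents `< N`. -/
private def E4_tr {κ : Type} [Field κ] (N : ℤ) (a : LaurentSeries κ) : LaurentSeries κ where
  coeff i := if i < N then a.coeff i else 0
  isPWO_support' := a.isPWO_support.mono (by
    intro i hi
    rw [Function.mem_support] at hi
    rw [HahnSeries.mem_support]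
    intro h0
    apply hi
    rw [h0, ite_self])

private theorem E4_range_finite {κ : Type} [Field κ] (f : κ[X]) : (Set.range f.coeff).Finite := by
  refine ((f.coeffs : Set κ).toFinite.union (Set.finite_singleton (0 : κ))).subset ?_
  rintro _ ⟨n, rfl⟩
  by_cases h : f.coeff n = 0
  · exact Or.inr h
  · exact Or.inl (Finset.mem_coe.2 (Polynomial.coeff_mem_coeffs h))

theorem exists_finite_coef {κ : Type} [Field κ] {P : Type} [Group P] [Fintype P] {G : Type}
    [Group G] [Fintype G] {i : P →* G} {S : SC κ[X] P} (D : GD i (zeE S) (actE S)) :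
    ∃ S₀ : Finset κ, ∀ R : Subring κ, (∀ c ∈ S₀, c ∈ R) → ∀ l x, CoefIn R (D.b l x) := by
  obtain ⟨K, hK0, hK⟩ := newton D
  let S1 : Set κ := ⋃ (i : P) (j : P) (l : P), Set.range (S.μ i j l).coeff
  let S2 : Set κ := ⋃ (i : G) (j : G) (l : G), Set.range (D.k.μ i j l).coeff
  let S3 : Set κ := ⋃ (i : G) (j : G), Set.range (D.k.T' i j).coeff
  let S4 : Set κ := ⋃ (i : G) (j : G) (l : G), Set.range (D.k.α i j l).coeff
  let S5 : Set κ := ⋃ (c : G) (l : P),
    (fun n : ℤ => (D.b c 1 l : LaurentSeries κ).coeff n) '' {n : ℤ | n < K + 1}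
  have h5 : S5.Finite := by
    refine Set.finite_iUnion fun c => Set.finite_iUnion fun l => ?_
    have hfin : ((fun n : ℤ => (D.b c 1 l : LaurentSeries κ).coeff n) ''
        (Set.Icc ((D.b c 1 l : LaurentSeries κ).order) (K + 1))).Finite :=
      (Set.finite_Icc _ _).image _
    refine (hfin.union (Set.finite_singleton (0 : κ))).subset ?_
    rintro _ ⟨n, hn, rfl⟩
    change n < K + 1 at hn
    by_cases h : (D.b c 1 l : LaurentSeries κ).coeff n = 0
    · exact Or.inr h
    · refine Or.inl ⟨n, ⟨?_, hn.le⟩, rfl⟩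
      by_contra hlt
      exact h (HahnSeries.coeff_eq_zero_of_lt_order (not_le.1 hlt))
  have hS : (S1 ∪ S2 ∪ S3 ∪ S4 ∪ S5).Finite := by
    refine ((Set.Finite.union ?_ ?_).union ?_).union ?_ |>.union h5
    · exact Set.finite_iUnion fun i => Set.finite_iUnion fun j => Set.finite_iUnion fun l =>
        E4_range_finite _
    · exact Set.finite_iUnion fun i => Set.finite_iUnion fun j => Set.finite_iUnion fun l =>
        E4_range_finite _
    · exact Set.finite_iUnion fun i => Set.finite_iUnion fun j => E4_range_finite _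
    · exact Set.finite_iUnion fun i => Set.finite_iUnion fun j => Set.finite_iUnion fun l =>
        E4_range_finite _
  refine ⟨hS.toFinset, fun R hR => ?_⟩
  have hR' : ∀ a ∈ S1 ∪ S2 ∪ S3 ∪ S4 ∪ S5, a ∈ R := fun a ha => hR a (hS.mem_toFinset.2 ha)
  have hμS : ∀ i j l n, (S.μ i j l).coeff n ∈ R := fun i j l n =>
    hR' _ (Or.inl (Or.inl (Or.inl (Or.inl (by
      simp only [S1, Set.mem_iUnion]
      exact ⟨i, j, l, n, rfl⟩)))))
  have hμ : ∀ i j l n, (D.k.μ i j l).coeff n ∈ R := fun i j l n =>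
    hR' _ (Or.inl (Or.inl (Or.inl (Or.inr (by
      simp only [S2, Set.mem_iUnion]
      exact ⟨i, j, l, n, rfl⟩)))))
  have hT' : ∀ i j n, (D.k.T' i j).coeff n ∈ R := fun i j n =>
    hR' _ (Or.inl (Or.inl (Or.inr (by
      simp only [S3, Set.mem_iUnion]
      exact ⟨i, j, n, rfl⟩))))
  have hα : ∀ i j l n, (D.k.α i j l).coeff n ∈ R := fun i j l n =>
    hR' _ (Or.inl (Or.inr (by
      simp only [S4, Set.mem_iUnion]
      exact ⟨i, j, l, n, rfl⟩)))
  have hb : ∀ (c : G) (l : P) (n : ℤ), n < K + 1 → (D.b c 1 l : LaurentSeries κ).coeff n ∈ R :=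
    fun c l n hn => hR' _ (Or.inr (by
      simp only [S5, Set.mem_iUnion]
      exact ⟨c, l, n, hn, rfl⟩))
  have key : ∀ (M : ℕ) (c : G) (l : P) (n : ℤ), n < K + 1 + M →
        (D.b c 1 l : LaurentSeries κ).coeff n ∈ R := by
    intro M
    induction M with
    | zero =>
      intro c l n hn
      exact hb c l n (by simpa using hn)
    | succ M ih =>
      set N : ℤ := K + 1 + M with hN
      let y : G → El S := fun c => (fun l => E4_tr N (D.b c 1 l) : El S)
      have hyc : ∀ (c : G) (l : P) (n : ℤ), (y c l : LaurentSeries κ).coeff n =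
          if n < N then (D.b c 1 l : LaurentSeries κ).coeff n else 0 := fun _ _ _ => rfl
      have hyR : ∀ c, CoefIn R (y c) := by
        intro c l n
        rw [hyc]
        split_ifs with h
        · exact ih c l n h
        · exact R.zero_mem
      have hyF : ∀ c, Fl S N (y c - D.b c 1) := by
        intro c l n hn
        rw [Al.sub_apply, HahnSeries.coeff_sub, hyc, if_pos hn, sub_self]
      have hnR : ∀ c, CoefIn R (newt D y c) := by
        intro c
        refine (hyR c).add (CoefIn.sum _ fun j _ => CoefIn.mul hμS ?_ ?_)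
        · exact CoefIn.sum _ fun l _ => CoefIn.ze_mul (hT' j l) (hyR l)
        · exact (CoefIn.sum _ fun m _ => CoefIn.ze_mul (hμ j c m) (hyR m)).sub
            (CoefIn.mul hμS (hyR j) (hyR c))
      intro c l n hn
      have h1 := hK N (by omega) y hyF c l n (by push_cast at hn; omega)
      rw [Al.sub_apply, HahnSeries.coeff_sub, sub_eq_zero] at h1
      rw [← h1]
      exact hnR c l n
  have hb1 : ∀ c, CoefIn R (D.b c 1) := by
    intro c l n
    refine key n.toNat c l n ?_
    omega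
  intro l x
  have h := D.hact x l 1
  rw [one_mul] at h
  rw [h]
  exact CoefIn.sum _ fun m _ => CoefIn.ze_mul (hα x l m) (hb1 m)

end

end Pool.Agent.MP_1c8e06_ag.AJ
end

section

set_option autoImplicit false

open Polynomial
open scoped Classical

namespace Pool.Agent.MP_1c8e06_ag.AJ

noncomputable section

section E7_aux

private theorem E7_coeff {k : Type} [Field k] {P : Type} [Group P] [Fintype P] (S : SC k[X] P)
    (a : k) (d : ℕ) (b : El S) (m : P) (n : ℤ) :
    ((zeE S (C a * X ^ d) * b : El S) m : LaurentSeries k).coeff n =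
      a * (b m : LaurentSeries k).coeff (n + d) := by
  have h0 : ((zeE S (C a * X ^ d) * b : El S) m : LaurentSeries k) =
      AI.zinv k (C a * X ^ d) * (b m : LaurentSeries k) := Al.cst_mul _ _ _ _
  have hC : ∀ z : LaurentSeries k, (HahnSeries.C a * z).coeff n = a * z.coeff n := fun z => by
    rw [HahnSeries.C_mul_eq_smul, HahnSeries.coeff_smul, smul_eq_mul]
  rw [h0, map_mul, map_pow, AI.zinv_X, AI.zinv_C, HahnSeries.single_pow, one_pow, mul_assoc, hC]
  congr 1
  have h := HahnSeries.coeff_single_mul_add (r := (1 : k)) (x := (b m : LaurentSeries k))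
    (a := n + d) (b := d • (-1 : ℤ))
  rw [one_mul] at h
  rw [← h]
  congr 1
  simp

private theorem E7_coeff_C {k : Type} [Field k] {P : Type} [Group P] [Fintype P] (S : SC k[X] P)
    (a : k) (m : P) (n : ℤ) :
    ((zeE S (C a) : El S) m : LaurentSeries k).coeff n =
      a * (AI.zinv k (S.ν m)).coeff n := by
  have h0 : ((zeE S (C a) : El S) m : LaurentSeries k) =
      AI.zinv k (C a) * AI.zinv k (S.ν m) := rfl
  rw [h0, AI.zinv_C, HahnSeries.C_mul_eq_smul, HahnSeries.coeff_smul, smul_eq_mul]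

/-- The certificate over `k` gives `Conn'`. -/
private theorem E7_conn {k : Type} [Field k] {P : Type} [Group P] [Fintype P] {G : Type}
    [Group G] [Fintype G] {i : P →* G} {S : SC k[X] P} (D : GD i (zeE S) (actE S))
    (H : Subgroup G) (Nb c₀ dT : ℕ)
    (hNb : ∀ l x m, ∀ n : ℤ, n < -(Nb : ℤ) → (D.b l x m : LaurentSeries k).coeff n = 0)
    (hc₀ : ∀ a b l, (S.μ a b l).natDegree ≤ c₀)
    (hdT : ∀ a b, (D.k.T' a b).natDegree ≤ dT)
    (I : Finset (G × P × ℤ)) (r : G → G × P × ℤ → k)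
    (hr1 : ∀ h ∈ H, ∀ (l : G) (d : ℕ), d ≤ Nb + c₀ + dT →
        ∑ w ∈ I, r h w * (D.b l w.1 w.2.1 : LaurentSeries k).coeff (w.2.2 + d) = 0)
    (hr2 : ∀ h ∈ H, ∀ x : G, (if x = 1 then (1 : k) else 0) - (if x = h then 1 else 0) +
        ∑ w ∈ I, (if w.1 = x then
          r h w * (AI.zinv k (S.ν w.2.1)).coeff w.2.2 else 0) = 0) :
    D.Conn' H := by
  intro h hh f c hc
  -- degree bounds
  have h1 : ∀ m, zeE S (∑ l, f l * D.k.T l m) = ∑ x, zeE S (C (c x)) * D.b m x := by
    intro m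
    rw [map_sum]
    have e1 : ∀ l, zeE S (f l * D.k.T l m) = ∑ x, zeE S (f l) * D.b l x * D.b m x := by
      intro l
      rw [map_mul, ← D.htr, Finset.mul_sum]
      exact Finset.sum_congr rfl fun x _ => by ring
    rw [Finset.sum_congr rfl fun l _ => e1 l, Finset.sum_comm]
    refine Finset.sum_congr rfl fun x _ => ?_
    rw [← hc x, Finset.sum_mul]
  have h2 : ∀ m, (∑ l, f l * D.k.T l m).natDegree ≤ Nb + c₀ := by
    intro m
    rw [Polynomial.natDegree_le_iff_coeff_eq_zero]
    intro n hn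
    have hFl : Fl S (-(Nb : ℤ)) (zeE S (∑ l, f l * D.k.T l m)) := by
      rw [h1]
      refine Fl.sum _ fun x _ => ?_
      have hb : Fl S (-(Nb : ℤ)) (D.b m x) := fun l n hn => hNb m x l n hn
      have h3 := Fl.oE_mul (M := 0) (c := AI.zinv k (C (c x))) (fun n hn => by
        rw [AI.zinv_C, HahnSeries.C_apply, HahnSeries.coeff_single_of_ne hn.ne]) hb
      rw [zero_add] at h3
      exact h3
    have h4 := Fl.mul hc₀ hFl (Fl.e (S := S) 1)
    have h5 := h4 1 (-(n : ℤ)) (by omega)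
    have h6 : ((zeE S (∑ l, f l * D.k.T l m) * Al.e (S.map (AI.zinv k)) 1 : El S) 1 :
        LaurentSeries k) = AI.zinv k (∑ l, f l * D.k.T l m) := by
      have h7 : ((zeE S (∑ l, f l * D.k.T l m) * Al.e (S.map (AI.zinv k)) 1 : El S) 1 :
          LaurentSeries k) = AI.zinv k (∑ l, f l * D.k.T l m) *
            (Al.e (S.map (AI.zinv k)) 1 : El S) 1 := Al.cst_mul _ _ _ _
      have h8 : ((Al.e (S.map (AI.zinv k)) 1 : El S) 1 : LaurentSeries k) = 1 := if_pos rfl
      rw [h7, h8, mul_one]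
    rw [h6, AI.zinv_coeff, if_pos (by omega), neg_neg, Int.toNat_natCast] at h5
    exact h5
  have h5 : ∀ n, f n = ∑ m, (∑ l, f l * D.k.T l m) * D.k.T' m n := by
    intro n
    have e1 : ∀ m, (∑ l, f l * D.k.T l m) * D.k.T' m n =
        ∑ l, f l * (D.k.T l m * D.k.T' m n) := by
      intro m
      rw [Finset.sum_mul]
      exact Finset.sum_congr rfl fun l _ => by ring
    rw [Finset.sum_congr rfl fun m _ => e1 m, Finset.sum_comm]
    have e2 : ∀ l, ∑ m, f l * (D.k.T l m * D.k.T' m n) = if l = n then f l else 0 := by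
      intro l
      rw [← Finset.mul_sum, D.TT' (zeE_injective S)]
      split_ifs <;> simp
    rw [Finset.sum_congr rfl fun l _ => e2 l, Finset.sum_ite_eq' Finset.univ n f,
      if_pos (Finset.mem_univ n)]
  have h6 : ∀ n, (f n).natDegree ≤ Nb + c₀ + dT := by
    intro n
    rw [h5 n]
    refine Polynomial.natDegree_sum_le_of_forall_le _ _ fun m _ => ?_
    exact (Polynomial.natDegree_mul_le).trans (Nat.add_le_add (h2 m) (hdT m n))
  -- the coefficient formula
  have h7 : ∀ (x : G) (m : P) (n : ℤ), c x * (AI.zinv k (S.ν m)).coeff n =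
      ∑ l, ∑ d ∈ Finset.range (Nb + c₀ + dT + 1),
        (f l).coeff d * (D.b l x m : LaurentSeries k).coeff (n + d) := by
    intro x m n
    rw [← E7_coeff_C, ← hc x]
    have e0 : ((∑ l, zeE S (f l) * D.b l x : El S) m : LaurentSeries k) =
        ∑ l, ((zeE S (f l) * D.b l x : El S) m : LaurentSeries k) := Al.sum_apply _ _ _ _
    rw [e0, HahnSeries.coeff_sum]
    refine Finset.sum_congr rfl fun l _ => ?_
    have e1 : f l = ∑ d ∈ Finset.range (Nb + c₀ + dT + 1), C ((f l).coeff d) * X ^ d :=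
      Polynomial.as_sum_range_C_mul_X_pow' (f l) (Nat.lt_succ_of_le (h6 l))
    have e2 : (zeE S (f l) * D.b l x : El S) =
        ∑ d ∈ Finset.range (Nb + c₀ + dT + 1), zeE S (C ((f l).coeff d) * X ^ d) * D.b l x := by
      conv_lhs => rw [e1]
      rw [map_sum, Finset.sum_mul]
    have e3 : ((zeE S (f l) * D.b l x : El S) m : LaurentSeries k) =
        ∑ d ∈ Finset.range (Nb + c₀ + dT + 1),
          ((zeE S (C ((f l).coeff d) * X ^ d) * D.b l x : El S) m : LaurentSeries k) := by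
      rw [e2]
      exact Al.sum_apply _ _ _ _
    rw [e3, HahnSeries.coeff_sum]
    refine Finset.sum_congr rfl fun d _ => ?_
    rw [E7_coeff]
  -- the first family
  have h8 : ∑ w ∈ I, r h w * (c w.1 * (AI.zinv k (S.ν w.2.1)).coeff w.2.2) = 0 := by
    have e1 : ∀ w ∈ I, r h w * (c w.1 * (AI.zinv k (S.ν w.2.1)).coeff w.2.2) =
        ∑ l, ∑ d ∈ Finset.range (Nb + c₀ + dT + 1), (f l).coeff d *
          (r h w * (D.b l w.1 w.2.1 : LaurentSeries k).coeff (w.2.2 + d)) := by
      intro w _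
      rw [h7, Finset.mul_sum]
      refine Finset.sum_congr rfl fun l _ => ?_
      rw [Finset.mul_sum]
      exact Finset.sum_congr rfl fun d _ => by ring
    rw [Finset.sum_congr rfl e1, Finset.sum_comm]
    refine Finset.sum_eq_zero fun l _ => ?_
    rw [Finset.sum_comm]
    refine Finset.sum_eq_zero fun d hd => ?_
    rw [← Finset.mul_sum, hr1 h hh l d (by have := Finset.mem_range.1 hd; omega), mul_zero]
  -- the second family
  have h9 : ∑ x : G, c x * ((if x = 1 then (1 : k) else 0) - (if x = h then 1 else 0) +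
        ∑ w ∈ I, (if w.1 = x then
          r h w * (AI.zinv k (S.ν w.2.1)).coeff w.2.2 else 0)) = 0 :=
    Finset.sum_eq_zero fun x _ => by rw [hr2 h hh x, mul_zero]
  have h10 : ∑ x : G, c x * (∑ w ∈ I, (if w.1 = x then
      r h w * (AI.zinv k (S.ν w.2.1)).coeff w.2.2 else 0)) = 0 := by
    refine Eq.trans ?_ h8
    have e1 : ∀ x : G, c x * (∑ w ∈ I, (if w.1 = x then
        r h w * (AI.zinv k (S.ν w.2.1)).coeff w.2.2 else 0)) =
        ∑ w ∈ I, (if w.1 = x then
          r h w * (c w.1 * (AI.zinv k (S.ν w.2.1)).coeff w.2.2) else 0) := by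
      intro x
      rw [Finset.mul_sum]
      refine Finset.sum_congr rfl fun w _ => ?_
      split_ifs with hw
      · rw [hw]
        ring
      · rw [mul_zero]
    rw [Finset.sum_congr rfl fun x _ => e1 x, Finset.sum_comm]
    refine Finset.sum_congr rfl fun w _ => ?_
    rw [Finset.sum_ite_eq Finset.univ w.1, if_pos (Finset.mem_univ _)]
  simp only [mul_add, mul_sub, Finset.sum_add_distrib, Finset.sum_sub_distrib] at h9
  rw [h10, add_zero] at h9
  simp only [mul_ite, mul_one, mul_zero, Finset.sum_ite_eq', Finset.mem_univ, if_true] at h9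
  exact (sub_eq_zero.1 h9).symm

private theorem E7_mapA_inj {B B' : Type} [CommRing B] [CommRing B'] {P : Type} [Group P]
    [Fintype P] (S : SC B P) (φ : B →+* B') (hφ : Function.Injective φ) :
    Function.Injective (Al.mapA S φ) := by
  intro a b h
  refine Al.ext fun l => hφ ?_
  rw [← Al.mapA_apply, ← Al.mapA_apply, h]

/-- The specialisation, with all data over a subring. -/
private theorem E7_sub {p : ℕ} [hp : Fact p.Prime] {k : Type} [Field k]
    {κ : Type} [Field κ] {P : Type} [Group P] [Fintype P] {G : Type} [Group G] [Fintype G]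
    {i : P →* G} {S : SC κ[X] P} (D : GD i (zeE S) (actE S)) (H : Subgroup G)
    (R : Subring κ) (S₀ : SC R[X] P) (hS₀ : S₀.map (Polynomial.mapRingHom R.subtype) = S)
    (hb : ∀ l x, CoefIn R (D.b l x)) (hμ : ∀ a b l n, (D.k.μ a b l).coeff n ∈ R)
    (hα : ∀ a b l n, (D.k.α a b l).coeff n ∈ R) (hν : ∀ l n, (D.k.ν l).coeff n ∈ R)
    (hT : ∀ a b n, (D.k.T a b).coeff n ∈ R) (hT' : ∀ a b n, (D.k.T' a b).coeff n ∈ R)
    (φ : R →+* k) (Y : (P → ZMod p) → Al S) (Fc : (P → ZMod p) → κ[X])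
    (hY : ∀ χ l n, (Y χ l : κ[X]).coeff n ∈ R) (hF : ∀ χ n, (Fc χ).coeff n ∈ R)
    (hFl : ∀ χ, (Fc χ).leadingCoeff⁻¹ ∈ R)
    (hYF : ∀ χ : P → ZMod p, (∀ u v, χ (u * v) = χ u + χ v) → (∃ u, χ u ≠ 0) →
      ¬ p ∣ (Fc χ).natDegree ∧
      (∀ u, Al.act S u (Y χ) = Y χ + (((χ u).val : ℕ) : Al S)) ∧
      (Y χ) ^ p - Y χ = Al.cst S (Fc χ))
    (Nb c₀ dT : ℕ)
    (hNb : ∀ l x m, ∀ n : ℤ, n < -(Nb : ℤ) → (D.b l x m : LaurentSeries κ).coeff n = 0)
    (hc₀ : ∀ a b l, (S.μ a b l).natDegree ≤ c₀)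
    (hdT : ∀ a b, (D.k.T' a b).natDegree ≤ dT)
    (I : Finset (G × P × ℤ)) (r : G → G × P × ℤ → κ) (hrR : ∀ h, ∀ w ∈ I, r h w ∈ R)
    (hr1 : ∀ h ∈ H, ∀ (l : G) (d : ℕ), d ≤ Nb + c₀ + dT →
        ∑ w ∈ I, r h w * (D.b l w.1 w.2.1 : LaurentSeries κ).coeff (w.2.2 + d) = 0)
    (hr2 : ∀ h ∈ H, ∀ x : G, (if x = 1 then (1 : κ) else 0) - (if x = h then 1 else 0) +
        ∑ w ∈ I, (if w.1 = x then
          r h w * (AI.zinv κ (S.ν w.2.1)).coeff w.2.2 else 0) = 0) :
    RE p k i H := by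
  subst hS₀
  have hinj : Function.Injective R.subtype := Subtype.val_injective
  obtain ⟨D₀, hD₀, hT₀⟩ := exists_GD_subring R S₀ D hb hμ hα hν hT hT'
  refine ⟨S₀.map (Polynomial.mapRingHom φ), ?_,
    D₀.push (Polynomial.mapRingHom φ) (mapE φ S₀) (MonoidHom.id P) i (fun _ => rfl)
      (zeE (S₀.map (Polynomial.mapRingHom φ))) (actE (S₀.map (Polynomial.mapRingHom φ)))
      (fun f => mapE_zeE φ S₀ f) (fun u a => mapE_actE φ S₀ u a), ?_⟩
  · intro χ hadd hne
    obtain ⟨h1, h2, h3⟩ := hYF χ hadd hne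
    have hlift : ∀ f : κ[X], (∀ n, f.coeff n ∈ R) → ∃ f₀ : R[X], f₀.map R.subtype = f := by
      intro f hf
      refine ⟨f.toSubring R (fun c hc => ?_), Polynomial.map_toSubring _ _ _⟩
      obtain ⟨n, _, rfl⟩ := Polynomial.mem_coeffs_iff.1 hc
      exact hf n
    obtain ⟨y₀, hy₀⟩ : ∃ y₀ : Al S₀, ∀ l, (y₀ l : R[X]).map R.subtype = (Y χ l : κ[X]) := by
      choose y₀ hy₀ using fun l => hlift (Y χ l) (hY χ l)
      exact ⟨y₀, hy₀⟩
    obtain ⟨F₀, hF₀⟩ := hlift (Fc χ) (hF χ)
    have hmy : Al.mapA S₀ (Polynomial.mapRingHom R.subtype) y₀ = Y χ := by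
      refine Al.ext fun l => ?_
      rw [Al.mapA_apply]
      exact hy₀ l
    have hi := E7_mapA_inj S₀ (Polynomial.mapRingHom R.subtype)
      (Polynomial.map_injective _ hinj)
    have hFne : Fc χ ≠ 0 := by
      intro h0
      rw [h0] at h1
      exact h1 (by simp)
    have hlead0 : R.subtype F₀.leadingCoeff = (Fc χ).leadingCoeff := by
      rw [← hF₀, Polynomial.leadingCoeff_map_of_injective hinj]
    have hlead : φ F₀.leadingCoeff ≠ 0 := by
      have e1 : F₀.leadingCoeff * ⟨(Fc χ).leadingCoeff⁻¹, hFl χ⟩ = 1 := by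
        apply Subtype.val_injective
        change R.subtype F₀.leadingCoeff * (Fc χ).leadingCoeff⁻¹ = 1
        rw [hlead0]
        exact mul_inv_cancel₀ (Polynomial.leadingCoeff_ne_zero.2 hFne)
      intro h0
      have e2 := congrArg φ e1
      rw [map_mul, h0, zero_mul, map_one] at e2
      exact zero_ne_one e2
    refine ⟨Al.mapA S₀ (Polynomial.mapRingHom φ) y₀, F₀.map φ, ?_, fun u => ?_, ?_⟩
    · rw [Polynomial.natDegree_map_of_leadingCoeff_ne_zero _ hlead,
        ← Polynomial.natDegree_map_eq_of_injective hinj, hF₀]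
      exact h1
    · have e1 : Al.act S₀ u y₀ = y₀ + (((χ u).val : ℕ) : Al S₀) := by
        apply hi
        rw [Al.mapA_act, hmy, h2, map_add, hmy, map_natCast]
      rw [← Al.mapA_act, e1, map_add, map_natCast]
    · have e1 : y₀ ^ p - y₀ = Al.cst S₀ F₀ := by
        apply hi
        rw [map_sub, map_pow, hmy, h3, Al.mapA_cst]
        congr 1
        exact hF₀.symm
      rw [← map_pow, ← map_sub, e1, Al.mapA_cst]
      rfl
  · have c1 : ∀ l x m (n : ℤ), (mapE φ S₀ (D₀.b l x) m : LaurentSeries k).coeff n =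
        φ ((D₀.b l x m : LaurentSeries R).coeff n) := fun l x m n => mapE_coeff φ S₀ _ m n
    have c2 : ∀ l x m (n : ℤ), (D.b l x m : LaurentSeries κ).coeff n =
        R.subtype ((D₀.b l x m : LaurentSeries R).coeff n) := by
      intro l x m n
      rw [← hD₀, mapE_coeff]
    have c3 : ∀ m (n : ℤ), (AI.zinv κ ((S₀.map (Polynomial.mapRingHom R.subtype)).ν m)).coeff n =
        R.subtype ((AI.zinv R (S₀.ν m)).coeff n) := by
      intro m n
      rw [← AI.mapL_coeff, AI.mapL_zinv]
      rfl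
    have c4 : ∀ m (n : ℤ), (AI.zinv k ((S₀.map (Polynomial.mapRingHom φ)).ν m)).coeff n =
        φ ((AI.zinv R (S₀.ν m)).coeff n) := by
      intro m n
      rw [← AI.mapL_coeff, AI.mapL_zinv]
      rfl
    refine E7_conn _ H Nb c₀ dT ?_ ?_ ?_ I
      (fun h w => if hw : w ∈ I then φ ⟨r h w, hrR h w hw⟩ else 0) ?_ ?_
    · intro l x m n hn
      change (mapE φ S₀ (D₀.b l x) m : LaurentSeries k).coeff n = 0
      rw [c1]
      have h1 := hNb l x m n hn
      rw [c2] at h1
      have h2 : (D₀.b l x m : LaurentSeries R).coeff n = 0 := hinj (by rw [h1, map_zero])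
      rw [h2, map_zero]
    · intro a b l
      change ((S₀.μ a b l).map φ).natDegree ≤ c₀
      refine (Polynomial.natDegree_map_le).trans ?_
      rw [← Polynomial.natDegree_map_eq_of_injective hinj (S₀.μ a b l)]
      exact hc₀ a b l
    · intro a b
      change ((D₀.k.T' a b).map φ).natDegree ≤ dT
      refine (Polynomial.natDegree_map_le).trans ?_
      rw [← Polynomial.natDegree_map_eq_of_injective hinj (D₀.k.T' a b), hT₀]
      exact hdT a b
    · intro h hh l d hd
      change ∑ w ∈ I, (if hw : w ∈ I then φ ⟨r h w, hrR h w hw⟩ else 0) *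
        (mapE φ S₀ (D₀.b l w.1) w.2.1 : LaurentSeries k).coeff (w.2.2 + d) = 0
      have h1 := hr1 h hh l d hd
      have h2 : ∑ w ∈ I, (if hw : w ∈ I then (⟨r h w, hrR h w hw⟩ : R) else 0) *
          (D₀.b l w.1 w.2.1 : LaurentSeries R).coeff (w.2.2 + d) = 0 := by
        apply hinj
        rw [map_zero, map_sum]
        refine Eq.trans ?_ h1
        refine Finset.sum_congr rfl fun w hw => ?_
        rw [map_mul, ← c2, dif_pos hw]
        rfl
      have h3 := congrArg φ h2
      rw [map_zero, map_sum] at h3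
      refine Eq.trans ?_ h3
      refine Finset.sum_congr rfl fun w hw => ?_
      rw [map_mul, ← c1, dif_pos hw, dif_pos hw]
    · intro h hh x
      have h1 := hr2 h hh x
      have h2 : (if x = 1 then (1 : R) else 0) - (if x = h then 1 else 0) +
          ∑ w ∈ I, (if w.1 = x then
            (if hw : w ∈ I then (⟨r h w, hrR h w hw⟩ : R) else 0) *
              (AI.zinv R (S₀.ν w.2.1)).coeff w.2.2 else 0) = 0 := by
        apply hinj
        rw [map_zero, map_add, map_sub, map_sum]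
        refine Eq.trans ?_ h1
        congr 1
        · congr 1
          · split_ifs <;> simp
          · split_ifs <;> simp
        · refine Finset.sum_congr rfl fun w hw => ?_
          rw [dif_pos hw]
          split_ifs
          · rw [map_mul, ← c3]
            rfl
          · rw [map_zero]
      have h3 := congrArg φ h2
      rw [map_zero, map_add, map_sub, map_sum] at h3
      refine Eq.trans ?_ h3
      congr 1
      · congr 1
        · split_ifs <;> simp
        · split_ifs <;> simp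
      · refine Finset.sum_congr rfl fun w hw => ?_
        rw [dif_pos hw, dif_pos hw]
        split_ifs
        · rw [map_mul, ← c4]
        · rw [map_zero]

end E7_aux

/-!
# Task E7: specialisation

(Adaptation of `AI/E4b.lean`.)
Proof.
1. `exists_finite_coef`: a finite set `S₀`.  Bound `Nb : ℕ` with `(b l x m).coeff n = 0` for `n < -Nb` (all
   `l, x, m`) and `(zinv (S.ν m)).coeff n = 0` for `n < -Nb`, `c₀` from `Fl.exists_bound` (it also bounds the degrees of the constants of
   `S'` below), `dT` a bound for the degrees of all `D.k.T' i j`, `N := 3 * Nb + c₀ + dT` (generous).  `exists_certificate D H hD N`: `I`, `r`.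
   For the finitely many nonzero additive `χ : P → ZMod p`: `y_χ : Al S` (coordinates in `κ[X]`), `F_χ` from `hT`.
2. Let `M` be the finite set of: `S₀`; the coefficients of all `S.μ, α, ν, T, T'`, `D.k.μ, α, ν, T, T'`, of the
   coordinates of the `y_χ`, of the `F_χ`; the inverses of the leading coefficients of the `F_χ`; the `r h w`,
   `w ∈ I`.  `A := Algebra.adjoin k M : Subalgebra k κ`, of finite type over `k`; `φ : A →ₐ[k] k` from
   `AI.exists_point`.  `R := A.toSubring`.  `S_R` from `exists_SC_subring` (`subst`), `D_R` from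
   `exists_GD_subring`, `S' := S_R.map (mapRingHom φ)`, `D' := D_R.push` with `mapRingHom φ` and `mapE φ S_R`.
3. `TC p S'`: lift `y_χ, F_χ` to `R` (`Al S_R`, `R[X]`): the identities hold over `R` (injectivity of
   `R[X] → κ[X]`, coordinates), apply `Al.mapA S_R (mapRingHom φ)`.  The leading coefficient of `F_χ` is a unit of
   `R`, so the degree does not change under `φ`.
4. Coefficients: `(D'.b l x m).coeff n = φ ((D_R.b l x m).coeff n)` and
   `R.subtype ((D_R.b l x m).coeff n) = (D.b l x m).coeff n` (`mapE_coeff`).  So the bounds `Nb`, `dT` hold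
   for `D'`, and the two identities of the certificate hold for `D'`, `S'` with `φ (r h w)`.
5. `Conn' H` for `D'`: let `∑_l zeE (f l) * D'.b l x = zeE (C (c x))` for all `x`.
   Degrees: `zeE (∑_l f l * T l m) = ∑_x zeE (C (c x)) * D'.b m x` (`htr`): it is in `Fl (-Nb)` (`oE (C _) * a`), and
   `zeE g = oE (zinv g)` with coordinates `zinv g * zinv (ν m)`; multiply with the element `θ`... simpler:
   a bound for `natDegree g` from `Fl (-Nb) (zeE g)`: `g` is determined by `cst g * e 1`, whose coordinate at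
   `1` is `g`: `zeE g * e 1 ∈ Fl (-Nb - c₀)` (`Fl.mul`, `e 1 ∈ Fl 0`), and its coordinate at `1` is `zinv g`, so
   `natDegree g ≤ Nb + c₀`.  Then `f n = ∑_m (∑_l f l * T l m) * T' m n` (`GD.TT'`) has degree
   `≤ Nb + c₀ + dT ≤ N`.
   Write `f l = ∑_{d ≤ N} C ((f l).coeff d) * X^d`; for all `x, m, n`:
   `∑_l ∑_{d≤N} (f l).coeff d * (D'.b l x m).coeff (n + d) = c x * (zinv (S'.ν m)).coeff n`.
   Multiply the first identity of the certificate by `(f l).coeff d` and sum over `l, d ≤ N`: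
   `0 = ∑_{w ∈ I} φ(r h w) * c w.1 * (zinv (S'.ν w.2.1)).coeff w.2.2`; multiply the second by `c x` and sum over
   `x`: `c 1 - c h + ∑_{w ∈ I} φ(r h w) * c w.1 * (..) = 0`.  Hence `c 1 = c h`.
-/

theorem specialise {p : ℕ} [hp : Fact p.Prime] (k : Type) [Field k] [IsAlgClosed k] [CharP k p]
    {κ : Type} [Field κ] [Algebra k κ] {P : Type} [Group P] [Fintype P] {G : Type} [Group G]
    [Fintype G] {i : P →* G} {S : SC κ[X] P} (hT : TC p S) (D : GD i (zeE S) (actE S))
    (H : Subgroup G) (hD : D.Conn' H) : RE p k i H := by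
  have : NeZero p := ⟨hp.out.ne_zero⟩
  obtain ⟨S₀, hS₀⟩ := exists_finite_coef D
  -- bounds
  obtain ⟨Nb, hNb⟩ : ∃ Nb : ℕ, ∀ l x m, ∀ n : ℤ, n < -(Nb : ℤ) →
      (D.b l x m : LaurentSeries κ).coeff n = 0 := by
    refine ⟨Finset.univ.sup fun l => Finset.univ.sup fun x => Finset.univ.sup fun m =>
      (-(D.b l x m : LaurentSeries κ).order).toNat, fun l x m n hn => ?_⟩
    have h1 : (-(D.b l x m : LaurentSeries κ).order).toNat ≤
        Finset.univ.sup fun l => Finset.univ.sup fun x => Finset.univ.sup fun m =>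
          (-(D.b l x m : LaurentSeries κ).order).toNat :=
      ((Finset.le_sup (f := fun m => (-(D.b l x m : LaurentSeries κ).order).toNat)
        (Finset.mem_univ m)).trans
        (Finset.le_sup (f := fun x => Finset.univ.sup fun m =>
          (-(D.b l x m : LaurentSeries κ).order).toNat) (Finset.mem_univ x))).trans
        (Finset.le_sup (f := fun l => Finset.univ.sup fun x => Finset.univ.sup fun m =>
          (-(D.b l x m : LaurentSeries κ).order).toNat) (Finset.mem_univ l))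
    refine HahnSeries.coeff_eq_zero_of_lt_order ?_
    have h2 := Int.self_le_toNat (-(D.b l x m : LaurentSeries κ).order)
    omega
  obtain ⟨c₀, hc₀, -, -⟩ := Fl.exists_bound S
  obtain ⟨dT, hdT⟩ : ∃ dT : ℕ, ∀ a b, (D.k.T' a b).natDegree ≤ dT :=
    ⟨Finset.univ.sup fun a => Finset.univ.sup fun b => (D.k.T' a b).natDegree, fun a b =>
      (Finset.le_sup (f := fun b => (D.k.T' a b).natDegree) (Finset.mem_univ b)).trans
        (Finset.le_sup (f := fun a => Finset.univ.sup fun b => (D.k.T' a b).natDegree)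
          (Finset.mem_univ a))⟩
  obtain ⟨I, r, hr1, hr2⟩ := exists_certificate D H hD (Nb + c₀ + dT)
  have hTC : ∀ χ : P → ZMod p, ∃ (y : Al S) (F : κ[X]),
      (∀ u v, χ (u * v) = χ u + χ v) → (∃ u, χ u ≠ 0) →
      ¬ p ∣ F.natDegree ∧
      (∀ u, Al.act S u y = y + (((χ u).val : ℕ) : Al S)) ∧
      y ^ p - y = Al.cst S F := by
    intro χ
    by_cases h : (∀ u v, χ (u * v) = χ u + χ v) ∧ ∃ u, χ u ≠ 0
    · obtain ⟨y, F, h1, h2, h3⟩ := hT χ h.1 h.2
      exact ⟨y, F, fun _ _ => ⟨h1, h2, h3⟩⟩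
    · exact ⟨0, 0, fun h1 h2 => absurd ⟨h1, h2⟩ h⟩
  choose Y Fc hYF using hTC
  -- the finitely generated algebra
  let M : Set κ := ↑S₀ ∪ (⋃ i, ⋃ j, ⋃ l, ↑(S.μ i j l).coeffs) ∪
    (⋃ i, ⋃ j, ⋃ l, ↑(S.α i j l).coeffs) ∪ (⋃ l, ↑(S.ν l).coeffs) ∪
    (⋃ i, ⋃ j, ↑(S.T i j).coeffs) ∪ (⋃ i, ⋃ j, ↑(S.T' i j).coeffs) ∪
    (⋃ i, ⋃ j, ⋃ l, ↑(D.k.μ i j l).coeffs) ∪
    (⋃ i, ⋃ j, ⋃ l, ↑(D.k.α i j l).coeffs) ∪ (⋃ l, ↑(D.k.ν l).coeffs) ∪
    (⋃ i, ⋃ j, ↑(D.k.T i j).coeffs) ∪ (⋃ i, ⋃ j, ↑(D.k.T' i j).coeffs) ∪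
    (⋃ χ, ⋃ l, ↑(Y χ l : κ[X]).coeffs) ∪ (⋃ χ, ↑(Fc χ).coeffs) ∪ (⋃ χ, {(Fc χ).leadingCoeff⁻¹}) ∪
    (⋃ h, ⋃ w ∈ I, {r h w})
  have hMfin : M.Finite := by
    refine Set.Finite.union (Set.Finite.union (Set.Finite.union (Set.Finite.union
      (Set.Finite.union (Set.Finite.union (Set.Finite.union (Set.Finite.union
      (Set.Finite.union (Set.Finite.union (Set.Finite.union (Set.Finite.union
      (Set.Finite.union (Set.Finite.union
        S₀.finite_toSet ?_) ?_) ?_) ?_) ?_) ?_) ?_) ?_) ?_) ?_) ?_) ?_) ?_) ?_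
    · exact Set.finite_iUnion fun i => Set.finite_iUnion fun j => Set.finite_iUnion fun l =>
        Finset.finite_toSet _
    · exact Set.finite_iUnion fun i => Set.finite_iUnion fun j => Set.finite_iUnion fun l =>
        Finset.finite_toSet _
    · exact Set.finite_iUnion fun l => Finset.finite_toSet _
    · exact Set.finite_iUnion fun i => Set.finite_iUnion fun j => Finset.finite_toSet _
    · exact Set.finite_iUnion fun i => Set.finite_iUnion fun j => Finset.finite_toSet _
    · exact Set.finite_iUnion fun i => Set.finite_iUnion fun j => Set.finite_iUnion fun l =>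
        Finset.finite_toSet _
    · exact Set.finite_iUnion fun i => Set.finite_iUnion fun j => Set.finite_iUnion fun l =>
        Finset.finite_toSet _
    · exact Set.finite_iUnion fun l => Finset.finite_toSet _
    · exact Set.finite_iUnion fun i => Set.finite_iUnion fun j => Finset.finite_toSet _
    · exact Set.finite_iUnion fun i => Set.finite_iUnion fun j => Finset.finite_toSet _
    · exact Set.finite_iUnion fun χ => Set.finite_iUnion fun l => Finset.finite_toSet _
    · exact Set.finite_iUnion fun χ => Finset.finite_toSet _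
    · exact Set.finite_iUnion fun χ => Set.finite_singleton _
    · exact Set.finite_iUnion fun x => Set.Finite.biUnion I.finite_toSet
        fun i _ => Set.finite_singleton _
  let A : Subalgebra k κ := Algebra.adjoin k M
  have hMA : ∀ c ∈ M, c ∈ A := fun c hc => Algebra.subset_adjoin hc
  have hft : Algebra.FiniteType k A :=
    (Subalgebra.fg_iff_finiteType A).1 (Subalgebra.fg_def.2 ⟨M, hMfin, rfl⟩)
  obtain ⟨φ⟩ := AI.exists_point k A
  let R : Subring κ := A.toSubring
  let ψ : R →+* k := φ.toRingHom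
  have hMu : ∀ c, (c ∈ S₀ ∨ (∃ i j l, c ∈ (S.μ i j l).coeffs) ∨
      (∃ i j l, c ∈ (S.α i j l).coeffs) ∨ (∃ l, c ∈ (S.ν l).coeffs) ∨
      (∃ i j, c ∈ (S.T i j).coeffs) ∨ (∃ i j, c ∈ (S.T' i j).coeffs) ∨
      (∃ i j l, c ∈ (D.k.μ i j l).coeffs) ∨
      (∃ i j l, c ∈ (D.k.α i j l).coeffs) ∨ (∃ l, c ∈ (D.k.ν l).coeffs) ∨
      (∃ i j, c ∈ (D.k.T i j).coeffs) ∨ (∃ i j, c ∈ (D.k.T' i j).coeffs) ∨
      (∃ χ l, c ∈ (Y χ l : κ[X]).coeffs) ∨ (∃ χ, c ∈ (Fc χ).coeffs) ∨
      (∃ χ, c = (Fc χ).leadingCoeff⁻¹) ∨ (∃ h, ∃ w ∈ I, c = r h w)) → c ∈ M := by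
    intro c hc
    simp only [M, Set.mem_union, Set.mem_iUnion, Finset.mem_coe, Set.mem_singleton_iff,
      exists_prop, or_assoc]
    exact hc
  have hco : ∀ f : κ[X], (∀ c ∈ f.coeffs, c ∈ M) → ∀ n, f.coeff n ∈ R := by
    intro f hf n
    by_cases h0 : f.coeff n = 0
    · rw [h0]
      exact R.zero_mem
    · exact hMA _ (hf _ (Polynomial.coeff_mem_coeffs h0))
  obtain ⟨S₁, hS₁⟩ := exists_SC_subring R S
    (fun i j l => hco _ fun c hc => hMu c (Or.inr (Or.inl ⟨i, j, l, hc⟩)))
    (fun i j l => hco _ fun c hc => hMu c (Or.inr (Or.inr (Or.inl ⟨i, j, l, hc⟩))))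
    (fun l => hco _ fun c hc => hMu c (Or.inr (Or.inr (Or.inr (Or.inl ⟨l, hc⟩)))))
    (fun i j => hco _ fun c hc => hMu c (Or.inr (Or.inr (Or.inr (Or.inr (Or.inl ⟨i, j, hc⟩))))))
    (fun i j => hco _ fun c hc =>
      hMu c (Or.inr (Or.inr (Or.inr (Or.inr (Or.inr (Or.inl ⟨i, j, hc⟩)))))))
  refine E7_sub (p := p) D H R S₁ hS₁ (hS₀ R fun c hc => hMA c (hMu c (Or.inl hc)))
    (fun i j l => hco _ fun c hc => hMu c ?_) (fun i j l => hco _ fun c hc => hMu c ?_)
    (fun l => hco _ fun c hc => hMu c ?_) (fun i j => hco _ fun c hc => hMu c ?_)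
    (fun i j => hco _ fun c hc => hMu c ?_) ψ Y Fc
    (fun χ l => hco _ fun c hc => hMu c ?_) (fun χ => hco _ fun c hc => hMu c ?_)
    (fun χ => hMA _ (hMu _ ?_)) hYF Nb c₀ dT hNb hc₀ hdT I r
    (fun h w hw => hMA _ (hMu _ ?_)) hr1 hr2
  · exact Or.inr (Or.inr (Or.inr (Or.inr (Or.inr (Or.inr (Or.inl ⟨i, j, l, hc⟩))))))
  · exact Or.inr (Or.inr (Or.inr (Or.inr (Or.inr (Or.inr (Or.inr (Or.inl ⟨i, j, l, hc⟩)))))))
  · exact Or.inr (Or.inr (Or.inr (Or.inr (Or.inr (Or.inr (Or.inr (Or.inr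
      (Or.inl ⟨l, hc⟩))))))))
  · exact Or.inr (Or.inr (Or.inr (Or.inr (Or.inr (Or.inr (Or.inr (Or.inr (Or.inr
      (Or.inl ⟨i, j, hc⟩)))))))))
  · exact Or.inr (Or.inr (Or.inr (Or.inr (Or.inr (Or.inr (Or.inr (Or.inr (Or.inr (Or.inr
      (Or.inl ⟨i, j, hc⟩))))))))))
  · exact Or.inr (Or.inr (Or.inr (Or.inr (Or.inr (Or.inr (Or.inr (Or.inr (Or.inr (Or.inr (Or.inr
      (Or.inl ⟨χ, l, hc⟩)))))))))))
  · exact Or.inr (Or.inr (Or.inr (Or.inr (Or.inr (Or.inr (Or.inr (Or.inr (Or.inr (Or.inr (Or.inr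
      (Or.inr (Or.inl ⟨χ, hc⟩))))))))))))
  · exact Or.inr (Or.inr (Or.inr (Or.inr (Or.inr (Or.inr (Or.inr (Or.inr (Or.inr (Or.inr (Or.inr
      (Or.inr (Or.inr (Or.inl ⟨χ, rfl⟩)))))))))))))
  · exact Or.inr (Or.inr (Or.inr (Or.inr (Or.inr (Or.inr (Or.inr (Or.inr (Or.inr (Or.inr (Or.inr
      (Or.inr (Or.inr (Or.inr ⟨h, w, hw, rfl⟩)))))))))))))

end

end Pool.Agent.MP_1c8e06_ag.AJ
end
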