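import Mathlib
import Pool.Agent.Lib.MP_1c8e06_ag.BT.Defs

section

set_option autoImplicit false

namespace Pool.Agent.MP_1c8e06_ag.BT

variable {G : Type} [Group G]

/-!
# Task S1: subnormal subgroups, basic lemmas

`SN` is defined in `Defs` (constructors `refl`, `step A B L : A ≤ B → (B normalises A) → SN B L → SN A L`).
All by induction on `SN`.  `inf_inf`: intersect every term of the chain with `H`
(`cj b (A ⊓ H) = cj b A ⊓ cj b H`, `cj b H = H` for `b ∈ H`).  `inf`: `SN (A ⊓ B) B` (from `inf_inf`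
applied to `SN A L` and `B`, with `L ⊓ B = B`), then `trans`.
`proper`: induction; refl impossible; step `A B L`: if `B = L` take `N = A`, else the `N` of `B`.
-/
theorem SN.le {A L : Subgroup G} (h : SN A L) : A ≤ L := by
  induction h with
  | refl A => exact le_refl A
  | step A B L hAB _ _ ih => exact hAB.trans ih

theorem SN.trans {A B L : Subgroup G} (h1 : SN A B) (h2 : SN B L) : SN A L := by
  induction h1 with
  | refl A => exact h2
  | step A B' B hAB hn _ ih => exact SN.step A B' L hAB hn (ih h2)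

theorem SN.inf_inf {A L : Subgroup G} (h : SN A L) (H : Subgroup G) : SN (A ⊓ H) (L ⊓ H) := by
  induction h with
  | refl A => exact SN.refl _
  | step A B L hAB hn _ ih =>
    refine SN.step (A ⊓ H) (B ⊓ H) _ (inf_le_inf_right H hAB) (fun b hb => ?_) ih
    rw [cj_inf, hn b hb.1, cj_eq_self hb.2]

theorem SN.mono {A B L : Subgroup G} (h : SN A L) (h1 : A ≤ B) (h2 : B ≤ L) : SN A B := by
  have h3 := h.inf_inf B
  rwa [inf_eq_left.2 h1, inf_eq_right.2 h2] at h3

theorem SN.inf {A B L : Subgroup G} (h1 : SN A L) (h2 : SN B L) : SN (A ⊓ B) L := by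
  have h3 := h1.inf_inf B
  rw [inf_eq_right.2 h2.le] at h3
  exact h3.trans h2

theorem SN.cj {A L : Subgroup G} (h : SN A L) (g : G) : SN (cj g A) (cj g L) := by
  induction h with
  | refl A => exact SN.refl _
  | step A B L hAB hn _ ih =>
    refine SN.step (BT.cj g A) (BT.cj g B) _ (cj_mono hAB) (fun b hb => ?_) ih
    have h1 : b * g = g * (g⁻¹ * b * g) := by group
    rw [← cj_mul, h1, cj_mul, hn _ (mem_cj.1 hb)]

theorem SN.of_normal {A L : Subgroup G} (h1 : A ≤ L) (h2 : ∀ b ∈ L, BT.cj b A = A) : SN A L := by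
  exact SN.step A L L h1 h2 (SN.refl L)

theorem SN.bot (L : Subgroup G) : SN ⊥ L := by
  exact SN.of_normal bot_le (fun b _ => cj_bot b)

theorem SN.proper {A L : Subgroup G} (h : SN A L) (hne : A ≠ L) :
    ∃ N : Subgroup G, A ≤ N ∧ N ≤ L ∧ N ≠ L ∧ ∀ b ∈ L, BT.cj b N = N := by
  induction h with
  | refl A => exact absurd rfl hne
  | step A B L hAB hn hBL ih =>
    by_cases hB : B = L
    · subst hB
      exact ⟨A, le_refl A, hAB, hne, hn⟩
    · obtain ⟨N, h1, h2, h3, h4⟩ := ih hB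
      exact ⟨N, hAB.trans h1, h2, h3, h4⟩

end Pool.Agent.MP_1c8e06_ag.BT
end

section

set_option autoImplicit false

namespace Pool.Agent.MP_1c8e06_ag.BT

variable {G : Type} [Group G]

/-!
# Task S2: a subnormal, non-normal subgroup has a different conjugate normalising it

Claim (induction on `SN B L`): if `A ≤ B`, all `b ∈ B` normalise `A` (`cj b A = A`) and not all
elements of `L` normalise `A`, then there is `h ∈ L` with `cj h A ≠ A` and `∀ b ∈ cj h A, cj b A = A`.
`refl`: contradiction.  `step B B' L` (`B ≤ B'`, `B'` normalises `B`, `SN B' L`): if all elements of `B'`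
normalise `A`, use the induction hypothesis for `B'`.  Otherwise take `h ∈ B'` with `cj h A ≠ A`;
`cj h A ≤ cj h B = B`, and `B` normalises `A`.
Then apply the claim with `B = A`.
-/
private theorem s2_le {A L : Subgroup G} (h : SN A L) : A ≤ L := by
  induction h with
  | refl A => exact le_refl A
  | step A B L hAB _ _ ih => exact hAB.trans ih

private theorem s2_aux {A B L : Subgroup G} (h : SN B L) : A ≤ B → (∀ b ∈ B, BT.cj b A = A) →
    (¬ ∀ h ∈ L, BT.cj h A = A) →
    ∃ h ∈ L, BT.cj h A ≠ A ∧ ∀ b ∈ BT.cj h A, BT.cj b A = A := by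
  induction h with
  | refl B =>
    intro _ h1 h2
    exact absurd h1 h2
  | step B B' L hBB' hn hBL ih =>
    intro hAB h1 h2
    by_cases hall : ∀ b ∈ B', BT.cj b A = A
    · exact ih (hAB.trans hBB') hall h2
    · push Not at hall
      obtain ⟨h, hh, hne⟩ := hall
      refine ⟨h, s2_le hBL hh, hne, fun b hb => h1 b ?_⟩
      have h3 : BT.cj h A ≤ BT.cj h B := cj_mono hAB
      rw [hn h hh] at h3
      exact h3 hb

theorem SN.exists_conj {A L : Subgroup G} (h : SN A L) (hn : ¬ ∀ h ∈ L, BT.cj h A = A) :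
    ∃ h ∈ L, BT.cj h A ≠ A ∧ ∀ b ∈ BT.cj h A, BT.cj b A = A := by
  exact s2_aux h le_rfl (fun b hb => cj_eq_self hb) hn

end Pool.Agent.MP_1c8e06_ag.BT
end

section

set_option autoImplicit false

open Polynomial
open scoped Classical

namespace Pool.Agent.MP_1c8e06_ag.AJ

noncomputable section

/-!
# Task G6: minimal normal subgroups in a normal `p`-subgroup

Proofs.
* `exists_min`: let `N₀` be minimal among the normal subgroups of `G` with `⊥ ≠ N₀ ≤ N` (finite).  `N₀` is a `p`-group,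
  hence nilpotent; its center (as a subgroup of `G`: `{x ∈ N₀ | ∀ y ∈ N₀, x y = y x}`) is nontrivial
  (`IsPGroup.bot_lt_center`) and normal in `G`, so it is `N₀`: `N₀` is commutative.  `{x ∈ N₀ | x ^ p = 1}` is then a
  subgroup, normal in `G` and nontrivial (Cauchy: `N₀` is a nontrivial `p`-group), so it is `N₀`.
* `exists_v`: the `p`-group `P` acts on the finite set `N₀` by conjugation; `p ∣ Nat.card N₀`, and `1` is a fixed point:
  `IsPGroup.exists_fixed_point_of_prime_dvd_card_of_fixed_point`.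
* `conj_top`: `M := H ⊔ vHv⁻¹`.  Suppose `M ≠ ⊤`.  `M ⊓ N₀` is normalised by `M` and by the abelian group `N₀`, and
  `M ⊔ N₀ = ⊤`: it is normal in `G`; it is not `N₀` (else `N₀ ≤ M`, `M = ⊤`), so it is `⊥`.  Every `m ∈ M` is `h * n`,
  `h ∈ H`, `n ∈ N₀` (`Subgroup.mem_sup_of_normal_right` or `mul_normal`), `n ∈ M ⊓ N₀`, so `m ∈ H`: `M = H`.  For `h ∈ H`:
  `v h v⁻¹ h⁻¹ ∈ H ⊓ N₀ = ⊥` (`v h v⁻¹ ∈ M = H`; `h v⁻¹ h⁻¹ ∈ N₀`), so `v` commutes with `H`, and with `N₀`, so `v` is
  central.  `zpowers v ≤ N₀` is normal and nontrivial, so it is `N₀`.  So `N₀` is central and `H` is normal in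
  `H ⊔ N₀ = ⊤`; it contains `P`, so `H = ⊤`, a contradiction.
-/

theorem exists_min {p : ℕ} [hp : Fact p.Prime] {G : Type} [Group G] [Finite G] (N : Subgroup G)
    (hNn : N.Normal) (hN : IsPGroup p N) (hne : N ≠ ⊥) :
    ∃ N₀ : Subgroup G, N₀.Normal ∧ N₀ ≤ N ∧ N₀ ≠ ⊥ ∧ (∀ n ∈ N₀, n ^ p = 1) ∧
      (∀ a ∈ N₀, ∀ b ∈ N₀, a * b = b * a) ∧
      ∀ M : Subgroup G, M.Normal → M ≤ N₀ → M = ⊥ ∨ M = N₀ := by
  obtain ⟨N₀, ⟨hn, hle, hb⟩, hmin⟩ := (wellFounded_lt (α := Subgroup G)).has_min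
    {K : Subgroup G | K.Normal ∧ K ≤ N ∧ K ≠ ⊥} ⟨N, hNn, le_refl N, hne⟩
  have hmin' : ∀ M : Subgroup G, M.Normal → M ≤ N₀ → M = ⊥ ∨ M = N₀ := by
    intro M hM hMN
    by_cases h : M = ⊥
    · exact Or.inl h
    · right
      by_contra h2
      exact hmin M ⟨hM, hMN.trans hle, h⟩ (lt_of_le_of_ne hMN h2)
  have hp0 : IsPGroup p N₀ := hN.to_le hle
  have hnt : Nontrivial N₀ := (Subgroup.nontrivial_iff_ne_bot N₀).2 hb
  have hab : ∀ a ∈ N₀, ∀ b ∈ N₀, a * b = b * a := by
    have hZn : (N₀ ⊓ Subgroup.centralizer (N₀ : Set G)).Normal := inferInstance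
    rcases hmin' _ hZn inf_le_left with h | h
    · exfalso
      have h1 : (⊥ : Subgroup N₀) < Subgroup.center N₀ := hp0.bot_lt_center
      obtain ⟨z, hz⟩ := Subgroup.ne_bot_iff_exists_ne_one.1 h1.ne'
      have h2 : ((z : N₀) : G) ∈ N₀ ⊓ Subgroup.centralizer (N₀ : Set G) := by
        refine ⟨(z : N₀).2, Subgroup.mem_centralizer_iff.2 ?_⟩
        intro y hy
        have h3 := Subgroup.mem_center_iff.1 z.2 ⟨y, hy⟩
        exact congrArg (fun x : N₀ => (x : G)) h3
      rw [h, Subgroup.mem_bot] at h2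
      apply hz
      apply Subtype.ext
      apply Subtype.ext
      exact h2
    · intro a ha b hb'
      have h2 : b ∈ N₀ ⊓ Subgroup.centralizer (N₀ : Set G) := by rwa [h]
      exact Subgroup.mem_centralizer_iff.1 h2.2 a ha
  refine ⟨N₀, hn, hle, hb, ?_, hab, hmin'⟩
  obtain ⟨W, hW⟩ : ∃ W : Subgroup G, ∀ x, x ∈ W ↔ x ∈ N₀ ∧ x ^ p = 1 := by
    refine ⟨{ carrier := {x | x ∈ N₀ ∧ x ^ p = 1}
              mul_mem' := ?_
              one_mem' := ⟨N₀.one_mem, one_pow p⟩
              inv_mem' := ?_ }, fun x => Iff.rfl⟩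
    · rintro a b ⟨ha, ha1⟩ ⟨hb1, hb2⟩
      refine ⟨N₀.mul_mem ha hb1, ?_⟩
      have hc : Commute a b := hab a ha b hb1
      rw [hc.mul_pow, ha1, hb2, one_mul]
    · rintro a ⟨ha, ha1⟩
      exact ⟨N₀.inv_mem ha, by rw [inv_pow, ha1, inv_one]⟩
  have hWn : W.Normal := by
    refine ⟨fun x hx g => ?_⟩
    rw [hW] at hx ⊢
    refine ⟨hn.conj_mem x hx.1 g, ?_⟩
    rw [conj_pow, hx.2]
    group
  have hWle : W ≤ N₀ := fun x hx => ((hW x).1 hx).1
  rcases hmin' W hWn hWle with h | h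
  · exfalso
    have hdvd : p ∣ Nat.card N₀ := by
      rcases hp0.card_eq_or_dvd with h1 | h1
      · exact absurd h1 (Finite.one_lt_card).ne'
      · exact h1
    obtain ⟨x, hx⟩ := exists_prime_orderOf_dvd_card' p hdvd
    have h1 : (x : G) ∈ W := by
      rw [hW]
      refine ⟨x.2, ?_⟩
      have h2 : x ^ p = 1 := by
        rw [← hx]
        exact pow_orderOf_eq_one x
      exact congrArg (fun x : N₀ => (x : G)) h2
    rw [h, Subgroup.mem_bot] at h1
    have h2 : x = 1 := Subtype.ext h1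
    rw [h2, orderOf_one] at hx
    exact hp.out.one_lt.ne hx
  · intro n hn'
    rw [← h, hW] at hn'
    exact hn'.2

theorem exists_v {p : ℕ} [hp : Fact p.Prime] {G : Type} [Group G] [Finite G] (P N₀ : Subgroup G)
    (hP : IsPGroup p P) (hNn : N₀.Normal) (hN : IsPGroup p N₀) (hne : N₀ ≠ ⊥) :
    ∃ v ∈ N₀, v ≠ 1 ∧ ∀ u ∈ P, v * u = u * v := by
  have hnt : Nontrivial N₀ := (Subgroup.nontrivial_iff_ne_bot N₀).2 hne
  let _ : MulAction P N₀ := MulAction.compHom N₀ ((MulAut.conjNormal (H := N₀)).comp P.subtype)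
  have hsm : ∀ (u : P) (x : N₀), ((u • x : N₀) : G) = (u : G) * x * (u : G)⁻¹ := fun u x => rfl
  have hdvd : p ∣ Nat.card N₀ := by
    rcases hN.card_eq_or_dvd with h1 | h1
    · exact absurd h1 (Finite.one_lt_card).ne'
    · exact h1
  obtain ⟨b, hb, hb1⟩ := hP.exists_fixed_point_of_prime_dvd_card_of_fixed_point N₀ hdvd (a := 1)
    (fun u => by
      apply Subtype.ext
      rw [hsm]
      simp)
  refine ⟨b, b.2, fun h => hb1 (Subtype.ext h.symm), fun u hu => ?_⟩
  have h1 := congrArg (fun x : N₀ => (x : G)) (hb ⟨u, hu⟩)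
  have h2 : u * (b : G) * u⁻¹ = b := h1
  calc (b : G) * u = u * (b : G) * u⁻¹ * u := by rw [h2]
    _ = u * b := by group

theorem conj_top {G : Type} [Group G] [Finite G] (P H N₀ : Subgroup G) (hNn : N₀.Normal)
    (hab : ∀ a ∈ N₀, ∀ b ∈ N₀, a * b = b * a)
    (hmin : ∀ M : Subgroup G, M.Normal → M ≤ N₀ → M = ⊥ ∨ M = N₀)
    (hgen : Subgroup.normalClosure (P : Set G) = ⊤) (hPH : P ≤ H) (hHN : H ⊔ N₀ = ⊤)
    (v : G) (hv : v ∈ N₀) (hv1 : v ≠ 1) : H ⊔ H.map (MulAut.conj v).toMonoidHom = ⊤ := by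
  by_contra hne
  obtain ⟨M, hM⟩ : ∃ M, M = H ⊔ H.map (MulAut.conj v).toMonoidHom := ⟨_, rfl⟩
  rw [← hM] at hne
  have hHM : H ≤ M := by
    rw [hM]
    exact le_sup_left
  have hvM : ∀ h ∈ H, v * h * v⁻¹ ∈ M := by
    intro h hh
    rw [hM]
    exact (le_sup_right : H.map (MulAut.conj v).toMonoidHom ≤ _) ⟨h, hh, rfl⟩
  have hdec : ∀ g : G, ∃ h ∈ H, ∃ n ∈ N₀, h * n = g := by
    intro g
    have hg : g ∈ H ⊔ N₀ := by
      rw [hHN]
      exact Subgroup.mem_top g
    exact Subgroup.mem_sup_of_normal_right.1 hg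
  have hnn : ∀ n ∈ N₀, ∀ x ∈ N₀, n * x * n⁻¹ = x := by
    intro n hn x hx
    rw [hab n hn x hx]
    group
  have hMN : (M ⊓ N₀).Normal := by
    refine ⟨fun x hx g => ?_⟩
    obtain ⟨h, hh, n, hn, rfl⟩ := hdec g
    have e : h * n * x * (h * n)⁻¹ = h * (n * x * n⁻¹) * h⁻¹ := by group
    rw [e, hnn n hn x hx.2]
    exact ⟨M.mul_mem (M.mul_mem (hHM hh) hx.1) (M.inv_mem (hHM hh)), hNn.conj_mem x hx.2 h⟩
  have hbot : M ⊓ N₀ = ⊥ := by
    rcases hmin _ hMN inf_le_right with h | h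
    · exact h
    · exfalso
      apply hne
      rw [eq_top_iff, ← hHN]
      refine sup_le hHM ?_
      rw [← h]
      exact inf_le_left
  have hMH : M ≤ H := by
    intro m hm
    obtain ⟨h, hh, n, hn, rfl⟩ := hdec m
    have h1 : n ∈ M ⊓ N₀ := by
      refine ⟨?_, hn⟩
      have h2 := M.mul_mem (M.inv_mem (hHM hh)) hm
      have e : h⁻¹ * (h * n) = n := by group
      rwa [e] at h2
    rw [hbot, Subgroup.mem_bot] at h1
    rw [h1, mul_one]
    exact hh
  have hvH : ∀ h ∈ H, v * h = h * v := by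
    intro h hh
    have h1 : v * h * v⁻¹ * h⁻¹ ∈ M ⊓ N₀ := by
      refine ⟨M.mul_mem (hvM h hh) (M.inv_mem (hHM hh)), ?_⟩
      have e : v * h * v⁻¹ * h⁻¹ = v * (h * v⁻¹ * h⁻¹) := by group
      rw [e]
      exact N₀.mul_mem hv (hNn.conj_mem _ (N₀.inv_mem hv) h)
    rw [hbot, Subgroup.mem_bot] at h1
    have e : v * h = v * h * v⁻¹ * h⁻¹ * (h * v) := by group
    rw [e, h1, one_mul]
  have hvG : ∀ g : G, g * v = v * g := by
    intro g
    obtain ⟨h, hh, n, hn, rfl⟩ := hdec g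
    rw [mul_assoc, hab n hn v hv, ← mul_assoc, ← hvH h hh, mul_assoc]
  have hZn : (Subgroup.zpowers v).Normal := by
    refine ⟨fun x hx g => ?_⟩
    obtain ⟨k, rfl⟩ := Subgroup.mem_zpowers_iff.1 hx
    have hc : Commute g v := hvG g
    have h1 : g * v ^ k = v ^ k * g := hc.zpow_right k
    rw [h1, mul_assoc, mul_inv_cancel, mul_one]
    exact hx
  have hZle : Subgroup.zpowers v ≤ N₀ := by
    rw [Subgroup.zpowers_le]
    exact hv
  have hZ : Subgroup.zpowers v = N₀ := by
    rcases hmin _ hZn hZle with h | h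
    · exfalso
      exact hv1 (Subgroup.zpowers_eq_bot.1 h)
    · exact h
  have hcen : ∀ n ∈ N₀, ∀ g : G, g * n = n * g := by
    intro n hn g
    rw [← hZ] at hn
    obtain ⟨k, rfl⟩ := Subgroup.mem_zpowers_iff.1 hn
    have hc : Commute g v := hvG g
    exact hc.zpow_right k
  have hHn : H.Normal := by
    refine ⟨fun x hx g => ?_⟩
    obtain ⟨h, hh, n, hn, rfl⟩ := hdec g
    have e : h * n * x * (h * n)⁻¹ = h * (n * x * n⁻¹) * h⁻¹ := by group
    rw [e, ← hcen n hn x, mul_assoc x n n⁻¹, mul_inv_cancel, mul_one]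
    exact H.mul_mem (H.mul_mem hh hx) (H.inv_mem hh)
  have hHtop : H = ⊤ := by
    rw [eq_top_iff, ← hgen]
    exact Subgroup.normalClosure_le_normal hPH
  apply hne
  rw [eq_top_iff, ← hHtop]
  exact hHM

end

end Pool.Agent.MP_1c8e06_ag.AJ
end

section

set_option autoImplicit false

open Polynomial
open scoped Classical

namespace Pool.Agent.MP_1c8e06_ag.AJ

noncomputable section

/-!
# Task R0a: characters of `p`-groups

Proof.  Let `M` be a maximal subgroup (coatom) containing `D` (`P` is finite).  `P` is nilpotent (`IsPGroup.isNilpotent`),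
so `M` is normal (`Group.isNilpotent...`: maximal subgroups of nilpotent groups are normal; `NormalizerCondition`), and
`P ⧸ M` is a simple (no proper nontrivial subgroups) `p`-group, so it has order `p` and is cyclic;
choose an isomorphism `P ⧸ M ≃* Multiplicative (ZMod p)` (`zmodCyclicMulEquiv`, or a generator), `χ` the composition.
-/

theorem exists_char {p : ℕ} [hp : Fact p.Prime] {P : Type} [Group P] [Finite P]
    (hP : IsPGroup p P) (D : Subgroup P) (hD : D ≠ ⊤) :
    ∃ χ : P → ZMod p, (∀ u v, χ (u * v) = χ u + χ v) ∧ (∃ u, χ u ≠ 0) ∧ ∀ u ∈ D, χ u = 0 := by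
  obtain ⟨M, hM, hDM⟩ : ∃ M : Subgroup P, IsCoatom M ∧ D ≤ M := by
    rcases eq_top_or_exists_le_coatom D with h | ⟨M, h1, h2⟩
    · exact absurd h hD
    · exact ⟨M, h1, h2⟩
  have hnil : Group.IsNilpotent P := hP.isNilpotent
  have hMn : M.Normal :=
    Subgroup.NormalizerCondition.normal_of_coatom M Group.normalizerCondition_of_isNilpotent hM
  obtain ⟨u, hu⟩ : ∃ u, u ∉ M := by
    by_contra h
    push Not at h
    exact hM.1 ((Subgroup.eq_top_iff' M).2 h)
  have hsup : M ⊔ Subgroup.zpowers u = ⊤ := by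
    refine hM.2 _ (lt_of_le_of_ne le_sup_left fun h => hu ?_)
    rw [h]
    exact Subgroup.mem_sup_right (Subgroup.mem_zpowers u)
  have hcyc : IsCyclic (P ⧸ M) := by
    refine ⟨⟨(QuotientGroup.mk' M) u, fun x => ?_⟩⟩
    have h1 : Subgroup.map (QuotientGroup.mk' M) (M ⊔ Subgroup.zpowers u) = ⊤ := by
      rw [hsup, ← MonoidHom.range_eq_map]
      exact MonoidHom.range_eq_top.2 (QuotientGroup.mk'_surjective M)
    rw [Subgroup.map_sup] at h1
    have h2 : Subgroup.map (QuotientGroup.mk' M) M = ⊥ := by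
      rw [Subgroup.map_eq_bot_iff, QuotientGroup.ker_mk']
    rw [h2, bot_sup_eq, MonoidHom.map_zpowers] at h1
    have h3 : x ∈ Subgroup.zpowers ((QuotientGroup.mk' M) u) := by
      rw [h1]
      exact Subgroup.mem_top x
    exact Subgroup.mem_zpowers_iff.1 h3
  have hnt : Nontrivial (P ⧸ M) := by
    refine ⟨⟨(QuotientGroup.mk' M) u, 1, fun h => hu ?_⟩⟩
    rw [← QuotientGroup.ker_mk' M, MonoidHom.mem_ker]
    exact h
  have hdvd : p ∣ Nat.card (P ⧸ M) := by
    have hq : IsPGroup p (P ⧸ M) := hP.to_quotient M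
    obtain ⟨n, hn⟩ := IsPGroup.iff_card.1 hq
    have h1 : 1 < Nat.card (P ⧸ M) := Finite.one_lt_card
    rw [hn] at h1 ⊢
    rcases Nat.eq_zero_or_pos n with h0 | h0
    · subst h0
      simp at h1
    · exact dvd_pow_self p (by omega)
  refine ⟨fun v => ZMod.castHom hdvd (ZMod p)
    (Multiplicative.toAdd ((zmodCyclicMulEquiv hcyc).symm (QuotientGroup.mk' M v))), ?_, ?_, ?_⟩
  · intro v w
    simp only [map_mul, toAdd_mul, map_add]
  · obtain ⟨v, hv⟩ := QuotientGroup.mk'_surjective M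
      ((zmodCyclicMulEquiv hcyc) (Multiplicative.ofAdd 1))
    refine ⟨v, ?_⟩
    simp only [hv, MulEquiv.symm_apply_apply, toAdd_ofAdd, map_one]
    exact one_ne_zero
  · intro v hv
    have h1 : QuotientGroup.mk' M v = 1 := by
      rw [← MonoidHom.mem_ker, QuotientGroup.ker_mk']
      exact hDM hv
    simp only [h1, map_one, toAdd_one, map_zero]

end

end Pool.Agent.MP_1c8e06_ag.AJ
end

section

set_option autoImplicit false

namespace Pool.Agent.MP_1c8e06_ag.BT

variable {G : Type} [Group G]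

/-!
# Task B7: a finite connected graph has a vertex which is not a cut vertex

Mathlib: `SimpleGraph.Connected.exists_connected_induce_compl_singleton_of_finite_nontrivial`
(in `Mathlib/Combinatorics/SimpleGraph/Acyclic.lean`).  Let `Γ : SimpleGraph V` with `Γ.Adj a b ↔ a ≠ b ∧ r a b`
(or `SimpleGraph.fromRel r`).  It is connected: `Relation.ReflTransGen r a b` gives reachability.  Take the `z` of
that lemma; a walk in `Γ.induce {z}ᶜ` gives the chain.
-/
theorem graph_lemma {V : Type} [Finite V] (r : V → V → Prop) (hsymm : ∀ a b, r a b → r b a)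
    (hconn : ∀ a b, Relation.ReflTransGen r a b) (hne : ∃ a b : V, a ≠ b) :
    ∃ z : V, ∀ a b : V, a ≠ z → b ≠ z →
      Relation.ReflTransGen (fun a b => r a b ∧ a ≠ z ∧ b ≠ z) a b := by
  let Γ : SimpleGraph V :=
    { Adj := fun a b => a ≠ b ∧ r a b
      symm := ⟨fun a b h => ⟨h.1.symm, hsymm _ _ h.2⟩⟩
      loopless := ⟨fun a h => h.1 rfl⟩ }
  obtain ⟨u, v, huv⟩ := hne
  have : Nontrivial V := ⟨u, v, huv⟩
  have hc : Γ.Connected := by
    have : Nonempty V := ⟨u⟩
    refine ⟨fun a b => ?_⟩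
    induction hconn a b with
    | refl => exact SimpleGraph.Reachable.refl _
    | @tail c d _ h ih =>
      by_cases hcd : c = d
      · rw [← hcd]
        exact ih
      · exact ih.trans (SimpleGraph.Adj.reachable (G := Γ) ⟨hcd, h⟩)
  obtain ⟨z, hz⟩ := hc.exists_connected_induce_compl_singleton_of_finite_nontrivial
  refine ⟨z, fun a b ha hb => ?_⟩
  obtain ⟨w⟩ := hz.preconnected ⟨a, ha⟩ ⟨b, hb⟩
  have key : ∀ (x y : ({z}ᶜ : Set V)), (Γ.induce ({z}ᶜ : Set V)).Walk x y →
      Relation.ReflTransGen (fun a b => r a b ∧ a ≠ z ∧ b ≠ z) (x : V) (y : V) := by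
    intro x y w
    induction w with
    | nil => exact Relation.ReflTransGen.refl
    | cons h _ ih =>
      rename_i x' y' _ _
      exact Relation.ReflTransGen.head ⟨h.2, x'.2, y'.2⟩ ih
  exact key _ _ w

end Pool.Agent.MP_1c8e06_ag.BT
end
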