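import Pool.Agent.Lib.MP_1c8e06_ag.BT.S3
import Pool.Agent.Lib.MP_1c8e06_ag.BT.S4
import Pool.Agent.Lib.MP_1c8e06_ag.BT.Defs
import Pool.Agent.Lib.MP_1c8e06_ag.Mg.G057

section

set_option autoImplicit false

open Polynomial
open scoped Classical

namespace Pool.Agent.MP_1c8e06_ag.AJ

noncomputable section

/-!
# Task G1: an invariant Sylow subgroup of a normal subgroup

`BT.cj g T = g T g⁻¹` (`BT/Defs.lean`).
Proof.  Let `T₀ : Sylow p N` (`N` a finite group).  The group `P` acts on `Sylow p N` by conjugation (`MulAut.conjNormal`; or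
define the action by hand); the number of Sylow subgroups is `≡ 1 mod p` (`card_sylow_modEq_one`), so the
`p`-group `P` has a fixed point (`IsPGroup.card_modEq_card_fixedPoints`).  `T` is its image in `G`.
(Alternative: let `R` be a Sylow `p`-subgroup of `G` containing `P` and `T := R ⊓ N`; it is a Sylow subgroup
of `N` since `N` is normal: `[N : R ⊓ N] = [R N : R]` divides `[G : R]`.)
Fourth property (Frattini): `g T g⁻¹ ≤ N` is the image of a Sylow subgroup of `N`, so it is conjugate to `T` under `N`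
(`MulAction.exists_smul_eq` for Sylow subgroups; see the proof of `Sylow.normalizer_sup_eq_top`).
Fifth: if `T` is normal then it is the unique Sylow subgroup of `N`; `x` lies in some Sylow subgroup
(`IsPGroup.exists_le_sylow` for `zpowers x`).
-/

private theorem G1_smul {p : ℕ} [hp : Fact p.Prime] {G : Type} [Group G]
    (N : Subgroup G) [N.Normal] (Q : Sylow p N) (g : G) :
    (((MulAut.conjNormal g : MulAut N) • Q : Sylow p N) : Subgroup N).map N.subtype =
      BT.cj g ((Q : Subgroup N).map N.subtype) := by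
  ext x
  rw [BT.mem_cj, Subgroup.mem_map, Subgroup.mem_map]
  constructor
  · rintro ⟨y, hy, rfl⟩
    rw [Sylow.pointwise_smul_def, Subgroup.mem_pointwise_smul_iff_inv_smul_mem] at hy
    refine ⟨(MulAut.conjNormal g : MulAut N)⁻¹ • y, hy, ?_⟩
    have h1 : y = MulAut.conjNormal g ((MulAut.conjNormal g : MulAut N)⁻¹ • y) := by
      change y = (MulAut.conjNormal g : MulAut N) • ((MulAut.conjNormal g : MulAut N)⁻¹ • y)
      rw [smul_inv_smul]
    have h2 : (y : G) = g * ((((MulAut.conjNormal g : MulAut N)⁻¹ • y : N)) : G) * g⁻¹ := by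
      conv_lhs => rw [h1]
      rw [MulAut.conjNormal_apply]
    change (((MulAut.conjNormal g : MulAut N)⁻¹ • y : N) : G) = g⁻¹ * (y : G) * g
    rw [h2]
    group
  · rintro ⟨y, hy, h⟩
    refine ⟨(MulAut.conjNormal g : MulAut N) • y, ?_, ?_⟩
    · rw [Sylow.pointwise_smul_def]
      exact Subgroup.smul_mem_pointwise_smul y _ _ hy
    · change ((MulAut.conjNormal g y : N) : G) = x
      rw [MulAut.conjNormal_apply]
      have h' : (y : G) = g⁻¹ * x * g := h
      rw [h']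
      group

theorem exists_sylow {p : ℕ} [hp : Fact p.Prime] {G : Type} [Group G] [Finite G]
    (N P : Subgroup G) (hN : N.Normal) (hP : IsPGroup p P) :
    ∃ T : Subgroup G, T ≤ N ∧ IsPGroup p T ∧ (∀ u ∈ P, BT.cj u T = T) ∧
      (∀ g : G, ∃ n ∈ N, BT.cj (n * g) T = T) ∧
      ((∀ g : G, BT.cj g T = T) → ∀ x ∈ N, (∃ j : ℕ, x ^ p ^ j = 1) → x ∈ T) := by
  have := hN
  have hfS : Finite (Sylow p N) := inferInstance
  let act : MulAction P (Sylow p N) :=
    MulAction.compHom (Sylow p N) ((MulAut.conjNormal : G →* MulAut N).comp P.subtype)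
  have hmod := hP.card_modEq_card_fixedPoints (Sylow p N)
  have hone := card_sylow_modEq_one p N
  have hne : Nat.card (MulAction.fixedPoints P (Sylow p N)) ≠ 0 := by
    intro h0
    rw [h0] at hmod
    have h1 : (1 : ℕ) ≡ 0 [MOD p] := hone.symm.trans hmod
    have h2 : p ∣ 1 := (Nat.modEq_zero_iff_dvd).1 h1
    exact hp.out.one_lt.ne' (Nat.dvd_one.1 h2)
  obtain ⟨⟨Q, hQ⟩⟩ := (Nat.card_ne_zero.1 hne).1
  have hmap : ∀ R : Sylow p N, ∀ g : G, (((MulAut.conjNormal g : MulAut N) • R : Sylow p N) : Subgroup N).map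
      N.subtype = BT.cj g ((R : Subgroup N).map N.subtype) := fun R g => G1_smul N R g
  refine ⟨(Q : Subgroup N).map N.subtype, ?_, ?_, ?_, ?_, ?_⟩
  · rintro _ ⟨y, _, rfl⟩
    exact y.2
  · exact Q.isPGroup'.map N.subtype
  · intro u hu
    rw [← hmap]
    have h1 : (⟨u, hu⟩ : P) • Q = Q := hQ ⟨u, hu⟩
    have h2 : ((MulAut.conjNormal u : MulAut N) • Q : Sylow p N) = Q := h1
    rw [h2]
  · intro g
    obtain ⟨n, hn⟩ := MulAction.exists_smul_eq N ((MulAut.conjNormal g : MulAut N) • Q : Sylow p N) Q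
    refine ⟨n, n.2, ?_⟩
    rw [BT.cj_mul, ← hmap, ← hmap]
    have h1 : ((MulAut.conjNormal (n : G) : MulAut N) • ((MulAut.conjNormal g : MulAut N) • Q) : Sylow p N) =
        n • ((MulAut.conjNormal g : MulAut N) • Q : Sylow p N) := by
      rw [Sylow.smul_def]
      congr 1
      ext y
      rw [MulAut.conjNormal_apply]
      rfl
    rw [h1, hn]
  · intro hnorm x hx hj
    obtain ⟨j, hj⟩ := hj
    have h1 : IsPGroup p (Subgroup.zpowers (⟨x, hx⟩ : N)) := by
      rintro ⟨y, hy⟩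
      obtain ⟨m, rfl⟩ := Subgroup.mem_zpowers_iff.1 hy
      refine ⟨j, ?_⟩
      ext
      change ((x : G) ^ m) ^ p ^ j = 1
      rw [← zpow_natCast, ← zpow_mul, mul_comm, zpow_mul, zpow_natCast, hj, one_zpow]
    obtain ⟨R, hR⟩ := h1.exists_le_sylow
    obtain ⟨n, hn⟩ := MulAction.exists_smul_eq N Q R
    have h2 : ((MulAut.conjNormal (n : G) : MulAut N) • Q : Sylow p N) = n • Q := by
      rw [Sylow.smul_def]
      congr 1
      ext y
      rw [MulAut.conjNormal_apply]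
      rfl
    have h3 : (R : Subgroup N).map N.subtype = (Q : Subgroup N).map N.subtype := by
      rw [← hn, ← h2, hmap, hnorm]
    rw [← h3]
    exact ⟨⟨x, hx⟩, hR (Subgroup.mem_zpowers _), rfl⟩

end

end Pool.Agent.MP_1c8e06_ag.AJ
end

section

set_option autoImplicit false

namespace Pool.Agent.MP_1c8e06_ag.BT

variable {G : Type} [Group G]

namespace BEnv

/-!
# Task B0: basic lemmas on `BEnv`

`not_mem_of_normal`: if `x ∈ N` then `X ⊆ N` (all elements of `X` are conjugates of `x`), so `⊤ = closure X ≤ N`.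
`mem_v`: `x ∈ closure {x, x} =: L ≠ ⊤` (`pair`), `x ∈ col X v L (v x) ≤ v x`.
`cj_v_iff`: `←` `cj_eq_self`.  `→`: `{g | cj g (v x) = v x}` is a subgroup containing the coatom `v x`; if it
contained an `h ∉ v x` it would be `⊤`, and `v x ≠ ⊤` would be a normal subgroup containing `x`.
`cj_col`: `cj_closure`; the set `{z | z ∈ X ∧ z ∈ L ∧ v z = Z}` is mapped onto the corresponding set.
(`v (h z h⁻¹) = cj h (v z)`, `conj_mem_cj`, `cj_inj`, `inv`.)
`om_trans`: `conj`, `vconj`.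
-/
theorem not_mem_of_normal (E : BEnv G) {N : Subgroup G} (hN : ∀ g : G, cj g N = N) (hne : N ≠ ⊤)
    {x : G} (hx : x ∈ E.X) : x ∉ N := by
  intro hxN
  refine hne (top_le_iff.1 ?_)
  rw [← E.gen, Subgroup.closure_le]
  intro y hy
  obtain ⟨h, rfl⟩ := E.conj x hx y hy
  have h1 : h * x * h⁻¹ ∈ cj h N := conj_mem_cj.2 hxN
  rwa [hN h] at h1

theorem mem_v (E : BEnv G) {x : G} (hx : x ∈ E.X) : x ∈ E.v x := by
  refine E.le _ (E.pair x hx x hx) x hx ?_
  exact Subgroup.subset_closure ⟨hx, Subgroup.subset_closure (by simp), rfl⟩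

theorem cj_v_iff (E : BEnv G) {x : G} (hx : x ∈ E.X) (h : G) : cj h (E.v x) = E.v x ↔ h ∈ E.v x := by
  constructor
  · intro hh
    by_contra hn
    let S : Subgroup G :=
      { carrier := {g | cj g (E.v x) = E.v x}
        mul_mem' := by
          intro a b ha hb
          have ha' : cj a (E.v x) = E.v x := ha
          have hb' : cj b (E.v x) = E.v x := hb
          change cj (a * b) (E.v x) = E.v x
          rw [cj_mul, hb', ha']
        one_mem' := by
          change cj 1 (E.v x) = E.v x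
          rw [cj_one]
        inv_mem' := by
          intro a ha
          have ha' : cj a (E.v x) = E.v x := ha
          change cj a⁻¹ (E.v x) = E.v x
          have h1 := cj_inv_cj a (E.v x)
          rwa [ha'] at h1 }
    have hlt : E.v x < S := by
      refine lt_of_le_of_ne (fun g hg => cj_eq_self hg) ?_
      intro heq
      apply hn
      rw [heq]
      exact hh
    have htop : S = ⊤ := (E.coat x hx).2 S hlt
    refine E.not_mem_of_normal (N := E.v x) ?_ (E.coat x hx).1 hx (E.mem_v hx)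
    intro g
    have hg : g ∈ S := by
      rw [htop]
      exact Subgroup.mem_top g
    exact hg
  · exact fun hh => cj_eq_self hh

theorem cj_om_iff (E : BEnv G) {Z : Subgroup G} (hZ : Z ∈ E.Om) (h : G) : cj h Z = Z ↔ h ∈ Z := by
  obtain ⟨x, hx, rfl⟩ := hZ
  exact E.cj_v_iff hx h

theorem cj_col (E : BEnv G) (h : G) (L Z : Subgroup G) :
    cj h (col E.X E.v L Z) = col E.X E.v (cj h L) (cj h Z) := by
  unfold col
  rw [cj_closure]
  congr 1
  ext y
  constructor
  · rintro ⟨z, ⟨hz1, hz2, hz3⟩, rfl⟩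
    refine ⟨E.inv z hz1 h, conj_mem_cj.2 hz2, ?_⟩
    rw [E.vconj z hz1, hz3]
  · rintro ⟨hy1, hy2, hy3⟩
    refine ⟨h⁻¹ * y * h, ⟨?_, hy2, ?_⟩, ?_⟩
    · have h1 := E.inv y hy1 h⁻¹
      rwa [inv_inv] at h1
    · have h1 := E.vconj y hy1 h⁻¹
      rw [inv_inv, hy3, cj_inv_cj] at h1
      exact h1
    · change h * (h⁻¹ * y * h) * h⁻¹ = y
      group

theorem bad_cj (E : BEnv G) {Z K : Subgroup G} (h : E.Bad Z K) (g : G) : E.Bad (cj g Z) (cj g K) := by
  obtain ⟨h1, h2, x, hx, hxK, hv⟩ := h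
  refine ⟨isCoatom_cj h1, fun h3 => h2 (cj_inj.1 h3), g * x * g⁻¹, E.inv x hx g,
    conj_mem_cj.2 hxK, ?_⟩
  rw [E.vconj x hx, hv]

theorem bad_om (E : BEnv G) {Z K : Subgroup G} (h : E.Bad Z K) : Z ∈ E.Om := by
  obtain ⟨_, _, x, hx, _, hv⟩ := h
  exact ⟨x, hx, hv⟩

theorem om_cj (E : BEnv G) {Z : Subgroup G} (h : Z ∈ E.Om) (g : G) : cj g Z ∈ E.Om := by
  obtain ⟨x, hx, rfl⟩ := h
  exact ⟨g * x * g⁻¹, E.inv x hx g, E.vconj x hx g⟩

theorem om_trans (E : BEnv G) {Z Z' : Subgroup G} (h : Z ∈ E.Om) (h' : Z' ∈ E.Om) :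
    ∃ g : G, Z' = cj g Z := by
  obtain ⟨x, hx, rfl⟩ := h
  obtain ⟨y, hy, rfl⟩ := h'
  obtain ⟨g, rfl⟩ := E.conj x hx y hy
  exact ⟨g, E.vconj x hx g⟩

theorem om_coatom (E : BEnv G) {Z : Subgroup G} (h : Z ∈ E.Om) : IsCoatom Z := by
  obtain ⟨x, hx, rfl⟩ := h
  exact E.coat x hx

/-- Distinct coatoms are incomparable. -/
theorem not_le_of_coatom {A B : Subgroup G} (hA : IsCoatom A) (hB : IsCoatom B) (h : A ≠ B) :
    ¬ A ≤ B := by
  intro hle
  exact hB.1 (hA.2 B (lt_of_le_of_ne hle h))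

end BEnv

end Pool.Agent.MP_1c8e06_ag.BT
end

section

set_option autoImplicit false

namespace Pool.Agent.MP_1c8e06_ag.BT

variable {G : Type} [Group G]

namespace BEnv

/-!
# Task B1: a bad pair exists

`exists_bad`: suppose not.  Take `x ∈ X`.  For every `y ∈ X`: `closure {x, y} ≠ ⊤` so it lies in a coatom `K`;
`x ∈ K`; if `K ≠ v x` then `(v x, K)` is bad; so `K = v x` and `y ∈ v x`.  Hence `⊤ = closure X ≤ v x`,
contradiction to `IsCoatom (v x)`.
`exists_max`: the set of all pairs `(Z, K)` is finite; take a bad pair with `Nat.card (col X v K Z)` maximal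
(e.g. the set of values is bounded by `Nat.card G`, use `Nat.findGreatest` or `Set.Finite.exists_maximal`…),
`s` = this number.
-/
theorem exists_bad [Finite G] (E : BEnv G) : ∃ Z K, E.Bad Z K := by
  by_contra hno
  obtain ⟨x, hx⟩ := E.ne
  have h1 : E.X ⊆ (E.v x : Set G) := by
    intro y hy
    obtain ⟨K, hK, hle⟩ := (eq_top_or_exists_le_coatom
      (Subgroup.closure ({x, y} : Set G))).resolve_left (E.pair x hx y hy)
    have hxK : x ∈ K := hle (Subgroup.subset_closure (by simp))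
    have hyK : y ∈ K := hle (Subgroup.subset_closure (by simp))
    by_cases hKv : K = E.v x
    · rw [← hKv]
      exact hyK
    · exact absurd ⟨E.v x, K, hK, hKv, x, hx, hxK, rfl⟩ hno
  have h2 : (⊤ : Subgroup G) ≤ E.v x := by
    rw [← E.gen]
    exact (Subgroup.closure_le _).2 h1
  exact (E.coat x hx).1 (top_le_iff.1 h2)

theorem exists_max [Finite G] (E : BEnv G) : ∃ s, E.Max s ∧ ∃ Z T, E.Full s Z T := by
  obtain ⟨Z, K, hZK⟩ := E.exists_bad
  let S : Set ℕ := {n | ∃ Z K, E.Bad Z K ∧ Nat.card (col E.X E.v K Z) = n}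
  have hne : S.Nonempty := ⟨_, Z, K, hZK, rfl⟩
  have hbdd : BddAbove S := by
    refine ⟨Nat.card G, ?_⟩
    rintro n ⟨Z, K, h, rfl⟩
    exact Subgroup.card_le_card_group _
  obtain ⟨Z', K', h', hc⟩ := Nat.sSup_mem hne hbdd
  refine ⟨sSup S, ?_, Z', _, K', h', rfl, hc⟩
  intro Z K h
  exact le_csSup hbdd ⟨Z, K, h, rfl⟩

end BEnv

end Pool.Agent.MP_1c8e06_ag.BT
end

section

set_option autoImplicit false

namespace Pool.Agent.MP_1c8e06_ag.BT

variable {G : Type} [Group G]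

namespace BEnv

/-!
# Task B2: properties of the full groups

`E.Full s Z T : ∃ K, E.Bad Z K ∧ T = col X v K Z ∧ Nat.card T = s`; `Bad Z K : IsCoatom K ∧ K ≠ Z ∧ ∃ x ∈ X,
x ∈ K ∧ v x = Z`.
* `full_eq`: let `T = col K Z`.  `L ≤ K'` for a coatom `K'`; `K' ≠ Z` since `¬ L ≤ Z`.  The generators of `T`
  (elements `z ∈ X`, `z ∈ K`, `v z = Z`) lie in `T ≤ L ≤ K'`, so `T ≤ col L Z ≤ col K' Z`, and `(Z, K')` is bad, so
  `Nat.card (col K' Z) ≤ s = Nat.card T`.  Hence equality.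
* `full_sn`: `full_eq` and the field `sn` (`Z = v x`).
* `full_exists`: the `x` of the bad pair lies in `T` (`subset_closure`).   `full_le`: field `le` with `L = K`.
* `full_not_sn`: take `x ∈ X`, `x ∈ T`, `v x = Z`; field `big` with `K` gives `K = Z`.
* `full_cj`: `bad_cj`, `cj_col`, `card_cj`.
* `full_norm`: if `u ∉ Z` then `Z' := cj u Z ≠ Z` (`cj_om_iff`).  `T = cj u T` is `Full s Z'`; `T ≤ Z ≠ ⊤`, `¬ Z ≤ Z'`
  (coatoms), so `full_sn` (for `Z'`, `L = Z`) gives `SN T Z`, contradicting `full_not_sn`.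
* `full_unique`: if `Z ≠ Z'` then, as before, `T ≤ Z`, `¬ Z ≤ Z'`, `full_sn` for `Z'` and `L = Z`: `SN T Z`.
* `full_inf`: `T = col L Z` by `full_eq`; `cj h T = col (cj h L) (cj h Z) = col L Z` (`cj_eq_self`).
-/
theorem full_om (E : BEnv G) {s : ℕ} {Z T : Subgroup G} (h : E.Full s Z T) : Z ∈ E.Om := by
  obtain ⟨K, hK, -, -⟩ := h
  exact E.bad_om hK

theorem full_exists (E : BEnv G) {s : ℕ} {Z T : Subgroup G} (h : E.Full s Z T) :
    ∃ x ∈ E.X, x ∈ T ∧ E.v x = Z := by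
  obtain ⟨K, hK, rfl, -⟩ := h
  obtain ⟨x, hx, hxK, hv⟩ := hK.2.2
  exact ⟨x, hx, Subgroup.subset_closure ⟨hx, hxK, hv⟩, hv⟩

theorem full_le (E : BEnv G) {s : ℕ} {Z T : Subgroup G} (h : E.Full s Z T) : T ≤ Z := by
  obtain ⟨K, hK, rfl, -⟩ := h
  obtain ⟨x, hx, hxK, hv⟩ := hK.2.2
  have h1 := E.le K hK.1.1 x hx
  rw [hv] at h1
  exact h1

theorem full_eq [Finite G] (E : BEnv G) {s : ℕ} (hs : E.Max s) {Z T : Subgroup G}
    (h : E.Full s Z T) {L : Subgroup G} (hL : L ≠ ⊤) (hTL : T ≤ L) (hLZ : ¬ L ≤ Z) :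
    T = col E.X E.v L Z := by
  obtain ⟨x, hx, hxT, hv⟩ := E.full_exists h
  obtain ⟨K, hK, hT, hc⟩ := h
  obtain ⟨K', hK', hLK'⟩ := (eq_top_or_exists_le_coatom L).resolve_left hL
  have hne : K' ≠ Z := by
    intro h
    rw [h] at hLK'
    exact hLZ hLK'
  have h1 : T ≤ col E.X E.v L Z := by
    have h0 : col E.X E.v K Z ≤ col E.X E.v L Z := by
      refine (Subgroup.closure_le _).2 ?_
      rintro z ⟨hz, hzK, hzv⟩
      refine Subgroup.subset_closure ⟨hz, hTL ?_, hzv⟩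
      rw [hT]
      exact Subgroup.subset_closure ⟨hz, hzK, hzv⟩
    rw [← hT] at h0
    exact h0
  have h2 : col E.X E.v L Z ≤ col E.X E.v K' Z :=
    Subgroup.closure_mono (fun z hz => ⟨hz.1, hLK' hz.2.1, hz.2.2⟩)
  have hbad : E.Bad Z K' := ⟨hK', hne, x, hx, hLK' (hTL hxT), hv⟩
  have h3 := hs Z K' hbad
  have h4 : T = col E.X E.v K' Z := by
    refine Subgroup.eq_of_le_of_card_ge (h1.trans h2) ?_
    rw [hc]
    exact h3
  rw [← h4] at h2
  exact le_antisymm h1 h2

theorem full_sn [Finite G] (E : BEnv G) {s : ℕ} (hs : E.Max s) {Z T : Subgroup G}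
    (h : E.Full s Z T) {L : Subgroup G} (hL : L ≠ ⊤) (hTL : T ≤ L) (hLZ : ¬ L ≤ Z) : SN T L := by
  obtain ⟨x, hx, hxT, hv⟩ := E.full_exists h
  have h1 := E.full_eq hs h hL hTL hLZ
  have h2 := E.sn L hL x hx
  rw [hv, ← h1] at h2
  exact h2

theorem full_not_sn (E : BEnv G) {s : ℕ} {Z T : Subgroup G} (h : E.Full s Z T) : ¬ SN T Z := by
  intro hsn
  obtain ⟨x, hx, hxT, hv⟩ := E.full_exists h
  obtain ⟨K, hK, hT, hc⟩ := h
  have hTK : T ≤ K := by
    rw [hT]
    refine (Subgroup.closure_le _).2 ?_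
    rintro z ⟨hz, hzK, hzv⟩
    exact hzK
  have h1 : K = E.v x := by
    refine E.big x hx T hxT ?_ K hK.1 hTK
    rw [hv]
    exact hsn
  exact hK.2.1 (h1.trans hv)

theorem full_cj (E : BEnv G) {s : ℕ} {Z T : Subgroup G} (h : E.Full s Z T) (g : G) :
    E.Full s (cj g Z) (cj g T) := by
  obtain ⟨K, hK, hT, hc⟩ := h
  refine ⟨cj g K, E.bad_cj hK g, ?_, ?_⟩
  · rw [hT, E.cj_col]
  · rw [card_cj, hc]

theorem full_norm [Finite G] (E : BEnv G) {s : ℕ} (hs : E.Max s) {Z T : Subgroup G}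
    (h : E.Full s Z T) {u : G} (hu : cj u T = T) : u ∈ Z := by
  by_contra hu2
  have hom := E.full_om h
  have hne : Z ≠ cj u Z := fun h3 => hu2 ((E.cj_om_iff hom u).1 h3.symm)
  have h' := E.full_cj h u
  rw [hu] at h'
  exact E.full_not_sn h (E.full_sn hs h' (E.om_coatom hom).1 (E.full_le h)
    (not_le_of_coatom (E.om_coatom hom) (E.om_coatom (E.om_cj hom u)) hne))

theorem full_unique [Finite G] (E : BEnv G) {s : ℕ} (hs : E.Max s) {Z Z' T : Subgroup G}
    (h : E.Full s Z T) (h' : E.Full s Z' T) : Z = Z' := by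
  by_contra hne
  exact E.full_not_sn h (E.full_sn hs h' (E.om_coatom (E.full_om h)).1 (E.full_le h)
    (not_le_of_coatom (E.om_coatom (E.full_om h)) (E.om_coatom (E.full_om h')) hne))

theorem full_inf [Finite G] (E : BEnv G) {s : ℕ} (hs : E.Max s) {Z T : Subgroup G}
    (h : E.Full s Z T) {L : Subgroup G} (hL : L ≠ ⊤) (hTL : T ≤ L) (hLZ : ¬ L ≤ Z) {u : G}
    (hu : u ∈ L) (hu' : u ∈ Z) : cj u T = T := by
  have h1 := E.full_eq hs h hL hTL hLZ
  have h2 : cj u (col E.X E.v L Z) = col E.X E.v L Z := by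
    rw [E.cj_col, cj_eq_self hu, cj_eq_self hu']
  rw [← h1] at h2
  exact h2

end BEnv

end Pool.Agent.MP_1c8e06_ag.BT
end
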