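import Pool.Agent.Lib.MP_1c8e06_ag.AJ.Defs7
import Pool.Agent.Lib.MP_1c8e06_ag.Mg.G049
import Pool.Agent.Lib.MP_1c8e06_ag.Mg.G054

section

set_option autoImplicit false

open Polynomial
open scoped Classical

namespace Pool.Agent.MP_1c8e06_ag.AJ

noncomputable section

/-!
# Task G2: subnormal closures

`BT.SN A L`: `A` is subnormal in `L` (`BT/Defs.lean`, lemmas in `BT/S1.lean`: `le`, `trans`, `inf`, `mono`, `of_normal`, `proper`).
Proofs.
* `exists_snc`: (copy `BT.exists_closure`, `BT/S4.lean`) take `A` minimal with `SN A L` and `S ≤ A`.  `clS S A ≤ A` is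
  normalised by `A`, contains `S` (`le_clS`), so `SN (clS S A) L`, and minimality gives equality.
* `SN_top`: otherwise `A ≤ M`, `M ≠ ⊤`, `M` normal in `⊤` (`SN.proper`), so `M` contains the normal closure of `S`.
* `SN_supN`: induction on `SN`: if `B` normalises `A` then `B ⊔ N` normalises `A ⊔ N` (`BT.cj_sup`; the elements `b` with
  `cj b (A ⊔ N) = A ⊔ N` form a subgroup `BT.S3_nz`; elements of `N` are in `A ⊔ N`: `BT.cj_eq_self`).
-/

theorem exists_snc {G : Type} [Group G] [Finite G] (S L : Subgroup G) (hS : S ≤ L) :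
    ∃ A : Subgroup G, S ≤ A ∧ BT.SN A L ∧ clS S A = A := by
  obtain ⟨A, ⟨hA, hSA⟩, hmin⟩ := (wellFounded_lt (α := Subgroup G)).has_min
    {A : Subgroup G | BT.SN A L ∧ S ≤ A} ⟨L, BT.SN.refl L, hS⟩
  have hle : clS S A ≤ A := by
    rw [clS, Subgroup.closure_le]
    rintro _ ⟨a, ha, x, hx, rfl⟩
    exact A.mul_mem (A.mul_mem ha (hSA hx)) (A.inv_mem ha)
  have hn : ∀ b ∈ A, BT.cj b (clS S A) = clS S A := by
    intro b hb
    apply BT.cj_eq_of_le
    rw [clS, BT.cj_closure, Subgroup.closure_le]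
    rintro _ ⟨_, ⟨a, ha, x, hx, rfl⟩, rfl⟩
    exact Subgroup.subset_closure ⟨b * a, A.mul_mem hb ha, x, hx, by group⟩
  refine ⟨A, hSA, hA, ?_⟩
  by_contra hne
  exact hmin (clS S A) ⟨(BT.SN.of_normal hle hn).trans hA, le_clS S A⟩ (lt_of_le_of_ne hle hne)

theorem SN_top {G : Type} [Group G] {A S : Subgroup G} (h : BT.SN A ⊤) (hS : S ≤ A)
    (hgen : Subgroup.normalClosure (S : Set G) = ⊤) : A = ⊤ := by
  by_contra hne
  obtain ⟨N, hAN, -, hN, hn⟩ := h.proper hne
  have hNn : N.Normal := by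
    refine ⟨fun x hx g => ?_⟩
    have h2 : g * x * g⁻¹ ∈ BT.cj g N := BT.conj_mem_cj.2 hx
    rwa [hn g (Subgroup.mem_top g)] at h2
  have h3 : Subgroup.normalClosure (S : Set G) ≤ N :=
    Subgroup.normalClosure_le_normal (fun x hx => hAN (hS hx))
  rw [hgen] at h3
  exact hN (top_le_iff.1 h3)

theorem SN_supN {G : Type} [Group G] {A Y N : Subgroup G} (h : BT.SN A Y) (hN : N.Normal) :
    BT.SN (A ⊔ N) (Y ⊔ N) := by
  have hc : ∀ b : G, BT.cj b N = N := by
    intro b
    ext x
    rw [BT.mem_cj]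
    constructor
    · intro hx
      have h2 := hN.conj_mem _ hx b
      rwa [show b * (b⁻¹ * x * b) * b⁻¹ = x by group] at h2
    · intro hx
      have h2 := hN.conj_mem _ hx b⁻¹
      rwa [inv_inv] at h2
  induction h with
  | refl A => exact BT.SN.refl _
  | step A B L hAB hn _ ih =>
    refine BT.SN.step (A ⊔ N) (B ⊔ N) _ (sup_le_sup_right hAB N) ?_ ih
    have h3 : B ⊔ N ≤ BT.S3_nz (A ⊔ N) := by
      refine sup_le (fun b hb => ?_) (fun b hb => ?_)
      · rw [BT.S3_mem_nz, BT.cj_sup, hn b hb, hc]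
      · rw [BT.S3_mem_nz]
        exact BT.cj_eq_self ((le_sup_right : N ≤ A ⊔ N) hb)
    exact fun b hb => h3 hb

end

end Pool.Agent.MP_1c8e06_ag.AJ
end

section

set_option autoImplicit false

open Polynomial
open scoped Classical

namespace Pool.Agent.MP_1c8e06_ag.AJ

noncomputable section

/-!
# Task G4: the join of a subnormal closure and a supplement

Proof.  `M := A ⊔ H`.  `B := sSup {A' | ∃ m ∈ M, A' = BT.cj m A}` (the normal closure of `A` in `M`): `SN B ⊤` (`BT.SN.sSup_mem`,
`BT.SN.cj`, `BT.cj_top`), `A ≤ B ≤ N` (`N` is normal), `B ≤ M`, and `M` normalises `B` (finite group: `BT.cj_eq_of_le`).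
`SN B N` (`SN.mono`).  Suppose `B ≠ N`: `SN.proper` gives `N' ≠ N`, `B ≤ N' ≤ N`, normal in `N`.  Let
`B' := clS B N ≤ N'`.  It is normalised by `N` and by `M` (`m n b n⁻¹ m⁻¹ = (m n m⁻¹) (m b m⁻¹) (m n m⁻¹)⁻¹`), and
`M ⊔ N = ⊤`; so `B'` is normal in `G`, contains `I`, hence `N = normalClosure I ≤ B' ≤ N'`, a contradiction.
So `B = N`, `N ≤ M`, `H ≤ M`, `M = ⊤`.
-/

theorem join_top {G : Type} [Group G] [Finite G] (I A H : Subgroup G) (hI : I ≤ A)
    (hA : BT.SN A ⊤) (hAN : A ≤ Subgroup.normalClosure (I : Set G))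
    (hH : H ⊔ Subgroup.normalClosure (I : Set G) = ⊤) : A ⊔ H = ⊤ := by
  have hcjN : ∀ (N : Subgroup G), N.Normal → ∀ g, BT.cj g N = N := by
    intro N hN g
    ext x
    rw [BT.mem_cj]
    constructor
    · intro hx
      have h := hN.conj_mem _ hx g
      have e : g * (g⁻¹ * x * g) * g⁻¹ = x := by group
      rwa [e] at h
    · intro hx
      have h := hN.conj_mem _ hx g⁻¹
      rwa [inv_inv] at h
  obtain ⟨N, hNdef⟩ : ∃ N, N = Subgroup.normalClosure (I : Set G) := ⟨_, rfl⟩
  have hNn : N.Normal := by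
    rw [hNdef]
    exact Subgroup.normalClosure_normal
  rw [← hNdef] at hAN hH
  obtain ⟨M, hM⟩ : ∃ M, M = A ⊔ H := ⟨_, rfl⟩
  have hAM : A ≤ M := by
    rw [hM]
    exact le_sup_left
  have hHM : H ≤ M := by
    rw [hM]
    exact le_sup_right
  rw [← hM]
  obtain ⟨B, hB⟩ : ∃ B, B = sSup {A' : Subgroup G | ∃ m ∈ M, A' = BT.cj m A} := ⟨_, rfl⟩
  have hBtop : BT.SN B ⊤ := by
    rw [hB]
    refine BT.SN.sSup_mem _ _ ?_
    rintro A' ⟨m, _, rfl⟩
    have h := hA.cj m
    rwa [BT.cj_top] at h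
  have hAB : A ≤ B := by
    rw [hB]
    exact le_sSup ⟨1, M.one_mem, (BT.cj_one A).symm⟩
  have hBN : B ≤ N := by
    rw [hB]
    refine sSup_le ?_
    rintro A' ⟨m, _, rfl⟩
    have h := BT.cj_mono (g := m) hAN
    rwa [hcjN N hNn] at h
  have hBM : B ≤ M := by
    rw [hB]
    refine sSup_le ?_
    rintro A' ⟨m, hm, rfl⟩
    have h := BT.cj_mono (g := m) hAM
    rwa [BT.cj_eq_self hm] at h
  have hMB : ∀ m ∈ M, BT.cj m B = B := by
    intro m hm
    apply BT.cj_eq_of_le
    rw [BT.cj_le_iff]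
    conv_lhs => rw [hB]
    refine sSup_le ?_
    rintro A' ⟨m', hm', rfl⟩
    rw [BT.le_cj_iff, inv_inv, ← BT.cj_mul, hB]
    exact le_sSup ⟨m * m', M.mul_mem hm hm', rfl⟩
  have hSN : BT.SN B N := hBtop.mono hBN le_top
  have hBeq : B = N := by
    by_contra hne
    obtain ⟨N', h1, h2, h3, h4⟩ := hSN.proper hne
    have hB'N' : clS B N ≤ N' := by
      rw [clS, Subgroup.closure_le]
      rintro _ ⟨a, ha, x, hx, rfl⟩
      have h5 : a * x * a⁻¹ ∈ BT.cj a N' := BT.conj_mem_cj.2 (h1 hx)
      rwa [h4 a ha] at h5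
    have hN1 : N ≤ BT.S3_nz (clS B N) := by
      intro b hb
      rw [BT.S3_mem_nz]
      apply BT.cj_eq_of_le
      conv_lhs => rw [clS, BT.cj_closure]
      rw [Subgroup.closure_le]
      rintro _ ⟨_, ⟨a, ha, x, hx, rfl⟩, rfl⟩
      have e : b * (a * x * a⁻¹) * b⁻¹ = (b * a) * x * (b * a)⁻¹ := by group
      change b * (a * x * a⁻¹) * b⁻¹ ∈ clS B N
      rw [e]
      exact mem_clS (N.mul_mem hb ha) hx
    have hM1 : M ≤ BT.S3_nz (clS B N) := by
      intro m hm
      rw [BT.S3_mem_nz]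
      apply BT.cj_eq_of_le
      conv_lhs => rw [clS, BT.cj_closure]
      rw [Subgroup.closure_le]
      rintro _ ⟨_, ⟨a, ha, x, hx, rfl⟩, rfl⟩
      have e : m * (a * x * a⁻¹) * m⁻¹ = (m * a * m⁻¹) * (m * x * m⁻¹) * (m * a * m⁻¹)⁻¹ := by group
      change m * (a * x * a⁻¹) * m⁻¹ ∈ clS B N
      rw [e]
      refine mem_clS (hNn.conj_mem a ha m) ?_
      have h5 : m * x * m⁻¹ ∈ BT.cj m B := BT.conj_mem_cj.2 hx
      rwa [hMB m hm] at h5
    have htop : ∀ g : G, BT.cj g (clS B N) = clS B N := by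
      intro g
      rw [← BT.S3_mem_nz]
      have h5 : (⊤ : Subgroup G) ≤ BT.S3_nz (clS B N) := by
        rw [← hH]
        exact sup_le (hHM.trans hM1) hN1
      exact h5 (Subgroup.mem_top g)
    have hnorm : (clS B N).Normal := by
      refine ⟨fun n hn g => ?_⟩
      have h5 : g * n * g⁻¹ ∈ BT.cj g (clS B N) := BT.conj_mem_cj.2 hn
      rwa [htop g] at h5
    have h6 : N ≤ clS B N := by
      conv_lhs => rw [hNdef]
      have hle : (I : Set G) ⊆ (clS B N : Set G) := fun x hx => le_clS B N (hAB (hI hx))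
      exact Subgroup.normalClosure_le_normal hle
    exact h3 (le_antisymm h2 (h6.trans hB'N'))
  rw [eq_top_iff, ← hH]
  refine sup_le hHM ?_
  rw [← hBeq]
  exact hBM

end

end Pool.Agent.MP_1c8e06_ag.AJ
end

section

set_option autoImplicit false

open Polynomial
open scoped Classical

namespace Pool.Agent.MP_1c8e06_ag.AJ

noncomputable section

/-!
# Task G7: passing to a subgroup

Proofs.
* `re_sub`: `re_ind` with `G₀ := H`, `i₀ := i.codRestrict H hH`, `φ := H.subtype`; `φ.comp i₀ = i` (ext), `(⊤).map φ = H`.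
* `ncl_sub`: let `M` be a normal subgroup of `H` (as a group) containing `(i.codRestrict H hH).range`; its image in `G`
  contains `a * i u * a⁻¹` for `a ∈ H`, hence `clS i.range H = H`; so `M = ⊤`.
-/

theorem re_sub {p : ℕ} {k : Type} [Field k] {P G : Type} [Group P] [Fintype P] [Group G]
    [Fintype G] (i : P →* G) (H : Subgroup G) (hH : ∀ u, i u ∈ H)
    (h : RE p k (i.codRestrict H hH) ⊤) : RE p k i H := by
  have h1 := re_ind (i.codRestrict H hH) H.subtype H.subtype_injective ⊤ h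
  have h2 : H.subtype.comp (i.codRestrict H hH) = i := by
    refine MonoidHom.ext fun u => ?_
    rfl
  have h3 : (⊤ : Subgroup H).map H.subtype = H := by
    rw [← MonoidHom.range_eq_map, Subgroup.range_subtype]
  rw [h2, h3] at h1
  exact h1

theorem ncl_sub {P G : Type} [Group P] [Group G] (i : P →* G) (H : Subgroup G)
    (hH : ∀ u, i u ∈ H) (h : clS i.range H = H) :
    Subgroup.normalClosure ((i.codRestrict H hH).range : Set H) = ⊤ := by
  have h1 : clS i.range H ≤
      (Subgroup.normalClosure ((i.codRestrict H hH).range : Set H)).map H.subtype := by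
    rw [clS, Subgroup.closure_le]
    rintro y ⟨a, ha, x, ⟨u, rfl⟩, rfl⟩
    refine ⟨⟨a, ha⟩ * i.codRestrict H hH u * (⟨a, ha⟩ : H)⁻¹, ?_, rfl⟩
    have h2 : i.codRestrict H hH u ∈
        Subgroup.normalClosure ((i.codRestrict H hH).range : Set H) :=
      Subgroup.subset_normalClosure (MonoidHom.mem_range.2 ⟨u, rfl⟩)
    exact Subgroup.normalClosure_normal.conj_mem _ h2 (⟨a, ha⟩ : H)
  rw [Subgroup.eq_top_iff']
  intro x
  have h2 : (x : G) ∈ clS i.range H := by
    rw [h]
    exact x.2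
  obtain ⟨y, hy, hyx⟩ := h1 h2
  have h3 : y = x := Subtype.ext hyx
  rw [← h3]
  exact hy

end

end Pool.Agent.MP_1c8e06_ag.AJ
end

section

set_option autoImplicit false

open Polynomial
open scoped Classical

namespace Pool.Agent.MP_1c8e06_ag.AJ

noncomputable section

/-!
# Task L3: extending the type along a surjection of `p`-groups

Proof.  Strong induction on `Nat.card q.ker`.  If `q.ker = ⊥` then `q` is bijective: transport `S'` along the inverse
(`S.μ i j l := S'.μ (q i) (q j) (q l)` etc.; sums are reindexed by the bijection `q`; `J c := c ∘ q`).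
Otherwise `q.ker` is a nontrivial normal subgroup of the `p`-group `P`, so it meets the center
nontrivially (Mathlib: `IsPGroup` acting; e.g. `IsPGroup.bot_lt_center`-type results, or count the fixed
points of the conjugation action of `P` on `q.ker`: `IsPGroup.card_modEq_card_fixedPoints`): there is
`ι₀ ∈ q.ker` central of order `p` (a power of a nontrivial central element).  `C := Subgroup.zpowers ι₀`,
normal; `P'' := P ⧸ C`, `q₁ : P → P''`, `q₂ : P'' → P'` induced (surjective, smaller kernel; `P''` is a `p`-group).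
Induction for `q₂`: `S''`, `J₂`; `exists_ext1` for `q₁`: `S`, `J₁`; `J := J₁ ∘ J₂`.
-/

private lemma L3_sum {B P P' : Type} [AddCommMonoid B] [Fintype P] [Fintype P'] (q : P ≃ P') (g : P' → B) :
    ∑ i, g (q i) = ∑ i, g i := Equiv.sum_comp q g

/-- transport of structure constants along an isomorphism -/
private def L3_tr {B P P' : Type} [CommRing B] [Group P] [Fintype P] [Group P'] [Fintype P']
    (q : P ≃* P') (S : SC B P') : SC B P where
  μ i j l := S.μ (q i) (q j) (q l)
  α h l m := S.α (q h) (q l) (q m)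
  ν l := S.ν (q l)
  T i j := S.T (q i) (q j)
  T' i j := S.T' (q i) (q j)
  comm i j l := S.comm _ _ _
  assoc i j k l := by
    have h1 := L3_sum q.toEquiv (fun m => S.μ (q i) (q j) m * S.μ m (q k) (q l))
    have h2 := L3_sum q.toEquiv (fun m => S.μ (q j) (q k) m * S.μ (q i) m (q l))
    exact h1.trans ((S.assoc _ _ _ _).trans h2.symm)
  unit j l := by
    have h1 := L3_sum q.toEquiv (fun i => S.ν i * S.μ i (q j) (q l))
    refine h1.trans ((S.unit _ _).trans ?_)
    by_cases h : j = l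
    · subst h; simp
    · rw [if_neg h, if_neg (fun h' => h (q.injective h'))]
  α_one l m := by
    rw [map_one]
    refine (S.α_one _ _).trans ?_
    by_cases h : l = m
    · subst h; simp
    · rw [if_neg h, if_neg (fun h' => h (q.injective h'))]
  α_mul g h l n := by
    rw [map_mul]
    have h1 := L3_sum q.toEquiv (fun m => S.α (q h) (q l) m * S.α (q g) m (q n))
    exact (S.α_mul _ _ _ _).trans h1.symm
  α_μ h i j l := by
    have h1 := L3_sum q.toEquiv (fun m => S.μ (q i) (q j) m * S.α (q h) m (q l))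
    have h2 := L3_sum q.toEquiv (fun m => ∑ n, S.α (q h) (q i) m * S.α (q h) (q j) n * S.μ m n (q l))
    refine h1.trans ((S.α_μ _ _ _ _).trans (h2.symm.trans ?_))
    refine Finset.sum_congr rfl fun m _ => ?_
    exact (L3_sum q.toEquiv (fun n => S.α (q h) (q i) (q m) * S.α (q h) (q j) n * S.μ (q m) n (q l))).symm
  α_ν h m := by
    have h1 := L3_sum q.toEquiv (fun l => S.ν l * S.α (q h) l (q m))
    exact h1.trans (S.α_ν _ _)
  tr i j l := by
    have h1 := L3_sum q.toEquiv (fun x => ∑ m, S.μ (q i) (q j) m * S.α x m (q l))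
    refine Eq.trans ?_ (h1.trans (S.tr _ _ _))
    refine Finset.sum_congr rfl fun x _ => ?_
    exact L3_sum q.toEquiv (fun m => S.μ (q i) (q j) m * S.α (q x) m (q l))
  dual x k := by
    have h1 := L3_sum q.toEquiv (fun l => ∑ m, ∑ n, S.T' l m * S.α (q x) m n * S.μ l n (q k))
    refine Eq.trans ?_ (h1.trans ((S.dual _ _).trans ?_))
    · refine Finset.sum_congr rfl fun l _ => ?_
      refine Eq.trans ?_ (L3_sum q.toEquiv
        (fun m => ∑ n, S.T' (q l) m * S.α (q x) m n * S.μ (q l) n (q k)))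
      refine Finset.sum_congr rfl fun m _ => ?_
      exact L3_sum q.toEquiv (fun n => S.T' (q l) (q m) * S.α (q x) (q m) n * S.μ (q l) n (q k))
    · by_cases h : x = 1
      · subst h; simp
      · rw [if_neg h, if_neg (fun h' => h (q.injective (h'.trans (map_one q).symm)))]

private def L3_J {B P P' : Type} [CommRing B] [Group P] [Fintype P] [Group P'] [Fintype P']
    (q : P ≃* P') (S : SC B P') : Al S →+* Al (L3_tr q S) where
  toFun c := fun l => c (q l)
  map_one' := rfl
  map_zero' := rfl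
  map_add' _ _ := rfl
  map_mul' a b := by
    refine Al.ext fun l => ?_
    rw [Al.mul_apply]
    change (a * b) (q l) = _
    rw [Al.mul_apply]
    have h1 := L3_sum q.toEquiv (fun i => ∑ j, a i * b j * S.μ i j (q l))
    refine h1.symm.trans ?_
    refine Finset.sum_congr rfl fun i _ => ?_
    exact (L3_sum q.toEquiv (fun j => a (q i) * b j * S.μ (q i) j (q l))).symm

private lemma L3_J_apply {B P P' : Type} [CommRing B] [Group P] [Fintype P] [Group P'] [Fintype P']
    (q : P ≃* P') (S : SC B P') (c : Al S) (l : P) : L3_J q S c l = c (q l) := rfl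

private lemma L3_J_cst {B P P' : Type} [CommRing B] [Group P] [Fintype P] [Group P'] [Fintype P']
    (q : P ≃* P') (S : SC B P') (f : B) : L3_J q S (Al.cst S f) = Al.cst (L3_tr q S) f := rfl

private lemma L3_J_act {B P P' : Type} [CommRing B] [Group P] [Fintype P] [Group P'] [Fintype P']
    (q : P ≃* P') (S : SC B P') (u : P) (c : Al S) :
    L3_J q S (Al.act S (q u) c) = Al.act (L3_tr q S) u (L3_J q S c) := by
  refine Al.ext fun l => ?_
  rw [L3_J_apply, Al.act_apply, Al.act_apply]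
  exact (L3_sum q.toEquiv (fun m => c m * S.α (q u) m (q l))).symm

private lemma L3_central {p : ℕ} [hp : Fact p.Prime] {P : Type} [Group P] [Finite P]
    (hP : IsPGroup p P) (N : Subgroup P) [N.Normal] (hN : N ≠ ⊥) :
    ∃ z ∈ N, orderOf z = p ∧ ∀ u, u * z = z * u := by
  have hN' : Nontrivial N := (Subgroup.nontrivial_iff_ne_bot N).2 hN
  have hNp : IsPGroup p N := hP.to_subgroup N
  have dvd : p ∣ Nat.card N := by
    obtain ⟨n, hn0, hn⟩ := hNp.nontrivial_iff_card.mp hN'
    exact hn.symm ▸ dvd_pow_self _ (ne_of_gt hn0)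
  have h1 : (1 : N) ∈ MulAction.fixedPoints (ConjAct P) N := by
    intro g
    exact smul_one g
  obtain ⟨b, hb, hb1⟩ := (hP.of_equiv ConjAct.toConjAct).exists_fixed_point_of_prime_dvd_card_of_fixed_point
    N dvd h1
  have hcomm : ∀ u : P, u * (b : P) = (b : P) * u := by
    intro u
    have h2 := hb (ConjAct.toConjAct u)
    have h3 := congrArg (fun x : N => (x : P)) h2
    have h4 : ((ConjAct.toConjAct u • b : N) : P) = u * (b : P) * u⁻¹ := rfl
    change ((ConjAct.toConjAct u • b : N) : P) = (b : P) at h3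
    rw [h4] at h3
    rw [mul_inv_eq_iff_eq_mul] at h3
    exact h3
  obtain ⟨k, hk⟩ := IsPGroup.iff_orderOf.1 hP (b : P)
  have hb1' : (b : P) ≠ 1 := fun h => hb1 (Subtype.ext h.symm)
  have hk0 : k ≠ 0 := by
    rintro rfl
    rw [pow_zero, orderOf_eq_one_iff] at hk
    exact hb1' hk
  obtain ⟨m, rfl⟩ := Nat.exists_eq_succ_of_ne_zero hk0
  refine ⟨(b : P) ^ (p ^ m), N.pow_mem b.2 _, ?_, ?_⟩
  · rw [orderOf_pow' _ (pow_ne_zero _ hp.out.ne_zero), hk]
    have : (p ^ m.succ).gcd (p ^ m) = p ^ m :=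
      Nat.gcd_eq_right (pow_dvd_pow p (Nat.le_succ m))
    rw [this, Nat.succ_eq_add_one, pow_succ, Nat.mul_div_cancel_left _ (pow_pos hp.out.pos m)]
  · intro u
    exact (Commute.pow_right (show Commute u (b : P) from hcomm u) _).eq

private lemma L3_aux {p : ℕ} [hp : Fact p.Prime] {k : Type} [Field k] [CharP k p] (n : ℕ) :
    ∀ (P P' : Type) [Group P] [Fintype P] [Group P'] [Fintype P'] (_ : IsPGroup p P) (q : P →* P')
    (_ : Function.Surjective q) (S' : SC k[X] P') (_ : TC p S'), Nat.card P = n →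
    ∃ S : SC k[X] P, TC p S ∧ ∃ J : Al S' →+* Al S, (∀ f, J (Al.cst S' f) = Al.cst S f) ∧
      ∀ u c, J (Al.act S' (q u) c) = Al.act S u (J c) := by
  induction n using Nat.strong_induction_on with
  | _ n ih =>
    intro P P' _ _ _ _ hP q hq S' hT hn
    by_cases hk : q.ker = ⊥
    · have hinj : Function.Injective q := (MonoidHom.ker_eq_bot_iff q).1 hk
      let e : P ≃* P' := MulEquiv.ofBijective q ⟨hinj, hq⟩
      have he : ∀ u, e u = q u := fun u => rfl
      refine ⟨L3_tr e S', ?_, L3_J e S', fun f => L3_J_cst e S' f, fun u c => ?_⟩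
      · intro χ hχ hχ0
        obtain ⟨y', F, hF, hy1, hy2⟩ := hT (fun v => χ (e.symm v))
          (fun u v => by rw [map_mul, hχ])
          (by
            obtain ⟨u, hu⟩ := hχ0
            exact ⟨e u, by simpa using hu⟩)
        refine ⟨L3_J e S' y', F, hF, fun u => ?_, ?_⟩
        · rw [← L3_J_act, hy1, map_add, map_natCast, e.symm_apply_apply]
        · rw [← map_pow, ← map_sub, hy2, L3_J_cst]
      · rw [← he, L3_J_act]
    · obtain ⟨z, hz, hzp, hzc⟩ := L3_central hP q.ker hk
      have hCn : (Subgroup.zpowers z).Normal := by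
        refine ⟨fun x hx g => ?_⟩
        obtain ⟨m, rfl⟩ := Subgroup.mem_zpowers_iff.1 hx
        have : g * z ^ m * g⁻¹ = z ^ m := by
          rw [mul_inv_eq_iff_eq_mul]
          exact (Commute.zpow_right (show Commute g z from hzc g) m).eq
        rw [this]
        exact Subgroup.zpow_mem_zpowers z m
      haveI := hCn
      haveI : Fintype (P ⧸ Subgroup.zpowers z) := Fintype.ofFinite _
      have hle : ∀ x ∈ Subgroup.zpowers z, q x = 1 := by
        intro x hx
        obtain ⟨m, rfl⟩ := Subgroup.mem_zpowers_iff.1 hx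
        rw [map_zpow, MonoidHom.mem_ker.1 hz, one_zpow]
      let q₂ : P ⧸ Subgroup.zpowers z →* P' := QuotientGroup.lift (Subgroup.zpowers z) q hle
      let q₁ : P →* P ⧸ Subgroup.zpowers z := QuotientGroup.mk' (Subgroup.zpowers z)
      have hq12 : ∀ u, q₂ (q₁ u) = q u := fun u => rfl
      have hq₂ : Function.Surjective q₂ := by
        intro v
        obtain ⟨u, hu⟩ := hq v
        exact ⟨q₁ u, by rw [hq12, hu]⟩
      have hq₁ : Function.Surjective q₁ := QuotientGroup.mk'_surjective _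
      have hP'' : IsPGroup p (P ⧸ Subgroup.zpowers z) := hP.to_quotient _
      have hcard : Nat.card (P ⧸ Subgroup.zpowers z) < n := by
        have h1 := Subgroup.card_eq_card_quotient_mul_card_subgroup (Subgroup.zpowers z)
        rw [Nat.card_zpowers, hzp] at h1
        have h2 : 0 < Nat.card (P ⧸ Subgroup.zpowers z) := Nat.card_pos
        have h3 := hp.out.two_le
        rw [← hn, h1]
        nlinarith
      obtain ⟨S'', hT'', J₂, hJ₂, hJ₂'⟩ := ih _ hcard (P ⧸ Subgroup.zpowers z) P' hP'' q₂ hq₂ S' hT rfl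
      obtain ⟨S, hTS, J₁, hJ₁, hJ₁'⟩ := exists_ext1 q₁ hq₁ z
        ((QuotientGroup.eq_one_iff z).2 (Subgroup.mem_zpowers z)) hzp
        (fun u hu => by
          have hu' : u ∈ Subgroup.zpowers z := (QuotientGroup.eq_one_iff u).1 hu
          obtain ⟨m, hm⟩ := mem_powers_iff_mem_zpowers.2 hu'
          exact ⟨m, hm.symm⟩) hzc S'' hT''
      refine ⟨S, hTS, J₁.comp J₂, fun f => ?_, fun u c => ?_⟩
      · rw [RingHom.comp_apply, hJ₂, hJ₁]
      · rw [RingHom.comp_apply, RingHom.comp_apply, ← hq12, hJ₂', hJ₁']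

theorem exists_ext {p : ℕ} [hp : Fact p.Prime] {k : Type} [Field k] [CharP k p] {P P' : Type}
    [Group P] [Fintype P] [Group P'] [Fintype P'] (hP : IsPGroup p P) (q : P →* P')
    (hq : Function.Surjective q) (S' : SC k[X] P') (hT : TC p S') :
    ∃ S : SC k[X] P, TC p S ∧ ∃ J : Al S' →+* Al S, (∀ f, J (Al.cst S' f) = Al.cst S f) ∧
      ∀ u c, J (Al.act S' (q u) c) = Al.act S u (J c) :=
  L3_aux (Nat.card P) P P' hP q hq S' hT rfl

end

end Pool.Agent.MP_1c8e06_ag.AJ
end
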