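import Pool.Agent.Lib.MP_1c8e06_ag.AJ.Defs
import Pool.Agent.Lib.MP_1c8e06_ag.Mg.G058

section

set_option autoImplicit false

open Polynomial
open scoped Classical

namespace Pool.Agent.MP_1c8e06_ag.AJ

noncomputable section

/-!
# Task L5b: Lang's lemma for `p`-linear maps

Proof.  If `w ∈ N` take `n = w`, `w₁ = 0`.  In the finite dimensional space `M ⧸ N` let `n ≥ 1` be minimal such that
`F^n w` is in the span of `w, F w, .., F^(n-1) w` modulo `N` (exists by dimension; `n = 0` would mean `w ∈ N`):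
`F^n w = ∑_{i<n} a_i F^i w + ν`, `ν ∈ N`.  Look for `w₁ = ∑_{i<n} x_i F^i w`:
`F w₁ - w₁ = ∑_{i<n} x_i^p F^(i+1) w - ∑ x_i F^i w`; we want it to be `w` modulo `N`:
`i = 0`: `a_0 x_{n-1}^p - x_0 = 1`; `1 ≤ i < n`: `x_{i-1}^p + a_i x_{n-1}^p - x_i = 0`.
Put `Z := x_{n-1}`: `x_0 = a_0 Z^p - 1`, `x_i = x_{i-1}^p + a_i Z^p`: each `x_i = g_i(Z^p)`-type polynomial in `Z` whose
derivative is `0`; the last condition `x_{n-1} = Z` is the polynomial equation `g(Z) - Z = 0` with
`derivative g = 0`, so `g - X` has derivative `-1 ≠ 0`, it is not constant, and has a root in the algebraically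
closed field `k` (`IsAlgClosed.exists_root`).  (`N` is stable under `F`, which is additive and `p`-linear, so
everything is compatible with computing modulo `N`.)
-/

/-- the polynomials `g_i` -/
private def L5b_g {k : Type} [Field k] (p : ℕ) (a : ℕ → k) : ℕ → k[X]
  | 0 => C (a 0) * X ^ p - 1
  | i + 1 => (L5b_g p a i) ^ p + C (a (i + 1)) * X ^ p

private theorem L5b_der {k : Type} [Field k] {p : ℕ} [CharP k p] (a : ℕ → k) (i : ℕ) :
    derivative (L5b_g p a i) = 0 := by
  have h0 : ((p : ℕ) : k[X]) = 0 := CharP.cast_eq_zero k[X] p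
  have hX : ∀ f : k[X], derivative (f ^ p) = 0 := by
    intro f
    rw [derivative_pow]
    have : C ((p : ℕ) : k) = 0 := by rw [CharP.cast_eq_zero k p, C_0]
    rw [this]
    ring
  cases i with
  | zero =>
    simp only [L5b_g, derivative_sub, derivative_C_mul, hX, mul_zero, derivative_one, sub_zero]
  | succ i =>
    simp only [L5b_g, derivative_add, derivative_C_mul, hX, mul_zero, add_zero]

private theorem L5b_root {k : Type} [Field k] [IsAlgClosed k] {p : ℕ} [CharP k p] (a : ℕ → k)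
    (m : ℕ) : ∃ x : ℕ → k, x 0 = a 0 * x m ^ p - 1 ∧
      ∀ i, x (i + 1) = x i ^ p + a (i + 1) * x m ^ p := by
  obtain ⟨z, hz⟩ := IsAlgClosed.exists_root (L5b_g p a m - X) (by
    intro hd
    have h1 := eq_C_of_degree_eq_zero hd
    have h2 : derivative (L5b_g p a m - X) = 0 := by rw [h1, derivative_C]
    rw [derivative_sub, L5b_der, derivative_X, zero_sub, neg_eq_zero] at h2
    exact one_ne_zero h2)
  have hz' : eval z (L5b_g p a m) = z := by
    have := hz
    rw [IsRoot.def, eval_sub, eval_X, sub_eq_zero] at this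
    exact this
  refine ⟨fun i => eval z (L5b_g p a i), ?_, fun i => ?_⟩
  · simp only [hz']
    simp [L5b_g]
  · simp only [hz']
    simp [L5b_g]

private theorem L5b_sum {k : Type} [Field k] {M : Type} [AddCommGroup M] [Module k M]
    {p : ℕ} (hp : p ≠ 0) (F : M → M) (hadd : ∀ a b, F (a + b) = F a + F b)
    (hsmul : ∀ (c : k) (a : M), F (c • a) = c ^ p • F a) (x : ℕ → k) (v : ℕ → M) (n : ℕ) :
    F (∑ i ∈ Finset.range n, x i • v i) = ∑ i ∈ Finset.range n, x i ^ p • F (v i) := by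
  induction n with
  | zero =>
    simp only [Finset.range_zero, Finset.sum_empty]
    have := hsmul 0 0
    rwa [zero_smul, zero_pow hp, zero_smul] at this
  | succ n ih => rw [Finset.sum_range_succ, Finset.sum_range_succ, hadd, ih, hsmul]

theorem lang {p : ℕ} [hp : Fact p.Prime] {k : Type} [Field k] [IsAlgClosed k] [CharP k p]
    {M : Type} [AddCommGroup M] [Module k M] (F : M → M) (hadd : ∀ a b, F (a + b) = F a + F b)
    (hsmul : ∀ (c : k) (a : M), F (c • a) = c ^ p • F a) (N : Submodule k M)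
    (hN : ∀ a ∈ N, F a ∈ N) (T : Finset M) (hT : N ⊔ Submodule.span k (T : Set M) = ⊤) (w : M) :
    ∃ n ∈ N, ∃ w₁, w = n + (F w₁ - w₁) := by
  have hp0 : p ≠ 0 := hp.out.ne_zero
  -- the quotient is noetherian
  have hfin : Module.Finite k (M ⧸ N) := by
    refine ⟨⟨T.image N.mkQ, ?_⟩⟩
    rw [Finset.coe_image, Submodule.span_image]
    have h1 : Submodule.map N.mkQ (N ⊔ Submodule.span k (T : Set M)) = ⊤ := by
      rw [hT, Submodule.map_top, Submodule.range_mkQ]
    rw [Submodule.map_sup] at h1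
    have h2 : Submodule.map N.mkQ N = ⊥ := by
      rw [eq_bot_iff]
      rintro _ ⟨y, hy, rfl⟩
      rw [Submodule.mem_bot]
      exact (Submodule.Quotient.mk_eq_zero N).2 hy
    rw [h2, bot_sup_eq] at h1
    exact h1
  have hnoeth : IsNoetherian k (M ⧸ N) := inferInstance
  let U : ℕ →o Submodule k (M ⧸ N) :=
    { toFun := fun n => Submodule.span k (Set.range fun i : Fin n => N.mkQ (F^[i] w))
      monotone' := by
        intro a b hab
        refine Submodule.span_mono ?_
        rintro _ ⟨i, rfl⟩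
        exact ⟨Fin.castLE hab i, rfl⟩ }
  obtain ⟨n, hn⟩ := monotone_stabilizes_iff_noetherian.2 hnoeth U
  have hmem : N.mkQ (F^[n] w) ∈ U n := by
    rw [hn (n + 1) (Nat.le_succ n)]
    exact Submodule.subset_span ⟨Fin.last n, rfl⟩
  obtain ⟨c, hc⟩ := (Submodule.mem_span_range_iff_exists_fun k).1 hmem
  set a : ℕ → k := fun i => if h : i < n then c ⟨i, h⟩ else 0 with ha
  have hsum : ∑ i ∈ Finset.range n, a i • N.mkQ (F^[i] w) = N.mkQ (F^[n] w) := by
    rw [← hc, Finset.sum_range]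
    refine Finset.sum_congr rfl fun i _ => ?_
    simp only [ha, i.2, dif_pos, Fin.eta]
  obtain ⟨ν, hν, hνe⟩ : ∃ ν ∈ N, F^[n] w = ν + ∑ i ∈ Finset.range n, a i • F^[i] w := by
    refine ⟨F^[n] w - ∑ i ∈ Finset.range n, a i • F^[i] w, ?_, by abel⟩
    rw [← Submodule.Quotient.mk_eq_zero N, ← Submodule.mkQ_apply, map_sub, map_sum, sub_eq_zero,
      ← hsum]
    refine Finset.sum_congr rfl fun i _ => ?_
    rw [map_smul]
  cases n with
  | zero =>
    simp only [Finset.range_zero, Finset.sum_empty, add_zero, Function.iterate_zero, id_eq] at hνe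
    have hF0 : F 0 = 0 := by
      have := hsmul 0 0
      rwa [zero_smul, zero_pow hp0, zero_smul] at this
    exact ⟨ν, hν, 0, by rw [hνe, hF0]; abel⟩
  | succ m =>
    obtain ⟨x, hx0, hx⟩ := L5b_root (p := p) a m
    refine ⟨-(x m ^ p • ν), N.neg_mem (N.smul_mem _ hν),
      ∑ i ∈ Finset.range (m + 1), x i • F^[i] w, ?_⟩
    rw [L5b_sum hp0 F hadd hsmul x (fun i => F^[i] w) (m + 1)]
    have hit : ∀ i, F (F^[i] w) = F^[i + 1] w := fun i => (Function.iterate_succ_apply' F i w).symm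
    simp only [hit]
    rw [Finset.sum_range_succ, hνe, Finset.sum_range_succ' (fun i => a i • F^[i] w) m,
      Finset.sum_range_succ' (fun i => x i • F^[i] w) m, hx0]
    have h1 : ∀ i ∈ Finset.range m, x (i + 1) • F^[i + 1] w =
        x i ^ p • F^[i + 1] w + x m ^ p • (a (i + 1) • F^[i + 1] w) := by
      intro i _
      rw [hx i, add_smul, smul_smul, mul_comm (x m ^ p)]
    rw [Finset.sum_congr rfl h1, Finset.sum_add_distrib, ← Finset.smul_sum]
    simp only [Function.iterate_zero, id_eq, smul_add, sub_smul, one_smul, smul_smul]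
    rw [mul_comm (a 0)]
    abel

end

end Pool.Agent.MP_1c8e06_ag.AJ
end

section

set_option autoImplicit false

open Polynomial
open scoped Classical

namespace Pool.Agent.MP_1c8e06_ag.AJ

noncomputable section

/-!
# Task L8a: coordinates on an elementary abelian normal subgroup

Proof.  `N` (as a group) is commutative of exponent `p`, so `Additive N` is a module over `ZMod p`
(`AddCommGroup.zmodModule` or `ZMod` module from `p • x = 0`), finite; a basis indexed by `Fin m`
(`Module.finBasis`), `v n := repr n` for `n ∈ N` and `v g := 0` for `g ∉ N`.  Conjugation by `g` is an additive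
automorphism of `Additive N`, hence `ZMod p`-linear; `ρ g` its matrix (`LinearMap.toMatrix`), multiplicative.
`ρ n = 1` for `n ∈ N` as `N` is commutative.
-/

private theorem L8a_aux {p : ℕ} [hp : Fact p.Prime] {G V : Type} [Group G] [AddCommGroup V]
    [Module (ZMod p) V] [Finite V] (σ : G → V →+ V) (h1 : ∀ x, σ 1 x = x)
    (h2 : ∀ g h x, σ (g * h) x = σ g (σ h x)) :
    ∃ (m : ℕ) (e : V ≃+ (Fin m → ZMod p)) (ρ : G →* Matrix (Fin m) (Fin m) (ZMod p)),
      (∀ g x, e (σ g x) = (ρ g).mulVec (e x)) ∧ ∀ g, (∀ x, σ g x = x) → ρ g = 1 := by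
  have : Module.Finite (ZMod p) V := Module.Finite.of_finite
  let b := Module.finBasis (ZMod p) V
  let τ : G →* Module.End (ZMod p) V :=
    { toFun := fun g => AddMonoidHom.toZModLinearMap p (σ g)
      map_one' := LinearMap.ext fun x => h1 x
      map_mul' := fun g h => LinearMap.ext fun x => h2 g h x }
  refine ⟨_, b.equivFun.toAddEquiv,
    ((LinearMap.toMatrixAlgEquiv b : Module.End (ZMod p) V ≃ₐ[ZMod p] _) :
    Module.End (ZMod p) V →* _).comp τ, ?_, ?_⟩
  · intro g x
    exact (LinearMap.toMatrix_mulVec_repr b b (τ g) x).symm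
  · intro g hg
    have h3 : τ g = 1 := LinearMap.ext fun x => hg x
    rw [MonoidHom.comp_apply, h3, map_one]

theorem exists_coords {p : ℕ} [hp : Fact p.Prime] {G : Type} [Group G] [Fintype G]
    (N : Subgroup G) [N.Normal] (hNp : ∀ n ∈ N, n ^ p = 1) (hNc : ∀ a ∈ N, ∀ b ∈ N, a * b = b * a) :
    ∃ (m : ℕ) (v : G → Fin m → ZMod p) (ρ : G →* Matrix (Fin m) (Fin m) (ZMod p)),
      (∀ a ∈ N, ∀ b ∈ N, v (a * b) = v a + v b) ∧ (∀ a ∈ N, ∀ b ∈ N, v a = v b → a = b) ∧
      (∀ w, ∃ n ∈ N, v n = w) ∧ (∀ g, ∀ n ∈ N, v (g * n * g⁻¹) = (ρ g).mulVec (v n)) ∧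
      ∀ n ∈ N, ρ n = 1 := by
  let iC : CommGroup N :=
    { (inferInstance : Group N) with
      mul_comm := fun a b => Subtype.ext (hNc a.1 a.2 b.1 b.2) }
  let iM : Module (ZMod p) (Additive N) := AddCommGroup.zmodModule (n := p) (by
    intro x
    apply Additive.toMul.injective
    apply Subtype.ext
    exact hNp _ (Additive.toMul x).2)
  obtain ⟨m, e, ρ, h1, h2⟩ := L8a_aux (p := p) (V := Additive N)
    (fun g : G => MonoidHom.toAdditive ((MulAut.conjNormal (H := N) g).toMonoidHom))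
    (by
      intro x
      apply Additive.toMul.injective
      apply Subtype.ext
      show (1 : G) * ((Additive.toMul x : N) : G) * (1 : G)⁻¹ = ((Additive.toMul x : N) : G)
      rw [inv_one, mul_one, one_mul])
    (by
      intro g h x
      apply Additive.toMul.injective
      apply Subtype.ext
      show (g * h : G) * ((Additive.toMul x : N) : G) * (g * h : G)⁻¹ =
        g * (h * ((Additive.toMul x : N) : G) * h⁻¹) * g⁻¹
      group)
  refine ⟨m, fun g => if h : g ∈ N then e (Additive.ofMul ⟨g, h⟩) else 0, ρ, ?_, ?_, ?_, ?_, ?_⟩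
  · intro a ha b hb
    simp only
    rw [dif_pos ha, dif_pos hb, dif_pos (N.mul_mem ha hb), ← map_add]
    rfl
  · intro a ha b hb hab
    simp only at hab
    rw [dif_pos ha, dif_pos hb] at hab
    have h3 := e.injective hab
    exact congrArg Subtype.val (Additive.ofMul.injective h3)
  · intro w
    refine ⟨(Additive.toMul (e.symm w) : N), (Additive.toMul (e.symm w) : N).2, ?_⟩
    simp only
    rw [dif_pos (Additive.toMul (e.symm w) : N).2]
    exact e.apply_symm_apply w
  · intro g n hn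
    simp only
    have hc : g * n * g⁻¹ ∈ N := Subgroup.Normal.conj_mem inferInstance n hn g
    rw [dif_pos hn, dif_pos hc]
    exact h1 g (Additive.ofMul ⟨n, hn⟩)
  · intro n hn
    refine h2 n fun x => ?_
    apply Additive.toMul.injective
    apply Subtype.ext
    show n * (Additive.toMul x : N) * n⁻¹ = (Additive.toMul x : N)
    rw [hNc n hn _ (Additive.toMul x : N).2, mul_assoc, mul_inv_cancel, mul_one]

end

end Pool.Agent.MP_1c8e06_ag.AJ
end

section

set_option autoImplicit false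

namespace Pool.Agent.MP_1c8e06_ag.BT

variable {G : Type} [Group G]

namespace BEnv

/-!
# Task B3: a maximal intersection

Consider all triples `(Y, S, K)` with `Full s Y S`, `K` a coatom, `K ≠ Y`, `S ≤ K` (there is one by `hf`: for
`Full s Y S` take the `K` of its definition, `S = col K Y ≤ K`).  The number `Nat.card (K ⊓ Y)` is bounded by
`Nat.card G`; take a triple with maximal value.  Let `L ≠ ⊤`, `K ⊓ Y ≤ L`, `¬ L ≤ Y`; `L ≤ K'` for a coatom `K'`,
`K' ≠ Y`; `S ≤ K ⊓ Y ≤ K'` (`full_le`), so `(Y, S, K')` is a triple and `Nat.card (K' ⊓ Y) ≤ Nat.card (K ⊓ Y)`;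
`K ⊓ Y ≤ L ⊓ Y ≤ K' ⊓ Y`, hence equality everywhere.
-/
theorem exists_W [Finite G] (E : BEnv G) {s : ℕ} (hf : ∃ Z T, E.Full s Z T) :
    ∃ Y S K : Subgroup G, E.Full s Y S ∧ IsCoatom K ∧ K ≠ Y ∧ S ≤ K ∧
      ∀ L : Subgroup G, L ≠ ⊤ → K ⊓ Y ≤ L → ¬ L ≤ Y → L ⊓ Y = K ⊓ Y := by
  classical
  let P : ℕ → Prop := fun n => ∃ Y S K : Subgroup G, E.Full s Y S ∧ IsCoatom K ∧ K ≠ Y ∧ S ≤ K ∧
    Nat.card (K ⊓ Y : Subgroup G) = n
  have hbound : ∀ n, P n → n ≤ Nat.card G := by
    rintro n ⟨Y, S, K, -, -, -, -, rfl⟩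
    exact Subgroup.card_le_card_group _
  have hex : ∃ n, P n := by
    obtain ⟨Y, S, hYS⟩ := hf
    obtain ⟨K, hbad, hS, -⟩ := id hYS
    refine ⟨_, Y, S, K, hYS, hbad.1, hbad.2.1, ?_, rfl⟩
    rw [hS]
    unfold col
    rw [Subgroup.closure_le]
    rintro z ⟨-, hz, -⟩
    exact hz
  obtain ⟨n₀, hn₀⟩ := hex
  have h1 : P (Nat.findGreatest P (Nat.card G)) := Nat.findGreatest_spec (hbound n₀ hn₀) hn₀
  have h2 : ∀ m, P m → m ≤ Nat.findGreatest P (Nat.card G) := fun m hm =>
    Nat.le_findGreatest (hbound m hm) hm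
  obtain ⟨Y, S, K, hYS, hK, hKY, hSK, hcard⟩ := h1
  refine ⟨Y, S, K, hYS, hK, hKY, hSK, ?_⟩
  intro L hL hKL hLY
  obtain ⟨K', hK', hLK'⟩ := (eq_top_or_exists_le_coatom L).resolve_left hL
  have hK'Y : K' ≠ Y := by
    rintro rfl
    exact hLY hLK'
  have hS' : S ≤ K' := (le_inf hSK (E.full_le hYS)).trans (hKL.trans hLK')
  have h3 : Nat.card (K' ⊓ Y : Subgroup G) ≤ Nat.card (K ⊓ Y : Subgroup G) := by
    rw [hcard]
    exact h2 _ ⟨Y, S, K', hYS, hK', hK'Y, hS', rfl⟩
  have h4 : K ⊓ Y ≤ L ⊓ Y := le_inf hKL inf_le_right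
  have h5 : L ⊓ Y ≤ K' ⊓ Y := inf_le_inf_right Y hLK'
  have h6 : K ⊓ Y = K' ⊓ Y := Subgroup.eq_of_le_of_card_ge (h4.trans h5) h3
  exact le_antisymm (h5.trans h6.ge) h4

end BEnv

end Pool.Agent.MP_1c8e06_ag.BT
end
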