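import Pool.Agent.Lib.MP_1c8e06_ag.Mg.G049
import Pool.Agent.Lib.MP_1c8e06_ag.AJ.Defs5
import Pool.Agent.Lib.MP_1c8e06_ag.Mg.G053

section

set_option autoImplicit false

open Polynomial
open scoped Classical

namespace Pool.Agent.MP_1c8e06_ag.AJ

noncomputable section

/-!
# Task L4: the cover of the quotient with values in the bigger completion; vector valued cocycles

* `push_quot`: `J_E : El S' →+* El S` is `Al.lift` over `oE S` with `e l ↦ Al.mapA S zinv (J (e l))`;
  `J_E (zeE S' f) = zeE S f`, `J_E (mapA a) = mapA (J a)`, `J_E (actE S' (q u) a) = actE S u (J_E a)` (check on `oE c` and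
  `e l`, which is `mapA (e l)`).  `D₁ := D'.push` with `φ = id`, `ψ = J_E`, `j = q`, `i' = Q.comp i`.
  `Conn' ⊤`: if `∑ zeE S (f l) * J_E (D'.b l x) = zeE S (C (c x))` then `J_E` of the difference is `0`; `El S'` is a field
  (`hF`) and `El S` is nontrivial, so `J_E` is injective.
* `H1v`: `θ` := image under `Al.mapA S zinv` of the element of `exists_theta S`: `∑_x actE x θ = 1`.
  `ζ r := - ∑_x c x r * actE S x θ`; then
  `∑_t ρ u r t * actE u (ζ t) = - ∑_x (∑_t ρ u r t * actE u (c x t)) * actE (u x) θ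
   = - ∑_x (c (u x) r - c u r) actE (u x) θ = ζ r + c u r`.
-/

private theorem L4_JE {k : Type} [Field k] {P P' : Type} [Group P] [Fintype P] [Group P']
    [Fintype P'] (q : P →* P') (S' : SC k[X] P') (S : SC k[X] P) (J : Al S' →+* Al S)
    (hJ : ∀ f, J (Al.cst S' f) = Al.cst S f)
    (hJa : ∀ u c, J (Al.act S' (q u) c) = Al.act S u (J c)) :
    ∃ JE : El S' →+* El S, (∀ c, JE (oE S' c) = oE S c) ∧
      ∀ u a, JE (actE S' (q u) a) = actE S u (JE a) := by
  have hcst : ∀ f, Al.mapA S (AI.zinv k) (Al.cst S f) = oE S (AI.zinv k f) := fun f =>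
    Al.mapA_cst S (AI.zinv k) f
  have h1 : ∀ a b, Al.mapA S (AI.zinv k) (J (Al.e S' a)) * Al.mapA S (AI.zinv k) (J (Al.e S' b)) =
      ∑ l, oE S ((S'.map (AI.zinv k)).μ a b l) * Al.mapA S (AI.zinv k) (J (Al.e S' l)) := by
    intro a b
    rw [← map_mul, ← map_mul, Al.e_mul_e, map_sum, map_sum]
    refine Finset.sum_congr rfl fun l _ => ?_
    rw [map_mul, map_mul, hJ, hcst]
    rfl
  have h2 : ∑ l, oE S ((S'.map (AI.zinv k)).ν l) * Al.mapA S (AI.zinv k) (J (Al.e S' l)) = 1 := by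
    have h3 := congrArg (fun a => Al.mapA S (AI.zinv k) (J a)) (Al.one_eq_sum S')
    simp only [map_one, map_sum, map_mul, hJ, hcst] at h3
    exact h3.symm
  let JE : El S' →+* El S := Al.lift (S'.map (AI.zinv k)) (oE S)
    (fun l => Al.mapA S (AI.zinv k) (J (Al.e S' l))) h1 h2
  have hJEo : ∀ c, JE (oE S' c) = oE S c := fun c => Al.lift_cst _ _ _ h1 h2 c
  have hJEe : ∀ l, JE (Al.e (S'.map (AI.zinv k)) l) = Al.mapA S (AI.zinv k) (J (Al.e S' l)) :=
    fun l => Al.lift_e _ _ _ h1 h2 l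
  have hJEm : ∀ a, JE (Al.mapA S' (AI.zinv k) a) = Al.mapA S (AI.zinv k) (J a) := by
    have h3 : JE.comp (Al.mapA S' (AI.zinv k)) = (Al.mapA S (AI.zinv k)).comp J := by
      refine Al.hom_ext S' (fun c => ?_) (fun l => ?_)
      · rw [RingHom.comp_apply, RingHom.comp_apply, Al.mapA_cst, hJ, hcst]
        exact hJEo _
      · rw [RingHom.comp_apply, RingHom.comp_apply, Al.mapA_e, hJEe]
    exact fun a => RingHom.congr_fun h3 a
  refine ⟨JE, hJEo, fun u a => ?_⟩
  have h4 : JE.comp (actE S' (q u)) = (actE S u).comp JE := by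
    refine Al.hom_ext (S'.map (AI.zinv k)) (fun c => ?_) (fun l => ?_)
    · rw [RingHom.comp_apply, RingHom.comp_apply]
      have h5 : actE S' (q u) (Al.cst (S'.map (AI.zinv k)) c) = oE S' c := Al.act_cst _ _ _
      have h6 : JE (Al.cst (S'.map (AI.zinv k)) c) = oE S c := hJEo c
      rw [h5, h6, hJEo]
      exact (Al.act_cst _ _ _).symm
    · rw [RingHom.comp_apply, RingHom.comp_apply]
      have h5 : actE S' (q u) (Al.e (S'.map (AI.zinv k)) l) =
          Al.mapA S' (AI.zinv k) (Al.act S' (q u) (Al.e S' l)) := by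
        rw [Al.mapA_act, Al.mapA_e]
        rfl
      rw [h5, hJEm, hJa, Al.mapA_act, hJEe]
      rfl
  exact RingHom.congr_fun h4 a

theorem push_quot {k : Type} [Field k] {P P' G G' : Type} [Group P] [Fintype P] [Group P']
    [Fintype P'] [Group G] [Fintype G] [Group G'] [Fintype G'] (i : P →* G) (Q : G →* G')
    (q : P →* P') (i' : P' →* G') (hc : ∀ u, i' (q u) = Q (i u)) (S' : SC k[X] P')
    (hF : IsField (El S')) (S : SC k[X] P) (J : Al S' →+* Al S)
    (hJ : ∀ f, J (Al.cst S' f) = Al.cst S f)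
    (hJa : ∀ u c, J (Al.act S' (q u) c) = Al.act S u (J c)) (D' : GD i' (zeE S') (actE S'))
    (hD' : D'.Conn' ⊤) : ∃ D₁ : GD (Q.comp i) (zeE S) (actE S), D₁.Conn' ⊤ := by
  obtain ⟨JE, hJo, hJE⟩ := L4_JE q S' S J hJ hJa
  have hnt : Nontrivial (El S) := (oE_injective S).nontrivial
  have hinj : ∀ a, JE a = 0 → a = 0 := by
    intro a ha
    by_contra hne
    obtain ⟨b, hb⟩ := hF.mul_inv_cancel hne
    have h1 := congrArg JE hb
    rw [map_mul, ha, zero_mul, map_one] at h1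
    exact zero_ne_one h1
  have hze : ∀ f, JE (zeE S' f) = zeE S (RingHom.id k[X] f) := fun f => hJo _
  refine ⟨D'.push (RingHom.id k[X]) JE q (Q.comp i) (fun u => (hc u).symm) (zeE S) (actE S) hze
    hJE, ?_⟩
  intro h hh f c hf
  refine hD' h hh f c fun x => ?_
  have h1 : ∑ l, zeE S (f l) * JE (D'.b l x) = zeE S (C (c x)) := hf x
  have h2 : JE (∑ l, zeE S' (f l) * D'.b l x - zeE S' (C (c x))) = 0 := by
    rw [map_sub, map_sum, hze]
    simp only [map_mul, hze]
    exact sub_eq_zero.2 h1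
  exact sub_eq_zero.1 (hinj _ h2)

private theorem L4_H1 {p : ℕ} {A : Type} [CommRing A] {P : Type} [Group P]
    [Fintype P] (m : ℕ) (ρ : P →* Matrix (Fin m) (Fin m) (ZMod p))
    (act : P → (A →+* A)) (hact : ∀ x y a, act (x * y) a = act x (act y a)) (θ : A)
    (hθ : ∑ x, act x θ = 1)
    (c : P → Fin m → A)
    (hc : ∀ u x r, c (u * x) r = c u r + ∑ t, zc A (ρ u r t) * act u (c x t)) :
    ∃ ζ : Fin m → A, ∀ u r, ∑ t, zc A (ρ u r t) * act u (ζ t) = ζ r + c u r := by
  refine ⟨fun r => -∑ x : P, c x r * act x θ, fun g r => ?_⟩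
  have e1 : ∀ t, zc A (ρ g r t) * act g (-∑ h : P, c h t * act h θ) =
      -∑ h : P, (zc A (ρ g r t) * act g (c h t)) * act (g * h) θ := by
    intro t
    rw [map_neg (act g), map_sum (act g), mul_neg, Finset.mul_sum]
    refine congrArg Neg.neg (Finset.sum_congr rfl fun h _ => ?_)
    rw [map_mul (act g), hact, mul_assoc]
  have e2 : ∀ h : P, ∑ t, zc A (ρ g r t) * act g (c h t) = c (g * h) r - c g r := by
    intro h
    rw [hc g h r]
    ring
  have e3 : ∑ h : P, act (g * h) θ = 1 := by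
    rw [← hθ]
    exact Fintype.sum_equiv (Equiv.mulLeft g) _ _ fun h => rfl
  calc ∑ t, zc A (ρ g r t) * act g (-∑ h : P, c h t * act h θ)
      = ∑ t, -∑ h : P, (zc A (ρ g r t) * act g (c h t)) * act (g * h) θ :=
        Finset.sum_congr rfl fun t _ => e1 t
    _ = -∑ h : P, (∑ t, zc A (ρ g r t) * act g (c h t)) * act (g * h) θ := by
        rw [Finset.sum_neg_distrib, Finset.sum_comm]
        refine congrArg Neg.neg (Finset.sum_congr rfl fun h _ => ?_)
        rw [Finset.sum_mul]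
    _ = -∑ h : P, (c (g * h) r - c g r) * act (g * h) θ := by
        refine congrArg Neg.neg (Finset.sum_congr rfl fun h _ => ?_)
        rw [e2]
    _ = -∑ h : P, c (g * h) r * act (g * h) θ + c g r * ∑ h : P, act (g * h) θ := by
        rw [Finset.mul_sum, neg_add_eq_sub, ← Finset.sum_sub_distrib, ← Finset.sum_neg_distrib]
        refine Finset.sum_congr rfl fun h _ => ?_
        ring
    _ = _ := by
        rw [e3, mul_one]
        refine congrArg (fun x => -x + c g r) ?_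
        exact Fintype.sum_equiv (Equiv.mulLeft g) _ _ fun h => rfl

theorem H1v {p : ℕ} [hp : Fact p.Prime] {k : Type} [Field k] [CharP k p] {P : Type} [Group P]
    [Fintype P] (S : SC k[X] P) (m : ℕ) (ρ : P →* Matrix (Fin m) (Fin m) (ZMod p))
    (c : P → Fin m → El S)
    (hc : ∀ u x r, c (u * x) r = c u r + ∑ t, zc (El S) (ρ u r t) * actE S u (c x t)) :
    ∃ ζ : Fin m → El S, ∀ u r, ∑ t, zc (El S) (ρ u r t) * actE S u (ζ t) = ζ r + c u r := by
  obtain ⟨θ, hθ⟩ := exists_theta (S.map (AI.zinv k))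
  exact L4_H1 m ρ (fun u => actE S u)
    (fun x y a => Al.act_mul_apply (S.map (AI.zinv k)) x y a) θ hθ c hc

end

end Pool.Agent.MP_1c8e06_ag.AJ
end

section

set_option autoImplicit false

open Polynomial
open scoped Classical

namespace Pool.Agent.MP_1c8e06_ag.AJ

noncomputable section

/-!
# Task L5c: the local invariants modulo the global ones are finite dimensional

Notation.  `E = El S`; `ev x := D₁.ev S₁ hS₁ x : Al S₁ →+* E` (`x : G'`), API in `AJ/Defs5.lean`: `ev_act`, `ev_P`.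
`Minv w`: `∀ u r, ∑_t zc (ρ (i u) r t) * actE u (w t) = w r`.
`Ginv f` (`f : Fin m → Al S₁`): `∀ g r, ∑_t zc (ρ g r t) * act (Q g) (f t) = f r`.
Proof.  `σ : G' → G` a section of `Q`, `θ : Al S₁` with trace one (`exists_theta`).  `ρ` is trivial on `ker Q`.
For `φ : Fin m → G' → E` (functions with `φ t (Q (i u) * x) = actE u (φ t x)`) put
`R(φ) r := ∑_{h : G'} ∑_t zc (ρ (σ h) r t) * ev h θ * φ t h`.
(1) `R(φ)` satisfies `Minv`: apply `actE u`: `actE u (ev h θ * φ t h) = ev (Q (i u) h) θ * φ t (Q (i u) h)`; reindex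
    `h ↦ Q (i u) h`; `ρ (i u) ρ (σ h) = ρ (i u * σ h) = ρ (σ (Q (i u) h))`.
(2) If `w` satisfies `Minv`, `w~ t x := ∑_r zc (ρ ((σ x)⁻¹) t r) * w r` satisfies the equivariance
    (`ρ (σ (Q (i u) x))⁻¹ = ρ (σ x)⁻¹ ρ (i u)⁻¹`, and `ρ (i u)⁻¹ w = actE u w`), and `R(w~) = w`
    (`∑_t ρ (σ h) r t * w~ t h = w r`, `∑_h ev h θ = ev 1 (∑ act h θ) = 1`).
(3) `GD.exists_coord` for `D₁` over the base `k((s))` (`D₁.push`-like: `D₁` with `ze := oE S`; `fixedE`, `actE_oE`):
    `w~ t x = ∑_l oE (γ t l) * D₁.b l x`, `γ t l : k((s))`.  Write `γ t l = zinv (g t l) + δ t l` with `δ t l` of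
    order `≥ 1` (`g t l := ∑_{n ≥ 0} C (γ.coeff (-n)) X^n`).
(4) `R` of the `g`-part is `ev 1 (f r)` with `f r := ∑_h ∑_t zc (ρ (σ h) r t) * act h (θ * g t)` (`g t` as an element
    of `Al S₁`), and `Ginv f` (reindexing as in (1)).
(5) `R` of the `δ`-part: split `δ t l = ∑_{1 ≤ j < J} (δ t l).coeff j s^j + δ' t l`, `δ'` of order `≥ J`.  The `δ'`-part
    is in `Fl L₀` if `J` is large (`Fl.oE_mul`, `Fl.mul`, `Fl.exists` for the `D₁.b l h` and `ev h θ`,
    `Fl.exists_bound`), and it satisfies `Minv` by (1).  The remaining part is a `k`-linear combination of the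
    finitely many vectors `R(φ_{t,l,j})`, `φ_{t,l,j} t' x := if t' = t then oE (s^j) * D₁.b l x else 0`, `1 ≤ j < J`.
    These are `T` (indices `Fin m × G' × Fin J`; `J` depends only on `L₀` and `D₁`).
-/

section
variable {p : ℕ} [hp : Fact p.Prime] {A A' : Type} [CommRing A] [CommRing A'] {m : ℕ}

/-- `zc` as a ring homomorphism. -/
private def L5c_zcH (A : Type) [CommRing A] (h0 : (p : A) = 0) : ZMod p →+* A where
  toFun := zc A
  map_one' := zc_one
  map_mul' := zc_mul h0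
  map_zero' := zc_zero
  map_add' := zc_add h0

/-- The product of a matrix over `ZMod p` with a vector. -/
private def L5c_mv (M : Matrix (Fin m) (Fin m) (ZMod p)) (w : Fin m → A) (r : Fin m) : A :=
  ∑ t, zc A (M r t) * w t

private theorem L5c_mv_mul (h0 : (p : A) = 0) (M N : Matrix (Fin m) (Fin m) (ZMod p))
    (w : Fin m → A) : L5c_mv (M * N) w = L5c_mv M (L5c_mv N w) := by
  funext r
  unfold L5c_mv
  have h1 : ∀ t, zc A ((M * N) r t) = ∑ s, zc A (M r s) * zc A (N s t) := by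
    intro t
    have h2 := map_sum (L5c_zcH A h0) (fun s => M r s * N s t) Finset.univ
    rw [Matrix.mul_apply]
    refine h2.trans (Finset.sum_congr rfl fun s _ => ?_)
    exact zc_mul h0 _ _
  calc ∑ t, zc A ((M * N) r t) * w t = ∑ t, ∑ s, zc A (M r s) * (zc A (N s t) * w t) := by
        refine Finset.sum_congr rfl fun t _ => ?_
        rw [h1, Finset.sum_mul]
        refine Finset.sum_congr rfl fun s _ => ?_
        rw [mul_assoc]
    _ = ∑ s, ∑ t, zc A (M r s) * (zc A (N s t) * w t) := Finset.sum_comm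
    _ = _ := by
        refine Finset.sum_congr rfl fun s _ => ?_
        rw [Finset.mul_sum]

private theorem L5c_mv_one (w : Fin m → A) :
    L5c_mv (1 : Matrix (Fin m) (Fin m) (ZMod p)) w = w := by
  funext r
  unfold L5c_mv
  rw [Finset.sum_eq_single r]
  · rw [Matrix.one_apply_eq, zc_one, one_mul]
  · intro t _ ht
    rw [Matrix.one_apply_ne (Ne.symm ht), zc_zero, zero_mul]
  · intro h
    exact absurd (Finset.mem_univ r) h

omit hp in
private theorem L5c_mv_smul (M : Matrix (Fin m) (Fin m) (ZMod p)) (c : A) (w : Fin m → A)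
    (r : Fin m) : L5c_mv M (fun t => c * w t) r = c * L5c_mv M w r := by
  unfold L5c_mv
  rw [Finset.mul_sum]
  refine Finset.sum_congr rfl fun t _ => ?_
  ring

omit hp in
private theorem L5c_mv_add (M : Matrix (Fin m) (Fin m) (ZMod p)) (w w' : Fin m → A)
    (r : Fin m) : L5c_mv M (fun t => w t + w' t) r = L5c_mv M w r + L5c_mv M w' r := by
  unfold L5c_mv
  rw [← Finset.sum_add_distrib]
  refine Finset.sum_congr rfl fun t _ => ?_
  ring

omit hp in
private theorem L5c_mv_sum {ι : Type} (s : Finset ι) (M : Matrix (Fin m) (Fin m) (ZMod p))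
    (f : ι → Fin m → A) (r : Fin m) :
    L5c_mv M (fun t => ∑ h ∈ s, f h t) r = ∑ h ∈ s, L5c_mv M (f h) r := by
  unfold L5c_mv
  rw [Finset.sum_comm]
  refine Finset.sum_congr rfl fun t _ => ?_
  rw [Finset.mul_sum]

omit hp in
private theorem L5c_mv_map (f : A →+* A') (M : Matrix (Fin m) (Fin m) (ZMod p)) (w : Fin m → A)
    (r : Fin m) : f (L5c_mv M w r) = L5c_mv M (fun t => f (w t)) r := by
  unfold L5c_mv
  rw [map_sum]
  refine Finset.sum_congr rfl fun t _ => ?_
  rw [map_mul, map_zc]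

variable {H : Type} [Group H] [Fintype H]

/-- Averaging. -/
private def L5c_R (ρ' : H →* Matrix (Fin m) (Fin m) (ZMod p)) (Θ : H → A) (φ : Fin m → H → A)
    (r : Fin m) : A := ∑ h, Θ h * L5c_mv (ρ' h) (fun t => φ t h) r

private theorem L5c_R_inv (h0 : (p : A) = 0) (ρ' : H →* Matrix (Fin m) (Fin m) (ZMod p))
    (Θ : H → A) (φ : Fin m → H → A) (α : A →+* A) (x₀ : H) (hΘ : ∀ h, Θ (x₀ * h) = α (Θ h))
    (hφ : ∀ t h, φ t (x₀ * h) = α (φ t h)) (r : Fin m) :
    L5c_mv (ρ' x₀) (fun t => α (L5c_R ρ' Θ φ t)) r = L5c_R ρ' Θ φ r := by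
  have h1 : (fun t => α (L5c_R ρ' Θ φ t)) =
      fun t => ∑ h, Θ (x₀ * h) * L5c_mv (ρ' h) (fun s => φ s (x₀ * h)) t := by
    funext t
    unfold L5c_R
    rw [map_sum]
    refine Finset.sum_congr rfl fun h _ => ?_
    rw [map_mul, L5c_mv_map, hΘ]
    simp only [hφ]
  rw [h1, L5c_mv_sum]
  calc ∑ h, L5c_mv (ρ' x₀) (fun t => Θ (x₀ * h) * L5c_mv (ρ' h) (fun s => φ s (x₀ * h)) t) r
      = ∑ h, Θ (x₀ * h) * L5c_mv (ρ' (x₀ * h)) (fun s => φ s (x₀ * h)) r := by
        refine Finset.sum_congr rfl fun h _ => ?_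
        rw [L5c_mv_smul, map_mul, L5c_mv_mul h0]
    _ = _ := Equiv.sum_comp (Equiv.mulLeft x₀) (fun h => Θ h * L5c_mv (ρ' h) (fun s => φ s h) r)

private theorem L5c_R_add (ρ' : H →* Matrix (Fin m) (Fin m) (ZMod p))
    (Θ : H → A) (φ φ' : Fin m → H → A) (r : Fin m) :
    L5c_R ρ' Θ (fun t x => φ t x + φ' t x) r = L5c_R ρ' Θ φ r + L5c_R ρ' Θ φ' r := by
  unfold L5c_R
  rw [← Finset.sum_add_distrib]
  refine Finset.sum_congr rfl fun h _ => ?_
  rw [L5c_mv_add, mul_add]

private theorem L5c_R_sum {ι : Type} (s : Finset ι) (ρ' : H →* Matrix (Fin m) (Fin m) (ZMod p))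
    (Θ : H → A) (c : ι → A) (φ : ι → Fin m → H → A) (r : Fin m) :
    L5c_R ρ' Θ (fun t x => ∑ a ∈ s, c a * φ a t x) r = ∑ a ∈ s, c a * L5c_R ρ' Θ (φ a) r := by
  unfold L5c_R
  simp only [L5c_mv_sum, Finset.mul_sum, L5c_mv_smul]
  rw [Finset.sum_comm]
  refine Finset.sum_congr rfl fun a _ => Finset.sum_congr rfl fun h _ => ?_
  ring

end

private theorem L5c_split {k : Type} [Field k] (a : LaurentSeries k) (J : ℕ) :
    ∃ (g : k[X]) (c : Fin J → k) (a' : LaurentSeries k), (∀ n < (J : ℤ), a'.coeff n = 0) ∧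
      a = AI.zinv k g + ∑ j, HahnSeries.C (c j) * HahnSeries.single ((j : ℕ) + 1 : ℤ) (1 : k) +
        a' := by
  let g : k[X] := ∑ n ∈ Finset.range ((-a.order).toNat + 1), monomial n (a.coeff (-(n : ℤ)))
  have hg : ∀ n : ℕ, g.coeff n = a.coeff (-(n : ℤ)) := by
    intro n
    change (∑ n ∈ Finset.range ((-a.order).toNat + 1), monomial n (a.coeff (-(n : ℤ)))).coeff n = _
    rw [Polynomial.finsetSum_coeff]
    simp only [Polynomial.coeff_monomial]
    rw [Finset.sum_ite_eq' (Finset.range ((-a.order).toNat + 1)) n]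
    split_ifs with h
    · rfl
    · rw [Finset.mem_range, not_lt] at h
      exact (HahnSeries.coeff_eq_zero_of_lt_order (by omega)).symm
  refine ⟨g, fun j => a.coeff ((j : ℕ) + 1 : ℤ), a - (AI.zinv k g +
    ∑ j : Fin J, HahnSeries.C (a.coeff ((j : ℕ) + 1 : ℤ)) *
      HahnSeries.single ((j : ℕ) + 1 : ℤ) (1 : k)), ?_, by ring⟩
  intro n hn
  have h1 : ∀ j : Fin J, (HahnSeries.C (a.coeff ((j : ℕ) + 1 : ℤ)) *
      HahnSeries.single ((j : ℕ) + 1 : ℤ) (1 : k) : LaurentSeries k).coeff n =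
      if n = ((j : ℕ) + 1 : ℤ) then a.coeff n else 0 := by
    intro j
    rw [HahnSeries.C_apply, HahnSeries.single_mul_single, zero_add, mul_one,
      HahnSeries.coeff_single]
    split_ifs with h
    · rw [h]
    · rfl
  rw [HahnSeries.coeff_sub, HahnSeries.coeff_add, HahnSeries.coeff_sum, AI.zinv_coeff]
  rw [Finset.sum_congr rfl fun j _ => h1 j]
  by_cases hn0 : n ≤ 0
  · rw [if_pos hn0, hg, Finset.sum_eq_zero]
    · have h2 : -((-n).toNat : ℤ) = n := by omega
      rw [h2, add_zero, sub_self]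
    · intro j _
      rw [if_neg (by omega)]
  · rw [if_neg hn0]
    obtain ⟨j, hj⟩ : ∃ j : Fin J, n = ((j : ℕ) + 1 : ℤ) :=
      ⟨⟨(n - 1).toNat, by omega⟩, by simp only []; omega⟩
    rw [Finset.sum_eq_single j]
    · rw [if_pos hj, zero_add, sub_self]
    · intro j' _ hj'
      rw [if_neg]
      intro hc
      apply hj'
      apply Fin.ext
      omega
    · intro h
      exact absurd (Finset.mem_univ j) h

private theorem L5c_bound {ι : Type} [Finite ι] (f : ι → ℤ) : ∃ M, ∀ i, M ≤ f i := by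
  obtain ⟨M, hM⟩ := Set.Finite.bddBelow (Set.finite_range f)
  exact ⟨M, fun i => hM (Set.mem_range_self i)⟩

theorem finite_mod {p : ℕ} [hp : Fact p.Prime] {k : Type} [Field k] [CharP k p] {P G G' : Type}
    [Group P] [Fintype P] [Group G] [Fintype G] [Group G'] [Fintype G'] (i : P →* G) (Q : G →* G')
    (hQ : Function.Surjective Q) (S : SC k[X] P) (D₁ : GD (Q.comp i) (zeE S) (actE S))
    (S₁ : SC k[X] G') (hS₁ : S₁.ks = D₁.k) (m : ℕ)
    (ρ : G →* Matrix (Fin m) (Fin m) (ZMod p)) (hρ : ∀ n, Q n = 1 → ρ n = 1) (L₀ : ℤ) :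
    ∃ (ι : Type) (_ : Fintype ι) (τ : ι → Fin m → El S),
      (∀ a u r, ∑ t, zc (El S) (ρ (i u) r t) * actE S u (τ a t) = τ a r) ∧
      ∀ w : Fin m → El S, (∀ u r, ∑ t, zc (El S) (ρ (i u) r t) * actE S u (w t) = w r) →
        ∃ (f : Fin m → Al S₁) (lam : Fin m → El S) (x : ι → k),
          (∀ g r, ∑ t, zc (Al S₁) (ρ g r t) * Al.act S₁ (Q g) (f t) = f r) ∧
          (∀ r, Fl S L₀ (lam r)) ∧
          (∀ u r, ∑ t, zc (El S) (ρ (i u) r t) * actE S u (lam t) = lam r) ∧
          ∀ r, w r = D₁.ev S₁ hS₁ 1 (f r) + lam r + ∑ a, oE S (HahnSeries.C (x a)) * τ a r := by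
  classical
  -- characteristic p
  have h0L : (p : LaurentSeries k) = 0 := by
    rw [← map_natCast (HahnSeries.C : k →+* LaurentSeries k) p, CharP.cast_eq_zero, map_zero]
  have h0E : (p : El S) = 0 := by
    rw [← map_natCast (oE S) p, h0L, map_zero]
  have h0A : (p : Al S₁) = 0 := charP_Al S₁
  -- the representation of the quotient
  have hkey : ∀ a b : G, Q a = Q b → ρ a = ρ b := by
    intro a b hab
    have h1 : ρ (b⁻¹ * a) = 1 := hρ _ (by rw [map_mul, map_inv, hab, inv_mul_cancel])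
    have h2 : a = b * (b⁻¹ * a) := by group
    rw [h2, map_mul, h1, mul_one]
  let ρ' : G' →* Matrix (Fin m) (Fin m) (ZMod p) :=
    { toFun := fun x => ρ (Function.surjInv hQ x)
      map_one' := hρ _ (Function.surjInv_eq hQ 1)
      map_mul' := fun x y => by
        rw [← map_mul]
        refine hkey _ _ ?_
        rw [map_mul, Function.surjInv_eq hQ, Function.surjInv_eq hQ, Function.surjInv_eq hQ] }
  have hρ' : ∀ g, ρ g = ρ' (Q g) := fun g => hkey _ _ (Function.surjInv_eq hQ (Q g)).symm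
  obtain ⟨θ₁, hθ₁⟩ := exists_theta S₁
  -- the function theta
  set ev := D₁.ev S₁ hS₁ with hev
  have hevP : ∀ (u : P) (x : G') (a : Al S₁), ev (Q (i u) * x) a = actE S u (ev x a) :=
    fun u x a => D₁.ev_P (fun u b => actE_zeE S u b) S₁ hS₁ u x a
  have hevA : ∀ (x : G') (a : Al S₁), ev x a = ev 1 (Al.act S₁ x a) := by
    intro x a
    rw [hev, D₁.ev_act, one_mul]
  have hΘ1 : ∑ h, ev h θ₁ = 1 := by
    rw [Finset.sum_congr rfl fun h _ => hevA h θ₁, ← map_sum, hθ₁, map_one]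
  have hbP : ∀ (u : P) (l x : G'), D₁.b l (Q (i u) * x) = actE S u (D₁.b l x) :=
    fun u l x => D₁.hP u l x
  -- invariance
  have hInv : ∀ φ : Fin m → G' → El S, (∀ t u x, φ t (Q (i u) * x) = actE S u (φ t x)) →
      ∀ u r, ∑ t, zc (El S) (ρ (i u) r t) * actE S u (L5c_R ρ' (fun h => ev h θ₁) φ t) =
        L5c_R ρ' (fun h => ev h θ₁) φ r := by
    intro φ hφ u r
    have h1 := L5c_R_inv h0E ρ' (fun h => ev h θ₁) φ (actE S u) (Q (i u))
      (fun h => hevP u h θ₁) (fun t x => hφ t u x) r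
    rw [← hρ' (i u)] at h1
    exact h1
  -- the bound
  obtain ⟨N, hN⟩ : ∃ N : ℤ, ∀ (h : G') (r t : Fin m) (l : G'),
      Fl S N (ev h θ₁ * zc (El S) (ρ' h r t) * D₁.b l h) := by
    have h1 : ∀ z : G' × Fin m × Fin m × G', ∃ N : ℤ,
        Fl S N (ev z.1 θ₁ * zc (El S) (ρ' z.1 z.2.1 z.2.2.1) * D₁.b z.2.2.2 z.1) :=
      fun z => Fl.exists _
    choose f hf using h1
    obtain ⟨M, hM⟩ := L5c_bound f
    exact ⟨M, fun h r t l => Fl.mono (hf (h, r, t, l)) (hM (h, r, t, l))⟩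
  let J : ℕ := (L₀ - N).toNat
  let sj : Fin J → LaurentSeries k := fun j => HahnSeries.single ((j : ℕ) + 1 : ℤ) (1 : k)
  let φb : Fin m × G' × Fin J → Fin m → G' → El S := fun a t' x =>
    if t' = a.1 then oE S (sj a.2.2) * D₁.b a.2.1 x else 0
  have hφb : ∀ a t u x, φb a t (Q (i u) * x) = actE S u (φb a t x) := by
    intro a t u x
    change (if t = a.1 then oE S (sj a.2.2) * D₁.b a.2.1 (Q (i u) * x) else 0) =
      actE S u (if t = a.1 then oE S (sj a.2.2) * D₁.b a.2.1 x else 0)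
    split_ifs
    · rw [map_mul, actE_oE, hbP]
    · rw [map_zero]
  refine ⟨Fin m × G' × Fin J, inferInstance, fun a => L5c_R ρ' (fun h => ev h θ₁) (φb a),
    fun a u r => hInv (φb a) (hφb a) u r, fun w hw => ?_⟩
  -- the function w~
  have hw2 : ∀ u, L5c_mv (ρ' (Q (i u))⁻¹) w = fun t => actE S u (w t) := by
    intro u
    have h1 : L5c_mv (ρ' (Q (i u))) (fun t => actE S u (w t)) = w := by
      funext r
      rw [← hρ' (i u)]
      exact hw u r
    rw [← h1, ← L5c_mv_mul h0E, ← map_mul, inv_mul_cancel, map_one, L5c_mv_one, h1]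
  let wt : Fin m → G' → El S := fun t x => L5c_mv (ρ' x⁻¹) w t
  have hwt : ∀ t u x, wt t (Q (i u) * x) = actE S u (wt t x) := by
    intro t u x
    change L5c_mv (ρ' (Q (i u) * x)⁻¹) w t = actE S u (L5c_mv (ρ' x⁻¹) w t)
    rw [mul_inv_rev, map_mul, L5c_mv_mul h0E, hw2, L5c_mv_map]
  have hRw : ∀ r, L5c_R ρ' (fun h => ev h θ₁) wt r = w r := by
    intro r
    unfold L5c_R
    have h1 : ∀ h, L5c_mv (ρ' h) (fun t => wt t h) r = w r := by
      intro h
      change L5c_mv (ρ' h) (L5c_mv (ρ' h⁻¹) w) r = w r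
      rw [← L5c_mv_mul h0E, ← map_mul, mul_inv_cancel, map_one, L5c_mv_one]
    rw [Finset.sum_congr rfl fun h _ => by rw [h1 h], ← Finset.sum_mul, hΘ1, one_mul]
  -- coordinates
  let D₂ : GD (Q.comp i) (oE S) (actE S) :=
    D₁.push (AI.zinv k) (RingHom.id (El S)) (MonoidHom.id P) (Q.comp i) (fun _ => rfl) (oE S)
      (actE S) (fun _ => rfl) (fun _ _ => rfl)
  have hcoord : ∀ t, ∃ c : G' → LaurentSeries k, ∀ x, wt t x = ∑ l, oE S (c l) * D₁.b l x := by
    intro t
    exact D₂.exists_coord (fun u b => actE_oE S u b) (fun a ha => fixedE S a ha) (wt t)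
      (fun u x => hwt t u x)
  choose γ hγ using hcoord
  have hsp : ∀ t l, ∃ (g : k[X]) (c : Fin J → k) (a' : LaurentSeries k),
      (∀ n < (J : ℤ), a'.coeff n = 0) ∧
      γ t l = AI.zinv k g + ∑ j, HahnSeries.C (c j) * HahnSeries.single ((j : ℕ) + 1 : ℤ) (1 : k) +
        a' := fun t l => L5c_split (γ t l) J
  choose g c a' ha' hγs using hsp
  let Gt : Fin m → Al S₁ := fun t => (g t : Al S₁)
  let φ₂ : Fin m → G' → El S := fun t x => ∑ l, oE S (a' t l) * D₁.b l x
  have hφ₂ : ∀ t u x, φ₂ t (Q (i u) * x) = actE S u (φ₂ t x) := by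
    intro t u x
    change ∑ l, oE S (a' t l) * D₁.b l (Q (i u) * x) = actE S u (∑ l, oE S (a' t l) * D₁.b l x)
    rw [map_sum]
    refine Finset.sum_congr rfl fun l _ => ?_
    rw [map_mul, actE_oE, hbP]
  have hdec : wt = fun t x => (ev x (Gt t) + φ₂ t x) +
      ∑ a, oE S (HahnSeries.C (c a.1 a.2.1 a.2.2)) * φb a t x := by
    funext t x
    have h1 : ∑ a : Fin m × G' × Fin J, oE S (HahnSeries.C (c a.1 a.2.1 a.2.2)) * φb a t x =
        ∑ l, ∑ j, oE S (HahnSeries.C (c t l j)) * (oE S (sj j) * D₁.b l x) := by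
      rw [Fintype.sum_prod_type, Finset.sum_eq_single t]
      · rw [Fintype.sum_prod_type]
        refine Finset.sum_congr rfl fun l _ => Finset.sum_congr rfl fun j _ => ?_
        change oE S (HahnSeries.C (c t l j)) * (if t = t then oE S (sj j) * D₁.b l x else 0) = _
        rw [if_pos rfl]
      · intro t' _ ht'
        refine Finset.sum_eq_zero fun a _ => ?_
        change oE S (HahnSeries.C (c t' a.1 a.2)) *
          (if t = t' then oE S (sj a.2) * D₁.b a.1 x else 0) = _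
        rw [if_neg (Ne.symm ht'), mul_zero]
      · intro h
        exact absurd (Finset.mem_univ t) h
    have h2 : ev x (Gt t) = ∑ l, oE S (AI.zinv k (g t l)) * D₁.b l x := by
      rw [hev, D₁.ev_apply]
      rfl
    rw [h1, h2]
    change wt t x = (_ + ∑ l, oE S (a' t l) * D₁.b l x) + _
    rw [hγ t x, ← Finset.sum_add_distrib, ← Finset.sum_add_distrib]
    refine Finset.sum_congr rfl fun l _ => ?_
    rw [hγs t l, map_add, map_add, map_sum, add_mul, add_mul, Finset.sum_mul]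
    have h3 : ∑ j, oE S (HahnSeries.C (c t l j) *
        HahnSeries.single ((j : ℕ) + 1 : ℤ) (1 : k)) * D₁.b l x =
        ∑ j, oE S (HahnSeries.C (c t l j)) * (oE S (sj j) * D₁.b l x) := by
      refine Finset.sum_congr rfl fun j _ => ?_
      rw [map_mul, mul_assoc]
    rw [h3]
    ring
  have hRdec : ∀ r, w r = L5c_R ρ' (fun h => ev h θ₁) (fun t x => ev x (Gt t)) r +
      L5c_R ρ' (fun h => ev h θ₁) φ₂ r + ∑ a : Fin m × G' × Fin J,
        oE S (HahnSeries.C (c a.1 a.2.1 a.2.2)) * L5c_R ρ' (fun h => ev h θ₁) (φb a) r := by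
    intro r
    rw [← hRw r, hdec, L5c_R_add, L5c_R_add, L5c_R_sum]
  refine ⟨L5c_R ρ' (fun h => Al.act S₁ h θ₁) (fun t x => Al.act S₁ x (Gt t)),
    L5c_R ρ' (fun h => ev h θ₁) φ₂, fun a => c a.1 a.2.1 a.2.2, ?_, ?_, ?_, ?_⟩
  · intro g₀ r
    have h1 := L5c_R_inv h0A ρ' (fun h => Al.act S₁ h θ₁) (fun t x => Al.act S₁ x (Gt t))
      (Al.act S₁ (Q g₀)) (Q g₀) (fun h => Al.act_mul_apply S₁ _ _ _)
      (fun t x => Al.act_mul_apply S₁ _ _ _) r
    rw [← hρ' g₀] at h1
    exact h1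
  · intro r
    have h1 : L5c_R ρ' (fun h => ev h θ₁) φ₂ r = ∑ h, ∑ t, ∑ l, oE S (a' t l) *
        (ev h θ₁ * zc (El S) (ρ' h r t) * D₁.b l h) := by
      unfold L5c_R
      refine Finset.sum_congr rfl fun h _ => ?_
      unfold L5c_mv
      rw [Finset.mul_sum]
      refine Finset.sum_congr rfl fun t _ => ?_
      change _ * (_ * ∑ l, oE S (a' t l) * D₁.b l h) = _
      rw [Finset.mul_sum, Finset.mul_sum]
      refine Finset.sum_congr rfl fun l _ => ?_
      ring
    rw [h1]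
    refine Fl.sum _ fun h _ => Fl.sum _ fun t _ => Fl.sum _ fun l _ => ?_
    refine Fl.mono (Fl.oE_mul (ha' t l) (hN h r t l)) ?_
    change L₀ ≤ ((L₀ - N).toNat : ℤ) + N
    omega
  · exact hInv φ₂ hφ₂
  · intro r
    rw [hRdec r]
    congr 2
    unfold L5c_R
    rw [map_sum]
    refine Finset.sum_congr rfl fun h _ => ?_
    rw [map_mul, L5c_mv_map, ← hevA]
    congr 2
    funext t
    exact hevA h (Gt t)

end

end Pool.Agent.MP_1c8e06_ag.AJ
end
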