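import Pool.Agent.Lib.MP_1c8e06_ag.Mg.G049
import Pool.Agent.Lib.MP_1c8e06_ag.AJ.Defs6

section

set_option autoImplicit false

open Polynomial
open scoped Classical

namespace Pool.Agent.MP_1c8e06_ag.AJ

noncomputable section

/-!
# Task R2: locally constant elements detect components

(Adaptation of `AI/E1.lean`, `conn_of_conn'`, proved there; `A` is a field here.)
Proof.  Suppose `∑_l ze (f l) b l 1 = 0`; we want the same at `h ∈ H`.
Let `K₀ ⊆ A` be the subfield of fractions `ze u / ze v`.  Let `S_K` be the `K₀`-span of the functions `B_l : x ↦ b l x` in `G → A`: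
a commutative `K₀`-subalgebra (`hmul`, `hone`), finite dimensional over `K₀`.
For `x : G` let `𝔪_x := {Θ ∈ S_K | Θ x = 0}`: the kernel of the evaluation at `x`, whose image is a
finite dimensional `K₀`-subalgebra of the field `A`, hence a field; so `𝔪_x` is maximal.
There is `ω ∈ S_K` with `ω x = 1` if `𝔪_x = 𝔪_1` and `ω x = 0` otherwise (for every `x` with `𝔪_x ≠ 𝔪_1` there is
`θ_x ∈ S_K` with `θ_x x = 0` and `θ_x 1 = 1`; `θ := ∏ θ_x`; `θ - 1 ∈ 𝔪_1`).
Write `ω = ∑_l w_l B_l`, `w_l ∈ K₀`.  For each `m`, `t_m := ∑_{x : 𝔪_x = 𝔪_1} b m x = ∑_l w_l ze (T l m) ∈ K₀`, and `t_m` is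
integral over `κ[X]` (via `ze`), because every `b m x` is.  `κ[X]` is integrally closed, so `t_m = ze (s_m)`, and
`w_n = ∑_m t_m ze (T' m n) = ze (f' n)`.  Thus `∑_l ze (f' l) b l x = ze (C (c x))` with
`c x = 1` if `𝔪_x = 𝔪_1`, else `0`.  `hD`: `c h = c 1 = 1` for `h ∈ H`, i.e. `𝔪_h = 𝔪_1`.
As `∑_l ze (f l) B_l ∈ 𝔪_1 = 𝔪_h`, done.
-/

/-- a finite spanning family closed under multiplication -/
private def R2_sub {R A : Type} [CommRing R] [CommRing A] [Algebra R A] {ι : Type} (v : ι → A)
    (h1 : (1 : A) ∈ Submodule.span R (Set.range v))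
    (hm : ∀ i j, v i * v j ∈ Submodule.span R (Set.range v)) : Subalgebra R A :=
  Submodule.toSubalgebra (Submodule.span R (Set.range v)) h1 (by
    intro x y hx hy
    have h2 : x * y ∈ Submodule.span R (Set.range v) * Submodule.span R (Set.range v) :=
      Submodule.mul_mem_mul hx hy
    rw [Submodule.span_mul_span] at h2
    refine Submodule.span_le.2 ?_ h2
    rintro _ ⟨_, ⟨i, rfl⟩, _, ⟨j, rfl⟩, rfl⟩
    exact hm i j)

private theorem R2_sub_fg {R A : Type} [CommRing R] [CommRing A] [Algebra R A] {ι : Type} [Finite ι]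
    (v : ι → A) (h1 : (1 : A) ∈ Submodule.span R (Set.range v))
    (hm : ∀ i j, v i * v j ∈ Submodule.span R (Set.range v)) :
    (Subalgebra.toSubmodule (R2_sub v h1 hm)).FG :=
  Submodule.fg_span (Set.finite_range v)

private theorem R2_core {κ K E G : Type} [Field κ] [Field K] [Field E] [Fintype G]
    [Algebra κ[X] K] [IsFractionRing κ[X] K] [Algebra κ[X] E] [Algebra K E]
    [IsScalarTower κ[X] K E] (b : G → G → E) (μ : G → G → G → κ[X]) (ν : G → κ[X])
    (T T' : G → G → κ[X])
    (hmul : ∀ i j x, b i x * b j x = ∑ l, algebraMap κ[X] E (μ i j l) * b l x)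
    (hone : ∀ x, ∑ l, algebraMap κ[X] E (ν l) * b l x = 1)
    (htr : ∀ i j, ∑ x, b i x * b j x = algebraMap κ[X] E (T i j))
    (hTT' : ∀ (i j : G) [Decidable (i = j)], ∑ m, T i m * T' m j = if i = j then 1 else 0)
    (e h : G)
    (hc : ∀ (f : G → κ[X]) (c : G → κ),
      (∀ x, ∑ l, algebraMap κ[X] E (f l) * b l x = algebraMap κ[X] E (C (c x))) → c h = c e)
    (f : G → κ[X]) (hf : ∑ l, algebraMap κ[X] E (f l) * b l e = 0) :
    ∑ l, algebraMap κ[X] E (f l) * b l h = 0 := by
  classical
  -- the functions `B l`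
  let B : G → G → E := fun l x => b l x
  have hsm : ∀ (r : κ[X]) (z : E), algebraMap κ[X] E r * z = algebraMap κ[X] K r • z := by
    intro r z
    rw [Algebra.smul_def, ← IsScalarTower.algebraMap_apply]
  have hBone : (1 : G → E) ∈ Submodule.span K (Set.range B) := by
    rw [Submodule.mem_span_range_iff_exists_fun]
    refine ⟨fun l => algebraMap κ[X] K (ν l), ?_⟩
    funext x
    rw [Finset.sum_apply, Pi.one_apply, ← hone x]
    refine Finset.sum_congr rfl fun l _ => ?_
    rw [Pi.smul_apply, hsm]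
  have hBmul : ∀ i j, B i * B j ∈ Submodule.span K (Set.range B) := by
    intro i j
    rw [Submodule.mem_span_range_iff_exists_fun]
    refine ⟨fun l => algebraMap κ[X] K (μ i j l), ?_⟩
    funext x
    rw [Finset.sum_apply, Pi.mul_apply]
    change _ = b i x * b j x
    rw [hmul]
    refine Finset.sum_congr rfl fun l _ => ?_
    rw [Pi.smul_apply, hsm]
  let S : Subalgebra K (G → E) := R2_sub B hBone hBmul
  have hSfg : (Subalgebra.toSubmodule S).FG := R2_sub_fg B hBone hBmul
  have hSmem : ∀ Θ : G → E, Θ ∈ S ↔ ∃ w : G → K, ∀ x, Θ x = ∑ l, w l • b l x := by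
    intro Θ
    change Θ ∈ Submodule.span K (Set.range B) ↔ _
    rw [Submodule.mem_span_range_iff_exists_fun]
    constructor
    · rintro ⟨w, hw⟩
      refine ⟨w, fun x => ?_⟩
      rw [← hw, Finset.sum_apply]
      rfl
    · rintro ⟨w, hw⟩
      refine ⟨w, ?_⟩
      funext x
      rw [hw x, Finset.sum_apply]
      rfl
  -- inverses
  have hinv : ∀ Θ ∈ S, ∀ x, Θ x ≠ 0 → ∃ Θ' ∈ S, Θ' x * Θ x = 1 := by
    intro Θ hΘ x hx
    have hint : IsIntegral K Θ := IsIntegral.of_mem_of_fg S hSfg Θ hΘ
    let ev : (G → E) →ₐ[K] E := Pi.evalAlgHom K (fun _ => E) x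
    have hint2 : IsIntegral K (ev Θ) := hint.map ev
    have hmem : ev Θ ∈ S.map ev := ⟨Θ, hΘ, rfl⟩
    have h2 := Subalgebra.inv_mem_of_algebraic (S.map ev) (x := ⟨ev Θ, hmem⟩) hint2.isAlgebraic
    obtain ⟨Θ', hΘ', h3⟩ := h2
    refine ⟨Θ', hΘ', ?_⟩
    have h4 : Θ' x = (Θ x)⁻¹ := h3
    rw [h4, inv_mul_cancel₀ hx]
  -- the relation
  let Rl : G → Prop := fun x => ∀ Θ ∈ S, Θ x = 0 → Θ e = 0
  have hRl' : ∀ x, Rl x → ∀ Θ ∈ S, Θ e = 0 → Θ x = 0 := by
    intro x hx Θ hΘ he
    by_contra hne
    obtain ⟨Θ', hΘ', h1⟩ := hinv Θ hΘ x hne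
    have h2 := hx (1 - Θ' * Θ) (S.sub_mem S.one_mem (S.mul_mem hΘ' hΘ)) (by
      rw [Pi.sub_apply, Pi.mul_apply, h1, Pi.one_apply, sub_self])
    rw [Pi.sub_apply, Pi.mul_apply, he, mul_zero, Pi.one_apply, sub_zero] at h2
    exact one_ne_zero h2
  have hsep : ∀ x, ¬ Rl x → ∃ Θ ∈ S, Θ x = 0 ∧ Θ e = 1 := by
    intro x hx
    have h1 : ∃ Θ ∈ S, Θ x = 0 ∧ Θ e ≠ 0 := by
      by_contra hno
      refine hx fun Θ hΘ h0 => ?_
      by_contra hne
      exact hno ⟨Θ, hΘ, h0, hne⟩
    obtain ⟨Θ, hΘ, h0, hne⟩ := h1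
    obtain ⟨Θ', hΘ', h2⟩ := hinv Θ hΘ e hne
    refine ⟨Θ' * Θ, S.mul_mem hΘ' hΘ, ?_, ?_⟩
    · rw [Pi.mul_apply, h0, mul_zero]
    · rw [Pi.mul_apply, h2]
  -- the separating functions
  have hsep2 : ∀ x, ∃ Θ ∈ S, (¬ Rl x → Θ x = 0) ∧ Θ e = 1 := by
    intro x
    by_cases hx : Rl x
    · exact ⟨1, S.one_mem, fun h => absurd hx h, rfl⟩
    · obtain ⟨Θ, hΘ, h0, h1⟩ := hsep x hx
      exact ⟨Θ, hΘ, fun _ => h0, h1⟩
  choose th hthS hth0 hth1 using hsep2
  let ω : G → E := ∏ x, th x
  have hωS : ω ∈ S := S.prod_mem fun x _ => hthS x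
  have hωe : ω e = 1 := by
    change (∏ x, th x) e = 1
    rw [Finset.prod_apply]
    exact Finset.prod_eq_one fun x _ => hth1 x
  have hω : ∀ x, ω x = if Rl x then 1 else 0 := by
    intro x
    split_ifs with hx
    · have h1 := hRl' x hx (ω - 1) (S.sub_mem hωS S.one_mem) (by
        rw [Pi.sub_apply, hωe, Pi.one_apply, sub_self])
      rw [Pi.sub_apply, Pi.one_apply, sub_eq_zero] at h1
      exact h1
    · change (∏ y, th y) x = 0
      rw [Finset.prod_apply]
      exact Finset.prod_eq_zero (Finset.mem_univ x) (hth0 x hx)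
  obtain ⟨w, hw⟩ := (hSmem ω).1 hωS
  -- integrality of the values
  have hbint : ∀ m x, IsIntegral κ[X] (b m x) := by
    intro m x
    have h1 : (1 : E) ∈ Submodule.span κ[X] (Set.range fun l => b l x) := by
      rw [Submodule.mem_span_range_iff_exists_fun]
      refine ⟨ν, ?_⟩
      rw [← hone x]
      exact Finset.sum_congr rfl fun l _ => Algebra.smul_def _ _
    have h2 : ∀ i j, b i x * b j x ∈ Submodule.span κ[X] (Set.range fun l => b l x) := by
      intro i j
      rw [Submodule.mem_span_range_iff_exists_fun]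
      refine ⟨μ i j, ?_⟩
      rw [hmul]
      exact Finset.sum_congr rfl fun l _ => Algebra.smul_def _ _
    refine IsIntegral.of_mem_of_fg (R2_sub (fun l => b l x) h1 h2) (R2_sub_fg _ h1 h2) _ ?_
    exact Submodule.subset_span ⟨m, rfl⟩
  -- the coefficients
  let r : G → K := fun m => ∑ l, w l * algebraMap κ[X] K (T l m)
  have hr : ∀ m, algebraMap K E (r m) = ∑ x, ω x * b m x := by
    intro m
    have h1 : ∑ x, ω x * b m x = ∑ l, w l • algebraMap κ[X] E (T l m) := by
      calc ∑ x, ω x * b m x = ∑ x, ∑ l, w l • (b l x * b m x) := by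
            refine Finset.sum_congr rfl fun x _ => ?_
            rw [hw x, Finset.sum_mul]
            exact Finset.sum_congr rfl fun l _ => smul_mul_assoc _ _ _
        _ = ∑ l, ∑ x, w l • (b l x * b m x) := Finset.sum_comm
        _ = ∑ l, w l • algebraMap κ[X] E (T l m) := by
            refine Finset.sum_congr rfl fun l _ => ?_
            rw [← Finset.smul_sum, htr]
    rw [h1, map_sum]
    refine Finset.sum_congr rfl fun l _ => ?_
    rw [map_mul, Algebra.smul_def, ← IsScalarTower.algebraMap_apply]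
  have hrint : ∀ m, ∃ s : κ[X], algebraMap κ[X] K s = r m := by
    intro m
    rw [← IsIntegrallyClosed.isIntegral_iff (R := κ[X]) (K := K)]
    have h1 : IsIntegral κ[X] (algebraMap K E (r m)) := by
      rw [hr m]
      refine IsIntegral.sum _ fun x _ => ?_
      rw [hω x]
      split_ifs
      · rw [one_mul]; exact hbint m x
      · rw [zero_mul]; exact isIntegral_zero
    exact (isIntegral_algebraMap_iff (algebraMap K E).injective).1 h1
  choose s hs using hrint
  have hw' : ∀ n, w n = algebraMap κ[X] K (∑ m, s m * T' m n) := by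
    intro n
    rw [map_sum]
    calc w n = ∑ l, w l * (if l = n then 1 else 0) := by
          rw [Finset.sum_eq_single n]
          · rw [if_pos rfl, mul_one]
          · intro l _ hl
            rw [if_neg hl, mul_zero]
          · intro hn
            exact absurd (Finset.mem_univ n) hn
      _ = ∑ l, w l * algebraMap κ[X] K (∑ m, T l m * T' m n) := by
          refine Finset.sum_congr rfl fun l _ => ?_
          rw [hTT' l n]
          split_ifs <;> simp
      _ = ∑ l, ∑ m, w l * (algebraMap κ[X] K (T l m) * algebraMap κ[X] K (T' m n)) := by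
          refine Finset.sum_congr rfl fun l _ => ?_
          rw [map_sum, Finset.mul_sum]
          exact Finset.sum_congr rfl fun m _ => by rw [map_mul]
      _ = ∑ m, ∑ l, w l * (algebraMap κ[X] K (T l m) * algebraMap κ[X] K (T' m n)) :=
          Finset.sum_comm
      _ = ∑ m, algebraMap κ[X] K (s m * T' m n) := by
          refine Finset.sum_congr rfl fun m _ => ?_
          rw [map_mul, hs m]
          change _ = (∑ l, w l * algebraMap κ[X] K (T l m)) * _
          rw [Finset.sum_mul]
          exact Finset.sum_congr rfl fun l _ => (mul_assoc _ _ _).symm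
  have hfin := hc (fun n => ∑ m, s m * T' m n) (fun x => if Rl x then 1 else 0) (by
    intro x
    calc ∑ l, algebraMap κ[X] E (∑ m, s m * T' m l) * b l x = ω x := by
          rw [hw x]
          exact Finset.sum_congr rfl fun l _ => by rw [hsm, ← hw' l]
      _ = algebraMap κ[X] E (C (if Rl x then (1 : κ) else 0)) := by
          rw [hω x]
          split_ifs <;> simp)
  have hRe : Rl e := fun Θ _ h0 => h0
  have hRh : Rl h := by
    by_contra hno
    rw [if_neg hno, if_pos hRe] at hfin
    exact zero_ne_one hfin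
  have hlast := hRl' h hRh (fun x => ∑ l, algebraMap κ[X] E (f l) * b l x)
    ((hSmem _).2 ⟨fun l => algebraMap κ[X] K (f l), fun x =>
      Finset.sum_congr rfl fun l _ => hsm _ _⟩) hf
  exact hlast


private theorem R2_core2 {κ E G : Type} [Field κ] [Field E] [Fintype G] (z : κ[X] →+* E)
    (hz : Function.Injective z) (b : G → G → E) (μ : G → G → G → κ[X]) (ν : G → κ[X])
    (T T' : G → G → κ[X])
    (hmul : ∀ i j x, b i x * b j x = ∑ l, z (μ i j l) * b l x)
    (hone : ∀ x, ∑ l, z (ν l) * b l x = 1)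
    (htr : ∀ i j, ∑ x, b i x * b j x = z (T i j))
    (hTT' : ∀ (i j : G) [Decidable (i = j)], ∑ m, T i m * T' m j = if i = j then 1 else 0)
    (e h : G)
    (hc : ∀ (f : G → κ[X]) (c : G → κ),
      (∀ x, ∑ l, z (f l) * b l x = z (C (c x))) → c h = c e)
    (f : G → κ[X]) (hf : ∑ l, z (f l) * b l e = 0) :
    ∑ l, z (f l) * b l h = 0 := by
  let i1 : Algebra κ[X] E := z.toAlgebra
  let i2 : Algebra (FractionRing κ[X]) E :=
    (IsFractionRing.lift (A := κ[X]) (K := FractionRing κ[X]) hz).toAlgebra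
  have i3 : IsScalarTower κ[X] (FractionRing κ[X]) E := IsScalarTower.of_algebraMap_eq
    fun x => (IsFractionRing.lift_algebraMap hz x).symm
  exact R2_core (K := FractionRing κ[X]) b μ ν T T' hmul hone htr hTT' e h hc f hf

theorem conn_of_conn' {κ : Type} [Field κ] {P : Type} [Group P] [Fintype P] {G : Type} [Group G]
    [Fintype G] {i : P →* G} {A : Type} [CommRing A] (hA : IsField A) {ze : κ[X] →+* A}
    (hze : Function.Injective ze) {act : P →* (A →+* A)} (D : GD i ze act) (H : Subgroup G)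
    (hD : D.Conn' H) : D.Conn H := by
  intro h hh f hf
  let iF : Field A := hA.toField
  exact R2_core2 (E := A) ze hze D.b D.k.μ D.k.ν D.k.T D.k.T' D.hmul D.hone D.htr
    (fun j l _ => by
      rw [D.TT' hze j l]
      split_ifs <;> rfl) 1 h (fun f' c hc => hD h hh f' c hc) f hf

end

end Pool.Agent.MP_1c8e06_ag.AJ
end

section

set_option autoImplicit false

open Polynomial
open scoped Classical

namespace Pool.Agent.MP_1c8e06_ag.AJ

noncomputable section

/-!
# Task R3: the function field

(Adaptation of `AI/TR1.lean`, `exists_FD`, proved there.)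
Proof.  `E := El S` is a field (`hF`).  `zeE` extends to a field homomorphism `ι : RatFunc k →+* E`; make `E` a
`RatFunc k`-algebra.  `L` := the `RatFunc k`-span of the `b l 1` in `E`: a subalgebra (`hmul`, `hone` at
`x = 1`), finite dimensional over `RatFunc k` and a domain, hence a field.
Independence of the `b l 1` over `RatFunc k`: a relation gives, after clearing denominators, `∑ zeE (f l) b l 1 = 0`, so by
`hD` (for `⊤`) `∑ zeE (f l) b l x = 0` for all `x`, so `f = 0` (`GD.coord_eq`).  Hence `[L : RatFunc k] = card G`.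
For `h : G` define `ρ h : L → L` to be the `RatFunc k`-linear map with `b l 1 ↦ b l h`
(`b l h = ∑ zeE (α h l m) b m 1 ∈ L`).  It is a ring homomorphism by `hmul`, `hone`.
`ρ h ∘ ρ h' = ρ (h h')`.  Injective: `hdual`.  So `L` is Galois (`IsGalois.of_card_aut_eq_finrank`) and `ρ` is bijective.
`j_act`: `actE u` and `ρ (i u)` are ring homomorphisms `L → E` that agree on `ι(RatFunc k)` and on `b l 1`:
`actE u (b l 1) = b l (i u * 1)`.
-/

private theorem R3_gen {K E : Type} [Field K] [Field E] [Algebra K E] {G : Type} [Group G]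
    [Fintype G] (b : G → G → E) (μ : G → G → G → K) (α : G → G → G → K) (ν : G → K)
    (hmul : ∀ i j x, b i x * b j x = ∑ l, μ i j l • b l x)
    (hact : ∀ h l x, b l (x * h) = ∑ m, α h l m • b m x)
    (hone : ∀ x, ∑ l, ν l • b l x = 1)
    (hinj : ∀ h, (∀ l, b l h = b l 1) → h = 1)
    (hind : LinearIndependent K (fun l => b l 1)) :
    ∃ (L : IntermediateField K E) (_ : FiniteDimensional K L) (_ : IsGalois K L)
      (ρ : G ≃* (L ≃ₐ[K] L)) (bL : G → L), (∀ l, (bL l : E) = b l 1) ∧
      (∀ h l, ((ρ h (bL l) : L) : E) = b l h) ∧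
      ∀ a : L, ∃ r : G → K, a = ∑ l, r l • bL l := by
  classical
  set M : Submodule K E := Submodule.span K (Set.range fun l => b l 1) with hM
  have hbM : ∀ l, b l 1 ∈ M := fun l => Submodule.subset_span ⟨l, rfl⟩
  have hbMh : ∀ h l, b l h ∈ M := by
    intro h l
    have h1 := hact h l 1
    rw [one_mul] at h1
    rw [h1]
    exact Submodule.sum_mem _ fun m _ => M.smul_mem _ (hbM m)
  have h1M : (1 : E) ∈ M := by
    rw [← hone 1]
    exact Submodule.sum_mem _ fun l _ => M.smul_mem _ (hbM l)
  have hMM : M * M ≤ M := by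
    conv_lhs => rw [hM, Submodule.span_mul_span]
    rw [Submodule.span_le]
    rintro _ ⟨_, ⟨i, rfl⟩, _, ⟨j, rfl⟩, rfl⟩
    change b i 1 * b j 1 ∈ M
    rw [hmul]
    exact Submodule.sum_mem _ fun l _ => M.smul_mem _ (hbM l)
  have hmulM : ∀ x y, x ∈ M → y ∈ M → x * y ∈ M := fun x y hx hy =>
    hMM (Submodule.mul_mem_mul hx hy)
  have hfinM : Module.Finite K M := FiniteDimensional.span_of_finite K (Set.finite_range _)
  have hinvM : ∀ x ∈ M, x⁻¹ ∈ M := by
    intro x hx
    by_cases hx0 : x = 0
    · rw [hx0, inv_zero]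
      exact M.zero_mem
    · let f : M →ₗ[K] M := (LinearMap.mulLeft K x).restrict fun y hy => hmulM x y hx hy
      have hf : Function.Injective f := by
        intro y z hyz
        have h1 := congrArg Subtype.val hyz
        exact Subtype.ext (mul_left_cancel₀ hx0 h1)
      obtain ⟨y, hy⟩ := LinearMap.injective_iff_surjective.1 hf ⟨1, h1M⟩
      have h1 : x * (y : E) = 1 := congrArg Subtype.val hy
      rw [← eq_inv_of_mul_eq_one_right h1]
      exact y.2
  let L : IntermediateField K E := (M.toSubalgebra h1M hmulM).toIntermediateField hinvM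
  let bL : G → L := fun l => ⟨b l 1, hbM l⟩
  have hindL : LinearIndependent K bL := by
    have h1 : LinearIndependent K ((IntermediateField.val L).toLinearMap ∘ bL) := hind
    exact h1.of_comp
  have hspanL : ⊤ ≤ Submodule.span K (Set.range bL) := by
    intro x _
    have h1 : (x : E) ∈ M := x.2
    rw [hM, Submodule.mem_span_range_iff_exists_fun] at h1
    obtain ⟨c, hc⟩ := h1
    rw [Submodule.mem_span_range_iff_exists_fun]
    refine ⟨c, Subtype.ext ?_⟩
    rw [← hc]
    simp [bL]
  let B : Module.Basis G K L := Module.Basis.mk hindL hspanL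
  have hB : ∀ l, B l = bL l := fun l => Module.Basis.mk_apply _ _ l
  have hfin : FiniteDimensional K L := Module.Finite.of_basis B
  let c : G → G → L := fun h l => ⟨b l h, hbMh h l⟩
  let f : G → L →ₗ[K] L := fun h => B.constr K (c h)
  have hf : ∀ h l, f h (bL l) = c h l := by
    intro h l
    rw [← hB]
    exact B.constr_basis K (c h) l
  have hmulL : ∀ i j, bL i * bL j = ∑ l, μ i j l • bL l := by
    intro i j
    apply Subtype.ext
    simp only [bL]
    simpa using hmul i j 1
  have hmulc : ∀ h i j, c h i * c h j = ∑ l, μ i j l • c h l := by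
    intro h i j
    apply Subtype.ext
    simpa [c] using hmul i j h
  have honeL : ∑ l, ν l • bL l = 1 := by
    apply Subtype.ext
    simpa [bL] using hone 1
  have honec : ∀ h, ∑ l, ν l • c h l = 1 := by
    intro h
    apply Subtype.ext
    simpa [c] using hone h
  have hactL : ∀ h l, c h l = ∑ m, α h l m • bL m := by
    intro h l
    apply Subtype.ext
    have h1 := hact h l 1
    rw [one_mul] at h1
    simpa [c, bL] using h1
  have hactc : ∀ h h' l, c (h * h') l = ∑ m, α h' l m • c h m := by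
    intro h h' l
    apply Subtype.ext
    simpa [c] using hact h' l h
  have hfone : ∀ h, f h 1 = 1 := by
    intro h
    rw [← honeL, map_sum]
    simp only [map_smul, hf]
    rw [honec, honeL]
  have hfmul : ∀ h x y, f h (x * y) = f h x * f h y := by
    intro h
    have key : (LinearMap.mul K L).compr₂ (f h) = (LinearMap.mul K L).compl₁₂ (f h) (f h) := by
      refine B.ext fun i => B.ext fun j => ?_
      rw [LinearMap.compr₂_apply, LinearMap.compl₁₂_apply, LinearMap.mul_apply',
        LinearMap.mul_apply', hB, hB, hf, hf, hmulL, hmulc, map_sum]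
      simp only [map_smul, hf]
    intro x y
    exact LinearMap.congr_fun (LinearMap.congr_fun key x) y
  let Ψ0 : G → (L →ₐ[K] L) := fun h => AlgHom.ofLinearMap (f h) (hfone h) (hfmul h)
  have hΨ0 : ∀ h l, Ψ0 h (bL l) = c h l := hf
  have hext : ∀ u v : L →ₐ[K] L, (∀ l, u (bL l) = v (bL l)) → u = v := by
    intro u v huv
    apply AlgHom.toLinearMap_injective
    refine B.ext fun l => ?_
    rw [hB]
    exact huv l
  let Ψ : G →* (L →ₐ[K] L) :=
    { toFun := Ψ0
      map_one' := by
        apply hext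
        intro l
        rw [hΨ0]
        rfl
      map_mul' := by
        intro h h'
        apply hext
        intro l
        rw [hΨ0, AlgHom.mul_apply, hΨ0, hactL h' l, map_sum, hactc]
        simp only [map_smul, hΨ0] }
  let ρ0 : G →* (L ≃ₐ[K] L) :=
    (AlgEquiv.algHomUnitsEquiv K L).toMonoidHom.comp Ψ.toHomUnits
  have hρ0 : ∀ h l, ρ0 h (bL l) = c h l := by
    intro h l
    exact hΨ0 h l
  have hρinj : Function.Injective ρ0 := by
    rw [injective_iff_map_eq_one]
    intro h hh
    apply hinj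
    intro l
    have h1 := hρ0 h l
    rw [hh] at h1
    exact (congrArg Subtype.val h1).symm
  have hfr : Module.finrank K L = Fintype.card G := Module.finrank_eq_card_basis B
  have hcard : Fintype.card (L ≃ₐ[K] L) = Fintype.card G := by
    apply le_antisymm
    · rw [← hfr]
      exact AlgEquiv.card_le
    · exact Fintype.card_le_of_injective ρ0 hρinj
  have hρbij : Function.Bijective ρ0 :=
    (Fintype.bijective_iff_injective_and_card ρ0).2 ⟨hρinj, hcard.symm⟩
  have hgal : IsGalois K L := IsGalois.of_card_aut_eq_finrank K L (by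
    rw [Nat.card_eq_fintype_card, hcard, hfr])
  refine ⟨L, hfin, hgal, MulEquiv.ofBijective ρ0 hρbij, bL, fun l => rfl, ?_, ?_⟩
  · intro h l
    exact congrArg Subtype.val (hρ0 h l)
  · intro a
    refine ⟨B.repr a, ?_⟩
    conv_lhs => rw [← B.sum_repr a]
    refine Finset.sum_congr rfl fun l _ => ?_
    rw [hB]

theorem exists_FD {k : Type} [Field k] {P : Type} [Group P] [Fintype P] {G : Type} [Group G]
    [Fintype G] {i : P →* G} {S : SC k[X] P} (D : GD i (zeE S) (actE S)) (hF : IsField (El S))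
    (hD : D.Conn ⊤) :
    ∃ (L : Type) (_ : Field L) (_ : Algebra (RatFunc k) L)
      (_ : FiniteDimensional (RatFunc k) L) (_ : IsGalois (RatFunc k) L), Nonempty (FD D L) := by
  classical
  let fE : Field (El S) := hF.toField
  let ι : RatFunc k →+* El S :=
    IsFractionRing.lift (A := k[X]) (K := RatFunc k) (g := zeE S) (zeE_injective S)
  have hι : ∀ f : k[X], ι (algebraMap k[X] (RatFunc k) f) = zeE S f := fun f =>
    IsFractionRing.lift_algebraMap _ f
  let aE : Algebra (RatFunc k) (El S) := ι.toAlgebra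
  have hsm : ∀ (r : RatFunc k) (x : El S), r • x = ι r * x := fun r x => rfl
  have hsz : ∀ (f : k[X]) (x : El S),
      (algebraMap k[X] (RatFunc k) f) • x = zeE S f * x := fun f x => by
    rw [hsm, hι]
  have hind : LinearIndependent (RatFunc k) (fun l => D.b l 1) := by
    rw [Fintype.linearIndependent_iff]
    intro r hr i
    obtain ⟨d, hd⟩ := IsLocalization.exist_integer_multiples_of_finite
      (nonZeroDivisors k[X]) r
    choose f hf using hd
    have h1 : ∑ l, zeE S (f l) * D.b l 1 = 0 := by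
      have h2 : ∑ l, zeE S (f l) * D.b l 1 =
          ι (algebraMap k[X] (RatFunc k) (d : k[X])) * ∑ l, r l • D.b l 1 := by
        rw [Finset.mul_sum]
        refine Finset.sum_congr rfl fun l _ => ?_
        rw [← hι, hf l, Algebra.smul_def, map_mul, hsm, mul_assoc]
      rw [h2, hr, mul_zero]
    have h4 : f = 0 := by
      refine D.coord_eq (zeE_injective S) f 0 fun x => ?_
      rw [hD x (Subgroup.mem_top x) f h1]
      simp
    have h6 : f i = 0 := congrFun h4 i
    have h7 := hf i
    rw [h6, map_zero, Algebra.smul_def] at h7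
    have h8 : algebraMap k[X] (RatFunc k) (d : k[X]) ≠ 0 := by
      intro h9
      have h10 : (d : k[X]) = 0 := IsFractionRing.injective k[X] (RatFunc k) (by rw [h9, map_zero])
      exact nonZeroDivisors.coe_ne_zero d h10
    exact (mul_eq_zero.1 h7.symm).resolve_left h8
  have hinj : ∀ h, (∀ l, D.b l h = D.b l 1) → h = 1 := by
    intro h hh
    have h1 := D.hdual h 1
    have h2 := D.hdual 1 1
    simp only [hh] at h1
    rw [h1] at h2
    by_contra hne
    rw [if_neg hne, if_pos rfl] at h2
    exact zero_ne_one h2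
  obtain ⟨L, hfin, hgal, ρ, bL, hbL, hρ, hspan⟩ := R3_gen (K := RatFunc k) (E := El S)
    D.b (fun i j l => algebraMap k[X] (RatFunc k) (D.k.μ i j l))
    (fun h l m => algebraMap k[X] (RatFunc k) (D.k.α h l m))
    (fun l => algebraMap k[X] (RatFunc k) (D.k.ν l))
    (fun i j x => by simp only [hsz]; exact D.hmul i j x)
    (fun h l x => by simp only [hsz]; exact D.hact h l x)
    (fun x => by simp only [hsz]; exact D.hone x)
    hinj hind
  have hτι : ∀ (u : P) (r : RatFunc k), actE S u (ι r) = ι r := by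
    intro u r
    have h1 : (actE S u).comp ι = ι := by
      apply IsLocalization.ringHom_ext (nonZeroDivisors k[X])
      ext f
      · simp only [RingHom.comp_apply, hι, actE_zeE]
      · simp only [RingHom.comp_apply, hι, actE_zeE]
    exact RingHom.congr_fun h1 r
  refine ⟨L, inferInstance, inferInstance, hfin, hgal, ⟨?_⟩⟩
  refine
    { ρ := ρ
      j := (IntermediateField.val L).toRingHom
      bL := bL
      j_bL := hbL
      j_alg := fun f => hι f
      j_ρ := hρ
      span := hspan
      j_act := ?_ }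
  intro u a
  obtain ⟨r, hr⟩ := hspan a
  rw [hr]
  simp only [map_sum, map_smul]
  refine Finset.sum_congr rfl fun l _ => ?_
  have h1 : ∀ y : L, (IntermediateField.val L).toRingHom (r l • y) =
      ι (r l) * (y : El S) := fun y => rfl
  rw [h1, h1, map_mul, hτι, hbL, hρ, ← D.hP, mul_one]

end

end Pool.Agent.MP_1c8e06_ag.AJ
end

section

set_option autoImplicit false

open Polynomial
open scoped Classical

namespace Pool.Agent.MP_1c8e06_ag.AJ

noncomputable section

/-!
# Task R4: no inertia over the affine line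

(Adaptation of `AI/TR2.lean`, `inertia_affine`, proved there.)
Proof.  Let `O` be a valuation subring of `L` containing `k` and `X`, so it contains the image of
`k[X]`.  `I.bL l * I.bL m = ∑ algebraMap (μ l m n) * I.bL n` and `1 = ∑ algebraMap (ν l) * I.bL l` in `L`
(`I.j` injective, `D.hmul`, `D.hone` at `x = 1`), so the `k[X]`-span of the `bL l` is a finitely
generated ring, and every `bL l` is integral over `k[X]`, hence lies in `O` (integrally closed).
Let `u l := ∑_m algebraMap (T' l m) * bL m ∈ O`.  By `hdual` and the symmetry of `T'`: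
`∑_l u l * ρ h (bL l) = if h = 1 then 1 else 0`.
Let `σ` be in the inertia group of `O`, `σ = ρ h`.  Then `σ a - a ∈ 𝔪_O` for all `a ∈ O`.  If `h ≠ 1`:
`1 = ∑_l u l * (bL l - ρ h (bL l)) ∈ 𝔪_O`, contradiction.
-/

theorem inertia_affine {k : Type} [Field k] {P : Type} [Group P] [Fintype P] {G : Type} [Group G]
    [Fintype G] {i : P →* G} {S : SC k[X] P} (D : GD i (zeE S) (actE S))
    {L : Type} [Field L] [Algebra (RatFunc k) L] (I : FD D L) (O : ValuationSubring L)
    (hk : ∀ c : k, algebraMap (RatFunc k) L (algebraMap k (RatFunc k) c) ∈ O)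
    (hX : algebraMap (RatFunc k) L RatFunc.X ∈ O) :
    O.inertiaSubgroup (RatFunc k) = ⊥ := by
  classical
  have hnt : Nontrivial (El S) := (oE_injective S).nontrivial
  have hjinj : Function.Injective I.j := I.j.injective
  obtain ⟨aL, haL⟩ : ∃ aL : k[X] →+* L,
      aL = (algebraMap (RatFunc k) L).comp (algebraMap k[X] (RatFunc k)) := ⟨_, rfl⟩
  have hjaL : ∀ f, I.j (aL f) = zeE S f := by
    intro f
    rw [haL]
    exact I.j_alg f
  -- the polynomials are in `O`
  have hpoly : ∀ f : k[X], aL f ∈ O := by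
    intro f
    induction f using Polynomial.induction_on' with
    | add f g hf hg => rw [map_add]; exact O.add_mem _ _ hf hg
    | monomial n a =>
      rw [← Polynomial.C_mul_X_pow_eq_monomial, map_mul, map_pow]
      refine O.mul_mem _ _ ?_ (pow_mem ?_ n)
      · have h1 : aL (C a) = algebraMap (RatFunc k) L (algebraMap k (RatFunc k) a) := by
          rw [haL, RingHom.comp_apply, RatFunc.algebraMap_C, RatFunc.algebraMap_eq_C]
        rw [h1]
        exact hk a
      · have h1 : aL X = algebraMap (RatFunc k) L RatFunc.X := by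
          rw [haL, RingHom.comp_apply, RatFunc.algebraMap_X]
        rw [h1]
        exact hX
  -- the multiplication table in `L`
  have hmulL : ∀ l m, I.bL l * I.bL m = ∑ n, aL (D.k.μ l m n) * I.bL n := by
    intro l m
    apply hjinj
    rw [map_mul, map_sum, I.j_bL, I.j_bL, D.hmul]
    refine Finset.sum_congr rfl fun n _ => ?_
    rw [map_mul, hjaL, I.j_bL]
  -- the basis elements are in `O`
  have hbL : ∀ l, I.bL l ∈ O := by
    obtain ⟨l0, hl0⟩ := Finite.exists_max fun l => O.valuation (I.bL l)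
    have h1 : O.valuation (I.bL l0) ≤ 1 := by
      by_contra hcon
      rw [not_le] at hcon
      have h2 : O.valuation (I.bL l0 * I.bL l0) ≤ O.valuation (I.bL l0) := by
        rw [hmulL]
        refine Valuation.map_sum_le _ fun n _ => ?_
        rw [map_mul]
        calc O.valuation (aL (D.k.μ l0 l0 n)) * O.valuation (I.bL n)
            ≤ 1 * O.valuation (I.bL l0) := mul_le_mul' ((O.valuation_le_one_iff _).2 (hpoly _)) (hl0 n)
          _ = _ := one_mul _
      rw [map_mul] at h2
      have h3 : O.valuation (I.bL l0) < O.valuation (I.bL l0) * O.valuation (I.bL l0) := by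
        have h4 : 0 < O.valuation (I.bL l0) := lt_trans zero_lt_one hcon
        calc O.valuation (I.bL l0) = 1 * O.valuation (I.bL l0) := (one_mul _).symm
          _ < O.valuation (I.bL l0) * O.valuation (I.bL l0) := mul_lt_mul_of_pos_right hcon h4
      exact absurd h2 (not_le.2 h3)
    intro l
    exact (O.valuation_le_one_iff _).1 ((hl0 l).trans h1)
  -- the dual elements
  obtain ⟨u, hu⟩ : ∃ u : G → L, u = fun l => ∑ m, aL (D.k.T' l m) * I.bL m := ⟨_, rfl⟩
  have huO : ∀ l, u l ∈ O := by
    intro l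
    rw [hu]
    exact sum_mem fun m _ => O.mul_mem _ _ (hpoly _) (hbL m)
  have hdual : ∀ h : G, ∑ l, u l * I.ρ h (I.bL l) = if h = 1 then 1 else 0 := by
    intro h
    apply hjinj
    have h1 := D.hdual h 1
    simp only [mul_assoc, ← Finset.mul_sum] at h1
    rw [map_sum]
    have h2 : ∀ l, I.j (u l * I.ρ h (I.bL l)) =
        D.b l h * ∑ m, zeE S (D.k.T' l m) * D.b m 1 := by
      intro l
      rw [map_mul, I.j_ρ, hu, map_sum, mul_comm]
      congr 1
      refine Finset.sum_congr rfl fun m _ => ?_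
      rw [map_mul, hjaL, I.j_bL]
    rw [Finset.sum_congr rfl fun l _ => h2 l, h1]
    split_ifs <;> simp
  rw [eq_bot_iff]
  intro σ hσ
  rw [Subgroup.mem_bot]
  obtain ⟨h, hh⟩ : ∃ h : G, I.ρ h = (σ : L ≃ₐ[RatFunc k] L) := I.ρ.surjective _
  have htriv : ∀ a : O, IsLocalRing.residue O (σ • a) = IsLocalRing.residue O a := by
    intro a
    rw [IsLocalRing.ResidueField.residue_smul]
    have h1 : MulSemiringAction.toRingAut (O.decompositionSubgroup (RatFunc k))
        (IsLocalRing.ResidueField O) σ = 1 := hσ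
    have h2 := congrArg (fun e : RingAut (IsLocalRing.ResidueField O) =>
      e (IsLocalRing.residue O a)) h1
    exact h2
  have hh1 : h = 1 := by
    by_contra hne
    have e1 := hdual 1
    have e2 := hdual h
    rw [if_pos rfl] at e1
    rw [if_neg hne] at e2
    have e3 : (∑ l, (⟨u l, huO l⟩ : O) * (⟨I.bL l, hbL l⟩ - σ • (⟨I.bL l, hbL l⟩ : O))) = 1 := by
      apply Subtype.ext
      have e4 : ((∑ l, (⟨u l, huO l⟩ : O) * (⟨I.bL l, hbL l⟩ - σ • (⟨I.bL l, hbL l⟩ : O)) : O) : L)
          = ∑ l, u l * (I.bL l - I.ρ h (I.bL l)) := by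
        rw [AddSubmonoidClass.coe_finsetSum]
        refine Finset.sum_congr rfl fun l _ => ?_
        rw [hh]
        rfl
      rw [e4]
      have e5 : ∑ l, u l * (I.bL l - I.ρ h (I.bL l)) =
          ∑ l, u l * I.ρ 1 (I.bL l) - ∑ l, u l * I.ρ h (I.bL l) := by
        rw [← Finset.sum_sub_distrib]
        refine Finset.sum_congr rfl fun l _ => ?_
        rw [map_one, AlgEquiv.one_apply]
        ring
      rw [e5, e1, e2, sub_zero]
      rfl
    have e6 := congrArg (IsLocalRing.residue O) e3
    rw [map_sum, map_one] at e6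
    have e7 : ∀ l, IsLocalRing.residue O ((⟨u l, huO l⟩ : O) *
        (⟨I.bL l, hbL l⟩ - σ • (⟨I.bL l, hbL l⟩ : O))) = 0 := by
      intro l
      rw [map_mul, map_sub, htriv, sub_self, mul_zero]
    rw [Finset.sum_congr rfl fun l _ => e7 l, Finset.sum_const_zero] at e6
    exact zero_ne_one e6
  apply Subtype.ext
  rw [← hh, hh1, map_one]
  rfl

end

end Pool.Agent.MP_1c8e06_ag.AJ
end

section

set_option autoImplicit false

open Polynomial
open scoped Classical

namespace Pool.Agent.MP_1c8e06_ag.AJ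

noncomputable section

/-!
# Task R5: nonunits, and separating the point `1` from the points outside `i(P)`

`NU V` = nonunits of the subring `V`.  Proofs.
* `NU_add`: let `a, b` be nonunits, `a ≠ 0 ≠ b`; by `W.val` for `a b⁻¹` (`E` is a field): say `a = b c` with `c ∈ V` (or
  `b = a c`): `a + b = b (c + 1)`; if `a + b` were a unit then `b` would be.  `NU_mul`: `a c y = 1` gives `a (c y) = 1`.
* `NU_s`: `s` is in `V` (`W.ps`), not a unit: its inverse `s⁻¹` is not in `V` (`W.pole`; inverses are unique).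
* `NU_act`: `actE u` is bijective on `V` (`W.act` for `u` and `u⁻¹`).  `one_not_NU`.
* `exists_separate`.  Consider `e : G → El S`, `e x = 1` if `x ∈ i.range` and `0` otherwise; `e (i u * x) = actE u (e x)`.
  `GD.exists_coord` for `D` over the base `k((s))` (same data with `ze := oE S`; `fixedE`, `actE_oE`): `e x = ∑_n oE (c' n) * D.b n x`.
  Choose `M : ℕ` with `s^M * D.b n x ∈ V` for all `n, x` (`W.arch`, and `s ∈ V`) and approximate
  `c' n ∈ k((s))` by the finite sum `c'' n := ∑_{j < M + 1} (c' n).coeff j * s^j`, so `c' n - c'' n = s^(M+1) * (power series)` and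
  `oE (c' n - c'' n) * D.b m x ∈ NU V` (`s * (s^M b) * ps`).  `s = 1/X`, so `oE (c'' n) = I.j (algebraMap r_n)` with `r_n ∈ RatFunc k`
  (`I.j_alg`).  `a := ∑_n r_n • bL n`; `j a = ∑ oE (c'' n) b n 1 = 1 - (element of NU V)` and
  `j (ρ σ a) = ∑ oE (c'' n) b n σ = 0 - (element of NU V)` as `e σ = 0`.
  (`j (ρ h (r • b)) = j (algebraMap r) * D.b l h`: `ρ h` is `RatFunc k`-linear and `I.j_ρ`.)
-/

section
variable {k : Type} [Field k] {P : Type} [Group P] [Fintype P] {S : SC k[X] P}

theorem NU_add (hF : IsField (El S)) (W : VR S) {a b : El S} (ha : a ∈ NU W.V) (hb : b ∈ NU W.V) :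
    a + b ∈ NU W.V := by
  refine ⟨W.V.add_mem ha.1 hb.1, fun y hy h => ?_⟩
  by_cases hb0 : b = 0
  · rw [hb0, add_zero] at h
    exact ha.2 y hy h
  obtain ⟨b', hb'⟩ := hF.mul_inv_cancel hb0
  rcases W.val (a * b') with hx | ⟨z, hz, hxz⟩
  · refine hb.2 ((a * b' + 1) * y) (W.V.mul_mem (W.V.add_mem hx W.V.one_mem) hy) ?_
    calc b * ((a * b' + 1) * y) = (a * (b * b') + b) * y := by ring
      _ = 1 := by rw [hb', mul_one, h]
  · have hba : b = a * z := by
      calc b = b * (a * b' * z) := by rw [hxz, mul_one]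
        _ = a * z * (b * b') := by ring
        _ = a * z := by rw [hb', mul_one]
    refine ha.2 ((1 + z) * y) (W.V.mul_mem (W.V.add_mem W.V.one_mem hz) hy) ?_
    calc a * ((1 + z) * y) = (a + a * z) * y := by ring
      _ = 1 := by rw [← hba, h]

theorem NU_mul (W : VR S) {a c : El S} (ha : a ∈ NU W.V) (hc : c ∈ W.V) : c * a ∈ NU W.V := by
  refine ⟨W.V.mul_mem hc ha.1, fun y hy h => ha.2 (c * y) (W.V.mul_mem hc hy) ?_⟩
  rw [← h]
  ring

theorem NU_neg (W : VR S) {a : El S} (ha : a ∈ NU W.V) : -a ∈ NU W.V := by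
  have h := NU_mul W ha (W.V.neg_mem W.V.one_mem)
  rwa [neg_one_mul] at h

private theorem R5_single_mul (a b : ℤ) :
    (HahnSeries.single a (1 : k) : LaurentSeries k) * HahnSeries.single b (1 : k) =
      HahnSeries.single (a + b) (1 : k) := by
  rw [HahnSeries.single_mul_single, one_mul]

private theorem R5_s_mem (W : VR S) (n : ℕ) : oE S (HahnSeries.single (n : ℤ) (1 : k)) ∈ W.V := by
  rw [← HahnSeries.ofPowerSeries_X_pow]
  exact W.ps _

private theorem R5_single_zero : (HahnSeries.single (0 : ℤ) (1 : k) : LaurentSeries k) = 1 := rfl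

theorem NU_s (W : VR S) : oE S (HahnSeries.single (1 : ℤ) (1 : k)) ∈ NU W.V := by
  refine ⟨by simpa using R5_s_mem W 1, fun y hy h => W.pole ?_⟩
  have h1 : oE S (HahnSeries.single (-1 : ℤ) (1 : k)) * oE S (HahnSeries.single (1 : ℤ) (1 : k)) =
      1 := by
    rw [← map_mul, R5_single_mul, neg_add_cancel, R5_single_zero, map_one]
  have h2 : oE S (HahnSeries.single (-1 : ℤ) (1 : k)) = y := by
    calc oE S (HahnSeries.single (-1 : ℤ) (1 : k))
        = oE S (HahnSeries.single (-1 : ℤ) (1 : k)) *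
          (oE S (HahnSeries.single (1 : ℤ) (1 : k)) * y) := by rw [h, mul_one]
      _ = y := by rw [← mul_assoc, h1, one_mul]
  rw [h2]
  exact hy

theorem NU_act (W : VR S) (u : P) {a : El S} (ha : a ∈ NU W.V) : actE S u a ∈ NU W.V := by
  refine ⟨W.act u a ha.1, fun y hy h => ha.2 (actE S u⁻¹ y) (W.act _ _ hy) ?_⟩
  have h1 : actE S u⁻¹ (actE S u a) = a := by
    have h2 := Al.act_mul_apply (S.map (AI.zinv k)) u⁻¹ u a
    rw [inv_mul_cancel, Al.act_one_apply] at h2
    exact h2.symm
  have h3 := congrArg (actE S u⁻¹) h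
  rw [map_mul, map_one, h1] at h3
  exact h3

theorem one_not_NU (W : VR S) : (1 : El S) ∉ NU W.V := fun h =>
  h.2 1 W.V.one_mem (mul_one 1)

private theorem R5_sum (hF : IsField (El S)) (W : VR S) {ι : Type} (t : Finset ι) (f : ι → El S)
    (h : ∀ x ∈ t, f x ∈ NU W.V) : ∑ x ∈ t, f x ∈ NU W.V := by
  induction t using Finset.induction_on with
  | empty =>
    rw [Finset.sum_empty]
    refine ⟨W.V.zero_mem, fun y _ h => ?_⟩
    rw [zero_mul] at h
    obtain ⟨x, y, hxy⟩ := hF.exists_pair_ne
    exact hxy (by rw [← one_mul x, ← one_mul y, ← h, zero_mul, zero_mul])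
  | insert a t ha ih =>
    rw [Finset.sum_insert ha]
    exact NU_add hF W (h a (Finset.mem_insert_self _ _))
      (ih fun x hx => h x (Finset.mem_insert_of_mem hx))

private theorem R5_decomp (c : LaurentSeries k) (M : ℕ) :
    ∃ (m : ℕ) (p : k[X]) (f : PowerSeries k),
      c = HahnSeries.single (-(m : ℤ)) (1 : k) * HahnSeries.ofPowerSeries ℤ k (p : PowerSeries k) +
        HahnSeries.single ((M + 1 : ℕ) : ℤ) (1 : k) * HahnSeries.ofPowerSeries ℤ k f := by
  obtain ⟨m, d, hmd⟩ : ∃ m d : ℕ, (c.order : ℤ) = -(m : ℤ) + (d : ℤ) :=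
    ⟨c.order.natAbs, (c.order + c.order.natAbs).toNat, by omega⟩
  have h1 : c = HahnSeries.single (-(m : ℤ)) (1 : k) *
      HahnSeries.ofPowerSeries ℤ k (PowerSeries.X ^ d * c.powerSeriesPart) := by
    conv_lhs => rw [← c.single_order_mul_powerSeriesPart]
    rw [map_mul, HahnSeries.ofPowerSeries_X_pow, ← mul_assoc, R5_single_mul, hmd]
  obtain ⟨g, hg⟩ : ∃ g, g = PowerSeries.X ^ d * c.powerSeriesPart := ⟨_, rfl⟩
  rw [← hg] at h1
  refine ⟨m, PowerSeries.trunc (m + (M + 1)) g,
    PowerSeries.mk fun i => PowerSeries.coeff (i + (m + (M + 1))) g, ?_⟩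
  conv_lhs => rw [h1, PowerSeries.eq_X_pow_mul_shift_add_trunc (m + (M + 1)) g]
  rw [map_add, map_mul, HahnSeries.ofPowerSeries_X_pow, mul_add, add_comm, ← mul_assoc,
    R5_single_mul]
  congr 4
  push_cast
  ring

private theorem R5_iota {G : Type} [Group G] [Fintype G] {i : P →* G}
    (D : GD i (zeE S) (actE S)) {L : Type} [Field L] [Algebra (RatFunc k) L] (I : FD D L)
    (m : ℕ) (p : k[X]) : ∃ r : RatFunc k, I.j (algebraMap (RatFunc k) L r) =
      oE S (HahnSeries.single (-(m : ℤ)) (1 : k) *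
        HahnSeries.ofPowerSeries ℤ k (p : PowerSeries k)) := by
  obtain ⟨j, hj⟩ : ∃ j : RatFunc k →+* El S, j = I.j.comp (algebraMap (RatFunc k) L) := ⟨_, rfl⟩
  have hj' : ∀ r, I.j (algebraMap (RatFunc k) L r) = j r := fun r => by rw [hj]; rfl
  have halg : ∀ f : k[X], j (algebraMap k[X] (RatFunc k) f) = oE S (AI.zinv k f) := fun f => by
    rw [← hj', I.j_alg]
    rfl
  have hX : j RatFunc.X = oE S (HahnSeries.single (-1 : ℤ) (1 : k)) := by
    rw [← RatFunc.algebraMap_X, halg, AI.zinv_X]
  have hC : ∀ a : k, j (RatFunc.C a) = oE S (HahnSeries.C a) := fun a => by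
    rw [← RatFunc.algebraMap_C, halg, AI.zinv_C]
  have hXi : j (RatFunc.X⁻¹) = oE S (HahnSeries.single (1 : ℤ) (1 : k)) := by
    have h1 : j (RatFunc.X⁻¹) * j RatFunc.X = 1 := by
      rw [← map_mul, inv_mul_cancel₀ RatFunc.X_ne_zero, map_one]
    have h2 : j RatFunc.X * oE S (HahnSeries.single (1 : ℤ) (1 : k)) = 1 := by
      rw [hX, ← map_mul, R5_single_mul, neg_add_cancel, R5_single_zero, map_one]
    calc j (RatFunc.X⁻¹) = j (RatFunc.X⁻¹) *
          (j RatFunc.X * oE S (HahnSeries.single (1 : ℤ) (1 : k))) := by rw [h2, mul_one]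
      _ = oE S (HahnSeries.single (1 : ℤ) (1 : k)) := by rw [← mul_assoc, h1, one_mul]
  have hhom : j.comp (Polynomial.eval₂RingHom RatFunc.C (RatFunc.X⁻¹)) =
      (oE S).comp ((HahnSeries.ofPowerSeries ℤ k).comp Polynomial.coeToPowerSeries.ringHom) := by
    refine Polynomial.ringHom_ext (fun a => ?_) ?_
    · rw [RingHom.comp_apply, Polynomial.coe_eval₂RingHom, Polynomial.eval₂_C, hC,
        RingHom.comp_apply, RingHom.comp_apply, Polynomial.coeToPowerSeries.ringHom_apply,
        Polynomial.coe_C, HahnSeries.ofPowerSeries_C]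
    · rw [RingHom.comp_apply, Polynomial.coe_eval₂RingHom, Polynomial.eval₂_X, hXi,
        RingHom.comp_apply, RingHom.comp_apply, Polynomial.coeToPowerSeries.ringHom_apply,
        Polynomial.coe_X, HahnSeries.ofPowerSeries_X]
  refine ⟨RatFunc.X ^ m * Polynomial.eval₂ RatFunc.C (RatFunc.X⁻¹) p, ?_⟩
  have h3 := RingHom.congr_fun hhom p
  rw [RingHom.comp_apply, Polynomial.coe_eval₂RingHom, RingHom.comp_apply, RingHom.comp_apply,
    Polynomial.coeToPowerSeries.ringHom_apply] at h3
  rw [hj', map_mul, map_pow, h3, hX, map_mul, ← map_pow, HahnSeries.single_pow, one_pow]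
  congr 4
  simp

end

theorem exists_separate {k : Type} [Field k] {P : Type} [Group P] [Fintype P] {G : Type}
    [Group G] [Fintype G] {i : P →* G} {S : SC k[X] P} (D : GD i (zeE S) (actE S))
    (hF : IsField (El S)) (W : VR S) {L : Type} [Field L] [Algebra (RatFunc k) L] (I : FD D L)
    (σ : G) (hσ : σ ∉ i.range) :
    ∃ a : L, I.j a - 1 ∈ NU W.V ∧ I.j (I.ρ σ a) ∈ NU W.V := by
  -- the indicator function of `i.range`
  obtain ⟨e, he⟩ : ∃ e : G → El S, e = fun x => if x ∈ i.range then 1 else 0 := ⟨_, rfl⟩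
  have he1 : e 1 = 1 := by
    rw [he]
    exact if_pos i.range.one_mem
  have heσ : e σ = 0 := by
    rw [he]
    exact if_neg hσ
  have hei : ∀ u x, e (i u * x) = actE S u (e x) := by
    intro u x
    rw [he]
    have hiff : i u * x ∈ i.range ↔ x ∈ i.range :=
      Subgroup.mul_mem_cancel_left i.range ⟨u, rfl⟩
    by_cases h : x ∈ i.range
    · simp only [if_pos (hiff.2 h), if_pos h, map_one]
    · simp only [if_neg (fun h' => h (hiff.1 h')), if_neg h, map_zero]
  let D' : GD i (oE S) (actE S) := D.push (AI.zinv k) (RingHom.id _) (MonoidHom.id P) i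
    (fun _ => rfl) (oE S) (actE S) (fun _ => rfl) (fun _ _ => rfl)
  obtain ⟨c, hc⟩ := D'.exists_coord (actE_oE S) (fixedE S) e hei
  have hc' : ∀ x, e x = ∑ l, oE S (c l) * D.b l x := hc
  -- a common power of `s`
  have hM : ∃ M : ℕ, ∀ l x, oE S (HahnSeries.single (M : ℤ) (1 : k)) * D.b l x ∈ W.V := by
    choose N hN using fun q : G × G => W.arch (D.b q.1 q.2)
    refine ⟨Finset.univ.sup N, fun l x => ?_⟩
    obtain ⟨d, hd⟩ := Nat.exists_eq_add_of_le (Finset.le_sup (f := N) (Finset.mem_univ (l, x)))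
    rw [hd, Nat.cast_add, add_comm, ← R5_single_mul, map_mul, mul_assoc]
    exact W.V.mul_mem (R5_s_mem W d) (hN (l, x))
  obtain ⟨M, hM⟩ := hM
  -- approximation
  have happ : ∀ l, ∃ (r : RatFunc k) (f : PowerSeries k),
      oE S (c l) = I.j (algebraMap (RatFunc k) L r) +
        oE S (HahnSeries.single ((M + 1 : ℕ) : ℤ) (1 : k)) *
          oE S (HahnSeries.ofPowerSeries ℤ k f) := by
    intro l
    obtain ⟨m, p, f, h⟩ := R5_decomp (c l) M
    obtain ⟨r, hr⟩ := R5_iota D I m p
    refine ⟨r, f, ?_⟩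
    rw [hr, ← map_mul, ← map_add, ← h]
  choose r f hrf using happ
  have herr : ∀ l x, oE S (HahnSeries.single ((M + 1 : ℕ) : ℤ) (1 : k)) *
      oE S (HahnSeries.ofPowerSeries ℤ k (f l)) * D.b l x ∈ NU W.V := by
    intro l x
    have h1 : oE S (HahnSeries.single ((M + 1 : ℕ) : ℤ) (1 : k)) *
        oE S (HahnSeries.ofPowerSeries ℤ k (f l)) * D.b l x =
        (oE S (HahnSeries.ofPowerSeries ℤ k (f l)) *
          (oE S (HahnSeries.single (M : ℤ) (1 : k)) * D.b l x)) *
          oE S (HahnSeries.single (1 : ℤ) (1 : k)) := by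
      rw [Nat.cast_add, Nat.cast_one, ← R5_single_mul, map_mul]
      ring
    rw [h1]
    exact NU_mul W (NU_s W) (W.V.mul_mem (W.ps _) (hM l x))
  have hsum : ∀ x, ∑ l, I.j (algebraMap (RatFunc k) L (r l)) * D.b l x =
      e x + -(∑ l, oE S (HahnSeries.single ((M + 1 : ℕ) : ℤ) (1 : k)) *
        oE S (HahnSeries.ofPowerSeries ℤ k (f l)) * D.b l x) := by
    intro x
    rw [hc' x, ← sub_eq_add_neg, ← Finset.sum_sub_distrib]
    refine Finset.sum_congr rfl fun l _ => ?_
    rw [hrf l]
    ring
  have hnu : ∀ x, -(∑ l, oE S (HahnSeries.single ((M + 1 : ℕ) : ℤ) (1 : k)) *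
        oE S (HahnSeries.ofPowerSeries ℤ k (f l)) * D.b l x) ∈ NU W.V := fun x =>
    NU_neg W (R5_sum hF W _ _ fun l _ => herr l x)
  refine ⟨∑ l, r l • I.bL l, ?_, ?_⟩
  · have h1 : I.j (∑ l, r l • I.bL l) = ∑ l, I.j (algebraMap (RatFunc k) L (r l)) * D.b l 1 := by
      rw [map_sum]
      refine Finset.sum_congr rfl fun l _ => ?_
      rw [Algebra.smul_def, map_mul, I.j_bL]
    rw [h1, hsum 1, he1, add_sub_cancel_left]
    exact hnu 1
  · have h1 : I.j (I.ρ σ (∑ l, r l • I.bL l)) =
        ∑ l, I.j (algebraMap (RatFunc k) L (r l)) * D.b l σ := by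
      rw [map_sum, map_sum]
      refine Finset.sum_congr rfl fun l _ => ?_
      rw [map_smul, Algebra.smul_def, map_mul, I.j_ρ]
    rw [h1, hsum σ, heσ, zero_add]
    exact hnu σ

end

end Pool.Agent.MP_1c8e06_ag.AJ
end

section

set_option autoImplicit false

open Polynomial
open scoped Classical

namespace Pool.Agent.MP_1c8e06_ag.AJ

noncomputable section

/-!
# Task R6: the place at infinity

(Adaptation of `AI/TR4.lean`, `exists_place`, proved there.)
Proof.  `O := {a : L | I.j a ∈ W.V}` is a valuation subring: if `a ∉ O` then `∃ y ∈ V, j a * y = 1` (`W.val`), and `y = j a⁻¹`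
(`L` is a field, `j` injective), so `a⁻¹ ∈ O`.  `k ⊆ O`: `W.ps`.
`X ∉ O` and `X⁻¹ ∈ O`: `j X = zeE X = oE (s⁻¹)` (`W.pole`), `j X⁻¹ = oE s` (`W.ps`).
Maximal ideal: `a ∈ 𝔪_O` iff `j a ∈ NU V`.
Decomposition group: `ρ (i u)` maps `O` to itself: `j (ρ (i u) a) = actE u (j a)` (`I.j_act`, `W.act`; the same for `u⁻¹`).
Conversely, let `σ : G` with `ρ σ O = O` and suppose `σ ∉ i.range`: `exists_separate` gives `a ∈ O` with
`j a - 1 ∈ NU V`, a unit of `O`, with `ρ σ a ∈ 𝔪_O`; but `ρ σ` restricts to a ring automorphism of `O`, which maps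
units to units: contradiction.  So the decomposition group is exactly `ρ (i.range)`.
Inertia: for `a ∈ O`: `W.res`: `j a - oE (C c) ∈ NU V`, so `j (ρ (i u) a - a) = actE u (j a - oE (C c)) - (j a - oE (C c)) ∈ NU V`
(`NU_act`, `NU_add`, `NU_neg`), so `ρ (i u)` acts trivially on the residue field; so the inertia group is the whole
decomposition group.  Thus the image of the inertia group under `ρ⁻¹` is `i.range`.
-/

theorem exists_place {k : Type} [Field k] {P : Type} [Group P] [Fintype P] {G : Type}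
    [Group G] [Fintype G] {i : P →* G} {S : SC k[X] P} (D : GD i (zeE S) (actE S))
    (hF : IsField (El S)) (W : VR S) {L : Type} [Field L] [Algebra (RatFunc k) L] (I : FD D L) :
    ∃ O : ValuationSubring L,
      (∀ c : k, algebraMap (RatFunc k) L (algebraMap k (RatFunc k) c) ∈ O) ∧
      algebraMap (RatFunc k) L (RatFunc.X)⁻¹ ∈ O ∧
      algebraMap (RatFunc k) L RatFunc.X ∉ O ∧
      ((O.inertiaSubgroup (RatFunc k)).map
          (O.decompositionSubgroup (RatFunc k)).subtype).map I.ρ.symm.toMonoidHom =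
        i.range := by
  have hnt : Nontrivial (El S) := (oE_injective S).nontrivial
  have hzX : zeE S X = oE S (HahnSeries.single (-1 : ℤ) (1 : k)) := by
    rw [zeE, RingHom.comp_apply]
    congr 1
    exact AI.zinv_X
  have hzC : ∀ c : k, zeE S (C c) = oE S (HahnSeries.C c) := by
    intro c
    rw [zeE, RingHom.comp_apply]
    congr 1
    exact AI.zinv_C c
  -- the valuation ring
  obtain ⟨O, hO⟩ : ∃ O : ValuationSubring L, ∀ a, a ∈ O ↔ I.j a ∈ W.V := by
    refine ⟨{ carrier := {a | I.j a ∈ W.V}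
              mul_mem' := ?_
              one_mem' := ?_
              add_mem' := ?_
              zero_mem' := ?_
              neg_mem' := ?_
              mem_or_inv_mem' := ?_ }, fun a => Iff.rfl⟩
    · intro a b ha hb
      change I.j (a * b) ∈ W.V
      rw [map_mul]
      exact W.V.mul_mem ha hb
    · change I.j 1 ∈ W.V
      rw [map_one]
      exact W.V.one_mem
    · intro a b ha hb
      change I.j (a + b) ∈ W.V
      rw [map_add]
      exact W.V.add_mem ha hb
    · change I.j 0 ∈ W.V
      rw [map_zero]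
      exact W.V.zero_mem
    · intro a ha
      change I.j (-a) ∈ W.V
      rw [map_neg]
      exact W.V.neg_mem ha
    · intro a
      rcases W.val (I.j a) with h | ⟨y, hy, hay⟩
      · exact Or.inl h
      · right
        change I.j a⁻¹ ∈ W.V
        have ha0 : a ≠ 0 := by
          rintro rfl
          rw [map_zero, zero_mul] at hay
          exact zero_ne_one hay
        have h1 : I.j a * I.j a⁻¹ = 1 := by rw [← map_mul, mul_inv_cancel₀ ha0, map_one]
        have h2 : I.j a⁻¹ = y := by
          calc I.j a⁻¹ = (I.j a * y) * I.j a⁻¹ := by rw [hay, one_mul]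
            _ = (I.j a * I.j a⁻¹) * y := by ring
            _ = y := by rw [h1, one_mul]
        rw [h2]
        exact hy
  -- nonunits are in the maximal ideal
  have hmax : ∀ a : O, I.j a ∈ NU W.V → IsLocalRing.residue O a = 0 := by
    intro a ha
    rw [IsLocalRing.residue_eq_zero_iff, IsLocalRing.mem_maximalIdeal, mem_nonunits_iff]
    intro hu
    obtain ⟨b, hb⟩ := hu.exists_right_inv
    have h1 : (a : L) * (b : L) = 1 := by
      have := congrArg (fun x : O => (x : L)) hb
      simpa using this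
    refine ha.2 (I.j b) ((hO b).1 b.2) ?_
    rw [← map_mul, h1, map_one]
  -- the action of `P`
  have hpow : ∀ h ∈ i.range, ∀ a, I.j a ∈ W.V →
      I.j (I.ρ h a) ∈ W.V ∧ I.j (I.ρ h a) - I.j a ∈ NU W.V := by
    rintro _ ⟨u, rfl⟩ a ha
    rw [← I.j_act]
    refine ⟨W.act u _ ha, ?_⟩
    obtain ⟨c, hc⟩ := W.res _ ha
    have h1 := NU_add hF W (NU_act W u hc) (NU_neg W hc)
    rw [map_sub, actE_oE] at h1
    have h2 : actE S u (I.j a) - oE S (HahnSeries.C c) + -(I.j a - oE S (HahnSeries.C c)) =
        actE S u (I.j a) - I.j a := by ring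
    rwa [h2] at h1
  have hdec : ∀ h ∈ i.range, I.ρ h ∈ O.decompositionSubgroup (RatFunc k) := by
    intro h hh
    open Pointwise in
    rw [ValuationSubring.decompositionSubgroup, MulAction.mem_stabilizer_iff]
    ext a
    rw [ValuationSubring.mem_pointwise_smul_iff_inv_smul_mem, ← map_inv, hO, hO]
    constructor
    · intro h1
      have h2 := (hpow h hh _ h1).1
      have h3 : I.ρ h (I.ρ h⁻¹ • a) = a := by
        change I.ρ h (I.ρ h⁻¹ a) = a
        rw [← AlgEquiv.mul_apply, ← map_mul, mul_inv_cancel, map_one, AlgEquiv.one_apply]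
      rwa [h3] at h2
    · intro h1
      exact (hpow h⁻¹ (inv_mem hh) a h1).1
  have hin : ∀ h (hh : h ∈ i.range),
      (⟨I.ρ h, hdec h hh⟩ : O.decompositionSubgroup (RatFunc k)) ∈
        O.inertiaSubgroup (RatFunc k) := by
    intro h hh
    change MulSemiringAction.toRingAut (O.decompositionSubgroup (RatFunc k))
        (IsLocalRing.ResidueField O) ⟨I.ρ h, hdec h hh⟩ = 1
    apply RingEquiv.ext
    intro x
    obtain ⟨a, rfl⟩ := IsLocalRing.residue_surjective x
    change (⟨I.ρ h, hdec h hh⟩ : O.decompositionSubgroup (RatFunc k)) •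
      IsLocalRing.residue O a = IsLocalRing.residue O a
    rw [← IsLocalRing.ResidueField.residue_smul, ← sub_eq_zero, ← map_sub]
    apply hmax
    have h1 := (hpow h hh a ((hO a).1 a.2)).2
    rw [← map_sub] at h1
    exact h1
  refine ⟨O, ?_, ?_, ?_, ?_⟩
  · intro c
    rw [hO]
    have h1 : algebraMap (RatFunc k) L (algebraMap k (RatFunc k) c) =
        algebraMap (RatFunc k) L (algebraMap k[X] (RatFunc k) (C c)) := by
      rw [RatFunc.algebraMap_C, RatFunc.algebraMap_eq_C]
    rw [h1, I.j_alg, hzC]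
    have h2 := W.ps (PowerSeries.C c)
    rwa [HahnSeries.ofPowerSeries_C] at h2
  · rw [hO]
    have h1 : I.j (algebraMap (RatFunc k) L (RatFunc.X)⁻¹) * zeE S X = 1 := by
      rw [← I.j_alg, ← map_mul, ← map_mul, RatFunc.algebraMap_X, inv_mul_cancel₀ RatFunc.X_ne_zero,
        map_one, map_one]
    have h2 : zeE S X * oE S (HahnSeries.single (1 : ℤ) (1 : k)) = 1 := by
      rw [hzX, ← map_mul, HahnSeries.single_mul_single]
      norm_num
    have h3 : I.j (algebraMap (RatFunc k) L (RatFunc.X)⁻¹) =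
        oE S (HahnSeries.single (1 : ℤ) (1 : k)) := by
      calc I.j (algebraMap (RatFunc k) L (RatFunc.X)⁻¹)
          = I.j (algebraMap (RatFunc k) L (RatFunc.X)⁻¹) *
            (zeE S X * oE S (HahnSeries.single (1 : ℤ) (1 : k))) := by rw [h2, mul_one]
        _ = (I.j (algebraMap (RatFunc k) L (RatFunc.X)⁻¹) * zeE S X) *
            oE S (HahnSeries.single (1 : ℤ) (1 : k)) := by ring
        _ = _ := by rw [h1, one_mul]
    rw [h3]
    exact (NU_s W).1
  · rw [hO, ← RatFunc.algebraMap_X, I.j_alg, hzX]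
    exact W.pole
  · ext h
    simp only [Subgroup.mem_map]
    constructor
    · rintro ⟨_, ⟨σ, hσ, rfl⟩, hσh⟩
      by_contra hcon
      obtain ⟨a, ha1, ha2⟩ := exists_separate D hF W I h hcon
      have hσ' : I.ρ h = (σ : L ≃ₐ[RatFunc k] L) := by
        rw [← hσh]
        exact I.ρ.apply_symm_apply _
      have haO : a ∈ O := by
        rw [hO]
        have h1 := W.V.add_mem ha1.1 W.V.one_mem
        rwa [sub_add_cancel] at h1
      have h1 : IsLocalRing.residue O (⟨a, haO⟩ : O) = 1 := by
        rw [← sub_eq_zero, ← map_one (IsLocalRing.residue O), ← map_sub]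
        apply hmax
        have h2 : ((⟨a, haO⟩ - 1 : O) : L) = a - 1 := rfl
        rw [h2, map_sub, map_one]
        exact ha1
      have h3 : IsLocalRing.residue O (σ • (⟨a, haO⟩ : O)) = 0 := by
        apply hmax
        have h4 : ((σ • (⟨a, haO⟩ : O) : O) : L) = I.ρ h a := by
          rw [hσ']
          rfl
        rw [h4]
        exact ha2
      rw [IsLocalRing.ResidueField.residue_smul, h1, smul_one] at h3
      exact one_ne_zero h3
    · intro hh
      refine ⟨I.ρ h, ⟨⟨I.ρ h, hdec h hh⟩, hin h hh, rfl⟩, ?_⟩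
      exact I.ρ.symm_apply_apply h

end

end Pool.Agent.MP_1c8e06_ag.AJ
end
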