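import Pool.Agent.Lib.MP_1c8e06_ag.Mg.G048
import Pool.Agent.Lib.MP_1c8e06_ag.Mg.G047
import Pool.Agent.Lib.MP_1c8e06_ag.Mg.G051
import Pool.Agent.Lib.MP_1c8e06_ag.Mg.G052
import Pool.Agent.Lib.MP_1c8e06_ag.Mg.G053
import Pool.Agent.Lib.MP_1c8e06_ag.Mg.G055
import Pool.Agent.Lib.MP_1c8e06_ag.Mg.G058
import Pool.Agent.Lib.MP_1c8e06_ag.Mg.G059
import Pool.Agent.Lib.MP_1c8e06_ag.Mg.G061
import Pool.Agent.Lib.MP_1c8e06_ag.Mg.G062
import Pool.Agent.Lib.MP_1c8e06_ag.Mg.G064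
import Pool.Agent.Lib.MP_1c8e06_ag.Mg.G065
import Pool.Agent.Lib.MP_1c8e06_ag.AI.Defs3

section

set_option autoImplicit false

open Polynomial
open scoped Classical

namespace Pool.Agent.MP_1c8e06_ag.AJ

noncomputable section

/-!
# Task C6: gluing with small central inertia (assembly)

Proof.  `I` has order `p`: a generator `ι`, `∀ u, ∃ n, u = ι^n`; `ι₀ := j ι`, `orderOf ι₀ = p` (`j` injective).
`N := j.range`, normal in `P` (central), `P' := P ⧸ N`, `q := QuotientGroup.mk' N`; `q u = 1` iff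
`u = j (ι^n) = ι₀^n`.  `h1` : `S₁, D₁`; `h2` : `S₂, D₂`, `hT₂`.
`exists_split` for `S₂`: `S', J, y, a, b`.  `H1` for `S₁` and the cocycle `ι^n ↦ n` (`I → Al S₁`; `p = 0` in
`Al S₁`): `y₁` with `act ι y₁ = y₁ + 1`; `y₁^p - y₁` is fixed by `act ι`, hence by all, so it is `cst F₁` (`fixed`).
`d₀` from `twist_TC`.  `exists_glp 0 X`: `h` of degree `N₁ ≥ N₀`, `¬ p ∣ N₁`; `exists_glp F₁ 0`: `β` of degree
`N₂`, `¬ p ∣ N₂`, `N₂ > d₀ * N₁`.
`exists_ASG` over `K = κ((t))` for `S'_h := S'.map (subK h)`, `a_h := mapA ∘ a`, `B := mapA b + cst β`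
(hypotheses by `Al.mapA_act`, `Al.act_cst`): `S, Φ`.  `exists_T1` (`hΦι`: from the conclusion of `exists_ASG` for
`u = j ι`: `q (j ι) = 1`, `act 1 = id`, `a_h (j ι) = 1`), `exists_T2`, `twist_TC`.
`glue` with `I₁ = I`, `j₁ = j`, `I₂ = P`, `j₂ = MonoidHom.id P`.  `specialise` (`AJ/E7.lean`).
-/

theorem c6_cast_eq {R : Type} [CommRing R] {p a b : ℕ} (h0 : (p : R) = 0) (h : a ≡ b [MOD p]) :
    (a : R) = (b : R) := by
  obtain ⟨c, hc⟩ := (Nat.modEq_iff_dvd.1 h)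
  have h1 : (((b : ℤ) - (a : ℤ) : ℤ) : R) = (((p : ℤ) * c : ℤ) : R) := by rw [hc]
  push_cast at h1
  rw [h0, zero_mul] at h1
  exact (sub_eq_zero.1 h1).symm

theorem c6_y1 {p : ℕ} [hp : Fact p.Prime] {k : Type} [Field k] [CharP k p] {I : Type} [Group I]
    [Fintype I] (ι : I) (hι : ∀ u : I, ∃ n : ℕ, u = ι ^ n) (hord : orderOf ι = p)
    (S₁ : SC k[X] I) :
    ∃ (y₁ : Al S₁) (F₁ : k[X]), Al.act S₁ ι y₁ = y₁ + 1 ∧ y₁ ^ p - y₁ = Al.cst S₁ F₁ := by
  have h0 : ((p : ℕ) : Al S₁) = 0 := charP_Al S₁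
  choose n hn using hι
  have hmod : ∀ a b : ℕ, ι ^ a = ι ^ b → a ≡ b [MOD p] := by
    intro a b hab
    rw [pow_eq_pow_iff_modEq, hord] at hab
    exact hab
  obtain ⟨y₁, hy₁⟩ := H1 S₁ (fun u => ((n u : ℕ) : Al S₁)) (by
    intro u v
    rw [map_natCast, ← Nat.cast_add]
    refine c6_cast_eq h0 (hmod _ _ ?_)
    rw [pow_add, ← hn, ← hn, ← hn])
  have hy : Al.act S₁ ι y₁ = y₁ + 1 := by
    rw [hy₁ ι]
    have h1 : ((n ι : ℕ) : Al S₁) = ((1 : ℕ) : Al S₁) := by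
      refine c6_cast_eq h0 (hmod _ _ ?_)
      rw [pow_one, ← hn]
    rw [h1, Nat.cast_one]
  have hfix1 : Al.act S₁ ι (y₁ ^ p - y₁) = y₁ ^ p - y₁ := by
    rw [map_sub, map_pow, hy, add_pow_p h0, one_pow]
    ring
  have hfixn : ∀ m : ℕ, Al.act S₁ (ι ^ m) (y₁ ^ p - y₁) = y₁ ^ p - y₁ := by
    intro m
    induction m with
    | zero => rw [pow_zero, Al.act_one_apply]
    | succ m ih => rw [pow_succ, Al.act_mul_apply, hfix1, ih]
  obtain ⟨F₁, hF₁⟩ := fixed S₁ (y₁ ^ p - y₁) (by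
    intro u
    rw [hn u]
    exact hfixn (n u))
  exact ⟨y₁, F₁, hy, hF₁⟩

theorem op_central {p : ℕ} [hp : Fact p.Prime] {k : Type} [Field k] [IsAlgClosed k] [CharP k p]
    {P I : Type} [Group P] [Fintype P] [Group I] [Fintype I] {G : Type} [Group G] [Fintype G]
    (i : P →* G) (hi : Function.Injective i) (j : I →* P) (hj : Function.Injective j)
    (hI : Nat.card I = p) (hc : ∀ (u : I) (v : P), v * j u = j u * v) (H₁ H₂ : Subgroup G)
    (h1 : RE p k (i.comp j) H₁) (h2 : RE p k i H₂) : RE p k i (H₁ ⊔ H₂) := by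
  obtain ⟨S₁, hT₁, D₁, hD₁⟩ := h1
  obtain ⟨S₂, hT₂, D₂, hD₂⟩ := h2
  have hp1 := hp.out
  have hcyc : IsCyclic I := isCyclic_of_prime_card hI
  obtain ⟨ι, hιg⟩ := hcyc.exists_generator
  have hordι : orderOf ι = p := by
    rw [orderOf_eq_card_of_forall_mem_zpowers hιg, hI]
  have hι : ∀ u : I, ∃ n : ℕ, u = ι ^ n := by
    intro u
    have h3 : u ∈ Submonoid.powers ι := mem_powers_iff_mem_zpowers.2 (hιg u)
    obtain ⟨n, hn⟩ := h3
    exact ⟨n, hn.symm⟩
  have hordι₀ : orderOf (j ι) = p := by rw [orderOf_injective j hj ι, hordι]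
  have hNn : (j.range).Normal := by
    constructor
    rintro x ⟨u, rfl⟩ g
    refine ⟨u, ?_⟩
    rw [hc, mul_assoc, mul_inv_cancel, mul_one]
  let P' : Type := P ⧸ j.range
  have hPf : Fintype P' := Fintype.ofFinite P'
  let q : P →* P' := QuotientGroup.mk' j.range
  have hq : Function.Surjective q := QuotientGroup.mk'_surjective j.range
  have hqker : ∀ u, q u = 1 ↔ u ∈ j.range := fun u => QuotientGroup.eq_one_iff u
  have hι₀ : q (j ι) = 1 := (hqker _).2 ⟨ι, rfl⟩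
  have hker : ∀ u, q u = 1 → ∃ n : ℕ, u = (j ι) ^ n := by
    intro u hu
    obtain ⟨v, rfl⟩ := (hqker u).1 hu
    obtain ⟨n, rfl⟩ := hι v
    exact ⟨n, map_pow j ι n⟩
  have hcent : ∀ u, u * j ι = j ι * u := fun u => hc ι u
  obtain ⟨S', J, y, a, b, hJi, hJ, hJa, hJs, hy, hyb, ha0, ha, hb⟩ :=
    exists_split q hq (j ι) hι₀ hordι₀ hker hcent S₂
  obtain ⟨y₁, F₁, hy₁, hy₁'⟩ := c6_y1 ι hι hordι S₁
  obtain ⟨d₀, hd₀⟩ := twist_TC q (j ι) hι₀ hker S₂ hT₂ S' J y a b hJi hJ hJa hJs hy hyb ha0 hb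
  obtain ⟨N₀, hN₀⟩ := exists_glp (0 : k[X]) (X : k[X])
  have hnd : ∀ m : ℕ, ¬ p ∣ p * m + 1 := by
    intro m hm
    have h3 : p ∣ 1 := (Nat.dvd_add_right (dvd_mul_right p m)).1 hm
    exact hp1.one_lt.ne' (Nat.dvd_one.1 h3)
  have hle : ∀ m : ℕ, m ≤ p * m := fun m => Nat.le_mul_of_pos_left m hp1.pos
  obtain ⟨h, h₁, h₂, hdeg, hh₁, hh₁0, hh₂, hh₂0⟩ := hN₀ (p * N₀ + 1) (by have := hle N₀; omega)
  obtain ⟨N₀', hN₀'⟩ := exists_glp F₁ (0 : k[X])
  obtain ⟨β, β₁, β₂, hβdeg, hβ₁, hβ₁0, hβ₂, hβ₂0⟩ :=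
    hN₀' (p * (N₀' + d₀ * (p * N₀ + 1)) + 1)
      (by have := hle (N₀' + d₀ * (p * N₀ + 1)); omega)
  have hchar : CharP (LaurentSeries k) p :=
    charP_of_injective_algebraMap (algebraMap k (LaurentSeries k)).injective p
  obtain ⟨S, Φ, hΦ, hΦa⟩ := exists_ASG q hq (j ι) hι₀ hordι₀ hker (S'.map (subK h))
    (fun u => Al.mapA S' (subK h) (a u))
    (by
      intro u v
      rw [ha, map_add, Al.mapA_act])
    (by rw [ha0, map_one])
    (Al.mapA S' (subK h) b + Al.cst (S'.map (subK h)) β)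
    (by
      intro u
      rw [map_add, Al.act_cst, ← Al.mapA_act, hb, map_add, map_sub, map_pow]
      ring)
  obtain ⟨T₁, hT₁c, hT₁a⟩ := exists_T1 j ι hι S' b h β h₁ β₁ hh₁ hh₁0 F₁ hβ₁ hβ₁0 S₁ y₁ hy₁ hy₁'
    S Φ hΦ (by
      intro σ hσ hσ1 x
      refine hΦa (j ι) σ ?_ ?_ x
      · intro c
        rw [hι₀, Al.act_one_apply, hσ]
      · rw [ha0, map_one, map_one, hσ1])
  obtain ⟨T₂, hT₂c, hT₂a⟩ := exists_T2 q S₂ S' J y a b hJ hJa hy hyb hb h β h₂ β₂ hh₂ hh₂0 hβ₂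
    hβ₂0 S Φ hΦ hΦa
  have hTC : TC p S := hd₀ h β (by rw [hdeg]; exact hnd _) (by rw [hβdeg]; exact hnd _)
    (by
      rw [hdeg, hβdeg]
      have := hle (N₀' + d₀ * (p * N₀ + 1))
      omega) S Φ hΦ hΦa
  have hD₂' : ∃ D₂' : GD (i.comp (MonoidHom.id P)) (zeE S₂) (actE S₂), D₂'.Conn' H₂ := by
    rw [MonoidHom.comp_id]
    exact ⟨D₂, hD₂⟩
  obtain ⟨D₂', hD₂'⟩ := hD₂'
  obtain ⟨D, hD⟩ := glue i hi j (MonoidHom.id P) S S₁ S₂ T₁ hT₁c hT₁a T₂ hT₂c
    (fun u x => hT₂a u x) D₁ D₂' H₁ H₂ hD₁ hD₂'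
  exact specialise k hTC D (H₁ ⊔ H₂) hD

end

end Pool.Agent.MP_1c8e06_ag.AJ
end

section

set_option autoImplicit false

open Polynomial
open scoped Classical

namespace Pool.Agent.MP_1c8e06_ag.AJ

noncomputable section

/-!
# Task G5: a pair of subgroups generating `G` (assembly)

Proof.  `N := normalClosure I`.  `exists_sylow`: `T`.  `Y := BT.S3_nz T` (the normaliser of `T`: `g ∈ Y ↔ cj g T = T`, `BT/S3.lean`).
`P ≤ Y`; `Y ⊔ N = ⊤` (fourth property: `g = n⁻¹ * (n * g)`).  `Y ≠ ⊤`: otherwise `T` is normal in `G` and contains all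
elements of `p`-power order of `N`, in particular `I` (`I ≤ P` is a `p`-group), so `N ≤ T` is a `p`-group
(`IsPGroup.to_le`), a contradiction.
`exists_snc I N`: `A` (`SN A N`, `N` is normal in `⊤`, so `SN A ⊤`: `SN.trans`, `SN.of_normal`).  `exists_snc P Y`: `H`;
`H ≤ Y` so `H ≠ ⊤`.  `SN_supN`: `SN (H ⊔ N) (Y ⊔ N)`, `Y ⊔ N = ⊤`, `P ≤ H ⊔ N`: `SN_top` gives `H ⊔ N = ⊤`.  `join_top`.
-/

theorem exists_pair {p : ℕ} [hp : Fact p.Prime] {G : Type} [Group G] [Finite G]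
    (P I : Subgroup G) (hP : IsPGroup p P) (hIP : I ≤ P)
    (hgen : Subgroup.normalClosure (P : Set G) = ⊤)
    (hN : ¬ IsPGroup p (Subgroup.normalClosure (I : Set G))) :
    ∃ A H : Subgroup G, I ≤ A ∧ clS I A = A ∧ P ≤ H ∧ clS P H = H ∧ H ≠ ⊤ ∧ A ⊔ H = ⊤ := by
  obtain ⟨N, hNdef⟩ : ∃ N, N = Subgroup.normalClosure (I : Set G) := ⟨_, rfl⟩
  have hNn : N.Normal := by
    rw [hNdef]
    exact Subgroup.normalClosure_normal
  have hIN : I ≤ N := by
    rw [hNdef]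
    exact Subgroup.subset_normalClosure
  obtain ⟨T, hT1, hT2, hT3, hT4, hT5⟩ := exists_sylow N P hNn hP
  have hPY : P ≤ BT.S3_nz T := fun u hu => hT3 u hu
  have hYN : BT.S3_nz T ⊔ N = ⊤ := by
    rw [eq_top_iff]
    intro g _
    obtain ⟨n, hn, hng⟩ := hT4 g
    have h1 : g = n⁻¹ * (n * g) := by group
    rw [h1]
    exact Subgroup.mul_mem _ ((le_sup_right : N ≤ BT.S3_nz T ⊔ N) (N.inv_mem hn))
      ((le_sup_left : BT.S3_nz T ≤ BT.S3_nz T ⊔ N) hng)
  have hY : BT.S3_nz T ≠ ⊤ := by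
    intro h
    have h1 : ∀ g : G, BT.cj g T = T := by
      intro g
      have h2 : g ∈ BT.S3_nz T := by
        rw [h]
        exact Subgroup.mem_top g
      exact h2
    have hTn : T.Normal := ⟨fun x hx g => by
      have h2 := BT.conj_mem_cj (g := g) (x := x) (A := T)
      rw [h1 g] at h2
      exact h2.2 hx⟩
    have hIT : I ≤ T := by
      intro x hx
      refine hT5 h1 x (hIN hx) ?_
      obtain ⟨j, hj⟩ := hP ⟨x, hIP hx⟩
      exact ⟨j, congrArg Subtype.val hj⟩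
    have hNT : N ≤ T := by
      rw [hNdef]
      exact Subgroup.normalClosure_le_normal hIT
    refine hN ?_
    rw [← hNdef]
    exact hT2.to_le hNT
  obtain ⟨A, hA1, hA2, hA3⟩ := exists_snc I N hIN
  obtain ⟨H, hH1, hH2, hH3⟩ := exists_snc P (BT.S3_nz T) hPY
  have hNT : BT.SN N ⊤ := BT.SN.of_normal le_top fun b _ => by
    ext x
    rw [BT.mem_cj]
    constructor
    · intro hx
      have h2 := hNn.conj_mem _ hx b
      have h3 : b * (b⁻¹ * x * b) * b⁻¹ = x := by group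
      rwa [h3] at h2
    · intro hx
      have h2 := hNn.conj_mem _ hx b⁻¹
      rwa [inv_inv] at h2
  refine ⟨A, H, hA1, hA3, hH1, hH3, fun h => hY ?_, ?_⟩
  · rw [eq_top_iff, ← h]
    exact hH2.le
  · have h1 := SN_supN hH2 hNn
    rw [hYN] at h1
    have h2 : H ⊔ N = ⊤ := SN_top h1 (hH1.trans le_sup_left) hgen
    refine join_top I A H hA1 (hA2.trans hNT) ?_ ?_
    · rw [← hNdef]
      exact hA2.le
    · rw [← hNdef]
      exact h2

end

end Pool.Agent.MP_1c8e06_ag.AJ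
end

section

set_option autoImplicit false

open Polynomial
open scoped Classical

namespace Pool.Agent.MP_1c8e06_ag.AJ

noncomputable section

/-!
# Task L5: the key lemma (surjectivity)

Proof.  `c₀` from `Fl.exists_bound S`; `L₀ := 2 c₀ + 1`.  `τ` from `finite_mod` with this `L₀`.
Make `Fin m → El S` a `k`-module through `oE ∘ HahnSeries.C` (`RingHom.toAlgebra`), `M :=` the submodule of all `w` with
`Minv w` (notation of `AJ/L5c.lean`; `actE` fixes `oE`).  `F w := fun r => (w r)^p` maps `M` to itself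
(`(x + y)^p = x^p + y^p` in characteristic `p`, `zc_pow`, `map_pow`), it is additive and
`F (c • w) = c^p • F w`.
`N :=` all `w ∈ M` of the form `r ↦ ev 1 (f r) + lam r` with `Ginv f`, `Fl L₀ (lam r)`, `Minv lam`: a submodule
(`c • ev 1 (f r) = ev 1 (cst (C c) * f r)`), stable under `F`: `f^p` is `Ginv` (`zc_pow`), `(lam r)^p` is in `Fl L₀`
(`Fl.mul`; `L₀ ≥ c₀`), `Minv`.
`finite_mod`: `N ⊔ span (range τ) = ⊤` in `M`.  `lang`: `w = n + (F w₁ - w₁)`, `n r = ev 1 (f r) + lam r`.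
`small_AS` with `N₀ := L₀`: `lam' r ∈ Fl L₀`, `(lam' r)^p - lam' r = lam r`.  `Minv lam'`: for `u : P` the vector
`lam'' r := ∑_t zc (ρ (i u) r t) * actE u (lam' t)` is in `Fl (L₀ - c₀) ⊆ Fl (c₀ + 1)` (`Fl.act`) and satisfies
`(lam'' r)^p - lam'' r = ∑_t zc (ρ (i u) r t) actE u (lam t) = lam r`; `small_AS_unique`.
So `w r = ev 1 (f r) + (w₁ r + lam' r)^p - (w₁ r + lam' r)`.
-/

private theorem L5_sum_pow {A : Type} [CommRing A] {p : ℕ} [hp : Fact p.Prime] (h0 : (p : A) = 0)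
    {ι : Type} (s : Finset ι) (f : ι → A) : (∑ j ∈ s, f j) ^ p = ∑ j ∈ s, f j ^ p := by
  induction s using Finset.induction_on with
  | empty => rw [Finset.sum_empty, Finset.sum_empty, zero_pow hp.out.ne_zero]
  | insert a s ha ih => rw [Finset.sum_insert ha, Finset.sum_insert ha, add_pow_p h0, ih]

private theorem L5_pow {A : Type} [CommRing A] {p : ℕ} [hp : Fact p.Prime] (h0 : (p : A) = 0)
    {m : ℕ} (c : Fin m → ZMod p) (σ : A →+* A) (f : Fin m → A) :
    ∑ t, zc A (c t) * σ (f t ^ p) = (∑ t, zc A (c t) * σ (f t)) ^ p := by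
  rw [L5_sum_pow h0]
  refine Finset.sum_congr rfl fun t _ => ?_
  rw [mul_pow, zc_pow h0, map_pow]

private theorem L5_h0 {p : ℕ} {k : Type} [Field k] [CharP k p]
    {P : Type} [Group P] [Fintype P] (S : SC k[X] P) : ((p : ℕ) : El S) = 0 := by
  rw [← map_natCast (oE S) p, ← map_natCast (HahnSeries.C : k →+* LaurentSeries k) p,
    CharP.cast_eq_zero, map_zero, map_zero]

private theorem L5_Fl_nat {R : Type} [CommRing R] {P : Type} [Group P] [Fintype P]
    {S : SC R[X] P} {N : ℤ} {a : El S} (ha : Fl S N a) (n : ℕ) : Fl S N ((n : El S) * a) := by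
  induction n with
  | zero =>
    rw [Nat.cast_zero, zero_mul]
    exact Fl.zero N
  | succ n ih =>
    rw [Nat.cast_succ, add_mul, one_mul]
    exact Fl.add ih ha

private theorem L5_Fl_pow {R : Type} [CommRing R] {P : Type} [Group P] [Fintype P]
    {S : SC R[X] P} {c₀ : ℕ} (hc : ∀ i j l, (S.μ i j l).natDegree ≤ c₀) {N : ℤ}
    (hN : (c₀ : ℤ) ≤ N) {a : El S} (ha : Fl S N a) (n : ℕ) : Fl S N (a ^ (n + 1)) := by
  induction n with
  | zero =>
    rw [zero_add, pow_one]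
    exact ha
  | succ n ih =>
    rw [pow_succ]
    exact Fl.mono (Fl.mul hc ih ha) (by omega)

theorem key {p : ℕ} [hp : Fact p.Prime] {k : Type} [Field k] [IsAlgClosed k] [CharP k p]
    {P G G' : Type} [Group P] [Fintype P] [Group G] [Fintype G] [Group G'] [Fintype G']
    (i : P →* G) (Q : G →* G') (hQ : Function.Surjective Q) (S : SC k[X] P)
    (D₁ : GD (Q.comp i) (zeE S) (actE S)) (S₁ : SC k[X] G') (hS₁ : S₁.ks = D₁.k) (m : ℕ)
    (ρ : G →* Matrix (Fin m) (Fin m) (ZMod p)) (hρ : ∀ n, Q n = 1 → ρ n = 1)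
    (w : Fin m → El S) (hw : ∀ u r, ∑ t, zc (El S) (ρ (i u) r t) * actE S u (w t) = w r) :
    ∃ (f : Fin m → Al S₁) (w₁ : Fin m → El S),
      (∀ g r, ∑ t, zc (Al S₁) (ρ g r t) * Al.act S₁ (Q g) (f t) = f r) ∧
      (∀ u r, ∑ t, zc (El S) (ρ (i u) r t) * actE S u (w₁ t) = w₁ r) ∧
      ∀ r, w r = D₁.ev S₁ hS₁ 1 (f r) + (w₁ r ^ p - w₁ r) := by
  have h0 : ((p : ℕ) : El S) = 0 := L5_h0 S
  have h1 : ((p : ℕ) : Al S₁) = 0 := charP_Al S₁
  obtain ⟨c₀, hc1, hc2, hc3⟩ := Fl.exists_bound S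
  obtain ⟨ι, hι, τ, hτ, hfin⟩ := finite_mod i Q hQ S D₁ S₁ hS₁ m ρ hρ (2 * (c₀ : ℤ) + 1)
  let _ : Algebra k (El S) := ((oE S).comp HahnSeries.C).toAlgebra
  have hsm : ∀ (c : k) (a : El S), c • a = oE S (HahnSeries.C c) * a := fun c a => rfl
  have hact : ∀ (u : P) (c : k) (a : El S), actE S u (c • a) = c • actE S u a := by
    intro u c a
    rw [hsm, hsm, map_mul, actE_oE]
  let M : Submodule k (Fin m → El S) :=
    { carrier := {w | ∀ u r, ∑ t, zc (El S) (ρ (i u) r t) * actE S u (w t) = w r}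
      add_mem' := by
        intro a b ha hb u r
        simp only [Pi.add_apply, map_add, mul_add, Finset.sum_add_distrib]
        rw [ha u r, hb u r]
      zero_mem' := by
        intro u r
        simp
      smul_mem' := by
        intro c a ha u r
        simp only [Pi.smul_apply, hact, mul_smul_comm]
        rw [← Finset.smul_sum, ha u r] }
  have hM : ∀ w : Fin m → El S, w ∈ M ↔
      ∀ u r, ∑ t, zc (El S) (ρ (i u) r t) * actE S u (w t) = w r := fun w => Iff.rfl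
  let F : M → M := fun w => ⟨fun r => (w : Fin m → El S) r ^ p, by
    intro u r
    rw [L5_pow h0, w.2 u r]⟩
  have hF : ∀ (w : M) r, (F w : Fin m → El S) r = (w : Fin m → El S) r ^ p := fun w r => rfl
  have hadd : ∀ a b, F (a + b) = F a + F b := by
    intro a b
    refine Subtype.ext (funext fun r => ?_)
    change (((a : Fin m → El S) r + (b : Fin m → El S) r)) ^ p = _
    rw [add_pow_p h0]
    rfl
  have hsmul : ∀ (c : k) (a : M), F (c • a) = c ^ p • F a := by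
    intro c a
    refine Subtype.ext (funext fun r => ?_)
    change (c • (a : Fin m → El S) r) ^ p = c ^ p • ((a : Fin m → El S) r ^ p)
    rw [_root_.smul_pow]
  let N : Submodule k M :=
    { carrier := {n | ∃ (f : Fin m → Al S₁) (lam : Fin m → El S),
        (∀ g r, ∑ t, zc (Al S₁) (ρ g r t) * Al.act S₁ (Q g) (f t) = f r) ∧
        (∀ r, Fl S (2 * (c₀ : ℤ) + 1) (lam r)) ∧ lam ∈ M ∧
        ∀ r, (n : Fin m → El S) r = D₁.ev S₁ hS₁ 1 (f r) + lam r}
      add_mem' := by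
        rintro a b ⟨f, lam, h1, h2, h3, h4⟩ ⟨f', lam', h1', h2', h3', h4'⟩
        refine ⟨f + f', lam + lam', fun g r => ?_, fun r => Fl.add (h2 r) (h2' r),
          M.add_mem h3 h3', fun r => ?_⟩
        · simp only [Pi.add_apply, map_add, mul_add, Finset.sum_add_distrib]
          rw [h1 g r, h1' g r]
        · change (a : Fin m → El S) r + (b : Fin m → El S) r = _
          rw [h4, h4', Pi.add_apply, Pi.add_apply, map_add]
          ring
      zero_mem' := by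
        refine ⟨0, 0, fun g r => by simp, fun r => Fl.zero _, M.zero_mem, fun r => ?_⟩
        change (0 : El S) = _
        simp
      smul_mem' := by
        rintro c a ⟨f, lam, h1, h2, h3, h4⟩
        refine ⟨fun r => Al.cst S₁ (C c) * f r, c • lam, fun g r => ?_, fun r => ?_,
          M.smul_mem c h3, fun r => ?_⟩
        · have h5 : ∀ t, zc (Al S₁) (ρ g r t) * Al.act S₁ (Q g) (Al.cst S₁ (C c) * f t) =
              Al.cst S₁ (C c) * (zc (Al S₁) (ρ g r t) * Al.act S₁ (Q g) (f t)) := by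
            intro t
            rw [map_mul, Al.act_cst]
            ring
          rw [Finset.sum_congr rfl fun t _ => h5 t, ← Finset.mul_sum, h1 g r]
        · have h6 := Fl.oE_mul (M := 0) (c := (HahnSeries.C c : LaurentSeries k)) (fun n hn => by
            rw [HahnSeries.C_apply, HahnSeries.coeff_single_of_ne (by omega)]) (h2 r)
          rw [zero_add] at h6
          exact h6
        · change c • (a : Fin m → El S) r = _
          rw [h4, map_mul, GD.ev_cst, Pi.smul_apply, hsm, hsm, mul_add]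
          congr 2
          change _ = oE S (AI.zinv k (C c))
          rw [AI.zinv_C] }
  have hNF : ∀ a ∈ N, F a ∈ N := by
    rintro a ⟨f, lam, h1', h2, h3, h4⟩
    refine ⟨fun r => f r ^ p, fun r => lam r ^ p, fun g r => ?_, fun r => ?_, ?_, fun r => ?_⟩
    · rw [L5_pow h1, h1' g r]
    · obtain ⟨n, hn⟩ : ∃ n, p = n + 1 := ⟨p - 1, (Nat.sub_add_cancel hp.out.one_lt.le).symm⟩
      rw [hn]
      exact L5_Fl_pow hc1 (by omega) (h2 r) n
    · exact (F ⟨lam, h3⟩).2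
    · rw [hF, h4, add_pow_p h0, map_pow]
  have hT : N ⊔ Submodule.span k
      ((Finset.univ.image (fun a => (⟨τ a, hτ a⟩ : M)) : Finset M) : Set M) = ⊤ := by
    rw [eq_top_iff]
    rintro ⟨v, hv⟩ -
    obtain ⟨f, lam, x, h1', h2, h3, h4⟩ := hfin v hv
    rw [Submodule.mem_sup]
    have hn : (fun r => D₁.ev S₁ hS₁ 1 (f r) + lam r) ∈ M := by
      have h5 : (fun r => D₁.ev S₁ hS₁ 1 (f r) + lam r) = v - ∑ a, x a • τ a := by
        funext r
        rw [Pi.sub_apply, h4, Finset.sum_apply]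
        simp only [Pi.smul_apply, hsm]
        ring
      rw [h5]
      exact M.sub_mem hv (M.sum_mem fun a _ => M.smul_mem _ (hτ a))
    refine ⟨⟨_, hn⟩, ⟨f, lam, h1', h2, h3, fun r => rfl⟩, ∑ a, x a • ⟨τ a, hτ a⟩, ?_, ?_⟩
    · refine Submodule.sum_mem _ fun a _ => Submodule.smul_mem _ _ (Submodule.subset_span ?_)
      exact Finset.mem_coe.2 (Finset.mem_image_of_mem _ (Finset.mem_univ a))
    · refine Subtype.ext (funext fun r => ?_)
      rw [Submodule.coe_add, Submodule.coe_sum, Pi.add_apply, Finset.sum_apply]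
      change D₁.ev S₁ hS₁ 1 (f r) + lam r + _ = v r
      rw [h4]
      congr 1
  obtain ⟨n, hn, v, hv⟩ := lang F hadd hsmul N hNF _ hT ⟨w, hw⟩
  obtain ⟨f, lam, h1', h2, h3, h4⟩ := hn
  have hsmall := fun r => small_AS S hc1 (N₀ := 2 * (c₀ : ℤ) + 1) (by omega) (lam r) (h2 r)
  choose lam' hl1 hl2 using hsmall
  have hlam : lam' ∈ M := by
    intro u r
    refine small_AS_unique S hc1 _ _ ?_ (Fl.mono (hl1 r) (by omega)) ?_
    · refine Fl.sum _ fun t _ => ?_
      rw [zc]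
      exact L5_Fl_nat (Fl.mono (Fl.act hc2 u (hl1 t)) (by omega)) _
    · rw [← L5_pow h0, ← Finset.sum_sub_distrib, hl2 r, ← h3 u r]
      refine Finset.sum_congr rfl fun t _ => ?_
      rw [← mul_sub, ← map_sub, hl2 t]
  refine ⟨f, fun r => (v : Fin m → El S) r + lam' r, h1', fun u r => ?_, fun r => ?_⟩
  · exact M.add_mem v.2 hlam u r
  · have h5 := congrFun (congrArg Subtype.val hv) r
    change w r = (n : Fin m → El S) r + ((v : Fin m → El S) r ^ p - (v : Fin m → El S) r) at h5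
    rw [h5, h4, add_pow_p h0, ← hl2 r]
    ring

end

end Pool.Agent.MP_1c8e06_ag.AJ
end

section

set_option autoImplicit false

open Polynomial
open scoped Classical

namespace Pool.Agent.MP_1c8e06_ag.AJ

noncomputable section

/-!
# Task R7: from covers to the frozen formula (assembly)

`isField_El`, `conn_of_conn'` (`zeE_injective`), `exists_FD`, `inertia_affine`, `exists_VR`, `exists_place`, with `e := I.ρ.symm`.
-/

theorem realised_of_RE {p : ℕ} [hp : Fact p.Prime] {k : Type} [Field k] [IsAlgClosed k]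
    [CharP k p] {P : Type} [Group P] [Fintype P] (hP : IsPGroup p P) {G : Type} [Group G]
    [Fintype G] (i : P →* G) (h : RE p k i ⊤) : AI.Realised k G i.range := by
  obtain ⟨S, hT, D, hD⟩ := h
  have hF := isField_El hP S hT
  obtain ⟨L, iF, iA, iD, iG, ⟨I⟩⟩ := exists_FD D hF (conn_of_conn' hF (zeE_injective S) D ⊤ hD)
  obtain ⟨W⟩ := exists_VR hP S hT
  exact ⟨L, iF, iA, iD, iG, I.ρ.symm, inertia_affine D I, exists_place D hF W I⟩

end

end Pool.Agent.MP_1c8e06_ag.AJ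
end
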