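import Pool.Agent.Lib.MP_1c8e06_ag.Mg.G021

section

set_option autoImplicit false

open Polynomial

namespace Pool.Agent.MP_1c8e06_ag.AK

noncomputable section

/-!
# Task D2b: local analysis at an unramified embedding

Let `ε : N → k((t))` with `ε ∘ ψ = ` identity on constants and `(ε (ψ X) - C a).order = 1`.
Proofs.
* `OO_eps`: `ε` maps `OO ψ` to power series (coefficients at negative exponents vanish): `ε (ψ f)`, `f ∈ k[X]`, is a power series (`ε (ψ X) = C a + (order 1)`), so `ε b` is integral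
  over the ring of power series in `k((t))`, which is integrally closed (or directly: if `ε b` has order `v < 0` then in an integral equation `b ^ n + ∑ f_i b ^ i = 0` the leading term
  has order `n v`, smaller than all others).
* `exists_mult`: let `x ∈ N` with `0 ≤ (ε x).order` or `x = 0`.  There is `h ∈ OO ψ` with `(ε h).coeff 0 ≠ 0` and `h * x ∈ OO ψ`.  Proof: let `𝔪 := {b ∈ OO ψ | (ε b).coeff 0 = 0}`, a prime ideal of the
  Dedekind domain `OO ψ` (kernel of the ring homomorphism `b ↦ (ε b).coeff 0` to `k`), nonzero (it contains `ψ (X - C a)`).  Its localization `O_𝔪 ⊂ N` is a discrete valuation ring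
  (`IsLocalization.AtPrime.isDiscreteValuationRing_of_dedekind_domain`, `OO_dedekind`), in particular a valuation ring of the field `N` (`OO_frac`): `x ∈ O_𝔪` or (`x ≠ 0` and) `x⁻¹ ∈ O_𝔪` is a nonunit.  In the second case
  `x⁻¹ = b / h` with `b ∈ 𝔪`, `h ∈ OO ψ ∖ 𝔪`, so `(ε x⁻¹).order = (ε b).order - 0 > 0` and `(ε x).order < 0`: contradiction.  So `x = b / h` with `h ∉ 𝔪`.
* `inertia_trivial`: let `σ ∈ Γ` with `(ε (b - σ • b)).coeff 0 = 0` for all `b ∈ OO ψ`.  Then `σ = 1`.  Proof: otherwise there is `f ∈ OO ψ` with `σ • f ≠ f` (`OO_frac`, faithful).  Choose such `f` with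
  `m₀ := (ε (f - σ • f)).order` minimal (orders are `≥ 1` by hypothesis and `OO_eps`: well-founded).  `c := (ε f).coeff 0`; `x := (f - ψ (C c)) / ψ (X - C a)` has `ε x` of order `≥ 0` (or `x = 0`), as
  `ε (f - c)` has order `≥ 1` and `ε (ψ (X - C a))` order `1`.  `exists_mult`: `h`, `f' := h * x ∈ OO ψ`, so `h (f - c) = (X - a) f'`.  Apply `1 - σ`:
  `h (f - σ f) + (h - σ h) (σ f - c) = (X - a) (f' - σ f')`.  Orders (of the images under `ε`): `h (f - σ f)`: exactly `m₀` (`ε h` has order `0`); `h - σ h`: zero or order `≥ m₀`;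
  `σ f - c = (f - c) - (f - σ f)`: order `≥ 1`; `f' - σ f'`: zero or order `≥ m₀`.  So the left side has order `m₀` and the right side is `0` or has order `≥ m₀ + 1`: contradiction.
-/

/-- Order at least `m` (or zero). -/
private def D2b_ge {k : Type} [Field k] (m : ℤ) (f : LaurentSeries k) : Prop :=
  ∀ n : ℤ, n < m → f.coeff n = 0

private theorem D2b_ge_iff {k : Type} [Field k] {m : ℤ} {f : LaurentSeries k} (hf : f ≠ 0) :
    D2b_ge m f ↔ m ≤ f.order := by
  constructor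
  · intro h
    by_contra hlt
    exact (HahnSeries.coeff_order_eq_zero.not.2 hf) (h _ (not_le.1 hlt))
  · intro h n hn
    exact HahnSeries.coeff_eq_zero_of_lt_order (lt_of_lt_of_le hn h)

private theorem D2b_ge_mul {k : Type} [Field k] {m m' : ℤ} {f g : LaurentSeries k}
    (hf : D2b_ge m f) (hg : D2b_ge m' g) : D2b_ge (m + m') (f * g) := by
  by_cases hf0 : f = 0
  · intro n _
    rw [hf0, zero_mul, HahnSeries.coeff_zero]
  by_cases hg0 : g = 0
  · intro n _
    rw [hg0, mul_zero, HahnSeries.coeff_zero]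
  rw [D2b_ge_iff (mul_ne_zero hf0 hg0), order_mul_L hf0 hg0]
  exact add_le_add ((D2b_ge_iff hf0).1 hf) ((D2b_ge_iff hg0).1 hg)

private theorem D2b_ge_sub {k : Type} [Field k] {m : ℤ} {f g : LaurentSeries k}
    (hf : D2b_ge m f) (hg : D2b_ge m g) : D2b_ge m (f - g) := by
  intro n hn
  rw [HahnSeries.coeff_sub, hf n hn, hg n hn, sub_zero]

private theorem D2b_ge_C {k : Type} [Field k] (c : k) :
    D2b_ge 0 (HahnSeries.C c : LaurentSeries k) := by
  intro n hn
  rw [HahnSeries.C_apply, HahnSeries.coeff_single_of_ne hn.ne]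

private theorem D2b_ps {k : Type} [Field k] {f : LaurentSeries k} (hf : D2b_ge 0 f) :
    ∃ u : PowerSeries k, HahnSeries.ofPowerSeries ℤ k u = f := by
  refine ⟨PowerSeries.mk fun n => f.coeff n, ?_⟩
  ext n
  rw [PowerSeries.coeff_coe]
  split_ifs with h
  · exact (hf n h).symm
  · rw [PowerSeries.coeff_mk]
    congr 1
    exact Int.natAbs_of_nonneg (not_lt.1 h)

private theorem D2b_ofPS {k : Type} [Field k] (u : PowerSeries k) :
    D2b_ge 0 (HahnSeries.ofPowerSeries ℤ k u) := by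
  intro n hn
  rw [PowerSeries.coeff_coe, if_pos hn]

private theorem D2b_coeff_zero {k : Type} [Field k] (u : PowerSeries k) :
    (HahnSeries.ofPowerSeries ℤ k u).coeff 0 = PowerSeries.constantCoeff u := by
  rw [PowerSeries.coeff_coe, if_neg (lt_irrefl _)]
  simp

private theorem D2b_mul_zero {k : Type} [Field k] {f g : LaurentSeries k} (hf : D2b_ge 0 f)
    (hg : D2b_ge 0 g) : (f * g).coeff 0 = f.coeff 0 * g.coeff 0 := by
  obtain ⟨u, rfl⟩ := D2b_ps hf
  obtain ⟨v, rfl⟩ := D2b_ps hg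
  rw [← map_mul, D2b_coeff_zero, D2b_coeff_zero, D2b_coeff_zero, map_mul]

private theorem D2b_ge_one {k : Type} [Field k] {f : LaurentSeries k} (hf : D2b_ge 0 f)
    (h0 : f.coeff 0 = 0) : D2b_ge 1 f := by
  intro n hn
  rcases lt_or_eq_of_le (Int.le_sub_one_of_lt hn) with h | h
  · exact hf n (by omega)
  · have h1 : n = 0 := by omega
    rw [h1, h0]

theorem OO_eps {k N : Type} [Field k] [Field N] {ψ : RatFunc k →+* N} (a : k)
    (ε : N →+* LaurentSeries k) (hC : ∀ c : k, ε (ψ (RatFunc.C c)) = HahnSeries.C c)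
    (hX : (ε (ψ RatFunc.X) - HahnSeries.C a).order = 1) {b : N} (hb : b ∈ OO ψ) (n : ℤ)
    (hn : n < 0) : (ε b).coeff n = 0 := by
  have h1 : D2b_ge 0 (ε (ψ RatFunc.X)) := by
    have h2 : D2b_ge 0 (ε (ψ RatFunc.X) - HahnSeries.C a) := by
      intro m hm
      exact HahnSeries.coeff_eq_zero_of_lt_order (by rw [hX]; omega)
    intro m hm
    have h3 := h2 m hm
    rw [HahnSeries.coeff_sub, D2b_ge_C a m hm, sub_zero] at h3
    exact h3
  obtain ⟨u, hu⟩ := D2b_ps h1
  have h4 : (ε.comp (ψ.comp (algebraMap k[X] (RatFunc k)))) =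
      (algebraMap (PowerSeries k) (LaurentSeries k)).comp
        (Polynomial.eval₂RingHom (PowerSeries.C : k →+* PowerSeries k) u) := by
    refine Polynomial.ringHom_ext (fun c => ?_) ?_
    · simp only [RingHom.comp_apply, RatFunc.algebraMap_C, Polynomial.coe_eval₂RingHom,
        Polynomial.eval₂_C]
      rw [hC]
      exact (HahnSeries.ofPowerSeries_C c).symm
    · simp only [RingHom.comp_apply, RatFunc.algebraMap_X, Polynomial.coe_eval₂RingHom,
        Polynomial.eval₂_X]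
      exact hu.symm
  rw [mem_OO] at hb
  obtain ⟨q, hq, hqb⟩ := hb
  have h5 : IsIntegral (PowerSeries k) (ε b) := by
    refine ⟨q.map (Polynomial.eval₂RingHom (PowerSeries.C : k →+* PowerSeries k) u), hq.map _, ?_⟩
    rw [Polynomial.eval₂_map, ← h4, ← Polynomial.hom_eval₂, hqb, map_zero]
  obtain ⟨y, hy⟩ := IsIntegrallyClosed.isIntegral_iff.1 h5
  rw [← hy]
  exact D2b_ofPS y n hn

/-- The constant coefficient on `OO ψ`. -/
private def D2b_chi {k N : Type} [Field k] [Field N] {ψ : RatFunc k →+* N}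
    (ε : N →+* LaurentSeries k) (hε : ∀ b ∈ OO ψ, D2b_ge 0 (ε b)) : OO ψ →+* k where
  toFun b := (ε (b : N)).coeff 0
  map_one' := by
    rw [Subring.coe_one, map_one, HahnSeries.coeff_one, if_pos rfl]
  map_mul' b c := by
    rw [Subring.coe_mul, map_mul, D2b_mul_zero (hε _ b.2) (hε _ c.2)]
  map_zero' := by
    rw [Subring.coe_zero, map_zero, HahnSeries.coeff_zero]
  map_add' b c := by
    rw [Subring.coe_add, map_add, HahnSeries.coeff_add]

private theorem D2b_chi_apply {k N : Type} [Field k] [Field N] {ψ : RatFunc k →+* N}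
    (ε : N →+* LaurentSeries k) (hε : ∀ b ∈ OO ψ, D2b_ge 0 (ε b)) (b : OO ψ) :
    D2b_chi ε hε b = (ε (b : N)).coeff 0 := rfl

private theorem D2b_pi {k N : Type} [Field k] [Field N] {ψ : RatFunc k →+* N} (a : k)
    (ε : N →+* LaurentSeries k) (hC : ∀ c : k, ε (ψ (RatFunc.C c)) = HahnSeries.C c) :
    ε (ψ (algebraMap k[X] (RatFunc k) (X - C a))) = ε (ψ RatFunc.X) - HahnSeries.C a := by
  rw [map_sub, RatFunc.algebraMap_X, RatFunc.algebraMap_C, map_sub, map_sub, hC]

theorem exists_mult {k N Γ : Type} [Field k] [Field N] [Group Γ] [Finite Γ]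
    [MulSemiringAction Γ N] {ψ : RatFunc k →+* N} (h : IsG ψ Γ ⊥) (a : k)
    (ε : N →+* LaurentSeries k) (hC : ∀ c : k, ε (ψ (RatFunc.C c)) = HahnSeries.C c)
    (hX : (ε (ψ RatFunc.X) - HahnSeries.C a).order = 1) (x : N)
    (hx : ∀ n : ℤ, n < 0 → (ε x).coeff n = 0) :
    ∃ b ∈ OO ψ, (ε b).coeff 0 ≠ 0 ∧ b * x ∈ OO ψ := by
  have hε : ∀ b ∈ OO ψ, D2b_ge 0 (ε b) := fun b hb => OO_eps a ε hC hX hb
  have hD : IsDedekindDomain (OO ψ) := OO_dedekind h
  let 𝔪 : Ideal (OO ψ) := RingHom.ker (D2b_chi ε hε)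
  have hm : ∀ b : OO ψ, b ∈ 𝔪 ↔ (ε (b : N)).coeff 0 = 0 := by
    intro b
    rw [RingHom.mem_ker, D2b_chi_apply]
  have hprime : 𝔪.IsPrime := RingHom.ker_isPrime _
  have hbot : 𝔪 ≠ ⊥ := by
    intro hb
    have h1 : (⟨ψ (algebraMap k[X] (RatFunc k) (X - C a)), OO_alg ψ _⟩ : OO ψ) ∈ 𝔪 := by
      rw [hm]
      change (ε (ψ (algebraMap k[X] (RatFunc k) (X - C a)))).coeff 0 = 0
      rw [D2b_pi a ε hC]
      exact HahnSeries.coeff_eq_zero_of_lt_order (by rw [hX]; exact one_pos)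
    rw [hb, Ideal.mem_bot] at h1
    have h2 : ψ (algebraMap k[X] (RatFunc k) (X - C a)) = 0 := congrArg Subtype.val h1
    have h3 := D2b_pi a ε hC
    rw [h2, map_zero] at h3
    rw [← h3, HahnSeries.order_zero] at hX
    exact absurd hX (by norm_num)
  have hdvr : IsDiscreteValuationRing (Localization.AtPrime 𝔪) :=
    IsLocalization.AtPrime.isDiscreteValuationRing_of_dedekind_domain (OO ψ) hbot _
  have hval : ValuationRing (Localization.AtPrime 𝔪) := inferInstance
  have hinj : Function.Injective (algebraMap (OO ψ) (Localization.AtPrime 𝔪)) :=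
    IsLocalization.injective _ 𝔪.primeCompl_le_nonZeroDivisors
  obtain ⟨a₀, ha₀, b₀, hb₀, hb0, hab⟩ := OO_frac h x
  have key : ∀ (u v : OO ψ) (c : Localization.AtPrime 𝔪),
      algebraMap (OO ψ) (Localization.AtPrime 𝔪) u * c = algebraMap (OO ψ) _ v →
      ∃ d s : OO ψ, s ∉ 𝔪 ∧ (u : N) * d = v * s := by
    intro u v c hc
    obtain ⟨d, s, rfl⟩ := IsLocalization.exists_mk'_eq 𝔪.primeCompl c
    refine ⟨d, s, s.2, ?_⟩
    have h1 : algebraMap (OO ψ) (Localization.AtPrime 𝔪) (u * d) =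
        algebraMap (OO ψ) (Localization.AtPrime 𝔪) (v * s) := by
      rw [map_mul, map_mul, ← hc, mul_assoc, IsLocalization.mk'_spec]
    have h2 := congrArg Subtype.val (hinj h1)
    exact h2
  rcases ValuationRing.cond (algebraMap (OO ψ) (Localization.AtPrime 𝔪) ⟨a₀, ha₀⟩)
    (algebraMap (OO ψ) (Localization.AtPrime 𝔪) ⟨b₀, hb₀⟩) with ⟨c, hc | hc⟩
  · obtain ⟨d, s, hs, hds⟩ := key _ _ c hc
    change a₀ * (d : N) = b₀ * s at hds
    have h1 : (d : N) * x = s := by
      have h2 : b₀ * ((d : N) * x) = b₀ * s := by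
        rw [← hds, ← hab]
        ring
      exact mul_left_cancel₀ hb0 h2
    by_cases hd : d ∈ 𝔪
    · exfalso
      apply hs
      rw [hm] at hd ⊢
      rw [← h1, map_mul, D2b_mul_zero (hε _ d.2) hx, hd, zero_mul]
    · refine ⟨d, d.2, ?_, ?_⟩
      · rw [hm] at hd
        exact hd
      · rw [h1]
        exact s.2
  · obtain ⟨d, s, hs, hds⟩ := key _ _ c hc
    change b₀ * (d : N) = a₀ * s at hds
    have h1 : (s : N) * x = d := by
      have h2 : b₀ * ((s : N) * x) = b₀ * d := by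
        rw [hds, ← hab]
        ring
      exact mul_left_cancel₀ hb0 h2
    refine ⟨s, s.2, ?_, ?_⟩
    · rw [hm] at hs
      exact hs
    · rw [h1]
      exact d.2

theorem inertia_trivial {k N Γ : Type} [Field k] [Field N] [Group Γ] [Finite Γ]
    [MulSemiringAction Γ N] {ψ : RatFunc k →+* N} (h : IsG ψ Γ ⊥) (a : k)
    (ε : N →+* LaurentSeries k) (hC : ∀ c : k, ε (ψ (RatFunc.C c)) = HahnSeries.C c)
    (hX : (ε (ψ RatFunc.X) - HahnSeries.C a).order = 1) (σ : Γ)
    (hσ : ∀ b ∈ OO ψ, (ε (b - σ • b)).coeff 0 = 0) : σ = 1 := by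
  classical
  have hε : ∀ b ∈ OO ψ, D2b_ge 0 (ε b) := fun b hb => OO_eps a ε hC hX hb
  by_contra hne
  -- an element which is moved
  have hex : ∃ f ∈ OO ψ, f - σ • f ≠ 0 := by
    by_contra hno
    push Not at hno
    apply hne
    rw [← Subgroup.mem_bot, ← h.ker]
    intro x
    obtain ⟨a₀, ha₀, b₀, hb₀, hb0, hab⟩ := OO_frac h x
    have h1 : σ • a₀ = a₀ := (sub_eq_zero.1 (hno a₀ ha₀)).symm
    have h2 : σ • b₀ = b₀ := (sub_eq_zero.1 (hno b₀ hb₀)).symm
    have h3 : (σ • x) * b₀ = x * b₀ := by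
      conv_lhs => rw [← h2, ← smul_mul', hab, h1, ← hab]
    exact mul_right_cancel₀ hb0 h3
  have hex2 : ∃ n : ℕ, ∃ f ∈ OO ψ, f - σ • f ≠ 0 ∧ (ε (f - σ • f)).order = n := by
    obtain ⟨f, hf, hf0⟩ := hex
    have h1 : 0 ≤ (ε (f - σ • f)).order :=
      (D2b_ge_iff ((map_ne_zero ε).2 hf0)).1 (hε _ ((OO ψ).sub_mem hf (OO_smul h σ hf)))
    exact ⟨(ε (f - σ • f)).order.toNat, f, hf, hf0, (Int.toNat_of_nonneg h1).symm⟩
  obtain ⟨f, hf, hf0, hfo⟩ := Nat.find_spec hex2
  set m₀ := Nat.find hex2 with hm₀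
  have hmin : ∀ g ∈ OO ψ, D2b_ge (m₀ : ℤ) (ε (g - σ • g)) := by
    intro g hg
    by_cases hg0 : g - σ • g = 0
    · intro n _
      rw [hg0, map_zero, HahnSeries.coeff_zero]
    · have h1 : 0 ≤ (ε (g - σ • g)).order :=
        (D2b_ge_iff ((map_ne_zero ε).2 hg0)).1 (hε _ ((OO ψ).sub_mem hg (OO_smul h σ hg)))
      rw [D2b_ge_iff ((map_ne_zero ε).2 hg0)]
      have h2 : m₀ ≤ (ε (g - σ • g)).order.toNat :=
        Nat.find_min' hex2 ⟨g, hg, hg0, (Int.toNat_of_nonneg h1).symm⟩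
      omega
  -- the quotient
  set π : N := ψ (algebraMap k[X] (RatFunc k) (X - C a)) with hπ
  have hεπ : ε π = ε (ψ RatFunc.X) - HahnSeries.C a := D2b_pi a ε hC
  have hπo : (ε π).order = 1 := by rw [hεπ, hX]
  have hεπ0 : ε π ≠ 0 := by
    intro h0
    rw [h0, HahnSeries.order_zero] at hπo
    exact absurd hπo (by norm_num)
  have hπ0 : π ≠ 0 := (map_ne_zero ε).1 hεπ0
  set c : k := (ε f).coeff 0 with hc
  set fc : N := f - ψ (RatFunc.C c) with hfc
  have hεfc : ε fc = ε f - HahnSeries.C c := by rw [hfc, map_sub, hC]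
  have hge1 : D2b_ge 1 (ε fc) := by
    apply D2b_ge_one
    · rw [hεfc]
      exact D2b_ge_sub (hε f hf) (D2b_ge_C c)
    · rw [hεfc, HahnSeries.coeff_sub, HahnSeries.C_apply, HahnSeries.coeff_single_same, hc, sub_self]
  have hx : D2b_ge 0 (ε (fc / π)) := by
    by_cases h0 : fc = 0
    · intro n _
      rw [h0, zero_div, map_zero, HahnSeries.coeff_zero]
    · have h1 : ε (fc / π) ≠ 0 := (map_ne_zero ε).2 (div_ne_zero h0 hπ0)
      rw [D2b_ge_iff h1]
      have h2 : ε fc = ε (fc / π) * ε π := by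
        rw [← map_mul, div_mul_cancel₀ _ hπ0]
      have h3 := (D2b_ge_iff ((map_ne_zero ε).2 h0)).1 hge1
      rw [h2, order_mul_L h1 hεπ0, hπo] at h3
      omega
  obtain ⟨b, hb, hb0, hbx⟩ := exists_mult h a ε hC hX (fc / π) hx
  set f' := b * (fc / π) with hf'
  have e1 : b * fc = π * f' := by
    rw [hf']
    field_simp
  have e2 : (σ • b) * (σ • fc) = π * (σ • f') := by
    rw [← smul_mul', e1, smul_mul', hπ, h.smul_ψ]
  have e3 : σ • fc = fc - (f - σ • f) := by
    rw [hfc, smul_sub, h.smul_ψ]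
    ring
  have e4 : b * (f - σ • f) + (b - σ • b) * (σ • fc) = π * (f' - σ • f') := by
    rw [mul_sub π, ← e1, ← e2, e3]
    ring
  have e5 := congrArg (fun z => (ε z).coeff (m₀ : ℤ)) e4
  simp only [map_add, map_mul, HahnSeries.coeff_add] at e5
  -- the right side
  have r1 : (ε π * ε (f' - σ • f')).coeff (m₀ : ℤ) = 0 := by
    have h1 : D2b_ge 1 (ε π) := (D2b_ge_iff hεπ0).2 hπo.ge
    exact D2b_ge_mul h1 (hmin f' hbx) _ (by omega)
  have r2 : (ε (b - σ • b) * ε (σ • fc)).coeff (m₀ : ℤ) = 0 := by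
    have h1 : D2b_ge 1 (ε (σ • fc)) := by
      rw [e3, map_sub]
      exact D2b_ge_sub hge1 (D2b_ge_one (hε _ ((OO ψ).sub_mem hf (OO_smul h σ hf))) (hσ f hf))
    exact D2b_ge_mul (hmin b hb) h1 _ (by omega)
  rw [r1, r2, add_zero] at e5
  have hεb0 : ε b ≠ 0 := by
    intro h0
    rw [h0, HahnSeries.coeff_zero] at hb0
    exact hb0 rfl
  have hεf0 : ε (f - σ • f) ≠ 0 := (map_ne_zero ε).2 hf0
  have hbo : (ε b).order = 0 := by
    apply le_antisymm
    · exact HahnSeries.order_le_of_coeff_ne_zero hb0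
    · exact (D2b_ge_iff hεb0).1 (hε b hb)
  have h7 : (ε b * ε (f - σ • f)).order = m₀ := by
    rw [order_mul_L hεb0 hεf0, hbo, hfo, zero_add]
  rw [← h7] at e5
  exact (HahnSeries.coeff_order_eq_zero.not.2 (mul_ne_zero hεb0 hεf0)) e5

end

end Pool.Agent.MP_1c8e06_ag.AK
end

section

set_option autoImplicit false

open Polynomial

namespace Pool.Agent.MP_1c8e06_ag.AK

noncomputable section

/-!
# Task D2c: the covering is etale

Proof of `exists_sep`.  Let `O := OO ψ`, `σ ≠ 1`, `I` the ideal of `O` generated by the elements `b - σ • b`, `b ∈ O`.  Suppose `I ≠ ⊤`, `I ≤ 𝔪'` maximal.  `O` is integral over the image of `k[X]`, so `𝔪' ∩ k[X]` is maximal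
(`Ideal.isMaximal_comap_of_isIntegral_of_isMaximal`), `= (X - C a)` (`k` algebraically closed).  `Unr`: `ε` for `a`.  `𝔪 := {b ∈ O | (ε b).coeff 0 = 0}` is a prime ideal (kernel of a ring homomorphism `O → k`, by `OO_eps`), and
`𝔪 ∩ k[X] = (X - C a)` too.  `Γ` acts on `O` (`OO_smul`) with invariants `k[X]` (`OO_fixed`): `Algebra.IsInvariant k[X] O Γ`, and `Algebra.IsInvariant.exists_smul_of_under_eq`: `𝔪' = ρ • 𝔪` for some `ρ ∈ Γ`.  For all `b ∈ O`:
`ρ b - σ ρ b ∈ 𝔪' = ρ 𝔪`, so `b - (ρ⁻¹ σ ρ) b ∈ 𝔪`.  `inertia_trivial`: `ρ⁻¹ σ ρ = 1`, `σ = 1`: contradiction.  So `1 ∈ I`: `1 = ∑ u_i (v_i - σ • v_i)` (`Ideal.mem_span_range_iff_exists_fun`, or span induction).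
-/

open scoped Pointwise

private theorem D2c_ps {k : Type} [Field k] (x : LaurentSeries k) (hx : ∀ n : ℤ, n < 0 → x.coeff n = 0) :
    ∃ f : PowerSeries k, (f : LaurentSeries k) = x := by
  refine ⟨PowerSeries.mk fun n => x.coeff n, ?_⟩
  ext n
  rw [PowerSeries.coeff_coe]
  split_ifs with h
  · exact (hx n h).symm
  · rw [PowerSeries.coeff_mk, Int.natAbs_of_nonneg (by omega)]

private theorem D2c_mul {k : Type} [Field k] (x y : LaurentSeries k)
    (hx : ∀ n : ℤ, n < 0 → x.coeff n = 0) (hy : ∀ n : ℤ, n < 0 → y.coeff n = 0) :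
    (x * y).coeff 0 = x.coeff 0 * y.coeff 0 := by
  obtain ⟨f, rfl⟩ := D2c_ps x hx
  obtain ⟨g, rfl⟩ := D2c_ps y hy
  rw [← PowerSeries.coe_mul, PowerSeries.coeff_coe, PowerSeries.coeff_coe, PowerSeries.coeff_coe]
  simp

theorem exists_sep {k N Γ : Type} [Field k] [IsAlgClosed k] [Field N] [Group Γ] [Finite Γ]
    [MulSemiringAction Γ N] {ψ : RatFunc k →+* N} (h : IsG ψ Γ ⊥) (hu : Unr ψ) (σ : Γ)
    (hσ : σ ≠ 1) : ∃ (n : ℕ) (u v : Fin n → N), (∀ i, u i ∈ OO ψ) ∧ (∀ i, v i ∈ OO ψ) ∧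
      ∑ i, u i * (v i - σ • v i) = 1 := by
  classical
  let D : OO ψ → OO ψ := fun b => ⟨(b : N) - σ • (b : N), (OO ψ).sub_mem b.2 (OO_smul h σ b.2)⟩
  let I : Ideal (OO ψ) := Ideal.span (Set.range D)
  by_cases hI : I = ⊤
  · have h1 : (1 : OO ψ) ∈ Submodule.span (OO ψ) (Set.range D) := by
      have : (1 : OO ψ) ∈ I := by
        rw [hI]
        exact Submodule.mem_top
      exact this
    rw [Submodule.mem_span_set'] at h1
    obtain ⟨n, f, g, hfg⟩ := h1
    have h2 : ∀ i, ∃ b : OO ψ, D b = (g i : OO ψ) := fun i => (g i).2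
    choose b hb using h2
    refine ⟨n, fun i => (f i : N), fun i => (b i : N), fun i => (f i).2, fun i => (b i).2, ?_⟩
    have h3 := congrArg (fun x : OO ψ => (x : N)) hfg
    simp only [OneMemClass.coe_one] at h3
    rw [← h3]
    have h4 : ((∑ i, f i • (g i : OO ψ) : OO ψ) : N) = ∑ i, (f i : N) * ((g i : OO ψ) : N) := by
      rw [AddSubmonoidClass.coe_finsetSum]
      rfl
    rw [h4]
    refine Finset.sum_congr rfl fun i _ => ?_
    rw [← hb i]
  · exfalso
    obtain ⟨M, hM, hIM⟩ := Ideal.exists_le_maximal I hI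
    let φ : k[X] →+* OO ψ := (ψ.comp (algebraMap k[X] (RatFunc k))).codRestrict (OO ψ) (OO_alg ψ)
    have hφ : ∀ f, ((φ f : OO ψ) : N) = ψ (algebraMap k[X] (RatFunc k) f) := fun _ => rfl
    letI : Algebra k[X] (OO ψ) := φ.toAlgebra
    letI : MulSemiringAction Γ (OO ψ) :=
      { smul := fun γ b => ⟨γ • (b : N), OO_smul h γ b.2⟩
        one_smul := fun b => Subtype.ext (one_smul Γ (b : N))
        mul_smul := fun γ δ b => Subtype.ext (mul_smul γ δ (b : N))
        smul_zero := fun γ => Subtype.ext (smul_zero γ)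
        smul_add := fun γ a b => Subtype.ext (smul_add γ (a : N) (b : N))
        smul_one := fun γ => Subtype.ext (smul_one γ)
        smul_mul := fun γ a b => Subtype.ext (smul_mul' γ (a : N) (b : N)) }
    have hcoe : ∀ (γ : Γ) (b : OO ψ), ((γ • b : OO ψ) : N) = γ • (b : N) := fun _ _ => rfl
    haveI : SMulCommClass Γ k[X] (OO ψ) := by
      refine ⟨fun γ f b => Subtype.ext ?_⟩
      rw [hcoe, Algebra.smul_def, Algebra.smul_def]
      change γ • ((φ f : N) * (b : N)) = (φ f : N) * ((γ • b : OO ψ) : N)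
      rw [smul_mul', hcoe, hφ, h.smul_ψ]
    haveI : Algebra.IsInvariant k[X] (OO ψ) Γ := by
      refine ⟨fun b hb => ?_⟩
      obtain ⟨f, hf⟩ := OO_fixed h b.2 (fun γ => by rw [← hcoe, hb γ])
      exact ⟨f, Subtype.ext hf.symm⟩
    haveI : Algebra.IsIntegral k[X] (OO ψ) := Algebra.IsInvariant.isIntegral k[X] (OO ψ) Γ
    haveI := hM
    have hm : (M.under k[X]).IsMaximal := Ideal.isMaximal_comap_of_isIntegral_of_isMaximal M
    -- the point
    have hspan : ∀ a : k, (Ideal.span {(X - C a : k[X])} : Ideal k[X]) ≠ ⊤ := by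
      intro a ha
      rw [Ideal.span_singleton_eq_top] at ha
      exact Polynomial.not_isUnit_X_sub_C a ha
    obtain ⟨a, ha⟩ : ∃ a : k, M.under k[X] ≤ Ideal.span {(X - C a : k[X])} := by
      obtain ⟨f, hf⟩ := (IsPrincipalIdealRing.principal (M.under k[X])).principal
      have hf' : M.under k[X] = Ideal.span {f} := hf
      by_cases hf0 : f = 0
      · refine ⟨0, ?_⟩
        rw [hf', hf0, Ideal.span_singleton_zero]
        exact bot_le
      · have hd : f.degree ≠ 0 := by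
          intro hd
          apply hm.ne_top
          rw [hf', Ideal.span_singleton_eq_top]
          exact Polynomial.isUnit_iff_degree_eq_zero.mpr hd
        obtain ⟨a, ha⟩ := IsAlgClosed.exists_root f hd
        refine ⟨a, ?_⟩
        rw [hf', Ideal.span_singleton_le_span_singleton]
        exact Polynomial.dvd_iff_isRoot.mpr ha
    have hMa : M.under k[X] = Ideal.span {(X - C a : k[X])} := hm.eq_of_le (hspan a) ha
    obtain ⟨ε, hC, hX⟩ := hu a
    have heps : ∀ b : OO ψ, ∀ n : ℤ, n < 0 → (ε (b : N)).coeff n = 0 := fun b n hn =>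
      OO_eps a ε hC hX b.2 n hn
    let κ : OO ψ →+* k :=
      { toFun := fun b => (ε (b : N)).coeff 0
        map_one' := by
          rw [OneMemClass.coe_one, map_one, HahnSeries.coeff_one, if_pos rfl]
        map_mul' := fun x y => by
          rw [MulMemClass.coe_mul, map_mul]
          exact D2c_mul _ _ (heps x) (heps y)
        map_zero' := by
          rw [ZeroMemClass.coe_zero, map_zero]
          rfl
        map_add' := fun x y => by
          rw [AddMemClass.coe_add, map_add]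
          rfl }
    have hκ : ∀ b : OO ψ, κ b = (ε (b : N)).coeff 0 := fun _ => rfl
    haveI hP : (RingHom.ker κ).IsPrime := RingHom.ker_isPrime κ
    have hPa : Ideal.span {(X - C a : k[X])} = (RingHom.ker κ).under k[X] := by
      rw [← hMa]
      refine hm.eq_of_le ?_ ?_
      · exact (Ideal.IsPrime.under k[X] (RingHom.ker κ)).ne_top
      · rw [hMa, Ideal.span_singleton_le_iff_mem, Ideal.under_def, Ideal.mem_comap, RingHom.mem_ker]
        change κ (φ (X - C a)) = 0
        rw [hκ, hφ, map_sub, map_sub, map_sub, RatFunc.algebraMap_X, RatFunc.algebraMap_C, hC]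
        exact HahnSeries.coeff_eq_zero_of_lt_order (by rw [hX]; exact one_pos)
    haveI : M.IsPrime := hM.isPrime
    obtain ⟨ρ, hρ⟩ := Algebra.IsInvariant.exists_smul_of_under_eq k[X] (OO ψ) Γ (RingHom.ker κ) M
      (by rw [← hPa, hMa])
    have h5 : ρ⁻¹ * σ * ρ = 1 := by
      refine inertia_trivial h a ε hC hX _ fun b hb => ?_
      have h6 : D (ρ • (⟨b, hb⟩ : OO ψ)) ∈ M := hIM (Ideal.subset_span ⟨_, rfl⟩)
      rw [hρ, Ideal.mem_pointwise_smul_iff_inv_smul_mem, RingHom.mem_ker, hκ] at h6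
      have h7 : ((ρ⁻¹ • D (ρ • (⟨b, hb⟩ : OO ψ)) : OO ψ) : N) = b - (ρ⁻¹ * σ * ρ) • b := by
        rw [hcoe]
        change ρ⁻¹ • (ρ • b - σ • (ρ • b)) = _
        rw [smul_sub, inv_smul_smul, mul_smul, mul_smul]
      rw [h7] at h6
      exact h6
    apply hσ
    have h8 : σ = ρ * (ρ⁻¹ * σ * ρ) * ρ⁻¹ := by group
    rw [h8, h5, mul_one, mul_inv_cancel]

end

end Pool.Agent.MP_1c8e06_ag.AK
end
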