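import Pool.Agent.Lib.MP_1c8e06_ag.AI.Defs3
import Pool.Agent.Lib.MP_1c8e06_ag.AI.BA7

section

set_option autoImplicit false

open Polynomial

namespace Pool.Agent.MP_1c8e06_ag.AI

noncomputable section

/-!
# Task BA6: dual systems from coprimality

Proof.  For `h ≠ 1` : `1 = ∑_k r_k (s_k - h s_k)` (finite sum).  Put `u_k := r_k`, `v_k := s_k` and one more
pair `u_0 := - ∑_k r_k * h s_k`, `v_0 := 1`.  Then `∑ u v = 1` and `∑ u * h v = 0`.
Call this finite family `(u^h, v^h)` with index type `ι_h`.  For `k = (k_h)_h ∈ ∏_{h≠1} ι_h` put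
`u_k := ∏_h u^h_{k_h}`, `v_k := ∏_h v^h_{k_h}`.  For any `h'`:
`∑_k u_k * h' v_k = ∏_h (∑_{k ∈ ι_h} u^h_k * h' v^h_k)` (`Finset.prod_univ_sum` /
`Fintype.piFinset`), which is `1` for `h' = 1` and `0` for `h' ≠ 1` because of the factor `h = h'`.
Reindex by `Fin n`.  (Alternatively: induction over the finite set of `h ≠ 1`.)
-/
/-- The two-sided system for a single element. -/
private theorem BA6_single {S : Type} [CommRing S] (φ : S ≃+* S)
    (hS : Ideal.span (Set.range fun s : S => s - φ s) = ⊤) :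
    ∃ (ι : Type) (_ : Fintype ι) (u v : ι → S), ∑ i, u i * v i = 1 ∧ ∑ i, u i * φ (v i) = 0 := by
  classical
  have h1 : (1 : S) ∈ Ideal.span (Set.range fun s : S => s - φ s) := by
    rw [hS]; exact Submodule.mem_top
  rw [Ideal.span, Finsupp.mem_span_range_iff_exists_finsupp] at h1
  obtain ⟨c, hc⟩ := h1
  refine ⟨Option c.support, inferInstance,
    fun o => o.elim (-∑ k : c.support, c k * φ k) (fun k => c k),
    fun o => o.elim 1 (fun k => (k : S)), ?_, ?_⟩
  · rw [Fintype.sum_option]
    simp only [Option.elim]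
    rw [mul_one, neg_add_eq_sub, ← Finset.sum_sub_distrib]
    rw [← hc, Finsupp.sum, ← Finset.sum_coe_sort c.support]
    refine Finset.sum_congr rfl fun k _ => ?_
    rw [smul_eq_mul, mul_sub]
  · rw [Fintype.sum_option]
    simp only [Option.elim, map_one, mul_one]
    exact neg_add_cancel _

/-- Induction over finite sets of nontrivial elements. -/
private theorem BA6_set {S : Type} [CommRing S] {H : Type} [Group H] [Fintype H]
    (act : H →* (S ≃+* S))
    (hS : ∀ h : H, h ≠ 1 → Ideal.span (Set.range fun s : S => s - act h s) = ⊤)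
    (T : Finset H) :
    (∀ h ∈ T, h ≠ 1) → ∃ (ι : Type) (_ : Fintype ι) (u v : ι → S), ∑ i, u i * v i = 1 ∧
      ∀ h ∈ T, ∑ i, u i * act h (v i) = 0 := by
  classical
  induction T using Finset.induction_on with
  | empty =>
    intro _
    exact ⟨Unit, inferInstance, fun _ => 1, fun _ => 1, by simp, by simp⟩
  | insert a T ha ih =>
    intro hT
    obtain ⟨ι, hι, u, v, h1, h0⟩ := ih fun h hh => hT h (Finset.mem_insert_of_mem hh)
    obtain ⟨κ, hκ, u', v', h1', h0'⟩ := BA6_single (act a) (hS a (hT a (Finset.mem_insert_self a T)))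
    refine ⟨ι × κ, inferInstance, fun i => u i.1 * u' i.2, fun i => v i.1 * v' i.2, ?_, ?_⟩
    · rw [Fintype.sum_prod_type]
      have : ∀ i j, (u i * u' j) * (v i * v' j) = (u i * v i) * (u' j * v' j) := by
        intro i j; ring
      simp only [this]
      rw [← Finset.sum_mul_sum, h1, h1', mul_one]
    · intro h hh
      rw [Fintype.sum_prod_type]
      have : ∀ i j, (u i * u' j) * act h (v i * v' j)
          = (u i * act h (v i)) * (u' j * act h (v' j)) := by
        intro i j; rw [map_mul]; ring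
      simp only [this]
      rw [← Finset.sum_mul_sum]
      rcases Finset.mem_insert.1 hh with rfl | hh
      · rw [h0', mul_zero]
      · rw [h0 h hh, zero_mul]

theorem exists_dual {S : Type} [CommRing S] {H : Type} [Group H] [Fintype H]
    (act : H →* (S ≃+* S))
    (hS : ∀ h : H, h ≠ 1 → Ideal.span (Set.range fun s : S => s - act h s) = ⊤) :
    ∃ (n : ℕ) (u v : Fin n → S), ∀ (h : H) [Decidable (h = 1)],
      ∑ i, u i * act h (v i) = if h = 1 then 1 else 0 := by
  classical
  obtain ⟨ι, hι, u, v, h1, h0⟩ := BA6_set act hS (Finset.univ.filter fun h : H => h ≠ 1)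
    (fun h hh => (Finset.mem_filter.1 hh).2)
  let e := Fintype.equivFin ι
  refine ⟨Fintype.card ι, fun i => u (e.symm i), fun i => v (e.symm i), ?_⟩
  intro h inst
  have hsum : ∑ i, u (e.symm i) * act h (v (e.symm i)) = ∑ i, u i * act h (v i) :=
    Equiv.sum_comp e.symm fun i => u i * act h (v i)
  rw [hsum]
  split_ifs with hh
  · subst hh
    simpa using h1
  · exact h0 h (Finset.mem_filter.2 ⟨Finset.mem_univ _, hh⟩)

end

end Pool.Agent.MP_1c8e06_ag.AI
end

section

set_option autoImplicit false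

open Polynomial

namespace Pool.Agent.MP_1c8e06_ag.AI

noncomputable section

private theorem BA9_pow {G : Type} [Group G] (n : ℕ) [NeZero n] (b : G) (hb : b ^ n = 1)
    (x y : ZMod n) : b ^ (x + y).val = b ^ x.val * b ^ y.val := by
  rw [ZMod.val_add, ← pow_eq_pow_mod _ hb, pow_add]

private def BA9_phi {G : Type} [Group G] (n : ℕ) [NeZero n] (b : G) (hb : b ^ n = 1) :
    Multiplicative (ZMod n) →* G :=
  MonoidHom.mk' (fun x => b ^ (Multiplicative.toAdd x).val) (fun _ _ => BA9_pow n b hb _ _)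

private theorem BA9_phi_one {G : Type} [Group G] (n : ℕ) [NeZero n] (b : G) (hb : b ^ n = 1) :
    BA9_phi n b hb (Multiplicative.ofAdd 1) = b := by
  change b ^ (1 : ZMod n).val = b
  rw [ZMod.val_one_eq_one_mod, ← pow_eq_pow_mod _ hb, pow_one]

private theorem BA9_conj_pow {G : Type} [Group G] (u b : G) (n : ℕ) :
    u * b ^ n * u⁻¹ = (u * b * u⁻¹) ^ n := (conj_pow).symm

/-!
# Task BA9: the homomorphism `φ : H₀ → G`

Proof.  Put `a_i := g^(-i) a g^i` (`i : ZMod p`, well defined: `g^p = 1`; use `g ^ (i.val)`).  The `a_i`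
commute pairwise: `Commute a (g^i a g^(-i))` for all `i`, conjugate by powers of `g`.
`f(c) := ∏_{i : ZMod p} a_i ^ (c i).val` (noncommutative product of commuting elements:
`Finset.noncommProd`, or work in the commutative subgroup generated by the `a_i`; `a_i^e = 1` makes
it a homomorphism in `c`), `t := g`.  Relation: `g a_i g⁻¹ = a_{i-1}`, so
`g f(c) g⁻¹ = ∏ a_{i-1}^{c_i} = ∏ a_i^{c_{i+1}} = f(c')`.  The universal property gives `φ`.
`a g a⁻¹ ∈ range φ`: `c := δ_0 - δ_1 ∈ 𝒞`: `f(c) = a_0 a_1⁻¹ = a g⁻¹ a⁻¹ g` (`p ≥ 2` so `0 ≠ 1`), so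
`a g⁻¹ a⁻¹ = f(c) g⁻¹ ∈ range φ`, and its inverse is `a g a⁻¹`.
Kernel: suppose `p ∣ card (ker φ)`: Cauchy: an element `h ∈ ker φ` of order `p`.
`h = inl c * g₀^m`, `m < p`.  If `m = 0` then `h = inl c` has order dividing `e` (every element of `𝒞` is killed
by `e`), prime to `p`: contradiction with order `p`.  If `m ≠ 0`: `1 = φ h = f(c) g^m`, so
`g^m = f(c)⁻¹` has order dividing `e` (`f(c)^e = f(e c) = 1`) and order `p` (`orderOf g = p`,
`0 < m < p`): contradiction.
-/
theorem exists_phi {p e : ℕ} [hp : Fact p.Prime] [NeZero p] [NeZero e] (hpe : ¬ p ∣ e)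
    {G : Type} [Group G] [Fintype G] (g a : G) (hg : orderOf g = p) (ha : a ^ e = 1)
    (hcomm : ∀ i : ℕ, Commute a (g ^ i * a * (g ^ i)⁻¹))
    {H₀ : Type} [Group H₀] [Fintype H₀] (inl : Multiplicative (CC p e) →* H₀) (g₀ : H₀)
    (hH2 : ∀ h : H₀, ∃ (c : CC p e) (m : ℕ), m < p ∧ h = inl (Multiplicative.ofAdd c) * g₀ ^ m)
    (hH3 : Function.Injective (fun x : CC p e × Fin p =>
        inl (Multiplicative.ofAdd x.1) * g₀ ^ (x.2 : ℕ)))
    (hH4 : ∀ (A : Type) (_ : Group A) (f : Multiplicative (CC p e) →* A) (t : A), t ^ p = 1 →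
        (∀ c c' : CC p e, (∀ i, (c' : ZMod p → ZMod e) i = (c : ZMod p → ZMod e) (i + 1)) →
          t * f (Multiplicative.ofAdd c) * t⁻¹ = f (Multiplicative.ofAdd c')) →
        ∃ Φ : H₀ →* A, (∀ c, Φ (inl c) = f c) ∧ Φ g₀ = t) :
    ∃ φ : H₀ →* G, φ g₀ = g ∧ a * g * a⁻¹ ∈ φ.range ∧ ¬ p ∣ Nat.card φ.ker := by
  classical
  have hgp : g ^ p = 1 := by rw [← hg]; exact pow_orderOf_eq_one g
  have hγ : ∀ i j : ZMod p, g ^ (i + j).val = g ^ i.val * g ^ j.val := BA9_pow p g hgp
  have hγ0 : g ^ (0 : ZMod p).val = 1 := by rw [ZMod.val_zero, pow_zero]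
  have hγ1 : g ^ (1 : ZMod p).val = g := by
    rw [ZMod.val_one_eq_one_mod, ← pow_eq_pow_mod _ hgp, pow_one]
  -- the conjugates
  set aI : ZMod p → G := fun i => g ^ (-i).val * a * (g ^ (-i).val)⁻¹ with haI
  have haIe : ∀ i, aI i ^ e = 1 := by
    intro i
    simp only [haI]
    rw [← BA9_conj_pow, ha, mul_one, mul_inv_cancel]
  have hcm : ∀ i j, Commute (aI i) (aI j) := by
    intro i j
    have h1 := hcomm (i - j).val
    have h2 : g ^ (-j).val = g ^ (-i).val * g ^ (i - j).val := by
      rw [← hγ]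
      congr 2
      ring
    simp only [haI]
    rw [h2]
    have h3 : g ^ (-i).val * g ^ (i - j).val * a * (g ^ (-i).val * g ^ (i - j).val)⁻¹ =
        g ^ (-i).val * (g ^ (i - j).val * a * (g ^ (i - j).val)⁻¹) * (g ^ (-i).val)⁻¹ := by
      group
    rw [h3]
    exact (Commute.conj_iff (g ^ (-i).val)).2 h1
  have hpair : Pairwise fun i j => ∀ (x : Multiplicative (ZMod e)) (y : Multiplicative (ZMod e)),
      Commute (BA9_phi e (aI i) (haIe i) x) (BA9_phi e (aI j) (haIe j) y) := by
    intro i j _ x y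
    exact (hcm i j).pow_pow _ _
  set Fh : (ZMod p → Multiplicative (ZMod e)) →* G :=
    MonoidHom.noncommPiCoprod (fun i => BA9_phi e (aI i) (haIe i)) hpair with hFh
  have hF1 : ∀ i x, Fh (Pi.mulSingle i x) = BA9_phi e (aI i) (haIe i) x := by
    intro i x
    rw [hFh, MonoidHom.noncommPiCoprod_mulSingle]
  -- the shift
  set sh : (ZMod p → Multiplicative (ZMod e)) →* (ZMod p → Multiplicative (ZMod e)) :=
    { toFun := fun v i => v (i + 1)
      map_one' := rfl
      map_mul' := fun _ _ => rfl } with hsh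
  have hshift : (MulAut.conj g).toMonoidHom.comp Fh = Fh.comp sh := by
    apply (MonoidHom.noncommPiCoprodEquiv
      (N := fun _ : ZMod p => Multiplicative (ZMod e))).symm.injective
    apply Subtype.ext
    funext i
    apply MonoidHom.ext
    intro x
    change (MulAut.conj g) (Fh (Pi.mulSingle i x)) = Fh (sh (Pi.mulSingle i x))
    have h1 : sh (Pi.mulSingle i x) = Pi.mulSingle (i - 1) x := by
      funext j
      change (Pi.mulSingle i x : ZMod p → Multiplicative (ZMod e)) (j + 1) = _
      by_cases hj : j = i - 1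
      · subst hj
        rw [sub_add_cancel, Pi.mulSingle_eq_same, Pi.mulSingle_eq_same]
      · rw [Pi.mulSingle_eq_of_ne (fun h => hj (by rw [← h]; ring)), Pi.mulSingle_eq_of_ne hj]
    rw [h1, hF1, hF1, MulAut.conj_apply]
    change g * aI i ^ _ * g⁻¹ = aI (i - 1) ^ _
    rw [BA9_conj_pow]
    congr 1
    have h2 : g ^ (-(i - 1)).val = g * g ^ (-i).val := by
      have h3 := hγ 1 (-i)
      rw [hγ1] at h3
      rw [← h3]
      congr 2
      ring
    simp only [haI]
    rw [h2]
    group
  set toPi : Multiplicative (CC p e) →* (ZMod p → Multiplicative (ZMod e)) :=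
    { toFun := fun c i => Multiplicative.ofAdd
        (((Multiplicative.toAdd c : CC p e) : ZMod p → ZMod e) i)
      map_one' := rfl
      map_mul' := fun _ _ => rfl } with htoPi
  have hrel : ∀ c c' : CC p e, (∀ i, (c' : ZMod p → ZMod e) i = (c : ZMod p → ZMod e) (i + 1)) →
      g * (Fh.comp toPi) (Multiplicative.ofAdd c) * g⁻¹ =
        (Fh.comp toPi) (Multiplicative.ofAdd c') := by
    intro c c' hcc
    have h1 := DFunLike.congr_fun hshift (toPi (Multiplicative.ofAdd c))
    change g * Fh (toPi (Multiplicative.ofAdd c)) * g⁻¹ =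
      Fh (sh (toPi (Multiplicative.ofAdd c))) at h1
    change g * Fh (toPi (Multiplicative.ofAdd c)) * g⁻¹ = Fh (toPi (Multiplicative.ofAdd c'))
    rw [h1]
    congr 1
    funext i
    change Multiplicative.ofAdd ((c : ZMod p → ZMod e) (i + 1)) =
      Multiplicative.ofAdd ((c' : ZMod p → ZMod e) i)
    rw [hcc i]
  obtain ⟨φ, hφ1, hφ2⟩ := hH4 G _ (Fh.comp toPi) g hgp hrel
  have hce : ∀ c : CC p e, (Multiplicative.ofAdd c) ^ e = 1 := by
    intro c
    rw [← ofAdd_nsmul]
    have h1 : e • c = 0 := by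
      apply Subtype.ext
      funext i
      change (e • (c : ZMod p → ZMod e)) i = 0
      rw [Pi.smul_apply, nsmul_eq_mul, ZMod.natCast_self, zero_mul]
    rw [h1]
    rfl
  refine ⟨φ, hφ2, ?_, ?_⟩
  · -- the conjugate of g
    have hc0 : (fun i => (if i = 0 then 1 else 0) - (if i = 1 then 1 else 0) : ZMod p → ZMod e) ∈
        CC p e := by
      change ∑ i : ZMod p, ((if i = 0 then 1 else 0) - (if i = 1 then 1 else 0) : ZMod e) = 0
      rw [Finset.sum_sub_distrib, Finset.sum_ite_eq' , Finset.sum_ite_eq']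
      simp
    have h1 : toPi (Multiplicative.ofAdd (⟨_, hc0⟩ : CC p e)) =
        (Pi.mulSingle (0 : ZMod p) (Multiplicative.ofAdd (1 : ZMod e)) :
          ZMod p → Multiplicative (ZMod e)) *
        (Pi.mulSingle (1 : ZMod p) (Multiplicative.ofAdd (1 : ZMod e)) :
          ZMod p → Multiplicative (ZMod e))⁻¹ := by
      funext i
      change Multiplicative.ofAdd ((if i = 0 then 1 else 0) - (if i = 1 then 1 else 0) : ZMod e) =
        (Pi.mulSingle 0 (Multiplicative.ofAdd 1) : ZMod p → Multiplicative (ZMod e)) i *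
          ((Pi.mulSingle 1 (Multiplicative.ofAdd 1) : ZMod p → Multiplicative (ZMod e)) i)⁻¹
      have e1 : ∀ (r : Prop) [Decidable r], Multiplicative.ofAdd (if r then 1 else 0 : ZMod e) =
          if r then Multiplicative.ofAdd 1 else 1 := by
        intro r _
        split_ifs <;> rfl
      rw [ofAdd_sub, div_eq_mul_inv, e1, e1, Pi.mulSingle_apply, Pi.mulSingle_apply]
    have h2 : φ (inl (Multiplicative.ofAdd (⟨_, hc0⟩ : CC p e))) = a * g⁻¹ * a⁻¹ * g := by
      rw [hφ1]
      change Fh (toPi _) = _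
      rw [h1, map_mul, map_inv, hF1, hF1, BA9_phi_one, BA9_phi_one]
      have h3 : g ^ (-(1 : ZMod p)).val = g⁻¹ := by
        have h4 := hγ 1 (-1)
        rw [add_neg_cancel, hγ0, hγ1] at h4
        exact (eq_inv_of_mul_eq_one_right h4.symm)
      simp only [haI]
      rw [neg_zero, hγ0, h3]
      group
    have h5 : a * g⁻¹ * a⁻¹ ∈ φ.range := by
      refine ⟨inl (Multiplicative.ofAdd (⟨_, hc0⟩ : CC p e)) * g₀⁻¹, ?_⟩
      rw [map_mul, map_inv, hφ2, h2]
      group
    have h6 := φ.range.inv_mem h5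
    have h7 : (a * g⁻¹ * a⁻¹)⁻¹ = a * g * a⁻¹ := by group
    rw [h7] at h6
    exact h6
  · intro hdvd
    obtain ⟨x, hx⟩ := exists_prime_orderOf_dvd_card' p hdvd
    have hx' : orderOf (x : H₀) = p := by
      rw [← hx]
      exact Subgroup.orderOf_coe x
    have hker : φ (x : H₀) = 1 := MonoidHom.mem_ker.1 x.2
    obtain ⟨c, m, hm, hxe⟩ := hH2 (x : H₀)
    by_cases hm0 : m = 0
    · rw [hm0, pow_zero, mul_one] at hxe
      have h1 : (x : H₀) ^ e = 1 := by
        rw [hxe, ← map_pow, hce, map_one]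
      exact hpe (hx' ▸ orderOf_dvd_of_pow_eq_one h1)
    · rw [hxe, map_mul, map_pow, hφ1, hφ2] at hker
      have h1 : ((Fh.comp toPi) (Multiplicative.ofAdd c)) ^ e = 1 := by
        rw [← map_pow, hce, map_one]
      have h2 : g ^ m = ((Fh.comp toPi) (Multiplicative.ofAdd c))⁻¹ :=
        eq_inv_of_mul_eq_one_right hker
      have h3 : g ^ (m * e) = 1 := by
        rw [pow_mul, h2, inv_pow, h1, inv_one]
      have h4 := orderOf_dvd_of_pow_eq_one h3
      rw [hg] at h4
      rcases hp.out.dvd_mul.1 h4 with h5 | h5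
      · exact absurd (Nat.le_of_dvd (Nat.pos_of_ne_zero hm0) h5) (by omega)
      · exact hpe h5

end

end Pool.Agent.MP_1c8e06_ag.AI
end

section

set_option autoImplicit false
set_option linter.unusedSectionVars false

open Polynomial

namespace Pool.Agent.MP_1c8e06_ag.AI

noncomputable section

section
variable {p : ℕ} [hp : Fact p.Prime] {κ : Type} [Field κ] [CharP κ p] {G : Type}
    [Group G] [Fintype G] {F : κ[X]} {H₀ : Type} [Group H₀] [Fintype H₀]

/-- The functions `G → S` equivariant under `φ`. -/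
private def IND_T (S : Subring (EE p F)) (act : H₀ →* (S ≃+* S)) (φ : H₀ →* G) :
    Subring (G → S) where
  carrier := {f | ∀ h x, f (φ h * x) = act h (f x)}
  mul_mem' := by
    intro a b ha hb h x
    simp only [Pi.mul_apply, ha h x, hb h x, map_mul]
  one_mem' := by
    intro h x
    simp
  add_mem' := by
    intro a b ha hb h x
    simp only [Pi.add_apply, ha h x, hb h x, map_add]
  zero_mem' := by
    intro h x
    simp
  neg_mem' := by
    intro a ha h x
    simp only [Pi.neg_apply, ha h x, map_neg]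

private theorem IND_mem_T {S : Subring (EE p F)} {act : H₀ →* (S ≃+* S)} {φ : H₀ →* G}
    {f : G → S} : f ∈ IND_T S act φ ↔ ∀ h x, f (φ h * x) = act h (f x) := Iff.rfl

/-- The coercion `(G → S) → (G → EE p F)`. -/
private def IND_co (G : Type) (S : Subring (EE p F)) : (G → S) →+* (G → EE p F) where
  toFun f x := (f x : EE p F)
  map_one' := by ext x; simp
  map_mul' a b := by ext x; simp
  map_zero' := by ext x; simp
  map_add' a b := by ext x; simp

private theorem IND_co_apply (S : Subring (EE p F)) (f : G → S) (x : G) :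
    IND_co G S f x = (f x : EE p F) := rfl

open Classical in
/-- The sum over the fibre. -/
private def IND_br (S : Subring (EE p F)) (act : H₀ →* (S ≃+* S)) (φ : H₀ →* G) (w : S)
    (x : G) : S := ∑ h with φ h = x, act h w

private theorem IND_br_mem (S : Subring (EE p F)) (act : H₀ →* (S ≃+* S)) (φ : H₀ →* G)
    (w : S) (r : G) : (fun x => IND_br S act φ w (x * r)) ∈ IND_T S act φ := by
  classical
  intro k x
  simp only [IND_br, map_sum]
  refine Finset.sum_bij' (fun h _ => k⁻¹ * h) (fun h _ => k * h) ?_ ?_ ?_ ?_ ?_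
  · intro h hh
    simp only [Finset.mem_filter, Finset.mem_univ, true_and] at hh ⊢
    rw [map_mul, hh, map_inv]
    group
  · intro h hh
    simp only [Finset.mem_filter, Finset.mem_univ, true_and] at hh ⊢
    rw [map_mul, hh]
    group
  · intro h _
    simp
  · intro h _
    simp
  · intro h _
    rw [← RingAut.mul_apply, ← map_mul]
    congr 2
    group

open Classical in
private theorem IND_br_mul (S : Subring (EE p F)) (act : H₀ →* (S ≃+* S)) (φ : H₀ →* G)
    {n : ℕ} (u v : Fin n → S) (hd : ∀ (h : H₀) [Decidable (h = 1)],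
      ∑ i, u i * act h (v i) = if h = 1 then 1 else 0) (x x' : G) :
    ∑ i, IND_br S act φ (u i) x * IND_br S act φ (v i) x' =
      if x = x' then ((Finset.univ.filter fun k : H₀ => φ k = x).card : S) else 0 := by
  have h1 : ∀ k k' : H₀, ∑ i, act k (u i) * act k' (v i) = if k = k' then 1 else 0 := by
    intro k k'
    have h2 : ∀ i, act k (u i) * act k' (v i) = act k (u i * act (k⁻¹ * k') (v i)) := by
      intro i
      rw [map_mul]
      congr 1
      rw [← RingAut.mul_apply, ← map_mul]
      congr 2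
      group
    rw [Finset.sum_congr rfl fun i _ => h2 i, ← map_sum, hd]
    by_cases hk : k = k'
    · subst hk
      simp
    · rw [if_neg hk, if_neg, map_zero]
      intro h3
      exact hk (inv_mul_eq_one.1 h3)
  have h3 : ∑ i, IND_br S act φ (u i) x * IND_br S act φ (v i) x' =
      ∑ k with φ k = x, ∑ k' with φ k' = x', ∑ i, act k (u i) * act k' (v i) := by
    simp only [IND_br, Finset.sum_mul_sum]
    rw [Finset.sum_comm]
    refine Finset.sum_congr rfl fun k _ => ?_
    rw [Finset.sum_comm]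
  rw [h3]
  simp only [h1]
  by_cases hx : x = x'
  · subst hx
    rw [if_pos rfl, Finset.cast_card]
    refine Finset.sum_congr rfl fun k hk => ?_
    rw [Finset.sum_ite_eq, if_pos hk]
  · rw [if_neg hx]
    refine Finset.sum_eq_zero fun k hk => Finset.sum_eq_zero fun k' hk' => ?_
    rw [if_neg]
    rintro rfl
    rw [Finset.mem_filter] at hk hk'
    exact hx (hk.2.symm.trans hk'.2)

end

/-!
# Task IND: induction of the covering along `φ : H₀ → G`

Proof.  `W.S := {f : G → EE p F | (∀ x, f x ∈ S) ∧ ∀ h x, f (φ h * x) = act h (f x)}` (with the obvious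
coercions).  A subring.  `hg`: `h = g₀`, `htau`.  `hact`: clear.  `hze`: `hact_ze`.
`hfin`: `G → S` is a finitely generated `κ[X]`-module (`hfin`) over a noetherian ring, so the
submodule `W.S` is finitely generated.  (Use `letI` algebra structures through `ze p F`.)
`hinv`: `f (x h) = f x` for all `h` means `f` is constant `= f 1 = s ∈ S`, and `act h s = f (φ h) = s`.
`hdual`: let `N := φ.ker`, `ν := Nat.card N`, invertible in `κ` (`hker`, char `p`).  For `w ∈ S` let
`[w] x := ∑_{h : φ h = x} act h w`; then `[w] ∈ W.S`.  From the dual system `u, v` of `H₀`: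
`∑_i act k (u i) * act k' (v i) = act k (∑_i u i * act (k⁻¹ k') (v i)) = δ_{k,k'}`, so
`∑_i [u i] x * [v i] x' = #{k : φ k = x} δ_{x,x'} = ν δ_{x,x'}` if `x ∈ range φ` and `0` otherwise.
Let `R` be a set of representatives of the right cosets `(range φ) \ G` (each `x` is uniquely `y r`,
`y ∈ range φ`, `r ∈ R`).  The family `(x ↦ [u i] (x r⁻¹), x ↦ ν⁻¹ [v i] (x r⁻¹))`, `i`, `r ∈ R`, is a
dual system: `∑_{r ∈ R} ν⁻¹ ν δ_{x r⁻¹, x' r⁻¹} 1_{x r⁻¹ ∈ range φ} = δ_{x,x'}`.
(`ν⁻¹` is `ze (C (ν : κ)⁻¹)`.)  Reindex by `Fin n`.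
Last: `f (φ h * 1) = act h (f 1)`.
-/
theorem exists_ind {p : ℕ} [hp : Fact p.Prime] {κ : Type} [Field κ] [CharP κ p] {G : Type}
    [Group G] [Fintype G] {g : G} {F : κ[X]} {H₀ : Type} [Group H₀] [Fintype H₀]
    (S : Subring (EE p F)) (act : H₀ →* (S ≃+* S)) (φ : H₀ →* G) (g₀ : H₀) (hφ : φ g₀ = g)
    (htau : ∀ s : S, ((act g₀ s : S) : EE p F) = tau p F s)
    (hze : ∀ P : κ[X], ze p F P ∈ S)
    (hact_ze : ∀ (h : H₀) (P : κ[X]), act h ⟨ze p F P, hze P⟩ = ⟨ze p F P, hze P⟩)
    (hfin : ∃ (n : ℕ) (v : Fin n → S), ∀ s : S, ∃ c : Fin n → κ[X],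
      (s : EE p F) = ∑ i, ze p F (c i) * (v i : EE p F))
    (hinv : ∀ s : S, (∀ h, act h s = s) → ∃ P : κ[X], (s : EE p F) = ze p F P)
    (hdual : ∃ (n : ℕ) (u v : Fin n → S), ∀ (h : H₀) [Decidable (h = 1)],
      ∑ i, u i * act h (v i) = if h = 1 then 1 else 0)
    (hker : ¬ p ∣ Nat.card φ.ker) :
    ∃ W : W0 p κ G g F, ∀ h : H₀, ∀ f ∈ W.S, f 1 = 0 → f (φ h) = 0 := by
  classical
  -- the `κ[X]`-algebra structure
  let aS : κ[X] →+* S := (ze p F).codRestrict S hze
  have haS : ∀ P, ((aS P : S) : EE p F) = ze p F P := fun P => rfl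
  have hact_aS : ∀ (h : H₀) (P : κ[X]), act h (aS P) = aS P := fun h P => hact_ze h P
  let algS : Algebra κ[X] S := aS.toAlgebra
  have hsm : ∀ (P : κ[X]) (s : S), P • s = aS P * s := fun P s => rfl
  have hfinS : Module.Finite κ[X] S := by
    obtain ⟨n, v, hv⟩ := hfin
    refine ⟨⟨Finset.univ.image v, ?_⟩⟩
    rw [eq_top_iff]
    intro s _
    obtain ⟨c, hc⟩ := hv s
    have h1 : s = ∑ i, c i • v i := by
      apply Subtype.ext
      rw [hc]
      simp only [hsm, AddSubmonoidClass.coe_finsetSum, MulMemClass.coe_mul, haS]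
    rw [h1]
    refine Submodule.sum_mem _ fun i _ => Submodule.smul_mem _ _ (Submodule.subset_span ?_)
    simp
  -- the submodule of equivariant functions
  let M : Submodule κ[X] (G → S) :=
    { carrier := {f | ∀ h x, f (φ h * x) = act h (f x)}
      add_mem' := fun {a b} ha hb h x => (IND_T S act φ).add_mem (x := a) (y := b) ha hb h x
      zero_mem' := (IND_T S act φ).zero_mem
      smul_mem' := by
        intro P f hf h x
        simp only [Pi.smul_apply, hsm, map_mul, hact_aS]
        rw [hf h x] }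
  have hM : M.FG := IsNoetherian.noetherian M
  obtain ⟨n, w, hw⟩ := Submodule.fg_iff_exists_fin_generating_family.1 hM
  have hwM : ∀ i, w i ∈ M := fun i => hw ▸ Submodule.subset_span ⟨i, rfl⟩
  -- the index
  let Q := Quotient (QuotientGroup.rightRel φ.range)
  have : Fintype Q := Fintype.ofFinite Q
  have hQ : ∀ x : G, ∀ q : Q, x * (q.out)⁻¹ ∈ φ.range ↔ q = Quotient.mk _ x := by
    intro x q
    constructor
    · intro h
      rw [← Quotient.out_eq q]
      refine Quotient.sound ?_
      change QuotientGroup.rightRel φ.range q.out x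
      rw [QuotientGroup.rightRel_apply]
      exact h
    · rintro rfl
      have h1 : QuotientGroup.rightRel φ.range (Quotient.mk _ x : Q).out x :=
        Quotient.exact (Quotient.out_eq (Quotient.mk _ x : Q))
      rw [QuotientGroup.rightRel_apply] at h1
      exact h1
  have hcard : ∀ y ∈ φ.range, (Finset.univ.filter fun k : H₀ => φ k = y).card =
      Nat.card φ.ker := by
    intro y hy
    rw [MonoidHom.card_fiber_eq_of_mem_range φ (y := 1) (MonoidHom.mem_range.1 hy) ⟨1, map_one φ⟩,
      Nat.card_eq_fintype_card, Fintype.card_subtype]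
    congr 1
    ext k
    simp [MonoidHom.mem_ker]
  have hcard0 : ∀ y ∉ φ.range, (Finset.univ.filter fun k : H₀ => φ k = y).card = 0 := by
    intro y hy
    rw [Finset.card_eq_zero, Finset.filter_eq_empty_iff]
    intro k _ hk
    exact hy ⟨k, hk⟩
  have hν : (Nat.card φ.ker : κ) ≠ 0 := by
    intro h
    exact hker ((CharP.cast_eq_zero_iff κ p _).1 h)
  have hνS : aS (C ((Nat.card φ.ker : κ)⁻¹)) * ((Nat.card φ.ker : ℕ) : S) = 1 := by
    have h1 : ((Nat.card φ.ker : ℕ) : S) = aS (C (Nat.card φ.ker : κ)) := by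
      rw [map_natCast, map_natCast]
    rw [h1, ← map_mul, ← map_mul, inv_mul_cancel₀ hν, map_one, map_one]
  refine ⟨{ S := (IND_T S act φ).map (IND_co G S)
            hg := ?_
            hact := ?_
            hze := ?_
            hfin := ?_
            hinv := ?_
            hdual := ?_ }, ?_⟩
  · rintro _ ⟨f, hf, rfl⟩ x
    rw [IND_co_apply, IND_co_apply, ← hφ, hf g₀ x, htau]
  · rintro _ ⟨f, hf, rfl⟩ h
    refine ⟨fun x => f (x * h), ?_, rfl⟩
    intro k x
    change f (φ k * x * h) = act k (f (x * h))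
    rw [mul_assoc, hf k]
  · intro P
    refine ⟨fun _ => aS P, ?_, ?_⟩
    · intro h x
      exact (hact_aS h P).symm
    · ext x
      rfl
  · refine ⟨n, fun i => IND_co G S (w i), fun i => ⟨w i, hwM i, rfl⟩, ?_⟩
    rintro _ ⟨f, hf, rfl⟩
    have h1 : f ∈ Submodule.span κ[X] (Set.range w) := hw ▸ (show f ∈ M from hf)
    rw [Submodule.mem_span_range_iff_exists_fun] at h1
    obtain ⟨c, hc⟩ := h1
    refine ⟨c, fun x => ?_⟩
    rw [← hc]
    simp only [IND_co_apply, Finset.sum_apply, Pi.smul_apply, hsm,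
      AddSubmonoidClass.coe_finsetSum, MulMemClass.coe_mul, haS]
  · rintro _ ⟨f, hf, rfl⟩ hinv'
    have hconst : ∀ x, f x = f 1 := by
      intro x
      apply Subtype.ext
      have h1 := hinv' x 1
      rw [one_mul] at h1
      exact h1
    obtain ⟨P, hP⟩ := hinv (f 1) (by
      intro h
      rw [← hf h 1, hconst])
    refine ⟨P, fun x => ?_⟩
    rw [IND_co_apply, hconst x, hP]
  · obtain ⟨m, u, v, huv⟩ := hdual
    let e : Fin (Fintype.card (Fin m × Q)) ≃ Fin m × Q := (Fintype.equivFin _).symm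
    refine ⟨Fintype.card (Fin m × Q),
      fun a => IND_co G S (fun x => IND_br S act φ (u (e a).1) (x * ((e a).2.out)⁻¹)),
      fun a => IND_co G S (fun x => aS (C ((Nat.card φ.ker : κ)⁻¹)) *
        IND_br S act φ (v (e a).1) (x * ((e a).2.out)⁻¹)), ?_, ?_, ?_⟩
    · intro a
      exact ⟨_, IND_br_mem S act φ _ _, rfl⟩
    · intro a
      refine ⟨_, ?_, rfl⟩
      intro k x
      have h1 := IND_br_mem S act φ (v (e a).1) ((e a).2.out)⁻¹ k x
      simp only at h1 ⊢
      rw [map_mul, hact_aS, h1]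
    · intro x x' _
      simp only [IND_co_apply]
      have key : ∑ a : Fin m × Q, IND_br S act φ (u a.1) (x * (a.2.out)⁻¹) *
          (aS (C ((Nat.card φ.ker : κ)⁻¹)) * IND_br S act φ (v a.1) (x' * (a.2.out)⁻¹)) =
          if x = x' then (1 : S) else 0 := by
        rw [Fintype.sum_prod_type_right]
        have h2 : ∀ q : Q, ∑ i, IND_br S act φ (u i) (x * (q.out)⁻¹) *
            (aS (C ((Nat.card φ.ker : κ)⁻¹)) * IND_br S act φ (v i) (x' * (q.out)⁻¹)) =
            if x = x' then (if q = Quotient.mk _ x then (1 : S) else 0) else 0 := by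
          intro q
          have h3 : ∀ i, IND_br S act φ (u i) (x * (q.out)⁻¹) *
            (aS (C ((Nat.card φ.ker : κ)⁻¹)) * IND_br S act φ (v i) (x' * (q.out)⁻¹)) =
            aS (C ((Nat.card φ.ker : κ)⁻¹)) * (IND_br S act φ (u i) (x * (q.out)⁻¹) *
              IND_br S act φ (v i) (x' * (q.out)⁻¹)) := by
            intro i
            ring
          rw [Finset.sum_congr rfl fun i _ => h3 i, ← Finset.mul_sum,
            IND_br_mul S act φ u v huv]
          by_cases hx : x = x'
          · subst hx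
            rw [if_pos rfl, if_pos rfl]
            by_cases hq : x * (q.out)⁻¹ ∈ φ.range
            · rw [hcard _ hq, if_pos ((hQ x q).1 hq), hνS]
            · rw [hcard0 _ hq, if_neg (fun h => hq ((hQ x q).2 h)), Nat.cast_zero, mul_zero]
          · rw [if_neg hx, if_neg, mul_zero]
            intro h4
            exact hx (mul_right_cancel h4)
        rw [Finset.sum_congr rfl fun q _ => h2 q]
        by_cases hx : x = x'
        · simp only [if_pos hx]
          rw [Finset.sum_eq_single (Quotient.mk _ x), if_pos rfl]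
          · intro b _ hb
            rw [if_neg hb]
          · intro h5
            exact absurd (Finset.mem_univ _) h5
        · simp only [if_neg hx, Finset.sum_const_zero]
      have key2 := congrArg (fun z : S => (z : EE p F)) key
      simp only [AddSubmonoidClass.coe_finsetSum, MulMemClass.coe_mul] at key2
      rw [← Equiv.sum_comp e] at key2
      simp only [MulMemClass.coe_mul]
      rw [key2]
      split_ifs <;> simp
  · rintro h _ ⟨f, hf, rfl⟩ h1
    have h2 : f 1 = 0 := Subtype.ext h1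
    rw [IND_co_apply]
    have h3 := hf h 1
    rw [mul_one] at h3
    rw [h3, h2, map_zero]
    rfl

end

end Pool.Agent.MP_1c8e06_ag.AI
end

section

set_option autoImplicit false

open Polynomial

namespace Pool.Agent.MP_1c8e06_ag.AI

noncomputable section

/-- The diagonal `∑ c_n(t) T^n ↦ ∑ c_n(t) t^n`. -/
private def NB1_diagF {A : Type} [CommRing A] (a : PowerSeries (PowerSeries A)) : PowerSeries A :=
  PowerSeries.mk fun K => ∑ q ∈ Finset.HasAntidiagonal.antidiagonal K,
    PowerSeries.coeff q.2 (PowerSeries.coeff q.1 a)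

private theorem NB1_coeff_diagF {A : Type} [CommRing A] (a : PowerSeries (PowerSeries A)) (K : ℕ) :
    PowerSeries.coeff K (NB1_diagF a) = ∑ q ∈ Finset.HasAntidiagonal.antidiagonal K,
      PowerSeries.coeff q.2 (PowerSeries.coeff q.1 a) := PowerSeries.coeff_mk _ _

private theorem NB1_diag_mul {A : Type} [CommRing A] (a b : PowerSeries (PowerSeries A)) :
    NB1_diagF (a * b) = NB1_diagF a * NB1_diagF b := by
  ext K
  rw [PowerSeries.coeff_mul]
  simp only [NB1_coeff_diagF, PowerSeries.coeff_mul, map_sum, Finset.sum_mul_sum,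
    Finset.sum_sigma']
  refine Finset.sum_nbij'
    (fun x => ⟨(x.2.1.1 + x.2.2.1, x.2.1.2 + x.2.2.2), ⟨(x.2.1.1, x.2.2.1), (x.2.1.2, x.2.2.2)⟩⟩)
    (fun x => ⟨(x.2.1.1 + x.2.2.1, x.2.1.2 + x.2.2.2), ⟨(x.2.1.1, x.2.2.1), (x.2.1.2, x.2.2.2)⟩⟩)
    ?_ ?_ ?_ ?_ ?_
  · rintro ⟨⟨n, l⟩, ⟨⟨i, j⟩, ⟨r, s⟩⟩⟩ h
    simp only [Finset.mem_sigma, Finset.HasAntidiagonal.mem_antidiagonal, and_true] at h ⊢
    obtain ⟨h1, h2, h3⟩ := h
    omega
  · rintro ⟨⟨n, l⟩, ⟨⟨i, j⟩, ⟨r, s⟩⟩⟩ h
    simp only [Finset.mem_sigma, Finset.HasAntidiagonal.mem_antidiagonal, and_true] at h ⊢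
    obtain ⟨h1, h2, h3⟩ := h
    omega
  · rintro ⟨⟨n, l⟩, ⟨⟨i, j⟩, ⟨r, s⟩⟩⟩ h
    simp only [Finset.mem_sigma, Finset.HasAntidiagonal.mem_antidiagonal] at h
    obtain ⟨h1, h2, h3⟩ := h
    subst h2
    subst h3
    rfl
  · rintro ⟨⟨n, l⟩, ⟨⟨i, j⟩, ⟨r, s⟩⟩⟩ h
    simp only [Finset.mem_sigma, Finset.HasAntidiagonal.mem_antidiagonal] at h
    obtain ⟨h1, h2, h3⟩ := h
    subst h2
    subst h3
    rfl
  · rintro ⟨⟨n, l⟩, ⟨⟨i, j⟩, ⟨r, s⟩⟩⟩ h
    rfl

private theorem NB1_diag_C {A : Type} [CommRing A] (c : PowerSeries A) :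
    NB1_diagF (PowerSeries.C c) = c := by
  ext K
  rw [NB1_coeff_diagF, Finset.sum_eq_single (0, K)]
  · rw [PowerSeries.coeff_C, if_pos rfl]
  · rintro ⟨n, l⟩ h1 h2
    rw [Finset.HasAntidiagonal.mem_antidiagonal] at h1
    have hn : n ≠ 0 := by
      rintro rfl
      apply h2
      simp only [zero_add] at h1
      rw [h1]
    rw [PowerSeries.coeff_C, if_neg hn, map_zero]
  · intro h
    exact absurd (Finset.HasAntidiagonal.mem_antidiagonal.mpr (zero_add K)) h

private theorem NB1_diag_mapC {A : Type} [CommRing A] (d : PowerSeries A) :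
    NB1_diagF (PowerSeries.map PowerSeries.C d) = d := by
  ext K
  rw [NB1_coeff_diagF, Finset.sum_eq_single (K, 0)]
  · rw [PowerSeries.coeff_map, PowerSeries.coeff_C, if_pos rfl]
  · rintro ⟨n, l⟩ h1 h2
    rw [Finset.HasAntidiagonal.mem_antidiagonal] at h1
    have hn : l ≠ 0 := by
      rintro rfl
      apply h2
      simp only [add_zero] at h1
      rw [h1]
    rw [PowerSeries.coeff_map, PowerSeries.coeff_C, if_neg hn]
  · intro h
    exact absurd (Finset.HasAntidiagonal.mem_antidiagonal.mpr (add_zero K)) h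

private theorem NB1_diag_add {A : Type} [CommRing A] (a b : PowerSeries (PowerSeries A)) :
    NB1_diagF (a + b) = NB1_diagF a + NB1_diagF b := by
  ext K
  rw [map_add, NB1_coeff_diagF, NB1_coeff_diagF, NB1_coeff_diagF, ← Finset.sum_add_distrib]
  refine Finset.sum_congr rfl fun q _ => ?_
  rw [map_add, map_add]

private def NB1_diag (A : Type) [CommRing A] : PowerSeries (PowerSeries A) →+* PowerSeries A where
  toFun := NB1_diagF
  map_one' := by
    rw [← map_one (PowerSeries.C : PowerSeries A →+* PowerSeries (PowerSeries A)), NB1_diag_C]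
  map_mul' := NB1_diag_mul
  map_zero' := by
    rw [← map_zero (PowerSeries.C : PowerSeries A →+* PowerSeries (PowerSeries A)), NB1_diag_C]
  map_add' := NB1_diag_add

private theorem NB1_coeff_pow (κ : Type) [Field κ] (d i : ℕ) :
    PowerSeries.coeff i ((1 + PowerSeries.X * PowerSeries.C (X : κ[X])) ^ d) =
      (d.choose i : κ[X]) * X ^ i := by
  induction d generalizing i with
  | zero =>
    rw [pow_zero, PowerSeries.coeff_one]
    rcases i with _ | i
    · simp
    · simp
  | succ d ih =>
    have h1 : (1 + PowerSeries.X * PowerSeries.C (X : κ[X])) ^ (d + 1) =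
        (1 + PowerSeries.X * PowerSeries.C (X : κ[X])) ^ d +
          PowerSeries.X * (PowerSeries.C (X : κ[X]) *
            (1 + PowerSeries.X * PowerSeries.C (X : κ[X])) ^ d) := by
      rw [pow_succ]
      ring
    rw [h1, map_add, ih]
    rcases i with _ | i
    · rw [PowerSeries.coeff_zero_X_mul]
      simp
    · rw [PowerSeries.coeff_succ_X_mul, PowerSeries.coeff_C_mul, ih, Nat.choose_succ_succ]
      push_cast
      ring

private theorem NB1_coeff_subst (κ : Type) [Field κ]
    (hb : PowerSeries.HasSubst (PowerSeries.X * (1 + PowerSeries.X * PowerSeries.C (X : κ[X]))))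
    (f : PowerSeries κ) (l j : ℕ) :
    (PowerSeries.coeff l (PowerSeries.subst
      (PowerSeries.X * (1 + PowerSeries.X * PowerSeries.C (X : κ[X]))) f : PowerSeries κ[X])).coeff
        j = if j ≤ l then PowerSeries.coeff (l - j) f * ((l - j).choose j : κ) else 0 := by
  have hcoef : ∀ d : ℕ, PowerSeries.coeff l
      ((PowerSeries.X * (1 + PowerSeries.X * PowerSeries.C (X : κ[X]))) ^ d) =
        if d ≤ l then (d.choose (l - d) : κ[X]) * X ^ (l - d) else 0 := by
    intro d
    rw [mul_pow, PowerSeries.coeff_X_pow_mul']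
    split_ifs with h
    · rw [NB1_coeff_pow]
    · rfl
  rw [PowerSeries.coeff_subst' hb]
  rw [finsum_eq_sum_of_support_subset (s := Finset.range (l + 1))]
  swap
  · intro d hd
    rw [Function.mem_support, hcoef] at hd
    by_contra hc
    apply hd
    have h1 : ¬ d ≤ l := by
      intro h2
      exact hc (by
        rw [Finset.coe_range, Set.mem_Iio]
        omega)
    rw [if_neg h1, smul_zero]
  rw [Polynomial.finsetSum_coeff]
  have hterm : ∀ d ∈ Finset.range (l + 1), (PowerSeries.coeff d f • PowerSeries.coeff l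
      ((PowerSeries.X * (1 + PowerSeries.X * PowerSeries.C (X : κ[X]))) ^ d)).coeff j =
        if l - d = j then PowerSeries.coeff d f * (d.choose (l - d) : κ) else 0 := by
    intro d hd
    have hd' : d ≤ l := by
      have := Finset.mem_range.mp hd
      omega
    rw [hcoef, if_pos hd', Polynomial.coeff_smul, smul_eq_mul]
    have h2 : ((d.choose (l - d) : ℕ) : κ[X]) = C ((d.choose (l - d) : ℕ) : κ) := by
      rw [map_natCast]
    rw [h2, Polynomial.coeff_C_mul, Polynomial.coeff_X_pow]
    by_cases h3 : l - d = j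
    · rw [if_pos h3, if_pos h3.symm, mul_one]
    · rw [if_neg h3, if_neg (fun h => h3 h.symm), mul_zero, mul_zero]
  rw [Finset.sum_congr rfl hterm]
  by_cases hj : j ≤ l
  · rw [if_pos hj, Finset.sum_eq_single (l - j)]
    · rw [if_pos (by omega)]
      have h4 : l - (l - j) = j := by omega
      rw [h4]
    · intro d hd hne
      have := Finset.mem_range.mp hd
      rw [if_neg (by omega)]
    · intro h
      exact absurd (Finset.mem_range.mpr (by omega)) h
  · rw [if_neg hj]
    refine Finset.sum_eq_zero fun d hd => ?_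
    rw [if_neg (by omega)]


/-!
# Task NB1: restriction to the disc `s = t (1 + t u)`, on `κ[[s]][[t]]`

Here `u` is the variable of `κ[X]`.
Proof.  Let `b := X * (1 + X * C u) ∈ κ[X][[X]]` (outer variable `t`), i.e. `t (1 + t u)`;
`constantCoeff b = 0`, so `PowerSeries.HasSubst b` and Mathlib's substitution
`PowerSeries.subst b : PowerSeries κ → PowerSeries κ[X]` is a ring (algebra) homomorphism
(`PowerSeries.substAlgHom`) `f(s) ↦ f(t (1 + t u))`.  (Alternatively define it by coefficients.)
`diag : PowerSeries (PowerSeries A) → PowerSeries A`, `∑ c_n(t) T^n ↦ ∑ c_n(t) t^n`, coefficient of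
`t^K` is `∑_{n+l=K} coeff l (c_n)`, is a ring homomorphism.  `ν₀ := diag ∘ PowerSeries.map (subst b)`.
The coefficient of `u^j` in the coefficient of `t^K` of `ν₀ a` is
`∑_{n+m=K-j} a_{n,m} (m choose j)` where `a_{n,m}` is the coefficient of `t^n s^m`: indeed
`t^n s^m ↦ t^(n+m) (1 + t u)^m`.
Injective: if `ν₀ a = 0` then for every `k` and every `j`:
`∑_{n+m=k} a_{n,m} (m choose j) = 0` (take `K = k + j`), i.e. the polynomial
`∑_{m ≤ k} a_{k-m,m} (1 + v)^m ∈ κ[v]` is zero, so (`v ↦ v - 1`) all `a_{k-m,m}` vanish.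
-/
theorem exists_nab0 (κ : Type) [Field κ] :
    ∃ ν₀ : PowerSeries (PowerSeries κ) →+* PowerSeries κ[X], Function.Injective ν₀ ∧
      ν₀ (PowerSeries.C PowerSeries.X) =
        PowerSeries.X * (1 + PowerSeries.X * PowerSeries.C (X : κ[X])) ∧
      ν₀ PowerSeries.X = PowerSeries.X ∧
      (∀ c : κ, ν₀ (PowerSeries.C (PowerSeries.C c)) = PowerSeries.C (C c)) ∧
      (∀ c : PowerSeries κ, ν₀ (PowerSeries.map PowerSeries.C c) = PowerSeries.map C c) := by
  have hb : PowerSeries.HasSubst
      (PowerSeries.X * (1 + PowerSeries.X * PowerSeries.C (X : κ[X]))) := by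
    apply PowerSeries.HasSubst.of_constantCoeff_zero'
    rw [map_mul, PowerSeries.constantCoeff_X, zero_mul]
  let S : PowerSeries κ →+* PowerSeries κ[X] :=
    RingHomClass.toRingHom (PowerSeries.substAlgHom (R := κ) hb)
  have hS : ∀ f, S f = PowerSeries.subst
      (PowerSeries.X * (1 + PowerSeries.X * PowerSeries.C (X : κ[X]))) f := fun f =>
    congrFun (PowerSeries.coe_substAlgHom hb) f
  have hSX : S PowerSeries.X =
      PowerSeries.X * (1 + PowerSeries.X * PowerSeries.C (X : κ[X])) := by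
    rw [hS]
    exact PowerSeries.subst_X hb
  have hSC : ∀ c : κ, S (PowerSeries.C c) = PowerSeries.C (C c) := by
    intro c
    have e1 : algebraMap κ (PowerSeries κ) c = PowerSeries.C c := by
      rw [PowerSeries.algebraMap_apply]
      rfl
    have e2 : algebraMap κ (PowerSeries κ[X]) c = PowerSeries.C (C c) := by
      rw [PowerSeries.algebraMap_apply]
      rfl
    have h := (PowerSeries.substAlgHom (R := κ) hb).commutes c
    rw [e1] at h
    exact h.trans e2
  let ν₀ : PowerSeries (PowerSeries κ) →+* PowerSeries κ[X] :=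
    (NB1_diag κ[X]).comp (PowerSeries.map S)
  have hν : ∀ a, ν₀ a = NB1_diagF (PowerSeries.map S a) := fun a => rfl
  have h4 : ∀ c : PowerSeries κ, ν₀ (PowerSeries.map PowerSeries.C c) = PowerSeries.map C c := by
    intro c
    have h5 : PowerSeries.map S (PowerSeries.map PowerSeries.C c) =
        PowerSeries.map PowerSeries.C (PowerSeries.map C c) := by
      ext n
      rw [PowerSeries.coeff_map, PowerSeries.coeff_map, PowerSeries.coeff_map,
        PowerSeries.coeff_map, hSC]
    rw [hν, h5, NB1_diag_mapC]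
  refine ⟨ν₀, ?_, ?_, ?_, ?_, h4⟩
  · -- injectivity
    have hco : ∀ (a : PowerSeries (PowerSeries κ)) (k j : ℕ),
        (PowerSeries.coeff (k + j) (ν₀ a)).coeff j = ∑ n ∈ Finset.range (k + 1),
          PowerSeries.coeff (k - n) (PowerSeries.coeff n a) * ((k - n).choose j : κ) := by
      intro a k j
      rw [hν, NB1_coeff_diagF, Polynomial.finsetSum_coeff,
        Finset.Nat.sum_antidiagonal_eq_sum_range_succ_mk]
      have hsub : Finset.range (k + 1) ⊆ Finset.range (k + j).succ := by
        intro n hn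
        have := Finset.mem_range.mp hn
        exact Finset.mem_range.mpr (by omega)
      rw [← Finset.sum_subset hsub]
      · refine Finset.sum_congr rfl fun n hn => ?_
        have hn' := Finset.mem_range.mp hn
        have e1 : k + j - n - j = k - n := by omega
        rw [PowerSeries.coeff_map, hS, NB1_coeff_subst κ hb, if_pos (by omega), e1]
      · intro n hn hn2
        have hn' := Finset.mem_range.mp hn
        have hn3 : ¬ n < k + 1 := fun h => hn2 (Finset.mem_range.mpr h)
        rw [PowerSeries.coeff_map, hS, NB1_coeff_subst κ hb, if_neg (by omega)]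
    rw [injective_iff_map_eq_zero]
    intro a ha
    have key : ∀ k n : ℕ, n ≤ k → PowerSeries.coeff (k - n) (PowerSeries.coeff n a) = 0 := by
      intro k n
      induction n using Nat.strong_induction_on with
      | _ n ih =>
        intro hn
        have h6 := hco a k (k - n)
        rw [ha, map_zero, Polynomial.coeff_zero, Finset.sum_eq_single n] at h6
        · rw [Nat.choose_self, Nat.cast_one, mul_one] at h6
          exact h6.symm
        · intro m hm hne
          have hm' := Finset.mem_range.mp hm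
          rcases Nat.lt_or_ge m n with h7 | h7
          · rw [ih m h7 (by omega), zero_mul]
          · rw [Nat.choose_eq_zero_of_lt (by omega), Nat.cast_zero, mul_zero]
        · intro h7
          exact absurd (Finset.mem_range.mpr (by omega)) h7
    ext n m
    have h8 := key (n + m) n (Nat.le_add_right n m)
    rw [Nat.add_sub_cancel_left] at h8
    rw [h8]
    simp
  · rw [hν, PowerSeries.map_C, hSX, NB1_diag_C]
  · have h9 := h4 PowerSeries.X
    rw [PowerSeries.map_X, PowerSeries.map_X] at h9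
    exact h9
  · intro c
    rw [hν, PowerSeries.map_C, hSC, NB1_diag_C]

end

end Pool.Agent.MP_1c8e06_ag.AI
end

section

set_option autoImplicit false

open Polynomial

namespace Pool.Agent.MP_1c8e06_ag.AI

noncomputable section

/-- `minus` as a map to `Bm`. -/
def NB2_minusB (κ : Type) [Field κ] : PowerSeries (PowerSeries κ) →+* Bm κ :=
  (minus κ).codRestrict (Bm κ) minus_mem

theorem NB2_ofPS_coeff (κ : Type) [Field κ] (f : PowerSeries κ) (n : ℕ) :
    (HahnSeries.ofPowerSeries ℤ κ f).coeff (n : ℤ) = PowerSeries.coeff n f := by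
  exact HahnSeries.ofPowerSeries_apply_coeff f n

theorem NB2_minusB_inj (κ : Type) [Field κ] : Function.Injective (NB2_minusB κ) := by
  intro a b h
  have h1 : minus κ a = minus κ b := congrArg Subtype.val h
  ext n m
  have h2 := congrArg (fun z => (PowerSeries.coeff n z).coeff (m : ℤ)) h1
  simp only [minus, PowerSeries.coeff_map, NB2_ofPS_coeff] at h2
  exact h2

theorem NB2_minusB_CX (κ : Type) [Field κ] : (NB2_minusB κ (PowerSeries.C PowerSeries.X) : AA κ) =
    PowerSeries.C (HahnSeries.single (1 : ℤ) (1 : κ)) := by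
  change minus κ (PowerSeries.C PowerSeries.X) = _
  rw [minus, PowerSeries.map_C, HahnSeries.ofPowerSeries_X]

theorem NB2_mul_inv (κ : Type) [Field κ] :
    NB2_minusB κ (PowerSeries.C PowerSeries.X) * inclB X = 1 := by
  apply Subtype.ext
  change (NB2_minusB κ (PowerSeries.C PowerSeries.X) : AA κ) * incl κ X = 1
  rw [NB2_minusB_CX, incl, Polynomial.coe_eval₂RingHom, Polynomial.eval₂_X, ← map_mul,
    HahnSeries.single_mul_single]
  simp

theorem NB2_surj (κ : Type) [Field κ] (a : Bm κ) : ∃ (N : ℕ) (a' : PowerSeries (PowerSeries κ)),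
    a * NB2_minusB κ (PowerSeries.C PowerSeries.X) ^ N = NB2_minusB κ a' := by
  obtain ⟨a, N, hN⟩ := a
  refine ⟨N, PowerSeries.mk fun n => PowerSeries.mk fun m =>
    (PowerSeries.coeff n a).coeff ((m : ℤ) - N), ?_⟩
  apply Subtype.ext
  change a * (NB2_minusB κ (PowerSeries.C PowerSeries.X) : AA κ) ^ N = minus κ _
  rw [NB2_minusB_CX, ← map_pow, HahnSeries.single_pow, one_pow, mul_comm]
  refine PowerSeries.ext fun n => ?_
  rw [PowerSeries.coeff_C_mul, minus, PowerSeries.coeff_map, PowerSeries.coeff_mk]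
  refine HahnSeries.ext (funext fun m => ?_)
  have h1 : (HahnSeries.single (N • (1 : ℤ)) (1 : κ) * PowerSeries.coeff n a).coeff m =
      (PowerSeries.coeff n a).coeff (m - N) := by
    have h := HahnSeries.coeff_single_mul_add (r := (1 : κ)) (x := PowerSeries.coeff n a)
      (a := m - N) (b := N • (1 : ℤ))
    rw [one_mul] at h
    rw [← h]
    congr 1
    simp
  rw [h1]
  rcases le_or_gt 0 m with hm | hm
  · obtain ⟨k, rfl⟩ := Int.eq_ofNat_of_zero_le hm
    rw [NB2_ofPS_coeff, PowerSeries.coeff_mk]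
  · rw [hN n (m - N) (by omega), HahnSeries.ofPowerSeries_apply,
      HahnSeries.embDomain_of_notMem_range]
    rintro ⟨k, hk⟩
    simp at hk
    omega

theorem NB2_isLoc (κ : Type) [Field κ] :
    let _ : Algebra (PowerSeries (PowerSeries κ)) (Bm κ) := (NB2_minusB κ).toAlgebra
    IsLocalization.Away (PowerSeries.C (PowerSeries.X : PowerSeries κ)) (Bm κ) := by
  intro _
  refine ⟨?_, ?_, ?_⟩
  · rintro ⟨_, n, rfl⟩
    change IsUnit (NB2_minusB κ (PowerSeries.C PowerSeries.X ^ n))
    rw [map_pow]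
    exact (IsUnit.of_mul_eq_one _ (NB2_mul_inv κ)).pow n
  · intro a
    obtain ⟨N, a', h⟩ := NB2_surj κ a
    refine ⟨⟨a', ⟨_, N, rfl⟩⟩, ?_⟩
    change a * NB2_minusB κ (PowerSeries.C PowerSeries.X ^ N) = NB2_minusB κ a'
    rw [map_pow]
    exact h
  · intro x y h
    exact ⟨1, by rw [NB2_minusB_inj κ h]⟩

theorem NB2_ext (κ : Type) [Field κ] {S : Type} [CommRing S] (g : PowerSeries (PowerSeries κ) →+* S)
    (hg : Function.Injective g) (hu : IsUnit (g (PowerSeries.C PowerSeries.X))) :
    ∃ nab : Bm κ →+* S, Function.Injective nab ∧ ∀ a, nab (NB2_minusB κ a) = g a := by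
  let i1 : Algebra (PowerSeries (PowerSeries κ)) (Bm κ) := (NB2_minusB κ).toAlgebra
  have i2 : IsLocalization.Away (PowerSeries.C (PowerSeries.X : PowerSeries κ)) (Bm κ) :=
    NB2_isLoc κ
  refine ⟨IsLocalization.Away.lift (PowerSeries.C (PowerSeries.X : PowerSeries κ)) hu, ?_, ?_⟩
  · refine (IsLocalization.lift_injective_iff _).2 fun x y => ⟨fun h => ?_, fun h => ?_⟩
    · rw [NB2_minusB_inj κ h]
    · rw [hg h]
  · intro a
    exact IsLocalization.Away.lift_eq _ hu a

/-!
# Task NB2: the restriction homomorphism on `Bm`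

Proof.  Let `ν₀` be as in `exists_nab0`.  Every `a ∈ Bm κ` satisfies `s^N a = minus a'` for some
`N` and a unique `a' ∈ κ[[s]][[t]]` (`s = PowerSeries.C (single 1 1)`).  Put
`ŝ := t (1 + t u) ∈ κ[u]((t))`, a unit of `LaurentSeries κ[X]` (`t` is a unit, `1 + t u` is a unit of
`κ[u][[t]]`).  Define `nab a := ŝ^(-N) * ofPowerSeries (ν₀ a')`; it is independent of `N` and is a
ring homomorphism: either directly, or because `Bm κ` is the localisation of
`PowerSeries (PowerSeries κ)` (via `minus`) away from `C X` and one can use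
`IsLocalization.Away.lift`.  Injective because `ν₀` is and `ŝ` is a unit.
`nab_incl`: let `q₁ ∈ κ[X]` with `q = (1 - X) * q₁` (as `q.eval 1 = 0`), so
`derivative q evaluated at 1` is `- q₁(1)`.  Let `v := (1 + t u)⁻¹ ∈ κ[u][[t]]`, and
`ξ := C u * v^2 * q₁(v)` (`q₁.eval₂ (PowerSeries.C.comp C) v`); constant coefficient
`u q₁(1) = c1 u`, `c1 := q₁(1) = - q'(1) ≠ 0`.
Both sides of `nab_incl` are ring homomorphisms in `f`; check `f = C c` and `f = X`:
`compft q X = ft q = X * q(t X) = ∑ q_n t^n X^(n+1)`; `nab (inclB X) = ŝ⁻¹` and `nab (inclB (C t)) = t`,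
so the left side is `ŝ⁻¹ q(t ŝ⁻¹) = ŝ⁻¹ q(v) = t⁻¹ v (1 - v) q₁(v)` and `1 - v = t u v`, so it is
`u v^2 q₁(v) = ξ`.
-/
theorem exists_nab {κ : Type} [Field κ] (q : κ[X]) (hq1 : q.eval 1 = 0)
    (hq' : (derivative q).eval 1 ≠ 0) :
    ∃ nab : Bm κ →+* LaurentSeries κ[X], Function.Injective nab ∧
      ∃ (ξ : PowerSeries κ[X]) (c1 : κ), c1 ≠ 0 ∧ PowerSeries.constantCoeff ξ = C c1 * X ∧
        ∀ f : κ[X], nab (inclB (compft q f)) =
          HahnSeries.ofPowerSeries ℤ κ[X] (f.eval₂ (PowerSeries.C.comp C) ξ) := by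
  obtain ⟨ν₀, hinj, hs, ht, hc, -⟩ := exists_nab0 κ
  -- the inverse of `1 + t u`
  obtain ⟨v, hv⟩ : ∃ v : PowerSeries κ[X],
      (1 + PowerSeries.X * PowerSeries.C (X : κ[X])) * v = 1 := by
    have h1 : IsUnit (1 + PowerSeries.X * PowerSeries.C (X : κ[X])) := by
      rw [PowerSeries.isUnit_iff_constantCoeff]
      simp
    exact h1.exists_right_inv
  have hv0 : PowerSeries.constantCoeff v = 1 := by
    have h := congrArg PowerSeries.constantCoeff hv
    simpa using h
  have hv1 : 1 - v = PowerSeries.X * PowerSeries.C (X : κ[X]) * v := by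
    linear_combination -hv
  let o := HahnSeries.ofPowerSeries ℤ κ[X]
  have ho : Function.Injective o := HahnSeries.ofPowerSeries_injective
  have hoX : o PowerSeries.X = HahnSeries.single (1 : ℤ) (1 : κ[X]) := HahnSeries.ofPowerSeries_X
  have hg : IsUnit (o.comp ν₀ (PowerSeries.C PowerSeries.X)) := by
    rw [RingHom.comp_apply, hs, map_mul]
    refine IsUnit.mul ?_ ?_
    · rw [hoX]
      refine IsUnit.of_mul_eq_one (HahnSeries.single (-1 : ℤ) (1 : κ[X])) ?_
      rw [HahnSeries.single_mul_single]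
      simp
    · refine IsUnit.of_mul_eq_one (o v) ?_
      rw [← map_mul, hv, map_one]
  obtain ⟨nab, hnab, hn⟩ := NB2_ext κ (o.comp ν₀) (ho.comp hinj) hg
  obtain ⟨q₁, hq⟩ : ∃ q₁ : κ[X], q = (1 - X) * q₁ := by
    obtain ⟨q₂, h2⟩ := dvd_iff_isRoot.2 hq1
    refine ⟨-q₂, ?_⟩
    rw [h2, C_1]
    ring
  have hq10 : q₁.eval 1 ≠ 0 := by
    intro h
    apply hq'
    rw [hq]
    simp [h]
  refine ⟨nab, hnab, PowerSeries.C X * v ^ 2 * q₁.eval₂ (PowerSeries.C.comp C) v, q₁.eval 1,
    hq10, ?_, ?_⟩
  · rw [map_mul, map_mul, map_pow, hv0, Polynomial.hom_eval₂, hv0, PowerSeries.constantCoeff_C]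
    have h1 : (PowerSeries.constantCoeff.comp (PowerSeries.C.comp C) : κ →+* κ[X]) = C := by
      ext c
      simp
    have h2 : q₁.eval₂ (C : κ →+* κ[X]) 1 = C (q₁.eval 1) := by
      rw [Polynomial.eval, Polynomial.hom_eval₂, map_one]
      rfl
    rw [h1, h2]
    ring
  · have hX : nab (NB2_minusB κ (PowerSeries.C PowerSeries.X)) * nab (inclB X) = 1 := by
      rw [← map_mul, NB2_mul_inv, map_one]
    rw [hn, RingHom.comp_apply, hs] at hX
    have htc : nab (inclB (C PowerSeries.X)) = o PowerSeries.X := by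
      have h1 : (inclB (C PowerSeries.X) : Bm κ) = NB2_minusB κ PowerSeries.X := by
        apply Subtype.ext
        change incl κ (C PowerSeries.X) = minus κ PowerSeries.X
        rw [incl, Polynomial.coe_eval₂RingHom, Polynomial.eval₂_C, minus, PowerSeries.map_X,
          PowerSeries.map_X]
      rw [h1, hn, RingHom.comp_apply, ht]
    have hcc : ∀ c : κ, nab (inclB (C (PowerSeries.C c))) = o (PowerSeries.C (C c)) := by
      intro c
      have h1 : (inclB (C (PowerSeries.C c)) : Bm κ) = NB2_minusB κ (PowerSeries.C (PowerSeries.C c)) := by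
        apply Subtype.ext
        change incl κ (C (PowerSeries.C c)) = minus κ (PowerSeries.C (PowerSeries.C c))
        rw [incl, Polynomial.coe_eval₂RingHom, Polynomial.eval₂_C, minus, PowerSeries.map_C,
          PowerSeries.map_C, HahnSeries.ofPowerSeries_C]
      rw [h1, hn, RingHom.comp_apply, hc]
    have hw : o PowerSeries.X * nab (inclB X) = o v := by
      have h1 : o PowerSeries.X = o (PowerSeries.X * (1 + PowerSeries.X * PowerSeries.C (X : κ[X]))) *
          o v := by
        rw [← map_mul, mul_assoc, hv, mul_one]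
      rw [h1]
      linear_combination (o v) * hX
    have key : ((nab.comp inclB).comp (compft q)) = o.comp
        (Polynomial.eval₂RingHom (PowerSeries.C.comp C) (PowerSeries.C X * v ^ 2 *
          q₁.eval₂ (PowerSeries.C.comp C) v)) := by
      refine Polynomial.ringHom_ext ?_ ?_
      · intro c
        change nab (inclB (compft q (C c))) = o (Polynomial.eval₂ _ _ (C c))
        rw [Polynomial.eval₂_C, compft, Polynomial.coe_eval₂RingHom, Polynomial.eval₂_C]
        exact hcc c
      · change nab (inclB (compft q X)) = o (Polynomial.eval₂ _ _ X)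
        rw [Polynomial.eval₂_X, compft, Polynomial.coe_eval₂RingHom, Polynomial.eval₂_X, ft,
          map_mul, map_mul, Polynomial.comp, Polynomial.eval₂_map, Polynomial.hom_eval₂,
          Polynomial.hom_eval₂, map_mul, map_mul, htc, hw]
        have h1 : nab.comp ((inclB : (PowerSeries κ)[X] →+* Bm κ).comp
            ((C : PowerSeries κ →+* (PowerSeries κ)[X]).comp PowerSeries.C)) =
            o.comp (PowerSeries.C.comp C) := by
          ext c : 1
          exact hcc c
        rw [h1, ← Polynomial.hom_eval₂, hq, Polynomial.eval₂_mul, Polynomial.eval₂_sub,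
          Polynomial.eval₂_one, Polynomial.eval₂_X, hv1]
        simp only [map_mul, map_pow]
        linear_combination (o (PowerSeries.C X) * o v *
          o (q₁.eval₂ (PowerSeries.C.comp C) v)) * hw
    intro f
    exact RingHom.congr_fun key f

end

end Pool.Agent.MP_1c8e06_ag.AI
end
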