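import Pool.Agent.Lib.MP_1c8e06_ag.CY.Defs
import Pool.Agent.Lib.MP_1c8e06_ag.Mg.G022
import Pool.Agent.Lib.MP_1c8e06_ag.Mg.G095
import Pool.Agent.Lib.MP_1c8e06_ag.Mg.G090

section

set_option autoImplicit false

open scoped Classical

namespace Pool.Agent.MP_1c8e06_ag.CY

/-!
# Group theory: cyclic Sylow subgroups
-/

/-- Two subgroups of order `p` of a cyclic subgroup are equal. -/
theorem GR1_unique {p : ℕ} [hp : Fact p.Prime] {G : Type} [Group G] [Finite G] (Q A B : Subgroup G)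
    (hQ : IsCyclic Q) (hA : A ≤ Q) (hB : B ≤ Q) (hcA : Nat.card A = p) (hcB : Nat.card B = p) :
    A = B := by
  have key : ∀ C : Subgroup G, C ≤ Q → Nat.card C = p →
      ((C.subgroupOf Q : Subgroup Q) : Set Q) = {q : Q | q ^ p = 1} := by
    intro C hC hcC
    have h1 : ((C.subgroupOf Q : Subgroup Q) : Set Q) ⊆ {q : Q | q ^ p = 1} := by
      intro q hq
      have h2 : (q : G) ∈ C := Subgroup.mem_subgroupOf.1 hq
      have h3 : (⟨(q : G), h2⟩ : C) ^ Nat.card C = 1 := pow_card_eq_one'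
      rw [hcC] at h3
      have h4 := congrArg (Subtype.val : C → G) h3
      refine Subtype.ext ?_
      simpa using h4
    refine Set.eq_of_subset_of_ncard_le h1 ?_ (Set.toFinite _)
    have h5 : ({q : Q | q ^ p = 1} : Set Q).ncard ≤ p := by
      have : Fintype Q := Fintype.ofFinite Q
      have h6 := IsCyclic.card_pow_eq_one_le (α := Q) hp.out.pos
      rw [Set.ncard_eq_toFinset_card']
      convert h6 using 2
      ext q
      simp
    have h7 : (((C.subgroupOf Q : Subgroup Q) : Set Q)).ncard = p := by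
      rw [← hcC, ← Nat.card_coe_set_eq]
      exact Nat.card_congr (Subgroup.subgroupOfEquivOfLe hC).toEquiv
    rw [h7]
    exact h5
  have h := (key A hA hcA).trans (key B hB hcB).symm
  have h2 : A.subgroupOf Q = B.subgroupOf Q := SetLike.coe_injective h
  ext a
  constructor
  · intro ha
    have : (⟨a, hA ha⟩ : Q) ∈ B.subgroupOf Q := h2 ▸ (Subgroup.mem_subgroupOf.2 ha)
    exact Subgroup.mem_subgroupOf.1 this
  · intro ha
    have : (⟨a, hB ha⟩ : Q) ∈ A.subgroupOf Q := h2.symm ▸ (Subgroup.mem_subgroupOf.2 ha)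
    exact Subgroup.mem_subgroupOf.1 this

/-- The hypothesis (SE) holds if the Sylow `p`-subgroups are cyclic. -/
theorem SEH_of_cyclic {p : ℕ} [hp : Fact p.Prime] {G : Type} [Group G] [Finite G]
    (hc : ∀ Q : Sylow p G, IsCyclic Q) (x : G) (hx : orderOf x = p) :
    SEH p (Subgroup.normalizer (Subgroup.zpowers x : Set G)) := by
  have hcx : ∀ g : G, Nat.card (Subgroup.zpowers (g * x * g⁻¹)) = p := by
    intro g
    rw [Nat.card_zpowers, ← hx]
    exact orderOf_injective (MulAut.conj g).toMonoidHom (MulAut.conj g).injective x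
  have hpx : ∀ g : G, IsPGroup p (Subgroup.zpowers (g * x * g⁻¹)) := fun g =>
    IsPGroup.of_card (n := 1) (by rw [hcx, pow_one])
  -- normaliser and conjugation
  have hnorm : ∀ g a : G, g⁻¹ * a * g ∈ Subgroup.normalizer (Subgroup.zpowers x : Set G) ↔
      a * (g * x * g⁻¹) * a⁻¹ ∈ Subgroup.zpowers (g * x * g⁻¹) := by
    intro g a
    have hfin : ∀ b : G, b ∈ Subgroup.normalizer (Subgroup.zpowers x : Set G) ↔
        b * x * b⁻¹ ∈ Subgroup.zpowers x := by
      intro b
      constructor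
      · intro hb
        exact (Subgroup.mem_normalizer_iff.1 hb x).1 (Subgroup.mem_zpowers x)
      · intro hb
        have h1 : Subgroup.map (MulAut.conj b).toMonoidHom (Subgroup.zpowers x) ≤
            Subgroup.zpowers x := by
          rw [Subgroup.map_le_iff_le_comap, Subgroup.zpowers_le]
          exact hb
        have h2 : Subgroup.map (MulAut.conj b).toMonoidHom (Subgroup.zpowers x) =
            Subgroup.zpowers x := by
          refine Subgroup.eq_of_le_of_card_ge h1 ?_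
          rw [Subgroup.card_map_of_injective (MulAut.conj b).injective]
        rw [Subgroup.mem_normalizer_iff]
        intro y
        constructor
        · intro hy
          have : b * y * b⁻¹ ∈ Subgroup.map (MulAut.conj b).toMonoidHom (Subgroup.zpowers x) :=
            ⟨y, hy, rfl⟩
          rwa [h2] at this
        · intro hy
          have hy' : b * y * b⁻¹ ∈ Subgroup.map (MulAut.conj b).toMonoidHom (Subgroup.zpowers x) := by
            rw [h2]
            exact hy
          obtain ⟨z, hz, hz2⟩ := hy'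
          have : z = y := by
            have h3 : b * z * b⁻¹ = b * y * b⁻¹ := hz2
            exact mul_left_cancel (mul_right_cancel h3)
          rwa [← this]
    rw [hfin]
    constructor
    · intro h
      obtain ⟨n, hn⟩ := Subgroup.mem_zpowers_iff.1 h
      refine Subgroup.mem_zpowers_iff.2 ⟨n, ?_⟩
      rw [conj_zpow, hn]
      group
    · intro h
      obtain ⟨n, hn⟩ := Subgroup.mem_zpowers_iff.1 h
      refine Subgroup.mem_zpowers_iff.2 ⟨n, ?_⟩
      rw [conj_zpow] at hn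
      have h2 : x ^ n = g⁻¹ * (a * (g * x * g⁻¹) * a⁻¹) * g := by
        rw [← hn]
        group
      rw [h2]
      group
  intro J hJ hJne
  obtain ⟨Q, hQ⟩ := hJ.exists_le_sylow
  -- an element of order p in J
  have hJc : p ∣ Nat.card J := by
    rcases (IsPGroup.iff_card.1 hJ) with ⟨n, hn⟩
    rw [hn]
    refine dvd_pow_self p ?_
    rintro rfl
    rw [pow_zero] at hn
    exact hJne ((Subgroup.card_eq_one).1 hn)
  obtain ⟨j, hj⟩ := exists_prime_orderOf_dvd_card' p hJc
  have hjo : orderOf (j : G) = p := by rw [← hj]; exact Subgroup.orderOf_coe j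
  have hzj : Nat.card (Subgroup.zpowers (j : G)) = p := by rw [Nat.card_zpowers, hjo]
  have hcommQ : ∀ a ∈ Q, ∀ b ∈ Q, a * b = b * a := by
    intro a ha b hb
    have := hc Q
    have h1 := (IsCyclic.commGroup (α := Q)).mul_comm
    letI := IsCyclic.commGroup (α := Q)
    have h2 : (⟨a, ha⟩ : Q) * ⟨b, hb⟩ = ⟨b, hb⟩ * ⟨a, ha⟩ := h1 _ _
    exact congrArg Subtype.val h2
  -- uniqueness part: if J normalises the conjugate, it is generated by j
  have huniq : ∀ g : G, (∀ a ∈ J, g⁻¹ * a * g ∈ Subgroup.normalizer (Subgroup.zpowers x : Set G)) →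
      Subgroup.zpowers (g * x * g⁻¹) = Subgroup.zpowers (j : G) := by
    intro g hg
    have h1 : J ≤ Subgroup.normalizer (Subgroup.zpowers (g * x * g⁻¹) : Set G) := by
      intro a ha
      rw [Subgroup.mem_normalizer_iff]
      have h2 : ∀ a ∈ J, ∀ y ∈ Subgroup.zpowers (g * x * g⁻¹), a * y * a⁻¹ ∈
          Subgroup.zpowers (g * x * g⁻¹) := by
        intro a ha y hy
        obtain ⟨n, rfl⟩ := Subgroup.mem_zpowers_iff.1 hy
        have h3 := (hnorm g a).1 (hg a ha)
        have h4 : a * (g * x * g⁻¹) ^ n * a⁻¹ = (a * (g * x * g⁻¹) * a⁻¹) ^ n :=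
          (conj_zpow (i := n) (a := a) (b := g * x * g⁻¹)).symm
        rw [h4]
        exact Subgroup.zpow_mem _ h3 n
      intro y
      constructor
      · exact h2 a ha y
      · intro hy
        have h5 := h2 a⁻¹ (J.inv_mem ha) _ hy
        have h6 : a⁻¹ * (a * y * a⁻¹) * a⁻¹⁻¹ = y := by group
        rwa [h6] at h5
    have h7 : IsPGroup p (J ⊔ Subgroup.zpowers (g * x * g⁻¹) : Subgroup G) :=
      hJ.to_sup_of_normal_right' (hpx g) h1
    obtain ⟨Q', hQ'⟩ := h7.exists_le_sylow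
    refine GR1_unique (p := p) (Q' : Subgroup G) _ _ (hc Q') (le_sup_right.trans hQ') ?_ (hcx g) hzj
    rw [Subgroup.zpowers_le]
    exact hQ' (le_sup_left (a := J) j.2)
  obtain ⟨Q1, hQ1⟩ := (hpx 1).exists_le_sylow
  obtain ⟨g, hg⟩ := MulAction.exists_smul_eq G Q1 Q
  have hgQ : Subgroup.zpowers (g * x * g⁻¹) ≤ (Q : Subgroup G) := by
    rw [Subgroup.zpowers_le, ← hg, Sylow.coe_subgroup_smul]
    refine ⟨x, ?_, rfl⟩
    have h8 : x = 1 * x * 1⁻¹ := by group
    exact hQ1 (by rw [← h8]; exact Subgroup.mem_zpowers x)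
  have heq : Subgroup.zpowers (g * x * g⁻¹) = Subgroup.zpowers (j : G) :=
    GR1_unique (p := p) (Q : Subgroup G) _ _ (hc Q) hgQ
      (by rw [Subgroup.zpowers_le]; exact hQ j.2) (hcx g) hzj
  refine ⟨g, ?_, ?_⟩
  · intro a ha
    rw [hnorm]
    have h9 : a * (g * x * g⁻¹) = (g * x * g⁻¹) * a :=
      hcommQ a (hQ ha) _ (hgQ (Subgroup.mem_zpowers _))
    rw [h9, mul_inv_cancel_right]
    exact Subgroup.mem_zpowers _
  · intro g' hg'
    have h10 := (huniq g' hg').trans heq.symm
    have h11 : (g⁻¹ * g') * x * (g⁻¹ * g')⁻¹ ∈ Subgroup.zpowers x := by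
      have h12 : g' * x * g'⁻¹ ∈ Subgroup.zpowers (g * x * g⁻¹) := by
        rw [← h10]
        exact Subgroup.mem_zpowers _
      obtain ⟨n, hn⟩ := Subgroup.mem_zpowers_iff.1 h12
      refine Subgroup.mem_zpowers_iff.2 ⟨n, ?_⟩
      rw [conj_zpow] at hn
      have h13 : x ^ n = g⁻¹ * (g' * x * g'⁻¹) * g := by
        rw [← hn]
        group
      rw [h13]
      group
    have h14 := (hnorm 1 (g⁻¹ * g')).2 (by simpa using h11)
    simpa using h14

/-- If `x` lies in exactly one maximal subgroup and its conjugates generate `G`, then `x` and one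
of its conjugates generate `G`. -/
theorem exists_g0 {G : Type} [Group G] [Finite G] (x : G)
    (hgen : Subgroup.normalClosure ({x} : Set G) = ⊤) (hM : ∃! M : Subgroup G, IsCoatom M ∧ x ∈ M) :
    ∃ g : G, Subgroup.closure ({x, g * x * g⁻¹} : Set G) = ⊤ := by
  obtain ⟨M, ⟨hM1, hM2⟩, hM3⟩ := hM
  by_contra hno
  push Not at hno
  have h1 : ∀ g : G, g * x * g⁻¹ ∈ M := by
    intro g
    have h2 := hno g
    obtain ⟨K, hK, hK2⟩ := (eq_top_or_exists_le_coatom
      (Subgroup.closure ({x, g * x * g⁻¹} : Set G))).resolve_left h2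
    have hxK : x ∈ K := hK2 (Subgroup.subset_closure (Set.mem_insert _ _))
    have hgK : g * x * g⁻¹ ∈ K :=
      hK2 (Subgroup.subset_closure (Set.mem_insert_of_mem _ (Set.mem_singleton _)))
    rwa [hM3 K ⟨hK, hxK⟩] at hgK
  have h3 : Subgroup.normalClosure ({x} : Set G) ≤ M := by
    rw [Subgroup.normalClosure, Subgroup.closure_le]
    intro y hy
    obtain ⟨z, hz, hzy⟩ := Group.mem_conjugatesOfSet_iff.1 hy
    rw [Set.mem_singleton_iff.1 hz] at hzy
    obtain ⟨c, hc⟩ := isConj_iff.1 hzy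
    rw [← hc]
    exact h1 c
  rw [hgen] at h3
  exact hM1.1 (top_le_iff.1 h3)

/-- The action of the normaliser on `⟨x⟩`. -/
theorem exists_chi {G : Type} [Group G] [Finite G] (x : G) :
    ∃ χ : G → ℕ, ∀ n ∈ Subgroup.normalizer (Subgroup.zpowers x : Set G), n * x * n⁻¹ = x ^ χ n := by
  have h : ∀ n : G, ∃ m : ℕ, n ∈ Subgroup.normalizer (Subgroup.zpowers x : Set G) →
      n * x * n⁻¹ = x ^ m := by
    intro n
    by_cases hn : n ∈ Subgroup.normalizer (Subgroup.zpowers x : Set G)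
    · have h1 : n * x * n⁻¹ ∈ Subgroup.zpowers x :=
        (Subgroup.mem_normalizer_iff.1 hn x).1 (Subgroup.mem_zpowers x)
      rw [mem_zpowers_iff_mem_range_orderOf] at h1
      obtain ⟨m, -, hm⟩ := Finset.mem_image.1 h1
      exact ⟨m, fun _ => hm.symm⟩
    · exact ⟨0, fun h => absurd h hn⟩
  choose χ hχ using h
  exact ⟨χ, hχ⟩

end Pool.Agent.MP_1c8e06_ag.CY
end

section

set_option autoImplicit false

open Polynomial

namespace Pool.Agent.MP_1c8e06_ag.AK

noncomputable section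

/-!
# Task D2d: a dual system

Proof of `exists_dual`.  For `σ ≠ 1` let `1 = ∑_i u_i (v_i - σ v_i)`.  Put `u_0 := 1 - ∑ u_i v_i`... precisely: the family `(U_j, V_j)` consisting of all `(u_i, v_i)` and the pair
`(- ∑ u_i (σ v_i), 1)` satisfies `∑ U_j V_j = ∑ u_i v_i - ∑ u_i σ v_i = 1` and `∑ U_j σ(V_j) = ∑ u_i σ(v_i) - ∑ u_i σ(v_i) = 0`.  For the finitely many `σ ≠ 1` multiply: the family indexed by
tuples `(j_σ)_σ` of `(∏_σ U^σ_{j_σ}, ∏_σ V^σ_{j_σ})` satisfies `∑ U γ(V) = ∏_σ (∑_j U^σ_j γ(V^σ_j))`, which is `1` for `γ = 1` and `0` for `γ ≠ 1` (the factor `σ = γ`) (`Finset.prod_univ_sum`, or induction on the set of `σ`'s).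
Reindex by `Fin n` (`Fintype.equivFin`).
-/

/-- The dual system for a finite set of group elements. -/
private theorem D2d_aux {k N Γ : Type} [Field k] [IsAlgClosed k] [Field N] [Group Γ] [Finite Γ]
    [MulSemiringAction Γ N] {ψ : RatFunc k →+* N} (h : IsG ψ Γ ⊥) (hu : Unr ψ) (S : Finset Γ) :
    (1 : Γ) ∉ S → ∃ (n : ℕ) (u v : Fin n → N), (∀ i, u i ∈ OO ψ) ∧ (∀ i, v i ∈ OO ψ) ∧
      ∑ i, u i * v i = 1 ∧ ∀ γ ∈ S, ∑ i, u i * γ • v i = 0 := by
  classical
  induction S using Finset.induction_on with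
  | empty =>
    intro _
    refine ⟨1, fun _ => 1, fun _ => 1, fun _ => (OO ψ).one_mem, fun _ => (OO ψ).one_mem, ?_, ?_⟩
    · simp
    · intro γ hγ
      simp at hγ
  | insert σ S hσS ih =>
    intro h1
    have hσ : σ ≠ 1 := fun hh => h1 (hh ▸ Finset.mem_insert_self σ S)
    have h1S : (1 : Γ) ∉ S := fun hh => h1 (Finset.mem_insert_of_mem hh)
    obtain ⟨n, u, v, hu', hv', h11, h0⟩ := ih h1S
    obtain ⟨m, a, b, ha, hb, hab⟩ := exists_sep h hu σ hσ
    -- the extended family for `σ`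
    let U : Fin (m + 1) → N := Fin.cons (-∑ i, a i * σ • b i) a
    let V : Fin (m + 1) → N := Fin.cons 1 b
    have hU : ∀ j, U j ∈ OO ψ := by
      intro j
      refine Fin.cases ?_ (fun i => ?_) j
      · exact (OO ψ).neg_mem ((OO ψ).sum_mem fun i _ => (OO ψ).mul_mem (ha i) (OO_smul h σ (hb i)))
      · exact ha i
    have hV : ∀ j, V j ∈ OO ψ := by
      intro j
      refine Fin.cases ?_ (fun i => ?_) j
      · exact (OO ψ).one_mem
      · exact hb i
    have hUV : ∑ j, U j * V j = 1 := by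
      rw [Fin.sum_univ_succ]
      simp only [U, V, Fin.cons_zero, Fin.cons_succ, mul_one]
      rw [← hab, neg_add_eq_sub, ← Finset.sum_sub_distrib]
      exact Finset.sum_congr rfl fun i _ => by ring
    have hUσ : ∑ j, U j * σ • V j = 0 := by
      rw [Fin.sum_univ_succ]
      simp only [U, V, Fin.cons_zero, Fin.cons_succ, smul_one, mul_one]
      exact neg_add_cancel _
    have key : ∀ γ : Γ, ∑ x : Fin (n * (m + 1)),
        (u (finProdFinEquiv.symm x).1 * U (finProdFinEquiv.symm x).2) *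
          γ • (v (finProdFinEquiv.symm x).1 * V (finProdFinEquiv.symm x).2) =
        (∑ i, u i * γ • v i) * ∑ j, U j * γ • V j := by
      intro γ
      rw [Finset.sum_mul_sum, ← Finset.sum_product', Finset.univ_product_univ]
      rw [← Equiv.sum_comp finProdFinEquiv]
      refine Finset.sum_congr rfl fun x _ => ?_
      rw [Equiv.symm_apply_apply, smul_mul']
      ring
    refine ⟨n * (m + 1), fun x => u (finProdFinEquiv.symm x).1 * U (finProdFinEquiv.symm x).2,
      fun x => v (finProdFinEquiv.symm x).1 * V (finProdFinEquiv.symm x).2,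
      fun x => (OO ψ).mul_mem (hu' _) (hU _), fun x => (OO ψ).mul_mem (hv' _) (hV _), ?_, ?_⟩
    · have h2 := key 1
      simp only [one_smul] at h2
      rw [h2, h11, hUV, mul_one]
    · intro γ hγ
      rw [key γ]
      rcases Finset.mem_insert.1 hγ with rfl | hγ'
      · rw [hUσ, mul_zero]
      · rw [h0 γ hγ', zero_mul]

theorem exists_dual {k N Γ : Type} [Field k] [IsAlgClosed k] [Field N] [Group Γ] [Finite Γ]
    [MulSemiringAction Γ N] {ψ : RatFunc k →+* N} (h : IsG ψ Γ ⊥) (hu : Unr ψ) :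
    ∃ (n : ℕ) (u v : Fin n → N), (∀ i, u i ∈ OO ψ) ∧ (∀ i, v i ∈ OO ψ) ∧
      ∀ γ : Γ, ∑ i, u i * γ • v i = (open Classical in if γ = 1 then 1 else 0) := by
  classical
  have := Fintype.ofFinite Γ
  obtain ⟨n, u, v, hu', hv', h1, h0⟩ := D2d_aux h hu (Finset.univ.erase (1 : Γ))
    (Finset.notMem_erase _ _)
  refine ⟨n, u, v, hu', hv', fun γ => ?_⟩
  by_cases hγ : γ = 1
  · rw [if_pos hγ, hγ]
    simpa using h1
  · rw [if_neg hγ]
    exact h0 γ (Finset.mem_erase.2 ⟨hγ, Finset.mem_univ _⟩)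

end

end Pool.Agent.MP_1c8e06_ag.AK
end

section

set_option autoImplicit false

open Polynomial

namespace Pool.Agent.MP_1c8e06_ag.AK

noncomputable section

/-!
# Task D3: from the covering to the explicit data (assembly)

Proof.  `S := (OO ψ).map j`, a subring of `EE p F`; `j` is injective, so `OO ψ ≃+* S` and `Γ` acts on `S`: `act : Γ →* (S ≃+* S)`, `act γ (j a) = j (γ • a)` (`OO_smul`).  `AI.exists_ind` (`AI/IND.lean`; `Fintype.ofFinite Γ`) with `H₀ := Γ`, `g₀ := t`:
`htau`: `ht`; `hze`: `OO_alg`, `hj`; `hact_ze`: `h.smul_ψ`; `hfin`: `OO_finite`; `hinv`: `OO_fixed`; `hdual`: `exists_dual`; `hker`.  Result `W : AI.W0 p k G g F` with `f 1 = 0 → f (φ h) = 0` for `f ∈ W.S`.  `AI.exists_WD` with `H := ⊤` (`φ` is onto): `D`, `D.Conn ⊤`.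
`Conn → Conn'`: let `∑ l, ze (f l) * b l x = ze (C (c x))` for all `x`.  Put `f' l := f l - C (c 1) * ν l`: `∑ l, ze (f' l) * b l x = ze (C (c x)) - ze (C (c 1))` (`D.hone`); it vanishes at `x = 1`, so at every `h`: `ze (C (c h)) = ze (C (c 1))`,
`c h = c 1` (`AI.ze_injective`, `C_injective`).
-/

theorem conn'_of_conn {p : ℕ} [hp : Fact p.Prime] {k : Type} [Field k] [CharP k p] {G : Type}
    [Group G] [Fintype G] {g : G} {F : k[X]} (D : AI.WD p k G g F) (H : Subgroup G)
    (hD : D.Conn H) : D.Conn' H := by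
  intro h hh f c hf
  have key : ∀ x, ∑ l, AI.ze p F (f l - C (c 1) * D.ν l) * D.b l x =
      AI.ze p F (C (c x)) - AI.ze p F (C (c 1)) := by
    intro x
    have h1 : ∀ l, AI.ze p F (f l - C (c 1) * D.ν l) * D.b l x =
        AI.ze p F (f l) * D.b l x - AI.ze p F (C (c 1)) * (AI.ze p F (D.ν l) * D.b l x) := by
      intro l
      rw [map_sub, map_mul]
      ring
    rw [Finset.sum_congr rfl fun l _ => h1 l, Finset.sum_sub_distrib, hf x, ← Finset.mul_sum,
      D.hone x, mul_one]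
  have h2 := hD h hh (fun l => f l - C (c 1) * D.ν l) (by rw [key, sub_self])
  rw [key, sub_eq_zero] at h2
  exact C_injective (AI.ze_injective h2)

/-- The action of `Γ` on the integral closure. -/
private def D3_rho {k N Γ : Type} [Field k] [Field N] [Group Γ] [MulSemiringAction Γ N]
    {ψ : RatFunc k →+* N} {Z : Subgroup Γ} (h : IsG ψ Γ Z) : Γ →* (OO ψ ≃+* OO ψ) where
  toFun γ :=
    { toFun := fun a => ⟨γ • (a : N), OO_smul h γ a.2⟩
      invFun := fun a => ⟨γ⁻¹ • (a : N), OO_smul h γ⁻¹ a.2⟩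
      left_inv := fun a => Subtype.ext (inv_smul_smul γ (a : N))
      right_inv := fun a => Subtype.ext (smul_inv_smul γ (a : N))
      map_mul' := fun a b => Subtype.ext (smul_mul' γ (a : N) (b : N))
      map_add' := fun a b => Subtype.ext (smul_add γ (a : N) (b : N)) }
  map_one' := by
    ext a
    exact one_smul Γ (a : N)
  map_mul' γ γ' := by
    ext a
    exact mul_smul γ γ' (a : N)

private theorem D3_rho_apply {k N Γ : Type} [Field k] [Field N] [Group Γ] [MulSemiringAction Γ N]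
    {ψ : RatFunc k →+* N} {Z : Subgroup Γ} (h : IsG ψ Γ Z) (γ : Γ) (a : OO ψ) :
    ((D3_rho h γ a : OO ψ) : N) = γ • (a : N) := rfl

/-- The action transported along a ring isomorphism. -/
private def D3_act {Γ A B : Type} [Group Γ] [Ring A] [Ring B] (e : A ≃+* B)
    (ρ : Γ →* (A ≃+* A)) : Γ →* (B ≃+* B) where
  toFun γ := (e.symm.trans (ρ γ)).trans e
  map_one' := by
    ext b
    simp
  map_mul' γ γ' := by
    ext b
    simp

private theorem D3_act_apply {Γ A B : Type} [Group Γ] [Ring A] [Ring B] (e : A ≃+* B)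
    (ρ : Γ →* (A ≃+* A)) (γ : Γ) (a : A) : D3_act e ρ γ (e a) = e (ρ γ a) := by
  change e (ρ γ (e.symm (e a))) = e (ρ γ a)
  rw [e.symm_apply_apply]

theorem wd_of_cover {p : ℕ} [hp : Fact p.Prime] {k : Type} [Field k] [IsAlgClosed k] [CharP k p]
    {F : k[X]} (hF : ¬ p ∣ F.natDegree) {N Γ : Type} [Field N] [Group Γ] [Finite Γ]
    [MulSemiringAction Γ N] {ψ : RatFunc k →+* N} (h : IsG ψ Γ ⊥) (hu : Unr ψ)
    (j : N →+* AI.EE p F) (hj : ∀ f : k[X], j (ψ (algebraMap k[X] (RatFunc k) f)) = AI.ze p F f)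
    (t : Γ) (ht : ∀ a, j (t • a) = AI.tau p F (j a)) {G : Type} [Group G] [Fintype G] (g : G)
    (φ : Γ →* G) (hφt : φ t = g) (hφ : Function.Surjective φ) (hker : ¬ p ∣ Nat.card φ.ker) :
    ∃ D : AI.WD p k G g F, D.Conn' ⊤ := by
  letI : Fintype Γ := Fintype.ofFinite Γ
  have hdom : IsDomain (AI.EE p F) := AI.isDomain_EE hF
  have hinj : Function.Injective j := j.injective
  obtain ⟨e, he⟩ : ∃ e : OO ψ ≃+* (OO ψ).map j, ∀ a : OO ψ, ((e a : (OO ψ).map j) : AI.EE p F) =
      j (a : N) := ⟨(OO ψ).equivMapOfInjective j hinj, fun a => rfl⟩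
  have hact : ∀ (γ : Γ) (a : OO ψ), ((D3_act e (D3_rho h) γ (e a) : (OO ψ).map j) : AI.EE p F) =
      j (γ • (a : N)) := by
    intro γ a
    rw [D3_act_apply, he, D3_rho_apply]
  have hze : ∀ P : k[X], AI.ze p F P ∈ (OO ψ).map j := fun P => ⟨_, OO_alg ψ P, hj P⟩
  have hzee : ∀ P : k[X], (⟨AI.ze p F P, hze P⟩ : (OO ψ).map j) =
      e ⟨ψ (algebraMap k[X] (RatFunc k) P), OO_alg ψ P⟩ := by
    intro P
    apply Subtype.ext
    rw [he]
    exact (hj P).symm
  have hsurj : ∀ s : (OO ψ).map j, ∃ a : OO ψ, s = e a := fun s => ⟨e.symm s, (e.apply_symm_apply s).symm⟩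
  obtain ⟨W, hW⟩ := AI.exists_ind (g := g) ((OO ψ).map j) (D3_act e (D3_rho h)) φ t hφt
    (by
      intro s
      obtain ⟨a, rfl⟩ := hsurj s
      rw [hact, ht, he]) hze
    (by
      intro γ P
      rw [hzee]
      apply Subtype.ext
      rw [hact, he]
      exact congrArg j (h.smul_ψ γ _))
    (by
      obtain ⟨n, v, hv, hs⟩ := OO_finite h
      refine ⟨n, fun i => e ⟨v i, hv i⟩, fun s => ?_⟩
      obtain ⟨a, rfl⟩ := hsurj s
      obtain ⟨c, hc⟩ := hs a a.2
      refine ⟨c, ?_⟩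
      rw [he, hc, map_sum]
      refine Finset.sum_congr rfl fun i _ => ?_
      rw [map_mul, hj, he])
    (by
      intro s hs
      obtain ⟨a, rfl⟩ := hsurj s
      obtain ⟨f, hf⟩ := OO_fixed h a.2 (by
        intro γ
        have h1 := congrArg (fun s : (OO ψ).map j => (s : AI.EE p F)) (hs γ)
        simp only [hact, he] at h1
        exact hinj h1)
      exact ⟨f, by rw [he, hf, hj]⟩)
    (by
      obtain ⟨n, u, v, hu1, hv1, hd⟩ := exists_dual h hu
      refine ⟨n, fun i => e ⟨u i, hu1 i⟩, fun i => e ⟨v i, hv1 i⟩, fun γ _ => ?_⟩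
      apply Subtype.ext
      have h1 := congrArg j (hd γ)
      rw [map_sum] at h1
      rw [AddSubmonoidClass.coe_finsetSum]
      have h2 : ∀ i, ((e ⟨u i, hu1 i⟩ * D3_act e (D3_rho h) γ (e ⟨v i, hv1 i⟩) : (OO ψ).map j) :
          AI.EE p F) = j (u i * γ • v i) := by
        intro i
        rw [MulMemClass.coe_mul, hact, he, map_mul]
      rw [Finset.sum_congr rfl fun i _ => h2 i, h1]
      by_cases hγ : γ = 1
      · rw [if_pos hγ, if_pos hγ, map_one, OneMemClass.coe_one]
      · rw [if_neg hγ, if_neg hγ, map_zero, ZeroMemClass.coe_zero])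
    hker
  obtain ⟨D, hD⟩ := AI.exists_WD W hF ⊤ (fun g' _ f hf h1 => by
    obtain ⟨γ, rfl⟩ := hφ g'
    exact hW γ f hf h1)
  exact ⟨D, conn'_of_conn D ⊤ hD⟩

end

end Pool.Agent.MP_1c8e06_ag.AK
end
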