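import Pool.Agent.Lib.MP_1c8e06_ag.Mg.G021
import Pool.Agent.Lib.MP_1c8e06_ag.AK.Defs

section

set_option autoImplicit false

open Polynomial

namespace Pool.Agent.MP_1c8e06_ag.AK

noncomputable section

/-!
# Task E1: adjoining an `ℓ`-th root with a group action

Proof.  `X ^ ℓ - C β` is irreducible over `M` (`X_pow_sub_C_irreducible_of_prime`: `ℓ` prime, `β` not an `ℓ`-th power).
`M' := AdjoinRoot (X ^ ℓ - C β)`, a field; `i := AdjoinRoot.of _`, `z := AdjoinRoot.root _`, `z ^ ℓ = i β`.
Universal property: `AdjoinRoot.lift η w`.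
Action: for `g : R` let `A g : M' →+* M' := AdjoinRoot.lift (i.comp (g • ·)) (i (a g) * z) _`: `(i (a g) * z) ^ ℓ = i (a g ^ ℓ * β) = i (g • β)` (`hβ`), and
`eval₂` of `X ^ ℓ - C β`.  `A 1 = id` (`ha.one`), `A (g * h) = (A g).comp (A h)` by `AdjoinRoot.ringHom_ext`: at `z`: `A g (i (a h) * z) = i (g • a h) * i (a g) * z =
i (a (g * h)) * z` (`ha.mul`).  So a `MulSemiringAction R M'` (`MulSemiringAction` with `smul g x := A g x`).
`IsG (i.comp ψ) R ⊥`: `IsG.of_card` (algebra structure `(i.comp ψ).toAlgebra`): faithful: if `g` acts trivially on `M'` then it does on `M` (`i` injective), so `g ∈ Z`, and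
`i (a g) * z = z`, `z ≠ 0` (`β ≠ 0` as `0 ^ ℓ ≠ β`), so `a g = 1`, `g = 1` (`haZ`).  `[M' : K] = [M' : M] [M : K] = ℓ * Z.index = card Z * Z.index = card R`
(`AdjoinRoot`/`PowerBasis.finrank`, `IsG.finrank`, `Module.finrank_mul_finrank` for the tower `K → M → M'`).
-/

section
variable {M R : Type} [Field M] [Group R] [MulSemiringAction R M] {ℓ : ℕ}

private theorem E1_root (β : M) : AdjoinRoot.root (X ^ ℓ - C β) ^ ℓ =
    AdjoinRoot.of (X ^ ℓ - C β) β := by
  have h := AdjoinRoot.eval₂_root (X ^ ℓ - C β)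
  rw [eval₂_sub, eval₂_pow, eval₂_X, eval₂_C] at h
  exact sub_eq_zero.1 h

private theorem E1_lift {T : Type} [CommRing T] (β : M) (η : M →+* T) (w : T) (hw : w ^ ℓ = η β) :
    (X ^ ℓ - C β).eval₂ η w = 0 := by
  rw [eval₂_sub, eval₂_pow, eval₂_X, eval₂_C, hw, sub_self]

private theorem E1_act {a : R → M} {β : M} (hβ : ∀ g : R, g • β = a g ^ ℓ * β) (g : R) :
    (AdjoinRoot.of (X ^ ℓ - C β) (a g) * AdjoinRoot.root (X ^ ℓ - C β)) ^ ℓ =
      ((AdjoinRoot.of (X ^ ℓ - C β)).comp (MulSemiringAction.toRingHom R M g)) β := by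
  rw [mul_pow, E1_root, ← map_pow, ← map_mul, RingHom.comp_apply, MulSemiringAction.toRingHom_apply,
    hβ g]

/-- The automorphism of the extension. -/
private def E1_A {a : R → M} {β : M} (hβ : ∀ g : R, g • β = a g ^ ℓ * β) (g : R) :
    AdjoinRoot (X ^ ℓ - C β) →+* AdjoinRoot (X ^ ℓ - C β) :=
  AdjoinRoot.lift ((AdjoinRoot.of (X ^ ℓ - C β)).comp (MulSemiringAction.toRingHom R M g))
    (AdjoinRoot.of (X ^ ℓ - C β) (a g) * AdjoinRoot.root (X ^ ℓ - C β))
    (E1_lift β _ _ (E1_act hβ g))

private theorem E1_A_of {a : R → M} {β : M} (hβ : ∀ g : R, g • β = a g ^ ℓ * β) (g : R) (m : M) :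
    E1_A hβ g (AdjoinRoot.of (X ^ ℓ - C β) m) = AdjoinRoot.of (X ^ ℓ - C β) (g • m) := by
  rw [E1_A, AdjoinRoot.lift_of]
  rfl

private theorem E1_A_root {a : R → M} {β : M} (hβ : ∀ g : R, g • β = a g ^ ℓ * β) (g : R) :
    E1_A hβ g (AdjoinRoot.root (X ^ ℓ - C β)) =
      AdjoinRoot.of (X ^ ℓ - C β) (a g) * AdjoinRoot.root (X ^ ℓ - C β) := by
  rw [E1_A, AdjoinRoot.lift_root]

private theorem E1_ext {T : Type} [CommRing T] {β : M} {f g : AdjoinRoot (X ^ ℓ - C β) →+* T}
    (h1 : ∀ m, f (AdjoinRoot.of (X ^ ℓ - C β) m) = g (AdjoinRoot.of (X ^ ℓ - C β) m))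
    (h2 : f (AdjoinRoot.root (X ^ ℓ - C β)) = g (AdjoinRoot.root (X ^ ℓ - C β))) : f = g := by
  refine Ideal.Quotient.ringHom_ext (Polynomial.ringHom_ext ?_ ?_)
  · intro m
    exact h1 m
  · exact h2

private theorem E1_A_one {a : R → M} (ha : IsCr ⊤ a) {β : M}
    (hβ : ∀ g : R, g • β = a g ^ ℓ * β) : E1_A hβ 1 = RingHom.id _ := by
  refine E1_ext (fun m => ?_) ?_
  · rw [E1_A_of, one_smul, RingHom.id_apply]
  · rw [E1_A_root, ha.one, map_one, one_mul, RingHom.id_apply]

private theorem E1_A_mul {a : R → M} (ha : IsCr ⊤ a) {β : M}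
    (hβ : ∀ g : R, g • β = a g ^ ℓ * β) (g h : R) :
    E1_A hβ (g * h) = (E1_A hβ g).comp (E1_A hβ h) := by
  refine E1_ext (fun m => ?_) ?_
  · rw [RingHom.comp_apply, E1_A_of, E1_A_of, E1_A_of, mul_smul]
  · rw [RingHom.comp_apply, E1_A_root, E1_A_root, map_mul, E1_A_of, E1_A_root,
      ha.mul g (Subgroup.mem_top g) h (Subgroup.mem_top h), map_mul]
    ring

end

theorem exists_kummer {K M R : Type} [Field K] [Field M] [Group R] [Finite R]
    [MulSemiringAction R M] {ψ : K →+* M} {Z : Subgroup R} (h : IsG ψ R Z) {ℓ : ℕ}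
    [hℓ : Fact ℓ.Prime] (hZ : Nat.card Z = ℓ) (a : R → M) (ha : IsCr ⊤ a)
    (haZ : ∀ z ∈ Z, a z = 1 → z = 1) (β : M) (hβ : ∀ g : R, g • β = a g ^ ℓ * β)
    (hβℓ : ∀ m : M, m ^ ℓ ≠ β) :
    ∃ (M' : Type) (_ : Field M') (_ : MulSemiringAction R M') (i : M →+* M') (z : M'),
      IsG (i.comp ψ) R (⊥ : Subgroup R) ∧ z ^ ℓ = i β ∧ (∀ (g : R) (m : M), g • i m = i (g • m)) ∧
      (∀ g : R, g • z = i (a g) * z) ∧
      ∀ (T : Type) [Field T] (η : M →+* T) (w : T), w ^ ℓ = η β →
        ∃ η' : M' →+* T, η'.comp i = η ∧ η' z = w := by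
  have hirr : Irreducible (X ^ ℓ - C β) := X_pow_sub_C_irreducible_of_prime hℓ.out hβℓ
  have : Fact (Irreducible (X ^ ℓ - C β)) := ⟨hirr⟩
  let act : MulSemiringAction R (AdjoinRoot (X ^ ℓ - C β)) :=
    { smul := fun g x => E1_A hβ g x
      one_smul := fun x => by
        show E1_A hβ 1 x = x
        rw [E1_A_one ha hβ, RingHom.id_apply]
      mul_smul := fun g h x => by
        show E1_A hβ (g * h) x = E1_A hβ g (E1_A hβ h x)
        rw [E1_A_mul ha hβ, RingHom.comp_apply]
      smul_zero := fun g => map_zero (E1_A hβ g)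
      smul_add := fun g x y => map_add (E1_A hβ g) x y
      smul_one := fun g => map_one (E1_A hβ g)
      smul_mul := fun g x y => map_mul (E1_A hβ g) x y }
  have hsmul : ∀ (g : R) (x : AdjoinRoot (X ^ ℓ - C β)), g • x = E1_A hβ g x := fun _ _ => rfl
  refine ⟨AdjoinRoot (X ^ ℓ - C β), inferInstance, act, AdjoinRoot.of (X ^ ℓ - C β),
    AdjoinRoot.root (X ^ ℓ - C β), ?_, E1_root β, ?_, ?_, ?_⟩
  · let alg1 : Algebra K M := ψ.toAlgebra
    have halg : algebraMap K (AdjoinRoot (X ^ ℓ - C β)) = (AdjoinRoot.of (X ^ ℓ - C β)).comp ψ :=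
      AdjoinRoot.algebraMap_eq' K _
    have fd1 : FiniteDimensional K M := h.finiteDimensional rfl
    have hmon : (X ^ ℓ - C β).Monic := monic_X_pow_sub_C β hℓ.out.ne_zero
    have fd2 : FiniteDimensional M (AdjoinRoot (X ^ ℓ - C β)) :=
      (AdjoinRoot.powerBasis hirr.ne_zero).finite
    have hfin2 : Module.finrank M (AdjoinRoot (X ^ ℓ - C β)) = ℓ := by
      rw [(AdjoinRoot.powerBasis hirr.ne_zero).finrank, AdjoinRoot.powerBasis_dim,
        natDegree_X_pow_sub_C]
    have fd3 : FiniteDimensional K (AdjoinRoot (X ^ ℓ - C β)) :=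
      FiniteDimensional.trans K M _
    refine IsG.of_card _ halg ?_ ?_ fd3 ?_
    · intro r hr
      have hβ0 : β ≠ 0 := by
        rintro rfl
        exact hβℓ 0 (zero_pow hℓ.out.ne_zero)
      have hrZ : r ∈ Z := by
        refine (h.ker r).1 fun m => ?_
        have h1 := hr (AdjoinRoot.of (X ^ ℓ - C β) m)
        rw [hsmul, E1_A_of] at h1
        exact (AdjoinRoot.of (X ^ ℓ - C β)).injective h1
      refine haZ r hrZ ?_
      have h2 := hr (AdjoinRoot.root (X ^ ℓ - C β))
      rw [hsmul, E1_A_root] at h2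
      have hz0 : AdjoinRoot.root (X ^ ℓ - C β) ≠ 0 := by
        intro h0
        have h3 := E1_root (ℓ := ℓ) β
        rw [h0, zero_pow hℓ.out.ne_zero] at h3
        exact hβ0 ((map_eq_zero _).1 h3.symm)
      have h4 : AdjoinRoot.of (X ^ ℓ - C β) (a r) = 1 :=
        mul_right_cancel₀ hz0 (h2.trans (one_mul _).symm)
      exact (AdjoinRoot.of (X ^ ℓ - C β)).injective (h4.trans (map_one _).symm)
    · intro r x
      rw [hsmul, RingHom.comp_apply, E1_A_of, h.smul_ψ]
    · rw [← Module.finrank_mul_finrank K M (AdjoinRoot (X ^ ℓ - C β)), hfin2, h.finrank rfl,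
        mul_comm, ← hZ, Subgroup.card_mul_index]
  · intro g m
    rw [hsmul, E1_A_of]
  · intro g
    rw [hsmul, E1_A_root]
  · intro T _ η w hw
    refine ⟨AdjoinRoot.lift η w (E1_lift β η w hw), ?_, ?_⟩
    · refine RingHom.ext fun m => ?_
      rw [RingHom.comp_apply, AdjoinRoot.lift_of]
    · rw [AdjoinRoot.lift_root]

end

end Pool.Agent.MP_1c8e06_ag.AK
end

section

set_option autoImplicit false

open Polynomial

namespace Pool.Agent.MP_1c8e06_ag.AK

noncomputable section

/-!
# Task L1: roots of Laurent series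

Proof.  `f = t ^ m' * g`, `m' = f.order = m * q`, `g` a power series with constant coefficient `c ≠ 0`.  Choose `d ∈ k`, `d ^ m = c`
(`IsAlgClosed.exists_pow_nat_eq`, `m > 0` since `(m : k) ≠ 0`).  A power series with constant coefficient `c` has an `m`-th root with
constant coefficient `d`: Hensel (`PowerSeries k` is `HenselianLocalRing`/adically complete) or directly: construct the coefficients
recursively (`m d ^ (m-1) ≠ 0`); another way: `g = c (1 + u)`, `u` with zero constant coefficient, and approximate: a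
sequence `r_n ∈ k[[t]]` with `r_n ^ m ≡ g mod t ^ n`, `r_{n+1} ≡ r_n mod t ^ n`.  (See `AJ/C1.lean`, `AI/*` for similar
arguments.)  In Mathlib: `PowerSeries` instance `HenselianLocalRing`? / `IsAdicComplete`; `HenselianRing.is_henselian`.
The root is `single q 1 * ofPowerSeries r`.
-/

/-- The approximations of the root. -/
private def L1_G {k : Type} [Field k] (f : PowerSeries k) (d : k) (m : ℕ) : ℕ → PowerSeries k
  | 0 => PowerSeries.C d
  | n + 1 => L1_G f d m n + PowerSeries.C ((PowerSeries.coeff (n + 1) f -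
      PowerSeries.coeff (n + 1) (L1_G f d m n ^ m)) / ((m : k) * d ^ (m - 1))) * PowerSeries.X ^ (n + 1)

private lemma L1_const {k : Type} [Field k] (f : PowerSeries k) (d : k) (m : ℕ) (n : ℕ) :
    PowerSeries.constantCoeff (L1_G f d m n) = d := by
  induction n with
  | zero => simp [L1_G]
  | succ n ih =>
    rw [L1_G, map_add, ih, map_mul, map_pow PowerSeries.constantCoeff PowerSeries.X,
      PowerSeries.constantCoeff_X, zero_pow (by omega), mul_zero, add_zero]

private lemma L1_dvd {k : Type} [Field k] {m : ℕ} (hm : (m : k) ≠ 0) (f : PowerSeries k) (d : k)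
    (hd : d ≠ 0) (hf : PowerSeries.constantCoeff f = d ^ m) (n : ℕ) :
    (PowerSeries.X : PowerSeries k) ^ (n + 1) ∣ L1_G f d m n ^ m - f := by
  induction n with
  | zero =>
    rw [zero_add, pow_one, PowerSeries.X_dvd_iff, map_sub, map_pow, L1_const, hf, sub_self]
  | succ n ih =>
    obtain ⟨h, hh⟩ := ih
    set c : k := (PowerSeries.coeff (n + 1) f -
      PowerSeries.coeff (n + 1) (L1_G f d m n ^ m)) / ((m : k) * d ^ (m - 1)) with hc
    have h0 : PowerSeries.constantCoeff h =
        PowerSeries.coeff (n + 1) (L1_G f d m n ^ m) - PowerSeries.coeff (n + 1) f := by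
      have h1 := congrArg (PowerSeries.coeff (n + 1)) hh
      rw [map_sub] at h1
      rw [h1, ← PowerSeries.coeff_zero_eq_constantCoeff_apply]
      have h2 := PowerSeries.coeff_X_pow_mul h (n + 1) 0
      rw [zero_add] at h2
      exact h2.symm
    have hG : L1_G f d m (n + 1) = L1_G f d m n + PowerSeries.C c * PowerSeries.X ^ (n + 1) := rfl
    obtain ⟨z, hz⟩ := Polynomial.powAddExpansion (L1_G f d m n)
      (PowerSeries.C c * PowerSeries.X ^ (n + 1)) m
    have hmd : (m : k) * d ^ (m - 1) ≠ 0 := mul_ne_zero hm (pow_ne_zero _ hd)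
    have h3 : (PowerSeries.X : PowerSeries k) ∣
        h + (m : PowerSeries k) * L1_G f d m n ^ (m - 1) * PowerSeries.C c := by
      rw [PowerSeries.X_dvd_iff, map_add, map_mul, map_mul, map_pow, L1_const, h0, map_natCast,
        PowerSeries.constantCoeff_C, hc]
      field_simp
      ring
    obtain ⟨w, hw⟩ := h3
    have h4 : L1_G f d m (n + 1) ^ m - f =
        PowerSeries.X ^ (n + 1) * (h + (m : PowerSeries k) * L1_G f d m n ^ (m - 1) * PowerSeries.C c)
          + z * PowerSeries.C c ^ 2 * PowerSeries.X ^ n * PowerSeries.X ^ (n + 1 + 1) := by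
      rw [hG, hz, mul_add, ← hh]
      ring
    rw [h4, hw]
    refine dvd_add ⟨w, by ring⟩ ⟨z * PowerSeries.C c ^ 2 * PowerSeries.X ^ n, by ring⟩

private lemma L1_stable {k : Type} [Field k] (f : PowerSeries k) (d : k) (m : ℕ) (n i : ℕ) :
    (PowerSeries.X : PowerSeries k) ^ (n + 1) ∣ L1_G f d m (n + i) - L1_G f d m n := by
  induction i with
  | zero => simp
  | succ i ih =>
    have h1 : L1_G f d m (n + (i + 1)) - L1_G f d m n = (L1_G f d m (n + i) - L1_G f d m n) +
        PowerSeries.C ((PowerSeries.coeff (n + i + 1) f -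
      PowerSeries.coeff (n + i + 1) (L1_G f d m (n + i) ^ m)) / ((m : k) * d ^ (m - 1))) *
        PowerSeries.X ^ (n + i + 1) := by
      rw [← add_assoc, L1_G]
      ring
    rw [h1]
    refine dvd_add ih (Dvd.dvd.mul_left ?_ _)
    exact pow_dvd_pow _ (by omega)

/-- A power series with nonzero constant coefficient `d ^ m` has an `m`-th root with constant coefficient `d`. -/
theorem exists_root_ps {k : Type} [Field k] {m : ℕ} (hm : (m : k) ≠ 0) (f : PowerSeries k) (d : k)
    (hd : d ≠ 0) (hf : PowerSeries.constantCoeff f = d ^ m) :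
    ∃ g : PowerSeries k, g ^ m = f ∧ PowerSeries.constantCoeff g = d := by
  refine ⟨PowerSeries.mk fun n => PowerSeries.coeff n (L1_G f d m n), ?_, ?_⟩
  · have h1 : ∀ n : ℕ, (PowerSeries.X : PowerSeries k) ^ (n + 1) ∣
        (PowerSeries.mk fun n => PowerSeries.coeff n (L1_G f d m n)) - L1_G f d m n := by
      intro n
      rw [PowerSeries.X_pow_dvd_iff]
      intro j hj
      obtain ⟨i, rfl⟩ := Nat.exists_eq_add_of_le (Nat.lt_succ_iff.1 hj)
      rw [map_sub, PowerSeries.coeff_mk]
      have h2 := (PowerSeries.X_pow_dvd_iff.1 (L1_stable f d m j i)) j (Nat.lt_succ_self j)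
      rw [map_sub] at h2
      rw [← neg_sub, h2, neg_zero]
    ext n
    have h3 : (PowerSeries.X : PowerSeries k) ^ (n + 1) ∣
        (PowerSeries.mk fun n => PowerSeries.coeff n (L1_G f d m n)) ^ m - f := by
      have h4 := (h1 n).trans (sub_dvd_pow_sub_pow _ _ m)
      have h5 := dvd_add h4 (L1_dvd hm f d hd hf n)
      rwa [sub_add_sub_cancel] at h5
    have h6 := (PowerSeries.X_pow_dvd_iff.1 h3) n (Nat.lt_succ_self n)
    rw [map_sub, sub_eq_zero] at h6
    exact h6
  · rw [← PowerSeries.coeff_zero_eq_constantCoeff_apply, PowerSeries.coeff_mk,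
      PowerSeries.coeff_zero_eq_constantCoeff_apply, L1_const]

theorem exists_root_L {k : Type} [Field k] [IsAlgClosed k] {m : ℕ} (hm : (m : k) ≠ 0)
    (f : LaurentSeries k) (hf : (m : ℤ) ∣ f.order) : ∃ g : LaurentSeries k, g ^ m = f := by
  have hm0 : 0 < m := by
    rcases Nat.eq_zero_or_pos m with h | h
    · exact absurd (by rw [h, Nat.cast_zero]) hm
    · exact h
  by_cases h0 : f = 0
  · exact ⟨0, by rw [h0, zero_pow hm0.ne']⟩
  obtain ⟨q, hq⟩ := hf
  obtain ⟨d, hd⟩ := IsAlgClosed.exists_pow_nat_eq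
    (PowerSeries.constantCoeff (LaurentSeries.powerSeriesPart f)) hm0
  have hc : PowerSeries.constantCoeff (LaurentSeries.powerSeriesPart f) ≠ 0 := by
    rw [← PowerSeries.coeff_zero_eq_constantCoeff_apply, LaurentSeries.powerSeriesPart_coeff,
      Nat.cast_zero, add_zero]
    exact fun h => h0 (HahnSeries.coeff_order_eq_zero.1 h)
  have hd0 : d ≠ 0 := by
    rintro rfl
    rw [zero_pow hm0.ne'] at hd
    exact hc hd.symm
  obtain ⟨r, hr, -⟩ := exists_root_ps hm _ d hd0 hd.symm
  refine ⟨HahnSeries.single q 1 * HahnSeries.ofPowerSeries ℤ k r, ?_⟩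
  rw [mul_pow, HahnSeries.single_pow, one_pow, ← map_pow, hr]
  have h1 := LaurentSeries.single_order_mul_powerSeriesPart f
  rw [hq] at h1
  rw [nsmul_eq_mul]
  exact h1

end

end Pool.Agent.MP_1c8e06_ag.AK
end

section

set_option autoImplicit false

open Polynomial

namespace Pool.Agent.MP_1c8e06_ag.AK

noncomputable section

/-!
# Task S1: Hilbert 90

Proof.  For `x : M` put `m x := ∑ h : H, a h * h • x` (`Fintype.ofFinite`).  For `g ∈ H`:
`g • m x = ∑ h, g • a h * (g * h) • x = ∑ h, (a g)⁻¹ * a (g * h) * (g * h) • x = (a g)⁻¹ * m x` (`ha.mul`, reindex).  So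
`a g * g • m = m`; if `m x ≠ 0` take the inverse: `n := (m x)⁻¹` satisfies `g • n = a g * n`.
Some `m x ≠ 0`: the elements of `H` with the same action on `M` have the same `a`-value: if `h' = h z`, `z` acting trivially
(`z = h⁻¹ h' ∈ H`), then `a h' = a h * h • a z = a h` (`hker`).  Let `V` be the (finite) set of ring homomorphisms `σ : M →+* M`
of the form `h • ·`, `h ∈ H`; then `m x = ∑_{σ ∈ V} (card {h ∈ H | h • · = σ}) * a_σ * σ x`; all the fibres have the same
cardinality `z₀`, the order of the kernel of the action of `H` (cosets), and `z₀` divides `card H`, so `z₀ ≠ 0` in `M`.  The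
distinct homomorphisms `σ` are linearly independent over `M` (`linearIndependent_monoidHom`), and the coefficients
`z₀ * a_σ` are nonzero, `V` is not empty, so `m x ≠ 0` for some `x`.
-/

theorem hilbert90 {M R : Type} [Field M] [Group R] [Finite R] [MulSemiringAction R M]
    (H : Subgroup R) (hcard : (Nat.card H : M) ≠ 0) (a : R → M) (ha : IsCr H a)
    (hker : ∀ z ∈ H, (∀ m : M, z • m = m) → a z = 1) :
    ∃ m : M, m ≠ 0 ∧ ∀ h ∈ H, h • m = a h * m := by
  classical
  have : Fintype H := Fintype.ofFinite H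
  let σ : H → (M →* M) := fun h => (MulSemiringAction.toRingHom R M (h : R)).toMonoidHom
  have hσ : ∀ (h : H) (x : M), σ h x = (h : R) • x := fun h x => rfl
  -- some value is nonzero
  have hx : ∃ x : M, ∑ h : H, a h * (h : R) • x ≠ 0 := by
    by_contra hcon
    push Not at hcon
    have hli := linearIndependent_iff'.1 (linearIndependent_monoidHom M M)
      (Finset.univ.image σ) (fun τ => ∑ h ∈ Finset.univ.filter (fun h => σ h = τ), a (h : R)) (by
        funext x
        rw [Finset.sum_apply]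
        simp only [Pi.smul_apply, smul_eq_mul, Pi.zero_apply]
        have h1 : ∀ τ ∈ Finset.univ.image σ,
            (∑ h ∈ Finset.univ.filter (fun h => σ h = τ), a (h : R)) * τ x =
              ∑ h ∈ Finset.univ.filter (fun h => σ h = τ), a (h : R) * (h : R) • x := by
          intro τ _
          rw [Finset.sum_mul]
          refine Finset.sum_congr rfl fun h hh => ?_
          rw [Finset.mem_filter] at hh
          rw [← hσ h x, hh.2]
        rw [Finset.sum_congr rfl h1, Finset.sum_fiberwise_of_maps_to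
          (fun h _ => Finset.mem_image_of_mem σ (Finset.mem_univ h))]
        exact hcon x)
    have h2 := hli (σ 1) (Finset.mem_image_of_mem σ (Finset.mem_univ 1))
    have h3 : ∑ h ∈ Finset.univ.filter (fun h => σ h = σ 1), a (h : R) =
        ((Finset.univ.filter (fun h => σ h = σ 1)).card : M) := by
      rw [Finset.sum_congr rfl (g := fun _ => (1 : M)), Finset.sum_const, nsmul_eq_mul, mul_one]
      intro h hh
      rw [Finset.mem_filter] at hh
      refine hker h h.2 fun m => ?_
      have h4 := congrArg (fun φ : M →* M => φ m) hh.2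
      simp only [hσ] at h4
      rw [h4, Subgroup.coe_one, one_smul]
    let Z : Subgroup H := ((MulSemiringAction.toRingAut R M).comp H.subtype).ker
    have hZ : (Finset.univ.filter (fun h => σ h = σ 1)).card = Nat.card Z := by
      rw [Nat.card_eq_fintype_card, Fintype.card_subtype]
      congr 1
      ext h
      simp only [Finset.mem_filter, Finset.mem_univ, true_and]
      constructor
      · intro hh
        rw [MonoidHom.mem_ker]
        ext m
        have h4 := congrArg (fun φ : M →* M => φ m) hh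
        simp only [hσ] at h4
        rw [Subgroup.coe_one, one_smul] at h4
        exact h4
      · intro hh
        rw [MonoidHom.mem_ker] at hh
        ext m
        rw [hσ, hσ, Subgroup.coe_one, one_smul]
        exact congrArg (fun φ : M ≃+* M => φ m) hh
    have hd : Nat.card Z ∣ Nat.card H := Subgroup.card_subgroup_dvd_card Z
    rw [h3, hZ] at h2
    obtain ⟨c, hc⟩ := hd
    apply hcard
    rw [hc, Nat.cast_mul, h2, zero_mul]
  obtain ⟨x, hx⟩ := hx
  refine ⟨(∑ h : H, a h * (h : R) • x)⁻¹, inv_ne_zero hx, ?_⟩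
  intro g hg
  have hag := ha.ne g hg
  have h5 : g • (∑ h : H, a h * (h : R) • x) = (a g)⁻¹ * ∑ h : H, a h * (h : R) • x := by
    rw [Finset.smul_sum, eq_inv_mul_iff_mul_eq₀ hag, Finset.mul_sum]
    rw [← Equiv.sum_comp (Equiv.mulLeft (⟨g, hg⟩ : H)) (fun h : H => a h * (h : R) • x)]
    refine Finset.sum_congr rfl fun h _ => ?_
    rw [Equiv.coe_mulLeft, Subgroup.coe_mul, smul_mul', ha.mul g hg h h.2, mul_smul]
    ring
  rw [smul_inv'', h5, mul_inv, inv_inv]

end

end Pool.Agent.MP_1c8e06_ag.AK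
end
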