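import Pool.Agent.Lib.MP_1c8e06_ag.AK.Defs
import Pool.Agent.Lib.MP_1c8e06_ag.AK.Defs3

section

set_option autoImplicit false

open Polynomial

namespace Pool.Agent.MP_1c8e06_ag.AK

noncomputable section

/-!
# Task F1: Artin's theorem for `IsG`

Proof.  Let `Rb` be the image of `R` in `RingAut M = M ≃+* M` (`MulSemiringAction.toRingAut R M`), a finite group acting
faithfully on `M` (`Subgroup` of `RingAut M`; `FaithfulSMul`), with the same invariants as `R`; its order is the index of
the kernel `Z` (`Subgroup.index_ker`, `Z = ker` by `h.ker`).  For a subgroup `H ≥ Z` of `R` the image `Hb` of `H` has order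
`card H / card Z`, and the invariants of `Hb` are `Fx H`.  Artin: `FixedPoints.finrank_eq_card` (for `Hb` acting on `M`):
`[M : Fx H] = card Hb = Z.relIndex H`.  Same for `R`: `[M : Fx ⊤] = Z.index`, and `Fx ⊤ = ψ(K)` (`h.fix`), so
`finrank K M = Z.index` (transport along `K ≃ ψ.fieldRange`).  Tower law: `finrank K M = finrank K (Fx H) * finrank (Fx H) M`
(`Module.finrank_mul_finrank`), and `Z.index = Z.relIndex H * H.index` (`Subgroup.relIndex_mul_index`).
-/

private theorem F1_core {K M R : Type} [Field K] [Field M] [Group R] [Finite R]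
    [MulSemiringAction R M] {ψ : K →+* M} {Z : Subgroup R} (h : IsG ψ R Z) (H : Subgroup R) :
    Module.Finite (Fx H : Subfield M) M ∧
      Module.finrank (Fx H : Subfield M) M = Z.relIndex H := by
  classical
  let f : R →* RingAut M := MulSemiringAction.toRingAut R M
  have hker : f.ker = Z := by
    ext r
    rw [MonoidHom.mem_ker, ← h.ker r]
    constructor
    · intro hr a
      exact congrArg (fun e : RingAut M => e a) hr
    · intro hr
      exact RingEquiv.ext hr
  let Hb : Subgroup (RingAut M) := H.map f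
  have hfin : Finite Hb := by
    have h1 : Set.Finite (f '' (H : Set R)) := (Set.toFinite (H : Set R)).image f
    exact h1.to_subtype
  cases nonempty_fintype Hb
  have hEq : FixedPoints.subfield Hb M = (Fx H : Subfield M) := by
    ext a
    constructor
    · intro ha x hx
      exact ha ⟨f x, Subgroup.mem_map_of_mem f hx⟩
    · rintro ha ⟨_, x, hx, rfl⟩
      exact ha x hx
  have key : ∀ (S S' : Subfield M) (n : ℕ), S = S' → Module.Finite S M → Module.finrank S M = n →
      Module.Finite S' M ∧ Module.finrank S' M = n := by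
    rintro S S' n rfl h1 h2
    exact ⟨h1, h2⟩
  refine key _ _ _ hEq inferInstance ?_
  rw [← hker, Subgroup.relIndex_ker]
  have h1 := FixedPoints.finrank_eq_card Hb M
  rw [← Nat.card_eq_fintype_card] at h1
  exact h1

/-- `K` is the field of invariants of the whole group. -/
private def F1_equiv {K M R : Type} [Field K] [Field M] [Group R]
    [MulSemiringAction R M] {ψ : K →+* M} {Z : Subgroup R} (h : IsG ψ R Z) :
    K ≃+* (Fx (⊤ : Subgroup R) : Subfield M) :=
  RingEquiv.ofBijective
    (ψ.codRestrict (Fx (⊤ : Subgroup R) : Subfield M) (fun x r _ => h.smul_ψ r x)) (by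
      constructor
      · intro x y hxy
        exact ψ.injective (congrArg (fun a : (Fx (⊤ : Subgroup R) : Subfield M) => (a : M)) hxy)
      · rintro ⟨a, ha⟩
        obtain ⟨x, hx⟩ := (h.fix a).1 (fun r => ha r (Subgroup.mem_top r))
        exact ⟨x, Subtype.ext hx⟩)

private theorem F1_equiv_coe {K M R : Type} [Field K] [Field M] [Group R]
    [MulSemiringAction R M] {ψ : K →+* M} {Z : Subgroup R} (h : IsG ψ R Z) (x : K) :
    ((F1_equiv h x : (Fx (⊤ : Subgroup R) : Subfield M)) : M) = ψ x := rfl

theorem IsG.finiteDimensional {K M R : Type} [Field K] [Field M] [Group R] [Finite R]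
    [MulSemiringAction R M] {ψ : K →+* M} {Z : Subgroup R} (h : IsG ψ R Z) [Algebra K M]
    (hψ : algebraMap K M = ψ) : FiniteDimensional K M := by
  have h1 := (F1_core h ⊤).1
  refine Module.Finite.of_equiv_equiv (F1_equiv h).symm (RingEquiv.refl M) ?_
  refine RingHom.ext fun y => ?_
  obtain ⟨x, rfl⟩ := (F1_equiv h).surjective y
  have h2 : (F1_equiv h).symm (F1_equiv h x) = x := (F1_equiv h).symm_apply_apply x
  have h3 : algebraMap K M ((F1_equiv h).symm (F1_equiv h x)) = ψ x := by
    rw [h2, hψ]
  exact h3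

theorem IsG.finrank_Fx {K M R : Type} [Field K] [Field M] [Group R] [Finite R]
    [MulSemiringAction R M] {ψ : K →+* M} {Z : Subgroup R} (h : IsG ψ R Z) (H : Subgroup R)
    (hZ : Z ≤ H) [Algebra K M] (hψ : algebraMap K M = ψ) (F : Submodule K M)
    (hF : ∀ a, a ∈ F ↔ a ∈ (Fx H : Subfield M)) : Module.finrank K F = H.index := by
  have hfd := h.finiteDimensional hψ
  have hK : Module.finrank K M = Z.index := by
    have h1 := (F1_core h ⊤).2
    rw [Subgroup.relIndex_top_right] at h1
    rw [← h1]
    refine Algebra.finrank_eq_of_equiv_equiv (F1_equiv h) (RingEquiv.refl M) ?_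
    refine RingHom.ext fun x => ?_
    have h3 : ((F1_equiv h x : (Fx (⊤ : Subgroup R) : Subfield M)) : M) = algebraMap K M x := by
      rw [hψ]
      rfl
    exact h3
  have hmem : ∀ x : K, algebraMap K M x ∈ (Fx H : Subfield M) := by
    intro x r _
    rw [hψ]
    exact h.smul_ψ r x
  let E : IntermediateField K M := (Fx H : Subfield M).toIntermediateField hmem
  have hE : Module.finrank E M = Z.relIndex H := by
    rw [← (F1_core h H).2]
    let e : E ≃+* (Fx H : Subfield M) :=
      { toFun := fun a => ⟨a.1, a.2⟩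
        invFun := fun a => ⟨a.1, a.2⟩
        left_inv := fun a => rfl
        right_inv := fun a => rfl
        map_mul' := fun a b => rfl
        map_add' := fun a b => rfl }
    exact Algebra.finrank_eq_of_equiv_equiv e (RingEquiv.refl M) (RingHom.ext fun x => rfl)
  have h1 := Module.finrank_mul_finrank K E M
  rw [hE, hK, ← Subgroup.relIndex_mul_index hZ, mul_comm] at h1
  have hpos : 0 < Z.relIndex H :=
    Nat.pos_of_ne_zero (Subgroup.index_ne_zero_of_finite (H := Z.subgroupOf H))
  have h2 : Module.finrank K E = H.index := Nat.eq_of_mul_eq_mul_left hpos h1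
  rw [← h2]
  have h3 : F = Subalgebra.toSubmodule E.toSubalgebra := by
    ext a
    rw [hF a]
    rfl
  rw [h3]
  rfl

theorem IsG.finrank {K M R : Type} [Field K] [Field M] [Group R] [Finite R]
    [MulSemiringAction R M] {ψ : K →+* M} {Z : Subgroup R} (h : IsG ψ R Z) [Algebra K M]
    (hψ : algebraMap K M = ψ) : Module.finrank K M = Z.index := by
  have h1 := (F1_core h ⊤).2
  rw [Subgroup.relIndex_top_right] at h1
  rw [← h1]
  refine Algebra.finrank_eq_of_equiv_equiv (F1_equiv h) (RingEquiv.refl M) ?_
  refine RingHom.ext fun x => ?_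
  have h3 : ((F1_equiv h x : (Fx (⊤ : Subgroup R) : Subfield M)) : M) = algebraMap K M x := by
    rw [hψ]
    rfl
  exact h3

end

end Pool.Agent.MP_1c8e06_ag.AK
end

section

set_option autoImplicit false

open Polynomial

namespace Pool.Agent.MP_1c8e06_ag.AK

noncomputable section

/-!
# Task D2a: the integral closure

Proofs.  Use the algebra structures `ψ.toAlgebra : Algebra (RatFunc k) N` and `algP ψ : Algebra k[X] N` (scalar tower `k[X], RatFunc k, N`).
* `OO_smul`: apply the ring homomorphism `γ • ·` (it fixes `ψ(K)`) to the integral equation.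
* `OO_fixed`: `a = ψ x` (`h.fix`), `x` integral over `k[X]` (`ψ` injective), so `x ∈ k[X]` (`IsIntegrallyClosed`).
* `OO_finite`: `N/K` is finite (`IsG.finiteDimensional`) and separable (Artin: `N` is Galois over the fixed field; or: every element is a root of the product `∏ (X - C a')` over its orbit), so
  `IsIntegralClosure.finite k[X] K N (integralClosure k[X] N)` (needs `Algebra.IsSeparable`, `IsIntegrallyClosed`, `IsNoetherianRing`).
* `OO_frac`: every `x ∈ N` is `a / b` with `a, b ∈ OO ψ`, `b ≠ 0` (algebraic over the fraction field: `IsIntegralClosure.isFractionRing_of_finite_extension`, `exists_integral_multiple`).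
* `OO_dedekind`: `integralClosure.isDedekindDomain_fractionRing`-like: `IsIntegralClosure.isDedekindDomain k[X] K N _`.
-/

theorem OO_smul {k N Γ : Type} [Field k] [Field N] [Group Γ] [MulSemiringAction Γ N]
    {ψ : RatFunc k →+* N} {Z : Subgroup Γ} (h : IsG ψ Γ Z) (γ : Γ) {a : N} (ha : a ∈ OO ψ) :
    γ • a ∈ OO ψ := by
  rw [mem_OO] at ha ⊢
  obtain ⟨q, hq, hqa⟩ := ha
  refine ⟨q, hq, ?_⟩
  have h1 : (MulSemiringAction.toRingHom Γ N γ).comp (ψ.comp (algebraMap k[X] (RatFunc k))) =
      ψ.comp (algebraMap k[X] (RatFunc k)) := by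
    refine RingHom.ext fun f => ?_
    rw [RingHom.comp_apply, RingHom.comp_apply, MulSemiringAction.toRingHom_apply, h.smul_ψ]
  have h2 := Polynomial.hom_eval₂ q (ψ.comp (algebraMap k[X] (RatFunc k)))
    (MulSemiringAction.toRingHom Γ N γ) a
  rw [hqa, map_zero, h1, MulSemiringAction.toRingHom_apply] at h2
  exact h2.symm

theorem OO_fixed {k N Γ : Type} [Field k] [Field N] [Group Γ] [MulSemiringAction Γ N]
    {ψ : RatFunc k →+* N} {Z : Subgroup Γ} (h : IsG ψ Γ Z) {a : N} (ha : a ∈ OO ψ)
    (hfix : ∀ γ : Γ, γ • a = a) : ∃ f : k[X], a = ψ (algebraMap k[X] (RatFunc k) f) := by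
  obtain ⟨x, rfl⟩ := (h.fix a).1 hfix
  rw [mem_OO] at ha
  obtain ⟨q, hq, hqa⟩ := ha
  have h1 : IsIntegral k[X] x := by
    refine ⟨q, hq, ?_⟩
    apply ψ.injective
    rw [Polynomial.hom_eval₂, hqa, map_zero]
  obtain ⟨f, hf⟩ := IsIntegrallyClosed.isIntegral_iff.1 h1
  exact ⟨f, by rw [hf]⟩

private theorem D2a_separable {k N Γ : Type} [Field k] [Field N] [Group Γ] [Finite Γ]
    [MulSemiringAction Γ N] {ψ : RatFunc k →+* N} {Z : Subgroup Γ} (h : IsG ψ Γ Z)
    [Algebra (RatFunc k) N] (hψ : algebraMap (RatFunc k) N = ψ) :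
    Algebra.IsSeparable (RatFunc k) N := by
  have hmem : ∀ x : RatFunc k, ψ x ∈ FixedPoints.subfield Γ N := fun x γ => h.smul_ψ γ x
  let i : RatFunc k →+* FixedPoints.subfield Γ N := ψ.codRestrict _ hmem
  have hi : Function.Bijective i := by
    refine ⟨i.injective, ?_⟩
    rintro ⟨a, ha⟩
    obtain ⟨x, hx⟩ := (h.fix a).1 ha
    exact ⟨x, Subtype.ext hx⟩
  let e := RingEquiv.ofBijective i hi
  refine Algebra.IsSeparable.of_equiv_equiv e.symm (RingEquiv.refl N) ?_
  refine RingHom.ext fun a => ?_
  obtain ⟨x, rfl⟩ := e.surjective a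
  rw [hψ]
  simp only [RingHom.comp_apply, RingHom.coe_coe, RingEquiv.symm_apply_apply, RingEquiv.refl_apply]
  rfl

theorem OO_finite {k N Γ : Type} [Field k] [Field N] [Group Γ] [Finite Γ] [MulSemiringAction Γ N]
    {ψ : RatFunc k →+* N} {Z : Subgroup Γ} (h : IsG ψ Γ Z) :
    ∃ (n : ℕ) (v : Fin n → N), (∀ i, v i ∈ OO ψ) ∧ ∀ a ∈ OO ψ, ∃ c : Fin n → k[X],
      a = ∑ i, ψ (algebraMap k[X] (RatFunc k) (c i)) * v i := by
  let _ : Algebra (RatFunc k) N := ψ.toAlgebra
  let _ : Algebra k[X] N := algP ψ
  have : IsScalarTower k[X] (RatFunc k) N := IsScalarTower.of_algebraMap_eq fun f => rfl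
  have : FiniteDimensional (RatFunc k) N := h.finiteDimensional rfl
  have : Algebra.IsSeparable (RatFunc k) N := D2a_separable h rfl
  have hfin : Module.Finite k[X] (integralClosure k[X] N) :=
    IsIntegralClosure.finite k[X] (RatFunc k) N (integralClosure k[X] N)
  obtain ⟨n, v, hv⟩ := Module.Finite.exists_fin (R := k[X]) (M := integralClosure k[X] N)
  refine ⟨n, fun i => (v i : N), fun i => (v i).2, fun a ha => ?_⟩
  have h1 : (⟨a, ha⟩ : integralClosure k[X] N) ∈ Submodule.span k[X] (Set.range v) := by
    rw [hv]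
    exact Submodule.mem_top
  obtain ⟨c, hc⟩ := (Submodule.mem_span_range_iff_exists_fun k[X]).1 h1
  refine ⟨c, ?_⟩
  have h2 := congrArg (fun z : integralClosure k[X] N => (z : N)) hc
  simp only at h2
  rw [← h2]
  push_cast
  refine Finset.sum_congr rfl fun i _ => ?_
  rw [Algebra.smul_def]
  rfl

theorem OO_frac {k N Γ : Type} [Field k] [Field N] [Group Γ] [Finite Γ] [MulSemiringAction Γ N]
    {ψ : RatFunc k →+* N} {Z : Subgroup Γ} (h : IsG ψ Γ Z) (x : N) :
    ∃ a ∈ OO ψ, ∃ b ∈ OO ψ, b ≠ 0 ∧ x * b = a := by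
  let _ : Algebra (RatFunc k) N := ψ.toAlgebra
  let _ : Algebra k[X] N := algP ψ
  have : IsScalarTower k[X] (RatFunc k) N := IsScalarTower.of_algebraMap_eq fun f => rfl
  have : FiniteDimensional (RatFunc k) N := h.finiteDimensional rfl
  have h1 : IsAlgebraic k[X] x :=
    (IsFractionRing.isAlgebraic_iff k[X] (RatFunc k) N).2 (Algebra.IsAlgebraic.isAlgebraic x)
  obtain ⟨y, hy, hyx⟩ := h1.exists_integral_multiple
  refine ⟨y • x, hyx, ψ (algebraMap k[X] (RatFunc k) y), OO_alg ψ y, ?_, ?_⟩
  · rw [Ne, map_eq_zero_iff _ ψ.injective, map_eq_zero_iff _ (RatFunc.algebraMap_injective k)]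
    exact hy
  · rw [Algebra.smul_def, mul_comm]
    rfl

theorem OO_dedekind {k N Γ : Type} [Field k] [Field N] [Group Γ] [Finite Γ]
    [MulSemiringAction Γ N] {ψ : RatFunc k →+* N} {Z : Subgroup Γ} (h : IsG ψ Γ Z) :
    IsDedekindDomain (OO ψ) := by
  let _ : Algebra (RatFunc k) N := ψ.toAlgebra
  let _ : Algebra k[X] N := algP ψ
  have : IsScalarTower k[X] (RatFunc k) N := IsScalarTower.of_algebraMap_eq fun f => rfl
  have : FiniteDimensional (RatFunc k) N := h.finiteDimensional rfl
  have : Algebra.IsSeparable (RatFunc k) N := D2a_separable h rfl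
  have h1 : IsDedekindDomain (integralClosure k[X] N) :=
    IsIntegralClosure.isDedekindDomain k[X] (RatFunc k) N (integralClosure k[X] N)
  exact h1

end

end Pool.Agent.MP_1c8e06_ag.AK
end

section

set_option autoImplicit false

open Polynomial

namespace Pool.Agent.MP_1c8e06_ag.AK

noncomputable section

/-- A crossed homomorphism on the subgroup `H` of the group `R` acting on the field `M`. -/
structure IsCr {M R : Type} [Field M] [Group R] [MulSemiringAction R M] (H : Subgroup R)
    (a : R → M) : Prop where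
  ne : ∀ g ∈ H, a g ≠ 0
  mul : ∀ g ∈ H, ∀ h ∈ H, a (g * h) = a g * g • a h

theorem IsCr.one {M R : Type} [Field M] [Group R] [MulSemiringAction R M] {H : Subgroup R}
    {a : R → M} (h : IsCr H a) : a 1 = 1 := by
  have h1 := h.mul 1 H.one_mem 1 H.one_mem
  rw [one_mul, one_smul] at h1
  have h2 := h.ne 1 H.one_mem
  exact (mul_left_cancel₀ h2 (by rw [mul_one]; exact h1)).symm

end

end Pool.Agent.MP_1c8e06_ag.AK
end

section

set_option autoImplicit false

open Polynomial

namespace Pool.Agent.MP_1c8e06_ag.AK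

noncomputable section

/-!
# Task F2: two embeddings differ by an element of the group; criteria

Proofs.
* `exists_smul` (embeddings).  Let `K → M` be `ψ`, made an algebra structure.  Suppose no `r` works.  The ring homomorphisms
  `ε₁ ∘ (r • ·)` (`r ∈ R`; finitely many different ones: `Z.index` of them, since `r` acts trivially iff `r ∈ Z`) and `ε₂` from
  `M` to `T` are then `Z.index + 1` distinct ring homomorphisms, linearly independent over `T` (`linearIndependent_monoidHom`), all lying in the
  `T`-space of maps `g : M → T` with `g (ψ x * m) = ε₁ (ψ x) * g m`, additive, of dimension `finrank K M = Z.index`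
  (`IsG.finrank`): contradiction.  Alternative: `M/K` is finite and separable (each `m` is a root of
  the separable polynomial `∏ (X - C m')` over its orbit), primitive element `θ`; `ε₂ θ` is a root of the image of `∏_{r} (X - C (r • θ))`
  (coefficients in `ψ(K)`), so `ε₂ θ = ε₁ (r • θ)` for some `r`, and both homomorphisms agree on `ψ(K)` and `θ`.
  Alternative 2: avoidance: for each `m` there is `r` with `ε₂ m = ε₁ (r • m)`; `M` is a finite union of the subfields
  `{m | ε₂ m = ε₁ (r • m)}`, which are `K`-subspaces; `K` infinite (or use the primitive element theorem if `K` is finite).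
* `surj_of_card`: dimensions: with the algebra structures given by `ψ₁` and `ψ = i ∘ ψ₁`, `i` is `K`-linear and injective, and
  `finrank K N = card Γ ≤ card R = finrank K M` (`IsG.finrank`, `Subgroup.index_bot`); `LinearMap.injective_iff_surjective_of_finrank_eq_finrank`-like.
* `IsG.of_card` (a criterion): `Fx ⊤ ⊇ ψ(K)`, `[M : Fx ⊤] = card R` by Artin (`FixedPoints.finrank_eq_card`, faithful action) and
  `[M : ψ(K)] ≤ card R`, so `Fx ⊤ = ψ(K)`.
-/

theorem exists_smul {K M T R : Type} [Field K] [Field M] [Field T] [Group R] [Finite R]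
    [MulSemiringAction R M] {ψ : K →+* M} {Z : Subgroup R} (h : IsG ψ R Z) (ε₁ ε₂ : M →+* T)
    (he : ε₁.comp ψ = ε₂.comp ψ) : ∃ r : R, ∀ a : M, ε₂ a = ε₁ (r • a) := by
  classical
  let : Algebra K M := ψ.toAlgebra
  let : Algebra K T := (ε₁.comp ψ).toAlgebra
  have hψ : algebraMap K M = ψ := rfl
  have hfd : FiniteDimensional K M := h.finiteDimensional hψ
  let φ : R → (M →ₐ[K] T) := fun r =>
    { toRingHom := ε₁.comp (MulSemiringAction.toRingHom R M r)
      commutes' := fun x => by
        change ε₁ (r • ψ x) = ε₁ (ψ x)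
        rw [h.smul_ψ] }
  have hφ : ∀ r a, φ r a = ε₁ (r • a) := fun r a => rfl
  let e₂ : M →ₐ[K] T :=
    { toRingHom := ε₂
      commutes' := fun x => (DFunLike.congr_fun he x).symm }
  have heq : ∀ r r' : R, r⁻¹ * r' ∈ Z ↔ φ r = φ r' := by
    intro r r'
    rw [← h.ker]
    constructor
    · intro hr
      refine AlgHom.ext fun a => ?_
      rw [hφ, hφ]
      have h1 := hr a
      rw [mul_smul, inv_smul_eq_iff] at h1
      rw [h1]
    · intro hr a
      have h1 := DFunLike.congr_fun hr a
      rw [hφ, hφ] at h1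
      have h2 := ε₁.injective h1
      rw [mul_smul, ← h2, inv_smul_smul]
  let Q : R ⧸ Z → (M →ₐ[K] T) := Quotient.lift φ (fun r r' hr => by
    rw [← heq]
    exact QuotientGroup.leftRel_apply.1 hr)
  have hQ : ∀ r : R, Q (r : R ⧸ Z) = φ r := fun r => rfl
  have hinj : Function.Injective Q := by
    intro x y
    refine Quotient.inductionOn₂ x y fun r r' hr => ?_
    have h1 : φ r = φ r' := hr
    exact QuotientGroup.eq.2 ((heq r r').2 h1)
  have hcard : Nat.card (M →ₐ[K] T) ≤ Nat.card (R ⧸ Z) := by
    have h1 := card_algHom_le_finrank K M T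
    rw [h.finrank hψ] at h1
    exact h1
  obtain ⟨x, hx⟩ := (hinj.bijective_of_nat_card_le hcard).2 e₂
  obtain ⟨r, rfl⟩ := QuotientGroup.mk_surjective x
  refine ⟨r, fun a => ?_⟩
  have h1 := DFunLike.congr_fun hx a
  exact h1.symm

theorem surj_of_card {K M N R Γ : Type} [Field K] [Field M] [Field N] [Group R] [Finite R]
    [MulSemiringAction R M] [Group Γ] [Finite Γ] [MulSemiringAction Γ N] {ψ₁ : K →+* M} {ψ : K →+* N}
    (h₁ : IsG ψ₁ R ⊥) (h : IsG ψ Γ ⊥) (i : M →+* N) (hi : i.comp ψ₁ = ψ)
    (hcard : Nat.card Γ ≤ Nat.card R) : Function.Surjective i := by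
  let : Algebra K M := ψ₁.toAlgebra
  let : Algebra K N := ψ.toAlgebra
  have hM : algebraMap K M = ψ₁ := rfl
  have hN : algebraMap K N = ψ := rfl
  have hfM : FiniteDimensional K M := h₁.finiteDimensional hM
  have hfN : FiniteDimensional K N := h.finiteDimensional hN
  have h1 := h₁.finrank hM
  have h2 := h.finrank hN
  rw [Subgroup.index_bot] at h1 h2
  let I : M →ₐ[K] N :=
    { toRingHom := i
      commutes' := fun x => DFunLike.congr_fun hi x }
  have hinj : Function.Injective I.toLinearMap := i.injective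
  have h3 : Module.finrank K M ≤ Module.finrank K N := LinearMap.finrank_le_finrank_of_injective hinj
  have h4 : Module.finrank K M = Module.finrank K N := by omega
  exact (LinearMap.injective_iff_surjective_of_finrank_eq_finrank h4).1 hinj

theorem IsG.of_card {K M R : Type} [Field K] [Field M] [Group R] [Finite R]
    [MulSemiringAction R M] (ψ : K →+* M) [Algebra K M] (hψ : algebraMap K M = ψ)
    (hfaith : ∀ r : R, (∀ a : M, r • a = a) → r = 1) (hfix : ∀ (r : R) (x : K), r • ψ x = ψ x)
    (hfd : FiniteDimensional K M) (hcard : Module.finrank K M ≤ Nat.card R) : IsG ψ R ⊥ := by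
  classical
  cases nonempty_fintype R
  have hfaith' : FaithfulSMul R M := by
    refine ⟨fun {r r'} hr => ?_⟩
    have h1 : r⁻¹ * r' = 1 := hfaith _ (fun a => by rw [mul_smul, ← hr a, inv_smul_smul])
    exact inv_mul_eq_one.1 h1
  refine ⟨fun r => ?_, fun a => ?_⟩
  · rw [Subgroup.mem_bot]
    constructor
    · exact hfaith r
    · rintro rfl a
      exact one_smul R a
  · constructor
    · intro ha
      let S : Subfield M := FixedPoints.subfield R M
      have hmem : ∀ x : K, algebraMap K M x ∈ S := by
        intro x r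
        rw [hψ]
        exact hfix r x
      let E : IntermediateField K M := S.toIntermediateField hmem
      have hE : Module.finrank E M = Nat.card R := by
        rw [Nat.card_eq_fintype_card, ← FixedPoints.finrank_eq_card R M]
        let e : E ≃+* S :=
          { toFun := fun a => ⟨a.1, a.2⟩
            invFun := fun a => ⟨a.1, a.2⟩
            left_inv := fun a => rfl
            right_inv := fun a => rfl
            map_mul' := fun a b => rfl
            map_add' := fun a b => rfl }
        exact Algebra.finrank_eq_of_equiv_equiv e (RingEquiv.refl M) (RingHom.ext fun x => rfl)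
      have h1 := Module.finrank_mul_finrank K E M
      rw [hE] at h1
      have hpos : 0 < Nat.card R := Nat.card_pos
      have hposE : 0 < Module.finrank K E := Module.finrank_pos
      have h2 : Module.finrank K E = 1 := by
        by_contra hne
        have h3 : 2 ≤ Module.finrank K E := by omega
        have h4 : 2 * Nat.card R ≤ Module.finrank K E * Nat.card R := Nat.mul_le_mul_right _ h3
        omega
      have h3 : E = ⊥ := IntermediateField.finrank_eq_one_iff.1 h2
      have h4 : a ∈ E := fun r => ha r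
      rw [h3, IntermediateField.mem_bot] at h4
      obtain ⟨x, hx⟩ := h4
      exact ⟨x, by rw [← hx, hψ]⟩
    · rintro ⟨x, rfl⟩ r
      exact hfix r x

end

end Pool.Agent.MP_1c8e06_ag.AK
end
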