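import Pool.Agent.Lib.MP_1c8e06_ag.Mg.G023
import Pool.Agent.Lib.MP_1c8e06_ag.Mg.G021

section

set_option autoImplicit false

open Polynomial

namespace Pool.Agent.MP_1c8e06_ag.AK

noncomputable section

/-!
# Task E2: split step

Proof.  Let `M, ψ` be as in `Real k S R`, `A := Multiplicative (ZMod ℓ)`.  `R × A` acts on `M` through the first factor (`MulSemiringAction.compHom M (MonoidHom.fst R A)`);
`IsG ψ (R × A) Z` with `Z := (MonoidHom.snd …)`-part `= Subgroup.prod ⊥ ⊤ = ker fst`, of order `ℓ`.  `ζ₀ ∈ k` a primitive `ℓ`-th root of unity;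
`a (g, c) := ψ (C (ζ₀ ^ (c.toAdd.val)))`: crossed (a homomorphism with values in `ψ(K)`), `a z = 1 → z = 1` on `Z`.  `β := ψ (X - C b)`, fixed by `R × A`, `a g ^ ℓ = 1`.
`β` is not an `ℓ`-th power: `b ∉ S`: `ε.comp ψ = psi b`, `ε β = psi b (X - C b) = tt k` has order `1`; `β = m ^ ℓ` would give `1 = ℓ * (ε m).order` (`order_pow_L`).
`exists_kummer`.  Good: for `b' ∉ insert b S` take `ε` for `b'`: `ε β = psi b' (X - C b) = C (b' - b) + t` has order `0` (`b' ≠ b`), so it is an `ℓ`-th power
(`exists_root_L`); extend `ε`.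
-/

/-- the linear term -/
private theorem E2_psi {k : Type} [Field k] (b b' : k) :
    psi b' (RatFunc.X - RatFunc.C b) = HahnSeries.C (b' - b) + tt k := by
  rw [map_sub, psi_X, psi_C, map_sub]
  ring

private theorem E2_order_tt {k : Type} [Field k] : (tt k).order = 1 := by
  rw [tt, HahnSeries.order_single one_ne_zero]

private theorem E2_order_lin {k : Type} [Field k] {c : k} (hc : c ≠ 0) :
    (HahnSeries.C c + tt k : LaurentSeries k).order = 0 := by
  have h0 : (HahnSeries.C c + tt k : LaurentSeries k).coeff 0 ≠ 0 := by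
    rw [HahnSeries.coeff_add, HahnSeries.C_apply, tt, HahnSeries.coeff_single_same,
      HahnSeries.coeff_single_of_ne (zero_ne_one), add_zero]
    exact hc
  apply le_antisymm (HahnSeries.order_le_of_coeff_ne_zero h0)
  by_contra hlt
  rw [not_le] at hlt
  have hne : (HahnSeries.C c + tt k : LaurentSeries k) ≠ 0 := by
    intro h
    rw [h] at h0
    exact h0 (by simp)
  have h1 := HahnSeries.coeff_order_eq_zero.not.2 hne
  have key : ∀ n : ℤ, n < 0 → (HahnSeries.C c + tt k : LaurentSeries k).coeff n = 0 := by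
    intro n hn
    rw [HahnSeries.coeff_add, HahnSeries.C_apply, tt, HahnSeries.coeff_single_of_ne hn.ne,
      HahnSeries.coeff_single_of_ne (hn.trans one_pos).ne, add_zero]
  exact h1 (key _ hlt)

theorem real_split {k : Type} [Field k] [IsAlgClosed k] {S : Set k} {R : Type} [Group R] [Finite R]
    {ℓ : ℕ} [hℓ : Fact ℓ.Prime] (hℓk : (ℓ : k) ≠ 0) (b : k) (hb : b ∉ S) (h : Real k S R) :
    Real k (insert b S) (R × Multiplicative (ZMod ℓ)) := by
  have : NeZero ℓ := ⟨hℓ.out.ne_zero⟩
  have : NeZero (ℓ : k) := ⟨hℓk⟩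
  obtain ⟨M, fM, aM, ψ, hG, hgood⟩ := h
  obtain ⟨ζ, hζ⟩ := HasEnoughRootsOfUnity.exists_primitiveRoot k ℓ
  let act : MulSemiringAction (R × Multiplicative (ZMod ℓ)) M :=
    MulSemiringAction.compHom M (MonoidHom.fst R (Multiplicative (ZMod ℓ)))
  have hsm : ∀ (q : R × Multiplicative (ZMod ℓ)) (m : M), q • m = q.1 • m := fun _ _ => rfl
  have hG' : IsG ψ (R × Multiplicative (ZMod ℓ))
      (Subgroup.prod (⊥ : Subgroup R) (⊤ : Subgroup (Multiplicative (ZMod ℓ)))) := by
    constructor
    · intro q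
      rw [Subgroup.mem_prod, ← hG.ker q.1]
      constructor
      · intro h
        exact ⟨fun m => h m, Subgroup.mem_top _⟩
      · intro h m
        exact h.1 m
    · intro m
      rw [← hG.fix m]
      constructor
      · intro h r
        exact h (r, 1)
      · intro h q
        exact h q.1
  have hsψ : ∀ (q : R × Multiplicative (ZMod ℓ)) (x : RatFunc k), q • ψ x = ψ x :=
    fun q x => hG.smul_ψ q.1 x
  have hcard : Nat.card (Subgroup.prod (⊥ : Subgroup R)
      (⊤ : Subgroup (Multiplicative (ZMod ℓ)))) = ℓ := by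
    rw [Nat.card_congr (Subgroup.prodEquiv _ _).toEquiv, Nat.card_prod, Subgroup.card_bot,
      Subgroup.card_top, one_mul]
    exact Nat.card_zmod ℓ
  set a : R × Multiplicative (ZMod ℓ) → M :=
    fun q => ψ (RatFunc.C (ζ ^ (q.2.toAdd.val))) with ha_def
  have hζ0 : ζ ≠ 0 := hζ.ne_zero hℓ.out.ne_zero
  have hCinj : Function.Injective (fun c : k => ψ (RatFunc.C c)) :=
    ψ.injective.comp RatFunc.C_injective
  have ha : IsCr ⊤ a := by
    constructor
    · intro g _ h
      have h1 : ψ (RatFunc.C (ζ ^ (g.2.toAdd.val))) = ψ (RatFunc.C 0) := by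
        rw [map_zero, map_zero]
        exact h
      exact pow_ne_zero _ hζ0 (hCinj h1)
    · intro g _ h _
      change ψ (RatFunc.C (ζ ^ ((g * h).2.toAdd.val))) =
        ψ (RatFunc.C (ζ ^ (g.2.toAdd.val))) * g • ψ (RatFunc.C (ζ ^ (h.2.toAdd.val)))
      rw [hsψ, ← map_mul, ← map_mul, ← pow_add]
      congr 2
      rw [Prod.snd_mul, toAdd_mul, ZMod.val_add, ← pow_eq_pow_mod _ hζ.pow_eq_one]
  have haZ : ∀ z ∈ Subgroup.prod (⊥ : Subgroup R) (⊤ : Subgroup (Multiplicative (ZMod ℓ))),
      a z = 1 → z = 1 := by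
    intro z hz h
    rw [Subgroup.mem_prod, Subgroup.mem_bot] at hz
    have h1 : ψ (RatFunc.C (ζ ^ (z.2.toAdd.val))) = ψ (RatFunc.C 1) := by
      rw [map_one, map_one]
      exact h
    have h2 : ζ ^ (z.2.toAdd.val) = 1 := hCinj h1
    have h3 : ℓ ∣ z.2.toAdd.val := hζ.dvd_of_pow_eq_one _ h2
    have h4 : z.2.toAdd.val = 0 := Nat.eq_zero_of_dvd_of_lt h3 (ZMod.val_lt _)
    have h5 : z.2.toAdd = 0 := (ZMod.val_eq_zero _).1 h4
    refine Prod.ext hz.1 ?_
    change z.2 = 1
    rw [← ofAdd_toAdd z.2, h5]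
    rfl
  have hβ : ∀ g : R × Multiplicative (ZMod ℓ), g • ψ (RatFunc.X - RatFunc.C b) =
      a g ^ ℓ * ψ (RatFunc.X - RatFunc.C b) := by
    intro g
    have h1 : a g ^ ℓ = 1 := by
      change ψ (RatFunc.C (ζ ^ (g.2.toAdd.val))) ^ ℓ = 1
      rw [← map_pow, ← map_pow, ← pow_mul, mul_comm, pow_mul, hζ.pow_eq_one, one_pow, map_one,
        map_one]
    rw [h1, one_mul, hsψ]
  have hβℓ : ∀ m : M, m ^ ℓ ≠ ψ (RatFunc.X - RatFunc.C b) := by
    intro m hm
    obtain ⟨ε, hε⟩ := hgood b hb
    have h1 : ε (ψ (RatFunc.X - RatFunc.C b)) = tt k := by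
      have h2 := RingHom.congr_fun hε (RatFunc.X - RatFunc.C b)
      rw [RingHom.comp_apply] at h2
      rw [h2, E2_psi, sub_self, map_zero, zero_add]
    have h3 : (ε m ^ ℓ).order = 1 := by
      rw [← map_pow, hm, h1, E2_order_tt]
    rw [order_pow_L] at h3
    have h4 : (ℓ : ℤ) ∣ 1 := ⟨_, h3.symm⟩
    have h5 : (ℓ : ℤ) ≤ 1 := Int.le_of_dvd one_pos h4
    have h6 := hℓ.out.one_lt
    omega
  obtain ⟨M', fM', aM', i, z, hIs, -, -, -, huniv⟩ :=
    exists_kummer hG' hcard a ha haZ (ψ (RatFunc.X - RatFunc.C b)) hβ hβℓ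
  refine ⟨M', fM', aM', i.comp ψ, hIs, ?_⟩
  intro b' hb'
  rw [Set.mem_insert_iff, not_or] at hb'
  obtain ⟨ε, hε⟩ := hgood b' hb'.2
  have h1 : ε (ψ (RatFunc.X - RatFunc.C b)) = HahnSeries.C (b' - b) + tt k := by
    have h2 := RingHom.congr_fun hε (RatFunc.X - RatFunc.C b)
    rw [RingHom.comp_apply] at h2
    rw [h2, E2_psi]
  obtain ⟨w, hw⟩ := exists_root_L hℓk (ε (ψ (RatFunc.X - RatFunc.C b))) (by
    rw [h1, E2_order_lin (sub_ne_zero.2 hb'.1)]
    exact dvd_zero _)
  obtain ⟨η, hη, -⟩ := huniv (LaurentSeries k) ε w hw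
  refine ⟨η, ?_⟩
  rw [← RingHom.comp_assoc, hη, hε]

end

end Pool.Agent.MP_1c8e06_ag.AK
end

section

set_option autoImplicit false

open Polynomial

namespace Pool.Agent.MP_1c8e06_ag.AK

noncomputable section

/-!
# Task L2: almost everywhere of order zero

Proof.  `M` is finite over `K = RatFunc k` (`IsG.finiteDimensional`), so `β` is algebraic: there is a polynomial
`∑ i ≤ n, f i * β ^ i = 0` with `f i ∈ k[X]` (through `ψ`), `f n ≠ 0` and `f 0 ≠ 0` (minimal polynomial over `K`, its constant coefficient is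
nonzero as `β ≠ 0`; clear denominators: `IsLocalization.exist_integer_multiples`, or `IsFractionRing.isAlgebraic_iff`).
`B :=` the roots of `f n * f 0`.  Let `b ∉ B`, `ε.comp ψ = psi b`.  `psi b (f i) = (f i)(b + t)` has order `≥ 0` (it is a power series), and order
`0` if `f i (b) ≠ 0` (constant coefficient `f i (b)`).  `v := (ε β).order`.  If `v < 0`: the term `f n β ^ n` has order `n v`, the others
orders `≥ i v > n v` (`n ≥ 1`: if `n = 0` then `f 0 = 0`): their sum is not zero (look at the coefficient of `t ^ (n v)`):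
contradiction.  If `v > 0`: the term `i = 0` has order `0`, the others order `≥ v > 0`: contradiction.
-/

private theorem L2_psi_eq {k : Type} [Field k] (b : k) (f : k[X]) :
    psi b (algebraMap k[X] (RatFunc k) f) =
      HahnSeries.ofPowerSeries ℤ k ((f.comp (X + C b) : k[X]) : PowerSeries k) := by
  have h1 : Polynomial.eval₂RingHom (HahnSeries.C : k →+* LaurentSeries k) (HahnSeries.C b + tt k) =
      ((HahnSeries.ofPowerSeries ℤ k).comp (Polynomial.coeToPowerSeries.ringHom)).comp
        (Polynomial.compRingHom (X + C b)) := by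
    refine Polynomial.ringHom_ext (fun c => ?_) ?_
    · simp
    · simp [tt, add_comm]
  rw [psi_alg]
  have h2 := congrArg (fun g : k[X] →+* LaurentSeries k => g f) h1
  simpa using h2

theorem psi_order_nonneg {k : Type} [Field k] (b : k) (f : k[X]) (n : ℤ) (hn : n < 0) :
    (psi b (algebraMap k[X] (RatFunc k) f)).coeff n = 0 := by
  rw [L2_psi_eq, PowerSeries.coeff_coe, if_pos hn]

theorem psi_coeff_zero {k : Type} [Field k] (b : k) (f : k[X]) :
    (psi b (algebraMap k[X] (RatFunc k) f)).coeff 0 = f.eval b := by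
  rw [L2_psi_eq, PowerSeries.coeff_coe, if_neg (lt_irrefl 0), Int.natAbs_zero,
    Polynomial.coeff_coe, Polynomial.coeff_zero_eq_eval_zero]
  simp

private theorem L2_val_nonneg {k : Type} [Field k] (c : LaurentSeries k)
    (h : ∀ n : ℤ, n < 0 → c.coeff n = 0) : 0 ≤ HahnSeries.addVal ℤ k c := by
  rw [HahnSeries.addVal_apply]
  exact HahnSeries.le_orderTop_iff_forall.2 (fun y hy => h y (by exact_mod_cast hy))

private theorem L2_val_zero {k : Type} [Field k] (c : LaurentSeries k)
    (h : ∀ n : ℤ, n < 0 → c.coeff n = 0) (h0 : c.coeff 0 ≠ 0) : HahnSeries.addVal ℤ k c = 0 := by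
  refine le_antisymm ?_ (L2_val_nonneg c h)
  rw [HahnSeries.addVal_apply]
  exact HahnSeries.orderTop_le_of_coeff_ne_zero h0

theorem finite_bad {k M R : Type} [Field k] [Field M] [Group R] [Finite R] [MulSemiringAction R M]
    {ψ : RatFunc k →+* M} {Z : Subgroup R} (h : IsG ψ R Z) (β : M) (hβ : β ≠ 0) :
    ∃ B : Finset k, ∀ b : k, b ∉ B → ∀ ε : M →+* LaurentSeries k, ε.comp ψ = psi b →
      (ε β).order = 0 := by
  let _ : Algebra (RatFunc k) M := ψ.toAlgebra
  let _ : Algebra k[X] M := (ψ.comp (algebraMap k[X] (RatFunc k))).toAlgebra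
  have : IsScalarTower k[X] (RatFunc k) M := IsScalarTower.of_algebraMap_eq (fun x => rfl)
  have : FiniteDimensional (RatFunc k) M := h.finiteDimensional rfl
  have halg : IsAlgebraic k[X] β :=
    (IsFractionRing.isAlgebraic_iff k[X] (RatFunc k) M).2 (Algebra.IsAlgebraic.isAlgebraic β)
  obtain ⟨q, hq0, hq⟩ := halg.exists_nonzero_coeff_and_aeval_eq_zero
    (mem_nonZeroDivisors_of_ne_zero hβ)
  classical
  have hqne : q ≠ 0 := by
    rintro rfl
    exact hq0 (by simp)
  refine ⟨(q.leadingCoeff * q.coeff 0).roots.toFinset, ?_⟩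
  intro b hb ε hε
  have hne : q.leadingCoeff * q.coeff 0 ≠ 0 := mul_ne_zero (leadingCoeff_ne_zero.2 hqne) hq0
  rw [Multiset.mem_toFinset, mem_roots hne, IsRoot.def, eval_mul, mul_eq_zero, not_or] at hb
  obtain ⟨hbn, hb0⟩ := hb
  set y : LaurentSeries k := ε β with hy
  have hy0 : y ≠ 0 := by
    rw [hy]
    exact (_root_.map_ne_zero ε).2 hβ
  set c : ℕ → LaurentSeries k := fun i => psi b (algebraMap k[X] (RatFunc k) (q.coeff i)) with hc
  have hsum : ∑ i ∈ Finset.range (q.natDegree + 1), c i * y ^ i = 0 := by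
    have h1 := congrArg ε hq
    rw [Polynomial.aeval_eq_sum_range, map_sum, map_zero] at h1
    rw [← h1]
    refine Finset.sum_congr rfl (fun i _ => ?_)
    rw [Algebra.smul_def, map_mul, map_pow]
    congr 1
    rw [hc]
    change psi b _ = ε (ψ (algebraMap k[X] (RatFunc k) (q.coeff i)))
    rw [← hε]
    rfl
  have hcn : ∀ i, 0 ≤ HahnSeries.addVal ℤ k (c i) := fun i =>
    L2_val_nonneg _ (fun n hn => psi_order_nonneg b _ n hn)
  have hc0 : HahnSeries.addVal ℤ k (c 0) = 0 :=
    L2_val_zero _ (fun n hn => psi_order_nonneg b _ n hn) (by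
      rw [hc]
      simp only
      rw [psi_coeff_zero]
      exact hb0)
  have hcd : HahnSeries.addVal ℤ k (c q.natDegree) = 0 :=
    L2_val_zero _ (fun n hn => psi_order_nonneg b _ n hn) (by
      rw [hc]
      simp only
      rw [psi_coeff_zero]
      exact hbn)
  have hvy : HahnSeries.addVal ℤ k y = (y.order : WithTop ℤ) := by
    rw [HahnSeries.addVal_apply, HahnSeries.order_eq_orderTop_of_ne_zero hy0]
  set v : ℤ := y.order with hv
  have hterm : ∀ i, HahnSeries.addVal ℤ k (c i * y ^ i) =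
      HahnSeries.addVal ℤ k (c i) + ((i * v : ℤ) : WithTop ℤ) := by
    intro i
    rw [AddValuation.map_mul, AddValuation.map_pow, hvy]
    congr 1
  rcases lt_trichotomy v 0 with hlt | heq | hgt
  · exfalso
    rw [Finset.sum_range_succ] at hsum
    have h1 : HahnSeries.addVal ℤ k (c q.natDegree * y ^ q.natDegree) =
        ((q.natDegree * v : ℤ) : WithTop ℤ) := by
      rw [hterm, hcd, zero_add]
    have h2 : ((q.natDegree * v : ℤ) : WithTop ℤ) <
        HahnSeries.addVal ℤ k (∑ i ∈ Finset.range q.natDegree, c i * y ^ i) := by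
      refine AddValuation.map_lt_sum' _ (WithTop.coe_lt_top _) ?_
      intro i hi
      rw [hterm]
      have h3 : ((q.natDegree * v : ℤ) : WithTop ℤ) < ((i * v : ℤ) : WithTop ℤ) := by
        have h4 : (i : ℤ) < q.natDegree := by exact_mod_cast Finset.mem_range.1 hi
        exact_mod_cast mul_lt_mul_of_neg_right h4 hlt
      exact lt_of_lt_of_le h3 (le_add_of_nonneg_left (hcn i))
    have h5 : c q.natDegree * y ^ q.natDegree = -(∑ i ∈ Finset.range q.natDegree, c i * y ^ i) := by
      rw [eq_neg_iff_add_eq_zero, add_comm]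
      exact hsum
    rw [h5, AddValuation.map_neg] at h1
    rw [h1] at h2
    exact lt_irrefl _ h2
  · exact heq
  · exfalso
    rw [Finset.sum_range_succ'] at hsum
    have h2 : (0 : WithTop ℤ) <
        HahnSeries.addVal ℤ k (∑ i ∈ Finset.range q.natDegree, c (i + 1) * y ^ (i + 1)) := by
      refine AddValuation.map_lt_sum' _ (WithTop.coe_lt_top 0) ?_
      intro i _
      rw [hterm]
      have h3 : (0 : WithTop ℤ) < (((i + 1 : ℕ) * v : ℤ) : WithTop ℤ) := by
        have h4 : (0 : ℤ) < (i + 1 : ℕ) * v := by positivity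
        exact_mod_cast h4
      exact lt_of_lt_of_le h3 (le_add_of_nonneg_left (hcn _))
    have h5 : c 0 = -(∑ i ∈ Finset.range q.natDegree, c (i + 1) * y ^ (i + 1)) := by
      rw [eq_neg_iff_add_eq_zero, add_comm]
      simpa using hsum
    rw [h5, AddValuation.map_neg] at hc0
    rw [hc0] at h2
    exact lt_irrefl _ h2

end

end Pool.Agent.MP_1c8e06_ag.AK
end

section

set_option autoImplicit false

open Polynomial

namespace Pool.Agent.MP_1c8e06_ag.AK

noncomputable section

/-!
# Task L3: rational functions with prescribed orders; Task L4: powers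

Proofs.
* `exists_orders`: `c := ∏ b ∈ B, (X - C b) ^ (m b)` (`zpow` in `RatFunc k`).  `psi b' (X - C b) = C (b' - b) + t` has order `1` if `b' = b` and
  `0` otherwise; orders are additive (`order_mul_L`, also for `zpow`).
* `const_of_orders`: `c = algebraMap f / algebraMap g`, coprime polynomials (`RatFunc.num`, `RatFunc.denom`).  `k` is algebraically closed: if `f` is not
  constant it has a root `b`; then `g(b) ≠ 0` and `psi b c` has positive order (`psi b f` has constant coefficient `0`, `psi b g` has order `0`):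
  contradiction.  Same for `g`.
* `exists_root_K`: `B :=` finite set outside which all orders are `0` (the roots of numerator and denominator), `m b := order / ℓ`; `c₀` from `exists_orders`
  with `order (psi b c₀) = m b` for `b ∈ B`; `c / c₀ ^ ℓ` has all orders `0`: it is a constant `C d`, `d = e ^ ℓ`.
-/

private theorem L3_inv {k : Type} [Field k] {f : LaurentSeries k} (hf : f ≠ 0) :
    (f⁻¹).order = - f.order := by
  have h1 : (f * f⁻¹).order = f.order + (f⁻¹).order := order_mul_L hf (inv_ne_zero hf)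
  rw [mul_inv_cancel₀ hf, HahnSeries.order_one] at h1
  linarith

private theorem L3_zpow {k : Type} [Field k] {f : LaurentSeries k} (hf : f ≠ 0) (m : ℤ) :
    (f ^ m).order = m * f.order := by
  cases m with
  | ofNat n =>
    rw [Int.ofNat_eq_natCast, zpow_natCast, order_pow_L]
  | negSucc n =>
    rw [zpow_negSucc, L3_inv (pow_ne_zero _ hf), order_pow_L, Int.negSucc_eq]
    push_cast
    ring

private theorem L3_prod {k ι : Type} [Field k] (B : Finset ι) (f : ι → LaurentSeries k)
    (hf : ∀ b ∈ B, f b ≠ 0) : (∏ b ∈ B, f b).order = ∑ b ∈ B, (f b).order := by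
  classical
  induction B using Finset.induction_on with
  | empty => rw [Finset.prod_empty, Finset.sum_empty, HahnSeries.order_one]
  | insert a B ha ih =>
    rw [Finset.prod_insert ha, Finset.sum_insert ha, order_mul_L (hf a (Finset.mem_insert_self a B)),
      ih (fun b hb => hf b (Finset.mem_insert_of_mem hb))]
    rw [Finset.prod_ne_zero_iff]
    exact fun b hb => hf b (Finset.mem_insert_of_mem hb)

private theorem L3_alg {k : Type} [Field k] (b : k) (f : k[X]) (hf : f ≠ 0) :
    0 ≤ (psi b (algebraMap k[X] (RatFunc k) f)).order ∧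
      ((psi b (algebraMap k[X] (RatFunc k) f)).order = 0 ↔ f.eval b ≠ 0) := by
  have hne : psi b (algebraMap k[X] (RatFunc k) f) ≠ 0 := by
    rw [Ne, map_eq_zero, map_eq_zero_iff _ (RatFunc.algebraMap_injective k)]
    exact hf
  have h1 := (HahnSeries.coeff_order_eq_zero.not.2 hne)
  have h0 : 0 ≤ (psi b (algebraMap k[X] (RatFunc k) f)).order := by
    by_contra hlt
    rw [not_le] at hlt
    exact h1 (psi_order_nonneg b f _ hlt)
  refine ⟨h0, ?_, ?_⟩
  · intro h
    rw [h, psi_coeff_zero] at h1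
    exact h1
  · intro h
    rw [← psi_coeff_zero] at h
    exact le_antisymm (HahnSeries.order_le_of_coeff_ne_zero h) h0

private theorem L3_lin {k : Type} [Field k] [DecidableEq k] (b b' : k) :
    (psi b' (RatFunc.X - RatFunc.C b)).order = if b' = b then 1 else 0 := by
  have e : (RatFunc.X - RatFunc.C b : RatFunc k) = algebraMap k[X] (RatFunc k) (X - C b) := by
    rw [map_sub, RatFunc.algebraMap_X, RatFunc.algebraMap_C]
  split_ifs with h
  · subst h
    rw [map_sub, psi_X, psi_C, add_sub_cancel_left, tt, HahnSeries.order_single one_ne_zero]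
  · rw [e]
    refine ((L3_alg b' (X - C b) (X_sub_C_ne_zero b)).2).2 ?_
    rw [eval_sub, eval_X, eval_C]
    exact sub_ne_zero.2 h

theorem exists_orders {k : Type} [Field k] (B : Finset k) (m : k → ℤ) :
    ∃ c : RatFunc k, c ≠ 0 ∧ (∀ b ∈ B, (psi b c).order = m b) ∧ ∀ b, b ∉ B → (psi b c).order = 0 := by
  classical
  have hne : ∀ b : k, (RatFunc.X - RatFunc.C b : RatFunc k) ≠ 0 := by
    intro b h
    have e : (RatFunc.X - RatFunc.C b : RatFunc k) = algebraMap k[X] (RatFunc k) (X - C b) := by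
      rw [map_sub, RatFunc.algebraMap_X, RatFunc.algebraMap_C]
    rw [e, map_eq_zero_iff _ (RatFunc.algebraMap_injective k)] at h
    exact X_sub_C_ne_zero b h
  have key : ∀ b' : k, (psi b' (∏ b ∈ B, (RatFunc.X - RatFunc.C b : RatFunc k) ^ (m b))).order =
      if b' ∈ B then m b' else 0 := by
    intro b'
    rw [map_prod, L3_prod]
    · have h1 : ∀ b ∈ B, (psi b' ((RatFunc.X - RatFunc.C b : RatFunc k) ^ (m b))).order =
          if b' = b then m b else 0 := by
        intro b _
        rw [map_zpow₀, L3_zpow ((_root_.map_ne_zero _).2 (hne b)), L3_lin]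
        split_ifs
        · rw [mul_one]
        · rw [mul_zero]
      rw [Finset.sum_congr rfl h1, Finset.sum_ite_eq]
    · intro b _
      exact (_root_.map_ne_zero _).2 (zpow_ne_zero _ (hne b))
  refine ⟨∏ b ∈ B, (RatFunc.X - RatFunc.C b : RatFunc k) ^ (m b), ?_, ?_, ?_⟩
  · rw [Finset.prod_ne_zero_iff]
    exact fun b _ => zpow_ne_zero _ (hne b)
  · intro b hb
    rw [key, if_pos hb]
  · intro b hb
    rw [key, if_neg hb]

private theorem L3_div {k : Type} [Field k] (b : k) (c : RatFunc k) (hc : c ≠ 0) :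
    (psi b (algebraMap k[X] (RatFunc k) c.num)).order =
      (psi b c).order + (psi b (algebraMap k[X] (RatFunc k) c.denom)).order := by
  have h1 : algebraMap k[X] (RatFunc k) c.denom ≠ 0 := by
    rw [Ne, map_eq_zero_iff _ (RatFunc.algebraMap_injective k)]
    exact c.denom_ne_zero
  have h2 : c * algebraMap k[X] (RatFunc k) c.denom = algebraMap k[X] (RatFunc k) c.num := by
    have := RatFunc.num_div_denom c
    rw [div_eq_iff h1] at this
    exact this.symm
  rw [← h2, map_mul, order_mul_L ((_root_.map_ne_zero _).2 hc) ((_root_.map_ne_zero _).2 h1)]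

theorem const_of_orders {k : Type} [Field k] [IsAlgClosed k] (c : RatFunc k) (hc : c ≠ 0)
    (h : ∀ b : k, (psi b c).order = 0) : ∃ d : k, c = RatFunc.C d := by
  have hn0 : c.num ≠ 0 := RatFunc.num_ne_zero hc
  have hd0 : c.denom ≠ 0 := c.denom_ne_zero
  have hco := RatFunc.isCoprime_num_denom c
  have hcop : ∀ b : k, c.num.eval b = 0 → c.denom.eval b ≠ 0 := by
    intro b h1 h2
    obtain ⟨u, v, huv⟩ := hco
    have h3 := congrArg (Polynomial.eval b) huv
    rw [eval_add, eval_mul, eval_mul, h1, h2, mul_zero, mul_zero, add_zero, eval_one] at h3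
    exact zero_ne_one h3
  have hroot : ∀ b : k, c.num.eval b ≠ 0 ∧ c.denom.eval b ≠ 0 := by
    intro b
    have h1 := L3_div b c hc
    rw [h b, zero_add] at h1
    have hn := (L3_alg b c.num hn0).2
    have hd := (L3_alg b c.denom hd0).2
    by_cases h2 : c.num.eval b = 0
    · exact absurd h2 (hn.1 (h1.trans (hd.2 (hcop b h2))))
    · exact ⟨h2, hd.1 (h1.symm.trans (hn.2 h2))⟩
  have hdeg : ∀ f : k[X], (∀ b : k, f.eval b ≠ 0) → ∃ a : k, f = C a := by
    intro f hf
    by_contra hcon
    have h1 : f.degree ≠ 0 := by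
      intro h1
      exact hcon ⟨f.coeff 0, eq_C_of_degree_eq_zero h1⟩
    obtain ⟨b, hb⟩ := IsAlgClosed.exists_root f h1
    exact hf b hb
  obtain ⟨a, ha⟩ := hdeg c.num (fun b => (hroot b).1)
  obtain ⟨a', ha'⟩ := hdeg c.denom (fun b => (hroot b).2)
  refine ⟨a / a', ?_⟩
  rw [← RatFunc.num_div_denom c, ha, ha', RatFunc.algebraMap_C, RatFunc.algebraMap_C, map_div₀]

theorem exists_root_K {k : Type} [Field k] [IsAlgClosed k] (ℓ : ℕ) (hℓ : 0 < ℓ) (c : RatFunc k)
    (h : ∀ b : k, (ℓ : ℤ) ∣ (psi b c).order) : ∃ d : RatFunc k, d ^ ℓ = c := by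
  classical
  by_cases hc : c = 0
  · exact ⟨0, by rw [hc, zero_pow hℓ.ne']⟩
  have hn0 : c.num ≠ 0 := RatFunc.num_ne_zero hc
  have hd0 : c.denom ≠ 0 := c.denom_ne_zero
  obtain ⟨c₀, hc₀, h1, h2⟩ := exists_orders ((c.num * c.denom).roots.toFinset)
    (fun b => (psi b c).order / ℓ)
  have hB : ∀ b : k, b ∉ (c.num * c.denom).roots.toFinset → (psi b c).order = 0 := by
    intro b hb
    rw [Multiset.mem_toFinset, mem_roots (mul_ne_zero hn0 hd0), IsRoot.def, eval_mul,
      mul_eq_zero, not_or] at hb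
    have h3 := L3_div b c hc
    rw [((L3_alg b c.num hn0).2).2 hb.1, ((L3_alg b c.denom hd0).2).2 hb.2, add_zero] at h3
    exact h3.symm
  have hq : c / c₀ ^ ℓ ≠ 0 := div_ne_zero hc (pow_ne_zero _ hc₀)
  obtain ⟨d, hd⟩ := const_of_orders (c / c₀ ^ ℓ) hq (by
    intro b
    rw [map_div₀, map_pow, div_eq_mul_inv, order_mul_L ((_root_.map_ne_zero _).2 hc)
      (inv_ne_zero (pow_ne_zero _ ((_root_.map_ne_zero _).2 hc₀))),
      L3_inv (pow_ne_zero _ ((_root_.map_ne_zero _).2 hc₀)), order_pow_L]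
    by_cases hb : b ∈ (c.num * c.denom).roots.toFinset
    · rw [h1 b hb, Int.mul_ediv_cancel' (h b)]
      exact add_neg_cancel _
    · rw [h2 b hb, hB b hb, mul_zero, neg_zero, add_zero])
  obtain ⟨e, he⟩ := IsAlgClosed.exists_pow_nat_eq d hℓ
  refine ⟨c₀ * RatFunc.C e, ?_⟩
  rw [mul_pow, ← map_pow, he, ← hd, mul_div_cancel₀ _ (pow_ne_zero _ hc₀)]

end

end Pool.Agent.MP_1c8e06_ag.AK
end
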