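import Pool.Agent.Lib.MP_1c8e06_ag.Mg.G025
import Pool.Agent.Lib.MP_1c8e06_ag.AK.Defs

section

set_option autoImplicit false

open Polynomial

namespace Pool.Agent.MP_1c8e06_ag.AK

noncomputable section

/-!
# Task T2: the version with coefficients in an algebra

Proof.  Let `w := finrank k W` and `lam : A →ₗ[k] (Fin w → k)` a linear map which is injective on `W` (a linear equivalence
`W ≃ (Fin w → k)` composed with a `k`-linear retraction `A → W`, `Submodule.exists_isCompl`/`LinearMap.exists_leftInverse_of_injective`).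
For `i : Fin w` let `Q i : MvPolynomial ι k := ∑ m ∈ P.support, monomial m (lam (coeff m P) i)`.  For `v : ι → k`:
`eval v (Q i) = lam (eval (algebraMap ∘ v) P) i` (`MvPolynomial.eval_eq`: `eval _ P = ∑ m ∈ support, coeff m P * ∏ (algebraMap (v j))^(m j)`
`= ∑ m, (∏ v j ^ m j) • coeff m P`, and `lam` is `k`-linear).  `constantCoeff (Q i) = lam (constantCoeff P) i = 0`.  Transport
`Q` along `Fintype.equivFin ι` (`MvPolynomial.rename`) and apply `common_zero`: `v ≠ 0` with `eval v (Q i) = 0` for all `i`, so
`lam (P(v)) = 0`, and `P(v) ∈ W`, so `P(v) = 0`.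
-/

theorem common_zero_alg {k A : Type} [Field k] [IsAlgClosed k] [CommRing A] [Algebra k A] {ι : Type}
    [Fintype ι] (P : MvPolynomial ι A) (h0 : MvPolynomial.constantCoeff P = 0) (W : Submodule k A)
    (hfd : FiniteDimensional k W)
    (hW : ∀ v : ι → k, MvPolynomial.eval (fun i => algebraMap k A (v i)) P ∈ W)
    (hlt : Module.finrank k W < Fintype.card ι) :
    ∃ v : ι → k, v ≠ 0 ∧ MvPolynomial.eval (fun i => algebraMap k A (v i)) P = 0 := by
  classical
  obtain ⟨g, hg⟩ := LinearMap.exists_leftInverse_of_injective W.subtype (Submodule.ker_subtype W)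
  let e := (Module.finBasis k W).equivFun
  let lam : A →ₗ[k] (Fin (Module.finrank k W) → k) := e.toLinearMap ∘ₗ g
  have hinj : ∀ x ∈ W, lam x = 0 → x = 0 := by
    intro x hx h
    have h1 : g x = ⟨x, hx⟩ := by
      have := LinearMap.congr_fun hg ⟨x, hx⟩
      simpa using this
    have h2 : e (g x) = 0 := h
    rw [h1, LinearEquiv.map_eq_zero_iff] at h2
    exact congrArg Subtype.val h2
  let Q : Fin (Module.finrank k W) → MvPolynomial ι k := fun i =>
    ∑ m ∈ P.support, MvPolynomial.monomial m (lam (MvPolynomial.coeff m P) i)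
  have hQ : ∀ (v : ι → k) (i : Fin (Module.finrank k W)), MvPolynomial.eval v (Q i) =
      lam (MvPolynomial.eval (fun i => algebraMap k A (v i)) P) i := by
    intro v i
    have h1 : MvPolynomial.eval (fun i => algebraMap k A (v i)) P =
        ∑ m ∈ P.support, (∏ j ∈ m.support, v j ^ m j) • MvPolynomial.coeff m P := by
      rw [MvPolynomial.eval_eq]
      refine Finset.sum_congr rfl fun m _ => ?_
      rw [Algebra.smul_def, map_prod, mul_comm]
      simp only [map_pow]
    rw [h1, map_sum lam, Finset.sum_apply]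
    simp only [Q]
    rw [map_sum (MvPolynomial.eval v)]
    refine Finset.sum_congr rfl fun m _ => ?_
    rw [MvPolynomial.eval_monomial, map_smul, Pi.smul_apply, smul_eq_mul, mul_comm]
    rfl
  have hQ0 : ∀ i, MvPolynomial.constantCoeff (Q i) = 0 := by
    intro i
    have h1 : MvPolynomial.constantCoeff (Q i) = MvPolynomial.eval (0 : ι → k) (Q i) := by
      rw [MvPolynomial.constantCoeff_eq, ← MvPolynomial.constantCoeff_eq]
      rw [← MvPolynomial.eval_zero]
    rw [h1, hQ]
    have h2 : MvPolynomial.eval (fun i => algebraMap k A ((0 : ι → k) i)) P = 0 := by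
      have : (fun i => algebraMap k A ((0 : ι → k) i)) = (0 : ι → A) := by
        funext i; simp
      rw [this, MvPolynomial.eval_zero]
      exact h0
    rw [h2, map_zero]
    rfl
  let τ := Fintype.equivFin ι
  obtain ⟨v, hv, hz⟩ := common_zero (fun i => MvPolynomial.rename τ (Q i)) (by
    intro i
    rw [MvPolynomial.constantCoeff_rename]
    exact hQ0 i) hlt
  refine ⟨fun i => v (τ i), ?_, ?_⟩
  · intro h
    apply hv
    funext j
    have := congrFun h (τ.symm j)
    simpa using this
  · apply hinj _ (hW _)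
    funext i
    rw [← hQ]
    have := hz i
    rw [MvPolynomial.eval_rename] at this
    exact this

end

end Pool.Agent.MP_1c8e06_ag.AK
end

section

set_option autoImplicit false

open Polynomial

namespace Pool.Agent.MP_1c8e06_ag.AK

noncomputable section

/-- The `k`-span of `1, y, …, y ^ r`. -/
def Yr (k : Type) {M : Type} [Field k] [Field M] [Algebra k M] (y : M) (r : ℕ) : Submodule k M :=
  Submodule.span k ((fun s : ℕ => y ^ s) '' Set.Iic r)

/-!
# Task T3: linear growth

Notation: `K := RatFunc k`, `y := algebraMap K M RatFunc.X`, products of `k`-submodules of `M` (`Submodule.mul`).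
* `Yr_mul`: spans: `Submodule.span_mul_span`.
* `exists_bound`.  Let `n := finrank K F`, `pi : M →ₗ[K] M` a `K`-linear map with range in `F` which is the identity on `F`
  (retraction onto a subspace).  `U` is spanned over `k` by a finite set `A ⊂ M`.  Let `e : Fin n → M` be a basis of `F` over `K`.
  For `a ∈ A`, `pi a = ∑ j, r a j • e j` with `r a j ∈ K`; let `D ∈ k[X]`, `D ≠ 0`, be a common denominator of the finitely many `r a j`
  (`IsLocalization.exist_integer_multiples`), `D * r a j = f a j ∈ k[X]`, and `c` a bound for the degrees of the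
  `f a j`; `e' j := (D : K)⁻¹ • e j`.  So `pi a = ∑ j, f a j (y) * e' j ∈ Yr c * span_k (range e')`.  For
  `x ∈ F` with `x ∈ Yr r * U`: `x = pi x`, and `pi (y^s * a) = y^s * pi a` as `pi` is `K`-linear, so
  `x ∈ Yr r * (Yr c * span (range e')) ≤ Yr (r+c) * span (range e') =: W` (`Yr_mul`), `Submodule.map_mul`-like or
  induction on `x ∈ Yr r * U` (`Submodule.mul_induction_on`, `Submodule.span_induction`).
  `W` is spanned by the `(r+c+1) * n` elements `y^s * e' j` (`Submodule.span_mul_span`), so
  `finrank k W ≤ (r+c+1) * n` (`finrank_span_le_card`, or `finrank_range_le_card`).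
-/

theorem Yr_mul {k M : Type} [Field k] [Field M] [Algebra k M] (y : M) (r s : ℕ) :
    Yr k y r * Yr k y s ≤ Yr k y (r + s) := by
  unfold Yr
  rw [Submodule.span_mul_span, Submodule.span_le]
  rintro _ ⟨_, ⟨a, ha, rfl⟩, _, ⟨b, hb, rfl⟩, rfl⟩
  refine Submodule.subset_span ⟨a + b, ?_, ?_⟩
  · have ha' : a ≤ r := ha
    have hb' : b ≤ s := hb
    show a + b ≤ r + s
    exact add_le_add ha' hb'
  · simp only [pow_add]

theorem exists_bound {k M : Type} [Field k] [Field M] [Algebra (RatFunc k) M] [Algebra k M]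
    [IsScalarTower k (RatFunc k) M] (F : Submodule (RatFunc k) M)
    (hF : FiniteDimensional (RatFunc k) F) (U : Submodule k M) (hU : U.FG) :
    ∃ c : ℕ, ∀ r : ℕ, ∃ W : Submodule k M, FiniteDimensional k W ∧
      Module.finrank k W ≤ Module.finrank (RatFunc k) F * (r + c + 1) ∧
      ∀ x ∈ F, x ∈ Yr k (algebraMap (RatFunc k) M RatFunc.X) r * U → x ∈ W := by
  classical
  obtain ⟨A, rfl⟩ := hU
  obtain ⟨g, hg⟩ := LinearMap.exists_leftInverse_of_injective F.subtype (Submodule.ker_subtype F)
  let n := Module.finrank (RatFunc k) F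
  let e := Module.finBasis (RatFunc k) F
  let S : Finset (RatFunc k) := (A ×ˢ (Finset.univ : Finset (Fin n))).image
    fun q => e.repr (g q.1) q.2
  obtain ⟨D, hD⟩ := IsLocalization.exist_integer_multiples_of_finset (nonZeroDivisors k[X]) S
  have hD' : ∀ a ∈ A, ∀ j : Fin n, ∃ f : k[X],
      algebraMap k[X] (RatFunc k) f = algebraMap k[X] (RatFunc k) D * e.repr (g a) j := by
    intro a ha j
    obtain ⟨f, hf⟩ := hD (e.repr (g a) j) (Finset.mem_image.2 ⟨(a, j), by simp [ha], rfl⟩)
    refine ⟨f, ?_⟩
    rw [hf, Algebra.smul_def]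
  choose! f hf using hD'
  have hD0 : algebraMap k[X] (RatFunc k) D ≠ 0 := by
    intro h
    rw [map_eq_zero_iff _ (IsFractionRing.injective k[X] (RatFunc k))] at h
    exact nonZeroDivisors.ne_zero D.2 h
  let c : ℕ := (A ×ˢ (Finset.univ : Finset (Fin n))).sup fun q => (f q.1 q.2).natDegree
  have hc : ∀ a ∈ A, ∀ j : Fin n, (f a j).natDegree ≤ c := fun a ha j =>
    Finset.le_sup (f := fun q : M × Fin n => (f q.1 q.2).natDegree) (b := (a, j)) (by simp [ha])
  let y := algebraMap (RatFunc k) M RatFunc.X
  let e' : Fin n → M := fun j => (algebraMap k[X] (RatFunc k) D)⁻¹ • (e j : M)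
  refine ⟨c, fun r => ?_⟩
  let v : Fin (r + c + 1) × Fin n → M := fun q => y ^ (q.1 : ℕ) * e' q.2
  refine ⟨Submodule.span k (Set.range v), FiniteDimensional.span_of_finite k (Set.finite_range v),
    ?_, ?_⟩
  · have h1 : Set.finrank k (Set.range v) ≤ Fintype.card (Fin (r + c + 1) × Fin n) :=
      finrank_range_le_card v
    rw [Fintype.card_prod, Fintype.card_fin, Fintype.card_fin, mul_comm] at h1
    exact h1
  · intro x hxF hx
    let pi : M →ₗ[RatFunc k] M := F.subtype ∘ₗ g
    have hpi : pi x = x := by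
      have := LinearMap.congr_fun hg ⟨x, hxF⟩
      exact congrArg Subtype.val this
    have key : Yr k y r * Submodule.span k (A : Set M) ≤
        (Submodule.span k (Set.range v)).comap (pi.restrictScalars k) := by
      unfold Yr
      rw [Submodule.span_mul_span, Submodule.span_le]
      rintro _ ⟨_, ⟨s, hs, rfl⟩, a, ha, rfl⟩
      have hs' : s ≤ r := hs
      show pi (y ^ s * a) ∈ Submodule.span k (Set.range v)
      have h1 : pi (y ^ s * a) = y ^ s * pi a := by
        have h2 : y ^ s * a = (RatFunc.X ^ s : RatFunc k) • a := by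
          rw [Algebra.smul_def, map_pow]
        have h3 : y ^ s * pi a = (RatFunc.X ^ s : RatFunc k) • pi a := by
          rw [Algebra.smul_def, map_pow]
        rw [h2, h3, map_smul]
      have h4 : pi a = ∑ j, algebraMap (RatFunc k) M (algebraMap k[X] (RatFunc k) (f a j)) * e' j := by
        have h5 : (g a : M) = ∑ j, e.repr (g a) j • (e j : M) := by
          conv_lhs => rw [← e.sum_repr (g a)]
          rw [Submodule.coe_sum]
          rfl
        show (g a : M) = _
        rw [h5]
        refine Finset.sum_congr rfl fun j _ => ?_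
        rw [hf a ha j, ← Algebra.smul_def, smul_smul]
        congr 1
        field_simp
      rw [h1, h4, Finset.mul_sum]
      refine Submodule.sum_mem _ fun j _ => ?_
      have h6 : f a j = ∑ t ∈ Finset.range (c + 1), C ((f a j).coeff t) * X ^ t :=
        Polynomial.as_sum_range_C_mul_X_pow' (f a j) (Nat.lt_succ_of_le (hc a ha j))
      rw [h6, map_sum, map_sum, Finset.sum_mul, Finset.mul_sum]
      refine Submodule.sum_mem _ fun t ht => ?_
      have ht' : t ≤ c := Nat.lt_succ_iff.1 (Finset.mem_range.1 ht)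
      have h7 : y ^ s * (algebraMap (RatFunc k) M (algebraMap k[X] (RatFunc k)
          (C ((f a j).coeff t) * X ^ t)) * e' j) = (f a j).coeff t • v (⟨s + t, by omega⟩, j) := by
        have h8 : algebraMap (RatFunc k) M (algebraMap k[X] (RatFunc k) (C ((f a j).coeff t))) =
            algebraMap k M ((f a j).coeff t) := by
          rw [IsScalarTower.algebraMap_apply k (RatFunc k) M, RatFunc.algebraMap_C]
          rfl
        have h9 : algebraMap (RatFunc k) M (algebraMap k[X] (RatFunc k) X) = y := by
          rw [RatFunc.algebraMap_X]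
        rw [map_mul, map_mul, map_pow, map_pow, h8, h9, Algebra.smul_def]
        simp only [v, pow_add]
        ring
      rw [h7]
      exact Submodule.smul_mem _ _ (Submodule.subset_span ⟨_, rfl⟩)
    have := key hx
    rw [Submodule.mem_comap, LinearMap.restrictScalars_apply, hpi] at this
    exact this

end

end Pool.Agent.MP_1c8e06_ag.AK
end

section

set_option autoImplicit false

open Polynomial

namespace Pool.Agent.MP_1c8e06_ag.AK

noncomputable section

/-!
# Task E4c: an alternative for `ℓ`-groups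

Proof.  (Pure group theory.)  `A := Multiplicative (ZMod ℓ)`, `Φ := ⨅ χ : R →* A, χ.ker`, a normal subgroup.
Case `Φ ≠ ⊥`: in a finite `ℓ`-group a nontrivial normal subgroup meets the center nontrivially (`IsPGroup`: the `ℓ`-group `R` acts on `Φ` by conjugation, the number of
fixed points is `≡ card Φ ≡ 0 mod ℓ`, `IsPGroup.card_modEq_card_fixedPoints`; or lemmas about `Subgroup.center` and `IsPGroup`), so `Φ ⊓ center R` contains an element `z` of order `ℓ`
(Cauchy); `Z := zpowers z`.
Case `Φ = ⊥`: `R` embeds in a product of copies of `A` (`r ↦ (χ r)_χ`), so it is commutative and `r ^ ℓ = 1`.  `f c := ∏ j, x j ^ (c j).toAdd.val` is a homomorphism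
(`r ^ ℓ = 1`, commutativity; e.g. as a product of homomorphisms `A →* R`, `zpowersHom`-like) and its range contains all `x j`, so it is onto.
-/

private theorem E4c_central {ℓ : ℕ} [hℓ : Fact ℓ.Prime] {R : Type} [Group R] [Finite R]
    (hR : IsPGroup ℓ R) (Φ : Subgroup R) [hN : Φ.Normal] (hΦ : Φ ≠ ⊥) :
    ∃ z ∈ Φ, orderOf z = ℓ ∧ ∀ r : R, z * r = r * z := by
  classical
  have hdvd : ℓ ∣ Nat.card Φ := by
    rcases (hR.to_subgroup Φ).card_eq_or_dvd with h | h
    · exact absurd ((Subgroup.card_eq_one (H := Φ)).1 h) hΦ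
    · exact h
  have h1 : (1 : Φ) ∈ MulAction.fixedPoints (ConjAct R) Φ := fun g => smul_one g
  obtain ⟨b, hb, hb1⟩ :=
    (hR.of_equiv ConjAct.toConjAct).exists_fixed_point_of_prime_dvd_card_of_fixed_point Φ hdvd h1
  have hbc : ∀ r : R, (b : R) * r = r * (b : R) := by
    intro r
    have h2 := hb (ConjAct.toConjAct r)
    have h3 : r * (b : R) * r⁻¹ = (b : R) := by
      have h4 := congrArg (Subtype.val) h2
      rw [ConjAct.Subgroup.val_conj_smul, ConjAct.smul_def, ConjAct.ofConjAct_toConjAct] at h4
      exact h4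
    calc (b : R) * r = (r * (b : R) * r⁻¹) * r := by rw [h3]
      _ = r * (b : R) := by group
  let H : Subgroup R := Φ ⊓ Subgroup.center R
  have hbH : (b : R) ∈ H := ⟨b.2, Subgroup.mem_center_iff.2 fun g => (hbc g).symm⟩
  have hHdvd : ℓ ∣ Nat.card H := by
    rcases (hR.to_subgroup H).card_eq_or_dvd with h | h
    · have h5 : H = ⊥ := (Subgroup.card_eq_one (H := H)).1 h
      rw [h5, Subgroup.mem_bot] at hbH
      exact absurd (Subtype.ext hbH.symm) hb1
    · exact h
  obtain ⟨z, hz⟩ := exists_prime_orderOf_dvd_card' ℓ hHdvd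
  refine ⟨(z : R), z.2.1, ?_, fun r => (Subgroup.mem_center_iff.1 z.2.2 r).symm⟩
  rw [Subgroup.orderOf_coe, hz]

private theorem E4c_pow {ℓ : ℕ} (a : Multiplicative (ZMod ℓ)) : a ^ ℓ = 1 := by
  have h : (ℓ : ℕ) • (Multiplicative.toAdd a) = 0 := by simp
  exact h

theorem ell_cases {ℓ : ℕ} [hℓ : Fact ℓ.Prime] {R : Type} [Group R] [Finite R] (hR : IsPGroup ℓ R)
    {n : ℕ} (x : Fin n → R) (hx : Subgroup.closure (Set.range x) = ⊤) :
    (∃ f : (Fin n → Multiplicative (ZMod ℓ)) →* R, Function.Surjective f) ∨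
    ∃ Z : Subgroup R, Z.Normal ∧ Nat.card Z = ℓ ∧ (∀ z ∈ Z, ∀ r : R, z * r = r * z) ∧
      ∀ χ : R →* Multiplicative (ZMod ℓ), ∀ z ∈ Z, χ z = 1 := by
  classical
  have : Fact (1 < ℓ) := ⟨hℓ.out.one_lt⟩
  let Φ : Subgroup R := ⨅ χ : R →* Multiplicative (ZMod ℓ), χ.ker
  have hmem : ∀ r : R, r ∈ Φ ↔ ∀ χ : R →* Multiplicative (ZMod ℓ), χ r = 1 := by
    intro r
    simp only [Φ, Subgroup.mem_iInf, MonoidHom.mem_ker]
  have hN : Φ.Normal := Subgroup.normal_iInf_normal fun χ => χ.normal_ker
  by_cases hΦ : Φ = ⊥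
  · left
    have hone : ∀ r : R, (∀ χ : R →* Multiplicative (ZMod ℓ), χ r = 1) → r = 1 := by
      intro r hr
      have h1 := (hmem r).2 hr
      rw [hΦ, Subgroup.mem_bot] at h1
      exact h1
    have hcomm : ∀ a b : R, a * b = b * a := by
      intro a b
      have h1 : a * b * (b * a)⁻¹ = 1 := hone _ fun χ => by
        rw [map_mul, map_inv, map_mul, map_mul, mul_comm (χ b) (χ a), mul_inv_cancel]
      exact mul_inv_eq_one.1 h1
    have hpow : ∀ r : R, r ^ ℓ = 1 := fun r => hone _ fun χ => by
      rw [map_pow, E4c_pow]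
    let _ : CommGroup R := { ‹Group R› with mul_comm := hcomm }
    let g : Fin n → (Multiplicative (ZMod ℓ) →* R) := fun j =>
      { toFun := fun a => x j ^ (Multiplicative.toAdd a).val
        map_one' := by
          show x j ^ (0 : ZMod ℓ).val = 1
          rw [ZMod.val_zero, pow_zero]
        map_mul' := fun a b => by
          show x j ^ (Multiplicative.toAdd a + Multiplicative.toAdd b).val = _
          rw [ZMod.val_add, ← pow_eq_pow_mod _ (hpow (x j)), pow_add] }
    let f : (Fin n → Multiplicative (ZMod ℓ)) →* R := ∏ j, (g j).comp (Pi.evalMonoidHom _ j)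
    have hf : ∀ c, f c = ∏ j, g j (c j) := fun c => by
      simp only [f, MonoidHom.finsetProd_apply, MonoidHom.comp_apply, Pi.evalMonoidHom_apply]
    refine ⟨f, ?_⟩
    have hfx : ∀ j, f (Pi.mulSingle j (Multiplicative.ofAdd 1)) = x j := by
      intro j
      rw [hf, Finset.prod_eq_single j]
      · rw [Pi.mulSingle_eq_same]
        show x j ^ (1 : ZMod ℓ).val = x j
        rw [ZMod.val_one, pow_one]
      · intro i _ hij
        rw [Pi.mulSingle_eq_of_ne hij, map_one]
      · intro h
        exact absurd (Finset.mem_univ j) h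
    have hle : Subgroup.closure (Set.range x) ≤ f.range := by
      rw [Subgroup.closure_le]
      rintro _ ⟨j, rfl⟩
      exact ⟨_, hfx j⟩
    intro r
    have h2 : r ∈ Subgroup.closure (Set.range x) := by rw [hx]; trivial
    exact hle h2
  · right
    obtain ⟨z, hzΦ, hz, hzc⟩ := E4c_central hR Φ hΦ
    have hzp : ∀ w ∈ Subgroup.zpowers z, ∀ r : R, w * r = r * w := by
      rintro _ ⟨k, rfl⟩ r
      exact ((Commute.zpow_left (show Commute z r from hzc r) k)).eq
    refine ⟨Subgroup.zpowers z, ⟨fun w hw r => ?_⟩, ?_, hzp, fun χ w hw => ?_⟩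
    · rw [← hzp w hw r, mul_inv_cancel_right]
      exact hw
    · rw [Nat.card_zpowers, hz]
    · have h1 : Subgroup.zpowers z ≤ Φ := by
        rw [Subgroup.zpowers_le]
        exact hzΦ
      exact (hmem w).1 (h1 hw) χ

end

end Pool.Agent.MP_1c8e06_ag.AK
end
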