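import Pool.Agent.Lib.MP_1c8e06_ag.Mg.G021
import Pool.Agent.Lib.MP_1c8e06_ag.AK.Defs

section

set_option autoImplicit false

open Polynomial

namespace Pool.Agent.MP_1c8e06_ag.AK

noncomputable section

/-!
# Task S2: extending a homomorphism from a normal subgroup with cyclic quotient

Proof.  (Pure group theory.)  Every `a : A` is `h * t ^ i` with `h ∈ N`, and `i < n` can be achieved (`t ^ n ∈ N`, normality:
`h * t ^ (i + n) = (h * (t ^ n)) * t ^ i`... note `t ^ n` commutes with `t`).  If `h * t ^ i = h' * t ^ j` with `i ≤ j < n` then `t ^ (j - i) ∈ N`,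
so `i = j` (`hmin`) and `h = h'`.  More generally, if `h * t ^ i = h' * t ^ j` with arbitrary `i ≤ j` then `n ∣ j - i` and
`h = h' * (t ^ n) ^ q`, hence `f h * τ ^ i = f h' * τ ^ j` (`h2`: `f (t ^ n) ^ q = τ ^ (n q)`).  Define `F a := f h * τ ^ i` for any such
representation (`Classical.choose`), well defined by the previous remark.  Multiplicativity:
`(h * t ^ i) * (h' * t ^ j) = (h * t ^ i h' t ^ (-i)) * t ^ (i + j)` and `f (t ^ i h' t ^ (-i)) = τ ^ i * f h' * τ ^ (-i)` by induction on `i` (`h1`).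
-/

private theorem S2_key {A B : Type} [Group A] [Group B] (N : Subgroup A) (t : A) (n : ℕ)
    (hn : 0 < n) (htn : t ^ n ∈ N) (hmin : ∀ i : ℕ, 0 < i → i < n → t ^ i ∉ N)
    (f : N →* B) (τ : B) (h2 : τ ^ n = f ⟨t ^ n, htn⟩) (i j : ℕ) (hij : i ≤ j) (h h' : N)
    (he : (h : A) * t ^ i = (h' : A) * t ^ j) : f h * τ ^ i = f h' * τ ^ j := by
  obtain ⟨k, rfl⟩ := Nat.exists_eq_add_of_le hij
  have hk : (h : A) = (h' : A) * t ^ k := by
    have : (h : A) * t ^ i = (h' : A) * t ^ k * t ^ i := by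
      rw [he, mul_assoc, ← pow_add, Nat.add_comm]
    exact mul_right_cancel this
  have hkN : t ^ k ∈ N := by
    have : t ^ k = (h' : A)⁻¹ * h := by rw [hk]; group
    rw [this]
    exact N.mul_mem (N.inv_mem h'.2) h.2
  have hr : k % n = 0 := by
    by_contra hne
    refine hmin (k % n) (Nat.pos_of_ne_zero hne) (Nat.mod_lt _ hn) ?_
    have h3 : t ^ (k % n) = ((t ^ n) ^ (k / n))⁻¹ * t ^ k := by
      have h4 : t ^ k = (t ^ n) ^ (k / n) * t ^ (k % n) := by
        rw [← pow_mul, ← pow_add, Nat.div_add_mod]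
      rw [h4]; group
    rw [h3]
    exact N.mul_mem (N.inv_mem (N.pow_mem htn _)) hkN
  obtain ⟨q, rfl⟩ := Nat.dvd_of_mod_eq_zero hr
  have hq : h = h' * (⟨t ^ n, htn⟩ : N) ^ q := by
    apply Subtype.ext
    rw [hk, Subgroup.coe_mul, Subgroup.coe_pow, pow_mul]
  rw [hq, map_mul, map_pow, ← h2, mul_assoc, ← pow_mul, ← pow_add, Nat.add_comm]

private theorem S2_conj {A B : Type} [Group A] [Group B] (N : Subgroup A) [hN : N.Normal] (t : A)
    (f : N →* B) (τ : B)
    (h1 : ∀ h h' : N, (h' : A) = t * h * t⁻¹ → τ * f h * τ⁻¹ = f h') (i : ℕ) :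
    ∀ h h' : N, (h' : A) = t ^ i * h * (t ^ i)⁻¹ → τ ^ i * f h * (τ ^ i)⁻¹ = f h' := by
  induction i with
  | zero =>
    intro h h' he
    have : h' = h := by
      apply Subtype.ext
      rw [he]; simp
    rw [this]; simp
  | succ i ih =>
    intro h h' he
    have h3 := ih h ⟨t ^ i * h * (t ^ i)⁻¹, hN.conj_mem _ h.2 _⟩ rfl
    have h4 := h1 ⟨t ^ i * h * (t ^ i)⁻¹, hN.conj_mem _ h.2 _⟩ h' (by
      rw [he, pow_succ']
      group)
    rw [← h4, ← h3, pow_succ']
    group

theorem ext_hom {A B : Type} [Group A] [Group B] (N : Subgroup A) [hN : N.Normal] (t : A) (n : ℕ)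
    (hn : 0 < n) (htn : t ^ n ∈ N) (hmin : ∀ i : ℕ, 0 < i → i < n → t ^ i ∉ N)
    (hgen : ∀ a : A, ∃ i : ℕ, ∃ h ∈ N, a = h * t ^ i) (f : N →* B) (τ : B)
    (h1 : ∀ h h' : N, (h' : A) = t * h * t⁻¹ → τ * f h * τ⁻¹ = f h')
    (h2 : τ ^ n = f ⟨t ^ n, htn⟩) : ∃ F : A →* B, (∀ h : N, F h = f h) ∧ F t = τ := by
  have key : ∀ (i j : ℕ) (h h' : N), (h : A) * t ^ i = (h' : A) * t ^ j →
      f h * τ ^ i = f h' * τ ^ j := by
    intro i j h h' he
    rcases le_total i j with hij | hij
    · exact S2_key N t n hn htn hmin f τ h2 i j hij h h' he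
    · exact (S2_key N t n hn htn hmin f τ h2 j i hij h' h he.symm).symm
  choose ι g hgN hg using hgen
  have hF : ∀ (a : A) (i : ℕ) (h : N), a = (h : A) * t ^ i →
      f ⟨g a, hgN a⟩ * τ ^ (ι a) = f h * τ ^ i := by
    intro a i h ha
    exact key _ _ _ _ (by rw [← ha]; exact (hg a).symm)
  have hone : f ⟨g 1, hgN 1⟩ * τ ^ (ι 1) = 1 := by
    rw [hF 1 0 1 (by simp)]; simp
  have hmul : ∀ a b : A, f ⟨g (a * b), hgN (a * b)⟩ * τ ^ (ι (a * b)) =
      (f ⟨g a, hgN a⟩ * τ ^ (ι a)) * (f ⟨g b, hgN b⟩ * τ ^ (ι b)) := by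
    intro a b
    have h3 := S2_conj N t f τ h1 (ι a) ⟨g b, hgN b⟩
      ⟨t ^ (ι a) * g b * (t ^ (ι a))⁻¹, hN.conj_mem _ (hgN b) _⟩ rfl
    rw [hF (a * b) (ι a + ι b) (⟨g a, hgN a⟩ *
      ⟨t ^ (ι a) * g b * (t ^ (ι a))⁻¹, hN.conj_mem _ (hgN b) _⟩) ?_]
    · rw [map_mul, ← h3, pow_add]
      group
    · show a * b = (g a * (t ^ (ι a) * g b * (t ^ (ι a))⁻¹)) * t ^ (ι a + ι b)
      conv_lhs => rw [hg a, hg b]
      rw [pow_add]
      group
  refine ⟨{ toFun := fun a => f ⟨g a, hgN a⟩ * τ ^ (ι a), map_one' := hone, map_mul' := hmul },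
    ?_, ?_⟩
  · intro h
    show f ⟨g h, hgN h⟩ * τ ^ (ι (h : A)) = f h
    rw [hF h 0 h (by simp)]; simp
  · show f ⟨g t, hgN t⟩ * τ ^ (ι t) = τ
    rw [hF t 1 1 (by simp)]; simp

end

end Pool.Agent.MP_1c8e06_ag.AK
end

section

set_option autoImplicit false

open Polynomial

namespace Pool.Agent.MP_1c8e06_ag.AK

noncomputable section

/-!
# Task S3a: subgroups of index `ℓ` in an `ℓ`-group

Proof.  Let `Z` be a normal subgroup of `H` (it is normal in `R`), `Z < H`.  Among the proper subgroups of `H` containing `Z` choose a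
maximal one `H'` (finite).  In the `ℓ`-group `H` a maximal subgroup is normal of index `ℓ`: its normaliser in `H` is bigger
(`IsPGroup`: normaliser condition, `Subgroup.NormalizerCondition`, `IsPGroup.isNilpotent`, or `card_quotient_normalizer_modEq_card_quotient`), hence all
of `H`; `H/H'` has no nontrivial proper subgroups and is an `ℓ`-group, so of order `ℓ` (Cauchy: an element of order `ℓ` in `H/H'` generates a
subgroup whose preimage is all of `H`).  (`H'` is maximal in `H`: a subgroup between `H'` and `H` contains `Z`.)  Useful: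
`IsCoatom`, `IsPGroup.exists_le_...`, `Sylow.exists_subgroup_card_pow_succ`, `Subgroup.normal_of_index_eq_minFac_card`.
For `t ∈ H`, `t ∉ H'`: the image of `t` generates `H/H'`, of order `ℓ`.
The second theorem: apply the first to `Z = ⊥`... it is the version going up: for a proper subgroup `H` of the `ℓ`-group `R`
there is `H⁺ > H` with `H` normal in `H⁺` of index `ℓ`: `Sylow.exists_subgroup_card_pow_succ`, index `ℓ` is normal
(`Subgroup.normal_of_index_eq_minFac_card`) or the normaliser condition and Cauchy in `N(H)/H`.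
-/

/-- `H'` is a normal subgroup of `H` of index `ℓ` and `t` generates `H` modulo `H'`. -/
structure Stp {R : Type} [Group R] (H' H : Subgroup R) (t : R) (ℓ : ℕ) : Prop where
  le : H' ≤ H
  idx : H'.relIndex H = ℓ
  norm : ∀ a ∈ H, ∀ h ∈ H', a * h * a⁻¹ ∈ H'
  mem : t ∈ H
  pow : t ^ ℓ ∈ H'
  min : ∀ i : ℕ, 0 < i → i < ℓ → t ^ i ∉ H'
  gen : ∀ a ∈ H, ∃ i : ℕ, ∃ h ∈ H', a = h * t ^ i

private theorem S3a_index {ℓ : ℕ} [hℓ : Fact ℓ.Prime] {G : Type} [Group G] [Finite G]
    (hG : IsPGroup ℓ G) (H : Subgroup G) (hne : H ≠ ⊤) :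
    ∃ K : Subgroup G, H ≤ K ∧ K.Normal ∧ K.index = ℓ := by
  obtain ⟨n, hn⟩ := IsPGroup.iff_card.1 hG
  obtain ⟨k, hk⟩ := IsPGroup.iff_card.1 (hG.to_subgroup H)
  have hkn : k < n := by
    have h1 : Nat.card H < Nat.card G := by
      refine lt_of_le_of_ne (Subgroup.card_le_card_group H) (fun h => hne ?_)
      exact Subgroup.eq_top_of_card_eq H h
    rw [hk, hn] at h1
    exact (Nat.pow_lt_pow_iff_right hℓ.out.one_lt).1 h1
  obtain ⟨m, rfl⟩ : ∃ m, n = m + 1 := ⟨n - 1, by omega⟩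
  obtain ⟨K, hK1, hK2⟩ := Sylow.exists_subgroup_card_pow_prime_le ℓ (n := k) (m := m)
    (by rw [hn]; exact pow_dvd_pow _ (Nat.le_succ m)) H hk (by omega)
  have hidx : K.index = ℓ := by
    have h2 := K.card_mul_index
    rw [hK1, hn, pow_succ] at h2
    exact Nat.eq_of_mul_eq_mul_left (pow_pos hℓ.out.pos m) h2
  refine ⟨K, hK2, ?_, hidx⟩
  refine Subgroup.normal_of_index_eq_minFac_card ?_
  rw [hidx, hn, hℓ.out.pow_minFac (Nat.succ_ne_zero m)]

private theorem S3a_stp {ℓ : ℕ} [hℓ : Fact ℓ.Prime] {R : Type} [Group R]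
    (H' H : Subgroup R) (hle : H' ≤ H) (hidx : H'.relIndex H = ℓ)
    (hnorm : ∀ a ∈ H, ∀ h ∈ H', a * h * a⁻¹ ∈ H') : ∃ t : R, Stp H' H t ℓ := by
  have hN : (H'.subgroupOf H).Normal := by
    refine ⟨fun n hn g => ?_⟩
    rw [Subgroup.mem_subgroupOf] at hn ⊢
    exact hnorm g g.2 n hn
  have hcard : Nat.card (H ⧸ H'.subgroupOf H) = ℓ := hidx
  have : Finite (H ⧸ H'.subgroupOf H) := Nat.finite_of_card_ne_zero (by
    rw [hcard]; exact hℓ.out.ne_zero)
  obtain ⟨q, hq⟩ : ∃ q : H ⧸ H'.subgroupOf H, q ≠ 1 := by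
    have : Nontrivial (H ⧸ H'.subgroupOf H) := Finite.one_lt_card_iff_nontrivial.1 (by
      rw [hcard]; exact hℓ.out.one_lt)
    exact exists_ne 1
  have hord : orderOf q = ℓ := by
    refine orderOf_eq_prime ?_ hq
    rw [← hcard]; exact pow_card_eq_one'
  obtain ⟨t, rfl⟩ := QuotientGroup.mk_surjective q
  have hpow : ∀ i : ℕ, ((t : R) ^ i ∈ H' ↔ ((t : H ⧸ H'.subgroupOf H)) ^ i = 1) := by
    intro i
    rw [← QuotientGroup.mk_pow, QuotientGroup.eq_one_iff, Subgroup.mem_subgroupOf]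
    simp
  refine ⟨t, hle, hidx, hnorm, t.2, ?_, ?_, ?_⟩
  · rw [hpow, ← hord]; exact pow_orderOf_eq_one _
  · intro i hi hil hmem
    rw [hpow] at hmem
    have := Nat.le_of_dvd hi (orderOf_dvd_of_pow_eq_one hmem)
    omega
  · intro a ha
    have hmem : ((⟨a, ha⟩ : H) : H ⧸ H'.subgroupOf H) ∈
        Subgroup.zpowers ((t : H ⧸ H'.subgroupOf H)) :=
      mem_zpowers_of_prime_card hcard hq
    rw [← mem_powers_iff_mem_zpowers] at hmem
    obtain ⟨i, hi⟩ := hmem
    refine ⟨i, a * ((t : R) ^ i)⁻¹, ?_, by group⟩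
    have h3 : ((⟨a, ha⟩ * (t ^ i)⁻¹ : H) : H ⧸ H'.subgroupOf H) = 1 := by
      rw [QuotientGroup.mk_mul, QuotientGroup.mk_inv, QuotientGroup.mk_pow]
      have hi' : (t : H ⧸ H'.subgroupOf H) ^ i = ((⟨a, ha⟩ : H) : H ⧸ H'.subgroupOf H) := hi
      rw [hi', mul_inv_cancel]
    rw [QuotientGroup.eq_one_iff, Subgroup.mem_subgroupOf] at h3
    simpa using h3

theorem exists_stp_down {ℓ : ℕ} [hℓ : Fact ℓ.Prime] {R : Type} [Group R] [Finite R]
    (hR : IsPGroup ℓ R) (Z H : Subgroup R) (hle : Z ≤ H) (hne : Z ≠ H)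
    (hZ : ∀ a ∈ H, ∀ z ∈ Z, a * z * a⁻¹ ∈ Z) :
    ∃ (H' : Subgroup R) (t : R), Z ≤ H' ∧ Stp H' H t ℓ := by
  obtain ⟨K, hK1, hK2, hK3⟩ := S3a_index (hR.to_subgroup H) (Z.subgroupOf H) (by
    intro h
    rw [Subgroup.subgroupOf_eq_top] at h
    exact hne (le_antisymm hle h))
  have hsub : (K.map H.subtype).subgroupOf H = K := by
    rw [Subgroup.subgroupOf, Subgroup.comap_map_eq_self_of_injective H.subtype_injective]
  obtain ⟨t, ht⟩ := S3a_stp (ℓ := ℓ) (K.map H.subtype) H (Subgroup.map_subtype_le K)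
    (by rw [Subgroup.relIndex, hsub, hK3]) (by
      rintro a ha _ ⟨h, hh, rfl⟩
      exact ⟨⟨a, ha⟩ * h * ⟨a, ha⟩⁻¹, hK2.conj_mem h hh ⟨a, ha⟩, rfl⟩)
  refine ⟨K.map H.subtype, t, ?_, ht⟩
  intro z hz
  exact ⟨⟨z, hle hz⟩, hK1 (by rw [Subgroup.mem_subgroupOf]; exact hz), rfl⟩

theorem exists_stp_up {ℓ : ℕ} [hℓ : Fact ℓ.Prime] {R : Type} [Group R] [Finite R]
    (hR : IsPGroup ℓ R) (H : Subgroup R) (hne : H ≠ ⊤) :
    ∃ (Hp : Subgroup R) (t : R), Stp H Hp t ℓ := by
  obtain ⟨n, hn⟩ := IsPGroup.iff_card.1 hR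
  obtain ⟨k, hk⟩ := IsPGroup.iff_card.1 (hR.to_subgroup H)
  have hkn : k < n := by
    have h1 : Nat.card H < Nat.card R := by
      refine lt_of_le_of_ne (Subgroup.card_le_card_group H) (fun h => hne ?_)
      exact Subgroup.eq_top_of_card_eq H h
    rw [hk, hn] at h1
    exact (Nat.pow_lt_pow_iff_right hℓ.out.one_lt).1 h1
  obtain ⟨K, hK1, hK2⟩ := Sylow.exists_subgroup_card_pow_succ (p := ℓ) (n := k) (H := H)
    (by rw [hn]; exact pow_dvd_pow _ hkn) hk
  have hidx : H.relIndex K = ℓ := by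
    have h2 := Subgroup.relIndex_mul_relIndex (⊥ : Subgroup R) H K bot_le hK2
    rw [Subgroup.relIndex_bot_left, Subgroup.relIndex_bot_left, hK1, hk, pow_succ] at h2
    exact Nat.eq_of_mul_eq_mul_left (pow_pos hℓ.out.pos k) h2
  have hnor : (H.subgroupOf K).Normal := by
    refine Subgroup.normal_of_index_eq_minFac_card ?_
    have : (H.subgroupOf K).index = ℓ := hidx
    rw [this, hK1, hℓ.out.pow_minFac (Nat.succ_ne_zero k)]
  obtain ⟨t, ht⟩ := S3a_stp H K hK2 hidx (by
    intro a ha h hh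
    have := hnor.conj_mem ⟨h, hK2 hh⟩ (by rw [Subgroup.mem_subgroupOf]; exact hh) ⟨a, ha⟩
    rw [Subgroup.mem_subgroupOf] at this
    exact this)
  exact ⟨K, t, ht⟩

theorem exists_stp_top {ℓ : ℕ} [hℓ : Fact ℓ.Prime] {R : Type} [Group R] [Finite R]
    (hR : IsPGroup ℓ R) (H : Subgroup R) (hne : H ≠ ⊤) :
    ∃ (H' : Subgroup R) (t : R), H ≤ H' ∧ Stp H' ⊤ t ℓ := by
  obtain ⟨K, hK1, hK2, hK3⟩ := S3a_index hR H hne
  obtain ⟨t, ht⟩ := S3a_stp (ℓ := ℓ) K ⊤ le_top (by rw [Subgroup.relIndex_top_right, hK3]) (by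
    intro a _ h hh
    exact hK2.conj_mem h hh a)
  exact ⟨K, t, hK1, ht⟩

end

end Pool.Agent.MP_1c8e06_ag.AK
end

section

set_option autoImplicit false

open Polynomial

namespace Pool.Agent.MP_1c8e06_ag.AK

noncomputable section

/-!
# Task T1a: the height of the ideal of the origin

Proof.  Induction via a chain of primes, or by dimension.  Chain: for `i ≤ n` let `J i` be the kernel of the
`k`-algebra homomorphism `MvPolynomial (Fin n) k → MvPolynomial (Fin n) k`, `X j ↦ 0` for `j < i`, `X j ↦ X j` otherwise;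
it is prime (the target is a domain), `J i ≤ J (i+1)` (factor the homomorphism), `X i ∈ J (i+1)`, `X i ∉ J i`, and `J n`
is the given ideal (it contains every `X j`, and `f - C (constantCoeff f) ∈ span (range X)`; `1 ∉ J n`).  A strictly
increasing chain of `n + 1` primes ending at `J n` shows `n ≤ height` (`Ideal.height_eq_primeHeight`,
`Ideal.primeHeight`, `Order.length_le_height`/`Order.le_height_...` applied to the `LTSeries (PrimeSpectrum _)`; look at
`Mathlib/RingTheory/Ideal/Height.lean`).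
-/

theorem le_height_origin (k : Type) [Field k] (n : ℕ) :
    (n : ℕ∞) ≤ (Ideal.span (Set.range (MvPolynomial.X : Fin n → MvPolynomial (Fin n) k))).height := by
  let φ : ℕ → (MvPolynomial (Fin n) k →ₐ[k] MvPolynomial (Fin n) k) := fun i =>
    MvPolynomial.aeval (fun j : Fin n => if (j : ℕ) < i then 0 else MvPolynomial.X j)
  have hφ : ∀ i j, φ i (MvPolynomial.X j) = if (j : ℕ) < i then 0 else MvPolynomial.X j := by
    intro i j
    exact MvPolynomial.aeval_X _ _
  have hpr : ∀ i, (RingHom.ker (φ i)).IsPrime := fun i => RingHom.ker_isPrime (φ i)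
  have hlt : ∀ i, i < n → RingHom.ker (φ i) < RingHom.ker (φ (i + 1)) := by
    intro i hi
    refine lt_of_le_of_ne ?_ ?_
    · intro f hf
      rw [RingHom.mem_ker] at hf ⊢
      have h1 : (φ (i + 1)).comp (φ i) = φ (i + 1) := by
        refine MvPolynomial.algHom_ext fun j => ?_
        rw [AlgHom.comp_apply, hφ i j, hφ (i + 1) j]
        by_cases hj : (j : ℕ) < i
        · rw [if_pos hj, map_zero, if_pos (Nat.lt_succ_of_lt hj)]
        · rw [if_neg hj, hφ]
      rw [← h1, AlgHom.comp_apply, hf, map_zero]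
    · intro heq
      have h1 : (MvPolynomial.X (⟨i, hi⟩ : Fin n) : MvPolynomial (Fin n) k) ∈
          RingHom.ker (φ (i + 1)) := by
        rw [RingHom.mem_ker, hφ, if_pos (Nat.lt_succ_self i)]
      rw [← heq, RingHom.mem_ker, hφ, if_neg (lt_irrefl i)] at h1
      exact MvPolynomial.X_ne_zero _ h1
  have hht : ∀ i, i ≤ n → (i : ℕ∞) ≤ (RingHom.ker (φ i)).height := by
    intro i
    induction i with
    | zero =>
      intro _
      exact bot_le
    | succ i ih =>
      intro hi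
      have := hpr i
      have := hpr (i + 1)
      have h1 := Ideal.height_add_one_le_of_lt_of_isPrime (hlt i hi)
      refine le_trans ?_ h1
      rw [Nat.cast_succ]
      exact add_le_add_left (ih (Nat.le_of_succ_le hi)) 1
  refine (hht n le_rfl).trans (Ideal.height_mono ?_)
  intro f hf
  rw [RingHom.mem_ker] at hf
  set I : Ideal (MvPolynomial (Fin n) k) :=
    Ideal.span (Set.range (MvPolynomial.X : Fin n → MvPolynomial (Fin n) k)) with hI
  have h1 : (Ideal.Quotient.mkₐ k I).comp (φ n) = Ideal.Quotient.mkₐ k I := by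
    refine MvPolynomial.algHom_ext fun j => ?_
    rw [AlgHom.comp_apply, hφ, if_pos j.2, map_zero]
    symm
    rw [Ideal.Quotient.mkₐ_eq_mk, Ideal.Quotient.eq_zero_iff_mem]
    exact Ideal.subset_span ⟨j, rfl⟩
  have h2 : Ideal.Quotient.mkₐ k I f = 0 := by
    rw [← h1, AlgHom.comp_apply, hf, map_zero]
  rwa [Ideal.Quotient.mkₐ_eq_mk, Ideal.Quotient.eq_zero_iff_mem] at h2

end

end Pool.Agent.MP_1c8e06_ag.AK
end

section

set_option autoImplicit false

open Polynomial

namespace Pool.Agent.MP_1c8e06_ag.AK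

noncomputable section

/-!
# Task T1: fewer equations than unknowns, without constant terms

Proof.  Let `I := Ideal.span (Set.range f)`.  Suppose `0` is the only common zero.  By the Nullstellensatz
(`MvPolynomial.vanishingIdeal_zeroLocus_eq_radical`) the radical of `I` is the vanishing ideal of `{0}` (the zero locus of
`I` contains `0` by `h0`), which is `𝔪 := span (range X)`: a polynomial vanishes at `0` iff its constant coefficient is `0` iff
it is in the ideal generated by the variables.  `𝔪` is maximal (kernel of the evaluation at `0`), hence prime, and every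
prime containing `I` contains `radical I = 𝔪`; so `𝔪 ∈ I.minimalPrimes`.  By
`Ideal.height_le_card_of_mem_minimalPrimes_span` (Krull's height theorem) `𝔪.height ≤ w`; with `le_height_origin` `n ≤ w`.
-/

private theorem T1_vanishing_origin (k : Type) [Field k] (n : ℕ) :
    MvPolynomial.vanishingIdeal k {(0 : Fin n → k)} =
      Ideal.span (Set.range (MvPolynomial.X : Fin n → MvPolynomial (Fin n) k)) := by
  ext q
  have h1 : Set.range (MvPolynomial.X : Fin n → MvPolynomial (Fin n) k) =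
      MvPolynomial.X '' (Set.univ : Set (Fin n)) := Set.image_univ.symm
  rw [h1, MvPolynomial.mem_ideal_span_X_image, MvPolynomial.mem_vanishingIdeal_iff]
  have h2 : (∀ x ∈ ({(0 : Fin n → k)} : Set (Fin n → k)), MvPolynomial.aeval x q = 0) ↔
      MvPolynomial.constantCoeff q = 0 := by
    simp only [Set.mem_singleton_iff, forall_eq]
    have h3 : MvPolynomial.aeval (0 : Fin n → k) q = MvPolynomial.constantCoeff q := by
      rw [MvPolynomial.aeval_zero]
      rfl
    rw [h3]
  rw [h2, MvPolynomial.constantCoeff_eq]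
  constructor
  · intro h m hm
    by_contra hcon
    push Not at hcon
    have hm0 : m = 0 := by
      ext i
      exact hcon i (Set.mem_univ i)
    rw [hm0, MvPolynomial.mem_support_iff] at hm
    exact hm h
  · intro h
    by_contra hne
    obtain ⟨i, -, hi⟩ := h 0 (MvPolynomial.mem_support_iff.mpr hne)
    exact hi rfl

theorem common_zero {k : Type} [Field k] [IsAlgClosed k] {n w : ℕ} (f : Fin w → MvPolynomial (Fin n) k)
    (h0 : ∀ i, MvPolynomial.constantCoeff (f i) = 0) (hw : w < n) :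
    ∃ v : Fin n → k, v ≠ 0 ∧ ∀ i, MvPolynomial.eval v (f i) = 0 := by
  by_contra hcon
  push Not at hcon
  set I : Ideal (MvPolynomial (Fin n) k) := Ideal.span (Set.range f) with hI
  have hz : MvPolynomial.zeroLocus k I = {(0 : Fin n → k)} := by
    ext v
    rw [MvPolynomial.mem_zeroLocus_iff, Set.mem_singleton_iff]
    constructor
    · intro h
      by_contra hv
      obtain ⟨i, hi⟩ := hcon v hv
      apply hi
      have h5 := h (f i) (Ideal.subset_span ⟨i, rfl⟩)
      exact h5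
    · rintro rfl p hp
      have hle : I ≤ RingHom.ker (MvPolynomial.constantCoeff (R := k) (σ := Fin n)) := by
        rw [hI, Ideal.span_le]
        rintro _ ⟨i, rfl⟩
        exact (RingHom.mem_ker).mpr (h0 i)
      have h3 : MvPolynomial.aeval (0 : Fin n → k) p = MvPolynomial.constantCoeff p := by
        rw [MvPolynomial.aeval_zero]
        rfl
      rw [h3]
      exact RingHom.mem_ker.mp (hle hp)
  have hrad : I.radical = Ideal.span (Set.range (MvPolynomial.X : Fin n → MvPolynomial (Fin n) k)) := by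
    rw [← MvPolynomial.vanishingIdeal_zeroLocus_eq_radical (K := k) I, hz, T1_vanishing_origin]
  have hmax : (Ideal.span (Set.range (MvPolynomial.X : Fin n → MvPolynomial (Fin n) k))).IsMaximal := by
    rw [← T1_vanishing_origin]
    infer_instance
  have hmin : Ideal.span (Set.range (MvPolynomial.X : Fin n → MvPolynomial (Fin n) k)) ∈ I.minimalPrimes := by
    refine ⟨⟨hmax.isPrime, ?_⟩, ?_⟩
    · rw [← hrad]
      exact Ideal.le_radical
    · rintro Q ⟨hQ, hIQ⟩ -
      rw [← hrad]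
      exact hQ.radical_le_iff.mpr hIQ
  have h1 := Ideal.height_le_card_of_mem_minimalPrimes_span (Set.finite_range f) hmin
  have h2 : (Set.range f).ncard ≤ w := by
    have := Set.ncard_image_le (f := f) (Set.finite_univ : (Set.univ : Set (Fin w)).Finite)
    rw [Set.image_univ, Set.ncard_univ, Nat.card_eq_fintype_card, Fintype.card_fin] at this
    exact this
  have h3 := le_height_origin k n
  have h4 : (n : ℕ∞) ≤ (w : ℕ∞) := h3.trans (h1.trans (by exact_mod_cast h2))
  have h5 : n ≤ w := by exact_mod_cast h4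
  omega

end

end Pool.Agent.MP_1c8e06_ag.AK
end
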