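import Pool.Agent.Lib.MP_1c8e06_ag.Mg.G021
import Pool.Agent.Lib.MP_1c8e06_ag.Mg.G025
import Pool.Agent.Lib.MP_1c8e06_ag.Mg.G023

section

set_option autoImplicit false

open Polynomial

namespace Pool.Agent.MP_1c8e06_ag.AK

noncomputable section

/-!
# Task E4a: quotients, isomorphisms, trivial group

Proofs.
* `real_quot`: let `M, ψ` be as in `Real k S R`, `N := f.ker`, `M' := Fx N` (a subfield of `M`).  `R` maps `M'` to itself (`N` is normal), and `N` acts trivially on it, so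
  `R'` acts: `r' • x := r • x` for any `r` with `f r = r'` (`Function.surjInv hf`; independent of the choice).  `ψ' : K → M'` the corestriction of `ψ`.  Invariants of `R'` in `M'`: elements fixed by `R`: `ψ(K)`.
  Faithful: if `r` acts trivially on `Fx N` then `r ∈ N` (Galois correspondence: `IsG.finrank_Fx` for `N` and for the subgroup `N ⊔ zpowers r`, whose invariants are
  the same; so the indices are equal, and `N = N ⊔ zpowers r`).  Good: restrict `ε` to `M'`.
* `real_iso`: transport along an isomorphism (a special case of `real_quot`).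
* `real_triv`: `M = RatFunc k`, `ψ = id`, trivial action (`MulSemiringAction` with `g • x = x`); `ε := psi b`.
-/

private theorem E4a_smul_mem {M R : Type} [Field M] [Group R] [MulSemiringAction R M] {N : Subgroup R}
    (hN : N.Normal) (r : R) {a : M} (ha : a ∈ (Fx N : Subfield M)) : r • a ∈ (Fx N : Subfield M) := by
  intro n hn
  have h1 : r⁻¹ * n * r ∈ N := by
    have := hN.conj_mem n hn r⁻¹
    rwa [inv_inv] at this
  have h2 := ha _ h1
  calc n • r • a = r • ((r⁻¹ * n * r) • a) := by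
        rw [smul_smul, smul_smul]
        congr 1
        group
    _ = r • a := by rw [h2]

private theorem E4a_congr {M R : Type} [Field M] [Group R] [MulSemiringAction R M] {N : Subgroup R}
    {r s : R} (h : s⁻¹ * r ∈ N) {a : M} (ha : a ∈ (Fx N : Subfield M)) : r • a = s • a := by
  have h2 := ha _ h
  calc r • a = s • ((s⁻¹ * r) • a) := by
        rw [smul_smul]
        congr 1
        group
    _ = s • a := by rw [h2]

/-- the action of the quotient -/
@[instance_reducible]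
private def E4a_act {M R R' : Type} [Field M] [Group R] [Group R'] [MulSemiringAction R M]
    (f : R →* R') (hf : Function.Surjective f) :
    MulSemiringAction R' (Fx f.ker : Subfield M) where
  smul r' a := ⟨Function.surjInv hf r' • a.1, E4a_smul_mem f.normal_ker _ a.2⟩
  one_smul a := by
    refine Subtype.ext ?_
    change Function.surjInv hf 1 • a.1 = a.1
    refine a.2 _ ?_
    rw [MonoidHom.mem_ker]
    exact Function.surjInv_eq hf 1
  mul_smul x y a := by
    refine Subtype.ext ?_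
    change Function.surjInv hf (x * y) • a.1 = Function.surjInv hf x • Function.surjInv hf y • a.1
    rw [smul_smul]
    refine E4a_congr (N := f.ker) ?_ a.2
    rw [MonoidHom.mem_ker, map_mul, map_inv, map_mul, Function.surjInv_eq hf x,
      Function.surjInv_eq hf y, Function.surjInv_eq hf (x * y), inv_mul_cancel]
  smul_zero x := Subtype.ext (smul_zero _)
  smul_add x a b := Subtype.ext (smul_add _ _ _)
  smul_one x := Subtype.ext (smul_one _)
  smul_mul x a b := Subtype.ext (smul_mul' _ _ _)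

theorem real_quot {k : Type} [Field k] {S : Set k} {R R' : Type} [Group R] [Finite R] [Group R']
    (f : R →* R') (hf : Function.Surjective f) (h : Real k S R) : Real k S R' := by
  obtain ⟨M, i1, i2, ψ, h1, h2⟩ := h
  let act : MulSemiringAction R' (Fx f.ker : Subfield M) := E4a_act f hf
  have hsm : ∀ (r' : R') (a : (Fx f.ker : Subfield M)),
      ((r' • a : (Fx f.ker : Subfield M)) : M) = Function.surjInv hf r' • (a : M) := fun _ _ => rfl
  have hψ : ∀ x, ψ x ∈ (Fx f.ker : Subfield M) := fun x r _ => h1.smul_ψ r x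
  let ψ' : RatFunc k →+* (Fx f.ker : Subfield M) := ψ.codRestrict _ hψ
  have hψ' : ∀ x, ((ψ' x : (Fx f.ker : Subfield M)) : M) = ψ x := fun _ => rfl
  refine ⟨(Fx f.ker : Subfield M), inferInstance, act, ψ', ⟨?_, ?_⟩, ?_⟩
  · intro r'
    constructor
    · intro hr
      rw [Subgroup.mem_bot]
      have hr2 : ∀ a ∈ (Fx f.ker : Subfield M), Function.surjInv hf r' • a = a := fun a ha =>
        congrArg Subtype.val (hr ⟨a, ha⟩)
      have hH : ∀ a : M, a ∈ (Fx (f.ker ⊔ Subgroup.zpowers (Function.surjInv hf r')) : Subfield M) ↔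
          a ∈ (Fx f.ker : Subfield M) := by
        intro a
        constructor
        · intro ha n hn
          exact ha n ((le_sup_left : f.ker ≤ _) hn)
        · intro ha
          have hle : f.ker ⊔ Subgroup.zpowers (Function.surjInv hf r') ≤
              MulAction.stabilizer R a := by
            refine sup_le (fun n hn => ?_) ?_
            · exact MulAction.mem_stabilizer_iff.2 (ha n hn)
            · rw [Subgroup.zpowers_le]
              exact MulAction.mem_stabilizer_iff.2 (hr2 a ha)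
          intro n hn
          exact MulAction.mem_stabilizer_iff.1 (hle hn)
      let : Algebra (RatFunc k) M := ψ.toAlgebra
      let F : Submodule (RatFunc k) M :=
        { carrier := {a | a ∈ (Fx f.ker : Subfield M)}
          add_mem' := fun ha hb => (Fx f.ker : Subfield M).add_mem ha hb
          zero_mem' := (Fx f.ker : Subfield M).zero_mem
          smul_mem' := fun c a ha => by
            rw [Algebra.smul_def]
            exact (Fx f.ker : Subfield M).mul_mem (hψ c) ha }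
      have e1 : Module.finrank (RatFunc k) F = f.ker.index :=
        h1.finrank_Fx f.ker bot_le rfl F fun _ => Iff.rfl
      have e2 : Module.finrank (RatFunc k) F =
          (f.ker ⊔ Subgroup.zpowers (Function.surjInv hf r')).index :=
        h1.finrank_Fx _ bot_le rfl F fun a => (hH a).symm
      have e3 : f.ker = f.ker ⊔ Subgroup.zpowers (Function.surjInv hf r') := by
        refine Subgroup.eq_of_le_of_card_ge le_sup_left ?_
        have c1 := f.ker.card_mul_index
        have c2 := (f.ker ⊔ Subgroup.zpowers (Function.surjInv hf r')).card_mul_index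
        have c3 : 0 < f.ker.index := Nat.pos_of_ne_zero Subgroup.index_ne_zero_of_finite
        rw [← e2, e1] at c2
        exact le_of_eq (Nat.eq_of_mul_eq_mul_right c3 (c2.trans c1.symm))
      have e4 : Function.surjInv hf r' ∈ f.ker := by
        rw [e3]
        exact (le_sup_right : Subgroup.zpowers _ ≤ _) (Subgroup.mem_zpowers _)
      rw [MonoidHom.mem_ker, Function.surjInv_eq hf r'] at e4
      exact e4
    · intro hr a
      rw [Subgroup.mem_bot] at hr
      rw [hr, one_smul]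
  · intro a
    constructor
    · intro ha
      have h3 : ∀ r : R, r • (a : M) = a := by
        intro r
        have h4 : Function.surjInv hf (f r) • (a : M) = a := congrArg Subtype.val (ha (f r))
        refine (E4a_congr (N := f.ker) (s := Function.surjInv hf (f r)) ?_ a.2).trans h4
        rw [MonoidHom.mem_ker, map_mul, map_inv, Function.surjInv_eq hf (f r), inv_mul_cancel]
      obtain ⟨x, hx⟩ := (h1.fix a).1 h3
      exact ⟨x, Subtype.ext hx⟩
    · rintro ⟨x, rfl⟩ r'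
      exact Subtype.ext (h1.smul_ψ _ x)
  · intro b hb
    obtain ⟨ε, hε⟩ := h2 b hb
    refine ⟨ε.comp (Fx f.ker : Subfield M).subtype, ?_⟩
    rw [← hε]
    rfl

theorem real_triv {k : Type} [Field k] (S : Set k) (R : Type) [Group R] [Subsingleton R] :
    Real k S R := by
  let act : MulSemiringAction R (RatFunc k) :=
    { smul := fun _ x => x
      one_smul := fun _ => rfl
      mul_smul := fun _ _ _ => rfl
      smul_zero := fun _ => rfl
      smul_add := fun _ _ _ => rfl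
      smul_one := fun _ => rfl
      smul_mul := fun _ _ _ => rfl }
  refine ⟨RatFunc k, inferInstance, act, RingHom.id _, ⟨?_, ?_⟩, ?_⟩
  · intro r
    exact ⟨fun _ => Subgroup.mem_bot.2 (Subsingleton.elim _ _), fun _ _ => rfl⟩
  · intro a
    exact ⟨fun _ => ⟨a, rfl⟩, fun _ _ => rfl⟩
  · intro b _
    exact ⟨psi b, RingHom.comp_id _⟩

theorem real_mono {k : Type} [Field k] {S S' : Set k} (hS : S ⊆ S') {R : Type} [Group R]
    (h : Real k S R) : Real k S' R := by
  obtain ⟨M, i1, i2, ψ, h1, h2⟩ := h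
  exact ⟨M, i1, i2, ψ, h1, fun b hb => h2 b fun hb' => hb (hS hb')⟩

end

end Pool.Agent.MP_1c8e06_ag.AK
end

section

set_option autoImplicit false

open Polynomial

namespace Pool.Agent.MP_1c8e06_ag.AK

noncomputable section

/-!
# Task L6: Kummer step

Let `hs : Stp H' H t ℓ`, `ζ ∈ M` a primitive `ℓ`-th root of unity fixed by `H`, `ℓ ≠ 0` in `M`, `M` with faithful action.
* `exists_eigen`: there is `z ≠ 0` in `Fx H'` with `t • z = ζ * z`.  Proof: for `x ∈ Fx H'` let `z x := ∑_{i<ℓ} ζ⁻¹ ^ i * t ^ i • x`: then `t • z = ζ z`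
  (`t ^ ℓ • x = x` as `t ^ ℓ ∈ H'`), `z ∈ Fx H'` (`t ^ i • x ∈ Fx H'` by `norm`).  If all `z x = 0`: the restrictions of `t ^ i • ·`, `i < ℓ`, to `Fx H'`
  are linearly dependent, so (`linearIndependent_monoidHom` for the homomorphisms `Fx H' → M`) two of them are equal:
  `t ^ i` (some `0 < i < ℓ`) acts trivially on `Fx H'`; but `t ^ i ∉ H'`: this contradicts Artin (`Fx` of `H'` and of the
  subgroup generated by `H'` and `t ^ i` are different: by `IsGaloisGroup`/`FixedPoints` Galois correspondence: the elements of `R`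
  acting trivially on `Fx H'` are those of `H'` when the action of `R` on `M` is faithful).
* `exists_rep`: every `x ∈ Fx H'` is `∑_{i<ℓ} b i * z ^ i` with `b i ∈ Fx H`: `x = ℓ⁻¹ ∑_j x_j`, where `x_j := ∑_i ζ⁻¹ ^ (i j) t ^ i • x` satisfies `t • x_j = ζ ^ j x_j`, so
  `x_j / z ^ j` is fixed by `t` and `H'`, so is in `Fx H`.
* `kummer_step`: `z ^ ℓ ∈ Fx H`; choose `w ∈ T` with `w ^ ℓ = η (z ^ ℓ)`.  Define `η' (∑ b i z ^ i) := ∑ η (b i) w ^ i`.  Well defined: the `b i` are
  unique (`1, z, …, z ^ (ℓ-1)` are linearly independent over `Fx H`: eigenvectors for `t` with different eigenvalues; or apply `t ^ j` and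
  Vandermonde).  Multiplicative because `z ^ ℓ ∈ Fx H` and `w ^ ℓ = η (z ^ ℓ)`.  Alternatively: the polynomial `X ^ ℓ - z ^ ℓ` is the
  minimal polynomial of `z` over `Fx H`, `Fx H' = (Fx H)(z)` and use `AdjoinRoot`/`IntermediateField.adjoin` lifts
  (`(Fx H)[X] → Fx H'`, `X ↦ z` is onto with kernel generated by `X ^ ℓ - C (z ^ ℓ)` [division with remainder and uniqueness]; factor
  `(Fx H)[X] → T`, `eval₂ η w`, through it: `Ideal.Quotient.lift`/`RingHom.liftOfSurjective`).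
-/

section
variable {M R : Type} [Field M] [Group R] [MulSemiringAction R M]

private theorem L6_conj {H' H : Subgroup R} {t : R} {ℓ : ℕ} (hs : Stp H' H t ℓ) {x : M}
    (hx : x ∈ (Fx H' : Subfield M)) (i : ℕ) {h : R} (hh : h ∈ H') :
    h • (t ^ i • x) = t ^ i • x := by
  have h1 : (t ^ i)⁻¹ * h * (t ^ i)⁻¹⁻¹ ∈ H' := hs.norm _ (H.inv_mem (H.pow_mem hs.mem i)) h hh
  have h2 := hx _ h1
  calc h • (t ^ i • x) = t ^ i • (((t ^ i)⁻¹ * h * (t ^ i)⁻¹⁻¹) • x) := by
        rw [smul_smul, smul_smul]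
        congr 1
        group
    _ = _ := by rw [h2]

/-- The sum `∑_i ζ⁻¹ ^ (i j) t ^ i • x`. -/
private def L6_E (ζ : M) (t : R) (ℓ j : ℕ) (x : M) : M :=
  ∑ i ∈ Finset.range ℓ, ζ⁻¹ ^ (i * j) * (t ^ i • x)

private theorem L6_E_mem {H' H : Subgroup R} {t : R} {ℓ : ℕ} (hs : Stp H' H t ℓ) {ζ : M}
    (hζH : ∀ h ∈ H, h • ζ = ζ) {x : M} (hx : x ∈ (Fx H' : Subfield M)) (j : ℕ) :
    L6_E ζ t ℓ j x ∈ (Fx H' : Subfield M) := by
  intro h hh
  unfold L6_E
  rw [Finset.smul_sum]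
  refine Finset.sum_congr rfl fun i _ => ?_
  rw [smul_mul', smul_pow', smul_inv'', hζH h (hs.le hh), L6_conj hs hx i hh]

private theorem L6_E_smul {H' H : Subgroup R} {t : R} {ℓ : ℕ} (hs : Stp H' H t ℓ) {ζ : M}
    (hζ : IsPrimitiveRoot ζ ℓ) (hℓ0 : ℓ ≠ 0) (hζH : ∀ h ∈ H, h • ζ = ζ) {x : M}
    (hx : x ∈ (Fx H' : Subfield M)) (j : ℕ) :
    t • L6_E ζ t ℓ j x = ζ ^ j * L6_E ζ t ℓ j x := by
  have hζ0 : ζ ≠ 0 := hζ.ne_zero hℓ0
  have h1 : t • L6_E ζ t ℓ j x =
      ζ ^ j * ∑ i ∈ Finset.range ℓ, ζ⁻¹ ^ ((i + 1) * j) * (t ^ (i + 1) • x) := by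
    unfold L6_E
    rw [Finset.smul_sum, Finset.mul_sum]
    refine Finset.sum_congr rfl fun i _ => ?_
    rw [smul_mul', smul_pow', smul_inv'', hζH t hs.mem, smul_smul, ← pow_succ', ← mul_assoc,
      add_mul, one_mul, pow_add ζ⁻¹, inv_pow ζ j]
    congr 1
    field_simp
  have h2 : ∑ i ∈ Finset.range ℓ, ζ⁻¹ ^ ((i + 1) * j) * (t ^ (i + 1) • x) = L6_E ζ t ℓ j x := by
    have h3 := Finset.sum_range_succ' (fun i => ζ⁻¹ ^ (i * j) * (t ^ i • x)) ℓ
    rw [Finset.sum_range_succ] at h3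
    have h4 : ζ⁻¹ ^ (ℓ * j) * (t ^ ℓ • x) = x := by
      rw [pow_mul, inv_pow, hζ.pow_eq_one, inv_one, one_pow, one_mul]
      exact hx _ hs.pow
    have h5 : ζ⁻¹ ^ (0 * j) * (t ^ 0 • x) = x := by
      rw [zero_mul, pow_zero, pow_zero, one_smul, one_mul]
    rw [h4, h5] at h3
    exact (add_right_cancel h3).symm
  rw [h1, h2]

private theorem L6_E_sum {t : R} {ℓ : ℕ} {ζ : M} (hζ : IsPrimitiveRoot ζ ℓ) (hℓ0 : ℓ ≠ 0) {x : M} :
    ∑ j ∈ Finset.range ℓ, L6_E ζ t ℓ j x = ℓ * x := by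
  unfold L6_E
  rw [Finset.sum_comm]
  have h1 : ∀ i ∈ Finset.range ℓ, ∑ j ∈ Finset.range ℓ, ζ⁻¹ ^ (i * j) * (t ^ i • x) =
      if i = 0 then (ℓ : M) * x else 0 := by
    intro i hi
    rw [← Finset.sum_mul]
    split_ifs with h
    · subst h
      simp
    · have h2 : ζ⁻¹ ^ i ≠ 1 := hζ.inv.pow_ne_one_of_pos_of_lt h (Finset.mem_range.1 hi)
      have h3 : (∑ j ∈ Finset.range ℓ, (ζ⁻¹ ^ i) ^ j) * (ζ⁻¹ ^ i - 1) = 0 := by
        rw [geom_sum_mul, ← pow_mul, mul_comm i ℓ, pow_mul, hζ.inv.pow_eq_one, one_pow, sub_self]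
      have h4 : ∑ j ∈ Finset.range ℓ, (ζ⁻¹ ^ i) ^ j = 0 :=
        (mul_eq_zero.1 h3).resolve_right (sub_ne_zero.2 h2)
      have h5 : ∑ j ∈ Finset.range ℓ, ζ⁻¹ ^ (i * j) = 0 := by
        rw [← h4]
        exact Finset.sum_congr rfl fun j _ => by rw [pow_mul]
      rw [h5, zero_mul]
  rw [Finset.sum_congr rfl h1, Finset.sum_ite_eq']
  rw [if_pos (Finset.mem_range.2 (Nat.pos_of_ne_zero hℓ0))]

private theorem L6_mem_H {H' H : Subgroup R} {t : R} {ℓ : ℕ} (hs : Stp H' H t ℓ) {y : M}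
    (hy : y ∈ (Fx H' : Subfield M)) (ht : t • y = y) : y ∈ (Fx H : Subfield M) := by
  intro a ha
  obtain ⟨i, h, hh, rfl⟩ := hs.gen a ha
  have h1 : ∀ i : ℕ, t ^ i • y = y := by
    intro i
    induction i with
    | zero => rw [pow_zero, one_smul]
    | succ n ih => rw [pow_succ, mul_smul, ht, ih]
  rw [mul_smul, h1, hy h hh]

/-- Galois correspondence: an element acting trivially on the invariants of `H'` is in `H'`. -/
private theorem L6_galois [Finite R] (hfaith : ∀ r : R, (∀ a : M, r • a = a) → r = 1)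
    (H' : Subgroup R) (r : R) (hr : ∀ x ∈ (Fx H' : Subfield M), r • x = x) : r ∈ H' := by
  have hF : FaithfulSMul H' M := ⟨by
    intro g₁ g₂ h
    have h1 : ((g₂ : R)⁻¹ * g₁) = 1 := by
      apply hfaith
      intro a
      have h2 : (g₁ : R) • a = (g₂ : R) • a := h a
      rw [mul_smul, h2, inv_smul_smul]
    have h3 : (g₁ : R) = g₂ := (inv_mul_eq_one.1 h1).symm
    exact Subtype.ext h3⟩
  let f : M →ₐ[FixedPoints.subfield H' M] M :=
    { MulSemiringAction.toRingHom R M r with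
      commutes' := by
        intro x
        have hx : (x : M) ∈ (Fx H' : Subfield M) := fun h hh => x.2 ⟨h, hh⟩
        exact hr _ hx }
  obtain ⟨h, hh⟩ := (FixedPoints.toAlgHom_bijective H' M).2 f
  have h1 : ∀ a : M, (h : R) • a = r • a := fun a => DFunLike.congr_fun hh a
  have h2 : (r⁻¹ * (h : R)) = 1 := by
    apply hfaith
    intro a
    rw [mul_smul, h1, inv_smul_smul]
  have h3 : r = h := inv_mul_eq_one.1 h2
  rw [h3]
  exact h.2

end

theorem exists_eigen {M R : Type} [Field M] [Group R] [Finite R] [MulSemiringAction R M]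
    (hfaith : ∀ r : R, (∀ a : M, r • a = a) → r = 1) {H' H : Subgroup R} {t : R} {ℓ : ℕ}
    [hℓ : Fact ℓ.Prime] (hs : Stp H' H t ℓ) (hℓM : (ℓ : M) ≠ 0) (ζ : M)
    (hζ : IsPrimitiveRoot ζ ℓ) (hζH : ∀ h ∈ H, h • ζ = ζ) :
    ∃ z : M, z ≠ 0 ∧ z ∈ (Fx H' : Subfield M) ∧ t • z = ζ * z := by
  have hℓ0 : ℓ ≠ 0 := hℓ.out.ne_zero
  by_cases hz : ∃ x ∈ (Fx H' : Subfield M), L6_E ζ t ℓ 1 x ≠ 0
  · obtain ⟨x, hx, hx0⟩ := hz
    refine ⟨_, hx0, L6_E_mem hs hζH hx 1, ?_⟩
    rw [L6_E_smul hs hζ hℓ0 hζH hx 1, pow_one]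
  · exfalso
    push Not at hz
    let σ : Fin ℓ → ((Fx H' : Subfield M) →* M) := fun i =>
      ((MulSemiringAction.toRingHom R M (t ^ (i : ℕ))).comp (Fx H' : Subfield M).subtype : _ →+* M)
    have hσ : ∀ i x, σ i x = t ^ (i : ℕ) • (x : M) := fun i x => rfl
    have hinj : Function.Injective σ := by
      have key : ∀ i j : Fin ℓ, (i : ℕ) < j → σ i ≠ σ j := by
        intro i j hij heq
        have h1 : ∀ x ∈ (Fx H' : Subfield M), t ^ ((j : ℕ) - i) • x = x := by
          intro x hx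
          have h2 := DFunLike.congr_fun heq ⟨x, hx⟩
          rw [hσ, hσ] at h2
          have h3 : t ^ (j : ℕ) = t ^ (i : ℕ) * t ^ ((j : ℕ) - i) := by
            rw [← pow_add]
            congr 1
            omega
          rw [h3, mul_smul] at h2
          exact (smul_left_cancel _ h2).symm
        exact hs.min _ (by omega) (by have := j.2; omega) (L6_galois hfaith H' _ h1)
      intro i j h
      rcases lt_trichotomy (i : ℕ) j with h1 | h1 | h1
      · exact absurd h (key i j h1)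
      · exact Fin.ext h1
      · exact absurd h.symm (key j i h1)
    have hli := (linearIndependent_monoidHom (Fx H' : Subfield M) M).comp σ hinj
    rw [Fintype.linearIndependent_iff] at hli
    have h0 := hli (fun i => ζ⁻¹ ^ (i : ℕ)) (by
      funext x
      have h1 := hz x x.2
      unfold L6_E at h1
      rw [Finset.sum_apply]
      rw [← Fin.sum_univ_eq_sum_range (fun i => ζ⁻¹ ^ (i * 1) * (t ^ i • (x : M)))] at h1
      refine Eq.trans (Finset.sum_congr rfl fun i _ => ?_) h1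
      rw [mul_one]
      rfl) ⟨0, Nat.pos_of_ne_zero hℓ0⟩
    rw [pow_zero] at h0
    exact one_ne_zero h0

theorem exists_rep {M R : Type} [Field M] [Group R] [Finite R] [MulSemiringAction R M]
    {H' H : Subgroup R} {t : R} {ℓ : ℕ} [hℓ : Fact ℓ.Prime] (hs : Stp H' H t ℓ)
    (hℓM : (ℓ : M) ≠ 0) (ζ : M) (hζ : IsPrimitiveRoot ζ ℓ) (hζH : ∀ h ∈ H, h • ζ = ζ) (z : M)
    (hz : z ≠ 0) (hz' : z ∈ (Fx H' : Subfield M)) (ht : t • z = ζ * z) (x : M)
    (hx : x ∈ (Fx H' : Subfield M)) :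
    ∃ b : Fin ℓ → M, (∀ i, b i ∈ (Fx H : Subfield M)) ∧ x = ∑ i, b i * z ^ (i : ℕ) := by
  have hℓ0 : ℓ ≠ 0 := hℓ.out.ne_zero
  have hζ0 : ζ ≠ 0 := hζ.ne_zero hℓ0
  refine ⟨fun i => (ℓ : M)⁻¹ * L6_E ζ t ℓ i x / z ^ (i : ℕ), fun i => ?_, ?_⟩
  · apply L6_mem_H hs
    · exact div_mem (mul_mem (inv_mem (natCast_mem _ ℓ)) (L6_E_mem hs hζH hx i)) (pow_mem hz' _)
    · have h1 : t • (ℓ : M) = ℓ := map_natCast (MulSemiringAction.toRingHom R M t) ℓ
      change t • ((ℓ : M)⁻¹ * L6_E ζ t ℓ i x / z ^ (i : ℕ)) = (ℓ : M)⁻¹ * L6_E ζ t ℓ i x / z ^ (i : ℕ)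
      rw [div_eq_mul_inv, smul_mul', smul_mul', smul_inv'', smul_inv'', h1, smul_pow', ht,
        L6_E_smul hs hζ hℓ0 hζH hx i, mul_pow]
      field_simp
  · have h1 : ∀ i : Fin ℓ, (ℓ : M)⁻¹ * L6_E ζ t ℓ i x / z ^ (i : ℕ) * z ^ (i : ℕ) =
        (ℓ : M)⁻¹ * L6_E ζ t ℓ i x := fun i => div_mul_cancel₀ _ (pow_ne_zero _ hz)
    rw [Finset.sum_congr rfl fun i _ => h1 i, ← Finset.mul_sum,
      Fin.sum_univ_eq_sum_range (fun i => L6_E ζ t ℓ i x), L6_E_sum hζ hℓ0,
      inv_mul_cancel_left₀ hℓM]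

/-- `1, z, …, z ^ (ℓ - 1)` are linearly independent over the invariants of `H`. -/
private theorem L6_indep {M R : Type} [Field M] [Group R] [MulSemiringAction R M]
    {H' H : Subgroup R} {t : R} {ℓ : ℕ} (hs : Stp H' H t ℓ) (ζ : M)
    (hζ : IsPrimitiveRoot ζ ℓ) (hζH : ∀ h ∈ H, h • ζ = ζ) (z : M) (hz : z ≠ 0)
    (ht : t • z = ζ * z) (f : (Fx H : Subfield M)[X]) (hf : f.natDegree < ℓ)
    (h0 : f.eval₂ (Fx H : Subfield M).subtype z = 0) : f = 0 := by
  have h1 : ∀ i : ℕ, f.eval₂ (Fx H : Subfield M).subtype (ζ ^ i * z) = 0 := by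
    intro i
    induction i with
    | zero => rw [pow_zero, one_mul]; exact h0
    | succ n ih =>
      have h2 := Polynomial.hom_eval₂ f (Fx H : Subfield M).subtype
        (MulSemiringAction.toRingHom R M t) (ζ ^ n * z)
      rw [ih, map_zero] at h2
      have h3 : (MulSemiringAction.toRingHom R M t).comp (Fx H : Subfield M).subtype =
          (Fx H : Subfield M).subtype := by
        ext y
        exact y.2 t hs.mem
      have h4 : MulSemiringAction.toRingHom R M t (ζ ^ n * z) = ζ ^ (n + 1) * z := by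
        change t • (ζ ^ n * z) = _
        rw [smul_mul', smul_pow', hζH t hs.mem, ht, pow_succ, mul_assoc]
      rw [h3, h4] at h2
      exact h2.symm
  have h5 : f.map (Fx H : Subfield M).subtype = 0 := by
    refine Polynomial.eq_zero_of_natDegree_lt_card_of_eval_eq_zero _
      (f := fun i : Fin ℓ => ζ ^ (i : ℕ) * z) ?_ ?_ ?_
    · intro i j hij
      have h6 : ζ ^ (i : ℕ) = ζ ^ (j : ℕ) := mul_right_cancel₀ hz hij
      exact Fin.ext (hζ.pow_inj i.2 j.2 h6)
    · intro i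
      rw [Polynomial.eval_map]
      exact h1 i
    · rw [Fintype.card_fin]
      exact (Polynomial.natDegree_map_le).trans_lt hf
  exact (Polynomial.map_eq_zero _).1 h5

theorem kummer_step {M R T : Type} [Field M] [Group R] [Finite R] [MulSemiringAction R M] [Field T]
    (hfaith : ∀ r : R, (∀ a : M, r • a = a) → r = 1) {H' H : Subgroup R} {t : R} {ℓ : ℕ}
    [hℓ : Fact ℓ.Prime] (hs : Stp H' H t ℓ) (hℓM : (ℓ : M) ≠ 0) (ζ : M)
    (hζ : IsPrimitiveRoot ζ ℓ) (hζH : ∀ h ∈ H, h • ζ = ζ) (η : (Fx H : Subfield M) →+* T)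
    (hη : ∀ β, ∃ w : T, w ^ ℓ = η β) :
    ∃ η' : (Fx H' : Subfield M) →+* T, ∀ (b : M) (hb : b ∈ (Fx H : Subfield M))
      (hb' : b ∈ (Fx H' : Subfield M)), η' ⟨b, hb'⟩ = η ⟨b, hb⟩ := by
  have hℓ0 : ℓ ≠ 0 := hℓ.out.ne_zero
  obtain ⟨z, hz, hz', ht⟩ := exists_eigen hfaith hs hℓM ζ hζ hζH
  have hle : (Fx H : Subfield M) ≤ Fx H' := fun a ha h hh => ha h (hs.le hh)
  have hc : z ^ ℓ ∈ (Fx H : Subfield M) := by
    apply L6_mem_H hs (pow_mem hz' _)
    rw [smul_pow', ht, mul_pow, hζ.pow_eq_one, one_mul]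
  obtain ⟨w, hw⟩ := hη ⟨z ^ ℓ, hc⟩
  let inc : (Fx H : Subfield M) →+* (Fx H' : Subfield M) := Subfield.inclusion hle
  let Φ : (Fx H : Subfield M)[X] →+* (Fx H' : Subfield M) := Polynomial.eval₂RingHom inc ⟨z, hz'⟩
  let Ψ : (Fx H : Subfield M)[X] →+* T := Polynomial.eval₂RingHom η w
  have hΦv : ∀ f, ((Φ f : (Fx H' : Subfield M)) : M) = f.eval₂ (Fx H : Subfield M).subtype z := by
    intro f
    have h1 := Polynomial.hom_eval₂ f inc (Fx H' : Subfield M).subtype ⟨z, hz'⟩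
    exact h1
  have hsurj : Function.Surjective Φ := by
    rintro ⟨x, hx⟩
    obtain ⟨b, hb, hx'⟩ := exists_rep hs hℓM ζ hζ hζH z hz hz' ht x hx
    refine ⟨∑ i : Fin ℓ, C ⟨b i, hb i⟩ * X ^ (i : ℕ), ?_⟩
    apply Subtype.ext
    rw [hΦv, Polynomial.eval₂_finsetSum]
    change _ = x
    rw [hx']
    refine Finset.sum_congr rfl fun i _ => ?_
    rw [Polynomial.eval₂_mul, Polynomial.eval₂_C, Polynomial.eval₂_pow, Polynomial.eval₂_X]
    rfl
  have hker : RingHom.ker Φ ≤ RingHom.ker Ψ := by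
    intro f hf
    rw [RingHom.mem_ker] at hf ⊢
    have hq : (X ^ ℓ - C (⟨z ^ ℓ, hc⟩ : (Fx H : Subfield M))).Monic :=
      Polynomial.monic_X_pow_sub_C _ hℓ0
    have h1 := Polynomial.modByMonic_add_div f (X ^ ℓ - C (⟨z ^ ℓ, hc⟩ : (Fx H : Subfield M)))
    have hΦq : Φ (X ^ ℓ - C (⟨z ^ ℓ, hc⟩ : (Fx H : Subfield M))) = 0 := by
      apply Subtype.ext
      rw [hΦv, Polynomial.eval₂_sub, Polynomial.eval₂_C, Polynomial.eval₂_pow, Polynomial.eval₂_X]
      exact sub_self _
    have hΨq : Ψ (X ^ ℓ - C (⟨z ^ ℓ, hc⟩ : (Fx H : Subfield M))) = 0 := by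
      change Polynomial.eval₂ η w _ = 0
      rw [Polynomial.eval₂_sub, Polynomial.eval₂_C, Polynomial.eval₂_pow, Polynomial.eval₂_X, hw,
        sub_self]
    have h2 : Φ (f %ₘ (X ^ ℓ - C (⟨z ^ ℓ, hc⟩ : (Fx H : Subfield M)))) = 0 := by
      have h3 := congrArg Φ h1
      rw [map_add, map_mul, hΦq, zero_mul, add_zero, hf] at h3
      exact h3
    have h4 : f %ₘ (X ^ ℓ - C (⟨z ^ ℓ, hc⟩ : (Fx H : Subfield M))) = 0 := by
      refine L6_indep hs ζ hζ hζH z hz ht _ ?_ ?_
      · have h5 := Polynomial.natDegree_modByMonic_lt f hq (by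
          intro h6
          have h7 := congrArg Polynomial.natDegree h6
          rw [Polynomial.natDegree_X_pow_sub_C, Polynomial.natDegree_one] at h7
          exact hℓ0 h7)
        rwa [Polynomial.natDegree_X_pow_sub_C] at h5
      · rw [← hΦv, h2]
        rfl
    have h8 := congrArg Ψ h1
    rw [h4, zero_add, map_mul, hΨq, zero_mul] at h8
    exact h8.symm
  refine ⟨(Φ.liftOfSurjective hsurj) ⟨Ψ, hker⟩, ?_⟩
  intro b hb hb'
  have h1 : Φ (C ⟨b, hb⟩) = ⟨b, hb'⟩ := by
    apply Subtype.ext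
    rw [hΦv, Polynomial.eval₂_C]
    rfl
  rw [← h1, RingHom.liftOfSurjective_comp_apply]
  exact Polynomial.eval₂_C _ _

end

end Pool.Agent.MP_1c8e06_ag.AK
end

section

set_option autoImplicit false

open Polynomial

namespace Pool.Agent.MP_1c8e06_ag.AK

noncomputable section

/-!
# Task L7: Lemma T (tame embeddings); inertia generators

Proof of `lemmaT`.  Claim: for every subgroup `H` of `R` there is `ε : Fx H → k((t))` with `ε ⟨ψ x, _⟩ = phi k H.index (ψ₀ x)`.  Induction on `H.index` (strong; or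
descending induction on `H`).  `H = ⊤`: `Fx ⊤ = ψ(K)` (`h.fix`), `ψ` injective, index `1`, `phi k 1 = id` (`phi_coeff_mul`).  `H ≠ ⊤`: `exists_stp_up`: `Hp, t`, `Stp H Hp t ℓ`,
`H.index = ℓ * Hp.index` (`Subgroup.relIndex_mul_index`), `ε_p` for `Hp`.  `η := (phi k ℓ).comp ε_p`: every value has order divisible by `ℓ` (`order_phi`), so is an `ℓ`-th power
(`exists_root_L`, `(ℓ : k) ≠ 0`).  `kummer_step` with `ζ := ψ (C ζ₀)`, `ζ₀ ∈ k` a primitive `ℓ`-th root of unity (`HasEnoughRootsOfUnity`/`IsAlgClosed`, `(ℓ : k) ≠ 0`: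
`IsSepClosed.hasEnoughRootsOfUnity`/`exists_primitiveRoot`).  `phi k ℓ (phi k m f) = phi k (ℓ * m) f` (`phi_coeff`; prove as a lemma `phi_phi`).
At `H = ⊥`: `Fx ⊥ = M`.
Proof of `exists_inertia`: the homomorphisms `(rot ζ).comp ε` and `ε` agree on `ψ(K)`: `rot ζ (phi k e f) = phi k e f` when `ζ ^ e = 1` (`rot_phi`: coefficients); `exists_smul`.
`dvd_order_of_rot`: if `ζ` has order exactly `e` and `rot ζ f = f`, `f ≠ 0`: at `n = f.order`: `ζ ^ n = 1`, so `e ∣ n`.
-/

theorem phi_phi {k : Type} [Field k] {m n : ℕ} (hm : 0 < m) (hn : 0 < n) (f : LaurentSeries k) :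
    phi k m (phi k n f) = phi k (m * n) f := by
  ext i
  rw [phi_coeff hm, phi_coeff (Nat.mul_pos hm hn)]
  have hm0 : (m : ℤ) ≠ 0 := by exact_mod_cast hm.ne'
  by_cases h1 : (m : ℤ) ∣ i
  · rw [if_pos h1, phi_coeff hn]
    obtain ⟨j, rfl⟩ := h1
    rw [Int.mul_ediv_cancel_left _ hm0]
    by_cases h2 : (n : ℤ) ∣ j
    · rw [if_pos h2, if_pos]
      · obtain ⟨l, rfl⟩ := h2
        have hn0 : (n : ℤ) ≠ 0 := by exact_mod_cast hn.ne'
        rw [Int.mul_ediv_cancel_left _ hn0, ← mul_assoc, Nat.cast_mul,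
          Int.mul_ediv_cancel_left _ (mul_ne_zero hm0 hn0)]
      · rw [Nat.cast_mul]
        exact mul_dvd_mul_left _ h2
    · rw [if_neg h2, if_neg]
      intro h3
      rw [Nat.cast_mul] at h3
      exact h2 ((mul_dvd_mul_iff_left hm0).1 h3)
  · rw [if_neg h1, if_neg]
    intro h3
    rw [Nat.cast_mul] at h3
    exact h1 (dvd_trans (Dvd.intro _ rfl) h3)

theorem rot_phi {k : Type} [Field k] {e : ℕ} (he : 0 < e) (ζ : kˣ) (hζ : ζ ^ e = 1)
    (f : LaurentSeries k) : rot ζ (phi k e f) = phi k e f := by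
  ext i
  rw [rot_coeff]
  by_cases h1 : (e : ℤ) ∣ i
  · obtain ⟨j, rfl⟩ := h1
    rw [zpow_mul, zpow_natCast, hζ, one_zpow, Units.val_one, one_mul]
  · rw [phi_coeff_of_not_dvd he f h1, mul_zero]

theorem dvd_order_of_rot {k : Type} [Field k] {e : ℕ} (ζ : kˣ) (hζ : IsPrimitiveRoot ζ e)
    (f : LaurentSeries k) (hf : rot ζ f = f) : (e : ℤ) ∣ f.order := by
  by_cases h0 : f = 0
  · rw [h0, HahnSeries.order_zero]
    exact dvd_zero _
  · have h1 : f.coeff f.order ≠ 0 := HahnSeries.coeff_order_eq_zero.not.2 h0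
    have h2 : ((ζ ^ f.order : kˣ) : k) * f.coeff f.order = f.coeff f.order := by
      rw [← rot_coeff, hf]
    have h3 : ((ζ ^ f.order : kˣ) : k) = 1 := by
      have := mul_right_cancel₀ h1 (h2.trans (one_mul _).symm)
      exact this
    have h4 : ζ ^ f.order = 1 := Units.ext (by rw [h3, Units.val_one])
    exact (hζ.zpow_eq_one_iff_dvd _).1 h4

private theorem L7_phi_one {k : Type} [Field k] (f : LaurentSeries k) : phi k 1 f = f := by
  ext i
  rw [phi_coeff one_pos, if_pos (by simp)]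
  simp

private theorem L7_aux {k M R : Type} [Field k] [IsAlgClosed k] [Field M] [Group R] [Finite R]
    [MulSemiringAction R M] {ψ : RatFunc k →+* M} (h : IsG ψ R ⊥) {ℓ : ℕ} [hℓ : Fact ℓ.Prime]
    (hℓk : (ℓ : k) ≠ 0) (hR : IsPGroup ℓ R) (ψ₀ : RatFunc k →+* LaurentSeries k) (n : ℕ) :
    ∀ H : Subgroup R, H.index = n → ∃ ε : (Fx H : Subfield M) →+* LaurentSeries k,
      ∀ (x : RatFunc k) (hx : ψ x ∈ (Fx H : Subfield M)), ε ⟨ψ x, hx⟩ = phi k n (ψ₀ x) := by
  induction n using Nat.strong_induction_on with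
  | _ n ih =>
  intro H hH
  by_cases htop : H = ⊤
  · subst htop
    have hn : n = 1 := by rw [← hH, Subgroup.index_top]
    subst hn
    have hmem : ∀ x, ψ x ∈ (Fx (⊤ : Subgroup R) : Subfield M) := fun x r _ => h.smul_ψ r x
    have hbij : Function.Bijective (ψ.codRestrict (Fx (⊤ : Subgroup R) : Subfield M) hmem) := by
      constructor
      · exact RingHom.injective _
      · rintro ⟨a, ha⟩
        obtain ⟨x, hx⟩ := (h.fix a).1 (fun r => ha r (Subgroup.mem_top r))
        exact ⟨x, Subtype.ext hx⟩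
    refine ⟨ψ₀.comp (RingEquiv.ofBijective _ hbij).symm.toRingHom, fun x hx => ?_⟩
    rw [L7_phi_one]
    have h1 : (RingEquiv.ofBijective _ hbij).symm ⟨ψ x, hx⟩ = x := by
      rw [RingEquiv.symm_apply_eq]
      rfl
    show ψ₀ ((RingEquiv.ofBijective _ hbij).symm ⟨ψ x, hx⟩) = ψ₀ x
    rw [h1]
  · obtain ⟨Hp, t, hs⟩ := exists_stp_up hR H htop
    have hmul : ℓ * Hp.index = n := by
      rw [← hH, ← Subgroup.relIndex_mul_index hs.le, hs.idx]
    have hpos : 0 < Hp.index := Nat.pos_of_ne_zero Subgroup.index_ne_zero_of_finite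
    have hlt : Hp.index < n := by
      rw [← hmul]
      exact lt_mul_of_one_lt_left hpos hℓ.out.one_lt
    obtain ⟨ε, hε⟩ := ih Hp.index hlt Hp rfl
    have hℓM : (ℓ : M) ≠ 0 := by
      have := (map_ne_zero (ψ.comp RatFunc.C)).2 hℓk
      simpa using this
    have : NeZero (ℓ : k) := ⟨hℓk⟩
    obtain ⟨ζ₀, hζ₀⟩ := HasEnoughRootsOfUnity.exists_primitiveRoot k ℓ
    have hζ : IsPrimitiveRoot (ψ (RatFunc.C ζ₀)) ℓ :=
      hζ₀.map_of_injective (f := ψ.comp RatFunc.C) (RingHom.injective _)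
    have hη : ∀ β, ∃ w : LaurentSeries k, w ^ ℓ = ((phi k ℓ).comp ε) β := by
      intro β
      exact exists_root_L hℓk _ (by
        rw [RingHom.comp_apply, order_phi hℓ.out.pos]
        exact Dvd.intro _ rfl)
    obtain ⟨η', hη'⟩ := kummer_step
      (fun r hr => Subgroup.mem_bot.1 ((h.ker r).1 hr)) hs hℓM (ψ (RatFunc.C ζ₀)) hζ
      (fun r _ => h.smul_ψ r _) ((phi k ℓ).comp ε) hη
    refine ⟨η', fun x hx => ?_⟩
    have hx2 : ψ x ∈ (Fx Hp : Subfield M) := fun r _ => h.smul_ψ r x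
    rw [hη' (ψ x) hx2 hx, RingHom.comp_apply, hε x hx2, phi_phi hℓ.out.pos hpos, hmul]

theorem lemmaT {k M R : Type} [Field k] [IsAlgClosed k] [Field M] [Group R] [Finite R]
    [MulSemiringAction R M] {ψ : RatFunc k →+* M} (h : IsG ψ R ⊥) {ℓ : ℕ} [hℓ : Fact ℓ.Prime]
    (hℓk : (ℓ : k) ≠ 0) (hR : IsPGroup ℓ R) (ψ₀ : RatFunc k →+* LaurentSeries k) :
    ∃ ε : M →+* LaurentSeries k, ε.comp ψ = (phi k (Nat.card R)).comp ψ₀ := by
  obtain ⟨ε, hε⟩ := L7_aux h hℓk hR ψ₀ (Nat.card R) (⊥ : Subgroup R) Subgroup.index_bot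
  have hmem : ∀ a : M, (RingHom.id M) a ∈ (Fx (⊥ : Subgroup R) : Subfield M) := by
    intro a r hr
    rw [Subgroup.mem_bot.1 hr, one_smul]
  refine ⟨ε.comp ((RingHom.id M).codRestrict (Fx (⊥ : Subgroup R) : Subfield M) hmem), ?_⟩
  refine RingHom.ext fun x => ?_
  exact hε x (hmem (ψ x))

theorem exists_inertia {k M R : Type} [Field k] [Field M] [Group R] [Finite R]
    [MulSemiringAction R M] {ψ : RatFunc k →+* M} {Z : Subgroup R} (h : IsG ψ R Z) {e : ℕ}
    (he : 0 < e) (ζ : kˣ) (hζ : ζ ^ e = 1) (ψ₀ : RatFunc k →+* LaurentSeries k)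
    (ε : M →+* LaurentSeries k) (hε : ε.comp ψ = (phi k e).comp ψ₀) :
    ∃ s : R, ∀ a : M, rot ζ (ε a) = ε (s • a) := by
  refine exists_smul h ε ((rot ζ).comp ε) ?_
  refine RingHom.ext fun x => ?_
  have h1 : ε (ψ x) = phi k e (ψ₀ x) := RingHom.congr_fun hε x
  show ε (ψ x) = rot ζ (ε (ψ x))
  rw [h1, rot_phi he ζ hζ]

end

end Pool.Agent.MP_1c8e06_ag.AK
end
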