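import Pool.Agent.Lib.MP_1c8e06_ag.AK.Defs
import Pool.Agent.Lib.MP_1c8e06_ag.Mg.G021

section

set_option autoImplicit false

open Polynomial

namespace Pool.Agent.MP_1c8e06_ag.AK

noncomputable section

/-!
# Task V1: the relatively free group

Proofs.  (Pure group theory.)
* `RF.finite`: a subgroup of `(Fin n → R) → R`.  `RF.isPGroup`: every element of `(Fin n → R) → R` is killed by a power of `ℓ`.
* `RF.closure_gen`: `Subgroup.closure_closure_coe_preimage`-like, or map to the ambient group by `subtype` (injective).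
* `RF.sep`: `γ ≠ 1` is a function with `γ f ≠ 1` for some `f : Fin n → R`; `φ :=` evaluation at `f`, `φ (gen j) = f j`.
* `RF.lift`: let `Φ := Γ →* R`; the homomorphism `Γ → (Φ → R)`, `γ ↦ (φ γ)_φ`, is injective (`hinj`).  The homomorphism `V : RF R n → (Φ → R)`,
  `V F φ := F (fun j => φ (x j))`, maps `gen j` to the image of `x j`.  So its range (the closure of the images of the `gen j`) is contained in (the closure of the images of
  the `x j`, equal to) the range of `Γ`; compose with the inverse of `Γ ≃ range`.  Surjective as the `x j` generate `Γ`.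
* `RF.univ`: `u : RF R n → Γ` from `RF.lift` is onto, and `card Γ ≥ card (RF R n)`, so it is bijective; `π := (evaluation at r) ∘ u⁻¹`.
-/

theorem RF.finite (R : Type) [Group R] [Finite R] (n : ℕ) : Finite (RF R n) := by
  infer_instance

theorem RF.isPGroup {ℓ : ℕ} {R : Type} [Group R] [Finite R] (hR : IsPGroup ℓ R) (n : ℕ) :
    IsPGroup ℓ (RF R n) := by
  classical
  have := Fintype.ofFinite R
  choose k hk using hR
  set K := Finset.univ.sup k with hK
  have hall : ∀ r : R, r ^ ℓ ^ K = 1 := by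
    intro r
    have hle : k r ≤ K := Finset.le_sup (Finset.mem_univ r)
    obtain ⟨c, hc⟩ := Nat.exists_eq_add_of_le hle
    rw [hc, pow_add, pow_mul, hk r, one_pow]
  intro F
  refine ⟨K, ?_⟩
  apply Subtype.ext
  funext f
  exact hall (F.1 f)

theorem RF.closure_gen (R : Type) [Group R] (n : ℕ) :
    Subgroup.closure (Set.range (RF.gen R n)) = ⊤ := by
  have h := Subgroup.closure_closure_coe_preimage
    (k := Set.range fun (j : Fin n) (f : Fin n → R) => f j)
  refine Eq.trans ?_ h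
  congr 1
  ext γ
  constructor
  · rintro ⟨j, rfl⟩
    exact ⟨j, rfl⟩
  · rintro ⟨j, hj⟩
    exact ⟨j, Subtype.ext hj⟩

theorem RF.sep (R : Type) [Group R] (n : ℕ) (γ : RF R n) (hγ : γ ≠ 1) :
    ∃ φ : RF R n →* R, φ γ ≠ 1 := by
  by_contra hcon
  push Not at hcon
  apply hγ
  apply Subtype.ext
  funext f
  exact hcon ((Pi.evalMonoidHom (fun _ : Fin n → R => R) f).comp (RF R n).subtype)

theorem RF.lift (R : Type) [Group R] (n : ℕ) {Γ : Type} [Group Γ] (x : Fin n → Γ)
    (hx : Subgroup.closure (Set.range x) = ⊤) (hinj : ∀ γ : Γ, γ ≠ 1 → ∃ φ : Γ →* R, φ γ ≠ 1) :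
    ∃ u : RF R n →* Γ, Function.Surjective u ∧ ∀ j, u (RF.gen R n j) = x j := by
  let ι : Γ →* ((Γ →* R) → R) := MonoidHom.pi fun φ => φ
  have hι : Function.Injective ι := by
    rw [injective_iff_map_eq_one]
    intro γ hγ
    by_contra hne
    obtain ⟨φ, hφ⟩ := hinj γ hne
    exact hφ (congrFun hγ φ)
  let V : RF R n →* ((Γ →* R) → R) := MonoidHom.pi fun φ =>
    (Pi.evalMonoidHom (fun _ : Fin n → R => R) (fun j => φ (x j))).comp (RF R n).subtype
  have hV : ∀ j, V (RF.gen R n j) = ι (x j) := fun j => rfl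
  have hmem : ∀ F : RF R n, V F ∈ ι.range := by
    have hle : (⊤ : Subgroup (RF R n)) ≤ ι.range.comap V := by
      rw [← RF.closure_gen R n, Subgroup.closure_le]
      rintro _ ⟨j, rfl⟩
      exact ⟨x j, (hV j).symm⟩
    intro F
    exact hle (Subgroup.mem_top F)
  let e : Γ ≃* ι.range := MonoidHom.ofInjective hι
  let u : RF R n →* Γ := (e.symm.toMonoidHom).comp (V.codRestrict ι.range hmem)
  have hu : ∀ j, u (RF.gen R n j) = x j := by
    intro j
    show e.symm ⟨V (RF.gen R n j), hmem _⟩ = x j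
    rw [MulEquiv.symm_apply_eq]
    apply Subtype.ext
    exact hV j
  refine ⟨u, ?_, hu⟩
  rw [← MonoidHom.range_eq_top, eq_top_iff, ← hx, Subgroup.closure_le]
  rintro _ ⟨j, rfl⟩
  exact ⟨RF.gen R n j, hu j⟩

theorem RF.univ (R : Type) [Group R] [Finite R] (n : ℕ) {Γ : Type} [Group Γ] [Finite Γ]
    (x : Fin n → Γ) (hx : Subgroup.closure (Set.range x) = ⊤)
    (hinj : ∀ γ : Γ, γ ≠ 1 → ∃ φ : Γ →* R, φ γ ≠ 1) (hcard : Nat.card (RF R n) ≤ Nat.card Γ)
    (r : Fin n → R) : ∃ π : Γ →* R, ∀ j, π (x j) = r j := by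
  have := RF.finite R n
  obtain ⟨u, hu, hux⟩ := RF.lift R n x hx hinj
  have hbij : Function.Bijective u := hu.bijective_of_nat_card_le hcard
  let e : RF R n ≃* Γ := MulEquiv.ofBijective u hbij
  refine ⟨((Pi.evalMonoidHom (fun _ : Fin n → R => R) r).comp (RF R n).subtype).comp
    e.symm.toMonoidHom, ?_⟩
  intro j
  have h : e.symm (x j) = RF.gen R n j := by
    rw [MulEquiv.symm_apply_eq]
    exact (hux j).symm
  show (e.symm (x j)).1 r = r j
  rw [h]
  rfl

end

end Pool.Agent.MP_1c8e06_ag.AK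
end

section

set_option autoImplicit false

open Polynomial

namespace Pool.Agent.MP_1c8e06_ag.AK

noncomputable section

/-!
# Task V2: compositum

Notation: `T` a field, `j₁ : M₁ → T`, `j₂ : M₂ → T`, `j₁ ∘ ψ₁ = j₂ ∘ ψ₂ =: ψT`.
Proof.  `T` is a `K`-algebra through `ψT`.  `N := Subfield.closure (range j₁ ∪ range j₂)`, which is the compositum `L₁ ⊔ L₂` of the intermediate fields
`L_i := range j_i` (`IntermediateField K T`).  `L_i` is Galois over `K`, isomorphic to `M_i` (`M_i/K` is Galois: Artin, `IsG`; finite), so `N` is finite Galois over `K`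
(`IntermediateField` instances: `normal_iSup`/`isSeparable_sup`, `IsGalois` of sup, `finiteDimensional_sup`).  `Γ := N ≃ₐ[K] N` acts on `N` (`AlgEquiv.applyMulSemiringAction`), `IsG ψN Γ ⊥` (`IsGalois.mem_bot_iff_fixed`/
`IsGalois.tfae`; faithful clear).
`ρ₁`: for `γ ∈ Γ` the two homomorphisms `M₁ → T`, `j₁` and `m ↦ γ (j₁ m)` agree on `ψ₁(K)`; by `exists_smul` there is a unique (faithfulness) `ρ₁ γ ∈ R₁` with
`γ • j₁ m = j₁ (ρ₁ γ • m)` for all `m`; it is a homomorphism.  Same for `ρ₂`.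
Jointly injective: if `ρ₁ γ = 1`, `ρ₂ γ = 1` then `γ` fixes both images, hence `N`.
Surjective: the elements of `M₁` fixed by `ρ₁(Γ)` have image in `N` fixed by `Γ`, so in `ψN(K)`: they are in `ψ₁(K)`.  Artin (`IsG.finrank_Fx` for `H = ρ₁.range` and `⊥ ≤ H`: `H.index = 1`) gives
`ρ₁.range = ⊤`.
`hfix`: let `a ∈ N` be fixed by `ker ρ₂`.  `[N : K] = card Γ`, `[Fx (ker ρ₂) : K] = (ker ρ₂).index = card R₂ = [M₂ : K] = [j₂ M₂ : K]` and `j₂ M₂ ⊆ Fx (ker ρ₂)`: equality.
-/

private theorem V2_isGalois {K M R : Type} [Field K] [Field M] [Group R] [Finite R]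
    [MulSemiringAction R M] {ψ : K →+* M} (h : IsG ψ R ⊥) [Algebra K M]
    (hψ : algebraMap K M = ψ) : IsGalois K M := by
  have hfd : FiniteDimensional K M := h.finiteDimensional hψ
  refine IsGalois.of_fixedField_eq_bot K M ?_
  rw [eq_bot_iff]
  intro a ha
  rw [IntermediateField.mem_fixedField_iff] at ha
  rw [IntermediateField.mem_bot]
  have h1 : ∀ r : R, r • a = a := by
    intro r
    let σ : M ≃ₐ[K] M := AlgEquiv.ofRingEquiv (f := MulSemiringAction.toRingEquiv R M r) (by
      intro x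
      rw [hψ]
      exact h.smul_ψ r x)
    exact ha σ (Subgroup.mem_top σ)
  obtain ⟨x, hx⟩ := (h.fix a).1 h1
  exact ⟨x, by rw [hψ]; exact hx⟩

private theorem V2_lift {K M N R Γ : Type} [Field K] [Field M] [Field N] [Group R] [Finite R]
    [MulSemiringAction R M] [Group Γ] [MulSemiringAction Γ N] {ψ₁ : K →+* M} (h : IsG ψ₁ R ⊥)
    (i : M →+* N) (hinv : ∀ (γ : Γ) (x : K), γ • i (ψ₁ x) = i (ψ₁ x)) :
    ∃ ρ : Γ →* R, ∀ (γ : Γ) (m : M), γ • i m = i (ρ γ • m) := by
  have hex : ∀ γ : Γ, ∃ r : R, ∀ a : M, γ • i a = i (r • a) := by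
    intro γ
    exact exists_smul h i ((MulSemiringAction.toRingEquiv Γ N γ : N →+* N).comp i)
      (RingHom.ext fun x => (hinv γ x).symm)
  have huniq : ∀ r s : R, (∀ a : M, i (r • a) = i (s • a)) → r = s := by
    intro r s hrs
    have h1 : ∀ a : M, (s⁻¹ * r) • a = a := by
      intro a
      rw [mul_smul, i.injective (hrs a), inv_smul_smul]
    have h2 := (h.ker (s⁻¹ * r)).1 h1
    rw [Subgroup.mem_bot] at h2
    exact (inv_mul_eq_one.1 h2).symm
  choose ρ hρ using hex
  refine ⟨MonoidHom.mk' ρ fun γ δ => huniq _ _ fun a => ?_, hρ⟩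
  rw [← hρ, mul_smul, hρ δ, hρ γ, mul_smul]

private theorem V2_surj {K M N R Γ : Type} [Field K] [Field M] [Field N] [Group R] [Finite R]
    [MulSemiringAction R M] [Group Γ] [MulSemiringAction Γ N] {ψ₁ : K →+* M} (h : IsG ψ₁ R ⊥)
    {ψ : K →+* N} (hN : IsG ψ Γ ⊥) (i : M →+* N) (hi : i.comp ψ₁ = ψ) (ρ : Γ →* R)
    (hρ : ∀ (γ : Γ) (m : M), γ • i m = i (ρ γ • m)) : Function.Surjective ρ := by
  let _ : Algebra K M := ψ₁.toAlgebra
  have h1 : Module.finrank K (LinearMap.range (Algebra.linearMap K M)) = ρ.range.index := by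
    refine h.finrank_Fx ρ.range bot_le rfl _ fun a => ?_
    rw [LinearMap.mem_range, mem_Fx]
    constructor
    · rintro ⟨x, rfl⟩ r _
      exact h.smul_ψ r x
    · intro ha
      have h2 : ∀ γ : Γ, γ • i a = i a := by
        intro γ
        rw [hρ, ha _ ⟨γ, rfl⟩]
      obtain ⟨x, hx⟩ := (hN.fix (i a)).1 h2
      refine ⟨x, i.injective ?_⟩
      rw [← hx, ← hi]
      rfl
  have h3 : Module.finrank K (LinearMap.range (Algebra.linearMap K M)) = 1 := by
    rw [LinearMap.finrank_range_of_inj (algebraMap K M).injective]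
    exact Module.finrank_self K
  rw [h3] at h1
  exact MonoidHom.range_eq_top.1 (Subgroup.index_eq_one.1 h1.symm)

private theorem V2_fix {K M N R Γ : Type} [Field K] [Field M] [Field N] [Group R] [Finite R]
    [MulSemiringAction R M] [Group Γ] [Finite Γ] [MulSemiringAction Γ N] {ψ₁ : K →+* M}
    (h : IsG ψ₁ R ⊥) {ψ : K →+* N} (hN : IsG ψ Γ ⊥) (i : M →+* N) (hi : i.comp ψ₁ = ψ)
    (ρ : Γ →* R) (hρ : ∀ (γ : Γ) (m : M), γ • i m = i (ρ γ • m)) (hs : Function.Surjective ρ)
    (a : N) (ha : ∀ γ : Γ, ρ γ = 1 → γ • a = a) : ∃ m, i m = a := by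
  let _ : Algebra K M := ψ₁.toAlgebra
  let _ : Algebra K N := ψ.toAlgebra
  have hfd : FiniteDimensional K N := hN.finiteDimensional rfl
  let I : M →ₗ[K] N :=
    { toFun := i
      map_add' := map_add i
      map_smul' := by
        intro x m
        rw [Algebra.smul_def, Algebra.smul_def, map_mul]
        have h1 : i (algebraMap K M x) = algebraMap K N x := RingHom.congr_fun hi x
        rw [h1]
        rfl }
  let F : Submodule K N :=
    { carrier := {b | ∀ γ ∈ ρ.ker, γ • b = b}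
      add_mem' := by
        intro b c hb hc γ hγ
        rw [smul_add, hb γ hγ, hc γ hγ]
      zero_mem' := fun γ _ => smul_zero γ
      smul_mem' := by
        intro x b hb γ hγ
        rw [Algebra.smul_def, smul_mul', hb γ hγ]
        congr 1
        exact hN.smul_ψ γ x }
  have hF : Module.finrank K F = ρ.ker.index := hN.finrank_Fx ρ.ker bot_le rfl F fun b => Iff.rfl
  have hI : Module.finrank K (LinearMap.range I) = Module.finrank K M :=
    LinearMap.finrank_range_of_inj i.injective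
  have hle : LinearMap.range I ≤ F := by
    rintro _ ⟨m, rfl⟩ γ hγ
    change γ • i m = i m
    rw [hρ, (MonoidHom.mem_ker.1 hγ), one_smul]
  have heq : LinearMap.range I = F := by
    refine Submodule.eq_of_le_of_finrank_eq hle ?_
    rw [hI, hF, h.finrank rfl, Subgroup.index_bot, Subgroup.index_ker,
      MonoidHom.range_eq_top.2 hs, Subgroup.card_top]
  have h2 : a ∈ F := fun γ hγ => ha γ (MonoidHom.mem_ker.1 hγ)
  rw [← heq] at h2
  obtain ⟨m, hm⟩ := h2
  exact ⟨m, hm⟩

private theorem V2_fieldRange {K M T : Type} [Field K] [Field M] [Field T] [Algebra K M]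
    [Algebra K T] [FiniteDimensional K M] [IsGalois K M] (J : M →ₐ[K] T) :
    FiniteDimensional K J.fieldRange ∧ IsGalois K J.fieldRange := by
  let e : M ≃ₐ[K] J.fieldRange := AlgEquiv.ofInjectiveField J
  exact ⟨LinearEquiv.finiteDimensional e.toLinearEquiv, IsGalois.of_algEquiv e⟩

theorem compositum {K M₁ M₂ T R₁ R₂ : Type} [Field K] [Field M₁] [Field M₂] [Field T]
    [Group R₁] [Finite R₁] [MulSemiringAction R₁ M₁] [Group R₂] [Finite R₂]
    [MulSemiringAction R₂ M₂] {ψ₁ : K →+* M₁} {ψ₂ : K →+* M₂} (h₁ : IsG ψ₁ R₁ ⊥)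
    (h₂ : IsG ψ₂ R₂ ⊥) (j₁ : M₁ →+* T) (j₂ : M₂ →+* T) (hj : j₁.comp ψ₁ = j₂.comp ψ₂) :
    ∃ (N : Subfield T) (Γ : Type) (_ : Group Γ) (_ : Finite Γ) (_ : MulSemiringAction Γ N)
      (ψ : K →+* N) (i₁ : M₁ →+* N) (i₂ : M₂ →+* N) (ρ₁ : Γ →* R₁) (ρ₂ : Γ →* R₂),
      N = Subfield.closure (Set.range j₁ ∪ Set.range j₂) ∧
      IsG ψ Γ (⊥ : Subgroup Γ) ∧ i₁.comp ψ₁ = ψ ∧ i₂.comp ψ₂ = ψ ∧
      (∀ m, ((i₁ m : N) : T) = j₁ m) ∧ (∀ m, ((i₂ m : N) : T) = j₂ m) ∧
      (∀ (γ : Γ) (m : M₁), γ • i₁ m = i₁ (ρ₁ γ • m)) ∧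
      (∀ (γ : Γ) (m : M₂), γ • i₂ m = i₂ (ρ₂ γ • m)) ∧
      (∀ γ : Γ, ρ₁ γ = 1 → ρ₂ γ = 1 → γ = 1) ∧
      Function.Surjective ρ₁ ∧ Function.Surjective ρ₂ ∧
      (∀ a : N, (∀ γ : Γ, ρ₂ γ = 1 → γ • a = a) → ∃ m, i₂ m = a) := by
  let _ : Algebra K M₁ := ψ₁.toAlgebra
  let _ : Algebra K M₂ := ψ₂.toAlgebra
  let _ : Algebra K T := (j₁.comp ψ₁).toAlgebra
  have hfd₁ : FiniteDimensional K M₁ := h₁.finiteDimensional rfl
  have hfd₂ : FiniteDimensional K M₂ := h₂.finiteDimensional rfl
  have hg₁ : IsGalois K M₁ := V2_isGalois h₁ rfl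
  have hg₂ : IsGalois K M₂ := V2_isGalois h₂ rfl
  let J₁ : M₁ →ₐ[K] T := { j₁ with commutes' := fun _ => rfl }
  let J₂ : M₂ →ₐ[K] T := { j₂ with commutes' := fun x => (RingHom.congr_fun hj x).symm }
  obtain ⟨a₁, b₁⟩ := V2_fieldRange J₁
  obtain ⟨a₂, b₂⟩ := V2_fieldRange J₂
  let E : IntermediateField K T := J₁.fieldRange ⊔ J₂.fieldRange
  have hE₁ : ∀ m, j₁ m ∈ E := fun m =>
    (le_sup_left : J₁.fieldRange ≤ E) (AlgHom.mem_fieldRange.2 ⟨m, rfl⟩)
  have hE₂ : ∀ m, j₂ m ∈ E := fun m =>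
    (le_sup_right : J₂.fieldRange ≤ E) (AlgHom.mem_fieldRange.2 ⟨m, rfl⟩)
  have hfdE : FiniteDimensional K E := inferInstance
  have hgE : IsGalois K E := inferInstance
  have hcl : E.toSubfield = Subfield.closure (Set.range j₁ ∪ Set.range j₂) := by
    apply le_antisymm
    · let C : IntermediateField K T :=
        (Subfield.closure (Set.range j₁ ∪ Set.range j₂)).toIntermediateField fun x =>
          Subfield.subset_closure (Or.inl ⟨ψ₁ x, rfl⟩)
      have h1 : J₁.fieldRange ≤ C := by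
        rintro _ ⟨m, rfl⟩
        exact Subfield.subset_closure (Or.inl ⟨m, rfl⟩)
      have h2 : J₂.fieldRange ≤ C := by
        rintro _ ⟨m, rfl⟩
        exact Subfield.subset_closure (Or.inr ⟨m, rfl⟩)
      exact (sup_le h1 h2 : E ≤ C)
    · rw [Subfield.closure_le]
      rintro _ (⟨m, rfl⟩ | ⟨m, rfl⟩)
      · exact hE₁ m
      · exact hE₂ m
  let i₁ : M₁ →+* E := j₁.codRestrict E hE₁
  let i₂ : M₂ →+* E := j₂.codRestrict E hE₂
  have hi₁ : i₁.comp ψ₁ = algebraMap K E := rfl
  have hi₂ : i₂.comp ψ₂ = algebraMap K E :=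
    RingHom.ext fun x => Subtype.ext (RingHom.congr_fun hj x).symm
  have hG : IsG (algebraMap K E) (E ≃ₐ[K] E) (⊥ : Subgroup (E ≃ₐ[K] E)) := by
    refine ⟨fun γ => ?_, fun a => ?_⟩
    · rw [Subgroup.mem_bot]
      exact ⟨fun hh => AlgEquiv.ext hh, fun hh => by rw [hh]; exact fun a => rfl⟩
    · rw [← Set.mem_range, ← IntermediateField.mem_bot]
      exact (IsGalois.mem_bot_iff_fixed a).symm
  obtain ⟨ρ₁, hρ₁⟩ := V2_lift (Γ := E ≃ₐ[K] E) h₁ i₁ fun γ x => γ.commutes x
  obtain ⟨ρ₂, hρ₂⟩ := V2_lift (Γ := E ≃ₐ[K] E) h₂ i₂ fun γ x => by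
    have h3 : i₂ (ψ₂ x) = algebraMap K E x := RingHom.congr_fun hi₂ x
    rw [h3]
    exact γ.commutes x
  have hs₁ := V2_surj h₁ hG i₁ hi₁ ρ₁ hρ₁
  have hs₂ := V2_surj h₂ hG i₂ hi₂ ρ₂ hρ₂
  have hinj : ∀ γ : E ≃ₐ[K] E, ρ₁ γ = 1 → ρ₂ γ = 1 → γ = 1 := by
    intro γ e₁ e₂
    let v : E →+* T := E.val.toRingHom
    let W : Subfield E := RingHom.eqLocusField v (v.comp (γ : E →+* E))
    have h4 : Subfield.closure (Set.range j₁ ∪ Set.range j₂) ≤ W.map v := by
      rw [Subfield.closure_le]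
      rintro _ (⟨m, rfl⟩ | ⟨m, rfl⟩)
      · refine ⟨i₁ m, ?_, rfl⟩
        have h5 := hρ₁ γ m
        rw [e₁, one_smul] at h5
        exact (congrArg v h5).symm
      · refine ⟨i₂ m, ?_, rfl⟩
        have h5 := hρ₂ γ m
        rw [e₂, one_smul] at h5
        exact (congrArg v h5).symm
    refine AlgEquiv.ext fun x => ?_
    have h6 : (x : T) ∈ W.map v := h4 (hcl ▸ (x.2 : (x : T) ∈ E.toSubfield))
    obtain ⟨w, hw, hwx⟩ := h6
    have h7 : w = x := v.injective hwx
    subst h7
    exact (v.injective hw).symm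
  exact ⟨E.toSubfield, E ≃ₐ[K] E, inferInstance, inferInstance,
    (inferInstance : MulSemiringAction (E ≃ₐ[K] E) E), algebraMap K E, i₁, i₂, ρ₁, ρ₂,
    hcl, hG, hi₁, hi₂, fun _ => rfl, fun _ => rfl, hρ₁, hρ₂, hinj, hs₁, hs₂,
    fun a ha => V2_fix h₂ hG i₂ hi₂ ρ₂ hρ₂ hs₂ a ha⟩

end

end Pool.Agent.MP_1c8e06_ag.AK
end

section

set_option autoImplicit false

open Polynomial

namespace Pool.Agent.MP_1c8e06_ag.AK

noncomputable section

/-!
# Task V8a: the fixed field of `X ↦ X + 1`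

Proof.  Let `K := RatFunc k`, `K₀ := (qh p k).fieldRange` (`= k(X ^ p - X)`), contained in the fixed field `K₁` of the group `⟨sig⟩` of order `p` of automorphisms of `K`
(`sig (X ^ p - X) = X ^ p - X` in characteristic `p`; `sig` is an automorphism with inverse `X ↦ X - 1`, `sig^[p] = id`, `sig^[i] X = X + i ≠ X` for `0 < i < p`).  Artin: `[K : K₁] = p` (`FixedPoints.finrank_eq_card`).  `K = K₀(X)` (`K` is generated as a field by
the constants, which are in `K₀`, and `X`) and `X` is a root of `Y ^ p - Y - (X ^ p - X) ∈ K₀[Y]`, so `[K : K₀] ≤ p` (`IntermediateField.adjoin.finrank`, `minpoly` of degree `≤ p`).  So `K₀ = K₁`.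
(Another way: `IsG.of_card`, `AK/F2.lean`, for `Multiplicative (ZMod p)` or the subgroup `zpowers` of `RingAut K` acting on `K` and `ψ := qh p k`.)
-/

theorem natDegree_qh (p : ℕ) [hp : Fact p.Prime] (k : Type) [Field k] :
    0 < (X ^ p - X : k[X]).natDegree := by
  rw [FiniteField.X_pow_card_sub_X_natDegree_eq k hp.out.one_lt]
  exact hp.out.pos

/-- `X ↦ X ^ p - X`. -/
def qh (p : ℕ) [hp : Fact p.Prime] (k : Type) [Field k] : RatFunc k →+* RatFunc k :=
  compR (X ^ p - X) (natDegree_qh p k)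

private theorem V8a_sig_qh {p : ℕ} [hp : Fact p.Prime] {k : Type} [Field k] [CharP k p] :
    (sig k).comp (qh p k) = qh p k := by
  have : CharP (RatFunc k) p := charP_of_injective_ringHom (RatFunc.C (K := k)).injective p
  refine ratHom_ext (fun c => ?_) ?_
  · rw [RingHom.comp_apply, qh, compR_C, sig_C]
  · rw [RingHom.comp_apply, qh, compR_X, map_sub, map_pow, RatFunc.algebraMap_X, map_sub, map_pow,
      sig_X, add_pow_char, one_pow]
    ring

/-- `sig` as a homomorphism of algebras over the range of `qh`. -/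
private def V8a_sigA (p : ℕ) [hp : Fact p.Prime] (k : Type) [Field k] [CharP k p] :
    RatFunc k →ₐ[(qh p k).fieldRange] RatFunc k :=
  { sig k with
    commutes' := by
      rintro ⟨x, hx⟩
      obtain ⟨u, rfl⟩ := (RingHom.mem_fieldRange).1 hx
      change sig k (qh p k u) = qh p k u
      exact congrArg (fun f : RatFunc k →+* RatFunc k => f u) (V8a_sig_qh (p := p) (k := k)) }

private theorem V8a_sigA_apply {p : ℕ} [hp : Fact p.Prime] {k : Type} [Field k] [CharP k p]
    (x : RatFunc k) : V8a_sigA p k x = sig k x := rfl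

/-- The constant term of the equation of `X`. -/
private def V8a_c (p : ℕ) [hp : Fact p.Prime] (k : Type) [Field k] : (qh p k).fieldRange :=
  ⟨qh p k RatFunc.X, RingHom.mem_fieldRange.2 ⟨_, rfl⟩⟩

/-- The equation of `X`. -/
private def V8a_Q (p : ℕ) [hp : Fact p.Prime] (k : Type) [Field k] : (qh p k).fieldRange[X] :=
  X ^ p - (X + C (V8a_c p k))

private theorem V8a_deg (p : ℕ) [hp : Fact p.Prime] (k : Type) [Field k] :
    (X + C (V8a_c p k) : (qh p k).fieldRange[X]).degree < (p : ℕ) := by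
  rw [degree_X_add_C]
  exact_mod_cast hp.out.one_lt

private theorem V8a_monic (p : ℕ) [hp : Fact p.Prime] (k : Type) [Field k] : (V8a_Q p k).Monic :=
  monic_X_pow_sub (V8a_deg p k)

private theorem V8a_natDegree (p : ℕ) [hp : Fact p.Prime] (k : Type) [Field k] :
    (V8a_Q p k).natDegree = p := by
  have h : (V8a_Q p k).degree = (p : ℕ) := by
    unfold V8a_Q
    rw [degree_sub_eq_left_of_degree_lt, degree_X_pow]
    rw [degree_X_pow]
    exact V8a_deg p k
  exact natDegree_eq_of_degree_eq_some h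

private theorem V8a_aeval (p : ℕ) [hp : Fact p.Prime] (k : Type) [Field k] :
    aeval (RatFunc.X : RatFunc k) (V8a_Q p k) = 0 := by
  unfold V8a_Q
  rw [map_sub, map_pow, map_add, aeval_X, aeval_C]
  have : algebraMap (qh p k).fieldRange (RatFunc k) (V8a_c p k) = qh p k RatFunc.X := rfl
  rw [this, qh, compR_X, map_sub, map_pow, RatFunc.algebraMap_X]
  ring

private theorem V8a_mem (p : ℕ) [hp : Fact p.Prime] (k : Type) [Field k] (x : RatFunc k) :
    ∃ P : (qh p k).fieldRange[X], P.natDegree < p ∧ aeval (RatFunc.X : RatFunc k) P = x := by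
  have hint : IsIntegral (qh p k).fieldRange (RatFunc.X : RatFunc k) :=
    ⟨V8a_Q p k, V8a_monic p k, by
      have := V8a_aeval p k
      rwa [aeval_def] at this⟩
  have htop : IntermediateField.adjoin (qh p k).fieldRange {(RatFunc.X : RatFunc k)} = ⊤ := by
    rw [eq_top_iff]
    intro y _
    have hpoly : ∀ f : k[X], algebraMap k[X] (RatFunc k) f ∈
        IntermediateField.adjoin (qh p k).fieldRange {(RatFunc.X : RatFunc k)} := by
      intro f
      induction f using Polynomial.induction_on' with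
      | add f g hf hg => rw [map_add]; exact add_mem hf hg
      | monomial n a =>
        rw [← C_mul_X_pow_eq_monomial, map_mul, map_pow, RatFunc.algebraMap_X,
          RatFunc.algebraMap_C]
        refine mul_mem ?_ (pow_mem (IntermediateField.mem_adjoin_simple_self _ _) _)
        have h := IntermediateField.algebraMap_mem
          (IntermediateField.adjoin (qh p k).fieldRange {(RatFunc.X : RatFunc k)})
          (⟨RatFunc.C a, RingHom.mem_fieldRange.2 ⟨RatFunc.C a, compR_C _ _ a⟩⟩ :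
            (qh p k).fieldRange)
        exact h
    obtain ⟨f, g, _, rfl⟩ := IsFractionRing.div_surjective (A := k[X]) y
    exact div_mem (hpoly f) (hpoly g)
  have h1 : (IntermediateField.adjoin (qh p k).fieldRange {(RatFunc.X : RatFunc k)}).toSubalgebra =
      Algebra.adjoin (qh p k).fieldRange {(RatFunc.X : RatFunc k)} :=
    IntermediateField.adjoin_simple_toSubalgebra_of_isAlgebraic hint.isAlgebraic
  rw [htop, Algebra.adjoin_singleton_eq_range_aeval] at h1
  have h2 : x ∈ (aeval (R := (qh p k).fieldRange) (RatFunc.X : RatFunc k)).range := by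
    rw [← h1]
    exact IntermediateField.mem_top
  obtain ⟨P, hP⟩ := h2
  have hne : V8a_Q p k ≠ 1 := by
    intro h
    have h3 := V8a_natDegree p k
    rw [h, natDegree_one] at h3
    exact hp.out.ne_zero h3.symm
  refine ⟨P %ₘ V8a_Q p k, ?_, ?_⟩
  · have h4 := natDegree_modByMonic_lt P (V8a_monic p k) hne
    rwa [V8a_natDegree] at h4
  · rw [aeval_modByMonic_eq_self_of_root (V8a_aeval p k)]
    exact hP

private theorem V8a_const {F : Type} [Field F] (p : ℕ) [hp : Fact p.Prime] [CharP F p]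
    (P : F[X]) (hP : P.natDegree < p) (h : taylor 1 P = P) : P = C (P.eval 0) := by
  classical
  have hev : ∀ n : ℕ, P.eval (n : F) = P.eval 0 := by
    intro n
    induction n with
    | zero => rw [Nat.cast_zero]
    | succ n ih =>
      rw [Nat.cast_succ, ← taylor_eval, h, ih]
  rw [← sub_eq_zero]
  refine eq_zero_of_natDegree_lt_card_of_eval_eq_zero' _
    ((Finset.range p).image (fun n : ℕ => (n : F))) ?_ ?_
  · intro x hx
    obtain ⟨n, _, rfl⟩ := Finset.mem_image.1 hx
    rw [eval_sub, eval_C, hev, sub_self]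
  · rw [Finset.card_image_of_injOn, Finset.card_range]
    · refine lt_of_le_of_lt (natDegree_sub_le _ _) ?_
      rw [natDegree_C, max_eq_left (Nat.zero_le _)]
      exact hP
    · intro a ha b hb hab
      refine CharP.natCast_injOn_Iio F p ?_ ?_ hab
      · simpa using ha
      · simpa using hb

private theorem V8a_aeval_taylor {p : ℕ} [hp : Fact p.Prime] {k : Type} [Field k] [CharP k p]
    (P : (qh p k).fieldRange[X]) :
    aeval (RatFunc.X : RatFunc k) (taylor 1 P) = sig k (aeval (RatFunc.X : RatFunc k) P) := by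
  rw [taylor_apply, aeval_comp, map_add, aeval_X, aeval_C, map_one, ← V8a_sigA_apply (p := p),
    ← aeval_algHom_apply, V8a_sigA_apply, sig_X]

private theorem V8a_indep {p : ℕ} [hp : Fact p.Prime] {k : Type} [Field k] [CharP k p]
    [CharP (qh p k).fieldRange p] (n : ℕ) :
    ∀ P : (qh p k).fieldRange[X], P.natDegree = n → n < p →
      aeval (RatFunc.X : RatFunc k) P = 0 → P = 0 := by
  induction n using Nat.strong_induction_on with
  | _ n ih =>
    intro P hPn hn hP
    by_contra hne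
    have h1 : aeval (RatFunc.X : RatFunc k) (taylor 1 P - P) = 0 := by
      rw [map_sub, V8a_aeval_taylor, hP, map_zero, sub_zero]
    have h2 : taylor 1 P - P = 0 := by
      by_contra hne2
      have hdeg : (taylor 1 P - P).degree < P.degree := by
        refine degree_sub_lt_right (degree_taylor P 1) hne ?_
        rw [leadingCoeff_taylor]
      have hnd : (taylor 1 P - P).natDegree < P.natDegree := natDegree_lt_natDegree hne2 hdeg
      exact hne2 (ih _ (hPn ▸ hnd) _ rfl (lt_of_lt_of_le hnd (hPn ▸ hn.le)) h1)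
    have h3 := V8a_const p P (hPn ▸ hn) (sub_eq_zero.1 h2)
    rw [h3, aeval_C] at hP
    have h4 : P.eval 0 = 0 := by
      have := (algebraMap (qh p k).fieldRange (RatFunc k)).injective
      exact this (by rw [hP, map_zero])
    rw [h4, C_0] at h3
    exact hne h3

theorem sig_fixed {p : ℕ} [hp : Fact p.Prime] {k : Type} [Field k] [CharP k p] (x : RatFunc k)
    (hx : sig k x = x) : ∃ u, qh p k u = x := by
  have : CharP (RatFunc k) p := charP_of_injective_ringHom (RatFunc.C (K := k)).injective p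
  have : CharP (qh p k).fieldRange p :=
    (RingHom.charP_iff (algebraMap (qh p k).fieldRange (RatFunc k))
      (algebraMap (qh p k).fieldRange (RatFunc k)).injective p).2 inferInstance
  obtain ⟨P, hPd, rfl⟩ := V8a_mem p k x
  have h1 : aeval (RatFunc.X : RatFunc k) (taylor 1 P - P) = 0 := by
    rw [map_sub, V8a_aeval_taylor, hx, sub_self]
  have h2 : taylor 1 P - P = 0 := by
    refine V8a_indep _ _ rfl ?_ h1
    refine lt_of_le_of_lt (natDegree_sub_le _ _) ?_
    rw [natDegree_taylor, max_self]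
    exact hPd
  have h3 := V8a_const p P hPd (sub_eq_zero.1 h2)
  rw [h3, aeval_C]
  obtain ⟨u, hu⟩ := RingHom.mem_fieldRange.1 (P.eval 0).2
  exact ⟨u, hu⟩

end

end Pool.Agent.MP_1c8e06_ag.AK
end
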