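import Pool.Agent.Lib.MP_1c8e06_ag.Mg.G021
import Pool.Agent.Lib.MP_1c8e06_ag.Mg.G031
import Pool.Agent.Lib.MP_1c8e06_ag.AK.Defs3
import Pool.Agent.Lib.MP_1c8e06_ag.RC.Defs

section

set_option autoImplicit false

open Polynomial

namespace Pool.Agent.MP_1c8e06_ag.AK

noncomputable section

/-!
# Task V9a: the Kummer covering of the line

`pw e`: `X ↦ X ^ e`.
Proof.  `μ := rootsOfUnity e k` (or `Multiplicative (ZMod e)` and a primitive root), finite of order `e` (`(e : k) ≠ 0`, `k` algebraically closed).  `ζ ∈ μ` acts on `RatFunc k` by the automorphism `X ↦ C ζ * X`, `compR (C ζ * X)`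
(composition: `ratHom_ext`; inverse by `ζ⁻¹`).  `IsG.of_card` for `ψ := pw e`: faithful; the action fixes `pw e (RatFunc k)` (`(ζ X) ^ e = X ^ e`); `RatFunc k` is generated over the image by `X`, a root of `Y ^ e - X ^ e`, so its degree is at most `e`
(see `AK/V8.lean`, `sig_fixed`, for a similar argument).
-/

/-- `X ↦ X ^ e`. -/
def pw (k : Type) [Field k] (e : ℕ) (he : 0 < e) : RatFunc k →+* RatFunc k :=
  compR (X ^ e) (by rw [natDegree_X_pow]; exact he)

theorem pw_X (k : Type) [Field k] (e : ℕ) (he : 0 < e) : pw k e he RatFunc.X = RatFunc.X ^ e := by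
  rw [pw, compR_X, map_pow, RatFunc.algebraMap_X]

theorem pw_C (k : Type) [Field k] (e : ℕ) (he : 0 < e) (c : k) :
    pw k e he (RatFunc.C c) = RatFunc.C c := compR_C _ _ c

/-! ### Auxiliary facts -/

private theorem rot_deg {k : Type} [Field k] (ζ : kˣ) : 0 < (C (ζ : k) * X : k[X]).natDegree := by
  rw [natDegree_C_mul_X _ ζ.ne_zero]
  exact one_pos

private def V9a_rot {k : Type} [Field k] (ζ : kˣ) : RatFunc k →+* RatFunc k :=
  compR (C (ζ : k) * X) (rot_deg ζ)

private theorem V9a_rot_C {k : Type} [Field k] (ζ : kˣ) (c : k) :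
    V9a_rot ζ (RatFunc.C c) = RatFunc.C c := compR_C _ _ c

private theorem V9a_rot_X {k : Type} [Field k] (ζ : kˣ) :
    V9a_rot ζ (RatFunc.X : RatFunc k) = RatFunc.C (ζ : k) * RatFunc.X := by
  rw [V9a_rot, compR_X, map_mul, RatFunc.algebraMap_C, RatFunc.algebraMap_X]

private theorem V9a_rot_mul {k : Type} [Field k] (ζ η : kˣ) :
    V9a_rot (ζ * η) = (V9a_rot ζ).comp (V9a_rot η) := by
  refine ratHom_ext (fun c => ?_) ?_
  · rw [RingHom.comp_apply, V9a_rot_C, V9a_rot_C, V9a_rot_C]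
  · rw [RingHom.comp_apply, V9a_rot_X, V9a_rot_X, map_mul, V9a_rot_C, V9a_rot_X, Units.val_mul,
      map_mul]
    ring

private theorem V9a_rot_one {k : Type} [Field k] :
    V9a_rot (1 : kˣ) = RingHom.id (RatFunc k) := by
  refine ratHom_ext (fun c => ?_) ?_
  · rw [V9a_rot_C, RingHom.id_apply]
  · rw [V9a_rot_X, Units.val_one, map_one, one_mul, RingHom.id_apply]

private def V9a_aut {k : Type} [Field k] : kˣ →* RingAut (RatFunc k) where
  toFun ζ := RingEquiv.ofRingHom (V9a_rot ζ) (V9a_rot ζ⁻¹)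
    (by rw [← V9a_rot_mul, mul_inv_cancel, V9a_rot_one])
    (by rw [← V9a_rot_mul, inv_mul_cancel, V9a_rot_one])
  map_one' := by
    refine RingEquiv.ext fun x => ?_
    change V9a_rot (1 : kˣ) x = x
    rw [V9a_rot_one, RingHom.id_apply]
  map_mul' ζ η := by
    refine RingEquiv.ext fun x => ?_
    change V9a_rot (ζ * η) x = V9a_rot ζ (V9a_rot η x)
    rw [V9a_rot_mul, RingHom.comp_apply]

private theorem V9a_aut_apply {k : Type} [Field k] (ζ : kˣ) (x : RatFunc k) :
    V9a_aut ζ x = V9a_rot ζ x := rfl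

private theorem V9a_aut_inj {k : Type} [Field k] :
    Function.Injective (V9a_aut : kˣ →* RingAut (RatFunc k)) := by
  intro ζ η h
  have h1 : V9a_rot ζ (RatFunc.X : RatFunc k) = V9a_rot η RatFunc.X := by
    rw [← V9a_aut_apply, ← V9a_aut_apply, h]
  rw [V9a_rot_X, V9a_rot_X] at h1
  have h2 := mul_right_cancel₀ (RatFunc.X_ne_zero) h1
  exact Units.ext ((RatFunc.C : k →+* RatFunc k).injective h2)

private theorem V9a_fin {K M : Type} [Field K] [Field M] [Algebra K M] (x : M) (e : ℕ) (he : 0 < e)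
    (a : K) (hx : x ^ e = algebraMap K M a)
    (hgen : ∀ S : Subfield M, (∀ c : K, algebraMap K M c ∈ S) → x ∈ S → ∀ y, y ∈ S) :
    FiniteDimensional K M ∧ Module.finrank K M ≤ e := by
  have hroot : aeval x (X ^ e - C a : K[X]) = 0 := by
    rw [map_sub, map_pow, aeval_X, aeval_C, hx, sub_self]
  have hmonic : (X ^ e - C a : K[X]).Monic := monic_X_pow_sub_C a he.ne'
  have hint : IsIntegral K x := ⟨_, hmonic, hroot⟩
  have htop : IntermediateField.adjoin K {x} = ⊤ := by
    rw [eq_top_iff]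
    intro y _
    exact hgen (IntermediateField.adjoin K {x}).toSubfield
      (fun c => (IntermediateField.adjoin K {x}).algebraMap_mem c)
      (IntermediateField.subset_adjoin K {x} (Set.mem_singleton x)) y
  have h1 := IntermediateField.adjoin.finrank hint
  have h2 : (minpoly K x).natDegree ≤ e := by
    have h3 := natDegree_le_of_dvd (minpoly.dvd K x hroot) hmonic.ne_zero
    rwa [natDegree_X_pow_sub_C] at h3
  have hfd : FiniteDimensional K (IntermediateField.adjoin K {x}) :=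
    IntermediateField.adjoin.finiteDimensional hint
  constructor
  · rw [htop] at hfd
    exact (IntermediateField.topEquiv (F := K) (E := M)).toLinearEquiv.finiteDimensional
  · rw [htop, IntermediateField.finrank_top'] at h1
    rw [h1]
    exact h2

theorem isG_pw {k : Type} [Field k] [IsAlgClosed k] (e : ℕ) (he : 0 < e) (hek : (e : k) ≠ 0) :
    ∃ (μ : Type) (_ : Group μ) (_ : Finite μ) (_ : MulSemiringAction μ (RatFunc k)),
      IsG (pw k e he) μ (⊥ : Subgroup μ) ∧ Nat.card μ = e ∧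
      ∀ ζ : k, ζ ^ e = 1 → ∃ m : μ, m • (RatFunc.X : RatFunc k) = RatFunc.C ζ * RatFunc.X := by
  have : NeZero (e : k) := ⟨hek⟩
  have : NeZero e := ⟨he.ne'⟩
  let μ : Subgroup (RingAut (RatFunc k)) := (rootsOfUnity e k).map V9a_aut
  have hcard : Nat.card μ = e := by
    rw [← Nat.card_congr ((rootsOfUnity e k).equivMapOfInjective V9a_aut V9a_aut_inj).toEquiv]
    exact HasEnoughRootsOfUnity.natCard_rootsOfUnity k e
  have hfinite : Finite μ := Nat.finite_of_card_ne_zero (by rw [hcard]; exact he.ne')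
  have key := @V9a_fin (RatFunc k) (RatFunc k) _ _ (pw k e he).toAlgebra RatFunc.X e he RatFunc.X
    (pw_X k e he).symm (by
      intro F hK hF y
      have hC : ∀ c : k, RatFunc.C c ∈ F := by
        intro c
        have h1 : pw k e he (RatFunc.C c) ∈ F := hK (RatFunc.C c)
        rwa [pw_C] at h1
      have hP : ∀ f : k[X], algebraMap k[X] (RatFunc k) f ∈ F := by
        intro f
        induction f using Polynomial.induction_on' with
        | add f g hf hg => rw [map_add]; exact F.add_mem hf hg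
        | monomial n c =>
          rw [← C_mul_X_pow_eq_monomial, map_mul, map_pow, RatFunc.algebraMap_C,
            RatFunc.algebraMap_X]
          exact F.mul_mem (hC c) (F.pow_mem hF n)
      obtain ⟨f, g, hg, rfl⟩ := IsFractionRing.div_surjective (A := k[X]) y
      exact F.div_mem (hP f) (hP g))
  refine ⟨μ, inferInstance, hfinite, inferInstance, ?_, hcard, ?_⟩
  · refine @IsG.of_card (RatFunc k) (RatFunc k) μ _ _ _ hfinite _ (pw k e he)
      (pw k e he).toAlgebra rfl ?_ ?_ key.1 (key.2.trans_eq hcard.symm)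
    · intro r hr
      exact Subtype.ext (RingEquiv.ext fun x => hr x)
    · rintro ⟨_, ζ, hζ, rfl⟩ x
      change V9a_rot ζ (pw k e he x) = pw k e he x
      have h1 : (V9a_rot ζ).comp (pw k e he) = pw k e he := by
        refine ratHom_ext (fun c => ?_) ?_
        · rw [RingHom.comp_apply, pw_C, V9a_rot_C]
        · rw [RingHom.comp_apply, pw_X, map_pow, V9a_rot_X, mul_pow, ← map_pow, ← Units.val_pow_eq_pow_val,
            (mem_rootsOfUnity e ζ).1 hζ, Units.val_one, map_one, one_mul]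
      exact congrArg (fun f : RatFunc k →+* RatFunc k => f x) h1
  · intro ζ hζ
    have h0 : ζ ≠ 0 := by
      rintro rfl
      rw [zero_pow he.ne'] at hζ
      exact zero_ne_one hζ
    refine ⟨⟨V9a_aut (Units.mk0 ζ h0), Units.mk0 ζ h0, ?_, rfl⟩, ?_⟩
    · exact (mem_rootsOfUnity e _).2 (Units.ext (by simpa using hζ))
    · change V9a_rot (Units.mk0 ζ h0) RatFunc.X = _
      rw [V9a_rot_X, Units.val_mk0]

end

end Pool.Agent.MP_1c8e06_ag.AK
end

section

set_option autoImplicit false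

open Polynomial

namespace Pool.Agent.MP_1c8e06_ag.AK

noncomputable section

/-!
# Task V9b: the compositum is unramified

Proof.  Let `a ∈ k`, `ε_L, x'` from `hε a`.  `C := AlgebraicClosure (LaurentSeries k)`, `ι : k((t)) → C`.  `N` is algebraic over `i₁(L)` (it is algebraic over `ψN(K)`: `IsG.finiteDimensional`), so there is `η : N → C` with
  `η ∘ i₁ = ι ∘ ε_L` (`IsAlgClosed.lift` with the algebra structures given by `i₁` and `ι.comp ε_L`).  `η (i₂ X) ^ e = η (i₂ (pw X)) = η (ψN X) = η (i₁ (ψ (qh X))) = ι x' ^ e`, `x' ≠ 0`..., so `η (i₂ X) = ι (C ζ) * ι x'` with `ζ ∈ k`, `ζ ^ e = 1` (`k` contains a primitive `e`-th root of unity, so every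
  `e`-th root of unity of `C` is in `ι(k)`; if `x' = 0` take `ζ = 1`).
  Choose `m ∈ μ` with `m • X = C ζ⁻¹ * X` (`hμ`) and `γ ∈ Γ` with `ρ₂ γ = m` (`hs₂`).  `η' := η ∘ (γ • ·)`: `η' (i₂ X) = η (i₂ (m • X)) = ι x'`, and on constants `η' (i₂ (C c)) = η (i₂ (C c)) = ι (C c)` (`i₂ (C c) = ψN (C c)` is fixed by `γ`; `hC`); `η' (i₁ l) = η (i₁ (ρ₁ γ • l)) = ι (ε_L (ρ₁ γ • l))`.  So `η'` maps the images of
  `i₁` and `i₂` into the subfield `ι(k((t)))` (`i₂ x` for `x : RatFunc k`: generated by constants and `X`; e.g. the homomorphism `η' ∘ i₂` equals `ι ∘ (a homomorphism RatFunc k → k((t)))`, or use `Subfield.comap` and that `RatFunc k` is generated by constants and `X`), hence (`hgen`) all of `N`, and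
  `ε := ι⁻¹ ∘ η'` satisfies the requirements of `Unr i₂`.
-/

private theorem V9b_lift {L N C : Type} [Field L] [Field N] [Field C] [IsAlgClosed C]
    (i : L →+* N) (j : L →+* C) (hi : ∀ m, i.IsIntegralElem m) : ∃ η : N →+* C, η.comp i = j := by
  let _ := i.toAlgebra
  let _ := j.toAlgebra
  have h1 : Algebra.IsIntegral L N := ⟨hi⟩
  exact ⟨(IsAlgClosed.lift : N →ₐ[L] C).toRingHom,
    RingHom.ext fun x => (IsAlgClosed.lift : N →ₐ[L] C).commutes x⟩

private theorem V9b_pull {A B C : Type} [Field A] [Field B] [Field C] (f : A →+* C) (ι : B →+* C)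
    (h : ∀ a, f a ∈ ι.fieldRange) : ∃ ε : A →+* B, ∀ a, ι (ε a) = f a := by
  choose g hg using h
  have hi := ι.injective
  refine ⟨⟨⟨⟨g, ?_⟩, ?_⟩, ?_, ?_⟩, hg⟩
  · apply hi
    rw [hg, map_one, map_one]
  · intro x y
    apply hi
    rw [map_mul, hg, hg, hg, map_mul]
  · apply hi
    change ι (g 0) = ι 0
    rw [hg, map_zero, map_zero]
  · intro x y
    apply hi
    change ι (g (x + y)) = ι (g x + g y)
    rw [map_add, hg, hg, hg, map_add]

private theorem V9b_rat {k C : Type} [Field k] [Field C] (f : RatFunc k →+* C) (F : Subfield C)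
    (h1 : ∀ c : k, f (RatFunc.C c) ∈ F) (h2 : f RatFunc.X ∈ F) (x : RatFunc k) : f x ∈ F := by
  have hp : ∀ q : k[X], f (algebraMap k[X] (RatFunc k) q) ∈ F := by
    intro q
    induction q using Polynomial.induction_on' with
    | add p q hp hq => rw [map_add, map_add]; exact F.add_mem hp hq
    | monomial n a =>
      rw [← Polynomial.C_mul_X_pow_eq_monomial, map_mul, map_mul, map_pow, map_pow,
        RatFunc.algebraMap_C, RatFunc.algebraMap_X]
      exact F.mul_mem (h1 a) (F.pow_mem h2 n)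
  obtain ⟨p, q, -, rfl⟩ := IsFractionRing.div_surjective (A := k[X]) x
  rw [map_div₀]
  exact F.div_mem (hp p) (hp q)

theorem unr_N {p : ℕ} [hp : Fact p.Prime] {k L N A μ Γ : Type} [Field k] [IsAlgClosed k]
    [CharP k p] [Field L] [Field N] [Group A] [Finite A] [MulSemiringAction A L] [Group μ]
    [Finite μ] [MulSemiringAction μ (RatFunc k)] [Group Γ] [Finite Γ] [MulSemiringAction Γ N]
    {ψ : RatFunc k →+* L} {e : ℕ} (he : 0 < e) (hek : (e : k) ≠ 0) {ψN : RatFunc k →+* N}
    (h : IsG ψN Γ ⊥) (i₁ : L →+* N) (i₂ : RatFunc k →+* N) (h₁ : i₁.comp (ψ.comp (qh p k)) = ψN)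
    (h₂ : i₂.comp (pw k e he) = ψN) (ρ₁ : Γ →* A) (ρ₂ : Γ →* μ)
    (hρ₁ : ∀ (γ : Γ) (m : L), γ • i₁ m = i₁ (ρ₁ γ • m))
    (hρ₂ : ∀ (γ : Γ) (m : RatFunc k), γ • i₂ m = i₂ (ρ₂ γ • m)) (hs₂ : Function.Surjective ρ₂)
    (hμ : ∀ ζ : k, ζ ^ e = 1 → ∃ m : μ, m • (RatFunc.X : RatFunc k) = RatFunc.C ζ * RatFunc.X)
    (hgen : ∀ F : Subfield N, (∀ m, i₁ m ∈ F) → (∀ m, i₂ m ∈ F) → F = ⊤)
    (hC : ∀ c : k, i₁ (ψ (RatFunc.C c)) = i₂ (RatFunc.C c))
    (hε : ∀ a : k, ∃ (ε : L →+* LaurentSeries k) (x' : LaurentSeries k),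
      (∀ c : k, ε (ψ (RatFunc.C c)) = HahnSeries.C c) ∧
      ε (ψ (qh p k RatFunc.X)) = x' ^ e ∧ (x' - HahnSeries.C a).order = 1) : Unr i₂ := by
  intro a
  obtain ⟨εL, x', hc, hx, ho⟩ := hε a
  have hint : ∀ m : N, i₁.IsIntegralElem m := by
    intro m
    let _ := ψN.toAlgebra
    have h1 : FiniteDimensional (RatFunc k) N := h.finiteDimensional rfl
    obtain ⟨f, hf, hf0⟩ := Algebra.IsIntegral.isIntegral (R := RatFunc k) m
    refine ⟨f.map (ψ.comp (qh p k)), hf.map _, ?_⟩
    rw [Polynomial.eval₂_map, h₁]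
    exact hf0
  let ι : LaurentSeries k →+* AlgebraicClosure (LaurentSeries k) := algebraMap _ _
  obtain ⟨η, hη⟩ := V9b_lift i₁ (ι.comp εL) hint
  have hη1 : ∀ l : L, η (i₁ l) = ι (εL l) := fun l => RingHom.congr_fun hη l
  have hηC : ∀ c : k, η (i₂ (RatFunc.C c)) = ι (HahnSeries.C c) := by
    intro c
    rw [← hC, hη1, hc]
  have hpw : (η (i₂ RatFunc.X)) ^ e = (ι x') ^ e := by
    rw [← map_pow, ← map_pow, ← pw_X k e he, ← map_pow, ← hx, ← hη1]
    have h3 : i₂ (pw k e he RatFunc.X) = ψN RatFunc.X := RingHom.congr_fun h₂ RatFunc.X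
    have h4 : i₁ (ψ (qh p k RatFunc.X)) = ψN RatFunc.X := RingHom.congr_fun h₁ RatFunc.X
    rw [h3, h4]
  have hX0 : η (i₂ (RatFunc.X : RatFunc k)) ≠ 0 := by
    rw [Ne, map_eq_zero, map_eq_zero]
    exact RatFunc.X_ne_zero
  have hx0 : ι x' ≠ 0 := by
    intro h0
    rw [h0, zero_pow he.ne'] at hpw
    exact hX0 (pow_eq_zero_iff he.ne' |>.1 hpw)
  have hζ : ∃ ζ : k, ζ ^ e = 1 ∧ η (i₂ (RatFunc.X : RatFunc k)) = ι (HahnSeries.C ζ) * ι x' := by
    have hne : NeZero (e : k) := ⟨hek⟩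
    obtain ⟨ζ₀, hζ₀⟩ := HasEnoughRootsOfUnity.exists_primitiveRoot k e
    have h3 : IsPrimitiveRoot ((ι.comp (HahnSeries.C : k →+* LaurentSeries k)) ζ₀) e :=
      hζ₀.map_of_injective (RingHom.injective _)
    have h4 : (η (i₂ (RatFunc.X : RatFunc k)) / ι x') ^ e = 1 := by
      rw [div_pow, hpw, div_self (pow_ne_zero _ hx0)]
    have hne' : NeZero e := ⟨he.ne'⟩
    obtain ⟨i, -, hi⟩ := h3.eq_pow_of_pow_eq_one h4
    refine ⟨ζ₀ ^ i, by rw [← pow_mul, mul_comm, pow_mul, hζ₀.pow_eq_one, one_pow], ?_⟩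
    rw [map_pow, map_pow]
    rw [RingHom.comp_apply] at hi
    rw [hi, div_mul_cancel₀ _ hx0]
  obtain ⟨ζ, hζe, hζX⟩ := hζ
  have hζ0 : ζ ≠ 0 := by
    intro h0
    rw [h0, zero_pow he.ne'] at hζe
    exact zero_ne_one hζe
  obtain ⟨m, hm⟩ := hμ ζ⁻¹ (by rw [inv_pow, hζe, inv_one])
  obtain ⟨γ, hγ⟩ := hs₂ m
  let η' : N →+* AlgebraicClosure (LaurentSeries k) := η.comp (MulSemiringAction.toRingHom Γ N γ)
  have hη' : ∀ x, η' x = η (γ • x) := fun x => rfl
  have h5 : η' (i₂ RatFunc.X) = ι x' := by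
    have h51 : (HahnSeries.C ζ⁻¹ * HahnSeries.C ζ : LaurentSeries k) = 1 := by
      rw [← map_mul, inv_mul_cancel₀ hζ0, map_one]
    rw [hη', hρ₂, hγ, hm, map_mul, map_mul, hηC, hζX, ← mul_assoc,
      ← map_mul ι (HahnSeries.C ζ⁻¹) (HahnSeries.C ζ), h51, map_one, one_mul]
  have h6 : ∀ c : k, η' (i₂ (RatFunc.C c)) = ι (HahnSeries.C c) := by
    intro c
    have h7 : i₂ (RatFunc.C c) = ψN (RatFunc.C c) := by
      rw [← RingHom.congr_fun h₂ (RatFunc.C c), RingHom.comp_apply, pw_C]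
    rw [hη', ← hηC c]
    congr 1
    rw [h7, h.smul_ψ]
  have h8 : ∀ l : L, η' (i₁ l) = ι (εL (ρ₁ γ • l)) := by
    intro l
    rw [hη', hρ₁, hη1]
  have h9 : (ι.fieldRange).comap η' = ⊤ := by
    apply hgen
    · intro l
      rw [Subfield.mem_comap, h8]
      exact ⟨_, rfl⟩
    · intro x
      rw [Subfield.mem_comap]
      exact V9b_rat (η'.comp i₂) ι.fieldRange (fun c => ⟨_, (h6 c).symm⟩) ⟨_, h5.symm⟩ x
  obtain ⟨ε, hε'⟩ := V9b_pull η' ι (fun x => by
    have h10 : x ∈ (ι.fieldRange).comap η' := by rw [h9]; trivial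
    exact h10)
  refine ⟨ε, ?_, ?_⟩
  · intro c
    apply ι.injective
    rw [hε', h6]
  · have h11 : ε (i₂ RatFunc.X) = x' := by
      apply ι.injective
      rw [hε', h5]
    rw [h11]
    exact ho

end

end Pool.Agent.MP_1c8e06_ag.AK
end

section

set_option autoImplicit false

open Polynomial
open scoped Classical

namespace Pool.Agent.MP_1c8e06_ag.RC

noncomputable section

/-!
# Task T2: valuation rings of the fraction field of a Dedekind domain (general)

Proof.  The center `𝔭 = {b | O.valuation b < 1}` is a prime ideal of `B`.  If `𝔭 = ⊥`, then every nonzero `b` is a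
unit of `O` (`val_lt_one_iff`), hence every quotient `a / b` is in `O` and `O = ⊤`, a contradiction.  Let
`v := ⟨𝔭, _, _⟩ : HeightOneSpectrum B`.  Mathlib: `IsDedekindDomain.HeightOneSpectrum.valuationSubringAtPrime L v`
is equal to `(v.valuation L).valuationSubring` (`valuationSubringAtPrime_eq_valuationSubring`), its elements are
`a / s` with `s ∉ 𝔭` (`exists_primeCompl_mul_eq_of_integer`), so it is contained in `O`; then
`ValuationSubring.eq_of_le_of_ne_top` (the instance `Ring.KrullDimLE 1` is there for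
`valuationSubringAtPrime`).
`le_eq` : if `O ≤ O'` and `O' ≠ ⊤` then `O = O'` (`ValuationSubring.eq_of_le_of_ne_top`, after rewriting `O` by
`exists_center` as `valuationSubringAtPrime L v`).
`center_eq`: if `O`, `O'` are as in `exists_center` and every `b : B` with `O.valuation b < 1` has
`O'.valuation b < 1`, then `O = O'` (the centers are maximal ideals, one is contained in the other, so they are equal;
both rings are the `valuationSubringAtPrime` of the center; or directly: `a ∈ O`, `a ∉ O'`; write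
`a * d = n`, `d ∉ 𝔭`...).
-/

variable {B L : Type} [CommRing B] [IsDedekindDomain B] [Field L] [Algebra B L]
  [IsFractionRing B L]

theorem exists_center (O : ValuationSubring L) (hB : ∀ b : B, algebraMap B L b ∈ O)
    (hne : O ≠ ⊤) :
    ∃ v : IsDedekindDomain.HeightOneSpectrum B, O = (v.valuation L).valuationSubring ∧
      ∀ b : B, b ∈ v.asIdeal ↔ O.valuation (algebraMap B L b) < 1 := by
  have hle : ∀ b : B, O.valuation (algebraMap B L b) ≤ 1 := fun b =>
    (ValuationSubring.valuation_le_one_iff O _).2 (hB b)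
  obtain ⟨P, hP, hPm⟩ : ∃ P : Ideal B, P.IsPrime ∧
      ∀ b : B, b ∈ P ↔ O.valuation (algebraMap B L b) < 1 := by
    refine ⟨(IsLocalRing.maximalIdeal O).comap
      ((algebraMap B L).codRestrict O.toSubring hB), Ideal.comap_isPrime _ _, fun b => ?_⟩
    rw [Ideal.mem_comap]
    exact (ValuationSubring.valuation_lt_one_iff O _)
  have hP0 : P ≠ ⊥ := by
    intro h0
    apply hne
    rw [eq_top_iff]
    intro x _
    obtain ⟨a, b, hb, rfl⟩ := IsFractionRing.div_surjective (A := B) x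
    have hb0 : b ≠ 0 := nonZeroDivisors.ne_zero hb
    have h1 : O.valuation (algebraMap B L b) = 1 := by
      refine le_antisymm (hle b) ?_
      by_contra hc
      rw [not_le, ← hPm, h0] at hc
      exact hb0 hc
    rw [← ValuationSubring.valuation_le_one_iff, map_div₀, h1, div_one]
    exact hle a
  obtain ⟨v, hv⟩ : ∃ v : IsDedekindDomain.HeightOneSpectrum B, v.asIdeal = P := ⟨⟨P, hP, hP0⟩, rfl⟩
  refine ⟨v, ?_, fun b => by rw [hv, hPm]⟩
  rw [← IsDedekindDomain.HeightOneSpectrum.valuationSubringAtPrime_eq_valuationSubring]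
  symm
  refine ValuationSubring.eq_of_le_of_ne_top _ ?_ hne
  intro x hx
  rw [IsDedekindDomain.HeightOneSpectrum.valuationSubringAtPrime_eq_valuationSubring] at hx
  obtain ⟨n, d, hnd⟩ := IsDedekindDomain.HeightOneSpectrum.exists_primeCompl_mul_eq_of_integer v x hx
  have hd : O.valuation (algebraMap B L d) = 1 := by
    refine le_antisymm (hle _) ?_
    by_contra hc
    rw [not_le, ← hPm, ← hv] at hc
    exact d.2 hc
  have h2 := congrArg O.valuation hnd
  rw [map_mul, hd, mul_one] at h2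
  rw [← ValuationSubring.valuation_le_one_iff, h2]
  exact hle n

/-- The elements of `O` are the quotients with denominator outside the center. -/
theorem mem_center (O : ValuationSubring L) (hB : ∀ b : B, algebraMap B L b ∈ O)
    (hne : O ≠ ⊤) (a : L) (ha : a ∈ O) :
    ∃ n d : B, O.valuation (algebraMap B L d) = 1 ∧ a * algebraMap B L d = algebraMap B L n := by
  obtain ⟨v, hv, hm⟩ := exists_center O hB hne
  have ha' : v.valuation L a ≤ 1 := by
    rw [hv] at ha
    exact ha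
  obtain ⟨n, d, hnd⟩ := IsDedekindDomain.HeightOneSpectrum.exists_primeCompl_mul_eq_of_integer v a ha'
  refine ⟨n, d, ?_, hnd⟩
  refine le_antisymm ((ValuationSubring.valuation_le_one_iff O _).2 (hB _)) ?_
  by_contra hc
  rw [not_le, ← hm] at hc
  exact d.2 hc

include B in
theorem le_eq (O O' : ValuationSubring L) (hB : ∀ b : B, algebraMap B L b ∈ O)
    (hle : O ≤ O') (hne : O' ≠ ⊤) : O = O' := by
  have hne0 : O ≠ ⊤ := by
    intro h
    rw [h] at hle
    exact hne (top_le_iff.1 hle)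
  obtain ⟨v, hv, -⟩ := exists_center O hB hne0
  rw [← IsDedekindDomain.HeightOneSpectrum.valuationSubringAtPrime_eq_valuationSubring] at hv
  rw [hv] at hle ⊢
  exact ValuationSubring.eq_of_le_of_ne_top _ hle hne

theorem center_eq (O O' : ValuationSubring L) (hB : ∀ b : B, algebraMap B L b ∈ O)
    (hB' : ∀ b : B, algebraMap B L b ∈ O') (hne : O ≠ ⊤) (hne' : O' ≠ ⊤)
    (h : ∀ b : B, O.valuation (algebraMap B L b) < 1 → O'.valuation (algebraMap B L b) < 1) :
    O = O' := by
  obtain ⟨v, hv, hm⟩ := exists_center O hB hne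
  obtain ⟨v', hv', hm'⟩ := exists_center O' hB' hne'
  have h1 : v.asIdeal ≤ v'.asIdeal := fun b hb => (hm' b).2 (h b ((hm b).1 hb))
  have h2 : v.asIdeal = v'.asIdeal :=
    v.isMaximal.eq_of_le v'.isPrime.ne_top h1
  have h3 : v = v' := IsDedekindDomain.HeightOneSpectrum.ext h2
  rw [hv, hv', h3]

/-- Archimedean property, first half. -/
theorem arch1 (O : ValuationSubring L) (hB : ∀ b : B, algebraMap B L b ∈ O) (hne : O ≠ ⊤)
    (s : L) (hs : O.valuation s < 1) (a : L) : ∃ n : ℕ, a * s ^ n ∈ O := by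
  obtain ⟨v, hv, -⟩ := exists_center O hB hne
  by_cases hs0 : s = 0
  · refine ⟨1, ?_⟩
    rw [hs0, pow_one, mul_zero]
    exact O.zero_mem
  have hvs0 : v.valuation L s ≠ 0 := (Valuation.ne_zero_iff _).2 hs0
  have hvs : v.valuation L s < 1 := by
    rw [val_lt_one_iff] at hs
    obtain ⟨-, h | h⟩ := hs
    · exact absurd h hs0
    · rw [hv] at h
      have h' : ¬ v.valuation L s⁻¹ ≤ 1 := h
      rw [not_le, map_inv₀, one_lt_inv₀ (zero_lt_iff.2 hvs0)] at h'
      exact h'
  obtain ⟨n, hn⟩ := MulArchimedean.arch (v.valuation L a)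
    (y := (v.valuation L s)⁻¹) (by rwa [one_lt_inv₀ (zero_lt_iff.2 hvs0)])
  refine ⟨n, ?_⟩
  rw [hv]
  change v.valuation L (a * s ^ n) ≤ 1
  rw [map_mul, map_pow]
  rw [inv_pow] at hn
  calc v.valuation L a * v.valuation L s ^ n
      ≤ (v.valuation L s ^ n)⁻¹ * v.valuation L s ^ n := mul_le_mul_left hn _
    _ = 1 := inv_mul_cancel₀ (pow_ne_zero _ hvs0)

/-- Archimedean property, second half. -/
theorem arch2 (O : ValuationSubring L) (hB : ∀ b : B, algebraMap B L b ∈ O) (hne : O ≠ ⊤)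
    (s : L) (hs0 : s ≠ 0) (a : L) (ha : O.valuation a < 1) : ∃ n : ℕ, s⁻¹ * a ^ n ∈ O :=
  arch1 O hB hne a ha s⁻¹

/-- The valuation ring of a maximal ideal. -/
theorem exists_of_maximal (M : Ideal B) (hM : M.IsMaximal) (hB : ¬ IsField B) :
    ∃ O : ValuationSubring L, (∀ b : B, algebraMap B L b ∈ O) ∧ O ≠ ⊤ ∧
      ∀ b : B, b ∈ M ↔ O.valuation (algebraMap B L b) < 1 := by
  have hM0 : M ≠ ⊥ := Ring.ne_bot_of_isMaximal_of_not_isField hM hB
  obtain ⟨v, hv⟩ : ∃ v : IsDedekindDomain.HeightOneSpectrum B, v.asIdeal = M :=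
    ⟨⟨M, hM.isPrime, hM0⟩, rfl⟩
  refine ⟨(v.valuation L).valuationSubring, fun b => v.valuation_le_one b, ?_, fun b => ?_⟩
  · simp only [ne_eq, Valuation.valuationSubring_eq_top_iff, not_not]
    infer_instance
  · rw [← hv, ← v.valuation_lt_one_iff_mem (K := L)]
    exact (Valuation.isEquiv_iff_val_lt_one.1
      (Valuation.isEquiv_valuation_valuationSubring (v.valuation L)))

end

end Pool.Agent.MP_1c8e06_ag.RC
end
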