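import Pool.Agent.Lib.MP_1c8e06_ag.Mg.G032
import Pool.Agent.Lib.MP_1c8e06_ag.Mg.G034
import Pool.Agent.Lib.MP_1c8e06_ag.Mg.G031
import Pool.Agent.Lib.MP_1c8e06_ag.Mg.G090
import Pool.Agent.Lib.MP_1c8e06_ag.Mg.G029
import Pool.Agent.Lib.MP_1c8e06_ag.RC.Defs

section

set_option autoImplicit false

open Polynomial

namespace Pool.Agent.MP_1c8e06_ag.AK

noncomputable section

/-!
# Task V9d: the compositum inside `EE p (X ^ e)`

Proofs.
* `exists_jx`: `ratLift ((AI.ze p F).comp C) (AI.ze p F X) _`: `eval₂RingHom` of these is `AI.ze p F` (`Polynomial.ringHom_ext`), injective (`AI.ze_injective`).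
* `exists_gam`.  `EE p F` is a field (`letI`).  `tau` maps `N` to itself: the set `{a | tau a ∈ N}` is a subfield (`Subfield.comap`) containing the generators `j₁ l` (`tau (j₁ l) = j₁ (T' l)`) and `j₂ x` (`tau (j₂ x) = j₂ x`).  So `tau` restricts to a ring homomorphism `N → N`
  which agrees with the identity on `ψN(K)` (elements `ψN x = i₂ (pw x)`).  `exists_smul` (`ε₁ := id`): `γ₀` with `tau a = γ₀ • a`.  `ρ₂ γ₀` acts trivially on `RatFunc k`: `i₂ (ρ₂ γ₀ • m) = γ₀ • i₂ m = tau (j₂ m) = i₂ m`, so it is `1` (`hB.ker`).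
  `i₁ (ρ₁ γ₀ • l) = tau (j₁ l) = j₁ (T' l) = i₁ (t • l)`, so `ρ₁ γ₀ = t` (`hL.ker` for `t⁻¹ * ρ₁ γ₀`).
-/

theorem exists_jx {p : ℕ} [hp : Fact p.Prime] {k : Type} [Field k] [CharP k p] {F : k[X]}
    [hF : Fact (Irreducible (AI.asPoly p F))] :
    ∃ j : RatFunc k →+* AI.EE p F,
      (∀ f : k[X], j (algebraMap k[X] (RatFunc k) f) = AI.ze p F f) ∧
      ∀ x, AI.tau p F (j x) = j x := by
  have h1 : Polynomial.eval₂RingHom ((AI.ze p F).comp (C : k →+* k[X])) (AI.ze p F X) =
      AI.ze p F := by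
    refine Polynomial.ringHom_ext (fun c => ?_) ?_
    · simp
    · simp
  have h2 : Function.Injective
      (Polynomial.eval₂RingHom ((AI.ze p F).comp (C : k →+* k[X])) (AI.ze p F X)) := by
    rw [h1]
    exact AI.ze_injective
  have h3 : ∀ f : k[X], ratLift ((AI.ze p F).comp (C : k →+* k[X])) (AI.ze p F X) h2
      (algebraMap k[X] (RatFunc k) f) = AI.ze p F f := by
    intro f
    rw [ratLift_alg]
    exact RingHom.congr_fun h1 f
  refine ⟨ratLift ((AI.ze p F).comp (C : k →+* k[X])) (AI.ze p F X) h2, h3, fun x => ?_⟩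
  have h4 : (AI.tau p F).comp (ratLift ((AI.ze p F).comp (C : k →+* k[X])) (AI.ze p F X) h2) =
      ratLift ((AI.ze p F).comp (C : k →+* k[X])) (AI.ze p F X) h2 := by
    refine ratHom_ext (fun c => ?_) ?_
    · rw [RingHom.comp_apply, ← RatFunc.algebraMap_C, h3, AI.tau_ze]
    · rw [RingHom.comp_apply, ← RatFunc.algebraMap_X, h3, AI.tau_ze]
  exact RingHom.congr_fun h4 x

theorem exists_gam {p : ℕ} [hp : Fact p.Prime] {k L A μ Γ : Type} [Field k] [CharP k p] [Field L]
    {F : k[X]} [hF : Fact (Irreducible (AI.asPoly p F))] [Group A] [Finite A]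
    [MulSemiringAction A L] [Group μ] [Finite μ] [MulSemiringAction μ (RatFunc k)] [Group Γ]
    [Finite Γ] {K : Type} [Field K] {ψ₁ : K →+* L} {ψ₂ : K →+* RatFunc k} (hL : IsG ψ₁ A ⊥)
    (hB : IsG ψ₂ μ ⊥) (j₁ : L →+* AI.EE p F) (j₂ : RatFunc k →+* AI.EE p F)
    (hj₂ : ∀ x, AI.tau p F (j₂ x) = j₂ x) (t : A) (ht : ∀ a, AI.tau p F (j₁ a) = j₁ (t • a))
    (N : Subfield (AI.EE p F)) [MulSemiringAction Γ N]
    (hN : N = Subfield.closure (Set.range j₁ ∪ Set.range j₂)) {ψN : K →+* N}
    (h : IsG ψN Γ ⊥) (i₁ : L →+* N) (i₂ : RatFunc k →+* N) (h₂ : i₂.comp ψ₂ = ψN)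
    (hi₁ : ∀ m, ((i₁ m : N) : AI.EE p F) = j₁ m) (hi₂ : ∀ m, ((i₂ m : N) : AI.EE p F) = j₂ m)
    (ρ₁ : Γ →* A) (ρ₂ : Γ →* μ) (hρ₁ : ∀ (γ : Γ) (m : L), γ • i₁ m = i₁ (ρ₁ γ • m))
    (hρ₂ : ∀ (γ : Γ) (m : RatFunc k), γ • i₂ m = i₂ (ρ₂ γ • m)) :
    ∃ γ₀ : Γ, (∀ a : N, ((γ₀ • a : N) : AI.EE p F) = AI.tau p F (a : AI.EE p F)) ∧
      ρ₂ γ₀ = 1 ∧ ρ₁ γ₀ = t := by
  have hmem : N ≤ N.comap (AI.tau p F) := by
    conv_lhs => rw [hN]
    rw [Subfield.closure_le]
    rintro a (⟨m, rfl⟩ | ⟨m, rfl⟩)
    · change AI.tau p F (j₁ m) ∈ N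
      rw [ht, ← hi₁]
      exact (i₁ _).2
    · change AI.tau p F (j₂ m) ∈ N
      rw [hj₂, ← hi₂]
      exact (i₂ _).2
  let ε₂ : N →+* N := ((AI.tau p F).comp N.subtype).codRestrict N (fun a => hmem a.2)
  have hε : ∀ a : N, ((ε₂ a : N) : AI.EE p F) = AI.tau p F (a : AI.EE p F) := fun a => rfl
  have hψN : ∀ x, ψN x = i₂ (ψ₂ x) := fun x => (RingHom.congr_fun h₂ x).symm
  have he : (RingHom.id N).comp ψN = ε₂.comp ψN := by
    refine RingHom.ext fun x => Subtype.ext ?_
    rw [RingHom.comp_apply, RingHom.comp_apply, hε, hψN, hi₂, hj₂, RingHom.id_apply, hi₂]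
  obtain ⟨γ₀, hγ⟩ := exists_smul h (RingHom.id N) ε₂ he
  have hγ' : ∀ a : N, ((γ₀ • a : N) : AI.EE p F) = AI.tau p F (a : AI.EE p F) := by
    intro a
    rw [← hε, hγ, RingHom.id_apply]
  refine ⟨γ₀, hγ', ?_, ?_⟩
  · rw [← Subgroup.mem_bot, ← hB.ker]
    intro m
    apply i₂.injective
    rw [← hρ₂]
    refine Subtype.ext ?_
    rw [hγ', hi₂, hj₂]
  · have h1 : t⁻¹ * ρ₁ γ₀ ∈ (⊥ : Subgroup A) := by
      rw [← hL.ker]
      intro l
      have h2 : ρ₁ γ₀ • l = t • l := by
        apply i₁.injective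
        rw [← hρ₁]
        refine Subtype.ext ?_
        rw [hγ', hi₁, ht, hi₁]
      rw [mul_smul, h2, inv_smul_smul]
    rw [Subgroup.mem_bot, inv_mul_eq_one] at h1
    exact h1.symm

end

end Pool.Agent.MP_1c8e06_ag.AK
end

section

set_option autoImplicit false

open Polynomial

namespace Pool.Agent.MP_1c8e06_ag.AK

noncomputable section

/-!
# Task V9e: embeddings of `L` for which `y ^ p - y` is an `e`-th power, `e = card Γ`

Proof.  `e := Nat.card Γ` is a power of `ℓ`, `(e : k) ≠ 0`.
  Case `a ≠ 0`: `b ∈ k` with `b ^ p - b = a ^ e` (the polynomial `X ^ p - X - C (a ^ e)` has a root, `IsAlgClosed.exists_root`); `b ∉ Fp p k`.  `ε.comp ψ = psi b` from `hg`.  `ε (ψ (qh X)) = psi b (X ^ p - X) = (b + t) ^ p - (b + t) = a ^ e - t + t ^ p` (characteristic `p`),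
  a power series with constant coefficient `a ^ e`: `exists_root_ps` (`AK/L1.lean`): a power series `r` with `r ^ e = ` it and constant coefficient `a`; `x' := r`.  `x' - C a` has order `1`: if `r = a + c₁ t + …` then the coefficient of `t` in `r ^ e` is `e a ^ (e-1) c₁ = -1`, so `c₁ ≠ 0`
  (another way: `r ^ e - a ^ e = (r - a) * u` with `u = ∑ r ^ i a ^ (e-1-i)` of constant coefficient `e a ^ (e-1) ≠ 0`, so the orders of `r - a` and of `r ^ e - a ^ e = -t + t ^ p` are equal).
  Case `a = 0`: `lemmaT` (`AK/L7.lean`) for `ψ₀ := psi 0`: `ε.comp ψ = (phi k e).comp (psi 0)`; `ε (ψ (qh X)) = phi k e (t ^ p - t) = t ^ (p e) - t ^ e = t ^ e * (-1 + t ^ ((p-1) e))`; `x' := t * r`, `r ^ e = -1 + t ^ ((p-1) e)` (`exists_root_ps` with `d ^ e = -1`):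
  order `1`.
  Constants: `psi_C`, `phi_C`.  (`qh p k X = algebraMap (X ^ p - X)`: `compR_X`; `psi_X`, `phi_tt`.)
-/

/-- A power series with nonzero constant coefficient has order `0`. -/
private theorem V9e_order_zero {k : Type} [Field k] (s : PowerSeries k)
    (hs : PowerSeries.constantCoeff s ≠ 0) : (HahnSeries.ofPowerSeries ℤ k s).order = 0 := by
  have h0 : (HahnSeries.ofPowerSeries ℤ k s).coeff 0 ≠ 0 := by
    rw [PowerSeries.coeff_coe, if_neg (lt_irrefl _)]
    simpa using hs
  have hne : HahnSeries.ofPowerSeries ℤ k s ≠ 0 := by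
    intro h
    rw [h] at h0
    exact h0 rfl
  apply le_antisymm
  · exact HahnSeries.order_le_of_coeff_ne_zero h0
  · by_contra hlt
    rw [not_le] at hlt
    have h1 := (HahnSeries.coeff_order_eq_zero.not.2 hne)
    apply h1
    rw [PowerSeries.coeff_coe, if_pos hlt]

/-- The order of `t * s` for a power series `s` with nonzero constant coefficient. -/
private theorem V9e_order_one {k : Type} [Field k] (s : PowerSeries k)
    (hs : PowerSeries.constantCoeff s ≠ 0) :
    (tt k * HahnSeries.ofPowerSeries ℤ k s).order = 1 := by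
  have hne : HahnSeries.ofPowerSeries ℤ k s ≠ 0 := by
    intro h
    have h2 : s = 0 := HahnSeries.ofPowerSeries_injective (by rw [h, map_zero])
    rw [h2, map_zero] at hs
    exact hs rfl
  have ht : tt k ≠ 0 := by
    rw [tt]
    exact HahnSeries.single_ne_zero one_ne_zero
  rw [order_mul_L ht hne, V9e_order_zero s hs, tt, HahnSeries.order_single one_ne_zero, add_zero]

theorem exists_epsL {p : ℕ} [hp : Fact p.Prime] {k L Γ : Type} [Field k] [IsAlgClosed k]
    [CharP k p] [Field L] [Group Γ] [Finite Γ] [MulSemiringAction Γ L] {ψ : RatFunc k →+* L}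
    (h : IsG ψ Γ ⊥) {ℓ : ℕ} [hℓ : Fact ℓ.Prime] (hℓk : (ℓ : k) ≠ 0) (hΓ : IsPGroup ℓ Γ)
    (hg : GoodS (Fp p k) ψ) (a : k) :
    ∃ (ε : L →+* LaurentSeries k) (x' : LaurentSeries k),
      (∀ c : k, ε (ψ (RatFunc.C c)) = HahnSeries.C c) ∧
      ε (ψ (qh p k RatFunc.X)) = x' ^ (Nat.card Γ) ∧ (x' - HahnSeries.C a).order = 1 := by
  obtain ⟨n, hn⟩ := IsPGroup.iff_card.1 hΓ
  have he : ((Nat.card Γ : ℕ) : k) ≠ 0 := by
    rw [hn, Nat.cast_pow]
    exact pow_ne_zero n hℓk
  have hpos : 0 < Nat.card Γ := Nat.card_pos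
  have hp1 : 1 < p := hp.out.one_lt
  have hqX : qh p k RatFunc.X = RatFunc.X ^ p - RatFunc.X := by
    rw [qh, compR_X, map_sub, map_pow, RatFunc.algebraMap_X]
  have hcc : ∀ (m : ℕ), 0 < m → PowerSeries.constantCoeff (PowerSeries.X ^ m : PowerSeries k) = 0 := by
    intro m hm
    rw [map_pow, PowerSeries.constantCoeff_X, zero_pow hm.ne']
  by_cases ha : a = 0
  · obtain ⟨ε, hε⟩ := lemmaT h hℓk hΓ (psi 0)
    have hx : ∀ x, ε (ψ x) = phi k (Nat.card Γ) (psi 0 x) := fun x => RingHom.congr_fun hε x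
    generalize Nat.card Γ = e at he hpos hn hx ⊢
    obtain ⟨d, hd⟩ := IsAlgClosed.exists_pow_nat_eq (-1 : k) hpos
    have hd0 : d ≠ 0 := by
      intro h0
      rw [h0, zero_pow hpos.ne'] at hd
      exact neg_ne_zero.2 one_ne_zero hd.symm
    have hep : 0 < e * (p - 1) := Nat.mul_pos hpos (by omega)
    obtain ⟨r, hr, hrd⟩ := exists_root_ps he (PowerSeries.X ^ (e * (p - 1)) - 1) d hd0 (by
      rw [map_sub, hcc _ hep, map_one, zero_sub, hd])
    refine ⟨ε, tt k * HahnSeries.ofPowerSeries ℤ k r, ?_, ?_, ?_⟩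
    · intro c
      rw [hx, psi_C, phi_C hpos]
    · have h1 : (HahnSeries.ofPowerSeries ℤ k r) ^ e = tt k ^ (e * (p - 1)) - 1 := by
        rw [← map_pow, hr, map_sub, map_pow, map_one, HahnSeries.ofPowerSeries_X, tt]
      have h2 : e * p = e + e * (p - 1) := by
        have h3 : p = 1 + (p - 1) := by omega
        conv_lhs => rw [h3]
        ring
      rw [hx, hqX, map_sub, map_pow, psi_X, map_zero, zero_add, map_sub, map_pow, phi_tt hpos,
        mul_pow, h1, ← pow_mul, h2, pow_add]
      ring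
    · rw [ha, map_zero, sub_zero]
      exact V9e_order_one r (by rw [hrd]; exact hd0)
  · generalize Nat.card Γ = e at he hpos hn ⊢
    obtain ⟨b, hb⟩ : ∃ b : k, b ^ p - b = a ^ e := by
      have hdeg : (Polynomial.X ^ p - Polynomial.X - Polynomial.C (a ^ e) : k[X]).degree ≠ 0 := by
        have h1 : (Polynomial.X ^ p - Polynomial.X - Polynomial.C (a ^ e) : k[X]).natDegree = p := by
          rw [natDegree_sub_C]
          exact FiniteField.X_pow_card_sub_X_natDegree_eq k hp1
        intro h2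
        have h3 : (Polynomial.X ^ p - Polynomial.X - Polynomial.C (a ^ e) : k[X]).natDegree = 0 :=
          natDegree_eq_of_degree_eq_some h2
        rw [h1] at h3
        omega
      obtain ⟨b, hb⟩ := IsAlgClosed.exists_root _ hdeg
      refine ⟨b, ?_⟩
      rw [Polynomial.IsRoot.def] at hb
      simpa [sub_eq_zero] using hb
    have hbF : b ∉ Fp p k := by
      intro h1
      have h2 : b ^ p = b := h1
      rw [h2, sub_self] at hb
      exact pow_ne_zero e ha hb.symm
    obtain ⟨ε, hε⟩ := hg b hbF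
    have hx : ∀ x, ε (ψ x) = psi b x := fun x => RingHom.congr_fun hε x
    obtain ⟨g, hge, hga⟩ := exists_root_ps he
      (PowerSeries.C (a ^ e) + (PowerSeries.X ^ p - PowerSeries.X)) a ha (by
        rw [map_add, map_sub, hcc _ hp.out.pos, PowerSeries.constantCoeff_X,
          PowerSeries.constantCoeff_C, sub_zero, add_zero])
    refine ⟨ε, HahnSeries.ofPowerSeries ℤ k g, ?_, ?_, ?_⟩
    · intro c
      rw [hx, psi_C]
    · have : CharP (LaurentSeries k) p :=
        charP_of_injective_ringHom (HahnSeries.C_injective (Γ := ℤ) (R := k)) p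
      have hf : HahnSeries.ofPowerSeries ℤ k
          (PowerSeries.C (a ^ e) + (PowerSeries.X ^ p - PowerSeries.X)) =
          HahnSeries.C (b ^ p - b) + (tt k ^ p - tt k) := by
        rw [hb, map_add, HahnSeries.ofPowerSeries_C, map_sub, map_pow (HahnSeries.ofPowerSeries ℤ k),
          HahnSeries.ofPowerSeries_X, tt]
      rw [← map_pow, hge, hf, hx, hqX, map_sub, map_pow, psi_X, add_pow_char, map_sub, map_pow]
      ring
    · obtain ⟨s, hs⟩ : (PowerSeries.X : PowerSeries k) ∣ g - PowerSeries.C a := by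
        rw [PowerSeries.X_dvd_iff, map_sub, hga, PowerSeries.constantCoeff_C, sub_self]
      obtain ⟨u, hu⟩ := sub_dvd_pow_sub_pow g (PowerSeries.C a) e
      have h1 : PowerSeries.X * (s * u) = (PowerSeries.X : PowerSeries k) *
          (PowerSeries.X ^ (p - 1) - 1) := by
        rw [← mul_assoc, ← hs, ← hu, hge, map_pow, add_sub_cancel_left, mul_sub, mul_one,
          ← pow_succ', Nat.sub_add_cancel hp.out.pos]
      have h2 : s * u = PowerSeries.X ^ (p - 1) - 1 := mul_left_cancel₀ PowerSeries.X_ne_zero h1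
      have h3 := congrArg PowerSeries.constantCoeff h2
      rw [map_mul, map_sub, hcc _ (by omega), map_one, zero_sub] at h3
      have h4 : PowerSeries.constantCoeff s ≠ 0 := by
        intro h5
        rw [h5, zero_mul] at h3
        exact neg_ne_zero.2 one_ne_zero h3.symm
      have h6 : HahnSeries.ofPowerSeries ℤ k g - HahnSeries.C a =
          tt k * HahnSeries.ofPowerSeries ℤ k s := by
        rw [← HahnSeries.ofPowerSeries_C, ← map_sub, hs, map_mul, HahnSeries.ofPowerSeries_X, tt]
      rw [h6]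
      exact V9e_order_one s h4

end

end Pool.Agent.MP_1c8e06_ag.AK
end

section

set_option autoImplicit false

open Polynomial
open scoped Classical

namespace Pool.Agent.MP_1c8e06_ag.RC

noncomputable section

/-!
# Task T1: the two charts

Proof.  `b = false`: `th k false = algebraMap k[X] (RatFunc k)` (`th_false`), transport the Mathlib instance
(`IsFractionRing k[X] (RatFunc k)`; the type `Pol k b` unfolds to `k[X]`, so the elements and
`nonZeroDivisors` are the same).
`b = true`: injective: `aeval X⁻¹ f = 0` and `f ≠ 0`: `X ^ f.natDegree * aeval X⁻¹ f = aeval X f.reverse`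
(`Polynomial.eval₂_reverse_mul_pow` or `reverse`/`aeval_def`), and `f.reverse ≠ 0`.  Surjective: an element of
`RatFunc k` is `aeval X P / aeval X Q`; with `N = max` of the degrees,
`(X⁻¹) ^ N * aeval X P = aeval X⁻¹ (P.reverse * X ^ (N - P.natDegree))`, the same for `Q`.  It may be shorter to use the
`k`-algebra automorphism of `RatFunc k` with `X ↦ X⁻¹`, if it is convenient, or `IsFractionRing` of a composition
with a ring equivalence.
The second statement is immediate: `integralClosure.isDedekindDomain (Pol k b) (RatFunc k) L`.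
The third: `integralClosure.isFractionRing_of_finite_extension (RatFunc k) L`.
-/

private theorem T1_aeval_X {k : Type} [Field k] (f : k[X]) :
    Polynomial.aeval (RatFunc.X : RatFunc k) f = algebraMap k[X] (RatFunc k) f := by
  rw [← RatFunc.algebraMap_X, Polynomial.aeval_algebraMap_apply, Polynomial.aeval_X_left_apply]

private theorem T1_inj (k : Type) [Field k] (b : Bool) : Function.Injective (th k b) := by
  rw [injective_iff_map_eq_zero]
  intro f hf
  cases b with
  | false =>
    have h1 : algebraMap k[X] (RatFunc k) f = 0 := by rw [← th_false]; exact hf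
    exact (map_eq_zero_iff _ (IsFractionRing.injective k[X] (RatFunc k))).1 h1
  | true =>
    have hX : (RatFunc.X : RatFunc k) ≠ 0 := RatFunc.X_ne_zero
    letI : Invertible ((RatFunc.X : RatFunc k)⁻¹) := invertibleOfNonzero (inv_ne_zero hX)
    have h1 : Polynomial.eval₂ (algebraMap k (RatFunc k)) ((RatFunc.X : RatFunc k)⁻¹) f = 0 := hf
    rw [← Polynomial.eval₂_reverse_eq_zero_iff, invOf_eq_inv, inv_inv] at h1
    have h2 : algebraMap k[X] (RatFunc k) (Polynomial.reverse f) = 0 := by
      rw [← T1_aeval_X]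
      exact h1
    have h3 := (map_eq_zero_iff _ (IsFractionRing.injective k[X] (RatFunc k))).1 h2
    exact (Polynomial.reverse_eq_zero).1 h3

private theorem T1_surj (k : Type) [Field k] (b : Bool) (z : RatFunc k) :
    ∃ n d : Pol k b, th k b n / th k b d = z := by
  cases b with
  | false =>
    obtain ⟨n, d, -, h⟩ := IsFractionRing.div_surjective (A := k[X]) z
    exact ⟨n, d, by rw [← h, ← th_false, ← th_false]⟩
  | true =>
    let φ : RatFunc k →+* RatFunc k :=
      IsFractionRing.lift (A := k[X]) (K := RatFunc k) (g := th k true) (T1_inj k true)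
    have hφ : ∀ f : k[X], φ (algebraMap k[X] (RatFunc k) f) = th k true f :=
      fun f => IsFractionRing.lift_algebraMap _ f
    have hφC : ∀ c : k, φ (algebraMap k (RatFunc k) c) = algebraMap k (RatFunc k) c := by
      intro c
      have h1 : algebraMap k (RatFunc k) c = algebraMap k[X] (RatFunc k) (Polynomial.C c) := by
        rw [← Polynomial.algebraMap_eq, ← IsScalarTower.algebraMap_apply]
      conv_lhs => rw [h1, hφ]
      change Polynomial.aeval (var k true) (Polynomial.C c) = _
      rw [Polynomial.aeval_C]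
    have hφX : φ RatFunc.X = (RatFunc.X)⁻¹ := by
      rw [← RatFunc.algebraMap_X, hφ]
      change Polynomial.aeval (var k true) Polynomial.X = _
      rw [Polynomial.aeval_X, RatFunc.algebraMap_X]
      rfl
    have hφφ : φ.comp φ = RingHom.id (RatFunc k) := by
      apply IsFractionRing.ringHom_ext (A := k[X])
      intro f
      rw [RingHom.comp_apply, hφ, RingHom.id_apply]
      change φ (Polynomial.aeval (var k true) f) = _
      induction f using Polynomial.induction_on' with
      | add p q hp hq => rw [map_add, map_add, hp, hq, map_add]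
      | monomial n a =>
        rw [← Polynomial.C_mul_X_pow_eq_monomial, map_mul, Polynomial.aeval_C, map_pow,
          Polynomial.aeval_X, map_mul, hφC, map_pow]
        change _ * (φ (RatFunc.X)⁻¹) ^ n = _
        rw [map_inv₀, hφX, inv_inv, map_mul, map_pow, RatFunc.algebraMap_X,
          ← Polynomial.algebraMap_eq, ← IsScalarTower.algebraMap_apply]
    obtain ⟨n, d, -, h⟩ := IsFractionRing.div_surjective (A := k[X]) (φ z)
    refine ⟨n, d, ?_⟩
    have h2 : φ (φ z) = z := RingHom.congr_fun hφφ z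
    rw [← h2, ← h, map_div₀, hφ, hφ]

instance instFrac (k : Type) [Field k] (b : Bool) : IsFractionRing (Pol k b) (RatFunc k) := by
  haveI : FaithfulSMul (Pol k b) (RatFunc k) :=
    (faithfulSMul_iff_algebraMap_injective _ _).2 (T1_inj k b)
  exact IsFractionRing.of_field (Pol k b) (RatFunc k) fun z => by
    obtain ⟨n, d, h⟩ := T1_surj k b z
    exact ⟨n, d, h.symm⟩

instance instDed (k : Type) [Field k] (b : Bool) (L : Type) [Field L] [Algebra (RatFunc k) L]
    [FiniteDimensional (RatFunc k) L] [Algebra.IsSeparable (RatFunc k) L] :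
    IsDedekindDomain (BL k b L) :=
  integralClosure.isDedekindDomain (Pol k b) (RatFunc k) L

instance instFracL (k : Type) [Field k] (b : Bool) (L : Type) [Field L] [Algebra (RatFunc k) L]
    [FiniteDimensional (RatFunc k) L] : IsFractionRing (BL k b L) L :=
  integralClosure.isFractionRing_of_finite_extension (RatFunc k) L

/-- `BL` is not a field. -/
theorem BL_not_field (k : Type) [Field k] (b : Bool) (L : Type) [Field L] [Algebra (RatFunc k) L]
    [FiniteDimensional (RatFunc k) L] : ¬ IsField (BL k b L) := by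
  intro h
  have hinj : Function.Injective (algebraMap (Pol k b) (BL k b L)) := by
    intro x y hxy
    have h1 := congrArg (fun z : BL k b L => (z : L)) hxy
    have h2 : algebraMap (RatFunc k) L (th k b x) = algebraMap (RatFunc k) L (th k b y) := h1
    exact T1_inj k b ((algebraMap (RatFunc k) L).injective h2)
  have h3 : IsField (Pol k b) := isField_of_isIntegral_of_isField hinj h
  exact Polynomial.not_isField k h3

/-- `BL` is finite over the chart. -/
instance instFin (k : Type) [Field k] (b : Bool) (L : Type) [Field L] [Algebra (RatFunc k) L]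
    [FiniteDimensional (RatFunc k) L] [Algebra.IsSeparable (RatFunc k) L] :
    Module.Finite (Pol k b) (BL k b L) :=
  IsIntegralClosure.finite (Pol k b) (RatFunc k) L (BL k b L)

/-- The invariants of `BL` are the chart. -/
theorem BL_inv {k : Type} [Field k] (b : Bool) {L : Type} [Field L] [Algebra (RatFunc k) L]
    [FiniteDimensional (RatFunc k) L] [IsGalois (RatFunc k) L] (x : L)
    (hx : IsIntegral (Pol k b) x) (h : ∀ σ : L ≃ₐ[RatFunc k] L, σ x = x) :
    ∃ f : Pol k b, algebraMap (RatFunc k) L (th k b f) = x := by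
  obtain ⟨y, rfl⟩ := (IsGalois.mem_range_algebraMap_iff_fixed x).2 h
  have hy : IsIntegral (Pol k b) y :=
    (isIntegral_algebraMap_iff (algebraMap (RatFunc k) L).injective).1 hx
  obtain ⟨f, hf⟩ := IsIntegrallyClosed.isIntegral_iff.1 hy
  exact ⟨f, by rw [← hf]; rfl⟩

end

end Pool.Agent.MP_1c8e06_ag.RC
end

section

set_option autoImplicit false

open Polynomial
open scoped Classical

namespace Pool.Agent.MP_1c8e06_ag.RC

noncomputable section

/-!
# Task A3: trivial inertia over the affine line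

`B := BL k false L` (integral closure of `k[X]` in `L`).  Let `σ ≠ 1` and suppose that the ideal generated by the
`σ b - b` is not `B`; let `M` be a maximal ideal which contains it (`Ideal.exists_le_maximal`).  `O` from
`exists_of_maximal` (`T2.lean`, with `BL_not_field`): `B ⊆ O`, `b ∈ M ↔ O.valuation b < 1`.  `O` contains the constants and `X`
(images of the chart: `th_false`, `C c` and `X`), so `O.inertiaSubgroup = ⊥` by `h`.
`σ` is in the decomposition group (`dec_iff`): for `a ∈ O` write `a * d = n`, `n d : B`, `d ∉ M` (`mem_center`); then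
`σ a * σ d = σ n` and `σ d = d + (σ d - d) ∉ M`, so `σ d` is a unit of `O` and `σ a = σ n / σ d ∈ O`.  Conversely:
`σ a ∈ O` implies `a ∈ O`: the same argument for `σ⁻¹` (`σ⁻¹ b - b = -(σ c - c)` with `c = σ⁻¹ b`).
`σ` is in the inertia group (`in_iff`): `σ a - a = (σ n * d - n * σ d) / (d * σ d)` and
`σ n * d - n * σ d = (σ n - n) * d - n * (σ d - d)` has valuation `< 1`.
Hence `σ = 1` (`Subgroup.mem_bot`, `Subtype.ext_iff`).
-/

/-- The displacement of `τ` on `O` is in the maximal ideal if it is on `B`. -/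
private theorem A3_disp {k : Type} [Field k] {L : Type} [Field L] [Algebra (RatFunc k) L]
    [FiniteDimensional (RatFunc k) L] [IsGalois (RatFunc k) L] (O : ValuationSubring L)
    (hO : ∀ b : BL k false L, algebraMap (BL k false L) L b ∈ O) (hOt : O ≠ ⊤)
    (τ : L ≃ₐ[RatFunc k] L)
    (hτ : ∀ b : BL k false L, O.valuation (τ (b : L) - (b : L)) < 1) (a : L) (ha : a ∈ O) :
    O.valuation (τ a - a) < 1 := by
  obtain ⟨n, d, hd, hn⟩ := mem_center (B := BL k false L) O hO hOt a ha
  have hd' : O.valuation (d : L) = 1 := hd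
  have hn' : a * (d : L) = (n : L) := hn
  have hτn : τ a * τ (d : L) = τ (n : L) := by rw [← map_mul, hn']
  have h1 : O.valuation (τ (d : L)) = 1 := by
    have e : τ (d : L) = (d : L) + (τ (d : L) - (d : L)) := by ring
    have h2 : O.valuation (τ (d : L) - (d : L)) < O.valuation (d : L) := by
      rw [hd']
      exact hτ d
    rw [e, Valuation.map_add_eq_of_lt_left _ h2, hd']
  have h3 : (τ a - a) * ((d : L) * τ (d : L)) =
      (τ (n : L) - (n : L)) * (d : L) - (n : L) * (τ (d : L) - (d : L)) := by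
    rw [← hτn, ← hn']
    ring
  have h4 : O.valuation ((τ a - a) * ((d : L) * τ (d : L))) = O.valuation (τ a - a) := by
    rw [map_mul, map_mul, hd', h1, mul_one, mul_one]
  rw [← h4, h3]
  have hvn : O.valuation (n : L) ≤ 1 := (ValuationSubring.valuation_le_one_iff O _).2 (hO n)
  refine lt_of_le_of_lt (Valuation.map_sub _ _ _) (max_lt ?_ ?_)
  · rw [map_mul, hd', mul_one]
    exact hτ n
  · rw [map_mul]
    exact mul_lt_one_of_nonneg_of_lt_one_right hvn zero_le (hτ d)

theorem affine_span {k : Type} [Field k] {L : Type} [Field L] [Algebra (RatFunc k) L]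
    [FiniteDimensional (RatFunc k) L] [IsGalois (RatFunc k) L]
    (h : ∀ O : ValuationSubring L,
      (∀ c : k, algebraMap (RatFunc k) L (algebraMap k (RatFunc k) c) ∈ O) →
      algebraMap (RatFunc k) L RatFunc.X ∈ O → O.inertiaSubgroup (RatFunc k) = ⊥)
    (σ : L ≃ₐ[RatFunc k] L) (hσ : σ ≠ 1) :
    Ideal.span (Set.range fun x : BL k false L => actB false σ x - x) = ⊤ := by
  by_contra hne
  obtain ⟨M, hM, hle⟩ := Ideal.exists_le_maximal _ hne
  obtain ⟨O, hO, hOt, hmem⟩ := exists_of_maximal (L := L) M hM (BL_not_field k false L)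
  have hch : ∀ f : k[X], algebraMap (RatFunc k) L (algebraMap k[X] (RatFunc k) f) ∈ O := by
    intro f
    have h1 := hO (algebraMap (Pol k false) (BL k false L) f)
    have h2 : algebraMap (BL k false L) L (algebraMap (Pol k false) (BL k false L) f) =
        algebraMap (RatFunc k) L (algebraMap k[X] (RatFunc k) f) := by
      rw [← th_false]
      rfl
    rwa [h2] at h1
  have hc : ∀ c : k, algebraMap (RatFunc k) L (algebraMap k (RatFunc k) c) ∈ O := by
    intro c
    have h1 := hch (C c)
    rwa [RatFunc.algebraMap_C] at h1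
  have hX : algebraMap (RatFunc k) L RatFunc.X ∈ O := by
    have h1 := hch X
    rwa [RatFunc.algebraMap_X] at h1
  have hbot := h O hc hX
  have hσM : ∀ b : BL k false L, O.valuation (σ (b : L) - (b : L)) < 1 := by
    intro b
    have h1 : actB false σ b - b ∈ M := hle (Ideal.subset_span ⟨b, rfl⟩)
    exact (hmem _).1 h1
  have hσM' : ∀ b : BL k false L, O.valuation (σ⁻¹ (b : L) - (b : L)) < 1 := by
    intro b
    have h1 := hσM (actB false σ⁻¹ b)
    rw [actB_coe] at h1
    have h2 : σ (σ⁻¹ (b : L)) = (b : L) := by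
      rw [← AlgEquiv.mul_apply, mul_inv_cancel, AlgEquiv.one_apply]
    rw [h2, Valuation.map_sub_swap] at h1
    exact h1
  have hin : ∀ τ : L ≃ₐ[RatFunc k] L,
      (∀ b : BL k false L, O.valuation (τ (b : L) - (b : L)) < 1) → ∀ a ∈ O, τ a ∈ O := by
    intro τ hτ a ha
    have h1 : τ a - a ∈ O := (ValuationSubring.valuation_le_one_iff O _).1
      (A3_disp O hO hOt τ hτ a ha).le
    have h2 := O.add_mem _ _ h1 ha
    rwa [sub_add_cancel] at h2
  have hdec : σ ∈ O.decompositionSubgroup (RatFunc k) := by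
    rw [dec_iff]
    intro a
    refine ⟨fun h1 => ?_, hin σ hσM a⟩
    have h2 := hin σ⁻¹ hσM' (σ a) h1
    rwa [← AlgEquiv.mul_apply, inv_mul_cancel, AlgEquiv.one_apply] at h2
  have hinert := (in_iff O σ hdec).2 fun a ha => A3_disp O hO hOt σ hσM a ha
  rw [hbot, Subgroup.mem_bot] at hinert
  exact hσ (congrArg Subtype.val hinert)

end

end Pool.Agent.MP_1c8e06_ag.RC
end
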