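import Pool.Agent.Lib.MP_1c8e06_ag.RC.Defs
import Pool.Agent.Lib.MP_1c8e06_ag.Mg.G036
import Pool.Agent.Lib.MP_1c8e06_ag.Mg.G034

section

set_option autoImplicit false

open Polynomial
open scoped Classical

namespace Pool.Agent.MP_1c8e06_ag.RC

noncomputable section

/-!
# Task A4: Galois coordinates (general)

For `σ ≠ 1` there are finitely many `a_j`, `b_j` with `∑ a_j (b_j - σ b_j) = 1`
(`Ideal.mem_span_range_iff_exists_fun` or `Submodule.mem_span_range`..., `1 ∈ span`, with the sign changed).  The system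
`(a_j, b_j)_j, (-∑ a_j σ b_j, 1)` satisfies `∑ x y = 1`, `∑ x σ(y) = 0`.
By induction over a finite set `s` of elements `≠ 1`: there are a finite type `ι` and `x y : ι → B` with `∑ x y = 1` and
`∑ x σ(y) = 0` for all `σ ∈ s`: the system for `s ∪ {σ}` is the product system on `ι × ι'`, `x (i, i') = x i * x' i'`,
`y (i, i') = y i * y' i'`: `∑ x τ(y) = (∑ x τ(y)) (∑ x' τ(y'))` (`Fintype.sum_mul_sum` / `Finset.sum_product`).
-/

private theorem A4_one {B : Type} [CommRing B] (φ : B →+* B)
    (h : Ideal.span (Set.range fun b => φ b - b) = ⊤) :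
    ∃ (ι : Type) (_ : Fintype ι) (x y : ι → B),
      ∑ i, x i * y i = 1 ∧ ∑ i, x i * φ (y i) = 0 := by
  have h1 : (1 : B) ∈ Ideal.span (Set.range fun b => φ b - b) := by
    rw [h]
    exact Submodule.mem_top
  rw [Finsupp.mem_ideal_span_range_iff_exists_finsupp] at h1
  obtain ⟨c, hc⟩ := h1
  rw [Finsupp.sum] at hc
  have hc' : ∑ b : c.support, c b * (φ b - b) = 1 := by
    rw [← hc]
    exact Finset.sum_coe_sort c.support (fun b => c b * (φ b - b))
  refine ⟨Option c.support, inferInstance,
    fun o => o.elim (∑ b : c.support, c b * φ b) (fun b => - c b),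
    fun o => o.elim 1 (fun b => (b : B)), ?_, ?_⟩
  · rw [Fintype.sum_option]
    simp only [Option.elim_none, Option.elim_some, mul_one]
    rw [← Finset.sum_add_distrib, ← hc']
    refine Finset.sum_congr rfl fun b _ => ?_
    ring
  · rw [Fintype.sum_option]
    simp only [Option.elim_none, Option.elim_some, map_one, mul_one]
    rw [← Finset.sum_add_distrib]
    refine Finset.sum_eq_zero fun b _ => ?_
    ring

private theorem A4_prod {B : Type} [CommRing B] (φ : B →+* B) {ι κ : Type} [Fintype ι]
    [Fintype κ] (x y : ι → B) (x' y' : κ → B) :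
    ∑ p : ι × κ, (x p.1 * x' p.2) * φ (y p.1 * y' p.2) =
      (∑ i, x i * φ (y i)) * ∑ j, x' j * φ (y' j) := by
  rw [Fintype.sum_mul_sum, Fintype.sum_prod_type]
  refine Finset.sum_congr rfl fun i _ => Finset.sum_congr rfl fun j _ => ?_
  rw [map_mul]
  ring

private theorem A4_fin {B : Type} [CommRing B] {Γ : Type} [Group Γ]
    (act : Γ →* (B →+* B))
    (h : ∀ σ : Γ, σ ≠ 1 → Ideal.span (Set.range fun b => act σ b - b) = ⊤) (s : Finset Γ) :
    ∃ (ι : Type) (_ : Fintype ι) (x y : ι → B), ∑ i, x i * y i = 1 ∧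
      ∀ σ ∈ s, σ ≠ 1 → ∑ i, x i * act σ (y i) = 0 := by
  induction s using Finset.induction_on with
  | empty => exact ⟨Unit, inferInstance, fun _ => 1, fun _ => 1, by simp, by simp⟩
  | insert σ s _ ih =>
    obtain ⟨ι, hι, x, y, h1, h2⟩ := ih
    by_cases hσ : σ = 1
    · refine ⟨ι, hι, x, y, h1, ?_⟩
      intro τ hτ hτ1
      rcases Finset.mem_insert.1 hτ with rfl | h3
      · exact absurd hσ hτ1
      · exact h2 τ h3 hτ1
    · obtain ⟨κ, hκ, x', y', h3, h4⟩ := A4_one (act σ) (h σ hσ)
      refine ⟨ι × κ, inferInstance, fun p => x p.1 * x' p.2, fun p => y p.1 * y' p.2, ?_, ?_⟩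
      · have := A4_prod (RingHom.id B) x y x' y'
        simp only [RingHom.id_apply] at this
        rw [this, h1, h3, one_mul]
      · intro τ hτ hτ1
        rw [A4_prod (act τ) x y x' y']
        rcases Finset.mem_insert.1 hτ with rfl | h5
        · rw [h4, mul_zero]
        · rw [h2 τ h5 hτ1, zero_mul]

theorem exists_coords {B : Type} [CommRing B] {Γ : Type} [Group Γ] [Fintype Γ]
    (act : Γ →* (B →+* B))
    (h : ∀ σ : Γ, σ ≠ 1 → Ideal.span (Set.range fun b => act σ b - b) = ⊤) :
    ∃ (ι : Type) (_ : Fintype ι) (x y : ι → B), ∀ σ : Γ,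
      ∑ i, x i * act σ (y i) = if σ = 1 then 1 else 0 := by
  obtain ⟨ι, hι, x, y, h1, h2⟩ := A4_fin act h Finset.univ
  refine ⟨ι, hι, x, y, fun σ => ?_⟩
  by_cases hσ : σ = 1
  · subst hσ
    rw [if_pos rfl, map_one]
    exact h1
  · rw [if_neg hσ]
    exact h2 σ (Finset.mem_univ σ) hσ

end

end Pool.Agent.MP_1c8e06_ag.RC
end

section

set_option autoImplicit false

open Polynomial
open scoped Classical

namespace Pool.Agent.MP_1c8e06_ag.RC

noncomputable section

/-!
# Task T3: a place over infinity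

Let `C := BL k true L` (integral closure of the chart with variable `X⁻¹`), a Dedekind domain with fraction field `L`
(`T1.lean`), `O` a place over infinity (`Inf O`).  Use `T2.lean` with `B := C`.
Proofs.
`inf_int`: `O` contains the image of the chart (`th k true f` is a polynomial in `X⁻¹` with coefficients in `k`:
`Polynomial.aeval_eq_sum_range` or induction, `Inf.const`, `Inf.sinv`), and `O` is integrally closed in `L`
(Mathlib: valuation rings are integrally closed; e.g. `O.valuation.Integers.mem_of_integral`, or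
`IsIntegrallyClosed O` with `IsFractionRing O L`: `IsIntegrallyClosed.isIntegral_iff`; the element is integral over
`Pol k true`, hence over the subring `O`, `IsIntegral.map` / `IsIntegral.tower_top`).
`inf_ne_top`: `Inf.pole`.  `inf_sinv_lt`: `X⁻¹ ∈ O` is not a unit (`val_lt_one_iff`, `(X⁻¹)⁻¹ = X ∉ O`).
`inf_arch1`, `inf_arch2`: `arch1`, `arch2` with `s = X⁻¹`, and `X * X⁻¹ = 1`.
`inf_units`: the constants `≠ 0` are units of `O`.
-/

section
variable {k : Type} [Field k] {L : Type} [Field L] [Algebra (RatFunc k) L]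
  [FiniteDimensional (RatFunc k) L] [Algebra.IsSeparable (RatFunc k) L]

omit [FiniteDimensional (RatFunc k) L] [Algebra.IsSeparable (RatFunc k) L] in
private theorem T3_mem (O : ValuationSubring L) (hO : Inf k O) (f : k[X]) :
    algebraMap (RatFunc k) L (Polynomial.aeval (var k true) f) ∈ O := by
  induction f using Polynomial.induction_on' with
  | add p q hp hq =>
    rw [map_add, map_add]
    exact add_mem hp hq
  | monomial n a =>
    rw [Polynomial.aeval_monomial, map_mul, map_pow]
    exact mul_mem (hO.const a) (pow_mem hO.sinv n)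

omit [FiniteDimensional (RatFunc k) L] [Algebra.IsSeparable (RatFunc k) L] in
theorem inf_int (O : ValuationSubring L) (hO : Inf k O) (x : L) (hx : IsIntegral (Pol k true) x) :
    x ∈ O := by
  have hmem : ∀ f : Pol k true, algebraMap (Pol k true) L f ∈ O := fun f => T3_mem O hO f
  let φ : Pol k true →+* O := (algebraMap (Pol k true) L).codRestrict O hmem
  have hφ : (algebraMap O L).comp φ = algebraMap (Pol k true) L := RingHom.ext fun f => rfl
  have hint : IsIntegral O x := by
    obtain ⟨p, hp, he⟩ := hx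
    refine ⟨p.map φ, hp.map φ, ?_⟩
    rw [Polynomial.eval₂_map, hφ]
    exact he
  have hI : O.valuation.Integers O :=
    { hom_inj := Subtype.coe_injective
      map_le_one := fun a => O.valuation_le_one a
      exists_of_le_one := fun {r} hr => ⟨⟨r, (O.valuation_le_one_iff r).1 hr⟩, rfl⟩ }
  have h := hI.mem_of_integral hint
  exact (O.valuation_le_one_iff x).1 h

omit [FiniteDimensional (RatFunc k) L] [Algebra.IsSeparable (RatFunc k) L] in
theorem inf_ne_top (O : ValuationSubring L) (hO : Inf k O) : O ≠ ⊤ := by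
  intro h
  apply hO.pole
  rw [h]
  exact ValuationSubring.mem_top _

omit [FiniteDimensional (RatFunc k) L] [Algebra.IsSeparable (RatFunc k) L] in
theorem inf_sinv_lt (O : ValuationSubring L) (hO : Inf k O) :
    O.valuation (algebraMap (RatFunc k) L (RatFunc.X)⁻¹) < 1 := by
  rw [val_lt_one_iff]
  refine ⟨hO.sinv, Or.inr ?_⟩
  rw [← map_inv₀, inv_inv]
  exact hO.pole

omit [FiniteDimensional (RatFunc k) L] [Algebra.IsSeparable (RatFunc k) L] in
theorem inf_units (O : ValuationSubring L) (hO : Inf k O) (c : k) (hc : c ≠ 0) :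
    O.valuation (cs L c) = 1 := by
  have h1 : O.valuation (cs L c) ≤ 1 := (O.valuation_le_one_iff _).2 (hO.const c)
  have h2 : O.valuation (cs L c⁻¹) ≤ 1 := (O.valuation_le_one_iff _).2 (hO.const c⁻¹)
  have h3 : O.valuation (cs L c) * O.valuation (cs L c⁻¹) = 1 := by
    rw [← map_mul]
    have : cs L c * cs L c⁻¹ = 1 := by
      unfold cs
      rw [← map_mul, ← map_mul, mul_inv_cancel₀ hc, map_one, map_one]
    rw [this, map_one]
  refine le_antisymm h1 ?_
  calc (1 : O.ValueGroup) = O.valuation (cs L c) * O.valuation (cs L c⁻¹) := h3.symm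
    _ ≤ O.valuation (cs L c) * 1 := by gcongr
    _ = O.valuation (cs L c) := mul_one _

theorem inf_arch1 (O : ValuationSubring L) (hO : Inf k O) (a : L) :
    ∃ n : ℕ, a * (algebraMap (RatFunc k) L (RatFunc.X)⁻¹) ^ n ∈ O :=
  arch1 (B := BL k true L) O (fun b => inf_int O hO b b.2) (inf_ne_top O hO) _
    (inf_sinv_lt O hO) a

theorem inf_arch2 (O : ValuationSubring L) (hO : Inf k O) (a : L) (ha : O.valuation a < 1) :
    ∃ n : ℕ, xL k L * a ^ n ∈ O := by
  have hs0 : algebraMap (RatFunc k) L (RatFunc.X)⁻¹ ≠ 0 := by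
    rw [Ne, map_eq_zero, inv_eq_zero]
    exact RatFunc.X_ne_zero
  have h := arch2 (B := BL k true L) O (fun b => inf_int O hO b b.2) (inf_ne_top O hO)
    (algebraMap (RatFunc k) L (RatFunc.X)⁻¹) hs0 a ha
  rw [← map_inv₀, inv_inv] at h
  exact h

end

end

end Pool.Agent.MP_1c8e06_ag.RC
end

section

set_option autoImplicit false

open Polynomial
open scoped Classical

namespace Pool.Agent.MP_1c8e06_ag.RC

noncomputable section

/-!
# Task T6: the valuation at infinity of the ground field

`rat_inf`: every `r ≠ 0` in `RatFunc k` is `X ^ (-n) * f(X⁻¹) / g(X⁻¹)` with `n : ℤ`, `f(0) ≠ 0 ≠ g(0)`: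
`r = P / Q` (`RatFunc.num`, `RatFunc.denom`), `P(X) = X ^ P.natDegree * P.reverse(X⁻¹)`
(`Polynomial.eval₂_reverse_mul_pow` or `Polynomial.reverse` lemmas), the constant coefficient of `P.reverse` is the leading
coefficient of `P` (`coeff_zero_reverse`).
`rat_iff`: write `r` as in `rat_inf`.
(1) `f(X⁻¹)` and `g(X⁻¹)` are units of `O`: `f(X⁻¹) - cs (f.coeff 0)` is `X⁻¹` times an element of `O`
(`inf_sinv_lt`, `inf_units`), so `X ^ N * r ∈ O` iff `X ^ (N - n) ∈ O` iff `N ≤ n` (`zpow`; `X ∉ O`, `X⁻¹ ∈ O`).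
(2) In `LaurentSeries k`: `kap X = single (-1) 1` (`kap_algebraMap`, `AI.zinv_X`), so `kap (X⁻¹) = single 1 1` and
`kap (f(X⁻¹))` is the power series `f`, a unit of `k⟦s⟧`; so `kap r = s ^ n * u` with
`u` a unit power series, and its coefficients below `N` vanish iff `N ≤ n` (the coefficient of `s ^ n` is not `0`).  The
orders can be handled by `HahnSeries.order` (`LaurentSeries k` is a domain: `HahnSeries.order_mul`) or directly.
`r = 0`: both sides are true.
-/

private theorem T6_th_true {k : Type} [Field k] (f : k[X]) :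
    th k true f = Polynomial.aeval ((RatFunc.X : RatFunc k)⁻¹) f := rfl

private theorem T6_rev {k : Type} [Field k] (P : k[X]) :
    th k true P.reverse * (RatFunc.X : RatFunc k) ^ P.natDegree = algebraMap k[X] (RatFunc k) P := by
  let _ : Invertible (RatFunc.X : RatFunc k) := invertibleOfNonzero RatFunc.X_ne_zero
  have h := Polynomial.eval₂_reverse_mul_pow (algebraMap k (RatFunc k)) (RatFunc.X : RatFunc k) P
  rw [invOf_eq_inv] at h
  rw [T6_th_true, Polynomial.aeval_def, h, ← th_false]
  rfl

theorem rat_inf {k : Type} [Field k] (r : RatFunc k) (hr : r ≠ 0) :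
    ∃ (n : ℤ) (f g : Pol k true), Polynomial.coeff (R := k) f 0 ≠ 0 ∧
      Polynomial.coeff (R := k) g 0 ≠ 0 ∧
      r * th k true g = ((RatFunc.X : RatFunc k)⁻¹) ^ n * th k true f := by
  have hX : (RatFunc.X : RatFunc k) ≠ 0 := RatFunc.X_ne_zero
  have hP : r.num ≠ 0 := RatFunc.num_ne_zero hr
  have hQ : r.denom ≠ 0 := RatFunc.denom_ne_zero r
  refine ⟨(r.denom.natDegree : ℤ) - (r.num.natDegree : ℤ), r.num.reverse, r.denom.reverse, ?_, ?_, ?_⟩
  · rw [Polynomial.coeff_zero_reverse]
    exact Polynomial.leadingCoeff_ne_zero.2 hP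
  · rw [Polynomial.coeff_zero_reverse]
    exact Polynomial.leadingCoeff_ne_zero.2 hQ
  · have h1 := T6_rev r.num
    have h2 := T6_rev r.denom
    have h3 : r * algebraMap k[X] (RatFunc k) r.denom = algebraMap k[X] (RatFunc k) r.num := by
      have h4 := RatFunc.num_div_denom r
      have h5 : algebraMap k[X] (RatFunc k) r.denom ≠ 0 := by
        intro h
        apply hQ
        exact (FaithfulSMul.algebraMap_injective k[X] (RatFunc k)) (by rw [h, map_zero])
      rw [div_eq_iff h5] at h4
      exact h4.symm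
    rw [← h1, ← h2] at h3
    have h6 : r * th k true r.denom.reverse =
        (RatFunc.X : RatFunc k) ^ ((r.num.natDegree : ℤ) - (r.denom.natDegree : ℤ)) *
          th k true r.num.reverse := by
      rw [zpow_sub₀ hX, zpow_natCast, zpow_natCast, div_mul_eq_mul_div,
        eq_div_iff (pow_ne_zero _ hX), mul_assoc, h3, mul_comm]
    rw [h6, inv_zpow', neg_sub]

section
variable {k : Type} [Field k] {L : Type} [Field L] [Algebra (RatFunc k) L]

private theorem T6_unit (O : ValuationSubring L) (hO : Inf k O) (f : k[X]) (hf : f.coeff 0 ≠ 0) :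
    O.valuation (algebraMap (RatFunc k) L (th k true f)) = 1 := by
  have h1 : th k true f = algebraMap k (RatFunc k) (f.coeff 0) +
      (RatFunc.X : RatFunc k)⁻¹ * th k true f.divX := by
    rw [T6_th_true, T6_th_true]
    conv_lhs => rw [← Polynomial.divX_mul_X_add f]
    rw [map_add, map_mul, Polynomial.aeval_X, Polynomial.aeval_C]
    ring
  have h2 : O.valuation (algebraMap (RatFunc k) L (th k true f.divX)) ≤ 1 := by
    rw [ValuationSubring.valuation_le_one_iff]
    refine inf_int O hO _ ?_
    exact isIntegral_algebraMap (R := Pol k true) (A := L) (x := f.divX)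
  have h3 : O.valuation (algebraMap (RatFunc k) L
      ((RatFunc.X : RatFunc k)⁻¹ * th k true f.divX)) < 1 := by
    rw [map_mul, map_mul]
    exact mul_lt_one_of_lt_of_le (inf_sinv_lt O hO) h2
  have h4 : O.valuation (algebraMap (RatFunc k) L (algebraMap k (RatFunc k) (f.coeff 0))) = 1 :=
    inf_units O hO (f.coeff 0) hf
  rw [h1, map_add, Valuation.map_add_eq_of_lt_left]
  · exact h4
  · rw [h4]
    exact h3

private theorem T6_val (O : ValuationSubring L) (hO : Inf k O) (r : RatFunc k) (n : ℤ)
    (f g : k[X]) (hf : f.coeff 0 ≠ 0) (hg : g.coeff 0 ≠ 0)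
    (h : r * th k true g = ((RatFunc.X : RatFunc k)⁻¹) ^ n * th k true f) (N : ℤ) :
    xL k L ^ N * algebraMap (RatFunc k) L r ∈ O ↔ N ≤ n := by
  have hX : xL k L ≠ 0 := by
    intro h0
    apply hO.pole
    have h1 : algebraMap (RatFunc k) L RatFunc.X = 0 := h0
    rw [h1]
    exact O.zero_mem
  have hv : 1 < O.valuation (xL k L) := by
    rw [← not_le, ValuationSubring.valuation_le_one_iff]
    exact hO.pole
  have h1 := congrArg (fun z => O.valuation (algebraMap (RatFunc k) L z)) h
  simp only [map_mul, map_zpow₀, map_inv₀] at h1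
  rw [T6_unit O hO f hf, T6_unit O hO g hg, mul_one, mul_one] at h1
  have h2 : O.valuation (algebraMap (RatFunc k) L RatFunc.X) = O.valuation (xL k L) := rfl
  rw [h2] at h1
  rw [← ValuationSubring.valuation_le_one_iff, map_mul, map_zpow₀, h1, inv_zpow', ← zpow_add₀,
    zpow_le_one_iff_right₀ hv]
  · omega
  · exact (Valuation.ne_zero_iff _).2 hX

end

private theorem T6_kapX {k : Type} [Field k] :
    kap k ((RatFunc.X : RatFunc k)⁻¹) = HahnSeries.single (1 : ℤ) (1 : k) := by
  rw [map_inv₀, ← RatFunc.algebraMap_X, kap_algebraMap, AI.zinv_X, HahnSeries.inv_single]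
  simp

private theorem T6_kapC {k : Type} [Field k] (c : k) :
    kap k (algebraMap k (RatFunc k) c) = HahnSeries.C c := by
  have h : algebraMap k (RatFunc k) c = algebraMap k[X] (RatFunc k) (C c) := rfl
  rw [h, kap_algebraMap, AI.zinv_C]

private theorem T6_kap {k : Type} [Field k] (f : k[X]) :
    kap k (th k true f) = ((f : PowerSeries k) : LaurentSeries k) := by
  have h : (kap k).comp (th k true) = (HahnSeries.ofPowerSeries ℤ k).comp
      (Polynomial.coeToPowerSeries.ringHom (R := k)) := by
    refine Polynomial.ringHom_ext' ?_ ?_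
    · refine RingHom.ext fun c => ?_
      change kap k (th k true (C c)) = HahnSeries.ofPowerSeries ℤ k ((C c : k[X]) : PowerSeries k)
      rw [T6_th_true, Polynomial.aeval_C, T6_kapC, Polynomial.coe_C, HahnSeries.ofPowerSeries_C]
    · change kap k (th k true (X : k[X])) = HahnSeries.ofPowerSeries ℤ k ((X : k[X]) : PowerSeries k)
      rw [T6_th_true, Polynomial.aeval_X, T6_kapX, Polynomial.coe_X, HahnSeries.ofPowerSeries_X]
  exact congrArg (fun φ : k[X] →+* LaurentSeries k => φ f) h

private theorem T6_order {k : Type} [Field k] (f : k[X]) (hf : f.coeff 0 ≠ 0) :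
    kap k (th k true f) ≠ 0 ∧ (kap k (th k true f)).order = 0 := by
  have h0 : (kap k (th k true f)).coeff 0 = f.coeff 0 := by
    rw [T6_kap]
    have h := HahnSeries.ofPowerSeries_apply_coeff (Γ := ℤ) (f : PowerSeries k) 0
    rw [Polynomial.coeff_coe] at h
    exact h
  have h1 : kap k (th k true f) ≠ 0 := by
    intro h
    rw [h] at h0
    exact hf (by rw [← h0]; rfl)
  refine ⟨h1, le_antisymm ?_ ?_⟩
  · refine HahnSeries.order_le_of_coeff_ne_zero ?_
    rw [h0]
    exact hf
  · by_contra hlt
    rw [not_le] at hlt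
    have h2 : (kap k (th k true f)).coeff (kap k (th k true f)).order ≠ 0 :=
      fun h => h1 (HahnSeries.coeff_order_eq_zero.1 h)
    apply h2
    rw [T6_kap] at hlt ⊢
    rw [PowerSeries.coeff_coe, if_pos hlt]

private theorem T6_ord {k : Type} [Field k] (r : RatFunc k) (n : ℤ)
    (f g : k[X]) (hf : f.coeff 0 ≠ 0) (hg : g.coeff 0 ≠ 0) (hr : r ≠ 0)
    (h : r * th k true g = ((RatFunc.X : RatFunc k)⁻¹) ^ n * th k true f) :
    kap k r ≠ 0 ∧ (kap k r).order = n := by
  have h1 := congrArg (kap k) h
  rw [map_mul, map_mul, map_zpow₀, T6_kapX] at h1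
  have h2 : (HahnSeries.single (1 : ℤ) (1 : k)) ^ n = HahnSeries.single n (1 : k) := by
    rw [← RatFunc.single_zpow]
  have hk : kap k r ≠ 0 := (map_ne_zero (kap k)).2 hr
  refine ⟨hk, ?_⟩
  have h3 := congrArg HahnSeries.order h1
  rw [HahnSeries.order_mul hk (T6_order g hg).1, h2,
    HahnSeries.order_mul (HahnSeries.single_ne_zero one_ne_zero) (T6_order f hf).1,
    (T6_order g hg).2, (T6_order f hf).2, HahnSeries.order_single one_ne_zero] at h3
  simpa using h3

theorem rat_iff {k : Type} [Field k] {L : Type} [Field L] [Algebra (RatFunc k) L]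
    (O : ValuationSubring L) (hO : Inf k O) (r : RatFunc k) (N : ℤ) :
    xL k L ^ N * algebraMap (RatFunc k) L r ∈ O ↔ ∀ m : ℤ, m < N → (kap k r).coeff m = 0 := by
  by_cases hr : r = 0
  · rw [hr, map_zero, map_zero, mul_zero]
    exact ⟨fun _ m _ => rfl, fun _ => O.zero_mem⟩
  · obtain ⟨n, f, g, hf, hg, h⟩ := rat_inf r hr
    rw [T6_val O hO r n f g hf hg h N]
    obtain ⟨h1, h2⟩ := T6_ord r n f g hf hg hr h
    constructor
    · intro hN m hm
      exact HahnSeries.coeff_eq_zero_of_lt_order (by rw [h2]; omega)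
    · intro hall
      by_contra hN
      rw [not_le] at hN
      have h3 := hall n hN
      rw [← h2] at h3
      exact h1 (HahnSeries.coeff_order_eq_zero.1 h3)

end

end Pool.Agent.MP_1c8e06_ag.RC
end
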