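import Pool.Agent.Lib.MP_1c8e06_ag.Mg.G027
import Pool.Agent.Lib.MP_1c8e06_ag.Mg.G023
import Pool.Agent.Lib.MP_1c8e06_ag.Mg.G024
import Pool.Agent.Lib.MP_1c8e06_ag.Mg.G029
import Pool.Agent.Lib.MP_1c8e06_ag.Mg.G026
import Pool.Agent.Lib.MP_1c8e06_ag.Mg.G049
import Pool.Agent.Lib.MP_1c8e06_ag.Mg.G036
import Pool.Agent.Lib.MP_1c8e06_ag.Mg.G039

section

set_option autoImplicit false

open Polynomial

namespace Pool.Agent.MP_1c8e06_ag.AK

noncomputable section

/-!
# Task S3: existence of crossed homomorphisms (assembly)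

Proof.  For all subgroups `H ≥ Z` of `R`: there is `a` with `IsCr H a` and `a z = ψ (C (ζ z))` for `z ∈ Z`; strong induction on
`Nat.card H`.  `H = Z`: `a z := ψ (C (ζ z))` for `z ∈ Z`, `1` otherwise (`Z` acts trivially, `h.ker`).  `H ≠ Z`: `exists_stp_down` for `Z ≤ H`
(`Z` is central): `H', t`, `Z ≤ H'`, `card H' < card H` (`relIndex = ℓ ≥ 2`); the induction hypothesis and
`crossed_step` (`(ℓ : M) = ψ (C ℓ) ≠ 0`).  Take `H = ⊤`.
-/

theorem exists_crossed {k M R : Type} [Field k] [IsAlgClosed k] [Field M] [Group R] [Finite R]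
    [MulSemiringAction R M] {ψ : RatFunc k →+* M} {Z : Subgroup R} (h : IsG ψ R Z)
    {ℓ : ℕ} [hℓ : Fact ℓ.Prime] (hℓk : (ℓ : k) ≠ 0) (hR : IsPGroup ℓ R)
    (hZc : ∀ z ∈ Z, ∀ r : R, z * r = r * z) (ζ : Z →* kˣ) :
    ∃ a : R → M, IsCr ⊤ a ∧ ∀ z : Z, a (z : R) = ψ (RatFunc.C ((ζ z : kˣ) : k)) := by
  classical
  have hℓM : (ℓ : M) ≠ 0 := by
    have h1 : (ψ.comp (RatFunc.C : k →+* RatFunc k)) (ℓ : k) = (ℓ : M) := map_natCast _ ℓ
    rw [← h1]
    exact (map_ne_zero_iff _ (ψ.comp (RatFunc.C : k →+* RatFunc k)).injective).2 hℓk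
  have key : ∀ H : Subgroup R, Z ≤ H →
      ∃ a : R → M, IsCr H a ∧ ∀ z : Z, a (z : R) = ψ (RatFunc.C ((ζ z : kˣ) : k)) := by
    intro H
    induction H using WellFoundedLT.induction with
    | ind H ih =>
      intro hZH
      by_cases hne : Z = H
      · subst hne
        refine ⟨fun r => if hr : r ∈ Z then ψ (RatFunc.C ((ζ ⟨r, hr⟩ : kˣ) : k)) else 1,
          ⟨?_, ?_⟩, ?_⟩
        · intro g hg
          simp only [dif_pos hg]
          rw [Ne, map_eq_zero, map_eq_zero]
          exact Units.ne_zero _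
        · intro g hg g' hg'
          simp only [dif_pos hg, dif_pos hg', dif_pos (Z.mul_mem hg hg')]
          rw [h.smul_ψ, ← map_mul, ← map_mul, ← Units.val_mul, ← map_mul]
          rfl
        · intro z
          simp only [dif_pos z.2]
      · obtain ⟨H', t, hZH', hs⟩ := exists_stp_down hR Z H hZH hne (fun a _ z hz => by
          rw [← hZc z hz a, mul_assoc, mul_inv_cancel, mul_one]
          exact hz)
        have hlt : H' < H := by
          refine lt_of_le_of_ne hs.le ?_
          rintro rfl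
          have h1 := hs.idx
          rw [Subgroup.relIndex_self] at h1
          exact hℓ.out.one_lt.ne h1
        obtain ⟨a, ha, haz⟩ := ih H' hlt hZH'
        obtain ⟨a', ha', haa⟩ := crossed_step h hℓM hR hZc H' H hZH' t hs a ha
          (fun z hz r => by
            have h1 := haz ⟨z, hz⟩
            simp only at h1
            rw [h1, h.smul_ψ])
        exact ⟨a', ha', fun z => by rw [haa _ (hZH' z.2), haz]⟩
  exact key ⊤ le_top

end

end Pool.Agent.MP_1c8e06_ag.AK
end

section

set_option autoImplicit false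

open Polynomial

namespace Pool.Agent.MP_1c8e06_ag.AK

noncomputable section

/-!
# Task E3: Frattini step

Proof.  Let `M, ψ` be as in `Real k S (R ⧸ Z)`.  `R` acts on `M` through `R ⧸ Z` (`MulSemiringAction.compHom M (QuotientGroup.mk' Z)`), `IsG ψ R Z`.
1. `Z` is cyclic of order `ℓ`, `k` contains a primitive `ℓ`-th root of unity `ζ₀`: an injective homomorphism `ζ : Z →* kˣ` with values in the
   `ℓ`-th roots of unity.  `exists_crossed`: `a` with `IsCr ⊤ a`, `a z = ψ (C (ζ z))` for `z ∈ Z`.
2. `a ^ ℓ` is crossed on `⊤` and `(a z) ^ ℓ = 1` for `z ∈ Z` (`Z` is the kernel of the action); `hilbert90` for `H = ⊤` (`Nat.card R` is a power of `ℓ`): `β₀ ≠ 0`,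
   `g • β₀ = a g ^ ℓ * β₀`.
3. `finite_bad`: `B`.  For `b ∉ S` choose `ε b` with `(ε b).comp ψ = psi b`.  `exists_orders` for the finite set `B₁ := {b ∈ B | b ∉ S}` and
   `m b := - (ε b β₀).order`: `c`.  For `b ∉ S`: `(ε b (β₀ * ψ c)).order = 0` (if `b ∈ B₁`: `order - order`; if `b ∉ B`: `0 + 0`).  `β := β₀ * ψ c`: `g • β = a g ^ ℓ * β`.
4. `β` is not an `ℓ`-th power: if `β = m ^ ℓ` (`m ≠ 0`) then `χ g := a g * m / g • m` satisfies `χ g ^ ℓ = 1`, so `χ g` is a power of `ψ (C ζ₀)`
   (`IsPrimitiveRoot.eq_pow_of_pow_eq_one` in the field `M`), fixed by `R`; `χ` is crossed, hence multiplicative, so a homomorphism from `R` to the group of powers of `ψ (C ζ₀)`,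
   isomorphic to `Multiplicative (ZMod ℓ)`; by `hfr` it is trivial on `Z`, but `χ z = a z = ψ (C (ζ z)) ≠ 1` for `z ≠ 1` in `Z` (`z` acts trivially): contradiction.
5. `exists_kummer` (`haZ` by injectivity of `ζ`).  Good: for `b ∉ S`, `ε b β` has order `0`, so is an `ℓ`-th power `w ^ ℓ` (`exists_root_L`); the universal property
   gives `η' : M' → k((t))` with `η'.comp i = ε b`, so `η'.comp (i.comp ψ) = psi b`.
-/

/-- The action of `R` through a quotient. -/
private theorem E3_isG {K M R : Type} [Field K] [Field M] [Group R] (Z : Subgroup R) [Z.Normal]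
    [act : MulSemiringAction (R ⧸ Z) M] {ψ : K →+* M} (hG : IsG ψ (R ⧸ Z) ⊥) :
    letI := MulSemiringAction.compHom M (QuotientGroup.mk' Z)
    IsG ψ R Z := by
  letI := MulSemiringAction.compHom M (QuotientGroup.mk' Z)
  have hsm : ∀ (r : R) (a : M), r • a = (QuotientGroup.mk' Z r) • a := fun r a => rfl
  refine ⟨?_, ?_⟩
  · intro r
    have h1 := hG.ker (QuotientGroup.mk' Z r)
    rw [Subgroup.mem_bot] at h1
    constructor
    · intro h
      have h2 : QuotientGroup.mk' Z r = 1 := h1.1 (fun a => h a)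
      exact (QuotientGroup.eq_one_iff r).1 h2
    · intro h
      have h2 : QuotientGroup.mk' Z r = 1 := (QuotientGroup.eq_one_iff r).2 h
      intro a
      exact h1.2 h2 a
  · intro a
    rw [← hG.fix a]
    constructor
    · intro h q
      obtain ⟨r, rfl⟩ := QuotientGroup.mk'_surjective Z q
      exact h r
    · intro h r
      exact h _

theorem real_frattini {k : Type} [Field k] [IsAlgClosed k] {S : Set k} {R : Type} [Group R]
    [Finite R] {ℓ : ℕ} [hℓ : Fact ℓ.Prime] (hℓk : (ℓ : k) ≠ 0) (hR : IsPGroup ℓ R)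
    (Z : Subgroup R) [hZn : Z.Normal] (hcard : Nat.card Z = ℓ)
    (hcen : ∀ z ∈ Z, ∀ r : R, z * r = r * z)
    (hfr : ∀ χ : R →* Multiplicative (ZMod ℓ), ∀ z ∈ Z, χ z = 1) (h : Real k S (R ⧸ Z)) :
    Real k S R := by
  classical
  obtain ⟨M, iF, iA, ψ, hG0, hgood⟩ := h
  letI act : MulSemiringAction R M := MulSemiringAction.compHom M (QuotientGroup.mk' Z)
  have hG : IsG ψ R Z := E3_isG Z hG0
  have hℓ0 : 0 < ℓ := hℓ.out.pos
  have : NeZero ℓ := ⟨hℓ0.ne'⟩
  have : NeZero (ℓ : k) := ⟨hℓk⟩
  -- the root of unity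
  obtain ⟨ζ₀, hζ₀⟩ := HasEnoughRootsOfUnity.exists_primitiveRoot k ℓ
  set ζu : kˣ := hζ₀.toRootsOfUnity.1 with hζu
  have hζuv : ((ζu : kˣ) : k) = ζ₀ := rfl
  have hζup : IsPrimitiveRoot ζu ℓ := by
    rw [← IsPrimitiveRoot.coe_units_iff, hζuv]
    exact hζ₀
  have hcz : Nat.card (Subgroup.zpowers ζu) = ℓ := by
    rw [Nat.card_zpowers]
    exact hζup.eq_orderOf.symm
  let e : Z ≃* Subgroup.zpowers ζu := mulEquivOfPrimeCardEq hcard hcz
  let ζ : Z →* kˣ := (Subgroup.zpowers ζu).subtype.comp e.toMonoidHom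
  have hζinj : Function.Injective ζ := (Subgroup.subtype_injective _).comp e.injective
  have hζpow : ∀ z : Z, (ζ z) ^ ℓ = 1 := by
    intro z
    rw [← map_pow]
    have : z ^ ℓ = 1 := by
      rw [← hcard]
      exact pow_card_eq_one'
    rw [this, map_one]
  obtain ⟨a, ha, haz⟩ := exists_crossed hG hℓk hR hcen ζ
  have hψinj : Function.Injective ψ := ψ.injective
  have hψC : Function.Injective (fun c : k => ψ (RatFunc.C c)) := by
    intro c d hcd
    exact RatFunc.C_injective (hψinj hcd)
  -- Hilbert 90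
  have hℓM : (ℓ : M) ≠ 0 := by
    intro h0
    apply hℓk
    apply hψC
    simp only [map_natCast, map_zero]
    exact h0
  have hcardM : (Nat.card (⊤ : Subgroup R) : M) ≠ 0 := by
    obtain ⟨n, hn⟩ := (IsPGroup.iff_card.1 hR)
    rw [Subgroup.card_top, hn, Nat.cast_pow]
    exact pow_ne_zero _ hℓM
  have ha2 : IsCr (⊤ : Subgroup R) (fun g => a g ^ ℓ) := by
    refine ⟨fun g hg => pow_ne_zero _ (ha.ne g hg), ?_⟩
    intro g hg g' hg'
    show a (g * g') ^ ℓ = a g ^ ℓ * g • (a g' ^ ℓ)
    rw [ha.mul g hg g' hg', mul_pow, smul_pow']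
  have haz1 : ∀ z ∈ Z, a z ^ ℓ = 1 := by
    intro z hz
    rw [haz ⟨z, hz⟩, ← map_pow, ← map_pow, ← Units.val_pow_eq_pow_val, hζpow, Units.val_one,
      map_one, map_one]
  obtain ⟨β₀, hβ₀0, hβ₀⟩ := hilbert90 (⊤ : Subgroup R) hcardM (fun g => a g ^ ℓ) ha2
    (fun z _ hz => haz1 z ((hG.ker z).1 hz))
  -- orders
  obtain ⟨B, hB⟩ := finite_bad hG β₀ hβ₀0
  choose ε hε using hgood
  let m : k → ℤ := fun b => if hb : b ∈ S then 0 else -(ε b hb β₀).order
  obtain ⟨c, hc0, hc1, hc2⟩ := exists_orders (B.filter (fun b => b ∉ S)) m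
  set β : M := β₀ * ψ c with hβdef
  have hψc0 : ψ c ≠ 0 := (_root_.map_ne_zero ψ).2 hc0
  have hβ0 : β ≠ 0 := mul_ne_zero hβ₀0 hψc0
  have hord : ∀ (b : k) (hb : b ∉ S), (ε b hb β).order = 0 := by
    intro b hb
    have h1 : ε b hb β = ε b hb β₀ * psi b c := by
      rw [hβdef, map_mul]
      congr 1
      exact congrArg (fun f : RatFunc k →+* LaurentSeries k => f c) (hε b hb)
    rw [h1, order_mul_L ((_root_.map_ne_zero _).2 hβ₀0) ((_root_.map_ne_zero _).2 hc0)]
    by_cases hbB : b ∈ B
    · rw [hc1 b (Finset.mem_filter.2 ⟨hbB, hb⟩)]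
      show (ε b hb β₀).order + (if hb : b ∈ S then 0 else -(ε b hb β₀).order) = 0
      rw [dif_neg hb]
      ring
    · rw [hc2 b (fun h => hbB (Finset.mem_filter.1 h).1), hB b hbB (ε b hb) (hε b hb), add_zero]
  have hβ : ∀ g : R, g • β = a g ^ ℓ * β := by
    intro g
    rw [hβdef, smul_mul', hβ₀ g (Subgroup.mem_top g), hG.smul_ψ, mul_assoc]
  have haZ : ∀ z ∈ Z, a z = 1 → z = 1 := by
    intro z hz h1
    rw [haz ⟨z, hz⟩] at h1
    have h2 : ((ζ ⟨z, hz⟩ : kˣ) : k) = 1 := by
      apply hψC
      simp only [map_one]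
      exact h1
    have h3 : ζ ⟨z, hz⟩ = 1 := Units.ext h2
    have h4 : (⟨z, hz⟩ : Z) = 1 := hζinj (by rw [h3, map_one])
    exact congrArg Subtype.val h4
  -- not an `ℓ`-th power
  have hβℓ : ∀ x : M, x ^ ℓ ≠ β := by
    intro x hx
    have hx0 : x ≠ 0 := by
      rintro rfl
      rw [zero_pow hℓ0.ne'] at hx
      exact hβ0 hx.symm
    have hgx0 : ∀ g : R, g • x ≠ 0 := fun g h => hx0 ((smul_eq_zero_iff_eq g).1 h)
    have ha0 : ∀ g : R, a g ≠ 0 := fun g => ha.ne g (Subgroup.mem_top g)
    let ξ : Mˣ := Units.map ((ψ.comp RatFunc.C : k →+* M) : k →* M) ζu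
    have hξ : IsPrimitiveRoot ξ ℓ := by
      refine hζup.map_of_injective (f := Units.map ((ψ.comp RatFunc.C : k →+* M) : k →* M)) ?_
      intro u v huv
      apply Units.ext
      apply hψC
      exact congrArg Units.val huv
    have hξfix : ∀ (g : R) (j : ℕ), g • ((ξ : M) ^ j) = (ξ : M) ^ j := by
      intro g j
      rw [smul_pow']
      congr 1
      exact hG.smul_ψ g (RatFunc.C (ζu : k))
    let χ : R → M := fun g => a g * x / g • x
    have hχ0 : ∀ g, χ g ≠ 0 := fun g => div_ne_zero (mul_ne_zero (ha0 g) hx0) (hgx0 g)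
    have hχℓ : ∀ g, χ g ^ ℓ = 1 := by
      intro g
      show (a g * x / g • x) ^ ℓ = 1
      rw [div_pow, mul_pow, ← smul_pow', hx, hβ g]
      exact div_self (mul_ne_zero (pow_ne_zero _ (ha0 g)) hβ0)
    have hχp : ∀ g, ∃ j : ℕ, χ g = (ξ : M) ^ j := by
      intro g
      obtain ⟨j, _, hj⟩ := (IsPrimitiveRoot.coe_units_iff.2 hξ).eq_pow_of_pow_eq_one (hχℓ g)
      exact ⟨j, hj.symm⟩
    have hχfix : ∀ g g' : R, g • χ g' = χ g' := by
      intro g g'
      obtain ⟨j, hj⟩ := hχp g'
      rw [hj, hξfix]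
    have hχmul : ∀ g g' : R, χ (g * g') = χ g * χ g' := by
      intro g g'
      have h1 : χ (g * g') = χ g * g • χ g' := by
        show a (g * g') * x / (g * g') • x = a g * x / g • x * g • (a g' * x / g' • x)
        have h2 : g • (a g' * x / g' • x) = g • a g' * g • x / (g * g') • x := by
          rw [div_eq_mul_inv, smul_mul', smul_mul', smul_inv'', ← mul_smul, ← div_eq_mul_inv]
        rw [h2, ha.mul g (Subgroup.mem_top g) g' (Subgroup.mem_top g')]
        have h3 := hgx0 g
        have h4 := hgx0 (g * g')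
        field_simp
      rw [h1, hχfix]
    have hχone : χ 1 = 1 := by
      show a 1 * x / (1 : R) • x = 1
      rw [ha.one, one_mul, one_smul, div_self hx0]
    let χu : R →* Mˣ :=
      { toFun := fun g => Units.mk0 (χ g) (hχ0 g)
        map_one' := Units.ext hχone
        map_mul' := fun g g' => Units.ext (hχmul g g') }
    have hχmem : ∀ g, χu g ∈ Subgroup.zpowers ξ := by
      intro g
      obtain ⟨j, hj⟩ := hχp g
      rw [Subgroup.mem_zpowers_iff]
      refine ⟨(j : ℤ), ?_⟩
      apply Units.ext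
      rw [zpow_natCast, Units.val_pow_eq_pow_val]
      exact hj.symm
    have hcξ : Nat.card (Subgroup.zpowers ξ) = ℓ := by
      rw [Nat.card_zpowers]
      exact hξ.eq_orderOf.symm
    have hcm : Nat.card (Multiplicative (ZMod ℓ)) = ℓ := by
      rw [Nat.card_congr Multiplicative.toAdd, Nat.card_zmod]
    let e' : Subgroup.zpowers ξ ≃* Multiplicative (ZMod ℓ) := mulEquivOfPrimeCardEq hcξ hcm
    let χ' : R →* Multiplicative (ZMod ℓ) :=
      e'.toMonoidHom.comp (χu.codRestrict (Subgroup.zpowers ξ) hχmem)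
    have hz1 : ∀ z ∈ Z, z = 1 := by
      intro z hz
      have h1 : χ' z = 1 := hfr χ' z hz
      have h2 : χu.codRestrict (Subgroup.zpowers ξ) hχmem z = 1 :=
        e'.injective (by rw [map_one]; exact h1)
      have h3 : χu z = 1 := congrArg Subtype.val h2
      have h4 : χ z = 1 := congrArg Units.val h3
      have h5 : z • x = x := (hG.ker z).2 hz x
      apply haZ z hz
      have h6 : χ z = a z * x / z • x := rfl
      rw [h6, h5, mul_div_assoc, div_self hx0, mul_one] at h4
      exact h4
    have hZbot : Z = ⊥ := (Subgroup.eq_bot_iff_forall Z).2 hz1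
    rw [hZbot, Subgroup.card_bot] at hcard
    exact hℓ.out.one_lt.ne hcard
  obtain ⟨M', iF', iA', i, z', hG', hz', -, -, huniv⟩ :=
    exists_kummer hG hcard a ha haZ β hβ hβℓ
  refine ⟨M', iF', iA', i.comp ψ, hG', ?_⟩
  intro b hb
  obtain ⟨w, hw⟩ := exists_root_L (m := ℓ) hℓk (ε b hb β) (by rw [hord b hb]; exact dvd_zero _)
  obtain ⟨η', hη', -⟩ := huniv (LaurentSeries k) (ε b hb) w hw
  refine ⟨η', ?_⟩
  rw [← RingHom.comp_assoc, hη', hε b hb]

end

end Pool.Agent.MP_1c8e06_ag.AK
end

section

set_option autoImplicit false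

open Polynomial

namespace Pool.Agent.MP_1c8e06_ag.AK

noncomputable section

/-!
# Task E4: every `ℓ`-group with `p` generators is realised (assembly)

Proofs.
* `real_elem`: induction on `m`.  `m = 0`: `real_triv`.  `m + 1`: `b₀ := b ∘ Fin.castSucc`, `Real k (range b₀) (Fin m → A)`, `b (last m) ∉ range b₀` (injectivity), `real_split`:
  `Real k (insert (b (last m)) (range b₀)) ((Fin m → A) × A)`; the set is `range b`; `real_quot` for the isomorphism
  `(Fin m → A) × A ≃* (Fin (m+1) → A)` (`Fin.snoc`/`Fin.consEquiv`-like, or any surjective homomorphism).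
* `real_ell`: strong induction on `Nat.card R`.  `ell_cases`.  First case: `real_elem` for `m = p`, `b j := ((j : ℕ) : k)` (injective: `CharP.natCast_injOn_Iio`; in `Fp p k`: `frobenius`/`Nat.cast` fixed:
  `(j : k) ^ p = j`, `ZMod`-style), `real_mono`, `real_quot`.  Second case: `Z`; `R ⧸ Z` is an `ℓ`-group, generated by the images of the `x j`, of smaller order
  (`Subgroup.card_eq_card_quotient_mul_card_subgroup`); `real_frattini`.
-/

theorem real_elem {k : Type} [Field k] [IsAlgClosed k] {ℓ : ℕ} [hℓ : Fact ℓ.Prime]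
    (hℓk : (ℓ : k) ≠ 0) {m : ℕ} (b : Fin m → k) (hb : Function.Injective b) :
    Real k (Set.range b) (Fin m → Multiplicative (ZMod ℓ)) := by
  induction m with
  | zero => exact real_triv _ _
  | succ m ih =>
    have h0 := ih (b ∘ Fin.castSucc) (hb.comp (Fin.castSucc_injective m))
    have hnot : b (Fin.last m) ∉ Set.range (b ∘ Fin.castSucc) := by
      rintro ⟨i, hi⟩
      exact (Fin.castSucc_lt_last i).ne (hb hi)
    have h1 := real_split hℓk (b (Fin.last m)) hnot h0
    have hset : insert (b (Fin.last m)) (Set.range (b ∘ Fin.castSucc)) = Set.range b := by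
      ext y
      constructor
      · rintro (rfl | ⟨i, rfl⟩)
        · exact ⟨_, rfl⟩
        · exact ⟨_, rfl⟩
      · rintro ⟨i, rfl⟩
        refine Fin.lastCases ?_ (fun j => ?_) i
        · exact Or.inl rfl
        · exact Or.inr ⟨j, rfl⟩
    rw [hset] at h1
    let f : ((Fin m → Multiplicative (ZMod ℓ)) × Multiplicative (ZMod ℓ)) →*
        (Fin (m + 1) → Multiplicative (ZMod ℓ)) :=
      { toFun := fun x => Fin.snoc (α := fun _ => Multiplicative (ZMod ℓ)) x.1 x.2
        map_one' := by
          funext i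
          refine Fin.lastCases ?_ (fun j => ?_) i <;> simp
        map_mul' := by
          intro x y
          funext i
          refine Fin.lastCases ?_ (fun j => ?_) i <;> simp }
    refine real_quot f ?_ h1
    intro y
    refine ⟨(fun i => y i.castSucc, y (Fin.last m)), ?_⟩
    funext i
    refine Fin.lastCases ?_ (fun j => ?_) i
    · simp [f]
    · simp [f]

theorem natCast_mem_Fp {p : ℕ} [hp : Fact p.Prime] {k : Type} [Field k] [CharP k p] (j : ℕ) :
    (j : k) ∈ Fp p k := by
  show (j : k) ^ p = j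
  have h1 := map_natCast (frobenius k p) j
  rwa [frobenius_def] at h1

theorem real_ell {p : ℕ} [hp : Fact p.Prime] {k : Type} [Field k] [IsAlgClosed k] [CharP k p]
    {ℓ : ℕ} [hℓ : Fact ℓ.Prime] (hℓk : (ℓ : k) ≠ 0) {R : Type} [Group R] [Finite R]
    (hR : IsPGroup ℓ R) (x : Fin p → R) (hx : Subgroup.closure (Set.range x) = ⊤) :
    Real k (Fp p k) R := by
  induction hn : Nat.card R using Nat.strong_induction_on generalizing R with
  | _ n ih =>
    rcases ell_cases hR x hx with ⟨f, hf⟩ | ⟨Z, hZn, hZc, hcen, hfr⟩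
    · have hinj : Function.Injective (fun j : Fin p => ((j : ℕ) : k)) := by
        intro i j hij
        have h1 := CharP.natCast_injOn_Iio k p (Set.mem_Iio.2 i.2) (Set.mem_Iio.2 j.2) hij
        exact Fin.ext h1
      have h1 := real_elem (ℓ := ℓ) hℓk (fun j : Fin p => ((j : ℕ) : k)) hinj
      have h2 : Set.range (fun j : Fin p => ((j : ℕ) : k)) ⊆ Fp p k := by
        rintro _ ⟨j, rfl⟩
        exact natCast_mem_Fp _
      exact real_quot f hf (real_mono h2 h1)
    · haveI := hZn
      have hlt : Nat.card (R ⧸ Z) < n := by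
        have h1 := Subgroup.card_eq_card_quotient_mul_card_subgroup Z
        rw [hn, hZc] at h1
        have h2 : 0 < Nat.card (R ⧸ Z) := Nat.card_pos
        have h3 : 1 < ℓ := hℓ.out.one_lt
        rw [h1]
        nlinarith
      have hq : IsPGroup ℓ (R ⧸ Z) := hR.to_quotient Z
      have hgen : Subgroup.closure (Set.range fun j => (QuotientGroup.mk' Z) (x j)) = ⊤ := by
        have h1 : (Set.range fun j => (QuotientGroup.mk' Z) (x j)) =
            (QuotientGroup.mk' Z) '' (Set.range x) := by
          ext y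
          constructor
          · rintro ⟨j, rfl⟩
            exact ⟨x j, ⟨j, rfl⟩, rfl⟩
          · rintro ⟨_, ⟨j, rfl⟩, rfl⟩
            exact ⟨j, rfl⟩
        rw [h1, ← MonoidHom.map_closure, hx, ← MonoidHom.range_eq_map,
          MonoidHom.range_eq_top.2 (QuotientGroup.mk'_surjective Z)]
      exact real_frattini hℓk hR Z hZc hcen hfr (ih _ hlt hq _ hgen rfl)

end

end Pool.Agent.MP_1c8e06_ag.AK
end

section

set_option autoImplicit false

open Polynomial
open scoped Classical

namespace Pool.Agent.MP_1c8e06_ag.RC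

open Pool.Agent.MP_1c8e06_ag.AJ

noncomputable section

/-!
# Task A6: the datum over `L`

`B := BL k false L`, `R := Pol k false` (definitionally `k[X]`).
`exists_basisB`: `B` is a free `R`-module (finite, torsion free, `R` a principal ideal domain; `IsIntegralClosure.module_free R
(RatFunc k) L B` or `Module.free_of_finite_type_torsion_free'`) of rank `[L : RatFunc k]` (`IsIntegralClosure.rank`)
`= card (L ≃ₐ L) = card G` (`IsGalois.card_aut_eq_finrank`, the equivalence `e`).  Reindex `Module.finBasis` by `G`.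
`exists_GDL`: `D.b l x := e.symm x (bB l)`.  Constants: `μ j l m`: coordinates of `bB j * bB l`; `α h l m`: coordinates of
`e.symm h (bB l)`; `ν`: coordinates of `1`; `T j l`: `∑ x, e.symm x (bB j * bB l)` is integral and invariant, so it is the image
of an element of `R` (`BL_inv`); `T' l m := ∑ i, (coordinate l of x i) * (coordinate m of y i)` with `x`, `y` from
`exists_coords` for `act := actB false` (`hs`): `∑ l m, bB l * T' l m * σ (bB m) = ∑ i, x i * σ (y i)`.
`hP`: `e.symm (i u * x) = e.symm (i u) * e.symm x`.  `hmul`, `hact`, `hone`: apply `e.symm x` to the relations in `B`; the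
scalars are fixed.  `hact`: `e.symm (x * h) (bB l) = e.symm x (e.symm h (bB l))`.  `hdual`: put
`σ := (e.symm x)⁻¹ * e.symm x'` and apply `e.symm x`; `σ = 1 ↔ x = x'`.
The scalars: `algebraMap (RatFunc k) L (algebraMap k[X] (RatFunc k) f) = algebraMap R L f` by `th_false`.
-/

theorem exists_basisB {k : Type} [Field k] {L : Type} [Field L] [Algebra (RatFunc k) L]
    [FiniteDimensional (RatFunc k) L] [IsGalois (RatFunc k) L] {G : Type} [Group G] [Fintype G]
    (e : (L ≃ₐ[RatFunc k] L) ≃* G) :
    ∃ bB : G → BL k false L, ∀ x : BL k false L, ∃ c : G → Pol k false, x = ∑ l, c l • bB l := by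
  have : FaithfulSMul (Pol k false) L := by
    rw [faithfulSMul_iff_algebraMap_injective]
    intro a b hab
    rw [algebraMap_Pol_L, algebraMap_Pol_L] at hab
    have h1 := (algebraMap (RatFunc k) L).injective hab
    rw [← algebraMap_Pol, ← algebraMap_Pol] at h1
    exact IsFractionRing.injective (Pol k false) (RatFunc k) h1
  have := IsIntegralClosure.module_free (Pol k false) (RatFunc k) L (BL k false L)
  have : Module.Finite (Pol k false) (BL k false L) := instFin k false L
  have hr : Module.finrank (Pol k false) (BL k false L) = Fintype.card G := by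
    rw [IsIntegralClosure.rank (Pol k false) (RatFunc k) L (BL k false L),
      ← IsGalois.card_aut_eq_finrank, Nat.card_congr e.toEquiv, Nat.card_eq_fintype_card]
  let b := (Module.finBasis (Pol k false) (BL k false L)).reindex
    ((finCongr hr).trans (Fintype.equivFin G).symm)
  exact ⟨b, fun x => ⟨b.repr x, (b.sum_repr x).symm⟩⟩

private theorem A6_ze {k : Type} [Field k] {L : Type} [Field L] [Algebra (RatFunc k) L]
    (f : Pol k false) :
    ((algebraMap (RatFunc k) L).comp (algebraMap k[X] (RatFunc k))) f =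
      algebraMap (Pol k false) L f := by
  rw [algebraMap_Pol_L, th_false]
  rfl

private theorem A6_key {k : Type} [Field k] {L : Type} [Field L] [Algebra (RatFunc k) L]
    {G : Type} [Fintype G] (bB : G → BL k false L) (x : BL k false L) (c : G → Pol k false)
    (h : x = ∑ l, c l • bB l) (σ : L ≃ₐ[RatFunc k] L) :
    σ (x : L) = ∑ m, ((algebraMap (RatFunc k) L).comp (algebraMap k[X] (RatFunc k))) (c m) *
      σ (bB m : L) := by
  have h1 : (x : L) = ∑ m, algebraMap (Pol k false) L (c m) * (bB m : L) := by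
    conv_lhs => rw [h]
    rw [AddSubmonoidClass.coe_finsetSum]
    refine Finset.sum_congr rfl fun m _ => ?_
    rw [Subalgebra.coe_smul, Algebra.smul_def]
  rw [h1, map_sum]
  refine Finset.sum_congr rfl fun m _ => ?_
  rw [map_mul, A6_ze, algebraMap_Pol_L, σ.commutes]

theorem exists_GDL {k : Type} [Field k] {L : Type} [Field L] [Algebra (RatFunc k) L]
    [FiniteDimensional (RatFunc k) L] [IsGalois (RatFunc k) L] {G : Type} [Group G] [Fintype G]
    (e : (L ≃ₐ[RatFunc k] L) ≃* G) {P : Type} [Group P] [Fintype P] (i : P →* G)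
    (hs : ∀ σ : L ≃ₐ[RatFunc k] L, σ ≠ 1 →
      Ideal.span (Set.range fun x : BL k false L => actB false σ x - x) = ⊤) :
    ∃ D : GD i ((algebraMap (RatFunc k) L).comp (algebraMap k[X] (RatFunc k))) (actPL e i),
      ∀ l x, D.b l x = e.symm x (D.b l 1) := by
  obtain ⟨bB, hb⟩ := exists_basisB e
  choose co hco using hb
  have : Fintype (L ≃ₐ[RatFunc k] L) := Fintype.ofFinite _
  obtain ⟨ι, hι, X', Y', hXY⟩ := exists_coords (actB (k := k) (L := L) false) hs
  have hkey : ∀ (x : BL k false L) (σ : L ≃ₐ[RatFunc k] L), σ (x : L) =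
      ∑ m, ((algebraMap (RatFunc k) L).comp (algebraMap k[X] (RatFunc k))) (co x m) *
        σ (bB m : L) := fun x σ => A6_key bB x (co x) (hco x) σ
  have hT : ∀ j l : G, ∃ f : Pol k false, algebraMap (RatFunc k) L (th k false f) =
      ∑ x, e.symm x (bB j : L) * e.symm x (bB l : L) := by
    intro j l
    apply BL_inv false
    · refine IsIntegral.sum _ fun x _ => ?_
      have h1 := (actB false (e.symm x) (bB j * bB l)).2
      rw [actB_coe] at h1
      have h2 : e.symm x (((bB j * bB l : BL k false L)) : L) =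
          e.symm x (bB j : L) * e.symm x (bB l : L) := by
        rw [MulMemClass.coe_mul, map_mul]
      rw [h2] at h1
      exact h1
    · intro σ
      rw [map_sum]
      refine Fintype.sum_equiv (Equiv.mulLeft (e σ)) _ _ fun x => ?_
      rw [Equiv.coe_mulLeft, map_mul e.symm, MulEquiv.symm_apply_apply, map_mul σ]
      rfl
  choose T hT using hT
  refine ⟨{ b := fun l x => e.symm x (bB l : L)
            k := { μ := fun j l m => co (bB j * bB l) m
                   α := fun h l m => co (actB false (e.symm h) (bB l)) m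
                   ν := fun m => co 1 m
                   T := fun j l => T j l
                   T' := fun l m => ∑ t, co (X' t) l * co (Y' t) m }
            hP := ?_
            hmul := ?_
            hact := ?_
            hone := ?_
            htr := ?_
            hdual := ?_ }, ?_⟩
  · intro u l x
    rw [map_mul e.symm, actPL_apply]
    rfl
  · intro j l x
    have h1 := hkey (bB j * bB l) (e.symm x)
    rw [MulMemClass.coe_mul, map_mul] at h1
    exact h1
  · intro h l x
    have h1 := hkey (actB false (e.symm h) (bB l)) (e.symm x)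
    rw [actB_coe] at h1
    rw [map_mul e.symm]
    exact h1
  · intro x
    have h1 := hkey 1 (e.symm x)
    rw [OneMemClass.coe_one, map_one] at h1
    exact h1.symm
  · intro j l
    have h1 := hT j l
    rw [← algebraMap_Pol_L] at h1
    have h2 := A6_ze (L := L) (T j l)
    exact (h2.trans h1).symm
  · intro x x'
    have h1 : ∀ t, e.symm x (X' t : L) * e.symm x' (Y' t : L) =
        ∑ l, ∑ m, ((algebraMap (RatFunc k) L).comp (algebraMap k[X] (RatFunc k))) (co (X' t) l) *
          ((algebraMap (RatFunc k) L).comp (algebraMap k[X] (RatFunc k))) (co (Y' t) m) *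
          (e.symm x (bB l : L) * e.symm x' (bB m : L)) := by
      intro t
      rw [hkey (X' t) (e.symm x), hkey (Y' t) (e.symm x'), Finset.sum_mul_sum]
      refine Finset.sum_congr rfl fun l _ => Finset.sum_congr rfl fun m _ => ?_
      ring
    have h2 : ∑ t, e.symm x (X' t : L) * e.symm x' (Y' t : L) = if x = x' then 1 else 0 := by
      have h3 := congrArg (fun z : BL k false L => e.symm x (z : L))
        (hXY ((e.symm x)⁻¹ * e.symm x'))
      have h4 : ∀ t, e.symm x (((X' t * actB false ((e.symm x)⁻¹ * e.symm x') (Y' t) :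
          BL k false L)) : L) = e.symm x (X' t : L) * e.symm x' (Y' t : L) := by
        intro t
        rw [MulMemClass.coe_mul, map_mul, actB_coe, ← AlgEquiv.mul_apply, mul_inv_cancel_left]
      simp only [AddSubmonoidClass.coe_finsetSum, map_sum, h4] at h3
      rw [h3]
      by_cases hx : x = x'
      · subst hx
        rw [if_pos rfl, if_pos (inv_mul_cancel _), OneMemClass.coe_one, map_one]
      · rw [if_neg hx, if_neg, ZeroMemClass.coe_zero, map_zero]
        intro h5
        apply hx
        exact e.symm.injective (inv_mul_eq_one.1 h5)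
    rw [← h2]
    simp only [h1]
    conv_rhs => rw [Finset.sum_comm]
    refine Finset.sum_congr rfl fun l _ => ?_
    conv_rhs => rw [Finset.sum_comm]
    refine Finset.sum_congr rfl fun m _ => ?_
    rw [map_sum, Finset.mul_sum, Finset.sum_mul]
    refine Finset.sum_congr rfl fun t _ => ?_
    have h6 : ∀ f g : k[X], ((algebraMap (RatFunc k) L).comp (algebraMap k[X] (RatFunc k))) (f * g) =
        ((algebraMap (RatFunc k) L).comp (algebraMap k[X] (RatFunc k))) f *
          ((algebraMap (RatFunc k) L).comp (algebraMap k[X] (RatFunc k))) g := fun f g => map_mul _ f g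
    exact (congrArg (fun z : L => e.symm x (bB l : L) * z * e.symm x' (bB m : L))
      (h6 (co (X' t) l) (co (Y' t) m))).trans (by ring)
  · intro l x
    change e.symm x (bB l : L) = e.symm x (e.symm 1 (bB l : L))
    rw [map_one e.symm]
    rfl

end

end Pool.Agent.MP_1c8e06_ag.RC
end
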