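import Pool.Agent.Lib.MP_1c8e06_ag.Mg.G024
import Pool.Agent.Lib.MP_1c8e06_ag.Mg.G029
import Pool.Agent.Lib.MP_1c8e06_ag.Mg.G031

section

set_option autoImplicit false

open Polynomial

namespace Pool.Agent.MP_1c8e06_ag.AK

noncomputable section

/-!
# Task L9: generation by inertia generators

Proof.  Suppose `H ≠ ⊤`.  `exists_stp_top`: `H ≤ H'`, `Stp H' ⊤ t ℓ`.  `ζ₀ ∈ k` a primitive `ℓ`-th root of unity, `ζ' := ψ (C ζ₀)`; `exists_eigen`: `z ≠ 0`,
`z ∈ Fx H'`, `t • z = ζ' * z`.  `z ^ ℓ` is fixed by `H'` and `t`, so by all of `R` (`gen`): `z ^ ℓ = ψ c` (`h.fix`), `c ≠ 0`.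
For `b : k`: `(ℓ : ℤ) ∣ (psi b c).order`:
* `b ∉ Fp p k`: `ε.comp ψ = psi b` from `hgood`: `psi b c = ε (z ^ ℓ) = (ε z) ^ ℓ`, `order_pow_L`.
* `b ∈ Fp p k`: `hin b`: `e > 0`, `ζ`, `ε`, `s ∈ H`.  `s • z = z`, so `rot ζ (ε z) = ε z` and `e ∣ (ε z).order` (`dvd_order_of_rot`).
  `e * (psi b c).order = (phi k e (psi b c)).order = (ε (z ^ ℓ)).order = ℓ * (ε z).order` is divisible by `ℓ * e`, so `ℓ ∣ (psi b c).order`.
`exists_root_K`: `c = d ^ ℓ`; `(z / ψ d) ^ ℓ = 1`, so `z = ω * ψ d` with `ω ^ ℓ = 1`, `ω` a power of `ζ'` (`IsPrimitiveRoot.eq_pow_of_pow_eq_one`), so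
`z ∈ ψ(K)` and `t • z = z`, `ζ' = 1`: contradiction with `ℓ ≥ 2`.
-/

private theorem L9_pow_smul {M R : Type} [Field M] [Group R] [MulSemiringAction R M] (t : R)
    (ζ z : M) (hζ : t • ζ = ζ) (hz : t • z = ζ * z) (i : ℕ) : t ^ i • z = ζ ^ i * z := by
  induction i with
  | zero => rw [pow_zero, one_smul, pow_zero, one_mul]
  | succ n ih =>
    rw [pow_succ', mul_smul, ih, smul_mul', smul_pow', hζ, hz, pow_succ]
    ring

theorem generation {p : ℕ} {k M R : Type} [Field k] [IsAlgClosed k] [Field M]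
    [Group R] [Finite R] [MulSemiringAction R M] {ψ : RatFunc k →+* M} (h : IsG ψ R ⊥) {ℓ : ℕ}
    [hℓ : Fact ℓ.Prime] (hℓk : (ℓ : k) ≠ 0) (hR : IsPGroup ℓ R) (hgood : GoodS (Fp p k) ψ)
    (H : Subgroup R)
    (hin : ∀ b ∈ Fp p k, ∃ (e : ℕ) (ζ : kˣ) (ε : M →+* LaurentSeries k) (s : R), 0 < e ∧
      IsPrimitiveRoot ζ e ∧ ε.comp ψ = (phi k e).comp (psi b) ∧
      (∀ a : M, rot ζ (ε a) = ε (s • a)) ∧ s ∈ H) : H = ⊤ := by
  by_contra hne
  obtain ⟨H', t, hHH', hst⟩ := exists_stp_top hR H hne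
  have hfaith : ∀ r : R, (∀ a : M, r • a = a) → r = 1 := by
    intro r hr
    exact Subgroup.mem_bot.1 ((h.ker r).1 hr)
  have hne0 : NeZero (ℓ : k) := ⟨hℓk⟩
  obtain ⟨ζ₀, hζ₀⟩ := HasEnoughRootsOfUnity.exists_primitiveRoot k ℓ
  have hinj : Function.Injective (ψ.comp (RatFunc.C : k →+* RatFunc k)) := RingHom.injective _
  have hζ' : IsPrimitiveRoot (ψ (RatFunc.C ζ₀)) ℓ := hζ₀.map_of_injective (f := ψ.comp (RatFunc.C : k →+* RatFunc k)) hinj
  have hℓM : (ℓ : M) ≠ 0 := by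
    intro h0
    apply hℓk
    apply hinj
    rw [map_natCast, map_zero, h0]
  obtain ⟨z, hz0, hz, htz⟩ := exists_eigen (H := ⊤) hfaith hst hℓM (ψ (RatFunc.C ζ₀)) hζ'
    (fun r _ => h.smul_ψ r _)
  have hpow := L9_pow_smul t (ψ (RatFunc.C ζ₀)) z (h.smul_ψ t _) htz
  have hfixz : ∀ r : R, r • z ^ ℓ = z ^ ℓ := by
    intro r
    obtain ⟨i, a, ha, rfl⟩ := hst.gen r (Subgroup.mem_top r)
    rw [mul_smul, smul_pow', hpow, mul_pow, ← pow_mul, mul_comm i ℓ, pow_mul, hζ'.pow_eq_one,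
      one_pow, one_mul, smul_pow', hz a ha]
  obtain ⟨c, hc⟩ := (h.fix (z ^ ℓ)).1 hfixz
  have hord : ∀ b : k, (ℓ : ℤ) ∣ (psi b c).order := by
    intro b
    by_cases hb : b ∈ Fp p k
    · obtain ⟨e, ζ, ε, s, he, hζ, hε, hrot, hs⟩ := hin b hb
      have hsz : s • z = z := hz s (hHH' hs)
      have h1 : rot ζ (ε z) = ε z := by rw [hrot, hsz]
      obtain ⟨q, hq⟩ := dvd_order_of_rot ζ hζ (ε z) h1
      have h2 : phi k e (psi b c) = ε z ^ ℓ := by
        have h3 : ε (ψ c) = phi k e (psi b c) := RingHom.congr_fun hε c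
        rw [← h3, hc, map_pow]
      have h4 : (e : ℤ) * (psi b c).order = (ℓ : ℤ) * (ε z).order := by
        rw [← order_phi he, h2, order_pow_L]
      rw [hq] at h4
      have he' : (e : ℤ) ≠ 0 := by exact_mod_cast he.ne'
      refine ⟨q, ?_⟩
      apply mul_left_cancel₀ he'
      rw [h4]
      ring
    · obtain ⟨ε, hε⟩ := hgood b hb
      have h3 : ε (ψ c) = psi b c := RingHom.congr_fun hε c
      rw [← h3, hc, map_pow, order_pow_L]
      exact dvd_mul_right _ _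
  obtain ⟨d, hd⟩ := exists_root_K ℓ hℓ.out.pos c hord
  have hd0 : ψ d ≠ 0 := by
    intro h0
    apply hz0
    have h1 : z ^ ℓ = 0 := by
      rw [← hc, ← hd, map_pow, h0, zero_pow hℓ.out.ne_zero]
    exact pow_eq_zero_iff hℓ.out.ne_zero |>.1 h1
  have hω : (z / ψ d) ^ ℓ = 1 := by
    rw [div_pow, ← hc, ← hd, map_pow]
    exact div_self (pow_ne_zero _ hd0)
  have hNZ : NeZero ℓ := ⟨hℓ.out.ne_zero⟩
  obtain ⟨i, -, hi⟩ := hζ'.eq_pow_of_pow_eq_one hω
  have hzd : z = ψ (RatFunc.C ζ₀ ^ i * d) := by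
    rw [map_mul, map_pow, hi, div_mul_cancel₀ _ hd0]
  have htz' : t • z = z := by
    rw [hzd]
    exact h.smul_ψ t _
  rw [htz'] at htz
  have h1 : ψ (RatFunc.C ζ₀) = 1 := by
    have h2 : (1 : M) * z = ψ (RatFunc.C ζ₀) * z := by rw [one_mul]; exact htz
    exact (mul_right_cancel₀ hz0 h2).symm
  exact hζ'.ne_one hℓ.out.one_lt h1

end

end Pool.Agent.MP_1c8e06_ag.AK
end

section

set_option autoImplicit false

open Polynomial

namespace Pool.Agent.MP_1c8e06_ag.AK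

noncomputable section

/-!
# Task V3: `p` generators

Proofs.
* `mem_Fp_iff`: the polynomial `X ^ p - X` has at most `p` roots and `0, 1, …, p-1` are `p` different roots (characteristic `p`: `(j : k) ^ p = j` by `frobenius`/`Nat.cast` lemmas, `natCast_mem_Fp`-style).
* `gen_p`: for every `j : Fin p` let `b := (j : k) ∈ Fp p k`.  `e := Nat.card Γ`, `ζ ∈ kˣ` a primitive `e`-th root of
  unity (`e` is a power of `ℓ`, nonzero in the algebraically closed field `k`; `HasEnoughRootsOfUnity`/`IsCyclotomicExtension`-free: `IsSepClosed`/`IsAlgClosed` lemma, or `exists_primitiveRoot`); `lemmaT` (`ψ₀ := psi b`): `ε`; `exists_inertia`: `x j := s`.  `generation` with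
  `H := closure (range x)` (`mem_Fp_iff` for the hypothesis `b ∈ Fp p k`).
-/

theorem mem_Fp_iff {p : ℕ} [hp : Fact p.Prime] {k : Type} [Field k] [CharP k p] (b : k) :
    b ∈ Fp p k ↔ ∃ j : Fin p, b = ((j : ℕ) : k) := by
  classical
  have hroot : ∀ n : ℕ, ((n : ℕ) : k) ^ p = ((n : ℕ) : k) := fun n => by
    have h := map_natCast (frobenius k p) n
    rwa [frobenius_def] at h
  constructor
  · intro hb
    have hb' : b ^ p = b := hb
    by_contra hcon
    push Not at hcon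
    have hinj : Function.Injective fun j : Fin p => ((j : ℕ) : k) := by
      intro i j hij
      have h1 : ((i : ℕ) : k) = ((j : ℕ) : k) := hij
      have h2 := ((CharP.natCast_eq_natCast k p).1 h1).eq_of_lt_of_lt i.2 j.2
      exact Fin.ext h2
    have hne : (X ^ p - X : k[X]) ≠ 0 := FiniteField.X_pow_card_sub_X_ne_zero k hp.out.one_lt
    have hdeg : (X ^ p - X : k[X]).natDegree = p :=
      FiniteField.X_pow_card_sub_X_natDegree_eq k hp.out.one_lt
    have hsub : (insert b (Finset.univ.image fun j : Fin p => ((j : ℕ) : k))) ⊆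
        (X ^ p - X : k[X]).roots.toFinset := by
      intro c hc
      rw [Multiset.mem_toFinset, mem_roots hne, IsRoot.def, eval_sub, eval_pow, eval_X]
      rcases Finset.mem_insert.1 hc with rfl | hc
      · rw [hb', sub_self]
      · obtain ⟨j, _, rfl⟩ := Finset.mem_image.1 hc
        rw [hroot, sub_self]
    have hcard := (Finset.card_le_card hsub).trans
      ((Multiset.toFinset_card_le _).trans (card_roots' _))
    rw [hdeg, Finset.card_insert_of_notMem, Finset.card_image_of_injective _ hinj,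
      Finset.card_univ, Fintype.card_fin] at hcard
    · omega
    · intro hmem
      obtain ⟨j, _, hj⟩ := Finset.mem_image.1 hmem
      exact hcon j hj.symm
  · rintro ⟨j, rfl⟩
    exact hroot j

theorem gen_p {p : ℕ} [hp : Fact p.Prime] {k N Γ : Type} [Field k] [IsAlgClosed k] [CharP k p]
    [Field N] [Group Γ] [Finite Γ] [MulSemiringAction Γ N] {ψ : RatFunc k →+* N}
    (h : IsG ψ Γ ⊥) {ℓ : ℕ} [hℓ : Fact ℓ.Prime] (hℓk : (ℓ : k) ≠ 0) (hΓ : IsPGroup ℓ Γ)
    (hg : GoodS (Fp p k) ψ) : ∃ x : Fin p → Γ, Subgroup.closure (Set.range x) = ⊤ := by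
  obtain ⟨n, hn⟩ := IsPGroup.iff_card.1 hΓ
  have he : 0 < Nat.card Γ := Nat.card_pos
  have hek : ((Nat.card Γ : ℕ) : k) ≠ 0 := by
    rw [hn, Nat.cast_pow]
    exact pow_ne_zero n hℓk
  have : NeZero ((Nat.card Γ : ℕ) : k) := ⟨hek⟩
  obtain ⟨z, hz⟩ := HasEnoughRootsOfUnity.exists_primitiveRoot k (Nat.card Γ)
  have hζ : IsPrimitiveRoot (hz.isUnit he.ne').unit (Nat.card Γ) := hz.isUnit_unit he.ne'
  have key : ∀ j : Fin p, ∃ (s : Γ) (ε : N →+* LaurentSeries k),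
      ε.comp ψ = (phi k (Nat.card Γ)).comp (psi ((j : ℕ) : k)) ∧
      ∀ a : N, rot (hz.isUnit he.ne').unit (ε a) = ε (s • a) := by
    intro j
    obtain ⟨ε, hε⟩ := lemmaT h hℓk hΓ (psi ((j : ℕ) : k))
    obtain ⟨s, hs⟩ := exists_inertia h he _ hζ.pow_eq_one (psi ((j : ℕ) : k)) ε hε
    exact ⟨s, ε, hε, hs⟩
  choose x ε hε hx using key
  refine ⟨x, generation h hℓk hΓ hg _ ?_⟩
  intro b hb
  obtain ⟨j, rfl⟩ := (mem_Fp_iff b).1 hb
  exact ⟨Nat.card Γ, _, ε j, x j, he, hζ, hε j, hx j, Subgroup.subset_closure ⟨j, rfl⟩⟩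

end

end Pool.Agent.MP_1c8e06_ag.AK
end

section

set_option autoImplicit false

open Polynomial

namespace Pool.Agent.MP_1c8e06_ag.AK

noncomputable section

/-!
# Task V7: the equivariant homomorphism `RF → R`

Proofs.
* `exists_conj`: for `γ ∈ Γ` the ring automorphism `T' ∘ (γ • ·) ∘ T'⁻¹` fixes `ψ(K)` (`T'⁻¹ (ψ x) = ψ (sig⁻¹ x)`: every `x` is `sig x'`; `sig` is onto: `X ↦ X - 1`, `compR`), so
  (`exists_smul` with `ε₁ := id`) it is `γ' • ·` for a unique `γ' ∈ Γ` (faithful).  `c γ := γ'` is an automorphism (the inverse by `T'⁻¹`).  `T' ^ p = 1` gives `c ^ p = 1`, i.e. `c^[p] γ = γ`.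
* `exists_pi`.  `Γ := RF R p`, `e := Nat.card Γ`, `ζ ∈ kˣ` a primitive `e`-th root of unity.  `lemmaT` for `psi 0`: `ε₀`, `ε₀.comp ψ = (phi k e).comp (psi 0)`; `exists_inertia`: `s`, `rot ζ (ε₀ a) = ε₀ (s • a)`.
  For `i : ℕ` put `ε_i := ε₀ ∘ T' ^ i`: `ε_i (ψ X) = ε₀ (ψ (X + i)) = t ^ e + i`, so `ε_i.comp ψ = (phi k e).comp (psi (i : k))` (`ratHom_ext`), and with `s_i := c^{-i} s` (i.e. `c^[p - i] s` for `i ≤ p`): `T' ^ i ∘ s_i = s ∘ T' ^ i` on `L`, so
  `rot ζ (ε_i a) = ε₀ (s • T' ^ i a) = ε₀ (T' ^ i (s_i • a)) = ε_i (s_i • a)`.  `generation` with `H := closure (range fun j : Fin p => c^[j] s)` (`mem_Fp_iff`, `c^[p] = id`): `H = ⊤`.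
  `RF.univ` with `x j := c^[j] s`, `r j := g ^ j r g ^ (-j) ∈ R`, `hinj := RF.sep`: `π`, `π (c^[j] s) = g ^ j r g ^ (-j)` for `j < p`, hence for all `j` (both sides are periodic: `c^[p] = id`, `g ^ p = 1`).
  The homomorphisms `γ ↦ π (c γ)` and `γ ↦ g π(γ) g⁻¹` agree on the generators `c^[j] s`, so they are equal.  `π (c^[0] s) = r`.
-/

private theorem V7_sig_surj {k : Type} [Field k] (x : RatFunc k) : ∃ y, sig k y = x := by
  have hd : 0 < (X + C (-1) : k[X]).natDegree := by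
    rw [natDegree_X_add_C]
    exact one_pos
  have h1 : (sig k).comp (compR (X + C (-1)) hd) = RingHom.id (RatFunc k) := by
    refine ratHom_ext (fun c => ?_) ?_
    · simp only [RingHom.comp_apply, compR_C, sig_C, RingHom.id_apply]
    · simp only [RingHom.comp_apply, compR_X, map_add, RatFunc.algebraMap_X, RatFunc.algebraMap_C,
        sig_C, sig_X, RingHom.id_apply, map_neg, map_one]
      ring
  exact ⟨compR (X + C (-1)) hd x, congrArg (fun f : RatFunc k →+* RatFunc k => f x) h1⟩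

private theorem V7_faith {K M R : Type} [Field K] [Field M] [Group R] [MulSemiringAction R M]
    {ψ : K →+* M} (h : IsG ψ R ⊥) {r s : R} (hrs : ∀ a : M, r • a = s • a) : r = s := by
  have h1 : ∀ a : M, (s⁻¹ * r) • a = a := by
    intro a
    rw [mul_smul, hrs, inv_smul_smul]
  have h2 : s⁻¹ * r = 1 := Subgroup.mem_bot.1 ((h.ker _).1 h1)
  exact (inv_mul_eq_one.1 h2).symm

private theorem V7_iter {L Γ : Type} [Field L] [Group Γ] [MulSemiringAction Γ L]
    (T' : RingAut L) (c : Γ → Γ) (hc : ∀ (γ : Γ) (a : L), T' (γ • a) = c γ • T' a) (n : ℕ) :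
    ∀ (γ : Γ) (a : L), (T' ^ n) (γ • a) = c^[n] γ • (T' ^ n) a := by
  induction n with
  | zero =>
    intro γ a
    rfl
  | succ n ih =>
    intro γ a
    rw [pow_succ, RingAut.mul_apply, RingAut.mul_apply, hc, ih, Function.iterate_succ_apply]

theorem exists_conj {p : ℕ} [hp : Fact p.Prime] {k L Γ : Type} [Field k] [Field L]
    [Group Γ] [Finite Γ] [MulSemiringAction Γ L] {ψ : RatFunc k →+* L} (h : IsG ψ Γ ⊥)
    (T' : RingAut L) (hT' : ∀ x, T' (ψ x) = ψ (sig k x)) (hTp : T' ^ p = 1) :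
    ∃ c : Γ ≃* Γ, (∀ (γ : Γ) (a : L), T' (γ • a) = c γ • T' a) ∧ ∀ γ : Γ, c^[p] γ = γ := by
  have key : ∀ γ : Γ, ∃ δ : Γ, ∀ a : L, T' (γ • a) = δ • T' a := by
    intro γ
    obtain ⟨δ, hδ⟩ := exists_smul h (RingHom.id L)
      ((T' : L →+* L).comp ((MulSemiringAction.toRingHom Γ L γ).comp
        (RingEquiv.symm (T' : L ≃+* L) : L →+* L))) (by
        ext x
        obtain ⟨y, rfl⟩ := V7_sig_surj x
        simp only [RingHom.comp_apply, RingHom.id_apply, RingHom.coe_coe,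
          MulSemiringAction.toRingHom_apply]
        rw [← hT' y, RingEquiv.symm_apply_apply, h.smul_ψ])
    refine ⟨δ, fun a => ?_⟩
    have h1 := hδ (T' a)
    simp only [RingHom.comp_apply, RingHom.id_apply, RingHom.coe_coe,
      MulSemiringAction.toRingHom_apply, RingEquiv.symm_apply_apply] at h1
    exact h1
  choose c₀ hc₀ using key
  have hmul : ∀ γ δ : Γ, c₀ (γ * δ) = c₀ γ * c₀ δ := by
    intro γ δ
    refine V7_faith h (fun a => ?_)
    obtain ⟨b, rfl⟩ := RingEquiv.surjective T' a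
    rw [← hc₀, mul_smul, hc₀, hc₀, mul_smul]
  have hinj : Function.Injective c₀ := by
    intro γ δ hγδ
    refine V7_faith h (fun a => ?_)
    apply RingEquiv.injective T'
    rw [hc₀, hc₀, hγδ]
  have hbij : Function.Bijective c₀ := Finite.injective_iff_bijective.1 hinj
  refine ⟨MulEquiv.ofBijective (MonoidHom.mk' c₀ hmul) hbij, fun γ a => hc₀ γ a, fun γ => ?_⟩
  have h1 := V7_iter T' c₀ hc₀ p
  rw [hTp] at h1
  refine V7_faith h (fun a => ?_)
  exact (h1 γ a).symm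

theorem exists_pi {p : ℕ} [hp : Fact p.Prime] {k L G : Type} [Field k] [IsAlgClosed k] [CharP k p]
    [Field L] [Group G] [Finite G] (R : Subgroup G) {ℓ : ℕ} [hℓ : Fact ℓ.Prime]
    (hℓk : (ℓ : k) ≠ 0) (hR : IsPGroup ℓ R) [MulSemiringAction (RF R p) L]
    {ψ : RatFunc k →+* L} (h : IsG ψ (RF R p) ⊥) (hg : GoodS (Fp p k) ψ) (T' : RingAut L)
    (hT' : ∀ x, T' (ψ x) = ψ (sig k x)) (c : RF R p ≃* RF R p)
    (hc : ∀ (γ : RF R p) (a : L), T' (γ • a) = c γ • T' a) (hcp : ∀ γ, c^[p] γ = γ) (g : G)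
    (hgp : g ^ p = 1) (hgR : ∀ x ∈ R, g * x * g⁻¹ ∈ R) (r : R) :
    ∃ π : RF R p →* R, (∀ γ, ((π (c γ) : R) : G) = g * π γ * g⁻¹) ∧ r ∈ π.range := by
  have : Finite (RF R p) := RF.finite R p
  have hRF : IsPGroup ℓ (RF R p) := RF.isPGroup hR p
  obtain ⟨n, hn⟩ := (IsPGroup.iff_card (p := ℓ) (G := RF R p)).1 hRF
  have he0 : 0 < Nat.card (RF R p) := Nat.card_pos
  have hek : ((Nat.card (RF R p) : ℕ) : k) ≠ 0 := by
    rw [hn, Nat.cast_pow]
    exact pow_ne_zero _ hℓk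
  -- a primitive root of unity
  obtain ⟨ζ, hζ⟩ : ∃ ζ : kˣ, IsPrimitiveRoot ζ (Nat.card (RF R p)) := by
    have : NeZero ((Nat.card (RF R p) : ℕ) : k) := ⟨hek⟩
    obtain ⟨z, hz⟩ := HasEnoughRootsOfUnity.exists_primitiveRoot k (Nat.card (RF R p))
    exact ⟨(hz.isUnit he0.ne').unit, IsPrimitiveRoot.coe_units_iff.1 (by simpa using hz)⟩
  obtain ⟨ε₀, hε₀⟩ := lemmaT h hℓk hRF (psi (0 : k))
  obtain ⟨s, hs⟩ := exists_inertia h he0 ζ hζ.pow_eq_one (psi (0 : k)) ε₀ hε₀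
  have hcper : ∀ (γ : RF R p), Function.IsPeriodicPt c p γ := fun γ => hcp γ
  -- the generators
  have hTi : ∀ (i : ℕ) (x : RatFunc k), (T' ^ i) (ψ x) = ψ ((sig k)^[i] x) := by
    intro i
    induction i with
    | zero => intro x; rfl
    | succ i ih =>
      intro x
      rw [pow_succ, RingAut.mul_apply, hT', ih, Function.iterate_succ_apply]
  have hsC : ∀ (i : ℕ) (a : k), (sig k)^[i] (RatFunc.C a) = RatFunc.C a := by
    intro i a
    induction i with
    | zero => rfl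
    | succ i ih => rw [Function.iterate_succ_apply, sig_C, ih]
  have hsX : ∀ (i : ℕ), (sig k)^[i] (RatFunc.X : RatFunc k) = RatFunc.X + (i : RatFunc k) := by
    intro i
    induction i with
    | zero => simp
    | succ i ih =>
      rw [Function.iterate_succ_apply', ih, map_add, sig_X, map_natCast]
      push_cast
      ring
  have hεi : ∀ i : ℕ, (ε₀.comp ((T' ^ i : RingAut L) : L →+* L)).comp ψ =
      (phi k (Nat.card (RF R p))).comp (psi ((i : ℕ) : k)) := by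
    intro i
    have h0 : ∀ x, ε₀ (ψ x) = phi k (Nat.card (RF R p)) (psi (0 : k) x) := fun x =>
      congrArg (fun f : RatFunc k →+* LaurentSeries k => f x) hε₀
    refine ratHom_ext (fun a => ?_) ?_
    · simp only [RingHom.comp_apply, RingHom.coe_coe]
      rw [hTi, hsC, h0, psi_C, psi_C]
    · simp only [RingHom.comp_apply, RingHom.coe_coe]
      rw [hTi, hsX, h0, map_add, psi_X, psi_X, map_natCast, map_zero, zero_add, map_natCast,
        add_comm]
  have hH : Subgroup.closure (Set.range fun j : Fin p => c^[(j : ℕ)] s) = ⊤ := by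
    refine generation (p := p) h hℓk hRF hg _ ?_
    intro b hb
    obtain ⟨j, rfl⟩ := (mem_Fp_iff b).1 hb
    refine ⟨Nat.card (RF R p), ζ, ε₀.comp ((T' ^ (j : ℕ) : RingAut L) : L →+* L),
      c^[p - (j : ℕ)] s, he0, hζ, hεi j, ?_, ?_⟩
    · intro a
      simp only [RingHom.comp_apply, RingHom.coe_coe]
      rw [hs, V7_iter T' c hc (j : ℕ), ← Function.iterate_add_apply,
        Nat.add_sub_cancel' j.2.le, hcp]
    · apply Subgroup.subset_closure
      have hp0 : 0 < p := hp.out.pos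
      refine ⟨⟨(p - (j : ℕ)) % p, Nat.mod_lt _ hp0⟩, ?_⟩
      exact (hcper s).iterate_mod_apply (p - (j : ℕ))
  have hgj : ∀ j : ℕ, g ^ j * (r : G) * (g ^ j)⁻¹ ∈ R := by
    intro j
    induction j with
    | zero => simp
    | succ j ih =>
      have h1 := hgR _ ih
      have h2 : g * (g ^ j * (r : G) * (g ^ j)⁻¹) * g⁻¹ = g ^ (j + 1) * (r : G) * (g ^ (j + 1))⁻¹ := by
        rw [pow_succ', mul_inv_rev]
        group
      rwa [h2] at h1
  obtain ⟨π, hπ⟩ := RF.univ R p (fun j : Fin p => c^[(j : ℕ)] s) hH (RF.sep R p) le_rfl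
    (fun j => ⟨g ^ (j : ℕ) * (r : G) * (g ^ (j : ℕ))⁻¹, hgj j⟩)
  have hπj : ∀ j : ℕ, ((π (c^[j] s) : R) : G) = g ^ j * (r : G) * (g ^ j)⁻¹ := by
    intro j
    have h1 := hπ ⟨j % p, Nat.mod_lt _ hp.out.pos⟩
    have h2 : c^[j % p] s = c^[j] s := (hcper s).iterate_mod_apply j
    simp only [h2] at h1
    have h3 := congrArg (fun y : R => (y : G)) h1
    simp only at h3
    rw [h3, ← pow_eq_pow_mod j hgp]
  refine ⟨π, ?_, ?_⟩
  · have h1 : (R.subtype.comp π).comp c.toMonoidHom =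
        (MulAut.conj g).toMonoidHom.comp (R.subtype.comp π) := by
      refine MonoidHom.eq_of_eqOn_dense hH ?_
      rintro _ ⟨j, rfl⟩
      have h2 : c (c^[(j : ℕ)] s) = c^[(j : ℕ) + 1] s := (Function.iterate_succ_apply' c j s).symm
      have h3 : ((π (c (c^[(j : ℕ)] s)) : R) : G) = g * ((π (c^[(j : ℕ)] s) : R) : G) * g⁻¹ := by
        rw [h2, hπj, hπj, pow_succ', mul_inv_rev]
        group
      exact h3
    intro γ
    exact congrArg (fun f : RF R p →* G => f γ) h1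
  · refine ⟨s, ?_⟩
    have h1 := hπj 0
    apply Subtype.ext
    rw [Function.iterate_zero, id] at h1
    rw [h1]
    simp

end

end Pool.Agent.MP_1c8e06_ag.AK
end
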