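import Pool.Agent.Lib.MP_1c8e06_ag.Mg.G031
import Pool.Agent.Lib.MP_1c8e06_ag.AK.Defs
import Pool.Agent.Lib.MP_1c8e06_ag.Mg.G090
import Pool.Agent.Lib.MP_1c8e06_ag.Mg.G021
import Pool.Agent.Lib.MP_1c8e06_ag.Mg.G025

section

set_option autoImplicit false

open Polynomial

namespace Pool.Agent.MP_1c8e06_ag.AK

noncomputable section

/-!
# Task V3a: the compositum of two good extensions

Proof.  `T := AlgebraicClosure (RatFunc k)`; `M_i` is algebraic over `RatFunc k` via `ψ_i` (`IsG.finiteDimensional`), so there are `j_i : M_i → T` over `RatFunc k`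
(`IsAlgClosed.lift` with the algebra structures `ψ_i.toAlgebra`); `compositum` (`AK/V2.lean`): `N, Γ, …`.  `Γ` is an `ℓ`-group: `γ ↦ (ρ₁ γ, ρ₂ γ)` embeds it in `R₁ × R₂`.
Good: let `b ∉ S`, `C := AlgebraicClosure (LaurentSeries k)`, `ι : k((t)) → C`, `ψC := ι.comp (psi b)`; `N` is algebraic over `RatFunc k` via `ψ`, so there is `ε : N → C` with `ε.comp ψ = ψC`.  For `i = 1, 2`:
`ε_i : M_i → k((t))`, `ε_i.comp ψ_i = psi b` (`GoodS`); `ε.comp i_i` and `ι.comp ε_i` agree on `ψ_i(K)`, so (`exists_smul`, `AK/F2.lean`) `ε (i_i m) = ι (ε_i (r • m))` for some `r ∈ R_i`: the range of `ε.comp i_i` is contained in the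
subfield `F := ι.fieldRange`.  `N` is generated by the images of `M₁, M₂` (`N = closure …`; consider the subfield `F.comap ε`), so `ε(N) ⊆ F`, and `ε = ι.comp ε'` for a ring homomorphism `ε' : N → k((t))`
(`RingHom.codRestrict`, the inverse of `k((t)) ≃ ι.fieldRange`); `ε'.comp ψ = psi b` since `ι` is injective.
-/

private theorem V3a_lift {K M R C : Type} [Field K] [Field M] [Group R] [Finite R]
    [MulSemiringAction R M] {ψ : K →+* M} {Z : Subgroup R} (h : IsG ψ R Z) [Field C]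
    [IsAlgClosed C] (κ : K →+* C) : ∃ j : M →+* C, j.comp ψ = κ := by
  let _ : Algebra K M := ψ.toAlgebra
  let _ : Algebra K C := κ.toAlgebra
  have hfd : FiniteDimensional K M := h.finiteDimensional rfl
  have halg : Algebra.IsAlgebraic K M := inferInstance
  let j : M →ₐ[K] C := IsAlgClosed.lift
  exact ⟨j.toRingHom, RingHom.ext fun x => j.commutes x⟩

theorem good_compositum {k M₁ M₂ R₁ R₂ : Type} [Field k] [Field M₁] [Field M₂]
    [Group R₁] [Finite R₁] [MulSemiringAction R₁ M₁] [Group R₂] [Finite R₂]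
    [MulSemiringAction R₂ M₂] {ψ₁ : RatFunc k →+* M₁} {ψ₂ : RatFunc k →+* M₂}
    (h₁ : IsG ψ₁ R₁ ⊥) (h₂ : IsG ψ₂ R₂ ⊥) (S : Set k) (hg₁ : GoodS S ψ₁) (hg₂ : GoodS S ψ₂)
    {ℓ : ℕ} (hR₁ : IsPGroup ℓ R₁) (hR₂ : IsPGroup ℓ R₂) :
    ∃ (N : Type) (_ : Field N) (Γ : Type) (_ : Group Γ) (_ : Finite Γ) (_ : MulSemiringAction Γ N)
      (ψ : RatFunc k →+* N) (i₁ : M₁ →+* N) (i₂ : M₂ →+* N) (ρ₁ : Γ →* R₁) (ρ₂ : Γ →* R₂),
      IsG ψ Γ (⊥ : Subgroup Γ) ∧ i₁.comp ψ₁ = ψ ∧ i₂.comp ψ₂ = ψ ∧ GoodS S ψ ∧ IsPGroup ℓ Γ ∧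
      ∀ γ : Γ, ρ₁ γ = 1 → ρ₂ γ = 1 → γ = 1 := by
  obtain ⟨j₁, hj₁⟩ := V3a_lift h₁ (algebraMap (RatFunc k) (AlgebraicClosure (RatFunc k)))
  obtain ⟨j₂, hj₂⟩ := V3a_lift h₂ (algebraMap (RatFunc k) (AlgebraicClosure (RatFunc k)))
  obtain ⟨N, Γ, iG, iF, iA, ψ, i₁, i₂, ρ₁, ρ₂, hN, hG, hi₁, hi₂, hc₁, hc₂, -, -, hinj, -, -, -⟩ :=
    compositum h₁ h₂ j₁ j₂ (hj₁.trans hj₂.symm)
  refine ⟨N, inferInstance, Γ, iG, iF, iA, ψ, i₁, i₂, ρ₁, ρ₂, hG, hi₁, hi₂, ?_, ?_, hinj⟩
  · intro b hb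
    obtain ⟨ε₁, hε₁⟩ := hg₁ b hb
    obtain ⟨ε₂, hε₂⟩ := hg₂ b hb
    set ι : LaurentSeries k →+* AlgebraicClosure (LaurentSeries k) :=
      algebraMap (LaurentSeries k) (AlgebraicClosure (LaurentSeries k)) with hι
    obtain ⟨ε, hε⟩ := V3a_lift hG (ι.comp (psi b))
    have hr₁ : ∀ m, ∃ y, ι y = ε (i₁ m) := by
      obtain ⟨r, hr⟩ := exists_smul h₁ (ι.comp ε₁) (ε.comp i₁) (by
        rw [RingHom.comp_assoc, RingHom.comp_assoc, hε₁, hi₁, hε])
      exact fun m => ⟨ε₁ (r • m), (hr m).symm⟩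
    have hr₂ : ∀ m, ∃ y, ι y = ε (i₂ m) := by
      obtain ⟨r, hr⟩ := exists_smul h₂ (ι.comp ε₂) (ε.comp i₂) (by
        rw [RingHom.comp_assoc, RingHom.comp_assoc, hε₂, hi₂, hε])
      exact fun m => ⟨ε₂ (r • m), (hr m).symm⟩
    have hrange : ∀ x : N, ∃ y, ι y = ε x := by
      let F : Subfield N := ι.fieldRange.comap ε
      have hle : Subfield.closure (Set.range j₁ ∪ Set.range j₂) ≤ F.map N.subtype := by
        rw [Subfield.closure_le]
        rintro _ (⟨m, rfl⟩ | ⟨m, rfl⟩)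
        · exact Subfield.mem_map.2 ⟨i₁ m, hr₁ m, hc₁ m⟩
        · exact Subfield.mem_map.2 ⟨i₂ m, hr₂ m, hc₂ m⟩
      intro x
      have hx : (x : AlgebraicClosure (RatFunc k)) ∈
          Subfield.closure (Set.range j₁ ∪ Set.range j₂) := hN ▸ x.2
      obtain ⟨y, hy, hyx⟩ := Subfield.mem_map.1 (hle hx)
      have hyx' : y = x := Subtype.ext hyx
      rw [← hyx']
      exact hy
    choose g hg using hrange
    let ε' : N →+* LaurentSeries k :=
      { toFun := g
        map_one' := ι.injective (by rw [hg, map_one, map_one])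
        map_mul' := fun x y => ι.injective (by rw [hg, map_mul, map_mul, hg, hg])
        map_zero' := ι.injective (by rw [hg, map_zero, map_zero])
        map_add' := fun x y => ι.injective (by rw [hg, map_add, map_add, hg, hg]) }
    refine ⟨ε', RingHom.ext fun x => ι.injective ?_⟩
    show ι (g (ψ x)) = ι (psi b x)
    rw [hg]
    exact RingHom.congr_fun hε x
  · intro γ
    obtain ⟨a, ha⟩ := hR₁ (ρ₁ γ)
    obtain ⟨b, hb⟩ := hR₂ (ρ₂ γ)
    refine ⟨a + b, hinj _ ?_ ?_⟩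
    · rw [map_pow, pow_add, pow_mul, ha, one_pow]
    · rw [map_pow, pow_add, mul_comm, pow_mul, hb, one_pow]

end

end Pool.Agent.MP_1c8e06_ag.AK
end

section

set_option autoImplicit false

open Polynomial

namespace Pool.Agent.MP_1c8e06_ag.AK

noncomputable section

/-!
# Task V5a: evaluation of Laurent series at an element of positive weight

Notation: `AI/Defs.lean`, `AI/A0.lean` (coordinates `coordE`, `eq_sum_coordE`, `extE`, `coordE_add`, `coordE_ofL_mul`, …), `AI/A1.lean` (`Fil.mul`, `Fil.add`, `Fil.mono`,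
`Fil.sep`, `Fil.sum`), `AI/A5.lean` (`irreducible_asPoly hF`, so `EE p F` is a field: `letI : Fact (Irreducible (AI.asPoly p F)) := ⟨AI.irreducible_asPoly hF⟩`, `AdjoinRoot.instField`; `isDomain_EE`).
Proof.  Let `Fil 1 w`.  `Fil n (w ^ n)` (`Fil.mul`).  For a power series `f = ∑ a_n t ^ n` define `Λ₀ f := ∑_{j<p} ofL c_j * yy ^ j`, where `c_j : LaurentSeries k` has
`i`-th coefficient `∑_{n} a_n * (coordE (w ^ n) j).coeff i`, a finite sum: the `n`-th term vanishes unless `n ≤ p i - j deg F` (definition of `Fil`); it vanishes for `i` small (`p i - j deg F < 0`), so `c_j` is a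
Laurent series (`HahnSeries` with support bounded below).  Key estimate: for all `N`, `Fil N (Λ₀ f - ∑_{n<N} ze (C a_n) * w ^ n)` (`coordE_sum_yy` for the coordinates of `Λ₀ f`; coordinates of
`ze (C a) * x` are `a` times those of `x`).  So `Λ₀` is additive, `Λ₀ (C a) = ze (C a)`, `Λ₀ X = w`, and
multiplicative: modulo `Fil N`: `Λ₀ f * Λ₀ g ≡ (∑_{n<N} a_n w ^ n) (∑_{n<N} b_n w ^ n) ≡ ∑_{n<N} (∑_{i+j=n} a_i b_j) w ^ n` (each `Λ₀ f` is in `Fil 0`), and `Fil.sep`.
`Λ : LaurentSeries k → EE p F` extends `Λ₀`: `w ≠ 0` is a unit, `LaurentSeries k` is the localization of `PowerSeries k` at the powers of `X`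
(`LaurentSeries.of_powerSeries_localization`): `IsLocalization.lift`.
-/

private theorem V5a_Fil_C {p : ℕ} [hp : Fact p.Prime] {k : Type} [Field k] {F : k[X]} (c : k) :
    AI.Fil p F 0 (AI.ze p F (C c)) := by
  have h := AI.Fil.ze (p := p) (F := F) (C c)
  refine h.mono ?_
  simp

private theorem V5a_Fil_pow {p : ℕ} [hp : Fact p.Prime] {k : Type} [Field k] {F : k[X]}
    {w : AI.EE p F} (hw : AI.Fil p F 1 w) (n : ℕ) : AI.Fil p F (n : ℤ) (w ^ n) := by
  induction n with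
  | zero =>
    rw [pow_zero]
    exact AI.Fil.one
  | succ n ih =>
    rw [pow_succ]
    exact (ih.mul hw).mono (by push_cast; exact le_refl _)

/-- evaluation of polynomials at `w` -/
private def V5a_ev (p : ℕ) {k : Type} [Field k] (F : k[X]) (w : AI.EE p F) :
    k[X] →+* AI.EE p F :=
  Polynomial.eval₂RingHom ((AI.ze p F).comp C) w

private theorem V5a_ev_Fil {p : ℕ} [hp : Fact p.Prime] {k : Type} [Field k] {F : k[X]}
    {w : AI.EE p F} (hw : AI.Fil p F 1 w) (q : k[X]) : AI.Fil p F 0 (V5a_ev p F w q) := by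
  rw [V5a_ev, Polynomial.coe_eval₂RingHom, Polynomial.eval₂_eq_sum_range]
  refine AI.Fil.sum _ fun i _ => ?_
  have h := (V5a_Fil_C (p := p) (F := F) (q.coeff i)).mul (V5a_Fil_pow hw i)
  exact h.mono (by positivity)

private theorem V5a_ev_dvd {p : ℕ} [hp : Fact p.Prime] {k : Type} [Field k] {F : k[X]}
    {w : AI.EE p F} (hw : AI.Fil p F 1 w) (q : k[X]) (N : ℕ) (h : ∀ d < N, q.coeff d = 0) :
    AI.Fil p F (N : ℤ) (V5a_ev p F w q) := by
  obtain ⟨r, rfl⟩ := Polynomial.X_pow_dvd_iff.2 h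
  rw [map_mul, map_pow]
  have hX : V5a_ev p F w X = w := by
    rw [V5a_ev, Polynomial.coe_eval₂RingHom, Polynomial.eval₂_X]
  rw [hX]
  exact ((V5a_Fil_pow hw N).mul (V5a_ev_Fil hw r)).mono (by simp)

/-- `x` is the value of the power series `f` at `w` -/
private def V5a_Is (p : ℕ) [Fact p.Prime] {k : Type} [Field k] (F : k[X]) (w : AI.EE p F)
    (f : PowerSeries k) (x : AI.EE p F) : Prop :=
  ∀ N : ℕ, AI.Fil p F (N : ℤ) (x - V5a_ev p F w (PowerSeries.trunc N f))

private theorem V5a_uniq {p : ℕ} [hp : Fact p.Prime] {k : Type} [Field k] {F : k[X]}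
    {w : AI.EE p F} {f : PowerSeries k} {x y : AI.EE p F} (hx : V5a_Is p F w f x)
    (hy : V5a_Is p F w f y) : x = y := by
  rw [← sub_eq_zero]
  refine AI.Fil.sep fun N => ?_
  have h := (hx N.toNat).sub (hy N.toNat)
  rw [sub_sub_sub_cancel_right] at h
  exact h.mono (Int.self_le_toNat N)

private theorem V5a_poly {p : ℕ} [hp : Fact p.Prime] {k : Type} [Field k] {F : k[X]}
    {w : AI.EE p F} (hw : AI.Fil p F 1 w) (q : k[X]) :
    V5a_Is p F w (q : PowerSeries k) (V5a_ev p F w q) := by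
  intro N
  rw [← map_sub]
  refine V5a_ev_dvd hw _ N fun d hd => ?_
  rw [Polynomial.coeff_sub, PowerSeries.coeff_trunc, if_pos hd, Polynomial.coeff_coe, sub_self]

private theorem V5a_add {p : ℕ} [hp : Fact p.Prime] {k : Type} [Field k] {F : k[X]}
    {w : AI.EE p F} {f g : PowerSeries k} {x y : AI.EE p F} (hx : V5a_Is p F w f x)
    (hy : V5a_Is p F w g y) : V5a_Is p F w (f + g) (x + y) := by
  intro N
  rw [map_add, map_add, add_sub_add_comm]
  exact (hx N).add (hy N)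

private theorem V5a_Is_Fil {p : ℕ} [hp : Fact p.Prime] {k : Type} [Field k] {F : k[X]}
    {w : AI.EE p F} {f : PowerSeries k} {x : AI.EE p F} (hx : V5a_Is p F w f x) :
    AI.Fil p F 0 x := by
  have h := hx 0
  rw [PowerSeries.trunc_zero', map_zero, sub_zero] at h
  exact h

private theorem V5a_mul {p : ℕ} [hp : Fact p.Prime] {k : Type} [Field k] {F : k[X]}
    {w : AI.EE p F} (hw : AI.Fil p F 1 w) {f g : PowerSeries k} {x y : AI.EE p F}
    (hx : V5a_Is p F w f x) (hy : V5a_Is p F w g y) : V5a_Is p F w (f * g) (x * y) := by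
  intro N
  have h1 : AI.Fil p F (N : ℤ) (V5a_ev p F w (PowerSeries.trunc N f * PowerSeries.trunc N g -
      PowerSeries.trunc N (f * g))) := by
    refine V5a_ev_dvd hw _ N fun d hd => ?_
    rw [Polynomial.coeff_sub, PowerSeries.coeff_trunc, if_pos hd, Polynomial.coeff_mul,
      PowerSeries.coeff_mul, sub_eq_zero]
    refine Finset.sum_congr rfl fun z hz => ?_
    have hz' := Finset.HasAntidiagonal.mem_antidiagonal.1 hz
    rw [PowerSeries.coeff_trunc, PowerSeries.coeff_trunc, if_pos (by omega), if_pos (by omega)]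
  have h2 := (V5a_Is_Fil hx).mul (hy N)
  have h3 := (hx N).mul (V5a_ev_Fil hw (PowerSeries.trunc N g))
  rw [zero_add] at h2
  rw [add_zero] at h3
  have h4 := (h2.add h3).add h1
  rw [map_sub, map_mul] at h4
  convert h4 using 1
  ring

private theorem V5a_sum_range {M : Type} [AddCommMonoid M] (T : ℕ → M) {A B : ℕ}
    (hA : ∀ n, A ≤ n → T n = 0) (hB : ∀ n, B ≤ n → T n = 0) :
    ∑ n ∈ Finset.range A, T n = ∑ n ∈ Finset.range B, T n := by
  rcases le_total A B with h | h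
  · refine Finset.sum_subset (Finset.range_mono h) fun n _ hn => hA n ?_
    simpa using hn
  · refine (Finset.sum_subset (Finset.range_mono h) fun n _ hn => hB n ?_).symm
    simpa using hn

private theorem V5a_exists {p : ℕ} [hp : Fact p.Prime] {k : Type} [Field k] {F : k[X]}
    {w : AI.EE p F} (hw : AI.Fil p F 1 w) (f : PowerSeries k) : ∃ x, V5a_Is p F w f x := by
  have hp0 : (0 : ℤ) < p := by exact_mod_cast hp.out.pos
  obtain ⟨T, hT⟩ : ∃ T : ℕ → ℤ → ℕ → k, T = fun j i n => PowerSeries.coeff n f *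
    (AI.coordE p F (w ^ n) j).coeff i := ⟨_, rfl⟩
  obtain ⟨c, hc⟩ : ∃ c : ℕ → LaurentSeries k, c = fun j => HahnSeries.ofPowerSeries ℤ k
    (PowerSeries.mk fun i => ∑ n ∈ Finset.range (p * i + 1), T j (i : ℤ) n) := ⟨_, rfl⟩
  have hT0 : ∀ j < p, ∀ (i : ℤ) (n : ℕ), (p : ℤ) * i - (j : ℤ) * (F.natDegree : ℤ) < n →
      T j i n = 0 := by
    intro j hj i n hn
    rw [hT]
    change PowerSeries.coeff n f * (AI.coordE p F (w ^ n) j).coeff i = 0
    rw [V5a_Fil_pow hw n j hj i hn, mul_zero]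
  refine ⟨∑ j ∈ Finset.range p, AI.ofL p F (c j) * AI.yy p F ^ j, fun N j hj i hi => ?_⟩
  have hjn : (0 : ℤ) ≤ (j : ℤ) * (F.natDegree : ℤ) := by positivity
  rw [AI.coordE_sub, AI.coordE_sum_yy c hj, HahnSeries.coeff_sub, V5a_ev,
    Polynomial.coe_eval₂RingHom, PowerSeries.eval₂_trunc_eq_sum_range, AI.coordE_sum,
    HahnSeries.coeff_sum, sub_eq_zero]
  have e1 : ∀ n ∈ Finset.range N, (AI.coordE p F (((AI.ze p F).comp C) (PowerSeries.coeff n f) *
      w ^ n) j).coeff i = T j i n := by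
    intro n _
    rw [hT]
    have h := AI.coeff_coordE_X_pow_mul (p := p) (F := F) 0 (PowerSeries.coeff n f) (w ^ n) j i
    rw [pow_zero, mul_one] at h
    rw [RingHom.comp_apply, h]
    simp
  rw [Finset.sum_congr rfl e1]
  by_cases h0 : 0 ≤ i
  · obtain ⟨m, rfl⟩ : ∃ m : ℕ, i = (m : ℤ) := ⟨i.toNat, by omega⟩
    rw [hc]
    change (HahnSeries.ofPowerSeries ℤ k (PowerSeries.mk fun i =>
      ∑ n ∈ Finset.range (p * i + 1), T j (i : ℤ) n)).coeff (m : ℤ) = _
    rw [HahnSeries.ofPowerSeries_apply_coeff, PowerSeries.coeff_mk]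
    refine V5a_sum_range _ (fun n hn => hT0 j hj _ n ?_) (fun n hn => hT0 j hj _ n ?_)
    · have : ((p * m + 1 : ℕ) : ℤ) ≤ n := by exact_mod_cast hn
      push_cast at this
      omega
    · have : (N : ℤ) ≤ n := by exact_mod_cast hn
      omega
  · have h1 : (c j).coeff i = 0 := by
      rw [hc]
      change (HahnSeries.ofPowerSeries ℤ k _).coeff i = 0
      rw [HahnSeries.ofPowerSeries_apply, HahnSeries.embDomain_of_notMem_range]
      simp only [Nat.castOrderEmbedding_apply, Set.mem_range, not_exists]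
      intro n hn
      omega
    rw [h1]
    refine (Finset.sum_eq_zero fun n _ => hT0 j hj i n ?_).symm
    have h2 : (p : ℤ) * i < 0 := mul_neg_of_pos_of_neg hp0 (by omega)
    have h3 : (0 : ℤ) ≤ n := Int.natCast_nonneg n
    omega

theorem exists_eval {p : ℕ} [hp : Fact p.Prime] {k : Type} [Field k] {F : k[X]}
    (hF : ¬ p ∣ F.natDegree) (w : AI.EE p F) (hw0 : w ≠ 0) (hw : AI.Fil p F 1 w) :
    ∃ Λ : LaurentSeries k →+* AI.EE p F,
      (∀ c : k, Λ (HahnSeries.C c) = AI.ze p F (C c)) ∧ Λ (tt k) = w := by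
  classical
  choose Λ₀ hΛ₀ using fun f : PowerSeries k => V5a_exists hw f
  let Λ₁ : PowerSeries k →+* AI.EE p F :=
    { toFun := Λ₀
      map_one' := by
        have h := V5a_poly hw (1 : k[X])
        rw [map_one, Polynomial.coe_one] at h
        exact V5a_uniq (hΛ₀ 1) h
      map_mul' := fun f g => V5a_uniq (hΛ₀ (f * g)) (V5a_mul hw (hΛ₀ f) (hΛ₀ g))
      map_zero' := by
        have h := V5a_poly hw (0 : k[X])
        rw [map_zero, Polynomial.coe_zero] at h
        exact V5a_uniq (hΛ₀ 0) h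
      map_add' := fun f g => V5a_uniq (hΛ₀ (f + g)) (V5a_add (hΛ₀ f) (hΛ₀ g)) }
  have hC : ∀ c : k, Λ₁ (PowerSeries.C c) = AI.ze p F (C c) := by
    intro c
    have h := V5a_poly hw (C c)
    rw [Polynomial.coe_C] at h
    have h2 : V5a_ev p F w (C c) = AI.ze p F (C c) := by
      rw [V5a_ev, Polynomial.coe_eval₂RingHom, Polynomial.eval₂_C]
      rfl
    rw [← h2]
    exact V5a_uniq (hΛ₀ _) h
  have hX : Λ₁ PowerSeries.X = w := by
    have h := V5a_poly hw (X : k[X])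
    rw [Polynomial.coe_X] at h
    have h2 : V5a_ev p F w X = w := by
      rw [V5a_ev, Polynomial.coe_eval₂RingHom, Polynomial.eval₂_X]
    rw [h2] at h
    exact V5a_uniq (hΛ₀ _) h
  have hwu : IsUnit w := by
    let _ : Fact (Irreducible (AI.asPoly p F)) := ⟨AI.irreducible_asPoly hF⟩
    exact isUnit_iff_ne_zero.2 hw0
  have hu : ∀ y : Submonoid.powers (PowerSeries.X : PowerSeries k), IsUnit (Λ₁ y) := by
    rintro ⟨_, n, rfl⟩
    change IsUnit (Λ₁ (PowerSeries.X ^ n))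
    rw [map_pow, hX]
    exact hwu.pow n
  refine ⟨IsLocalization.lift (M := Submonoid.powers (PowerSeries.X : PowerSeries k))
    (S := LaurentSeries k) hu, fun c => ?_, ?_⟩
  · have h := IsLocalization.lift_eq (S := LaurentSeries k) hu (PowerSeries.C c)
    rw [hC] at h
    rw [← h]
    congr 1
    exact (PowerSeries.coe_C c).symm
  · have h := IsLocalization.lift_eq (S := LaurentSeries k) hu (PowerSeries.X)
    rw [hX] at h
    conv_rhs => rw [← h]
    congr 1
    exact (PowerSeries.coe_X).symm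

end

end Pool.Agent.MP_1c8e06_ag.AK
end

section

set_option autoImplicit false

open Polynomial

namespace Pool.Agent.MP_1c8e06_ag.AK

noncomputable section

/-!
# Task V6: the automorphism `T'` of `L` induced by `tau`

Proof.  `EE p F` is a field (`AI.irreducible_asPoly hF`).  The homomorphisms `ε₁ := j.comp T` and `ε₂ := (AI.tau p F).comp j` from `L` agree on `ψ(K)`: compare on constants and on `X`
(`ratHom_ext`): `j (T (ψ X)) = j (ψ (X + 1)) = yy + 1 = tau yy` (`AI.tau_yy`, `sig_X`), constants: `sig_C`, `AI.tau_ze`.  `exists_smul`: `ρ ∈ Γ` with `tau (j a) = j (T (ρ • a))`.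
`T' := T ∘ (ρ • ·)` (`MulSemiringAction.toRingAut`).  `T' (ψ x) = T (ψ x) = ψ (sig x)`.  `T' ^ p = 1`: `j (T'^[n] a) = tau^[n] (j a)`, `AI.tau_iterate_p`, `j` injective.
-/

theorem exists_T' {p : ℕ} [hp : Fact p.Prime] {k L Γ : Type} [Field k] [CharP k p] [Field L]
    [Group Γ] [Finite Γ] [MulSemiringAction Γ L] {ψ : RatFunc k →+* L} (h : IsG ψ Γ ⊥) {F : k[X]}
    (hF : ¬ p ∣ F.natDegree) (j : L →+* AI.EE p F)
    (hjC : ∀ c : k, j (ψ (RatFunc.C c)) = AI.ze p F (C c)) (hjX : j (ψ RatFunc.X) = AI.yy p F)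
    (T : L ≃+* L) (hT : ∀ x, T (ψ x) = ψ (sig k x)) :
    ∃ T' : RingAut L, (∀ x, T' (ψ x) = ψ (sig k x)) ∧ (∀ a, j (T' a) = AI.tau p F (j a)) ∧
      T' ^ p = 1 := by
  have : Fact (Irreducible (AI.asPoly p F)) := ⟨AI.irreducible_asPoly hF⟩
  have he : (j.comp (T : L →+* L)).comp ψ = ((AI.tau p F).comp j).comp ψ := by
    refine ratHom_ext ?_ ?_
    · intro c
      change j (T (ψ (RatFunc.C c))) = AI.tau p F (j (ψ (RatFunc.C c)))
      rw [hT, sig_C, hjC, AI.tau_ze]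
    · change j (T (ψ RatFunc.X)) = AI.tau p F (j (ψ RatFunc.X))
      rw [hT, sig_X, map_add, map_add, map_one, map_one, hjX, AI.tau_yy]
  obtain ⟨ρ, hρ⟩ := exists_smul (T := AI.EE p F) h (j.comp (T : L →+* L)) ((AI.tau p F).comp j) he
  have hρ' : ∀ a, AI.tau p F (j a) = j (T (ρ • a)) := hρ
  let T' : RingAut L := T * MulSemiringAction.toRingAut Γ L ρ
  have hT'a : ∀ a, T' a = T (ρ • a) := fun a => rfl
  have hT'j : ∀ a, j (T' a) = AI.tau p F (j a) := fun a => by rw [hT'a, hρ']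
  refine ⟨T', fun x => ?_, hT'j, ?_⟩
  · rw [hT'a, h.smul_ψ, hT]
  · have hn : ∀ (n : ℕ) (a : L), j ((T' ^ n) a) = (AI.tau p F)^[n] (j a) := by
      intro n
      induction n with
      | zero => intro a; rfl
      | succ n ih =>
        intro a
        rw [pow_succ', Function.iterate_succ_apply', ← ih a, ← hT'j]
        rfl
    ext a
    apply j.injective
    rw [hn p a, AI.tau_iterate_p]
    rfl

end

end Pool.Agent.MP_1c8e06_ag.AK
end

section

set_option autoImplicit false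

open Polynomial

namespace Pool.Agent.MP_1c8e06_ag.AK

noncomputable section

/-!
# Task V8: the group generated by `Γ` and `T'`

Proof.  Let `Aut := RingAut L`, `θ : Γ →* Aut` the action (`MulSemiringAction.toRingAut Γ L`), injective.  `A := closure (range θ ∪ {T'})` in `Aut`, acting on `L` (a subgroup of `RingAut L` acts: `RingAut.applyMulSemiringAction`).
  `N := θ(Γ)` is normal in `A`: `T' θ(γ) T'⁻¹ = θ (c γ)`; `T' ^ p = 1`; `T' ^ i ∉ θ(Γ)` for `0 < i < p` (`T' ^ i (ψ X) = ψ (X + i) ≠ ψ X`).  Every element of `A` is `θ(γ) T' ^ i`, `i < p`: `card A = p * card Γ`.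
  `IsG (ψ ∘ qh) A ⊥`: faithful clear; an element fixed by `A` is fixed by `Γ`, so is `ψ x`, and `T' (ψ x) = ψ (sig x)`, so `sig x = x`, `sig_fixed` (`AK/V8a.lean`); conversely `ψ (qh x)` is fixed by `Γ` and by `T'`
  (`sig (qh x) = qh x`: `ratHom_ext`, characteristic `p`).
  `Φ`: `ext_hom` (`AK/S2.lean`) for `θ(Γ) ⊴ A`, `t := T'`, `n := p`, `f := Φ₀ ∘ θ⁻¹`, `τ := g`.
  (Another way to define `A`: the semidirect product of `Γ` and `Multiplicative (ZMod p)` acting through `c`, `SemidirectProduct.lift` for `Φ`.)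
-/

private theorem V8_zhom {p : ℕ} {G : Type} [Group G] (g : G) (hg : g ^ p = 1) :
    ∃ h : Multiplicative (ZMod p) →* G, h (Multiplicative.ofAdd 1) = g := by
  refine ⟨AddMonoidHom.toMultiplicativeLeft (ZMod.lift p ⟨zmultiplesHom (Additive G) (Additive.ofMul g), ?_⟩), ?_⟩
  · rw [zmultiplesHom_apply, ← ofMul_zpow, zpow_natCast, hg, ofMul_one]
  · change Additive.toMul ((ZMod.lift p ⟨zmultiplesHom (Additive G) (Additive.ofMul g), _⟩) (1 : ZMod p)) = g
    have h1 : (1 : ZMod p) = ((1 : ℤ) : ZMod p) := by rw [Int.cast_one]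
    rw [h1, ZMod.lift_coe]
    simp

private theorem V8_gen {p : ℕ} [Fact p.Prime] (z : Multiplicative (ZMod p)) :
    ∃ i : ℕ, i < p ∧ z = (Multiplicative.ofAdd (1 : ZMod p)) ^ i := by
  refine ⟨(Multiplicative.toAdd z).val, ZMod.val_lt _, ?_⟩
  rw [← ofAdd_nsmul, nsmul_eq_mul, mul_one, ZMod.natCast_zmod_val]
  rfl

private theorem V8_pow {Γ H : Type} [Group Γ] [Group H] (f : Γ →* H) (t : H) (c : MulAut Γ)
    (h : ∀ γ, f (c γ) = t * f γ * t⁻¹) (n : ℕ) (γ : Γ) : f ((c ^ n) γ) = t ^ n * f γ * (t ^ n)⁻¹ := by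
  induction n generalizing γ with
  | zero => simp
  | succ n ih =>
    rw [pow_succ, MulAut.mul_apply, ih, h, pow_succ]
    group

private theorem V8_sigqh {p : ℕ} [hp : Fact p.Prime] {k : Type} [Field k] [CharP k p]
    (x : RatFunc k) : sig k (qh p k x) = qh p k x := by
  have h : (sig k).comp (qh p k) = qh p k := by
    refine ratHom_ext (fun c => ?_) ?_
    · rw [RingHom.comp_apply, qh, compR_C, sig_C]
    · rw [RingHom.comp_apply, qh, compR_X]
      haveI : CharP (RatFunc k) p := charP_of_injective_ringHom (RatFunc.C_injective (K := k)) p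
      simp only [map_sub, map_pow, RatFunc.algebraMap_X, sig_X]
      rw [add_pow_char, one_pow]
      ring
  exact congrArg (fun f : RatFunc k →+* RatFunc k => f x) h

theorem exists_A {p : ℕ} [hp : Fact p.Prime] {k L Γ : Type} [Field k] [CharP k p] [Field L]
    [Group Γ] [Finite Γ] [MulSemiringAction Γ L] {ψ : RatFunc k →+* L} (h : IsG ψ Γ ⊥)
    (T' : RingAut L) (hT' : ∀ x, T' (ψ x) = ψ (sig k x)) (hTp : T' ^ p = 1) (c : Γ ≃* Γ)
    (hc : ∀ (γ : Γ) (a : L), T' (γ • a) = c γ • T' a) {G : Type} [Group G] (Φ₀ : Γ →* G) (g : G)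
    (hgp : g ^ p = 1) (hΦ : ∀ γ, Φ₀ (c γ) = g * Φ₀ γ * g⁻¹) :
    ∃ (A : Type) (_ : Group A) (_ : Finite A) (_ : MulSemiringAction A L) (Φ : A →* G) (t : A),
      IsG (ψ.comp (qh p k)) A (⊥ : Subgroup A) ∧ (∀ a : L, t • a = T' a) ∧ Φ t = g ∧
      Nat.card A = p * Nat.card Γ ∧ ∀ γ : Γ, ∃ a : A, Φ a = Φ₀ γ := by
  let θ : Γ →* RingAut L := MulSemiringAction.toRingAut Γ L
  have hθ : ∀ γ a, θ γ a = γ • a := fun γ a => rfl
  let c' : MulAut Γ := c
  have hθc : ∀ γ, θ (c' γ) = T' * θ γ * T'⁻¹ := by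
    intro γ
    rw [eq_mul_inv_iff_mul_eq]
    ext a
    change c γ • T' a = T' (γ • a)
    rw [hc]
  have hθinj : ∀ γ, θ γ = 1 → γ = 1 := by
    intro γ hγ
    have := (h.ker γ).1 (fun a => by
      rw [← hθ, hγ]
      rfl)
    exact Subgroup.mem_bot.1 this
  have hcp : c' ^ p = 1 := by
    ext γ
    have h1 := V8_pow θ T' c' hθc p γ
    rw [hTp, one_mul, inv_one, mul_one] at h1
    have h2 : θ ((c' ^ p) γ * γ⁻¹) = 1 := by
      rw [map_mul, h1, map_inv, mul_inv_cancel]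
    exact mul_inv_eq_one.1 (hθinj _ h2)
  obtain ⟨φ, hφ⟩ := V8_zhom c' hcp
  obtain ⟨τ, hτ⟩ := V8_zhom T' hTp
  obtain ⟨σ, hσ⟩ := V8_zhom g hgp
  let F : Γ ⋊[φ] Multiplicative (ZMod p) →* RingAut L := SemidirectProduct.lift θ τ (by
    intro z
    obtain ⟨i, -, rfl⟩ := V8_gen z
    ext1 γ
    change θ ((φ ((Multiplicative.ofAdd (1 : ZMod p)) ^ i)) γ) = τ ((Multiplicative.ofAdd (1 : ZMod p)) ^ i) * θ γ * (τ ((Multiplicative.ofAdd (1 : ZMod p)) ^ i))⁻¹
    rw [map_pow, map_pow, hφ, hτ]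
    exact V8_pow θ T' c' hθc i γ)
  let Φ : Γ ⋊[φ] Multiplicative (ZMod p) →* G := SemidirectProduct.lift Φ₀ σ (by
    intro z
    obtain ⟨i, -, rfl⟩ := V8_gen z
    ext1 γ
    change Φ₀ ((φ ((Multiplicative.ofAdd (1 : ZMod p)) ^ i)) γ) = σ ((Multiplicative.ofAdd (1 : ZMod p)) ^ i) * Φ₀ γ * (σ ((Multiplicative.ofAdd (1 : ZMod p)) ^ i))⁻¹
    rw [map_pow, map_pow, hφ, hσ]
    exact V8_pow Φ₀ g c' hΦ i γ)
  have hFl : ∀ γ, F (SemidirectProduct.inl γ) = θ γ := fun γ => SemidirectProduct.lift_inl _ _ _ γ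
  have hFr : ∀ z, F (SemidirectProduct.inr z) = τ z := fun z => SemidirectProduct.lift_inr _ _ _ z
  have hTi : ∀ (i : ℕ) (x : RatFunc k), (T' ^ i) (ψ x) = ψ ((⇑(sig k))^[i] x) := by
    intro i
    induction i with
    | zero => intro x; rfl
    | succ i ih =>
      intro x
      rw [pow_succ, RingAut.mul_apply, hT', ih, Function.iterate_succ_apply]
  have hsX : ∀ i : ℕ, (⇑(sig k))^[i] RatFunc.X = (RatFunc.X : RatFunc k) + (i : RatFunc k) := by
    intro i
    induction i with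
    | zero => simp
    | succ i ih =>
      rw [Function.iterate_succ_apply', ih, map_add, sig_X, map_natCast]
      push_cast
      ring
  letI act : MulSemiringAction (Γ ⋊[φ] Multiplicative (ZMod p)) L := MulSemiringAction.compHom L F
  have hact : ∀ (r : Γ ⋊[φ] Multiplicative (ZMod p)) (a : L), r • a = F r a := fun r a => rfl
  have hdec : ∀ r : Γ ⋊[φ] Multiplicative (ZMod p), ∃ i : ℕ, i < p ∧
      r.right = (Multiplicative.ofAdd (1 : ZMod p)) ^ i ∧ F r = θ r.left * T' ^ i := by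
    intro r
    obtain ⟨i, hi, hr⟩ := V8_gen r.right
    refine ⟨i, hi, hr, ?_⟩
    conv_lhs => rw [← SemidirectProduct.inl_left_mul_inr_right r]
    rw [map_mul, hFl, hFr, hr, map_pow, hτ]
  have hcard : Nat.card (Γ ⋊[φ] Multiplicative (ZMod p)) = p * Nat.card Γ := by
    rw [SemidirectProduct.card, mul_comm]
    congr 1
    rw [Nat.card_eq_of_bijective _ (Multiplicative.toAdd (α := ZMod p)).bijective, Nat.card_zmod]
  haveI hfin : Finite (Γ ⋊[φ] Multiplicative (ZMod p)) :=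
    Finite.of_equiv _ (SemidirectProduct.equivProd (φ := φ)).symm
  refine ⟨Γ ⋊[φ] Multiplicative (ZMod p), inferInstance, hfin, act, Φ,
    SemidirectProduct.inr (Multiplicative.ofAdd 1), ⟨fun r => ⟨fun hr => ?_, fun hr a => ?_⟩,
      fun a => ⟨fun ha => ?_, ?_⟩⟩, fun a => ?_, ?_, hcard, fun γ => ⟨SemidirectProduct.inl γ, ?_⟩⟩
  · obtain ⟨i, hi, hri, hFr'⟩ := hdec r
    have h1 : F r (ψ RatFunc.X) = ψ RatFunc.X := hr _
    rw [hFr', RingAut.mul_apply, hTi, hsX, hθ, h.smul_ψ] at h1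
    have h2 : (RatFunc.X : RatFunc k) + (i : RatFunc k) = RatFunc.X := ψ.injective h1
    have h3 : (i : RatFunc k) = 0 := by
      have := add_eq_left.1 h2
      exact this
    haveI : CharP (RatFunc k) p := charP_of_injective_ringHom (RatFunc.C_injective (K := k)) p
    have h4 : p ∣ i := (CharP.cast_eq_zero_iff (RatFunc k) p i).1 h3
    have h5 : i = 0 := Nat.eq_zero_of_dvd_of_lt h4 hi
    subst h5
    rw [pow_zero] at hri
    have h6 : θ r.left = 1 := by
      ext a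
      have h7 : F r a = a := hr a
      rw [hFr', pow_zero, mul_one] at h7
      exact h7
    rw [Subgroup.mem_bot]
    ext
    · exact hθinj _ h6
    · exact hri
  · rw [Subgroup.mem_bot] at hr
    rw [hr, one_smul]
  · obtain ⟨x, rfl⟩ := (h.fix a).1 (fun γ => by
      have := ha (SemidirectProduct.inl γ)
      rw [hact, hFl] at this
      exact this)
    have h1 := ha (SemidirectProduct.inr (Multiplicative.ofAdd 1))
    rw [hact, hFr, hτ, hT'] at h1
    obtain ⟨u, hu⟩ := sig_fixed x (ψ.injective h1)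
    exact ⟨u, by rw [RingHom.comp_apply, hu]⟩
  · rintro ⟨u, rfl⟩ r
    obtain ⟨i, -, -, hF⟩ := hdec r
    rw [hact, hF, RingAut.mul_apply, RingHom.comp_apply, hTi]
    have h1 : (⇑(sig k))^[i] (qh p k u) = qh p k u := Function.iterate_fixed (V8_sigqh u) i
    rw [h1, hθ, h.smul_ψ]
  · rw [hact, hFr, hτ]
  · change Φ (SemidirectProduct.inr _) = g
    rw [SemidirectProduct.lift_inr, hσ]
  · exact SemidirectProduct.lift_inl _ _ _ γ

end

end Pool.Agent.MP_1c8e06_ag.AK
end
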