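import Pool.Agent.Lib.MP_1c8e06_ag.AI.Defs3

section

set_option autoImplicit false

open Polynomial

namespace Pool.Agent.MP_1c8e06_ag.AI

noncomputable section

/-!
# Task BA4a: the functions `y - a_i` are independent modulo `e`-th powers in `κ(y)`

Proof.  `y` is transcendental, so `Polynomial.aeval y : κ[X] → E` is injective and every
`m ∈ κ(y) = IntermediateField.adjoin κ {y}` is `aeval y u / aeval y v` with `v ≠ 0`
(`IntermediateField.mem_adjoin_simple_iff` or similar).  So
`u^e = v^e * ∏ (X - C a_i)^(d i)` in `κ[X]`, `u ≠ 0`.  Compare the multiplicity of the root `a_i`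
(`Polynomial.rootMultiplicity`, additive on products): the `X - C a_k`, `k ≠ i`, do not vanish at
`a_i`, so `e * mult(u) = e * mult(v) + d i`, hence `e ∣ d i < e`, `d i = 0`.
-/
theorem kummer_indep {κ E : Type} [Field κ] [Field E] [Algebra κ E] (e : ℕ) (he : 0 < e) (y : E)
    (hy : Transcendental κ y) {ι : Type} [Fintype ι] (a : ι → κ) (ha : Function.Injective a)
    (d : ι → ℕ) (hd : ∀ i, d i < e) (m : E) (hm : m ∈ IntermediateField.adjoin κ {y})
    (h : m ^ e = ∏ i, (y - algebraMap κ E (a i)) ^ d i) : ∀ i, d i = 0 := by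
  classical
  have hinj : Function.Injective (aeval y : κ[X] →ₐ[κ] E) := transcendental_iff_injective.1 hy
  obtain ⟨r, s, hrs⟩ := (IntermediateField.mem_adjoin_simple_iff κ m).1 hm
  have hya : ∀ i, y - algebraMap κ E (a i) ≠ 0 := by
    intro i h0
    have h1 : aeval y (X - C (a i) : κ[X]) = aeval y (0 : κ[X]) := by
      simpa using h0
    exact X_sub_C_ne_zero (a i) (hinj h1)
  have hprod : (∏ i, (y - algebraMap κ E (a i)) ^ d i) ≠ 0 :=
    Finset.prod_ne_zero_iff.2 fun i _ => pow_ne_zero _ (hya i)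
  have hm0 : m ≠ 0 := by
    intro h0
    rw [h0, zero_pow he.ne'] at h
    exact hprod h.symm
  have hs0 : aeval y s ≠ 0 := by
    intro h0
    rw [h0, div_zero] at hrs
    exact hm0 hrs
  have hr0 : aeval y r ≠ 0 := by
    intro h0
    rw [h0, zero_div] at hrs
    exact hm0 hrs
  have hs0' : s ≠ 0 := fun h0 => hs0 (by rw [h0, map_zero])
  have hr0' : r ≠ 0 := fun h0 => hr0 (by rw [h0, map_zero])
  have hpoly : r ^ e = s ^ e * ∏ i, (X - C (a i)) ^ d i := by
    apply hinj
    rw [map_mul, map_pow, map_pow, map_prod]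
    have h1 : ∀ i, aeval y ((X - C (a i)) ^ d i : κ[X]) = (y - algebraMap κ E (a i)) ^ d i := by
      intro i
      rw [map_pow, map_sub, aeval_X, aeval_C]
    simp only [h1]
    rw [← h, hrs, div_pow]
    field_simp
  intro i
  have hsplit : ∏ k, (X - C (a k)) ^ d k =
      (X - C (a i)) ^ d i * ∏ k ∈ Finset.univ.erase i, (X - C (a k)) ^ d k :=
    (Finset.mul_prod_erase Finset.univ (fun k => (X - C (a k)) ^ d k) (Finset.mem_univ i)).symm
  have hQ0 : (∏ k ∈ Finset.univ.erase i, (X - C (a k)) ^ d k) ≠ 0 :=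
    Finset.prod_ne_zero_iff.2 fun k _ => pow_ne_zero _ (X_sub_C_ne_zero _)
  have hQ : rootMultiplicity (a i) (∏ k ∈ Finset.univ.erase i, (X - C (a k)) ^ d k) = 0 := by
    apply rootMultiplicity_eq_zero
    intro hroot
    rw [IsRoot.def, eval_prod] at hroot
    obtain ⟨k, hk, hk0⟩ := Finset.prod_eq_zero_iff.1 hroot
    rw [eval_pow] at hk0
    have h2 := eq_zero_of_pow_eq_zero hk0
    rw [eval_sub, eval_X, eval_C, sub_eq_zero] at h2
    exact (Finset.mem_erase.1 hk).1 (ha h2).symm
  have hpow : ∀ f : κ[X], rootMultiplicity (a i) (f ^ e) = e * rootMultiplicity (a i) f := by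
    intro f
    rw [← count_roots, ← count_roots, roots_pow, Multiset.count_nsmul]
  have h1 : rootMultiplicity (a i) (r ^ e) = rootMultiplicity (a i) (s ^ e * ((X - C (a i)) ^ d i *
      ∏ k ∈ Finset.univ.erase i, (X - C (a k)) ^ d k)) := by
    rw [hpoly, hsplit]
  have hX0 : (X - C (a i)) ^ d i ≠ (0 : κ[X]) := pow_ne_zero _ (X_sub_C_ne_zero _)
  rw [rootMultiplicity_mul (mul_ne_zero (pow_ne_zero _ hs0') (mul_ne_zero hX0 hQ0)),
    rootMultiplicity_mul (mul_ne_zero hX0 hQ0), hQ, rootMultiplicity_X_sub_C_pow, hpow, hpow] at h1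
  have h2 : e ∣ d i := by
    have h3 : e ∣ e * rootMultiplicity (a i) s + d i := by
      have h4 : e * rootMultiplicity (a i) s + d i = e * rootMultiplicity (a i) r := by omega
      rw [h4]
      exact dvd_mul_right _ _
    exact (Nat.dvd_add_right (dvd_mul_right _ _)).1 h3
  exact Nat.eq_zero_of_dvd_of_lt h2 (hd i)

end

end Pool.Agent.MP_1c8e06_ag.AI
end

section

set_option autoImplicit false

open Polynomial

namespace Pool.Agent.MP_1c8e06_ag.AI

noncomputable section

/-!
# Task BA4b: a proper subgroup of `(ℤ/e)^ι` has a nonzero annihilator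

Proof.  Let `A := ι → ZMod e`.  The finite abelian group `A ⧸ Γ` is nontrivial and killed by `e`.  So it has
a nontrivial additive character with values in the `e`-th roots of unity of `ℂ`
(`AddChar`, e.g. `AddChar.exists_apply_ne_zero`), equivalently a nonzero homomorphism
`ψ : A ⧸ Γ →+ ZMod e` (`μ_e(ℂ) ≅ ZMod e`; or use `CommGroup`/`Module` duality over `ZMod e`, or the
structure theorem, or: induction).  Put `d i := ψ (mk (Pi.single i 1))`; then
`ψ (mk c) = ∑ i, c i * d i` (`ψ` is `ZMod e`-linear automatically).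
-/
theorem exists_annihilator (e : ℕ) [NeZero e] {ι : Type} [Fintype ι] [DecidableEq ι]
    (Γ : AddSubgroup (ι → ZMod e)) (hΓ : Γ ≠ ⊤) :
    ∃ d : ι → ZMod e, d ≠ 0 ∧ ∀ c ∈ Γ, ∑ i, d i * c i = 0 := by
  classical
  obtain ⟨a, ha⟩ : ∃ a : ι → ZMod e, a ∉ Γ := by
    by_contra h
    push Not at h
    exact hΓ ((AddSubgroup.eq_top_iff' Γ).2 h)
  have ha0 : (QuotientAddGroup.mk a : (ι → ZMod e) ⧸ Γ) ≠ 0 := by
    rw [Ne, QuotientAddGroup.eq_zero_iff]
    exact ha
  obtain ⟨ψ, hψ⟩ := AddChar.exists_apply_ne_zero.2 ha0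
  have hζ : IsPrimitiveRoot (Complex.exp (2 * Real.pi * Complex.I / e)) e :=
    Complex.isPrimitiveRoot_exp e (NeZero.ne e)
  set ζ := Complex.exp (2 * Real.pi * Complex.I / e) with hζd
  have hnsmul : ∀ x : (ι → ZMod e) ⧸ Γ, e • x = 0 := by
    intro x
    obtain ⟨x, rfl⟩ := QuotientAddGroup.mk_surjective x
    rw [← QuotientAddGroup.mk_nsmul]
    have : e • x = 0 := by
      ext i
      simp
    rw [this]
    rfl
  have hk : ∀ i : ι, ∃ k : ℕ, ζ ^ k = ψ (QuotientAddGroup.mk (Pi.single i (1 : ZMod e))) := by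
    intro i
    obtain ⟨k, _, hk⟩ := hζ.eq_pow_of_pow_eq_one
      (ξ := ψ (QuotientAddGroup.mk (Pi.single i (1 : ZMod e)))) (by
        rw [← AddChar.map_nsmul_eq_pow, hnsmul, AddChar.map_zero_eq_one])
    exact ⟨k, hk⟩
  choose k hk using hk
  have hval : ∀ c : ι → ZMod e,
      ψ (QuotientAddGroup.mk c) = ζ ^ (∑ i, k i * (c i).val) := by
    intro c
    have h1 : c = ∑ i, (c i).val • (Pi.single i (1 : ZMod e) : ι → ZMod e) := by
      ext j
      rw [Finset.sum_apply, Finset.sum_eq_single j]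
      · rw [Pi.smul_apply, Pi.single_eq_same, nsmul_eq_mul, mul_one, ZMod.natCast_zmod_val]
      · intro i _ hij
        rw [Pi.smul_apply, Pi.single_eq_of_ne (Ne.symm hij), smul_zero]
      · intro h
        exact absurd (Finset.mem_univ j) h
    have h2 : (QuotientAddGroup.mk c : (ι → ZMod e) ⧸ Γ) =
        ∑ i, (c i).val • (QuotientAddGroup.mk (Pi.single i (1 : ZMod e)) : (ι → ZMod e) ⧸ Γ) := by
      conv_lhs => rw [h1]
      rw [← QuotientAddGroup.mk'_apply, map_sum]
      rfl
    have h3 : ∀ (s : Finset ι) (f : ι → (ι → ZMod e) ⧸ Γ), ψ (∑ i ∈ s, f i) = ∏ i ∈ s, ψ (f i) := by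
      intro s f
      induction s using Finset.induction_on with
      | empty => simp
      | insert i s hi ih => rw [Finset.sum_insert hi, Finset.prod_insert hi,
          AddChar.map_add_eq_mul, ih]
    rw [h2, h3, ← Finset.prod_pow_eq_pow_sum]
    refine Finset.prod_congr rfl fun i _ => ?_
    rw [AddChar.map_nsmul_eq_pow, ← hk i, pow_mul]
  refine ⟨fun i => (k i : ZMod e), ?_, ?_⟩
  · intro h0
    apply hψ
    rw [hval, hζ.pow_eq_one_iff_dvd]
    refine Finset.dvd_sum fun i _ => ?_
    have h3 : ((k i : ℕ) : ZMod e) = 0 := congrFun h0 i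
    exact ((ZMod.natCast_eq_zero_iff _ _).1 h3).mul_right _
  · intro c hc
    have h4 : ψ (QuotientAddGroup.mk c) = 1 := by
      rw [(QuotientAddGroup.eq_zero_iff c).2 hc, AddChar.map_zero_eq_one]
    rw [hval, hζ.pow_eq_one_iff_dvd] at h4
    have h5 := (ZMod.natCast_eq_zero_iff _ _).2 h4
    push_cast at h5
    rw [← h5]
    refine Finset.sum_congr rfl fun i _ => ?_
    rw [ZMod.natCast_zmod_val]

end

end Pool.Agent.MP_1c8e06_ag.AI
end

section

set_option autoImplicit false

open Polynomial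

namespace Pool.Agent.MP_1c8e06_ag.AI

noncomputable section

/-!
# Task BA4: Kummer automorphisms

Proof.  Let `K := κ(y) ⊆ E` (`IntermediateField.adjoin κ {y}`), `L := K(ν_i : i ∈ ι)`
(`IntermediateField.adjoin K (range ν)`).  `L / K` is a splitting field of
`∏_i (T^e - (y - a_i))`; it is Galois: normal as a splitting field (the roots of `T^e - (y - a_i)` are
`ζ^k ν_i`), separable because it is generated by the `ν_i`, which are roots of the separable polynomials
`T^e - (y - a_i)` (`(e : κ) ≠ 0` since `κ` has a primitive `e`-th root of unity, `y - a_i ≠ 0`).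
For `σ ∈ Gal(L/K)`, `(σ ν_i)^e = ν_i^e`, so `σ ν_i = ζ^{c_i(σ)} ν_i` with `c(σ) : ι → ZMod e`
(`ν_i ≠ 0`), and the image `Γ` of `c` is a subgroup of `ι → ZMod e`
(`c(σσ') = c(σ) + c(σ')` because `σ` fixes `ζ`).
Claim `Γ = ⊤`.  Otherwise take `d` from `exists_annihilator`; `m := ∏ ν_i^{(d i).val}` is fixed by
`Gal(L/K)` (`∏ ζ^{c_i (d i).val} = 1` as `∑ d_i c_i = 0` in `ZMod e`), so `m ∈ K`
(`IsGalois`: fixed field is `⊥`), and `m^e = ∏ (y - a_i)^{(d i).val}`; `kummer_indep` gives
`d = 0`, contradiction.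
Given `c : ι → ℕ` choose `σ ∈ Gal(L/K)` with `σ ν_i = ζ^{c_i} ν_i`; it maps
`S := Algebra.adjoin κ {ν_i}` onto itself (`σ` and `σ⁻¹` map generators into `S`); restrict.
-/
theorem kummer {κ E : Type} [Field κ] [Field E] [Algebra κ E] (e : ℕ) (he : 0 < e) (ζ : κ)
    (hζ : IsPrimitiveRoot ζ e) (y : E) (hy : Transcendental κ y) {ι : Type} [Fintype ι]
    (a : ι → κ) (ha : Function.Injective a) (ν : ι → E)
    (hν : ∀ i, ν i ^ e = y - algebraMap κ E (a i)) (c : ι → ℕ) :
    ∃ σ : Algebra.adjoin κ (Set.range ν) ≃ₐ[κ] Algebra.adjoin κ (Set.range ν),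
      ∀ (i : ι) (h : ν i ∈ Algebra.adjoin κ (Set.range ν)),
        ((σ ⟨ν i, h⟩ : Algebra.adjoin κ (Set.range ν)) : E) = algebraMap κ E (ζ ^ c i) * ν i := by
  classical
  have hne : NeZero e := ⟨he.ne'⟩
  -- the base field
  let K : IntermediateField κ E := IntermediateField.adjoin κ {y}
  have hyK : y ∈ K := IntermediateField.mem_adjoin_simple_self κ y
  let b : ι → K := fun i => ⟨y, hyK⟩ - algebraMap κ K (a i)
  have hbE : ∀ i, algebraMap K E (b i) = y - algebraMap κ E (a i) := fun i => rfl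
  have hyne : ∀ t : κ, y - algebraMap κ E t ≠ 0 := by
    intro t ht
    apply hy
    refine ⟨X - C t, X_sub_C_ne_zero t, ?_⟩
    simpa using ht
  have hb : ∀ i, b i ≠ 0 := by
    intro i h
    apply hyne (a i)
    rw [← hbE, h, map_zero]
  have heκ : ((e : ℕ) : κ) ≠ 0 := hζ.neZero'.out
  have heK : ((e : ℕ) : K) ≠ 0 := by
    intro h
    apply heκ
    apply (algebraMap κ K).injective
    rw [map_natCast, h, map_zero]
  let f : K[X] := ∏ i, (X ^ e - C (b i))
  have hfsep : f.Separable := by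
    refine Polynomial.separable_prod ?_ (fun i => separable_X_pow_sub_C _ heK (hb i))
    intro i j hij
    have hne' : b j - b i ≠ 0 := by
      intro h
      apply hij
      apply ha
      have h2 : algebraMap κ K (a i) - algebraMap κ K (a j) = 0 := by
        rw [← h]; simp only [b]; ring
      exact (algebraMap κ K).injective (sub_eq_zero.mp h2)
    refine ⟨C (b j - b i)⁻¹, - C (b j - b i)⁻¹, ?_⟩
    have h3 : C (b j - b i)⁻¹ * C (b j - b i) = (1 : K[X]) := by
      rw [← C_mul, inv_mul_cancel₀ hne', C_1]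
    calc C (b j - b i)⁻¹ * (X ^ e - C (b i)) + -C (b j - b i)⁻¹ * (X ^ e - C (b j))
        = C (b j - b i)⁻¹ * C (b j - b i) := by rw [C_sub (a := b j) (b := b i)]; ring
      _ = 1 := h3
  have hfne : f ≠ 0 := hfsep.ne_zero
  have hζE : IsPrimitiveRoot (algebraMap κ E ζ) e :=
    hζ.map_of_injective (algebraMap κ E).injective
  have hfsplit : (f.map (algebraMap K E)).Splits := by
    simp only [f, Polynomial.map_prod]
    refine Polynomial.Splits.prod (fun i _ => ?_)
    rw [Polynomial.map_sub, Polynomial.map_pow, Polynomial.map_X, Polynomial.map_C, hbE]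
    exact X_pow_sub_C_splits_of_isPrimitiveRoot hζE (hν i)
  let L : IntermediateField K E := IntermediateField.adjoin K (f.rootSet E)
  have hsf : f.IsSplittingField K L := IntermediateField.adjoin_rootSet_isSplittingField hfsplit
  have hgal : IsGalois K L := IsGalois.of_separable_splitting_field hfsep
  have hfd : FiniteDimensional K L := Polynomial.IsSplittingField.finiteDimensional L f
  have hνL : ∀ i, ν i ∈ L := by
    intro i
    apply IntermediateField.subset_adjoin
    rw [Polynomial.mem_rootSet]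
    refine ⟨hfne, ?_⟩
    simp only [f, map_prod]
    apply Finset.prod_eq_zero (Finset.mem_univ i)
    rw [map_sub, map_pow, aeval_X, aeval_C, hbE, hν i, sub_self]
  let νL : ι → L := fun i => ⟨ν i, hνL i⟩
  have hνe : ∀ i, νL i ^ e = algebraMap K L (b i) := by
    intro i
    apply Subtype.ext
    exact hν i
  have hνE0 : ∀ i, ν i ≠ 0 := by
    intro i h
    apply hyne (a i)
    rw [← hν i, h, zero_pow he.ne']
  have hν0 : ∀ i, νL i ≠ 0 := by
    intro i h
    exact hνE0 i (congrArg (fun x : L => (x : E)) h)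
  let ζL : L := algebraMap K L (algebraMap κ K ζ)
  have hζL : IsPrimitiveRoot ζL e :=
    (hζ.map_of_injective (algebraMap κ K).injective).map_of_injective (algebraMap K L).injective
  have hζLE : ((ζL : L) : E) = algebraMap κ E ζ := rfl
  have hbL : ∀ i, algebraMap K L (b i) ≠ 0 := by
    intro i
    rw [← hνe i]
    exact pow_ne_zero _ (hν0 i)
  have hex : ∀ (σ : L ≃ₐ[K] L) (i : ι), ∃ c : ZMod e, σ (νL i) = ζL ^ c.val * νL i := by
    intro σ i
    have h1 : (σ (νL i) / νL i) ^ e = 1 := by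
      rw [div_pow, ← map_pow, hνe, AlgEquiv.commutes, div_self (hbL i)]
    obtain ⟨j, hj, hj'⟩ := hζL.eq_pow_of_pow_eq_one h1
    refine ⟨(j : ZMod e), ?_⟩
    rw [ZMod.val_natCast_of_lt hj, hj', div_mul_cancel₀ _ (hν0 i)]
  choose c' hc' using hex
  have hmod : ∀ n : ℕ, ζL ^ (n % e) = ζL ^ n := by
    intro n
    conv_rhs => rw [← Nat.mod_add_div n e, pow_add, pow_mul, hζL.pow_eq_one, one_pow, mul_one]
  have hpow : ∀ m n : ZMod e, ζL ^ (m + n).val = ζL ^ m.val * ζL ^ n.val := by
    intro m n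
    rw [ZMod.val_add, hmod, pow_add]
  have hinj : ∀ m n : ZMod e, ζL ^ m.val = ζL ^ n.val → m = n := by
    intro m n h
    exact ZMod.val_injective e (hζL.pow_inj (ZMod.val_lt m) (ZMod.val_lt n) h)
  have hσζ : ∀ (σ : L ≃ₐ[K] L) (n : ℕ), σ (ζL ^ n) = ζL ^ n := by
    intro σ n
    rw [map_pow, AlgEquiv.commutes]
  have hc'uniq : ∀ (σ : L ≃ₐ[K] L) (d : ι → ZMod e),
      (∀ i, σ (νL i) = ζL ^ (d i).val * νL i) → c' σ = d := by
    intro σ d hd
    funext i
    apply hinj
    apply mul_right_cancel₀ (hν0 i)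
    rw [← hc' σ i, hd i]
  have hc'mul : ∀ σ τ : L ≃ₐ[K] L, c' (σ * τ) = c' σ + c' τ := by
    intro σ τ
    apply hc'uniq
    intro i
    rw [AlgEquiv.mul_apply, hc' τ i, map_mul, hσζ, hc' σ i, Pi.add_apply, hpow]
    ring
  have hc'one : c' 1 = 0 := by
    apply hc'uniq
    intro i
    simp
  let Γ : AddSubgroup (ι → ZMod e) :=
    { carrier := Set.range c'
      add_mem' := by
        rintro _ _ ⟨σ, rfl⟩ ⟨τ, rfl⟩
        exact ⟨σ * τ, hc'mul σ τ⟩
      zero_mem' := ⟨1, hc'one⟩
      neg_mem' := by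
        rintro _ ⟨σ, rfl⟩
        refine ⟨σ⁻¹, ?_⟩
        have h := hc'mul σ⁻¹ σ
        rw [inv_mul_cancel, hc'one] at h
        exact (neg_eq_of_add_eq_zero_left h.symm).symm }
  have hΓ : Γ = ⊤ := by
    by_contra hΓ
    obtain ⟨d, hd0, hd⟩ := exists_annihilator e Γ hΓ
    let m : L := ∏ i, νL i ^ (d i).val
    have hmfix : ∀ σ : L ≃ₐ[K] L, σ m = m := by
      intro σ
      have h1 : σ m = (∏ i, ζL ^ ((d i).val * (c' σ i).val)) * m := by
        simp only [m, map_prod, map_pow, ← Finset.prod_mul_distrib]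
        refine Finset.prod_congr rfl (fun i _ => ?_)
        rw [hc' σ i, mul_pow, ← pow_mul, Nat.mul_comm (c' σ i).val (d i).val]
      have h2 : ∏ i, ζL ^ ((d i).val * (c' σ i).val) = 1 := by
        rw [Finset.prod_pow_eq_pow_sum]
        rw [hζL.pow_eq_one_iff_dvd]
        rw [← ZMod.natCast_eq_zero_iff]
        push_cast
        simp only [ZMod.natCast_val, ZMod.cast_id', id_eq]
        exact hd (c' σ) ⟨σ, rfl⟩
      rw [h1, h2, one_mul]
    have hmem : m ∈ (⊥ : IntermediateField K L) := (IsGalois.mem_bot_iff_fixed m).mpr hmfix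
    rw [IntermediateField.mem_bot] at hmem
    obtain ⟨m', hm'⟩ := hmem
    have hmE : ((m' : K) : E) ^ e = ∏ i, (y - algebraMap κ E (a i)) ^ (d i).val := by
      have h1 : ((m' : K) : E) = ∏ i, ν i ^ (d i).val := by
        have h2 : ((m' : K) : E) = ((m : L) : E) := by
          rw [← hm']; rfl
        rw [h2]
        simp only [m]
        push_cast
        rfl
      rw [h1, ← Finset.prod_pow]
      refine Finset.prod_congr rfl (fun i _ => ?_)
      rw [← pow_mul, Nat.mul_comm, pow_mul, hν i]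
    have h3 := kummer_indep e he y hy a ha (fun i => (d i).val) (fun i => ZMod.val_lt _)
      (m' : E) m'.2 hmE
    apply hd0
    funext i
    exact (ZMod.val_eq_zero (d i)).mp (h3 i)
  -- the automorphism
  obtain ⟨σ, hσ⟩ : ∃ σ : L ≃ₐ[K] L, c' σ = fun i => ((c i : ℕ) : ZMod e) := by
    have h : (fun i => ((c i : ℕ) : ZMod e)) ∈ Γ := by rw [hΓ]; exact AddSubgroup.mem_top _
    exact h
  have hσν : ∀ i, σ (νL i) = ζL ^ c i * νL i := by
    intro i
    rw [hc' σ i, hσ, ZMod.val_natCast, hmod]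
  have hσν' : ∀ i, σ.symm (νL i) = ζL ^ (c' σ⁻¹ i).val * νL i := fun i => hc' σ⁻¹ i
  let S : Subalgebra κ E := Algebra.adjoin κ (Set.range ν)
  have hSL : ∀ x ∈ S, x ∈ L := by
    intro x hx
    have h1 : S ≤ (L.restrictScalars κ).toSubalgebra := by
      apply Algebra.adjoin_le
      rintro _ ⟨i, rfl⟩
      exact hνL i
    exact h1 hx
  let toL : S →ₐ[κ] L := 
    { toFun := fun x => ⟨x, hSL x x.2⟩
      map_one' := rfl
      map_mul' := fun _ _ => rfl
      map_zero' := rfl
      map_add' := fun _ _ => rfl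
      commutes' := fun _ => rfl }
  have key : ∀ (τ : L ≃ₐ[K] L) (x : E) (hx : x ∈ S), ((τ ⟨x, hSL x hx⟩ : L) : E) ∈ S := by
    intro τ x hx
    induction hx using Algebra.adjoin_induction with
    | mem x hx =>
      obtain ⟨i, rfl⟩ := hx
      have h1 : ((τ (νL i) : L) : E) = algebraMap κ E (ζ ^ (c' τ i).val) * ν i := by
        rw [hc' τ i, map_pow, ← hζLE]
        rfl
      show ((τ (νL i) : L) : E) ∈ S
      rw [h1]
      exact S.mul_mem (S.algebraMap_mem _) (Algebra.subset_adjoin ⟨i, rfl⟩)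
    | algebraMap r =>
      have h1 : τ (algebraMap K L (algebraMap κ K r)) = algebraMap K L (algebraMap κ K r) :=
        τ.commutes _
      have h2 : ((τ (algebraMap K L (algebraMap κ K r)) : L) : E) = algebraMap κ E r := by
        rw [h1]; rfl
      show ((τ (algebraMap K L (algebraMap κ K r)) : L) : E) ∈ S
      rw [h2]
      exact S.algebraMap_mem _
    | add u v hu hv hu' hv' =>
      have h1 : ((τ ⟨u + v, hSL _ (S.add_mem hu hv)⟩ : L) : E) =
          ((τ ⟨u, hSL u hu⟩ : L) : E) + ((τ ⟨v, hSL v hv⟩ : L) : E) := by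
        have h2 : (⟨u + v, hSL _ (S.add_mem hu hv)⟩ : L) = ⟨u, hSL u hu⟩ + ⟨v, hSL v hv⟩ := rfl
        rw [h2, map_add]; rfl
      show ((τ ⟨u + v, hSL _ (S.add_mem hu hv)⟩ : L) : E) ∈ S
      rw [h1]
      exact S.add_mem hu' hv'
    | mul u v hu hv hu' hv' =>
      have h1 : ((τ ⟨u * v, hSL _ (S.mul_mem hu hv)⟩ : L) : E) =
          ((τ ⟨u, hSL u hu⟩ : L) : E) * ((τ ⟨v, hSL v hv⟩ : L) : E) := by
        have h2 : (⟨u * v, hSL _ (S.mul_mem hu hv)⟩ : L) = ⟨u, hSL u hu⟩ * ⟨v, hSL v hv⟩ := rfl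
        rw [h2, map_mul]; rfl
      show ((τ ⟨u * v, hSL _ (S.mul_mem hu hv)⟩ : L) : E) ∈ S
      rw [h1]
      exact S.mul_mem hu' hv'
  let mk : (L ≃ₐ[K] L) → (S →ₐ[κ] S) := fun τ =>
    { toFun := fun x => ⟨((τ ⟨x, hSL x x.2⟩ : L) : E), key τ x x.2⟩
      map_one' := by
        apply Subtype.ext
        show ((τ 1 : L) : E) = 1
        rw [map_one]; rfl
      map_mul' := by
        intro u v
        apply Subtype.ext
        show ((τ (toL u * toL v) : L) : E) = ((τ (toL u) : L) : E) * ((τ (toL v) : L) : E)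
        rw [map_mul]; rfl
      map_zero' := by
        apply Subtype.ext
        show ((τ 0 : L) : E) = 0
        rw [map_zero]; rfl
      map_add' := by
        intro u v
        apply Subtype.ext
        show ((τ (toL u + toL v) : L) : E) = ((τ (toL u) : L) : E) + ((τ (toL v) : L) : E)
        rw [map_add]; rfl
      commutes' := by
        intro r
        apply Subtype.ext
        show ((τ (algebraMap K L (algebraMap κ K r)) : L) : E) = algebraMap κ E r
        rw [τ.commutes]; rfl }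
  have hmk : ∀ (τ : L ≃ₐ[K] L) (x : S), ((mk τ x : S) : E) = ((τ (toL x) : L) : E) :=
    fun _ _ => rfl
  have htoL : ∀ (τ : L ≃ₐ[K] L) (x : S), toL (mk τ x) = τ (toL x) := fun _ _ => rfl
  refine ⟨AlgEquiv.ofAlgHom (mk σ) (mk σ.symm) ?_ ?_, ?_⟩
  · apply AlgHom.ext
    intro x
    apply Subtype.ext
    show ((mk σ (mk σ.symm x) : S) : E) = x
    rw [hmk, htoL, AlgEquiv.apply_symm_apply]
    rfl
  · apply AlgHom.ext
    intro x
    apply Subtype.ext
    show ((mk σ.symm (mk σ x) : S) : E) = x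
    rw [hmk, htoL, AlgEquiv.symm_apply_apply]
    rfl
  · intro i h
    show ((σ (νL i) : L) : E) = _
    rw [hσν i, map_pow, ← hζLE]
    rfl

end

end Pool.Agent.MP_1c8e06_ag.AI
end

section

set_option autoImplicit false

open Polynomial

namespace Pool.Agent.MP_1c8e06_ag.AI

noncomputable section

/-!
# Task IN: independence over `Bm` after the substitution

Proof.  Put `γ̃ i k m := inclB (compft q (γ i k m)) : Bm κ`.  Suppose `∑_m j (a m) c_m = 0`.
Multiply by `c_k`: `∑_m j (N k m) c_m = 0` with `N k m := ∑_i a i * γ̃ i k m`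
(`Matrix` over `Bm κ`).  By Cramer (`Matrix.mulVec`, `adjugate * N = det • 1`):
`j (det N) * c_m = 0` for all `m`; some `c_m ≠ 0`, `D` is a domain and `j` is injective, so
`det N = 0`.  Apply `E.nab`: `det (∑_i ν(a i) * ν(γ̃ i k m)) = 0` in `LaurentSeries κ[X]`
(`RingHom.map_det`), and `ν(γ̃ i k m) = ofPowerSeries (γ_{ikm}(ξ))` by `E.nab_incl`.
Suppose `a ≠ 0`.  Then the `ν(a i)` are not all zero (`E.nab_inj`).  Let `v` be the least order of the
nonzero ones; `ν(a i) = single v 1 * ofPowerSeries (A i)` with `A i ∈ κ[X][[t]]`, and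
`f i := constantCoeff (A i) ∈ κ[X]` are not all zero.  Cancelling the unit `single v 1`:
`det (∑_i A i * γ_{ikm}(ξ)) = 0` in `PowerSeries κ[X]` (`ofPowerSeries` injective), and applying
`constantCoeff`: `det (∑_i f i * γ_{ikm}(c1 X)) = 0` in `κ[X]`
(`constantCoeff (γ.eval₂ (C.comp C) ξ) = γ.eval₂ C (constantCoeff ξ) = γ.comp (C c1 * X)`).
Now apply the ring automorphism `X ↦ c1⁻¹ X` of `κ[X]`: with `f' i := (f i).comp (C c1⁻¹ * X)`, not
all zero, `det (∑_i f' i * γ_{ikm}) = 0`, contradicting `hγ`.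
-/
theorem indep {p : ℕ} [hp : Fact p.Prime] {κ : Type} [Field κ] [CharP κ p] {F q : κ[X]}
    (E : Env p κ F q) {r : ℕ} (γ : Fin r → Fin r → Fin r → κ[X])
    (hγ : ∀ f : Fin r → κ[X], f ≠ 0 →
      (Matrix.of fun k m => ∑ i, f i * γ i k m : Matrix (Fin r) (Fin r) κ[X]).det ≠ 0)
    {D : Type} [CommRing D] [IsDomain D] (j : Bm κ →+* D) (hj : Function.Injective j)
    (c : Fin r → D) (hc : ∃ i, c i ≠ 0)
    (hmul : ∀ i k, c i * c k = ∑ m, j (inclB (compft q (γ i k m))) * c m)
    (a : Fin r → Bm κ) (ha : ∑ m, j (a m) * c m = 0) : a = 0 := by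
  classical
  by_contra hane
  -- step 1: the determinant over `Bm`
  have hdet1 : (Matrix.of fun k m => ∑ i, a i * inclB (compft q (γ i k m)) :
      Matrix (Fin r) (Fin r) (Bm κ)).det = 0 := by
    apply hj
    rw [map_zero, RingHom.map_det]
    refine Matrix.exists_mulVec_eq_zero_iff.1 ⟨c, ?_, ?_⟩
    · intro h0
      obtain ⟨i, hi⟩ := hc
      exact hi (by rw [h0]; rfl)
    · funext k
      have h1 : c k * ∑ i, j (a i) * c i = 0 := by rw [ha, mul_zero]
      rw [Matrix.mulVec, dotProduct, Pi.zero_apply, ← h1, Finset.mul_sum]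
      have h2 : ∀ i : Fin r, c k * (j (a i) * c i) =
          ∑ m, j (a i) * j (inclB (compft q (γ i k m))) * c m := by
        intro i
        rw [show c k * (j (a i) * c i) = j (a i) * (c i * c k) by ring, hmul i k,
          Finset.mul_sum]
        exact Finset.sum_congr rfl fun m _ => by ring
      rw [Finset.sum_congr rfl fun i _ => h2 i, Finset.sum_comm]
      refine Finset.sum_congr rfl fun m _ => ?_
      rw [RingHom.mapMatrix_apply, Matrix.map_apply, Matrix.of_apply, map_sum, Finset.sum_mul]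
      exact Finset.sum_congr rfl fun i _ => by rw [map_mul]
  -- step 2: transport by `nab`
  set b : Fin r → LaurentSeries κ[X] := fun i => E.nab (a i) with hb
  set γξ : Fin r → Fin r → Fin r → PowerSeries κ[X] :=
    fun i k m => (γ i k m).eval₂ (PowerSeries.C.comp C) E.ξ with hγξ
  have hdet2 : (Matrix.of fun k m => ∑ i, b i * HahnSeries.ofPowerSeries ℤ κ[X] (γξ i k m) :
      Matrix (Fin r) (Fin r) (LaurentSeries κ[X])).det = 0 := by
    have h := congrArg E.nab hdet1
    rw [map_zero, RingHom.map_det] at h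
    rw [← h]
    congr 1
    ext1 k m
    rw [RingHom.mapMatrix_apply, Matrix.map_apply, Matrix.of_apply, Matrix.of_apply, map_sum]
    exact Finset.sum_congr rfl fun i _ => by rw [map_mul, E.nab_incl]
  -- step 3: the least order
  have hbne : ∃ i, b i ≠ 0 := by
    by_contra hcon
    push Not at hcon
    apply hane
    funext i
    have h1 : E.nab (a i) = E.nab 0 := by rw [map_zero]; exact hcon i
    exact E.nab_inj h1
  have hex : ∃ v : ℤ, (∃ i, (b i).coeff v ≠ 0) ∧ ∀ i, ∀ w < v, (b i).coeff w = 0 := by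
    obtain ⟨i0, hi0⟩ := hbne
    have hne : ((Finset.univ : Finset (Fin r)).filter fun i => b i ≠ 0).Nonempty :=
      ⟨i0, Finset.mem_filter.2 ⟨Finset.mem_univ _, hi0⟩⟩
    obtain ⟨i1, hi1, hmin⟩ := Finset.exists_min_image _ (fun i => (b i).order) hne
    refine ⟨(b i1).order, ⟨i1, ?_⟩, fun i w hw => ?_⟩
    · exact HahnSeries.coeff_order_eq_zero.not.2 (Finset.mem_filter.1 hi1).2
    · by_cases hbi : b i = 0
      · rw [hbi, HahnSeries.coeff_zero]
      · exact HahnSeries.coeff_eq_zero_of_lt_order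
          (lt_of_lt_of_le hw (hmin i (Finset.mem_filter.2 ⟨Finset.mem_univ _, hbi⟩)))
  obtain ⟨v, ⟨iv, hiv⟩, hlow⟩ := hex
  set A : Fin r → PowerSeries κ[X] := fun i => PowerSeries.mk fun n => (b i).coeff (v + n) with hA
  have hbA : ∀ i, b i = HahnSeries.single v (1 : κ[X]) *
      HahnSeries.ofPowerSeries ℤ κ[X] (A i) := by
    intro i
    ext1
    funext w
    have hw : w = (w - v) + v := by ring
    rw [hw, HahnSeries.coeff_single_mul_add, one_mul]
    by_cases hlt : w - v < 0
    · rw [← hw, hlow i w (by omega), HahnSeries.ofPowerSeries_apply,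
        HahnSeries.embDomain_of_notMem_range]
      rintro ⟨k, hk⟩
      simp at hk
      omega
    · obtain ⟨n, hn⟩ := Int.eq_ofNat_of_zero_le (not_lt.1 hlt)
      rw [hn]
      have h1 := HahnSeries.ofPowerSeries_apply_coeff (Γ := ℤ) (A i) n
      rw [h1, hA]
      simp only [PowerSeries.coeff_mk]
      rw [add_comm]
  -- step 4: power series
  have hdet3 : (Matrix.of fun k m => ∑ i, A i * γξ i k m :
      Matrix (Fin r) (Fin r) (PowerSeries κ[X])).det = 0 := by
    apply HahnSeries.ofPowerSeries_injective (Γ := ℤ)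
    rw [map_zero, RingHom.map_det]
    have h1 : (Matrix.of fun k m => ∑ i, b i * HahnSeries.ofPowerSeries ℤ κ[X] (γξ i k m) :
        Matrix (Fin r) (Fin r) (LaurentSeries κ[X])) =
        (HahnSeries.single v (1 : κ[X])) •
          (HahnSeries.ofPowerSeries ℤ κ[X]).mapMatrix
            (Matrix.of fun k m => ∑ i, A i * γξ i k m) := by
      ext1 k m
      rw [Matrix.smul_apply, RingHom.mapMatrix_apply, Matrix.map_apply, Matrix.of_apply,
        Matrix.of_apply, map_sum, smul_eq_mul, Finset.mul_sum]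
      exact Finset.sum_congr rfl fun i _ => by rw [hbA i, map_mul, mul_assoc]
    rw [h1, Matrix.det_smul] at hdet2
    rcases mul_eq_zero.1 hdet2 with h2 | h2
    · exfalso
      have h3 : (HahnSeries.single v (1 : κ[X]) : LaurentSeries κ[X]) ≠ 0 :=
        HahnSeries.single_ne_zero one_ne_zero
      exact (pow_ne_zero _ h3) h2
    · exact h2
  -- step 5: constant coefficients
  set f : Fin r → κ[X] := fun i => (b i).coeff v with hf
  have hfA : ∀ i, PowerSeries.constantCoeff (A i) = f i := by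
    intro i
    rw [← PowerSeries.coeff_zero_eq_constantCoeff_apply, hA]
    simp only [PowerSeries.coeff_mk]
    simp [hf]
  have hcγ : ∀ i k m, PowerSeries.constantCoeff (γξ i k m) =
      (γ i k m).comp (C E.c1 * X) := by
    intro i k m
    rw [hγξ]
    change PowerSeries.constantCoeff ((γ i k m).eval₂ (PowerSeries.C.comp C) E.ξ) = _
    rw [Polynomial.hom_eval₂, E.ξ0, Polynomial.comp]
    congr 1
  have hdet4 : (Matrix.of fun k m => ∑ i, f i * (γ i k m).comp (C E.c1 * X) :
      Matrix (Fin r) (Fin r) κ[X]).det = 0 := by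
    have h := congrArg (PowerSeries.constantCoeff (R := κ[X])) hdet3
    rw [map_zero, RingHom.map_det] at h
    rw [← h]
    congr 1
    ext1 k m
    rw [RingHom.mapMatrix_apply, Matrix.map_apply, Matrix.of_apply, Matrix.of_apply, map_sum]
    exact Finset.sum_congr rfl fun i _ => by rw [map_mul, hfA, hcγ]
  -- step 6: undo the scaling
  have hcomp1 : ∀ P : κ[X], (P.comp (C E.c1 * X)).comp (C E.c1⁻¹ * X) = P := by
    intro P
    rw [Polynomial.comp_assoc, Polynomial.mul_comp, Polynomial.C_comp, Polynomial.X_comp,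
      ← mul_assoc, ← Polynomial.C_mul, mul_inv_cancel₀ E.c1_ne, Polynomial.C_1, one_mul,
      Polynomial.comp_X]
  have hcomp2 : ∀ P : κ[X], (P.comp (C E.c1⁻¹ * X)).comp (C E.c1 * X) = P := by
    intro P
    rw [Polynomial.comp_assoc, Polynomial.mul_comp, Polynomial.C_comp, Polynomial.X_comp,
      ← mul_assoc, ← Polynomial.C_mul, inv_mul_cancel₀ E.c1_ne, Polynomial.C_1, one_mul,
      Polynomial.comp_X]
  refine hγ (fun i => (f i).comp (C E.c1⁻¹ * X)) ?_ ?_
  · intro h0
    have h1 := congrFun h0 iv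
    simp only [Pi.zero_apply] at h1
    apply hiv
    have h2 := hcomp2 (f iv)
    rw [h1, Polynomial.zero_comp] at h2
    exact h2.symm
  · have h := congrArg (Polynomial.compRingHom (C E.c1⁻¹ * X)) hdet4
    rw [map_zero, RingHom.map_det] at h
    rw [← h]
    congr 1
    ext1 k m
    rw [RingHom.mapMatrix_apply, Matrix.map_apply, Matrix.of_apply, Matrix.of_apply, map_sum]
    refine Finset.sum_congr rfl fun i _ => ?_
    rw [map_mul, Polynomial.coe_compRingHom_apply, Polynomial.coe_compRingHom_apply, hcomp1]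

end

end Pool.Agent.MP_1c8e06_ag.AI
end
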