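import Pool.Agent.Lib.MP_1c8e06_ag.Mg.G091
import Pool.Agent.Lib.MP_1c8e06_ag.Mg.G093
import Pool.Agent.Lib.MP_1c8e06_ag.Mg.G094
import Pool.Agent.Lib.MP_1c8e06_ag.Mg.G095
import Pool.Agent.Lib.MP_1c8e06_ag.AI.BA7
import Pool.Agent.Lib.MP_1c8e06_ag.Mg.G090

section

set_option autoImplicit false

open Polynomial

namespace Pool.Agent.MP_1c8e06_ag.AI

noncomputable section

/-!
# Task BA3: the functions `ν i = (y - i)^(1/e)`

Proof.  Let `ν0` be as in `exists_nu0` and put `ν i := tau^[(-i).val] ν0` (`i : ZMod p`).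
`tau^[p] = id` (`tau_iterate_p`), so `tau (ν i) = ν (i - 1)`.
`(ν i)^e = tau^[(-i).val] yy = yy + (-i).val = yy - i.val` (characteristic `p`).
`∏ i, (yy - i.val) = yy^p - yy` (`∏_{i ∈ ZMod p} (T - i) = T^p - T`; e.g.
`FiniteField.X_pow_card_sub_X_...`/`ZMod`: the polynomial `T^p - T` over `ZMod p` splits; map it to
`EE` by `ZMod.castHom`/`algebraMap`), which is `ze (X^e) = (ze X)^e`.  So `P := ∏ i, ν i` satisfies
`P^e = (ze X)^e`.  `EE p (X^e)` is a field, `ζ' := ofL (C ζ)` is a primitive `e`-th root of unity in it, so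
`P = ζ'^m * ze X` for some `m` (`IsPrimitiveRoot.eq_pow_of_pow_eq_one`).  Choose `t : ℕ` with
`p t + m ≡ 0 mod e` (`gcd(p,e) = 1`) and replace `ν i` by `ζ'^t * ν i`: the product becomes
`ζ'^(pt+m) ze X = ze X`; the other two properties persist (`tau` fixes `ζ'`, `ζ'^e = 1`).
-/

private theorem BA3_prod_X_sub (p : ℕ) [hp : Fact p.Prime] :
    ∏ i : ZMod p, (X - C i) = (X ^ p - X : (ZMod p)[X]) := by
  have hr : (X ^ p - X : (ZMod p)[X]).roots = Finset.univ.val := by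
    have h := FiniteField.roots_X_pow_card_sub_X (ZMod p)
    rwa [ZMod.card] at h
  have hd : (X ^ p - X : (ZMod p)[X]).natDegree = p :=
    FiniteField.X_pow_card_sub_X_natDegree_eq (ZMod p) hp.out.one_lt
  have hm : (X ^ p - X : (ZMod p)[X]).Monic :=
    monic_X_pow_sub (by rw [degree_X]; exact_mod_cast hp.out.one_lt)
  have h := prod_multiset_X_sub_C_of_monic_of_roots_card_eq hm (by
    rw [hr, hd]
    simp [ZMod.card])
  rw [hr] at h
  rw [← h]
  rfl

private theorem BA3_prod {p : ℕ} [hp : Fact p.Prime] {E : Type} [CommRing E] [CharP E p] (y : E) :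
    ∏ i : ZMod p, (y - ((i.val : ℕ) : E)) = y ^ p - y := by
  have h := congrArg (Polynomial.eval₂ (ZMod.castHom (dvd_refl p) E) y) (BA3_prod_X_sub p)
  rw [eval₂_finsetProd] at h
  simp only [eval₂_sub, eval₂_X, eval₂_C, eval₂_X_pow] at h
  rw [← h]
  refine Finset.prod_congr rfl fun i _ => ?_
  congr 1
  rw [ZMod.castHom_apply, ← ZMod.natCast_val]

theorem exists_nu {p : ℕ} [hp : Fact p.Prime] {κ : Type} [Field κ] [CharP κ p] (e : ℕ)
    (hpe : ¬ p ∣ e) (ζ : κ) (hζ : IsPrimitiveRoot ζ e) :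
    ∃ ν : ZMod p → EE p (X ^ e : κ[X]),
      (∀ i, ν i ^ e = yy p (X ^ e) - ((i.val : ℕ) : EE p (X ^ e : κ[X]))) ∧
      ∏ i, ν i = ze p (X ^ e) X ∧
      ∀ i, tau p (X ^ e) (ν i) = ν (i - 1) := by
  have he0 : e ≠ 0 := by
    rintro rfl
    exact hpe (dvd_zero p)
  obtain ⟨ν0, hν0⟩ := exists_nu0 (p := p) κ e hpe
  have : IsDomain (EE p (X ^ e : κ[X])) := isDomain_EE (by rwa [natDegree_X_pow])
  have hinj : Function.Injective
      ((ofL p (X ^ e : κ[X])).comp (HahnSeries.C : κ →+* LaurentSeries κ)) := by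
    rw [RingHom.coe_comp]
    exact (ofL_injective (p := p) (F := (X ^ e : κ[X]))).comp HahnSeries.C_injective
  have : CharP (EE p (X ^ e : κ[X])) p := charP_of_injective_ringHom hinj p
  -- the first choice
  have hper : Function.IsPeriodicPt (tau p (X ^ e : κ[X])) p ν0 := tau_iterate_p ν0
  have hmod : ∀ m n : ℕ, ((m : ℕ) : ZMod p) = ((n : ℕ) : ZMod p) →
      (tau p (X ^ e : κ[X]))^[m] ν0 = (tau p (X ^ e : κ[X]))^[n] ν0 := by
    intro m n h
    rw [← hper.iterate_mod_apply m, ← hper.iterate_mod_apply n,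
      (ZMod.natCast_eq_natCast_iff' m n p).mp h]
  let ν1 : ZMod p → EE p (X ^ e : κ[X]) := fun i => (tau p (X ^ e : κ[X]))^[(-i).val] ν0
  have htau : ∀ i, tau p (X ^ e : κ[X]) (ν1 i) = ν1 (i - 1) := by
    intro i
    show tau p (X ^ e : κ[X]) ((tau p (X ^ e : κ[X]))^[(-i).val] ν0) = _
    rw [← Function.iterate_succ_apply' (tau p (X ^ e : κ[X]))]
    refine hmod _ _ ?_
    rw [Nat.cast_succ, ZMod.natCast_zmod_val, ZMod.natCast_zmod_val]
    ring
  have hyy : ∀ n : ℕ, (tau p (X ^ e : κ[X]))^[n] (yy p (X ^ e)) =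
      yy p (X ^ e) + ((n : ℕ) : EE p (X ^ e : κ[X])) := by
    intro n
    induction n with
    | zero => simp
    | succ n ih => rw [Function.iterate_succ_apply', ih, map_add, tau_yy, map_natCast]; push_cast; ring
  have hpow : ∀ i, ν1 i ^ e = yy p (X ^ e) - ((i.val : ℕ) : EE p (X ^ e : κ[X])) := by
    intro i
    show ((tau p (X ^ e : κ[X]))^[(-i).val] ν0) ^ e = _
    rw [← RingHom.coe_pow, ← map_pow, hν0, RingHom.coe_pow, hyy]
    have h1 : (((-i).val + i.val : ℕ) : EE p (X ^ e : κ[X])) = 0 := by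
      rw [CharP.cast_eq_zero_iff (EE p (X ^ e : κ[X])) p, ← ZMod.natCast_eq_zero_iff]
      push_cast
      rw [ZMod.natCast_zmod_val, ZMod.natCast_zmod_val]
      ring
    push_cast at h1
    linear_combination h1
  -- the product
  have hP : (∏ i, ν1 i) ^ e = (ze p (X ^ e : κ[X]) X) ^ e := by
    rw [← Finset.prod_pow]
    simp only [hpow]
    rw [BA3_prod, yy_pow_eq, add_sub_cancel_left, map_pow]
  have : NeZero e := ⟨he0⟩
  let ζ' : EE p (X ^ e : κ[X]) := ofL p (X ^ e : κ[X]) (HahnSeries.C ζ)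
  have hζ' : IsPrimitiveRoot ζ' e := hζ.map_of_injective hinj
  let u : EE p (X ^ e : κ[X]) := ofL p (X ^ e : κ[X]) (HahnSeries.single (1 : ℤ) (1 : κ))
  have hu : ze p (X ^ e : κ[X]) X * u = 1 := by
    show ze p (X ^ e : κ[X]) X * ofL p (X ^ e : κ[X]) (HahnSeries.single (1 : ℤ) (1 : κ)) = 1
    rw [ze_apply, zinv_X, ← map_mul, HahnSeries.single_mul_single]
    simp
  have hξ : ((∏ i, ν1 i) * u) ^ e = 1 := by
    rw [mul_pow, hP, ← mul_pow, hu, one_pow]
  obtain ⟨m, -, hm⟩ := hζ'.eq_pow_of_pow_eq_one hξ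
  have hPm : ∏ i, ν1 i = ζ' ^ m * ze p (X ^ e : κ[X]) X := by
    rw [hm, mul_assoc, mul_comm u, hu, mul_one]
  have hcop : Nat.Coprime p e := (Nat.Prime.coprime_iff_not_dvd hp.out).mpr hpe
  let t : ℕ := (-(m : ZMod e) * (p : ZMod e)⁻¹).val
  have ht : e ∣ p * t + m := by
    rw [← ZMod.natCast_eq_zero_iff]
    push_cast
    rw [show ((t : ℕ) : ZMod e) = -(m : ZMod e) * (p : ZMod e)⁻¹ from ZMod.natCast_zmod_val _]
    have h1 := ZMod.coe_mul_inv_eq_one p hcop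
    linear_combination (-(m : ZMod e)) * h1
  have hζt : ζ' ^ (p * t + m) = 1 := (hζ'.pow_eq_one_iff_dvd _).mpr ht
  have htζ : tau p (X ^ e : κ[X]) ζ' = ζ' := tau_ofL _
  refine ⟨fun i => ζ' ^ t * ν1 i, fun i => ?_, ?_, fun i => ?_⟩
  · rw [mul_pow, hpow i, ← pow_mul, mul_comm t e, pow_mul, hζ'.pow_eq_one, one_pow, one_mul]
  · rw [Finset.prod_mul_distrib, Finset.prod_const, Finset.card_univ, ZMod.card, hPm, ← mul_assoc,
      ← pow_mul, ← pow_add, mul_comm t p, hζt, one_mul]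
  · rw [map_mul, map_pow, htζ, htau i]

end

end Pool.Agent.MP_1c8e06_ag.AI
end

section

set_option autoImplicit false

open Polynomial

namespace Pool.Agent.MP_1c8e06_ag.AI

noncomputable section

/-!
# Task BA8: the action of `H₀` on `S`, with its dual system and invariants

Setting as in `AI/BA5.lean`: `S := Sring ν`.
Proof.
(1) For `c : CC p e` let `σ_c : S ≃+* S` be the automorphism with `σ_c ν_i = ζ^{(c i).val} ν_i`, fixing `κ`.
    It exists by `kummer` with `E := EE p (X^e)` (a field, `irreducible_asPoly`; use the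
    `κ`-algebra structure of `E` given by `ze ∘ C`), `y := yy`, transcendental over `κ` (if `P(yy) = 0`,
    `P ≠ 0`, then `wt (P(yy)) = -n deg P ≠ ⊤`: weights of the monomials are distinct; or: `yy` algebraic over
    `κ` would make `ze X`, `(ze X)^e = yy^p - yy`, algebraic, but `wt (ze Q) ≠ ⊤` for `Q ≠ 0`),
    `a i := (i.val : κ)` (injective, char `p`), `ν`; note `Sring ν = Algebra.adjoin κ (range ν)` as sets.
    Uniqueness of a ring automorphism with given values on generators gives `σ_{c+c'} = σ_c σ_{c'}`,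
    so `c ↦ σ_c` is a homomorphism `Multiplicative (CC p e) →* (S ≃+* S)` (`ζ^e = 1`).
(2) `t := tau` restricted to `S` (`tau_mem_Sring`; bijective since `tau^[p] = id`), `t^p = 1`.
    Relation: `t σ_c t⁻¹ = σ_{c'}`, `c' i = c (i+1)`: `t⁻¹ ν_i = ν_{i+1}`, `σ_c` gives
    `ζ^{c_{i+1}} ν_{i+1}`, `t` gives `ζ^{c_{i+1}} ν_i`.  So the universal property of `H₀` gives `act`.
(3) All `σ_c` and `t` fix `ze P`: they fix `κ` and `x = ∏ ν_i` (as `∑ c_i = 0` in `ZMod e`,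
    `ζ^{∑ (c i).val} = 1`).
(4) Dual system: `exists_dual`; need for `h ≠ 1` that the ideal `I` generated by all `s - h s` is `⊤`.
    `h = inl c * g₀^m`.  If `m ≠ 0` (`0 < m < p`): `s = y = ν_0^e ∈ S`: `h y = σ_c (y + m) = y + m` (`σ_c`
    fixes `y` as `ζ^e = 1`), so `-m ∈ I` is a unit.  If `m = 0`: `c ≠ 0`; as `∑ c_i = 0` there are `i ≠ j`
    with `c_i, c_j ≠ 0`; `ν_i - σ_c ν_i = (1 - ζ^{c_i}) ν_i`, `1 - ζ^{c_i}` is a nonzero constant, so
    `ν_i, ν_j ∈ I`, hence `ν_i^e - ν_j^e = j.val - i.val ∈ I`, a unit (nonzero in `κ`).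
(5) Invariants: `Sring_inv`.
-/

/-- `kummer` for the subring generated by constants and the `ν i`. -/
theorem ba8_kummer_ring {κ E : Type} [Field κ] [Field E] (i₀ : κ →+* E) (e : ℕ) (he : 0 < e)
    (ζ : κ) (hζ : IsPrimitiveRoot ζ e) (y : E)
    (hy : ∀ P : κ[X], P.eval₂ i₀ y = 0 → P = 0) {ι : Type} [Fintype ι]
    (a : ι → κ) (ha : Function.Injective a) (ν : ι → E)
    (hν : ∀ i, ν i ^ e = y - i₀ (a i)) (c : ι → ℕ) (S : Subring E)
    (hS : S = Subring.closure (Set.range i₀ ∪ Set.range ν)) :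
    ∃ σ : S ≃+* S,
      (∀ (i : ι) (h : ν i ∈ S), ((σ ⟨ν i, h⟩ : S) : E) = i₀ (ζ ^ c i) * ν i) ∧
      (∀ (b : κ) (h : i₀ b ∈ S), ((σ ⟨i₀ b, h⟩ : S) : E) = i₀ b) := by
  let _ : Algebra κ E := i₀.toAlgebra
  have htr : Transcendental κ y := by
    rw [transcendental_iff]
    intro P hP
    exact hy P hP
  obtain ⟨σ, hσ⟩ := kummer e he ζ hζ y htr a ha ν hν c
  have hS' : (Algebra.adjoin κ (Set.range ν)).toSubring = S := by
    rw [Algebra.adjoin_eq_ring_closure, hS]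
    rfl
  subst hS'
  refine ⟨σ.toRingEquiv, ?_, ?_⟩
  · intro i h
    exact hσ i h
  · intro b h
    have h1 : (⟨i₀ b, h⟩ : Algebra.adjoin κ (Set.range ν)) =
        algebraMap κ (Algebra.adjoin κ (Set.range ν)) b := rfl
    have h2 := σ.commutes b
    have h3 : σ ⟨i₀ b, h⟩ = ⟨i₀ b, h⟩ := by
      rw [h1]
      exact h2
    exact congrArg Subtype.val h3

section
variable {p : ℕ} [hp : Fact p.Prime] {κ : Type} [Field κ] [CharP κ p] {e : ℕ}
  (ν : ZMod p → EE p (X ^ e : κ[X]))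

/-- `yy` is transcendental over the constants. -/
theorem ba8_transc (hpe : ¬ p ∣ e) (P : κ[X])
    (h : P.eval₂ ((ze p (X ^ e : κ[X])).comp C) (yy p (X ^ e : κ[X])) = 0) : P = 0 := by
  have he0 : e ≠ 0 := by
    rintro rfl
    exact hpe (dvd_zero p)
  have hdom : IsDomain (EE p (X ^ e : κ[X])) := isDomain_EE (by rwa [natDegree_X_pow])
  let _ : Algebra κ (EE p (X ^ e : κ[X])) := ((ze p (X ^ e : κ[X])).comp C).toAlgebra
  by_contra hP
  have hy : IsAlgebraic κ (yy p (X ^ e : κ[X])) := ⟨P, hP, h⟩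
  have hx : IsAlgebraic κ (ze p (X ^ e : κ[X]) X ^ e) := by
    have h1 : ze p (X ^ e : κ[X]) X ^ e = yy p (X ^ e) ^ p - yy p (X ^ e) := by
      rw [← map_pow, yy_pow_eq]
      ring
    rw [h1]
    exact (hy.pow p).sub hy
  have hx2 : IsAlgebraic κ (ze p (X ^ e : κ[X]) X) :=
    hx.of_pow (Nat.pos_of_ne_zero he0)
  obtain ⟨Q, hQ, hQ2⟩ := hx2
  apply hQ
  apply ze_injective (p := p) (F := (X ^ e : κ[X]))
  rw [map_zero, ← hQ2]
  have h2 : (Polynomial.aeval (R := κ) (ze p (X ^ e : κ[X]) X) : κ[X] →ₐ[κ] EE p (X ^ e : κ[X])).toRingHom =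
      ze p (X ^ e : κ[X]) := by
    refine Polynomial.ringHom_ext ?_ ?_
    · intro a
      simp only [AlgHom.toRingHom_eq_coe, RingHom.coe_coe, aeval_C]
      rfl
    · simp
  exact (RingHom.congr_fun h2 Q).symm

theorem ba8_sigma (hpe : ¬ p ∣ e)
    (h1 : ∀ i, ν i ^ e = yy p (X ^ e) - ((i.val : ℕ) : EE p (X ^ e : κ[X])))
    (ζ : κ) (hζ : IsPrimitiveRoot ζ e) (c : ZMod p → ℕ) :
    ∃ σ : Sring ν ≃+* Sring ν,
      (∀ (i : ZMod p) (h : ν i ∈ Sring ν), ((σ ⟨ν i, h⟩ : Sring ν) : EE p (X ^ e : κ[X])) =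
        ze p (X ^ e) (C (ζ ^ c i)) * ν i) ∧
      (∀ (a : κ) (h : ze p (X ^ e) (C a) ∈ Sring ν),
        ((σ ⟨_, h⟩ : Sring ν) : EE p (X ^ e : κ[X])) = ze p (X ^ e) (C a)) := by
  have he0 : e ≠ 0 := by
    rintro rfl
    exact hpe (dvd_zero p)
  have hirr : Fact (Irreducible (asPoly p (X ^ e : κ[X]))) :=
    ⟨irreducible_asPoly (by rwa [natDegree_X_pow])⟩
  have : NeZero p := ⟨hp.out.ne_zero⟩
  exact ba8_kummer_ring (κ := κ) (E := EE p (X ^ e : κ[X])) ((ze p (X ^ e : κ[X])).comp C) e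
    (Nat.pos_of_ne_zero he0) ζ hζ (yy p (X ^ e)) (ba8_transc hpe) (fun i : ZMod p => ((i.val : ℕ) : κ))
    (by
      intro i j hij
      have hij' : ((i.val : ℕ) : κ) = ((j.val : ℕ) : κ) := hij
      rw [CharP.natCast_eq_natCast κ p, Nat.ModEq, Nat.mod_eq_of_lt (ZMod.val_lt i),
        Nat.mod_eq_of_lt (ZMod.val_lt j)] at hij'
      exact ZMod.val_injective p hij')
    ν (by
      intro i
      rw [h1 i, map_natCast]) c (Sring ν) rfl

/-- Ring homomorphisms from `Sring ν` are determined on generators. -/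
theorem ba8_ext {T : Type} [Ring T] (f g : Sring ν →+* T)
    (hc : ∀ (a : κ) (h : ze p (X ^ e) (C a) ∈ Sring ν), f ⟨_, h⟩ = g ⟨_, h⟩)
    (hn : ∀ (i : ZMod p) (h : ν i ∈ Sring ν), f ⟨_, h⟩ = g ⟨_, h⟩) : f = g := by
  ext ⟨s, hs⟩
  have key : ∀ (s : EE p (X ^ e : κ[X])) (hs : s ∈ Sring ν), f ⟨s, hs⟩ = g ⟨s, hs⟩ := by
    intro s hs
    refine Subring.closure_induction (p := fun s hs => f ⟨s, hs⟩ = g ⟨s, hs⟩) ?_ ?_ ?_ ?_ ?_ ?_ hs
    · rintro x (⟨a, rfl⟩ | ⟨i, rfl⟩)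
      · exact hc a _
      · exact hn i _
    · exact (map_zero f).trans (map_zero g).symm
    · exact (map_one f).trans (map_one g).symm
    · intro x y hx hy h1 h2
      have e1 : (⟨x + y, (Sring ν).add_mem hx hy⟩ : Sring ν) = ⟨x, hx⟩ + ⟨y, hy⟩ := rfl
      exact (congrArg f e1).trans (by rw [map_add]; exact (by rw [map_add]; exact congrArg₂ (· + ·) h1 h2 : f ⟨x, hx⟩ + f ⟨y, hy⟩ = g (⟨x, hx⟩ + ⟨y, hy⟩)))
    · intro x hx h1
      have e1 : (⟨-x, (Sring ν).neg_mem hx⟩ : Sring ν) = -⟨x, hx⟩ := rfl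
      exact (congrArg f e1).trans (by rw [map_neg]; exact (by rw [map_neg]; exact congrArg (- ·) h1 : - f ⟨x, hx⟩ = g (-⟨x, hx⟩)))
    · intro x y hx hy h1 h2
      have e1 : (⟨x * y, (Sring ν).mul_mem hx hy⟩ : Sring ν) = ⟨x, hx⟩ * ⟨y, hy⟩ := rfl
      exact (congrArg f e1).trans (by rw [map_mul]; exact (by rw [map_mul]; exact congrArg₂ (· * ·) h1 h2 : f ⟨x, hx⟩ * f ⟨y, hy⟩ = g (⟨x, hx⟩ * ⟨y, hy⟩)))
  exact key s hs

theorem ba8_equiv_ext (f g : Sring ν ≃+* Sring ν)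
    (hc : ∀ (a : κ) (h : ze p (X ^ e) (C a) ∈ Sring ν), f ⟨_, h⟩ = g ⟨_, h⟩)
    (hn : ∀ (i : ZMod p) (h : ν i ∈ Sring ν), f ⟨_, h⟩ = g ⟨_, h⟩) : f = g := by
  have h := ba8_ext ν (f : Sring ν →+* Sring ν) (g : Sring ν →+* Sring ν) hc hn
  ext s
  exact congrArg Subtype.val (RingHom.congr_fun h s)

theorem ba8_tau (h3 : ∀ i, tau p (X ^ e) (ν i) = ν (i - 1)) :
    ∃ t : Sring ν ≃+* Sring ν,
      (∀ s : Sring ν, ((t s : Sring ν) : EE p (X ^ e : κ[X])) = tau p (X ^ e) s) ∧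
      (∀ (n : ℕ) (s : Sring ν), (((t ^ n : RingAut (Sring ν)) s : Sring ν) : EE p (X ^ e : κ[X])) =
        (tau p (X ^ e))^[n] s) ∧ t ^ p = 1 := by
  let f : Sring ν →+* Sring ν := (tau p (X ^ e : κ[X])).restrict (Sring ν) (Sring ν)
    (fun s hs => tau_mem_Sring ν h3 s hs)
  have hf : ∀ s, ((f s : Sring ν) : EE p (X ^ e : κ[X])) = tau p (X ^ e) s := fun s => rfl
  have hfn : ∀ (n : ℕ) (s : Sring ν), ((f^[n] s : Sring ν) : EE p (X ^ e : κ[X])) =
      (tau p (X ^ e))^[n] s := by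
    intro n
    induction n with
    | zero => intro s; rfl
    | succ n ih => intro s; rw [Function.iterate_succ_apply', Function.iterate_succ_apply', hf, ih]
  have hfp : ∀ s, f^[p] s = s := fun s => Subtype.ext (by rw [hfn, tau_iterate_p])
  obtain ⟨k, hk⟩ : ∃ k, k + 1 = p := ⟨p - 1, Nat.succ_pred_eq_of_pos hp.out.pos⟩
  have hfk : ∀ s, f^[k + 1] s = s := fun s =>
    (congrFun (congrArg (fun n : ℕ => (f^[n] : Sring ν → Sring ν)) hk) s).trans (hfp s)
  have hbij : Function.Bijective f := by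
    constructor
    · intro a b hab
      have h1 := hfk a
      have h2 := hfk b
      rw [Function.iterate_succ_apply] at h1 h2
      rw [← h1, ← h2, hab]
    · intro b
      refine ⟨f^[k] b, ?_⟩
      have h2 := hfk b
      rw [Function.iterate_succ_apply'] at h2
      exact h2
  let t : Sring ν ≃+* Sring ν := RingEquiv.ofBijective f hbij
  have ht : ∀ s : Sring ν, ((t s : Sring ν) : EE p (X ^ e : κ[X])) = tau p (X ^ e) s := fun s => rfl
  have htn : ∀ (n : ℕ) (s : Sring ν),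
      (((t ^ n : RingAut (Sring ν)) s : Sring ν) : EE p (X ^ e : κ[X])) =
        (tau p (X ^ e))^[n] s := by
    intro n s
    rw [RingAut.coe_pow]
    exact hfn n s
  refine ⟨t, ht, htn, ?_⟩
  ext s
  rw [htn, tau_iterate_p]
  rfl

theorem ba8_pow_mod {ζ : κ} (hζ : IsPrimitiveRoot ζ e) (n : ℕ) : ζ ^ (n % e) = ζ ^ n := by
  rw [hζ.eq_orderOf, pow_mod_orderOf]

theorem ba8_pow_val {ζ : κ} [NeZero e] (hζ : IsPrimitiveRoot ζ e) (n : ℕ) :
    ζ ^ ((n : ZMod e).val) = ζ ^ n := by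
  rw [ZMod.val_natCast, ba8_pow_mod hζ]

theorem ba8_pow_val_add {ζ : κ} [NeZero e] (hζ : IsPrimitiveRoot ζ e) (a b : ZMod e) :
    ζ ^ ((a + b).val) = ζ ^ a.val * ζ ^ b.val := by
  rw [← pow_add, ZMod.val_add, ba8_pow_mod hζ]

end

theorem exists_action {p : ℕ} [hp : Fact p.Prime] [NeZero p] {κ : Type} [Field κ] [CharP κ p]
    {e : ℕ} [NeZero e] (hpe : ¬ p ∣ e) (ν : ZMod p → EE p (X ^ e : κ[X]))
    (h1 : ∀ i, ν i ^ e = yy p (X ^ e) - ((i.val : ℕ) : EE p (X ^ e : κ[X])))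
    (h2 : ∏ i, ν i = ze p (X ^ e) X)
    (h3 : ∀ i, tau p (X ^ e) (ν i) = ν (i - 1)) (ζ : κ) (hζ : IsPrimitiveRoot ζ e)
    {H₀ : Type} [Group H₀] [Fintype H₀] (inl : Multiplicative (CC p e) →* H₀) (g₀ : H₀)
    (hH2 : ∀ h : H₀, ∃ (c : CC p e) (m : ℕ), m < p ∧ h = inl (Multiplicative.ofAdd c) * g₀ ^ m)
    (hH4 : ∀ (A : Type) (_ : Group A) (f : Multiplicative (CC p e) →* A) (t : A), t ^ p = 1 →
        (∀ c c' : CC p e, (∀ i, (c' : ZMod p → ZMod e) i = (c : ZMod p → ZMod e) (i + 1)) →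
          t * f (Multiplicative.ofAdd c) * t⁻¹ = f (Multiplicative.ofAdd c')) →
        ∃ Φ : H₀ →* A, (∀ c, Φ (inl c) = f c) ∧ Φ g₀ = t) :
    ∃ act : H₀ →* (Sring ν ≃+* Sring ν),
      (∀ s : Sring ν, ((act g₀ s : Sring ν) : EE p (X ^ e : κ[X])) = tau p (X ^ e) s) ∧
      (∀ (h : H₀) (P : κ[X]) (hP : ze p (X ^ e) P ∈ Sring ν),
        act h ⟨ze p (X ^ e) P, hP⟩ = ⟨ze p (X ^ e) P, hP⟩) ∧
      (∀ s : Sring ν, (∀ h, act h s = s) →
        ∃ P : κ[X], (s : EE p (X ^ e : κ[X])) = ze p (X ^ e) P) ∧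
      (∃ (n : ℕ) (u v : Fin n → Sring ν), ∀ (h : H₀) [Decidable (h = 1)],
        ∑ i, u i * act h (v i) = if h = 1 then 1 else 0) := by
  classical
  have he0 : e ≠ 0 := NeZero.ne e
  -- membership of generators
  have hνS : ∀ i, ν i ∈ Sring ν := fun i => Subring.subset_closure (Or.inr ⟨i, rfl⟩)
  have hcS : ∀ a : κ, ze p (X ^ e : κ[X]) (C a) ∈ Sring ν := fun a =>
    Subring.subset_closure (Or.inl ⟨a, rfl⟩)
  have hyS : yy p (X ^ e : κ[X]) ∈ Sring ν := yy_mem_Sring ν h1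
  -- the automorphisms
  have hex := fun c : CC p e => ba8_sigma ν hpe h1 ζ hζ (fun i => ((c : ZMod p → ZMod e) i).val)
  choose σ hσn hσc using hex
  obtain ⟨t, ht, htn, htp⟩ := ba8_tau ν h3
  have hσn' : ∀ (c : CC p e) (i : ZMod p), σ c ⟨ν i, hνS i⟩ =
      ⟨ze p (X ^ e) (C (ζ ^ ((c : ZMod p → ZMod e) i).val)), hcS _⟩ * ⟨ν i, hνS i⟩ :=
    fun c i => Subtype.ext (hσn c i (hνS i))
  have hσc' : ∀ (c : CC p e) (a : κ), σ c ⟨ze p (X ^ e) (C a), hcS a⟩ =
      ⟨ze p (X ^ e) (C a), hcS a⟩ := fun c a => Subtype.ext (hσc c a (hcS a))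
  have hmul : ∀ c c' : CC p e, σ (c + c') = (σ c * σ c' : RingAut (Sring ν)) := by
    intro c c'
    refine ba8_equiv_ext ν _ _ ?_ ?_
    · intro a h
      rw [RingAut.mul_apply]
      exact (hσc' (c + c') a).trans ((congrArg (σ c) (hσc' c' a)).trans (hσc' c a)).symm
    · intro i h
      rw [RingAut.mul_apply]
      refine (hσn' (c + c') i).trans ?_
      refine Eq.trans ?_ (congrArg (σ c) (hσn' c' i)).symm
      rw [map_mul, hσn', hσc', ← mul_assoc]
      congr 1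
      apply Subtype.ext
      change ze p (X ^ e : κ[X]) (C (ζ ^ (((c + c' : CC p e) : ZMod p → ZMod e) i).val)) =
        ze p (X ^ e : κ[X]) (C (ζ ^ ((c' : ZMod p → ZMod e) i).val)) *
        ze p (X ^ e : κ[X]) (C (ζ ^ ((c : ZMod p → ZMod e) i).val))
      rw [← map_mul, ← C_mul]
      congr 2
      change ζ ^ ((c : ZMod p → ZMod e) i + (c' : ZMod p → ZMod e) i).val = _
      rw [ba8_pow_val_add hζ, mul_comm]
  let f : Multiplicative (CC p e) →* (RingAut (Sring ν)) := MonoidHom.mk' (fun c => σ c.toAdd)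
    (fun a b => hmul a.toAdd b.toAdd)
  have hf : ∀ c : CC p e, f (Multiplicative.ofAdd c) = σ c := fun c => rfl
  have htν : ∀ i, t ⟨ν i, hνS i⟩ = ⟨ν (i - 1), hνS (i - 1)⟩ := fun i =>
    Subtype.ext ((ht _).trans (h3 i))
  have htc : ∀ a, t ⟨ze p (X ^ e) (C a), hcS a⟩ = ⟨ze p (X ^ e) (C a), hcS a⟩ := fun a =>
    Subtype.ext ((ht _).trans (tau_ze _))
  obtain ⟨act, hact1, hact2⟩ := hH4 (RingAut (Sring ν)) inferInstance f t htp (by
    intro c c' hcc
    rw [hf, hf, mul_inv_eq_iff_eq_mul]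
    refine ba8_equiv_ext ν _ _ ?_ ?_
    · intro a h
      rw [RingAut.mul_apply, RingAut.mul_apply]
      exact ((congrArg t (hσc' c a)).trans (htc a)).trans
        ((congrArg (σ c') (htc a)).trans (hσc' c' a)).symm
    · intro i h
      rw [RingAut.mul_apply, RingAut.mul_apply]
      refine (congrArg t (hσn' c i)).trans ?_
      refine Eq.trans ?_ (congrArg (σ c') (htν i)).symm
      rw [map_mul, htc, htν, hσn', hcc (i - 1), sub_add_cancel])
  have hactσ : ∀ c : CC p e, act (inl (Multiplicative.ofAdd c)) = σ c := fun c => hact1 _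
  -- constants and `x` are fixed
  have hsum : ∀ c : CC p e, e ∣ ∑ i, ((c : ZMod p → ZMod e) i).val := by
    intro c
    rw [← ZMod.natCast_eq_zero_iff]
    push_cast
    have hc : ∑ i, (c : ZMod p → ZMod e) i = 0 := c.2
    simpa using hc
  have hze : ∀ P : κ[X], ze p (X ^ e) P ∈ Sring ν := ze_mem_Sring ν h2
  have hcoe : ∀ f : ZMod p → Sring ν, ((∏ i, f i : Sring ν) : EE p (X ^ e : κ[X])) =
      ∏ i, ((f i : Sring ν) : EE p (X ^ e : κ[X])) :=
    fun f => map_prod (Sring ν).subtype f Finset.univ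
  have hfixσ : ∀ (c : CC p e) (P : κ[X]) (hP : ze p (X ^ e) P ∈ Sring ν),
      σ c ⟨ze p (X ^ e) P, hP⟩ = ⟨ze p (X ^ e) P, hP⟩ := by
    intro c
    have h4 : ((σ c : Sring ν ≃+* Sring ν) : Sring ν →+* Sring ν).comp
        ((ze p (X ^ e)).codRestrict (Sring ν) hze) = (ze p (X ^ e)).codRestrict (Sring ν) hze := by
      refine Polynomial.ringHom_ext ?_ ?_
      · intro a
        exact hσc' c a
      · have hx : (ze p (X ^ e)).codRestrict (Sring ν) hze X = ∏ i, (⟨ν i, hνS i⟩ : Sring ν) := by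
          apply Subtype.ext
          rw [hcoe]
          exact h2.symm
        rw [RingHom.comp_apply, hx, RingEquiv.coe_toRingHom, map_prod]
        simp only [hσn']
        rw [Finset.prod_mul_distrib]
        have h5 : ∏ i, (⟨ze p (X ^ e) (C (ζ ^ ((c : ZMod p → ZMod e) i).val)), hcS _⟩ : Sring ν) =
            1 := by
          apply Subtype.ext
          rw [hcoe]
          change ∏ i, ze p (X ^ e : κ[X]) (C (ζ ^ ((c : ZMod p → ZMod e) i).val)) = 1
          rw [← map_prod, ← map_prod, Finset.prod_pow_eq_pow_sum,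
            (hζ.pow_eq_one_iff_dvd _).2 (hsum c), map_one, map_one]
        rw [h5, one_mul]
    intro P hP
    exact RingHom.congr_fun h4 P
  have hfixt : ∀ (n : ℕ) (P : κ[X]) (hP : ze p (X ^ e) P ∈ Sring ν),
      (t ^ n : RingAut (Sring ν)) ⟨ze p (X ^ e) P, hP⟩ = ⟨ze p (X ^ e) P, hP⟩ := by
    intro n P hP
    apply Subtype.ext
    rw [htn]
    induction n with
    | zero => rfl
    | succ n ih =>
      rw [Function.iterate_succ_apply', ih]
      exact tau_ze P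
  have hact : ∀ (c : CC p e) (m : ℕ) (s : Sring ν), act (inl (Multiplicative.ofAdd c) * g₀ ^ m) s =
      σ c ((t ^ m : RingAut (Sring ν)) s) := by
    intro c m s
    rw [map_mul, map_pow, hact2, hactσ]
    rfl
  have hunit : ∀ b : κ, b ≠ 0 → IsUnit (⟨ze p (X ^ e) (C b), hcS b⟩ : Sring ν) := by
    intro b hb
    refine IsUnit.of_mul_eq_one ⟨ze p (X ^ e) (C b⁻¹), hcS _⟩ ?_
    apply Subtype.ext
    change ze p (X ^ e : κ[X]) (C b) * ze p (X ^ e : κ[X]) (C b⁻¹) = 1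
    rw [← map_mul, ← C_mul, mul_inv_cancel₀ hb, map_one, map_one]
  have hcast : ∀ n : ℕ, ((n : Sring ν)) = ⟨ze p (X ^ e) (C (n : κ)), hcS _⟩ := by
    intro n
    apply Subtype.ext
    change ((n : Sring ν) : EE p (X ^ e : κ[X])) = ze p (X ^ e : κ[X]) (C (n : κ))
    rw [map_natCast, map_natCast]
    rfl
  have hyν : (⟨yy p (X ^ e), hyS⟩ : Sring ν) = ⟨ν 0, hνS 0⟩ ^ e := by
    apply Subtype.ext
    change yy p (X ^ e : κ[X]) = ν 0 ^ e
    rw [h1 0, ZMod.val_zero, Nat.cast_zero, sub_zero]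
  have hyσ : ∀ c : CC p e, σ c ⟨yy p (X ^ e), hyS⟩ = ⟨yy p (X ^ e), hyS⟩ := by
    intro c
    rw [hyν, map_pow, hσn', mul_pow]
    have h5 : (⟨ze p (X ^ e) (C (ζ ^ ((c : ZMod p → ZMod e) 0).val)), hcS _⟩ : Sring ν) ^ e = 1 := by
      apply Subtype.ext
      change ze p (X ^ e : κ[X]) (C (ζ ^ ((c : ZMod p → ZMod e) 0).val)) ^ e = 1
      rw [← map_pow, ← C_pow, ← pow_mul, mul_comm, pow_mul, hζ.pow_eq_one, one_pow, map_one,
        map_one]
    rw [h5, one_mul]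
  have hyt : ∀ m : ℕ, (t ^ m : RingAut (Sring ν)) ⟨yy p (X ^ e), hyS⟩ =
      ⟨yy p (X ^ e), hyS⟩ + (m : Sring ν) := by
    intro m
    apply Subtype.ext
    rw [htn]
    change _ = yy p (X ^ e : κ[X]) + ((m : Sring ν) : EE p (X ^ e : κ[X]))
    have h6 : ((m : Sring ν) : EE p (X ^ e : κ[X])) = (m : EE p (X ^ e : κ[X])) := rfl
    rw [h6]
    induction m with
    | zero => simp
    | succ n ih =>
      rw [Function.iterate_succ_apply', ih rfl, map_add, map_natCast, tau_yy, Nat.cast_succ]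
      ring
  refine ⟨act, ?_, ?_, ?_, ?_⟩
  · intro s
    rw [hact2]
    exact ht s
  · intro h P hP
    obtain ⟨c, m, hm, rfl⟩ := hH2 h
    rw [hact, hfixt, hfixσ]
  · intro s hs
    refine Sring_inv hpe ν h1 h2 ζ hζ s ?_ ?_
    · rw [← ht s, ← hact2, hs g₀]
    · intro c hc
      have hc' : ∑ i, ((c i : ℕ) : ZMod e) = 0 := by
        rw [← Nat.cast_sum, ZMod.natCast_eq_zero_iff]
        exact hc
      refine ⟨σ ⟨fun i => ((c i : ℕ) : ZMod e), hc'⟩, ?_, ?_, ?_⟩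
      · intro i h
        rw [hσn]
        change ze p (X ^ e : κ[X]) (C (ζ ^ ((c i : ℕ) : ZMod e).val)) * ν i = _
        rw [ba8_pow_val hζ]
      · intro a h
        exact hσc _ a h
      · rw [← hactσ]
        exact hs _
  · refine exists_dual act ?_
    intro h hh
    obtain ⟨c, m, hm, rfl⟩ := hH2 h
    set I : Ideal (Sring ν) := Ideal.span (Set.range fun s : Sring ν =>
      s - act (inl (Multiplicative.ofAdd c) * g₀ ^ m) s) with hI
    have hmem : ∀ s : Sring ν, s - σ c ((t ^ m : RingAut (Sring ν)) s) ∈ I := by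
      intro s
      rw [← hact]
      exact Ideal.subset_span ⟨s, rfl⟩
    by_cases hm0 : m = 0
    · subst hm0
      have hmem' : ∀ s : Sring ν, s - σ c s ∈ I := fun s => hmem s
      have hc0 : c ≠ 0 := by
        rintro rfl
        apply hh
        rw [pow_zero, mul_one]
        exact map_one inl
      have hmemν : ∀ i, (c : ZMod p → ZMod e) i ≠ 0 → (⟨ν i, hνS i⟩ : Sring ν) ∈ I := by
        intro i hi
        have h5 := hmem' ⟨ν i, hνS i⟩
        rw [hσn'] at h5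
        have h6 : ζ ^ ((c : ZMod p → ZMod e) i).val ≠ 1 :=
          hζ.pow_ne_one_of_pos_of_lt (by rwa [Ne, ZMod.val_eq_zero]) (ZMod.val_lt _)
        have h7 := hunit (1 - ζ ^ ((c : ZMod p → ZMod e) i).val) (sub_ne_zero.2 (Ne.symm h6))
        have h8 : (⟨ν i, hνS i⟩ : Sring ν) -
            ⟨ze p (X ^ e) (C (ζ ^ ((c : ZMod p → ZMod e) i).val)), hcS _⟩ * ⟨ν i, hνS i⟩ =
            ⟨ze p (X ^ e) (C (1 - ζ ^ ((c : ZMod p → ZMod e) i).val)), hcS _⟩ * ⟨ν i, hνS i⟩ := by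
          apply Subtype.ext
          change ν i - ze p (X ^ e : κ[X]) (C (ζ ^ ((c : ZMod p → ZMod e) i).val)) * ν i =
            ze p (X ^ e : κ[X]) (C (1 - ζ ^ ((c : ZMod p → ZMod e) i).val)) * ν i
          rw [C_sub, map_sub, C_1, map_one]
          ring
        rw [h8] at h5
        exact (Ideal.unit_mul_mem_iff_mem I h7).1 h5
      obtain ⟨i, hi⟩ : ∃ i, (c : ZMod p → ZMod e) i ≠ 0 := by
        by_contra hcon
        push Not at hcon
        exact hc0 (Subtype.ext (funext hcon))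
      obtain ⟨j, hji, hj⟩ : ∃ j, j ≠ i ∧ (c : ZMod p → ZMod e) j ≠ 0 := by
        by_contra hcon
        push Not at hcon
        have hcs : ∑ i, (c : ZMod p → ZMod e) i = 0 := c.2
        rw [Finset.sum_eq_single i (fun j _ hj => hcon j hj) (fun h => absurd (Finset.mem_univ i) h)]
          at hcs
        exact hi hcs
      have h5 : (⟨ν i, hνS i⟩ : Sring ν) ^ e - (⟨ν j, hνS j⟩ : Sring ν) ^ e ∈ I :=
        I.sub_mem (I.pow_mem_of_mem (hmemν i hi) e (Nat.pos_of_ne_zero he0))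
          (I.pow_mem_of_mem (hmemν j hj) e (Nat.pos_of_ne_zero he0))
      have h6 : (⟨ν i, hνS i⟩ : Sring ν) ^ e - (⟨ν j, hνS j⟩ : Sring ν) ^ e =
          ⟨ze p (X ^ e) (C (((j.val : ℕ) : κ) - ((i.val : ℕ) : κ))), hcS _⟩ := by
        apply Subtype.ext
        change ν i ^ e - ν j ^ e = ze p (X ^ e : κ[X]) (C (((j.val : ℕ) : κ) - ((i.val : ℕ) : κ)))
        rw [h1 i, h1 j, C_sub, map_sub, map_natCast, map_natCast, map_natCast, map_natCast]
        ring
      rw [h6] at h5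
      refine Ideal.eq_top_of_isUnit_mem I h5 (hunit _ ?_)
      rw [sub_ne_zero]
      intro h7
      rw [CharP.natCast_eq_natCast κ p, Nat.ModEq, Nat.mod_eq_of_lt (ZMod.val_lt i),
        Nat.mod_eq_of_lt (ZMod.val_lt j)] at h7
      exact hji (ZMod.val_injective p h7)
    · have h5 := hmem ⟨yy p (X ^ e), hyS⟩
      rw [hyt, map_add, hyσ, map_natCast] at h5
      have h6 : (⟨yy p (X ^ e), hyS⟩ : Sring ν) - (⟨yy p (X ^ e), hyS⟩ + (m : Sring ν)) =
          -⟨ze p (X ^ e) (C (m : κ)), hcS _⟩ := by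
        rw [← hcast m]
        ring
      rw [h6] at h5
      refine Ideal.eq_top_of_isUnit_mem I h5 (hunit _ ?_).neg
      intro h7
      rw [CharP.cast_eq_zero_iff κ p] at h7
      exact hm0 (Nat.eq_zero_of_dvd_of_lt h7 hm)

end

end Pool.Agent.MP_1c8e06_ag.AI
end

section

set_option autoImplicit false

open Polynomial

namespace Pool.Agent.MP_1c8e06_ag.AI

noncomputable section

/-!
# Task BA: the base covers (assembly)

Proof.  `[NeZero e]`, `[NeZero p]`.  `exists_nu`, `exists_H0`, `exists_action`, `exists_phi`,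
`Sring_finite`, `ze_mem_Sring`, `exists_ind`, `exists_WD`.  `Conn H` for `H := closure {g, a g a⁻¹} ≤ φ.range`:
every `h ∈ H` is `φ h'`.
-/
theorem exists_base {p : ℕ} [hp : Fact p.Prime] {κ : Type} [Field κ] [CharP κ p] {e : ℕ}
    (hpe : ¬ p ∣ e) (ζ : κ) (hζ : IsPrimitiveRoot ζ e) {G : Type} [Group G] [Fintype G]
    (g a : G) (hg : orderOf g = p) (ha : a ^ e = 1)
    (hcomm : ∀ i : ℕ, Commute a (g ^ i * a * (g ^ i)⁻¹)) :
    ∃ D : WD p κ G g (X ^ e : κ[X]), D.Conn (Subgroup.closure {g, a * g * a⁻¹}) := by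
  classical
  have he0 : e ≠ 0 := by
    rintro rfl
    exact hpe (dvd_zero p)
  have : NeZero e := ⟨he0⟩
  have : NeZero p := ⟨hp.out.ne_zero⟩
  obtain ⟨ν, h1, h2, h3⟩ := exists_nu e hpe ζ hζ
  obtain ⟨H₀, iG, iF, inl, g₀, hg0, hH2, hH3, hH4⟩ := exists_H0 p e
  obtain ⟨act, hact1, hact2, hact3, hact4⟩ :=
    exists_action hpe ν h1 h2 h3 ζ hζ inl g₀ hH2 hH4
  obtain ⟨φ, hφg, hφa, hφk⟩ := exists_phi hpe g a hg ha hcomm inl g₀ hH2 hH3 hH4
  have hze : ∀ P : κ[X], ze p (X ^ e) P ∈ Sring ν := ze_mem_Sring ν h2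
  obtain ⟨W, hW⟩ := exists_ind (Sring ν) act φ g₀ hφg hact1 hze
    (fun h P => hact2 h P (hze P)) (Sring_finite hpe ν h1 h2) hact3 hact4 hφk
  refine exists_WD W (by rwa [natDegree_X_pow]) _ ?_
  intro h hh f hf hf1
  have hr : h ∈ φ.range := by
    refine (Subgroup.closure_le _).2 ?_ hh
    rintro x (rfl | rfl)
    · exact ⟨g₀, hφg⟩
    · exact hφa
  obtain ⟨h', rfl⟩ := hr
  exact hW h' f hf hf1

end

end Pool.Agent.MP_1c8e06_ag.AI
end
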