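import Pool.Agent.Lib.MP_1c8e06_ag.Mg.G032
import Pool.Agent.Lib.MP_1c8e06_ag.Mg.G030
import Pool.Agent.Lib.MP_1c8e06_ag.AK.Defs
import Pool.Agent.Lib.MP_1c8e06_ag.Mg.G090
import Pool.Agent.Lib.MP_1c8e06_ag.Mg.G092
import Pool.Agent.Lib.MP_1c8e06_ag.Mg.G029

section

set_option autoImplicit false

open Polynomial

namespace Pool.Agent.MP_1c8e06_ag.AK

noncomputable section

/-!
# Task V3b: uniqueness of the good extension with relatively free group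

Proofs.
* `real_unique`: `good_compositum` for `ψ₁, ψ₂` and `R₁ = R₂ = RF R p` (finite `ℓ`-groups: `RF.finite`, `RF.isPGroup`): `N, Γ, i₁, i₂, ρ₁, ρ₂`.  `gen_p`: `x : Fin p → Γ`.  Homomorphisms `Γ → R` are jointly injective: `γ ≠ 1` implies `ρ₁ γ ≠ 1` or `ρ₂ γ ≠ 1`, then `RF.sep`.
  `RF.lift`: `RF R p → Γ` onto, so `card Γ ≤ card (RF R p)`.  `surj_of_card` (`AK/F2.lean`): `i₁` and `i₂` are onto, hence isomorphisms; `T := i₂⁻¹ ∘ i₁` satisfies `T (ψ₁ x) = ψ₂ x`.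
* `exists_semilinear`: `real_unique` for `ψ₁ := ψ`, `ψ₂ := ψ.comp (sig k)`.
  `IsG (ψ.comp (sig k)) _ ⊥`: `sig k` is bijective (inverse: `compR (X + C (-1))`, check with `ratHom_ext`), so the range is the same.  `GoodS (Fp p k) (ψ.comp (sig k))`: for `b ∉ Fp`, `b - 1 ∉ Fp` (characteristic `p`) and
  `ε.comp ψ = psi (b - 1)`; then `ε (ψ (sig X)) = psi (b-1) (X + 1) = C b + t`, so `ε.comp (ψ.comp (sig k)) = psi b` (`ratHom_ext`).
-/

theorem real_unique {p : ℕ} [hp : Fact p.Prime] {k M₁ M₂ R : Type} [Field k] [IsAlgClosed k]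
    [CharP k p] [Field M₁] [Field M₂] [Group R] [Finite R] {ℓ : ℕ} [hℓ : Fact ℓ.Prime]
    (hℓk : (ℓ : k) ≠ 0) (hR : IsPGroup ℓ R) [MulSemiringAction (RF R p) M₁]
    [MulSemiringAction (RF R p) M₂] {ψ₁ : RatFunc k →+* M₁} {ψ₂ : RatFunc k →+* M₂}
    (h₁ : IsG ψ₁ (RF R p) ⊥) (h₂ : IsG ψ₂ (RF R p) ⊥) (hg₁ : GoodS (Fp p k) ψ₁)
    (hg₂ : GoodS (Fp p k) ψ₂) : ∃ T : M₁ ≃+* M₂, ∀ x, T (ψ₁ x) = ψ₂ x := by
  have hfin : Finite (RF R p) := RF.finite R p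
  have hP : IsPGroup ℓ (RF R p) := RF.isPGroup hR p
  obtain ⟨N, iN, Γ, iG, iF, iA, ψ, i₁, i₂, ρ₁, ρ₂, hG, e₁, e₂, hgN, hΓ, hker⟩ :=
    good_compositum h₁ h₂ (Fp p k) hg₁ hg₂ hP hP
  obtain ⟨x, hx⟩ := gen_p hG hℓk hΓ hgN
  have hinj : ∀ γ : Γ, γ ≠ 1 → ∃ φ : Γ →* R, φ γ ≠ 1 := by
    intro γ hγ
    by_cases h1 : ρ₁ γ = 1
    · have h2 : ρ₂ γ ≠ 1 := fun h2 => hγ (hker γ h1 h2)
      obtain ⟨φ, hφ⟩ := RF.sep R p (ρ₂ γ) h2
      exact ⟨φ.comp ρ₂, hφ⟩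
    · obtain ⟨φ, hφ⟩ := RF.sep R p (ρ₁ γ) h1
      exact ⟨φ.comp ρ₁, hφ⟩
  obtain ⟨u, hu, _⟩ := RF.lift R p x hx hinj
  have hcard : Nat.card Γ ≤ Nat.card (RF R p) := Nat.card_le_card_of_surjective u hu
  have s₁ : Function.Surjective i₁ := surj_of_card h₁ hG i₁ e₁ hcard
  have s₂ : Function.Surjective i₂ := surj_of_card h₂ hG i₂ e₂ hcard
  have b₁ : Function.Bijective i₁ := ⟨i₁.injective, s₁⟩
  have b₂ : Function.Bijective i₂ := ⟨i₂.injective, s₂⟩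
  refine ⟨(RingEquiv.ofBijective i₁ b₁).trans (RingEquiv.ofBijective i₂ b₂).symm, fun x => ?_⟩
  rw [RingEquiv.trans_apply, RingEquiv.symm_apply_eq]
  change i₁ (ψ₁ x) = i₂ (ψ₂ x)
  have t₁ : i₁ (ψ₁ x) = ψ x := by rw [← e₁]; rfl
  have t₂ : i₂ (ψ₂ x) = ψ x := by rw [← e₂]; rfl
  rw [t₁, t₂]

private theorem V3b_deg {k : Type} [Field k] : 0 < (X + C (-1) : k[X]).natDegree := by
  rw [natDegree_X_add_C]
  exact one_pos

private theorem V3b_sig_surj {k : Type} [Field k] (x : RatFunc k) : ∃ y, sig k y = x := by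
  refine ⟨compR (X + C (-1)) V3b_deg x, ?_⟩
  have h : (sig k).comp (compR (X + C (-1)) V3b_deg) = RingHom.id _ := by
    refine ratHom_ext (fun c => ?_) ?_
    · rw [RingHom.comp_apply, compR_C, sig_C, RingHom.id_apply]
    · rw [RingHom.comp_apply, compR_X, map_add, RatFunc.algebraMap_X, RatFunc.algebraMap_C,
        map_add, sig_X, sig_C, RingHom.id_apply, map_neg, map_one]
      ring
  exact congrArg (fun f => f x) h

theorem exists_semilinear {p : ℕ} [hp : Fact p.Prime] {k L R : Type} [Field k] [IsAlgClosed k]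
    [CharP k p] [Field L] [Group R] [Finite R] {ℓ : ℕ} [hℓ : Fact ℓ.Prime]
    (hℓk : (ℓ : k) ≠ 0) (hR : IsPGroup ℓ R) [MulSemiringAction (RF R p) L]
    {ψ : RatFunc k →+* L} (h : IsG ψ (RF R p) ⊥) (hg : GoodS (Fp p k) ψ) :
    ∃ T : L ≃+* L, ∀ x, T (ψ x) = ψ (sig k x) := by
  have h2 : IsG (ψ.comp (sig k)) (RF R p) ⊥ := by
    refine ⟨h.ker, fun a => ?_⟩
    rw [h.fix a]
    constructor
    · rintro ⟨x, hx⟩
      obtain ⟨y, hy⟩ := V3b_sig_surj x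
      exact ⟨y, by rw [RingHom.comp_apply, hy, hx]⟩
    · rintro ⟨x, hx⟩
      exact ⟨sig k x, hx⟩
  have hg2 : GoodS (Fp p k) (ψ.comp (sig k)) := by
    intro b hb
    have hb1 : b - 1 ∉ Fp p k := by
      intro hb1
      apply hb
      have h3 : (b - 1) ^ p = b - 1 := hb1
      rw [sub_pow_char, one_pow] at h3
      exact sub_left_injective h3
    obtain ⟨ε, hε⟩ := hg (b - 1) hb1
    refine ⟨ε, ratHom_ext (fun c => ?_) ?_⟩
    · have h4 := congrArg (fun f => f (RatFunc.C c)) hε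
      simp only [RingHom.comp_apply] at h4
      rw [RingHom.comp_apply, RingHom.comp_apply, sig_C, h4, psi_C, psi_C]
    · have h4 := congrArg (fun f => f (RatFunc.X + 1)) hε
      simp only [RingHom.comp_apply] at h4
      rw [RingHom.comp_apply, RingHom.comp_apply, sig_X, h4, map_add, psi_X, psi_X, map_sub,
        map_one, map_one]
      ring
  exact real_unique hℓk hR h h2 hg hg2

end

end Pool.Agent.MP_1c8e06_ag.AK
end

section

set_option autoImplicit false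

open Polynomial

namespace Pool.Agent.MP_1c8e06_ag.AK

noncomputable section

/-!
# Task V5b: a root of `1/y` in `EE p (X ^ e)`

Proof.  `k` contains a primitive `e`-th root of unity (`p ∤ e`, `k` algebraically closed).  `AI.exists_nu`: `ν`; `ν 0 ^ e = yy - 0 = yy`.  `EE p (X ^ e)` is a field
(`AI.irreducible_asPoly`), `yy ≠ 0` (`AI.wt_yy`, or coordinates), `w := (ν 0)⁻¹`, `w ^ e * yy = 1`.  Weight: `AI.wt_mul`: `e * wt (ν 0) = wt yy = -e`, so `wt (ν 0) = -1` (`e > 0`), and `wt w = 1`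
(`wt 1 = 0`), so `Fil 1 w` (`AI.le_wt_iff`).
-/

private theorem V5b_wt_pow {p : ℕ} [hp : Fact p.Prime] {k : Type} [Field k] {F : k[X]}
    (hF : ¬ p ∣ F.natDegree) {a : AI.EE p F} {m : ℤ} (ha : AI.wt p F a = (m : WithTop ℤ)) (n : ℕ) :
    AI.wt p F (a ^ (n + 1)) = (((n + 1 : ℕ) * m : ℤ) : WithTop ℤ) := by
  induction n with
  | zero =>
    rw [zero_add, pow_one, ha]
    push_cast
    rw [one_mul]
  | succ n ih =>
    rw [pow_succ, AI.wt_mul hF, ih, ha, ← WithTop.coe_add]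
    congr 1
    push_cast
    ring

theorem exists_w {p : ℕ} [hp : Fact p.Prime] {k : Type} [Field k] [IsAlgClosed k] [CharP k p]
    {e : ℕ} (hpe : ¬ p ∣ e) :
    ∃ w : AI.EE p (X ^ e : k[X]), w ≠ 0 ∧ AI.Fil p (X ^ e) 1 w ∧ w ^ e * AI.yy p (X ^ e) = 1 := by
  have hF : ¬ p ∣ (X ^ e : k[X]).natDegree := by rwa [natDegree_X_pow]
  have he0 : e ≠ 0 := by
    rintro rfl
    exact hpe (dvd_zero p)
  obtain ⟨ν, hν⟩ := AI.exists_nu0 (p := p) k e hpe
  have hdom : IsDomain (AI.EE p (X ^ e : k[X])) := AI.isDomain_EE hF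
  have hirr : Fact (Irreducible (AI.asPoly p (X ^ e : k[X]))) := ⟨AI.irreducible_asPoly hF⟩
  have hy0 : AI.yy p (X ^ e : k[X]) ≠ 0 := by
    intro h
    have h1 := AI.wt_yy (p := p) (F := (X ^ e : k[X])) hF
    rw [h, (AI.wt_eq_top_iff (0 : AI.EE p (X ^ e : k[X]))).2 rfl] at h1
    exact WithTop.top_ne_coe h1
  have hν0 : ν ≠ 0 := by
    rintro rfl
    rw [zero_pow he0] at hν
    exact hy0 hν.symm
  obtain ⟨w, hw⟩ : ∃ w : AI.EE p (X ^ e : k[X]), w * ν = 1 := by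
    let _ : Field (AI.EE p (X ^ e : k[X])) := AdjoinRoot.instField
    exact ⟨ν⁻¹, inv_mul_cancel₀ hν0⟩
  have hw0 : w ≠ 0 := by
    rintro rfl
    rw [zero_mul] at hw
    exact zero_ne_one hw
  refine ⟨w, hw0, ?_, ?_⟩
  · -- weights
    have h1 : AI.wt p (X ^ e : k[X]) (1 : AI.EE p (X ^ e : k[X])) + AI.wt p (X ^ e : k[X]) 1 =
        AI.wt p (X ^ e : k[X]) 1 := by
      rw [← AI.wt_mul hF, one_mul]
    have hone : AI.wt p (X ^ e : k[X]) (1 : AI.EE p (X ^ e : k[X])) ≠ ⊤ := by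
      intro h
      exact one_ne_zero ((AI.wt_eq_top_iff _).1 h)
    obtain ⟨o, ho⟩ := WithTop.ne_top_iff_exists.1 hone
    have ho0 : o = 0 := by
      rw [← ho, ← WithTop.coe_add] at h1
      have h2 : o + o = o := by exact_mod_cast h1
      omega
    have hνt : AI.wt p (X ^ e : k[X]) ν ≠ ⊤ := fun h => hν0 ((AI.wt_eq_top_iff _).1 h)
    obtain ⟨m, hm⟩ := WithTop.ne_top_iff_exists.1 hνt
    have hwt : AI.wt p (X ^ e : k[X]) w ≠ ⊤ := fun h => hw0 ((AI.wt_eq_top_iff _).1 h)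
    obtain ⟨l, hl⟩ := WithTop.ne_top_iff_exists.1 hwt
    have hm1 : m = -1 := by
      obtain ⟨n, rfl⟩ := Nat.exists_eq_succ_of_ne_zero he0
      have h2 := V5b_wt_pow hF hm.symm n
      rw [show n + 1 = n.succ from rfl, hν, AI.wt_yy hF, natDegree_X_pow] at h2
      have h3 : (-((n.succ : ℕ) : ℤ)) = ((n.succ : ℕ) : ℤ) * m := by exact_mod_cast h2
      have h4 : ((n.succ : ℕ) : ℤ) ≠ 0 := by
        exact_mod_cast Nat.succ_ne_zero n
      have h5 : ((n.succ : ℕ) : ℤ) * m = ((n.succ : ℕ) : ℤ) * (-1) := by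
        rw [← h3]
        ring
      exact mul_left_cancel₀ h4 h5
    have h6 : AI.wt p (X ^ e : k[X]) w + AI.wt p (X ^ e : k[X]) ν =
        AI.wt p (X ^ e : k[X]) (1 : AI.EE p (X ^ e : k[X])) := by
      rw [← AI.wt_mul hF, hw]
    rw [← hl, ← hm, ← ho, ho0, hm1, ← WithTop.coe_add] at h6
    have h7 : l + -1 = 0 := by exact_mod_cast h6
    rw [← AI.le_wt_iff, ← hl]
    have h8 : l = 1 := by omega
    rw [h8]
  · rw [← hν, ← mul_pow, hw, one_pow]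

end

end Pool.Agent.MP_1c8e06_ag.AK
end

section

set_option autoImplicit false

open Polynomial

namespace Pool.Agent.MP_1c8e06_ag.AK

noncomputable section

/-!
# Task V5: embedding into `EE p (X ^ e)` (assembly)

Proof.  `e = Nat.card Γ` is a power of `ℓ ≠ p` (`(ℓ : k) ≠ 0`), so `p ∤ e`, `e > 0`.  `ψ₀ : RatFunc k → k((t))`, `X ↦ t⁻¹ = single (-1) 1`: `ratLift HahnSeries.C (HahnSeries.single (-1) 1) h`, `h` from
`AI.zinv_injective` (`AI.zinv k` is by definition this `eval₂RingHom`).  `lemmaT`: `ε.comp ψ = (phi k e).comp ψ₀`.  `exists_w`: `w`, `exists_eval`: `Λ` (for `F := X ^ e`, `natDegree_X_pow`).  `j := Λ.comp ε`: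
`j (ψ X) = Λ (phi k e (single (-1) 1)) = Λ (single (-e) 1)` (`phi_single`), and `single (-e) 1 * (tt k) ^ e = 1`, so `Λ (single (-e) 1) * w ^ e = 1`, hence equal to `yy`.
Constants: `ε (ψ (C c)) = phi k e (ψ₀ (C c)) = C c` (`phi_C`).
-/

theorem exists_embed {p : ℕ} [hp : Fact p.Prime] {k L Γ : Type} [Field k] [IsAlgClosed k]
    [CharP k p] [Field L] [Group Γ] [Finite Γ] [MulSemiringAction Γ L] {ψ : RatFunc k →+* L}
    (h : IsG ψ Γ ⊥) {ℓ : ℕ} [hℓ : Fact ℓ.Prime] (hℓk : (ℓ : k) ≠ 0) (hΓ : IsPGroup ℓ Γ) (e : ℕ)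
    (he : Nat.card Γ = e) :
    ¬ p ∣ e ∧ ∃ j : L →+* AI.EE p (X ^ e : k[X]),
      (∀ c : k, j (ψ (RatFunc.C c)) = AI.ze p (X ^ e) (C c)) ∧
      j (ψ RatFunc.X) = AI.yy p (X ^ e) := by
  have hpk : (p : k) = 0 := CharP.cast_eq_zero k p
  obtain ⟨n, hn⟩ := (IsPGroup.iff_card).1 hΓ
  have he' : e = ℓ ^ n := by rw [← he, hn]
  have hpe : ¬ p ∣ e := by
    intro hd
    rw [he'] at hd
    have h1 : p ∣ ℓ := hp.out.dvd_of_dvd_pow hd
    have h2 : p = ℓ := (Nat.prime_dvd_prime_iff_eq hp.out hℓ.out).1 h1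
    apply hℓk
    rw [← h2]
    exact hpk
  have he0 : 0 < e := by
    rw [he']
    exact pow_pos hℓ.out.pos n
  refine ⟨hpe, ?_⟩
  obtain ⟨w, hw0, hwF, hwe⟩ := exists_w (k := k) hpe
  obtain ⟨Λ, hΛC, hΛt⟩ :=
    exists_eval (F := (X ^ e : k[X])) (by rwa [natDegree_X_pow]) w hw0 hwF
  obtain ⟨ε, hε⟩ := lemmaT h hℓk hΓ
    (ratLift (HahnSeries.C : k →+* LaurentSeries k) (HahnSeries.single (-1 : ℤ) (1 : k))
      (AI.zinv_injective (R := k)))
  rw [he] at hε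
  refine ⟨Λ.comp ε, ?_, ?_⟩
  · intro c
    have h1 := RingHom.congr_fun hε (RatFunc.C c)
    rw [RingHom.comp_apply, RingHom.comp_apply, ratLift_C, phi_C he0] at h1
    rw [RingHom.comp_apply, h1, hΛC]
  · have h1 := RingHom.congr_fun hε RatFunc.X
    rw [RingHom.comp_apply, RingHom.comp_apply, ratLift_X, phi_single he0] at h1
    rw [RingHom.comp_apply, h1]
    have h2 : HahnSeries.single ((e : ℤ) * (-1)) (1 : k) * tt k ^ e = 1 := by
      rw [tt, HahnSeries.single_pow, HahnSeries.single_mul_single]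
      simp
    have h3 : Λ (HahnSeries.single ((e : ℤ) * (-1)) (1 : k)) * w ^ e = 1 := by
      rw [← hΛt, ← map_pow, ← map_mul, h2, map_one]
    calc Λ (HahnSeries.single ((e : ℤ) * (-1)) (1 : k))
        = Λ (HahnSeries.single ((e : ℤ) * (-1)) (1 : k)) * (w ^ e * AI.yy p (X ^ e)) := by
          rw [hwe, mul_one]
      _ = (Λ (HahnSeries.single ((e : ℤ) * (-1)) (1 : k)) * w ^ e) * AI.yy p (X ^ e) := by
          rw [mul_assoc]
      _ = AI.yy p (X ^ e) := by rw [h3, one_mul]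

end

end Pool.Agent.MP_1c8e06_ag.AK
end
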