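import Mathlib
import Pool.Agent.Lib.MP_1c8e06_ag.AK.Defs

section

set_option autoImplicit false

open Polynomial

namespace Pool.Agent.MP_1c8e06_ag.AK

noncomputable section

/-!
# Task V9c: the group theory of the descent

Proof.  (Pure group theory.)  `f := Φ.comp ρ₁ : Γ →* G` is onto.  `ρ₂.ker` is normal in `Γ`, so its image `φ.range` under the surjection `f` is normal in `G`; it contains `g = φ γ₀`, so it contains the normal closure of
`g`: it is `⊤`.  Second part: `γ ↦ (ρ₁ γ, ρ₂ γ)` is injective, so `card Γ ∣ card A * card μ = p * e * e` (`Subgroup.card_subgroup_dvd_card` for the range), `card ρ₂.ker ∣ card Γ`, and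
`card ρ₂.ker = card φ.ker * card G` (`φ` is onto; `Subgroup.card_eq_card_quotient_mul_card_subgroup`, `QuotientGroup.quotientKerEquivOfSurjective`).  If `p ∣ card φ.ker` then `p ^ 2 ∣ p * e * e` (as `p ∣ card G`), so `p ∣ e`: contradiction.
-/

theorem phi_surj {p : ℕ} [hp : Fact p.Prime] {Γ A μ G : Type} [Group Γ] [Finite Γ] [Group A]
    [Finite A] [Group μ] [Finite μ] [Group G] [Finite G] (ρ₁ : Γ →* A) (ρ₂ : Γ →* μ)
    (hs₁ : Function.Surjective ρ₁) (hinj : ∀ γ : Γ, ρ₁ γ = 1 → ρ₂ γ = 1 → γ = 1) (Φ : A →* G)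
    (hΦ : Function.Surjective Φ) {e : ℕ} (hA : Nat.card A = p * e) (hμ : Nat.card μ = e)
    (hpe : ¬ p ∣ e) (g : G) (hgen : Subgroup.normalClosure ({g} : Set G) = ⊤)
    (hpG : p ∣ Nat.card G) (γ₀ : Γ) (h₂ : ρ₂ γ₀ = 1) (h₁ : Φ (ρ₁ γ₀) = g) :
    Function.Surjective ((Φ.comp ρ₁).comp ρ₂.ker.subtype) ∧
      ¬ p ∣ Nat.card ((Φ.comp ρ₁).comp ρ₂.ker.subtype).ker := by
  have hf : Function.Surjective (Φ.comp ρ₁) := hΦ.comp hs₁
  have hrange : ((Φ.comp ρ₁).comp ρ₂.ker.subtype).range = Subgroup.map (Φ.comp ρ₁) ρ₂.ker := by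
    rw [MonoidHom.range_eq_map, ← Subgroup.map_map, ← MonoidHom.range_eq_map,
      Subgroup.range_subtype]
  have hnorm : (Subgroup.map (Φ.comp ρ₁) ρ₂.ker).Normal :=
    Subgroup.Normal.map (MonoidHom.normal_ker ρ₂) _ hf
  have hgmem : g ∈ Subgroup.map (Φ.comp ρ₁) ρ₂.ker := ⟨γ₀, h₂, h₁⟩
  have htop : Subgroup.map (Φ.comp ρ₁) ρ₂.ker = ⊤ := by
    rw [eq_top_iff, ← hgen]
    exact Subgroup.normalClosure_le_normal (Set.singleton_subset_iff.mpr hgmem)
  have hsurj : Function.Surjective ((Φ.comp ρ₁).comp ρ₂.ker.subtype) := by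
    rw [← MonoidHom.range_eq_top, hrange, htop]
  refine ⟨hsurj, fun hdvd => ?_⟩
  have hprod : Function.Injective (ρ₁.prod ρ₂) := by
    rw [injective_iff_map_eq_one]
    intro γ hγ
    rw [MonoidHom.prod_apply, Prod.mk_eq_one] at hγ
    exact hinj γ hγ.1 hγ.2
  have hΓ : Nat.card Γ ∣ p * e * e := by
    have h := Subgroup.card_dvd_of_injective (ρ₁.prod ρ₂) hprod
    rwa [Nat.card_prod, hA, hμ] at h
  have hker : Nat.card ρ₂.ker ∣ Nat.card Γ := Subgroup.card_subgroup_dvd_card _
  have hcard : Nat.card ρ₂.ker =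
      Nat.card G * Nat.card ((Φ.comp ρ₁).comp ρ₂.ker.subtype).ker := by
    rw [Subgroup.card_eq_card_quotient_mul_card_subgroup
      ((Φ.comp ρ₁).comp ρ₂.ker.subtype).ker]
    congr 1
    exact Nat.card_congr (QuotientGroup.quotientKerEquivOfSurjective _ hsurj).toEquiv
  have hpp : p * p ∣ p * (e * e) := by
    rw [← mul_assoc]
    refine dvd_trans ?_ (dvd_trans hker hΓ)
    rw [hcard]
    exact mul_dvd_mul hpG hdvd
  have hee : p ∣ e * e := Nat.dvd_of_mul_dvd_mul_left hp.out.pos hpp
  rcases hp.out.dvd_mul.mp hee with h | h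
  · exact hpe h
  · exact hpe h

/-- The homomorphism of task V8 is onto. -/
theorem Phi_surj {A Γ G : Type} [Group A] [Group Γ] [Group G] (R : Subgroup G) (g r : G)
    (hRr : Subgroup.closure {x | ∃ j : ℕ, x = g ^ j * r * (g ^ j)⁻¹} = R)
    (hG : R ⊔ Subgroup.zpowers g = ⊤) (π : Γ →* R) (hr : ∃ γ, ((π γ : R) : G) = r) (Φ : A →* G)
    (t : A) (ht : Φ t = g) (hΦ : ∀ γ : Γ, ∃ a : A, Φ a = π γ) : Function.Surjective Φ := by
  rw [← MonoidHom.range_eq_top, eq_top_iff, ← hG]
  have hg : g ∈ Φ.range := ⟨t, ht⟩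
  have hrm : r ∈ Φ.range := by
    obtain ⟨γ, hγ⟩ := hr
    obtain ⟨a, ha⟩ := hΦ γ
    exact ⟨a, ha.trans hγ⟩
  refine sup_le ?_ ?_
  · rw [← hRr, Subgroup.closure_le]
    rintro x ⟨j, rfl⟩
    exact Subgroup.mul_mem _ (Subgroup.mul_mem _ (Subgroup.pow_mem _ hg j) hrm)
      (Subgroup.inv_mem _ (Subgroup.pow_mem _ hg j))
  · rw [Subgroup.zpowers_le]
    exact hg

end

end Pool.Agent.MP_1c8e06_ag.AK
end

section

set_option autoImplicit false

open scoped Classical

namespace Pool.Agent.MP_1c8e06_ag.CYH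

noncomputable section

/-! ### The field `k((s ^ ℝ))` -/

/-- The field `k((s ^ ℝ))` of Hahn series with real exponents. -/
def OM (k : Type) [Field k] : Type := HahnSeries ℝ k

section
variable (k : Type) [Field k]

instance : Field (OM k) := inferInstanceAs (Field (HahnSeries ℝ k))

instance (R : Type) [CommRing R] [Algebra R k] : Algebra R (OM k) :=
  inferInstanceAs (Algebra R (HahnSeries ℝ k))

/-- The underlying Hahn series. -/
def toH : OM k ≃+* HahnSeries ℝ k := RingEquiv.refl _

/-- The absolute value `exp (- order)`. -/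
def vO : AbsoluteValue (OM k) ℝ where
  toFun a := if a = 0 then 0 else Real.exp (-(toH k a).order)
  map_mul' a b := by
    change (if a * b = 0 then 0 else Real.exp (-(toH k (a * b)).order)) = (if a = 0 then 0 else _) *
      (if b = 0 then 0 else _)
    by_cases ha : a = 0
    · simp [ha]
    by_cases hb : b = 0
    · simp [hb]
    rw [if_neg ha, if_neg hb, if_neg (mul_ne_zero ha hb), ← Real.exp_add, map_mul,
      HahnSeries.order_mul ((map_ne_zero_iff _ (toH k).injective).2 ha)
        ((map_ne_zero_iff _ (toH k).injective).2 hb)]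
    congr 1
    ring
  nonneg' a := by
    change 0 ≤ if a = 0 then 0 else _
    split_ifs
    · exact le_rfl
    · exact (Real.exp_pos _).le
  eq_zero' a := by
    change (if a = 0 then 0 else _) = 0 ↔ a = 0
    by_cases ha : a = 0
    · simp [ha]
    · rw [if_neg ha]
      exact ⟨fun h => absurd h (Real.exp_pos _).ne', fun h => absurd h ha⟩
  add_le' a b := by
    change (if a + b = 0 then 0 else Real.exp (-(toH k (a + b)).order)) ≤
      (if a = 0 then 0 else Real.exp (-(toH k a).order)) +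
      (if b = 0 then 0 else Real.exp (-(toH k b).order))
    by_cases ha : a = 0
    · simp [ha]
    by_cases hb : b = 0
    · simp [hb]
    by_cases hab : a + b = 0
    · rw [if_pos hab, if_neg ha, if_neg hb]
      exact add_nonneg (Real.exp_pos _).le (Real.exp_pos _).le
    rw [if_neg ha, if_neg hb, if_neg hab, map_add]
    have h := HahnSeries.min_order_le_order_add (x := toH k a) (y := toH k b)
      (by rw [← map_add]; exact (map_ne_zero_iff _ (toH k).injective).2 hab)
    rcases min_le_iff.1 h with h | h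
    · exact (Real.exp_le_exp.2 (neg_le_neg h)).trans (le_add_of_nonneg_right (Real.exp_pos _).le)
    · exact (Real.exp_le_exp.2 (neg_le_neg h)).trans (le_add_of_nonneg_left (Real.exp_pos _).le)

instance : NormedField (OM k) := (vO k).toNormedField

end

section
variable {k : Type} [Field k]

theorem OM.norm_def (a : OM k) : ‖a‖ = if a = 0 then 0 else Real.exp (-(toH k a).order) := rfl

theorem OM.norm_of_ne {a : OM k} (h : a ≠ 0) : ‖a‖ = Real.exp (-(toH k a).order) := by
  rw [OM.norm_def, if_neg h]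

/-- The norm is at most `exp (- g)` if and only if the coefficients below `g` vanish. -/
theorem OM.norm_le_iff (a : OM k) (g : ℝ) :
    ‖a‖ ≤ Real.exp (-g) ↔ ∀ h < g, (toH k a).coeff h = 0 := by
  by_cases ha : a = 0
  · subst ha
    rw [norm_zero]
    exact ⟨fun _ h _ => by rw [map_zero]; rfl, fun _ => (Real.exp_pos _).le⟩
  have h0 : toH k a ≠ 0 := (map_ne_zero_iff _ (toH k).injective).2 ha
  rw [OM.norm_of_ne ha, Real.exp_le_exp, neg_le_neg_iff]
  exact HahnSeries.le_order_iff_forall h0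

/-- Elements of norm less than `exp (- g)`. -/
theorem OM.norm_lt_iff (a : OM k) (g : ℝ) :
    ‖a‖ < Real.exp (-g) ↔ ∀ h ≤ g, (toH k a).coeff h = 0 := by
  by_cases ha : a = 0
  · subst ha
    rw [norm_zero]
    exact ⟨fun _ h _ => by rw [map_zero]; rfl, fun _ => Real.exp_pos _⟩
  have h0 : toH k a ≠ 0 := (map_ne_zero_iff _ (toH k).injective).2 ha
  rw [OM.norm_of_ne ha, Real.exp_lt_exp, neg_lt_neg_iff]
  constructor
  · intro h1 h h2
    exact HahnSeries.coeff_eq_zero_of_lt_order (lt_of_le_of_lt h2 h1)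
  · intro h1
    by_contra h2
    exact h0 (HahnSeries.coeff_order_eq_zero.1 (h1 _ (not_lt.1 h2)))

theorem OM.norm_add (a b : OM k) : ‖a + b‖ ≤ max ‖a‖ ‖b‖ := by
  by_cases ha : a = 0
  · simp [ha]
  by_cases hb : b = 0
  · simp [hb]
  by_cases hab : a + b = 0
  · rw [hab, norm_zero]
    exact le_max_of_le_left (norm_nonneg _)
  rw [OM.norm_of_ne ha, OM.norm_of_ne hb, OM.norm_of_ne hab, map_add]
  have h := HahnSeries.min_order_le_order_add (x := toH k a) (y := toH k b)
    (by rw [← map_add]; exact (map_ne_zero_iff _ (toH k).injective).2 hab)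
  rcases min_le_iff.1 h with h | h
  · exact le_max_of_le_left (Real.exp_le_exp.2 (neg_le_neg h))
  · exact le_max_of_le_right (Real.exp_le_exp.2 (neg_le_neg h))

instance : IsUltrametricDist (OM k) :=
  IsUltrametricDist.isUltrametricDist_of_forall_norm_add_le_max_norm OM.norm_add

/-- The monomial `s ^ g`. -/
def sm (k : Type) [Field k] (g : ℝ) : OM k := (toH k).symm (HahnSeries.single g 1)

theorem norm_sm (g : ℝ) : ‖sm k g‖ = Real.exp (-g) := by
  have h : sm k g ≠ 0 := by
    unfold sm
    rw [Ne, map_eq_zero_iff _ (toH k).symm.injective]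
    exact HahnSeries.single_ne_zero one_ne_zero
  rw [OM.norm_of_ne h]
  congr 2
  change (HahnSeries.single g (1 : k)).order = g
  exact HahnSeries.order_single one_ne_zero

/-- The constants. -/
def cO (k : Type) [Field k] : k →+* OM k :=
  ((toH k).symm : HahnSeries ℝ k →+* OM k).comp (HahnSeries.C : k →+* HahnSeries ℝ k)

theorem exists_norm_eq (r : ℝ) (hr : 0 < r) : ∃ a : OM k, ‖a‖ = r :=
  ⟨sm k (-Real.log r), by rw [norm_sm, neg_neg, Real.exp_log hr]⟩

instance (p : ℕ) [CharP k p] : CharP (OM k) p :=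
  charP_of_injective_ringHom (f := cO k) (cO k).injective p

instance : NontriviallyNormedField (OM k) where
  toNormedField := inferInstance
  non_trivial := by
    refine ⟨sm k (-1), ?_⟩
    rw [norm_sm, neg_neg]
    exact Real.one_lt_exp_iff.2 one_pos

end

end

end Pool.Agent.MP_1c8e06_ag.CYH
end

section

set_option autoImplicit false

open scoped Classical

namespace Pool.Agent.MP_1c8e06_ag.CYH

noncomputable section

/-!
# Task O1: the field `k((s ^ ℝ))` is spherically complete

`OM k`, `toH k : OM k ≃+* HahnSeries ℝ k`, `OM.norm_le_iff`, `OM.norm_lt_iff` in `CYH/ODefs.lean`.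
`sph`: put `γ n := - log (r n)` (so `r n = exp (- γ n)`, monotone in `n`).  By `OM.norm_le_iff`: for `n ≤ m` the coefficients of `a n` and `a m` at
`h < γ n` agree.  Define the coefficient function `c h := (a n).coeff h` for the least `n` with `h < γ n` (`Nat.find`), `0` if there is no such `n`;
then `c h = (a n).coeff h` for every `n` with `h < γ n`.  The support of `c` is partially well ordered: it is enough to show that it is
well founded (`Set.IsWF`, `Set.isWF_iff_isPWO`/`HahnSeries.mk` needs `IsPWO`; for linear orders `Set.IsWF.isPWO`): a strictly decreasing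
sequence `h 0 > h 1 > ...` in the support has all terms `≤ h 0 < γ n` for some `n` (as `c (h 0) ≠ 0`), so it is a sequence in the support of
`a n`, which is well founded (`Set.isWF_iff_no_descending_seq`).
Put `a := ` the Hahn series with these coefficients; `‖a - a n‖ ≤ exp (- γ n)` by `OM.norm_le_iff`.
`complete`: a Cauchy sequence in a metric space converges if a subsequence does; `Metric.complete_of_convergent_controlled_sequences`
with the bounds `B n = (1/2) ^ n`: the hypothesis `dist (u n) (u m) < B N` for `N ≤ n, m`, so `‖u n - u m‖ ≤ (1/2) ^ n` for `n ≤ m`; take `a` from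
`sph` with `r n = (1/2)^n`; `‖a - u n‖ ≤ (1/2)^n → 0`.
-/

theorem sph {k : Type} [Field k] (a : ℕ → OM k) (r : ℕ → ℝ) (hr : ∀ n, 0 < r n)
    (hd : Antitone r) (h : ∀ n m, n ≤ m → ‖a n - a m‖ ≤ r n) : ∃ b : OM k, ∀ n, ‖b - a n‖ ≤ r n := by
  obtain ⟨γ, hγ⟩ : ∃ γ : ℕ → ℝ, ∀ n, r n = Real.exp (-(γ n)) :=
    ⟨fun n => - Real.log (r n), fun n => by rw [neg_neg, Real.exp_log (hr n)]⟩
  have hco : ∀ n m, n ≤ m → ∀ x < γ n, (toH k (a n)).coeff x = (toH k (a m)).coeff x := by
    intro n m hnm x hx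
    have h1 := h n m hnm
    rw [hγ n, OM.norm_le_iff] at h1
    have h2 := h1 x hx
    rw [map_sub, HahnSeries.coeff_sub, sub_eq_zero] at h2
    exact h2
  obtain ⟨c, hcdef⟩ : ∃ c : ℝ → k, ∀ x, c x = if hx : ∃ n, x < γ n then (toH k (a (Nat.find hx))).coeff x else 0 :=
    ⟨_, fun x => rfl⟩
  have hc : ∀ n x, x < γ n → c x = (toH k (a n)).coeff x := by
    intro n x hx
    have hex : ∃ n, x < γ n := ⟨n, hx⟩
    rw [hcdef, dif_pos hex]
    exact hco _ _ (Nat.find_min' hex hx) x (Nat.find_spec hex)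
  have hwf : (Function.support c).IsWF := by
    rw [Set.isWF_iff_no_descending_seq]
    intro f hf hall
    have h0 := hall 0
    rw [Function.mem_support] at h0
    have hex : ∃ n, f 0 < γ n := by
      by_contra hcon
      exact h0 (by rw [hcdef, dif_neg hcon])
    obtain ⟨n, hn⟩ := hex
    have hlt : ∀ i, f i < γ n := fun i => lt_of_le_of_lt (hf.antitone (Nat.zero_le i)) hn
    have hsup : ∀ i, f i ∈ (toH k (a n)).support := by
      intro i
      rw [HahnSeries.mem_support, ← hc n (f i) (hlt i)]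
      exact hall i
    exact (Set.isWF_iff_no_descending_seq.1 (toH k (a n)).isWF_support) f hf hsup
  refine ⟨(toH k).symm ⟨c, hwf.isPWO⟩, fun n => ?_⟩
  rw [hγ n, OM.norm_le_iff]
  intro x hx
  rw [map_sub, HahnSeries.coeff_sub, RingEquiv.apply_symm_apply, sub_eq_zero]
  exact hc n x hx

/-- Spherical completeness implies completeness. -/
theorem complete_of_sph {K : Type} [NormedField K]
    (hs : ∀ (a : ℕ → K) (r : ℕ → ℝ), (∀ n, 0 < r n) → Antitone r →
      (∀ n m, n ≤ m → ‖a n - a m‖ ≤ r n) → ∃ b : K, ∀ n, ‖b - a n‖ ≤ r n) : CompleteSpace K := by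
  refine Metric.complete_of_convergent_controlled_sequences (fun n => (1 / 2 : ℝ) ^ n) (fun n => by positivity) ?_
  intro u hu
  obtain ⟨b, hb⟩ := hs u (fun n => (1 / 2 : ℝ) ^ n) (fun n => by positivity)
    (fun n m hnm => pow_le_pow_of_le_one (by norm_num) (by norm_num) hnm)
    (fun n m hnm => by
      have := hu n n m le_rfl hnm
      rw [dist_eq_norm] at this
      exact this.le)
  refine ⟨b, ?_⟩
  rw [tendsto_iff_norm_sub_tendsto_zero]
  refine squeeze_zero (fun n => norm_nonneg _) (fun n => ?_)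
    (tendsto_pow_atTop_nhds_zero_of_lt_one (r := (1 / 2 : ℝ)) (by norm_num) (by norm_num))
  rw [norm_sub_rev]
  exact hb n

instance {k : Type} [Field k] : CompleteSpace (OM k) := complete_of_sph sph

/-- The residue field. -/
theorem exists_res {k : Type} [Field k] (a : OM k) (ha : ‖a‖ ≤ 1) : ∃ c : k, ‖a - cO k c‖ < 1 := by
  have e : (1 : ℝ) = Real.exp (-0) := by simp
  rw [e, OM.norm_le_iff] at ha
  refine ⟨(toH k a).coeff 0, ?_⟩
  rw [e, OM.norm_lt_iff]
  intro x hx
  have hC : toH k (cO k ((toH k a).coeff 0)) = HahnSeries.single 0 ((toH k a).coeff 0) := rfl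
  rw [map_sub, HahnSeries.coeff_sub, hC]
  rcases lt_or_eq_of_le hx with h1 | h1
  · rw [ha x h1, HahnSeries.coeff_single_of_ne h1.ne, sub_zero]
  · rw [h1, HahnSeries.coeff_single_same, sub_self]

end

end Pool.Agent.MP_1c8e06_ag.CYH
end
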