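import Pool.Agent.Lib.MP_1c8e06_ag.AK.G0
import Pool.Agent.Lib.MP_1c8e06_ag.Mg.G058
import Pool.Agent.Lib.MP_1c8e06_ag.Mg.G059
import Pool.Agent.Lib.MP_1c8e06_ag.Mg.G034
import Pool.Agent.Lib.MP_1c8e06_ag.Mg.G036
import Pool.Agent.Lib.MP_1c8e06_ag.Mg.G032
import Pool.Agent.Lib.MP_1c8e06_ag.Mg.G035
import Pool.Agent.Lib.MP_1c8e06_ag.Mg.G019
import Pool.Agent.Lib.MP_1c8e06_ag.Mg.G033
import Pool.Agent.Lib.MP_1c8e06_ag.Mg.G030
import Pool.Agent.Lib.MP_1c8e06_ag.Mg.G028

section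

set_option autoImplicit false

open Polynomial
open scoped Classical

namespace Pool.Agent.MP_1c8e06_ag.AK

open Pool.Agent.MP_1c8e06_ag.AJ

noncomputable section

/-!
# Task AK G1: the class of `p`-solvable groups

* `psol_sub`: chain `(H i).subgroupOf L` (`= (H i).comap L.subtype`).  The relative index of
  `(H i).subgroupOf L` in `(H (i+1)).subgroupOf L` divides `(H i).relIndex (H (i+1))`: `(H (i+1) ⊓ L) ⧸ (H i ⊓ L)` embeds
  into `H (i+1) ⧸ H i` (`H i` is normal; `Subgroup.relIndex_dvd_of_le_left`-type lemmas, or the second isomorphism theorem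
  `relIndex` of `H i ⊓ L` in `H (i+1) ⊓ L` is the order of the image).  A divisor of `p ^ m` is a power of `p`, a divisor of a number
  prime to `p` is prime to `p`.  (`G` is finite.)
* `psol_quot`: chain `(H i).map (QuotientGroup.mk' N)`; the relative index divides `(H i).relIndex (H (i+1))` (surjection
  `H (i+1) ⧸ H i → ..`; `Subgroup.relIndex_map_map`-type lemmas).
* `psol_normal`: let `i` be the least index with `H (i+1) ≠ ⊥`; `H i = ⊥`, so `relIndex` is `Nat.card (H (i+1))`: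
  `H (i+1)` is a `p`-group (`IsPGroup.of_card`) or has order prime to `p`.
-/

/-- A divisor of an admissible factor is an admissible factor. -/
private lemma G1_dvd {p a b : ℕ} (hp : p.Prime) (hab : a ∣ b)
    (h : (∃ m : ℕ, b = p ^ m) ∨ ¬ p ∣ b) : (∃ m : ℕ, a = p ^ m) ∨ ¬ p ∣ a := by
  rcases h with ⟨m, hm⟩ | h
  · left
    obtain ⟨j, _, hj⟩ := (Nat.dvd_prime_pow hp).1 (hm ▸ hab)
    exact ⟨j, hj⟩
  · right
    exact fun hc => h (hc.trans hab)

theorem psol_sub {p : ℕ} [hp : Fact p.Prime] {G : Type} [Group G] [Finite G] (L : Subgroup G)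
    (h : PSolvable p G) : PSolvable p L := by
  obtain ⟨n, H, h0, hn, hN, hle, hf⟩ := h
  refine ⟨n, fun i => (H i).comap L.subtype, ?_, ?_, ?_, ?_, ?_⟩
  · show (H 0).comap L.subtype = ⊥
    rw [h0]
    exact (MonoidHom.ker_eq_bot_iff L.subtype).2 (Subgroup.subtype_injective L)
  · show (H n).comap L.subtype = ⊤
    rw [hn, Subgroup.comap_top]
  · intro i
    exact (hN i).comap L.subtype
  · intro i
    exact Subgroup.comap_mono (hle i)
  · intro i hi
    refine G1_dvd hp.out ?_ (hf i hi)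
    show ((H i).comap L.subtype).relIndex ((H (i + 1)).comap L.subtype) ∣ _
    rw [Subgroup.relIndex_comap]
    have := hN i
    rw [← Subgroup.relIndex_sup_right (H := Subgroup.map L.subtype (Subgroup.comap L.subtype (H (i + 1))))
      (K := H i)]
    rw [← Subgroup.relIndex_mul_relIndex (H i)
      (Subgroup.map L.subtype (Subgroup.comap L.subtype (H (i + 1))) ⊔ H i) (H (i + 1))
      le_sup_right (sup_le (Subgroup.map_comap_le _ _) (hle i))]
    exact Dvd.intro _ rfl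

theorem psol_quot {p : ℕ} [hp : Fact p.Prime] {G : Type} [Group G] [Finite G] (N : Subgroup G)
    [N.Normal] (h : PSolvable p G) : PSolvable p (G ⧸ N) := by
  obtain ⟨n, H, h0, hn, hN, hle, hf⟩ := h
  refine ⟨n, fun i => (H i).map (QuotientGroup.mk' N), ?_, ?_, ?_, ?_, ?_⟩
  · show (H 0).map (QuotientGroup.mk' N) = ⊥
    rw [h0, Subgroup.map_bot]
  · show (H n).map (QuotientGroup.mk' N) = ⊤
    rw [hn, Subgroup.map_top_of_surjective _ (QuotientGroup.mk'_surjective N)]
  · intro i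
    exact (hN i).map _ (QuotientGroup.mk'_surjective N)
  · intro i
    exact Subgroup.map_mono (hle i)
  · intro i hi
    refine G1_dvd hp.out ?_ (hf i hi)
    show ((H i).map (QuotientGroup.mk' N)).relIndex ((H (i + 1)).map (QuotientGroup.mk' N)) ∣ _
    rw [← Subgroup.relIndex_comap]
    exact Subgroup.relIndex_dvd_of_le_left _ (Subgroup.le_comap_map _ _)

theorem psol_normal {p : ℕ} [hp : Fact p.Prime] {G : Type} [Group G] [Finite G] [Nontrivial G]
    (h : PSolvable p G) :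
    ∃ N : Subgroup G, N.Normal ∧ N ≠ ⊥ ∧ (IsPGroup p N ∨ ¬ p ∣ Nat.card N) := by
  obtain ⟨n, H, h0, hn, hN, hle, hf⟩ := h
  have hex : ∃ j, H j ≠ ⊥ := ⟨n, by rw [hn]; exact top_ne_bot⟩
  have hj : H (Nat.find hex) ≠ ⊥ := Nat.find_spec hex
  have hmin : ∀ m, m < Nat.find hex → H m = ⊥ := fun m hm => not_not.1 (Nat.find_min hex hm)
  have hjn : Nat.find hex ≤ n := Nat.find_min' hex (by rw [hn]; exact top_ne_bot)
  rcases Nat.eq_zero_or_eq_succ_pred (Nat.find hex) with hz | hs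
  · rw [hz] at hj
    exact absurd h0 hj
  · set i := Nat.pred (Nat.find hex) with hi
    have hi0 : H i = ⊥ := hmin i (by omega)
    have hin : i < n := by omega
    rw [hs] at hj
    have hcard : (H i).relIndex (H (i + 1)) = Nat.card (H (i + 1)) := by
      rw [hi0, Subgroup.relIndex_bot_left]
    refine ⟨H (i + 1), hN (i + 1), hj, ?_⟩
    have := hf i hin
    rw [hcard] at this
    rcases this with ⟨m, hm⟩ | h
    · exact Or.inl (IsPGroup.of_card hm)
    · exact Or.inr h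

end

end Pool.Agent.MP_1c8e06_ag.AK
end

section

set_option autoImplicit false

open Polynomial
open scoped Classical

namespace Pool.Agent.MP_1c8e06_ag.AK

open Pool.Agent.MP_1c8e06_ag.AJ

noncomputable section

/-!
# Task AK G4: a proper supplement of `O_{p'}(G)`

Proof.  `R` is the largest normal subgroup of order prime to `p` (`hmax`), `G` has no nontrivial normal `p`-subgroup (`hOp`).
`G ⧸ R` is `p`-solvable (`psol_quot`) and nontrivial (`R ≠ ⊤`).  `psol_normal`: a nontrivial normal subgroup `N'` of `G ⧸ R`, a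
`p`-group or of order prime to `p`.  Let `Q := N'.comap (QuotientGroup.mk' R)`, normal in `G`, `R < Q`.  If `|N'|` is prime to `p` then
`|Q| = |R| |N'|` is prime to `p`, contradicting `hmax`.  So `N' = Q ⧸ R` is a `p`-group.  `exists_sylow` (`AJ/G1.lean`) for `Q` and the
`p`-group `I`: `T ≤ Q` a `p`-group, normalised by `I`, with the Frattini property, and (fifth property) if `T` is normal in `G` it
contains all elements of `p`-power order of `Q`.  `Y := BT.S3_nz T` (normaliser, `BT/S3.lean`).  `I ≤ Y`.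
`Y ≠ ⊤`: otherwise `T` is a normal `p`-subgroup, so `T = ⊥`, and `Q` has no nontrivial element of `p`-power order, so
`p ∤ |Q|` (Cauchy), so `Q ≤ R` by `hmax`, a contradiction.
`Y ⊔ R = ⊤`: `G = Q Y` (Frattini), and `Q = T R`: `T` is a Sylow `p`-subgroup of `Q` and `Q ⧸ R` is a `p`-group: for `x ∈ Q` let
`m` be the part of `orderOf x` prime to `p`... use: the image of `T` in `Q ⧸ R`: by the Frattini argument for the normal subgroup
`Q` of `Q`?  Simplest: `|T| = ` the `p`-part of `|Q|` would be needed; instead prove it by conjugation: every element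
`x ∈ Q` is `x = y z` with `y, z` powers of `x`, `y` of `p`-power order and `z` of order prime to `p`; `z ∈ R` (its image in the `p`-group
`Q ⧸ R` is trivial).  `y` lies in a conjugate of `T`: this follows from the Frattini property of `exists_sylow` only for conjugates
of `T`; use `exists_sylow'` below (Sylow's theorem inside `Q`): `n y n⁻¹ ∈ T` for some `n ∈ Q`.  So the image of `Q` is the union of
the conjugates of the image of `T` in the `p`-group `Q ⧸ R`; a proper subgroup `T̄` of a finite `p`-group is contained in a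
proper normal subgroup (`BT.SN`/normalizer condition), so its conjugates do not cover; hence `T R = Q`.
(Or use Mathlib's `Sylow` directly: choose the Sylow subgroup of `Q` via `Sylow.mapSurjective`: the image of a Sylow subgroup
of `Q` in the `p`-group `Q ⧸ R` is a Sylow subgroup, i.e. everything.  You may strengthen `exists_sylow` privately: copy its proof from
`AJ/G1.lean` and add the property `T ⊔ R = Q`.)
-/

private theorem G4_smul {p : ℕ} [_hp : Fact p.Prime] {G : Type} [Group G]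
    (N : Subgroup G) [N.Normal] (Q : Sylow p N) (g : G) :
    (((MulAut.conjNormal g : MulAut N) • Q : Sylow p N) : Subgroup N).map N.subtype =
      BT.cj g ((Q : Subgroup N).map N.subtype) := by
  ext x
  rw [BT.mem_cj, Subgroup.mem_map, Subgroup.mem_map]
  constructor
  · rintro ⟨y, hy, rfl⟩
    rw [Sylow.pointwise_smul_def, Subgroup.mem_pointwise_smul_iff_inv_smul_mem] at hy
    refine ⟨(MulAut.conjNormal g : MulAut N)⁻¹ • y, hy, ?_⟩
    have h1 : y = MulAut.conjNormal g ((MulAut.conjNormal g : MulAut N)⁻¹ • y) := by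
      change y = (MulAut.conjNormal g : MulAut N) • ((MulAut.conjNormal g : MulAut N)⁻¹ • y)
      rw [smul_inv_smul]
    have h2 : (y : G) = g * ((((MulAut.conjNormal g : MulAut N)⁻¹ • y : N)) : G) * g⁻¹ := by
      conv_lhs => rw [h1]
      rw [MulAut.conjNormal_apply]
    change (((MulAut.conjNormal g : MulAut N)⁻¹ • y : N) : G) = g⁻¹ * (y : G) * g
    rw [h2]
    group
  · rintro ⟨y, hy, h⟩
    refine ⟨(MulAut.conjNormal g : MulAut N) • y, ?_, ?_⟩
    · rw [Sylow.pointwise_smul_def]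
      exact Subgroup.smul_mem_pointwise_smul y _ _ hy
    · change ((MulAut.conjNormal g y : N) : G) = x
      rw [MulAut.conjNormal_apply]
      have h' : (y : G) = g⁻¹ * x * g := h
      rw [h']
      group

private theorem G4_sylow {p : ℕ} [hp : Fact p.Prime] {G : Type} [Group G] [Finite G]
    (N P : Subgroup G) (hN : N.Normal) (hP : IsPGroup p P) :
    ∃ T : Subgroup G, T ≤ N ∧ IsPGroup p T ∧ (∀ u ∈ P, BT.cj u T = T) ∧
      (∀ g : G, ∃ n ∈ N, BT.cj (n * g) T = T) ∧ ¬ p ∣ T.relIndex N := by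
  have := hN
  have hfS : Finite (Sylow p N) := inferInstance
  let act : MulAction P (Sylow p N) :=
    MulAction.compHom (Sylow p N) ((MulAut.conjNormal : G →* MulAut N).comp P.subtype)
  have hmod := hP.card_modEq_card_fixedPoints (Sylow p N)
  have hone := card_sylow_modEq_one p N
  have hne : Nat.card (MulAction.fixedPoints P (Sylow p N)) ≠ 0 := by
    intro h0
    rw [h0] at hmod
    have h1 : (1 : ℕ) ≡ 0 [MOD p] := hone.symm.trans hmod
    have h2 : p ∣ 1 := (Nat.modEq_zero_iff_dvd).1 h1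
    exact hp.out.one_lt.ne' (Nat.dvd_one.1 h2)
  obtain ⟨⟨Q, hQ⟩⟩ := (Nat.card_ne_zero.1 hne).1
  have hmap : ∀ R : Sylow p N, ∀ g : G, (((MulAut.conjNormal g : MulAut N) • R : Sylow p N) : Subgroup N).map
      N.subtype = BT.cj g ((R : Subgroup N).map N.subtype) := fun R g => G4_smul N R g
  refine ⟨(Q : Subgroup N).map N.subtype, ?_, ?_, ?_, ?_, ?_⟩
  · rintro _ ⟨y, _, rfl⟩
    exact y.2
  · exact Q.isPGroup'.map N.subtype
  · intro u hu
    rw [← hmap]
    have h1 : (⟨u, hu⟩ : P) • Q = Q := hQ ⟨u, hu⟩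
    have h2 : ((MulAut.conjNormal u : MulAut N) • Q : Sylow p N) = Q := h1
    rw [h2]
  · intro g
    obtain ⟨n, hn⟩ := MulAction.exists_smul_eq N ((MulAut.conjNormal g : MulAut N) • Q : Sylow p N) Q
    refine ⟨n, n.2, ?_⟩
    rw [BT.cj_mul, ← hmap, ← hmap]
    have h1 : ((MulAut.conjNormal (n : G) : MulAut N) • ((MulAut.conjNormal g : MulAut N) • Q) : Sylow p N) =
        n • ((MulAut.conjNormal g : MulAut N) • Q : Sylow p N) := by
      rw [Sylow.smul_def]
      congr 1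
      ext y
      rw [MulAut.conjNormal_apply]
      rfl
    rw [h1, hn]
  · have h1 : (((Q : Subgroup N).map N.subtype).subgroupOf N) = (Q : Subgroup N) :=
      Subgroup.comap_map_eq_self_of_injective N.subtype_injective _
    rw [Subgroup.relIndex, h1]
    exact Q.not_dvd_index

theorem exists_supplement {p : ℕ} [hp : Fact p.Prime] {G : Type} [Group G] [Finite G]
    (hG : PSolvable p G) (hOp : ∀ N : Subgroup G, N.Normal → IsPGroup p N → N = ⊥)
    (R : Subgroup G) (hRn : R.Normal) (hR : ¬ p ∣ Nat.card R)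
    (hmax : ∀ N : Subgroup G, N.Normal → ¬ p ∣ Nat.card N → N ≤ R) (hRt : R ≠ ⊤)
    (I : Subgroup G) (hI : IsPGroup p I) :
    ∃ Y : Subgroup G, I ≤ Y ∧ Y ≠ ⊤ ∧ Y ⊔ R = ⊤ := by
  have hnt : Nontrivial (G ⧸ R) := QuotientGroup.nontrivial_iff.2 hRt
  obtain ⟨N', hN'n, hN'b, hN'⟩ := psol_normal (psol_quot R hG)
  have hQn : (N'.comap (QuotientGroup.mk' R)).Normal := hN'n.comap _
  set Q : Subgroup G := N'.comap (QuotientGroup.mk' R) with hQdef
  have hRQ : R ≤ Q := by
    intro x hx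
    rw [hQdef, Subgroup.mem_comap, QuotientGroup.mk'_apply, (QuotientGroup.eq_one_iff x).2 hx]
    exact N'.one_mem
  have hQmap : Q.map (QuotientGroup.mk' R) = N' :=
    Subgroup.map_comap_eq_self_of_surjective (QuotientGroup.mk'_surjective R) N'
  have hQR : ¬ Q ≤ R := by
    intro h
    apply hN'b
    rw [← hQmap, eq_bot_iff]
    rintro _ ⟨x, hx, rfl⟩
    rw [Subgroup.mem_bot, QuotientGroup.mk'_apply]
    exact (QuotientGroup.eq_one_iff x).2 (h hx)
  have hrel : R.relIndex Q = Nat.card N' := by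
    have h1 := Subgroup.relIndex_ker (K := Q) (QuotientGroup.mk' R)
    rwa [QuotientGroup.ker_mk', hQmap] at h1
  have hcard : Nat.card Q = Nat.card R * Nat.card N' := by
    rw [← hrel]
    have h1 := Subgroup.relIndex_mul_relIndex ⊥ R Q bot_le hRQ
    rw [Subgroup.relIndex_bot_left, Subgroup.relIndex_bot_left] at h1
    exact h1.symm
  have hpN : IsPGroup p N' := by
    rcases hN' with h | h
    · exact h
    · exfalso
      apply hQR
      apply hmax Q hQn
      rw [hcard]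
      intro hd
      rcases hp.out.dvd_mul.1 hd with h3 | h3
      · exact hR h3
      · exact h h3
  obtain ⟨m, hm⟩ := IsPGroup.iff_card.1 hpN
  obtain ⟨T, hTQ, hTp, hTI, hTF, hTi⟩ := G4_sylow Q I hQn hI
  have hQT : Q ≤ T ⊔ R := by
    rw [← Subgroup.relIndex_eq_one]
    have h1 : (T ⊔ R).relIndex Q ∣ T.relIndex Q := Subgroup.relIndex_dvd_of_le_left Q le_sup_left
    have h2 : (T ⊔ R).relIndex Q ∣ R.relIndex Q := Subgroup.relIndex_dvd_of_le_left Q le_sup_right
    rw [hrel, hm] at h2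
    obtain ⟨k, -, hk⟩ := (Nat.dvd_prime_pow hp.out).1 h2
    rcases Nat.eq_zero_or_pos k with h0 | h0
    · rw [hk, h0, pow_zero]
    · exfalso
      apply hTi
      refine Dvd.dvd.trans ?_ h1
      rw [hk]
      exact dvd_pow_self p h0.ne'
  refine ⟨BT.S3_nz T, fun u hu => hTI u hu, ?_, ?_⟩
  · intro htop
    have hc : ∀ g : G, BT.cj g T = T := by
      intro g
      have h1 : g ∈ BT.S3_nz T := by
        rw [htop]
        exact Subgroup.mem_top g
      exact h1
    have hTn : T.Normal := by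
      refine ⟨fun x hx g => ?_⟩
      have h2 : g * x * g⁻¹ ∈ BT.cj g T := BT.conj_mem_cj.2 hx
      rwa [hc g] at h2
    have hTb : T = ⊥ := hOp T hTn hTp
    rw [hTb, bot_sup_eq] at hQT
    exact hQR hQT
  · rw [eq_top_iff]
    intro g _
    obtain ⟨n, hn, hng⟩ := hTF g
    have hTY : T ≤ BT.S3_nz T := by
      intro t ht
      rw [BT.S3_mem_nz]
      exact BT.cj_eq_self ht
    have h1 : n ∈ BT.S3_nz T ⊔ R := (hQT.trans (sup_le_sup_right hTY R)) hn
    have h2 : n * g ∈ BT.S3_nz T ⊔ R := (le_sup_left : BT.S3_nz T ≤ BT.S3_nz T ⊔ R) hng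
    have h3 : g = n⁻¹ * (n * g) := by group
    rw [h3]
    exact Subgroup.mul_mem _ (Subgroup.inv_mem _ h1) h2

end

end Pool.Agent.MP_1c8e06_ag.AK
end

section

set_option autoImplicit false

open Polynomial

namespace Pool.Agent.MP_1c8e06_ag.AK

noncomputable section

/-!
# Task V9: the covers for groups `R ⋊ ⟨g⟩`, `R` an `ℓ`-group generated by the conjugates of one element (assembly)
-/

theorem base_wd {p : ℕ} [hp : Fact p.Prime] (k : Type) [Field k] [IsAlgClosed k] [CharP k p]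
    {ℓ : ℕ} [hℓ : Fact ℓ.Prime] (hℓp : ℓ ≠ p) {G : Type} [Group G] [Fintype G] (g : G)
    (hg : orderOf g = p) (R : Subgroup G) (hR : IsPGroup ℓ R) (hgR : ∀ x ∈ R, g * x * g⁻¹ ∈ R)
    (r : G) (hr : r ∈ R)
    (hRr : Subgroup.closure {x | ∃ j : ℕ, x = g ^ j * r * (g ^ j)⁻¹} = R)
    (hG : R ⊔ Subgroup.zpowers g = ⊤) (hgen : Subgroup.normalClosure ({g} : Set G) = ⊤) :
    ∃ e : ℕ, ¬ p ∣ e ∧ ∃ D : AI.WD p k G g (X ^ e : k[X]), D.Conn' ⊤ := by
  have hℓk : (ℓ : k) ≠ 0 := by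
    intro h0
    have h1 : p ∣ ℓ := (CharP.cast_eq_zero_iff k p ℓ).1 h0
    rcases (Nat.dvd_prime hℓ.out).1 h1 with h2 | h2
    · exact hp.out.one_lt.ne' h2
    · exact hℓp h2.symm
  have hgp : g ^ p = 1 := by rw [← hg]; exact pow_orderOf_eq_one g
  have hfin : Finite (RF R p) := RF.finite R p
  have hRF : IsPGroup ℓ (RF R p) := RF.isPGroup hR p
  -- the Galois extension of `k(y)`
  obtain ⟨L, iL, aL, ψ, hL, hgood⟩ := real_ell (p := p) (k := k) hℓk hRF (RF.gen R p)
    (RF.closure_gen R p)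
  obtain ⟨T, hT⟩ := exists_semilinear hℓk hR hL hgood
  obtain ⟨e, he⟩ : ∃ e : ℕ, Nat.card (RF R p) = e := ⟨_, rfl⟩
  obtain ⟨hpe, j₁, hj₁C, hj₁X⟩ := exists_embed (p := p) hL hℓk hRF e he
  have he0 : 0 < e := by rw [← he]; exact Nat.card_pos
  have hek : (e : k) ≠ 0 := fun h0 => hpe ((CharP.cast_eq_zero_iff k p e).1 h0)
  have hF : ¬ p ∣ (X ^ e : k[X]).natDegree := by rwa [natDegree_X_pow]
  have hirr : Fact (Irreducible (AI.asPoly p (X ^ e : k[X]))) := ⟨AI.irreducible_asPoly hF⟩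
  obtain ⟨T', hT', hjT', hTp⟩ := exists_T' hL hF j₁ hj₁C hj₁X T hT
  obtain ⟨c, hc, hcp⟩ := exists_conj hL T' hT' hTp
  obtain ⟨π, hπ, γr, hγr⟩ := exists_pi R hℓk hR hL hgood T' hT' c hc hcp g hgp hgR ⟨r, hr⟩
  obtain ⟨A, iA, fA, aA, Φ, t, hA, ht, hΦt, hcA, hΦ⟩ := exists_A hL T' hT' hTp c hc
    (R.subtype.comp π) g hgp hπ
  rw [he] at hcA
  have hΦs : Function.Surjective Φ := Phi_surj R g r hRr hG π ⟨γr, by rw [hγr]⟩ Φ t hΦt hΦ
  -- the line
  obtain ⟨μ, iμ, fμ, aμ, hμ, hcμ, hμζ⟩ := isG_pw (k := k) e he0 hek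
  obtain ⟨j₂, hj₂, hj₂t⟩ := exists_jx (p := p) (k := k) (F := X ^ e)
  have hj : j₁.comp (ψ.comp (qh p k)) = j₂.comp (pw k e he0) := by
    refine ratHom_ext (fun c => ?_) ?_
    · simp only [RingHom.comp_apply, qh, compR_C, pw_C, hj₁C]
      rw [← RatFunc.algebraMap_C, hj₂]
    · simp only [RingHom.comp_apply, qh, compR_X, pw_X, map_sub, map_pow, RatFunc.algebraMap_X,
        hj₁X]
      rw [AI.yy_pow_eq]
      have h1 : j₂ RatFunc.X = AI.ze p (X ^ e) X := by
        rw [← RatFunc.algebraMap_X, hj₂]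
      rw [h1, map_pow]
      ring
  obtain ⟨N, Γ, iΓ, fΓ, aΓ, ψN, i₁, i₂, ρ₁, ρ₂, hN, hNG, h₁, h₂, hi₁, hi₂, hρ₁, hρ₂, hinj, hs₁, hs₂,
    hfix⟩ := compositum hA hμ j₁ j₂ hj
  have htj : ∀ a, AI.tau p (X ^ e : k[X]) (j₁ a) = j₁ (t • a) := by
    intro a
    rw [ht, hjT']
  obtain ⟨γ₀, hγ₀, hγ₀2, hγ₀1⟩ := exists_gam hA hμ j₁ j₂ hj₂t t htj N hN hNG i₁ i₂ h₂ hi₁ hi₂
    ρ₁ ρ₂ hρ₁ hρ₂
  have hpG : p ∣ Nat.card G := by
    rw [← hg]
    exact orderOf_dvd_natCard g
  obtain ⟨hφs, hφk⟩ := phi_surj ρ₁ ρ₂ hs₁ hinj Φ hΦs hcA hcμ hpe g hgen hpG γ₀ hγ₀2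
    (by rw [hγ₀1, hΦt])
  -- unramified
  have hgenN : ∀ F : Subfield N, (∀ m, i₁ m ∈ F) → (∀ m, i₂ m ∈ F) → F = ⊤ := by
    intro F hF1 hF2
    rw [eq_top_iff]
    rintro ⟨x, hx⟩ -
    have h1 : Subfield.closure (Set.range j₁ ∪ Set.range j₂) ≤ F.map N.subtype := by
      rw [Subfield.closure_le]
      rintro _ (⟨m, rfl⟩ | ⟨m, rfl⟩)
      · exact ⟨i₁ m, hF1 m, hi₁ m⟩
      · exact ⟨i₂ m, hF2 m, hi₂ m⟩
    have h2 : x ∈ Subfield.closure (Set.range j₁ ∪ Set.range j₂) := by rw [← hN]; exact hx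
    obtain ⟨y, hy, hyx⟩ := h1 h2
    have h3 : y = ⟨x, hx⟩ := Subtype.ext hyx
    rw [← h3]
    exact hy
  have hCN : ∀ c : k, i₁ (ψ (RatFunc.C c)) = i₂ (RatFunc.C c) := by
    intro c
    apply Subtype.ext
    rw [hi₁, hi₂, hj₁C, ← RatFunc.algebraMap_C, hj₂]
  have hunr : Unr i₂ := unr_N he0 hek hNG i₁ i₂ h₁ h₂ ρ₁ ρ₂ hρ₁ hρ₂ hs₂ hμζ hgenN hCN
    (fun a => by
      have h3 := exists_epsL hL hℓk hRF hgood a
      rwa [he] at h3)
  -- the group
  have hK : IsG i₂ ρ₂.ker (⊥ : Subgroup ρ₂.ker) := by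
    refine ⟨fun γ => ?_, fun a => ?_⟩
    · rw [Subgroup.mem_bot]
      constructor
      · intro hγ
        have h3 : (γ : Γ) ∈ (⊥ : Subgroup Γ) := (hNG.ker _).1 hγ
        exact Subtype.ext (Subgroup.mem_bot.1 h3)
      · rintro rfl a
        exact one_smul _ a
    · constructor
      · intro ha
        exact hfix a fun γ hγ => ha ⟨γ, hγ⟩
      · rintro ⟨m, rfl⟩ γ
        change (γ : Γ) • i₂ m = i₂ m
        rw [hρ₂, γ.2, one_smul]
  obtain ⟨D, hD⟩ := wd_of_cover hF hK hunr N.subtype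
    (fun f => by
      change ((i₂ (algebraMap k[X] (RatFunc k) f) : N) : AI.EE p (X ^ e : k[X])) = _
      rw [hi₂, hj₂]) ⟨γ₀, hγ₀2⟩ (fun a => hγ₀ a) g
    ((Φ.comp ρ₁).comp ρ₂.ker.subtype) (by
      change Φ (ρ₁ γ₀) = g
      rw [hγ₀1, hΦt]) hφs hφk
  exact ⟨e, hpe, D, hD⟩

end

end Pool.Agent.MP_1c8e06_ag.AK
end
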