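import Pool.Agent.Lib.MP_1c8e06_ag.Mg.G057
import Pool.Agent.Lib.MP_1c8e06_ag.Mg.G049
import Pool.Agent.Lib.MP_1c8e06_ag.AJ.Defs5
import Pool.Agent.Lib.MP_1c8e06_ag.Mg.G090
import Pool.Agent.Lib.MP_1c8e06_ag.AJ.Defs7
import Pool.Agent.Lib.MP_1c8e06_ag.AJ.Defs6

section

set_option autoImplicit false

open Polynomial
open scoped Classical

namespace Pool.Agent.MP_1c8e06_ag.AJ

noncomputable section

/-!
# Task R0: `El S` is a field

Notation: `E = El S`, `F = κ((s))`, `act = actE S`, invariants of `P` in `E` are `oE F` (`fixedE`).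
* `interp`: let `y : E` with `act u y = y + zc (χ u)` and `f : E` fixed by all `u` with `χ u = 0`.  For `r : ZMod p` choose
  `u_r` with `χ u_r = r` (`χ` is onto as it is additive and nonzero) and put `f_r := act u_r f` (independent of the
  choice), `y_r := y + zc r`.  The polynomial `L(Z) := ∑_r f_r * (-1) * ∏_{r' ≠ r} (Z - y_{r'}) ∈ E[Z]` (the factor is
  `∏_{r' ≠ r} (r - r')⁻¹ = -1`, Wilson) has degree `< p`, `L(y_r) = f_r`, and is fixed by the coefficientwise action of
  `P` (it permutes the pairs `(y_r, f_r)`), so its coefficients are in `oE F`: `f = f_0 = L(y) = ∑_{j<p} oE (c j) y^j`.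
* `isField_El`.  `E` is nontrivial and finite over `F` through `oE`.
  (1) `E` is reduced: if `a` is nilpotent then for all `b` the trace `∑_x act x (a b) = oE c` is nilpotent, so `0`;
  `a = ∑_{l,m} cst T' l m * e l * ∑_x act x (e m a)` (`dual_e`) `= 0`.
  (2) `E` is artinian (finite dimensional over `F`), so every prime is maximal, and there are finitely many.
  (3) Let `𝔪` be a maximal ideal, `D := {u | act u 𝔪 = 𝔪}` (a subgroup; images under the automorphisms `act u`).
  Claim: if `N ≤ P` is a subgroup and `𝔪, 𝔪'` are maximal ideals such that every `a ∈ 𝔪'` fixed by `N` lies in `𝔪`,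
  then `𝔪' = act n 𝔪` for some `n ∈ N`.  (Otherwise there is `a ∈ 𝔪'` which is in none of the `act n 𝔪`
  (Chinese remainder theorem, distinct maximal ideals); `∏_{n∈N} act n a ∈ 𝔪'` is fixed by `N`, so in `𝔪`,
  so some `act n a ∈ 𝔪`, contradiction.)
  (4) If `D = ⊤`: claim (3) for `N = ⊤` (fixed elements are `oE c`, in `𝔪'` only if `c = 0`) shows that `𝔪` is the only
  maximal ideal, and `E` is reduced artinian, so `𝔪 = 0` (the intersection of all primes is `0`): `E` is a field.
  (5) If `D ≠ ⊤`: `χ` from `exists_char`, `y₀, F₀` from `hT`; `y := Al.mapA S zinv y₀`: `act u y = y + zc (χ u)`,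
  `y^p - y = oE (zinv F₀)`.  Let `N := {u | χ u = 0} ⊇ D`, `u₀ ∉ N`.  Every `a ∈ act u₀ 𝔪` fixed by `N` is `0`: by `interp`
  `a = ∑_{j<p} oE (c j) y^j` is in the image of the ring homomorphism `AI.EE p F₀ → E`, `yy ↦ y` (`AdjoinRoot.lift`);
  `AI.EE p F₀` is a field (`AI.irreducible_asPoly`, `p ∤ deg F₀`), so the preimage of the proper ideal is `0`.  So
  (3) gives `act u₀ 𝔪 = act n 𝔪`, `n⁻¹ u₀ ∈ D ≤ N`, `u₀ ∈ N`: contradiction.
-/

/-- A nonzero additive character with values in `ZMod p` is onto. -/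
private theorem R0_onto {p : ℕ} [hp : Fact p.Prime] {P : Type} [Group P] (χ : P → ZMod p)
    (hχ : ∀ u v, χ (u * v) = χ u + χ v) (hχ0 : ∃ u, χ u ≠ 0) (r : ZMod p) : ∃ u, χ u = r := by
  obtain ⟨u, hu⟩ := hχ0
  have h1 : χ 1 = 0 := by
    have h := hχ 1 1
    rw [mul_one] at h
    exact (left_eq_add.1 h)
  have h2 : ∀ n : ℕ, χ (u ^ n) = n * χ u := by
    intro n
    induction n with
    | zero => rw [pow_zero, h1, Nat.cast_zero, zero_mul]
    | succ n ih => rw [pow_succ, hχ, ih, Nat.cast_succ]; ring
  refine ⟨u ^ (r * (χ u)⁻¹).val, ?_⟩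
  rw [h2, ZMod.natCast_zmod_val, inv_mul_cancel_right₀ hu]

private theorem R0_prod {p : ℕ} [hp : Fact p.Prime] :
    ∏ r ∈ (Finset.univ : Finset (ZMod p)).erase 0, (-r) = -1 := by
  have h1 : ∏ r ∈ (Finset.univ : Finset (ZMod p)).erase 0, (-r) =
      ∏ r ∈ (Finset.univ : Finset (ZMod p)).erase 0, r := by
    refine Finset.prod_nbij' (fun r => -r) (fun r => -r) ?_ ?_ ?_ ?_ ?_
    · intro r hr
      simpa using hr
    · intro r hr
      simpa using hr
    · intro r _
      exact neg_neg r
    · intro r _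
      exact neg_neg r
    · intro r _
      rfl
  rw [h1]
  rw [← ZMod.prod_Ico_one_prime p]
  symm
  refine Finset.prod_nbij' (fun n => (n : ZMod p)) (fun r => r.val) ?_ ?_ ?_ ?_ ?_
  · intro n hn
    rw [Finset.mem_Ico] at hn
    rw [Finset.mem_erase]
    refine ⟨fun h => ?_, Finset.mem_univ _⟩
    rw [ZMod.natCast_eq_zero_iff] at h
    exact absurd (Nat.le_of_dvd (by omega) h) (by omega)
  · intro r hr
    rw [Finset.mem_erase] at hr
    rw [Finset.mem_Ico]
    refine ⟨?_, ZMod.val_lt r⟩
    have h3 : r.val ≠ 0 := fun h => hr.1 ((ZMod.val_eq_zero r).1 h)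
    omega
  · intro n hn
    rw [Finset.mem_Ico] at hn
    exact ZMod.val_natCast_of_lt hn.2
  · intro r _
    exact ZMod.natCast_zmod_val r
  · intro n _
    rfl

private theorem R0_interp {p : ℕ} [hp : Fact p.Prime] {E : Type} [CommRing E] (h0 : (p : E) = 0)
    {P : Type} [Group P] (act : P →* (E →+* E)) (χ : P → ZMod p)
    (hχ : ∀ u v, χ (u * v) = χ u + χ v)
    (hχ0 : ∃ u, χ u ≠ 0) (y : E) (hy : ∀ u, act u y = y + zc E (χ u)) (f : E)
    (hf : ∀ u, χ u = 0 → act u f = f) :
    ∃ c : ℕ → E, (∀ j u, act u (c j) = c j) ∧ f = ∑ j ∈ Finset.range p, c j * y ^ j := by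
  choose u hu using R0_onto χ hχ hχ0
  have hmul : ∀ (g h : P) (a : E), act (g * h) a = act g (act h a) := by
    intro g h a
    rw [map_mul]
    rfl
  have h1 : χ 1 = 0 := by
    have h := hχ 1 1
    rw [mul_one] at h
    exact (left_eq_add.1 h)
  have hinv : ∀ v, χ v⁻¹ = - χ v := by
    intro v
    have h := hχ v v⁻¹
    rw [mul_inv_cancel, h1] at h
    exact (neg_eq_of_add_eq_zero_right h.symm).symm
  have key : ∀ v, act v f = act (u (χ v)) f := by
    intro v
    have h2 : χ ((u (χ v))⁻¹ * v) = 0 := by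
      rw [hχ, hinv, hu]
      ring
    have h3 := hf _ h2
    have h4 : act (u (χ v)) (act ((u (χ v))⁻¹ * v) f) = act (u (χ v)) f := by rw [h3]
    rw [← hmul, mul_inv_cancel_left] at h4
    exact h4
  have key2 : ∀ v r, act v (act (u r) f) = act (u (r + χ v)) f := by
    intro v r
    rw [← hmul, key, hχ, hu, add_comm]
  let L : E[X] := ∑ r : ZMod p, C (act (u r) f) * (-1) *
    ∏ r' ∈ (Finset.univ : Finset (ZMod p)).erase r, (X - C (y + zc E r'))
  have hL : ∀ v, L.map (act v) = L := by
    intro v
    change (∑ r : ZMod p, C (act (u r) f) * (-1) *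
      ∏ r' ∈ (Finset.univ : Finset (ZMod p)).erase r, (X - C (y + zc E r'))).map (act v) = _
    rw [Polynomial.map_sum]
    refine Fintype.sum_equiv (Equiv.addRight (χ v)) _ _ ?_
    intro r
    rw [Polynomial.map_mul, Polynomial.map_mul, Polynomial.map_C, key2, Polynomial.map_neg,
      Polynomial.map_one, Polynomial.map_prod]
    congr 1
    refine Finset.prod_nbij' (fun r' => r' + χ v) (fun r' => r' - χ v) ?_ ?_ ?_ ?_ ?_
    · intro r' hr'
      simpa using hr'
    · intro r' hr'
      rw [Finset.mem_erase] at hr' ⊢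
      refine ⟨fun h => hr'.1 ?_, Finset.mem_univ _⟩
      rw [Equiv.coe_addRight, ← h]
      exact (sub_add_cancel _ _).symm
    · intro r' _
      exact add_sub_cancel_right _ _
    · intro r' _
      exact sub_add_cancel _ _
    · intro r' _
      rw [Polynomial.map_sub, Polynomial.map_X, Polynomial.map_C, map_add, hy, map_zc, zc_add h0]
      ring_nf
  have hdeg : L.natDegree < p := by
    have h2 : L.natDegree ≤ p - 1 := by
      refine Polynomial.natDegree_sum_le_of_forall_le _ _ ?_
      intro r _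
      refine (Polynomial.natDegree_mul_le).trans ?_
      have h3 : (C (act (u r) f) * (-1 : E[X])).natDegree = 0 := by
        rw [mul_neg, mul_one, Polynomial.natDegree_neg, Polynomial.natDegree_C]
      rw [h3, zero_add]
      refine (Polynomial.natDegree_prod_le _ _).trans ?_
      refine (Finset.sum_le_card_nsmul _ _ 1 ?_).trans ?_
      · intro r' _
        exact Polynomial.natDegree_X_sub_C_le _
      · rw [Finset.card_erase_of_mem (Finset.mem_univ _), Finset.card_univ, ZMod.card]
        simp
    have := hp.out.pos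
    omega
  have heval : L.eval y = f := by
    change (∑ r : ZMod p, C (act (u r) f) * (-1) *
      ∏ r' ∈ (Finset.univ : Finset (ZMod p)).erase r, (X - C (y + zc E r'))).eval y = f
    rw [Polynomial.eval_finsetSum, Finset.sum_eq_single 0]
    · rw [Polynomial.eval_mul, Polynomial.eval_mul, Polynomial.eval_C, Polynomial.eval_neg,
        Polynomial.eval_one, Polynomial.eval_prod]
      have h2 : ∏ r' ∈ (Finset.univ : Finset (ZMod p)).erase 0,
          (X - C (y + zc E r') : E[X]).eval y = -1 := by
        have h3 : ∀ s : Finset (ZMod p), ∏ r' ∈ s, (X - C (y + zc E r') : E[X]).eval y =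
            zc E (∏ r' ∈ s, (-r')) := by
          intro s
          induction s using Finset.induction_on with
          | empty => rw [Finset.prod_empty, Finset.prod_empty, zc_one]
          | insert a s ha ih =>
            rw [Finset.prod_insert ha, Finset.prod_insert ha, zc_mul h0, ih]
            congr 1
            rw [Polynomial.eval_sub, Polynomial.eval_X, Polynomial.eval_C]
            have h4 : zc E (-a) + zc E a = 0 := by
              rw [← zc_add h0, neg_add_cancel, zc_zero]
            rw [eq_neg_of_add_eq_zero_left h4]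
            ring
        rw [h3, R0_prod]
        have h4 : zc E (-1 : ZMod p) + zc E (1 : ZMod p) = 0 := by
          rw [← zc_add h0, neg_add_cancel, zc_zero]
        rw [eq_neg_of_add_eq_zero_left h4, zc_one]
      rw [h2]
      have h5 : act (u 0) f = f := hf _ (hu 0)
      rw [h5]
      ring
    · intro r _ hr
      rw [Polynomial.eval_mul, Polynomial.eval_prod]
      refine mul_eq_zero_of_right _ (Finset.prod_eq_zero (i := 0) ?_ ?_)
      · rw [Finset.mem_erase]
        exact ⟨hr.symm, Finset.mem_univ _⟩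
      · rw [zc_zero, add_zero, Polynomial.eval_sub, Polynomial.eval_X, Polynomial.eval_C, sub_self]
    · intro h
      exact absurd (Finset.mem_univ _) h
  refine ⟨fun j => L.coeff j, fun j v => ?_, ?_⟩
  · have h2 := congrArg (fun q : E[X] => q.coeff j) (hL v)
    simp only [Polynomial.coeff_map] at h2
    exact h2
  · rw [← Polynomial.eval_eq_sum_range' hdeg, heval]

theorem interp {p : ℕ} [hp : Fact p.Prime] {κ : Type} [Field κ] [CharP κ p] {P : Type} [Group P]
    [Fintype P] (S : SC κ[X] P) (χ : P → ZMod p) (hχ : ∀ u v, χ (u * v) = χ u + χ v)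
    (hχ0 : ∃ u, χ u ≠ 0) (y : El S) (hy : ∀ u, actE S u y = y + zc (El S) (χ u)) (f : El S)
    (hf : ∀ u, χ u = 0 → actE S u f = f) :
    ∃ c : Fin p → LaurentSeries κ, f = ∑ j, oE S (c j) * y ^ (j : ℕ) := by
  have h0 : ((p : ℕ) : El S) = 0 := by
    have h1 : ((p : ℕ) : LaurentSeries κ) = 0 := CharP.cast_eq_zero _ p
    rw [← map_natCast (oE S), h1, map_zero]
  obtain ⟨c, hc, hfc⟩ := R0_interp h0 (actE S) χ hχ hχ0 y hy f hf
  choose d hd using fun j => fixedE S (c j) (hc j)
  refine ⟨fun j => d j, ?_⟩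
  rw [hfc, Finset.sum_range]
  refine Finset.sum_congr rfl fun j _ => ?_
  rw [← hd]

open scoped Pointwise in
private theorem R0_core {F E P : Type} [Field F] [CommRing E] [Algebra F E] [Group P] [Finite P]
    [MulSemiringAction P E] [SMulCommClass P F E] [Algebra.IsInvariant F E P] [Nontrivial E]
    [IsReduced E]
    (h : ∀ D : Subgroup P, D ≠ ⊤ → ∃ N : Subgroup P, D ≤ N ∧ N ≠ ⊤ ∧
      ∀ a : E, (∀ u ∈ N, u • a = a) → a ≠ 0 → IsUnit a) : IsField E := by
  obtain ⟨m, hm⟩ := Ideal.exists_maximal E
  have hmp := hm.isPrime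
  by_cases hD : MulAction.stabilizer P m = ⊤
  · have huniq : ∀ q : Ideal E, q.IsPrime → q = m := by
      intro q hq
      have hb : ∀ I : Ideal E, I.IsPrime → I.under F = ⊥ := by
        intro I hI
        have : (I.under F).IsPrime := inferInstance
        exact (eq_bot_or_eq_top (I.under F)).resolve_right this.ne_top
      obtain ⟨g, hg⟩ := Algebra.IsInvariant.exists_smul_of_under_eq F E P m q
        ((hb m hmp).trans (hb q hq).symm)
      rw [hg]
      have h1 : g ∈ MulAction.stabilizer P m := by rw [hD]; exact Subgroup.mem_top g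
      exact h1
    have hbot : m = ⊥ := by
      rw [eq_bot_iff]
      intro a ha
      have h1 : IsNilpotent a := by
        rw [nilpotent_iff_mem_prime]
        intro J hJ
        rw [huniq J hJ]
        exact ha
      exact h1.eq_zero
    rw [Ring.isField_iff_maximal_bot, ← hbot]
    exact hm
  · exfalso
    obtain ⟨N, hDN, hN, hu⟩ := h _ hD
    obtain ⟨u₀, hu₀⟩ : ∃ u₀ : P, u₀ ∉ N := by
      by_contra hc
      push Not at hc
      exact hN ((Subgroup.eq_top_iff' N).2 hc)
    let A : Subring E := FixedPoints.subring E N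
    have hinv : Algebra.IsInvariant A E N := by
      refine ⟨fun b hb => ⟨⟨b, hb⟩, rfl⟩⟩
    have hcomm : SMulCommClass N A E := by
      infer_instance
    have hb : ∀ I : Ideal E, I.IsPrime → I.under A = ⊥ := by
      intro I hI
      rw [eq_bot_iff]
      intro a ha
      rw [Ideal.mem_bot]
      by_contra hne
      have h1 : IsUnit (a : E) := by
        refine hu a.1 (fun u hu => ?_) (fun h0 => hne (Subtype.ext h0))
        exact a.2 ⟨u, hu⟩
      exact hI.ne_top (Ideal.eq_top_of_isUnit_mem I ha h1)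
    have hq : (u₀ • m).IsPrime := hmp.smul u₀
    obtain ⟨n, hn⟩ := Algebra.IsInvariant.exists_smul_of_under_eq A E N m (u₀ • m)
      ((hb m hmp).trans (hb _ hq).symm)
    have h1 : (n : P) • m = u₀ • m := hn.symm
    have h2 : (n : P)⁻¹ * u₀ ∈ MulAction.stabilizer P m := by
      rw [MulAction.mem_stabilizer_iff, mul_smul, ← h1, inv_smul_smul]
    have h3 := N.mul_mem n.2 (hDN h2)
    rw [mul_inv_cancel_left] at h3
    exact hu₀ h3


/-- The action of `P` on `El S` as a Mathlib action. -/
@[reducible] private def R0_action {κ : Type} [Field κ] {P : Type} [Group P] [Fintype P]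
    (S : SC κ[X] P) : MulSemiringAction P (El S) where
  smul u a := actE S u a
  one_smul a := Al.act_one_apply _ a
  mul_smul u v a := Al.act_mul_apply _ u v a
  smul_zero u := map_zero (actE S u)
  smul_add u a b := map_add (actE S u) a b
  smul_one u := map_one (actE S u)
  smul_mul u a b := map_mul (actE S u) a b

private theorem R0_reduced {κ : Type} [Field κ] {P : Type} [Group P] [Fintype P]
    (S : SC κ[X] P) : IsReduced (El S) := by
  refine ⟨fun a ha => ?_⟩
  have h1 : ∀ m : P, ∑ x, actE S x (Al.e (S.map (AI.zinv κ)) m * a) = 0 := by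
    intro m
    obtain ⟨b, hb⟩ := tr_mem (S.map (AI.zinv κ)) (Al.e (S.map (AI.zinv κ)) m * a)
    have h2 : IsNilpotent (∑ x, actE S x (Al.e (S.map (AI.zinv κ)) m * a)) := by
      refine isNilpotent_sum fun x _ => ?_
      exact (Commute.isNilpotent_mul_left (Commute.all _ _) ha).map (actE S x)
    have h3 : IsNilpotent b := by
      obtain ⟨n, hn⟩ := h2
      refine ⟨n, cst_injective (S.map (AI.zinv κ)) ?_⟩
      rw [map_pow, ← hb, map_zero]
      exact hn
    rw [h3.eq_zero, map_zero] at hb
    exact hb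
  have h2 : a = ∑ x, (if x = 1 then (1 : El S) else 0) * actE S x a := by
    rw [Finset.sum_eq_single 1]
    · rw [if_pos rfl, one_mul]
      exact (Al.act_one_apply _ a).symm
    · intro x _ hx
      rw [if_neg hx, zero_mul]
    · intro h
      exact absurd (Finset.mem_univ _) h
  rw [h2]
  have h3 : ∀ x, (if x = 1 then (1 : El S) else 0) * actE S x a =
      ∑ l, ∑ m, Al.cst (S.map (AI.zinv κ)) ((S.map (AI.zinv κ)).T' l m) *
        Al.e (S.map (AI.zinv κ)) l * actE S x (Al.e (S.map (AI.zinv κ)) m * a) := by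
    intro x
    rw [← dual_e (S.map (AI.zinv κ)) x, Finset.sum_mul]
    refine Finset.sum_congr rfl fun l _ => ?_
    rw [Finset.sum_mul]
    refine Finset.sum_congr rfl fun m _ => ?_
    rw [map_mul, mul_assoc, mul_assoc, mul_assoc]
    rfl
  rw [Finset.sum_congr rfl fun x _ => h3 x, Finset.sum_comm]
  refine Finset.sum_eq_zero fun l _ => ?_
  rw [Finset.sum_comm]
  refine Finset.sum_eq_zero fun m _ => ?_
  rw [← Finset.mul_sum, h1, mul_zero]

theorem isField_El {p : ℕ} [hp : Fact p.Prime] {κ : Type} [Field κ] [CharP κ p] {P : Type}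
    [Group P] [Fintype P] (hP : IsPGroup p P) (S : SC κ[X] P) (hT : TC p S) : IsField (El S) := by
  let _i1 : Algebra (LaurentSeries κ) (El S) := (oE S).toAlgebra
  let _i2 : MulSemiringAction P (El S) := R0_action S
  have : SMulCommClass P (LaurentSeries κ) (El S) := by
    refine ⟨fun u c a => ?_⟩
    change actE S u (oE S c * a) = oE S c * actE S u a
    rw [map_mul, actE_oE]
  have : Algebra.IsInvariant (LaurentSeries κ) (El S) P := by
    refine ⟨fun b hb => ?_⟩
    obtain ⟨c, hc⟩ := fixedE S b hb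
    exact ⟨c, hc.symm⟩
  have : Nontrivial (El S) := (oE_injective S).nontrivial
  have : IsReduced (El S) := R0_reduced S
  refine R0_core (F := LaurentSeries κ) (E := El S) (P := P) fun D hD => ?_
  obtain ⟨χ, hχ, hχ0, hχD⟩ := exists_char hP D hD
  obtain ⟨y₀, F₀, hF, hy₀, hyp⟩ := hT χ hχ hχ0
  have h1 : χ 1 = 0 := by
    have h := hχ 1 1
    rw [mul_one] at h
    exact (left_eq_add.1 h)
  let N : Subgroup P :=
    { carrier := {u | χ u = 0}
      mul_mem' := by
        intro u v hu hv
        change χ (u * v) = 0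
        rw [hχ, hu, hv, add_zero]
      one_mem' := h1
      inv_mem' := by
        intro u hu
        change χ u⁻¹ = 0
        have h := hχ u u⁻¹
        rw [mul_inv_cancel, h1, hu, zero_add] at h
        exact h.symm }
  have hN : ∀ u, u ∈ N ↔ χ u = 0 := fun u => Iff.rfl
  refine ⟨N, fun u hu => hχD u hu, ?_, ?_⟩
  · intro h
    obtain ⟨u, hu⟩ := hχ0
    refine hu ((hN u).1 ?_)
    rw [h]
    exact Subgroup.mem_top u
  · intro a ha ha0
    let y : El S := Al.mapA S (AI.zinv κ) y₀
    have hy : ∀ u, actE S u y = y + zc (El S) (χ u) := by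
      intro u
      change Al.act (S.map (AI.zinv κ)) u (Al.mapA S (AI.zinv κ) y₀) =
        Al.mapA S (AI.zinv κ) y₀ + (((χ u).val : ℕ) : Al (S.map (AI.zinv κ)))
      rw [← Al.mapA_act, hy₀, map_add, map_natCast]
    have hyp' : y ^ p - y = oE S (AI.zinv κ F₀) := by
      have h := congrArg (Al.mapA S (AI.zinv κ)) hyp
      rw [map_sub, map_pow, Al.mapA_cst] at h
      exact h
    obtain ⟨c, hc⟩ := interp S χ hχ hχ0 y hy a ha
    have : Fact (Irreducible (AI.asPoly p F₀)) := ⟨AI.irreducible_asPoly hF⟩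
    let φ : AI.EE p F₀ →+* El S := AdjoinRoot.lift (oE S) y (by
      rw [AI.eval₂_asPoly, hyp', sub_self])
    let b : AI.EE p F₀ := ∑ j : Fin p, AdjoinRoot.of (AI.asPoly p F₀) (c j) *
      AdjoinRoot.root (AI.asPoly p F₀) ^ (j : ℕ)
    have hφ : φ b = a := by
      rw [hc]
      change φ (∑ j : Fin p, AdjoinRoot.of (AI.asPoly p F₀) (c j) *
        AdjoinRoot.root (AI.asPoly p F₀) ^ (j : ℕ)) = _
      rw [map_sum]
      refine Finset.sum_congr rfl fun j _ => ?_
      rw [map_mul, map_pow]
      change AdjoinRoot.lift (oE S) y _ _ * (AdjoinRoot.lift (oE S) y _ _) ^ (j : ℕ) = _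
      rw [AdjoinRoot.lift_of, AdjoinRoot.lift_root]
    have hb : b ≠ 0 := by
      intro h
      apply ha0
      rw [← hφ, h, map_zero]
    rw [← hφ]
    exact (IsUnit.mk0 b hb).map φ

end

end Pool.Agent.MP_1c8e06_ag.AJ
end

section

set_option autoImplicit false

open Polynomial
open scoped Classical

namespace Pool.Agent.MP_1c8e06_ag.AJ

noncomputable section

/-!
# Task X4: the trivial group

Proof.  `P` is trivial (`i` injective).  `S := SC.triv k[X] P`; `TC`: there is no `u` with `χ u ≠ 0` (`χ 1 = 0`).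
`D`: `b l x := 1`, all constants `1` (sums over a one element type: `Fintype.sum_subsingleton`).  `Conn'`: `h = 1`.
-/

theorem re_triv {p : ℕ} {k : Type} [Field k] {P G : Type} [Group P] [Fintype P] [Group G]
    [Fintype G] [Subsingleton G] (i : P →* G) (hi : Function.Injective i) : RE p k i ⊤ := by
  have hsP : Subsingleton P := ⟨fun a b => hi (Subsingleton.elim _ _)⟩
  refine ⟨SC.triv k[X] P, ?_, ⟨fun _ _ => 1, ⟨fun _ _ _ => 1, fun _ _ _ => 1, fun _ => 1,
    fun _ _ => 1, fun _ _ => 1⟩, ?_, ?_, ?_, ?_, ?_, ?_⟩, ?_⟩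
  · rintro χ hχ ⟨u, hu⟩
    exfalso
    apply hu
    have h1 := hχ 1 1
    rw [mul_one] at h1
    have h2 : χ 1 = 0 := by
      have h3 : χ 1 + 0 = χ 1 + χ 1 := by rw [add_zero]; exact h1
      exact (add_left_cancel h3).symm
    rw [Subsingleton.elim u 1, h2]
  · intro u l x
    rw [map_one]
  · intro j l x
    rw [Fintype.sum_subsingleton _ (1 : G), map_one]
  · intro h l x
    rw [Fintype.sum_subsingleton _ (1 : G), map_one, one_mul]
  · intro x
    rw [Fintype.sum_subsingleton _ (1 : G), map_one, one_mul]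
  · intro j l
    rw [Fintype.sum_subsingleton _ (1 : G), map_one, one_mul]
  · intro x x'
    rw [Fintype.sum_subsingleton _ (1 : G), Fintype.sum_subsingleton _ (1 : G), map_one,
      if_pos (Subsingleton.elim x x'), one_mul, one_mul]
  · intro h _ f c _
    rw [Subsingleton.elim h 1]

end

end Pool.Agent.MP_1c8e06_ag.AJ
end

section

set_option autoImplicit false

open Polynomial
open scoped Classical

namespace Pool.Agent.MP_1c8e06_ag.AJ

noncomputable section

/-!
# Task R1a: the Artin-Schreier extension is totally ramified (integral closure is local)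

`E₁ = AI.EE p F` (a field, `AI.irreducible_asPoly`, `AI.isDomain_EE`), `wt` its weight (`AI/A5.lean`: `wt_mul`, `le_wt_iff`,
`wt_ofL`), `R = k[[s]]`, mapped to `E₁` by `ofL ∘ ofPowerSeries`.
Proof.  Let `x, x'` be elements with `φ(x), φ(x') ...` : the statement says: if `a ∈ E₁` is integral over `R`, and `Φ` is any
ring homomorphism from the subring `C` of integral elements to a domain (or: any prime ideal `𝔮` of `C` with
`s ∈ 𝔮`), then `a ∈ 𝔮` iff `wt a > 0`.
(a) Integral elements have `wt ≥ 0`: in an integral equation `a^n = - ∑ r_i a^i` with `wt r_i ≥ 0`, `wt a < 0` is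
    impossible (`wt_mul`, `Fil.add`/`le_wt_iff`: the sum has weight `≥ min_{i<n} i wt a > n wt a`).
(b) If `wt a > 0` and `a` integral, then `a ∈ 𝔮`: `a^p` ... the weight of `a^p * (ofL s)⁻¹` is `p wt a - p ≥ 0`; every
    element `b` of `E₁` with `wt b ≥ 0` is integral over `R` (c), so `a^p = s * b` with `b ∈ C`, and `s ∈ 𝔮`.
(c) `wt b ≥ 0` implies `b` integral: `b = ∑_{j<p} ofL b_j y^j` with all `wt (ofL b_j y^j) ≥ 0` (definition of `wt`), so it is enough
    to treat `b = ofL (s^i u) y^j`, `p i - j n ≥ 0` (`n = deg F`), and the power series part is in `R`; `b₀ := ofL (s^i) y^j`: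
    `b₀^p = s^(p i) (y + F(1/s))^j = ∑_m (j choose m) s^(p i - (j-m) n) (s^n F(1/s))^(j-m) y^m`... simpler: let
    `g := s^n y^p = s^n y + s^n F(1/s)`.  First `s^e y` with `e p ≥ n` is integral (monic equation
    `(s^e y)^p = s^(e(p-1)) (s^e y) + s^(e p) F(1/s)`), in particular `s^n y` and hence `g` are integral.
    `b₀^p = s^(p i) y^(p j) = s^(p i - j n) g^j` is integral, so `b₀` is integral.
(d) If `wt a = 0` and `a ∈ 𝔮` integral: `a⁻¹` has weight `0`, so it is integral by (c) and `1 ∈ 𝔮`.
-/

private theorem R1a_ps {k : Type} [Field k] (c : LaurentSeries k)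
    (h : ∀ i : ℤ, i < 0 → c.coeff i = 0) :
    ∃ r : PowerSeries k, HahnSeries.ofPowerSeries ℤ k r = c := by
  refine ⟨PowerSeries.mk fun m => c.coeff m, ?_⟩
  ext i
  rcases lt_or_ge i 0 with hi | hi
  · rw [h i hi, HahnSeries.ofPowerSeries_apply, HahnSeries.embDomain_of_notMem_range]
    rintro ⟨m, hm⟩
    simp at hm
    omega
  · obtain ⟨m, rfl⟩ := Int.eq_ofNat_of_zero_le hi
    have h1 := HahnSeries.ofPowerSeries_apply_coeff (Γ := ℤ)
      (PowerSeries.mk fun m => c.coeff (m : ℤ)) m
    rw [PowerSeries.coeff_mk] at h1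
    exact h1

private theorem R1a_shift {k : Type} [Field k] (c : LaurentSeries k) (i₀ : ℤ)
    (h : ∀ i : ℤ, i < i₀ → c.coeff i = 0) :
    ∃ r : PowerSeries k, c = HahnSeries.single i₀ 1 * HahnSeries.ofPowerSeries ℤ k r := by
  obtain ⟨r, hr⟩ := R1a_ps (HahnSeries.single (-i₀) (1 : k) * c) (by
    intro i hi
    have h1 := HahnSeries.coeff_single_mul_add (r := (1 : k)) (x := c) (a := i + i₀) (b := -i₀)
    rw [one_mul, show i + i₀ + -i₀ = i by ring] at h1
    rw [h1]
    exact h _ (by omega))
  refine ⟨r, ?_⟩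
  rw [hr, ← mul_assoc, HahnSeries.single_mul_single]
  simp

section
variable {p : ℕ} [hp : Fact p.Prime] {k : Type} [Field k] {F : k[X]}

/-- The structure map of the valuation ring. -/
private abbrev R1a_i (p : ℕ) {k : Type} [Field k] (F : k[X]) : PowerSeries k →+* AI.EE p F :=
  (AI.ofL p F).comp (HahnSeries.ofPowerSeries ℤ k)

private theorem R1a_iX (m : ℕ) :
    R1a_i p F (PowerSeries.X ^ m) = AI.ofL p F (HahnSeries.single (m : ℤ) (1 : k)) := by
  rw [RingHom.comp_apply, HahnSeries.ofPowerSeries_X_pow]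

private theorem R1a_pow {a : AI.EE p F} (h : (R1a_i p F).IsIntegralElem a) (m : ℕ) :
    (R1a_i p F).IsIntegralElem (a ^ m) := by
  induction m with
  | zero =>
    rw [pow_zero]
    exact RingHom.isIntegralElem_one _
  | succ m ih =>
    rw [pow_succ]
    exact RingHom.IsIntegralElem.mul _ ih h

private theorem R1a_of_pow {a : AI.EE p F} {m : ℕ} (hm : 0 < m)
    (h : (R1a_i p F).IsIntegralElem (a ^ m)) : (R1a_i p F).IsIntegralElem a := by
  obtain ⟨f, hf1, hf2⟩ := h
  refine ⟨f.comp (X ^ m), hf1.comp (monic_X_pow m) ?_, ?_⟩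
  · rw [natDegree_X_pow]
    omega
  · rw [eval₂_comp, eval₂_X_pow]
    exact hf2

private theorem R1a_sum {ι : Type} (s : Finset ι) (f : ι → AI.EE p F)
    (h : ∀ i ∈ s, (R1a_i p F).IsIntegralElem (f i)) : (R1a_i p F).IsIntegralElem (∑ i ∈ s, f i) := by
  induction s using Finset.induction_on with
  | empty =>
    rw [Finset.sum_empty]
    exact RingHom.isIntegralElem_zero _
  | insert a s ha ih =>
    rw [Finset.sum_insert ha]
    exact RingHom.IsIntegralElem.add _ (h a (Finset.mem_insert_self a s))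
      (ih fun i hi => h i (Finset.mem_insert_of_mem hi))

private theorem R1a_zinv (F : k[X]) : ∃ G : PowerSeries k,
    HahnSeries.ofPowerSeries ℤ k G = HahnSeries.single ((F.natDegree : ℕ) : ℤ) 1 * AI.zinv k F := by
  refine R1a_ps _ fun i hi => ?_
  have h1 := HahnSeries.coeff_single_mul_add (r := (1 : k)) (x := AI.zinv k F)
    (a := i - F.natDegree) (b := (F.natDegree : ℤ))
  rw [one_mul, show i - (F.natDegree : ℤ) + F.natDegree = i by ring] at h1
  rw [h1, AI.zinv_coeff]
  split_ifs with h2
  · apply Polynomial.coeff_eq_zero_of_natDegree_lt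
    omega
  · rfl

private theorem R1a_yp : AI.yy p F ^ p = AI.yy p F + AI.ofL p F (AI.zinv k F) := AI.yy_pow_eq

private theorem R1a_w : (R1a_i p F).IsIntegralElem
    (AI.ofL p F (HahnSeries.single ((F.natDegree : ℕ) : ℤ) 1) * AI.yy p F) := by
  have h2 := hp.out.two_le
  obtain ⟨G, hG⟩ := R1a_zinv F
  set n := F.natDegree with hn
  set Sn := AI.ofL p F (HahnSeries.single ((n : ℕ) : ℤ) (1 : k)) with hSn
  have hS : R1a_i p F (PowerSeries.X ^ n) = Sn := R1a_iX n
  have hGi : R1a_i p F G = Sn * AI.ofL p F (AI.zinv k F) := by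
    rw [RingHom.comp_apply, hG, map_mul]
  refine ⟨X ^ p + (-(C ((PowerSeries.X ^ n) ^ (p - 1)) * X +
    C ((PowerSeries.X ^ n) ^ (p - 1) * G))), ?_, ?_⟩
  · refine monic_X_pow_add (lt_of_le_of_lt (degree_neg_le_of_le degree_linear_le)
      (?_ : (1 : WithBot ℕ) < p))
    exact_mod_cast h2
  · rw [eval₂_add, eval₂_neg, eval₂_add, eval₂_mul, eval₂_C, eval₂_C, eval₂_X, eval₂_X_pow,
      map_mul, map_pow, hS, hGi, mul_pow, R1a_yp]
    obtain ⟨m, hm⟩ : ∃ m, p = m + 1 := ⟨p - 1, by omega⟩
    have e : Sn ^ p = Sn ^ (p - 1) * Sn := by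
      rw [← pow_succ]
      congr 1
      omega
    rw [e]
    ring

private theorem R1a_g : (R1a_i p F).IsIntegralElem
    (AI.ofL p F (HahnSeries.single ((F.natDegree : ℕ) : ℤ) 1) * AI.yy p F ^ p) := by
  obtain ⟨G, hG⟩ := R1a_zinv F
  have hGi : R1a_i p F G = AI.ofL p F (HahnSeries.single ((F.natDegree : ℕ) : ℤ) 1) *
      AI.ofL p F (AI.zinv k F) := by
    rw [RingHom.comp_apply, hG, map_mul]
  rw [R1a_yp, mul_add, ← hGi]
  exact RingHom.IsIntegralElem.add _ R1a_w (RingHom.isIntegralElem_map _)

private theorem R1a_mono (i : ℤ) (j : ℕ) (h : 0 ≤ (p : ℤ) * i - (j : ℤ) * (F.natDegree : ℤ)) :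
    (R1a_i p F).IsIntegralElem (AI.ofL p F (HahnSeries.single i 1) * AI.yy p F ^ j) := by
  apply R1a_of_pow (m := p) hp.out.pos
  obtain ⟨e, he⟩ := Int.eq_ofNat_of_zero_le h
  have e1 : (HahnSeries.single i (1 : k) : LaurentSeries k) ^ p =
      HahnSeries.single (e : ℤ) 1 * (HahnSeries.single ((F.natDegree : ℕ) : ℤ) 1) ^ j := by
    have e0 : p • i = (e : ℤ) + j • ((F.natDegree : ℕ) : ℤ) := by
      simp only [nsmul_eq_mul]
      linarith
    rw [HahnSeries.single_pow, HahnSeries.single_pow, HahnSeries.single_mul_single, one_pow, one_pow,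
      mul_one, e0]
  have e2 : (AI.ofL p F (HahnSeries.single i 1) * AI.yy p F ^ j) ^ p =
      R1a_i p F (PowerSeries.X ^ e) *
        (AI.ofL p F (HahnSeries.single ((F.natDegree : ℕ) : ℤ) 1) * AI.yy p F ^ p) ^ j := by
    rw [R1a_iX, mul_pow, ← map_pow, e1, map_mul, map_pow, mul_pow, ← pow_mul, ← pow_mul,
      mul_comm j p]
    ring
  rw [e2]
  exact RingHom.IsIntegralElem.mul _ (RingHom.isIntegralElem_map _) (R1a_pow R1a_g j)

/-- Elements of nonnegative weight are integral. -/
private theorem R1a_int {b : AI.EE p F} (h : AI.Fil p F 0 b) : (R1a_i p F).IsIntegralElem b := by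
  rw [AI.eq_sum_coordE b]
  refine R1a_sum _ _ fun j hj => ?_
  rw [Finset.mem_range] at hj
  have hp0 : (0 : ℤ) < p := by exact_mod_cast hp.out.pos
  set x : ℤ := -((j : ℤ) * (F.natDegree : ℤ)) with hx
  have hr := Int.emod_add_mul_ediv x p
  have hr0 := Int.emod_nonneg x hp0.ne'
  have hr1 := Int.emod_lt_of_pos x hp0
  obtain ⟨r, hrr⟩ := R1a_shift (AI.coordE p F b j) (-(x / p)) (by
    intro i hi
    refine h j hj i ?_
    have h1 : (p : ℤ) * i ≤ (p : ℤ) * (-(x / p) - 1) :=
      mul_le_mul_of_nonneg_left (by omega) hp0.le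
    have h2 : (p : ℤ) * (-(x / p) - 1) = -((p : ℤ) * (x / p)) - p := by ring
    linarith)
  have hmono := R1a_mono (p := p) (F := F) (-(x / p)) j (by
    have h2 : (p : ℤ) * -(x / p) = -((p : ℤ) * (x / p)) := by ring
    linarith)
  rw [hrr, map_mul]
  have e : AI.ofL p F (HahnSeries.single (-(x / p)) 1) *
      AI.ofL p F (HahnSeries.ofPowerSeries ℤ k r) * AI.yy p F ^ j =
      R1a_i p F r * (AI.ofL p F (HahnSeries.single (-(x / p)) 1) * AI.yy p F ^ j) := by
    rw [RingHom.comp_apply]
    ring
  rw [e]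
  exact RingHom.IsIntegralElem.mul _ (RingHom.isIntegralElem_map _) hmono

private theorem R1a_wt_one : AI.wt p F (1 : AI.EE p F) = ((0 : ℤ) : WithTop ℤ) := by
  have h := AI.wt_ofL (p := p) (F := F) (1 : LaurentSeries k) one_ne_zero
  rw [map_one, HahnSeries.order_one, mul_zero] at h
  exact h

private theorem R1a_filpow {a : AI.EE p F} {N : ℤ} (h : AI.Fil p F N a) (m : ℕ) :
    AI.Fil p F ((m : ℤ) * N) (a ^ m) := by
  induction m with
  | zero =>
    rw [pow_zero, Nat.cast_zero, zero_mul]
    exact AI.Fil.one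
  | succ m ih =>
    have h1 := AI.Fil.mul ih h
    rw [pow_succ]
    have e : ((m + 1 : ℕ) : ℤ) * N = (m : ℤ) * N + N := by
      push_cast
      ring
    rw [e]
    exact h1

private theorem R1a_wt_pow (hF : ¬ p ∣ F.natDegree) {a : AI.EE p F} {N : ℤ}
    (h : AI.wt p F a = (N : WithTop ℤ)) (m : ℕ) :
    AI.wt p F (a ^ m) = (((m : ℤ) * N : ℤ) : WithTop ℤ) := by
  induction m with
  | zero =>
    rw [pow_zero, Nat.cast_zero, zero_mul]
    exact R1a_wt_one
  | succ m ih =>
    rw [pow_succ, AI.wt_mul hF, ih, h, ← WithTop.coe_add]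
    congr 1
    push_cast
    ring

/-- Integral elements have nonnegative weight. -/
private theorem R1a_nonneg (hF : ¬ p ∣ F.natDegree) {a : AI.EE p F}
    (h : (R1a_i p F).IsIntegralElem a) : AI.Fil p F 0 a := by
  by_contra hcon
  have hne : AI.wt p F a ≠ ⊤ := by
    intro h1
    rw [AI.wt_eq_top_iff] at h1
    rw [h1] at hcon
    exact hcon (AI.Fil.zero 0)
  obtain ⟨N, hN⟩ := WithTop.ne_top_iff_exists.1 hne
  have hN0 : N < 0 := by
    by_contra h1
    apply hcon
    rw [← AI.le_wt_iff, ← hN]
    exact_mod_cast not_lt.1 h1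
  have hFN : AI.Fil p F N a := by
    rw [← AI.le_wt_iff, ← hN]
  obtain ⟨f, hf1, hf2⟩ := h
  rw [hf1.as_sum] at hf2
  rw [eval₂_add, eval₂_X_pow, eval₂_finsetSum] at hf2
  set n := f.natDegree with hn
  have hsum : AI.Fil p F ((n : ℤ) * N + 1)
      (∑ i ∈ Finset.range n, eval₂ ((AI.ofL p F).comp (HahnSeries.ofPowerSeries ℤ k)) a
        (C (f.coeff i) * X ^ i)) := by
    refine AI.Fil.sum _ fun i hi => ?_
    rw [Finset.mem_range] at hi
    rw [eval₂_mul, eval₂_C, eval₂_X_pow, RingHom.comp_apply]
    have h1 : AI.Fil p F (0 + (i : ℤ) * N)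
        (AI.ofL p F (HahnSeries.ofPowerSeries ℤ k (f.coeff i)) * a ^ i) := by
      refine AI.Fil.ofL_mul' (fun l hl => ?_) (R1a_filpow hFN i)
      have hp0 : (0 : ℤ) < p := by exact_mod_cast hp.out.pos
      have hl0 : l < 0 := by
        by_contra hc
        have := mul_nonneg hp0.le (not_lt.1 hc)
        linarith
      rw [HahnSeries.ofPowerSeries_apply, HahnSeries.embDomain_of_notMem_range]
      rintro ⟨m, hm⟩
      simp at hm
      omega
    refine h1.mono ?_
    have h2 : (i : ℤ) ≤ (n : ℤ) - 1 := by omega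
    have h3 : ((n : ℤ) - 1) * N ≤ (i : ℤ) * N := mul_le_mul_of_nonpos_right h2 hN0.le
    linarith
  have h4 : AI.Fil p F ((n : ℤ) * N + 1) (a ^ n) := by
    rw [eq_neg_of_add_eq_zero_left hf2]
    exact hsum.neg
  have h5 := (AI.le_wt_iff _ _).2 h4
  rw [R1a_wt_pow hF hN.symm] at h5
  have h6 : (n : ℤ) * N + 1 ≤ (n : ℤ) * N := by exact_mod_cast h5
  omega

private theorem R1a_inv (hF : ¬ p ∣ F.natDegree) {c : AI.EE p F} (hc : c ≠ 0) :
    ∃ d, c * d = 1 := by
  haveI : Fact (Irreducible (AI.asPoly p F)) := ⟨AI.irreducible_asPoly hF⟩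
  have h : IsField (AI.EE p F) := (AdjoinRoot.instField (f := AI.asPoly p F)).toIsField
  exact h.mul_inv_cancel hc

private theorem R1a_key (hF : ¬ p ∣ F.natDegree) (C : Subring (AI.EE p F))
    (hC : ∀ a, a ∈ C ↔ (R1a_i p F).IsIntegralElem a)
    (𝔮 : Ideal C) (h𝔮 : 𝔮.IsPrime)
    (hs : ∀ c : C, (c : AI.EE p F) = AI.ofL p F (HahnSeries.single (1 : ℤ) (1 : k)) → c ∈ 𝔮)
    (c : C) : c ∈ 𝔮 ↔ AI.Fil p F 1 (c : AI.EE p F) := by
  constructor
  · intro hc
    by_contra hcon
    have h0 : AI.Fil p F 0 (c : AI.EE p F) := R1a_nonneg hF ((hC _).1 c.2)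
    have hwt : AI.wt p F (c : AI.EE p F) = ((0 : ℤ) : WithTop ℤ) :=
      AI.A5_wt_eq h0 (by rwa [zero_add])
    have hne : (c : AI.EE p F) ≠ 0 := by
      intro h1
      rw [h1] at hcon
      exact hcon (AI.Fil.zero 1)
    obtain ⟨d, hd⟩ := R1a_inv hF hne
    have h1 := AI.wt_mul hF (c : AI.EE p F) d
    rw [hd, hwt, R1a_wt_one, WithTop.coe_zero, zero_add] at h1
    have h2 : AI.Fil p F 0 d := by
      rw [← AI.le_wt_iff, ← h1]
      exact le_of_eq WithTop.coe_zero
    have hdC : d ∈ C := (hC d).2 (R1a_int h2)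
    apply h𝔮.ne_top
    rw [Ideal.eq_top_iff_one]
    have e : (1 : C) = c * ⟨d, hdC⟩ := by
      apply Subtype.ext
      exact hd.symm
    rw [e]
    exact Ideal.mul_mem_right _ _ hc
  · intro h1
    have h2 := R1a_filpow h1 p
    rw [mul_one] at h2
    have h3 : AI.Fil p F (-(p : ℤ) + p)
        (AI.ofL p F (HahnSeries.single (-1 : ℤ) (1 : k)) * (c : AI.EE p F) ^ p) := by
      refine AI.Fil.ofL_mul' (fun i hi => ?_) h2
      rw [HahnSeries.coeff_single_of_ne]
      rintro rfl
      linarith
    rw [neg_add_cancel] at h3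
    have hbC : AI.ofL p F (HahnSeries.single (-1 : ℤ) (1 : k)) * (c : AI.EE p F) ^ p ∈ C :=
      (hC _).2 (R1a_int h3)
    have hsC : AI.ofL p F (HahnSeries.single (1 : ℤ) (1 : k)) ∈ C := by
      refine (hC _).2 ?_
      have h4 := R1a_iX (p := p) (F := F) 1
      rw [Nat.cast_one] at h4
      rw [← h4]
      exact RingHom.isIntegralElem_map _
    have hs' := hs ⟨_, hsC⟩ rfl
    have e : c ^ p = (⟨_, hsC⟩ : C) * ⟨_, hbC⟩ := by
      apply Subtype.ext
      change (c : AI.EE p F) ^ p = AI.ofL p F (HahnSeries.single (1 : ℤ) (1 : k)) *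
        (AI.ofL p F (HahnSeries.single (-1 : ℤ) (1 : k)) * (c : AI.EE p F) ^ p)
      rw [← mul_assoc, ← map_mul, HahnSeries.single_mul_single]
      simp
    apply h𝔮.mem_of_pow_mem p
    rw [e]
    exact Ideal.mul_mem_right _ _ hs'

end

theorem AS_local {p : ℕ} [hp : Fact p.Prime] {k : Type} [Field k] [CharP k p] (F : k[X])
    (hF : ¬ p ∣ F.natDegree) (C : Subring (AI.EE p F))
    (hC : ∀ a, a ∈ C ↔ ((AI.ofL p F).comp (HahnSeries.ofPowerSeries ℤ k)).IsIntegralElem a)
    (𝔮 𝔮' : Ideal C) (h𝔮 : 𝔮.IsPrime) (h𝔮' : 𝔮'.IsPrime)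
    (hs : ∀ c : C, (c : AI.EE p F) = AI.ofL p F (HahnSeries.single (1 : ℤ) (1 : k)) → c ∈ 𝔮 ∧ c ∈ 𝔮') :
    𝔮 = 𝔮' := by
  ext c
  rw [R1a_key hF C hC 𝔮 h𝔮 (fun c hc => (hs c hc).1) c,
    R1a_key hF C hC 𝔮' h𝔮' (fun c hc => (hs c hc).2) c]

end

end Pool.Agent.MP_1c8e06_ag.AJ
end

section

set_option autoImplicit false

open Polynomial
open scoped Classical

namespace Pool.Agent.MP_1c8e06_ag.AJ

noncomputable section

/-!
# Task R1b: the integral closure of `k[[s]]` in `El S` has only one maximal ideal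

`E = El S` is a field (`isField_El`), `B :=` the subring of elements integral over `k[[s]]` (via `oE ∘ ofPowerSeries`).  `P` acts
on `B`.  Every maximal ideal `M` of `B` contains `s` (`B` is integral over the local ring `k[[s]]`, so
`M ∩ k[[s]]` is its maximal ideal: `Ideal.isMaximal_comap_of_isIntegral_of_isMaximal`).
(1) Claim: if `N ≤ P` is a subgroup and `M, M'` are maximal ideals of `B` such that every `a ∈ M'` fixed by `N` lies in `M`, then
    `M' = act n M` for some `n ∈ N` (as in `AJ/R0.lean` (3): otherwise choose `a ∈ M'`, `a ∉ act n M` for all `n ∈ N` (CRT /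
    prime avoidance, the ideals are maximal and distinct from `M'`), then `∏_{n ∈ N} act n a ∈ M'` is fixed by
    `N`, hence in `M`, so some `act n a ∈ M`).
(2) Let `M` be a maximal ideal, `D := {u | act u M = M}`.  If `D = ⊤`: let `M'` be another one.  Elements of `M'` fixed
    by `P` are `oE c`, integral over `k[[s]]`, so `c ∈ k[[s]]` (`k[[s]]` is integrally closed in `k((s))`), not a
    unit, so divisible by `s`, hence in `M`; (1) with `N = ⊤` gives `M' = act u M = M`.
(3) If `D ≠ ⊤`: `χ` from `exists_char`, `y₀, F₀` from `hT`, `y := Al.mapA S zinv y₀`, `N := {u | χ u = 0} ⊇ D`; `u₀ ∉ N`.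
    `j : AI.EE p F₀ →+* E`, `AdjoinRoot.lift` with `ofL c ↦ oE c`, `yy ↦ y`; it is injective (a field).  By `interp` the
    elements of `E` fixed by `N` are the image of `j`.  For `M` and `M' := act u₀ M` let `𝔮, 𝔮'` be their
    preimages in `C := {a | a integral over k[[s]]} ⊆ AI.EE p F₀` (`j a` is integral iff `a` is, `j` injective); both are
    prime and contain `s`, so `𝔮 = 𝔮'` (`AS_local`).  So an element of `M'` fixed by `N` lies in `M`; (1):
    `act u₀ M = act n M`, `n⁻¹ u₀ ∈ D ≤ N`, contradiction.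
-/

private theorem R1b_claim {B : Type} [CommRing B] {P : Type} [Group P] [Fintype P]
    (g : P → B →+* B) (g1 : ∀ b, g 1 b = b) (gm : ∀ u v b, g (u * v) b = g u (g v b))
    (N : Subgroup P) (M M' : Ideal B) (hM : M.IsPrime) (hM' : M'.IsMaximal)
    (h : ∀ a ∈ M', (∀ n ∈ N, g n a = a) → a ∈ M) : ∃ n ∈ N, M' = M.comap (g n) := by
  by_contra hc
  push Not at hc
  have h1 : ¬ ((M' : Set B) ⊆ ⋃ i ∈ (((Finset.univ.filter fun u : P => u ∈ N) : Finset P) : Set P),
      ((M.comap (g i) : Ideal B) : Set B)) := by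
    rw [Ideal.subset_union_prime 1 1 (fun i _ _ _ => Ideal.comap_isPrime (g i) M)]
    rintro ⟨i, hi, hle⟩
    have hi' : i ∈ N := (Finset.mem_filter.1 hi).2
    refine hc i hi' (hM'.eq_of_le ?_ hle)
    exact (Ideal.comap_isPrime (g i) M).ne_top
  rw [Set.not_subset] at h1
  obtain ⟨a, ha, ha2⟩ := h1
  have ha3 : ∀ n ∈ N, g n a ∉ M := by
    intro n hn hmem
    apply ha2
    rw [Set.mem_iUnion₂]
    exact ⟨n, by simpa using hn, hmem⟩
  have hb : (∏ n : N, g n a) ∈ M := by
    refine h _ ?_ ?_
    · rw [← Finset.mul_prod_erase Finset.univ (fun n : N => g n a) (Finset.mem_univ (1 : N))]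
      refine M'.mul_mem_right _ ?_
      have : g ((1 : N) : P) a = a := by
        rw [Subgroup.coe_one, g1]
      rw [this]
      exact ha
    · intro n hn
      rw [map_prod]
      refine Fintype.prod_equiv (Equiv.mulLeft (⟨n, hn⟩ : N)) _ _ ?_
      intro x
      rw [← gm]
      rfl
  obtain ⟨n, _, hn⟩ := (hM.prod_mem_iff).1 hb
  exact ha3 n n.2 hn

private theorem R1b_closed {k : Type} [Field k] (c : LaurentSeries k)
    (hc : (HahnSeries.ofPowerSeries ℤ k).IsIntegralElem c) :
    ∃ f : PowerSeries k, HahnSeries.ofPowerSeries ℤ k f = c := by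
  have h : IsIntegral (PowerSeries k) c := by
    obtain ⟨q, hq, hq2⟩ := hc
    exact ⟨q, hq, hq2⟩
  exact IsIntegrallyClosed.algebraMap_eq_of_integral h

private theorem R1b_inj {R A A' : Type} [CommRing R] [CommRing A] [CommRing A'] (φ : R →+* A)
    (J : A →+* A') (hJ : Function.Injective J) (a : A) :
    (J.comp φ).IsIntegralElem (J a) ↔ φ.IsIntegralElem a := by
  constructor
  · rintro ⟨q, hq, hq2⟩
    refine ⟨q, hq, hJ ?_⟩
    rw [Polynomial.hom_eval₂, hq2, map_zero]
  · rintro ⟨q, hq, hq2⟩
    refine ⟨q, hq, ?_⟩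
    rw [← Polynomial.hom_eval₂, hq2, map_zero]

theorem integral_local {p : ℕ} [hp : Fact p.Prime] {k : Type} [Field k] [CharP k p] {P : Type}
    [Group P] [Fintype P] (hP : IsPGroup p P) (S : SC k[X] P) (hT : TC p S) (B : Subring (El S))
    (hB : ∀ a, a ∈ B ↔ ((oE S).comp (HahnSeries.ofPowerSeries ℤ k)).IsIntegralElem a)
    (M M' : Ideal B) (hM : M.IsMaximal) (hM' : M'.IsMaximal) : M = M' := by
  have hfield : IsField (El S) := isField_El hP S hT
  have hnt : Nontrivial (El S) := ⟨hfield.exists_pair_ne⟩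
  -- the action on `B`
  have hact : ∀ u : P, ∀ b ∈ B, actE S u b ∈ B := by
    intro u b hb
    rw [hB] at hb ⊢
    obtain ⟨q, hq, hq2⟩ := hb
    refine ⟨q, hq, ?_⟩
    have h2 : (actE S u).comp ((oE S).comp (HahnSeries.ofPowerSeries ℤ k)) =
        (oE S).comp (HahnSeries.ofPowerSeries ℤ k) := by
      refine RingHom.ext fun f => ?_
      rw [RingHom.comp_apply, RingHom.comp_apply, actE_oE]
    rw [← h2, ← Polynomial.hom_eval₂, hq2, map_zero]
  let g : P → B →+* B := fun u => ((actE S u).comp B.subtype).codRestrict B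
    (fun b => hact u b b.2)
  have gval : ∀ u (b : B), ((g u b : B) : El S) = actE S u (b : El S) := fun u b => rfl
  have g1 : ∀ b, g 1 b = b := by
    intro b
    apply Subtype.ext
    rw [gval, map_one]
    rfl
  have gm : ∀ u v b, g (u * v) b = g u (g v b) := by
    intro u v b
    apply Subtype.ext
    rw [gval, gval, gval, map_mul]
    rfl
  have gsurj : ∀ u, Function.Surjective (g u) := by
    intro u b
    refine ⟨g u⁻¹ b, ?_⟩
    rw [← gm, mul_inv_cancel, g1]
  -- the structure map of `B`
  have hps : ∀ f : PowerSeries k, (oE S).comp (HahnSeries.ofPowerSeries ℤ k) f ∈ B := by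
    intro f
    rw [hB]
    refine ⟨X - C f, monic_X_sub_C f, ?_⟩
    rw [eval₂_sub, eval₂_X, eval₂_C, sub_self]
  let ψ : PowerSeries k →+* B := ((oE S).comp (HahnSeries.ofPowerSeries ℤ k)).codRestrict B hps
  have ψval : ∀ f, ((ψ f : B) : El S) = oE S (HahnSeries.ofPowerSeries ℤ k f) := fun f => rfl
  have ψint : ψ.IsIntegral := by
    intro b
    have h1 := (hB b).1 b.2
    have h2 : (oE S).comp (HahnSeries.ofPowerSeries ℤ k) = B.subtype.comp ψ := by
      refine RingHom.ext fun f => ?_
      rfl
    rw [h2] at h1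
    exact (R1b_inj ψ B.subtype Subtype.val_injective b).1 h1
  have hloc : ∀ I : Ideal B, I.IsMaximal →
      I.comap ψ = IsLocalRing.maximalIdeal (PowerSeries k) := by
    intro I hI
    have := hI
    exact IsLocalRing.eq_maximalIdeal (Ideal.isMaximal_comap_of_isIntegral_of_isMaximal' ψ ψint I)
  have hsM : ∀ I : Ideal B, I.IsMaximal → ψ PowerSeries.X ∈ I := by
    intro I hI
    have h1 : (PowerSeries.X : PowerSeries k) ∈ I.comap ψ := by
      rw [hloc I hI, IsLocalRing.mem_maximalIdeal]
      exact PowerSeries.X_prime.not_isUnit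
    exact h1
  -- the stabiliser
  let D : Subgroup P :=
    { carrier := {u | M.comap (g u) = M}
      one_mem' := by
        change M.comap (g 1) = M
        ext b
        rw [Ideal.mem_comap, g1]
      mul_mem' := by
        intro u v hu hv
        change M.comap (g u) = M at hu
        change M.comap (g v) = M at hv
        change M.comap (g (u * v)) = M
        ext b
        rw [Ideal.mem_comap, gm, ← Ideal.mem_comap (f := g u), hu, ← Ideal.mem_comap (f := g v), hv]
      inv_mem' := by
        intro u hu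
        change M.comap (g u) = M at hu
        change M.comap (g u⁻¹) = M
        ext b
        rw [Ideal.mem_comap]
        have h1 : g u⁻¹ b ∈ M ↔ g u⁻¹ b ∈ M.comap (g u) := by rw [hu]
        rw [h1, Ideal.mem_comap, ← gm, mul_inv_cancel, g1] }
  have hDmem : ∀ u, u ∈ D ↔ M.comap (g u) = M := fun u => Iff.rfl
  by_cases hD : D = ⊤
  · obtain ⟨n, _, hn⟩ := R1b_claim g g1 gm ⊤ M M' hM.isPrime hM' (by
      intro a ha hfix
      obtain ⟨c, hc⟩ := fixedE S (a : El S) (fun u => by
        rw [← gval, hfix u (Subgroup.mem_top u)])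
      have h1 := (hB a).1 a.2
      rw [hc, R1b_inj _ _ (oE_injective S)] at h1
      obtain ⟨f, hf⟩ := R1b_closed c h1
      have h2 : a = ψ f := by
        apply Subtype.ext
        rw [ψval, hf, hc]
      have h3 : f ∈ M'.comap ψ := by
        rw [Ideal.mem_comap, ← h2]
        exact ha
      rw [hloc M' hM', ← hloc M hM, Ideal.mem_comap, ← h2] at h3
      exact h3)
    have h1 : n ∈ D := by
      rw [hD]
      exact Subgroup.mem_top n
    rw [hDmem] at h1
    rw [hn, h1]
  · exfalso
    obtain ⟨χ, hχ, ⟨u₀, hu₀⟩, hχD⟩ := exists_char hP D hD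
    obtain ⟨y₀, F₀, hF₀, hy₀, hy₀p⟩ := hT χ hχ ⟨u₀, hu₀⟩
    have hχ1 : χ 1 = 0 := by
      have h := hχ 1 1
      rw [mul_one] at h
      exact left_eq_add.1 h
    have hχinv : ∀ u, χ u⁻¹ = -χ u := by
      intro u
      have h := hχ u u⁻¹
      rw [mul_inv_cancel, hχ1] at h
      exact (neg_eq_of_add_eq_zero_right h.symm).symm
    let N : Subgroup P :=
      { carrier := {u | χ u = 0}
        one_mem' := hχ1
        mul_mem' := by
          intro u v hu hv
          change χ (u * v) = 0
          rw [hχ, show χ u = 0 from hu, show χ v = 0 from hv, add_zero]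
        inv_mem' := by
          intro u hu
          change χ u⁻¹ = 0
          rw [hχinv, show χ u = 0 from hu, neg_zero] }
    have hNmem : ∀ u, u ∈ N ↔ χ u = 0 := fun u => Iff.rfl
    set y : El S := Al.mapA S (AI.zinv k) y₀ with hydef
    have hy : ∀ u, actE S u y = y + zc (El S) (χ u) := by
      intro u
      rw [hydef]
      change Al.act (S.map (AI.zinv k)) u (Al.mapA S (AI.zinv k) y₀) = _
      rw [← Al.mapA_act, hy₀, map_add, map_natCast]
      rfl
    have hyp : y ^ p - y = oE S (AI.zinv k F₀) := by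
      rw [hydef, ← map_pow, ← map_sub, hy₀p, Al.mapA_cst]
      rfl
    let J : AI.EE p F₀ →+* El S := AdjoinRoot.lift (oE S) y (by
      rw [AI.eval₂_asPoly, hyp, sub_self])
    have hJof : ∀ c, J (AI.ofL p F₀ c) = oE S c := fun c => AdjoinRoot.lift_of _
    have hJy : J (AI.yy p F₀) = y := AdjoinRoot.lift_root _
    have hirr : Fact (Irreducible (AI.asPoly p F₀)) := ⟨AI.irreducible_asPoly hF₀⟩
    have hJinj : Function.Injective J := by
      rw [injective_iff_map_eq_zero]
      intro a ha
      by_contra hne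
      have h1 : a * a⁻¹ = 1 := mul_inv_cancel₀ hne
      have h2 := congrArg J h1
      rw [map_mul, ha, zero_mul, map_one] at h2
      exact zero_ne_one h2
    have hC : ∀ a, a ∈ B.comap J ↔
        ((AI.ofL p F₀).comp (HahnSeries.ofPowerSeries ℤ k)).IsIntegralElem a := by
      intro a
      rw [Subring.mem_comap, hB]
      have h1 : (oE S).comp (HahnSeries.ofPowerSeries ℤ k) =
          J.comp ((AI.ofL p F₀).comp (HahnSeries.ofPowerSeries ℤ k)) := by
        refine RingHom.ext fun f => ?_
        rw [RingHom.comp_apply, RingHom.comp_apply, RingHom.comp_apply, hJof]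
      rw [h1, R1b_inj _ _ hJinj]
    let JC : (B.comap J) →+* B := (J.comp (B.comap J).subtype).codRestrict B (fun x => x.2)
    have JCval : ∀ x : B.comap J, ((JC x : B) : El S) = J (x : AI.EE p F₀) := fun x => rfl
    have hM₀ : (M.comap (g u₀)).IsMaximal := by
      have := hM
      exact Ideal.comap_isMaximal_of_surjective (g u₀) (gsurj u₀)
    have hq : M.comap JC = (M.comap (g u₀)).comap JC := by
      refine AS_local F₀ hF₀ (B.comap J) hC _ _ ?_ ?_ ?_
      · have := hM.isPrime
        exact Ideal.comap_isPrime JC M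
      · have := hM₀.isPrime
        exact Ideal.comap_isPrime JC _
      · intro c hc
        have h1 : JC c = ψ PowerSeries.X := by
          apply Subtype.ext
          rw [JCval, hc, hJof, ψval, HahnSeries.ofPowerSeries_X]
        rw [Ideal.mem_comap, Ideal.mem_comap, h1]
        exact ⟨hsM M hM, hsM _ hM₀⟩
    obtain ⟨n, hn, hn2⟩ := R1b_claim g g1 gm N M (M.comap (g u₀)) hM.isPrime hM₀ (by
      intro a ha hfix
      obtain ⟨c, hc⟩ := interp S χ hχ ⟨u₀, hu₀⟩ y hy (a : El S) (fun u hu => by
        rw [← gval, hfix u hu])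
      let x : AI.EE p F₀ := ∑ j : Fin p, AI.ofL p F₀ (c j) * AI.yy p F₀ ^ (j : ℕ)
      have hx : J x = (a : El S) := by
        rw [hc, map_sum]
        refine Finset.sum_congr rfl fun j _ => ?_
        rw [map_mul, map_pow, hJof, hJy]
      have hxB : x ∈ B.comap J := by
        rw [Subring.mem_comap, hx]
        exact a.2
      have h1 : JC ⟨x, hxB⟩ = a := by
        apply Subtype.ext
        rw [JCval, hx]
      have h2 : (⟨x, hxB⟩ : B.comap J) ∈ (M.comap (g u₀)).comap JC := by
        rw [Ideal.mem_comap, h1]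
        exact ha
      rw [← hq, Ideal.mem_comap, h1] at h2
      exact h2)
    have h3 : u₀ * n⁻¹ ∈ D := by
      rw [hDmem]
      ext b
      rw [Ideal.mem_comap, gm, ← Ideal.mem_comap (f := g u₀), hn2, Ideal.mem_comap, ← gm,
        mul_inv_cancel, g1]
    have h4 := hχD _ h3
    rw [hχ, hχinv, (hNmem n).1 hn, neg_zero, add_zero] at h4
    exact hu₀ h4

end

end Pool.Agent.MP_1c8e06_ag.AJ
end

section

set_option autoImplicit false

open Polynomial
open scoped Classical

namespace Pool.Agent.MP_1c8e06_ag.AJ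

noncomputable section

/-!
# Task R1: the valuation ring at infinity

Proof.  `letI := (isField_El hP S hT).toField` on `E := El S`.  `R := PowerSeries k` (a discrete valuation ring), `F := LaurentSeries k`
its fraction field; make `E` an algebra over both through `oE` (`RingHom.toAlgebra`), scalar tower; `E` is finite
over `F` (`Al.eq_sum`: generated by the `e l`).  `E/F` is separable: the finite group `P` acts faithfully or not, but the
fixed elements are `oE F` (`fixedE`): every `x : E` is a root of `∏_{y ∈ orbit of x} (X - y)`, which has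
distinct roots and is fixed by `P`, so it has coefficients in `F`.  `B := integralClosure R E`, `V := B` as a subring.
`B` is a Dedekind domain (`integralClosure.isDedekindDomain R F E`), with fraction field `E`
(`integralClosure.isFractionRing_of_finite_extension`), and by `integral_local` it has exactly one maximal ideal, so it
is local; it is not a field (`oE s` is not invertible in `B`: otherwise `s⁻¹` would be integral over `R`); a local Dedekind
domain is a discrete valuation ring, in particular a valuation ring (`val`: for `x = a / b` one of `a ∣ b`, `b ∣ a`).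
`act`: `actE u` fixes `oE`, so it maps integral elements to integral elements.  `ps`: `isIntegral_algebraMap`.
`pole`: `s⁻¹ ∉ R`, and `R` is integrally closed.  `NU V` is the maximal ideal of `B`.
`res`: the residue field `B / M` is an algebraic (integral) extension of `R / (s) = k`, which is algebraically
closed: `IsAlgClosed.algebraMap_bijective_of_isIntegral` (or: the minimal polynomial has degree one).
`arch`: `x` is algebraic over `F`: there is `r ≠ 0` in `R` with `r x` integral (`exists_integral_multiple`), and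
`r = s^N * unit`.
-/

section sep
variable {F E : Type} [Field F] [Field E] [Algebra F E] {P : Type} [Group P] [Finite P]

private theorem R1_sep (act : P →* (E →+* E)) (hfix : ∀ u c, act u (algebraMap F E c) = algebraMap F E c)
    (hinv : ∀ x, (∀ u, act u x = x) → ∃ c, x = algebraMap F E c) : Algebra.IsSeparable F E := by
  let _ : MulSemiringAction P E := MulSemiringAction.compHom E act
  have hsm : ∀ (u : P) (x : E), u • x = act u x := fun _ _ => rfl
  let φ : F →+* FixedPoints.subfield P E := (algebraMap F E).codRestrict (FixedPoints.subfield P E)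
    (fun c u => by rw [hsm]; exact hfix u c)
  have hφ : Function.Bijective φ := by
    refine ⟨φ.injective, fun x => ?_⟩
    obtain ⟨c, hc⟩ := hinv x.1 (fun u => x.2 u)
    exact ⟨c, Subtype.ext hc.symm⟩
  let e : F ≃+* FixedPoints.subfield P E := RingEquiv.ofBijective φ hφ
  refine Algebra.IsSeparable.of_equiv_equiv (A₁ := FixedPoints.subfield P E) (B₁ := E) e.symm
    (RingEquiv.refl E) ?_
  refine RingHom.ext fun x => ?_
  obtain ⟨c, rfl⟩ := e.surjective x
  change algebraMap F E (e.symm (e c)) = (e c : E)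
  rw [RingEquiv.symm_apply_apply]
  rfl

end sep

section main

variable {k : Type} [Field k] [IsAlgClosed k] {E : Type} [Field E] {P : Type} [Group P] [Finite P]

private theorem R1_abs (o : LaurentSeries k →+* E) (act : P →* (E →+* E))
    (hfix : ∀ u c, act u (o c) = o c) (hinv : ∀ x, (∀ u, act u x = x) → ∃ c, x = o c)
    (ι : Type) [Fintype ι] (b : ι → E) (hb : ∀ x, ∃ c : ι → LaurentSeries k, x = ∑ l, o (c l) * b l)
    (hloc : ∀ B : Subring E,
      (∀ a, a ∈ B ↔ (o.comp (HahnSeries.ofPowerSeries ℤ k)).IsIntegralElem a) →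
      ∀ M M' : Ideal B, M.IsMaximal → M'.IsMaximal → M = M') :
    ∃ V : Subring E, (∀ x, x ∈ V ∨ ∃ y ∈ V, x * y = 1) ∧ (∀ u, ∀ x ∈ V, act u x ∈ V) ∧
      (∀ f : PowerSeries k, o (HahnSeries.ofPowerSeries ℤ k f) ∈ V) ∧
      o (HahnSeries.single (-1 : ℤ) (1 : k)) ∉ V ∧
      (∀ x ∈ V, ∃ c : k, (x - o (HahnSeries.C c)) ∈ V ∧ ∀ y ∈ V, (x - o (HahnSeries.C c)) * y ≠ 1) ∧
      ∀ x : E, ∃ N : ℕ, o (HahnSeries.single (N : ℤ) (1 : k)) * x ∈ V := by
  let _ : Algebra (LaurentSeries k) E := o.toAlgebra
  let _ : Algebra (PowerSeries k) E := (o.comp (HahnSeries.ofPowerSeries ℤ k)).toAlgebra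
  have : IsScalarTower (PowerSeries k) (LaurentSeries k) E :=
    IsScalarTower.of_algebraMap_eq fun x => rfl
  have hoi : Function.Injective o := o.injective
  have hai : Function.Injective (algebraMap (PowerSeries k) E) := by
    intro x y hxy
    exact HahnSeries.ofPowerSeries_injective (hoi hxy)
  have : Algebra.IsSeparable (LaurentSeries k) E := R1_sep act hfix hinv
  have : FiniteDimensional (LaurentSeries k) E := by
    refine Module.Finite.of_surjective (Fintype.linearCombination (LaurentSeries k) b) fun x => ?_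
    obtain ⟨c, hc⟩ := hb x
    refine ⟨c, ?_⟩
    rw [Fintype.linearCombination_apply, hc]
    exact Finset.sum_congr rfl fun l _ => Algebra.smul_def _ _
  have hDed : IsDedekindDomain (integralClosure (PowerSeries k) E) :=
    integralClosure.isDedekindDomain (PowerSeries k) (LaurentSeries k) E
  have hFr : IsFractionRing (integralClosure (PowerSeries k) E) E :=
    integralClosure.isFractionRing_of_finite_extension (LaurentSeries k) E
  have huniq : ∀ M M' : Ideal (integralClosure (PowerSeries k) E),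
      M.IsMaximal → M'.IsMaximal → M = M' :=
    hloc (integralClosure (PowerSeries k) E).toSubring fun a => Iff.rfl
  have hlocal : IsLocalRing (integralClosure (PowerSeries k) E) := by
    obtain ⟨M, hM⟩ := Ideal.exists_maximal (integralClosure (PowerSeries k) E)
    exact IsLocalRing.of_unique_max_ideal ⟨M, hM, fun M' hM' => huniq M' M hM' hM⟩
  have hval : ValuationRing (integralClosure (PowerSeries k) E) :=
    ((tfae_of_isNoetherianRing_of_isLocalRing_of_isDomain
      (integralClosure (PowerSeries k) E)).out 2 1).1 hDed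
  have hps : ∀ f : PowerSeries k, o (HahnSeries.ofPowerSeries ℤ k f) ∈
      integralClosure (PowerSeries k) E := fun f => isIntegral_algebraMap
  have hpole : o (HahnSeries.single (-1 : ℤ) (1 : k)) ∉ integralClosure (PowerSeries k) E := by
    intro h
    have h1 : IsIntegral (PowerSeries k) (HahnSeries.single (-1 : ℤ) (1 : k) : LaurentSeries k) :=
      (isIntegral_algebraMap_iff (algebraMap (LaurentSeries k) E).injective).1 h
    obtain ⟨f, hf⟩ := IsIntegrallyClosed.isIntegral_iff.1 h1
    have h2 := congrArg (fun x : LaurentSeries k => x.coeff (-1)) hf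
    simp only [HahnSeries.coeff_single_same] at h2
    rw [LaurentSeries.coe_algebraMap] at h2
    rw [HahnSeries.ofPowerSeries_apply] at h2
    rw [HahnSeries.embDomain_of_notMem_range] at h2
    · exact zero_ne_one h2
    · rintro ⟨n, hn⟩
      simp at hn
  refine ⟨(integralClosure (PowerSeries k) E).toSubring, ?_, ?_, hps, hpole, ?_, ?_⟩
  · intro x
    rcases ValuationRing.isInteger_or_isInteger (integralClosure (PowerSeries k) E) x with h | h
    · obtain ⟨y, hy⟩ := h
      left
      rw [← hy]
      exact y.2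
    · obtain ⟨y, hy⟩ := h
      by_cases hx : x = 0
      · left
        rw [hx]
        exact zero_mem _
      · right
        refine ⟨y, y.2, ?_⟩
        have : (y : E) = x⁻¹ := hy
        rw [this, mul_inv_cancel₀ hx]
  · intro u x hx
    obtain ⟨q, hq, h⟩ := hx
    refine ⟨q, hq, ?_⟩
    have h1 : (act u).comp (algebraMap (PowerSeries k) E) = algebraMap (PowerSeries k) E :=
      RingHom.ext fun c => hfix u _
    rw [← h1, ← Polynomial.hom_eval₂, h, map_zero]
  · intro x hx
    obtain ⟨q, hq, h⟩ := hx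
    have hXu : ¬ IsUnit (algebraMap (PowerSeries k) (integralClosure (PowerSeries k) E)
        PowerSeries.X) := by
      intro hu
      obtain ⟨y, hy⟩ := isUnit_iff_exists_inv.1 hu
      apply hpole
      have h1 : o (HahnSeries.single (1 : ℤ) (1 : k)) * (y : E) = 1 := by
        have h2 := congrArg (fun z : integralClosure (PowerSeries k) E => (z : E)) hy
        have h3 : o (HahnSeries.ofPowerSeries ℤ k PowerSeries.X) * (y : E) = 1 := h2
        rwa [HahnSeries.ofPowerSeries_X] at h3
      have h4 : o (HahnSeries.single (-1 : ℤ) (1 : k)) = y := by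
        have h5 : o (HahnSeries.single (-1 : ℤ) (1 : k)) * o (HahnSeries.single (1 : ℤ) (1 : k)) = 1 := by
          rw [← map_mul, HahnSeries.single_mul_single]
          norm_num
        calc o (HahnSeries.single (-1 : ℤ) (1 : k)) = o (HahnSeries.single (-1 : ℤ) (1 : k)) *
              (o (HahnSeries.single (1 : ℤ) (1 : k)) * (y : E)) := by rw [h1, mul_one]
          _ = y := by rw [← mul_assoc, h5, one_mul]
      rw [h4]
      exact y.2
    obtain ⟨θ, hθ⟩ : ∃ θ : PowerSeries k →+* IsLocalRing.ResidueField (integralClosure (PowerSeries k) E),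
        θ = (IsLocalRing.residue _).comp (algebraMap (PowerSeries k) _) := ⟨_, rfl⟩
    have hθX : θ PowerSeries.X = 0 := by
      rw [hθ, RingHom.comp_apply, IsLocalRing.residue_eq_zero_iff]
      exact hXu
    have hθc : θ = (θ.comp (PowerSeries.C (R := k))).comp (PowerSeries.constantCoeff (R := k)) := by
      refine RingHom.ext fun f => ?_
      have h1 : PowerSeries.X ∣ f - PowerSeries.C (PowerSeries.constantCoeff f) := by
        rw [PowerSeries.X_dvd_iff]
        simp
      obtain ⟨g, hg⟩ := h1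
      have h2 : f = PowerSeries.C (PowerSeries.constantCoeff f) + PowerSeries.X * g := by
        rw [← hg]
        ring
      conv_lhs => rw [h2]
      rw [map_add, map_mul, hθX, zero_mul, add_zero]
      rfl
    let _ : Algebra k (IsLocalRing.ResidueField (integralClosure (PowerSeries k) E)) :=
      (θ.comp (PowerSeries.C (R := k))).toAlgebra
    obtain ⟨bx, hbx⟩ : ∃ bx : integralClosure (PowerSeries k) E, (bx : E) = x := ⟨⟨x, q, hq, h⟩, rfl⟩
    have h3 : Polynomial.eval₂ θ (IsLocalRing.residue _ bx) q = 0 := by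
      rw [hθ, ← Polynomial.hom_eval₂]
      have h4 : Polynomial.eval₂ (algebraMap (PowerSeries k) (integralClosure (PowerSeries k) E)) bx q = 0 := by
        apply Subtype.ext
        have h5 := Polynomial.hom_eval₂ q (algebraMap (PowerSeries k) (integralClosure (PowerSeries k) E))
          (algebraMap (integralClosure (PowerSeries k) E) E) bx
        change algebraMap (integralClosure (PowerSeries k) E) E _ = 0
        rw [h5]
        have h6 : (algebraMap (integralClosure (PowerSeries k) E) E) bx = x := hbx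
        rw [h6]
        exact h
      rw [h4, map_zero]
    have hint : IsIntegral k (IsLocalRing.residue (integralClosure (PowerSeries k) E) bx) := by
      refine ⟨q.map (PowerSeries.constantCoeff (R := k)), hq.map _, ?_⟩
      rw [Polynomial.eval₂_map]
      change Polynomial.eval₂ ((θ.comp (PowerSeries.C (R := k))).comp (PowerSeries.constantCoeff (R := k))) _ q = 0
      rw [← hθc]
      exact h3
    obtain ⟨c, hc⟩ := minpoly.mem_range_of_degree_eq_one k _
      (IsAlgClosed.degree_eq_one_of_irreducible k (minpoly.irreducible hint))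
    have hoC : o (HahnSeries.C c) = ((algebraMap (PowerSeries k) (integralClosure (PowerSeries k) E)
        (PowerSeries.C c) : integralClosure (PowerSeries k) E) : E) := by
      change _ = o (HahnSeries.ofPowerSeries ℤ k (PowerSeries.C c))
      rw [HahnSeries.ofPowerSeries_C]
    refine ⟨c, ?_, ?_⟩
    · rw [hoC, ← hbx]
      exact sub_mem bx.2 (Subtype.prop _)
    · intro y hy h7
      have h8 : IsLocalRing.residue (integralClosure (PowerSeries k) E)
          (bx - algebraMap (PowerSeries k) (integralClosure (PowerSeries k) E) (PowerSeries.C c)) = 0 := by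
        rw [map_sub, ← hc]
        change (θ.comp (PowerSeries.C (R := k))) c - _ = 0
        rw [hθ]
        exact sub_self _
      rw [IsLocalRing.residue_eq_zero_iff] at h8
      refine h8 (isUnit_iff_exists_inv.2 ⟨⟨y, hy⟩, Subtype.ext ?_⟩)
      change ((bx : E) - ((algebraMap (PowerSeries k) (integralClosure (PowerSeries k) E)
        (PowerSeries.C c) : integralClosure (PowerSeries k) E) : E)) * y = 1
      rw [hbx, ← hoC]
      exact h7
  · intro x
    have h1 : IsAlgebraic (LaurentSeries k) x := Algebra.IsAlgebraic.isAlgebraic x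
    have h2 : IsAlgebraic (PowerSeries k) x :=
      (IsFractionRing.isAlgebraic_iff (PowerSeries k) (LaurentSeries k) E).2 h1
    obtain ⟨y, hy0, hy⟩ := h2.exists_integral_multiple
    obtain ⟨N, u, hu⟩ := IsDiscreteValuationRing.eq_unit_mul_pow_irreducible hy0
      (PowerSeries.X_prime (R := k)).irreducible
    refine ⟨N, ?_⟩
    have h3 : o (HahnSeries.single (N : ℤ) (1 : k)) * x =
        algebraMap (PowerSeries k) E (((u⁻¹ : (PowerSeries k)ˣ) : PowerSeries k)) * (y • x) := by
      rw [Algebra.smul_def, hu, ← mul_assoc, ← map_mul, Units.inv_mul_cancel_left]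
      change _ = o (HahnSeries.ofPowerSeries ℤ k (PowerSeries.X ^ N)) * x
      rw [HahnSeries.ofPowerSeries_X_pow]
    rw [h3]
    exact (integralClosure (PowerSeries k) E).mul_mem (hps _) hy

end main

theorem exists_VR {p : ℕ} [hp : Fact p.Prime] {k : Type} [Field k] [IsAlgClosed k] [CharP k p]
    {P : Type} [Group P] [Fintype P] (hP : IsPGroup p P) (S : SC k[X] P) (hT : TC p S) :
    Nonempty (VR S) := by
  have hF := isField_El hP S hT
  let _ : Field (El S) := hF.toField
  have hfix : ∀ u c, actE S u (oE S c) = oE S c := fun u c => Al.act_cst _ u c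
  have hb : ∀ x : El S, ∃ c : P → LaurentSeries k, x = ∑ l, oE S (c l) * Al.e (S.map (AI.zinv k)) l :=
    fun x => ⟨x, Al.eq_sum _ x⟩
  obtain ⟨V, h1, h2, h3, h4, h5, h6⟩ := R1_abs (E := El S) (oE S) (actE S) hfix
    (fun x hx => fixedE S x hx) P (fun l => Al.e (S.map (AI.zinv k)) l) hb
    (fun B hB M M' hM hM' => integral_local hP S hT B hB M M' hM hM')
  exact ⟨⟨V, h1, h2, h3, h4, fun x hx => h5 x hx, h6⟩⟩

end

end Pool.Agent.MP_1c8e06_ag.AJ
end
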