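import Pool.Agent.Lib.MP_1c8e06_ag.Mg.G067
import Pool.Agent.Lib.MP_1c8e06_ag.Mg.G058
import Pool.Agent.Lib.MP_1c8e06_ag.Mg.G061
import Pool.Agent.Lib.MP_1c8e06_ag.Mg.G057

section

set_option autoImplicit false

namespace Pool.Agent.MP_1c8e06_ag.BT

variable {G : Type} [Group G]

namespace BEnv

/-!
# Task B6: all pairs are full, and there is an edge

By `om_phi` every `Z ∈ Om` has a `T_Z` with `Full s Z T_Z`, `T_Z ≤ K ⊓ Y`.
`full_pair`: let `A ≠ B` in `Om`, `A = cj g Y` (`om_trans`), `B' = cj g⁻¹ B ∈ Om`, `B' ≠ Y`.  `T_{B'} ≤ Y ≠ ⊤`,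
`¬ Y ≤ B'` (coatoms), so `T_{B'} = col Y B'` (`full_eq`): `Full s B' (col Y B')`; conjugate with `g`
(`full_cj`, `cj_col`).
`exists_edge`: Case `K ∈ Om`: `Y' = K`; for `Z ≠ Y, K` in `Om`: `T_Z ≤ Y`, `T_Z ≤ K`, so `T_Z = col Y Z` and
`T_Z = col K Z` (`full_eq`, coatoms).  Case `K ∉ Om`: `exists_move` with `W = K ⊓ Y`, `H = K` gives `n ∈ K`,
`n ∉ K ⊓ Y` (so `n ∉ Y`) with `cj n EE = EE`, `EE = sSup {T | ∃ Z, Z ≠ K ∧ Full s Z T ∧ T ≤ K ⊓ Y}`.
`Y' := cj n Y ∈ Om`, `Y' ≠ Y` (`cj_om_iff`).  For `Z ∈ Om`: `Z ≠ K`, `T_Z ≤ EE = cj n EE ≤ cj n (K ⊓ Y) ≤ Y'`.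
For `Z ≠ Y, Y'`: `T_Z = col Y Z` and `T_Z = col Y' Z` by `full_eq`.
-/
theorem full_pair [Finite G] (E : BEnv G) {s : ℕ} (hs : E.Max s) {Y S K : Subgroup G}
    (hS : E.Full s Y S) (hK : IsCoatom K) (hKY : K ≠ Y) (hSK : S ≤ K)
    (hmax : ∀ L : Subgroup G, L ≠ ⊤ → K ⊓ Y ≤ L → ¬ L ≤ Y → L ⊓ Y = K ⊓ Y)
    {A B : Subgroup G} (hA : A ∈ E.Om) (hB : B ∈ E.Om) (hAB : A ≠ B) :
    E.Full s B (col E.X E.v A B) := by
  have hY : Y ∈ E.Om := E.full_om hS
  obtain ⟨g, hg⟩ := E.om_trans hY hA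
  have hB' : cj g⁻¹ B ∈ E.Om := E.om_cj hB g⁻¹
  have hne : Y ≠ cj g⁻¹ B := by
    intro h
    apply hAB
    rw [hg, h, cj_cj_inv]
  obtain ⟨T, hT, hTW⟩ := E.om_phi hs hS hK hKY hSK hmax hB'
  have hTY : T ≤ Y := hTW.trans inf_le_right
  have hT2 := E.full_eq hs hT (E.om_coatom hY).1 hTY
    (not_le_of_coatom (E.om_coatom hY) (E.om_coatom hB') hne)
  have h1 := E.full_cj hT g
  rw [hT2, cj_col, cj_cj_inv, ← hg] at h1
  exact h1

theorem exists_edge [Finite G] (E : BEnv G) {s : ℕ} (hs : E.Max s) {Y S K : Subgroup G}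
    (hS : E.Full s Y S) (hK : IsCoatom K) (hKY : K ≠ Y) (hSK : S ≤ K)
    (hmax : ∀ L : Subgroup G, L ≠ ⊤ → K ⊓ Y ≤ L → ¬ L ≤ Y → L ⊓ Y = K ⊓ Y) :
    ∃ Y' ∈ E.Om, Y' ≠ Y ∧ ∀ Z ∈ E.Om, Z ≠ Y → Z ≠ Y' →
      col E.X E.v Y Z = col E.X E.v Y' Z := by
  have hY : Y ∈ E.Om := E.full_om hS
  have hYc : IsCoatom Y := E.om_coatom hY
  by_cases hKO : K ∈ E.Om
  · refine ⟨K, hKO, hKY, ?_⟩
    intro Z hZ hZY hZK
    obtain ⟨T, hT, hTW⟩ := E.om_phi hs hS hK hKY hSK hmax hZ
    have h1 := E.full_eq hs hT hYc.1 (hTW.trans inf_le_right)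
      (not_le_of_coatom hYc (E.om_coatom hZ) (Ne.symm hZY))
    have h2 := E.full_eq hs hT hK.1 (hTW.trans inf_le_left)
      (not_le_of_coatom hK (E.om_coatom hZ) (Ne.symm hZK))
    rw [← h1, ← h2]
  · have hne : K ⊓ Y ≠ K := by
      intro h
      exact not_le_of_coatom hK hYc hKY (inf_eq_left.mp h)
    obtain ⟨n, hnK, hnW, -, hEE⟩ := E.exists_move hs hK (inf_le_left : K ⊓ Y ≤ K) hne
    have hnY : n ∉ Y := fun h => hnW ⟨hnK, h⟩
    have hY' : cj n Y ∈ E.Om := E.om_cj hY n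
    have hY'ne : cj n Y ≠ Y := fun h => hnY ((E.cj_om_iff hY n).mp h)
    refine ⟨cj n Y, hY', hY'ne, ?_⟩
    intro Z hZ hZY hZY'
    obtain ⟨T, hT, hTW⟩ := E.om_phi hs hS hK hKY hSK hmax hZ
    have hZK : Z ≠ K := fun h => hKO (h ▸ hZ)
    have h1 := E.full_eq hs hT hYc.1 (hTW.trans inf_le_right)
      (not_le_of_coatom hYc (E.om_coatom hZ) (Ne.symm hZY))
    have hTE : T ≤ sSup {T : Subgroup G | ∃ Z, Z ≠ K ∧ E.Full s Z T ∧ T ≤ K ⊓ Y} :=
      le_sSup ⟨Z, hZK, hT, hTW⟩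
    have hEW : sSup {T : Subgroup G | ∃ Z, Z ≠ K ∧ E.Full s Z T ∧ T ≤ K ⊓ Y} ≤ K ⊓ Y := by
      apply sSup_le
      rintro S' ⟨_, _, _, h⟩
      exact h
    have hTY' : T ≤ cj n Y := by
      refine hTE.trans ?_
      rw [← hEE]
      exact (cj_mono hEW).trans (cj_mono inf_le_right)
    have h2 := E.full_eq hs hT (E.om_coatom hY').1 hTY'
      (not_le_of_coatom (E.om_coatom hY') (E.om_coatom hZ) (Ne.symm hZY'))
    rw [← h1, ← h2]

end BEnv

end Pool.Agent.MP_1c8e06_ag.BT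
end

section

set_option autoImplicit false

namespace Pool.Agent.MP_1c8e06_ag.BT

variable {G : Type} [Group G]

namespace BEnv

/-!
# Task B8: the contradiction

Take `s` by `exists_max`, `Y, S, K` by `exists_W`, `Y'` by `exists_edge`; `Y ∈ Om` (`full_om`).  Let
`r A B := ∃ g, (A = cj g Y ∧ B = cj g Y') ∨ (A = cj g Y' ∧ B = cj g Y)` on `V = ↥E.Om` (a finite type).  `r` is
symmetric and invariant under conjugation.
Connected: `H = {g | ReflTransGen r Y (cj g Y)}` is a subgroup (if `Y → cj g Y` and `Y → cj h Y` then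
`cj g Y → cj g (cj h Y) = cj (g h) Y` by invariance; inverses by symmetry), it contains `Y` (`cj_eq_self`) and an
element `g'` with `cj g' Y = Y'`, `g' ∉ Y` (`cj_eq_self`, `Y' ≠ Y`), so `H = ⊤` because `Y` is a coatom.  With
`om_trans` all of `Om` is reachable from `Y`.
For an edge `r A B` and `Z ∈ Om`, `Z ≠ A, B`: `col A Z = col B Z` (conjugate the statement of `exists_edge` by
`g`, using `cj_col`, `om_cj`, `cj_inj`).
`graph_lemma` gives `z ∈ Om` such that `Om \ {z}` is connected by edges avoiding `z`; so `A ↦ col A z` is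
constant on `Om \ {z}`.  Take `A ∈ Om`, `A ≠ z` (one of `Y`, `Y'`), `T = col A z`; `Full s z T` (`full_pair`).
For `u ∈ z`: `cj u T = col (cj u A) (cj u z) = col (cj u A) z = T` (`cj u A ≠ cj u z = z`).  `T ≤ z` (`full_le`),
so `SN T z` (`SN.of_normal`), contradiction to `full_not_sn`.
-/
theorem contradiction [Finite G] (E : BEnv G) : False := by
  obtain ⟨s, hs, hf⟩ := E.exists_max
  obtain ⟨Y, S, K, hS, hK, hKY, hSK, hmax⟩ := E.exists_W hf
  obtain ⟨Y', hY'om, hY'Y, hedge⟩ := E.exists_edge hs hS hK hKY hSK hmax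
  have hYom : Y ∈ E.Om := E.full_om hS
  have hYc : IsCoatom Y := E.om_coatom hYom
  let r : E.Om → E.Om → Prop := fun A B => ∃ g : G,
    ((A : Subgroup G) = cj g Y ∧ (B : Subgroup G) = cj g Y') ∨
      ((A : Subgroup G) = cj g Y' ∧ (B : Subgroup G) = cj g Y)
  have rsymm : ∀ A B, r A B → r B A := by
    rintro A B ⟨g, h | h⟩
    · exact ⟨g, Or.inr ⟨h.2, h.1⟩⟩
    · exact ⟨g, Or.inl ⟨h.2, h.1⟩⟩
  let act : G → E.Om → E.Om := fun g A => ⟨cj g A, E.om_cj A.2 g⟩
  have ract : ∀ g : G, ∀ A B, r A B → r (act g A) (act g B) := by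
    rintro g A B ⟨a, h | h⟩
    · refine ⟨g * a, Or.inl ⟨?_, ?_⟩⟩
      · change cj g A = cj (g * a) Y
        rw [h.1, cj_mul]
      · change cj g B = cj (g * a) Y'
        rw [h.2, cj_mul]
    · refine ⟨g * a, Or.inr ⟨?_, ?_⟩⟩
      · change cj g A = cj (g * a) Y'
        rw [h.1, cj_mul]
      · change cj g B = cj (g * a) Y
        rw [h.2, cj_mul]
  have rtact : ∀ g : G, ∀ A B, Relation.ReflTransGen r A B →
      Relation.ReflTransGen r (act g A) (act g B) := by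
    intro g A B h
    induction h with
    | refl => exact Relation.ReflTransGen.refl
    | tail _ hbc ih => exact ih.tail (ract g _ _ hbc)
  have rtsymm : ∀ A B, Relation.ReflTransGen r A B → Relation.ReflTransGen r B A := by
    intro A B h
    induction h with
    | refl => exact Relation.ReflTransGen.refl
    | tail _ hbc ih => exact Relation.ReflTransGen.head (rsymm _ _ hbc) ih
  have act_mul : ∀ (a b : G) (A : E.Om), act (a * b) A = act a (act b A) := fun a b A =>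
    Subtype.ext (cj_mul a b (A : Subgroup G))
  have act_one : ∀ A : E.Om, act 1 A = A := fun A => Subtype.ext (cj_one (A : Subgroup G))
  let y0 : E.Om := ⟨Y, hYom⟩
  let H : Subgroup G :=
    { carrier := {g | Relation.ReflTransGen r y0 (act g y0)}
      mul_mem' := by
        intro a b ha hb
        have ha' : Relation.ReflTransGen r y0 (act a y0) := ha
        have hb' : Relation.ReflTransGen r y0 (act b y0) := hb
        change Relation.ReflTransGen r y0 (act (a * b) y0)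
        rw [act_mul]
        exact ha'.trans (rtact a _ _ hb')
      one_mem' := by
        change Relation.ReflTransGen r y0 (act 1 y0)
        rw [act_one]
      inv_mem' := by
        intro a ha
        have ha' : Relation.ReflTransGen r y0 (act a y0) := ha
        change Relation.ReflTransGen r y0 (act a⁻¹ y0)
        have h1 := rtact a⁻¹ _ _ ha'
        rw [← act_mul, inv_mul_cancel, act_one] at h1
        exact rtsymm _ _ h1 }
  have hYH : Y ≤ H := by
    intro g hg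
    change Relation.ReflTransGen r y0 (act g y0)
    have h1 : act g y0 = y0 := Subtype.ext (cj_eq_self hg)
    rw [h1]
  obtain ⟨g', hg'⟩ := E.om_trans hYom hY'om
  have hg'H : g' ∈ H := by
    change Relation.ReflTransGen r y0 (act g' y0)
    refine Relation.ReflTransGen.single ⟨1, Or.inl ⟨?_, ?_⟩⟩
    · rw [cj_one]
    · rw [cj_one, hg']
  have hg'Y : g' ∉ Y := by
    intro h1
    apply hY'Y
    rw [hg', cj_eq_self h1]
  have hHtop : H = ⊤ := by
    refine hYc.2 H (lt_of_le_of_ne hYH ?_)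
    intro h1
    apply hg'Y
    rw [h1]
    exact hg'H
  have hreach : ∀ A : E.Om, Relation.ReflTransGen r y0 A := by
    intro A
    obtain ⟨g, hg⟩ := E.om_trans hYom A.2
    have h1 : g ∈ H := by
      rw [hHtop]
      exact Subgroup.mem_top g
    have h2 : Relation.ReflTransGen r y0 (act g y0) := h1
    have h3 : act g y0 = A := Subtype.ext hg.symm
    rwa [h3] at h2
  have hconn : ∀ A B : E.Om, Relation.ReflTransGen r A B := fun A B =>
    (rtsymm _ _ (hreach A)).trans (hreach B)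
  let y1 : E.Om := ⟨Y', hY'om⟩
  have hy01 : y0 ≠ y1 := fun h1 => hY'Y (congrArg Subtype.val h1).symm
  have : Finite (Subgroup G) := inferInstance
  obtain ⟨z, hz⟩ := graph_lemma r rsymm hconn ⟨y0, y1, hy01⟩
  have hcol : ∀ A B : E.Om, r A B → A ≠ z → B ≠ z →
      col E.X E.v A z = col E.X E.v B z := by
    have key : ∀ g : G, (z : Subgroup G) ≠ cj g Y → (z : Subgroup G) ≠ cj g Y' →
        col E.X E.v (cj g Y) z = col E.X E.v (cj g Y') z := by
      intro g h1 h2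
      have h3 := hedge (cj g⁻¹ z) (E.om_cj z.2 g⁻¹) ?_ ?_
      · have h4 := congrArg (cj g) h3
        rw [E.cj_col, E.cj_col, cj_cj_inv] at h4
        exact h4
      · intro h4
        apply h1
        rw [← h4, cj_cj_inv]
      · intro h4
        apply h2
        rw [← h4, cj_cj_inv]
    rintro A B ⟨g, h | h⟩ hA hB
    · have hA' : (z : Subgroup G) ≠ cj g Y := fun h1 => hA (Subtype.ext (h.1.trans h1.symm))
      have hB' : (z : Subgroup G) ≠ cj g Y' := fun h1 => hB (Subtype.ext (h.2.trans h1.symm))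
      rw [h.1, h.2]
      exact key g hA' hB'
    · have hA' : (z : Subgroup G) ≠ cj g Y' := fun h1 => hA (Subtype.ext (h.1.trans h1.symm))
      have hB' : (z : Subgroup G) ≠ cj g Y := fun h1 => hB (Subtype.ext (h.2.trans h1.symm))
      rw [h.1, h.2]
      exact (key g hB' hA').symm
  have hconst : ∀ A B : E.Om, A ≠ z → B ≠ z → col E.X E.v A z = col E.X E.v B z := by
    intro A B hA hB
    have h1 := hz A B hA hB
    clear hB
    induction h1 with
    | refl => rfl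
    | tail _ hbc ih => exact ih.trans (hcol _ _ hbc.1 hbc.2.1 hbc.2.2)
  obtain ⟨A, hAz⟩ : ∃ A : E.Om, A ≠ z := by
    by_cases h1 : y0 = z
    · exact ⟨y1, fun h2 => hy01 (h1.trans h2.symm)⟩
    · exact ⟨y0, h1⟩
  have hfull : E.Full s z (col E.X E.v A z) :=
    E.full_pair hs hS hK hKY hSK hmax A.2 z.2 fun h1 => hAz (Subtype.ext h1)
  refine E.full_not_sn hfull (SN.step _ _ _ (E.full_le hfull) ?_ (SN.refl _))
  intro u hu
  rw [E.cj_col, cj_eq_self hu]
  refine hconst (act u A) A ?_ hAz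
  intro h1
  apply hAz
  have h2 : cj u (A : Subgroup G) = z := congrArg Subtype.val h1
  have h3 : cj u (A : Subgroup G) = cj u z := by rw [h2, cj_eq_self hu]
  exact Subtype.ext (cj_inj.1 h3)

end BEnv

end Pool.Agent.MP_1c8e06_ag.BT
end
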