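import Pool.Agent.Lib.MP_1c8e06_ag.Mg.G069
import Pool.Agent.Lib.MP_1c8e06_ag.Mg.G068

section

set_option autoImplicit false

namespace Pool.Agent.MP_1c8e06_ag.BT

variable {G : Type} [Group G]

/-!
# Task BTm: Bartels' theorem (for conjugacy classes of elements)

Strong induction on `Nat.card G` (generalising `G`, `x`).  Suppose `MM x ≠ ⊤`.  Hypothesis `H1` of `exists_env` with
`x0 = x`: let `L ≠ ⊤`, `y ∈ L`, `L ≤ clo y L`.  Apply the induction hypothesis to the group `↥L`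
(`Nat.card L < Nat.card G`) and `⟨y, _⟩`: `clo ⟨y, _⟩ ⊤ = ⊤` in `↥L` because `(clo ⟨y,_⟩ ⊤).map L.subtype ⊇ clo y L`
(`Subgroup.map_closure` / closure induction).  So `MM (⟨y, _⟩ : L) = ⊤`, and
`(MM (⟨y, _⟩ : L)).map L.subtype ≤ MM y`: a generator `z = k y k⁻¹` with `k ∈ closure {y, z}` in `↥L` is mapped to
the corresponding one in `G` (`Subgroup.map_closure`: the image of `closure {y, z}` is `closure {↑y, ↑z}`).  Hence
`L ≤ MM y`.  `exists_env` and `BEnv.contradiction` finish.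
-/
theorem bartels (n : ℕ) : ∀ {G : Type} [Group G] [Finite G], Nat.card G = n → ∀ x : G,
    clo x ⊤ = ⊤ → MM x = ⊤ := by
  induction n using Nat.strong_induction_on with
  | _ n ih =>
    intro G _ _ hn x hx
    by_contra hne
    refine (exists_env x hx (fun L hL y hy _ hLy => ?_) hne).elim fun E => E.contradiction
    have hcard : Nat.card L < n := by
      rw [← hn]
      exact lt_of_le_of_ne (Subgroup.card_le_card_group L)
        (fun h => hL (Subgroup.eq_top_of_card_eq L h))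
    have h1 : clo (⟨y, hy⟩ : L) ⊤ = ⊤ := by
      refine eq_top_iff.2 fun z _ => ?_
      have h3 : clo y L ≤ (clo (⟨y, hy⟩ : L) ⊤).map L.subtype := by
        rw [clo, Subgroup.closure_le]
        rintro _ ⟨a, ha, rfl⟩
        exact ⟨⟨a, ha⟩ * ⟨y, hy⟩ * ⟨a, ha⟩⁻¹,
          Subgroup.subset_closure ⟨⟨a, ha⟩, Subgroup.mem_top _, rfl⟩, rfl⟩
      obtain ⟨w, hw, hwz⟩ := h3 (hLy z.2)
      have h4 : w = z := Subtype.ext hwz
      rw [← h4]
      exact hw
    have h2 : MM (⟨y, hy⟩ : L) = ⊤ := ih (Nat.card L) hcard rfl ⟨y, hy⟩ h1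
    have h3 : MM (⟨y, hy⟩ : L) ≤ (MM y).comap L.subtype := by
      rw [MM, Subgroup.closure_le]
      rintro z ⟨k, hk, hz⟩
      have h5 : Subgroup.closure ({(⟨y, hy⟩ : L), z} : Set L) ≤
          (Subgroup.closure ({y, (z : G)} : Set G)).comap L.subtype := by
        rw [Subgroup.closure_le]
        rintro t (rfl | rfl)
        · exact Subgroup.subset_closure (Set.mem_insert _ _)
        · exact Subgroup.subset_closure (Set.mem_insert_of_mem _ rfl)
      exact Subgroup.subset_closure ⟨(k : G), h5 hk, congrArg (fun t : L => (t : G)) hz⟩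
    intro z hz
    have h4 : (⟨z, hz⟩ : L) ∈ MM (⟨y, hy⟩ : L) := by
      rw [h2]
      exact Subgroup.mem_top _
    exact h3 h4

end Pool.Agent.MP_1c8e06_ag.BT
end

section

set_option autoImplicit false

namespace Pool.Agent.MP_1c8e06_ag.BT

variable {G : Type} [Group G]

/-!
# Task GT: involutions

`odd_pair`: let `x² = 1` and `y = k x k⁻¹` with `k ∈ closure {x, y}`.  Put `c = y x`.  Then `x c x = x y = c⁻¹`
(`y² = 1`), `y = c x`.  Every element of `closure {x, y}` is `c ^ i` or `c ^ i * x` (`i : ℤ`): closure induction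
(`x = c^0 x`, `y = c x`, `x c^i = c^{-i} x`).  So `y = c^i x c^{-i} = c^{2i} x` in both cases (`x x x = x`), hence
`c = c^{2 i}`, `c ^ (2 i - 1) = 1`, and the order `r` of `c` is odd (`orderOf_dvd_iff_zpow_eq_one`).  `a = c ^ ((r + 1) / 2)`:
`a * a = c ^ (r + 1) = c`, `x a x = a⁻¹`, `a x a⁻¹ = a a x = c x = y`.  `orderOf a ∣ r` is odd.  `x^i a x^{-i}` is
`a` or `a⁻¹`, so it commutes with `a`.
-/
theorem odd_pair {x y k : G} (hx : x * x = 1) (hk : k ∈ Subgroup.closure ({x, y} : Set G))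
    (hy : y = k * x * k⁻¹) :
    ∃ a : G, ¬ 2 ∣ orderOf a ∧ (∀ i : ℕ, Commute a (x ^ i * a * (x ^ i)⁻¹)) ∧ y = a * x * a⁻¹ := by
  have hxi : x⁻¹ = x := inv_eq_of_mul_eq_one_right hx
  have hyy : y * y = 1 := by
    rw [hy]
    calc k * x * k⁻¹ * (k * x * k⁻¹) = k * (x * x) * k⁻¹ := by group
      _ = 1 := by rw [hx]; group
  have hyi : y⁻¹ = y := inv_eq_of_mul_eq_one_right hyy
  obtain ⟨c, hc⟩ : ∃ c, c = y * x := ⟨_, rfl⟩
  have hcx : c * x = y := by rw [hc, mul_assoc, hx, mul_one]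
  have hconj : x * c * x⁻¹ = c⁻¹ := by
    rw [hc, mul_inv_rev, hyi, hxi, mul_assoc, mul_assoc, hx, mul_one]
  have hxc : ∀ j : ℤ, x * c ^ j = c ^ (-j) * x := by
    intro j
    have h1 : x * c ^ j * x⁻¹ = c ^ (-j) := by
      rw [← conj_zpow, hconj, inv_zpow, zpow_neg]
    rw [← h1]
    group
  have hP : ∀ z ∈ Subgroup.closure ({x, y} : Set G), ∃ i : ℤ, z = c ^ i ∨ z = c ^ i * x := by
    intro z hz
    induction hz using Subgroup.closure_induction with
    | mem z hz =>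
      rcases hz with rfl | hz
      · exact ⟨0, Or.inr (by rw [zpow_zero, one_mul])⟩
      · rw [Set.mem_singleton_iff] at hz
        exact ⟨1, Or.inr (by rw [zpow_one, hcx, hz])⟩
    | one => exact ⟨0, Or.inl (zpow_zero c).symm⟩
    | mul a b _ _ ha hb =>
      obtain ⟨i, hi⟩ := ha
      obtain ⟨j, hj⟩ := hb
      rcases hi with rfl | rfl <;> rcases hj with rfl | rfl
      · exact ⟨i + j, Or.inl (zpow_add c i j).symm⟩
      · exact ⟨i + j, Or.inr (by rw [zpow_add, mul_assoc])⟩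
      · exact ⟨i + -j, Or.inr (by rw [mul_assoc, hxc, zpow_add, mul_assoc])⟩
      · refine ⟨i + -j, Or.inl ?_⟩
        rw [zpow_add, mul_assoc, ← mul_assoc x, hxc, mul_assoc (c ^ (-j)), hx, mul_one]
    | inv a _ ha =>
      obtain ⟨i, hi⟩ := ha
      rcases hi with rfl | rfl
      · exact ⟨-i, Or.inl (zpow_neg c i).symm⟩
      · refine ⟨i, Or.inr ?_⟩
        rw [mul_inv_rev, hxi, ← zpow_neg, hxc, neg_neg]
  obtain ⟨i, hi⟩ := hP k hk
  have hyc : y = c ^ (2 * i) * x := by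
    have h1 : c ^ i * x * (c ^ i)⁻¹ = c ^ (2 * i) * x := by
      rw [← zpow_neg, mul_assoc, hxc, neg_neg, ← mul_assoc, ← zpow_add, two_mul]
    rcases hi with rfl | rfl
    · rw [hy, h1]
    · rw [hy, ← h1, mul_inv_rev, hxi]
      calc c ^ i * x * x * (x * (c ^ i)⁻¹) = c ^ i * (x * x) * (x * (c ^ i)⁻¹) := by group
        _ = c ^ i * x * (c ^ i)⁻¹ := by rw [hx, mul_one, mul_assoc]
  have hc1 : c ^ (2 * i - 1) = 1 := by
    have h1 : c * x = c ^ (2 * i) * x := hcx.trans hyc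
    have h2 : c = c ^ (2 * i) := mul_right_cancel h1
    rw [zpow_sub, zpow_one, ← h2, mul_inv_cancel]
  have hdvd : (orderOf c : ℤ) ∣ 2 * i - 1 := orderOf_dvd_iff_zpow_eq_one.2 hc1
  have hodd : ¬ 2 ∣ orderOf c := by
    intro h2
    have h3 : (2 : ℤ) ∣ 2 * i - 1 := (Int.natCast_dvd_natCast.2 h2).trans hdvd
    omega
  have hr : 2 * ((orderOf c + 1) / 2) = orderOf c + 1 := by omega
  have haa : c ^ ((orderOf c + 1) / 2) * c ^ ((orderOf c + 1) / 2) = c := by
    rw [← pow_add, ← two_mul, hr, pow_succ, pow_orderOf_eq_one, one_mul]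
  have hxa : x * c ^ ((orderOf c + 1) / 2) * x⁻¹ = (c ^ ((orderOf c + 1) / 2))⁻¹ := by
    rw [← conj_pow, hconj, inv_pow]
  refine ⟨c ^ ((orderOf c + 1) / 2), fun h => hodd (h.trans (orderOf_pow_dvd _)), fun n => ?_, ?_⟩
  · rcases Nat.even_or_odd' n with ⟨m, rfl | rfl⟩
    · have h1 : x ^ (2 * m) = 1 := by rw [pow_mul, pow_two, hx, one_pow]
      rw [h1, one_mul, inv_one, mul_one]
    · have h1 : x ^ (2 * m + 1) = x := by rw [pow_succ, pow_mul, pow_two, hx, one_pow, one_mul]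
      rw [h1, hxa]
      exact (Commute.refl _).inv_right
  · have h1 : x * (c ^ ((orderOf c + 1) / 2))⁻¹ = c ^ ((orderOf c + 1) / 2) * x := by
      have h2 := hxc (-(((orderOf c + 1) / 2 : ℕ) : ℤ))
      rw [neg_neg, zpow_neg, zpow_natCast] at h2
      exact h2
    rw [mul_assoc, h1, ← mul_assoc, haa, hcx]

theorem gen_two [Finite G] (g : G) (hg : orderOf g = 2) (h : Subgroup.normalClosure ({g} : Set G) = ⊤) :
    Subgroup.closure ({g} ∪ {x | ∃ a : G, ¬ 2 ∣ orderOf a ∧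
      (∀ i : ℕ, Commute a (g ^ i * a * (g ^ i)⁻¹)) ∧ x = a * g * a⁻¹}) = ⊤ := by
  have hg2 : g * g = 1 := by
    rw [← pow_two, ← hg, pow_orderOf_eq_one]
  have hle : Subgroup.normalClosure ({g} : Set G) ≤ clo g ⊤ := by
    refine Subgroup.closure_mono ?_
    intro y hy
    rw [Group.mem_conjugatesOfSet_iff] at hy
    obtain ⟨a, ha, hay⟩ := hy
    rw [Set.mem_singleton_iff] at ha
    subst ha
    obtain ⟨b, hb⟩ := isConj_iff.1 hay
    exact ⟨b, Subgroup.mem_top b, hb.symm⟩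
  have hclo : clo g ⊤ = ⊤ := by
    rw [h] at hle
    exact eq_top_iff.2 hle
  have hM := bartels (Nat.card G) rfl g hclo
  rw [eq_top_iff, ← hM]
  refine (Subgroup.closure_le _).2 ?_
  rintro y ⟨k, hk, hy⟩
  exact Subgroup.subset_closure (Or.inr (odd_pair hg2 hk hy))

end Pool.Agent.MP_1c8e06_ag.BT
end
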