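import Pool.Agent.Lib.MP_1c8e06_ag.Mg.G051
import Pool.Agent.Lib.MP_1c8e06_ag.AJ.Defs7
import Pool.Agent.Lib.MP_1c8e06_ag.Mg.G090
import Pool.Agent.Lib.MP_1c8e06_ag.Mg.G098
import Pool.Agent.Lib.MP_1c8e06_ag.AI.FIN
import Pool.Agent.Lib.MP_1c8e06_ag.Mg.G070

section

set_option autoImplicit false

open Polynomial
open scoped Classical

namespace Pool.Agent.MP_1c8e06_ag.AJ

noncomputable section

/-!
# Task X0: types for groups of order `p`

Proof.  `exists_ASG` (`AJ/C5.lean`) over the trivial group: `P' := Unit`-like group with one element (e.g.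
`Multiplicative (ZMod 1)`, or `PUnit`), `S' := SC.triv k[X] P'`, `q := 1`.  Every `u : P` is `u₀ ^ n`; choose such an
`n` and let `v u : ZMod p` be its class; `v (u * u') = v u + v u'` and `v u₀ = 1` because `orderOf u₀ = p`
(`pow_eq_pow_iff_modEq`, `ZMod.natCast_eq_natCast_iff`).  `a u := zc (Al S') (v u)` (`zc_add`, `map_zc`, `zc_one`, with
`charP_Al S'`), `b := Al.cst S' F`; `a u ^ p - a u = 0` (`zc_pow`), `Al.act_cst`.  This gives `S, Φ`.
`y := Φ.symm (AS.rt p b)`: `y ^ p - y = cst F` (`AS.rt_eq`), `act u₀ y = y + 1` (the last conclusion of `exists_ASG` with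
`σ := AS.aff (charP_Al S') (Al.act S' (q u₀)) (a u₀) _`).
`TC p S`: let `χ` be additive and nonzero, `c := χ u₀`; `χ (u₀ ^ n) = n * c`, so `c ≠ 0`.  `Y := zc (Al S) c * y`:
`act u Y = Y + zc (χ u)`: for `u = u₀ ^ n` `act u y = y + n` (induction), `zc c * n = zc (χ u)` (`zc_natCast`, `zc_mul`);
`Y ^ p - Y = zc c * (y ^ p - y) = cst (zc k[X] c * F)` (`zc_pow`, `map_zc`), and
`(zc k[X] c * F).natDegree = F.natDegree`: `zc k[X] c = C (zc k c)` (`map_zc`), `zc k c ≠ 0` (`zc k c * zc k c⁻¹ = 1`, or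
`CharP.cast_eq_zero_iff` and `ZMod.val_lt`), `natDegree_C_mul`.
-/

theorem exists_ASp {p : ℕ} [hp : Fact p.Prime] {k : Type} [Field k] [CharP k p] {P : Type}
    [Group P] [Fintype P] (u₀ : P) (hu : orderOf u₀ = p) (hgen : ∀ u : P, ∃ n : ℕ, u = u₀ ^ n)
    (F : k[X]) (hF : ¬ p ∣ F.natDegree) :
    ∃ S : SC k[X] P, TC p S ∧
      ∃ y : Al S, y ^ p - y = Al.cst S F ∧ Al.act S u₀ y = y + 1 := by
  have hp0 : NeZero p := ⟨hp.out.ne_zero⟩
  let S' : SC k[X] Unit := SC.triv k[X] Unit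
  have h0' : ((p : ℕ) : Al S') = 0 := charP_Al S'
  let v : P → ZMod p := fun u => (((hgen u).choose : ℕ) : ZMod p)
  have hv : ∀ n : ℕ, v (u₀ ^ n) = (n : ZMod p) := by
    intro n
    have h1 : u₀ ^ n = u₀ ^ ((hgen (u₀ ^ n)).choose) := (hgen (u₀ ^ n)).choose_spec
    rw [pow_eq_pow_iff_modEq, hu] at h1
    exact ((ZMod.natCast_eq_natCast_iff _ _ _).2 h1).symm
  have hvadd : ∀ u w, v (u * w) = v u + v w := by
    intro u w
    obtain ⟨m, rfl⟩ := hgen u
    obtain ⟨n, rfl⟩ := hgen w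
    rw [← pow_add, hv, hv, hv, Nat.cast_add]
  have hv1 : v u₀ = 1 := by
    have h := hv 1
    rw [pow_one, Nat.cast_one] at h
    exact h
  let a : P → Al S' := fun u => zc (Al S') (v u)
  have hb : ∀ u, Al.act S' ((1 : P →* Unit) u) (Al.cst S' F) =
      Al.cst S' F + (a u ^ p - a u) := by
    intro u
    have h1 : a u ^ p = a u := zc_pow h0' (v u)
    rw [Al.act_cst, h1, sub_self, add_zero]
  obtain ⟨S, Φ, hΦ, hact⟩ := exists_ASG (p := p) (1 : P →* Unit)
    (fun x => ⟨1, Subsingleton.elim _ _⟩) u₀ rfl hu (fun u _ => hgen u) S' a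
    (by
      intro u w
      change zc (Al S') (v (u * w)) = zc (Al S') (v u) + Al.act S' _ (zc (Al S') (v w))
      rw [map_zc, hvadd, zc_add h0'])
    (by
      change zc (Al S') (v u₀) = 1
      rw [hv1, zc_one]) (Al.cst S' F) hb
  have h0 : ((p : ℕ) : Al S) = 0 := charP_Al S
  obtain ⟨y, hydef⟩ : ∃ y : Al S, Φ y = AS.rt p (Al.cst S' F) :=
    ⟨Φ.symm (AS.rt p (Al.cst S' F)), Φ.apply_symm_apply _⟩
  have hyp : y ^ p - y = Al.cst S F := by
    apply Φ.injective
    rw [map_sub, map_pow, hydef, AS.rt_eq, hΦ]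
  have hy1 : Al.act S u₀ y = y + 1 := by
    apply Φ.injective
    have h1 := hact u₀ (AS.aff h0' (Al.act S' ((1 : P →* Unit) u₀)) (a u₀) (hb u₀))
      (fun c => AS.aff_of _ _ _ _ c) (AS.aff_rt _ _ _ _) y
    have h2 : a u₀ = 1 := by
      change zc (Al S') (v u₀) = 1
      rw [hv1, zc_one]
    rw [h1, hydef, AS.aff_rt, h2, map_one, map_add, map_one, hydef]
  have hyn : ∀ n : ℕ, Al.act S (u₀ ^ n) y = y + (n : Al S) := by
    intro n
    induction n with
    | zero =>
      rw [pow_zero, Al.act_one_apply, Nat.cast_zero, add_zero]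
    | succ n ih =>
      rw [pow_succ, Al.act_mul_apply, hy1, map_add, map_one, ih, Nat.cast_succ]
      ring
  refine ⟨S, ?_, y, hyp, hy1⟩
  intro χ hχ hne
  have hχ1 : χ 1 = 0 := by
    have h := hχ 1 1
    rw [mul_one] at h
    exact left_eq_add.1 h
  have hχn : ∀ n : ℕ, χ (u₀ ^ n) = (n : ZMod p) * χ u₀ := by
    intro n
    induction n with
    | zero => rw [pow_zero, hχ1, Nat.cast_zero, zero_mul]
    | succ n ih => rw [pow_succ, hχ, ih, Nat.cast_succ]; ring
  have hc : χ u₀ ≠ 0 := by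
    intro h
    obtain ⟨u, hu'⟩ := hne
    obtain ⟨n, rfl⟩ := hgen u
    apply hu'
    rw [hχn, h, mul_zero]
  have hkc : zc k (χ u₀) ≠ 0 := by
    intro h
    have h1 := zc_mul (A := k) (CharP.cast_eq_zero k p) (χ u₀) (χ u₀)⁻¹
    rw [mul_inv_cancel₀ hc, zc_one, h, zero_mul] at h1
    exact one_ne_zero h1
  refine ⟨zc (Al S) (χ u₀) * y, zc k[X] (χ u₀) * F, ?_, ?_, ?_⟩
  · have h1 : zc k[X] (χ u₀) = C (zc k (χ u₀)) := (map_zc C (χ u₀)).symm
    rw [h1, natDegree_C_mul hkc]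
    exact hF
  · intro u
    obtain ⟨n, rfl⟩ := hgen u
    have h1 : zc (Al S) (χ (u₀ ^ n)) = (n : Al S) * zc (Al S) (χ u₀) := by
      rw [hχn, zc_mul h0, zc_natCast h0]
    have h2 : (((χ (u₀ ^ n)).val : ℕ) : Al S) = (n : Al S) * zc (Al S) (χ u₀) := h1
    rw [map_mul, map_zc, hyn, h2]
    ring
  · rw [map_mul, map_zc, ← hyp, mul_pow, zc_pow h0]
    ring

end

end Pool.Agent.MP_1c8e06_ag.AJ
end

section

set_option autoImplicit false

open Polynomial
open scoped Classical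

namespace Pool.Agent.MP_1c8e06_ag.AJ

noncomputable section

/-!
# Task X1: the covers of campaign AI are covers in the new sense

`D : AI.WD p k G g F` (`AI/Defs.lean`: values in `AI.EE p F = k((s))[Y]/(Y^p - Y - F(1/s))`, `AI.ofL`, `AI.ze`, `AI.tau`, `AI.yy`).
Proof.  `exists_ASp`: `S`, `TC p S`, `y`.  Let `y' := Al.mapA S (AI.zinv k) y : El S`; `y' ^ p - y' = oE S (AI.zinv k F)`
(`Al.mapA_cst`) and `actE S u₀ y' = y' + 1` (`Al.mapA_act`).
`Θ : AI.EE p F →+* El S := AdjoinRoot.lift (oE S) y' _` (`AI.eval₂_asPoly`): `Θ (AI.ze p F f) = zeE S f`,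
`Θ (AI.tau p F a) = actE S u₀ (Θ a)` (`AdjoinRoot.ringHom_ext`; `actE S u₀ (oE S c) = oE S c`: `Al.act_cst`).
The data: `b l x := Θ (D.b l x)`, constants `⟨D.μ, D.α, D.ν, D.T, D.T'⟩`.  `hP`: for `u = u₀ ^ n`, `i u = g ^ n`, induction on
`n` with `D.hg`.  The others: apply `Θ` to the identities of `D` (as in `GD.push` in `AJ/Defs.lean`).
`Conn'`: `AI.EE p F` is a field (`AI.isDomain_EE`/`AI.irreducible_asPoly` in `AI/A5.lean`, `hF`) and `El S` is nontrivial
(`oE` is injective: `oE_injective`, `AJ/A4.lean`), so `Θ` is injective, and a locally constant `(f, c)` for the new data is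
locally constant for `D`.
-/

theorem re_of_WD {p : ℕ} [hp : Fact p.Prime] {k : Type} [Field k] [CharP k p] {G : Type} [Group G]
    [Fintype G] {g : G} {F : k[X]} (D : AI.WD p k G g F) (hF : ¬ p ∣ F.natDegree) (H : Subgroup G)
    (hD : D.Conn' H) {P : Type} [Group P] [Fintype P] (u₀ : P) (hu : orderOf u₀ = p)
    (hgen : ∀ u : P, ∃ n : ℕ, u = u₀ ^ n) (i : P →* G) (hi : i u₀ = g) : RE p k i H := by
  obtain ⟨S, hS, y, hy, hyu⟩ := exists_ASp u₀ hu hgen F hF
  have h1 : (Al.mapA S (AI.zinv k) y : El S) ^ p - Al.mapA S (AI.zinv k) y =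
      oE S (AI.zinv k F) := by
    rw [← map_pow, ← map_sub, hy, Al.mapA_cst]
    rfl
  have h2 : actE S u₀ (Al.mapA S (AI.zinv k) y) = Al.mapA S (AI.zinv k) y + 1 := by
    rw [actE, ← Al.mapA_act, hyu, map_add, map_one]
  obtain ⟨Θ, hof, hyy⟩ : ∃ Θ : AI.EE p F →+* El S, (∀ c, Θ (AI.ofL p F c) = oE S c) ∧
      Θ (AI.yy p F) = Al.mapA S (AI.zinv k) y :=
    ⟨AdjoinRoot.lift (oE S) (Al.mapA S (AI.zinv k) y)
      (by rw [AI.eval₂_asPoly, h1, sub_self]), fun c => AdjoinRoot.lift_of _,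
      AdjoinRoot.lift_root _⟩
  have hze : ∀ f, Θ (AI.ze p F f) = zeE S f := fun f => hof _
  have htau : ∀ a, Θ (AI.tau p F a) = actE S u₀ (Θ a) := by
    have h : Θ.comp (AI.tau p F) = (actE S u₀).comp Θ := by
      refine AdjoinRoot.ringHom_ext (RingHom.ext fun c => ?_) ?_
      · change Θ (AI.tau p F (AI.ofL p F c)) = actE S u₀ (Θ (AI.ofL p F c))
        rw [AI.tau_ofL, hof]
        exact (Al.act_cst _ _ _).symm
      · change Θ (AI.tau p F (AI.yy p F)) = actE S u₀ (Θ (AI.yy p F))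
        rw [AI.tau_yy, map_add, map_one, hyy, h2]
    exact fun a => RingHom.congr_fun h a
  have hnt : Nontrivial (El S) := (oE_injective S).nontrivial
  have hirr : Fact (Irreducible (AI.asPoly p F)) := ⟨AI.irreducible_asPoly hF⟩
  have hinj : Function.Injective Θ := by
    let _ : Field (AI.EE p F) := AdjoinRoot.instField
    exact RingHom.injective Θ
  have hpow : ∀ (n : ℕ) (l x : G), D.b l (g ^ n * x) = (AI.tau p F)^[n] (D.b l x) := by
    intro n
    induction n with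
    | zero => intro l x; simp
    | succ n ih =>
      intro l x
      rw [pow_succ', mul_assoc, D.hg, ih, Function.iterate_succ_apply']
  have hact : ∀ (n : ℕ) (a : AI.EE p F), Θ ((AI.tau p F)^[n] a) = actE S (u₀ ^ n) (Θ a) := by
    intro n
    induction n with
    | zero =>
      intro a
      rw [Function.iterate_zero, id_eq, pow_zero, map_one]
      rfl
    | succ n ih =>
      intro a
      rw [Function.iterate_succ_apply', htau, ih, pow_succ', map_mul]
      rfl
  refine ⟨S, hS, ⟨fun l x => Θ (D.b l x), ⟨D.μ, D.α, D.ν, D.T, D.T'⟩, ?_, ?_, ?_, ?_, ?_, ?_⟩, ?_⟩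
  · intro u l x
    obtain ⟨n, rfl⟩ := hgen u
    rw [map_pow, hi, hpow, hact]
  · intro j l x
    rw [← map_mul, D.hmul, map_sum]
    simp only [map_mul, hze]
  · intro h l x
    rw [D.hact, map_sum]
    simp only [map_mul, hze]
  · intro x
    rw [← map_one Θ, ← D.hone x, map_sum]
    simp only [map_mul, hze]
  · intro j l
    change _ = zeE S (D.T j l)
    rw [← hze, ← D.htr, map_sum]
    simp only [map_mul]
  · intro x x'
    have h := congrArg Θ (D.hdual x x')
    simp only [map_sum, map_mul, hze] at h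
    change ∑ l, ∑ m, Θ (D.b l x) * zeE S (D.T' l m) * Θ (D.b m x') = _
    rw [h]
    split_ifs <;> simp
  · intro h hh f c hc
    refine hD h hh f c fun x => hinj ?_
    have h3 := hc x
    change ∑ l, zeE S (f l) * Θ (D.b l x) = zeE S (C (c x)) at h3
    rw [map_sum, hze, ← h3]
    simp only [map_mul, hze]

end

end Pool.Agent.MP_1c8e06_ag.AJ
end

section

set_option autoImplicit false

open Polynomial
open scoped Classical

namespace Pool.Agent.MP_1c8e06_ag.AJ

noncomputable section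

/-!
# Task X2: covers for involutions

Proof.  The first part of the proof of `AI.mainT` (`AI/FIN.lean`; copy it up to the last `refine`) for `p = 2`, with the
hypothesis of generation from `BT.gen_two`; then `AI.specialise` (`AI/E4b.lean`).
-/

theorem two_WD (k : Type) [Field k] [IsAlgClosed k] [CharP k 2] [Fact (Nat.Prime 2)] {G : Type}
    [Group G] [Fintype G] (g : G) (hg : orderOf g = 2)
    (hgen : Subgroup.normalClosure ({g} : Set G) = ⊤) :
    ∃ F : k[X], ¬ 2 ∣ F.natDegree ∧ ∃ D : AI.WD 2 k G g F, D.Conn' ⊤ := by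
  have hp : Fact (Nat.Prime 2) := inferInstance
  have hgen' := BT.gen_two g hg hgen
  set e : ℕ := ordCompl[2] (Nat.card G) with he
  have hcard : Nat.card G ≠ 0 := Nat.card_pos.ne'
  have hpe : ¬ 2 ∣ e := Nat.not_dvd_ordCompl hp.out hcard
  have he0 : e ≠ 0 := (Nat.ordCompl_pos 2 hcard).ne'
  have hek : (e : k) ≠ 0 := by
    intro h
    exact hpe ((CharP.cast_eq_zero_iff k 2 e).1 h)
  haveI : NeZero e := ⟨he0⟩
  haveI : NeZero (e : k) := ⟨hek⟩
  obtain ⟨ζ, hζ⟩ := HasEnoughRootsOfUnity.exists_primitiveRoot k e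
  have hfin : {a : G | ¬ 2 ∣ orderOf a ∧ ∀ i : ℕ, Commute a (g ^ i * a * (g ^ i)⁻¹)}.Finite :=
    Set.toFinite _
  obtain ⟨κ, iF, iC, iA, h, hh, D, hD⟩ := AI.exists_iterate k hpe ζ hζ g hg hfin.toFinset.toList
    (by
      intro a ha
      rw [Finset.mem_toList, Set.Finite.mem_toFinset] at ha
      refine ⟨?_, ha.2⟩
      have h1 : orderOf a ∣ Nat.card G := orderOf_dvd_natCard a
      have h2 : Nat.Coprime (orderOf a) (2 ^ (Nat.card G).factorization 2) :=
        ((Nat.Prime.coprime_iff_not_dvd hp.out).2 ha.1).symm.pow_right _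
      have h3 : orderOf a ∣ 2 ^ (Nat.card G).factorization 2 * e := by
        rw [he, Nat.ordProj_mul_ordCompl_eq_self]
        exact h1
      exact orderOf_dvd_iff_pow_eq_one.1 (h2.dvd_of_dvd_mul_left h3))
  have htop : Subgroup.closure ({g} ∪ {x | ∃ a ∈ hfin.toFinset.toList, x = a * g * a⁻¹}) = ⊤ := by
    rw [eq_top_iff, ← hgen']
    refine Subgroup.closure_mono ?_
    rintro x (hx | ⟨a, ha1, ha2, rfl⟩)
    · exact Or.inl hx
    · refine Or.inr ⟨a, ?_, rfl⟩
      rw [Finset.mem_toList, Set.Finite.mem_toFinset]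
      exact ⟨ha1, ha2⟩
  rw [htop] at hD
  have hF : ¬ 2 ∣ (h ^ e).natDegree := by
    rw [natDegree_pow]
    intro hd
    rcases hp.out.dvd_mul.1 hd with h1 | h1
    · exact hpe h1
    · exact hh h1
  obtain ⟨F', hF', D', hD'⟩ := AI.specialise k D hF hD
  exact ⟨F', by rw [hF']; exact hF, D', hD'⟩

end

end Pool.Agent.MP_1c8e06_ag.AJ
end
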