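import Pool.Agent.Lib.MP_1c8e06_ag.AN.SU1

section

set_option autoImplicit false

namespace Pool.Agent.MP_1c8e06_ag.AN

/-!
# Task SU2: matrices in `SU_3`

All statements are identities of explicit `3 x 3` matrices (`Subtype.ext`/`Matrix.SpecialLinearGroup.ext`, `Matrix.mul_apply`, `Fin.sum_univ_three`, `fin_cases`, `field_simp`, `ring`/`linear_combination`); the inverse of an element of `SL_3` is best avoided:
prove `g * x = y * g` first and multiply by `g⁻¹`.  `hs : ∀ x, σ (σ x) = x`.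
* `uU_mem`: row by row `A J σ(A)ᵀ = J` is `b + σ b + a σ a = 0`.
* `nU_mul_nU`: `nU * nU = 1`.
* `uU_mul`: `(uU a b) (uU a' b') = uU (a + a') (b' + b - σ a * a')`.
* `hU_conj`: `hU l * uU a b = uU (a σ(l)² / l) (l b σ(l)) * hU l`.
* `col`: an element of `SU_3` also satisfies `σ(A)ᵀ J A = J` (`A J σ(A)ᵀ = J`, `J² = 1`, so `J σ(A)ᵀ J` is a right inverse of `A`, hence a left inverse: `mul_eq_one_comm`).  We only state the entries needed: `h (col i) (col j) = J i j`.
* `borel`: `A ∈ SU_3` with `A 2 0 = 0`: by `col 0 0`, `σ(A 1 0) * A 1 0 = 0`, so `A 1 0 = 0`; `A 0 0 ≠ 0` (determinant, or `col 0 2`); `col 0 1`: `A 2 1 = 0`; `col 0 2`: `σ(A 0 0) * A 2 2 = 1`; the determinant `A 0 0 * A 1 1 * A 2 2 = 1` gives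
  `A 1 1 = σ l / l`, `l := A 0 0`.  So `A = X * hU l` with `X` upper unitriangular in `SU_3` (`X = A * (hU l)⁻¹`; write down its entries), and an upper unitriangular element `(1 x b; 0 1 a; 0 0 1)` of `SU_3` has `x = - σ a` and `valid a b` (rows).
* `cell`: `A ∈ SU_3` with `A 2 0 ≠ 0`: `a := A 1 0 / A 2 0`, `b := A 0 0 / A 2 0`, `valid a b` by `col 0 0`; `B := nU⁻¹ * (uU a b)⁻¹ * A` has `B 2 0 = 0` (the first column of `uU a b * nU` is `(b, a, 1)ᵀ`, and `A` has first column `A 2 0 • (b, a, 1)ᵀ`, so `B` has first column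
  `A 2 0 • (1, 0, 0)ᵀ`); `borel` for `B`.
-/

variable {F : Type} [Field F] (σ : F ≃+* F)

private theorem SU2_mem_iff (A : Matrix.SpecialLinearGroup (Fin 3) F) :
    A ∈ SU3 F σ ↔ ∀ i j, A.1 i 2 * σ (A.1 j 0) + A.1 i 1 * σ (A.1 j 1) + A.1 i 0 * σ (A.1 j 2)
      = J3 F i j := by
  have key : ∀ i j, (A.1 * J3 F * (A.1.map σ).transpose) i j =
      A.1 i 2 * σ (A.1 j 0) + A.1 i 1 * σ (A.1 j 1) + A.1 i 0 * σ (A.1 j 2) := by
    intro i j
    simp [Matrix.mul_apply, Fin.sum_univ_three, J3]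
  constructor
  · intro h i j
    have h' : A.1 * J3 F * (A.1.map σ).transpose = J3 F := h
    rw [← key, h']
  · intro h
    have h' : A.1 * J3 F * (A.1.map σ).transpose = J3 F := by
      ext i j
      rw [key, h]
    exact h'

theorem uU_mem (hs : ∀ x, σ (σ x) = x) {a b : F} (h : valid σ a b) : uU σ a b ∈ SU3 F σ := by
  rw [SU2_mem_iff]
  have h' : b + σ b + a * σ a = 0 := h
  intro i j
  fin_cases i <;> fin_cases j <;> simp [uU, J3, hs]
  linear_combination h'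

theorem nU_mem : nU F ∈ SU3 F σ := by
  rw [SU2_mem_iff]
  intro i j
  fin_cases i <;> fin_cases j <;> simp [nU, J3]

theorem hU_mem (hs : ∀ x, σ (σ x) = x) (l : Fˣ) : hU σ l ∈ SU3 F σ := by
  rw [SU2_mem_iff]
  have h1 : (l : F) ≠ 0 := l.ne_zero
  have h2 : σ l ≠ 0 := fun h => h1 ((map_eq_zero σ).1 h)
  intro i j
  fin_cases i <;> fin_cases j <;> simp [hU, J3, hs, h1, h2]

theorem nU_mul_nU : nU F * nU F = 1 := by
  apply Matrix.SpecialLinearGroup.ext
  intro i j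
  fin_cases i <;> fin_cases j <;> simp [nU, Matrix.mul_apply, Fin.sum_univ_three]

theorem uU_mul (a b a' b' : F) : uU σ a b * uU σ a' b' = uU σ (a + a') (b' + b - σ a * a') := by
  apply Matrix.SpecialLinearGroup.ext
  intro i j
  fin_cases i <;> fin_cases j <;> simp [uU, Matrix.mul_apply, Fin.sum_univ_three] <;> ring

theorem uU_zero : uU σ 0 0 = 1 := by
  apply Matrix.SpecialLinearGroup.ext
  intro i j
  fin_cases i <;> fin_cases j <;> simp [uU]

theorem uU_inj {a b a' b' : F} (h : uU σ a b = uU σ a' b') : a = a' ∧ b = b' := by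
  constructor
  · have h1 := congrArg (fun A : Matrix.SpecialLinearGroup (Fin 3) F => A.1 1 2) h
    simpa [uU] using h1
  · have h1 := congrArg (fun A : Matrix.SpecialLinearGroup (Fin 3) F => A.1 0 2) h
    simpa [uU] using h1

theorem uU_inv (hs : ∀ x, σ (σ x) = x) {a b : F} (h : valid σ a b) :
    (uU σ a b)⁻¹ = uU σ (-a) (σ b) := by
  have h' : b + σ b + a * σ a = 0 := h
  have h1 : uU σ a b * uU σ (-a) (σ b) = 1 := by
    rw [uU_mul, ← uU_zero σ]
    congr 1
    · ring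
    · linear_combination h'
  exact inv_eq_of_mul_eq_one_right h1

theorem hU_mul (l l' : Fˣ) : hU σ l * hU σ l' = hU σ (l * l') := by
  have h1 : (l : F) ≠ 0 := l.ne_zero
  have h2 : σ l ≠ 0 := fun h => h1 ((map_eq_zero σ).1 h)
  have h1' : (l' : F) ≠ 0 := l'.ne_zero
  have h2' : σ l' ≠ 0 := fun h => h1' ((map_eq_zero σ).1 h)
  apply Matrix.SpecialLinearGroup.ext
  intro i j
  fin_cases i <;> fin_cases j <;> simp [hU, Matrix.mul_apply, Fin.sum_univ_three] <;> field_simp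

theorem hU_conj (hs : ∀ x, σ (σ x) = x) (l : Fˣ) (a b : F) :
    hU σ l * uU σ a b * (hU σ l)⁻¹ = uU σ (a * σ l ^ 2 / l) (l * b * σ l) := by
  have h1 : (l : F) ≠ 0 := l.ne_zero
  have h2 : σ l ≠ 0 := fun h => h1 ((map_eq_zero σ).1 h)
  rw [mul_inv_eq_iff_eq_mul]
  apply Matrix.SpecialLinearGroup.ext
  intro i j
  fin_cases i <;> fin_cases j <;>
    simp [hU, uU, Matrix.mul_apply, Fin.sum_univ_three, hs] <;> field_simp

theorem nU_hU (hs : ∀ x, σ (σ x) = x) (l : Fˣ) (l' : Fˣ) (hl : (l' : F) * σ l = 1) :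
    nU F * hU σ l * nU F = hU σ l' := by
  have h1 : (l : F) ≠ 0 := l.ne_zero
  have h2 : σ l ≠ 0 := fun h => h1 ((map_eq_zero σ).1 h)
  have h3 : (l' : F) = (σ l)⁻¹ := eq_inv_of_mul_eq_one_left hl
  apply Matrix.SpecialLinearGroup.ext
  intro i j
  fin_cases i <;> fin_cases j <;>
    simp [hU, nU, Matrix.mul_apply, Fin.sum_univ_three, hs, h3]
  field_simp

theorem col (hs : ∀ x, σ (σ x) = x) {A : Matrix.SpecialLinearGroup (Fin 3) F}
    (hA : A ∈ SU3 F σ) (i j : Fin 3) :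
    σ (A.1 0 i) * A.1 2 j + σ (A.1 1 i) * A.1 1 j + σ (A.1 2 i) * A.1 0 j = J3 F i j := by
  have hA' : A.1 * J3 F * (A.1.map σ).transpose = J3 F := hA
  have h1 : A.1 * (J3 F * (A.1.map σ).transpose * J3 F) = 1 := by
    rw [← Matrix.mul_assoc, ← Matrix.mul_assoc, hA', J3_mul]
  have h2 : (J3 F * (A.1.map σ).transpose * J3 F) * A.1 = 1 := mul_eq_one_comm.1 h1
  have h3 : (A.1.map σ).transpose * J3 F * A.1 = J3 F := by
    calc (A.1.map σ).transpose * J3 F * A.1
        = (J3 F * J3 F) * ((A.1.map σ).transpose * J3 F * A.1) := by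
          rw [J3_mul, Matrix.one_mul]
      _ = J3 F * ((J3 F * (A.1.map σ).transpose * J3 F) * A.1) := by
          simp only [Matrix.mul_assoc]
      _ = J3 F := by rw [h2, Matrix.mul_one]
  have h4 : ((A.1.map σ).transpose * J3 F * A.1) i j =
      σ (A.1 0 i) * A.1 2 j + σ (A.1 1 i) * A.1 1 j + σ (A.1 2 i) * A.1 0 j := by
    simp [Matrix.mul_apply, Fin.sum_univ_three, J3]
    ring
  rw [← h4, h3]

theorem borel (hs : ∀ x, σ (σ x) = x) {A : Matrix.SpecialLinearGroup (Fin 3) F}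
    (hA : A ∈ SU3 F σ) (h0 : A.1 2 0 = 0) :
    ∃ (l : Fˣ) (a b : F), valid σ a b ∧ A = uU σ a b * hU σ l := by
  have c00 := col σ hs hA 0 0
  have c02 := col σ hs hA 0 2
  have c01 := col σ hs hA 0 1
  simp only [h0, J3, Matrix.of_apply, Matrix.cons_val', Matrix.cons_val_zero,
    Matrix.cons_val_one, Matrix.cons_val, mul_zero, zero_mul, map_zero, zero_add, add_zero]
    at c00 c02 c01
  have e10 : A.1 1 0 = 0 := by
    rcases mul_eq_zero.1 c00 with h | h
    · exact (map_eq_zero σ).1 h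
    · exact h
  rw [e10] at c02 c01
  simp only [map_zero, zero_mul, add_zero] at c02 c01
  have hs0 : σ (A.1 0 0) ≠ 0 := left_ne_zero_of_mul_eq_one c02
  have e00 : A.1 0 0 ≠ 0 := fun h => hs0 (by rw [h, map_zero])
  have e21 : A.1 2 1 = 0 := by
    rcases mul_eq_zero.1 c01 with h | h
    · exact absurd h hs0
    · exact h
  have e22 : A.1 2 2 = (σ (A.1 0 0))⁻¹ := eq_inv_of_mul_eq_one_right c02
  have hdet := A.2
  rw [Matrix.det_fin_three, h0, e10, e21, e22] at hdet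
  have e11 : A.1 1 1 = σ (A.1 0 0) / A.1 0 0 := by
    field_simp
    field_simp at hdet
    linear_combination hdet
  have r01 := (SU2_mem_iff σ A).1 hA 0 1
  have r00 := (SU2_mem_iff σ A).1 hA 0 0
  simp only [J3, Matrix.of_apply, Matrix.cons_val', Matrix.cons_val_zero,
    Matrix.cons_val_one] at r01 r00
  rw [e10, map_zero, mul_zero, zero_add, e11, map_div₀, hs] at r01
  have r01' : A.1 0 1 = - (σ (A.1 1 2) * σ (A.1 0 0)) := by
    have h5 : A.1 0 0 * (A.1 0 1 + σ (A.1 0 0) * σ (A.1 1 2)) = 0 := by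
      field_simp at r01
      linear_combination r01
    rcases mul_eq_zero.1 h5 with h | h
    · exact absurd h e00
    · linear_combination h
  refine ⟨Units.mk0 (A.1 0 0) e00, A.1 1 2 * σ (A.1 0 0), A.1 0 2 * σ (A.1 0 0), ?_, ?_⟩
  · change A.1 0 2 * σ (A.1 0 0) + σ (A.1 0 2 * σ (A.1 0 0)) +
      A.1 1 2 * σ (A.1 0 0) * σ (A.1 1 2 * σ (A.1 0 0)) = 0
    rw [map_mul, map_mul, hs]
    rw [r01', map_neg, map_mul, hs, hs] at r00
    linear_combination r00
  · apply Matrix.SpecialLinearGroup.ext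
    intro i j
    fin_cases i <;> fin_cases j <;>
      simp [hU, uU, Matrix.mul_apply, Fin.sum_univ_three, hs, hs0, e10, h0, e21, e22, e11]
    rw [r01']
    field_simp

theorem cell (hs : ∀ x, σ (σ x) = x) {A : Matrix.SpecialLinearGroup (Fin 3) F}
    (hA : A ∈ SU3 F σ) (h0 : A.1 2 0 ≠ 0) :
    ∃ (l : Fˣ) (a b a' b' : F), valid σ a b ∧ valid σ a' b' ∧ (l : F) = A.1 2 0 ∧
      a = A.1 1 0 / A.1 2 0 ∧ b = A.1 0 0 / A.1 2 0 ∧
      A = uU σ a b * nU F * (uU σ a' b' * hU σ l) := by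
  have h0' : σ (A.1 2 0) ≠ 0 := fun h => h0 ((map_eq_zero σ).1 h)
  have c00 := col σ hs hA 0 0
  simp only [J3, Matrix.of_apply, Matrix.cons_val', Matrix.cons_val_zero] at c00
  have hv : valid σ (A.1 1 0 / A.1 2 0) (A.1 0 0 / A.1 2 0) := by
    change A.1 0 0 / A.1 2 0 + σ (A.1 0 0 / A.1 2 0) +
      A.1 1 0 / A.1 2 0 * σ (A.1 1 0 / A.1 2 0) = 0
    rw [map_div₀, map_div₀]
    field_simp
    linear_combination c00
  have hB : nU F * (uU σ (A.1 1 0 / A.1 2 0) (A.1 0 0 / A.1 2 0))⁻¹ * A ∈ SU3 F σ :=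
    mul_mem (mul_mem (nU_mem σ) (inv_mem (uU_mem σ hs hv))) hA
  have hBe : nU F * (uU σ (A.1 1 0 / A.1 2 0) (A.1 0 0 / A.1 2 0))⁻¹ * A =
      nU F * (uU σ (-(A.1 1 0 / A.1 2 0)) (σ (A.1 0 0 / A.1 2 0))) * A := by
    rw [uU_inv σ hs hv]
  have hB0 : (nU F * (uU σ (A.1 1 0 / A.1 2 0) (A.1 0 0 / A.1 2 0))⁻¹ * A).1 2 0 = 0 := by
    rw [hBe]
    simp [nU, uU, Matrix.mul_apply, Fin.sum_univ_three]
    field_simp
    linear_combination c00
  have hB1 : (nU F * (uU σ (A.1 1 0 / A.1 2 0) (A.1 0 0 / A.1 2 0))⁻¹ * A).1 0 0 = A.1 2 0 := by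
    rw [hBe]
    simp [nU, uU, Matrix.mul_apply, Fin.sum_univ_three]
  obtain ⟨l, a', b', hv', hl⟩ := borel σ hs hB hB0
  refine ⟨l, A.1 1 0 / A.1 2 0, A.1 0 0 / A.1 2 0, a', b', hv, hv', ?_, rfl, rfl, ?_⟩
  · rw [← hB1, hl]
    simp [hU, uU, Matrix.mul_apply, Fin.sum_univ_three]
  · rw [← hl]
    have h5 : uU σ (A.1 1 0 / A.1 2 0) (A.1 0 0 / A.1 2 0) * nU F *
        (nU F * (uU σ (A.1 1 0 / A.1 2 0) (A.1 0 0 / A.1 2 0))⁻¹ * A) =
        uU σ (A.1 1 0 / A.1 2 0) (A.1 0 0 / A.1 2 0) * (nU F * nU F) *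
        (uU σ (A.1 1 0 / A.1 2 0) (A.1 0 0 / A.1 2 0))⁻¹ * A := by
      simp only [mul_assoc]
    rw [h5, nU_mul_nU, mul_one, mul_inv_cancel, one_mul]

end Pool.Agent.MP_1c8e06_ag.AN
end

section

set_option autoImplicit false

open scoped Classical

namespace Pool.Agent.MP_1c8e06_ag.AN

/-!
# Task SU3c: elements of order `p` are conjugate to upper unitriangular ones

Proof.  `G := SU3 F σ` (a finite group), `B : Subgroup G` := elements with `A 2 0 = 0` (closed under products: then also `A 1 0 = 0` by `col 0 0`, as in `borel`; the stabiliser of the line of `(1,0,0)`), `U` := the elements `uU a b`, `valid a b` (a subgroup by `uU_mul`,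
`uU_inv`).  `U` is a `p`-group: `(uU a b) ^ n = uU (n a) (..)`; or: its order is a power of `p`: it embeds... simplest: every `x = uU a b` satisfies `(x - 1) ^ 3 = 0` as a matrix, so `x ^ (p ^ 2) = 1` (`(x - 1) ^ (p ^ 2) = x ^ (p ^ 2) - 1`,
`sub_pow_char_pow_of_commute`, `p ^ 2 ≥ 3`, the matrix ring has characteristic `p`).
`U` acts on `G ⧸ B` by left multiplication.  The only fixed point is the coset `B`: if `u * g ∈ g B` for all `u ∈ U` then the first column `v = (v0, v1, v2)` of `g` is an eigenvector of all `u ∈ U`.  For `u = uU 0 e`, `e ≠ 0`, `σ e = - e` (exists: `e := x₀ - σ x₀`):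
`u v = (v0 + e v2, v1, v2) = c v`: if `v2 ≠ 0` then `c = 1` and `e v2 = 0`, contradiction.  So `v2 = 0`, `g ∈ B`.
`IsPGroup.card_modEq_card_fixedPoints` (for `U`): `Nat.card (G ⧸ B) ≡ 1 [MOD p]`.  The `p`-group generated by `y` (`Subgroup.zpowers`, or `IsPGroup` of it) acts on `G ⧸ B` too; the number of its fixed points is `≡ 1`, so there is one: `y * g ∈ g B`, i.e. `g⁻¹ * y * g ∈ B`.
`borel`: `g⁻¹ * y * g = uU a b * hU l`; its `p`-th power is `1`; the `(0,0)` entry of the `p`-th power of an upper triangular matrix is `l ^ p`, so `l ^ p = 1`, `l = 1` (`(l - 1) ^ p = 0`), `hU 1 = 1`.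
-/

private theorem SU3c_col {F : Type} [Field F] (σ : F ≃+* F) (hs : ∀ x, σ (σ x) = x)
    {A : Matrix.SpecialLinearGroup (Fin 3) F} (hA : A ∈ SU3 F σ) (h0 : A.1 2 0 = 0) : A.1 1 0 = 0 := by
  have h := col σ hs hA 0 0
  rw [h0, map_zero, mul_zero, zero_mul, zero_add, add_zero] at h
  have h2 : J3 F 0 0 = 0 := by simp [J3]
  rw [h2] at h
  rcases mul_eq_zero.1 h with h3 | h3
  · exact (map_eq_zero σ).1 h3
  · exact h3

private theorem SU3c_mul {F : Type} [Field F] (A B : Matrix.SpecialLinearGroup (Fin 3) F) (i j : Fin 3) :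
    (A * B).1 i j = A.1 i 0 * B.1 0 j + A.1 i 1 * B.1 1 j + A.1 i 2 * B.1 2 j := by
  have h : (A * B).1 = A.1 * B.1 := rfl
  rw [h, Matrix.mul_apply, Fin.sum_univ_three]

/-- the stabiliser of the isotropic line -/
private def SU3c_B {F : Type} [Field F] (σ : F ≃+* F) (hs : ∀ x, σ (σ x) = x) : Subgroup (SU3 F σ) where
  carrier := {A | A.1.1 2 0 = 0}
  one_mem' := by
    change (1 : Matrix (Fin 3) (Fin 3) F) 2 0 = 0
    simp
  mul_mem' := by
    intro A B hA hB
    change A.1.1 2 0 = 0 at hA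
    change B.1.1 2 0 = 0 at hB
    change (A.1 * B.1).1 2 0 = 0
    rw [SU3c_mul, hA, hB, SU3c_col σ hs B.2 hB]
    ring
  inv_mem' := by
    intro A hA
    change A.1.1 2 0 = 0 at hA
    change (A.1⁻¹).1 2 0 = 0
    have h10 := SU3c_col σ hs A.2 hA
    have h1 : A.1⁻¹ * A.1 = 1 := inv_mul_cancel _
    have h2 := SU3c_mul A.1⁻¹ A.1 2 0
    have h3 := SU3c_mul A.1⁻¹ A.1 0 0
    rw [h1, hA, h10] at h2 h3
    have e2 : (1 : Matrix.SpecialLinearGroup (Fin 3) F).1 2 0 = 0 := by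
      change (1 : Matrix (Fin 3) (Fin 3) F) 2 0 = 0
      simp
    have e3 : (1 : Matrix.SpecialLinearGroup (Fin 3) F).1 0 0 = 1 := by
      change (1 : Matrix (Fin 3) (Fin 3) F) 0 0 = 1
      simp
    rw [e2, mul_zero, mul_zero, add_zero, add_zero] at h2
    rw [e3, mul_zero, mul_zero, add_zero, add_zero] at h3
    rcases mul_eq_zero.1 h2.symm with h4 | h4
    · exact h4
    · rw [h4, mul_zero] at h3
      exact absurd h3 one_ne_zero

private theorem SU3c_memB {F : Type} [Field F] (σ : F ≃+* F) (hs : ∀ x, σ (σ x) = x) (A : SU3 F σ) :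
    A ∈ SU3c_B σ hs ↔ A.1.1 2 0 = 0 := Iff.rfl

private theorem SU3c_finite (F : Type) [Field F] [Finite F] :
    Finite (Matrix.SpecialLinearGroup (Fin 3) F) := by
  have h1 : Finite (Matrix (Fin 3) (Fin 3) F) := inferInstanceAs (Finite (Fin 3 → Fin 3 → F))
  exact Finite.of_injective (fun A : Matrix.SpecialLinearGroup (Fin 3) F => A.1) Subtype.val_injective

private theorem SU3c_isP {G : Type} [Group G] {p : ℕ} (y : G) (hy : y ^ p = 1) :
    IsPGroup p (Subgroup.zpowers y) := by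
  intro g
  obtain ⟨g, hg⟩ := g
  obtain ⟨n, hn⟩ := Subgroup.mem_zpowers_iff.1 hg
  refine ⟨1, ?_⟩
  rw [pow_one]
  apply Subtype.ext
  change g ^ p = 1
  rw [← hn, ← zpow_natCast, ← zpow_mul, mul_comm, zpow_mul, zpow_natCast, hy, one_zpow]

private theorem SU3c_zpow {F : Type} [Field F] (σ : F ≃+* F) (e : F) (n : ℕ) :
    (uU σ 0 e) ^ n = uU σ 0 (n * e) := by
  induction n with
  | zero => rw [pow_zero, Nat.cast_zero, zero_mul, uU_zero]
  | succ n ih =>
    rw [pow_succ, ih, uU_mul]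
    congr 1
    · ring
    · rw [map_zero]
      push_cast
      ring

private theorem SU3c_pow {F : Type} [Field F] (X : Matrix.SpecialLinearGroup (Fin 3) F)
    (h1 : X.1 1 0 = 0) (h2 : X.1 2 0 = 0) (n : ℕ) : (X ^ n).1 0 0 = X.1 0 0 ^ n := by
  induction n with
  | zero =>
    rw [pow_zero, pow_zero]
    change (1 : Matrix (Fin 3) (Fin 3) F) 0 0 = 1
    simp
  | succ n ih =>
    rw [pow_succ, SU3c_mul, ih, h1, h2, pow_succ]
    ring

theorem SU3_conj {p : ℕ} [hp : Fact p.Prime] {F : Type} [Field F] [Finite F] [CharP F p]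
    (σ : F ≃+* F) (hs : ∀ x, σ (σ x) = x) (h1 : ∃ x, σ x ≠ x)
    (y : Matrix.SpecialLinearGroup (Fin 3) F) (hy : y ∈ SU3 F σ) (hyp : y ^ p = 1) :
    ∃ g ∈ SU3 F σ, ∃ a b, valid σ a b ∧ g⁻¹ * y * g = uU σ a b := by
  have hfin : Finite (Matrix.SpecialLinearGroup (Fin 3) F) := SU3c_finite F
  obtain ⟨x0, hx0⟩ := h1
  set e : F := x0 - σ x0 with he
  have he0 : e ≠ 0 := by
    intro h
    apply hx0
    rw [he] at h
    exact (sub_eq_zero.1 h).symm
  have hse : σ e = -e := by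
    rw [he, map_sub, hs]
    ring
  have hve : valid σ 0 e := by
    unfold valid
    rw [hse]
    ring
  let z : SU3 F σ := ⟨uU σ 0 e, uU_mem σ hs hve⟩
  have hz : z ^ p = 1 := by
    apply Subtype.ext
    change (uU σ 0 e) ^ p = 1
    rw [SU3c_zpow, CharP.cast_eq_zero, zero_mul, uU_zero]
  let y' : SU3 F σ := ⟨y, hy⟩
  have hy' : y' ^ p = 1 := by
    apply Subtype.ext
    exact hyp
  have hzp := SU3c_isP z hz
  have hyp' := SU3c_isP y' hy'
  have c1 := hzp.card_modEq_card_fixedPoints (SU3 F σ ⧸ SU3c_B σ hs)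
  have c2 := hyp'.card_modEq_card_fixedPoints (SU3 F σ ⧸ SU3c_B σ hs)
  have hfix : ∀ w : SU3 F σ, ∀ g : SU3 F σ,
      (QuotientGroup.mk g : SU3 F σ ⧸ SU3c_B σ hs) ∈
        MulAction.fixedPoints (Subgroup.zpowers w) (SU3 F σ ⧸ SU3c_B σ hs) →
      g⁻¹ * w * g ∈ SU3c_B σ hs := by
    intro w g hg
    have h := hg ⟨w, Subgroup.mem_zpowers w⟩
    have h2 : (QuotientGroup.mk (w * g) : SU3 F σ ⧸ SU3c_B σ hs) = QuotientGroup.mk g := h
    rw [eq_comm, QuotientGroup.eq] at h2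
    rw [mul_assoc]
    exact h2
  have hcard : Nat.card (MulAction.fixedPoints (Subgroup.zpowers z) (SU3 F σ ⧸ SU3c_B σ hs)) = 1 := by
    rw [Nat.card_eq_one_iff_unique]
    constructor
    · constructor
      intro a b
      have key : ∀ c : SU3 F σ ⧸ SU3c_B σ hs,
          c ∈ MulAction.fixedPoints (Subgroup.zpowers z) (SU3 F σ ⧸ SU3c_B σ hs) →
          c = QuotientGroup.mk 1 := by
        intro c
        refine QuotientGroup.induction_on c ?_
        intro g hg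
        have h := hfix z g hg
        set X : SU3 F σ := g⁻¹ * z * g with hX
        have hgX : z.1 * g.1 = g.1 * X.1 := by
          have : z * g = g * X := by
            rw [hX]
            group
          exact congrArg Subtype.val this
        have hX20 : X.1.1 2 0 = 0 := h
        have hX10 := SU3c_col σ hs X.2 hX20
        have f2 : (z.1 * g.1).1 2 0 = (g.1 * X.1).1 2 0 := by rw [hgX]
        have f0 : (z.1 * g.1).1 0 0 = (g.1 * X.1).1 0 0 := by rw [hgX]
        rw [SU3c_mul, SU3c_mul, hX20, hX10] at f2 f0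
        have z20 : z.1.1 2 0 = 0 := by
          change (uU σ 0 e).1 2 0 = 0
          simp [uU]
        have z21 : z.1.1 2 1 = 0 := by
          change (uU σ 0 e).1 2 1 = 0
          simp [uU]
        have z22 : z.1.1 2 2 = 1 := by
          change (uU σ 0 e).1 2 2 = 1
          simp [uU]
        have z00 : z.1.1 0 0 = 1 := by
          change (uU σ 0 e).1 0 0 = 1
          simp [uU]
        have z01 : z.1.1 0 1 = 0 := by
          change (uU σ 0 e).1 0 1 = 0
          simp [uU]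
        have z02 : z.1.1 0 2 = e := by
          change (uU σ 0 e).1 0 2 = e
          simp [uU]
        rw [z20, z21, z22] at f2
        rw [z00, z01, z02] at f0
        have hv2 : g.1.1 2 0 = 0 := by
          by_contra hne
          have hc : X.1.1 0 0 = 1 := by
            have h5 : g.1.1 2 0 * (X.1.1 0 0 - 1) = 0 := by linear_combination -f2
            rcases mul_eq_zero.1 h5 with h6 | h6
            · exact absurd h6 hne
            · exact sub_eq_zero.1 h6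
          rw [hc] at f0
          have h7 : e * g.1.1 2 0 = 0 := by linear_combination f0
          rcases mul_eq_zero.1 h7 with h8 | h8
          · exact he0 h8
          · exact hne h8
        rw [eq_comm, QuotientGroup.eq, inv_one, one_mul]
        exact hv2
      apply Subtype.ext
      rw [key a.1 a.2, key b.1 b.2]
    · refine ⟨⟨QuotientGroup.mk 1, ?_⟩⟩
      intro w
      obtain ⟨w, hw⟩ := w
      change (QuotientGroup.mk (w * 1) : SU3 F σ ⧸ SU3c_B σ hs) = QuotientGroup.mk 1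
      rw [mul_one, eq_comm, QuotientGroup.eq, inv_one, one_mul]
      have hzB : z ∈ SU3c_B σ hs := by
        rw [SU3c_memB]
        change (uU σ 0 e).1 2 0 = 0
        simp [uU]
      exact (Subgroup.zpowers_le.2 hzB) hw
  rw [hcard] at c1
  have c3 : Nat.card (MulAction.fixedPoints (Subgroup.zpowers y') (SU3 F σ ⧸ SU3c_B σ hs)) ≡ 1 [MOD p] :=
    c2.symm.trans c1
  have hne : Nat.card (MulAction.fixedPoints (Subgroup.zpowers y') (SU3 F σ ⧸ SU3c_B σ hs)) ≠ 0 := by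
    intro h0
    rw [h0] at c3
    have h5 : p ∣ 1 := (Nat.modEq_iff_dvd' (by norm_num)).1 c3
    exact hp.out.one_lt.ne' (Nat.dvd_one.1 h5)
  obtain ⟨⟨c, hc⟩⟩ := (Nat.card_ne_zero.1 hne).1
  revert hc
  refine QuotientGroup.induction_on c ?_
  intro g hg
  have h := hfix y' g hg
  set X : SU3 F σ := g⁻¹ * y' * g with hX
  have hX20 : X.1.1 2 0 = 0 := h
  have hX10 := SU3c_col σ hs X.2 hX20
  have hXp : X ^ p = 1 := by
    have h5 : X = MulAut.conj g⁻¹ y' := by
      rw [hX, MulAut.conj_apply, inv_inv]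
    rw [h5, ← map_pow, hy', map_one]
  have hXp' : X.1 ^ p = 1 := congrArg Subtype.val hXp
  obtain ⟨l, a, b, hv, hXe⟩ := borel σ hs X.2 hX20
  have h00 : X.1.1 0 0 = l := by
    rw [hXe, SU3c_mul]
    simp [uU, hU]
  have hlp : (l : F) ^ p = 1 := by
    rw [← h00, ← SU3c_pow X.1 hX10 hX20 p, hXp']
    change (1 : Matrix (Fin 3) (Fin 3) F) 0 0 = 1
    simp
  have hl1 : (l : F) = 1 := by
    have h5 : ((l : F) - 1) ^ p = 0 := by
      rw [sub_pow_char, hlp, one_pow, sub_self]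
    have h6 := pow_eq_zero_iff (hp.out.ne_zero) |>.1 h5
    exact sub_eq_zero.1 h6
  have hl : l = 1 := Units.ext hl1
  have hU1 : hU σ (1 : Fˣ) = 1 := by
    have h5 := hU_mul σ (1 : Fˣ) 1
    rw [one_mul] at h5
    exact mul_eq_left.1 h5
  refine ⟨g.1, g.2, a, b, hv, ?_⟩
  have h6 : X.1 = g.1⁻¹ * y * g.1 := rfl
  rw [← h6, hXe, hl, hU1, mul_one]

end Pool.Agent.MP_1c8e06_ag.AN
end

section

set_option autoImplicit false

namespace Pool.Agent.MP_1c8e06_ag.AN

/-!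
# Task SU3g: generation of `SU_3`

`Y ≤ SU_3` contains all `uU a b` (`valid a b`) and an element `g` with `g 2 0 ≠ 0`.  Claim `Y = SU_3`.
1. `cell`: `g = uU a b * nU * (uU a' b' * hU l)`, so `nU * (uU a' b' * hU l) ∈ Y`, and, with `x := uU a' b' * hU l`, `nU * x ∈ Y`.
2. for all valid `(c, d)`: `nU * uU c d * nU⁻¹ ∈ Y`: by `hU_conj`, `x⁻¹ * uU c d * x` is some `uU c' d'` with `valid c' d'` (`hU_conj` for `l⁻¹` and products in the group of the `uU`'s), and `(nU x) (x⁻¹ uU c d x) (nU x)⁻¹ = nU uU c d nU⁻¹`.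
3. for valid `(c, d)` with `d ≠ 0`: `w := nU * uU c d * nU` has `w 2 0 = d`, so `cell` for `w ∈ Y`: `w = uU * nU * (uU * hU d)`, hence `nU * hU d ∈ Y` after removing the `uU`'s: precisely `w = u₁ * nU * u₂ * hU d`, so `nU * u₂ * hU d ∈ Y`; and
   `nU * u₂ * nU ∈ Y` (2.), so `(nU * u₂ * nU)⁻¹ * (nU * u₂ * hU d) = nU * hU d ∈ Y` (`nU * nU = 1`).
4. Let `S` be the set of the units `d` for which there is `c` with `valid c d`.  For `d, d' ∈ S`: `(nU hU d)⁻¹ (nU hU d') = hU (d⁻¹ d') ∈ Y`.  There is `e ≠ 0` with `σ e = - e` (`hσ1 : σ x₀ ≠ x₀`, `e := x₀ - σ x₀`); `e ∈ S` (`c = 0`), and `t e ∈ S` for `t` with `σ t = t`,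
   `t ≠ 0`.  So `hU t ∈ Y` for all units `t` with `σ t = t`.  For every unit `l` there is a unit `t` with `σ t = t` and `l t ∈ S`: if `l + σ l = 0` take `t = 1`, `c = 0`; otherwise `t := -(l + σ l)⁻¹`, `c = 1`: `l t + σ (l t) + 1 = 0`.  Then `hU (e⁻¹ l t) ∈ Y`, so
   `hU (e⁻¹ l) ∈ Y` for every `l`, i.e. `hU l ∈ Y` for every unit `l`; and `nU ∈ Y` (3. with `d = e`).
5. every element of `SU_3` is in `Y` by `borel` and `cell`.
-/

private theorem SU3g_valid_mul {F : Type} [Field F] (σ : F ≃+* F) (hs : ∀ x, σ (σ x) = x)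
    {a b a' b' : F} (h : valid σ a b) (h' : valid σ a' b') :
    valid σ (a + a') (b' + b - σ a * a') := by
  unfold valid at *
  simp only [map_add, map_sub, map_mul, hs]
  linear_combination h + h'

private theorem SU3g_valid_inv {F : Type} [Field F] (σ : F ≃+* F) (hs : ∀ x, σ (σ x) = x)
    {a b : F} (h : valid σ a b) : valid σ (-a) (σ b) := by
  unfold valid at *
  simp only [map_neg, hs]
  linear_combination h

private theorem SU3g_valid_conj {F : Type} [Field F] (σ : F ≃+* F) (hs : ∀ x, σ (σ x) = x)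
    (l : Fˣ) {a b : F} (h : valid σ a b) :
    valid σ (a * σ l ^ 2 / l) (l * b * σ l) := by
  have h1 : (l : F) ≠ 0 := l.ne_zero
  have h2 : σ (l : F) ≠ 0 := fun h => h1 ((map_eq_zero σ).1 h)
  unfold valid at *
  simp only [map_mul, map_div₀, map_pow, hs]
  field_simp
  linear_combination ((l : F) * σ l) * h

private theorem SU3g_conj1 {F : Type} [Field F] (σ : F ≃+* F) (hs : ∀ x, σ (σ x) = x)
    (l : Fˣ) {a b : F} (h : valid σ a b) :
    ∃ c d, valid σ c d ∧ (hU σ l)⁻¹ * uU σ a b * hU σ l = uU σ c d := by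
  have h11 : hU σ (1 : Fˣ) = 1 := by
    have := hU_mul σ (1 : Fˣ) 1
    rw [mul_one] at this
    exact mul_eq_left.1 this
  have hinv : (hU σ l)⁻¹ = hU σ l⁻¹ := by
    rw [inv_eq_iff_mul_eq_one, hU_mul, mul_inv_cancel, h11]
  have hinv' : hU σ l = (hU σ l⁻¹)⁻¹ := by
    rw [← hinv, inv_inv]
  refine ⟨_, _, SU3g_valid_conj σ hs l⁻¹ h, ?_⟩
  rw [← hU_conj σ hs l⁻¹ a b, ← hinv, inv_inv]

private theorem SU3g_conj2 {F : Type} [Field F] (σ : F ≃+* F) (hs : ∀ x, σ (σ x) = x)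
    {a b a' b' : F} (h : valid σ a b) (h' : valid σ a' b') :
    ∃ c d, valid σ c d ∧ (uU σ a b)⁻¹ * uU σ a' b' * uU σ a b = uU σ c d := by
  rw [uU_inv σ hs h, uU_mul, uU_mul]
  exact ⟨_, _, SU3g_valid_mul σ hs (SU3g_valid_mul σ hs (SU3g_valid_inv σ hs h) h') h, rfl⟩

private theorem SU3g_entry {F : Type} [Field F] (σ : F ≃+* F) (c d : F) :
    (nU F * uU σ c d * nU F).1 2 0 = d := by
  change ((nU F).1 * (uU σ c d).1 * (nU F).1) 2 0 = d
  simp [nU, uU, Matrix.mul_apply, Fin.sum_univ_three]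

theorem SU3_gen {F : Type} [Field F] (σ : F ≃+* F) (hs : ∀ x, σ (σ x) = x)
    (h1 : ∃ x, σ x ≠ x) (Y : Subgroup (Matrix.SpecialLinearGroup (Fin 3) F)) (hY : Y ≤ SU3 F σ)
    (hU : ∀ a b, valid σ a b → uU σ a b ∈ Y) (g : Matrix.SpecialLinearGroup (Fin 3) F)
    (hg : g ∈ Y) (hg0 : g.1 2 0 ≠ 0) : Y = SU3 F σ := by
  have nn : nU F * nU F = 1 := nU_mul_nU
  have ninv : (nU F)⁻¹ = nU F := by rw [inv_eq_iff_mul_eq_one, nn]
  obtain ⟨l, a, b, a', b', hv, hv', -, -, -, hgg⟩ := cell σ hs (hY hg) hg0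
  -- step 1
  have hy1 : nU F * (uU σ a' b' * AN.hU σ l) ∈ Y := by
    have : nU F * (uU σ a' b' * AN.hU σ l) = (uU σ a b)⁻¹ * g := by
      rw [hgg]; group
    rw [this]
    exact Y.mul_mem (Y.inv_mem (hU _ _ hv)) hg
  -- step 2
  have h2 : ∀ c d, valid σ c d → nU F * uU σ c d * nU F ∈ Y := by
    intro c d hcd
    obtain ⟨c1, d1, hv1, he1⟩ := SU3g_conj2 σ hs hv' hcd
    obtain ⟨c2, d2, hv2, he2⟩ := SU3g_conj1 σ hs l hv1
    have hmem : nU F * (uU σ a' b' * AN.hU σ l) * uU σ c2 d2 *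
        (nU F * (uU σ a' b' * AN.hU σ l))⁻¹ ∈ Y :=
      Y.mul_mem (Y.mul_mem hy1 (hU _ _ hv2)) (Y.inv_mem hy1)
    have : nU F * (uU σ a' b' * AN.hU σ l) * uU σ c2 d2 *
        (nU F * (uU σ a' b' * AN.hU σ l))⁻¹ = nU F * uU σ c d * nU F := by
      calc _ = nU F * uU σ c d * (nU F)⁻¹ := by
            rw [← he2, ← he1]; group
        _ = _ := by rw [ninv]
    rw [← this]
    exact hmem
  -- step 3
  have h3 : ∀ (d : Fˣ) (c : F), valid σ c d → nU F * AN.hU σ d ∈ Y := by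
    intro d c hcd
    have hw := h2 c d hcd
    have hw0 : (nU F * uU σ c (d : F) * nU F).1 2 0 ≠ 0 := by
      rw [SU3g_entry]; exact d.ne_zero
    obtain ⟨l1, a1, b1, a2, b2, hv1, hv2, hl1, -, -, hww⟩ := cell σ hs (hY hw) hw0
    have hl : l1 = d := by
      apply Units.ext
      rw [hl1, SU3g_entry]
    subst hl
    have h4 : nU F * (uU σ a2 b2 * AN.hU σ l1) ∈ Y := by
      have : nU F * (uU σ a2 b2 * AN.hU σ l1) = (uU σ a1 b1)⁻¹ * (nU F * uU σ c l1 * nU F) := by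
        rw [hww]; group
      rw [this]
      exact Y.mul_mem (Y.inv_mem (hU _ _ hv1)) hw
    have h5 := Y.mul_mem (Y.inv_mem (h2 a2 b2 hv2)) h4
    have h6 : (nU F * uU σ a2 b2 * nU F)⁻¹ * (nU F * (uU σ a2 b2 * AN.hU σ l1)) =
        nU F * AN.hU σ l1 := by
      nth_rewrite 4 [← ninv]
      group
    rw [h6] at h5
    exact h5
  -- step 4
  obtain ⟨x0, hx0⟩ := h1
  have he0 : x0 - σ x0 ≠ 0 := fun h => hx0 (sub_eq_zero.1 h).symm
  obtain ⟨e, he⟩ : ∃ e : Fˣ, (e : F) = x0 - σ x0 := ⟨Units.mk0 _ he0, rfl⟩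
  have hse : σ (e : F) = - e := by
    rw [he, map_sub, hs]; ring
  have hq : ∀ (d : Fˣ) (c : F), valid σ c d → (AN.hU σ e)⁻¹ * AN.hU σ d ∈ Y := by
    intro d c hcd
    have hve : valid σ 0 (e : F) := by
      unfold valid
      rw [hse]; simp
    have h5 := Y.mul_mem (Y.inv_mem (h3 e 0 hve)) (h3 d c hcd)
    have h6 : (nU F * AN.hU σ e)⁻¹ * (nU F * AN.hU σ d) = (AN.hU σ e)⁻¹ * AN.hU σ d := by
      group
    rw [h6] at h5
    exact h5
  have ht : ∀ t : Fˣ, σ (t : F) = t → AN.hU σ t ∈ Y := by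
    intro t htt
    have hv3 : valid σ 0 ((e * t : Fˣ) : F) := by
      unfold valid
      rw [Units.val_mul, map_mul, hse, htt]; simp
    have h5 := hq (e * t) 0 hv3
    rw [← hU_mul, inv_mul_cancel_left] at h5
    exact h5
  have hl : ∀ l : Fˣ, (AN.hU σ e)⁻¹ * AN.hU σ l ∈ Y := by
    intro l
    obtain ⟨t, htt, c, hc⟩ : ∃ t : Fˣ, σ (t : F) = t ∧ ∃ c : F, valid σ c ((l * t : Fˣ) : F) := by
      by_cases h0 : (l : F) + σ l = 0
      · refine ⟨1, by simp, 0, ?_⟩
        unfold valid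
        rw [mul_one, h0]; simp
      · have h0' : -((l : F) + σ l)⁻¹ ≠ 0 := neg_ne_zero.2 (inv_ne_zero h0)
        have hst : σ (-((l : F) + σ l)⁻¹) = -((l : F) + σ l)⁻¹ := by
          rw [map_neg, map_inv₀, map_add, hs, add_comm]
        refine ⟨Units.mk0 _ h0', hst, 1, ?_⟩
        unfold valid
        rw [Units.val_mul, Units.val_mk0, map_mul, hst, map_one]
        field_simp
        ring
    have h5 := Y.mul_mem (hq (l * t) c hc) (Y.inv_mem (ht t htt))
    rw [← hU_mul, mul_assoc, mul_inv_cancel_right] at h5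
    exact h5
  have h11 : AN.hU σ (1 : Fˣ) = 1 := by
    have := hU_mul σ (1 : Fˣ) 1
    rw [mul_one] at this
    exact mul_eq_left.1 this
  have hei : (AN.hU σ e)⁻¹ ∈ Y := by
    have := hl 1
    rw [h11, mul_one] at this
    exact this
  have hall : ∀ l : Fˣ, AN.hU σ l ∈ Y := by
    intro l
    have h5 := Y.mul_mem (Y.inv_mem hei) (hl l)
    rw [inv_inv, mul_inv_cancel_left] at h5
    exact h5
  have hn : nU F ∈ Y := by
    have hve : valid σ 0 (e : F) := by
      unfold valid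
      rw [hse]; simp
    have h5 := Y.mul_mem (h3 e 0 hve) hei
    rw [mul_inv_cancel_right] at h5
    exact h5
  -- step 5
  refine le_antisymm hY ?_
  intro A hA
  by_cases h0 : A.1 2 0 = 0
  · obtain ⟨l, a, b, hv, hAA⟩ := borel σ hs hA h0
    rw [hAA]
    exact Y.mul_mem (hU _ _ hv) (hall l)
  · obtain ⟨l, a, b, a', b', hv, hv', -, -, -, hAA⟩ := cell σ hs hA h0
    rw [hAA]
    exact Y.mul_mem (Y.mul_mem (hU _ _ hv) hn) (Y.mul_mem (hU _ _ hv') (hall l))

end Pool.Agent.MP_1c8e06_ag.AN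
end

section

set_option autoImplicit false

namespace Pool.Agent.MP_1c8e06_ag.AN

/-!
# Two homomorphisms `SL_2(F₀) → SU_3`, `F₀ = fixF σ`
-/

variable {F : Type} [Field F] (σ : F ≃+* F)

private theorem fix_coe (x : fixF σ) : σ (x : F) = x := x.2

private theorem det_coe (g : Matrix.SpecialLinearGroup (Fin 2) (fixF σ)) :
    (g.1 0 0 : F) * g.1 1 1 - (g.1 0 1 : F) * g.1 1 0 = 1 := by
  have h := g.2
  rw [Matrix.det_fin_two] at h
  have h2 := congrArg (fun x : fixF σ => (x : F)) h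
  simpa using h2

private theorem mul_coe (g g' : Matrix.SpecialLinearGroup (Fin 2) (fixF σ)) (i j : Fin 2) :
    ((g * g').1 i j : F) = (g.1 i 0 : F) * g'.1 0 j + (g.1 i 1 : F) * g'.1 1 j := by
  change (((g.1 * g'.1) i j : fixF σ) : F) = _
  rw [Matrix.mul_apply, Fin.sum_univ_two]
  rfl

private def m1 (e a b c d : F) : Matrix (Fin 3) (Fin 3) F :=
  !![a, 0, b * e; 0, 1, 0; c / e, 0, d]

private theorem m1_mul (e : F) (he : e ≠ 0) (a b c d a' b' c' d' : F) :
    m1 e a b c d * m1 e a' b' c' d' =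
      m1 e (a * a' + b * c') (a * b' + b * d') (c * a' + d * c') (c * b' + d * d') := by
  ext i j
  fin_cases i <;> fin_cases j <;>
    simp [m1, Matrix.mul_apply, Fin.sum_univ_three] <;> field_simp

private theorem m1_mem (hs : ∀ x, σ (σ x) = x) (e : F) (he : e ≠ 0) (hse : σ e = -e)
    (a b c d : F) (ha : σ a = a) (hb : σ b = b) (hc : σ c = c) (hd : σ d = d)
    (h : a * d - b * c = 1) : m1 e a b c d * J3 F * ((m1 e a b c d).map σ).transpose = J3 F := by
  ext i j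
  fin_cases i <;> fin_cases j <;>
    simp [m1, J3, Matrix.mul_apply, Fin.sum_univ_three, ha, hb, hc, hd, hse, div_neg] <;>
    first
      | ring1
      | (field_simp; ring1)
      | (field_simp; linear_combination h)
      | (field_simp; linear_combination -h)

theorem phi1 (hs : ∀ x, σ (σ x) = x) (e : F) (he : e ≠ 0) (hse : σ e = -e) :
    ∃ φ : Matrix.SpecialLinearGroup (Fin 2) (fixF σ) →* Matrix.SpecialLinearGroup (Fin 3) F,
      (∀ g, φ g ∈ SU3 F σ) ∧
      (∀ g, (φ g).1 = !![(g.1 0 0 : F), 0, (g.1 0 1 : F) * e; 0, 1, 0;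
        (g.1 1 0 : F) / e, 0, (g.1 1 1 : F)]) := by
  refine ⟨MonoidHom.mk' (fun g => ⟨m1 e (g.1 0 0) (g.1 0 1) (g.1 1 0) (g.1 1 1), ?_⟩) ?_, ?_,
    fun g => rfl⟩
  · have h := det_coe σ g
    simp only [m1, Matrix.det_fin_three, Matrix.of_apply, Matrix.cons_val', Matrix.cons_val_zero,
      Matrix.cons_val_one, Matrix.cons_val, mul_zero, zero_mul, sub_zero, add_zero, mul_one]
    field_simp
    linear_combination h
  · intro a b
    apply Subtype.ext
    change m1 e ((a * b).1 0 0) ((a * b).1 0 1) ((a * b).1 1 0) ((a * b).1 1 1) =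
      m1 e (a.1 0 0) (a.1 0 1) (a.1 1 0) (a.1 1 1) * m1 e (b.1 0 0) (b.1 0 1) (b.1 1 0) (b.1 1 1)
    rw [m1_mul e he, mul_coe, mul_coe, mul_coe, mul_coe]
  · intro g
    exact m1_mem σ hs e he hse _ _ _ _ (fix_coe σ _) (fix_coe σ _) (fix_coe σ _) (fix_coe σ _)
      (det_coe σ g)

private def m0 (a b c d : F) : Matrix (Fin 3) (Fin 3) F :=
  !![a ^ 2, -(a * b), -(b ^ 2 / 2); -2 * (a * c), a * d + b * c, b * d;
    -2 * c ^ 2, 2 * (c * d), d ^ 2]

private theorem m0_mul (h2 : (2 : F) ≠ 0) (a b c d a' b' c' d' : F) :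
    m0 a b c d * m0 a' b' c' d' =
      m0 (a * a' + b * c') (a * b' + b * d') (c * a' + d * c') (c * b' + d * d') := by
  ext i j
  fin_cases i <;> fin_cases j <;>
    simp [m0, Matrix.mul_apply, Fin.sum_univ_three] <;> field_simp <;> ring

private theorem m0_det (h2 : (2 : F) ≠ 0) (a b c d : F) (h : a * d - b * c = 1) :
    (m0 a b c d).det = 1 := by
  have h3 : (m0 a b c d).det = (a * d - b * c) ^ 3 := by
    simp only [m0, Matrix.det_fin_three, Matrix.of_apply, Matrix.cons_val', Matrix.cons_val_zero,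
      Matrix.cons_val_one, Matrix.cons_val]
    field_simp
    ring
  rw [h3, h, one_pow]

private theorem m0_mem (hs : ∀ x, σ (σ x) = x) (h2 : (2 : F) ≠ 0)
    (a b c d : F) (ha : σ a = a) (hb : σ b = b) (hc : σ c = c) (hd : σ d = d)
    (h : a * d - b * c = 1) : m0 a b c d * J3 F * ((m0 a b c d).map σ).transpose = J3 F := by
  have hk : a * d = 1 + b * c := by linear_combination h
  have hq : (a * d - b * c) ^ 2 = 1 := by rw [h, one_pow]
  have hs2 : σ 2 = 2 := map_ofNat σ 2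
  ext i j
  fin_cases i <;> fin_cases j <;>
    simp [m0, J3, Matrix.mul_apply, Fin.sum_univ_three, ha, hb, hc, hd, hs2] <;>
    field_simp <;>
    first
      | ring1
      | linear_combination hq

theorem phi0 (hs : ∀ x, σ (σ x) = x) (h2 : (2 : F) ≠ 0) :
    ∃ φ : Matrix.SpecialLinearGroup (Fin 2) (fixF σ) →* Matrix.SpecialLinearGroup (Fin 3) F,
      (∀ g, φ g ∈ SU3 F σ) ∧
      (∀ g, (φ g).1 = !![(g.1 0 0 : F) ^ 2, -((g.1 0 0 : F) * g.1 0 1), -((g.1 0 1 : F) ^ 2 / 2);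
        -2 * ((g.1 0 0 : F) * g.1 1 0), (g.1 0 0 : F) * g.1 1 1 + (g.1 0 1 : F) * g.1 1 0,
          (g.1 0 1 : F) * g.1 1 1;
        -2 * (g.1 1 0 : F) ^ 2, 2 * ((g.1 1 0 : F) * g.1 1 1), (g.1 1 1 : F) ^ 2]) := by
  refine ⟨MonoidHom.mk' (fun g => ⟨m0 (g.1 0 0) (g.1 0 1) (g.1 1 0) (g.1 1 1),
    m0_det h2 _ _ _ _ (det_coe σ g)⟩) ?_, ?_, fun g => rfl⟩
  · intro a b
    apply Subtype.ext
    change m0 ((a * b).1 0 0 : F) ((a * b).1 0 1) ((a * b).1 1 0) ((a * b).1 1 1) =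
      m0 (a.1 0 0 : F) (a.1 0 1) (a.1 1 0) (a.1 1 1) * m0 (b.1 0 0 : F) (b.1 0 1) (b.1 1 0) (b.1 1 1)
    rw [m0_mul h2, mul_coe, mul_coe, mul_coe, mul_coe]
  · intro g
    exact m0_mem σ hs h2 _ _ _ _ (fix_coe σ _) (fix_coe σ _) (fix_coe σ _) (fix_coe σ _)
      (det_coe σ g)

end Pool.Agent.MP_1c8e06_ag.AN
end
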