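import Pool.Agent.Lib.MP_1c8e06_ag.AN.Defs
import Pool.Agent.Lib.MP_1c8e06_ag.Mg.G088

section

set_option autoImplicit false

open scoped Classical

namespace Pool.Agent.MP_1c8e06_ag.AN

noncomputable section

/-!
# Task D1: the coefficients of the roots with respect to a base

Proof.  (Mathlib: `Mathlib/LinearAlgebra/RootSystem/Base.lean`.)  `b.exists_root_eq_sum_int i` gives `f` with `f.support ⊆ b.support`, `0 < f ∨ f < 0`, `root i = ∑ j ∈ b.support, f j • root j`; choose `c i := f`.
Uniqueness of the coefficients on `b.support`: linear independence, exactly as in the proof of `RootPairing.Base.height_eq_sum` (`Fintype.linearIndependent_iffₛ.mp (b.linearIndepOn_root.restrict_scalars' ℤ)`).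
Second: `RootPairing.Base.height_eq_sum`.  Third and fourth: `0 < c i` or `c i < 0`; in the second case the height is `≤ 0`, against `b.IsPos i : 0 < b.height i`; if `0 < c i j` for a `j` then not `c i < 0`, so the height is
`≥ 0`, and `b.isPos_iff'`.  Fifth: uniqueness for `root i = 1 • root i`.  Sixth: uniqueness, `x • root i + y • root j = ∑ (x c i s + y c j s) • root s`.
Seventh: otherwise `c i t = 0` for all `t ≠ s` in `b.support` (they are `≥ 0`), so `root i = c i s • root s`; `root i` and `root s` are linearly dependent, so `root i = root s` or `root i = - root s`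
(`RootPairing.IsReduced.linearIndependent`), the first gives `i = s` (`Φ.root.injective`), the second gives `c i s = -1 < 0` (sixth, with fifth).
-/

theorem exists_coeff {ι R M N : Type} [Finite ι] [CommRing R] [IsDomain R] [CharZero R]
    [AddCommGroup M] [Module R M] [AddCommGroup N] [Module R N] (Φ : RootPairing ι R M N)
    [Φ.IsCrystallographic] [Φ.IsReduced] (b : Φ.Base) :
    ∃ c : ι → ι → ℤ,
      (∀ i, Φ.root i = ∑ j ∈ b.support, c i j • Φ.root j) ∧
      (∀ i, b.height i = ∑ j ∈ b.support, c i j) ∧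
      (∀ i, b.IsPos i → ∀ j ∈ b.support, 0 ≤ c i j) ∧
      (∀ i, ∀ j ∈ b.support, 0 < c i j → b.IsPos i) ∧
      (∀ i ∈ b.support, ∀ j ∈ b.support, c i j = if j = i then 1 else 0) ∧
      (∀ i j l (x y : ℤ), Φ.root l = x • Φ.root i + y • Φ.root j →
        ∀ s ∈ b.support, c l s = x * c i s + y * c j s) ∧
      (∀ i, b.IsPos i → ∀ s ∈ b.support, i ≠ s → ∃ t ∈ b.support, t ≠ s ∧ 0 < c i t) := by
  have huniq : ∀ f g : ι → ℤ, ∑ j ∈ b.support, f j • Φ.root j = ∑ j ∈ b.support, g j • Φ.root j →
      ∀ j ∈ b.support, f j = g j := by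
    intro f g h j hj
    rw [b.support.sum_subtype (p := (· ∈ b.support)) (by simp) (F := inferInstance),
      b.support.sum_subtype (p := (· ∈ b.support)) (by simp) (F := inferInstance)] at h
    have aux := Fintype.linearIndependent_iffₛ.mp
      (b.linearIndepOn_root.restrict_scalars' ℤ) (f ∘ (↑)) (g ∘ (↑)) (by simpa using h)
    simpa using aux ⟨j, hj⟩
  choose c hc0 hc1 hc2 using fun i => b.exists_root_eq_sum_int i
  have hht : ∀ i, b.height i = ∑ j ∈ b.support, c i j := fun i =>
    RootPairing.Base.height_eq_sum (hc2 i)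
  have h3 : ∀ i, b.IsPos i → ∀ j ∈ b.support, 0 ≤ c i j := by
    intro i hi j _
    rcases hc1 i with h | h
    · exact h.le j
    · exfalso
      rw [RootPairing.Base.isPos_iff, hht] at hi
      exact absurd (Finset.sum_nonpos fun t _ => h.le t) (not_le.2 hi)
  have h5 : ∀ i ∈ b.support, ∀ j ∈ b.support, c i j = if j = i then 1 else 0 := by
    intro i hi
    refine huniq (c i) (fun j => if j = i then 1 else 0) ?_
    rw [← hc2 i]
    simp only [ite_smul, one_smul, zero_smul]
    rw [Finset.sum_ite_eq' b.support i]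
    simp [hi]
  have h6 : ∀ i j l (x y : ℤ), Φ.root l = x • Φ.root i + y • Φ.root j →
        ∀ s ∈ b.support, c l s = x * c i s + y * c j s := by
    intro i j l x y h
    refine huniq (c l) (fun s => x * c i s + y * c j s) ?_
    rw [← hc2 l, h]
    conv_lhs => rw [hc2 i, hc2 j]
    simp only [add_smul, Finset.sum_add_distrib, Finset.smul_sum, mul_smul]
  refine ⟨c, hc2, hht, h3, ?_, h5, h6, ?_⟩
  · intro i j hj hpos
    rw [RootPairing.Base.isPos_iff', hht]
    rcases hc1 i with h | h
    · exact Finset.sum_nonneg fun t _ => h.le t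
    · exact absurd (h.le j) (not_le.2 hpos)
  · intro i hi s hs his
    by_contra hcon
    push Not at hcon
    have hz : ∀ t ∈ b.support, t ≠ s → c i t = 0 := fun t ht hts =>
      le_antisymm (hcon t ht hts) (h3 i hi t ht)
    have hroot : Φ.root i = c i s • Φ.root s := by
      conv_lhs => rw [hc2 i]
      rw [Finset.sum_eq_single_of_mem s hs]
      intro t ht hts
      rw [hz t ht hts, zero_smul]
    have hneg : Φ.root i ≠ -Φ.root s := by
      intro h
      have e := h6 s s i (-1) 0 (by rw [h]; simp) s hs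
      rw [h5 s hs s hs] at e
      have := h3 i hi s hs
      simp at e
      omega
    have hli := RootPairing.IsReduced.linearIndependent Φ his hneg
    rw [LinearIndependent.pair_iff] at hli
    have := hli 1 (-(c i s : R)) (by
      rw [one_smul, neg_smul, Int.cast_smul_eq_zsmul, hroot, add_neg_cancel])
    exact one_ne_zero this.1

end

end Pool.Agent.MP_1c8e06_ag.AN
end

section

set_option autoImplicit false

open scoped Classical

namespace Pool.Agent.MP_1c8e06_ag.AN

noncomputable section

/-!
# Task D3: the minimal parabolic subgroups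

`Nb b X s` is generated by the `X i`, `i` positive, `i ≠ s`; `Mb b X s = posU b X ⊔ X (-s)`, where `-s = Φ.reflectionPerm s s` (`Φ.root (Φ.reflectionPerm s s) = - Φ.root s`: `RootPairing.root_reflectionPerm_self` or similar).
* `Nb_normal`.  It is enough (`Subgroup.normalizer`, generators; the `X i` are groups) that for `x ∈ X i` with `i` positive or `i = -s`, and `n ∈ X j` with `j` positive, `j ≠ s`: `x * n * x⁻¹ ∈ Nb b X s`
  (then the same for all `n ∈ Nb b X s`: conjugation by `x` is a homomorphism; and `x⁻¹ ∈ X i`).  If `i = j`: clear.  Otherwise `root i ≠ - root j` (if `i` is positive: heights, `b.height_add..`, or the sum of the coefficients; if `i = -s`: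
  otherwise `j = s`), so `h.comm` gives `x * n * x⁻¹ * n⁻¹ ∈ ⨆ l, X l`, `root l = m' • root i + n' • root j`, and every such `l` is positive and `≠ s`: with the coefficients `c` of `exists_coeff` (D1, property 6 with `x = m'`, `y = n'`,
  `natCast_zsmul`): `i` positive: all `c l t = m' c i t + n' c j t`; `c j t > 0` for some `t ≠ s` (property 7), so `c l t > 0`, `l` is positive (property 4), and `l ≠ s` since `c s t = 0` (property 5).  `i = -s`:
  `root l = (-m') • root s + n' • root j`; `c l t = n' c j t > 0` for that `t`.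
* `posU_eq`: both inclusions on generators.
* `SL2_gen_up_lo`: every `g = (a b; c d)` with `c ≠ 0` is `up ((a - 1)/c) * lo c * up ((d - 1)/c)` (check the entries, `a d - b c = 1`); if `c = 0` then `g * lo 1` has lower left entry `d ≠ 0`.
* `Mb_eq`: `φ.range ≤ X s ⊔ X (-s)` by `SL2_gen_up_lo` (`MonoidHom.range_eq_map`, `MonoidHom.map_closure`), and `X s`, `X (-s)` are contained in `φ.range`.
-/

variable {ι R M N : Type} [Finite ι] [CommRing R] [IsDomain R] [CharZero R] [AddCommGroup M]
  [Module R M] [AddCommGroup N] [Module R N] (Φ : RootPairing ι R M N) [Φ.IsCrystallographic]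
  [Φ.IsReduced] (b : Φ.Base) {p : ℕ} {K : Type} [Group K] (X : ι → Subgroup K)

private theorem D3_root_neg (s : ι) : Φ.root (Φ.reflectionPerm s s) = - Φ.root s := by
  rw [Φ.root_reflectionPerm, Φ.reflection_apply_self]

theorem Nb_normal (h : RootGroups p Φ b K X) (s : ι) (hs : s ∈ b.support) :
    ∀ m ∈ Mb b X s, ∀ n ∈ Nb b X s, m * n * m⁻¹ ∈ Nb b X s := by
  obtain ⟨c, h1, h2, h3, h4, h5, h6, h7⟩ := exists_coeff Φ b
  have hNb : ∀ l, b.IsPos l → l ≠ s → X l ≤ Nb b X s := fun l hl hls =>
    le_iSup (fun i : {i // b.IsPos i ∧ i ≠ s} => X i) ⟨l, hl, hls⟩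
  -- the commutator relation
  have key : ∀ i j, b.IsPos j → j ≠ s → i ≠ j → Φ.root i ≠ - Φ.root j →
      (∀ l (m n : ℕ), 0 < m → 0 < n → Φ.root l = m • Φ.root i + n • Φ.root j → b.IsPos l ∧ l ≠ s) →
      ∀ x ∈ X i, ∀ y ∈ X j, x * y * x⁻¹ ∈ Nb b X s := by
    intro i j hj hjs hij hneg hl x hx y hy
    have hc := h.comm i j hij hneg x hx y hy
    have hle : (⨆ l : {l // ∃ m n : ℕ, 0 < m ∧ 0 < n ∧
        Φ.root l = m • Φ.root i + n • Φ.root j}, X l) ≤ Nb b X s := by
      refine iSup_le ?_
      rintro ⟨l, m, n, hm, hn, hr⟩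
      obtain ⟨g1, g2⟩ := hl l m n hm hn hr
      exact hNb l g1 g2
    have hy' : y ∈ Nb b X s := hNb j hj hjs hy
    have := (Nb b X s).mul_mem (hle hc) hy'
    simpa using this
  have step : ∀ i, (∀ j, b.IsPos j → j ≠ s → i ≠ j → Φ.root i ≠ - Φ.root j ∧
      (∀ l (m n : ℕ), 0 < m → 0 < n → Φ.root l = m • Φ.root i + n • Φ.root j →
        b.IsPos l ∧ l ≠ s)) → X i ≤ Subgroup.normalizer (Nb b X s : Set K) := by
    intro i hi
    have h0 : ∀ x ∈ X i, ∀ n ∈ Nb b X s, x * n * x⁻¹ ∈ Nb b X s := by
      intro x hx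
      have hle : Nb b X s ≤ (Nb b X s).comap (MulAut.conj x).toMonoidHom := by
        unfold Nb
        refine iSup_le ?_
        rintro ⟨j, hj, hjs⟩ n hn
        show x * n * x⁻¹ ∈ Nb b X s
        by_cases hij : i = j
        · subst hij
          exact hNb i hj hjs ((X i).mul_mem ((X i).mul_mem hx hn) ((X i).inv_mem hx))
        · obtain ⟨g1, g2⟩ := hi j hj hjs hij
          exact key i j hj hjs hij g1 g2 x hx n hn
      intro n hn
      exact hle hn
    intro x hx
    rw [Subgroup.mem_normalizer_iff]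
    intro n
    constructor
    · intro hn
      exact h0 x hx n hn
    · intro hn
      have := h0 x⁻¹ ((X i).inv_mem hx) _ hn
      simpa [mul_assoc] using this
  have hcoef : ∀ j, b.IsPos j → j ≠ s → ∃ t ∈ b.support, t ≠ s ∧ 0 < c j t := fun j hj hjs =>
    h7 j hj s hs hjs
  have hfin : ∀ l t, t ∈ b.support → t ≠ s → 0 < c l t → b.IsPos l ∧ l ≠ s := by
    intro l t ht hts hpos
    refine ⟨h4 l t ht hpos, ?_⟩
    rintro rfl
    rw [h5 l hs t ht, if_neg hts] at hpos
    exact lt_irrefl _ hpos
  have hM : Mb b X s ≤ Subgroup.normalizer (Nb b X s : Set K) := by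
    unfold Mb posU
    refine sup_le (iSup_le ?_) ?_
    · rintro ⟨i, hi⟩
      refine step i ?_
      intro j hj hjs hij
      obtain ⟨t, ht, hts, hpos⟩ := hcoef j hj hjs
      constructor
      · intro hneg
        have := h6 i j i 0 (-1) (by rw [hneg]; simp) t ht
        have h0 := h3 i hi t ht
        linarith
      · intro l m n hm hn hr
        refine hfin l t ht hts ?_
        rw [h6 i j l m n (by rw [hr, natCast_zsmul, natCast_zsmul]) t ht]
        have h0 := h3 i hi t ht
        have hm' : (0 : ℤ) < m := by exact_mod_cast hm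
        have hn' : (0 : ℤ) < n := by exact_mod_cast hn
        have a1 : 0 ≤ (m : ℤ) * c i t := mul_nonneg hm'.le h0
        have a2 : 0 < (n : ℤ) * c j t := mul_pos hn' hpos
        linarith
    · refine step _ ?_
      intro j hj hjs hij
      obtain ⟨t, ht, hts, hpos⟩ := hcoef j hj hjs
      constructor
      · intro hneg
        rw [D3_root_neg, neg_inj] at hneg
        exact hjs (Φ.root.injective hneg).symm
      · intro l m n hm hn hr
        refine hfin l t ht hts ?_
        rw [h6 s j l (-m) n (by rw [hr, D3_root_neg, neg_smul, smul_neg, natCast_zsmul,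
          natCast_zsmul]) t ht]
        rw [h5 s hs t ht, if_neg hts]
        have hn' : (0 : ℤ) < n := by exact_mod_cast hn
        have a2 : 0 < (n : ℤ) * c j t := mul_pos hn' hpos
        linarith
  intro m hm n hn
  exact (Subgroup.mem_normalizer_iff.1 (hM hm) n).1 hn

theorem posU_eq (s : ι) (hs : s ∈ b.support) : posU b X = Nb b X s ⊔ X s := by
  obtain ⟨c, h1, h2, h3, h4, h5, h6, h7⟩ := exists_coeff Φ b
  have hpos : b.IsPos s := h4 s s hs (by rw [h5 s hs s hs, if_pos rfl]; exact one_pos)
  refine le_antisymm ?_ ?_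
  · unfold posU
    refine iSup_le ?_
    rintro ⟨i, hi⟩
    by_cases his : i = s
    · subst his
      exact le_sup_right
    · exact le_trans (le_iSup (fun i : {i // b.IsPos i ∧ i ≠ s} => X i) ⟨i, hi, his⟩) le_sup_left
  · refine sup_le ?_ ?_
    · unfold Nb
      refine iSup_le ?_
      rintro ⟨i, hi, his⟩
      exact le_iSup (fun i : {i // b.IsPos i} => X i) ⟨i, hi⟩
    · exact le_iSup (fun i : {i // b.IsPos i} => X i) ⟨s, hpos⟩

theorem SL2_gen_up_lo (F : Type) [Field F] :
    Subgroup.closure (Set.range (fun t : F => up t) ∪ Set.range (fun t : F => lo t)) = ⊤ := by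
  rw [eq_top_iff]
  have hup : ∀ t : F, up t ∈ Subgroup.closure (Set.range (fun t : F => up t) ∪
      Set.range (fun t : F => lo t)) := fun t => Subgroup.subset_closure (Or.inl ⟨t, rfl⟩)
  have hlo : ∀ t : F, lo t ∈ Subgroup.closure (Set.range (fun t : F => up t) ∪
      Set.range (fun t : F => lo t)) := fun t => Subgroup.subset_closure (Or.inr ⟨t, rfl⟩)
  have hmain : ∀ g : Matrix.SpecialLinearGroup (Fin 2) F, g.1 1 0 ≠ 0 →
      g ∈ Subgroup.closure (Set.range (fun t : F => up t) ∪ Set.range (fun t : F => lo t)) := by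
    intro g hg
    have hdet : g.1 0 0 * g.1 1 1 - g.1 0 1 * g.1 1 0 = 1 := by
      have := g.2
      rwa [Matrix.det_fin_two] at this
    have e : g = up ((g.1 0 0 - 1) / g.1 1 0) * lo (g.1 1 0) * up ((g.1 1 1 - 1) / g.1 1 0) := by
      apply Subtype.ext
      show g.1 = (!![1, (g.1 0 0 - 1) / g.1 1 0; 0, 1] * !![1, 0; g.1 1 0, 1] *
        !![1, (g.1 1 1 - 1) / g.1 1 0; 0, 1] : Matrix (Fin 2) (Fin 2) F)
      rw [Matrix.mul_fin_two, Matrix.mul_fin_two]
      ext i j
      fin_cases i <;> fin_cases j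
      · simp
        field_simp
        ring
      · simp
        field_simp
        linear_combination -hdet
      · simp
      · simp
        field_simp
        ring
    rw [e]
    exact Subgroup.mul_mem _ (Subgroup.mul_mem _ (hup _) (hlo _)) (hup _)
  intro g _
  by_cases hg : g.1 1 0 = 0
  · have hdet : g.1 0 0 * g.1 1 1 - g.1 0 1 * g.1 1 0 = 1 := by
      have := g.2
      rwa [Matrix.det_fin_two] at this
    have hd : g.1 1 1 ≠ 0 := by
      intro h0
      rw [h0, hg] at hdet
      simp at hdet
    have h1 : (g * lo 1).1 1 0 ≠ 0 := by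
      have : (g * lo 1).1 1 0 = g.1 1 0 * 1 + g.1 1 1 * 1 := by
        show (g.1 * (!![1, 0; 1, 1] : Matrix (Fin 2) (Fin 2) F)) 1 0 = _
        rw [Matrix.mul_apply, Fin.sum_univ_two]
        simp
      rw [this, hg]
      simpa using hd
    have h2 := Subgroup.mul_mem _ (hmain _ h1) (Subgroup.inv_mem _ (hlo 1))
    simpa using h2
  · exact hmain g hg

theorem Mb_eq (s : ι) (hs : s ∈ b.support) (F : Type) [Field F]
    (φ : Matrix.SpecialLinearGroup (Fin 2) F →* K)
    (h1 : (X s : Set K) = Set.range (fun t => φ (up t)))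
    (h2 : (X (Φ.reflectionPerm s s) : Set K) = Set.range (fun t => φ (lo t))) :
    Mb b X s = Nb b X s ⊔ φ.range := by
  have hr : φ.range = X s ⊔ X (Φ.reflectionPerm s s) := by
    refine le_antisymm ?_ (sup_le ?_ ?_)
    · rw [MonoidHom.range_eq_map, ← SL2_gen_up_lo F, MonoidHom.map_closure, Subgroup.closure_le]
      rintro _ ⟨g, (⟨t, rfl⟩ | ⟨t, rfl⟩), rfl⟩
      · have : φ (up t) ∈ (X s : Set K) := by
          rw [h1]
          exact ⟨t, rfl⟩
        exact (le_sup_left : X s ≤ _) this
      · have : φ (lo t) ∈ (X (Φ.reflectionPerm s s) : Set K) := by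
          rw [h2]
          exact ⟨t, rfl⟩
        exact (le_sup_right : X (Φ.reflectionPerm s s) ≤ _) this
    · intro x hx
      have : x ∈ Set.range (fun t => φ (up t)) := by
        rw [← h1]
        exact hx
      obtain ⟨t, rfl⟩ := this
      exact ⟨up t, rfl⟩
    · intro x hx
      have : x ∈ Set.range (fun t => φ (lo t)) := by
        rw [← h2]
        exact hx
      obtain ⟨t, rfl⟩ := this
      exact ⟨lo t, rfl⟩
  unfold Mb
  rw [posU_eq Φ b X s hs, hr, sup_assoc]

end

end Pool.Agent.MP_1c8e06_ag.AN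
end

section

set_option autoImplicit false

open scoped Classical

namespace Pool.Agent.MP_1c8e06_ag.AN

noncomputable section

/-!
# Task D2: going up by a simple root

`add_simple`: if `root l = root i + ∑ f s • root s` with `f s ≥ 0`, `i` positive and `l ≠ i`, then `root i + root s` is a root for some simple `s`.
Proof.  Induction on `∑ s ∈ b.support, f s` (natural number), for all `l`.  Let `q : M → ℤ`-valued form: take a root positive form `B` over `ℤ` (`Φ.posRootForm ℤ`, file `RootPositive.lean`/`Finite/CanonicalBilinear.lean`); or better the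
following argument with the pairings only: the vector `d := root l - root i = ∑ f s • root s` is not `0` (roots are injective), so `B(d,d) > 0` (positive definite on the span of the roots), `B(d,d) = ∑ f s B(d, root s)`, so there is
`s ∈ b.support` with `f s > 0` and `B(d, root s) > 0`.  Now `2 B(d, root s) = (⟨l,s^∨⟩ - ⟨i,s^∨⟩) B(root s, root s)` (with `⟨i,s^∨⟩ = Φ.pairingIn ℤ i s`), so `⟨l,s^∨⟩ > ⟨i,s^∨⟩`: either `⟨i,s^∨⟩ < 0` or `⟨l,s^∨⟩ > 0`.
* `⟨i,s^∨⟩ < 0`: `root i + root s` is a root (`Φ.root_add_root_mem_of_pairingIn_neg`, `Finite/Lemmas.lean`; `root i ≠ - root s` because `i` is positive: `b.height_..` or the coefficients of D1).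
* `⟨l,s^∨⟩ > 0`: if `l = s` then `c s = c i + f` (coefficients), so `c i s = 1 - f s ≤ 0` and `c i t = - f t ≤ 0`, against `i` positive (height `> 0`).  So `l ≠ s` and `root l - root s = root l'` is a root
  (`Φ.root_sub_root_mem_of_pairingIn_pos`), `root l' = root i + ∑ f' • root`, `f' = f` minus `1` at `s`.  If `l' = i`, then `root l = root i + root s`.  Otherwise induction.
(`B(d,d) > 0` for `d ≠ 0` in the span: see `RootPositiveForm`/`InvariantForm` in Mathlib, e.g. `RootPairing.posRootForm_..`, `RootPositive.lean`, `Finite/Nondegenerate.lean`.  Alternative without a form: use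
`Φ.RootForm`/`Φ.Polarization`, or the sum `∑ over all roots j of ⟨d, j^∨⟩ ^ 2`, which is the canonical form.)
`no_higher`: `root l = m • root i + n • root j`, `i`, `j` positive, `m, n ≥ 1`: `root l = root i + ∑ ((m - 1) c i s + n c j s) • root s` with the coefficients `c ≥ 0` of D1, and `l ≠ i` because the height of `l` is
`m * height i + n * height j > height i`.
-/

private theorem D2_form {ι R M N : Type} [Finite ι] [CommRing R] [IsDomain R] [CharZero R]
    [AddCommGroup M] [Module R M] [AddCommGroup N] [Module R N] (Φ : RootPairing ι R M N)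
    [Φ.IsCrystallographic] (i l : ι) (hl : l ≠ i) (S : Finset ι) (f : ι → ℕ)
    (hf : Φ.root l = Φ.root i + ∑ s ∈ S, f s • Φ.root s) :
    ∃ s ∈ S, 0 < f s ∧ (0 < Φ.pairingIn ℤ l s ∨ Φ.pairingIn ℤ i s < 0) := by
  have : Fintype ι := Fintype.ofFinite ι
  set B := Φ.posRootForm ℤ with hB
  have key (a j : ι) : 2 * B.posForm (Φ.rootSpanMem ℤ a) (Φ.rootSpanMem ℤ j) =
      Φ.pairingIn ℤ a j * B.posForm (Φ.rootSpanMem ℤ j) (Φ.rootSpanMem ℤ j) := by
    apply FaithfulSMul.algebraMap_injective ℤ R
    have h := B.toInvariantForm.two_mul_apply_root_root a j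
    rw [map_mul, map_mul, RootPairing.RootPositiveForm.algebraMap_posForm,
      RootPairing.RootPositiveForm.algebraMap_posForm, RootPairing.algebraMap_pairingIn, map_ofNat]
    exact h
  have hpos (j : ι) : 0 < B.posForm (Φ.rootSpanMem ℤ j) (Φ.rootSpanMem ℤ j) :=
    B.rootLength_pos j
  set d : Φ.rootSpan ℤ := Φ.rootSpanMem ℤ l - Φ.rootSpanMem ℤ i with hd
  have hd0 : d ≠ 0 := by
    intro h0
    apply hl
    apply Φ.root.injective
    have h1 := congrArg (Subtype.val) (sub_eq_zero.mp h0)
    simpa using h1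
  have hds : d = ∑ s ∈ S, f s • Φ.rootSpanMem ℤ s := by
    apply Subtype.ext
    have h1 : (d : M) = Φ.root l - Φ.root i := rfl
    rw [h1, hf, add_sub_cancel_left]
    simp
  have hdd : 0 < B.posForm d d := Φ.posRootForm_posForm_pos_of_ne_zero ℤ hd0
  have hexp : B.posForm d d = ∑ s ∈ S, (f s : ℤ) * B.posForm d (Φ.rootSpanMem ℤ s) := by
    have h1 := congrArg (B.posForm d) hds
    rw [map_sum] at h1
    rw [h1]
    refine Finset.sum_congr rfl fun s _ => ?_
    rw [map_nsmul, nsmul_eq_mul]
  rw [hexp] at hdd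
  obtain ⟨s, hs, hs'⟩ := Finset.exists_lt_of_sum_lt (s := S) (f := fun _ => (0 : ℤ))
    (g := fun s => (f s : ℤ) * B.posForm d (Φ.rootSpanMem ℤ s)) (by simpa using hdd)
  have hfs : 0 < f s := by
    rcases Nat.eq_zero_or_pos (f s) with h | h
    · simp [h] at hs'
    · exact h
  refine ⟨s, hs, hfs, ?_⟩
  have h2 : 0 < B.posForm d (Φ.rootSpanMem ℤ s) :=
    pos_of_mul_pos_right hs' (by positivity)
  have h3 : B.posForm d (Φ.rootSpanMem ℤ s) = B.posForm (Φ.rootSpanMem ℤ l) (Φ.rootSpanMem ℤ s) -
      B.posForm (Φ.rootSpanMem ℤ i) (Φ.rootSpanMem ℤ s) := by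
    rw [hd, map_sub, LinearMap.sub_apply]
  have h4 := key l s
  have h5 := key i s
  have h6 := hpos s
  by_contra hcon
  push Not at hcon
  obtain ⟨h7, h8⟩ := hcon
  have h9 : Φ.pairingIn ℤ l s * B.posForm (Φ.rootSpanMem ℤ s) (Φ.rootSpanMem ℤ s) ≤ 0 :=
    mul_nonpos_of_nonpos_of_nonneg h7 h6.le
  have h10 : 0 ≤ Φ.pairingIn ℤ i s * B.posForm (Φ.rootSpanMem ℤ s) (Φ.rootSpanMem ℤ s) :=
    mul_nonneg h8 h6.le
  omega

theorem add_simple {ι R M N : Type} [Finite ι] [CommRing R] [IsDomain R] [CharZero R]
    [AddCommGroup M] [Module R M] [AddCommGroup N] [Module R N] (Φ : RootPairing ι R M N)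
    [Φ.IsCrystallographic] [Φ.IsReduced] (b : Φ.Base) (i : ι) (hi : b.IsPos i) (l : ι)
    (hl : l ≠ i) (f : ι → ℕ) (hf : Φ.root l = Φ.root i + ∑ s ∈ b.support, f s • Φ.root s) :
    ∃ s ∈ b.support, ∃ t, Φ.root t = Φ.root i + Φ.root s := by
  obtain ⟨c, hc1, hc2, -⟩ := exists_coeff Φ b
  generalize hn : ∑ s ∈ b.support, f s = n
  induction n using Nat.strong_induction_on generalizing l f with
  | _ n ih =>
  obtain ⟨s, hs, hfs, h⟩ := D2_form Φ i l hl b.support f hf
  have hhs : b.height s = 1 := b.height_one_of_mem_support hs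
  have hhi : 0 < b.height i := hi
  rcases h with h | h
  · have hhl : b.height l = b.height i + ∑ t ∈ b.support, (f t : ℤ) := by
      have h1 : Φ.root l = ∑ t ∈ b.support, (fun t => c i t + (f t : ℤ)) t • Φ.root t := by
        simp only [add_smul, Finset.sum_add_distrib, natCast_zsmul]
        rw [← hc1 i, hf]
      rw [RootPairing.Base.height_eq_sum h1, hc2 i, ← Finset.sum_add_distrib]
    have hls : l ≠ s := by
      rintro rfl
      have h2 : (f l : ℤ) ≤ ∑ t ∈ b.support, (f t : ℤ) :=
        Finset.single_le_sum (f := fun t => (f t : ℤ)) (fun _ _ => by positivity) hs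
      omega
    obtain ⟨l', hl'⟩ := Φ.root_sub_root_mem_of_pairingIn_pos h hls
    by_cases hli : l' = i
    · subst hli
      exact ⟨s, hs, l, by rw [hl']; abel⟩
    · have hsum : ∑ t ∈ b.support, f t • Φ.root t =
          ∑ t ∈ b.support, (Function.update f s (f s - 1)) t • Φ.root t + Φ.root s := by
        rw [← Finset.add_sum_erase _ _ hs, ← Finset.add_sum_erase b.support
          (fun t => (Function.update f s (f s - 1)) t • Φ.root t) hs]
        have h3 : ∑ t ∈ b.support.erase s, (Function.update f s (f s - 1)) t • Φ.root t =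
            ∑ t ∈ b.support.erase s, f t • Φ.root t := by
          refine Finset.sum_congr rfl fun t ht => ?_
          rw [Function.update_of_ne (Finset.ne_of_mem_erase ht)]
        rw [h3]
        simp only [Function.update_self]
        obtain ⟨q, hq⟩ : ∃ q, f s = q + 1 := ⟨f s - 1, by omega⟩
        rw [hq, Nat.add_sub_cancel, add_smul, one_smul]
        abel
      have hsum' : ∑ t ∈ b.support, (Function.update f s (f s - 1)) t < n := by
        rw [← hn]
        apply Finset.sum_lt_sum
        · intro t _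
          by_cases hts : t = s
          · subst hts
            simp
          · rw [Function.update_of_ne hts]
        · exact ⟨s, hs, by simp; omega⟩
      refine ih _ hsum' l' hli _ ?_ rfl
      rw [hl', hf, hsum]
      abel
  · have hne : Φ.root i ≠ - Φ.root s := by
      intro h1
      have h2 : Φ.root i = Φ.root s + (-2 : ℤ) • Φ.root s := by
        rw [h1]
        module
      have h3 := b.height_add_zsmul h2
      rw [hhs] at h3
      simp at h3
      omega
    obtain ⟨t, ht⟩ := Φ.root_add_root_mem_of_pairingIn_neg h hne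
    exact ⟨s, hs, t, ht⟩

theorem no_higher {ι R M N : Type} [Finite ι] [CommRing R] [IsDomain R] [CharZero R]
    [AddCommGroup M] [Module R M] [AddCommGroup N] [Module R N] (Φ : RootPairing ι R M N)
    [Φ.IsCrystallographic] [Φ.IsReduced] (b : Φ.Base) (i j l : ι) (hi : b.IsPos i)
    (hj : b.IsPos j) (m n : ℕ) (hm : 0 < m) (hn : 0 < n)
    (hl : Φ.root l = m • Φ.root i + n • Φ.root j) :
    ∃ s ∈ b.support, ∃ t, Φ.root t = Φ.root i + Φ.root s := by
  obtain ⟨c, hc1, hc2, hc3, hc4, hc5, hc6, hc7⟩ := exists_coeff Φ b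
  have hcl : ∀ s ∈ b.support, c l s = (m : ℤ) * c i s + (n : ℤ) * c j s := by
    apply hc6 i j l
    rw [hl, natCast_zsmul, natCast_zsmul]
  have hhi : 0 < b.height i := hi
  have hhj : 0 < b.height j := hj
  have hne : l ≠ i := by
    rintro rfl
    have h1 : b.height l = (m : ℤ) * b.height l + (n : ℤ) * b.height j := by
      conv_lhs => rw [hc2 l, Finset.sum_congr rfl hcl]
      rw [Finset.sum_add_distrib, ← Finset.mul_sum, ← Finset.mul_sum, ← hc2, ← hc2]
    have h2 : b.height l ≤ (m : ℤ) * b.height l := by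
      have h3 : (1 : ℤ) ≤ (m : ℤ) := by exact_mod_cast hm
      nlinarith
    have h3 : 0 < (n : ℤ) * b.height j := by positivity
    omega
  refine add_simple Φ b i hi l hne (fun s => ((((m : ℤ) - 1) * c i s + (n : ℤ) * c j s)).toNat) ?_
  have h1 : ∀ s ∈ b.support,
      ((((m : ℤ) - 1) * c i s + (n : ℤ) * c j s)).toNat • Φ.root s =
        (c l s - c i s) • Φ.root s := by
    intro s hs
    have h2 : 0 ≤ (((m : ℤ) - 1) * c i s + (n : ℤ) * c j s) := by
      have h3 := hc3 i hi s hs
      have h4 := hc3 j hj s hs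
      have h5 : (0 : ℤ) ≤ (m : ℤ) - 1 := by
        have : (1 : ℤ) ≤ (m : ℤ) := by exact_mod_cast hm
        omega
      positivity
    rw [← natCast_zsmul, Int.toNat_of_nonneg h2, hcl s hs]
    congr 1
    ring
  rw [Finset.sum_congr rfl h1]
  simp only [sub_smul, Finset.sum_sub_distrib]
  rw [← hc1 l, ← hc1 i]
  abel

end

end Pool.Agent.MP_1c8e06_ag.AN
end

section

set_option autoImplicit false

open scoped Classical

namespace Pool.Agent.MP_1c8e06_ag.AN

noncomputable section

/-!
# Task D4: the closure condition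

Proof.  `A ≤ posU b X` is given; we show `X i ≤ A` for all positive `i`, by induction on `(B - b.height i).toNat`, where `B` is an upper bound of the heights (`ι` is finite).
Case 1: there is no `s ∈ b.support` with `root i + root s` a root.  Then every `x ∈ X i` commutes with every element of `posU b X`: it is enough to commute with `y ∈ X j`, `j` positive (centraliser: `Subgroup.centralizer`, or
`Subgroup.iSup_induction`/`Subgroup.closure_induction`).  If `j = i`...: take care: `X i` need not be commutative, but `X i` IS commutative, because it is the image of ... only for simple `i`.  So for `j = i` argue as follows: by `h.levi` all `X s`,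
`s` simple, are commutative (`up t * up t' = up (t + t')`), and `X i` is conjugate to some `X s`: see `X_comm` below.
If `j ≠ i`: `root i ≠ - root j` (both positive), `h.comm` puts `x * y * x⁻¹ * y⁻¹` in the supremum over an empty family (`no_higher`, D2, would give the excluded `s`), i.e. it is `1`.
So `X i ≤ A` by the hypothesis `hcen`.
Case 2: there are `s ∈ b.support` and `t` with `root t = root i + root s`; `b.height t = b.height i + 1` (`b.height_add`, `b.height_one_of_mem_support`), `t` is positive.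
 2a: `Φ.pairingIn ℤ i s < 0`.  `i ≠ s` (`pairingIn i i = 2`).  `i' := Φ.reflectionPerm s i` is positive (`RootPairing.Base.IsPos.reflectionPerm`) and `b.height i' = b.height i - Φ.pairingIn ℤ i s > b.height i`
   (`b.height_add_zsmul`, see the proof of `IsPos.induction_on_reflect`).  By induction `X i' ≤ A`.  `h.levi s`: `w := φ (wF F)`; for `x ∈ X i'`: `w * x * w⁻¹ ∈ X (Φ.reflectionPerm s i') = X i`; we need the converse: every `y ∈ X i` is of this form:
   apply the property to `j = i` : `w * y * w⁻¹ ∈ X i'`, and to get back use `w⁻¹`: `w ^ 4 = 1` (`wF F ^ 2 = -1`), so `w⁻¹ = w ^ 3`, `y = w ^ 3 * (w * y * w⁻¹) * (w ^ 3)⁻¹`..., or a counting argument: conjugation by `w` maps `X i` injectively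
   into `X i'`.  So with `z := w * y * w⁻¹ ∈ X i' ≤ A`, `y = w⁻¹ * z * w ∈ clo (Mb b X s) A` (`w ∈ Mb b X s`: `wF F` is a product of `up`, `lo`'s: `wF F = up (-1) * lo 1 * up (-1)`; `X s ≤ posU b X ≤ Mb b X s`), and `y ∈ posU b X`; `hcl`.
 2b: `0 ≤ Φ.pairingIn ℤ i s`: `h.short i hi s hs t`: either all `x ∈ X i` commute with `posU b X`: `hcen`; or `X i ≤ clo (X s ⊔ X (-s)) (X t)`, `X t ≤ A` by induction, `X s ⊔ X (-s) ≤ Mb b X s`, so
   `X i ≤ clo (Mb b X s) A ⊓ posU b X ≤ A`.
`X_comm`: for a positive root `i` (in fact for all) `X i` is commutative: `RootPairing.Base.IsPos.induction_on_reflect` (or `b.induction_reflect`) with `p i := ∀ x y ∈ X i, x * y = y * x`: for simple `i` by `h.levi`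
(`X i = range (φ ∘ up)`); if `X j` is commutative then so is `X (s j)`: for `x, y ∈ X (s j)`: `w * x * w⁻¹, w * y * w⁻¹ ∈ X (s (s j)) = X j`.
-/

variable {ι R M N : Type} [Finite ι] [CommRing R] [IsDomain R] [CharZero R] [AddCommGroup M]
  [Module R M] [AddCommGroup N] [Module R N] (Φ : RootPairing ι R M N) [Φ.IsCrystallographic]
  [Φ.IsReduced] (b : Φ.Base) {p : ℕ} {K : Type} [Group K] (X : ι → Subgroup K)

private theorem D4_up_mul {F : Type} [Field F] (s t : F) : up s * up t = up (s + t) := by
  apply Subtype.ext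
  simp only [up, Matrix.SpecialLinearGroup.coe_mul]
  ext i j
  fin_cases i <;> fin_cases j <;> simp [Matrix.mul_apply, Fin.sum_univ_two]
  ring

private theorem D4_wF {F : Type} [Field F] : wF F = up (-1) * lo 1 * up (-1) := by
  apply Subtype.ext
  simp only [up, lo, wF, Matrix.SpecialLinearGroup.coe_mul]
  ext i j
  fin_cases i <;> fin_cases j <;> simp [Matrix.mul_apply, Fin.sum_univ_two]

theorem X_comm (h : RootGroups p Φ b K X) (i : ι) (hi : b.IsPos i) :
    ∀ x ∈ X i, ∀ y ∈ X i, x * y = y * x := by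
  refine hi.induction_on_reflect (p := fun i => ∀ x ∈ X i, ∀ y ∈ X i, x * y = y * x) ?_ ?_
  · intro i hi x hx y hy
    obtain ⟨F, _, _, _, φ, h1, _, _⟩ := h.levi i hi
    have hx' : x ∈ (X i : Set K) := hx
    have hy' : y ∈ (X i : Set K) := hy
    rw [h1] at hx' hy'
    obtain ⟨t, rfl⟩ := hx'
    obtain ⟨t', rfl⟩ := hy'
    simp only
    rw [← map_mul, ← map_mul, D4_up_mul, D4_up_mul, add_comm]
  · intro i j hij hj x hx y hy
    obtain ⟨F, _, _, _, φ, _, _, h3⟩ := h.levi j hj
    have hx' := h3 _ x hx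
    have hy' := h3 _ y hy
    rw [Φ.reflectionPerm_self] at hx' hy'
    have hc := hij _ hx' _ hy'
    have hc2 : φ (wF F) * (x * y) * (φ (wF F))⁻¹ = φ (wF F) * (y * x) * (φ (wF F))⁻¹ := by
      calc φ (wF F) * (x * y) * (φ (wF F))⁻¹
          = φ (wF F) * x * (φ (wF F))⁻¹ * (φ (wF F) * y * (φ (wF F))⁻¹) := by group
        _ = φ (wF F) * y * (φ (wF F))⁻¹ * (φ (wF F) * x * (φ (wF F))⁻¹) := hc
        _ = φ (wF F) * (y * x) * (φ (wF F))⁻¹ := by group
    exact mul_left_cancel (mul_right_cancel hc2)

private theorem D4_clo_mono {M M' A A' : Subgroup K} (hM : M ≤ M') (hA : A ≤ A') :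
    clo M A ≤ clo M' A' := by
  refine Subgroup.closure_mono ?_
  rintro y ⟨m, hm, a, ha, rfl⟩
  exact ⟨m, hM hm, a, hA ha, rfl⟩

theorem closed_roots (h : RootGroups p Φ b K X) (A : Subgroup K) (hA : A ≤ posU b X)
    (hcen : ∀ z ∈ posU b X, (∀ u ∈ posU b X, z * u = u * z) → z ∈ A)
    (hcl : ∀ s ∈ b.support, clo (Mb b X s) A ⊓ posU b X ≤ A) : A = posU b X := by
  have hXU : ∀ i, b.IsPos i → X i ≤ posU b X := fun i hi =>
    le_iSup (fun i : {i // b.IsPos i} => X i) ⟨i, hi⟩
  have hneg : ∀ i j, b.IsPos i → b.IsPos j → Φ.root i ≠ -Φ.root j := by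
    intro i j hi hj hij
    let := Φ.indexNeg
    have h1 : i = -j := Φ.root_eq_neg_iff.1 hij
    have h2 : b.height i = - b.height j := by
      rw [h1]
      exact b.height_reflectionPerm_self j
    have h3 : 0 < b.height i := hi
    have h4 : 0 < b.height j := hj
    omega
  obtain ⟨B, hB⟩ : ∃ B, ∀ i, b.height i ≤ B := by
    obtain ⟨B, hB⟩ := (Set.finite_range b.height).bddAbove
    exact ⟨B, fun i => hB ⟨i, rfl⟩⟩
  have main : ∀ (n : ℕ) (i : ι), b.IsPos i → (B - b.height i).toNat = n → X i ≤ A := by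
    intro n
    induction n using Nat.strong_induction_on with
    | _ n ih =>
    intro i hi hn
    have hih : ∀ j, b.IsPos j → b.height i < b.height j → X j ≤ A := by
      intro j hj hij
      refine ih (B - b.height j).toNat ?_ j hj rfl
      have := hB i
      have := hB j
      omega
    by_cases hex : ∃ s ∈ b.support, ∃ t, Φ.root t = Φ.root i + Φ.root s
    · obtain ⟨s, hs, t, ht⟩ := hex
      have hht : b.height t = b.height i + 1 := by
        rw [b.height_add ht, RootPairing.Base.height_one_of_mem_support hs]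
      have htpos : b.IsPos t := hi.add (RootPairing.Base.isPos_of_mem_support hs) ht
      rcases lt_or_ge (Φ.pairingIn ℤ i s) 0 with hneg' | hnn
      · have his : i ≠ s := by
          rintro rfl
          have : Φ.pairingIn ℤ i i = 2 := Φ.pairingIn_same ℤ i
          omega
        have hi' : b.IsPos (Φ.reflectionPerm s i) := hi.reflectionPerm hs his
        have hh' : b.height (Φ.reflectionPerm s i) = b.height i - Φ.pairingIn ℤ i s := by
          have h1 := Φ.reflection_apply_root' ℤ (i := s) (j := i)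
          rw [← Φ.root_reflectionPerm, sub_eq_add_neg, ← neg_smul] at h1
          rw [b.height_add_zsmul h1, RootPairing.Base.height_one_of_mem_support hs]
          simp only [smul_eq_mul, mul_one]
          ring
        have hA' := hih _ hi' (by rw [hh']; omega)
        obtain ⟨F, _, _, _, φ, h1, h2, h3⟩ := h.levi s hs
        have hup : ∀ t, φ (up t) ∈ Mb b X s := by
          intro t
          have h4 : φ (up t) ∈ (X s : Set K) := by
            rw [h1]
            exact ⟨t, rfl⟩
          exact (le_sup_left : posU b X ≤ Mb b X s)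
            (hXU s (RootPairing.Base.isPos_of_mem_support hs) h4)
        have hlo : ∀ t, φ (lo t) ∈ Mb b X s := by
          intro t
          have h4 : φ (lo t) ∈ (X (Φ.reflectionPerm s s) : Set K) := by
            rw [h2]
            exact ⟨t, rfl⟩
          exact (le_sup_right : X (Φ.reflectionPerm s s) ≤ Mb b X s) h4
        have hw : φ (wF F) ∈ Mb b X s := by
          rw [D4_wF, map_mul, map_mul]
          exact (Mb b X s).mul_mem ((Mb b X s).mul_mem (hup _) (hlo _)) (hup _)
        intro y hy
        refine hcl s hs ⟨?_, hXU i hi hy⟩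
        refine Subgroup.subset_closure ⟨(φ (wF F))⁻¹, (Mb b X s).inv_mem hw,
          φ (wF F) * y * (φ (wF F))⁻¹, hA' (h3 i y hy), ?_⟩
        group
      · rcases h.short i hi s hs t ht hnn with hc | hc
        · exact fun x hx => hcen x (hXU i hi hx) (hc x hx)
        · have hs' : X s ⊔ X (Φ.reflectionPerm s s) ≤ Mb b X s :=
            sup_le ((hXU s (RootPairing.Base.isPos_of_mem_support hs)).trans le_sup_left) le_sup_right
          have hXt : X t ≤ A := hih t htpos (by omega)
          exact (le_inf (hc.trans (D4_clo_mono hs' hXt)) (hXU i hi)).trans (hcl s hs)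
    · intro x hx
      refine hcen x (hXU i hi hx) ?_
      have hle : posU b X ≤ Subgroup.centralizer {x} := by
        refine iSup_le ?_
        rintro ⟨j, hj⟩ y hy
        rw [Subgroup.mem_centralizer_iff]
        rintro z hz
        rw [Set.mem_singleton_iff] at hz
        subst hz
        by_cases hij : i = j
        · subst hij
          exact X_comm Φ b X h i hi z hx y hy
        · have h1 := h.comm i j hij (hneg i j hi hj) z hx y hy
          have hemp : IsEmpty {l // ∃ m n : ℕ, 0 < m ∧ 0 < n ∧
              Φ.root l = m • Φ.root i + n • Φ.root j} := by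
            refine ⟨?_⟩
            rintro ⟨l, m, n, hm, hn', hl⟩
            exact hex (no_higher Φ b i j l hi hj m n hm hn' hl)
          rw [iSup_of_empty, Subgroup.mem_bot] at h1
          calc z * y = (z * y * z⁻¹ * y⁻¹) * (y * z) := by group
            _ = y * z := by rw [h1, one_mul]
      intro u hu
      have := (Subgroup.mem_centralizer_iff.1 (hle hu)) x rfl
      exact this
  refine le_antisymm hA (iSup_le ?_)
  rintro ⟨i, hi⟩
  exact main _ i hi rfl

end

end Pool.Agent.MP_1c8e06_ag.AN
end

section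

set_option autoImplicit false

namespace Pool.Agent.MP_1c8e06_ag.AN

/-!
# Task SU3t: transvections

`transv`: `Y` contains the centraliser of `y = uU 0 b` (`b ≠ 0`, `σ b = - b`) and the range of every homomorphism `SL_2(F₀) → SU_3` whose range contains `y`.  `y` commutes with all `uU c d` (`uU_mul`: both products are `uU c (d + b)`), so they are in `Y` (`uU_mem`).
`phi1` with `e := b`: `φ (up 1) = uU 0 b = y` (compare matrices), so `φ g ∈ Y` for all `g`; `φ (lo 1)` has `(2,0)` entry `1/b ≠ 0`.  `SU3_gen`.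
`torus`: if `Y` contains all `uU 0 d` and all `nU * uU 0 d * nU` (`σ d = - d`) then `hU l ∈ Y` for all units `l` with `σ l = l`: `phi1` for some `e ≠ 0` with `σ e = - e` (`e = x - σ x`): `φ (up t) = uU 0 (t e)`, `φ (lo t) = nU * uU 0 (t/e) * nU` (matrices), all `φ (up t)`,
`φ (lo t)` are in `Y`, so `φ g ∈ Y` for all `g` (`SL2_gen_up_lo`, D3), in particular for `g = (l 0; 0 l⁻¹)`, and `φ g = hU l` (`σ l / l = 1`).
-/

theorem transv {F : Type} [Field F] (σ : F ≃+* F) (hs : ∀ x, σ (σ x) = x)
    (h1 : ∃ x, σ x ≠ x) (b : F) (hb : b ≠ 0) (hsb : σ b = -b)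
    (Y : Subgroup (Matrix.SpecialLinearGroup (Fin 3) F)) (hY : Y ≤ SU3 F σ)
    (hC : ∀ z ∈ SU3 F σ, z * uU σ 0 b = uU σ 0 b * z → z ∈ Y)
    (hφ : ∀ φ : Matrix.SpecialLinearGroup (Fin 2) (fixF σ) →* Matrix.SpecialLinearGroup (Fin 3) F,
      (∀ g, φ g ∈ SU3 F σ) → uU σ 0 b ∈ φ.range → ∀ g, φ g ∈ Y) : Y = SU3 F σ := by
  obtain ⟨φ, hφ1, hφ2⟩ := phi1 σ hs b hb hsb
  have hup : φ (up 1) = uU σ 0 b := by
    apply Subtype.ext
    rw [hφ2]
    simp [up, uU]
  have hall : ∀ g, φ g ∈ Y := hφ φ hφ1 ⟨up 1, hup⟩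
  refine SU3_gen σ hs h1 Y hY ?_ (φ (lo 1)) (hall _) ?_
  · intro a c hv
    refine hC _ (uU_mem σ hs hv) ?_
    rw [uU_mul, uU_mul]
    simp [add_comm]
  · rw [hφ2]
    simp [lo, hb]

theorem torus {F : Type} [Field F] (σ : F ≃+* F) (hs : ∀ x, σ (σ x) = x)
    (h1 : ∃ x, σ x ≠ x) (Y : Subgroup (Matrix.SpecialLinearGroup (Fin 3) F))
    (hZ : ∀ d, σ d = -d → uU σ 0 d ∈ Y) (hZ' : ∀ d, σ d = -d → nU F * uU σ 0 d * nU F ∈ Y)
    (l : Fˣ) (hl : σ l = l) : hU σ l ∈ Y := by
  obtain ⟨x, hx⟩ := h1
  have he : x - σ x ≠ 0 := fun h => hx (sub_eq_zero.1 h).symm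
  have hse : σ (x - σ x) = -(x - σ x) := by
    rw [map_sub, hs]
    ring
  obtain ⟨φ, hφ1, hφ2⟩ := phi1 σ hs (x - σ x) he hse
  set e := x - σ x with hedef
  have hfix : ∀ t : fixF σ, σ (t : F) = t := fun t => t.2
  have hup : ∀ t : fixF σ, φ (up t) = uU σ 0 ((t : F) * e) := by
    intro t
    apply Subtype.ext
    rw [hφ2]
    simp [up, uU]
  have hlo : ∀ t : fixF σ, φ (lo t) = nU F * uU σ 0 ((t : F) / e) * nU F := by
    intro t
    apply Subtype.ext
    rw [hφ2, Matrix.SpecialLinearGroup.coe_mul, Matrix.SpecialLinearGroup.coe_mul]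
    ext i j
    fin_cases i <;> fin_cases j <;>
      simp [lo, uU, nU, Matrix.mul_apply, Fin.sum_univ_three]
  have hall : ∀ g, φ g ∈ Y := by
    intro g
    have hg : g ∈ Subgroup.closure (Set.range (fun t : fixF σ => up t) ∪
        Set.range (fun t : fixF σ => lo t)) := by
      rw [SL2_gen_up_lo]
      trivial
    induction hg using Subgroup.closure_induction with
    | mem y hy =>
      rcases hy with ⟨t, rfl⟩ | ⟨t, rfl⟩
      · change φ (up t) ∈ Y
        rw [hup]
        apply hZ
        rw [map_mul, hfix, hse]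
        ring
      · change φ (lo t) ∈ Y
        rw [hlo]
        apply hZ'
        rw [map_div₀, hfix, hse]
        rw [div_neg]
    | one =>
      rw [map_one]
      exact one_mem _
    | mul y z _ _ hy hz =>
      rw [map_mul]
      exact mul_mem hy hz
    | inv y _ hy =>
      rw [map_inv]
      exact inv_mem hy
  have hl0 : (l : F) ≠ 0 := l.ne_zero
  let L : fixF σ := ⟨(l : F), hl⟩
  have hL0 : L ≠ 0 := fun h => hl0 (congrArg Subtype.val h)
  let g : Matrix.SpecialLinearGroup (Fin 2) (fixF σ) :=
    ⟨!![L, 0; 0, L⁻¹], by simp [Matrix.det_fin_two_of, hL0]⟩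
  have hg : φ g = hU σ l := by
    apply Subtype.ext
    rw [hφ2]
    simp [g, hU, hl, L, hl0]
  rw [← hg]
  exact hall g

end Pool.Agent.MP_1c8e06_ag.AN
end
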