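import Mathlib

section

set_option autoImplicit false

namespace Pool.Agent.MP_1c8e06_ag.AL

noncomputable section

/-!
# Task SQ: additive subgroups stable under multiplication by squares

Proof.  Let `S` be the additive subgroup of `F` generated by the squares.  It is closed under multiplication (`s² t² = (s t)²`).  It contains
more than half of the elements of `F`: if `F` has characteristic `2` every element is a square (`x ↦ x²` is injective, hence bijective); otherwise the
squares are `(|F| + 1) / 2` elements (the map `x ↦ x²` is at most two-to-one: `|F| ≤ 2 * #squares - 1`).  An additive subgroup with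
more than `|F| / 2` elements is everything (Lagrange).  So every `x ∈ F` is a sum of squares (and `S` as an additive subgroup is `⊤`).
Let `0 ≠ c ∈ C`; `C` is stable under multiplication by squares, hence by all elements of `S = F`; `x = (x / c) * c ∈ C`.
(Alternative for odd characteristic: every element is `((x+1)/2)² - ((x-1)/2)²`, a difference of two squares; in characteristic `2` every
element is a square.  This proves the statement at once: `x = s² - t²`, so `x c = s² c - t² c ∈ C`.)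
-/

theorem SQ {F : Type} [Field F] [Finite F] (C : AddSubgroup F)
    (hC : ∀ (s c : F), c ∈ C → s ^ 2 * c ∈ C) (c : F) (hc : c ∈ C) (hc0 : c ≠ 0) : C = ⊤ := by
  rw [AddSubgroup.eq_top_iff']
  intro x
  by_cases h2 : ringChar F = 2
  · obtain ⟨s, hs⟩ := FiniteField.isSquare_of_char_two h2 (x / c)
    have h := hC s c hc
    have e : s ^ 2 * c = x := by
      rw [pow_two, ← hs, div_mul_cancel₀ x hc0]
    rwa [e] at h
  · have h20 : (2 : F) ≠ 0 := Ring.two_ne_zero h2
    have h := C.sub_mem (hC ((x / c + 1) / 2) c hc) (hC ((x / c - 1) / 2) c hc)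
    have e : ((x / c + 1) / 2) ^ 2 * c - ((x / c - 1) / 2) ^ 2 * c = x := by
      have e1 : ((x / c + 1) / 2) ^ 2 * c - ((x / c - 1) / 2) ^ 2 * c = (x / c) * c := by
        field_simp
        ring
      rw [e1, div_mul_cancel₀ x hc0]
    rwa [e] at h

end

end Pool.Agent.MP_1c8e06_ag.AL
end

section

set_option autoImplicit false

open Equiv

namespace Pool.Agent.MP_1c8e06_ag.AM

/-!
# Task K1: three-cycles in a subgroup of a symmetric group

`swap a b * swap a c` maps `a ↦ c ↦ b ↦ a` for distinct `a, b, c`.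
Proofs.
* `T3_rot`: `swap a b * swap a c = swap b c * swap b a` (both map `a ↦ c`, `c ↦ b`, `b ↦ a`; `Equiv.ext`, `swap_apply_def`,
  `split_ifs`).  `T3_swap`: inverse.
* `T3_ext`: `(swap a b * swap a c)` and `(swap a b * swap a d)`: `(swap a b * swap a c)⁻¹ * (swap a b * swap a d)
  = swap a c * swap a d`.
* `T3_conj`: `m * swap a b * m⁻¹ = swap (m a) (m b)` (`Equiv.swap_apply_apply`-type lemma).
* `alt_le`: `Equiv.Perm.closure_three_cycles_eq_alternating`; a three cycle `f` with `f a ≠ a` is `swap a (f (f a)) * swap a (f a)`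
  (`Equiv.Perm.IsThreeCycle`; `Equiv.Perm.card_support_eq_three_iff`, `isThreeCycle_swap_mul_swap_same`).
-/

variable {Ω : Type} [DecidableEq Ω]

/-- The three-cycle on `a, b, c` is in `M`. -/
def T3 (M : Subgroup (Perm Ω)) (a b c : Ω) : Prop := swap a b * swap a c ∈ M

theorem T3_rot {M : Subgroup (Perm Ω)} {a b c : Ω} (hab : a ≠ b) (hac : a ≠ c) (hbc : b ≠ c)
    (h : T3 M a b c) : T3 M b c a := by
  unfold T3 at *
  have e : swap a b * swap a c = swap b c * swap b a := by
    ext x
    simp only [Perm.mul_apply, swap_apply_def]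
    split_ifs <;> simp_all
  rw [← e]
  exact h

theorem T3_swap {M : Subgroup (Perm Ω)} {a b c : Ω} (h : T3 M a b c) : T3 M a c b := by
  unfold T3 at *
  have h1 := M.inv_mem h
  rw [mul_inv_rev, swap_inv, swap_inv] at h1
  exact h1

theorem T3_ext {M : Subgroup (Perm Ω)} {a b c d : Ω} (h1 : T3 M a b c) (h2 : T3 M a b d) :
    T3 M a c d := by
  unfold T3 at *
  have h := M.mul_mem (M.inv_mem h1) h2
  have e : (swap a b * swap a c)⁻¹ * (swap a b * swap a d) = swap a c * swap a d := by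
    rw [mul_inv_rev, swap_inv, swap_inv, mul_assoc, ← mul_assoc (swap a b) (swap a b) (swap a d),
      swap_mul_self, one_mul]
  rw [e] at h
  exact h

theorem T3_conj {M : Subgroup (Perm Ω)} {a b c : Ω} {m : Perm Ω} (hm : m ∈ M) (h : T3 M a b c) :
    T3 M (m a) (m b) (m c) := by
  unfold T3 at *
  rw [swap_apply_apply, swap_apply_apply]
  have h1 := M.mul_mem (M.mul_mem hm h) (M.inv_mem hm)
  have e : m * swap a b * m⁻¹ * (m * swap a c * m⁻¹) = m * (swap a b * swap a c) * m⁻¹ := by
    group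
  rw [e]
  exact h1

private theorem K1_three [Fintype Ω] {f : Perm Ω} (hf : f.IsThreeCycle) :
    ∃ a b c : Ω, a ≠ b ∧ a ≠ c ∧ b ≠ c ∧ f = swap a b * swap a c := by
  have hc : f.support.card = 3 := hf.card_support
  have h3 : f ^ 3 = 1 := by
    rw [← hf.orderOf]
    exact pow_orderOf_eq_one f
  have hne : f.support.Nonempty := by
    rw [← Finset.card_pos, hc]
    norm_num
  obtain ⟨a, ha⟩ := hne
  have ha' : f a ≠ a := Perm.mem_support.mp ha
  have h3a : f (f (f a)) = a := by
    have := congrArg (fun g : Perm Ω => g a) h3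
    simpa [pow_succ, Perm.mul_apply] using this
  have hca : f (f a) ≠ a := by
    intro h
    rw [h] at h3a
    exact ha' h3a
  have hbc : f a ≠ f (f a) := by
    intro h
    exact ha' (f.injective h).symm
  have hsub : ({a, f a, f (f a)} : Finset Ω) ⊆ f.support := by
    intro x hx
    simp only [Finset.mem_insert, Finset.mem_singleton] at hx
    rw [Perm.mem_support]
    rcases hx with rfl | rfl | rfl
    · exact ha'
    · exact hbc.symm
    · rw [h3a]
      exact hca.symm
  have hcard : ({a, f a, f (f a)} : Finset Ω).card = 3 := by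
    rw [Finset.card_eq_three]
    exact ⟨a, f a, f (f a), ha'.symm, hca.symm, hbc, rfl⟩
  have heq : ({a, f a, f (f a)} : Finset Ω) = f.support :=
    Finset.eq_of_subset_of_card_le hsub (by rw [hc, hcard])
  refine ⟨a, f (f a), f a, hca.symm, ha'.symm, hbc.symm, ?_⟩
  ext x
  by_cases hx : x ∈ f.support
  · rw [← heq] at hx
    simp only [Finset.mem_insert, Finset.mem_singleton] at hx
    rcases hx with rfl | rfl | rfl
    · rw [Perm.mul_apply, swap_apply_left, swap_apply_of_ne_of_ne ha' hbc]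
    · rw [Perm.mul_apply, swap_apply_right, swap_apply_left]
    · rw [Perm.mul_apply, swap_apply_of_ne_of_ne hca hbc.symm, swap_apply_right, h3a]
  · have hfx : f x = x := by
      rw [Perm.mem_support, not_not] at hx
      exact hx
    rw [← heq] at hx
    simp only [Finset.mem_insert, Finset.mem_singleton, not_or] at hx
    rw [Perm.mul_apply, swap_apply_of_ne_of_ne hx.1 hx.2.1, swap_apply_of_ne_of_ne hx.1 hx.2.2, hfx]

theorem alt_le [Fintype Ω] {M : Subgroup (Perm Ω)}
    (h : ∀ a b c, a ≠ b → a ≠ c → b ≠ c → T3 M a b c) : alternatingGroup Ω ≤ M := by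
  rw [← Perm.closure_three_cycles_eq_alternating, Subgroup.closure_le]
  intro f hf
  obtain ⟨a, b, c, hab, hac, hbc, e⟩ := K1_three hf
  rw [e]
  exact h a b c hab hac hbc

end Pool.Agent.MP_1c8e06_ag.AM
end

section

set_option autoImplicit false
set_option linter.unusedSimpArgs false

open Equiv

namespace Pool.Agent.MP_1c8e06_ag.AM

/-!
# Task K2: three-cycles from double transpositions

`u(x,y) := swap x y * swap (σ (σ x)) (σ (σ y))`, in `M` for all moved `x, y` in different cycles of `σ` (`hU`).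
Proof.  `p` is odd, `σ ^ p = 1`; all cycles have length `p`: for moved `x`: `(σ ^ i) x = (σ ^ j) x ↔ i ≡ j [MOD p]`.
(1) For every `j ≥ 1`: `swap x y * swap ((σ^(2*j)) x) ((σ^(2*j)) y) ∈ M` (induction: multiply by `u(σ^(2j) x, σ^(2j) y)`; the
    points `σ^n x, σ^n y` are again moved and in different cycles).  Hence for every `m` with `¬ p ∣ m` (take `j = m (p+1)/2`,
    `σ^(m (p+1)) = σ^m`): `U m x y := swap x y * swap ((σ^m) x) ((σ^m) y) ∈ M`.
(2) `p ≥ 5`: `u := U 2 x y = swap x y * swap (σ²x) (σ²y)`, `v := U 3 x (σ y) = swap x (σ y) * swap (σ³x) (σ⁴y)`.  The points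
    `x, σ²x, σ³x, y, σy, σ²y, σ⁴y` are distinct, so `u * v = (swap x y * swap x (σ y)) * (swap (σ²x) (σ²y) * swap (σ³x) (σ⁴y))` with
    commuting factors, the second of order `2`; `(u v)^2 = (swap x y * swap x (σ y))^2 = (swap x y * swap x (σ y))⁻¹`.
(3) `p = 3`: for all `x, y`: `u(x,y) * u(x,σy) * u(x,y) * u(x,σ²y)` is a three-cycle on `σ²x, y, σy` (it maps `σ²x ↦ y ↦ σy ↦ σ²x` and
    fixes `x, σx, σ²y`; check on the six points and outside).  Apply this with `σ x` for `x` (`σ³ = 1`).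
-/

private lemma K2_word {Ω : Type} [DecidableEq Ω] (a0 a2 b0 b1 b2 : Ω)
    (h1 : a0 ≠ a2) (h2 : a0 ≠ b0) (h3 : a0 ≠ b1) (h4 : a0 ≠ b2) (h5 : a2 ≠ b0) (h6 : a2 ≠ b1)
    (h7 : a2 ≠ b2) (h8 : b0 ≠ b1) (h9 : b0 ≠ b2) (h10 : b1 ≠ b2) :
    (swap a0 b0 * swap a2 b2) * (swap a0 b1 * swap a2 b0) * (swap a0 b0 * swap a2 b2) *
      (swap a0 b2 * swap a2 b1) = swap a2 b1 * swap a2 b0 := by
  ext z
  simp only [Perm.mul_apply]
  by_cases e0 : z = a0
  · subst e0
    simp [swap_apply_def, h1, h2, h3, h4, h5, h6, h7, h8, h9, h10, h1.symm, h2.symm, h3.symm,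
      h4.symm, h5.symm, h6.symm, h7.symm, h8.symm, h9.symm, h10.symm]
  by_cases e1 : z = a2
  · subst e1
    simp [swap_apply_def, h1, h2, h3, h4, h5, h6, h7, h8, h9, h10, h1.symm, h2.symm, h3.symm,
      h4.symm, h5.symm, h6.symm, h7.symm, h8.symm, h9.symm, h10.symm]
  by_cases e2 : z = b0
  · subst e2
    simp [swap_apply_def, h1, h2, h3, h4, h5, h6, h7, h8, h9, h10, h1.symm, h2.symm, h3.symm,
      h4.symm, h5.symm, h6.symm, h7.symm, h8.symm, h9.symm, h10.symm]
  by_cases e3 : z = b1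
  · subst e3
    simp [swap_apply_def, h1, h2, h3, h4, h5, h6, h7, h8, h9, h10, h1.symm, h2.symm, h3.symm,
      h4.symm, h5.symm, h6.symm, h7.symm, h8.symm, h9.symm, h10.symm]
  by_cases e4 : z = b2
  · subst e4
    simp [swap_apply_def, h1, h2, h3, h4, h5, h6, h7, h8, h9, h10, h1.symm, h2.symm, h3.symm,
      h4.symm, h5.symm, h6.symm, h7.symm, h8.symm, h9.symm, h10.symm]
  simp [swap_apply_def, e0, e1, e2, e3, e4]

private lemma K2_cube {Ω : Type} [DecidableEq Ω] (a b c : Ω) (hab : a ≠ b) (hac : a ≠ c)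
    (hbc : b ≠ c) :
    (swap a b * swap a c) * (swap a b * swap a c) = (swap a b * swap a c)⁻¹ := by
  rw [mul_inv_rev, swap_inv, swap_inv]
  ext z
  simp only [Perm.mul_apply]
  by_cases e0 : z = a
  · subst e0
    simp [swap_apply_def, hab, hac, hbc, hab.symm, hac.symm, hbc.symm]
  by_cases e1 : z = b
  · subst e1
    simp [swap_apply_def, hab, hac, hbc, hab.symm, hac.symm, hbc.symm]
  by_cases e2 : z = c
  · subst e2
    simp [swap_apply_def, hab, hac, hbc, hab.symm, hac.symm, hbc.symm]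
  simp [swap_apply_def, e0, e1, e2]

private lemma K2_comm {Ω : Type} [DecidableEq Ω] (a b c d : Ω) (h1 : a ≠ c) (h2 : a ≠ d)
    (h3 : b ≠ c) (h4 : b ≠ d) : Commute (swap a b) (swap c d) := by
  have h := Equiv.mul_swap_eq_swap_mul (swap a b) c d
  rw [swap_apply_of_ne_of_ne h1.symm h3.symm, swap_apply_of_ne_of_ne h2.symm h4.symm] at h
  exact h

private lemma K2_ne {p : ℕ} (hp : p.Prime) {Ω : Type} (σ : Perm Ω)
    (hσ : σ ^ p = 1) (x : Ω) (hx : σ x ≠ x) (m : ℕ) (hm : ¬ p ∣ m) : (σ ^ m) x ≠ x := by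
  intro h
  apply hx
  have h1 : Function.IsPeriodicPt σ m x := by
    show (σ^[m]) x = x
    rw [← Perm.iterate_eq_pow] at h
    exact h
  have h2 : Function.IsPeriodicPt σ p x := by
    show (σ^[p]) x = x
    rw [Perm.iterate_eq_pow, hσ]
    rfl
  have h3 := h1.gcd h2
  have h4 : Nat.gcd m p = 1 := by
    have := (Nat.Prime.coprime_iff_not_dvd hp).2 hm
    exact (Nat.Coprime.symm this)
  rw [h4] at h3
  exact h3

private lemma K2_ne2 {p : ℕ} (hp : p.Prime) {Ω : Type} (σ : Perm Ω)
    (hσ : σ ^ p = 1) (x : Ω) (hx : σ x ≠ x) (i m : ℕ) (hm : ¬ p ∣ m) :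
    (σ ^ (i + m)) x ≠ (σ ^ i) x := by
  intro h
  rw [pow_add, Perm.mul_apply] at h
  exact K2_ne hp σ hσ x hx m hm ((σ ^ i).injective h)

theorem three_cycle {p : ℕ} (hp : p.Prime) (hp2 : p ≠ 2) {Ω : Type} [DecidableEq Ω] (σ : Perm Ω)
    (hσ : σ ^ p = 1) (M : Subgroup (Perm Ω))
    (hU : ∀ x y, σ x ≠ x → σ y ≠ y → ¬ σ.SameCycle x y →
      swap x y * swap (σ (σ x)) (σ (σ y)) ∈ M) (x y : Ω) (hx : σ x ≠ x) (hy : σ y ≠ y)
    (hxy : ¬ σ.SameCycle x y) : T3 M x y (σ y) := by
  -- moved points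
  have hmv : ∀ (z : Ω) (n : ℕ), σ z ≠ z → σ ((σ ^ n) z) ≠ (σ ^ n) z := by
    intro z n hz h
    apply hz
    have h1 : (σ ^ n) (σ z) = (σ ^ n) z := by
      rw [← Perm.mul_apply, ← pow_succ, pow_succ', Perm.mul_apply]
      exact h
    exact (σ ^ n).injective h1
  have hsc : ∀ (a b : Ω) (i j : ℕ), ¬ σ.SameCycle a b → ¬ σ.SameCycle ((σ ^ i) a) ((σ ^ j) b) := by
    intro a b i j h h'
    exact h (by simpa using h')
  have hne : ∀ (i j : ℕ), (σ ^ i) x ≠ (σ ^ j) y := by
    intro i j h
    apply hsc x y i j hxy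
    rw [h]
  -- step 1
  have h1 : ∀ (a b : Ω), σ a ≠ a → σ b ≠ b → ¬ σ.SameCycle a b → ∀ j : ℕ, 1 ≤ j →
      swap a b * swap ((σ ^ (2 * j)) a) ((σ ^ (2 * j)) b) ∈ M := by
    intro a b ha hb hab j hj
    induction j, hj using Nat.le_induction with
    | base =>
      have := hU a b ha hb hab
      simpa [pow_succ] using this
    | succ j hj ih =>
      have h2 := hU ((σ ^ (2 * j)) a) ((σ ^ (2 * j)) b) (hmv a _ ha) (hmv b _ hb)
        (hsc a b _ _ hab)
      have h3 := M.mul_mem ih h2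
      have h4 : ∀ c : Ω, σ (σ ((σ ^ (2 * j)) c)) = (σ ^ (2 * (j + 1))) c := by
        intro c
        have : 2 * (j + 1) = (2 * j + 1) + 1 := by ring
        rw [this, pow_succ', pow_succ']
        rfl
      rw [h4, h4] at h3
      have h5 : swap a b * swap ((σ ^ (2 * j)) a) ((σ ^ (2 * j)) b) *
          (swap ((σ ^ (2 * j)) a) ((σ ^ (2 * j)) b) *
            swap ((σ ^ (2 * (j + 1))) a) ((σ ^ (2 * (j + 1))) b)) =
          swap a b * swap ((σ ^ (2 * (j + 1))) a) ((σ ^ (2 * (j + 1))) b) := by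
        rw [mul_assoc, ← mul_assoc (swap ((σ ^ (2 * j)) a) ((σ ^ (2 * j)) b)), swap_mul_self,
          one_mul]
      rw [h5] at h3
      exact h3
  have hodd : ∃ t, p + 1 = 2 * t := by
    rcases hp.eq_two_or_odd' with h | h
    · exact absurd h hp2
    · obtain ⟨k, hk⟩ := h
      exact ⟨k + 1, by omega⟩
  obtain ⟨t, ht⟩ := hodd
  have hUm : ∀ (a b : Ω), σ a ≠ a → σ b ≠ b → ¬ σ.SameCycle a b → ∀ m : ℕ, 1 ≤ m →
      swap a b * swap ((σ ^ m) a) ((σ ^ m) b) ∈ M := by
    intro a b ha hb hab m hm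
    have ht1 : 1 ≤ t := by
      have := hp.pos
      omega
    have h2 := h1 a b ha hb hab (m * t) (Nat.mul_pos hm ht1)
    have h3 : σ ^ (2 * (m * t)) = σ ^ m := by
      have : 2 * (m * t) = p * m + m := by
        have : 2 * (m * t) = m * (2 * t) := by ring
        rw [this, ← ht]
        ring
      rw [this, pow_add, pow_mul, hσ, one_pow, one_mul]
    rw [h3] at h2
    exact h2
  have hp3 : 3 ≤ p := by
    have := hp.two_le
    omega
  by_cases h5 : 5 ≤ p
  · -- p at least 5
    have hd : ∀ m : ℕ, 1 ≤ m → m < 5 → ¬ p ∣ m := by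
      intro m hm hm5 h
      have := Nat.le_of_dvd hm h
      omega
    have hy1 : σ (σ y) ≠ σ y := by
      have := hmv y 1 hy
      simpa using this
    have hxy1 : ¬ σ.SameCycle x (σ y) := by
      have := hsc x y 0 1 hxy
      simpa using this
    have u := hUm x y hx hy hxy 2 (by norm_num)
    have v := hUm x (σ y) hx hy1 hxy1 3 (by norm_num)
    have e4 : (σ ^ 3) (σ y) = (σ ^ 4) y := by
      rw [pow_succ σ 3]
      rfl
    rw [e4] at v
    -- distinctness
    have hX2 : (σ ^ 2) x ≠ x := K2_ne hp σ hσ x hx 2 (hd 2 (by norm_num) (by norm_num))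
    have hX3 : (σ ^ 3) x ≠ x := K2_ne hp σ hσ x hx 3 (hd 3 (by norm_num) (by norm_num))
    have hX23 : (σ ^ 3) x ≠ (σ ^ 2) x :=
      K2_ne2 hp σ hσ x hx 2 1 (hd 1 (by norm_num) (by norm_num))
    have hY1 : σ y ≠ y := hy
    have hY2 : (σ ^ 2) y ≠ y := K2_ne hp σ hσ y hy 2 (hd 2 (by norm_num) (by norm_num))
    have hY4 : (σ ^ 4) y ≠ y := K2_ne hp σ hσ y hy 4 (hd 4 (by norm_num) (by norm_num))
    have hY12 : (σ ^ 2) y ≠ σ y := by
      have := K2_ne2 hp σ hσ y hy 1 1 (hd 1 (by norm_num) (by norm_num))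
      simpa using this
    have hY14 : (σ ^ 4) y ≠ σ y := by
      have := K2_ne2 hp σ hσ y hy 1 3 (hd 3 (by norm_num) (by norm_num))
      simpa using this
    have hY24 : (σ ^ 4) y ≠ (σ ^ 2) y :=
      K2_ne2 hp σ hσ y hy 2 2 (hd 2 (by norm_num) (by norm_num))
    have n0 : x ≠ y := by simpa using hne 0 0
    have n1 : x ≠ σ y := by simpa using hne 0 1
    have n2 : x ≠ (σ ^ 2) y := by simpa using hne 0 2
    have n4 : x ≠ (σ ^ 4) y := by simpa using hne 0 4
    have m0 : (σ ^ 2) x ≠ y := by simpa using hne 2 0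
    have m1 : (σ ^ 2) x ≠ σ y := by simpa using hne 2 1
    have m2 : (σ ^ 2) x ≠ (σ ^ 2) y := hne 2 2
    have m4 : (σ ^ 2) x ≠ (σ ^ 4) y := hne 2 4
    have k0 : (σ ^ 3) x ≠ y := by simpa using hne 3 0
    have k1 : (σ ^ 3) x ≠ σ y := by simpa using hne 3 1
    have k2 : (σ ^ 3) x ≠ (σ ^ 2) y := hne 3 2
    have k4 : (σ ^ 3) x ≠ (σ ^ 4) y := hne 3 4
    have c1 : Commute (swap ((σ ^ 2) x) ((σ ^ 2) y)) (swap x (σ y)) :=
      K2_comm _ _ _ _ hX2 m1 n2.symm hY12
    have c2 : Commute (swap x y) (swap ((σ ^ 2) x) ((σ ^ 2) y)) :=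
      K2_comm _ _ _ _ hX2.symm n2 m0.symm hY2.symm
    have c3 : Commute (swap x y) (swap ((σ ^ 3) x) ((σ ^ 4) y)) :=
      K2_comm _ _ _ _ hX3.symm n4 k0.symm hY4.symm
    have c4 : Commute (swap x (σ y)) (swap ((σ ^ 3) x) ((σ ^ 4) y)) :=
      K2_comm _ _ _ _ hX3.symm n4 k1.symm hY14.symm
    have c5 : Commute (swap ((σ ^ 2) x) ((σ ^ 2) y)) (swap ((σ ^ 3) x) ((σ ^ 4) y)) :=
      K2_comm _ _ _ _ hX23.symm m4 k2.symm hY24.symm
    set a := swap x y with ha
    set b := swap x (σ y) with hb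
    set c := swap ((σ ^ 2) x) ((σ ^ 2) y) with hc
    set d := swap ((σ ^ 3) x) ((σ ^ 4) y) with hdd
    have huv := M.mul_mem u v
    have e1 : a * c * (b * d) = (a * b) * (c * d) := by
      rw [mul_assoc, ← mul_assoc c b d, c1.eq, mul_assoc, mul_assoc]
    have cc : Commute (a * b) (c * d) :=
      (Commute.mul_left (c2.mul_right c3) (c1.symm.mul_right c4))
    have e2 : (c * d) * (c * d) = 1 := by
      have : (c * d) * (c * d) = (c * c) * (d * d) := by
        rw [mul_assoc, ← mul_assoc d c d, ← c5.eq]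
        simp only [mul_assoc]
      rw [this, hc, hdd, swap_mul_self, swap_mul_self, one_mul]
    have e3 : (a * b) * (a * b) = (a * b)⁻¹ := K2_cube x y (σ y) n0 n1 hy.symm
    have e4 : (a * c * (b * d)) * (a * c * (b * d)) = (a * b)⁻¹ := by
      rw [e1]
      have : (a * b) * (c * d) * ((a * b) * (c * d)) = ((a * b) * (a * b)) * ((c * d) * (c * d)) := by
        rw [mul_assoc (a * b) (c * d), ← mul_assoc (c * d) (a * b) (c * d), ← cc.eq]
        simp only [mul_assoc]
      rw [this, e2, e3, mul_one]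
    have h6 := M.mul_mem huv huv
    rw [e4] at h6
    exact (M.inv_mem_iff).1 h6
  · -- p = 3
    have hp3' : p = 3 := by
      have h4 : p ≠ 4 := by
        intro h
        rw [h] at hp
        exact absurd hp (by norm_num)
      omega
    subst hp3'
    have hs3 : ∀ z : Ω, σ (σ (σ z)) = z := by
      intro z
      have : (σ ^ 3) z = z := by rw [hσ]; rfl
      simpa [pow_succ] using this
    have key : ∀ (a b : Ω), σ a ≠ a → σ b ≠ b → ¬ σ.SameCycle a b → T3 M (σ (σ a)) b (σ b) := by
      intro a b ha hb hab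
      have hneab : ∀ (i j : ℕ), (σ ^ i) a ≠ (σ ^ j) b := by
        intro i j h
        apply hsc a b i j hab
        rw [h]
      have u0 := hU a b ha hb hab
      have u1 := hU a (σ b) ha (by simpa using hmv b 1 hb) (by simpa using hsc a b 0 1 hab)
      have u2 := hU a (σ (σ b)) ha (by simpa [pow_succ] using hmv b 2 hb)
        (by simpa [pow_succ] using hsc a b 0 2 hab)
      rw [hs3] at u1 u2
      have hw := M.mul_mem (M.mul_mem (M.mul_mem u0 u1) u0) u2
      have e := K2_word a (σ (σ a)) b (σ b) (σ (σ b))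
        (by
          have := K2_ne hp σ hσ a ha 2 (by norm_num)
          simpa [pow_succ] using this.symm)
        (by simpa using hneab 0 0) (by simpa using hneab 0 1)
        (by simpa [pow_succ] using hneab 0 2) (by simpa [pow_succ] using hneab 2 0)
        (by simpa [pow_succ] using hneab 2 1) (by simpa [pow_succ] using hneab 2 2)
        hb.symm
        (by
          have := K2_ne hp σ hσ b hb 2 (by norm_num)
          simpa [pow_succ] using this.symm)
        (by
          have := hmv b 1 hb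
          simpa using this.symm)
      rw [e] at hw
      exact T3_swap hw
    have h6 := key (σ x) y (by simpa using hmv x 1 hx) hy (by simpa using hsc x y 1 0 hxy)
    rw [hs3] at h6
    exact h6

end Pool.Agent.MP_1c8e06_ag.AM
end
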