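import Pool.Agent.Lib.MP_1c8e06_ag.Mg.G074
import Pool.Agent.Lib.MP_1c8e06_ag.AI.A0
import Pool.Agent.Lib.MP_1c8e06_ag.Mg.G081

section

set_option autoImplicit false

open Polynomial

namespace Pool.Agent.MP_1c8e06_ag.AL

noncomputable section

/-!
# Task M3: Laurent series modulo `c ^ p - c`

Proof.  `f` has finitely many coefficients in degrees `≤ 0`: let `Q := ∑_{n < B} C (f.coeff (-n)) * X ^ n` with `B` larger than
`-f.order` (as a natural number, `f.coeff m = 0` for `m ≤ -B`).  `AI.zinv κ (X ^ n) = single (-n) 1`, so `f - AI.zinv κ Q` has no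
coefficient in degrees `≤ 0`: it is (the image in Laurent series of) `X * g₁` for a power series `g₁`
(`HahnSeries.ofPowerSeries`, or `single 1 1 * (g₁ : LaurentSeries κ)`).  `exists_fix` for
`Φ d := X ^ (p - 1) * d ^ p - g₁` (`p - 1 ≥ 1`): `d = X ^ (p - 1) * d ^ p - g₁`.  Put `c :=` the image of `X * d`:
`c ^ p - c = X * (X ^ (p - 1) * d ^ p - d) = X * g₁`.
-/

theorem M3_fix {p : ℕ} [hp : Fact p.Prime] {κ : Type} [Field κ] (g : PowerSeries κ) :
    ∃ d : PowerSeries κ, PowerSeries.X ^ (p - 1) * d ^ p - g = d := by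
  refine exists_fix (fun d => PowerSeries.X ^ (p - 1) * d ^ p - g) ?_
  intro n a b hab
  rw [map_sub, map_sub, PowerSeries.coeff_X_pow_mul', PowerSeries.coeff_X_pow_mul']
  congr 1
  by_cases h : p - 1 ≤ n
  · rw [if_pos h, if_pos h]
    have h1 : (PowerSeries.X : PowerSeries κ) ^ n ∣ a - b := by
      rw [PowerSeries.X_pow_dvd_iff]
      intro m hm
      rw [map_sub, hab m hm, sub_self]
    have h2 : (PowerSeries.X : PowerSeries κ) ^ n ∣ a ^ p - b ^ p :=
      h1.trans (sub_dvd_pow_sub_pow a b p)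
    rw [PowerSeries.X_pow_dvd_iff] at h2
    have hp2 := hp.out.two_le
    by_cases hn : n = 0
    · omega
    · have h3 := h2 (n - (p - 1)) (by omega)
      rw [map_sub] at h3
      exact sub_eq_zero.1 h3
  · rw [if_neg h, if_neg h]

theorem exists_Qc {p : ℕ} [hp : Fact p.Prime] {κ : Type} [Field κ] [CharP κ p]
    (f : LaurentSeries κ) :
    ∃ (Q : κ[X]) (c : LaurentSeries κ), AI.zinv κ Q + c ^ p - c = f ∧
      ∀ n : ℕ, Q.coeff n = f.coeff (-(n : ℤ)) := by
  obtain ⟨Q, hQ⟩ : ∃ Q : κ[X], ∀ n : ℕ, Q.coeff n = f.coeff (-(n : ℤ)) := by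
    refine ⟨∑ n ∈ Finset.range ((-f.order).toNat + 1), Polynomial.monomial n (f.coeff (-(n : ℤ))),
      fun n => ?_⟩
    rw [Polynomial.finsetSum_coeff]
    simp only [Polynomial.coeff_monomial]
    rw [Finset.sum_ite_eq' (Finset.range ((-f.order).toNat + 1)) n
      (fun m : ℕ => f.coeff (-(m : ℤ)))]
    split_ifs with h
    · rfl
    · rw [Finset.mem_range, not_lt] at h
      exact (HahnSeries.coeff_eq_zero_of_lt_order (by omega)).symm
  obtain ⟨g, hg⟩ : ∃ g : PowerSeries κ, ∀ n : ℕ, PowerSeries.coeff n g = f.coeff ((n : ℤ) + 1) :=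
    ⟨PowerSeries.mk fun n => f.coeff ((n : ℤ) + 1), fun n => PowerSeries.coeff_mk n _⟩
  obtain ⟨d, hd⟩ := M3_fix (p := p) g
  refine ⟨Q, HahnSeries.ofPowerSeries ℤ κ (PowerSeries.X * d), ?_, hQ⟩
  have hp1 : p - 1 + 1 = p := Nat.sub_add_cancel hp.out.one_le
  have h1 : (PowerSeries.X * d) ^ p - PowerSeries.X * d = PowerSeries.X * g := by
    have h2 : PowerSeries.X ^ (p - 1) * d ^ p - d = g := by
      rw [sub_eq_iff_eq_add] at hd ⊢
      rw [hd, add_comm]
    rw [← h2, mul_pow]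
    conv_lhs => rw [← hp1, pow_succ]
    rw [hp1]
    ring
  rw [add_sub_assoc, ← map_pow, ← map_sub, h1]
  ext m
  rw [HahnSeries.coeff_add, AI.zinv_coeff]
  have h3 : (HahnSeries.ofPowerSeries ℤ κ (PowerSeries.X * g)).coeff m =
      if m < 0 then 0 else PowerSeries.coeff m.natAbs (PowerSeries.X * g) :=
    PowerSeries.coeff_coe _ _
  rw [h3]
  rcases lt_trichotomy m 0 with hm | hm | hm
  · rw [if_pos hm.le, if_pos hm, hQ, add_zero]
    congr 1
    omega
  · subst hm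
    simp [hQ]
  · rw [if_neg (by omega), if_neg (by omega), zero_add]
    obtain ⟨n, rfl⟩ : ∃ n : ℕ, m = (n : ℤ) + 1 := ⟨(m - 1).toNat, by omega⟩
    have h4 : ((n : ℤ) + 1).natAbs = n + 1 := by omega
    rw [h4, PowerSeries.coeff_succ_X_mul, hg]

end

end Pool.Agent.MP_1c8e06_ag.AL
end

section

set_option autoImplicit false

open Equiv

namespace Pool.Agent.MP_1c8e06_ag.AM

/-!
# Task K3: all three-cycles on the support

Assume that `σ` has at least two cycles (`h2`).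
Proof.  (a) For `x` and `y` in different cycles and `y' ≠ y` in the cycle of `y`: `T3 M x y y'`: `y' = (σ^n) y`, induction on `n`:
`T3 M x y (σ^n y)` and `T3 M x (σ^n y) (σ^(n+1) y)` (`three_cycle`), share `x, σ^n y`, so `T3 M x y (σ^(n+1) y)` (rotations,
`T3_ext`; if `σ^n y = y` use `three_cycle` directly; if `σ^(n+1) y = y` there is nothing to prove).
(b) Three distinct moved points `a, b, c`: if two of them are in one cycle and the third is not: (a).
If they are in three different cycles: let `a' := σ a`: `T3 M b a a'`, `T3 M c a a'` by (a): share `a, a'`, so `T3 M a b c`.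
If all are in one cycle: take `x` in another cycle (`h2`): `T3 M x a b`, `T3 M x a c`: share `x, a`: `T3 M a b c` (`T3_ext` and
rotations).
-/

private theorem K3_move {Ω : Type} {σ : Perm Ω} {x y : Ω} (h : σ.SameCycle x y) (hx : σ x ≠ x) :
    σ y ≠ y := by
  intro hy
  apply hx
  obtain ⟨i, rfl⟩ := h
  have h1 : (σ ^ i) (σ x) = (σ ^ i) x := by
    have h2 : (σ ^ i) (σ x) = σ ((σ ^ i) x) := by
      rw [← Perm.mul_apply, ← Perm.mul_apply]
      congr 1
      exact ((Commute.refl σ).zpow_left i).eq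
    rw [h2, hy]
  exact (σ ^ i).injective h1

private theorem K3_pow {p : ℕ} (hp : p.Prime) (hp2 : p ≠ 2) {Ω : Type} [DecidableEq Ω] (σ : Perm Ω)
    (hσ : σ ^ p = 1) (M : Subgroup (Perm Ω))
    (hU : ∀ x y, σ x ≠ x → σ y ≠ y → ¬ σ.SameCycle x y →
      swap x y * swap (σ (σ x)) (σ (σ y)) ∈ M) (x y : Ω) (hx : σ x ≠ x) (hy : σ y ≠ y)
    (hxy : ¬ σ.SameCycle x y) (n : ℕ) : (σ ^ n) y ≠ y → T3 M x y ((σ ^ n) y) := by
  induction n with
  | zero => intro h; exact absurd rfl h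
  | succ n ih =>
    intro h
    have e : (σ ^ (n + 1)) y = σ ((σ ^ n) y) := by rw [pow_succ', Perm.mul_apply]
    rw [e] at h ⊢
    by_cases hz : (σ ^ n) y = y
    · rw [hz]
      exact three_cycle hp hp2 σ hσ M hU x y hx hy hxy
    · have hs : σ.SameCycle y ((σ ^ n) y) := ⟨(n : ℤ), by rw [zpow_natCast]⟩
      have h1 : T3 M x ((σ ^ n) y) (σ ((σ ^ n) y)) :=
        three_cycle hp hp2 σ hσ M hU x _ hx (K3_move hs hy) (fun h' => hxy (h'.trans hs.symm))
      exact T3_ext (T3_swap (ih hz)) h1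

private theorem K3_a {p : ℕ} (hp : p.Prime) (hp2 : p ≠ 2) {Ω : Type} [DecidableEq Ω] (σ : Perm Ω)
    (hσ : σ ^ p = 1) (M : Subgroup (Perm Ω))
    (hU : ∀ x y, σ x ≠ x → σ y ≠ y → ¬ σ.SameCycle x y →
      swap x y * swap (σ (σ x)) (σ (σ y)) ∈ M) (x y z : Ω) (hx : σ x ≠ x) (hy : σ y ≠ y)
    (hxy : ¬ σ.SameCycle x y) (hyz : σ.SameCycle y z) (hne : y ≠ z) : T3 M x y z := by
  obtain ⟨i, hi⟩ := hyz
  have hp0 : (0 : ℤ) < (p : ℤ) := by exact_mod_cast hp.pos
  have h1 : σ ^ i = σ ^ ((i % (p : ℤ)).toNat) := by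
    rw [zpow_eq_zpow_emod i (n := (p : ℤ)) (by rw [zpow_natCast]; exact hσ), ← zpow_natCast,
      Int.toNat_of_nonneg (Int.emod_nonneg i hp0.ne')]
  rw [h1] at hi
  have := K3_pow hp hp2 σ hσ M hU x y hx hy hxy ((i % (p : ℤ)).toNat)
  rw [hi] at this
  exact this hne.symm

theorem T3_support {p : ℕ} (hp : p.Prime) (hp2 : p ≠ 2) {Ω : Type} [DecidableEq Ω] (σ : Perm Ω)
    (hσ : σ ^ p = 1) (M : Subgroup (Perm Ω))
    (hU : ∀ x y, σ x ≠ x → σ y ≠ y → ¬ σ.SameCycle x y →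
      swap x y * swap (σ (σ x)) (σ (σ y)) ∈ M)
    (h2 : ∀ y, σ y ≠ y → ∃ x, σ x ≠ x ∧ ¬ σ.SameCycle x y) (a b c : Ω) (ha : σ a ≠ a)
    (hb : σ b ≠ b) (hc : σ c ≠ c) (hab : a ≠ b) (hac : a ≠ c) (hbc : b ≠ c) : T3 M a b c := by
  have A := K3_a hp hp2 σ hσ M hU
  by_cases s1 : σ.SameCycle a b
  · by_cases s2 : σ.SameCycle a c
    · obtain ⟨x, hx, hxa⟩ := h2 a ha
      have hxa' : x ≠ a := fun h => hxa (h ▸ Perm.SameCycle.refl σ x)
      have hxb : x ≠ b := fun h => hxa (by rw [h]; exact s1.symm)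
      have hxc : x ≠ c := fun h => hxa (by rw [h]; exact s2.symm)
      have t1 : T3 M x a b := A x a b hx ha hxa s1 hab
      have t2 : T3 M x a c := A x a c hx ha hxa s2 hac
      have u1 : T3 M a x b := T3_swap (T3_rot hxa' hxb hab t1)
      have u2 : T3 M a x c := T3_swap (T3_rot hxa' hxc hac t2)
      exact T3_ext u1 u2
    · have t : T3 M c a b := A c a b hc ha (fun h => s2 h.symm) s1 hab
      exact T3_rot hac.symm hbc.symm hab t
  · by_cases s2 : σ.SameCycle a c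
    · have t : T3 M b a c := A b a c hb ha (fun h => s1 h.symm) s2 hac
      exact T3_swap (T3_rot hab.symm hbc hac t)
    · by_cases s3 : σ.SameCycle b c
      · exact A a b c ha hb s1 s3 hbc
      · have hs : σ.SameCycle a (σ a) := ⟨1, by rw [zpow_one]⟩
        have t1 : T3 M b a (σ a) := A b a (σ a) hb ha (fun h => s1 h.symm) hs ha.symm
        have t2 : T3 M c a (σ a) := A c a (σ a) hc ha (fun h => s2 h.symm) hs ha.symm
        have hb' : b ≠ σ a := fun h => s1 (by rw [h]; exact hs)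
        have hc' : c ≠ σ a := fun h => s2 (by rw [h]; exact hs)
        exact T3_ext (T3_rot hab.symm hb' ha.symm t1) (T3_rot hac.symm hc' ha.symm t2)

end Pool.Agent.MP_1c8e06_ag.AM
end

section

set_option autoImplicit false

open Equiv

namespace Pool.Agent.MP_1c8e06_ag.AM

/-!
# Task K4: the subgroup contains the alternating group

`hW`: for a moved point `y` and a fixed point `x₀` the permutation `w` which acts on `{σ^t y} ∪ {x₀} = ZMod p ∪ {∞}` as
`t ↦ -1/t` and trivially elsewhere is in `M`.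
Proof.  Let `y` be a moved point (`σ ≠ 1`).
Case A: there is a moved point not in the cycle of `y` (then `h2` of `T3_support` holds for all moved points): all `T3 M a b c`
with moved distinct `a, b, c`.  For a fixed point `x₀`: conjugate `T3 M y (σ y) (σ^2 y)` by `w` (`T3_conj`; for `p = 3` also fine:
`w (σ y) = σ^(-1) y`, `w (σ^2 y) = σ^(-1/2) y`): `T3 M x₀ b b'` with moved `b ≠ b'`.  With `T3 M b b' c` for moved `c` (and `T3_ext`):
`T3 M x₀ b c`, and then `T3 M x₀ c d` for all moved distinct `c, d`.  For fixed points `x₀ ≠ x₁`: `T3 M x₀ b b'`, `T3 M x₁ b b'`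
give `T3 M x₀ x₁ b` for all moved `b`.  For three fixed points: `T3 M x₀ x₁ b`, `T3 M x₀ x₂ b` give `T3 M x₀ x₁ x₂`.
Case B: all moved points are in the cycle of `y`, so there are exactly `p` moved points (the cycle has at most `p` elements)
and, as `p + 2 ≤ card Ω`, at least two fixed points.  For fixed `x₀ ≠ x₁` and moved `b`: let `w₀, w₁` be the permutations of
`hW` for `(b, x₀)`, `(b, x₁)`.  `w₀ * w₁⁻¹` is the three-cycle on `b, x₀, x₁`: they agree on `σ^t b`, `t ≠ 0`, and are involutions there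
(`-1/(-1/t) = t`): `w₁⁻¹` maps `x₁ ↦ b`, `b ↦ x₁`, `σ^t b ↦ σ^(-1/t) b`; so `w₀ * w₁⁻¹` maps `x₁ ↦ b ↦ x₀`.. precisely `x₁ ↦ w₀ b = x₀`,
`b ↦ w₀ x₁ = x₁`, `x₀ ↦ w₀ x₀ = b`, everything else is fixed.  So `T3 M b x₀ x₁` for all moved `b` and fixed `x₀ ≠ x₁`.
Then `T3 M x₀ b c` for moved `b ≠ c` (`T3 M x₀ x₁ b`, `T3 M x₀ x₁ c`), `T3 M x₀ x₁ x₂` for fixed points (`T3 M b x₀ x₁`,
`T3 M b x₀ x₂`), and `T3 M a b c` for moved points (`T3 M x₀ a b`, `T3 M x₀ a c`).
`alt_le`.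
-/

private theorem K4_sw {Ω : Type} [DecidableEq Ω] {M : Subgroup (Perm Ω)} {a b c : Ω}
    (hab : a ≠ b) (hac : a ≠ c) (hbc : b ≠ c) (h : T3 M a b c) : T3 M b a c :=
  T3_swap (T3_rot hab hac hbc h)

private theorem K4_period {p : ℕ} (hp : p.Prime) {Ω : Type} (σ : Perm Ω) (hσ : σ ^ p = 1)
    (y : Ω) (hy : σ y ≠ y) : Function.minimalPeriod σ y = p := by
  have h1 : Function.IsPeriodicPt σ p y := by
    unfold Function.IsPeriodicPt Function.IsFixedPt
    rw [Equiv.Perm.iterate_eq_pow, hσ, Equiv.Perm.one_apply]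
  rcases (Nat.dvd_prime hp).mp h1.minimalPeriod_dvd with h | h
  · exfalso
    apply hy
    exact Function.minimalPeriod_eq_one_iff_isFixedPt.mp h
  · exact h

private theorem K4_inj {p : ℕ} [hp : Fact p.Prime] {Ω : Type} (σ : Perm Ω) (hσ : σ ^ p = 1)
    (y : Ω) (hy : σ y ≠ y) (t t' : ZMod p) (h : (σ ^ t.val) y = (σ ^ t'.val) y) : t = t' := by
  have hper := K4_period hp.out σ hσ y hy
  apply ZMod.val_injective p
  apply Function.iterate_injOn_Iio_minimalPeriod (f := σ) (x := y)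
  · rw [hper]; exact ZMod.val_lt t
  · rw [hper]; exact ZMod.val_lt t'
  · simp only [Equiv.Perm.iterate_eq_pow]
    exact h

private theorem K4_moved {Ω : Type} (σ : Perm Ω) (y : Ω) (hy : σ y ≠ y) (n : ℕ) :
    σ ((σ ^ n) y) ≠ (σ ^ n) y := by
  intro h
  apply hy
  have h1 : (σ ^ n) (σ y) = (σ ^ n) y := by
    rw [← h, ← Equiv.Perm.mul_apply, ← Equiv.Perm.mul_apply, ← pow_succ, ← pow_succ']
  exact (σ ^ n).injective h1

private theorem K4_rep {p : ℕ} [hp : Fact p.Prime] {Ω : Type} (σ : Perm Ω) (hσ : σ ^ p = 1)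
    (y z : Ω) (h : σ.SameCycle y z) : ∃ t : ZMod p, (σ ^ t.val) y = z := by
  obtain ⟨i, hi⟩ := h
  refine ⟨(i : ZMod p), ?_⟩
  rw [← hi]
  congr 1
  rw [← zpow_natCast, ZMod.val_intCast]
  have hσ' : σ ^ ((p : ℤ)) = 1 := by rw [zpow_natCast, hσ]
  conv_rhs => rw [← Int.emod_add_mul_ediv i p, zpow_add, zpow_mul, hσ', one_zpow, mul_one]

private theorem K4_fixed {Ω : Type} (σ : Perm Ω) (y x : Ω) (hy : σ y ≠ y) (hx : σ x = x) :
    ¬ σ.SameCycle y x := by
  intro h
  apply hy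
  exact (h.apply_eq_self_iff).mpr hx

private theorem K4_ffm {p : ℕ} [hp : Fact p.Prime] {Ω : Type} [DecidableEq Ω]
    (σ : Perm Ω) (hσ : σ ^ p = 1) (M : Subgroup (Perm Ω))
    (hW : ∀ y x₀, σ y ≠ y → σ x₀ = x₀ → ∃ w ∈ M, w y = x₀ ∧ w x₀ = y ∧
      (∀ t : ZMod p, t ≠ 0 → w ((σ ^ t.val) y) = (σ ^ (-t⁻¹ : ZMod p).val) y) ∧
      ∀ z, z ≠ x₀ → ¬ σ.SameCycle y z → w z = z)
    (b x₀ x₁ : Ω) (hb : σ b ≠ b) (h0 : σ x₀ = x₀) (h1 : σ x₁ = x₁) (h01 : x₀ ≠ x₁) :
    T3 M b x₀ x₁ := by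
  obtain ⟨w₀, hw₀, a0, b0, c0, d0⟩ := hW b x₀ hb h0
  obtain ⟨w₁, hw₁, a1, b1, c1, d1⟩ := hW b x₁ hb h1
  have hb0 : b ≠ x₀ := fun h => hb (by rw [h]; exact h0)
  have hb1 : b ≠ x₁ := fun h => hb (by rw [h]; exact h1)
  have key : (swap b x₀ * swap b x₁) * w₁ = w₀ := by
    ext z
    rw [Equiv.Perm.mul_apply, Equiv.Perm.mul_apply]
    by_cases hz0 : z = x₀
    · subst hz0
      rw [d1 z h01 (K4_fixed σ b z hb h0), b0, swap_apply_of_ne_of_ne hb0.symm h01,
        swap_apply_right]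
    by_cases hz1 : z = x₁
    · subst hz1
      rw [d0 z (Ne.symm h01) (K4_fixed σ b z hb h1), b1, swap_apply_left,
        swap_apply_of_ne_of_ne hb1.symm h01.symm]
    by_cases hc : σ.SameCycle b z
    · obtain ⟨t, ht⟩ := K4_rep (p := p) σ hσ b z hc
      by_cases ht0 : t = 0
      · subst ht0
        rw [ZMod.val_zero, pow_zero, Equiv.Perm.one_apply] at ht
        subst ht
        rw [a1, a0, swap_apply_right, swap_apply_left]
      · have e1 := c1 t ht0
        have e0 := c0 t ht0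
        rw [ht] at e1 e0
        rw [e1, e0]
        set s : ZMod p := -t⁻¹ with hs
        have hs0 : s ≠ 0 := by
          rw [hs]; exact neg_ne_zero.mpr (inv_ne_zero ht0)
        have hm := K4_moved σ b hb s.val
        have n0 : (σ ^ s.val) b ≠ b := by
          intro h
          apply hs0
          apply K4_inj (p := p) σ hσ b hb
          rw [h, ZMod.val_zero, pow_zero, Equiv.Perm.one_apply]
        have n1 : (σ ^ s.val) b ≠ x₀ := fun h => hm (by rw [h]; exact h0)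
        have n2 : (σ ^ s.val) b ≠ x₁ := fun h => hm (by rw [h]; exact h1)
        rw [swap_apply_of_ne_of_ne n0 n2, swap_apply_of_ne_of_ne n0 n1]
    · have hzb : z ≠ b := by
        rintro rfl
        exact hc (Equiv.Perm.SameCycle.refl _ _)
      rw [d0 z hz0 hc, d1 z hz1 hc, swap_apply_of_ne_of_ne hzb hz1,
        swap_apply_of_ne_of_ne hzb hz0]
  unfold T3
  have : swap b x₀ * swap b x₁ = w₀ * w₁⁻¹ := by
    rw [← key, mul_inv_cancel_right]
  rw [this]
  exact M.mul_mem hw₀ (M.inv_mem hw₁)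

private theorem K4_fin {p : ℕ} [hp : Fact p.Prime] {Ω : Type} [Fintype Ω] [DecidableEq Ω]
    (hn : p + 2 ≤ Fintype.card Ω) (σ : Perm Ω) (hσ : σ ^ p = 1) (y : Ω)
    (hB : ∀ z, σ z ≠ z → σ.SameCycle y z) : ∃ x₀ x₁, σ x₀ = x₀ ∧ σ x₁ = x₁ ∧ x₀ ≠ x₁ := by
  have h1 : (Finset.univ.filter fun z => σ z ≠ z) ⊆
      Finset.univ.image fun t : ZMod p => (σ ^ t.val) y := by
    intro z hz
    rw [Finset.mem_filter] at hz
    obtain ⟨t, ht⟩ := K4_rep (p := p) σ hσ y z (hB z hz.2)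
    rw [Finset.mem_image]
    exact ⟨t, Finset.mem_univ _, ht⟩
  have h2 : (Finset.univ.filter fun z => σ z ≠ z).card ≤ p := by
    refine (Finset.card_le_card h1).trans (Finset.card_image_le.trans ?_)
    rw [Finset.card_univ, ZMod.card]
  have h3 : (Finset.univ.filter fun z => σ z = z).card +
      (Finset.univ.filter fun z => ¬ σ z = z).card = Fintype.card Ω := by
    rw [Finset.card_filter_add_card_filter_not, Finset.card_univ]
  have h4 : 1 < (Finset.univ.filter fun z => σ z = z).card := by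
    have : (Finset.univ.filter fun z => ¬ σ z = z).card ≤ p := h2
    omega
  obtain ⟨x₀, hx₀, x₁, hx₁, hne⟩ := Finset.one_lt_card.mp h4
  exact ⟨x₀, x₁, (Finset.mem_filter.mp hx₀).2, (Finset.mem_filter.mp hx₁).2, hne⟩

theorem comb {p : ℕ} [hp : Fact p.Prime] (hp2 : p ≠ 2) {Ω : Type} [Fintype Ω] [DecidableEq Ω]
    (hn : p + 2 ≤ Fintype.card Ω) (σ : Perm Ω) (hσ : σ ^ p = 1) (hσ1 : σ ≠ 1)
    (M : Subgroup (Perm Ω))
    (hW : ∀ y x₀, σ y ≠ y → σ x₀ = x₀ → ∃ w ∈ M, w y = x₀ ∧ w x₀ = y ∧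
      (∀ t : ZMod p, t ≠ 0 → w ((σ ^ t.val) y) = (σ ^ (-t⁻¹ : ZMod p).val) y) ∧
      ∀ z, z ≠ x₀ → ¬ σ.SameCycle y z → w z = z)
    (hU : ∀ x y, σ x ≠ x → σ y ≠ y → ¬ σ.SameCycle x y →
      swap x y * swap (σ (σ x)) (σ (σ y)) ∈ M) : alternatingGroup Ω ≤ M := by
  obtain ⟨y, hy⟩ : ∃ y, σ y ≠ y := by
    by_contra h
    push Not at h
    exact hσ1 (Equiv.ext h)
  have ne_mf : ∀ {a x : Ω}, σ a ≠ a → σ x = x → a ≠ x := fun ha hx h => ha (by rw [h]; exact hx)
  have ffm : ∀ b x₀ x₁, σ b ≠ b → σ x₀ = x₀ → σ x₁ = x₁ → x₀ ≠ x₁ → T3 M b x₀ x₁ :=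
    fun b x₀ x₁ hb h0 h1 h01 => K4_ffm (p := p) σ hσ M hW b x₀ x₁ hb h0 h1 h01
  have fff : ∀ x₀ x₁ x₂, σ x₀ = x₀ → σ x₁ = x₁ → σ x₂ = x₂ → x₀ ≠ x₁ → x₀ ≠ x₂ →
      T3 M x₀ x₁ x₂ := by
    intro x₀ x₁ x₂ h0 h1 h2 h01 h02
    have e1 := K4_sw (ne_mf hy h0) (ne_mf hy h1) h01 (ffm y x₀ x₁ hy h0 h1 h01)
    have e2 := K4_sw (ne_mf hy h0) (ne_mf hy h2) h02 (ffm y x₀ x₂ hy h0 h2 h02)
    exact T3_ext e1 e2
  have main : (∀ a b c, σ a ≠ a → σ b ≠ b → σ c ≠ c → a ≠ b → a ≠ c → b ≠ c → T3 M a b c) ∧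
      (∀ x b c, σ x = x → σ b ≠ b → σ c ≠ c → b ≠ c → T3 M x b c) := by
    by_cases hA : ∃ z, σ z ≠ z ∧ ¬ σ.SameCycle y z
    · -- Case A
      obtain ⟨z, hz, hyz⟩ := hA
      have h2 : ∀ y', σ y' ≠ y' → ∃ x, σ x ≠ x ∧ ¬ σ.SameCycle x y' := by
        intro y' _
        by_cases h : σ.SameCycle y y'
        · exact ⟨z, hz, fun h' => hyz (h.trans h'.symm)⟩
        · exact ⟨y, hy, h⟩
      have mm := T3_support hp.out hp2 σ hσ M hU h2
      refine ⟨fun a b c ha hb hc hab hac hbc => mm a b c ha hb hc hab hac hbc, ?_⟩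
      intro x c d hx hc hd hcd
      obtain ⟨w, hw, a0, b0, c0, d0⟩ := hW y x hy hx
      have t1 : (1 : ZMod p) ≠ 0 := one_ne_zero
      have t2 : (-1 : ZMod p) ≠ 0 := neg_ne_zero.mpr one_ne_zero
      have t12 : (1 : ZMod p) ≠ -1 := by
        intro h
        have h' : (2 : ZMod p) = 0 := by
          have := eq_neg_iff_add_eq_zero.mp h
          rw [one_add_one_eq_two] at this
          exact this
        have h3 : ((2 : ℕ) : ZMod p) = 0 := by exact_mod_cast h'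
        rw [ZMod.natCast_eq_zero_iff] at h3
        exact hp2 ((Nat.prime_dvd_prime_iff_eq hp.out Nat.prime_two).mp h3)
      have n1 : y ≠ (σ ^ (1 : ZMod p).val) y := by
        intro h
        apply t1.symm
        apply K4_inj (p := p) σ hσ y hy
        rw [← h, ZMod.val_zero, pow_zero, Equiv.Perm.one_apply]
      have n2 : y ≠ (σ ^ (-1 : ZMod p).val) y := by
        intro h
        apply t2.symm
        apply K4_inj (p := p) σ hσ y hy
        rw [← h, ZMod.val_zero, pow_zero, Equiv.Perm.one_apply]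
      have n3 : (σ ^ (1 : ZMod p).val) y ≠ (σ ^ (-1 : ZMod p).val) y := fun h =>
        t12 (K4_inj (p := p) σ hσ y hy _ _ h)
      have k0 := mm y _ _ hy (K4_moved σ y hy _) (K4_moved σ y hy _) n1 n2 n3
      have k1 := T3_conj hw k0
      rw [a0, c0 1 t1, c0 (-1) t2] at k1
      have n4 : (σ ^ (-(1 : ZMod p)⁻¹ : ZMod p).val) y ≠
          (σ ^ (-(-1 : ZMod p)⁻¹ : ZMod p).val) y := by
        rw [← c0 1 t1, ← c0 (-1) t2]
        exact fun h => n3 (w.injective h)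
      have m1 := K4_moved σ y hy (-(1 : ZMod p)⁻¹ : ZMod p).val
      have m2 := K4_moved σ y hy (-(-1 : ZMod p)⁻¹ : ZMod p).val
      generalize (σ ^ (-(1 : ZMod p)⁻¹ : ZMod p).val) y = b at k1 n4 m1
      generalize (σ ^ (-(-1 : ZMod p)⁻¹ : ZMod p).val) y = b' at k1 n4 m2
      have step : ∀ e, σ e ≠ e → e ≠ b → T3 M x b e := by
        intro e he heb
        by_cases heb' : e = b'
        · subst heb'; exact k1
        · have r1 : T3 M b b' x := T3_rot (ne_mf m1 hx).symm (ne_mf m2 hx).symm n4 k1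
          have r2 : T3 M b b' e := mm b b' e m1 m2 he n4 heb.symm (Ne.symm heb')
          have r3 : T3 M b x e := T3_ext r1 r2
          exact K4_sw (ne_mf m1 hx) heb.symm (ne_mf he hx).symm r3
      by_cases hcb : c = b
      · subst hcb; exact step d hd hcd.symm
      · by_cases hdb : d = b
        · subst hdb; exact T3_swap (step c hc hcb)
        · exact T3_ext (step c hc hcb) (step d hd hdb)
    · -- Case B
      push Not at hA
      obtain ⟨u₀, u₁, hu₀, hu₁, hu⟩ := K4_fin hn σ hσ y hA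
      have fm : ∀ x b c, σ x = x → σ b ≠ b → σ c ≠ c → b ≠ c → T3 M x b c := by
        intro x b c hx hb hc hbc
        obtain ⟨x', hx', hne⟩ : ∃ x', σ x' = x' ∧ x ≠ x' := by
          by_cases h : x = u₀
          · exact ⟨u₁, hu₁, by rw [h]; exact hu⟩
          · exact ⟨u₀, hu₀, h⟩
        have r1 := T3_rot (ne_mf hb hx) (ne_mf hb hx') hne (ffm b x x' hb hx hx' hne)
        have r2 := T3_rot (ne_mf hc hx) (ne_mf hc hx') hne (ffm c x x' hc hx hx' hne)
        exact T3_ext r1 r2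
      refine ⟨?_, fm⟩
      intro a b c ha hb hc hab hac hbc
      have r1 := K4_sw (ne_mf ha hu₀).symm (ne_mf hb hu₀).symm hab (fm u₀ a b hu₀ ha hb hab)
      have r2 := K4_sw (ne_mf ha hu₀).symm (ne_mf hc hu₀).symm hac (fm u₀ a c hu₀ ha hc hac)
      exact T3_ext r1 r2
  obtain ⟨mm, fm⟩ := main
  apply alt_le
  intro a b c hab hac hbc
  by_cases ha : σ a = a
  · by_cases hb : σ b = b
    · by_cases hc : σ c = c
      · exact fff a b c ha hb hc hab hac
      · -- a b fixed, c moved : T3 M c a b -> T3 M a b c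
        exact T3_rot (ne_mf hc ha) (ne_mf hc hb) hab (ffm c a b hc ha hb hab)
    · by_cases hc : σ c = c
      · -- a c fixed, b moved: T3 M b a c -> T3 M a b c
        exact K4_sw hab.symm hbc hac (ffm b a c hb ha hc hac)
      · exact fm a b c ha hb hc hbc
  · by_cases hb : σ b = b
    · by_cases hc : σ c = c
      · exact ffm a b c ha hb hc hbc
      · -- b fixed, a c moved: T3 M b a c -> T3 M a b c
        exact K4_sw hab.symm hbc hac (fm b a c hb ha hc hac)
    · by_cases hc : σ c = c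
      · -- c fixed: T3 M c a b -> T3 M a b c
        exact T3_rot hac.symm hbc.symm hab (fm c a b hc ha hb hab)
      · exact mm a b c ha hb hc hab hac hbc

end Pool.Agent.MP_1c8e06_ag.AM
end
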