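import Pool.Agent.Lib.MP_1c8e06_ag.AI.Defs3
import Pool.Agent.Lib.MP_1c8e06_ag.Mg.G090

section

set_option autoImplicit false

open Polynomial

namespace Pool.Agent.MP_1c8e06_ag.AI

noncomputable section

/-!
# Task BA1: `e`-th roots of 1-units in `κ[[T]]`, `e` prime to the characteristic

Proof.  Construct the coefficients of `r` by strong recursion: `r_0 = 1` and, for `n ≥ 1`, the coefficient
of `T^n` in `r^e` is `e r_n + (polynomial in r_0, …, r_{n-1})`: precisely if `P` is a polynomial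
(truncation) with `P^e ≡ f mod T^n`, `P(0) = 1`, and `c := coeff n (f - P^e)`, then
`(P + (c/e) T^n)^e ≡ P^e + e (c/e) T^n ≡ f mod T^(n+1)`.  So build a sequence of polynomials/power series
`P_n` with `P_{n+1} - P_n = C a_n * T^n`, and let `r := mk a`.
(Or use Hensel's lemma if Mathlib provides that `κ[[T]]` is henselian / adically complete.)
-/

private theorem BA1_step {κ : Type} [Field κ] (e : ℕ) (he : (e : κ) ≠ 0) (f : PowerSeries κ)
    (n : ℕ) (P : PowerSeries κ) (hP : PowerSeries.constantCoeff P = 1)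
    (hd : (PowerSeries.X : PowerSeries κ) ^ (n + 1) ∣ f - P ^ e) :
    ∃ P' : PowerSeries κ, PowerSeries.constantCoeff P' = 1 ∧
      (PowerSeries.X : PowerSeries κ) ^ (n + 2) ∣ f - P' ^ e ∧
      (PowerSeries.X : PowerSeries κ) ^ (n + 1) ∣ P' - P := by
  obtain ⟨g, hg⟩ := hd
  let c : κ := PowerSeries.constantCoeff g / e
  refine ⟨P + PowerSeries.C c * PowerSeries.X ^ (n + 1), ?_, ?_, ?_⟩
  · simp [hP]
  · obtain ⟨k, hk⟩ := powAddExpansion P (PowerSeries.C c * PowerSeries.X ^ (n + 1)) e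
    have h1 : f - (P + PowerSeries.C c * PowerSeries.X ^ (n + 1)) ^ e =
        PowerSeries.X ^ (n + 1) * (g - (e : PowerSeries κ) * P ^ (e - 1) * PowerSeries.C c -
          k * PowerSeries.C c ^ 2 * PowerSeries.X ^ (n + 1)) := by
      rw [hk]
      linear_combination hg
    rw [h1, show n + 2 = (n + 1) + 1 by ring, pow_succ (PowerSeries.X : PowerSeries κ) (n + 1)]
    refine mul_dvd_mul_left _ ?_
    rw [PowerSeries.X_dvd_iff]
    simp only [map_sub, map_mul, map_pow, map_natCast, hP, one_pow, mul_one,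
      PowerSeries.constantCoeff_C, PowerSeries.constantCoeff_X]
    have h2 : (e : κ) * c = PowerSeries.constantCoeff g := mul_div_cancel₀ _ he
    rw [h2, zero_pow (Nat.succ_ne_zero n)]
    ring
  · rw [add_sub_cancel_left]
    exact Dvd.intro_left _ rfl

theorem exists_eth_root {κ : Type} [Field κ] (e : ℕ) (he : (e : κ) ≠ 0) (f : PowerSeries κ)
    (hf : PowerSeries.constantCoeff f = 1) :
    ∃ r : PowerSeries κ, PowerSeries.constantCoeff r = 1 ∧ r ^ e = f := by
  classical
  let T : ℕ → Type := fun n => {P : PowerSeries κ // PowerSeries.constantCoeff P = 1 ∧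
    (PowerSeries.X : PowerSeries κ) ^ (n + 1) ∣ f - P ^ e}
  have base : T 0 := ⟨1, by simp, by
    rw [zero_add, pow_one, PowerSeries.X_dvd_iff]
    simp [hf]⟩
  let nxt : ∀ n, T n → T (n + 1) := fun n P =>
    ⟨Classical.choose (BA1_step e he f n P.1 P.2.1 P.2.2),
      (Classical.choose_spec (BA1_step e he f n P.1 P.2.1 P.2.2)).1,
      (Classical.choose_spec (BA1_step e he f n P.1 P.2.1 P.2.2)).2.1⟩
  let s : ∀ n, T n := fun n => Nat.rec base (fun n P => nxt n P) n
  have hs : ∀ n, (PowerSeries.X : PowerSeries κ) ^ (n + 1) ∣ (s (n + 1)).1 - (s n).1 := fun n =>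
    (Classical.choose_spec (BA1_step e he f n (s n).1 (s n).2.1 (s n).2.2)).2.2
  let r : PowerSeries κ := PowerSeries.mk fun n => PowerSeries.coeff n (s n).1
  have hco : ∀ m d, PowerSeries.coeff m (s (m + d)).1 = PowerSeries.coeff m (s m).1 := by
    intro m d
    induction d with
    | zero => rfl
    | succ d ih =>
      have h1 := (PowerSeries.X_pow_dvd_iff.mp (hs (m + d))) m (by omega)
      rw [map_sub, sub_eq_zero] at h1
      rw [← ih, ← h1]
      rfl
  have hr : ∀ n, (PowerSeries.X : PowerSeries κ) ^ (n + 1) ∣ r - (s n).1 := by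
    intro n
    rw [PowerSeries.X_pow_dvd_iff]
    intro m hm
    obtain ⟨d, rfl⟩ : ∃ d, n = m + d := ⟨n - m, by omega⟩
    rw [map_sub, hco m d]
    simp [r]
  refine ⟨r, ?_, ?_⟩
  · rw [← PowerSeries.coeff_zero_eq_constantCoeff_apply]
    simp only [r, PowerSeries.coeff_mk]
    rw [PowerSeries.coeff_zero_eq_constantCoeff_apply]
    exact (s 0).2.1
  · ext n
    have h1 : (PowerSeries.X : PowerSeries κ) ^ (n + 1) ∣ r ^ e - (s n).1 ^ e :=
      (hr n).trans (sub_dvd_pow_sub_pow _ _ _)
    have h2 := dvd_sub h1 (s n).2.2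
    have h3 : r ^ e - (s n).1 ^ e - (f - (s n).1 ^ e) = r ^ e - f := by ring
    rw [h3, PowerSeries.X_pow_dvd_iff] at h2
    have h4 := h2 n (Nat.lt_succ_self n)
    rw [map_sub, sub_eq_zero] at h4
    exact h4

end

end Pool.Agent.MP_1c8e06_ag.AI
end

section

set_option autoImplicit false

open Polynomial

namespace Pool.Agent.MP_1c8e06_ag.AI

noncomputable section

/-!
# Task BA2a: `κ((π))` is spanned over `σ(κ((s)))` by `π^(-e j)`, `j < p`, when `ord σ(s) = p`

Proof.  `gcd(p, e) = 1`: every `n : ℤ` is uniquely `n = p i - e j` with `i : ℤ`, `0 ≤ j < p`; write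
`i(n), j(n)`.  Let `m_n := σ (single (i n) 1) * single (-(e (j n))) 1`, of order exactly `n`; let
`λ_n ≠ 0` be its leading coefficient.  Given `f ≠ 0` with order `N₀` (for `f = 0` take `a = 0`) define
`c : ℤ → κ`, `c_n = 0` for `n < N₀`, and recursively
`c_n := (f - ∑_{N₀ ≤ n' < n} c_{n'} m_{n'}).coeff n / λ_n`.
Then `f - ∑_{N₀ ≤ n < M} C c_n * m_n` vanishes below `M` for every `M` (induction).
Let `a j : LaurentSeries κ` have coefficients `(a j).coeff i = c_{p i - e j}` (bounded below).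
Claim `f = ∑_{j<p} σ (a j) * single (-(e j)) 1`: it suffices that the difference vanishes below every
`M`.  Split `a j = (finite part: p i - e j < M) + tail`, the tail `b` is zero or has
`p * b.order - e j ≥ M`, so `σ b * single (-(e j)) 1` vanishes below `M` (`hord`); the finite
parts give exactly `∑_{N₀ ≤ n < M} C c_n m_n` (`hC`, `σ (single i 1) = ...`,
`single i c = C c * single i 1`).
-/
theorem span_lemma {p : ℕ} [hp : Fact p.Prime] {κ : Type} [Field κ] (e : ℕ) (hpe : ¬ p ∣ e)
    (σ : LaurentSeries κ →+* LaurentSeries κ) (hC : ∀ c : κ, σ (HahnSeries.C c) = HahnSeries.C c)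
    (hord : ∀ a : LaurentSeries κ, a ≠ 0 → (σ a).order = (p : ℤ) * a.order)
    (f : LaurentSeries κ) :
    ∃ a : ℕ → LaurentSeries κ,
      f = ∑ j ∈ Finset.range p, σ (a j) * HahnSeries.single (-((e : ℤ) * j)) (1 : κ) := by
  -- the representation `n = p i - e j`
  have hrep : ∀ n : ℤ, ∃ (i : ℤ) (j : ℕ), j < p ∧ n = (p : ℤ) * i - (e : ℤ) * j := by
    intro n
    have hcop : IsCoprime (p : ℤ) (e : ℤ) := by
      rw [Nat.isCoprime_iff_coprime]
      exact (Nat.Prime.coprime_iff_not_dvd hp.out).2 hpe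
    obtain ⟨u, v, huv⟩ := hcop
    have hp0 : (0 : ℤ) < p := by exact_mod_cast hp.out.pos
    refine ⟨n * u - ((-n * v) / p) * e, ((-n * v) % p).toNat, ?_, ?_⟩
    · have h1 := Int.emod_lt_of_pos (-n * v) hp0
      have h2 := Int.emod_nonneg (-n * v) hp0.ne'
      omega
    · have h2 := Int.emod_nonneg (-n * v) hp0.ne'
      rw [Int.toNat_of_nonneg h2]
      have h3 := Int.mul_ediv_add_emod (-n * v) p
      have h4 : (-n * v) % p = -n * v - p * ((-n * v) / p) := by linarith
      rw [h4]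
      linear_combination -n * huv
  have huniq : ∀ (i i' : ℤ) (j j' : ℕ), j < p → j' < p →
      (p : ℤ) * i - (e : ℤ) * j = (p : ℤ) * i' - (e : ℤ) * j' → i = i' ∧ j = j' := by
    intro i i' j j' hj hj' h
    have hcop : IsCoprime (p : ℤ) (e : ℤ) := by
      rw [Nat.isCoprime_iff_coprime]
      exact (Nat.Prime.coprime_iff_not_dvd hp.out).2 hpe
    have hp0 : (0 : ℤ) < p := by exact_mod_cast hp.out.pos
    have h1 : (p : ℤ) ∣ (e : ℤ) * ((j : ℤ) - j') := ⟨i - i', by linarith⟩
    have h2 : (p : ℤ) ∣ (j : ℤ) - j' := hcop.dvd_of_dvd_mul_left h1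
    have h3 : (j : ℤ) - j' = 0 := by
      apply Int.eq_zero_of_abs_lt_dvd h2
      rw [abs_lt]
      constructor <;> omega
    have h4 : j = j' := by omega
    subst h4
    refine ⟨?_, rfl⟩
    have h5 : (p : ℤ) * i = (p : ℤ) * i' := by linarith
    exact mul_left_cancel₀ hp0.ne' h5
  choose I J hJ hIJ using hrep
  set N₀ : ℤ := f.order with hN₀
  -- the monomials
  set m : ℕ → LaurentSeries κ := fun k =>
    σ (HahnSeries.single (I (N₀ + k)) 1) * HahnSeries.single (-((e : ℤ) * (J (N₀ + k) : ℕ))) (1 : κ) with hm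
  have hshift : ∀ (x : LaurentSeries κ) (b n : ℤ),
      (x * HahnSeries.single (-b) (1 : κ)).coeff n = x.coeff (n + b) := by
    intro x b n
    have h := HahnSeries.coeff_mul_single_add (r := (1 : κ)) (x := x) (a := n + b) (b := -b)
    rw [mul_one, add_neg_cancel_right] at h
    exact h
  have hs1 : ∀ i : ℤ, σ (HahnSeries.single i (1 : κ)) ≠ 0 := by
    intro i
    rw [Ne, map_eq_zero]
    exact HahnSeries.single_ne_zero one_ne_zero
  have hs2 : ∀ i : ℤ, (σ (HahnSeries.single i (1 : κ))).order = p * i := by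
    intro i
    rw [hord _ (HahnSeries.single_ne_zero one_ne_zero), HahnSeries.order_single one_ne_zero]
  have hm0 : ∀ (k : ℕ) (n : ℤ), n < N₀ + k → (m k).coeff n = 0 := by
    intro k n hn
    rw [hm]
    dsimp only
    rw [hshift]
    apply HahnSeries.coeff_eq_zero_of_lt_order
    rw [hs2]
    have := hIJ (N₀ + k)
    linarith
  have hm1 : ∀ k : ℕ, (m k).coeff (N₀ + k) ≠ 0 := by
    intro k
    rw [hm]
    dsimp only
    rw [hshift]
    have h1 : N₀ + (k : ℤ) + (e : ℤ) * (J (N₀ + k) : ℕ) = (σ (HahnSeries.single (I (N₀ + k)) (1 : κ))).order := by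
      rw [hs2]
      have := hIJ (N₀ + k)
      linarith
    rw [h1, Ne, HahnSeries.coeff_order_eq_zero]
    exact hs1 _
  -- successive approximation
  set S : ℕ → LaurentSeries κ := fun k => Nat.rec (0 : LaurentSeries κ)
    (fun k s => s + HahnSeries.C ((f - s).coeff (N₀ + k) / (m k).coeff (N₀ + k)) * m k) k with hS
  set c : ℕ → κ := fun k => (f - S k).coeff (N₀ + k) / (m k).coeff (N₀ + k) with hc
  have hS0 : S 0 = 0 := rfl
  have hSs : ∀ k, S (k + 1) = S k + HahnSeries.C (c k) * m k := fun k => rfl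
  have hCc : ∀ (a : κ) (x : LaurentSeries κ) (n : ℤ), (HahnSeries.C a * x).coeff n = a * x.coeff n := by
    intro a x n
    rw [HahnSeries.C_mul_eq_smul, HahnSeries.coeff_smul, smul_eq_mul]
  have hvan : ∀ (k : ℕ) (n : ℤ), n < N₀ + k → (f - S k).coeff n = 0 := by
    intro k
    induction k with
    | zero =>
      intro n hn
      rw [hS0, sub_zero]
      apply HahnSeries.coeff_eq_zero_of_lt_order
      rw [← hN₀]
      simpa using hn
    | succ k ih =>
      intro n hn
      rw [hSs, ← sub_sub, HahnSeries.coeff_sub, hCc]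
      rcases lt_or_eq_of_le (show n ≤ N₀ + k by push_cast at hn; omega) with h | h
      · rw [ih n h, hm0 k n h, mul_zero, sub_zero]
      · rw [h]
        have h1 := hm1 k
        have h2 : c k * (m k).coeff (N₀ + k) = (f - S k).coeff (N₀ + k) := div_mul_cancel₀ _ h1
        rw [h2, sub_self]
  have hSsum : ∀ K : ℕ, S K = ∑ k ∈ Finset.range K, HahnSeries.C (c k) * m k := by
    intro K
    induction K with
    | zero => rfl
    | succ K ih => rw [hSs, ih, Finset.sum_range_succ]
  -- the coefficients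
  set cf : ℕ → ℤ → κ := fun j i => if N₀ ≤ (p : ℤ) * i - (e : ℤ) * j then
    c ((p : ℤ) * i - (e : ℤ) * j - N₀).toNat else 0 with hcf
  have hp0 : (0 : ℤ) < p := by exact_mod_cast hp.out.pos
  have hbdd : ∀ j, BddBelow (Function.support (cf j)) := by
    intro j
    refine ⟨-|N₀|, ?_⟩
    intro i hi
    by_contra hlt
    push Not at hlt
    apply hi
    rw [hcf]
    dsimp only
    rw [if_neg]
    intro h1
    have h2 : (0 : ℤ) ≤ (e : ℤ) * j := by positivity
    have h3 : -|N₀| ≤ N₀ := neg_abs_le N₀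
    have h4 : (0 : ℤ) ≤ |N₀| := abs_nonneg N₀
    have h5 : i < 0 := by omega
    have h6 : (p : ℤ) * i ≤ 1 * i := mul_le_mul_of_nonpos_right (by omega) h5.le
    omega
  set a : ℕ → LaurentSeries κ := fun j => HahnSeries.ofSuppBddBelow (cf j) (hbdd j) with ha
  have hacoeff : ∀ j i, (a j).coeff i = cf j i := fun j i => rfl
  -- finite parts
  set A : ℕ → ℕ → LaurentSeries κ := fun K j => ∑ k ∈ Finset.range K,
    if J (N₀ + k) = j then HahnSeries.single (I (N₀ + k)) (c k) else 0 with hA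
  have hAcoeff : ∀ K j i, (A K j).coeff i = ∑ k ∈ Finset.range K,
      if J (N₀ + k) = j ∧ i = I (N₀ + k) then c k else 0 := by
    intro K j i
    rw [hA]
    dsimp only
    rw [HahnSeries.coeff_sum]
    refine Finset.sum_congr rfl fun k _ => ?_
    by_cases h1 : J (N₀ + k) = j
    · rw [if_pos h1, HahnSeries.coeff_single]
      by_cases h2 : i = I (N₀ + k)
      · rw [if_pos h2, if_pos ⟨h1, h2⟩]
      · rw [if_neg h2, if_neg fun h => h2 h.2]
    · rw [if_neg h1, if_neg fun h => h1 h.1]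
      rfl
  have htail : ∀ (K j : ℕ) (i : ℤ), j < p → (p : ℤ) * i - (e : ℤ) * j < N₀ + K → (a j - A K j).coeff i = 0 := by
    intro K j i hj hlt
    rw [HahnSeries.coeff_sub, hacoeff, hAcoeff]
    by_cases h1 : N₀ ≤ (p : ℤ) * i - (e : ℤ) * j
    · obtain ⟨k₀, hk₀⟩ : ∃ k₀ : ℕ, (p : ℤ) * i - (e : ℤ) * j = N₀ + k₀ :=
        ⟨((p : ℤ) * i - (e : ℤ) * j - N₀).toNat, by omega⟩
      have h2 : cf j i = c k₀ := by
        rw [hcf]
        dsimp only
        rw [if_pos h1]
        congr 1
        omega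
      have h3 : J (N₀ + k₀) = j ∧ i = I (N₀ + k₀) := by
        have h4 := huniq (I (N₀ + k₀)) i (J (N₀ + k₀)) j (hJ _) hj (by rw [← hIJ, hk₀])
        exact ⟨h4.2, h4.1.symm⟩
      rw [h2, Finset.sum_eq_single k₀, if_pos h3, sub_self]
      · intro k _ hk
        rw [if_neg]
        rintro ⟨h4, h5⟩
        apply hk
        have h6 := hIJ (N₀ + k)
        rw [← h5, h4, hk₀] at h6
        omega
      · intro h4
        exact absurd (Finset.mem_range.2 (by omega)) h4
    · have h2 : cf j i = 0 := by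
        rw [hcf]
        dsimp only
        rw [if_neg h1]
      rw [h2, Finset.sum_eq_zero, sub_zero]
      intro k _
      rw [if_neg]
      rintro ⟨h4, h5⟩
      have h6 := hIJ (N₀ + k)
      rw [← h5, h4] at h6
      omega
  have hAS : ∀ K, ∑ j ∈ Finset.range p, σ (A K j) * HahnSeries.single (-((e : ℤ) * j)) (1 : κ) = S K := by
    intro K
    rw [hSsum]
    have h1 : ∀ j ∈ Finset.range p, σ (A K j) * HahnSeries.single (-((e : ℤ) * j)) (1 : κ) =
        ∑ k ∈ Finset.range K, if J (N₀ + k) = j then HahnSeries.C (c k) * m k else 0 := by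
      intro j _
      rw [hA]
      dsimp only
      rw [map_sum, Finset.sum_mul]
      refine Finset.sum_congr rfl fun k _ => ?_
      split_ifs with h2
      · have h3 : (HahnSeries.single (I (N₀ + k)) (c k) : LaurentSeries κ) =
            HahnSeries.C (c k) * HahnSeries.single (I (N₀ + k)) 1 := by
          rw [HahnSeries.C_apply, HahnSeries.single_mul_single, zero_add, mul_one]
        rw [h3, map_mul, hC, hm]
        dsimp only
        rw [h2, mul_assoc]
      · rw [map_zero, zero_mul]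
    rw [Finset.sum_congr rfl h1, Finset.sum_comm]
    refine Finset.sum_congr rfl fun k _ => ?_
    rw [Finset.sum_ite_eq, if_pos (Finset.mem_range.2 (hJ _))]
  refine ⟨a, ?_⟩
  rw [← sub_eq_zero]
  refine HahnSeries.ext ?_
  funext n
  obtain ⟨K, hK⟩ : ∃ K : ℕ, n < N₀ + K := ⟨(n - N₀ + 1).toNat, by omega⟩
  have hdec : f - ∑ j ∈ Finset.range p, σ (a j) * HahnSeries.single (-((e : ℤ) * j)) (1 : κ) =
      (f - S K) - ∑ j ∈ Finset.range p, σ (a j - A K j) * HahnSeries.single (-((e : ℤ) * j)) (1 : κ) := by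
    rw [← hAS K]
    simp only [map_sub, sub_mul, Finset.sum_sub_distrib]
    abel
  rw [hdec, HahnSeries.coeff_sub, hvan K n hK, zero_sub, HahnSeries.coeff_sum, HahnSeries.coeff_zero,
    neg_eq_zero]
  refine Finset.sum_eq_zero fun j hj => ?_
  rw [hshift]
  by_cases hb : a j - A K j = 0
  · rw [hb, map_zero, HahnSeries.coeff_zero]
  · apply HahnSeries.coeff_eq_zero_of_lt_order
    rw [hord _ hb]
    by_contra hcon
    push Not at hcon
    have h1 := htail K j (a j - A K j).order (Finset.mem_range.1 hj) (by linarith)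
    rw [HahnSeries.coeff_order_eq_zero] at h1
    exact hb h1

end

end Pool.Agent.MP_1c8e06_ag.AI
end

section

set_option autoImplicit false

open Polynomial

namespace Pool.Agent.MP_1c8e06_ag.AI

noncomputable section

/-!
# Task BA2b: `y` is an `e`-th power in `EE p (X^e)`

Proof.  (`e ≥ 1` since `p ∤ e`; `(e : κ) ≠ 0`.)
Let `r ∈ κ[[π]]` with `r^e = 1 - π^(e(p-1))`, `r(0) = 1` (`exists_eth_root`).
In `κ((π))` put `x := single (-p) 1 * r` and `Y := single (-e) 1`.  Then
`x^e = π^(-pe) - π^(-e) = Y^p - Y`.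
`w := x⁻¹` has order `p`.  `σ₀ := ` the homomorphism of `exists_subw (RingHom.id κ) w`, so
`σ₀ (zinv X) = x`, `σ₀ (zinv (X^e)) = Y^p - Y`.  `Ψ := AdjoinRoot.lift σ₀ Y _ :
EE p (X^e) →+* κ((π))` (`eval₂_asPoly`).  `EE p (X^e)` is a field (`irreducible_asPoly`,
`natDegree (X^e) = e`), so `Ψ` is injective.  By `span_lemma` applied to `σ₀` and
`f = π⁻¹ = single (-1) ... ` precisely `f := single (-1) 1`:
`f = ∑_j σ₀ (a j) Y^j = Ψ (∑_j ofL (a j) yy^j)`; `ν := ∑_j ofL (a j) yy^j` satisfies
`Ψ (ν^e) = π^(-e) = Y = Ψ yy`.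
-/
theorem exists_nu0 {p : ℕ} [hp : Fact p.Prime] (κ : Type) [Field κ] [CharP κ p] (e : ℕ)
    (hpe : ¬ p ∣ e) : ∃ ν : EE p (X ^ e : κ[X]), ν ^ e = yy p (X ^ e) := by
  have he0 : (e : κ) ≠ 0 := by
    rw [Ne, CharP.cast_eq_zero_iff κ p e]
    exact hpe
  have hepos : 0 < e := by
    rcases Nat.eq_zero_or_pos e with h | h
    · exact absurd (h ▸ dvd_zero p) hpe
    · exact h
  have hp1 : 1 < p := hp.out.one_lt
  obtain ⟨r, hr0, hre⟩ := exists_eth_root e he0 (1 - (PowerSeries.X : PowerSeries κ) ^ (e * (p - 1))) (by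
    rw [map_sub, map_pow, PowerSeries.constantCoeff_X, map_one,
      zero_pow (Nat.mul_ne_zero hepos.ne' (by omega)), sub_zero])
  set R : LaurentSeries κ := HahnSeries.ofPowerSeries ℤ κ r with hR
  have hRe : R ^ e = 1 - HahnSeries.single ((e * (p - 1) : ℕ) : ℤ) (1 : κ) := by
    rw [hR, ← map_pow, hre, map_sub, map_one, HahnSeries.ofPowerSeries_X_pow]
  have hRcoeff : R.coeff 0 = 1 := by
    have h := HahnSeries.ofPowerSeries_apply_coeff (Γ := ℤ) r 0
    rw [Nat.cast_zero] at h
    rw [hR, h, PowerSeries.coeff_zero_eq_constantCoeff, hr0]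
  have hR0 : R ≠ 0 := by
    intro h
    rw [h, HahnSeries.coeff_zero] at hRcoeff
    exact zero_ne_one hRcoeff
  have hRorder : R.order = 0 := by
    apply le_antisymm
    · exact HahnSeries.order_le_of_coeff_ne_zero (by rw [hRcoeff]; exact one_ne_zero)
    · by_contra hlt
      push Not at hlt
      have h1 : R.coeff R.order = 0 := by
        rw [hR]
        rw [HahnSeries.ofPowerSeries_apply]
        apply HahnSeries.embDomain_of_notMem_range
        rintro ⟨n, hn⟩
        rw [hR] at hlt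
        have hn' : ((n : ℕ) : ℤ) = (HahnSeries.ofPowerSeries ℤ κ r).order := hn
        omega
      rw [HahnSeries.coeff_order_eq_zero] at h1
      exact hR0 h1
  set x : LaurentSeries κ := HahnSeries.single (-(p : ℤ)) (1 : κ) * R with hx
  set Y : LaurentSeries κ := HahnSeries.single (-(e : ℤ)) (1 : κ) with hY
  have hs0 : (HahnSeries.single (-(p : ℤ)) (1 : κ) : LaurentSeries κ) ≠ 0 :=
    HahnSeries.single_ne_zero one_ne_zero
  have hx0 : x ≠ 0 := mul_ne_zero hs0 hR0
  have hxorder : x.order = -(p : ℤ) := by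
    rw [hx, HahnSeries.order_mul hs0 hR0, hRorder, HahnSeries.order_single one_ne_zero, add_zero]
  have hxe : x ^ e = Y ^ p - Y := by
    rw [hx, hY, mul_pow, hRe, HahnSeries.single_pow, HahnSeries.single_pow, one_pow, one_pow,
      mul_sub, mul_one, HahnSeries.single_mul_single, mul_one]
    congr 2
    · rw [nsmul_eq_mul, nsmul_eq_mul]
      ring_nf
    · rw [nsmul_eq_mul]
      push_cast [Nat.cast_sub hp1.le]
      ring
  have hworder : (x⁻¹).order = (p : ℤ) := by
    have h1 : (x * x⁻¹).order = x.order + (x⁻¹).order := HahnSeries.order_mul hx0 (inv_ne_zero hx0)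
    rw [mul_inv_cancel₀ hx0, HahnSeries.order_one, hxorder] at h1
    linarith
  obtain ⟨σ, hσ1, hσC, hσord⟩ := exists_subw (RingHom.id κ) (x⁻¹) (by
    rw [hworder]
    exact_mod_cast hp.out.pos)
  rw [hworder] at hσord
  have hσX : σ (HahnSeries.single (-1 : ℤ) (1 : κ)) = x := by
    have h1 : σ (HahnSeries.single (-1 : ℤ) (1 : κ)) * x⁻¹ = 1 := by
      rw [← hσ1, ← map_mul, HahnSeries.single_mul_single, mul_one]
      simp
    exact (eq_inv_of_mul_eq_one_left h1).trans (inv_inv x)
  have hσF : σ (zinv κ (X ^ e : κ[X])) = x ^ e := by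
    rw [map_pow, zinv_X, map_pow, hσX]
  have hroot : Polynomial.eval₂ σ Y (asPoly p (X ^ e : κ[X])) = 0 := by
    rw [eval₂_asPoly, hσF, hxe]
    ring
  have hirr : Irreducible (asPoly p (X ^ e : κ[X])) :=
    irreducible_asPoly (by rw [natDegree_X_pow]; exact hpe)
  have : Fact (Irreducible (asPoly p (X ^ e : κ[X]))) := ⟨hirr⟩
  have hinj : Function.Injective (AdjoinRoot.lift σ Y hroot) := RingHom.injective _
  obtain ⟨a, ha⟩ := span_lemma e hpe σ (fun c => by rw [hσC]; rfl) hσord
    (HahnSeries.single (-1 : ℤ) (1 : κ))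
  refine ⟨∑ j ∈ Finset.range p, ofL p (X ^ e) (a j) * yy p (X ^ e) ^ j, hinj ?_⟩
  have h1 : AdjoinRoot.lift σ Y hroot (∑ j ∈ Finset.range p, ofL p (X ^ e) (a j) * yy p (X ^ e) ^ j) =
      HahnSeries.single (-1 : ℤ) (1 : κ) := by
    rw [ha, map_sum]
    refine Finset.sum_congr rfl fun j _ => ?_
    rw [map_mul, map_pow]
    have h2 : AdjoinRoot.lift σ Y hroot (ofL p (X ^ e) (a j)) = σ (a j) := AdjoinRoot.lift_of _
    have h3 : AdjoinRoot.lift σ Y hroot (yy p (X ^ e)) = Y := AdjoinRoot.lift_root _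
    rw [h2, h3, hY, HahnSeries.single_pow, one_pow]
    congr 3
    rw [nsmul_eq_mul]
    ring_nf
  have h3 : AdjoinRoot.lift σ Y hroot (yy p (X ^ e)) = Y := AdjoinRoot.lift_root _
  rw [map_pow, h1, h3, hY, HahnSeries.single_pow, one_pow]
  congr 1
  rw [nsmul_eq_mul]
  ring_nf

end

end Pool.Agent.MP_1c8e06_ag.AI
end
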