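import Pool.Agent.Lib.MP_1c8e06_ag.Mg.G074
import Pool.Agent.Lib.MP_1c8e06_ag.Mg.G091
import Pool.Agent.Lib.MP_1c8e06_ag.Mg.G076
import Pool.Agent.Lib.MP_1c8e06_ag.Mg.G090

section

set_option autoImplicit false

namespace Pool.Agent.MP_1c8e06_ag.AL

noncomputable section

/-!
# Task M2: the power series `w`

Proof.  `N := p ^ 2 - 1 ≥ 1`.  `exists_fix` for `Φ W := 1 + X ^ N * W ^ (p + 1)`: the coefficient of degree `n` of `X ^ N * h` is
`0` for `n < N` and `coeff (n - N) h` otherwise (`PowerSeries.coeff_X_pow_mul'`), and the coefficients of degree `≤ n - N` of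
`W ^ (p + 1)` depend only on those of `W` of degree `≤ n - N < n` (induction on the exponent, `PowerSeries.coeff_mul`).
The fixed point `W` has constant coefficient `1`.  `AI.exists_eth_root (p - 1)` (`((p - 1 : ℕ) : κ) = -1 ≠ 0` in characteristic
`p`) gives `w` with `constantCoeff w = 1` and `w ^ (p - 1) = W`; `w ^ (p ^ 2 - 1) = (w ^ (p - 1)) ^ (p + 1) = W ^ (p + 1)`.
-/

private theorem M2_pow_congr {κ : Type} [Field κ] (k : ℕ) (f g : PowerSeries κ)
    (h : ∀ m ≤ k, PowerSeries.coeff m f = PowerSeries.coeff m g) (e : ℕ) :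
    ∀ m ≤ k, PowerSeries.coeff m (f ^ e) = PowerSeries.coeff m (g ^ e) := by
  induction e with
  | zero => intro m _; rw [pow_zero, pow_zero]
  | succ e ih =>
    intro m hm
    rw [pow_succ, pow_succ, PowerSeries.coeff_mul, PowerSeries.coeff_mul]
    refine Finset.sum_congr rfl (fun q hq => ?_)
    have hq' := Finset.HasAntidiagonal.mem_antidiagonal.1 hq
    rw [ih q.1 (by omega), h q.2 (by omega)]

theorem exists_w {p : ℕ} [hp : Fact p.Prime] (κ : Type) [Field κ] [CharP κ p] :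
    ∃ w : PowerSeries κ, PowerSeries.constantCoeff w = 1 ∧
      w ^ (p - 1) = 1 + PowerSeries.X ^ (p ^ 2 - 1) * w ^ (p ^ 2 - 1) := by
  have hp2 : 2 ≤ p := hp.out.two_le
  obtain ⟨N, hN⟩ : ∃ N : ℕ, N = p ^ 2 - 1 := ⟨_, rfl⟩
  have hN1 : 1 ≤ N := by
    have h4 : 2 ^ 2 ≤ p ^ 2 := Nat.pow_le_pow_left hp2 2
    omega
  rw [← hN]
  obtain ⟨W, hW⟩ := exists_fix
    (fun W : PowerSeries κ => 1 + PowerSeries.X ^ N * W ^ (p + 1)) (by
      intro n f g h

      rw [map_add, map_add, PowerSeries.coeff_X_pow_mul', PowerSeries.coeff_X_pow_mul']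
      by_cases hn : N ≤ n
      · rw [if_pos hn, if_pos hn]
        rw [M2_pow_congr (n - N) f g (fun m hm => h m (by omega)) (p + 1) (n - N) le_rfl]
      · rw [if_neg hn, if_neg hn])

  have hc : PowerSeries.constantCoeff W = 1 := by
    rw [← hW, map_add, map_one, map_mul, map_pow, PowerSeries.constantCoeff_X,
      zero_pow (by omega), zero_mul, add_zero]
  have he : ((p - 1 : ℕ) : κ) ≠ 0 := by
    rw [Nat.cast_sub (by omega), CharP.cast_eq_zero, Nat.cast_one, zero_sub]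
    exact neg_ne_zero.2 one_ne_zero
  obtain ⟨w, hw1, hw2⟩ := AI.exists_eth_root (p - 1) he W hc
  refine ⟨w, hw1, ?_⟩
  have hexp : (p - 1) * (p + 1) = N := by
    rw [hN]
    obtain ⟨q, rfl⟩ : ∃ q, p = q + 1 := ⟨p - 1, by omega⟩
    rw [Nat.add_sub_cancel]
    have : (q + 1) ^ 2 = q * (q + 1 + 1) + 1 := by ring
    omega
  rw [← hexp, pow_mul w, hw2, hexp]
  exact hW.symm

end

end Pool.Agent.MP_1c8e06_ag.AL
end

section

set_option autoImplicit false

open Polynomial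

namespace Pool.Agent.MP_1c8e06_ag.AL

noncomputable section

/-!
# Task M4: the functions `a` and `b`

Proof.  Let `w` be from `exists_w`; in `κ((s))` put `a₀ := single 1 1 * w` (`w` as a Laurent series, `s = single 1 1`), a nonzero
series of order `1`.  From `w ^ (p - 1) = 1 + s ^ (p ^ 2 - 1) * w ^ (p ^ 2 - 1)` multiplied by `s * w * s ^ (p-1) * s^(-(p-1))`:
`a₀ ^ (p ^ 2) - (s⁻¹) ^ (p - 1) * a₀ ^ p + a₀ = a₀ * (s ^ (p ^ 2 - 1) * w ^ (p ^ 2 - 1) - w ^ (p - 1) + 1) = 0`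
(`AI.zinv κ (X ^ (p - 1)) = single (-1) 1 ^ (p - 1)`; `(s⁻¹) ^ (p - 1) * a₀ ^ (p - 1) = w ^ (p - 1)`).
`δ := (a₀⁻¹) ^ (p + 1)`: order `-(p + 1)`, leading coefficient `1` (`a₀ ^ (p + 1) * δ = 1`).  `exists_Qc δ`: `Q, c`; `Q.natDegree = p + 1`
(the coefficients of `δ` in degrees `< -(p+1)` vanish, that in degree `-(p+1)` is `1`; `Polynomial.natDegree_eq_of_le_of_coeff_ne_zero`).
`¬ p ∣ p + 1`, so `EE p Q` is a domain (`AI.isDomain_EE`).
In `EE p Q`: `a := ofL a₀`, `y' := yy + ofL c`, `b := a * y'`.  `y' ^ p - y' = ze Q + ofL (c ^ p - c) = ofL δ`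
(`AI.yy_pow`, `AI.ze_apply`; `(x + y) ^ p = x ^ p + y ^ p` in characteristic `p`: `add_pow_char` with a `CharP` instance, or
`exists_add_pow_prime_eq` and `(p : EE p Q) = 0`).
`a * b ^ p - a ^ p * b = a ^ (p + 1) * (y' ^ p - y') = ofL (a₀ ^ (p + 1) * δ) = 1`.
With `D := ofL δ`: `y' ^ p = y' + D`, `y' ^ (p ^ 2) = (y' + D) ^ p = y' + D + D ^ p`, so
`b ^ (p ^ 2) - ze (X ^ (p - 1)) * b ^ p + b = y' * (a ^ (p ^ 2) - ze (X ^ (p-1)) * a ^ p + a) + D * (a ^ (p ^ 2) - ze (X ^ (p-1)) * a ^ p)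
+ a ^ (p ^ 2) * D ^ p = - D * a + a ^ (p ^ 2) * D ^ p = 0`, because `a ^ (p ^ 2 - 1) * D ^ (p - 1) = (a ^ (p + 1) * D) ^ (p - 1) = 1`.
`tau a = a` (`AI.tau_ofL`), `tau b = a * (y' + 1) = b + a` (`AI.tau_yy`).
Last statement: `ze P = ofL (zinv P)` and `a ^ (p - 1) = ofL (a₀ ^ (p - 1))`; `AI.ofL_injective`: `zinv P = a₀ ^ (p - 1)`; the right side has
order `p - 1 ≥ 1` (nonzero), but `zinv P` is `0` or has a nonzero coefficient in degree `≤ 0` (`(zinv P).coeff (-n) = P.coeff n`).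
-/

theorem exists_ab {p : ℕ} [hp : Fact p.Prime] (κ : Type) [Field κ] [CharP κ p] :
    ∃ Q : κ[X], Q.natDegree = p + 1 ∧ ∃ a b : AI.EE p Q,
      a ^ (p ^ 2) - AI.ze p Q (X ^ (p - 1)) * a ^ p + a = 0 ∧
      b ^ (p ^ 2) - AI.ze p Q (X ^ (p - 1)) * b ^ p + b = 0 ∧
      a * b ^ p - a ^ p * b = 1 ∧ AI.tau p Q a = a ∧ AI.tau p Q b = b + a ∧
      ∀ P : κ[X], AI.ze p Q P ≠ a ^ (p - 1) := by
  obtain ⟨w, hw0, hw⟩ := exists_w (p := p) κ
  have hp1 : 1 < p := hp.out.one_lt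
  have e1 : p ^ 2 = p ^ 2 - 1 + 1 := by
    have : 0 < p ^ 2 := by positivity
    omega
  have e2 : p = p - 1 + 1 := by omega
  have e3 : p ^ 2 - 1 = (p + 1) * (p - 1) := by
    obtain ⟨q, rfl⟩ : ∃ q, p = q + 1 := ⟨p - 1, by omega⟩
    rw [Nat.add_sub_cancel]
    have : (q + 1) ^ 2 = (q + 1 + 1) * q + 1 := by ring
    rw [this, Nat.add_sub_cancel]
  -- the series
  set ι : PowerSeries κ →+* LaurentSeries κ := HahnSeries.ofPowerSeries ℤ κ with hι
  have hιinj : Function.Injective ι := HahnSeries.ofPowerSeries_injective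
  set s : LaurentSeries κ := HahnSeries.single (1 : ℤ) (1 : κ) with hs
  set t : LaurentSeries κ := HahnSeries.single (-1 : ℤ) (1 : κ) with ht
  have hιX : ι PowerSeries.X = s := HahnSeries.ofPowerSeries_X
  have hst : s * t = 1 := by
    rw [hs, ht, HahnSeries.single_mul_single, mul_one]
    rfl
  have hW : ι w ^ (p - 1) = 1 + s ^ (p ^ 2 - 1) * ι w ^ (p ^ 2 - 1) := by
    have h := congrArg ι hw
    rw [map_pow, map_add, map_one, map_mul, map_pow, map_pow, hιX] at h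
    exact h
  set v : PowerSeries κ := w⁻¹ with hv
  have hwv : w * v = 1 := PowerSeries.mul_inv_cancel w (by rw [hw0]; exact one_ne_zero)
  have hv0 : PowerSeries.constantCoeff v = 1 := by
    have h := congrArg PowerSeries.constantCoeff hwv
    rw [map_mul, hw0, one_mul, map_one] at h
    exact h
  have hWV : ι w * ι v = 1 := by rw [← map_mul, hwv, map_one]
  set a₀ : LaurentSeries κ := s * ι w with ha₀
  set δ : LaurentSeries κ := t ^ (p + 1) * ι (v ^ (p + 1)) with hδ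
  have haδ : a₀ ^ (p + 1) * δ = 1 := by
    rw [ha₀, hδ, map_pow, mul_pow]
    calc s ^ (p + 1) * ι w ^ (p + 1) * (t ^ (p + 1) * ι v ^ (p + 1))
        = (s * t) ^ (p + 1) * (ι w * ι v) ^ (p + 1) := by ring
      _ = 1 := by rw [hst, hWV, one_pow, mul_one]
  have hA : a₀ ^ (p ^ 2) - t ^ (p - 1) * a₀ ^ p + a₀ = 0 := by
    have h1 : a₀ ^ (p ^ 2) = a₀ * (s ^ (p ^ 2 - 1) * ι w ^ (p ^ 2 - 1)) := by
      conv_lhs => rw [e1]
      rw [pow_succ, ha₀, mul_pow]
      ring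
    have h2 : t ^ (p - 1) * a₀ ^ p = a₀ * ι w ^ (p - 1) := by
      have h3 : a₀ ^ p = a₀ ^ (p - 1) * a₀ := by
        conv_lhs => rw [e2]
        rw [pow_succ]
      have h4 : t ^ (p - 1) * a₀ ^ (p - 1) = ι w ^ (p - 1) := by
        rw [← mul_pow, ha₀, ← mul_assoc, mul_comm t s, hst, one_mul]
      rw [h3, ← mul_assoc, h4, mul_comm]
    rw [h1, h2, hW]
    ring
  have hcoeff : ∀ (n : ℤ) (g : PowerSeries κ), n < 0 → (ι g).coeff n = 0 := by
    intro n g hn
    have h := PowerSeries.coeff_coe (R := κ) g n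
    rw [if_pos hn] at h
    exact h
  have hcoeff0 : ∀ g : PowerSeries κ, (ι g).coeff 0 = PowerSeries.constantCoeff g := by
    intro g
    have h := PowerSeries.coeff_coe (R := κ) g 0
    rw [if_neg (lt_irrefl _)] at h
    rw [← PowerSeries.coeff_zero_eq_constantCoeff_apply]
    exact h
  have htp : t ^ (p + 1) = HahnSeries.single (-((p : ℤ) + 1)) (1 : κ) := by
    rw [ht, HahnSeries.single_pow, one_pow]
    congr 1
    simp
  have hδc : ∀ n : ℤ, δ.coeff (n + -((p : ℤ) + 1)) = (ι (v ^ (p + 1))).coeff n := by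
    intro n
    rw [hδ, htp, HahnSeries.coeff_single_mul_add, one_mul]
  obtain ⟨Q, c, hQ, hQc⟩ := exists_Qc (p := p) δ
  have hQd : Q.natDegree = p + 1 := by
    refine natDegree_eq_of_le_of_coeff_ne_zero ?_ ?_
    · rw [natDegree_le_iff_coeff_eq_zero]
      intro N hN
      rw [hQc N]
      have h := hδc (-(N : ℤ) + ((p : ℤ) + 1))
      rw [show -(N : ℤ) + ((p : ℤ) + 1) + -((p : ℤ) + 1) = -(N : ℤ) by ring] at h
      rw [h]
      refine hcoeff _ _ ?_
      have : ((p + 1 : ℕ) : ℤ) < N := by exact_mod_cast hN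
      push_cast at this
      linarith
    · rw [hQc (p + 1)]
      have h := hδc 0
      rw [zero_add] at h
      push_cast
      rw [h, hcoeff0, map_pow, hv0, one_pow]
      exact one_ne_zero
  refine ⟨Q, hQd, ?_⟩
  have hch : CharP (AI.EE p Q) p :=
    charP_of_injective_ringHom (f := AI.ofL p Q) AI.ofL_injective p
  set a : AI.EE p Q := AI.ofL p Q a₀ with ha
  set D : AI.EE p Q := AI.ofL p Q δ with hD
  set y : AI.EE p Q := AI.yy p Q + AI.ofL p Q c with hy
  have hT : AI.ze p Q (X ^ (p - 1)) = AI.ofL p Q (t ^ (p - 1)) := by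
    rw [AI.ze_apply, map_pow, AI.zinv_X]
  have hyp : y ^ p = y + D := by
    rw [hy, add_pow_char, AI.yy_pow_eq, AI.ze_apply, ← map_pow, hD, ← hQ, map_sub, map_add]
    ring
  have haD : a ^ (p + 1) * D = 1 := by
    rw [ha, hD, ← map_pow, ← map_mul, haδ, map_one]
  have hAE : a ^ (p ^ 2) - AI.ze p Q (X ^ (p - 1)) * a ^ p + a = 0 := by
    have h := congrArg (AI.ofL p Q) hA
    rw [map_zero, map_add, map_sub, map_mul, map_pow (AI.ofL p Q) a₀ (p ^ 2),
      map_pow (AI.ofL p Q) a₀ p] at h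
    rw [hT]
    exact h
  refine ⟨a, a * y, hAE, ?_, ?_, AI.tau_ofL _, ?_, ?_⟩
  · have h1 : y ^ (p ^ 2) = y + D + D ^ p := by
      rw [pow_two, pow_mul, hyp, add_pow_char, hyp]
    have h2 : a ^ (p ^ 2) * D ^ p = a * D := by
      have h3 : a ^ (p ^ 2) = a ^ ((p + 1) * (p - 1)) * a := by
        conv_lhs => rw [e1, e3]
        rw [pow_succ]
      have h4 : D ^ (p - 1) * D = D ^ p := by rw [← pow_succ, Nat.sub_add_cancel hp1.le]
      rw [h3, ← h4]
      calc a ^ ((p + 1) * (p - 1)) * a * (D ^ (p - 1) * D)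
          = (a ^ (p + 1) * D) ^ (p - 1) * (a * D) := by rw [mul_pow, ← pow_mul]; ring
        _ = a * D := by rw [haD, one_pow, one_mul]
    rw [mul_pow, mul_pow, h1, hyp]
    linear_combination (y + D) * hAE + h2
  · rw [mul_pow, hyp]
    have h5 : a ^ (p + 1) = a ^ p * a := pow_succ a p
    rw [h5] at haD
    linear_combination haD
  · rw [map_mul, AI.tau_ofL, hy, map_add, AI.tau_yy, AI.tau_ofL]
    ring
  · intro P hP
    rw [AI.ze_apply, ha, ← map_pow] at hP
    have h6 := AI.ofL_injective hP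
    have h7 := congrArg (fun z => HahnSeries.coeff z ((p : ℤ) - 1)) h6
    rw [AI.zinv_coeff, if_neg (by omega), ha₀, mul_pow, hs, HahnSeries.single_pow, one_pow,
      ← map_pow] at h7
    have h8 : (p - 1) • (1 : ℤ) = (p : ℤ) - 1 := by
      rw [nsmul_eq_mul, mul_one]
      push_cast [Nat.cast_sub hp1.le]
      ring
    rw [h8] at h7
    have h9 := HahnSeries.coeff_single_mul_add (r := (1 : κ)) (x := ι (w ^ (p - 1))) (a := 0)
      (b := (p : ℤ) - 1)
    rw [zero_add, one_mul, hcoeff0, map_pow PowerSeries.constantCoeff, hw0, one_pow] at h9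
    rw [h9] at h7
    exact zero_ne_one h7

end

end Pool.Agent.MP_1c8e06_ag.AL
end
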