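import Pool.Agent.Lib.MP_1c8e06_ag.Mg.G077

section

set_option autoImplicit false

open Polynomial

namespace Pool.Agent.MP_1c8e06_ag.AL

noncomputable section

/-!
# Task M5e: the ring `S` with its action of `SL_2(F_p)` (assembly)

Proof.  `K := FractionRing κ[X]` (or `RatFunc κ`), `K → E` the extension of the injective `z`
(`letI : Algebra K E := (IsFractionRing.lift hz).toAlgebra`, `letI : Algebra κ[X] E := z.toAlgebra`, scalar tower:
`IsScalarTower.of_algebraMap_eq`; see `E1_core2` in `AI/E1.lean`).  `CharP E p` (`charP_of_injective_ringHom` for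
`z.comp C`).  `τ` fixes `K` (fractions of elements fixed by `τ`).
`a ^ (p - 1)` is not in `K`: `a` is integral over `κ[X]` (monic equation `Y ^ (p ^ 2) - t Y ^ p + Y`), so if
`a ^ (p - 1) = algebraMap K E x` then `x` is integral over `κ[X]` (`isIntegral_algebraMap_iff`, injectivity of `K → E`), hence
`x ∈ κ[X]` (integrally closed: `IsIntegrallyClosed.isIntegral_iff`), contradicting `hne`.
`N := IntermediateField.adjoin K {a, b}`, `rho_surj`: `ρ`.
`S := {x ∈ N | x integral over κ[X]}` as a subring of `E` (`integralClosure κ[X] E` intersected with `N`).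
`act h s := ⟨ρ.symm h s, _⟩` (an automorphism over `K` preserves integrality over `κ[X]`); `act` is a homomorphism as `ρ.symm` is.
`z P ∈ S`, fixed by all (elements of `K`).  `a, b ∈ S`.  Formulas: `rho_surj` for `σ := ρ.symm h`.
Finite: the integral closure of the noetherian integrally closed domain `κ[X]` in the finite separable extension `N / K` is a finite module
(`IsIntegralClosure.finite κ[X] K N (integralClosure κ[X] N)`, with `IsGalois` giving separable); choose finite generators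
(`Module.Finite.exists_fin`).
Invariants: `s ∈ N` fixed by `Gal(N/K)` is in `K` (Galois), and integral over `κ[X]`, so in `κ[X]`.
-/

private theorem M5e_int {κ E : Type} [Field κ] [Field E] (z : κ[X] →+* E) (t : κ[X]) (a : E)
    {q r : ℕ} (hrq : r < q) (hr : 1 < r)
    (ha : a ^ q - z t * a ^ r + a = 0) : z.IsIntegralElem a := by
  refine ⟨X ^ q - C t * X ^ r + X, ?_, ?_⟩
  · have h1 : (X ^ q - C t * X ^ r + X : κ[X][X]) = X ^ q + (X - C t * X ^ r) := by ring
    rw [h1]
    apply Polynomial.monic_X_pow_add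
    refine lt_of_le_of_lt (Polynomial.degree_sub_le _ _) ?_
    rw [max_lt_iff]
    constructor
    · rw [Polynomial.degree_X]
      exact_mod_cast (by omega : 1 < q)
    · exact lt_of_le_of_lt (Polynomial.degree_C_mul_X_pow_le r t) (by exact_mod_cast hrq)
  · simp [Polynomial.eval₂_add, Polynomial.eval₂_sub, Polynomial.eval₂_mul, ha]

theorem exists_SL2_action {p : ℕ} [hp : Fact p.Prime] {κ E : Type} [Field κ] [CharP κ p] [Field E]
    (z : κ[X] →+* E) (hz : Function.Injective z) (τ : E →+* E) (hτ : ∀ P, τ (z P) = z P)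
    (t : κ[X]) (a b : E) (ha : a ^ (p ^ 2) - z t * a ^ p + a = 0)
    (hb : b ^ (p ^ 2) - z t * b ^ p + b = 0) (hab : a * b ^ p - a ^ p * b = 1)
    (hτa : τ a = a) (hτb : τ b = b + a) (hne : ∀ P : κ[X], z P ≠ a ^ (p - 1)) :
    ∃ (S : Subring E) (act : SL2 p →* (S ≃+* S)) (hzS : ∀ P, z P ∈ S) (haS : a ∈ S) (hbS : b ∈ S),
      (∀ s : S, ((act (eSL p) s : S) : E) = τ s) ∧
      (∀ (h : SL2 p) (P : κ[X]), act h ⟨z P, hzS P⟩ = ⟨z P, hzS P⟩) ∧
      (∀ h : SL2 p,
        ((act h ⟨a, haS⟩ : S) : E) = (((h.1 0 0).val : ℕ) : E) * a + (((h.1 1 0).val : ℕ) : E) * b ∧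
        ((act h ⟨b, hbS⟩ : S) : E) = (((h.1 0 1).val : ℕ) : E) * a + (((h.1 1 1).val : ℕ) : E) * b) ∧
      (∃ (n : ℕ) (v : Fin n → S), ∀ s : S, ∃ c : Fin n → κ[X],
        (s : E) = ∑ i, z (c i) * (v i : E)) ∧
      (∀ s : S, (∀ h, act h s = s) → ∃ P : κ[X], (s : E) = z P) := by
  let i1 : Algebra κ[X] E := z.toAlgebra
  let i2 : Algebra (FractionRing κ[X]) E :=
    (IsFractionRing.lift (A := κ[X]) (K := FractionRing κ[X]) hz).toAlgebra
  have i3 : IsScalarTower κ[X] (FractionRing κ[X]) E := IsScalarTower.of_algebraMap_eq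
    fun x => (IsFractionRing.lift_algebraMap hz x).symm
  have hzz : ∀ P : κ[X], algebraMap κ[X] E P = z P := fun P => rfl
  have hKz : ∀ P : κ[X], algebraMap (FractionRing κ[X]) E (algebraMap κ[X] (FractionRing κ[X]) P)
      = z P := fun P => by rw [← IsScalarTower.algebraMap_apply, hzz]
  have hch : CharP E p := charP_of_injective_ringHom (f := z.comp C)
    (hz.comp C_injective) p
  have hp1 : 1 < p := hp.out.one_lt
  have hpp : p < p ^ 2 := by nlinarith
  have hinta : IsIntegral κ[X] a := M5e_int z t a hpp hp1 ha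
  have hintb : IsIntegral κ[X] b := M5e_int z t b hpp hp1 hb
  have hτK : ∀ x : FractionRing κ[X], τ (algebraMap (FractionRing κ[X]) E x) =
      algebraMap (FractionRing κ[X]) E x := by
    intro x
    obtain ⟨P, Q, -, rfl⟩ := IsFractionRing.div_surjective (A := κ[X]) x
    rw [map_div₀, map_div₀, hKz, hKz, hτ, hτ]
  have hKint : ∀ x : FractionRing κ[X], IsIntegral κ[X] (algebraMap (FractionRing κ[X]) E x) →
      ∃ P : κ[X], algebraMap (FractionRing κ[X]) E x = z P := by
    intro x hx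
    have h1 : IsIntegral κ[X] x :=
      (isIntegral_algebraMap_iff (algebraMap (FractionRing κ[X]) E).injective).1 hx
    obtain ⟨P, hP⟩ := IsIntegrallyClosed.isIntegral_iff.1 h1
    exact ⟨P, by rw [← hP, hKz]⟩
  have hneK : ∀ x : FractionRing κ[X], algebraMap (FractionRing κ[X]) E x ≠ a ^ (p - 1) := by
    intro x hx
    obtain ⟨P, hP⟩ := hKint x (by rw [hx]; exact hinta.pow _)
    exact hne P (by rw [← hP, hx])
  obtain ⟨N, hN⟩ : ∃ N : IntermediateField (FractionRing κ[X]) E,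
    N = IntermediateField.adjoin (FractionRing κ[X]) {a, b} := ⟨_, rfl⟩
  have haN : a ∈ N := by
    rw [hN]; exact IntermediateField.subset_adjoin _ _ (by simp)
  have hbN : b ∈ N := by
    rw [hN]; exact IntermediateField.subset_adjoin _ _ (by simp)
  obtain ⟨hgal, hfd, ρ, hρ, hρτ⟩ := rho_surj (algebraMap κ[X] (FractionRing κ[X]) t) a b
    (by rw [hKz]; exact ha) (by rw [hKz]; exact hb) hab τ hτK hτa hτb hneK N hN haN hbN
  have i4 : IsScalarTower κ[X] N E := IsScalarTower.of_algebraMap_eq fun x => rfl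
  have hNint : ∀ x : N, IsIntegral κ[X] (x : E) ↔ IsIntegral κ[X] x := fun x =>
    isIntegral_algebraMap_iff (R := κ[X]) (A := N) (B := E) (algebraMap N E).injective
  have hσint : ∀ (σ : N ≃ₐ[FractionRing κ[X]] N) (x : N), IsIntegral κ[X] (x : E) →
      IsIntegral κ[X] ((σ x : N) : E) := by
    intro σ x hx
    rw [hNint] at hx ⊢
    exact hx.map (σ.toAlgHom.restrictScalars κ[X])
  let S : Subring E := (integralClosure κ[X] E).toSubring ⊓ N.toSubring
  have hS : ∀ x : E, x ∈ S ↔ IsIntegral κ[X] x ∧ x ∈ N := fun x => Iff.rfl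
  have hSmul : ∀ (σ : N ≃ₐ[FractionRing κ[X]] N) (s : S),
      ((σ ⟨s.1, ((hS s.1).1 s.2).2⟩ : N) : E) ∈ S := fun σ s =>
    (hS _).2 ⟨hσint σ ⟨s.1, ((hS s.1).1 s.2).2⟩ ((hS s.1).1 s.2).1, Subtype.mem _⟩
  let act : SL2 p →* (S ≃+* S) :=
    { toFun := fun h =>
        { toFun := fun s => ⟨((ρ.symm h ⟨s.1, ((hS s.1).1 s.2).2⟩ : N) : E), hSmul _ s⟩
          invFun := fun s => ⟨((ρ.symm h⁻¹ ⟨s.1, ((hS s.1).1 s.2).2⟩ : N) : E), hSmul _ s⟩
          left_inv := fun s => by
            apply Subtype.ext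
            simp [map_inv]
          right_inv := fun s => by
            apply Subtype.ext
            simp [map_inv]
          map_add' := fun s s' => by
            apply Subtype.ext
            simp only [Subring.coe_add, ← IntermediateField.coe_add, ← map_add]
            rfl
          map_mul' := fun s s' => by
            apply Subtype.ext
            simp only [Subring.coe_mul, ← IntermediateField.coe_mul, ← map_mul]
            rfl }
      map_one' := by
        ext s
        simp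
      map_mul' := fun h h' => by
        ext s
        simp [map_mul] }
  have hact : ∀ (h : SL2 p) (s : S),
      ((act h s : S) : E) = ((ρ.symm h ⟨s.1, ((hS s.1).1 s.2).2⟩ : N) : E) := fun h s => rfl
  have hKN : ∀ x : FractionRing κ[X], algebraMap (FractionRing κ[X]) E x ∈ N := fun x =>
    N.algebraMap_mem x
  have hzS : ∀ P, z P ∈ S := fun P => (hS _).2 ⟨isIntegral_algebraMap (R := κ[X]) (A := E) (x := P),
    by rw [← hKz]; exact hKN _⟩
  have haS : a ∈ S := (hS _).2 ⟨hinta, haN⟩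
  have hbS : b ∈ S := (hS _).2 ⟨hintb, hbN⟩
  refine ⟨S, act, hzS, haS, hbS, ?_, ?_, ?_, ?_, ?_⟩
  · intro s
    rw [hact, hρτ]
  · intro h P
    apply Subtype.ext
    rw [hact]
    have h1 : (⟨z P, ((hS _).1 (hzS P)).2⟩ : N) =
        algebraMap (FractionRing κ[X]) N (algebraMap κ[X] (FractionRing κ[X]) P) :=
      Subtype.ext (hKz P).symm
    have h2 : ρ.symm h (⟨z P, ((hS _).1 (hzS P)).2⟩ : N) = ⟨z P, ((hS _).1 (hzS P)).2⟩ := by
      rw [h1, AlgEquiv.commutes]
    exact congrArg Subtype.val h2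
  · intro h
    have h1 := hρ (ρ.symm h)
    rw [MulEquiv.apply_symm_apply] at h1
    exact ⟨by rw [hact]; exact h1.1, by rw [hact]; exact h1.2⟩
  · have hfin : Module.Finite κ[X] (integralClosure κ[X] N) :=
      IsIntegralClosure.finite κ[X] (FractionRing κ[X]) N (integralClosure κ[X] N)
    obtain ⟨n, v, hv⟩ := Module.Finite.exists_fin (R := κ[X]) (M := integralClosure κ[X] N)
    refine ⟨n, fun i => ⟨((v i : N) : E), (hS _).2 ⟨(hNint _).2 (v i).2, Subtype.mem _⟩⟩, ?_⟩
    intro s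
    have hs := (hS s.1).1 s.2
    have h1 : (⟨⟨s.1, hs.2⟩, (hNint ⟨s.1, hs.2⟩).1 hs.1⟩ : integralClosure κ[X] N) ∈
        Submodule.span κ[X] (Set.range v) := by rw [hv]; trivial
    obtain ⟨c, hc⟩ := (Submodule.mem_span_range_iff_exists_fun κ[X]).1 h1
    refine ⟨c, ?_⟩
    have h2 := congrArg (fun x : integralClosure κ[X] N => ((x : N) : E)) hc
    simp only [AddSubmonoidClass.coe_finsetSum] at h2
    rw [← h2]
    refine Finset.sum_congr rfl fun i _ => ?_
    rfl
  · intro s hs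
    have hsm := (hS s.1).1 s.2
    have h1 : (⟨s.1, hsm.2⟩ : N) ∈ Set.range (algebraMap (FractionRing κ[X]) N) := by
      rw [IsGalois.mem_range_algebraMap_iff_fixed]
      intro σ
      have h2 := congrArg Subtype.val (hs (ρ σ))
      rw [hact, MulEquiv.symm_apply_apply] at h2
      exact Subtype.ext h2
    obtain ⟨x, hx⟩ := h1
    have hx' : algebraMap (FractionRing κ[X]) E x = s.1 := congrArg Subtype.val hx
    obtain ⟨P, hP⟩ := hKint x (by rw [hx']; exact hsm.1)
    exact ⟨P, by rw [← hP, hx']⟩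

end

end Pool.Agent.MP_1c8e06_ag.AL
end

section

set_option autoImplicit false

namespace Pool.Agent.MP_1c8e06_ag.AL

noncomputable section

/-!
# Task M6: the action is free

Proof.  Let `h ≠ 1`, `I := Ideal.span (range (s - act h s))`.  `I` contains `a - act h a = (1 - h₀₀) a - h₁₀ b` and
`b - act h b = - h₀₁ a + (1 - h₁₁) b` (entries in `F_p ⊆ E` through `x ↦ ((x.val : ℕ) : E)`; `val_add` and `val_mul` of `AL/M5b.lean`
give `-` as well).  As `h ≠ 1` one of the two pairs of coefficients is not `(0, 0)`: `I` contains an element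
`y = α a + β b` with `(α, β) ≠ (0, 0)` in `F_p ^ 2` (take `α := 1 - h₀₀`, `β := - h₁₀` in `ZMod p`, or the second pair).  `y ≠ 0`
(`roots_indep`), `y ^ (p ^ 2) - T * y ^ p + y = 0` (`roots_root`); divide by `y`: `y ^ (p ^ 2 - 1) - T * y ^ (p - 1) + 1 = 0`, so
`y * (T * y ^ (p - 2) - y ^ (p ^ 2 - 2)) = 1` (`p ≥ 2`) and the second factor is in `S` (`T, y ∈ S`).  So `I` contains the unit `y`.
-/

private theorem M6_sub {p : ℕ} [hp : Fact p.Prime] {E : Type} [Field E] [CharP E p] (x : ZMod p) :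
    (((1 - x).val : ℕ) : E) = 1 - ((x.val : ℕ) : E) := by
  have h := val_add (E := E) (1 - x) x
  rw [sub_add_cancel, ZMod.val_one, Nat.cast_one] at h
  rw [h]; ring

private theorem M6_neg {p : ℕ} [hp : Fact p.Prime] {E : Type} [Field E] [CharP E p] (x : ZMod p) :
    (((-x).val : ℕ) : E) = - ((x.val : ℕ) : E) := by
  have h := val_add (E := E) (-x) x
  rw [neg_add_cancel, ZMod.val_zero, Nat.cast_zero] at h
  linear_combination -h

private theorem M6_top {p : ℕ} [hp : Fact p.Prime] {E : Type} [Field E] [CharP E p] (T a b : E)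
    (ha : a ^ (p ^ 2) - T * a ^ p + a = 0) (hb : b ^ (p ^ 2) - T * b ^ p + b = 0)
    (hab : a * b ^ p - a ^ p * b = 1) (S : Subring E) (hT : T ∈ S) (I : Ideal S) (x : S)
    (hx : x ∈ I) (α β : ZMod p) (hαβ : ¬ (α = 0 ∧ β = 0))
    (hxy : (x : E) = ((α.val : ℕ) : E) * a + ((β.val : ℕ) : E) * b) : I = ⊤ := by
  have hy0 : (x : E) ≠ 0 := fun h0 => hαβ (roots_indep a b hab α β (hxy ▸ h0))
  have hroot := roots_root T a b ha hb α β (x : E) hxy
  have h2 : 2 ≤ p := hp.out.two_le
  have hp2 : 2 ≤ p ^ 2 := by nlinarith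
  obtain ⟨m, hm⟩ : ∃ m, p = m + 2 := ⟨p - 2, by omega⟩
  obtain ⟨l, hl⟩ : ∃ l, p ^ 2 = l + 2 := ⟨p ^ 2 - 2, by omega⟩
  refine Ideal.eq_top_of_unit_mem I x (⟨T, hT⟩ * x ^ m - x ^ l) hx ?_
  apply Subtype.ext
  have key : (T * (x : E) ^ m - (x : E) ^ l) * (x : E) = 1 := by
    have h : (x : E) * ((T * (x : E) ^ m - (x : E) ^ l) * (x : E)) = (x : E) * 1 := by
      rw [hl] at hroot
      have e1 : (x : E) ^ p = (x : E) ^ m * (x : E) ^ 2 := by rw [← pow_add, ← hm]
      rw [e1, pow_add] at hroot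
      linear_combination -hroot
    exact mul_left_cancel₀ hy0 h
  simpa using key

theorem SL2_free {p : ℕ} [hp : Fact p.Prime] {E : Type} [Field E] [CharP E p] (T a b : E)
    (ha : a ^ (p ^ 2) - T * a ^ p + a = 0) (hb : b ^ (p ^ 2) - T * b ^ p + b = 0)
    (hab : a * b ^ p - a ^ p * b = 1) (S : Subring E) (hT : T ∈ S) (haS : a ∈ S) (hbS : b ∈ S)
    (act : SL2 p →* (S ≃+* S))
    (hact : ∀ h : SL2 p,
      ((act h ⟨a, haS⟩ : S) : E) = (((h.1 0 0).val : ℕ) : E) * a + (((h.1 1 0).val : ℕ) : E) * b ∧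
      ((act h ⟨b, hbS⟩ : S) : E) = (((h.1 0 1).val : ℕ) : E) * a + (((h.1 1 1).val : ℕ) : E) * b)
    (h : SL2 p) (hh : h ≠ 1) :
    Ideal.span (Set.range fun s : S => s - act h s) = ⊤ := by
  set I := Ideal.span (Set.range fun s : S => s - act h s) with hI
  have hmem : ∀ s : S, s - act h s ∈ I := fun s => Ideal.subset_span ⟨s, rfl⟩
  by_cases h1 : (1 - h.1 0 0 = 0 ∧ -h.1 1 0 = 0)
  · by_cases h2 : (-h.1 0 1 = 0 ∧ 1 - h.1 1 1 = 0)
    · exfalso
      apply hh
      obtain ⟨h3, h4⟩ := h1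
      obtain ⟨h5, h6⟩ := h2
      ext i j
      fin_cases i <;> fin_cases j
      · simpa using (sub_eq_zero.mp h3).symm
      · simpa using neg_eq_zero.mp h5
      · simpa using neg_eq_zero.mp h4
      · simpa using (sub_eq_zero.mp h6).symm
    · refine M6_top T a b ha hb hab S hT I _ (hmem ⟨b, hbS⟩) (-h.1 0 1) (1 - h.1 1 1) h2 ?_
      rw [M6_sub, M6_neg]
      push_cast
      rw [(hact h).2]
      ring
  · refine M6_top T a b ha hb hab S hT I _ (hmem ⟨a, haS⟩) (1 - h.1 0 0) (-h.1 1 0) h1 ?_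
    rw [M6_sub, M6_neg]
    push_cast
    rw [(hact h).1]
    ring

end

end Pool.Agent.MP_1c8e06_ag.AL
end

section

set_option autoImplicit false

namespace Pool.Agent.MP_1c8e06_ag.AL

noncomputable section

/-!
# Task M7: homomorphisms from `SL_2(F_p)` not killing `e`

Proof.  Suppose `p ∣ Nat.card φ.ker`.  By Cauchy (`exists_prime_orderOf_dvd_card'`) there is `h ∈ φ.ker` of order `p`.  As a matrix over
`ZMod p` (characteristic `p`) `(h - 1) ^ p = h ^ p - 1 = 0` (`sub_pow_char` / `Commute.sub_pow...` for commuting matrices, in a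
ring of characteristic `p`), so `h - 1` is a nilpotent `2 × 2` matrix, hence `(h - 1) ^ 2 = 0` (its characteristic polynomial is
`X ^ 2`: trace and determinant of `h - 1` are nilpotent, hence `0`), and `h ≠ 1`.  Take a vector `v` with `w := (h - 1) v ≠ 0`;
`(h - 1) w = 0`; `w, v` are linearly independent, `d := det (w | v) ≠ 0`.  `g := (d⁻¹ w | v) ∈ SL_2(F_p)`,
`h g = g * (1 d; 0 1)` (`h (d⁻¹ w) = d⁻¹ w`, `h v = v + w = v + d * (d⁻¹ w)`).  So `g⁻¹ * h * g = e ^ d` (`d` as a natural number) is in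
`φ.ker`, and `e` is a power of it (`d ≠ 0`: `e = (e ^ d) ^ m` with `d * m ≡ 1` mod `p`), so `φ e = 1`, a contradiction.
-/

private theorem M7_pow {p : ℕ} [hp : Fact p.Prime] (j : ℕ) :
    (eSL p ^ j).1 = !![1, (j : ZMod p); 0, 1] := by
  induction j with
  | zero =>
    rw [pow_zero]
    simp [Matrix.one_fin_two]
  | succ j ih =>
    rw [pow_succ, Matrix.SpecialLinearGroup.coe_mul, ih]
    simp [eSL, add_comm]

private theorem M7_col {p : ℕ} [hp : Fact p.Prime] (v : Fin 2 → ZMod p) (hv : v ≠ 0) :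
    ∃ g : SL2 p, g.1 0 0 = v 0 ∧ g.1 1 0 = v 1 := by
  by_cases h0 : v 0 = 0
  · have h1 : v 1 ≠ 0 := by
      intro h1
      apply hv
      funext i
      fin_cases i
      · exact h0
      · exact h1
    refine ⟨⟨!![0, -(v 1)⁻¹; v 1, 0], ?_⟩, ?_, ?_⟩
    · rw [Matrix.det_fin_two_of]
      field_simp
      ring
    · simp [h0]
    · simp
  · refine ⟨⟨!![v 0, 0; v 1, (v 0)⁻¹], ?_⟩, ?_, ?_⟩
    · rw [Matrix.det_fin_two_of]
      field_simp
      ring
    · simp
    · simp

private theorem M7_conj {p : ℕ} [hp : Fact p.Prime] (h g : SL2 p) (v : Fin 2 → ZMod p)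
    (hv : h.1.mulVec v = v) (hg0 : g.1 0 0 = v 0) (hg1 : g.1 1 0 = v 1) :
    (g⁻¹ * (h * g)).1 = !![1, (g⁻¹ * (h * g)).1 0 1; 0, 1] := by
  have e0 : (h * g).1 0 0 = g.1 0 0 := by
    have := congrFun hv 0
    rw [Matrix.mulVec, dotProduct, Fin.sum_univ_two, ← hg0, ← hg1] at this
    rw [Matrix.SpecialLinearGroup.coe_mul, Matrix.mul_apply, Fin.sum_univ_two]
    exact this
  have e1 : (h * g).1 1 0 = g.1 1 0 := by
    have := congrFun hv 1
    rw [Matrix.mulVec, dotProduct, Fin.sum_univ_two, ← hg0, ← hg1] at this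
    rw [Matrix.SpecialLinearGroup.coe_mul, Matrix.mul_apply, Fin.sum_univ_two]
    exact this
  have hgdet : g.1 0 0 * g.1 1 1 - g.1 0 1 * g.1 1 0 = 1 := by
    rw [← Matrix.det_fin_two]; exact g.2
  have m00 : (g⁻¹ * (h * g)).1 0 0 = 1 := by
    rw [Matrix.SpecialLinearGroup.coe_mul, Matrix.mul_apply, Fin.sum_univ_two, e0, e1,
      Matrix.SpecialLinearGroup.SL2_inv_expl]
    simp only [Matrix.cons_val_zero, Matrix.cons_val_one]
    linear_combination hgdet
  have m10 : (g⁻¹ * (h * g)).1 1 0 = 0 := by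
    rw [Matrix.SpecialLinearGroup.coe_mul, Matrix.mul_apply, Fin.sum_univ_two, e0, e1,
      Matrix.SpecialLinearGroup.SL2_inv_expl]
    simp only [Matrix.cons_val_zero, Matrix.cons_val_one]
    ring
  have m11 : (g⁻¹ * (h * g)).1 1 1 = 1 := by
    have hd : (g⁻¹ * (h * g)).1 0 0 * (g⁻¹ * (h * g)).1 1 1 -
        (g⁻¹ * (h * g)).1 0 1 * (g⁻¹ * (h * g)).1 1 0 = 1 := by
      rw [← Matrix.det_fin_two]; exact (g⁻¹ * (h * g)).2
    rw [m00, m10] at hd
    linear_combination hd
  ext i j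
  fin_cases i <;> fin_cases j
  · exact m00
  · rfl
  · exact m10
  · exact m11

theorem not_dvd_ker {p : ℕ} [hp : Fact p.Prime] {G : Type} [Group G] (φ : SL2 p →* G)
    (hφ : φ (eSL p) ≠ 1) : ¬ p ∣ Nat.card φ.ker := by
  intro hd
  obtain ⟨h, hh⟩ := exists_prime_orderOf_dvd_card' p hd
  have ho : orderOf (h : SL2 p) = p := by rw [Subgroup.orderOf_coe]; exact hh
  have hp1 : (h : SL2 p) ^ p = 1 := by
    have := pow_orderOf_eq_one (h : SL2 p)
    rwa [ho] at this
  have hM : (h : SL2 p).1 ^ p = 1 := by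
    have := congrArg Subtype.val hp1
    rwa [Matrix.SpecialLinearGroup.coe_pow] at this
  have hdet : ((h : SL2 p).1 - 1).det = 0 := by
    have h1 : ((h : SL2 p).1 - 1) ^ p = 0 := by
      rw [sub_pow_char_of_commute p (Commute.one_right _), hM, one_pow, sub_self]
    have h2 : ((h : SL2 p).1 - 1).det ^ p = 0 := by
      rw [← Matrix.det_pow, h1, Matrix.det_zero]
    exact pow_eq_zero_iff hp.out.ne_zero |>.1 h2
  obtain ⟨v, hv0, hv⟩ := Matrix.exists_mulVec_eq_zero_iff.2 hdet
  rw [Matrix.sub_mulVec, Matrix.one_mulVec, sub_eq_zero] at hv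
  obtain ⟨g, hg0, hg1⟩ := M7_col v hv0
  have hm := M7_conj (h : SL2 p) g v hv hg0 hg1
  set b : ZMod p := (g⁻¹ * ((h : SL2 p) * g)).1 0 1 with hb
  have hej : eSL p ^ b.val = g⁻¹ * ((h : SL2 p) * g) := by
    apply Subtype.ext
    rw [M7_pow, hm, ZMod.natCast_zmod_val]
  have hb0 : b ≠ 0 := by
    intro h0
    rw [h0, ZMod.val_zero, pow_zero] at hej
    have h3 : (h : SL2 p) = 1 := by
      have h4 : (h : SL2 p) = g * (g⁻¹ * ((h : SL2 p) * g)) * g⁻¹ := by group
      rw [h4, ← hej]; group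
    rw [h3, orderOf_one] at ho
    exact hp.out.one_lt.ne ho
  have hker : φ (h : SL2 p) = 1 := h.2
  have h5 : φ (eSL p) ^ b.val = 1 := by
    rw [← map_pow, hej, map_mul, map_mul, hker, one_mul, ← map_mul, inv_mul_cancel, map_one]
  have h6 : φ (eSL p) ^ p = 1 := by
    have : eSL p ^ p = 1 := by
      apply Subtype.ext
      rw [M7_pow, CharP.cast_eq_zero, ← Matrix.one_fin_two]
      rfl
    rw [← map_pow, this, map_one]
  have h7 := orderOf_dvd_of_pow_eq_one h5
  have h8 := orderOf_dvd_of_pow_eq_one h6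
  have hlt : b.val < p := ZMod.val_lt b
  have hpos : 0 < b.val := Nat.pos_of_ne_zero (fun h0 => hb0 ((ZMod.val_eq_zero b).1 h0))
  have hcop : Nat.Coprime b.val p :=
    Nat.Coprime.symm ((Nat.Prime.coprime_iff_not_dvd hp.out).2 (fun hdv =>
      absurd (Nat.le_of_dvd hpos hdv) (not_le.2 hlt)))
  have h9 : orderOf (φ (eSL p)) ∣ 1 := by
    rw [← hcop]
    exact Nat.dvd_gcd h7 h8
  exact hφ (orderOf_eq_one_iff.1 (Nat.dvd_one.1 h9))

end

end Pool.Agent.MP_1c8e06_ag.AL
end
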