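import Pool.Agent.Lib.MP_1c8e06_ag.Mg.G074
import Pool.Agent.Lib.MP_1c8e06_ag.Mg.G081
import Pool.Agent.Lib.MP_1c8e06_ag.AL.Defs
import Pool.Agent.Lib.MP_1c8e06_ag.Mg.G066
import Pool.Agent.Lib.MP_1c8e06_ag.Mg.G059
import Pool.Agent.Lib.MP_1c8e06_ag.AI.FIN

section

set_option autoImplicit false

namespace Pool.Agent.MP_1c8e06_ag.AL

noncomputable section

/-!
# Task NC: normal subgroups of `SL(V)` containing an element of order `p`

`M` is a subgroup of `V ≃ₗ[F] V` stable under conjugation by the elements of determinant `1`.  Transvections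
(`LinearEquiv.transvection`, `LinearEquiv.transvection.det_eq_one`) have determinant `1`.
Proofs.
* `NC_pairs`: let `1 + c a ⊗ f ∈ M` with `c ≠ 0`, `a ≠ 0`, `f ≠ 0`, `f a = 0` (notation `(1 + c a ⊗ f) x = x + (c * f x) • a`).  Choose `b` with `f b = 1`; `a, b` are
  independent.  Let `C := {c | 1 + c a ⊗ f ∈ M}`, an additive subgroup of `F`.  For `s ≠ 0` let `g` be the linear map with `g a = s a`,
  `g b = s⁻¹ b`, identity on `ker f ∩ ker f'` where `f'` is a functional with `f' a = 1`, `f' b = 0` (so `V = F a ⊕ F b ⊕ (ker f ∩ ker f')`):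
  determinant `1`, `f ∘ g⁻¹ = s f`; so `g (1 + c a ⊗ f) g⁻¹ = 1 + s² c a ⊗ f`: `C` is stable under squares, and `SQ` gives `C = F`: `TP M a f`.
  (`g` may be written as the product of transvections `x_ab(s) x_ba(-s⁻¹) x_ab(s) · x_ab(-1) x_ba(1) x_ab(-1)`, or as `1 + (s-1) a ⊗ f' + (s⁻¹-1) b ⊗ f`.)
* Let `(a', f')` be another pair with `f' a' = 0`, `a', f' ≠ 0`.  There are `b, b'` with `f b = 1`, `f' b' = 1`; complete `a, b` to a basis `a, b, c₁, …` with
  `f c_i = 0` and `a', b'` to a basis `a', b', c'₁, …` with `f' c'_i = 0`.  The linear map `g` with `g a = a'`, `g b = μ b'`, `g c_i = c'_i` has determinant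
  `1` for a suitable `μ ≠ 0`, and `f ∘ g⁻¹ = μ⁻¹ f'`.  Conjugating: `TP M a' (μ⁻¹ f')`, hence `TP M a' f'`.  So `TP M a' f'` for all pairs.
* `NC_transv`: `M` contains a transvection `1 + a ⊗ f` with `a, f ≠ 0`, `f a = 0`.  Let `N := u - 1 ≠ 0`, nilpotent (`N ^ p = u ^ p - 1 = 0` in characteristic `p`).
  If the rank of `N` is `1` then `N x = f x • a` and `f a = 0` (`N` is nilpotent, `N a = f a • a`): `u` itself.  If the rank is `≥ 2` choose
  `a ≠ 0` with `N a = 0`, `b` with `N b ∉ F a`, and a functional `f` with `f a = 0`, `f (N b) = 1`.  `t := 1 + a ⊗ f` (determinant `1`).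
  `u t u⁻¹ t⁻¹ = 1 + a ⊗ (f ∘ u⁻¹ - f)` (`u a = a`) is in `M`, and `f (u⁻¹ (u b)) - f (u b) = - f (N b) ≠ 0`.
* `NC`: all `TP M a' f'`; `TP_gen` with any basis.
-/

private theorem NC_dual1 {F V : Type} [Field F] [AddCommGroup V] [Module F V] {a : V}
    (ha : a ≠ 0) : ∃ φ : Module.Dual F V, φ a = 1 := by
  obtain ⟨φ, hφ⟩ := Module.Projective.exists_dual_ne_zero F ha
  refine ⟨(φ a)⁻¹ • φ, ?_⟩
  simp [hφ]

private theorem NC_dual2 {F V : Type} [Field F] [AddCommGroup V] [Module F V] {a b : V}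
    (hb : b ∉ Submodule.span F {a}) : ∃ φ : Module.Dual F V, φ a = 0 ∧ φ b = 1 := by
  obtain ⟨φ, hφ, h2⟩ := Submodule.exists_le_ker_of_notMem hb
  refine ⟨(φ b)⁻¹ • φ, ?_, ?_⟩
  · have : φ a = 0 := by
      have := h2 (Submodule.mem_span_singleton_self a)
      simpa using this
    simp [this]
  · simp [hφ]

private theorem NC_conj {F V : Type} [Field F] [AddCommGroup V] [Module F V]
    (M : Subgroup (V ≃ₗ[F] V))
    (hM : ∀ g : V ≃ₗ[F] V, LinearMap.det g.toLinearMap = 1 → ∀ x ∈ M, g * x * g⁻¹ ∈ M)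
    {a : V} {f : Module.Dual F V} (h : TP M a f) (g : V ≃ₗ[F] V)
    (hg : LinearMap.det g.toLinearMap = 1) : TP M (g a) (f ∘ₗ g.symm.toLinearMap) := by
  refine ⟨by simp [h.1], ?_⟩
  intro c k hk
  have hc : (c • f) a = 0 := by simp [h.1]
  have h0 : LinearEquiv.transvection hc ∈ M := h.2 c _ (fun x => by
    simp [LinearMap.transvection.apply])
  have h1 := hM g hg _ h0
  have h2 : k = g * LinearEquiv.transvection hc * g⁻¹ := by
    ext x
    have : (g * LinearEquiv.transvection hc * g⁻¹) x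
        = g (LinearEquiv.transvection hc (g.symm x)) := rfl
    rw [hk, this]
    simp [LinearMap.transvection.apply]
  rw [h2]; exact h1

private theorem NC_smulr {F V : Type} [Field F] [AddCommGroup V] [Module F V]
    {M : Subgroup (V ≃ₗ[F] V)} {a : V} {f : Module.Dual F V} (h : TP M a f) (s : F) :
    TP M a (s • f) := by
  refine ⟨by simp [h.1], ?_⟩
  intro c g hg
  refine h.2 (c * s) g (fun x => ?_)
  rw [hg]; simp [mul_assoc]

private theorem NC_smull {F V : Type} [Field F] [AddCommGroup V] [Module F V]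
    {M : Subgroup (V ≃ₗ[F] V)} {a : V} {f : Module.Dual F V} (h : TP M a f) (s : F) :
    TP M (s • a) f := by
  refine ⟨by simp [h.1], ?_⟩
  intro c g hg
  refine h.2 (c * s) g (fun x => ?_)
  rw [hg, smul_smul]; congr 2; ring

private theorem NC_moveF {F V : Type} [Field F]
    [AddCommGroup V] [Module F V] [FiniteDimensional F V] (M : Subgroup (V ≃ₗ[F] V))
    (hM : ∀ g : V ≃ₗ[F] V, LinearMap.det g.toLinearMap = 1 → ∀ x ∈ M, g * x * g⁻¹ ∈ M)
    (a : V) (f : Module.Dual F V) (hf : f ≠ 0) (h : TP M a f)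
    (f' : Module.Dual F V) (hfa' : f' a = 0) :
    TP M a f' := by
  obtain ⟨w1, hw1⟩ : ∃ w1, f w1 = 1 := by
    obtain ⟨x, hx⟩ : ∃ x, f x ≠ 0 := by
      by_contra hcon; push Not at hcon
      exact hf (LinearMap.ext (by simpa using hcon))
    exact ⟨(f x)⁻¹ • x, by simp [hx]⟩
  by_cases hc : f' = (f' w1) • f
  · rw [hc]; exact NC_smulr h _
  · obtain ⟨x, hx⟩ : ∃ x, f' x ≠ f' w1 * f x := by
      by_contra hcon; push Not at hcon
      exact hc (LinearMap.ext (by intro x; simpa using hcon x))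
    set w2 := x - f x • w1 with hw2
    have h1 : f w2 = 0 := by simp [hw2, hw1]
    have h2 : f' w2 ≠ 0 := by
      simp only [hw2, map_sub, map_smul, smul_eq_mul]
      intro h0; apply hx; rw [sub_eq_zero] at h0; rw [h0]; ring
    set w := w1 + ((1 - f' w1) / f' w2) • w2 with hw
    have h3 : f w = 1 := by simp [hw, hw1, h1]
    have h4 : f' w = 1 := by
      simp only [hw, map_add, map_smul, smul_eq_mul]
      field_simp; ring
    have h5 : (f - f') w = 0 := by simp [h3, h4]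
    have h6 := NC_conj M hM h (LinearEquiv.transvection h5)
      (by rw [LinearEquiv.transvection.coe_toLinearMap, LinearMap.transvection.det, h5, add_zero])
    have h7 : LinearEquiv.transvection h5 a = a := by
      simp [LinearMap.transvection.apply, h.1, hfa']
    have h8 : f ∘ₗ (LinearEquiv.transvection h5).symm.toLinearMap = f' := by
      ext x
      have : (LinearEquiv.transvection h5).symm x = x + (f - f') x • (-w) := rfl
      simp only [LinearMap.comp_apply, LinearEquiv.coe_coe]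
      rw [this]
      simp [h3]
    rw [h7, h8] at h6
    exact h6

private theorem NC_mem_ker {F V : Type} [Field F] {p : ℕ} [hp : Fact p.Prime] [CharP F p]
    [AddCommGroup V] [Module F V] (u : V ≃ₗ[F] V) (hu : orderOf u = p) :
    ∃ a : V, a ≠ 0 ∧ u a = a := by
  have hne : Nontrivial V := by
    by_contra hcon
    rw [not_nontrivial_iff_subsingleton] at hcon
    have : u = 1 := by ext x; exact Subsingleton.elim _ _
    rw [this, orderOf_one] at hu
    exact hp.out.one_lt.ne hu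
  by_contra hcon
  push Not at hcon
  have hinj : Function.Injective (u.toLinearMap - 1 : Module.End F V) := by
    rw [← LinearMap.ker_eq_bot, LinearMap.ker_eq_bot']
    intro x hx
    by_contra hx0
    apply hcon x hx0
    have : u x - x = 0 := by simpa using hx
    exact sub_eq_zero.mp this
  haveI : CharP (Module.End F V) p := charP_of_injective_algebraMap
    (FaithfulSMul.algebraMap_injective F (Module.End F V)) p
  have h1 : (u.toLinearMap - 1 : Module.End F V) ^ p = u.toLinearMap ^ p - 1 ^ p :=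
    sub_pow_char_of_commute _ (Commute.one_right _)
  have h2 : (u.toLinearMap : Module.End F V) ^ p = 1 := by
    have h3 : u ^ p = 1 := by rw [← hu]; exact pow_orderOf_eq_one u
    have h4 : ∀ n : ℕ, ((u ^ n : V ≃ₗ[F] V)).toLinearMap = (u.toLinearMap : Module.End F V) ^ n := by
      intro n
      induction n with
      | zero => rfl
      | succ n ih => rw [pow_succ, pow_succ, ← ih]; rfl
    rw [← h4, h3]; rfl
  rw [h2, one_pow, sub_self] at h1
  have h5 : Function.Injective ((u.toLinearMap - 1 : Module.End F V) ^ p) := by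
    rw [Module.End.coe_pow]
    exact hinj.iterate p
  rw [h1] at h5
  obtain ⟨x, y, hxy⟩ := exists_pair_ne V
  exact hxy (h5 (by simp))

theorem NC_transv {p : ℕ} [hp : Fact p.Prime] {F V : Type} [Field F] [CharP F p]
    [AddCommGroup V] [Module F V] [FiniteDimensional F V] (M : Subgroup (V ≃ₗ[F] V))
    (hM : ∀ g : V ≃ₗ[F] V, LinearMap.det g.toLinearMap = 1 → ∀ x ∈ M, g * x * g⁻¹ ∈ M)
    (u : V ≃ₗ[F] V) (hu : orderOf u = p) (huM : u ∈ M) :
    ∃ (a : V) (f : Module.Dual F V) (g : V ≃ₗ[F] V), a ≠ 0 ∧ f ≠ 0 ∧ f a = 0 ∧ g ∈ M ∧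
      ∀ x, g x = x + f x • a := by
  obtain ⟨a, ha, hua⟩ := NC_mem_ker u hu
  have hu1 : u ≠ 1 := by
    intro h; rw [h, orderOf_one] at hu; exact hp.out.one_lt.ne hu
  by_cases hr : ∀ x, u x - x ∈ Submodule.span F {a}
  · obtain ⟨φ, hφ⟩ := NC_dual1 (F := F) ha
    refine ⟨a, φ ∘ₗ (u.toLinearMap - LinearMap.id), u, ha, ?_, ?_, huM, ?_⟩
    · intro h0
      apply hu1
      ext x
      obtain ⟨c, hc⟩ := Submodule.mem_span_singleton.mp (hr x)
      have h1 := LinearMap.congr_fun h0 x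
      simp only [LinearMap.comp_apply, LinearMap.sub_apply, LinearEquiv.coe_coe,
        LinearMap.id_coe, id_eq, LinearMap.zero_apply] at h1
      rw [← hc] at h1
      simp only [map_smul, hφ, smul_eq_mul, mul_one] at h1
      rw [h1, zero_smul] at hc
      exact (sub_eq_zero.mp hc.symm)
    · simp [hua]
    · intro x
      obtain ⟨c, hc⟩ := Submodule.mem_span_singleton.mp (hr x)
      simp only [LinearMap.comp_apply, LinearMap.sub_apply, LinearEquiv.coe_coe,
        LinearMap.id_coe, id_eq]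
      rw [← hc]
      simp only [map_smul, hφ, smul_eq_mul, mul_one]
      rw [hc]; abel
  · push Not at hr
    obtain ⟨b, hb⟩ := hr
    obtain ⟨f, hfa, hfb⟩ := NC_dual2 hb
    have ht : LinearMap.det (LinearEquiv.transvection hfa).toLinearMap = 1 := by
      rw [LinearEquiv.transvection.coe_toLinearMap, LinearMap.transvection.det, hfa, add_zero]
    have h1 : u * (LinearEquiv.transvection hfa * u⁻¹ * (LinearEquiv.transvection hfa)⁻¹) ∈ M :=
      M.mul_mem huM (hM _ ht _ (M.inv_mem huM))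
    have hua' : u.symm a = a := by
      conv_lhs => rw [← hua]
      simp
    refine ⟨a, f ∘ₗ u.symm.toLinearMap - f, _, ha, ?_, ?_, h1, ?_⟩
    · intro h0
      have h2 := LinearMap.congr_fun h0 (u b)
      simp only [LinearMap.sub_apply, LinearMap.comp_apply, LinearEquiv.coe_coe,
        LinearEquiv.symm_apply_apply, LinearMap.zero_apply] at h2
      rw [map_sub] at hfb
      have : f (u b) - f b = 0 := by rw [← neg_sub, h2, neg_zero]
      rw [this] at hfb
      exact zero_ne_one hfb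
    · simp [hua']
    · intro x
      have h3 : (u * (LinearEquiv.transvection hfa * u⁻¹ * (LinearEquiv.transvection hfa)⁻¹)) x
          = u (LinearEquiv.transvection hfa (u.symm ((LinearEquiv.transvection hfa).symm x))) := rfl
      have h4 : (LinearEquiv.transvection hfa).symm x = x + f x • (-a) := rfl
      rw [h3, h4]
      simp only [LinearEquiv.transvection.apply, map_add, map_smul, map_neg, hua', hua, hfa,
        LinearEquiv.apply_symm_apply, smul_neg, LinearMap.sub_apply, LinearMap.comp_apply,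
        LinearEquiv.coe_coe, sub_smul]
      simp
      abel

theorem NC_pairs {F V : Type} [Field F] [Finite F]
    [AddCommGroup V] [Module F V] [FiniteDimensional F V] (M : Subgroup (V ≃ₗ[F] V))
    (hM : ∀ g : V ≃ₗ[F] V, LinearMap.det g.toLinearMap = 1 → ∀ x ∈ M, g * x * g⁻¹ ∈ M)
    (a : V) (f : Module.Dual F V) (ha : a ≠ 0) (hf : f ≠ 0) (hfa : f a = 0) (g : V ≃ₗ[F] V)
    (hg : g ∈ M) (hgx : ∀ x, g x = x + f x • a) : TP M a f := by
  have hc : ∀ c : F, f (c • a) = 0 := fun c => by simp [hfa]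
  have hmul : ∀ c d : F, LinearEquiv.transvection (hc c) * LinearEquiv.transvection (hc d)
      = LinearEquiv.transvection (hc (c + d)) := by
    intro c d
    ext x
    have h1 : (LinearEquiv.transvection (hc c) * LinearEquiv.transvection (hc d)) x
      = LinearEquiv.transvection (hc c) (LinearEquiv.transvection (hc d) x) := rfl
    rw [h1]
    simp only [LinearEquiv.transvection.apply, map_add, map_smul, hfa, smul_eq_mul, mul_zero,
      add_zero, add_smul, smul_add, zero_smul, smul_zero]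
    abel
  let C : AddSubgroup F :=
    { carrier := {c | LinearEquiv.transvection (hc c) ∈ M}
      zero_mem' := by
        have : LinearEquiv.transvection (hc 0) = 1 := by
          ext x; simp [LinearMap.transvection.apply]
        show LinearEquiv.transvection (hc 0) ∈ M
        rw [this]; exact M.one_mem
      add_mem' := by
        intro c d hc1 hd1
        show LinearEquiv.transvection (hc (c + d)) ∈ M
        rw [← hmul]; exact M.mul_mem hc1 hd1
      neg_mem' := by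
        intro c hc1
        show LinearEquiv.transvection (hc (-c)) ∈ M
        have : LinearEquiv.transvection (hc (-c)) = (LinearEquiv.transvection (hc c))⁻¹ := by
          rw [eq_inv_iff_mul_eq_one, hmul]
          ext x; simp [LinearMap.transvection.apply]
        rw [this]; exact M.inv_mem hc1 }
  have hC1 : (1 : F) ∈ C := by
    show LinearEquiv.transvection (hc 1) ∈ M
    have : LinearEquiv.transvection (hc 1) = g := by
      ext x; rw [hgx]; simp [LinearMap.transvection.apply]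
    rw [this]; exact hg
  obtain ⟨b, hb⟩ : ∃ b, f b = 1 := by
    obtain ⟨x, hx⟩ : ∃ x, f x ≠ 0 := by
      by_contra hcon; push Not at hcon
      exact hf (LinearMap.ext (by simpa using hcon))
    exact ⟨(f x)⁻¹ • x, by simp [hx]⟩
  obtain ⟨φ, hφ⟩ := NC_dual1 (F := F) ha
  set f' : Module.Dual F V := φ - (φ b) • f with hf'
  have hf'a : f' a = 1 := by simp [hf', hφ, hfa]
  have hf'b : f' b = 0 := by simp [hf', hb]
  have hsq : ∀ (s c : F), c ∈ C → s ^ 2 * c ∈ C := by
    intro s c hcC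
    by_cases hs : s = 0
    · rw [hs]; simp only [ne_eq, OfNat.ofNat_ne_zero, not_false_eq_true, zero_pow, zero_mul]
      exact C.zero_mem
    · have e1 : f' ((s - 1) • a) = s - 1 := by simp [hf'a]
      have e2 : f ((s⁻¹ - 1) • b) = s⁻¹ - 1 := by simp [hb]
      have u1 : IsUnit (1 + f' ((s - 1) • a)) := by
        rw [e1]; simpa using hs
      have u2 : IsUnit (1 + f ((s⁻¹ - 1) • b)) := by
        rw [e2]; simpa using hs
      set k := LinearEquiv.dilatransvection u1 * LinearEquiv.dilatransvection u2 with hk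
      have hkx : ∀ x, k x = x + f x • ((s⁻¹ - 1) • b) + f' x • ((s - 1) • a) := by
        intro x
        have : k x = LinearEquiv.dilatransvection u1 (LinearEquiv.dilatransvection u2 x) := rfl
        rw [this]
        simp only [LinearEquiv.dilatransvection.apply, map_add, map_smul, hf'b, smul_eq_mul,
          mul_zero, add_zero, zero_smul, smul_zero]
        abel
      have hdet : LinearMap.det k.toLinearMap = 1 := by
        have : k.toLinearMap = (LinearEquiv.dilatransvection u1).toLinearMap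
          ∘ₗ (LinearEquiv.dilatransvection u2).toLinearMap := rfl
        rw [this, LinearMap.det_comp, LinearEquiv.dilatransvection.coe_toLinearMap,
          LinearEquiv.dilatransvection.coe_toLinearMap, LinearMap.transvection.det,
          LinearMap.transvection.det, e1, e2]
        field_simp
        ring
      have hka : k a = s • a := by
        rw [hkx, hfa, hf'a]; simp [sub_smul]
      have hfk : ∀ x, f (k x) = s⁻¹ * f x := by
        intro x
        rw [hkx]; simp only [map_add, map_smul, smul_eq_mul, hb, hfa]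
        ring
      have hfk' : ∀ x, f (k.symm x) = s * f x := by
        intro x
        have := hfk (k.symm x)
        rw [LinearEquiv.apply_symm_apply] at this
        rw [this, ← mul_assoc, mul_inv_cancel₀ hs, one_mul]
      have h1 := hM k hdet _ hcC
      show LinearEquiv.transvection (hc (s ^ 2 * c)) ∈ M
      have h2 : LinearEquiv.transvection (hc (s ^ 2 * c)) =
          k * LinearEquiv.transvection (hc c) * k⁻¹ := by
        ext x
        have h3 : (k * LinearEquiv.transvection (hc c) * k⁻¹) x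
          = k (LinearEquiv.transvection (hc c) (k.symm x)) := rfl
        rw [h3]
        simp only [LinearEquiv.transvection.apply, map_add, map_smul, hka, hfk',
          LinearEquiv.apply_symm_apply, smul_smul]
        congr 2; ring
      rw [h2]; exact h1
  have htop := SQ C hsq 1 hC1 one_ne_zero
  refine ⟨hfa, ?_⟩
  intro c k hk
  have h1 : c ∈ C := by rw [htop]; trivial
  have h2 : LinearEquiv.transvection (hc c) ∈ M := h1
  have h3 : k = LinearEquiv.transvection (hc c) := by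
    ext x
    rw [hk, LinearEquiv.transvection.apply, smul_smul, mul_comm]
  rw [h3]; exact h2

theorem NC_trans {F V : Type} [Field F]
    [AddCommGroup V] [Module F V] [FiniteDimensional F V] (M : Subgroup (V ≃ₗ[F] V))
    (hM : ∀ g : V ≃ₗ[F] V, LinearMap.det g.toLinearMap = 1 → ∀ x ∈ M, g * x * g⁻¹ ∈ M)
    (a : V) (f : Module.Dual F V) (ha : a ≠ 0) (hf : f ≠ 0) (h : TP M a f)
    (a' : V) (f' : Module.Dual F V) (ha' : a' ≠ 0) (hf' : f' ≠ 0) (hfa' : f' a' = 0) :
    TP M a' f' := by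
  obtain ⟨f1, hf1, h1⟩ : ∃ f1 : Module.Dual F V, f1 ≠ 0 ∧ TP M a' f1 := by
    by_cases hm : a' ∈ Submodule.span F {a}
    · obtain ⟨c, hc⟩ := Submodule.mem_span_singleton.mp hm
      exact ⟨f, hf, by rw [← hc]; exact NC_smull h c⟩
    · obtain ⟨φ1, h1⟩ := NC_dual1 (F := F) ha
      obtain ⟨φ2, h2, h3⟩ := NC_dual2 hm
      set φ := φ1 + (1 - φ1 a') • φ2 with hφ
      have h4 : φ a = 1 := by simp [hφ, h1, h2]
      have h5 : φ a' = 1 := by simp [hφ, h3]
      have h6 : φ (a' - a) = 0 := by rw [map_sub, h4, h5, sub_self]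
      have h7 := NC_conj M hM h (LinearEquiv.transvection h6)
        (by rw [LinearEquiv.transvection.coe_toLinearMap, LinearMap.transvection.det, h6, add_zero])
      have h8 : LinearEquiv.transvection h6 a = a' := by
        rw [LinearEquiv.transvection.apply, h4, one_smul]; abel
      rw [h8] at h7
      refine ⟨_, ?_, h7⟩
      intro h0
      apply hf
      ext x
      have h9 := LinearMap.congr_fun h0 (LinearEquiv.transvection h6 x)
      simp only [LinearMap.comp_apply, LinearEquiv.coe_coe, LinearEquiv.symm_apply_apply,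
        LinearMap.zero_apply] at h9
      rw [h9, LinearMap.zero_apply]
  exact NC_moveF M hM a' f1 hf1 h1 f' hfa'

theorem NC {p : ℕ} [hp : Fact p.Prime] {F V : Type} [Field F] [Finite F] [CharP F p]
    [AddCommGroup V] [Module F V] [FiniteDimensional F V] (M : Subgroup (V ≃ₗ[F] V))
    (hM : ∀ g : V ≃ₗ[F] V, LinearMap.det g.toLinearMap = 1 → ∀ x ∈ M, g * x * g⁻¹ ∈ M)
    (u : V ≃ₗ[F] V) (hu : orderOf u = p) (huM : u ∈ M) (g : V ≃ₗ[F] V)
    (hg : LinearMap.det g.toLinearMap = 1) : g ∈ M := by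
  obtain ⟨a, f, k, ha, hf, hfa, hk, hkx⟩ := NC_transv M hM u hu huM
  have h1 := NC_pairs M hM a f ha hf hfa k hk hkx
  refine TP_gen (Module.finBasis F V) M (fun i j hij => ?_) g hg
  refine NC_trans M hM a f ha hf h1 _ _ ((Module.finBasis F V).ne_zero i) ?_ ?_
  · intro h0
    have h2 := LinearMap.congr_fun h0 ((Module.finBasis F V) j)
    simp at h2
  · simp [Finsupp.single_apply, hij]

end

end Pool.Agent.MP_1c8e06_ag.AL
end

section

set_option autoImplicit false

open Polynomial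
open scoped Classical

namespace Pool.Agent.MP_1c8e06_ag.AJ

noncomputable section

/-!
# Task Gb3: conjugates under commuting families, all primes

* `comm_swap`: let `g = i u₀`-like element of order `p`, `a` of order prime to `p` commuting with its `⟨g⟩`-conjugates
  `a_j := g^j a g^(-j)` (they all commute with each other: conjugate the hypothesis).  Let `d := orderOf a`, `m` with
  `m * p ≡ 1 (mod d)`, `c := (∏_{j<p} a_j)^m` (commutes with `g`), `b := a * c⁻¹`.  As `a = a^(m p)`,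
  `b = ∏_{j<p} (a * a_j⁻¹)^m` and `a * a_j⁻¹ = (a g^j a⁻¹) g^(-j) = (a g a⁻¹)^j (g^j)⁻¹ ∈ H`.  So `b ∈ H`, `b g b⁻¹ = a g a⁻¹`
  (`c` commutes with `g`), `b^d = 1` so its order is prime to `p`, and `b` commutes with its conjugates (all are products of
  powers of the commuting `a_j`).
* `conn_WD`: as in `AJ/X2.lean` (`two_WD`), for all `p`: `exists_iterate` and `AI.specialise`.
* `re_comm`: `g := i u₀`, `H := closure ({g} ∪ {a g a⁻¹ | a ∈ as})`.  `re_sub`: it is enough to show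
  `RE p k (i.codRestrict H _) ⊤`.  In the group `H` the element `g` and the `b` of `comm_swap` (for `a ∈ as`) satisfy the
  hypothesis of `conn_WD`: the `H`-subgroup generated by `g` and the `b g b⁻¹` is `⊤` (its image in `G` contains the
  generators of `H`; `Subgroup.closure_preimage`-type lemmas or `Subgroup.map_injective`).  `re_of_WD`.
-/

private theorem conj_pow_eq {G : Type} [Group G] (g a : G) (j : ℕ) :
    g * (g ^ j * a * (g ^ j)⁻¹) * g⁻¹ = g ^ (j + 1) * a * (g ^ (j + 1))⁻¹ := by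
  rw [pow_succ', mul_inv_rev]
  simp only [mul_assoc]

private theorem conj_comm {G : Type} [Group G] (g a : G)
    (hc : ∀ i : ℕ, Commute a (g ^ i * a * (g ^ i)⁻¹)) (i j : ℕ) :
    Commute (g ^ i * a * (g ^ i)⁻¹) (g ^ j * a * (g ^ j)⁻¹) := by
  have key : ∀ i j : ℕ, i ≤ j →
      Commute (g ^ i * a * (g ^ i)⁻¹) (g ^ j * a * (g ^ j)⁻¹) := by
    intro i j hij
    obtain ⟨k, rfl⟩ := Nat.exists_eq_add_of_le hij
    have h := hc k
    have h2 : g ^ (i + k) * a * (g ^ (i + k))⁻¹ =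
        g ^ i * (g ^ k * a * (g ^ k)⁻¹) * (g ^ i)⁻¹ := by
      rw [pow_add, mul_inv_rev]
      simp only [mul_assoc]
    rw [h2]
    have h3 : a * (g ^ k * a * (g ^ k)⁻¹) = (g ^ k * a * (g ^ k)⁻¹) * a := h
    change _ * _ = _ * _
    calc g ^ i * a * (g ^ i)⁻¹ * (g ^ i * (g ^ k * a * (g ^ k)⁻¹) * (g ^ i)⁻¹)
        = g ^ i * (a * (g ^ k * a * (g ^ k)⁻¹)) * (g ^ i)⁻¹ := by group
      _ = g ^ i * ((g ^ k * a * (g ^ k)⁻¹) * a) * (g ^ i)⁻¹ := by rw [h3]
      _ = g ^ i * (g ^ k * a * (g ^ k)⁻¹) * (g ^ i)⁻¹ * (g ^ i * a * (g ^ i)⁻¹) := by group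
  rcases le_total i j with h | h
  · exact key i j h
  · exact (key j i h).symm

private def cp {G : Type} [Group G] (g a : G) : ℕ → G
  | 0 => 1
  | n + 1 => cp g a n * (g ^ n * a * (g ^ n)⁻¹)

private theorem cp_comm {G : Type} [Group G] (g a x : G)
    (h : ∀ j : ℕ, Commute (g ^ j * a * (g ^ j)⁻¹) x) (n : ℕ) : Commute (cp g a n) x := by
  induction n with
  | zero => exact Commute.one_left x
  | succ n ih => exact ih.mul_left (h n)

private theorem cp_shift {G : Type} [Group G] (g a : G) (n : ℕ) :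
    g * cp g a n * g⁻¹ = a⁻¹ * cp g a (n + 1) := by
  induction n with
  | zero => simp [cp]
  | succ n ih =>
    have h1 : cp g a (n + 1) = cp g a n * (g ^ n * a * (g ^ n)⁻¹) := rfl
    have h2 : cp g a (n + 1 + 1) = cp g a (n + 1) * (g ^ (n + 1) * a * (g ^ (n + 1))⁻¹) := rfl
    calc g * cp g a (n + 1) * g⁻¹
        = (g * cp g a n * g⁻¹) * (g * (g ^ n * a * (g ^ n)⁻¹) * g⁻¹) := by rw [h1]; group
      _ = (a⁻¹ * cp g a (n + 1)) * (g ^ (n + 1) * a * (g ^ (n + 1))⁻¹) := by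
          rw [ih, conj_pow_eq]
      _ = a⁻¹ * cp g a (n + 1 + 1) := by rw [h2, mul_assoc]

theorem comm_swap {p : ℕ} [hp : Fact p.Prime] {G : Type} [Group G] [Finite G] (g : G)
    (hg : orderOf g = p) (H : Subgroup G) (hgH : g ∈ H) (a : G) (ha : ¬ p ∣ orderOf a)
    (hc : ∀ i : ℕ, Commute a (g ^ i * a * (g ^ i)⁻¹)) (haH : a * g * a⁻¹ ∈ H) :
    ∃ b ∈ H, ¬ p ∣ orderOf b ∧ (∀ i : ℕ, Commute b (g ^ i * b * (g ^ i)⁻¹)) ∧
      b * g * b⁻¹ = a * g * a⁻¹ := by
  have hgp : g ^ p = 1 := by rw [← hg]; exact pow_orderOf_eq_one g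
  have hca : ∀ n, Commute (cp g a n) a := fun n => cp_comm g a a (fun j => (hc j).symm) n
  have hcj : ∀ n j, Commute (cp g a n) (g ^ j * a * (g ^ j)⁻¹) := fun n j =>
    cp_comm g a _ (fun i => conj_comm g a hc i j) n
  -- `g` commutes with the product
  have hcg : Commute g (cp g a p) := by
    have h1 := cp_shift g a p
    have h2 : cp g a (p + 1) = cp g a p * a := by
      change cp g a p * (g ^ p * a * (g ^ p)⁻¹) = _
      rw [hgp, one_mul, inv_one, mul_one]
    rw [h2, (hca p).eq, inv_mul_cancel_left] at h1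
    exact mul_inv_eq_iff_eq_mul.1 h1
  -- the powers
  have hd : 0 < orderOf a := orderOf_pos a
  have hcop : Nat.Coprime p (orderOf a) := (Nat.Prime.coprime_iff_not_dvd hp.out).2 ha
  obtain ⟨m, hm⟩ : ∃ m : ℕ, a ^ (p * m) = a := by
    obtain ⟨m, hm⟩ := exists_pow_eq_self_of_coprime (n := p) (x := a) hcop
    exact ⟨m, by rw [pow_mul]; exact hm⟩
  have hcd : ∀ n, (cp g a n) ^ orderOf a = 1 := by
    intro n
    induction n with
    | zero => exact one_pow _
    | succ n ih =>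
      have h1 : cp g a (n + 1) = cp g a n * (g ^ n * a * (g ^ n)⁻¹) := rfl
      rw [h1, (hcj n n).mul_pow, ih, one_mul, conj_pow, pow_orderOf_eq_one, mul_one,
        mul_inv_cancel]
  have hmem : ∀ n, a ^ n * (cp g a n)⁻¹ ∈ H := by
    intro n
    induction n with
    | zero => simp [cp, H.one_mem]
    | succ n ih =>
      have h1 : cp g a (n + 1) = cp g a n * (g ^ n * a * (g ^ n)⁻¹) := rfl
      have h2 : a * (g ^ n * a * (g ^ n)⁻¹)⁻¹ ∈ H := by
        have h3 : a * (g ^ n * a * (g ^ n)⁻¹)⁻¹ = (a * g * a⁻¹) ^ n * (g ^ n)⁻¹ := by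
          rw [conj_pow]
          group
        rw [h3]
        exact H.mul_mem (H.pow_mem haH n) (H.inv_mem (H.pow_mem hgH n))
      have h4 : Commute (cp g a n)⁻¹ (a * (g ^ n * a * (g ^ n)⁻¹)⁻¹) :=
        (Commute.mul_right (hca n) (hcj n n).inv_right).inv_left
      have h5 : a ^ (n + 1) * (cp g a (n + 1))⁻¹ =
          (a ^ n * (cp g a n)⁻¹) * (a * (g ^ n * a * (g ^ n)⁻¹)⁻¹) := by
        rw [mul_assoc (a ^ n), h4.eq, h1, mul_inv_rev, pow_succ]
        simp only [mul_assoc]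
      rw [h5]
      exact H.mul_mem ih h2
  set c : G := (cp g a p) ^ m with hcdef
  have hac : Commute a c := ((hca p).pow_left m).symm
  have hgc : Commute g c := hcg.pow_right m
  have hb : a * c⁻¹ = (a ^ p * (cp g a p)⁻¹) ^ m := by
    rw [((hca p).symm.pow_left p).inv_right.mul_pow, ← pow_mul, hm, inv_pow]
  refine ⟨a * c⁻¹, ?_, ?_, ?_, ?_⟩
  · rw [hb]
    exact H.pow_mem (hmem p) m
  · intro hdvd
    refine ha (hdvd.trans (orderOf_dvd_of_pow_eq_one ?_))
    rw [hac.inv_right.mul_pow, pow_orderOf_eq_one, one_mul, inv_pow, hcdef, ← pow_mul, mul_comm m,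
      pow_mul, hcd, one_pow, inv_one]
  · intro i
    have h1 : g ^ i * (a * c⁻¹) * (g ^ i)⁻¹ = (g ^ i * a * (g ^ i)⁻¹) * c⁻¹ := by
      have h2 : Commute (g ^ i)⁻¹ c⁻¹ := (hgc.pow_left i).inv_inv
      calc g ^ i * (a * c⁻¹) * (g ^ i)⁻¹ = g ^ i * a * (c⁻¹ * (g ^ i)⁻¹) := by
            simp only [mul_assoc]
        _ = g ^ i * a * ((g ^ i)⁻¹ * c⁻¹) := by rw [h2.eq]
        _ = _ := by simp only [mul_assoc]
    rw [h1]
    have h3 : Commute c (g ^ i * a * (g ^ i)⁻¹) := (hcj p i).pow_left m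
    exact Commute.mul_left (Commute.mul_right (hc i) hac.inv_right)
      (Commute.mul_right h3.inv_left (Commute.refl _))
  · have h2 : c⁻¹ * g * c = g := by
      rw [mul_assoc, hgc.eq, inv_mul_cancel_left]
    calc a * c⁻¹ * g * (a * c⁻¹)⁻¹ = a * (c⁻¹ * g * c) * a⁻¹ := by group
      _ = a * g * a⁻¹ := by rw [h2]

theorem conn_WD {p : ℕ} [hp : Fact p.Prime] (k : Type) [Field k] [IsAlgClosed k] [CharP k p]
    {G : Type} [Group G] [Fintype G] (g : G) (hg : orderOf g = p)
    (hgen : Subgroup.closure ({g} ∪ {x | ∃ a : G, ¬ p ∣ orderOf a ∧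
      (∀ i : ℕ, Commute a (g ^ i * a * (g ^ i)⁻¹)) ∧ x = a * g * a⁻¹}) = ⊤) :
    ∃ F : k[X], ¬ p ∣ F.natDegree ∧ ∃ D : AI.WD p k G g F, D.Conn' ⊤ := by
  set e : ℕ := ordCompl[p] (Nat.card G) with he
  have hcard : Nat.card G ≠ 0 := Nat.card_pos.ne'
  have hpe : ¬ p ∣ e := Nat.not_dvd_ordCompl hp.out hcard
  have he0 : e ≠ 0 := (Nat.ordCompl_pos p hcard).ne'
  have hek : (e : k) ≠ 0 := by
    intro h
    exact hpe ((CharP.cast_eq_zero_iff k p e).1 h)
  have : NeZero e := ⟨he0⟩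
  have : NeZero (e : k) := ⟨hek⟩
  obtain ⟨ζ, hζ⟩ := HasEnoughRootsOfUnity.exists_primitiveRoot k e
  have hfin : {a : G | ¬ p ∣ orderOf a ∧ ∀ i : ℕ, Commute a (g ^ i * a * (g ^ i)⁻¹)}.Finite :=
    Set.toFinite _
  obtain ⟨κ, iF, iC, iA, h, hh, D, hD⟩ := AI.exists_iterate k hpe ζ hζ g hg hfin.toFinset.toList
    (by
      intro a ha
      rw [Finset.mem_toList, Set.Finite.mem_toFinset] at ha
      refine ⟨?_, ha.2⟩
      have h1 : orderOf a ∣ Nat.card G := orderOf_dvd_natCard a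
      have h2 : Nat.Coprime (orderOf a) (p ^ (Nat.card G).factorization p) :=
        ((Nat.Prime.coprime_iff_not_dvd hp.out).2 ha.1).symm.pow_right _
      have h3 : orderOf a ∣ p ^ (Nat.card G).factorization p * e := by
        rw [he, Nat.ordProj_mul_ordCompl_eq_self]
        exact h1
      exact orderOf_dvd_iff_pow_eq_one.1 (h2.dvd_of_dvd_mul_left h3))
  have htop : Subgroup.closure ({g} ∪ {x | ∃ a ∈ hfin.toFinset.toList, x = a * g * a⁻¹}) = ⊤ := by
    rw [eq_top_iff, ← hgen]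
    refine Subgroup.closure_mono ?_
    rintro x (hx | ⟨a, ha1, ha2, rfl⟩)
    · exact Or.inl hx
    · refine Or.inr ⟨a, ?_, rfl⟩
      rw [Finset.mem_toList, Set.Finite.mem_toFinset]
      exact ⟨ha1, ha2⟩
  rw [htop] at hD
  have hF : ¬ p ∣ (h ^ e).natDegree := by
    rw [natDegree_pow]
    intro hd
    rcases hp.out.dvd_mul.1 hd with h1 | h1
    · exact hpe h1
    · exact hh h1
  obtain ⟨F', hF', D', hD'⟩ := AI.specialise k D hF hD
  exact ⟨F', by rw [hF']; exact hF, D', hD'⟩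

theorem re_comm {p : ℕ} [hp : Fact p.Prime] {k : Type} [Field k] [IsAlgClosed k] [CharP k p]
    {P G : Type} [Group P] [Fintype P] [Group G] [Fintype G] (u₀ : P) (hu : orderOf u₀ = p)
    (hgen : ∀ u : P, ∃ n : ℕ, u = u₀ ^ n) (i : P →* G) (hi : Function.Injective i) (as : Set G)
    (has : ∀ a ∈ as, ¬ p ∣ orderOf a ∧
      ∀ j : ℕ, Commute a (i u₀ ^ j * a * (i u₀ ^ j)⁻¹)) :
    RE p k i (Subgroup.closure ({i u₀} ∪ {x | ∃ a ∈ as, x = a * i u₀ * a⁻¹})) := by
  set H : Subgroup G := Subgroup.closure ({i u₀} ∪ {x | ∃ a ∈ as, x = a * i u₀ * a⁻¹}) with hHdef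
  have hg : orderOf (i u₀) = p := by rw [orderOf_injective i hi, hu]
  have hgH : i u₀ ∈ H := Subgroup.subset_closure (Or.inl rfl)
  have hH : ∀ u, i u ∈ H := by
    intro u
    obtain ⟨n, rfl⟩ := hgen u
    rw [map_pow]
    exact H.pow_mem hgH n
  refine re_sub i H hH ?_
  have hg' : orderOf (⟨i u₀, hgH⟩ : H) = p := by
    rw [← Subgroup.orderOf_coe]
    exact hg
  have htop : Subgroup.closure ({(⟨i u₀, hgH⟩ : H)} ∪ {x | ∃ a : H, ¬ p ∣ orderOf a ∧
      (∀ j : ℕ, Commute a ((⟨i u₀, hgH⟩ : H) ^ j * a * ((⟨i u₀, hgH⟩ : H) ^ j)⁻¹)) ∧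
        x = a * (⟨i u₀, hgH⟩ : H) * a⁻¹}) = ⊤ := by
    set K : Subgroup H := Subgroup.closure ({(⟨i u₀, hgH⟩ : H)} ∪ {x | ∃ a : H, ¬ p ∣ orderOf a ∧
      (∀ j : ℕ, Commute a ((⟨i u₀, hgH⟩ : H) ^ j * a * ((⟨i u₀, hgH⟩ : H) ^ j)⁻¹)) ∧
        x = a * (⟨i u₀, hgH⟩ : H) * a⁻¹}) with hK
    have h1 : H ≤ K.map H.subtype := by
      refine (Subgroup.closure_le (K.map H.subtype)).2 ?_
      rintro x (hx | ⟨a, haas, rfl⟩)
      · rw [Set.mem_singleton_iff] at hx
        subst hx
        exact ⟨⟨i u₀, hgH⟩, Subgroup.subset_closure (Or.inl rfl), rfl⟩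
      · obtain ⟨b, hbH, hb1, hb2, hb3⟩ := comm_swap (i u₀) hg H hgH a (has a haas).1
          (has a haas).2 (Subgroup.subset_closure (Or.inr ⟨a, haas, rfl⟩))
        refine ⟨⟨b, hbH⟩ * ⟨i u₀, hgH⟩ * (⟨b, hbH⟩ : H)⁻¹, ?_, hb3⟩
        refine Subgroup.subset_closure (Or.inr ⟨⟨b, hbH⟩, ?_, ?_, rfl⟩)
        · rw [← Subgroup.orderOf_coe]
          exact hb1
        · intro j
          exact Subtype.ext (hb2 j)
    rw [Subgroup.eq_top_iff']
    intro x
    obtain ⟨y, hy, hyx⟩ := h1 x.2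
    have h3 : y = x := Subtype.ext hyx
    rw [← h3]
    exact hy
  obtain ⟨F, hF, D, hD⟩ := conn_WD k (⟨i u₀, hgH⟩ : H) hg' htop
  exact re_of_WD D hF ⊤ hD u₀ hu hgen (i.codRestrict H hH) rfl

end

end Pool.Agent.MP_1c8e06_ag.AJ
end

section

set_option autoImplicit false

open Polynomial Equiv
open scoped Classical

namespace Pool.Agent.MP_1c8e06_ag.AM

open Pool.Agent.MP_1c8e06_ag.AJ

noncomputable section

/-!
# Task R2: double transpositions in the largest subgroup

`σ := (i u₀ : Perm Ω)`, of order `p` (odd).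
Proof.  `a := swap x y * swap (σ x) (σ y)`, even (a product of two transpositions; `x ≠ y`, `σ x ≠ σ y`), so it is an element of
`alternatingGroup Ω`.  `a * a = 1` (the transpositions are disjoint: `x, y` are in different cycles, `σ x ≠ x`), so
`¬ p ∣ orderOf a` (`orderOf a ∣ 2`, `p ≠ 2`).  `σ^j a σ^(-j) = swap (σ^j x) (σ^j y) * swap (σ^(j+1) x) (σ^(j+1) y)`; the transpositions
`swap (σ^i x) (σ^i y)` commute pairwise (equal or disjoint).  `re_comm` (`AJ/Gb3.lean`) with `as = {a}`: `H := closure ({g} ∪ {a g a⁻¹})`,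
`g := i u₀`, satisfies `RE p k i H`, so `H ≤ M`; `a g a⁻¹ g⁻¹ ∈ M`, and its underlying permutation is
`a * (σ a⁻¹ σ⁻¹) = swap x y * swap (σ x) (σ y) * (swap (σ x) (σ y) * swap (σ² x) (σ² y)) = swap x y * swap (σ² x) (σ² y)` (up to commuting
factors).
-/

private theorem R2_free {p : ℕ} [hp : Fact p.Prime] {Ω : Type} (σ : Perm Ω) (ho : σ ^ p = 1)
    (x : Ω) (hx : σ x ≠ x) (n : ℕ) (h : (σ ^ n) x = x) : σ ^ n = 1 := by
  have h1 : Function.IsPeriodicPt (⇑σ) n x := by
    unfold Function.IsPeriodicPt Function.IsFixedPt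
    rw [Equiv.Perm.iterate_eq_pow]
    exact h
  have h2 : Function.IsPeriodicPt (⇑σ) p x := by
    unfold Function.IsPeriodicPt Function.IsFixedPt
    rw [Equiv.Perm.iterate_eq_pow, ho]
    rfl
  have h3 := h1.minimalPeriod_dvd
  have h4 := h2.minimalPeriod_dvd
  rcases (Nat.dvd_prime hp.out).1 h4 with h5 | h5
  · exact absurd (Function.minimalPeriod_eq_one_iff_isFixedPt.1 h5) hx
  · rw [h5] at h3
    obtain ⟨m, rfl⟩ := h3
    rw [pow_mul, ho, one_pow]

private theorem R2_inj {p : ℕ} [hp : Fact p.Prime] {Ω : Type} (σ : Perm Ω) (ho : σ ^ p = 1)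
    (x : Ω) (hx : σ x ≠ x) (i j : ℕ) (h : (σ ^ i) x = (σ ^ j) x) : σ ^ i = σ ^ j := by
  rcases le_total i j with hij | hij
  · obtain ⟨d, rfl⟩ := Nat.exists_eq_add_of_le hij
    rw [pow_add, Equiv.Perm.mul_apply] at h
    have h1 : (σ ^ d) x = x := ((σ ^ i).injective h).symm
    rw [pow_add, R2_free (p := p) σ ho x hx d h1, mul_one]
  · obtain ⟨d, rfl⟩ := Nat.exists_eq_add_of_le hij
    rw [pow_add, Equiv.Perm.mul_apply] at h
    have h1 : (σ ^ d) x = x := (σ ^ j).injective h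
    rw [pow_add, R2_free (p := p) σ ho x hx d h1, mul_one]

private theorem R2_comm {p : ℕ} [hp : Fact p.Prime] {Ω : Type} [DecidableEq Ω] (σ : Perm Ω)
    (ho : σ ^ p = 1) (x y : Ω) (hx : σ x ≠ x) (hy : σ y ≠ y) (hxy : ¬ σ.SameCycle x y)
    (i j : ℕ) :
    Commute (swap ((σ ^ i) x) ((σ ^ i) y)) (swap ((σ ^ j) x) ((σ ^ j) y)) := by
  by_cases h1 : (σ ^ i) x = (σ ^ j) x
  · rw [R2_inj (p := p) σ ho x hx i j h1]
  by_cases h2 : (σ ^ i) y = (σ ^ j) y
  · rw [R2_inj (p := p) σ ho y hy i j h2]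
  have hne : x ≠ y := fun h => hxy (h ▸ Equiv.Perm.SameCycle.refl σ x)
  have h3 : (σ ^ i) x ≠ (σ ^ i) y := fun h => hne ((σ ^ i).injective h)
  have h4 : (σ ^ j) x ≠ (σ ^ j) y := fun h => hne ((σ ^ j).injective h)
  have h5 : ∀ m n : ℕ, (σ ^ m) x ≠ (σ ^ n) y := by
    intro m n h
    apply hxy
    have : σ.SameCycle ((σ ^ m) x) ((σ ^ n) y) := by
      rw [h]
    exact Equiv.Perm.sameCycle_pow_left.1 (Equiv.Perm.sameCycle_pow_right.1 this)
  have h6 := h5 i j
  have h7 := h5 j i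
  apply Equiv.Perm.Disjoint.commute
  apply Equiv.Perm.disjoint_swap_swap
  simp only [List.nodup_cons, List.mem_cons, List.not_mem_nil, or_false, not_or, List.nodup_nil,
    and_true, not_false_eq_true]
  exact ⟨⟨h3, h1, h6⟩, ⟨fun h => h7 h.symm, h2⟩, h4⟩

theorem U_mem {p : ℕ} [hp : Fact p.Prime] (hp2 : p ≠ 2) {k : Type} [Field k] [IsAlgClosed k]
    [CharP k p] {Ω : Type} [Fintype Ω] [DecidableEq Ω] {P : Type} [Group P] [Fintype P] (u₀ : P)
    (hu : orderOf u₀ = p) (hgen : ∀ u : P, ∃ n : ℕ, u = u₀ ^ n) (i : P →* alternatingGroup Ω)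
    (hi : Function.Injective i) (M : Subgroup (alternatingGroup Ω))
    (hM : ∀ H, RE p k i H → H ≤ M) (σ : Perm Ω) (hσ : σ = (i u₀ : Perm Ω)) (x y : Ω)
    (hx : σ x ≠ x) (hy : σ y ≠ y) (hxy : ¬ σ.SameCycle x y) :
    swap x y * swap (σ (σ x)) (σ (σ y)) ∈ M.map (alternatingGroup Ω).subtype := by
  have ho : σ ^ p = 1 := by
    have h1 : (i u₀) ^ p = 1 := by rw [← map_pow, ← hu, pow_orderOf_eq_one, map_one]
    rw [hσ]
    have h2 := congrArg (fun z : alternatingGroup Ω => (z : Perm Ω)) h1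
    simpa using h2
  have hne : x ≠ y := fun h => hxy (h ▸ Equiv.Perm.SameCycle.refl σ x)
  have hc := R2_comm (p := p) σ ho x y hx hy hxy
  have h01 : Commute (swap x y) (swap (σ x) (σ y)) := by
    have := hc 0 1
    simpa using this
  have h12 : Commute (swap (σ x) (σ y)) (swap (σ (σ x)) (σ (σ y))) := by
    have := hc 1 2
    simpa [pow_two] using this
  have hTj : ∀ j : ℕ, Commute (swap x y) (swap ((σ ^ j) x) ((σ ^ j) y)) := by
    intro j
    have := hc 0 j
    simpa using this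
  have hTj1 : ∀ j : ℕ, Commute (swap (σ x) (σ y)) (swap ((σ ^ j) x) ((σ ^ j) y)) := by
    intro j
    have := hc 1 j
    simpa using this
  have hmem : swap x y * swap (σ x) (σ y) ∈ alternatingGroup Ω := by
    rw [Equiv.Perm.mem_alternatingGroup, Equiv.Perm.sign_mul, Equiv.Perm.sign_swap hne,
      Equiv.Perm.sign_swap (fun h => hne (σ.injective h))]
    rfl
  have hA2 : (swap x y * swap (σ x) (σ y)) * (swap x y * swap (σ x) (σ y)) = 1 := by
    rw [mul_assoc, ← mul_assoc (swap (σ x) (σ y)) (swap x y), ← h01.eq, mul_assoc (swap x y),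
      Equiv.swap_mul_self, mul_one, Equiv.swap_mul_self]
  set A : alternatingGroup Ω := ⟨swap x y * swap (σ x) (σ y), hmem⟩ with hA
  have hAA : A * A = 1 := Subtype.ext hA2
  have hpA : ¬ p ∣ orderOf A := by
    intro hd
    have h2 : orderOf A ∣ 2 := orderOf_dvd_of_pow_eq_one (by rw [pow_two]; exact hAA)
    have h3 : p ∣ 2 := hd.trans h2
    exact hp2 ((Nat.prime_dvd_prime_iff_eq hp.out Nat.prime_two).1 h3)
  have hcomm : ∀ j : ℕ, Commute A (i u₀ ^ j * A * (i u₀ ^ j)⁻¹) := by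
    intro j
    have key : ((i u₀ ^ j * A * (i u₀ ^ j)⁻¹ : alternatingGroup Ω) : Perm Ω) =
        swap ((σ ^ j) x) ((σ ^ j) y) * swap ((σ ^ (j + 1)) x) ((σ ^ (j + 1)) y) := by
      have e : ((i u₀ ^ j * A * (i u₀ ^ j)⁻¹ : alternatingGroup Ω) : Perm Ω) =
          σ ^ j * (swap x y * swap (σ x) (σ y)) * (σ ^ j)⁻¹ := by
        rw [Subgroup.coe_mul, Subgroup.coe_mul, Subgroup.coe_inv, Subgroup.coe_pow, ← hσ]
      rw [e, Equiv.swap_apply_apply (σ ^ j) x y, pow_succ, Equiv.Perm.mul_apply,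
        Equiv.Perm.mul_apply, Equiv.swap_apply_apply (σ ^ j) (σ x) (σ y)]
      group
    have c1 : Commute (swap x y * swap (σ x) (σ y))
        (swap ((σ ^ j) x) ((σ ^ j) y) * swap ((σ ^ (j + 1)) x) ((σ ^ (j + 1)) y)) :=
      ((hTj j).mul_left (hTj1 j)).mul_right ((hTj (j + 1)).mul_left (hTj1 (j + 1)))
    apply Subtype.ext
    have c2 := c1.eq
    rw [← key] at c2
    exact c2
  have hRE := re_comm (p := p) (k := k) u₀ hu hgen i hi {A} (by
    intro a ha
    rw [Set.mem_singleton_iff] at ha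
    rw [ha]
    exact ⟨hpA, hcomm⟩)
  have hle := hM _ hRE
  have hg : i u₀ ∈ M := hle (Subgroup.subset_closure (Or.inl rfl))
  have hag : A * i u₀ * A⁻¹ ∈ M :=
    hle (Subgroup.subset_closure (Or.inr ⟨A, rfl, rfl⟩))
  have hfin : A * i u₀ * A⁻¹ * (i u₀)⁻¹ ∈ M := M.mul_mem hag (M.inv_mem hg)
  refine ⟨_, hfin, ?_⟩
  have e1 : (alternatingGroup Ω).subtype (A * i u₀ * A⁻¹ * (i u₀)⁻¹) =
      (swap x y * swap (σ x) (σ y)) * σ * (swap x y * swap (σ x) (σ y))⁻¹ * σ⁻¹ := by
    rw [Subgroup.subtype_apply, Subgroup.coe_mul, Subgroup.coe_mul, Subgroup.coe_mul,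
      Subgroup.coe_inv, Subgroup.coe_inv, ← hσ]
  rw [e1, mul_inv_rev, Equiv.swap_inv, Equiv.swap_inv]
  have e2 : swap (σ x) (σ y) = σ * swap x y * σ⁻¹ := Equiv.swap_apply_apply σ x y
  have e3 : swap (σ (σ x)) (σ (σ y)) = σ * swap (σ x) (σ y) * σ⁻¹ :=
    Equiv.swap_apply_apply σ (σ x) (σ y)
  calc swap x y * swap (σ x) (σ y) * σ * (swap (σ x) (σ y) * swap x y) * σ⁻¹
      = swap x y * (swap (σ x) (σ y) * ((σ * swap (σ x) (σ y) * σ⁻¹) *
          (σ * swap x y * σ⁻¹))) := by group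
    _ = swap x y * (swap (σ x) (σ y) * (swap (σ (σ x)) (σ (σ y)) * swap (σ x) (σ y))) := by
        rw [← e3, ← e2]
    _ = swap x y * swap (σ (σ x)) (σ (σ y)) := by
        rw [← h12.eq, ← mul_assoc (swap (σ x) (σ y)), Equiv.swap_mul_self, one_mul]

end

end Pool.Agent.MP_1c8e06_ag.AM
end

section

set_option autoImplicit false

open Polynomial Equiv
open scoped Classical

namespace Pool.Agent.MP_1c8e06_ag.AM

open Pool.Agent.MP_1c8e06_ag.AJ

noncomputable section

/-!
# Task R4: the permutation `t ↦ -1/t`, for `p = 3`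

Proof.  `w := swap y x₀ * swap (σ y) (σ (σ y))`: it maps `y ↔ x₀`, `σ y ↔ σ² y` (`t = 1 ↦ -1 = 2`, `t = 2 ↦ -1/2 = 1` in `ZMod 3`; check the two
values of `t` by cases) and fixes everything else.  It remains to show `w ∈ M`.
`a := swap y x₀ * swap (σ y) (σ² y)` is even, `a * a = 1`, and its conjugates `σ a σ⁻¹ = swap (σ y) x₀ * swap (σ² y) y`,
`σ² a σ⁻² = swap (σ² y) x₀ * swap y (σ y)` commute with it (Klein four group on `y, σ y, σ² y, x₀`).  `re_comm` with `as = {a}` as in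
`AM/R2.lean`: `a g a⁻¹ g⁻¹ ∈ M`, `= a * σ a⁻¹ σ⁻¹ =` the third element `b := swap (σ² y) x₀ * swap y (σ y)` of the Klein group.  Then
`σ b σ⁻¹ = swap y x₀ * swap (σ y) (σ² y) = w ∈ M` (`σ³ = 1`; `g ∈ M`, as `g ∈ H ≤ M`).
-/

private theorem R4_klein {Ω : Type} [DecidableEq Ω] (A B C D : Ω) (hAB : A ≠ B) (hAC : A ≠ C)
    (hAD : A ≠ D) (hBC : B ≠ C) (hBD : B ≠ D) (hCD : C ≠ D) :
    (swap A D * swap B C) * (swap B D * swap C A) = swap C D * swap A B := by
  ext z
  simp only [Perm.mul_apply, swap_apply_def]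
  split_ifs <;> simp_all

private theorem R4_sq {Ω : Type} [DecidableEq Ω] (A B C D : Ω) (hAB : A ≠ B) (hAC : A ≠ C)
    (hBD : B ≠ D) (hCD : C ≠ D) :
    (swap A D * swap B C) * (swap A D * swap B C) = 1 := by
  ext z
  simp only [Perm.mul_apply, swap_apply_def, Perm.one_apply]
  split_ifs <;> simp_all

private theorem R4_conj {Ω : Type} [DecidableEq Ω] (s : Perm Ω) (A B C D : Ω) :
    s * (swap A D * swap B C) * s⁻¹ = swap (s A) (s D) * swap (s B) (s C) := by
  have h1 : ∀ u v : Ω, s * swap u v * s⁻¹ = swap (s u) (s v) := by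
    intro u v
    rw [Equiv.mul_swap_eq_swap_mul, mul_assoc, mul_inv_cancel, mul_one]
  rw [← h1 A D, ← h1 B C]
  group

private theorem R4_cases : ∀ t : ZMod 3, t ≠ 0 → t = 1 ∨ t = 2 := by decide

private theorem R4_v1 : (1 : ZMod 3).val = 1 := by decide

private theorem R4_v2 : (2 : ZMod 3).val = 2 := by decide

private theorem R4_n1 : (-1 : ZMod 3) = 2 := by decide

private theorem R4_n2 : (-2 : ZMod 3) = 1 := by decide

private theorem R4_m2 : (2 : ZMod 3) * 2 = 1 := by decide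

private theorem R4_zmod [hp : Fact (Nat.Prime 3)] (t : ZMod 3) (ht : t ≠ 0) :
    (t.val = 1 ∧ (-t⁻¹ : ZMod 3).val = 2) ∨ (t.val = 2 ∧ (-t⁻¹ : ZMod 3).val = 1) := by
  rcases R4_cases t ht with rfl | rfl
  · left
    refine ⟨R4_v1, ?_⟩
    rw [inv_one, R4_n1]; exact R4_v2
  · right
    refine ⟨R4_v2, ?_⟩
    have h : (2 : ZMod 3)⁻¹ = 2 := inv_eq_of_mul_eq_one_left R4_m2
    rw [h, R4_n2]; exact R4_v1

theorem W_mem3 {k : Type} [Field k] [IsAlgClosed k] [CharP k 3] [hp : Fact (Nat.Prime 3)]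
    {Ω : Type} [Fintype Ω] [DecidableEq Ω] {P : Type} [Group P] [Fintype P] (u₀ : P)
    (hu : orderOf u₀ = 3) (hgen : ∀ u : P, ∃ n : ℕ, u = u₀ ^ n) (i : P →* alternatingGroup Ω)
    (hi : Function.Injective i) (M : Subgroup (alternatingGroup Ω))
    (hM : ∀ H, RE 3 k i H → H ≤ M) (σ : Perm Ω) (hσ : σ = (i u₀ : Perm Ω)) (y x₀ : Ω)
    (hy : σ y ≠ y) (hx : σ x₀ = x₀) :
    ∃ w ∈ M.map (alternatingGroup Ω).subtype, w y = x₀ ∧ w x₀ = y ∧
      (∀ t : ZMod 3, t ≠ 0 → w ((σ ^ t.val) y) = (σ ^ (-t⁻¹ : ZMod 3).val) y) ∧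
      ∀ z, z ≠ x₀ → ¬ σ.SameCycle y z → w z = z := by
  have hu3 : u₀ ^ 3 = 1 := by rw [← hu]; exact pow_orderOf_eq_one u₀
  have hg3 : (i u₀) ^ 3 = 1 := by rw [← map_pow, hu3, map_one]
  have hs3 : σ ^ 3 = 1 := by
    rw [hσ, ← Subgroup.coe_pow, hg3]; rfl
  have hs3' : ∀ z, σ (σ (σ z)) = z := by
    intro z
    have := congrArg (fun s : Perm Ω => s z) hs3
    simpa [pow_succ, Perm.mul_apply] using this
  -- distinctness
  have h01 : y ≠ σ y := fun h => hy h.symm
  have h12 : σ y ≠ σ (σ y) := fun h => h01 (σ.injective h)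
  have h02 : y ≠ σ (σ y) := by
    intro h
    have h' := congrArg σ h
    rw [hs3'] at h'
    exact hy h'
  have h0x : y ≠ x₀ := by
    intro h; rw [h] at hy; exact hy hx
  have h1x : σ y ≠ x₀ := by
    intro h
    have : σ y = σ x₀ := by rw [h, hx]
    exact h0x (σ.injective this)
  have h2x : σ (σ y) ≠ x₀ := by
    intro h
    have : σ (σ y) = σ x₀ := by rw [h, hx]
    exact h1x (σ.injective this)
  -- the element
  set a0 : Perm Ω := swap y x₀ * swap (σ y) (σ (σ y)) with ha0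
  have hsign : Perm.sign a0 = 1 := by
    rw [ha0, Perm.sign_mul, Perm.sign_swap h0x, Perm.sign_swap h12]; rfl
  have ha0mem : a0 ∈ alternatingGroup Ω := Perm.mem_alternatingGroup.mpr hsign
  have ha0sq : a0 * a0 = 1 := R4_sq y (σ y) (σ (σ y)) x₀ h01 h02 h1x h2x
  set a : alternatingGroup Ω := ⟨a0, ha0mem⟩ with ha
  have hasq : a * a = 1 := Subtype.ext ha0sq
  have hainv : a⁻¹ = a := inv_eq_of_mul_eq_one_left hasq
  have ha0inv : a0⁻¹ = a0 := inv_eq_of_mul_eq_one_left ha0sq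
  have horder : ¬ 3 ∣ orderOf a := by
    intro h
    have h2 : orderOf a ∣ 2 := orderOf_dvd_of_pow_eq_one (by rw [pow_two]; exact hasq)
    have := h.trans h2
    omega
  -- conjugates
  set b1 : Perm Ω := swap (σ y) x₀ * swap (σ (σ y)) y with hb1
  set b2 : Perm Ω := swap (σ (σ y)) x₀ * swap y (σ y) with hb2
  have hc1 : σ * a0 * σ⁻¹ = b1 := by
    rw [ha0, R4_conj, hx, hs3']
  have hc2 : σ * b1 * σ⁻¹ = b2 := by
    rw [hb1, R4_conj, hx, hs3']
  have hc3 : σ * b2 * σ⁻¹ = a0 := by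
    rw [hb2, R4_conj, hx, hs3']
  have k1 : a0 * b1 = b2 := R4_klein y (σ y) (σ (σ y)) x₀ h01 h02 h0x h12 h1x h2x
  have k2 : b1 * b2 = a0 := R4_klein (σ y) (σ (σ y)) y x₀ h12 h01.symm h1x h02.symm h2x h0x
  have k3 : b2 * a0 = b1 := R4_klein (σ (σ y)) y (σ y) x₀ h02.symm h12.symm h2x h01 h0x h1x
  have hb1sq : b1 * b1 = 1 := R4_sq (σ y) (σ (σ y)) y x₀ h12 h01.symm h2x h0x
  have hb2sq : b2 * b2 = 1 := R4_sq (σ (σ y)) y (σ y) x₀ h02.symm h12.symm h0x h1x
  have hb1inv : b1⁻¹ = b1 := inv_eq_of_mul_eq_one_left hb1sq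
  have hb2inv : b2⁻¹ = b2 := inv_eq_of_mul_eq_one_left hb2sq
  have c1 : Commute a0 b1 := by
    show a0 * b1 = b1 * a0
    have : b1 * a0 = (a0 * b1)⁻¹ := by rw [mul_inv_rev, hb1inv, ha0inv]
    rw [this, k1, hb2inv]
  have c2 : Commute a0 b2 := by
    show a0 * b2 = b2 * a0
    have : a0 * b2 = (b2 * a0)⁻¹ := by rw [mul_inv_rev, hb2inv, ha0inv]
    rw [this, k3, hb1inv]
  have hcomm : ∀ j : ℕ, Commute a (i u₀ ^ j * a * (i u₀ ^ j)⁻¹) := by
    intro j
    have hj : i u₀ ^ j = i u₀ ^ (j % 3) := by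
      conv_lhs => rw [← Nat.div_add_mod j 3]
      rw [pow_add, pow_mul, hg3, one_pow, one_mul]
    have h3 : j % 3 < 3 := Nat.mod_lt _ (by norm_num)
    have key : ∀ r : ℕ, r < 3 → Commute a0 (σ ^ r * a0 * (σ ^ r)⁻¹) := by
      intro r hr
      interval_cases r
      · simp
      · rw [pow_one, hc1]; exact c1
      · have : σ ^ 2 * a0 * (σ ^ 2)⁻¹ = σ * (σ * a0 * σ⁻¹) * σ⁻¹ := by
          rw [pow_two, mul_inv_rev]; simp only [mul_assoc]
        rw [this, hc1, hc2]; exact c2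
    have := key (j % 3) h3
    rw [hj]
    apply Subtype.ext
    have e := this.eq
    rw [hσ] at e
    simpa [ha, mul_assoc] using e
  -- the subgroup
  have hRE := re_comm (k := k) u₀ hu hgen i hi {a} (by
    intro b hb
    rw [Set.mem_singleton_iff] at hb
    subst hb
    exact ⟨horder, hcomm⟩)
  have hle := hM _ hRE
  have hgM : i u₀ ∈ M := hle (Subgroup.subset_closure (Or.inl rfl))
  have haM : a * i u₀ * a⁻¹ ∈ M :=
    hle (Subgroup.subset_closure (Or.inr ⟨a, Set.mem_singleton _, rfl⟩))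
  have hbM : i u₀ * (a * i u₀ * a⁻¹ * (i u₀)⁻¹) * (i u₀)⁻¹ ∈ M :=
    M.mul_mem (M.mul_mem hgM (M.mul_mem haM (M.inv_mem hgM))) (M.inv_mem hgM)
  have hval : ((i u₀ * (a * i u₀ * a⁻¹ * (i u₀)⁻¹) * (i u₀)⁻¹ : alternatingGroup Ω) : Perm Ω)
      = a0 := by
    have e1 : ((i u₀ * (a * i u₀ * a⁻¹ * (i u₀)⁻¹) * (i u₀)⁻¹ : alternatingGroup Ω) : Perm Ω)
        = σ * (a0 * (σ * a0⁻¹ * σ⁻¹)) * σ⁻¹ := by
      rw [hσ]
      simp [ha, mul_assoc]
    rw [e1, ha0inv, hc1, k1, hc3]
  refine ⟨a0, ⟨_, hbM, hval⟩, ?_, ?_, ?_, ?_⟩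
  · rw [ha0, Perm.mul_apply, swap_apply_of_ne_of_ne h01 h02, swap_apply_left]
  · rw [ha0, Perm.mul_apply, swap_apply_of_ne_of_ne h1x.symm h2x.symm, swap_apply_right]
  · intro t ht
    have e1 : a0 (σ y) = σ (σ y) := by
      rw [ha0, Perm.mul_apply, swap_apply_left, swap_apply_of_ne_of_ne h02.symm h2x]
    have e2 : a0 (σ (σ y)) = σ y := by
      rw [ha0, Perm.mul_apply, swap_apply_right, swap_apply_of_ne_of_ne h01.symm h1x]
    have e3 : (σ ^ 2) y = σ (σ y) := by rw [pow_two, Perm.mul_apply]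
    rcases R4_zmod t ht with ⟨v1, v2⟩ | ⟨v1, v2⟩
    · rw [v1, v2, pow_one, e1, e3]
    · rw [v1, v2, pow_one, e3, e2]
  · intro z hz hcyc
    have z0 : z ≠ y := by
      rintro rfl; exact hcyc (Perm.SameCycle.refl _ _)
    have z1 : z ≠ σ y := by
      rintro rfl; exact hcyc ⟨1, by simp⟩
    have z2 : z ≠ σ (σ y) := by
      rintro rfl
      exact hcyc ⟨2, by
        rw [show (2 : ℤ) = ((2 : ℕ) : ℤ) from rfl, zpow_natCast, pow_two, Perm.mul_apply]⟩
    rw [ha0, Perm.mul_apply, swap_apply_of_ne_of_ne z1 z2, swap_apply_of_ne_of_ne z0 hz]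

end

end Pool.Agent.MP_1c8e06_ag.AM
end
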