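import Pool.Agent.Lib.MP_1c8e06_ag.Mg.G079
import Pool.Agent.Lib.MP_1c8e06_ag.Mg.G082

section

set_option autoImplicit false

namespace Pool.Agent.MP_1c8e06_ag.AL

noncomputable section

/-!
# Task ASM2: existence of `φ` (assembly)

Proof.  `N := u - 1 : V → V` (linear map).  `u ^ p = 1`, so `N ^ p = u ^ p - 1 = 0` (the ring `V →ₗ[F] V` has characteristic `p` for `V ≠ 0`;
`Commute.sub_pow_char`-type lemma; or expand), `N ≠ 0`.  Let `d + 1` be the least exponent with `N ^ (d + 1) = 0` (`nilpotencyClass`): `1 ≤ d`,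
`d + 1 ≤ p`, `N ^ d ≠ 0`.  `exists_sym F d`: `W, B, ρ, D`.  `T := ρ e - 1`, `T ^ d (B 0) = B d ≠ 0`, `finrank W = d + 1`.
`INT_pair`: `Θ, Ξ` (`Θ (ρ e w) = Θ (T w) + Θ w = u (Θ w)`, same for `Ξ`).  `lift_rep`: `φ`.
* `det (φ g) = 1`: `SL2_char` for `g ↦ LinearMap.det (φ g).toLinearMap` (a monoid homomorphism).
* `v := (φ e)⁻¹ * u`; `u = φ e * v`.  `v` commutes with `φ g`: `Ξ (v x) = Ξ x` and `v (Θ w) = Θ w`: indeed `φ e (Θ w) = Θ (ρ e w) = u (Θ w)`,
  `Ξ (φ e x) = ρ e (Ξ x) = Ξ (u x)`.  Then `φ g (v x) = v x + Θ (ρ g (Ξ x) - Ξ x)` and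
  `v (φ g x) = v x + v (Θ (ρ g (Ξ x) - Ξ x)) = v x + Θ (ρ g (Ξ x) - Ξ x)`.
* `φ w * φ e ≠ φ e * φ w`: `φ g (Θ y) = Θ (ρ g y)`, `Θ` is injective, so otherwise `ρ w` and `ρ e` commute; `ρ e (B d) = B d`
  (`T (B d) = T ^ (d+1) (B 0) = 0`), so `ρ e` fixes `ρ w (B d) = c • B 0`, hence `T (B 0) = 0` and `B d = T ^ d (B 0) = 0` (`d ≥ 1`), a contradiction.
* last statement: `ASM_gen`.
-/

theorem ASM_exists {p : ℕ} [hp : Fact p.Prime] {F V : Type} [Field F] [CharP F p]
    [AddCommGroup V] [Module F V] [FiniteDimensional F V] (u : V ≃ₗ[F] V) (hu : orderOf u = p) :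
    ∃ (φ : SL2 p →* (V ≃ₗ[F] V)) (v : V ≃ₗ[F] V),
      (∀ g, LinearMap.det (φ g).toLinearMap = 1) ∧ (∀ g, v * φ g = φ g * v) ∧
      u = φ (eSL p) * v ∧ φ (wSL p) * φ (eSL p) ≠ φ (eSL p) * φ (wSL p) ∧
      ∀ M : Subgroup (V ≃ₗ[F] V), (∀ g, φ g ∈ M) →
        (∀ x : V ≃ₗ[F] V, x * u = u * x → LinearMap.det x.toLinearMap = 1 → x ∈ M) →
        ∀ g : V ≃ₗ[F] V, LinearMap.det g.toLinearMap = 1 → g ∈ M := by
  have hp1 : p ≠ 1 := hp.out.ne_one
  have hu1 : u ≠ 1 := by
    intro h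
    rw [h, orderOf_one] at hu
    exact hp1 hu.symm
  haveI hV : Nontrivial V := by
    by_contra hV
    rw [not_nontrivial_iff_subsingleton] at hV
    exact hu1 (LinearEquiv.ext fun x => Subsingleton.elim _ _)
  haveI : Nontrivial (Module.End F V) := inferInstance
  haveI : CharP (Module.End F V) p :=
    charP_of_injective_algebraMap (algebraMap F (Module.End F V)).injective p
  let N : Module.End F V := u.toLinearMap - 1
  have hNp : N ^ p = 0 := by
    have h1 : N ^ p = u.toLinearMap ^ p - 1 ^ p :=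
      sub_pow_char_of_commute p (Commute.one_right _)
    have h2 : (u.toLinearMap : Module.End F V) ^ p = 1 := by
      have h3 := (LinearEquiv.automorphismGroup.toLinearMapMonoidHom (R := F) (M := V)).map_pow u p
      rw [← hu, pow_orderOf_eq_one, map_one] at h3
      rw [← hu]
      exact h3.symm
    rw [h1, h2, one_pow, sub_self]
  have hN0 : N ≠ 0 := by
    intro h
    apply hu1
    apply LinearEquiv.toLinearMap_injective
    exact sub_eq_zero.1 h
  classical
  have hex : ∃ m, N ^ m = 0 := ⟨p, hNp⟩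
  obtain ⟨d, hdm⟩ : ∃ d, Nat.find hex = d + 1 := by
    refine Nat.exists_eq_succ_of_ne_zero ?_
    intro h
    have h1 := Nat.find_spec hex
    rw [h, pow_zero] at h1
    exact one_ne_zero h1
  have hNd1 : N ^ (d + 1) = 0 := by
    rw [← hdm]
    exact Nat.find_spec hex
  have hNd : N ^ d ≠ 0 := Nat.find_min hex (by omega)
  have hd : 1 ≤ d := by
    rcases Nat.eq_zero_or_pos d with h | h
    · subst h
      rw [zero_add, pow_one] at hNd1
      exact absurd hNd1 hN0
    · exact h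
  have hdp : d < p := by
    have := Nat.find_min' hex hNp
    omega
  obtain ⟨W, _, _, B, ρ, D, hD1, hD2, hD3, hw, hT, hT'⟩ := exists_sym F d hdp
  let T : Module.End F W := (ρ (eSL p)).toLinearMap - 1
  have hTa : ∀ y, ρ (eSL p) y = T y + y := by
    intro y
    change ρ (eSL p) y = (ρ (eSL p) y - y) + y
    rw [sub_add_cancel]
  have hNa : ∀ y, u y = N y + y := by
    intro y
    change u y = (u y - y) + y
    rw [sub_add_cancel]
  have hTw : (T ^ d) (B 0) ≠ 0 := by
    rw [hT']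
    exact B.ne_zero _
  have hW : Module.finrank F W = d + 1 := by
    rw [Module.finrank_eq_card_basis B, Fintype.card_fin]
  obtain ⟨Θ, Ξ, hΞΘ, hΘT, hΞN⟩ := INT_pair N T d (B 0) hT hTw hW hNd1 hNd
  have hΘ : ∀ y, Θ (ρ (eSL p) y) = u (Θ y) := by
    intro y
    rw [hTa, map_add, hΘT, hNa]
  have hΞ : ∀ x, Ξ (u x) = ρ (eSL p) (Ξ x) := by
    intro x
    rw [hNa, map_add, hΞN, hTa]
  obtain ⟨φ, hφ⟩ := lift_rep ρ Θ Ξ hΞΘ
  have hφΘ : ∀ g y, φ g (Θ y) = Θ (ρ g y) := by
    intro g y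
    rw [hφ, hΞΘ, map_sub, add_sub_cancel]
  have hΞφ : ∀ g x, Ξ (φ g x) = ρ g (Ξ x) := by
    intro g x
    rw [hφ, map_add, hΞΘ, add_sub_cancel]
  let v : V ≃ₗ[F] V := (φ (eSL p))⁻¹ * u
  have huv : u = φ (eSL p) * v := (mul_inv_cancel_left _ _).symm
  have hφv : ∀ x, φ (eSL p) (v x) = u x := fun x => by
    rw [← LinearEquiv.mul_apply, ← huv]
  have hvΘ : ∀ y, v (Θ y) = Θ y := by
    intro y
    apply (φ (eSL p)).injective
    rw [hφv, hφΘ, hΘ]
  have hΞv : ∀ x, Ξ (v x) = Ξ x := by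
    intro x
    apply (ρ (eSL p)).injective
    rw [← hΞφ, hφv, hΞ]
  refine ⟨φ, v, ?_, ?_, huv, ?_, ?_⟩
  · intro g
    exact SL2_char ((LinearMap.det : (V →ₗ[F] V) →* F).comp
      ((LinearEquiv.automorphismGroup.toLinearMapMonoidHom (R := F) (M := V)).comp φ)) g
  · intro g
    ext x
    change v (φ g x) = φ g (v x)
    rw [hφ, hφ, map_add, hvΘ, hΞv]
  · intro h
    have h1 : ∀ y, ρ (wSL p) (ρ (eSL p) y) = ρ (eSL p) (ρ (wSL p) y) := by
      intro y
      have h2 := congrArg (fun f : V ≃ₗ[F] V => f (Θ y)) h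
      simp only [LinearEquiv.mul_apply, hφΘ] at h2
      have h3 := congrArg Ξ h2
      rwa [hΞΘ, hΞΘ] at h3
    have h4 : ρ (eSL p) (B (Fin.last d)) = B (Fin.last d) := by
      rw [hTa, ← hT']
      have h5 : T ((T ^ d) (B 0)) = 0 := by
        rw [← Module.End.mul_apply, ← pow_succ']
        have := congrArg (fun f : Module.End F W => f (B 0)) hT
        exact this
      exact add_eq_right.2 h5
    obtain ⟨c, hc, hwc⟩ := hw (Fin.last d)
    rw [Fin.rev_last] at hwc
    have h6 := h1 (B (Fin.last d))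
    rw [h4, hwc, map_smul] at h6
    have h7 : B 0 = ρ (eSL p) (B 0) := smul_right_injective W hc h6
    have h8 : T (B 0) = 0 := by
      have := hTa (B 0)
      rw [← h7] at this
      exact right_eq_add.1 this
    apply hTw
    have h9 : ∀ y, T y = 0 → ∀ n, 1 ≤ n → (T ^ n) y = 0 := by
      intro y hy n hn
      obtain ⟨m, rfl⟩ := Nat.exists_eq_add_of_le' hn
      rw [pow_succ, Module.End.mul_apply, hy, map_zero]
    exact h9 _ h8 d hd
  · intro M hM hC g hg
    exact ASM_gen d hd B ρ D hD1 hD2 hD3 hw hT hT' u hNd1 Θ Ξ hΞΘ hΘ hΞ φ hφ M hM hC g hg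

end

end Pool.Agent.MP_1c8e06_ag.AL
end

section

set_option autoImplicit false

namespace Pool.Agent.MP_1c8e06_ag.AL

noncomputable section

/-!
# Task BR: from `V ≃ₗ[F] V` to the matrix group `SL_n(F)`

Proof.  `V := Fin n → F`, `ι := Matrix.SpecialLinearGroup.toLin' : SL_n(F) →* (V ≃ₗ[F] V)` (`toLin'_injective`; `(ι A).toLinearMap = Matrix.toLin' A.1`,
`LinearMap.det_toLin'`); its range consists of the `g` with `LinearMap.det g.toLinearMap = 1` (given `g` take
`A := LinearMap.toMatrix' g`).  `u' := ι u` has order `p` (`orderOf_injective`).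
`ASM_exists u'`: `φ', v'`; all `φ' g` have determinant `1`, `det v' = det u' / det (φ' e) = 1`; so they come from `SL_n(F)`: `φ` with `ι ∘ φ = φ'` (a
homomorphism since `ι` is injective), `v` with `ι v = v'`.
Closure: `M := (Subgroup.closure (Set.range φ ∪ {x | x * u = u * x})).map ι`; the last property of `ASM_exists` gives that every element of
determinant `1` is in `M`; so the closure is `⊤` (`ι` injective).
Normal closure: `M := (Subgroup.normalClosure {u}).map ι`, stable under conjugation by elements of determinant `1`; `NC`.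
-/

theorem BR_det {F : Type} [Field F] (n : ℕ) (A : Matrix.SpecialLinearGroup (Fin n) F) :
    LinearMap.det (Matrix.SpecialLinearGroup.toLin' A).toLinearMap = 1 := by
  rw [Matrix.SpecialLinearGroup.toLin'_to_linearMap, LinearMap.det_toLin']
  exact A.2

theorem BR_surj {F : Type} [Field F] (n : ℕ) (g : (Fin n → F) ≃ₗ[F] (Fin n → F))
    (hg : LinearMap.det g.toLinearMap = 1) :
    ∃ A : Matrix.SpecialLinearGroup (Fin n) F, Matrix.SpecialLinearGroup.toLin' A = g := by
  refine ⟨⟨LinearMap.toMatrix' g.toLinearMap, by rw [LinearMap.det_toMatrix', hg]⟩, ?_⟩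
  apply LinearEquiv.toLinearMap_injective
  rw [Matrix.SpecialLinearGroup.toLin'_to_linearMap]
  exact Matrix.toLin'_toMatrix' _

theorem SLn_data {p : ℕ} [hp : Fact p.Prime] {F : Type} [Field F] [Finite F] [CharP F p] (n : ℕ)
    (u : Matrix.SpecialLinearGroup (Fin n) F) (hu : orderOf u = p) :
    (∃ (φ : SL2 p →* Matrix.SpecialLinearGroup (Fin n) F)
      (v : Matrix.SpecialLinearGroup (Fin n) F), (∀ g, v * φ g = φ g * v) ∧
      u = φ (eSL p) * v ∧ φ (wSL p) * φ (eSL p) ≠ φ (eSL p) * φ (wSL p) ∧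
      Subgroup.closure (Set.range φ ∪ {x | x * u = u * x}) = ⊤) ∧
    Subgroup.normalClosure ({u} : Set (Matrix.SpecialLinearGroup (Fin n) F)) = ⊤ := by
  obtain ⟨ι, hι⟩ : ∃ ι : Matrix.SpecialLinearGroup (Fin n) F →* ((Fin n → F) ≃ₗ[F] (Fin n → F)),
      ι = Matrix.SpecialLinearGroup.toLin' := ⟨_, rfl⟩
  have hinj : Function.Injective ι := by
    rw [hι]
    exact Matrix.SpecialLinearGroup.toLin'_injective
  have hdet : ∀ A, LinearMap.det (ι A).toLinearMap = 1 := by
    intro A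
    rw [hι]
    exact BR_det n A
  have hsurj : ∀ g : (Fin n → F) ≃ₗ[F] (Fin n → F), LinearMap.det g.toLinearMap = 1 →
      ∃ A, ι A = g := by
    intro g hg
    rw [hι]
    exact BR_surj n g hg
  have hu' : orderOf (ι u) = p := by rw [orderOf_injective ι hinj, hu]
  refine ⟨?_, ?_⟩
  · obtain ⟨φ', v', h1, h2, h3, h4, h5⟩ := ASM_exists (p := p) (ι u) hu'
    have hvd : LinearMap.det v'.toLinearMap = 1 := by
      have h6 : (ι u).toLinearMap = (φ' (eSL p)).toLinearMap * v'.toLinearMap := by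
        rw [h3]
        rfl
      have h7 := congrArg (fun f => LinearMap.det f) h6
      simp only [map_mul] at h7
      rw [hdet, h1, one_mul] at h7
      exact h7.symm
    choose φ hφ using fun g => hsurj (φ' g) (h1 g)
    obtain ⟨v, hv⟩ := hsurj v' hvd
    refine ⟨MonoidHom.mk' φ (fun a b => hinj (by rw [hφ, map_mul, map_mul, hφ, hφ])), v, ?_, ?_,
      ?_, ?_⟩
    · intro g
      apply hinj
      rw [map_mul, map_mul, hv, MonoidHom.mk'_apply, hφ]
      exact h2 g
    · apply hinj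
      rw [map_mul, hv, MonoidHom.mk'_apply, hφ]
      exact h3
    · intro h
      apply h4
      have h6 := congrArg ι h
      rw [map_mul, map_mul, MonoidHom.mk'_apply, hφ, hφ] at h6
      exact h6
    · rw [eq_top_iff]
      rintro B -
      have h6 := h5 ((Subgroup.closure (Set.range φ ∪ {x | x * u = u * x})).map ι)
        (fun g => ⟨φ g, Subgroup.subset_closure (Or.inl ⟨g, rfl⟩), hφ g⟩)
        (fun x hx hxd => by
          obtain ⟨A, rfl⟩ := hsurj x hxd
          refine ⟨A, Subgroup.subset_closure (Or.inr ?_), rfl⟩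
          change A * u = u * A
          apply hinj
          rw [map_mul, map_mul, hx]) (ι B) (hdet B)
      exact (Subgroup.mem_map_iff_mem hinj).1 h6
  · rw [eq_top_iff]
    rintro B -
    have h6 := NC (p := p) ((Subgroup.normalClosure ({u} : Set
        (Matrix.SpecialLinearGroup (Fin n) F))).map ι)
      (fun g hg x hx => by
        obtain ⟨A, rfl⟩ := hsurj g hg
        obtain ⟨C, hC, rfl⟩ := hx
        refine ⟨A * C * A⁻¹, Subgroup.normalClosure_normal.conj_mem C hC A, ?_⟩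
        rw [map_mul, map_mul, map_inv])
      (ι u) hu' ⟨u, Subgroup.subset_normalClosure rfl, rfl⟩ (ι B) (hdet B)
    exact (Subgroup.mem_map_iff_mem hinj).1 h6

end

end Pool.Agent.MP_1c8e06_ag.AL
end
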