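import Pool.Agent.Lib.MP_1c8e06_ag.Mg.G060
import Pool.Agent.Lib.MP_1c8e06_ag.Mg.G049
import Pool.Agent.Lib.MP_1c8e06_ag.Mg.G059
import Pool.Agent.Lib.MP_1c8e06_ag.Mg.G062
import Pool.Agent.Lib.MP_1c8e06_ag.Mg.G064
import Pool.Agent.Lib.MP_1c8e06_ag.AL.Defs
import Pool.Agent.Lib.MP_1c8e06_ag.Mg.G075
import Pool.Agent.Lib.MP_1c8e06_ag.Mg.G078
import Pool.Agent.Lib.MP_1c8e06_ag.Mg.G095
import Pool.Agent.Lib.MP_1c8e06_ag.Mg.G090
import Pool.Agent.Lib.MP_1c8e06_ag.Mg.G066
import Pool.Agent.Lib.MP_1c8e06_ag.Mg.G088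
import Pool.Agent.Lib.MP_1c8e06_ag.Mg.G071
import Pool.Agent.Lib.MP_1c8e06_ag.Mg.G080

section

set_option autoImplicit false

open Polynomial
open scoped Classical

namespace Pool.Agent.MP_1c8e06_ag.AJ

noncomputable section

/-!
# Task Gb1: lifting a cover along a surjection with `p`-group kernel, without class or induction hypothesis

* `re_precomp`: `h` : `S', TC p S', D'`.  `P'` is a `p`-group (image of `P`), `El S'` is a field (`isField_El`).  `exists_ext` for
  `q`: `S, TC p S, J`.  `push_quot` with `G := G`, `Q := MonoidHom.id G`, `i := i'.comp q`: `D₁ : GD ((MonoidHom.id G).comp (i'.comp q)) ..`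
  (`MonoidHom.id_comp`).
* `re_lift`: strong induction on `Nat.card G` (generalising everything except `K, P', i'`).  If `Q.ker = ⊥`: `Q` is
  bijective, let `φ : K →* G` be its inverse (`MulEquiv.ofBijective`); `re_precomp` gives `RE p k (i'.comp q) ⊤`, and
  `re_ind (i'.comp q) φ` gives `RE p k (φ.comp (i'.comp q)) (⊤.map φ)`; `φ.comp (i'.comp q) = i` by `hc`, `⊤.map φ = ⊤`.
  Otherwise proceed as in the proof of `case_two` (`AJ/G9.lean`; copy it): `exists_min Q.ker` gives `N₀ ≤ Q.ker`;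
  `G₁ := G ⧸ N₀`, `ψ := (QuotientGroup.mk' N₀).comp i`, `P₁ := P ⧸ ψ.ker`, `i₁ := QuotientGroup.kerLift ψ`;
  `Q₁ := QuotientGroup.lift N₀ Q _ : G₁ →* K` (surjective; its kernel is the image of `Q.ker`, a `p`-group),
  `q₁ := QuotientGroup.lift ψ.ker q _ : P₁ →* P'` (well defined: `ψ u = 1` gives `i u ∈ N₀ ≤ Q.ker`, so `i' (q u) = 1`, `q u = 1`
  by `hi'`).  Induction (`Nat.card G₁ < Nat.card G`): `RE p k i₁ ⊤`.  Then `lift_p`, `exists_v`, `op_conj`, `conj_top` as there.
-/

theorem re_precomp {p : ℕ} [hp : Fact p.Prime] {k : Type} [Field k] [IsAlgClosed k] [CharP k p]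
    {P P' G : Type} [Group P] [Fintype P] [Group P'] [Fintype P'] [Group G] [Fintype G]
    (hP : IsPGroup p P) (q : P →* P') (hq : Function.Surjective q) (i' : P' →* G)
    (h : RE p k i' ⊤) : RE p k (i'.comp q) ⊤ := by
  obtain ⟨S', hTC', D', hD'⟩ := h
  have hP' : IsPGroup p P' := hP.of_surjective q hq
  have hF : IsField (El S') := isField_El hP' S' hTC'
  obtain ⟨S, hTC, J, hJ, hJa⟩ := exists_ext hP q hq S' hTC'
  have h2 := push_quot (i'.comp q) (MonoidHom.id G) q i' (fun u => rfl) S' hF S J hJ hJa D' hD'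
  rw [MonoidHom.id_comp] at h2
  exact ⟨S, hTC, h2⟩

theorem Gb1_aux {p : ℕ} [hp : Fact p.Prime] {k : Type} [Field k] [IsAlgClosed k] [CharP k p]
    {P' K : Type} [Group P'] [Fintype P'] [Group K] [Fintype K] (i' : P' →* K)
    (hi' : Function.Injective i') (h : RE p k i' ⊤) (n : ℕ) :
    ∀ (P G : Type) [Group P] [Fintype P] [Group G] [Fintype G] (_ : IsPGroup p P) (i : P →* G)
      (_ : Function.Injective i) (_ : Subgroup.normalClosure (i.range : Set G) = ⊤) (Q : G →* K)
      (_ : Function.Surjective Q) (_ : IsPGroup p Q.ker) (q : P →* P')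
      (_ : Function.Surjective q) (_ : ∀ u, i' (q u) = Q (i u)) (_ : Nat.card G = n),
      RE p k i ⊤ := by
  induction n using Nat.strong_induction_on with
  | _ n IH =>
  intro P G _ _ _ _ hP i hi hgen Q hQ hker q hq hc hn
  by_cases hne : Q.ker = ⊥
  · have hQi : Function.Injective Q := (MonoidHom.ker_eq_bot_iff Q).1 hne
    obtain ⟨e, he⟩ : ∃ e : G ≃* K, ∀ x, e x = Q x :=
      ⟨MulEquiv.ofBijective Q ⟨hQi, hQ⟩, fun x => rfl⟩
    have h1 := re_ind (i'.comp q) e.symm.toMonoidHom e.symm.injective ⊤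
      (re_precomp hP q hq i' h)
    have h2 : e.symm.toMonoidHom.comp (i'.comp q) = i := by
      ext u
      change e.symm (i' (q u)) = i u
      rw [hc, ← he, MulEquiv.symm_apply_apply]
    have h3 : (⊤ : Subgroup K).map e.symm.toMonoidHom = ⊤ :=
      Subgroup.map_top_of_surjective _ e.symm.surjective
    rwa [h2, h3] at h1
  · obtain ⟨N₀, hN₀n, hN₀N, hN₀ne, hN₀p, hN₀c, hmin⟩ := exists_min Q.ker inferInstance hker hne
    have := hN₀n
    have hN₀pg : IsPGroup p N₀ := hker.to_le hN₀N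
    obtain ⟨ψ, hψ⟩ : ∃ ψ : P →* G ⧸ N₀, ψ = (QuotientGroup.mk' N₀).comp i := ⟨_, rfl⟩
    have hψa : ∀ u, ψ u = (QuotientGroup.mk (i u) : G ⧸ N₀) := by
      intro u
      rw [hψ]
      rfl
    have hc1 : ∀ u, QuotientGroup.kerLift ψ (QuotientGroup.mk' ψ.ker u) =
        (QuotientGroup.mk (i u) : G ⧸ N₀) := by
      intro u
      rw [QuotientGroup.mk'_apply, QuotientGroup.kerLift_mk, hψ]
      rfl
    have hinj : Function.Injective (QuotientGroup.kerLift ψ) := QuotientGroup.kerLift_injective ψ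
    have hq1 : Function.Surjective (QuotientGroup.mk' ψ.ker) := QuotientGroup.mk'_surjective _
    have hgen' : Subgroup.normalClosure ((QuotientGroup.kerLift ψ).range : Set (G ⧸ N₀)) = ⊤ := by
      have h1 : (i.range : Set G) ⊆ (Subgroup.comap (QuotientGroup.mk' N₀)
          (Subgroup.normalClosure ((QuotientGroup.kerLift ψ).range : Set (G ⧸ N₀))) : Set G) := by
        rintro _ ⟨u, rfl⟩
        refine Subgroup.subset_normalClosure ?_
        exact ⟨QuotientGroup.mk' ψ.ker u, hc1 u⟩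
      have h2 := Subgroup.normalClosure_le_normal h1
      rw [hgen] at h2
      rw [eq_top_iff]
      rintro x -
      obtain ⟨g, rfl⟩ := QuotientGroup.mk'_surjective N₀ x
      exact h2 (Subgroup.mem_top g)
    have hcard : Nat.card (G ⧸ N₀) < n := by
      rw [← hn]
      have h1 := Subgroup.card_eq_card_quotient_mul_card_subgroup N₀
      have h2 : 1 < Nat.card N₀ := by
        rw [Finite.one_lt_card_iff_nontrivial]
        exact (Subgroup.nontrivial_iff_ne_bot N₀).2 hN₀ne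
      have h3 : 0 < Nat.card (G ⧸ N₀) := Nat.card_pos
      rw [h1]
      nlinarith
    have hQN : ∀ x ∈ N₀, Q x = 1 := fun x hx => hN₀N hx
    have hQm : ∀ g : G, QuotientGroup.lift N₀ Q hQN (QuotientGroup.mk g) = Q g := fun g => rfl
    have hQ1 : Function.Surjective (QuotientGroup.lift N₀ Q hQN) := by
      intro y
      obtain ⟨g, rfl⟩ := hQ y
      exact ⟨QuotientGroup.mk g, hQm g⟩
    have hker1 : IsPGroup p (QuotientGroup.lift N₀ Q hQN).ker := by
      rintro ⟨y, hy⟩
      obtain ⟨g, rfl⟩ := QuotientGroup.mk'_surjective N₀ y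
      have hg : g ∈ Q.ker := by
        rw [MonoidHom.mem_ker]
        rw [MonoidHom.mem_ker] at hy
        exact hy
      obtain ⟨m, hm⟩ := hker ⟨g, hg⟩
      refine ⟨m, ?_⟩
      have hm2 : g ^ p ^ m = 1 := congrArg Subtype.val hm
      apply Subtype.ext
      change (QuotientGroup.mk' N₀ g) ^ p ^ m = 1
      rw [← map_pow, hm2, map_one]
    have hψq : ∀ u ∈ ψ.ker, q u = 1 := by
      intro u hu
      rw [MonoidHom.mem_ker, hψa, QuotientGroup.eq_one_iff] at hu
      apply hi'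
      rw [hc, hQN _ hu, map_one]
    have hqm : ∀ u : P, QuotientGroup.lift ψ.ker q hψq (QuotientGroup.mk u) = q u := fun u => rfl
    have hqs : Function.Surjective (QuotientGroup.lift ψ.ker q hψq) := by
      intro y
      obtain ⟨g, rfl⟩ := hq y
      exact ⟨QuotientGroup.mk g, hqm g⟩
    have hc2 : ∀ u, i' (QuotientGroup.lift ψ.ker q hψq u) =
        QuotientGroup.lift N₀ Q hQN (QuotientGroup.kerLift ψ u) := by
      intro u
      obtain ⟨g, rfl⟩ := QuotientGroup.mk'_surjective ψ.ker u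
      rw [hc1, hQm, ← hc]
      rfl
    have h0 := IH (Nat.card (G ⧸ N₀)) hcard (P ⧸ ψ.ker) (G ⧸ N₀) (hP.of_surjective _ hq1)
      (QuotientGroup.kerLift ψ) hinj hgen' (QuotientGroup.lift N₀ Q hQN) hQ1 hker1
      (QuotientGroup.lift ψ.ker q hψq) hqs hc2 rfl
    obtain ⟨H, hH1, hH2, hH3⟩ := lift_p hP i N₀ hN₀p hN₀c (QuotientGroup.mk' ψ.ker) hq1
      (QuotientGroup.kerLift ψ) hc1 h0
    have hPr : IsPGroup p i.range := hP.of_surjective i.rangeRestrict i.rangeRestrict_surjective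
    obtain ⟨v, hv, hv1, hvc⟩ := exists_v i.range N₀ hPr hN₀n hN₀pg hN₀ne
    have h5 := op_conj i hi H hH3 v (fun u => hvc _ ⟨u, rfl⟩)
    rwa [conj_top i.range H N₀ hN₀n hN₀c hmin hgen hH1 hH2 v hv hv1] at h5

theorem re_lift {p : ℕ} [hp : Fact p.Prime] {k : Type} [Field k] [IsAlgClosed k] [CharP k p]
    {P P' G K : Type} [Group P] [Fintype P] [Group P'] [Fintype P'] [Group G] [Fintype G]
    [Group K] [Fintype K] (hP : IsPGroup p P) (i : P →* G) (hi : Function.Injective i)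
    (hgen : Subgroup.normalClosure (i.range : Set G) = ⊤) (Q : G →* K)
    (hQ : Function.Surjective Q) (hker : IsPGroup p Q.ker) (q : P →* P')
    (hq : Function.Surjective q) (i' : P' →* K) (hi' : Function.Injective i')
    (hc : ∀ u, i' (q u) = Q (i u)) (h : RE p k i' ⊤) : RE p k i ⊤ :=
  Gb1_aux i' hi' h (Nat.card G) P G hP i hi hgen Q hQ hker q hq hc rfl

end

end Pool.Agent.MP_1c8e06_ag.AJ
end

section

set_option autoImplicit false

open Polynomial
open scoped Classical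

namespace Pool.Agent.MP_1c8e06_ag.AL

noncomputable section

/-!
# Task PKS: lifting a cover to a subgroup, along a surjection with `p`-group kernel

Proof.  Among the subgroups `H'` of `G` with `i u ∈ H'` for all `u` and `H'.map Q = ⊤` (one of them is `⊤`) choose one of minimal
cardinality.  Claim `AJ.clS i.range H' = H'` (`AJ/Defs7.lean`: the subgroup generated by the `a * x * a⁻¹`, `a ∈ H'`, `x ∈ i.range`).
It is contained in `H'`, contains `i.range` (`AJ.le_clS`), and its image under `Q` is `⊤`: the image contains all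
`Q a * i' (q u) * (Q a)⁻¹`, `a ∈ H'`, i.e. (as `Q` maps `H'` onto `K` and `q` is onto) all conjugates of the elements of `i'.range`, and these
generate `normalClosure i'.range = ⊤` (`Subgroup.normalClosure` is the closure of `Group.conjugatesOfSet`).  Minimality.
Now `i₁ := i.codRestrict H' _`, `Q₁ := Q.comp H'.subtype` (surjective; its kernel is a `p`-group: it embeds in `Q.ker`,
`IsPGroup.of_injective`), `normalClosure i₁.range = ⊤` (`AJ.ncl_sub`).  `AJ.re_lift` gives `RE p k i₁ ⊤` and `AJ.re_sub` gives `RE p k i H'`.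
-/

theorem exists_re_sub {p : ℕ} [hp : Fact p.Prime] {k : Type} [Field k] [IsAlgClosed k] [CharP k p]
    {P P' G K : Type} [Group P] [Fintype P] [Group P'] [Fintype P'] [Group G] [Fintype G]
    [Group K] [Fintype K] (hP : IsPGroup p P) (i : P →* G) (hi : Function.Injective i)
    (Q : G →* K) (hQ : Function.Surjective Q) (hker : IsPGroup p Q.ker) (q : P →* P')
    (hq : Function.Surjective q) (i' : P' →* K) (hi' : Function.Injective i')
    (hc : ∀ u, i' (q u) = Q (i u)) (hgen' : Subgroup.normalClosure (i'.range : Set K) = ⊤)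
    (h : AJ.RE p k i' ⊤) :
    ∃ H' : Subgroup G, (∀ u, i u ∈ H') ∧ AJ.RE p k i H' ∧ H'.map Q = ⊤ := by
  have : Nonempty {H : Subgroup G // (∀ u, i u ∈ H) ∧ H.map Q = ⊤} :=
    ⟨⟨⊤, fun _ => Subgroup.mem_top _, by rw [← MonoidHom.range_eq_map, MonoidHom.range_eq_top.2 hQ]⟩⟩
  obtain ⟨⟨H, hH, hHQ⟩, hmin⟩ :=
    Finite.exists_min (fun H : {H : Subgroup G // (∀ u, i u ∈ H) ∧ H.map Q = ⊤} => Nat.card H.1)
  have hir : i.range ≤ H := by
    rintro _ ⟨u, rfl⟩
    exact hH u
  have hcl : AJ.clS i.range H = H := by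
    have h1 : AJ.clS i.range H ≤ H := by
      rw [AJ.clS, Subgroup.closure_le]
      rintro y ⟨a, ha, x, hx, rfl⟩
      exact H.mul_mem (H.mul_mem ha (hir hx)) (H.inv_mem ha)
    have h2 : ∀ u, i u ∈ AJ.clS i.range H := fun u => AJ.le_clS i.range H ⟨u, rfl⟩
    have h3 : (AJ.clS i.range H).map Q = ⊤ := by
      rw [eq_top_iff, ← hgen', Subgroup.normalClosure, Subgroup.closure_le]
      intro y hy
      rw [Group.mem_conjugatesOfSet_iff] at hy
      obtain ⟨x, ⟨w, rfl⟩, hxy⟩ := hy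
      rw [isConj_iff] at hxy
      obtain ⟨c, rfl⟩ := hxy
      obtain ⟨u, rfl⟩ := hq w
      have hc' : c ∈ H.map Q := by rw [hHQ]; exact Subgroup.mem_top c
      obtain ⟨a, ha, rfl⟩ := hc'
      refine ⟨a * i u * a⁻¹, AJ.mem_clS ha ⟨u, rfl⟩, ?_⟩
      rw [map_mul, map_mul, map_inv, hc u]
    have h4 : Nat.card H ≤ Nat.card (AJ.clS i.range H) := hmin ⟨AJ.clS i.range H, h2, h3⟩
    exact Subgroup.eq_of_le_of_card_ge h1 h4
  refine ⟨H, hH, ?_, hHQ⟩
  refine AJ.re_sub i H hH ?_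
  have hinj : Function.Injective (i.codRestrict H hH) := by
    intro a b hab
    exact hi (congrArg Subtype.val hab)
  have hsur : Function.Surjective (Q.comp H.subtype) := by
    intro y
    have hy : y ∈ H.map Q := by rw [hHQ]; exact Subgroup.mem_top y
    obtain ⟨a, ha, rfl⟩ := hy
    exact ⟨⟨a, ha⟩, rfl⟩
  have hk : IsPGroup p (Q.comp H.subtype).ker := by
    refine hker.of_injective
      (((H.subtype.comp (Q.comp H.subtype).ker.subtype)).codRestrict Q.ker (fun x => x.2)) ?_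
    intro a b hab
    have hab' : ((a : H) : G) = ((b : H) : G) := congrArg (fun x : Q.ker => (x : G)) hab
    exact Subtype.ext (Subtype.ext hab')
  exact AJ.re_lift hP (i.codRestrict H hH) hinj (AJ.ncl_sub i H hH hcl) (Q.comp H.subtype) hsur hk
    q hq i' hi' hc h

end

end Pool.Agent.MP_1c8e06_ag.AL
end

section

set_option autoImplicit false

open Polynomial

namespace Pool.Agent.MP_1c8e06_ag.AL

noncomputable section

/-!
# Task Base: the covers with group `SL_2(F_p)` (assembly)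

Proof.
* `conn'_of_conn`: if `∑_l ze (f l) * D.b l x = ze (C (c x))` for all `x`, put `f' l := f l - C (c 1) * D.ν l`; then
  `∑_l ze (f' l) * D.b l x = ze (C (c x)) - ze (C (c 1))` for all `x` (`D.hone`), `= 0` at `x = 1`, so `= 0` at `h ∈ H`: `ze (C (c h - c 1)) = 0`
  and `ze ∘ C` is injective (`AI.ze_injective`, `Polynomial.C_injective`).
* `base_SL2`: `exists_ab k`: `Q, a, b`.  `¬ p ∣ Q.natDegree = p + 1`.  `EE p Q` is a field: `Fact (Irreducible (asPoly p Q))`
  (`AI.irreducible_asPoly`), `AdjoinRoot.instField`; `AI.ze_injective`.  `exists_SL2_action` with `z := AI.ze p Q`, `τ := AI.tau p Q`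
  (`AI.tau_ze`), `t := X ^ (p - 1)`: `S, act, …`.  `SL2_free` and `AI.exists_dual` (with `Fintype (SL2 p)`): the dual system.
  `AI.exists_ind S act φ (eSL p) hi'` with `g := φ (eSL p) = i u₀`, `hker := not_dvd_ker φ hne`: `W`, and `f (φ h) = 0` whenever `f 1 = 0`.
  `AI.exists_WD W` with `H := φ.range`: `D`, `D.Conn φ.range`; `conn'_of_conn`; `re_of_WD` (`AJ/X1.lean`).
-/

theorem conn'_of_conn {p : ℕ} [hp : Fact p.Prime] {κ : Type} [Field κ] [CharP κ p] {G : Type}
    [Group G] [Fintype G] {g : G} {F : κ[X]} (D : AI.WD p κ G g F) (H : Subgroup G)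
    (hD : D.Conn H) : D.Conn' H := by
  intro h hh f c hc
  have h1 : ∀ x, ∑ l, AI.ze p F (f l - C (c 1) * D.ν l) * D.b l x =
      AI.ze p F (C (c x)) - AI.ze p F (C (c 1)) := by
    intro x
    have h2 : ∀ l, AI.ze p F (f l - C (c 1) * D.ν l) * D.b l x =
        AI.ze p F (f l) * D.b l x - AI.ze p F (C (c 1)) * (AI.ze p F (D.ν l) * D.b l x) := by
      intro l
      rw [map_sub, map_mul]
      ring
    rw [Finset.sum_congr rfl fun l _ => h2 l, Finset.sum_sub_distrib, hc x, ← Finset.mul_sum,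
      D.hone x, mul_one]
  have h3 := hD h hh (fun l => f l - C (c 1) * D.ν l) (by rw [h1 1, sub_self])
  rw [h1 h, sub_eq_zero] at h3
  exact Polynomial.C_injective (AI.ze_injective h3)

theorem base_SL2 {p : ℕ} [hp : Fact p.Prime] {k : Type} [Field k] [IsAlgClosed k] [CharP k p]
    {P G : Type} [Group P] [Fintype P] [Group G] [Fintype G] (φ : SL2 p →* G) (u₀ : P)
    (hu : orderOf u₀ = p) (hgen : ∀ u : P, ∃ n : ℕ, u = u₀ ^ n) (i : P →* G)
    (hi : i u₀ = φ (eSL p)) (hne : φ (eSL p) ≠ 1) : AJ.RE p k i φ.range := by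
  obtain ⟨Q, hQ, a, b, ha, hb, hab, hτa, hτb, hnP⟩ := exists_ab (p := p) k
  have hF : ¬ p ∣ Q.natDegree := by
    rw [hQ]
    intro h
    have h1 : p ∣ 1 := (Nat.dvd_add_right (dvd_refl p)).1 h
    exact hp.out.one_lt.ne' (Nat.dvd_one.1 h1)
  have hirr : Fact (Irreducible (AI.asPoly p Q)) := ⟨AI.irreducible_asPoly hF⟩
  let _ : Field (AI.EE p Q) := AdjoinRoot.instField
  have hchar : CharP (AI.EE p Q) p :=
    charP_of_injective_ringHom (f := (AI.ze p Q).comp (C : k →+* k[X]))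
      (AI.ze_injective.comp Polynomial.C_injective) p
  obtain ⟨S, act, hzS, haS, hbS, h1, h2, h3, h4, h5⟩ := exists_SL2_action (AI.ze p Q)
    AI.ze_injective (AI.tau p Q) AI.tau_ze (X ^ (p - 1)) a b ha hb hab hτa hτb hnP
  have hdual := AI.exists_dual act fun h hh =>
    SL2_free (AI.ze p Q (X ^ (p - 1))) a b ha hb hab S (hzS _) haS hbS act h3 h hh
  obtain ⟨W, hW⟩ := AI.exists_ind S act φ (eSL p) rfl h1 hzS h2 h4 h5 hdual (not_dvd_ker φ hne)
  obtain ⟨D, hD⟩ := AI.exists_WD W hF φ.range (by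
    rintro _ ⟨h, rfl⟩ f hf h0
    exact hW h f hf h0)
  exact AJ.re_of_WD D hF φ.range (conn'_of_conn D φ.range hD) u₀ hu hgen i hi

end

end Pool.Agent.MP_1c8e06_ag.AL
end

section

set_option autoImplicit false

open scoped Classical

namespace Pool.Agent.MP_1c8e06_ag.AN

/-!
# Task SU3n: normal subgroups and centre of `SU_3`

`fix_inst`: `fixF σ` is a subfield of `F`, so it is finite and of characteristic `p` (`charP_of_injective_ringHom` for the inclusion).
`SU3_normal`: `SU3_conj`: `g⁻¹ * y * g = uU a b ∈ R`, `valid a b`, not `(0, 0)`.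
1. There is `d ≠ 0`, `σ d = - d`, with `uU 0 d ∈ R`: if `a = 0`, `d := b`.  If `a ≠ 0`: let `σ x ≠ x`, `c := a x`, `d' := - c σ c / 2` (`valid c d'`); `uU c d' * uU a b = uU (c + a) (b + d' - σ c a)`, `uU a b * uU c d' = uU (a + c) (d' + b - σ a c)`; so
   `(uU c d') * (uU a b) * (uU c d')⁻¹ * (uU a b)⁻¹ = uU 0 d` with `d = σ a c - σ c a = a σ a (x - σ x) ≠ 0` (check: `uU 0 d * (uU a b * uU c d') = uU c d' * uU a b` by `uU_mul`), in `R`.
2. `phi1` with `e := d`: `φ`, `φ (up 1) = uU 0 d ∈ R`.  The subgroup of the `g` with `φ g ∈ R` is normal in `SL_2(fixF σ)` and contains `up 1`, of order `p`: it is `⊤` by `AL.SLn_data 2 (up 1)` (last statement).  So `φ g ∈ R` for all `g`: in particular `uU 0 (t d)` for all `t` in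
   `fixF σ`, i.e. all `uU 0 d'` with `σ d' = - d'` (`t = d'/d`), `hU (-1) = φ (-1)`, and `φ (lo 1)`, whose `(2,0)` entry is not `0`.
3. for valid `(α, β)`: `v := uU α β`, `t₁ := hU (-1) ∈ R`: `v * t₁ * v⁻¹ ∈ R` and `v * t₁ * v⁻¹ * t₁⁻¹ = v * (t₁ * v⁻¹ * t₁⁻¹) = uU (2 α) (..) ∈ R` (`hU_conj`, `uU_inv`).  So for every valid `(a', b')` some `uU a' b''` is in `R` (`α = a'/2`, `β := -α σ α/2`), valid, and
   `uU a' b' = uU a' b'' * uU 0 (b' - b'')`.  All `uU` are in `R`; `SU3_gen`.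
`SU3_center`: `z ∈ SU_3` commuting with all elements of `SU_3`: it commutes with `uU 0 e` (`e ≠ 0`, `σ e = - e`) and `nU * uU 0 e * nU`: entries of `z` off the diagonal at places `(1,0), (2,0), (2,1), (0,1), (0,2), (1,2)` vanish and `z 0 0 = z 2 2`; commuting with `uU a b` (`a ≠ 0`: `a = 1`,
`b = -1/2`) gives `z 0 0 = z 1 1`.  So `z = c • 1`, `c ^ 3 = 1` (determinant), `z ^ 3 = 1`; in characteristic `3`: `(c - 1) ^ 3 = 0`, `z = 1`.
-/

theorem fix_inst {p : ℕ} {F : Type} [Field F] [Finite F] [CharP F p] (σ : F ≃+* F) :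
    Finite (fixF σ) ∧ CharP (fixF σ) p := by
  refine ⟨inferInstance, ?_⟩
  exact RingHom.charP (fixF σ).subtype Subtype.val_injective p

private theorem SU3n_up_pow {K : Type} [Field K] (t : K) (n : ℕ) :
    (up t) ^ n = up ((n : K) * t) := by
  induction n with
  | zero =>
    rw [pow_zero]
    apply Subtype.ext
    ext i j
    fin_cases i <;> fin_cases j <;> simp [up]
  | succ n ih =>
    rw [pow_succ, ih]
    apply Subtype.ext
    ext i j
    fin_cases i <;> fin_cases j <;>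
      (simp [up, Matrix.mul_apply, Fin.sum_univ_two])
    ring

private theorem SU3n_order {p : ℕ} [hp : Fact p.Prime] {K : Type} [Field K] [CharP K p] :
    orderOf (up (1 : K)) = p := by
  apply orderOf_eq_prime
  · rw [SU3n_up_pow, CharP.cast_eq_zero, zero_mul]
    apply Subtype.ext
    ext i j
    fin_cases i <;> fin_cases j <;> simp [up]
  · intro h
    have h1 := congrArg (fun A : Matrix.SpecialLinearGroup (Fin 2) K => A.1 0 1) h
    simp [up] at h1

theorem SU3_normal {p : ℕ} [hp : Fact p.Prime] (hp2 : p ≠ 2) {F : Type} [Field F] [Finite F]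
    [CharP F p] (σ : F ≃+* F) (hs : ∀ x, σ (σ x) = x) (h1 : ∃ x, σ x ≠ x)
    (y : Matrix.SpecialLinearGroup (Fin 3) F) (hy : y ∈ SU3 F σ) (hyp : y ^ p = 1) (hy1 : y ≠ 1)
    (R : Subgroup (Matrix.SpecialLinearGroup (Fin 3) F)) (hR : R ≤ SU3 F σ)
    (hn : ∀ g ∈ SU3 F σ, ∀ r ∈ R, g * r * g⁻¹ ∈ R) (hyR : y ∈ R) : R = SU3 F σ := by
  have h2 : (2 : F) ≠ 0 := by
    intro h
    have h3 : p ∣ 2 := (CharP.cast_eq_zero_iff F p 2).1 (by exact_mod_cast h)
    exact hp2 ((Nat.prime_dvd_prime_iff_eq hp.out Nat.prime_two).1 h3)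
  have hs2 : σ (2 : F) = 2 := map_ofNat σ 2
  have hs0 : σ (0 : F) = 0 := map_zero σ
  obtain ⟨g, hg, a, b, hv, hgy⟩ := SU3_conj σ hs h1 y hy hyp
  have hab : uU σ a b ∈ R := by
    rw [← hgy]
    have h3 := hn g⁻¹ ((SU3 F σ).inv_mem hg) y hyR
    rwa [inv_inv] at h3
  have hab0 : ¬ (a = 0 ∧ b = 0) := by
    rintro ⟨rfl, rfl⟩
    rw [uU_zero] at hgy
    apply hy1
    have h3 : y = g * (g⁻¹ * y * g) * g⁻¹ := by group
    rw [h3, hgy]
    group
  have hd : ∃ d : F, d ≠ 0 ∧ σ d = -d ∧ uU σ 0 d ∈ R := by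
    by_cases ha : a = 0
    · subst ha
      refine ⟨b, fun h => hab0 ⟨rfl, h⟩, ?_, hab⟩
      unfold valid at hv
      rw [zero_mul, add_zero] at hv
      exact eq_neg_of_add_eq_zero_right hv
    · obtain ⟨x, hx⟩ := h1
      have hc : valid σ (a * x) (-((a * x) * σ (a * x)) / 2) := by
        unfold valid
        rw [map_div₀, map_neg, map_mul σ (a * x), hs, hs2]
        field_simp
        ring
      have hcm := uU_mem σ hs hc
      have h3 := R.mul_mem (hn _ hcm _ hab) (R.inv_mem hab)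
      refine ⟨σ a * (a * x) - σ (a * x) * a, ?_, ?_, ?_⟩
      · have h4 : σ a * (a * x) - σ (a * x) * a = a * σ a * (x - σ x) := by
          rw [map_mul]; ring
        rw [h4]
        exact mul_ne_zero (mul_ne_zero ha (fun h => ha ((map_eq_zero σ).1 h)))
          (sub_ne_zero.2 (Ne.symm hx))
      · rw [map_sub, map_mul σ (σ a), map_mul σ (σ (a * x)), hs, hs]
        ring
      · have h5 : uU σ (a * x) (-((a * x) * σ (a * x)) / 2) * uU σ a b *
            (uU σ (a * x) (-((a * x) * σ (a * x)) / 2))⁻¹ * (uU σ a b)⁻¹ =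
            uU σ 0 (σ a * (a * x) - σ (a * x) * a) := by
          rw [mul_inv_eq_iff_eq_mul, mul_inv_eq_iff_eq_mul, mul_assoc, uU_mul, uU_mul, uU_mul]
          congr 1
          · ring
          · rw [hs0]; ring
        rwa [h5] at h3
  obtain ⟨d, hd0, hsd, hdR⟩ := hd
  obtain ⟨φ, hφ1, hφ2⟩ := phi1 σ hs d hd0 hsd
  obtain ⟨hfin, hch⟩ := fix_inst (p := p) σ
  have hup : ∀ (t : fixF σ) (d' : F), (t : F) * d = d' → φ (up t) = uU σ 0 d' := by
    intro t d' h
    apply Subtype.ext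
    rw [hφ2]
    ext i j
    fin_cases i <;> fin_cases j <;> simp [up, uU, h]
  have hall : ∀ x, φ x ∈ R := by
    have hN : (R.comap φ).Normal := by
      constructor
      intro n hn' x
      change φ (x * n * x⁻¹) ∈ R
      rw [map_mul, map_mul, map_inv]
      exact hn _ (hφ1 x) _ hn'
    have h3 := (AL.SLn_data (p := p) 2 (up (1 : fixF σ)) SU3n_order).2
    have h4 : Subgroup.normalClosure ({up (1 : fixF σ)} :
        Set (Matrix.SpecialLinearGroup (Fin 2) (fixF σ))) ≤ R.comap φ := by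
      apply Subgroup.normalClosure_le_normal
      rw [Set.singleton_subset_iff]
      change φ (up 1) ∈ R
      rw [hup 1 d (by simp)]
      exact hdR
    intro x
    have h5 : x ∈ R.comap φ := h4 (by rw [h3]; exact Subgroup.mem_top x)
    exact h5
  have hZ : ∀ d', σ d' = -d' → uU σ 0 d' ∈ R := by
    intro d' hd'
    have ht : σ (d' / d) = d' / d := by
      rw [map_div₀, hd', hsd, neg_div_neg_eq]
    rw [← hup ⟨d' / d, ht⟩ d' (by simp [div_mul_cancel₀ _ hd0])]
    exact hall _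
  have hneg : hU σ (-1) ∈ R := by
    have h3 : φ ⟨!![-1, 0; 0, -1], by simp [Matrix.det_fin_two]⟩ = hU σ (-1) := by
      apply Subtype.ext
      rw [hφ2]
      ext i j
      fin_cases i <;> fin_cases j <;> simp [hU]
    rw [← h3]
    exact hall _
  have hUall : ∀ a' b', valid σ a' b' → uU σ a' b' ∈ R := by
    intro a' b' hv'
    have hva : valid σ (a' / 2) (-((a' / 2) * σ (a' / 2)) / 2) := by
      unfold valid
      rw [map_div₀ σ (-_), map_neg, map_mul σ (a' / 2), hs, hs2]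
      field_simp
      ring
    have hvm := uU_mem σ hs hva
    have h3 := R.mul_mem (hn _ hvm _ hneg) (R.inv_mem hneg)
    have h4 : uU σ (a' / 2) (-((a' / 2) * σ (a' / 2)) / 2) * hU σ (-1) *
        (uU σ (a' / 2) (-((a' / 2) * σ (a' / 2)) / 2))⁻¹ * (hU σ (-1))⁻¹ =
        uU σ a' (-(a' * σ a') / 2) := by
      have h5 : hU σ (-1) * (uU σ (a' / 2) (-((a' / 2) * σ (a' / 2)) / 2))⁻¹ * (hU σ (-1))⁻¹ =
          uU σ (a' / 2) (-((a' / 2) * σ (a' / 2)) / 2) := by
        rw [uU_inv σ hs hva, hU_conj σ hs]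
        congr 1
        · simp
        · simp only [Units.val_neg, Units.val_one, map_neg, map_one, map_div₀, map_mul, hs, hs2]
          ring
      rw [mul_assoc, mul_assoc, ← mul_assoc (hU σ (-1)), h5, uU_mul]
      congr 1
      · field_simp
        ring
      · rw [map_div₀, hs2]
        field_simp
        ring
    rw [h4] at h3
    have h6 : uU σ a' b' = uU σ a' (-(a' * σ a') / 2) * uU σ 0 (b' - (-(a' * σ a') / 2)) := by
      rw [uU_mul]
      congr 1
      · ring
      · ring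
    rw [h6]
    refine R.mul_mem h3 (hZ _ ?_)
    unfold valid at hv'
    rw [map_sub, map_div₀, map_neg, map_mul, hs, hs2]
    have h7 : σ b' = -b' - a' * σ a' := by linear_combination hv'
    rw [h7]
    field_simp
    ring
  refine SU3_gen σ hs h1 R hR hUall (φ (lo 1)) (hall _) ?_
  rw [show (φ (lo 1)).1 2 0 = _ from congrFun (congrFun (hφ2 (lo 1)) 2) 0]
  simp [lo, hd0]

theorem SU3_center {p : ℕ} [hp : Fact p.Prime] (hp2 : p ≠ 2) {F : Type} [Field F] [Finite F]
    [CharP F p] (σ : F ≃+* F) (hs : ∀ x, σ (σ x) = x) (h1 : ∃ x, σ x ≠ x)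
    (z : Matrix.SpecialLinearGroup (Fin 3) F) (hz : z ∈ SU3 F σ)
    (hc : ∀ g ∈ SU3 F σ, g * z = z * g) : z ^ 3 = 1 ∧ (p = 3 → z = 1) := by
  have h2 : (2 : F) ≠ 0 := by
    intro h
    have h3 : p ∣ 2 := (CharP.cast_eq_zero_iff F p 2).1 (by exact_mod_cast h)
    exact hp2 ((Nat.prime_dvd_prime_iff_eq hp.out Nat.prime_two).1 h3)
  have hs2 : σ (2 : F) = 2 := map_ofNat σ 2
  obtain ⟨x, hx⟩ := h1
  obtain ⟨e, he⟩ : ∃ e, e = x - σ x := ⟨_, rfl⟩
  have he0 : e ≠ 0 := by rw [he]; exact sub_ne_zero.2 (Ne.symm hx)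
  have hse : σ e = -e := by rw [he, map_sub, hs]; ring
  have hv : valid σ 0 e := by unfold valid; rw [hse]; ring
  have hm := uU_mem σ hs hv
  have hw := (SU3 F σ).mul_mem ((SU3 F σ).mul_mem (nU_mem σ) hm) (nU_mem σ)
  have hv1 : valid σ 1 (-1 / 2) := by
    unfold valid
    rw [map_div₀, map_neg, map_one, hs2]
    field_simp
    ring
  have hm1 := uU_mem σ hs hv1
  have E1 : ∀ i j, ((uU σ 0 e).1 * z.1) i j = (z.1 * (uU σ 0 e).1) i j := fun i j =>
    congrArg (fun A : Matrix.SpecialLinearGroup (Fin 3) F => A.1 i j) (hc _ hm)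
  have E2 : ∀ i j, (((nU F).1 * (uU σ 0 e).1 * (nU F).1) * z.1) i j =
      (z.1 * ((nU F).1 * (uU σ 0 e).1 * (nU F).1)) i j := fun i j =>
    congrArg (fun A : Matrix.SpecialLinearGroup (Fin 3) F => A.1 i j) (hc _ hw)
  have E3 : ∀ i j, ((uU σ 1 (-1 / 2)).1 * z.1) i j = (z.1 * (uU σ 1 (-1 / 2)).1) i j := fun i j =>
    congrArg (fun A : Matrix.SpecialLinearGroup (Fin 3) F => A.1 i j) (hc _ hm1)
  have a1 := E1 0 0
  have a2 := E1 0 1
  have a3 := E1 0 2
  have a4 := E1 1 2
  have b1 := E2 2 1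
  have b2 := E2 2 2
  have b3 := E2 1 0
  have c1 := E3 0 1
  simp [Matrix.mul_apply, Fin.sum_univ_three, uU, nU, he0] at a1 a2 a3 a4 b1 b2 b3 c1
  have hz22 : z.1 2 2 = z.1 0 0 := by
    apply mul_left_cancel₀ he0
    linear_combination a3
  have hz11 : z.1 1 1 = z.1 0 0 := by
    rw [a2, b1] at c1
    linear_combination -c1
  have hdet := z.2
  rw [Matrix.det_fin_three, a1, a2, a4, b1, b2, b3, hz22, hz11] at hdet
  have hc3 : z.1 0 0 ^ 3 = 1 := by linear_combination hdet
  obtain ⟨c, hcc⟩ : ∃ c, c = z.1 0 0 := ⟨_, rfl⟩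
  rw [← hcc] at hz22 hz11 hc3
  have hzm : z.1 = Matrix.diagonal (fun _ => c) := by
    ext i j
    fin_cases i <;> fin_cases j <;> simp [a1, a2, a4, b1, b2, b3, hz22, hz11, ← hcc]
  constructor
  · apply Subtype.ext
    change z.1 ^ 3 = 1
    rw [hzm, Matrix.diagonal_pow]
    ext i j
    by_cases hij : i = j
    · subst hij
      simp [hc3]
    · simp [Matrix.diagonal_apply_ne _ hij, Matrix.one_apply_ne hij]
  · intro hp3
    subst hp3
    have h3 : (3 : F) = 0 := by exact_mod_cast CharP.cast_eq_zero F 3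
    have h4 : (c - 1) ^ 3 = 0 := by
      linear_combination hc3 + (c - c ^ 2) * h3
    have h5 : c = 1 := by
      have := pow_eq_zero_iff (n := 3) (by norm_num) |>.1 h4
      linear_combination this
    apply Subtype.ext
    change z.1 = 1
    rw [hzm, h5]
    exact Matrix.diagonal_one

end Pool.Agent.MP_1c8e06_ag.AN
end
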