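import Pool.Agent.Lib.MP_1c8e06_ag.AJ.Defs3
import Pool.Agent.Lib.MP_1c8e06_ag.Mg.G098
import Pool.Agent.Lib.MP_1c8e06_ag.Mg.G049

section

set_option autoImplicit false

open Polynomial
open scoped Classical

namespace Pool.Agent.MP_1c8e06_ag.AJ

noncomputable section

/-!
# Task B5a: lattices over `F((t))`

Every `g ∈ GL_n(F((t)))` is `A⁻¹ M` with `A ∈ GL_n(F[t, t⁻¹])` and `M ≡ 1 mod t`.
Proof.  Multiply `g` by a power `t^N` (`A₀ := t^N`): all entries in `F[[t]]`, `g = (M₀)^` with
`M₀ : Matrix n n (PowerSeries F)`, `det M₀ ≠ 0`, of order `d`.  Induction on `d`: if `d = 0` then the constant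
part `M₀(0)` is invertible over `F`; multiply by its inverse.  If `d > 0` then `M₀(0)` is singular: there is a
nonzero row vector `c` over `F` with `c M₀(0) = 0` (`Matrix.exists_vecMul_eq_zero_iff`); say `c_r = 1` after
scaling.  Replace the row `r` of `M₀` by `∑ c_j row_j` (multiplication by an invertible matrix over
`F`: the identity with row `r` replaced by `c`, determinant `c_r = 1`); it is divisible by `t`; divide it by `t`
(multiplication by `diag(1, .., t⁻¹, .., 1)`).  The determinant is divided by `t`, so `d` decreases by one.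
All matrices used, and their inverses, have entries that are finite in `t` (Laurent polynomials);
products of such matrices are again such.
-/

/-- Laurent polynomials inside the Laurent series. -/
private def B5a_fin {F : Type} [Field F] (x : LaurentSeries F) : Prop :=
  ∃ (k : ℕ) (P : F[X]), (HahnSeries.single (k : ℤ) (1 : F) : LaurentSeries F) * x =
    HahnSeries.ofPowerSeries ℤ F (P : PowerSeries F)

private theorem B5a_single_add {F : Type} [Field F] (k l : ℕ) :
    (HahnSeries.single ((k + l : ℕ) : ℤ) (1 : F) : LaurentSeries F) =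
      HahnSeries.single (k : ℤ) 1 * HahnSeries.single (l : ℤ) 1 := by
  rw [HahnSeries.single_mul_single, mul_one]
  push_cast
  rfl

private theorem B5a_X_pow {F : Type} [Field F] (l : ℕ) (P : F[X]) :
    HahnSeries.ofPowerSeries ℤ F ((X ^ l * P : F[X]) : PowerSeries F) =
      HahnSeries.single (l : ℤ) 1 * HahnSeries.ofPowerSeries ℤ F (P : PowerSeries F) := by
  rw [Polynomial.coe_mul, Polynomial.coe_pow, Polynomial.coe_X, map_mul,
    HahnSeries.ofPowerSeries_X_pow]

private def B5a_S (F : Type) [Field F] : Subring (LaurentSeries F) where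
  carrier := {x | B5a_fin x}
  mul_mem' := by
    rintro x y ⟨k, P, hP⟩ ⟨l, Q, hQ⟩
    refine ⟨k + l, P * Q, ?_⟩
    rw [Polynomial.coe_mul, map_mul, ← hP, ← hQ, B5a_single_add]
    ring
  one_mem' := ⟨0, 1, by simp⟩
  add_mem' := by
    rintro x y ⟨k, P, hP⟩ ⟨l, Q, hQ⟩
    refine ⟨k + l, X ^ l * P + X ^ k * Q, ?_⟩
    rw [Polynomial.coe_add, map_add, B5a_X_pow, B5a_X_pow, ← hP, ← hQ, B5a_single_add]
    ring
  zero_mem' := ⟨0, 0, by simp⟩
  neg_mem' := by
    rintro x ⟨k, P, hP⟩
    refine ⟨k, -P, ?_⟩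
    rw [Polynomial.coe_neg, map_neg, ← hP]
    ring

private theorem B5a_C_mem {F : Type} [Field F] (a : F) :
    (HahnSeries.C a : LaurentSeries F) ∈ B5a_S F := by
  refine ⟨0, Polynomial.C a, ?_⟩
  rw [Polynomial.coe_C, HahnSeries.ofPowerSeries_C]
  simp

private theorem B5a_T_mem {F : Type} [Field F] :
    (HahnSeries.single (1 : ℤ) (1 : F) : LaurentSeries F) ∈ B5a_S F := by
  refine ⟨0, X, ?_⟩
  rw [Polynomial.coe_X, HahnSeries.ofPowerSeries_X]
  simp

private theorem B5a_Ti_mem {F : Type} [Field F] :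
    (HahnSeries.single (-1 : ℤ) (1 : F) : LaurentSeries F) ∈ B5a_S F := by
  refine ⟨1, 1, ?_⟩
  rw [HahnSeries.single_mul_single]
  simp

private theorem B5a_TTi {F : Type} [Field F] :
    (HahnSeries.single (1 : ℤ) (1 : F) : LaurentSeries F) * HahnSeries.single (-1 : ℤ) 1 = 1 := by
  rw [HahnSeries.single_mul_single]
  simp

private theorem B5a_bd {F : Type} [Field F] {x : LaurentSeries F} (hx : x ∈ B5a_S F) :
    ∃ N : ℕ, ∀ m : ℤ, (N : ℤ) < m → x.coeff m = 0 := by
  obtain ⟨k, P, hP⟩ := hx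
  refine ⟨P.natDegree, fun m hm => ?_⟩
  have h1 := HahnSeries.coeff_single_mul_add (r := (1 : F)) (x := x) (a := m) (b := (k : ℤ))
  rw [hP, one_mul] at h1
  have hm0 : 0 ≤ m := le_trans (by positivity) hm.le
  obtain ⟨m', rfl⟩ := Int.eq_ofNat_of_zero_le hm0
  rw [← h1]
  have e : ((m' : ℤ) + (k : ℤ)) = ((m' + k : ℕ) : ℤ) := by push_cast; rfl
  rw [e, HahnSeries.ofPowerSeries_apply_coeff, Polynomial.coeff_coe]
  apply Polynomial.coeff_eq_zero_of_natDegree_lt
  have : P.natDegree < m' := by exact_mod_cast hm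
  omega

private def B5a_good {F : Type} [Field F] {n : Type} [Fintype n]
    (A : Matrix n n (LaurentSeries F)) : Prop := ∀ i j, A i j ∈ B5a_S F

private theorem B5a_good_mul {F : Type} [Field F] {n : Type} [Fintype n]
    {A B : Matrix n n (LaurentSeries F)} (hA : B5a_good A) (hB : B5a_good B) :
    B5a_good (A * B) := by
  intro i j
  rw [Matrix.mul_apply]
  exact Subring.sum_mem _ fun k _ => Subring.mul_mem _ (hA i k) (hB k j)

private theorem B5a_good_C {F : Type} [Field F] {n : Type} [Fintype n]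
    (A : Matrix n n F) : B5a_good (A.map (HahnSeries.C : F →+* LaurentSeries F)) := by
  intro i j
  exact B5a_C_mem _

private theorem B5a_good_diag {F : Type} [Field F] {n : Type} [Fintype n]
    (d : n → LaurentSeries F) (hd : ∀ i, d i ∈ B5a_S F) : B5a_good (Matrix.diagonal d) := by
  intro i j
  rw [Matrix.diagonal_apply]
  split_ifs
  · exact hd i
  · exact Subring.zero_mem _

/-- Constant matrices inside power series and inside Laurent series. -/
private theorem B5a_map_C {F : Type} [Field F] {n : Type} [Fintype n] (A : Matrix n n F) :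
    (A.map (PowerSeries.C : F →+* PowerSeries F)).map (HahnSeries.ofPowerSeries ℤ F) =
      A.map (HahnSeries.C : F →+* LaurentSeries F) := by
  ext1 i j
  exact HahnSeries.ofPowerSeries_C (Γ := ℤ) (A i j)

private theorem B5a_core {F : Type} [Field F] {n : Type} [Fintype n] (d : ℕ) :
    ∀ M₀ : Matrix n n (PowerSeries F), M₀.det.order = d →
    ∃ (A Ai : Matrix n n (LaurentSeries F)) (M : Matrix n n (PowerSeries F)),
      A * Ai = 1 ∧ Ai * A = 1 ∧ B5a_good A ∧ B5a_good Ai ∧
      M.map PowerSeries.constantCoeff = 1 ∧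
      A * M₀.map (HahnSeries.ofPowerSeries ℤ F) = M.map (HahnSeries.ofPowerSeries ℤ F) := by
  induction d with
  | zero =>
    intro M₀ h0
    have hc : PowerSeries.constantCoeff M₀.det ≠ 0 := by
      intro hz
      have h1 : PowerSeries.coeff 0 M₀.det ≠ 0 :=
        (PowerSeries.order_eq_nat.1 h0).1
      rw [PowerSeries.coeff_zero_eq_constantCoeff_apply] at h1
      exact h1 hz
    have hdet : (M₀.map PowerSeries.constantCoeff).det ≠ 0 := by
      have e := RingHom.map_det (PowerSeries.constantCoeff (R := F)) M₀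
      rw [RingHom.mapMatrix_apply] at e
      rw [← e]
      exact hc
    have hu : IsUnit (M₀.map PowerSeries.constantCoeff).det := isUnit_iff_ne_zero.2 hdet
    set K := M₀.map PowerSeries.constantCoeff with hK
    refine ⟨(K⁻¹).map (HahnSeries.C : F →+* LaurentSeries F),
      K.map (HahnSeries.C : F →+* LaurentSeries F),
      (K⁻¹).map (PowerSeries.C : F →+* PowerSeries F) * M₀, ?_, ?_, B5a_good_C _, B5a_good_C _, ?_, ?_⟩
    · rw [← Matrix.map_mul, Matrix.nonsing_inv_mul _ hu]
      exact Matrix.map_one _ (map_zero _) (map_one _)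
    · rw [← Matrix.map_mul, Matrix.mul_nonsing_inv _ hu]
      exact Matrix.map_one _ (map_zero _) (map_one _)
    · rw [Matrix.map_mul, Matrix.map_map]
      have e : (K⁻¹).map (PowerSeries.constantCoeff ∘ (PowerSeries.C : F →+* PowerSeries F)) = K⁻¹ := by
        ext i j
        simp
      rw [e, ← hK, Matrix.nonsing_inv_mul _ hu]
    · rw [Matrix.map_mul, B5a_map_C]
  | succ d ih =>
    intro M₀ h0
    have hc : PowerSeries.constantCoeff M₀.det = 0 := by
      have h1 : PowerSeries.coeff 0 M₀.det = 0 :=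
        (PowerSeries.order_eq_nat.1 h0).2 0 (Nat.succ_pos d)
      rwa [PowerSeries.coeff_zero_eq_constantCoeff_apply] at h1
    have hdet : (M₀.map PowerSeries.constantCoeff).det = 0 := by
      have e := RingHom.map_det (PowerSeries.constantCoeff (R := F)) M₀
      rw [RingHom.mapMatrix_apply] at e
      rw [← e]
      exact hc
    obtain ⟨c, hc0, hcv⟩ := Matrix.exists_vecMul_eq_zero_iff.2 hdet
    obtain ⟨r, hr⟩ := Function.ne_iff.1 hc0
    have hr' : c r ≠ 0 := hr
    set E : Matrix n n F := Matrix.updateRow 1 r c with hE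
    have hEdet : E.det = c r := by
      rw [hE]
      have := Matrix.det_updateRow_sum (1 : Matrix n n F) r c
      rw [Matrix.det_one, smul_eq_mul, mul_one] at this
      rw [← this]
      congr 1
      ext i j
      by_cases hi : i = r
      · subst hi
        rw [Matrix.updateRow_self, Matrix.updateRow_self]
        simp [Finset.sum_apply, Matrix.one_apply]
      · rw [Matrix.updateRow_ne hi, Matrix.updateRow_ne hi]
    have hEu : IsUnit E.det := by rw [hEdet]; exact isUnit_iff_ne_zero.2 hr'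
    set N : Matrix n n (PowerSeries F) := E.map (PowerSeries.C : F →+* PowerSeries F) * M₀ with hN
    have hNrow : ∀ j, PowerSeries.constantCoeff (N r j) = 0 := by
      intro j
      have e1 : N.map PowerSeries.constantCoeff = E * M₀.map PowerSeries.constantCoeff := by
        rw [hN, Matrix.map_mul, Matrix.map_map]
        congr 1
      have e2 : PowerSeries.constantCoeff (N r j) = (N.map PowerSeries.constantCoeff) r j := rfl
      rw [e2, e1, Matrix.mul_apply]
      have e3 : ∀ k, E r k = c k := by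
        intro k
        rw [hE, Matrix.updateRow_self]
      simp only [e3]
      have := congrFun hcv j
      exact this
    have hdiv : ∀ j, ∃ f : PowerSeries F, N r j = PowerSeries.X * f := by
      intro j
      exact PowerSeries.X_dvd_iff.2 (hNrow j)
    choose f hf using hdiv
    set M₁ : Matrix n n (PowerSeries F) := Matrix.updateRow N r f with hM₁
    set D : Matrix n n (PowerSeries F) := Matrix.diagonal (fun i => if i = r then PowerSeries.X else 1)
      with hD
    have hND : N = D * M₁ := by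
      ext1 i j
      rw [hD, Matrix.diagonal_mul]
      by_cases hi : i = r
      · subst hi
        rw [hM₁, Matrix.updateRow_self, if_pos rfl]
        exact hf j
      · rw [hM₁, Matrix.updateRow_ne hi, if_neg hi, one_mul]
    have hDdet : D.det = PowerSeries.X := by
      rw [hD, Matrix.det_diagonal, Finset.prod_ite_eq']
      simp
    have hCdet : (E.map (PowerSeries.C : F →+* PowerSeries F)).det = PowerSeries.C (c r) := by
      have e := RingHom.map_det (PowerSeries.C : F →+* PowerSeries F) E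
      rw [RingHom.mapMatrix_apply] at e
      rw [← e, hEdet]
    have hdetrel : PowerSeries.C (c r) * M₀.det = PowerSeries.X * M₁.det := by
      have h1 : N.det = PowerSeries.C (c r) * M₀.det := by rw [hN, Matrix.det_mul, hCdet]
      have h2 : N.det = PowerSeries.X * M₁.det := by rw [hND, Matrix.det_mul, hDdet]
      rw [← h1, h2]
    have hord : M₁.det.order = d := by
      rw [PowerSeries.order_eq_nat]
      have hcoef : ∀ m, PowerSeries.coeff m M₁.det = c r * PowerSeries.coeff (m + 1) M₀.det := by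
        intro m
        have h1 := congrArg (PowerSeries.coeff (m + 1)) hdetrel
        rw [PowerSeries.coeff_C_mul, PowerSeries.coeff_succ_X_mul] at h1
        exact h1.symm
      obtain ⟨h1, h2⟩ := PowerSeries.order_eq_nat.1 h0
      refine ⟨?_, fun m hm => ?_⟩
      · rw [hcoef]
        exact mul_ne_zero hr' h1
      · rw [hcoef, h2 (m + 1) (by omega), mul_zero]
    obtain ⟨A₁, Ai₁, M, a1, a2, a3, a4, a5, a6⟩ := ih M₁ hord
    set Dl : Matrix n n (LaurentSeries F) :=
      Matrix.diagonal (fun i => if i = r then HahnSeries.single (1 : ℤ) 1 else 1) with hDl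
    set Dli : Matrix n n (LaurentSeries F) :=
      Matrix.diagonal (fun i => if i = r then HahnSeries.single (-1 : ℤ) 1 else 1) with hDli
    have hDD : Dl * Dli = 1 := by
      rw [hDl, hDli, Matrix.diagonal_mul_diagonal, ← Matrix.diagonal_one]
      congr 1
      ext1 i
      split_ifs
      · exact B5a_TTi
      · exact mul_one _
    have hDD' : Dli * Dl = 1 := by
      rw [hDl, hDli, Matrix.diagonal_mul_diagonal, ← Matrix.diagonal_one]
      congr 1
      ext1 i
      split_ifs
      · rw [mul_comm]; exact B5a_TTi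
      · exact mul_one _
    have hDmap : D.map (HahnSeries.ofPowerSeries ℤ F) = Dl := by
      rw [hD, hDl, Matrix.diagonal_map (map_zero _)]
      congr 1
      ext1 i
      by_cases hi : i = r
      · rw [if_pos hi, if_pos hi]
        exact HahnSeries.ofPowerSeries_X
      · rw [if_neg hi, if_neg hi]
        exact map_one _
    set El' := E.map (HahnSeries.C : F →+* LaurentSeries F) with hEl'
    set Eli := (E⁻¹).map (HahnSeries.C : F →+* LaurentSeries F) with hEli
    have hEE : El' * Eli = 1 := by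
      rw [hEl', hEli, ← Matrix.map_mul, Matrix.mul_nonsing_inv _ hEu]
      exact Matrix.map_one _ (map_zero _) (map_one _)
    have hEE' : Eli * El' = 1 := by
      rw [hEl', hEli, ← Matrix.map_mul, Matrix.nonsing_inv_mul _ hEu]
      exact Matrix.map_one _ (map_zero _) (map_one _)
    refine ⟨A₁ * (Dli * El'), Eli * Dl * Ai₁, M, ?_, ?_, ?_, ?_, a5, ?_⟩
    · calc A₁ * (Dli * El') * (Eli * Dl * Ai₁)
          = A₁ * (Dli * (El' * Eli) * Dl) * Ai₁ := by simp only [Matrix.mul_assoc]
        _ = 1 := by rw [hEE, Matrix.mul_one, hDD', Matrix.mul_one, a1]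
    · calc Eli * Dl * Ai₁ * (A₁ * (Dli * El'))
          = Eli * (Dl * (Ai₁ * A₁) * Dli) * El' := by simp only [Matrix.mul_assoc]
        _ = 1 := by rw [a2, Matrix.mul_one, hDD, Matrix.mul_one, hEE']
    · refine B5a_good_mul a3 (B5a_good_mul ?_ (B5a_good_C _))
      apply B5a_good_diag
      intro i
      split_ifs
      · exact B5a_Ti_mem
      · exact Subring.one_mem _
    · refine B5a_good_mul (B5a_good_mul (B5a_good_C _) ?_) a4
      apply B5a_good_diag
      intro i
      split_ifs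
      · exact B5a_T_mem
      · exact Subring.one_mem _
    · have e1 : El' * M₀.map (HahnSeries.ofPowerSeries ℤ F) =
          Dl * M₁.map (HahnSeries.ofPowerSeries ℤ F) := by
        rw [← hDmap, ← Matrix.map_mul, ← hND, hN, Matrix.map_mul, B5a_map_C]
      calc A₁ * (Dli * El') * M₀.map (HahnSeries.ofPowerSeries ℤ F)
          = A₁ * (Dli * (El' * M₀.map (HahnSeries.ofPowerSeries ℤ F))) := by
            simp only [Matrix.mul_assoc]
        _ = A₁ * ((Dli * Dl) * M₁.map (HahnSeries.ofPowerSeries ℤ F)) := by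
            rw [e1]; simp only [Matrix.mul_assoc]
        _ = M.map (HahnSeries.ofPowerSeries ℤ F) := by rw [hDD', Matrix.one_mul, a6]

private theorem B5a_clear {F : Type} [Field F] (x : LaurentSeries F) :
    ∃ k : ℕ, ∀ K : ℕ, k ≤ K → ∃ f : PowerSeries F,
      (HahnSeries.single (K : ℤ) (1 : F) : LaurentSeries F) * x = HahnSeries.ofPowerSeries ℤ F f := by
  refine ⟨(-x.order).toNat, fun K hK => ?_⟩
  have h1 : 0 ≤ (K : ℤ) + x.order := by
    have : -x.order ≤ ((-x.order).toNat : ℤ) := Int.self_le_toNat _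
    have h2 : (((-x.order).toNat : ℕ) : ℤ) ≤ (K : ℤ) := by exact_mod_cast hK
    linarith
  obtain ⟨m, hm⟩ := Int.eq_ofNat_of_zero_le h1
  refine ⟨PowerSeries.X ^ m * x.powerSeriesPart, ?_⟩
  rw [map_mul, HahnSeries.ofPowerSeries_X_pow]
  conv_lhs => rw [← LaurentSeries.single_order_mul_powerSeriesPart x]
  rw [← mul_assoc, HahnSeries.single_mul_single, mul_one, hm]

theorem exists_LR {F : Type} [Field F] {n : Type} [Fintype n] (g gi : Matrix n n (LaurentSeries F))
    (h : g * gi = 1) :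
    ∃ (A Ai : Matrix n n (LaurentSeries F)) (M : Matrix n n (PowerSeries F)),
      A * Ai = 1 ∧ Ai * A = 1 ∧
      (∀ i j, ∃ N : ℕ, ∀ m : ℤ, (N : ℤ) < m → (A i j).coeff m = 0 ∧ (Ai i j).coeff m = 0) ∧
      M.map PowerSeries.constantCoeff = 1 ∧ A * g = M.map (HahnSeries.ofPowerSeries ℤ F) := by
  choose k hk using fun p : n × n => B5a_clear (g p.1 p.2)
  set K : ℕ := Finset.univ.sup k with hK
  have hall : ∀ i j, ∃ f : PowerSeries F,
      (HahnSeries.single (K : ℤ) (1 : F) : LaurentSeries F) * g i j =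
        HahnSeries.ofPowerSeries ℤ F f := by
    intro i j
    exact hk (i, j) K (Finset.le_sup (f := k) (Finset.mem_univ (i, j)))
  choose f hf using hall
  set M₀ : Matrix n n (PowerSeries F) := Matrix.of f with hM₀
  set τ : LaurentSeries F := HahnSeries.single (K : ℤ) (1 : F) with hτ
  set τi : LaurentSeries F := HahnSeries.single (-(K : ℤ)) (1 : F) with hτi
  have hττ : τ * τi = 1 := by
    rw [hτ, hτi, HahnSeries.single_mul_single]
    simp
  have hM₀g : M₀.map (HahnSeries.ofPowerSeries ℤ F) = τ • g := by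
    ext1 i j
    rw [Matrix.map_apply, hM₀, Matrix.of_apply, Matrix.smul_apply, smul_eq_mul, ← hf]
  have hdet : M₀.det ≠ 0 := by
    intro hz
    have e := RingHom.map_det (HahnSeries.ofPowerSeries ℤ F) M₀
    rw [RingHom.mapMatrix_apply, hM₀g, hz, map_zero, Matrix.det_smul] at e
    have h2 : g.det * gi.det = 1 := by rw [← Matrix.det_mul, h, Matrix.det_one]
    have hg : g.det ≠ 0 := left_ne_zero_of_mul_eq_one h2
    have ht : τ ≠ 0 := left_ne_zero_of_mul_eq_one hττ
    exact mul_ne_zero (pow_ne_zero _ ht) hg e.symm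
  obtain ⟨d, hd⟩ : ∃ d : ℕ, M₀.det.order = d := by
    have : M₀.det.order ≠ ⊤ := fun hh => hdet (PowerSeries.order_eq_top.1 hh)
    obtain ⟨d, hd⟩ := ENat.ne_top_iff_exists.1 this
    exact ⟨d, hd.symm⟩
  obtain ⟨A, Ai, M, a1, a2, a3, a4, a5, a6⟩ := B5a_core d M₀ hd
  have hT : τ ∈ B5a_S F := by
    refine ⟨0, X ^ K, ?_⟩
    rw [Polynomial.coe_pow, Polynomial.coe_X, HahnSeries.ofPowerSeries_X_pow, hτ]
    simp
  have hTi : τi ∈ B5a_S F := by
    refine ⟨K, 1, ?_⟩
    have e1 : HahnSeries.ofPowerSeries ℤ F ((1 : F[X]) : PowerSeries F) = 1 := by simp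
    rw [e1]
    exact hττ
  refine ⟨τ • A, τi • Ai, M, ?_, ?_, ?_, a5, ?_⟩
  · rw [Matrix.smul_mul, Matrix.mul_smul, smul_smul, hττ, one_smul, a1]
  · rw [Matrix.smul_mul, Matrix.mul_smul, smul_smul, mul_comm τi τ, hττ, one_smul, a2]
  · intro i j
    have h1 : (τ • A) i j ∈ B5a_S F := by
      rw [Matrix.smul_apply, smul_eq_mul]
      exact Subring.mul_mem _ hT (a3 i j)
    have h2 : (τi • Ai) i j ∈ B5a_S F := by
      rw [Matrix.smul_apply, smul_eq_mul]
      exact Subring.mul_mem _ hTi (a4 i j)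
    obtain ⟨N1, hN1⟩ := B5a_bd h1
    obtain ⟨N2, hN2⟩ := B5a_bd h2
    refine ⟨max N1 N2, fun m hm => ⟨hN1 m ?_, hN2 m ?_⟩⟩
    · exact lt_of_le_of_lt (by exact_mod_cast le_max_left N1 N2) hm
    · exact lt_of_le_of_lt (by exact_mod_cast le_max_right N1 N2) hm
  · rw [Matrix.smul_mul, ← Matrix.mul_smul, ← hM₀g, a6]

end

end Pool.Agent.MP_1c8e06_ag.AJ
end

section

set_option autoImplicit false

open Polynomial
open scoped Classical

namespace Pool.Agent.MP_1c8e06_ag.AJ

noncomputable section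

/-!
# Task B5b: factorisation in `GL_n(κ((s))((t)))`

Proof.  `exists_LR` with `F = κ((s))`: `A * g = M^`, `M ≡ 1 mod t`; the entries of `A, Ai` have finitely many
coefficients in `t`, each in `κ((s))`, so they lie in `BL κ`.  `AI.exists_factor M` (note
`AI.AA κ = PowerSeries (LaurentSeries κ)`): `V` over `κ[[s]][[t]]`, `U₀` over `κ[X][[t]]` with
`minus V * M = plus U₀`, both `≡ 1 mod t`; `AI.exists_inv` for `V`, `U₀`.  Let
`V^ := mapL ofPowerSeries (ofPowerSeries V)`: entries in `BL κ` (bound `0`), `W := V^ * A`,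
`Wi := Ai * V^⁻¹`, `U := ofPowerSeries U₀`.  `W * g = V^ * M^ = (minus V * M)^ = (plus U₀)^ = jP U`.
(`HahnSeries.ofPowerSeries` commutes with `PowerSeries.map` / `AI.mapL`: coefficients.)
-/

private theorem B5b_coeff {R : Type} [CommRing R] (f : PowerSeries R) (n : ℤ) :
    (HahnSeries.ofPowerSeries ℤ R f).coeff n = if 0 ≤ n then PowerSeries.coeff n.toNat f else 0 := by
  split_ifs with h
  · obtain ⟨k, rfl⟩ := Int.eq_ofNat_of_zero_le h
    simp
  · rw [HahnSeries.ofPowerSeries_apply, HahnSeries.embDomain_of_notMem_range]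
    rintro ⟨k, hk⟩
    simp at hk
    omega

private theorem B5b_mem {κ : Type} [Field κ] (a : AL κ)
    (h : ∃ N : ℕ, ∀ m : ℤ, (N : ℤ) < m → a.coeff m = 0) : a ∈ BL κ := by
  obtain ⟨N, hN⟩ := h
  refine ⟨∑ n ∈ Finset.Icc a.order (N : ℤ), (-(a.coeff n).order).toNat, fun n m hm => ?_⟩
  by_cases h1 : n < a.order
  · rw [HahnSeries.coeff_eq_zero_of_lt_order h1, HahnSeries.coeff_zero]
  by_cases h2 : (N : ℤ) < n
  · rw [hN n h2, HahnSeries.coeff_zero]
  apply HahnSeries.coeff_eq_zero_of_lt_order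
  have h3 : (-(a.coeff n).order).toNat ≤
      ∑ n ∈ Finset.Icc a.order (N : ℤ), (-(a.coeff n).order).toNat :=
    Finset.single_le_sum (f := fun n => (-(a.coeff n).order).toNat) (fun _ _ => Nat.zero_le _)
      (Finset.mem_Icc.2 ⟨by omega, by omega⟩)
  omega

/-- `κ[[s]][[t]] → κ((s))((t))` -/
private def B5bh (κ : Type) [Field κ] : PowerSeries (PowerSeries κ) →+* AL κ :=
  (HahnSeries.ofPowerSeries ℤ (LaurentSeries κ)).comp (AI.minus κ)

private theorem B5bh_mem (κ : Type) [Field κ] (f : PowerSeries (PowerSeries κ)) :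
    B5bh κ f ∈ BL κ := by
  refine ⟨0, fun n m hm => ?_⟩
  show ((HahnSeries.ofPowerSeries ℤ (LaurentSeries κ) (AI.minus κ f)).coeff n).coeff m = 0
  rw [B5b_coeff]
  split_ifs with h
  · show (HahnSeries.ofPowerSeries ℤ κ (PowerSeries.coeff n.toNat f)).coeff m = 0
    rw [B5b_coeff, if_neg (by push_cast at hm; omega)]
  · rfl

/-- `κ[[s]][[t]] → BL κ` -/
private def B5bB (κ : Type) [Field κ] : PowerSeries (PowerSeries κ) →+* BL κ :=
  (B5bh κ).codRestrict (BL κ) (B5bh_mem κ)

private theorem B5b_jP (κ : Type) [Field κ] (u : PowerSeries κ[X]) :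
    jP κ (HahnSeries.ofPowerSeries ℤ κ[X] u) =
      HahnSeries.ofPowerSeries ℤ (LaurentSeries κ) (AI.plus κ u) := by
  refine HahnSeries.ext (funext fun n => ?_)
  show AI.zinv κ ((HahnSeries.ofPowerSeries ℤ κ[X] u).coeff n) = _
  rw [B5b_coeff, B5b_coeff]
  split_ifs with h
  · show _ = PowerSeries.coeff n.toNat (PowerSeries.map (AI.zinv κ) u)
    rw [PowerSeries.coeff_map]
  · exact map_zero _

theorem exists_FAL {κ : Type} [Field κ] {G : Type} [Fintype G] (g gi : Matrix G G (AL κ))
    (h : g * gi = 1) :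
    ∃ (W Wi : Matrix G G (BL κ)) (U Ui : Matrix G G (LaurentSeries κ[X])),
      W * Wi = 1 ∧ Wi * W = 1 ∧ U * Ui = 1 ∧ Ui * U = 1 ∧
      W.map (BL κ).subtype * g = U.map (jP κ) := by
  obtain ⟨A, Ai, M, hA1, hA2, hbd, hM, hAg⟩ := exists_LR g gi h
  obtain ⟨V, U₀, hV, hU, hVM⟩ := AI.exists_factor M hM
  obtain ⟨V', hV1, hV2⟩ := AI.exists_inv V hV
  obtain ⟨U', hU1, hU2⟩ := AI.exists_inv U₀ hU
  obtain ⟨AB, hAB⟩ : ∃ AB : Matrix G G (BL κ), AB.map (BL κ).subtype = A := by
    refine ⟨Matrix.of fun i j => ⟨A i j, B5b_mem _ ?_⟩, ?_⟩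
    · obtain ⟨N, hN⟩ := hbd i j
      exact ⟨N, fun m hm => (hN m hm).1⟩
    · refine Matrix.ext fun i j => ?_
      rfl
  obtain ⟨AiB, hAiB⟩ : ∃ AiB : Matrix G G (BL κ), AiB.map (BL κ).subtype = Ai := by
    refine ⟨Matrix.of fun i j => ⟨Ai i j, B5b_mem _ ?_⟩, ?_⟩
    · obtain ⟨N, hN⟩ := hbd i j
      exact ⟨N, fun m hm => (hN m hm).2⟩
    · refine Matrix.ext fun i j => ?_
      rfl
  have hinj : Function.Injective (fun X : Matrix G G (BL κ) => X.map (BL κ).subtype) := by
    intro X Y hXY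
    refine Matrix.ext fun i j => ?_
    have h1 := congrFun (congrFun hXY i) j
    exact Subtype.ext h1
  have hB1 : AB * AiB = 1 := by
    apply hinj
    show (AB * AiB).map (BL κ).subtype = (1 : Matrix G G (BL κ)).map (BL κ).subtype
    rw [Matrix.map_mul, hAB, hAiB, hA1, Matrix.map_one _ (map_zero _) (map_one _)]
  have hB2 : AiB * AB = 1 := by
    apply hinj
    show (AiB * AB).map (BL κ).subtype = (1 : Matrix G G (BL κ)).map (BL κ).subtype
    rw [Matrix.map_mul, hAB, hAiB, hA2, Matrix.map_one _ (map_zero _) (map_one _)]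
  have hVV1 : V.map (B5bB κ) * V'.map (B5bB κ) = 1 := by
    rw [← Matrix.map_mul, hV1, Matrix.map_one _ (map_zero _) (map_one _)]
  have hVV2 : V'.map (B5bB κ) * V.map (B5bB κ) = 1 := by
    rw [← Matrix.map_mul, hV2, Matrix.map_one _ (map_zero _) (map_one _)]
  refine ⟨V.map (B5bB κ) * AB, AiB * V'.map (B5bB κ), U₀.map (HahnSeries.ofPowerSeries ℤ κ[X]),
    U'.map (HahnSeries.ofPowerSeries ℤ κ[X]), ?_, ?_, ?_, ?_, ?_⟩
  · rw [Matrix.mul_assoc, ← Matrix.mul_assoc AB, hB1, Matrix.one_mul, hVV1]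
  · rw [Matrix.mul_assoc, ← Matrix.mul_assoc (V'.map (B5bB κ)), hVV2, Matrix.one_mul, hB2]
  · rw [← Matrix.map_mul, hU1, Matrix.map_one _ (map_zero _) (map_one _)]
  · rw [← Matrix.map_mul, hU2, Matrix.map_one _ (map_zero _) (map_one _)]
  · have h1 : (V.map (B5bB κ)).map (BL κ).subtype = V.map (B5bh κ) := by
      refine Matrix.ext fun i j => ?_
      rfl
    rw [Matrix.map_mul, hAB, h1, Matrix.mul_assoc, hAg]
    have h2 : V.map (B5bh κ) =
        (V.map (AI.minus κ)).map (HahnSeries.ofPowerSeries ℤ (LaurentSeries κ)) := by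
      refine Matrix.ext fun i j => ?_
      rfl
    rw [h2, ← Matrix.map_mul]
    have h3 : V.map (AI.minus κ) * M = U₀.map (AI.plus κ) := hVM
    rw [h3]
    refine Matrix.ext fun i j => ?_
    exact (B5b_jP κ (U₀ i j)).symm

end

end Pool.Agent.MP_1c8e06_ag.AJ
end

section

set_option autoImplicit false

open Polynomial
open scoped Classical

namespace Pool.Agent.MP_1c8e06_ag.AJ

noncomputable section

/-!
# Task B6: the gluing step

`C` : the outer cover, over `B₀` (polynomials), seen at infinity; `Cβ` : the same cover seen on the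
annulus (same constants, other values); `D₁` : the cover of the disc.
Proof.
1. `D₁L : GD (i.comp j) (oL S₁) (actL S₁)` := `D₁.push` with `φ := (HahnSeries.C).comp (zinv)`,
   `ψ := HahnSeries.C`: values `HahnSeries.C (D₁.b l x)`.  `GD.compare Cβ D₁L` (`oL_injective`, `actL_oL`,
   `fixedL`): `g, gi` over `AL κ` with `Cβ.b l x = ∑ oL (g l m) * C (D₁.b m x)`.
2. `exists_FAL g gi`: `W, Wi, U, Ui`, `W g = U`.
3. `C_B : GD i sw act` := `C.push` with `φ := β`, `ψ := id`; `exists_chb` with `W, Wi`: `C_W`, constants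
   `k₁ := (C.k.map β).chb W Wi`, values `∑ sw (W l m) * C.b m x`.
4. `exists_chb` for `Cβ` and the images of `W, Wi` in `AL κ`: `Cβ_W`, constants
   `Cβ.k.chb .. = k₁.map coe` (`hk`, `Ks.chb_map`, `Ks.map_map`), values `∑ oL (W l m) * Cβ.b m x`.
5. `D₁P` := `D₁.push` with `B' := LaurentSeries κ[X]`, `φ := HahnSeries.C`, `ψ := HahnSeries.C`,
   `ze' := (oL S₁).comp (jP κ)` (`jP (C f) = C (zinv f)`); `exists_chb` with `U, Ui`, constants `k₂`; push to
   the base `AL κ` along `jP`: constants `k₂.map jP`, values `∑ oL (jP (U l m)) * C (D₁.b m x)`; these values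
   are those of `Cβ_W` as `W g = U`.  `GD.uniq`: `k₁.map coe = k₂.map jP`.
6. So every constant `a : BL κ` of `k₁` satisfies `(a : AL κ) = jP b`, hence `a = β c` by `hcap`: there is
   `k' : Ks B₀ G` with `k'.map β = k₁` (choose).  `C' := { b := C_W.b, k := k', .. }`: the axioms are those of
   `C_W` (`sw (k₁.μ ..) = sw (β (k'.μ ..))`).  `Cβ' := Cβ_W`.
-/

private theorem B6_ext {B : Type} {G : Type} {k k' : Ks B G}
    (h1 : ∀ i j l, k.μ i j l = k'.μ i j l) (h2 : ∀ h l m, k.α h l m = k'.α h l m)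
    (h3 : ∀ l, k.ν l = k'.ν l) (h4 : ∀ i j, k.T i j = k'.T i j)
    (h5 : ∀ i j, k.T' i j = k'.T' i j) : k = k' := by
  cases k
  cases k'
  simp only [Ks.mk.injEq]
  exact ⟨funext fun i => funext fun j => funext fun l => h1 i j l,
    funext fun i => funext fun j => funext fun l => h2 i j l, funext h3,
    funext fun i => funext fun j => h4 i j, funext fun i => funext fun j => h5 i j⟩

private theorem B6_mapL_C {R R' : Type} [CommRing R] [CommRing R'] (φ : R →+* R') (c : R) :
    AI.mapL φ (HahnSeries.C c) = HahnSeries.C (φ c) := by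
  ext n
  rw [AI.mapL_coeff, HahnSeries.C_apply, HahnSeries.C_apply, HahnSeries.coeff_single,
    HahnSeries.coeff_single]
  split_ifs <;> simp

theorem glue_step {κ : Type} [Field κ] {G : Type} [Group G] [Fintype G] {P I : Type} [Group P]
    [Fintype P] [Group I] [Fintype I] (i : P →* G) (j : I →* P) {B₀ : Type} [CommRing B₀]
    (β : B₀ →+* BL κ)
    (hcap : ∀ (a : BL κ) (b : LaurentSeries κ[X]), (a : AL κ) = jP κ b → ∃ c, β c = a)
    {A : Type} [CommRing A] (sw : BL κ →+* A) (act : P →* (A →+* A))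
    (hsw : ∀ u a, act u (sw a) = sw a) (C : GD i (sw.comp β) act) (S₁ : SC κ[X] I)
    (Cβ : GD (i.comp j) (oL S₁) (actL S₁)) (hk : Cβ.k = C.k.map (fun b => ((β b : BL κ) : AL κ)))
    (D₁ : GD (i.comp j) (zeE S₁) (actE S₁)) :
    ∃ (W Wi : Matrix G G (BL κ)) (U Ui : Matrix G G (LaurentSeries κ[X]))
      (C' : GD i (sw.comp β) act) (Cβ' : GD (i.comp j) (oL S₁) (actL S₁)),
      W * Wi = 1 ∧ Wi * W = 1 ∧ U * Ui = 1 ∧ Ui * U = 1 ∧
      C'.k.map β = (C.k.map β).chb W Wi ∧
      (∀ l x, C'.b l x = ∑ m, sw (W l m) * C.b m x) ∧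
      Cβ'.k = C'.k.map (fun b => ((β b : BL κ) : AL κ)) ∧
      (∀ l x, Cβ'.b l x = ∑ m, oL S₁ (W l m : AL κ) * Cβ.b m x) ∧
      (∀ l x, Cβ'.b l x = ∑ m, oL S₁ (jP κ (U l m)) * HahnSeries.C (D₁.b m x)) := by
  -- step 1
  let D₁L : GD (i.comp j) (oL S₁) (actL S₁) :=
    D₁.push ((HahnSeries.C : LaurentSeries κ →+* AL κ).comp (AI.zinv κ))
      (HahnSeries.C : El S₁ →+* LaurentSeries (El S₁)) (MonoidHom.id I) (i.comp j) (fun _ => rfl)
      (oL S₁) (actL S₁) (fun b => (B6_mapL_C (oE S₁) (AI.zinv κ b)).symm)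
      (fun u a => (B6_mapL_C (actE S₁ u) a).symm)
  have hD₁L : ∀ l x, D₁L.b l x = HahnSeries.C (D₁.b l x) := fun l x => rfl
  obtain ⟨g, gi, hg1, hg2, hgb, hgb'⟩ := Cβ.compare D₁L (oL_injective S₁) (actL_oL S₁) (fixedL S₁)
  -- step 2
  obtain ⟨W, Wi, U, Ui, hW1, hW2, hU1, hU2, hWg⟩ := exists_FAL g gi hg1
  -- step 3
  let C_B : GD i sw act := C.push β (RingHom.id A) (MonoidHom.id P) i (fun _ => rfl) sw act
    (fun _ => rfl) (fun _ _ => rfl)
  obtain ⟨CW, hCWk, hCWb⟩ := C_B.exists_chb hsw W Wi hW1 hW2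
  -- step 4
  have hW1' : W.map (BL κ).subtype * Wi.map (BL κ).subtype = 1 := by
    rw [← Matrix.map_mul, hW1, Matrix.map_one _ (map_zero _) (map_one _)]
  have hW2' : Wi.map (BL κ).subtype * W.map (BL κ).subtype = 1 := by
    rw [← Matrix.map_mul, hW2, Matrix.map_one _ (map_zero _) (map_one _)]
  obtain ⟨CV, hCVk, hCVb⟩ := Cβ.exists_chb (actL_oL S₁) (W.map (BL κ).subtype)
    (Wi.map (BL κ).subtype) hW1' hW2'
  have hk1 : CV.k = CW.k.map (BL κ).subtype := by
    rw [hCVk, hCWk, Ks.chb_map, hk]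
    rfl
  -- step 5
  let D₁P : GD (i.comp j) ((oL S₁).comp (jP κ)) (actL S₁) :=
    D₁.push (HahnSeries.C : κ[X] →+* LaurentSeries κ[X])
      (HahnSeries.C : El S₁ →+* LaurentSeries (El S₁)) (MonoidHom.id I) (i.comp j) (fun _ => rfl)
      ((oL S₁).comp (jP κ)) (actL S₁)
      (fun b => by
        rw [RingHom.comp_apply, jP, B6_mapL_C, oL, B6_mapL_C]
        rfl)
      (fun u a => (B6_mapL_C (actE S₁ u) a).symm)
  obtain ⟨DU, hDUk, hDUb⟩ := D₁P.exists_chb (fun u b => actL_oL S₁ u (jP κ b)) U Ui hU1 hU2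
  let DV : GD (i.comp j) (oL S₁) (actL S₁) := DU.push (jP κ) (RingHom.id _) (MonoidHom.id I)
    (i.comp j) (fun _ => rfl) (oL S₁) (actL S₁) (fun _ => rfl) (fun _ _ => rfl)
  have hDVb : ∀ l x, DV.b l x = ∑ m, oL S₁ (jP κ (U l m)) * HahnSeries.C (D₁.b m x) :=
    fun l x => hDUb l x
  have hval : ∀ l x, CV.b l x = ∑ m, oL S₁ (jP κ (U l m)) * HahnSeries.C (D₁.b m x) := by
    intro l x
    rw [hCVb]
    have h1 : ∀ m, oL S₁ ((W.map (BL κ).subtype) l m) * Cβ.b m x =
        ∑ n, oL S₁ ((W.map (BL κ).subtype) l m * g m n) * HahnSeries.C (D₁.b n x) := by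
      intro m
      rw [hgb, Finset.mul_sum]
      refine Finset.sum_congr rfl fun n _ => ?_
      rw [hD₁L, map_mul, mul_assoc]
    rw [Finset.sum_congr rfl fun m _ => h1 m, Finset.sum_comm]
    refine Finset.sum_congr rfl fun n _ => ?_
    rw [← Finset.sum_mul, ← map_sum]
    have h2 : (W.map (BL κ).subtype * g) l n = (U.map (jP κ)) l n := by rw [hWg]
    rw [Matrix.mul_apply, Matrix.map_apply] at h2
    rw [h2]
  have hkk : CV.k = DV.k := CV.uniq DV (oL_injective S₁) fun l x => by rw [hval, hDVb]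
  have hk2 : CW.k.map (BL κ).subtype = DU.k.map (jP κ) := by
    rw [← hk1, hkk]
    rfl
  -- step 6
  have hμ : ∀ a b c, ∃ y, β y = CW.k.μ a b c := fun a b c =>
    hcap _ (DU.k.μ a b c) (congrFun (congrFun (congrFun (congrArg Ks.μ hk2) a) b) c)
  have hα : ∀ a b c, ∃ y, β y = CW.k.α a b c := fun a b c =>
    hcap _ (DU.k.α a b c) (congrFun (congrFun (congrFun (congrArg Ks.α hk2) a) b) c)
  have hν : ∀ a, ∃ y, β y = CW.k.ν a := fun a =>
    hcap _ (DU.k.ν a) (congrFun (congrArg Ks.ν hk2) a)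
  have hT : ∀ a b, ∃ y, β y = CW.k.T a b := fun a b =>
    hcap _ (DU.k.T a b) (congrFun (congrFun (congrArg Ks.T hk2) a) b)
  have hT' : ∀ a b, ∃ y, β y = CW.k.T' a b := fun a b =>
    hcap _ (DU.k.T' a b) (congrFun (congrFun (congrArg Ks.T' hk2) a) b)
  choose μ' hμ' using hμ
  choose α' hα' using hα
  choose ν' hν' using hν
  choose T₁ hT₁ using hT
  choose T₂ hT₂ using hT'
  let k' : Ks B₀ G := ⟨μ', α', ν', T₁, T₂⟩
  have hk' : k'.map β = CW.k := B6_ext hμ' hα' hν' hT₁ hT₂
  let C' : GD i (sw.comp β) act :=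
    { b := CW.b
      k := k'
      hP := CW.hP
      hmul := fun a b x => by
        rw [CW.hmul]
        refine Finset.sum_congr rfl fun m _ => ?_
        rw [RingHom.comp_apply]
        exact congrArg (fun y => sw y * CW.b m x) (hμ' a b m).symm
      hact := fun h l x => by
        rw [CW.hact]
        refine Finset.sum_congr rfl fun m _ => ?_
        rw [RingHom.comp_apply]
        exact congrArg (fun y => sw y * CW.b m x) (hα' h l m).symm
      hone := fun x => by
        rw [← CW.hone x]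
        refine Finset.sum_congr rfl fun m _ => ?_
        rw [RingHom.comp_apply]
        exact congrArg (fun y => sw y * CW.b m x) (hν' m)
      htr := fun a b => by
        rw [CW.htr, RingHom.comp_apply]
        exact congrArg sw (hT₁ a b).symm
      hdual := fun x x' => by
        rw [← CW.hdual x x']
        refine Finset.sum_congr rfl fun l _ => Finset.sum_congr rfl fun m _ => ?_
        rw [RingHom.comp_apply]
        exact congrArg (fun y => CW.b l x * sw y * CW.b m x') (hT₂ l m) }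
  refine ⟨W, Wi, U, Ui, C', CV, hW1, hW2, hU1, hU2, ?_, ?_, ?_, ?_, hval⟩
  · rw [show C'.k = k' from rfl, hk', hCWk]
    rfl
  · intro l x
    exact hCWb l x
  · rw [hk1, ← hk', Ks.map_map]
    rfl
  · intro l x
    exact hCVb l x

end

end Pool.Agent.MP_1c8e06_ag.AJ
end
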