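import Pool.Agent.Lib.MP_1c8e06_ag.AJ.B2
import Pool.Agent.Lib.MP_1c8e06_ag.Mg.G090
import Pool.Agent.Lib.MP_1c8e06_ag.Mg.G047
import Pool.Agent.Lib.MP_1c8e06_ag.Mg.G049
import Pool.Agent.Lib.MP_1c8e06_ag.Mg.G050

section

set_option autoImplicit false

open Polynomial
open scoped Classical

namespace Pool.Agent.MP_1c8e06_ag.AJ

noncomputable section

/-!
# Task B4: functions which are regular outside two disjoint discs

Proof.  `K := κ((t))`.  Let `a_m ∈ K` be the coefficients of `sw a`, `b_m` those of `sw b`; by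
`hsw`, all coefficients below `-c` (in `t`) of all `a_m`, `b_m` vanish, for some `c : ℕ` (order of `a`, `b` in `t`).
Reduction.  Let `f := ∑_{m ≥ 0} C a_{-m} X^m` (finite).  `sw (a - iB f)` has only the powers `s^m`, `m ≥ 1`
(`swL_facts`).  `σ (zinv (trP f)) = zinv f`: ring homomorphisms in `f`: `C c`, and for `X`:
`zinv (X + C t⁻¹) = s⁻¹ + t⁻¹`, `σ (s⁻¹) = w₀⁻¹ = zinv (X - C t⁻¹) = s⁻¹ - t⁻¹`.  So with `a' := a - iB f`,
`b' := b - iB (trP f)`: `sw a' = σ (sw b')`.  By `hσ3` also `sw b'` has order `≥ 1` (or is `0`).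
It remains to show `a' = 0`, `b' = 0` (`sw` injective).  Rename them `a, b`; put again `a_m, b_m`, `m ≥ 1`.
`w₀ = s (1 - t⁻¹ s)⁻¹`, `w₀^j = ∑_{m ≥ j} (m-1 choose j-1) t^(j-m) s^m` for `j ≥ 1`.  By `hσ3` (continuity:
`σ (b - ∑_{j ≤ m} b_j s^j)` has order `> m`):
`a_m = ∑_{1 ≤ j ≤ m} (m-1 choose j-1) t^(j-m) b_j`.
Fix `r : ℤ`.  The coefficient of `t^r` in `t^m a_m = ∑_j (m-1 choose j-1) t^j b_j` is
`(a_m)_{r-m} = ∑_{1 ≤ j ≤ m} (m-1 choose j-1) q_j`, `q_j := (b_j)_{r-j}`.  The left side is `0` for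
`m > r + c`, and `q_j = 0` for `j > r + c`.  So with `J := r + c` (if `J ≤ 0` nothing to do):
`∑_{j=1}^J (m-1 choose j-1) q_j = 0` for all `m > J`.  Claim: all `q_j = 0`.  Downward induction on the
largest `j` with `q_j ≠ 0`: taking `j-1` times the difference in `m` (`(m choose i+1) - (m-1 choose i+1) =
(m-1 choose i)`) of the relation `∑_{i=1}^{j} (m-1 choose i-1) q_i = 0` gives `q_j = 0`.  (Or: the matrix
`(J + i choose j)` is invertible over the integers.)
Hence all `b_j = 0`, so `b = 0`, `a = 0`.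
-/

theorem B4_binom {κ : Type} [Field κ] (M : ℕ) : ∀ (J : ℕ) (q : ℕ → κ),
    (∀ m, M ≤ m → ∑ i ∈ Finset.range J, (m.choose i : κ) * q i = 0) → ∀ i < J, q i = 0 := by
  intro J
  induction J with
  | zero =>
    intro q _ i hi
    exact absurd hi (Nat.not_lt_zero _)
  | succ J ih =>
    intro q hq
    have h1 : ∀ m, M ≤ m → ∑ i ∈ Finset.range J, (m.choose i : κ) * q (i + 1) = 0 := by
      intro m hm
      have e1 := hq (m + 1) (by omega)
      have e2 := hq m hm
      rw [Finset.sum_range_succ'] at e1 e2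
      have e3 : ∑ i ∈ Finset.range J, ((m + 1).choose (i + 1) : κ) * q (i + 1) =
          ∑ i ∈ Finset.range J, (m.choose i : κ) * q (i + 1) +
          ∑ i ∈ Finset.range J, (m.choose (i + 1) : κ) * q (i + 1) := by
        rw [← Finset.sum_add_distrib]
        refine Finset.sum_congr rfl fun i _ => ?_
        rw [Nat.choose_succ_succ]
        push_cast
        ring
      rw [e3] at e1
      simp only [Nat.choose_zero_right, Nat.cast_one, one_mul] at e1 e2
      linear_combination e1 - e2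
    have h2 := ih (fun i => q (i + 1)) h1
    intro i hi
    rcases Nat.eq_zero_or_pos i with rfl | hi0
    · have e := hq M le_rfl
      rw [Finset.sum_range_succ'] at e
      rw [Finset.sum_eq_zero (fun i hi => by
        rw [h2 i (Finset.mem_range.1 hi), mul_zero])] at e
      simpa using e
    · obtain ⟨j, rfl⟩ : ∃ j, i = j + 1 := ⟨i - 1, by omega⟩
      exact h2 j (by omega)

/-- The coefficients of the powers of `w = (s⁻¹ - T)⁻¹`. -/
theorem B4_coeff {K : Type} [Field K] (w : LaurentSeries K) (T t : K) (htT : t * T = 1)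
    (hw : w * (HahnSeries.single (-1 : ℤ) (1 : K) - HahnSeries.C T) = 1) (hord : w.order = 1) :
    ∀ n i : ℕ, (w ^ (i + 1)).coeff ((n : ℤ) + 1) * t ^ n = (n.choose i : K) * t ^ i := by
  have hw0 : w ≠ 0 := by
    rintro rfl
    simp at hw
  have hz : ∀ i : ℕ, (w ^ (i + 1)).coeff 0 = 0 := by
    intro i
    apply HahnSeries.coeff_eq_zero_of_lt_order
    rw [HahnSeries.order_pow, hord, nsmul_eq_mul]
    push_cast
    omega
  have hrec : ∀ (i : ℕ) (n : ℤ), (w ^ (i + 1)).coeff (n + 1) =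
      (w ^ (i + 1)).coeff n * T + (w ^ i).coeff n := by
    intro i n
    have h1 : w ^ (i + 1) * (HahnSeries.single (-1 : ℤ) (1 : K) - HahnSeries.C T) = w ^ i := by
      rw [pow_succ, mul_assoc, hw, mul_one]
    have h2 := congrArg (fun x => HahnSeries.coeff x n) h1
    simp only [mul_sub, HahnSeries.coeff_sub] at h2
    have h3 : (w ^ (i + 1) * HahnSeries.single (-1 : ℤ) (1 : K)).coeff n =
        (w ^ (i + 1)).coeff (n + 1) := by
      have := HahnSeries.coeff_mul_single_add (r := (1 : K)) (x := w ^ (i + 1)) (a := n + 1)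
        (b := (-1 : ℤ))
      rw [add_neg_cancel_right, mul_one] at this
      exact this
    have h4 : (w ^ (i + 1) * HahnSeries.C T).coeff n = (w ^ (i + 1)).coeff n * T := by
      rw [HahnSeries.C_apply]
      exact HahnSeries.coeff_mul_single_zero
    rw [h3, h4] at h2
    rw [← h2]
    ring
  intro n
  induction n with
  | zero =>
    intro i
    have h := hrec i 0
    rw [hz, zero_mul] at h
    rw [Nat.cast_zero, pow_zero, mul_one, zero_add]
    rw [zero_add, zero_add] at h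
    rw [h]
    rcases Nat.eq_zero_or_pos i with rfl | hi
    · simp
    · obtain ⟨j, rfl⟩ : ∃ j, i = j + 1 := ⟨i - 1, by omega⟩
      rw [hz]
      simp
  | succ n ih =>
    intro i
    have h := hrec i ((n : ℤ) + 1)
    push_cast
    rw [h, add_mul, pow_succ t n]
    have e1 : (w ^ (i + 1)).coeff ((n : ℤ) + 1) * T * (t ^ n * t) =
        (w ^ (i + 1)).coeff ((n : ℤ) + 1) * t ^ n * (t * T) := by ring
    rw [e1, htT, mul_one, ih]
    rcases Nat.eq_zero_or_pos i with rfl | hi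
    · have e2 : (w ^ 0).coeff ((n : ℤ) + 1) = 0 := by
        rw [pow_zero, HahnSeries.coeff_one, if_neg (by omega)]
      rw [e2]
      simp
    · obtain ⟨j, rfl⟩ : ∃ j, i = j + 1 := ⟨i - 1, by omega⟩
      have e3 : (w ^ (j + 1)).coeff ((n : ℤ) + 1) * (t ^ n * t) =
          (w ^ (j + 1)).coeff ((n : ℤ) + 1) * t ^ n * t := by ring
      rw [e3, ih, Nat.choose_succ_succ]
      push_cast
      ring

/-- The expansion of `σ β`. -/
theorem B4_exp {K : Type} [Field K] (σ : LaurentSeries K →+* LaurentSeries K)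
    (hσ2 : ∀ c : K, σ (HahnSeries.C c) = HahnSeries.C c)
    (hσ3 : ∀ x : LaurentSeries K, x ≠ 0 → (σ x).order = x.order)
    (β : LaurentSeries K) (hβ : ∀ n : ℤ, n ≤ 0 → β.coeff n = 0) (m : ℕ) :
    (σ β).coeff ((m : ℤ) + 1) = ∑ i ∈ Finset.range (m + 1), β.coeff ((i : ℤ) + 1) *
      ((σ (HahnSeries.single 1 1)) ^ (i + 1)).coeff ((m : ℤ) + 1) := by
  set F : LaurentSeries K := ∑ i ∈ Finset.range (m + 1),
    HahnSeries.single ((i : ℤ) + 1) (β.coeff ((i : ℤ) + 1)) with hF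
  have hFc : ∀ n : ℤ, F.coeff n = ∑ i ∈ Finset.range (m + 1),
      if n = (i : ℤ) + 1 then β.coeff ((i : ℤ) + 1) else 0 := by
    intro n
    rw [hF, HahnSeries.coeff_sum]
    refine Finset.sum_congr rfl fun i _ => ?_
    rw [HahnSeries.coeff_single]
    split_ifs <;> rfl
  have hrest : ∀ n : ℤ, n ≤ (m : ℤ) + 1 → (β - F).coeff n = 0 := by
    intro n hn
    rw [HahnSeries.coeff_sub, hFc]
    rcases le_or_gt n 0 with h0 | h0
    · rw [hβ n h0, Finset.sum_eq_zero fun i _ => if_neg (by omega), sub_zero]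
    · rw [Finset.sum_eq_single (n - 1).toNat]
      · have e : (((n - 1).toNat : ℕ) : ℤ) = n - 1 := Int.toNat_of_nonneg (by omega)
        rw [e, if_pos (by omega), sub_add_cancel, sub_self]
      · intro i _ hi
        rw [if_neg]
        intro h
        apply hi
        omega
      · intro h
        exfalso
        apply h
        rw [Finset.mem_range]
        omega
  have h1 : (σ (β - F)).coeff ((m : ℤ) + 1) = 0 := by
    by_cases h0 : β - F = 0
    · rw [h0, map_zero, HahnSeries.coeff_zero]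
    · apply HahnSeries.coeff_eq_zero_of_lt_order
      rw [hσ3 _ h0]
      by_contra hc
      rw [not_lt] at hc
      exact h0 (HahnSeries.coeff_order_eq_zero.1 (hrest _ hc))
  have h2 : σ β = σ (β - F) + ∑ i ∈ Finset.range (m + 1),
      HahnSeries.C (β.coeff ((i : ℤ) + 1)) * (σ (HahnSeries.single 1 1)) ^ (i + 1) := by
    have h3 : ∀ i ∈ Finset.range (m + 1), HahnSeries.C (β.coeff ((i : ℤ) + 1)) *
        (σ (HahnSeries.single 1 1)) ^ (i + 1) =
        σ (HahnSeries.single ((i : ℤ) + 1) (β.coeff ((i : ℤ) + 1))) := by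
      intro i _
      rw [← hσ2, ← map_pow, ← map_mul, HahnSeries.single_pow, HahnSeries.C_apply,
        HahnSeries.single_mul_single]
      congr 2
      · simp
      · simp
    rw [Finset.sum_congr rfl h3, ← map_sum, ← map_add, hF, sub_add_cancel]
  rw [h2, HahnSeries.coeff_add, h1, zero_add, HahnSeries.coeff_sum]
  refine Finset.sum_congr rfl fun i _ => ?_
  rw [HahnSeries.C_apply]
  exact HahnSeries.coeff_single_zero_mul

theorem B4_zero {κ : Type} [Field κ] (sw : BL κ →+* LaurentSeries (LaurentSeries κ))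
    (hsw : ∀ (a : BL κ) (m n : ℤ), ((sw a).coeff m).coeff n = ((a : AL κ).coeff n).coeff m)
    (σ : LaurentSeries (LaurentSeries κ) →+* LaurentSeries (LaurentSeries κ))
    (hσ1 : σ (HahnSeries.single 1 1) *
      (HahnSeries.single (-1 : ℤ) (1 : LaurentSeries κ) -
        HahnSeries.C (HahnSeries.single (-1 : ℤ) (1 : κ))) = 1)
    (hσ2 : ∀ c : LaurentSeries κ, σ (HahnSeries.C c) = HahnSeries.C c)
    (hσ3 : ∀ x : LaurentSeries (LaurentSeries κ), x ≠ 0 → (σ x).order = x.order)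
    (a b : BL κ) (h : sw a = σ (sw b)) (h0 : ∀ n : ℤ, n ≤ 0 → (sw a).coeff n = 0) :
    sw b = 0 := by
  have hβ : ∀ n : ℤ, n ≤ 0 → (sw b).coeff n = 0 := by
    intro n hn
    by_cases hb : sw b = 0
    · rw [hb, HahnSeries.coeff_zero]
    · apply HahnSeries.coeff_eq_zero_of_lt_order
      rw [← hσ3 _ hb, ← h]
      have ha : sw a ≠ 0 := by
        rw [h]
        exact (map_ne_zero σ).2 hb
      by_contra hc
      exact ha (HahnSeries.coeff_order_eq_zero.1 (h0 _ (by omega)))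
  set t : LaurentSeries κ := HahnSeries.single (1 : ℤ) (1 : κ) with ht
  set T : LaurentSeries κ := HahnSeries.single (-1 : ℤ) (1 : κ) with hT
  have htT : t * T = 1 := by
    rw [ht, hT, HahnSeries.single_mul_single, add_neg_cancel, mul_one]
    rfl
  have hord : (σ (HahnSeries.single 1 1)).order = 1 := by
    rw [hσ3 _ (by simp), HahnSeries.order_single one_ne_zero]
  have hc := B4_coeff (σ (HahnSeries.single 1 1)) T t htT hσ1 hord
  have htp : ∀ (n : ℕ) (x : LaurentSeries κ) (r : ℤ), (x * t ^ n).coeff r = x.coeff (r - n) := by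
    intro n x r
    rw [ht, HahnSeries.single_pow, one_pow, nsmul_eq_mul, mul_one]
    have := HahnSeries.coeff_mul_single_add (r := (1 : κ)) (x := x) (a := r - n) (b := (n : ℤ))
    rw [sub_add_cancel, mul_one] at this
    exact this
  have key : ∀ (m : ℕ) (r : ℤ), ((sw a).coeff ((m : ℤ) + 1)).coeff (r - m) =
      ∑ i ∈ Finset.range (m + 1), (m.choose i : κ) * ((sw b).coeff ((i : ℤ) + 1)).coeff (r - i) := by
    intro m r
    rw [← htp, h, B4_exp σ hσ2 hσ3 (sw b) hβ m, Finset.sum_mul, HahnSeries.coeff_sum]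
    refine Finset.sum_congr rfl fun i _ => ?_
    rw [mul_assoc, hc, mul_left_comm, ← nsmul_eq_mul, HahnSeries.coeff_nsmul]
    rw [Pi.smul_apply, htp, nsmul_eq_mul]
  have hall : ∀ (r : ℤ) (i : ℕ), ((sw b).coeff ((i : ℤ) + 1)).coeff (r - i) = 0 := by
    intro r
    set q : ℕ → κ := fun i => ((sw b).coeff ((i : ℤ) + 1)).coeff (r - i) with hq
    set J : ℕ := (r - (b : AL κ).order + 1).toNat with hJ
    have hqJ : ∀ i, J ≤ i → q i = 0 := by
      intro i hi
      rw [hq]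
      show ((sw b).coeff ((i : ℤ) + 1)).coeff (r - i) = 0
      rw [hsw, HahnSeries.coeff_eq_zero_of_lt_order (x := (b : AL κ)) (by omega),
        HahnSeries.coeff_zero]
    have hlow := B4_binom (J + (r - (a : AL κ).order + 1).toNat) J q (by
      intro m hm
      have e := key m r
      rw [hsw, HahnSeries.coeff_eq_zero_of_lt_order (x := (a : AL κ)) (by omega),
        HahnSeries.coeff_zero] at e
      rw [← Finset.sum_subset (Finset.range_mono (show J ≤ m + 1 by omega))] at e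
      · exact e.symm
      · intro i _ hi
        have h3 : q i = 0 := hqJ i (by rw [Finset.mem_range, not_lt] at hi; exact hi)
        show (m.choose i : κ) * q i = 0
        rw [h3, mul_zero])
    intro i
    rcases lt_or_ge i J with hi | hi
    · exact hlow i hi
    · exact hqJ i hi
  ext n : 2
  rw [HahnSeries.coeff_zero]
  rcases le_or_gt n 0 with hn | hn
  · exact hβ n hn
  · ext r
    have e := hall (r + (n - 1)) (n - 1).toNat
    have e1 : (((n - 1).toNat : ℕ) : ℤ) = n - 1 := Int.toNat_of_nonneg (by omega)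
    rw [e1, sub_add_cancel, add_sub_cancel_right] at e
    rw [e, HahnSeries.coeff_zero]

theorem bb_aux {κ : Type} [Field κ] (sw : BL κ →+* LaurentSeries (LaurentSeries κ))
    (hsw : ∀ (a : BL κ) (m n : ℤ), ((sw a).coeff m).coeff n = ((a : AL κ).coeff n).coeff m)
    (σ : LaurentSeries (LaurentSeries κ) →+* LaurentSeries (LaurentSeries κ))
    (hσ1 : σ (HahnSeries.single 1 1) =
      (AI.zinv (LaurentSeries κ) (X - C (HahnSeries.single (-1 : ℤ) (1 : κ))))⁻¹)
    (hσ2 : ∀ c : LaurentSeries κ, σ (HahnSeries.C c) = HahnSeries.C c)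
    (hσ3 : ∀ x : LaurentSeries (LaurentSeries κ), x ≠ 0 → (σ x).order = x.order)
    (a b : BL κ) (h : sw a = σ (sw b)) : ∃ f, iB κ f = a ∧ iB κ (trP κ f) = b := by
  obtain ⟨hinj, hiB⟩ := swL_facts sw hsw
  have hz : AI.zinv (LaurentSeries κ) (X - C (HahnSeries.single (-1 : ℤ) (1 : κ))) =
      HahnSeries.single (-1 : ℤ) (1 : LaurentSeries κ) -
        HahnSeries.C (HahnSeries.single (-1 : ℤ) (1 : κ)) := by
    rw [map_sub, AI.zinv_X, AI.zinv_C]
  have hz0 : AI.zinv (LaurentSeries κ) (X - C (HahnSeries.single (-1 : ℤ) (1 : κ))) ≠ 0 :=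
    (map_ne_zero_iff _ AI.zinv_injective).2 (X_sub_C_ne_zero _)
  have hσ1' : σ (HahnSeries.single 1 1) *
      (HahnSeries.single (-1 : ℤ) (1 : LaurentSeries κ) -
        HahnSeries.C (HahnSeries.single (-1 : ℤ) (1 : κ))) = 1 := by
    rw [← hz, hσ1]
    exact inv_mul_cancel₀ hz0
  -- translation
  have htr : ∀ f, σ (AI.zinv (LaurentSeries κ) (trP κ f)) = AI.zinv (LaurentSeries κ) f := by
    have e : (σ.comp (AI.zinv (LaurentSeries κ))).comp (trP κ) = AI.zinv (LaurentSeries κ) := by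
      refine Polynomial.ringHom_ext (fun c => ?_) ?_
      · rw [RingHom.comp_apply, RingHom.comp_apply]
        have : trP κ (C c) = C c := by
          unfold trP
          rw [Polynomial.coe_compRingHom_apply, C_comp]
        rw [this, AI.zinv_C, hσ2]
      · rw [RingHom.comp_apply, RingHom.comp_apply]
        have : trP κ X = X + C (HahnSeries.single (-1 : ℤ) (1 : κ)) := by
          unfold trP
          rw [Polynomial.coe_compRingHom_apply, X_comp]
        have h1 : σ (HahnSeries.single (-1 : ℤ) (1 : LaurentSeries κ)) =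
            HahnSeries.single (-1 : ℤ) (1 : LaurentSeries κ) -
              HahnSeries.C (HahnSeries.single (-1 : ℤ) (1 : κ)) := by
          have h2 : σ (HahnSeries.single 1 1) *
              σ (HahnSeries.single (-1 : ℤ) (1 : LaurentSeries κ)) = 1 := by
            rw [← map_mul, HahnSeries.single_mul_single, add_neg_cancel, mul_one]
            exact map_one σ
          have h3 : σ (HahnSeries.single 1 1) ≠ 0 := left_ne_zero_of_mul_eq_one h2
          exact mul_left_cancel₀ h3 (h2.trans hσ1'.symm)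
        rw [this, map_add, AI.zinv_X, AI.zinv_C, map_add, hσ2, h1, sub_add_cancel]
    intro f
    exact RingHom.congr_fun e f
  -- the polynomial part
  obtain ⟨f, hf⟩ : ∃ f : (LaurentSeries κ)[X], ∀ n : ℕ, f.coeff n = (sw a).coeff (-(n : ℤ)) := by
    refine ⟨∑ i ∈ Finset.range ((-(sw a).order).toNat + 1), monomial i ((sw a).coeff (-(i : ℤ))),
      fun n => ?_⟩
    rw [Polynomial.finsetSum_coeff]
    simp only [Polynomial.coeff_monomial]
    rw [Finset.sum_ite_eq']
    split_ifs with hn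
    · rfl
    · rw [Finset.mem_range, not_lt] at hn
      exact (HahnSeries.coeff_eq_zero_of_lt_order (by omega)).symm
  have h1 : sw (a - iB κ f) = σ (sw (b - iB κ (trP κ f))) := by
    rw [map_sub, map_sub, map_sub, hiB, hiB, htr, h]
  have h2 : ∀ n : ℤ, n ≤ 0 → (sw (a - iB κ f)).coeff n = 0 := by
    intro n hn
    rw [map_sub, hiB, HahnSeries.coeff_sub, AI.zinv_coeff, if_pos hn, hf,
      Int.toNat_of_nonneg (by omega), neg_neg, sub_self]
  have h3 := B4_zero sw hsw σ hσ1' hσ2 hσ3 _ _ h1 h2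
  have h4 : b - iB κ (trP κ f) = 0 := hinj (by rw [h3, map_zero])
  have h5 : a - iB κ f = 0 := hinj (by rw [h1, h3, map_zero, map_zero])
  exact ⟨f, (sub_eq_zero.1 h5).symm, (sub_eq_zero.1 h4).symm⟩

end

end Pool.Agent.MP_1c8e06_ag.AJ
end

section

set_option autoImplicit false

open Polynomial
open scoped Classical

namespace Pool.Agent.MP_1c8e06_ag.AJ

noncomputable section

/-!
# Task B4e: the environment exists

Proof.  `sw` from `exists_swL`, `sw1 := sw`.  `w₀ := (zinv (X - C t⁻¹))⁻¹ ∈ κ((t))((s))`;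
`zinv (X - C t⁻¹) = s⁻¹ - t⁻¹` has order `-1`, so `w₀` has order `1`.  `σ` from `AI.exists_subw` with
`φ = RingHom.id`, `w = w₀`: `(σ x).order = 1 * x.order`.  `sw2 := σ.comp sw` (injective: `σ` is a ring
homomorphism of fields).  `sw2 (iB (trP f)) = σ (zinv (trP f)) = zinv f`: ring homomorphisms in `f`, check
`C c` and `X`: `σ (s⁻¹) = w₀⁻¹ = s⁻¹ - t⁻¹`.  `nab` from `exists_nabL`, `bb` from `bb_aux`.
-/

theorem exists_EnvL (κ : Type) [Field κ] : Nonempty (EnvL κ) := by
  obtain ⟨sw, hsw⟩ := exists_swL κ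
  obtain ⟨hinj, hiB⟩ := swL_facts sw hsw
  obtain ⟨x₀, hx₀⟩ : ∃ x₀ : LaurentSeries (LaurentSeries κ), x₀ =
      AI.zinv (LaurentSeries κ) (X - C (HahnSeries.single (-1 : ℤ) (1 : κ))) := ⟨_, rfl⟩
  have hx₁ : x₀ = HahnSeries.single (-1 : ℤ) (1 : LaurentSeries κ) -
      HahnSeries.C (HahnSeries.single (-1 : ℤ) (1 : κ)) := by
    rw [hx₀, map_sub, AI.zinv_X, AI.zinv_C]
  have hc1 : x₀.coeff (-1) = 1 := by
    rw [hx₁, HahnSeries.coeff_sub, HahnSeries.coeff_single_same, HahnSeries.C_apply,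
      HahnSeries.coeff_single_of_ne (by decide), sub_zero]
  have hne : x₀ ≠ 0 := by
    intro h
    rw [h, HahnSeries.coeff_zero] at hc1
    exact zero_ne_one hc1
  have hord : x₀.order = -1 := by
    apply le_antisymm
    · exact HahnSeries.order_le_of_coeff_ne_zero (by rw [hc1]; exact one_ne_zero)
    · by_contra hlt
      push Not at hlt
      have h1 : x₀.coeff x₀.order ≠ 0 := HahnSeries.coeff_order_eq_zero.not.2 hne
      apply h1
      rw [hx₁, HahnSeries.coeff_sub, ← hx₁, HahnSeries.coeff_single_of_ne (by omega),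
        HahnSeries.C_apply, HahnSeries.coeff_single_of_ne (by omega), sub_zero]
  have hordi : x₀⁻¹.order = 1 := by
    have h1 : (x₀ * x₀⁻¹).order = x₀.order + x₀⁻¹.order :=
      HahnSeries.order_mul hne (inv_ne_zero hne)
    rw [mul_inv_cancel₀ hne, HahnSeries.order_one, hord] at h1
    omega
  obtain ⟨σ, hσ1, hσ2, hσ3⟩ := AI.exists_subw (RingHom.id (LaurentSeries κ)) x₀⁻¹
    (by rw [hordi]; exact one_pos)
  have hσm : σ (HahnSeries.single (-1 : ℤ) (1 : LaurentSeries κ)) = x₀ := by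
    have h1 : (HahnSeries.single (-1 : ℤ) (1 : LaurentSeries κ)) *
        HahnSeries.single (1 : ℤ) (1 : LaurentSeries κ) = 1 := by
      rw [HahnSeries.single_mul_single]
      norm_num
    have h2 := congrArg σ h1
    rw [map_mul, hσ1, map_one σ] at h2
    exact (mul_inv_eq_one₀ hne).1 h2
  have htr : ∀ f, σ (AI.zinv (LaurentSeries κ) (trP κ f)) = AI.zinv (LaurentSeries κ) f := by
    intro f
    have h : (σ.comp ((AI.zinv (LaurentSeries κ)).comp (trP κ))) = AI.zinv (LaurentSeries κ) := by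
      refine Polynomial.ringHom_ext ?_ ?_
      · intro c
        rw [RingHom.comp_apply, RingHom.comp_apply]
        have h1 : trP κ (C c) = C c := by
          unfold trP
          rw [Polynomial.coe_compRingHom_apply, C_comp]
        rw [h1, AI.zinv_C, hσ2]
        rfl
      · rw [RingHom.comp_apply, RingHom.comp_apply]
        have h1 : trP κ X = X + C (HahnSeries.single (-1 : ℤ) (1 : κ)) := by
          unfold trP
          rw [Polynomial.coe_compRingHom_apply, X_comp]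
        rw [h1, map_add, AI.zinv_C, AI.zinv_X, map_add, hσm, hσ2, hx₁]
        exact sub_add_cancel _ _
    exact RingHom.congr_fun h f
  obtain ⟨nab, hnab⟩ := exists_nabL κ
  refine ⟨⟨sw, σ.comp sw, nab, hiB, ?_, hnab, hinj, σ.injective.comp hinj, ?_⟩⟩
  · intro f
    rw [RingHom.comp_apply, hiB, htr]
  · intro a b h
    refine bb_aux sw hsw σ (by rw [hσ1, hx₀]) (fun c => hσ2 c) (fun x hx => ?_) a b h
    rw [hσ3 x hx, hordi, one_mul]

end

end Pool.Agent.MP_1c8e06_ag.AJ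
end

section

set_option autoImplicit false

open Polynomial
open scoped Classical

namespace Pool.Agent.MP_1c8e06_ag.AJ

noncomputable section

/-!
# Task B7: gluing in two discs

Notation: `K = κ((t))`, `zE := Al.mapA S (AI.zinv K) : Al S → El S` (`zE (cst f) = zeE S f`).
Proof.
1. `C₀` from `exists_induced S i hi`.
2. Disc 1.  `glue_step` with `β := iB κ` (`hcap`: `exists_of_mem`), `A := El S`,
   `sw := (oE S).comp E.sw1` (`sw.comp β = zeE S` by `E.sw1_iB`), `act := actE S`,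
   `C := C₀.push` (`φ = id`, `ψ = zE`), `Cβ := C₀.push` (`φ := inclL κ`, `ψ := T₁`, `j := j₁`; constants
   `C₀.k.map (inclL κ)`), `D₁`.  Result `W₁, W₁i, U₁, U₁i, C₁, C₁β`.
3. The restriction of `C₁` to disc 2: `C₀β2 := C₀.push` (`φ := (inclL κ).comp (trP κ)`, `ψ := T₂`, `j := j₂`).
   `exists_chb` with the matrices `jP (E.nab (W₁ l m))`, `jP (E.nab (W₁i l m))`: `C₁β2`, constants
   `(C₀.k.map ((inclL κ).comp (trP κ))).chb ..`.  Now `inclL (trP f) = jP (iP (trP f)) = jP (E.nab (iB f))`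
   (`jP_iP`, `E.nab_iB`), so these constants are the image under `jP ∘ E.nab` of
   `(C₀.k.map (iB κ)).chb W₁ W₁i = C₁.k.map (iB κ)` (`Ks.chb_map`, `Ks.map_map`), i.e.
   `C₁.k.map (fun f => inclL (trP f))`.
4. Disc 2.  `glue_step` with `β := (iB κ).comp (trP κ)` (`hcap`: `exists_of_mem` and `trP_surjective`),
   `A := El S`, `sw := (oE S).comp E.sw2` (`sw.comp β = zeE S` by `E.sw2_iB`), `C := C₁`, `Cβ := C₁β2`, `D₂`.
   Result `W₂, .., U₂, .., D := C'`.
   (`C₁ : GD i (zeE S) (actE S)` has to be seen as `GD i (sw.comp β) (actE S)`: the two ring homomorphisms are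
   equal; rewrite, or `subst` a generalised equation, or use `GD.push` with `φ = id, ψ = id`.)
-/

section

variable {B : Type} [CommRing B] {P : Type} [Group P] [Fintype P] {G : Type} [Group G] [Fintype G]
  {i : P →* G} {A : Type} [CommRing A] {ze : B →+* A} {act : P →* (A →+* A)}

private theorem B7_push (D : GD i ze act) {B' A' P' : Type} [CommRing B'] [CommRing A']
    [Group P'] [Fintype P'] (φ : B →+* B') (ψ : A →+* A') (j : P' →* P) (i' : P' →* G)
    (hi : ∀ u, i' u = i (j u)) (ze' : B' →+* A') (act' : P' →* (A' →+* A'))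
    (hze : ∀ b, ψ (ze b) = ze' (φ b)) (hact : ∀ u a, ψ (act (j u) a) = act' u (ψ a)) :
    ∃ D' : GD i' ze' act', D'.k = D.k.map φ ∧ ∀ l x, D'.b l x = ψ (D.b l x) :=
  ⟨D.push φ ψ j i' hi ze' act' hze hact, rfl, fun _ _ => rfl⟩

private theorem B7_cast (D : GD i ze act) (ze' : B →+* A) (h : ∀ b, ze b = ze' b) :
    ∃ D' : GD i ze' act, D'.k = D.k ∧ ∀ l x, D'.b l x = D.b l x := by
  have h1 : ze = ze' := RingHom.ext h
  subst h1
  exact ⟨D, rfl, fun _ _ => rfl⟩

private theorem B7_map_one {R R' : Type} [CommRing R] [CommRing R'] (φ : R →+* R')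
    (W Wi : Matrix G G R) (h : W * Wi = 1) : W.map φ * Wi.map φ = 1 := by
  rw [← Matrix.map_mul, h]
  exact Matrix.map_one _ (map_zero _) (map_one _)

private theorem B7_chb {R R' : Type} [CommRing R] [CommRing R'] (nab : R →+* R')
    (β : B → R) (k₀ k₁ : Ks B G) (W Wi : Matrix G G R) (γ : B → R')
    (hγ : ∀ b, nab (β b) = γ b) (h : k₁.map β = (k₀.map β).chb W Wi) :
    (k₀.map γ).chb (W.map nab) (Wi.map nab) = k₁.map γ := by
  have e1 := congrArg (Ks.map nab) h
  rw [Ks.chb_map, Ks.map_map, Ks.map_map] at e1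
  have e2 : (nab ∘ β) = γ := funext hγ
  rw [e2] at e1
  exact e1.symm

private theorem B7_map_id (k₀ : Ks B G) : k₀.map (RingHom.id B) = k₀ := rfl

end

private theorem B7_oE {R : Type} [CommRing R] {P : Type} [Group P] [Fintype P] (S : SC R[X] P)
    (f : R[X]) : Al.mapA S (AI.zinv R) (Al.cst S f) = oE S (AI.zinv R f) := Al.mapA_cst S _ f

private theorem B7_actE {R : Type} [CommRing R] {P : Type} [Group P] [Fintype P] (S : SC R[X] P)
    (u : P) (a : Al S) : Al.mapA S (AI.zinv R) (Al.act S u a) =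
      actE S u (Al.mapA S (AI.zinv R) a) := Al.mapA_act S _ u a

private theorem B7_zeE {R : Type} [CommRing R] {P : Type} [Group P] [Fintype P] (S : SC R[X] P)
    (f : R[X]) : zeE S f = oE S (AI.zinv R f) := rfl

theorem exists_two {κ : Type} [Field κ] (E : EnvL κ) {G : Type} [Group G] [Fintype G]
    {P I₁ I₂ : Type} [Group P] [Fintype P] [Group I₁] [Fintype I₁] [Group I₂] [Fintype I₂]
    (i : P →* G) (hi : Function.Injective i) (j₁ : I₁ →* P) (j₂ : I₂ →* P)
    (S : SC (LaurentSeries κ)[X] P) (S₁ : SC κ[X] I₁) (S₂ : SC κ[X] I₂)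
    (T₁ : Al S →+* LaurentSeries (El S₁)) (hT₁ : ∀ f, T₁ (Al.cst S f) = oL S₁ (inclL κ f))
    (hT₁a : ∀ u a, T₁ (Al.act S (j₁ u) a) = actL S₁ u (T₁ a))
    (T₂ : Al S →+* LaurentSeries (El S₂))
    (hT₂ : ∀ f, T₂ (Al.cst S f) = oL S₂ (inclL κ (trP κ f)))
    (hT₂a : ∀ u a, T₂ (Al.act S (j₂ u) a) = actL S₂ u (T₂ a))
    (D₁ : GD (i.comp j₁) (zeE S₁) (actE S₁)) (D₂ : GD (i.comp j₂) (zeE S₂) (actE S₂)) :
    ∃ (C₀ : GD i (Al.cst S) (Al.act S)) (W₁ W₁i W₂ W₂i : Matrix G G (BL κ))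
      (U₁ U₂ : Matrix G G (LaurentSeries κ[X])) (D : GD i (zeE S) (actE S)),
      W₁ * W₁i = 1 ∧ W₂ * W₂i = 1 ∧
      (∀ l x, D.b l x = ∑ m, ∑ n, oE S (E.sw2 (W₂ l m) * E.sw1 (W₁ m n)) *
        Al.mapA S (AI.zinv (LaurentSeries κ)) (C₀.b n x)) ∧
      (∀ m x, ∑ n, oL S₁ (W₁ m n : AL κ) * T₁ (C₀.b n x) =
        ∑ n, oL S₁ (jP κ (U₁ m n)) * HahnSeries.C (D₁.b n x)) ∧
      (∀ l x, ∑ m, ∑ n, oL S₂ ((W₂ l m : AL κ) * jP κ (E.nab (W₁ m n))) * T₂ (C₀.b n x) =
        ∑ m, oL S₂ (jP κ (U₂ l m)) * HahnSeries.C (D₂.b m x)) := by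
  have hcap1 : ∀ (a : BL κ) (b : LaurentSeries κ[X]), (a : AL κ) = jP κ b → ∃ c, iB κ c = a := by
    intro a b h
    obtain ⟨f, hf, -⟩ := exists_of_mem a b h
    exact ⟨f, hf⟩
  have hcap2 : ∀ (a : BL κ) (b : LaurentSeries κ[X]), (a : AL κ) = jP κ b →
      ∃ c, ((iB κ).comp (trP κ)) c = a := by
    intro a b h
    obtain ⟨f, hf, -⟩ := exists_of_mem a b h
    obtain ⟨f', rfl⟩ := trP_surjective f
    exact ⟨f', hf⟩
  obtain ⟨C₀⟩ := exists_induced S i hi
  -- the cover at infinity and on the annulus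
  obtain ⟨C, hCk, hCb⟩ := B7_push C₀ (RingHom.id _) (Al.mapA S (AI.zinv (LaurentSeries κ)))
    (MonoidHom.id P) i (fun _ => rfl) (((oE S).comp E.sw1).comp (iB κ)) (actE S)
    (fun b => by rw [B7_oE, RingHom.comp_apply, RingHom.comp_apply, RingHom.id_apply, E.sw1_iB])
    (fun u a => by rw [MonoidHom.id_apply, B7_actE])
  rw [B7_map_id] at hCk
  obtain ⟨Cβ, hCβk, hCβb⟩ := B7_push C₀ (inclL κ) T₁ j₁ (i.comp j₁) (fun _ => rfl) (oL S₁)
    (actL S₁) hT₁ hT₁a
  obtain ⟨W₁, W₁i, U₁, U₁i, C₁, C₁β, hW₁, hW₁', -, -, hk1, hb1, -, hb1', hb1''⟩ :=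
    glue_step i j₁ (iB κ) hcap1 ((oE S).comp E.sw1) (actE S)
      (fun u a => by rw [RingHom.comp_apply, actE_oE]) C S₁ Cβ (by rw [hCβk, hCk]; rfl) D₁
  -- restriction to the second disc
  have hnab : ∀ f, ((jP κ).comp E.nab) (iB κ f) = inclL κ (trP κ f) := by
    intro f
    rw [RingHom.comp_apply, E.nab_iB, jP_iP]
  obtain ⟨Cβ2, hCβ2k, hCβ2b⟩ := B7_push C₀ ((inclL κ).comp (trP κ)) T₂ j₂ (i.comp j₂)
    (fun _ => rfl) (oL S₂) (actL S₂) (fun b => by rw [hT₂, RingHom.comp_apply]) hT₂a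
  obtain ⟨C₁β2, hk2, hb2⟩ := Cβ2.exists_chb (actL_oL S₂) (W₁.map ((jP κ).comp E.nab))
    (W₁i.map ((jP κ).comp E.nab)) (B7_map_one _ _ _ hW₁) (B7_map_one _ _ _ hW₁')
  have hk3 : C₁β2.k = C₁.k.map (fun b => ((((iB κ).comp (trP κ)) b : BL κ) : AL κ)) := by
    rw [hCk] at hk1
    rw [hk2, hCβ2k]
    exact B7_chb ((jP κ).comp E.nab) (iB κ) C₀.k C₁.k W₁ W₁i ((inclL κ).comp (trP κ))
      (fun b => by rw [hnab, RingHom.comp_apply]) hk1
  obtain ⟨C₁', hk5, hb5⟩ := B7_cast C₁ (((oE S).comp E.sw2).comp ((iB κ).comp (trP κ)))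
    (fun b => by
      rw [RingHom.comp_apply, RingHom.comp_apply, RingHom.comp_apply, RingHom.comp_apply,
        RingHom.comp_apply, E.sw1_iB, E.sw2_iB])
  obtain ⟨W₂, W₂i, U₂, U₂i, C₂, C₂β, hW₂, -, -, -, -, hb4, -, hb4', hb4''⟩ :=
    glue_step i j₂ ((iB κ).comp (trP κ)) hcap2 ((oE S).comp E.sw2) (actE S)
      (fun u a => by rw [RingHom.comp_apply, actE_oE]) C₁' S₂ C₁β2 (by rw [hk3, hk5]) D₂
  obtain ⟨D, -, hDb⟩ := B7_cast C₂ (zeE S) (fun b => by
    rw [RingHom.comp_apply, RingHom.comp_apply, RingHom.comp_apply, E.sw2_iB, B7_zeE])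
  refine ⟨C₀, W₁, W₁i, W₂, W₂i, U₁, U₂, D, hW₁, hW₂, fun l x => ?_, fun m x => ?_, fun l x => ?_⟩
  · rw [hDb, hb4]
    refine Finset.sum_congr rfl fun m _ => ?_
    rw [hb5, hb1, Finset.mul_sum]
    refine Finset.sum_congr rfl fun n _ => ?_
    rw [map_mul (oE S), mul_assoc, hCb, RingHom.comp_apply, RingHom.comp_apply]
  · rw [← hb1'', hb1']
    refine Finset.sum_congr rfl fun n _ => ?_
    rw [hCβb]
  · rw [← hb4'', hb4']
    refine Finset.sum_congr rfl fun m _ => ?_
    rw [hb2, Finset.mul_sum]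
    refine Finset.sum_congr rfl fun n _ => ?_
    rw [map_mul (oL S₂), mul_assoc, hCβ2b, Matrix.map_apply, RingHom.comp_apply]

end

end Pool.Agent.MP_1c8e06_ag.AJ
end

section

set_option autoImplicit false

open Polynomial
open scoped Classical

namespace Pool.Agent.MP_1c8e06_ag.AJ

noncomputable section

/-!
# Task B9: the gluing theorem (assembly)

`exists_EnvL`, `exists_two`, `conn_two`.
-/

theorem glue {κ : Type} [Field κ] {G : Type} [Group G] [Fintype G]
    {P I₁ I₂ : Type} [Group P] [Fintype P] [Group I₁] [Fintype I₁] [Group I₂] [Fintype I₂]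
    (i : P →* G) (hi : Function.Injective i) (j₁ : I₁ →* P) (j₂ : I₂ →* P)
    (S : SC (LaurentSeries κ)[X] P) (S₁ : SC κ[X] I₁) (S₂ : SC κ[X] I₂)
    (T₁ : Al S →+* LaurentSeries (El S₁)) (hT₁ : ∀ f, T₁ (Al.cst S f) = oL S₁ (inclL κ f))
    (hT₁a : ∀ u a, T₁ (Al.act S (j₁ u) a) = actL S₁ u (T₁ a))
    (T₂ : Al S →+* LaurentSeries (El S₂))
    (hT₂ : ∀ f, T₂ (Al.cst S f) = oL S₂ (inclL κ (trP κ f)))
    (hT₂a : ∀ u a, T₂ (Al.act S (j₂ u) a) = actL S₂ u (T₂ a))
    (D₁ : GD (i.comp j₁) (zeE S₁) (actE S₁)) (D₂ : GD (i.comp j₂) (zeE S₂) (actE S₂))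
    (H₁ H₂ : Subgroup G) (hD₁ : D₁.Conn' H₁) (hD₂ : D₂.Conn' H₂) :
    ∃ D : GD i (zeE S) (actE S), D.Conn' (H₁ ⊔ H₂) := by
  obtain ⟨E⟩ := exists_EnvL κ
  obtain ⟨C₀, W₁, W₁i, W₂, W₂i, U₁, U₂, D, hW₁, hW₂, hb, h1, h2⟩ :=
    exists_two E i hi j₁ j₂ S S₁ S₂ T₁ hT₁ hT₁a T₂ hT₂ hT₂a D₁ D₂
  exact ⟨D, conn_two E i j₁ j₂ S S₁ S₂ T₁ hT₁ T₂ hT₂ D₁ D₂ C₀ W₁ W₁i W₂ W₂i U₁ U₂ D hW₁ hW₂ hb h1 h2
    H₁ H₂ hD₁ hD₂⟩

end

end Pool.Agent.MP_1c8e06_ag.AJ
end
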