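import Pool.Agent.Lib.MP_1c8e06_ag.Mg.G049
import Pool.Agent.Lib.MP_1c8e06_ag.Mg.G062
import Pool.Agent.Lib.MP_1c8e06_ag.Mg.G059
import Pool.Agent.Lib.MP_1c8e06_ag.Mg.G056
import Pool.Agent.Lib.MP_1c8e06_ag.Mg.G061
import Pool.Agent.Lib.MP_1c8e06_ag.Mg.G064

section

set_option autoImplicit false

open Polynomial
open scoped Classical

namespace Pool.Agent.MP_1c8e06_ag.AJ

noncomputable section

/-!
# Task L6: adjoining the solution

Notation.  `E = El S`, `ev x := D₁.ev S₁ hS₁ x` (`x : G'`), functions on `G`.  `N := ker Q`.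
(0) `ζ' x r := ∑_t zc (ρ (x⁻¹) r t) * (ζ t + ev 1 (c x t))` for `x : G`.  Then
  (a) `ζ' (i u * x) r = actE u (ζ' x r)`: `c (i u x) = c (i u) + ρ (i u) act (Q (i u)) (c x)`, `ev 1 (act (Q (i u)) a) =
      ev (Q (i u)) a = actE u (ev 1 a)`, `ζ t + ev 1 (c (i u) t) = ∑_s ρ (i u) t s actE u (ζ s)` by `hζP`; so
      `ζ t + ev 1 (c (i u x) t) = ∑_s ρ (i u) t s * actE u (ζ s + ev 1 (c x s))`.
  (b) `∑_t zc (ρ g r t) * ζ' (x g) t = ζ' x r + ev (Q x) (c g r)`: `c (x g) = c x + ρ x act (Q x) (c g)`.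
  (c) `(ζ' x r)^p - ζ' x r = ev (Q x) (M r)`: by `hζ`, `hcM` (with `g = x`): `∑_t ρ(x⁻¹) r t (ev 1 (M t) +
      ev 1 ((c x t)^p - c x t)) = ∑_t ρ(x⁻¹) r t ∑_s ρ x t s ev (Q x) (M s)`.
  (d) for `n ∈ N`: `ζ' (x n) r = ζ' x r + zc (v n r)` ((b) with `g = n`, `ρ n = 1`, `c n = v n`).
(1) `Z :=` the set of functions `f : G → E` of the form `f x = ∑_e ev (Q x) (a_e) * ∏_r (ζ' x r)^(e r)`, `e : Fin m → Fin p`,
    `a_e : Al S₁`.  By (c) it is a subring of `G → E` (reduce exponents `≥ p`).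
(2) `exists_GD` for `Z`.  `hP`: (a), `ev_P`.  `hact`: `f (x h)`: `ev (Q x Q h) a = ev (Q x) (act (Q h) a)`, and
    `ζ' (x h) r = ∑_t zc (ρ (h⁻¹) r t) * (ζ' x t + ev (Q x) (c h t))` by (b).  `hze`: constants (`ev_cst`).
    `htf`: `El S` is `P → k((s))`.  `hfin`: the functions `ev (Q x) (e l) * ∏ (ζ' x r)^(e r)`.
    `hinv`: let `f = ∑_e ..` be invariant under right translations.  By (d), for `n ∈ N`:
    `f (x n) = ∑_e ev (Q x) (a_e) ∏_r (ζ' x r + zc (v n r))^(e r)` is independent of `n`; `v` maps `N` onto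
    `(ZMod p)^m`; a polynomial of degree `< p` in each variable which is constant on
    `∏ (ζ_r + F_p)` is constant (induction on `m`; in one variable: `g(ζ + j) = g(ζ)` for all `j ∈ F_p`
    where `g - g(ζ)` has degree `< p` and `p` roots `ζ + j` with differences units: Vandermonde).  So
    `f x = ev (Q x) a` for some `a : Al S₁` (evaluate: subtract the nonconstant part, which vanishes);
    invariance: `ev y (act h a) = ev y a` for all `y` (`Q` onto), so `act h a = a` (`GD.coord_eq`), `a = cst c` (`fixed`).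
    `hdual`: from `D₁.hdual`: `∑_l ev (Q x) (e l) * ev (Q x') (∑_m cst (T' l m) e m) = [Q x = Q x']`; and
    `∏_r (1 - (ζ' x' r - ζ' x r)^(p-1))` expanded as `∑_j U_j x * V_j x'`, `U_j, V_j ∈ Z`; for `x' = x n`, `n ∈ N`
    its value is `∏_r (1 - (v n r)^(p-1)) = [v n = 0] = [n = 1]` (`v` injective on `N`).  Products give the
    dual system.
(3) The last statement: the function `F x := ∑ zeE (f l) * D.b l x = zeE (C (c' x))` is in `Z` and invariant under right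
    translations by `N`; by the argument of `hinv` `F x = ev (Q x) a`; `f' := a` (`ev_apply`).
-/

private theorem L6p_unit {p : ℕ} [hp : Fact p.Prime] {A : Type} [CommRing A] (h0 : (p : A) = 0)
    (n : ℕ) (h1 : 0 < n) (h2 : n < p) : IsUnit ((n : ℕ) : A) := by
  have hx : ((n : ℕ) : ZMod p) ≠ 0 := by
    intro h
    rw [ZMod.natCast_eq_zero_iff] at h
    exact absurd (Nat.le_of_dvd h1 h) (by omega)
  have h3 : zc A ((n : ℕ) : ZMod p) * zc A (((n : ℕ) : ZMod p)⁻¹) = 1 := by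
    rw [← zc_mul h0, mul_inv_cancel₀ hx, zc_one]
  rw [zc_natCast h0] at h3
  exact IsUnit.of_mul_eq_one _ h3

private theorem L6p_one {p : ℕ} [hp : Fact p.Prime] {A : Type} [CommRing A] (h0 : (p : A) = 0)
    (z : A) (a : Fin p → A)
    (h : ∀ w : ZMod p, ∑ e : Fin p, a e * (z + zc A w) ^ (e : ℕ) = 0) (e : Fin p) : a e = 0 := by
  have hV : IsUnit (Matrix.vandermonde (fun j : Fin p => z + ((j : ℕ) : A))).det := by
    rw [Matrix.det_vandermonde]
    refine IsUnit.prod_univ_iff.mpr fun i => ?_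
    rw [IsUnit.prod_iff]
    intro j hj
    rw [Finset.mem_Ioi] at hj
    have h1 : z + ((j : ℕ) : A) - (z + ((i : ℕ) : A)) = (((j : ℕ) - (i : ℕ) : ℕ) : A) := by
      rw [Nat.cast_sub (le_of_lt hj)]
      ring
    rw [h1]
    exact L6p_unit h0 _ (by have : (i : ℕ) < j := hj; omega) (by have := j.2; omega)
  have hU := (Matrix.isUnit_iff_isUnit_det _).mpr hV
  obtain ⟨U, hU⟩ := hU
  have h2 : (U : Matrix (Fin p) (Fin p) A).mulVec a = 0 := by
    rw [hU]
    funext j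
    rw [Matrix.mulVec, dotProduct, Pi.zero_apply, ← h ((j : ℕ) : ZMod p)]
    refine Finset.sum_congr rfl fun e _ => ?_
    rw [Matrix.vandermonde_apply, zc_natCast h0, mul_comm]
  have h3 : a = ((U⁻¹ : (Matrix (Fin p) (Fin p) A)ˣ) : Matrix (Fin p) (Fin p) A).mulVec
      ((U : Matrix (Fin p) (Fin p) A).mulVec a) := by
    rw [Matrix.mulVec_mulVec, Units.inv_mul, Matrix.one_mulVec]
  rw [h2, Matrix.mulVec_zero] at h3
  rw [h3]
  rfl

private theorem L6p_zero {p : ℕ} [hp : Fact p.Prime] {A : Type} [CommRing A] (h0 : (p : A) = 0) :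
    ∀ (m : ℕ) (z : Fin m → A) (a : (Fin m → Fin p) → A),
    (∀ w : Fin m → ZMod p, ∑ e : Fin m → Fin p, a e * ∏ r, (z r + zc A (w r)) ^ ((e r : Fin p) : ℕ) = 0) →
    ∀ e, a e = 0 := by
  intro m
  induction m with
  | zero =>
    intro z a h e
    have h1 := h (fun r => 0)
    rw [Fintype.sum_unique] at h1
    rw [Finset.univ_eq_empty, Finset.prod_empty, mul_one] at h1
    rw [Subsingleton.elim e (@default (Fin 0 → Fin p) Unique.instInhabited)]
    exact h1
  | succ m ih =>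
    intro z a h e
    have h1 : ∀ (w : Fin m → ZMod p) (e₀ : Fin p),
        ∑ e : Fin m → Fin p, a (Fin.cons e₀ e) * ∏ r, (z (Fin.succ r) + zc A (w r)) ^ ((e r : Fin p) : ℕ) = 0 := by
      intro w
      refine L6p_one h0 (z 0) _ fun w₀ => ?_
      rw [← h (Fin.cons w₀ w)]
      rw [← (Fin.consEquiv (fun _ : Fin (m + 1) => Fin p)).sum_comp, Fintype.sum_prod_type]
      refine Finset.sum_congr rfl fun e₀ _ => ?_
      rw [Finset.sum_mul]
      refine Finset.sum_congr rfl fun e _ => ?_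
      rw [Fin.prod_univ_succ]
      have h5 : (Fin.consEquiv (fun _ : Fin (m + 1) => Fin p)) (e₀, e) = Fin.cons e₀ e := rfl
      simp only [h5, Fin.cons_zero, Fin.cons_succ]
      ring
    have h2 := ih (fun r => z (Fin.succ r)) (fun e' => a (Fin.cons (e 0) e')) (fun w => h1 w (e 0))
      (Fin.tail e)
    simp only [Fin.cons_self_tail] at h2
    exact h2

/-- A polynomial of degree `< p` in each variable which is constant on `∏ (z_r + F_p)` is constant. -/
private theorem L6p_const {p : ℕ} [hp : Fact p.Prime] {A : Type} [CommRing A] (h0 : (p : A) = 0)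
    (m : ℕ) (z : Fin m → A) (a : (Fin m → Fin p) → A) (F : A)
    (h : ∀ w : Fin m → ZMod p,
      ∑ e : Fin m → Fin p, a e * ∏ r, (z r + zc A (w r)) ^ ((e r : Fin p) : ℕ) = F) :
    ∀ e, (∃ r, ((e r : Fin p) : ℕ) ≠ 0) → a e = 0 := by
  intro e he
  have hz : ∀ x : Fin p, ∀ y : A, (x : ℕ) = 0 → y ^ (x : ℕ) = 1 := by
    intro x y h
    rw [h, pow_zero]
  have h1 := L6p_zero h0 m z (fun e => a e - if (∀ r, ((e r : Fin p) : ℕ) = 0) then F else 0) (by
    intro w
    simp only [sub_mul, Finset.sum_sub_distrib]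
    rw [h w]
    rw [Finset.sum_eq_single (fun _ => ⟨0, hp.out.pos⟩)]
    · rw [if_pos (fun _ => rfl)]
      simp
    · intro b _ hb
      rw [if_neg, zero_mul]
      intro h'
      exact hb (funext fun r => Fin.ext (h' r))
    · intro h'
      exact absurd (Finset.mem_univ _) h') e
  obtain ⟨r, hr⟩ := he
  rw [if_neg (fun h' => hr (h' r)), sub_zero] at h1
  exact h1

private theorem L6k_one {p : ℕ} [hp : Fact p.Prime] : ∃ d : Fin p × Fin p → ℤ,
    ∀ (A : Type) [CommRing A] (x y : A), 1 - (y - x) ^ (p - 1) =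
      ∑ q : Fin p × Fin p, ((d q : ℤ) : A) * (x ^ ((q.1 : Fin p) : ℕ) * y ^ ((q.2 : Fin p) : ℕ)) := by
  have hp1 := hp.out.two_le
  refine ⟨fun q => (if (q.1 : ℕ) = 0 ∧ (q.2 : ℕ) = 0 then 1 else 0) -
    (if (q.1 : ℕ) + q.2 = p - 1 then (-1) ^ (q.1 : ℕ) * ((p - 1).choose (q.2 : ℕ) : ℤ) else 0), ?_⟩
  intro A _ x y
  simp only [Int.cast_sub, sub_mul, Finset.sum_sub_distrib]
  congr 1
  · rw [Finset.sum_eq_single (⟨0, by omega⟩, ⟨0, by omega⟩)]
    · simp
    · rintro ⟨b, c⟩ _ hb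
      rw [if_neg, Int.cast_zero, zero_mul]
      rintro ⟨h1, h2⟩
      exact hb (Prod.ext (Fin.ext h1) (Fin.ext h2))
    · intro h
      exact absurd (Finset.mem_univ _) h
  · rw [Fintype.sum_prod_type, Finset.sum_comm]
    rw [sub_eq_add_neg, add_pow]
    have hpp : p - 1 + 1 = p := by omega
    rw [hpp, Finset.sum_range]
    refine Finset.sum_congr rfl fun b _ => ?_
    rw [Finset.sum_eq_single (⟨p - 1 - (b : ℕ), by omega⟩)]
    · rw [if_pos (by simp only; have := b.2; omega)]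
      push_cast
      rw [neg_pow x]
      ring
    · intro c _ hc
      rw [if_neg, Int.cast_zero, zero_mul]
      intro h
      exact hc (Fin.ext (by simp only at h ⊢; omega))
    · intro h
      exact absurd (Finset.mem_univ _) h

/-- The expansion of `∏_r (1 - (y_r - x_r)^(p-1))`. -/
private theorem L6k_kron {p : ℕ} [hp : Fact p.Prime] (m : ℕ) :
    ∃ c : (Fin m → Fin p × Fin p) → ℤ, ∀ (A : Type) [CommRing A] (x y : Fin m → A),
      ∏ r, (1 - (y r - x r) ^ (p - 1)) = ∑ α : Fin m → Fin p × Fin p, ((c α : ℤ) : A) *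
        ((∏ r, x r ^ (((α r).1 : Fin p) : ℕ)) * ∏ r, y r ^ (((α r).2 : Fin p) : ℕ)) := by
  obtain ⟨d, hd⟩ := L6k_one (p := p)
  refine ⟨fun α => ∏ r, d (α r), ?_⟩
  intro A _ x y
  simp only [hd]
  rw [Finset.prod_univ_sum, Fintype.piFinset_univ]
  refine Finset.sum_congr rfl fun α _ => ?_
  rw [Finset.prod_mul_distrib, Finset.prod_mul_distrib, Int.cast_prod]

/-- The value of the Kronecker polynomial at `y = x + w`. -/
private theorem L6k_val {p : ℕ} [hp : Fact p.Prime] {A : Type} [CommRing A] (h0 : (p : A) = 0) (m : ℕ)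
    (x y : Fin m → A) (w : Fin m → ZMod p) (hw : ∀ r, y r = x r + zc A (w r)) :
    ∏ r, (1 - (y r - x r) ^ (p - 1)) = if w = 0 then 1 else 0 := by
  have hp1 := hp.out.two_le
  have hpow : ∀ (a : ZMod p) (n : ℕ), zc A (a ^ n) = zc A a ^ n := by
    intro a n
    induction n with
    | zero => rw [pow_zero, pow_zero, zc_one]
    | succ n ih => rw [pow_succ, pow_succ, zc_mul h0, ih]
  split_ifs with h
  · refine Finset.prod_eq_one fun r _ => ?_
    rw [hw r, h, add_sub_cancel_left, Pi.zero_apply, zc_zero, zero_pow (by omega), sub_zero]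
  · have h1 : ∃ r, w r ≠ 0 := by
      by_contra h2
      push Not at h2
      exact h (funext h2)
    obtain ⟨r, hr⟩ := h1
    refine Finset.prod_eq_zero (Finset.mem_univ r) ?_
    rw [hw r, add_sub_cancel_left, ← hpow, ZMod.pow_card_sub_one_eq_one hr, zc_one, sub_self]

set_option linter.unusedSectionVars false

section
variable {p : ℕ} [hp : Fact p.Prime] {A E G : Type} [CommRing A] [CommRing E] {m : ℕ}
  (ev : G → A →+* E) (z : G → Fin m → E)

/-- Functions of reduced form. -/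
private def L6_Red (p : ℕ) (ev : G → A →+* E) (z : G → Fin m → E) (f : G → E) : Prop :=
  ∃ a : (Fin m → Fin p) → A, ∀ x, f x =
    ∑ e : Fin m → Fin p, ev x (a e) * ∏ r, z x r ^ ((e r : Fin p) : ℕ)

private theorem L6_Red_add {f g : G → E} (hf : L6_Red p ev z f) (hg : L6_Red p ev z g) :
    L6_Red p ev z (fun x => f x + g x) := by
  obtain ⟨a, ha⟩ := hf
  obtain ⟨b, hb⟩ := hg
  refine ⟨fun e => a e + b e, fun x => ?_⟩
  simp only
  rw [ha x, hb x, ← Finset.sum_add_distrib]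
  refine Finset.sum_congr rfl fun e _ => ?_
  rw [map_add]
  ring

private theorem L6_Red_zero : L6_Red p ev z (fun _ => 0) :=
  ⟨fun _ => 0, fun x => by simp⟩

private theorem L6_Red_sum {ι : Type} (s : Finset ι) (f : ι → G → E)
    (hf : ∀ j ∈ s, L6_Red p ev z (f j)) : L6_Red p ev z (fun x => ∑ j ∈ s, f j x) := by
  induction s using Finset.induction_on with
  | empty => simpa using L6_Red_zero ev z
  | insert a s ha ih =>
    simp only [Finset.sum_insert ha]
    exact L6_Red_add ev z (hf a (Finset.mem_insert_self _ _))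
      (ih fun j hj => hf j (Finset.mem_insert_of_mem hj))

private theorem L6_Red_mono (a : A) (e : Fin m → Fin p) :
    L6_Red p ev z (fun x => ev x a * ∏ r, z x r ^ ((e r : Fin p) : ℕ)) := by
  refine ⟨fun e' => if e' = e then a else 0, fun x => ?_⟩
  rw [Finset.sum_eq_single e]
  · simp only [if_true]
  · intro b _ hb
    simp only [if_neg hb, map_zero, zero_mul]
  · intro h
    exact absurd (Finset.mem_univ _) h

private theorem L6_upd (y : Fin m → E) (e : Fin m → Fin p) (r₀ : Fin m) (v : Fin p) :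
    ∏ r, y r ^ ((Function.update e r₀ v r : Fin p) : ℕ) =
      y r₀ ^ (v : ℕ) * ∏ r ∈ Finset.univ.erase r₀, y r ^ ((e r : Fin p) : ℕ) := by
  rw [← Finset.mul_prod_erase Finset.univ _ (Finset.mem_univ r₀), Function.update_self]
  congr 1
  refine Finset.prod_congr rfl fun r hr => ?_
  rw [Function.update_of_ne (Finset.ne_of_mem_erase hr)]

private theorem L6_Red_mul_z (M : Fin m → A) (hz : ∀ x r, z x r ^ p - z x r = ev x (M r))
    (a : A) (e : Fin m → Fin p) (r₀ : Fin m) :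
    L6_Red p ev z (fun x => (ev x a * ∏ r, z x r ^ ((e r : Fin p) : ℕ)) * z x r₀) := by
  have hp1 := hp.out.two_le
  have h1 : ∀ x, ∏ r, z x r ^ ((e r : Fin p) : ℕ) = z x r₀ ^ ((e r₀ : Fin p) : ℕ) *
      ∏ r ∈ Finset.univ.erase r₀, z x r ^ ((e r : Fin p) : ℕ) := fun x =>
    (Finset.mul_prod_erase Finset.univ _ (Finset.mem_univ r₀)).symm
  by_cases h : ((e r₀ : Fin p) : ℕ) + 1 < p
  · have h2 := L6_Red_mono ev z a (Function.update e r₀ ⟨((e r₀ : Fin p) : ℕ) + 1, h⟩)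
    have h3 : (fun x => (ev x a * ∏ r, z x r ^ ((e r : Fin p) : ℕ)) * z x r₀) = fun x =>
        ev x a * ∏ r, z x r ^ ((Function.update e r₀ ⟨((e r₀ : Fin p) : ℕ) + 1, h⟩ r : Fin p) : ℕ) := by
      funext x
      rw [L6_upd, h1 x, pow_succ]
      ring
    rw [h3]
    exact h2
  · have h4 : ((e r₀ : Fin p) : ℕ) + 1 = p := by
      have := (e r₀).2
      omega
    have h2 := L6_Red_add ev z (L6_Red_mono ev z a (Function.update e r₀ ⟨1, by omega⟩))
      (L6_Red_mono ev z (a * M r₀) (Function.update e r₀ ⟨0, by omega⟩))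
    have h3 : (fun x => (ev x a * ∏ r, z x r ^ ((e r : Fin p) : ℕ)) * z x r₀) = fun x =>
        (ev x a * ∏ r, z x r ^ ((Function.update e r₀ ⟨1, by omega⟩ r : Fin p) : ℕ)) +
        ev x (a * M r₀) * ∏ r, z x r ^ ((Function.update e r₀ ⟨0, by omega⟩ r : Fin p) : ℕ) := by
      funext x
      rw [L6_upd, L6_upd, h1 x, map_mul, ← hz x r₀]
      have h5 : z x r₀ ^ p = z x r₀ ^ ((e r₀ : Fin p) : ℕ) * z x r₀ := by
        rw [← pow_succ, h4]
      rw [h5]
      simp only [pow_one, pow_zero]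
      ring
    rw [h3]
    exact h2

private theorem L6_red (M : Fin m → A) (hz : ∀ x r, z x r ^ p - z x r = ev x (M r))
    (q : MvPolynomial (Fin m) A) :
    L6_Red p ev z (fun x => MvPolynomial.eval₂Hom (ev x) (z x) q) := by
  have hp1 := hp.out.two_le
  induction q using MvPolynomial.induction_on with
  | C a =>
    have h := L6_Red_mono ev z a (fun _ => ⟨0, by omega⟩ : Fin m → Fin p)
    simpa using h
  | add f g hf hg =>
    simp only [map_add]
    exact L6_Red_add ev z hf hg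
  | mul_X f r₀ hf =>
    obtain ⟨a, ha⟩ := hf
    have h1 : (fun x => MvPolynomial.eval₂Hom (ev x) (z x) (f * MvPolynomial.X r₀)) = fun x =>
        ∑ e : Fin m → Fin p, (ev x (a e) * ∏ r, z x r ^ ((e r : Fin p) : ℕ)) * z x r₀ := by
      funext x
      have h2 := ha x
      simp only at h2
      rw [map_mul, h2, Finset.sum_mul, MvPolynomial.coe_eval₂Hom, MvPolynomial.eval₂_X]
    rw [h1]
    exact L6_Red_sum ev z _ _ fun e _ => L6_Red_mul_z ev z M hz (a e) e r₀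

end

section
variable {p : ℕ} [hp : Fact p.Prime] {k : Type} [Field k] [CharP k p]
    {P G G' : Type} [Group P] [Fintype P] [Group G] [Fintype G] [Group G'] [Fintype G']
    (i : P →* G) (Q : G →* G') (S : SC k[X] P)
    (D₁ : GD (Q.comp i) (zeE S) (actE S)) (S₁ : SC k[X] G') (hS₁ : S₁.ks = D₁.k) {m : ℕ}
    (ρ : G →* Matrix (Fin m) (Fin m) (ZMod p)) (c : G → Fin m → Al S₁) (ζ : Fin m → El S)

private def L6_W (p : ℕ) {E G : Type} [CommRing E] [Group G] {m : ℕ}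
    (ρ : G →* Matrix (Fin m) (Fin m) (ZMod p)) (x : G) (v : Fin m → E) (r : Fin m) : E :=
  ∑ t, zc E (ρ x r t) * v t

private theorem L6_El0 : ((p : ℕ) : El S) = 0 := by
  have h1 : ((p : ℕ) : k[X]) = 0 := by rw [← map_natCast C p, CharP.cast_eq_zero, map_zero]
  rw [← map_natCast (zeE S) p, h1, map_zero]

private theorem L6_W_mul {E : Type} [CommRing E] (h0 : ((p : ℕ) : E) = 0) (x y : G)
    (v : Fin m → E) (r : Fin m) : L6_W p ρ (x * y) v r = L6_W p ρ x (L6_W p ρ y v) r := by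
  let zh : ZMod p →+* E :=
    { toFun := zc E
      map_one' := zc_one
      map_mul' := zc_mul h0
      map_zero' := zc_zero
      map_add' := zc_add h0 }
  have hzh : ∀ a, zc E a = zh a := fun a => rfl
  simp only [L6_W, hzh, map_mul ρ, Matrix.mul_apply, map_sum, map_mul, Finset.sum_mul,
    Finset.mul_sum]
  rw [Finset.sum_comm]
  refine Finset.sum_congr rfl fun s _ => Finset.sum_congr rfl fun t _ => ?_
  rw [mul_assoc]

private theorem L6_W_of_one {E : Type} [CommRing E] (x : G) (hx : ρ x = 1)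
    (v : Fin m → E) (r : Fin m) : L6_W p ρ x v r = v r := by
  rw [L6_W, hx, Finset.sum_eq_single r]
  · rw [Matrix.one_apply_eq, zc_one, one_mul]
  · intro b _ hb
    rw [Matrix.one_apply_ne (Ne.symm hb), zc_zero, zero_mul]
  · intro h
    exact absurd (Finset.mem_univ _) h

private theorem L6_W_inj {E : Type} [CommRing E] (h0 : ((p : ℕ) : E) = 0) (x : G)
    {v w : Fin m → E} (h : ∀ r, L6_W p ρ x v r = L6_W p ρ x w r) (r : Fin m) : v r = w r := by
  have h1 : ∀ u : Fin m → E, u r = L6_W p ρ x⁻¹ (L6_W p ρ x u) r := by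
    intro u
    rw [← L6_W_mul ρ h0, inv_mul_cancel, L6_W_of_one ρ 1 (map_one ρ)]
  rw [h1 v, h1 w, funext h]

private def L6_Y (x : G) (t : Fin m) : El S := ζ t + D₁.ev S₁ hS₁ 1 (c x t)

private def L6_z (x : G) (r : Fin m) : El S :=
  L6_W p ρ x⁻¹ (L6_Y i Q S D₁ S₁ hS₁ c ζ x) r

private theorem L6_Wz (x : G) (r : Fin m) :
    L6_W p ρ x (L6_z i Q S D₁ S₁ hS₁ ρ c ζ x) r = L6_Y i Q S D₁ S₁ hS₁ c ζ x r := by
  have h1 : L6_z i Q S D₁ S₁ hS₁ ρ c ζ x = L6_W p ρ x⁻¹ (L6_Y i Q S D₁ S₁ hS₁ c ζ x) := rfl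
  rw [h1, ← L6_W_mul ρ (L6_El0 S), mul_inv_cancel, L6_W_of_one ρ 1 (map_one ρ)]

variable (hc : ∀ g h r, c (g * h) r = c g r + ∑ t, zc (Al S₁) (ρ g r t) * Al.act S₁ (Q g) (c h t))

include hc in
private theorem L6_b (g x : G) (r : Fin m) :
    L6_W p ρ g (L6_z i Q S D₁ S₁ hS₁ ρ c ζ (x * g)) r =
      L6_z i Q S D₁ S₁ hS₁ ρ c ζ x r + D₁.ev S₁ hS₁ (Q x) (c g r) := by
  refine L6_W_inj (v := fun r => L6_W p ρ g (L6_z i Q S D₁ S₁ hS₁ ρ c ζ (x * g)) r)
    (w := fun r => L6_z i Q S D₁ S₁ hS₁ ρ c ζ x r + D₁.ev S₁ hS₁ (Q x) (c g r)) ρ (L6_El0 S) x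
    (fun r => ?_) r
  have h1 : L6_W p ρ x (fun r => L6_W p ρ g (L6_z i Q S D₁ S₁ hS₁ ρ c ζ (x * g)) r) r =
      L6_Y i Q S D₁ S₁ hS₁ c ζ (x * g) r := by
    rw [← L6_Wz i Q S D₁ S₁ hS₁ ρ c ζ (x * g) r, L6_W_mul ρ (L6_El0 S)]
  have h2 : L6_W p ρ x (fun r => L6_z i Q S D₁ S₁ hS₁ ρ c ζ x r + D₁.ev S₁ hS₁ (Q x) (c g r)) r =
      L6_Y i Q S D₁ S₁ hS₁ c ζ x r + ∑ t, zc (El S) (ρ x r t) * D₁.ev S₁ hS₁ (Q x) (c g t) := by
    rw [← L6_Wz i Q S D₁ S₁ hS₁ ρ c ζ x r, L6_W, L6_W, ← Finset.sum_add_distrib]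
    refine Finset.sum_congr rfl fun t _ => ?_
    ring
  rw [h1, h2, L6_Y, L6_Y, hc, map_add, map_sum, ← add_assoc]
  congr 1
  refine Finset.sum_congr rfl fun t _ => ?_
  rw [map_mul, map_zc, D₁.ev_act, one_mul]

include hc in
private theorem L6_a (hζP : ∀ u r, ∑ t, zc (El S) (ρ (i u) r t) * actE S u (ζ t) =
      ζ r + D₁.ev S₁ hS₁ 1 (c (i u) r)) (u : P) (x : G) (r : Fin m) :
    L6_z i Q S D₁ S₁ hS₁ ρ c ζ (i u * x) r = actE S u (L6_z i Q S D₁ S₁ hS₁ ρ c ζ x r) := by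
  refine L6_W_inj (v := L6_z i Q S D₁ S₁ hS₁ ρ c ζ (i u * x))
    (w := fun r => actE S u (L6_z i Q S D₁ S₁ hS₁ ρ c ζ x r)) ρ (L6_El0 S) (i u * x)
    (fun r => ?_) r
  rw [L6_Wz, L6_W_mul ρ (L6_El0 S)]
  have h1 : L6_W p ρ x (fun r => actE S u (L6_z i Q S D₁ S₁ hS₁ ρ c ζ x r)) = fun t =>
      actE S u (L6_Y i Q S D₁ S₁ hS₁ c ζ x t) := by
    funext t
    rw [← L6_Wz, L6_W, L6_W, map_sum]
    refine Finset.sum_congr rfl fun s _ => ?_
    rw [map_mul, map_zc]
  rw [h1, L6_W]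
  simp only [L6_Y, map_add, mul_add, Finset.sum_add_distrib]
  rw [hζP, hc, map_add, map_sum, ← add_assoc]
  congr 1
  refine Finset.sum_congr rfl fun t _ => ?_
  rw [map_mul, map_zc, D₁.ev_act, one_mul, ← D₁.ev_P (actE_zeE S), mul_one]
  rfl

private theorem L6_c (M : Fin m → Al S₁)
    (hcM : ∀ g r, ∑ t, zc (Al S₁) (ρ g r t) * Al.act S₁ (Q g) (M t) = M r + (c g r ^ p - c g r))
    (hζ : ∀ r, ζ r ^ p - ζ r = D₁.ev S₁ hS₁ 1 (M r)) (x : G) (r : Fin m) :
    L6_z i Q S D₁ S₁ hS₁ ρ c ζ x r ^ p - L6_z i Q S D₁ S₁ hS₁ ρ c ζ x r =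
      D₁.ev S₁ hS₁ (Q x) (M r) := by
  have hpow : ∀ {ι : Type} (s : Finset ι) (f : ι → El S), (∑ j ∈ s, f j) ^ p = ∑ j ∈ s, f j ^ p := by
    intro ι s f
    induction s using Finset.induction_on with
    | empty => rw [Finset.sum_empty, Finset.sum_empty, zero_pow hp.out.ne_zero]
    | insert a s ha ih => rw [Finset.sum_insert ha, Finset.sum_insert ha,
        add_pow_p (L6_El0 S), ih]
  refine L6_W_inj (v := fun r => L6_z i Q S D₁ S₁ hS₁ ρ c ζ x r ^ p - L6_z i Q S D₁ S₁ hS₁ ρ c ζ x r)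
    (w := fun r => D₁.ev S₁ hS₁ (Q x) (M r)) ρ (L6_El0 S) x (fun r => ?_) r
  have h1 : L6_W p ρ x (fun r => L6_z i Q S D₁ S₁ hS₁ ρ c ζ x r ^ p -
      L6_z i Q S D₁ S₁ hS₁ ρ c ζ x r) r = L6_Y i Q S D₁ S₁ hS₁ c ζ x r ^ p -
      L6_Y i Q S D₁ S₁ hS₁ c ζ x r := by
    rw [← L6_Wz i Q S D₁ S₁ hS₁ ρ c ζ x r, L6_W, L6_W, hpow, ← Finset.sum_sub_distrib]
    refine Finset.sum_congr rfl fun t _ => ?_
    rw [mul_pow, zc_pow (L6_El0 S)]
    ring
  rw [h1, L6_W, L6_Y, add_pow_p (L6_El0 S)]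
  have h2 : ∑ t, zc (El S) (ρ x r t) * D₁.ev S₁ hS₁ (Q x) (M t) =
      D₁.ev S₁ hS₁ 1 (M r + (c x r ^ p - c x r)) := by
    rw [← hcM, map_sum]
    refine Finset.sum_congr rfl fun t _ => ?_
    rw [map_mul, map_zc, D₁.ev_act, one_mul]
  rw [h2, map_add, ← hζ, map_sub, map_pow]
  ring

end

theorem exists_ext_cover {p : ℕ} [hp : Fact p.Prime] {k : Type} [Field k] [CharP k p]
    {P G G' : Type} [Group P] [Fintype P] [Group G] [Fintype G] [Group G'] [Fintype G']
    (i : P →* G) (Q : G →* G') (hQ : Function.Surjective Q) (S : SC k[X] P)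
    (D₁ : GD (Q.comp i) (zeE S) (actE S)) (S₁ : SC k[X] G') (hS₁ : S₁.ks = D₁.k) (m : ℕ)
    (v : G → Fin m → ZMod p) (ρ : G →* Matrix (Fin m) (Fin m) (ZMod p))
    (hvi : ∀ a b, Q a = 1 → Q b = 1 → v a = v b → a = b) (hvs : ∀ w, ∃ n, Q n = 1 ∧ v n = w)
    (hρ1 : ∀ n, Q n = 1 → ρ n = 1) (c : G → Fin m → Al S₁) (M : Fin m → Al S₁)
    (hc : ∀ g h r, c (g * h) r = c g r + ∑ t, zc (Al S₁) (ρ g r t) * Al.act S₁ (Q g) (c h t))
    (hcn : ∀ n, Q n = 1 → ∀ r, c n r = zc (Al S₁) (v n r))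
    (hcM : ∀ g r, ∑ t, zc (Al S₁) (ρ g r t) * Al.act S₁ (Q g) (M t) = M r + (c g r ^ p - c g r))
    (ζ : Fin m → El S) (hζ : ∀ r, ζ r ^ p - ζ r = D₁.ev S₁ hS₁ 1 (M r))
    (hζP : ∀ u r, ∑ t, zc (El S) (ρ (i u) r t) * actE S u (ζ t) =
      ζ r + D₁.ev S₁ hS₁ 1 (c (i u) r)) :
    ∃ D : GD i (zeE S) (actE S), ∀ (f : G → k[X]) (c' : G → k),
      (∀ x, ∑ l, zeE S (f l) * D.b l x = zeE S (C (c' x))) →
      (∀ x n, Q n = 1 → c' (x * n) = c' x) →
      ∃ f' : G' → k[X], ∀ x, ∑ l, zeE S (f' l) * D₁.b l (Q x) = zeE S (C (c' x)) := by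
  have hp1 := hp.out.two_le
  have hE0 : ((p : ℕ) : El S) = 0 := L6_El0 S
  have hnt : Nontrivial (El S) := (oE_injective S).nontrivial
  have htf : ∀ (f : k[X]) (a : El S), zeE S f * a = 0 → f = 0 ∨ a = 0 := by
    intro f a hfa
    by_cases hf : f = 0
    · exact Or.inl hf
    · right
      refine Al.ext fun l => ?_
      have h1 : (zeE S f * a) l = AI.zinv k f * a l := Al.cst_mul _ _ _ _
      rw [hfa] at h1
      have h2 : AI.zinv k f ≠ 0 := by
        intro h3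
        exact hf (AI.zinv_injective (h3.trans (map_zero _).symm))
      exact (mul_eq_zero.1 h1.symm).resolve_left h2
  have hzc0 : ∀ a : ZMod p, zc (El S) a = 0 → a = 0 := by
    intro a ha
    by_contra h
    have h1 : zc (El S) a * zc (El S) a⁻¹ = 1 := by
      rw [← zc_mul hE0, mul_inv_cancel₀ h, zc_one]
    rw [ha, zero_mul] at h1
    exact zero_ne_one h1
  obtain ⟨z, hzdef⟩ : ∃ z : G → Fin m → El S, z = L6_z i Q S D₁ S₁ hS₁ ρ c ζ := ⟨_, rfl⟩
  obtain ⟨ev, hev⟩ : ∃ ev : G → Al S₁ →+* El S, ∀ x, ev x = D₁.ev S₁ hS₁ (Q x) := ⟨_, fun _ => rfl⟩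
  have hz : ∀ x r, z x r ^ p - z x r = ev x (M r) := by
    intro x r
    rw [hzdef, hev]
    exact L6_c i Q S D₁ S₁ hS₁ ρ c ζ M hcM hζ x r
  have hb : ∀ g x r, L6_W p ρ g (z (x * g)) r = z x r + ev x (c g r) := by
    intro g x r
    rw [hzdef, hev]
    exact L6_b i Q S D₁ S₁ hS₁ ρ c ζ hc g x r
  have hza : ∀ u x r, z (i u * x) r = actE S u (z x r) := by
    intro u x r
    rw [hzdef]
    exact L6_a i Q S D₁ S₁ hS₁ ρ c ζ hc hζP u x r
  have hN : ∀ x n, Q n = 1 → ∀ r, z (x * n) r = z x r + zc (El S) (v n r) := by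
    intro x n hn r
    rw [← L6_W_of_one ρ n (hρ1 n hn) (z (x * n)) r, hb, hcn n hn, map_zc]
  have hevN : ∀ x n, Q n = 1 → ev (x * n) = ev x := by
    intro x n hn
    rw [hev, hev, map_mul, hn, mul_one]
  have hv1 : v 1 = 0 := by
    funext r
    have h1 := hN 1 1 (map_one Q) r
    rw [mul_one] at h1
    exact hzc0 _ (left_eq_add.mp h1)
  have hred := L6_red ev z M hz
  obtain ⟨Z, hZ⟩ : ∃ Z : Subring (G → El S), ∀ f, f ∈ Z ↔
      ∃ q, ∀ x, f x = MvPolynomial.eval₂Hom (ev x) (z x) q := by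
    refine ⟨(RingHom.pi fun x => MvPolynomial.eval₂Hom (ev x) (z x)).range, fun f => ?_⟩
    rw [RingHom.mem_range]
    constructor
    · rintro ⟨q, hq⟩
      exact ⟨q, fun x => by rw [← hq]; rfl⟩
    · rintro ⟨q, hq⟩
      exact ⟨q, funext fun x => (hq x).symm⟩
  have hRed : ∀ f ∈ Z, L6_Red p ev z f := by
    intro f hf
    obtain ⟨q, hq⟩ := (hZ f).mp hf
    obtain ⟨a, ha⟩ := hred q
    exact ⟨a, fun x => by rw [hq x]; exact ha x⟩
  have hmono : ∀ (a : Al S₁) (e : Fin m → ℕ), (fun x => ev x a * ∏ r, z x r ^ e r) ∈ Z := by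
    intro a e
    rw [hZ]
    refine ⟨MvPolynomial.C a * ∏ r, MvPolynomial.X r ^ e r, fun x => ?_⟩
    rw [map_mul, map_prod, MvPolynomial.coe_eval₂Hom, MvPolynomial.eval₂_C]
    congr 1
    refine Finset.prod_congr rfl fun r _ => ?_
    rw [← MvPolynomial.coe_eval₂Hom, map_pow, MvPolynomial.coe_eval₂Hom, MvPolynomial.eval₂_X]
  have hNinv : ∀ f ∈ Z, (∀ x n, Q n = 1 → f (x * n) = f x) → ∃ a : Al S₁, ∀ x, f x = ev x a := by
    intro f hf hfi
    obtain ⟨a, ha⟩ := hRed f hf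
    refine ⟨a (fun _ => ⟨0, by omega⟩), fun x => ?_⟩
    have h1 : ∀ e : Fin m → Fin p, (∃ r, ((e r : Fin p) : ℕ) ≠ 0) → ev x (a e) = 0 := by
      refine L6p_const hE0 m (z x) (fun e => ev x (a e)) (f x) fun w => ?_
      obtain ⟨n, hn, hw⟩ := hvs w
      rw [← hfi x n hn, ha (x * n), hevN x n hn]
      refine Finset.sum_congr rfl fun e _ => ?_
      congr 1
      refine Finset.prod_congr rfl fun r _ => ?_
      rw [hN x n hn, hw]
    rw [ha x, Finset.sum_eq_single (fun _ => ⟨0, by omega⟩)]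
    · simp
    · intro e _ he
      rw [h1 e, zero_mul]
      by_contra h2
      push Not at h2
      exact he (funext fun r => Fin.ext (h2 r))
    · intro h
      exact absurd (Finset.mem_univ _) h
  obtain ⟨D, hD1, -⟩ := exists_GD i (zeE S) (actE S) htf Z
    (by
      intro f hf u x
      obtain ⟨q, hq⟩ := (hZ f).mp hf
      rw [hq, hq]
      have h1 : (actE S u).comp (MvPolynomial.eval₂Hom (ev x) (z x)) =
          MvPolynomial.eval₂Hom (ev (i u * x)) (z (i u * x)) := by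
        refine MvPolynomial.ringHom_ext (fun a => ?_) (fun r => ?_)
        · rw [RingHom.comp_apply, MvPolynomial.coe_eval₂Hom, MvPolynomial.coe_eval₂Hom,
            MvPolynomial.eval₂_C, MvPolynomial.eval₂_C, hev, hev, map_mul,
            ← D₁.ev_P (actE_zeE S)]
          rfl
        · rw [RingHom.comp_apply, MvPolynomial.coe_eval₂Hom, MvPolynomial.coe_eval₂Hom,
            MvPolynomial.eval₂_X, MvPolynomial.eval₂_X, hza]
      rw [← h1]
      rfl)
    (by
      intro f hf h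
      obtain ⟨q, hq⟩ := (hZ f).mp hf
      rw [hZ]
      refine ⟨MvPolynomial.eval₂Hom (MvPolynomial.C.comp (Al.act S₁ (Q h)))
        (fun r => ∑ t, MvPolynomial.C (zc (Al S₁) (ρ h⁻¹ r t)) *
          (MvPolynomial.X t + MvPolynomial.C (c h t))) q, fun x => ?_⟩
      rw [hq]
      have h1 : (MvPolynomial.eval₂Hom (ev x) (z x)).comp
          (MvPolynomial.eval₂Hom (MvPolynomial.C.comp (Al.act S₁ (Q h)))
            (fun r => ∑ t, MvPolynomial.C (zc (Al S₁) (ρ h⁻¹ r t)) *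
              (MvPolynomial.X t + MvPolynomial.C (c h t)))) =
          MvPolynomial.eval₂Hom (ev (x * h)) (z (x * h)) := by
        refine MvPolynomial.ringHom_ext (fun a => ?_) (fun r => ?_)
        · rw [RingHom.comp_apply, MvPolynomial.coe_eval₂Hom, MvPolynomial.coe_eval₂Hom,
            MvPolynomial.eval₂_C, MvPolynomial.coe_eval₂Hom, MvPolynomial.eval₂_C,
            RingHom.comp_apply, MvPolynomial.eval₂_C, hev, hev, map_mul, D₁.ev_act]
        · rw [RingHom.comp_apply, MvPolynomial.coe_eval₂Hom (MvPolynomial.C.comp _),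
            MvPolynomial.eval₂_X, MvPolynomial.coe_eval₂Hom (ev (x * h)),
            MvPolynomial.eval₂_X, map_sum]
          have h2 : z (x * h) r = L6_W p ρ h⁻¹ (L6_W p ρ h (z (x * h))) r := by
            rw [← L6_W_mul ρ hE0, inv_mul_cancel, L6_W_of_one ρ 1 (map_one ρ)]
          rw [h2, L6_W]
          refine Finset.sum_congr rfl fun t _ => ?_
          rw [map_mul, map_add, hb]
          simp only [MvPolynomial.coe_eval₂Hom, MvPolynomial.eval₂_C, MvPolynomial.eval₂_X]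
          rw [map_zc]
      rw [← h1]
      rfl)
    (by
      intro f
      rw [hZ]
      refine ⟨MvPolynomial.C (Al.cst S₁ f), fun x => ?_⟩
      rw [MvPolynomial.coe_eval₂Hom, MvPolynomial.eval₂_C, hev, D₁.ev_cst])
    (by
      refine ⟨Fintype.card (G' × (Fin m → Fin p)), fun j => fun x =>
        ev x (Al.e S₁ ((Fintype.equivFin (G' × (Fin m → Fin p))).symm j).1) *
          ∏ r, z x r ^ ((((Fintype.equivFin (G' × (Fin m → Fin p))).symm j).2 r : Fin p) : ℕ),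
        fun j => hmono _ _, ?_⟩
      intro f hf
      obtain ⟨a, ha⟩ := hRed f hf
      refine ⟨fun j => a ((Fintype.equivFin (G' × (Fin m → Fin p))).symm j).2
        ((Fintype.equivFin (G' × (Fin m → Fin p))).symm j).1, fun x => ?_⟩
      rw [(Fintype.equivFin (G' × (Fin m → Fin p))).symm.sum_comp
        (fun b : G' × (Fin m → Fin p) => zeE S (a b.2 b.1) * (ev x (Al.e S₁ b.1) *
          ∏ r, z x r ^ ((b.2 r : Fin p) : ℕ))),
        Fintype.sum_prod_type, Finset.sum_comm, ha x]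
      refine Finset.sum_congr rfl fun e _ => ?_
      rw [hev, D₁.ev_apply, Finset.sum_mul]
      refine Finset.sum_congr rfl fun l _ => ?_
      rw [D₁.ev_e, mul_assoc])
    (by
      intro f hf hfi
      obtain ⟨a, ha⟩ := hNinv f hf (fun x n _ => hfi n x)
      have h1 : ∀ h', Al.act S₁ h' a = a := by
        intro h'
        refine D₁.coord_eq (zeE_injective S) (Al.act S₁ h' a) a fun y => ?_
        rw [← D₁.ev_apply S₁ hS₁, ← D₁.ev_apply S₁ hS₁, D₁.ev_act]
        obtain ⟨x, rfl⟩ := hQ y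
        obtain ⟨h, rfl⟩ := hQ h'
        rw [← map_mul, ← hev, ← hev, ← ha, ← ha, hfi]
      obtain ⟨b, hb'⟩ := fixed S₁ a h1
      refine ⟨b, fun x => ?_⟩
      rw [ha x, hev, hb', D₁.ev_cst])
    (by
      obtain ⟨co, hco⟩ := L6k_kron (p := p) m
      let I := (G' × G') × (Fin m → Fin p × Fin p)
      refine ⟨Fintype.card I,
        fun j => fun x => ev x ((((co ((Fintype.equivFin I).symm j).2 : ℤ)) : Al S₁) *
          (Al.e S₁ ((Fintype.equivFin I).symm j).1.1 *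
            Al.cst S₁ (S₁.T' ((Fintype.equivFin I).symm j).1.1 ((Fintype.equivFin I).symm j).1.2))) *
          ∏ r, z x r ^ ((((Fintype.equivFin I).symm j).2 r).1 : ℕ),
        fun j => fun x => ev x (Al.e S₁ ((Fintype.equivFin I).symm j).1.2) *
          ∏ r, z x r ^ ((((Fintype.equivFin I).symm j).2 r).2 : ℕ),
        fun j => hmono _ _, fun j => hmono _ _, fun x x' => ?_⟩
      rw [(Fintype.equivFin I).symm.sum_comp
        (fun b : I => (ev x ((((co b.2 : ℤ)) : Al S₁) *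
          (Al.e S₁ b.1.1 * Al.cst S₁ (S₁.T' b.1.1 b.1.2))) *
          ∏ r, z x r ^ ((b.2 r).1 : ℕ)) * (ev x' (Al.e S₁ b.1.2) *
          ∏ r, z x' r ^ ((b.2 r).2 : ℕ))), Fintype.sum_prod_type]
      have h1 : ∀ b : G' × G', ∑ α : Fin m → Fin p × Fin p, (ev x ((((co α : ℤ)) : Al S₁) *
          (Al.e S₁ b.1 * Al.cst S₁ (S₁.T' b.1 b.2))) *
          ∏ r, z x r ^ ((α r).1 : ℕ)) * (ev x' (Al.e S₁ b.2) *
          ∏ r, z x' r ^ ((α r).2 : ℕ)) =
          (D₁.b b.1 (Q x) * zeE S (D₁.k.T' b.1 b.2) * D₁.b b.2 (Q x')) *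
          ∏ r, (1 - (z x' r - z x r) ^ (p - 1)) := by
        intro b
        rw [hco, Finset.mul_sum]
        refine Finset.sum_congr rfl fun α _ => ?_
        rw [map_mul, map_mul, map_intCast, hev, hev, D₁.ev_e, D₁.ev_e, D₁.ev_cst, ← hS₁]
        simp only [SC.ks]
        ring
      rw [Finset.sum_congr rfl fun b _ => h1 b, ← Finset.sum_mul, Fintype.sum_prod_type,
        D₁.hdual]
      by_cases hx : Q x = Q x'
      · have h2 : x' = x * (x⁻¹ * x') := by group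
        have h3 : Q (x⁻¹ * x') = 1 := by
          rw [map_mul, map_inv, hx, inv_mul_cancel]
        have h4 : ∀ r, z x' r = z x r + zc (El S) (v (x⁻¹ * x') r) := by
          intro r
          rw [← hN x _ h3, ← h2]
        rw [if_pos hx, one_mul, L6k_val hE0 m (z x) (z x') _ h4]
        by_cases hxx : x = x'
        · subst hxx
          rw [if_pos rfl, if_pos]
          rw [inv_mul_cancel, hv1]
        · rw [if_neg hxx, if_neg]
          intro h5
          have h6 := hvi (x⁻¹ * x') 1 h3 (map_one Q) (h5.trans hv1.symm)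
          exact hxx (inv_mul_eq_one.mp h6)
      · rw [if_neg hx, zero_mul, if_neg]
        intro h5
        exact hx (congrArg Q h5))
  refine ⟨D, fun f c' h1 h2 => ?_⟩
  have h3 : (fun x => ∑ l, zeE S (f l) * D.b l x) ∈ Z := by
    have h4 : (fun x => ∑ l, zeE S (f l) * D.b l x) =
        ∑ l, (fun _ => zeE S (f l)) * (fun x => D.b l x) := by
      funext x
      rw [Finset.sum_apply]
      rfl
    rw [h4]
    refine Subring.sum_mem _ fun l _ => Subring.mul_mem _ ?_ (hD1 l)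
    rw [hZ]
    refine ⟨MvPolynomial.C (Al.cst S₁ (f l)), fun x => ?_⟩
    rw [MvPolynomial.coe_eval₂Hom, MvPolynomial.eval₂_C, hev, D₁.ev_cst]
  obtain ⟨a, ha⟩ := hNinv _ h3 (by
    intro x n hn
    rw [h1, h1, h2 x n hn])
  refine ⟨a, fun x => ?_⟩
  rw [← D₁.ev_apply S₁ hS₁, ← hev, ← ha x, h1]

end

end Pool.Agent.MP_1c8e06_ag.AJ
end

section

set_option autoImplicit false

open Polynomial
open scoped Classical

namespace Pool.Agent.MP_1c8e06_ag.AJ

noncomputable section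

/-!
# Task L8: embedding problems with elementary abelian kernel (assembly)

Proof.  `Q := QuotientGroup.mk' N : G → G ⧸ N`.  `h` : `S', TC p S', D'`, `D'.Conn' ⊤`.  `P'` is a `p`-group (image of
`P`), `El S'` is a field (`isField_El`).  `exists_ext`: `S, TC p S, J`.  `push_quot`: `D₁ : GD (Q.comp i) (zeE S) (actE S)`,
`D₁.Conn' ⊤`.  `GD.exists_SC` (`zeE_injective`): `S₁` with `S₁.ks = D₁.k`.  `exists_coords`: `m, v, ρ`.
`exists_cm` for `Q`, `S₁`: `c, M₀`.
Cocycle on `P`: `c_P u r := ev 1 (c (i u) r) ∈ El S`, `ρ_P := ρ.comp i`: the hypothesis of `H1v` by `hc`, `ev_act`, `ev_P`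
(`ev 1 (act (Q (i u)) a) = ev (Q (i u) * 1) a = actE u (ev 1 a)`), `map_zc`.  `H1v`: `ζ₀`.
`w r := (ζ₀ r)^p - ζ₀ r - ev 1 (M₀ r)` satisfies the hypothesis of `key` (`zc_pow`, `add_pow_p`, the third property of
`exists_cm`).  `key`: `f, w₁`.  `M r := M₀ r + f r` (third property of `exists_cm` holds for `M` too),
`ζ r := ζ₀ r - w₁ r`: `ζ^p - ζ = ev 1 (M r)`.  `exists_ext_cover`, `component_group` (`Q.ker = N`).
-/

theorem L8.sum_pow_p {p : ℕ} [hp : Fact p.Prime] {A : Type} [CommRing A] (h0 : (p : A) = 0)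
    {ι : Type} (s : Finset ι) (f : ι → A) : (∑ i ∈ s, f i) ^ p = ∑ i ∈ s, f i ^ p := by
  induction s using Finset.induction_on with
  | empty => simp [hp.out.ne_zero]
  | insert a s ha ih => rw [Finset.sum_insert ha, Finset.sum_insert ha, add_pow_p h0, ih]

theorem L8.sub_pow_p {p : ℕ} [hp : Fact p.Prime] {A : Type} [CommRing A] (h0 : (p : A) = 0)
    (x y : A) : (x - y) ^ p = x ^ p - y ^ p := by
  have h := add_pow_p h0 (x - y) y
  rw [sub_add_cancel] at h
  rw [h, add_sub_cancel_right]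

theorem lift_p {p : ℕ} [hp : Fact p.Prime] {k : Type} [Field k] [IsAlgClosed k] [CharP k p]
    {P P' G : Type} [Group P] [Fintype P] [Group P'] [Fintype P'] [Group G] [Fintype G]
    (hP : IsPGroup p P) (i : P →* G) (N : Subgroup G) [N.Normal] (hNp : ∀ n ∈ N, n ^ p = 1)
    (hNc : ∀ a ∈ N, ∀ b ∈ N, a * b = b * a) (q : P →* P') (hq : Function.Surjective q)
    (i' : P' →* G ⧸ N) (hc : ∀ u, i' (q u) = QuotientGroup.mk (i u)) (h : RE p k i' ⊤) :
    ∃ H : Subgroup G, i.range ≤ H ∧ H ⊔ N = ⊤ ∧ RE p k i H := by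
  obtain ⟨S', hTC', D', hD'⟩ := h
  have hP' : IsPGroup p P' := hP.of_surjective q hq
  have hF : IsField (El S') := isField_El hP' S' hTC'
  obtain ⟨S, hTC, J, hJ, hJa⟩ := exists_ext hP q hq S' hTC'
  obtain ⟨Q, hQdef⟩ : ∃ Q : G →* G ⧸ N, Q = QuotientGroup.mk' N := ⟨_, rfl⟩
  have hQs : Function.Surjective Q := by
    rw [hQdef]
    exact QuotientGroup.mk'_surjective N
  have hQN : ∀ g, Q g = 1 ↔ g ∈ N := by
    intro g
    rw [hQdef]
    exact QuotientGroup.eq_one_iff g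
  have hker : Q.ker = N := by
    rw [hQdef]
    exact QuotientGroup.ker_mk' N
  have hc' : ∀ u, i' (q u) = Q (i u) := by
    intro u
    rw [hc, hQdef]
    rfl
  obtain ⟨D₁, hD₁⟩ := push_quot i Q q i' hc' S' hF S J hJ hJa D' hD'
  obtain ⟨S₁, hS₁⟩ := D₁.exists_SC (zeE_injective S)
  obtain ⟨m, v, ρ, hv1, hv2, hv3, hv4, hv5⟩ := exists_coords N hNp hNc
  obtain ⟨c, M₀, hc1, hc2, hc3⟩ := exists_cm Q hQs m v ρ
    (fun a b ha hb => hv1 a ((hQN a).1 ha) b ((hQN b).1 hb))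
    (fun g n hn => hv4 g n ((hQN n).1 hn)) (fun n hn => hv5 n ((hQN n).1 hn)) S₁
  obtain ⟨ev, hevdef⟩ : ∃ ev : Al S₁ →+* El S, ev = D₁.ev S₁ hS₁ 1 := ⟨_, rfl⟩
  have hev : ∀ u a, ev (Al.act S₁ (Q (i u)) a) = actE S u (ev a) := by
    intro u a
    rw [hevdef, D₁.ev_act, one_mul]
    have h2 := D₁.ev_P (actE_zeE S) S₁ hS₁ u 1 a
    rw [mul_one] at h2
    exact h2
  have h0 : ((p : ℕ) : El S) = 0 := by
    rw [← map_natCast (zeE S) p, CharP.cast_eq_zero, map_zero]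
  obtain ⟨ζ₀, hζ₀⟩ := H1v S m (ρ.comp i) (fun u r => ev (c (i u) r)) (by
    intro u x r
    simp only [MonoidHom.comp_apply]
    rw [map_mul, hc1, map_add, map_sum]
    congr 1
    refine Finset.sum_congr rfl fun t _ => ?_
    rw [map_mul, map_zc, hev])
  simp only [MonoidHom.comp_apply] at hζ₀
  have hw : ∀ u r, ∑ t, zc (El S) (ρ (i u) r t) * actE S u (ζ₀ t ^ p - ζ₀ t - ev (M₀ t)) =
      ζ₀ r ^ p - ζ₀ r - ev (M₀ r) := by
    intro u r
    have h1 : ∑ t, zc (El S) (ρ (i u) r t) * actE S u (ζ₀ t ^ p) =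
        (ζ₀ r + ev (c (i u) r)) ^ p := by
      rw [← hζ₀, L8.sum_pow_p h0]
      refine Finset.sum_congr rfl fun t _ => ?_
      rw [mul_pow, zc_pow h0, map_pow]
    have h3 : ∑ t, zc (El S) (ρ (i u) r t) * actE S u (ev (M₀ t)) =
        ev (M₀ r + (c (i u) r ^ p - c (i u) r)) := by
      rw [← hc3, map_sum]
      refine Finset.sum_congr rfl fun t _ => ?_
      rw [map_mul, map_zc, hev]
    simp only [map_sub, mul_sub, Finset.sum_sub_distrib]
    rw [h1, h3, hζ₀, add_pow_p h0, map_add, map_sub, map_pow]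
    ring
  obtain ⟨f, w₁, hf, hw₁, hk⟩ := key i Q hQs S D₁ S₁ hS₁ m ρ (fun n hn => hv5 n ((hQN n).1 hn))
    (fun r => ζ₀ r ^ p - ζ₀ r - ev (M₀ r)) hw
  rw [← hevdef] at hk
  obtain ⟨D, hD⟩ := exists_ext_cover i Q hQs S D₁ S₁ hS₁ m v ρ
    (fun a b ha hb => hv2 a ((hQN a).1 ha) b ((hQN b).1 hb))
    (fun w => by
      obtain ⟨n, hn, hn'⟩ := hv3 w
      exact ⟨n, (hQN n).2 hn, hn'⟩)
    (fun n hn => hv5 n ((hQN n).1 hn)) c (fun r => M₀ r + f r) hc1 hc2
    (by
      intro g r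
      simp only [map_add, mul_add, Finset.sum_add_distrib]
      rw [hc3, hf]
      ring)
    (fun r => ζ₀ r - w₁ r)
    (by
      intro r
      have h4 := hk r
      rw [← hevdef, L8.sub_pow_p h0, map_add]
      linear_combination h4)
    (by
      intro u r
      simp only [map_sub, mul_sub, Finset.sum_sub_distrib]
      rw [hζ₀, hw₁, ← hevdef]
      ring)
  obtain ⟨H, hH1, hH2, hH3⟩ := component_group i Q hQs S D₁ hD₁ D hD
  rw [hker] at hH2
  exact ⟨H, hH1, hH2, S, hTC, D, hH3⟩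

end

end Pool.Agent.MP_1c8e06_ag.AJ
end
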