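import Pool.Agent.Lib.MP_1c8e06_ag.Mg.G056
import Pool.Agent.Lib.MP_1c8e06_ag.Mg.G059
import Pool.Agent.Lib.MP_1c8e06_ag.Mg.G048
import Pool.Agent.Lib.MP_1c8e06_ag.Mg.G047
import Pool.Agent.Lib.MP_1c8e06_ag.Mg.G052
import Pool.Agent.Lib.MP_1c8e06_ag.Mg.G053
import Pool.Agent.Lib.MP_1c8e06_ag.Mg.G055
import Pool.Agent.Lib.MP_1c8e06_ag.Mg.G063
import Pool.Agent.Lib.MP_1c8e06_ag.Mg.G057
import Pool.Agent.Lib.MP_1c8e06_ag.AJ.Defs7
import Pool.Agent.Lib.MP_1c8e06_ag.Mg.G064

section

set_option autoImplicit false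

open Polynomial
open scoped Classical

namespace Pool.Agent.MP_1c8e06_ag.AJ

noncomputable section

/-!
# Task G8: first case of the induction (assembly)

Proof.  `I := Subgroup.zpowers ι₀ ≤ P`, a group of order `p` (`Nat.card_zpowers`), `j := I.subtype`; its image in `G` is
`I' := Subgroup.zpowers (i ι₀) = (i.comp j).range`, and `normalClosure I' = normalClosure {i ι₀}` is not a `p`-group.
`exists_pair` for `P' := i.range` (a `p`-group: `IsPGroup.map`/`of_surjective`) and `I'`: `A, H`.
`RE p k (i.comp j) A`: `re_sub`, `hbase` for `I → A` (injective, `ncl_sub`).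
`RE p k i H`: `re_sub`, `hind` for `P → H` (`Nat.card H < Nat.card G` as `H ≠ ⊤`; injective; `ncl_sub`).
`op_central`: `RE p k i (A ⊔ H)`.
-/

theorem case_one {p : ℕ} [hp : Fact p.Prime] {k : Type} [Field k] [IsAlgClosed k] [CharP k p]
    (CC : Cls) (hbase : Base p k CC) {P G : Type} [Group P] [Fintype P] [Group G] [Fintype G] (i : P →* G)
    (hG : CC.mem G) (hind : Ind p k CC (Nat.card G)) (hP : IsPGroup p P) (hi : Function.Injective i)
    (hgen : Subgroup.normalClosure (i.range : Set G) = ⊤) (ι₀ : P) (hord : orderOf ι₀ = p)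
    (hc : ∀ v, v * ι₀ = ι₀ * v)
    (hN : ¬ IsPGroup p (Subgroup.normalClosure ({i ι₀} : Set G))) : RE p k i ⊤ := by
  let I : Subgroup P := Subgroup.zpowers ι₀
  have hj : Function.Injective I.subtype := I.subtype_injective
  have hcard : Nat.card I = p := by
    rw [Nat.card_zpowers, hord]
  have hc' : ∀ (u : I) (v : P), v * I.subtype u = I.subtype u * v := by
    rintro ⟨u, hu⟩ v
    obtain ⟨n, rfl⟩ := Subgroup.mem_zpowers_iff.1 hu
    have hcv : Commute v ι₀ := hc v
    exact (hcv.zpow_right n).eq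
  have hle : (i.comp I.subtype).range ≤ i.range := by
    rintro _ ⟨u, rfl⟩
    exact ⟨u.1, rfl⟩
  have hP' : IsPGroup p i.range := hP.of_surjective i.rangeRestrict i.rangeRestrict_surjective
  have hN' : ¬ IsPGroup p (Subgroup.normalClosure ((i.comp I.subtype).range : Set G)) := by
    intro h
    refine hN (h.to_le (Subgroup.normalClosure_mono ?_))
    rw [Set.singleton_subset_iff]
    exact ⟨⟨ι₀, Subgroup.mem_zpowers ι₀⟩, rfl⟩
  obtain ⟨A, H, hIA, hclA, hPH, hclH, hHtop, hAH⟩ :=
    exists_pair i.range (i.comp I.subtype).range hP' hle hgen hN'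
  have hA : ∀ u, (i.comp I.subtype) u ∈ A := fun u => hIA ⟨u, rfl⟩
  have hH : ∀ u, i u ∈ H := fun u => hPH ⟨u, rfl⟩
  have h1 : RE p k (i.comp I.subtype) A := by
    refine re_sub _ A hA (hbase _ _ _ (CC.sub G A hG) hcard ?_ (ncl_sub _ A hA hclA))
    intro a b hab
    exact hj (hi (congrArg Subtype.val hab))
  have hlt : Nat.card H < Nat.card G := by
    refine lt_of_le_of_ne (Subgroup.card_le_card_group H) fun h => hHtop ?_
    exact Subgroup.eq_top_of_card_eq H h
  have h2 : RE p k i H := by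
    refine re_sub _ H hH (hind _ _ _ (CC.sub G H hG) hlt hP ?_ (ncl_sub _ H hH hclH))
    intro a b hab
    exact hi (congrArg Subtype.val hab)
  have h3 := op_central i hi I.subtype hj hcard hc' A H h1 h2
  rwa [hAH] at h3

end

end Pool.Agent.MP_1c8e06_ag.AJ
end

section

set_option autoImplicit false

open Polynomial
open scoped Classical

namespace Pool.Agent.MP_1c8e06_ag.AJ

noncomputable section

/-!
# Task C4: covers of the same type (assembly)

Proof.  Let `S, D` be the data of `h` (`D.Conn' H`).  `D^v`: values `b l (v⁻¹ * x)`, the same constants; it is a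
`GD i (zeE S) (actE S)` as `v⁻¹ * (i u * x) = i u * (v⁻¹ * x)`; the other axioms by reindexing (`hdual`:
`v⁻¹ x = v⁻¹ x'` iff `x = x'`).  `D^v.Conn' (H.map (conj v))`: if `(f, c)` is locally constant for `D^v` then
`(f, c')` is for `D`, `c' x = c (v x)`; by `GD.conn_translate` `c' (h v⁻¹) = c' v⁻¹`, i.e.
`c (v h v⁻¹) = c 1`.
Choose `N` from `exists_glp X X` with `N ≥ N₀`, `¬ p ∣ N`: `h' : K[X]` of degree `N`, `g₁, g₂` with constant
coefficient `X`.  `S' := S.map (subK h')`; `T₁` from `exists_T` with `ρ := iP κ` (`jP_iP`), `T₂` from `exists_T` with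
`ρ := (iP κ).comp (trP κ)` (`trP` and `iP` fix the constants of `κ`).  `glue` with `I₁ = I₂ = P`,
`j₁ = j₂ = MonoidHom.id P` (`i.comp (MonoidHom.id P) = i`), `S₁ = S₂ = S`, `D₁ = D`, `D₂ = D^v`.
`TC_map`.  Then `specialise` (`AJ/E7.lean`) from `K = κ((t))` (an algebra over `k = κ`) to `k`.
-/

/-- The data translated by an element commuting with the image of `i`. -/
private def C4_tr {B : Type} [CommRing B] {P : Type} [Group P] [Fintype P] {G : Type} [Group G]
    [Fintype G] {i : P →* G} {A : Type} [CommRing A] {ze : B →+* A} {act : P →* (A →+* A)}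
    (D : GD i ze act) (v : G) (hv : ∀ u, v * i u = i u * v) : GD i ze act where
  b l x := D.b l (v⁻¹ * x)
  k := D.k
  hP u l x := by
    have h1 : v⁻¹ * (i u * x) = i u * (v⁻¹ * x) := by
      have h2 : v⁻¹ * i u = i u * v⁻¹ := by
        rw [inv_mul_eq_iff_eq_mul, ← mul_assoc, hv, mul_assoc, mul_inv_cancel, mul_one]
      rw [← mul_assoc, h2, mul_assoc]
    rw [h1, D.hP]
  hmul j l x := D.hmul j l _
  hact h l x := by rw [← mul_assoc, D.hact]
  hone x := D.hone _
  htr j l := by
    rw [← D.htr j l]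
    exact Fintype.sum_equiv (Equiv.mulLeft v⁻¹) _ _ fun x => rfl
  hdual x x' := by
    rw [D.hdual]
    simp only [mul_right_inj]

private theorem C4_hC {k : Type} [Field k] (c : k) :
    iP k (C (HahnSeries.C c)) = HahnSeries.C (C c) := by
  rw [iP_C]
  ext n
  rw [AI.mapL_coeff]
  rw [HahnSeries.C_apply, HahnSeries.C_apply, HahnSeries.coeff_single, HahnSeries.coeff_single]
  split_ifs <;> simp

theorem op_conj {p : ℕ} [hp : Fact p.Prime] {k : Type} [Field k] [IsAlgClosed k] [CharP k p]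
    {P : Type} [Group P] [Fintype P] {G : Type} [Group G] [Fintype G] (i : P →* G)
    (hi : Function.Injective i) (H : Subgroup G) (h : RE p k i H) (v : G)
    (hv : ∀ u, v * i u = i u * v) : RE p k i (H ⊔ H.map (MulAut.conj v).toMonoidHom) := by
  obtain ⟨S, hT, D, hD⟩ := h
  have hDv : (C4_tr D v hv).Conn' (H.map (MulAut.conj v).toMonoidHom) := by
    rintro h' hh' f c hf
    obtain ⟨h, hh, rfl⟩ := hh'
    have h1 := GD.conn_translate D hD hh f (fun x => c (v * x)) (fun x => by
      have h2 := hf (v * x)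
      simp only [C4_tr, inv_mul_cancel_left] at h2
      exact h2) v⁻¹
    simp only [mul_inv_cancel] at h1
    rw [← h1]
    congr 1
    simp [mul_assoc]
  obtain ⟨D₁, hD₁⟩ : ∃ D₁ : GD (i.comp (MonoidHom.id P)) (zeE S) (actE S), D₁.Conn' H := by
    rw [MonoidHom.comp_id]
    exact ⟨D, hD⟩
  obtain ⟨D₂, hD₂⟩ : ∃ D₂ : GD (i.comp (MonoidHom.id P)) (zeE S) (actE S),
      D₂.Conn' (H.map (MulAut.conj v).toMonoidHom) := by
    rw [MonoidHom.comp_id]
    exact ⟨_, hDv⟩
  obtain ⟨N₀, hN₀⟩ := exists_glp (κ := k) X X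
  have hN : N₀ ≤ p * (N₀ + 1) + 1 := by
    have h1 : 1 * (N₀ + 1) ≤ p * (N₀ + 1) := Nat.mul_le_mul_right _ hp.out.one_lt.le
    omega
  obtain ⟨g, g₁, g₂, hg, hg1, hg1', hg2, hg2'⟩ := hN₀ _ hN
  have hd : ¬ p ∣ g.natDegree := by
    rw [hg]
    intro h1
    have h2 : p ∣ 1 := (Nat.dvd_add_right (Dvd.intro _ rfl)).1 h1
    exact hp.out.one_lt.ne' (Nat.dvd_one.1 h2)
  obtain ⟨T₁, hT₁, hT₁a⟩ := exists_T S g (iP k) C4_hC g₁ hg1 hg1'
  obtain ⟨T₂, hT₂, hT₂a⟩ := exists_T S g ((iP k).comp (trP k)) (fun c => by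
    rw [RingHom.comp_apply]
    have h1 : trP k (C (HahnSeries.C c)) = C (HahnSeries.C c) := by
      simp [trP]
    rw [h1, C4_hC]) g₂ hg2 hg2'
  obtain ⟨D', hD'⟩ := glue i hi (MonoidHom.id P) (MonoidHom.id P) (S.map (subK g)) S S
    T₁ (fun f => by rw [hT₁, jP_iP]) (fun u a => hT₁a u a)
    T₂ (fun f => by rw [hT₂, RingHom.comp_apply, jP_iP]) (fun u a => hT₂a u a)
    D₁ D₂ H (H.map (MulAut.conj v).toMonoidHom) hD₁ hD₂
  exact specialise k (TC_map S hT g hd) D' _ hD'

end

end Pool.Agent.MP_1c8e06_ag.AJ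
end

section

set_option autoImplicit false

open Polynomial
open scoped Classical

namespace Pool.Agent.MP_1c8e06_ag.AJ

noncomputable section

/-!
# Task G9: second case of the induction: a normal `p`-subgroup (assembly)

Proof.  `exists_min`: `N₀`.  `G' := G ⧸ N₀`, `ψ := (QuotientGroup.mk' N₀).comp i : P → G'`, `P' := P ⧸ ψ.ker`,
`q := QuotientGroup.mk' ψ.ker`, `i' := QuotientGroup.kerLift ψ` (injective), `i' (q u) = mk (i u)`.
`P'` is a `p`-group; `normalClosure i'.range = ⊤` (a normal subgroup of `G'` containing the image of `i.range` has a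
normal preimage containing `i.range`; `Subgroup.comap`); `Nat.card G' < Nat.card G` (`N₀ ≠ ⊥`;
`Subgroup.card_eq_card_quotient_mul_card_subgroup`).  `hind`: `RE p k i' ⊤`.  `lift_p` (`AJ/L8.lean`): `H`.
`exists_v` for `i.range` and `N₀`: `v`.  `op_conj` (`AJ/C4.lean`): `RE p k i (H ⊔ H.map (conj v))`, which is `⊤` by `conj_top`.
-/

theorem case_two {p : ℕ} [hp : Fact p.Prime] {k : Type} [Field k] [IsAlgClosed k] [CharP k p]
    (CC : Cls) {P G : Type} [Group P] [Fintype P] [Group G] [Fintype G] (i : P →* G)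
    (hG : CC.mem G) (hind : Ind p k CC (Nat.card G)) (hP : IsPGroup p P) (hi : Function.Injective i)
    (hgen : Subgroup.normalClosure (i.range : Set G) = ⊤) (N : Subgroup G) (hNn : N.Normal)
    (hN : IsPGroup p N) (hne : N ≠ ⊥) : RE p k i ⊤ := by
  obtain ⟨N₀, hN₀n, hN₀N, hN₀ne, hN₀p, hN₀c, hmin⟩ := exists_min N hNn hN hne
  haveI := hN₀n
  have hN₀pg : IsPGroup p N₀ := hN.to_le hN₀N
  obtain ⟨ψ, hψ⟩ : ∃ ψ : P →* G ⧸ N₀, ψ = (QuotientGroup.mk' N₀).comp i := ⟨_, rfl⟩
  have hc : ∀ u, QuotientGroup.kerLift ψ (QuotientGroup.mk' ψ.ker u) =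
      (QuotientGroup.mk (i u) : G ⧸ N₀) := by
    intro u
    rw [QuotientGroup.mk'_apply, QuotientGroup.kerLift_mk, hψ]
    rfl
  have hinj : Function.Injective (QuotientGroup.kerLift ψ) := QuotientGroup.kerLift_injective ψ
  have hq : Function.Surjective (QuotientGroup.mk' ψ.ker) := QuotientGroup.mk'_surjective _
  have hgen' : Subgroup.normalClosure ((QuotientGroup.kerLift ψ).range : Set (G ⧸ N₀)) = ⊤ := by
    have h1 : (i.range : Set G) ⊆ (Subgroup.comap (QuotientGroup.mk' N₀)
        (Subgroup.normalClosure ((QuotientGroup.kerLift ψ).range : Set (G ⧸ N₀))) : Set G) := by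
      rintro _ ⟨u, rfl⟩
      refine Subgroup.subset_normalClosure ?_
      exact ⟨QuotientGroup.mk' ψ.ker u, hc u⟩
    have h2 := Subgroup.normalClosure_le_normal h1
    rw [hgen] at h2
    rw [eq_top_iff]
    rintro x -
    obtain ⟨g, rfl⟩ := QuotientGroup.mk'_surjective N₀ x
    exact h2 (Subgroup.mem_top g)
  have hcard : Nat.card (G ⧸ N₀) < Nat.card G := by
    have h1 := Subgroup.card_eq_card_quotient_mul_card_subgroup N₀
    have h2 : 1 < Nat.card N₀ := by
      rw [Finite.one_lt_card_iff_nontrivial]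
      exact (Subgroup.nontrivial_iff_ne_bot N₀).2 hN₀ne
    have h3 : 0 < Nat.card (G ⧸ N₀) := Nat.card_pos
    rw [h1]
    nlinarith
  have h := hind (P ⧸ ψ.ker) (G ⧸ N₀) (QuotientGroup.kerLift ψ) (CC.quot G N₀ hG) hcard (hP.of_surjective _ hq) hinj
    hgen'
  obtain ⟨H, hH1, hH2, hH3⟩ := lift_p hP i N₀ hN₀p hN₀c (QuotientGroup.mk' ψ.ker) hq
    (QuotientGroup.kerLift ψ) hc h
  have hPr : IsPGroup p i.range := hP.of_surjective i.rangeRestrict i.rangeRestrict_surjective
  obtain ⟨v, hv, hv1, hvc⟩ := exists_v i.range N₀ hPr hN₀n hN₀pg hN₀ne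
  have h5 := op_conj i hi H hH3 v (fun u => hvc _ ⟨u, rfl⟩)
  rwa [conj_top i.range H N₀ hN₀n hN₀c hmin hgen hH1 hH2 v hv hv1] at h5

end

end Pool.Agent.MP_1c8e06_ag.AJ
end

section

set_option autoImplicit false

open Polynomial
open scoped Classical

namespace Pool.Agent.MP_1c8e06_ag.AJ

noncomputable section

/-!
# Task Ga: the induction (assembly)

Proof.  Prove `∀ n, Ind p k CC n` by induction on `n`.  Let `Nat.card G < n + 1`; if `Nat.card G < n` use the hypothesis, otherwise
`Nat.card G = n` and `Ind p k (Nat.card G)`.  If `P` is trivial then `i.range = ⊥` and `G` is trivial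
(`Subgroup.normalClosure_eq_bot`-type), `re_triv`.  Otherwise the center of the `p`-group `P` is nontrivial
(`IsPGroup.center_nontrivial`), and it contains an element `ι₀` of order `p` (a power of a nontrivial element; or
`exists_prime_orderOf_dvd_card'` in the center).  `N := normalClosure {i ι₀}`, `≠ ⊥` as `i ι₀ ≠ 1`.  `case_two` if `N` is a
`p`-group, `case_one` otherwise.
-/

private theorem Ga_step {p : ℕ} [hp : Fact p.Prime] {k : Type} [Field k] [IsAlgClosed k] [CharP k p]
    (CC : Cls) (hbase : Base p k CC) {P G : Type} [Group P] [Fintype P] [Group G] [Fintype G] (i : P →* G)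
    (hG : CC.mem G) (hind : Ind p k CC (Nat.card G)) (hP : IsPGroup p P) (hi : Function.Injective i)
    (hgen : Subgroup.normalClosure (i.range : Set G) = ⊤) : RE p k i ⊤ := by
  rcases subsingleton_or_nontrivial P with hs | hnt
  · have h1 : (i.range : Set G) ⊆ ((⊥ : Subgroup G) : Set G) := by
      rintro _ ⟨u, rfl⟩
      rw [Subsingleton.elim u 1, map_one]
      exact Subgroup.one_mem _
    have h2 : Subgroup.normalClosure (i.range : Set G) ≤ ⊥ := Subgroup.normalClosure_le_normal h1
    rw [hgen, top_le_iff] at h2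
    have h3 : Subsingleton G := by
      refine ⟨fun a b => ?_⟩
      have ha : a ∈ (⊥ : Subgroup G) := by rw [h2]; exact Subgroup.mem_top a
      have hb : b ∈ (⊥ : Subgroup G) := by rw [h2]; exact Subgroup.mem_top b
      rw [Subgroup.mem_bot.1 ha, Subgroup.mem_bot.1 hb]
    exact re_triv i hi
  · have hcen : Nontrivial (Subgroup.center P) := hP.center_nontrivial
    have hcp : IsPGroup p (Subgroup.center P) := hP.to_subgroup _
    obtain ⟨n, hn, hcard⟩ := hcp.nontrivial_iff_card.1 hcen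
    have hdvd : p ∣ Nat.card (Subgroup.center P) := by
      rw [hcard]
      exact dvd_pow_self p (by omega)
    obtain ⟨x, hx⟩ := exists_prime_orderOf_dvd_card' p hdvd
    have hord : orderOf (x : P) = p := by rw [Subgroup.orderOf_coe, hx]
    have hc : ∀ v : P, v * (x : P) = (x : P) * v := Subgroup.mem_center_iff.1 x.2
    have hx1 : (x : P) ≠ 1 := by
      intro h
      rw [h, orderOf_one] at hord
      exact hp.out.one_lt.ne hord
    have hne : Subgroup.normalClosure ({i (x : P)} : Set G) ≠ ⊥ := by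
      intro h
      have h1 : i (x : P) ∈ Subgroup.normalClosure ({i (x : P)} : Set G) :=
        Subgroup.subset_normalClosure (Set.mem_singleton _)
      rw [h, Subgroup.mem_bot] at h1
      exact hx1 (hi (h1.trans (map_one i).symm))
    by_cases hN : IsPGroup p (Subgroup.normalClosure ({i (x : P)} : Set G))
    · exact case_two CC i hG hind hP hi hgen _ Subgroup.normalClosure_normal hN hne
    · exact case_one CC hbase i hG hind hP hi hgen (x : P) hord hc hN

theorem main_RE {p : ℕ} [hp : Fact p.Prime] {k : Type} [Field k] [IsAlgClosed k] [CharP k p]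
    (CC : Cls) (hbase : Base p k CC) {P G : Type} [Group P] [Fintype P] [Group G] [Fintype G] (i : P →* G)
    (hG : CC.mem G) (hP : IsPGroup p P) (hi : Function.Injective i)
    (hgen : Subgroup.normalClosure (i.range : Set G) = ⊤) : RE p k i ⊤ := by
  have hall : ∀ n, Ind p k CC n := by
    intro n
    induction n with
    | zero =>
      intro P G _ _ _ _ i _ hlt
      exact absurd hlt (Nat.not_lt_zero _)
    | succ n ih =>
      intro P G _ _ _ _ i hG hlt hP hi hgen
      refine Ga_step CC hbase i hG ?_ hP hi hgen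
      intro P' G' _ _ _ _ i' hG' hlt'
      exact ih P' G' i' hG' (by omega)
  exact Ga_step CC hbase i hG (hall _) hP hi hgen

end

end Pool.Agent.MP_1c8e06_ag.AJ
end
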