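import Pool.Agent.Lib.MP_1c8e06_ag.AL.Defs

section

set_option autoImplicit false

namespace Pool.Agent.MP_1c8e06_ag.AL

noncomputable section

/-!
# Task M5a: generation of `SL_2(F_p)`

Notation: `e ^ j = (1 j; 0 1)` for `j : ℕ`; every `x : ZMod p` is `((x.val : ℕ) : ZMod p)`, so `Γ` contains all `U x := (1 x; 0 1)`
as soon as it contains `e`.
Proofs.
* `SL2_gen`: `m = (a b; c d)`, `c ≠ 0`.  `U x * m = (a + x c, ..; c, d)`: choose `x := (1 - a) / c`; the product is `(1 b'; c d')`.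
  Multiply on the right by `U (-b')`: `(1 0; c d'')`, and the determinant gives `d'' = 1`.  So `L c := (1 0; c 1) ∈ Γ`, and its powers
  give all `L t`.  Conversely the same computation shows that a matrix with lower left entry `γ ≠ 0` is
  `U (-x) * L γ * U b'`, so it is in `Γ`; if `γ = 0` multiply on the left by `L 1` (then the lower left entry is `α ≠ 0`, as `α δ = 1`).
* `SL2_ncl`: the normal closure contains `e` and `w * e * w⁻¹ = (1 0; -1 1)` with `w = wSL p`; its lower left entry is `-1 ≠ 0`.  `SL2_gen`.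
* `SL2_hom`: two homomorphisms equal on `e` and on `w * e * w⁻¹`... (closure) : `closure {e, w * e * w⁻¹} = ⊤` by `SL2_gen`.
* `orderOf_eSL`: `e ^ j = (1 j; 0 1)` (induction), equal to `1` iff `(j : ZMod p) = 0` iff `p ∣ j` (`ZMod.natCast_eq_zero_iff`);
  `orderOf_eq_prime`.
-/

private def uM {p : ℕ} (x : ZMod p) : SL2 p := ⟨!![1, x; 0, 1], by simp⟩

private def lM {p : ℕ} (x : ZMod p) : SL2 p := ⟨!![1, 0; x, 1], by simp⟩

private theorem ext2 {p : ℕ} {a b : SL2 p} (h00 : a.1 0 0 = b.1 0 0) (h01 : a.1 0 1 = b.1 0 1)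
    (h10 : a.1 1 0 = b.1 1 0) (h11 : a.1 1 1 = b.1 1 1) : a = b := by
  apply Subtype.ext
  ext i j
  fin_cases i <;> fin_cases j
  · exact h00
  · exact h01
  · exact h10
  · exact h11

private theorem mul00 {p : ℕ} (a b : SL2 p) : (a * b).1 0 0 = a.1 0 0 * b.1 0 0 + a.1 0 1 * b.1 1 0 := by
  rw [Matrix.SpecialLinearGroup.coe_mul, Matrix.mul_apply, Fin.sum_univ_two]

private theorem mul01 {p : ℕ} (a b : SL2 p) : (a * b).1 0 1 = a.1 0 0 * b.1 0 1 + a.1 0 1 * b.1 1 1 := by
  rw [Matrix.SpecialLinearGroup.coe_mul, Matrix.mul_apply, Fin.sum_univ_two]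

private theorem mul10 {p : ℕ} (a b : SL2 p) : (a * b).1 1 0 = a.1 1 0 * b.1 0 0 + a.1 1 1 * b.1 1 0 := by
  rw [Matrix.SpecialLinearGroup.coe_mul, Matrix.mul_apply, Fin.sum_univ_two]

private theorem mul11 {p : ℕ} (a b : SL2 p) : (a * b).1 1 1 = a.1 1 0 * b.1 0 1 + a.1 1 1 * b.1 1 1 := by
  rw [Matrix.SpecialLinearGroup.coe_mul, Matrix.mul_apply, Fin.sum_univ_two]

private theorem uM00 {p : ℕ} (x : ZMod p) : (uM x).1 0 0 = 1 := rfl
private theorem uM01 {p : ℕ} (x : ZMod p) : (uM x).1 0 1 = x := rfl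
private theorem uM10 {p : ℕ} (x : ZMod p) : (uM x).1 1 0 = 0 := rfl
private theorem uM11 {p : ℕ} (x : ZMod p) : (uM x).1 1 1 = 1 := rfl
private theorem lM00 {p : ℕ} (x : ZMod p) : (lM x).1 0 0 = 1 := rfl
private theorem lM01 {p : ℕ} (x : ZMod p) : (lM x).1 0 1 = 0 := rfl
private theorem lM10 {p : ℕ} (x : ZMod p) : (lM x).1 1 0 = x := rfl
private theorem lM11 {p : ℕ} (x : ZMod p) : (lM x).1 1 1 = 1 := rfl

private theorem uM_mul {p : ℕ} (x y : ZMod p) : uM x * uM y = uM (x + y) := by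
  refine ext2 ?_ ?_ ?_ ?_
  · rw [mul00, uM00, uM00, uM10, uM00]; ring
  · rw [mul01, uM00, uM01, uM01, uM11, uM01]; ring
  · rw [mul10, uM10, uM00, uM11, uM10, uM10]; ring
  · rw [mul11, uM10, uM01, uM11, uM11, uM11]; ring

private theorem lM_mul {p : ℕ} (x y : ZMod p) : lM x * lM y = lM (x + y) := by
  refine ext2 ?_ ?_ ?_ ?_
  · rw [mul00, lM00, lM00, lM01, lM00]; ring
  · rw [mul01, lM00, lM01, lM01, lM11, lM01]; ring
  · rw [mul10, lM10, lM00, lM11, lM10, lM10]; ring
  · rw [mul11, lM10, lM01, lM11, lM11, lM11]; ring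

private theorem uM_zero {p : ℕ} : uM (0 : ZMod p) = 1 := by
  refine ext2 ?_ ?_ ?_ ?_ <;> simp [uM]

private theorem lM_zero {p : ℕ} : lM (0 : ZMod p) = 1 := by
  refine ext2 ?_ ?_ ?_ ?_ <;> simp [lM]

private theorem uM_pow {p : ℕ} (x : ZMod p) (n : ℕ) : uM x ^ n = uM ((n : ZMod p) * x) := by
  induction n with
  | zero => rw [pow_zero, Nat.cast_zero, zero_mul, uM_zero]
  | succ n ih => rw [pow_succ, ih, uM_mul, Nat.cast_succ, add_mul, one_mul]

private theorem lM_pow {p : ℕ} (x : ZMod p) (n : ℕ) : lM x ^ n = lM ((n : ZMod p) * x) := by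
  induction n with
  | zero => rw [pow_zero, Nat.cast_zero, zero_mul, lM_zero]
  | succ n ih => rw [pow_succ, ih, lM_mul, Nat.cast_succ, add_mul, one_mul]

private theorem eSL_eq {p : ℕ} : eSL p = uM 1 := rfl

private theorem det2 {p : ℕ} (m : SL2 p) : m.1 0 0 * m.1 1 1 - m.1 0 1 * m.1 1 0 = 1 := by
  have h := m.2
  rwa [Matrix.det_fin_two] at h

private theorem uM_mem {p : ℕ} [hp : Fact p.Prime] {Γ : Subgroup (SL2 p)} (he : eSL p ∈ Γ)
    (x : ZMod p) : uM x ∈ Γ := by
  have h := Γ.pow_mem he x.val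
  rw [eSL_eq, uM_pow, ZMod.natCast_zmod_val, mul_one] at h
  exact h

private theorem key {p : ℕ} [hp : Fact p.Prime] (m : SL2 p) (hm0 : m.1 1 0 ≠ 0) :
    ∃ x y : ZMod p, uM x * m * uM y = lM (m.1 1 0) := by
  have hd := det2 m
  obtain ⟨q, hq⟩ : ∃ q : ZMod p, m.1 1 0 * q = 1 - m.1 0 0 :=
    ⟨(1 - m.1 0 0) / m.1 1 0, mul_div_cancel₀ _ hm0⟩
  refine ⟨q, -(m.1 0 1 + q * m.1 1 1), ?_⟩
  refine ext2 ?_ ?_ ?_ ?_
  · rw [mul00, mul00, mul01, uM00, uM01, uM10, uM00, lM00]
    linear_combination hq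
  · rw [mul01, mul00, mul01, uM00, uM01, uM01, uM11, lM01]
    linear_combination (-(m.1 0 1 + q * m.1 1 1)) * hq
  · rw [mul10, mul10, mul11, uM10, uM00, uM11, uM10, lM10]
    ring
  · rw [mul11, mul10, mul11, uM10, uM01, uM11, uM11, lM11]
    linear_combination hd - m.1 1 1 * hq

theorem SL2_gen {p : ℕ} [hp : Fact p.Prime] (Γ : Subgroup (SL2 p)) (he : eSL p ∈ Γ) (m : SL2 p)
    (hm : m ∈ Γ) (hm0 : m.1 1 0 ≠ 0) : Γ = ⊤ := by
  have hL : lM (m.1 1 0) ∈ Γ := by
    obtain ⟨x, y, hxy⟩ := key m hm0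
    rw [← hxy]
    exact Γ.mul_mem (Γ.mul_mem (uM_mem he x) hm) (uM_mem he y)
  have hLt : ∀ t : ZMod p, lM t ∈ Γ := by
    intro t
    have h := Γ.pow_mem hL (t / m.1 1 0).val
    rw [lM_pow, ZMod.natCast_zmod_val, div_mul_cancel₀ _ hm0] at h
    exact h
  have h1 : ∀ g : SL2 p, g.1 1 0 ≠ 0 → g ∈ Γ := by
    intro g hg
    obtain ⟨x, y, hxy⟩ := key g hg
    have h2 : g = (uM x)⁻¹ * lM (g.1 1 0) * (uM y)⁻¹ := by
      rw [← hxy]
      group
    rw [h2]
    exact Γ.mul_mem (Γ.mul_mem (Γ.inv_mem (uM_mem he x)) (hLt _)) (Γ.inv_mem (uM_mem he y))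
  rw [eq_top_iff]
  intro g _
  by_cases hg : g.1 1 0 = 0
  · have hd := det2 g
    rw [hg, mul_zero, sub_zero] at hd
    have h3 : (lM 1 * g : SL2 p) ∈ Γ := by
      apply h1
      rw [mul10, lM10, lM11, hg, one_mul, mul_zero, add_zero]
      intro h0
      rw [h0, zero_mul] at hd
      exact zero_ne_one hd
    exact (Γ.mul_mem_cancel_left (hLt 1)).1 h3
  · exact h1 g hg

theorem SL2_closure {p : ℕ} [hp : Fact p.Prime] :
    Subgroup.closure {eSL p, wSL p * eSL p * (wSL p)⁻¹} = ⊤ := by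
  refine SL2_gen _ (Subgroup.subset_closure (Set.mem_insert _ _)) (wSL p * eSL p * (wSL p)⁻¹)
    (Subgroup.subset_closure (Set.mem_insert_of_mem _ rfl)) ?_
  have h : (wSL p * eSL p * (wSL p)⁻¹).1 1 0 = -1 := by
    rw [mul10, mul10, mul11, Matrix.SpecialLinearGroup.SL2_inv_expl]
    simp [wSL, eSL]
  rw [h]
  exact neg_ne_zero.2 one_ne_zero

theorem SL2_ncl {p : ℕ} [hp : Fact p.Prime] :
    Subgroup.normalClosure ({eSL p} : Set (SL2 p)) = ⊤ := by
  have he : eSL p ∈ Subgroup.normalClosure ({eSL p} : Set (SL2 p)) :=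
    Subgroup.subset_normalClosure rfl
  rw [eq_top_iff, ← SL2_closure (p := p), Subgroup.closure_le]
  intro x hx
  rcases hx with hx | hx
  · rw [hx]
    exact he
  · rw [Set.mem_singleton_iff.1 hx]
    exact Subgroup.normalClosure_normal.conj_mem _ he _

theorem orderOf_eSL {p : ℕ} [hp : Fact p.Prime] : orderOf (eSL p) = p := by
  refine orderOf_eq_prime ?_ ?_
  · rw [eSL_eq, uM_pow, CharP.cast_eq_zero, zero_mul, uM_zero]
  · intro h
    have h1 : (eSL p).1 0 1 = (1 : SL2 p).1 0 1 := by rw [h]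
    rw [eSL_eq, uM01, Matrix.SpecialLinearGroup.coe_one, Matrix.one_apply_ne (by decide)] at h1
    exact one_ne_zero h1

end

end Pool.Agent.MP_1c8e06_ag.AL
end

section

set_option autoImplicit false

namespace Pool.Agent.MP_1c8e06_ag.AL

noncomputable section

/-!
# Task M5b: the roots of `Y ^ (p ^ 2) - T * Y ^ p + Y`

Here `F_p = ZMod p` is mapped to `E` by `x ↦ ((x.val : ℕ) : E)`, which is the ring homomorphism `ZMod.castHom (dvd_refl p) E`
(`ZMod.natCast_val`, `ZMod.castHom_apply`); so `(x.val : E) ^ p = (x.val : E)` (`ZMod.pow_card`/`map_pow`).  All maps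
`y ↦ y ^ p`, `y ↦ y ^ (p ^ 2)` are additive (`add_pow_char`, `add_pow_char_pow`).
Proofs.
* `val_add`, `val_mul`: the homomorphism property.
* `roots_indep`: let `y := α a + β b = 0`.  `0 = a * y ^ p - a ^ p * y = β * (a * b ^ p - a ^ p * b) = β` (as `α ^ p = α`, `β ^ p = β`)
  and similarly `0 = y * b ^ p - y ^ p * b = α`.  The map `castHom` is injective (`RingHom.injective`, `ZMod p` is a field).
* `roots_root`: `Y ↦ Y ^ (p ^ 2) - T * Y ^ p + Y` is `F_p`-linear.
* `roots_all`: the polynomial `f := X ^ (p ^ 2) - C T * X ^ p + X` is monic of degree `p ^ 2` (`p ^ 2 > p > 1`); its roots contain the image of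
  the injective (`roots_indep`) map `(α, β) ↦ α a + β b` on `ZMod p × ZMod p`, a set of `p ^ 2` elements; `Polynomial.card_roots'` gives that
  there are no other roots.
-/

private theorem val_hom {p : ℕ} [hp : Fact p.Prime] {E : Type} [Field E] [CharP E p] (x : ZMod p) :
    ((x.val : ℕ) : E) = ZMod.castHom (dvd_refl p) E x := by
  rw [ZMod.castHom_apply, ZMod.natCast_val]

private theorem val_pow_p {p : ℕ} [hp : Fact p.Prime] {E : Type} [Field E] [CharP E p] (x : ZMod p) :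
    ((x.val : ℕ) : E) ^ p = ((x.val : ℕ) : E) := by
  rw [val_hom, ← map_pow, ZMod.pow_card]

private theorem val_pow_pp {p : ℕ} [hp : Fact p.Prime] {E : Type} [Field E] [CharP E p] (x : ZMod p) :
    ((x.val : ℕ) : E) ^ (p ^ 2) = ((x.val : ℕ) : E) := by
  rw [pow_two, pow_mul, val_pow_p, val_pow_p]

theorem val_add {p : ℕ} [hp : Fact p.Prime] {E : Type} [Field E] [CharP E p] (x y : ZMod p) :
    (((x + y).val : ℕ) : E) = ((x.val : ℕ) : E) + ((y.val : ℕ) : E) := by
  rw [val_hom, val_hom, val_hom, map_add]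

theorem val_mul {p : ℕ} [hp : Fact p.Prime] {E : Type} [Field E] [CharP E p] (x y : ZMod p) :
    (((x * y).val : ℕ) : E) = ((x.val : ℕ) : E) * ((y.val : ℕ) : E) := by
  rw [val_hom, val_hom, val_hom, map_mul]

private theorem val_zero_of {p : ℕ} [hp : Fact p.Prime] {E : Type} [Field E] [CharP E p] (x : ZMod p)
    (h : ((x.val : ℕ) : E) = 0) : x = 0 := by
  rw [val_hom] at h
  exact (map_eq_zero (ZMod.castHom (dvd_refl p) E)).mp h

theorem roots_indep {p : ℕ} [hp : Fact p.Prime] {E : Type} [Field E] [CharP E p] (a b : E)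
    (hab : a * b ^ p - a ^ p * b = 1) (α β : ZMod p)
    (h : ((α.val : ℕ) : E) * a + ((β.val : ℕ) : E) * b = 0) : α = 0 ∧ β = 0 := by
  have hα := val_pow_p (E := E) α
  have hβ := val_pow_p (E := E) β
  set A : E := ((α.val : ℕ) : E) with hA
  set B : E := ((β.val : ℕ) : E) with hB
  have hyp : A * a ^ p + B * b ^ p = 0 := by
    have h1 : (A * a + B * b) ^ p = 0 := by
      rw [h, zero_pow hp.out.ne_zero]
    rw [add_pow_char, mul_pow, mul_pow, hα, hβ] at h1
    exact h1
  have hB0 : B = 0 := by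
    linear_combination a * hyp - a ^ p * h - B * hab
  have hA0 : A = 0 := by
    linear_combination b ^ p * h - b * hyp - A * hab
  exact ⟨val_zero_of (E := E) α hA0, val_zero_of (E := E) β hB0⟩

theorem roots_root {p : ℕ} [hp : Fact p.Prime] {E : Type} [Field E] [CharP E p] (T a b : E)
    (ha : a ^ (p ^ 2) - T * a ^ p + a = 0) (hb : b ^ (p ^ 2) - T * b ^ p + b = 0)
    (α β : ZMod p) (y : E) (hy : y = ((α.val : ℕ) : E) * a + ((β.val : ℕ) : E) * b) :
    y ^ (p ^ 2) - T * y ^ p + y = 0 := by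
  have hα := val_pow_p (E := E) α
  have hβ := val_pow_p (E := E) β
  have hα2 := val_pow_pp (E := E) α
  have hβ2 := val_pow_pp (E := E) β
  set A : E := ((α.val : ℕ) : E) with hA
  set B : E := ((β.val : ℕ) : E) with hB
  have h1 : y ^ p = A * a ^ p + B * b ^ p := by
    rw [hy, add_pow_char, mul_pow, mul_pow, hα, hβ]
  have h2 : y ^ (p ^ 2) = A * a ^ (p ^ 2) + B * b ^ (p ^ 2) := by
    rw [hy, add_pow_char_pow, mul_pow, mul_pow, hα2, hβ2]
  rw [h1, h2, hy]
  linear_combination A * ha + B * hb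

theorem roots_all {p : ℕ} [hp : Fact p.Prime] {E : Type} [Field E] [CharP E p] (T a b : E)
    (ha : a ^ (p ^ 2) - T * a ^ p + a = 0) (hb : b ^ (p ^ 2) - T * b ^ p + b = 0)
    (hab : a * b ^ p - a ^ p * b = 1) (y : E) (hy : y ^ (p ^ 2) - T * y ^ p + y = 0) :
    ∃ α β : ZMod p, y = ((α.val : ℕ) : E) * a + ((β.val : ℕ) : E) * b := by
  classical
  have hp1 : 1 < p := hp.out.one_lt
  have hp2 : p < p ^ 2 := by nlinarith
  set q : Polynomial E := -(Polynomial.C T) * Polynomial.X ^ p + Polynomial.X with hq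
  set f : Polynomial E := Polynomial.X ^ (p ^ 2) + q with hf
  have hqdeg : q.degree < ((p ^ 2 : ℕ) : WithBot ℕ) := by
    refine lt_of_le_of_lt (Polynomial.degree_add_le _ _) (max_lt ?_ ?_)
    · rw [← Polynomial.C_neg]
      exact lt_of_le_of_lt (Polynomial.degree_C_mul_X_pow_le _ _) (by exact_mod_cast hp2)
    · exact lt_of_le_of_lt Polynomial.degree_X_le (by exact_mod_cast (lt_trans hp1 hp2))
  have hfdeg : f.natDegree = p ^ 2 := by
    refine Polynomial.natDegree_eq_of_degree_eq_some ?_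
    rw [hf, Polynomial.degree_add_eq_left_of_degree_lt (by rw [Polynomial.degree_X_pow]; exact hqdeg),
      Polynomial.degree_X_pow]
  have hfmonic : f.Monic := Polynomial.monic_X_pow_add hqdeg
  have hf0 : f ≠ 0 := hfmonic.ne_zero
  have heval : ∀ z : E, f.eval z = z ^ (p ^ 2) - T * z ^ p + z := by
    intro z
    simp only [hf, hq, Polynomial.eval_add, Polynomial.eval_mul, Polynomial.eval_neg, Polynomial.eval_C,
      Polynomial.eval_pow, Polynomial.eval_X]
    ring
  let g : ZMod p × ZMod p → E := fun v => ((v.1.val : ℕ) : E) * a + ((v.2.val : ℕ) : E) * b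
  have hginj : Function.Injective g := by
    intro v w hvw
    have h1 : (((v.1 - w.1).val : ℕ) : E) * a + (((v.2 - w.2).val : ℕ) : E) * b = 0 := by
      have e1 : (((v.1 - w.1).val : ℕ) : E) = ((v.1.val : ℕ) : E) - ((w.1.val : ℕ) : E) := by
        rw [val_hom, val_hom, val_hom, map_sub]
      have e2 : (((v.2 - w.2).val : ℕ) : E) = ((v.2.val : ℕ) : E) - ((w.2.val : ℕ) : E) := by
        rw [val_hom, val_hom, val_hom, map_sub]
      rw [e1, e2]
      have hvw' : ((v.1.val : ℕ) : E) * a + ((v.2.val : ℕ) : E) * b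
          = ((w.1.val : ℕ) : E) * a + ((w.2.val : ℕ) : E) * b := hvw
      linear_combination hvw'
    obtain ⟨h2, h3⟩ := roots_indep a b hab _ _ h1
    exact Prod.ext (sub_eq_zero.mp h2) (sub_eq_zero.mp h3)
  have hsub : (Finset.univ.image g) ⊆ f.roots.toFinset := by
    intro z hz
    obtain ⟨v, -, rfl⟩ := Finset.mem_image.mp hz
    rw [Multiset.mem_toFinset, Polynomial.mem_roots hf0, Polynomial.IsRoot, heval]
    exact roots_root T a b ha hb v.1 v.2 _ rfl
  have hcard1 : (Finset.univ.image g).card = p ^ 2 := by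
    rw [Finset.card_image_of_injective _ hginj, Finset.card_univ, Fintype.card_prod, ZMod.card]
    ring
  have hcard2 : f.roots.toFinset.card ≤ p ^ 2 := by
    refine le_trans (Multiset.toFinset_card_le _) ?_
    rw [← hfdeg]
    exact Polynomial.card_roots' f
  have heq : (Finset.univ.image g) = f.roots.toFinset :=
    Finset.eq_of_subset_of_card_le hsub (by rw [hcard1]; exact hcard2)
  have hy' : y ∈ f.roots.toFinset := by
    rw [Multiset.mem_toFinset, Polynomial.mem_roots hf0, Polynomial.IsRoot, heval]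
    exact hy
  rw [← heq] at hy'
  obtain ⟨v, -, hv⟩ := Finset.mem_image.mp hy'
  exact ⟨v.1, v.2, hv.symm⟩

end

end Pool.Agent.MP_1c8e06_ag.AL
end

section

set_option autoImplicit false

open Polynomial

namespace Pool.Agent.MP_1c8e06_ag.AL

noncomputable section

/-!
# Task M5c: the Galois group of `Y ^ (p ^ 2) - t Y ^ p + Y`

Proof.  `N := K(a, b)`.
Galois: the polynomial `f := X ^ (p ^ 2) - C t * X ^ p + X : K[X]` has derivative `1` (characteristic `p`), so it is separable; it splits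
in `N`: the `p ^ 2` elements `α a + β b` (`α, β ∈ F_p`, distinct by `roots_indep`, roots by `roots_root`) are in `N`, and
`f.natDegree = p ^ 2` (`Polynomial.splits_iff_card_roots` or write `f` as the product of the linear factors), and `N` is generated by
roots of `f` (`a = 1 a + 0 b`, `b`): `IsSplittingField K N f`, `IsGalois.of_separable_splitting_field`.  Finite dimensional:
`Polynomial.IsSplittingField.finiteDimensional` (or `a, b` are integral).
`ρ`: for `σ ∈ Gal(N/K)` the element `σ a` is a root of `f` in `E` (`σ` fixes `t`), so `roots_all` gives `α, β` with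
`σ a = α a + β b`; similarly `σ b = γ a + δ b`.  `σ` fixes the natural numbers; applying `σ` to `a b ^ p - a ^ p b = 1`:
`1 = (σ a) (σ b) ^ p - (σ a) ^ p (σ b) = (α δ - β γ) (a b ^ p - a ^ p b) = α δ - β γ` in `E`, hence in `ZMod p`
(`val_mul`, injectivity).  `ρ σ := (α γ; β δ)` (first column: coordinates of `σ a`).  Uniqueness of the coordinates (`roots_indep`).
`ρ (σ τ) = ρ σ * ρ τ`: `σ (τ a) = σ (α' a + β' b) = α' (σ a) + β' (σ b)` (`val_add`, `val_mul`).  Injective: `ρ σ = 1` gives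
`σ a = a`, `σ b = b`, so `σ` is the identity on `N = K(a, b)` (`IntermediateField.adjoin` extensionality).
(`α.val` of `1 : ZMod p` is `1`, of `0` is `0`: `ZMod.val_one`, `ZMod.val_zero`.)
-/

private theorem M5c_val {p : ℕ} [hp : Fact p.Prime] {E : Type} [Field E] [CharP E p]
    (x : ZMod p) : ((x.val : ℕ) : E) = ZMod.castHom (dvd_refl p) E x := by
  rw [ZMod.castHom_apply, ZMod.natCast_val]

private theorem M5c_uniq {p : ℕ} [hp : Fact p.Prime] {E : Type} [Field E] [CharP E p] (a b : E)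
    (hab : a * b ^ p - a ^ p * b = 1) (α β α' β' : ZMod p)
    (h : ((α.val : ℕ) : E) * a + ((β.val : ℕ) : E) * b =
      ((α'.val : ℕ) : E) * a + ((β'.val : ℕ) : E) * b) : α = α' ∧ β = β' := by
  have h1 : (((α - α').val : ℕ) : E) * a + (((β - β').val : ℕ) : E) * b = 0 := by
    rw [M5c_val, M5c_val, map_sub, map_sub]
    rw [M5c_val, M5c_val, M5c_val, M5c_val] at h
    linear_combination h
  obtain ⟨h2, h3⟩ := roots_indep a b hab _ _ h1
  exact ⟨sub_eq_zero.1 h2, sub_eq_zero.1 h3⟩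

private theorem M5c_det {p : ℕ} [hp : Fact p.Prime] {E : Type} [Field E] [CharP E p] (a b : E)
    (hab : a * b ^ p - a ^ p * b = 1) (α β γ δ : ZMod p) (x y : E)
    (hx : x = ((α.val : ℕ) : E) * a + ((β.val : ℕ) : E) * b)
    (hy : y = ((γ.val : ℕ) : E) * a + ((δ.val : ℕ) : E) * b)
    (hxy : x * y ^ p - x ^ p * y = 1) : α * δ - γ * β = 1 := by
  have hpow : ∀ z : ZMod p, (((z.val : ℕ) : E)) ^ p = ((z.val : ℕ) : E) := by
    intro z
    rw [M5c_val, ← map_pow, ZMod.pow_card]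
  have hxp : x ^ p = ((α.val : ℕ) : E) * a ^ p + ((β.val : ℕ) : E) * b ^ p := by
    rw [hx, add_pow_char, mul_pow, mul_pow, hpow, hpow]
  have hyp : y ^ p = ((γ.val : ℕ) : E) * a ^ p + ((δ.val : ℕ) : E) * b ^ p := by
    rw [hy, add_pow_char, mul_pow, mul_pow, hpow, hpow]
  rw [hxp, hyp, hx, hy] at hxy
  rw [M5c_val, M5c_val, M5c_val, M5c_val] at hxy
  have h1 : ZMod.castHom (dvd_refl p) E (α * δ - γ * β) = ZMod.castHom (dvd_refl p) E 1 := by
    rw [map_sub, map_mul, map_mul, map_one]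
    linear_combination hxy - (ZMod.castHom (dvd_refl p) E α * ZMod.castHom (dvd_refl p) E δ -
      ZMod.castHom (dvd_refl p) E γ * ZMod.castHom (dvd_refl p) E β) * hab
  exact (ZMod.castHom (dvd_refl p) E).injective h1

open Polynomial in
private theorem M5c_galois {p : ℕ} [hp : Fact p.Prime] {K N : Type} [Field K] [Field N]
    [Algebra K N] [CharP N p] (t : K) (a b : N)
    (ha : a ^ (p ^ 2) - algebraMap K N t * a ^ p + a = 0)
    (hb : b ^ (p ^ 2) - algebraMap K N t * b ^ p + b = 0) (hab : a * b ^ p - a ^ p * b = 1)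
    (hgen : IntermediateField.adjoin K {a, b} = ⊤) :
    IsGalois K N ∧ FiniteDimensional K N := by
  have : CharP K p := (algebraMap K N).charP_iff (algebraMap K N).injective p |>.2 inferInstance
  have hp1 : 1 < p := hp.out.one_lt
  have hp2 : p < p ^ 2 := by
    calc p = p ^ 1 := (pow_one p).symm
      _ < p ^ 2 := Nat.pow_lt_pow_right hp1 (by norm_num)
  let f : K[X] := X ^ (p ^ 2) - C t * X ^ p + X
  have hfdeg : f.natDegree = p ^ 2 := by
    have h1 : f = X ^ (p ^ 2) + (- (C t * X ^ p) + X) := by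
      change X ^ (p ^ 2) - C t * X ^ p + X = _
      ring
    rw [h1, natDegree_add_eq_left_of_natDegree_lt]
    · rw [natDegree_X_pow]
    · rw [natDegree_X_pow]
      refine lt_of_le_of_lt (natDegree_add_le _ _) (max_lt ?_ ?_)
      · rw [natDegree_neg]
        exact lt_of_le_of_lt (natDegree_C_mul_X_pow_le _ _) hp2
      · rw [natDegree_X]
        omega
  have hf0 : f ≠ 0 := by
    intro h
    rw [h, natDegree_zero] at hfdeg
    have := pow_pos hp.out.pos 2
    omega
  have hsep : f.Separable := by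
    have h1 : derivative f = 1 := by
      change derivative (X ^ (p ^ 2) - C t * X ^ p + X) = 1
      rw [derivative_add, derivative_sub, derivative_X_pow, derivative_C_mul, derivative_X_pow,
        derivative_X]
      have h2 : ((p ^ 2 : ℕ) : K) = 0 := by
        rw [CharP.cast_eq_zero_iff K p]
        exact dvd_pow_self p two_ne_zero
      have h3 : ((p : ℕ) : K) = 0 := CharP.cast_eq_zero K p
      rw [h2, h3]
      simp
    rw [Polynomial.Separable, h1]
    exact isCoprime_one_right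
  have hroot : ∀ y : N, y ^ (p ^ 2) - algebraMap K N t * y ^ p + y = 0 → aeval y f = 0 := by
    intro y hy
    change aeval y (X ^ (p ^ 2) - C t * X ^ p + X) = 0
    simp only [map_add, map_sub, map_mul, map_pow, aeval_X, aeval_C]
    exact hy
  have hsplit : (f.map (algebraMap K N)).Splits := by
    rw [splits_iff_card_roots]
    refine le_antisymm (card_roots' _) ?_
    rw [natDegree_map, hfdeg]
    classical
    let S : Finset N := Finset.univ.image
      (fun z : ZMod p × ZMod p => ((z.1.val : ℕ) : N) * a + ((z.2.val : ℕ) : N) * b)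
    have hS : S.card = p ^ 2 := by
      rw [Finset.card_image_of_injective, Finset.card_univ, Fintype.card_prod, ZMod.card, pow_two]
      rintro ⟨α, β⟩ ⟨α', β'⟩ h
      obtain ⟨h1, h2⟩ := M5c_uniq a b hab _ _ _ _ h
      rw [Prod.mk.injEq]
      exact ⟨h1, h2⟩
    rw [← hS]
    refine Multiset.card_le_card ((Multiset.le_iff_subset S.nodup).2 ?_)
    intro y hy
    have hy' : y ∈ S := hy
    rw [Finset.mem_image] at hy'
    obtain ⟨⟨α, β⟩, -, hy''⟩ := hy'
    rw [mem_roots (Polynomial.map_ne_zero hf0)]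
    rw [IsRoot.def, eval_map_algebraMap]
    exact hroot y (roots_root (algebraMap K N t) a b ha hb α β y hy''.symm)
  have hsf : IsSplittingField K N f := by
    rw [isSplittingField_iff_intermediateField]
    refine ⟨hsplit, ?_⟩
    rw [← top_le_iff, ← hgen]
    refine IntermediateField.adjoin.mono K _ _ ?_
    rintro y (rfl | rfl)
    · rw [mem_rootSet]
      exact ⟨hf0, hroot _ ha⟩
    · rw [mem_rootSet]
      exact ⟨hf0, hroot _ hb⟩
  exact ⟨IsGalois.of_separable_splitting_field hsep, IsSplittingField.finiteDimensional N f⟩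

private theorem M5c_rho {p : ℕ} [hp : Fact p.Prime] {K N : Type} [Field K] [Field N]
    [Algebra K N] [CharP N p] (t : K) (a b : N)
    (ha : a ^ (p ^ 2) - algebraMap K N t * a ^ p + a = 0)
    (hb : b ^ (p ^ 2) - algebraMap K N t * b ^ p + b = 0) (hab : a * b ^ p - a ^ p * b = 1)
    (hgen : IntermediateField.adjoin K {a, b} = ⊤) :
    ∃ ρ : (N ≃ₐ[K] N) →* SL2 p, Function.Injective ρ ∧
      ∀ σ : N ≃ₐ[K] N,
        σ a = ((((ρ σ).1 0 0).val : ℕ) : N) * a + ((((ρ σ).1 1 0).val : ℕ) : N) * b ∧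
        σ b = ((((ρ σ).1 0 1).val : ℕ) : N) * a + ((((ρ σ).1 1 1).val : ℕ) : N) * b := by
  have hA : ∀ σ : N ≃ₐ[K] N, ∃ α β : ZMod p,
      σ a = ((α.val : ℕ) : N) * a + ((β.val : ℕ) : N) * b := by
    intro σ
    refine roots_all (algebraMap K N t) a b ha hb hab (σ a) ?_
    have h1 := congrArg σ ha
    simp only [map_add, map_sub, map_mul, map_pow, map_zero, AlgEquiv.commutes] at h1
    exact h1
  have hB : ∀ σ : N ≃ₐ[K] N, ∃ α β : ZMod p,
      σ b = ((α.val : ℕ) : N) * a + ((β.val : ℕ) : N) * b := by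
    intro σ
    refine roots_all (algebraMap K N t) a b ha hb hab (σ b) ?_
    have h1 := congrArg σ hb
    simp only [map_add, map_sub, map_mul, map_pow, map_zero, AlgEquiv.commutes] at h1
    exact h1
  choose α β hαβ using hA
  choose γ δ hγδ using hB
  have hdet : ∀ σ, α σ * δ σ - γ σ * β σ = 1 := by
    intro σ
    refine M5c_det a b hab (α σ) (β σ) (γ σ) (δ σ) (σ a) (σ b) (hαβ σ) (hγδ σ) ?_
    have h1 := congrArg σ hab
    simp only [map_sub, map_mul, map_pow, map_one] at h1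
    exact h1
  let r : (N ≃ₐ[K] N) → SL2 p := fun σ =>
    ⟨!![α σ, γ σ; β σ, δ σ], by rw [Matrix.det_fin_two_of]; exact hdet σ⟩
  have hmul : ∀ σ τ : N ≃ₐ[K] N, r (σ * τ) = r σ * r τ := by
    intro σ τ
    have e1 : (σ * τ) a = σ (τ a) := rfl
    have e2 : (σ * τ) b = σ (τ b) := rfl
    rw [hαβ τ, map_add, map_mul, map_mul, map_natCast, map_natCast, hαβ σ, hγδ σ,
      hαβ (σ * τ)] at e1
    rw [hγδ τ, map_add, map_mul, map_mul, map_natCast, map_natCast, hαβ σ, hγδ σ,
      hγδ (σ * τ)] at e2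
    have u1 := M5c_uniq a b hab (α (σ * τ)) (β (σ * τ)) (α σ * α τ + γ σ * β τ)
      (β σ * α τ + δ σ * β τ) (by
        rw [e1]
        simp only [M5c_val, map_add, map_mul]
        ring)
    have u2 := M5c_uniq a b hab (γ (σ * τ)) (δ (σ * τ)) (α σ * γ τ + γ σ * δ τ)
      (β σ * γ τ + δ σ * δ τ) (by
        rw [e2]
        simp only [M5c_val, map_add, map_mul]
        ring)
    apply Subtype.ext
    change !![α (σ * τ), γ (σ * τ); β (σ * τ), δ (σ * τ)] =
      !![α σ, γ σ; β σ, δ σ] * !![α τ, γ τ; β τ, δ τ]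
    rw [Matrix.mul_fin_two, u1.1, u1.2, u2.1, u2.2]
  let ρ : (N ≃ₐ[K] N) →* SL2 p := MonoidHom.mk' r hmul
  refine ⟨ρ, ?_, ?_⟩
  · rw [injective_iff_map_eq_one]
    intro σ hσ
    have h0 : r σ = 1 := hσ
    have h1 : α σ = 1 := by
      have := congrArg (fun m : SL2 p => m.1 0 0) h0
      simpa [r] using this
    have h2 : β σ = 0 := by
      have := congrArg (fun m : SL2 p => m.1 1 0) h0
      simpa [r] using this
    have h3 : γ σ = 0 := by
      have := congrArg (fun m : SL2 p => m.1 0 1) h0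
      simpa [r] using this
    have h4 : δ σ = 1 := by
      have := congrArg (fun m : SL2 p => m.1 1 1) h0
      simpa [r] using this
    have ea : σ a = a := by
      rw [hαβ σ, h1, h2, M5c_val, M5c_val, map_one, map_zero]
      ring
    have eb : σ b = b := by
      rw [hγδ σ, h3, h4, M5c_val, M5c_val, map_one, map_zero]
      ring
    ext x
    change σ x = x
    have hx : x ∈ IntermediateField.adjoin K {a, b} := by
      rw [hgen]
      trivial
    induction hx using IntermediateField.adjoin_induction with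
    | mem x hx =>
      rcases hx with rfl | rfl
      · exact ea
      · exact eb
    | algebraMap x => exact σ.commutes x
    | add x y _ _ ihx ihy => rw [map_add, ihx, ihy]
    | inv x _ ihx => rw [map_inv₀, ihx]
    | mul x y _ _ ihx ihy => rw [map_mul, ihx, ihy]
  · intro σ
    exact ⟨hαβ σ, hγδ σ⟩

theorem exists_rho {p : ℕ} [hp : Fact p.Prime] {K E : Type} [Field K] [Field E] [Algebra K E]
    [CharP E p] (t : K) (a b : E) (ha : a ^ (p ^ 2) - algebraMap K E t * a ^ p + a = 0)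
    (hb : b ^ (p ^ 2) - algebraMap K E t * b ^ p + b = 0) (hab : a * b ^ p - a ^ p * b = 1)
    (N : IntermediateField K E) (hN : N = IntermediateField.adjoin K {a, b}) (haN : a ∈ N)
    (hbN : b ∈ N) :
    IsGalois K N ∧ FiniteDimensional K N ∧ ∃ ρ : (N ≃ₐ[K] N) →* SL2 p, Function.Injective ρ ∧
      ∀ σ : N ≃ₐ[K] N,
        ((σ ⟨a, haN⟩ : N) : E) =
          ((((ρ σ).1 0 0).val : ℕ) : E) * a + ((((ρ σ).1 1 0).val : ℕ) : E) * b ∧
        ((σ ⟨b, hbN⟩ : N) : E) =
          ((((ρ σ).1 0 1).val : ℕ) : E) * a + ((((ρ σ).1 1 1).val : ℕ) : E) * b := by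
  have : CharP N p := (algebraMap N E).charP_iff (algebraMap N E).injective p |>.2 inferInstance
  have ha' : (⟨a, haN⟩ : N) ^ (p ^ 2) - algebraMap K N t * (⟨a, haN⟩ : N) ^ p + ⟨a, haN⟩ = 0 := by
    apply Subtype.ext
    exact ha
  have hb' : (⟨b, hbN⟩ : N) ^ (p ^ 2) - algebraMap K N t * (⟨b, hbN⟩ : N) ^ p + ⟨b, hbN⟩ = 0 := by
    apply Subtype.ext
    exact hb
  have hab' : (⟨a, haN⟩ : N) * (⟨b, hbN⟩ : N) ^ p - (⟨a, haN⟩ : N) ^ p * ⟨b, hbN⟩ = 1 := by
    apply Subtype.ext
    exact hab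
  have hgen : IntermediateField.adjoin K {(⟨a, haN⟩ : N), (⟨b, hbN⟩ : N)} = ⊤ := by
    rw [eq_top_iff]
    intro x _
    have h1 : (IntermediateField.adjoin K {(⟨a, haN⟩ : N), (⟨b, hbN⟩ : N)}).map N.val = N := by
      rw [IntermediateField.adjoin_map, Set.image_pair]
      exact hN.symm
    have h2 : (x : E) ∈ (IntermediateField.adjoin K {(⟨a, haN⟩ : N), (⟨b, hbN⟩ : N)}).map N.val := by
      rw [h1]
      exact x.2
    obtain ⟨y, hy, hyx⟩ := h2
    have h3 : y = x := Subtype.ext hyx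
    rw [← h3]
    exact hy
  obtain ⟨h1, h2⟩ := M5c_galois t _ _ ha' hb' hab' hgen
  obtain ⟨ρ, hρ, hρ2⟩ := M5c_rho t _ _ ha' hb' hab' hgen
  refine ⟨h1, h2, ρ, hρ, ?_⟩
  intro σ
  obtain ⟨h3, h4⟩ := hρ2 σ
  refine ⟨?_, ?_⟩
  · rw [h3]
    push_cast
    rfl
  · rw [h4]
    push_cast
    rfl

end

end Pool.Agent.MP_1c8e06_ag.AL
end

section

set_option autoImplicit false

open Polynomial

namespace Pool.Agent.MP_1c8e06_ag.AL

noncomputable section

/-!
# Task M5d: the Galois group is `SL_2(F_p)`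

Proof.
* `exists_tau`: `τ` maps `N = K(a, b)` into itself (`IntermediateField.adjoin_induction`, or: `N.map τ' ≤ N` for the `K`-algebra
  homomorphism `τ' : E →ₐ[K] E` given by `τ`, `hτ`, because `τ a = a`, `τ b = b + a ∈ N`); the restriction `N →ₐ[K] N` is injective and `N` is
  finite dimensional, so it is bijective (`AlgEquiv.ofBijective`, `LinearMap.injective_iff_surjective`).
* `rho_surj`: `ρ` from `exists_rho`, `Γ := ρ.range`.  Let `σ_τ` be from `exists_tau`; `σ_τ a = a = 1 a + 0 b`, `σ_τ b = b + a = 1 a + 1 b`, so by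
  uniqueness of the coordinates (`roots_indep`) `ρ σ_τ = eSL p ∈ Γ`.
  Suppose `(ρ σ).1 1 0 = 0` for all `σ`.  Then `σ a = α a`, `α ∈ F_p`, and `α ≠ 0` (`σ a ≠ 0`; `a ≠ 0` by `hab`), so
  `σ (a ^ (p - 1)) = α ^ (p - 1) a ^ (p - 1) = a ^ (p - 1)` (`ZMod.pow_card_sub_one_eq_one`, `val_mul`).  `N / K` is Galois, so
  `a ^ (p - 1) ∈ K` (`IsGalois.mem_bot_iff_fixed`/`InfiniteGalois`/`IsGalois.tfae`), contradicting `hne`.  Hence some `σ` has
  `(ρ σ).1 1 0 ≠ 0` and `SL2_gen` gives `Γ = ⊤`.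
-/

theorem exists_tau {K E : Type} [Field K] [Field E] [Algebra K E] (τ : E →+* E)
    (hτ : ∀ x : K, τ (algebraMap K E x) = algebraMap K E x) (a b : E) (hτa : τ a = a)
    (hτb : τ b = b + a) (N : IntermediateField K E) (hN : N = IntermediateField.adjoin K {a, b})
    (hfd : FiniteDimensional K N) :
    ∃ σ : N ≃ₐ[K] N, ∀ x : N, ((σ x : N) : E) = τ x := by
  let τ' : E →ₐ[K] E := { τ with commutes' := hτ }
  have haN : a ∈ N := by
    rw [hN]
    exact IntermediateField.subset_adjoin K _ (Set.mem_insert _ _)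
  have hbN : b ∈ N := by
    rw [hN]
    exact IntermediateField.subset_adjoin K _ (Set.mem_insert_of_mem _ rfl)
  have hle : N.map τ' ≤ N := by
    conv_lhs => rw [hN]
    rw [IntermediateField.adjoin_map, IntermediateField.adjoin_le_iff]
    rintro x ⟨y, hy, rfl⟩
    rcases hy with hy | hy
    · rw [hy]
      change τ a ∈ N
      rw [hτa]
      exact haN
    · rw [hy]
      change τ b ∈ N
      rw [hτb]
      exact N.add_mem hbN haN
  have hmem : ∀ x : N, (τ'.comp N.val) x ∈ N.toSubalgebra := by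
    intro x
    exact hle ⟨(x : E), x.2, rfl⟩
  let f : N →ₐ[K] N := (τ'.comp N.val).codRestrict N.toSubalgebra hmem
  have hinj : Function.Injective f := f.toRingHom.injective
  have hsurj : Function.Surjective f :=
    (LinearMap.injective_iff_surjective (f := f.toLinearMap)).1 hinj
  exact ⟨AlgEquiv.ofBijective f ⟨hinj, hsurj⟩, fun x => rfl⟩

theorem rho_surj {p : ℕ} [hp : Fact p.Prime] {K E : Type} [Field K] [Field E] [Algebra K E]
    [CharP E p] (t : K) (a b : E) (ha : a ^ (p ^ 2) - algebraMap K E t * a ^ p + a = 0)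
    (hb : b ^ (p ^ 2) - algebraMap K E t * b ^ p + b = 0) (hab : a * b ^ p - a ^ p * b = 1)
    (τ : E →+* E) (hτ : ∀ x : K, τ (algebraMap K E x) = algebraMap K E x) (hτa : τ a = a)
    (hτb : τ b = b + a) (hne : ∀ x : K, algebraMap K E x ≠ a ^ (p - 1))
    (N : IntermediateField K E) (hN : N = IntermediateField.adjoin K {a, b}) (haN : a ∈ N)
    (hbN : b ∈ N) :
    IsGalois K N ∧ FiniteDimensional K N ∧ ∃ ρ : (N ≃ₐ[K] N) ≃* SL2 p,
      (∀ σ : N ≃ₐ[K] N,
        ((σ ⟨a, haN⟩ : N) : E) =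
          ((((ρ σ).1 0 0).val : ℕ) : E) * a + ((((ρ σ).1 1 0).val : ℕ) : E) * b ∧
        ((σ ⟨b, hbN⟩ : N) : E) =
          ((((ρ σ).1 0 1).val : ℕ) : E) * a + ((((ρ σ).1 1 1).val : ℕ) : E) * b) ∧
      ∀ x : N, ((ρ.symm (eSL p) x : N) : E) = τ x := by
  obtain ⟨hG, hfd, ρ, hinj, hρ⟩ := exists_rho t a b ha hb hab N hN haN hbN
  obtain ⟨σt, hσt⟩ := exists_tau τ hτ a b hτa hτb N hN hfd
  have hval : ∀ x : ZMod p, ((x.val : ℕ) : E) = ZMod.castHom (dvd_refl p) E x := by
    intro x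
    rw [ZMod.castHom_apply, ZMod.natCast_val]
  have huniq : ∀ α β α' β' : ZMod p, ((α.val : ℕ) : E) * a + ((β.val : ℕ) : E) * b =
      ((α'.val : ℕ) : E) * a + ((β'.val : ℕ) : E) * b → α = α' ∧ β = β' := by
    intro α β α' β' h
    have h1 : (((α - α').val : ℕ) : E) * a + (((β - β').val : ℕ) : E) * b = 0 := by
      rw [hval, hval, map_sub, map_sub]
      rw [hval, hval, hval, hval] at h
      linear_combination h
    obtain ⟨h2, h3⟩ := roots_indep a b hab _ _ h1
    exact ⟨sub_eq_zero.1 h2, sub_eq_zero.1 h3⟩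
  have ha0 : a ≠ 0 := by
    intro h0
    rw [h0, zero_pow hp.out.pos.ne', zero_mul, zero_mul, sub_zero] at hab
    exact zero_ne_one hab
  have he : ρ σt = eSL p := by
    have h1 := (hρ σt).1
    have h2 := (hρ σt).2
    rw [hσt] at h1 h2
    change τ a = _ at h1
    change τ b = _ at h2
    rw [hτa] at h1
    rw [hτb] at h2
    have h3 := huniq ((ρ σt).1 0 0) ((ρ σt).1 1 0) 1 0 (by
      rw [← h1, hval, hval, map_one, map_zero]; ring)
    have h4 := huniq ((ρ σt).1 0 1) ((ρ σt).1 1 1) 1 1 (by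
      rw [← h2, hval, map_one]; ring)
    apply Subtype.ext
    ext i j
    fin_cases i <;> fin_cases j
    · exact h3.1
    · exact h4.1
    · exact h3.2
    · exact h4.2
  have hex : ∃ σ : N ≃ₐ[K] N, (ρ σ).1 1 0 ≠ 0 := by
    by_contra hcon
    push Not at hcon
    have hfix : ∀ σ : N ≃ₐ[K] N,
        σ ((⟨a, haN⟩ : N) ^ (p - 1)) = (⟨a, haN⟩ : N) ^ (p - 1) := by
      intro σ
      have h1 := (hρ σ).1
      rw [hcon σ, hval 0, map_zero, zero_mul, add_zero] at h1
      have h2 : (ρ σ).1 0 0 ≠ 0 := by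
        intro h0
        have hd := (ρ σ).2
        rw [Matrix.det_fin_two, hcon σ, h0, zero_mul, mul_zero, sub_zero] at hd
        exact zero_ne_one hd
      apply Subtype.ext
      rw [map_pow]
      change ((σ ⟨a, haN⟩ : N) : E) ^ (p - 1) = a ^ (p - 1)
      rw [h1, mul_pow, hval, ← map_pow, ZMod.pow_card_sub_one_eq_one h2, map_one, one_mul]
    have hbot : (⟨a, haN⟩ : N) ^ (p - 1) ∈ (⊥ : IntermediateField K N) :=
      (IsGalois.mem_bot_iff_fixed _).2 hfix
    obtain ⟨x, hx⟩ := IntermediateField.mem_bot.1 hbot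
    apply hne x
    have h3 := congrArg (fun z : N => (z : E)) hx
    exact h3
  obtain ⟨σ, hσ⟩ := hex
  have htop : ρ.range = ⊤ := SL2_gen ρ.range ⟨σt, he⟩ (ρ σ) ⟨σ, rfl⟩ hσ
  have hsurj : Function.Surjective ρ := MonoidHom.range_eq_top.1 htop
  let ρ' : (N ≃ₐ[K] N) ≃* SL2 p := MulEquiv.ofBijective ρ ⟨hinj, hsurj⟩
  have hsy : ρ'.symm (eSL p) = σt := by
    rw [MulEquiv.symm_apply_eq]
    exact he.symm
  refine ⟨hG, hfd, ρ', fun σ => hρ σ, fun x => ?_⟩
  rw [hsy]
  exact hσt x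

end

end Pool.Agent.MP_1c8e06_ag.AL
end
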