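import Mathlib

section

set_option autoImplicit false

open Equiv

namespace Pool.Agent.MP_1c8e06_ag.AM

/-!
# Task S1: `SL₂(𝔽_p)` is generated by the conjugates of `e`

`eS p = (1 1; 0 1)`.
* `SL_gen`: `eS p ^ n = (1 n; 0 1)`.  The normal closure contains `(1 x; 0 1)` for all `x`, and `(1 0; x 1)` (conjugate by
  `w = (0 -1; 1 0)`).  A matrix `(a b; c d)` with `c ≠ 0` is `(1 x; 0 1) * (1 0; c 1) * (1 y; 0 1)` with `x = (a - 1)/c`, `y = (d - 1)/c`;
  if `c = 0` multiply by `(1 0; 1 1)` on the left (then the lower left entry is `a ≠ 0`).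
* `SL_comm`: `h = diag (2, 1/2)`: `h * e * h⁻¹ * e⁻¹ = (1 4; 0 1) (1 -1; 0 1) = (1 3; 0 1) = e ^ 3`, `p ∤ 3`.
* `hom_trivial`: `f e` has order dividing `p` (odd) and `2`, so `f e = 1`; `f` is trivial on the normal closure of `e`.
-/

/-- The matrix `(1 1; 0 1)`. -/
def eS (p : ℕ) : Matrix.SpecialLinearGroup (Fin 2) (ZMod p) := ⟨!![1, 1; 0, 1], by simp⟩

private def S1_u {p : ℕ} (x : ZMod p) : Matrix.SpecialLinearGroup (Fin 2) (ZMod p) :=
  ⟨!![1, x; 0, 1], by simp⟩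

private def S1_l {p : ℕ} (x : ZMod p) : Matrix.SpecialLinearGroup (Fin 2) (ZMod p) :=
  ⟨!![1, 0; x, 1], by simp⟩

private theorem S1_u_mul {p : ℕ} (x y : ZMod p) : S1_u x * S1_u y = S1_u (x + y) := by
  apply Subtype.ext
  show (!![1, x; 0, 1] * !![1, y; 0, 1] : Matrix (Fin 2) (Fin 2) (ZMod p)) = !![1, x + y; 0, 1]
  rw [Matrix.mul_fin_two]
  congr 2 <;> simp [add_comm]

private theorem S1_u_zero {p : ℕ} : S1_u (0 : ZMod p) = 1 := by
  apply Subtype.ext
  show (!![1, 0; 0, 1] : Matrix (Fin 2) (Fin 2) (ZMod p)) = 1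
  exact Matrix.one_fin_two.symm

private theorem S1_u_pow {p : ℕ} (n : ℕ) : eS p ^ n = S1_u (n : ZMod p) := by
  induction n with
  | zero => rw [pow_zero, Nat.cast_zero, S1_u_zero]
  | succ n ih =>
    rw [pow_succ, ih]
    show S1_u (n : ZMod p) * S1_u 1 = _
    rw [S1_u_mul, Nat.cast_succ]

theorem eS_pow (p : ℕ) : eS p ^ p = 1 := by
  rw [S1_u_pow, ZMod.natCast_self, S1_u_zero]

theorem SL_gen {p : ℕ} [hp : Fact p.Prime] :
    Subgroup.normalClosure ({eS p} : Set (Matrix.SpecialLinearGroup (Fin 2) (ZMod p))) = ⊤ := by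
  obtain ⟨N, hN⟩ : ∃ N : Subgroup (Matrix.SpecialLinearGroup (Fin 2) (ZMod p)),
      N = Subgroup.normalClosure ({eS p} : Set (Matrix.SpecialLinearGroup (Fin 2) (ZMod p))) :=
    ⟨_, rfl⟩
  have hnor : N.Normal := by
    rw [hN]
    exact Subgroup.normalClosure_normal
  rw [← hN]
  have he : eS p ∈ N := by
    rw [hN]
    exact Subgroup.subset_normalClosure rfl
  have hu : ∀ x : ZMod p, S1_u x ∈ N := by
    intro x
    have h := pow_mem he x.val
    rwa [S1_u_pow, ZMod.natCast_zmod_val] at h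
  have hl : ∀ x : ZMod p, S1_l x ∈ N := by
    intro x
    obtain ⟨w, hw⟩ : ∃ w : Matrix.SpecialLinearGroup (Fin 2) (ZMod p), w.1 = !![0, -1; 1, 0] :=
      ⟨⟨!![0, -1; 1, 0], by simp⟩, rfl⟩
    have h := hnor.conj_mem _ (hu (-x)) w
    have e : S1_l x * w = w * S1_u (-x) := by
      apply Subtype.ext
      show (!![1, 0; x, 1] * w.1 : Matrix (Fin 2) (Fin 2) (ZMod p)) = w.1 * !![1, -x; 0, 1]
      rw [hw, Matrix.mul_fin_two, Matrix.mul_fin_two]
      congr 2 <;> simp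
    have e2 : S1_l x = w * S1_u (-x) * w⁻¹ := by
      rw [← e]
      group
    rw [e2]
    exact h
  have key : ∀ g : Matrix.SpecialLinearGroup (Fin 2) (ZMod p), g.1 1 0 ≠ 0 → g ∈ N := by
    intro g hc
    have hdet : g.1 0 0 * g.1 1 1 - g.1 0 1 * g.1 1 0 = 1 := by
      have := g.2
      rwa [Matrix.det_fin_two] at this
    have e : g = S1_u ((g.1 0 0 - 1) / g.1 1 0) * S1_l (g.1 1 0) * S1_u ((g.1 1 1 - 1) / g.1 1 0) := by
      apply Subtype.ext
      show g.1 = (!![1, (g.1 0 0 - 1) / g.1 1 0; 0, 1] * !![1, 0; g.1 1 0, 1] *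
        !![1, (g.1 1 1 - 1) / g.1 1 0; 0, 1] : Matrix (Fin 2) (Fin 2) (ZMod p))
      rw [Matrix.mul_fin_two, Matrix.mul_fin_two]
      ext i j
      fin_cases i <;> fin_cases j
      · simp
        field_simp
        ring
      · simp
        field_simp
        linear_combination (-1 : ZMod p) * hdet
      · simp
      · simp
        field_simp
        ring
    rw [e]
    exact mul_mem (mul_mem (hu _) (hl _)) (hu _)
  rw [eq_top_iff]
  intro g _
  by_cases hc : g.1 1 0 = 0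
  · have hdet : g.1 0 0 * g.1 1 1 - g.1 0 1 * g.1 1 0 = 1 := by
      have := g.2
      rwa [Matrix.det_fin_two] at this
    have ha : g.1 0 0 ≠ 0 := by
      intro h0
      rw [h0, hc] at hdet
      simp at hdet
    have h1 : S1_l 1 * g ∈ N := by
      apply key
      show ((!![1, 0; 1, 1] : Matrix (Fin 2) (Fin 2) (ZMod p)) * g.1) 1 0 ≠ 0
      rw [Matrix.mul_apply, Fin.sum_univ_two]
      simp [hc, ha]
    have h2 := mul_mem (inv_mem (hl 1)) h1
    rwa [inv_mul_cancel_left] at h2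
  · exact key g hc

theorem SL_comm {p : ℕ} [hp : Fact p.Prime] (h5 : 5 ≤ p) :
    ∃ h : Matrix.SpecialLinearGroup (Fin 2) (ZMod p), h * eS p * h⁻¹ * (eS p)⁻¹ = eS p ^ 3 := by
  have h2 : (2 : ZMod p) ≠ 0 := by
    intro h
    have h3 : ((2 : ℕ) : ZMod p) = 0 := by exact_mod_cast h
    rw [ZMod.natCast_eq_zero_iff] at h3
    have := Nat.le_of_dvd (by norm_num) h3
    omega
  obtain ⟨h, hh⟩ : ∃ h : Matrix.SpecialLinearGroup (Fin 2) (ZMod p), h.1 = !![2, 0; 0, 2⁻¹] :=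
    ⟨⟨!![2, 0; 0, 2⁻¹], by rw [Matrix.det_fin_two_of]; field_simp; ring⟩, rfl⟩
  refine ⟨h, ?_⟩
  have e : h * eS p = eS p ^ 3 * eS p * h := by
    rw [S1_u_pow]
    apply Subtype.ext
    show h.1 * !![1, 1; 0, 1] = (!![1, ((3 : ℕ) : ZMod p); 0, 1] * !![1, 1; 0, 1] * h.1 :
      Matrix (Fin 2) (Fin 2) (ZMod p))
    rw [hh, Matrix.mul_fin_two, Matrix.mul_fin_two, Matrix.mul_fin_two]
    have h4 : (2 : ZMod p)⁻¹ * 4 = 2 := by
      have : (4 : ZMod p) = 2 * 2 := by norm_num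
      rw [this, ← mul_assoc, inv_mul_cancel₀ h2, one_mul]
    ext i j
    fin_cases i <;> fin_cases j
    · simp
    · simp
      linear_combination (-1 : ZMod p) * h4
    · simp
    · simp
  rw [e]
  group

theorem hom_trivial {p : ℕ} [hp : Fact p.Prime] (hp2 : p ≠ 2)
    (f : Matrix.SpecialLinearGroup (Fin 2) (ZMod p) →* ℤˣ) (h) : f h = 1 := by
  have he : f (eS p) = 1 := by
    have h1 : f (eS p) ^ p = 1 := by rw [← map_pow, eS_pow, map_one]
    have h2 : p % 2 = 1 := by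
      rcases hp.out.eq_two_or_odd with h | h
      · exact absurd h hp2
      · exact h
    rw [Int.units_pow_eq_pow_mod_two, h2, pow_one] at h1
    exact h1
  have h3 : Subgroup.normalClosure ({eS p} : Set (Matrix.SpecialLinearGroup (Fin 2) (ZMod p))) ≤
      f.ker := Subgroup.normalClosure_le_normal (by
    intro x hx
    rw [Set.mem_singleton_iff] at hx
    rw [hx]
    exact he)
  rw [SL_gen] at h3
  exact h3 (Subgroup.mem_top h)

end Pool.Agent.MP_1c8e06_ag.AM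
end

section

set_option autoImplicit false

open Equiv

namespace Pool.Agent.MP_1c8e06_ag.AM

/-!
# Task S2: the action of `SL₂(𝔽_p)` on a cycle and a fixed point

Proof.  `OnePoint (ZMod p)` is the projective line with the action of `GL (Fin 2) (ZMod p)` (Mathlib:
`Topology/Compactification/OnePoint/ProjectiveLine`: `OnePoint.smul_some_eq_ite`, `OnePoint.smul_infty_eq_ite`), hence of
`SpecialLinearGroup`: `ψ : SL →* Perm (OnePoint (ZMod p))` (`MulAction.toPermHom` composed with `SpecialLinearGroup.toGL`; or define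
the Möbius action by hand).  `j : OnePoint (ZMod p) ↪ Ω`, `t ↦ (σ ^ t.val) y`, `∞ ↦ x₀` (injective: the cycle of `y` has exactly `p`
elements as `σ ^ p = 1`, `σ y ≠ y`, and does not contain the fixed point `x₀`).
`φ := (Equiv.Perm.viaEmbeddingHom j).comp ψ`.  `φ e`: `t ↦ t + 1`, `∞ ↦ ∞`: this is `σ.cycleOf y`.  `w := (0 -1; 1 0)`: `t ↦ -1/t`,
`0 ↦ ∞`, `∞ ↦ 0`.  Points outside the image of `j` are fixed (`viaEmbedding_apply_of_notMem`).
-/

private theorem S2_val {p : ℕ} {Ω : Type} (σ : Perm Ω) (hσ : σ ^ p = 1) (n : ℕ) :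
    σ ^ ((n : ZMod p).val) = σ ^ n := by
  rw [ZMod.val_natCast]
  conv_rhs => rw [← Nat.mod_add_div n p, pow_add, pow_mul, hσ, one_pow, mul_one]

private theorem S2_psi {p : ℕ} [hp : Fact p.Prime] :
    ∃ ψ : Matrix.SpecialLinearGroup (Fin 2) (ZMod p) →* Perm (OnePoint (ZMod p)),
      (∀ g, ψ g OnePoint.infty = if g.1 1 0 = 0 then OnePoint.infty else
        ((g.1 0 0 / g.1 1 0 : ZMod p) : OnePoint (ZMod p))) ∧
      ∀ g (k : ZMod p), ψ g (k : OnePoint (ZMod p)) = if g.1 1 0 * k + g.1 1 1 = 0 then OnePoint.infty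
        else (((g.1 0 0 * k + g.1 0 1) / (g.1 1 0 * k + g.1 1 1) : ZMod p) : OnePoint (ZMod p)) :=
  ⟨(MulAction.toPermHom (Matrix.GeneralLinearGroup (Fin 2) (ZMod p)) (OnePoint (ZMod p))).comp
    Matrix.SpecialLinearGroup.toGL, fun _ => OnePoint.smul_infty_eq_ite _,
    fun _ _ => OnePoint.smul_some_eq_ite⟩

private theorem S2_inj {p : ℕ} [hp : Fact p.Prime] {Ω : Type}
    (σ : Perm Ω) (hσ : σ ^ p = 1) (y : Ω) (hy : σ y ≠ y) {a b : ZMod p}
    (h : (σ ^ a.val) y = (σ ^ b.val) y) : a = b := by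
  have hper : Function.IsPeriodicPt σ p y := by
    show σ^[p] y = y
    rw [Equiv.Perm.iterate_eq_pow, hσ]
    rfl
  have h1 : Function.minimalPeriod σ y ∣ p := hper.minimalPeriod_dvd
  have h2 : Function.minimalPeriod σ y = p := by
    rcases (Nat.dvd_prime hp.out).1 h1 with h3 | h3
    · exact absurd (Function.minimalPeriod_eq_one_iff_isFixedPt.1 h3) hy
    · exact h3
  have h4 := Function.iterate_injOn_Iio_minimalPeriod (f := σ) (x := y)
  rw [h2] at h4
  apply ZMod.val_injective p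
  apply h4 (ZMod.val_lt a) (ZMod.val_lt b)
  show σ^[a.val] y = σ^[b.val] y
  rw [Equiv.Perm.iterate_eq_pow, Equiv.Perm.iterate_eq_pow]
  exact h

theorem exists_phi {p : ℕ} [hp : Fact p.Prime] {Ω : Type} [DecidableEq Ω] [Fintype Ω]
    (σ : Perm Ω) (hσ : σ ^ p = 1) (y x₀ : Ω) (hy : σ y ≠ y) (hx : σ x₀ = x₀) :
    ∃ φ : Matrix.SpecialLinearGroup (Fin 2) (ZMod p) →* Perm Ω, φ (eS p) = σ.cycleOf y ∧
      (∀ h z, z ≠ x₀ → ¬ σ.SameCycle y z → φ h z = z) ∧
      ∃ w, φ w y = x₀ ∧ φ w x₀ = y ∧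
        ∀ t : ZMod p, t ≠ 0 → φ w ((σ ^ t.val) y) = (σ ^ (-t⁻¹ : ZMod p).val) y := by
  obtain ⟨ψ, hψ1, hψ2⟩ := S2_psi (p := p)
  have hfix : ∀ n : ℕ, (σ ^ n) y ≠ x₀ := by
    intro n h
    have h1 : (σ ^ n) x₀ = x₀ := Equiv.Perm.pow_apply_eq_self_of_apply_eq_self hx n
    have h2 : y = x₀ := (σ ^ n).injective (h.trans h1.symm)
    rw [h2] at hy
    exact hy hx
  obtain ⟨j, hj1, hj2⟩ : ∃ j : OnePoint (ZMod p) ↪ Ω, j OnePoint.infty = x₀ ∧
      ∀ t : ZMod p, j (t : OnePoint (ZMod p)) = (σ ^ t.val) y := by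
    refine ⟨⟨fun z => z.elim x₀ (fun t => (σ ^ t.val) y), ?_⟩, rfl, fun t => rfl⟩
    intro a b hab
    induction a using OnePoint.rec with
    | infty =>
      induction b using OnePoint.rec with
      | infty => rfl
      | coe b => exact absurd hab.symm (hfix _)
    | coe a =>
      induction b using OnePoint.rec with
      | infty => exact absurd hab (hfix _)
      | coe b => exact congrArg _ (S2_inj σ hσ y hy hab)
  have hsame : ∀ n : ℕ, σ.SameCycle y ((σ ^ n) y) := fun n => ⟨n, by simp⟩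
  have hrange : ∀ z, σ.SameCycle y z → ∃ t : ZMod p, j (t : OnePoint (ZMod p)) = z := by
    rintro z hz
    obtain ⟨n, hn⟩ := hz
    obtain ⟨m, hm⟩ : ∃ m : ℕ, σ ^ n = σ ^ m := by
      refine ⟨(n % p).toNat, ?_⟩
      have hp0 : (p : ℤ) ≠ 0 := by exact_mod_cast hp.out.ne_zero
      have h1 : 0 ≤ n % p := Int.emod_nonneg n hp0
      rw [← zpow_natCast, Int.toNat_of_nonneg h1]
      conv_lhs => rw [← Int.emod_add_mul_ediv n p, zpow_add, zpow_mul, zpow_natCast, hσ, one_zpow,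
        mul_one]
    refine ⟨(m : ZMod p), ?_⟩
    rw [hj2, S2_val σ hσ, ← hm, hn]
  have hnr : ∀ z, z ≠ x₀ → ¬ σ.SameCycle y z → z ∉ Set.range j := by
    rintro z hz1 hz2 ⟨s, rfl⟩
    induction s using OnePoint.rec with
    | infty => exact hz1 hj1
    | coe t =>
      apply hz2
      rw [hj2]
      exact hsame _
  have hap : ∀ g s, (Equiv.Perm.viaEmbeddingHom j).comp ψ g (j s) = j (ψ g s) := fun g s =>
    Equiv.Perm.viaEmbedding_apply _ _ _
  have hx' : ¬ σ.SameCycle y x₀ := by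
    intro h
    obtain ⟨t, ht⟩ := hrange _ h
    rw [hj2] at ht
    exact hfix _ ht
  refine ⟨(Equiv.Perm.viaEmbeddingHom j).comp ψ, ?_, ?_, ?_⟩
  · ext z
    by_cases hz1 : z = x₀
    · rw [hz1, Equiv.Perm.cycleOf_apply_of_not_sameCycle hx', ← hj1, hap, hψ1]
      simp [eS]
    · by_cases hz2 : σ.SameCycle y z
      · rw [Equiv.Perm.SameCycle.cycleOf_apply hz2]
        obtain ⟨t, ht⟩ := hrange z hz2
        rw [← ht, hap, hψ2]
        have e1 : ψ (eS p) (t : OnePoint (ZMod p)) = ((t + 1 : ZMod p) : OnePoint (ZMod p)) := by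
          rw [hψ2]
          simp [eS]
        rw [← hψ2, e1, hj2, hj2]
        have e2 : (t + 1 : ZMod p) = ((t.val + 1 : ℕ) : ZMod p) := by
          rw [Nat.cast_add, ZMod.natCast_zmod_val, Nat.cast_one]
        rw [e2, S2_val σ hσ, pow_succ', Equiv.Perm.mul_apply]
      · rw [Equiv.Perm.cycleOf_apply_of_not_sameCycle hz2]
        exact Equiv.Perm.viaEmbedding_apply_of_notMem _ _ _ (hnr z hz1 hz2)
  · intro h z hz1 hz2
    exact Equiv.Perm.viaEmbedding_apply_of_notMem _ _ _ (hnr z hz1 hz2)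
  · obtain ⟨w, hw⟩ : ∃ w : Matrix.SpecialLinearGroup (Fin 2) (ZMod p), w.1 = !![0, -1; 1, 0] :=
      ⟨⟨!![0, -1; 1, 0], by simp⟩, rfl⟩
    have hy0 : y = j ((0 : ZMod p) : OnePoint (ZMod p)) := by
      rw [hj2]
      simp
    refine ⟨w, ?_, ?_, ?_⟩
    · rw [hy0, hap, hψ2, hw, ← hj1]
      simp
    · rw [← hj1, hap, hψ1, hw]
      conv_rhs => rw [hy0]
      simp
    · intro t ht
      rw [← hj2, hap, hψ2, hw, ← hj2]
      simp [ht, neg_div]

end Pool.Agent.MP_1c8e06_ag.AM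
end
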