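import Pool.Agent.Lib.MP_1c8e06_ag.AL.Defs
import Pool.Agent.Lib.MP_1c8e06_ag.Mg.G060
import Pool.Agent.Lib.MP_1c8e06_ag.AJ.Gb2
import Pool.Agent.Lib.MP_1c8e06_ag.Mg.G073
import Pool.Agent.Lib.MP_1c8e06_ag.Mg.G077
import Pool.Agent.Lib.MP_1c8e06_ag.Mg.G059
import Pool.Agent.Lib.MP_1c8e06_ag.Mg.G049
import Pool.Agent.Lib.MP_1c8e06_ag.Mg.G087

section

set_option autoImplicit false

open Polynomial
open scoped Classical

namespace Pool.Agent.MP_1c8e06_ag.AL

noncomputable section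

/-!
# Task CR1: the largest subgroup

Proof.  `Nat.card P = p`, so `P` is a `p`-group (`IsPGroup.of_card` with exponent `1`) and `AJ.re_range` gives `RE p k i i.range`.  Among the
subgroups `H` of the finite group `K` with `RE p k i H` choose `R` of maximal cardinality.  If `RE p k i H` then `AJ.re_join` gives
`RE p k i (R ⊔ H)`, so `R ⊔ H = R` by maximality (`Subgroup.eq_of_le_of_card_ge`), `H ≤ R`.  `H = i.range`: third statement.
Last statement: `AJ.op_conj` (`AJ/C4.lean`) gives `RE p k i (R ⊔ R.map (conj v))`, so `R.map (conj v) ≤ R`.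
-/

theorem exists_largest {p : ℕ} [hp : Fact p.Prime] {k : Type} [Field k] [IsAlgClosed k] [CharP k p]
    {P K : Type} [Group P] [Fintype P] [Group K] [Fintype K] (i : P →* K)
    (hi : Function.Injective i) (hcard : Nat.card P = p) :
    ∃ R : Subgroup K, AJ.RE p k i R ∧ (∀ H : Subgroup K, AJ.RE p k i H → H ≤ R) ∧ i.range ≤ R ∧
      ∀ v : K, (∀ u, v * i u = i u * v) → ∀ x ∈ R, v * x * v⁻¹ ∈ R := by
  have hP : IsPGroup p P := IsPGroup.of_card (n := 1) (by rw [hcard, pow_one])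
  have h0 : AJ.RE p k i i.range := AJ.re_range hP i hi
  have : Nonempty {H : Subgroup K // AJ.RE p k i H} := ⟨⟨i.range, h0⟩⟩
  obtain ⟨⟨R, hR⟩, hmax⟩ :=
    Finite.exists_max (fun H : {H : Subgroup K // AJ.RE p k i H} => Nat.card H.1)
  have hle : ∀ H : Subgroup K, AJ.RE p k i H → H ≤ R := by
    intro H hH
    have h1 : AJ.RE p k i (R ⊔ H) := AJ.re_join i hi hcard R H hR hH
    have h2 : Nat.card (R ⊔ H : Subgroup K) ≤ Nat.card R := hmax ⟨R ⊔ H, h1⟩
    have h3 : R = R ⊔ H := Subgroup.eq_of_le_of_card_ge le_sup_left h2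
    rw [h3]
    exact le_sup_right
  refine ⟨R, hR, hle, hle _ h0, ?_⟩
  intro v hv x hx
  have h1 := hle _ (AJ.op_conj i hi R hR v hv)
  exact h1 (Subgroup.mem_sup_right ⟨x, hx, rfl⟩)

end

end Pool.Agent.MP_1c8e06_ag.AL
end

section

set_option autoImplicit false

open Polynomial
open scoped Classical

namespace Pool.Agent.MP_1c8e06_ag.AL

noncomputable section

/-!
# Task RC1: the subgroup generated by the `SL_2(F_p)`-conjugates of `u = φ(e) v`

Notation: `e := eSL p`, `g₀ := i u₀ = φ e * v`, `L := closure {φ g * g₀ * (φ g)⁻¹}`.  `φ g * g₀ * (φ g)⁻¹ = φ (g e g⁻¹) * v`.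
Proof.  (Compare the file `AL/CR2.lean`, delivered as /team-store/MP_1c8e06_AL_CR2.lean if present: the group `H` below is the same.)
`Nat.card P = p`, `P` is a `p`-group.
Case A: `φ e` commutes with all `φ g`.  Then `φ g * g₀ * (φ g)⁻¹ = g₀` and `L = closure {g₀} = i.range`: `AJ.re_range`.
Case B: not all commute.  `(φ e) ^ p = 1`, `g₀ ^ p = 1`, so `v ^ p = 1`.  `H := φ.range ⊔ Subgroup.zpowers v`; `v` is central in `H`; `N := (zpowers v).subgroupOf H`, normal,
a `p`-group; `Q := QuotientGroup.mk' N`; `φ₁ := Q.comp (φ.codRestrict H _)`, `φ₁.range = ⊤`, `φ₁ e ≠ 1` (else `φ e ∈ zpowers v` commutes with all `φ g`);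
`i' := Q.comp (i.codRestrict H _)`, `i' u₀ = φ₁ e`, injective; `base_SL2`: `RE p k i' ⊤`.
`L ≤ H`, `i u ∈ L`.  `i_L := i.codRestrict L _`, `Q_L := Q.comp (Subgroup.inclusion _) : L → H ⧸ N`, its kernel is a `p`-group (it embeds in `N`).
`Q_L` is surjective: its range contains all `φ₁ g * φ₁ e * (φ₁ g)⁻¹`, and the preimage under `φ₁` of the range... precisely: the closure of the
`SL2 p`-conjugates of `e` is the normal closure `⊤` (`SL2_ncl`; `Subgroup.normalClosure` is the closure of `Group.conjugatesOfSet`), so its image under `φ₁` is `⊤`.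
Hence for every `g` there is `a ∈ L` with `Q (φ g) = Q a`, i.e. `φ g = a * v ^ j`; as `v` commutes with `g₀` (`g₀ = φ e * v`),
`φ g * g₀ * (φ g)⁻¹ = a * g₀ * a⁻¹`.  So `AJ.clS i.range L = L` (`AJ/Defs7.lean`: `≤` is clear, `≥` because the generators of `L` are in it), and
`AJ.ncl_sub` gives `normalClosure i_L.range = ⊤`.  `AJ.re_lift` (`q := MonoidHom.id P`): `RE p k i_L ⊤`; `AJ.re_sub`: `RE p k i L`.
-/

theorem re_sl2 {p : ℕ} [hp : Fact p.Prime] {k : Type} [Field k] [IsAlgClosed k] [CharP k p]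
    {P K : Type} [Group P] [Fintype P] [Group K] [Fintype K] (u₀ : P) (hu : orderOf u₀ = p)
    (hgenP : ∀ u : P, ∃ n : ℕ, u = u₀ ^ n) (i : P →* K) (hi : Function.Injective i)
    (φ : SL2 p →* K) (v : K) (hv : ∀ g, v * φ g = φ g * v) (huv : i u₀ = φ (eSL p) * v) :
    AJ.RE p k i (Subgroup.closure {y | ∃ g : SL2 p, y = φ g * i u₀ * (φ g)⁻¹}) := by
  have hp0 := hp.out.pos
  have hcard : Nat.card P = p := by
    have h1 : Subgroup.zpowers u₀ = ⊤ := by
      rw [Subgroup.eq_top_iff']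
      intro u
      obtain ⟨n, rfl⟩ := hgenP u
      exact Subgroup.npow_mem_zpowers u₀ n
    have h2 := Nat.card_zpowers u₀
    rw [h1, Subgroup.card_top, hu] at h2
    exact h2
  have hPp : IsPGroup p P := IsPGroup.of_card (n := 1) (by rw [hcard, pow_one])
  have hvc : ∀ g (n : ℤ), v ^ n * φ g = φ g * v ^ n := fun g n =>
    (Commute.zpow_left (hv g : Commute v (φ g)) n : Commute (v ^ n) (φ g))
  have hvi : ∀ n : ℤ, v ^ n * i u₀ = i u₀ * v ^ n := by
    intro n
    rw [huv, ← mul_assoc, hvc, mul_assoc, mul_assoc, ← zpow_add_one, ← zpow_one_add, add_comm]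
  obtain ⟨L, hL⟩ : ∃ L : Subgroup K, L = Subgroup.closure {y | ∃ g : SL2 p, y = φ g * i u₀ * (φ g)⁻¹} :=
    ⟨_, rfl⟩
  rw [← hL]
  have hLg : ∀ g : SL2 p, φ g * i u₀ * (φ g)⁻¹ ∈ L := by
    intro g
    rw [hL]
    exact Subgroup.subset_closure ⟨g, rfl⟩
  have hiu₀L : i u₀ ∈ L := by
    have h := hLg 1
    rwa [map_one, one_mul, inv_one, mul_one] at h
  have hiL : ∀ u, i u ∈ L := by
    intro u
    obtain ⟨n, rfl⟩ := hgenP u
    rw [map_pow]
    exact L.pow_mem hiu₀L n
  by_cases hcase : ∀ g, φ g * φ (eSL p) = φ (eSL p) * φ g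
  · -- Case A
    have h1 : L = i.range := by
      apply le_antisymm
      · rw [hL, Subgroup.closure_le]
        rintro y ⟨g, rfl⟩
        refine MonoidHom.mem_range.2 ⟨u₀, ?_⟩
        rw [eq_mul_inv_iff_mul_eq, huv, mul_assoc, hv, ← mul_assoc, ← mul_assoc, hcase]
      · rintro y ⟨u, rfl⟩
        exact hiL u
    rw [h1]
    exact AJ.re_range hPp i hi
  · -- Case B
    have hep : φ (eSL p) ^ p = 1 := by
      rw [← map_pow]
      have h := pow_orderOf_eq_one (eSL p)
      rw [orderOf_eSL] at h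
      rw [h, map_one]
    have hgp : i u₀ ^ p = 1 := by
      rw [← map_pow, ← hu, pow_orderOf_eq_one, map_one]
    have hvp : v ^ p = 1 := by
      have h1 : Commute (φ (eSL p)) v := (hv (eSL p)).symm
      rw [huv, h1.mul_pow, hep, one_mul] at hgp
      exact hgp
    have hvz : ∀ x ∈ Subgroup.zpowers v, x ^ p = 1 := by
      rintro x ⟨n, rfl⟩
      change (v ^ n) ^ p = 1
      rw [← zpow_natCast, ← zpow_mul, mul_comm, zpow_mul, zpow_natCast, hvp, one_zpow]
    let Φ : SL2 p × Multiplicative ℤ →* K := MonoidHom.noncommCoprod φ (zpowersHom K v)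
      (fun g n => (hvc g (Multiplicative.toAdd n)).symm)
    have hΦ : ∀ g (n : ℤ), Φ (g, Multiplicative.ofAdd n) = φ g * v ^ n := fun g n => rfl
    obtain ⟨H, hH⟩ : ∃ H : Subgroup K, H = Φ.range := ⟨_, rfl⟩
    have hHmem : ∀ x, x ∈ H ↔ ∃ g, ∃ n : ℤ, x = φ g * v ^ n := by
      intro x
      rw [hH, MonoidHom.mem_range]
      constructor
      · rintro ⟨⟨g, n⟩, rfl⟩
        exact ⟨g, Multiplicative.toAdd n, rfl⟩
      · rintro ⟨g, n, rfl⟩
        exact ⟨(g, Multiplicative.ofAdd n), rfl⟩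
    have hφH : ∀ g, φ g ∈ H := fun g => (hHmem _).2 ⟨g, 0, by rw [zpow_zero, mul_one]⟩
    have hvH : v ∈ H := (hHmem _).2 ⟨1, 1, by rw [map_one, one_mul, zpow_one]⟩
    have hiu₀H : i u₀ ∈ H := by
      rw [huv]
      exact H.mul_mem (hφH _) hvH
    have hiH : ∀ u, i u ∈ H := by
      intro u
      obtain ⟨n, rfl⟩ := hgenP u
      rw [map_pow]
      exact H.pow_mem hiu₀H n
    have hLH : L ≤ H := by
      rw [hL, Subgroup.closure_le]
      rintro y ⟨g, rfl⟩
      exact H.mul_mem (H.mul_mem (hφH g) hiu₀H) (H.inv_mem (hφH g))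
    obtain ⟨N, hN⟩ : ∃ N : Subgroup H, N = (Subgroup.zpowers v).subgroupOf H := ⟨_, rfl⟩
    have hNmem : ∀ x : H, x ∈ N ↔ (x : K) ∈ Subgroup.zpowers v := by
      intro x
      rw [hN, Subgroup.mem_subgroupOf]
    have hNn : N.Normal := by
      refine ⟨fun n hn g => ?_⟩
      have h1 : (g * n * g⁻¹ : H) = n := by
        apply Subtype.ext
        obtain ⟨a, m, hg⟩ := (hHmem (g : K)).1 g.2
        obtain ⟨r, hr⟩ := (hNmem n).1 hn
        have hr' : v ^ r = (n : K) := hr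
        change (g : K) * (n : K) * (g : K)⁻¹ = (n : K)
        rw [mul_inv_eq_iff_eq_mul, hg, ← hr', mul_assoc, ← zpow_add, add_comm m r, zpow_add,
          ← mul_assoc, ← hvc, mul_assoc]
      rw [h1]
      exact hn
    let Q : H →* H ⧸ N := QuotientGroup.mk' N
    have hQ1 : ∀ x : H, Q x = 1 ↔ (x : K) ∈ Subgroup.zpowers v := by
      intro x
      rw [← hNmem]
      exact QuotientGroup.eq_one_iff x
    let φ₁ : SL2 p →* H ⧸ N := Q.comp (φ.codRestrict H hφH)
    let i' : P →* H ⧸ N := Q.comp (i.codRestrict H hiH)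
    have hvN : Q ⟨v, hvH⟩ = 1 := (hQ1 _).2 (Subgroup.mem_zpowers v)
    have hQφ : ∀ x : H, ∃ g, Q x = φ₁ g := by
      intro x
      obtain ⟨g, n, hx⟩ := (hHmem (x : K)).1 x.2
      refine ⟨g, ?_⟩
      have h1 : x = φ.codRestrict H hφH g * (⟨v, hvH⟩ : H) ^ n := by
        apply Subtype.ext
        rw [hx]
        rfl
      rw [h1, map_mul, map_zpow, hvN, one_zpow, mul_one]
      rfl
    have hi'u₀ : i' u₀ = φ₁ (eSL p) := by
      have h1 : i.codRestrict H hiH u₀ = φ.codRestrict H hφH (eSL p) * (⟨v, hvH⟩ : H) := by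
        apply Subtype.ext
        exact huv
      change Q (i.codRestrict H hiH u₀) = Q (φ.codRestrict H hφH (eSL p))
      rw [h1, map_mul, hvN, mul_one]
    have hne : φ₁ (eSL p) ≠ 1 := by
      intro h
      apply hcase
      intro g
      obtain ⟨n, hn⟩ := (hQ1 _).1 h
      have hn' : v ^ n = φ (eSL p) := hn
      rw [← hn']
      exact (hvc g n).symm
    have hφtop : φ₁.range = ⊤ := by
      rw [Subgroup.eq_top_iff']
      intro x
      obtain ⟨y, rfl⟩ := QuotientGroup.mk'_surjective N x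
      obtain ⟨g, hg⟩ := hQφ y
      exact MonoidHom.mem_range.2 ⟨g, hg.symm⟩
    have hi'inj : Function.Injective i' := by
      rw [← MonoidHom.ker_eq_bot_iff]
      have hc : (Nat.card P).Prime := by
        rw [hcard]
        exact hp.out
      have hfp : Fact (Nat.card P).Prime := ⟨hc⟩
      rcases i'.ker.eq_bot_or_eq_top_of_prime_card with h | h
      · exact h
      · exfalso
        apply hne
        rw [← hi'u₀, ← MonoidHom.mem_ker, h]
        exact Subgroup.mem_top _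
    let _ : Fintype (H ⧸ N) := Fintype.ofFinite (H ⧸ N)
    have hbase : AJ.RE p k i' ⊤ := by
      rw [← hφtop]
      exact base_SL2 φ₁ u₀ hu hgenP i' hi'u₀ hne
    let QL : L →* H ⧸ N := Q.comp (Subgroup.inclusion hLH)
    have hRange : ∀ g, φ₁ g ∈ QL.range := by
      have h1 : Subgroup.normalClosure ({eSL p} : Set (SL2 p)) ≤ QL.range.comap φ₁ := by
        rw [Subgroup.normalClosure, Subgroup.closure_le]
        intro x hx
        obtain ⟨y, hy, hxy⟩ := Group.mem_conjugatesOfSet_iff.1 hx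
        rw [Set.mem_singleton_iff.1 hy] at hxy
        obtain ⟨g, hg⟩ := isConj_iff.1 hxy
        change φ₁ x ∈ QL.range
        refine MonoidHom.mem_range.2 ⟨⟨φ g * i u₀ * (φ g)⁻¹, hLg g⟩, ?_⟩
        rw [← hg, map_mul, map_mul, map_inv, ← hi'u₀]
        have h2 : Subgroup.inclusion hLH ⟨φ g * i u₀ * (φ g)⁻¹, hLg g⟩ =
            φ.codRestrict H hφH g * i.codRestrict H hiH u₀ * (φ.codRestrict H hφH g)⁻¹ := rfl
        change Q (Subgroup.inclusion hLH ⟨φ g * i u₀ * (φ g)⁻¹, hLg g⟩) = _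
        rw [h2, map_mul, map_mul, map_inv]
        rfl
      intro g
      have h2 : g ∈ Subgroup.normalClosure ({eSL p} : Set (SL2 p)) := by
        rw [SL2_ncl]
        exact Subgroup.mem_top g
      exact h1 h2
    have hQLs : Function.Surjective QL := by
      intro x
      obtain ⟨y, rfl⟩ := QuotientGroup.mk'_surjective N x
      obtain ⟨g, hg⟩ := hQφ y
      obtain ⟨a, ha⟩ := MonoidHom.mem_range.1 (hRange g)
      exact ⟨a, ha.trans hg.symm⟩
    have hker : IsPGroup p QL.ker := by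
      intro x
      refine ⟨1, ?_⟩
      have h1 : (x : K) ∈ Subgroup.zpowers v :=
        (hQ1 (Subgroup.inclusion hLH x.1)).1 (MonoidHom.mem_ker.1 x.2)
      apply Subtype.ext
      apply Subtype.ext
      rw [pow_one]
      exact hvz _ h1
    have hcl : AJ.clS i.range L = L := by
      apply le_antisymm
      · rw [AJ.clS, Subgroup.closure_le]
        rintro y ⟨a, ha, x, ⟨u, rfl⟩, rfl⟩
        exact L.mul_mem (L.mul_mem ha (hiL u)) (L.inv_mem ha)
      · conv_lhs => rw [hL]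
        rw [Subgroup.closure_le]
        rintro y ⟨g, rfl⟩
        obtain ⟨a, ha⟩ := MonoidHom.mem_range.1 (hRange g)
        have h1 : Q ((Subgroup.inclusion hLH a)⁻¹ * φ.codRestrict H hφH g) = 1 := by
          rw [map_mul, map_inv, inv_mul_eq_one]
          exact ha
        obtain ⟨n, hn⟩ := (hQ1 _).1 h1
        have hn' : v ^ n = (a : K)⁻¹ * φ g := hn
        have h2 : φ g = (a : K) * v ^ n := by
          rw [hn', mul_inv_cancel_left]
        have h3 : φ g * i u₀ * (φ g)⁻¹ = (a : K) * i u₀ * (a : K)⁻¹ := by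
          rw [h2, mul_inv_rev, mul_assoc (a : K) (v ^ n), hvi, ← mul_assoc, ← mul_assoc (a : K),
            mul_inv_cancel_right]
        rw [h3]
        exact AJ.mem_clS a.2 (MonoidHom.mem_range.2 ⟨u₀, rfl⟩)
    have hncl := AJ.ncl_sub i L hiL hcl
    refine AJ.re_sub i L hiL ?_
    refine AJ.re_lift hPp (i.codRestrict L hiL) ?_ hncl QL hQLs hker (MonoidHom.id P)
      Function.surjective_id i' hi'inj (fun u => rfl) hbase
    intro a b hab
    exact hi (congrArg Subtype.val hab)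

end

end Pool.Agent.MP_1c8e06_ag.AL
end

section

set_option autoImplicit false

open Polynomial
open scoped Classical

namespace Pool.Agent.MP_1c8e06_ag.AL

noncomputable section

/-!
# Task CR2: the criterion for elements of order `p` (assembly)

Notation: `e := eSL p`, `g₀ := i u₀ = φ e * v`.
Proof.  `Nat.card P = p` (`P` is generated by `u₀`: `orderOf_eq_card_of_forall_mem_zpowers`).  `g₀ ^ p = 1`, `(φ e) ^ p = 1`, `φ e` and `v` commute, so
`v ^ p = 1`.  Let `H := φ.range ⊔ Subgroup.zpowers v` (a subgroup of `K`; `v` commutes with `φ.range`, so every element of `H` is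
`φ g * v ^ j` and `v` is central in `H`), `N := (Subgroup.zpowers v).subgroupOf H`, normal in `H` (central) and a `p`-group
(every element satisfies `x ^ p = 1`).  `Q := QuotientGroup.mk' N : H →* H ⧸ N`, surjective with kernel `N`.
`φ₁ := Q.comp (φ.codRestrict H _) : SL2 p →* H ⧸ N`; `φ₁.range = ⊤` (`Q v = 1`).  `φ₁ e ≠ 1`: otherwise `φ e ∈ zpowers v` and `φ e` commutes
with all `φ g`, against `hnc`.  `i₁ := i.codRestrict H _ : P →* H` (`i u = g₀ ^ n`, `g₀ = φ e * v ∈ H`), `i' := Q.comp i₁`;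
`i' u₀ = φ₁ e ≠ 1`, so `i'` is injective (its kernel is a proper subgroup of the group `P` of prime order).
`base_SL2 φ₁ u₀ .. i'`: `RE p k i' φ₁.range = RE p k i' ⊤`.  `normalClosure i'.range = ⊤`: its preimage under `φ₁` is a normal subgroup of
`SL2 p` containing `e`, so it is `⊤` (`SL2_ncl`), and `φ₁` is onto.
`exists_re_sub` (`q := MonoidHom.id P`): `H' : Subgroup H`, `RE p k i₁ H'`, `H'.map Q = ⊤`.  `AJ.re_ind` with `φ := H.subtype`:
`RE p k i (H'.map H.subtype)` (`H.subtype.comp i₁ = i`).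
`exists_largest`: `R`; so `H'.map H.subtype ≤ R`.  Let `Y := R.normalizer` (or: the subgroup of the `y` with `y R y⁻¹ = R`).  An
element of `K` commuting with `g₀` commutes with all `i u` (powers of `g₀`), so it is in `Y` (last property of `R`, applied to it and to
its inverse); in particular `v ∈ Y`.  `R ≤ Y`.  `φ g ∈ Y` for all `g`: `Q (φ g) = Q h'` with `h' ∈ H'`, so
`φ g = h' * v ^ j` with `h' ∈ R ≤ Y`.  By `hK`, `Y = ⊤`: `R` is normal in `K`; it contains `g₀`; `hncl` gives `R = ⊤`.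
-/

theorem crit {p : ℕ} [hp : Fact p.Prime] {k : Type} [Field k] [IsAlgClosed k] [CharP k p]
    {P K : Type} [Group P] [Fintype P] [Group K] [Fintype K] (u₀ : P) (hu : orderOf u₀ = p)
    (hgenP : ∀ u : P, ∃ n : ℕ, u = u₀ ^ n) (i : P →* K) (hi : Function.Injective i)
    (φ : SL2 p →* K) (v : K) (hv : ∀ g, v * φ g = φ g * v) (huv : i u₀ = φ (eSL p) * v)
    (hnc : ∃ g, φ g * φ (eSL p) ≠ φ (eSL p) * φ g)
    (hK : Subgroup.closure (Set.range φ ∪ {x | x * i u₀ = i u₀ * x}) = ⊤)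
    (hncl : Subgroup.normalClosure ({i u₀} : Set K) = ⊤) : AJ.RE p k i ⊤ := by
  have hcard : Nat.card P = p := by
    have h1 : Subgroup.zpowers u₀ = ⊤ := by
      rw [Subgroup.eq_top_iff']
      intro u
      obtain ⟨n, rfl⟩ := hgenP u
      exact Subgroup.npow_mem_zpowers u₀ n
    have h2 := Nat.card_zpowers u₀
    rw [h1, Subgroup.card_top, hu] at h2
    exact h2
  obtain ⟨R, hR, hmax, hle, hconj⟩ := exists_largest (k := k) i hi hcard
  have hL := hmax _ (re_sl2 u₀ hu hgenP i hi φ v hv huv)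
  have hC : ∀ y : K, y * i u₀ = i u₀ * y → y ∈ Subgroup.normalizer (R : Set K) := by
    intro y hy
    have h1 : ∀ y : K, y * i u₀ = i u₀ * y → ∀ u, y * i u = i u * y := by
      intro y hy u
      obtain ⟨n, rfl⟩ := hgenP u
      rw [map_pow]
      exact (Commute.pow_right (show Commute y (i u₀) from hy) n).eq
    rw [Subgroup.mem_normalizer_iff]
    intro x
    constructor
    · exact hconj y (h1 y hy) x
    · intro hx
      have h2 : y⁻¹ * i u₀ = i u₀ * y⁻¹ := (Commute.inv_left (show Commute y (i u₀) from hy)).eq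
      have h3 := hconj y⁻¹ (h1 y⁻¹ h2) _ hx
      have h4 : y⁻¹ * (y * x * y⁻¹) * y⁻¹⁻¹ = x := by group
      rwa [h4] at h3
  have hRY : R ≤ Subgroup.normalizer (R : Set K) := Subgroup.le_normalizer
  have hvY : v ∈ Subgroup.normalizer (R : Set K) := by
    apply hC
    rw [huv, ← mul_assoc, hv, mul_assoc]
  have hφY : ∀ g, φ g ∈ Subgroup.normalizer (R : Set K) := by
    have h1 : Subgroup.normalClosure ({eSL p} : Set (SL2 p)) ≤
        (Subgroup.normalizer (R : Set K)).comap φ := by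
      rw [Subgroup.normalClosure, Subgroup.closure_le]
      intro x hx
      obtain ⟨y, hy, hxy⟩ := Group.mem_conjugatesOfSet_iff.1 hx
      rw [Set.mem_singleton_iff.1 hy] at hxy
      obtain ⟨g, hg⟩ := isConj_iff.1 hxy
      change φ x ∈ Subgroup.normalizer (R : Set K)
      have h2 : φ g * i u₀ * (φ g)⁻¹ ∈ Subgroup.normalizer (R : Set K) :=
        hRY (hL (Subgroup.subset_closure ⟨g, rfl⟩))
      have h3 : φ x = φ g * i u₀ * (φ g)⁻¹ * v⁻¹ := by
        have h4 : v * (φ g)⁻¹ = (φ g)⁻¹ * v := by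
          rw [← map_inv]
          exact hv _
        rw [← hg, map_mul, map_mul, map_inv, huv, ← mul_assoc (φ g), mul_assoc _ v, h4, ← mul_assoc,
          mul_inv_cancel_right]
      rw [h3]
      exact Subgroup.mul_mem _ h2 (Subgroup.inv_mem _ hvY)
    intro g
    have h2 : g ∈ Subgroup.normalClosure ({eSL p} : Set (SL2 p)) := by
      rw [SL2_ncl]
      exact Subgroup.mem_top g
    exact h1 h2
  have hY : Subgroup.normalizer (R : Set K) = ⊤ := by
    rw [eq_top_iff, ← hK, Subgroup.closure_le]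
    rintro x (⟨g, rfl⟩ | hx)
    · exact hφY g
    · exact hC x hx
  have hRn : R.Normal := Subgroup.normalizer_eq_top_iff.1 hY
  have hRt : R = ⊤ := by
    rw [eq_top_iff, ← hncl]
    exact Subgroup.normalClosure_le_normal (Set.singleton_subset_iff.2 (hle ⟨u₀, rfl⟩))
  rw [hRt] at hR
  exact hR

end

end Pool.Agent.MP_1c8e06_ag.AL
end

section

set_option autoImplicit false

open Polynomial Equiv
open scoped Classical

namespace Pool.Agent.MP_1c8e06_ag.AM

open Pool.Agent.MP_1c8e06_ag.AJ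

noncomputable section

/-!
# Task S3: covers from homomorphisms `SL₂(𝔽_p) → G`, with an additional commuting factor

`BaseSL p k`: the base case (proved in `AL/Base.lean`, a black box here).
Proof of `re_phi`.  `S' := Subgroup.zpowers s`, `K₀ := φ.range`, `Γ := S' × K₀`, `Ψ : Γ →* G`, `(a, b) ↦ a * b`
(`MonoidHom.noncommCoprod` or by hand: they commute), injective by `hdisj` (`a b = 1` with `a = s^n`, `b = φ h`: `s^n = φ h⁻¹`, so
`s^n = 1`).  `iΓ : P →* Γ`, `u₀^n ↦ (s^n, φ(e)^n)`: since `Ψ` is injective and `i u₀ = Ψ (s, φ e)`, `i.range ≤ Ψ.range`; let `iΓ`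
be the composition of `i` with the inverse of `Ψ` on its range; `Ψ.comp iΓ = i`.  It is injective.
`re_lift` (`AJ/Gb1.lean`) for `i := iΓ`, `G := Γ`, `K := K₀`, `Q := MonoidHom.snd S' K₀`, kernel `≅ S'` a `p`-group (`s^p = 1`);
`P' := P`, `q := MonoidHom.id P`, `i' := Q.comp iΓ : P →* K₀` (injective: `i' u₀ = φ e ≠ 1` and `P` has prime order `p`, generated by
`u₀`).  `RE p k i' ⊤` by `BaseSL` for `φ.rangeRestrict : SL →* K₀` (its range is `⊤`).
`normalClosure iΓ.range = ⊤`: let `M` be a normal subgroup of `Γ` containing `γ := (s, φ e)`.  `SL_comm`: `h` with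
`h e h⁻¹ e⁻¹ = e³`; `(1, φ h) γ (1, φ h)⁻¹ γ⁻¹ = (1, φ (e³)) ∈ M`; `φ(e)^p = 1`, `p ∤ 3` (`5 ≤ p`), so `(1, φ e) ∈ M` (a power), so
`(1, φ x) ∈ M` for all `x` (`SL_gen`: the preimage of `M` in `SL` under `x ↦ (1, φ x)` is normal and contains `e`); so `(s, 1) ∈ M`,
`M = ⊤`.
`re_ind iΓ Ψ`: `RE p k (Ψ.comp iΓ) (⊤.map Ψ)`, and `⊤.map Ψ = Ψ.range = zpowers s ⊔ φ.range`.  The statement asks for a
subgroup `H` containing `φ.range`: `H := Ψ.range`.
-/

/-- The base case: `SL₂(𝔽_p)` and its quotients with inertia group generated by the image of `e`. -/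
def BaseSL (p : ℕ) (k : Type) [Field k] : Prop :=
  ∀ (P G : Type) [Group P] [Fintype P] [Group G] [Fintype G]
    (φ : Matrix.SpecialLinearGroup (Fin 2) (ZMod p) →* G) (u₀ : P), orderOf u₀ = p →
    (∀ u : P, ∃ n : ℕ, u = u₀ ^ n) → ∀ i : P →* G, i u₀ = φ (eS p) → φ (eS p) ≠ 1 →
    RE p k i φ.range

theorem re_phi {p : ℕ} [hp : Fact p.Prime] {k : Type} [Field k] [IsAlgClosed k] [CharP k p]
    (h5 : 5 ≤ p) (hb : BaseSL p k) {P G : Type} [Group P] [Fintype P] [Group G] [Fintype G]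
    (u₀ : P) (hu : orderOf u₀ = p) (hgen : ∀ u : P, ∃ n : ℕ, u = u₀ ^ n) (i : P →* G)
    (hi : Function.Injective i) (φ : Matrix.SpecialLinearGroup (Fin 2) (ZMod p) →* G) (s : G)
    (hs : s ^ p = 1) (hcomm : ∀ h, s * φ h = φ h * s)
    (hdisj : ∀ (n : ℕ) (h), s ^ n = φ h → s ^ n = 1) (hi0 : i u₀ = s * φ (eS p))
    (hne : φ (eS p) ≠ 1) : ∃ H : Subgroup G, φ.range ≤ H ∧ RE p k i H := by
  have hp1 : p.Prime := hp.out
  let S' : Subgroup G := Subgroup.zpowers s
  let K₀ : Subgroup G := φ.range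
  have hsfin : IsOfFinOrder s := isOfFinOrder_iff_pow_eq_one.2 ⟨p, hp1.pos, hs⟩
  have hS' : ∀ a ∈ S', ∃ n : ℕ, s ^ n = a := fun a ha =>
    (hsfin.mem_powers_iff_mem_zpowers.2 ha)
  have hsS : s ∈ S' := Subgroup.mem_zpowers s
  -- the product homomorphism
  have hcm : ∀ (a : S') (b : K₀), Commute (S'.subtype a) (K₀.subtype b) := by
    rintro ⟨a, ha⟩ ⟨b, ⟨h, rfl⟩⟩
    obtain ⟨n, rfl⟩ := hS' a ha
    show Commute (s ^ n) (φ h)
    exact Commute.pow_left (hcomm h) n
  let Ψ : S' × K₀ →* G := MonoidHom.noncommCoprod S'.subtype K₀.subtype hcm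
  have hΨ : ∀ (a : S') (b : K₀), Ψ (a, b) = (a : G) * (b : G) := fun a b => by
    simp [Ψ]
  have hΨi : Function.Injective Ψ := by
    rw [injective_iff_map_eq_one]
    rintro ⟨⟨a, ha⟩, ⟨b, ⟨h, rfl⟩⟩⟩ hab
    rw [hΨ] at hab
    obtain ⟨n, rfl⟩ := hS' a ha
    have e1 : s ^ n = φ h⁻¹ := by
      rw [map_inv]
      exact eq_inv_of_mul_eq_one_left hab
    have e2 := hdisj n h⁻¹ e1
    have e3 : φ h = 1 := by
      have : s ^ n * φ h = 1 := hab
      rw [e2, one_mul] at this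
      exact this
    refine Prod.ext (Subtype.ext e2) (Subtype.ext e3)
  let φ' : Matrix.SpecialLinearGroup (Fin 2) (ZMod p) →* K₀ := φ.rangeRestrict
  have hφ' : ∀ h, ((φ' h : K₀) : G) = φ h := fun h => rfl
  have hφs : Function.Surjective φ' := φ.rangeRestrict_surjective
  let s' : S' := ⟨s, hsS⟩
  have hγ0 : Ψ (s', φ' (eS p)) = i u₀ := by rw [hΨ, hi0]; rfl
  have hmem : ∀ u, i u ∈ Ψ.range := by
    intro u
    obtain ⟨n, rfl⟩ := hgen u
    rw [map_pow, ← hγ0]
    exact ⟨(s', φ' (eS p)) ^ n, map_pow _ _ _⟩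
  let iΓ : P →* S' × K₀ := (MonoidHom.ofInjective hΨi).symm.toMonoidHom.comp
    (i.codRestrict Ψ.range hmem)
  have hΨΓ : ∀ u, Ψ (iΓ u) = i u := by
    intro u
    have h1 : (MonoidHom.ofInjective hΨi) (iΓ u) = ⟨i u, hmem u⟩ := by
      show (MonoidHom.ofInjective hΨi) ((MonoidHom.ofInjective hΨi).symm ⟨i u, hmem u⟩) = _
      rw [MulEquiv.apply_symm_apply]
    have h2 := congrArg Subtype.val h1
    exact h2
  have hiΓ0 : iΓ u₀ = (s', φ' (eS p)) := hΨi (by rw [hΨΓ, hγ0])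
  have hiΓ : Function.Injective iΓ := by
    intro a b hab
    apply hi
    rw [← hΨΓ, ← hΨΓ, hab]
  have hu1 : u₀ ^ p = 1 := by rw [← hu]; exact pow_orderOf_eq_one u₀
  have hP : IsPGroup p P := by
    intro g
    obtain ⟨n, rfl⟩ := hgen g
    refine ⟨1, ?_⟩
    rw [pow_one, ← pow_mul, mul_comm, pow_mul, hu1, one_pow]
  have : Fintype S' := Fintype.ofFinite _
  have : Fintype K₀ := Fintype.ofFinite _
  -- the order of the image of `e`
  have hφe : (φ' (eS p)) ^ p = 1 := by rw [← map_pow, eS_pow, map_one]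
  have hφe1 : φ' (eS p) ≠ 1 := by
    intro h
    exact hne (congrArg Subtype.val h)
  have hord : orderOf (φ' (eS p)) = p := orderOf_eq_prime hφe hφe1
  let Q : S' × K₀ →* K₀ := MonoidHom.snd S' K₀
  have hQ : Function.Surjective Q := fun b => ⟨(1, b), rfl⟩
  have hker : IsPGroup p Q.ker := by
    rintro ⟨⟨⟨a, ha⟩, b⟩, hab⟩
    have hb1 : b = 1 := hab
    obtain ⟨n, rfl⟩ := hS' a ha
    refine ⟨1, ?_⟩
    subst hb1
    apply Subtype.ext
    refine Prod.ext (Subtype.ext ?_) ?_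
    · show (s ^ n) ^ p ^ 1 = 1
      rw [pow_one, ← pow_mul, mul_comm, pow_mul, hs, one_pow]
    · show (1 : K₀) ^ p ^ 1 = 1
      exact one_pow _
  let i' : P →* K₀ := Q.comp iΓ
  have hi'0 : i' u₀ = φ' (eS p) := by
    show Q (iΓ u₀) = _
    rw [hiΓ0]
    rfl
  have hi' : Function.Injective i' := by
    rw [injective_iff_map_eq_one]
    intro u hu2
    obtain ⟨n, rfl⟩ := hgen u
    rw [map_pow, hi'0] at hu2
    have h1 : p ∣ n := by
      rw [← hord]
      exact orderOf_dvd_of_pow_eq_one hu2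
    obtain ⟨m, rfl⟩ := h1
    rw [pow_mul, hu1, one_pow]
  have hbase : RE p k i' ⊤ := by
    have h1 := hb P K₀ φ' u₀ hu hgen i' hi'0 hφe1
    have h2 : φ'.range = ⊤ := MonoidHom.range_eq_top.2 hφs
    rw [h2] at h1
    exact h1
  -- the normal closure
  have hnc : Subgroup.normalClosure (iΓ.range : Set (S' × K₀)) = ⊤ := by
    set M : Subgroup (S' × K₀) := Subgroup.normalClosure (iΓ.range : Set (S' × K₀)) with hM
    have hMn : M.Normal := Subgroup.normalClosure_normal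
    have hγ : ((s', φ' (eS p)) : S' × K₀) ∈ M := by
      rw [← hiΓ0]
      exact Subgroup.subset_normalClosure ⟨u₀, rfl⟩
    obtain ⟨h, hh⟩ := SL_comm (p := p) h5
    have hx3 : ((1, φ' (eS p)) : S' × K₀) ^ 3 ∈ M := by
      have h1 := M.mul_mem (hMn.conj_mem _ hγ (1, φ' h)) (M.inv_mem hγ)
      have h2 : (1, φ' h) * (s', φ' (eS p)) * (1, φ' h)⁻¹ * (s', φ' (eS p))⁻¹ =
          ((1, φ' (eS p)) : S' × K₀) ^ 3 := by
        refine Prod.ext ?_ ?_
        · show (1 : S') * s' * (1 : S')⁻¹ * s'⁻¹ = 1 ^ 3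
          simp
        · show φ' h * φ' (eS p) * (φ' h)⁻¹ * (φ' (eS p))⁻¹ = (φ' (eS p)) ^ 3
          rw [← map_inv, ← map_inv, ← map_mul, ← map_mul, ← map_mul, hh, map_pow]
      rw [← h2]
      exact h1
    have hx : ((1, φ' (eS p)) : S' × K₀) ∈ M := by
      have h1 : ((1, φ' (eS p)) : S' × K₀) ^ p = 1 := by
        refine Prod.ext ?_ ?_
        · show (1 : S') ^ p = 1
          exact one_pow _
        · exact hφe
      have h2 : orderOf ((1, φ' (eS p)) : S' × K₀) ∣ p := orderOf_dvd_of_pow_eq_one h1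
      have h3 : Nat.Coprime 3 p := by
        rw [Nat.coprime_primes Nat.prime_three hp1]
        omega
      obtain ⟨m, hm⟩ := exists_pow_eq_self_of_coprime (h3.coprime_dvd_right h2)
      rw [← hm]
      exact M.pow_mem hx3 m
    have hall : ∀ h, ((1, φ' h) : S' × K₀) ∈ M := by
      intro h
      let N : Subgroup (Matrix.SpecialLinearGroup (Fin 2) (ZMod p)) :=
        M.comap ((MonoidHom.inr S' K₀).comp φ')
      have hNe : eS p ∈ N := hx
      have h1 : Subgroup.normalClosure ({eS p} : Set (Matrix.SpecialLinearGroup (Fin 2) (ZMod p))) ≤ N := by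
        refine Subgroup.normalClosure_le_normal ?_
        intro x hx'
        rw [Set.mem_singleton_iff] at hx'
        rw [hx']
        exact hNe
      rw [SL_gen] at h1
      exact h1 (Subgroup.mem_top h)
    have hs1 : ((s', 1) : S' × K₀) ∈ M := by
      have h1 := M.mul_mem hγ (M.inv_mem hx)
      have h2 : ((s', φ' (eS p)) : S' × K₀) * ((1, φ' (eS p)) : S' × K₀)⁻¹ = (s', 1) := by
        refine Prod.ext ?_ ?_
        · show s' * (1 : S')⁻¹ = s'
          simp
        · show φ' (eS p) * (φ' (eS p))⁻¹ = 1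
          simp
      rw [← h2]
      exact h1
    rw [eq_top_iff]
    rintro ⟨⟨a, ha⟩, b⟩ -
    obtain ⟨n, rfl⟩ := hS' a ha
    obtain ⟨h, rfl⟩ := hφs b
    have h1 := M.mul_mem (M.pow_mem hs1 n) (hall h)
    have h2 : ((s', 1) : S' × K₀) ^ n * ((1, φ' h) : S' × K₀) = (⟨s ^ n, ha⟩, φ' h) := by
      refine Prod.ext (Subtype.ext ?_) ?_
      · show s ^ n * 1 = s ^ n
        exact mul_one _
      · show (1 : K₀) ^ n * φ' h = φ' h
        rw [one_pow, one_mul]
    rw [← h2]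
    exact h1
  have hRE : RE p k iΓ ⊤ := re_lift hP iΓ hiΓ hnc Q hQ hker (MonoidHom.id P)
    (fun u => ⟨u, rfl⟩) i' hi' (fun u => rfl) hbase
  have hfin := re_ind iΓ Ψ hΨi ⊤ hRE
  have hcomp : Ψ.comp iΓ = i := MonoidHom.ext fun u => hΨΓ u
  rw [hcomp] at hfin
  refine ⟨_, ?_, hfin⟩
  rintro _ ⟨h, rfl⟩
  refine ⟨(1, φ' h), Subgroup.mem_top _, ?_⟩
  rw [hΨ]
  show (1 : G) * φ h = φ h
  exact one_mul _

end

end Pool.Agent.MP_1c8e06_ag.AM
end

section

set_option autoImplicit false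

open Polynomial Equiv
open scoped Classical

namespace Pool.Agent.MP_1c8e06_ag.AM

open Pool.Agent.MP_1c8e06_ag.AJ

noncomputable section

/-!
# Task R3: the permutation `t ↦ -1/t`, for `p ≥ 5`

Proof.  `exists_phi` (`AM/S2.lean`): `φ₀ : SL →* Perm Ω`.  `sign (φ₀ h) = 1` (`hom_trivial` for `sign.comp φ₀`), so `φ₀` has values in
`alternatingGroup Ω`: `φ : SL →* alternatingGroup Ω` (`MonoidHom.codRestrict`).  `s := i u₀ * (φ e)⁻¹`, i.e.
`σ * (σ.cycleOf y)⁻¹`: it fixes the cycle of `y` and all fixed points of `σ` (in particular `x₀`) pointwise and agrees with `σ`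
elsewhere; so it commutes with all `φ h` (disjoint supports), `s^p = 1` (`σ` and `cycleOf` commute, `(cycleOf)^p = 1`), and
`s^n = φ h` implies `s^n = 1` (compare the actions on the cycle of `y`, `x₀` and the other points).
`φ e ≠ 1` (`cycleOf y` moves `y`).  `re_phi`: `H` with `φ.range ≤ H`, `RE p k i H`, so `H ≤ M` and `φ w ∈ M`.
-/

theorem W_mem5 {p : ℕ} [hp : Fact p.Prime] (h5 : 5 ≤ p) {k : Type} [Field k] [IsAlgClosed k]
    [CharP k p] (hb : BaseSL p k) {Ω : Type} [Fintype Ω] [DecidableEq Ω] {P : Type} [Group P]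
    [Fintype P] (u₀ : P) (hu : orderOf u₀ = p) (hgen : ∀ u : P, ∃ n : ℕ, u = u₀ ^ n)
    (i : P →* alternatingGroup Ω) (hi : Function.Injective i)
    (M : Subgroup (alternatingGroup Ω)) (hM : ∀ H, RE p k i H → H ≤ M) (σ : Perm Ω)
    (hσ : σ = (i u₀ : Perm Ω)) (y x₀ : Ω) (hy : σ y ≠ y) (hx : σ x₀ = x₀) :
    ∃ w ∈ M.map (alternatingGroup Ω).subtype, w y = x₀ ∧ w x₀ = y ∧
      (∀ t : ZMod p, t ≠ 0 → w ((σ ^ t.val) y) = (σ ^ (-t⁻¹ : ZMod p).val) y) ∧
      ∀ z, z ≠ x₀ → ¬ σ.SameCycle y z → w z = z := by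
  have hp2 : p ≠ 2 := by omega
  have hσp : σ ^ p = 1 := by
    have h1 : (i u₀) ^ p = 1 := by rw [← map_pow, ← hu, pow_orderOf_eq_one, map_one]
    rw [hσ, ← SubgroupClass.coe_pow, h1]
    rfl
  obtain ⟨φ₀, hφe, hfix, w, hw1, hw2, hw3⟩ := exists_phi σ hσp y x₀ hy hx
  have hsign : ∀ h, φ₀ h ∈ alternatingGroup Ω := by
    intro h
    rw [Perm.mem_alternatingGroup]
    exact hom_trivial hp2 (Perm.sign.comp φ₀) h
  obtain ⟨φ, hφ⟩ : ∃ φ : Matrix.SpecialLinearGroup (Fin 2) (ZMod p) →* alternatingGroup Ω,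
      ∀ h, (φ h : Perm Ω) = φ₀ h := ⟨φ₀.codRestrict _ hsign, fun _ => rfl⟩
  -- the element `s`
  obtain ⟨s, hs0⟩ : ∃ s : alternatingGroup Ω, s = i u₀ * (φ (eS p))⁻¹ := ⟨_, rfl⟩
  have hsc : (s : Perm Ω) = σ * (σ.cycleOf y)⁻¹ := by
    rw [hs0]
    show (i u₀ : Perm Ω) * ((φ (eS p) : Perm Ω))⁻¹ = _
    rw [hφ, hφe, hσ]
  have hsz : ∀ z, (s : Perm Ω) z = if σ.SameCycle y z then z else σ z := by
    intro z
    rw [hsc, Perm.mul_apply, Perm.cycleOf_inv, Perm.cycleOf_apply]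
    by_cases h : σ.SameCycle y z
    · rw [if_pos (Perm.sameCycle_inv.2 h), if_pos h]
      exact σ.apply_symm_apply z
    · rw [if_neg (fun h' => h (Perm.sameCycle_inv.1 h')), if_neg h]
  have hsS : ∀ z, (z = x₀ ∨ σ.SameCycle y z) → (s : Perm Ω) z = z := by
    rintro z (rfl | hz)
    · rw [hsz]
      split_ifs
      · rfl
      · exact hx
    · rw [hsz, if_pos hz]
  have hsN : ∀ z, ¬ (z = x₀ ∨ σ.SameCycle y z) → (s : Perm Ω) z = σ z := by
    intro z hz
    rw [hsz, if_neg (fun h => hz (Or.inr h))]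
  have hfix' : ∀ h z, ¬ (z = x₀ ∨ σ.SameCycle y z) → φ₀ h z = z := fun h z hz =>
    hfix h z (fun h' => hz (Or.inl h')) (fun h' => hz (Or.inr h'))
  have hpres : ∀ h z, (z = x₀ ∨ σ.SameCycle y z) → (φ₀ h z = x₀ ∨ σ.SameCycle y (φ₀ h z)) := by
    intro h z hz
    by_contra hno
    have h1 := hfix' h⁻¹ (φ₀ h z) hno
    rw [← Perm.mul_apply, ← map_mul, inv_mul_cancel, map_one, Perm.one_apply] at h1
    rw [← h1] at hno
    exact hno hz
  have hNσ : ∀ z, ¬ (z = x₀ ∨ σ.SameCycle y z) → ¬ (σ z = x₀ ∨ σ.SameCycle y (σ z)) := by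
    rintro z hz (h | h)
    · apply hz
      left
      apply σ.injective
      rw [h, hx]
    · apply hz
      right
      exact Perm.sameCycle_apply_right.1 h
  have hspow : ∀ (n : ℕ) z, (z = x₀ ∨ σ.SameCycle y z) → ((s : Perm Ω) ^ n) z = z := by
    intro n z hz
    induction n with
    | zero => rfl
    | succ n ih => rw [pow_succ, Perm.mul_apply, hsS z hz, ih]
  have hspow' : ∀ (n : ℕ) z, ¬ (z = x₀ ∨ σ.SameCycle y z) → ((s : Perm Ω) ^ n) z = (σ ^ n) z := by
    intro n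
    induction n with
    | zero =>
      intro z _
      rfl
    | succ n ih =>
      intro z hz
      rw [pow_succ, pow_succ, Perm.mul_apply, Perm.mul_apply, hsN z hz, ih _ (hNσ z hz)]
  have hs : s ^ p = 1 := by
    apply Subtype.ext
    rw [SubgroupClass.coe_pow]
    ext z
    show ((s : Perm Ω) ^ p) z = z
    by_cases hz : z = x₀ ∨ σ.SameCycle y z
    · exact hspow p z hz
    · rw [hspow' p z hz, hσp]
      rfl
  have hcomm : ∀ h, s * φ h = φ h * s := by
    intro h
    apply Subtype.ext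
    ext z
    show (s : Perm Ω) ((φ h : Perm Ω) z) = (φ h : Perm Ω) ((s : Perm Ω) z)
    rw [hφ]
    by_cases hz : z = x₀ ∨ σ.SameCycle y z
    · rw [hsS z hz, hsS _ (hpres h z hz)]
    · rw [hsN z hz, hfix' h z hz, hsN z hz, hfix' h _ (hNσ z hz)]
  have hdisj : ∀ (n : ℕ) (h), s ^ n = φ h → s ^ n = 1 := by
    intro n h e
    apply Subtype.ext
    have e' : (s : Perm Ω) ^ n = φ₀ h := by
      rw [← hφ, ← e]
      rfl
    rw [SubgroupClass.coe_pow]
    ext z
    show ((s : Perm Ω) ^ n) z = z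
    by_cases hz : z = x₀ ∨ σ.SameCycle y z
    · exact hspow n z hz
    · rw [e']
      exact hfix' h z hz
  have hi0 : i u₀ = s * φ (eS p) := by rw [hs0, inv_mul_cancel_right]
  have hne : φ (eS p) ≠ 1 := by
    intro h
    apply hy
    have h1 : φ₀ (eS p) = 1 := by
      rw [← hφ, h]
      rfl
    rw [hφe] at h1
    have h2 : σ.cycleOf y y = σ y := Perm.cycleOf_apply_self σ y
    rw [h1] at h2
    exact h2.symm
  obtain ⟨H, hH1, hH2⟩ := re_phi h5 hb u₀ hu hgen i hi φ s hs hcomm hdisj hi0 hne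
  refine ⟨φ₀ w, ?_, hw1, hw2, hw3, fun z hz1 hz2 => hfix w z hz1 hz2⟩
  rw [Subgroup.mem_map]
  exact ⟨φ w, hM H hH2 (hH1 ⟨w, rfl⟩), hφ w⟩

end

end Pool.Agent.MP_1c8e06_ag.AM
end
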