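import Pool.Agent.Lib.MP_1c8e06_ag.Mg.G083
import Pool.Agent.Lib.MP_1c8e06_ag.Mg.G072
import Pool.Agent.Lib.MP_1c8e06_ag.AN.Defs
import Pool.Agent.Lib.MP_1c8e06_ag.Mg.G073
import Pool.Agent.Lib.MP_1c8e06_ag.Mg.G049
import Pool.Agent.Lib.MP_1c8e06_ag.AJ.Gb2

section

set_option autoImplicit false

open scoped Classical

namespace Pool.Agent.MP_1c8e06_ag.AN

noncomputable section

/-!
# Task O2: `OP` for the quotients of `SL_2(F)` and the central quotients of `SL_n(F)`

Both proofs: given `i : P →* K` injective, `Nat.card P = p`, choose a generator `u₀` of `P` (order `p`; `∀ u, ∃ n : ℕ, u = u₀ ^ n`), `x := i u₀` of order `p`.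
* `op_sl`: `AL.SLn_quot n ψ hψ hker x` (`AL/QT.lean`) gives `φ, v, ..`; `AL.crit` (`AL/CR2.lean`) gives `RE p k i ⊤`; the last statement of `SLn_quot` gives the normal closure
  (`{x} ⊆ i.range`).  `CharP F p` and `Finite F`.
* `op_sl2`: the kernel of `ψ` may be any normal subgroup.
  1. there is `y : SL(2, F)` with `ψ y = x` and `y ^ p = 1`: choose `y₁` with `ψ y₁ = x`, `orderOf y₁ = p ^ a * m` with `p ∤ m` (`Nat.exists_eq_pow_mul_and_not_dvd`); there is `c : ℕ` with `m ∣ c`, `c ≡ 1 [MOD p]`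
     (for instance a multiple of `m`: `m` is invertible modulo `p`; or `Nat.chineseRemainder`); `y := y₁ ^ c`: `ψ y = x ^ c = x` (`x ^ p = 1`), `y ^ (p ^ a) = 1`.
     Then `(y - 1) ^ (p ^ a) = 0` as matrices (`sub_pow_char_pow_of_commute` or `sub_pow_expChar_pow`..., the matrix ring has characteristic `p`: `Matrix.charP`), so `(y - 1) ^ 2 = 0`
     (nilpotent 2x2 matrix: `A ^ 2 = tr A • A - det A • 1` (Cayley Hamilton, or `Matrix.eta_fin_two` and `ring`); `det A` is nilpotent, so `0`; then `A ^ 2 = (tr A) A`, `A ^ n = (tr A)^(n-1) A`, so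
     `tr A = 0` or `A = 0`), and `y ^ p - 1 = (y - 1) ^ p = 0`.
  2. `y ≠ 1`, `orderOf y = p`.  `AL.SLn_data 2 y`: `φ'`, `v'`.  `φ := ψ.comp φ'`, `v := ψ v'`.  The two generation statements are images under the surjective `ψ` of those for `y`
     (exactly as at the end of the proof of `AL.SLn_quot`; copy it).
  3. `AL.crit` (if it still has the hypothesis `hnc`: if `φ e` commutes with all `φ g` then `x = φ e * v` commutes with all `φ g`, so `x` is central in `K`, `Subgroup.zpowers x` is normal, so `⊤`, `i.range = ⊤`, and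
     `AJ.re_range` gives the claim).
-/

private theorem O2_core {p : ℕ} [hp : Fact p.Prime] {k : Type} [Field k] [IsAlgClosed k]
    [CharP k p] {K : Type} [Group K]
    (H : ∀ x : K, orderOf x = p → ∃ (φ : AL.SL2 p →* K) (v : K), (∀ g, v * φ g = φ g * v) ∧
      x = φ (AL.eSL p) * v ∧ Subgroup.closure (Set.range φ ∪ {y | y * x = x * y}) = ⊤ ∧
      Subgroup.normalClosure ({x} : Set K) = ⊤) : OP p k K := by
  intro P _ _ _ i hi hcard
  have : IsCyclic P := isCyclic_of_prime_card hcard
  obtain ⟨u₀, hu₀⟩ := IsCyclic.exists_generator (α := P)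
  have hord : orderOf u₀ = p := by rw [orderOf_eq_card_of_forall_mem_zpowers hu₀, hcard]
  have hgenP : ∀ u : P, ∃ n : ℕ, u = u₀ ^ n := by
    intro u
    obtain ⟨n, hn⟩ := (isOfFinOrder_of_finite u₀).mem_powers_iff_mem_zpowers.2 (hu₀ u)
    exact ⟨n, hn.symm⟩
  have hx : orderOf (i u₀) = p := by rw [orderOf_injective i hi, hord]
  obtain ⟨φ, v, hv, huv, hK, hncl⟩ := H (i u₀) hx
  have hmem : i u₀ ∈ (i.range : Set K) := ⟨u₀, rfl⟩
  have hN : Subgroup.normalClosure (i.range : Set K) = ⊤ := by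
    rw [eq_top_iff, ← hncl]
    exact Subgroup.normalClosure_mono (Set.singleton_subset_iff.2 hmem)
  refine ⟨?_, hN⟩
  by_cases hnc : ∃ g, φ g * φ (AL.eSL p) ≠ φ (AL.eSL p) * φ g
  · exact AL.crit u₀ hord hgenP i hi φ v hv huv hnc hK hncl
  · push Not at hnc
    have hc : ∀ y : K, y * i u₀ = i u₀ * y := by
      have h1 : Subgroup.closure (Set.range φ ∪ {y | y * i u₀ = i u₀ * y}) ≤
          Subgroup.centralizer ({i u₀} : Set K) := by
        rw [Subgroup.closure_le]
        rintro y (⟨g, rfl⟩ | hy)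
        · rw [SetLike.mem_coe, Subgroup.mem_centralizer_singleton_iff]
          rw [huv, ← mul_assoc, hnc g, mul_assoc, mul_assoc, hv g]
        · rw [SetLike.mem_coe, Subgroup.mem_centralizer_singleton_iff]
          exact hy
      intro y
      have h2 : y ∈ Subgroup.centralizer ({i u₀} : Set K) := h1 (by rw [hK]; trivial)
      exact Subgroup.mem_centralizer_singleton_iff.1 h2
    have hnorm : (i.range).Normal := by
      refine ⟨?_⟩
      rintro _ ⟨u, rfl⟩ g
      obtain ⟨n, rfl⟩ := hgenP u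
      have h3 : g * i (u₀ ^ n) = i (u₀ ^ n) * g := by
        rw [map_pow]
        exact (show Commute g (i u₀) from hc g).pow_right n
      rw [h3, mul_inv_cancel_right]
      exact ⟨_, rfl⟩
    have htop : i.range = ⊤ := by
      rw [eq_top_iff, ← hN]
      exact Subgroup.normalClosure_le_normal (le_refl _)
    have h4 := AJ.re_range (k := k) (IsPGroup.of_card (n := 1) (by rw [hcard, pow_one])) i hi
    rw [htop] at h4
    exact h4

private theorem O2_nil {F : Type} [Field F] (A : Matrix (Fin 2) (Fin 2) F) (n : ℕ)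
    (hA : A ^ n = 0) : A ^ 2 = 0 := by
  have hn : IsNilpotent A := ⟨n, hA⟩
  have hdet : A.det = 0 := by
    have h1 : IsNilpotent A.det := ⟨n, by rw [← Matrix.det_pow, hA, Matrix.det_zero]⟩
    exact h1.eq_zero
  have htr : A.trace = 0 := by
    have h1 : IsNilpotent A.trace := Matrix.isNilpotent_trace_of_isNilpotent hn
    exact h1.eq_zero
  rw [Matrix.trace_fin_two] at htr
  rw [Matrix.det_fin_two] at hdet
  have h2 : A 1 1 = - A 0 0 := by linear_combination htr
  rw [h2] at hdet
  rw [sq]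
  ext a b
  fin_cases a <;> fin_cases b <;> simp [Matrix.mul_apply, Fin.sum_univ_two, h2]
  all_goals first | ring1 | linear_combination -hdet

private theorem O2_lift {p : ℕ} [hp : Fact p.Prime] {K : Type} [Group K] (F : Type) [Field F]
    [Finite F] [CharP F p] (ψ : Matrix.SpecialLinearGroup (Fin 2) F →* K)
    (hψ : Function.Surjective ψ) (x : K) (hx : orderOf x = p) :
    ∃ y : Matrix.SpecialLinearGroup (Fin 2) F, orderOf y = p ∧ ψ y = x := by
  obtain ⟨y₁, hy₁⟩ := hψ x
  have hxp : x ^ p = 1 := by rw [← hx]; exact pow_orderOf_eq_one x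
  have hpos : orderOf y₁ ≠ 0 := (orderOf_pos y₁).ne'
  obtain ⟨a, m, hm, ham⟩ := Nat.exists_eq_pow_mul_and_not_dvd hpos p hp.out.ne_one
  have hcop : Nat.Coprime m p := ((hp.out.coprime_iff_not_dvd).2 hm).symm
  obtain ⟨c, hc1, hc2⟩ := Nat.chineseRemainder hcop 0 1
  have hmc : m ∣ c := (Nat.modEq_zero_iff_dvd).1 hc1
  have h1 : ψ (y₁ ^ c) = x := by
    rw [map_pow, hy₁]
    have h2 : x ^ c = x ^ 1 := by
      rw [pow_eq_pow_iff_modEq, hx]
      exact hc2
    rw [h2, pow_one]
  have h2 : (y₁ ^ c) ^ (p ^ a) = 1 := by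
    obtain ⟨d, rfl⟩ := hmc
    rw [← pow_mul]
    have h3 : m * d * p ^ a = orderOf y₁ * d := by rw [ham]; ring
    rw [h3, pow_mul, pow_orderOf_eq_one, one_pow]
  set y := y₁ ^ c with hy
  have h3 : ((y : Matrix (Fin 2) (Fin 2) F) - 1) ^ (p ^ a) = 0 := by
    rw [sub_pow_char_pow_of_commute _ _ (Commute.one_right _), one_pow,
      ← Matrix.SpecialLinearGroup.coe_pow, h2, Matrix.SpecialLinearGroup.coe_one, sub_self]
  have h4 := O2_nil _ _ h3
  have h5 : ((y : Matrix (Fin 2) (Fin 2) F) - 1) ^ p = 0 :=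
    pow_eq_zero_of_le hp.out.two_le h4
  have h6 : y ^ p = 1 := by
    apply Subtype.ext
    rw [sub_pow_char_of_commute _ (Commute.one_right _), one_pow, sub_eq_zero] at h5
    rw [Matrix.SpecialLinearGroup.coe_pow, h5, Matrix.SpecialLinearGroup.coe_one]
  have h7 : y ≠ 1 := by
    intro h
    rw [h, map_one] at h1
    rw [← h1, orderOf_one] at hx
    exact hp.out.one_lt.ne hx
  exact ⟨y, orderOf_eq_prime h6 h7, h1⟩

theorem op_sl {p : ℕ} [hp : Fact p.Prime] {k : Type} [Field k] [IsAlgClosed k] [CharP k p]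
    {K : Type} [Group K] (n : ℕ) (F : Type) [Field F] [Finite F] [CharP F p]
    (ψ : Matrix.SpecialLinearGroup (Fin n) F →* K) (hψ : Function.Surjective ψ)
    (hker : ψ.ker ≤ Subgroup.center (Matrix.SpecialLinearGroup (Fin n) F)) : OP p k K := by
  apply O2_core
  intro x hx
  obtain ⟨φ, v, h1, h2, -, h3, h4⟩ := AL.SLn_quot n ψ hψ hker x hx
  exact ⟨φ, v, h1, h2, h3, h4⟩

theorem op_sl2 {p : ℕ} [hp : Fact p.Prime] {k : Type} [Field k] [IsAlgClosed k] [CharP k p]
    {K : Type} [Group K] (F : Type) [Field F] [Finite F] [CharP F p]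
    (ψ : Matrix.SpecialLinearGroup (Fin 2) F →* K) (hψ : Function.Surjective ψ) : OP p k K := by
  apply O2_core
  intro x hx
  obtain ⟨u, hu, hux⟩ := O2_lift F ψ hψ x hx
  obtain ⟨⟨φ', v', hv', huv, -, hcl⟩, hnc⟩ := AL.SLn_data 2 u hu
  refine ⟨ψ.comp φ', ψ v', ?_, ?_, ?_, ?_⟩
  · intro g
    rw [MonoidHom.comp_apply, ← map_mul, hv' g, map_mul]
  · rw [MonoidHom.comp_apply, ← map_mul, ← huv, hux]
  · have h1 := congrArg (Subgroup.map ψ) hcl
    rw [MonoidHom.map_closure, ← MonoidHom.range_eq_map, MonoidHom.range_eq_top.2 hψ] at h1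
    rw [eq_top_iff, ← h1, Subgroup.closure_le]
    rintro _ ⟨y, hy, rfl⟩
    apply Subgroup.subset_closure
    rcases hy with ⟨g, rfl⟩ | hy
    · exact Or.inl ⟨g, rfl⟩
    · refine Or.inr ?_
      change ψ y * x = x * ψ y
      rw [← hux, ← map_mul, ← map_mul]
      exact congrArg ψ hy
  · have h1 : Subgroup.normalClosure ({u} : Set (Matrix.SpecialLinearGroup (Fin 2) F)) ≤
        (Subgroup.normalClosure ({x} : Set K)).comap ψ := by
      apply Subgroup.normalClosure_le_normal
      rw [Set.singleton_subset_iff]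
      have h2 : ψ u ∈ Subgroup.normalClosure ({x} : Set K) := by
        rw [hux]
        exact Subgroup.subset_normalClosure rfl
      exact h2
    rw [hnc] at h1
    rw [eq_top_iff]
    intro y _
    obtain ⟨w, rfl⟩ := hψ y
    exact h1 (Subgroup.mem_top w)

end

end Pool.Agent.MP_1c8e06_ag.AN
end

section

set_option autoImplicit false

open scoped Classical

namespace Pool.Agent.MP_1c8e06_ag.AN

noncomputable section

/-!
# Task P1: the key step of the overgroup method

Proof.  Let `v u := g⁻¹ * i u * g ∈ U ≤ M`.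
Case 1: `v u ∈ N` for all `u`.  Then for all `u`: `(g * m)⁻¹ * i u * (g * m) = m⁻¹ * v u * m ∈ N ≤ U` (`N` is normalised by `M`: from `hk`, `N` is the kernel of `f`), so `hA (g * m)` applies:
`(g * m) * a * (g * m)⁻¹ ∈ Y`, which is the claim.
Case 2: not all in `N`.  `j : P →* M`, `j u := ⟨g⁻¹ * i u * g, _⟩` (injective), `i' := f.comp j : P →* H`.  Its kernel is not `⊤`, and `P` has prime order, so `i'` is injective (see `AL/RC1.lean`:
`eq_bot_or_eq_top_of_prime_card`).  `hH P i'` (with `Fintype H` from `Finite`: `H` is a quotient of the finite group `M`) gives `RE p k i' ⊤` and `normalClosure i'.range = ⊤`.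
`AL.exists_re_sub` (`AL/PKS.lean`) for `G := M`, `Q := f` (kernel a `p`-group: it embeds in `N`), `q := MonoidHom.id P`: `H' : Subgroup M` with `RE p k j H'`, `H'.map f = ⊤`.
`AJ.re_ind j φ _ H'` for the injective homomorphism `φ : M →* K`, `φ x := g * x * g⁻¹` (`(MulAut.conj g).toMonoidHom.comp M.subtype`): `RE p k (φ.comp j) (H'.map φ)`, and `φ.comp j = i`.  So
`H'.map φ ≤ Y` (`hY`).  Now `f m = f h` for some `h ∈ H'`; `n := h⁻¹ * m ∈ N` (`hk`), `m = h * n`, and
`g * (m * a * m⁻¹) * g⁻¹ = (g * h * g⁻¹) * (g * (n * a * n⁻¹) * g⁻¹) * (g * h * g⁻¹)⁻¹`, with `g * h * g⁻¹ ∈ H'.map φ ≤ Y`, `n * a * n⁻¹ ∈ A` (`hAN`), so the middle factor is in `Y` (`hA g hg`).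
-/

theorem step {p : ℕ} [hp : Fact p.Prime] {k : Type} [Field k] [IsAlgClosed k] [CharP k p]
    {P K : Type} [Group P] [Fintype P] [Group K] [Fintype K] (i : P →* K)
    (hi : Function.Injective i) (hcard : Nat.card P = p) (Y : Subgroup K)
    (hY : ∀ H : Subgroup K, AJ.RE p k i H → H ≤ Y) (U M N : Subgroup K) (hNU : N ≤ U)
    (hUM : U ≤ M) (hN : IsPGroup p N) {H : Type} [Group H] (f : M →* H)
    (hf : Function.Surjective f) (hk : ∀ m : M, f m = 1 ↔ (m : K) ∈ N) (hH : OP p k H)
    (A : Subgroup K) (hAN : ∀ n ∈ N, ∀ a ∈ A, n * a * n⁻¹ ∈ A)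
    (hA : ∀ g : K, (∀ u, g⁻¹ * i u * g ∈ U) → ∀ a ∈ A, g * a * g⁻¹ ∈ Y)
    (g : K) (hg : ∀ u, g⁻¹ * i u * g ∈ U) (m : K) (hm : m ∈ M) (a : K) (ha : a ∈ A) :
    g * (m * a * m⁻¹) * g⁻¹ ∈ Y := by
  have hNM : ∀ m' ∈ M, ∀ n ∈ N, m' * n * m'⁻¹ ∈ N := by
    intro m' hm' n hn
    have hnM : n ∈ M := hUM (hNU hn)
    have h1 : f ⟨n, hnM⟩ = 1 := (hk ⟨n, hnM⟩).2 hn
    have h2 : f (⟨m', hm'⟩ * ⟨n, hnM⟩ * ⟨m', hm'⟩⁻¹) = 1 := by
      rw [map_mul, map_mul, h1, map_inv]
      simp
    exact (hk _).1 h2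
  by_cases hcase : ∀ u, g⁻¹ * i u * g ∈ N
  · have h1 : ∀ u, (g * m)⁻¹ * i u * (g * m) ∈ U := by
      intro u
      have h2 := hNM m⁻¹ (M.inv_mem hm) _ (hcase u)
      have h3 : (g * m)⁻¹ * i u * (g * m) = m⁻¹ * (g⁻¹ * i u * g) * m⁻¹⁻¹ := by group
      rw [h3]
      exact hNU h2
    have h4 := hA (g * m) h1 a ha
    have h5 : g * (m * a * m⁻¹) * g⁻¹ = (g * m) * a * (g * m)⁻¹ := by group
    rw [h5]
    exact h4
  · push Not at hcase
    obtain ⟨u₀, hu₀⟩ := hcase
    let j : P →* M :=
      { toFun := fun u => ⟨g⁻¹ * i u * g, hUM (hg u)⟩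
        map_one' := by
          apply Subtype.ext
          show g⁻¹ * i 1 * g = 1
          rw [map_one]; group
        map_mul' := by
          intro x y
          apply Subtype.ext
          show g⁻¹ * i (x * y) * g = (g⁻¹ * i x * g) * (g⁻¹ * i y * g)
          rw [map_mul]; group }
    have hjv : ∀ u, ((j u : M) : K) = g⁻¹ * i u * g := fun u => rfl
    have hj : Function.Injective j := by
      intro x y hxy
      have h1 : ((j x : M) : K) = ((j y : M) : K) := by rw [hxy]
      rw [hjv, hjv] at h1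
      exact hi (mul_left_cancel (mul_right_cancel h1))
    let i' : P →* H := f.comp j
    have hi'v : ∀ u, i' u = f (j u) := fun u => rfl
    have hne : i' u₀ ≠ 1 := by
      intro h
      rw [hi'v] at h
      exact hu₀ ((hk (j u₀)).1 h)
    have hi'inj : Function.Injective i' := by
      rw [← MonoidHom.ker_eq_bot_iff]
      have hc : (Nat.card P).Prime := by
        rw [hcard]
        exact hp.out
      have hfp : Fact (Nat.card P).Prime := ⟨hc⟩
      rcases i'.ker.eq_bot_or_eq_top_of_prime_card with h | h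
      · exact h
      · exfalso
        apply hne
        rw [← MonoidHom.mem_ker, h]
        exact Subgroup.mem_top _
    have hfinH : Finite H := Finite.of_surjective f hf
    let _ : Fintype H := Fintype.ofFinite H
    obtain ⟨hre, hncl⟩ := hH P i' hi'inj hcard
    have hPp : IsPGroup p P := IsPGroup.of_card (n := 1) (by rw [hcard, pow_one])
    have hker : IsPGroup p f.ker := by
      refine hN.of_injective
        ({ toFun := fun x => (⟨((x : M) : K), (hk (x : M)).1 x.2⟩ : N)
           map_one' := rfl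
           map_mul' := fun _ _ => rfl } : f.ker →* N) ?_
      intro x y hxy
      apply Subtype.ext
      apply Subtype.ext
      exact congrArg (fun z : N => (z : K)) hxy
    obtain ⟨H', hH'i, hH're, hH'map⟩ := AL.exists_re_sub (P' := P) hPp j hj f hf hker
      (MonoidHom.id P) Function.surjective_id i' hi'inj (fun _ => rfl) hncl hre
    let φ : M →* K := (MulAut.conj g).toMonoidHom.comp M.subtype
    have hφv : ∀ x : M, φ x = g * (x : K) * g⁻¹ := fun x => rfl
    have hφ : Function.Injective φ := by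
      intro x y hxy
      rw [hφv, hφv] at hxy
      exact Subtype.ext (mul_left_cancel (mul_right_cancel hxy))
    have hre2 := AJ.re_ind j φ hφ H' hH're
    have hcomp : φ.comp j = i := by
      ext u
      show g * (g⁻¹ * i u * g) * g⁻¹ = i u
      group
    rw [hcomp] at hre2
    have hle : H'.map φ ≤ Y := hY _ hre2
    have hfm : f ⟨m, hm⟩ ∈ H'.map f := by
      rw [hH'map]
      exact Subgroup.mem_top _
    obtain ⟨h, hhH', hfh⟩ := hfm
    have hn : (h : K)⁻¹ * m ∈ N := by
      have h1 : f (h⁻¹ * ⟨m, hm⟩) = 1 := by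
        rw [map_mul, map_inv, hfh]
        simp
      exact (hk _).1 h1
    have h1 : g * (((h : K)⁻¹ * m) * a * ((h : K)⁻¹ * m)⁻¹) * g⁻¹ ∈ Y :=
      hA g hg _ (hAN _ hn a ha)
    have h2 : g * (h : K) * g⁻¹ ∈ Y := by
      apply hle
      exact ⟨h, hhH', hφv h⟩
    have h3 := Y.mul_mem (Y.mul_mem h2 h1) (Y.inv_mem h2)
    have h4 : g * (m * a * m⁻¹) * g⁻¹ = (g * (h : K) * g⁻¹) *
        (g * (((h : K)⁻¹ * m) * a * ((h : K)⁻¹ * m)⁻¹) * g⁻¹) * (g * (h : K) * g⁻¹)⁻¹ := by
      group
    rw [h4]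
    exact h3

end

end Pool.Agent.MP_1c8e06_ag.AN
end

section

set_option autoImplicit false

open scoped Classical

namespace Pool.Agent.MP_1c8e06_ag.AN

noncomputable section

/-!
# Task P2: the overgroup method (assembly of P1)

Proof.  Let `i : P →* K` be injective, `Nat.card P = p`, `u₀` a generator.  `AL.exists_largest i hi hcard` (`AL/CR1.lean`): `R`; `Y := Subgroup.normalizer (R : Set K)`.
`R ≤ Y`; elements of `K` commuting with all `i u` are in `Y` (last property of `R` for `v` and `v⁻¹`).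
`D : Subgroup K` with carrier `{x | ∀ g, (∀ u, g⁻¹ * i u * g ∈ U) → g * x * g⁻¹ ∈ Y}` (closed under products and inverses, contains `1`).
The good `g` exist: `i.range` is a `p`-group, so contained in a Sylow subgroup, which is conjugate to `U` (`IsPGroup.exists_le_sylow`, `MulAction.exists_smul_eq`, `Sylow.smul_def`/`Sylow.coe_subgroup_smul`): some `g` with
`g⁻¹ * i u * g ∈ U` for all `u`.  `N j` is a `p`-group as a subgroup of `U`.
(1) `z ∈ U` commuting with all elements of `U` is in `D`: `g * z * g⁻¹` commutes with `i u` because `z` commutes with `g⁻¹ * i u * g ∈ U`.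
(2) if `A ≤ D` is normalised by `N j` then `clo (M j) A ≤ D`: `step` with this `A`.
(3) `A₀ := sSup {A | A ≤ U ∧ A ≤ D ∧ ∀ u ∈ U, ∀ a ∈ A, u * a * u⁻¹ ∈ A}`.  `A₀ ≤ U`, `A₀ ≤ D`, normalised by `U` (`Subgroup.mem_sSup`... or: `A₀` is the closure of the union; use `Subgroup.closure_induction`, or note
that for fixed `u ∈ U` all `A` of the family satisfy `A ≤ A₀.comap (MulAut.conj u).toMonoidHom`).  The centre of `U` (as a subgroup of `K`) is in the family by (1).  `clo (M j) A₀ ⊓ U` is in the family: contained in `D` by (2),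
normalised by `U ≤ M j` (`clo (M j) A₀` is normalised by `M j`).  So `h.closed A₀` gives `A₀ = U`, i.e. `U ≤ D`.
(4) (2) for `A := D` (normalised by `N j ≤ U ≤ D`): `m * d * m⁻¹ ∈ D` for `m ∈ M j`, `d ∈ D`; so all `M j` are in `Subgroup.normalizer D` (finite group: or use `m⁻¹` too), and `h.gen`: `D` is normal.
(5) `D` contains `U`, so for a good `g`: `i u ∈ g U g⁻¹ ≤ D`.  `Subgroup.normalClosure i.range = ⊤`: it is a normal subgroup whose order is divisible by `p = Nat.card i.range`, so it is `⊤` by `h.simple`.  Hence `D = ⊤`, so (with a good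
`g`) `Y = ⊤` and `R` is normal (`Subgroup.normalizer_eq_top_iff`); it contains `i.range`, so `R = ⊤` and `RE p k i ⊤`.
-/

theorem par_op {p : ℕ} [hp : Fact p.Prime] {k : Type} [Field k] [IsAlgClosed k] [CharP k p]
    {K : Type} [Group K] [Finite K] (U : Subgroup K) {J : Type} (M N : J → Subgroup K)
    (h : Par p K U M N) (H : J → Type) (gH : ∀ j, Group (H j)) (f : ∀ j, M j →* H j)
    (hf : ∀ j, Function.Surjective (f j)) (hk : ∀ j, ∀ m : M j, f j m = 1 ↔ (m : K) ∈ N j)
    (hH : ∀ j, OP p k (H j)) : OP p k K := by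
  intro P _ _ _ i hi hcard
  obtain ⟨R, hR, hle, hiR, hcomm⟩ := AL.exists_largest (k := k) i hi hcard
  obtain ⟨Y, hYdef⟩ : ∃ Y : Subgroup K, Y = Subgroup.normalizer (R : Set K) := ⟨_, rfl⟩
  have hRY : R ≤ Y := by
    rw [hYdef]
    exact Subgroup.le_normalizer
  have hYle : ∀ H : Subgroup K, AJ.RE p k i H → H ≤ Y := fun H hH => (hle H hH).trans hRY
  have hYc : ∀ v : K, (∀ u, v * i u = i u * v) → v ∈ Y := by
    intro v hv
    rw [hYdef, Subgroup.mem_set_normalizer_iff]
    intro x
    constructor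
    · intro hx
      exact hcomm v hv x hx
    · intro hx
      have h1 := hcomm v⁻¹ (fun u => by
        have h2 := hv u
        have h3 : v⁻¹ * (v * i u) * v⁻¹ = v⁻¹ * (i u * v) * v⁻¹ := by rw [h2]
        have h4 : v⁻¹ * (v * i u) * v⁻¹ = i u * v⁻¹ := by group
        have h5 : v⁻¹ * (i u * v) * v⁻¹ = v⁻¹ * i u := by group
        rw [← h4, h3, h5]) _ hx
      have h6 : v⁻¹ * (v * x * v⁻¹) * v⁻¹⁻¹ = x := by group
      rw [h6] at h1
      exact h1
  obtain ⟨S, hSU⟩ := h.sylow
  have hUp : IsPGroup p U := by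
    rw [← hSU]
    exact S.isPGroup'
  have hPcard : Nat.card i.range = p := by
    rw [← hcard]
    exact (Nat.card_congr (MonoidHom.ofInjective hi).toEquiv).symm
  have hPp : IsPGroup p i.range := IsPGroup.of_card (n := 1) (by rw [hPcard, pow_one])
  obtain ⟨T, hT⟩ := hPp.exists_le_sylow
  obtain ⟨g₀, hg₀⟩ := MulAction.exists_smul_eq K S T
  have hgood : ∀ u, g₀⁻¹ * i u * g₀ ∈ U := by
    intro u
    have h1 : i u ∈ (T : Subgroup K) := hT ⟨u, rfl⟩
    rw [← hg₀, Sylow.coe_subgroup_smul, Subgroup.mem_pointwise_smul_iff_inv_smul_mem] at h1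
    rw [hSU] at h1
    simpa [MulAut.smul_def] using h1
  let D : Subgroup K :=
    { carrier := {x | ∀ g, (∀ u, g⁻¹ * i u * g ∈ U) → g * x * g⁻¹ ∈ Y}
      mul_mem' := by
        intro a b ha hb g hg
        have h1 := Y.mul_mem (ha g hg) (hb g hg)
        have h2 : g * a * g⁻¹ * (g * b * g⁻¹) = g * (a * b) * g⁻¹ := by group
        rw [h2] at h1
        exact h1
      one_mem' := by
        intro g hg
        rw [mul_one, mul_inv_cancel]
        exact Y.one_mem
      inv_mem' := by
        intro a ha g hg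
        have h1 := Y.inv_mem (ha g hg)
        have h2 : (g * a * g⁻¹)⁻¹ = g * a⁻¹ * g⁻¹ := by group
        rw [h2] at h1
        exact h1 }
  have hDc : ∀ z ∈ U, (∀ u ∈ U, z * u = u * z) → z ∈ D := by
    intro z hz hzc g hg
    apply hYc
    intro u
    have h1 := hzc _ (hg u)
    have h2 : g * (z * (g⁻¹ * i u * g)) * g⁻¹ = g * ((g⁻¹ * i u * g) * z) * g⁻¹ := by rw [h1]
    have h3 : g * (z * (g⁻¹ * i u * g)) * g⁻¹ = g * z * g⁻¹ * i u := by group
    have h4 : g * ((g⁻¹ * i u * g) * z) * g⁻¹ = i u * (g * z * g⁻¹) := by group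
    rw [← h3, h2, h4]
  have hstep : ∀ (j : J) (A : Subgroup K), A ≤ D → (∀ n ∈ N j, ∀ a ∈ A, n * a * n⁻¹ ∈ A) →
      ∀ m ∈ M j, ∀ a ∈ A, m * a * m⁻¹ ∈ D := by
    intro j A hAD hAN m hm a ha g hg
    have hNp : IsPGroup p (N j) := hUp.to_le (h.le_U j)
    exact step i hi hcard Y hYle U (M j) (N j) (h.le_U j) (h.U_le j) hNp (f j) (hf j) (hk j)
      (hH j) A hAN (fun g' hg' a' ha' => hAD ha' g' hg') g hg m hm a ha
  have hUD : U ≤ D := by
    obtain ⟨A₀, hA₀⟩ : ∃ A₀ : Subgroup K, A₀ = sSup {A : Subgroup K | A ≤ U ∧ A ≤ D ∧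
      ∀ u ∈ U, ∀ a ∈ A, u * a * u⁻¹ ∈ A} := ⟨_, rfl⟩
    have hin : ∀ A : Subgroup K, A ≤ U → A ≤ D → (∀ u ∈ U, ∀ a ∈ A, u * a * u⁻¹ ∈ A) →
        A ≤ A₀ := by
      intro A h1 h2 h3
      rw [hA₀]
      exact le_sSup ⟨h1, h2, h3⟩
    have hAU : A₀ ≤ U := by
      rw [hA₀]
      exact sSup_le fun A hA => hA.1
    have hAD : A₀ ≤ D := by
      rw [hA₀]
      exact sSup_le fun A hA => hA.2.1
    have hAn : ∀ u ∈ U, ∀ a ∈ A₀, u * a * u⁻¹ ∈ A₀ := by
      intro u hu
      have h1 : A₀ ≤ A₀.comap (MulAut.conj u).toMonoidHom := by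
        conv_lhs => rw [hA₀]
        refine sSup_le fun A hA a ha => ?_
        rw [Subgroup.mem_comap]
        exact hin A hA.1 hA.2.1 hA.2.2 (hA.2.2 u hu a ha)
      intro a ha
      exact h1 ha
    have hEq : A₀ = U := by
      refine h.closed A₀ hAU hAn ?_ ?_
      · intro z hz hzc
        refine hin (U ⊓ Subgroup.centralizer (U : Set K)) inf_le_left ?_ ?_ ?_
        · intro y hy
          rw [Subgroup.mem_inf, Subgroup.mem_centralizer_iff] at hy
          exact hDc y hy.1 (fun u hu => (hy.2 u hu).symm)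
        · intro u hu a ha
          have ha' := ha
          rw [Subgroup.mem_inf, Subgroup.mem_centralizer_iff] at ha'
          have h1 : u * a * u⁻¹ = a := by
            rw [ha'.2 u hu, mul_inv_cancel_right]
          rw [h1]
          exact ha
        · rw [Subgroup.mem_inf, Subgroup.mem_centralizer_iff]
          exact ⟨hz, fun u hu => (hzc u hu).symm⟩
      · intro j
        refine hin _ inf_le_right ?_ ?_
        · refine inf_le_left.trans ?_
          refine (Subgroup.closure_le D).2 ?_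
          rintro y ⟨m, hm, a, ha, rfl⟩
          exact hstep j A₀ hAD (fun n hn a ha => hAn n (h.le_U j hn) a ha) m hm a ha
        · have h1 : ∀ u ∈ U, clo (M j) A₀ ≤ (clo (M j) A₀).comap (MulAut.conj u).toMonoidHom := by
            intro u hu
            refine (Subgroup.closure_le _).2 ?_
            rintro y ⟨m, hm, a, ha, rfl⟩
            change u * (m * a * m⁻¹) * u⁻¹ ∈ clo (M j) A₀
            refine Subgroup.subset_closure ⟨u * m, (M j).mul_mem (h.U_le j hu) hm, a, ha, ?_⟩
            group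
          intro u hu a ha
          rw [Subgroup.mem_inf] at ha ⊢
          exact ⟨h1 u hu ha.1, U.mul_mem (U.mul_mem hu ha.2) (U.inv_mem hu)⟩
    rw [← hEq]
    exact hAD
  have hDn : D.Normal := by
    rw [← Subgroup.normalizer_eq_top_iff, eq_top_iff, ← h.gen]
    refine iSup_le fun j => ?_
    rw [Subgroup.le_normalizer_iff]
    intro m hm d hd
    exact hstep j D le_rfl (fun n hn a ha => D.mul_mem (D.mul_mem (hUD (h.le_U j hn)) ha)
      (D.inv_mem (hUD (h.le_U j hn)))) m hm d hd
  have htop : ∀ L : Subgroup K, L.Normal → i.range ≤ L → L = ⊤ := by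
    intro L hL hiL
    by_contra hne
    refine h.simple L hL hne ?_
    rw [← hPcard]
    exact Subgroup.card_dvd_of_le hiL
  have hD : D = ⊤ := by
    refine htop D hDn ?_
    rintro _ ⟨u, rfl⟩
    have h1 := hDn.conj_mem _ (hUD (hgood u)) g₀
    have h2 : g₀ * (g₀⁻¹ * i u * g₀) * g₀⁻¹ = i u := by group
    rw [h2] at h1
    exact h1
  have hY : Y = ⊤ := by
    rw [eq_top_iff]
    intro x _
    have h1 : g₀⁻¹ * x * g₀ ∈ D := by
      rw [hD]
      exact Subgroup.mem_top _
    have h2 : g₀ * (g₀⁻¹ * x * g₀) * g₀⁻¹ ∈ Y := h1 g₀ hgood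
    have h3 : g₀ * (g₀⁻¹ * x * g₀) * g₀⁻¹ = x := by group
    rw [h3] at h2
    exact h2
  have hRn : R.Normal := by
    rw [← Subgroup.normalizer_eq_top_iff, ← hYdef, hY]
  have hRt : R = ⊤ := htop R hRn hiR
  refine ⟨by rw [← hRt]; exact hR, ?_⟩
  exact htop _ Subgroup.normalClosure_normal Subgroup.subset_normalClosure

end

end Pool.Agent.MP_1c8e06_ag.AN
end

section

set_option autoImplicit false

open scoped Classical

namespace Pool.Agent.MP_1c8e06_ag.AN

noncomputable section

/-!
# Task L1: central products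

`ψ : (∀ a, Q a) →* K` is surjective and injective on every factor (`hinj`), the factors are not commutative and have `OP`.
* `ker_central`: `z ∈ ψ.ker`; for `a` and `y : Q a` the commutator `z * mulSingle a y * z⁻¹ * (mulSingle a y)⁻¹` is in `ψ.ker` and equal to `mulSingle a (z a * y * (z a)⁻¹ * y⁻¹)`, so it is `1` by `hinj`, so `z a` commutes with `y`.
* `ker_p`: `z ∈ ψ.ker`, `z ^ p = 1`: `z a` is central in `Q a` and `z a ^ p = 1`: `OP.no_center` (O1).
* `ker_pgroup`: more generally an element `z` all of whose components are central in `Q a` and whose order is a power of `p` (`z ^ (p ^ n) = 1`) is `1`: induction on `n`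
  (`z ^ (p ^ n)` has components which are central and with `p`-th power `1`, so it is `1`).
* `exists_lift`: `i : P →* K` injective, `P` a finite `p`-group: there is `x : P →* ∀ a, Q a` with `ψ.comp x = i`.  `T := i.range.comap ψ` (a finite group), `S` a Sylow `p`-subgroup of `T` (`Sylow p T`, `default`/`Sylow.nonempty`),
  `ψ_T : T → i.range` surjective with kernel of order prime to `p` (`ker_p` and Cauchy `exists_prime_orderOf_dvd_card'`).  So `Nat.card T = Nat.card ker * Nat.card P`, `Nat.card S = Nat.card P` (`Sylow.card_eq_multiplicity`, or: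
  `ψ_T` is injective on `S` (`ker_pgroup`), and `ψ_T` maps `S` onto a Sylow subgroup of the `p`-group `i.range`, i.e. onto `i.range`: `Sylow.mapSurjective` or counting), so `S → i.range` is bijective; take the inverse (`MulEquiv.ofBijective`) composed
  with `P ≃* i.range` (`MonoidHom.ofInjective`).
* `ncl_lift`: if the conjugates of the elements `ψ (x u)` generate `K` then those of the `x u` generate `Π`.  `T := Subgroup.normalClosure x.range`.  `T.map ψ = ⊤` (normal, contains `ψ (x u)`), so every `y` is `t * z`, `t ∈ T`, `z ∈ ψ.ker`.  Every `y` with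
  `y ^ p = 1` is in `T`: `z = t⁻¹ * y`, the order `m` of `z` is prime to `p` (`ker_pgroup`: no element of order `p` in the kernel), modulo `T` (in `Π ⧸ T`) `z` equals `y`, so its order divides `m` and `p`, so it is `1`.
  `mulSingle a y` with `y ^ p = 1` is in `T`; these `y` generate `Q a` (`OP.gen`, with `hd`), so all `mulSingle a y` are in `T`, and `T = ⊤` (`Subgroup.pi_mem_of_mulSingle_mem`).
-/

variable {p : ℕ} [hp : Fact p.Prime] {k : Type} [Field k] {A : Type} [Fintype A] (Q : A → Type)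
  [∀ a, Group (Q a)] [∀ a, Finite (Q a)] {K : Type} [Group K] [Finite K] (ψ : (∀ a, Q a) →* K)

theorem ker_central (hinj : ∀ a, Function.Injective fun y : Q a => ψ (Pi.mulSingle a y))
    (z : ∀ a, Q a) (hz : ψ z = 1) (a : A) (y : Q a) : z a * y = y * z a := by
  have h1 : z * Pi.mulSingle a y * z⁻¹ * (Pi.mulSingle a y)⁻¹ =
      Pi.mulSingle a (z a * y * (z a)⁻¹ * y⁻¹) := by
    funext b
    by_cases hb : b = a
    · subst hb
      simp
    · simp [Pi.mulSingle_eq_of_ne hb]
  have h2 : ψ (z * Pi.mulSingle a y * z⁻¹ * (Pi.mulSingle a y)⁻¹) = 1 := by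
    rw [map_mul, map_mul, map_mul, map_inv, map_inv, hz]
    simp
  rw [h1] at h2
  have h3 : z a * y * (z a)⁻¹ * y⁻¹ = 1 := by
    apply hinj a
    show ψ (Pi.mulSingle a (z a * y * (z a)⁻¹ * y⁻¹)) = ψ (Pi.mulSingle a 1)
    rw [h2, Pi.mulSingle_one, map_one]
  have h4 : z a * y * (z a)⁻¹ = y := mul_inv_eq_one.mp h3
  exact mul_inv_eq_iff_eq_mul.mp h4

theorem ker_pgroup (hOP : ∀ a, OP p k (Q a)) (hna : ∀ a, ∃ x y : Q a, x * y ≠ y * x)
    (z : ∀ a, Q a) (hz : ∀ a (y : Q a), z a * y = y * z a) (n : ℕ) (hn : z ^ p ^ n = 1) :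
    z = 1 := by
  induction n with
  | zero => simpa using hn
  | succ n ih =>
    apply ih
    funext a
    have h1 : (z ^ p ^ n) ^ p = 1 := by
      rw [← pow_mul, ← pow_succ]
      exact hn
    have h2 : (z a ^ p ^ n) ^ p = 1 := by
      have := congrFun h1 a
      simpa using this
    have h3 := (hOP a).no_center (hna a) (z a ^ p ^ n) h2 (fun x => by
      have hc : Commute x (z a) := (hz a x).symm
      exact (hc.pow_right _).eq)
    simpa using h3

theorem exists_lift (hψ : Function.Surjective ψ)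
    (hinj : ∀ a, Function.Injective fun y : Q a => ψ (Pi.mulSingle a y))
    (hOP : ∀ a, OP p k (Q a)) (hna : ∀ a, ∃ x y : Q a, x * y ≠ y * x) {P : Type} [Group P]
    [Finite P] (hP : IsPGroup p P) (i : P →* K) (hi : Function.Injective i) :
    ∃ x : P →* ∀ a, Q a, ψ.comp x = i := by
  let T : Subgroup (∀ a, Q a) := i.range.comap ψ
  have hT : ∀ t : T, ψ (t : ∀ a, Q a) ∈ i.range := fun t => t.2
  let f : T →* i.range := (ψ.comp T.subtype).codRestrict i.range hT
  have hf : ∀ t : T, ((f t : i.range) : K) = ψ (t : ∀ a, Q a) := fun t => rfl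
  have hfs : Function.Surjective f := by
    rintro ⟨y, hy⟩
    obtain ⟨t, ht⟩ := hψ y
    refine ⟨⟨t, ?_⟩, Subtype.ext ht⟩
    show ψ t ∈ i.range
    rw [ht]
    exact hy
  let S : Sylow p T := default
  have hPr : IsPGroup p i.range := hP.of_equiv (MonoidHom.ofInjective hi)
  have hSm : (S : Subgroup T).map f = ⊤ := by
    have h1 : ((S.mapSurjective hfs : Sylow p i.range) : Subgroup i.range) = ⊤ :=
      ((S.mapSurjective hfs).is_maximal' (hPr.to_subgroup ⊤) le_top).symm
    rw [← h1]
    rfl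
  let g : (S : Subgroup T) →* i.range := f.comp (S : Subgroup T).subtype
  have hg : ∀ s : (S : Subgroup T), ((g s : i.range) : K) = ψ ((s : T) : ∀ a, Q a) := fun s => rfl
  have hgs : Function.Surjective g := by
    intro y
    have hy : y ∈ (S : Subgroup T).map f := by
      rw [hSm]
      trivial
    obtain ⟨t, ht, rfl⟩ := hy
    exact ⟨⟨t, ht⟩, rfl⟩
  have hgi : Function.Injective g := by
    rw [injective_iff_map_eq_one]
    intro s hs
    have h1 : ψ ((s : T) : ∀ a, Q a) = 1 := by
      rw [← hg s, hs]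
      rfl
    obtain ⟨n, hn⟩ := S.isPGroup' s
    have h2 : ((s : T) : ∀ a, Q a) = 1 := by
      refine ker_pgroup (k := k) (p := p) Q hOP hna _ (fun a y => ker_central Q ψ hinj _ h1 a y) n ?_
      have := congrArg (fun w : (S : Subgroup T) => ((w : T) : ∀ a, Q a)) hn
      simpa using this
    exact Subtype.ext (Subtype.ext h2)
  let e : (S : Subgroup T) ≃* i.range := MulEquiv.ofBijective g ⟨hgi, hgs⟩
  refine ⟨T.subtype.comp ((S : Subgroup T).subtype.comp (e.symm.toMonoidHom.comp i.rangeRestrict)),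
    ?_⟩
  ext u
  have h1 : g (e.symm (i.rangeRestrict u)) = i.rangeRestrict u :=
    MulEquiv.apply_symm_apply e (i.rangeRestrict u)
  have h2 := hg (e.symm (i.rangeRestrict u))
  rw [h1] at h2
  show ψ (((e.symm (i.rangeRestrict u) : (S : Subgroup T)) : T) : ∀ a, Q a) = i u
  rw [← h2]
  rfl

theorem ncl_lift (hψ : Function.Surjective ψ)
    (hinj : ∀ a, Function.Injective fun y : Q a => ψ (Pi.mulSingle a y))
    (hOP : ∀ a, OP p k (Q a)) (hna : ∀ a, ∃ x y : Q a, x * y ≠ y * x)
    (hd : ∀ a, p ∣ Nat.card (Q a)) {P : Type} [Group P] (x : P →* ∀ a, Q a)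
    (h : Subgroup.normalClosure ((ψ.comp x).range : Set K) = ⊤) :
    Subgroup.normalClosure (x.range : Set (∀ a, Q a)) = ⊤ := by
  set T : Subgroup (∀ a, Q a) := Subgroup.normalClosure (x.range : Set (∀ a, Q a)) with hTd
  haveI hTn : T.Normal := Subgroup.normalClosure_normal
  have h1 : T.map ψ = ⊤ := by
    haveI : (T.map ψ).Normal := hTn.map ψ hψ
    rw [eq_top_iff, ← h]
    apply Subgroup.normalClosure_le_normal
    rintro _ ⟨u, rfl⟩
    exact ⟨x u, Subgroup.subset_normalClosure ⟨u, rfl⟩, rfl⟩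
  have h2 : ∀ y : ∀ a, Q a, y ^ p = 1 → y ∈ T := by
    intro y hy
    have hy1 : ψ y ∈ T.map ψ := by
      rw [h1]
      trivial
    obtain ⟨t, ht, hty⟩ := hy1
    set z : ∀ a, Q a := t⁻¹ * y with hz
    have hzk : ψ z = 1 := by
      rw [hz, map_mul, map_inv, hty]
      simp
    have hm : 0 < orderOf z := orderOf_pos z
    have hpm : ¬ p ∣ orderOf z := by
      rintro ⟨q, hq⟩
      have hq0 : 0 < q := by
        rcases Nat.eq_zero_or_pos q with h0 | h0
        · rw [h0, mul_zero] at hq
          omega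
        · exact h0
      have h3 : (z ^ q) ^ p ^ 1 = 1 := by
        rw [pow_one, ← pow_mul, mul_comm q p, ← hq]
        exact pow_orderOf_eq_one z
      have h4 : z ^ q = 1 := by
        refine ker_pgroup (k := k) (p := p) Q hOP hna _ (fun a w => ?_) 1 h3
        have hk : ψ (z ^ q) = 1 := by
          rw [map_pow, hzk, one_pow]
        exact ker_central Q ψ hinj _ hk a w
      have h5 : orderOf z ∣ q := orderOf_dvd_of_pow_eq_one h4
      have h6 := Nat.le_of_dvd hq0 h5
      have h7 := hp.out.two_le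
      rw [hq] at h6
      nlinarith
    have h3 : (QuotientGroup.mk z : (∀ a, Q a) ⧸ T) = QuotientGroup.mk y := by
      rw [QuotientGroup.eq]
      rw [hz]
      have : (t⁻¹ * y)⁻¹ * y = y⁻¹ * t * y⁻¹⁻¹ := by group
      rw [this]
      exact hTn.conj_mem t ht y⁻¹
    have h4 : (QuotientGroup.mk y : (∀ a, Q a) ⧸ T) ^ p = 1 := by
      rw [← QuotientGroup.mk_pow, hy]
      rfl
    have h5 : (QuotientGroup.mk y : (∀ a, Q a) ⧸ T) ^ orderOf z = 1 := by
      rw [← h3, ← QuotientGroup.mk_pow, pow_orderOf_eq_one]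
      rfl
    have h6 : (QuotientGroup.mk y : (∀ a, Q a) ⧸ T) ^ Nat.gcd p (orderOf z) = 1 :=
      pow_gcd_eq_one.mpr ⟨h4, h5⟩
    have h7 : Nat.gcd p (orderOf z) = 1 := (Nat.Prime.coprime_iff_not_dvd hp.out).mpr hpm
    rw [h7, pow_one] at h6
    exact (QuotientGroup.eq_one_iff y).mp h6
  have h3 : ∀ (a : A) (y : Q a), Pi.mulSingle a y ∈ T := by
    intro a y
    have h4 : (⊤ : Subgroup (Q a)) ≤ T.comap (MonoidHom.mulSingle Q a) := by
      rw [← (hOP a).gen (hd a), Subgroup.closure_le]
      intro w hw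
      show Pi.mulSingle a w ∈ T
      apply h2
      have hw1 : w ^ p = 1 := hw
      rw [← Pi.mulSingle_pow, hw1, Pi.mulSingle_one]
    exact h4 (Subgroup.mem_top y)
  rw [eq_top_iff]
  intro y _
  exact Subgroup.pi_mem_of_mulSingle_mem y (fun a => h3 a (y a))

end

end Pool.Agent.MP_1c8e06_ag.AN
end

section

set_option autoImplicit false

open scoped Classical

namespace Pool.Agent.MP_1c8e06_ag.AN

noncomputable section

/-!
# Task L3: elements of order `p` in a central product

Proof.  `i := ψ.comp x` (injective by hypothesis), `u₀` a generator of `P` (order `p`), `E a y := ψ (Pi.mulSingle a y)` (a homomorphism `Q a →* K` for fixed `a`: `ψ.comp (MonoidHom.mulSingle Q a)`).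
`AL.exists_largest i hi hcard` (`AL/CR1.lean`): `R`; `Y := Subgroup.normalizer (R : Set K)`.  `R ≤ Y`, and an element of `K` commuting with `i u₀` is in `Y` (it commutes with all `i u`, powers of `i u₀`; last property of `R` for it and its inverse).
Hence (C): if `z : ∀ a, Q a` commutes with `x u₀` then `ψ z ∈ Y`.
Claim: `E a y ∈ Y` for all `a`, `y`.
* `x u₀ a = 1`: `mulSingle a y` commutes with `x u₀` (componentwise): (C).
* `x u₀ a ≠ 1`: `L := (E a).range`, `V := Vp.map ψ`, where `Vp : Subgroup (∀ a, Q a)` has the elements `z` with `z a = 1` and `z b ∈ Subgroup.zpowers (x u₀ b)` for `b ≠ a` (`Subgroup.pi Set.univ ..`).  All `z ∈ Vp` satisfy `z ^ p = 1` (componentwise,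
  `(x u₀ b) ^ p = 1`), so `V` is a `p`-group; they commute with `x u₀`, so `V ≤ Y` by (C).  `L` and `V` commute (`mulSingle a y` and `z` with `z a = 1` commute).  `hdisj`: if `E a y = ψ z`, `z ∈ Vp`, then `mulSingle a y * z⁻¹ ∈ ψ.ker`, so its component
  `y` at `a` is central (`ker_central`), and `(mulSingle a y * z⁻¹) ^ p = mulSingle a (y ^ p)` is in the kernel, so `y ^ p = 1` (`hinj`), so `y = 1` (`OP.no_center`).
  `i' : P →* L`, `i' u := E a (x u a)`, injective (its kernel is not `⊤`, prime order); `q := MonoidHom.id P`; `i u = i' u * ψ z` with `z := x u` with the component at `a` replaced by `1` (`z b = x u b`, `x u` is a power of `x u₀`; `Function.update`).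
  `OP p k L` from `OP p k (Q a)` by `OP.equiv` (`MonoidHom.ofInjective`): `RE p k i' ⊤` and the normal closure.  `central_factor` (L2): `H'`, `RE p k i H'` so `H' ≤ R ≤ Y`, `L ≤ H' ⊔ V ≤ Y`.
So `Y = ⊤`: `Y.comap ψ` contains all `mulSingle a y` (`Subgroup.pi_mem_of_mulSingle_mem`), `ψ` surjective.  `R` is normal and contains `i.range`, so `normalClosure i.range ≤ R`; and `RE p k i R` implies `RE p k i H` for `H ≤ R` (unfold `AJ.RE`:
`⟨S, hS, D, fun h hh => hD h (hle hh)⟩`, see the end of `AL/RC2.lean`).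
-/

theorem prod_order_p {p : ℕ} [hp : Fact p.Prime] {k : Type} [Field k] [IsAlgClosed k] [CharP k p]
    {A : Type} [Fintype A] (Q : A → Type) [∀ a, Group (Q a)] [∀ a, Finite (Q a)] {K : Type}
    [Group K] [Fintype K] (ψ : (∀ a, Q a) →* K) (hψ : Function.Surjective ψ)
    (hinj : ∀ a, Function.Injective fun y : Q a => ψ (Pi.mulSingle a y))
    (hOP : ∀ a, OP p k (Q a)) (hna : ∀ a, ∃ x y : Q a, x * y ≠ y * x) {P : Type} [Group P]
    [Fintype P] (hcard : Nat.card P = p) (x : P →* ∀ a, Q a)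
    (hi : Function.Injective (ψ.comp x)) :
    AJ.RE p k (ψ.comp x) (Subgroup.normalClosure ((ψ.comp x).range : Set K)) := by
  have hP : IsPGroup p P := IsPGroup.of_card (n := 1) (by rw [hcard, pow_one])
  have hup : ∀ u : P, u ^ p = 1 := fun u => by rw [← hcard]; exact pow_card_eq_one'
  obtain ⟨u₀, hu₀⟩ : ∃ u₀ : P, u₀ ≠ 1 := by
    by_contra hne
    push Not at hne
    have h1 : Nat.card P = 1 := by
      rw [Nat.card_eq_one_iff_unique]
      exact ⟨⟨fun a b => by rw [hne a, hne b]⟩, ⟨1⟩⟩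
    exact hp.out.one_lt.ne' (hcard.symm.trans h1)
  have hpow : ∀ u : P, ∃ n : ℕ, u = u₀ ^ n := by
    intro u
    have h1 : u ∈ Subgroup.zpowers u₀ := mem_zpowers_of_prime_card hcard hu₀
    rw [← mem_powers_iff_mem_zpowers] at h1
    obtain ⟨n, hn⟩ := h1
    exact ⟨n, hn.symm⟩
  obtain ⟨R, hR, hmax, hrange, hconj⟩ := AL.exists_largest (k := k) (ψ.comp x) hi hcard
  set Y : Subgroup K := Subgroup.normalizer (R : Set K) with hY
  have hRY : R ≤ Y := Subgroup.le_normalizer
  have hC : ∀ z : ∀ a, Q a, z * x u₀ = x u₀ * z → ψ z ∈ Y := by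
    intro z hz
    have h1 : ∀ u, ψ z * (ψ.comp x) u = (ψ.comp x) u * ψ z := by
      intro u
      obtain ⟨n, rfl⟩ := hpow u
      rw [map_pow]
      have h2 : Commute (ψ z) ((ψ.comp x) u₀) := by
        show ψ z * ψ (x u₀) = ψ (x u₀) * ψ z
        rw [← map_mul, hz, map_mul]
      exact (h2.pow_right n).eq
    have h1' : ∀ u, (ψ z)⁻¹ * (ψ.comp x) u = (ψ.comp x) u * (ψ z)⁻¹ := by
      intro u
      exact (show Commute (ψ z) ((ψ.comp x) u) from h1 u).inv_left.eq
    rw [hY, Subgroup.mem_normalizer_iff]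
    intro h
    refine ⟨fun hh => hconj _ h1 h hh, fun hh => ?_⟩
    have h3 := hconj _ h1' _ hh
    have h4 : (ψ z)⁻¹ * (ψ z * h * (ψ z)⁻¹) * (ψ z)⁻¹⁻¹ = h := by group
    rwa [h4] at h3
  have claim : ∀ (a : A) (y : Q a), ψ (Pi.mulSingle a y) ∈ Y := by
    intro a y
    by_cases hxa : x u₀ a = 1
    · refine hC _ ?_
      funext b
      by_cases hb : b = a
      · subst hb
        simp [hxa]
      · simp [Pi.mulSingle_eq_of_ne hb]
    · let Ea : Q a →* K := ψ.comp (MonoidHom.mulSingle Q a)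
      have hEa : Function.Injective Ea := hinj a
      let Vp : Subgroup (∀ a, Q a) := Subgroup.pi Set.univ
        (fun b => if b = a then ⊥ else Subgroup.zpowers (x u₀ b))
      let V : Subgroup K := Vp.map ψ
      let L : Subgroup K := Ea.range
      have hVa : ∀ z ∈ Vp, z a = 1 := by
        intro z hz
        have h1 := (Subgroup.mem_pi _).1 hz a (Set.mem_univ a)
        rwa [if_pos rfl, Subgroup.mem_bot] at h1
      have hVb : ∀ z ∈ Vp, ∀ b, b ≠ a → z b ∈ Subgroup.zpowers (x u₀ b) := by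
        intro z hz b hb
        have h1 := (Subgroup.mem_pi _).1 hz b (Set.mem_univ b)
        rwa [if_neg hb] at h1
      have hxp : ∀ b, (x u₀ b) ^ p = 1 := by
        intro b
        have h1 : x u₀ ^ p = 1 := by rw [← map_pow, hup, map_one]
        exact congrFun h1 b
      have hVpow : ∀ z ∈ Vp, z ^ p = 1 := by
        intro z hz
        funext b
        rw [Pi.pow_apply, Pi.one_apply]
        by_cases hb : b = a
        · rw [hb, hVa z hz, one_pow]
        · obtain ⟨n, hn⟩ := Subgroup.mem_zpowers_iff.1 (hVb z hz b hb)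
          rw [← hn, ← zpow_natCast, ← zpow_mul, mul_comm, zpow_mul, zpow_natCast, hxp, one_zpow]
      have hVcomm : ∀ z ∈ Vp, z * x u₀ = x u₀ * z := by
        intro z hz
        funext b
        rw [Pi.mul_apply, Pi.mul_apply]
        by_cases hb : b = a
        · rw [hb, hVa z hz, one_mul, mul_one]
        · obtain ⟨n, hn⟩ := Subgroup.mem_zpowers_iff.1 (hVb z hz b hb)
          rw [← hn]
          exact (Commute.refl (x u₀ b)).zpow_left n
      have hVY : V ≤ Y := by
        rintro _ ⟨z, hz, rfl⟩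
        exact hC z (hVcomm z hz)
      have hVgroup : IsPGroup p V := by
        rintro ⟨g, hg⟩
        refine ⟨1, Subtype.ext ?_⟩
        obtain ⟨z, hz, rfl⟩ := hg
        rw [pow_one]
        show ψ z ^ p = 1
        rw [← map_pow, hVpow z hz, map_one]
      have hcomm : ∀ g ∈ L, ∀ h ∈ V, g * h = h * g := by
        rintro _ ⟨y, rfl⟩ _ ⟨z, hz, rfl⟩
        show ψ (Pi.mulSingle a y) * ψ z = ψ z * ψ (Pi.mulSingle a y)
        rw [← map_mul, ← map_mul]
        congr 1
        funext b
        rw [Pi.mul_apply, Pi.mul_apply]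
        by_cases hb : b = a
        · rw [hb, hVa z hz, one_mul, mul_one]
        · rw [Pi.mulSingle_eq_of_ne hb, one_mul, mul_one]
      have hdisj : ∀ g ∈ L, g ∈ V → g = 1 := by
        rintro _ ⟨y, rfl⟩ ⟨z, hz, hzy⟩
        change ψ z = ψ (Pi.mulSingle a y) at hzy
        show ψ (Pi.mulSingle a y) = 1
        have hker : ψ (Pi.mulSingle a y * z⁻¹) = 1 := by
          rw [map_mul, map_inv, ← hzy, mul_inv_cancel]
        have hcen : ∀ w : Q a, w * y = y * w := by
          intro w
          have h1 := ker_central Q ψ hinj _ hker a w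
          rw [Pi.mul_apply, Pi.inv_apply, hVa z hz, inv_one, mul_one, Pi.mulSingle_eq_same] at h1
          exact h1.symm
        have hyp : y ^ p = 1 := by
          have h1 : ψ (Pi.mulSingle a (y ^ p)) = ψ (Pi.mulSingle a 1) := by
            rw [Pi.mulSingle_pow, map_pow, ← hzy, ← map_pow, hVpow z hz, Pi.mulSingle_one]
          exact hinj a h1
        have hy1 : y = 1 := OP.no_center (hOP a) (hna a) y hyp hcen
        rw [hy1, Pi.mulSingle_one, map_one]
      let i' : P →* L := Ea.rangeRestrict.comp ((Pi.evalMonoidHom Q a).comp x)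
      have hi'v : ∀ u, (i' u : K) = ψ (Pi.mulSingle a (x u a)) := fun u => rfl
      have hi' : Function.Injective i' := by
        rw [injective_iff_map_eq_one]
        intro u hu
        by_contra hne
        have h1 : (i' u : K) = 1 := by rw [hu]; rfl
        rw [hi'v, ← map_one ψ, ← Pi.mulSingle_one a] at h1
        have h2 : x u a = 1 := hinj a h1
        obtain ⟨n, hn⟩ := Subgroup.mem_zpowers_iff.1
          (mem_zpowers_of_prime_card (p := p) hcard hne : u₀ ∈ Subgroup.zpowers u)
        apply hxa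
        rw [← hn, map_zpow, Pi.pow_apply, h2, one_zpow]
      have hiv : ∀ u, ∃ v ∈ V, (ψ.comp x) u = (i' (MonoidHom.id P u) : K) * v := by
        intro u
        refine ⟨ψ (Function.update (x u) a 1), ⟨_, ?_, rfl⟩, ?_⟩
        · rw [SetLike.mem_coe, Subgroup.mem_pi]
          intro b _
          by_cases hb : b = a
          · rw [if_pos hb, Subgroup.mem_bot, hb, Function.update_self]
          · rw [if_neg hb, Function.update_of_ne hb]
            obtain ⟨n, hn⟩ := hpow u
            rw [hn, map_pow, Pi.pow_apply]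
            exact Subgroup.pow_mem _ (Subgroup.mem_zpowers _) n
        · rw [MonoidHom.id_apply, hi'v, ← map_mul, MonoidHom.comp_apply]
          congr 1
          funext b
          rw [Pi.mul_apply]
          by_cases hb : b = a
          · subst hb
            rw [Function.update_self, Pi.mulSingle_eq_same, mul_one]
          · rw [Function.update_of_ne hb, Pi.mulSingle_eq_of_ne hb, one_mul]
      have hOPL : OP p k L := OP.equiv (MonoidHom.ofInjective hEa) (hOP a)
      obtain ⟨hre, hncl⟩ := hOPL P i' hi' hcard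
      obtain ⟨H', hiH, hreH, hLH⟩ := central_factor hP (ψ.comp x) hi L V hcomm hVgroup hdisj
        (MonoidHom.id P) Function.surjective_id i' hi' hiv hncl hre
      have h1 : H' ⊔ V ≤ Y := sup_le ((hmax H' hreH).trans hRY) hVY
      exact h1 (hLH ⟨y, rfl⟩)
  have hYtop : Y = ⊤ := by
    rw [Subgroup.eq_top_iff']
    intro g
    obtain ⟨z, rfl⟩ := hψ g
    exact Subgroup.pi_mem_of_mulSingle_mem (H := Y.comap ψ) z (fun a => claim a (z a))
  have hRn : R.Normal := Subgroup.normalizer_eq_top_iff.1 hYtop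
  have hle : Subgroup.normalClosure ((ψ.comp x).range : Set K) ≤ R :=
    Subgroup.normalClosure_le_normal hrange
  obtain ⟨S, hS, D, hD⟩ := hR
  exact ⟨S, hS, D, fun h hh => hD h (hle hh)⟩

end

end Pool.Agent.MP_1c8e06_ag.AN
end
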