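import Pool.Agent.Lib.MP_1c8e06_ag.Mg.G080
import Pool.Agent.Lib.MP_1c8e06_ag.AN.Defs
import Pool.Agent.Lib.MP_1c8e06_ag.Mg.G049
import Pool.Agent.Lib.MP_1c8e06_ag.AJ.Gb2
import Pool.Agent.Lib.MP_1c8e06_ag.Mg.G073

section

set_option autoImplicit false

namespace Pool.Agent.MP_1c8e06_ag.AL

noncomputable section

/-!
# Task QT: central quotients

Proofs.
* `center_coprime`: an element `z` of the center of `SL_n(F)` is a scalar matrix (`Matrix.SpecialLinearGroup.mem_center_iff`: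
  `z = c • 1` with `c ^ n = 1`), so `z ^ (q - 1) = 1`, `q = |F|`, `q - 1` is prime to `p` (`q` is a power of `p`: `FiniteField.card`).  Hence `z ^ p = 1` implies `z = 1`,
  and every such `z` is the `p`-th power of a power of `z`.
* `exists_lift`: choose `u₁` with `ψ u₁ = x`.  `ψ (u₁ ^ p) = 1`: `z := u₁ ^ p` is in `ψ.ker`, central.  `z = z' ^ p` with `z'` a power of `z`, central, in
  `ψ.ker`.  `u := u₁ * z'⁻¹`: `ψ u = x`, `u ^ p = u₁ ^ p * z'^(-p) = 1`, `u ≠ 1` (as `x ≠ 1`).  `orderOf_eq_prime`.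
* `SLn_quot`: `u` from `exists_lift`, `φ', v'` from `SLn_data`; `φ := ψ.comp φ'`, `v := ψ v'`.  Third statement, with `g := wSL p`: if `ψ (φ' w)` and `ψ (φ' e)`
  commute then `φ' w * φ' e * (φ' w)⁻¹ = φ' e * z` with `z ∈ ψ.ker` central; `p`-th powers: `1 = z ^ p` (`(φ' e) ^ p = 1`: `orderOf_eSL`), so `z = 1`:
  contradiction with `SLn_data`.  Closure and normal closure: images under the surjection `ψ` (`ψ` maps elements commuting with `u` to elements commuting
  with `x`; `MonoidHom.map_closure`, and the preimage of `Subgroup.normalClosure {x}` is a normal subgroup containing `u`).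
-/

theorem center_coprime {p : ℕ} [hp : Fact p.Prime] {F : Type} [Field F] [Finite F] [CharP F p]
    (n : ℕ) (z : Matrix.SpecialLinearGroup (Fin n) F)
    (hz : z ∈ Subgroup.center (Matrix.SpecialLinearGroup (Fin n) F)) :
    (z ^ p = 1 → z = 1) ∧ ∃ m : ℕ, (z ^ m) ^ p = z := by
  classical
  rcases Nat.eq_zero_or_pos n with hn | hn
  · subst hn
    exact ⟨fun _ => Subsingleton.elim _ _, 0, Subsingleton.elim _ _⟩
  rw [Matrix.SpecialLinearGroup.mem_center_iff] at hz
  obtain ⟨r, hr, hrz⟩ := hz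
  have hpow : ∀ m : ℕ, ((z ^ m : Matrix.SpecialLinearGroup (Fin n) F) : Matrix (Fin n) (Fin n) F) =
      Matrix.scalar (Fin n) (r ^ m) := by
    intro m
    rw [Matrix.SpecialLinearGroup.coe_pow, ← hrz, ← map_pow]
  have hfrob : Fintype F := Fintype.ofFinite F
  obtain ⟨f, -, hf⟩ := FiniteField.card F p
  refine ⟨?_, p ^ ((f : ℕ) - 1), ?_⟩
  · intro h
    have h1 : Matrix.scalar (Fin n) (r ^ p) = Matrix.scalar (Fin n) (1 : F) := by
      rw [← hpow p, h, map_one]
      rfl
    have h2 : r ^ p = 1 := by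
      have h3 := congrFun (congrFun h1 ⟨0, hn⟩) ⟨0, hn⟩
      simpa using h3
    have h4 : (r - 1) ^ p = 0 := by
      rw [sub_pow_char, h2, one_pow, sub_self]
    have h5 : r = 1 := sub_eq_zero.1 (pow_eq_zero_iff hp.out.ne_zero |>.1 h4)
    apply Subtype.ext
    rw [← hrz, h5, map_one]
    rfl
  · apply Subtype.ext
    rw [← pow_mul, ← pow_succ, Nat.sub_add_cancel f.pos, hpow, ← hf, FiniteField.pow_card, hrz]

theorem exists_lift {p : ℕ} [hp : Fact p.Prime] {F : Type} [Field F] [Finite F] [CharP F p]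
    (n : ℕ) {K : Type} [Group K] (ψ : Matrix.SpecialLinearGroup (Fin n) F →* K)
    (hψ : Function.Surjective ψ)
    (hker : ψ.ker ≤ Subgroup.center (Matrix.SpecialLinearGroup (Fin n) F)) (x : K)
    (hx : orderOf x = p) :
    ∃ u : Matrix.SpecialLinearGroup (Fin n) F, orderOf u = p ∧ ψ u = x := by
  obtain ⟨u₁, hu₁⟩ := hψ x
  have hxp : x ^ p = 1 := by rw [← hx]; exact pow_orderOf_eq_one x
  have hz : u₁ ^ p ∈ ψ.ker := by
    rw [MonoidHom.mem_ker, map_pow, hu₁, hxp]
  obtain ⟨-, m, hm⟩ := center_coprime n (u₁ ^ p) (hker hz)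
  have hz' : (u₁ ^ p) ^ m ∈ ψ.ker := ψ.ker.pow_mem hz m
  have hc := Subgroup.mem_center_iff.1 (hker hz')
  set z := (u₁ ^ p) ^ m with hzdef
  have h1 : ψ (u₁ * z⁻¹) = x := by
    rw [map_mul, map_inv, hu₁, MonoidHom.mem_ker.1 hz', inv_one, mul_one]
  have h2 : (u₁ * z⁻¹) ^ p = 1 := by
    have hcomm : Commute u₁ z⁻¹ := Commute.inv_right (hc u₁)
    rw [hcomm.mul_pow, inv_pow, hm, mul_inv_cancel]
  have h3 : u₁ * z⁻¹ ≠ 1 := by
    intro h
    rw [h, map_one] at h1
    rw [← h1, orderOf_one] at hx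
    exact hp.out.one_lt.ne hx
  exact ⟨u₁ * z⁻¹, orderOf_eq_prime h2 h3, h1⟩

theorem SLn_quot {p : ℕ} [hp : Fact p.Prime] {F : Type} [Field F] [Finite F] [CharP F p]
    (n : ℕ) {K : Type} [Group K] (ψ : Matrix.SpecialLinearGroup (Fin n) F →* K)
    (hψ : Function.Surjective ψ)
    (hker : ψ.ker ≤ Subgroup.center (Matrix.SpecialLinearGroup (Fin n) F)) (x : K)
    (hx : orderOf x = p) :
    ∃ (φ : SL2 p →* K) (v : K), (∀ g, v * φ g = φ g * v) ∧ x = φ (eSL p) * v ∧
      (∃ g, φ g * φ (eSL p) ≠ φ (eSL p) * φ g) ∧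
      Subgroup.closure (Set.range φ ∪ {y | y * x = x * y}) = ⊤ ∧
      Subgroup.normalClosure ({x} : Set K) = ⊤ := by
  obtain ⟨u, hu, hux⟩ := exists_lift n ψ hψ hker x hx
  obtain ⟨⟨φ', v', hv', huv, hne, hcl⟩, hnc⟩ := SLn_data n u hu
  refine ⟨ψ.comp φ', ψ v', ?_, ?_, ⟨wSL p, ?_⟩, ?_, ?_⟩
  · intro g
    rw [MonoidHom.comp_apply, ← map_mul, hv' g, map_mul]
  · rw [MonoidHom.comp_apply, ← map_mul, ← huv, hux]
  · intro h
    apply hne
    set a := φ' (wSL p)
    set e := φ' (eSL p) with he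
    have hep : e ^ p = 1 := by
      rw [he, ← map_pow]
      have h0 : (eSL p) ^ p = 1 := orderOf_dvd_iff_pow_eq_one.1 (by rw [orderOf_eSL])
      rw [h0, map_one]
    have hk : a * e * a⁻¹ * e⁻¹ ∈ ψ.ker := by
      rw [MonoidHom.mem_ker, map_mul, map_mul, map_mul, map_inv, map_inv]
      have h' : ψ a * ψ e = ψ e * ψ a := h
      rw [h', mul_assoc (ψ e), mul_inv_cancel, mul_one, mul_inv_cancel]
    obtain ⟨h1, -⟩ := center_coprime n _ (hker hk)
    have hc := Subgroup.mem_center_iff.1 (hker hk)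
    set z := a * e * a⁻¹ * e⁻¹ with hz
    have h2 : a * e * a⁻¹ = z * e := by rw [hz, inv_mul_cancel_right]
    have h3 : (a * e * a⁻¹) ^ p = 1 := by
      rw [conj_pow, hep, mul_one, mul_inv_cancel]
    have h4 : z ^ p = 1 := by
      have hcomm : Commute z e := (hc e).symm
      rw [h2, hcomm.mul_pow, hep, mul_one] at h3
      exact h3
    have h5 := h1 h4
    rw [h5, one_mul] at h2
    exact mul_inv_eq_iff_eq_mul.1 h2
  · have h1 := congrArg (Subgroup.map ψ) hcl
    rw [MonoidHom.map_closure, ← MonoidHom.range_eq_map, MonoidHom.range_eq_top.2 hψ] at h1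
    rw [eq_top_iff, ← h1, Subgroup.closure_le]
    rintro _ ⟨y, hy, rfl⟩
    apply Subgroup.subset_closure
    rcases hy with ⟨g, rfl⟩ | hy
    · exact Or.inl ⟨g, rfl⟩
    · refine Or.inr ?_
      change ψ y * x = x * ψ y
      rw [← hux, ← map_mul, ← map_mul]
      exact congrArg ψ hy
  · have h1 : Subgroup.normalClosure ({u} : Set (Matrix.SpecialLinearGroup (Fin n) F)) ≤
        (Subgroup.normalClosure ({x} : Set K)).comap ψ := by
      apply Subgroup.normalClosure_le_normal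
      rw [Set.singleton_subset_iff]
      have h2 : ψ u ∈ Subgroup.normalClosure ({x} : Set K) := by
        rw [hux]
        exact Subgroup.subset_normalClosure rfl
      exact h2
    rw [hnc] at h1
    rw [eq_top_iff]
    intro y _
    obtain ⟨w, rfl⟩ := hψ y
    exact h1 (Subgroup.mem_top w)

end

end Pool.Agent.MP_1c8e06_ag.AL
end

section

set_option autoImplicit false

open scoped Classical

namespace Pool.Agent.MP_1c8e06_ag.AN

noncomputable section

/-!
# Task O1: first properties of `OP` (easy)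

Proofs (`OP` is in `AN/Defs.lean`; `Fintype K` instances from `Fintype.ofFinite`).
* `OP.equiv`: given `i : P →* K'` injective, `Nat.card P = p`; apply `h` to `i₀ := e.symm.toMonoidHom.comp i`; `AJ.re_ind i₀ e.toMonoidHom e.injective ⊤` (`AJ/A9.lean`) gives
  `RE p k (e.comp i₀) (⊤.map e)`, and `e.comp i₀ = i`, `⊤.map e = ⊤`.  Normal closure: `Subgroup.map_normalClosure` (surjective map) or by hand.
  The instance `Fintype K` is `Fintype.ofFinite`.
* `OP.of_not_dvd`: `p = Nat.card P` divides `Nat.card K` (`Nat.card P = Nat.card i.range`, `Subgroup.card_subgroup_dvd_card`, `Nat.card_congr (MonoidHom.ofInjective hi).toEquiv`).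
* `OP.of_card`: `K` has order `p`: `i` is bijective (`Nat.card P = Nat.card K`), so `i.range = ⊤`; `AJ.re_range` (`AJ/Gb2.lean`, `P` is a `p`-group: `IsPGroup.of_card`); `normalClosure ⊤ = ⊤`.
* `OP.ncl`: for `x : K` of order `p` the normal closure of `{x}` is `⊤`: apply `h` to the inclusion of `Subgroup.zpowers x`; a normal subgroup containing `x` contains `zpowers x`.
* `OP.no_center`: if `z ≠ 1` then `orderOf z = p` (`orderOf_eq_prime`), `Subgroup.zpowers z` is normal (`z` is central) and contains `z`, so it is `⊤` by `OP.ncl`, so `K` is commutative.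
* `OP.gen`: there is `x` of order `p` (`exists_prime_orderOf_dvd_card'`), all its conjugates are `p`-th roots of `1`, and they generate (`OP.ncl`; `Subgroup.normalClosure` is the closure of
  `Group.conjugatesOfSet`).
-/

theorem OP.equiv {p : ℕ} {k : Type} [Field k] {K K' : Type} [Group K] [Group K'] [Finite K]
    (e : K ≃* K') (h : OP p k K) : OP p k K' := by
  intro P _ _ _ i hi hP
  have : Fintype K := Fintype.ofFinite K
  have hi0 : Function.Injective (e.symm.toMonoidHom.comp i) := by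
    intro a b hab
    exact hi (e.symm.injective hab)
  obtain ⟨h1, h2⟩ := h P (e.symm.toMonoidHom.comp i) hi0 hP
  have hcomp : e.toMonoidHom.comp (e.symm.toMonoidHom.comp i) = i := by
    ext a
    simp
  have htop : (⊤ : Subgroup K).map e.toMonoidHom = ⊤ := by
    rw [← MonoidHom.range_eq_map]
    exact MonoidHom.range_eq_top.2 e.surjective
  constructor
  · have h3 := AJ.re_ind (e.symm.toMonoidHom.comp i) e.toMonoidHom e.injective ⊤ h1
    rw [hcomp, htop] at h3
    exact h3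
  · rw [eq_top_iff, ← htop, ← h2, Subgroup.map_le_iff_le_comap]
    have : (Subgroup.normalClosure (i.range : Set K')).Normal := Subgroup.normalClosure_normal
    apply Subgroup.normalClosure_le_normal
    rintro x ⟨a, rfl⟩
    show e (e.symm (i a)) ∈ Subgroup.normalClosure (i.range : Set K')
    rw [e.apply_symm_apply]
    exact Subgroup.subset_normalClosure ⟨a, rfl⟩

theorem OP.of_not_dvd {p : ℕ} {k : Type} [Field k] {K : Type} [Group K]
    (h : ¬ p ∣ Nat.card K) : OP p k K := by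
  intro P _ _ _ i hi hP
  exfalso
  apply h
  rw [← hP, Nat.card_congr (MonoidHom.ofInjective hi).toEquiv]
  exact Subgroup.card_subgroup_dvd_card _

theorem OP.of_card {p : ℕ} [hp : Fact p.Prime] {k : Type} [Field k] [IsAlgClosed k] [CharP k p]
    {K : Type} [Group K] (h : Nat.card K = p) : OP p k K := by
  intro P _ _ _ i hi hP
  have hr : i.range = ⊤ := by
    apply Subgroup.eq_top_of_card_eq
    rw [← Nat.card_congr (MonoidHom.ofInjective hi).toEquiv, hP, h]
  constructor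
  · rw [← hr]
    exact AJ.re_range (IsPGroup.of_card (n := 1) (by rw [hP, pow_one])) i hi
  · rw [hr, Subgroup.coe_top, eq_top_iff]
    intro x _
    exact Subgroup.subset_normalClosure (Set.mem_univ x)

theorem OP.ncl {p : ℕ} [hp : Fact p.Prime] {k : Type} [Field k] {K : Type} [Group K] [Finite K]
    (h : OP p k K) (x : K) (hx : orderOf x = p) : Subgroup.normalClosure ({x} : Set K) = ⊤ := by
  have : Fintype K := Fintype.ofFinite K
  have : Fintype (Subgroup.zpowers x) := Fintype.ofFinite _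
  have h2 := (h (Subgroup.zpowers x) (Subgroup.zpowers x).subtype
    (Subgroup.subtype_injective _) (by rw [Nat.card_zpowers, hx])).2
  rw [eq_top_iff, ← h2, Subgroup.range_subtype]
  have : (Subgroup.normalClosure ({x} : Set K)).Normal := Subgroup.normalClosure_normal
  apply Subgroup.normalClosure_le_normal
  have h3 : Subgroup.zpowers x ≤ Subgroup.normalClosure ({x} : Set K) := by
    rw [Subgroup.zpowers_le]
    exact Subgroup.subset_normalClosure (Set.mem_singleton x)
  exact h3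

theorem OP.no_center {p : ℕ} [hp : Fact p.Prime] {k : Type} [Field k] {K : Type} [Group K]
    [Finite K] (h : OP p k K) (hna : ∃ x y : K, x * y ≠ y * x) (z : K) (hz : z ^ p = 1)
    (hc : ∀ x, x * z = z * x) : z = 1 := by
  by_contra hz1
  have ho : orderOf z = p := orderOf_eq_prime hz hz1
  have h1 := OP.ncl h z ho
  have hn : (Subgroup.zpowers z).Normal := by
    constructor
    rintro n hn g
    have hcn : g * n = n * g := by
      obtain ⟨m, rfl⟩ := Subgroup.mem_zpowers_iff.1 hn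
      have hcg : Commute g z := hc g
      exact (hcg.zpow_right m)
    rw [hcn, mul_assoc, mul_inv_cancel, mul_one]
    exact hn
  have h2 : Subgroup.zpowers z = ⊤ := by
    rw [eq_top_iff, ← h1]
    apply Subgroup.normalClosure_le_normal
    intro y hy
    rw [Set.mem_singleton_iff] at hy
    rw [hy]
    exact Subgroup.mem_zpowers z
  obtain ⟨x, y, hxy⟩ := hna
  apply hxy
  have hx : x ∈ Subgroup.zpowers z := by rw [h2]; exact Subgroup.mem_top x
  obtain ⟨m, rfl⟩ := Subgroup.mem_zpowers_iff.1 hx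
  have hcy : Commute y z := hc y
  exact (hcy.zpow_right m).symm

theorem OP.gen {p : ℕ} [hp : Fact p.Prime] {k : Type} [Field k] {K : Type} [Group K] [Finite K]
    (h : OP p k K) (hd : p ∣ Nat.card K) : Subgroup.closure {x : K | x ^ p = 1} = ⊤ := by
  obtain ⟨x, hx⟩ := exists_prime_orderOf_dvd_card' p hd
  rw [eq_top_iff, ← OP.ncl h x hx, Subgroup.normalClosure, Subgroup.closure_le]
  intro y hy
  apply Subgroup.subset_closure
  rw [Group.mem_conjugatesOfSet_iff] at hy
  obtain ⟨a, ha, hy⟩ := hy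
  rw [Set.mem_singleton_iff] at ha
  subst ha
  obtain ⟨c, rfl⟩ := isConj_iff.1 hy
  show (c * a * c⁻¹) ^ p = 1
  rw [conj_pow, ← hx, pow_orderOf_eq_one, mul_one, mul_inv_cancel]

end

end Pool.Agent.MP_1c8e06_ag.AN
end

section

set_option autoImplicit false

open scoped Classical

namespace Pool.Agent.MP_1c8e06_ag.AN

noncomputable section

/-!
# Task L2: a factor which is a `p`-group

Proof.  `G₁ := L ⊔ V` (a subgroup of `K`).  `V` is normal in `G₁` (`L` and `V` commute), `V₁ := V.subgroupOf G₁`, `Qm := QuotientGroup.mk' V₁ : G₁ →* G₁ ⧸ V₁`, its kernel `V₁` is a `p`-group.  `θ : L →* G₁ ⧸ V₁`,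
`θ := Qm.comp (Subgroup.inclusion le_sup_left)`: injective by `hdisj`, surjective (every element of `L ⊔ V` is `x * y`, `x ∈ L`, `y ∈ V`: `L` and `V` commute; `Subgroup.mem_sup_of_normal_left`.. or `Subgroup.closure_induction`).
`i'' := θ.comp i'`: injective; `AJ.re_ind i' θ _ ⊤ h` (`AJ/A9.lean`) gives `RE p k i'' (⊤.map θ)`, and `⊤.map θ = ⊤`.  `normalClosure i''.range = ⊤` from `hncl` (`Subgroup.map_normalClosure`, `θ` surjective; or by hand).
`i u ∈ G₁` (`hiv`), `i₁ := i.codRestrict G₁ _ : P →* G₁`, injective; `i'' (q u) = Qm (i₁ u)` by `hiv` (the factor `v ∈ V` is killed).  `AL.exists_re_sub hP i₁ _ Qm _ _ q hq i'' _ _ _ _` (`AL/PKS.lean`): `H₁ : Subgroup G₁`, `i₁ u ∈ H₁`,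
`RE p k i₁ H₁`, `H₁.map Qm = ⊤`.  `H' := H₁.map G₁.subtype`: `AJ.re_ind i₁ G₁.subtype _ H₁` gives `RE p k (G₁.subtype.comp i₁) H'` and `G₁.subtype.comp i₁ = i`.  `L ≤ H' ⊔ V`: for `x ∈ L` there is `h ∈ H₁` with `Qm h = Qm x`, so
`h⁻¹ * x ∈ V`.
-/

private theorem L2_mul {K : Type} [Group K] (L V : Subgroup K)
    (hcomm : ∀ x ∈ L, ∀ y ∈ V, x * y = y * x) (x : K) (hx : x ∈ L ⊔ V) :
    ∃ a ∈ L, ∃ b ∈ V, x = a * b := by
  let S : Subgroup K :=
    { carrier := {x | ∃ a ∈ L, ∃ b ∈ V, x = a * b}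
      mul_mem' := by
        rintro _ _ ⟨a, ha, b, hb, rfl⟩ ⟨a', ha', b', hb', rfl⟩
        refine ⟨a * a', L.mul_mem ha ha', b * b', V.mul_mem hb hb', ?_⟩
        have h := hcomm a' ha' b hb
        calc a * b * (a' * b') = a * (b * a') * b' := by group
          _ = a * (a' * b) * b' := by rw [h]
          _ = a * a' * (b * b') := by group
      one_mem' := ⟨1, L.one_mem, 1, V.one_mem, by simp⟩
      inv_mem' := by
        rintro _ ⟨a, ha, b, hb, rfl⟩
        refine ⟨a⁻¹, L.inv_mem ha, b⁻¹, V.inv_mem hb, ?_⟩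
        rw [mul_inv_rev, hcomm a⁻¹ (L.inv_mem ha) b⁻¹ (V.inv_mem hb)] }
  have h1 : L ⊔ V ≤ S :=
    sup_le (fun y hy => ⟨y, hy, 1, V.one_mem, by simp⟩) (fun y hy => ⟨1, L.one_mem, y, hy, by simp⟩)
  exact h1 hx

theorem central_factor {p : ℕ} [hp : Fact p.Prime] {k : Type} [Field k] [IsAlgClosed k]
    [CharP k p] {P P' K : Type} [Group P] [Fintype P] [Group P'] [Fintype P'] [Group K]
    [Fintype K] (hP : IsPGroup p P) (i : P →* K) (hi : Function.Injective i) (L V : Subgroup K)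
    (hcomm : ∀ x ∈ L, ∀ y ∈ V, x * y = y * x) (hV : IsPGroup p V)
    (hdisj : ∀ x ∈ L, x ∈ V → x = 1) (q : P →* P') (hq : Function.Surjective q) (i' : P' →* L)
    (hi' : Function.Injective i') (hiv : ∀ u, ∃ v ∈ V, i u = (i' (q u) : K) * v)
    (hncl : Subgroup.normalClosure (i'.range : Set L) = ⊤) (h : AJ.RE p k i' ⊤) :
    ∃ H' : Subgroup K, (∀ u, i u ∈ H') ∧ AJ.RE p k i H' ∧ L ≤ H' ⊔ V := by
  have hL : L ≤ L ⊔ V := le_sup_left
  have hVle : V ≤ L ⊔ V := le_sup_right
  have hnorm : (V.subgroupOf (L ⊔ V)).Normal := by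
    refine ⟨fun n hn g => ?_⟩
    rw [Subgroup.mem_subgroupOf] at hn ⊢
    obtain ⟨a, ha, b, hb, hg⟩ := L2_mul L V hcomm g g.2
    have h1 : b * (n : K) * b⁻¹ ∈ V := V.mul_mem (V.mul_mem hb hn) (V.inv_mem hb)
    have h2 := hcomm a ha _ h1
    have h3 : ((g * n * g⁻¹ : (L ⊔ V : Subgroup K)) : K) = b * (n : K) * b⁻¹ := by
      rw [Subgroup.coe_mul, Subgroup.coe_mul, Subgroup.coe_inv, hg]
      calc a * b * (n : K) * (a * b)⁻¹ = a * (b * (n : K) * b⁻¹) * a⁻¹ := by group
        _ = b * (n : K) * b⁻¹ * a * a⁻¹ := by rw [h2]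
        _ = b * (n : K) * b⁻¹ := by group
    rw [h3]
    exact h1
  let Qm : (L ⊔ V : Subgroup K) →* (L ⊔ V : Subgroup K) ⧸ V.subgroupOf (L ⊔ V) :=
    QuotientGroup.mk' (V.subgroupOf (L ⊔ V))
  have hQm : Function.Surjective Qm := QuotientGroup.mk'_surjective _
  have hQk : ∀ x : (L ⊔ V : Subgroup K), Qm x = 1 ↔ (x : K) ∈ V := by
    intro x
    rw [← Subgroup.mem_subgroupOf]
    exact QuotientGroup.eq_one_iff x
  have hker : IsPGroup p Qm.ker := by
    refine hV.of_injective ((((L ⊔ V : Subgroup K).subtype.comp Qm.ker.subtype)).codRestrict V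
      (fun x => (hQk x.1).1 x.2)) ?_
    intro a b hab
    have hab' : ((a : (L ⊔ V : Subgroup K)) : K) = ((b : (L ⊔ V : Subgroup K)) : K) :=
      congrArg (fun x : V => (x : K)) hab
    exact Subtype.ext (Subtype.ext hab')
  let θ : L →* (L ⊔ V : Subgroup K) ⧸ V.subgroupOf (L ⊔ V) := Qm.comp (Subgroup.inclusion hL)
  have hθi : Function.Injective θ := by
    rw [injective_iff_map_eq_one]
    intro x hx
    have h1 : ((Subgroup.inclusion hL x : (L ⊔ V : Subgroup K)) : K) ∈ V := (hQk _).1 hx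
    exact Subtype.ext (hdisj x x.2 h1)
  have hθs : Function.Surjective θ := by
    intro y
    obtain ⟨g, rfl⟩ := hQm y
    obtain ⟨a, ha, b, hb, hg⟩ := L2_mul L V hcomm g g.2
    refine ⟨⟨a, ha⟩, ?_⟩
    have h1 : g = Subgroup.inclusion hL ⟨a, ha⟩ * Subgroup.inclusion hVle ⟨b, hb⟩ :=
      Subtype.ext hg
    have h2 : Qm (Subgroup.inclusion hVle ⟨b, hb⟩) = 1 := (hQk _).2 hb
    rw [h1, map_mul, h2, mul_one]
    rfl
  have htop : (⊤ : Subgroup L).map θ = ⊤ := by
    rw [← MonoidHom.range_eq_map, MonoidHom.range_eq_top.2 hθs]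
  have hre : AJ.RE p k (θ.comp i') ⊤ := by
    have h1 := AJ.re_ind i' θ hθi ⊤ h
    rwa [htop] at h1
  have hncl' : Subgroup.normalClosure ((θ.comp i').range : Set
      ((L ⊔ V : Subgroup K) ⧸ V.subgroupOf (L ⊔ V))) = ⊤ := by
    have h1 := Subgroup.map_normalClosure (i'.range : Set L) θ hθs
    rw [hncl, htop] at h1
    rw [h1, MonoidHom.range_comp]
    rfl
  have hiG : ∀ u, i u ∈ L ⊔ V := by
    intro u
    obtain ⟨v, hv, hu⟩ := hiv u
    rw [hu]
    exact (L ⊔ V).mul_mem (hL (i' (q u)).2) (hVle hv)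
  have hi₁ : Function.Injective (i.codRestrict (L ⊔ V) hiG) := by
    intro a b hab
    exact hi (congrArg Subtype.val hab)
  have hc : ∀ u, (θ.comp i') (q u) = Qm (i.codRestrict (L ⊔ V) hiG u) := by
    intro u
    obtain ⟨v, hv, hu⟩ := hiv u
    have h1 : i.codRestrict (L ⊔ V) hiG u =
        Subgroup.inclusion hL (i' (q u)) * Subgroup.inclusion hVle ⟨v, hv⟩ := Subtype.ext hu
    have h2 : Qm (Subgroup.inclusion hVle ⟨v, hv⟩) = 1 := (hQk _).2 hv
    rw [h1, map_mul, h2, mul_one]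
    rfl
  obtain ⟨H₁, hH₁, hRE, hmap⟩ := AL.exists_re_sub hP (i.codRestrict (L ⊔ V) hiG) hi₁ Qm hQm hker q
    hq (θ.comp i') (hθi.comp hi') hc hncl' hre
  refine ⟨H₁.map (L ⊔ V).subtype, ?_, ?_, ?_⟩
  · intro u
    exact ⟨i.codRestrict (L ⊔ V) hiG u, hH₁ u, rfl⟩
  · have h1 := AJ.re_ind (i.codRestrict (L ⊔ V) hiG) (L ⊔ V).subtype
      (Subgroup.subtype_injective _) H₁ hRE
    have h2 : (L ⊔ V).subtype.comp (i.codRestrict (L ⊔ V) hiG) = i := by
      ext u
      rfl
    rwa [h2] at h1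
  · intro x hx
    have h1 : Qm (Subgroup.inclusion hL ⟨x, hx⟩) ∈ H₁.map Qm := by
      rw [hmap]
      exact Subgroup.mem_top _
    obtain ⟨g, hg, hgx⟩ := h1
    have h2 : Qm (g⁻¹ * Subgroup.inclusion hL ⟨x, hx⟩) = 1 := by
      rw [map_mul, map_inv, hgx, inv_mul_cancel]
    have h3 : (g : K)⁻¹ * x ∈ V := (hQk _).1 h2
    have h4 : x = (g : K) * ((g : K)⁻¹ * x) := by group
    rw [h4]
    exact Subgroup.mul_mem _ (le_sup_left (α := Subgroup K) ⟨g, hg, rfl⟩)
      (le_sup_right (α := Subgroup K) h3)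

end

end Pool.Agent.MP_1c8e06_ag.AN
end
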