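import Pool.Agent.Lib.MP_1c8e06_ag.Mg.G071
import Pool.Agent.Lib.MP_1c8e06_ag.Mg.G084
import Pool.Agent.Lib.MP_1c8e06_ag.Mg.G083
import Pool.Agent.Lib.MP_1c8e06_ag.AM.R1
import Pool.Agent.Lib.MP_1c8e06_ag.Mg.G082
import Pool.Agent.Lib.MP_1c8e06_ag.Mg.G072
import Pool.Agent.Lib.MP_1c8e06_ag.Mg.G076
import Pool.Agent.Lib.MP_1c8e06_ag.Mg.G073

section

set_option autoImplicit false

open scoped Classical

namespace Pool.Agent.MP_1c8e06_ag.AN

noncomputable section

/-!
# Task D5: groups of Lie type (assembly)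

Proof.  `J := {s // s ∈ b.support}`, `M s := Mb b X s`, `N s := Nb b X s`.  `Par p K (posU b X) M N`: `sylow`, `simple` from `h`; `Nb ≤ posU ≤ Mb` clear; `normal`: `Nb_normal` (D3); `closed`: `closed_roots` (D4);
`gen`: let `T := ⨆ s, Mb b X s`; by `h.gen` it is enough that `X i ≤ T` for all `i`; `b.induction_reflect i` with the predicate `X i ≤ T ∧ X (Φ.reflectionPerm i i) ≤ T`: first hypothesis: `Φ.reflectionPerm i i` is the index of `- root i`, applying it
twice gives `i` (compare roots, `Φ.root.injective`); simple `i`: `X i ≤ posU b X ≤ Mb b X i`, `X (-i) ≤ Mb b X i`; third: for `j ∈ b.support`, `w := φ (wF F) ∈ T` (`φ` from `h.levi j`, `φ.range ≤ Mb b X j` by `Mb_eq`), and for `y ∈ X (s_j i)`: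
`w * y * w⁻¹ ∈ X (s_j (s_j i)) = X i ≤ T`, so `y ∈ T`; the same for `-i` (`s_j (-i) = -(s_j i)`: compare roots).
Now `par_op` (P2) with `H s := Mb b X s ⧸ (Nb b X s).subgroupOf (Mb b X s)` (normal by `Nb_normal`), `f s := QuotientGroup.mk' _`; `OP p k (H s)` by `op_sl2` (O2) with `ψ := (QuotientGroup.mk' _).comp (φ.codRestrict (Mb b X s) _)`, surjective because
`Mb b X s = Nb b X s ⊔ φ.range` (`Mb_eq`; every element of `Nb ⊔ range φ` is `n * φ g`, as `Nb` is normalised: `Subgroup.mul_normal`/`Subgroup.sup_eq_closure_mul`... or: the range of `ψ` pulled back to `Mb` contains `Nb` and `φ.range`).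
-/

theorem lie_op {ι R M N : Type} [Finite ι] [CommRing R] [IsDomain R] [CharZero R]
    [AddCommGroup M] [Module R M] [AddCommGroup N] [Module R N] (Φ : RootPairing ι R M N)
    [Φ.IsCrystallographic] [Φ.IsReduced] (b : Φ.Base) {p : ℕ} [hp : Fact p.Prime] {k : Type}
    [Field k] [IsAlgClosed k] [CharP k p] {K : Type} [Group K] [Finite K] (X : ι → Subgroup K)
    (h : RootGroups p Φ b K X) : OP p k K := by
  have hneg : ∀ i, Φ.root (Φ.reflectionPerm i i) = -Φ.root i := fun i => by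
    rw [Φ.root_reflectionPerm, Φ.reflection_apply_self]
  have hX : ∀ i, b.IsPos i → X i ≤ posU b X := fun i hi =>
    le_iSup (fun i : {i // b.IsPos i} => X i) ⟨i, hi⟩
  have hU : ∀ s, posU b X ≤ Mb b X s := fun s => le_sup_left
  have hXn : ∀ s, X (Φ.reflectionPerm s s) ≤ Mb b X s := fun s => le_sup_right
  have hNU : ∀ s, Nb b X s ≤ posU b X := fun s => iSup_le fun i => hX i.1 i.2.1
  obtain ⟨T, hT⟩ : ∃ T : Subgroup K, T = ⨆ s : {s // s ∈ b.support}, Mb b X s := ⟨_, rfl⟩
  have hMT : ∀ s, s ∈ b.support → Mb b X s ≤ T := fun s hs => by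
    rw [hT]
    exact le_iSup (fun s : {s // s ∈ b.support} => Mb b X s) ⟨s, hs⟩
  have key : ∀ i, X i ≤ T ∧ X (Φ.reflectionPerm i i) ≤ T := by
    intro i
    refine b.induction_reflect i (p := fun i => X i ≤ T ∧ X (Φ.reflectionPerm i i) ≤ T) ?_ ?_ ?_
    · rintro i ⟨h1, h2⟩
      have h3 : Φ.reflectionPerm (Φ.reflectionPerm i i) (Φ.reflectionPerm i i) = i := by
        apply Φ.root.injective
        rw [hneg, hneg, neg_neg]
      exact ⟨h2, by rw [h3]; exact h1⟩
    · intro i hi
      exact ⟨(hX i (RootPairing.Base.isPos_of_mem_support hi)).trans ((hU i).trans (hMT i hi)),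
        (hXn i).trans (hMT i hi)⟩
    · rintro i j ⟨h1, h2⟩ hj
      obtain ⟨F, iF, iFin, iC, φ, e1, e2, e3⟩ := h.levi j hj
      have hw : φ (wF F) ∈ T := by
        refine hMT j hj ?_
        rw [Mb_eq Φ b X j hj F φ e1 e2]
        exact Subgroup.mem_sup_right ⟨wF F, rfl⟩
      have hconj : ∀ l, X l ≤ T → X (Φ.reflectionPerm j l) ≤ T := by
        intro l hl y hy
        have h4 := e3 (Φ.reflectionPerm j l) y hy
        rw [Φ.reflectionPerm_self] at h4
        have h5 := hl h4
        have h6 : y = (φ (wF F))⁻¹ * (φ (wF F) * y * (φ (wF F))⁻¹) * φ (wF F) := by group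
        rw [h6]
        exact T.mul_mem (T.mul_mem (T.inv_mem hw) h5) hw
      refine ⟨hconj i h1, ?_⟩
      have h7 : Φ.reflectionPerm (Φ.reflectionPerm j i) (Φ.reflectionPerm j i) =
          Φ.reflectionPerm j (Φ.reflectionPerm i i) := by
        apply Φ.root.injective
        rw [hneg, Φ.root_reflectionPerm, Φ.root_reflectionPerm, hneg, map_neg]
      rw [h7]
      exact hconj _ h2
  have hpar : Par p K (posU b X) (fun s : {s // s ∈ b.support} => Mb b X s)
      (fun s => Nb b X s) := by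
    refine ⟨h.sylow, fun s => hNU s, fun s => hU s, fun s => Nb_normal Φ b X h s s.2, ?_, ?_,
      h.simple⟩
    · rw [← hT, eq_top_iff, ← h.gen]
      exact iSup_le fun i => (key i).1
    · intro A hA _ hcen hcl
      exact closed_roots Φ b X h A hA hcen (fun s hs => hcl ⟨s, hs⟩)
  have hnorm : ∀ s : {s // s ∈ b.support}, ((Nb b X s).subgroupOf (Mb b X s)).Normal := by
    intro s
    refine ⟨fun n hn g => ?_⟩
    rw [Subgroup.mem_subgroupOf] at hn ⊢
    exact Nb_normal Φ b X h s s.2 g g.2 n hn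
  refine par_op (posU b X) (fun s : {s // s ∈ b.support} => Mb b X s) (fun s => Nb b X s) hpar
    (fun s => Mb b X s ⧸ (Nb b X s).subgroupOf (Mb b X s))
    (fun s => @QuotientGroup.Quotient.group _ _ _ (hnorm s))
    (fun s => @QuotientGroup.mk' _ _ _ (hnorm s)) ?_ ?_ ?_
  · intro s
    exact @QuotientGroup.mk'_surjective _ _ _ (hnorm s)
  · intro s m
    have := hnorm s
    exact (QuotientGroup.eq_one_iff m).trans Subgroup.mem_subgroupOf
  · intro s
    have := hnorm s
    obtain ⟨F, iF, iFin, iC, φ, e1, e2, e3⟩ := h.levi s s.2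
    have hM := Mb_eq Φ b X s s.2 F φ e1 e2
    have hφ : ∀ g, φ g ∈ Mb b X s := fun g => by
      rw [hM]
      exact Subgroup.mem_sup_right ⟨g, rfl⟩
    obtain ⟨ψ, hψ⟩ : ∃ ψ : Matrix.SpecialLinearGroup (Fin 2) F →*
        Mb b X s ⧸ (Nb b X s).subgroupOf (Mb b X s),
        ψ = (QuotientGroup.mk' ((Nb b X s).subgroupOf (Mb b X s))).comp
          (φ.codRestrict (Mb b X s) hφ) := ⟨_, rfl⟩
    have hle : Nb b X s ⊔ φ.range ≤ (ψ.range.comap
        (QuotientGroup.mk' ((Nb b X s).subgroupOf (Mb b X s)))).map (Mb b X s).subtype := by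
      refine sup_le (fun n hn => ?_) ?_
      · refine ⟨⟨n, hU s (hNU s hn)⟩, ?_, rfl⟩
        show QuotientGroup.mk' ((Nb b X s).subgroupOf (Mb b X s)) ⟨n, hU s (hNU s hn)⟩ ∈ ψ.range
        have h1 : QuotientGroup.mk' ((Nb b X s).subgroupOf (Mb b X s))
            ⟨n, hU s (hNU s hn)⟩ = 1 :=
          (QuotientGroup.eq_one_iff _).mpr (Subgroup.mem_subgroupOf.mpr hn)
        rw [h1]
        exact ψ.range.one_mem
      · rintro _ ⟨g, rfl⟩
        refine ⟨⟨φ g, hφ g⟩, ⟨g, ?_⟩, rfl⟩
        rw [hψ]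
        rfl
    refine op_sl2 F ψ ?_
    intro q
    obtain ⟨⟨m, hm⟩, rfl⟩ := QuotientGroup.mk'_surjective _ q
    have hm' : m ∈ Nb b X s ⊔ φ.range := by
      rw [← hM]
      exact hm
    obtain ⟨⟨m', hm2⟩, ⟨g, hg⟩, hmm⟩ := hle hm'
    have hmm' : m' = m := hmm
    subst hmm'
    exact ⟨g, hg⟩

end

end Pool.Agent.MP_1c8e06_ag.AN
end

section

set_option autoImplicit false

open scoped Classical

namespace Pool.Agent.MP_1c8e06_ag.AN

noncomputable section

/-!
# Task L4: the subgroup generated is everything (group theory)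

`E a y := ψ (Pi.mulSingle a y)`.  `hncl'` : for `a` with `z₀ a ≠ 1` the conjugates of `z₀ a` generate `Q a`.
Proof.  Let `Mc := normalClosure {ψ z₀} ≤ W`.
(1) for `z₀ a ≠ 1` and `y, y' : Q a`: `E a (y * y' * y⁻¹ * y'⁻¹) ∈ Mc`.  `Na : Subgroup (Q a)` := `Mc.comap (E a)`, normal.  `y * z₀ a * y⁻¹ * (z₀ a)⁻¹ ∈ Na` since `E a` of it is `ψ (mulSingle a y * z₀ * (mulSingle a y)⁻¹ * z₀⁻¹)
= (E a y * ψ z₀ * (E a y)⁻¹) * (ψ z₀)⁻¹ ∈ Mc`.  `Ta := Na ⊔ Subgroup.zpowers (z₀ a)` is normal (`y * (z₀ a) ^ n * y⁻¹ ∈ Na * (z₀ a) ^ n`: the image of `z₀ a` in `Q a ⧸ Na` is central) and contains `z₀ a`, so `Ta = ⊤` (`hncl'`); so `Q a ⧸ Na` is generated by one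
element, commutative, and the commutators are in `Na`.
(2) `W` is normalised by all `E a y` with `z₀ a ≠ 1`: for `w = ψ ω ∈ W` (`ψ` surjective): `E a y * w * (E a y)⁻¹ * w⁻¹ = E a (y * ω a * y⁻¹ * (ω a)⁻¹) ∈ Mc ≤ W`.
(3) let `KI := Subgroup.closure {E a y | z₀ a ≠ 1}`; every `E a y` is in `W ⊔ KI` (`hW` if `z₀ a = 1`), so `W ⊔ KI = ⊤` (`ψ` surjective, `Subgroup.pi_mem_of_mulSingle_mem` for the preimage).  The normaliser of `W` contains `W` and `KI`: `W` is normal.  It contains
`S`, so by `hS` it is `⊤`.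
-/

theorem join_top {A : Type} [Fintype A] (Q : A → Type) [∀ a, Group (Q a)] {K : Type} [Group K]
    (ψ : (∀ a, Q a) →* K) (hψ : Function.Surjective ψ) (z₀ : ∀ a, Q a)
    (hncl' : ∀ a, z₀ a ≠ 1 → Subgroup.normalClosure ({z₀ a} : Set (Q a)) = ⊤) (W : Subgroup K)
    (hM : Subgroup.normalClosure ({ψ z₀} : Set K) ≤ W)
    (hW : ∀ a, z₀ a = 1 → ∀ y : Q a, ψ (Pi.mulSingle a y) ∈
      W ⊔ Subgroup.closure {t | ∃ b, z₀ b ≠ 1 ∧ ∃ y : Q b, t = ψ (Pi.mulSingle b y)})
    (S : Set K) (hSW : S ⊆ W) (hS : Subgroup.normalClosure S = ⊤) : W = ⊤ := by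
  -- (1)
  have h1 : ∀ a, z₀ a ≠ 1 → ∀ y y' : Q a, ψ (Pi.mulSingle a (y * y' * y⁻¹ * y'⁻¹)) ∈
      Subgroup.normalClosure ({ψ z₀} : Set K) := by
    intro a ha
    let Na : Subgroup (Q a) :=
      (Subgroup.normalClosure ({ψ z₀} : Set K)).comap (ψ.comp (MonoidHom.mulSingle Q a))
    have : Na.Normal := Subgroup.Normal.comap inferInstance _
    have hmem : ∀ x : Q a, x ∈ Na ↔
        ψ (Pi.mulSingle a x) ∈ Subgroup.normalClosure ({ψ z₀} : Set K) := by
      intro x; exact Iff.rfl
    have hz : ∀ y : Q a, y * z₀ a * y⁻¹ * (z₀ a)⁻¹ ∈ Na := by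
      intro y
      rw [hmem]
      have e : (Pi.mulSingle a (y * z₀ a * y⁻¹ * (z₀ a)⁻¹) : ∀ a, Q a)
          = Pi.mulSingle a y * z₀ * (Pi.mulSingle a y)⁻¹ * z₀⁻¹ := by
        funext b
        by_cases hb : b = a
        · subst hb
          simp
        · simp [Pi.mulSingle_eq_of_ne hb]
      rw [e, map_mul, map_mul, map_mul, map_inv, map_inv]
      have hN : (Subgroup.normalClosure ({ψ z₀} : Set K)).Normal := inferInstance
      have hin : ψ z₀ ∈ Subgroup.normalClosure ({ψ z₀} : Set K) :=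
        Subgroup.subset_normalClosure rfl
      exact Subgroup.mul_mem _ (hN.conj_mem _ hin _) (Subgroup.inv_mem _ hin)
    let C : Subgroup (Q a) := (Subgroup.center (Q a ⧸ Na)).comap (QuotientGroup.mk' Na)
    have hC : C = ⊤ := by
      have hle : Subgroup.normalClosure ({z₀ a} : Set (Q a)) ≤ C := by
        have : C.Normal := Subgroup.Normal.comap inferInstance _
        apply Subgroup.normalClosure_le_normal
        intro x hx
        rw [Set.mem_singleton_iff] at hx
        subst hx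
        change QuotientGroup.mk' Na (z₀ a) ∈ Subgroup.center (Q a ⧸ Na)
        rw [Subgroup.mem_center_iff]
        intro g
        obtain ⟨y, rfl⟩ := QuotientGroup.mk'_surjective Na g
        rw [← map_mul, ← map_mul]
        have := hz y
        rw [← QuotientGroup.eq_one_iff] at this
        have h2 : QuotientGroup.mk' Na (y * z₀ a * y⁻¹ * (z₀ a)⁻¹) = 1 := this
        rw [map_mul, map_mul, map_mul, map_inv, map_inv] at h2
        rw [map_mul, map_mul]
        have h3 := mul_inv_eq_one.mp h2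
        exact (mul_inv_eq_iff_eq_mul.mp h3)
      rw [hncl' a ha] at hle
      exact top_le_iff.mp hle
    intro y y'
    rw [← hmem]
    have hy : y ∈ C := by rw [hC]; trivial
    have hy2 : QuotientGroup.mk' Na y ∈ Subgroup.center (Q a ⧸ Na) := hy
    rw [Subgroup.mem_center_iff] at hy2
    have h4 := hy2 (QuotientGroup.mk' Na y')
    rw [← QuotientGroup.eq_one_iff]
    change QuotientGroup.mk' Na (y * y' * y⁻¹ * y'⁻¹) = 1
    rw [map_mul, map_mul, map_mul, map_inv, map_inv, ← h4]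
    group
  -- (2)
  have h2 : ∀ a, z₀ a ≠ 1 → ∀ y : Q a, ∀ w ∈ W,
      ψ (Pi.mulSingle a y) * w * (ψ (Pi.mulSingle a y))⁻¹ ∈ W := by
    intro a ha y w hw
    obtain ⟨ω, rfl⟩ := hψ w
    have e : (Pi.mulSingle a (y * ω a * y⁻¹ * (ω a)⁻¹) : ∀ a, Q a)
        = Pi.mulSingle a y * ω * (Pi.mulSingle a y)⁻¹ * ω⁻¹ := by
      funext b
      by_cases hb : b = a
      · subst hb
        simp
      · simp [Pi.mulSingle_eq_of_ne hb]
    have h3 := hM (h1 a ha y (ω a))
    rw [e, map_mul, map_mul, map_mul, map_inv, map_inv] at h3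
    have h4 := W.mul_mem h3 hw
    simpa using h4
  have h3 : ∀ a, z₀ a ≠ 1 → ∀ y : Q a, ψ (Pi.mulSingle a y) ∈ Subgroup.normalizer (W : Set K) := by
    intro a ha y
    rw [Subgroup.mem_normalizer_iff]
    intro h
    constructor
    · exact h2 a ha y h
    · intro hh
      have h4 := h2 a ha y⁻¹ _ hh
      rw [Pi.mulSingle_inv, map_inv] at h4
      simpa [mul_assoc] using h4
  -- (3)
  have hKI : Subgroup.closure {t | ∃ b, z₀ b ≠ 1 ∧ ∃ y : Q b, t = ψ (Pi.mulSingle b y)}
      ≤ Subgroup.normalizer (W : Set K) := by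
    rw [Subgroup.closure_le]
    rintro t ⟨b, hb, y, rfl⟩
    exact h3 b hb y
  have htop : W ⊔ Subgroup.closure
      {t | ∃ b, z₀ b ≠ 1 ∧ ∃ y : Q b, t = ψ (Pi.mulSingle b y)} = ⊤ := by
    rw [eq_top_iff]
    intro k _
    obtain ⟨ω, rfl⟩ := hψ k
    have : ω ∈ (W ⊔ Subgroup.closure
      {t | ∃ b, z₀ b ≠ 1 ∧ ∃ y : Q b, t = ψ (Pi.mulSingle b y)}).comap ψ := by
      apply Subgroup.pi_mem_of_mulSingle_mem
      intro a
      rw [Subgroup.mem_comap]
      by_cases ha : z₀ a = 1
      · exact hW a ha _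
      · exact (le_sup_right : _ ≤ W ⊔ Subgroup.closure
          {t | ∃ b, z₀ b ≠ 1 ∧ ∃ y : Q b, t = ψ (Pi.mulSingle b y)})
          (Subgroup.subset_closure ⟨a, ha, _, rfl⟩)
    exact this
  have hnorm : Subgroup.normalizer (W : Set K) = ⊤ := by
    rw [eq_top_iff, ← htop]
    exact sup_le Subgroup.le_normalizer hKI
  have : W.Normal := Subgroup.normalizer_eq_top_iff.mp hnorm
  rw [eq_top_iff, ← hS]
  exact Subgroup.normalClosure_le_normal hSW

end

end Pool.Agent.MP_1c8e06_ag.AN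
end

section

set_option autoImplicit false

open Polynomial Equiv
open scoped Classical

namespace Pool.Agent.MP_1c8e06_ag.AM

open Pool.Agent.MP_1c8e06_ag.AJ

noncomputable section

/-!
# Task R5: alternating groups, inertia groups of order `p` (assembly)

Proof.  `P` of order `p`: a generator `u₀` (`orderOf u₀ = p`, every `u` is a power).  `exists_max`: `M`.  `σ := (i u₀ : Perm Ω)`,
`σ^p = 1`, `σ ≠ 1`.  `comb` (`AM/K4.lean`) for `M.map (alternatingGroup Ω).subtype` with `U_mem` and `W_mem5` (`5 ≤ p`) or `W_mem3`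
(`p = 3`; `subst`): `alternatingGroup Ω ≤ M.map subtype`, so `M = ⊤`.
-/

theorem alt_order_p {p : ℕ} [hp : Fact p.Prime] (hp2 : p ≠ 2) {k : Type} [Field k]
    [IsAlgClosed k] [CharP k p] (hb : 5 ≤ p → BaseSL p k) {Ω : Type} [Fintype Ω] [DecidableEq Ω]
    (hn : p + 2 ≤ Fintype.card Ω) {P : Type} [Group P] [Fintype P] (hcard : Nat.card P = p)
    (i : P →* alternatingGroup Ω) (hi : Function.Injective i) : RE p k i ⊤ := by
  classical
  obtain ⟨u₀, hu, hgen⟩ : ∃ u₀ : P, orderOf u₀ = p ∧ ∀ u : P, ∃ n : ℕ, u = u₀ ^ n := by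
    have : IsCyclic P := isCyclic_of_prime_card hcard
    obtain ⟨g, hg⟩ := IsCyclic.exists_generator (α := P)
    refine ⟨g, ?_, fun u => ?_⟩
    · rw [orderOf_eq_card_of_forall_mem_zpowers hg, hcard]
    · obtain ⟨n, hn⟩ := (mem_powers_iff_mem_zpowers (x := g)).2 (hg u)
      exact ⟨n, hn.symm⟩
  obtain ⟨M, hM, hmax⟩ := exists_max (p := p) (k := k) i hi hcard
  set σ : Perm Ω := (i u₀ : Perm Ω) with hσdef
  have hp0 : p ≠ 0 := hp.out.ne_zero
  have hσp : σ ^ p = 1 := by
    have h1 : u₀ ^ p = 1 := by rw [← hu]; exact pow_orderOf_eq_one u₀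
    have h2 : (i u₀) ^ p = 1 := by rw [← map_pow, h1, map_one]
    have h3 : ((i u₀ ^ p : alternatingGroup Ω) : Perm Ω) = ((1 : alternatingGroup Ω) : Perm Ω) := by
      rw [h2]
    simpa using h3
  have hσ1 : σ ≠ 1 := by
    intro h
    have h2 : i u₀ = 1 := Subtype.ext h
    have h3 : u₀ = 1 := hi (by rw [h2, map_one])
    rw [h3, orderOf_one] at hu
    exact hp.out.one_lt.ne hu
  have hle : alternatingGroup Ω ≤ M.map (alternatingGroup Ω).subtype := by
    refine comb hp2 hn σ hσp hσ1 _ ?_ ?_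
    · intro y x₀ hy hx
      have h3 : 3 ≤ p := by
        have := hp.out.two_le
        omega
      rcases eq_or_lt_of_le h3 with h | h
      · subst h
        exact W_mem3 u₀ hu hgen i hi M hmax σ hσdef y x₀ hy hx
      · have h5 : 5 ≤ p := by
          rcases eq_or_lt_of_le (Nat.succ_le_of_lt h) with h4 | h4
          · exfalso
            have h' : p = 4 := by omega
            have := hp.out
            rw [h'] at this
            exact absurd this (by norm_num)
          · omega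
        exact W_mem5 h5 (hb h5) u₀ hu hgen i hi M hmax σ hσdef y x₀ hy hx
    · intro x y hx hy hxy
      exact U_mem hp2 u₀ hu hgen i hi M hmax σ hσdef x y hx hy hxy
  have htop : M = ⊤ := by
    refine eq_top_iff.2 fun x _ => ?_
    obtain ⟨y, hy, hyx⟩ := Subgroup.mem_map.1 (hle x.2)
    have : y = x := Subtype.ext hyx
    exact this ▸ hy
  exact htop ▸ hM

end

end Pool.Agent.MP_1c8e06_ag.AM
end

section

set_option autoImplicit false

open scoped Classical

namespace Pool.Agent.MP_1c8e06_ag.AN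

noncomputable section

/-!
# Task O3: `OP` for the alternating groups (assembly)

Proof.  `OP.equiv e.symm`; so let `K = alternatingGroup (Fin n)`.  `RE p k i ⊤`: `AM.alt_order_p hp2 _ _ hcard i hi` (`AM/R5.lean`) with `hb := fun _ => ` the statement `AM.BaseSL p k`, which is `AL.base_SL2` (`AL/Base.lean`; `AM.eS p` and `AL.eSL p` are the same matrix,
`rfl`/`Subtype.ext rfl`).  Normal closure: `alternatingGroup (Fin n)` is simple for `n ≥ 5` (`alternatingGroup.isSimpleGroup`..., `p + 2 ≥ 5`; in this Mathlib version look for the instance `IsSimpleGroup (alternatingGroup _)` with `5 ≤ Nat.card`), the normal closure is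
normal and not `⊥` because `i` is injective and `P` is not trivial.
-/

theorem op_alt {p : ℕ} [hp : Fact p.Prime] {k : Type} [Field k] [IsAlgClosed k] [CharP k p]
    {K : Type} [Group K] (n : ℕ) (hn : p + 2 ≤ n) (hp2 : p ≠ 2)
    (e : K ≃* alternatingGroup (Fin n)) : OP p k K := by
  refine OP.equiv e.symm ?_
  obtain ⟨I0, hI0⟩ : ∃ I0 : Fintype (alternatingGroup (Fin n)),
      ∀ (P : Type) [Group P] [Fintype P] (i : P →* alternatingGroup (Fin n)),
        Function.Injective i → Nat.card P = p → @AJ.RE p k _ P _ _ _ _ I0 i ⊤ := by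
    refine ⟨inferInstance, ?_⟩
    intro P _ _ i hi hcard
    have hb : 5 ≤ p → AM.BaseSL p k := by
      intro _ P G _ _ _ _ φ u₀ hu hgen i hi hne
      exact AL.base_SL2 φ u₀ hu hgen i hi hne
    exact AM.alt_order_p (p := p) hp2 (k := k) hb (Ω := Fin n) (by simpa using hn) hcard i hi
  intro P _ _ inst i hi hcard
  have hp3 : 3 ≤ p := by
    have := hp.out.two_le
    omega
  constructor
  · have h2 : inst = I0 := Subsingleton.elim _ _
    subst h2
    exact hI0 P i hi hcard
  · have hs : IsSimpleGroup (alternatingGroup (Fin n)) :=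
      alternatingGroup.isSimpleGroup (by rw [Nat.card_eq_fintype_card, Fintype.card_fin]; omega)
    rcases hs.eq_bot_or_eq_top_of_normal (Subgroup.normalClosure (i.range : Set _))
      inferInstance with h | h
    · exfalso
      have h1 : ∀ x : P, x = 1 := by
        intro x
        apply hi
        rw [map_one]
        have h2 : i x ∈ Subgroup.normalClosure (i.range : Set (alternatingGroup (Fin n))) :=
          Subgroup.subset_normalClosure ⟨x, rfl⟩
        rw [h, Subgroup.mem_bot] at h2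
        exact h2
      have h2 : Nat.card P ≤ 1 := by
        have : Subsingleton P := ⟨fun x y => by rw [h1 x, h1 y]⟩
        exact Finite.card_le_one_iff_subsingleton.2 this
      omega
    · exact h

end

end Pool.Agent.MP_1c8e06_ag.AN
end
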