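import Pool.Agent.Lib.MP_1c8e06_ag.Mg.G084
import Pool.Agent.Lib.MP_1c8e06_ag.Mg.G085
import Pool.Agent.Lib.MP_1c8e06_ag.Mg.G056
import Pool.Agent.Lib.MP_1c8e06_ag.Mg.G073

section

set_option autoImplicit false

open scoped Classical

namespace Pool.Agent.MP_1c8e06_ag.AN

noncomputable section

/-!
# Task L5: all `p`-subgroups of a central product (induction on the number of factors)

Proof.  Strong induction on `n` (the statement with `Fintype.card A = n`, all other data generalised; `induction n using Nat.strong_induction_on generalizing A`..).  `i := ψ.comp x`, injective: an element of the kernel is `x u` with `ψ (x u) = 1`, its components are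
central (`ker_central`) and its order is a power of `p`, so `x u = 1` (`ker_pgroup`), `u = 1`.
If `P` is trivial then `x.range = ⊥`, so `∀ a, Q a` is trivial, `K` is trivial, `i.range = ⊤`: `AJ.re_range`.
Otherwise choose `u₀` of order `p` in the centre of `P` (`IsPGroup.center_nontrivial`, see `AL/FinSL.lean`), `z₀ := x u₀ ≠ 1`, `A' := {a // z₀ a = 1}`, `Fintype.card A' < n`.
`ext : (∀ a : A', Q a) →* (∀ a, Q a)`: `ext z a := if h : z₀ a = 1 then z ⟨a, h⟩ else 1`; `L := (ψ.comp ext).range`, `ψ' := (ψ.comp ext).rangeRestrict`, surjective and injective on each factor (`ext (mulSingle a y) = mulSingle a.1 y`).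
`x' : P →* ∀ a : A', Q a` (components), `P' := x'.range` (as a type), `x'' := P'.subtype`; its normal closure is `⊤`: the projection `∀ a, Q a → ∀ a : A', Q a` is surjective and maps `x u` to `x' u`.  Induction hypothesis:
`RE p k (ψ'.comp x'') ⊤`, and `ψ'.comp x''` is injective (as above: `ker_central`, `ker_pgroup` for `A'`), with normal closure `⊤`.
`Va : Subgroup (∀ a, Q a)`: elements `z` with `z a = 1` if `z₀ a = 1`, and `z a ∈ S a` otherwise, where `S a` is a Sylow `p`-subgroup of `Q a` containing all `x u a` (`IsPGroup.exists_le_sylow` for the image of `P`).  All elements have order a power of `p` (finitely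
many components: take the maximum, or the product, of the exponents).  `V := Va.map ψ`: a `p`-group, commutes with `L`.  `hdisj`: `ψ (ext z) = ψ s`, `s ∈ Va`: `ext z * s⁻¹ ∈ ψ.ker`, all components central, so those of `s` are central (at `a` with `z₀ a ≠ 1` the component of `ext z` is `1`;
at the others that of `s` is `1`), so `s = 1` by `ker_pgroup`.
`i u = ψ (ext (x' u)) * ψ s` with `s a = x u a` for `z₀ a ≠ 1`, `1` otherwise.  `central_factor hP i _ L V .. (q := x'.rangeRestrict) .. (ψ'.comp x'')`: `H'`, `i u ∈ H'`, `RE p k i H'`, `L ≤ H' ⊔ V`.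
`I := Subgroup.zpowers u₀` (as a type, order `p`), `j := I.subtype`; `prod_order_p` (L3) for `x.comp j`: `RE p k (i.comp j) Mc`, `Mc := normalClosure (i.comp j).range`; `AJ.op_central i _ j _ _ _ Mc H'` (`AJ/C6.lean`): `RE p k i (Mc ⊔ H')`.
`join_top` (L4) with `W := Mc ⊔ H'`, `S := i.range`: `W = ⊤`.  (`hncl'`: `z₀ a` has order `p`, `OP.ncl`; `hM`: `ψ z₀ = i u₀ ∈ Mc`; `hW`: `mulSingle a y` with `z₀ a = 1` is `ext` of something, so in `L ≤ H' ⊔ V`, and `V` is contained in the closure: an element of `Va` is a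
product of `mulSingle b y`'s with `z₀ b ≠ 1`: `Subgroup.pi_mem_of_mulSingle_mem` for the preimage of the closure under `ψ`; normal closure of `i.range`: image of that of `x.range`.)
-/

/-- Extension of a family by `1`. -/
private def L5_ext {A : Type} (Q : A → Type) [∀ a, Group (Q a)] (s : A → Prop) :
    (∀ a : {a // s a}, Q a.1) →* (∀ a, Q a) where
  toFun z a := if h : s a then z ⟨a, h⟩ else 1
  map_one' := by
    funext a
    by_cases h : s a <;> simp [h]
  map_mul' z w := by
    funext a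
    by_cases h : s a <;> simp [h]

private theorem L5_ext_pos {A : Type} (Q : A → Type) [∀ a, Group (Q a)] (s : A → Prop)
    (z : ∀ a : {a // s a}, Q a.1) (a : A) (h : s a) : L5_ext Q s z a = z ⟨a, h⟩ := by
  change (if h : s a then z ⟨a, h⟩ else (1 : Q a)) = _
  rw [dif_pos h]

private theorem L5_ext_neg {A : Type} (Q : A → Type) [∀ a, Group (Q a)] (s : A → Prop)
    (z : ∀ a : {a // s a}, Q a.1) (a : A) (h : ¬ s a) : L5_ext Q s z a = 1 := by
  change (if h : s a then z ⟨a, h⟩ else (1 : Q a)) = _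
  rw [dif_neg h]

private theorem L5_ext_single {A : Type} (Q : A → Type) [∀ a, Group (Q a)] (s : A → Prop)
    [DecidableEq {a // s a}] [DecidableEq A]
    (a : {a // s a}) (y : Q a.1) :
    L5_ext Q s (Pi.mulSingle (M := fun a : {a // s a} => Q a.1) a y) = Pi.mulSingle a.1 y := by
  funext b
  by_cases h : s b
  · rw [L5_ext_pos Q s _ b h]
    by_cases hb : b = a.1
    · subst hb
      rw [Pi.mulSingle_eq_same, Pi.mulSingle_eq_same]
    · rw [Pi.mulSingle_eq_of_ne hb, Pi.mulSingle_eq_of_ne]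
      intro e
      exact hb (congrArg Subtype.val e)
  · rw [L5_ext_neg Q s _ b h, Pi.mulSingle_eq_of_ne]
    rintro rfl
    exact h a.2

private theorem L5_inj {p : ℕ} [hp : Fact p.Prime] {k : Type} [Field k]
    {A : Type} [Fintype A] (Q : A → Type) [∀ a, Group (Q a)]
    [∀ a, Finite (Q a)] {K : Type} [Group K] [Finite K] (ψ : (∀ a, Q a) →* K)
    (hinj : ∀ a, Function.Injective fun y : Q a => ψ (Pi.mulSingle a y))
    (hOP : ∀ a, OP p k (Q a)) (hna : ∀ a, ∃ x y : Q a, x * y ≠ y * x) {P : Type} [Group P]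
    (hP : IsPGroup p P) (x : P →* ∀ a, Q a) (hx : Function.Injective x) :
    Function.Injective (ψ.comp x) := by
  rw [injective_iff_map_eq_one]
  intro u hu
  obtain ⟨n, hn⟩ := hP u
  have h1 : x u = 1 := by
    refine ker_pgroup (p := p) (k := k) Q hOP hna (x u) (ker_central Q ψ hinj (x u) hu) n ?_
    rw [← map_pow, hn, map_one]
  exact hx (by rw [h1, map_one])

private theorem L5_ncl {G H : Type} [Group G] [Group H] {P : Type} [Group P] (x : P →* G)
    (f : G →* H) (hf : Function.Surjective f)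
    (h : Subgroup.normalClosure (x.range : Set G) = ⊤) :
    Subgroup.normalClosure ((f.comp x).range : Set H) = ⊤ := by
  have h1 := Subgroup.map_normalClosure (x.range : Set G) f hf
  rw [h, Subgroup.map_top_of_surjective f hf] at h1
  have h2 : f '' (x.range : Set G) = ((f.comp x).range : Set H) := by
    ext y
    constructor
    · rintro ⟨_, ⟨u, rfl⟩, rfl⟩
      exact ⟨u, rfl⟩
    · rintro ⟨u, rfl⟩
      exact ⟨x u, ⟨u, rfl⟩, rfl⟩
  rw [h2] at h1
  exact h1.symm

private theorem L5_pow {p : ℕ} {A : Type} [Fintype A] (Q : A → Type) [∀ a, Group (Q a)]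
    (z : ∀ a, Q a) (h : ∀ a, ∃ n : ℕ, z a ^ p ^ n = 1) : ∃ n : ℕ, z ^ p ^ n = 1 := by
  choose n hn using h
  refine ⟨∑ a, n a, ?_⟩
  funext a
  rw [Pi.pow_apply, Pi.one_apply]
  have h1 : n a ≤ ∑ a, n a := Finset.single_le_sum (fun i _ => Nat.zero_le _) (Finset.mem_univ a)
  obtain ⟨m, hm⟩ := pow_dvd_pow p h1
  rw [hm, pow_mul, hn, one_pow]

private theorem L5_cen {p : ℕ} [hp : Fact p.Prime] {P : Type} [Group P] [Finite P] [Nontrivial P]
    (hP : IsPGroup p P) : ∃ u₀ : P, orderOf u₀ = p ∧ ∀ v, v * u₀ = u₀ * v := by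
  have hcen : Nontrivial (Subgroup.center P) := hP.center_nontrivial
  have hcp : IsPGroup p (Subgroup.center P) := hP.to_subgroup _
  obtain ⟨m, hm, hcard⟩ := hcp.nontrivial_iff_card.1 hcen
  have hdvd : p ∣ Nat.card (Subgroup.center P) := by
    rw [hcard]
    exact dvd_pow_self p (by omega)
  obtain ⟨y, hy⟩ := exists_prime_orderOf_dvd_card' p hdvd
  refine ⟨y, ?_, Subgroup.mem_center_iff.1 y.2⟩
  rw [Subgroup.orderOf_coe, hy]

theorem prod_re {p : ℕ} [hp : Fact p.Prime] {k : Type} [Field k] [IsAlgClosed k] [CharP k p]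
    (n : ℕ) {A : Type} [Fintype A] (hn : Fintype.card A = n) (Q : A → Type) [∀ a, Group (Q a)]
    [∀ a, Finite (Q a)] {K : Type} [Group K] [Fintype K] (ψ : (∀ a, Q a) →* K)
    (hψ : Function.Surjective ψ)
    (hinj : ∀ a, Function.Injective fun y : Q a => ψ (Pi.mulSingle a y))
    (hOP : ∀ a, OP p k (Q a)) (hna : ∀ a, ∃ x y : Q a, x * y ≠ y * x) {P : Type} [Group P]
    [Fintype P] (hP : IsPGroup p P) (x : P →* ∀ a, Q a) (hx : Function.Injective x)
    (hncl : Subgroup.normalClosure (x.range : Set (∀ a, Q a)) = ⊤) :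
    AJ.RE p k (ψ.comp x) ⊤ := by
  induction n using Nat.strong_induction_on generalizing A K P with
  | _ n ih =>
  have hi : Function.Injective (ψ.comp x) := L5_inj (k := k) Q ψ hinj hOP hna hP x hx
  have hS : Subgroup.normalClosure ((ψ.comp x).range : Set K) = ⊤ := L5_ncl x ψ hψ hncl
  rcases subsingleton_or_nontrivial P with hsub | hnt
  · have hbot : (ψ.comp x).range = ⊥ := by
      rw [Subgroup.eq_bot_iff_forall]
      rintro _ ⟨u, rfl⟩
      rw [Subsingleton.elim u 1, map_one]
    have h1 : (⊤ : Subgroup K) = (ψ.comp x).range := by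
      rw [← hS, hbot, Subgroup.normalClosure_eq_self]
    rw [h1]
    exact AJ.re_range hP (ψ.comp x) hi
  obtain ⟨u₀, hu₀, hcen⟩ := L5_cen hP
  have hp1 : p ≠ 1 := hp.out.one_lt.ne'
  have hu₀1 : u₀ ≠ 1 := by
    intro h
    rw [h, orderOf_one] at hu₀
    exact hp1 hu₀.symm
  have hz₀ : x u₀ ≠ 1 := by
    intro h
    exact hu₀1 (hx (by rw [h, map_one]))
  obtain ⟨z₀, hz₀e⟩ : ∃ z₀, z₀ = x u₀ := ⟨_, rfl⟩
  rw [← hz₀e] at hz₀
  obtain ⟨a₀, ha₀⟩ : ∃ a, z₀ a ≠ 1 := by
    by_contra hcon
    push Not at hcon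
    exact hz₀ (funext hcon)
  obtain ⟨s, hs⟩ : ∃ s : A → Prop, s = fun a => z₀ a = 1 := ⟨_, rfl⟩
  have hs' : ∀ a, s a ↔ z₀ a = 1 := fun a => by rw [hs]
  have hcardA : Fintype.card {a // s a} < n := by
    rw [← hn]
    exact Fintype.card_subtype_lt (x := a₀) (by rw [hs']; exact ha₀)
  obtain ⟨e, he⟩ : ∃ e : (∀ a : {a // s a}, Q a.1) →* (∀ a, Q a), e = L5_ext Q s := ⟨_, rfl⟩
  have epos : ∀ z a (h : s a), e z a = z ⟨a, h⟩ := fun z a h => by rw [he, L5_ext_pos Q s z a h]
  have eneg : ∀ z a, ¬ s a → e z a = 1 := fun z a h => by rw [he, L5_ext_neg Q s z a h]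
  have esingle : ∀ (a : {a // s a}) (y : Q a.1),
      e (Pi.mulSingle (M := fun a : {a // s a} => Q a.1) a y) = Pi.mulSingle a.1 y :=
    fun a y => by rw [he, L5_ext_single Q s a y]
  let L : Subgroup K := (ψ.comp e).range
  let ψ' : (∀ a : {a // s a}, Q a.1) →* L := (ψ.comp e).rangeRestrict
  have hψ'c : ∀ z, ((ψ' z : L) : K) = ψ (e z) := fun z => rfl
  have hψ' : Function.Surjective ψ' := MonoidHom.rangeRestrict_surjective _
  have hinj' : ∀ a : {a // s a}, Function.Injective fun y : Q a.1 =>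
      ψ' (Pi.mulSingle (M := fun a : {a // s a} => Q a.1) a y) := by
    intro a y y' h
    have h1 := congrArg (fun t : L => (t : K)) h
    simp only [hψ'c, esingle] at h1
    exact hinj a.1 h1
  have hinjG : ∀ (d : DecidableEq {a // s a}) (a : {a // s a}), Function.Injective
      fun y : Q a.1 => ψ' (@Pi.mulSingle {a // s a} (fun a => Q a.1) _ d a y) := by
    obtain ⟨d₀, hd₀⟩ : ∃ d : DecidableEq {a // s a}, ∀ a : {a // s a}, Function.Injective
      fun y : Q a.1 => ψ' (@Pi.mulSingle {a // s a} (fun a => Q a.1) _ d a y) := ⟨_, hinj'⟩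
    intro d
    rw [Subsingleton.elim d d₀]
    exact hd₀
  let r : (∀ a, Q a) →* (∀ a : {a // s a}, Q a.1) :=
    MonoidHom.pi fun a => Pi.evalMonoidHom Q a.1
  have hr : ∀ z a, r z a = z a.1 := fun z a => rfl
  have hrs : Function.Surjective r := by
    intro z
    refine ⟨e z, ?_⟩
    funext a
    rw [hr, epos z a.1 a.2]
  let x' : P →* (∀ a : {a // s a}, Q a.1) := r.comp x
  let x'' : x'.range →* (∀ a : {a // s a}, Q a.1) := x'.range.subtype
  have hx'' : Function.Injective x'' := Subgroup.subtype_injective _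
  have hP' : IsPGroup p x'.range := hP.of_surjective x'.rangeRestrict
    (MonoidHom.rangeRestrict_surjective _)
  have hncl'' : Subgroup.normalClosure (x''.range : Set (∀ a : {a // s a}, Q a.1)) = ⊤ := by
    have h1 : x''.range = x'.range := Subgroup.range_subtype _
    rw [h1]
    exact L5_ncl x r hrs hncl
  have hRE' : AJ.RE p k (ψ'.comp x'') ⊤ := by
    exact ih _ hcardA rfl (fun a : {a // s a} => Q a.1) ψ' hψ'
      (hinjG _) (fun a => hOP a.1) (fun a => hna a.1) hP' x'' hx'' hncl''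
  have hi' : Function.Injective (ψ'.comp x'') :=
    L5_inj (k := k) (fun a : {a // s a} => Q a.1) ψ' (hinjG _)
      (fun a => hOP a.1) (fun a => hna a.1) hP' x'' hx''
  have hnclL : Subgroup.normalClosure ((ψ'.comp x'').range : Set L) = ⊤ :=
    L5_ncl x'' ψ' hψ' hncl''
  have hSyl : ∀ a, ∃ S : Sylow p (Q a), ∀ u, x u a ∈ S := by
    intro a
    have h1 : IsPGroup p ((Pi.evalMonoidHom Q a).comp x).range :=
      hP.of_surjective ((Pi.evalMonoidHom Q a).comp x).rangeRestrict
        (MonoidHom.rangeRestrict_surjective _)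
    obtain ⟨S, hS⟩ := h1.exists_le_sylow
    exact ⟨S, fun u => hS ⟨u, rfl⟩⟩
  choose S hSx using hSyl
  let Va : Subgroup (∀ a, Q a) :=
    Subgroup.pi Set.univ fun a => if s a then ⊥ else (S a : Subgroup (Q a))
  have hVa1 : ∀ z ∈ Va, ∀ a, s a → z a = 1 := by
    intro z hz a ha
    have h1 := hz a (Set.mem_univ a)
    simp only [if_pos ha] at h1
    exact Subgroup.mem_bot.1 h1
  have hVa2 : ∀ z ∈ Va, ∀ a, ¬ s a → z a ∈ S a := by
    intro z hz a ha
    have h1 := hz a (Set.mem_univ a)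
    simp only [if_neg ha] at h1
    exact h1
  have hVa3 : ∀ z : (∀ a, Q a), (∀ a, s a → z a = 1) → (∀ a, ¬ s a → z a ∈ S a) → z ∈ Va := by
    intro z h1 h2 a _
    by_cases ha : s a
    · simp only [if_pos ha]
      exact Subgroup.mem_bot.2 (h1 a ha)
    · simp only [if_neg ha]
      exact h2 a ha
  have hVap : ∀ z ∈ Va, ∃ n : ℕ, z ^ p ^ n = 1 := by
    intro z hz
    refine L5_pow Q z fun a => ?_
    by_cases ha : s a
    · exact ⟨0, by rw [hVa1 z hz a ha, one_pow]⟩
    · obtain ⟨n, hn⟩ := (S a).isPGroup' ⟨z a, hVa2 z hz a ha⟩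
      exact ⟨n, congrArg Subtype.val hn⟩
  let V : Subgroup K := Va.map ψ
  have hV : IsPGroup p V := by
    rintro ⟨_, z, hz, rfl⟩
    obtain ⟨n, hn⟩ := hVap z hz
    refine ⟨n, Subtype.ext ?_⟩
    change ψ z ^ p ^ n = 1
    rw [← map_pow, hn, map_one]
  have hcomm : ∀ y ∈ L, ∀ v ∈ V, y * v = v * y := by
    rintro _ ⟨z, rfl⟩ _ ⟨t, ht, rfl⟩
    change ψ (e z) * ψ t = ψ t * ψ (e z)
    rw [← map_mul, ← map_mul]
    refine congrArg ψ (funext fun a => ?_)
    rw [Pi.mul_apply, Pi.mul_apply]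
    by_cases ha : s a
    · rw [hVa1 t ht a ha, mul_one, one_mul]
    · rw [eneg z a ha, mul_one, one_mul]
  have hdisj : ∀ y ∈ L, y ∈ V → y = 1 := by
    rintro _ ⟨z, rfl⟩ ⟨t, ht, hzt⟩
    have h1 : ψ (t * (e z)⁻¹) = 1 := by
      rw [map_mul, map_inv, hzt]
      exact mul_inv_cancel _
    have h2 := ker_central Q ψ hinj _ h1
    have h3 : ∀ a (y : Q a), t a * y = y * t a := by
      intro a y
      by_cases ha : s a
      · rw [hVa1 t ht a ha, one_mul, mul_one]
      · have h4 := h2 a y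
        have h5 : (t * (e z)⁻¹) a = t a := by
          rw [Pi.mul_apply, Pi.inv_apply, eneg z a ha, inv_one, mul_one]
        rw [h5] at h4
        exact h4
    obtain ⟨n, hn⟩ := hVap t ht
    have h6 : t = 1 := ker_pgroup (p := p) (k := k) Q hOP hna t h3 n hn
    rw [← hzt, h6, map_one]
  have hiv : ∀ u, ∃ v ∈ V, (ψ.comp x) u = ((ψ'.comp x'') (x'.rangeRestrict u) : K) * v := by
    intro u
    let t : ∀ a, Q a := fun a => if s a then 1 else x u a
    have ht1 : ∀ a, s a → t a = 1 := fun a ha => if_pos ha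
    have ht2 : ∀ a, ¬ s a → t a = x u a := fun a ha => if_neg ha
    refine ⟨ψ t, ⟨t, hVa3 t ht1 fun a ha => ?_, rfl⟩, ?_⟩
    · rw [ht2 a ha]
      exact hSx a u
    · change ψ (x u) = ψ (e (x' u)) * ψ t
      rw [← map_mul]
      refine congrArg ψ (funext fun a => ?_)
      rw [Pi.mul_apply]
      by_cases ha : s a
      · rw [ht1 a ha, epos _ a ha, mul_one]
        rfl
      · rw [ht2 a ha, eneg _ a ha, one_mul]
  obtain ⟨H', hiH', hREH', hLe⟩ := central_factor hP (ψ.comp x) hi L V hcomm hV hdisj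
    x'.rangeRestrict (MonoidHom.rangeRestrict_surjective _) (ψ'.comp x'') hi' hiv hnclL hRE'
  let I : Subgroup P := Subgroup.zpowers u₀
  have hI : Nat.card I = p := by rw [Nat.card_zpowers, hu₀]
  have hj : Function.Injective I.subtype := Subgroup.subtype_injective _
  have hc : ∀ (u : I) (v : P), v * I.subtype u = I.subtype u * v := by
    rintro ⟨_, n, rfl⟩ v
    change v * u₀ ^ n = u₀ ^ n * v
    exact (Commute.zpow_right (hcen v) n)
  have hijinj : Function.Injective (ψ.comp (x.comp I.subtype)) := by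
    intro u v huv
    exact hj (hi huv)
  have hREp := prod_order_p (k := k) Q ψ hψ hinj hOP hna hI (x.comp I.subtype) hijinj
  have hRE := AJ.op_central (ψ.comp x) hi I.subtype hj hI hc _ H' hREp hREH'
  have hW : Subgroup.normalClosure ((ψ.comp (x.comp I.subtype)).range : Set K) ⊔ H' = ⊤ := by
    refine join_top Q ψ hψ z₀ ?_ _ ?_ ?_ ((ψ.comp x).range : Set K) ?_ hS
    · intro a ha
      refine (hOP a).ncl (z₀ a) ?_
      have h1 : z₀ a ^ p = 1 := by
        have h2 : z₀ ^ p = 1 := by rw [hz₀e, ← map_pow, ← hu₀, pow_orderOf_eq_one, map_one]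
        rw [← Pi.pow_apply, h2, Pi.one_apply]
      exact orderOf_eq_prime h1 ha
    · refine le_trans (Subgroup.normalClosure_mono ?_) le_sup_left
      rintro _ rfl
      exact ⟨⟨u₀, Subgroup.mem_zpowers u₀⟩, by rw [hz₀e]; rfl⟩
    · intro a ha y
      have ha' : s a := (hs' a).2 ha
      have h1 : ψ (Pi.mulSingle a y) ∈ L := by
        refine ⟨Pi.mulSingle (M := fun a : {a // s a} => Q a.1) ⟨a, ha'⟩ y, ?_⟩
        change ψ (e _) = _
        rw [esingle ⟨a, ha'⟩ y]
      have h2 : V ≤ Subgroup.closure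
          {t | ∃ b, z₀ b ≠ 1 ∧ ∃ y : Q b, t = ψ (Pi.mulSingle b y)} := by
        rintro _ ⟨t, ht, rfl⟩
        change t ∈ (Subgroup.closure _).comap ψ
        refine Subgroup.pi_mem_of_mulSingle_mem t fun b => ?_
        by_cases hb : s b
        · rw [hVa1 t ht b hb, Pi.mulSingle_one]
          exact one_mem _
        · exact Subgroup.subset_closure ⟨b, fun h => hb ((hs' b).2 h), t b, rfl⟩
      exact (sup_le (le_trans le_sup_right le_sup_left) (le_trans h2 le_sup_right)) (hLe h1)
    · rintro _ ⟨u, rfl⟩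
      exact (le_sup_right : H' ≤ _) (hiH' u)
  rw [← hW]
  exact hRE

end

end Pool.Agent.MP_1c8e06_ag.AN
end

section

set_option autoImplicit false

open scoped Classical

namespace Pool.Agent.MP_1c8e06_ag.AN

noncomputable section

/-!
# Task L6: extensions of central products by `p`-groups (assembly)

Proof.  `K := G ⧸ N`, finite; `Fintype` instances from `Finite`.  `Q a := Kf a` (as types), `ψ := Subgroup.noncommPiCoprod _ : (∀ a, Kf a) →* K` (`Subgroup.noncommPiCoprod_mulSingle`, `Subgroup.noncommPiCoprod_range`: surjective by `hgen`), injective on every factor.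
`Qm := QuotientGroup.mk' N`, kernel `N` a `p`-group.  `i := P.subtype`; `P' := (Qm.comp i).range` (as a type, a `p`-group), `q := (Qm.comp i).rangeRestrict`, `i' := P'.subtype`.  `exists_lift` (L1): `x : P' →* ∀ a, Kf a` with `ψ.comp x = i'`, injective.
`normalClosure i'.range = ⊤` (image of `normalClosure P = ⊤` under the surjection `Qm`), `ncl_lift` (L1): `normalClosure x.range = ⊤`.  `prod_re _ rfl` (L5): `RE p k i' ⊤`.  `AJ.re_lift hP' i .. Qm .. q .. i' ..` (`AJ/Gb1.lean`): `RE p k i ⊤`; `AJ.realised_of_RE`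
(`AJ/R7.lean`), as at the end of `AL/CR3.lean`.
-/

theorem prod_realised {p : ℕ} [hp : Fact p.Prime] (k : Type) [Field k] [IsAlgClosed k]
    [CharP k p] {G : Type} [Group G] [Finite G] (N : Subgroup G) [N.Normal] (hN : IsPGroup p N)
    {A : Type} [Finite A] (Kf : A → Subgroup (G ⧸ N))
    (hcomm : ∀ a b, a ≠ b → ∀ x ∈ Kf a, ∀ y ∈ Kf b, x * y = y * x) (hgen : ⨆ a, Kf a = ⊤)
    (hOP : ∀ a, OP p k (Kf a)) (hna : ∀ a, ∃ x ∈ Kf a, ∃ y ∈ Kf a, x * y ≠ y * x)
    (hd : ∀ a, p ∣ Nat.card (Kf a)) (P : Subgroup G) (hP : IsPGroup p P)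
    (hPgen : Subgroup.normalClosure (P : Set G) = ⊤) : AI.Realised k G P := by
  letI : Fintype G := Fintype.ofFinite G
  letI : Fintype A := Fintype.ofFinite A
  letI : Fintype P := Fintype.ofFinite P
  haveI : Finite (G ⧸ N) := Quotient.finite _
  letI : Fintype (G ⧸ N) := Fintype.ofFinite (G ⧸ N)
  have hcomm' : Pairwise fun a b : A => ∀ x y : G ⧸ N, x ∈ Kf a → y ∈ Kf b → Commute x y :=
    fun a b hab x y hx hy => hcomm a b hab x hx y hy
  obtain ⟨ψ, hψd⟩ : ∃ ψ : (∀ a, Kf a) →* G ⧸ N, ψ = Subgroup.noncommPiCoprod hcomm' := ⟨_, rfl⟩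
  have hψ : Function.Surjective ψ := by
    rw [← MonoidHom.range_eq_top, hψd, Subgroup.noncommPiCoprod_range, hgen]
  have hψs : ∀ (a : A) (y : Kf a), ψ (Pi.mulSingle a y) = y := by
    intro a y
    rw [hψd]
    exact Subgroup.noncommPiCoprod_mulSingle a y
  have hinj : ∀ a, Function.Injective fun y : Kf a => ψ (Pi.mulSingle a y) := by
    intro a y y' h
    have h1 : ψ (Pi.mulSingle a y) = ψ (Pi.mulSingle a y') := h
    rw [hψs, hψs] at h1
    exact Subtype.ext h1
  have hna' : ∀ a, ∃ x y : Kf a, x * y ≠ y * x := by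
    intro a
    obtain ⟨x, hx, y, hy, hxy⟩ := hna a
    refine ⟨⟨x, hx⟩, ⟨y, hy⟩, fun h => hxy ?_⟩
    exact congrArg Subtype.val h
  obtain ⟨f, hfd⟩ : ∃ f : P →* G ⧸ N, f = (QuotientGroup.mk' N).comp P.subtype := ⟨_, rfl⟩
  letI : Fintype f.range := Fintype.ofFinite f.range
  have hfs : Function.Surjective f.rangeRestrict := f.rangeRestrict_surjective
  have hP' : IsPGroup p f.range := hP.of_surjective f.rangeRestrict hfs
  have hi' : Function.Injective f.range.subtype := f.range.subtype_injective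
  obtain ⟨x, hx⟩ := exists_lift (k := k) (p := p) (fun a => (Kf a : Type)) ψ hψ hinj hOP hna' hP'
    f.range.subtype hi'
  have hxi : Function.Injective x := by
    intro u v huv
    apply hi'
    rw [← hx]
    show ψ (x u) = ψ (x v)
    rw [huv]
  have hPr : (P.subtype).range = P := P.range_subtype
  have hncl' : Subgroup.normalClosure ((f.range.subtype).range : Set (G ⧸ N)) = ⊤ := by
    rw [Subgroup.range_subtype]
    have h1 : (Subgroup.normalClosure (P : Set G)).map (QuotientGroup.mk' N) ≤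
        Subgroup.normalClosure (f.range : Set (G ⧸ N)) := by
      rw [Subgroup.map_le_iff_le_comap]
      haveI : (Subgroup.normalClosure (f.range : Set (G ⧸ N))).Normal :=
        Subgroup.normalClosure_normal
      apply Subgroup.normalClosure_le_normal
      intro u hu
      apply Subgroup.subset_normalClosure
      refine ⟨⟨u, hu⟩, ?_⟩
      rw [hfd]
      rfl
    rw [hPgen] at h1
    rw [eq_top_iff]
    refine le_trans ?_ h1
    rw [← MonoidHom.range_eq_map, MonoidHom.range_eq_top.mpr (QuotientGroup.mk'_surjective N)]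
  have hncl : Subgroup.normalClosure (x.range : Set (∀ a, Kf a)) = ⊤ := by
    refine ncl_lift (k := k) (p := p) (fun a => (Kf a : Type)) ψ hψ hinj hOP hna' hd x ?_
    rw [hx]
    exact hncl'
  have h1 : AJ.RE p k (ψ.comp x) ⊤ :=
    prod_re _ rfl (fun a => (Kf a : Type)) ψ hψ hinj hOP hna' hP' x hxi hncl
  rw [hx] at h1
  have h2 : AJ.RE p k P.subtype ⊤ := by
    refine AJ.re_lift hP P.subtype P.subtype_injective (by rw [hPr]; exact hPgen)
      (QuotientGroup.mk' N) (QuotientGroup.mk'_surjective N) ?_ f.rangeRestrict hfs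
      f.range.subtype hi' ?_ h1
    · rw [QuotientGroup.ker_mk']
      exact hN
    · intro u
      rw [hfd]
      rfl
  have h3 := AJ.realised_of_RE hP P.subtype h2
  rwa [hPr] at h3

end

end Pool.Agent.MP_1c8e06_ag.AN
end
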