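import Pool.Agent.Lib.MP_1c8e06_ag.Mg.G004
import Pool.Agent.Lib.MP_1c8e06_ag.CY.Defs2
import Pool.Agent.Lib.MP_1c8e06_ag.CY.TS

section

set_option autoImplicit false

open Polynomial
open scoped Classical

namespace Pool.Agent.MP_1c8e06_ag.CY

open Pool.Agent.MP_1c8e06_ag.AJ

noncomputable section

/-!
# TASK E4: one approximate idempotent on a whole interval of radii

Black boxes: `E2` (`Good.open`, `exists_Good`), `E3.glue_Good`.
Proof by real induction.  `T := {s ∈ [a, d] : ∃ b, ∀ r ∈ [a, s], Good b (gp 0 r)}`, `a ∈ T` (`exists_Good` at `a`).  Let `σ := sSup T`.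
`exists_Good` and `Good.open` at `σ > 0`: `b'` and `0 < δ` (also `δ < σ`), `Good b' (gp 0 r)` for all `r > 0` with `|r - σ| < 2δ`.  If `σ = a`:
`b'` is good on `[a, a + δ]`.  If `σ > a`: choose `s ∈ T`, `s > max a (σ - δ)` (definition of the supremum), with `b`; `glue_Good` with
`s0 = a`, `s' = max (σ - δ) (a / 2)`.. (any `0 < s' < s` with `s' > σ - 2δ`, e.g. `s' := max (σ - δ) (s / 2)`, which is `< s`; it is
`> σ - 2δ`), `s1 = σ + δ`: an element good on `[a, σ + δ]`.  So `min (σ + δ) d ∈ T`; as `σ = sSup T` this gives `σ = d` and `d ∈ T`.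
(Alternative: Lebesgue number of the open cover of `[a, d]` and finite induction with `glue_Good`.)
-/

variable {Om : Type} [NormedField Om] [CompleteSpace Om] [IsUltrametricDist Om] [IsAlgClosed Om]
  (hV : ∀ r : ℝ, 0 < r → ∃ c : Om, ‖c‖ = r)
  {p : ℕ} [Fact p.Prime] [CharP Om p] {G : Type} [Group G] [Fintype G] {S : SC (Lam Om) G} {N : Subgroup G}

include hV in
theorem Good_Icc (hB : ∀ r : ℝ, 0 < r → ∃! ε : Al (S.map (lw (gp 0 r))), NI (S.map (lw (gp 0 r))) N ε)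
    {a d : ℝ} (ha : 0 < a) (had : a ≤ d) :
    ∃ b : Al (S.map (jF Om)), ∀ r, a ≤ r → r ≤ d → Good p S N b (gp 0 r) := by
  let T : Set ℝ := {s | a ≤ s ∧ s ≤ d ∧
    ∃ b : Al (S.map (jF Om)), ∀ r, a ≤ r → r ≤ s → Good p S N b (gp 0 r)}
  have haT : a ∈ T := by
    obtain ⟨b, hb⟩ := exists_Good (p := p) (gp 0 a) (hB a ha).exists
    refine ⟨le_refl a, had, b, fun r h1 h2 => ?_⟩
    rw [le_antisymm h2 h1]
    exact hb
  have hbdd : BddAbove T := ⟨d, fun s hs => hs.2.1⟩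
  have hne : T.Nonempty := ⟨a, haT⟩
  have hσa : a ≤ sSup T := le_csSup hbdd haT
  have hσd : sSup T ≤ d := csSup_le hne fun s hs => hs.2.1
  set σ := sSup T with hσ
  have hσ0 : 0 < σ := lt_of_lt_of_le ha hσa
  obtain ⟨b', hb'⟩ := exists_Good (p := p) (gp 0 σ) (hB σ hσ0).exists
  obtain ⟨de, hde, hop⟩ := hb'.open 0 hσ0
  obtain ⟨δ, hδ0, hδde, hδσ⟩ : ∃ δ : ℝ, 0 < δ ∧ δ < de ∧ δ < σ :=
    ⟨min de σ / 2, by positivity, by have := min_le_left de σ; linarith,
      by have := min_le_right de σ; linarith⟩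
  have hop' : ∀ r, σ - δ ≤ r → r ≤ σ + δ → Good p S N b' (gp 0 r) := by
    intro r h1 h2
    refine hop r (by linarith) ?_
    rw [abs_lt]
    constructor <;> linarith
  have hclaim : ∃ b : Al (S.map (jF Om)), ∀ r, a ≤ r → r ≤ σ + δ → Good p S N b (gp 0 r) := by
    rcases eq_or_lt_of_le hσa with h | h
    · exact ⟨b', fun r h1 h2 => hop' r (by linarith) h2⟩
    · obtain ⟨s, hsT, hs⟩ := exists_lt_of_lt_csSup hne
        (show max a (σ - δ) < sSup T from max_lt h (by linarith))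
      obtain ⟨has, hsd, b, hb⟩ := hsT
      have hs1 : a < s := lt_of_le_of_lt (le_max_left _ _) hs
      have hs2 : σ - δ < s := lt_of_le_of_lt (le_max_right _ _) hs
      have hs0 : 0 < s := lt_trans ha hs1
      exact glue_Good hV (fun r hr e e' he he' => (hB r hr).unique he he') ha
        (s' := max (σ - δ) (s / 2)) (max_lt hs2 (by linarith))
        (lt_of_lt_of_le (by linarith) (le_max_right _ _)) hb
        (fun r h1 h2 => hop' r ((le_max_left _ _).trans h1) h2)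
  obtain ⟨b, hb⟩ := hclaim
  have hmem : min (σ + δ) d ∈ T :=
    ⟨le_min (by linarith) had, min_le_right _ _, b,
      fun r h1 h2 => hb r h1 (h2.trans (min_le_left _ _))⟩
  have hle : min (σ + δ) d ≤ σ := le_csSup hbdd hmem
  have hdσ : d ≤ σ + δ := by
    by_contra hcon
    push Not at hcon
    rw [min_eq_left hcon.le] at hle
    linarith
  exact ⟨b, fun r h1 h2 => hb r h1 (h2.trans hdσ)⟩

end

end Pool.Agent.MP_1c8e06_ag.CY
end

section

set_option autoImplicit false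

open Polynomial
open scoped Classical

namespace Pool.Agent.MP_1c8e06_ag.CY

open Pool.Agent.MP_1c8e06_ag.AJ

noncomputable section

/-!
# TASK E5: the holes (THEOREM C7)

* `exists_avoid`: an open interval is infinite.
* `exists_reps`: `Q` a finite set of elements of norm in `(r0, r1)`, `r0 > 0`.  Relation on nonzero elements: `q ~ q'` iff
  `‖q - q'‖ < ‖q‖`; then `‖q'‖ = ‖q‖` (ultrametric), it is an equivalence relation.  Choose one element of `Q` in every class (e.g. a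
  subset `R ⊆ Q` maximal with pairwise non-equivalent elements, `Finset` of maximal cardinality, or quotients).  For `c, c' ∈ R`,
  `c ≠ c'`: `‖c - c'‖ = max ‖c‖ ‖c'‖`: if the norms differ by the ultrametric property, if they are equal: `≤` by the ultrametric
  inequality, `≥ ‖c‖` since not equivalent.
* `theoremC7`: `Good_Icc` on `[a, d]`: `b0`.  `Q0 :=` the finite set of all roots of the denominators of all `b0 l`.  Choose `r0 ∈ (a, a')`
  and `r1 ∈ (d', d)` different from all `‖q‖`, `q ∈ Q0` (`exists_avoid`).  `Q := {q ∈ Q0 | r0 < ‖q‖ < r1}`, `R` from `exists_reps`,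
  `J := R` (subtype of the Finset), `c := Subtype.val`.  `Good.QA_eventually` at `gp 0 r0`, `gp 0 r1`, and at `gp 0 ‖c‖ = gp c ‖c‖`
  (`GA2.gp_center`) for the finitely many `c ∈ R`: one `n` such that `b := b0 ^ (p^n)` has `QA` at all of them.  `E1.QA_open` at `gp c ‖c‖`,
  centre `c`: `QA b (gp c r')` for `r'` close to `‖c‖`; choose `ρ c < ‖c‖` close to `‖c‖` such that also `ρ c > 0` and
  `ρ c > ‖q - c‖` for all `q ∈ Q` with `q ~ c`.  These data form `H : HC Om` (`sep` from `exists_reps`).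
  Regularity: `b0 l ∈ Reg H.X`: a root `α ∈ H.X` of the denominator is in `Q0`, `r0 ≤ ‖α‖ ≤ r1`, so `r0 < ‖α‖ < r1`, so `α ∈ Q`,
  `α ~ c` for some `c ∈ R`, `‖α - c‖ < ρ c`: contradiction to `α ∈ H.X`.  `b l ∈ Reg H.X`: powers in `Al (S.map (jF Om))`, by induction
  with `Al.mul_apply`; the structure constants `jF (μ i j l)`, `jF (ν l)` are in the subring `Reg H.X` (`Defs2.HC.jF_mem`).
-/

variable {Om : Type} [NormedField Om] [CompleteSpace Om] [IsUltrametricDist Om] [IsAlgClosed Om]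
  (hV : ∀ r : ℝ, 0 < r → ∃ c : Om, ‖c‖ = r)
  {p : ℕ} [Fact p.Prime] [CharP Om p] {G : Type} [Group G] [Fintype G] {S : SC (Lam Om) G} {N : Subgroup G}

private theorem E5_reg (S : SC (Lam Om) G) (H : HC Om) (b : Al (S.map (jF Om)))
    (hb : ∀ l, b l ∈ Reg H.X) (m : ℕ) : ∀ l, (b ^ m) l ∈ Reg H.X := by
  induction m with
  | zero =>
    intro l
    rw [pow_zero, Al.one_apply]
    exact H.jF_mem (S.ν l)
  | succ m ih =>
    intro l
    rw [pow_succ, Al.mul_apply]
    exact (Reg H.X).sum_mem fun i _ => (Reg H.X).sum_mem fun j _ =>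
      (Reg H.X).mul_mem ((Reg H.X).mul_mem (ih i) (hb j)) (H.jF_mem (S.μ i j l))

theorem exists_avoid (s : Set ℝ) (hs : s.Finite) {a b : ℝ} (hab : a < b) : ∃ r, a < r ∧ r < b ∧ r ∉ s := by
  obtain ⟨r, hr, hrs⟩ := (Set.Ioo_infinite hab).exists_notMem_finite hs
  exact ⟨r, hr.1, hr.2, hrs⟩

theorem exists_reps (Q : Finset Om) (hQ : ∀ q ∈ Q, q ≠ 0) :
    ∃ R : Finset Om, R ⊆ Q ∧ (∀ q ∈ Q, ∃ c ∈ R, ‖q - c‖ < ‖c‖) ∧
      ∀ c ∈ R, ∀ c' ∈ R, c ≠ c' → ‖c - c'‖ = max ‖c‖ ‖c'‖ := by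
  induction Q using Finset.induction_on with
  | empty =>
    exact ⟨∅, Finset.Subset.refl _, fun q hq => absurd hq (Finset.notMem_empty q),
      fun c hc => absurd hc (Finset.notMem_empty c)⟩
  | insert q Q hq ih =>
    obtain ⟨R, hR, hR1, hR2⟩ := ih fun x hx => hQ x (Finset.mem_insert_of_mem hx)
    by_cases h : ∃ c ∈ R, ‖q - c‖ < ‖c‖
    · refine ⟨R, hR.trans (Finset.subset_insert q Q), fun x hx => ?_, hR2⟩
      rcases Finset.mem_insert.1 hx with rfl | hx
      · exact h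
      · exact hR1 x hx
    · have h' : ∀ c ∈ R, ‖q - c‖ = max ‖q‖ ‖c‖ := by
        intro c hc
        have h1 : ‖c‖ ≤ ‖q - c‖ := not_lt.1 fun h2 => h ⟨c, hc, h2⟩
        have h3 : ‖q‖ ≤ ‖q - c‖ := by
          have h4 := IsUltrametricDist.norm_add_le_max (q - c) c
          rw [sub_add_cancel] at h4
          exact h4.trans (max_le le_rfl h1)
        have h5 : ‖q - c‖ ≤ max ‖q‖ ‖c‖ := by
          have h6 := IsUltrametricDist.norm_add_le_max q (-c)
          rwa [norm_neg, ← sub_eq_add_neg] at h6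
        exact le_antisymm h5 (max_le h3 h1)
      refine ⟨insert q R, Finset.insert_subset_insert q hR, fun x hx => ?_, ?_⟩
      · rcases Finset.mem_insert.1 hx with rfl | hx
        · refine ⟨x, Finset.mem_insert_self x R, ?_⟩
          rw [sub_self, norm_zero]
          exact norm_pos_iff.2 (hQ x (Finset.mem_insert_self x Q))
        · obtain ⟨c, hc, hc2⟩ := hR1 x hx
          exact ⟨c, Finset.mem_insert_of_mem hc, hc2⟩
      · intro c hc c' hc' hne
        rcases Finset.mem_insert.1 hc with h1 | h1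
        · rcases Finset.mem_insert.1 hc' with h2 | h2
          · exact absurd (h1.trans h2.symm) hne
          · rw [h1]
            exact h' c' h2
        · rcases Finset.mem_insert.1 hc' with h2 | h2
          · rw [h2, norm_sub_rev, h' c h1, max_comm]
          · exact hR2 c h1 c' h2 hne

include hV in
/-- THEOREM C7. -/
theorem theoremC7 (hB : ∀ r : ℝ, 0 < r → ∃! ε : Al (S.map (lw (gp 0 r))), NI (S.map (lw (gp 0 r))) N ε)
    {a a' d' d : ℝ} (ha : 0 < a) (haa : a < a') (had : a' < d') (hdd : d' < d) :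
    ∃ (H : HC Om) (b : Al (S.map (jF Om))), a < H.r0 ∧ H.r0 < a' ∧ d' < H.r1 ∧ H.r1 < d ∧
      (∀ l, b l ∈ Reg H.X) ∧ ∀ v, QA p S N b (H.pt v) := by
  obtain ⟨b0, hb0⟩ := Good_Icc (p := p) (S := S) (N := N) hV hB ha
    (show a ≤ d by linarith)
  obtain ⟨Q0, hQ0⟩ : ∃ Q0 : Finset Om, ∀ l α, (b0 l).denom.eval α = 0 → α ∈ Q0 := by
    refine ⟨Finset.univ.biUnion fun l => (b0 l).denom.roots.toFinset, fun l α h => ?_⟩
    rw [Finset.mem_biUnion]
    refine ⟨l, Finset.mem_univ l, ?_⟩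
    rw [Multiset.mem_toFinset, mem_roots (RatFunc.denom_ne_zero (b0 l))]
    exact h
  have hfin : ((fun q : Om => ‖q‖) '' (Q0 : Set Om)).Finite := Q0.finite_toSet.image _
  obtain ⟨r0, hr0a, hr0b, hr0⟩ := exists_avoid _ hfin haa
  obtain ⟨r1, hr1a, hr1b, hr1⟩ := exists_avoid _ hfin hdd
  have hr0p : 0 < r0 := ha.trans hr0a
  have hr1p : 0 < r1 := by linarith
  obtain ⟨Q, hQ⟩ : ∃ Q : Finset Om, ∀ q, q ∈ Q ↔ q ∈ Q0 ∧ r0 < ‖q‖ ∧ ‖q‖ < r1 :=
    ⟨Q0.filter fun q => r0 < ‖q‖ ∧ ‖q‖ < r1, fun q => Finset.mem_filter⟩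
  obtain ⟨R, hRQ, hR1, hR2⟩ := exists_reps Q fun q hq =>
    norm_pos_iff.1 (hr0p.trans ((hQ q).1 hq).2.1)
  have hRn : ∀ c ∈ R, r0 < ‖c‖ ∧ ‖c‖ < r1 := fun c hc => ((hQ c).1 (hRQ hc)).2
  -- one power for all the points
  have hev : ∀ w : Pt Om, Good p S N b0 w →
      ∀ᶠ n in Filter.atTop, QA p S N (b0 ^ (p ^ n)) w := by
    intro w hw
    obtain ⟨n0, hn0⟩ := hw.QA_eventually
    exact Filter.eventually_atTop.2 ⟨n0, hn0⟩
  have hevR : ∀ᶠ n in Filter.atTop, ∀ c ∈ R, QA p S N (b0 ^ (p ^ n)) (gp c ‖c‖) := by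
    rw [Filter.eventually_all_finset]
    intro c hc
    obtain ⟨h1, h2⟩ := hRn c hc
    have h3 : gp c ‖c‖ = gp (0 : Om) ‖c‖ :=
      gp_center (hr0p.trans h1) (by rw [sub_zero])
    rw [h3]
    exact hev _ (hb0 _ (by linarith) (by linarith))
  obtain ⟨n, ⟨hn0, hn1⟩, hnR⟩ := (((hev _ (hb0 r0 (by linarith) (by linarith))).and
    (hev _ (hb0 r1 (by linarith) (by linarith)))).and hevR).exists
  obtain ⟨b, hb⟩ : ∃ b : Al (S.map (jF Om)), b = b0 ^ (p ^ n) := ⟨_, rfl⟩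
  rw [← hb] at hn0 hn1
  -- the radii of the holes
  have hρ : ∀ c ∈ R, ∃ ρ : ℝ, 0 < ρ ∧ ρ < ‖c‖ ∧ QA p S N b (gp c ρ) ∧
      ∀ q ∈ Q, ‖q - c‖ < ‖c‖ → ‖q - c‖ < ρ := by
    intro c hc
    have hc0 : 0 < ‖c‖ := hr0p.trans (hRn c hc).1
    have h1 : QA p S N b (gp c ‖c‖) := by
      rw [hb]
      exact hnR c hc
    obtain ⟨de, hde, hopen⟩ := QA_open S N b c hc0 h1
    have hgt : ∀ x : ℝ, x < ‖c‖ → ∀ᶠ r in nhdsWithin ‖c‖ (Set.Iio ‖c‖), x < r := fun x hx =>
      (eventually_gt_nhds hx).filter_mono nhdsWithin_le_nhds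
    have hQe : ∀ᶠ r in nhdsWithin ‖c‖ (Set.Iio ‖c‖), ∀ q ∈ Q, ‖q - c‖ < ‖c‖ → ‖q - c‖ < r := by
      rw [Filter.eventually_all_finset]
      intro q _
      by_cases hq : ‖q - c‖ < ‖c‖
      · exact (hgt _ hq).mono fun r hr _ => hr
      · exact Filter.Eventually.of_forall fun r hr => absurd hr hq
    have hlt : ∀ᶠ r in nhdsWithin ‖c‖ (Set.Iio ‖c‖), r < ‖c‖ := eventually_mem_nhdsWithin
    obtain ⟨ρ, ⟨⟨h2, h3⟩, h4⟩, h5⟩ := (((hlt.and (hgt 0 hc0)).and
      (hgt (‖c‖ - de) (by linarith))).and hQe).exists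
    refine ⟨ρ, h3, h2, hopen ρ h3 ?_, h5⟩
    rw [abs_lt]
    constructor
    · linarith
    · linarith
  choose! ρ hρ0 hρ1 hρ2 hρ3 using hρ
  let H : HC Om :=
    { J := {c : Om // c ∈ R}
      fin := inferInstance
      c := Subtype.val
      ρ := fun c => ρ c.1
      r0 := r0
      r1 := r1
      r0_pos := hr0p
      r0_lt := by linarith
      c_gt := fun j => (hRn j.1 j.2).1
      c_lt := fun j => (hRn j.1 j.2).2
      ρ_pos := fun j => hρ0 j.1 j.2
      ρ_lt := fun j => hρ1 j.1 j.2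
      sep := fun i j hij => hR2 i.1 i.2 j.1 j.2 fun h => hij (Subtype.ext h) }
  refine ⟨H, b, hr0a, hr0b, hr1a, hr1b, ?_, ?_⟩
  · rw [hb]
    refine E5_reg S H b0 (fun l => ?_) (p ^ n)
    rw [mem_Reg]
    intro α hα h0
    obtain ⟨h1, h2, h3⟩ : r0 ≤ ‖α‖ ∧ ‖α‖ ≤ r1 ∧
      ∀ j : {c : Om // c ∈ R}, ρ j.1 ≤ ‖α - j.1‖ := hα
    have h4 : α ∈ Q0 := hQ0 l α h0
    have h5 : ‖α‖ ≠ r0 := fun h => hr0 ⟨α, h4, h⟩
    have h6 : ‖α‖ ≠ r1 := fun h => hr1 ⟨α, h4, h⟩
    have h7 : α ∈ Q := (hQ α).2 ⟨h4, lt_of_le_of_ne h1 h5.symm, lt_of_le_of_ne h2 h6⟩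
    obtain ⟨c, hc, hc2⟩ := hR1 α h7
    exact absurd (h3 ⟨c, hc⟩) (not_le.2 (hρ3 c hc α h7 hc2))
  · rintro (j | _ | _)
    · exact hρ2 j.1 j.2
    · exact hn0
    · exact hn1

end

end Pool.Agent.MP_1c8e06_ag.CY
end

section

/-!
# CY T7: base change of a twist

h : TwD p S x N chi eps lam over B, θ : B →+* B'.  m := Al.mapA S θ : Al S →+* Al (S.map θ) (`Al.mapA_apply`, `Al.mapA_act`, `Al.mapA_cst`, `Al.mapA_e`).
`NI.map`: apply m to the relations (map_mul, map_sum, `Al.mapA_act`).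
`TwD.map`: the fields; char: θ (p : B) = (p : B').
`tF_map`, `tmul_map`: T2 `cc_map` with φ = m, σ = act S x, σ' = act (S.map θ) x (`Al.mapA_act`).
`S'_map`: the structure constants of (h.map θ).S' are the images of those of h.S': α, ν, T, T' by definition (rfl), μ: `tmul_map` for e i, e j
(`Al.mapA_e`, `Al.mapA_apply`).
-/

set_option autoImplicit false

open Polynomial
open scoped Classical

namespace Pool.Agent.MP_1c8e06_ag.CY

open Pool.Agent.MP_1c8e06_ag.AJ

noncomputable section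

set_option linter.unusedSectionVars false

variable {p : ℕ} [Fact p.Prime] {B : Type} [CommRing B] {G : Type} [Group G] [Fintype G]
  {S : SC B G} {x : G} {N : Subgroup G} {chi : G → ℕ} {eps lam : Al S}
  {B' : Type} [CommRing B'] (θ : B →+* B')

theorem NI.map (h : NI S N eps) : NI (S.map θ) N (Al.mapA S θ eps) where
  fix n hn := by rw [← Al.mapA_act, h.fix n hn]
  idem := by rw [← map_mul, h.idem]
  orth g hg := by rw [← Al.mapA_act, ← map_mul, h.orth g hg, map_zero]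
  sum := by
    have h1 := congrArg (Al.mapA S θ) h.sum
    rw [map_sum, map_one] at h1
    rw [← h1]
    exact Finset.sum_congr rfl fun q _ => (Al.mapA_act S θ _ _).symm

theorem TwD.map (h : TwD p S x N chi eps lam) :
    TwD p (S.map θ) x N chi (Al.mapA S θ eps) (Al.mapA S θ lam) where
  char := by
    have h1 := congrArg θ h.char
    rwa [map_natCast, map_zero] at h1
  ord := h.ord
  mem := h.mem
  conj := h.conj
  ni := NI.map θ h.ni
  el := by rw [← map_mul, h.el]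
  al n hn := by
    have h1 := congrArg (Al.mapA S θ) (h.al n hn)
    rwa [map_mul, map_natCast, Al.mapA_act] at h1

private theorem T7_tF (a b : Al S) (g : G) :
    Al.mapA S θ (tF p S x lam a b g) =
      tF p (S.map θ) x (Al.mapA S θ lam) (Al.mapA S θ a) (Al.mapA S θ b) g := by
  rw [tF, tF, Al.mapA_act, map_mul,
    cc_map p (Al.mapA S θ) (Al.act S x) (Al.act (S.map θ) x) (fun a => Al.mapA_act S θ x a),
    Al.mapA_act, Al.mapA_act]

theorem tmul_map (a b : Al S) :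
    Al.mapA S θ (tmul p S x N lam a b) =
      tmul p (S.map θ) x N (Al.mapA S θ lam) (Al.mapA S θ a) (Al.mapA S θ b) := by
  rw [tmul, tmul, map_add, map_mul, map_sum]
  exact congrArg _ (Finset.sum_congr rfl fun q _ => T7_tF θ a b q.out)

theorem S'_map (h : TwD p S x N chi eps lam) :
    (TwD.S' (h.map θ)) = (TwD.S' h).map θ := by
  have hμ : ∀ i j l : G, tmul p (S.map θ) x N (Al.mapA S θ lam) (Al.e (S.map θ) i)
      (Al.e (S.map θ) j) l = θ (tmul p S x N lam (Al.e S i) (Al.e S j) l) := by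
    intro i j l
    rw [← Al.mapA_apply, tmul_map, Al.mapA_e, Al.mapA_e]
  have e : ∀ s t : SC B' G, s.μ = t.μ → s.α = t.α → s.ν = t.ν → s.T = t.T → s.T' = t.T' →
      s = t := by
    rintro ⟨⟩ ⟨⟩ h1 h2 h3 h4 h5
    simp only at h1 h2 h3 h4 h5
    subst h1 h2 h3 h4 h5
    rfl
  refine e _ _ ?_ rfl rfl rfl rfl
  funext i j l
  exact hμ i j l

end

end Pool.Agent.MP_1c8e06_ag.CY
end
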