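import Pool.Agent.Lib.MP_1c8e06_ag.Mg.G009
import Pool.Agent.Lib.MP_1c8e06_ag.AI.A0
import Pool.Agent.Lib.MP_1c8e06_ag.AK.G0

section

/-!
# CY T3: the twisted product

NOTATION.  h : TwD p S x N chi eps lam (TDefs), σ := Al.act S x, cc := cc p σ.  Al.act S is a monoid homomorphism G → (Al S →+* Al S)
(`map_pow`, `Al.act_mul_apply`, `Al.act_one_apply`), so σ ^ k = act (x ^ k).
`charA`: (p : Al S) = Al.cst S (p : B) = 0 (`map_natCast`).   `pow_act`: σ ^ p = act (x ^ p) = act 1 = 1 (`pow_orderOf_eq_one`).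
`x_eps`: NI.fix.   `x_lam`: conj for n = x: x = x ^ (chi x), so chi x ≡ 1 mod p (`pow_inj_mod`/`pow_eq_pow_iff_modEq`), hence
(chi x : Al S) = 1 (charA), and `al`.
`act_n`: n x = x ^ (chi n) n (conj), `Al.act_mul_apply`.   `cc_n`: T2 `cc_twist` with φ = act n, m = chi n.
`tF_mul`: tF (g n) = act g (act n (lam * cc (act n⁻¹ a') (act n⁻¹ b'))) with a' = act g⁻¹ a, b' = act g⁻¹ b ((g n)⁻¹ = n⁻¹ g⁻¹)
= act g (act n lam * (chi n * cc a' b')) (`cc_n`, act n act n⁻¹ = id) = act g (lam * cc a' b') by `al`.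
`act_tF`: (h g)⁻¹ (h a) = g⁻¹ a.
`eps_tF_mem`: for g ∈ N tF g = tF (1 * g) = tF 1 = lam * cc a b, eps * lam = lam.
`eps_tF_not_mem`: lam = eps * lam, so tF g = act g eps * act g (lam * ..) and eps * act g eps = 0 (NI.orth).
`ext_eps`: a = 1 * a = ∑_q act q.out eps * a = ∑_q act q.out (eps * act q.out⁻¹ a) (NI.sum).
`eps_tmul`: act g (tmul a b) = act g a * act g b + ∑_q tF (act g a) (act g b) (g * q.out) (`act_tF`).  Multiply by eps: the term of q
vanishes unless g * q.out ∈ N, i.e. q = (g⁻¹ : G ⧸ N): q.out ∈ g⁻¹ N ⟺ q = QuotientGroup.mk g⁻¹ (`QuotientGroup.eq`, `Quotient.out_eq`);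
for this q the term is lam * cc (act g a) (act g b) (`Finset.sum_eq_single`).
`act_tmul`: `ext_eps` and `eps_tmul` (twice; act g (act g' a) = act (g g') a).
`tmul_comm`: mul_comm and T2 `cc_comm`.   `tmul_add_left`: T2 `cc_add_left`.
`tmul_one`: T2 `cc_one_left` (act g 1 = 1).
`tmul_cst_mul`: act g (cst c * a) = cst c * act g a (`Al.act_cst`) and T2 `cc_fixed_mul_left` (σ (cst c) = cst c).
`tmul_sum_left`: from `tmul_add_left` and tmul 0 b = 0 (use `tmul_cst_mul` with c = 0), `Finset.sum_induction`/`Finset.induction_on`.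
`tmul_eq_sum`: a = ∑_i cst (a i) * e i (`Al.eq_sum`), and the previous ones; coordinates with `Al.sum_apply`, `Al.cst_mul`.
-/

set_option autoImplicit false

open Polynomial
open scoped Classical

namespace Pool.Agent.MP_1c8e06_ag.CY

open Pool.Agent.MP_1c8e06_ag.AJ

noncomputable section

set_option linter.unusedSectionVars false

variable {p : ℕ} [Fact p.Prime] {B : Type} [CommRing B] {G : Type} [Group G] [Fintype G]
  {S : SC B G} {x : G} {N : Subgroup G} {chi : G → ℕ} {eps lam : Al S}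

theorem TwD.charA (h : TwD p S x N chi eps lam) : (p : Al S) = 0 := by
  rw [← map_natCast (Al.cst S) p, h.char, map_zero]

theorem TwD.pow_act (h : TwD p S x N chi eps lam) : (Al.act S x) ^ p = 1 := by
  have h1 : x ^ p = 1 := by
    have h2 := pow_orderOf_eq_one x
    rwa [h.ord] at h2
  rw [← map_pow, h1, map_one]

theorem TwD.x_eps (h : TwD p S x N chi eps lam) : Al.act S x eps = eps :=
  h.ni.fix x h.mem

private theorem T3_chi (h : TwD p S x N chi eps lam) : (chi x : Al S) = 1 := by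
  have h1 := h.conj x h.mem
  rw [mul_inv_cancel_right] at h1
  have h2 : chi x ≡ 1 [MOD orderOf x] := by
    refine pow_eq_pow_iff_modEq.1 ?_
    rw [pow_one]
    exact h1.symm
  rw [h.ord] at h2
  have hp : 1 < p := (Fact.out : p.Prime).one_lt
  have h3 : chi x % p = 1 := by
    have h4 : chi x % p = 1 % p := h2
    rw [h4, Nat.mod_eq_of_lt hp]
  have h5 := Nat.mod_add_div (chi x) p
  rw [h3] at h5
  rw [← h5, Nat.cast_add, Nat.cast_mul, h.charA, zero_mul, add_zero, Nat.cast_one]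

theorem TwD.x_lam (h : TwD p S x N chi eps lam) : Al.act S x lam = lam := by
  have h1 := h.al x h.mem
  rwa [T3_chi h, one_mul] at h1

theorem TwD.act_n (h : TwD p S x N chi eps lam) {n : G} (hn : n ∈ N) (a : Al S) :
    Al.act S n (Al.act S x a) = ((Al.act S x) ^ chi n) (Al.act S n a) := by
  have h1 : n * x = x ^ chi n * n := by
    rw [← h.conj n hn, inv_mul_cancel_right]
  rw [← Al.act_mul_apply, h1, Al.act_mul_apply, map_pow]

theorem TwD.cc_n (h : TwD p S x N chi eps lam) {n : G} (hn : n ∈ N) (a b : Al S) :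
    Al.act S n (cc p (Al.act S x) a b) =
      (chi n : Al S) * cc p (Al.act S x) (Al.act S n a) (Al.act S n b) :=
  cc_twist p h.charA h.pow_act (Al.act S n) (chi n) (fun a => h.act_n hn a) a b

private theorem T3_act_inv (g : G) (a : Al S) : Al.act S g (Al.act S g⁻¹ a) = a := by
  rw [← Al.act_mul_apply, mul_inv_cancel, Al.act_one_apply]

private theorem T3_inv_act (g : G) (a : Al S) : Al.act S g⁻¹ (Al.act S g a) = a := by
  rw [← Al.act_mul_apply, inv_mul_cancel, Al.act_one_apply]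

theorem TwD.tF_mul (h : TwD p S x N chi eps lam) {n : G} (hn : n ∈ N) (a b : Al S) (g : G) :
    tF p S x lam a b (g * n) = tF p S x lam a b g := by
  unfold tF
  rw [Al.act_mul_apply, mul_inv_rev, Al.act_mul_apply, Al.act_mul_apply, map_mul (Al.act S n),
    h.cc_n hn, T3_act_inv, T3_act_inv, ← mul_assoc, mul_comm (Al.act S n lam), h.al n hn]

theorem act_tF (a b : Al S) (g g' : G) :
    Al.act S g' (tF p S x lam a b g) =
      tF p S x lam (Al.act S g' a) (Al.act S g' b) (g' * g) := by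
  unfold tF
  rw [Al.act_mul_apply, mul_inv_rev, Al.act_mul_apply, Al.act_mul_apply, T3_inv_act, T3_inv_act]

theorem TwD.eps_tF_mem (h : TwD p S x N chi eps lam) (a b : Al S) {g : G} (hg : g ∈ N) :
    eps * tF p S x lam a b g = lam * cc p (Al.act S x) a b := by
  have h1 := h.tF_mul hg a b 1
  rw [one_mul] at h1
  rw [h1]
  unfold tF
  rw [inv_one, Al.act_one_apply, Al.act_one_apply, Al.act_one_apply, ← mul_assoc, h.el]

theorem TwD.eps_tF_not_mem (h : TwD p S x N chi eps lam) (a b : Al S) {g : G} (hg : g ∉ N) :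
    eps * tF p S x lam a b g = 0 := by
  unfold tF
  have h1 : Al.act S g lam = Al.act S g eps * Al.act S g lam := by
    rw [← map_mul, h.el]
  rw [map_mul, h1, ← mul_assoc, ← mul_assoc, h.ni.orth g hg, zero_mul, zero_mul]

/-- An element `a` is determined by the `eps * act g a`. -/
theorem NI.ext {a b : Al S} (h : NI S N eps)
    (hab : ∀ g, eps * Al.act S g a = eps * Al.act S g b) : a = b := by
  have key : ∀ c : Al S, c = ∑ q : G ⧸ N, Al.act S q.out (eps * Al.act S q.out⁻¹ c) := by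
    intro c
    have h1 : ∀ q : G ⧸ N, Al.act S q.out (eps * Al.act S q.out⁻¹ c) =
        Al.act S q.out eps * c := by
      intro q
      rw [map_mul, T3_act_inv]
    rw [Finset.sum_congr rfl fun q _ => h1 q, ← Finset.sum_mul, h.sum, one_mul]
  rw [key a, key b]
  refine Finset.sum_congr rfl fun q _ => ?_
  rw [hab]

theorem TwD.eps_tmul (h : TwD p S x N chi eps lam) (a b : Al S) (g : G) :
    eps * Al.act S g (tmul p S x N lam a b) = eps * (Al.act S g a * Al.act S g b) +
      lam * cc p (Al.act S x) (Al.act S g a) (Al.act S g b) := by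
  unfold tmul
  rw [map_add, map_mul, map_sum, mul_add, Finset.mul_sum]
  congr 1
  rw [Finset.sum_eq_single (QuotientGroup.mk g⁻¹ : G ⧸ N)]
  · rw [act_tF]
    refine h.eps_tF_mem _ _ ?_
    have h1 : (QuotientGroup.mk g⁻¹ : G ⧸ N) =
        QuotientGroup.mk (QuotientGroup.mk g⁻¹ : G ⧸ N).out := (Quotient.out_eq _).symm
    have h2 := QuotientGroup.eq.1 h1
    rwa [inv_inv] at h2
  · intro q _ hq
    rw [act_tF]
    refine h.eps_tF_not_mem _ _ ?_
    intro hm
    refine hq ?_
    have h3 : (QuotientGroup.mk g⁻¹ : G ⧸ N) = QuotientGroup.mk q.out := by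
      refine QuotientGroup.eq.2 ?_
      rwa [inv_inv]
    rw [h3]
    exact (Quotient.out_eq _).symm
  · intro hq
    exact absurd (Finset.mem_univ _) hq

theorem TwD.act_tmul (h : TwD p S x N chi eps lam) (a b : Al S) (g : G) :
    Al.act S g (tmul p S x N lam a b) = tmul p S x N lam (Al.act S g a) (Al.act S g b) := by
  refine h.ni.ext fun g' => ?_
  rw [← Al.act_mul_apply, h.eps_tmul, h.eps_tmul, Al.act_mul_apply, Al.act_mul_apply]

theorem tmul_comm (a b : Al S) : tmul p S x N lam a b = tmul p S x N lam b a := by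
  unfold tmul
  have h1 : ∀ q : G ⧸ N, tF p S x lam a b q.out = tF p S x lam b a q.out := by
    intro q
    unfold tF
    rw [cc_comm]
  rw [mul_comm a b, Finset.sum_congr rfl fun q _ => h1 q]

theorem TwD.tmul_one (h : TwD p S x N chi eps lam) (a : Al S) : tmul p S x N lam 1 a = a := by
  unfold tmul tF
  rw [one_mul, Finset.sum_eq_zero, add_zero]
  intro q _
  rw [map_one, cc_one_left p h.charA, mul_zero, map_zero]

theorem tmul_add_left (a a' b : Al S) :
    tmul p S x N lam (a + a') b = tmul p S x N lam a b + tmul p S x N lam a' b := by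
  unfold tmul tF
  have h1 : ∀ q : G ⧸ N, Al.act S q.out (lam * cc p (Al.act S x) (Al.act S q.out⁻¹ (a + a'))
      (Al.act S q.out⁻¹ b)) =
      Al.act S q.out (lam * cc p (Al.act S x) (Al.act S q.out⁻¹ a) (Al.act S q.out⁻¹ b)) +
      Al.act S q.out (lam * cc p (Al.act S x) (Al.act S q.out⁻¹ a') (Al.act S q.out⁻¹ b)) := by
    intro q
    rw [map_add, cc_add_left, mul_add, map_add]
  rw [Finset.sum_congr rfl fun q _ => h1 q, Finset.sum_add_distrib]
  ring

theorem TwD.tmul_cst_mul (h : TwD p S x N chi eps lam) (c : B) (a b : Al S) :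
    tmul p S x N lam (Al.cst S c * a) b = Al.cst S c * tmul p S x N lam a b := by
  unfold tmul tF
  have h1 : ∀ q : G ⧸ N, Al.act S q.out (lam * cc p (Al.act S x)
      (Al.act S q.out⁻¹ (Al.cst S c * a)) (Al.act S q.out⁻¹ b)) =
      Al.cst S c * Al.act S q.out (lam * cc p (Al.act S x) (Al.act S q.out⁻¹ a)
      (Al.act S q.out⁻¹ b)) := by
    intro q
    rw [map_mul (Al.act S q.out⁻¹), Al.act_cst, cc_fixed_mul_left p h.charA _ _ _ _
      (Al.act_cst S x c), mul_left_comm, map_mul (Al.act S q.out), Al.act_cst]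
  rw [Finset.sum_congr rfl fun q _ => h1 q, ← Finset.mul_sum]
  ring

theorem TwD.tmul_sum_left (h : TwD p S x N chi eps lam) {ι : Type} (s : Finset ι)
    (f : ι → Al S) (b : Al S) :
    tmul p S x N lam (∑ i ∈ s, f i) b = ∑ i ∈ s, tmul p S x N lam (f i) b := by
  have h0 : tmul p S x N lam 0 b = 0 := by
    have h1 := h.tmul_cst_mul 0 0 b
    rwa [map_zero, zero_mul, zero_mul] at h1
  induction s using Finset.induction_on with
  | empty => rw [Finset.sum_empty, Finset.sum_empty, h0]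
  | insert i s hi ih => rw [Finset.sum_insert hi, Finset.sum_insert hi, tmul_add_left, ih]

theorem TwD.tmul_eq_sum (h : TwD p S x N chi eps lam) (a b : Al S) (l : G) :
    tmul p S x N lam a b l = ∑ i, ∑ j, a i * b j * tmul p S x N lam (Al.e S i) (Al.e S j) l := by
  have h1 : ∀ a b : Al S, tmul p S x N lam a b =
      ∑ i, Al.cst S (a i) * tmul p S x N lam (Al.e S i) b := by
    intro a b
    have h2 : tmul p S x N lam a b = tmul p S x N lam (∑ i, Al.cst S (a i) * Al.e S i) b := by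
      rw [← Al.eq_sum S a]
    rw [h2, h.tmul_sum_left]
    refine Finset.sum_congr rfl fun i _ => ?_
    rw [h.tmul_cst_mul]
  rw [h1 a b, Al.sum_apply]
  refine Finset.sum_congr rfl fun i _ => ?_
  rw [Al.cst_mul, tmul_comm, h1 b, Al.sum_apply, Finset.mul_sum]
  refine Finset.sum_congr rfl fun j _ => ?_
  rw [Al.cst_mul, tmul_comm, mul_assoc]

end

end Pool.Agent.MP_1c8e06_ag.CY
end

section

/-!
# CY T4: the values of the twisted algebra (main lemma)

NOTATION.  h : TwD p S x N chi eps lam, σ := Al.act S x, φ : Al S →+* A1 with om ^ p - om = φ lam,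
tV g a = φ eps * (PP p σ (act g a)).eval₂ φ om (TDefs).
`tV_mul`: put a' := act g a, b' := act g b, c := cc p σ a' b'.  eps and lam are fixed by σ (T3 `x_eps`, `x_lam`), so by T2 `PP_fixed_mul` and
T3 `eps_tmul`: C eps * PP (act g (tmul a b)) = PP (eps * act g (tmul a b)) = PP (eps * (a' * b') + lam * c) = C eps * PP (a' * b') + C lam * PP c.
Evaluate (eval₂ φ om, a ring homomorphism `eval₂RingHom`): with T2 `PP_mul`: PP (a' b') = PP a' PP b' - (X^p - X) PP c:
φ eps * ev PP(a'b') + φ lam * ev PP c = φ eps (ev PP a' * ev PP b') - φ eps (om^p - om) ev PP c + φ lam ev PP c, and φ eps * (om^p - om) = φ (eps * lam) =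
φ lam.  Finally φ eps * φ eps = φ eps.
`tV_add`, `tV_sum`: T2 `PP_add`, `PP_sum`.   `tV_one`: act g 1 = 1, T2 `PP_one`.   `tV_cst_mul`: act g (cst c * a) = cst c * act g a, σ-fixed, T2 `PP_fixed_mul`.
`tV_fixed`: if σ (eps * act g a) = eps * act g a then φ eps * ev PP (act g a) = ev (C eps * PP (act g a)) = ev PP (eps * act g a) = φ (eps * act g a)
(T2 `PP_fixed_mul`, `PP_fixed`).
`tV_act`: act g (act g' a) = act (g g') a.
`tV_inj`: A1 = AdjoinRoot (X^p - X - C lam), φ = AdjoinRoot.of, om = AdjoinRoot.root.  tV g a = mk (C eps * PP (act g a)) (`AdjoinRoot.mk`: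
eval₂ of and root is mk, `AdjoinRoot.aeval_eq`/`AdjoinRoot.eval₂...`); the polynomial X^p - X - C lam is monic of degree p (compare
AI.asPoly_monic; for degree: every nonzero multiple of a monic polynomial of degree p has degree ≥ p: `Polynomial.Monic.not_dvd_of_natDegree_lt`);
so mk (C eps * (PP (act g a) - PP (act g b))) = 0 with a polynomial of degree < p implies that it is 0; coefficient 0 (T2 `PP_coeff_zero`):
eps * act g a = eps * act g b for all g: `NI.ext`.
`sum_cosets`: every left coset decomposition G = ⨆ (cyclic group of x) r: F : G → M.  If ∑_k F (x^k g) = ∑_k F' (x^k g) for all g then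
∑ F = ∑ F'.  Proof: H := Subgroup.zpowers x, `Subgroup.groupEquivQuotientProdSubgroup : G ≃ (G ⧸ H) × H`; ∑_g F g = ∑_g F (g⁻¹) =
∑_q ∑_{u : H} F ((q.out * u)⁻¹) = ∑_q ∑_{u : H} F (u * q.out⁻¹) (reindex u ↦ u⁻¹) = ∑_q ∑_k F (x^k.val * q.out⁻¹) by the bijection
ZMod p → H, k ↦ x^k.val (`zmodCyclicMulEquiv`-like or `Fintype.sum_bijective`; order of x is p; surjective: x^m = x^(m mod p); injective:
`pow_inj_mod`).
`sum_tV_mul`: ∑_g tV g a * tV g b = φ (eps * ∑_g act g (a * b)): by `sum_cosets` it is enough to sum over x^k g, k ∈ F_p: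
act (x^k g) a = σ^k (act g a); ∑_k φ eps² ev(PP (σ^k a')) ev(PP (σ^k b')) = φ eps * ev (C (∑_k σ^k (a' b'))) (T2 `tr_mul`) =
φ (eps * ∑_k act (x^k g) (a b)).
-/

set_option autoImplicit false

open Polynomial
open scoped Classical

namespace Pool.Agent.MP_1c8e06_ag.CY

open Pool.Agent.MP_1c8e06_ag.AJ

noncomputable section

set_option linter.unusedSectionVars false

variable {p : ℕ} [Fact p.Prime] {B : Type} [CommRing B] {G : Type} [Group G] [Fintype G]
  {S : SC B G} {x : G} {N : Subgroup G} {chi : G → ℕ} {eps lam : Al S}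

private theorem T4_ev {A A1 : Type} [CommRing A] [CommRing A1] (φ : A →+* A1) (om : A1)
    (P : A[X]) : P.eval₂ φ om = eval₂RingHom φ om P := rfl

private theorem T4_C {A A1 : Type} [CommRing A] [CommRing A1] (φ : A →+* A1) (om : A1)
    (a : A) : eval₂RingHom φ om (C a) = φ a := by
  rw [coe_eval₂RingHom, eval₂_C]

private theorem T4_X {A A1 : Type} [CommRing A] [CommRing A1] (φ : A →+* A1) (om : A1) :
    eval₂RingHom φ om X = om := by
  rw [coe_eval₂RingHom, eval₂_X]

/-- The main lemma: the values are multiplicative for the twisted product. -/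
theorem TwD.tV_mul (h : TwD p S x N chi eps lam) {A1 : Type} [CommRing A1] (φ : Al S →+* A1)
    (om : A1) (hom : om ^ p - om = φ lam) (g : G) (a b : Al S) :
    tV p x eps φ om g (tmul p S x N lam a b) = tV p x eps φ om g a * tV p x eps φ om g b := by
  have hA := h.charA
  have hσ := h.pow_act
  have h1 : C eps * PP p (Al.act S x) (Al.act S g (tmul p S x N lam a b)) =
      C eps * PP p (Al.act S x) (Al.act S g a * Al.act S g b) +
        C lam * PP p (Al.act S x) (cc p (Al.act S x) (Al.act S g a) (Al.act S g b)) := by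
    rw [← PP_fixed_mul p hA _ _ _ h.x_eps, h.eps_tmul, PP_add, PP_fixed_mul p hA _ _ _ h.x_eps,
      PP_fixed_mul p hA _ _ _ h.x_lam]
  have h2 := (PP_mul p hA hσ (Al.act S g a) (Al.act S g b)).1
  have h3 := congrArg (eval₂RingHom φ om) h1
  have h4 := congrArg (eval₂RingHom φ om) h2
  rw [map_add, map_mul, map_mul, map_mul, T4_C, T4_C] at h3
  rw [map_mul, map_add, map_mul, map_sub, map_pow, T4_X, hom] at h4
  have h5 : φ eps * φ eps = φ eps := by rw [← map_mul, h.ni.idem]
  have h6 : φ eps * φ lam = φ lam := by rw [← map_mul, h.el]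
  unfold tV
  rw [T4_ev, T4_ev, T4_ev, h3]
  calc φ eps * eval₂RingHom φ om (PP p (Al.act S x) (Al.act S g a * Al.act S g b)) +
        φ lam * eval₂RingHom φ om
          (PP p (Al.act S x) (cc p (Al.act S x) (Al.act S g a) (Al.act S g b)))
      = φ eps * (eval₂RingHom φ om (PP p (Al.act S x) (Al.act S g a * Al.act S g b)) +
        φ lam * eval₂RingHom φ om
          (PP p (Al.act S x) (cc p (Al.act S x) (Al.act S g a) (Al.act S g b)))) := by
        rw [mul_add, ← mul_assoc, h6]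
    _ = φ eps * (eval₂RingHom φ om (PP p (Al.act S x) (Al.act S g a)) *
        eval₂RingHom φ om (PP p (Al.act S x) (Al.act S g b))) := by rw [h4]
    _ = φ eps * φ eps * (eval₂RingHom φ om (PP p (Al.act S x) (Al.act S g a)) *
        eval₂RingHom φ om (PP p (Al.act S x) (Al.act S g b))) := by rw [h5]
    _ = _ := by ring

theorem tV_add {A1 : Type} [CommRing A1] (φ : Al S →+* A1) (om : A1) (g : G) (a b : Al S) :
    tV p x eps φ om g (a + b) = tV p x eps φ om g a + tV p x eps φ om g b := by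
  unfold tV
  rw [map_add, PP_add, eval₂_add, mul_add]

theorem tV_sum {A1 : Type} [CommRing A1] (φ : Al S →+* A1) (om : A1) (g : G) {ι : Type}
    (s : Finset ι) (f : ι → Al S) :
    tV p x eps φ om g (∑ i ∈ s, f i) = ∑ i ∈ s, tV p x eps φ om g (f i) := by
  unfold tV
  rw [map_sum, PP_sum, T4_ev, map_sum, Finset.mul_sum]
  rfl

theorem TwD.tV_one (h : TwD p S x N chi eps lam) {A1 : Type} [CommRing A1] (φ : Al S →+* A1)
    (om : A1) (g : G) : tV p x eps φ om g 1 = φ eps := by
  unfold tV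
  rw [map_one, PP_one p h.charA, eval₂_one, mul_one]

theorem TwD.tV_cst_mul (h : TwD p S x N chi eps lam) {A1 : Type} [CommRing A1]
    (φ : Al S →+* A1) (om : A1) (g : G) (c : B) (a : Al S) :
    tV p x eps φ om g (Al.cst S c * a) = φ (Al.cst S c) * tV p x eps φ om g a := by
  unfold tV
  rw [map_mul, Al.act_cst, PP_fixed_mul p h.charA _ _ _ (Al.act_cst S x c), eval₂_mul, eval₂_C]
  ring

theorem TwD.tV_fixed (h : TwD p S x N chi eps lam) {A1 : Type} [CommRing A1] (φ : Al S →+* A1)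
    (om : A1) (g : G) (a : Al S) (ha : Al.act S x (eps * Al.act S g a) = eps * Al.act S g a) :
    tV p x eps φ om g a = φ (eps * Al.act S g a) := by
  unfold tV
  have h1 : C eps * PP p (Al.act S x) (Al.act S g a) = C (eps * Al.act S g a) := by
    rw [← PP_fixed_mul p h.charA _ _ _ h.x_eps, PP_fixed p h.charA _ _ ha]
  have h2 := congrArg (eval₂RingHom φ om) h1
  rw [map_mul, T4_C, T4_C] at h2
  exact h2

theorem tV_act {A1 : Type} [CommRing A1] (φ : Al S →+* A1) (om : A1) (g g' : G) (a : Al S) :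
    tV p x eps φ om g (Al.act S g' a) = tV p x eps φ om (g * g') a := by
  unfold tV
  rw [Al.act_mul_apply]

/-- The generic values determine the element. -/
theorem TwD.tV_inj (h : TwD p S x N chi eps lam) {a b : Al S}
    (hab : ∀ g, tV p x eps (AdjoinRoot.of (X ^ p - X - C lam)) (AdjoinRoot.root _) g a =
      tV p x eps (AdjoinRoot.of (X ^ p - X - C lam)) (AdjoinRoot.root _) g b) : a = b := by
  rcases subsingleton_or_nontrivial (Al S) with hs | hn
  · exact Subsingleton.elim _ _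
  have hA := h.charA
  have hp : 1 < p := (Fact.out : p.Prime).one_lt
  have hq : (X + C lam : (Al S)[X]).natDegree ≤ 1 :=
    (natDegree_add_le _ _).trans (max_le natDegree_X_le (by rw [natDegree_C]; exact Nat.zero_le _))
  have hf : (X ^ p - X - C lam : (Al S)[X]) = X ^ p - (X + C lam) := by ring
  have hmon : (X ^ p - X - C lam : (Al S)[X]).Monic := by
    rw [hf]
    refine monic_X_pow_sub ?_
    refine lt_of_le_of_lt degree_le_natDegree ?_
    exact_mod_cast lt_of_le_of_lt hq hp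
  have hdeg : (X ^ p - X - C lam : (Al S)[X]).natDegree = p := by
    rw [hf, natDegree_sub_eq_left_of_natDegree_lt, natDegree_X_pow]
    rw [natDegree_X_pow]
    exact lt_of_le_of_lt hq hp
  have key : ∀ g (c : Al S), tV p x eps (AdjoinRoot.of (X ^ p - X - C lam)) (AdjoinRoot.root _) g c =
      AdjoinRoot.mk (X ^ p - X - C lam) (C eps * PP p (Al.act S x) (Al.act S g c)) := by
    intro g c
    unfold tV
    rw [map_mul, AdjoinRoot.mk_C, ← AdjoinRoot.aeval_eq (PP p (Al.act S x) (Al.act S g c)),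
      aeval_def, AdjoinRoot.algebraMap_eq]
  refine h.ni.ext fun g => ?_
  have h1 := hab g
  rw [key, key, ← sub_eq_zero, ← map_sub, AdjoinRoot.mk_eq_zero] at h1
  have h2 : C eps * PP p (Al.act S x) (Al.act S g a) -
      C eps * PP p (Al.act S x) (Al.act S g b) = 0 := by
    by_contra h0
    refine hmon.not_dvd_of_natDegree_lt h0 ?_ h1
    rw [hdeg]
    refine lt_of_le_of_lt (natDegree_sub_le _ _) (max_lt ?_ ?_)
    · exact lt_of_le_of_lt (natDegree_C_mul_le _ _) (PP_natDegree_lt p _ _)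
    · exact lt_of_le_of_lt (natDegree_C_mul_le _ _) (PP_natDegree_lt p _ _)
  have h3 := congrArg (fun P : (Al S)[X] => P.coeff 0) (sub_eq_zero.1 h2)
  simpa only [coeff_C_mul, PP_coeff_zero p hA] using h3

/-- Existence of the generic point. -/
theorem root_pow (lam : Al S) :
    (AdjoinRoot.root (X ^ p - X - C lam : (Al S)[X])) ^ p - AdjoinRoot.root _ =
      AdjoinRoot.of (X ^ p - X - C lam) lam := by
  have h := AdjoinRoot.mk_self (f := (X ^ p - X - C lam : (Al S)[X]))
  rw [map_sub, map_sub, map_pow, AdjoinRoot.mk_X, AdjoinRoot.mk_C, sub_eq_zero] at h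
  exact h

theorem sum_cosets (hx : orderOf x = p) {M : Type} [AddCommGroup M] (F F' : G → M)
    (h : ∀ g, ∑ k : ZMod p, F (x ^ k.val * g) = ∑ k : ZMod p, F' (x ^ k.val * g)) :
    ∑ g, F g = ∑ g, F' g := by
  have hp : 0 < p := (Fact.out : p.Prime).pos
  set c : G → Finset G := fun g => Finset.univ.image (fun k : ZMod p => x ^ k.val * g) with hc
  have hmem : ∀ (g : G) (m : ℕ), x ^ m * g ∈ c g := by
    intro g m
    refine Finset.mem_image.2 ⟨(m : ZMod p), Finset.mem_univ _, ?_⟩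
    rw [ZMod.val_natCast]
    have h1 := pow_mod_orderOf x m
    rw [hx] at h1
    rw [h1]
  have hself : ∀ g, g ∈ c g := by
    intro g
    have h1 := hmem g 0
    rwa [pow_zero, one_mul] at h1
  have hsub : ∀ g g0, g ∈ c g0 → c g ⊆ c g0 := by
    intro g g0 hg u hu
    obtain ⟨k, -, rfl⟩ := Finset.mem_image.1 hg
    obtain ⟨l, -, rfl⟩ := Finset.mem_image.1 hu
    rw [← mul_assoc, ← pow_add]
    exact hmem g0 _
  have hsymm : ∀ g g0, g ∈ c g0 → g0 ∈ c g := by
    intro g g0 hg
    obtain ⟨k, -, rfl⟩ := Finset.mem_image.1 hg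
    have h1 := hmem (x ^ k.val * g0) (p - k.val)
    have h2 : x ^ p = 1 := by
      have h3 := pow_orderOf_eq_one x
      rwa [hx] at h3
    rw [← mul_assoc, ← pow_add, Nat.sub_add_cancel (ZMod.val_lt k).le, h2, one_mul] at h1
    exact h1
  have hfib : ∀ g g0, c g = c g0 ↔ g ∈ c g0 := by
    intro g g0
    constructor
    · intro h1
      rw [← h1]
      exact hself g
    · intro h1
      exact Finset.Subset.antisymm (hsub g g0 h1) (hsub g0 g (hsymm g g0 h1))
  have hsum : ∀ (F : G → M) (g0 : G), ∑ g ∈ Finset.univ with c g = c g0, F g =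
      ∑ k : ZMod p, F (x ^ k.val * g0) := by
    intro F g0
    have h1 : (Finset.univ.filter fun g => c g = c g0) = c g0 := by
      ext g
      rw [Finset.mem_filter, hfib]
      exact ⟨fun h2 => h2.2, fun h2 => ⟨Finset.mem_univ _, h2⟩⟩
    rw [h1, hc, Finset.sum_image]
    intro k _ l _ hkl
    have h2 : x ^ k.val = x ^ l.val := mul_right_cancel hkl
    have h3 := pow_inj_mod.1 h2
    rw [hx, Nat.mod_eq_of_lt (ZMod.val_lt k), Nat.mod_eq_of_lt (ZMod.val_lt l)] at h3
    exact ZMod.val_injective p h3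
  rw [← Finset.sum_fiberwise_of_maps_to (t := Finset.univ.image c)
      (fun g hg => Finset.mem_image_of_mem c hg) F,
    ← Finset.sum_fiberwise_of_maps_to (t := Finset.univ.image c)
      (fun g hg => Finset.mem_image_of_mem c hg) F']
  refine Finset.sum_congr rfl fun j hj => ?_
  obtain ⟨g0, -, rfl⟩ := Finset.mem_image.1 hj
  rw [hsum, hsum, h]

theorem TwD.sum_tV_mul (h : TwD p S x N chi eps lam) {A1 : Type} [CommRing A1]
    (φ : Al S →+* A1) (om : A1) (a b : Al S) :
    ∑ g, tV p x eps φ om g a * tV p x eps φ om g b = φ (eps * ∑ g, Al.act S g (a * b)) := by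
  rw [Finset.mul_sum, map_sum]
  refine sum_cosets h.ord _ _ fun g => ?_
  have hA := h.charA
  have hσ := h.pow_act
  have hact : ∀ (k : ZMod p) (u : Al S), Al.act S (x ^ k.val * g) u =
      ((Al.act S x) ^ k.val) (Al.act S g u) := by
    intro k u
    rw [Al.act_mul_apply, map_pow]
  have h5 : φ eps * φ eps = φ eps := by rw [← map_mul, h.ni.idem]
  have h1 := congrArg (eval₂RingHom φ om) (tr_mul p hA hσ (Al.act S g a) (Al.act S g b))
  rw [T4_C, map_sum] at h1
  have h2 : ∀ k : ZMod p, tV p x eps φ om (x ^ k.val * g) a * tV p x eps φ om (x ^ k.val * g) b =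
      φ eps * eval₂RingHom φ om (PP p (Al.act S x) (((Al.act S x) ^ k.val) (Al.act S g a)) *
        PP p (Al.act S x) (((Al.act S x) ^ k.val) (Al.act S g b))) := by
    intro k
    unfold tV
    rw [hact, hact, T4_ev, T4_ev, map_mul]
    calc _ = φ eps * φ eps * (eval₂RingHom φ om
          (PP p (Al.act S x) (((Al.act S x) ^ k.val) (Al.act S g a))) * eval₂RingHom φ om
          (PP p (Al.act S x) (((Al.act S x) ^ k.val) (Al.act S g b)))) := by ring
      _ = _ := by rw [h5]
  rw [Finset.sum_congr rfl fun k _ => h2 k, ← Finset.mul_sum, h1, map_sum, Finset.mul_sum]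
  refine Finset.sum_congr rfl fun k _ => ?_
  rw [hact, map_mul φ eps, map_mul (Al.act S g)]

end

end Pool.Agent.MP_1c8e06_ag.CY
end

section

/-!
# CY T8: bounds in Galois algebras over a complete ultrametric field; the root om

E is a complete ultrametric normed field, S : SC E G, BdS S M: M ≥ 1 bounds μ, α, ν (TDefs).  All sums are bounded by the maximum of the terms
(`IsUltrametricDist.norm_sum_le_of_forall_le_of_nonneg` or induction with `IsUltrametricDist.norm_add_le_max`).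
`bd_mul`: (a b) l = ∑_i ∑_j a i * b j * μ i j l (`Al.mul_apply`).   `bd_act`: (act g a) m = ∑_l a l * α g l m (`Al.act_apply`).
`bd_pow`: M ‖(a^n) l‖ ≤ (M C)^n for n ≥ 1: induction, `bd_mul` with A = (M C)^n / M.
`bd_nat`: ‖(n : E)‖ ≤ 1 for natural numbers n (ultrametric); (n : Al S) * a has the coordinates n * a l (`Al.cst_mul`, n = cst n).
`exists_om`: lam ≠ … let q := M * C < 1 where ‖lam l‖ ≤ C (take C the maximum of the ‖lam l‖).  The series om_l := - ∑_{k ≥ 0} (lam^(p^k)) l converges (E complete,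
ultrametric: terms ≤ q^(p^k) / M → 0; or geometric series: ≤ q^k / M, `summable_of_norm_bounded`, q^(p^k) ≤ q^k... as p^k ≥ k).  Put s_n := - ∑_{k<n} lam^(p^k) ∈ Al S;
(p : Al S) = 0 so (a + b)^p = a^p + b^p in Al S (T3 `charA`; `exists_add_pow_prime_eq`), (-a)^p = -(a^p) (also p = 2 since 2 = 0), so
s_n^p - s_n = lam - lam^(p^n).  The coordinates of s_n converge to those of om; multiplication is continuous in the coordinates (`Al.mul_apply`: finite sums),
so a ↦ a^p is continuous for the coordinates: om^p - om = lam.  eps * s_n = s_n for n ≥ 0 because eps * lam^(m) = lam^m for m ≥ 1 (eps * lam = lam).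
For n ∈ N: (chi n) * act n (lam^(p^k)) = lam^(p^k): take the p^k-th power of `TwD.al`: (chi n)^(p^k) = chi n in Al S (Fermat: chi n ^ p ≡ chi n mod p, (p : Al S) =
0).  So (chi n) * act n s_n = s_n, and the limit.  Norms: ‖(lam^(p^k)) l‖ ≤ (M C)^(p^k) / M ≤ C (as M C < 1), so ‖om l‖ ≤ C.
-/

set_option autoImplicit false

open Polynomial
open scoped Classical

namespace Pool.Agent.MP_1c8e06_ag.CY

open Pool.Agent.MP_1c8e06_ag.AJ

noncomputable section

set_option linter.unusedSectionVars false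

variable {E : Type} [NormedField E] [IsUltrametricDist E] {G : Type} [Group G] [Fintype G]
  {S : SC E G} {M : ℝ}

theorem bd_mul (hM : BdS S M) {a b : Al S} {A C : ℝ} (hA : 0 ≤ A) (hC : 0 ≤ C)
    (ha : ∀ l, ‖a l‖ ≤ A) (hb : ∀ l, ‖b l‖ ≤ C) (l : G) : ‖(a * b) l‖ ≤ M * A * C := by
  have hM0 : 0 ≤ M := zero_le_one.trans hM.1
  rw [Al.mul_apply]
  refine IsUltrametricDist.norm_sum_le_of_forall_le_of_nonneg (by positivity) fun i _ => ?_
  refine IsUltrametricDist.norm_sum_le_of_forall_le_of_nonneg (by positivity) fun j _ => ?_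
  rw [norm_mul, norm_mul]
  calc ‖a i‖ * ‖b j‖ * ‖S.μ i j l‖ ≤ A * C * M :=
        mul_le_mul (mul_le_mul (ha i) (hb j) (norm_nonneg _) hA) (hM.2.1 i j l) (norm_nonneg _)
          (mul_nonneg hA hC)
    _ = M * A * C := by ring

theorem bd_act (hM : BdS S M) {a : Al S} {A : ℝ} (hA : 0 ≤ A) (ha : ∀ l, ‖a l‖ ≤ A) (g l : G) :
    ‖Al.act S g a l‖ ≤ M * A := by
  have hM0 : 0 ≤ M := zero_le_one.trans hM.1
  rw [Al.act_apply]
  refine IsUltrametricDist.norm_sum_le_of_forall_le_of_nonneg (by positivity) fun i _ => ?_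
  rw [norm_mul]
  calc ‖a i‖ * ‖S.α g i l‖ ≤ A * M :=
        mul_le_mul (ha i) (hM.2.2.1 g i l) (norm_nonneg _) hA
    _ = M * A := by ring

theorem bd_pow (hM : BdS S M) {a : Al S} {A : ℝ} (hA : 0 ≤ A) (ha : ∀ l, ‖a l‖ ≤ A) {n : ℕ}
    (hn : 1 ≤ n) (l : G) : M * ‖(a ^ n) l‖ ≤ (M * A) ^ n := by
  have hM0 : 0 < M := lt_of_lt_of_le zero_lt_one hM.1
  induction n, hn using Nat.le_induction generalizing l with
  | base =>
    rw [pow_one, pow_one]
    exact mul_le_mul_of_nonneg_left (ha l) hM0.le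
  | succ n hn ih =>
    have h1 : ∀ l, ‖(a ^ n) l‖ ≤ (M * A) ^ n / M := by
      intro l
      rw [le_div_iff₀ hM0, mul_comm]
      exact ih l
    have h2 := bd_mul hM (by positivity) hA h1 ha l
    rw [← pow_succ] at h2
    calc M * ‖(a ^ (n + 1)) l‖ ≤ M * (M * ((M * A) ^ n / M) * A) :=
          mul_le_mul_of_nonneg_left h2 hM0.le
      _ = (M * A) ^ (n + 1) := by
          rw [pow_succ]
          field_simp

theorem bd_nat_mul {a : Al S} {A : ℝ} (ha : ∀ l, ‖a l‖ ≤ A) (n : ℕ) (l : G) :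
    ‖((n : Al S) * a) l‖ ≤ A := by
  have h1 : (n : Al S) = Al.cst S (n : E) := (map_natCast (Al.cst S) n).symm
  rw [h1, Al.cst_mul, norm_mul]
  have h2 := IsUltrametricDist.norm_natCast_le_one E n
  calc ‖(n : E)‖ * ‖a l‖ ≤ 1 * ‖a l‖ := mul_le_mul_of_nonneg_right h2 (norm_nonneg _)
    _ ≤ A := by rw [one_mul]; exact ha l

/-- Convergence of the coordinates. -/
private def T8_lim (u : ℕ → Al S) (v : Al S) : Prop :=
  ∀ l, Filter.Tendsto (fun n => u n l) Filter.atTop (nhds (v l))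

private theorem T8_lim_const (v : Al S) : T8_lim (fun _ => v) v := fun _ => tendsto_const_nhds

private theorem T8_lim_mul {u u' : ℕ → Al S} {v v' : Al S} (h : T8_lim u v) (h' : T8_lim u' v') :
    T8_lim (fun n => u n * u' n) (v * v') := by
  intro l
  simp only [Al.mul_apply]
  exact tendsto_finsetSum _ fun i _ => tendsto_finsetSum _ fun j _ =>
    ((h i).mul (h' j)).mul tendsto_const_nhds

private theorem T8_lim_pow {u : ℕ → Al S} {v : Al S} (h : T8_lim u v) (k : ℕ) :
    T8_lim (fun n => u n ^ k) (v ^ k) := by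
  induction k with
  | zero => simp only [pow_zero]; exact T8_lim_const 1
  | succ k ih => simp only [pow_succ]; exact T8_lim_mul ih h

private theorem T8_lim_sub {u u' : ℕ → Al S} {v v' : Al S} (h : T8_lim u v) (h' : T8_lim u' v') :
    T8_lim (fun n => u n - u' n) (v - v') := by
  intro l
  simp only [Al.sub_apply]
  exact (h l).sub (h' l)

private theorem T8_lim_act {u : ℕ → Al S} {v : Al S} (h : T8_lim u v) (g : G) :
    T8_lim (fun n => Al.act S g (u n)) (Al.act S g v) := by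
  intro l
  simp only [Al.act_apply]
  exact tendsto_finsetSum _ fun i _ => (h i).mul tendsto_const_nhds

private theorem T8_lim_unique {u : ℕ → Al S} {v v' : Al S} (h : T8_lim u v) (h' : T8_lim u v') :
    v = v' :=
  Al.ext fun l => tendsto_nhds_unique (h l) (h' l)

/-- The Frobenius of a ring in which `p = 0`. -/
private def T8_frob (p : ℕ) [Fact p.Prime] {A : Type} [CommRing A] (hA : (p : A) = 0) :
    A →+* A where
  toFun a := a ^ p
  map_one' := one_pow _
  map_mul' a b := mul_pow a b p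
  map_zero' := zero_pow (Fact.out : p.Prime).ne_zero
  map_add' a b := by
    obtain ⟨r, hr⟩ := exists_add_pow_prime_eq (Fact.out : p.Prime) a b
    rw [hr, hA]
    ring

private theorem T8_frob_apply (p : ℕ) [Fact p.Prime] {A : Type} [CommRing A] (hA : (p : A) = 0)
    (a : A) : T8_frob p hA a = a ^ p := rfl

private theorem T8_nat_pow (p : ℕ) [Fact p.Prime] {A : Type} [CommRing A] (hA : (p : A) = 0)
    (n : ℕ) : (n : A) ^ p = (n : A) := by
  rw [← T8_frob_apply p hA, map_natCast]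

private theorem T8_sum (p : ℕ) [Fact p.Prime] {A : Type} [CommRing A] (hA : (p : A) = 0)
    (lam : A) (n : ℕ) :
    (-∑ k ∈ Finset.range n, lam ^ p ^ k) ^ p - (-∑ k ∈ Finset.range n, lam ^ p ^ k) =
      lam - lam ^ p ^ n := by
  rw [← T8_frob_apply p hA, map_neg, map_sum]
  induction n with
  | zero => simp
  | succ n ih =>
    rw [Finset.sum_range_succ, Finset.sum_range_succ, T8_frob_apply, ← pow_mul, ← pow_succ]
    have h1 : lam - lam ^ p ^ (n + 1) = (lam - lam ^ p ^ n) + (lam ^ p ^ n - lam ^ p ^ (n + 1)) := by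
      ring
    rw [h1, ← ih]
    ring

theorem exists_om [CompleteSpace E] {p : ℕ} [Fact p.Prime] {x : G} {N : Subgroup G}
    {chi : G → ℕ} {eps lam : Al S} (h : TwD p S x N chi eps lam) (hM : BdS S M) {C : ℝ}
    (hC : 0 ≤ C) (hl : ∀ l, ‖lam l‖ ≤ C) (hMC : M * C < 1) :
    ∃ om : Al S, om ^ p - om = lam ∧ eps * om = om ∧
      (∀ n ∈ N, (chi n : Al S) * Al.act S n om = om) ∧ ∀ l, ‖om l‖ ≤ C := by
  have hM0 : 0 < M := lt_of_lt_of_le zero_lt_one hM.1
  have hp : p.Prime := Fact.out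
  have hq0 : 0 ≤ M * C := mul_nonneg hM0.le hC
  have hpk : ∀ k, 1 ≤ p ^ k := fun k => Nat.one_le_pow _ _ hp.pos
  have hPM : ∀ k l, M * ‖(lam ^ p ^ k) l‖ ≤ (M * C) ^ p ^ k := fun k l =>
    bd_pow hM hC hl (hpk k) l
  have hPC : ∀ k l, ‖(lam ^ p ^ k) l‖ ≤ C := by
    intro k l
    have h1 : (M * C) ^ p ^ k ≤ (M * C) ^ 1 := pow_le_pow_of_le_one hq0 hMC.le (hpk k)
    rw [pow_one] at h1
    exact le_of_mul_le_mul_left ((hPM k l).trans h1) hM0
  have hPq : ∀ k l, ‖(lam ^ p ^ k) l‖ ≤ (M * C) ^ k := by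
    intro k l
    have h1 : (M * C) ^ p ^ k ≤ (M * C) ^ k :=
      pow_le_pow_of_le_one hq0 hMC.le (Nat.lt_pow_self hp.one_lt).le
    have h2 : ‖(lam ^ p ^ k) l‖ ≤ M * ‖(lam ^ p ^ k) l‖ :=
      le_mul_of_one_le_left (norm_nonneg _) hM.1
    exact h2.trans ((hPM k l).trans h1)
  have hsum : ∀ l, Summable fun k => (lam ^ p ^ k) l := fun l =>
    Summable.of_norm_bounded (summable_geometric_of_lt_one hq0 hMC) fun k => hPq k l
  set s : ℕ → Al S := fun n => -∑ k ∈ Finset.range n, lam ^ p ^ k with hs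
  set om : Al S := fun l => -∑' k, (lam ^ p ^ k) l with hom
  have hlim : T8_lim s om := by
    intro l
    have h1 : ∀ n, s n l = -∑ k ∈ Finset.range n, (lam ^ p ^ k) l := by
      intro n
      change (-∑ k ∈ Finset.range n, lam ^ p ^ k : Al S) l = _
      rw [Al.neg_apply, Al.sum_apply]
    simp only [h1]
    exact (hsum l).hasSum.tendsto_sum_nat.neg
  have hP0 : T8_lim (fun n => lam ^ p ^ n) 0 := fun l => (hsum l).tendsto_atTop_zero
  refine ⟨om, ?_, ?_, ?_, ?_⟩
  · have h1 := T8_lim_sub (T8_lim_pow hlim p) hlim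
    have h2 : (fun n => s n ^ p - s n) = fun n => lam - lam ^ p ^ n := by
      funext n
      exact T8_sum p h.charA lam n
    rw [h2] at h1
    have h3 := T8_lim_sub (T8_lim_const lam) hP0
    rw [sub_zero] at h3
    exact T8_lim_unique h1 h3
  · have h1 := T8_lim_mul (T8_lim_const eps) hlim
    have h2 : (fun n => eps * s n) = s := by
      funext n
      change eps * -∑ k ∈ Finset.range n, lam ^ p ^ k = -∑ k ∈ Finset.range n, lam ^ p ^ k
      rw [mul_neg, Finset.mul_sum]
      refine congrArg Neg.neg (Finset.sum_congr rfl fun k _ => ?_)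
      obtain ⟨m, hm⟩ := Nat.exists_eq_succ_of_ne_zero (Nat.one_le_iff_ne_zero.1 (hpk k))
      rw [hm, pow_succ, mul_left_comm, h.el]
    rw [h2] at h1
    exact T8_lim_unique h1 hlim
  · intro n hn
    have hk : ∀ k, (chi n : Al S) * Al.act S n (lam ^ p ^ k) = lam ^ p ^ k := by
      intro k
      induction k with
      | zero => rw [pow_zero, pow_one]; exact h.al n hn
      | succ k ih =>
        rw [pow_succ p k, pow_mul, map_pow]
        calc (chi n : Al S) * Al.act S n (lam ^ p ^ k) ^ p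
            = ((chi n : Al S) * Al.act S n (lam ^ p ^ k)) ^ p := by
              rw [mul_pow, T8_nat_pow p h.charA]
          _ = _ := by rw [ih]
    have h1 := T8_lim_mul (T8_lim_const (chi n : Al S)) (T8_lim_act hlim n)
    have h2 : (fun m => (chi n : Al S) * Al.act S n (s m)) = s := by
      funext m
      change (chi n : Al S) * Al.act S n (-∑ k ∈ Finset.range m, lam ^ p ^ k) =
        -∑ k ∈ Finset.range m, lam ^ p ^ k
      rw [map_neg, map_sum, mul_neg, Finset.mul_sum]
      exact congrArg Neg.neg (Finset.sum_congr rfl fun k _ => hk k)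
    rw [h2] at h1
    exact T8_lim_unique h1 hlim
  · intro l
    refine le_of_tendsto (hlim l).norm (Filter.Eventually.of_forall fun n => ?_)
    change ‖(-∑ k ∈ Finset.range n, lam ^ p ^ k : Al S) l‖ ≤ C
    rw [Al.neg_apply, Al.sum_apply, norm_neg]
    exact IsUltrametricDist.norm_sum_le_of_forall_le_of_nonneg hC fun k _ => hPC k l

end

end Pool.Agent.MP_1c8e06_ag.CY
end

section

/-!
# CY T6a: Artin-Schreier values, coordinates

NOTATION.  L = LaurentSeries K, f := zinv K F0, EE = AI.EE p F0 = L[w]/(w^p - w - f), w = AI.yy p F0.  qE a := ∑_{j<p} C (coordE a j) * X^j in L[X]: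
the polynomial of degree < p with qE a (w) = a.  thE zeta w' a = (qE a)(w') (TDefs thE).  API of coordE: AI/A0 (`eq_sum_coordE`, `coordE_sum_yy`,
`coordE_add`, `coordE_ofL_mul`, `extE`).
`qE_root`: `eq_sum_coordE`.   `thE_eq`: definition, eval₂ of the sum.   `qE_unique`: Q = ∑_{j<p} C (Q.coeff j) X^j (`as_sum_range'`), so
a = ∑ ofL (Q.coeff j) yy^j and `coordE_sum_yy`.   `charEE`: (p : EE) = ofL (p : L) = 0 (L has characteristic p).
`thE_*`: from the linearity of coordE; `thE_ofL`: coordE (ofL c) j = c for j = 0 and 0 else (`coordE_ofL`).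
Let A be a ring with (p : A) = 0, σ : A →+* A, σ ^ p = 1, rho : A →+* EE with rho (σ a) = tau (rho a).
`qE_shift`: (PP σ a).map rho = ((qE (rho a)).map ofL).comp (X + C w): both sides have degree < p; value at j ∈ F_p: on the left rho (σ^j a) (T2 `PP_eval`)
= tau^j (rho a); on the right (qE (rho a))(w + j) = tau^j ((qE (rho a))(w)) = tau^j (rho a) (tau fixes ofL c, tau^j w = w + j).  T1 `poly_ext` for
A := EE.
`qE_mul`: Let D := qE (rho a) * qE (rho b) - qE (rho (a * b)), natDegree D ≤ 2p - 2, D(w) = 0 in EE = AdjoinRoot (asPoly p F0), so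
D = asPoly p F0 * R (`AdjoinRoot.mk_eq_zero`; asPoly = X^p - X - C f, monic of degree p), natDegree R ≤ p - 2 < p (or R = 0).
Map to EE[X] and compose with X + C w (frob: (X + C w)^p - (X + C w) - C (ofL f) = X^p - X, since (p : EE) = 0 (`exists_add_pow_prime_eq`) and w^p - w =
ofL f): by `qE_shift` the left side becomes (PP σ a * PP σ b - PP σ (a*b)).map rho = ((X^p - X) * PP σ (cc a b)).map rho (T2 `PP_mul`), so
(X^p - X) * (R.map ofL).comp (X + C w) = (X^p - X) * (PP σ (cc a b)).map rho; T1 `frob_cancel`; and by `qE_shift` the right factor is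
((qE (rho (cc a b))).map ofL).comp (X + C w).  Evaluate at X = 0: R(w) = (qE (rho (cc a b)))(w), both degrees < p: R = qE (rho (cc a b)) (`qE_unique`).
-/

set_option autoImplicit false

open Polynomial
open scoped Classical

namespace Pool.Agent.MP_1c8e06_ag.CY

open Pool.Agent.MP_1c8e06_ag.AJ

noncomputable section

set_option linter.unusedSectionVars false

variable {p : ℕ} [Fact p.Prime] {K : Type} [Field K] [CharP K p] {F0 : K[X]}
  {E' : Type} [CommRing E'] (zeta : LaurentSeries K →+* E') (w' : E')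

theorem thE_add (a b : AI.EE p F0) :
    thE p F0 zeta w' (a + b) = thE p F0 zeta w' a + thE p F0 zeta w' b := by
  unfold thE
  rw [← Finset.sum_add_distrib]
  refine Finset.sum_congr rfl fun j _ => ?_
  rw [AI.coordE_add, map_add, add_mul]

theorem thE_sum {ι : Type} (s : Finset ι) (f : ι → AI.EE p F0) :
    thE p F0 zeta w' (∑ i ∈ s, f i) = ∑ i ∈ s, thE p F0 zeta w' (f i) := by
  unfold thE
  rw [Finset.sum_comm]
  refine Finset.sum_congr rfl fun j _ => ?_
  rw [AI.coordE_sum, map_sum, Finset.sum_mul]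

theorem thE_ofL_mul (c : LaurentSeries K) (a : AI.EE p F0) :
    thE p F0 zeta w' (AI.ofL p F0 c * a) = zeta c * thE p F0 zeta w' a := by
  unfold thE
  rw [Finset.mul_sum]
  refine Finset.sum_congr rfl fun j _ => ?_
  rw [AI.coordE_ofL_mul, map_mul, mul_assoc]

theorem thE_ofL (c : LaurentSeries K) : thE p F0 zeta w' (AI.ofL p F0 c) = zeta c := by
  unfold thE
  have hp : p.Prime := Fact.out
  rw [Finset.sum_eq_single 0]
  · rw [AI.coordE_ofL, if_pos rfl, pow_zero, mul_one]
  · intro j _ hj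
    rw [AI.coordE_ofL, if_neg hj, map_zero, zero_mul]
  · intro h
    exact absurd (Finset.mem_range.mpr hp.pos) h

/-- The polynomial of degree `< p` with value `a` at `w`. -/
def qE (a : AI.EE p F0) : (LaurentSeries K)[X] :=
  ∑ j ∈ Finset.range p, C (AI.coordE p F0 a j) * X ^ j

theorem qE_natDegree_lt (a : AI.EE p F0) : (qE a).natDegree < p := by
  have hp : p.Prime := Fact.out
  have h2 := hp.two_le
  have h1 : (qE a).natDegree ≤ p - 1 := by
    unfold qE
    refine Polynomial.natDegree_sum_le_of_forall_le _ _ fun j hj => ?_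
    refine (Polynomial.natDegree_C_mul_X_pow_le _ _).trans ?_
    have := Finset.mem_range.mp hj
    omega
  omega

theorem qE_root (a : AI.EE p F0) : (qE a).eval₂ (AI.ofL p F0) (AI.yy p F0) = a := by
  unfold qE
  rw [Polynomial.eval₂_finsetSum]
  conv_rhs => rw [AI.eq_sum_coordE a]
  refine Finset.sum_congr rfl fun j _ => ?_
  rw [Polynomial.eval₂_mul, Polynomial.eval₂_C, Polynomial.eval₂_X_pow]

theorem thE_eq (a : AI.EE p F0) : thE p F0 zeta w' a = (qE a).eval₂ zeta w' := by
  unfold qE thE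
  rw [Polynomial.eval₂_finsetSum]
  refine Finset.sum_congr rfl fun j _ => ?_
  rw [Polynomial.eval₂_mul, Polynomial.eval₂_C, Polynomial.eval₂_X_pow]

theorem qE_unique (a : AI.EE p F0) (Q : (LaurentSeries K)[X]) (hQ : Q.natDegree < p)
    (h : Q.eval₂ (AI.ofL p F0) (AI.yy p F0) = a) : Q = qE a := by
  have h1 : Q = ∑ i ∈ Finset.range p, C (Q.coeff i) * X ^ i := by
    conv_lhs => rw [Q.as_sum_range' p hQ]
    refine Finset.sum_congr rfl fun i _ => ?_
    rw [C_mul_X_pow_eq_monomial]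
  have h2 : a = ∑ i ∈ Finset.range p, AI.ofL p F0 (Q.coeff i) * AI.yy p F0 ^ i := by
    rw [← h]
    conv_lhs => rw [h1]
    rw [Polynomial.eval₂_finsetSum]
    refine Finset.sum_congr rfl fun j _ => ?_
    rw [Polynomial.eval₂_mul, Polynomial.eval₂_C, Polynomial.eval₂_X_pow]
  conv_lhs => rw [h1]
  unfold qE
  refine Finset.sum_congr rfl fun j hj => ?_
  have h3 : AI.coordE p F0 a j = Q.coeff j := by
    rw [h2]
    exact AI.coordE_sum_yy _ (Finset.mem_range.mp hj)
  rw [h3]

theorem charEE : (p : AI.EE p F0) = 0 := by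
  have h1 : ((p : ℕ) : AI.EE p F0) = AI.ofL p F0 (HahnSeries.C ((p : ℕ) : K)) := by
    rw [map_natCast, map_natCast]
  rw [h1, CharP.cast_eq_zero, map_zero, map_zero]

variable {A : Type} [CommRing A]

private theorem T6a_tau (n : ℕ) (Q : (LaurentSeries K)[X]) :
    (AI.tau p F0)^[n] (Q.eval₂ (AI.ofL p F0) (AI.yy p F0)) =
      Q.eval₂ (AI.ofL p F0) (AI.yy p F0 + (n : AI.EE p F0)) := by
  have hc : (AI.tau p F0).comp (AI.ofL p F0) = AI.ofL p F0 := by
    ext1 c
    exact AI.tau_ofL c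
  induction n with
  | zero => rw [Function.iterate_zero, id, Nat.cast_zero, add_zero]
  | succ n ih =>
    rw [Function.iterate_succ_apply', ih, Polynomial.hom_eval₂, hc, map_add, AI.tau_yy, map_natCast,
      Nat.cast_succ]
    congr 1
    ring

private theorem T6a_rho {σ : A →+* A} (rho : A →+* AI.EE p F0)
    (hx : ∀ a, rho (σ a) = AI.tau p F0 (rho a)) (n : ℕ) (a : A) :
    rho ((σ ^ n) a) = (AI.tau p F0)^[n] (rho a) := by
  induction n with
  | zero => rfl
  | succ n ih =>
    rw [Function.iterate_succ_apply', ← ih, ← hx, pow_succ']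
    rfl

theorem qE_shift (hA : (p : A) = 0) {σ : A →+* A} (hσ : σ ^ p = 1) (rho : A →+* AI.EE p F0)
    (hx : ∀ a, rho (σ a) = AI.tau p F0 (rho a)) (a : A) :
    (PP p σ a).map rho = ((qE (rho a)).map (AI.ofL p F0)).comp (X + C (AI.yy p F0)) := by
  refine poly_ext p charEE ?_ ?_ fun j => ?_
  · exact lt_of_le_of_lt Polynomial.natDegree_map_le (PP_natDegree_lt p σ a)
  · refine lt_of_le_of_lt Polynomial.natDegree_comp_le ?_
    refine lt_of_le_of_lt ?_ (qE_natDegree_lt (rho a))
    calc ((qE (rho a)).map (AI.ofL p F0)).natDegree * (X + C (AI.yy p F0)).natDegree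
        ≤ (qE (rho a)).natDegree * 1 := Nat.mul_le_mul Polynomial.natDegree_map_le
          ((Polynomial.natDegree_add_le _ _).trans
            (max_le Polynomial.natDegree_X_le (by rw [Polynomial.natDegree_C]; exact Nat.zero_le _)))
      _ = _ := mul_one _
  · rw [Polynomial.eval_natCast_map, PP_eval p hA, T6a_rho rho hx, Polynomial.eval_comp,
      Polynomial.eval_add, Polynomial.eval_X, Polynomial.eval_C, Polynomial.eval_map,
      add_comm ((j.val : ℕ) : AI.EE p F0), ← T6a_tau, qE_root]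

theorem qE_mul (hA : (p : A) = 0) {σ : A →+* A} (hσ : σ ^ p = 1) (rho : A →+* AI.EE p F0)
    (hx : ∀ a, rho (σ a) = AI.tau p F0 (rho a)) (a b : A) :
    qE (rho a) * qE (rho b) = qE (rho (a * b)) +
      (X ^ p - X - C (AI.zinv K F0)) * qE (rho (cc p σ a b)) := by
  have hp : p.Prime := Fact.out
  have h2p := hp.two_le
  have hmk : ∀ Q : (LaurentSeries K)[X], AdjoinRoot.mk (AI.asPoly p F0) Q =
      Q.eval₂ (AI.ofL p F0) (AI.yy p F0) := fun Q => (AdjoinRoot.aeval_eq Q).symm
  have hm := AI.asPoly_monic p F0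
  have hdeg := AI.asPoly_natDegree p F0
  have hD0 : AdjoinRoot.mk (AI.asPoly p F0) (qE (rho a) * qE (rho b) - qE (rho (a * b))) = 0 := by
    rw [hmk, Polynomial.eval₂_sub, Polynomial.eval₂_mul, qE_root, qE_root, qE_root, map_mul,
      sub_self]
  obtain ⟨R, hR⟩ := AdjoinRoot.mk_eq_zero.mp hD0
  have hDd : (qE (rho a) * qE (rho b) - qE (rho (a * b))).natDegree ≤ 2 * p - 2 := by
    have h1 := qE_natDegree_lt (rho a)
    have h3 := qE_natDegree_lt (rho b)
    have h4 := qE_natDegree_lt (rho (a * b))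
    have h5 : (qE (rho a) * qE (rho b)).natDegree ≤ (qE (rho a)).natDegree + (qE (rho b)).natDegree :=
      Polynomial.natDegree_mul_le
    refine (Polynomial.natDegree_sub_le _ _).trans (max_le ?_ ?_) <;> omega
  have hRd : R.natDegree < p := by
    by_cases h0 : R = 0
    · rw [h0, Polynomial.natDegree_zero]; exact hp.pos
    · rw [hR, hm.natDegree_mul' h0, hdeg] at hDd
      omega
  let Φ : (LaurentSeries K)[X] →+* (AI.EE p F0)[X] :=
    (Polynomial.compRingHom (X + C (AI.yy p F0))).comp (Polynomial.mapRingHom (AI.ofL p F0))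
  have hΦ : ∀ Q, Φ Q = (Q.map (AI.ofL p F0)).comp (X + C (AI.yy p F0)) := fun Q => rfl
  have hΦq : ∀ c : A, Φ (qE (rho c)) = (PP p σ c).map rho := fun c =>
    (qE_shift hA hσ rho hx c).symm
  have hΦa : Φ (AI.asPoly p F0) = X ^ p - X := by
    change Φ (X ^ p - X - C (AI.zinv K F0)) = _
    rw [hΦ, Polynomial.map_sub, Polynomial.map_sub, Polynomial.map_pow,
      Polynomial.map_X, Polynomial.map_C, Polynomial.sub_comp, Polynomial.sub_comp,
      Polynomial.pow_comp, Polynomial.X_comp, Polynomial.C_comp]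
    obtain ⟨r, hr⟩ := exists_add_pow_prime_eq hp (X : (AI.EE p F0)[X]) (C (AI.yy p F0))
    have h0 : ((p : ℕ) : (AI.EE p F0)[X]) = 0 := by
      rw [← map_natCast (C : AI.EE p F0 →+* (AI.EE p F0)[X]), charEE, map_zero]
    have h1 : (C (AI.yy p F0) : (AI.EE p F0)[X]) ^ p =
        C (AI.yy p F0) + C (AI.ofL p F0 (AI.zinv K F0)) := by
      rw [← map_pow, AI.yy_pow_eq, map_add]
      rfl
    rw [hr, h0, h1]
    ring
  have key : (X ^ p - X) * Φ R = (X ^ p - X) * Φ (qE (rho (cc p σ a b))) := by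
    have h1 := congrArg Φ hR
    rw [map_sub Φ, map_mul Φ (qE (rho a)), map_mul Φ (AI.asPoly p F0), hΦa, hΦq, hΦq, hΦq,
      ← Polynomial.map_mul,
      (PP_mul p hA hσ a b).1, Polynomial.map_add, Polynomial.map_mul, add_sub_cancel_left] at h1
    rw [← h1, hΦq]
    congr 1
    rw [Polynomial.map_sub, Polynomial.map_pow, Polynomial.map_X]
  have key2 : Φ R = Φ (qE (rho (cc p σ a b))) := frob_cancel p key
  have he : ∀ Q, (Φ Q).eval 0 = Q.eval₂ (AI.ofL p F0) (AI.yy p F0) := by
    intro Q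
    rw [hΦ, Polynomial.eval_comp, Polynomial.eval_add, Polynomial.eval_X, Polynomial.eval_C,
      zero_add, Polynomial.eval_map]
  have hRR : R = qE (rho (cc p σ a b)) := by
    refine qE_unique _ R hRd ?_
    rw [← he, key2, he, qE_root]
  rw [← hRR, ← sub_eq_iff_eq_add', hR]
  rfl

/-- The values are multiplicative up to the defect `w' ^ p - w' - f`. -/
theorem thE_mul (hA : (p : A) = 0) {σ : A →+* A} (hσ : σ ^ p = 1) (rho : A →+* AI.EE p F0)
    (hx : ∀ a, rho (σ a) = AI.tau p F0 (rho a)) (a b : A) :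
    thE p F0 zeta w' (rho a) * thE p F0 zeta w' (rho b) = thE p F0 zeta w' (rho (a * b)) +
      (w' ^ p - w' - zeta (AI.zinv K F0)) * thE p F0 zeta w' (rho (cc p σ a b)) := by
  have h := congrArg (fun Q : (LaurentSeries K)[X] => Q.eval₂ zeta w') (qE_mul hA hσ rho hx a b)
  simp only [eval₂_mul, eval₂_add, eval₂_sub, eval₂_X_pow, eval₂_X, eval₂_C] at h
  rw [thE_eq, thE_eq, thE_eq, thE_eq]
  exact h

end

end Pool.Agent.MP_1c8e06_ag.CY
end

section

set_option autoImplicit false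

open Polynomial
open scoped Classical

namespace Pool.Agent.MP_1c8e06_ag.AK

open Pool.Agent.MP_1c8e06_ag.AJ

noncomputable section

/-!
# Task AK G2: a coprime action lemma

`I := zpowers g` of order `p`; `Q` a subgroup of order prime to `p` normalised by `g`.  `clS S L` (`AJ/Defs7.lean`) is the subgroup
generated by the `L`-conjugates of `S`.
Proof.  `Q I := Q ⊔ I` has order `|Q| p` (`g` normalises `Q`, `Q ⊓ I = ⊥`), elements `q * g^n`.  `M := clS I (Q ⊔ I)` is normal in
`Q ⊔ I`.  For `a ∈ Q ⊔ I` the group `a I a⁻¹ ≤ M` has order `p`, and `p²` does not divide `|Q ⊔ I|`, so `I` and `a I a⁻¹` are Sylow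
`p`-subgroups of `M`; they are conjugate in `M`.
* first part: `a I a⁻¹ = m I m⁻¹` with `m ∈ M`, so the generators of `M` are in `clS I M`.
* second part: for `q ∈ Q` there is `m ∈ M` with `(m q) I (m q)⁻¹ = I`.  `m q ∈ Q ⊔ I`: `m q = q' g^n`, `q' ∈ Q`; `q'` normalises `I`, and
  `q' g q'⁻¹ g⁻¹ ∈ I ⊓ Q = ⊥` (`Q` is normalised by `g`), so `c := m q = q' g^n` commutes with `g`.  `q = m⁻¹ * c`.
-/

private theorem G2_cj_pow {G : Type} [Group G] [Finite G] (g : G) (Q : Subgroup G)
    (hQg : ∀ q ∈ Q, g * q * g⁻¹ ∈ Q) (n : ℤ) : BT.cj (g ^ n) Q = Q := by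
  have h1 : BT.cj g Q = Q := by
    refine BT.cj_eq_of_le ?_
    intro x hx
    rw [BT.mem_cj] at hx
    have h2 := hQg _ hx
    have h3 : g * (g⁻¹ * x * g) * g⁻¹ = x := by group
    rwa [h3] at h2
  have h2 : BT.cj g⁻¹ Q = Q := by
    rw [BT.cj_eq_iff, inv_inv]
    exact h1.symm
  have h3 : ∀ m : ℕ, BT.cj (g ^ m) Q = Q := by
    intro m
    induction m with
    | zero => rw [pow_zero, BT.cj_one]
    | succ m ih => rw [pow_succ, BT.cj_mul, h1, ih]
  have h4 : ∀ m : ℕ, BT.cj (g⁻¹ ^ m) Q = Q := by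
    intro m
    induction m with
    | zero => rw [pow_zero, BT.cj_one]
    | succ m ih => rw [pow_succ, BT.cj_mul, h2, ih]
  rcases Int.eq_nat_or_neg n with ⟨m, hm | hm⟩
  · rw [hm, zpow_natCast]
    exact h3 m
  · rw [hm, zpow_neg, zpow_natCast, ← inv_pow]
    exact h4 m

private theorem G2_mem_sup {G : Type} [Group G] [Finite G] (g : G) (Q : Subgroup G)
    (hQg : ∀ q ∈ Q, g * q * g⁻¹ ∈ Q) (x : G) (hx : x ∈ Q ⊔ Subgroup.zpowers g) :
    ∃ q ∈ Q, ∃ n : ℤ, x = q * g ^ n := by
  have hc : ∀ (n : ℤ) (q : G), q ∈ Q → g ^ n * q * (g ^ n)⁻¹ ∈ Q := by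
    intro n q hq
    have h1 : g ^ n * q * (g ^ n)⁻¹ ∈ BT.cj (g ^ n) Q := BT.conj_mem_cj.2 hq
    rwa [G2_cj_pow g Q hQg n] at h1
  let T : Subgroup G :=
    { carrier := {x | ∃ q ∈ Q, ∃ n : ℤ, x = q * g ^ n}
      mul_mem' := by
        rintro a b ⟨q, hq, n, rfl⟩ ⟨q', hq', m, rfl⟩
        refine ⟨q * (g ^ n * q' * (g ^ n)⁻¹), Q.mul_mem hq (hc n q' hq'), n + m, ?_⟩
        rw [zpow_add]
        group
      one_mem' := ⟨1, Q.one_mem, 0, by rw [zpow_zero, one_mul]⟩
      inv_mem' := by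
        rintro a ⟨q, hq, n, rfl⟩
        refine ⟨g ^ (-n) * q⁻¹ * (g ^ (-n))⁻¹, hc (-n) _ (Q.inv_mem hq), -n, ?_⟩
        group }
  have h1 : Q ⊔ Subgroup.zpowers g ≤ T := by
    refine sup_le ?_ ?_
    · intro q hq
      exact ⟨q, hq, 0, by rw [zpow_zero, mul_one]⟩
    · rw [Subgroup.zpowers_le]
      exact ⟨1, Q.one_mem, 1, by rw [zpow_one, one_mul]⟩
  exact h1 hx

private theorem G2_card {p : ℕ} [hp : Fact p.Prime] {G : Type} [Group G] [Finite G] (g : G)
    (hg : orderOf g = p) (Q : Subgroup G) (hQ : ¬ p ∣ Nat.card Q)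
    (hQg : ∀ q ∈ Q, g * q * g⁻¹ ∈ Q) :
    Nat.card (Q ⊔ Subgroup.zpowers g : Subgroup G) = Nat.card Q * p := by
  have hI : Nat.card (Subgroup.zpowers g) = p := by rw [Nat.card_zpowers, hg]
  apply le_antisymm
  · have h1 : Nat.card (Q ⊔ Subgroup.zpowers g : Subgroup G) ≤
        Nat.card (Q × Subgroup.zpowers g) := by
      refine Nat.card_le_card_of_surjective
        (fun z : Q × Subgroup.zpowers g => (⟨(z.1 : G) * (z.2 : G), Subgroup.mul_mem _
          (Subgroup.mem_sup_left z.1.2) (Subgroup.mem_sup_right z.2.2)⟩ :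
            (Q ⊔ Subgroup.zpowers g : Subgroup G))) ?_
      rintro ⟨x, hx⟩
      obtain ⟨q, hq, n, rfl⟩ := G2_mem_sup g Q hQg x hx
      exact ⟨(⟨q, hq⟩, ⟨g ^ n, Subgroup.zpow_mem_zpowers g n⟩), rfl⟩
    rw [Nat.card_prod, hI] at h1
    exact h1
  · have h1 : Nat.card Q * p ∣ Nat.card (Q ⊔ Subgroup.zpowers g : Subgroup G) := by
      refine Nat.Coprime.mul_dvd_of_dvd_of_dvd ?_ (Subgroup.card_dvd_of_le le_sup_left) ?_
      · exact ((Nat.Prime.coprime_iff_not_dvd hp.out).2 hQ).symm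
      · have h2 := Subgroup.card_dvd_of_le
          (le_sup_right : Subgroup.zpowers g ≤ Q ⊔ Subgroup.zpowers g)
        rwa [hI] at h2
    exact Nat.le_of_dvd Nat.card_pos h1

open scoped Pointwise in
private theorem G2_sylow {p : ℕ} [hp : Fact p.Prime] {M : Type} [Group M] [Finite M]
    (A B : Subgroup M) (hA : Nat.card A = p) (hB : Nat.card B = p) (hM : ¬ p ^ 2 ∣ Nat.card M) :
    ∃ m : M, ∀ x ∈ B, m⁻¹ * x * m ∈ A := by
  have key : ∀ C : Subgroup M, Nat.card C = p → ∃ P : Sylow p M, (P : Subgroup M) = C := by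
    intro C hC
    have hCp : IsPGroup p C := IsPGroup.of_card (n := 1) (by rw [hC, pow_one])
    obtain ⟨P, hP⟩ := hCp.exists_le_sylow
    refine ⟨P, ?_⟩
    symm
    refine Subgroup.eq_of_le_of_card_ge hP ?_
    rw [hC]
    obtain ⟨n, hn⟩ := (IsPGroup.iff_card (p := p)).1 P.isPGroup'
    have hn2 : n < 2 := by
      by_contra h
      push Not at h
      refine hM (dvd_trans (pow_dvd_pow p h) ?_)
      rw [← hn]
      exact Subgroup.card_subgroup_dvd_card _
    have h3 : Nat.card P = p ^ n := hn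
    change Nat.card P ≤ p
    rw [h3]
    calc p ^ n ≤ p ^ 1 := Nat.pow_le_pow_right hp.out.pos (by omega)
      _ = p := pow_one p
  obtain ⟨P, hP⟩ := key A hA
  obtain ⟨P', hP'⟩ := key B hB
  obtain ⟨m, hm⟩ := MulAction.exists_smul_eq M P P'
  refine ⟨m, ?_⟩
  intro x hx
  rw [← hP', ← hm] at hx
  rw [← hP]
  have h1 : x ∈ (m • P : Sylow p M) := hx
  have h2 : x ∈ ((MulAut.conj m) • (P : Subgroup M)) := h1
  rw [Subgroup.mem_pointwise_smul_iff_inv_smul_mem] at h2
  rw [← map_inv, MulAut.smul_def, MulAut.conj_apply, inv_inv] at h2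
  exact h2

private theorem G2_conj {p : ℕ} [hp : Fact p.Prime] {G : Type} [Group G] [Finite G]
    (A B M : Subgroup G) (hAM : A ≤ M) (hBM : B ≤ M) (hA : Nat.card A = p)
    (hB : Nat.card B = p) (hM : ¬ p ^ 2 ∣ Nat.card M) : ∃ m ∈ M, BT.cj m A = B := by
  have h1 : Nat.card (A.subgroupOf M) = p := by
    rw [Nat.card_congr (Subgroup.subgroupOfEquivOfLe hAM).toEquiv, hA]
  have h2 : Nat.card (B.subgroupOf M) = p := by
    rw [Nat.card_congr (Subgroup.subgroupOfEquivOfLe hBM).toEquiv, hB]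
  obtain ⟨m, hm⟩ := G2_sylow (A.subgroupOf M) (B.subgroupOf M) h1 h2 hM
  refine ⟨m, m.2, ?_⟩
  symm
  refine Subgroup.eq_of_le_of_card_ge ?_ ?_
  · intro x hx
    rw [BT.mem_cj]
    have h3 := hm ⟨x, hBM hx⟩ (Subgroup.mem_subgroupOf.2 hx)
    rw [Subgroup.mem_subgroupOf] at h3
    exact h3
  · rw [BT.card_cj, hA, hB]

private theorem G2_main {p : ℕ} [hp : Fact p.Prime] {G : Type} [Group G] [Finite G] (g : G)
    (hg : orderOf g = p) (Q : Subgroup G) (hQ : ¬ p ∣ Nat.card Q)
    (hQg : ∀ q ∈ Q, g * q * g⁻¹ ∈ Q) (a : G) (ha : a ∈ Q ⊔ Subgroup.zpowers g) :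
    ∃ m ∈ clS (Subgroup.zpowers g) (Q ⊔ Subgroup.zpowers g),
      BT.cj m (Subgroup.zpowers g) = BT.cj a (Subgroup.zpowers g) := by
  have hI : Nat.card (Subgroup.zpowers g) = p := by rw [Nat.card_zpowers, hg]
  refine G2_conj _ _ _ (le_clS _ _) ?_ hI ?_ ?_
  · intro x hx
    rw [BT.mem_cj] at hx
    have h1 := mem_clS (S := Subgroup.zpowers g) ha hx
    have h2 : a * (a⁻¹ * x * a) * a⁻¹ = x := by group
    rwa [h2] at h1
  · rw [BT.card_cj, hI]
  · intro h
    have hle : clS (Subgroup.zpowers g) (Q ⊔ Subgroup.zpowers g) ≤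
        Q ⊔ Subgroup.zpowers g := by
      rw [clS, Subgroup.closure_le]
      rintro _ ⟨b, hb, x, hx, rfl⟩
      exact Subgroup.mul_mem _ (Subgroup.mul_mem _ hb (Subgroup.mem_sup_right hx))
        (Subgroup.inv_mem _ hb)
    have h1 := dvd_trans h (Subgroup.card_dvd_of_le hle)
    rw [G2_card g hg Q hQ hQg, pow_two] at h1
    exact hQ (Nat.dvd_of_mul_dvd_mul_right hp.out.pos h1)

theorem coprime_first {p : ℕ} [hp : Fact p.Prime] {G : Type} [Group G] [Finite G] (g : G)
    (hg : orderOf g = p) (Q : Subgroup G) (hQ : ¬ p ∣ Nat.card Q)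
    (hQg : ∀ q ∈ Q, g * q * g⁻¹ ∈ Q) :
    clS (Subgroup.zpowers g) (clS (Subgroup.zpowers g) (Q ⊔ Subgroup.zpowers g)) =
      clS (Subgroup.zpowers g) (Q ⊔ Subgroup.zpowers g) := by
  apply le_antisymm
  · rw [clS, Subgroup.closure_le]
    rintro _ ⟨b, hb, x, hx, rfl⟩
    exact Subgroup.mul_mem _ (Subgroup.mul_mem _ hb (le_clS _ _ hx)) (Subgroup.inv_mem _ hb)
  · conv_lhs => rw [clS]
    rw [Subgroup.closure_le]
    rintro _ ⟨a, ha, x, hx, rfl⟩
    obtain ⟨m, hm, hma⟩ := G2_main g hg Q hQ hQg a ha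
    have h1 : a * x * a⁻¹ ∈ BT.cj a (Subgroup.zpowers g) := BT.conj_mem_cj.2 hx
    rw [← hma, BT.mem_cj] at h1
    have h2 := mem_clS (S := Subgroup.zpowers g) hm h1
    have h3 : m * (m⁻¹ * (a * x * a⁻¹) * m) * m⁻¹ = a * x * a⁻¹ := by group
    rw [h3] at h2
    exact h2

theorem coprime_second {p : ℕ} [hp : Fact p.Prime] {G : Type} [Group G] [Finite G] (g : G)
    (hg : orderOf g = p) (Q : Subgroup G) (hQ : ¬ p ∣ Nat.card Q)
    (hQg : ∀ q ∈ Q, g * q * g⁻¹ ∈ Q) (q : G) (hq : q ∈ Q) :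
    ∃ m ∈ clS (Subgroup.zpowers g) (Q ⊔ Subgroup.zpowers g), ∃ c : G, c * g = g * c ∧
      q = m * c := by
  have hqL : q ∈ Q ⊔ Subgroup.zpowers g := Subgroup.mem_sup_left hq
  obtain ⟨m, hm, hmq⟩ := G2_main g hg Q hQ hQg q hqL
  have hle : clS (Subgroup.zpowers g) (Q ⊔ Subgroup.zpowers g) ≤ Q ⊔ Subgroup.zpowers g := by
    rw [clS, Subgroup.closure_le]
    rintro _ ⟨b, hb, x, hx, rfl⟩
    exact Subgroup.mul_mem _ (Subgroup.mul_mem _ hb (Subgroup.mem_sup_right hx))
      (Subgroup.inv_mem _ hb)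
  have hcL : m⁻¹ * q ∈ Q ⊔ Subgroup.zpowers g :=
    Subgroup.mul_mem _ (Subgroup.inv_mem _ (hle hm)) hqL
  have hcI : BT.cj (m⁻¹ * q) (Subgroup.zpowers g) = Subgroup.zpowers g := by
    rw [BT.cj_mul, ← hmq, BT.cj_inv_cj]
  refine ⟨m, hm, m⁻¹ * q, ?_, by group⟩
  obtain ⟨q', hq', n, hn⟩ := G2_mem_sup g Q hQg _ hcL
  rw [hn] at hcI ⊢
  rw [BT.cj_mul, BT.cj_eq_self (Subgroup.zpow_mem_zpowers g n)] at hcI
  have h1 : q' * g * q'⁻¹ ∈ Subgroup.zpowers g := by
    have h2 : q' * g * q'⁻¹ ∈ BT.cj q' (Subgroup.zpowers g) :=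
      BT.conj_mem_cj.2 (Subgroup.mem_zpowers g)
    rwa [hcI] at h2
  have h2 : q' * g * q'⁻¹ * g⁻¹ ∈ Subgroup.zpowers g :=
    Subgroup.mul_mem _ h1 (Subgroup.inv_mem _ (Subgroup.mem_zpowers g))
  have h3 : q' * g * q'⁻¹ * g⁻¹ ∈ Q := by
    have h4 := Q.mul_mem hq' (hQg _ (Q.inv_mem hq'))
    have h5 : q' * (g * q'⁻¹ * g⁻¹) = q' * g * q'⁻¹ * g⁻¹ := by group
    rwa [h5] at h4
  have hbot : Q ⊓ Subgroup.zpowers g = ⊥ := by
    refine (Subgroup.disjoint_of_coprime_natCard ?_).eq_bot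
    rw [Nat.card_zpowers, hg]
    exact ((Nat.Prime.coprime_iff_not_dvd hp.out).2 hQ).symm
  have h4 : q' * g * q'⁻¹ * g⁻¹ ∈ (⊥ : Subgroup G) := by
    rw [← hbot]
    exact ⟨h3, h2⟩
  rw [Subgroup.mem_bot] at h4
  have h5 : q' * g = g * q' := by
    have h6 : q' * g = (q' * g * q'⁻¹ * g⁻¹) * (g * q') := by group
    rw [h6, h4, one_mul]
  have h6 : g ^ n * g = g * g ^ n := (Commute.zpow_self g n).eq
  rw [mul_assoc, h6, ← mul_assoc, h5, mul_assoc]

end

end Pool.Agent.MP_1c8e06_ag.AK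
end
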