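import Pool.Agent.Lib.MP_1c8e06_ag.CY.TS
import Pool.Agent.Lib.MP_1c8e06_ag.Mg.G008
import Pool.Agent.Lib.MP_1c8e06_ag.Mg.G015

section

/-!
# CY T9: the comparison map Ph (algebra)

h : TwD p S x N chi eps lam over any ring B; om : Al S with om^p - om = lam, eps * om = om, (chi n) * act n om = om for n ∈ N.  σ := act x.
Ph a := ∑_{q : G ⧸ N} act q.out (eps * (PP p σ (act q.out⁻¹ a)).eval om).
Write V g a := eps * (PP p σ (act g a)).eval om = tV p x eps (RingHom.id _) om g a (TDefs; eval₂ of the identity is eval), so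
V g (tmul a b) = V g a * V g b (T4 `tV_mul` with φ = id), V g (a + b) = .., V g 1 = eps, V g (cst c * a) = cst c * V g a, V g (act g' a) = V (g g') a (`tV_act`).
`PhT_eps`: eps * act g (Ph a) = V g a for all g.  Proof: W r := act r (V r⁻¹ a), so act g (Ph a) = ∑_q act (g q.out) (V (q.out⁻¹) a).
(i) for n ∈ N: act n (V g a) = V (n g) a: act n eps = eps; act n ((PP (act g a)).eval om) = ((PP (act g a)).map (act n)).eval (act n om) =
((PP (act n (act g a))).comp (C (chi n) * X)).eval (act n om) (T2 `PP_twist`, T3 `act_n`) = (PP (act (n g) a)).eval ((chi n) * act n om) = (PP (act (n g) a)).eval om.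
(ii) eps * act r (V r' a) = 0 for r ∉ N, because V r' a = eps * .. and eps * act r eps = 0.
(iii) in eps * act g (Ph a) = ∑_q eps * act (g q.out) (V q.out⁻¹ a) only q = mk g⁻¹ remains (g * q.out ∈ N ⟺ q = mk g⁻¹); put n := g * q.out ∈ N:
act n (V q.out⁻¹ a) = V (n q.out⁻¹) a = V g a by (i), and eps * V g a = V g a.
Everything else by `NI.ext` (elements z, z' with eps * act g z = eps * act g z' for all g are equal):
mul: eps * act g (Ph (tmul a b)) = V g (tmul a b) = V g a * V g b = (eps * act g (Ph a)) * (eps * act g (Ph b)) = eps * act g (Ph a * Ph b) (eps² = eps).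
one: V g 1 = eps.  add.  cst: Ph (cst c) : V g (cst c * 1) = cst c * eps.
act: eps * act g (Ph (act g' a)) = V g (act g' a) = V (g g') a = eps * act (g g') (Ph a).
`exists_PhT`: Ph as a ring homomorphism Al h.S' →+* Al S: Ph b := (the map above) (h.fr b), with `to_fr`, `to_tmul`, `to_act` (every b is h.to a).
-/

set_option autoImplicit false

open Polynomial
open scoped Classical

namespace Pool.Agent.MP_1c8e06_ag.CY

open Pool.Agent.MP_1c8e06_ag.AJ

noncomputable section

set_option linter.unusedSectionVars false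

variable {p : ℕ} [Fact p.Prime] {B : Type} [CommRing B] {G : Type} [Group G] [Fintype G]
  {S : SC B G} {x : G} {N : Subgroup G} {chi : G → ℕ} {eps lam : Al S}

/-- The comparison map. -/
def PhT (p : ℕ) [Fact p.Prime] (S : SC B G) (x : G) (N : Subgroup G) (eps om a : Al S) : Al S :=
  ∑ q : G ⧸ N, Al.act S q.out (eps * (PP p (Al.act S x) (Al.act S q.out⁻¹ a)).eval om)

private theorem T9_V (om : Al S) (g : G) (a : Al S) :
    tV p x eps (RingHom.id (Al S)) om g a =
      eps * (PP p (Al.act S x) (Al.act S g a)).eval om := by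
  unfold tV
  rw [RingHom.id_apply, ← Polynomial.eval₂_id]

private theorem T9_act (h : TwD p S x N chi eps lam) (om : Al S) {n : G} (hn : n ∈ N)
    (h3 : (chi n : Al S) * Al.act S n om = om) (g : G) (a : Al S) :
    Al.act S n (eps * (PP p (Al.act S x) (Al.act S g a)).eval om) =
      eps * (PP p (Al.act S x) (Al.act S (n * g) a)).eval om := by
  have h1 : Al.act S n ((PP p (Al.act S x) (Al.act S g a)).eval om) =
      ((PP p (Al.act S x) (Al.act S g a)).map (Al.act S n)).eval (Al.act S n om) := by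
    rw [Polynomial.eval_map, Polynomial.eval₂_at_apply]
  rw [map_mul, h.ni.fix n hn, h1,
    PP_twist p h.charA h.pow_act (Al.act S n) (chi n) (fun b => h.act_n hn b),
    Polynomial.eval_comp, Polynomial.eval_mul, Polynomial.eval_C, Polynomial.eval_X, h3,
    ← Al.act_mul_apply]

theorem TwD.PhT_eps (h : TwD p S x N chi eps lam) (om : Al S)
    (h3 : ∀ n ∈ N, (chi n : Al S) * Al.act S n om = om) (g : G) (a : Al S) :
    eps * Al.act S g (PhT p S x N eps om a) =
      eps * (PP p (Al.act S x) (Al.act S g a)).eval om := by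
  unfold PhT
  rw [map_sum, Finset.mul_sum, Finset.sum_eq_single (QuotientGroup.mk g⁻¹ : G ⧸ N)]
  · have hmem : g * (QuotientGroup.mk g⁻¹ : G ⧸ N).out ∈ N := by
      have h1 : (QuotientGroup.mk g⁻¹ : G ⧸ N) =
          QuotientGroup.mk (QuotientGroup.mk g⁻¹ : G ⧸ N).out := (Quotient.out_eq' _).symm
      have h2 := QuotientGroup.eq.1 h1
      rwa [inv_inv] at h2
    rw [← Al.act_mul_apply, T9_act h om hmem (h3 _ hmem), mul_assoc, mul_inv_cancel, mul_one,
      ← mul_assoc, h.ni.idem]
  · intro q _ hq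
    have hnm : g * q.out ∉ N := by
      intro hm
      apply hq
      have h1 : (QuotientGroup.mk g⁻¹ : G ⧸ N) = QuotientGroup.mk q.out := by
        rw [QuotientGroup.eq, inv_inv]
        exact hm
      rw [h1]
      exact (Quotient.out_eq' q).symm
    rw [← Al.act_mul_apply, map_mul, ← mul_assoc, h.ni.orth _ hnm, zero_mul]
  · intro hq
    exact absurd (Finset.mem_univ _) hq

theorem TwD.exists_PhT (h : TwD p S x N chi eps lam) (om : Al S) (h1 : om ^ p - om = lam)
    (h3 : ∀ n ∈ N, (chi n : Al S) * Al.act S n om = om) :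
    ∃ Ph : Al h.S' →+* Al S, (∀ a : Al S, Ph (h.to a) = PhT p S x N eps om a) ∧
      (∀ b, Ph (Al.cst h.S' b) = Al.cst S b) ∧
      ∀ g a, Ph (Al.act h.S' g a) = Al.act S g (Ph a) := by
  have hV : ∀ g a, eps * Al.act S g (PhT p S x N eps om a) =
      tV p x eps (RingHom.id (Al S)) om g a := fun g a => by
    rw [h.PhT_eps om h3, T9_V]
  have hid : ∀ z : Al S, (RingHom.id (Al S)) z = z := fun z => rfl
  have hVe : ∀ g a, eps * tV p x eps (RingHom.id (Al S)) om g a =
      tV p x eps (RingHom.id (Al S)) om g a := fun g a => by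
    rw [T9_V, ← mul_assoc, h.ni.idem]
  have hom : om ^ p - om = (RingHom.id (Al S)) lam := h1
  have hone : PhT p S x N eps om 1 = 1 := by
    refine NI.ext h.ni fun g => ?_
    rw [hV, h.tV_one, map_one, mul_one, hid]
  have hmul : ∀ a b, PhT p S x N eps om (tmul p S x N lam a b) =
      PhT p S x N eps om a * PhT p S x N eps om b := by
    intro a b
    refine NI.ext h.ni fun g => ?_
    rw [hV, h.tV_mul (RingHom.id (Al S)) om hom, map_mul, ← hV, ← hV]
    calc eps * Al.act S g (PhT p S x N eps om a) * (eps * Al.act S g (PhT p S x N eps om b))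
        = (eps * eps) * (Al.act S g (PhT p S x N eps om a) *
            Al.act S g (PhT p S x N eps om b)) := by ring
      _ = _ := by rw [h.ni.idem]
  have hadd : ∀ a b, PhT p S x N eps om (a + b) =
      PhT p S x N eps om a + PhT p S x N eps om b := by
    intro a b
    refine NI.ext h.ni fun g => ?_
    rw [hV, tV_add, map_add, mul_add, hV, hV]
  have hzero : PhT p S x N eps om 0 = 0 := by
    have h4 := hadd 0 0
    rw [add_zero] at h4
    exact left_eq_add.1 h4
  have hcst : ∀ b, PhT p S x N eps om (Al.cst S b) = Al.cst S b := by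
    intro b
    refine NI.ext h.ni fun g => ?_
    have h4 := h.tV_cst_mul (RingHom.id (Al S)) om g b 1
    rw [mul_one] at h4
    rw [hV, h4, h.tV_one, Al.act_cst, hid, hid, mul_comm]
  have hact : ∀ g a, PhT p S x N eps om (Al.act S g a) = Al.act S g (PhT p S x N eps om a) := by
    intro g a
    refine NI.ext h.ni fun g' => ?_
    rw [hV, tV_act, ← Al.act_mul_apply, hV]
  let Ph : Al h.S' →+* Al S :=
    { toFun := fun b => PhT p S x N eps om (h.fr b)
      map_one' := by
        have h4 : h.fr 1 = 1 := by rw [← h.to_one, h.fr_to]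
        rw [h4, hone]
      map_mul' := fun b b' => by
        have h4 : h.fr (b * b') = tmul p S x N lam (h.fr b) (h.fr b') := by
          have h5 := h.to_tmul (h.fr b) (h.fr b')
          rw [h.to_fr, h.to_fr] at h5
          rw [← h5, h.fr_to]
        rw [h4, hmul]
      map_zero' := by rw [map_zero, hzero]
      map_add' := fun b b' => by rw [map_add, hadd] }
  refine ⟨Ph, fun a => ?_, fun b => ?_, fun g a => ?_⟩
  · change PhT p S x N eps om (h.fr (h.to a)) = _
    rw [h.fr_to]
  · change PhT p S x N eps om (h.fr (Al.cst h.S' b)) = _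
    rw [← h.to_cst, h.fr_to, hcst]
  · change PhT p S x N eps om (h.fr (Al.act h.S' g a)) = Al.act S g (PhT p S x N eps om (h.fr a))
    have h4 : Al.act h.S' g a = h.to (Al.act S g (h.fr a)) := by
      rw [h.to_act, h.to_fr]
    rw [h4, h.fr_to, hact]

end

end Pool.Agent.MP_1c8e06_ag.CY
end

section

/-!
# CY T10: the comparison map at a hole (final form of T7 of the paper)

h : TwD p S x N chi eps lam over B, θ : B →+* E, E complete ultrametric.  Sj := S.map θ, epsj := mapA eps, lamj := mapA lam, hj := h.map θ (T7) : TwD p Sj ...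
om from T8 `exists_om` for hj (norms: (mapA lam) l = θ (lam l)).  Ph from T9 `exists_PhT` for hj: Al hj.S' →+* Al Sj, and hj.S' = h.S'.map θ (T7 `S'_map`): transport along this
equality (obtain a statement for every S1 with hj.S' = S1 and `subst`, or define Ph on Al (h.S'.map θ) as the composite with the ring homomorphism
`Al.homOf (h.S'.map θ) (RingHom.id E) hj.S'` which is the identity on coordinates: `Al.homOf_apply`).
(a) ∀ g a: epsj * act g (Ph a) = epsj * (PP p (act Sj x) (act g a)).eval om where on the right a is read in Al Sj: T9 `PhT_eps`.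
`PhT_bound`: let P := PP p (act Sj x) b with b := act g (e l), ‖b m‖ ≤ M (|e l| ≤ 1; coordinates are α g l m).  P.eval om - b = ∑_{i ≥ 1, i < p} P.coeff i * om^i (coeff 0 = b,
T2 `PP_coeff_zero`; natDegree < p), P.coeff i = ∑_k (dY p (Al Sj) k).coeff i * σ^k b, σ^k b = act (x^k g) (e l) has norm ≤ M, and (dY k).coeff i is the image of an
integer (dY p (Al Sj) k = map of dY p ℤ k: T1 `dY_map` with Int.castRingHom; an integer has norm ≤ 1: T8 `bd_nat_mul`, also for negative ones),
so ‖(P.coeff i) m‖ ≤ M; ‖(om^i) m‖ ≤ (M C)^i / M ≤ C for i ≥ 1 (T8 `bd_pow`, M C < 1); product ≤ M * M * C = M² C (`bd_mul`); times epsj (norm ≤ M'): ≤ M * M' * M² C;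
Ph (e l) - e l = ∑_q act q.out (epsj * (P_q.eval om - act q.out⁻¹ (e l))) with P_q = PP (act q.out⁻¹ (e l)), because e l = ∑_q act q.out epsj * e l
= ∑_q act q.out (epsj * act q.out⁻¹ (e l)) (NI.sum); act costs a factor M: ≤ M^4 * M' * C.
-/

set_option autoImplicit false

open Polynomial
open scoped Classical

namespace Pool.Agent.MP_1c8e06_ag.CY

open Pool.Agent.MP_1c8e06_ag.AJ

noncomputable section

set_option linter.unusedSectionVars false

private theorem T10_sum {E : Type} [NormedField E] [IsUltrametricDist E] {G : Type} [Group G]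
    [Fintype G] {S : SC E G} {ι : Type} (s : Finset ι) (f : ι → Al S) {A : ℝ} (hA : 0 ≤ A)
    (hf : ∀ i ∈ s, ∀ l, ‖f i l‖ ≤ A) (l : G) : ‖(∑ i ∈ s, f i) l‖ ≤ A := by
  rw [Al.sum_apply]
  exact IsUltrametricDist.norm_sum_le_of_forall_le_of_nonneg hA fun i hi => hf i hi l

private theorem T10_int {E : Type} [NormedField E] [IsUltrametricDist E] {G : Type} [Group G]
    [Fintype G] {S : SC E G} {a : Al S} {A : ℝ} (ha : ∀ l, ‖a l‖ ≤ A) (n : ℤ) (l : G) :
    ‖((n : Al S) * a) l‖ ≤ A := by
  obtain ⟨m, rfl | rfl⟩ := n.eq_nat_or_neg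
  · rw [Int.cast_natCast]
    exact bd_nat_mul ha m l
  · rw [Int.cast_neg, Int.cast_natCast, neg_mul, Al.neg_apply, norm_neg]
    exact bd_nat_mul ha m l

private theorem T10_pow {B : Type} [CommRing B] {G : Type} [Group G] [Fintype G] {S : SC B G}
    (x g : G) (k : ℕ) (a : Al S) :
    ((Al.act S x) ^ k) (Al.act S g a) = Al.act S (x ^ k * g) a := by
  rw [← map_pow, ← Al.act_mul_apply]

private theorem T10_e {E : Type} [NormedField E] {G : Type} [Group G] [Fintype G] {S : SC E G}
    {M : ℝ} (hM : BdS S M) (g l m : G) : ‖Al.act S g (Al.e S l) m‖ ≤ M := by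
  have h1 : Al.act S g (Al.e S l) m = S.α g l m := by
    rw [Al.act_apply]
    simp [Al.e]
  rw [h1]
  exact hM.2.2.1 g l m

private theorem T10_coeff {E : Type} [NormedField E] [IsUltrametricDist E] {p : ℕ}
    [Fact p.Prime] {G : Type} [Group G] [Fintype G] {S : SC E G} (x : G) {M : ℝ}
    (hM : BdS S M) (g l : G) (i : ℕ) (m : G) :
    ‖((PP p (Al.act S x) (Al.act S g (Al.e S l))).coeff i) m‖ ≤ M := by
  have hM0 : 0 ≤ M := zero_le_one.trans hM.1
  rw [PP, finsetSum_coeff]
  refine T10_sum _ _ hM0 (fun k _ l' => ?_) m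
  rw [coeff_mul_C, T10_pow]
  have h1 : (dY p (Al S) k).coeff i = (((dY p ℤ k).coeff i : ℤ) : Al S) := by
    rw [← dY_map p (Int.castRingHom (Al S)) k, coeff_map]
    rfl
  rw [h1]
  exact T10_int (fun l'' => T10_e hM _ _ _) _ _

private theorem T10_eval {E : Type} [NormedField E] [IsUltrametricDist E] {p : ℕ}
    [Fact p.Prime] {G : Type} [Group G] [Fintype G] {S : SC E G} (hA : (p : Al S) = 0) (x : G)
    {M C : ℝ} (hM : BdS S M) (hC : 0 ≤ C) (hMC : M * C < 1) (om : Al S)
    (hom : ∀ l, ‖om l‖ ≤ C) (g l m : G) :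
    ‖((PP p (Al.act S x) (Al.act S g (Al.e S l))).eval om - Al.act S g (Al.e S l)) m‖ ≤
      M * M * C := by
  have hM0 : 0 < M := zero_lt_one.trans_le hM.1
  set P := PP p (Al.act S x) (Al.act S g (Al.e S l)) with hP
  have hp : 0 < p := (Fact.out : p.Prime).pos
  have hdeg : P.natDegree < (p - 1) + 1 := by
    rw [Nat.sub_add_cancel hp]
    exact PP_natDegree_lt p _ _
  have h1 : P.eval om - Al.act S g (Al.e S l) =
      ∑ i ∈ Finset.range (p - 1), P.coeff (i + 1) * om ^ (i + 1) := by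
    rw [eval_eq_sum_range' hdeg, Finset.sum_range_succ', pow_zero, mul_one, hP,
      PP_coeff_zero p hA]
    ring
  rw [h1]
  refine T10_sum _ _ (by positivity) (fun i _ l' => ?_) m
  refine bd_mul hM hM0.le hC (fun l'' => T10_coeff x hM g l (i + 1) l'') (fun l'' => ?_) l'
  have h2 := bd_pow hM hC hom (n := i + 1) (by omega) l''
  have h3 : (M * C) ^ (i + 1) ≤ M * C := by
    have h4 : 0 ≤ M * C := by positivity
    calc (M * C) ^ (i + 1) ≤ (M * C) ^ 1 := pow_le_pow_of_le_one h4 hMC.le (by omega)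
      _ = M * C := pow_one _
  exact le_of_mul_le_mul_left (h2.trans h3) hM0

theorem PhT_bound {E : Type} [NormedField E] [IsUltrametricDist E] {p : ℕ} [Fact p.Prime]
    {G : Type} [Group G] [Fintype G] {S : SC E G} {x : G} {N : Subgroup G} {chi : G → ℕ}
    {eps lam : Al S} (h : TwD p S x N chi eps lam) {M M' C : ℝ} (hM : BdS S M) (hM' : 0 ≤ M')
    (he : ∀ l, ‖eps l‖ ≤ M') (hC : 0 ≤ C) (hMC : M * C < 1) (om : Al S)
    (hom : ∀ l, ‖om l‖ ≤ C) (l m : G) :
    ‖(PhT p S x N eps om (Al.e S l) - Al.e S l) m‖ ≤ M ^ 4 * M' * C := by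
  have hM0 : 0 < M := zero_lt_one.trans_le hM.1
  have h1 : Al.e S l = ∑ q : G ⧸ N, Al.act S q.out (eps * Al.act S q.out⁻¹ (Al.e S l)) := by
    have h2 : ∀ q : G ⧸ N, Al.act S q.out (eps * Al.act S q.out⁻¹ (Al.e S l)) =
        Al.act S q.out eps * Al.e S l := by
      intro q
      rw [map_mul, ← Al.act_mul_apply, mul_inv_cancel, Al.act_one_apply]
    rw [Finset.sum_congr rfl fun q _ => h2 q, ← Finset.sum_mul, h.ni.sum, one_mul]
  have h3 : PhT p S x N eps om (Al.e S l) - Al.e S l =
      ∑ q : G ⧸ N, Al.act S q.out (eps *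
        ((PP p (Al.act S x) (Al.act S q.out⁻¹ (Al.e S l))).eval om -
          Al.act S q.out⁻¹ (Al.e S l))) := by
    have h4 : ∑ q : G ⧸ N, Al.act S q.out (eps *
        ((PP p (Al.act S x) (Al.act S q.out⁻¹ (Al.e S l))).eval om -
          Al.act S q.out⁻¹ (Al.e S l))) =
        PhT p S x N eps om (Al.e S l) -
          ∑ q : G ⧸ N, Al.act S q.out (eps * Al.act S q.out⁻¹ (Al.e S l)) := by
      rw [PhT, ← Finset.sum_sub_distrib]
      refine Finset.sum_congr rfl fun q _ => ?_
      rw [mul_sub, map_sub]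
    rw [h4, ← h1]
  rw [h3]
  refine T10_sum _ _ (by positivity) (fun q _ l' => ?_) m
  have h4 := fun l'' => bd_mul hM hM' (by positivity : 0 ≤ M * M * C) he
    (fun k => T10_eval h.charA x hM hC hMC om hom q.out⁻¹ l k) l''
  have h5 := bd_act hM (by positivity) h4 q.out l'
  refine h5.trans (le_of_eq ?_)
  ring

private theorem T10_trans {p : ℕ} [Fact p.Prime] {B : Type} [CommRing B] {G : Type} [Group G]
    [Fintype G] {S : SC B G} {x : G} {N : Subgroup G} {chi : G → ℕ} {eps lam : Al S}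
    (h : TwD p S x N chi eps lam) (om : Al S) (h1 : om ^ p - om = lam)
    (h3 : ∀ n ∈ N, (chi n : Al S) * Al.act S n om = om) (S1 : SC B G) (hS : h.S' = S1) :
    ∃ Ph : Al S1 →+* Al S, (∀ b, Ph (Al.cst S1 b) = Al.cst S b) ∧
      (∀ g a, Ph (Al.act S1 g a) = Al.act S g (Ph a)) ∧
      ∀ a : G → B, Ph (a : Al S1) = PhT p S x N eps om (a : Al S) := by
  subst hS
  obtain ⟨Ph, hP1, hP2, hP3⟩ := h.exists_PhT om h1 h3
  exact ⟨Ph, hP2, hP3, fun a => hP1 a⟩

theorem TwD.exists_Ph {p : ℕ} [Fact p.Prime] {B : Type} [CommRing B] {G : Type} [Group G]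
    [Fintype G] {S : SC B G} {x : G} {N : Subgroup G} {chi : G → ℕ} {eps lam : Al S}
    (h : TwD p S x N chi eps lam) {E : Type} [NormedField E] [IsUltrametricDist E]
    [CompleteSpace E] (θ : B →+* E) {M M' C : ℝ} (hM : BdS (S.map θ) M) (hM' : 0 ≤ M')
    (he : ∀ l, ‖θ (eps l)‖ ≤ M') (hC : 0 ≤ C) (hl : ∀ l, ‖θ (lam l)‖ ≤ C) (hMC : M * C < 1) :
    ∃ (om : Al (S.map θ)) (Ph : Al (h.S'.map θ) →+* Al (S.map θ)),
      (∀ b, Ph (Al.cst _ b) = Al.cst _ b) ∧
      (∀ g a, Ph (Al.act _ g a) = Al.act _ g (Ph a)) ∧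
      (∀ (g : G) (a : G → E), Al.mapA S θ eps * Al.act (S.map θ) g (Ph (a : Al (h.S'.map θ))) =
        Al.mapA S θ eps *
          (PP p (Al.act (S.map θ) x) (Al.act (S.map θ) g (a : Al (S.map θ)))).eval om) ∧
      ∀ l m, ‖(Ph (Al.e _ l) - Al.e (S.map θ) l : Al (S.map θ)) m‖ ≤ M ^ 4 * M' * C := by
  have hj := h.map θ
  have he' : ∀ l, ‖Al.mapA S θ eps l‖ ≤ M' := fun l => by
    rw [Al.mapA_apply]
    exact he l
  have hl' : ∀ l, ‖Al.mapA S θ lam l‖ ≤ C := fun l => by
    rw [Al.mapA_apply]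
    exact hl l
  obtain ⟨om, hom1, -, hom3, hom4⟩ := exists_om hj hM hC hl' hMC
  obtain ⟨Ph, hP1, hP2, hP3⟩ := T10_trans hj om hom1 hom3 (h.S'.map θ) (S'_map θ h)
  refine ⟨om, Ph, hP1, hP2, fun g a => ?_, fun l m => ?_⟩
  · rw [hP3 a]
    exact hj.PhT_eps om hom3 g a
  · have h1 : Ph (Al.e _ l) = PhT p (S.map θ) x N (Al.mapA S θ eps) om (Al.e (S.map θ) l) :=
      hP3 (fun m => if l = m then 1 else 0)
    rw [h1]
    exact PhT_bound hj hM hM' he' hC hMC om hom4 l m

/-- Elements with `x`-invariant components are fixed by `Ph`. -/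
theorem eq_of_fixed {p : ℕ} [Fact p.Prime] {B : Type} [CommRing B] {G : Type} [Group G]
    [Fintype G] {S : SC B G} {x : G} {N : Subgroup G} {chi : G → ℕ} {eps lam : Al S}
    (h : TwD p S x N chi eps lam) (om a b : Al S)
    (hb : ∀ g, eps * Al.act S g b = eps * (PP p (Al.act S x) (Al.act S g a)).eval om)
    (ha : ∀ g, Al.act S x (eps * Al.act S g a) = eps * Al.act S g a) : b = a := by
  refine NI.ext h.ni fun g => ?_
  have h1 := h.tV_fixed (RingHom.id _) om g a (ha g)
  rw [tV, eval₂_id] at h1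
  rw [hb g]
  exact h1

end

end Pool.Agent.MP_1c8e06_ag.CY
end

section

/-!
# CY T6b: the values of the twisted algebra at 0 and at infinity

`exists_val`: rho' (h.to a) := thE zeta w' (rho a), i.e. rho' b := thE zeta w' (rho (h.fr b)).  one: rho 1 = 1 = ofL 1, `thE_ofL`.  zero, add: `thE_add`.
mul: every element of Al h.S' is h.to a (`to_fr`), h.to a * h.to b = h.to (tmul a b) (`to_tmul`); by T3 `eps_tmul` with g = 1 (act 1 = id) and rho eps = 1:
rho (tmul a b) = rho (eps * tmul a b) = rho (a * b) + ofL lam0 * rho (cc a b), so thE (rho (tmul a b)) = thE (rho (a*b)) + zeta lam0 * thE (rho (cc a b))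
(`thE_add`, `thE_ofL_mul`) = thE (rho a) * thE (rho b) by T6a `thE_mul`, as w'^p - w' - zeta (zinv F0) = zeta lam0 (hw).  (σ := act x, `charA`, `pow_act`.)
cst: rho (cst b) = ofL (e b), `thE_ofL`.
`thE_tau`: for w' = yy p F1 + ofL hh, zeta = ofL p F1: both sides are additive in a and semilinear over ofL c; by `eq_sum_coordE` it is enough to take
a = yy^i, i < p: tau (yy^i) = (yy + 1)^i = ∑_k binom(i,k) yy^k (k ≤ i < p), thE (yy^k) = w'^k (coordE of yy^k: `coordE_sum_yy`), so the left side is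
(w' + 1)^i; tau (w'^i) = (w' + 1)^i since tau w' = w' + 1.
`thE_inj`: if thE a = 0 then with Q := qE a (T6a): 0 = Q.eval₂ ofL (yy + ofL hh) = (Q.comp (X + C hh)).eval₂ ofL yy, natDegree (Q.comp (X + C hh)) < p, so
Q.comp (X + C hh) = qE 0 = 0 (`qE_unique` for F1), so Q = 0 (compose with X - C hh), a = Q(yy) = 0.
-/

set_option autoImplicit false

open Polynomial
open scoped Classical

namespace Pool.Agent.MP_1c8e06_ag.CY

open Pool.Agent.MP_1c8e06_ag.AJ

noncomputable section

set_option linter.unusedSectionVars false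

variable {p : ℕ} [Fact p.Prime] {K : Type} [Field K] [CharP K p] {F0 : K[X]}

section
variable {B : Type} [CommRing B] {G : Type} [Group G] [Fintype G]
  {S : SC B G} {x : G} {N : Subgroup G} {chi : G → ℕ} {eps lam : Al S}

/-- The value of the twisted algebra at a point over which `w'^p - w' = f + lam0`. -/
theorem TwD.exists_val (h : TwD p S x N chi eps lam) (e : B →+* LaurentSeries K)
    (rho : Al S →+* AI.EE p F0) (hc : ∀ b, rho (Al.cst S b) = AI.ofL p F0 (e b))
    (hx : ∀ a, rho (Al.act S x a) = AI.tau p F0 (rho a)) (he : rho eps = 1)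
    (lam0 : LaurentSeries K) (hl : rho lam = AI.ofL p F0 lam0)
    {E' : Type} [CommRing E'] (zeta : LaurentSeries K →+* E') (w' : E')
    (hw : w' ^ p - w' = zeta (AI.zinv K F0 + lam0)) :
    ∃ rho' : Al h.S' →+* E', (∀ a : Al S, rho' (h.to a) = thE p F0 zeta w' (rho a)) ∧
      ∀ b, rho' (Al.cst h.S' b) = zeta (e b) := by
  have hone : thE p F0 zeta w' 1 = 1 := by
    have h1 := thE_ofL (p := p) (F0 := F0) zeta w' 1
    rwa [map_one, map_one] at h1
  have hzero : thE p F0 zeta w' 0 = 0 := by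
    have h1 := thE_ofL (p := p) (F0 := F0) zeta w' 0
    rwa [map_zero, map_zero] at h1
  have hmul : ∀ a b : Al S, thE p F0 zeta w' (rho (tmul p S x N lam a b)) =
      thE p F0 zeta w' (rho a) * thE p F0 zeta w' (rho b) := by
    intro a b
    have h1 := h.eps_tmul a b 1
    simp only [Al.act_one_apply] at h1
    have h2 := congrArg rho h1
    rw [map_mul, map_add, map_mul, map_mul rho lam, he, one_mul, one_mul, hl] at h2
    have h3 := thE_mul zeta w' h.charA h.pow_act rho hx a b
    rw [h3, h2, thE_add, thE_ofL_mul, hw, map_add, add_sub_cancel_left]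
  have hfr : ∀ a b : Al h.S', h.fr (a * b) = tmul p S x N lam (h.fr a) (h.fr b) := by
    intro a b
    have h1 := h.to_tmul (h.fr a) (h.fr b)
    rw [h.to_fr, h.to_fr] at h1
    rw [← h1, h.fr_to]
  refine ⟨{ toFun := fun b => thE p F0 zeta w' (rho (h.fr b))
            map_one' := ?_
            map_mul' := fun a b => ?_
            map_zero' := ?_
            map_add' := fun a b => ?_ }, fun a => ?_, fun b => ?_⟩
  · have h1 : h.fr (1 : Al h.S') = 1 := by rw [← h.to_one, h.fr_to]
    rw [h1, map_one, hone]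
  · rw [hfr, hmul]
  · rw [map_zero, map_zero, hzero]
  · rw [map_add, map_add, thE_add]
  · change thE p F0 zeta w' (rho (h.fr (h.to a))) = _
    rw [h.fr_to]
  · change thE p F0 zeta w' (rho (h.fr (Al.cst h.S' b))) = _
    rw [← h.to_cst, h.fr_to, hc, thE_ofL]

end

private theorem T6b_yy {E' : Type} [CommRing E'] (zeta : LaurentSeries K →+* E') (w' : E') {k : ℕ}
    (hk : k < p) : thE p F0 zeta w' (AI.yy p F0 ^ k) = w' ^ k := by
  have h1 : AI.yy p F0 ^ k =
      ∑ i ∈ Finset.range p, AI.ofL p F0 (if i = k then 1 else 0) * AI.yy p F0 ^ i := by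
    rw [Finset.sum_eq_single k]
    · rw [if_pos rfl, map_one, one_mul]
    · intro i _ hi
      rw [if_neg hi, map_zero, zero_mul]
    · intro h2
      exact absurd (Finset.mem_range.2 hk) h2
  have h2 : ∀ j < p, AI.coordE p F0 (AI.yy p F0 ^ k) j = if j = k then 1 else 0 := by
    intro j hj
    rw [h1]
    exact AI.coordE_sum_yy (fun i => if i = k then (1 : LaurentSeries K) else 0) hj
  unfold thE
  rw [Finset.sum_eq_single k]
  · rw [h2 k hk, if_pos rfl, map_one, one_mul]
  · intro i hi hik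
    rw [h2 i (Finset.mem_range.1 hi), if_neg hik, map_zero, zero_mul]
  · intro h3
    exact absurd (Finset.mem_range.2 hk) h3

private theorem T6b_yy_add {E' : Type} [CommRing E'] (zeta : LaurentSeries K →+* E') (w' : E')
    {i : ℕ} (hi : i < p) : thE p F0 zeta w' ((AI.yy p F0 + 1) ^ i) = (w' + 1) ^ i := by
  rw [add_pow, add_pow, thE_sum]
  refine Finset.sum_congr rfl fun k hk => ?_
  have hk' : k < p := lt_of_le_of_lt (Nat.lt_succ_iff.1 (Finset.mem_range.1 hk)) hi
  have h1 : AI.yy p F0 ^ k * 1 ^ (i - k) * (i.choose k : AI.EE p F0) =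
      AI.ofL p F0 (i.choose k : LaurentSeries K) * AI.yy p F0 ^ k := by
    rw [map_natCast, one_pow, mul_one, mul_comm]
  rw [h1, thE_ofL_mul, T6b_yy zeta w' hk', map_natCast, one_pow, mul_one, mul_comm]

/-- The map `w^i ↦ (w1 + h)^i` commutes with `tau`. -/
theorem thE_tau {F1 : K[X]} (hh : LaurentSeries K) (a : AI.EE p F0) :
    thE p F0 (AI.ofL p F1) (AI.yy p F1 + AI.ofL p F1 hh) (AI.tau p F0 a) =
      AI.tau p F1 (thE p F0 (AI.ofL p F1) (AI.yy p F1 + AI.ofL p F1 hh) a) := by
  have h1 : AI.tau p F0 a =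
      ∑ j ∈ Finset.range p, AI.ofL p F0 (AI.coordE p F0 a j) * (AI.yy p F0 + 1) ^ j := by
    conv_lhs => rw [AI.eq_sum_coordE a]
    rw [map_sum]
    refine Finset.sum_congr rfl fun j _ => ?_
    rw [map_mul, map_pow, AI.tau_ofL, AI.tau_yy]
  have h2 : AI.tau p F1 (thE p F0 (AI.ofL p F1) (AI.yy p F1 + AI.ofL p F1 hh) a) =
      ∑ j ∈ Finset.range p, AI.ofL p F1 (AI.coordE p F0 a j) *
        (AI.yy p F1 + AI.ofL p F1 hh + 1) ^ j := by
    unfold thE
    rw [map_sum]
    refine Finset.sum_congr rfl fun j _ => ?_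
    rw [map_mul, map_pow, map_add, AI.tau_ofL, AI.tau_yy, AI.tau_ofL]
    congr 2
    ring
  rw [h1, h2, thE_sum]
  refine Finset.sum_congr rfl fun j hj => ?_
  rw [thE_ofL_mul, T6b_yy_add _ _ (Finset.mem_range.1 hj)]

theorem thE_inj {F1 : K[X]} (hh : LaurentSeries K) (a : AI.EE p F0)
    (ha : thE p F0 (AI.ofL p F1) (AI.yy p F1 + AI.ofL p F1 hh) a = 0) : a = 0 := by
  have h1 : ((qE a).comp (X + C hh)).eval₂ (AI.ofL p F1) (AI.yy p F1) = 0 := by
    rw [Polynomial.eval₂_comp, Polynomial.eval₂_add, Polynomial.eval₂_X, Polynomial.eval₂_C,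
      ← thE_eq]
    exact ha
  have h2 : ((qE a).comp (X + C hh)).natDegree < p := by
    rw [Polynomial.natDegree_comp, Polynomial.natDegree_X_add_C, mul_one]
    exact qE_natDegree_lt a
  have h3 : (qE a).comp (X + C hh) = qE (0 : AI.EE p F1) := qE_unique 0 _ h2 h1
  have h4 : (0 : (LaurentSeries K)[X]) = qE (0 : AI.EE p F1) := by
    refine qE_unique 0 _ ?_ ?_
    · rw [Polynomial.natDegree_zero]
      exact (Fact.out : p.Prime).pos
    · rw [Polynomial.eval₂_zero]
  rw [← h4] at h3
  have h5 := congrArg (fun Q : (LaurentSeries K)[X] => Q.comp (X - C hh)) h3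
  simp only [Polynomial.comp_assoc, Polynomial.add_comp, Polynomial.X_comp, Polynomial.C_comp,
    sub_add_cancel, Polynomial.comp_X, Polynomial.zero_comp] at h5
  rw [← qE_root a, h5, Polynomial.eval₂_zero]

end

end Pool.Agent.MP_1c8e06_ag.CY
end
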