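import Pool.Agent.Lib.MP_1c8e06_ag.CY.WDefs
import Pool.Agent.Lib.MP_1c8e06_ag.CY.BDefs

section

set_option autoImplicit false

open Polynomial
open scoped Classical

namespace Pool.Agent.MP_1c8e06_ag.CY

open Pool.Agent.MP_1c8e06_ag.AJ

noncomputable section

/-!
# TASK W0: trace and dual basis of `Al S`

API: `AJ/Defs.lean` (`Al.eq_sum`, `Al.e_mul_e`, `Al.one_eq_sum`, `Al.act_e`, `Al.act_cst`, `Al.act_mul_apply`,
`Al.cst_mul`, `Al.ext`, `Al.mapA_apply`, `Al.mapA_cst`, `Al.mapA_e`, `Al.mapA_act`), `AJ/A1.lean` (`cst_injective`,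
`tr_e`, `dual_e`).
Proofs.
* `cst_tA`: `a = ∑ cst (a l) * e l` (`Al.eq_sum`), `tr_e` (see the proof of `AJ.tr_mem`).
* `tA_cst_mul`: coordinates (`Al.cst_mul`).  `tA_act`: `cst_injective`, `cst_tA`, reindex the sum over the group.
* `charP_Al`: `cst` is an injective ring homomorphism (`charP_of_injective_ringHom`).
* `tA_pow`: in characteristic `p` the map `y ↦ y ^ (p ^ k)` is additive and commutes with `act x`, `cst`
  (`sum_pow_char_pow`), so `cst (tA (a^(p^k))) = (∑ act x a)^(p^k) = cst (tA a ^ (p^k))`.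
* `sum_e_bs`: this is `AJ.dual_e` (`act g (bs l) = ∑ cst (T' l m) * act g (e m)`).
* `sum_act_e_bs`: apply `act g⁻¹ `to ... : `act g (e l) * bs l = act g (e l * act g⁻¹ (bs l))`, and `sum_e_bs` for `g⁻¹`.
* `coord`: multiply `sum_e_bs g` by `act g a` and sum over `g`: `∑ l, e l * ∑ g, act g (a * bs l) = a`, i.e.
  `a = ∑ l, cst (tA (a * bs l)) * e l`; take the coordinate at `l` (`Al.cst_mul`).
* `eq_sum_bs`: the same with `sum_act_e_bs`: `∑ l, (∑ g, act g a * act g (e l)) * bs l = a`.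
* `tA_map`, `bs_map`: coordinates / definitions (`(S.map φ).ν = φ ∘ S.ν` etc. by `rfl`).
-/

variable {B : Type} [CommRing B] {G : Type} [Group G] [Fintype G] (S : SC B G)

private lemma W0_trc (b : B) (a : Al S) :
    ∑ x, Al.act S x (Al.cst S b * a) = Al.cst S b * ∑ x, Al.act S x a := by
  rw [Finset.mul_sum]
  refine Finset.sum_congr rfl fun x _ => ?_
  rw [map_mul, Al.act_cst]

private lemma W0_tA_apply (a : Al S) : tA S a = ∑ l, a l * ∑ i, S.ν i * S.T i l := rfl

theorem cst_tA (a : Al S) : Al.cst S (tA S a) = ∑ x, Al.act S x a := by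
  symm
  calc ∑ x, Al.act S x a
      = ∑ x, Al.act S x (∑ l, Al.cst S (a l) * Al.e S l) := by rw [← Al.eq_sum S a]
    _ = ∑ l, ∑ x, Al.act S x (Al.cst S (a l) * Al.e S l) := by
        rw [Finset.sum_comm]
        refine Finset.sum_congr rfl fun x _ => ?_
        rw [map_sum]
    _ = ∑ l, Al.cst S (a l) * Al.cst S (∑ i, S.ν i * S.T i l) := by
        refine Finset.sum_congr rfl fun i _ => ?_
        rw [W0_trc, tr_e]
    _ = _ := by
        rw [W0_tA_apply, map_sum]
        refine Finset.sum_congr rfl fun i _ => ?_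
        rw [map_mul]

theorem tA_cst_mul (b : B) (a : Al S) : tA S (Al.cst S b * a) = b * tA S a := by
  rw [W0_tA_apply, W0_tA_apply, Finset.mul_sum]
  refine Finset.sum_congr rfl fun l _ => ?_
  rw [Al.cst_mul, mul_assoc]

theorem tA_act (g : G) (a : Al S) : tA S (Al.act S g a) = tA S a := by
  apply cst_injective S
  rw [cst_tA, cst_tA]
  have h1 : ∀ x, Al.act S x (Al.act S g a) = Al.act S (x * g) a := fun x =>
    (Al.act_mul_apply S x g a).symm
  rw [Finset.sum_congr rfl fun x _ => h1 x]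
  exact Equiv.sum_comp (Equiv.mulRight g) (fun x => Al.act S x a)

theorem charP_Al (p : ℕ) [CharP B p] : CharP (Al S) p :=
  charP_of_injective_ringHom (cst_injective S) p

theorem tA_pow (p : ℕ) [Fact p.Prime] [CharP B p] (k : ℕ) (a : Al S) :
    tA S (a ^ (p ^ k)) = tA S a ^ (p ^ k) := by
  have := charP_Al S p
  apply cst_injective S
  rw [cst_tA, map_pow, cst_tA, sum_pow_char_pow]
  refine Finset.sum_congr rfl fun x _ => ?_
  rw [map_pow]

theorem sum_e_bs (g : G) : ∑ l, Al.e S l * Al.act S g (bs S l) = if g = 1 then 1 else 0 := by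
  rw [← dual_e S g]
  refine Finset.sum_congr rfl fun l _ => ?_
  rw [bs, map_sum, Finset.mul_sum]
  refine Finset.sum_congr rfl fun m _ => ?_
  rw [map_mul, Al.act_cst]
  ring

theorem sum_act_e_bs (g : G) : ∑ l, Al.act S g (Al.e S l) * bs S l = if g = 1 then 1 else 0 := by
  have h1 : ∑ l, Al.act S g (Al.e S l) * bs S l =
      Al.act S g (∑ l, Al.e S l * Al.act S g⁻¹ (bs S l)) := by
    rw [map_sum]
    refine Finset.sum_congr rfl fun l _ => ?_
    rw [map_mul, ← Al.act_mul_apply, mul_inv_cancel, Al.act_one_apply]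
  rw [h1, sum_e_bs]
  by_cases hg : g = 1
  · simp [hg]
  · simp [hg]

theorem coord (a : Al S) (l : G) : a l = tA S (a * bs S l) := by
  have h1 : a = ∑ l, Al.cst S (tA S (a * bs S l)) * Al.e S l := by
    symm
    calc ∑ l, Al.cst S (tA S (a * bs S l)) * Al.e S l
        = ∑ l, ∑ g, Al.act S g a * (Al.e S l * Al.act S g (bs S l)) := by
          refine Finset.sum_congr rfl fun l _ => ?_
          rw [cst_tA, Finset.sum_mul]
          refine Finset.sum_congr rfl fun g _ => ?_
          rw [map_mul]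
          ring
      _ = ∑ g, Al.act S g a * ∑ l, Al.e S l * Al.act S g (bs S l) := by
          rw [Finset.sum_comm]
          refine Finset.sum_congr rfl fun g _ => ?_
          rw [Finset.mul_sum]
      _ = ∑ g, Al.act S g a * (if g = 1 then 1 else 0) := by
          refine Finset.sum_congr rfl fun g _ => ?_
          rw [sum_e_bs]
      _ = a := by
          rw [Finset.sum_eq_single 1]
          · rw [if_pos rfl, mul_one, Al.act_one_apply]
          · intro g _ hg
            rw [if_neg hg, mul_zero]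
          · intro h
            exact absurd (Finset.mem_univ _) h
  have h2 : (fun l => tA S (a * bs S l) : Al S) =
      ∑ l, Al.cst S (tA S (a * bs S l)) * Al.e S l :=
    Al.eq_sum S (fun l => tA S (a * bs S l) : Al S)
  exact congrFun (h1.trans h2.symm) l

theorem eq_sum_bs (a : Al S) : a = ∑ l, Al.cst S (tA S (a * Al.e S l)) * bs S l := by
  symm
  calc ∑ l, Al.cst S (tA S (a * Al.e S l)) * bs S l
      = ∑ l, ∑ g, Al.act S g a * (Al.act S g (Al.e S l) * bs S l) := by
        refine Finset.sum_congr rfl fun l _ => ?_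
        rw [cst_tA, Finset.sum_mul]
        refine Finset.sum_congr rfl fun g _ => ?_
        rw [map_mul]
        ring
    _ = ∑ g, Al.act S g a * ∑ l, Al.act S g (Al.e S l) * bs S l := by
        rw [Finset.sum_comm]
        refine Finset.sum_congr rfl fun g _ => ?_
        rw [Finset.mul_sum]
    _ = ∑ g, Al.act S g a * (if g = 1 then 1 else 0) := by
        refine Finset.sum_congr rfl fun g _ => ?_
        rw [sum_act_e_bs]
    _ = a := by
        rw [Finset.sum_eq_single 1]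
        · rw [if_pos rfl, mul_one, Al.act_one_apply]
        · intro g _ hg
          rw [if_neg hg, mul_zero]
        · intro h
          exact absurd (Finset.mem_univ _) h

theorem tA_map {B' : Type} [CommRing B'] (φ : B →+* B') (a : Al S) :
    tA (S.map φ) (Al.mapA S φ a) = φ (tA S a) := by
  rw [W0_tA_apply, W0_tA_apply, map_sum]
  refine Finset.sum_congr rfl fun l _ => ?_
  rw [Al.mapA_apply, map_mul, map_sum]
  congr 1
  refine Finset.sum_congr rfl fun i _ => ?_
  rw [map_mul]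
  rfl

theorem bs_map {B' : Type} [CommRing B'] (φ : B →+* B') (l : G) :
    Al.mapA S φ (bs S l) = bs (S.map φ) l := by
  rw [bs, bs, map_sum]
  refine Finset.sum_congr rfl fun m _ => ?_
  rw [map_mul, Al.mapA_cst, Al.mapA_e]
  rfl

end

end Pool.Agent.MP_1c8e06_ag.CY
end

section

set_option autoImplicit false

open Polynomial
open scoped Classical

namespace Pool.Agent.MP_1c8e06_ag.CY

open Pool.Agent.MP_1c8e06_ag.AJ

noncomputable section

/-!
# TASK B1: maximal ideals of a Galois algebra over a field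

`E` is a field, `A := Al S` is a finite dimensional commutative `E`-algebra (structure map `Al.cst S`; for `Algebra`/`Module`
instances use `(Al.cst S).toAlgebra` locally; `A` is the `E`-module `G → E`, `Al.cst_mul`), so it is artinian
(`isArtinian_of_fg`/`IsArtinianRing` of a finite dimensional algebra), every prime ideal is maximal, and there are finitely
many maximal ideals.  Black boxes: `W0`.
* `jac_zero`: the Jacobson radical of an artinian ring is nilpotent, so `a` is nilpotent; then for every `l` the element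
  `a * bs l` is nilpotent, so `∑ act x (a * bs l) = cst (tA ..)` is nilpotent (sum of nilpotent elements), so
  `tA (a * bs l)` is nilpotent in the field `E` (`cst_injective`), i.e. `0`; `coord`: `a l = tA (a * bs l) = 0`.
* `faithful_mod`: if `g ≠ 1` then `0 = ∑ l, e l * act g (bs l)` and `1 = ∑ l, e l * bs l` (`sum_e_bs` for `g` and `1`), so
  `1 = - ∑ l, e l * (act g (bs l) - bs l) ∈ P`, contradiction.
* `trans_max`: let `P g := {a | act g a ∈ P}` (`Ideal.comap (act g) P`), prime.  Claim: `Q ⊆ ⋃ g, P g`: for `a ∈ Q` the element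
  `n := ∏ g, act g a` is fixed by `G`, so `n = cst b` (`AJ.fixed`), and `n ∈ Q` (the factor `g = 1`), so `b = 0` (otherwise `n` is a
  unit), so `0 = n ∈ P`, some `act g a ∈ P`.  Prime avoidance (`Ideal.subset_union_prime`): `Q ≤ P g` for some `g`; `Q` is maximal
  and `P g ≠ ⊤`, so `Q = P g`.
* `crt_max`: the ideals `P g`, `g : G`, are maximal (`trans_max` is not needed: `act g` is an automorphism with inverse `act g⁻¹`, the
  comap of a maximal ideal along an automorphism is maximal), and `P g = P g'` iff `g' g⁻¹` stabilises `P`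
  (`act (d g) a = act d (act g a)`).  Let `Q1 .. Qm` be the distinct ideals among them; whether `g ∈ Y` depends only on `P g` by
  `hY`.  Chinese remainder theorem for pairwise coprime (distinct maximal) ideals: e.g. take the finite set
  `T := Set.range (fun g => P g)` of ideals and `Ideal.exists_forall_sub_mem_ideal` or `Ideal.quotientInfRingEquivPiQuotient`:
  there is `e` with `e - 1 ∈ P g` for `g ∈ Y` and `e ∈ P g` for `g ∉ Y`.  `act g e - 1 = act g (e - 1)`.
-/

variable {E : Type} [Field E] {G : Type} [Group G] [Fintype G] (S : SC E G)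

private theorem B1_artinian : IsArtinianRing (Al S) := by
  letI : Algebra E (Al S) := (Al.cst S).toAlgebra
  have hfin : Module.Finite E (Al S) := by
    refine ⟨⟨Finset.univ.image (Al.e S), ?_⟩⟩
    rw [eq_top_iff]
    intro a _
    rw [Al.eq_sum S a]
    refine Submodule.sum_mem _ fun l _ => ?_
    have h1 : Al.cst S (a l) * Al.e S l = (a l) • Al.e S l := rfl
    rw [h1]
    exact Submodule.smul_mem _ _ (Submodule.subset_span (by simp))
  exact IsArtinianRing.of_finite E (Al S)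

theorem jac_zero (a : Al S) (h : ∀ P : Ideal (Al S), P.IsMaximal → a ∈ P) : a = 0 := by
  have : IsArtinianRing (Al S) := B1_artinian S
  have ha : a ∈ Ideal.jacobson (⊥ : Ideal (Al S)) := by
    rw [Ideal.jacobson, Submodule.mem_sInf]
    rintro P ⟨-, hP⟩
    exact h P hP
  have hnil : IsNilpotent a := by
    obtain ⟨n, hn⟩ := IsArtinianRing.isNilpotent_jacobson_bot (R := Al S)
    refine ⟨n, ?_⟩
    have h1 := Ideal.pow_mem_pow ha n
    rw [hn] at h1
    simpa using h1
  have key : ∀ y : Al S, IsNilpotent y → tA S y = 0 := by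
    intro y hy
    have h1 : IsNilpotent (Al.cst S (tA S y)) := by
      rw [cst_tA]
      exact isNilpotent_sum fun x _ => hy.map (Al.act S x)
    obtain ⟨n, hn⟩ := h1
    rw [← map_pow, ← map_zero (Al.cst S)] at hn
    exact eq_zero_of_pow_eq_zero (cst_injective S hn)
  refine Al.ext fun l => ?_
  rw [coord S a l, Al.zero_apply]
  exact key _ ((Commute.all _ _).isNilpotent_mul_right hnil)

theorem faithful_mod (P : Ideal (Al S)) (hP : P.IsMaximal) (g : G)
    (h : ∀ a, Al.act S g a - a ∈ P) : g = 1 := by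
  by_contra hg
  have h1 := sum_e_bs S g
  rw [if_neg hg] at h1
  have h2 := sum_e_bs S (1 : G)
  rw [if_pos rfl] at h2
  simp only [Al.act_one_apply] at h2
  have h3 : (1 : Al S) = - ∑ l, Al.e S l * (Al.act S g (bs S l) - bs S l) := by
    simp only [mul_sub, Finset.sum_sub_distrib, h1, h2]
    ring
  refine hP.ne_top ((Ideal.eq_top_iff_one _).2 ?_)
  rw [h3]
  exact P.neg_mem (P.sum_mem fun l _ => P.mul_mem_left _ (h _))

theorem trans_max (P Q : Ideal (Al S)) (hP : P.IsMaximal) (hQ : Q.IsMaximal) :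
    ∃ g : G, ∀ a, a ∈ Q ↔ Al.act S g a ∈ P := by
  have hPp : P.IsPrime := hP.isPrime
  have hpr : ∀ g : G, (P.comap (Al.act S g)).IsPrime := fun g => Ideal.comap_isPrime _ _
  have hsub : (Q : Set (Al S)) ⊆ ⋃ g ∈ (↑(Finset.univ : Finset G) : Set G),
      (P.comap (Al.act S g) : Ideal (Al S)) := by
    intro a ha
    have hfix : ∀ u, Al.act S u (∏ g, Al.act S g a) = ∏ g, Al.act S g a := by
      intro u
      rw [map_prod]
      simp only [← Al.act_mul_apply]
      exact Fintype.prod_equiv (Equiv.mulLeft u) _ _ fun x => rfl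
    obtain ⟨b, hb⟩ := fixed S _ hfix
    have hnQ : ∏ g, Al.act S g a ∈ Q := by
      rw [← Finset.mul_prod_erase Finset.univ _ (Finset.mem_univ (1 : G)), Al.act_one_apply]
      exact Q.mul_mem_right _ ha
    have hb0 : b = 0 := by
      by_contra hb0
      refine hQ.ne_top ((Ideal.eq_top_iff_one _).2 ?_)
      rw [hb] at hnQ
      have h1 := Q.mul_mem_left (Al.cst S b⁻¹) hnQ
      rwa [← map_mul, inv_mul_cancel₀ hb0, map_one] at h1
    have hnP : ∏ g, Al.act S g a ∈ P := by
      rw [hb, hb0, map_zero]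
      exact P.zero_mem
    obtain ⟨g, -, hg⟩ := (Ideal.IsPrime.prod_mem_iff (hp := hPp)).1 hnP
    simp only [Set.mem_iUnion]
    exact ⟨g, by simp, hg⟩
  obtain ⟨g, -, hg⟩ := (Ideal.subset_union_prime (1 : G) 1 fun i _ _ _ => hpr i).1 hsub
  have he : Q = P.comap (Al.act S g) := hQ.eq_of_le (hpr g).ne_top hg
  refine ⟨g, fun a => ?_⟩
  conv_lhs => rw [he]
  rfl

theorem crt_max (P : Ideal (Al S)) (hP : P.IsMaximal) (Y : Set G)
    (hY : ∀ d g, (∀ a, a ∈ P ↔ Al.act S d a ∈ P) → (g ∈ Y ↔ d * g ∈ Y)) :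
    ∃ e : Al S, (∀ g ∈ Y, Al.act S g e - 1 ∈ P) ∧ ∀ g, g ∉ Y → Al.act S g e ∈ P := by
  have hsurj : ∀ g : G, Function.Surjective (Al.act S g) := fun g a =>
    ⟨Al.act S g⁻¹ a, by rw [← Al.act_mul_apply, mul_inv_cancel, Al.act_one_apply]⟩
  have hmax : ∀ g : G, (P.comap (Al.act S g)).IsMaximal := fun g =>
    Ideal.comap_isMaximal_of_surjective _ (hsurj g)
  -- the set of the distinct ideals
  let I : Set.range (fun g : G => P.comap (Al.act S g)) → Ideal (Al S) := fun J => J.1
  have hI : Pairwise (Function.onFun IsCoprime I) := by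
    intro J J' hJ
    have hJm : (I J).IsMaximal := by
      obtain ⟨g, hg⟩ := J.2
      have : I J = P.comap (Al.act S g) := hg.symm
      rw [this]
      exact hmax g
    have hJm' : (I J').IsMaximal := by
      obtain ⟨g, hg⟩ := J'.2
      have : I J' = P.comap (Al.act S g) := hg.symm
      rw [this]
      exact hmax g
    refine Ideal.isCoprime_iff_sup_eq.2 (hJm.coprime_of_ne hJm' ?_)
    exact fun h => hJ (Subtype.ext h)
  obtain ⟨e, he⟩ := Ideal.pi_quotient_surjective hI
    (fun J => if ∃ g ∈ Y, J.1 = P.comap (Al.act S g) then 1 else 0)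
  have hall : ∀ g : G, (Ideal.Quotient.mk (P.comap (Al.act S g)) e) =
      if ∃ g' ∈ Y, P.comap (Al.act S g) = P.comap (Al.act S g') then 1 else 0 := by
    intro g
    exact he ⟨P.comap (Al.act S g), g, rfl⟩
  refine ⟨e, fun g hg => ?_, fun g hg => ?_⟩
  · have h1 := hall g
    rw [if_pos ⟨g, hg, rfl⟩, ← map_one (Ideal.Quotient.mk (P.comap (Al.act S g))),
      Ideal.Quotient.mk_eq_mk_iff_sub_mem] at h1
    have h2 : Al.act S g (e - 1) ∈ P := h1
    rwa [map_sub, map_one] at h2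
  · have h1 := hall g
    have h2 : ¬ ∃ g' ∈ Y, P.comap (Al.act S g) = P.comap (Al.act S g') := by
      rintro ⟨g', hg', h⟩
      refine hg ?_
      have h3 := (hY (g * g'⁻¹) g' ?_).1 hg'
      · rwa [inv_mul_cancel_right] at h3
      · intro a
        have h4 : (Al.act S g⁻¹ : Al S →+* Al S) = Al.act S g⁻¹ := rfl
        have h5 : ∀ b, Al.act S g b ∈ P ↔ Al.act S g' b ∈ P := fun b => by
          have h6 : b ∈ P.comap (Al.act S g) ↔ b ∈ P.comap (Al.act S g') := by rw [h]
          exact h6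
        rw [Al.act_mul_apply, h5, ← Al.act_mul_apply, mul_inv_cancel, Al.act_one_apply]
    rw [if_neg h2, Ideal.Quotient.eq_zero_iff_mem] at h1
    exact h1

end

end Pool.Agent.MP_1c8e06_ag.CY
end

section

set_option autoImplicit false

open Polynomial
open scoped Classical

namespace Pool.Agent.MP_1c8e06_ag.CY

open Pool.Agent.MP_1c8e06_ag.AJ

noncomputable section

/-!
# TASK B2: multiplicative seminorms of a Galois algebra over a complete field

`E` complete ultrametric field with norm group `ℝ_{>0}` (`hE`), so nontrivially normed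
(`NontriviallyNormedField.ofNormNeOne` or a local structure).  `A := Al S`, `MS S norm`: multiplicative ultrametric seminorms
which extend the norm of `E` (`CY/Defs.lean`).  Black box: `B1`.
* `MS_ideal`: `P := {a | W.w a = 0}` is an ideal (`W.add`, `W.mul`, `W.nonneg`; `W.w (-a) = W.w a` because
  `-a = cst (-1) * a`), proper (`W.w 1 = 1`), prime (`W.mul`); `A` is a finite dimensional algebra over the field `E`, so `P` is
  maximal.
* `exists_MS`: `L := A ⧸ P` is a field, finite over `E` (algebra structure `(Ideal.Quotient.mk P).comp (Al.cst S)`).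
  `spectralNorm E L` is multiplicative because `E` is complete (Mathlib `spectralNorm` file: `spectralMulAlgNorm`,
  `spectralNorm_mul`, `isNonarchimedean_spectralNorm`, `spectralNorm_extends`), ultrametric, extends the norm, and it is `0`
  only at `0` (multiplicative and `1 ↦ 1`, or `spectralNorm_zero_lt`).  `W.w a := spectralNorm E L (mk a)`.
* `MS_unique`: both `W` and `W'` factor through the same field `L := A ⧸ P` (`W.w (a + c) = W.w a` for `W.w c = 0`, by the
  ultrametric inequality in both directions) and are multiplicative ultrametric norms on `L` which extend the norm of `E`, so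
  they are equal to the spectral norm (`spectralNorm_unique_field_norm_ext`: uniqueness of the extension of the norm of a
  complete field to an algebraic extension; or `spectralNorm_unique`).
* `MS_trans`: let `P`, `Q` be the ideals of `W`, `W'` (`MS_ideal`); `trans_max`: `g` with `a ∈ Q ↔ act g a ∈ P`.  The
  seminorm `W.tw g` (`BDefs`) has the same zeros as `W'`; `MS_unique`.
-/

variable {E : Type} [NormedField E] [CompleteSpace E] [IsUltrametricDist E]
  {G : Type} [Group G] [Fintype G] {S : SC E G}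

/-- Multiplicative ultrametric norms on an algebraic extension. -/
private structure B2_N (K L : Type) [NormedField K] [Field L] [Algebra K L] (w : L → ℝ) : Prop where
  nonneg : ∀ a, 0 ≤ w a
  one : w 1 = 1
  mul : ∀ a b, w (a * b) = w a * w b
  add : ∀ a b, w (a + b) ≤ max (w a) (w b)
  ext : ∀ c : K, w (algebraMap K L c) = ‖c‖
  zero : ∀ a, w a = 0 → a = 0

private theorem B2_ex {K L : Type} [NontriviallyNormedField K] [CompleteSpace K]
    [IsUltrametricDist K] [Field L] [Algebra K L] [Algebra.IsAlgebraic K L] :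
    B2_N K L (spectralNorm K L) where
  nonneg := spectralNorm_nonneg
  one := spectralNorm_one
  mul a b := spectralAlgNorm_mul (K := K) (L := L) a b
  add := isNonarchimedean_spectralNorm
  ext := spectralNorm_extends
  zero a ha := eq_zero_of_map_spectralNorm_eq_zero ha (Algebra.IsAlgebraic.isAlgebraic a)

private theorem B2_uniq {K L : Type} [NontriviallyNormedField K] [CompleteSpace K]
    [IsUltrametricDist K] [Field L] [Algebra K L] [Algebra.IsAlgebraic K L] {w : L → ℝ}
    (h : B2_N K L w) (x : L) : w x = spectralNorm K L x := by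
  let f : AbsoluteValue L ℝ :=
    { toFun := w
      map_mul' := h.mul
      nonneg' := h.nonneg
      eq_zero' := fun a => by
        refine ⟨h.zero a, ?_⟩
        rintro rfl
        have h1 := h.ext 0
        rw [map_zero, norm_zero] at h1
        exact h1
      add_le' := fun a b => (h.add a b).trans
        (max_le (le_add_of_nonneg_right (h.nonneg b)) (le_add_of_nonneg_left (h.nonneg a))) }
  exact spectralNorm_unique_field_norm_ext (K := K) (L := L) (f := f) h.ext x

/-- The algebra structure on `Al S`. -/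
@[reducible] private def B2_alg (S : SC E G) : Algebra E (Al S) := (Al.cst S).toAlgebra

private theorem B2_fin (S : SC E G) :
    letI := B2_alg S
    Module.Finite E (Al S) := by
  letI := B2_alg S
  refine ⟨⟨Finset.univ.image (Al.e S), ?_⟩⟩
  rw [eq_top_iff]
  intro a _
  rw [Al.eq_sum S a]
  refine Submodule.sum_mem _ fun l _ => ?_
  have h : Al.cst S (a l) * Al.e S l = a l • Al.e S l := (Algebra.smul_def (a l) (Al.e S l)).symm
  rw [h]
  refine Submodule.smul_mem _ _ (Submodule.subset_span ?_)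
  rw [Finset.coe_image]
  exact ⟨l, Finset.mem_coe.2 (Finset.mem_univ l), rfl⟩

private theorem B2_neg (W : MS S fun c => ‖c‖) (a : Al S) : W.w (-a) = W.w a := by
  have h : -a = Al.cst S (-1) * a := by rw [map_neg, map_one, neg_one_mul]
  rw [h, W.mul, W.cst, norm_neg, norm_one, one_mul]

private theorem B2_zero (W : MS S fun c => ‖c‖) : W.w 0 = 0 := W.zero norm_zero

private theorem B2_le (W : MS S fun c => ‖c‖) {a b : Al S} (h : W.w (a - b) = 0) :
    W.w a ≤ W.w b := by
  have h1 := W.add b (a - b)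
  rw [add_sub_cancel, h, max_eq_left (W.nonneg b)] at h1
  exact h1

private theorem B2_eq (W : MS S fun c => ‖c‖) {a b : Al S} (h : W.w (a - b) = 0) :
    W.w a = W.w b := by
  refine le_antisymm (B2_le W h) (B2_le W ?_)
  rw [← neg_sub, B2_neg, h]

/-- The zero ideal of a seminorm. -/
private def B2_P (W : MS S fun c => ‖c‖) : Ideal (Al S) where
  carrier := {a | W.w a = 0}
  zero_mem' := B2_zero W
  add_mem' := fun {a b} ha hb => by
    have h := W.add a b
    rw [Set.mem_setOf_eq] at ha hb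
    rw [ha, hb, max_self] at h
    exact le_antisymm h (W.nonneg _)
  smul_mem' := fun c x hx => by
    rw [Set.mem_setOf_eq] at hx
    rw [Set.mem_setOf_eq, smul_eq_mul, W.mul, hx, mul_zero]

private theorem B2_mem (W : MS S fun c => ‖c‖) (a : Al S) : a ∈ B2_P W ↔ W.w a = 0 := Iff.rfl

theorem MS_ideal (W : MS S fun c => ‖c‖) :
    ∃ P : Ideal (Al S), P.IsMaximal ∧ ∀ a, a ∈ P ↔ W.w a = 0 := by
  refine ⟨B2_P W, ?_, B2_mem W⟩
  letI := B2_alg S
  haveI := B2_fin S
  haveI : IsArtinianRing (Al S) := IsArtinianRing.of_finite E (Al S)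
  haveI : (B2_P W).IsPrime := by
    refine ⟨?_, ?_⟩
    · intro h
      have h1 : (1 : Al S) ∈ B2_P W := by rw [h]; trivial
      rw [B2_mem, W.one] at h1
      exact one_ne_zero h1
    · intro a b hab
      rw [B2_mem, W.mul, mul_eq_zero] at hab
      exact hab
  exact IsArtinianRing.isMaximal_of_isPrime (B2_P W)

private theorem B2_nontriv (hE : ∀ r : ℝ, 0 < r → ∃ c : E, ‖c‖ = r) :
    ∃ x : E, x ≠ 0 ∧ ‖x‖ ≠ 1 := by
  obtain ⟨c, hc⟩ := hE 2 two_pos
  refine ⟨c, ?_, ?_⟩
  · rintro rfl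
    rw [norm_zero] at hc
    exact two_ne_zero hc.symm
  · rw [hc]
    norm_num

/-- The norm on the residue field. -/
private theorem B2_main (hE : ∀ r : ℝ, 0 < r → ∃ c : E, ‖c‖ = r) (P : Ideal (Al S))
    (hP : P.IsMaximal) :
    ∃ w : Al S ⧸ P → ℝ, (∀ a, 0 ≤ w a) ∧ w 1 = 1 ∧ (∀ a b, w (a * b) = w a * w b) ∧
      (∀ a b, w (a + b) ≤ max (w a) (w b)) ∧
      (∀ c : E, w (Ideal.Quotient.mk P (Al.cst S c)) = ‖c‖) ∧ (∀ a, w a = 0 → a = 0) ∧
      ∀ w' : Al S ⧸ P → ℝ, (∀ a, 0 ≤ w' a) → w' 1 = 1 → (∀ a b, w' (a * b) = w' a * w' b) →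
        (∀ a b, w' (a + b) ≤ max (w' a) (w' b)) →
        (∀ c : E, w' (Ideal.Quotient.mk P (Al.cst S c)) = ‖c‖) → (∀ a, w' a = 0 → a = 0) →
        ∀ x, w' x = w x := by
  letI : NontriviallyNormedField E := NontriviallyNormedField.ofNormNeOne (B2_nontriv hE)
  letI := B2_alg S
  haveI := B2_fin S
  letI : Field (Al S ⧸ P) := Ideal.Quotient.field P
  haveI : Module.Finite E (Al S ⧸ P) := inferInstance
  haveI : Algebra.IsAlgebraic E (Al S ⧸ P) := Algebra.IsAlgebraic.of_finite E (Al S ⧸ P)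
  have h := B2_ex (K := E) (L := Al S ⧸ P)
  refine ⟨spectralNorm E (Al S ⧸ P), h.nonneg, h.one, h.mul, h.add, h.ext, h.zero, ?_⟩
  intro w' h1 h2 h3 h4 h5 h6 x
  exact B2_uniq (K := E) (L := Al S ⧸ P) ⟨h1, h2, h3, h4, h5, h6⟩ x

theorem exists_MS (hE : ∀ r : ℝ, 0 < r → ∃ c : E, ‖c‖ = r) (P : Ideal (Al S)) (hP : P.IsMaximal) :
    ∃ W : MS S fun c => ‖c‖, ∀ a, W.w a = 0 ↔ a ∈ P := by
  obtain ⟨w, h1, h2, h3, h4, h5, h6, -⟩ := B2_main hE P hP
  have h0 : w 0 = 0 := by
    have h := h5 0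
    rwa [map_zero, map_zero, norm_zero] at h
  refine ⟨⟨fun a => w (Ideal.Quotient.mk P a), fun a => h1 _, ?_, fun a b => ?_, fun a b => ?_,
    h5⟩, fun a => ?_⟩
  · rw [map_one]
    exact h2
  · rw [map_mul]
    exact h3 _ _
  · rw [map_add]
    exact h4 _ _
  · change w (Ideal.Quotient.mk P a) = 0 ↔ a ∈ P
    rw [← Ideal.Quotient.eq_zero_iff_mem]
    constructor
    · exact h6 _
    · intro h
      rw [h, h0]

/-- A seminorm factors through its residue field. -/
private theorem B2_factor (W : MS S fun c => ‖c‖) (P : Ideal (Al S))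
    (hP : ∀ a, a ∈ P ↔ W.w a = 0) : ∃ w : Al S ⧸ P → ℝ,
      (∀ a, w (Ideal.Quotient.mk P a) = W.w a) ∧ (∀ a, 0 ≤ w a) ∧ w 1 = 1 ∧
      (∀ a b, w (a * b) = w a * w b) ∧ (∀ a b, w (a + b) ≤ max (w a) (w b)) ∧
      (∀ c : E, w (Ideal.Quotient.mk P (Al.cst S c)) = ‖c‖) ∧ ∀ a, w a = 0 → a = 0 := by
  have hsurj : Function.Surjective (Ideal.Quotient.mk P) := Ideal.Quotient.mk_surjective
  obtain ⟨w, hw⟩ : ∃ w : Al S ⧸ P → ℝ, ∀ a, w (Ideal.Quotient.mk P a) = W.w a := by
    refine ⟨fun x => W.w (Function.surjInv hsurj x), fun a => ?_⟩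
    refine B2_eq W ?_
    rw [← hP, ← Ideal.Quotient.mk_eq_mk_iff_sub_mem]
    exact Function.surjInv_eq hsurj _
  refine ⟨w, hw, fun x => ?_, ?_, fun x y => ?_, fun x y => ?_, fun c => ?_, fun x hx => ?_⟩
  · obtain ⟨a, rfl⟩ := hsurj x
    rw [hw]
    exact W.nonneg a
  · rw [← map_one (Ideal.Quotient.mk P), hw, W.one]
  · obtain ⟨a, rfl⟩ := hsurj x
    obtain ⟨b, rfl⟩ := hsurj y
    rw [← map_mul, hw, hw, hw, W.mul]
  · obtain ⟨a, rfl⟩ := hsurj x
    obtain ⟨b, rfl⟩ := hsurj y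
    rw [← map_add, hw, hw, hw]
    exact W.add a b
  · rw [hw, W.cst]
  · obtain ⟨a, rfl⟩ := hsurj x
    rw [hw, ← hP] at hx
    exact Ideal.Quotient.eq_zero_iff_mem.2 hx

theorem MS_unique (hE : ∀ r : ℝ, 0 < r → ∃ c : E, ‖c‖ = r) (W W' : MS S fun c => ‖c‖)
    (h : ∀ a, W.w a = 0 ↔ W'.w a = 0) (a : Al S) : W.w a = W'.w a := by
  obtain ⟨P, hP, hPW⟩ := MS_ideal W
  obtain ⟨w, -, -, -, -, -, -, hu⟩ := B2_main hE P hP
  obtain ⟨w1, g0, g1, g2, g3, g4, g5, g6⟩ := B2_factor W P hPW
  obtain ⟨w2, k0, k1, k2, k3, k4, k5, k6⟩ := B2_factor W' P fun a => (hPW a).trans (h a)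
  rw [← g0 a, ← k0 a, hu w1 g1 g2 g3 g4 g5 g6, hu w2 k1 k2 k3 k4 k5 k6]

theorem MS_trans (hE : ∀ r : ℝ, 0 < r → ∃ c : E, ‖c‖ = r) (W W' : MS S fun c => ‖c‖) :
    ∃ g : G, ∀ a, W'.w a = W.w (Al.act S g a) := by
  obtain ⟨P, hP, hPW⟩ := MS_ideal W
  obtain ⟨Q, hQ, hQW⟩ := MS_ideal W'
  obtain ⟨g, hg⟩ := trans_max S P Q hP hQ
  refine ⟨g, fun a => MS_unique hE W' (W.tw g) (fun b => ?_) a⟩
  rw [MS.tw_w, ← hQW, ← hPW]
  exact hg b

/-- An element on which all translates of `W` vanish is zero. -/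
theorem MS_zero (hE : ∀ r : ℝ, 0 < r → ∃ c : E, ‖c‖ = r) (W : MS S fun c => ‖c‖) (a : Al S)
    (h : ∀ g, W.w (Al.act S g a) = 0) : a = 0 := by
  obtain ⟨P, hP, hPW⟩ := MS_ideal W
  refine jac_zero S a fun Q hQ => ?_
  obtain ⟨g, hg⟩ := trans_max S P Q hP hQ
  rw [hg, hPW]
  exact h g

/-- Chinese remainder theorem in terms of `W`. -/
theorem MS_crt (hE : ∀ r : ℝ, 0 < r → ∃ c : E, ‖c‖ = r) (W : MS S fun c => ‖c‖) (Y : Set G)
    (hY : ∀ d g, InD W d → (g ∈ Y ↔ d * g ∈ Y)) :
    ∃ e : Al S, (∀ g ∈ Y, W.w (Al.act S g e - 1) = 0) ∧ ∀ g, g ∉ Y → W.w (Al.act S g e) = 0 := by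
  obtain ⟨P, hP, hPW⟩ := MS_ideal W
  obtain ⟨e, he1, he2⟩ := crt_max S P hP Y fun d g hd => hY d g fun a => by
    refine (MS_unique hE W (W.tw d) (fun a => ?_) a).symm
    rw [MS.tw_w, ← hPW, ← hPW]
    exact hd a
  exact ⟨e, fun g hg => (hPW _).1 (he1 g hg), fun g hg => (hPW _).1 (he2 g hg)⟩

end

end Pool.Agent.MP_1c8e06_ag.CY
end

section

set_option autoImplicit false

open Polynomial
open scoped Classical

namespace Pool.Agent.MP_1c8e06_ag.CY

open Pool.Agent.MP_1c8e06_ag.AJ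

noncomputable section

/-!
# TASK W1: the operator `PsiA`

`q := p ^ k`.  `W0` is a black box.  Write `e l`, `b l := bs S l`, `t := tA S`, `Ψ := PsiA S ψ q`:
`Ψ a = ∑ l, e l ^ q * cst (ψ (t (a * b l ^ q)))`.
(EXP) for all `a`: `a = ∑ l, e l ^ q * cst (t (a * b l ^ q))`: raise `sum_e_bs g` to the power `q` (`sum_pow_char_pow`
in the ring `Al S` of characteristic `p`, `charP_Al`; `if`s: `0^q = 0`), multiply by `act g a`, sum over `g`, `cst_tA`.
* `PsiA_cst`: `t (cst c * b l ^ q) = c * t (b l) ^ q` (`tA_cst_mul`, `tA_pow`), so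
  `ψ (..) = t (b l) ^ q * ψ c` (`hψ`), and `∑ l, e l ^ q * cst (t (b l)) ^ q = (∑ l, e l * cst (t (b l))) ^ q = 1`
  (`coord` for `a = 1` and `Al.eq_sum`).
* `PsiA_pow_mul`: `c * b l = ∑ n, cst (γ l n) * b n` with `γ l n := t (c * b l * e n)` (`eq_sum_bs`), so
  `c ^ q * a * b l ^ q = a * (c * b l) ^ q = ∑ n, cst (γ l n ^ q) * (a * b n ^ q)`,
  `ψ (t (..)) = ∑ n, γ l n ^ q * ψ (t (a * b n ^ q))` (`tA_cst_mul`, `hψ`).  Hence
  `Ψ (c ^ q * a) = ∑ n, (∑ l, e l * cst (γ l n)) ^ q * cst (ψ (t (a * b n ^ q)))` and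
  `∑ l, cst (t (c * e n * b l)) * e l = c * e n` (`coord`, `Al.eq_sum`).
* `PsiA_uniq`: `ρ a = ∑ l, ρ (e l) ^ q * ρ (cst (t (a * b l ^ q)))` by (EXP); apply `Φ` and `hΦ`, `hρ`.
* `PsiA_act`: `PsiA_uniq` for `R := Al S`, `Φ := Ψ`, `ρ := act g` (`PsiA_pow_mul`, `PsiA_cst`, `Al.act_cst`).
* `PsiA_cst_mul`: directly from the definition (`tA_cst_mul`, `hc`).
* `PsiA_map`: `PsiA_uniq` for `R := Al (S.map φ)`, `Φ := PsiA (S.map φ) ψ' q`, `ρ := mapA S φ` (`Al.mapA_cst`,
  `PsiA_pow_mul`, `PsiA_cst` for `S.map φ`).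
-/

variable {B : Type} [CommRing B] {G : Type} [Group G] [Fintype G] (S : SC B G)
  (p : ℕ) [Fact p.Prime] [CharP B p] (k : ℕ) (ψ : B →+ B)

private theorem W1_apply (q : ℕ) (a : Al S) :
    PsiA S ψ q a = ∑ l, Al.e S l ^ q * Al.cst S (ψ (tA S (a * bs S l ^ q))) := rfl

include p in
private theorem W1_sum_pow {ι : Type} (s : Finset ι) (f : ι → Al S) :
    (∑ i ∈ s, f i) ^ (p ^ k) = ∑ i ∈ s, f i ^ (p ^ k) := by
  have := charP_Al S p
  exact sum_pow_char_pow p k s f

private theorem W1_exp (a : Al S) :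
    a = ∑ l, Al.e S l ^ (p ^ k) * Al.cst S (tA S (a * bs S l ^ (p ^ k))) := by
  have hq : p ^ k ≠ 0 := pow_ne_zero _ (Fact.out : p.Prime).ne_zero
  have h1 : ∀ g : G, ∑ l, Al.e S l ^ (p ^ k) * Al.act S g (a * bs S l ^ (p ^ k)) =
      if g = 1 then a else 0 := by
    intro g
    have h2 := congrArg (fun y => y ^ (p ^ k)) (sum_e_bs S g)
    simp only [W1_sum_pow S p k] at h2
    have h3 : ∑ l, Al.e S l ^ (p ^ k) * Al.act S g (a * bs S l ^ (p ^ k)) =
        Al.act S g a * ∑ l, (Al.e S l * Al.act S g (bs S l)) ^ (p ^ k) := by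
      rw [Finset.mul_sum]
      refine Finset.sum_congr rfl fun l _ => ?_
      rw [map_mul, map_pow, mul_pow]
      ring
    rw [h3, h2]
    split_ifs with hg
    · rw [hg, one_pow, mul_one, Al.act_one_apply]
    · rw [zero_pow hq, mul_zero]
  have h4 : ∑ l, Al.e S l ^ (p ^ k) * Al.cst S (tA S (a * bs S l ^ (p ^ k))) =
      ∑ g : G, if g = 1 then a else 0 := by
    rw [← Finset.sum_congr rfl fun g _ => h1 g, Finset.sum_comm]
    refine Finset.sum_congr rfl fun l _ => ?_
    rw [cst_tA, Finset.mul_sum]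
  rw [h4, Finset.sum_ite_eq' Finset.univ (1 : G) fun _ => a]
  simp

theorem PsiA_cst (hψ : ∀ c b, ψ (c ^ (p ^ k) * b) = c ^ (p ^ k) * ψ b) (c : B) :
    PsiA S ψ (p ^ k) (Al.cst S c) = Al.cst S (ψ c) := by
  rw [W1_apply]
  have h1 : ∀ l, Al.e S l ^ (p ^ k) * Al.cst S (ψ (tA S (Al.cst S c * bs S l ^ (p ^ k)))) =
      Al.cst S (ψ c) * (Al.e S l * Al.cst S (tA S (bs S l))) ^ (p ^ k) := by
    intro l
    rw [tA_cst_mul, tA_pow, mul_comm c, hψ, map_mul, map_pow, mul_pow]
    ring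
  rw [Finset.sum_congr rfl fun l _ => h1 l, ← Finset.mul_sum, ← W1_sum_pow S p k]
  have h2 : ∑ l, Al.e S l * Al.cst S (tA S (bs S l)) = 1 := by
    conv_rhs => rw [Al.eq_sum S 1]
    refine Finset.sum_congr rfl fun l _ => ?_
    rw [coord S 1 l, one_mul, mul_comm]
  rw [h2, one_pow, mul_one]

theorem PsiA_pow_mul (hψ : ∀ c b, ψ (c ^ (p ^ k) * b) = c ^ (p ^ k) * ψ b) (c a : Al S) :
    PsiA S ψ (p ^ k) (c ^ (p ^ k) * a) = c ^ (p ^ k) * PsiA S ψ (p ^ k) a := by
  rw [W1_apply, W1_apply]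
  have h1 : ∀ l, tA S (c ^ (p ^ k) * a * bs S l ^ (p ^ k)) =
      ∑ n, tA S (c * bs S l * Al.e S n) ^ (p ^ k) * tA S (a * bs S n ^ (p ^ k)) := by
    intro l
    have h2 : c ^ (p ^ k) * a * bs S l ^ (p ^ k) = a * (c * bs S l) ^ (p ^ k) := by
      rw [mul_pow]
      ring
    have h3 := eq_sum_bs S (c * bs S l)
    have h4 : a * (c * bs S l) ^ (p ^ k) =
        ∑ n, Al.cst S (tA S (c * bs S l * Al.e S n) ^ (p ^ k)) * (a * bs S n ^ (p ^ k)) := by
      conv_lhs => rw [h3]
      rw [W1_sum_pow S p k, Finset.mul_sum]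
      refine Finset.sum_congr rfl fun n _ => ?_
      rw [mul_pow, map_pow]
      ring
    rw [h2, h4, map_sum]
    refine Finset.sum_congr rfl fun n _ => ?_
    rw [tA_cst_mul]
  have h5 : ∀ l, Al.e S l ^ (p ^ k) *
      Al.cst S (ψ (tA S (c ^ (p ^ k) * a * bs S l ^ (p ^ k)))) =
      ∑ n, (Al.e S l * Al.cst S (tA S (c * bs S l * Al.e S n))) ^ (p ^ k) *
        Al.cst S (ψ (tA S (a * bs S n ^ (p ^ k)))) := by
    intro l
    rw [h1, map_sum, map_sum, Finset.mul_sum]
    refine Finset.sum_congr rfl fun n _ => ?_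
    rw [hψ, map_mul, map_pow, mul_pow]
    ring
  rw [Finset.sum_congr rfl fun l _ => h5 l, Finset.sum_comm, Finset.mul_sum]
  refine Finset.sum_congr rfl fun n _ => ?_
  rw [← Finset.sum_mul, ← W1_sum_pow S p k]
  have h6 : ∑ l, Al.e S l * Al.cst S (tA S (c * bs S l * Al.e S n)) = c * Al.e S n := by
    conv_rhs => rw [Al.eq_sum S (c * Al.e S n)]
    refine Finset.sum_congr rfl fun l _ => ?_
    have h7 : c * bs S l * Al.e S n = c * Al.e S n * bs S l := by ring
    rw [coord S (c * Al.e S n) l, h7, mul_comm]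
  rw [h6, mul_pow, mul_assoc]

theorem PsiA_uniq {R : Type} [CommRing R] (Φ : R →+ R)
    (hΦ : ∀ c b, Φ (c ^ (p ^ k) * b) = c ^ (p ^ k) * Φ b) (ρ : Al S →+* R)
    (hρ : ∀ b, Φ (ρ (Al.cst S b)) = ρ (Al.cst S (ψ b))) (a : Al S) :
    Φ (ρ a) = ρ (PsiA S ψ (p ^ k) a) := by
  conv_lhs => rw [W1_exp S p k a]
  rw [W1_apply, map_sum, map_sum, map_sum]
  refine Finset.sum_congr rfl fun l _ => ?_
  rw [map_mul ρ, map_pow ρ, hΦ, hρ, map_mul ρ, map_pow ρ]

theorem PsiA_act (hψ : ∀ c b, ψ (c ^ (p ^ k) * b) = c ^ (p ^ k) * ψ b) (g : G) (a : Al S) :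
    PsiA S ψ (p ^ k) (Al.act S g a) = Al.act S g (PsiA S ψ (p ^ k) a) := by
  refine PsiA_uniq S p k ψ (PsiA S ψ (p ^ k)) (fun c b => PsiA_pow_mul S p k ψ hψ c b)
    (Al.act S g) (fun b => ?_) a
  rw [Al.act_cst, Al.act_cst, PsiA_cst S p k ψ hψ]

theorem PsiA_cst_mul (q : ℕ) (c : B) (hc : ∀ b, ψ (c * b) = c * ψ b) (a : Al S) :
    PsiA S ψ q (Al.cst S c * a) = Al.cst S c * PsiA S ψ q a := by
  rw [W1_apply, W1_apply, Finset.mul_sum]
  refine Finset.sum_congr rfl fun l _ => ?_
  rw [mul_assoc, tA_cst_mul, hc, map_mul]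
  ring

theorem PsiA_map {B' : Type} [CommRing B'] [CharP B' p] (φ : B →+* B') (ψ' : B' →+ B')
    (hψ' : ∀ c b, ψ' (c ^ (p ^ k) * b) = c ^ (p ^ k) * ψ' b) (h : ∀ b, ψ' (φ b) = φ (ψ b)) (a : Al S) :
    PsiA (S.map φ) ψ' (p ^ k) (Al.mapA S φ a) = Al.mapA S φ (PsiA S ψ (p ^ k) a) := by
  refine PsiA_uniq S p k ψ (PsiA (S.map φ) ψ' (p ^ k))
    (fun c b => PsiA_pow_mul (S.map φ) p k ψ' hψ' c b) (Al.mapA S φ) (fun b => ?_) a
  rw [Al.mapA_cst, Al.mapA_cst, PsiA_cst (S.map φ) p k ψ' hψ', h]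

end

end Pool.Agent.MP_1c8e06_ag.CY
end
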