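import Pool.Agent.Lib.MP_1c8e06_ag.CY.Defs
import Pool.Agent.Lib.MP_1c8e06_ag.CY.WDefs

section

/-!
# CY GA1: Gauss norms of polynomials and linear factors

`gn c r P` is the Gauss norm max_i ‖a_i‖ r^i where `P.comp (X + C c) = ∑ a_i X^i`, i.e. P = ∑ a_i (X - c)^i.

PROOFS.  `gn_coeff_le`: `Polynomial.le_gaussNorm`.  `gn_exists`: `Polynomial.exists_eq_gaussNorm`.
`gn_le`: from `gn_exists`.  `gn_X_sub`: (X - C α).comp (X + C c) = X + C (c - α); the coefficients are
1 (index 1) and c - α (index 0).  `gp_poly`: `gp_div` with denominator 1 (gn of 1 is 1).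
`gp_X_sub`: RatFunc.X - RatFunc.C α is the image of X - C α.
`Pt.poly_le` (any point w): P = ∑ a_i (X - c)^i, so algebraMap P = ∑ C(a_i) (u - c)^i, w is
ultrametric, w (C a) = ‖a‖ (field `ext`); induction on Finset sums with `na` (for the empty sum use
`map_zero`).  `gn_eval_le`: the coefficient of index 0 of P.comp (X + C c) is P.eval c.
`Pt.X_sub_eq`: w(u - α) = w((u - c) - (α - c)), ultrametric inequality with ‖α - c‖ < w(u - c).
-/

set_option autoImplicit false

open Polynomial
open scoped Classical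

namespace Pool.Agent.MP_1c8e06_ag.CY

open Pool.Agent.MP_1c8e06_ag.AJ

noncomputable section

set_option linter.unusedSectionVars false

variable {Om : Type} [NormedField Om] [IsUltrametricDist Om]

theorem gn_coeff_le (c : Om) {r : ℝ} (hr : 0 < r) (P : Om[X]) (i : ℕ) :
    ‖(P.comp (X + C c)).coeff i‖ * r ^ i ≤ gn c r P := by
  unfold gn
  exact le_gaussNorm (nab Om) (P.comp (X + C c)) hr.le i

theorem gn_exists (c : Om) {r : ℝ} (P : Om[X]) :
    ∃ i, gn c r P = ‖(P.comp (X + C c)).coeff i‖ * r ^ i := by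
  unfold gn
  obtain ⟨i, hi⟩ := exists_eq_gaussNorm (nab Om) r (P.comp (X + C c))
  exact ⟨i, hi⟩

theorem gn_le (c : Om) {r : ℝ} (P : Om[X]) {M : ℝ}
    (h : ∀ i, ‖(P.comp (X + C c)).coeff i‖ * r ^ i ≤ M) : gn c r P ≤ M := by
  obtain ⟨i, hi⟩ := gn_exists c (r := r) P
  rw [hi]
  exact h i

theorem gn_C (c : Om) {r : ℝ} (hr : 0 < r) (a : Om) : gn c r (C a) = ‖a‖ := by
  unfold gn
  rw [C_comp, gaussNorm_C]
  rfl

theorem gn_one (c : Om) {r : ℝ} (hr : 0 < r) : gn c r (1 : Om[X]) = 1 := by
  have h1 : (1 : Om[X]) = C 1 := rfl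
  rw [h1, gn_C c hr, norm_one]

private theorem GA1_comp (c α : Om) : (X - C α : Om[X]).comp (X + C c) = X + C (c - α) := by
  rw [sub_comp, X_comp, C_comp, C_sub]
  ring

theorem gn_X_sub (c α : Om) {r : ℝ} (hr : 0 < r) : gn c r (X - C α) = max r ‖c - α‖ := by
  apply le_antisymm
  · apply gn_le
    intro i
    rw [GA1_comp]
    rcases i with _ | _ | i
    · simp
    · simp
    · have h0 : (X + C (c - α) : Om[X]).coeff (i + 1 + 1) = 0 := by
        rw [coeff_add, coeff_X, coeff_C]
        simp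
      rw [h0, norm_zero, zero_mul]
      exact le_trans hr.le (le_max_left _ _)
  · apply max_le
    · have h := gn_coeff_le c hr (X - C α) 1
      rw [GA1_comp] at h
      simpa using h
    · have h := gn_coeff_le c hr (X - C α) 0
      rw [GA1_comp] at h
      simpa using h

theorem gn_eval_le (c : Om) {r : ℝ} (hr : 0 < r) (P : Om[X]) : ‖P.eval c‖ ≤ gn c r P := by
  have h := gn_coeff_le c hr P 0
  rw [coeff_zero_eq_eval_zero, eval_comp] at h
  simpa using h

theorem gp_poly (c : Om) {r : ℝ} (hr : 0 < r) (P : Om[X]) :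
    (gp c r).v (algebraMap Om[X] (RatFunc Om) P) = gn c r P := by
  have h := gp_div c r P (Q := (1 : Om[X])) one_ne_zero
  rw [map_one, div_one, gn_one c (pr_pos r), div_one, pr_eq hr] at h
  exact h

theorem gp_X_sub (c α : Om) {r : ℝ} (hr : 0 < r) :
    (gp c r).v (RatFunc.X - RatFunc.C α) = max r ‖c - α‖ := by
  have h : (RatFunc.X - RatFunc.C α : RatFunc Om) = algebraMap Om[X] (RatFunc Om) (X - C α) := by
    rw [map_sub, RatFunc.algebraMap_X, RatFunc.algebraMap_C]
  rw [h, gp_poly c hr, gn_X_sub c α hr]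

theorem gp_X {r : ℝ} (hr : 0 < r) : (gp (0 : Om) r).v RatFunc.X = r := by
  have h := gp_X_sub (0 : Om) 0 hr
  rw [map_zero, sub_zero, sub_zero, norm_zero, max_eq_left hr.le] at h
  exact h

/-- The value of a polynomial at an arbitrary point. -/
theorem Pt.poly_le (w : Pt Om) (c : Om) (P : Om[X]) {M : ℝ} (hM : 0 ≤ M)
    (h : ∀ i, ‖(P.comp (X + C c)).coeff i‖ * (w.v (RatFunc.X - RatFunc.C c)) ^ i ≤ M) :
    w.v (algebraMap Om[X] (RatFunc Om) P) ≤ M := by
  have hP : P = ((P.comp (X + C c)).comp (X - C c)) := by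
    rw [comp_assoc]
    simp
  set R : Om[X] := P.comp (X + C c) with hR
  have hsum : algebraMap Om[X] (RatFunc Om) P =
      ∑ i ∈ Finset.range (R.natDegree + 1),
        RatFunc.C (R.coeff i) * (RatFunc.X - RatFunc.C c) ^ i := by
    rw [hP, comp, eval₂_eq_sum_range, map_sum]
    apply Finset.sum_congr rfl
    intro i _
    rw [map_mul, map_pow, map_sub, RatFunc.algebraMap_X, RatFunc.algebraMap_C, RatFunc.algebraMap_C]
  rw [hsum]
  have key : ∀ s : Finset ℕ,
      w.v (∑ i ∈ s, RatFunc.C (R.coeff i) * (RatFunc.X - RatFunc.C c) ^ i) ≤ M := by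
    intro s
    induction s using Finset.induction_on with
    | empty =>
      rw [Finset.sum_empty, map_zero]
      exact hM
    | insert a s ha ih =>
      rw [Finset.sum_insert ha]
      refine le_trans (w.na _ _) (max_le ?_ ih)
      rw [map_mul, map_pow, w.ext]
      exact h a
  exact key _

theorem Pt.X_sub_le (w : Pt Om) (c α : Om) :
    w.v (RatFunc.X - RatFunc.C α) ≤ max (w.v (RatFunc.X - RatFunc.C c)) ‖α - c‖ := by
  have h : (RatFunc.X - RatFunc.C α : RatFunc Om) =
      (RatFunc.X - RatFunc.C c) + RatFunc.C (c - α) := by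
    rw [map_sub]
    ring
  rw [h]
  refine le_trans (w.na _ _) ?_
  rw [w.ext, norm_sub_rev]

theorem Pt.X_sub_eq (w : Pt Om) (c α : Om) (h : ‖α - c‖ < w.v (RatFunc.X - RatFunc.C c)) :
    w.v (RatFunc.X - RatFunc.C α) = w.v (RatFunc.X - RatFunc.C c) := by
  apply le_antisymm
  · exact le_trans (w.X_sub_le c α) (max_le le_rfl h.le)
  · have h1 := w.X_sub_le α c
    rcases le_max_iff.1 h1 with h2 | h2
    · exact h2
    · rw [norm_sub_rev] at h2
      exact absurd h2 (not_le.2 h)

theorem Pt.X_sub_eq' (w : Pt Om) (c α : Om) (h : w.v (RatFunc.X - RatFunc.C c) < ‖α - c‖) :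
    w.v (RatFunc.X - RatFunc.C α) = ‖α - c‖ := by
  apply le_antisymm
  · exact le_trans (w.X_sub_le c α) (max_le h.le le_rfl)
  · have h0 : RatFunc.C (α - c) = (RatFunc.X - RatFunc.C c) + -(RatFunc.X - RatFunc.C α) := by
      rw [map_sub]
      ring
    have h1 := w.na (RatFunc.X - RatFunc.C c) (-(RatFunc.X - RatFunc.C α))
    rw [← h0, w.ext, AbsoluteValue.map_neg] at h1
    rcases le_max_iff.1 h1 with h2 | h2
    · exact absurd h2 (not_le.2 h)
    · exact h2

end

end Pool.Agent.MP_1c8e06_ag.CY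
end

section

/-!
# CY GA2: factorisation, change of centre, continuity in the radius

Om is algebraically closed, so every nonzero P : Om[X] is C (leadingCoeff) * ∏ (X - C α) over the
roots (`IsAlgClosed.splits`, `Polynomial.Splits` / `eq_prod_roots_of_splits_id`).

`Pt.v_poly`: apply the absolute value w to this product.
`Pt.v_eq`: f = num / denom.
`Pt.ext'`: two points which agree on all `RatFunc.X - RatFunc.C α` are equal (`Pt.v_eq`, both are
multiplicative, agree on constants by `ext`; structure extensionality: the other fields are proofs).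
`gp_center`: by `Pt.ext'` and `gp_X_sub`: max r ‖c - α‖ = max r ‖c' - α‖ when ‖c - c'‖ ≤ r.
`gp_cont`: for f ≠ 0, (gp c r).v f = ‖lead num‖/‖lead denom‖ * ∏ max r ‖c-α‖ / ∏ max r ‖c-β‖ for r > 0:
a quotient of continuous functions, the denominator is > 0 (each factor ≥ r > 0).  Use
`ContinuousOn` on `Set.Ioi 0` (`Multiset` or `List` products: `continuousOn_multiset_prod`, or write an
induction over polynomials with `Polynomial.Splits`).
-/

set_option autoImplicit false

open Polynomial
open scoped Classical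

namespace Pool.Agent.MP_1c8e06_ag.CY

open Pool.Agent.MP_1c8e06_ag.AJ

noncomputable section

set_option linter.unusedSectionVars false

variable {Om : Type} [NormedField Om] [IsUltrametricDist Om] [IsAlgClosed Om]

theorem Pt.v_poly (w : Pt Om) {P : Om[X]} (hP : P ≠ 0) :
    w.v (algebraMap Om[X] (RatFunc Om) P) =
      ‖P.leadingCoeff‖ * (P.roots.map fun α => w.v (RatFunc.X - RatFunc.C α)).prod := by
  have h := (IsAlgClosed.splits P).eq_prod_roots
  have h1 : algebraMap Om[X] (RatFunc Om) P =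
      RatFunc.C P.leadingCoeff * (P.roots.map fun α => RatFunc.X - RatFunc.C α).prod := by
    conv_lhs => rw [h]
    rw [map_mul, RatFunc.algebraMap_C, map_multiset_prod, Multiset.map_map]
    congr 2
    refine Multiset.map_congr rfl fun α _ => ?_
    rw [Function.comp_apply, map_sub, RatFunc.algebraMap_X, RatFunc.algebraMap_C]
  rw [h1, map_mul, w.ext, map_multiset_prod, Multiset.map_map]
  rfl

theorem Pt.v_eq (w : Pt Om) {f : RatFunc Om} (hf : f ≠ 0) :
    w.v f = ‖f.num.leadingCoeff‖ * (f.num.roots.map fun α => w.v (RatFunc.X - RatFunc.C α)).prod /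
      (f.denom.roots.map fun α => w.v (RatFunc.X - RatFunc.C α)).prod := by
  conv_lhs => rw [← RatFunc.num_div_denom f]
  rw [map_div₀, w.v_poly (RatFunc.num_ne_zero hf), w.v_poly (RatFunc.denom_ne_zero f),
    (RatFunc.monic_denom f).leadingCoeff, norm_one, one_mul]

theorem Pt.ext' {w w' : Pt Om}
    (h : ∀ α : Om, w.v (RatFunc.X - RatFunc.C α) = w'.v (RatFunc.X - RatFunc.C α)) : w = w' := by
  have hv : w.v = w'.v := by
    ext f
    by_cases hf : f = 0
    · rw [hf, map_zero, map_zero]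
    · rw [w.v_eq hf, w'.v_eq hf]
      simp only [h]
  cases w
  cases w'
  simp only at hv
  subst hv
  rfl

theorem gp_center {c c' : Om} {r : ℝ} (hr : 0 < r) (h : ‖c - c'‖ ≤ r) : gp c r = gp c' r := by
  have key : ∀ {a b : Om}, ‖a - b‖ ≤ r → ∀ α : Om, max r ‖a - α‖ ≤ max r ‖b - α‖ := by
    intro a b hab α
    refine max_le (le_max_left _ _) ?_
    have h1 : a - α = (a - b) + (b - α) := by ring
    rw [h1]
    exact (IsUltrametricDist.norm_add_le_max _ _).trans (max_le_max hab le_rfl)
  refine Pt.ext' fun α => ?_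
  rw [gp_X_sub c α hr, gp_X_sub c' α hr]
  refine le_antisymm (key h α) (key ?_ α)
  rw [norm_sub_rev]
  exact h

theorem gp_cont (c : Om) (f : RatFunc Om) :
    ContinuousOn (fun r : ℝ => (gp c r).v f) (Set.Ioi 0) := by
  by_cases hf : f = 0
  · rw [hf]
    simp only [map_zero]
    exact continuousOn_const
  · have hc : ∀ s : Multiset Om,
        Continuous fun r : ℝ => (s.map fun α => max r ‖c - α‖).prod := fun s =>
      continuous_multiset_prod s fun α _ => continuous_id.max continuous_const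
    have hpos : ∀ s : Multiset Om, ∀ r ∈ Set.Ioi (0 : ℝ),
        (s.map fun α => max r ‖c - α‖).prod ≠ 0 := by
      intro s r hr
      refine Multiset.prod_ne_zero fun h0 => ?_
      obtain ⟨α, _, hα⟩ := Multiset.mem_map.mp h0
      have h1 : r ≤ max r ‖c - α‖ := le_max_left _ _
      have h2 : (0 : ℝ) < r := hr
      linarith
    have h1 : ContinuousOn (fun r : ℝ => ‖f.num.leadingCoeff‖ *
        (f.num.roots.map fun α => max r ‖c - α‖).prod /
          (f.denom.roots.map fun α => max r ‖c - α‖).prod) (Set.Ioi 0) :=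
      ((continuous_const.mul (hc _)).continuousOn).div (hc _).continuousOn (hpos _)
    refine h1.congr fun r hr => ?_
    show (gp c r).v f = _
    rw [(gp c r).v_eq hf]
    simp only [gp_X_sub c _ hr]

/-- Strict inequalities are preserved for nearby radii. -/
theorem gp_lt_near (c : Om) (f : RatFunc Om) {r M : ℝ} (hr : 0 < r) (h : (gp c r).v f < M) :
    ∃ de > 0, ∀ r' : ℝ, 0 < r' → |r' - r| < de → (gp c r').v f < M := by
  have hcat : ContinuousAt (fun r : ℝ => (gp c r).v f) r :=
    (gp_cont c f).continuousAt (Ioi_mem_nhds hr)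
  have hev := hcat.eventually_lt_const h
  obtain ⟨de, hde, hd⟩ := Metric.eventually_nhds_iff.mp hev
  refine ⟨de, hde, fun r' _ hr' => hd ?_⟩
  rw [Real.dist_eq]
  exact hr'

/-- Nonstrict inequalities pass to the limit of the radii from the right. -/
theorem gp_le_right (c : Om) (f g : RatFunc Om) {r : ℝ} (hr : 0 < r)
    (h : ∃ r1, r < r1 ∧ ∀ r', r < r' → r' < r1 → (gp c r').v f ≤ (gp c r').v g) :
    (gp c r).v f ≤ (gp c r).v g := by
  obtain ⟨r1, hr1, h1⟩ := h
  have hf : Filter.Tendsto (fun r : ℝ => (gp c r).v f) (nhdsWithin r (Set.Ioi r))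
      (nhds ((gp c r).v f)) :=
    ((gp_cont c f).continuousAt (Ioi_mem_nhds hr)).tendsto.mono_left nhdsWithin_le_nhds
  have hg : Filter.Tendsto (fun r : ℝ => (gp c r).v g) (nhdsWithin r (Set.Ioi r))
      (nhds ((gp c r).v g)) :=
    ((gp_cont c g).continuousAt (Ioi_mem_nhds hr)).tendsto.mono_left nhdsWithin_le_nhds
  refine le_of_tendsto_of_tendsto hf hg ?_
  filter_upwards [Ioo_mem_nhdsGT hr1] with r' hr'
  exact h1 r' hr'.1 hr'.2

end

end Pool.Agent.MP_1c8e06_ag.CY
end

section

set_option autoImplicit false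

open Polynomial
open scoped Classical

namespace Pool.Agent.MP_1c8e06_ag.CY

open Pool.Agent.MP_1c8e06_ag.AJ

noncomputable section

/-!
# TASK W2: the projections `psS`, `psL`

* `lz_coeff`: `lz K` maps `C a` to `HahnSeries.C a` and `T n` to `HahnSeries.single n 1`; both sides are additive in `f`
  (`LaurentPolynomial.induction_on'` or `AddMonoidAlgebra` induction; `f = C a * T n`).
* `psS_mul`: coefficient `n` of `c * a` is the finite sum of `c_i a_j`, `i + j = n` (`HahnSeries.coeff_mul`); if `c_i ≠ 0`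
  then `q ∣ i`, so `q ∣ n ↔ q ∣ j`.  (Alternative: split `a = psS a + (a - psS a)`: show that `c * psS a` is supported
  on multiples of `q` and `c * (a - psS a)` on non-multiples.)
* `pow_coeff`: by induction on `k` it is enough to treat `k = 1`, or directly: `c ^ (p ^ k)`: the map
  `c ↦ c ^ (p^k)` equals the composition of the coefficientwise Frobenius and the dilation `n ↦ p^k n`
  (`HahnSeries.embDomain` or: approximate).  One way: fix `n` not divisible by `q`; write
  `c = f + single N 1 * g` with `f` a finite sum of monomials (all exponents `< N`), `g` of order `≥ 0`, with `N q > n`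
  (for `q ≥ 1`) and `N` large: `c^q = f^q + single (N q) 1 * g^q` (`add_pow_char_pow`), `f^q` = sum of the `q`-th powers
  of the monomials, exponents divisible by `q`; the second summand has order `≥ N q > n`.
  A truncation: `HahnSeries.truncLT` or an explicit `HahnSeries` with finite support.
* `psS_pow_mul`: from both.  `psL_pow_mul`: apply the injective `lz K` (`lz_coeff`) and `lz_psL`.
* `psS_pieces`: `b m` has coefficient `a.coeff (n + m)` at `n` divisible by `q` and `0` otherwise: it is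
  `psS K q (single (-m) 1 * a)`.  The coefficient of `∑ m ∈ range q, single m 1 * b m` at `n` is `(b m).coeff (n - m)`
  for the unique `m ∈ range q` with `q ∣ n - m` (`n % q`).
-/

private theorem W2_sU_zpow (K : Type) [Field K] (n : ℤ) :
    ((sU K ^ n : (LaurentSeries K)ˣ) : LaurentSeries K) = HahnSeries.single n 1 := by
  have h : ∀ m : ℕ, ((sU K ^ m : (LaurentSeries K)ˣ) : LaurentSeries K) =
      HahnSeries.single (m : ℤ) 1 := by
    intro m
    induction m with
    | zero => simp
    | succ m ih =>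
      rw [pow_succ, Units.val_mul, ih]
      change HahnSeries.single (m : ℤ) (1 : K) * HahnSeries.single (1 : ℤ) 1 = _
      rw [HahnSeries.single_mul_single, mul_one]
      push_cast
      rfl
  have h' : ∀ m : ℕ, (((sU K)⁻¹ ^ m : (LaurentSeries K)ˣ) : LaurentSeries K) =
      HahnSeries.single (-(m : ℤ)) 1 := by
    intro m
    induction m with
    | zero => simp
    | succ m ih =>
      rw [pow_succ, Units.val_mul, ih]
      change HahnSeries.single (-(m : ℤ)) (1 : K) * HahnSeries.single (-1 : ℤ) 1 = _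
      rw [HahnSeries.single_mul_single, mul_one]
      have h2 : -(m : ℤ) + -1 = -((m + 1 : ℕ) : ℤ) := by
        push_cast
        ring
      rw [h2]
  obtain ⟨m, rfl | rfl⟩ := n.eq_nat_or_neg
  · rw [zpow_natCast, h]
  · rw [zpow_neg, zpow_natCast, ← inv_pow, h']

theorem lz_coeff (K : Type) [Field K] (f : Lam K) (n : ℤ) :
    (lz K f).coeff n = f.coeff n := by
  induction f using LaurentPolynomial.induction_on' with
  | add p q hp hq => rw [map_add, HahnSeries.coeff_add, hp, hq]; rfl
  | C_mul_T m a =>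
    rw [map_mul, lz, LaurentPolynomial.eval₂_C, LaurentPolynomial.eval₂_T, W2_sU_zpow,
      HahnSeries.C_apply, HahnSeries.single_mul_single, zero_add, mul_one,
      ← LaurentPolynomial.single_eq_C_mul_T, HahnSeries.coeff_single, AddMonoidAlgebra.coeff_single,
      Finsupp.single_apply]
    by_cases h : n = m
    · rw [if_pos h, if_pos h.symm]
    · rw [if_neg h, if_neg (Ne.symm h)]

theorem lz_injective (K : Type) [Field K] : Function.Injective (lz K) := by
  intro f g h
  ext n
  rw [← lz_coeff, ← lz_coeff, h]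

theorem lz_psL (K : Type) [Field K] (q : ℕ) (f : Lam K) :
    lz K (psL K q f) = psS K q (lz K f) := by
  ext n
  rw [lz_coeff, psL_coeff, psS_coeff, lz_coeff]

theorem psS_mul (K : Type) [Field K] (q : ℕ) (c a : LaurentSeries K)
    (hc : ∀ n : ℤ, ¬ (q : ℤ) ∣ n → c.coeff n = 0) : psS K q (c * a) = c * psS K q a := by
  have hsub : (psS K q a).support ⊆ a.support := by
    intro n hn
    rw [HahnSeries.mem_support, psS_coeff] at hn
    rw [HahnSeries.mem_support]
    intro h
    apply hn
    rw [h, ite_self]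
  ext n
  rw [psS_coeff, HahnSeries.coeff_mul, HahnSeries.coeff_mul_right' a.isPWO_support hsub]
  by_cases hn : (q : ℤ) ∣ n
  · rw [if_pos hn]
    refine Finset.sum_congr rfl fun ij hij => ?_
    have hs := (Finset.mem_addAntidiagonal.1 hij).2.2
    by_cases hi : (q : ℤ) ∣ ij.1
    · rw [psS_coeff, if_pos]
      rw [← hs] at hn
      exact (dvd_add_right hi).1 hn
    · rw [hc _ hi, zero_mul, zero_mul]
  · rw [if_neg hn]
    symm
    refine Finset.sum_eq_zero fun ij hij => ?_
    have hs := (Finset.mem_addAntidiagonal.1 hij).2.2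
    by_cases hi : (q : ℤ) ∣ ij.1
    · rw [psS_coeff, if_neg, mul_zero]
      intro h
      exact hn (hs ▸ dvd_add hi h)
    · rw [hc _ hi, zero_mul]

private theorem W2_pow (K : Type) [Field K] (p : ℕ) [Fact p.Prime] [CharP K p] (k : ℕ)
    (x : PowerSeries K) (n : ℕ) (h : ¬ p ^ k ∣ n) : PowerSeries.coeff n (x ^ (p ^ k)) = 0 := by
  have hq : 0 < p ^ k := pow_pos (Fact.out : p.Prime).pos k
  obtain ⟨y, hy⟩ : (PowerSeries.X : PowerSeries K) ^ (n + 1) ∣
      x - ((PowerSeries.trunc (n + 1) x : K[X]) : PowerSeries K) := by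
    rw [PowerSeries.X_pow_dvd_iff]
    intro m hm
    rw [map_sub, Polynomial.coeff_coe, PowerSeries.coeff_trunc, if_pos hm, sub_self]
  have hx : x = ((PowerSeries.trunc (n + 1) x : K[X]) : PowerSeries K) + PowerSeries.X ^ (n + 1) * y := by
    rw [← hy, add_sub_cancel]
  have : CharP (PowerSeries K) p :=
    charP_of_injective_ringHom (f := PowerSeries.C (R := K)) (PowerSeries.C_injective) p
  rw [hx, add_pow_char_pow, map_add, mul_pow, ← pow_mul, ← Polynomial.coe_pow, Polynomial.coeff_coe,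
    ← Polynomial.map_iterateFrobenius_expand p, Polynomial.coeff_map, Polynomial.coeff_expand hq,
    if_neg h, map_zero, zero_add]
  have h1 : (PowerSeries.X : PowerSeries K) ^ (n + 1) ∣
      PowerSeries.X ^ ((n + 1) * p ^ k) * y ^ (p ^ k) :=
    (pow_dvd_pow _ (Nat.le_mul_of_pos_right _ hq)).trans (dvd_mul_right _ _)
  exact PowerSeries.X_pow_dvd_iff.1 h1 n (Nat.lt_succ_self n)

theorem pow_coeff (K : Type) [Field K] (p : ℕ) [Fact p.Prime] [CharP K p] (k : ℕ) (c : LaurentSeries K)
    (n : ℤ) (h : ¬ ((p ^ k : ℕ) : ℤ) ∣ n) : (c ^ (p ^ k)).coeff n = 0 := by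
  have h1 : c ^ (p ^ k) = HahnSeries.single ((p ^ k : ℕ) * c.order) (1 : K) *
      HahnSeries.ofPowerSeries ℤ K (c.powerSeriesPart ^ (p ^ k)) := by
    conv_lhs => rw [← LaurentSeries.single_order_mul_powerSeriesPart c]
    rw [mul_pow, HahnSeries.single_pow, one_pow, nsmul_eq_mul, map_pow]
  rw [h1, HahnSeries.coeff_single_mul, one_mul]
  by_cases h2 : 0 ≤ n - (p ^ k : ℕ) * c.order
  · obtain ⟨m, hm⟩ := Int.eq_ofNat_of_zero_le h2
    rw [hm, LaurentSeries.coeff_coe_powerSeries]
    apply W2_pow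
    intro h3
    apply h
    have h4 : ((p ^ k : ℕ) : ℤ) ∣ (m : ℤ) := Int.natCast_dvd_natCast.2 h3
    have h5 : n = (m : ℤ) + (p ^ k : ℕ) * c.order := by rw [← hm]; ring
    rw [h5]
    exact dvd_add h4 (dvd_mul_right _ _)
  · rw [HahnSeries.ofPowerSeries_apply, HahnSeries.embDomain_of_notMem_range]
    rintro ⟨m, hm⟩
    apply h2
    rw [← hm]
    exact Int.natCast_nonneg m

theorem psS_pow_mul (K : Type) [Field K] (p : ℕ) [Fact p.Prime] [CharP K p] (k : ℕ)
    (c a : LaurentSeries K) : psS K (p ^ k) (c ^ (p ^ k) * a) = c ^ (p ^ k) * psS K (p ^ k) a :=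
  psS_mul K (p ^ k) _ a fun n hn => pow_coeff K p k c n hn

theorem psL_pow_mul (K : Type) [Field K] (p : ℕ) [Fact p.Prime] [CharP K p] (k : ℕ)
    (c a : Lam K) : psL K (p ^ k) (c ^ (p ^ k) * a) = c ^ (p ^ k) * psL K (p ^ k) a := by
  apply lz_injective K
  rw [lz_psL, map_mul (lz K), map_mul (lz K), map_pow (lz K), lz_psL, psS_pow_mul]

theorem psS_pieces (K : Type) [Field K] (q : ℕ) (hq : 0 < q) (a : LaurentSeries K) :
    ∃ b : ℕ → LaurentSeries K, (∀ m, ∀ n : ℤ, ¬ (q : ℤ) ∣ n → (b m).coeff n = 0) ∧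
      (∀ m, ∀ n : ℤ, (q : ℤ) ∣ n → (b m).coeff n = a.coeff (n + m)) ∧
      a = ∑ m ∈ Finset.range q, HahnSeries.single (m : ℤ) (1 : K) * b m := by
  have hb : ∀ (m : ℕ) (n : ℤ), (psS K q (HahnSeries.single (-(m : ℤ)) (1 : K) * a)).coeff n =
      if (q : ℤ) ∣ n then a.coeff (n + m) else 0 := by
    intro m n
    rw [psS_coeff, HahnSeries.coeff_single_mul, one_mul, sub_neg_eq_add]
  refine ⟨fun m => psS K q (HahnSeries.single (-(m : ℤ)) (1 : K) * a),
    fun m n hn => by rw [hb, if_neg hn], fun m n hn => by rw [hb, if_pos hn], ?_⟩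
  ext n
  rw [HahnSeries.coeff_sum]
  have hq' : (0 : ℤ) < q := by exact_mod_cast hq
  have h0 : 0 ≤ n % q := Int.emod_nonneg _ hq'.ne'
  have h1 : n % q < q := Int.emod_lt_of_pos _ hq'
  rw [Finset.sum_eq_single (n % q).toNat]
  · rw [HahnSeries.coeff_single_mul, one_mul, hb, Int.toNat_of_nonneg h0, if_pos, sub_add_cancel]
    exact Int.dvd_self_sub_emod
  · intro m hm hne
    rw [HahnSeries.coeff_single_mul, one_mul, hb, if_neg]
    intro h2
    apply hne
    have h3 : (m : ℤ) = n % q := by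
      have h4 : n % q = (m : ℤ) % q :=
        Int.emod_eq_emod_iff_emod_sub_eq_zero.2 (Int.emod_eq_zero_of_dvd h2)
      rw [h4, Int.emod_eq_of_lt (Int.natCast_nonneg m)]
      exact_mod_cast Finset.mem_range.1 hm
    omega
  · intro h2
    exfalso
    apply h2
    rw [Finset.mem_range]
    omega

end

end Pool.Agent.MP_1c8e06_ag.CY
end

section

/-!
# CY GA4: partial fractions: splitting off the poles in a set D

`IsPol D f`: all poles of f are in D and f = 0 or deg num < deg denom.  `Reg D`: no poles in D.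

PROOFS.  `IsPol.add`, `.mul`, `.neg`, `.smul`: poles by `RatFunc.denom_add_dvd`, `denom_mul_dvd`;
degrees by `RatFunc.intDegree` (intDegree f < 0 iff f = 0 or deg num < deg denom for f ≠ 0;
`RatFunc.intDegree_add_le`, `RatFunc.intDegree_mul`) or directly.
`isPol_div`, `reg_div`: P/Q in any representation (the reduced denominator divides Q; degrees:
`RatFunc.num_div_denom`, cross multiplication).
`IsPol.eq_zero`: if f is in Reg D and IsPol D f, then the denominator has no root at all, it is monic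
and Om algebraically closed, so it is 1 (degree 0) and deg num < 0 forces f = 0.
`exists_split`: let denom = Q1 * Q2 with Q1 = ∏ (X - α) over the roots of denom in D, Q2 = ∏ over the
roots outside D (Multiset.filter on the roots; denom is monic and splits).  Q1, Q2 are coprime
(no common root; `Polynomial.isCoprime_of_is_root_of_eval_derivative_ne_zero` is not needed, use
`isCoprime_iff_gcd...` or pairwise coprimality of X - C α, X - C β for α ≠ β:
`Polynomial.pairwise_coprime_X_sub_C`, `IsCoprime.prod_left/right` for multisets or lists).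
So num = A Q2 + B Q1; divide A by Q1 with remainder (monic): A = A' Q1 + A'', deg A'' < deg Q1:
num = A'' Q2 + (B + A' Q2) Q1, f = A''/Q1 + (B + A'Q2)/Q2.  For Q1 = 1, A'' = 0.
-/

set_option autoImplicit false

open Polynomial
open scoped Classical

namespace Pool.Agent.MP_1c8e06_ag.CY

open Pool.Agent.MP_1c8e06_ag.AJ

noncomputable section

set_option linter.unusedSectionVars false

variable {Om : Type} [NormedField Om] [IsUltrametricDist Om] [IsAlgClosed Om]

private theorem GA4_dvd {P Q : Om[X]} {α : Om} (h : P ∣ Q) (hQ : Q.eval α ≠ 0) :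
    P.eval α ≠ 0 := by
  obtain ⟨R, hR⟩ := h
  intro h0
  rw [hR, eval_mul, h0, zero_mul] at hQ
  exact hQ rfl

theorem isPol_div {D : Set Om} {P Q : Om[X]} (hQ : Q ≠ 0) (h1 : ∀ α, α ∉ D → Q.eval α ≠ 0)
    (h2 : P = 0 ∨ P.natDegree < Q.natDegree) :
    IsPol D (algebraMap Om[X] (RatFunc Om) P / algebraMap Om[X] (RatFunc Om) Q) := by
  refine ⟨fun α hα => GA4_dvd (RatFunc.denom_div_dvd P Q) (h1 α hα), ?_⟩
  rcases h2 with h2 | h2
  · left
    rw [h2, map_zero, zero_div]
  · by_cases hP : P = 0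
    · left
      rw [hP, map_zero, zero_div]
    right
    set f := algebraMap Om[X] (RatFunc Om) P / algebraMap Om[X] (RatFunc Om) Q with hf
    have h3 : f.num * Q = P * f.denom := (RatFunc.num_mul_eq_mul_denom_iff hQ).2 hf
    have hd : f.denom ≠ 0 := RatFunc.denom_ne_zero f
    have hn : f.num ≠ 0 := by
      intro h0
      rw [h0, zero_mul] at h3
      exact mul_ne_zero hP hd h3.symm
    have h4 := congrArg natDegree h3
    rw [natDegree_mul hn hQ, natDegree_mul hP hd] at h4
    omega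

theorem reg_div {D : Set Om} {P Q : Om[X]} (hQ : Q ≠ 0) (h1 : ∀ α ∈ D, Q.eval α ≠ 0) :
    algebraMap Om[X] (RatFunc Om) P / algebraMap Om[X] (RatFunc Om) Q ∈ Reg D := by
  rw [mem_Reg]
  exact fun α hα => GA4_dvd (RatFunc.denom_div_dvd P Q) (h1 α hα)

theorem isPol_zero (D : Set Om) : IsPol D (0 : RatFunc Om) := by
  refine ⟨fun α _ => ?_, Or.inl rfl⟩
  rw [RatFunc.denom_zero, eval_one]
  exact one_ne_zero

theorem IsPol.add {D : Set Om} {f g : RatFunc Om} (hf : IsPol D f) (hg : IsPol D g) :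
    IsPol D (f + g) := by
  rcases hf.2 with h1 | h1
  · rw [h1, zero_add]
    exact hg
  rcases hg.2 with h2 | h2
  · rw [h2, add_zero]
    exact hf
  have hfd := RatFunc.denom_ne_zero f
  have hgd := RatFunc.denom_ne_zero g
  have h3 : f + g = algebraMap Om[X] (RatFunc Om) (f.num * g.denom + f.denom * g.num) /
      algebraMap Om[X] (RatFunc Om) (f.denom * g.denom) := by
    conv_lhs => rw [← RatFunc.num_div_denom f, ← RatFunc.num_div_denom g]
    rw [div_add_div _ _ (RatFunc.algebraMap_ne_zero hfd) (RatFunc.algebraMap_ne_zero hgd), map_add,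
      map_mul, map_mul, map_mul]
  rw [h3]
  refine isPol_div (mul_ne_zero hfd hgd) (fun α hα => ?_) (Or.inr ?_)
  · rw [eval_mul]
    exact mul_ne_zero (hf.1 α hα) (hg.1 α hα)
  · rw [natDegree_mul hfd hgd]
    refine lt_of_le_of_lt (natDegree_add_le _ _) (max_lt ?_ ?_)
    · exact lt_of_le_of_lt natDegree_mul_le (by omega)
    · exact lt_of_le_of_lt natDegree_mul_le (by omega)

theorem IsPol.neg {D : Set Om} {f : RatFunc Om} (hf : IsPol D f) : IsPol D (-f) := by
  have h3 : -f = algebraMap Om[X] (RatFunc Om) (-f.num) /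
      algebraMap Om[X] (RatFunc Om) f.denom := by
    conv_lhs => rw [← RatFunc.num_div_denom f]
    rw [map_neg, neg_div]
  rw [h3]
  refine isPol_div (RatFunc.denom_ne_zero f) hf.1 ?_
  rcases hf.2 with h | h
  · left
    rw [h, RatFunc.num_zero, neg_zero]
  · right
    rw [natDegree_neg]
    exact h

theorem IsPol.mul {D : Set Om} {f g : RatFunc Om} (hf : IsPol D f) (hg : IsPol D g) :
    IsPol D (f * g) := by
  rcases hf.2 with h1 | h1
  · rw [h1, zero_mul]
    exact isPol_zero D
  rcases hg.2 with h2 | h2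
  · rw [h2, mul_zero]
    exact isPol_zero D
  have hfd := RatFunc.denom_ne_zero f
  have hgd := RatFunc.denom_ne_zero g
  have h3 : f * g = algebraMap Om[X] (RatFunc Om) (f.num * g.num) /
      algebraMap Om[X] (RatFunc Om) (f.denom * g.denom) := by
    rw [map_mul, map_mul, ← div_mul_div_comm, RatFunc.num_div_denom, RatFunc.num_div_denom]
  rw [h3]
  refine isPol_div (mul_ne_zero hfd hgd) (fun α hα => ?_) (Or.inr ?_)
  · rw [eval_mul]
    exact mul_ne_zero (hf.1 α hα) (hg.1 α hα)
  · rw [natDegree_mul hfd hgd]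
    exact lt_of_le_of_lt natDegree_mul_le (by omega)

theorem IsPol.mono {D D' : Set Om} {f : RatFunc Om} (hf : IsPol D f) (h : D ⊆ D') :
    IsPol D' f :=
  ⟨fun α hα => hf.1 α fun hc => hα (h hc), hf.2⟩

/-- A function with poles in `D` only is regular on every set disjoint from `D`. -/
theorem IsPol.reg {D D' : Set Om} {f : RatFunc Om} (hf : IsPol D f) (h : ∀ α ∈ D', α ∉ D) :
    f ∈ Reg D' := by
  rw [mem_Reg]
  exact fun α hα => hf.1 α (h α hα)

theorem IsPol.eq_zero {D : Set Om} {f : RatFunc Om} (hf : IsPol D f) (h : f ∈ Reg D) :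
    f = 0 := by
  have hno : ∀ α, f.denom.eval α ≠ 0 := by
    intro α
    by_cases hα : α ∈ D
    · exact mem_Reg.mp h α hα
    · exact hf.1 α hα
  have hd : f.denom.natDegree = 0 := by
    by_contra hne
    have hdeg : f.denom.degree ≠ 0 := by
      intro h0
      exact hne (natDegree_eq_zero_iff_degree_le_zero.mpr h0.le)
    obtain ⟨α, hα⟩ := IsAlgClosed.exists_root f.denom hdeg
    exact hno α hα
  rcases hf.2 with h1 | h1
  · exact h1
  · omega

theorem exists_split (D : Set Om) (f : RatFunc Om) :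
    ∃ f1 f2 : RatFunc Om, IsPol D f1 ∧ f2 ∈ Reg D ∧ f = f1 + f2 := by
  have hd : f.denom = (f.denom.roots.map (X - C ·)).prod :=
    (IsAlgClosed.splits f.denom).eq_prod_roots_of_monic (RatFunc.monic_denom f)
  set Q1 : Om[X] := ((f.denom.roots.filter (· ∈ D)).map (X - C ·)).prod with hQ1
  set Q2 : Om[X] := ((f.denom.roots.filter (fun α => ¬ α ∈ D)).map (X - C ·)).prod with hQ2
  have hm1 : Q1.Monic := monic_multiset_prod_of_monic _ _ fun α _ => monic_X_sub_C α
  have hm2 : Q2.Monic := monic_multiset_prod_of_monic _ _ fun α _ => monic_X_sub_C α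
  have hprod : f.denom = Q1 * Q2 := by
    rw [hQ1, hQ2, ← Multiset.prod_add, ← Multiset.map_add, Multiset.filter_add_not]
    exact hd
  have hev : ∀ (s : Multiset Om) (α : Om), ((s.map (X - C ·)).prod).eval α = 0 → α ∈ s := by
    intro s α h
    have h1 : α ∈ ((s.map (X - C ·)).prod).roots :=
      (mem_roots (monic_multiset_prod_of_monic _ _ fun β _ => monic_X_sub_C β).ne_zero).mpr h
    rwa [roots_multiset_prod_X_sub_C] at h1
  have hr1 : ∀ α, α ∉ D → Q1.eval α ≠ 0 := by
    intro α hα h0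
    exact hα (Multiset.mem_filter.mp (hev _ α h0)).2
  have hr2 : ∀ α ∈ D, Q2.eval α ≠ 0 := by
    intro α hα h0
    exact (Multiset.mem_filter.mp (hev _ α h0)).2 hα
  have hcop : IsCoprime Q1 Q2 := by
    rw [isCoprime_iff_aeval_ne_zero_of_isAlgClosed Om Om]
    intro α
    rw [coe_aeval_eq_eval]
    by_cases hα : α ∈ D
    · exact Or.inr (hr2 α hα)
    · exact Or.inl (hr1 α hα)
  obtain ⟨u, v, huv⟩ := hcop
  have hA := modByMonic_add_div (f.num * v) Q1
  have hnum : f.num = (f.num * v) %ₘ Q1 * Q2 + (f.num * u + ((f.num * v) /ₘ Q1) * Q2) * Q1 := by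
    have h1 : f.num = f.num * v * Q2 + f.num * u * Q1 := by
      have h2 : f.num = f.num * (u * Q1 + v * Q2) := by rw [huv, mul_one]
      calc f.num = f.num * (u * Q1 + v * Q2) := h2
        _ = _ := by ring
    calc f.num = f.num * v * Q2 + f.num * u * Q1 := h1
      _ = ((f.num * v) %ₘ Q1 + Q1 * ((f.num * v) /ₘ Q1)) * Q2 + f.num * u * Q1 := by rw [hA]
      _ = _ := by ring
  refine ⟨algebraMap Om[X] (RatFunc Om) ((f.num * v) %ₘ Q1) / algebraMap Om[X] (RatFunc Om) Q1,
    algebraMap Om[X] (RatFunc Om) (f.num * u + ((f.num * v) /ₘ Q1) * Q2) /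
      algebraMap Om[X] (RatFunc Om) Q2, isPol_div hm1.ne_zero hr1 ?_, reg_div hm2.ne_zero hr2, ?_⟩
  · by_cases h1 : Q1 = 1
    · left
      rw [h1, modByMonic_one]
    · right
      exact natDegree_modByMonic_lt _ hm1 h1
  · rw [div_add_div _ _ (RatFunc.algebraMap_ne_zero hm1.ne_zero)
      (RatFunc.algebraMap_ne_zero hm2.ne_zero), ← map_mul, ← map_mul, ← map_mul, ← map_add]
    conv_lhs => rw [← RatFunc.num_div_denom f]
    rw [mul_comm Q1 (f.num * u + _), ← hnum, hprod]

/-- If `f` has no poles in `D'`, the two parts have none. -/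
theorem exists_split_reg (D D' : Set Om) (f : RatFunc Om) (hf : f ∈ Reg D') :
    ∃ f1 f2 : RatFunc Om, IsPol (D \ D') f1 ∧ f2 ∈ Reg D ∧ f2 ∈ Reg D' ∧ f = f1 + f2 := by
  obtain ⟨f1, f2, h1, h2, h3⟩ := exists_split (D \ D') f
  have h4 : f1 ∈ Reg D' := h1.reg fun α hα hc => hc.2 hα
  have h5 : f2 ∈ Reg D' := by
    have h6 : f2 = f - f1 := by rw [h3, add_sub_cancel_left]
    rw [h6]
    exact (Reg D').sub_mem hf h4
  refine ⟨f1, f2, h1, ?_, h5, h3⟩
  rw [mem_Reg]
  intro α hα
  by_cases hc : α ∈ D'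
  · exact mem_Reg.mp h5 α hc
  · exact mem_Reg.mp h2 α ⟨hα, hc⟩

theorem jF_reg (q : Lam Om) : jF Om q ∈ Reg {α : Om | α ≠ 0} := by
  have hC : ∀ a : Om, RatFunc.C a ∈ Reg {α : Om | α ≠ 0} := by
    intro a
    rw [mem_Reg]
    intro α _
    rw [RatFunc.denom_C, eval_one]
    exact one_ne_zero
  have hX : (RatFunc.X : RatFunc Om) ∈ Reg {α : Om | α ≠ 0} := by
    rw [mem_Reg]
    intro α _
    rw [RatFunc.denom_X, eval_one]
    exact one_ne_zero
  have hXi : (RatFunc.X : RatFunc Om)⁻¹ ∈ Reg {α : Om | α ≠ 0} := by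
    have h1 : (RatFunc.X : RatFunc Om)⁻¹ =
        algebraMap Om[X] (RatFunc Om) 1 / algebraMap Om[X] (RatFunc Om) X := by
      rw [map_one, RatFunc.algebraMap_X, one_div]
    rw [h1]
    refine reg_div X_ne_zero fun α hα => ?_
    rw [eval_X]
    exact hα
  refine LaurentPolynomial.induction_on' q (fun f g hf hg => ?_) (fun n a => ?_)
  · rw [map_add]
    exact (Reg _).add_mem hf hg
  · unfold jF
    rw [LaurentPolynomial.eval₂_C_mul_T]
    refine (Reg _).mul_mem (hC a) ?_
    rcases Int.eq_nat_or_neg n with ⟨k, hk | hk⟩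
    · rw [hk, zpow_natCast, Units.val_pow_eq_pow_val]
      exact (Reg _).pow_mem hX k
    · rw [hk, zpow_neg, zpow_natCast, ← inv_pow, Units.val_pow_eq_pow_val]
      exact (Reg _).pow_mem hXi k

end

end Pool.Agent.MP_1c8e06_ag.CY
end

section

/-!
# CY GA3: logarithmic convexity of the Gauss norms in the radius

PROOF.  Let 0 < a ≤ b, 0 ≤ θ ≤ 1, r = a^θ b^(1-θ) (real powers), so a ≤ r ≤ b.  For a monomial
m(r) = A r^i (A ≥ 0) we have m(r) = m(a)^θ m(b)^(1-θ) (`Real.mul_rpow`, `Real.rpow_mul`,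
`Real.rpow_natCast`; A = A^θ A^(1-θ), for A = 0 both sides are 0 unless θ = 0 or 1: then treat θ = 0,
θ = 1 separately or use A^θ*A^(1-θ) with `Real.rpow_add'`).
`gn_convex`: gn c r P = m(r) for one monomial (`gn_exists`), m(a) ≤ gn c a P, m(b) ≤ gn c b P.
`gp_convex`: f = num/denom.  The denominator is (monic) ∏ (X - β) over its roots, and for each root
‖β - c‖ ≤ a or b ≤ ‖β - c‖, so gn c r (X - β) = max r ‖c - β‖ is r resp. ‖c-β‖ for all radii in [a,b]:
a monomial, hence gn c r denom = (gn c a denom)^θ (gn c b denom)^(1-θ) EXACTLY.  Divide.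
Use `Pt.v_poly` (GA2) for the denominator: algebraMap denom has value ∏ w(u - β).
`lam_convex`: for a Laurent polynomial q, jF q = (polynomial)/u^n: denominators are powers of u, the
only possible pole is 0 (‖0 - 0‖ = 0 ≤ a): apply `gp_convex` with c = 0.
-/

set_option autoImplicit false

open Polynomial
open scoped Classical

namespace Pool.Agent.MP_1c8e06_ag.CY

open Pool.Agent.MP_1c8e06_ag.AJ

noncomputable section

set_option linter.unusedSectionVars false

variable {Om : Type} [NormedField Om] [IsUltrametricDist Om] [IsAlgClosed Om]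

private theorem GA3_split {th x : ℝ} (hx : 0 ≤ x) : x = x ^ th * x ^ (1 - th) := by
  rw [← Real.rpow_add' hx (by ring_nf; exact one_ne_zero)]
  ring_nf
  rw [Real.rpow_one]

private theorem GA3_mono {a b th A : ℝ} (ha : 0 < a) (hb : 0 < b) (hA : 0 ≤ A) (i : ℕ) :
    A * (a ^ th * b ^ (1 - th)) ^ i = (A * a ^ i) ^ th * (A * b ^ i) ^ (1 - th) := by
  rw [Real.mul_rpow hA (pow_nonneg ha.le i), Real.mul_rpow hA (pow_nonneg hb.le i), mul_pow,
    Real.rpow_pow_comm ha.le, Real.rpow_pow_comm hb.le]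
  conv_lhs => rw [GA3_split (th := th) hA]
  ring

private theorem GA3_between {a b th : ℝ} (ha : 0 < a) (hab : a ≤ b) (h0 : 0 ≤ th) (h1 : th ≤ 1) :
    a ≤ a ^ th * b ^ (1 - th) ∧ a ^ th * b ^ (1 - th) ≤ b := by
  have hb : 0 < b := lt_of_lt_of_le ha hab
  constructor
  · calc a = a ^ th * a ^ (1 - th) := GA3_split ha.le
      _ ≤ a ^ th * b ^ (1 - th) := mul_le_mul_of_nonneg_left
          (Real.rpow_le_rpow ha.le hab (by linarith)) (Real.rpow_nonneg ha.le _)
  · calc a ^ th * b ^ (1 - th) ≤ b ^ th * b ^ (1 - th) := mul_le_mul_of_nonneg_right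
          (Real.rpow_le_rpow ha.le hab h0) (Real.rpow_nonneg hb.le _)
      _ = b := (GA3_split hb.le).symm

private theorem GA3_prod (c : Om) {a b th : ℝ} (ha : 0 < a) (hab : a ≤ b) (h0 : 0 ≤ th)
    (h1 : th ≤ 1) (s : Multiset Om) (hs : ∀ α ∈ s, ‖α - c‖ ≤ a ∨ b ≤ ‖α - c‖) :
    (s.map fun α => max (a ^ th * b ^ (1 - th)) ‖c - α‖).prod =
      (s.map fun α => max a ‖c - α‖).prod ^ th * (s.map fun α => max b ‖c - α‖).prod ^ (1 - th) := by
  have hb : 0 < b := lt_of_lt_of_le ha hab
  obtain ⟨hr1, hr2⟩ := GA3_between ha hab h0 h1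
  induction s using Multiset.induction_on with
  | empty => simp
  | cons x s ih =>
    have ih' := ih fun α hα => hs α (Multiset.mem_cons_of_mem hα)
    rw [Multiset.map_cons, Multiset.prod_cons, Multiset.map_cons, Multiset.prod_cons,
      Multiset.map_cons, Multiset.prod_cons, ih']
    have ha' : 0 ≤ (s.map fun α => max a ‖c - α‖).prod := by
      apply Multiset.prod_nonneg
      intro y hy
      obtain ⟨z, _, rfl⟩ := Multiset.mem_map.1 hy
      exact le_max_of_le_left ha.le
    have hb' : 0 ≤ (s.map fun α => max b ‖c - α‖).prod := by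
      apply Multiset.prod_nonneg
      intro y hy
      obtain ⟨z, _, rfl⟩ := Multiset.mem_map.1 hy
      exact le_max_of_le_left hb.le
    rw [Real.mul_rpow (le_max_of_le_left ha.le) ha', Real.mul_rpow (le_max_of_le_left hb.le) hb']
    have hx : max (a ^ th * b ^ (1 - th)) ‖c - x‖ =
        (max a ‖c - x‖) ^ th * (max b ‖c - x‖) ^ (1 - th) := by
      rcases hs x (Multiset.mem_cons_self x s) with h | h
      · rw [norm_sub_rev] at h
        rw [max_eq_left h, max_eq_left (h.trans hab), max_eq_left (h.trans hr1)]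
      · rw [norm_sub_rev] at h
        rw [max_eq_right h, max_eq_right (hab.trans h), max_eq_right (hr2.trans h)]
        exact GA3_split (norm_nonneg _)
    rw [hx]
    ring

private theorem GA3_gn_eq (c : Om) {r : ℝ} (hr : 0 < r) {Q : Om[X]} (hQ : Q.Monic) :
    gn c r Q = (Q.roots.map fun α => max r ‖c - α‖).prod := by
  rw [← gp_poly c hr, Pt.v_poly (gp c r) hQ.ne_zero, hQ.leadingCoeff, norm_one, one_mul]
  congr 1
  apply Multiset.map_congr rfl
  intro α _
  exact gp_X_sub c α hr

theorem gn_convex (c : Om) {a b th : ℝ} (ha : 0 < a) (hab : a ≤ b) (h0 : 0 ≤ th) (h1 : th ≤ 1)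
    (P : Om[X]) : gn c (a ^ th * b ^ (1 - th)) P ≤ gn c a P ^ th * gn c b P ^ (1 - th) := by
  have hb : 0 < b := lt_of_lt_of_le ha hab
  obtain ⟨i, hi⟩ := gn_exists c (r := a ^ th * b ^ (1 - th)) P
  rw [hi, GA3_mono ha hb (norm_nonneg _) i]
  refine mul_le_mul ?_ ?_ (Real.rpow_nonneg (mul_nonneg (norm_nonneg _) (pow_nonneg hb.le i)) _)
    (Real.rpow_nonneg (gn_nonneg c ha P) _)
  · exact Real.rpow_le_rpow (mul_nonneg (norm_nonneg _) (pow_nonneg ha.le i))
      (gn_coeff_le c ha P i) h0
  · exact Real.rpow_le_rpow (mul_nonneg (norm_nonneg _) (pow_nonneg hb.le i))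
      (gn_coeff_le c hb P i) (by linarith)

theorem gp_convex (c : Om) {a b th : ℝ} (ha : 0 < a) (hab : a ≤ b) (h0 : 0 ≤ th) (h1 : th ≤ 1)
    (f : RatFunc Om) (hf : ∀ α, f.denom.eval α = 0 → ‖α - c‖ ≤ a ∨ b ≤ ‖α - c‖) :
    (gp c (a ^ th * b ^ (1 - th))).v f ≤ (gp c a).v f ^ th * (gp c b).v f ^ (1 - th) := by
  have hb : 0 < b := lt_of_lt_of_le ha hab
  have hr : 0 < a ^ th * b ^ (1 - th) := mul_pos (Real.rpow_pos_of_pos ha _)
    (Real.rpow_pos_of_pos hb _)
  rw [gp_apply, gp_apply, gp_apply, pr_eq ha, pr_eq hb, pr_eq hr,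
    Real.div_rpow (gn_nonneg c ha _) (gn_nonneg c ha _),
    Real.div_rpow (gn_nonneg c hb _) (gn_nonneg c hb _), div_mul_div_comm]
  have hden : gn c (a ^ th * b ^ (1 - th)) f.denom =
      gn c a f.denom ^ th * gn c b f.denom ^ (1 - th) := by
    rw [GA3_gn_eq c ha (RatFunc.monic_denom f), GA3_gn_eq c hb (RatFunc.monic_denom f),
      GA3_gn_eq c hr (RatFunc.monic_denom f)]
    refine GA3_prod c ha hab h0 h1 _ fun α hα => hf α ?_
    exact (Polynomial.mem_roots'.1 hα).2
  rw [hden]
  exact div_le_div_of_nonneg_right (gn_convex c ha hab h0 h1 f.num)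
    (mul_nonneg (Real.rpow_nonneg (gn_nonneg c ha _) _) (Real.rpow_nonneg (gn_nonneg c hb _) _))

theorem lam_convex {a b th : ℝ} (ha : 0 < a) (hab : a ≤ b) (h0 : 0 ≤ th) (h1 : th ≤ 1)
    (q : Lam Om) :
    (gp 0 (a ^ th * b ^ (1 - th))).v (jF Om q) ≤
      (gp 0 a).v (jF Om q) ^ th * (gp 0 b).v (jF Om q) ^ (1 - th) := by
  refine gp_convex 0 ha hab h0 h1 _ fun α hα => ?_
  have hα0 : α = 0 := by
    obtain ⟨n, P, hP⟩ := LaurentPolynomial.exists_T_pow q
    have h2 : algebraMap Om[X] (RatFunc Om) P = jF Om q * RatFunc.X ^ n := by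
      have h3 := congrArg (jF Om) hP
      rw [map_mul] at h3
      unfold jF at h3 ⊢
      rw [LaurentPolynomial.eval₂_toLaurent, LaurentPolynomial.eval₂_T_n] at h3
      have h4 : ((uU Om : (RatFunc Om)ˣ) : RatFunc Om) = RatFunc.X := rfl
      rw [h4] at h3
      rw [← h3, ← RatFunc.algebraMap_eq_C, ← RatFunc.algebraMap_X]
      have h5 : (algebraMap Om (RatFunc Om)) = (algebraMap Om[X] (RatFunc Om)).comp C := by
        ext x
        rw [RatFunc.algebraMap_eq_C, RingHom.comp_apply, RatFunc.algebraMap_C]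
      rw [h5, ← Polynomial.hom_eval₂, Polynomial.eval₂_C_X]
    have hX : (RatFunc.X : RatFunc Om) ^ n ≠ 0 := pow_ne_zero n RatFunc.X_ne_zero
    have h3 : jF Om q = algebraMap Om[X] (RatFunc Om) P / algebraMap Om[X] (RatFunc Om) (X ^ n) := by
      rw [map_pow, RatFunc.algebraMap_X, h2, mul_div_assoc, div_self hX, mul_one]
    have h4 : (jF Om q).denom ∣ X ^ n := by
      rw [h3]
      exact RatFunc.denom_div_dvd _ _
    obtain ⟨Q, hQ⟩ := h4
    have h5 := congrArg (Polynomial.eval α) hQ
    rw [eval_mul, hα, zero_mul, eval_pow, eval_X] at h5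
    by_contra hne
    exact pow_ne_zero n hne h5
  left
  rw [hα0, sub_zero, norm_zero]
  exact ha.le

end

end Pool.Agent.MP_1c8e06_ag.CY
end
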