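import Pool.Agent.Lib.MP_1c8e06_ag.CY.Defs
import Pool.Agent.Lib.MP_1c8e06_ag.Mg.G003

section

/-!
# CY QA1: Frobenius powers of an approximate idempotent converge

NOTATION.  w : Pt Om, E = w.E, A = Al (S.map (lw w)).  bw := image of b : Al (S.map (jF Om)) in A, i.e.
bw l = w.ι (b l) (`toE`, a ring homomorphism commuting with act: `Al.homOf` or `Al.mapA`; note
S.map (lw w) and (S.map (jF Om)).map w.ι have the same constants, so `Al.homOf (S.map (jF Om)) w.ι
(S.map (lw w))`).  M := MB S w ≥ 1 bounds the norms of all constants μ, α, ν.  For a in A let cn a := max ‖a l‖;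
in the statements `∀ l, ‖a l‖ ≤ C` is used instead.
`mul_bound`: (a b) l = ∑ a_i b_j μ_{ijl} (`Al.mul_apply`), so ‖(ab) l‖ ≤ M A B.  `act_bound`: likewise.
`pow_bound`: M ‖(a^m) l‖ ≤ (M C)^m for m ≥ 1: induction.
char p: E has characteristic p, so (a + b)^(p^n) = a^(p^n) + b^(p^n) in A (`add_pow_char_pow` with
`CharP A p`, or AJ.add_pow_p iterated); A is commutative; ring homs commute with powers.

`exists_NI_of_QA`: put c := bw^p - bw: bw^(p^(n+1)) - bw^(p^n) = c^(p^n), M ‖(c^(p^n)) l‖ ≤ q^(p^n) with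
q := max_l M ‖c l‖ < 1.  So the sequence (bw^(p^n)) l is Cauchy for all l; e := limit.
‖(e - bw) l‖ ≤ max_n ‖(c^(p^n)) l‖ ≤ max_l ‖c l‖ (as q ≤ 1: q^(p^n)/M ≤ q/M).
Multiplication and act are continuous in the coordinates, so e^2 - e = lim (bw^2 - bw)^(p^n) = 0 because
M‖..‖ < 1; act n e - e = lim (act n bw - bw)^(p^n) = 0; e * act h e = lim (bw * act h bw)^(p^n) = 0;
∑_q act q.out e - 1 = lim (∑_q act q.out bw - 1)^(p^n) = 0.
`QA.pow`: each of the five expressions for b^p is the p-th power of the expression for b (Frobenius), and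
M ‖(a^p) l‖ ≤ (M C)^p < 1.   `QA.pow_iter`: iterate.
`QA_of_lim`: if bw^(p^n) → e and e is NI, then the five expressions tend to those for e, which are 0
(for the first: e^p = e), so for large n they are < 1/M.
`QA_of_near`: if bw is very close to e (NI), QA holds and bw^p - bw is small: the expressions are
polynomials in the coordinates, hence continuous, and vanish at e.
-/

set_option autoImplicit false

open Polynomial
open scoped Classical

namespace Pool.Agent.MP_1c8e06_ag.CY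

open Pool.Agent.MP_1c8e06_ag.AJ

noncomputable section

set_option linter.unusedSectionVars false

variable {Om : Type} [NormedField Om] [IsUltrametricDist Om] {p : ℕ} [Fact p.Prime] [CharP Om p]
  {G : Type} [Group G] [Fintype G]

/-- The image of an element with rational coordinates in the algebra over `E_w`. -/
def toE (S : SC (Lam Om) G) (w : Pt Om) : Al (S.map (jF Om)) →+* Al (S.map (lw w)) :=
  Al.homOf (S.map (jF Om)) w.ι (S.map (lw w)) (fun _ _ _ => rfl) (fun _ => rfl)

theorem toE_apply (S : SC (Lam Om) G) (w : Pt Om) (b : Al (S.map (jF Om))) (l : G) :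
    toE S w b l = w.ι (b l) := Al.homOf_apply _ _ _ _ _ b l

theorem toE_act (S : SC (Lam Om) G) (w : Pt Om) (g : G) (b : Al (S.map (jF Om))) :
    toE S w (Al.act _ g b) = Al.act _ g (toE S w b) := by
  refine Al.ext fun l => ?_
  rw [toE_apply, Al.act_apply, Al.act_apply, map_sum]
  refine Finset.sum_congr rfl fun m _ => ?_
  rw [map_mul, toE_apply]
  rfl

private theorem norm_toE (S : SC (Lam Om) G) (w : Pt Om) (b : Al (S.map (jF Om))) (l : G) :
    ‖toE S w b l‖ = w.v (b l) := by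
  rw [toE_apply, Pt.norm_ι]

theorem one_le_MB (S : SC (Lam Om) G) (w : Pt Om) : 1 ≤ MB S w := le_max_left _ _

private theorem MB_pos (S : SC (Lam Om) G) (w : Pt Om) : 0 < MB S w :=
  one_pos.trans_le (one_le_MB S w)

private theorem le_MB (S : SC (Lam Om) G) (w : Pt Om) (i : G × G × G) :
    max (w.v (jF Om (S.μ i.1 i.2.1 i.2.2)))
      (max (w.v (jF Om (S.α i.1 i.2.1 i.2.2))) (w.v (jF Om (S.ν i.1)))) ≤ MB S w := by
  refine le_trans ?_ (le_max_right _ _)
  exact Finset.le_sup' (f := fun i : G × G × G =>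
    max (w.v (jF Om (S.μ i.1 i.2.1 i.2.2)))
      (max (w.v (jF Om (S.α i.1 i.2.1 i.2.2))) (w.v (jF Om (S.ν i.1))))) (Finset.mem_univ i)

private theorem mu_le (S : SC (Lam Om) G) (w : Pt Om) (i j l : G) :
    ‖(S.map (lw w)).μ i j l‖ ≤ MB S w := by
  change ‖w.ι (jF Om (S.μ i j l))‖ ≤ MB S w
  rw [Pt.norm_ι]
  exact (le_max_left _ _).trans (le_MB S w (i, j, l))

private theorem al_le (S : SC (Lam Om) G) (w : Pt Om) (i j l : G) :
    ‖(S.map (lw w)).α i j l‖ ≤ MB S w := by
  change ‖w.ι (jF Om (S.α i j l))‖ ≤ MB S w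
  rw [Pt.norm_ι]
  exact ((le_max_left _ _).trans (le_max_right _ _)).trans (le_MB S w (i, j, l))

theorem mul_bound (S : SC (Lam Om) G) (w : Pt Om) {a b : Al (S.map (lw w))} {A B : ℝ}
    (hA : 0 ≤ A) (hB : 0 ≤ B) (ha : ∀ l, ‖a l‖ ≤ A) (hb : ∀ l, ‖b l‖ ≤ B) (l : G) :
    ‖(a * b) l‖ ≤ MB S w * A * B := by
  have hM := (MB_pos S w).le
  have h0 : 0 ≤ MB S w * A * B := mul_nonneg (mul_nonneg hM hA) hB
  rw [Al.mul_apply]
  refine IsUltrametricDist.norm_sum_le_of_forall_le_of_nonneg h0 fun i _ => ?_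
  refine IsUltrametricDist.norm_sum_le_of_forall_le_of_nonneg h0 fun j _ => ?_
  rw [norm_mul, norm_mul]
  calc ‖a i‖ * ‖b j‖ * ‖(S.map (lw w)).μ i j l‖ ≤ A * B * MB S w :=
        mul_le_mul (mul_le_mul (ha i) (hb j) (norm_nonneg _) hA) (mu_le S w i j l)
          (norm_nonneg _) (mul_nonneg hA hB)
    _ = MB S w * A * B := by ring

theorem act_bound (S : SC (Lam Om) G) (w : Pt Om) (g : G) {a : Al (S.map (lw w))} {A : ℝ}
    (hA : 0 ≤ A) (ha : ∀ l, ‖a l‖ ≤ A) (l : G) : ‖(Al.act _ g a) l‖ ≤ MB S w * A := by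
  have hM := (MB_pos S w).le
  rw [Al.act_apply]
  refine IsUltrametricDist.norm_sum_le_of_forall_le_of_nonneg (mul_nonneg hM hA) fun i _ => ?_
  rw [norm_mul]
  calc ‖a i‖ * ‖(S.map (lw w)).α g i l‖ ≤ A * MB S w :=
        mul_le_mul (ha i) (al_le S w g i l) (norm_nonneg _) hA
    _ = MB S w * A := mul_comm _ _

theorem pow_bound (S : SC (Lam Om) G) (w : Pt Om) {a : Al (S.map (lw w))} {C : ℝ}
    (hC : 0 ≤ C) (ha : ∀ l, ‖a l‖ ≤ C) {m : ℕ} (hm : 1 ≤ m) (l : G) :
    MB S w * ‖(a ^ m) l‖ ≤ (MB S w * C) ^ m := by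
  have hM := MB_pos S w
  induction m, hm using Nat.le_induction generalizing l with
  | base =>
    rw [pow_one, pow_one]
    exact mul_le_mul_of_nonneg_left (ha l) hM.le
  | succ m hm ih =>
    have h1 : ∀ l, ‖(a ^ m) l‖ ≤ (MB S w * C) ^ m / MB S w := fun l => by
      rw [le_div_iff₀ hM, mul_comm]
      exact ih l
    have h2 := mul_bound S w (div_nonneg (pow_nonneg (mul_nonneg hM.le hC) m) hM.le) hC h1 ha l
    rw [pow_succ]
    calc MB S w * ‖(a ^ m * a) l‖ ≤ MB S w * (MB S w * ((MB S w * C) ^ m / MB S w) * C) :=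
          mul_le_mul_of_nonneg_left h2 hM.le
      _ = (MB S w * C) ^ (m + 1) := by
          rw [mul_div_cancel₀ _ hM.ne', pow_succ]
          ring

private theorem charP_E (w : Pt Om) : CharP w.E p :=
  charP_of_injective_ringHom (f := w.ι.comp (RatFunc.C : Om →+* RatFunc Om))
    (RingHom.injective _) p

private theorem charP_Al {B : Type} [CommRing B] [CharP B p] (T : SC B G) : CharP (Al T) p :=
  charP_of_injective_ringHom (cst_injective T) p

private theorem charP_w (S : SC (Lam Om) G) (w : Pt Om) : CharP (Al (S.map (lw w))) p :=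
  haveI := charP_E (p := p) w
  charP_Al _

private theorem charP_j (S : SC (Lam Om) G) : CharP (Al (S.map (jF Om))) p :=
  haveI : CharP (RatFunc Om) p :=
    charP_of_injective_ringHom (f := (RatFunc.C : Om →+* RatFunc Om)) (RingHom.injective _) p
  charP_Al _

theorem frob_add (S : SC (Lam Om) G) (w : Pt Om) (a b : Al (S.map (lw w))) (n : ℕ) :
    (a + b) ^ (p ^ n) = a ^ (p ^ n) + b ^ (p ^ n) := by
  have := charP_w (p := p) S w
  exact add_pow_char_pow a b p n

/-- A bound for the coordinates. -/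
private theorem exists_cn (S : SC (Lam Om) G) (w : Pt Om) (a : Al (S.map (lw w))) :
    ∃ C : ℝ, 0 ≤ C ∧ (∀ l, ‖a l‖ ≤ C) ∧ ∃ l, ‖a l‖ = C := by
  obtain ⟨l, -, hl⟩ := Finset.exists_max_image Finset.univ (fun l : G => ‖a l‖)
    ⟨1, Finset.mem_univ _⟩
  exact ⟨‖a l‖, norm_nonneg _, fun m => hl m (Finset.mem_univ _), l, rfl⟩

private theorem lt_ppow (hp : 2 ≤ p) (n : ℕ) : n + 1 ≤ p ^ n :=
  Nat.lt_pow_self (by omega)

/-- Powers of a small element tend to zero. -/
theorem frob_small (S : SC (Lam Om) G) (w : Pt Om) {a : Al (S.map (lw w))}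
    (ha : ∀ l, MB S w * ‖a l‖ < 1) {et : ℝ} (het : 0 < et) :
    ∃ n0, ∀ n, n0 ≤ n → ∀ l, ‖(a ^ (p ^ n)) l‖ < et := by
  have hM := MB_pos S w
  obtain ⟨C, hC, haC, l0, hl0⟩ := exists_cn S w a
  have hq : MB S w * C < 1 := hl0 ▸ ha l0
  have hq0 : 0 ≤ MB S w * C := mul_nonneg hM.le hC
  obtain ⟨n0, hn0⟩ := exists_pow_lt_of_lt_one het hq
  refine ⟨n0, fun n hn l => ?_⟩
  have h1 := pow_bound S w hC haC (m := p ^ n) (Nat.pow_pos (Fact.out : p.Prime).pos) l
  have h2 : ‖(a ^ (p ^ n)) l‖ ≤ MB S w * ‖(a ^ (p ^ n)) l‖ :=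
    le_mul_of_one_le_left (norm_nonneg _) (one_le_MB S w)
  have h3 : (MB S w * C) ^ (p ^ n) ≤ (MB S w * C) ^ n0 :=
    pow_le_pow_of_le_one hq0 hq.le
      (hn.trans ((Nat.le_succ n).trans (lt_ppow (Fact.out : p.Prime).two_le n)))
  exact ((h2.trans h1).trans h3).trans_lt hn0

private theorem small_pow (S : SC (Lam Om) G) (w : Pt Om) {a : Al (S.map (lw w))}
    (ha : ∀ l, MB S w * ‖a l‖ < 1) (n : ℕ) (l : G) : MB S w * ‖(a ^ (p ^ n)) l‖ < 1 := by
  have hM := MB_pos S w
  obtain ⟨C, hC, haC, l0, hl0⟩ := exists_cn S w a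
  have hq : MB S w * C < 1 := hl0 ▸ ha l0
  have hq0 : 0 ≤ MB S w * C := mul_nonneg hM.le hC
  have h1 := pow_bound S w hC haC (m := p ^ n) (Nat.pow_pos (Fact.out : p.Prime).pos) l
  exact h1.trans_lt (pow_lt_one₀ hq0 hq (Nat.pow_pos (Fact.out : p.Prime).pos).ne')

private theorem small_powj (S : SC (Lam Om) G) (w : Pt Om) {a : Al (S.map (jF Om))}
    (ha : ∀ l, MB S w * w.v (a l) < 1) (n : ℕ) (l : G) : MB S w * w.v ((a ^ (p ^ n)) l) < 1 := by
  have h := small_pow (p := p) S w (a := toE S w a) (fun l => by rw [norm_toE]; exact ha l) n l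
  rwa [← map_pow, norm_toE] at h

/-! Limits of coordinates. -/

/-- Coordinatewise convergence. -/
private def Lm {ι : Type} {S : SC (Lam Om) G} {w : Pt Om} (F : Filter ι)
    (u : ι → Al (S.map (lw w))) (x : Al (S.map (lw w))) : Prop :=
  ∀ l, Filter.Tendsto (fun n => u n l) F (nhds (x l))

section
variable {ι : Type} {S : SC (Lam Om) G} {w : Pt Om} {F : Filter ι}
  {u v : ι → Al (S.map (lw w))} {x y : Al (S.map (lw w))}

private theorem Lm.mul (hu : Lm F u x) (hv : Lm F v y) : Lm F (fun n => u n * v n) (x * y) := by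
  intro l
  simp only [Al.mul_apply]
  exact tendsto_finsetSum _ fun i _ => tendsto_finsetSum _ fun j _ =>
    ((hu i).mul (hv j)).mul tendsto_const_nhds

private theorem Lm.act (g : G) (hu : Lm F u x) :
    Lm F (fun n => Al.act _ g (u n)) (Al.act _ g x) := by
  intro l
  simp only [Al.act_apply]
  exact tendsto_finsetSum _ fun i _ => (hu i).mul tendsto_const_nhds

private theorem Lm.sub (hu : Lm F u x) (hv : Lm F v y) : Lm F (fun n => u n - v n) (x - y) :=
  fun l => (hu l).sub (hv l)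

private theorem Lm.const (x : Al (S.map (lw w))) : Lm F (fun _ => x) x :=
  fun _ => tendsto_const_nhds

private theorem Lm.sum {κ : Type} (s : Finset κ) {u : κ → ι → Al (S.map (lw w))}
    {x : κ → Al (S.map (lw w))} (hu : ∀ k, Lm F (u k) (x k)) :
    Lm F (fun n => ∑ k ∈ s, u k n) (∑ k ∈ s, x k) := by
  intro l
  simp only [Al.sum_apply]
  exact tendsto_finsetSum _ fun k _ => hu k l

private theorem Lm.pow (hu : Lm F u x) (m : ℕ) : Lm F (fun n => u n ^ m) (x ^ m) := by
  induction m with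
  | zero => simpa only [pow_zero] using Lm.const 1
  | succ m ih => simpa only [pow_succ] using ih.mul hu

private theorem Lm.uniq [F.NeBot] (hu : Lm F u x) (hv : Lm F u y) : x = y :=
  Al.ext fun l => tendsto_nhds_unique (hu l) (hv l)

private theorem Lm.ev {et : ℝ} (het : 0 < et) (hu : Lm F u 0) :
    ∀ᶠ n in F, ∀ l, ‖u n l‖ < et := by
  rw [Filter.eventually_all]
  intro l
  have h := (hu l).norm
  rw [Al.zero_apply, norm_zero] at h
  exact h.eventually_lt_const het

private theorem Lm.evM (hu : Lm F u 0) : ∀ᶠ n in F, ∀ l, MB S w * ‖u n l‖ < 1 := by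
  have hM := MB_pos S w
  filter_upwards [hu.ev (inv_pos.2 hM)] with n hn l
  have := mul_lt_mul_of_pos_left (hn l) hM
  rwa [mul_inv_cancel₀ hM.ne'] at this

end

private theorem Lm_small (S : SC (Lam Om) G) (w : Pt Om) {a : Al (S.map (lw w))}
    (ha : ∀ l, MB S w * ‖a l‖ < 1) : Lm Filter.atTop (fun n => a ^ (p ^ n)) 0 := by
  intro l
  rw [Al.zero_apply]
  refine Metric.tendsto_atTop.2 fun et het => ?_
  obtain ⟨n0, hn0⟩ := frob_small (p := p) S w ha het
  refine ⟨n0, fun n hn => ?_⟩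
  rw [dist_zero_right]
  exact hn0 n hn l

/-- The algebraic expressions at a limit of Frobenius powers. -/
private theorem NI_of_Lm (S : SC (Lam Om) G) (N : Subgroup G) (w : Pt Om)
    {b : Al (S.map (jF Om))} (hQ : QA p S N b w) {e : Al (S.map (lw w))}
    (he : Lm Filter.atTop (fun n => toE S w b ^ (p ^ n)) e) : NI (S.map (lw w)) N e := by
  have := charP_w (p := p) S w
  have hsm : ∀ c : Al (S.map (jF Om)), (∀ l, MB S w * w.v (c l) < 1) →
      Lm Filter.atTop (fun n => toE S w c ^ (p ^ n)) 0 := fun c hc =>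
    Lm_small (p := p) S w fun l => by rw [norm_toE]; exact hc l
  constructor
  · intro n hn
    have h1 := (he.act n).sub he
    have h2 := hsm _ (hQ.fix n hn)
    have h3 : (fun m => toE S w (Al.act (S.map (jF Om)) n b - b) ^ (p ^ m)) =
        fun m => Al.act _ n (toE S w b ^ (p ^ m)) - toE S w b ^ (p ^ m) := by
      funext m
      rw [map_sub, toE_act, sub_pow_char_pow, map_pow]
    rw [h3] at h2
    exact sub_eq_zero.1 (h1.uniq h2)
  · have h1 := (he.mul he).sub he
    have h2 := hsm _ hQ.idem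
    have h3 : (fun m => toE S w (b ^ 2 - b) ^ (p ^ m)) =
        fun m => toE S w b ^ (p ^ m) * toE S w b ^ (p ^ m) - toE S w b ^ (p ^ m) := by
      funext m
      rw [map_sub, map_pow, sub_pow_char_pow, ← pow_mul, mul_comm 2, pow_mul, sq]
    rw [h3] at h2
    exact sub_eq_zero.1 (h1.uniq h2)
  · intro h hh
    have h1 := he.mul (he.act h)
    have h2 := hsm _ (hQ.orth h hh)
    have h3 : (fun m => toE S w (b * Al.act (S.map (jF Om)) h b) ^ (p ^ m)) =
        fun m => toE S w b ^ (p ^ m) * Al.act _ h (toE S w b ^ (p ^ m)) := by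
      funext m
      rw [map_mul, toE_act, mul_pow, map_pow]
    rw [h3] at h2
    exact h1.uniq h2
  · have h1 := (Lm.sum (Finset.univ : Finset (G ⧸ N)) fun q => he.act q.out).sub (Lm.const 1)
    have h2 := hsm _ hQ.sum
    have h3 : (fun m => toE S w (∑ q : G ⧸ N, Al.act (S.map (jF Om)) q.out b - 1) ^ (p ^ m)) =
        fun m => (∑ q : G ⧸ N, Al.act _ q.out (toE S w b ^ (p ^ m))) - 1 := by
      funext m
      rw [map_sub, map_sum, map_one, sub_pow_char_pow, one_pow, ← iterateFrobenius_def, map_sum]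
      congr 1
      refine Finset.sum_congr rfl fun q _ => ?_
      rw [iterateFrobenius_def, toE_act, map_pow]
    rw [h3] at h2
    exact sub_eq_zero.1 (h1.uniq h2)

theorem exists_NI_of_QA (S : SC (Lam Om) G) (N : Subgroup G) (w : Pt Om)
    {b : Al (S.map (jF Om))} (hQ : QA p S N b w) :
    ∃ e : Al (S.map (lw w)), NI (S.map (lw w)) N e ∧
      (∀ et : ℝ, 0 < et → ∃ n0, ∀ n, n0 ≤ n → ∀ l, ‖e l - w.ι ((b ^ (p ^ n)) l)‖ < et) ∧
      ∀ C : ℝ, (∀ l, w.v ((b ^ p - b) l) ≤ C) → ∀ l, ‖e l - w.ι (b l)‖ ≤ C := by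
  have := charP_w (p := p) S w
  have hM := MB_pos S w
  set c : Al (S.map (lw w)) := toE S w (b ^ p - b) with hc
  obtain ⟨C0, hC0, hcC, l0, hl0⟩ := exists_cn S w c
  have hq : MB S w * C0 < 1 := by
    rw [← hl0, hc, norm_toE]
    exact hQ.frob l0
  have hq0 : 0 ≤ MB S w * C0 := mul_nonneg hM.le hC0
  have hstep : ∀ n, toE S w b ^ (p ^ (n + 1)) - toE S w b ^ (p ^ n) = c ^ (p ^ n) := by
    intro n
    rw [hc, map_sub, map_pow, sub_pow_char_pow, ← pow_mul, pow_succ, mul_comm]
  have hb : ∀ n l, ‖(c ^ (p ^ n)) l‖ ≤ C0 * (MB S w * C0) ^ n := by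
    intro n l
    have h1 := pow_bound S w hC0 hcC (m := p ^ n) (Nat.pow_pos (Fact.out : p.Prime).pos) l
    have h2 : (MB S w * C0) ^ (p ^ n) ≤ (MB S w * C0) ^ (n + 1) :=
      pow_le_pow_of_le_one hq0 hq.le (lt_ppow (Fact.out : p.Prime).two_le n)
    have h3 : MB S w * ‖(c ^ (p ^ n)) l‖ ≤ MB S w * (C0 * (MB S w * C0) ^ n) := by
      refine (h1.trans h2).trans (le_of_eq ?_)
      rw [pow_succ]
      ring
    exact le_of_mul_le_mul_left h3 hM
  have hd : ∀ l n, dist ((toE S w b ^ (p ^ n)) l) ((toE S w b ^ (p ^ (n + 1))) l) ≤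
      C0 * (MB S w * C0) ^ n := by
    intro l n
    rw [dist_comm, dist_eq_norm, ← Al.sub_apply, hstep]
    exact hb n l
  have hcau : ∀ l, ∃ y : w.E, Filter.Tendsto (fun n => (toE S w b ^ (p ^ n)) l) Filter.atTop
      (nhds y) := fun l => cauchySeq_tendsto_of_complete
    (cauchySeq_of_le_geometric (MB S w * C0) C0 hq (hd l))
  obtain ⟨e, he⟩ : ∃ e : Al (S.map (lw w)), ∀ l, Filter.Tendsto
      (fun n => (toE S w b ^ (p ^ n)) l) Filter.atTop (nhds (e l)) :=
    ⟨fun l => (hcau l).choose, fun l => (hcau l).choose_spec⟩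
  have he' : Lm Filter.atTop (fun n => toE S w b ^ (p ^ n)) e := he
  refine ⟨e, NI_of_Lm S N w hQ he', ?_, ?_⟩
  · intro et het
    have h1 : Lm Filter.atTop (fun n => e - toE S w b ^ (p ^ n)) 0 := by
      have := (Lm.const (F := Filter.atTop) e).sub he'
      rwa [sub_self] at this
    obtain ⟨n0, hn0⟩ := Filter.eventually_atTop.1 (h1.ev het)
    refine ⟨n0, fun n hn l => ?_⟩
    have h2 := hn0 n hn l
    rwa [Al.sub_apply, ← map_pow, toE_apply] at h2
  · intro C hC l
    have hC1 : C0 ≤ C := by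
      rw [← hl0, hc, norm_toE]
      exact hC l0
    have h1 : ∀ n, ‖(toE S w b ^ (p ^ n)) l - w.ι (b l)‖ ≤ C0 := by
      intro n
      induction n with
      | zero =>
        rw [pow_zero, pow_one, toE_apply, sub_self, norm_zero]
        exact hC0
      | succ n ih =>
        have h2 : (toE S w b ^ (p ^ (n + 1))) l - w.ι (b l) =
            (c ^ (p ^ n)) l + ((toE S w b ^ (p ^ n)) l - w.ι (b l)) := by
          rw [← hstep, Al.sub_apply]
          ring
        rw [h2]
        refine (w.norm_add _ _).trans (max_le ((hb n l).trans ?_) ih)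
        exact mul_le_of_le_one_right hC0 (pow_le_one₀ hq0 hq.le)
    have h2 : Filter.Tendsto (fun n => ‖(toE S w b ^ (p ^ n)) l - w.ι (b l)‖) Filter.atTop
        (nhds ‖e l - w.ι (b l)‖) := ((he l).sub tendsto_const_nhds).norm
    exact le_of_tendsto h2 (Filter.Eventually.of_forall fun n => (h1 n).trans hC1)

theorem QA.pow {S : SC (Lam Om) G} {N : Subgroup G} {w : Pt Om} {b : Al (S.map (jF Om))}
    (hQ : QA p S N b w) (n : ℕ) : QA p S N (b ^ (p ^ n)) w := by
  have := charP_j (p := p) S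
  constructor
  · intro l
    have h : (b ^ (p ^ n)) ^ p - b ^ (p ^ n) = (b ^ p - b) ^ (p ^ n) := by
      rw [sub_pow_char_pow, ← pow_mul, ← pow_mul, mul_comm]
    rw [h]
    exact small_powj S w hQ.frob n l
  · intro l
    have h : (b ^ (p ^ n)) ^ 2 - b ^ (p ^ n) = (b ^ 2 - b) ^ (p ^ n) := by
      rw [sub_pow_char_pow, ← pow_mul, ← pow_mul, mul_comm]
    rw [h]
    exact small_powj S w hQ.idem n l
  · intro m hm l
    have h : Al.act (S.map (jF Om)) m (b ^ (p ^ n)) - b ^ (p ^ n) =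
        (Al.act (S.map (jF Om)) m b - b) ^ (p ^ n) := by
      rw [sub_pow_char_pow, map_pow]
    rw [h]
    exact small_powj S w (hQ.fix m hm) n l
  · intro m hm l
    have h : b ^ (p ^ n) * Al.act (S.map (jF Om)) m (b ^ (p ^ n)) =
        (b * Al.act (S.map (jF Om)) m b) ^ (p ^ n) := by
      rw [mul_pow, map_pow]
    rw [h]
    exact small_powj S w (hQ.orth m hm) n l
  · intro l
    have h0 : (∑ q : G ⧸ N, Al.act (S.map (jF Om)) q.out b) ^ (p ^ n) =
        ∑ q : G ⧸ N, Al.act (S.map (jF Om)) q.out (b ^ (p ^ n)) := by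
      rw [← iterateFrobenius_def, map_sum]
      refine Finset.sum_congr rfl fun q _ => ?_
      rw [iterateFrobenius_def, map_pow]
    have h : ∑ q : G ⧸ N, Al.act (S.map (jF Om)) q.out (b ^ (p ^ n)) - 1 =
        (∑ q : G ⧸ N, Al.act (S.map (jF Om)) q.out b - 1) ^ (p ^ n) := by
      rw [sub_pow_char_pow, one_pow, h0]
    rw [h]
    exact small_powj S w hQ.sum n l

/-- Near an idempotent all expressions are small. -/
private theorem ev_QA {ι : Type} {F : Filter ι} (S : SC (Lam Om) G) (N : Subgroup G) (w : Pt Om)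
    {u : ι → Al (S.map (lw w))} {e : Al (S.map (lw w))} (he : NI (S.map (lw w)) N e)
    (hu : Lm F u e) {et : ℝ} (het : 0 < et) :
    ∀ᶠ i in F, ∀ b : Al (S.map (jF Om)), toE S w b = u i →
      QA p S N b w ∧ ∀ l, w.v ((b ^ p - b) l) < et := by
  have hid : IsIdempotentElem e := he.idem
  have hp : p ≠ 0 := (Fact.out : p.Prime).ne_zero
  have h1 : Lm F (fun i => u i ^ p - u i) 0 := by
    have := (hu.pow p).sub hu
    rwa [hid.pow_eq hp, sub_self] at this
  have h2 : Lm F (fun i => u i ^ 2 - u i) 0 := by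
    have := (hu.pow 2).sub hu
    rwa [hid.pow_eq two_ne_zero, sub_self] at this
  have h3 : ∀ n, n ∈ N → Lm F (fun i => Al.act _ n (u i) - u i) 0 := by
    intro n hn
    have := (hu.act n).sub hu
    rwa [he.fix n hn, sub_self] at this
  have h4 : ∀ n, n ∉ N → Lm F (fun i => u i * Al.act _ n (u i)) 0 := by
    intro n hn
    have := hu.mul (hu.act n)
    rwa [he.orth n hn] at this
  have h5 : Lm F (fun i => ∑ q : G ⧸ N, Al.act _ q.out (u i) - 1) 0 := by
    have := (Lm.sum (Finset.univ : Finset (G ⧸ N)) fun q => hu.act q.out).sub (Lm.const 1)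
    rwa [he.sum, sub_self] at this
  have h3' : ∀ᶠ i in F, ∀ n, n ∈ N → ∀ l, MB S w * ‖(Al.act _ n (u i) - u i) l‖ < 1 := by
    rw [Filter.eventually_all]
    intro n
    by_cases hn : n ∈ N
    · filter_upwards [(h3 n hn).evM] with i hi _ using hi
    · exact Filter.Eventually.of_forall fun i h => absurd h hn
  have h4' : ∀ᶠ i in F, ∀ n, n ∉ N → ∀ l, MB S w * ‖(u i * Al.act _ n (u i)) l‖ < 1 := by
    rw [Filter.eventually_all]
    intro n
    by_cases hn : n ∈ N
    · exact Filter.Eventually.of_forall fun i h => absurd hn h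
    · filter_upwards [(h4 n hn).evM] with i hi _ using hi
  filter_upwards [h1.evM, h1.ev het, h2.evM, h3', h4', h5.evM] with i g1 g1' g2 g3 g4 g5 b hb
  have k1 : toE S w (b ^ p - b) = u i ^ p - u i := by rw [map_sub, map_pow, hb]
  refine ⟨⟨fun l => ?_, fun l => ?_, fun n hn l => ?_, fun n hn l => ?_, fun l => ?_⟩,
    fun l => ?_⟩
  · rw [← norm_toE S w, k1]
    exact g1 l
  · rw [← norm_toE S w, map_sub, map_pow, hb]
    exact g2 l
  · rw [← norm_toE S w, map_sub, toE_act, hb]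
    exact g3 n hn l
  · rw [← norm_toE S w, map_mul, toE_act, hb]
    exact g4 n hn l
  · rw [← norm_toE S w, map_sub, map_sum, map_one]
    simp only [toE_act, hb]
    exact g5 l
  · rw [← norm_toE S w, k1]
    exact g1' l

theorem QA_of_lim (S : SC (Lam Om) G) (N : Subgroup G) (w : Pt Om) {b : Al (S.map (jF Om))}
    {e : Al (S.map (lw w))} (he : NI (S.map (lw w)) N e)
    (h : ∀ et : ℝ, 0 < et → ∃ n0, ∀ n, n0 ≤ n → ∀ l, ‖e l - w.ι ((b ^ (p ^ n)) l)‖ < et) :
    ∃ n0, ∀ n, n0 ≤ n → QA p S N (b ^ (p ^ n)) w := by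
  have hu : Lm Filter.atTop (fun n => toE S w (b ^ (p ^ n))) e := by
    intro l
    refine Metric.tendsto_atTop.2 fun et het => ?_
    obtain ⟨n0, hn0⟩ := h et het
    refine ⟨n0, fun n hn => ?_⟩
    rw [dist_comm, dist_eq_norm]
    change ‖e l - toE S w (b ^ (p ^ n)) l‖ < et
    rw [toE_apply]
    exact hn0 n hn l
  obtain ⟨n0, hn0⟩ := Filter.eventually_atTop.1 (ev_QA (p := p) S N w he hu one_pos)
  exact ⟨n0, fun n hn => (hn0 n hn _ rfl).1⟩

theorem QA_of_near (S : SC (Lam Om) G) (N : Subgroup G) (w : Pt Om)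
    {e : Al (S.map (lw w))} (he : NI (S.map (lw w)) N e) {et : ℝ} (het : 0 < et) :
    ∃ de > 0, ∀ b : Al (S.map (jF Om)), (∀ l, ‖e l - w.ι (b l)‖ < de) →
      QA p S N b w ∧ ∀ l, w.v ((b ^ p - b) l) < et := by
  have hu : Lm (S := S) (w := w) (@nhds (G → w.E) _ e) (fun a => a) e :=
    fun l => (continuous_apply (A := fun _ : G => w.E) l).continuousAt
  obtain ⟨de, hde, h⟩ := Metric.eventually_nhds_iff.1 (ev_QA (p := p) S N w he hu het)
  refine ⟨de, hde, fun b hb => h (y := fun l => w.ι (b l)) ?_ b ?_⟩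
  · rw [dist_pi_lt_iff hde]
    intro l
    rw [dist_comm, dist_eq_norm]
    exact hb l
  · exact Al.ext fun l => toE_apply S w b l

end

end Pool.Agent.MP_1c8e06_ag.CY
end

section

set_option autoImplicit false

open Polynomial
open scoped Classical

namespace Pool.Agent.MP_1c8e06_ag.CY

open Pool.Agent.MP_1c8e06_ag.AJ

noncomputable section

/-!
# TASK E1: continuity in the radius

Black box: `GA2.gp_cont` (`r ↦ (gp c r).v f` is continuous on `(0, ∞)`).  `MB S w` (`CY/Defs`) is the maximum of `1` and of the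
values at `w` of finitely many fixed rational functions.
* `MB_cont`: a maximum of finitely many continuous functions is continuous (`ContinuousOn.sup'`/`ContinuousOn.finset_sup'_apply`,
  `ContinuousOn.sup`/`max`).
* `bdd`: a continuous function on a compact interval `[a, d] ⊆ (0, ∞)` is bounded.
* `QA_open`: each of the conditions of `QA` is, for fixed `l` (and `n`, `h`), of the form `MB S (gp c r) * (gp c r).v f < 1` with a
  fixed `f : RatFunc Om`: open in `r`.  There are finitely many conditions (`l n h : G`): use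
  `Filter.eventually_all` in the filter `𝓝[Set.Ioi 0] r` and then extract `de`.
-/

variable {Om : Type} [NormedField Om] [CompleteSpace Om] [IsUltrametricDist Om] [IsAlgClosed Om]
  {p : ℕ} [Fact p.Prime] [CharP Om p] {G : Type} [Group G] [Fintype G]

theorem MB_cont (S : SC (Lam Om) G) (c : Om) :
    ContinuousOn (fun r : ℝ => MB S (gp c r)) (Set.Ioi 0) := by
  unfold MB
  refine ContinuousOn.sup continuousOn_const ?_
  refine ContinuousOn.finset_sup'_apply _ ?_
  intro i _
  exact ContinuousOn.sup (gp_cont c _) (ContinuousOn.sup (gp_cont c _) (gp_cont c _))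

private theorem E1_MB_pos (S : SC (Lam Om) G) (w : Pt Om) : 0 < MB S w :=
  lt_of_lt_of_le one_pos (le_max_left _ _)

private theorem E1_cont (S : SC (Lam Om) G) (c : Om) (f : RatFunc Om) :
    ContinuousOn (fun r : ℝ => MB S (gp c r) * (gp c r).v f) (Set.Ioi 0) :=
  (MB_cont S c).mul (gp_cont c f)

theorem bdd_gp (S : SC (Lam Om) G) (f : G → RatFunc Om) {a d : ℝ} (ha : 0 < a) :
    ∃ C : ℝ, ∀ r, a ≤ r → r ≤ d → ∀ l, MB S (gp 0 r) * (gp 0 r).v (f l) ≤ C := by
  have h1 : ContinuousOn (fun r : ℝ => ∑ l, MB S (gp 0 r) * (gp 0 r).v (f l)) (Set.Icc a d) := by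
    refine continuousOn_finsetSum _ ?_
    intro l _
    refine (E1_cont S 0 (f l)).mono ?_
    intro r hr
    exact lt_of_lt_of_le ha hr.1
  obtain ⟨C, hC⟩ := isCompact_Icc.exists_bound_of_continuousOn h1
  refine ⟨C, ?_⟩
  intro r hr hr' l
  refine le_trans ?_ ((le_abs_self _).trans (hC r ⟨hr, hr'⟩))
  exact Finset.single_le_sum (f := fun l => MB S (gp 0 r) * (gp 0 r).v (f l))
    (fun l _ => mul_nonneg (E1_MB_pos S _).le ((gp 0 r).v.nonneg _)) (Finset.mem_univ l)

private theorem E1_ev (S : SC (Lam Om) G) (c : Om) (f : RatFunc Om) {r : ℝ} (hr : 0 < r)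
    (h : MB S (gp c r) * (gp c r).v f < 1) :
    ∀ᶠ r' in nhdsWithin r (Set.Ioi 0), MB S (gp c r') * (gp c r').v f < 1 :=
  Filter.Tendsto.eventually_lt_const h (E1_cont S c f r hr)

theorem QA_open (S : SC (Lam Om) G) (N : Subgroup G) (b : Al (S.map (jF Om))) (c : Om) {r : ℝ}
    (hr : 0 < r) (h : QA p S N b (gp c r)) :
    ∃ de > 0, ∀ r' : ℝ, 0 < r' → |r' - r| < de → QA p S N b (gp c r') := by
  have h1 : ∀ᶠ r' in nhdsWithin r (Set.Ioi 0), QA p S N b (gp c r') := by
    have e1 := Filter.eventually_all.2 fun l => E1_ev S c _ hr (h.frob l)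
    have e2 := Filter.eventually_all.2 fun l => E1_ev S c _ hr (h.idem l)
    have e3 : ∀ᶠ r' in nhdsWithin r (Set.Ioi 0), ∀ n : G, n ∈ N → ∀ l,
        MB S (gp c r') * (gp c r').v ((Al.act (S.map (jF Om)) n b - b) l) < 1 := by
      refine Filter.eventually_all.2 fun n => ?_
      by_cases hn : n ∈ N
      · exact (Filter.eventually_all.2 fun l => E1_ev S c _ hr (h.fix n hn l)).mono
          fun _ h _ => h
      · exact Filter.Eventually.of_forall fun _ h => absurd h hn
    have e4 : ∀ᶠ r' in nhdsWithin r (Set.Ioi 0), ∀ n : G, n ∉ N → ∀ l,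
        MB S (gp c r') * (gp c r').v ((b * Al.act (S.map (jF Om)) n b) l) < 1 := by
      refine Filter.eventually_all.2 fun n => ?_
      by_cases hn : n ∈ N
      · exact Filter.Eventually.of_forall fun _ h => absurd hn h
      · exact (Filter.eventually_all.2 fun l => E1_ev S c _ hr (h.orth n hn l)).mono
          fun _ h _ => h
    have e5 := Filter.eventually_all.2 fun l => E1_ev S c _ hr (h.sum l)
    filter_upwards [e1, e2, e3, e4, e5] with r' h1 h2 h3 h4 h5
    exact ⟨h1, h2, h3, h4, h5⟩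
  obtain ⟨de, hde, h2⟩ := Metric.mem_nhdsWithin_iff.1 h1
  refine ⟨de, hde, ?_⟩
  intro r' hr' hd
  refine h2 ⟨?_, hr'⟩
  rw [Metric.mem_ball, Real.dist_eq]
  exact hd

end

end Pool.Agent.MP_1c8e06_ag.CY
end

section

set_option autoImplicit false

open Polynomial
open scoped Classical

namespace Pool.Agent.MP_1c8e06_ag.CY

open Pool.Agent.MP_1c8e06_ag.AJ

noncomputable section

variable {Om : Type} [NormedField Om] [IsUltrametricDist Om] {G : Type} [Group G] [Fintype G]

/-- The Frobenius powers of `b` converge at `w` to an `N`-idempotent. -/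
def Good (p : ℕ) (S : SC (Lam Om) G) (N : Subgroup G) (b : Al (S.map (jF Om))) (w : Pt Om) : Prop :=
  ∃ e : Al (S.map (lw w)), NI (S.map (lw w)) N e ∧
    ∀ et : ℝ, 0 < et → ∃ n0, ∀ n, n0 ≤ n → ∀ l, ‖e l - w.ι ((b ^ (p ^ n)) l)‖ < et

/-- `f` is topologically nilpotent at `w`. -/
def TN (p : ℕ) (S : SC (Lam Om) G) (f : Al (S.map (jF Om))) (w : Pt Om) : Prop :=
  ∀ et : ℝ, 0 < et → ∃ n0, ∀ n, n0 ≤ n → ∀ l, w.v ((f ^ (p ^ n)) l) < et

end

end Pool.Agent.MP_1c8e06_ag.CY
end
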