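import Pool.Agent.Lib.MP_1c8e06_ag.Mg.G002
import Pool.Agent.Lib.MP_1c8e06_ag.Mg.G001
import Pool.Agent.Lib.MP_1c8e06_ag.Mg.G003
import Pool.Agent.Lib.MP_1c8e06_ag.CY.O3
import Pool.Agent.Lib.MP_1c8e06_ag.Mg.G007

section

set_option autoImplicit false

open Polynomial
open scoped Classical

namespace Pool.Agent.MP_1c8e06_ag.CY

open Pool.Agent.MP_1c8e06_ag.AJ

noncomputable section

set_option linter.unusedSectionVars false

/-!
# TASK W6: Artin-Schreier equations have convergent solutions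

`S : SC (Lam Om) G`, `A0 := Al (S.map (lz Om))` (an algebra over `Om((s))`), `a ∈ A0` and all coordinates of
`z := a ^ p - a` are convergent.  Then all coordinates of `a` are convergent.  Black boxes: `O3` (`LB.*`, `lz_iso`), `W4`.
Proof.  `cn r C b` : `∀ l, LB r (b l) C`.  Let `M r C2` be: all `lz (μ i j l)` are `LB r _ C2`.
(0) There are `c' : ℕ` and `C2 ≥ 1` such that `LB r (lz (μ i j l)) (C2 * r⁻¹ ^ c')` for all `0 < r ≤ 1`, and all
`(lz (μ i j l)).coeff n = 0` for `n < -c'` (finitely many Laurent polynomials).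
(1) if `cn r A b`, `cn r A' b'` then `cn r (A A' (C2 r^(-c'))) (b b')` (`Al.mul_apply`, `LB.mul`, sums).
(1') if all coordinates of `b` have no coefficients below `N`, those of `b'` none below `N'`, then those of `b b'` none
below `N + N' - c'`.  So those of `b ^ m` (`m ≥ 1`) none below `m N - (m-1) c'`.
(2) Choose `N > c'` (natural number).  `a = a' + δ`, `a'` with Laurent polynomial coordinates (truncation of the coordinates
of `a`: `a' = mapA (lz) a''`), all coordinates of `δ` have no coefficients below `N`.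
`ζ := δ ^ p - δ = z - (a' ^ p - a')` (characteristic `p`): coordinates convergent (`Cv`), and no coefficients below `N`
(for `δ^p`: `≥ p N - (p-1) c' ≥ N`).
(3) If `LB r1 (ζ l) C1` (common radius `r1 ≤ 1`), then for `r ≤ r1`: `LB r (ζ l) (C1 (r/r1) ^ N)` (only coefficients `n ≥ N`:
`‖ζ_n‖ r^n = ‖ζ_n‖ r1^n (r/r1)^n`).  As `N > c'`, `C2 r^(-c') C1 (r/r1)^N < 1` for `r` small enough; fix such an `r`, let
`A := max ... = C1 (r/r1)^N` (may assume `0 < A`), so `A C2 r^(-c') ≤ 1`; by (1) `cn r A (ζ ^ m)` for all `m ≥ 1`.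
(4) For every `K`: `δ = - ∑_{k<K} ζ^(p^k) + δ^(p^K)` (induction; Frobenius is additive in characteristic `p`).  The
coefficients of `δ^(p^K)` vanish below `p^K N - (p^K - 1) c' ≥ p^K`.  For a fixed index `n` choose `K` with `p^K > n`:
`‖δ_{l,n}‖ r^n ≤ A`.  So `LB r (δ l) A`, and `a l = a' l + δ l` is convergent (`Cv_add`, `Cv_lz`).
(`CharP A0 p`: `W0.charP_Al`, or avoid it by `sub_pow_char_pow`-lemmas with `CharP`.)
-/

variable {Om : Type} [NormedField Om] [CompleteSpace Om] [IsUltrametricDist Om] [IsAlgClosed Om]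
  {G : Type} [Group G] [Fintype G] (p : ℕ) [Fact p.Prime] [CharP Om p]

private theorem W6_LB_zero {r C : ℝ} (hC : 0 ≤ C) : LB r (0 : LaurentSeries Om) C := fun n => by
  rw [HahnSeries.coeff_zero, norm_zero, zero_mul]
  exact hC

private theorem W6_LB_sum {r C : ℝ} (hr : 0 < r) (hC : 0 ≤ C) {ι : Type} (s : Finset ι)
    (f : ι → LaurentSeries Om) (h : ∀ i ∈ s, LB r (f i) C) : LB r (∑ i ∈ s, f i) C := by
  induction s using Finset.induction_on with
  | empty =>
    rw [Finset.sum_empty]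
    exact W6_LB_zero hC
  | insert a s ha ih =>
    rw [Finset.sum_insert ha]
    exact LB.add hr (h a (Finset.mem_insert_self a s))
      (ih fun i hi => h i (Finset.mem_insert_of_mem hi))

/-- One Laurent polynomial: bound for all radii at most `1`. -/
private theorem W6_one (f : Lam Om) : ∃ (c : ℕ) (C : ℝ), 0 ≤ C ∧
    (∀ n : ℤ, n < -(c : ℤ) → (lz Om f).coeff n = 0) ∧ ∀ n : ℤ, ‖(lz Om f).coeff n‖ ≤ C := by
  refine ⟨f.coeff.support.sup Int.natAbs, ∑ n ∈ f.coeff.support, ‖f.coeff n‖,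
    Finset.sum_nonneg fun _ _ => norm_nonneg _, fun n hn => ?_, fun n => ?_⟩
  · rw [lz_coeff]
    by_contra h
    have h1 := Finset.le_sup (f := Int.natAbs) (Finsupp.mem_support_iff.2 h)
    omega
  · rw [lz_coeff]
    by_cases hn : n ∈ f.coeff.support
    · exact Finset.single_le_sum (f := fun n => ‖f.coeff n‖) (fun _ _ => norm_nonneg _) hn
    · rw [Finsupp.notMem_support_iff.1 hn, norm_zero]
      exact Finset.sum_nonneg fun _ _ => norm_nonneg _

/-- Finitely many Laurent polynomials: bound for all radii at most `1`. -/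
private theorem W6_all {ι : Type} [Finite ι] (f : ι → Lam Om) : ∃ (c : ℕ) (C : ℝ), 1 ≤ C ∧
    (∀ i, ∀ n : ℤ, n < -(c : ℤ) → (lz Om (f i)).coeff n = 0) ∧
    ∀ i, ∀ r : ℝ, 0 < r → r ≤ 1 → LB r (lz Om (f i)) (C * r⁻¹ ^ c) := by
  cases nonempty_fintype ι
  choose c C h0 h1 h2 using fun i => W6_one (f i)
  have hc : ∀ i, c i ≤ ∑ j, c j := fun i =>
    Finset.single_le_sum (f := c) (fun _ _ => Nat.zero_le _) (Finset.mem_univ i)
  have hC : ∀ i, C i ≤ 1 + ∑ j, C j := fun i => by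
    have := Finset.single_le_sum (f := C) (fun j _ => h0 j) (Finset.mem_univ i)
    linarith
  have hz : ∀ i, ∀ n : ℤ, n < -((∑ j, c j : ℕ) : ℤ) → (lz Om (f i)).coeff n = 0 := by
    intro i n hn
    refine h1 i n ?_
    have := hc i
    omega
  refine ⟨∑ j, c j, 1 + ∑ j, C j, ?_, hz, fun i r hr hr1 n => ?_⟩
  · have := Finset.sum_nonneg (s := Finset.univ) fun j (_ : j ∈ Finset.univ) => h0 j
    linarith
  · have hnn : 0 ≤ 1 + ∑ j, C j := (h0 i).trans (hC i)
    by_cases hn : n < -((∑ j, c j : ℕ) : ℤ)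
    · rw [hz i n hn, norm_zero, zero_mul]
      exact mul_nonneg hnn (pow_nonneg (inv_nonneg.2 hr.le) _)
    · refine mul_le_mul ((h2 i n).trans (hC i)) ?_ (zpow_nonneg hr.le _) hnn
      rw [inv_pow, ← zpow_natCast, ← zpow_neg]
      exact zpow_le_zpow_right_of_le_one₀ hr hr1 (not_lt.1 hn)

private theorem W6_ord_mul {a b : LaurentSeries Om} {N M : ℤ} (ha : ∀ n, n < N → a.coeff n = 0)
    (hb : ∀ n, n < M → b.coeff n = 0) (n : ℤ) (hn : n < N + M) : (a * b).coeff n = 0 := by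
  rw [HahnSeries.coeff_mul]
  refine Finset.sum_eq_zero fun kl hkl => ?_
  rw [Finset.mem_antidiagonal] at hkl
  obtain ⟨h1, h2, h3⟩ := hkl
  exfalso
  have hk : N ≤ kl.1 := by
    by_contra hc
    exact h1 (ha kl.1 (by omega))
  have hl : M ≤ kl.2 := by
    by_contra hc
    exact h2 (hb kl.2 (by omega))
  omega

section
variable {S : SC (Lam Om) G}

/-- No coefficients below `N`. -/
private def W6_od (N : ℤ) (b : Al (S.map (lz Om))) : Prop := ∀ l, ∀ n, n < N → (b l).coeff n = 0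

/-- All coordinates are bounded by `C`. -/
private def W6_cn (r C : ℝ) (b : Al (S.map (lz Om))) : Prop := ∀ l, LB r (b l) C

private theorem W6_od_mul {c : ℕ}
    (hc : ∀ i j l, ∀ n : ℤ, n < -(c : ℤ) → (lz Om (S.μ i j l)).coeff n = 0) {N M : ℤ}
    {a b : Al (S.map (lz Om))} (ha : W6_od N a) (hb : W6_od M b) : W6_od (N + M - c) (a * b) := by
  intro l n hn
  rw [Al.mul_apply, HahnSeries.coeff_sum]
  refine Finset.sum_eq_zero fun i _ => ?_
  rw [HahnSeries.coeff_sum]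
  refine Finset.sum_eq_zero fun j _ => ?_
  exact W6_ord_mul (W6_ord_mul (ha i) (hb j)) (hc i j l) n (by omega)

private theorem W6_od_pow {c : ℕ}
    (hc : ∀ i j l, ∀ n : ℤ, n < -(c : ℤ) → (lz Om (S.μ i j l)).coeff n = 0)
    {a : Al (S.map (lz Om))} (ha : W6_od (c + 1) a) (m : ℕ) :
    W6_od (c + m + 1) (a ^ (m + 1)) := by
  induction m with
  | zero =>
    rw [zero_add, pow_one]
    simpa using ha
  | succ m ih =>
    rw [pow_succ]
    have h := W6_od_mul hc ih ha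
    have h1 : ((c : ℤ) + m + 1 + (c + 1) - c) = c + (m + 1 : ℕ) + 1 := by push_cast; ring
    rwa [h1] at h

private theorem W6_cn_mul {r M : ℝ} (hr : 0 < r) (hM : 0 ≤ M)
    (hc : ∀ i j l, LB r (lz Om (S.μ i j l)) M) {A B : ℝ} (hA : 0 ≤ A) (hB : 0 ≤ B)
    {a b : Al (S.map (lz Om))} (ha : W6_cn r A a) (hb : W6_cn r B b) :
    W6_cn r (A * B * M) (a * b) := by
  intro l
  rw [Al.mul_apply]
  have h0 : 0 ≤ A * B * M := mul_nonneg (mul_nonneg hA hB) hM
  refine W6_LB_sum hr h0 _ _ fun i _ => W6_LB_sum hr h0 _ _ fun j _ => ?_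
  exact LB.mul hr (LB.mul hr (ha i) (hb j) hA hB) (hc i j l) (mul_nonneg hA hB) hM

private theorem W6_cn_pow {r M : ℝ} (hr : 0 < r) (hM : 0 ≤ M)
    (hc : ∀ i j l, LB r (lz Om (S.μ i j l)) M) {A : ℝ} (hA : 0 ≤ A) (hAM : A * M ≤ 1)
    {a : Al (S.map (lz Om))} (ha : W6_cn r A a) (m : ℕ) : W6_cn r A (a ^ (m + 1)) := by
  induction m with
  | zero =>
    rw [zero_add, pow_one]
    exact ha
  | succ m ih =>
    rw [pow_succ]
    have h := W6_cn_mul hr hM hc hA hA ih ha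
    intro l n
    refine (h l n).trans ?_
    calc A * A * M = A * (A * M) := by ring
      _ ≤ A * 1 := mul_le_mul_of_nonneg_left hAM hA
      _ = A := mul_one A

end

/-- Telescoping. -/
private theorem W6_tel {R : Type} [CommRing R] [CharP R p] (d : R) (K : ℕ) :
    d = d ^ (p ^ K) - ∑ k ∈ Finset.range K, (d ^ p - d) ^ (p ^ k) := by
  induction K with
  | zero => simp
  | succ K ih =>
    rw [Finset.sum_range_succ, sub_pow_char_pow, ← pow_mul, ← pow_succ']
    conv_lhs => rw [ih]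
    ring

theorem frob_conv (S : SC (Lam Om) G) (a : Al (S.map (lz Om))) (h : ∀ l, Cv ((a ^ p - a) l)) (l : G) :
    Cv (a l) := by
  have hp : p.Prime := Fact.out
  have : CharP (Al (S.map (lz Om))) p := charP_Al _ p
  -- constants of the structure constants
  obtain ⟨c, C2, hC2, hod, hLB⟩ := W6_all (fun i : G × G × G => S.μ i.1 i.2.1 i.2.2)
  have hod' : ∀ i j l, ∀ n : ℤ, n < -(c : ℤ) → (lz Om (S.μ i j l)).coeff n = 0 :=
    fun i j l => hod (i, j, l)
  have hLB' : ∀ i j l, ∀ r : ℝ, 0 < r → r ≤ 1 → LB r (lz Om (S.μ i j l)) (C2 * r⁻¹ ^ c) :=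
    fun i j l => hLB (i, j, l)
  -- truncation
  choose q hq using fun l => (cre_lz (Om := Om) one_pos).tr (a l) ((c : ℤ) + 1)
  let a1 : Al S := q
  let d : Al (S.map (lz Om)) := a - Al.mapA S (lz Om) a1
  have hd : W6_od ((c : ℤ) + 1) d := by
    intro l n hn
    change ((a - Al.mapA S (lz Om) a1) l).coeff n = 0
    rw [Al.sub_apply, Al.mapA_apply, HahnSeries.coeff_sub, hq, if_pos hn, sub_self]
  let z : Al (S.map (lz Om)) := d ^ p - d
  have hz1 : z = (a ^ p - a) + Al.mapA S (lz Om) (-(a1 ^ p - a1)) := by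
    change (a - Al.mapA S (lz Om) a1) ^ p - (a - Al.mapA S (lz Om) a1) = _
    rw [sub_pow_char, map_neg, map_sub, map_pow]
    ring
  have hz2 : ∀ l, Cv (z l) := by
    intro l
    rw [hz1, Al.add_apply, Al.mapA_apply]
    exact Cv_add (h l) (Cv_lz _)
  have hz3 : W6_od ((c : ℤ) + 1) z := by
    intro l n hn
    change ((d ^ p - d) l).coeff n = 0
    rw [Al.sub_apply, HahnSeries.coeff_sub, hd l n hn, sub_zero]
    obtain ⟨m, hm⟩ : ∃ m, p = m + 1 := ⟨p - 1, by have := hp.pos; omega⟩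
    rw [hm]
    exact W6_od_pow hod' hd m l n (by omega)
  obtain ⟨ρ, hρ, h1⟩ := exists_common (fun l => z l) hz2
  obtain ⟨C1, hC1, h2⟩ := h1 (min ρ 1) (lt_min hρ one_pos) (min_le_left _ _)
  obtain ⟨s, hs, hs1, h3⟩ : ∃ s : ℝ, 0 < s ∧ s ≤ 1 ∧ ∀ l, LB s (z l) C1 :=
    ⟨min ρ 1, lt_min hρ one_pos, min_le_right _ _, h2⟩
  -- the radius
  let D : ℝ := C2 * C1 * s⁻¹ ^ (c + 1)
  have hD : 0 ≤ D := mul_nonneg (mul_nonneg (zero_le_one.trans hC2) hC1)
    (pow_nonneg (inv_nonneg.2 hs.le) _)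
  obtain ⟨r, hr, hrs, hrD⟩ : ∃ r : ℝ, 0 < r ∧ r ≤ s ∧ D * r ≤ 1 := by
    refine ⟨min s (D + 1)⁻¹, lt_min hs (inv_pos.2 (by linarith)), min_le_left _ _, ?_⟩
    calc D * min s (D + 1)⁻¹ ≤ D * (D + 1)⁻¹ := mul_le_mul_of_nonneg_left (min_le_right _ _) hD
      _ ≤ 1 := by
        rw [← div_eq_mul_inv, div_le_one (by linarith)]
        linarith
  let A : ℝ := C1 * (r / s) ^ (c + 1)
  have hA : 0 ≤ A := mul_nonneg hC1 (pow_nonneg (div_nonneg hr.le hs.le) _)
  have hAM : A * (C2 * r⁻¹ ^ c) ≤ 1 := by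
    have h4 : A * (C2 * r⁻¹ ^ c) = D * r := by
      change C1 * (r / s) ^ (c + 1) * (C2 * r⁻¹ ^ c) = C2 * C1 * s⁻¹ ^ (c + 1) * r
      have h5 : r ^ c * r⁻¹ ^ c = 1 := by rw [← mul_pow, mul_inv_cancel₀ hr.ne', one_pow]
      rw [div_eq_mul_inv, mul_pow, pow_succ r c]
      linear_combination (C1 * C2 * r * s⁻¹ ^ (c + 1)) * h5
    rw [h4]
    exact hrD
  have hzA : W6_cn r A z := by
    intro l n
    by_cases hn : n < (c : ℤ) + 1
    · rw [hz3 l n hn, norm_zero, zero_mul]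
      exact hA
    · have h4 : r ^ n = s ^ n * (r / s) ^ n := by
        rw [← mul_zpow, mul_div_cancel₀ _ hs.ne']
      rw [h4, ← mul_assoc]
      refine mul_le_mul (h3 l n) ?_ (zpow_nonneg (div_nonneg hr.le hs.le) _) hC1
      rw [← zpow_natCast]
      refine zpow_le_zpow_right_of_le_one₀ (div_pos hr hs) ((div_le_one hs).2 hrs) ?_
      push_cast
      omega
  have hM : 0 ≤ C2 * r⁻¹ ^ c := mul_nonneg (zero_le_one.trans hC2) (pow_nonneg (inv_nonneg.2 hr.le) _)
  have hzp : ∀ m, W6_cn r A (z ^ (m + 1)) :=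
    W6_cn_pow hr hM (fun i j l => hLB' i j l r hr (hrs.trans hs1)) hA hAM hzA
  have hdA : LB r (d l) A := by
    intro n
    obtain ⟨K, hK⟩ : ∃ K : ℕ, n < (p ^ K : ℕ) := by
      refine ⟨n.toNat, ?_⟩
      have h5 : n.toNat < p ^ n.toNat := Nat.lt_pow_self hp.one_lt
      omega
    have h6 : (d l).coeff n = -((∑ k ∈ Finset.range K, z ^ (p ^ k)) l).coeff n := by
      conv_lhs => rw [W6_tel p d K]
      rw [Al.sub_apply, HahnSeries.coeff_sub]
      have h7 : ((d ^ (p ^ K)) l).coeff n = 0 := by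
        obtain ⟨m, hm⟩ : ∃ m, p ^ K = m + 1 :=
          ⟨p ^ K - 1, by have := Nat.pow_pos (n := K) hp.pos; omega⟩
        rw [hm] at hK ⊢
        exact W6_od_pow hod' hd m l n (by push_cast at hK; omega)
      rw [h7, zero_sub]
    rw [h6, norm_neg]
    have h8 : LB r ((∑ k ∈ Finset.range K, z ^ (p ^ k)) l) A := by
      rw [Al.sum_apply]
      refine W6_LB_sum hr hA _ _ fun k _ => ?_
      obtain ⟨m, hm⟩ : ∃ m, p ^ k = m + 1 :=
        ⟨p ^ k - 1, by have := Nat.pow_pos (n := k) hp.pos; omega⟩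
      rw [hm]
      exact hzp m l
    exact h8 n
  have h9 : a l = lz Om (q l) + d l := by
    change a l = lz Om (q l) + (a - Al.mapA S (lz Om) a1) l
    rw [Al.sub_apply, Al.mapA_apply]
    change a l = lz Om (q l) + (a l - lz Om (q l))
    ring
  rw [h9]
  exact Cv_add (Cv_lz _) ⟨r, hr, A, hdA⟩

end

end Pool.Agent.MP_1c8e06_ag.CY
end

section

set_option autoImplicit false

open Polynomial
open scoped Classical

namespace Pool.Agent.MP_1c8e06_ag.CY

open Pool.Agent.MP_1c8e06_ag.AJ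

noncomputable section

/-!
# TASK W8: the polynomials `PK`

`PK p t k = ∑ i ∈ range k, (C t * X) ^ (p ^ i)`.
* `yy_pow_PK`: induction on `k`: `y ^ (p^(k+1)) = (y ^ (p^k)) ^ p = (y + ze (PK k)) ^ p = y ^ p + ze (PK k) ^ p
  = y + ze (C t * X) + ze (PK k ^ p)` (`AI.yy_pow_eq`, `add_pow_char`), and `C t * X + PK k ^ p = PK (k+1)`
  (`sum_pow_char`, `Finset.sum_range_succ'`).
* `LB_PK`: `(zinv P).coeff n = P.coeff (-n)` (`AI.zinv_coeff`); the coefficients of `PK` are `t ^ (p ^ i)` at `p ^ i`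
  (`‖t‖ ^ (p^i) * r ^ (-(p^i)) = (‖t‖/r) ^ (p^i) ≤ (‖t‖/r) ^ (p^(k-1))` as `‖t‖/r ≥ 1`, `i ≤ k-1`), or: each summand
  `zinv (C t * X) ^ (p^i)` satisfies `LB r _ ((‖t‖/r) ^ (p^i))` by `LB.mul`; sum: `LB.add`; powers: `LB.mul`.
* `psS_PK_lt`, `psS_PK`: `q := p ^ k`, `q' := p ^ k - p ^ (k-1) = (p-1) p^(k-1)`.  `PK k ^ l` is a polynomial of degree
  `≤ l p^(k-1)`, its coefficient at `l p^(k-1)` is `(t ^ (p^(k-1))) ^ l` (`natDegree PK ≤ p^(k-1)`, the coefficient at
  `p^(k-1)` is `t^(p^(k-1))`; `Polynomial.coeff_pow_mul_natDegree`-like or `coeff_mul_degree_add_degree` for upper bounds: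
  `Polynomial.coeff_pow_of_natDegree_le`).  The coefficient of `single q' 1 * zinv (PK^l)` at `n` is
  `(PK ^ l).coeff (q' - n)` if `n ≤ q'` and `0` otherwise.  If `q ∣ n` and it is nonzero then `n ≤ q' < q` and
  `q' - n ≤ l p^(k-1) ≤ q'`, so `n ≥ 0`, so `n = 0` and `q' ≤ l p^(k-1)`, i.e. `l ≥ p - 1`.
-/

variable {Om : Type} [NormedField Om] [CompleteSpace Om] [IsUltrametricDist Om] [IsAlgClosed Om]
  (p : ℕ) [Fact p.Prime] [CharP Om p] (t : Om)

/-- The polynomial `∑ (t X) ^ (p ^ i)`. -/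
def PK {Om : Type} [NormedField Om] (p : ℕ) (t : Om) (k : ℕ) : Om[X] :=
  ∑ i ∈ Finset.range k, (C t * X) ^ (p ^ i)

theorem yy_pow_PK (k : ℕ) :
    AI.yy p (C t * X : Om[X]) ^ (p ^ k) = AI.yy p (C t * X : Om[X]) + AI.ze p (C t * X) (PK p t k) := by
  have hch : CharP (AI.EE p (C t * X : Om[X])) p :=
    charP_of_injective_ringHom
      (f := (AI.ze p (C t * X : Om[X])).comp (Polynomial.C : Om →+* Om[X]))
      (AI.ze_injective.comp Polynomial.C_injective) p
  induction k with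
  | zero => simp [PK]
  | succ k ih =>
    have h1 : PK p t (k + 1) = C t * X + PK p t k ^ p := by
      unfold PK
      rw [Finset.sum_range_succ', pow_zero, pow_one, add_comm, sum_pow_char p]
      congr 1
      refine Finset.sum_congr rfl fun i _ => ?_
      rw [← pow_mul, pow_succ]
    rw [pow_succ p k, pow_mul, ih, add_pow_char _ _ p, AI.yy_pow_eq, h1, map_add, map_pow, add_assoc]

private theorem LB_mono {r C D : ℝ} {a : LaurentSeries Om} (h : C ≤ D) (ha : LB r a C) :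
    LB r a D := fun n => (ha n).trans h

private theorem LB_one (r : ℝ) : LB r (1 : LaurentSeries Om) 1 := by
  intro n
  rw [HahnSeries.coeff_one]
  split_ifs with h
  · rw [h, norm_one, zpow_zero, one_mul]
  · rw [norm_zero, zero_mul]
    exact zero_le_one

private theorem LB_zero (r : ℝ) {C : ℝ} (hC : 0 ≤ C) : LB r (0 : LaurentSeries Om) C := by
  intro n
  rw [HahnSeries.coeff_zero, norm_zero, zero_mul]
  exact hC

private theorem LB_pow {r C : ℝ} (hr : 0 < r) (hC : 0 ≤ C) {a : LaurentSeries Om} (ha : LB r a C)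
    (m : ℕ) : LB r (a ^ m) (C ^ m) := by
  induction m with
  | zero =>
    rw [pow_zero, pow_zero]
    exact LB_one r
  | succ m ih =>
    rw [pow_succ, pow_succ]
    exact LB.mul hr ih ha (pow_nonneg hC m) hC

private theorem LB_sum {r C : ℝ} (hr : 0 < r) (hC : 0 ≤ C) {ι : Type} (s : Finset ι)
    (f : ι → LaurentSeries Om) (h : ∀ i ∈ s, LB r (f i) C) : LB r (∑ i ∈ s, f i) C := by
  induction s using Finset.induction_on with
  | empty =>
    rw [Finset.sum_empty]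
    exact LB_zero r hC
  | insert a s ha ih =>
    rw [Finset.sum_insert ha]
    exact LB.add hr (h a (Finset.mem_insert_self a s))
      (ih fun i hi => h i (Finset.mem_insert_of_mem hi))

private theorem LB_F {r : ℝ} (hr : 0 < r) : LB r (AI.zinv Om (C t * X)) (‖t‖ / r) := by
  intro n
  have h0 : 0 ≤ ‖t‖ / r := div_nonneg (norm_nonneg _) hr.le
  rw [AI.zinv_coeff]
  split_ifs with hn
  · rw [coeff_C_mul, coeff_X]
    split_ifs with h1
    · have h2 : n = -1 := by omega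
      rw [h2, mul_one, zpow_neg_one, ← div_eq_mul_inv]
    · rw [mul_zero, norm_zero, zero_mul]
      exact h0
  · rw [norm_zero, zero_mul]
    exact h0

theorem LB_PK {r : ℝ} (hr : 0 < r) (hrt : r ≤ ‖t‖) (k : ℕ) (hk : 1 ≤ k) (l : ℕ) :
    LB r (AI.zinv Om (PK p t k) ^ l) ((‖t‖ / r) ^ (p ^ (k - 1) * l)) := by
  have h0 : 0 ≤ ‖t‖ / r := div_nonneg (norm_nonneg _) hr.le
  have h1 : 1 ≤ ‖t‖ / r := (one_le_div hr).2 hrt
  rw [pow_mul]
  refine LB_pow hr (pow_nonneg h0 _) ?_ l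
  unfold PK
  rw [map_sum]
  refine LB_sum hr (pow_nonneg h0 _) _ _ fun i hi => ?_
  rw [map_pow]
  have hi' := Finset.mem_range.1 hi
  refine LB_mono (pow_le_pow_right₀ h1
    (Nat.pow_le_pow_right (Fact.out : p.Prime).pos (by omega : i ≤ k - 1))) ?_
  exact LB_pow hr h0 (LB_F t hr) _

private theorem natDegree_PK_le (k : ℕ) : (PK p t k).natDegree ≤ p ^ (k - 1) := by
  unfold PK
  refine natDegree_sum_le_of_forall_le _ _ fun i hi => ?_
  have hi' := Finset.mem_range.1 hi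
  rw [mul_pow, ← C_pow]
  exact (natDegree_C_mul_X_pow_le _ _).trans
    (Nat.pow_le_pow_right (Fact.out : p.Prime).pos (by omega : i ≤ k - 1))

private theorem coeff_PK (k : ℕ) (hk : 1 ≤ k) : (PK p t k).coeff (p ^ (k - 1)) = t ^ (p ^ (k - 1)) := by
  unfold PK
  rw [finsetSum_coeff, Finset.sum_eq_single (k - 1)]
  · rw [mul_pow, ← C_pow, coeff_C_mul_X_pow, if_pos rfl]
  · intro i _ hik
    rw [mul_pow, ← C_pow, coeff_C_mul_X_pow, if_neg]
    intro h
    exact hik (Nat.pow_right_injective (Fact.out : p.Prime).two_le h).symm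
  · intro h
    exact absurd (Finset.mem_range.2 (by omega)) h

private theorem qq (k : ℕ) (hk : 1 ≤ k) : p ^ k - p ^ (k - 1) = (p - 1) * p ^ (k - 1) := by
  obtain ⟨m, rfl⟩ : ∃ m, k = m + 1 := ⟨k - 1, by omega⟩
  rw [Nat.add_sub_cancel, pow_succ, Nat.sub_mul, one_mul, mul_comm]

private theorem coeff_main (k l : ℕ) (n : ℤ) :
    (HahnSeries.single ((p ^ k - p ^ (k - 1) : ℕ) : ℤ) (1 : Om) *
      AI.zinv Om (PK p t k) ^ l).coeff n =
    if n ≤ ((p ^ k - p ^ (k - 1) : ℕ) : ℤ) then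
      (PK p t k ^ l).coeff (((p ^ k - p ^ (k - 1) : ℕ) : ℤ) - n).toNat else 0 := by
  have h := HahnSeries.coeff_single_mul_add (r := (1 : Om)) (x := AI.zinv Om (PK p t k ^ l))
    (a := n - ((p ^ k - p ^ (k - 1) : ℕ) : ℤ)) (b := ((p ^ k - p ^ (k - 1) : ℕ) : ℤ))
  rw [sub_add_cancel, one_mul, AI.zinv_coeff, map_pow] at h
  rw [h, neg_sub]
  congr 1
  exact propext sub_nonpos

private theorem coeff_zero_of (k : ℕ) (hk : 1 ≤ k) (l : ℕ) (hl : l ≤ p - 1) (n : ℤ)
    (hn : ((p ^ k : ℕ) : ℤ) ∣ n) (h0 : n ≠ 0 ∨ l < p - 1) :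
    (HahnSeries.single ((p ^ k - p ^ (k - 1) : ℕ) : ℤ) (1 : Om) *
      AI.zinv Om (PK p t k) ^ l).coeff n = 0 := by
  rw [coeff_main]
  have hp := (Fact.out : p.Prime).pos
  have hd : 0 < p ^ (k - 1) := Nat.pow_pos hp
  have hq : p ^ k - p ^ (k - 1) < p ^ k := Nat.sub_lt (Nat.pow_pos hp) hd
  split_ifs with h1
  · refine coeff_eq_zero_of_natDegree_lt ?_
    have h2 : (PK p t k ^ l).natDegree ≤ l * p ^ (k - 1) :=
      natDegree_pow_le.trans (Nat.mul_le_mul_left l (natDegree_PK_le p t k))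
    refine h2.trans_lt ?_
    have h3 : l * p ^ (k - 1) ≤ p ^ k - p ^ (k - 1) := by
      rw [qq p k hk]
      exact Nat.mul_le_mul_right _ hl
    have h4 : n ≤ 0 := by
      obtain ⟨c, rfl⟩ := hn
      have hq' : ((p ^ k - p ^ (k - 1) : ℕ) : ℤ) < ((p ^ k : ℕ) : ℤ) := by exact_mod_cast hq
      have h5 : c < 1 := by
        by_contra h6
        have h7 : ((p ^ k : ℕ) : ℤ) * 1 ≤ ((p ^ k : ℕ) : ℤ) * c :=
          mul_le_mul_of_nonneg_left (not_lt.1 h6) (Int.natCast_nonneg _)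
        rw [mul_one] at h7
        exact absurd (h7.trans h1) (not_le.2 hq')
      exact mul_nonpos_of_nonneg_of_nonpos (Int.natCast_nonneg _) (by omega)
    rcases h0 with h0 | h0
    · omega
    · have h5 : l * p ^ (k - 1) < p ^ k - p ^ (k - 1) := by
        rw [qq p k hk]
        exact Nat.mul_lt_mul_of_pos_right h0 hd
      omega
  · rfl

theorem psS_PK_lt (k : ℕ) (hk : 1 ≤ k) (l : ℕ) (hl : l < p - 1) :
    psS Om (p ^ k) (HahnSeries.single ((p ^ k - p ^ (k - 1) : ℕ) : ℤ) (1 : Om) *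
      AI.zinv Om (PK p t k) ^ l) = 0 := by
  refine HahnSeries.ext (funext fun n => ?_)
  rw [psS_coeff, HahnSeries.coeff_zero]
  split_ifs with hn
  · exact coeff_zero_of p t k hk l hl.le n hn (Or.inr hl)
  · rfl

theorem psS_PK (k : ℕ) (hk : 1 ≤ k) :
    psS Om (p ^ k) (HahnSeries.single ((p ^ k - p ^ (k - 1) : ℕ) : ℤ) (1 : Om) *
      AI.zinv Om (PK p t k) ^ (p - 1)) = HahnSeries.C (t ^ (p ^ k - p ^ (k - 1))) := by
  refine HahnSeries.ext (funext fun n => ?_)
  rw [psS_coeff, HahnSeries.C_apply]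
  by_cases h0 : n = 0
  · rw [h0, HahnSeries.coeff_single_same, if_pos (dvd_zero _), coeff_main,
      if_pos (Int.natCast_nonneg _), sub_zero, Int.toNat_natCast, qq p k hk,
      coeff_pow_of_natDegree_le (natDegree_PK_le p t k), coeff_PK p t k hk, ← pow_mul, mul_comm]
  · rw [HahnSeries.coeff_single_of_ne h0]
    split_ifs with hn
    · exact coeff_zero_of p t k hk (p - 1) le_rfl n hn (Or.inl h0)
    · rfl

end

end Pool.Agent.MP_1c8e06_ag.CY
end

section

set_option autoImplicit false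

open Polynomial
open scoped Classical

namespace Pool.Agent.MP_1c8e06_ag.CY

open Pool.Agent.MP_1c8e06_ag.AJ

noncomputable section

/-!
# TASK W3: the estimate at a tame radius

Black boxes: `W0`, `W1`, `W2`, and `O3.lz_iso` (`LB r (lz Om q) C ↔ (gp 0 r).v (jF Om q) ≤ C` for `0 ≤ C`;
`LB r a C : ∀ n, ‖a.coeff n‖ * r ^ n ≤ C`, `lz_coeff`).
`q := p ^ k`, `Ψ := PsiA S (psL Om q) q`.  `CharP (Lam Om) p` holds (`LaurentPolynomial.C` is injective:
`charP_of_injective_ringHom`, make it a local instance), and `hψ := psL_pow_mul`.  `w := W.w`, `w (cst c) = (gp 0 r).v (jF c)`.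
`tame_tr`: `cst (tA y) = ∑ x, act x y` (`cst_tA`), so by `W.add` (finite sums) `w (cst (tA y)) ≤ M`; `lz_iso` (`0 ≤ M` by
`W.nonneg`).
`tame_psi`: let `f : (Al S)[Y] := ∏_{h ≠ 1} (Y - C (act h b))`, `f_i` its coefficients (`i < Fintype.card G`).
(1) `w (act g f_i) ≤ 1` for all `g`, `i`: by induction over a product of factors `Y - C c` with `w (act g c) ≤ 1`
(`act g (act h b) = act (g h) b`).
(2) for all `g`: `∑ i, b ^ i * act g f_i = (f.map (act g)).eval b = ∏_{h ≠ 1} (b - act (g h) b)`: this is `0` for `g ≠ 1`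
(the factor `h = g⁻¹`), and `δ := ∏_{h ≠ 1} (b - act h b)` for `g = 1`; `w (act g δ) = ∏ w (act g b - act (g h) b) = 1`.
(3) `a * δ ^ q = ∑ i, b ^ (i q) * cst (tA (a * f_i ^ q))`: raise (2) to the power `q` (characteristic `p`,
`sum_pow_char_pow`, `charP_Al`), multiply by `act g a`, sum over `g`.
(4) apply `Ψ` (`PsiA_pow_mul` with `c = δ`, resp. `c = b ^ i`, and `PsiA_cst`):
`δ ^ q * Ψ a = ∑ i, b ^ (i q) * cst (psL Om q (tA (a * f_i ^ q)))`.
(5) apply `act g` and `w`: the left side is `w (act g (Ψ a))` (`w (act g δ) = 1`); each term on the right has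
`w (act g b) ^ .. ≤ 1` and `w (cst (psL ..)) ≤ M` by `lz_iso` in both directions and `psL_coeff`, `lz_coeff`
(the coefficients of `psL f` are `0` or those of `f`), `tame_tr` for `y = a * f_i ^ q`:
`w (act h y) = w (act h a) * w (act h f_i) ^ q ≤ M`.
`tame_Bnd`: coordinates: `(Ψ a) l = tA (Ψ a * bs S l)` (`coord`).  Let `M1 ≥ 1` be a bound for all
`w (act g (bs S l))` and all `w (act g (e l))`.  For `a = cst (T m) * e i`: `w (act g a) ≤ r ^ m * M1`
(`w (cst (T m)) = (gp 0 r).v (jF (T m)) ≤ r ^ m` by `lz_iso`), so `w (act g (Ψ a * bs S l)) ≤ r ^ m * M1 * M1`; `tame_tr`.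
`C := M1 * M1`.
-/

variable {Om : Type} [NormedField Om] [CompleteSpace Om] [IsUltrametricDist Om] [IsAlgClosed Om]
  {G : Type} [Group G] [Fintype G] (p : ℕ) [Fact p.Prime]
  [CharP Om p] {S : SC (Lam Om) G} {r : ℝ} (hr : 0 < r) (W : MS S fun f => (gp 0 r).v (jF Om f))

private theorem W3_charP : CharP (Lam Om) p :=
  charP_of_injective_ringHom (f := (LaurentPolynomial.C : Om →+* Lam Om))
    (RingHom.injective _) p

section
variable {B : Type} [CommRing B] {S' : SC B G} {v : B → ℝ} (U : MS S' v)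

private theorem W3_zero (hv : v 0 = 0) : U.w 0 = 0 := by
  have h := U.cst 0
  rwa [map_zero, hv] at h

private theorem W3_neg1 : U.w (-1) = 1 := by
  have h := U.mul (-1) (-1)
  rw [neg_mul_neg, one_mul, U.one] at h
  have h0 := U.nonneg (-1)
  nlinarith

private theorem W3_neg (a : Al S') : U.w (-a) = U.w a := by
  rw [← neg_one_mul, U.mul, W3_neg1, one_mul]

private theorem W3_sub (a b : Al S') : U.w (a - b) ≤ max (U.w a) (U.w b) := by
  rw [sub_eq_add_neg]
  refine (U.add _ _).trans ?_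
  rw [W3_neg]

private theorem W3_pow (a : Al S') (n : ℕ) : U.w (a ^ n) = U.w a ^ n := by
  induction n with
  | zero => rw [pow_zero, pow_zero, U.one]
  | succ n ih => rw [pow_succ, pow_succ, U.mul, ih]

private theorem W3_sum (hv : v 0 = 0) {ι : Type} (s : Finset ι) (f : ι → Al S') {M : ℝ} (hM0 : 0 ≤ M)
    (h : ∀ i ∈ s, U.w (f i) ≤ M) : U.w (∑ i ∈ s, f i) ≤ M := by
  induction s using Finset.induction_on with
  | empty => rw [Finset.sum_empty, W3_zero U hv]; exact hM0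
  | insert a s ha ih =>
    rw [Finset.sum_insert ha]
    exact (U.add _ _).trans (max_le (h a (Finset.mem_insert_self a s))
      (ih fun i hi => h i (Finset.mem_insert_of_mem hi)))

private theorem W3_prod {ι : Type} (s : Finset ι) (f : ι → Al S')
    (h : ∀ i ∈ s, U.w (f i) = 1) : U.w (∏ i ∈ s, f i) = 1 := by
  induction s using Finset.induction_on with
  | empty => rw [Finset.prod_empty, U.one]
  | insert a s ha ih =>
    rw [Finset.prod_insert ha, U.mul, h a (Finset.mem_insert_self a s),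
      ih fun i hi => h i (Finset.mem_insert_of_mem hi), one_mul]

private theorem W3_coef (hv : v 0 = 0) (b : Al S') (hb : ∀ g, U.w (Al.act S' g b) ≤ 1) (s : Finset G)
    (g : G) (i : ℕ) :
    U.w (Al.act S' g ((∏ h ∈ s, (X - C (Al.act S' h b) : (Al S')[X])).coeff i)) ≤ 1 := by
  induction s using Finset.induction_on generalizing i with
  | empty =>
    rw [Finset.prod_empty, coeff_one]
    split_ifs with h
    · rw [map_one, U.one]
    · rw [map_zero, W3_zero U hv]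
      exact zero_le_one
  | insert a s ha ih =>
    rw [Finset.prod_insert ha, mul_comm]
    have h1 : ∀ j, U.w (Al.act S' g ((∏ h ∈ s, (X - C (Al.act S' h b) : (Al S')[X])).coeff j *
        Al.act S' a b)) ≤ 1 := by
      intro j
      rw [map_mul, U.mul, ← Al.act_mul_apply]
      exact mul_le_one₀ (ih j) (U.nonneg _) (hb _)
    cases i with
    | zero =>
      rw [mul_coeff_zero, coeff_sub, coeff_X_zero, coeff_C_zero, zero_sub, mul_neg, map_neg, W3_neg]
      exact h1 0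
    | succ j =>
      rw [coeff_mul_X_sub_C, map_sub]
      exact (W3_sub U _ _).trans (max_le (ih j) (h1 (j + 1)))

end

private theorem W3_v0 : (fun f => (gp (0 : Om) r).v (jF Om f)) 0 = 0 := by
  change (gp (0 : Om) r).v (jF Om 0) = 0
  rw [map_zero, map_zero]

include hr in
theorem tame_tr (y : Al S) (M : ℝ) (hM : ∀ g, W.w (Al.act S g y) ≤ M) : LB r (lz Om (tA S y)) M := by
  have hM0 : 0 ≤ M := (W.nonneg _).trans (hM 1)
  rw [lz_iso hr _ hM0]
  have h := W.cst (tA S y)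
  change W.w (Al.cst S (tA S y)) = (gp (0 : Om) r).v (jF Om (tA S y)) at h
  rw [← h, cst_tA]
  exact W3_sum W W3_v0 _ _ hM0 fun g _ => hM g

private theorem W3_LB_psL (q : ℕ) (f : Lam Om) (M : ℝ) (hM0 : 0 ≤ M) (h : LB r (lz Om f) M) :
    LB r (lz Om (psL Om q f)) M := by
  intro n
  rw [lz_psL, psS_coeff]
  split_ifs with h1
  · exact h n
  · rw [norm_zero, zero_mul]
    exact hM0

include hr in
theorem tame_psi (b : Al S) (hb : Sepb W b) (k : ℕ) (a : Al S) (M : ℝ)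
    (hM : ∀ g, W.w (Al.act S g a) ≤ M) (g : G) :
    W.w (Al.act S g (PsiA S (psL Om (p ^ k)) (p ^ k) a)) ≤ M := by
  have hM0 : 0 ≤ M := (W.nonneg _).trans (hM 1)
  have hcp : CharP (Lam Om) p := W3_charP p
  have hcA : CharP (Al S) p := charP_Al S p
  have hψ : ∀ c b : Lam Om, psL Om (p ^ k) (c ^ (p ^ k) * b) = c ^ (p ^ k) * psL Om (p ^ k) b :=
    fun c b => psL_pow_mul Om p k c b
  set q := p ^ k with hq
  have hq0 : q ≠ 0 := pow_ne_zero _ (Fact.out : p.Prime).ne_zero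
  set f : (Al S)[X] := ∏ h ∈ Finset.univ.erase (1 : G), (X - C (Al.act S h b)) with hf
  set N := f.natDegree + 1 with hN
  set δ : Al S := ∏ h ∈ Finset.univ.erase (1 : G), (b - Al.act S h b) with hδ
  have h1 : ∀ (g : G) (i : ℕ), W.w (Al.act S g (f.coeff i)) ≤ 1 :=
    fun g i => W3_coef W W3_v0 b hb.1 _ g i
  have h2 : ∀ g : G, ∑ i ∈ Finset.range N, Al.act S g (f.coeff i) * b ^ i = if g = 1 then δ else 0 := by
    intro g
    have h3 : Polynomial.eval₂ (Al.act S g) b f =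
        ∑ i ∈ Finset.range N, Al.act S g (f.coeff i) * b ^ i :=
      Polynomial.eval₂_eq_sum_range (Al.act S g) b
    rw [← h3, hf, Polynomial.eval₂_finsetProd]
    split_ifs with hg
    · rw [hδ]
      refine Finset.prod_congr rfl fun h _ => ?_
      rw [Polynomial.eval₂_sub, Polynomial.eval₂_X, Polynomial.eval₂_C, hg, Al.act_one_apply]
    · refine Finset.prod_eq_zero (i := g⁻¹) ?_ ?_
      · rw [Finset.mem_erase]
        exact ⟨fun h => hg (inv_eq_one.1 h), Finset.mem_univ _⟩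
      · rw [Polynomial.eval₂_sub, Polynomial.eval₂_X, Polynomial.eval₂_C, ← Al.act_mul_apply,
          mul_inv_cancel, Al.act_one_apply, sub_self]
  have h3 : ∀ g : G, W.w (Al.act S g δ) = 1 := by
    intro g
    rw [hδ, map_prod]
    refine W3_prod W _ _ fun h hh => ?_
    rw [map_sub, ← Al.act_mul_apply]
    refine hb.2 g (g * h) ?_
    intro h4
    rw [Finset.mem_erase] at hh
    exact hh.1 (mul_eq_left.1 h4.symm)
  have h4 : δ ^ q * a = ∑ i ∈ Finset.range N, (b ^ i) ^ q * Al.cst S (tA S (a * f.coeff i ^ q)) := by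
    have h5 : ∀ g : G, Al.act S g a * ∑ i ∈ Finset.range N, (Al.act S g (f.coeff i) * b ^ i) ^ q =
        if g = 1 then δ ^ q * a else 0 := by
      intro g
      rw [← sum_pow_char_pow p k, h2]
      split_ifs with hg
      · rw [hg, Al.act_one_apply, mul_comm]
      · rw [zero_pow hq0, mul_zero]
    have h6 : ∑ g : G, Al.act S g a * ∑ i ∈ Finset.range N, (Al.act S g (f.coeff i) * b ^ i) ^ q =
        δ ^ q * a := by
      rw [Finset.sum_congr rfl fun g _ => h5 g, Finset.sum_ite_eq' Finset.univ (1 : G) fun _ => δ ^ q * a]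
      simp
    rw [← h6, Finset.sum_congr rfl fun g _ => Finset.mul_sum _ _ _, Finset.sum_comm]
    refine Finset.sum_congr rfl fun i _ => ?_
    rw [cst_tA, Finset.mul_sum]
    refine Finset.sum_congr rfl fun g _ => ?_
    rw [map_mul, map_pow, mul_pow]
    ring
  have h5 : δ ^ q * PsiA S (psL Om q) q a =
      ∑ i ∈ Finset.range N, (b ^ i) ^ q * Al.cst S (psL Om q (tA S (a * f.coeff i ^ q))) := by
    rw [← PsiA_pow_mul S p k (psL Om q) hψ, h4, map_sum]
    refine Finset.sum_congr rfl fun i _ => ?_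
    rw [PsiA_pow_mul S p k (psL Om q) hψ, PsiA_cst S p k (psL Om q) hψ]
  have h6 : W.w (Al.act S g (PsiA S (psL Om q) q a)) =
      W.w (Al.act S g (δ ^ q * PsiA S (psL Om q) q a)) := by
    rw [map_mul, map_pow, W.mul, W3_pow, h3, one_pow, one_mul]
  rw [h6, h5, map_sum]
  refine W3_sum W W3_v0 _ _ hM0 fun i _ => ?_
  rw [map_mul, map_pow, map_pow, Al.act_cst, W.mul, W3_pow, W3_pow]
  have h7 : LB r (lz Om (psL Om q (tA S (a * f.coeff i ^ q)))) M := by
    refine W3_LB_psL q _ M hM0 (tame_tr hr W _ M fun h => ?_)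
    rw [map_mul, map_pow, W.mul, W3_pow]
    calc W.w (Al.act S h a) * W.w (Al.act S h (f.coeff i)) ^ q ≤ M * 1 :=
          mul_le_mul (hM h) (pow_le_one₀ (W.nonneg _) (h1 h i)) (pow_nonneg (W.nonneg _) _) hM0
      _ = M := mul_one M
  have h8 : W.w (Al.cst S (psL Om q (tA S (a * f.coeff i ^ q)))) ≤ M := by
    rw [W.cst]
    exact (lz_iso hr _ hM0).1 h7
  calc (W.w (Al.act S g b) ^ i) ^ q * W.w (Al.cst S (psL Om q (tA S (a * f.coeff i ^ q)))) ≤ 1 * M :=
        mul_le_mul (pow_le_one₀ (pow_nonneg (W.nonneg _) _) (pow_le_one₀ (W.nonneg _) (hb.1 g))) h8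
          (W.nonneg _) zero_le_one
    _ = M := one_mul M

include hr in
theorem tame_Bnd (b : Al S) (hb : Sepb W b) : ∃ C : ℝ, 0 < C ∧ ∀ k, Bnd S r C (p ^ k) := by
  set M1 : ℝ := 1 + ∑ g : G, ∑ l : G, (W.w (Al.act S g (bs S l)) + W.w (Al.act S g (Al.e S l))) with hM1
  have hnn : ∀ g l : G, 0 ≤ W.w (Al.act S g (bs S l)) + W.w (Al.act S g (Al.e S l)) :=
    fun g l => add_nonneg (W.nonneg _) (W.nonneg _)
  have hle : ∀ g l : G, W.w (Al.act S g (bs S l)) + W.w (Al.act S g (Al.e S l)) ≤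
      ∑ g : G, ∑ l : G, (W.w (Al.act S g (bs S l)) + W.w (Al.act S g (Al.e S l))) := by
    intro g l
    refine (Finset.single_le_sum (f := fun l => W.w (Al.act S g (bs S l)) +
      W.w (Al.act S g (Al.e S l))) (fun l _ => hnn g l) (Finset.mem_univ l)).trans ?_
    exact Finset.single_le_sum (f := fun g => ∑ l : G, (W.w (Al.act S g (bs S l)) +
      W.w (Al.act S g (Al.e S l)))) (fun g _ => Finset.sum_nonneg fun l _ => hnn g l)
      (Finset.mem_univ g)
  have h1 : ∀ g l : G, W.w (Al.act S g (bs S l)) ≤ M1 := by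
    intro g l
    have h2 := hle g l
    have h3 := W.nonneg (Al.act S g (Al.e S l))
    linarith
  have h2 : ∀ g l : G, W.w (Al.act S g (Al.e S l)) ≤ M1 := by
    intro g l
    have h2 := hle g l
    have h3 := W.nonneg (Al.act S g (bs S l))
    linarith
  have hM1p : 0 < M1 := by
    have h3 : 0 ≤ ∑ g : G, ∑ l : G, (W.w (Al.act S g (bs S l)) + W.w (Al.act S g (Al.e S l))) :=
      Finset.sum_nonneg fun g _ => Finset.sum_nonneg fun l _ => hnn g l
    linarith
  refine ⟨M1 * M1, mul_pos hM1p hM1p, fun k m i l => ?_⟩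
  have hrm : 0 < r ^ m := zpow_pos hr m
  have hT : W.w (Al.cst S (LaurentPolynomial.T m)) ≤ r ^ m := by
    rw [W.cst]
    refine (lz_iso hr _ hrm.le).1 fun n => ?_
    rw [lz_coeff]
    have h3 : (LaurentPolynomial.T m : Lam Om).coeff n = if m = n then 1 else 0 := by
      rw [LaurentPolynomial.T, AddMonoidAlgebra.coeff_single, Finsupp.single_apply]
    rw [h3]
    split_ifs with h4
    · rw [norm_one, one_mul, h4]
    · rw [norm_zero, zero_mul]
      exact hrm.le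
  have h3 : ∀ g : G, W.w (Al.act S g (Al.cst S (LaurentPolynomial.T m) * Al.e S i)) ≤ r ^ m * M1 := by
    intro g
    rw [map_mul, Al.act_cst, W.mul]
    exact mul_le_mul hT (h2 g i) (W.nonneg _) hrm.le
  have h4 := tame_psi p hr W b hb k _ _ h3
  rw [coord S (PsiA S (psL Om (p ^ k)) (p ^ k) (Al.cst S (LaurentPolynomial.T m) * Al.e S i)) l]
  refine tame_tr hr W _ _ fun g => ?_
  rw [map_mul, W.mul]
  calc W.w (Al.act S g (PsiA S (psL Om (p ^ k)) (p ^ k)
        (Al.cst S (LaurentPolynomial.T m) * Al.e S i))) * W.w (Al.act S g (bs S l))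
      ≤ (r ^ m * M1) * M1 := mul_le_mul (h4 g) (h1 g l) (W.nonneg _) (mul_pos hrm hM1p).le
    _ = M1 * M1 * r ^ m := by ring

end

end Pool.Agent.MP_1c8e06_ag.CY
end

section

set_option autoImplicit false

open Polynomial
open scoped Classical

namespace Pool.Agent.MP_1c8e06_ag.CY

open Pool.Agent.MP_1c8e06_ag.AJ

noncomputable section

/-!
# TASK E2: elements whose Frobenius powers converge to an idempotent

Black boxes: `QA1` (`toE`, `toE_apply`, `exists_NI_of_QA`, `QA.pow`, `QA_of_lim`, `QA_of_near`, `frob_add`, `frob_small`, `mul_bound`,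
`one_le_MB`), `E1.QA_open`.  `Good`, `TN`: `EDefs`.  Everything is in characteristic `p`: Frobenius powers are additive in
`Al (S.map (jF Om))` (`add_pow_char_pow`; `CharP` of `Al _`: `cst` is injective, `AJ.cst_injective`).
* `Good.of_QA`: `exists_NI_of_QA`.   `Good.QA_eventually`: `QA_of_lim`.
* `Good.of_pow`: `(b ^ (p^m)) ^ (p^n) = b ^ (p^(m+n))`, so the sequence for `b` from index `m + n0` on is that for `b ^ (p^m)`.
* `Good.open`: `QA` for `b ^ (p^n)` at `gp c r` (`QA_eventually`), `QA_open`, `Good.of_QA`, `Good.of_pow`.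
* `exists_Good`: from an `N`-idempotent `ε` at `w`, `Pt.exists_near` for every coordinate and `QA_of_near`: some `b` has `QA`.
* `Good.add_TN`: `(b + f) ^ (p^n) = b ^ (p^n) + f ^ (p^n)`, `‖w.ι y‖ = w.v y` (`Pt.norm_ι`), ultrametric.
* `TN.smul`: `(cst h * f) ^ (p^n) = cst (h ^ (p^n)) * f ^ (p^n)` has coordinates `h ^ (p^n) * (f ^ (p^n)) l` (`Al.cst_mul`), `w.v h ≤ 1`.
* `TN.of_small`: `frob_small` for `toE S w f` (norms `‖toE S w f l‖ = w.v (f l)`; `toE` is a ring homomorphism).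
* `TN.sub_of_Good`: if `b`, `b'` are good at `w` and the `N`-idempotent at `w` is unique, both sequences have the same limit,
  `(b - b') ^ (p^n) = b ^ (p^n) - b' ^ (p^n)` (`sub_pow_char_pow`).
-/

variable {Om : Type} [NormedField Om] [CompleteSpace Om] [IsUltrametricDist Om] [IsAlgClosed Om]
  {p : ℕ} [Fact p.Prime] [CharP Om p] {G : Type} [Group G] [Fintype G] {S : SC (Lam Om) G} {N : Subgroup G}

private theorem E2_pow (b : Al (S.map (jF Om))) (w : Pt Om) (m : ℕ) (l : G) :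
    w.ι ((b ^ m) l) = ((toE S w b) ^ m) l := by
  rw [← map_pow, toE_apply]

private theorem E2_sub {w : Pt Om} {x y : w.E} {et : ℝ} (hx : ‖x‖ < et) (hy : ‖y‖ < et) :
    ‖x - y‖ < et := by
  have h := w.norm_add x (-y)
  rw [norm_neg, ← sub_eq_add_neg] at h
  exact lt_of_le_of_lt h (max_lt hx hy)

private theorem E2_v (b : Al (S.map (jF Om))) (w : Pt Om) (m : ℕ) (l : G) :
    w.v ((b ^ m) l) = ‖((toE S w b) ^ m) l‖ := by
  rw [← E2_pow, Pt.norm_ι]

theorem Good.of_QA {b : Al (S.map (jF Om))} {w : Pt Om} (h : QA p S N b w) : Good p S N b w := by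
  obtain ⟨e, he, hl, -⟩ := exists_NI_of_QA S N w h
  exact ⟨e, he, hl⟩

theorem Good.QA_eventually {b : Al (S.map (jF Om))} {w : Pt Om} (h : Good p S N b w) :
    ∃ n0, ∀ n, n0 ≤ n → QA p S N (b ^ (p ^ n)) w := by
  obtain ⟨e, he, hl⟩ := h
  exact QA_of_lim S N w he hl

theorem Good.of_pow {b : Al (S.map (jF Om))} {w : Pt Om} (m : ℕ) (h : Good p S N (b ^ (p ^ m)) w) :
    Good p S N b w := by
  obtain ⟨e, he, hl⟩ := h
  refine ⟨e, he, fun et het => ?_⟩
  obtain ⟨n0, hn0⟩ := hl et het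
  refine ⟨m + n0, fun n hn l => ?_⟩
  have h1 := hn0 (n - m) (by omega) l
  rw [← pow_mul, ← pow_add, Nat.add_sub_cancel' (show m ≤ n by omega)] at h1
  exact h1

theorem Good.open {b : Al (S.map (jF Om))} (c : Om) {r : ℝ} (hr : 0 < r) (h : Good p S N b (gp c r)) :
    ∃ de > 0, ∀ r' : ℝ, 0 < r' → |r' - r| < de → Good p S N b (gp c r') := by
  obtain ⟨n0, h0⟩ := h.QA_eventually
  obtain ⟨de, hde, h1⟩ := QA_open S N _ c hr (h0 n0 le_rfl)
  exact ⟨de, hde, fun r' h2 h3 => Good.of_pow n0 (Good.of_QA (h1 r' h2 h3))⟩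

theorem exists_Good (w : Pt Om) (h : ∃ ε : Al (S.map (lw w)), NI (S.map (lw w)) N ε) :
    ∃ b : Al (S.map (jF Om)), Good p S N b w := by
  obtain ⟨ε, hε⟩ := h
  obtain ⟨de, hde, hQ⟩ := QA_of_near (p := p) S N w hε one_pos
  choose f hf using fun l => w.exists_near (ε l) hde
  exact ⟨f, Good.of_QA (hQ f hf).1⟩

theorem Good.add_TN {b f : Al (S.map (jF Om))} {w : Pt Om} (h : Good p S N b w) (hf : TN p S f w) :
    Good p S N (b + f) w := by
  obtain ⟨e, he, hl⟩ := h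
  refine ⟨e, he, fun et het => ?_⟩
  obtain ⟨n1, h1⟩ := hl et het
  obtain ⟨n2, h2⟩ := hf et het
  refine ⟨max n1 n2, fun n hn l => ?_⟩
  have a1 := h1 n (le_trans (le_max_left _ _) hn) l
  have a2 := h2 n (le_trans (le_max_right _ _) hn) l
  rw [E2_pow] at a1
  rw [E2_v] at a2
  rw [E2_pow, map_add, frob_add, Al.add_apply, ← sub_sub]
  exact E2_sub a1 a2

theorem TN.smul {f : Al (S.map (jF Om))} {w : Pt Om} (hf : TN p S f w) (h : RatFunc Om)
    (hh : w.v h ≤ 1) : TN p S (Al.cst (S.map (jF Om)) h * f) w := by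
  intro et het
  obtain ⟨n0, h0⟩ := hf et het
  refine ⟨n0, fun n hn l => ?_⟩
  rw [mul_pow, ← map_pow, Al.cst_mul, map_mul, map_pow]
  have h1 : w.v h ^ (p ^ n) ≤ 1 := pow_le_one₀ (AbsoluteValue.nonneg _ _) hh
  calc w.v h ^ (p ^ n) * w.v ((f ^ (p ^ n)) l) ≤ 1 * w.v ((f ^ (p ^ n)) l) :=
        mul_le_mul_of_nonneg_right h1 (AbsoluteValue.nonneg _ _)
    _ = w.v ((f ^ (p ^ n)) l) := one_mul _
    _ < et := h0 n hn l

theorem TN.neg {f : Al (S.map (jF Om))} {w : Pt Om} (hf : TN p S f w) : TN p S (-f) w := by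
  have h1 := hf.smul (-1) (by rw [AbsoluteValue.map_neg, map_one])
  rwa [map_neg, map_one, neg_one_mul] at h1

theorem TN.of_small {f : Al (S.map (jF Om))} {w : Pt Om} (hf : ∀ l, MB S w * w.v (f l) < 1) :
    TN p S f w := by
  intro et het
  obtain ⟨n0, h0⟩ := frob_small (p := p) S w (a := toE S w f) (fun l => by
    rw [toE_apply, Pt.norm_ι]
    exact hf l) het
  refine ⟨n0, fun n hn l => ?_⟩
  rw [E2_v]
  exact h0 n hn l

theorem TN.sub_of_Good {b b' : Al (S.map (jF Om))} {w : Pt Om} (h : Good p S N b w)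
    (h' : Good p S N b' w)
    (hu : ∀ e e' : Al (S.map (lw w)), NI (S.map (lw w)) N e → NI (S.map (lw w)) N e' → e = e') :
    TN p S (b - b') w := by
  obtain ⟨e, he, hl⟩ := h
  obtain ⟨e', he', hl'⟩ := h'
  obtain rfl := hu e e' he he'
  intro et het
  obtain ⟨n1, h1⟩ := hl et het
  obtain ⟨n2, h2⟩ := hl' et het
  refine ⟨max n1 n2, fun n hn l => ?_⟩
  have a1 := h1 n (le_trans (le_max_left _ _) hn) l
  have a2 := h2 n (le_trans (le_max_right _ _) hn) l
  rw [E2_pow] at a1 a2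
  rw [E2_v, map_sub]
  have h3 := frob_add (p := p) S w (toE S w b - toE S w b') (toE S w b') n
  rw [sub_add_cancel] at h3
  have h4 : ((toE S w b - toE S w b') ^ (p ^ n)) l =
      (e l - ((toE S w b') ^ (p ^ n)) l) - (e l - ((toE S w b) ^ (p ^ n)) l) := by
    rw [h3, Al.add_apply]
    ring
  rw [h4]
  exact E2_sub a2 a1

end

end Pool.Agent.MP_1c8e06_ag.CY
end

section

set_option autoImplicit false

open Polynomial
open scoped Classical

namespace Pool.Agent.MP_1c8e06_ag.CY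

open Pool.Agent.MP_1c8e06_ag.AJ

noncomputable section

/-!
# TASK E3: gluing of approximate idempotents

Black boxes: `E1.bdd_gp`, `E2`, `GA1.gp_X_sub` (`(gp c r).v (X - C α) = max r ‖c - α‖`), `GA1.gp_X`.
* `exists_cut`: for `0 < s' < s` and `θ > 0` there is `h : RatFunc Om` with, for all `r > 0`:
  `(gp 0 r).v h ≤ 1`, `(gp 0 r).v (1 - h) ≤ 1`, `(gp 0 r).v (1 - h) ≤ θ` for `r ≤ s'`, `(gp 0 r).v h ≤ θ` for `r ≥ s`.
  Proof: `c : Om` with `s' < ‖c‖ < s` (`hV`), `M := p ^ m`, `h := (C c / (X + C c)) ^ M`.  `(gp 0 r).v (X + C c) = max r ‖c‖`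
  (`X + C c = X - C (-c)`), so `v h = (‖c‖ / max r ‖c‖) ^ M`; `1 - h = 1 - (C c)^M / (X + C c)^M = (X / (X + C c)) ^ M` because
  `(X + C c) ^ (p^m) = X ^ (p^m) + (C c) ^ (p^m)` in characteristic `p` (`add_pow_char_pow`; `CharP (RatFunc Om) p`), so
  `v (1 - h) = (r / max r ‖c‖) ^ M`.  For `r ≤ s'`: `≤ (s' / ‖c‖) ^ M`, for `r ≥ s`: `v h ≤ (‖c‖ / s) ^ M`; both tend to `0` as
  `m → ∞` (`exists_pow_lt_of_lt_one`, `p ^ m ≥ m`).
* `glue_Good`: `f := b1 - b2`.  `bdd_gp`: `MB S (gp 0 r) * (gp 0 r).v (f l) ≤ C` for all `r ∈ [s0, s1]`, `l`; `θ := 1 / (2 (|C| + 1))`; `h` from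
  `exists_cut`; `b := b2 + cst h * f = b1 + (- (cst (1 - h) * f))`.  For `r ∈ [s', s]`: both good, `TN.sub_of_Good`, `TN.smul`,
  `Good.add_TN`.  For `s0 ≤ r < s'`: `cst (1 - h) * f` is small: coordinates `(1 - h) * f l` (`Al.cst_mul`), value
  `≤ θ v(f l)`: `TN.of_small`, `TN.neg`, `Good.add_TN` for `b1`.  For `s < r ≤ s1`: `cst h * f` small, `Good.add_TN` for `b2`.
-/

variable {Om : Type} [NormedField Om] [CompleteSpace Om] [IsUltrametricDist Om] [IsAlgClosed Om]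
  (hV : ∀ r : ℝ, 0 < r → ∃ c : Om, ‖c‖ = r)
  {p : ℕ} [Fact p.Prime] [CharP Om p] {G : Type} [Group G] [Fintype G] {S : SC (Lam Om) G} {N : Subgroup G}

include hV in
theorem exists_cut (p : ℕ) [Fact p.Prime] [CharP Om p] {s' s th : ℝ} (h0 : 0 < s') (h1 : s' < s) (hth : 0 < th) :
    ∃ h : RatFunc Om, ∀ r : ℝ, 0 < r → (gp 0 r).v h ≤ 1 ∧ (gp 0 r).v (1 - h) ≤ 1 ∧
      (r ≤ s' → (gp 0 r).v (1 - h) ≤ th) ∧ (s ≤ r → (gp 0 r).v h ≤ th) := by
  have hs : 0 < s := h0.trans h1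
  obtain ⟨c, hc⟩ := hV ((s' + s) / 2) (by linarith)
  have hc0 : 0 < ‖c‖ := by rw [hc]; linarith
  have hc1 : s' < ‖c‖ := by rw [hc]; linarith
  have hc2 : ‖c‖ < s := by rw [hc]; linarith
  have hk : max (s' / ‖c‖) (‖c‖ / s) < 1 :=
    max_lt ((div_lt_one hc0).2 hc1) ((div_lt_one hs).2 hc2)
  have hk0 : 0 ≤ max (s' / ‖c‖) (‖c‖ / s) := le_max_of_le_left (div_nonneg h0.le hc0.le)
  obtain ⟨n, hn⟩ := exists_pow_lt_of_lt_one hth hk
  have hn' : max (s' / ‖c‖) (‖c‖ / s) ^ (p ^ n) ≤ th :=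
    (pow_le_pow_of_le_one hk0 hk.le (Nat.lt_pow_self (Fact.out : p.Prime).one_lt).le).trans hn.le
  have hchar : CharP (RatFunc Om) p := charP_of_injective_ringHom (RatFunc.C_injective) p
  set U : RatFunc Om := RatFunc.X - RatFunc.C (-c) with hU
  have hvU : ∀ r : ℝ, 0 < r → (gp 0 r).v U = max r ‖c‖ := by
    intro r hr
    rw [hU, gp_X_sub 0 (-c) hr, zero_sub, neg_neg]
  have hU0 : U ≠ 0 := by
    intro h
    have h2 := hvU 1 one_pos
    rw [h, map_zero] at h2
    have := le_max_left (1 : ℝ) ‖c‖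
    linarith
  have hva : ∀ r : ℝ, 0 < r → (gp 0 r).v (RatFunc.C c / U) = ‖c‖ / max r ‖c‖ := by
    intro r hr
    rw [map_div₀, hvU r hr, (gp 0 r).ext]
  have hX : (1 : RatFunc Om) - RatFunc.C c / U = RatFunc.X / U := by
    rw [eq_div_iff hU0, sub_mul, div_mul_cancel₀ _ hU0, one_mul, hU, map_neg]
    ring
  have hvb : ∀ r : ℝ, 0 < r → (gp 0 r).v (1 - RatFunc.C c / U) = r / max r ‖c‖ := by
    intro r hr
    rw [hX, map_div₀, hvU r hr, gp_X hr]
  have hpow : (1 : RatFunc Om) - (RatFunc.C c / U) ^ (p ^ n) = (1 - RatFunc.C c / U) ^ (p ^ n) := by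
    rw [sub_pow_char_pow, one_pow]
  refine ⟨(RatFunc.C c / U) ^ (p ^ n), fun r hr => ?_⟩
  have hm : 0 < max r ‖c‖ := lt_max_of_lt_left hr
  have e1 : (gp 0 r).v ((RatFunc.C c / U) ^ (p ^ n)) = (‖c‖ / max r ‖c‖) ^ (p ^ n) := by
    rw [map_pow, hva r hr]
  have e2 : (gp 0 r).v (1 - (RatFunc.C c / U) ^ (p ^ n)) = (r / max r ‖c‖) ^ (p ^ n) := by
    rw [hpow, map_pow, hvb r hr]
  rw [e1, e2]
  refine ⟨?_, ?_, fun h => ?_, fun h => ?_⟩
  · exact pow_le_one₀ (div_nonneg hc0.le hm.le) ((div_le_one hm).2 (le_max_right _ _))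
  · exact pow_le_one₀ (div_nonneg hr.le hm.le) ((div_le_one hm).2 (le_max_left _ _))
  · refine le_trans (pow_le_pow_left₀ (div_nonneg hr.le hm.le) ?_ _) hn'
    refine le_trans ?_ (le_max_left _ _)
    rw [max_eq_right (h.trans hc1.le)]
    exact div_le_div_of_nonneg_right h hc0.le
  · refine le_trans (pow_le_pow_left₀ (div_nonneg hc0.le hm.le) ?_ _) hn'
    refine le_trans ?_ (le_max_right _ _)
    rw [max_eq_left (hc2.le.trans h)]
    exact div_le_div_of_nonneg_left hc0.le hs h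

include hV in
theorem glue_Good (hu : ∀ r : ℝ, 0 < r → ∀ e e' : Al (S.map (lw (gp 0 r))),
      NI (S.map (lw (gp 0 r))) N e → NI (S.map (lw (gp 0 r))) N e' → e = e')
    {s0 s' s s1 : ℝ} (h0 : 0 < s0) (h1 : s' < s) (h2 : 0 < s') {b1 b2 : Al (S.map (jF Om))}
    (hb1 : ∀ r, s0 ≤ r → r ≤ s → Good p S N b1 (gp 0 r))
    (hb2 : ∀ r, s' ≤ r → r ≤ s1 → Good p S N b2 (gp 0 r)) :
    ∃ b : Al (S.map (jF Om)), ∀ r, s0 ≤ r → r ≤ s1 → Good p S N b (gp 0 r) := by
  obtain ⟨C, hC⟩ := bdd_gp S (fun l => (b1 - b2) l) (d := s1) h0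
  have hC1 : 0 < |C| + 1 := by positivity
  have hth : 0 < 1 / (2 * (|C| + 1)) := by positivity
  obtain ⟨h, hh⟩ := exists_cut hV p h2 h1 hth
  have small : ∀ (g : RatFunc Om) (r : ℝ), s0 ≤ r → r ≤ s1 →
      (gp 0 r).v g ≤ 1 / (2 * (|C| + 1)) →
      TN p S (Al.cst (S.map (jF Om)) g * (b1 - b2)) (gp 0 r) := by
    intro g r hr1 hr2 hg
    refine TN.of_small fun l => ?_
    rw [Al.cst_mul, map_mul]
    have e1 := hC r hr1 hr2 l
    have e2 : (0 : ℝ) ≤ MB S (gp 0 r) * (gp 0 r).v ((b1 - b2) l) :=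
      mul_nonneg (zero_le_one.trans (le_max_left _ _)) ((gp 0 r).v.nonneg _)
    calc MB S (gp 0 r) * ((gp 0 r).v g * (gp 0 r).v ((b1 - b2) l))
        = (gp 0 r).v g * (MB S (gp 0 r) * (gp 0 r).v ((b1 - b2) l)) := by ring
      _ ≤ 1 / (2 * (|C| + 1)) * |C| :=
          mul_le_mul hg (e1.trans (le_abs_self C)) e2 hth.le
      _ < 1 := by
          rw [div_mul_eq_mul_div, div_lt_one (by positivity)]
          have := abs_nonneg C
          linarith
  refine ⟨b2 + Al.cst (S.map (jF Om)) h * (b1 - b2), fun r hr1 hr2 => ?_⟩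
  have hr0 : 0 < r := h0.trans_le hr1
  obtain ⟨k1, k2, k3, k4⟩ := hh r hr0
  rcases lt_or_ge r s' with hlt | hge
  · have e1 := small (1 - h) r hr1 hr2 (k3 hlt.le)
    have e2 := (hb1 r hr1 (hlt.le.trans h1.le)).add_TN e1.neg
    have e3 : b1 + -(Al.cst (S.map (jF Om)) (1 - h) * (b1 - b2)) =
        b2 + Al.cst (S.map (jF Om)) h * (b1 - b2) := by
      rw [map_sub, map_one]
      ring
    rwa [e3] at e2
  · rcases le_or_gt r s with hle | hgt
    · exact (hb2 r hge hr2).add_TN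
        ((TN.sub_of_Good (hb1 r hr1 hle) (hb2 r hge hr2) (hu r hr0)).smul h k1)
    · exact (hb2 r hge hr2).add_TN (small h r hr1 hr2 (k4 hgt.le))

end

end Pool.Agent.MP_1c8e06_ag.CY
end
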