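import Pool.Agent.Lib.MP_1c8e06_ag.Mg.G001
import Pool.Agent.Lib.MP_1c8e06_ag.Mg.G094
import Pool.Agent.Lib.MP_1c8e06_ag.Mg.G003
import Pool.Agent.Lib.MP_1c8e06_ag.CY.O3
import Pool.Agent.Lib.MP_1c8e06_ag.AI.A0

section

set_option autoImplicit false

open Polynomial
open scoped Classical

namespace Pool.Agent.MP_1c8e06_ag.CY

open Pool.Agent.MP_1c8e06_ag.AJ

noncomputable section

/-!
# TASK B3: the wild inertia group is a `p`-group

`InJ W g : ∀ a, W.w a ≤ 1 → W.w (act g a - a) < 1`, `InD W g : ∀ a, W.w (act g a) = W.w a` (`BDefs`).  Write `w := W.w`.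
`w (-a) = w a` (`-a = cst (-1) * a`), `w (cst c * a) = ‖c‖ * w a`.
* `InJ.lt`: if `InJ W g` and `w a ≠ 0`: choose `c : E` with `‖c‖ = (w a)⁻¹` (`hE`); `w (cst c * a) = 1`, so
  `‖c‖ * w (act g a - a) = w (act g (cst c * a) - cst c * a) < 1`, i.e. `w (act g a - a) < w a`.  If `w a = 0`: for every `c`
  `w (cst c * a) = 0 ≤ 1`, so `‖c‖ * w (act g a - a) < 1` for all `c`, so `w (act g a - a) = 0`.  So `w (act g a) = w a` in both
  cases (ultrametric: `act g a = a + (act g a - a)`; in the first case `w (act g a - a) < w a` gives equality).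
* `exists_J`: closed under products: `act (g h) a - a = act g (act h a - a) + (act g a - a)`, `w (act g y) = w y`; inverses:
  `act g⁻¹ a - a = - act g⁻¹ (act g a - a)`, and `w (act g⁻¹ y) = w (act g (act g⁻¹ y)) = w y` (apply `InD` for `g` to
  `act g⁻¹ y`).  Conjugation by `d` with `InD W d`: `act (d g d⁻¹) a - a = act d (act g a' - a')` with `a' = act d⁻¹ a`,
  `w a' = w a` (`InD W d`).  `p`-group: it is enough (Cauchy, `IsPGroup.of_card`/`exists_prime_orderOf_dvd_card`; or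
  `IsPGroup` via: every prime divisor of the order of the subgroup is `p`) that there is no `g` with `InJ W g` of prime order `ℓ ≠ p`.
  Suppose there is.  By `faithful_mod` (`B1`, ideal of `W` from `MS_ideal`) there is `a` with `w (act g a - a) ≠ 0` (as `g ≠ 1`).
  `b := act g a - a`, `∑ i ∈ range ℓ, act (g^i) b = act (g^ℓ) a - a = 0` (telescoping), so
  `ℓ b = ∑ i ∈ range ℓ, (b - act (g^i) b)`, each term has value `< w b` (`InJ.lt` for `g^i`, `w b ≠ 0`) (the term `i = 0` is `0`), so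
  `w (ℓ b) < w b`.  But `ℓ` is a unit in `ZMod p ⊆ E`: `‖(ℓ : E)‖ = 1` (in characteristic `p` the image of a nonzero residue
  satisfies `c ^ (p-1) = 1`, `ZMod.pow_card_sub_one_eq_one`, norm multiplicative), so `w (ℓ b) = w b`.  Contradiction.
-/

variable {E : Type} [NormedField E] [CompleteSpace E] [IsUltrametricDist E]
  {G : Type} [Group G] [Fintype G] {S : SC E G}

private theorem B3_cst_mul (W : MS S fun c => ‖c‖) (c : E) (a : Al S) :
    W.w (Al.cst S c * a) = ‖c‖ * W.w a := by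
  rw [W.mul, W.cst]

private theorem B3_neg (W : MS S fun c => ‖c‖) (a : Al S) : W.w (-a) = W.w a := by
  have h : -a = Al.cst S (-1) * a := by rw [map_neg, map_one, neg_one_mul]
  rw [h, B3_cst_mul, norm_neg, norm_one, one_mul]

private theorem B3_sub_comm (W : MS S fun c => ‖c‖) (a b : Al S) : W.w (a - b) = W.w (b - a) := by
  rw [← B3_neg W (a - b), neg_sub]

private theorem B3_eq_of_lt (W : MS S fun c => ‖c‖) {a b : Al S} (h : W.w (b - a) < W.w a) :
    W.w b = W.w a := by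
  apply le_antisymm
  · have h1 := W.add (b - a) a
    rw [sub_add_cancel] at h1
    exact h1.trans (max_le h.le le_rfl)
  · have h1 := W.add (a - b) b
    rw [sub_add_cancel, B3_sub_comm W a b] at h1
    rcases le_max_iff.1 h1 with h2 | h2
    · exact absurd h2 (not_le.2 h)
    · exact h2

private theorem B3_zero (W : MS S fun c => ‖c‖) : W.w 0 = 0 := W.zero norm_zero

private theorem B3_sum_lt (W : MS S fun c => ‖c‖) {ι : Type} (s : Finset ι) (f : ι → Al S)
    {C : ℝ} (hC : 0 < C) (h : ∀ i ∈ s, W.w (f i) < C) : W.w (∑ i ∈ s, f i) < C := by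
  induction s using Finset.induction_on with
  | empty =>
    rw [Finset.sum_empty, B3_zero]
    exact hC
  | insert a s ha ih =>
    rw [Finset.sum_insert ha]
    exact (W.add _ _).trans_lt (max_lt (h a (Finset.mem_insert_self a s))
      (ih fun i hi => h i (Finset.mem_insert_of_mem hi)))

private theorem B3_act_cst_mul (g : G) (c : E) (a : Al S) :
    Al.act S g (Al.cst S c * a) - Al.cst S c * a = Al.cst S c * (Al.act S g a - a) := by
  rw [map_mul, Al.act_cst, mul_sub]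

theorem InJ.lt (hE : ∀ r : ℝ, 0 < r → ∃ c : E, ‖c‖ = r) {W : MS S fun c => ‖c‖} {g : G}
    (hg : InJ W g) (a : Al S) (ha : W.w a ≠ 0) : W.w (Al.act S g a - a) < W.w a := by
  have h0 : 0 < W.w a := lt_of_le_of_ne (W.nonneg a) (Ne.symm ha)
  obtain ⟨c, hc⟩ := hE (W.w a)⁻¹ (inv_pos.2 h0)
  have h1 : W.w (Al.cst S c * a) ≤ 1 := by
    rw [B3_cst_mul, hc, inv_mul_cancel₀ ha]
  have h2 := hg _ h1
  rw [B3_act_cst_mul, B3_cst_mul, hc, inv_mul_lt_iff₀ h0, mul_one] at h2
  exact h2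

theorem InJ.inD (hE : ∀ r : ℝ, 0 < r → ∃ c : E, ‖c‖ = r) {W : MS S fun c => ‖c‖} {g : G}
    (hg : InJ W g) : InD W g := by
  intro a
  by_cases ha : W.w a = 0
  · have h1 : W.w (Al.act S g a - a) = 0 := by
      by_contra h
      have h0 : 0 < W.w (Al.act S g a - a) := lt_of_le_of_ne (W.nonneg _) (Ne.symm h)
      obtain ⟨c, hc⟩ := hE (W.w (Al.act S g a - a))⁻¹ (inv_pos.2 h0)
      have h2 : W.w (Al.cst S c * a) ≤ 1 := by
        rw [B3_cst_mul, ha, mul_zero]
        exact zero_le_one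
      have h3 := hg _ h2
      rw [B3_act_cst_mul, B3_cst_mul, hc, inv_mul_cancel₀ h] at h3
      exact lt_irrefl _ h3
    have h4 := W.add (Al.act S g a - a) a
    rw [sub_add_cancel, h1, ha, max_self] at h4
    rw [ha]
    exact le_antisymm h4 (W.nonneg _)
  · exact B3_eq_of_lt W (hg.lt hE a ha)

private theorem B3_one (W : MS S fun c => ‖c‖) : InJ W 1 := by
  intro a _
  rw [Al.act_one_apply, sub_self, B3_zero]
  exact zero_lt_one

private theorem B3_mul (hE : ∀ r : ℝ, 0 < r → ∃ c : E, ‖c‖ = r) {W : MS S fun c => ‖c‖}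
    {g h : G} (hg : InJ W g) (hh : InJ W h) : InJ W (g * h) := by
  intro a ha
  have h1 : Al.act S (g * h) a - a = Al.act S g (Al.act S h a - a) + (Al.act S g a - a) := by
    rw [Al.act_mul_apply, map_sub]
    abel
  rw [h1]
  refine (W.add _ _).trans_lt (max_lt ?_ (hg a ha))
  rw [hg.inD hE]
  exact hh a ha

private theorem B3_inv (hE : ∀ r : ℝ, 0 < r → ∃ c : E, ‖c‖ = r) {W : MS S fun c => ‖c‖}
    {g : G} (hg : InJ W g) : InJ W g⁻¹ := by
  intro a ha
  have h0 : ∀ y, Al.act S g (Al.act S g⁻¹ y) = y := fun y => by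
    rw [← Al.act_mul_apply, mul_inv_cancel, Al.act_one_apply]
  have h1 : Al.act S g⁻¹ (Al.act S g a) = a := by
    rw [← Al.act_mul_apply, inv_mul_cancel, Al.act_one_apply]
  have h2 : Al.act S g⁻¹ a - a = -(Al.act S g⁻¹ (Al.act S g a - a)) := by
    rw [map_sub, h1, neg_sub]
  have h3 := hg.inD hE (Al.act S g⁻¹ (Al.act S g a - a))
  rw [h0] at h3
  rw [h2, B3_neg, ← h3]
  exact hg a ha

private theorem B3_pow (hE : ∀ r : ℝ, 0 < r → ∃ c : E, ‖c‖ = r) {W : MS S fun c => ‖c‖}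
    {g : G} (hg : InJ W g) (n : ℕ) : InJ W (g ^ n) := by
  induction n with
  | zero => rw [pow_zero]; exact B3_one W
  | succ n ih => rw [pow_succ]; exact B3_mul hE ih hg

private theorem B3_norm_nat (p : ℕ) [Fact p.Prime] [CharP E p] (l : ℕ) (hl : ¬ p ∣ l) :
    ‖(l : E)‖ = 1 := by
  have hp : p.Prime := Fact.out
  have h1 : ((l : ZMod p)) ≠ 0 := by
    rw [Ne, ZMod.natCast_eq_zero_iff]
    exact hl
  have h2 := congrArg (ZMod.castHom (dvd_refl p) E) (ZMod.pow_card_sub_one_eq_one h1)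
  rw [map_pow, map_natCast, map_one] at h2
  have h3 := congrArg norm h2
  rw [norm_pow, norm_one] at h3
  exact (pow_eq_one_iff_of_nonneg (norm_nonneg _) (by have := hp.two_le; omega)).1 h3

private theorem B3_no (p : ℕ) [Fact p.Prime] [CharP E p] (hE : ∀ r : ℝ, 0 < r → ∃ c : E, ‖c‖ = r)
    (W : MS S fun c => ‖c‖) (g : G) (hg : InJ W g) (l : ℕ) (hl : ¬ p ∣ l) (h1 : g ^ l = 1) :
    g = 1 := by
  obtain ⟨P, hP, hPW⟩ := MS_ideal W
  refine faithful_mod S P hP g fun a => ?_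
  by_contra hb
  rw [hPW] at hb
  set b := Al.act S g a - a with hbdef
  have h2 : ∑ i ∈ Finset.range l, Al.act S (g ^ i) b = 0 := by
    have h3 : ∀ i, Al.act S (g ^ i) b = Al.act S (g ^ (i + 1)) a - Al.act S (g ^ i) a := by
      intro i
      rw [hbdef, map_sub, pow_succ, Al.act_mul_apply]
    rw [Finset.sum_congr rfl fun i _ => h3 i,
      Finset.sum_range_sub (fun i => Al.act S (g ^ i) a) l, h1, pow_zero, sub_self]
  have h4 : Al.cst S (l : E) * b = ∑ i ∈ Finset.range l, (b - Al.act S (g ^ i) b) := by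
    rw [Finset.sum_sub_distrib, h2, sub_zero, Finset.sum_const, Finset.card_range, map_natCast,
      nsmul_eq_mul]
  have h5 : W.w (Al.cst S (l : E) * b) < W.w b := by
    rw [h4]
    refine B3_sum_lt W _ _ (lt_of_le_of_ne (W.nonneg b) (Ne.symm hb)) fun i _ => ?_
    rw [B3_sub_comm]
    exact (B3_pow hE hg i).lt hE b hb
  rw [B3_cst_mul, B3_norm_nat p l hl, one_mul] at h5
  exact lt_irrefl _ h5

theorem exists_J (p : ℕ) [Fact p.Prime] [CharP E p] (hE : ∀ r : ℝ, 0 < r → ∃ c : E, ‖c‖ = r)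
    (W : MS S fun c => ‖c‖) :
    ∃ J : Subgroup G, (∀ g, g ∈ J ↔ InJ W g) ∧ IsPGroup p J ∧
      ∀ d, InD W d → ∀ g ∈ J, d * g * d⁻¹ ∈ J := by
  refine ⟨{ carrier := {g | InJ W g}
            mul_mem' := fun hg hh => B3_mul hE hg hh
            one_mem' := B3_one W
            inv_mem' := fun hg => B3_inv hE hg }, fun g => Iff.rfl, ?_, ?_⟩
  · rintro ⟨g, hg⟩
    have hg' : InJ W g := hg
    have hord : orderOf g ≠ 0 := (orderOf_pos g).ne'
    have h1 : ∀ {d : ℕ}, d.Prime → d ∣ orderOf g → d = p := by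
      intro d hd hdg
      by_contra hne
      have hpd : ¬ p ∣ d := fun h => hne ((Nat.prime_dvd_prime_iff_eq Fact.out hd).1 h).symm
      obtain ⟨m, hm⟩ := hdg
      have hm0 : m ≠ 0 := by
        rintro rfl
        exact hord (by rw [hm, mul_zero])
      have h2 : (g ^ m) ^ d = 1 := by
        rw [← pow_mul, mul_comm m d, ← hm, pow_orderOf_eq_one]
      have h3 := B3_no p hE W (g ^ m) (B3_pow hE hg' m) d hpd h2
      have h4 : orderOf g ∣ m := orderOf_dvd_of_pow_eq_one h3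
      have h5 := Nat.le_of_dvd (Nat.pos_of_ne_zero hm0) h4
      rw [hm] at h5
      have h6 := hd.two_le
      nlinarith [Nat.pos_of_ne_zero hm0]
    have h7 := Nat.eq_prime_pow_of_unique_prime_dvd hord h1
    refine ⟨(orderOf g).primeFactorsList.length, ?_⟩
    apply Subtype.ext
    change g ^ (p ^ (orderOf g).primeFactorsList.length) = 1
    rw [← h7, pow_orderOf_eq_one]
  · intro d hd g hg
    have hg' : InJ W g := hg
    change InJ W (d * g * d⁻¹)
    intro a ha
    have h0 : Al.act S d (Al.act S d⁻¹ a) = a := by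
      rw [← Al.act_mul_apply, mul_inv_cancel, Al.act_one_apply]
    have h1 : Al.act S (d * g * d⁻¹) a - a =
        Al.act S d (Al.act S g (Al.act S d⁻¹ a) - Al.act S d⁻¹ a) := by
      rw [map_sub, h0, Al.act_mul_apply, Al.act_mul_apply]
    have h2 := hd (Al.act S d⁻¹ a)
    rw [h0] at h2
    rw [h1, hd]
    exact hg' _ (by rw [← h2]; exact ha)

end

end Pool.Agent.MP_1c8e06_ag.CY
end

section

set_option autoImplicit false

open Polynomial
open scoped Classical

namespace Pool.Agent.MP_1c8e06_ag.CY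

open Pool.Agent.MP_1c8e06_ag.AJ

noncomputable section

/-!
# TASK B4: if the wild inertia group is trivial there is a separating element

Write `w := W.w`; `b` is called integral if `w (act g b) ≤ 1` for all `g`.  `y : ℕ → E`, `‖y i‖ ≤ 1`, `‖y i - y j‖ = 1` (`i ≠ j`).
(1) For every `h ≠ 1` there is an integral `b` with `w (act h b - b) = 1`.
  Case `InD W h`: `¬ InJ W h` gives `a` with `w a ≤ 1`, `w (act h a - a) ≥ 1`, hence `= 1` (ultrametric, `w (act h a) = w a ≤ 1`).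
  `MS_crt` for `Y := {g | InD W g}`: `e` with `w (act g e - 1) = 0` if `InD W g`, `w (act g e) = 0` otherwise (`hY`: `InD` is a
  subgroup).  `b := a * e`: for `InD W g`: `w (act g b) = w (act g a) = w a ≤ 1` (`w (act g e) = 1`), otherwise
  `w (act g b) = 0`.  `act h b - b = (act h a - a) * act h e + a * (act h e - e)`, the first has value `1`, the second
  `0` (`w (act h e - 1) = 0 = w (e - 1)`).
  Case `¬ InD W h`: the same `e`: `b := e`: `w (act h e) = 0`, `w (e - 1) = 0`, so `w (act h e - e) = 1`; integral.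
(2) For `g ≠ g'` there is an integral `b` with `w (act g' b - act g b) = 1`: put `h := g' * g⁻¹ ≠ 1`, `b0` from (1),
  `b := act g⁻¹ b0`: `act g b = b0`, `act g' b = act h b0`.
(3) Let `I := {(g, g') : g ≠ g'}`, `m := card I`, enumerate it (`Fintype.equivFin` on the subtype), `b_i` from (2).
  `b(c) := ∑ i, cst (c ^ i) * b_i` with `c = y j`: integral.  For a pair `(g, g')` let `a_i := act g b_i - act g' b_i`: all
  `w (a_i) ≤ 1`, one of them `= 1`.  `f_j := ∑ i, cst ((y j) ^ i) * a_i`.  At most `m - 1` indices `j` have `w (f_j) < 1`: if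
  `w (f_{j_k}) < 1` for `m` distinct indices `j_1 .. j_m`, the Vandermonde matrix `V = (y_{j_k} ^ i)` has entries of norm `≤ 1` and
  determinant `∏ (y_{j_l} - y_{j_k})` of norm `1` (`Matrix.det_vandermonde`), so its inverse (adjugate / det) has entries of norm
  `≤ 1`, and `a_i = ∑_k cst (V⁻¹_{ik}) * f_{j_k}` would give `w (a_i) < 1` for all `i`.  Contradiction.  So among `m * m + 1`
  indices `j` (at most `m (m - 1)` bad ones) there is one which is good for all pairs in `I`.  (If `I` is empty, `b = 0` works.)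
  Alternative to (3): choose for each pair at most `m - 1` bad indices, the union of the bad sets is finite, `ℕ` is infinite.
-/

variable {E : Type} [NormedField E] [CompleteSpace E] [IsUltrametricDist E]
  {G : Type} [Group G] [Fintype G] {S : SC E G}

private theorem B4_neg (W : MS S fun c => ‖c‖) (a : Al S) : W.w (-a) = W.w a := by
  have h : -a = Al.cst S (-1) * a := by rw [map_neg, map_one, neg_one_mul]
  rw [h, W.mul, W.cst, norm_neg, norm_one, one_mul]

private theorem B4_sub (W : MS S fun c => ‖c‖) (a b : Al S) : W.w (a - b) ≤ max (W.w a) (W.w b) := by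
  rw [sub_eq_add_neg, ← B4_neg W b]
  exact W.add _ _

private theorem B4_add_eq (W : MS S fun c => ‖c‖) {a b : Al S} (h : W.w b < W.w a) :
    W.w (a + b) = W.w a := by
  refine le_antisymm ((W.add a b).trans (by rw [max_eq_left h.le])) ?_
  have h1 := B4_sub W (a + b) b
  rw [add_sub_cancel_right] at h1
  rcases le_max_iff.1 h1 with h2 | h2
  · exact h2
  · exact absurd h2 (not_le.2 h)

private theorem B4_zero (W : MS S fun c => ‖c‖) : W.w 0 = 0 := W.zero norm_zero

private theorem B4_sum_le (W : MS S fun c => ‖c‖) {ι : Type} (s : Finset ι) (f : ι → Al S)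
    (h : ∀ i ∈ s, W.w (f i) ≤ 1) : W.w (∑ i ∈ s, f i) ≤ 1 := by
  classical
  induction s using Finset.induction_on with
  | empty => rw [Finset.sum_empty, B4_zero]; exact zero_le_one
  | insert a s ha ih =>
    rw [Finset.sum_insert ha]
    exact (W.add _ _).trans (max_le (h _ (Finset.mem_insert_self _ _))
      (ih fun i hi => h i (Finset.mem_insert_of_mem hi)))

private theorem B4_sum_lt (W : MS S fun c => ‖c‖) {ι : Type} (s : Finset ι) (f : ι → Al S)
    (h : ∀ i ∈ s, W.w (f i) < 1) : W.w (∑ i ∈ s, f i) < 1 := by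
  classical
  induction s using Finset.induction_on with
  | empty => rw [Finset.sum_empty, B4_zero]; exact zero_lt_one
  | insert a s ha ih =>
    rw [Finset.sum_insert ha]
    exact (W.add _ _).trans_lt (max_lt (h _ (Finset.mem_insert_self _ _))
      (ih fun i hi => h i (Finset.mem_insert_of_mem hi)))

private theorem B4_one (hE : ∀ r : ℝ, 0 < r → ∃ c : E, ‖c‖ = r) (W : MS S fun c => ‖c‖)
    (hJ : ∀ g, InJ W g → g = 1) (h : G) (hh : h ≠ 1) :
    ∃ b : Al S, (∀ g, W.w (Al.act S g b) ≤ 1) ∧ W.w (Al.act S h b - b) = 1 := by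
  obtain ⟨e, he1, he2⟩ := MS_crt hE W {g | InD W g} (by
    intro d g hd
    constructor
    · intro hg a
      rw [Al.act_mul_apply, hd, hg]
    · intro hg a
      have h1 := hg a
      rw [Al.act_mul_apply, hd] at h1
      exact h1)
  have hD1 : InD W 1 := fun a => by rw [Al.act_one_apply]
  have hw1 : ∀ g, InD W g → W.w (Al.act S g e) = 1 := by
    intro g hg
    have h1 := B4_add_eq W (a := 1) (b := Al.act S g e - 1) (by
      rw [he1 g hg, W.one]; exact zero_lt_one)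
    rw [add_sub_cancel, W.one] at h1
    exact h1
  have he0 : W.w (e - 1) = 0 := by
    have h1 := he1 1 hD1
    rwa [Al.act_one_apply] at h1
  have hee : W.w e = 1 := by
    have h1 := hw1 1 hD1
    rwa [Al.act_one_apply] at h1
  by_cases hD : InD W h
  · have hnJ : ¬ InJ W h := fun h1 => hh (hJ h h1)
    unfold InJ at hnJ
    push Not at hnJ
    obtain ⟨a, ha1, ha2⟩ := hnJ
    refine ⟨a * e, fun g => ?_, ?_⟩
    · rw [map_mul, W.mul]
      by_cases hg : InD W g
      · rw [hw1 g hg, mul_one, hg]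
        exact ha1
      · rw [he2 g hg, mul_zero]
        exact zero_le_one
    · have h1 : Al.act S h (a * e) - a * e =
          (Al.act S h a - a) * Al.act S h e + a * (Al.act S h e - e) := by
        rw [map_mul]
        ring
      have h2 : W.w (Al.act S h a - a) = 1 := by
        refine le_antisymm ?_ ha2
        have h3 := B4_sub W (Al.act S h a) a
        rw [hD, max_self] at h3
        exact h3.trans ha1
      have h4 : W.w (Al.act S h e - e) = 0 := by
        have h5 := B4_sub W (Al.act S h e - 1) (e - 1)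
        rw [he1 h hD, he0, max_self] at h5
        refine le_antisymm ?_ (W.nonneg _)
        have h6 : Al.act S h e - 1 - (e - 1) = Al.act S h e - e := by ring
        rwa [h6] at h5
      rw [h1, B4_add_eq, W.mul, h2, hw1 h hD, mul_one]
      rw [W.mul, W.mul, h4, mul_zero, h2, hw1 h hD, mul_one]
      exact zero_lt_one
  · refine ⟨e, fun g => ?_, ?_⟩
    · by_cases hg : InD W g
      · rw [hw1 g hg]
      · rw [he2 g hg]
        exact zero_le_one
    · have h1 : Al.act S h e - e = -e + Al.act S h e := by ring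
      rw [h1, B4_add_eq, B4_neg, hee]
      rw [B4_neg, hee, he2 h hD]
      exact zero_lt_one

private theorem B4_two (hE : ∀ r : ℝ, 0 < r → ∃ c : E, ‖c‖ = r) (W : MS S fun c => ‖c‖)
    (hJ : ∀ g, InJ W g → g = 1) (g g' : G) (hg : g ≠ g') :
    ∃ b : Al S, (∀ k, W.w (Al.act S k b) ≤ 1) ∧ W.w (Al.act S g b - Al.act S g' b) = 1 := by
  obtain ⟨b, hb1, hb2⟩ := B4_one hE W hJ (g * g'⁻¹) (fun h => hg (mul_inv_eq_one.1 h))
  refine ⟨Al.act S g'⁻¹ b, fun k => ?_, ?_⟩
  · rw [← Al.act_mul_apply]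
    exact hb1 _
  · rw [← Al.act_mul_apply, ← Al.act_mul_apply, mul_inv_cancel, Al.act_one_apply]
    exact hb2

private theorem B4_det {n : ℕ} (M : Matrix (Fin n) (Fin n) E) (h : ∀ i j, ‖M i j‖ ≤ 1) :
    ‖M.det‖ ≤ 1 := by
  rw [Matrix.det_apply']
  refine IsUltrametricDist.norm_sum_le_of_forall_le_of_nonneg zero_le_one fun σ _ => ?_
  rw [norm_mul, norm_prod]
  have h1 : ‖(((Equiv.Perm.sign σ : ℤˣ) : ℤ) : E)‖ = 1 := by
    rcases Int.units_eq_one_or (Equiv.Perm.sign σ) with h2 | h2 <;> rw [h2] <;> simp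
  rw [h1, one_mul]
  exact Finset.prod_le_one (fun i _ => norm_nonneg _) fun i _ => h _ _

private theorem B4_vand (y : ℕ → E) (hy1 : ∀ i, ‖y i‖ ≤ 1)
    (hy2 : ∀ i j, i ≠ j → ‖y i - y j‖ = 1) (W : MS S fun c => ‖c‖) (n : ℕ) (a : Fin n → Al S)
    (i0 : Fin n) (h0 : W.w (a i0) = 1) :
    {j : ℕ | W.w (∑ i : Fin n, Al.cst S (y j ^ (i : ℕ)) * a i) < 1}.Finite := by
  by_contra hinf
  have hinf' : {j : ℕ | W.w (∑ i : Fin n, Al.cst S (y j ^ (i : ℕ)) * a i) < 1}.Infinite := hinf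
  let s : Fin n → ℕ := fun k => (hinf'.natEmbedding _ (k : ℕ) : ℕ)
  have hs : ∀ k, W.w (∑ i : Fin n, Al.cst S (y (s k) ^ (i : ℕ)) * a i) < 1 := fun k =>
    (hinf'.natEmbedding _ (k : ℕ)).2
  have hsi : Function.Injective s := by
    intro k k' hk
    have h1 := (hinf'.natEmbedding _).injective (Subtype.ext hk)
    exact Fin.ext h1
  let V : Matrix (Fin n) (Fin n) E := Matrix.vandermonde fun k => y (s k)
  have hV : ∀ k i, V k i = y (s k) ^ (i : ℕ) := fun k i => rfl
  have hdet : ‖V.det‖ = 1 := by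
    rw [Matrix.det_vandermonde, norm_prod]
    refine Finset.prod_eq_one fun i _ => ?_
    rw [norm_prod]
    refine Finset.prod_eq_one fun j hj => ?_
    refine hy2 _ _ fun h1 => ?_
    have h2 := hsi h1
    rw [h2] at hj
    exact absurd (Finset.mem_Ioi.1 hj) (lt_irrefl _)
  have hadj : ∀ i k, ‖V.adjugate i k‖ ≤ 1 := by
    intro i k
    rw [Matrix.adjugate_apply]
    refine B4_det _ fun i' j' => ?_
    rw [Matrix.updateRow_apply]
    split_ifs with h1
    · by_cases h2 : j' = i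
      · rw [h2, Pi.single_eq_same, norm_one]
      · rw [Pi.single_eq_of_ne h2, norm_zero]
        exact zero_le_one
    · rw [hV, norm_pow]
      exact pow_le_one₀ (norm_nonneg _) (hy1 _)
  have hkey : Al.cst S V.det * a i0 =
      ∑ k, Al.cst S (V.adjugate i0 k) * ∑ i : Fin n, Al.cst S (y (s k) ^ (i : ℕ)) * a i := by
    have h1 : ∀ i' : Fin n, ∑ k, V.adjugate i0 k * y (s k) ^ (i' : ℕ) =
        if i0 = i' then V.det else 0 := by
      intro i'
      have h2 := congrFun (congrFun (Matrix.adjugate_mul V) i0) i'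
      rw [Matrix.mul_apply, Matrix.smul_apply, Matrix.one_apply, smul_eq_mul, mul_ite, mul_one,
        mul_zero] at h2
      exact h2
    simp only [Finset.mul_sum]
    rw [Finset.sum_comm]
    have h3 : ∀ i' : Fin n,
        ∑ k, Al.cst S (V.adjugate i0 k) * (Al.cst S (y (s k) ^ (i' : ℕ)) * a i') =
        Al.cst S (if i0 = i' then V.det else 0) * a i' := by
      intro i'
      rw [← h1 i', map_sum, Finset.sum_mul]
      refine Finset.sum_congr rfl fun k _ => ?_
      rw [map_mul, mul_assoc]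
    simp only [h3]
    rw [Finset.sum_eq_single i0]
    · rw [if_pos rfl]
    · intro b _ hb
      rw [if_neg (Ne.symm hb), map_zero, zero_mul]
    · intro hb
      exact absurd (Finset.mem_univ _) hb
  have h4 : W.w (Al.cst S V.det * a i0) = 1 := by
    rw [W.mul, W.cst, h0, mul_one]
    exact hdet
  have h5 : W.w (Al.cst S V.det * a i0) < 1 := by
    rw [hkey]
    refine B4_sum_lt W _ _ fun k _ => ?_
    rw [W.mul, W.cst]
    exact (mul_le_of_le_one_left (W.nonneg _) (hadj i0 k)).trans_lt (hs k)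
  exact absurd h4 h5.ne

theorem exists_Sepb (hE : ∀ r : ℝ, 0 < r → ∃ c : E, ‖c‖ = r) (y : ℕ → E) (hy1 : ∀ i, ‖y i‖ ≤ 1)
    (hy2 : ∀ i j, i ≠ j → ‖y i - y j‖ = 1) (W : MS S fun c => ‖c‖) (hJ : ∀ g, InJ W g → g = 1) :
    ∃ b : Al S, Sepb W b := by
  classical
  have h2 : ∀ p : {p : G × G // p.1 ≠ p.2}, ∃ b : Al S, (∀ k, W.w (Al.act S k b) ≤ 1) ∧
      W.w (Al.act S p.1.1 b - Al.act S p.1.2 b) = 1 := fun p =>
    B4_two hE W hJ p.1.1 p.1.2 p.2
  choose b hb1 hb2 using h2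
  let n := Fintype.card {p : G × G // p.1 ≠ p.2}
  let e : {p : G × G // p.1 ≠ p.2} ≃ Fin n := Fintype.equivFin _
  have hact : ∀ (g : G) (c : E), Al.act S g (∑ i : Fin n, Al.cst S (c ^ (i : ℕ)) * b (e.symm i)) =
      ∑ i : Fin n, Al.cst S (c ^ (i : ℕ)) * Al.act S g (b (e.symm i)) := by
    intro g c
    rw [map_sum]
    refine Finset.sum_congr rfl fun i _ => ?_
    rw [map_mul, Al.act_cst]
  have hfin : (⋃ p : {p : G × G // p.1 ≠ p.2}, {j : ℕ | W.w (∑ i : Fin n, Al.cst S (y j ^ (i : ℕ)) *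
      (Al.act S p.1.1 (b (e.symm i)) - Al.act S p.1.2 (b (e.symm i)))) < 1}).Finite := by
    refine Set.finite_iUnion fun p => ?_
    refine B4_vand y hy1 hy2 W n _ (e p) ?_
    rw [Equiv.symm_apply_apply]
    exact hb2 p
  obtain ⟨j, hj⟩ := hfin.infinite_compl.nonempty
  rw [Set.mem_compl_iff, Set.mem_iUnion] at hj
  push Not at hj
  have hle : ∀ (i : Fin n) (x : Al S), W.w x ≤ 1 → W.w (Al.cst S (y j ^ (i : ℕ)) * x) ≤ 1 := by
    intro i x hx
    rw [W.mul, W.cst]
    refine mul_le_one₀ ?_ (W.nonneg _) hx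
    show ‖y j ^ (i : ℕ)‖ ≤ 1
    rw [norm_pow]
    exact pow_le_one₀ (norm_nonneg _) (hy1 _)
  refine ⟨∑ i : Fin n, Al.cst S (y j ^ (i : ℕ)) * b (e.symm i), fun g => ?_, fun g g' hg => ?_⟩
  · rw [hact]
    exact B4_sum_le W _ _ fun i _ => hle i _ (hb1 _ _)
  · have h3 : 1 ≤ W.w (∑ i : Fin n, Al.cst S (y j ^ (i : ℕ)) *
        (Al.act S g (b (e.symm i)) - Al.act S g' (b (e.symm i)))) :=
      le_of_not_gt fun h5 => hj ⟨(g, g'), hg⟩ h5
    have h4 : Al.act S g (∑ i : Fin n, Al.cst S (y j ^ (i : ℕ)) * b (e.symm i)) -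
        Al.act S g' (∑ i : Fin n, Al.cst S (y j ^ (i : ℕ)) * b (e.symm i)) =
        ∑ i : Fin n, Al.cst S (y j ^ (i : ℕ)) *
          (Al.act S g (b (e.symm i)) - Al.act S g' (b (e.symm i))) := by
      rw [hact, hact, ← Finset.sum_sub_distrib]
      refine Finset.sum_congr rfl fun i _ => ?_
      rw [mul_sub]
    rw [h4]
    refine le_antisymm (B4_sum_le W _ _ fun i _ => hle i _ ?_) h3
    exact (B4_sub W _ _).trans (max_le (hb1 _ _) (hb1 _ _))

end

end Pool.Agent.MP_1c8e06_ag.CY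
end

section

set_option autoImplicit false

open Polynomial
open scoped Classical

namespace Pool.Agent.MP_1c8e06_ag.CY

open Pool.Agent.MP_1c8e06_ag.AJ

noncomputable section

/-!
# TASK W5: elements of the formal neighbourhood of `0` and their values

`W0` is a black box.  `A0 := Al (D.S.map (lz K))`, `D.R0 : A0 →+* EE p (C t * X)` (`WDefs`: `extR_apply`, `extR_cst`,
`extR_mapA`): `D.R0 (cst a) = ofL a`, `D.R0 (mapA a) = D.r0 a`.
* `R0_act`: both sides are ring homomorphisms in `a` (`Al.hom_ext`): on `cst c`: `Al.act_cst`, `AI.tau_ofL`; on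
  `e l = mapA (e l)` (`Al.mapA_e`): `Al.mapA_act`, `D.r0_x`.  `R0_act_pow`: induction.
* `VAL_inj`: `a m = tA (a * bs m)` (`coord`); `ofL (tA y) = R0 (cst (tA y)) = ∑ g, R0 (act g y)` (`cst_tA`), which is `0`
  for `y = a * bs m`; `AI.ofL_injective`.
* `VAL_surj`: for `m : G` the element `z m := ∑ g, Φ g * R0 (act g (bs m))` is fixed by `tau` (the terms are permuted by
  `g ↦ x g`: `tau (Φ g * R0 (act g _)) = Φ (x g) * R0 (act (x g) _)`), so `z m = ofL (c m)` (`AI.tau_fixed`).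
  `a := ∑ m, cst (c m) * e m`.  `R0 (act g' a) = ∑ m, z m * R0 (act g' (e m))
  = ∑ g, Φ g * R0 (act g (∑ m, bs m * act (g⁻¹ g') (e m)))` and the inner sum is `1` for `g = g'`, `0` otherwise
  (`sum_act_e_bs`, for `D.S.map (lz K)`).
-/

variable {p : ℕ} [Fact p.Prime] {K : Type} [Field K] [CharP K p] {G : Type} [Group G] [Fintype G]
  {x : G} {t : K} (D : TPw p x t)

theorem R0_act (a : Al (D.S.map (lz K))) :
    D.R0 (Al.act (D.S.map (lz K)) x a) = AI.tau p (C t * X : K[X]) (D.R0 a) := by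
  have h : D.R0.comp (Al.act (D.S.map (lz K)) x) = (AI.tau p (C t * X : K[X])).comp D.R0 := by
    refine Al.hom_ext _ (fun b => ?_) (fun l => ?_)
    · rw [RingHom.comp_apply, RingHom.comp_apply, Al.act_cst, TPw.R0, extR_cst, AI.tau_ofL]
    · rw [RingHom.comp_apply, RingHom.comp_apply, ← Al.mapA_e, ← Al.mapA_act, TPw.R0, extR_mapA,
        extR_mapA, D.r0_x]
  exact congrArg (fun f : Al (D.S.map (lz K)) →+* AI.EE p (C t * X : K[X]) => f a) h

private theorem W5_R0_cst (c : LaurentSeries K) :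
    D.R0 (Al.cst (D.S.map (lz K)) c) = AI.ofL p (C t * X : K[X]) c := by
  rw [TPw.R0, extR_cst]

theorem R0_act_pow (j : ℕ) (a : Al (D.S.map (lz K))) :
    D.R0 (Al.act (D.S.map (lz K)) (x ^ j) a) = (AI.tau p (C t * X : K[X]))^[j] (D.R0 a) := by
  induction j with
  | zero => rw [pow_zero, Al.act_one_apply, Function.iterate_zero_apply]
  | succ j ih =>
    rw [pow_succ', Al.act_mul_apply, R0_act D, ih, Function.iterate_succ_apply']

theorem VAL_inj (a : Al (D.S.map (lz K))) (h : ∀ g, D.R0 (Al.act (D.S.map (lz K)) g a) = 0) :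
    a = 0 := by
  refine Al.ext fun m => ?_
  rw [coord _ a m, Al.zero_apply]
  apply AI.ofL_injective (p := p) (F := (C t * X : K[X]))
  rw [map_zero, ← W5_R0_cst D, cst_tA, map_sum]
  refine Finset.sum_eq_zero fun g _ => ?_
  rw [map_mul, map_mul, h, zero_mul]

theorem VAL_surj (Φ : G → AI.EE p (C t * X : K[X]))
    (hΦ : ∀ g, Φ (x * g) = AI.tau p (C t * X : K[X]) (Φ g)) :
    ∃ a : Al (D.S.map (lz K)), ∀ g, D.R0 (Al.act (D.S.map (lz K)) g a) = Φ g := by
  have h1 : ∀ m : G, ∃ c : LaurentSeries K,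
      ∑ g, Φ g * D.R0 (Al.act (D.S.map (lz K)) g (bs (D.S.map (lz K)) m)) =
        AI.ofL p (C t * X : K[X]) c := by
    intro m
    refine AI.tau_fixed _ ?_
    rw [map_sum, ← Equiv.sum_comp (Equiv.mulLeft x)
      (fun g => Φ g * D.R0 (Al.act (D.S.map (lz K)) g (bs (D.S.map (lz K)) m)))]
    refine Finset.sum_congr rfl fun g _ => ?_
    rw [map_mul, Equiv.coe_mulLeft, hΦ, Al.act_mul_apply, R0_act D]
  choose c hc using h1
  refine ⟨∑ m, Al.cst (D.S.map (lz K)) (c m) * Al.e (D.S.map (lz K)) m, fun g' => ?_⟩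
  have h2 : ∀ g : G, ∑ m, Al.act (D.S.map (lz K)) g (bs (D.S.map (lz K)) m) *
      Al.act (D.S.map (lz K)) g' (Al.e (D.S.map (lz K)) m) = if g = g' then 1 else 0 := by
    intro g
    have h3 := congrArg (Al.act (D.S.map (lz K)) g) (sum_act_e_bs (D.S.map (lz K)) (g⁻¹ * g'))
    rw [map_sum] at h3
    have h4 : ∑ m, Al.act (D.S.map (lz K)) g (bs (D.S.map (lz K)) m) *
        Al.act (D.S.map (lz K)) g' (Al.e (D.S.map (lz K)) m) =
        ∑ m, Al.act (D.S.map (lz K)) g (Al.act (D.S.map (lz K)) (g⁻¹ * g')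
          (Al.e (D.S.map (lz K)) m) * bs (D.S.map (lz K)) m) := by
      refine Finset.sum_congr rfl fun m _ => ?_
      rw [map_mul, ← Al.act_mul_apply, mul_inv_cancel_left, mul_comm]
    rw [h4, h3]
    by_cases h5 : g = g'
    · rw [if_pos h5, if_pos (by rw [h5, inv_mul_cancel]), map_one]
    · rw [if_neg h5, if_neg (fun h6 => h5 (inv_mul_eq_one.1 h6)), map_zero]
  rw [map_sum, map_sum]
  calc ∑ m, D.R0 (Al.act (D.S.map (lz K)) g' (Al.cst (D.S.map (lz K)) (c m) *
          Al.e (D.S.map (lz K)) m))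
      = ∑ m, ∑ g, Φ g * (D.R0 (Al.act (D.S.map (lz K)) g (bs (D.S.map (lz K)) m) *
          Al.act (D.S.map (lz K)) g' (Al.e (D.S.map (lz K)) m))) := by
        refine Finset.sum_congr rfl fun m _ => ?_
        rw [map_mul, map_mul, Al.act_cst, W5_R0_cst, ← hc, Finset.sum_mul]
        refine Finset.sum_congr rfl fun g _ => ?_
        rw [map_mul, mul_assoc]
    _ = ∑ g, Φ g * D.R0 (if g = g' then 1 else 0) := by
        rw [Finset.sum_comm]
        refine Finset.sum_congr rfl fun g _ => ?_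
        rw [← h2 g, map_sum, Finset.mul_sum]
    _ = Φ g' := by
        rw [Finset.sum_eq_single g']
        · rw [if_pos rfl, map_one, mul_one]
        · intro g _ hg
          rw [if_neg hg, map_zero, mul_zero]
        · intro h
          exact absurd (Finset.mem_univ g') h

end

end Pool.Agent.MP_1c8e06_ag.CY
end

section

set_option autoImplicit false

open Polynomial
open scoped Classical

namespace Pool.Agent.MP_1c8e06_ag.CY

open Pool.Agent.MP_1c8e06_ag.AJ

noncomputable section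

set_option linter.unusedSectionVars false

/-!
# TASK W4: convergent Laurent series and bounded elements of `EE p F`

`LB r a C : ∀ n : ℤ, ‖a.coeff n‖ * r ^ n ≤ C`; black boxes in `O3`: `LB.add`, `LB.mul`, `LB.neg`, `LB.exists_smaller`, `lz_iso`;
`W2.lz_coeff`.
* `LB_lz`: finitely many coefficients (or `lz_iso` with `C = (gp 0 r).v (jF f)`).
* `Cv_*`: `LB.add`, `LB.mul` at the smaller of the two radii (`LB.exists_smaller`).  `Cv_zero`, `Cv_sum` by induction.
* `exists_common`: finitely many convergent series have a common radius, for every smaller `r` (the `C` may be enlarged to be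
  `≥ 0` and common: maximum over the finite type).
* `coordE` API: `AI/A0.lean` (`AI.coordE_add`, `AI.coordE_sum`, `AI.coordE_ofL_mul`, `AI.coordE_of_le`, `AI.eq_sum_coordE`,
  `AI.coordE_sum_yy`, `AI.coordE_ofL`, `AI.extE`; namespace `AI`), `AI.yy_pow`, and `AI.A5_coordE_yy_pow`.
* `BdE_mul`: `F = C t * X`, `y := yy p F`, `y ^ p = y + ofL (zinv F)` with `zinv F = C t * single (-1) 1`, so
  `LB r (zinv F) (‖t‖ / r)`, `1 ≤ ‖t‖ / r`.  `u = ∑_{i<p} ofL (u_i) y^i`, `v = ∑_{j<p} ofL (v_j) y^j` with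
  `u_i = coordE u i`.  `u v = ∑ ofL(u_i v_j) y^(i+j)` and for `i + j ≥ p`
  `y^(i+j) = y^(i+j-p+1) + ofL (zinv F) y^(i+j-p)`, with `i + j - p + 1 ≤ p - 1`.  So all coordinates of `y^(i+j)` are `0`, `1` or
  `zinv F` (or their sum never occurs), i.e. `BdE r (‖t‖/r)`.  Then `BdE_ofL_mul` and `BdE_add` (sums).
-/

variable {Om : Type} [NormedField Om] [CompleteSpace Om] [IsUltrametricDist Om] [IsAlgClosed Om]

theorem LB_lz (r : ℝ) (f : Lam Om) : ∃ C, LB r (lz Om f) C := by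
  refine ⟨∑ n ∈ f.coeff.support, |‖f.coeff n‖ * r ^ n|, fun n => ?_⟩
  rw [lz_coeff]
  by_cases hn : n ∈ f.coeff.support
  · exact (le_abs_self _).trans (Finset.single_le_sum (f := fun n => |‖f.coeff n‖ * r ^ n|)
      (fun _ _ => abs_nonneg _) hn)
  · rw [Finsupp.notMem_support_iff.1 hn, norm_zero, zero_mul]
    exact Finset.sum_nonneg fun _ _ => abs_nonneg _

omit [CompleteSpace Om] [IsUltrametricDist Om] [IsAlgClosed Om] in
private theorem W4_LB_mono {r C C' : ℝ} {a : LaurentSeries Om} (h : LB r a C) (hC : C ≤ C') :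
    LB r a C' := fun n => (h n).trans hC

omit [CompleteSpace Om] [IsUltrametricDist Om] [IsAlgClosed Om] in
private theorem W4_LB_zero {r C : ℝ} (hC : 0 ≤ C) : LB r (0 : LaurentSeries Om) C := fun n => by
  rw [HahnSeries.coeff_zero, norm_zero, zero_mul]
  exact hC

private theorem W4_LB_sum {r C : ℝ} (hr : 0 < r) (hC : 0 ≤ C) {ι : Type} (s : Finset ι)
    (f : ι → LaurentSeries Om) (h : ∀ i ∈ s, LB r (f i) C) : LB r (∑ i ∈ s, f i) C := by
  induction s using Finset.induction_on with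
  | empty =>
    rw [Finset.sum_empty]
    exact W4_LB_zero hC
  | insert a s ha ih =>
    rw [Finset.sum_insert ha]
    exact LB.add hr (h a (Finset.mem_insert_self a s))
      (ih fun i hi => h i (Finset.mem_insert_of_mem hi))

/-- Convergence at all small radii. -/
private theorem W4_Cv_small {a : LaurentSeries Om} (ha : Cv a) :
    ∃ ρ : ℝ, 0 < ρ ∧ ∀ r, 0 < r → r ≤ ρ → ∃ C, 0 ≤ C ∧ LB r a C := by
  obtain ⟨ρ, hρ, C, hC⟩ := ha
  refine ⟨ρ, hρ, fun r hr hrρ => ?_⟩
  obtain ⟨C', hC'⟩ := LB.exists_smaller hr hrρ hC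
  exact ⟨max 0 C', le_max_left _ _, W4_LB_mono hC' (le_max_right _ _)⟩

theorem Cv_zero : Cv (0 : LaurentSeries Om) := ⟨1, one_pos, 0, W4_LB_zero le_rfl⟩

theorem Cv_add {a b : LaurentSeries Om} (ha : Cv a) (hb : Cv b) : Cv (a + b) := by
  obtain ⟨ρ, hρ, h1⟩ := W4_Cv_small ha
  obtain ⟨σ, hσ, h2⟩ := W4_Cv_small hb
  have hr : 0 < min ρ σ := lt_min hρ hσ
  obtain ⟨C, hC, h3⟩ := h1 _ hr (min_le_left _ _)
  obtain ⟨C', hC', h4⟩ := h2 _ hr (min_le_right _ _)
  exact ⟨min ρ σ, hr, max C C', LB.add hr (W4_LB_mono h3 (le_max_left _ _))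
    (W4_LB_mono h4 (le_max_right _ _))⟩

theorem Cv_mul {a b : LaurentSeries Om} (ha : Cv a) (hb : Cv b) : Cv (a * b) := by
  obtain ⟨ρ, hρ, h1⟩ := W4_Cv_small ha
  obtain ⟨σ, hσ, h2⟩ := W4_Cv_small hb
  have hr : 0 < min ρ σ := lt_min hρ hσ
  obtain ⟨C, hC, h3⟩ := h1 _ hr (min_le_left _ _)
  obtain ⟨C', hC', h4⟩ := h2 _ hr (min_le_right _ _)
  exact ⟨min ρ σ, hr, C * C', LB.mul hr h3 h4 hC hC'⟩

theorem Cv_lz (f : Lam Om) : Cv (lz Om f) := ⟨1, one_pos, LB_lz 1 f⟩

theorem Cv_sum {ι : Type} (s : Finset ι) (f : ι → LaurentSeries Om) (h : ∀ i ∈ s, Cv (f i)) :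
    Cv (∑ i ∈ s, f i) := by
  induction s using Finset.induction_on with
  | empty =>
    rw [Finset.sum_empty]
    exact Cv_zero
  | insert a s ha ih =>
    rw [Finset.sum_insert ha]
    exact Cv_add (h a (Finset.mem_insert_self a s))
      (ih fun i hi => h i (Finset.mem_insert_of_mem hi))

/-- Finitely many convergent series have a common radius of convergence. -/
theorem exists_common {ι : Type} [Finite ι] (f : ι → LaurentSeries Om) (h : ∀ i, Cv (f i)) :
    ∃ ρ : ℝ, 0 < ρ ∧ ∀ r, 0 < r → r ≤ ρ → ∃ C, 0 ≤ C ∧ ∀ i, LB r (f i) C := by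
  cases nonempty_fintype ι
  have h1 : ∀ s : Finset ι, ∃ ρ : ℝ, 0 < ρ ∧ ∀ r, 0 < r → r ≤ ρ →
      ∃ C, 0 ≤ C ∧ ∀ i ∈ s, LB r (f i) C := by
    intro s
    induction s using Finset.induction_on with
    | empty => exact ⟨1, one_pos, fun r _ _ => ⟨0, le_rfl, fun i hi => absurd hi (Finset.notMem_empty i)⟩⟩
    | insert a s ha ih =>
      obtain ⟨ρ, hρ, h1⟩ := ih
      obtain ⟨σ, hσ, h2⟩ := W4_Cv_small (h a)
      refine ⟨min ρ σ, lt_min hρ hσ, fun r hr hrm => ?_⟩
      obtain ⟨C, hC, h3⟩ := h1 r hr (hrm.trans (min_le_left _ _))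
      obtain ⟨C', hC', h4⟩ := h2 r hr (hrm.trans (min_le_right _ _))
      refine ⟨max C C', le_max_of_le_left hC, fun i hi => ?_⟩
      rcases Finset.mem_insert.1 hi with rfl | hi
      · exact W4_LB_mono h4 (le_max_right _ _)
      · exact W4_LB_mono (h3 i hi) (le_max_left _ _)
  obtain ⟨ρ, hρ, h2⟩ := h1 Finset.univ
  refine ⟨ρ, hρ, fun r hr hrρ => ?_⟩
  obtain ⟨C, hC, h3⟩ := h2 r hr hrρ
  exact ⟨C, hC, fun i => h3 i (Finset.mem_univ i)⟩

theorem BdE_add (p : ℕ) [Fact p.Prime] {F : Om[X]} {r C : ℝ} {y z : AI.EE p F} (hr : 0 < r)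
    (hy : BdE p r C y) (hz : BdE p r C z) : BdE p r C (y + z) := fun j => by
  rw [AI.coordE_add]
  exact LB.add hr (hy j) (hz j)

private theorem W4_BdE_zero (p : ℕ) [Fact p.Prime] {F : Om[X]} {r C : ℝ} (hC : 0 ≤ C) :
    BdE p r C (0 : AI.EE p F) := fun j => by
  rw [AI.coordE_zero]
  exact W4_LB_zero hC

private theorem W4_BdE_sum (p : ℕ) [Fact p.Prime] {F : Om[X]} {r C : ℝ} (hr : 0 < r) (hC : 0 ≤ C)
    {ι : Type} (s : Finset ι) (f : ι → AI.EE p F) (h : ∀ i ∈ s, BdE p r C (f i)) :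
    BdE p r C (∑ i ∈ s, f i) := by
  induction s using Finset.induction_on with
  | empty =>
    rw [Finset.sum_empty]
    exact W4_BdE_zero p hC
  | insert a s ha ih =>
    rw [Finset.sum_insert ha]
    exact BdE_add p hr (h a (Finset.mem_insert_self a s))
      (ih fun i hi => h i (Finset.mem_insert_of_mem hi))

theorem BdE_ofL (p : ℕ) [Fact p.Prime] {F : Om[X]} {r C : ℝ} (hC : 0 ≤ C) {a : LaurentSeries Om}
    (ha : LB r a C) : BdE p r C (AI.ofL p F a) := fun j => by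
  rw [AI.coordE_ofL]
  split_ifs
  · exact ha
  · exact W4_LB_zero hC

/-- Multiplication by a Laurent series. -/
theorem BdE_ofL_mul (p : ℕ) [Fact p.Prime] {F : Om[X]} {r C C' : ℝ} (hr : 0 < r) (hC : 0 ≤ C)
    (hC' : 0 ≤ C') {a : LaurentSeries Om} {z : AI.EE p F} (ha : LB r a C) (hz : BdE p r C' z) :
    BdE p r (C * C') (AI.ofL p F a * z) := fun j => by
  rw [AI.coordE_ofL_mul]
  exact LB.mul hr ha (hz j) hC hC'

omit [CompleteSpace Om] [IsUltrametricDist Om] [IsAlgClosed Om] in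
private theorem W4_coordE_yy_pow (p : ℕ) [Fact p.Prime] {F : Om[X]} {k : ℕ} (hk : k < p) (j : ℕ) :
    AI.coordE p F (AI.yy p F ^ k) j = if j = k then 1 else 0 := by
  by_cases hj : j < p
  · have h := AI.coordE_sum_yy (p := p) (F := F)
      (fun i => if i = k then (1 : LaurentSeries Om) else 0) hj
    rw [Finset.sum_eq_single k] at h
    · rw [if_pos rfl, map_one, one_mul] at h
      exact h
    · intro i _ hi
      rw [if_neg hi, map_zero, zero_mul]
    · intro h1
      exact absurd (Finset.mem_range.2 hk) h1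
  · rw [AI.coordE_of_le _ (not_lt.1 hj), if_neg]
    omega

omit [CompleteSpace Om] [IsUltrametricDist Om] [IsAlgClosed Om] in
private theorem W4_LB_single {r : ℝ} (n : ℤ) (c : Om) {C : ℝ} (hC : 0 ≤ C)
    (h : ‖c‖ * r ^ n ≤ C) : LB r (HahnSeries.single n c : LaurentSeries Om) C := fun m => by
  by_cases hm : m = n
  · rw [hm, HahnSeries.coeff_single_same]
    exact h
  · rw [HahnSeries.coeff_single_of_ne hm, norm_zero, zero_mul]
    exact hC

omit [CompleteSpace Om] [IsUltrametricDist Om] [IsAlgClosed Om] in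
private theorem W4_LB_one {r : ℝ} {C : ℝ} (hC : 1 ≤ C) : LB r (1 : LaurentSeries Om) C := by
  have h : (1 : LaurentSeries Om) = HahnSeries.single (0 : ℤ) (1 : Om) := rfl
  rw [h]
  refine W4_LB_single 0 1 (zero_le_one.trans hC) ?_
  rw [norm_one, one_mul, zpow_zero]
  exact hC

omit [CompleteSpace Om] [IsUltrametricDist Om] [IsAlgClosed Om] in
private theorem W4_BdE_yy (p : ℕ) [Fact p.Prime] {F : Om[X]} {r C : ℝ} (hC : 1 ≤ C) {k : ℕ}
    (hk : k < p) : BdE p r C (AI.yy p F ^ k) := fun j => by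
  rw [W4_coordE_yy_pow p hk]
  split_ifs
  · exact W4_LB_one hC
  · exact W4_LB_zero (zero_le_one.trans hC)

private theorem W4_BdE_yy2 (p : ℕ) [Fact p.Prime] {t : Om} {r : ℝ} (hr : 0 < r) (hrt : r ≤ ‖t‖)
    {k : ℕ} (hk : k < p + p - 1) :
    BdE p r (‖t‖ / r) (AI.yy p (Polynomial.C t * X : Om[X]) ^ k) := by
  have h1 : 1 ≤ ‖t‖ / r := (one_le_div hr).2 hrt
  by_cases hkp : k < p
  · exact W4_BdE_yy p h1 hkp
  · obtain ⟨m, rfl⟩ : ∃ m, k = p + m := ⟨k - p, by omega⟩
    have h2 : AI.yy p (Polynomial.C t * X : Om[X]) ^ (p + m) =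
        AI.yy p (Polynomial.C t * X : Om[X]) ^ (m + 1) +
          AI.ofL p (Polynomial.C t * X : Om[X]) (AI.zinv Om (Polynomial.C t * X : Om[X])) *
            AI.yy p (Polynomial.C t * X : Om[X]) ^ m := by
      rw [pow_add, AI.yy_pow_eq, AI.ze_apply]
      ring
    rw [h2]
    refine BdE_add p hr (W4_BdE_yy p h1 (by omega)) ?_
    have h3 : AI.zinv Om (Polynomial.C t * X : Om[X]) = HahnSeries.single (-1 : ℤ) t := by
      rw [map_mul, AI.zinv_X, AI.zinv_C, HahnSeries.C_apply, HahnSeries.single_mul_single]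
      simp
    have h4 : LB r (AI.zinv Om (Polynomial.C t * X : Om[X])) (‖t‖ / r) := by
      rw [h3]
      refine W4_LB_single _ _ (zero_le_one.trans h1) ?_
      rw [zpow_neg_one, div_eq_mul_inv]
    have h5 := BdE_ofL_mul p hr (zero_le_one.trans h1) zero_le_one h4
      (W4_BdE_yy p (F := (Polynomial.C t * X : Om[X])) (r := r) le_rfl (k := m) (by omega))
    rwa [mul_one] at h5

theorem BdE_mul (p : ℕ) [Fact p.Prime] {t : Om} {r C C' : ℝ} (hr : 0 < r) (hrt : r ≤ ‖t‖) (hC : 0 ≤ C)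
    (hC' : 0 ≤ C') {y z : AI.EE p (Polynomial.C t * X : Om[X])} (hy : BdE p r C y) (hz : BdE p r C' z) :
    BdE p r (C * C' * (‖t‖ / r)) (y * z) := by
  have h1 : 1 ≤ ‖t‖ / r := (one_le_div hr).2 hrt
  have h0 : 0 ≤ ‖t‖ / r := zero_le_one.trans h1
  have hp : 0 < p := (Fact.out : p.Prime).pos
  have h2 : y * z = ∑ i ∈ Finset.range p, ∑ j ∈ Finset.range p,
      AI.ofL p (Polynomial.C t * X : Om[X]) (AI.coordE p _ y i * AI.coordE p _ z j) *
        AI.yy p (Polynomial.C t * X : Om[X]) ^ (i + j) := by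
    conv_lhs => rw [AI.eq_sum_coordE y, AI.eq_sum_coordE z, Finset.sum_mul_sum]
    refine Finset.sum_congr rfl fun i _ => Finset.sum_congr rfl fun j _ => ?_
    rw [map_mul, pow_add]
    ring
  rw [h2]
  have h3 : 0 ≤ C * C' * (‖t‖ / r) := mul_nonneg (mul_nonneg hC hC') h0
  refine W4_BdE_sum p hr h3 _ _ fun i hi => W4_BdE_sum p hr h3 _ _ fun j hj => ?_
  rw [Finset.mem_range] at hi hj
  exact BdE_ofL_mul p hr (mul_nonneg hC hC') h0 (LB.mul hr (hy i) (hz j) hC hC')
    (W4_BdE_yy2 p hr hrt (by omega))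

end

end Pool.Agent.MP_1c8e06_ag.CY
end

section

set_option autoImplicit false

open Polynomial
open scoped Classical

namespace Pool.Agent.MP_1c8e06_ag.CY

open Pool.Agent.MP_1c8e06_ag.AJ

noncomputable section

/-!
# TASK B6: the idempotent of a wild Galois algebra over a complete field

`NI S N ε` (`CY/Defs`): `act n ε = ε` for `n ∈ N`, `ε * ε = ε`, `ε * act h ε = 0` for `h ∉ N`, `∑ q : G ⧸ N, act q.out ε = 1`.
`SEH p N`: every `p`-subgroup `J ≠ ⊥` of `G` has a `g` with `g⁻¹ a g ∈ N` for all `a ∈ J`, unique up to `g N`.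
`hJ`: for every `W` some `g ≠ 1` satisfies `InJ W g`.  Fix `W` (exists: `exists_MS` for some maximal ideal of the nontrivial ring
`Al S`; nontrivial since `cst` is injective).  `J` from `exists_J`: nontrivial `p`-subgroup.  `w := W.w`.
UNIQUENESS `NI_unique`.  (a) Let `NI ε`.  For all `g`: `w (act g ε) ∈ {0, 1}` and more precisely `w (act g ε) = 0` or
`w (act g ε - 1) = 0` (`act g ε * (act g ε - 1) = 0`).  `T := {g | w (act g ε - 1) = 0}` is nonempty (apply `act g` to
`∑ q, act q.out ε = 1` : not all `w (act (q.out) ε)` vanish) and if `g, g' ∈ T` then `g⁻¹ g' ∈ N` (else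
`act g (ε * act (g⁻¹ g') ε) = 0`), and `T N = T`.  So `T = g1 N`.
(b) if `InD W d` then `d g ∈ T ↔ g ∈ T` (`w (act (d g) ε - 1) = w (act d (act g ε - 1)) = w (act g ε - 1)`), so for `a ∈ J`:
`a g1 ∈ T`, `g1⁻¹ a g1 ∈ N` (`InJ.inD`).  By `SEH` the coset `g1 N` is determined by `J`: for two elements `ε`, `ε'` with `NI`:
`T = T'`.
(c) hence `w (act g (ε - ε')) = 0` for all `g` and `ε = ε'` (`MS_zero`).
EXISTENCE `NI_exists`.  `g1` from `SEH` for `J`.  `Y := {g | g1⁻¹ * g ∈ N} = g1 N`.  For `InD W d`: `d Y = Y`: `d⁻¹ J d = J`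
(`exists_J`, conjugation, `InD W d⁻¹`), so for `a ∈ J`: `(d g1)⁻¹ a (d g1) = g1⁻¹ (d⁻¹ a d) g1 ∈ N`, so `g1⁻¹ d g1 ∈ N` by the
uniqueness in `SEH` (with `g' = d g1`), so `d g1 N = g1 N`.  `MS_crt`: `e0` with `w (act g e0 - 1) = 0` for `g ∈ Y`, `w (act g e0) = 0` for
`g ∉ Y`.  `NI e0` is checked with `MS_zero` at all `g`: `act g (act n e0 - e0)`: `g n ∈ Y ↔ g ∈ Y`; `act g (e0 * e0 - e0)`;
`act g (e0 * act h e0)`: `g ∈ Y` and `g h ∈ Y` would give `h ∈ N`; `act g (∑ q, act q.out e0 - 1)`: exactly one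
`q : G ⧸ N` has `g * q.out ∈ Y`, namely the class of `g⁻¹ g1`.
-/

/-! ### Elementary facts on seminorms -/

section B6a

variable {E : Type} [NormedField E] {G : Type} [Group G] [Fintype G] {S : SC E G}

private theorem B6_w0 (W : MS S fun c => ‖c‖) : W.w 0 = 0 := W.zero (norm_zero)

private theorem B6_neg (W : MS S fun c => ‖c‖) (a : Al S) : W.w (-a) = W.w a := by
  have h : -a = Al.cst S (-1) * a := by rw [map_neg, map_one, neg_one_mul]
  rw [h, W.mul, W.cst, norm_neg, norm_one, one_mul]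

private theorem B6_add0 (W : MS S fun c => ‖c‖) {a b : Al S} (ha : W.w a = 0) (hb : W.w b = 0) :
    W.w (a + b) = 0 := by
  refine le_antisymm ?_ (W.nonneg _)
  have h := W.add a b
  rwa [ha, hb, max_self] at h

private theorem B6_sub0 (W : MS S fun c => ‖c‖) {a b : Al S} (ha : W.w a = 0) (hb : W.w b = 0) :
    W.w (a - b) = 0 := by
  rw [sub_eq_add_neg]
  exact B6_add0 W ha (by rw [B6_neg, hb])

private theorem B6_sum0 (W : MS S fun c => ‖c‖) {I : Type} (s : Finset I) (f : I → Al S)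
    (h : ∀ i ∈ s, W.w (f i) = 0) : W.w (∑ i ∈ s, f i) = 0 := by
  induction s using Finset.induction_on with
  | empty => rw [Finset.sum_empty]; exact B6_w0 W
  | insert a s ha ih =>
    rw [Finset.sum_insert ha]
    exact B6_add0 W (h a (Finset.mem_insert_self _ _))
      (ih fun i hi => h i (Finset.mem_insert_of_mem hi))

private theorem B6_mul0 (W : MS S fun c => ‖c‖) {a b : Al S} (h : a * b = 0) :
    W.w a = 0 ∨ W.w b = 0 := by
  have h1 : W.w a * W.w b = 0 := by rw [← W.mul, h, B6_w0]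
  exact mul_eq_zero.1 h1

private theorem B6_not_both (W : MS S fun c => ‖c‖) {a : Al S} (h1 : W.w a = 0)
    (h2 : W.w (a - 1) = 0) : False := by
  have h3 := B6_sub0 W h1 h2
  rw [sub_sub_cancel, W.one] at h3
  exact one_ne_zero h3

/-! ### The set of `g` for which `act g ε` is congruent to `1` -/

variable {N : Subgroup G} {ε : Al S}

private theorem B6_dich (W : MS S fun c => ‖c‖) (h : NI S N ε) (g : G) :
    W.w (Al.act S g ε) = 0 ∨ W.w (Al.act S g ε - 1) = 0 := by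
  refine B6_mul0 W ?_
  have h1 : Al.act S g ε * Al.act S g ε = Al.act S g ε := by rw [← map_mul, h.idem]
  rw [mul_sub, h1, mul_one, sub_self]

private theorem B6_ex (W : MS S fun c => ‖c‖) (h : NI S N ε) : ∃ g, W.w (Al.act S g ε - 1) = 0 := by
  by_contra hc
  push Not at hc
  have h1 : ∀ g, W.w (Al.act S g ε) = 0 := fun g => (B6_dich W h g).resolve_right (hc g)
  have h2 := B6_sum0 W Finset.univ (fun q : G ⧸ N => Al.act S q.out ε) fun q _ => h1 q.out
  rw [h.sum, W.one] at h2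
  exact one_ne_zero h2

private theorem B6_mem (W : MS S fun c => ‖c‖) (h : NI S N ε) {g g' : G}
    (hg : W.w (Al.act S g ε - 1) = 0) (hg' : W.w (Al.act S g' ε - 1) = 0) : g⁻¹ * g' ∈ N := by
  by_contra hc
  have h1 := congrArg (Al.act S g) (h.orth _ hc)
  rw [map_mul, map_zero, ← Al.act_mul_apply, mul_inv_cancel_left] at h1
  rcases B6_mul0 W h1 with h2 | h2
  · exact B6_not_both W h2 hg
  · exact B6_not_both W h2 hg'

private theorem B6_mulN (W : MS S fun c => ‖c‖) (h : NI S N ε) {g n : G} (hn : n ∈ N)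
    (hg : W.w (Al.act S g ε - 1) = 0) : W.w (Al.act S (g * n) ε - 1) = 0 := by
  rwa [Al.act_mul_apply, h.fix n hn]

private theorem B6_iff (W : MS S fun c => ‖c‖) (h : NI S N ε) {g1 : G}
    (hg : W.w (Al.act S g1 ε - 1) = 0) (g : G) :
    W.w (Al.act S g ε - 1) = 0 ↔ g1⁻¹ * g ∈ N := by
  constructor
  · exact B6_mem W h hg
  · intro hn
    have h1 := B6_mulN W h hn hg
    rwa [mul_inv_cancel_left] at h1

private theorem B6_inD (W : MS S fun c => ‖c‖) {d g : G} (hd : InD W d)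
    (hg : W.w (Al.act S g ε - 1) = 0) : W.w (Al.act S (d * g) ε - 1) = 0 := by
  have h1 : Al.act S (d * g) ε - 1 = Al.act S d (Al.act S g ε - 1) := by
    rw [map_sub, map_one, ← Al.act_mul_apply]
  rw [h1, hd]
  exact hg

private theorem B6_inD_inv (W : MS S fun c => ‖c‖) {d : G} (hd : InD W d) : InD W d⁻¹ := by
  intro a
  rw [← hd (Al.act S d⁻¹ a), ← Al.act_mul_apply, mul_inv_cancel, Al.act_one_apply]

private theorem B6_exists_W [CompleteSpace E] [IsUltrametricDist E]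
    (hE : ∀ r : ℝ, 0 < r → ∃ c : E, ‖c‖ = r) : ∃ _W : MS S fun c : E => ‖c‖, True := by
  have hn : Nontrivial (Al S) := ⟨⟨Al.cst S 0, Al.cst S 1, fun h => zero_ne_one (cst_injective S h)⟩⟩
  obtain ⟨P, hP⟩ := Ideal.exists_maximal (Al S)
  obtain ⟨W, -⟩ := exists_MS (S := S) hE P hP
  exact ⟨W, trivial⟩

private theorem B6_J [CompleteSpace E] [IsUltrametricDist E] (p : ℕ) [Fact p.Prime] [CharP E p]
    (hE : ∀ r : ℝ, 0 < r → ∃ c : E, ‖c‖ = r) {N : Subgroup G} (hN : SEH p N)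
    (W : MS S fun c => ‖c‖) (hJ : ∃ g, g ≠ 1 ∧ InJ W g) :
    ∃ (J : Subgroup G) (g0 : G), (∀ g ∈ J, InD W g) ∧ (∀ d, InD W d → ∀ g ∈ J, d * g * d⁻¹ ∈ J) ∧
      (∀ a ∈ J, g0⁻¹ * a * g0 ∈ N) ∧ ∀ g' : G, (∀ a ∈ J, g'⁻¹ * a * g' ∈ N) → g0⁻¹ * g' ∈ N := by
  obtain ⟨J, hJ1, hJ2, hJ3⟩ := exists_J p hE W
  have hb : J ≠ ⊥ := by
    rintro rfl
    obtain ⟨g, hg, hgJ⟩ := hJ
    exact hg (Subgroup.mem_bot.1 ((hJ1 g).2 hgJ))
  obtain ⟨g0, h0, h1⟩ := hN J hJ2 hb
  exact ⟨J, g0, fun g hg => ((hJ1 g).1 hg).inD hE, hJ3, h0, h1⟩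

end B6a

variable {E : Type} [NormedField E] [CompleteSpace E] [IsUltrametricDist E]
  {G : Type} [Group G] [Fintype G] {S : SC E G} (p : ℕ) [Fact p.Prime] [CharP E p]

theorem NI_unique (hE : ∀ r : ℝ, 0 < r → ∃ c : E, ‖c‖ = r) {N : Subgroup G} (hN : SEH p N)
    (hJ : ∀ W : MS S fun c => ‖c‖, ∃ g, g ≠ 1 ∧ InJ W g) {ε ε' : Al S} (h : NI S N ε) (h' : NI S N ε') :
    ε = ε' := by
  obtain ⟨W, -⟩ := B6_exists_W (S := S) hE
  obtain ⟨J, g0, hJD, -, h0, h1⟩ := B6_J p hE hN W (hJ W)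
  obtain ⟨g1, hg1⟩ := B6_ex W h
  obtain ⟨g2, hg2⟩ := B6_ex W h'
  have k1 : g0⁻¹ * g1 ∈ N := h1 g1 fun a ha => by
    have h2 := B6_mem W h hg1 (B6_inD W (hJD a ha) hg1)
    rwa [← mul_assoc] at h2
  have k2 : g0⁻¹ * g2 ∈ N := h1 g2 fun a ha => by
    have h2 := B6_mem W h' hg2 (B6_inD W (hJD a ha) hg2)
    rwa [← mul_assoc] at h2
  have k3 : g1⁻¹ * g2 ∈ N := by
    have h2 := N.mul_mem (N.inv_mem k1) k2
    rwa [mul_inv_rev, inv_inv, mul_assoc, mul_inv_cancel_left] at h2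
  have k4 : ∀ g, W.w (Al.act S g ε - 1) = 0 ↔ W.w (Al.act S g ε' - 1) = 0 := by
    intro g
    rw [B6_iff W h hg1, B6_iff W h' hg2]
    constructor
    · intro hg
      have h2 := N.mul_mem (N.inv_mem k3) hg
      rwa [mul_inv_rev, inv_inv, mul_assoc, mul_inv_cancel_left] at h2
    · intro hg
      have h2 := N.mul_mem k3 hg
      rwa [mul_assoc, mul_inv_cancel_left] at h2
  refine sub_eq_zero.1 (MS_zero hE W _ fun g => ?_)
  rw [map_sub]
  by_cases hg : W.w (Al.act S g ε - 1) = 0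
  · have h2 := B6_sub0 W hg ((k4 g).1 hg)
    rwa [sub_sub_sub_cancel_right] at h2
  · exact B6_sub0 W ((B6_dich W h g).resolve_right hg)
      ((B6_dich W h' g).resolve_right fun h3 => hg ((k4 g).2 h3))

theorem NI_exists (hE : ∀ r : ℝ, 0 < r → ∃ c : E, ‖c‖ = r) {N : Subgroup G} (hN : SEH p N)
    (hJ : ∀ W : MS S fun c => ‖c‖, ∃ g, g ≠ 1 ∧ InJ W g) : ∃ ε : Al S, NI S N ε := by
  obtain ⟨W, -⟩ := B6_exists_W (S := S) hE
  obtain ⟨J, g1, hJD, hJc, h0, h1⟩ := B6_J p hE hN W (hJ W)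
  have hY : ∀ d g, InD W d → (g ∈ {g : G | g1⁻¹ * g ∈ N} ↔ d * g ∈ {g : G | g1⁻¹ * g ∈ N}) := by
    intro d g hd
    have k1 : g1⁻¹ * (d * g1) ∈ N := h1 (d * g1) fun a ha => by
      have h2 := h0 _ (hJc _ (B6_inD_inv W hd) a ha)
      have h3 : (d * g1)⁻¹ * a * (d * g1) = g1⁻¹ * (d⁻¹ * a * d⁻¹⁻¹) * g1 := by group
      rwa [h3]
    have h4 : g1⁻¹ * (d * g) = g1⁻¹ * (d * g1) * (g1⁻¹ * g) := by group
    rw [Set.mem_ofPred_eq, Set.mem_ofPred_eq, h4, Subgroup.mul_mem_cancel_left N k1]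
  obtain ⟨e0, he1, he0⟩ := MS_crt hE W _ hY
  simp only [Set.mem_ofPred_eq] at he1 he0
  refine ⟨e0, ⟨fun n hn => ?_, ?_, fun h hh => ?_, ?_⟩⟩
  · refine sub_eq_zero.1 (MS_zero hE W _ fun g => ?_)
    rw [map_sub, ← Al.act_mul_apply]
    have k : g1⁻¹ * (g * n) ∈ N ↔ g1⁻¹ * g ∈ N := by
      rw [← mul_assoc, Subgroup.mul_mem_cancel_right N hn]
    by_cases hg : g1⁻¹ * g ∈ N
    · have h2 := B6_sub0 W (he1 _ (k.2 hg)) (he1 _ hg)
      rwa [sub_sub_sub_cancel_right] at h2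
    · exact B6_sub0 W (he0 _ fun h3 => hg (k.1 h3)) (he0 _ hg)
  · refine sub_eq_zero.1 (MS_zero hE W _ fun g => ?_)
    have k : Al.act S g (e0 * e0 - e0) = Al.act S g e0 * (Al.act S g e0 - 1) := by
      rw [map_sub, map_mul, mul_sub, mul_one]
    rw [k, W.mul]
    by_cases hg : g1⁻¹ * g ∈ N
    · rw [he1 _ hg, mul_zero]
    · rw [he0 _ hg, zero_mul]
  · refine MS_zero hE W _ fun g => ?_
    rw [map_mul, W.mul, ← Al.act_mul_apply]
    by_cases hg : g1⁻¹ * g ∈ N
    · have hgh : ¬ g1⁻¹ * (g * h) ∈ N := by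
        rwa [← mul_assoc, Subgroup.mul_mem_cancel_left N hg]
      rw [he0 _ hgh, mul_zero]
    · rw [he0 _ hg, zero_mul]
  · refine sub_eq_zero.1 (MS_zero hE W _ fun g => ?_)
    have k : ∀ q : G ⧸ N, g1⁻¹ * (g * q.out) ∈ N ↔ q = ((g⁻¹ * g1 : G) : G ⧸ N) := by
      intro q
      conv_rhs => rw [← q.out_eq', eq_comm]
      rw [QuotientGroup.eq]
      have h3 : (g⁻¹ * g1)⁻¹ * q.out = g1⁻¹ * (g * q.out) := by group
      rw [h3]
    rw [map_sub, map_one, map_sum, ← Finset.add_sum_erase _ _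
      (Finset.mem_univ (((g⁻¹ * g1 : G) : G ⧸ N))), add_sub_right_comm]
    refine B6_add0 W ?_ (B6_sum0 W _ _ fun q hq => ?_)
    · rw [← Al.act_mul_apply]
      exact he1 _ ((k _).2 rfl)
    · rw [← Al.act_mul_apply]
      exact he0 _ fun h3 => (Finset.mem_erase.1 hq).1 ((k q).1 h3)

end

end Pool.Agent.MP_1c8e06_ag.CY
end
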