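import Pool.Agent.Lib.MP_1c8e06_ag.Mg.G001
import Pool.Agent.Lib.MP_1c8e06_ag.CY.W7
import Pool.Agent.Lib.MP_1c8e06_ag.Mg.G004

section

set_option autoImplicit false

open Polynomial
open scoped Classical

namespace Pool.Agent.MP_1c8e06_ag.CY

open Pool.Agent.MP_1c8e06_ag.AJ

noncomputable section

/-!
# TASK W9: the value of `PsiA` near `0`

Black boxes: `W1`, `W2`, `W5`, `W7` (`exists_epsH`, `exists_W`), `W8.yy_pow_PK`.
`q := p ^ k`, `A0 := Al (D.S.map (lz Om))`, `Ψ0 := PsiA (D.S.map (lz Om)) (psS Om q) q`, `y := yy p (C t * X)`,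
`P := zinv Om (PK p t k)`.  `CharP (LaurentSeries Om) p` is the instance `AI.charP_laurent`; `hψ := psS_pow_mul`.
Proof.  Let `ex` be the element of `exists_epsH` for `zpowers x` and `w` that of `exists_W`.
(a) `ex * ex = ex`, so `ex ^ q = ex` (`VAL_inj`); `R0 ex = 1` (`g = 1`).
(b) `R0 (Ψ0 (cst c * a)) = R0 (ex ^ q * Ψ0 (cst c * a)) = R0 (Ψ0 (ex ^ q * (cst c * a)))` (`PsiA_pow_mul`).
(c) `a * ex = ∑ j ∈ range p, cst (coordE (R0 a) j) * w ^ j * ex`: `VAL_inj` for the difference.  At `g ∉ zpowers x` both sides have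
value `0`.  At `g = x ^ i`: `R0 (act (x^i) a) = tau^i (R0 a) = ∑ ofL (coordE (R0 a) j) (y + i)^j` (`AI.eq_sum_coordE`, `tau`
ring homomorphism fixing `ofL`), and `R0 (act (x^i) w) = y + i`.
(d) `w ^ q * ex = (w + cst P) * ex` (`VAL_inj`: `(y + i)^q = y^q + i = y + ofL P + i`, `yy_pow_PK`), so
`w ^ j * ex = (w ^ q - cst P) ^ j * ex = ∑ l ∈ range (j+1), (j.choose l) (w ^ (j - l) * ex) ^ q * cst ((-P) ^ l)`
(binomial theorem, `ex = ex ^ q`).
(e) `Ψ0 ((w ^ (j-l) * ex) ^ q * cst (c z_j (-P) ^ l)) = (w ^ (j-l) * ex) ^ q * cst (psS Om q (c z_j (-P)^l))`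
(`PsiA_pow_mul`, `PsiA_cst`); apply `R0`: `y ^ (q (j - l)) * ofL (psS ..)`.  Integers `(j.choose l)` pass through.
-/

variable {Om : Type} [NormedField Om] [CompleteSpace Om] [IsUltrametricDist Om] [IsAlgClosed Om]
  {G : Type} [Group G] [Fintype G] {p : ℕ} [Fact p.Prime] [CharP Om p] {x : G} {t : Om}
  (hx : orderOf x = p) (D : TPw p x t)

private theorem W9_iter (k : ℕ) (c : ℕ → LaurentSeries Om) :
    (AI.tau p (C t * X : Om[X]))^[k] (∑ j ∈ Finset.range p,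
      AI.ofL p (C t * X : Om[X]) (c j) * AI.yy p (C t * X : Om[X]) ^ j) =
      ∑ j ∈ Finset.range p, AI.ofL p (C t * X : Om[X]) (c j) *
        (AI.yy p (C t * X : Om[X]) + ((k : ℕ) : AI.EE p (C t * X : Om[X]))) ^ j := by
  induction k with
  | zero => simp
  | succ k ih =>
    rw [Function.iterate_succ_apply', ih, map_sum]
    refine Finset.sum_congr rfl fun j _ => ?_
    rw [map_mul, map_pow, map_add, AI.tau_ofL, AI.tau_yy, map_natCast, Nat.cast_succ]
    congr 2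
    ring

private theorem W9_cst (c : LaurentSeries Om) :
    D.R0 (Al.cst (D.S.map (lz Om)) c) = AI.ofL p (C t * X : Om[X]) c :=
  extR_cst _ _ _ _ _ c

private theorem W9_mem (g : G) (hg : g ∈ Subgroup.zpowers x) : ∃ i : ℕ, g = x ^ i := by
  obtain ⟨i, hi⟩ := (mem_powers_iff_mem_zpowers.2 hg)
  exact ⟨i, hi.symm⟩

private theorem W9_idem {ex : Al (D.S.map (lz Om))}
    (hex : ∀ g, D.R0 (Al.act (D.S.map (lz Om)) g ex) = if g ∈ Subgroup.zpowers x then 1 else 0) :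
    ex * ex = ex := by
  rw [← sub_eq_zero]
  refine VAL_inj D _ fun g => ?_
  rw [map_sub, map_sub, map_mul, map_mul, hex g]
  split_ifs <;> simp

private theorem W9_charP : CharP (AI.EE p (C t * X : Om[X])) p :=
  charP_of_injective_ringHom (AI.ofL_injective (p := p) (F := (C t * X : Om[X]))) p

private theorem W9_a {ex w : Al (D.S.map (lz Om))}
    (hex : ∀ g, D.R0 (Al.act (D.S.map (lz Om)) g ex) = if g ∈ Subgroup.zpowers x then 1 else 0)
    (hw : ∀ j : ℕ, D.R0 (Al.act (D.S.map (lz Om)) (x ^ j) w) =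
        AI.yy p (C t * X : Om[X]) + ((j : ℕ) : AI.EE p (C t * X : Om[X])))
    (a : Al (D.S.map (lz Om))) :
    a * ex = (∑ j ∈ Finset.range p, Al.cst (D.S.map (lz Om))
      (AI.coordE p (C t * X : Om[X]) (D.R0 a) j) * w ^ j) * ex := by
  rw [← sub_eq_zero]
  refine VAL_inj D _ fun g => ?_
  rw [map_sub, map_sub, map_mul, map_mul, map_mul, map_mul, hex g]
  by_cases hg : g ∈ Subgroup.zpowers x
  · rw [if_pos hg]
    obtain ⟨i, hi⟩ := W9_mem g hg
    have hwg : D.R0 (Al.act (D.S.map (lz Om)) g w) =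
        AI.yy p (C t * X : Om[X]) + ((i : ℕ) : AI.EE p (C t * X : Om[X])) := by
      rw [hi]
      exact hw i
    have hag : D.R0 (Al.act (D.S.map (lz Om)) g a) = ∑ j ∈ Finset.range p,
        AI.ofL p (C t * X : Om[X]) (AI.coordE p (C t * X : Om[X]) (D.R0 a) j) *
        (AI.yy p (C t * X : Om[X]) + ((i : ℕ) : AI.EE p (C t * X : Om[X]))) ^ j := by
      rw [hi, R0_act_pow D i a]
      conv_lhs => rw [AI.eq_sum_coordE (D.R0 a)]
      exact W9_iter i _
    rw [hag, map_sum, map_sum, mul_one, mul_one, sub_eq_zero]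
    refine Finset.sum_congr rfl fun j _ => ?_
    rw [map_mul, map_mul, map_pow, map_pow, Al.act_cst, W9_cst, hwg]
  · rw [if_neg hg, mul_zero, mul_zero, sub_zero]

private theorem W9_w (k : ℕ) {ex w : Al (D.S.map (lz Om))}
    (hex : ∀ g, D.R0 (Al.act (D.S.map (lz Om)) g ex) = if g ∈ Subgroup.zpowers x then 1 else 0)
    (hw : ∀ j : ℕ, D.R0 (Al.act (D.S.map (lz Om)) (x ^ j) w) =
        AI.yy p (C t * X : Om[X]) + ((j : ℕ) : AI.EE p (C t * X : Om[X]))) :
    w * ex = (-Al.cst (D.S.map (lz Om)) (AI.zinv Om (PK p t k)) + w ^ (p ^ k)) * ex := by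
  have := W9_charP (Om := Om) (p := p) (t := t)
  rw [← sub_eq_zero]
  refine VAL_inj D _ fun g => ?_
  rw [map_sub, map_sub, map_mul, map_mul, map_mul, map_mul, hex g]
  by_cases hg : g ∈ Subgroup.zpowers x
  · rw [if_pos hg]
    obtain ⟨i, hi'⟩ := W9_mem g hg
    have hwg : D.R0 (Al.act (D.S.map (lz Om)) g w) =
        AI.yy p (C t * X : Om[X]) + ((i : ℕ) : AI.EE p (C t * X : Om[X])) := by
      rw [hi']
      exact hw i
    rw [map_add, map_add, map_neg, map_neg, map_pow, map_pow, Al.act_cst, W9_cst, hwg,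
      add_pow_char_pow, yy_pow_PK, AI.ze_apply]
    have hi : ((i : ℕ) : AI.EE p (C t * X : Om[X])) ^ (p ^ k) = ((i : ℕ) : AI.EE p (C t * X : Om[X])) := by
      have h := map_natCast (iterateFrobenius (AI.EE p (C t * X : Om[X])) p k) i
      rwa [iterateFrobenius_def] at h
    rw [hi]
    ring
  · rw [if_neg hg, mul_zero, mul_zero, sub_zero]

private theorem W9_pow {A : Type} [CommRing A] {w v e : A} (h : w * e = v * e) (j : ℕ) :
    w ^ j * e = v ^ j * e := by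
  induction j with
  | zero => simp
  | succ j ih =>
    calc w ^ (j + 1) * e = w * (w ^ j * e) := by ring
      _ = w * (v ^ j * e) := by rw [ih]
      _ = v ^ j * (w * e) := by ring
      _ = v ^ j * (v * e) := by rw [h]
      _ = v ^ (j + 1) * e := by ring

include hx in
theorem R0_PsiA (k : ℕ) (c : LaurentSeries Om) (a : Al (D.S.map (lz Om))) :
    D.R0 (PsiA (D.S.map (lz Om)) (psS Om (p ^ k)) (p ^ k) (Al.cst (D.S.map (lz Om)) c * a)) =
      ∑ j ∈ Finset.range p, ∑ l ∈ Finset.range (j + 1),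
        ((j.choose l : ℕ) : AI.EE p (C t * X : Om[X])) *
          (AI.yy p (C t * X : Om[X]) ^ (p ^ k * (j - l)) *
            AI.ofL p (C t * X : Om[X]) (psS Om (p ^ k)
              (c * AI.coordE p (C t * X : Om[X]) (D.R0 a) j * (-AI.zinv Om (PK p t k)) ^ l))) := by
  obtain ⟨ex, -, hex⟩ := exists_epsH D (Subgroup.zpowers x) (Subgroup.mem_zpowers x)
  obtain ⟨w, -, hw, -⟩ := exists_W hx D
  have hid : ex * ex = ex := W9_idem D hex
  have hq : p ^ k ≠ 0 := pow_ne_zero _ (Fact.out : p.Prime).ne_zero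
  have hexq : ex ^ (p ^ k) = ex := by
    obtain ⟨n, hn⟩ := Nat.exists_eq_succ_of_ne_zero hq
    rw [hn]
    exact IsIdempotentElem.pow_succ_eq n hid
  have hR1 : D.R0 ex = 1 := by
    have h := hex 1
    rw [Al.act_one_apply, if_pos (Subgroup.one_mem _)] at h
    exact h
  have hRw : D.R0 w = AI.yy p (C t * X : Om[X]) := by
    have h := hw 0
    rw [pow_zero, Al.act_one_apply, Nat.cast_zero, add_zero] at h
    exact h
  have hψ := psS_pow_mul Om p k
  have hb : D.R0 (PsiA (D.S.map (lz Om)) (psS Om (p ^ k)) (p ^ k) (Al.cst (D.S.map (lz Om)) c * a)) =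
      D.R0 (PsiA (D.S.map (lz Om)) (psS Om (p ^ k)) (p ^ k)
        (ex ^ (p ^ k) * (Al.cst (D.S.map (lz Om)) c * a))) := by
    rw [PsiA_pow_mul (D.S.map (lz Om)) p k (psS Om (p ^ k)) hψ ex (Al.cst (D.S.map (lz Om)) c * a),
      map_mul D.R0, map_pow D.R0, hR1, one_pow, one_mul]
  have hexp : ex ^ (p ^ k) * (Al.cst (D.S.map (lz Om)) c * a) =
      ∑ j ∈ Finset.range p, ∑ l ∈ Finset.range (j + 1), (j.choose l) •
        ((w ^ (j - l) * ex) ^ (p ^ k) * Al.cst (D.S.map (lz Om))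
          (c * AI.coordE p (C t * X : Om[X]) (D.R0 a) j * (-AI.zinv Om (PK p t k)) ^ l)) := by
    have h1 : ex ^ (p ^ k) * (Al.cst (D.S.map (lz Om)) c * a) =
        Al.cst (D.S.map (lz Om)) c * (a * ex) := by
      rw [hexq]
      ring
    rw [h1, W9_a D hex hw a, Finset.sum_mul, Finset.mul_sum]
    refine Finset.sum_congr rfl fun j _ => ?_
    have h2 := W9_pow (W9_w D k hex hw) j
    have h3 : Al.cst (D.S.map (lz Om)) c * (Al.cst (D.S.map (lz Om))
        (AI.coordE p (C t * X : Om[X]) (D.R0 a) j) * w ^ j * ex) =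
        Al.cst (D.S.map (lz Om)) c * Al.cst (D.S.map (lz Om))
        (AI.coordE p (C t * X : Om[X]) (D.R0 a) j) * (w ^ j * ex) := by ring
    rw [h3, h2, add_pow, Finset.sum_mul, Finset.mul_sum]
    refine Finset.sum_congr rfl fun l _ => ?_
    rw [map_mul (Al.cst (D.S.map (lz Om))), map_mul (Al.cst (D.S.map (lz Om))), map_pow, map_neg,
      mul_pow, hexq, nsmul_eq_mul, ← pow_mul, ← pow_mul, mul_comm (p ^ k) (j - l)]
    ring
  rw [hb, hexp, map_sum, map_sum]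
  refine Finset.sum_congr rfl fun j _ => ?_
  rw [map_sum, map_sum]
  refine Finset.sum_congr rfl fun l _ => ?_
  rw [map_nsmul, map_nsmul, PsiA_pow_mul (D.S.map (lz Om)) p k (psS Om (p ^ k)) hψ,
    PsiA_cst (D.S.map (lz Om)) p k (psS Om (p ^ k)) hψ, map_mul D.R0, map_pow D.R0, map_mul D.R0,
    map_pow D.R0, hR1, hRw, mul_one, W9_cst, nsmul_eq_mul, ← pow_mul, mul_comm (j - l) (p ^ k)]

end

end Pool.Agent.MP_1c8e06_ag.CY
end

section

set_option autoImplicit false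

open Polynomial
open scoped Classical

namespace Pool.Agent.MP_1c8e06_ag.CY

open Pool.Agent.MP_1c8e06_ag.AJ

noncomputable section

/-!
# TASK W10: upper bound near `0`

Black boxes: `W0`, `W1`, `W2`, `W4`, `W5`, `W8`, `W9`, `O3`.  `q := p ^ k`, `y := yy p (C t * X)`, `σ := (‖t‖ / r) ^ (p ^ (k-1)) ≥ 1`,
`Ψ := PsiA D.S (psL Om q) q`, `Ψ0` as in `W9`, `P := zinv Om (PK p t k)`.
(1) `LB_psS`: `psS` only deletes coefficients.
(2) `y ^ (q n) = (y + ofL P) ^ n = ∑ i, (n.choose i) y ^ i ofL (P ^ (n - i))` for `n ≤ p - 1` (`yy_pow_PK`), so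
`BdE r (σ ^ n) (y ^ (q n))` (`LB_PK`, `σ^(n-i) ≤ σ^n`; coordinates of `y ^ i`, `i < p`, are `0` or `1`; norms of integers `≤ 1`).
(3) if all coordinates of `R0 a` are `LB r _ C0` then by `R0_PsiA` with `c = single m 1`
(`LB r (single m 1) (r ^ m)`): every term is `BdE r (σ^(j-l) * (r^m C0 σ^l))`, because `ofL * y^..` has coordinates
`psS(..) * coordinates` (`BdE_ofL_mul`), `LB r ((-P)^l) (σ^l)`.  So
`BdE r (C0 σ^(p-1) r^m) (R0 (Ψ0 (cst (single m 1) * a)))`, `σ^(p-1) = (‖t‖/r) ^ (p^k - p^(k-1))`.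
(4) for `g : G` take `a := mapA (act g (e i))`: `R0 a = r0 (act g (e i))` (`extR_mapA`), and
`r0 (act g (Ψ (cst (T m) * e i))) = R0 (mapA (Ψ (cst (T m) * act g (e i)))) = R0 (Ψ0 (cst (single m 1) * a))`
(`PsiA_act`, `PsiA_map` with `φ = lz Om`, `ψ' = psS`, `lz_psL`; `lz (T m) = single m 1`; `Al.mapA_cst`).
(5) coordinate `l` of `z := Ψ (cst (T m) * e i)`: `z l = tA (z * bs l)` (`coord`), and
`ofL (lz (tA y')) = r0 (cst (tA y')) = ∑ g, r0 (act g y')`, `y' = z * bs l`.  The elements `r0 (act g (bs l))` are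
`BdE r C1` for a constant `C1` independent of `k`, `m` (every element of `EE` has some bound at `r`? NO: use that
`r0 (act g (bs l)) = ∑ m', ofL (lz (T' l m')) r0 (act g (e m'))`, `LB_lz`, `BdE_ofL_mul`, the hypothesis `h0`).
By `BdE_mul`: `BdE r (C0 σ^(p-1) r^m C1 (‖t‖/r)) (∑ ..)`; the coordinate `0` of `ofL c` is `c` (`AI.coordE_ofL`).
`C := max 1 (C0 * C1 * (‖t‖/r))`.
-/

variable {Om : Type} [NormedField Om] [CompleteSpace Om] [IsUltrametricDist Om] [IsAlgClosed Om]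
  {G : Type} [Group G] [Fintype G] {p : ℕ} [Fact p.Prime] [CharP Om p] {x : G} {t : Om}
  (hx : orderOf x = p) (D : TPw p x t)

omit [CompleteSpace Om] [IsUltrametricDist Om] [IsAlgClosed Om] in
private theorem W10_mono {r C C' : ℝ} {a : LaurentSeries Om} (h : LB r a C) (hC : C ≤ C') :
    LB r a C' := fun n => (h n).trans hC

omit [CompleteSpace Om] [IsUltrametricDist Om] [IsAlgClosed Om] in
private theorem W10_zero {r C : ℝ} (hC : 0 ≤ C) : LB r (0 : LaurentSeries Om) C := fun n => by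
  simpa using hC

omit [CompleteSpace Om] [IsUltrametricDist Om] [IsAlgClosed Om] [CharP Om p] in
private theorem W10_monoE {F : Om[X]} {r C C' : ℝ} {a : AI.EE p F} (h : BdE p r C a) (hC : C ≤ C') :
    BdE p r C' a := fun j => W10_mono (h j) hC

omit [CompleteSpace Om] [IsUltrametricDist Om] [IsAlgClosed Om] [CharP Om p] in
private theorem W10_zeroE {F : Om[X]} {r C : ℝ} (hC : 0 ≤ C) : BdE p r C (0 : AI.EE p F) :=
  fun j => by
    rw [AI.coordE_zero]
    exact W10_zero hC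

omit [CharP Om p] in
private theorem W10_sum {ι : Type} (s : Finset ι) {F : Om[X]} {r C : ℝ} (hr : 0 < r) (hC : 0 ≤ C)
    (f : ι → AI.EE p F) (h : ∀ i ∈ s, BdE p r C (f i)) : BdE p r C (∑ i ∈ s, f i) := by
  induction s using Finset.induction_on with
  | empty => rw [Finset.sum_empty]; exact W10_zeroE hC
  | insert a s ha ih =>
    rw [Finset.sum_insert ha]
    exact BdE_add p hr (h a (Finset.mem_insert_self a s))
      (ih fun i hi => h i (Finset.mem_insert_of_mem hi))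

omit [CharP Om p] in
private theorem W10_nat {F : Om[X]} {r C : ℝ} (hr : 0 < r) (hC : 0 ≤ C) {z : AI.EE p F}
    (h : BdE p r C z) (n : ℕ) : BdE p r C ((n : AI.EE p F) * z) := by
  induction n with
  | zero => rw [Nat.cast_zero, zero_mul]; exact W10_zeroE hC
  | succ n ih =>
    rw [Nat.cast_succ, add_mul, one_mul]
    exact BdE_add p hr ih h

omit [CompleteSpace Om] [IsUltrametricDist Om] [IsAlgClosed Om] in
private theorem W10_single {r : ℝ} (hr : 0 < r) (m : ℤ) :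
    LB r (HahnSeries.single m (1 : Om)) (r ^ m) := by
  intro n
  by_cases h : n = m
  · subst h
    simp
  · rw [HahnSeries.coeff_single_of_ne h, norm_zero, zero_mul]
    exact (zpow_pos hr m).le

omit [CompleteSpace Om] [IsUltrametricDist Om] [IsAlgClosed Om] [CharP Om p] in
private theorem W10_coord_yy {F : Om[X]} {i : ℕ} (hi : i < p) (j : ℕ) :
    AI.coordE p F (AI.yy p F ^ i) j = if j = i then 1 else 0 := by
  by_cases hj : j < p
  · have h := AI.coordE_sum_yy (p := p) (F := F) (fun l => if l = i then 1 else 0) hj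
    rw [Finset.sum_eq_single i] at h
    · simpa using h
    · intro l _ hl
      simp [hl]
    · intro h1
      exact absurd (Finset.mem_range.2 hi) h1
  · rw [AI.coordE_of_le _ (not_lt.1 hj), if_neg]
    omega

omit [CompleteSpace Om] [IsUltrametricDist Om] [IsAlgClosed Om] [CharP Om p] in
private theorem W10_one {r : ℝ} (hr : 0 < r) : LB r (1 : LaurentSeries Om) 1 := by
  have h := W10_single (Om := Om) hr 0
  rw [zpow_zero] at h
  exact h

omit [CompleteSpace Om] [IsUltrametricDist Om] [IsAlgClosed Om] [CharP Om p] in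
private theorem W10_yy {F : Om[X]} {r : ℝ} (hr : 0 < r) {i : ℕ} (hi : i < p) :
    BdE p r 1 (AI.yy p F ^ i) := by
  intro j
  rw [W10_coord_yy hi]
  split_ifs
  · exact W10_one hr
  · exact W10_zero zero_le_one

theorem LB_psS {r C : ℝ} (hC : 0 ≤ C) (q : ℕ) {a : LaurentSeries Om} (ha : LB r a C) :
    LB r (psS Om q a) C := by
  intro n
  rw [psS_coeff]
  split_ifs
  · exact ha n
  · rw [norm_zero, zero_mul]
    exact hC

omit [CharP Om p] in
private theorem W10_comm {F : Om[X]} {r C : ℝ} {a b : AI.EE p F} (h : BdE p r C (b * a)) :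
    BdE p r C (a * b) := by
  rw [mul_comm]
  exact h

omit [CharP Om p] in
private theorem W10_add_pow {F : Om[X]} {r s : ℝ} (hr : 0 < r) (hs : 1 ≤ s) {y : AI.EE p F}
    {z : LaurentSeries Om} {n : ℕ} (hy : ∀ i ≤ n, BdE p r 1 (y ^ i))
    (hz : ∀ l, LB r (z ^ l) (s ^ l)) : BdE p r (s ^ n) ((y + AI.ofL p F z) ^ n) := by
  have hs0 : 0 ≤ s := zero_le_one.trans hs
  rw [add_pow]
  refine W10_sum _ hr (pow_nonneg hs0 _) _ fun i hi => ?_
  have hin : i ≤ n := Nat.lt_succ_iff.1 (Finset.mem_range.1 hi)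
  refine W10_comm (W10_nat hr (pow_nonneg hs0 _) (W10_comm ?_) _)
  rw [← map_pow]
  have h4 := BdE_ofL_mul p hr (pow_nonneg hs0 _) zero_le_one (hz (n - i)) (hy i hin)
  rw [mul_one] at h4
  exact W10_monoE h4 (pow_le_pow_right₀ hs (Nat.sub_le _ _))

private theorem W10_pow (t : Om) {r : ℝ} (hr : 0 < r) (hrt : r ≤ ‖t‖) {k : ℕ} (hk : 1 ≤ k) {n : ℕ}
    (hn : n < p) : BdE p r (((‖t‖ / r) ^ (p ^ (k - 1))) ^ n)
      (AI.yy p (C t * X : Om[X]) ^ (p ^ k * n)) := by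
  have h1 : 1 ≤ ‖t‖ / r := (one_le_div hr).2 hrt
  have hs : 1 ≤ (‖t‖ / r) ^ (p ^ (k - 1)) := one_le_pow₀ h1
  have e : AI.yy p (C t * X : Om[X]) ^ (p ^ k * n) =
      (AI.yy p (C t * X : Om[X]) + AI.ofL p (C t * X : Om[X]) (AI.zinv Om (PK p t k))) ^ n := by
    rw [pow_mul]
    exact congrArg (· ^ n) (yy_pow_PK p t k)
  rw [e]
  refine W10_add_pow hr hs (fun i hi => W10_yy hr (lt_of_le_of_lt hi hn)) fun l => ?_
  have h3 := LB_PK p t hr hrt k hk l
  rw [pow_mul] at h3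
  exact h3

include hx in
private theorem W10_R0 {r C0 : ℝ} (hr : 0 < r) (hrt : r ≤ ‖t‖) (hC0 : 0 ≤ C0) {k : ℕ} (hk : 1 ≤ k)
    (m : ℤ) (a : Al (D.S.map (lz Om)))
    (ha : ∀ j, LB r (AI.coordE p (C t * X : Om[X]) (D.R0 a) j) C0) :
    BdE p r (C0 * (‖t‖ / r) ^ (p ^ k - p ^ (k - 1)) * r ^ m)
      (D.R0 (PsiA (D.S.map (lz Om)) (psS Om (p ^ k)) (p ^ k)
        (Al.cst (D.S.map (lz Om)) (HahnSeries.single m 1) * a))) := by
  have h1 : 1 ≤ ‖t‖ / r := (one_le_div hr).2 hrt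
  have hs : 1 ≤ (‖t‖ / r) ^ (p ^ (k - 1)) := one_le_pow₀ h1
  have hpp : 1 ≤ p := (Fact.out : p.Prime).one_le
  have hexp : (‖t‖ / r) ^ (p ^ k - p ^ (k - 1)) = ((‖t‖ / r) ^ (p ^ (k - 1))) ^ (p - 1) := by
    rw [← pow_mul, Nat.mul_sub, mul_one, ← pow_succ, Nat.sub_add_cancel hk]
  rw [hexp]
  set σ : ℝ := (‖t‖ / r) ^ (p ^ (k - 1)) with hσ
  have hs0 : 0 ≤ σ := zero_le_one.trans hs
  have hrm : 0 ≤ r ^ m := (zpow_pos hr m).le
  have hB : 0 ≤ C0 * σ ^ (p - 1) * r ^ m := by positivity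
  rw [R0_PsiA hx D]
  refine W10_sum _ hr hB _ fun j hj => ?_
  refine W10_sum _ hr hB _ fun l hl => ?_
  refine W10_nat hr hB ?_ _
  have hjp : j < p := Finset.mem_range.1 hj
  have hlj : l ≤ j := Nat.lt_succ_iff.1 (Finset.mem_range.1 hl)
  have h2 : LB r ((-AI.zinv Om (PK p t k)) ^ l) (σ ^ l) := by
    have h3 := LB_PK p t hr hrt k hk l
    rw [pow_mul] at h3
    rcases neg_one_pow_eq_or (LaurentSeries Om) l with h4 | h4
    · rw [neg_pow, h4, one_mul]; exact h3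
    · rw [neg_pow, h4, neg_one_mul]; exact h3.neg
  have h5 : LB r (HahnSeries.single m 1 * AI.coordE p (C t * X : Om[X]) (D.R0 a) j *
      (-AI.zinv Om (PK p t k)) ^ l) (r ^ m * C0 * σ ^ l) :=
    LB.mul hr (LB.mul hr (W10_single hr m) (ha j) hrm hC0) h2 (by positivity) (by positivity)
  have h6 := LB_psS (by positivity) (p ^ k) h5
  refine W10_comm ?_
  refine W10_monoE (BdE_ofL_mul p hr (by positivity) (by positivity) h6
    (W10_pow t hr hrt hk (lt_of_le_of_lt (Nat.sub_le j l) hjp))) ?_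
  calc r ^ m * C0 * σ ^ l * σ ^ (j - l) = C0 * σ ^ (l + (j - l)) * r ^ m := by
        rw [pow_add]; ring
    _ = C0 * σ ^ j * r ^ m := by rw [Nat.add_sub_cancel' hlj]
    _ ≤ C0 * σ ^ (p - 1) * r ^ m := by
        refine mul_le_mul_of_nonneg_right (mul_le_mul_of_nonneg_left ?_ hC0) hrm
        exact pow_le_pow_right₀ hs (by omega)

include hx in
private theorem W10_r0 {r C0 : ℝ} (hr : 0 < r) (hrt : r ≤ ‖t‖) (hC0 : 0 ≤ C0) {k : ℕ} (hk : 1 ≤ k)
    (h0 : ∀ g l j, LB r (AI.coordE p (C t * X : Om[X]) (D.r0 (Al.act D.S g (Al.e D.S l))) j) C0)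
    (m : ℤ) (g i : G) :
    BdE p r (C0 * (‖t‖ / r) ^ (p ^ k - p ^ (k - 1)) * r ^ m)
      (D.r0 (Al.act D.S g (PsiA D.S (psL Om (p ^ k)) (p ^ k)
        (Al.cst D.S (LaurentPolynomial.T m) * Al.e D.S i)))) := by
  have hR : ∀ b : Al D.S, D.R0 (Al.mapA D.S (lz Om) b) = D.r0 b := fun b =>
    extR_mapA D.S D.r0 (lz Om) (AI.ofL p (C t * X : Om[X])) D.r0_cst b
  have h1 := W10_R0 hx D hr hrt hC0 hk m (Al.mapA D.S (lz Om) (Al.act D.S g (Al.e D.S i)))
    (by
      intro j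
      rw [hR]
      exact h0 g i j)
  have hT : lz Om (LaurentPolynomial.T m) = HahnSeries.single m (1 : Om) := by
    ext n
    rw [lz_coeff]
    have e : (LaurentPolynomial.T m : Lam Om).coeff n = if m = n then 1 else 0 :=
      Finsupp.single_apply
    rw [e]
    by_cases h : m = n
    · subst h
      rw [if_pos rfl, HahnSeries.coeff_single_same]
    · rw [if_neg h, HahnSeries.coeff_single_of_ne (Ne.symm h)]
  have : CharP (Lam Om) p :=
    charP_of_injective_ringHom (f := (LaurentPolynomial.C : Om →+* Lam Om))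
      (LaurentPolynomial.C : Om →+* Lam Om).injective p
  rw [← hT, ← Al.mapA_cst, ← map_mul,
    PsiA_map D.S p k (psL Om (p ^ k)) (lz Om) (psS Om (p ^ k)) (psS_pow_mul Om p k)
      (fun b => (lz_psL Om (p ^ k) b).symm), hR] at h1
  rw [← PsiA_act D.S p k (psL Om (p ^ k)) (psL_pow_mul Om p k), map_mul, Al.act_cst]
  exact h1

include hx in
theorem upper {r C0 : ℝ} (hr : 0 < r) (hrt : r ≤ ‖t‖) (hC0 : 0 ≤ C0)
    (h0 : ∀ g l j, LB r (AI.coordE p (C t * X : Om[X]) (D.r0 (Al.act D.S g (Al.e D.S l))) j) C0) :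
    ∃ C : ℝ, 0 < C ∧ ∀ k, 1 ≤ k → Bnd D.S r (C * (‖t‖ / r) ^ (p ^ k - p ^ (k - 1))) (p ^ k) := by
  have h1 : 1 ≤ ‖t‖ / r := (one_le_div hr).2 hrt
  have hρ0 : 0 ≤ ‖t‖ / r := zero_le_one.trans h1
  -- a common bound for the coefficients of the dual basis
  obtain ⟨C1, hC1, hC1'⟩ : ∃ C1 : ℝ, 0 ≤ C1 ∧ ∀ l m, LB r (lz Om (D.S.T' l m)) C1 := by
    choose c hc using fun l m => LB_lz r (D.S.T' l m)
    refine ⟨∑ l, ∑ m, |c l m|, Finset.sum_nonneg fun l _ => Finset.sum_nonneg fun m _ =>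
      abs_nonneg _, fun l m => W10_mono (hc l m) ?_⟩
    calc c l m ≤ |c l m| := le_abs_self _
      _ ≤ ∑ m, |c l m| := Finset.single_le_sum (f := fun m => |c l m|)
          (fun m _ => abs_nonneg _) (Finset.mem_univ m)
      _ ≤ ∑ l, ∑ m, |c l m| := Finset.single_le_sum (f := fun l => ∑ m, |c l m|)
          (fun l _ => Finset.sum_nonneg fun m _ => abs_nonneg _) (Finset.mem_univ l)
  have hbs : ∀ g l, BdE p r (C1 * C0) (D.r0 (Al.act D.S g (bs D.S l))) := by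
    intro g l
    rw [bs, map_sum, map_sum]
    refine W10_sum _ hr (by positivity) _ fun m _ => ?_
    rw [map_mul, Al.act_cst, map_mul, D.r0_cst]
    exact BdE_ofL_mul p hr hC1 hC0 (hC1' l m) fun j => h0 g m j
  refine ⟨max 1 (C0 * (C1 * C0) * (‖t‖ / r)), lt_of_lt_of_le one_pos (le_max_left _ _),
    fun k hk m i l => ?_⟩
  have hrm : 0 ≤ r ^ m := (zpow_pos hr m).le
  have hpw : 0 ≤ (‖t‖ / r) ^ (p ^ k - p ^ (k - 1)) := pow_nonneg hρ0 _
  have hz : ∀ z : Al D.S, z = PsiA D.S (psL Om (p ^ k)) (p ^ k)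
      (Al.cst D.S (LaurentPolynomial.T m) * Al.e D.S i) →
      LB r (lz Om (z l)) (C0 * (‖t‖ / r) ^ (p ^ k - p ^ (k - 1)) * r ^ m * (C1 * C0) *
        (‖t‖ / r)) := by
    intro z hz
    have h2 : AI.ofL p (C t * X : Om[X]) (lz Om (z l)) =
        ∑ g, D.r0 (Al.act D.S g z) * D.r0 (Al.act D.S g (bs D.S l)) := by
      rw [coord D.S z l, ← D.r0_cst, cst_tA, map_sum]
      refine Finset.sum_congr rfl fun g _ => ?_
      rw [map_mul, map_mul]
    have h3 : BdE p r (C0 * (‖t‖ / r) ^ (p ^ k - p ^ (k - 1)) * r ^ m * (C1 * C0) * (‖t‖ / r))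
        (AI.ofL p (C t * X : Om[X]) (lz Om (z l))) := by
      rw [h2]
      refine W10_sum _ hr (by positivity) _ fun g _ => ?_
      refine BdE_mul p hr hrt (by positivity) (by positivity) ?_ (hbs g l)
      rw [hz]
      exact W10_r0 hx D hr hrt hC0 hk h0 m g i
    have h4 := h3 0
    rw [AI.coordE_ofL, if_pos rfl] at h4
    exact h4
  refine W10_mono (hz _ rfl) ?_
  calc C0 * (‖t‖ / r) ^ (p ^ k - p ^ (k - 1)) * r ^ m * (C1 * C0) * (‖t‖ / r)
      = (C0 * (C1 * C0) * (‖t‖ / r)) * (‖t‖ / r) ^ (p ^ k - p ^ (k - 1)) * r ^ m := by ring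
    _ ≤ max 1 (C0 * (C1 * C0) * (‖t‖ / r)) * (‖t‖ / r) ^ (p ^ k - p ^ (k - 1)) * r ^ m :=
        mul_le_mul_of_nonneg_right (mul_le_mul_of_nonneg_right (le_max_right _ _) hpw) hrm

end

end Pool.Agent.MP_1c8e06_ag.CY
end

section

set_option autoImplicit false

open Polynomial
open scoped Classical

namespace Pool.Agent.MP_1c8e06_ag.CY

open Pool.Agent.MP_1c8e06_ag.AJ

noncomputable section

/-!
# TASK W11: lower bound near `0`

Black boxes: `W0`, `W1`, `W2`, `W4`, `W5`, `W8`, `W9`, `O3`.  `q := p ^ k`, `q' := p ^ k - p ^ (k-1)`,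
`A0 := Al (D.S.map (lz Om))`, `Ψ0 := PsiA (D.S.map (lz Om)) (psS Om q) q`, `Ψ := PsiA D.S (psL Om q) q`, `y := yy p (C t * X)`.
(1) `a := w ^ (p - 1)`: all coordinates are `LB r _ C2` with `C2 ≥ 1` (products: `Al.mul_apply`, the structure constants
`lz (μ i j l)` are bounded at `r` by `LB_lz`; for `w^0 = 1`: coordinates `lz (ν l)`; induction on the exponent).
`R0 a = y ^ (p - 1)` (`g = 1`, `j = 0` in `hw`).
(2) `R0 (Ψ0 (cst (single q' 1) * a)) = ofL (C ((-1) ^ (p - 1) * t ^ q'))`: `R0_PsiA`; the coordinates of `y ^ (p-1)` are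
`1` at `j = p - 1` and `0` elsewhere; for `l < p - 1` the term is `0` by `psS_PK_lt` (the sign `(-1)^l` is a constant which
passes through `psS`), for `l = p - 1` it is `y^0 * ofL (psS ..)`, `psS_PK`.
(3) `a = ∑ l, cst (a l) * e l`, `a l = ∑ m ∈ range q, single m 1 * b l m` (`psS_pieces`), with `(b l m).coeff n = 0` unless
`q ∣ n`, and `LB r (b l m) (C2 * r ^ (-m))` (coefficients `(a l).coeff (n + m)`).  So
`Ψ0 (cst (single q' 1) * a) = ∑ l, ∑ m, cst (b l m) * Ψ0 (cst (single (q' + m) 1) * e l)` (`PsiA_cst_mul`, `psS_mul`) and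
`Ψ0 (cst (single (q'+m) 1) * e l) = mapA (Ψ (cst (T (q'+m)) * e l))` (`PsiA_map`, `lz_psL`, `lz (T n) = single n 1`), whose
coordinates are `LB r _ (H * r ^ (q' + m))` (`Bnd`).  So all coordinates of `Ψ0 (cst (single q' 1) * a)` are
`LB r _ (C2 * H * r ^ q')` (`LB.mul`, `LB.add`, `Al.cst_mul`).
(4) `R0 z = ∑ i, ofL (z i) * r0 (e i)` (`extR_apply`); coordinate `0`: `LB r _ (C2 * H * r ^ q' * C0)` (`BdE_ofL_mul`, `h0` with
`g = 1`).  Its coefficient at `0` is `± t ^ q'` by (2) (`AI.coordE_ofL`): `‖t‖ ^ q' ≤ C2 C0 H r ^ q'`.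
`C := max 1 (C2 * C0)`.
-/

private theorem W11_mono {Om : Type} [NormedField Om] {r : ℝ} {a : LaurentSeries Om} {C C' : ℝ}
    (h : LB r a C) (hC : C ≤ C') : LB r a C' := fun n => (h n).trans hC

private theorem W11_zero {Om : Type} [NormedField Om] {r : ℝ} {C : ℝ} (hC : 0 ≤ C) :
    LB r (0 : LaurentSeries Om) C := by
  intro n
  rw [HahnSeries.coeff_zero, norm_zero, zero_mul]
  exact hC

section

variable {Om : Type} [NormedField Om] [CompleteSpace Om] [IsUltrametricDist Om] [IsAlgClosed Om]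

private theorem W11_sum {ι : Type} (s : Finset ι) {r : ℝ} (hr : 0 < r) {C : ℝ} (hC : 0 ≤ C)
    (f : ι → LaurentSeries Om) (h : ∀ i ∈ s, LB r (f i) C) : LB r (∑ i ∈ s, f i) C := by
  induction s using Finset.induction_on with
  | empty =>
    rw [Finset.sum_empty]
    exact W11_zero hC
  | insert a s ha ih =>
    rw [Finset.sum_insert ha]
    exact LB.add hr (h a (Finset.mem_insert_self _ _)) (ih fun i hi => h i (Finset.mem_insert_of_mem hi))

omit [CompleteSpace Om] [IsUltrametricDist Om] [IsAlgClosed Om] in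
/-- Finitely many series which are bounded have a common bound `≥ 1`. -/
private theorem W11_common {ι : Type} [Finite ι] {r : ℝ} (f : ι → LaurentSeries Om)
    (h : ∀ i, ∃ C, LB r (f i) C) : ∃ C : ℝ, 1 ≤ C ∧ ∀ i, LB r (f i) C := by
  cases nonempty_fintype ι
  choose c hc using h
  refine ⟨1 + ∑ i, |c i|, ?_, fun i => W11_mono (hc i) ?_⟩
  · have : 0 ≤ ∑ i, |c i| := Finset.sum_nonneg fun i _ => abs_nonneg _
    linarith
  · have h1 : |c i| ≤ ∑ i, |c i| := Finset.single_le_sum (fun i _ => abs_nonneg (c i)) (Finset.mem_univ i)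
    have h2 := le_abs_self (c i)
    linarith

private theorem W11_pow {G : Type} [Group G] [Fintype G] (S : SC (Lam Om) G) {r C1 : ℝ} (hr : 0 < r)
    (hC1 : 0 ≤ C1) (w : Al (S.map (lz Om))) (hw1 : ∀ l, LB r (w l) C1) (j : ℕ) :
    ∃ C : ℝ, 1 ≤ C ∧ ∀ l, LB r ((w ^ j) l) C := by
  induction j with
  | zero =>
    have h : ∀ l : G, ∃ C, LB r ((w ^ 0) l) C := by
      intro l
      rw [pow_zero, Al.one_apply]
      exact LB_lz r (S.ν l)
    exact W11_common (fun l => (w ^ 0) l) h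
  | succ j ih =>
    obtain ⟨C, hC, hj⟩ := ih
    obtain ⟨M, hM, hμ⟩ := W11_common (r := r) (fun q : G × G × G => lz Om (S.μ q.1 q.2.1 q.2.2))
      (fun q => LB_lz r _)
    have h : ∀ l, LB r ((w ^ (j + 1)) l) (C * C1 * M) := by
      intro l
      rw [pow_succ, Al.mul_apply]
      have h0 : 0 ≤ C * C1 * M := by positivity
      refine W11_sum _ hr h0 _ fun i _ => W11_sum _ hr h0 _ fun m _ => ?_
      exact LB.mul hr (LB.mul hr (hj i) (hw1 m) (by linarith) hC1) (hμ (i, m, l)) (by positivity) (by linarith)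
    exact ⟨max 1 (C * C1 * M), le_max_left _ _, fun l => W11_mono (h l) (le_max_right _ _)⟩

end

variable {Om : Type} [NormedField Om] [CompleteSpace Om] [IsUltrametricDist Om] [IsAlgClosed Om]
  {G : Type} [Group G] [Fintype G] {p : ℕ} [Fact p.Prime] [CharP Om p] {x : G} {t : Om}
  (hx : orderOf x = p) (D : TPw p x t)

include hx in
private theorem W11_val (w : Al (D.S.map (lz Om))) (hw : D.R0 w = AI.yy p (C t * X : Om[X])) (k : ℕ) (hk : 1 ≤ k) :
    ∃ s : LaurentSeries Om, ‖s.coeff 0‖ = ‖t‖ ^ (p ^ k - p ^ (k - 1)) ∧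
      D.R0 (PsiA (D.S.map (lz Om)) (psS Om (p ^ k)) (p ^ k)
        (Al.cst (D.S.map (lz Om)) (HahnSeries.single ((p ^ k - p ^ (k - 1) : ℕ) : ℤ) (1 : Om)) * w ^ (p - 1))) =
        AI.ofL p (C t * X : Om[X]) s := by
  have hp : p.Prime := Fact.out
  have hp1 := hp.one_lt
  set c : LaurentSeries Om := HahnSeries.single ((p ^ k - p ^ (k - 1) : ℕ) : ℤ) (1 : Om) with hc
  set P : LaurentSeries Om := AI.zinv Om (PK p t k) with hP
  have hR : D.R0 (w ^ (p - 1)) = AI.yy p (C t * X : Om[X]) ^ (p - 1) := by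
    rw [map_pow, hw]
  have hco : ∀ j ∈ Finset.range p, AI.coordE p (C t * X : Om[X]) (D.R0 (w ^ (p - 1))) j =
      if j = p - 1 then 1 else 0 := by
    intro j hj
    have h := AI.coordE_sum_yy (p := p) (F := (C t * X : Om[X]))
      (fun i => if i = p - 1 then 1 else 0) (Finset.mem_range.1 hj)
    rw [Finset.sum_eq_single (p - 1)] at h
    · rw [hR]
      rw [if_pos rfl, map_one, one_mul] at h
      exact h
    · intro i _ hi
      rw [if_neg hi, map_zero, zero_mul]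
    · intro h1
      exact absurd (Finset.mem_range.2 (by omega)) h1
  have hsgn : ∀ l : ℕ, ∃ σ : LaurentSeries Om, (σ = 1 ∨ σ = -1) ∧
      ∀ z, psS Om (p ^ k) (z * (-P) ^ l) = σ * psS Om (p ^ k) (z * P ^ l) := by
    intro l
    rcases neg_one_pow_eq_or (LaurentSeries Om) l with h | h
    · refine ⟨1, Or.inl rfl, fun z => ?_⟩
      rw [neg_pow, h, one_mul, one_mul]
    · refine ⟨-1, Or.inr rfl, fun z => ?_⟩
      rw [neg_pow, h, neg_one_mul, mul_neg, map_neg, neg_one_mul]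
  obtain ⟨σ, hσ, hσz⟩ := hsgn (p - 1)
  refine ⟨σ * HahnSeries.C (t ^ (p ^ k - p ^ (k - 1))), ?_, ?_⟩
  · rcases hσ with h | h
    · rw [h, one_mul, HahnSeries.C_apply, HahnSeries.coeff_single_same, norm_pow]
    · rw [h, neg_one_mul, HahnSeries.coeff_neg, norm_neg, HahnSeries.C_apply, HahnSeries.coeff_single_same, norm_pow]
  · rw [R0_PsiA hx D k c (w ^ (p - 1)), Finset.sum_eq_single (p - 1)]
    · have h1 : AI.coordE p (C t * X : Om[X]) (D.R0 (w ^ (p - 1))) (p - 1) = 1 := by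
        rw [hco (p - 1) (Finset.mem_range.2 (by omega)), if_pos rfl]
      rw [Finset.sum_eq_single (p - 1)]
      · rw [Nat.choose_self, Nat.cast_one, one_mul, Nat.sub_self, mul_zero, pow_zero, one_mul, h1, mul_one]
        congr 1
        rw [← hP, hσz, psS_PK p t k hk]
      · intro l hl hl'
        have hl2 : l < p - 1 := by
          have := Finset.mem_range.1 hl
          omega
        obtain ⟨τ, _, hτ⟩ := hsgn l
        rw [h1, mul_one, ← hP, hτ, psS_PK_lt p t k hk l hl2, mul_zero, map_zero, mul_zero, mul_zero]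
      · intro h2
        exact absurd (Finset.mem_range.2 (by omega)) h2
    · intro j hj hj'
      refine Finset.sum_eq_zero fun l _ => ?_
      rw [hco j hj, if_neg hj', mul_zero, zero_mul, map_zero, map_zero, mul_zero, mul_zero]
    · intro h2
      exact absurd (Finset.mem_range.2 (by omega)) h2

private theorem W11_bd {r C2 H : ℝ} (hr : 0 < r) (hC2 : 0 ≤ C2) (hH : 0 ≤ H) (k : ℕ) (q' : ℕ)
    (a : Al (D.S.map (lz Om))) (ha : ∀ l, LB r (a l) C2) (hB : Bnd D.S r H (p ^ k)) (l0 : G) :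
    LB r (PsiA (D.S.map (lz Om)) (psS Om (p ^ k)) (p ^ k)
        (Al.cst (D.S.map (lz Om)) (HahnSeries.single (q' : ℤ) (1 : Om)) * a) l0) (C2 * H * r ^ q') := by
  have hp : p.Prime := Fact.out
  have hq : 0 < p ^ k := pow_pos hp.pos k
  choose b hb1 hb2 hb3 using fun l : G => psS_pieces Om (p ^ k) hq (a l)
  have hnn : 0 ≤ C2 * H * r ^ q' := by positivity
  have hexp : Al.cst (D.S.map (lz Om)) (HahnSeries.single (q' : ℤ) (1 : Om)) * a =
      ∑ l, ∑ m ∈ Finset.range (p ^ k), Al.cst (D.S.map (lz Om)) (b l m) *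
        (Al.cst (D.S.map (lz Om)) (HahnSeries.single ((q' : ℤ) + m) (1 : Om)) * Al.e (D.S.map (lz Om)) l) := by
    conv_lhs => rw [Al.eq_sum (D.S.map (lz Om)) a]
    rw [Finset.mul_sum]
    refine Finset.sum_congr rfl fun l _ => ?_
    conv_lhs => rw [hb3 l]
    rw [map_sum, Finset.sum_mul, Finset.mul_sum]
    refine Finset.sum_congr rfl fun m _ => ?_
    have e1 : (HahnSeries.single ((q' : ℤ) + m) (1 : Om) : LaurentSeries Om) =
        HahnSeries.single (q' : ℤ) (1 : Om) * HahnSeries.single (m : ℤ) (1 : Om) := by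
      rw [HahnSeries.single_mul_single, one_mul]
    rw [e1, map_mul, map_mul]
    ring
  rw [hexp, map_sum, Al.sum_apply]
  refine W11_sum _ hr hnn _ fun l _ => ?_
  rw [map_sum, Al.sum_apply]
  refine W11_sum _ hr hnn _ fun m _ => ?_
  rw [PsiA_cst_mul (D.S.map (lz Om)) (psS Om (p ^ k)) (p ^ k) (b l m) (fun z => psS_mul Om (p ^ k) (b l m) z (hb1 l m)), Al.cst_mul]
  have e2 : Al.cst (D.S.map (lz Om)) (HahnSeries.single ((q' : ℤ) + m) (1 : Om)) * Al.e (D.S.map (lz Om)) l =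
      Al.mapA D.S (lz Om) (Al.cst D.S (LaurentPolynomial.T ((q' : ℤ) + m)) * Al.e D.S l) := by
    rw [map_mul, Al.mapA_cst, Al.mapA_e]
    congr 2
    ext n
    rw [lz_coeff, LaurentPolynomial.T, HahnSeries.coeff_single]
    simp [eq_comm]
  have hch : CharP (Lam Om) p :=
    (RingHom.charP_iff (lz Om) (lz_injective Om) p).2 inferInstance
  rw [e2, PsiA_map D.S p k (psL Om (p ^ k)) (lz Om) (psS Om (p ^ k)) (psS_pow_mul Om p k)
    (fun z => (lz_psL Om (p ^ k) z).symm), Al.mapA_apply]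
  have h1 := hB ((q' : ℤ) + m) l l0
  have h2 : LB r (b l m) (C2 * r ^ (-(m : ℤ))) := by
    intro n
    by_cases hn : ((p ^ k : ℕ) : ℤ) ∣ n
    · rw [hb2 l m n hn]
      have h3 := ha l (n + m)
      have h4 : r ^ n = r ^ (n + m) * r ^ (-(m : ℤ)) := by
        rw [← zpow_add₀ hr.ne']
        congr 1
        ring
      rw [h4, ← mul_assoc]
      exact mul_le_mul_of_nonneg_right h3 (by positivity)
    · rw [hb1 l m n hn, norm_zero, zero_mul]
      positivity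
  have h3 := LB.mul hr h2 h1 (by positivity) (by positivity)
  refine W11_mono h3 (le_of_eq ?_)
  have h5 : r ^ (-(m : ℤ)) * r ^ ((q' : ℤ) + m) = r ^ q' := by
    rw [← zpow_add₀ hr.ne']
    have : -(m : ℤ) + ((q' : ℤ) + m) = (q' : ℤ) := by ring
    rw [this, zpow_natCast]
  calc C2 * r ^ (-(m : ℤ)) * (H * r ^ ((q' : ℤ) + m)) = C2 * H * (r ^ (-(m : ℤ)) * r ^ ((q' : ℤ) + m)) := by ring
    _ = C2 * H * r ^ q' := by rw [h5]

include hx in
theorem lower {r C0 C1 : ℝ} (hr : 0 < r) (hrt : r ≤ ‖t‖) (hC0 : 0 ≤ C0) (hC1 : 0 ≤ C1)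
    (h0 : ∀ g l j, LB r (AI.coordE p (C t * X : Om[X]) (D.r0 (Al.act D.S g (Al.e D.S l))) j) C0)
    (w : Al (D.S.map (lz Om))) (hw1 : ∀ l, LB r (w l) C1)
    (hw : D.R0 w = AI.yy p (C t * X : Om[X])) :
    ∃ C : ℝ, 0 < C ∧ ∀ k, 1 ≤ k → ∀ H : ℝ, 0 ≤ H → Bnd D.S r H (p ^ k) →
      (‖t‖ / r) ^ (p ^ k - p ^ (k - 1)) ≤ C * H := by
  have _ := hrt
  obtain ⟨C2, hC2, ha⟩ := W11_pow D.S hr hC1 w hw1 (p - 1)
  refine ⟨max 1 (C2 * C0), lt_of_lt_of_le one_pos (le_max_left _ _), fun k hk H hH hB => ?_⟩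
  set q' : ℕ := p ^ k - p ^ (k - 1) with hq'
  obtain ⟨s, hs1, hs2⟩ := W11_val hx D w hw k hk
  have hbd := W11_bd D hr (by linarith) hH k q' (w ^ (p - 1)) ha hB
  set z := PsiA (D.S.map (lz Om)) (psS Om (p ^ k)) (p ^ k)
        (Al.cst (D.S.map (lz Om)) (HahnSeries.single (q' : ℤ) (1 : Om)) * w ^ (p - 1)) with hz
  have h1 : AI.coordE p (C t * X : Om[X]) (D.R0 z) 0 =
      ∑ i, z i * AI.coordE p (C t * X : Om[X]) (D.r0 (Al.e D.S i)) 0 := by
    have h2 : D.R0 z = ∑ l, AI.ofL p (C t * X : Om[X]) (z l) * D.r0 (Al.e D.S l) := extR_apply _ _ _ _ _ z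
    rw [h2, AI.coordE_sum]
    refine Finset.sum_congr rfl fun i _ => ?_
    rw [AI.coordE_ofL_mul]
  have h3 : LB r (AI.coordE p (C t * X : Om[X]) (D.R0 z) 0) (C2 * H * r ^ q' * C0) := by
    rw [h1]
    refine W11_sum _ hr (by positivity) _ fun i _ => ?_
    refine LB.mul hr (hbd i) ?_ (by positivity) hC0
    have h4 := h0 1 i 0
    rw [Al.act_one_apply] at h4
    exact h4
  rw [hs2, AI.coordE_ofL, if_pos rfl] at h3
  have h5 := h3 0
  rw [zpow_zero, mul_one, hs1] at h5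
  have hrq : 0 < r ^ q' := pow_pos hr _
  rw [div_pow, div_le_iff₀ hrq]
  refine h5.trans ?_
  calc C2 * H * r ^ q' * C0 = (C2 * C0) * (H * r ^ q') := by ring
    _ ≤ max 1 (C2 * C0) * (H * r ^ q') := mul_le_mul_of_nonneg_right (le_max_right _ _) (by positivity)
    _ = max 1 (C2 * C0) * H * r ^ q' := by ring

end

end Pool.Agent.MP_1c8e06_ag.CY
end

section

set_option autoImplicit false

open Polynomial
open scoped Classical

namespace Pool.Agent.MP_1c8e06_ag.CY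

open Pool.Agent.MP_1c8e06_ag.AJ

noncomputable section

/-!
# TASK W12: three circles, THEOREM A0

Black boxes: `W3.tame_Bnd`, `W4.exists_common`, `W7` (`exists_W`, `coord_conv`), `W10.upper`, `W11.lower`.
* `three_circles`: coefficientwise.  `A_n := ‖f_n‖ d0 ^ n ≤ H0 d0 ^ m`, `B_n := ‖f_n‖ r ^ n ≤ H2 r ^ m`, and
  `(‖f_n‖ d1 ^ n) ^ 2 = A_n B_n ≤ (H0 H2) (d1 ^ m) ^ 2` since `d1 ^ 2 = d0 r` (`zpow`).  So
  `‖f_n‖ d1 ^ n ≤ √(H0 H2) * d1 ^ m` (`Real.le_sqrt`, `abs_le_of_sq_le..`).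
* `theoremA0`: suppose `Sepb W b` and `0 < r < ‖t‖`.  The series `coordE (r0 (act g (e l))) j` for `j < p` (for `j ≥ p` they are `0`,
  `AI.coordE_of_le`) and the coordinates of the element `w` of `exists_W` have a common radius `ρ` (`exists_common` for a finite
  type, e.g. `(G × G × Fin p) ⊕ G`).  `d1 := min ρ (r/2)`, `d0 := d1 ^ 2 / r`: `0 < d0 ≤ d1 ≤ ρ`, `d1 < r < ‖t‖`,
  `d1 ^ 2 = d0 * r`.  `q' := p^k - p^(k-1)`.
  `tame_Bnd`: `Bnd S r C1 (p^k)` for all `k`; `upper` at `d0`: `Bnd S d0 (C2 (‖t‖/d0)^q') (p^k)`; `three_circles`: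
  `Bnd S d1 (√(C2 (‖t‖/d0)^q' C1)) (p^k)`; `lower` at `d1`: `(‖t‖/d1)^q' ≤ C3 √(..)`.  Squaring:
  `((‖t‖/d1)^2)^q' ≤ C3^2 C1 C2 (‖t‖/d0)^q'`, i.e. `(‖t‖ / r)^q' ≤ C3^2 C1 C2` for all `k ≥ 1` (`(‖t‖/d1)^2 = (‖t‖/d0) (‖t‖/r)`).
  But `‖t‖ / r > 1` and `q' ≥ 2^(k-1)` or `q' ≥ k` is unbounded (`one_lt ... tendsto_pow_atTop_atTop_of_one_lt`; `q' ≥ k`:
  `p^k - p^(k-1) = (p-1) p^(k-1) ≥ 2^(k-1) ≥ k`).  Contradiction.
-/

variable {Om : Type} [NormedField Om] [CompleteSpace Om] [IsUltrametricDist Om] [IsAlgClosed Om]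
  {G : Type} [Group G] [Fintype G] {p : ℕ} [Fact p.Prime] [CharP Om p] {x : G} {t : Om}

theorem three_circles (S : SC (Lam Om) G) {d0 d1 r H0 H2 : ℝ} (h0 : 0 < d0) (h1 : 0 < d1) (hr : 0 < r)
    (hd : d1 ^ 2 = d0 * r) (hH0 : 0 ≤ H0) (hH2 : 0 ≤ H2) (q : ℕ) (hb0 : Bnd S d0 H0 q)
    (hb2 : Bnd S r H2 q) : Bnd S d1 (Real.sqrt (H0 * H2)) q := by
  intro m i l n
  have hA := hb0 m i l n
  have hB := hb2 m i l n
  set c : ℝ := ‖(lz Om (PsiA S (psL Om q) q (Al.cst S (LaurentPolynomial.T m) * Al.e S i) l)).coeff n‖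
    with hc
  have hc0 : 0 ≤ c := norm_nonneg _
  have hsq : ∀ k : ℤ, (d1 ^ k) ^ 2 = d0 ^ k * r ^ k := by
    intro k
    rw [← mul_zpow, ← hd, ← zpow_natCast, ← zpow_natCast, ← zpow_mul, ← zpow_mul, mul_comm]
  have hle : (c * d1 ^ n) ^ 2 ≤ (Real.sqrt (H0 * H2) * d1 ^ m) ^ 2 := by
    rw [mul_pow, mul_pow, hsq, hsq, Real.sq_sqrt (mul_nonneg hH0 hH2)]
    calc c ^ 2 * (d0 ^ n * r ^ n) = (c * d0 ^ n) * (c * r ^ n) := by ring
      _ ≤ (H0 * d0 ^ m) * (H2 * r ^ m) :=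
        mul_le_mul hA hB (mul_nonneg hc0 (zpow_nonneg hr.le _))
          (mul_nonneg hH0 (zpow_nonneg h0.le _))
      _ = H0 * H2 * (d0 ^ m * r ^ m) := by ring
  exact (le_abs_self _).trans (abs_le_of_sq_le_sq hle
    (mul_nonneg (Real.sqrt_nonneg _) (zpow_nonneg h1.le _)))

theorem theoremA0 (hx : orderOf x = p) (D : TPw p x t) {r : ℝ} (hr : 0 < r) (hrt : r < ‖t‖)
    (W : MS D.S fun f => (gp 0 r).v (jF Om f)) (b : Al D.S) : ¬ Sepb W b := by
  intro hS
  obtain ⟨w, hwc, hwj, -⟩ := exists_W hx D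
  have hw : D.R0 w = AI.yy p (C t * X : Om[X]) := by
    have h1 := hwj 0
    rwa [pow_zero, Al.act_one_apply, Nat.cast_zero, add_zero] at h1
  obtain ⟨ρ, hρ, hρ2⟩ := exists_common
    (Sum.elim (fun i : G × G × Fin p => AI.coordE p (C t * X : Om[X])
      (D.r0 (Al.act D.S i.1 (Al.e D.S i.2.1))) (i.2.2 : ℕ)) w) (by
      rintro (i | l)
      · exact coord_conv hx D _ _ _
      · exact hwc l)
  -- bounds at all small radii
  have hbd : ∀ d : ℝ, 0 < d → d ≤ ρ → ∃ C0, 0 ≤ C0 ∧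
      (∀ g l j, LB d (AI.coordE p (C t * X : Om[X]) (D.r0 (Al.act D.S g (Al.e D.S l))) j) C0) ∧
      ∀ l, LB d (w l) C0 := by
    intro d hd hd2
    obtain ⟨C0, hC0, h⟩ := hρ2 d hd hd2
    refine ⟨C0, hC0, fun g l j => ?_, fun l => h (Sum.inr l)⟩
    by_cases hj : j < p
    · exact h (Sum.inl (g, l, ⟨j, hj⟩))
    · rw [AI.coordE_of_le _ (not_lt.1 hj)]
      intro n
      rw [HahnSeries.coeff_zero, norm_zero, zero_mul]
      exact hC0
  obtain ⟨d1, hd1, hd1ρ, hd1r⟩ : ∃ d1 : ℝ, 0 < d1 ∧ d1 ≤ ρ ∧ d1 < r :=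
    ⟨min ρ (r / 2), lt_min hρ (half_pos hr), min_le_left _ _,
      (min_le_right _ _).trans_lt (half_lt_self hr)⟩
  obtain ⟨d0, hd0⟩ : ∃ d0 : ℝ, d0 = d1 ^ 2 / r := ⟨_, rfl⟩
  have hd0p : 0 < d0 := by
    rw [hd0]
    exact div_pos (pow_pos hd1 2) hr
  have hd : d1 ^ 2 = d0 * r := by
    rw [hd0, div_mul_cancel₀ _ hr.ne']
  have hd01 : d0 ≤ d1 := by
    rw [hd0, div_le_iff₀ hr, sq]
    exact mul_le_mul_of_nonneg_left hd1r.le hd1.le
  obtain ⟨Ca, hCa, hCa1, hCa2⟩ := hbd d1 hd1 hd1ρ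
  obtain ⟨Cb, hCb, hCb1, -⟩ := hbd d0 hd0p (hd01.trans hd1ρ)
  obtain ⟨C1, hC1, hB1⟩ := tame_Bnd p hr W b hS
  obtain ⟨C2, hC2, hB2⟩ := upper hx D hd0p (hd01.trans (hd1r.le.trans hrt.le)) hCb hCb1
  obtain ⟨C3, hC3, hB3⟩ := lower hx D hd1 (hd1r.le.trans hrt.le) hCa hCa hCa1 w hCa2 hw
  have ht : 0 < ‖t‖ := hr.trans hrt
  have ht0 : 0 < ‖t‖ / d0 := div_pos ht hd0p
  have key : ∀ k, 1 ≤ k → (‖t‖ / r) ^ (p ^ k - p ^ (k - 1)) ≤ C3 ^ 2 * (C2 * C1) := by
    intro k hk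
    set q' := p ^ k - p ^ (k - 1) with hq'
    have hH0 : 0 ≤ C2 * (‖t‖ / d0) ^ q' := mul_nonneg hC2.le (pow_nonneg ht0.le _)
    have h1 := three_circles D.S hd0p hd1 hr hd hH0 hC1.le (p ^ k) (hB2 k hk) (hB1 k)
    have h2 := hB3 k hk _ (Real.sqrt_nonneg _) h1
    have h3 : ((‖t‖ / d1) ^ q') ^ 2 ≤ C3 ^ 2 * (C2 * (‖t‖ / d0) ^ q' * C1) := by
      rw [← Real.sq_sqrt (mul_nonneg hH0 hC1.le), ← mul_pow]
      exact pow_le_pow_left₀ (pow_nonneg (div_pos ht hd1).le _) h2 2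
    have h4 : ((‖t‖ / d1) ^ q') ^ 2 = (‖t‖ / d0) ^ q' * (‖t‖ / r) ^ q' := by
      rw [← mul_pow, ← pow_mul, mul_comm q' 2, pow_mul]
      congr 1
      rw [div_pow, hd]
      ring
    rw [h4] at h3
    have h5 : (‖t‖ / d0) ^ q' * (‖t‖ / r) ^ q' ≤ (‖t‖ / d0) ^ q' * (C3 ^ 2 * (C2 * C1)) := by
      refine h3.trans (le_of_eq ?_)
      ring
    exact le_of_mul_le_mul_left h5 (pow_pos ht0 _)
  have hgt : 1 < ‖t‖ / r := (one_lt_div hr).2 hrt
  obtain ⟨n, hn⟩ := pow_unbounded_of_one_lt (C3 ^ 2 * (C2 * C1)) hgt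
  have hp : p.Prime := Fact.out
  have h1 := key (n + 1) (Nat.le_add_left 1 n)
  have h2 : n ≤ p ^ (n + 1) - p ^ (n + 1 - 1) := by
    have h3 : n < p ^ n := Nat.lt_pow_self hp.one_lt
    have h4 : 2 * p ^ n ≤ p ^ (n + 1) := by
      rw [pow_succ, mul_comm]
      exact Nat.mul_le_mul_left _ hp.two_le
    rw [Nat.add_sub_cancel]
    omega
  exact absurd (hn.trans_le ((pow_le_pow_right₀ hgt.le h2).trans h1)) (lt_irrefl _)

end

end Pool.Agent.MP_1c8e06_ag.CY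
end
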