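import Pool.Agent.Lib.MP_1c8e06_ag.CY.Defs3
import Pool.Agent.Lib.MP_1c8e06_ag.Mg.G094
import Pool.Agent.Lib.MP_1c8e06_ag.CY.TDefs

section

/-!
# CY V1: values at 0 and at infinity: equivariance, injectivity, linear independence

D.v0 θ e h : Al (D.S.map θ) →+* EE (Defs3) is the extension of D.r0: v0 a = ∑ ofL (e (a l)) * r0 (e l).
`v0_x`: both sides are ring homs (`Al.hom_ext`): on cst b: tau (ofL c) = ofL c (tau is AdjoinRoot.lift over ofL;
`AI.tau` unfold, `AdjoinRoot.lift_of`); on e l: act x (e l) = ∑ α e m (`Al.act_e`), D.r0_x for a = e l and D.r0_cst.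
`v0_dual`: apply v0 ∘ act g to the relation `dual`: for elements of Al S: ∑_{l,m} cst(T'_{lm}) e_l * act h e_m =
[h = 1]: compare AJ/B/C1 or prove: coordinate k is S.dual h k (`Al.mul_apply`, `Al.act_e`).  With h = g⁻¹ g':
∑_{lm} ofL (e (θ T'_{lm})) * v0 (act g (e l)) * v0 (act g' (e m)) = if g = g' then 1 else 0.  (e ∘ θ = lz.)
`v0_row`: multiply ∑_g c g * v0 (act g e_l) = 0 by ofL(lz T'_{lm}) * v0 (act g' e_m) and sum over l, m: c g' = 0.
`v0_inj`: the matrix M_{g,l} = v0 (act g e_l) has the left inverse property too: M T' Mᵗ = 1 ⟹ M invertible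
(square matrices over a commutative ring) ⟹ from ∑_l ofL (e (a l)) M_{g,l} = v0 (act g a) = 0 for all g
[v0 (act g a) = ∑_l ofL(e(a l)) v0 (act g e_l)] we get ofL (e (a l)) = 0, and ofL is injective
(AdjoinRoot of a monic polynomial of degree p > 0: `AdjoinRoot.of.injective_of_degree_ne_zero` or via coordE).
`v0_fixed`: tau (v0 a) = v0 (act x a) = v0 a and `AI.tau_fixed` (AI/A2).
The statements at infinity are the same with r1, lzi.
-/

set_option autoImplicit false

open Polynomial
open scoped Classical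

namespace Pool.Agent.MP_1c8e06_ag.CY

open Pool.Agent.MP_1c8e06_ag.AJ

noncomputable section

set_option linter.unusedSectionVars false

variable {p : ℕ} [Fact p.Prime] {K : Type} [Field K] [CharP K p] {G : Type} [Group G]
  [Fintype G] {x : G} {t : K} (D : TPw p x t) {B : Type} [CommRing B] (θ : Lam K →+* B)
  (e : B →+* LaurentSeries K)

private theorem V1_tau_ofL (F : K[X]) (c : LaurentSeries K) :
    AI.tau p F (AI.ofL p F c) = AI.ofL p F c := by
  unfold AI.tau AI.ofL
  rw [AdjoinRoot.lift_of]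

private theorem V1_dual {B' : Type} [CommRing B'] (S : SC B' G) (g g' : G) :
    ∑ l, ∑ m, Al.cst S (S.T' l m) * Al.act S g (Al.e S l) * Al.act S g' (Al.e S m) =
      if g = g' then 1 else 0 := by
  have h := congrArg (Al.act S g) (dual_e S (g⁻¹ * g'))
  rw [map_sum] at h
  have e1 : ∀ l, Al.act S g (∑ m, Al.cst S (S.T' l m) * Al.e S l *
      Al.act S (g⁻¹ * g') (Al.e S m)) =
      ∑ m, Al.cst S (S.T' l m) * Al.act S g (Al.e S l) * Al.act S g' (Al.e S m) := by
    intro l
    rw [map_sum]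
    refine Finset.sum_congr rfl fun m _ => ?_
    rw [map_mul, map_mul, Al.act_cst, ← Al.act_mul_apply, mul_inv_cancel_left]
  rw [Finset.sum_congr rfl fun l _ => e1 l] at h
  rw [h]
  by_cases hg : g = g'
  · rw [if_pos hg, if_pos (by rw [hg, inv_mul_cancel]), map_one]
  · rw [if_neg hg, if_neg (fun h2 => hg (inv_mul_eq_one.1 h2)), map_zero]

private theorem V1_row {B' A : Type} [CommRing B'] [CommRing A] (S : SC B' G) (v : Al S →+* A)
    (c : G → A) (hc : ∀ l, ∑ g, c g * v (Al.act S g (Al.e S l)) = 0) (g' : G) : c g' = 0 := by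
  have h : ∀ g, v (∑ l, ∑ m, Al.cst S (S.T' l m) * Al.act S g (Al.e S l) *
      Al.act S g' (Al.e S m)) = if g = g' then 1 else 0 := by
    intro g
    rw [V1_dual]
    split_ifs
    · exact map_one v
    · exact map_zero v
  calc c g' = ∑ g, c g * (if g = g' then 1 else 0) := by simp
    _ = ∑ g, ∑ l, ∑ m, (v (Al.cst S (S.T' l m)) * v (Al.act S g' (Al.e S m))) *
        (c g * v (Al.act S g (Al.e S l))) := by
        refine Finset.sum_congr rfl fun g _ => ?_
        rw [← h g, map_sum, Finset.mul_sum]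
        refine Finset.sum_congr rfl fun l _ => ?_
        rw [map_sum, Finset.mul_sum]
        refine Finset.sum_congr rfl fun m _ => ?_
        rw [map_mul, map_mul]
        ring
    _ = ∑ l, ∑ m, ∑ g, (v (Al.cst S (S.T' l m)) * v (Al.act S g' (Al.e S m))) *
        (c g * v (Al.act S g (Al.e S l))) := by
        rw [Finset.sum_comm]
        refine Finset.sum_congr rfl fun l _ => ?_
        rw [Finset.sum_comm]
    _ = 0 := by
        refine Finset.sum_eq_zero fun l _ => Finset.sum_eq_zero fun m _ => ?_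
        rw [← Finset.mul_sum, hc, mul_zero]

private theorem V1_inj {B' A : Type} [CommRing B'] [CommRing A] (S : SC B' G) (v : Al S →+* A)
    (a : Al S) (ha : ∀ g, v (Al.act S g a) = 0) (l : G) : v (Al.cst S (a l)) = 0 := by
  let M : Matrix G G A := fun g l => v (Al.act S g (Al.e S l))
  let N : Matrix G G A := fun l g => ∑ m, v (Al.cst S (S.T' l m)) * v (Al.act S g (Al.e S m))
  have h1 : M * N = 1 := by
    ext g g'
    rw [Matrix.mul_apply, Matrix.one_apply]
    have h := congrArg v (V1_dual S g g')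
    rw [map_sum] at h
    have h2 : v (if g = g' then 1 else 0) = if g = g' then 1 else 0 := by
      split_ifs
      · exact map_one v
      · exact map_zero v
    rw [h2] at h
    rw [← h]
    refine Finset.sum_congr rfl fun l _ => ?_
    show v (Al.act S g (Al.e S l)) *
      (∑ m, v (Al.cst S (S.T' l m)) * v (Al.act S g' (Al.e S m))) = _
    rw [map_sum, Finset.mul_sum]
    refine Finset.sum_congr rfl fun m _ => ?_
    rw [map_mul, map_mul]
    ring
  have h2 : N * M = 1 := mul_eq_one_comm.1 h1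
  have h3 : ∀ g, ∑ l, M g l * v (Al.cst S (a l)) = 0 := by
    intro g
    rw [← ha g]
    conv_rhs => rw [Al.eq_sum S a]
    rw [map_sum, map_sum]
    refine Finset.sum_congr rfl fun l _ => ?_
    rw [map_mul, map_mul, Al.act_cst, mul_comm]
  have h4 : M.mulVec (fun l => v (Al.cst S (a l))) = 0 := funext h3
  have h5 : N.mulVec (M.mulVec (fun l => v (Al.cst S (a l)))) = 0 := by
    rw [h4, Matrix.mulVec_zero]
  rw [Matrix.mulVec_mulVec, h2, Matrix.one_mulVec] at h5
  exact congrFun h5 l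

theorem TPw.v0_x (h : ∀ q, e (θ q) = lz K q) (a : Al (D.S.map θ)) :
    D.v0 θ e h (Al.act _ x a) = AI.tau p (C t * X : K[X]) (D.v0 θ e h a) := by
  have key : (D.v0 θ e h).comp (Al.act (D.S.map θ) x) =
      (AI.tau p (C t * X : K[X])).comp (D.v0 θ e h) := by
    refine Al.hom_ext _ (fun b => ?_) (fun l => ?_)
    · rw [RingHom.comp_apply, RingHom.comp_apply, Al.act_cst, TPw.v0_cst, V1_tau_ofL]
    · rw [RingHom.comp_apply, RingHom.comp_apply, Al.act_e, map_sum]
      have e1 : ∀ m, D.v0 θ e h (Al.e _ m) = D.r0 (Al.e D.S m) := fun m => Al.lift_e _ _ _ _ _ m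
      rw [e1, ← D.r0_x, Al.act_e, map_sum]
      refine Finset.sum_congr rfl fun m _ => ?_
      rw [map_mul, map_mul, TPw.v0_cst, e1, D.r0_cst]
      congr 2
      exact h _
  exact RingHom.congr_fun key a

theorem TPw.v1_x (h : ∀ q, e (θ q) = lzi K q) (a : Al (D.S.map θ)) :
    D.v1 θ e h (Al.act _ x a) = AI.tau p (C t * X : K[X]) (D.v1 θ e h a) := by
  have key : (D.v1 θ e h).comp (Al.act (D.S.map θ) x) =
      (AI.tau p (C t * X : K[X])).comp (D.v1 θ e h) := by
    refine Al.hom_ext _ (fun b => ?_) (fun l => ?_)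
    · rw [RingHom.comp_apply, RingHom.comp_apply, Al.act_cst, TPw.v1_cst, V1_tau_ofL]
    · rw [RingHom.comp_apply, RingHom.comp_apply, Al.act_e, map_sum]
      have e1 : ∀ m, D.v1 θ e h (Al.e _ m) = D.r1 (Al.e D.S m) := fun m => Al.lift_e _ _ _ _ _ m
      rw [e1, ← D.r1_x, Al.act_e, map_sum]
      refine Finset.sum_congr rfl fun m _ => ?_
      rw [map_mul, map_mul, TPw.v1_cst, e1, D.r1_cst]
      congr 2
      exact h _
  exact RingHom.congr_fun key a

theorem TPw.v0_mapA (h : ∀ q, e (θ q) = lz K q) (a : Al D.S) :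
    D.v0 θ e h (Al.mapA D.S θ a) = D.r0 a := by
  have key : (D.v0 θ e h).comp (Al.mapA D.S θ) = D.r0 := by
    refine Al.hom_ext _ (fun b => ?_) (fun l => ?_)
    · rw [RingHom.comp_apply, Al.mapA_cst, TPw.v0_cst, h, D.r0_cst]
    · rw [RingHom.comp_apply, Al.mapA_e]
      exact Al.lift_e _ _ _ _ _ l
  exact RingHom.congr_fun key a

theorem TPw.v1_mapA (h : ∀ q, e (θ q) = lzi K q) (a : Al D.S) :
    D.v1 θ e h (Al.mapA D.S θ a) = D.r1 a := by
  have key : (D.v1 θ e h).comp (Al.mapA D.S θ) = D.r1 := by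
    refine Al.hom_ext _ (fun b => ?_) (fun l => ?_)
    · rw [RingHom.comp_apply, Al.mapA_cst, TPw.v1_cst, h, D.r1_cst]
    · rw [RingHom.comp_apply, Al.mapA_e]
      exact Al.lift_e _ _ _ _ _ l
  exact RingHom.congr_fun key a

theorem ofL_injective (F : K[X]) : Function.Injective (AI.ofL p F) := by
  refine AdjoinRoot.of.injective_of_degree_ne_zero ?_
  rw [Polynomial.degree_eq_natDegree (AI.asPoly_monic p F).ne_zero, AI.asPoly_natDegree]
  exact_mod_cast (Fact.out : p.Prime).ne_zero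

theorem tau_ofL (F : K[X]) (c : LaurentSeries K) : AI.tau p F (AI.ofL p F c) = AI.ofL p F c :=
  V1_tau_ofL F c

theorem Al.dual' {B' : Type} [CommRing B'] (S : SC B' G) (g g' : G) :
    ∑ l, ∑ m, Al.cst S (S.T' l m) * Al.act S g (Al.e S l) * Al.act S g' (Al.e S m) =
      if g = g' then 1 else 0 := V1_dual S g g'

theorem TPw.v0_row (h : ∀ q, e (θ q) = lz K q) (c : G → AI.EE p (C t * X : K[X]))
    (hc : ∀ l, ∑ g, c g * D.v0 θ e h (Al.act _ g (Al.e _ l)) = 0) : ∀ g, c g = 0 :=
  V1_row _ _ c hc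

theorem TPw.v1_row (h : ∀ q, e (θ q) = lzi K q) (c : G → AI.EE p (C t * X : K[X]))
    (hc : ∀ l, ∑ g, c g * D.v1 θ e h (Al.act _ g (Al.e _ l)) = 0) : ∀ g, c g = 0 :=
  V1_row _ _ c hc

theorem TPw.v0_inj (h : ∀ q, e (θ q) = lz K q) (a : Al (D.S.map θ))
    (ha : ∀ g, D.v0 θ e h (Al.act _ g a) = 0) (l : G) : e (a l) = 0 := by
  have h1 := V1_inj _ _ a ha l
  rw [TPw.v0_cst] at h1
  exact ofL_injective _ (h1.trans (map_zero _).symm)

theorem TPw.v1_inj (h : ∀ q, e (θ q) = lzi K q) (a : Al (D.S.map θ))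
    (ha : ∀ g, D.v1 θ e h (Al.act _ g a) = 0) (l : G) : e (a l) = 0 := by
  have h1 := V1_inj _ _ a ha l
  rw [TPw.v1_cst] at h1
  exact ofL_injective _ (h1.trans (map_zero _).symm)

theorem TPw.v0_fixed (h : ∀ q, e (θ q) = lz K q) (a : Al (D.S.map θ)) (ha : Al.act _ x a = a) :
    ∃ c, D.v0 θ e h a = AI.ofL p (C t * X : K[X]) c := by
  refine AI.tau_fixed _ ?_
  rw [← D.v0_x θ e h, ha]

theorem TPw.v1_fixed (h : ∀ q, e (θ q) = lzi K q) (a : Al (D.S.map θ)) (ha : Al.act _ x a = a) :
    ∃ c, D.v1 θ e h a = AI.ofL p (C t * X : K[X]) c := by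
  refine AI.tau_fixed _ ?_
  rw [← D.v1_x θ e h, ha]

end

end Pool.Agent.MP_1c8e06_ag.CY
end

section

/-!
# CY T1: polynomials over a ring of characteristic p with values on F_p

A is a commutative ring with (p : A) = 0, F_p → A is k ↦ (k.val : A); `val_add_cast`: (k + l).val = k.val + l.val
in A (`ZMod.val_add` and `Nat.cast` of a number mod p: `Nat.mod_add_div`, (p : A) = 0), the same for sub, mul; for
k ≠ l the difference (k.val : A) - (l.val : A) is a unit (k - l is a unit of ZMod p: multiply with ((k-l)⁻¹).val).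
All this is easiest with the ring homomorphism iF : ZMod p →+* A, `iF hA := ZMod.castHom (ringChar.dvd hA) A`
(needs no instance: `CharP A (ringChar A)` is one), iF k = (k.val : A) (`ZMod.natCast_val`).  All polynomial facts which
do not contain Q can be proved in (ZMod p)[X] (a domain!) and mapped by `Polynomial.mapRingHom iF`.
`dY_natDegree_le`: degree of (X - C k)^(p-1) is ≤ p-1 (`natDegree_pow_le`, `natDegree_X_sub_C_le`).
`dY_eval`: 1 - (j - k)^(p-1) and (`ZMod.pow_card_sub_one_eq_one`) for j ≠ k; 0^(p-1) = 0 for j = k as p ≥ 2.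
`eq_zero_of_eval`: Q of degree < p with Q(k) = 0 for all k ∈ F_p is 0.  Proof: induction over a list of distinct elements:
or: Q - ∑_i coefficient... simplest: X^p - X = ∏_{k} (X - C k) in (ZMod p)[X] (`ZMod.expand..`/`FiniteField.prod_X_sub_C..`:
`FiniteField.X_pow_card_sub_X...`); show by induction on a finset s ⊆ ZMod p that Q = (∏_{k∈s} (X - C k)) * R with R of degree
natDegree Q - card s: if Q(k) = 0 for k ∉ s then R(k) * ∏ (k - l) = 0 and the product is a unit, so R(k) = 0 and
(X - C k) ∣ R (`dvd_iff_isRoot`); for s = univ the degree of the monic product is p > natDegree Q, so R = 0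
(`Monic.natDegree_mul'`/`Monic.mul_right_eq_zero_iff`).  ALTERNATIVE: Q = ∑_{i<p} C q_i X^i and in (ZMod p)[X]
X^i = ∑_k C(k^i) d_k for i < p (Lagrange over a field: the difference has degree < p and p roots,
`eq_of_natDegree_lt_card_of_eval_eq` or `Polynomial.card_roots'`), so Q = ∑_k d_k C(Q(k)): this is `interp`, and
`eq_zero_of_eval`, `poly_ext` follow at once.
`dvd_of_eval`: division with remainder by the monic X^p - X (`modByMonic_add_div`): Q = (X^p - X) R + r, r(k) = 0, so r = 0 by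
the previous point (degree of r < p; natDegree (X^p - X) = p when A is nontrivial; the trivial ring is trivial:
`subsingleton_or_nontrivial`); natDegree R = natDegree Q - p ≤ p - 2 (`natDegree_divByMonic`) .
`frob_shift`: (X + C k)^p - (X + C k) = X^p - X: `add_pow_char`-like with (p : A) = 0 (`exists_add_pow_prime_eq` as in
AI.tau) and k^p = k in F_p (`ZMod.pow_card`).
`sum_comp`: S_i := ∑_k (X + C k)^i.  (a) i ≤ p - 1: a polynomial of degree ≤ i < p with value ∑_k (j + k)^i = ∑_k k^i at j: it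
is the constant C (∑_k k^i) by `poly_ext`; and ∑_k k^i = 0 for i ≤ p - 2 (`FiniteField.sum_pow_lt_card_sub_one`, card (ZMod p) =
p).  (b) p ≤ i ≤ 2p - 2: (X + k)^i = (X + k)^(i-p) (X + k)^p = (X + k)^(i-p) (X + k + (X^p - X)) so
S_i = S_(i-p+1) + (X^p - X) S_(i-p) = S_(i-p+1) since i - p ≤ p - 2; constant by (a).  So S_i is constant for i ≤ 2p - 2, hence
∑_k Q(X + k) is constant for natDegree Q ≤ 2p - 2 and the constant is the value at 0: ∑_k Q(k).
`sum_eval_zero`: linearity and ∑_k k^i = 0 for i ≤ p - 2.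
`sum_dY_mul`: d_k(Y) d_(k-j)(Y) = Q(Y - k) with Q := d_0 * (d_0).comp (X + C j), degree ≤ 2p-2 (check: d_k = d_0(Y - k),
d_(k-j) = d_0(Y - k + j)).  Reindex k ↦ -k and `sum_comp`: the sum is the constant ∑_k Q(-k) = ∑_k [k=0][k=j] = [j=0].
-/

set_option autoImplicit false

open Polynomial
open scoped Classical

namespace Pool.Agent.MP_1c8e06_ag.CY

open Pool.Agent.MP_1c8e06_ag.AJ

noncomputable section

set_option linter.unusedSectionVars false

variable (p : ℕ) [Fact p.Prime] {A : Type} [CommRing A]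

private def T1_iF (hA : (p : A) = 0) : ZMod p →+* A :=
  haveI := ringChar.charP A
  ZMod.castHom (ringChar.dvd hA) A

private theorem T1_iF_apply (hA : (p : A) = 0) (k : ZMod p) : T1_iF p hA k = (k.val : A) := by
  have := ringChar.charP A
  have : NeZero p := ⟨(Fact.out : p.Prime).ne_zero⟩
  rw [T1_iF, ZMod.castHom_apply, ZMod.natCast_val]

theorem val_add_cast (hA : (p : A) = 0) (k l : ZMod p) :
    ((k + l).val : A) = (k.val : A) + (l.val : A) := by
  simp only [← T1_iF_apply p hA, map_add]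

theorem val_sub_cast (hA : (p : A) = 0) (k l : ZMod p) :
    ((k - l).val : A) = (k.val : A) - (l.val : A) := by
  simp only [← T1_iF_apply p hA, map_sub]

theorem dY_natDegree_le (A : Type) [CommRing A] (k : ZMod p) : (dY p A k).natDegree ≤ p - 1 := by
  unfold dY
  refine (natDegree_sub_le _ _).trans ?_
  rw [natDegree_one]
  refine max_le (Nat.zero_le _) ?_
  refine natDegree_pow_le.trans ?_
  calc (p - 1) * (X - C (k.val : A)).natDegree ≤ (p - 1) * 1 :=
        Nat.mul_le_mul_left _ (natDegree_X_sub_C_le _)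
    _ = p - 1 := mul_one _

theorem dY_eval (hA : (p : A) = 0) (j k : ZMod p) :
    (dY p A k).eval (j.val : A) = if j = k then 1 else 0 := by
  have hp : p.Prime := Fact.out
  have h1 : (dY p A k).eval (j.val : A) = T1_iF p hA (1 - (j - k) ^ (p - 1)) := by
    rw [map_sub, map_one, map_pow, map_sub, T1_iF_apply p hA, T1_iF_apply p hA]
    simp only [dY, eval_sub, eval_one, eval_pow, eval_X, eval_C]
  rw [h1]
  split_ifs with h
  · rw [h, sub_self, zero_pow (by have := hp.two_le; omega), sub_zero, map_one]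
  · rw [ZMod.pow_card_sub_one_eq_one (sub_ne_zero.2 h), sub_self, map_zero]

theorem dY_map {A' : Type} [CommRing A'] (φ : A →+* A') (k : ZMod p) :
    (dY p A k).map φ = dY p A' k := by
  unfold dY
  rw [Polynomial.map_sub, Polynomial.map_one, Polynomial.map_pow, Polynomial.map_sub, map_X,
    Polynomial.map_C, _root_.map_natCast φ]

private theorem T1_pow_interp (hA : (p : A) = 0) (i : ℕ) (hi : i < p) :
    (X : A[X]) ^ i = ∑ k : ZMod p, dY p A k * C ((k.val : A) ^ i) := by
  have hp : p.Prime := Fact.out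
  have h0 : ((p : ℕ) : ZMod p) = 0 := ZMod.natCast_self p
  have hv : ∀ k : ZMod p, ((k.val : ℕ) : ZMod p) = k := fun k => by
    have : NeZero p := ⟨hp.ne_zero⟩
    exact ZMod.natCast_zmod_val k
  have h1 : (X : (ZMod p)[X]) ^ i = ∑ k : ZMod p, dY p (ZMod p) k * C (k ^ i) := by
    apply eq_of_natDegree_lt_card_of_eval_eq _ _ (f := (id : ZMod p → ZMod p))
      Function.injective_id
    · intro j
      have h2 : ∀ k : ZMod p, (dY p (ZMod p) k).eval j = if j = k then 1 else 0 := by
        intro k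
        have h3 := dY_eval p h0 j k
        rw [hv j] at h3
        exact h3
      simp only [id, eval_pow, eval_X, eval_finsetSum, eval_mul, eval_C, h2]
      rw [Finset.sum_eq_single j]
      · rw [if_pos rfl, one_mul]
      · intro b _ hb
        rw [if_neg (Ne.symm hb), zero_mul]
      · intro h
        exact absurd (Finset.mem_univ j) h
    · rw [ZMod.card p, max_lt_iff]
      constructor
      · rw [natDegree_X_pow]
        exact hi
      · refine lt_of_le_of_lt (natDegree_sum_le_of_forall_le (n := p - 1) _ _ ?_)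
          (by have := hp.two_le; omega)
        intro k _
        refine natDegree_mul_C_le _ _ |>.trans (dY_natDegree_le p (ZMod p) k)
  have h2 := congrArg (Polynomial.map (T1_iF p hA)) h1
  simp only [Polynomial.map_pow, map_X, Polynomial.map_sum, Polynomial.map_mul, dY_map, map_C,
    map_pow, T1_iF_apply p hA] at h2
  rw [h2]
  refine Finset.sum_congr rfl fun k _ => ?_
  rw [C_pow]

theorem interp (hA : (p : A) = 0) (Q : A[X]) (hQ : Q.natDegree < p) :
    Q = ∑ k : ZMod p, dY p A k * C (Q.eval (k.val : A)) := by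
  have h1 : Q = ∑ i ∈ Finset.range p, C (Q.coeff i) * X ^ i := by
    conv_lhs => rw [Q.as_sum_range' p hQ]
    refine Finset.sum_congr rfl fun i _ => ?_
    rw [C_mul_X_pow_eq_monomial]
  have h2 : ∀ k : ZMod p, Q.eval (k.val : A) = ∑ i ∈ Finset.range p, Q.coeff i * (k.val : A) ^ i := by
    intro k
    conv_lhs => rw [h1]
    simp only [eval_finsetSum, eval_mul, eval_C, eval_pow, eval_X]
  conv_lhs => rw [h1]
  simp only [h2, map_sum, Finset.mul_sum]
  rw [Finset.sum_comm]
  refine Finset.sum_congr rfl fun i hi => ?_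
  rw [T1_pow_interp p hA i (Finset.mem_range.1 hi), Finset.mul_sum]
  refine Finset.sum_congr rfl fun k _ => ?_
  rw [C_mul]
  ring

theorem poly_ext (hA : (p : A) = 0) {P Q : A[X]} (hP : P.natDegree < p) (hQ : Q.natDegree < p)
    (h : ∀ k : ZMod p, P.eval (k.val : A) = Q.eval (k.val : A)) : P = Q := by
  rw [interp p hA P hP, interp p hA Q hQ]
  simp only [h]

theorem frob_shift (hA : (p : A) = 0) (k : ZMod p) :
    (X + C (k.val : A)) ^ p - (X + C (k.val : A)) = X ^ p - X := by
  have hp : p.Prime := Fact.out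
  have h1 : ((X : (ZMod p)[X]) + C k) ^ p - (X + C k) = X ^ p - X := by
    rw [add_pow_char, ← C_pow, ZMod.pow_card]
    ring
  have h2 := congrArg (Polynomial.map (T1_iF p hA)) h1
  simp only [Polynomial.map_pow, map_X, Polynomial.map_sub, Polynomial.map_add, map_C,
    T1_iF_apply p hA] at h2
  exact h2

private theorem T1_monic [Nontrivial A] : (X ^ p - X : A[X]).Monic := by
  have hp : p.Prime := Fact.out
  apply monic_X_pow_sub
  rw [degree_X]
  exact_mod_cast hp.one_lt

private theorem T1_natDegree [Nontrivial A] : (X ^ p - X : A[X]).natDegree = p := by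
  have hp : p.Prime := Fact.out
  rw [natDegree_sub_eq_left_of_natDegree_lt]
  · exact natDegree_X_pow p
  · rw [natDegree_X_pow, natDegree_X]
    exact hp.one_lt

private theorem T1_frob_eval (hA : (p : A) = 0) (k : ZMod p) :
    (X ^ p - X : A[X]).eval (k.val : A) = 0 := by
  rw [← T1_iF_apply p hA, eval_sub, eval_pow, eval_X, ← map_pow, ZMod.pow_card, sub_self]

theorem dvd_of_eval (hA : (p : A) = 0) (Q : A[X]) (hQ : Q.natDegree ≤ 2 * p - 2)
    (h : ∀ k : ZMod p, Q.eval (k.val : A) = 0) :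
    ∃ R : A[X], R.natDegree ≤ p - 2 ∧ Q = (X ^ p - X) * R := by
  have hp : p.Prime := Fact.out
  rcases subsingleton_or_nontrivial A with hs | hn
  · refine ⟨0, by simp, ?_⟩
    exact Subsingleton.elim _ _
  · have hm : (X ^ p - X : A[X]).Monic := T1_monic p
    have hd : (X ^ p - X : A[X]).natDegree = p := T1_natDegree p
    have h1 := modByMonic_add_div Q (X ^ p - X : A[X])
    have hr : (Q %ₘ (X ^ p - X)).natDegree < p := by
      have := natDegree_modByMonic_lt Q hm (by
        intro h1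
        have h2 := hd
        rw [h1, natDegree_one] at h2
        exact hp.ne_zero h2.symm)
      rwa [hd] at this
    have hz : Q %ₘ (X ^ p - X) = 0 := by
      apply poly_ext p hA hr (by rw [natDegree_zero]; exact hp.pos)
      intro k
      have h2 := congrArg (fun F : A[X] => F.eval (k.val : A)) h1
      simp only [eval_add, eval_mul, T1_frob_eval p hA k, zero_mul, add_zero, h k] at h2
      rw [h2, eval_zero]
    refine ⟨Q /ₘ (X ^ p - X), ?_, ?_⟩
    · rw [natDegree_divByMonic _ hm, hd]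
      have := hp.two_le
      omega
    · rw [hz, zero_add] at h1
      exact h1.symm

/-- `X ^ p - X` is not a zero divisor. -/
theorem frob_cancel {P Q : A[X]} (h : (X ^ p - X) * P = (X ^ p - X) * Q) : P = Q := by
  rcases subsingleton_or_nontrivial A with hs | hn
  · exact Subsingleton.elim _ _
  · exact (T1_monic (A := A) p).isRegular.left h

private theorem T1_S_low (hA : (p : A) = 0) (i : ℕ) (hi : i < p) :
    ∑ k : ZMod p, ((X : A[X]) + C (k.val : A)) ^ i = C (∑ k : ZMod p, (k.val : A) ^ i) := by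
  have hp : p.Prime := Fact.out
  apply poly_ext p hA
  · refine lt_of_le_of_lt (natDegree_sum_le_of_forall_le (n := i) _ _ ?_) hi
    intro k _
    refine natDegree_pow_le.trans ?_
    calc i * (X + C (k.val : A)).natDegree ≤ i * 1 :=
          Nat.mul_le_mul_left _ (natDegree_add_C.trans_le natDegree_X_le)
      _ = i := mul_one _
  · rw [natDegree_C]
    exact hp.pos
  · intro j
    simp only [eval_finsetSum, eval_pow, eval_add, eval_X, eval_C]
    have h1 : ∀ k : ZMod p, (j.val : A) + (k.val : A) = ((j + k).val : A) := fun k =>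
      (val_add_cast p hA j k).symm
    simp only [h1]
    exact Fintype.sum_equiv (Equiv.addLeft j) _ _ fun k => rfl

private theorem T1_sum_pow (hA : (p : A) = 0) (i : ℕ) (hi : i + 2 ≤ p) :
    ∑ k : ZMod p, (k.val : A) ^ i = 0 := by
  have hp : p.Prime := Fact.out
  have h1 : ∑ k : ZMod p, k ^ i = 0 := by
    apply FiniteField.sum_pow_lt_card_sub_one
    rw [ZMod.card p]
    omega
  have h2 := congrArg (T1_iF p hA) h1
  rw [map_sum, map_zero] at h2
  rw [← h2]
  refine Finset.sum_congr rfl fun k _ => ?_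
  rw [map_pow, T1_iF_apply p hA]

private theorem T1_S (hA : (p : A) = 0) (i : ℕ) (hi : i ≤ 2 * p - 2) :
    ∑ k : ZMod p, ((X : A[X]) + C (k.val : A)) ^ i = C (∑ k : ZMod p, (k.val : A) ^ i) := by
  have hp : p.Prime := Fact.out
  rcases lt_or_ge i p with h | h
  · exact T1_S_low p hA i h
  · obtain ⟨m, rfl⟩ := Nat.exists_eq_add_of_le h
    have hm : m + 2 ≤ p := by
      have := hp.two_le
      omega
    have h1 : ∀ k : ZMod p, ((X : A[X]) + C (k.val : A)) ^ (p + m) =
        (X + C (k.val : A)) ^ (m + 1) + (X ^ p - X) * (X + C (k.val : A)) ^ m := by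
      intro k
      have h2 := frob_shift p hA k
      rw [← h2]
      ring
    simp only [h1, Finset.sum_add_distrib, ← Finset.mul_sum]
    rw [T1_S_low p hA (m + 1) (by omega), T1_S_low p hA m (by omega), T1_sum_pow p hA m hm,
      C_0, mul_zero, add_zero]
    refine congrArg _ (Finset.sum_congr rfl fun k _ => ?_)
    have h3 : (k.val : A) ^ p = (k.val : A) := by
      rw [← T1_iF_apply p hA, ← map_pow, ZMod.pow_card]
    rw [pow_add _ p m, h3, pow_succ, mul_comm]

theorem sum_comp (hA : (p : A) = 0) (Q : A[X]) (hQ : Q.natDegree ≤ 2 * p - 2) :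
    ∑ k : ZMod p, Q.comp (X + C (k.val : A)) = C (∑ k : ZMod p, Q.eval (k.val : A)) := by
  have h1 : Q = ∑ i ∈ Finset.range (2 * p - 2 + 1), C (Q.coeff i) * X ^ i := by
    conv_lhs => rw [Q.as_sum_range' (2 * p - 2 + 1) (by omega)]
    refine Finset.sum_congr rfl fun i _ => ?_
    rw [C_mul_X_pow_eq_monomial]
  have h2 : ∀ k : ZMod p, Q.eval (k.val : A) =
      ∑ i ∈ Finset.range (2 * p - 2 + 1), Q.coeff i * (k.val : A) ^ i := by
    intro k
    conv_lhs => rw [h1]
    simp only [eval_finsetSum, eval_mul, eval_C, eval_pow, eval_X]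
  have h3 : ∀ k : ZMod p, Q.comp (X + C (k.val : A)) =
      ∑ i ∈ Finset.range (2 * p - 2 + 1), C (Q.coeff i) * (X + C (k.val : A)) ^ i := by
    intro k
    conv_lhs => rw [h1]
    simp only [Polynomial.sum_comp, mul_comp, C_comp, pow_comp, X_comp]
  simp only [h2, h3, map_sum]
  rw [Finset.sum_comm, Finset.sum_comm (s := Finset.univ)]
  refine Finset.sum_congr rfl fun i hi => ?_
  rw [← Finset.mul_sum, T1_S p hA i (by have := Finset.mem_range.1 hi; omega)]
  simp only [map_sum, Finset.mul_sum, C_mul]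

theorem sum_eval_zero (hA : (p : A) = 0) (Q : A[X]) (hQ : Q.natDegree + 2 ≤ p) :
    ∑ k : ZMod p, Q.eval (k.val : A) = 0 := by
  have h1 : Q = ∑ i ∈ Finset.range (p - 1), C (Q.coeff i) * X ^ i := by
    conv_lhs => rw [Q.as_sum_range' (p - 1) (by omega)]
    refine Finset.sum_congr rfl fun i _ => ?_
    rw [C_mul_X_pow_eq_monomial]
  have h2 : ∀ k : ZMod p, Q.eval (k.val : A) =
      ∑ i ∈ Finset.range (p - 1), Q.coeff i * (k.val : A) ^ i := by
    intro k
    conv_lhs => rw [h1]
    simp only [eval_finsetSum, eval_mul, eval_C, eval_pow, eval_X]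
  simp only [h2]
  rw [Finset.sum_comm]
  refine Finset.sum_eq_zero fun i hi => ?_
  rw [← Finset.mul_sum, T1_sum_pow p hA i (by have := Finset.mem_range.1 hi; omega), mul_zero]

theorem sum_dY_mul (hA : (p : A) = 0) (j : ZMod p) :
    ∑ k : ZMod p, dY p A k * dY p A (k - j) = if j = 0 then 1 else 0 := by
  have hp : p.Prime := Fact.out
  have hneg : ∀ k : ZMod p, ((-k).val : A) = -(k.val : A) := fun k => by
    rw [← T1_iF_apply p hA, map_neg, T1_iF_apply p hA]
  have h1 : ∀ k : ZMod p, dY p A (-k) * dY p A (-k - j) =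
      (dY p A 0 * dY p A (-j)).comp (X + C (k.val : A)) := by
    intro k
    simp only [dY, mul_comp, sub_comp, one_comp, pow_comp, X_comp, C_comp, hneg,
      val_sub_cast p hA]
    have h0 : (((0 : ZMod p).val : ℕ) : A) = 0 := by
      rw [← T1_iF_apply p hA, map_zero]
    rw [h0]
    simp only [C_neg, C_sub, C_0]
    congr 1
    · ring
    · ring
  have h2 : ∑ k : ZMod p, dY p A k * dY p A (k - j) =
      ∑ k : ZMod p, dY p A (-k) * dY p A (-k - j) :=
    (Fintype.sum_equiv (Equiv.neg (ZMod p)) _ _ fun k => rfl).symm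
  rw [h2]
  simp only [h1]
  rw [sum_comp p hA]
  · simp only [eval_mul, dY_eval p hA]
    rw [Finset.sum_eq_single (0 : ZMod p)]
    · by_cases hj : j = 0
      · rw [if_pos rfl, if_pos (by rw [hj, neg_zero]), if_pos hj, mul_one, C_1]
      · rw [if_pos rfl, if_neg (by intro h; exact hj (neg_eq_zero.1 h.symm)), if_neg hj,
          mul_zero, C_0]
    · intro b _ hb
      rw [if_neg hb, zero_mul]
    · intro h
      exact absurd (Finset.mem_univ _) h
  · refine natDegree_mul_le.trans ?_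
    have h3 := dY_natDegree_le p A 0
    have h4 := dY_natDegree_le p A (-j)
    omega

end

end Pool.Agent.MP_1c8e06_ag.CY
end

section

/-!
# CY T2: the polynomials PP σ a

A is a commutative ring with (p : A) = 0, σ : A →+* A with σ ^ p = 1 (so σ^((k + l).val) = σ^(k.val) ∘ σ^(l.val):
`ZMod.val_add`, `pow_mod_orderOf`-like: σ^(n % p) = σ^n because σ^p = 1).  PP p σ a = ∑_k d_k(Y) σ^k a.  Everything follows from
the characterisation: PP σ a is the only polynomial of degree < p with value σ^j a at j for all j ∈ F_p (`PP_eval`, `PP_unique`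
from T1 `dY_eval`, `poly_ext`).
`PP_coeff_zero`: coefficient 0 = value at 0 = σ^0 a = a.   `PP_add`, `PP_zero`, `PP_one`, `PP_fixed_mul`, `PP_fixed`: by uniqueness.
`PP_comp`: (PP σ a)(Y + k) has value σ^(j+k) a at j.
`PP_map`: values φ (σ^j a) = σ'^j (φ a); eval of a mapped polynomial: `eval_map`, `eval₂_at_natCast`/`hom_eval₂`.
`PP_twist`: φ(σ a) = σ^m (φ a) for all a, so φ (σ^j a) = σ^(m j) (φ a) = (PP σ (φ a)) (m j) where m j is read in F_p
((m * j.val : A) = (((m : ZMod p) * j).val : A)); both sides have degree < p (comp with C m * X: natDegree_comp_le).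
`dd_map`, `dd_twist`: coefficient of Y (coefficient 1 of P.comp (C m * X) is m * P.coeff 1: `comp_C_mul_X_coeff`).
`cc_map`, `cc_twist`: from dd.   `cc_comm`: ring.  `dd_add`, `dd_fixed_mul`, `cc_add_left`, `cc_fixed_mul_left`: from PP.
`PP_mul`: Q := PP a * PP b - PP (a*b) has degree ≤ 2p-2 and value σ^j a σ^j b - σ^j(ab) = 0 at j: Q = (X^p - X) R, natDegree R ≤ p-2
(T1 `dvd_of_eval`).  Claim R = PP (cc a b).  R(0): coefficient of Y on both sides: a * dd b + b * dd a - dd (a*b) = - R.coeff 0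
(p ≥ 2: coefficient 1 of (X^p - X) * R is - R.coeff 0; for p = 2: coeff 1 (X^2 * R) = 0 as well; `coeff_X_pow_mul'`), so
R(0) = cc a b — for ALL a, b.  For k ∈ F_p: compose with Y + k: PP (σ^k a) PP (σ^k b) - PP (σ^k (ab)) = (X^p - X) R(Y + k)
(`PP_comp`, `frob_shift`); on the other hand it is (X^p - X) R' for the R' of (σ^k a, σ^k b); `frob_cancel`: R' = R(Y + k), so
R(k) = R'(0) = cc (σ^k a) (σ^k b) = σ^k (cc a b) (cc commutes with σ: `cc_map` with φ = σ' = σ).  `PP_unique`: R = PP (cc a b).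
`PP_cc_natDegree`: from the same proof (R has degree ≤ p - 2; put it as a second conclusion).
`tr_cc`: ∑_k σ^k (cc a b) = ∑_k (PP (cc a b))(k) = 0 (`sum_eval_zero`; p ≥ 2).
`tr_mul`: ∑_k PP (σ^k a) * PP (σ^k b) = ∑_k (PP a * PP b)(Y + k) = C (∑_k (PP a * PP b)(k)) = C (∑_k σ^k (a b)) (`sum_comp`).
-/

set_option autoImplicit false

open Polynomial
open scoped Classical

namespace Pool.Agent.MP_1c8e06_ag.CY

open Pool.Agent.MP_1c8e06_ag.AJ

noncomputable section

set_option linter.unusedSectionVars false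

variable (p : ℕ) [Fact p.Prime] {A : Type} [CommRing A]

private theorem T2_two_le : 2 ≤ p := (Fact.out : p.Prime).two_le

private theorem T2_pow_mod {σ : A →+* A} (hσ : σ ^ p = 1) (n : ℕ) : σ ^ (n % p) = σ ^ n := by
  conv_rhs => rw [← Nat.mod_add_div n p, pow_add, pow_mul, hσ, one_pow, mul_one]

private theorem T2_cast_val (hA : (p : A) = 0) (n : ℕ) : (((n : ZMod p)).val : A) = (n : A) := by
  rw [ZMod.val_natCast]
  conv_rhs => rw [← Nat.mod_add_div n p]
  push_cast
  rw [hA, zero_mul, add_zero]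

private theorem T2_pow_comm (σ : A →+* A) (k : ℕ) (a : A) : (σ ^ k) (σ a) = σ ((σ ^ k) a) := by
  have h : σ ^ k * σ = σ * σ ^ k := by rw [← pow_succ, ← pow_succ']
  have := congrArg (fun f : A →+* A => f a) h
  simpa [RingHom.mul_def] using this

private theorem T2_pow_add (σ : A →+* A) (k l : ℕ) (a : A) :
    (σ ^ (k + l)) a = (σ ^ k) ((σ ^ l) a) := by
  rw [pow_add]; rfl

private theorem T2_pow_map {A' : Type} [CommRing A'] (φ : A →+* A') (σ : A →+* A) (σ' : A' →+* A')
    (h : ∀ a, φ (σ a) = σ' (φ a)) (k : ℕ) : ∀ a, φ ((σ ^ k) a) = (σ' ^ k) (φ a) := by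
  induction k with
  | zero => intro a; rfl
  | succ k ih =>
    intro a
    rw [T2_pow_add σ k 1, T2_pow_add σ' k 1, ih, pow_one, pow_one, h]

theorem pow_val_add {σ : A →+* A} (hσ : σ ^ p = 1) (k l : ZMod p) (a : A) :
    (σ ^ (k + l).val) a = (σ ^ k.val) ((σ ^ l.val) a) := by
  rw [ZMod.val_add, T2_pow_mod p hσ, T2_pow_add]

private theorem T2_natDegree_le (σ : A →+* A) (a : A) : (PP p σ a).natDegree ≤ p - 1 := by
  unfold PP
  refine Polynomial.natDegree_sum_le_of_forall_le _ _ fun k _ => ?_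
  refine (Polynomial.natDegree_mul_le).trans ?_
  rw [Polynomial.natDegree_C, add_zero]
  exact dY_natDegree_le p A k

theorem PP_natDegree_lt (σ : A →+* A) (a : A) : (PP p σ a).natDegree < p := by
  have h1 := T2_natDegree_le p σ a
  have h2 := T2_two_le p
  omega

theorem PP_eval (hA : (p : A) = 0) (σ : A →+* A) (a : A) (j : ZMod p) :
    (PP p σ a).eval (j.val : A) = (σ ^ j.val) a := by
  unfold PP
  rw [Polynomial.eval_finsetSum]
  simp only [Polynomial.eval_mul, Polynomial.eval_C, dY_eval p hA]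
  simp

theorem PP_unique (hA : (p : A) = 0) (σ : A →+* A) (a : A) (Q : A[X]) (hQ : Q.natDegree < p)
    (h : ∀ j : ZMod p, Q.eval (j.val : A) = (σ ^ j.val) a) : Q = PP p σ a := by
  refine poly_ext p hA hQ (PP_natDegree_lt p σ a) fun k => ?_
  rw [h, PP_eval p hA]

theorem PP_coeff_zero (hA : (p : A) = 0) (σ : A →+* A) (a : A) : (PP p σ a).coeff 0 = a := by
  have h := PP_eval p hA σ a 0
  rw [ZMod.val_zero, Nat.cast_zero, pow_zero] at h
  rw [Polynomial.coeff_zero_eq_eval_zero, h]
  rfl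

theorem PP_add (σ : A →+* A) (a b : A) : PP p σ (a + b) = PP p σ a + PP p σ b := by
  unfold PP
  rw [← Finset.sum_add_distrib]
  refine Finset.sum_congr rfl fun k _ => ?_
  rw [map_add, Polynomial.C_add, mul_add]

theorem PP_sum (σ : A →+* A) {ι : Type} (s : Finset ι) (f : ι → A) :
    PP p σ (∑ i ∈ s, f i) = ∑ i ∈ s, PP p σ (f i) := by
  unfold PP
  rw [Finset.sum_comm]
  refine Finset.sum_congr rfl fun k _ => ?_
  rw [map_sum, map_sum, Finset.mul_sum]

/-- An element which is fixed by `σ` gives the constant polynomial. -/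
theorem PP_fixed (hA : (p : A) = 0) (σ : A →+* A) (c : A) (hc : σ c = c) : PP p σ c = C c := by
  symm
  refine PP_unique p hA σ c _ ?_ fun j => ?_
  · rw [Polynomial.natDegree_C]
    have := T2_two_le p
    omega
  · rw [Polynomial.eval_C]
    have : ∀ n : ℕ, (σ ^ n) c = c := by
      intro n
      induction n with
      | zero => rfl
      | succ n ih => rw [T2_pow_add σ n 1, pow_one, hc, ih]
    rw [this]

theorem PP_one (hA : (p : A) = 0) (σ : A →+* A) : PP p σ 1 = 1 := by
  rw [PP_fixed p hA σ 1 (map_one σ), Polynomial.C_1]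

private theorem T2_fixed_pow (σ : A →+* A) (c : A) (hc : σ c = c) (n : ℕ) : (σ ^ n) c = c := by
  induction n with
  | zero => rfl
  | succ n ih => rw [T2_pow_add σ n 1, pow_one, hc, ih]

theorem PP_fixed_mul (hA : (p : A) = 0) (σ : A →+* A) (c a : A) (hc : σ c = c) :
    PP p σ (c * a) = C c * PP p σ a := by
  symm
  refine PP_unique p hA σ _ _ ?_ fun j => ?_
  · exact lt_of_le_of_lt (Polynomial.natDegree_C_mul_le _ _) (PP_natDegree_lt p σ a)
  · rw [Polynomial.eval_mul, Polynomial.eval_C, PP_eval p hA, map_mul, T2_fixed_pow σ c hc]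

theorem PP_comp (hA : (p : A) = 0) {σ : A →+* A} (hσ : σ ^ p = 1) (a : A) (k : ZMod p) :
    (PP p σ a).comp (X + C (k.val : A)) = PP p σ ((σ ^ k.val) a) := by
  refine PP_unique p hA σ _ _ ?_ fun j => ?_
  · refine lt_of_le_of_lt Polynomial.natDegree_comp_le ?_
    refine lt_of_le_of_lt ?_ (PP_natDegree_lt p σ a)
    calc (PP p σ a).natDegree * (X + C (k.val : A)).natDegree
        ≤ (PP p σ a).natDegree * 1 := Nat.mul_le_mul_left _
          ((Polynomial.natDegree_add_le _ _).trans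
            (max_le Polynomial.natDegree_X_le (by rw [Polynomial.natDegree_C]; exact Nat.zero_le _)))
      _ = _ := mul_one _
  · rw [Polynomial.eval_comp, Polynomial.eval_add, Polynomial.eval_X, Polynomial.eval_C,
      ← val_add_cast p hA, PP_eval p hA, pow_val_add p hσ]

theorem PP_map {A' : Type} [CommRing A'] (φ : A →+* A') (σ : A →+* A) (σ' : A' →+* A')
    (h : ∀ a, φ (σ a) = σ' (φ a)) (a : A) : (PP p σ a).map φ = PP p σ' (φ a) := by
  unfold PP
  rw [Polynomial.map_sum]
  refine Finset.sum_congr rfl fun k _ => ?_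
  rw [Polynomial.map_mul, dY_map, Polynomial.map_C, T2_pow_map φ σ σ' h]

theorem PP_twist (hA : (p : A) = 0) {σ : A →+* A} (hσ : σ ^ p = 1) (φ : A →+* A) (m : ℕ)
    (h : ∀ a, φ (σ a) = (σ ^ m) (φ a)) (a : A) :
    (PP p σ a).map φ = (PP p σ (φ a)).comp (C (m : A) * X) := by
  refine poly_ext p hA ?_ ?_ fun j => ?_
  · exact lt_of_le_of_lt Polynomial.natDegree_map_le (PP_natDegree_lt p σ a)
  · refine lt_of_le_of_lt Polynomial.natDegree_comp_le ?_
    refine lt_of_le_of_lt ?_ (PP_natDegree_lt p σ (φ a))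
    have h1 : (C (m : A) * X).natDegree ≤ 1 :=
      (Polynomial.natDegree_C_mul_le _ _).trans Polynomial.natDegree_X_le
    calc (PP p σ (φ a)).natDegree * (C (m : A) * X).natDegree
        ≤ (PP p σ (φ a)).natDegree * 1 := Nat.mul_le_mul_left _ h1
      _ = _ := mul_one _
  · rw [Polynomial.eval_natCast_map, PP_eval p hA, T2_pow_map φ σ (σ ^ m) h, ← pow_mul,
      Polynomial.eval_comp, Polynomial.eval_mul, Polynomial.eval_C, Polynomial.eval_X]
    have h1 : ((m : A) * (j.val : A)) = ((((m * j.val : ℕ) : ZMod p)).val : A) := by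
      rw [T2_cast_val p hA]; push_cast; rfl
    rw [h1, PP_eval p hA, ZMod.val_natCast, T2_pow_mod p hσ]

theorem dd_map {A' : Type} [CommRing A'] (φ : A →+* A') (σ : A →+* A) (σ' : A' →+* A')
    (h : ∀ a, φ (σ a) = σ' (φ a)) (a : A) : φ (dd p σ a) = dd p σ' (φ a) := by
  unfold dd
  rw [← PP_map p φ σ σ' h, Polynomial.coeff_map]

theorem cc_map {A' : Type} [CommRing A'] (φ : A →+* A') (σ : A →+* A) (σ' : A' →+* A')
    (h : ∀ a, φ (σ a) = σ' (φ a)) (a b : A) : φ (cc p σ a b) = cc p σ' (φ a) (φ b) := by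
  unfold cc
  simp only [map_sub, map_mul, dd_map p φ σ σ' h]

theorem cc_twist (hA : (p : A) = 0) {σ : A →+* A} (hσ : σ ^ p = 1) (φ : A →+* A) (m : ℕ)
    (h : ∀ a, φ (σ a) = (σ ^ m) (φ a)) (a b : A) :
    φ (cc p σ a b) = (m : A) * cc p σ (φ a) (φ b) := by
  have hd : ∀ x, φ (dd p σ x) = (m : A) * dd p σ (φ x) := by
    intro x
    have h1 := congrArg (fun P : A[X] => P.coeff 1) (PP_twist p hA hσ φ m h x)
    simp only [Polynomial.coeff_map, Polynomial.comp_C_mul_X_coeff, pow_one] at h1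
    unfold dd
    rw [h1, mul_comm]
  unfold cc
  simp only [map_sub, map_mul, hd]
  ring

theorem cc_comm (σ : A →+* A) (a b : A) : cc p σ a b = cc p σ b a := by
  unfold cc
  rw [mul_comm a b]
  ring

private theorem T2_dd_add (σ : A →+* A) (a b : A) : dd p σ (a + b) = dd p σ a + dd p σ b := by
  unfold dd
  rw [PP_add, Polynomial.coeff_add]

theorem cc_add_left (σ : A →+* A) (a a' b : A) :
    cc p σ (a + a') b = cc p σ a b + cc p σ a' b := by
  unfold cc
  rw [add_mul, T2_dd_add, T2_dd_add]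
  ring

theorem cc_fixed_mul_left (hA : (p : A) = 0) (σ : A →+* A) (c a b : A) (hc : σ c = c) :
    cc p σ (c * a) b = c * cc p σ a b := by
  have hd : ∀ x, dd p σ (c * x) = c * dd p σ x := by
    intro x
    unfold dd
    rw [PP_fixed_mul p hA σ c x hc, Polynomial.coeff_C_mul]
  unfold cc
  rw [mul_assoc, hd, hd]
  ring

theorem cc_one_left (hA : (p : A) = 0) (σ : A →+* A) (b : A) : cc p σ 1 b = 0 := by
  have hd : dd p σ 1 = 0 := by
    unfold dd
    rw [PP_one p hA σ, Polynomial.coeff_one]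
    simp
  unfold cc
  rw [hd]
  simp

private theorem T2_aux (hA : (p : A) = 0) {σ : A →+* A} (a b : A) :
    ∃ R : A[X], R.natDegree ≤ p - 2 ∧
      PP p σ a * PP p σ b - PP p σ (a * b) = (X ^ p - X) * R ∧ R.coeff 0 = cc p σ a b := by
  have h2 := T2_two_le p
  obtain ⟨R, hR, hQ⟩ := dvd_of_eval p hA (PP p σ a * PP p σ b - PP p σ (a * b))
    (by
      have h1 := T2_natDegree_le p σ a
      have h3 := T2_natDegree_le p σ b
      have h4 := T2_natDegree_le p σ (a * b)
      have h5 : (PP p σ a * PP p σ b).natDegree ≤ (PP p σ a).natDegree + (PP p σ b).natDegree :=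
        Polynomial.natDegree_mul_le
      refine (Polynomial.natDegree_sub_le _ _).trans ?_
      refine max_le ?_ ?_ <;> omega)
    (by
      intro k
      rw [Polynomial.eval_sub, Polynomial.eval_mul, PP_eval p hA, PP_eval p hA, PP_eval p hA,
        map_mul, sub_self])
  refine ⟨R, hR, hQ, ?_⟩
  have h1 := congrArg (fun P : A[X] => P.coeff 1) hQ
  simp only [Polynomial.coeff_sub, Polynomial.mul_coeff_one] at h1
  rw [PP_coeff_zero p hA, PP_coeff_zero p hA, Polynomial.coeff_X_pow,
    Polynomial.coeff_X_pow, if_neg (by omega : ¬ 0 = p), if_neg (by omega : ¬ 1 = p),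
    Polynomial.coeff_X_zero, Polynomial.coeff_X_one] at h1
  unfold cc dd
  have h6 : R.coeff 0 = -(a * (PP p σ b).coeff 1 + (PP p σ a).coeff 1 * b
      - (PP p σ (a * b)).coeff 1) := by
    rw [h1]; ring
  rw [h6]; ring

theorem PP_mul (hA : (p : A) = 0) {σ : A →+* A} (hσ : σ ^ p = 1) (a b : A) :
    PP p σ a * PP p σ b = PP p σ (a * b) + (X ^ p - X) * PP p σ (cc p σ a b) ∧
      (PP p σ (cc p σ a b)).natDegree ≤ p - 2 := by
  have h2 := T2_two_le p
  obtain ⟨R, hR, hQ, hR0⟩ := T2_aux p hA (σ := σ) a b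
  have hRP : R = PP p σ (cc p σ a b) := by
    refine PP_unique p hA σ _ R (by omega) fun k => ?_
    obtain ⟨R', hR', hQ', hR0'⟩ := T2_aux p hA (σ := σ) ((σ ^ k.val) a) ((σ ^ k.val) b)
    have hc := congrArg (fun P : A[X] => P.comp (X + C (k.val : A))) hQ
    simp only [Polynomial.sub_comp, Polynomial.mul_comp, Polynomial.pow_comp,
      Polynomial.X_comp] at hc
    rw [PP_comp p hA hσ, PP_comp p hA hσ, PP_comp p hA hσ, frob_shift p hA, map_mul, hQ'] at hc
    have hRR := frob_cancel p hc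
    have h3 : R'.coeff 0 = R.eval (k.val : A) := by
      rw [hRR, Polynomial.coeff_zero_eq_eval_zero, Polynomial.eval_comp, Polynomial.eval_add,
        Polynomial.eval_X, Polynomial.eval_C, zero_add]
    rw [← h3, hR0', cc_map p (σ ^ k.val) σ σ (fun x => T2_pow_comm σ k.val x)]
  rw [← hRP]
  refine ⟨?_, hR⟩
  rw [← hQ]; ring

theorem tr_cc (hA : (p : A) = 0) {σ : A →+* A} (hσ : σ ^ p = 1) (a b : A) :
    ∑ k : ZMod p, (σ ^ k.val) (cc p σ a b) = 0 := by
  have h2 := T2_two_le p
  have h1 := (PP_mul p hA hσ a b).2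
  have h3 := sum_eval_zero p hA (PP p σ (cc p σ a b)) (by omega)
  rw [← h3]
  refine Finset.sum_congr rfl fun k _ => ?_
  rw [PP_eval p hA]

theorem tr_mul (hA : (p : A) = 0) {σ : A →+* A} (hσ : σ ^ p = 1) (a b : A) :
    ∑ k : ZMod p, PP p σ ((σ ^ k.val) a) * PP p σ ((σ ^ k.val) b) =
      C (∑ k : ZMod p, (σ ^ k.val) (a * b)) := by
  have h2 := T2_two_le p
  have hdeg : (PP p σ a * PP p σ b).natDegree ≤ 2 * p - 2 := by
    have h1 := T2_natDegree_le p σ a
    have h3 := T2_natDegree_le p σ b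
    have h5 : (PP p σ a * PP p σ b).natDegree ≤ (PP p σ a).natDegree + (PP p σ b).natDegree :=
      Polynomial.natDegree_mul_le
    omega
  have h3 := sum_comp p hA (PP p σ a * PP p σ b) hdeg
  have h4 : ∑ k : ZMod p, (PP p σ a * PP p σ b).eval (k.val : A)
      = ∑ k : ZMod p, (σ ^ k.val) (a * b) := by
    refine Finset.sum_congr rfl fun k _ => ?_
    rw [Polynomial.eval_mul, PP_eval p hA, PP_eval p hA, map_mul]
  rw [← h4, ← h3]
  refine Finset.sum_congr rfl fun k _ => ?_
  rw [Polynomial.mul_comp, PP_comp p hA hσ, PP_comp p hA hσ]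

end

end Pool.Agent.MP_1c8e06_ag.CY
end

section

/-!
# CY La1: a chi-semiinvariant element which is nonzero at 0 and at infinity

Let Sh = D.S.map θ, χ : G → ℕ with n x n⁻¹ = x^(χ n) for n ∈ N, x ∈ N of order p.
(0) χ (m n) ≡ χ m * χ n mod p for m, n ∈ N (x has order p: x^(χ (mn)) = m (n x n⁻¹) m⁻¹ = m x^(χ n) m⁻¹ = x^(χ m χ n)),
χ x ≡ 1, p ∤ χ n (conjugation is injective).  In a ring of characteristic p natural numbers congruent mod p are equal.
For b : Al D.S put l := ε * ∑_{n ∈ N} (χ n : Al Sh) * act n (mapA b)  (sum over n : G with n ∈ N: use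
∑ n : N, with Fintype N).
`semi`: (χ m) * act m l = l for m ∈ N: act m ε = ε; act m (∑_n χ n act n b) = ∑_n χ n act (mn) b = ∑_n' χ(m⁻¹n') act n' b
and χ m χ(m⁻¹ n') ≡ χ n'.
(1) v0 l = v0 ε * ∑ χ n v0 (act n (mapA b)) = ∑_{n ∈ N} χ n * r0 (act n b) since v0 ε = 1 (hypothesis hv0).
`exists_l`: by `TPw.v0_row` (V1) applied to the row c g = (if g ∈ N then χ g else 0), which is not zero (c 1 = χ 1 ≡ 1),
there is l0 with v0 value of b = e l0 nonzero; similarly l1 for v1.  If v1 (l for b = e l0) ≠ 0 take b = e l0.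
Otherwise b = e l0 + c e l1 with c ∈ K: v1 = c * (v1 for l1) ≠ 0 for c ≠ 0; v0 = A + c A' with A ≠ 0: it vanishes for at most
one c (if A + cA' = A + c'A' = 0 with c ≠ c' then A' = 0 and A = 0; here (c - c') is a unit).  K is infinite: choose
c ≠ 0 outside.
(2) act x l = l because χ x ≡ 1: so v0 l = ofL a0, v1 l = ofL a1 (`TPw.v0_fixed`, `TPw.v1_fixed`), a0, a1 ≠ 0.
-/

set_option autoImplicit false

open Polynomial
open scoped Classical

namespace Pool.Agent.MP_1c8e06_ag.CY

open Pool.Agent.MP_1c8e06_ag.AJ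

noncomputable section

set_option linter.unusedSectionVars false

variable {p : ℕ} [Fact p.Prime] {K : Type} [Field K] [CharP K p] {G : Type} [Group G]
  [Fintype G] {x : G} {t : K} (D : TPw p x t) {B : Type} [CommRing B] (θ : Lam K →+* B)
  (e : B →+* LaurentSeries K)

private theorem La1_cast {R : Type} [CommRing R] {q : ℕ} (hq : (q : R) = 0) {a b : ℕ}
    (h : a ≡ b [MOD q]) : (a : R) = (b : R) := by
  obtain ⟨k, hk⟩ := (Nat.modEq_iff_dvd).1 h
  have h1 : ((b : R)) - (a : R) = ((q : R)) * (k : R) := by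
    have h2 := congrArg (Int.cast : ℤ → R) hk
    push_cast at h2
    exact h2
  rw [hq, zero_mul] at h1
  exact (sub_eq_zero.1 h1).symm

private theorem La1_chi {q : ℕ} (hx : orderOf x = q) (N : Subgroup G) (χ : G → ℕ)
    (hχ : ∀ n ∈ N, n * x * n⁻¹ = x ^ χ n) {m n : G} (hm : m ∈ N) (hn : n ∈ N) :
    χ m * χ n ≡ χ (m * n) [MOD q] := by
  rw [← hx, ← pow_eq_pow_iff_modEq, ← hχ (m * n) (N.mul_mem hm hn)]
  have h1 : m * n * x * (m * n)⁻¹ = m * (n * x * n⁻¹) * m⁻¹ := by group
  rw [h1, hχ n hn, ← conj_pow, hχ m hm, ← pow_mul]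

private theorem La1_chi_one {q : ℕ} (hx : orderOf x = q) (N : Subgroup G) (χ : G → ℕ)
    (hχ : ∀ n ∈ N, n * x * n⁻¹ = x ^ χ n) : χ 1 ≡ 1 [MOD q] := by
  rw [← hx, ← pow_eq_pow_iff_modEq, ← hχ 1 N.one_mem]
  group

private theorem La1_chi_x {q : ℕ} (hx : orderOf x = q) (N : Subgroup G) (hxN : x ∈ N) (χ : G → ℕ)
    (hχ : ∀ n ∈ N, n * x * n⁻¹ = x ^ χ n) : χ x ≡ 1 [MOD q] := by
  rw [← hx, ← pow_eq_pow_iff_modEq, ← hχ x hxN]
  group

/-- The semiinvariant projection. -/
private def La1_f {B' : Type} [CommRing B'] (S : SC B' G) (N : Subgroup G) (χ : G → ℕ)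
    (ε b : Al S) : Al S := ε * ∑ n : N, (χ n : Al S) * Al.act S n b

private theorem La1_f_add {B' : Type} [CommRing B'] (S : SC B' G) (N : Subgroup G) (χ : G → ℕ)
    (ε b b' : Al S) : La1_f S N χ ε (b + b') = La1_f S N χ ε b + La1_f S N χ ε b' := by
  unfold La1_f
  rw [← mul_add, ← Finset.sum_add_distrib]
  congr 1
  refine Finset.sum_congr rfl fun n _ => ?_
  rw [map_add, mul_add]

private theorem La1_f_cst {B' : Type} [CommRing B'] (S : SC B' G) (N : Subgroup G) (χ : G → ℕ)
    (ε b : Al S) (c : B') : La1_f S N χ ε (Al.cst S c * b) = Al.cst S c * La1_f S N χ ε b := by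
  unfold La1_f
  have h : ∑ n : N, (χ n : Al S) * Al.act S n (Al.cst S c * b) =
      Al.cst S c * ∑ n : N, (χ n : Al S) * Al.act S n b := by
    rw [Finset.mul_sum]
    refine Finset.sum_congr rfl fun n _ => ?_
    rw [map_mul, Al.act_cst]
    ring
  rw [h]
  ring

private theorem La1_f_semi {B' : Type} [CommRing B'] (S : SC B' G) {q : ℕ} (hq : (q : B') = 0)
    (hx : orderOf x = q) (N : Subgroup G) (χ : G → ℕ)
    (hχ : ∀ n ∈ N, n * x * n⁻¹ = x ^ χ n) (ε b : Al S) (hε : ∀ n ∈ N, Al.act S n ε = ε)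
    {m : G} (hm : m ∈ N) :
    (χ m : Al S) * Al.act S m (La1_f S N χ ε b) = La1_f S N χ ε b := by
  have hqA : ((q : ℕ) : Al S) = 0 := by
    have h1 := congrArg (Al.cst S) hq
    rwa [map_natCast, map_zero] at h1
  unfold La1_f
  rw [map_mul, hε m hm, map_sum]
  have h1 : (χ m : Al S) * (ε * ∑ n : N, Al.act S m ((χ n : Al S) * Al.act S n b)) =
      ε * ∑ n : N, (χ m : Al S) * Al.act S m ((χ n : Al S) * Al.act S n b) := by
    rw [← Finset.mul_sum]
    ring
  rw [h1]
  congr 1
  have h2 : ∀ n : N, (χ m : Al S) * Al.act S m ((χ n : Al S) * Al.act S n b) =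
      (fun n : N => (χ n : Al S) * Al.act S n b) ((Equiv.mulLeft (⟨m, hm⟩ : N)) n) := by
    intro n
    have h3 : ((χ m * χ n : ℕ) : Al S) = (χ (m * n) : Al S) :=
      La1_cast hqA (La1_chi hx N χ hχ hm n.2)
    change _ = ((χ (m * n) : ℕ) : Al S) * Al.act S (m * n) b
    rw [map_mul, map_natCast, ← Al.act_mul_apply, ← mul_assoc, ← Nat.cast_mul, h3]
  rw [Finset.sum_congr rfl fun n _ => h2 n]
  exact Equiv.sum_comp (Equiv.mulLeft (⟨m, hm⟩ : N)) fun n : N => (χ n : Al S) * Al.act S n b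

private theorem La1_f_val {B' : Type} [CommRing B'] (S : SC B' G) (N : Subgroup G) (χ : G → ℕ)
    (ε b : Al S) {A : Type} [CommRing A] (v : Al S →+* A) (hv : v ε = 1) :
    v (La1_f S N χ ε b) = ∑ g : G, (if g ∈ N then (χ g : A) else 0) * v (Al.act S g b) := by
  unfold La1_f
  rw [map_mul, hv, one_mul, map_sum]
  have h1 : ∀ g : G, (if g ∈ N then (χ g : A) else 0) * v (Al.act S g b) =
      if g ∈ N then (χ g : A) * v (Al.act S g b) else 0 := by
    intro g
    split_ifs
    · rfl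
    · rw [zero_mul]
  rw [Finset.sum_congr rfl fun g _ => h1 g, ← Finset.sum_filter]
  have h2 : ∑ g ∈ Finset.univ.filter (fun g : G => g ∈ N), (χ g : A) * v (Al.act S g b) =
      ∑ n : N, (χ n : A) * v (Al.act S n b) :=
    Finset.sum_subtype (Finset.univ.filter fun g : G => g ∈ N)
      (p := fun g : G => g ∈ N) (fun g => by simp) (fun g : G => (χ g : A) * v (Al.act S g b))
  rw [h2]
  refine Finset.sum_congr rfl fun n _ => ?_
  rw [map_mul, map_natCast]

private theorem La1_sub {A0 A1 : LaurentSeries K} (h : A0 ≠ 0 ∨ A1 ≠ 0) :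
    Set.Subsingleton {c : K | A0 + HahnSeries.C c * A1 = 0} := by
  intro c hc c' hc'
  have e1 : A0 + HahnSeries.C c * A1 = 0 := hc
  have e2 : A0 + HahnSeries.C c' * A1 = 0 := hc'
  have e3 : HahnSeries.C (c - c') * A1 = 0 := by
    rw [map_sub]
    linear_combination e1 - e2
  by_cases h1 : A1 = 0
  · rw [h1, mul_zero, add_zero] at e1
    rcases h with h | h
    · exact absurd e1 h
    · exact absurd h1 h
  · rcases mul_eq_zero.1 e3 with h2 | h2
    · have h3 : c - c' = 0 := by
        have h4 : (HahnSeries.C (c - c') : LaurentSeries K) = HahnSeries.C 0 := by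
          rw [h2, map_zero]
        exact HahnSeries.C_injective h4
      exact sub_eq_zero.1 h3
    · exact absurd h2 h1

private theorem La1_lz (c : K) : lz K (LaurentPolynomial.C c) = HahnSeries.C c := by
  unfold lz
  simp

private theorem La1_lzi (c : K) : lzi K (LaurentPolynomial.C c) = HahnSeries.C c := by
  unfold lzi
  simp

private theorem La1_pE (F : K[X]) : ((p : ℕ) : AI.EE p F) = 0 := by
  have h1 : ((p : ℕ) : AI.EE p F) = AI.ofL p F (HahnSeries.C ((p : ℕ) : K)) := by
    rw [map_natCast, map_natCast]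
  rw [h1, CharP.cast_eq_zero, map_zero, map_zero]

private theorem La1_ntE (F : K[X]) : (1 : AI.EE p F) ≠ 0 := by
  intro h
  have h1 : AI.ofL p F 1 = AI.ofL p F 0 := by rw [map_one, map_zero, h]
  exact one_ne_zero (AI.ofL_injective h1)

theorem exists_l [Infinite K] (hx : orderOf x = p) (N : Subgroup G) (hxN : x ∈ N) (χ : G → ℕ)
    (hχ : ∀ n ∈ N, n * x * n⁻¹ = x ^ χ n) (ε : Al (D.S.map θ)) (hε : NI _ N ε)
    (e0 e1 : B →+* LaurentSeries K) (h0 : ∀ q, e0 (θ q) = lz K q) (h1 : ∀ q, e1 (θ q) = lzi K q)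
    (hB : (p : B) = 0) (hv0 : D.v0 θ e0 h0 ε = 1) (hv1 : D.v1 θ e1 h1 ε = 1) :
    ∃ (l : Al (D.S.map θ)) (a0 a1 : LaurentSeries K), ε * l = l ∧
      (∀ n ∈ N, (χ n : Al (D.S.map θ)) * Al.act _ n l = l) ∧
      D.v0 θ e0 h0 l = AI.ofL p (C t * X : K[X]) a0 ∧ a0 ≠ 0 ∧
      D.v1 θ e1 h1 l = AI.ofL p (C t * X : K[X]) a1 ∧ a1 ≠ 0 := by
  have hpA : ((p : ℕ) : Al (D.S.map θ)) = 0 := by
    have h2 := congrArg (Al.cst (D.S.map θ)) hB
    rwa [map_natCast, map_zero] at h2
  -- every semiinvariant projection is fixed by `x`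
  have hfx : ∀ b, Al.act (D.S.map θ) x (La1_f _ N χ ε b) = La1_f _ N χ ε b := by
    intro b
    have h2 := La1_f_semi (D.S.map θ) hB hx N χ hχ ε b hε.fix hxN
    have h3 : ((χ x : ℕ) : Al (D.S.map θ)) = 1 := by
      have h4 := La1_cast hpA (La1_chi_x hx N hxN χ hχ)
      rwa [Nat.cast_one] at h4
    rwa [h3, one_mul] at h2
  have hc1 : (if (1 : G) ∈ N then ((χ 1 : ℕ) : AI.EE p (C t * X : K[X])) else 0) ≠ 0 := by
    rw [if_pos N.one_mem, La1_cast (La1_pE (p := p) _) (La1_chi_one hx N χ hχ), Nat.cast_one]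
    exact La1_ntE _
  obtain ⟨l0, hl0⟩ : ∃ l, D.v0 θ e0 h0 (La1_f _ N χ ε (Al.e _ l)) ≠ 0 := by
    by_contra hcon
    push Not at hcon
    refine hc1 (D.v0_row θ e0 h0
      (fun g => if g ∈ N then ((χ g : ℕ) : AI.EE p (C t * X : K[X])) else 0) (fun l => ?_) 1)
    rw [← La1_f_val (D.S.map θ) N χ ε _ (D.v0 θ e0 h0) hv0]
    exact hcon l
  obtain ⟨l1, hl1⟩ : ∃ l, D.v1 θ e1 h1 (La1_f _ N χ ε (Al.e _ l)) ≠ 0 := by
    by_contra hcon
    push Not at hcon
    refine hc1 (D.v1_row θ e1 h1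
      (fun g => if g ∈ N then ((χ g : ℕ) : AI.EE p (C t * X : K[X])) else 0) (fun l => ?_) 1)
    rw [← La1_f_val (D.S.map θ) N χ ε _ (D.v1 θ e1 h1) hv1]
    exact hcon l
  obtain ⟨A00, hA00⟩ := D.v0_fixed θ e0 h0 _ (hfx (Al.e _ l0))
  obtain ⟨A01, hA01⟩ := D.v0_fixed θ e0 h0 _ (hfx (Al.e _ l1))
  obtain ⟨A10, hA10⟩ := D.v1_fixed θ e1 h1 _ (hfx (Al.e _ l0))
  obtain ⟨A11, hA11⟩ := D.v1_fixed θ e1 h1 _ (hfx (Al.e _ l1))
  have n00 : A00 ≠ 0 := by
    rintro rfl
    rw [map_zero] at hA00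
    exact hl0 hA00
  have n11 : A11 ≠ 0 := by
    rintro rfl
    rw [map_zero] at hA11
    exact hl1 hA11
  have hfin : Set.Finite ({c : K | A00 + HahnSeries.C c * A01 = 0} ∪
      {c : K | A10 + HahnSeries.C c * A11 = 0}) :=
    (La1_sub (Or.inl n00)).finite.union (La1_sub (Or.inr n11)).finite
  obtain ⟨c, hc⟩ := hfin.infinite_compl.nonempty
  have hc0 : A00 + HahnSeries.C c * A01 ≠ 0 := fun h => hc (Or.inl h)
  have hc1 : A10 + HahnSeries.C c * A11 ≠ 0 := fun h => hc (Or.inr h)
  refine ⟨La1_f _ N χ ε (Al.e _ l0 + Al.cst _ (θ (LaurentPolynomial.C c)) * Al.e _ l1),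
    A00 + HahnSeries.C c * A01, A10 + HahnSeries.C c * A11, ?_, ?_, ?_, hc0, ?_, hc1⟩
  · unfold La1_f
    rw [← mul_assoc, hε.idem]
  · intro n hn
    exact La1_f_semi (D.S.map θ) hB hx N χ hχ ε _ hε.fix hn
  · rw [La1_f_add, La1_f_cst, map_add, map_mul, hA00, hA01, D.v0_cst, h0, La1_lz, map_add, map_mul]
  · rw [La1_f_add, La1_f_cst, map_add, map_mul, hA10, hA11, D.v1_cst, h1, La1_lzi, map_add, map_mul]

end

end Pool.Agent.MP_1c8e06_ag.CY
end
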