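import Pool.Agent.Lib.MP_1c8e06_ag.CY.G0
import Pool.Agent.Lib.MP_1c8e06_ag.Mg.G003

section

/-!
# CY G1: structure constants are transported by an equivariant isomorphism

Let Ph : Al S1 → Al S2 be an E-linear equivariant ring hom with matrix Θ l m = Ph (e l) m, invertible.
Then S1.ks = S2.ks.chb Θ Θi.  Proof.  b_l := Ph (e l) = ∑_m cst (Θ l m) e m.  Apply Ph to e_i e_j = ∑ cst μ1 e_l:
b_i b_j = ∑ cst (μ1 i j l) b_l; on the other hand b_i b_j = ∑ cst (μ_chb i j l) b_l by the definition of chb (or by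
`exists_SC_chb`, G0); the b_l are a basis (Θ invertible), so μ1 = μ_chb.  Same for α (act h e_l), ν (1), T (tr (e_i e_j) =
cst (T i j) and Ph (act x ..) = act x Ph ..; cst is injective: cst c = cst c' implies c = c': t(θ) = 1 for some θ
(`exists_theta`): ∑ act x (cst c * θ) = cst c, coordinates.. simplest: if E is nontrivial some ν l is not a zero divisor?
use instead: T is determined by T' below or: ∑_l T... ; alternative: c is recovered from cst c by c * 1 and the coordinates
of cst c * e k: (cst c * e k) k = c).  T': by `SC.TT'` (G0) T' is the (left, hence two sided) inverse of the matrix T, for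
both families.
-/

set_option autoImplicit false

open Polynomial
open scoped Classical

namespace Pool.Agent.MP_1c8e06_ag.CY

open Pool.Agent.MP_1c8e06_ag.AJ

noncomputable section

set_option linter.unusedSectionVars false

variable {E : Type} [CommRing E] {G : Type} [Group G] [Fintype G]

private theorem G1_cst_inj (S : SC E G) {c c' : E} (h : Al.cst S c = Al.cst S c') : c = c' := by
  have h1 := congrArg (fun z : Al S => (z * Al.e S 1) 1) h
  simp only [Al.cst_mul] at h1
  simpa [Al.e] using h1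

private theorem G1_tr (S : SC E G) (i j : G) :
    ∑ x, Al.act S x (Al.e S i * Al.e S j) = Al.cst S (S.T i j) := by
  refine Al.ext fun l => ?_
  rw [Al.sum_apply, Al.cst_apply, ← S.tr i j l]
  refine Finset.sum_congr rfl fun x _ => ?_
  rw [Al.act_apply]
  refine Finset.sum_congr rfl fun m _ => ?_
  congr 1
  rw [Al.mul_apply]
  simp [Al.e]

private theorem G1_tr' (S : SC E G) (a b : Al S) :
    ∑ x, Al.act S x (a * b) = Al.cst S (∑ i, ∑ j, a i * b j * S.T i j) := by
  have h1 : a * b = ∑ i, ∑ j, Al.cst S (a i * b j) * (Al.e S i * Al.e S j) := by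
    have h2 : a * b = (∑ i, Al.cst S (a i) * Al.e S i) * ∑ j, Al.cst S (b j) * Al.e S j := by
      rw [← Al.eq_sum S a, ← Al.eq_sum S b]
    rw [h2, Finset.sum_mul]
    refine Finset.sum_congr rfl fun i _ => ?_
    rw [Finset.mul_sum]
    refine Finset.sum_congr rfl fun j _ => ?_
    rw [map_mul (Al.cst S)]
    ring
  rw [h1, map_sum (Al.cst S)]
  have h3 : ∀ x, Al.act S x (∑ i, ∑ j, Al.cst S (a i * b j) * (Al.e S i * Al.e S j)) =
      ∑ i, ∑ j, Al.cst S (a i * b j) * Al.act S x (Al.e S i * Al.e S j) := by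
    intro x
    rw [map_sum]
    refine Finset.sum_congr rfl fun i _ => ?_
    rw [map_sum]
    refine Finset.sum_congr rfl fun j _ => ?_
    rw [map_mul (Al.act S x) (Al.cst S _), Al.act_cst]
  rw [Finset.sum_congr rfl fun x _ => h3 x, Finset.sum_comm]
  refine Finset.sum_congr rfl fun i _ => ?_
  rw [Finset.sum_comm, map_sum]
  refine Finset.sum_congr rfl fun j _ => ?_
  rw [← Finset.mul_sum, G1_tr, map_mul (Al.cst S) (a i * b j)]

theorem chb_of_iso (S1 S2 : SC E G) (Ph : Al S1 →+* Al S2)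
    (hc : ∀ c, Ph (Al.cst S1 c) = Al.cst S2 c)
    (ha : ∀ g a, Ph (Al.act S1 g a) = Al.act S2 g (Ph a)) (Θ Θi : Matrix G G E)
    (hΘ : ∀ l m, Θ l m = (Ph (Al.e S1 l)) m) (h1 : Θ * Θi = 1) (h2 : Θi * Θ = 1) :
    S1.ks = S2.ks.chb Θ Θi := by
  have hPh : ∀ (a : Al S1) (m : G), Ph a m = ∑ l, a l * Θ l m := by
    intro a m
    have h3 : Ph a = ∑ l, Al.cst S2 (a l) * Ph (Al.e S1 l) := by
      have h4 : Ph a = Ph (∑ l, Al.cst S1 (a l) * Al.e S1 l) := by
        rw [← Al.eq_sum S1 a]
      rw [h4, map_sum]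
      refine Finset.sum_congr rfl fun l _ => ?_
      rw [map_mul, hc]
    rw [h3, Al.sum_apply]
    refine Finset.sum_congr rfl fun l _ => ?_
    rw [Al.cst_mul, hΘ]
  have hinv : ∀ (a : Al S1) (m : G), a m = ∑ c, Ph a c * Θi c m := by
    intro a m
    have h3 : ∀ c, Ph a c * Θi c m = ∑ l, a l * (Θ l c * Θi c m) := by
      intro c
      rw [hPh, Finset.sum_mul]
      refine Finset.sum_congr rfl fun l _ => ?_
      ring
    rw [Finset.sum_congr rfl fun c _ => h3 c, Finset.sum_comm]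
    have h4 : ∀ l, ∑ c, a l * (Θ l c * Θi c m) = a l * (1 : Matrix G G E) l m := by
      intro l
      rw [← Finset.mul_sum, ← h1, Matrix.mul_apply]
    rw [Finset.sum_congr rfl fun l _ => h4 l]
    simp [Matrix.one_apply]
  have hμ : S1.μ = fun j l m => ∑ a, ∑ b, ∑ c, Θ j a * Θ l b * S2.μ a b c * Θi c m := by
    funext j l m
    have h3 : S1.μ j l m = (Al.e S1 j * Al.e S1 l) m := by
      rw [Al.mul_apply]
      simp [Al.e]
    rw [h3]
    refine (hinv _ _).trans ?_
    rw [map_mul]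
    have h4 : ∀ c, (Ph (Al.e S1 j) * Ph (Al.e S1 l)) c * Θi c m =
        ∑ a, ∑ b, Θ j a * Θ l b * S2.μ a b c * Θi c m := by
      intro c
      rw [Al.mul_apply, Finset.sum_mul]
      refine Finset.sum_congr rfl fun a _ => ?_
      rw [Finset.sum_mul]
      refine Finset.sum_congr rfl fun b _ => ?_
      rw [hΘ, hΘ]
    rw [Finset.sum_congr rfl fun c _ => h4 c, Finset.sum_comm]
    refine Finset.sum_congr rfl fun a _ => ?_
    rw [Finset.sum_comm]
  have hα : S1.α = fun h l m => ∑ a, ∑ c, Θ l a * S2.α h a c * Θi c m := by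
    funext h l m
    have h3 : S1.α h l m = (Al.act S1 h (Al.e S1 l)) m := by
      rw [Al.act_apply]
      simp [Al.e]
    rw [h3]
    refine (hinv _ _).trans ?_
    rw [ha]
    have h4 : ∀ c, Al.act S2 h (Ph (Al.e S1 l)) c * Θi c m =
        ∑ a, Θ l a * S2.α h a c * Θi c m := by
      intro c
      rw [Al.act_apply, Finset.sum_mul]
      refine Finset.sum_congr rfl fun a _ => ?_
      rw [hΘ]
    rw [Finset.sum_congr rfl fun c _ => h4 c, Finset.sum_comm]
  have hν : S1.ν = fun m => ∑ a, S2.ν a * Θi a m := by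
    funext m
    rw [← Al.one_apply S1 m]
    refine (hinv _ _).trans ?_
    rw [map_one]
    rfl
  have hT : S1.T = fun j l => ∑ a, ∑ b, Θ j a * Θ l b * S2.T a b := by
    funext j l
    refine G1_cst_inj S2 ?_
    rw [← hc, ← G1_tr S1 j l, map_sum]
    have h3 : ∀ x, Ph (Al.act S1 x (Al.e S1 j * Al.e S1 l)) =
        Al.act S2 x (Ph (Al.e S1 j) * Ph (Al.e S1 l)) := by
      intro x
      rw [ha, map_mul]
    rw [Finset.sum_congr rfl fun x _ => h3 x, G1_tr']
    congr 1
    refine Finset.sum_congr rfl fun a _ => ?_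
    refine Finset.sum_congr rfl fun b _ => ?_
    rw [hΘ, hΘ]
  have hT' : S1.T' = fun l m => ∑ a, ∑ b, Θi a l * S2.T' a b * Θi b m := by
    have k1 : (Matrix.of S1.T' : Matrix G G E) * Matrix.of S1.T = 1 := by
      ext l k
      rw [Matrix.mul_apply, Matrix.one_apply]
      exact SC.TT' S1 l k
    have k2 : (Matrix.of S2.T' : Matrix G G E) * Matrix.of S2.T = 1 := by
      ext l k
      rw [Matrix.mul_apply, Matrix.one_apply]
      exact SC.TT' S2 l k
    have k3 : (Matrix.of S1.T : Matrix G G E) = Θ * Matrix.of S2.T * Θ.transpose := by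
      ext j l
      rw [Matrix.mul_apply]
      change S1.T j l = _
      rw [hT]
      have h3 : ∀ b, (Θ * Matrix.of S2.T) j b * Θ.transpose b l =
          ∑ a, Θ j a * Θ l b * S2.T a b := by
        intro b
        rw [Matrix.mul_apply, Finset.sum_mul]
        refine Finset.sum_congr rfl fun a _ => ?_
        rw [Matrix.transpose_apply]
        change Θ j a * S2.T a b * Θ l b = _
        ring
      rw [Finset.sum_congr rfl fun b _ => h3 b, Finset.sum_comm]
    have k4 : (Θi.transpose * Matrix.of S2.T' * Θi) * (Matrix.of S1.T : Matrix G G E) = 1 := by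
      rw [k3]
      calc (Θi.transpose * Matrix.of S2.T' * Θi) * (Θ * Matrix.of S2.T * Θ.transpose)
          = Θi.transpose * Matrix.of S2.T' * (Θi * Θ) * Matrix.of S2.T * Θ.transpose := by
            simp only [Matrix.mul_assoc]
        _ = Θi.transpose * (Matrix.of S2.T' * Matrix.of S2.T) * Θ.transpose := by
            rw [h2, Matrix.mul_one]
            simp only [Matrix.mul_assoc]
        _ = 1 := by
            rw [k2, Matrix.mul_one, ← Matrix.transpose_mul, h1, Matrix.transpose_one]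
    have k5 : (Matrix.of S1.T : Matrix G G E) * (Θi.transpose * Matrix.of S2.T' * Θi) = 1 :=
      mul_eq_one_comm.1 k4
    have k6 : (Matrix.of S1.T' : Matrix G G E) = Θi.transpose * Matrix.of S2.T' * Θi := by
      calc (Matrix.of S1.T' : Matrix G G E)
          = Matrix.of S1.T' * (Matrix.of S1.T * (Θi.transpose * Matrix.of S2.T' * Θi)) := by
            rw [k5, Matrix.mul_one]
        _ = _ := by rw [← Matrix.mul_assoc, k1, Matrix.one_mul]
    funext l m
    have h3 : S1.T' l m = (Matrix.of S1.T' : Matrix G G E) l m := rfl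
    rw [h3, k6, Matrix.mul_apply]
    have h4 : ∀ b, (Θi.transpose * Matrix.of S2.T') l b * Θi b m =
        ∑ a, Θi a l * S2.T' a b * Θi b m := by
      intro b
      rw [Matrix.mul_apply, Finset.sum_mul]
      rfl
    rw [Finset.sum_congr rfl fun b _ => h4 b, Finset.sum_comm]
  simp only [SC.ks, Ks.chb, Ks.mk.injEq]
  exact ⟨hμ, hα, hν, hT, hT'⟩

end

end Pool.Agent.MP_1c8e06_ag.CY
end

section

/-!
# CY GA5: the splitting does not increase the Gauss norm

PROOF for the open disc D = od c r (‖α - c‖ < r).  f1 = A/Q1 with Q1 = ∏ (X - α_i), ‖α_i - c‖ < r,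
deg A < d := deg Q1 (or A = 0); f2 = B/Q2, Q2 without roots in D.  Write all polynomials in powers of
(X - c) (i.e. compose with X + C c): A = ∑ A_i Y^i etc.  |P| := gn c r P.
|Q1| = r^d, and ‖Q1_j‖ r^j < r^d for j < d (monic; elementary symmetric functions of the α_i - c, or by
induction over the factors: for a product of factors Y - β_i, ‖β_i‖ < r).
|Q2| = ‖Q2_0‖ ≠ 0 (all roots β have ‖β - c‖ ≥ r: each factor X - β has norm max r ‖c-β‖ = ‖c-β‖ =
absolute value of its value at c).
Claim: |A Q2 + B Q1| ≥ |A| |Q2|.  We may assume A ≠ 0.  Let i0 be the least i with ‖A_i‖ r^i = |A|; i0 < d.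
The coefficient of index i0 of A Q2 is A_{i0} Q2_0 + ∑_{i<i0} A_i Q2_{i0-i}; times r^{i0}: the first term
has norm |A||Q2|, the others are < |A||Q2| (as ‖A_i‖ r^i < |A| for i < i0).  So it has norm exactly
|A||Q2|.  The coefficient of index i0 of B Q1 is ∑_j B_{i0-j} Q1_j with j ≤ i0 < d: times r^{i0} it is
< |B| |Q1| if B ≠ 0 (0 if B = 0).  If |B||Q1| ≤ |A||Q2| then the coefficient of the sum has norm
|A||Q2| / r^{i0}: claim.  If |B||Q1| > |A||Q2| = |A Q2| then |A Q2 + B Q1| = |B Q1| > |A||Q2| (ultrametric).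
Divide by |Q1 Q2|: v(f1) = |A|/|Q1| ≤ |A Q2 + B Q1|/(|Q1||Q2|) = v(f1 + f2).
Closed disc: f1 + f2 has finitely many poles.  Let rho > r be less than ‖β - c‖ for all poles β of f2
(all of them have ‖β-c‖ > r).  For r < r' < rho: IsPol (od c r') f1 and f2 ∈ Reg (od c r'), so the
inequality holds at r'; now `gp_le_right` (GA2).
`split_norm_right`: v(f2) ≤ max(v(f1+f2), v(f1)).
-/

set_option autoImplicit false

open Polynomial
open scoped Classical

namespace Pool.Agent.MP_1c8e06_ag.CY

open Pool.Agent.MP_1c8e06_ag.AJ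

noncomputable section

set_option linter.unusedSectionVars false

variable {Om : Type} [NormedField Om] [IsUltrametricDist Om] [IsAlgClosed Om]

private theorem GA5_sub (a b : Om) {t : ℝ} (ht : 0 ≤ t) :
    ‖a - b‖ * t ≤ max (‖a‖ * t) (‖b‖ * t) := by
  rw [← max_mul_of_nonneg _ _ ht]
  refine mul_le_mul_of_nonneg_right ?_ ht
  rw [sub_eq_add_neg, ← norm_neg b]
  exact IsUltrametricDist.norm_add_le_max a (-b)

private theorem GA5_add (a b : Om) {t : ℝ} (ht : 0 ≤ t) :
    ‖a + b‖ * t ≤ max (‖a‖ * t) (‖b‖ * t) := by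
  rw [← max_mul_of_nonneg _ _ ht]
  exact mul_le_mul_of_nonneg_right (IsUltrametricDist.norm_add_le_max a b) ht

private theorem GA5_sum {ι : Type} (s : Finset ι) (f : ι → Om) {t M : ℝ} (ht : 0 ≤ t)
    (hM : 0 < M) (h : ∀ i ∈ s, ‖f i‖ * t < M) : ‖∑ i ∈ s, f i‖ * t < M := by
  induction s using Finset.induction_on with
  | empty => simpa using hM
  | insert a s ha ih =>
    rw [Finset.sum_insert ha]
    refine (GA5_add _ _ ht).trans_lt (max_lt (h a (Finset.mem_insert_self a s)) (ih ?_))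
    intro i hi
    exact h i (Finset.mem_insert_of_mem hi)

private theorem GA5_small {r : ℝ} (hr : 0 < r) (s : Multiset Om) : (∀ a ∈ s, ‖a‖ < r) →
    ∀ j, (j < s.card → ‖(s.map fun a => X - C a).prod.coeff j‖ * r ^ j < r ^ s.card) ∧
      ‖(s.map fun a => X - C a).prod.coeff j‖ * r ^ j ≤ r ^ s.card := by
  induction s using Multiset.induction_on with
  | empty =>
    intro _ j
    refine ⟨fun h => absurd h (by simp), ?_⟩
    rw [Multiset.map_zero, Multiset.prod_zero, coeff_one, Multiset.card_zero, pow_zero]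
    split_ifs with h
    · rw [h, pow_zero, mul_one, norm_one]
    · rw [norm_zero, zero_mul]
      exact zero_le_one
  | cons a s ih =>
    intro hs j
    have ha : ‖a‖ < r := hs a (Multiset.mem_cons_self a s)
    have ih' := ih fun b hb => hs b (Multiset.mem_cons_of_mem hb)
    have hp : 0 < r ^ s.card := pow_pos hr _
    rw [Multiset.map_cons, Multiset.prod_cons, Multiset.card_cons]
    set Q : Om[X] := (s.map fun a => X - C a).prod with hQ
    cases j with
    | zero =>
      have h0 := (ih' 0).2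
      rw [pow_zero, mul_one] at h0
      have h1 : ‖((X - C a) * Q).coeff 0‖ * r ^ 0 < r ^ (s.card + 1) := by
        rw [mul_coeff_zero, coeff_sub, coeff_X_zero, coeff_C_zero, zero_sub, norm_mul, norm_neg,
          pow_zero, mul_one, pow_succ']
        calc ‖a‖ * ‖Q.coeff 0‖ ≤ ‖a‖ * r ^ s.card := mul_le_mul_of_nonneg_left h0 (norm_nonneg a)
          _ < r * r ^ s.card := mul_lt_mul_of_pos_right ha hp
      exact ⟨fun _ => h1, h1.le⟩
    | succ j =>
      rw [coeff_X_sub_C_mul]
      have hb : ‖a * Q.coeff (j + 1)‖ * r ^ (j + 1) < r ^ (s.card + 1) := by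
        rw [norm_mul, mul_assoc, pow_succ' r s.card]
        calc ‖a‖ * (‖Q.coeff (j + 1)‖ * r ^ (j + 1)) ≤ ‖a‖ * r ^ s.card :=
              mul_le_mul_of_nonneg_left (ih' (j + 1)).2 (norm_nonneg a)
          _ < r * r ^ s.card := mul_lt_mul_of_pos_right ha hp
      have e : ‖Q.coeff j‖ * r ^ (j + 1) = ‖Q.coeff j‖ * r ^ j * r := by
        rw [pow_succ, mul_assoc]
      refine ⟨fun hj => ?_, ?_⟩
      · refine (GA5_sub _ _ (pow_pos hr _).le).trans_lt (max_lt ?_ hb)
        rw [e, pow_succ r s.card]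
        exact mul_lt_mul_of_pos_right ((ih' j).1 (by omega)) hr
      · refine (GA5_sub _ _ (pow_pos hr _).le).trans (max_le ?_ hb.le)
        rw [e, pow_succ r s.card]
        exact mul_le_mul_of_nonneg_right (ih' j).2 hr.le

private theorem GA5_big {r : ℝ} (hr : 0 < r) (s : Multiset Om) : (∀ a ∈ s, r ≤ ‖a‖) →
    ∀ j, ‖(s.map fun a => X - C a).prod.coeff j‖ * r ^ j ≤
      ‖(s.map fun a => X - C a).prod.coeff 0‖ := by
  induction s using Multiset.induction_on with
  | empty =>
    intro _ j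
    rw [Multiset.map_zero, Multiset.prod_zero, coeff_one, coeff_one, if_pos rfl]
    split_ifs with h
    · rw [h, pow_zero, mul_one]
    · rw [norm_zero, zero_mul]
      exact norm_nonneg _
  | cons a s ih =>
    intro hs j
    have ha : r ≤ ‖a‖ := hs a (Multiset.mem_cons_self a s)
    have ih' := ih fun b hb => hs b (Multiset.mem_cons_of_mem hb)
    rw [Multiset.map_cons, Multiset.prod_cons]
    set Q : Om[X] := (s.map fun a => X - C a).prod with hQ
    have h0 : ‖((X - C a) * Q).coeff 0‖ = ‖a‖ * ‖Q.coeff 0‖ := by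
      rw [mul_coeff_zero, coeff_sub, coeff_X_zero, coeff_C_zero, zero_sub, norm_mul, norm_neg]
    cases j with
    | zero => rw [pow_zero, mul_one]
    | succ j =>
      rw [coeff_X_sub_C_mul, h0]
      refine (GA5_sub _ _ (pow_pos hr _).le).trans (max_le ?_ ?_)
      · calc ‖Q.coeff j‖ * r ^ (j + 1) = r * (‖Q.coeff j‖ * r ^ j) := by ring
          _ ≤ ‖a‖ * ‖Q.coeff 0‖ :=
            mul_le_mul ha (ih' j) (mul_nonneg (norm_nonneg _) (pow_pos hr _).le) (norm_nonneg a)
      · rw [norm_mul, mul_assoc]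
        exact mul_le_mul_of_nonneg_left (ih' (j + 1)) (norm_nonneg a)

private theorem GA5_claim {c : Om} {r : ℝ} (hr : 0 < r) {A B Q1 Q2 : Om[X]} (hm : Q1.Monic)
    (h1 : ∀ α, Q1.eval α = 0 → ‖α - c‖ < r) (hQ2 : Q2 ≠ 0)
    (h2 : ∀ α, Q2.eval α = 0 → r ≤ ‖α - c‖) (hA : A = 0 ∨ A.natDegree < Q1.natDegree) :
    gn c r A * gn c r Q2 ≤ gn c r (A * Q2 + B * Q1) := by
  by_cases hA0 : A = 0
  · rw [hA0, (gn_eq_zero c hr).2 rfl, zero_mul]
    exact gn_nonneg c hr _
  have hA1 : A.natDegree < Q1.natDegree := hA.resolve_left hA0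
  have hdeg : ∀ P : Om[X], (P.comp (X + C c)).natDegree = P.natDegree := by
    intro P
    rw [natDegree_comp, natDegree_X_add_C, mul_one]
  have hev : ∀ (P : Om[X]) (a : Om), (P.comp (X + C c)).eval a = P.eval (a + c) := by
    intro P a
    rw [eval_comp, eval_add, eval_X, eval_C]
  -- the first denominator
  set d := Q1.natDegree with hd
  have hm' : (Q1.comp (X + C c)).Monic := hm.comp_X_add_C c
  have e1 := (IsAlgClosed.splits (Q1.comp (X + C c))).eq_prod_roots_of_monic hm'
  have c1 : (Q1.comp (X + C c)).roots.card = d := by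
    have := congrArg natDegree e1
    rw [natDegree_multiset_prod_X_sub_C_eq_card, hdeg] at this
    exact this.symm
  have s1 : ∀ a ∈ (Q1.comp (X + C c)).roots, ‖a‖ < r := by
    intro a ha
    have := h1 (a + c) (by rw [← hev]; exact (mem_roots'.1 ha).2)
    rwa [add_sub_cancel_right] at this
  have k1 : ∀ j, (j < d → ‖(Q1.comp (X + C c)).coeff j‖ * r ^ j < r ^ d) ∧
      ‖(Q1.comp (X + C c)).coeff j‖ * r ^ j ≤ r ^ d := by
    intro j
    have := GA5_small hr _ s1 j
    rw [← e1, c1] at this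
    exact this
  have g1 : gn c r Q1 = r ^ d := by
    refine le_antisymm (gn_le c Q1 fun i => (k1 i).2) ?_
    have := gn_coeff_le c hr Q1 d
    have h3 : (Q1.comp (X + C c)).coeff d = 1 := by
      have h4 := hm'.coeff_natDegree
      rwa [hdeg] at h4
    rwa [h3, norm_one, one_mul] at this
  -- the second denominator
  have hQ2' : Q2.comp (X + C c) ≠ 0 := by
    intro h
    apply hQ2
    have := (gn_eq_zero c hr (P := Q2)).1
    apply this
    unfold gn
    rw [h]
    exact gaussNorm_zero _ _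
  have k2 : ∀ j, ‖(Q2.comp (X + C c)).coeff j‖ * r ^ j ≤ ‖(Q2.comp (X + C c)).coeff 0‖ := by
    have s2 : ∀ a ∈ (Q2.comp (X + C c)).roots, r ≤ ‖a‖ := by
      intro a ha
      have := h2 (a + c) (by rw [← hev]; exact (mem_roots'.1 ha).2)
      rwa [add_sub_cancel_right] at this
    intro j
    have e2 := (IsAlgClosed.splits (Q2.comp (X + C c))).eq_prod_roots
    rw [e2, coeff_C_mul, coeff_C_mul, norm_mul, norm_mul, mul_assoc]
    exact mul_le_mul_of_nonneg_left (GA5_big hr _ s2 j) (norm_nonneg _)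
  have g2 : gn c r Q2 = ‖(Q2.comp (X + C c)).coeff 0‖ := by
    refine le_antisymm (gn_le c Q2 k2) ?_
    have := gn_coeff_le c hr Q2 0
    rwa [pow_zero, mul_one] at this
  have p2 : 0 < gn c r Q2 := gn_pos c hr hQ2
  have pA : 0 < gn c r A := gn_pos c hr hA0
  set N := gn c r A * gn c r Q2 with hN
  have pN : 0 < N := mul_pos pA p2
  rcases lt_or_ge N (gn c r B * r ^ d) with hB | hB
  · -- the second summand dominates
    have h3 : gn c r (B * Q1) ≤ max (gn c r (A * Q2 + B * Q1)) (gn c r (C (-1) * (A * Q2))) := by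
      have := gn_add c hr (A * Q2 + B * Q1) (C (-1) * (A * Q2))
      have e : A * Q2 + B * Q1 + C (-1) * (A * Q2) = B * Q1 := by
        rw [map_neg, map_one]
        ring
      rwa [e] at this
    rw [gn_mul c hr (C (-1)), gn_C c hr, norm_neg, norm_one, one_mul, gn_mul c hr A, ← hN,
      gn_mul c hr B, g1] at h3
    rcases le_max_iff.1 h3 with h4 | h4
    · exact hB.le.trans h4
    · exact absurd h4 (not_le.2 hB)
  · -- the coefficient of the first dominating monomial
    have hex : ∃ i, gn c r A = ‖(A.comp (X + C c)).coeff i‖ * r ^ i := gn_exists c A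
    set i := Nat.find hex with hi
    have hi1 : gn c r A = ‖(A.comp (X + C c)).coeff i‖ * r ^ i := Nat.find_spec hex
    have hi2 : ∀ j < i, ‖(A.comp (X + C c)).coeff j‖ * r ^ j < gn c r A := by
      intro j hj
      exact lt_of_le_of_ne (gn_coeff_le c hr A j) fun h => Nat.find_min hex hj h.symm
    have hid : i < d := by
      by_contra hcon
      have h3 : (A.comp (X + C c)).coeff i = 0 := by
        apply coeff_eq_zero_of_natDegree_lt
        rw [hdeg]
        omega
      rw [h3, norm_zero, zero_mul] at hi1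
      exact pA.ne' hi1
    have ht : (0 : ℝ) ≤ r ^ i := (pow_pos hr _).le
    have split : ∀ (a b : Om) (x : ℕ × ℕ), x.1 + x.2 = i →
        ‖a * b‖ * r ^ i = (‖a‖ * r ^ x.1) * (‖b‖ * r ^ x.2) := by
      intro a b x hx
      rw [norm_mul, ← hx, pow_add]
      ring
    set m : Om := (A.comp (X + C c)).coeff i * (Q2.comp (X + C c)).coeff 0 with hmdef
    set R : Om := ∑ x ∈ (Finset.HasAntidiagonal.antidiagonal i).erase (i, 0),
      (A.comp (X + C c)).coeff x.1 * (Q2.comp (X + C c)).coeff x.2 with hR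
    set y : Om := ∑ x ∈ Finset.HasAntidiagonal.antidiagonal i,
      (B.comp (X + C c)).coeff x.1 * (Q1.comp (X + C c)).coeff x.2 with hy
    have hm1 : ‖m‖ * r ^ i = N := by
      rw [hmdef, norm_mul, hN, hi1, g2]
      ring
    have hR1 : ‖R‖ * r ^ i < N := by
      rw [hR]
      refine GA5_sum _ _ ht pN fun x hx => ?_
      rw [Finset.mem_erase, Finset.HasAntidiagonal.mem_antidiagonal] at hx
      rw [split _ _ x hx.2]
      have hx1 : x.1 < i := by
        rcases Nat.lt_or_ge x.1 i with h | h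
        · exact h
        · exfalso
          apply hx.1
          apply Prod.ext
          · show x.1 = i
            omega
          · show x.2 = 0
            omega
      have h3 := hi2 x.1 hx1
      have h4 := k2 x.2
      rw [← g2] at h4
      calc _ ≤ (‖(A.comp (X + C c)).coeff x.1‖ * r ^ x.1) * gn c r Q2 :=
            mul_le_mul_of_nonneg_left h4 (mul_nonneg (norm_nonneg _) (pow_pos hr _).le)
        _ < gn c r A * gn c r Q2 := mul_lt_mul_of_pos_right h3 p2
    have hy1 : ‖y‖ * r ^ i < N := by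
      rw [hy]
      refine GA5_sum _ _ ht pN fun x hx => ?_
      rw [Finset.HasAntidiagonal.mem_antidiagonal] at hx
      rw [split _ _ x hx]
      have h3 := gn_coeff_le c hr B x.1
      have h4 := (k1 x.2).1 (by omega)
      have h5 : 0 ≤ ‖(Q1.comp (X + C c)).coeff x.2‖ * r ^ x.2 :=
        mul_nonneg (norm_nonneg _) (pow_pos hr _).le
      rcases (gn_nonneg c hr B).eq_or_lt with h6 | h6
      · rw [← h6] at h3
        have h7 : ‖(B.comp (X + C c)).coeff x.1‖ * r ^ x.1 = 0 :=
          le_antisymm h3 (mul_nonneg (norm_nonneg _) (pow_pos hr _).le)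
        rw [h7, zero_mul]
        exact pN
      · calc _ ≤ gn c r B * (‖(Q1.comp (X + C c)).coeff x.2‖ * r ^ x.2) :=
              mul_le_mul_of_nonneg_right h3 h5
          _ < gn c r B * r ^ d := mul_lt_mul_of_pos_left h4 h6
          _ ≤ N := hB
    have hmem : (i, 0) ∈ Finset.HasAntidiagonal.antidiagonal i := by
      rw [Finset.HasAntidiagonal.mem_antidiagonal]
      rfl
    have hco : ((A * Q2 + B * Q1).comp (X + C c)).coeff i = m + (R + y) := by
      rw [add_comp, mul_comp, mul_comp, coeff_add, coeff_mul, coeff_mul, ← hy, ← add_assoc, hmdef,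
        hR]
      congr 1
      exact (Finset.add_sum_erase _
        (fun x : ℕ × ℕ => (A.comp (X + C c)).coeff x.1 * (Q2.comp (X + C c)).coeff x.2)
        hmem).symm
    have h7 := gn_coeff_le c hr (A * Q2 + B * Q1) i
    rw [hco] at h7
    refine le_trans ?_ h7
    have h8 : ‖R + y‖ * r ^ i < N := (GA5_add _ _ ht).trans_lt (max_lt hR1 hy1)
    have h9 := GA5_sub (m + (R + y)) (R + y) ht
    rw [add_sub_cancel_right, hm1] at h9
    rcases le_max_iff.1 h9 with h10 | h10
    · exact h10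
    · exact absurd h10 (not_le.2 h8)

private theorem GA5_open {c : Om} {r : ℝ} (hr : 0 < r) {f1 f2 : RatFunc Om}
    (h1 : IsPol (od c r) f1) (h2 : f2 ∈ Reg (od c r)) : (gp c r).v f1 ≤ (gp c r).v (f1 + f2) := by
  have hq1 := RatFunc.denom_ne_zero f1
  have hq2 := RatFunc.denom_ne_zero f2
  have q1 : algebraMap Om[X] (RatFunc Om) f1.denom ≠ 0 := by
    rw [Ne, map_eq_zero_iff _ (RatFunc.algebraMap_injective Om)]
    exact hq1
  have q2 : algebraMap Om[X] (RatFunc Om) f2.denom ≠ 0 := by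
    rw [Ne, map_eq_zero_iff _ (RatFunc.algebraMap_injective Om)]
    exact hq2
  have hcl := GA5_claim hr (A := f1.num) (B := f2.num) (RatFunc.monic_denom f1)
    (c := c) (Q2 := f2.denom)
    (fun α hα => by
      by_contra hcon
      exact h1.1 α hcon hα) hq2
    (fun α hα => by
      by_contra hcon
      exact h2 α (not_le.1 hcon) hα)
    (by
      rcases h1.2 with h | h
      · left
        rw [h, RatFunc.num_zero]
      · exact Or.inr h)
  have p1 : 0 < gn c r f1.denom := gn_pos c hr hq1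
  have p2 : 0 < gn c r f2.denom := gn_pos c hr hq2
  have e1 : (gp c r).v f1 * gn c r f1.denom = gn c r f1.num := by
    rw [gp_apply, pr_eq hr, div_mul_cancel₀ _ p1.ne']
  have e3 : (f1 + f2) * algebraMap Om[X] (RatFunc Om) (f1.denom * f2.denom) =
      algebraMap Om[X] (RatFunc Om) (f1.num * f2.denom + f2.num * f1.denom) := by
    have a1 := RatFunc.num_div_denom f1
    have a2 := RatFunc.num_div_denom f2
    calc (f1 + f2) * algebraMap Om[X] (RatFunc Om) (f1.denom * f2.denom) =
        (algebraMap Om[X] (RatFunc Om) f1.num / algebraMap Om[X] (RatFunc Om) f1.denom +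
          algebraMap Om[X] (RatFunc Om) f2.num / algebraMap Om[X] (RatFunc Om) f2.denom) *
          algebraMap Om[X] (RatFunc Om) (f1.denom * f2.denom) := by rw [a1, a2]
      _ = algebraMap Om[X] (RatFunc Om) (f1.num * f2.denom + f2.num * f1.denom) := by
        rw [div_add_div _ _ q1 q2, map_mul, div_mul_cancel₀ _ (mul_ne_zero q1 q2), map_add,
          map_mul, map_mul]
        ring
  have e4 := congrArg (gp c r).v e3
  rw [map_mul, gp_poly c hr, gp_poly c hr, gn_mul c hr] at e4
  rw [← e4, ← e1] at hcl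
  have h5 : (gp c r).v f1 * (gn c r f1.denom * gn c r f2.denom) ≤
      (gp c r).v (f1 + f2) * (gn c r f1.denom * gn c r f2.denom) := by
    rw [← mul_assoc]
    exact hcl
  exact le_of_mul_le_mul_right h5 (mul_pos p1 p2)

private theorem GA5_min (S : Finset Om) (g : Om → ℝ) (r : ℝ) (h : ∀ a ∈ S, r < g a) :
    ∃ r1, r < r1 ∧ ∀ a ∈ S, r1 ≤ g a := by
  induction S using Finset.induction_on with
  | empty => exact ⟨r + 1, by linarith, fun a ha => absurd ha (Finset.notMem_empty a)⟩
  | insert b S hb ih =>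
    obtain ⟨r1, h1, h2⟩ := ih fun a ha => h a (Finset.mem_insert_of_mem ha)
    refine ⟨min r1 (g b), lt_min h1 (h b (Finset.mem_insert_self b S)), ?_⟩
    intro a ha
    rcases Finset.mem_insert.1 ha with h3 | h3
    · rw [h3]
      exact min_le_right _ _
    · exact (min_le_left _ _).trans (h2 a h3)

private theorem GA5_other {w : Pt Om} {f1 f2 : RatFunc Om} (h : w.v f1 ≤ w.v (f1 + f2)) :
    w.v f2 ≤ w.v (f1 + f2) := by
  have h1 := w.na (f1 + f2) (-f1)
  rw [add_comm f1 f2, add_neg_cancel_right, AbsoluteValue.map_neg, add_comm f2 f1] at h1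
  exact h1.trans (max_le le_rfl h)

theorem split_norm_open {c : Om} {r : ℝ} (hr : 0 < r) {f1 f2 : RatFunc Om}
    (h1 : IsPol (od c r) f1) (h2 : f2 ∈ Reg (od c r)) : (gp c r).v f1 ≤ (gp c r).v (f1 + f2) :=
  GA5_open hr h1 h2

theorem split_norm_closed {c : Om} {r : ℝ} (hr : 0 < r) {f1 f2 : RatFunc Om}
    (h1 : IsPol (cd c r) f1) (h2 : f2 ∈ Reg (cd c r)) : (gp c r).v f1 ≤ (gp c r).v (f1 + f2) := by
  obtain ⟨r1, hr1, hmin⟩ := GA5_min f2.denom.roots.toFinset (fun a => ‖a - c‖) r (by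
    intro a ha
    rw [Multiset.mem_toFinset, mem_roots (RatFunc.denom_ne_zero f2)] at ha
    by_contra hcon
    exact h2 a (not_lt.1 hcon) ha)
  refine gp_le_right c f1 (f1 + f2) hr ⟨r1, hr1, fun r' hr' hr'1 => ?_⟩
  refine GA5_open (hr.trans hr') (h1.mono fun α hα => lt_of_le_of_lt hα hr') ?_
  intro α hα h3
  have h4 := hmin α (by
    rw [Multiset.mem_toFinset, mem_roots (RatFunc.denom_ne_zero f2)]
    exact h3)
  have h5 : ‖α - c‖ < r' := hα
  linarith

theorem split_norm_open' {c : Om} {r : ℝ} (hr : 0 < r) {f1 f2 : RatFunc Om}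
    (h1 : IsPol (od c r) f1) (h2 : f2 ∈ Reg (od c r)) : (gp c r).v f2 ≤ (gp c r).v (f1 + f2) :=
  GA5_other (split_norm_open hr h1 h2)

theorem split_norm_closed' {c : Om} {r : ℝ} (hr : 0 < r) {f1 f2 : RatFunc Om}
    (h1 : IsPol (cd c r) f1) (h2 : f2 ∈ Reg (cd c r)) : (gp c r).v f2 ≤ (gp c r).v (f1 + f2) :=
  GA5_other (split_norm_closed hr h1 h2)

end

end Pool.Agent.MP_1c8e06_ag.CY
end

section

/-!
# CY GA6: maximum modulus for functions with poles inside / outside a disc

PROOFS.  `pol_le`: f = A/Q in lowest terms, Q = ∏ (X - α_i) (monic, d factors), ‖α_i - c‖ < r ≤ w(u - c):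
w(Q) = w(u-c)^d (`Pt.X_sub_eq`, `Pt.v_poly`), (gp c r)(Q) = r^d.  A = ∑_{i<d} A_i (u-c)^i:
w(A) ≤ max ‖A_i‖ w(u-c)^i (`Pt.poly_le`), and ‖A_i‖ w(u-c)^i / w(u-c)^d ≤ ‖A_i‖ r^i / r^d since i < d and
w(u-c) ≥ r.  So w(f) ≤ max_i ‖A_i‖ r^i/r^d = (gp c r) f.
`pol_le_closed` (poles in the closed disc, w(u-c) > r): the same proof with ‖α_i - c‖ ≤ r < w(u - c).
`pol_le_gp`: radius r' ≥ r at the same centre: for r' > r it is `pol_le_closed`, r' = r trivial.
`reg_le`: f = A/Q, Q = ∏ (X - β_i), ‖β_i - c‖ > R ≥ w(u-c): w(u - β_i) = ‖β_i - c‖ (`Pt.X_sub_eq'`) and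
gp c R gives the same value max R ‖c-β_i‖ = ‖c - β_i‖; w(A) ≤ max ‖A_i‖ w(u-c)^i ≤ max ‖A_i‖ R^i.
`reg_le_open`: f ∈ Reg (od c R), w(u-c) < R: ‖β_i - c‖ ≥ R > w(u-c), the same proof.
`reg_eval_le`: f ∈ Reg (cd c R): the value at c: ‖num(c)‖/‖denom(c)‖ ≤ gn c R num / gn c R denom, because
gn c R denom = ‖denom(c)‖.
-/

set_option autoImplicit false

open Polynomial
open scoped Classical

namespace Pool.Agent.MP_1c8e06_ag.CY

open Pool.Agent.MP_1c8e06_ag.AJ

noncomputable section

set_option linter.unusedSectionVars false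

variable {Om : Type} [NormedField Om] [IsUltrametricDist Om] [IsAlgClosed Om]

private theorem GA6_v_monic (w : Pt Om) {Q : Om[X]} (hQ : Q.Monic) :
    w.v (algebraMap Om[X] (RatFunc Om) Q) =
      (Q.roots.map fun α => w.v (RatFunc.X - RatFunc.C α)).prod := by
  rw [w.v_poly hQ.ne_zero, hQ.leadingCoeff, norm_one, one_mul]

private theorem GA6_v_pow (w : Pt Om) {Q : Om[X]} (hQ : Q.Monic) {W : ℝ}
    (h : ∀ α ∈ Q.roots, w.v (RatFunc.X - RatFunc.C α) = W) :
    w.v (algebraMap Om[X] (RatFunc Om) Q) = W ^ Q.natDegree := by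
  rw [GA6_v_monic w hQ, Multiset.map_congr rfl h, Multiset.map_const', Multiset.prod_replicate,
    (IsAlgClosed.splits Q).natDegree_eq_card_roots]

private theorem GA6_v_div (w : Pt Om) (f : RatFunc Om) :
    w.v f = w.v (algebraMap Om[X] (RatFunc Om) f.num) /
      w.v (algebraMap Om[X] (RatFunc Om) f.denom) := by
  conv_lhs => rw [← RatFunc.num_div_denom f]
  rw [map_div₀]

private theorem GA6_root {f : RatFunc Om} {α : Om} (h : α ∈ f.denom.roots) :
    f.denom.eval α = 0 := (Polynomial.mem_roots'.1 h).2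

/-- The common part of the statements on poles. -/
private theorem GA6_pol {c : Om} {r : ℝ} (hr : 0 < r) {f : RatFunc Om}
    (hf : f = 0 ∨ f.num.natDegree < f.denom.natDegree) (w : Pt Om)
    (hw : r ≤ w.v (RatFunc.X - RatFunc.C c))
    (h1 : ∀ α ∈ f.denom.roots, w.v (RatFunc.X - RatFunc.C α) = w.v (RatFunc.X - RatFunc.C c))
    (h2 : ∀ α ∈ f.denom.roots, ‖α - c‖ ≤ r) : w.v f ≤ (gp c r).v f := by
  rcases hf with hf | hf
  · rw [hf, map_zero, map_zero]
  set W := w.v (RatFunc.X - RatFunc.C c) with hW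
  have hW0 : 0 < W := lt_of_lt_of_le hr hw
  have hm := RatFunc.monic_denom f
  rw [GA6_v_div w f, GA6_v_div (gp c r) f, GA6_v_pow w hm h1, GA6_v_pow (gp c r) hm (W := r)
    (fun α hα => by
      rw [gp_X_sub c α hr, max_eq_left]
      rw [norm_sub_rev]
      exact h2 α hα), gp_poly c hr, div_le_div_iff₀ (pow_pos hW0 _) (pow_pos hr _)]
  have hM : 0 ≤ gn c r f.num * W ^ f.denom.natDegree / r ^ f.denom.natDegree :=
    div_nonneg (mul_nonneg (gn_nonneg c hr _) (pow_nonneg hW0.le _)) (pow_nonneg hr.le _)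
  rw [← le_div_iff₀ (pow_pos hr _)]
  refine w.poly_le c f.num hM fun i => ?_
  rw [le_div_iff₀ (pow_pos hr _), ← hW]
  by_cases hi : f.denom.natDegree ≤ i
  · have hz : (f.num.comp (X + C c)).coeff i = 0 := by
      apply coeff_eq_zero_of_natDegree_lt
      rw [natDegree_comp, natDegree_X_add_C, mul_one]
      omega
    rw [hz, norm_zero, zero_mul, zero_mul]
    exact mul_nonneg (gn_nonneg c hr _) (pow_nonneg hW0.le _)
  · obtain ⟨k, hk⟩ := Nat.exists_eq_add_of_lt (not_le.1 hi)
    have hk' : f.denom.natDegree = i + (k + 1) := by omega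
    rw [hk', pow_add r i (k + 1), pow_add W i (k + 1)]
    have h3 := gn_coeff_le c hr f.num i
    have h4 : r ^ (k + 1) ≤ W ^ (k + 1) := pow_le_pow_left₀ hr.le hw _
    calc ‖(f.num.comp (X + C c)).coeff i‖ * W ^ i * (r ^ i * r ^ (k + 1))
        = (‖(f.num.comp (X + C c)).coeff i‖ * r ^ i) * (W ^ i * r ^ (k + 1)) := by ring
      _ ≤ gn c r f.num * (W ^ i * W ^ (k + 1)) :=
          mul_le_mul h3 (mul_le_mul_of_nonneg_left h4 (pow_nonneg hW0.le _))
            (mul_nonneg (pow_nonneg hW0.le _) (pow_nonneg hr.le _)) (gn_nonneg c hr _)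

/-- The common part of the statements on regular functions. -/
private theorem GA6_reg {c : Om} {R : ℝ} (hR : 0 < R) {f : RatFunc Om} (w : Pt Om)
    (hw : w.v (RatFunc.X - RatFunc.C c) ≤ R)
    (h1 : ∀ α ∈ f.denom.roots, w.v (RatFunc.X - RatFunc.C α) = ‖α - c‖)
    (h2 : ∀ α ∈ f.denom.roots, R ≤ ‖α - c‖) : w.v f ≤ (gp c R).v f := by
  have hm := RatFunc.monic_denom f
  have hden : w.v (algebraMap Om[X] (RatFunc Om) f.denom) =
      (gp c R).v (algebraMap Om[X] (RatFunc Om) f.denom) := by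
    rw [GA6_v_monic w hm, GA6_v_monic (gp c R) hm]
    congr 1
    apply Multiset.map_congr rfl
    intro α hα
    rw [h1 α hα, gp_X_sub c α hR, norm_sub_rev c α, max_eq_right (h2 α hα)]
  rw [GA6_v_div w f, GA6_v_div (gp c R) f, hden]
  refine div_le_div_of_nonneg_right ?_ (AbsoluteValue.nonneg _ _)
  rw [gp_poly c hR]
  refine w.poly_le c f.num (gn_nonneg c hR _) fun i => ?_
  exact (mul_le_mul_of_nonneg_left (pow_le_pow_left₀ (AbsoluteValue.nonneg _ _) hw i)
    (norm_nonneg _)).trans (gn_coeff_le c hR f.num i)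

theorem pol_le {c : Om} {r : ℝ} (hr : 0 < r) {f : RatFunc Om} (hf : IsPol (od c r) f) (w : Pt Om)
    (hw : r ≤ w.v (RatFunc.X - RatFunc.C c)) : w.v f ≤ (gp c r).v f := by
  have h : ∀ α ∈ f.denom.roots, ‖α - c‖ < r := by
    intro α hα
    by_contra hc
    exact hf.1 α hc (GA6_root hα)
  exact GA6_pol hr hf.2 w hw (fun α hα => w.X_sub_eq c α (lt_of_lt_of_le (h α hα) hw))
    (fun α hα => (h α hα).le)

theorem pol_le_closed {c : Om} {r : ℝ} (hr : 0 < r) {f : RatFunc Om} (hf : IsPol (cd c r) f)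
    (w : Pt Om) (hw : r < w.v (RatFunc.X - RatFunc.C c)) : w.v f ≤ (gp c r).v f := by
  have h : ∀ α ∈ f.denom.roots, ‖α - c‖ ≤ r := by
    intro α hα
    by_contra hc
    exact hf.1 α hc (GA6_root hα)
  exact GA6_pol hr hf.2 w hw.le (fun α hα => w.X_sub_eq c α (lt_of_le_of_lt (h α hα) hw)) h

theorem pol_le_gp {c : Om} {r r' : ℝ} (hr : 0 < r) (hr' : r ≤ r') {f : RatFunc Om}
    (hf : IsPol (cd c r) f) : (gp c r').v f ≤ (gp c r).v f := by
  rcases hr'.eq_or_lt with h | h
  · rw [h]
  · refine pol_le_closed hr hf (gp c r') ?_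
    rw [gp_X_sub c c (hr.trans h), sub_self, norm_zero, max_eq_left (hr.trans h).le]
    exact h

theorem reg_le {c : Om} {R : ℝ} (hR : 0 < R) {f : RatFunc Om} (hf : f ∈ Reg (cd c R)) (w : Pt Om)
    (hw : w.v (RatFunc.X - RatFunc.C c) ≤ R) : w.v f ≤ (gp c R).v f := by
  have h : ∀ α ∈ f.denom.roots, R < ‖α - c‖ := by
    intro α hα
    by_contra hc
    exact mem_Reg.1 hf α (not_lt.1 hc) (GA6_root hα)
  exact GA6_reg hR w hw (fun α hα => w.X_sub_eq' c α (lt_of_le_of_lt hw (h α hα)))
    (fun α hα => (h α hα).le)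

theorem reg_le_open {c : Om} {R : ℝ} (hR : 0 < R) {f : RatFunc Om} (hf : f ∈ Reg (od c R))
    (w : Pt Om) (hw : w.v (RatFunc.X - RatFunc.C c) < R) : w.v f ≤ (gp c R).v f := by
  have h : ∀ α ∈ f.denom.roots, R ≤ ‖α - c‖ := by
    intro α hα
    by_contra hc
    exact mem_Reg.1 hf α (not_le.1 hc) (GA6_root hα)
  exact GA6_reg hR w hw.le (fun α hα => w.X_sub_eq' c α (lt_of_lt_of_le hw (h α hα))) h

theorem reg_eval_le {c : Om} {R : ℝ} (hR : 0 < R) {f : RatFunc Om} (hf : f ∈ Reg (cd c R)) :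
    ‖f.num.eval c / f.denom.eval c‖ ≤ (gp c R).v f := by
  have hm := RatFunc.monic_denom f
  have hden : ‖f.denom.eval c‖ = gn c R f.denom := by
    rw [← gp_poly c hR, GA6_v_monic (gp c R) hm,
      (IsAlgClosed.splits f.denom).eval_eq_prod_roots_of_monic hm c]
    have hn : ∀ s : Multiset Om, ‖(s.map fun α => c - α).prod‖ = (s.map fun α => ‖c - α‖).prod := by
      intro s
      induction s using Multiset.induction_on with
      | empty => simp
      | cons x s ih => rw [Multiset.map_cons, Multiset.prod_cons, Multiset.map_cons,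
          Multiset.prod_cons, norm_mul, ih]
    rw [hn]
    congr 1
    apply Multiset.map_congr rfl
    intro α hα
    rw [gp_X_sub c α hR, max_eq_right]
    by_contra hc
    refine mem_Reg.1 hf α ?_ (GA6_root hα)
    change ‖α - c‖ ≤ R
    rw [norm_sub_rev]
    exact (not_le.1 hc).le
  rw [norm_div, hden, gp_apply, pr_eq hR]
  exact div_le_div_of_nonneg_right (gn_eval_le c hR _) (gn_nonneg c hR _)

end

end Pool.Agent.MP_1c8e06_ag.CY
end

section

/-!
# CY O1: the decomposition of a function on the domain and the maximum modulus principle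

H : HC Om is a finite set of holes D_j = od (c j) (ρ j) in the annulus r0 ≤ ‖α‖ ≤ r1,
H.X = annulus minus holes, H.pt (inl j) = gp (c j) (ρ j), H.pt (inr false) = gp 0 r0,
H.pt (inr true) = gp 0 r1.  H.Dom w: the point w satisfies r0 ≤ w(u) ≤ r1, w(u - c_j) ≥ ρ_j.

`dom_gp0`: w = gp 0 r, r0 ≤ r ≤ r1: w(u) = r, w(u - c_j) = max r ‖c_j‖ ≥ ‖c_j‖ > ρ_j (`gp_X_sub`).
`dom_branch`: w = gp (c j) r, ρ_j ≤ r ≤ ‖c_j‖: w(u) = max r ‖c_j‖ = ‖c_j‖; w(u - c_j) = r ≥ ρ_j; for i ≠ j
w(u - c_i) = max r ‖c_j - c_i‖ ≥ ‖c_i - c_j‖ = max ‖c_i‖ ‖c_j‖ ≥ ‖c_i‖ > ρ_i.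
`dom_pt`: special cases.
`disj`: D_i and D_j are disjoint for i ≠ j (else ‖c_i - c_j‖ < max ρ_i ρ_j < max ‖c_i‖ ‖c_j‖), the elements
of D_j have norm ‖c_j‖, so D_j is disjoint from od 0 r0 and contained in cd 0 r1.
`decomp`: let q1 = Reg-part and q' = Pol-part of q for D = cd 0 r1 (`exists_split`, GA4), q0 = Pol-part
for od 0 r0, qj = Pol-part for D_j.  Norms: `split_norm_open`, `split_norm_closed'` (GA5).  Claim:
e := q' - q0 - ∑ qj = 0: e satisfies IsPol (cd 0 r1) (all D's are contained in cd 0 r1), and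
e ∈ Reg (cd 0 r1): at α in od 0 r0: q - q0 is regular, q1 regular, qj regular (disjoint); at α in D_j the same;
at the other α with ‖α‖ ≤ r1: α ∈ X, q is regular, and q0, qj, q1 are regular.  (e = (q - q1) - q0 - ∑ qj.)
`IsPol.eq_zero`.
`mm`: w(q) ≤ max of the w(parts) and `pol_le`, `reg_le` (GA6) for the parts.
-/

set_option autoImplicit false

open Polynomial
open scoped Classical

namespace Pool.Agent.MP_1c8e06_ag.CY

open Pool.Agent.MP_1c8e06_ag.AJ

noncomputable section

set_option linter.unusedSectionVars false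

variable {Om : Type} [NormedField Om] [IsUltrametricDist Om] [IsAlgClosed Om]

theorem HC.dom_gp0 (H : HC Om) {r : ℝ} (h0 : H.r0 ≤ r) (h1 : r ≤ H.r1) : H.Dom (gp 0 r) := by
  have hr : 0 < r := lt_of_lt_of_le H.r0_pos h0
  refine ⟨?_, ?_, fun j => ?_⟩
  · rw [gp_X hr]; exact h0
  · rw [gp_X hr]; exact h1
  · rw [gp_X_sub 0 (H.c j) hr, zero_sub, norm_neg]
    exact (H.ρ_lt j).le.trans (le_max_right _ _)

theorem HC.dom_branch (H : HC Om) (j : H.J) {r : ℝ} (h0 : H.ρ j ≤ r) (h1 : r ≤ ‖H.c j‖) :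
    H.Dom (gp (H.c j) r) := by
  have hr : 0 < r := lt_of_lt_of_le (H.ρ_pos j) h0
  have hX : (gp (H.c j) r).v RatFunc.X = ‖H.c j‖ := by
    have h := gp_X_sub (H.c j) 0 hr
    rw [map_zero, sub_zero, sub_zero, max_eq_right h1] at h
    exact h
  refine ⟨?_, ?_, fun i => ?_⟩
  · rw [hX]; exact (H.c_gt j).le
  · rw [hX]; exact (H.c_lt j).le
  · rw [gp_X_sub (H.c j) (H.c i) hr]
    by_cases hij : i = j
    · subst hij
      exact h0.trans (le_max_left _ _)
    · have h2 := H.sep i j hij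
      rw [norm_sub_rev, h2]
      exact (H.ρ_lt i).le.trans ((le_max_left _ _).trans (le_max_right _ _))

theorem HC.dom_pt (H : HC Om) (v : H.J ⊕ Bool) : H.Dom (H.pt v) := by
  rcases v with j | b
  · exact H.dom_branch j le_rfl (H.ρ_lt j).le
  · cases b
    · exact H.dom_gp0 le_rfl H.r0_lt.le
    · exact H.dom_gp0 H.r0_lt.le le_rfl

theorem HC.norm_mem (H : HC Om) (j : H.J) {α : Om} (h : α ∈ od (H.c j) (H.ρ j)) :
    ‖α‖ = ‖H.c j‖ := by
  have h1 : ‖α - H.c j‖ < ‖H.c j‖ := lt_of_lt_of_le h (H.ρ_lt j).le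
  have h2 : α = (α - H.c j) + H.c j := by ring
  rw [h2, IsUltrametricDist.norm_add_eq_max_of_norm_ne_norm h1.ne, max_eq_right h1.le]

private theorem o1_norm_sub_le (a b : Om) : ‖a - b‖ ≤ max ‖a‖ ‖b‖ := by
  have h := IsUltrametricDist.norm_add_le_max a (-b)
  rwa [← sub_eq_add_neg, norm_neg] at h

theorem HC.disj (H : HC Om) {i j : H.J} (hij : i ≠ j) {α : Om} (h : α ∈ od (H.c i) (H.ρ i)) :
    α ∉ od (H.c j) (H.ρ j) := by
  intro h'
  have h1 : ‖H.c i - H.c j‖ ≤ max ‖α - H.c j‖ ‖α - H.c i‖ := by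
    have h2 : H.c i - H.c j = (α - H.c j) - (α - H.c i) := by ring
    rw [h2]
    exact o1_norm_sub_le _ _
  rw [H.sep i j hij] at h1
  have ha : ‖α - H.c i‖ < H.ρ i := h
  have hb : ‖α - H.c j‖ < H.ρ j := h'
  have h2 : max ‖α - H.c j‖ ‖α - H.c i‖ < max ‖H.c i‖ ‖H.c j‖ :=
    max_lt ((hb.trans (H.ρ_lt j)).trans_le (le_max_right _ _))
      ((ha.trans (H.ρ_lt i)).trans_le (le_max_left _ _))
  exact absurd h1 (not_le.mpr h2)

private theorem o1_isPol_sum {D : Set Om} {ι : Type} (s : Finset ι) (f : ι → RatFunc Om)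
    (h : ∀ i ∈ s, IsPol D (f i)) : IsPol D (∑ i ∈ s, f i) := by
  classical
  induction s using Finset.induction_on with
  | empty => rw [Finset.sum_empty]; exact isPol_zero D
  | insert a s ha ih =>
    rw [Finset.sum_insert ha]
    exact IsPol.add (h a (Finset.mem_insert_self a s))
      (ih fun i hi => h i (Finset.mem_insert_of_mem hi))

private theorem o1_reg_single {D : Set Om} {f : RatFunc Om} (h : ∀ α ∈ D, f ∈ Reg {α}) :
    f ∈ Reg D := by
  intro α hα
  exact h α hα α rfl

private theorem o1_reg_mono {D : Set Om} {f : RatFunc Om} (h : f ∈ Reg D) {α : Om} (hα : α ∈ D) :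
    f ∈ Reg {α} := by
  intro β hβ
  rw [Set.mem_singleton_iff] at hβ
  subst hβ
  exact h _ hα

private theorem o1_pol_reg {D : Set Om} {f : RatFunc Om} (h : IsPol D f) {α : Om} (hα : α ∉ D) :
    f ∈ Reg {α} := by
  refine IsPol.reg h ?_
  intro β hβ
  rw [Set.mem_singleton_iff] at hβ
  subst hβ
  exact hα

private theorem o1_sum_le (w : Pt Om) {ι : Type} (s : Finset ι) (hs : s.Nonempty)
    (f : ι → RatFunc Om) : ∃ i ∈ s, w.v (∑ j ∈ s, f j) ≤ w.v (f i) := by
  classical
  induction hs using Finset.Nonempty.cons_induction with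
  | singleton a => exact ⟨a, Finset.mem_singleton_self a, by rw [Finset.sum_singleton]⟩
  | cons a s ha hs ih =>
    obtain ⟨i, hi, h⟩ := ih
    rw [Finset.sum_cons]
    rcases le_total (w.v (f a)) (w.v (f i)) with h1 | h1
    · exact ⟨i, Finset.mem_cons.mpr (Or.inr hi), (w.na _ _).trans (max_le h1 h)⟩
    · exact ⟨a, Finset.mem_cons_self a s, (w.na _ _).trans (max_le le_rfl (h.trans h1))⟩

theorem HC.decomp (H : HC Om) {q : RatFunc Om} (hq : q ∈ Reg H.X) :
    ∃ (q0 q1 : RatFunc Om) (qj : H.J → RatFunc Om), IsPol (od 0 H.r0) q0 ∧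
      (∀ j, IsPol (od (H.c j) (H.ρ j)) (qj j)) ∧ q1 ∈ Reg (cd 0 H.r1) ∧
      q = q0 + ∑ j, qj j + q1 ∧
      (gp 0 H.r0).v q0 ≤ (gp 0 H.r0).v q ∧
      (∀ j, (gp (H.c j) (H.ρ j)).v (qj j) ≤ (gp (H.c j) (H.ρ j)).v q) ∧
      (gp 0 H.r1).v q1 ≤ (gp 0 H.r1).v q := by
  obtain ⟨q', q1, hq', hq1, e1⟩ := exists_split (cd (0 : Om) H.r1) q
  obtain ⟨q0, q0r, hq0, hq0r, e0⟩ := exists_split (od (0 : Om) H.r0) q
  choose qj qjr hqj hqjr ej using fun j : H.J => exists_split (od (H.c j) (H.ρ j)) q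
  have hr1 : 0 < H.r1 := H.r0_pos.trans H.r0_lt
  have hout0 : ∀ j, ∀ α ∈ od (0 : Om) H.r0, α ∉ od (H.c j) (H.ρ j) := by
    intro j α hα h
    have h1 := H.norm_mem j h
    have h2 : ‖α - 0‖ < H.r0 := hα
    rw [sub_zero, h1] at h2
    exact absurd (H.c_gt j) (not_lt.mpr h2.le)
  have key : q' - (q0 + ∑ j, qj j) = 0 := by
    refine IsPol.eq_zero (D := cd (0 : Om) H.r1) ?_ ?_
    · rw [sub_eq_add_neg]
      refine IsPol.add hq' (IsPol.neg (IsPol.add ?_ (o1_isPol_sum _ _ fun j _ => ?_)))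
      · refine IsPol.mono hq0 ?_
        intro α hα
        have h2 : ‖α - 0‖ < H.r0 := hα
        exact (h2.trans H.r0_lt).le
      · refine IsPol.mono (hqj j) ?_
        intro α hα
        have h1 := H.norm_mem j hα
        change ‖α - 0‖ ≤ H.r1
        rw [sub_zero, h1]
        exact (H.c_lt j).le
    · refine o1_reg_single fun α hα => ?_
      have hq1α : q1 ∈ Reg {α} := o1_reg_mono hq1 hα
      have e2 : q' = q - q1 := by rw [e1]; ring
      by_cases h0 : α ∈ od (0 : Om) H.r0
      · have hs : ∑ j, qj j ∈ Reg {α} :=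
          Subring.sum_mem _ fun j _ => o1_pol_reg (hqj j) (hout0 j α h0)
        have h3 : q' - (q0 + ∑ j, qj j) = q0r - q1 - ∑ j, qj j := by
          rw [e2]
          have : q - q0 = q0r := by rw [e0]; ring
          rw [← this]; ring
        rw [h3]
        exact Subring.sub_mem _ (Subring.sub_mem _ (o1_reg_mono hq0r h0) hq1α) hs
      · have hq0α : q0 ∈ Reg {α} := o1_pol_reg hq0 h0
        by_cases hi : ∃ i, α ∈ od (H.c i) (H.ρ i)
        · obtain ⟨i, hi⟩ := hi
          have hs : ∑ j ∈ Finset.univ.erase i, qj j ∈ Reg {α} := by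
            refine Subring.sum_mem _ fun j hj => o1_pol_reg (hqj j) ?_
            exact H.disj (Finset.ne_of_mem_erase hj).symm hi
          have h3 : q' - (q0 + ∑ j, qj j) = qjr i - q1 - q0 - ∑ j ∈ Finset.univ.erase i, qj j := by
            rw [e2, ← Finset.add_sum_erase _ _ (Finset.mem_univ i)]
            have : q - qj i = qjr i := by
              have h4 := ej i
              rw [sub_eq_iff_eq_add, add_comm]
              exact h4
            rw [← this]; ring
          rw [h3]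
          exact Subring.sub_mem _ (Subring.sub_mem _ (Subring.sub_mem _
            (o1_reg_mono (hqjr i) hi) hq1α) hq0α) hs
        · have hX : α ∈ H.X := by
            refine ⟨?_, ?_, fun j => ?_⟩
            · by_contra h
              refine h0 ?_
              change ‖α - 0‖ < H.r0
              rw [sub_zero]
              exact not_le.mp h
            · have h2 : ‖α - 0‖ ≤ H.r1 := hα
              rwa [sub_zero] at h2
            · by_contra h
              exact hi ⟨j, not_le.mp h⟩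
          have hs : ∑ j, qj j ∈ Reg {α} :=
            Subring.sum_mem _ fun j _ => o1_pol_reg (hqj j) fun h => hi ⟨j, h⟩
          rw [e2]
          exact Subring.sub_mem _ (Subring.sub_mem _ (o1_reg_mono hq hX) hq1α)
            (Subring.add_mem _ hq0α hs)
  refine ⟨q0, q1, qj, hq0, hqj, hq1, ?_, ?_, fun j => ?_, ?_⟩
  · rw [← sub_eq_zero.mp key]
    exact e1
  · have h := split_norm_open H.r0_pos hq0 hq0r
    rwa [← e0] at h
  · have h := split_norm_open (H.ρ_pos j) (hqj j) (hqjr j)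
    rwa [← ej j] at h
  · have h := split_norm_closed' hr1 hq' hq1
    rwa [← e1] at h

/-- Maximum modulus principle. -/
theorem HC.mm (H : HC Om) {q : RatFunc Om} (hq : q ∈ Reg H.X) (w : Pt Om) (hw : H.Dom w) :
    ∃ v, w.v q ≤ (H.pt v).v q := by
  obtain ⟨q0, q1, qj, h0, hj, h1, e, n0, nj, n1⟩ := H.decomp hq
  have hr1 : 0 < H.r1 := H.r0_pos.trans H.r0_lt
  let part : H.J ⊕ Bool → RatFunc Om := fun v => match v with
    | Sum.inl j => qj j
    | Sum.inr false => q0
    | Sum.inr true => q1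
  have hsum : q = ∑ v, part v := by
    rw [Fintype.sum_sum_type, Fintype.sum_bool]
    change q = ∑ j, qj j + (q1 + q0)
    rw [e]; ring
  obtain ⟨v, -, hv⟩ := o1_sum_le w Finset.univ ⟨Sum.inr false, Finset.mem_univ _⟩ part
  rw [← hsum] at hv
  have hX : w.v (RatFunc.X - RatFunc.C (0 : Om)) = w.v RatFunc.X := by
    rw [map_zero, sub_zero]
  refine ⟨v, hv.trans ?_⟩
  rcases v with j | b
  · exact (pol_le (H.ρ_pos j) (hj j) w (hw.2.2 j)).trans (nj j)
  · cases b
    · exact (pol_le H.r0_pos h0 w (by rw [hX]; exact hw.1)).trans n0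
    · exact (reg_le hr1 h1 w (by rw [hX]; exact hw.2.1)).trans n1

end

end Pool.Agent.MP_1c8e06_ag.CY
end
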