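import Pool.Agent.Lib.MP_1c8e06_ag.Mg.G011
import Pool.Agent.Lib.MP_1c8e06_ag.Mg.G010
import Pool.Agent.Lib.MP_1c8e06_ag.Mg.G049
import Pool.Agent.Lib.MP_1c8e06_ag.CY.G4
import Pool.Agent.Lib.MP_1c8e06_ag.Mg.G009

section

/-!
# CY O6: final lemma: a function which extends to all holes is a Laurent polynomial

THEOREM.  z : H.OO with H.cmp (inl j) z ∈ H.T j (closure of the rational functions regular on the hole) for
all j.  Then z = H.lam q for a Laurent polynomial q.

PROOF.  (0) Multiply z by H.lam (T^n): e0 z has no terms below 0, e1 z none below -m.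
(1) choose q ∈ Reg H.X close to z at all boundary points and its decomposition q = q0 + ∑ qj + q1.
(2) the parts qj, q0 are small at their own boundary points (`split_norm_open`), hence everywhere
(`pol_le`); so q1 is close to z at all boundary points.
(3) at infinity z is close to jF l = P + (polar part at 0), deg P ≤ m; by `split_norm_closed'` the
function q1 - P is small at gp 0 r1, hence everywhere (`reg_le`).
(4) so z is a limit of polynomials of degree ≤ m; their coefficients converge.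
-/

set_option autoImplicit false

open Polynomial
open scoped Classical

namespace Pool.Agent.MP_1c8e06_ag.CY

open Pool.Agent.MP_1c8e06_ag.AJ

noncomputable section

set_option linter.unusedSectionVars false

section
variable {K : Type} [Field K]

private theorem O6_lz_T (n : ℤ) : lz K (LaurentPolynomial.T n) = HahnSeries.single n 1 := by
  have key : ∀ n : ℕ, (HahnSeries.single (1 : ℤ) (1 : K)) ^ n = HahnSeries.single (n : ℤ) 1 := by
    intro n
    induction n with
    | zero => rfl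
    | succ n ih =>
      rw [pow_succ, ih, HahnSeries.single_mul_single, one_mul]
      push_cast
      rfl
  have key' : ∀ n : ℕ, (HahnSeries.single (-1 : ℤ) (1 : K)) ^ n = HahnSeries.single (-(n : ℤ)) 1 := by
    intro n
    induction n with
    | zero => rfl
    | succ n ih =>
      have h1 : -(n : ℤ) + -1 = -((n + 1 : ℕ) : ℤ) := by
        push_cast
        ring
      rw [pow_succ, ih, HahnSeries.single_mul_single, one_mul, h1]
  rw [lz, LaurentPolynomial.eval₂_T]
  obtain ⟨m, rfl | rfl⟩ := n.eq_nat_or_neg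
  · rw [zpow_natCast, Units.val_pow_eq_pow_val]
    exact key m
  · rw [zpow_neg, zpow_natCast, ← inv_pow, Units.val_pow_eq_pow_val]
    exact key' m

private theorem O6_lzi_T (n : ℤ) : lzi K (LaurentPolynomial.T n) = HahnSeries.single (-n) 1 := by
  have h := O6_lz_T (K := K) (-n)
  rw [lz, LaurentPolynomial.eval₂_T] at h
  rw [lzi, LaurentPolynomial.eval₂_T, inv_zpow, ← zpow_neg]
  exact h

private theorem O6_lz_C (a : K) : lz K (LaurentPolynomial.C a) = HahnSeries.C a := by
  rw [lz, LaurentPolynomial.eval₂_C]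

private theorem O6_lzi_C (a : K) : lzi K (LaurentPolynomial.C a) = HahnSeries.C a := by
  rw [lzi, LaurentPolynomial.eval₂_C]

private theorem O6_lz_coeff (P : K[X]) (k : ℕ) :
    (lz K (Polynomial.toLaurent P)).coeff (k : ℤ) = P.coeff k := by
  induction P using Polynomial.induction_on' with
  | add p q hp hq => rw [map_add, map_add, HahnSeries.coeff_add, hp, hq, coeff_add]
  | monomial n a =>
    rw [Polynomial.toLaurent_C_mul_T, map_mul, O6_lz_C, O6_lz_T, HahnSeries.C_mul_eq_smul,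
      HahnSeries.coeff_smul, HahnSeries.coeff_single, coeff_monomial]
    by_cases h : n = k
    · subst h
      simp
    · have h1 : (k : ℤ) ≠ n := fun h2 => h (by exact_mod_cast h2.symm)
      rw [if_neg h1, if_neg h, smul_zero]

private theorem O6_lzi_coeff (P : K[X]) (k : ℕ) :
    (lzi K (Polynomial.toLaurent P)).coeff (-(k : ℤ)) = P.coeff k := by
  induction P using Polynomial.induction_on' with
  | add p q hp hq => rw [map_add, map_add, HahnSeries.coeff_add, hp, hq, coeff_add]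
  | monomial n a =>
    rw [Polynomial.toLaurent_C_mul_T, map_mul, O6_lzi_C, O6_lzi_T, HahnSeries.C_mul_eq_smul,
      HahnSeries.coeff_smul, HahnSeries.coeff_single, coeff_monomial]
    by_cases h : n = k
    · subst h
      simp
    · have h1 : (-(k : ℤ)) ≠ -(n : ℤ) := fun h2 => h (by omega)
      rw [if_neg h1, if_neg h, smul_zero]

private theorem O6_jF (P : K[X]) :
    jF K (Polynomial.toLaurent P) = algebraMap K[X] (RatFunc K) P := by
  have h : (jF K).comp (Polynomial.toLaurent : K[X] →+* Lam K) = algebraMap K[X] (RatFunc K) := by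
    refine Polynomial.ringHom_ext ?_ ?_
    · intro a
      rw [RingHom.comp_apply, Polynomial.toLaurent_C, jF, LaurentPolynomial.eval₂_C,
        RatFunc.algebraMap_C]
    · rw [RingHom.comp_apply, Polynomial.toLaurent_X, jF, LaurentPolynomial.eval₂_T, zpow_one,
        RatFunc.algebraMap_X]
      rfl
  exact congrArg (fun f : K[X] →+* RatFunc K => f P) h

private theorem O6_jF_T (n : ℕ) : jF K (LaurentPolynomial.T n) = RatFunc.X ^ n := by
  rw [jF, LaurentPolynomial.eval₂_T, zpow_natCast, Units.val_pow_eq_pow_val]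
  rfl

/-- A Laurent polynomial as a quotient. -/
private theorem O6_quot (l : Lam K) : ∃ (N : ℕ) (f : K[X]),
    Polynomial.toLaurent f = l * LaurentPolynomial.T N ∧
    jF K l = algebraMap K[X] (RatFunc K) f / algebraMap K[X] (RatFunc K) (X ^ N) := by
  obtain ⟨N, f, hf⟩ := LaurentPolynomial.exists_T_pow l
  refine ⟨N, f, hf, ?_⟩
  have h1 := congrArg (jF K) hf
  rw [O6_jF, map_mul, O6_jF_T] at h1
  rw [map_pow, RatFunc.algebraMap_X, h1, mul_div_assoc, div_self (pow_ne_zero _ RatFunc.X_ne_zero),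
    mul_one]

/-- No terms below `0`: a polynomial. -/
private theorem O6_poly (l : Lam K) (h : ∀ n : ℤ, n < 0 → (lz K l).coeff n = 0) :
    ∃ P : K[X], jF K l = algebraMap K[X] (RatFunc K) P := by
  obtain ⟨N, f, hf, hq⟩ := O6_quot l
  have h1 : X ^ N ∣ f := by
    rw [Polynomial.X_pow_dvd_iff]
    intro d hd
    rw [← O6_lz_coeff, hf, map_mul, O6_lz_T]
    have h2 : ((d : ℤ)) = ((d : ℤ) - N) + N := by ring
    rw [h2, HahnSeries.coeff_mul_single_add, h _ (by omega), zero_mul]
  obtain ⟨P, rfl⟩ := h1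
  refine ⟨P, ?_⟩
  have h3 : algebraMap K[X] (RatFunc K) (X ^ N) ≠ 0 := by
    rw [map_pow, RatFunc.algebraMap_X]
    exact pow_ne_zero _ RatFunc.X_ne_zero
  rw [hq, map_mul, mul_comm, mul_div_assoc, div_self h3, mul_one]

end

variable {Om : Type} [NormedField Om] [CompleteSpace Om] [IsUltrametricDist Om] [IsAlgClosed Om]

/-- No terms of degree above `m`: a polynomial of degree `≤ m` and a polar part at `0`. -/
private theorem O6_split (l : Lam Om) (m : ℕ) (h : ∀ n : ℤ, n < -(m : ℤ) → (lzi Om l).coeff n = 0)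
    {r : ℝ} (hr : 0 < r) :
    ∃ (P : Om[X]) (s : RatFunc Om), P.natDegree ≤ m ∧ IsPol (cd 0 r) s ∧
      jF Om l = algebraMap Om[X] (RatFunc Om) P + s := by
  obtain ⟨N, f, hf, hq⟩ := O6_quot l
  have hdeg : f.natDegree ≤ m + N := by
    rw [Polynomial.natDegree_le_iff_coeff_eq_zero]
    intro k hk
    rw [← O6_lzi_coeff, hf, map_mul, O6_lzi_T]
    have h2 : (-(k : ℤ)) = (-(k : ℤ) + N) + (-N) := by ring
    rw [h2, HahnSeries.coeff_mul_single_add, h _ (by omega), zero_mul]
  have hm : (X ^ N : Om[X]).Monic := monic_X_pow N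
  have hX : (X ^ N : Om[X]) ≠ 0 := hm.ne_zero
  have hX' : algebraMap Om[X] (RatFunc Om) (X ^ N) ≠ 0 := by
    rw [Ne, map_eq_zero_iff _ (RatFunc.algebraMap_injective Om)]
    exact hX
  have hmod := modByMonic_add_div f (X ^ N : Om[X])
  refine ⟨f /ₘ (X ^ N), algebraMap Om[X] (RatFunc Om) (f %ₘ (X ^ N)) /
    algebraMap Om[X] (RatFunc Om) (X ^ N), ?_, ?_, ?_⟩
  · rw [natDegree_divByMonic _ hm, natDegree_X_pow]
    omega
  · refine isPol_div hX ?_ ?_
    · intro α hα h1
      rw [eval_pow, eval_X] at h1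
      have h2 : α = 0 := (pow_eq_zero_iff (M₀ := Om) (by
        rintro rfl
        rw [pow_zero] at h1
        exact one_ne_zero h1)).1 h1
      apply hα
      rw [h2]
      change ‖(0 : Om) - 0‖ ≤ r
      rw [sub_zero, norm_zero]
      exact hr.le
    · by_cases h0 : f %ₘ (X ^ N) = 0
      · exact Or.inl h0
      · right
        have h1 := degree_modByMonic_lt f hm
        rw [degree_eq_natDegree h0, degree_eq_natDegree hX] at h1
        exact_mod_cast h1
  · rw [hq]
    conv_lhs => rw [← hmod]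
    rw [map_add, map_mul, add_div, mul_comm, mul_div_assoc, div_self hX', mul_one, add_comm]

private theorem O6_nsub {w : Pt Om} (a b : w.E) : ‖a - b‖ ≤ max ‖a‖ ‖b‖ := by
  rw [sub_eq_add_neg, ← norm_neg b]
  exact IsUltrametricDist.norm_add_le_max _ _

/-- The approximation by polynomials of degree `≤ m`. -/
private theorem O6_approx (H : HC Om) (z : H.OO) (hz : ∀ j, H.cmp (Sum.inl j) z ∈ H.T j) (m : ℕ)
    (ha : ∀ n : ℤ, n < 0 → (H.e0 z).coeff n = 0)
    (hb : ∀ n : ℤ, n < -(m : ℤ) → (H.e1 z).coeff n = 0) {et : ℝ} (het : 0 < et) :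
    ∃ P : Om[X], P.natDegree ≤ m ∧
      ∀ v, ‖H.cmp v z - (H.pt v).ι (algebraMap Om[X] (RatFunc Om) P)‖ < et := by
  have hr1 : 0 < H.r1 := H.r0_pos.trans H.r0_lt
  have near : ∀ (v) (y : (H.pt v).E) (f g : RatFunc Om), ‖y - (H.pt v).ι f‖ < et →
      ‖y - (H.pt v).ι g‖ < et → (H.pt v).v (f - g) < et := by
    intro v y f g h1 h2
    rw [← Pt.norm_ι, map_sub]
    have h3 : (H.pt v).ι f - (H.pt v).ι g = (y - (H.pt v).ι g) - (y - (H.pt v).ι f) := by ring
    rw [h3]
    refine lt_of_le_of_lt (O6_nsub _ _) (max_lt h2 h1)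
  have near' : ∀ (v) (y : (H.pt v).E) (f g : RatFunc Om), ‖y - (H.pt v).ι f‖ < et →
      (H.pt v).v (f - g) < et → ‖y - (H.pt v).ι g‖ < et := by
    intro v y f g h1 h2
    rw [← Pt.norm_ι, map_sub] at h2
    have h3 : y - (H.pt v).ι g = (y - (H.pt v).ι f) + ((H.pt v).ι f - (H.pt v).ι g) := by ring
    rw [h3]
    exact lt_of_le_of_lt (IsUltrametricDist.norm_add_le_max _ _) (max_lt h1 h2)
  have vadd : ∀ (w : Pt Om) (f g : RatFunc Om), w.v f < et → w.v g < et → w.v (f + g) < et :=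
    fun w f g h1 h2 => lt_of_le_of_lt (w.na f g) (max_lt h1 h2)
  have vsum : ∀ (w : Pt Om) (s : Finset H.J) (f : H.J → RatFunc Om), (∀ j ∈ s, w.v (f j) < et) →
      w.v (∑ j ∈ s, f j) < et := by
    intro w s f
    induction s using Finset.induction_on with
    | empty =>
      intro _
      rw [Finset.sum_empty, map_zero]
      exact het
    | insert j s hj ih =>
      intro h
      rw [Finset.sum_insert hj]
      exact vadd w _ _ (h j (Finset.mem_insert_self _ _))
        (ih fun i hi => h i (Finset.mem_insert_of_mem hi))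
  -- (1)
  obtain ⟨q, hq, hqz⟩ := H.approx z het
  obtain ⟨q0, q1, qj, h0, hj, h1, hsum, -, -, -⟩ := H.decomp hq
  -- the parts are small
  have regj : ∀ j, q0 + ∑ i ∈ Finset.univ.erase j, qj i + q1 ∈ Reg (H.D j) := by
    intro j
    refine (Reg (H.D j)).add_mem ((Reg (H.D j)).add_mem ?_ ?_) ?_
    · refine h0.reg fun α hα h2 => ?_
      have h3 := H.norm_mem j hα
      change ‖α - 0‖ < H.r0 at h2
      rw [sub_zero, h3] at h2
      exact lt_asymm h2 (H.c_gt j)
    · refine (Reg (H.D j)).sum_mem fun i hi => ?_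
      exact (hj i).reg fun α hα => H.disj (Ne.symm (Finset.ne_of_mem_erase hi)) hα
    · intro α hα
      refine h1 α ?_
      change ‖α - 0‖ ≤ H.r1
      rw [sub_zero, H.norm_mem j hα]
      exact (H.c_lt j).le
  have smj : ∀ j, (gp (H.c j) (H.ρ j)).v (qj j) < et := by
    intro j
    have h2 := hz j
    unfold HC.T at h2
    rw [mem_TT] at h2
    obtain ⟨g, hg, hgz⟩ := h2 et het
    have h3 : (H.pt (Sum.inl j)).v (q - g) < et := near (Sum.inl j) _ _ _ (hqz _) hgz
    have h4 : q - g = qj j + (q0 + ∑ i ∈ Finset.univ.erase j, qj i + q1 - g) := by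
      rw [hsum, ← Finset.add_sum_erase _ _ (Finset.mem_univ j)]
      ring
    rw [h4] at h3
    exact lt_of_le_of_lt (split_norm_open (H.ρ_pos j) (hj j)
      ((Reg (H.D j)).sub_mem (regj j) hg)) h3
  have sm0 : (gp 0 H.r0).v q0 < et := by
    obtain ⟨l, hl, -, hl0⟩ := (H.cr0 z).tr (cre_lz H.r0_pos) 0 ha (half_pos het)
    obtain ⟨P, hP⟩ := O6_poly l hl0
    have hl' : ‖H.cmp (Sum.inr false) z - (H.pt (Sum.inr false)).ι (jF Om l)‖ < et :=
      lt_of_le_of_lt hl (half_lt_self het)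
    have h3 : (H.pt (Sum.inr false)).v (q - jF Om l) < et := near (Sum.inr false) _ _ _ (hqz _) hl'
    have h4 : q - jF Om l = q0 + (∑ i, qj i + q1 - jF Om l) := by
      rw [hsum]
      ring
    rw [h4] at h3
    refine lt_of_le_of_lt (split_norm_open H.r0_pos h0 ?_) h3
    refine (Reg _).sub_mem ((Reg _).add_mem ((Reg _).sum_mem fun i _ => ?_) ?_) ?_
    · refine (hj i).reg fun α hα h2 => ?_
      have h5 := H.norm_mem i h2
      change ‖α - 0‖ < H.r0 at hα
      rw [sub_zero, h5] at hα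
      exact lt_asymm hα (H.c_gt i)
    · intro α hα
      refine h1 α ?_
      change ‖α - 0‖ < H.r0 at hα
      exact (hα.trans H.r0_lt).le
    · rw [hP]
      have h5 := reg_div (D := od (0 : Om) H.r0) (P := P) (Q := 1) one_ne_zero
        (fun α _ => by rw [eval_one]; exact one_ne_zero)
      rwa [map_one, div_one] at h5
  -- (4): q1 is close to z
  have hq1 : ∀ v, ‖H.cmp v z - (H.pt v).ι q1‖ < et := by
    intro v
    refine near' v _ _ _ (hqz v) ?_
    have h4 : q - q1 = q0 + ∑ i, qj i := by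
      rw [hsum]
      ring
    rw [h4]
    obtain ⟨d0, -, d2⟩ := H.dom_pt v
    refine vadd _ _ _ ?_ (vsum _ _ _ fun j _ => ?_)
    · refine lt_of_le_of_lt (pol_le H.r0_pos h0 _ ?_) sm0
      rw [map_zero, sub_zero]
      exact d0
    · exact lt_of_le_of_lt (pol_le (H.ρ_pos j) (hj j) _ (d2 j)) (smj j)
  -- infinity
  obtain ⟨l, hl, -, hl0⟩ := (H.cr1 z).tr (cre_lzi hr1) (-(m : ℤ)) hb (half_pos het)
  obtain ⟨P, s, hPm, hs, hPs⟩ := O6_split l m hl0 hr1
  have hl' : ‖H.cmp (Sum.inr true) z - (H.pt (Sum.inr true)).ι (jF Om l)‖ < et :=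
    lt_of_le_of_lt hl (half_lt_self het)
  have h3 : (H.pt (Sum.inr true)).v (q1 - jF Om l) < et := near (Sum.inr true) _ _ _ (hq1 _) hl'
  have hPreg : algebraMap Om[X] (RatFunc Om) P ∈ Reg (cd 0 H.r1) := by
    have h5 := reg_div (D := cd (0 : Om) H.r1) (P := P) (Q := 1) one_ne_zero
      (fun α _ => by rw [eval_one]; exact one_ne_zero)
    rwa [map_one, div_one] at h5
  have hreg : q1 - algebraMap Om[X] (RatFunc Om) P ∈ Reg (cd 0 H.r1) := (Reg _).sub_mem h1 hPreg
  have h4 : (gp 0 H.r1).v (q1 - algebraMap Om[X] (RatFunc Om) P) < et := by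
    have h5 : q1 - jF Om l = -s + (q1 - algebraMap Om[X] (RatFunc Om) P) := by
      rw [hPs]
      ring
    rw [h5] at h3
    exact lt_of_le_of_lt (split_norm_closed' hr1 hs.neg hreg) h3
  refine ⟨P, hPm, fun v => near' v _ _ _ (hq1 v) ?_⟩
  obtain ⟨-, d1, -⟩ := H.dom_pt v
  refine lt_of_le_of_lt (reg_le hr1 hreg _ ?_) h4
  rw [map_zero, sub_zero]
  exact d1

/-- The limit of the polynomials. -/
private theorem O6_core (H : HC Om) (z : H.OO) (hz : ∀ j, H.cmp (Sum.inl j) z ∈ H.T j) (m : ℕ)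
    (ha : ∀ n : ℤ, n < 0 → (H.e0 z).coeff n = 0)
    (hb : ∀ n : ℤ, n < -(m : ℤ) → (H.e1 z).coeff n = 0) : ∃ q : Lam Om, z = H.lam q := by
  have hr1 : 0 < H.r1 := H.r0_pos.trans H.r0_lt
  choose P hPm hP using fun k : ℕ => O6_approx H z hz m ha hb
    (et := 1 / ((k : ℝ) + 1)) (by positivity)
  -- differences
  have hd : ∀ (v) (k l : ℕ), (H.pt v).v (algebraMap Om[X] (RatFunc Om) (P k - P l)) ≤
      max (1 / ((k : ℝ) + 1)) (1 / ((l : ℝ) + 1)) := by
    intro v k l
    rw [← Pt.norm_ι, map_sub, map_sub]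
    have h3 : (H.pt v).ι (algebraMap Om[X] (RatFunc Om) (P k)) -
        (H.pt v).ι (algebraMap Om[X] (RatFunc Om) (P l)) =
        (H.cmp v z - (H.pt v).ι (algebraMap Om[X] (RatFunc Om) (P l))) -
        (H.cmp v z - (H.pt v).ι (algebraMap Om[X] (RatFunc Om) (P k))) := by ring
    rw [h3, max_comm]
    exact (O6_nsub _ _).trans (max_le_max (hP l v).le (hP k v).le)
  have hco : ∀ (i k l : ℕ), ‖(P k).coeff i - (P l).coeff i‖ * H.r1 ^ i ≤
      max (1 / ((k : ℝ) + 1)) (1 / ((l : ℝ) + 1)) := by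
    intro i k l
    have h1 := gn_coeff_le (0 : Om) hr1 (P k - P l) i
    rw [← gp_poly (0 : Om) hr1, map_zero, add_zero, comp_X, coeff_sub] at h1
    exact h1.trans (hd (Sum.inr true) k l)
  have hcau : ∀ i, CauchySeq fun k => (P k).coeff i := by
    intro i
    rw [Metric.cauchySeq_iff']
    intro e he
    have hri : 0 < H.r1 ^ i := pow_pos hr1 i
    obtain ⟨N, hN⟩ := exists_nat_one_div_lt (mul_pos he hri)
    refine ⟨N, fun k hk => ?_⟩
    rw [dist_eq_norm]
    have h1 := hco i k N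
    have h2 : (1 : ℝ) / ((k : ℝ) + 1) ≤ 1 / ((N : ℝ) + 1) := by
      apply one_div_le_one_div_of_le (by positivity)
      have : (N : ℝ) ≤ k := by exact_mod_cast hk
      linarith
    rw [max_eq_right h2] at h1
    exact lt_of_mul_lt_mul_right (lt_of_le_of_lt h1 hN) hri.le
  choose c hc using fun i => cauchySeq_tendsto_of_complete (hcau i)
  -- the limit
  let Q : Om[X] := ∑ i ∈ Finset.range (m + 1), C (c i) * X ^ i
  have hQc : ∀ i, Q.coeff i = if i ∈ Finset.range (m + 1) then c i else 0 := by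
    intro i
    simp only [Q, finsetSum_coeff, coeff_C_mul, coeff_X_pow, mul_ite, mul_one, mul_zero]
    rw [Finset.sum_ite_eq]
  have hlim : ∀ (i k : ℕ), ‖(P k).coeff i - Q.coeff i‖ * H.r1 ^ i ≤ 1 / ((k : ℝ) + 1) := by
    intro i k
    rw [hQc]
    split_ifs with hi
    · have h1 : Filter.Tendsto (fun l => ‖(P k).coeff i - (P l).coeff i‖ * H.r1 ^ i) Filter.atTop
          (nhds (‖(P k).coeff i - c i‖ * H.r1 ^ i)) :=
        ((tendsto_const_nhds.sub (hc i)).norm).mul_const _
      refine le_of_tendsto h1 ?_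
      filter_upwards [Filter.eventually_ge_atTop k] with l hl
      have h2 : (1 : ℝ) / ((l : ℝ) + 1) ≤ 1 / ((k : ℝ) + 1) := by
        apply one_div_le_one_div_of_le (by positivity)
        have : (k : ℝ) ≤ l := by exact_mod_cast hl
        linarith
      have h3 := hco i k l
      rwa [max_eq_left h2] at h3
    · have h1 : (P k).coeff i = 0 := by
        apply coeff_eq_zero_of_natDegree_lt
        rw [Finset.mem_range] at hi
        exact lt_of_le_of_lt (hPm k) (by omega)
      rw [h1, sub_zero, norm_zero, zero_mul]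
      positivity
  have hv : ∀ (v) (k : ℕ), (H.pt v).v (algebraMap Om[X] (RatFunc Om) (P k - Q)) ≤
      1 / ((k : ℝ) + 1) := by
    intro v k
    refine Pt.poly_le _ (0 : Om) _ (by positivity) fun i => ?_
    rw [map_zero, add_zero, comp_X, coeff_sub]
    refine le_trans (mul_le_mul_of_nonneg_left ?_ (norm_nonneg _)) (hlim i k)
    obtain ⟨-, d1, -⟩ := H.dom_pt v
    rw [map_zero, sub_zero]
    exact pow_le_pow_left₀ ((H.pt v).v.nonneg _) d1 i
  refine ⟨Polynomial.toLaurent Q, ?_⟩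
  rw [← sub_eq_zero]
  refine H.ext0 fun v => ?_
  rw [map_sub, H.cmp_lam]
  change H.cmp v z - (H.pt v).ι (jF Om (Polynomial.toLaurent Q)) = 0
  rw [O6_jF, ← norm_le_zero_iff]
  refine le_of_forall_pos_le_add fun e he => ?_
  rw [zero_add]
  obtain ⟨k, hk⟩ := exists_nat_one_div_lt he
  have h3 : H.cmp v z - (H.pt v).ι (algebraMap Om[X] (RatFunc Om) Q) =
      (H.cmp v z - (H.pt v).ι (algebraMap Om[X] (RatFunc Om) (P k))) +
      (H.pt v).ι (algebraMap Om[X] (RatFunc Om) (P k - Q)) := by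
    rw [map_sub, map_sub]
    ring
  rw [h3]
  refine (IsUltrametricDist.norm_add_le_max _ _).trans (max_le ((hP k v).le.trans hk.le) ?_)
  rw [Pt.norm_ι]
  exact (hv v k).trans hk.le

private theorem O6_bdd (a : LaurentSeries Om) : ∃ n : ℕ, ∀ k : ℤ, k < -(n : ℤ) → a.coeff k = 0 := by
  refine ⟨a.order.natAbs, fun k hk => ?_⟩
  apply HahnSeries.coeff_eq_zero_of_lt_order
  omega

/-- Laurent polynomials are regular on the holes. -/
theorem HC.lam_mem_T (H : HC Om) (j : H.J) (q : Lam Om) :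
    H.cmp (Sum.inl j) (H.lam q) ∈ H.T j := by
  unfold HC.T
  rw [mem_TT]
  intro et het
  refine ⟨jF Om q, ?_, ?_⟩
  · have h := jF_reg (Om := Om) q
    intro α hα
    refine h α ?_
    have h1 := H.norm_mem j hα
    intro h2
    rw [h2, norm_zero] at h1
    exact absurd (H.c_gt j) (by rw [← h1]; exact not_lt.2 H.r0_pos.le)
  · rw [H.cmp_lam]
    change ‖(H.pt (Sum.inl j)).ι (jF Om q) - (H.pt (Sum.inl j)).ι (jF Om q)‖ < et
    rw [sub_self, norm_zero]
    exact het

theorem HC.final (H : HC Om) (z : H.OO) (hz : ∀ j, H.cmp (Sum.inl j) z ∈ H.T j) :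
    ∃ q : Lam Om, z = H.lam q := by
  obtain ⟨n0, h0⟩ := O6_bdd (H.e0 z)
  obtain ⟨n1, h1⟩ := O6_bdd (H.e1 z)
  obtain ⟨q, hq⟩ := O6_core H (z * H.lam (LaurentPolynomial.T n0)) (fun j => by
    rw [map_mul]
    exact (H.T j).mul_mem (hz j) (H.lam_mem_T j _)) (n0 + n1) (fun n hn => by
      rw [map_mul, H.e0_lam, O6_lz_T]
      have h2 : n = (n - n0) + n0 := by ring
      rw [h2, HahnSeries.coeff_mul_single_add, h0 _ (by omega), zero_mul]) (fun n hn => by
      rw [map_mul, H.e1_lam, O6_lzi_T]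
      have h2 : n = (n + n0) + (-n0) := by ring
      rw [h2, HahnSeries.coeff_mul_single_add, h1 _ (by push_cast at hn; omega), zero_mul])
  refine ⟨q * LaurentPolynomial.T (-n0), ?_⟩
  rw [map_mul, ← hq, mul_assoc, ← map_mul, ← LaurentPolynomial.T_add, add_neg_cancel,
    LaurentPolynomial.T_zero, map_one, mul_one]

end

end Pool.Agent.MP_1c8e06_ag.CY
end

section

/-!
# CY G2: the modified structure constants are Laurent polynomials

PROOF.  Let k2 := S'.ks.chb V V'.  Every entry z of k2 satisfies H.cmp (inl j) z ∈ H.T j for all j: write cmp for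
H.cmp (inl j), Vj = V.map cmp, Vj' = V'.map cmp, Mj = Vj * Θ j (entries in H.T j), W its inverse (entries in H.T j).  Θ j is
invertible: Θ j * (W Vj) = 1 (Mj W = 1 means Vj (Θ j W) = 1, so Θ j W = Vj', Θ j (W Vj) = Vj' Vj = 1; square matrices).
By `chb_of_iso` (G1) for Ph j: (S'.map cmp).ks = (S.map H.lam).map cmp .ks.chb (Θ j) (Θ j)⁻¹ .  So k2.map cmp =
((S'.map cmp).ks).chb Vj Vj' = k_S.chb (Vj Θ j) ((Θ j)⁻¹ Vj') = k_S.chb Mj W (`Ks.chb_map` (AJ/A3), `Ks.chb_chb` (G0)), and
(Θ j)⁻¹ Vj' = W.  The entries of k_S (constants of S in Lam, mapped) are in H.T j (`HC.lam_mem_T`, O6), those of Mj, W too, and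
H.T j is a subring.  So `HC.final` (O6): every entry of k2 is H.lam of a Laurent polynomial; choose: k2 = k.map H.lam.
S' with the new basis is an SC over OO (`exists_SC_chb`), `exists_descend` with φ = H.lam (injective: `HC.lam_inj`, O4).
-/

set_option autoImplicit false

open Polynomial
open scoped Classical

namespace Pool.Agent.MP_1c8e06_ag.CY

open Pool.Agent.MP_1c8e06_ag.AJ

noncomputable section

set_option linter.unusedSectionVars false

/-- All constants lie in the subring `A`. -/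
private structure InK {B : Type} [CommRing B] {G : Type} (A : Subring B) (k : Ks B G) : Prop where
  c1 : ∀ i j l, k.μ i j l ∈ A
  c2 : ∀ h l m, k.α h l m ∈ A
  c3 : ∀ l, k.ν l ∈ A
  c4 : ∀ i j, k.T i j ∈ A
  c5 : ∀ i j, k.T' i j ∈ A

private theorem InK.chb {B : Type} [CommRing B] {G : Type} [Fintype G] {A : Subring B}
    {k : Ks B G} (hk : InK A k) {g gi : Matrix G G B} (hg : ∀ l m, g l m ∈ A)
    (hgi : ∀ l m, gi l m ∈ A) : InK A (k.chb g gi) where
  c1 i j l := A.sum_mem fun a _ => A.sum_mem fun b _ => A.sum_mem fun c _ =>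
    A.mul_mem (A.mul_mem (A.mul_mem (hg _ _) (hg _ _)) (hk.c1 _ _ _)) (hgi _ _)
  c2 h l m := A.sum_mem fun a _ => A.sum_mem fun c _ =>
    A.mul_mem (A.mul_mem (hg _ _) (hk.c2 _ _ _)) (hgi _ _)
  c3 l := A.sum_mem fun a _ => A.mul_mem (hk.c3 _) (hgi _ _)
  c4 i j := A.sum_mem fun a _ => A.sum_mem fun b _ =>
    A.mul_mem (A.mul_mem (hg _ _) (hg _ _)) (hk.c4 _ _)
  c5 i j := A.sum_mem fun a _ => A.sum_mem fun b _ =>
    A.mul_mem (A.mul_mem (hgi _ _) (hk.c5 _ _)) (hgi _ _)

private theorem exists_lift {B B' G : Type} (φ : B' → B) (k : Ks B G)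
    (h1 : ∀ i j l, ∃ q, k.μ i j l = φ q) (h2 : ∀ i j l, ∃ q, k.α i j l = φ q)
    (h3 : ∀ l, ∃ q, k.ν l = φ q) (h4 : ∀ i j, ∃ q, k.T i j = φ q)
    (h5 : ∀ i j, ∃ q, k.T' i j = φ q) : ∃ k' : Ks B' G, k = k'.map φ := by
  obtain ⟨μ, α, ν, T, T'⟩ := k
  choose f1 e1 using h1
  choose f2 e2 using h2
  choose f3 e3 using h3
  choose f4 e4 using h4
  choose f5 e5 using h5
  refine ⟨⟨f1, f2, f3, f4, f5⟩, ?_⟩
  simp only [Ks.map, Ks.mk.injEq]
  exact ⟨funext fun i => funext fun j => funext fun l => e1 i j l,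
    funext fun i => funext fun j => funext fun l => e2 i j l, funext fun l => e3 l,
    funext fun i => funext fun j => e4 i j, funext fun i => funext fun j => e5 i j⟩

variable {Om : Type} [NormedField Om] [CompleteSpace Om] [IsUltrametricDist Om] [IsAlgClosed Om]
  {p : ℕ} [Fact p.Prime] [CharP Om p] {G : Type} [Group G] [Fintype G] {x : G} {t : Om}

theorem exists_descent (H : HC Om) (S : SC (Lam Om) G) (S' : SC H.OO G) (V V' : Matrix G G H.OO)
    (hV : V * V' = 1) (hV' : V' * V = 1)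
    (Ph : (j : H.J) → Al (S'.map (H.cmp (Sum.inl j))) →+* Al ((S.map H.lam).map (H.cmp (Sum.inl j))))
    (hc : ∀ j c, Ph j (Al.cst _ c) = Al.cst _ c)
    (ha : ∀ j g a, Ph j (Al.act _ g a) = Al.act _ g (Ph j a))
    (Θ : (j : H.J) → Matrix G G (H.pt (Sum.inl j)).E) (hΘ : ∀ j l m, Θ j l m = (Ph j (Al.e _ l)) m)
    (hT : ∀ j, (∀ l m, (V.map (H.cmp (Sum.inl j)) * Θ j) l m ∈ H.T j) ∧
        ∃ W : Matrix G G (H.pt (Sum.inl j)).E, (∀ l m, W l m ∈ H.T j) ∧
          (V.map (H.cmp (Sum.inl j)) * Θ j) * W = 1 ∧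
          W * (V.map (H.cmp (Sum.inl j)) * Θ j) = 1) :
    ∃ S2 : SC (Lam Om) G, (S2.map H.lam).ks = S'.ks.chb V V' := by
  -- the constants in the new basis are regular on the holes
  have key : ∀ j, InK (H.T j) ((S'.ks.chb V V').map (H.cmp (Sum.inl j))) := by
    intro j
    obtain ⟨hM, W, hW, hMW, hWM⟩ := hT j
    have hVj : V.map (H.cmp (Sum.inl j)) * V'.map (H.cmp (Sum.inl j)) = 1 := by
      rw [← Matrix.map_mul, hV]
      exact Matrix.map_one _ (map_zero _) (map_one _)
    have hVj' : V'.map (H.cmp (Sum.inl j)) * V.map (H.cmp (Sum.inl j)) = 1 := by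
      rw [← Matrix.map_mul, hV']
      exact Matrix.map_one _ (map_zero _) (map_one _)
    have hTW : Θ j * W = V'.map (H.cmp (Sum.inl j)) := by
      calc Θ j * W = (V'.map (H.cmp (Sum.inl j)) * V.map (H.cmp (Sum.inl j))) * (Θ j * W) := by
            rw [hVj', Matrix.one_mul]
        _ = V'.map (H.cmp (Sum.inl j)) * ((V.map (H.cmp (Sum.inl j)) * Θ j) * W) := by
            simp only [Matrix.mul_assoc]
        _ = _ := by rw [hMW, Matrix.mul_one]
    have h1 : Θ j * (W * V.map (H.cmp (Sum.inl j))) = 1 := by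
      rw [← Matrix.mul_assoc, hTW, hVj']
    have h2 : (W * V.map (H.cmp (Sum.inl j))) * Θ j = 1 := by
      rw [Matrix.mul_assoc, hWM]
    have h3 := chb_of_iso (S'.map (H.cmp (Sum.inl j))) ((S.map H.lam).map (H.cmp (Sum.inl j)))
      (Ph j) (hc j) (ha j) (Θ j) _ (hΘ j) h1 h2
    have h4 : (S'.ks.chb V V').map (H.cmp (Sum.inl j)) =
        ((S.map H.lam).map (H.cmp (Sum.inl j))).ks.chb (V.map (H.cmp (Sum.inl j)) * Θ j) W := by
      rw [Ks.chb_map]
      have h5 : S'.ks.map (H.cmp (Sum.inl j)) = (S'.map (H.cmp (Sum.inl j))).ks := rfl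
      rw [h5, h3, Ks.chb_chb, Matrix.mul_assoc W, hVj, Matrix.mul_one]
    rw [h4]
    refine InK.chb ?_ hM hW
    exact ⟨fun _ _ _ => H.lam_mem_T j _, fun _ _ _ => H.lam_mem_T j _, fun _ => H.lam_mem_T j _,
      fun _ _ => H.lam_mem_T j _, fun _ _ => H.lam_mem_T j _⟩
  obtain ⟨k, hk⟩ := exists_lift H.lam (S'.ks.chb V V')
    (fun i j l => H.final _ fun v => (key v).c1 i j l)
    (fun i j l => H.final _ fun v => (key v).c2 i j l)
    (fun l => H.final _ fun v => (key v).c3 l)
    (fun i j => H.final _ fun v => (key v).c4 i j)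
    (fun i j => H.final _ fun v => (key v).c5 i j)
  obtain ⟨S3, Φ, hS3, -⟩ := exists_SC_chb S' V V' hV hV'
  obtain ⟨S2, -, hS2⟩ := exists_descend H.lam H.lam_inj S3 k (hS3.trans hk)
  exact ⟨S2, by rw [hS2, hS3]⟩

end

end Pool.Agent.MP_1c8e06_ag.CY
end

section

/-!
# CY G5: connectedness of the glued algebra

f : G → Lam Om (an element of Al Q.S2), c : G → Om with ρ0 (act g f) = ofL (C (c g)) for all g.  Claim: c g = c 1.
Notation: θ = thm (C t X) (ofL F) (yy + ofL h), injective (`thm_inj`), θ (ofL b) = ofL b (`thm_ofL`); f~ := Q.co f;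
ρ0 (act g f) = θ (h0 (act g f~)) (`GLD.co_act`).  θ is additive (coordE is linear: `map_sub` for the modByMonicHom).
(0) c (x g) = c g: ρ0 (act (x g) f) = tau (ρ0 (act g f)) = tau (ofL ..) = ofL .. (`tau_ofL`, V1; ofL and C injective).
(1) for all g: y := ε * act (x g) f~ - ε * act g f~ = 0.  By `HC.e0_inj` (O4) and `TPw.v0_inj` (V1, e = H.e0) it suffices that
h0 (act h y) = 0 for all h.  h ∉ N: h0 (act h y) = h0 (act h ε) * (..) = 0 (hv0).  h ∈ N: h0 (act h ε) = 1, so
θ (h0 (act h y)) = θ (h0 (act (h x g) f~)) - θ (h0 (act (h g) f~)) = ofL (C (c (h x g))) - ofL (C (c (h g))), and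
h x g = (h x h⁻¹) (h g) = x^(χ h) (h g), so c (h x g) = c (h g) by (0) (iterated): 0; θ injective: h0 (act h y) = 0.
(2) h0 (act g f~) is fixed by tau: tau (h0 (act g f~)) = h0 (act (x g) f~) = h0 (ε * act (x g) f~) = h0 (ε act g f~) =
h0 (act g f~) (h0 ε = 1).  So it is ofL b (`AI.tau_fixed`), θ fixes it: ofL b = ofL (C (c g)).  So h0 (act g f~) = ofL (C (c g)).
(3) by (1) and the field `hole` of Q: for every hole j: H.cmp (inl j) (f~ m) = ∑_l cmp (f~ l) * Θ l m =
∑_l' cmp (H.lam (f l')) * (V_j Θ) l' m, which is in H.T j (`HC.lam_mem_T`, O6; H.T j is a subring).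
(4) `HC.final` (O6): f~ m = H.lam (f^ m).  So f^ : Al D.S with mapA f^ = f~; D.r0 (act g f^) = h0 (act g f~) = ofL (C (c g))
(`TPw.v0_mapA`, `Al.mapA_act`).  hconn (TPw.Conn): c g = c 1.
-/

set_option autoImplicit false

open Polynomial
open scoped Classical

namespace Pool.Agent.MP_1c8e06_ag.CY

open Pool.Agent.MP_1c8e06_ag.AJ

noncomputable section

set_option linter.unusedSectionVars false

variable {Om : Type} [NormedField Om] [CompleteSpace Om] [IsUltrametricDist Om] [IsAlgClosed Om]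
  {p : ℕ} [Fact p.Prime] [CharP Om p] {G : Type} [Group G] [Fintype G] {x : G} {t : Om}

theorem GLD.conn {D : TPw p x t} (hconn : D.Conn) {H : HC Om} {N : Subgroup G} {χ : G → ℕ}
    {ε : Al (D.S.map H.lam)} (Q : GLD D H N χ ε)
    (hv0 : ∀ g, D.h0 H (Al.act _ g ε) = if g ∈ N then 1 else 0) (F : Om[X])
    (h : LaurentSeries Om) (ρ0 : Al Q.S2 →+* AI.EE p F)
    (hρ : ∀ a : G → Lam Om, ρ0 a = thm (C t * X : Om[X]) (AI.ofL p F)
      (AI.yy p F + AI.ofL p F h) (D.h0 H (Q.co a)))
    (hx : ∀ a, ρ0 (Al.act Q.S2 x a) = AI.tau p F (ρ0 a)) (f : Al Q.S2) (c : G → Om)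
    (hf : ∀ g, ρ0 (Al.act Q.S2 g f) = AI.ofL p F (HahnSeries.C (c g))) (g : G) : c g = c 1 := by
  obtain ⟨ft, hft⟩ : ∃ ft : Al (D.S.map H.lam), ft = Q.co f := ⟨_, rfl⟩
  -- the values of `ft`
  have hK : ∀ g, D.h0 H (Al.act _ g ft) =
      AI.ofL p (C t * X : Om[X]) (HahnSeries.C (c g)) := by
    intro g
    refine thm_inj (C t * X : Om[X]) F h ?_
    rw [thm_ofL, ← hf g, hρ, Q.co_act, hft]
  have hC : ∀ a b : Om, AI.ofL p (C t * X : Om[X]) (HahnSeries.C a) =
      AI.ofL p (C t * X : Om[X]) (HahnSeries.C b) → a = b := fun a b hab =>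
    HahnSeries.C_injective (ofL_injective _ hab)
  have hc1 : ∀ g, c (x * g) = c g := by
    intro g
    apply hC
    rw [← hK, ← hK, Al.act_mul_apply, TPw.h0, D.v0_x, ← TPw.h0, hK, tau_ofL]
  have hc2 : ∀ (k : ℕ) (g : G), c (x ^ k * g) = c g := by
    intro k
    induction k with
    | zero => intro g; rw [pow_zero, one_mul]
    | succ k ih => intro g; rw [pow_succ', mul_assoc, hc1, ih]
  have hval : ∀ h' g', D.h0 H (Al.act _ h' (ε * Al.act _ g' ft)) =
      (if h' ∈ N then 1 else 0) * AI.ofL p (C t * X : Om[X]) (HahnSeries.C (c (h' * g'))) := by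
    intro h' g'
    rw [RingHom.map_mul, RingHom.map_mul, hv0, ← Al.act_mul_apply, hK]
  -- invariance on the main component
  have hinv : ∀ g, ε * Al.act _ (x * g) ft = ε * Al.act _ g ft := by
    intro g
    rw [← sub_eq_zero]
    refine Al.ext fun l => ?_
    apply H.e0_inj
    rw [Al.zero_apply, map_zero]
    refine D.v0_inj H.lam H.e0 H.e0_lam _ (fun h' => ?_) l
    change D.h0 H _ = 0
    rw [map_sub, map_sub, hval, hval]
    split_ifs with hN
    · have h1 : h' * (x * g) = x ^ χ h' * (h' * g) := by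
        rw [← Q.tw.conj h' hN]
        group
      rw [h1, hc2, sub_self]
    · rw [zero_mul, zero_mul, sub_self]
  -- regularity at the holes
  have hreg : ∀ m j, H.cmp (Sum.inl j) (ft m) ∈ H.T j := by
    intro m j
    obtain ⟨Θ, hΘ1, hΘ2⟩ := Q.hole j
    rw [← hΘ2 ft hinv m]
    have h1 : ∑ l, H.cmp (Sum.inl j) (ft l) * Θ l m =
        ∑ l', H.cmp (Sum.inl j) (H.lam (f l')) *
          (Q.V.map (H.cmp (Sum.inl j)) * Θ) l' m := by
      have h2 : ∀ l, H.cmp (Sum.inl j) (ft l) * Θ l m =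
          ∑ l', H.cmp (Sum.inl j) (H.lam (f l')) * (H.cmp (Sum.inl j) (Q.V l' l) * Θ l m) := by
        intro l
        rw [hft, GLD.co, map_sum, Finset.sum_mul]
        refine Finset.sum_congr rfl fun l' _ => ?_
        rw [map_mul, mul_assoc]
      rw [Finset.sum_congr rfl fun l _ => h2 l, Finset.sum_comm]
      refine Finset.sum_congr rfl fun l' _ => ?_
      rw [Matrix.mul_apply, Finset.mul_sum]
      rfl
    rw [h1]
    exact (H.T j).sum_mem fun l' _ => (H.T j).mul_mem (H.lam_mem_T j _) (hΘ1 l' m)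
  choose fh hfh using fun m => H.final (ft m) (hreg m)
  have hmap : Al.mapA D.S H.lam (fh : Al D.S) = ft := by
    refine Al.ext fun m => ?_
    rw [Al.mapA_apply, hfh m]
  refine hconn (fh : Al D.S) c (fun g' => ?_) g
  rw [← hK g', ← hmap, ← Al.mapA_act, TPw.h0, D.v0_mapA]

end

end Pool.Agent.MP_1c8e06_ag.CY
end
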