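import Pool.Agent.Lib.MP_1c8e06_ag.CY.Defs2
import Pool.Agent.Lib.MP_1c8e06_ag.Mg.G010

section

/-!
# CY La2: choice of the multiplier g

THEOREM.  a0, a1 nonzero Laurent series, t ∈ Om nonzero, de j > 0.  There is g : Lam Om with
(i) lzi g * a1 + t s⁻¹ ∈ Om[[s]];
(ii) t s⁻¹ + lz g * a0 has a pole of exact order n0 ≥ 1, p ∤ n0;
(iii) ‖lw (H.pt (inl j)) g‖ < de j for all holes j.

PROOF.  Let m0 = order a0, m1 = order a1, K1 ≥ max(1, -m1, 0).  gam := - t s⁻¹ / a1.  Any g with lzi g ≡ gam mod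
s^K1 Om[[s]] satisfies (i) (multiply by a1 ∈ s^(-K1) Om[[s]]).
g0 ∈ Lam: truncation: lzi g0 ≡ gam mod s^K1 (coefficients of s^n, n < K1; T = s⁻¹).  g1 := g0 + T^(-K') with K' ≥ K1,
K' larger than the pole order of lz g0 (all coefficients of lz g0 below -K' + 1 vanish), K' - m0 > 1, p ∤ (K' - m0):
such K' exists among p consecutive... two consecutive integers (p ≥ 2: of K', K'+1 at least one works).  lzi (T^(-K')) =
s^(K') ≡ 0 mod s^K1.  lz g1 has a pole of exact order K' at 0 with coefficient 1.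
h := ∏_j (1 - c_j T⁻¹)^(L_j) = ∏ ((u - c_j)/u)^(L_j), all L_j divisible by p^e where p^e ≥ K1 + (T-degree bound of g1):
lzi h = ∏ (1 - c_j s)^(L_j) = ∏ (1 - c_j^(p^e) s^(p^e))^(L_j/p^e) ≡ 1 mod s^(p^e) (characteristic p).  So
g := g1 h satisfies lzi g ≡ lzi g1 mod s^K1: (i).
(ii): lz h = ∏ (1 - c_j s⁻¹)^(L_j): exact pole order ∑ L_j (leading coefficient ∏ (-c_j)^(L_j) ≠ 0), divisible by p.  So lz g a0
has order exactly -(K' + ∑ L_j - m0) =: -n0, n0 ≡ K' - m0 mod p, n0 > 1; t s⁻¹ has order -1 > -n0: exact pole order n0.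
(iii) At the hole i (point P_i = gp c_i ρ_i): w(u) = ‖c_i‖; w(u - c_j) = ρ_i if i = j, = ‖c_i - c_j‖ = max ‖c_i‖ ‖c_j‖ if i ≠ j
(`gp_X_sub`, ρ_i < ‖c_i - c_j‖).  So w((u-c_j)/u) = ρ_i/‖c_i‖ < 1 for i = j; = 1 for i ≠ j, ‖c_j‖ ≤ ‖c_i‖;
= ‖c_j‖/‖c_i‖ > 1 for ‖c_j‖ > ‖c_i‖.  Order the holes by decreasing ‖c_j‖ and choose the L_j (multiples of p^e) one after
the other so large that P_j(g1) * ∏_{‖c_i‖ > ‖c_j‖} (‖c_i‖/‖c_j‖)^(L_i) * (ρ_j/‖c_j‖)^(L_j) < de j.  Later choices do not change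
this product (the factors with ‖c_i‖ ≤ ‖c_j‖, i ≠ j, are 1).
In Lean: prove the sublemma `exists_L`: for every finite family (norms ν_j > 0, ratios q_j < 1, constants C_j > 0, de_j > 0,
modulus m ≥ 1) there is L : J → ℕ with m ∣ L_j and C_j * (∏_{i, ν_i > ν_j} (ν_i/ν_j)^(L_i)) * q_j^(L_j) < de_j for all j: by
strong induction (well-founded recursion) over the number of i with ν_i > ν_j, or by induction over a Finset ordered
by ν (Finset.induction_on_min_value / max_value).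
-/

set_option autoImplicit false

open Polynomial
open scoped Classical

namespace Pool.Agent.MP_1c8e06_ag.CY

open Pool.Agent.MP_1c8e06_ag.AJ

noncomputable section

set_option linter.unusedSectionVars false

variable {Om : Type} [NormedField Om] [CompleteSpace Om] [IsUltrametricDist Om] [IsAlgClosed Om]
  {p : ℕ} [Fact p.Prime] [CharP Om p]

theorem exists_L {J : Type} [Fintype J] (ν q C de : J → ℝ) (hν : ∀ j, 0 < ν j)
    (hq0 : ∀ j, 0 ≤ q j) (hq1 : ∀ j, q j < 1) (hC : ∀ j, 0 ≤ C j) (hde : ∀ j, 0 < de j)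
    (m : ℕ) (hm : 0 < m) :
    ∃ L : J → ℕ, (∀ j, m ∣ L j) ∧ ∀ j,
      C j * (∏ i ∈ Finset.univ.filter (fun i => ν j < ν i), (ν i / ν j) ^ L i) * q j ^ L j < de j := by
  have key : ∃ L : J → ℕ, (∀ j, m ∣ L j) ∧ ∀ j ∈ (Finset.univ : Finset J),
      C j * (∏ i ∈ Finset.univ.filter (fun i => ν j < ν i), (ν i / ν j) ^ L i) * q j ^ L j < de j := by
    refine Finset.induction_on_min_value ν (motive := fun s => ∃ L : J → ℕ, (∀ j, m ∣ L j) ∧ ∀ j ∈ s,
      C j * (∏ i ∈ s.filter (fun i => ν j < ν i), (ν i / ν j) ^ L i) * q j ^ L j < de j)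
      (Finset.univ : Finset J) ⟨fun _ => 0, fun _ => dvd_zero m, fun j hj => by simp at hj⟩ ?_
    rintro a s ha hmin ⟨L, hL1, hL2⟩
    set K : ℝ := C a * ∏ i ∈ s.filter (fun i => ν a < ν i), (ν i / ν a) ^ L i with hK
    have hqm : q a ^ m < 1 := pow_lt_one₀ (hq0 a) (hq1 a) hm.ne'
    have hlim : Filter.Tendsto (fun k : ℕ => K * (q a ^ m) ^ k) Filter.atTop (nhds (K * 0)) :=
      (tendsto_pow_atTop_nhds_zero_of_lt_one (pow_nonneg (hq0 a) m) hqm).const_mul K
    rw [mul_zero] at hlim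
    obtain ⟨k, hk⟩ := (hlim.eventually (gt_mem_nhds (hde a))).exists
    refine ⟨Function.update L a (m * k), fun j => ?_, fun j hj => ?_⟩
    · by_cases hja : j = a
      · subst hja
        rw [Function.update_self]
        exact dvd_mul_right m k
      · rw [Function.update_of_ne hja]
        exact hL1 j
    · have hprod : ∀ j, ν a ≤ ν j →
          ∏ i ∈ (insert a s).filter (fun i => ν j < ν i), (ν i / ν j) ^ (Function.update L a (m * k)) i
            = ∏ i ∈ s.filter (fun i => ν j < ν i), (ν i / ν j) ^ L i := by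
        intro j hj
        rw [Finset.filter_insert, if_neg (not_lt.2 hj)]
        refine Finset.prod_congr rfl fun i hi => ?_
        have hia : i ≠ a := by
          rintro rfl
          exact ha (Finset.mem_filter.1 hi).1
        rw [Function.update_of_ne hia]
      rcases Finset.mem_insert.1 hj with rfl | hjs
      · rw [hprod j le_rfl, Function.update_self, pow_mul, ← hK]
        exact hk
      · have hja : j ≠ a := by
          rintro rfl
          exact ha hjs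
        rw [hprod j (hmin j hjs), Function.update_of_ne hja]
        exact hL2 j hjs
  obtain ⟨L, hL1, hL2⟩ := key
  exact ⟨L, hL1, fun j => hL2 j (Finset.mem_univ j)⟩

/-! ### Orders of Laurent series -/

/-- All coefficients of index less than `A` vanish. -/
private def La2_Z (A : ℤ) (x : LaurentSeries Om) : Prop := ∀ n : ℤ, n < A → x.coeff n = 0

private theorem La2_Z_mono {A B : ℤ} {x : LaurentSeries Om} (h : B ≤ A) (hx : La2_Z A x) :
    La2_Z B x := fun n hn => hx n (lt_of_lt_of_le hn h)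

private theorem La2_Z_add {A : ℤ} {x y : LaurentSeries Om} (hx : La2_Z A x) (hy : La2_Z A y) :
    La2_Z A (x + y) := fun n hn => by
  rw [HahnSeries.coeff_add, hx n hn, hy n hn, add_zero]

private theorem La2_Z_sub {A : ℤ} {x y : LaurentSeries Om} (hx : La2_Z A x) (hy : La2_Z A y) :
    La2_Z A (x - y) := fun n hn => by
  rw [HahnSeries.coeff_sub, hx n hn, hy n hn, sub_zero]

private theorem La2_Z_mul {A B : ℤ} {x y : LaurentSeries Om} (hx : La2_Z A x) (hy : La2_Z B y) :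
    La2_Z (A + B) (x * y) := fun n hn => by
  rw [HahnSeries.coeff_mul]
  refine Finset.sum_eq_zero fun ij hij => ?_
  have h1 := (Finset.mem_antidiagonal.1 hij).2.2
  by_cases h2 : ij.1 < A
  · rw [hx _ h2, zero_mul]
  · rw [hy _ (by omega), mul_zero]

private theorem La2_Z_exists (x : LaurentSeries Om) : ∃ D : ℕ, La2_Z (-(D : ℤ)) x := by
  refine ⟨(-x.order).toNat, fun n hn => HahnSeries.coeff_eq_zero_of_lt_order ?_⟩
  have h := Int.self_le_toNat (-x.order)
  omega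

private theorem La2_Z_single (n : ℤ) (a : Om) : La2_Z n (HahnSeries.single n a : LaurentSeries Om) :=
  fun _ hk => HahnSeries.coeff_single_of_ne hk.ne

private theorem La2_Z_one : La2_Z 0 (1 : LaurentSeries Om) := fun k hk => by
  rw [HahnSeries.coeff_one, if_neg hk.ne]

/-- The elements which are `1` modulo `s ^ N` are closed under products. -/
private theorem La2_Z1_mul {N : ℤ} (hN : 0 ≤ N) {x y : LaurentSeries Om} (hx : La2_Z N (x - 1))
    (hy : La2_Z N (y - 1)) : La2_Z N (x * y - 1) := by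
  have hy0 : La2_Z 0 y := by
    have h := La2_Z_add (La2_Z_mono hN hy) La2_Z_one
    rwa [sub_add_cancel] at h
  have h1 : x * y - 1 = (x - 1) * y + (y - 1) := by ring
  rw [h1]
  refine La2_Z_add ?_ hy
  have h2 := La2_Z_mul hx hy0
  rwa [add_zero] at h2

private theorem La2_Z1_pow {N : ℤ} (hN : 0 ≤ N) {x : LaurentSeries Om} (hx : La2_Z N (x - 1))
    (k : ℕ) : La2_Z N (x ^ k - 1) := by
  induction k with
  | zero =>
    intro n _
    rw [pow_zero, sub_self, HahnSeries.coeff_zero]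
  | succ k ih =>
    rw [pow_succ]
    exact La2_Z1_mul hN ih hx

private theorem La2_Z1_prod {N : ℤ} (hN : 0 ≤ N) {J : Type} (s : Finset J)
    (x : J → LaurentSeries Om) (hx : ∀ j ∈ s, La2_Z N (x j - 1)) : La2_Z N (∏ j ∈ s, x j - 1) := by
  induction s using Finset.induction_on with
  | empty =>
    intro n _
    rw [Finset.prod_empty, sub_self, HahnSeries.coeff_zero]
  | insert a s ha ih =>
    rw [Finset.prod_insert ha]
    exact La2_Z1_mul hN (hx a (Finset.mem_insert_self a s))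
      (ih fun j hj => hx j (Finset.mem_insert_of_mem hj))

/-- The exact order is `A`. -/
private def La2_E (A : ℤ) (x : LaurentSeries Om) : Prop := x ≠ 0 ∧ x.order = A

private theorem La2_E_iff {A : ℤ} {x : LaurentSeries Om} :
    La2_E A x ↔ x.coeff A ≠ 0 ∧ La2_Z A x := by
  constructor
  · rintro ⟨h, rfl⟩
    exact ⟨fun h0 => h (HahnSeries.coeff_order_eq_zero.1 h0), fun n hn => HahnSeries.coeff_eq_zero_of_lt_order hn⟩
  · rintro ⟨h1, h2⟩
    have h0 : x ≠ 0 := by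
      rintro rfl
      exact h1 HahnSeries.coeff_zero
    refine ⟨h0, le_antisymm (HahnSeries.order_le_of_coeff_ne_zero h1) ?_⟩
    by_contra hlt
    exact h0 (HahnSeries.coeff_order_eq_zero.1 (h2 _ (not_le.1 hlt)))

private theorem La2_E_mul {A B : ℤ} {x y : LaurentSeries Om} (hx : La2_E A x) (hy : La2_E B y) :
    La2_E (A + B) (x * y) :=
  ⟨mul_ne_zero hx.1 hy.1, by rw [HahnSeries.order_mul hx.1 hy.1, hx.2, hy.2]⟩

private theorem La2_E_one : La2_E 0 (1 : LaurentSeries Om) := ⟨one_ne_zero, HahnSeries.order_one⟩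

private theorem La2_E_pow {A : ℤ} {x : LaurentSeries Om} (hx : La2_E A x) (k : ℕ) :
    La2_E ((k : ℤ) * A) (x ^ k) := by
  induction k with
  | zero =>
    rw [pow_zero, Nat.cast_zero, zero_mul]
    exact La2_E_one
  | succ k ih =>
    rw [pow_succ, Nat.cast_succ, add_mul, one_mul]
    exact La2_E_mul ih hx

private theorem La2_E_prod {J : Type} (s : Finset J) (A : J → ℤ) (x : J → LaurentSeries Om)
    (hx : ∀ j ∈ s, La2_E (A j) (x j)) : La2_E (∑ j ∈ s, A j) (∏ j ∈ s, x j) := by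
  induction s using Finset.induction_on with
  | empty =>
    rw [Finset.prod_empty, Finset.sum_empty]
    exact La2_E_one
  | insert a s ha ih =>
    rw [Finset.prod_insert ha, Finset.sum_insert ha]
    exact La2_E_mul (hx a (Finset.mem_insert_self a s))
      (ih fun j hj => hx j (Finset.mem_insert_of_mem hj))

/-! ### The factors -/

/-- The factor `1 - c T⁻¹`. -/
private def La2_f (c : Om) : Lam Om := 1 - LaurentPolynomial.C c * LaurentPolynomial.T (-1)

private theorem La2_lz_T (k : ℕ) : lz Om (LaurentPolynomial.T (-(k : ℤ))) =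
    HahnSeries.single (-(k : ℤ)) 1 := by
  rw [lz, LaurentPolynomial.eval₂_T_neg_n]
  change (HahnSeries.single (-1 : ℤ) (1 : Om)) ^ k = _
  rw [HahnSeries.single_pow, one_pow, nsmul_eq_mul, mul_neg, mul_one]

private theorem La2_lzi_T (k : ℕ) : lzi Om (LaurentPolynomial.T (-(k : ℤ))) =
    HahnSeries.single (k : ℤ) 1 := by
  rw [lzi, LaurentPolynomial.eval₂_T_neg_n, inv_inv]
  change (HahnSeries.single (1 : ℤ) (1 : Om)) ^ k = _
  rw [HahnSeries.single_pow, one_pow, nsmul_eq_mul, mul_one]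

private theorem La2_lz_f (c : Om) : lz Om (La2_f c) = 1 - HahnSeries.single (-1 : ℤ) c := by
  have h := La2_lz_T (Om := Om) 1
  rw [Nat.cast_one] at h
  rw [La2_f, map_sub, map_one, map_mul, h, lz, LaurentPolynomial.eval₂_C]
  congr 1
  change HahnSeries.single (0 : ℤ) c * HahnSeries.single (-1 : ℤ) 1 = _
  rw [HahnSeries.single_mul_single, zero_add, mul_one]

private theorem La2_lzi_f (c : Om) : lzi Om (La2_f c) = 1 - HahnSeries.single (1 : ℤ) c := by
  have h := La2_lzi_T (Om := Om) 1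
  rw [Nat.cast_one] at h
  rw [La2_f, map_sub, map_one, map_mul, h, lzi, LaurentPolynomial.eval₂_C]
  congr 1
  change HahnSeries.single (0 : ℤ) c * HahnSeries.single (1 : ℤ) 1 = _
  rw [HahnSeries.single_mul_single, zero_add, mul_one]

private theorem La2_jF_f (c : Om) :
    jF Om (La2_f c) = (RatFunc.X - RatFunc.C c) / (RatFunc.X - RatFunc.C 0) := by
  have h := LaurentPolynomial.eval₂_T_neg_n (RatFunc.C : Om →+* RatFunc Om) (uU Om) 1
  rw [Nat.cast_one, pow_one] at h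
  rw [La2_f, map_sub, map_one, map_mul, jF, h, LaurentPolynomial.eval₂_C, map_zero, sub_zero,
    sub_div, div_self RatFunc.X_ne_zero, div_eq_mul_inv]
  rfl

private theorem La2_E_f {c : Om} (hc : c ≠ 0) : La2_E (-1) (lz Om (La2_f c)) := by
  rw [La2_E_iff, La2_lz_f]
  refine ⟨?_, fun n hn => ?_⟩
  · rw [HahnSeries.coeff_sub, HahnSeries.coeff_one, if_neg (by norm_num),
      HahnSeries.coeff_single_same, zero_sub]
    exact neg_ne_zero.2 hc
  · rw [HahnSeries.coeff_sub, HahnSeries.coeff_one, if_neg (by omega),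
      HahnSeries.coeff_single_of_ne hn.ne, sub_zero]

private theorem La2_charP : CharP (LaurentSeries Om) p :=
  charP_of_injective_ringHom (HahnSeries.C_injective (Γ := ℤ) (R := Om)) p

private theorem La2_Z1_f (c : Om) (e : ℕ) {k : ℕ} (hk : p ^ e ∣ k) :
    La2_Z ((p ^ e : ℕ) : ℤ) (lzi Om (La2_f c) ^ k - 1) := by
  have := La2_charP (Om := Om) (p := p)
  obtain ⟨l, rfl⟩ := hk
  rw [pow_mul]
  refine La2_Z1_pow (Int.natCast_nonneg _) ?_ l
  rw [La2_lzi_f, sub_pow_char_pow, one_pow, HahnSeries.single_pow, nsmul_eq_mul, mul_one]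
  intro n hn
  rw [HahnSeries.coeff_sub, HahnSeries.coeff_sub, HahnSeries.coeff_single_of_ne hn.ne, sub_zero,
    sub_self]

/-- The values of the factors at the boundary point of the hole `j`. -/
private theorem La2_val (H : HC Om) (j i : H.J) :
    (gp (H.c j) (H.ρ j)).v (jF Om (La2_f (H.c i))) =
      (if ‖H.c j‖ < ‖H.c i‖ then ‖H.c i‖ / ‖H.c j‖ else 1) *
        (if i = j then H.ρ j / ‖H.c j‖ else 1) := by
  have hc : 0 < ‖H.c j‖ := H.r0_pos.trans (H.c_gt j)
  rw [La2_jF_f, map_div₀, gp_X_sub _ _ (H.ρ_pos j), gp_X_sub _ _ (H.ρ_pos j), sub_zero,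
    max_eq_right (H.ρ_lt j).le]
  by_cases hij : i = j
  · subst hij
    rw [if_neg (lt_irrefl _), if_pos rfl, one_mul, sub_self, norm_zero,
      max_eq_left (H.ρ_pos i).le]
  · rw [if_neg hij, mul_one, H.sep j i (Ne.symm hij),
      max_eq_right ((H.ρ_lt j).le.trans (le_max_left _ _))]
    by_cases h : ‖H.c j‖ < ‖H.c i‖
    · rw [if_pos h, max_eq_right h.le]
    · rw [if_neg h, max_eq_left (not_lt.1 h), div_self hc.ne']

private theorem La2_prod (H : HC Om) (L : H.J → ℕ) (j : H.J) :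
    (gp (H.c j) (H.ρ j)).v (jF Om (∏ i, La2_f (H.c i) ^ L i)) =
      (∏ i ∈ Finset.univ.filter (fun i => ‖H.c j‖ < ‖H.c i‖), (‖H.c i‖ / ‖H.c j‖) ^ L i) *
        (H.ρ j / ‖H.c j‖) ^ L j := by
  rw [map_prod, map_prod, Finset.prod_filter]
  have h1 : (H.ρ j / ‖H.c j‖) ^ L j = ∏ i, if i = j then (H.ρ j / ‖H.c j‖) ^ L i else 1 := by
    rw [Finset.prod_ite_eq' Finset.univ j, if_pos (Finset.mem_univ j)]
  rw [h1, ← Finset.prod_mul_distrib]
  refine Finset.prod_congr rfl fun i _ => ?_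
  rw [map_pow, map_pow, La2_val, mul_pow, ite_pow, ite_pow, one_pow]

theorem exists_g (H : HC Om) {t : Om} (ht : t ≠ 0) {a0 a1 : LaurentSeries Om} (h0 : a0 ≠ 0)
    (h1 : a1 ≠ 0) (de : H.J → ℝ) (hde : ∀ j, 0 < de j) :
    ∃ (g : Lam Om) (n0 : ℕ),
      (∀ n : ℤ, n < 0 → (lzi Om g * a1 + HahnSeries.single (-1 : ℤ) t).coeff n = 0) ∧
      ¬ p ∣ n0 ∧
      (HahnSeries.single (-1 : ℤ) t + lz Om g * a0).coeff (-(n0 : ℤ)) ≠ 0 ∧
      (∀ n : ℤ, n < -(n0 : ℤ) → (HahnSeries.single (-1 : ℤ) t + lz Om g * a0).coeff n = 0) ∧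
      ∀ j, ‖lw (H.pt (Sum.inl j)) g‖ < de j := by
  have hp : 1 < p := (Fact.out : p.Prime).one_lt
  -- the order of `a1`
  obtain ⟨K1, hK1⟩ := La2_Z_exists a1
  set gam : LaurentSeries Om := -(HahnSeries.single (-1 : ℤ) t * a1⁻¹) with hgam
  obtain ⟨g0, hg0⟩ := (cre_lzi (Om := Om) one_pos).tr gam K1
  have hg0' : La2_Z (K1 : ℤ) (lzi Om g0 - gam) := by
    intro n hn
    rw [HahnSeries.coeff_sub, hg0 n, if_pos hn, sub_self]
  -- the choice of `K'`
  obtain ⟨D0, hD0⟩ := La2_Z_exists (lz Om g0)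
  obtain ⟨K', hK'1, hK'2, hK'3, hK'4⟩ : ∃ K' : ℕ, K1 ≤ K' ∧ D0 < K' ∧ 2 ≤ (K' : ℤ) - a0.order ∧
      ¬ (p : ℤ) ∣ (K' : ℤ) - a0.order := by
    have hB := Int.self_le_toNat (a0.order + 2)
    set B : ℕ := K1 + D0 + 1 + (a0.order + 2).toNat with hBdef
    by_cases h : (p : ℤ) ∣ (B : ℤ) - a0.order
    · refine ⟨B + 1, by omega, by omega, by push_cast; omega, fun h' => ?_⟩
      have h2 := dvd_sub h' h
      have h3 : ((B + 1 : ℕ) : ℤ) - a0.order - ((B : ℤ) - a0.order) = 1 := by push_cast; ring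
      rw [h3] at h2
      have h4 := Int.natCast_dvd_natCast.1 (show (p : ℤ) ∣ ((1 : ℕ) : ℤ) by simpa using h2)
      exact absurd (Nat.le_of_dvd one_pos h4) (not_le.2 hp)
    · exact ⟨B, by omega, by omega, by omega, h⟩
  set g1 : Lam Om := g0 + LaurentPolynomial.T (-(K' : ℤ)) with hg1
  have hg1i : La2_Z (K1 : ℤ) (lzi Om g1 - gam) := by
    have h1 : lzi Om g1 - gam = (lzi Om g0 - gam) + HahnSeries.single (K' : ℤ) 1 := by
      rw [hg1, map_add, La2_lzi_T]
      ring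
    rw [h1]
    exact La2_Z_add hg0' (La2_Z_mono (by exact_mod_cast hK'1) (La2_Z_single _ _))
  have hg1z : La2_E (-(K' : ℤ)) (lz Om g1) := by
    rw [La2_E_iff, hg1, map_add, La2_lz_T]
    constructor
    · rw [HahnSeries.coeff_add, hD0 _ (by omega), HahnSeries.coeff_single_same, zero_add]
      exact one_ne_zero
    · exact La2_Z_add (La2_Z_mono (by omega) hD0) (La2_Z_single _ _)
  obtain ⟨D, hD⟩ := La2_Z_exists (lzi Om g1)
  set e : ℕ := K1 + D + 1 with he
  have hpe : K1 + D < p ^ e := by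
    have h1 : e < p ^ e := Nat.lt_pow_self hp
    omega
  have hpd : p ∣ p ^ e := dvd_pow_self p (by omega)
  -- the exponents
  have hcpos : ∀ j, 0 < ‖H.c j‖ := fun j => H.r0_pos.trans (H.c_gt j)
  obtain ⟨L, hL1, hL2⟩ := exists_L (J := H.J) (fun j => ‖H.c j‖) (fun j => H.ρ j / ‖H.c j‖)
    (fun j => (gp (H.c j) (H.ρ j)).v (jF Om g1)) de hcpos
    (fun j => div_nonneg (H.ρ_pos j).le (norm_nonneg _))
    (fun j => (div_lt_one (hcpos j)).2 (H.ρ_lt j)) (fun j => (gp (H.c j) (H.ρ j)).v.nonneg _) hde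
    (p ^ e) (pow_pos (by omega) e)
  set h : Lam Om := ∏ i, La2_f (H.c i) ^ L i with hh
  have hhi : La2_Z ((p ^ e : ℕ) : ℤ) (lzi Om h - 1) := by
    rw [hh, map_prod]
    refine La2_Z1_prod (Int.natCast_nonneg _) _ _ fun j _ => ?_
    rw [map_pow]
    exact La2_Z1_f _ e (hL1 j)
  have hhz : La2_E (∑ i, (L i : ℤ) * (-1)) (lz Om h) := by
    rw [hh, map_prod]
    refine La2_E_prod _ _ _ fun j _ => ?_
    rw [map_pow]
    exact La2_E_pow (La2_E_f (norm_pos_iff.1 (hcpos j))) _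
  have hsumL : ∑ i, (L i : ℤ) * (-1) = -((∑ i, L i : ℕ) : ℤ) := by
    rw [← Finset.sum_mul, mul_neg_one, Nat.cast_sum]
  rw [hsumL] at hhz
  -- the order of `lz g * a0`
  have hga : La2_E (-(K' : ℤ) + -((∑ i, L i : ℕ) : ℤ) + a0.order) (lz Om (g1 * h) * a0) := by
    rw [map_mul]
    exact La2_E_mul (La2_E_mul hg1z hhz) ⟨h0, rfl⟩
  obtain ⟨n0, hn0⟩ : ∃ n0 : ℕ, (n0 : ℤ) = (K' : ℤ) + ((∑ i, L i : ℕ) : ℤ) - a0.order :=
    ⟨((K' : ℤ) + ((∑ i, L i : ℕ) : ℤ) - a0.order).toNat, Int.toNat_of_nonneg (by omega)⟩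
  have hn0' : -(K' : ℤ) + -((∑ i, L i : ℕ) : ℤ) + a0.order = -(n0 : ℤ) := by
    rw [hn0]
    ring
  rw [hn0', La2_E_iff] at hga
  have hn2 : 2 ≤ n0 := by omega
  refine ⟨g1 * h, n0, ?_, ?_, ?_, ?_, ?_⟩
  · -- (i)
    have h2 : lzi Om (g1 * h) * a1 + HahnSeries.single (-1 : ℤ) t =
        ((lzi Om g1 - gam) + lzi Om g1 * (lzi Om h - 1)) * a1 := by
      have h3 : gam * a1 = -HahnSeries.single (-1 : ℤ) t := by
        rw [hgam, neg_mul, mul_assoc, inv_mul_cancel₀ h1, mul_one]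
      have h4 : ((lzi Om g1 - gam) + lzi Om g1 * (lzi Om h - 1)) * a1 =
          lzi Om g1 * lzi Om h * a1 - gam * a1 := by ring
      rw [h4, h3, map_mul, sub_neg_eq_add]
    rw [h2]
    have h5 : La2_Z (K1 : ℤ) ((lzi Om g1 - gam) + lzi Om g1 * (lzi Om h - 1)) :=
      La2_Z_add hg1i (La2_Z_mono (by omega) (La2_Z_mul hD hhi))
    exact La2_Z_mono (by omega) (La2_Z_mul h5 hK1)
  · -- `p ∤ n0`
    intro hpn
    refine hK'4 ?_
    have h6 : (p : ℤ) ∣ (n0 : ℤ) := Int.natCast_dvd_natCast.2 hpn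
    have h7 : (p : ℤ) ∣ ((∑ i, L i : ℕ) : ℤ) :=
      Int.natCast_dvd_natCast.2 (Finset.dvd_sum fun i _ => hpd.trans (hL1 i))
    have h8 := dvd_sub h6 h7
    rw [hn0] at h8
    have h9 : (K' : ℤ) + ((∑ i, L i : ℕ) : ℤ) - a0.order - ((∑ i, L i : ℕ) : ℤ) =
        (K' : ℤ) - a0.order := by ring
    rwa [h9] at h8
  · rw [HahnSeries.coeff_add, HahnSeries.coeff_single_of_ne (by omega), zero_add]
    exact hga.1
  · intro n hn
    rw [HahnSeries.coeff_add, HahnSeries.coeff_single_of_ne (by omega), zero_add]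
    exact hga.2 n hn
  · intro j
    change ‖(H.pt (Sum.inl j)).ι (jF Om (g1 * h))‖ < de j
    rw [Pt.norm_ι]
    change (gp (H.c j) (H.ρ j)).v (jF Om (g1 * h)) < de j
    rw [map_mul, map_mul, hh, La2_prod, ← mul_assoc]
    exact hL2 j

end

end Pool.Agent.MP_1c8e06_ag.CY
end

section

/-!
# CY O5: rational functions with poles in the holes are elements of OO

Let q be a rational function with all poles in {0} ∪ holes.  (holes D_j = H.D j = od (c_j) (ρ_j), all their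
points have norm ‖c_j‖ ∈ (r0, r1), see `HC.norm_mem`, O1.)
The component at v is ι q; it is in H.O since q ∈ Reg H.X (`HC.mem_O` with q itself).
AT 0 (w = gp 0 r0, e = lz, s = r0; `cre_lz`): q = A / (u^k Q), Q = ∏ (u - β), ‖β‖ > r0.  The set of all f in w.E
which are limits of POLYNOMIALS in u is a subring; it contains ι(u), constants and 1/ι(u - β):
1/(u-β) + β⁻¹ ∑_{i<m} (u/β)^i = (u/β)^m/(u - β) has value (r0/‖β‖)^m/‖β‖ → 0.  So u^k q is a limit of
polynomials, q is a limit of Laurent polynomials l with (lz l)_n = 0 for n < -k: `exists_CR` (O3).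
AT INFINITY (w = gp 0 r1, e = lzi, s = r1⁻¹): q = A/(u^k Q), deg (u^k Q) = d, deg A ≤ d + n: q = (A/u^(d+n)) *
u^n * ∏ (1 - β/u)⁻¹ with ‖β‖ < r1: limit of u^n * (polynomials in u⁻¹), as (1-β/u)⁻¹ = lim ∑ (β/u)^i.  So the
coefficients of lzi l below -n vanish: `exists_CR`.
For `exists_emb_pol`: poles in the holes only (k = 0, 0 is in no hole), deg A < deg Q: no terms below 0 at
both ends: H.Rg.
-/

set_option autoImplicit false

open Polynomial
open scoped Classical

namespace Pool.Agent.MP_1c8e06_ag.CY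

open Pool.Agent.MP_1c8e06_ag.AJ

noncomputable section

set_option linter.unusedSectionVars false

variable {Om : Type} [NormedField Om] [CompleteSpace Om] [IsUltrametricDist Om] [IsAlgClosed Om]

/-- `f` is a limit at `w` of Laurent polynomials whose expansions `e` have no terms below `N`. -/
private def O5_Ap (w : Pt Om) (e : Lam Om →+* LaurentSeries Om) (N : ℤ) (f : RatFunc Om) : Prop :=
  ∀ et : ℝ, 0 < et → ∃ q : Lam Om, ‖w.ι f - lw w q‖ ≤ et ∧ ∀ n, n < N → (e q).coeff n = 0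

private theorem O5_coeff_mul {a b : LaurentSeries Om} {N M : ℤ} (ha : ∀ n, n < N → a.coeff n = 0)
    (hb : ∀ n, n < M → b.coeff n = 0) : ∀ n, n < N + M → (a * b).coeff n = 0 := by
  intro n hn
  rw [HahnSeries.coeff_mul]
  apply Finset.sum_eq_zero
  intro ij hij
  rw [Finset.mem_antidiagonal] at hij
  have h3 := hij.2.2
  by_cases h : ij.1 < N
  · rw [ha _ h, zero_mul]
  · rw [hb _ (by omega), mul_zero]

private theorem O5_coeff_one : ∀ n : ℤ, n < 0 → (1 : LaurentSeries Om).coeff n = 0 := by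
  intro n hn
  rw [HahnSeries.coeff_one, if_neg hn.ne]

private theorem O5_coeff_pow {a : LaurentSeries Om} (ha : ∀ n : ℤ, n < 0 → a.coeff n = 0) (m : ℕ) :
    ∀ n : ℤ, n < 0 → (a ^ m).coeff n = 0 := by
  induction m with
  | zero => rw [pow_zero]; exact O5_coeff_one
  | succ m ih =>
    rw [pow_succ]
    have h := O5_coeff_mul ih ha
    rwa [add_zero] at h

private theorem O5_Ap.base {w : Pt Om} {e : Lam Om →+* LaurentSeries Om} {N : ℤ} {q : Lam Om}
    {f : RatFunc Om} (hf : jF Om q = f) (hq : ∀ n, n < N → (e q).coeff n = 0) : O5_Ap w e N f := by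
  intro et het
  refine ⟨q, ?_, hq⟩
  rw [← hf]
  change ‖w.ι (jF Om q) - w.ι (jF Om q)‖ ≤ et
  rw [sub_self, norm_zero]
  exact het.le

private theorem O5_Ap.mul {w : Pt Om} {e : Lam Om →+* LaurentSeries Om} {N M : ℤ}
    {f g : RatFunc Om} (hf : O5_Ap w e N f) (hg : O5_Ap w e M g) : O5_Ap w e (N + M) (f * g) := by
  intro et het
  have hF : 0 < ‖w.ι f‖ + 1 := by positivity
  obtain ⟨q', h1, h2⟩ := hg (min 1 (et / (‖w.ι f‖ + 1))) (lt_min one_pos (by positivity))
  have hG : 0 < max ‖w.ι g‖ 1 := lt_of_lt_of_le one_pos (le_max_right _ _)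
  obtain ⟨q, h3, h4⟩ := hf (et / max ‖w.ι g‖ 1) (by positivity)
  refine ⟨q * q', ?_, ?_⟩
  · have h5 : w.ι (f * g) - lw w (q * q') =
        w.ι f * (w.ι g - lw w q') + (w.ι f - lw w q) * lw w q' := by
      rw [map_mul, map_mul]; ring
    have h6 : ‖lw w q'‖ ≤ max ‖w.ι g‖ 1 := by
      have h7 : lw w q' = w.ι g + -(w.ι g - lw w q') := by ring
      rw [h7]
      refine (w.norm_add _ _).trans (max_le_max le_rfl ?_)
      rw [norm_neg]
      exact h1.trans (min_le_left _ _)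
    rw [h5]
    refine (w.norm_add _ _).trans (max_le ?_ ?_)
    · rw [norm_mul]
      calc ‖w.ι f‖ * ‖w.ι g - lw w q'‖ ≤ (‖w.ι f‖ + 1) * (et / (‖w.ι f‖ + 1)) :=
            mul_le_mul (by linarith) (h1.trans (min_le_right _ _)) (norm_nonneg _) hF.le
        _ = et := by field_simp
    · rw [norm_mul]
      calc ‖w.ι f - lw w q‖ * ‖lw w q'‖ ≤ (et / max ‖w.ι g‖ 1) * max ‖w.ι g‖ 1 :=
            mul_le_mul h3 h6 (norm_nonneg _) (by positivity)
        _ = et := by field_simp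
  · rw [map_mul]
    exact O5_coeff_mul h4 h2

private theorem O5_Ap.one {w : Pt Om} {e : Lam Om →+* LaurentSeries Om} : O5_Ap w e 0 1 :=
  O5_Ap.base (q := 1) (map_one _) (by rw [map_one]; exact O5_coeff_one)

private theorem O5_prod0 {w : Pt Om} {e : Lam Om →+* LaurentSeries Om} (s : Multiset Om)
    (g : Om → RatFunc Om) (h : ∀ α ∈ s, O5_Ap w e 0 (g α)) : O5_Ap w e 0 (s.map g).prod := by
  induction s using Multiset.induction_on with
  | empty => rw [Multiset.map_zero, Multiset.prod_zero]; exact O5_Ap.one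
  | cons a s ih =>
    rw [Multiset.map_cons, Multiset.prod_cons]
    have h1 := (h a (Multiset.mem_cons_self a s)).mul
      (ih fun α hα => h α (Multiset.mem_cons_of_mem hα))
    rwa [add_zero] at h1

private theorem O5_prodE {w : Pt Om} {e : Lam Om →+* LaurentSeries Om} (s : Multiset Om)
    (g : Om → RatFunc Om) (h : ∀ α ∈ s, ∃ N, O5_Ap w e N (g α)) :
    ∃ N, O5_Ap w e N (s.map g).prod := by
  induction s using Multiset.induction_on with
  | empty => rw [Multiset.map_zero, Multiset.prod_zero]; exact ⟨0, O5_Ap.one⟩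
  | cons a s ih =>
    rw [Multiset.map_cons, Multiset.prod_cons]
    obtain ⟨N, h1⟩ := h a (Multiset.mem_cons_self a s)
    obtain ⟨M, h2⟩ := ih fun α hα => h α (Multiset.mem_cons_of_mem hα)
    exact ⟨N + M, h1.mul h2⟩

private theorem O5_geom {w : Pt Om} {e : Lam Om →+* LaurentSeries Om} {x : RatFunc Om}
    {qx : Lam Om} (hx : jF Om qx = x) (h0 : ∀ n : ℤ, n < 0 → (e qx).coeff n = 0)
    (h1 : w.v x < 1) : O5_Ap w e 0 (1 - x)⁻¹ := by
  have hv : 1 ≤ w.v (1 - x) := by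
    have h2 := w.na (1 - x) x
    rw [sub_add_cancel, map_one] at h2
    rcases le_max_iff.1 h2 with h3 | h3
    · exact h3
    · exact absurd h3 (not_le.2 h1)
  have hne : (1 - x) ≠ 0 := by
    intro h
    rw [h, map_zero] at hv
    exact absurd hv (not_le.2 one_pos)
  intro et het
  obtain ⟨m, hm⟩ := exists_pow_lt_of_lt_one het h1
  refine ⟨∑ i ∈ Finset.range m, qx ^ i, ?_, ?_⟩
  · have h3 : (1 - x)⁻¹ - ∑ i ∈ Finset.range m, x ^ i = x ^ m * (1 - x)⁻¹ := by
      have h4 := mul_neg_geom_sum x m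
      have h5 : ∑ i ∈ Finset.range m, x ^ i = (1 - x)⁻¹ * (1 - x ^ m) := by
        rw [← h4, ← mul_assoc, inv_mul_cancel₀ hne, one_mul]
      rw [h5]
      ring
    have h4 : w.ι (1 - x)⁻¹ - lw w (∑ i ∈ Finset.range m, qx ^ i) = w.ι (x ^ m * (1 - x)⁻¹) := by
      rw [← h3, map_sub]
      congr 1
      change w.ι (jF Om (∑ i ∈ Finset.range m, qx ^ i)) = _
      rw [map_sum]
      simp only [map_pow, hx]
    rw [h4, w.norm_ι, map_mul, map_pow, map_inv₀]
    have h5 : (w.v (1 - x))⁻¹ ≤ 1 := inv_le_one_of_one_le₀ hv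
    calc w.v x ^ m * (w.v (1 - x))⁻¹ ≤ w.v x ^ m * 1 :=
          mul_le_mul_of_nonneg_left h5 (pow_nonneg (w.v.nonneg _) _)
      _ ≤ et := by rw [mul_one]; exact hm.le
  · intro n hn
    rw [map_sum, HahnSeries.coeff_sum]
    apply Finset.sum_eq_zero
    intro i _
    rw [map_pow]
    exact O5_coeff_pow h0 i n hn

private theorem O5_jF_T_neg (d : ℕ) : jF Om (LaurentPolynomial.T (-(d : ℤ))) =
    ((RatFunc.X : RatFunc Om) ^ d)⁻¹ := by
  rw [jF, LaurentPolynomial.eval₂_T, zpow_neg, zpow_natCast, ← inv_pow, Units.val_pow_eq_pow_val,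
    Units.val_inv_eq_inv_val, inv_pow]
  rfl

private theorem O5_X_sub_ne (β : Om) : (RatFunc.X - RatFunc.C β : RatFunc Om) ≠ 0 := by
  have h : (RatFunc.X - RatFunc.C β : RatFunc Om) = algebraMap Om[X] (RatFunc Om) (X - C β) := by
    rw [map_sub, RatFunc.algebraMap_X, RatFunc.algebraMap_C]
  rw [h, Ne, map_eq_zero_iff _ (RatFunc.algebraMap_injective Om)]
  exact X_sub_C_ne_zero β

/-- Polynomials at `0`. -/
private theorem O5_poly0 (w : Pt Om) (P : Om[X]) :
    O5_Ap w (lz Om) 0 (algebraMap Om[X] (RatFunc Om) P) := by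
  refine O5_Ap.base (O3_jF_toLaurent P) fun n hn => ?_
  rw [O3_lz_coeff, O3_toLaurent_coeff_neg P n hn]

/-- `(X - β)⁻¹` at `0`. -/
private theorem O5_inv0 {r : ℝ} (hr : 0 < r) {β : Om} (h : r < ‖β‖) :
    O5_Ap (gp 0 r) (lz Om) 0 (RatFunc.X - RatFunc.C β)⁻¹ := by
  have hβ : β ≠ 0 := by
    rintro rfl
    rw [norm_zero] at h
    exact absurd h (not_lt.2 hr.le)
  have hCβ : (RatFunc.C β : RatFunc Om) ≠ 0 := by
    rw [Ne, map_eq_zero]
    exact hβ
  have h1 : O5_Ap (gp 0 r) (lz Om) 0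
      (1 - algebraMap Om[X] (RatFunc Om) (C β⁻¹ * X))⁻¹ := by
    refine O5_geom (O3_jF_toLaurent _) (fun n hn => ?_) ?_
    · rw [O3_lz_coeff, O3_toLaurent_coeff_neg _ n hn]
    · rw [map_mul, map_mul, RatFunc.algebraMap_X, RatFunc.algebraMap_C, gp_X hr, (gp 0 r).ext,
        norm_inv, inv_mul_lt_one₀ (hr.trans h)]
      exact h
  have h2 := (O5_poly0 (gp 0 r) (C (-β⁻¹))).mul h1
  rw [add_zero] at h2
  have h3 : (RatFunc.X - RatFunc.C β : RatFunc Om)⁻¹ = algebraMap Om[X] (RatFunc Om) (C (-β⁻¹)) *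
      (1 - algebraMap Om[X] (RatFunc Om) (C β⁻¹ * X))⁻¹ := by
    rw [map_mul, RatFunc.algebraMap_X, RatFunc.algebraMap_C, RatFunc.algebraMap_C, map_neg,
      map_inv₀]
    have h4 := O5_X_sub_ne β
    have h5 : (1 - (RatFunc.C β)⁻¹ * RatFunc.X : RatFunc Om) =
        -(RatFunc.C β)⁻¹ * (RatFunc.X - RatFunc.C β) := by
      rw [mul_sub, neg_mul, neg_mul, inv_mul_cancel₀ hCβ]
      ring
    rw [h5, mul_inv, ← mul_assoc, mul_inv_cancel₀ (neg_ne_zero.2 (inv_ne_zero hCβ)), one_mul]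
  rw [h3]
  exact h2

/-- `X⁻¹` at `0`. -/
private theorem O5_Xinv0 (w : Pt Om) : O5_Ap w (lz Om) (-1) (RatFunc.X - RatFunc.C 0)⁻¹ := by
  refine O5_Ap.base (q := LaurentPolynomial.T (-((1 : ℕ) : ℤ))) ?_ fun n hn => ?_
  · rw [O5_jF_T_neg, pow_one, map_zero, sub_zero]
  · rw [O3_lz_coeff, LaurentPolynomial.T, AddMonoidAlgebra.coeff_single, Finsupp.single_apply,
      if_neg]
    intro h
    push_cast at h
    omega

/-- `X (X - β)⁻¹` at infinity. -/
private theorem O5_inv1 {r : ℝ} (hr : 0 < r) {β : Om} (h : ‖β‖ < r) :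
    O5_Ap (gp 0 r) (lzi Om) 0 (RatFunc.X * (RatFunc.X - RatFunc.C β)⁻¹) := by
  have h1 : O5_Ap (gp 0 r) (lzi Om) 0 (1 - RatFunc.C β * (RatFunc.X)⁻¹)⁻¹ := by
    refine O5_geom (qx := LaurentPolynomial.C β * LaurentPolynomial.T (-((1 : ℕ) : ℤ))) ?_
      (fun n hn => ?_) ?_
    · rw [map_mul, O5_jF_T_neg, pow_one, jF, LaurentPolynomial.eval₂_C]
    · rw [O3_lzi_coeff, ← LaurentPolynomial.single_eq_C_mul_T, AddMonoidAlgebra.coeff_single,
        Finsupp.single_apply, if_neg]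
      intro h
      push_cast at h
      omega
    · rw [map_mul, map_inv₀, gp_X hr, (gp 0 r).ext, ← div_eq_mul_inv, div_lt_one hr]
      exact h
  have h3 : (RatFunc.X * (RatFunc.X - RatFunc.C β)⁻¹ : RatFunc Om) =
      (1 - RatFunc.C β * (RatFunc.X)⁻¹)⁻¹ := by
    have h5 : (1 - RatFunc.C β * (RatFunc.X)⁻¹ : RatFunc Om) =
        (RatFunc.X - RatFunc.C β) * (RatFunc.X)⁻¹ := by
      rw [sub_mul, mul_inv_cancel₀ RatFunc.X_ne_zero]
    rw [h5, mul_inv, inv_inv, mul_comm]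
  rw [h3]
  exact h1

/-- `P X⁻ᵈ` at infinity. -/
private theorem O5_poly1 (w : Pt Om) (P : Om[X]) (d : ℕ) :
    O5_Ap w (lzi Om) ((d : ℤ) - P.natDegree)
      (algebraMap Om[X] (RatFunc Om) P * ((RatFunc.X : RatFunc Om) ^ d)⁻¹) := by
  refine O5_Ap.base (q := toLaurent P * LaurentPolynomial.T (-(d : ℤ))) ?_ fun n hn => ?_
  · rw [map_mul, O5_jF_T_neg, O3_jF_toLaurent]
  · rw [O3_lzi_coeff, O3_mul_T_coeff]
    obtain ⟨i, hi⟩ := Int.eq_ofNat_of_zero_le (show 0 ≤ -n - -(d : ℤ) by omega)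
    rw [hi]
    change (toLaurent P).coeff (i : ℤ) = 0
    rw [O3_toLaurent_coeff]
    apply coeff_eq_zero_of_natDegree_lt
    omega

private theorem O5_denom (q : RatFunc Om) : algebraMap Om[X] (RatFunc Om) q.denom =
    (q.denom.roots.map fun α => (RatFunc.X - RatFunc.C α : RatFunc Om)).prod := by
  have hd : q.denom = (q.denom.roots.map (X - C ·)).prod :=
    (IsAlgClosed.splits q.denom).eq_prod_roots_of_monic (RatFunc.monic_denom q)
  conv_lhs => rw [hd]
  rw [map_multiset_prod, Multiset.map_map]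
  congr 1
  refine Multiset.map_congr rfl fun α _ => ?_
  rw [Function.comp_apply, map_sub, RatFunc.algebraMap_X, RatFunc.algebraMap_C]

private theorem O5_inv_prod (s : Multiset Om) :
    (s.map fun α => (RatFunc.X - RatFunc.C α : RatFunc Om)).prod⁻¹ =
      (s.map fun α => (RatFunc.X - RatFunc.C α : RatFunc Om)⁻¹).prod := by
  induction s using Multiset.induction_on with
  | empty => rw [Multiset.map_zero, Multiset.map_zero, Multiset.prod_zero, inv_one]
  | cons a s ih =>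
    rw [Multiset.map_cons, Multiset.map_cons, Multiset.prod_cons, Multiset.prod_cons, mul_inv, ih]

private theorem O5_inv_prod' (s : Multiset Om) :
    (s.map fun α => (RatFunc.X - RatFunc.C α : RatFunc Om)).prod⁻¹ =
      ((RatFunc.X : RatFunc Om) ^ s.card)⁻¹ *
        (s.map fun α => (RatFunc.X * (RatFunc.X - RatFunc.C α)⁻¹ : RatFunc Om)).prod := by
  rw [Multiset.prod_map_mul, Multiset.map_const', Multiset.prod_replicate, ← mul_assoc,
    inv_mul_cancel₀ (pow_ne_zero _ RatFunc.X_ne_zero), one_mul, O5_inv_prod]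

private theorem O5_root {q : RatFunc Om} {α : Om} (h : α ∈ q.denom.roots) :
    q.denom.eval α = 0 := (Polynomial.mem_roots'.1 h).2

/-- Expansion at infinity of a rational function with poles in the open disc. -/
private theorem O5_at1 {r : ℝ} (hr : 0 < r) (q : RatFunc Om)
    (h : ∀ α ∈ q.denom.roots, ‖α‖ < r) :
    O5_Ap (gp 0 r) (lzi Om) ((q.denom.natDegree : ℤ) - q.num.natDegree) q := by
  have h1 := (O5_poly1 (gp 0 r) q.num q.denom.natDegree).mul
    (O5_prod0 (w := gp 0 r) (e := lzi Om) q.denom.roots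
      (fun α => (RatFunc.X * (RatFunc.X - RatFunc.C α)⁻¹ : RatFunc Om))
      fun α hα => O5_inv1 hr (h α hα))
  rw [add_zero] at h1
  have h2 : q = algebraMap Om[X] (RatFunc Om) q.num *
      ((RatFunc.X : RatFunc Om) ^ q.denom.natDegree)⁻¹ *
      (q.denom.roots.map fun α => (RatFunc.X * (RatFunc.X - RatFunc.C α)⁻¹ : RatFunc Om)).prod := by
    conv_lhs => rw [← RatFunc.num_div_denom q]
    rw [div_eq_mul_inv, O5_denom, O5_inv_prod', mul_assoc,
      (IsAlgClosed.splits q.denom).natDegree_eq_card_roots]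
  conv_rhs => rw [h2]
  exact h1

/-- Expansion at `0`. -/
private theorem O5_eq0 (q : RatFunc Om) : q = algebraMap Om[X] (RatFunc Om) q.num *
    (q.denom.roots.map fun α => (RatFunc.X - RatFunc.C α : RatFunc Om)⁻¹).prod := by
  conv_lhs => rw [← RatFunc.num_div_denom q]
  rw [div_eq_mul_inv, O5_denom, O5_inv_prod]

private theorem O5_mk (H : HC Om) {q : RatFunc Om} (hq : q ∈ Reg H.X) {N0 N1 : ℤ}
    (h0 : O5_Ap (gp 0 H.r0) (lz Om) N0 q) (h1 : O5_Ap (gp 0 H.r1) (lzi Om) N1 q) :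
    ∃ z : H.OO, (∀ n, n < N0 → (H.e0 z).coeff n = 0) ∧ (∀ n, n < N1 → (H.e1 z).coeff n = 0) ∧
      ∀ v, H.cmp v z = (H.pt v).ι q := by
  obtain ⟨a, ha, ha'⟩ := exists_CR (cre_lz H.r0_pos) ((gp 0 H.r0).ι q) N0 h0
  obtain ⟨b, hb, hb'⟩ := exists_CR (cre_lzi (H.r0_pos.trans H.r0_lt)) ((gp 0 H.r1).ι q) N1 h1
  have hO : (fun v => (H.pt v).ι q) ∈ H.O := by
    rw [H.mem_O]
    intro et het
    refine ⟨q, hq, fun v => ?_⟩
    rw [sub_self, norm_zero]
    exact het
  exact ⟨⟨(fun v => (H.pt v).ι q, a, b), hO, ha', hb'⟩, ha, hb, fun v => rfl⟩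

private theorem O5_X (H : HC Om) {α : Om} (h : α ∈ H.X) : α ≠ 0 ∧ ∀ j, α ∉ H.D j := by
  obtain ⟨h1, h2, h3⟩ := h
  refine ⟨?_, fun j hj => ?_⟩
  · rintro rfl
    rw [norm_zero] at h1
    exact absurd H.r0_pos (not_lt.2 h1)
  · exact absurd (h3 j) (not_le.2 hj)

theorem HC.exists_emb (H : HC Om) {q : RatFunc Om}
    (hq : q ∈ Reg {α : Om | α ≠ 0 ∧ ∀ j, α ∉ H.D j}) :
    ∃ z : H.OO, ∀ v, H.cmp v z = (H.pt v).ι q := by
  have hroot : ∀ α ∈ q.denom.roots, α = 0 ∨ ∃ j, α ∈ H.D j := by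
    intro α hα
    by_contra hc
    push Not at hc
    exact hq α hc (O5_root hα)
  have hX : q ∈ Reg H.X := fun α hα => hq α (O5_X H hα)
  obtain ⟨N, hN⟩ := O5_prodE (w := gp 0 H.r0) (e := lz Om) q.denom.roots
    (fun α => (RatFunc.X - RatFunc.C α : RatFunc Om)⁻¹) (by
      intro α hα
      rcases hroot α hα with rfl | ⟨j, hj⟩
      · exact ⟨-1, O5_Xinv0 _⟩
      · refine ⟨0, O5_inv0 H.r0_pos ?_⟩
        rw [H.norm_mem j hj]
        exact H.c_gt j)
  have h0 : O5_Ap (gp 0 H.r0) (lz Om) (0 + N) q := by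
    rw [O5_eq0 q]
    exact (O5_poly0 _ _).mul hN
  have h1 := O5_at1 (H.r0_pos.trans H.r0_lt) q (by
    intro α hα
    rcases hroot α hα with rfl | ⟨j, hj⟩
    · rw [norm_zero]; exact H.r0_pos.trans H.r0_lt
    · rw [H.norm_mem j hj]
      exact H.c_lt j)
  obtain ⟨z, -, -, hz⟩ := O5_mk H hX h0 h1
  exact ⟨z, hz⟩

theorem HC.exists_emb_pol (H : HC Om) {q : RatFunc Om}
    (hq : IsPol {α : Om | ∃ j, α ∈ H.D j} q) :
    ∃ z : H.OO, H.Rg z ∧ ∀ v, H.cmp v z = (H.pt v).ι q := by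
  have hroot : ∀ α ∈ q.denom.roots, ∃ j, α ∈ H.D j := by
    intro α hα
    by_contra hc
    exact hq.1 α hc (O5_root hα)
  have hX : q ∈ Reg H.X := fun α hα => hq.1 α (by
    rintro ⟨j, hj⟩
    exact (O5_X H hα).2 j hj)
  have hp := O5_prod0 (w := gp 0 H.r0) (e := lz Om) q.denom.roots
    (fun α => (RatFunc.X - RatFunc.C α : RatFunc Om)⁻¹) (by
      intro α hα
      obtain ⟨j, hj⟩ := hroot α hα
      refine O5_inv0 H.r0_pos ?_
      rw [H.norm_mem j hj]
      exact H.c_gt j)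
  have h0 : O5_Ap (gp 0 H.r0) (lz Om) 0 q := by
    have h := (O5_poly0 (gp 0 H.r0) q.num).mul hp
    rw [← O5_eq0 q, add_zero] at h
    exact h
  have h1 := O5_at1 (H.r0_pos.trans H.r0_lt) q (by
    intro α hα
    obtain ⟨j, hj⟩ := hroot α hα
    rw [H.norm_mem j hj]
    exact H.c_lt j)
  obtain ⟨z, hz0, hz1, hz⟩ := O5_mk H hX h0 h1
  refine ⟨z, ⟨hz0, fun n hn => hz1 n ?_⟩, hz⟩
  rcases hq.2 with h | h
  · rw [h, RatFunc.num_zero, RatFunc.denom_zero, natDegree_zero, natDegree_one]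
    exact hn
  · omega

end

end Pool.Agent.MP_1c8e06_ag.CY
end

section

/-!
# CY O7: Neumann series; one step of the gluing at a hole

`neumann`: W := ∑_k (1 - M)^k.  Entries: for ultrametric norms the entries of (1-M)^k have norm ≤ δ^k
(matrix product: ‖∑ a_l b_l‖ ≤ max), so the series of each entry converges in the complete field E
(Cauchy, ultrametric), W has entries in the closed subring T, M W = W M = 1 (limit of
(1 - D) ∑_{k<n} D^k = 1 - D^n, D = 1 - M), and ‖(W - 1) l m‖ ≤ δ.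
`HC.hole_step`: choose a rational function q with ‖y - ι q‖ < et (`Pt.exists_near`), q = q1 + q2 with
IsPol (D_j) q1, q2 ∈ Reg (D_j) (`exists_split`, GA4).  z := the element of OO given by q1 (`HC.exists_emb_pol`,
O5, with IsPol.mono).  For every boundary point w: w(u - c_j) ≥ ρ_j (`HC.dom_pt`), so `pol_le` (GA6):
w(q1) ≤ (gp c_j ρ_j)(q1) ≤ (gp c_j ρ_j)(q) ≤ max ‖y‖ et (`split_norm_open`, GA5).  For i ≠ j the function q1 is
regular on D_i (`IsPol.reg`, `HC.disj`), so ι q1 ∈ H.T i (`mem_TT`).  τ := ι q2 ∈ H.T j and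
y - ι q1 - ι q2 = y - ι q.
-/

set_option autoImplicit false

open Polynomial
open scoped Classical

namespace Pool.Agent.MP_1c8e06_ag.CY

open Pool.Agent.MP_1c8e06_ag.AJ

noncomputable section

set_option linter.unusedSectionVars false

variable {Om : Type} [NormedField Om] [CompleteSpace Om] [IsUltrametricDist Om] [IsAlgClosed Om]

private theorem o7_pow_norm {E : Type} [NormedField E] [IsUltrametricDist E]
    {G : Type} [Fintype G] (D : Matrix G G E) {δ : ℝ} (h0 : 0 ≤ δ)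
    (h : ∀ l m, ‖D l m‖ ≤ δ) (k : ℕ) : ∀ l m, ‖(D ^ k) l m‖ ≤ δ ^ k := by
  induction k with
  | zero =>
    intro l m
    rw [pow_zero, pow_zero, Matrix.one_apply]
    split_ifs
    · rw [norm_one]
    · rw [norm_zero]; exact zero_le_one
  | succ k ih =>
    intro l m
    rw [pow_succ, Matrix.mul_apply]
    refine IsUltrametricDist.norm_sum_le_of_forall_le_of_nonneg (pow_nonneg h0 _) fun x _ => ?_
    rw [norm_mul, pow_succ]
    exact mul_le_mul (ih l x) (h x m) (norm_nonneg _) (pow_nonneg h0 _)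

private theorem o7_pow_mem {E : Type} [NormedField E] {G : Type} [Fintype G] (T : Subring E)
    (D : Matrix G G E) (h : ∀ l m, D l m ∈ T) (k : ℕ) : ∀ l m, (D ^ k) l m ∈ T := by
  induction k with
  | zero =>
    intro l m
    rw [pow_zero, Matrix.one_apply]
    split_ifs
    · exact T.one_mem
    · exact T.zero_mem
  | succ k ih =>
    intro l m
    rw [pow_succ, Matrix.mul_apply]
    exact T.sum_mem fun x _ => T.mul_mem (ih l x) (h x m)

theorem neumann {E : Type} [NormedField E] [CompleteSpace E] [IsUltrametricDist E]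
    {G : Type} [Fintype G] (T : Subring E) (hT : IsClosed (T : Set E)) (M : Matrix G G E)
    (hM : ∀ l m, M l m ∈ T) {δ : ℝ} (h0 : 0 ≤ δ) (hδ : δ < 1) (h : ∀ l m, ‖(M - 1) l m‖ ≤ δ) :
    ∃ W : Matrix G G E, (∀ l m, W l m ∈ T) ∧ M * W = 1 ∧ W * M = 1 ∧ ∀ l m, ‖(W - 1) l m‖ ≤ δ := by
  set D : Matrix G G E := 1 - M with hD
  have hDn : ∀ l m, ‖D l m‖ ≤ δ := by
    intro l m
    have h1 : D l m = -((M - 1) l m) := by
      rw [hD, Matrix.sub_apply, Matrix.sub_apply]; ring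
    rw [h1, norm_neg]
    exact h l m
  have hone : ∀ l m, (1 : Matrix G G E) l m ∈ T := by
    intro l m
    rw [Matrix.one_apply]
    split_ifs
    · exact T.one_mem
    · exact T.zero_mem
  have hDm : ∀ l m, D l m ∈ T := fun l m => T.sub_mem (hone l m) (hM l m)
  have hn := o7_pow_norm D h0 hDn
  have hm := o7_pow_mem T D hDm
  have hs : ∀ l m, Summable fun k : ℕ => (D ^ k) l m := fun l m =>
    Summable.of_norm_bounded (summable_geometric_of_lt_one h0 hδ) fun k => hn k l m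
  have hs' : ∀ l m, Summable fun k : ℕ => (D ^ (k + 1)) l m := fun l m =>
    (summable_nat_add_iff (f := fun k : ℕ => (D ^ k) l m) 1).mpr (hs l m)
  let W : Matrix G G E := Matrix.of fun l m => ∑' k : ℕ, (D ^ k) l m
  have hW : ∀ l m, W l m = ∑' k : ℕ, (D ^ k) l m := fun l m => rfl
  have hW1 : ∀ l m, W l m = (1 : Matrix G G E) l m + ∑' k : ℕ, (D ^ (k + 1)) l m := by
    intro l m
    rw [hW, (hs l m).tsum_eq_zero_add, pow_zero]
  have hDW : ∀ l m, (D * W) l m = ∑' k : ℕ, (D ^ (k + 1)) l m := by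
    intro l m
    rw [Matrix.mul_apply]
    have h1 : ∀ x, D l x * W x m = ∑' k : ℕ, D l x * (D ^ k) x m := fun x => by
      rw [hW, tsum_mul_left]
    rw [Finset.sum_congr rfl fun x _ => h1 x,
      ← Summable.tsum_finsetSum fun x _ => (hs x m).mul_left (D l x)]
    refine tsum_congr fun k => ?_
    rw [pow_succ', Matrix.mul_apply]
  have hWD : ∀ l m, (W * D) l m = ∑' k : ℕ, (D ^ (k + 1)) l m := by
    intro l m
    rw [Matrix.mul_apply]
    have h1 : ∀ x, W l x * D x m = ∑' k : ℕ, (D ^ k) l x * D x m := fun x => by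
      rw [hW, tsum_mul_right]
    rw [Finset.sum_congr rfl fun x _ => h1 x,
      ← Summable.tsum_finsetSum fun x _ => (hs l x).mul_right (D x m)]
    refine tsum_congr fun k => ?_
    rw [pow_succ, Matrix.mul_apply]
  have hMD : M = 1 - D := by rw [hD]; simp
  refine ⟨W, fun l m => ?_, ?_, ?_, fun l m => ?_⟩
  · rw [hW]
    refine hT.mem_of_tendsto (hs l m).hasSum (Filter.Eventually.of_forall fun s => ?_)
    exact T.sum_mem fun k _ => hm k l m
  · rw [hMD, sub_mul, one_mul]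
    ext l m
    rw [Matrix.sub_apply, hDW, hW1, add_sub_cancel_right]
  · rw [hMD, mul_sub, mul_one]
    ext l m
    rw [Matrix.sub_apply, hWD, hW1, add_sub_cancel_right]
  · rw [Matrix.sub_apply, hW1, add_sub_cancel_left]
    refine le_of_tendsto (hs' l m).hasSum.norm (Filter.Eventually.of_forall fun s => ?_)
    refine IsUltrametricDist.norm_sum_le_of_forall_le_of_nonneg h0 fun k _ => ?_
    refine (hn (k + 1) l m).trans ?_
    rw [pow_succ]
    exact mul_le_of_le_one_left h0 (pow_le_one₀ h0 hδ.le)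

theorem HC.hole_step (H : HC Om) (j : H.J) (y : (H.pt (Sum.inl j)).E) {et : ℝ} (het : 0 < et) :
    ∃ z : H.OO, H.Rg z ∧ (∀ v, ‖H.cmp v z‖ ≤ max ‖y‖ et) ∧
      (∀ i, i ≠ j → H.cmp (Sum.inl i) z ∈ H.T i) ∧
      ∃ τ ∈ H.T j, ‖y - H.cmp (Sum.inl j) z - τ‖ ≤ et := by
  obtain ⟨q, hq⟩ := Pt.exists_near (H.pt (Sum.inl j)) y het
  obtain ⟨q1, q2, h1, h2, e⟩ := exists_split (H.D j) q
  obtain ⟨z, hz, hz2⟩ := H.exists_emb_pol (q := q1) (IsPol.mono h1 fun α hα => ⟨j, hα⟩)
  refine ⟨z, hz, fun v => ?_, fun i hi => ?_, (H.pt (Sum.inl j)).ι q2, ?_, ?_⟩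
  · rw [hz2, Pt.norm_ι]
    refine (pol_le (H.ρ_pos j) h1 (H.pt v) ((H.dom_pt v).2.2 j)).trans ?_
    have h3 : (gp (H.c j) (H.ρ j)).v q1 ≤ (gp (H.c j) (H.ρ j)).v q := by
      have h4 := split_norm_open (H.ρ_pos j) h1 h2
      rwa [← e] at h4
    refine h3.trans ?_
    have h5 : (gp (H.c j) (H.ρ j)).v q = ‖(H.pt (Sum.inl j)).ι q‖ := by
      rw [Pt.norm_ι]; rfl
    have h6 : (H.pt (Sum.inl j)).ι q = y + -(y - (H.pt (Sum.inl j)).ι q) := by ring
    rw [h5, h6]
    refine (Pt.norm_add _ _ _).trans ?_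
    rw [norm_neg]
    exact max_le_max le_rfl hq.le
  · rw [hz2]
    change (H.pt (Sum.inl i)).ι q1 ∈ TT (H.pt (Sum.inl i)) (H.D i)
    rw [mem_TT]
    intro et' het'
    refine ⟨q1, IsPol.reg h1 fun α hα => H.disj hi hα, ?_⟩
    rw [sub_self, norm_zero]
    exact het'
  · change (H.pt (Sum.inl j)).ι q2 ∈ TT (H.pt (Sum.inl j)) (H.D j)
    rw [mem_TT]
    intro et' het'
    refine ⟨q2, h2, ?_⟩
    rw [sub_self, norm_zero]
    exact het'
  · rw [hz2, sub_sub, ← map_add, ← e]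
    exact hq.le

end

end Pool.Agent.MP_1c8e06_ag.CY
end
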