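import Pool.Agent.Lib.MP_1c8e06_ag.Mg.G011
import Pool.Agent.Lib.MP_1c8e06_ag.Mg.G013
import Pool.Agent.Lib.MP_1c8e06_ag.Mg.G015
import Pool.Agent.Lib.MP_1c8e06_ag.AJ.Gb2
import Pool.Agent.Lib.MP_1c8e06_ag.Mg.G059

section

/-!
# CY O8: gluing: a matrix over OO with prescribed behaviour at the holes

THEOREM.  Θ_j ∈ Mat_G(E_{P_j}), all entries of Θ_j - 1 of norm < 1.  There are V, V' ∈ Mat_G(OO), V V' = V' V = 1,
such that V_j Θ_j and its inverse have entries in H.T j, for all j (V_j = V.map (H.cmp (inl j))).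

PROOF.  Choose 0 < δ < 1 with ‖(Θ_j - 1) l m‖ ≤ δ for all j, l, m (finitely many).  Construct V_n : Matrix G G OO
with V_0 = 1 and
(a) for n: each entry of V_{n+1} - V_n satisfies H.Rg and has norm ≤ δ^(n+1) at all boundary points v;
(b) for all j, l, m there is τ ∈ H.T j with ‖(V_n)_j Θ_j) l m - τ‖ ≤ δ^(n+1).
n = 0: (V_0)_j Θ_j = 1 + (Θ_j - 1), τ = entry of 1.  Step: let y_{j,l,m} := ((V_n)_j Θ_j) l m - τ_{j,l,m}, norm
≤ δ^(n+1); take z_{j,l,m} from `HC.hole_step` (O7) for y_{j,l,m} with et = δ^(n+2); Z_j := matrix (z_{j,l,m}),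
V_{n+1} := V_n - ∑_j Z_j.  Norms: ‖entries of Z_j at v‖ ≤ max (δ^(n+1)) (δ^(n+2)) = δ^(n+1).
((V_{n+1})_j Θ_j) l m = ((V_n)_jΘ_j) l m - ∑_i (cmp_j Z_i) l m - (∑_i cmp_j Z_i (Θ_j - 1)) l m.  The last term has norm
≤ δ^(n+1) δ.  The i ≠ j terms cmp_j Z_i l m are in H.T j; and ((V_n)_jΘ_j) l m - cmp_j (Z_j l m) = τ + y - cmp_j z =
(element of H.T j) + (norm ≤ δ^(n+2)).  So (b) for n + 1.
Limit: the entries of V_n - 1 satisfy H.Rg (sum of such) and are Cauchy at all v (geometric): `HC.exists_lim` (O4)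
gives V := 1 + limit.  (b) and closedness of H.T j (`Subring.isClosed_topologicalClosure`): V_jΘ_j ∈ Mat(H.T j):
the entries are limits of the (V_n)_jΘ_j entries, at distance ≤ δ^(n+1) from T_j.  All entries of V - 1 have norm
≤ δ at all v, so ‖(V_jΘ_j - 1) l m‖ ≤ δ: `neumann` (O7) with T = H.T j gives the inverse W in Mat(H.T j).
V': S_n := ∑_{k<n} (1 - V)^k; the entries of S_n - 1 satisfy H.Rg (products and sums of elements with H.Rg:
the coefficients below 0 of a product of two power series vanish) and are Cauchy at all v: limit V'; V V' = 1 and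
V' V = 1 because it holds at every boundary point (V S_n = 1 - (1-V)^n) and `HC.ext0` (O4).
-/

set_option autoImplicit false

open Polynomial
open scoped Classical

namespace Pool.Agent.MP_1c8e06_ag.CY

open Pool.Agent.MP_1c8e06_ag.AJ

noncomputable section

set_option linter.unusedSectionVars false

variable {Om : Type} [NormedField Om] [CompleteSpace Om] [IsUltrametricDist Om] [IsAlgClosed Om]

private theorem O8_coeff_mul {a b : LaurentSeries Om} (ha : ∀ n : ℤ, n < 0 → a.coeff n = 0)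
    (hb : ∀ n : ℤ, n < 0 → b.coeff n = 0) (n : ℤ) (hn : n < 0) : (a * b).coeff n = 0 := by
  rw [HahnSeries.coeff_mul]
  apply Finset.sum_eq_zero
  rintro ⟨i, j⟩ hij
  rw [Finset.mem_antidiagonal] at hij
  obtain ⟨-, -, hs⟩ := hij
  simp only at hs ⊢
  by_cases hi : i < 0
  · rw [ha i hi, zero_mul]
  · have hj : j < 0 := by omega
    rw [hb j hj, mul_zero]

theorem HC.Rg.add {H : HC Om} {a b : H.OO} (ha : H.Rg a) (hb : H.Rg b) : H.Rg (a + b) := by
  constructor
  · intro n hn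
    rw [map_add, HahnSeries.coeff_add, ha.1 n hn, hb.1 n hn, add_zero]
  · intro n hn
    rw [map_add, HahnSeries.coeff_add, ha.2 n hn, hb.2 n hn, add_zero]

theorem HC.Rg.mul {H : HC Om} {a b : H.OO} (ha : H.Rg a) (hb : H.Rg b) : H.Rg (a * b) := by
  constructor
  · intro n hn
    rw [map_mul]
    exact O8_coeff_mul ha.1 hb.1 n hn
  · intro n hn
    rw [map_mul]
    exact O8_coeff_mul ha.2 hb.2 n hn

theorem HC.Rg.neg {H : HC Om} {a : H.OO} (ha : H.Rg a) : H.Rg (-a) := by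
  constructor
  · intro n hn
    rw [map_neg, HahnSeries.coeff_neg, ha.1 n hn, neg_zero]
  · intro n hn
    rw [map_neg, HahnSeries.coeff_neg, ha.2 n hn, neg_zero]

theorem HC.Rg.one {H : HC Om} : H.Rg (1 : H.OO) := by
  constructor
  · intro n hn
    rw [map_one, HahnSeries.coeff_one, if_neg hn.ne]
  · intro n hn
    rw [map_one, HahnSeries.coeff_one, if_neg hn.ne]

private theorem O8_Rg_zero {H : HC Om} : H.Rg (0 : H.OO) := by
  have h := (HC.Rg.one (H := H)).add (HC.Rg.one (H := H)).neg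
  rwa [add_neg_cancel] at h

private theorem O8_Rg_sum {H : HC Om} {ι : Type} (s : Finset ι) (f : ι → H.OO)
    (h : ∀ i ∈ s, H.Rg (f i)) : H.Rg (∑ i ∈ s, f i) :=
  Finset.sum_induction f (fun z => H.Rg z) (fun _ _ => HC.Rg.add) O8_Rg_zero h

private theorem O8_Rg_mat_one {H : HC Om} {G : Type} [Fintype G] (l m : G) :
    H.Rg ((1 : Matrix G G H.OO) l m) := by
  rw [Matrix.one_apply]
  split_ifs
  · exact HC.Rg.one
  · exact O8_Rg_zero

private theorem O8_Rg_mat_mul {H : HC Om} {G : Type} [Fintype G] {A B : Matrix G G H.OO}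
    (hA : ∀ l m, H.Rg (A l m)) (hB : ∀ l m, H.Rg (B l m)) (l m : G) : H.Rg ((A * B) l m) := by
  rw [Matrix.mul_apply]
  exact O8_Rg_sum _ _ fun k _ => (hA l k).mul (hB k m)

private theorem O8_mul_norm {E : Type} [NormedField E] [IsUltrametricDist E] {G : Type} [Fintype G]
    {A B : Matrix G G E} {a b : ℝ} (ha : ∀ l m, ‖A l m‖ ≤ a) (hb : ∀ l m, ‖B l m‖ ≤ b)
    (h0 : 0 ≤ a) (h0' : 0 ≤ b) (l m : G) : ‖(A * B) l m‖ ≤ a * b := by
  rw [Matrix.mul_apply]
  apply IsUltrametricDist.norm_sum_le_of_forall_le_of_nonneg (mul_nonneg h0 h0')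
  intro k _
  rw [norm_mul]
  exact mul_le_mul (ha l k) (hb k m) (norm_nonneg _) h0

private theorem O8_nsub {E : Type} [NormedField E] [IsUltrametricDist E] (a b : E) :
    ‖a - b‖ ≤ max ‖a‖ ‖b‖ := by
  have h := IsUltrametricDist.norm_add_le_max a (-b)
  rwa [← sub_eq_add_neg, norm_neg] at h

private theorem O8_exists_delta {ι : Type} [Finite ι] (f : ι → ℝ) (hf : ∀ i, f i < 1) :
    ∃ δ : ℝ, 0 < δ ∧ δ < 1 ∧ ∀ i, f i ≤ δ := by
  rcases isEmpty_or_nonempty ι with h | h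
  · exact ⟨1 / 2, by norm_num, by norm_num, fun i => (h.false i).elim⟩
  · obtain ⟨i0, hi0⟩ := Finite.exists_max f
    exact ⟨max (f i0) (1 / 2), lt_max_of_lt_right (by norm_num), max_lt (hf i0) (by norm_num),
      fun i => (hi0 i).trans (le_max_left _ _)⟩

private theorem O8_step (H : HC Om) {G : Type} [Fintype G]
    (Θ : (j : H.J) → Matrix G G (H.pt (Sum.inl j)).E) {δ ε : ℝ} (hδ0 : 0 < δ) (hδ1 : δ < 1)
    (hε : 0 < ε) (hΘ : ∀ j l m, ‖(Θ j - 1) l m‖ ≤ δ) (V : Matrix G G H.OO)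
    (hV : ∀ j l m, ∃ τ ∈ H.T j, ‖(V.map (H.cmp (Sum.inl j)) * Θ j) l m - τ‖ ≤ ε) :
    ∃ V' : Matrix G G H.OO, (∀ l m, H.Rg (V' l m - V l m)) ∧
      (∀ l m v, ‖H.cmp v (V' l m - V l m)‖ ≤ ε) ∧
      ∀ j l m, ∃ τ ∈ H.T j, ‖(V'.map (H.cmp (Sum.inl j)) * Θ j) l m - τ‖ ≤ ε * δ := by
  choose τ hτ hτn using hV
  have hεδ : 0 < ε * δ := mul_pos hε hδ0
  have hεδ' : ε * δ ≤ ε := by nlinarith
  have hz : ∀ j l m, ∃ z : H.OO, H.Rg z ∧
      (∀ v, ‖H.cmp v z‖ ≤ max ‖(V.map (H.cmp (Sum.inl j)) * Θ j) l m - τ j l m‖ (ε * δ)) ∧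
      (∀ i, i ≠ j → H.cmp (Sum.inl i) z ∈ H.T i) ∧
      ∃ τ' ∈ H.T j, ‖(V.map (H.cmp (Sum.inl j)) * Θ j) l m - τ j l m -
        H.cmp (Sum.inl j) z - τ'‖ ≤ ε * δ :=
    fun j l m => H.hole_step j _ hεδ
  choose z hzR hzn hzT τ' hτ' hτn' using hz
  have hzn' : ∀ j l m v, ‖H.cmp v (z j l m)‖ ≤ ε := fun j l m v =>
    (hzn j l m v).trans (max_le (hτn j l m) hεδ')
  refine ⟨fun l m => V l m - ∑ j, z j l m, ?_, ?_, ?_⟩
  · intro l m
    have h1 : V l m - ∑ j, z j l m - V l m = -∑ j, z j l m := by ring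
    rw [h1]
    exact (O8_Rg_sum _ _ fun j _ => hzR j l m).neg
  · intro l m v
    have h1 : V l m - ∑ j, z j l m - V l m = -∑ j, z j l m := by ring
    rw [h1, map_neg, norm_neg, map_sum]
    apply IsUltrametricDist.norm_sum_le_of_forall_le_of_nonneg hε.le
    intro j _
    exact hzn' j l m v
  · intro j l m
    refine ⟨τ j l m + τ' j l m - ∑ i ∈ Finset.univ.erase j, H.cmp (Sum.inl j) (z i l m), ?_, ?_⟩
    · refine (H.T j).sub_mem ((H.T j).add_mem (hτ j l m) (hτ' j l m)) ?_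
      refine (H.T j).sum_mem fun i hi => ?_
      exact hzT i l m j (Finset.ne_of_mem_erase hi).symm
    · have h1 : (Matrix.map (fun l m => V l m - ∑ j, z j l m) (H.cmp (Sum.inl j)) * Θ j) l m =
          (V.map (H.cmp (Sum.inl j)) * Θ j) l m -
            (∑ i, H.cmp (Sum.inl j) (z i l m)) -
            ((Matrix.of fun l m => ∑ i, H.cmp (Sum.inl j) (z i l m)) * (Θ j - 1)) l m := by
        have h2 : (Matrix.map (fun l m => V l m - ∑ j, z j l m) (H.cmp (Sum.inl j))) =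
            V.map (H.cmp (Sum.inl j)) - Matrix.of fun l m => ∑ i, H.cmp (Sum.inl j) (z i l m) := by
          ext l m
          simp only [Matrix.map_apply, Matrix.sub_apply, Matrix.of_apply, map_sub, map_sum]
        rw [h2, mul_sub, mul_one, sub_mul, Matrix.sub_apply, Matrix.sub_apply, Matrix.of_apply]
        ring
      rw [h1, ← Finset.add_sum_erase _ _ (Finset.mem_univ j)]
      have h3 : (V.map (H.cmp (Sum.inl j)) * Θ j) l m -
            (H.cmp (Sum.inl j) (z j l m) +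
              ∑ i ∈ Finset.univ.erase j, H.cmp (Sum.inl j) (z i l m)) -
            ((Matrix.of fun l m => ∑ i, H.cmp (Sum.inl j) (z i l m)) * (Θ j - 1)) l m -
          (τ j l m + τ' j l m - ∑ i ∈ Finset.univ.erase j, H.cmp (Sum.inl j) (z i l m)) =
          ((V.map (H.cmp (Sum.inl j)) * Θ j) l m - τ j l m - H.cmp (Sum.inl j) (z j l m) -
            τ' j l m) -
          ((Matrix.of fun l m => ∑ i, H.cmp (Sum.inl j) (z i l m)) * (Θ j - 1)) l m := by
        ring
      rw [h3]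
      refine (O8_nsub _ _).trans (max_le (hτn' j l m) ?_)
      refine O8_mul_norm (fun l m => ?_) (hΘ j) hε.le hδ0.le l m
      rw [Matrix.of_apply]
      apply IsUltrametricDist.norm_sum_le_of_forall_le_of_nonneg hε.le
      intro i _
      exact hzn' i l m _

private theorem O8_tendsto_mul {E : Type} [NormedField E] {G : Type} [Fintype G]
    {A B : ℕ → Matrix G G E} {A' B' : Matrix G G E}
    (hA : ∀ l m, Filter.Tendsto (fun n => A n l m) Filter.atTop (nhds (A' l m)))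
    (hB : ∀ l m, Filter.Tendsto (fun n => B n l m) Filter.atTop (nhds (B' l m))) (l m : G) :
    Filter.Tendsto (fun n => (A n * B n) l m) Filter.atTop (nhds ((A' * B') l m)) := by
  simp only [Matrix.mul_apply]
  exact tendsto_finsetSum _ fun k _ => (hA l k).mul (hB k m)

/-- the geometric series over `OO` -/
private theorem O8_geom (H : HC Om) {G : Type} [Fintype G] (D : Matrix G G H.OO)
    (hR : ∀ l m, H.Rg (D l m)) {δ : ℝ} (hδ0 : 0 < δ) (hδ1 : δ < 1)
    (hD : ∀ l m v, ‖H.cmp v (D l m)‖ ≤ δ) :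
    ∃ V' : Matrix G G H.OO, (1 - D) * V' = 1 ∧ V' * (1 - D) = 1 := by
  have hpR : ∀ n l m, H.Rg ((D ^ n) l m) := by
    intro n
    induction n with
    | zero => intro l m; rw [pow_zero]; exact O8_Rg_mat_one l m
    | succ n ih => rw [pow_succ]; exact O8_Rg_mat_mul ih hR
  have hpn : ∀ n v l m, ‖H.cmp v ((D ^ n) l m)‖ ≤ δ ^ n := by
    intro n v
    induction n with
    | zero =>
      intro l m
      rw [pow_zero, pow_zero, Matrix.one_apply]
      split_ifs
      · rw [map_one, norm_one]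
      · rw [map_zero, norm_zero]; exact zero_le_one
    | succ n ih =>
      intro l m
      rw [pow_succ, pow_succ]
      have h1 : H.cmp v ((D ^ n * D) l m) =
          ((D ^ n).map (H.cmp v) * D.map (H.cmp v)) l m := by
        rw [← Matrix.map_mul]
        rfl
      rw [h1]
      exact O8_mul_norm ih (fun l m => hD l m v) (pow_nonneg hδ0.le n) hδ0.le l m
  set S : ℕ → Matrix G G H.OO := fun n => ∑ i ∈ Finset.range n, D ^ i with hS
  have hSR : ∀ n l m, H.Rg (S n l m) := by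
    intro n l m
    rw [hS]
    simp only [Matrix.sum_apply]
    exact O8_Rg_sum _ _ fun i _ => hpR i l m
  have hSc : ∀ l m v, CauchySeq fun n => H.cmp v (S n l m) := by
    intro l m v
    refine cauchySeq_of_le_geometric δ 1 hδ1 fun n => ?_
    rw [dist_comm, dist_eq_norm, ← map_sub, one_mul]
    have h1 : S (n + 1) l m - S n l m = (D ^ n) l m := by
      rw [hS]
      simp only [Finset.sum_range_succ, Matrix.add_apply]
      ring
    rw [h1]
    exact hpn n v l m
  have hlim : ∀ l m, ∃ z : H.OO, H.Rg z ∧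
      ∀ v, Filter.Tendsto (fun n => H.cmp v (S n l m)) Filter.atTop (nhds (H.cmp v z)) :=
    fun l m => H.exists_lim (fun n => S n l m) (fun n => hSR n l m) (hSc l m)
  choose W hWR hW using hlim
  have hpow0 : ∀ v l m, Filter.Tendsto (fun n => H.cmp v ((D ^ n) l m)) Filter.atTop (nhds 0) := by
    intro v l m
    rw [tendsto_zero_iff_norm_tendsto_zero]
    exact squeeze_zero (fun n => norm_nonneg _) (fun n => hpn n v l m)
      (tendsto_pow_atTop_nhds_zero_of_lt_one hδ0.le hδ1)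
  have hone : ∀ v l m, Filter.Tendsto (fun n => H.cmp v (((1 : Matrix G G H.OO) - D ^ n) l m)) Filter.atTop
      (nhds (H.cmp v ((1 : Matrix G G H.OO) l m))) := by
    intro v l m
    have h1 := (tendsto_const_nhds (x := H.cmp v ((1 : Matrix G G H.OO) l m))).sub (hpow0 v l m)
    rw [sub_zero] at h1
    refine h1.congr fun n => ?_
    rw [Matrix.sub_apply, map_sub]
  refine ⟨Matrix.of W, ?_, ?_⟩
  · refine Matrix.ext fun l m => ?_
    rw [← sub_eq_zero]
    have h0 : ((1 - D) * Matrix.of W) l m - (1 : Matrix G G H.OO) l m = 0 := by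
      apply H.ext0
      intro v
      rw [map_sub, sub_eq_zero]
      have h1 : Filter.Tendsto (fun n => H.cmp v (((1 - D) * S n) l m)) Filter.atTop
          (nhds (H.cmp v (((1 - D) * Matrix.of W) l m))) := by
        have h2 := O8_tendsto_mul (A := fun _ => (1 - D).map (H.cmp v))
          (B := fun n => (S n).map (H.cmp v)) (A' := (1 - D).map (H.cmp v))
          (B' := (Matrix.of W).map (H.cmp v)) (fun l m => tendsto_const_nhds)
          (fun l m => hW l m v) l m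
        rw [← Matrix.map_mul] at h2
        refine h2.congr fun n => ?_
        rw [← Matrix.map_mul]
        rfl
      refine tendsto_nhds_unique h1 ((hone v l m).congr fun n => ?_)
      rw [hS, mul_neg_geom_sum]
    exact h0
  · refine Matrix.ext fun l m => ?_
    rw [← sub_eq_zero]
    have h0 : (Matrix.of W * (1 - D)) l m - (1 : Matrix G G H.OO) l m = 0 := by
      apply H.ext0
      intro v
      rw [map_sub, sub_eq_zero]
      have h1 : Filter.Tendsto (fun n => H.cmp v ((S n * (1 - D)) l m)) Filter.atTop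
          (nhds (H.cmp v ((Matrix.of W * (1 - D)) l m))) := by
        have h2 := O8_tendsto_mul (B := fun _ => (1 - D).map (H.cmp v))
          (A := fun n => (S n).map (H.cmp v)) (B' := (1 - D).map (H.cmp v))
          (A' := (Matrix.of W).map (H.cmp v)) (fun l m => hW l m v)
          (fun l m => tendsto_const_nhds) l m
        rw [← Matrix.map_mul] at h2
        refine h2.congr fun n => ?_
        rw [← Matrix.map_mul]
        rfl
      refine tendsto_nhds_unique h1 ((hone v l m).congr fun n => ?_)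
      rw [hS, geom_sum_mul_neg]
    exact h0

theorem HC.glue (H : HC Om) {G : Type} [Fintype G]
    (Θ : (j : H.J) → Matrix G G (H.pt (Sum.inl j)).E) (hΘ : ∀ j l m, ‖(Θ j - 1) l m‖ < 1) :
    ∃ V V' : Matrix G G H.OO, V * V' = 1 ∧ V' * V = 1 ∧
      ∀ j, (∀ l m, (V.map (H.cmp (Sum.inl j)) * Θ j) l m ∈ H.T j) ∧
        ∃ W : Matrix G G (H.pt (Sum.inl j)).E, (∀ l m, W l m ∈ H.T j) ∧
          (V.map (H.cmp (Sum.inl j)) * Θ j) * W = 1 ∧
          W * (V.map (H.cmp (Sum.inl j)) * Θ j) = 1 := by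
  obtain ⟨δ, hδ0, hδ1, hδ⟩ := O8_exists_delta (ι := H.J × G × G)
    (fun i => ‖(Θ i.1 - 1) i.2.1 i.2.2‖) (fun i => hΘ i.1 i.2.1 i.2.2)
  have hΘδ : ∀ j l m, ‖(Θ j - 1) l m‖ ≤ δ := fun j l m => hδ (j, l, m)
  -- the sequence
  have hstep : ∀ (n : ℕ) (V : Matrix G G H.OO),
      (∀ j l m, ∃ τ ∈ H.T j, ‖(V.map (H.cmp (Sum.inl j)) * Θ j) l m - τ‖ ≤ δ ^ (n + 1)) →
      ∃ V' : Matrix G G H.OO, (∀ l m, H.Rg (V' l m - V l m)) ∧
        (∀ l m v, ‖H.cmp v (V' l m - V l m)‖ ≤ δ ^ (n + 1)) ∧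
        ∀ j l m, ∃ τ ∈ H.T j, ‖(V'.map (H.cmp (Sum.inl j)) * Θ j) l m - τ‖ ≤ δ ^ (n + 1 + 1) := by
    intro n V hV
    obtain ⟨V', h1, h2, h3⟩ := O8_step H Θ hδ0 hδ1 (pow_pos hδ0 (n + 1)) hΘδ V hV
    exact ⟨V', h1, h2, fun j l m => by rw [pow_succ]; exact h3 j l m⟩
  choose f hf1 hf2 hf3 using hstep
  have h0 : ∀ j l m, ∃ τ ∈ H.T j,
      ‖((1 : Matrix G G H.OO).map (H.cmp (Sum.inl j)) * Θ j) l m - τ‖ ≤ δ ^ (0 + 1) := by
    intro j l m
    refine ⟨(1 : Matrix G G (H.pt (Sum.inl j)).E) l m, ?_, ?_⟩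
    · rw [Matrix.one_apply]
      split_ifs
      · exact (H.T j).one_mem
      · exact (H.T j).zero_mem
    · rw [zero_add, pow_one, Matrix.map_one _ (map_zero _) (map_one _), one_mul]
      exact hΘδ j l m
  let sq : (n : ℕ) → {V : Matrix G G H.OO //
      ∀ j l m, ∃ τ ∈ H.T j, ‖(V.map (H.cmp (Sum.inl j)) * Θ j) l m - τ‖ ≤ δ ^ (n + 1)} :=
    fun n => Nat.rec ⟨1, h0⟩ (fun n V => ⟨f n V.1 V.2, hf3 n V.1 V.2⟩) n
  set U : ℕ → Matrix G G H.OO := fun n => (sq n).1 with hU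
  have hU0 : U 0 = 1 := rfl
  have hUs : ∀ n, U (n + 1) = f n (sq n).1 (sq n).2 := fun n => rfl
  have hUR : ∀ n l m, H.Rg (U (n + 1) l m - U n l m) := fun n => hf1 n (sq n).1 (sq n).2
  have hUn : ∀ n l m v, ‖H.cmp v (U (n + 1) l m - U n l m)‖ ≤ δ ^ (n + 1) := fun n =>
    hf2 n (sq n).1 (sq n).2
  have hUb : ∀ n j l m, ∃ τ ∈ H.T j,
      ‖((U n).map (H.cmp (Sum.inl j)) * Θ j) l m - τ‖ ≤ δ ^ (n + 1) := fun n => (sq n).2
  have hYR : ∀ n l m, H.Rg (U n l m - (1 : Matrix G G H.OO) l m) := by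
    intro n l m
    induction n with
    | zero => rw [hU0, sub_self]; exact O8_Rg_zero
    | succ n ih =>
      have h1 : U (n + 1) l m - (1 : Matrix G G H.OO) l m =
          (U (n + 1) l m - U n l m) + (U n l m - (1 : Matrix G G H.OO) l m) := by ring
      rw [h1]
      exact (hUR n l m).add ih
  have hYn : ∀ n l m v, ‖H.cmp v (U n l m - (1 : Matrix G G H.OO) l m)‖ ≤ δ := by
    intro n l m v
    induction n with
    | zero => rw [hU0, sub_self, map_zero, norm_zero]; exact hδ0.le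
    | succ n ih =>
      have h1 : U (n + 1) l m - (1 : Matrix G G H.OO) l m =
          (U (n + 1) l m - U n l m) + (U n l m - (1 : Matrix G G H.OO) l m) := by ring
      rw [h1, map_add]
      refine (IsUltrametricDist.norm_add_le_max _ _).trans (max_le ?_ ih)
      refine (hUn n l m v).trans ?_
      rw [pow_succ]
      exact mul_le_of_le_one_left hδ0.le (pow_le_one₀ hδ0.le hδ1.le)
  have hYc : ∀ l m v, CauchySeq fun n => H.cmp v (U n l m - (1 : Matrix G G H.OO) l m) := by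
    intro l m v
    refine cauchySeq_of_le_geometric δ δ hδ1 fun n => ?_
    rw [dist_comm, dist_eq_norm, ← map_sub]
    have h1 : U (n + 1) l m - (1 : Matrix G G H.OO) l m - (U n l m - (1 : Matrix G G H.OO) l m) =
        U (n + 1) l m - U n l m := by ring
    rw [h1]
    refine (hUn n l m v).trans (le_of_eq ?_)
    rw [pow_succ, mul_comm]
  have hlim : ∀ l m, ∃ z : H.OO, H.Rg z ∧
      ∀ v, Filter.Tendsto (fun n => H.cmp v (U n l m - (1 : Matrix G G H.OO) l m))
        Filter.atTop (nhds (H.cmp v z)) :=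
    fun l m => H.exists_lim (fun n => U n l m - (1 : Matrix G G H.OO) l m)
      (fun n => hYR n l m) (hYc l m)
  choose Z hZR hZ using hlim
  have hZn : ∀ l m v, ‖H.cmp v (Z l m)‖ ≤ δ := fun l m v =>
    le_of_tendsto (hZ l m v).norm (Filter.Eventually.of_forall fun n => hYn n l m v)
  obtain ⟨V', hV1, hV2⟩ := O8_geom H (-Matrix.of Z) (fun l m => (hZR l m).neg) hδ0 hδ1
    (fun l m v => by
      have h1 : (-Matrix.of Z) l m = -Z l m := rfl
      rw [h1, map_neg, norm_neg]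
      exact hZn l m v)
  refine ⟨1 - (-Matrix.of Z), V', hV1, hV2, fun j => ?_⟩
  have hVt : ∀ l m, Filter.Tendsto (fun n => ((U n).map (H.cmp (Sum.inl j))) l m) Filter.atTop
      (nhds (((1 - (-Matrix.of Z)).map (H.cmp (Sum.inl j))) l m)) := by
    intro l m
    have h1 := (tendsto_const_nhds (x := H.cmp (Sum.inl j) ((1 : Matrix G G H.OO) l m))).add
      (hZ l m (Sum.inl j))
    have h2 : ((1 - (-Matrix.of Z)).map (H.cmp (Sum.inl j))) l m =
        H.cmp (Sum.inl j) ((1 : Matrix G G H.OO) l m) + H.cmp (Sum.inl j) (Z l m) := by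
      rw [Matrix.map_apply, Matrix.sub_apply, ← map_add]
      congr 1
      have h3 : (-Matrix.of Z) l m = -Z l m := rfl
      rw [h3, sub_neg_eq_add]
    rw [h2]
    refine h1.congr fun n => ?_
    rw [Matrix.map_apply, ← map_add]
    congr 1
    ring
  have hcl : IsClosed ((H.T j : Subring _) : Set (H.pt (Sum.inl j)).E) :=
    Subring.isClosed_topologicalClosure _
  have hT : ∀ l m, ((1 - (-Matrix.of Z)).map (H.cmp (Sum.inl j)) * Θ j) l m ∈ H.T j := by
    intro l m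
    have h1 := O8_tendsto_mul (A := fun n => (U n).map (H.cmp (Sum.inl j))) (B := fun _ => Θ j)
      (A' := (1 - (-Matrix.of Z)).map (H.cmp (Sum.inl j))) (B' := Θ j) hVt
      (fun l m => tendsto_const_nhds) l m
    choose τ hτ hτn using fun n => hUb n j l m
    have h2 : Filter.Tendsto τ Filter.atTop
        (nhds (((1 - (-Matrix.of Z)).map (H.cmp (Sum.inl j)) * Θ j) l m)) := by
      have h3 : Filter.Tendsto (fun n => ((U n).map (H.cmp (Sum.inl j)) * Θ j) l m - τ n)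
          Filter.atTop (nhds 0) := by
        rw [tendsto_zero_iff_norm_tendsto_zero]
        refine squeeze_zero (fun n => norm_nonneg _) hτn ?_
        exact (tendsto_pow_atTop_nhds_zero_of_lt_one hδ0.le hδ1).comp
          (Filter.tendsto_add_atTop_nat 1)
      have h4 := h1.sub h3
      rw [sub_zero] at h4
      refine h4.congr fun n => ?_
      ring
    exact hcl.mem_of_tendsto h2 (Filter.Eventually.of_forall hτ)
  refine ⟨hT, ?_⟩
  have hM : ∀ l m, ‖(((1 - (-Matrix.of Z)).map (H.cmp (Sum.inl j)) * Θ j) - 1) l m‖ ≤ δ := by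
    intro l m
    have hA : (1 - (-Matrix.of Z)).map (H.cmp (Sum.inl j)) =
        1 + (Matrix.of Z).map (H.cmp (Sum.inl j)) := by
      rw [sub_neg_eq_add, Matrix.map_add _ (map_add _), Matrix.map_one _ (map_zero _) (map_one _)]
    have h1 : ((1 - (-Matrix.of Z)).map (H.cmp (Sum.inl j)) * Θ j) - 1 =
        ((Matrix.of Z).map (H.cmp (Sum.inl j)) + (Θ j - 1)) +
          (Matrix.of Z).map (H.cmp (Sum.inl j)) * (Θ j - 1) := by
      rw [hA]
      noncomm_ring
    rw [h1, Matrix.add_apply, Matrix.add_apply]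
    have hz' : ∀ l m, ‖((Matrix.of Z).map (H.cmp (Sum.inl j))) l m‖ ≤ δ := fun l m => hZn l m _
    refine (IsUltrametricDist.norm_add_le_max _ _).trans (max_le ?_ ?_)
    · exact (IsUltrametricDist.norm_add_le_max _ _).trans (max_le (hz' l m) (hΘδ j l m))
    · refine (O8_mul_norm hz' (hΘδ j) hδ0.le hδ0.le l m).trans ?_
      exact mul_le_of_le_one_left hδ0.le hδ1.le
  obtain ⟨W, hW1, hW2, hW3, -⟩ := neumann (H.T j) hcl _ hT hδ0.le hδ1 hM
  exact ⟨W, hW1, hW2, hW3⟩

end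

end Pool.Agent.MP_1c8e06_ag.CY
end

section

set_option autoImplicit false

open Polynomial
open scoped Classical

namespace Pool.Agent.MP_1c8e06_ag.AK

open Pool.Agent.MP_1c8e06_ag.AJ

noncomputable section

/-!
# Task AK G3: the largest subgroup reached

`H₀` is the largest subgroup with `RE p k i H₀`; `g := i u₀`, `i.range = zpowers g`.
* `sub_H0`: `re_sub`, `ncl_sub` (`AJ/G7.lean`) and `Ind`: `RE p k i M`, so `M ≤ H₀`.
* `cent_H0`: `op_conj` (`AJ/C4.lean`) gives `RE p k i (H₀ ⊔ c H₀ c⁻¹)`, so `c H₀ c⁻¹ ≤ H₀`, i.e. `BT.cj c H₀ ≤ H₀`, equality by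
  `BT.cj_eq_of_le` (`BT.cj c H = c H c⁻¹`, `BT/Defs.lean`; `H.map (MulAut.conj c)` is `cj c H`).
* `coprime_H0`: `M := clS (zpowers g) (Q ⊔ zpowers g)`; `M ≤ Q ⊔ zpowers g ≠ ⊤`; `coprime_first`, `sub_H0`: `M ≤ H₀`.  `coprime_second`:
  `q = m * c`; `BT.cj_mul`, `BT.cj_eq_self`, `cent_H0`.
-/

theorem sub_H0 {p : ℕ} [hp : Fact p.Prime] {k : Type} [Field k] [IsAlgClosed k] [CharP k p]
    (CC : Cls) {P G : Type} [Group P] [Fintype P] [Group G] [Fintype G] (i : P →* G)
    (hG : CC.mem G) (hind : Ind p k CC (Nat.card G)) (hP : IsPGroup p P)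
    (hi : Function.Injective i) (H₀ : Subgroup G) (hmax : ∀ H, RE p k i H → H ≤ H₀)
    (M : Subgroup G) (hM : M ≠ ⊤) (hiM : i.range ≤ M) (hcl : clS i.range M = M) : M ≤ H₀ := by
  have hH : ∀ u, i u ∈ M := fun u => hiM ⟨u, rfl⟩
  refine hmax M (re_sub i M hH ?_)
  refine hind P M (i.codRestrict M hH) (CC.sub G M hG) ?_ hP ?_ (ncl_sub i M hH hcl)
  · exact lt_of_le_of_ne (Subgroup.card_le_card_group M)
      (fun h => hM (Subgroup.eq_top_of_card_eq M h))
  · intro a b hab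
    exact hi (congrArg Subtype.val hab)

theorem cent_H0 {p : ℕ} [hp : Fact p.Prime] {k : Type} [Field k] [IsAlgClosed k] [CharP k p]
    {P G : Type} [Group P] [Fintype P] [Group G] [Fintype G] (i : P →* G)
    (hi : Function.Injective i) (H₀ : Subgroup G) (h0 : RE p k i H₀)
    (hmax : ∀ H, RE p k i H → H ≤ H₀) (c : G) (hc : ∀ u, c * i u = i u * c) :
    BT.cj c H₀ = H₀ := by
  have h1 := hmax _ (op_conj i hi H₀ h0 c hc)
  apply BT.cj_eq_of_le
  intro x hx
  rw [BT.mem_cj] at hx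
  refine (le_sup_right.trans h1) (Subgroup.mem_map.2 ⟨c⁻¹ * x * c, hx, ?_⟩)
  show c * (c⁻¹ * x * c) * c⁻¹ = x
  group

theorem coprime_H0 {p : ℕ} [hp : Fact p.Prime] {k : Type} [Field k] [IsAlgClosed k] [CharP k p]
    (CC : Cls) {P G : Type} [Group P] [Fintype P] [Group G] [Fintype G] (u₀ : P)
    (hu : orderOf u₀ = p) (hgen : ∀ u : P, ∃ n : ℕ, u = u₀ ^ n) (i : P →* G) (hG : CC.mem G)
    (hind : Ind p k CC (Nat.card G)) (hP : IsPGroup p P) (hi : Function.Injective i)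
    (H₀ : Subgroup G) (h0 : RE p k i H₀) (hmax : ∀ H, RE p k i H → H ≤ H₀) (Q : Subgroup G)
    (hQ : ¬ p ∣ Nat.card Q) (hQg : ∀ q ∈ Q, i u₀ * q * (i u₀)⁻¹ ∈ Q)
    (hne : Q ⊔ Subgroup.zpowers (i u₀) ≠ ⊤) (q : G) (hq : q ∈ Q) : BT.cj q H₀ = H₀ := by
  have hr : i.range = Subgroup.zpowers (i u₀) := by
    apply le_antisymm
    · rintro _ ⟨u, rfl⟩
      obtain ⟨n, rfl⟩ := hgen u
      rw [map_pow]
      exact Subgroup.npow_mem_zpowers _ n
    · rw [Subgroup.zpowers_le]
      exact ⟨u₀, rfl⟩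
  have hg : orderOf (i u₀) = p := by rw [orderOf_injective i hi, hu]
  have hle : clS (Subgroup.zpowers (i u₀)) (Q ⊔ Subgroup.zpowers (i u₀)) ≤
      Q ⊔ Subgroup.zpowers (i u₀) := by
    rw [clS, Subgroup.closure_le]
    rintro y ⟨a, ha, x, hx, rfl⟩
    have hx' : x ∈ Q ⊔ Subgroup.zpowers (i u₀) :=
      (le_sup_right : Subgroup.zpowers (i u₀) ≤ Q ⊔ Subgroup.zpowers (i u₀)) hx
    exact Subgroup.mul_mem _ (Subgroup.mul_mem _ ha hx') (Subgroup.inv_mem _ ha)
  have hM : clS (Subgroup.zpowers (i u₀)) (Q ⊔ Subgroup.zpowers (i u₀)) ≤ H₀ := by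
    refine sub_H0 CC i hG hind hP hi H₀ hmax _ ?_ ?_ ?_
    · intro h
      rw [h, top_le_iff] at hle
      exact hne hle
    · rw [hr]
      exact le_clS _ _
    · rw [hr]
      exact coprime_first (i u₀) hg Q hQ hQg
  obtain ⟨m, hm, c, hc, rfl⟩ := coprime_second (i u₀) hg Q hQ hQg q hq
  have hcu : ∀ u, c * i u = i u * c := by
    intro u
    obtain ⟨n, rfl⟩ := hgen u
    rw [map_pow]
    exact Commute.pow_right (show Commute c (i u₀) from hc) n
  rw [BT.cj_mul, cent_H0 i hi H₀ h0 hmax c hcu]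
  exact BT.cj_eq_self (hM hm)

end

end Pool.Agent.MP_1c8e06_ag.AK
end
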