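import Pool.Agent.Lib.MP_1c8e06_ag.Mg.G002
import Pool.Agent.Lib.MP_1c8e06_ag.CY.W13
import Pool.Agent.Lib.MP_1c8e06_ag.Mg.G003
import Pool.Agent.Lib.MP_1c8e06_ag.Mg.G008
import Pool.Agent.Lib.MP_1c8e06_ag.CY.Defs4
import Pool.Agent.Lib.MP_1c8e06_ag.CY.TI
import Pool.Agent.Lib.MP_1c8e06_ag.Mg.G012
import Pool.Agent.Lib.MP_1c8e06_ag.Mg.G014
import Pool.Agent.Lib.MP_1c8e06_ag.Mg.G013

section

set_option autoImplicit false

open Polynomial
open scoped Classical

namespace Pool.Agent.MP_1c8e06_ag.CY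

open Pool.Agent.MP_1c8e06_ag.AJ

noncomputable section

set_option linter.unusedSectionVars false

/-!
# TASK B5: the wild inertia group is nontrivial at every radius

`w := gp 0 r`, `E := w.E` (completion of `RatFunc Om`), `w.ι : RatFunc Om →+* w.E`, `‖w.ι f‖ = w.v f`, dense image
(`Pt.exists_near`), `lw w = w.ι.comp (jF Om) : Lam Om →+* w.E`.  `A := Al (D.S.map (lw w))`.
* `norm_grp`: `‖w.ι (RatFunc.C c)‖ = ‖c‖` (`w.ext`), `hV`.
* `exists_sep_seq`: `Om` is algebraically closed of characteristic `p`, so it contains infinitely many elements `a` with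
  `a ^ (p ^ n) = a` for some `n ≥ 1` (the roots of `X ^ (p^n) - X` are `p ^ n` distinct elements); such elements are closed under
  differences, and a nonzero one has norm `1` (`‖a‖ ^ (p^n - 1) = 1`).  Choose an injective sequence of such elements and map it by
  `w.ι ∘ RatFunc.C`.  (Alternative: `y i := (u / c) ^ i` with `‖c‖ = r`: `‖y^i - y^j‖ = (gp 0 r) ((u/c)^i - (u/c)^j) = 1`, Gauss norm
  of `X^i/c^i - X^j/c^j`.)
* `theoremJ`: suppose `InJ W g → g = 1` for all `g`.  `B4.exists_Sepb`: `b : A` with `Sepb W b`.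
  (1) there is `C ≥ 1` with `W.w (act g a) ≤ C * max_l ‖a l‖` for all `g`, `a`: `a = ∑ cst (a l) * e l`.
  (2) choose `f l : RatFunc Om` with `‖b l - w.ι (f l)‖` so small that `b1 := (fun l => w.ι (f l)) : A` satisfies
  `W.w (act g (b - b1)) < 1` for all `g`.  Then `Sepb W b1` (ultrametric: `w (act g b1) ≤ 1`,
  `act g b1 - act g' b1 = (act g b - act g' b) + small`).
  (3) common denominator: let `Q := ∏ l, (f l).denom` (nonzero polynomial), `c : Om` with `‖c‖ = (w.v (algebraMap Q))⁻¹`, `κ := c Q`: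
  `w.v κ = 1`, and `κ * f l = P_l` is a polynomial, so it is `jF Om q_l` for a Laurent polynomial `q_l` (`Polynomial.toLaurent`;
  `jF (toLaurent P) = algebraMap P`).  `b2 := (fun l => q_l) : Al D.S`; `mapA (lw w) b2 = cst (w.ι κ) * b1` and `W.w (cst (w.ι κ)) = 1`, so
  `W.w (act g (mapA b2)) = W.w (act g b1)` etc.
  (4) `W' : MS D.S (fun f => (gp 0 r).v (jF Om f))`, `W'.w a := W.w (mapA (lw w) a)` (`Al.mapA_cst`, `Pt.norm_ι`; `Al.mapA_act`).
  `Sepb W' b2`: contradiction to `theoremA` (`W13`).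
-/

variable {Om : Type} [NormedField Om] [CompleteSpace Om] [IsUltrametricDist Om] [IsAlgClosed Om]

theorem norm_grp (hV : ∀ r : ℝ, 0 < r → ∃ c : Om, ‖c‖ = r) (w : Pt Om) :
    ∀ r : ℝ, 0 < r → ∃ c : w.E, ‖c‖ = r := by
  intro r hr
  obtain ⟨c, hc⟩ := hV r hr
  exact ⟨w.ι (RatFunc.C c), by rw [Pt.norm_ι, w.ext, hc]⟩

theorem B5_infinite (p : ℕ) [Fact p.Prime] [CharP Om p] :
    (Function.periodicPts (frobenius Om p)).Infinite := by
  intro hfin
  have hp : 1 < p := (Fact.out : p.Prime).one_lt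
  set N : ℕ := hfin.toFinset.card with hN
  set n : ℕ := N + 1 with hn
  have hn0 : n ≠ 0 := Nat.succ_ne_zero _
  have hsep : (X ^ p ^ n - X : Om[X]).Separable :=
    galois_poly_separable p (p ^ n) (dvd_pow_self p hn0)
  have hdeg : (X ^ p ^ n - X : Om[X]).natDegree = p ^ n := by
    have h1 : 1 < p ^ n := Nat.one_lt_pow hn0 hp
    rw [natDegree_sub_eq_left_of_natDegree_lt, natDegree_X_pow]
    rw [natDegree_X_pow, natDegree_X]
    exact h1
  have hcard := Polynomial.card_rootSet_eq_natDegree (K := Om) hsep (IsAlgClosed.splits _)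
  rw [hdeg] at hcard
  have hsub : (X ^ p ^ n - X : Om[X]).rootSet Om ⊆ Function.periodicPts (frobenius Om p) := by
    intro a ha
    have h1 := Polynomial.aeval_eq_zero_of_mem_rootSet ha
    rw [map_sub, map_pow, aeval_X, sub_eq_zero] at h1
    refine ⟨n, Nat.pos_of_ne_zero hn0, ?_⟩
    change (frobenius Om p)^[n] a = a
    rw [iterate_frobenius, h1]
  have h2 : Fintype.card ((X ^ p ^ n - X : Om[X]).rootSet Om) ≤ N := by
    rw [← Set.toFinset_card]
    apply Finset.card_le_card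
    intro a ha
    rw [Set.mem_toFinset] at ha
    rw [Set.Finite.mem_toFinset]
    exact hsub ha
  have h3 : n < p ^ n := Nat.lt_pow_self hp
  omega

theorem B5_norm (p : ℕ) [Fact p.Prime] [CharP Om p] {a : Om}
    (ha : a ∈ Function.periodicPts (frobenius Om p)) (h0 : a ≠ 0) : ‖a‖ = 1 := by
  have hp : 1 < p := (Fact.out : p.Prime).one_lt
  obtain ⟨n, hn, h1⟩ := ha
  change (frobenius Om p)^[n] a = a at h1
  rw [iterate_frobenius] at h1
  have h2 : 1 < p ^ n := Nat.one_lt_pow hn.ne' hp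
  have h3 : a ^ (p ^ n - 1) = 1 := by
    have h4 : a ^ (p ^ n - 1) * a = 1 * a := by
      rw [← pow_succ, Nat.sub_add_cancel h2.le, h1, one_mul]
    exact mul_right_cancel₀ h0 h4
  have h4 : ‖a‖ ^ (p ^ n - 1) = 1 := by rw [← norm_pow, h3, norm_one]
  exact (pow_eq_one_iff_of_nonneg (norm_nonneg a) (by omega)).1 h4

theorem B5_sub (p : ℕ) [Fact p.Prime] [CharP Om p] {a b : Om}
    (ha : a ∈ Function.periodicPts (frobenius Om p))
    (hb : b ∈ Function.periodicPts (frobenius Om p)) :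
    a - b ∈ Function.periodicPts (frobenius Om p) := by
  obtain ⟨n, hn, h1⟩ := ha
  obtain ⟨m, hm, h2⟩ := hb
  refine ⟨n * m, Nat.mul_pos hn hm, ?_⟩
  have h3 := h1.mul_const m
  have h4 := h2.const_mul n
  change (frobenius Om p)^[n * m] (a - b) = a - b
  rw [iterate_map_sub, h3.eq, h4.eq]

theorem exists_sep_seq (p : ℕ) [Fact p.Prime] [CharP Om p] (w : Pt Om) :
    ∃ y : ℕ → w.E, (∀ i, ‖y i‖ ≤ 1) ∧ ∀ i j, i ≠ j → ‖y i - y j‖ = 1 := by
  set em := (B5_infinite (Om := Om) p).natEmbedding with hem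
  refine ⟨fun i => w.ι (RatFunc.C (em i : Om)), fun i => ?_, fun i j hij => ?_⟩
  · rw [Pt.norm_ι, w.ext]
    by_cases h0 : (em i : Om) = 0
    · rw [h0, norm_zero]
      exact zero_le_one
    · exact (B5_norm p (em i).2 h0).le
  · rw [← map_sub, ← map_sub, Pt.norm_ι, w.ext]
    refine B5_norm p (B5_sub p (em i).2 (em j).2) ?_
    intro h
    exact hij (em.injective (Subtype.ext (sub_eq_zero.1 h)))

section
variable {E : Type} [NormedField E] {G : Type} [Group G] [Fintype G] {S : SC E G}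

theorem B5_neg_one (W : MS S fun c => ‖c‖) (a : Al S) : W.w (-a) = W.w a := by
  have h : -a = Al.cst S (-1) * a := by rw [map_neg, map_one, neg_one_mul]
  rw [h, W.mul, W.cst, norm_neg, norm_one, one_mul]

theorem B5_sub_le (W : MS S fun c => ‖c‖) (a b : Al S) : W.w (a - b) ≤ max (W.w a) (W.w b) := by
  rw [sub_eq_add_neg]
  refine (W.add _ _).trans ?_
  rw [B5_neg_one]

theorem B5_sum_le (W : MS S fun c => ‖c‖) {ι : Type} (s : Finset ι) (f : ι → Al S) {M : ℝ}
    (hM : 0 ≤ M) (h : ∀ i ∈ s, W.w (f i) ≤ M) : W.w (∑ i ∈ s, f i) ≤ M := by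
  induction s using Finset.induction_on with
  | empty =>
    rw [Finset.sum_empty, ← map_zero (Al.cst S), W.cst, norm_zero]
    exact hM
  | insert a s ha ih =>
    rw [Finset.sum_insert ha]
    exact (W.add _ _).trans (max_le (h a (Finset.mem_insert_self _ _))
      (ih fun i hi => h i (Finset.mem_insert_of_mem hi)))

/-- The seminorm is bounded by the coordinates. -/
theorem B5_bound (W : MS S fun c => ‖c‖) : ∃ C : ℝ, 1 ≤ C ∧ ∀ (g : G) (a : Al S) (M : ℝ), 0 ≤ M →
    (∀ l, ‖a l‖ ≤ M) → W.w (Al.act S g a) ≤ C * M := by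
  refine ⟨1 + ∑ g, ∑ l, W.w (Al.act S g (Al.e S l)), ?_, ?_⟩
  · have h : 0 ≤ ∑ g, ∑ l, W.w (Al.act S g (Al.e S l)) :=
      Finset.sum_nonneg fun g _ => Finset.sum_nonneg fun l _ => W.nonneg _
    linarith
  · intro g a M hM h
    have h1 : ∀ l, W.w (Al.act S g (Al.e S l)) ≤ 1 + ∑ g, ∑ l, W.w (Al.act S g (Al.e S l)) := by
      intro l
      have h2 : W.w (Al.act S g (Al.e S l)) ≤ ∑ l, W.w (Al.act S g (Al.e S l)) :=
        Finset.single_le_sum (f := fun l => W.w (Al.act S g (Al.e S l)))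
          (fun l _ => W.nonneg _) (Finset.mem_univ l)
      have h3 : ∑ l, W.w (Al.act S g (Al.e S l)) ≤ ∑ g, ∑ l, W.w (Al.act S g (Al.e S l)) :=
        Finset.single_le_sum (f := fun g => ∑ l, W.w (Al.act S g (Al.e S l)))
          (fun g _ => Finset.sum_nonneg fun l _ => W.nonneg _) (Finset.mem_univ g)
      linarith
    have h0 : 0 ≤ 1 + ∑ g, ∑ l, W.w (Al.act S g (Al.e S l)) := (W.nonneg _).trans (h1 1)
    rw [Al.eq_sum S a, map_sum]
    refine B5_sum_le W _ _ (mul_nonneg h0 hM) fun l _ => ?_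
    rw [map_mul, Al.act_cst, W.mul, W.cst, mul_comm]
    exact mul_le_mul (h1 l) (h l) (norm_nonneg _) h0

/-- A small perturbation of a separating element is separating. -/
theorem B5_perturb (W : MS S fun c => ‖c‖) {b b1 : Al S} (hb : Sepb W b)
    (h : ∀ g, W.w (Al.act S g (b - b1)) < 1) : Sepb W b1 := by
  refine ⟨fun g => ?_, fun g g' hg => ?_⟩
  · have h1 : Al.act S g b1 = Al.act S g b - Al.act S g (b - b1) := by rw [map_sub]; abel
    rw [h1]
    exact (B5_sub_le W _ _).trans (max_le (hb.1 g) (h g).le)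
  · set u := Al.act S g (b - b1) - Al.act S g' (b - b1) with hu
    have hu1 : W.w u < 1 := (B5_sub_le W _ _).trans_lt (max_lt (h g) (h g'))
    have h1 : Al.act S g b1 - Al.act S g' b1 = (Al.act S g b - Al.act S g' b) - u := by
      rw [hu, map_sub, map_sub]; abel
    have h2 : Al.act S g b - Al.act S g' b = (Al.act S g b1 - Al.act S g' b1) + u := by
      rw [h1]; abel
    have h3 := hb.2 g g' hg
    apply le_antisymm
    · rw [h1]
      exact (B5_sub_le W _ _).trans (max_le h3.le hu1.le)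
    · by_contra h4
      rw [not_le] at h4
      have h5 : W.w (Al.act S g b - Al.act S g' b) < 1 := by
        rw [h2]
        exact (W.add _ _).trans_lt (max_lt h4 hu1)
      rw [h3] at h5
      exact lt_irrefl _ h5

end

theorem B5_jF_toLaurent {K : Type} [Field K] (P : K[X]) :
    jF K (toLaurent P) = algebraMap K[X] (RatFunc K) P := by
  induction P using Polynomial.induction_on' with
  | add p q hp hq => rw [map_add, map_add, hp, hq, map_add]
  | monomial n a =>
    rw [Polynomial.toLaurent_C_mul_T, map_mul, jF, LaurentPolynomial.eval₂_C,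
      LaurentPolynomial.eval₂_T, zpow_natCast, Units.val_pow_eq_pow_val, ← C_mul_X_pow_eq_monomial,
      map_mul, map_pow, RatFunc.algebraMap_C, RatFunc.algebraMap_X]
    rfl

/-- Common denominators. -/
theorem B5_denom {K ι : Type} [Field K] [Fintype ι] (f : ι → RatFunc K) :
    ∃ Q : K[X], Q ≠ 0 ∧ ∀ l, ∃ P : K[X],
      algebraMap K[X] (RatFunc K) Q * f l = algebraMap K[X] (RatFunc K) P := by
  refine ⟨∏ l, (f l).denom, Finset.prod_ne_zero_iff.2 fun l _ => RatFunc.denom_ne_zero _,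
    fun l => ?_⟩
  obtain ⟨R, hR⟩ : (f l).denom ∣ ∏ l, (f l).denom := Finset.dvd_prod_of_mem _ (Finset.mem_univ l)
  refine ⟨R * (f l).num, ?_⟩
  have h1 : algebraMap K[X] (RatFunc K) (f l).denom ≠ 0 := by
    rw [Ne, map_eq_zero_iff _ (RatFunc.algebraMap_injective K)]
    exact RatFunc.denom_ne_zero _
  have h2 : algebraMap K[X] (RatFunc K) (f l).num =
      f l * algebraMap K[X] (RatFunc K) (f l).denom := by
    have h3 := RatFunc.num_div_denom (f l)
    rwa [div_eq_iff h1] at h3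
  rw [hR, map_mul, map_mul, h2]
  ring

theorem theoremJ {G : Type} [Group G] [Fintype G] {p : ℕ} [Fact p.Prime] [CharP Om p] {x : G} {t : Om}
    (hV : ∀ r : ℝ, 0 < r → ∃ c : Om, ‖c‖ = r) (hx : orderOf x = p) (D : TPw p x t) (ht : 1 < ‖t‖)
    {r : ℝ} (hr : 0 < r) (W : MS (D.S.map (lw (gp 0 r))) fun c => ‖c‖) :
    ∃ g, g ≠ 1 ∧ InJ W g := by
  by_contra hcon
  have hJ : ∀ g, InJ W g → g = 1 := by
    intro g hg
    by_contra h1
    exact hcon ⟨g, h1, hg⟩
  obtain ⟨y, hy1, hy2⟩ := exists_sep_seq p (gp (0 : Om) r)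
  obtain ⟨b, hb⟩ := exists_Sepb (norm_grp hV (gp (0 : Om) r)) y hy1 hy2 W hJ
  obtain ⟨C, hC, hbd⟩ := B5_bound W
  have hC0 : 0 < C := one_pos.trans_le hC
  have het : 0 < 1 / (2 * C) := by positivity
  choose f hf using fun l => (gp (0 : Om) r).exists_near (b l) het
  set b1 : Al (D.S.map (lw (gp 0 r))) := fun l => (gp (0 : Om) r).ι (f l) with hb1
  have hS1 : Sepb W b1 := by
    refine B5_perturb W hb fun g => ?_
    refine (hbd g (b - b1) (1 / (2 * C)) het.le fun l => (hf l).le).trans_lt ?_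
    have h1 : C * (1 / (2 * C)) = 1 / 2 := by field_simp
    rw [h1]
    norm_num
  obtain ⟨Q, hQ, hP⟩ := B5_denom f
  choose P hP using hP
  have hQ0 : algebraMap Om[X] (RatFunc Om) Q ≠ 0 := by
    rw [Ne, map_eq_zero_iff _ (RatFunc.algebraMap_injective Om)]
    exact hQ
  have hv0 : 0 < (gp (0 : Om) r).v (algebraMap Om[X] (RatFunc Om) Q) := (gp (0 : Om) r).v.pos hQ0
  obtain ⟨c, hc⟩ := hV _ (inv_pos.2 hv0)
  set κ : RatFunc Om := RatFunc.C c * algebraMap Om[X] (RatFunc Om) Q with hκ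
  have hκ1 : (gp (0 : Om) r).v κ = 1 := by
    rw [hκ, map_mul, (gp (0 : Om) r).ext, hc, inv_mul_cancel₀ hv0.ne']
  set b2 : Al D.S := fun l => toLaurent (Polynomial.C c * P l) with hb2
  have hmap : Al.mapA D.S (lw (gp 0 r)) b2 =
      Al.cst (D.S.map (lw (gp 0 r))) ((gp (0 : Om) r).ι κ) * b1 := by
    refine Al.ext fun l => ?_
    rw [Al.mapA_apply, Al.cst_mul]
    change (gp (0 : Om) r).ι (jF Om (toLaurent (Polynomial.C c * P l))) =
      (gp (0 : Om) r).ι κ * (gp (0 : Om) r).ι (f l)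
    rw [B5_jF_toLaurent, map_mul, ← hP, RatFunc.algebraMap_C, ← map_mul, hκ, mul_assoc]
  have hκW : W.w (Al.cst (D.S.map (lw (gp 0 r))) ((gp (0 : Om) r).ι κ)) = 1 := by
    rw [W.cst, Pt.norm_ι, hκ1]
  let W' : MS D.S (fun f => (gp 0 r).v (jF Om f)) :=
    { w := fun a => W.w (Al.mapA D.S (lw (gp 0 r)) a)
      nonneg := fun a => W.nonneg _
      one := by rw [map_one, W.one]
      mul := fun a b => by rw [map_mul, W.mul]
      add := fun a b => by rw [map_add]; exact W.add _ _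
      cst := fun c => by
        rw [Al.mapA_cst, W.cst]
        exact Pt.norm_ι _ _ }
  have hact : ∀ g, Al.mapA D.S (lw (gp 0 r)) (Al.act D.S g b2) =
      Al.cst (D.S.map (lw (gp 0 r))) ((gp (0 : Om) r).ι κ) *
        Al.act (D.S.map (lw (gp 0 r))) g b1 := by
    intro g
    rw [Al.mapA_act, hmap, map_mul, Al.act_cst]
  refine theoremA hx D ht hr W' b2 ⟨fun g => ?_, fun g g' hg => ?_⟩
  · change W.w (Al.mapA D.S (lw (gp 0 r)) (Al.act D.S g b2)) ≤ 1
    rw [hact, W.mul, hκW, one_mul]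
    exact hS1.1 g
  · change W.w (Al.mapA D.S (lw (gp 0 r)) (Al.act D.S g b2 - Al.act D.S g' b2)) = 1
    rw [map_sub, hact, hact, ← mul_sub, W.mul, hκW, one_mul]
    exact hS1.2 g g' hg

end

end Pool.Agent.MP_1c8e06_ag.CY
end

section

set_option autoImplicit false

open Polynomial
open scoped Classical

namespace Pool.Agent.MP_1c8e06_ag.CY

open Pool.Agent.MP_1c8e06_ag.AJ

noncomputable section

/-!
# THEOREM B: at every radius there is exactly one `N`-idempotent
-/

variable {Om : Type} [NormedField Om] [CompleteSpace Om] [IsUltrametricDist Om] [IsAlgClosed Om]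

theorem charP_E (p : ℕ) [CharP Om p] (w : Pt Om) : CharP w.E p :=
  charP_of_injective_ringHom (f := w.ι.comp RatFunc.C) (RingHom.injective _) p

/-- THEOREM B. -/
theorem theoremB {G : Type} [Group G] [Fintype G] {p : ℕ} [Fact p.Prime] [CharP Om p] {x : G} {t : Om}
    (hV : ∀ r : ℝ, 0 < r → ∃ c : Om, ‖c‖ = r) (hx : orderOf x = p) (D : TPw p x t) (ht : 1 < ‖t‖)
    {N : Subgroup G} (hN : SEH p N) {r : ℝ} (hr : 0 < r) :
    ∃! ε : Al (D.S.map (lw (gp 0 r))), NI (D.S.map (lw (gp 0 r))) N ε := by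
  haveI := charP_E p (gp (0 : Om) r)
  obtain ⟨ε, hε⟩ := NI_exists p (norm_grp hV (gp 0 r)) hN (theoremJ hV hx D ht hr)
  exact ⟨ε, hε, fun ε' h' => NI_unique p (norm_grp hV (gp 0 r)) hN (theoremJ hV hx D ht hr) h' hε⟩

end

end Pool.Agent.MP_1c8e06_ag.CY
end

section

set_option autoImplicit false

open Polynomial
open scoped Classical

namespace Pool.Agent.MP_1c8e06_ag.CY

open Pool.Agent.MP_1c8e06_ag.AJ

noncomputable section

/-!
# Output of the blocks W, B, E: holes
-/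

variable {Om : Type} [NormedField Om] [CompleteSpace Om] [IsUltrametricDist Om] [IsAlgClosed Om]

theorem exists_holes {G : Type} [Group G] [Fintype G] {p : ℕ} [Fact p.Prime] [CharP Om p] {x : G} {t : Om}
    (hV : ∀ r : ℝ, 0 < r → ∃ c : Om, ‖c‖ = r) (hx : orderOf x = p) (D : TPw p x t) (ht : 1 < ‖t‖)
    {N : Subgroup G} (hN : SEH p N) {a a' d' d : ℝ} (ha : 0 < a) (haa : a < a') (had : a' < d')
    (hdd : d' < d) :
    ∃ (H : HC Om) (b : Al (D.S.map (jF Om))), a < H.r0 ∧ H.r0 < a' ∧ d' < H.r1 ∧ H.r1 < d ∧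
      (∀ l, b l ∈ Reg H.X) ∧ ∀ v, QA p D.S N b (H.pt v) :=
  theoremC7 hV (fun _ hr => theoremB hV hx D ht hN hr) ha haa had hdd

/-- Uniqueness of the `N`-idempotent at every radius. -/
theorem NI_unique_gp {G : Type} [Group G] [Fintype G] {p : ℕ} [Fact p.Prime] [CharP Om p] {x : G} {t : Om}
    (hV : ∀ r : ℝ, 0 < r → ∃ c : Om, ‖c‖ = r) (hx : orderOf x = p) (D : TPw p x t) (ht : 1 < ‖t‖)
    {N : Subgroup G} (hN : SEH p N) {r : ℝ} (hr : 0 < r) (e e' : Al (D.S.map (lw (gp 0 r))))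
    (he : NI _ N e) (he' : NI _ N e') : e = e' :=
  (theoremB hV hx D ht hN hr).unique he he'

end

end Pool.Agent.MP_1c8e06_ag.CY
end

section

/-!
# CY G3: existence of the twisted and glued algebra (assembly)

PROOF.  For every hole j let de j > 0 be the number of `twist_hole` (TI) for S = D.S.map H.lam and θ = H.cmp (inl j).
Let C j > max_m ‖H.cmp (inl j) (l m)‖ (≥ 0), and take g, n0 from `exists_g` (La2) for a0, a1 and the numbers de j / (C j + 1).
lam := cst (H.lam g) * l.  lam m = H.lam g * l m, so ‖cmp (lam m)‖ ≤ ‖lw g‖ * C j < de j.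
TwD: el: ε * lam = lam; eq: act n (cst _) = cst _ (`Al.act_cst`) and hl'; hB: p = 0 in OO (characteristic p:
(p : OO) = H.lam (p : Lam Om) = 0).  lam0 := lz g * a0 (h0 (cst (H.lam g)) = ofL (e0 (lam g)) = ofL (lz g)), lam1 := lzi g * a1.
S' from `exists_twist`; Ph j from `twist_hole`; Θ j l m := (Ph j (e l)) m; ‖(Θ j - 1) l m‖ = ‖(Ph (e l) - e l) m‖ < 1.
`HC.glue` (O8): V, V'.  `exists_descent` (G2): S2.  The field `hole`: ∑_l cmp (a l) * Θ l m = (Ph j (∑ cst (cmp (a l)) e l)) m =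
(Ph j (fun l => cmp (a l))) m = cmp (a m) by the last clause of `twist_hole`.
-/

set_option autoImplicit false

open Polynomial
open scoped Classical

namespace Pool.Agent.MP_1c8e06_ag.CY

open Pool.Agent.MP_1c8e06_ag.AJ

noncomputable section

set_option linter.unusedSectionVars false

variable {Om : Type} [NormedField Om] [CompleteSpace Om] [IsUltrametricDist Om] [IsAlgClosed Om]
  {p : ℕ} [Fact p.Prime] [CharP Om p] {G : Type} [Group G] [Fintype G] {x : G} {t : Om}

theorem exists_GLD (D : TPw p x t) (ht : t ≠ 0) (H : HC Om) (N : Subgroup G) (hxN : x ∈ N)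
    (hx : orderOf x = p) (χ : G → ℕ) (hχ : ∀ n ∈ N, n * x * n⁻¹ = x ^ χ n)
    (ε : Al (D.S.map H.lam)) (hε : NI _ N ε) (l : Al (D.S.map H.lam)) (hl : ε * l = l)
    (hl' : ∀ n ∈ N, (χ n : Al (D.S.map H.lam)) * Al.act _ n l = l)
    {a0 a1 : LaurentSeries Om} (h0 : D.h0 H l = AI.ofL p (C t * X : Om[X]) a0) (ha0 : a0 ≠ 0)
    (h1 : D.h1 H l = AI.ofL p (C t * X : Om[X]) a1) (ha1 : a1 ≠ 0) :
    Nonempty (GLD D H N χ ε) := by
  have hde := fun j : H.J => twist_hole (p := p) (D.S.map H.lam) x N χ ε (H.cmp (Sum.inl j))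
  choose de hde0 hde1 using hde
  set Cj : H.J → ℝ := fun j => ∑ m, ‖H.cmp (Sum.inl j) (l m)‖ with hCj
  have hC0 : ∀ j, 0 ≤ Cj j := fun j => Finset.sum_nonneg fun m _ => norm_nonneg _
  have hC1 : ∀ j, 0 < Cj j + 1 := fun j => by have := hC0 j; linarith
  obtain ⟨g, n0, hg1, hn0, hp1, hp2, hg2⟩ := exists_g (p := p) H ht ha0 ha1
    (fun j => de j / (Cj j + 1)) (fun j => div_pos (hde0 j) (hC1 j))
  set lam : Al (D.S.map H.lam) := Al.cst _ (H.lam g) * l with hlam
  have hchar : ((p : ℕ) : H.OO) = 0 := by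
    have h2 : ((p : ℕ) : Lam Om) = 0 := by
      have h3 : ((p : ℕ) : Lam Om) = LaurentPolynomial.C ((p : ℕ) : Om) := by
        rw [map_natCast]
      rw [h3, CharP.cast_eq_zero, map_zero]
    have h4 := congrArg H.lam h2
    rwa [map_natCast, map_zero] at h4
  have tw : TwD p (D.S.map H.lam) x N χ ε lam :=
    { char := hchar
      ord := hx
      mem := hxN
      conj := hχ
      ni := hε
      el := by rw [hlam, mul_left_comm, hl]
      al := fun n hn => by
        rw [hlam, map_mul, Al.act_cst, mul_left_comm, hl' n hn] }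
  have hsm : ∀ j m, ‖H.cmp (Sum.inl j) (lam m)‖ < de j := by
    intro j m
    rw [hlam, Al.cst_mul, map_mul, norm_mul, H.cmp_lam]
    have h2 : ‖H.cmp (Sum.inl j) (l m)‖ ≤ Cj j :=
      Finset.single_le_sum (f := fun m => ‖H.cmp (Sum.inl j) (l m)‖)
        (fun m _ => norm_nonneg _) (Finset.mem_univ m)
    have h3 := hg2 j
    have h4 : ‖lw (H.pt (Sum.inl j)) g‖ * ‖H.cmp (Sum.inl j) (l m)‖ ≤
        de j / (Cj j + 1) * Cj j :=
      mul_le_mul h3.le h2 (norm_nonneg _) (div_pos (hde0 j) (hC1 j)).le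
    refine h4.trans_lt ?_
    rw [div_mul_eq_mul_div, div_lt_iff₀ (hC1 j)]
    have := hde0 j
    nlinarith
  obtain ⟨S', isT⟩ := exists_twist tw
  have hPh := fun j : H.J => hde1 j lam S' tw isT (hsm j)
  choose Ph hPc hPa hPe hPf using hPh
  set Θ : (j : H.J) → Matrix G G (H.pt (Sum.inl j)).E :=
    fun j => Matrix.of fun l m => (Ph j (Al.e _ l)) m with hΘ
  have hΘ1 : ∀ j l m, ‖(Θ j - 1) l m‖ < 1 := by
    intro j l m
    have h2 := hPe j l m
    rw [Al.sub_apply] at h2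
    rw [Matrix.sub_apply, Matrix.one_apply]
    exact h2
  obtain ⟨V, V', hVV, hVV', hglue⟩ := H.glue Θ hΘ1
  obtain ⟨S2, hS2⟩ := exists_descent H D.S S' V V' hVV hVV' Ph hPc hPa Θ
    (fun j l m => rfl) hglue
  refine ⟨{
    lam := lam
    lam0 := lz Om g * a0
    lam1 := lzi Om g * a1
    n0 := n0
    S' := S'
    V := V
    V' := V'
    S2 := S2
    tw := tw
    isT := isT
    VV' := hVV
    V'V := hVV'
    ks := hS2
    at0 := ?_
    at1 := ?_
    hn0 := hn0
    pole := hp1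
    pole' := hp2
    reg := fun n hn => by rw [add_comm]; exact hg1 n hn
    hole := fun j => ⟨Θ j, (hglue j).1, ?_⟩ }⟩
  · rw [hlam, map_mul, h0, map_mul]
    congr 1
    exact D.v0_cst H.lam H.e0 H.e0_lam (H.lam g)
  · rw [hlam, map_mul, h1, map_mul]
    congr 1
    exact D.v1_cst H.lam H.e1 H.e1_lam (H.lam g)
  · intro a ha m
    have h3 : (show Al (S'.map (H.cmp (Sum.inl j))) from fun l => H.cmp (Sum.inl j) (a l)) =
        ∑ l, Al.cst _ (H.cmp (Sum.inl j) (a l)) * Al.e _ l :=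
      Al.eq_sum (S'.map (H.cmp (Sum.inl j))) (fun l => H.cmp (Sum.inl j) (a l))
    have h2 := (congrArg (Ph j) h3.symm).trans (hPf j a ha)
    have h4 : (Ph j (∑ l, Al.cst _ (H.cmp (Sum.inl j) (a l)) * Al.e _ l)) m =
        H.cmp (Sum.inl j) (a m) := congrFun h2 m
    refine Eq.trans ?_ h4
    rw [map_sum, Al.sum_apply]
    refine Finset.sum_congr rfl fun l _ => ?_
    rw [map_mul, hPc, Al.cst_mul]
    rfl

end

end Pool.Agent.MP_1c8e06_ag.CY
end
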