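import Pool.Agent.Lib.MP_1c8e06_ag.Mg.G003
import Pool.Agent.Lib.MP_1c8e06_ag.Mg.G010
import Pool.Agent.Lib.MP_1c8e06_ag.CY.Defs2
import Pool.Agent.Lib.MP_1c8e06_ag.Mg.G007

section

/-!
# CY O2: identity theorem

THEOREM: f ∈ H.O (limit of q_n ∈ Reg X, uniformly at all boundary points) and f = 0 at gp 0 r0 ==> f = 0.

PROOF.  Choose q_n ∈ Reg H.X with ‖f v - ι q_n‖ < 1/(n+1) for all v (`HC.mem_O`).  For a point w say Z w:
for all et > 0 there is m with w(q_n) ≤ et for all n ≥ m.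
(0) for n, n' ≥ m: (H.pt v)(q_n - q_n') ≤ 1/(m+1) for all v, so by `HC.mm` w(q_n - q_n') ≤ 1/(m+1) for every
w with H.Dom w.  Also w(q_n) is bounded by a constant C for all n and all w in the domain.
(1) closedness: let c be a centre (c = 0 or c = c_j), r in the allowed interval, and let radii r' → r with
Z (gp c r').  Then Z (gp c r): given et choose m with (0) ≤ et; for every r' of the sequence let n be large:
(gp c r')(q_m) ≤ max et ((gp c r')(q_n)) ≤ et (for n large); r' → r: (gp c r)(q_m) ≤ et by `gp_cont`; then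
(gp c r)(q_n) ≤ et for all n ≥ m.
(2) Z (gp 0 r0): ‖ι q_n‖ = ‖f v - ι q_n‖ at v = inr false.
(3) s := sup {r ∈ [r0, r1] : Z (gp 0 r') for all r' ∈ [r0, r]}.  By (1) Z (gp 0 s).  If s < r1 let s' ∈ (s, r1]
such that no ‖c_j‖ is in the open interval (s, s').  The poles of q_n are of norm < r0, > r1, or in D_j (norm
‖c_j‖), so there are none with s < ‖α‖ < s'; for r ∈ [s, s') write r = s^th s'^(1-th) with 0 < th ≤ 1; `gp_convex`
(centre 0): (gp 0 r)(q_n) ≤ (gp 0 s)(q_n)^th C^(1-th) → 0.  So Z (gp 0 r) for r < s', and by (1) (or the sup)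
contradiction.  So Z (gp 0 r) for all r in [r0, r1].
(4) branch: gp (c j) ‖c j‖ = gp 0 ‖c j‖ (`gp_center`), so Z there.  The poles of q_n satisfy ‖α - c_j‖ < ρ_j or
≥ ‖c_j‖ (α in D_i: ‖α - c_j‖ = ‖c_i - c_j‖ ≥ ‖c_j‖; ‖α‖ < r0 < ‖c_j‖: = ‖c_j‖; ‖α‖ > r1: = ‖α‖).  For
r = ρ_j^(1-th)... i.e. r = a^(th') b^(1-th') with a = ρ_j, b = ‖c_j‖: `gp_convex`: (gp c_j r)(q_n) ≤
C^th' ((gp c_j ‖c_j‖)(q_n))^(1-th') → 0 for r > ρ_j (th' < 1); by (1) also at r = ρ_j.
So Z (H.pt v) for all v, and ‖f v‖ ≤ max ‖f v - ι q_n‖ ‖ι q_n‖ → 0.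
-/

set_option autoImplicit false

open Polynomial
open scoped Classical

namespace Pool.Agent.MP_1c8e06_ag.CY

open Pool.Agent.MP_1c8e06_ag.AJ

noncomputable section

set_option linter.unusedSectionVars false

variable {Om : Type} [NormedField Om] [IsUltrametricDist Om] [IsAlgClosed Om]

private def O2_Z (q : ℕ → RatFunc Om) (w : Pt Om) : Prop :=
  ∀ et : ℝ, 0 < et → ∃ m : ℕ, ∀ n, m ≤ n → w.v (q n) ≤ et

private theorem O2_exists_th {a b z : ℝ} (ha : 0 < a) (haz : a < z) (hzb : z < b) :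
    ∃ th : ℝ, 0 < th ∧ th < 1 ∧ z = a ^ th * b ^ (1 - th) := by
  have hz : 0 < z := ha.trans haz
  have hb : 0 < b := hz.trans hzb
  have h1 : Real.log a < Real.log z := Real.log_lt_log ha haz
  have h2 : Real.log z < Real.log b := Real.log_lt_log hz hzb
  have h3 : 0 < Real.log b - Real.log a := by linarith
  refine ⟨(Real.log b - Real.log z) / (Real.log b - Real.log a), by apply div_pos <;> linarith, ?_, ?_⟩
  · rw [div_lt_one h3]; linarith
  · rw [Real.rpow_def_of_pos ha, Real.rpow_def_of_pos hb, ← Real.exp_add]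
    have h4 : Real.log a * ((Real.log b - Real.log z) / (Real.log b - Real.log a)) +
        Real.log b * (1 - (Real.log b - Real.log z) / (Real.log b - Real.log a)) = Real.log z := by
      field_simp
      ring
    rw [h4, Real.exp_log hz]

/-- `x ^ th * C ^ (1 - th)` is small for small `x`. -/
private theorem O2_small {th C et : ℝ} (hth : 0 < th) (hC : 0 ≤ C) (het : 0 < et) :
    ∃ de : ℝ, 0 < de ∧ ∀ x, 0 ≤ x → x ≤ de → x ^ th * C ^ (1 - th) ≤ et := by
  have hP : 0 < C ^ (1 - th) + 1 := by positivity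
  refine ⟨(et / (C ^ (1 - th) + 1)) ^ th⁻¹, by positivity, fun x hx0 hx => ?_⟩
  have h1 : x ^ th ≤ et / (C ^ (1 - th) + 1) := by
    calc x ^ th ≤ ((et / (C ^ (1 - th) + 1)) ^ th⁻¹) ^ th := Real.rpow_le_rpow hx0 hx hth.le
      _ = et / (C ^ (1 - th) + 1) := by
        rw [← Real.rpow_mul (by positivity), inv_mul_cancel₀ hth.ne', Real.rpow_one]
  have h0 : 0 ≤ C ^ (1 - th) := by positivity
  calc x ^ th * C ^ (1 - th) ≤ et / (C ^ (1 - th) + 1) * (C ^ (1 - th) + 1) := by
        apply mul_le_mul h1 (by linarith) h0 (by positivity)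
    _ = et := by field_simp

private theorem O2_left (q : ℕ → RatFunc Om) (c : Om) {a b r C : ℝ} (ha : 0 < a) (har : a < r) (hrb : r < b)
    (hC0 : 0 ≤ C) (hC : ∀ n, (gp c b).v (q n) ≤ C)
    (hp : ∀ n α, (q n).denom.eval α = 0 → ‖α - c‖ ≤ a ∨ b ≤ ‖α - c‖) (hZ : O2_Z q (gp c a)) :
    O2_Z q (gp c r) := by
  obtain ⟨th, h0, h1, rfl⟩ := O2_exists_th ha har hrb
  intro et het
  obtain ⟨de, hde, hs⟩ := O2_small h0 hC0 het
  obtain ⟨m, hm⟩ := hZ de hde
  refine ⟨m, fun n hn => ?_⟩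
  refine (gp_convex c ha (har.trans hrb).le h0.le h1.le (q n) (hp n)).trans ?_
  refine le_trans ?_ (hs ((gp c a).v (q n)) ((gp c a).v.nonneg _) (hm n hn))
  apply mul_le_mul_of_nonneg_left _ (Real.rpow_nonneg ((gp c a).v.nonneg _) _)
  exact Real.rpow_le_rpow ((gp c b).v.nonneg _) (hC n) (by linarith)

private theorem O2_right (q : ℕ → RatFunc Om) (c : Om) {a b r C : ℝ} (ha : 0 < a) (har : a < r) (hrb : r < b)
    (hC0 : 0 ≤ C) (hC : ∀ n, (gp c a).v (q n) ≤ C)
    (hp : ∀ n α, (q n).denom.eval α = 0 → ‖α - c‖ ≤ a ∨ b ≤ ‖α - c‖) (hZ : O2_Z q (gp c b)) :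
    O2_Z q (gp c r) := by
  obtain ⟨th, h0, h1, rfl⟩ := O2_exists_th ha har hrb
  intro et het
  obtain ⟨de, hde, hs⟩ := O2_small (th := 1 - th) (by linarith) hC0 het
  obtain ⟨m, hm⟩ := hZ de hde
  refine ⟨m, fun n hn => ?_⟩
  refine (gp_convex c ha (har.trans hrb).le h0.le h1.le (q n) (hp n)).trans ?_
  refine le_trans ?_ (hs ((gp c b).v (q n)) ((gp c b).v.nonneg _) (hm n hn))
  rw [mul_comm, sub_sub_cancel]
  apply mul_le_mul_of_nonneg_left _ (Real.rpow_nonneg ((gp c b).v.nonneg _) _)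
  exact Real.rpow_le_rpow ((gp c a).v.nonneg _) (hC n) h0.le

/-- Closedness. -/
private theorem O2_closed (H : HC Om) (q : ℕ → RatFunc Om)
    (hcau : ∀ m n n', m ≤ n → m ≤ n' → ∀ w : Pt Om, H.Dom w → w.v (q n - q n') ≤ 1 / ((m : ℝ) + 1))
    (c : Om) {r : ℝ} (hr : 0 < r) (hd : H.Dom (gp c r))
    (h : ∀ de : ℝ, 0 < de → ∃ r', 0 < r' ∧ |r' - r| < de ∧ H.Dom (gp c r') ∧ O2_Z q (gp c r')) :
    O2_Z q (gp c r) := by
  intro et het
  obtain ⟨m, hm⟩ := exists_nat_one_div_lt het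
  have key : (gp c r).v (q m) ≤ et := by
    by_contra hlt
    push Not at hlt
    have hc := (gp_cont c (q m)).continuousAt (Ioi_mem_nhds hr)
    have hev := hc.eventually (lt_mem_nhds hlt)
    obtain ⟨de, hde, hball⟩ := Metric.eventually_nhds_iff.1 hev
    obtain ⟨r', hr', hrr, hd', hZ⟩ := h de hde
    obtain ⟨m', hm'⟩ := hZ et het
    have h1 := hball (by rwa [Real.dist_eq] : dist r' r < de)
    have h2 := hm' (max m m') (le_max_right _ _)
    have h3 := hcau m m (max m m') le_rfl (le_max_left _ _) (gp c r') hd'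
    have h4 : (gp c r').v (q m) ≤ max ((gp c r').v (q m - q (max m m'))) ((gp c r').v (q (max m m'))) := by
      have := (gp c r').na (q m - q (max m m')) (q (max m m'))
      rwa [sub_add_cancel] at this
    have h5 : (gp c r').v (q m) ≤ et := h4.trans (max_le (h3.trans hm.le) h2)
    exact absurd h1 (not_lt.2 h5)
  refine ⟨m, fun n hn => ?_⟩
  have h4 : (gp c r).v (q n) ≤ max ((gp c r).v (q n - q m)) ((gp c r).v (q m)) := by
    have := (gp c r).na (q n - q m) (q m)
    rwa [sub_add_cancel] at this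
  exact h4.trans (max_le ((hcau m n m hn le_rfl _ hd).trans hm.le) key)

private theorem O2_norm_of_lt {a b : Om} (h : ‖a‖ < ‖b‖) : ‖a + b‖ = ‖b‖ := by
  apply le_antisymm
  · exact (IsUltrametricDist.norm_add_le_max a b).trans (max_le h.le le_rfl)
  · have h1 : ‖b‖ ≤ max ‖a + b‖ ‖a‖ := by
      have := IsUltrametricDist.norm_add_le_max (a + b) (-a)
      rw [norm_neg] at this
      rwa [show a + b + -a = b by ring] at this
    rcases le_max_iff.1 h1 with h2 | h2
    · exact h2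
    · exact absurd h2 (not_le.2 h)

/-- The three kinds of poles. -/
private theorem O2_pole (H : HC Om) {q : RatFunc Om} (hq : q ∈ Reg H.X) {α : Om} (h : q.denom.eval α = 0) :
    ‖α‖ < H.r0 ∨ H.r1 < ‖α‖ ∨ ∃ j, α ∈ od (H.c j) (H.ρ j) := by
  by_contra hcon
  push Not at hcon
  obtain ⟨h1, h2, h3⟩ := hcon
  refine hq α ⟨h1, h2, fun j => ?_⟩ h
  have := h3 j
  change ¬ (‖α - H.c j‖ < H.ρ j) at this
  exact not_lt.1 this

/-- The poles seen from `0` between two radii without holes. -/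
private theorem O2_pole0 (H : HC Om) {q : RatFunc Om} (hq : q ∈ Reg H.X) {a b : ℝ} (ha : H.r0 ≤ a)
    (hb : b ≤ H.r1) (hab : ∀ j, ‖H.c j‖ ≤ a ∨ b ≤ ‖H.c j‖) (α : Om) (h : q.denom.eval α = 0) :
    ‖α - 0‖ ≤ a ∨ b ≤ ‖α - 0‖ := by
  rw [sub_zero]
  rcases O2_pole H hq h with h1 | h1 | ⟨j, hj⟩
  · left; linarith
  · right; linarith
  · rw [H.norm_mem j hj]
    exact hab j

/-- The poles seen from a hole. -/
private theorem O2_polej (H : HC Om) {q : RatFunc Om} (hq : q ∈ Reg H.X) (j : H.J) (α : Om)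
    (h : q.denom.eval α = 0) : ‖α - H.c j‖ ≤ H.ρ j ∨ ‖H.c j‖ ≤ ‖α - H.c j‖ := by
  rcases O2_pole H hq h with h1 | h1 | ⟨i, hi⟩
  · right
    have h2 : ‖α‖ < ‖-H.c j‖ := by rw [norm_neg]; exact h1.trans (H.c_gt j)
    have h3 := O2_norm_of_lt h2
    rw [sub_eq_add_neg, h3, norm_neg]
  · right
    have h2 : ‖-H.c j‖ < ‖α‖ := by rw [norm_neg]; exact (H.c_lt j).trans h1
    have h3 := O2_norm_of_lt h2
    rw [sub_eq_add_neg, add_comm, h3]
    exact ((H.c_lt j).trans h1).le
  · by_cases hij : i = j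
    · left
      subst hij
      exact le_of_lt hi
    · right
      have h2 := H.sep i j hij
      have h3 : ‖α - H.c i‖ < ‖H.c i - H.c j‖ := by
        rw [h2]
        have h4 : ‖α - H.c i‖ < H.ρ i := hi
        exact (h4.trans (H.ρ_lt i)).trans_le (le_max_left _ _)
      have h5 := O2_norm_of_lt h3
      rw [sub_add_sub_cancel] at h5
      rw [h5, h2]
      exact le_max_right _ _

/-- No centre has its norm in a small punctured neighbourhood of `x`. -/
private theorem O2_gap (H : HC Om) (x : ℝ) : ∃ ε : ℝ, 0 < ε ∧ ∀ j, ‖H.c j‖ = x ∨ ε ≤ |‖H.c j‖ - x| := by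
  classical
  have hfin : (Set.range (fun j => ‖H.c j‖) \ {x}).Finite := (Set.finite_range _).subset Set.sdiff_subset
  have hcl := hfin.isClosed
  have hx : x ∈ (Set.range (fun j => ‖H.c j‖) \ {x})ᶜ := by
    intro h
    exact h.2 rfl
  obtain ⟨ε, hε, hb⟩ := Metric.isOpen_iff.1 hcl.isOpen_compl x hx
  refine ⟨ε, hε, fun j => ?_⟩
  by_contra hcon
  push Not at hcon
  have h1 : ‖H.c j‖ ∈ Metric.ball x ε := by
    rw [Metric.mem_ball, Real.dist_eq]
    exact hcon.2
  exact hb h1 ⟨⟨j, rfl⟩, hcon.1⟩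

/-- The approximating sequence and its properties. -/
private theorem O2_seq (H : HC Om) {f : (v : H.J ⊕ Bool) → (H.pt v).E} (hf : f ∈ H.O) :
    ∃ q : ℕ → RatFunc Om, (∀ n, q n ∈ Reg H.X) ∧
      (∀ n v, ‖f v - (H.pt v).ι (q n)‖ < 1 / ((n : ℝ) + 1)) ∧
      (∀ m n n', m ≤ n → m ≤ n' → ∀ w : Pt Om, H.Dom w → w.v (q n - q n') ≤ 1 / ((m : ℝ) + 1)) ∧
      ∃ C : ℝ, 0 ≤ C ∧ ∀ n, ∀ w : Pt Om, H.Dom w → w.v (q n) ≤ C := by
  have h := (H.mem_O f).1 hf
  choose q hq hfq using fun n : ℕ => h (1 / ((n : ℝ) + 1)) (by positivity)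
  have hcau : ∀ m n n', m ≤ n → m ≤ n' → ∀ w : Pt Om, H.Dom w → w.v (q n - q n') ≤ 1 / ((m : ℝ) + 1) := by
    intro m n n' hn hn' w hw
    obtain ⟨v, hv⟩ := H.mm (sub_mem (hq n) (hq n')) w hw
    refine hv.trans ?_
    rw [← (H.pt v).norm_ι, map_sub]
    have h1 : ∀ k : ℕ, m ≤ k → (1 : ℝ) / ((k : ℝ) + 1) ≤ 1 / ((m : ℝ) + 1) := by
      intro k hk
      apply one_div_le_one_div_of_le (by positivity)
      have : (m : ℝ) ≤ k := by exact_mod_cast hk
      linarith
    have h2 : (H.pt v).ι (q n) - (H.pt v).ι (q n') =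
        (f v - (H.pt v).ι (q n')) + -(f v - (H.pt v).ι (q n)) := by ring
    rw [h2]
    refine ((H.pt v).norm_add _ _).trans (max_le ?_ ?_)
    · exact (hfq n' v).le.trans (h1 n' hn')
    · rw [norm_neg]
      exact (hfq n v).le.trans (h1 n hn)
  refine ⟨q, hq, hfq, hcau, 1 + ∑ v : H.J ⊕ Bool, (H.pt v).v (q 0), ?_, ?_⟩
  · have : 0 ≤ ∑ v : H.J ⊕ Bool, (H.pt v).v (q 0) := Finset.sum_nonneg fun v _ => (H.pt v).v.nonneg _
    linarith
  · intro n w hw
    have hs : 0 ≤ ∑ v : H.J ⊕ Bool, (H.pt v).v (q 0) := Finset.sum_nonneg fun v _ => (H.pt v).v.nonneg _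
    have h1 : w.v (q n) ≤ max (w.v (q n - q 0)) (w.v (q 0)) := by
      have := w.na (q n - q 0) (q 0)
      rwa [sub_add_cancel] at this
    refine h1.trans (max_le ?_ ?_)
    · have h2 := hcau 0 n 0 (Nat.zero_le _) le_rfl w hw
      simp only [Nat.cast_zero, zero_add, div_one] at h2
      linarith
    · obtain ⟨v, hv⟩ := H.mm (hq 0) w hw
      have h3 : (H.pt v).v (q 0) ≤ ∑ v : H.J ⊕ Bool, (H.pt v).v (q 0) :=
        Finset.single_le_sum (f := fun v : H.J ⊕ Bool => (H.pt v).v (q 0)) (fun v _ => (H.pt v).v.nonneg _)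
          (Finset.mem_univ v)
      linarith

/-- If the sequence tends to `0` on the whole segment then `f = 0`. -/
private theorem O2_end (H : HC Om) {f : (v : H.J ⊕ Bool) → (H.pt v).E} (q : ℕ → RatFunc Om)
    (hq : ∀ n, q n ∈ Reg H.X)
    (hfq : ∀ n v, ‖f v - (H.pt v).ι (q n)‖ < 1 / ((n : ℝ) + 1))
    (hcau : ∀ m n n', m ≤ n → m ≤ n' → ∀ w : Pt Om, H.Dom w → w.v (q n - q n') ≤ 1 / ((m : ℝ) + 1))
    {C : ℝ} (hC0 : 0 ≤ C) (hC : ∀ n, ∀ w : Pt Om, H.Dom w → w.v (q n) ≤ C)
    (hseg : ∀ r, H.r0 ≤ r → r ≤ H.r1 → O2_Z q (gp 0 r)) : f = 0 := by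
  have hpt : ∀ v, O2_Z q (H.pt v) := by
    intro v
    rcases v with j | b
    · change O2_Z q (gp (H.c j) (H.ρ j))
      have hcj : 0 < ‖H.c j‖ := (H.ρ_pos j).trans (H.ρ_lt j)
      have hb : O2_Z q (gp (H.c j) ‖H.c j‖) := by
        have h1 : gp (H.c j) ‖H.c j‖ = gp 0 ‖H.c j‖ := gp_center hcj (by rw [sub_zero])
        rw [h1]
        exact hseg _ (H.c_gt j).le (H.c_lt j).le
      have hin : ∀ r, H.ρ j < r → r < ‖H.c j‖ → O2_Z q (gp (H.c j) r) := by
        intro r h1 h2
        exact O2_right q (H.c j) (H.ρ_pos j) h1 h2 hC0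
          (fun n => hC n _ (H.dom_branch j le_rfl (H.ρ_lt j).le))
          (fun n α h => O2_polej H (hq n) j α h) hb
      refine O2_closed H q hcau (H.c j) (H.ρ_pos j) (H.dom_branch j le_rfl (H.ρ_lt j).le) ?_
      intro de hde
      refine ⟨H.ρ j + min (de / 2) ((‖H.c j‖ - H.ρ j) / 2), ?_, ?_, ?_, ?_⟩
      · have := H.ρ_pos j
        have h2 : 0 < min (de / 2) ((‖H.c j‖ - H.ρ j) / 2) := lt_min (by linarith) (by linarith [H.ρ_lt j])
        linarith
      · have h2 : 0 < min (de / 2) ((‖H.c j‖ - H.ρ j) / 2) := lt_min (by linarith) (by linarith [H.ρ_lt j])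
        rw [add_sub_cancel_left, abs_of_pos h2]
        exact (min_le_left _ _).trans_lt (by linarith)
      · have h2 : 0 < min (de / 2) ((‖H.c j‖ - H.ρ j) / 2) := lt_min (by linarith) (by linarith [H.ρ_lt j])
        have h3 := min_le_right (de / 2) ((‖H.c j‖ - H.ρ j) / 2)
        exact H.dom_branch j (by linarith) (by linarith [H.ρ_lt j])
      · have h2 : 0 < min (de / 2) ((‖H.c j‖ - H.ρ j) / 2) := lt_min (by linarith) (by linarith [H.ρ_lt j])
        have h3 := min_le_right (de / 2) ((‖H.c j‖ - H.ρ j) / 2)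
        exact hin _ (by linarith) (by linarith [H.ρ_lt j])
    · cases b
      · exact hseg _ le_rfl H.r0_lt.le
      · exact hseg _ H.r0_lt.le le_rfl
  funext v
  rw [Pi.zero_apply, ← norm_le_zero_iff]
  refine le_of_forall_pos_le_add fun et het => ?_
  rw [zero_add]
  obtain ⟨m, hm⟩ := hpt v et het
  obtain ⟨m', hm'⟩ := exists_nat_one_div_lt het
  have h1 : f v = (f v - (H.pt v).ι (q (max m m'))) + (H.pt v).ι (q (max m m')) := by ring
  rw [h1]
  refine ((H.pt v).norm_add _ _).trans (max_le ?_ ?_)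
  · refine (hfq _ v).le.trans (le_trans ?_ hm'.le)
    apply one_div_le_one_div_of_le (by positivity)
    have : (m' : ℝ) ≤ ((max m m' : ℕ) : ℝ) := by exact_mod_cast le_max_right _ _
    linarith
  · rw [(H.pt v).norm_ι]
    exact hm _ (le_max_left _ _)

/-- The set of the radii where the sequence tends to `0` is closed in the segment. -/
private theorem O2_isClosed (H : HC Om) (q : ℕ → RatFunc Om)
    (hcau : ∀ m n n', m ≤ n → m ≤ n' → ∀ w : Pt Om, H.Dom w → w.v (q n - q n') ≤ 1 / ((m : ℝ) + 1)) :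
    IsClosed ({r : ℝ | O2_Z q (gp 0 r)} ∩ Set.Icc H.r0 H.r1) := by
  rw [← isSeqClosed_iff_isClosed]
  intro u r hu hur
  have hr : r ∈ Set.Icc H.r0 H.r1 := isClosed_Icc.mem_of_tendsto hur (Filter.Eventually.of_forall fun n => (hu n).2)
  refine ⟨?_, hr⟩
  refine O2_closed H q hcau 0 (H.r0_pos.trans_le hr.1) (H.dom_gp0 hr.1 hr.2) ?_
  intro de hde
  obtain ⟨N, hN⟩ := (Metric.tendsto_atTop.1 hur) de hde
  refine ⟨u N, H.r0_pos.trans_le (hu N).2.1, ?_, H.dom_gp0 (hu N).2.1 (hu N).2.2, (hu N).1⟩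
  have := hN N le_rfl
  rwa [Real.dist_eq] at this

theorem HC.identity (H : HC Om) {f : (v : H.J ⊕ Bool) → (H.pt v).E} (hf : f ∈ H.O)
    (h0 : f (Sum.inr false) = 0) : f = 0 := by
  obtain ⟨q, hq, hfq, hcau, C, hC0, hC⟩ := O2_seq H hf
  refine O2_end H q hq hfq hcau hC0 hC ?_
  have hstart : O2_Z q (gp 0 H.r0) := by
    intro et het
    obtain ⟨m, hm⟩ := exists_nat_one_div_lt het
    refine ⟨m, fun n hn => ?_⟩
    have h1 := hfq n (Sum.inr false)
    rw [h0, zero_sub, norm_neg, (H.pt (Sum.inr false)).norm_ι] at h1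
    refine h1.le.trans (le_trans ?_ hm.le)
    apply one_div_le_one_div_of_le (by positivity)
    have : (m : ℝ) ≤ n := by exact_mod_cast hn
    linarith
  have hsub := (O2_isClosed H q hcau).Icc_subset_of_forall_exists_gt (a := H.r0) (b := H.r1) hstart (by
    intro x hx y hy
    obtain ⟨ε, hε, hgap⟩ := O2_gap H x
    have hx0 : 0 < x := H.r0_pos.trans_le hx.2.1
    have hxs : x < min H.r1 (x + ε) := lt_min hx.2.2 (by linarith)
    have hp : ∀ n α, (q n).denom.eval α = 0 → ‖α - 0‖ ≤ x ∨ min H.r1 (x + ε) ≤ ‖α - 0‖ := by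
      intro n α h
      refine O2_pole0 H (hq n) hx.2.1 (min_le_left _ _) (fun j => ?_) α h
      rcases hgap j with h1 | h1
      · left; exact h1.le
      · rcases le_total ‖H.c j‖ x with h2 | h2
        · left; exact h2
        · right
          rw [abs_of_nonneg (by linarith)] at h1
          exact (min_le_right _ _).trans (by linarith)
    have hy' : x < min y (min H.r1 (x + ε)) := lt_min hy hxs
    refine ⟨(x + min y (min H.r1 (x + ε))) / 2, ?_, by constructor <;> linarith [min_le_left y (min H.r1 (x + ε))]⟩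
    refine O2_left q 0 hx0 (by linarith) (by linarith [min_le_right y (min H.r1 (x + ε))]) hC0 (fun n => hC n _ ?_) hp hx.1
    exact H.dom_gp0 (hx.2.1.trans hxs.le) (min_le_left _ _))
  intro r h1 h2
  exact hsub ⟨h1, h2⟩

theorem HC.identity' (H : HC Om) {f : (v : H.J ⊕ Bool) → (H.pt v).E} (hf : f ∈ H.O)
    (h0 : f (Sum.inr true) = 0) : f = 0 := by
  obtain ⟨q, hq, hfq, hcau, C, hC0, hC⟩ := O2_seq H hf
  refine O2_end H q hq hfq hcau hC0 hC ?_
  have hstart : O2_Z q (gp 0 H.r1) := by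
    intro et het
    obtain ⟨m, hm⟩ := exists_nat_one_div_lt het
    refine ⟨m, fun n hn => ?_⟩
    have h1 := hfq n (Sum.inr true)
    rw [h0, zero_sub, norm_neg, (H.pt (Sum.inr true)).norm_ι] at h1
    refine h1.le.trans (le_trans ?_ hm.le)
    apply one_div_le_one_div_of_le (by positivity)
    have : (m : ℝ) ≤ n := by exact_mod_cast hn
    linarith
  have hsub := (O2_isClosed H q hcau).Icc_subset_of_forall_exists_lt (a := H.r0) (b := H.r1) hstart (by
    intro x hx y hy
    obtain ⟨ε, hε, hgap⟩ := O2_gap H x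
    have hxs : max H.r0 (x - ε) < x := max_lt hx.2.1 (by linarith)
    have hm0 : 0 < max H.r0 (x - ε) := H.r0_pos.trans_le (le_max_left _ _)
    have hp : ∀ n α, (q n).denom.eval α = 0 → ‖α - 0‖ ≤ max H.r0 (x - ε) ∨ x ≤ ‖α - 0‖ := by
      intro n α h
      refine O2_pole0 H (hq n) (le_max_left _ _) hx.2.2 (fun j => ?_) α h
      rcases hgap j with h1 | h1
      · right; exact h1.ge
      · rcases le_total x ‖H.c j‖ with h2 | h2
        · right; exact h2
        · left
          rw [abs_of_nonpos (by linarith)] at h1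
          exact le_trans (by linarith) (le_max_right _ _)
    have hy' : max y (max H.r0 (x - ε)) < x := max_lt hy hxs
    refine ⟨(x + max y (max H.r0 (x - ε))) / 2, ?_, by constructor <;> linarith [le_max_left y (max H.r0 (x - ε))]⟩
    refine O2_right q 0 hm0 (by linarith [le_max_right y (max H.r0 (x - ε))]) (by linarith) hC0 (fun n => hC n _ ?_) hp hx.1
    exact H.dom_gp0 (le_max_left _ _) (hxs.le.trans hx.2.2))
  intro r h1 h2
  exact hsub ⟨h1, h2⟩

end

end Pool.Agent.MP_1c8e06_ag.CY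
end

section

/-!
# CY O4: the ring OO: injectivity of the expansions, completeness

`HC.ext0`: z = (f, a, b) with f = 0: a = 0 and b = 0 by `CRrel.zero_right` (O3) with `H.cr0 z`, `H.cr1 z`
(`cre_lz`, `cre_lzi`).  `HC.e0_inj`: e0 z = 0 ==> the component at inr false is 0 (`CRrel.zero_left`) ==>
z.1.1 = 0 by `HC.identity` (O2) ==> `ext0`.  `HC.e1_inj`: `HC.identity'`.  `HC.lam_inj`: lz is injective
(coefficients).
`HC.exists_lim`: f v := limit (w.E is complete).  f ∈ H.O because H.O is closed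
(`Subring.isClosed_topologicalClosure`; Tendsto in the product = componentwise).  The series e0 (y n):
y n - y m in OO, `CRrel.norm`: LB r0 (e0 (y n) - e0 (y m)) ‖cmp(y n) - cmp(y m)‖, so each coefficient is a
Cauchy sequence in Om; let a be the series of the limits (coefficients below 0 are 0: it is a Laurent
series; `HahnSeries.ofPowerSeries` or `HahnSeries.ofSuppBddBelow`); LB r0 (a - e0 (y n)) et for large n;
`CRrel.lim`.  The same at infinity.
-/

set_option autoImplicit false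

open Polynomial
open scoped Classical

namespace Pool.Agent.MP_1c8e06_ag.CY

open Pool.Agent.MP_1c8e06_ag.AJ

noncomputable section

set_option linter.unusedSectionVars false

variable {Om : Type} [NormedField Om] [CompleteSpace Om] [IsUltrametricDist Om] [IsAlgClosed Om]

/-- The expansion at infinity is injective. -/
private theorem O4_lzi_zero {q : Lam Om} (h : lzi Om q = 0) : q = 0 := by
  obtain ⟨n, f, hf⟩ := LaurentPolynomial.exists_T_pow q
  have h1 : (lzi Om).comp (Polynomial.toLaurent (R := Om)) = AI.zinv Om := by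
    refine Polynomial.ringHom_ext ?_ ?_
    · intro a
      rw [RingHom.comp_apply, Polynomial.toLaurent_C, lzi, LaurentPolynomial.eval₂_C, AI.zinv,
        Polynomial.coe_eval₂RingHom, Polynomial.eval₂_C]
    · rw [RingHom.comp_apply, Polynomial.toLaurent_X, lzi, LaurentPolynomial.eval₂_T, AI.zinv,
        Polynomial.coe_eval₂RingHom, Polynomial.eval₂_X, zpow_one]
      rfl
  have h2 : AI.zinv Om f = 0 := by
    rw [← h1, RingHom.comp_apply, hf, map_mul, h, zero_mul]
  have h3 : f = 0 := AI.zinv_injective (by rw [h2, map_zero])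
  rw [h3, map_zero] at hf
  have h4 : q = q * LaurentPolynomial.T (n : ℤ) * LaurentPolynomial.T (-(n : ℤ)) := by
    rw [mul_assoc, ← LaurentPolynomial.T_add, add_neg_cancel, LaurentPolynomial.T_zero, mul_one]
  rw [h4, ← hf, zero_mul]

/-- The components of an element of `OO`. -/
private theorem O4_cmp (H : HC Om) (v : H.J ⊕ Bool) (z : H.OO) : H.cmp v z = z.1.1 v := rfl

theorem HC.ext0 (H : HC Om) {z : H.OO} (h : ∀ v, H.cmp v z = 0) : z = 0 := by
  have h1 : z.1.1 = 0 := funext fun v => h v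
  have h2 : H.e0 z = 0 := by
    have h3 := H.cr0 z
    rw [h (Sum.inr false)] at h3
    exact CRrel.zero_right (cre_lz H.r0_pos) h3
  have h4 : H.e1 z = 0 := by
    have h5 := H.cr1 z
    rw [h (Sum.inr true)] at h5
    exact CRrel.zero_right (cre_lzi (H.r0_pos.trans H.r0_lt)) h5
  exact Subtype.ext (Prod.ext h1 (Prod.ext h2 h4))

theorem HC.e0_inj (H : HC Om) : Function.Injective H.e0 := by
  rw [injective_iff_map_eq_zero]
  intro z hz
  have h1 := H.cr0 z
  rw [hz] at h1
  have h2 : z.1.1 (Sum.inr false) = 0 := CRrel.zero_left (cre_lz H.r0_pos) h1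
  have h3 := H.identity (H.mem_OO z) h2
  refine H.ext0 fun v => ?_
  rw [O4_cmp, h3]
  rfl

theorem HC.e1_inj (H : HC Om) : Function.Injective H.e1 := by
  rw [injective_iff_map_eq_zero]
  intro z hz
  have h1 := H.cr1 z
  rw [hz] at h1
  have h2 : z.1.1 (Sum.inr true) = 0 :=
    CRrel.zero_left (cre_lzi (H.r0_pos.trans H.r0_lt)) h1
  have h3 := H.identity' (H.mem_OO z) h2
  refine H.ext0 fun v => ?_
  rw [O4_cmp, h3]
  rfl

theorem HC.lam_inj (H : HC Om) : Function.Injective H.lam := by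
  rw [injective_iff_map_eq_zero]
  intro q hq
  refine O4_lzi_zero ?_
  rw [← H.e1_lam, hq, map_zero]

theorem HC.exists_lim (H : HC Om) (y : ℕ → H.OO) (hy : ∀ n, H.Rg (y n))
    (hc : ∀ v, CauchySeq fun n => H.cmp v (y n)) :
    ∃ z : H.OO, H.Rg z ∧
      ∀ v, Filter.Tendsto (fun n => H.cmp v (y n)) Filter.atTop (nhds (H.cmp v z)) := by
  choose f hf using fun v => cauchySeq_tendsto_of_complete (hc v)
  have hO : f ∈ H.O := by
    have h1 : IsClosed (H.O : Set ((v : H.J ⊕ Bool) → (H.pt v).E)) :=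
      Subring.isClosed_topologicalClosure _
    refine h1.mem_of_tendsto (b := Filter.atTop) (f := fun n => (y n).1.1)
      (tendsto_pi_nhds.2 fun v => hf v) (Filter.Eventually.of_forall fun n => H.mem_OO (y n))
  have key : ∀ (w : Pt Om) (e : Lam Om →+* LaurentSeries Om) (s : ℝ) (g : w.E)
      (b : ℕ → LaurentSeries Om) (gn : ℕ → w.E), CRE w e s → (∀ n, CRrel w e s (b n) (gn n)) →
      Filter.Tendsto gn Filter.atTop (nhds g) → (∀ n, ∀ m : ℤ, m < 0 → (b n).coeff m = 0) →
      ∃ a : LaurentSeries Om, (∀ m : ℤ, m < 0 → a.coeff m = 0) ∧ CRrel w e s a g := by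
    intro w e s g b gn E hb hg hn
    refine exists_CR E g 0 fun et het => ?_
    obtain ⟨n, h1⟩ := ((Metric.tendsto_nhds.1 hg et het).and
      (Filter.Eventually.of_forall fun _ => trivial)).exists
    obtain ⟨q, h2, -, h3⟩ := CRrel.tr E (hb n) 0 (hn n) het
    refine ⟨q, ?_, h3⟩
    have h4 : g - lw w q = (g - gn n) + (gn n - lw w q) := by abel
    rw [h4]
    refine (w.norm_add _ _).trans (max_le ?_ h2)
    rw [← dist_eq_norm, dist_comm]
    exact h1.1.le
  obtain ⟨a, ha, ha'⟩ := key (gp 0 H.r0) (lz Om) H.r0 (f (Sum.inr false))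
    (fun n => H.e0 (y n)) (fun n => H.cmp (Sum.inr false) (y n)) (cre_lz H.r0_pos)
    (fun n => H.cr0 (y n)) (hf (Sum.inr false)) (fun n => (hy n).1)
  obtain ⟨b, hb, hb'⟩ := key (gp 0 H.r1) (lzi Om) H.r1⁻¹ (f (Sum.inr true))
    (fun n => H.e1 (y n)) (fun n => H.cmp (Sum.inr true) (y n))
    (cre_lzi (H.r0_pos.trans H.r0_lt)) (fun n => H.cr1 (y n)) (hf (Sum.inr true))
    (fun n => (hy n).2)
  exact ⟨⟨(f, a, b), hO, ha', hb'⟩, ⟨ha, hb⟩, hf⟩

end

end Pool.Agent.MP_1c8e06_ag.CY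
end

section

/-!
# CY O9: the N-idempotent over the ring OO

PROOF.  For every boundary point v let e_v be the limit of the powers of b (`exists_NI_of_QA`, QA1):
e_v : Al (S.map (lw (H.pt v))), NI.  For each coordinate m the family f_m := (v ↦ e_v m) is in H.O: given et, for n
large ‖e_v m - ι ((b^(p^n)) m)‖ < et for all (finitely many) v, and (b^(p^n)) m ∈ Reg H.X because the
coordinates of b are in the subring Reg H.X and the structure constants jF(..) too (`HC.jF_mem`; powers in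
Al: induction with `Al.mul_apply`).
At v = inr false: A0 has coordinates with LB s' .. for some s' > r0: `CR_of_LB` (O3, `cre_lz`) gives
g_m ∈ E with CRrel .. (A0 m) g_m.  The element (g_m)_m of Al (S.map (lw (gp 0 r0))) is NI: each relation of NI
for A0 is a polynomial identity with coefficients in the structure constants lz(..); CRrel is compatible with
sums, products, and with (lz q, lw q) (`CRrel.add`, `.mul`, `.base`), so the relation with 0 (or 1 - ..) on the
left gives 0 on the right: `CRrel.zero_left`.  [Convenient: the set of pairs (a, f) with CRrel is a subring K of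
LaurentSeries Om × w.E; S maps to it by (lz, lw); the element ((A0 m, g_m))_m of Al (S.map (Lam → K)) is NI
because its first components are (first projection K → LaurentSeries is injective by `CRrel.zero_left`); project
to the second component.  Use `Al.mapA`.]  By the uniqueness hypothesis g_m = e_{inr false} m.
So CRrel (gp 0 r0) (lz Om) r0 (A0 m) (f_m (inr false)); the same at infinity with A1.  Hence
ε m := (f_m, A0 m, A1 m) ∈ H.OO.  NI for ε: all relations hold because they hold in every component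
(cmp v, and then `HC.ext0`-type argument: an element of OO is 0 if all its cmp are 0, O4).
-/

set_option autoImplicit false

open Polynomial
open scoped Classical

namespace Pool.Agent.MP_1c8e06_ag.CY

open Pool.Agent.MP_1c8e06_ag.AJ

noncomputable section

set_option linter.unusedSectionVars false

/-! ### Transfer of NI along ring homomorphisms -/

section O9a

variable {B B' : Type} [CommRing B] [CommRing B'] {P : Type} [Group P] [Fintype P]

private theorem O9_homOf_act (S : SC B P) (φ : B →+* B') (S' : SC B' P)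
    (h1 : ∀ i j l, S'.μ i j l = φ (S.μ i j l)) (h2 : ∀ l, S'.ν l = φ (S.ν l))
    (h3 : ∀ h l m, S'.α h l m = φ (S.α h l m)) (g : P) (a : Al S) :
    Al.homOf S φ S' h1 h2 (Al.act S g a) = Al.act S' g (Al.homOf S φ S' h1 h2 a) := by
  refine Al.ext fun l => ?_
  rw [Al.homOf_apply, Al.act_apply, Al.act_apply, map_sum]
  refine Finset.sum_congr rfl fun i _ => ?_
  rw [map_mul, Al.homOf_apply, h3]

private theorem O9_NI_map (S : SC B P) (φ : B →+* B') (S' : SC B' P)
    (h1 : ∀ i j l, S'.μ i j l = φ (S.μ i j l)) (h2 : ∀ l, S'.ν l = φ (S.ν l))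
    (h3 : ∀ h l m, S'.α h l m = φ (S.α h l m)) (N : Subgroup P) {a : Al S} (ha : NI S N a) :
    NI S' N (Al.homOf S φ S' h1 h2 a) where
  fix n hn := by rw [← O9_homOf_act S φ S' h1 h2 h3, ha.fix n hn]
  idem := by rw [← map_mul, ha.idem]
  orth h hh := by rw [← O9_homOf_act S φ S' h1 h2 h3, ← map_mul, ha.orth h hh, map_zero]
  sum := by
    have h := congrArg (Al.homOf S φ S' h1 h2) ha.sum
    rw [map_sum, map_one] at h
    rw [← h]
    refine Finset.sum_congr rfl fun q _ => ?_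
    rw [O9_homOf_act S φ S' h1 h2 h3]

private theorem O9_eq_of_joint {I : Type} {Bk : I → Type} [∀ k, CommRing (Bk k)] (S : SC B P)
    (φ : ∀ k, B →+* Bk k) (S' : ∀ k, SC (Bk k) P)
    (h1 : ∀ k i j l, (S' k).μ i j l = φ k (S.μ i j l)) (h2 : ∀ k l, (S' k).ν l = φ k (S.ν l))
    (hinj : ∀ z : B, (∀ k, φ k z = 0) → z = 0) {a b : Al S}
    (h : ∀ k, Al.homOf S (φ k) (S' k) (h1 k) (h2 k) a = Al.homOf S (φ k) (S' k) (h1 k) (h2 k) b) :
    a = b := by
  refine Al.ext fun l => sub_eq_zero.1 (hinj _ fun k => ?_)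
  have h3 := congrArg (fun z : Al (S' k) => z l) (h k)
  simp only [Al.homOf_apply] at h3
  rw [map_sub, h3, sub_self]

private theorem O9_NI_of_joint {I : Type} {Bk : I → Type} [∀ k, CommRing (Bk k)] (S : SC B P)
    (φ : ∀ k, B →+* Bk k) (S' : ∀ k, SC (Bk k) P)
    (h1 : ∀ k i j l, (S' k).μ i j l = φ k (S.μ i j l)) (h2 : ∀ k l, (S' k).ν l = φ k (S.ν l))
    (h3 : ∀ k h l m, (S' k).α h l m = φ k (S.α h l m))
    (hinj : ∀ z : B, (∀ k, φ k z = 0) → z = 0) (N : Subgroup P) {a : Al S}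
    (h : ∀ k, NI (S' k) N (Al.homOf S (φ k) (S' k) (h1 k) (h2 k) a)) : NI S N a where
  fix n hn := by
    refine O9_eq_of_joint S φ S' h1 h2 hinj fun k => ?_
    rw [O9_homOf_act S (φ k) (S' k) (h1 k) (h2 k) (h3 k), (h k).fix n hn]
  idem := by
    refine O9_eq_of_joint S φ S' h1 h2 hinj fun k => ?_
    rw [map_mul, (h k).idem]
  orth g hg := by
    refine O9_eq_of_joint S φ S' h1 h2 hinj fun k => ?_
    rw [map_mul, O9_homOf_act S (φ k) (S' k) (h1 k) (h2 k) (h3 k), (h k).orth g hg, map_zero]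
  sum := by
    refine O9_eq_of_joint S φ S' h1 h2 hinj fun k => ?_
    rw [map_sum, map_one, ← (h k).sum]
    refine Finset.sum_congr rfl fun q _ => ?_
    rw [O9_homOf_act S (φ k) (S' k) (h1 k) (h2 k) (h3 k)]

end O9a

/-! ### Coordinates in a subring -/

private theorem O9_pow_mem {G : Type} [Group G] [Fintype G] {B : Type} [CommRing B] (S : SC B G)
    (R : Subring B) (hμ : ∀ i j l, S.μ i j l ∈ R) (hν : ∀ l, S.ν l ∈ R) {b : Al S}
    (hb : ∀ l, b l ∈ R) (n : ℕ) : ∀ l, (b ^ n) l ∈ R := by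
  induction n with
  | zero =>
    intro l
    rw [pow_zero, Al.one_apply]
    exact hν l
  | succ n ih =>
    intro l
    rw [pow_succ, Al.mul_apply]
    exact R.sum_mem fun i _ => R.sum_mem fun j _ => R.mul_mem (R.mul_mem (ih i) (hb j)) (hμ i j l)

/-! ### The subring of convergent pairs -/

section O9b

variable {Om : Type} [NormedField Om] [CompleteSpace Om] [IsUltrametricDist Om] [IsAlgClosed Om]

private def O9_K {w : Pt Om} {e : Lam Om →+* LaurentSeries Om} {s : ℝ} (E : CRE w e s) :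
    Subring (LaurentSeries Om × w.E) where
  carrier := {z | CRrel w e s z.1 z.2}
  mul_mem' := fun ha hb => CRrel.mul E ha hb
  one_mem' := by
    have h := CRrel.base E 1
    rw [map_one, map_one] at h
    exact h
  add_mem' := fun ha hb => CRrel.add E ha hb
  zero_mem' := by
    have h := CRrel.base E 0
    rw [map_zero, map_zero] at h
    exact h
  neg_mem' := fun ha => CRrel.neg E ha

private theorem O9_NI_trans {G : Type} [Group G] [Fintype G] (S : SC (Lam Om) G) (N : Subgroup G)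
    {w : Pt Om} {e : Lam Om →+* LaurentSeries Om} {s : ℝ} (E : CRE w e s)
    {A : Al (S.map e)} (hA : NI _ N A) (f : Al (S.map (lw w)))
    (hf : ∀ l, CRrel w e s (A l) (f l)) : NI _ N f := by
  let lamK : Lam Om →+* O9_K E := (e.prod (lw w)).codRestrict (O9_K E) fun q => CRrel.base E q
  let p1 : O9_K E →+* LaurentSeries Om := (RingHom.fst _ _).comp (O9_K E).subtype
  let p2 : O9_K E →+* w.E := (RingHom.snd _ _).comp (O9_K E).subtype
  let z : Al (S.map lamK) := fun l => ⟨(A l, f l), hf l⟩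
  have hz : NI (S.map lamK) N z := by
    refine O9_NI_of_joint (I := Unit) (Bk := fun _ => LaurentSeries Om) (S.map lamK) (fun _ => p1)
      (fun _ => S.map e) (fun _ _ _ _ => rfl) (fun _ _ => rfl) (fun _ _ _ _ => rfl) ?_ N ?_
    · intro y hy
      have h1 : y.1.1 = 0 := hy ()
      have h2 : CRrel w e s y.1.1 y.1.2 := y.2
      rw [h1] at h2
      exact Subtype.ext (Prod.ext h1 (CRrel.zero_left E h2))
    · intro _
      have h1 : Al.homOf (S.map lamK) p1 (S.map e) (fun _ _ _ => rfl) (fun _ => rfl) z = A := by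
        refine Al.ext fun l => ?_
        rw [Al.homOf_apply]
        rfl
      rw [h1]
      exact hA
  have h2 : Al.homOf (S.map lamK) p2 (S.map (lw w)) (fun _ _ _ => rfl) (fun _ => rfl) z = f := by
    refine Al.ext fun l => ?_
    rw [Al.homOf_apply]
    rfl
  rw [← h2]
  exact O9_NI_map (S.map lamK) p2 (S.map (lw w)) (fun _ _ _ => rfl) (fun _ => rfl)
    (fun _ _ _ => rfl) N hz

private theorem O9_CR {G : Type} [Group G] [Fintype G] (S : SC (Lam Om) G) (N : Subgroup G)
    {w : Pt Om} {e : Lam Om →+* LaurentSeries Om} {s : ℝ} (E : CRE w e s)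
    (hu : ∀ a a' : Al (S.map (lw w)), NI _ N a → NI _ N a' → a = a')
    {A : Al (S.map e)} (hA : NI _ N A) (hc : ∃ s', s < s' ∧ ∀ l, ∃ C, LB s' (A l) C)
    {f : Al (S.map (lw w))} (hf : NI _ N f) (l : G) : CRrel w e s (A l) (f l) := by
  obtain ⟨s', hs', hc'⟩ := hc
  have h1 : ∀ l, ∃ g : w.E, CRrel w e s (A l) g := fun l => by
    obtain ⟨C, hC⟩ := hc' l
    exact CR_of_LB E hs' hC
  choose g hg using h1
  have h2 : NI (S.map (lw w)) N g := O9_NI_trans S N E hA g hg
  have h3 := hu g f h2 hf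
  rw [← h3]
  exact hg l

end O9b

variable {Om : Type} [NormedField Om] [CompleteSpace Om] [IsUltrametricDist Om] [IsAlgClosed Om]
  {p : ℕ} [Fact p.Prime] [CharP Om p] {G : Type} [Group G] [Fintype G]

theorem HC.exists_eps (H : HC Om) (S : SC (Lam Om) G) (N : Subgroup G)
    (b : Al (S.map (jF Om))) (hb : ∀ l, b l ∈ Reg H.X) (hQ : ∀ v, QA p S N b (H.pt v))
    (hu0 : ∀ e e' : Al (S.map (lw (gp 0 H.r0))), NI _ N e → NI _ N e' → e = e')
    (hu1 : ∀ e e' : Al (S.map (lw (gp 0 H.r1))), NI _ N e → NI _ N e' → e = e')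
    (A0 : Al (S.map (lz Om))) (hA0 : NI _ N A0)
    (hc0 : ∃ s', H.r0 < s' ∧ ∀ l, ∃ C, LB s' (A0 l) C)
    (A1 : Al (S.map (lzi Om))) (hA1 : NI _ N A1)
    (hc1 : ∃ s', H.r1⁻¹ < s' ∧ ∀ l, ∃ C, LB s' (A1 l) C) :
    ∃ ε : Al (S.map H.lam), NI _ N ε ∧ (∀ l, H.e0 (ε l) = A0 l) ∧ ∀ l, H.e1 (ε l) = A1 l := by
  choose e he hlim _ using fun v => exists_NI_of_QA S N (H.pt v) (hQ v)
  have hO : ∀ m, (fun v => e v m) ∈ H.O := by
    intro m
    rw [H.mem_O]
    intro et het
    choose n0 hn0 using fun v => hlim v et het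
    refine ⟨(b ^ (p ^ (Finset.univ.sup n0))) m, ?_, fun v => ?_⟩
    · exact O9_pow_mem (S.map (jF Om)) (Reg H.X) (fun i j l => H.jF_mem _) (fun l => H.jF_mem _)
        hb _ m
    · exact hn0 v _ (Finset.le_sup (f := n0) (Finset.mem_univ v)) m
  have c0 : ∀ m, CRrel (gp 0 H.r0) (lz Om) H.r0 (A0 m) (e (Sum.inr false) m) :=
    O9_CR S N (cre_lz H.r0_pos) hu0 hA0 hc0 (he (Sum.inr false))
  have c1 : ∀ m, CRrel (gp 0 H.r1) (lzi Om) H.r1⁻¹ (A1 m) (e (Sum.inr true) m) :=
    O9_CR S N (cre_lzi (H.r0_pos.trans H.r0_lt)) hu1 hA1 hc1 (he (Sum.inr true))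
  refine ⟨(fun m => ⟨(fun v => e v m, A0 m, A1 m), hO m, c0 m, c1 m⟩ : Al (S.map H.lam)), ?_,
    fun l => rfl, fun l => rfl⟩
  refine O9_NI_of_joint (I := H.J ⊕ Bool) (Bk := fun v => (H.pt v).E) (S.map H.lam) H.cmp
    (fun v => S.map (lw (H.pt v))) (fun _ _ _ _ => rfl) (fun _ _ => rfl) (fun _ _ _ _ => rfl)
    (fun z hz => H.ext0 hz) N ?_
  intro v
  have h1 : Al.homOf (S.map H.lam) (H.cmp v) (S.map (lw (H.pt v))) (fun _ _ _ => rfl)
      (fun _ => rfl) (fun m => ⟨(fun v => e v m, A0 m, A1 m), hO m, c0 m, c1 m⟩ : Al (S.map H.lam))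
      = e v := by
    refine Al.ext fun l => ?_
    rw [Al.homOf_apply]
    rfl
  rw [h1]
  exact he v

end

end Pool.Agent.MP_1c8e06_ag.CY
end
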