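import Pool.Agent.Lib.MP_1c8e06_ag.Mg.G009
import Pool.Agent.Lib.MP_1c8e06_ag.Mg.G050
import Pool.Agent.Lib.MP_1c8e06_ag.Mg.G049

section

/-!
# CY H4a: a basis which is regular at infinity

Let M l g := ρ1 (act g (e l)) : Matrix G G (LaurentSeries K).  By `Al.dual'` (V1) and ρ1 (cst f) = lzi f:
∑_{lm} lzi T'_{lm} M l g * M m g' = [g = g'], i.e. (Mᵗ T' M) = 1, so M is invertible with inverse Mi.
`AJ.exists_LR` (AJ/B5a) applied to M: matrices A, Ai over K((s)) with A Ai = Ai A = 1, entries with only finitely many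
coefficients (zero for large index: Laurent polynomials in s⁻¹... a Laurent series with finite support), and
A M = M0.map (ofPowerSeries) with M0 ≡ 1 mod s.  A Laurent series with coefficients vanishing above some N is lzi f
for a unique Laurent polynomial f (finite support): A = (A').map (lzi K), Ai = (Ai').map (lzi K), A' Ai' = 1 = Ai' A' (lzi is
injective).
New basis b_l := ∑_m A'_{lm} e_m of Al S, with constants (S.ks).chb A' Ai' (AJ.Ks.chb).  Its values V l g = ρ1 (act g b_l) =
(A M) l g are in the image of K[[s]], V = 1 mod s is invertible over K[[s]], Vi its inverse.  All constants k'' of the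
basis satisfy lzi k'' ∈ K[[s]]:
 μ: b_i b_j = ∑ μ_{ijl} b_l gives V i g V j g = ∑_l lzi μ_{ijl} V l g, so lzi μ_{ijl} = ∑_g V i g V j g Vi g l;
 α: act h b_l = ∑ α_{hlm} b_m: V l (g h) = ∑_m lzi α_{hlm} V m g;  ν: 1 = ∑ ν_l b_l: 1 = ∑ lzi ν_l V l g;
 T: lzi T_{ij} = ∑_g V i g V j g (SC.tr applied to b: tr(b_i b_j) = T_{ij}; T'' = A' T A'ᵗ);  T': Vᵗ T'' V = 1, so
 T'' = (Vi)ᵗ..: entries in K[[s]].
(see the formulas of `Ks.chb` in AJ/Defs; it may be easier to prove the relations for b_l first: `AJ.GD.exists_chb` in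
AJ/A3 treats exactly this situation with D = the GD given by act: b l x := ρ1 (act x (e l)), trivial group P.)
A Laurent polynomial f with lzi f ∈ K[[s]] is xi f' for a polynomial f' (T-degree ≤ 0; xi : X ↦ T⁻¹, Defs3).
-/

set_option autoImplicit false

open Polynomial
open scoped Classical

namespace Pool.Agent.MP_1c8e06_ag.CY

open Pool.Agent.MP_1c8e06_ag.AJ

noncomputable section

set_option linter.unusedSectionVars false

variable {K : Type} [Field K] {G : Type} [Group G] [Fintype G]

private theorem H4a_lzi_C (a : K) :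
    lzi K (LaurentPolynomial.C a) = (HahnSeries.C a : LaurentSeries K) := by
  rw [lzi, LaurentPolynomial.eval₂_C]

private theorem H4a_single_pow (a : ℤ) (n : ℕ) :
    (HahnSeries.single a (1 : K) : LaurentSeries K) ^ n = HahnSeries.single ((n : ℤ) * a) 1 := by
  rw [HahnSeries.single_pow, one_pow, nsmul_eq_mul]

private theorem H4a_lzi_T (n : ℤ) :
    lzi K (LaurentPolynomial.T n) = (HahnSeries.single (-n) (1 : K) : LaurentSeries K) := by
  rw [lzi, LaurentPolynomial.eval₂_T]
  obtain ⟨m, rfl | rfl⟩ := n.eq_nat_or_neg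
  · rw [zpow_natCast, Units.val_pow_eq_pow_val]
    have h : ((sU K)⁻¹).val = (HahnSeries.single (-1 : ℤ) (1 : K) : LaurentSeries K) := rfl
    rw [h, H4a_single_pow, mul_neg_one]
  · rw [zpow_neg, zpow_natCast, ← inv_pow, inv_inv, Units.val_pow_eq_pow_val]
    have h : (sU K).val = (HahnSeries.single (1 : ℤ) (1 : K) : LaurentSeries K) := rfl
    rw [h, H4a_single_pow, mul_one, neg_neg]

private theorem H4a_lzi_CT (a : K) (n : ℤ) :
    lzi K (LaurentPolynomial.C a * LaurentPolynomial.T n) =
      (HahnSeries.single (-n) a : LaurentSeries K) := by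
  rw [map_mul, H4a_lzi_C, H4a_lzi_T, HahnSeries.C_apply, HahnSeries.single_mul_single, zero_add,
    mul_one]

private theorem H4a_bdd (f : Lam K) : ∃ N : ℕ, ∀ n : ℤ, (N : ℤ) ≤ n → (lzi K f).coeff n = 0 := by
  induction f using LaurentPolynomial.induction_on' with
  | add p q hp hq =>
    obtain ⟨N1, h1⟩ := hp
    obtain ⟨N2, h2⟩ := hq
    refine ⟨max N1 N2, fun n hn => ?_⟩
    have a1 : (N1 : ℤ) ≤ n := le_trans (by exact_mod_cast le_max_left N1 N2) hn
    have a2 : (N2 : ℤ) ≤ n := le_trans (by exact_mod_cast le_max_right N1 N2) hn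
    rw [map_add, HahnSeries.coeff_add, h1 n a1, h2 n a2, add_zero]
  | C_mul_T m a =>
    refine ⟨(-m).toNat + 1, fun n hn => ?_⟩
    rw [H4a_lzi_CT]
    refine HahnSeries.coeff_single_of_ne ?_
    intro h
    have h1 := Int.self_le_toNat (-m)
    push_cast at hn
    omega

private theorem H4a_inj : Function.Injective (lzi K) := by
  rw [injective_iff_map_eq_zero]
  intro q h
  obtain ⟨n, f, hf⟩ := LaurentPolynomial.exists_T_pow q
  have h1 : (lzi K).comp (Polynomial.toLaurent (R := K)) = AI.zinv K := by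
    refine Polynomial.ringHom_ext ?_ ?_
    · intro a
      rw [RingHom.comp_apply, Polynomial.toLaurent_C, lzi, LaurentPolynomial.eval₂_C, AI.zinv,
        Polynomial.coe_eval₂RingHom, Polynomial.eval₂_C]
    · rw [RingHom.comp_apply, Polynomial.toLaurent_X, lzi, LaurentPolynomial.eval₂_T, AI.zinv,
        Polynomial.coe_eval₂RingHom, Polynomial.eval₂_X, zpow_one]
      rfl
  have h2 : AI.zinv K f = 0 := by
    rw [← h1, RingHom.comp_apply, hf, map_mul, h, zero_mul]
  have h3 : f = 0 := AI.zinv_injective (by rw [h2, map_zero])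
  rw [h3, map_zero] at hf
  have h4 : q = q * LaurentPolynomial.T (n : ℤ) * LaurentPolynomial.T (-(n : ℤ)) := by
    rw [mul_assoc, ← LaurentPolynomial.T_add, add_neg_cancel, LaurentPolynomial.T_zero, mul_one]
  rw [h4, ← hf, zero_mul]

private theorem H4a_lzi_xi (a : K) (i : ℕ) :
    lzi K (xi K (C a * X ^ i)) = (HahnSeries.single (i : ℤ) a : LaurentSeries K) := by
  have h : xi K (C a * X ^ i) = LaurentPolynomial.C a * LaurentPolynomial.T (-(i : ℤ)) := by
    rw [xi, map_mul, map_pow, Polynomial.coe_eval₂RingHom, Polynomial.eval₂_C,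
      Polynomial.eval₂_X, LaurentPolynomial.T_pow, mul_neg_one]
  rw [h, H4a_lzi_CT, neg_neg]

private theorem H4a_fin (y : LaurentSeries K) (N : ℕ) (h0 : ∀ n : ℤ, n < 0 → y.coeff n = 0)
    (hN : ∀ n : ℤ, (N : ℤ) ≤ n → y.coeff n = 0) : ∃ f : K[X], lzi K (xi K f) = y := by
  refine ⟨∑ i ∈ Finset.range N, C (y.coeff i) * X ^ i, ?_⟩
  rw [map_sum, map_sum]
  refine HahnSeries.ext (funext fun n => ?_)
  rw [HahnSeries.coeff_sum]
  simp only [H4a_lzi_xi]
  by_cases h1 : 0 ≤ n
  · obtain ⟨m, rfl⟩ := Int.eq_ofNat_of_zero_le h1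
    by_cases h2 : m < N
    · rw [Finset.sum_eq_single m, HahnSeries.coeff_single_same]
      · intro b _ hb
        refine HahnSeries.coeff_single_of_ne ?_
        intro h
        exact hb (by exact_mod_cast h.symm)
      · intro h
        exact absurd (Finset.mem_range.2 h2) h
    · rw [hN m (by exact_mod_cast not_lt.1 h2)]
      refine Finset.sum_eq_zero fun b hb => HahnSeries.coeff_single_of_ne ?_
      intro h
      have h3 := Finset.mem_range.1 hb
      have h4 : m = b := by exact_mod_cast h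
      omega
  · rw [h0 n (not_le.1 h1)]
    refine Finset.sum_eq_zero fun b hb => HahnSeries.coeff_single_of_ne ?_
    intro h
    exact h1 (by rw [h]; positivity)

private theorem H4a_surj (y : LaurentSeries K) (N : ℕ) (hN : ∀ n : ℤ, (N : ℤ) < n → y.coeff n = 0) :
    ∃ f : Lam K, lzi K f = y := by
  set M : ℕ := (-y.order).toNat with hM
  have hM1 : -y.order ≤ (M : ℤ) := Int.self_le_toNat _
  have hc : ∀ n : ℤ, ((HahnSeries.single (M : ℤ) (1 : K) : LaurentSeries K) * y).coeff n =
      y.coeff (n - M) := by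
    intro n
    have h1 := HahnSeries.coeff_single_mul_add (r := (1 : K)) (x := y) (a := n - M) (b := (M : ℤ))
    rw [sub_add_cancel, one_mul] at h1
    exact h1
  obtain ⟨f, hf⟩ := H4a_fin ((HahnSeries.single (M : ℤ) (1 : K) : LaurentSeries K) * y)
    (N + M + 1) (fun n hn => by
      rw [hc]
      exact HahnSeries.coeff_eq_zero_of_lt_order (by omega)) (fun n hn => by
      rw [hc]
      exact hN _ (by push_cast at hn; omega))
  refine ⟨LaurentPolynomial.T (M : ℤ) * xi K f, ?_⟩
  rw [map_mul, hf, H4a_lzi_T, ← mul_assoc, HahnSeries.single_mul_single, neg_add_cancel, one_mul]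
  exact one_mul y

/-- `f` with `lzi f` regular is in the image of `xi`. -/
theorem xi_of_regular (f : Lam K) (hf : ∀ n : ℤ, n < 0 → (lzi K f).coeff n = 0) :
    ∃ f' : K[X], xi K f' = f := by
  obtain ⟨N, hN⟩ := H4a_bdd f
  obtain ⟨g, hg⟩ := H4a_fin (lzi K f) N hf hN
  exact ⟨g, H4a_inj hg⟩

private theorem H4a_Ks {B B' : Type} (φ : B → B') (kk : Ks B' G)
    (h1 : ∀ i j l, ∃ c, φ c = kk.μ i j l) (h2 : ∀ i j l, ∃ c, φ c = kk.α i j l)
    (h3 : ∀ i, ∃ c, φ c = kk.ν i) (h4 : ∀ i j, ∃ c, φ c = kk.T i j)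
    (h5 : ∀ i j, ∃ c, φ c = kk.T' i j) : ∃ k : Ks B G, kk = k.map φ := by
  choose m hm using h1
  choose a ha using h2
  choose n hn using h3
  choose t ht using h4
  choose t' ht' using h5
  refine ⟨⟨m, a, n, t, t'⟩, ?_⟩
  obtain ⟨μ, α, ν, T, T'⟩ := kk
  simp only at hm ha hn ht ht'
  simp only [Ks.map, Ks.mk.injEq]
  exact ⟨funext fun i => funext fun j => funext fun l => (hm i j l).symm,
    funext fun i => funext fun j => funext fun l => (ha i j l).symm,
    funext fun i => (hn i).symm, funext fun i => funext fun j => (ht i j).symm,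
    funext fun i => funext fun j => (ht' i j).symm⟩

/-- Solving a linear system with an invertible matrix. -/
private theorem H4a_solve {A A' : Type} [CommRing A] [CommRing A'] (v : A →+* A')
    (V Vi : Matrix G G A) (hV : V * Vi = 1) (c R : G → A') (hR : ∀ x, R x ∈ v.range)
    (h : ∀ x, R x = ∑ m, c m * v (V m x)) (m : G) : c m ∈ v.range := by
  have h1 : c m = ∑ x, R x * v (Vi x m) := by
    calc c m = ∑ n, c n * v ((V * Vi) n m) := by
          rw [hV]
          rw [Finset.sum_eq_single m]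
          · rw [Matrix.one_apply_eq, map_one, mul_one]
          · intro b _ hb
            rw [Matrix.one_apply_ne hb, map_zero, mul_zero]
          · intro h
            exact absurd (Finset.mem_univ _) h
      _ = ∑ n, ∑ x, c n * v (V n x) * v (Vi x m) := by
          refine Finset.sum_congr rfl fun n _ => ?_
          rw [Matrix.mul_apply, map_sum, Finset.mul_sum]
          refine Finset.sum_congr rfl fun x _ => ?_
          rw [map_mul, mul_assoc]
      _ = ∑ x, ∑ n, c n * v (V n x) * v (Vi x m) := Finset.sum_comm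
      _ = _ := by
          refine Finset.sum_congr rfl fun x _ => ?_
          rw [h x, Finset.sum_mul]
  rw [h1]
  exact Subring.sum_mem _ fun x _ => v.range.mul_mem (hR x) ⟨_, rfl⟩

private theorem H4a_inv (V : Matrix G G (PowerSeries K))
    (h : V.map PowerSeries.constantCoeff = 1) : ∃ Vi, V * Vi = 1 := by
  refine ⟨V⁻¹, Matrix.mul_nonsing_inv _ ?_⟩
  rw [PowerSeries.isUnit_iff_constantCoeff]
  have e := RingHom.map_det (PowerSeries.constantCoeff (R := K)) V
  rw [RingHom.mapMatrix_apply, h, Matrix.det_one] at e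
  rw [e]
  exact isUnit_one

/-- The values of the basis at all points. -/
private def H4a_GD (S : SC (Lam K) G) (ρ1 : Al S →+* LaurentSeries K)
    (h1 : ∀ f, ρ1 (Al.cst S f) = lzi K f) :
    GD (1 : Unit →* G) (lzi K) (1 : Unit →* (LaurentSeries K →+* LaurentSeries K)) where
  b l x := ρ1 (Al.act S x (Al.e S l))
  k := S.ks
  hP u l x := by
    rw [MonoidHom.one_apply, MonoidHom.one_apply, one_mul]
    rfl
  hmul j l x := by
    rw [← map_mul, ← map_mul, Al.e_mul_e, map_sum, map_sum]
    refine Finset.sum_congr rfl fun m _ => ?_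
    rw [map_mul, map_mul, Al.act_cst, h1]
    rfl
  hact h l x := by
    rw [Al.act_mul_apply, Al.act_e, map_sum, map_sum]
    refine Finset.sum_congr rfl fun m _ => ?_
    rw [map_mul, map_mul, Al.act_cst, h1]
    rfl
  hone x := by
    have h2 : ρ1 (Al.act S x 1) = 1 := by rw [map_one, map_one]
    rw [Al.one_eq_sum, map_sum, map_sum] at h2
    rw [← h2]
    refine Finset.sum_congr rfl fun m _ => ?_
    rw [map_mul, map_mul, Al.act_cst, h1]
    rfl
  htr j l := by
    have h2 := congrArg ρ1 (tr_ee S j l)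
    rw [map_sum, h1] at h2
    rw [SC.ks, ← h2]
    refine Finset.sum_congr rfl fun x _ => ?_
    rw [map_mul, map_mul]
  hdual x x' := by
    have h2 := congrArg ρ1 (Al.dual' S x x')
    rw [map_sum] at h2
    have h3 : ρ1 (if x = x' then 1 else 0) = if x = x' then 1 else 0 := by
      split_ifs
      · exact map_one _
      · exact map_zero _
    rw [h3] at h2
    rw [← h2]
    refine Finset.sum_congr rfl fun l _ => ?_
    rw [map_sum]
    refine Finset.sum_congr rfl fun m _ => ?_
    rw [map_mul, map_mul, h1, SC.ks]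
    ring

private theorem H4a_range (f : Lam K) (h : lzi K f ∈ (HahnSeries.ofPowerSeries ℤ K).range) :
    ∃ f' : K[X], xi K f' = f := by
  obtain ⟨g, hg⟩ := h
  refine xi_of_regular f fun n hn => ?_
  rw [← hg]
  have h2 := PowerSeries.coeff_coe (f := g) (i := n)
  rw [if_pos hn] at h2
  exact h2

theorem exists_basis_inf (S : SC (Lam K) G) (ρ1 : Al S →+* LaurentSeries K)
    (h1 : ∀ f, ρ1 (Al.cst S f) = lzi K f) :
    ∃ (A Ai : Matrix G G (Lam K)) (k : Ks K[X] G), A * Ai = 1 ∧ Ai * A = 1 ∧
      S.ks.chb A Ai = k.map (xi K) := by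
  set D := H4a_GD S ρ1 h1 with hD
  set M : Matrix G G (LaurentSeries K) := Matrix.of fun l x => D.b l x with hM
  set U : Matrix G G (LaurentSeries K) := Matrix.of fun l m => lzi K (D.k.T' l m) with hU
  have e1 : (M.transpose * U) * M = 1 := by
    ext1 x x'
    rw [Matrix.mul_apply, Matrix.one_apply, ← D.hdual x x', Finset.sum_comm]
    refine Finset.sum_congr rfl fun m _ => ?_
    rw [Matrix.mul_apply, Finset.sum_mul]
    rfl
  have e2 : M * (M.transpose * U) = 1 := mul_eq_one_comm.1 e1
  obtain ⟨A, Ai, V, a1, a2, a3, a4, a5⟩ := exists_LR M _ e2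
  have s1 : ∀ i j, ∃ f, lzi K f = A i j := by
    intro i j
    obtain ⟨N, hN⟩ := a3 i j
    exact H4a_surj _ N fun n hn => (hN n hn).1
  have s2 : ∀ i j, ∃ f, lzi K f = Ai i j := by
    intro i j
    obtain ⟨N, hN⟩ := a3 i j
    exact H4a_surj _ N fun n hn => (hN n hn).2
  choose A' hA' using s1
  choose Ai' hAi' using s2
  have m1 : (Matrix.of A').map (lzi K) = A := by
    ext1 i j
    exact hA' i j
  have m2 : (Matrix.of Ai').map (lzi K) = Ai := by
    ext1 i j
    exact hAi' i j
  have hone : (1 : Matrix G G (Lam K)).map (lzi K) = 1 :=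
    Matrix.map_one _ (map_zero _) (map_one _)
  have b1 : (Matrix.of A' : Matrix G G (Lam K)) * Matrix.of Ai' = 1 := by
    refine Matrix.map_injective H4a_inj ?_
    beta_reduce
    rw [Matrix.map_mul, m1, m2, a1, hone]
  have b2 : (Matrix.of Ai' : Matrix G G (Lam K)) * Matrix.of A' = 1 := by
    refine Matrix.map_injective H4a_inj ?_
    beta_reduce
    rw [Matrix.map_mul, m1, m2, a2, hone]
  obtain ⟨D', hk, hb⟩ := D.exists_chb (fun u b => rfl) (Matrix.of A') (Matrix.of Ai') b1 b2
  have hv : ∀ l x, D'.b l x = HahnSeries.ofPowerSeries ℤ K (V l x) := by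
    intro l x
    have h2 := congrFun (congrFun a5 l) x
    rw [Matrix.mul_apply] at h2
    rw [hb]
    refine Eq.trans ?_ h2
    refine Finset.sum_congr rfl fun m _ => ?_
    rw [Matrix.of_apply, hA']
    rfl
  obtain ⟨Vi, hVi⟩ := H4a_inv V a4
  have hr : ∀ l x, D'.b l x ∈ (HahnSeries.ofPowerSeries ℤ K).range := fun l x => by
    rw [hv]
    exact ⟨_, rfl⟩
  obtain ⟨k, hkk⟩ := H4a_Ks (xi K) D'.k
    (fun i j l => H4a_range _ (H4a_solve (HahnSeries.ofPowerSeries ℤ K) V Vi hVi
      (fun m => lzi K (D'.k.μ i j m)) (fun x => D'.b i x * D'.b j x)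
      (fun x => Subring.mul_mem _ (hr i x) (hr j x))
      (fun x => by
        rw [D'.hmul]
        refine Finset.sum_congr rfl fun m _ => ?_
        rw [hv]) l))
    (fun h i l => H4a_range _ (H4a_solve (HahnSeries.ofPowerSeries ℤ K) V Vi hVi
      (fun m => lzi K (D'.k.α h i m)) (fun x => D'.b i (x * h))
      (fun x => hr i _)
      (fun x => by
        rw [D'.hact]
        refine Finset.sum_congr rfl fun m _ => ?_
        rw [hv]) l))
    (fun l => H4a_range _ (H4a_solve (HahnSeries.ofPowerSeries ℤ K) V Vi hVi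
      (fun m => lzi K (D'.k.ν m)) (fun _ => 1)
      (fun _ => Subring.one_mem _)
      (fun x => by
        rw [← D'.hone x]
        refine Finset.sum_congr rfl fun m _ => ?_
        rw [hv]) l))
    (fun j l => H4a_range _ (by
      rw [← D'.htr]
      exact Subring.sum_mem _ fun x _ => Subring.mul_mem _ (hr j x) (hr l x)))
    (fun l m => H4a_range _ (H4a_solve (HahnSeries.ofPowerSeries ℤ K) V Vi hVi
      (fun l => lzi K (D'.k.T' l m)) (fun x => ∑ l, D'.b l x * lzi K (D'.k.T' l m))
      (fun x => H4a_solve (HahnSeries.ofPowerSeries ℤ K) V Vi hVi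
        (fun m => ∑ l, D'.b l x * lzi K (D'.k.T' l m)) (fun x' => if x = x' then 1 else 0)
        (fun x' => by
          split_ifs
          · exact Subring.one_mem _
          · exact Subring.zero_mem _)
        (fun x' => by
          rw [← D'.hdual x x', Finset.sum_comm]
          refine Finset.sum_congr rfl fun m _ => ?_
          rw [Finset.sum_mul]
          refine Finset.sum_congr rfl fun l _ => ?_
          rw [hv m x']) m)
      (fun x => by
        refine Finset.sum_congr rfl fun l _ => ?_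
        rw [hv, mul_comm]) l))
  refine ⟨Matrix.of A', Matrix.of Ai', k, b1, b2, ?_⟩
  rw [← hkk, hk]
  rfl

end

end Pool.Agent.MP_1c8e06_ag.CY
end

section

/-!
# CY H4b: from an algebra over the punctured line which splits at infinity to AI.WD

Take A, Ai, k from `exists_basis_inf` (H4a).  b_l := ∑_m cst (A l m) * e_m in Al S.  It satisfies
b_i b_j = ∑ cst (xi μ_{ijl}) b_l, act h b_l = ∑ cst (xi α_{hlm}) b_m, ∑ cst (xi ν_l) b_l = 1, ∑_g act g (b_i b_j) =
cst (xi T_{ij}), ∑_{lm} cst (xi T'_{lm}) act g b_l act g' b_m = [g = g'] (`AJ.Ks.chb` formulas, `Al.dual'`; or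
`AJ.GD.exists_chb` (AJ/A3) for the GD over Lam K: b l y := ρ0 (act y (e l)), ze := (ofL).comp lz, P trivial
or P = zpowers x).
lz (xi f) = zinv f for f : K[X] (X ↦ T⁻¹ ↦ s⁻¹), so ofL (lz (xi f)) = AI.ze p F f.
WD: b l y := ρ0 (act y b_l).  hg: b l (x * y) = ρ0 (act x (act y b_l)) = tau (b l y) (`Al.act_mul_apply`, h0x).
hact: b l (y * h) = ρ0 (act y (act h b_l)).  htr: ρ0 of ∑_y act y (b_i b_j).  hdual: `Decidable (x = x')` instances:
use `Subsingleton.elim` / `if_pos`, `if_neg`.
Conn': h ∈ ⊤, f : G → K[X], c with ∑_l ze (f l) * b l y = ze (C (c y)) for all y: f' := ∑_l cst (xi (f l)) b_l in Al S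
satisfies ρ0 (act y f') = ∑ ze (f l) b l y (act y (cst _) = cst _) = ofL (C (c y)): hconn gives c h = c 1.
-/

set_option autoImplicit false

open Polynomial
open scoped Classical

namespace Pool.Agent.MP_1c8e06_ag.CY

open Pool.Agent.MP_1c8e06_ag.AJ

noncomputable section

set_option linter.unusedSectionVars false

variable {p : ℕ} [Fact p.Prime] {K : Type} [Field K] [CharP K p] {G : Type} [Group G] [Fintype G]

private theorem H4b_lz_xi (f : K[X]) : lz K (xi K f) = AI.zinv K f := by
  have h : (lz K).comp (xi K) = AI.zinv K := by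
    refine Polynomial.ringHom_ext (fun a => ?_) ?_
    · rw [RingHom.comp_apply]
      simp only [xi, AI.zinv, Polynomial.coe_eval₂RingHom, Polynomial.eval₂_C]
      exact LaurentPolynomial.eval₂_C _ _ _
    · rw [RingHom.comp_apply]
      simp only [xi, AI.zinv, Polynomial.coe_eval₂RingHom, Polynomial.eval₂_X]
      rw [lz, LaurentPolynomial.eval₂_T, zpow_neg_one]
      rfl
  exact RingHom.congr_fun h f

private theorem H4b_tau_ofL (F : K[X]) (c : LaurentSeries K) :
    AI.tau p F (AI.ofL p F c) = AI.ofL p F c := by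
  unfold AI.tau AI.ofL
  rw [AdjoinRoot.lift_of]

/-- the data over the Laurent polynomials -/
private def H4b_D0 {F : K[X]} (S : SC (Lam K) G) (ρ0 : Al S →+* AI.EE p F)
    (h0 : ∀ f, ρ0 (Al.cst S f) = AI.ofL p F (lz K f)) :
    GD (1 : Unit →* G) ((AI.ofL p F).comp (lz K)) (1 : Unit →* (AI.EE p F →+* AI.EE p F)) where
  b l y := ρ0 (Al.act S y (Al.e S l))
  k := S.ks
  hP u l y := by
    rw [MonoidHom.one_apply, MonoidHom.one_apply, one_mul]
    rfl
  hmul j l y := by
    rw [← map_mul, ← map_mul, Al.e_mul_e, map_sum, map_sum]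
    refine Finset.sum_congr rfl fun m _ => ?_
    rw [map_mul, map_mul, Al.act_cst, h0]
    rfl
  hact h l y := by
    rw [Al.act_mul_apply, Al.act_e, map_sum, map_sum]
    refine Finset.sum_congr rfl fun m _ => ?_
    rw [map_mul, map_mul, Al.act_cst, h0]
    rfl
  hone y := by
    have h := congrArg (fun a => ρ0 (Al.act S y a)) (Al.one_eq_sum S)
    simp only [map_one, map_sum, map_mul, Al.act_cst, h0] at h
    exact h.symm
  htr j l := by
    have h := congrArg ρ0 (tr_ee S j l)
    simp only [map_sum, map_mul, h0] at h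
    exact h
  hdual y y' := by
    have h := congrArg ρ0 (Al.dual' S y y')
    have h2 : ρ0 (if y = y' then 1 else 0) = if y = y' then 1 else 0 := by
      split_ifs
      · exact map_one ρ0
      · exact map_zero ρ0
    rw [h2] at h
    rw [← h, map_sum]
    refine Finset.sum_congr rfl fun l _ => ?_
    rw [map_sum]
    refine Finset.sum_congr rfl fun m _ => ?_
    rw [map_mul, map_mul, h0]
    show ρ0 (Al.act S y (Al.e S l)) * AI.ofL p F (lz K (S.T' l m)) * _ = _
    ring

theorem exists_WD {x : G} {F : K[X]} (S : SC (Lam K) G) (ρ0 : Al S →+* AI.EE p F)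
    (h0 : ∀ f, ρ0 (Al.cst S f) = AI.ofL p F (lz K f))
    (h0x : ∀ a, ρ0 (Al.act S x a) = AI.tau p F (ρ0 a))
    (ρ1 : Al S →+* LaurentSeries K) (h1 : ∀ f, ρ1 (Al.cst S f) = lzi K f)
    (hconn : ∀ (f : Al S) (c : G → K),
      (∀ g, ρ0 (Al.act S g f) = AI.ofL p F (HahnSeries.C (c g))) → ∀ g, c g = c 1) :
    ∃ D : AI.WD p K G x F, D.Conn' ⊤ := by
  obtain ⟨A, Ai, k, hA, hA', hk⟩ := exists_basis_inf S ρ1 h1
  obtain ⟨D, hDk, hDb⟩ := (H4b_D0 S ρ0 h0).exists_chb (fun _ _ => rfl) A Ai hA hA'
  have hk' : D.k = k.map (xi K) := hDk.trans hk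
  have hze : ∀ f : K[X], AI.ze p F f = ((AI.ofL p F).comp (lz K)) (xi K f) := by
    intro f
    show AI.ofL p F (AI.zinv K f) = AI.ofL p F (lz K (xi K f))
    rw [H4b_lz_xi]
  have hb : ∀ l y, D.b l y = ∑ m, AI.ofL p F (lz K (A l m)) * ρ0 (Al.act S y (Al.e S m)) :=
    fun l y => hDb l y
  refine ⟨⟨D.b, k.μ, k.α, k.ν, k.T, k.T', ?_, ?_, ?_, ?_, ?_, ?_⟩, ?_⟩
  · intro l y
    rw [hb, hb, map_sum]
    refine Finset.sum_congr rfl fun m _ => ?_
    rw [Al.act_mul_apply, h0x, map_mul, H4b_tau_ofL]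
  · intro i j y
    rw [D.hmul, hk']
    refine Finset.sum_congr rfl fun m _ => ?_
    rw [hze]
    rfl
  · intro h l y
    rw [D.hact, hk']
    refine Finset.sum_congr rfl fun m _ => ?_
    rw [hze]
    rfl
  · intro y
    rw [← D.hone y, hk']
    refine Finset.sum_congr rfl fun m _ => ?_
    rw [hze]
    rfl
  · intro i j
    rw [D.htr, hk', hze]
    rfl
  · intro y y' hdec
    have h := D.hdual y y'
    rw [hk'] at h
    have h2 : (if y = y' then (1 : AI.EE p F) else 0) =
        @ite _ (y = y') (Classical.propDecidable _) 1 0 := by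
      congr
    rw [h2, ← h]
    refine Finset.sum_congr rfl fun l _ => Finset.sum_congr rfl fun m _ => ?_
    rw [hze]
    rfl
  · intro h _ f c hfc
    refine hconn (∑ l, Al.cst S (xi K (f l)) * ∑ m, Al.cst S (A l m) * Al.e S m) c
      (fun g => ?_) h
    have h2 := hfc g
    have h3 : AI.ze p F (C (c g)) = AI.ofL p F (HahnSeries.C (c g)) := by
      show AI.ofL p F (AI.zinv K (C (c g))) = _
      simp only [AI.zinv, Polynomial.coe_eval₂RingHom, Polynomial.eval₂_C]
    rw [← h3, ← h2, map_sum, map_sum]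
    refine Finset.sum_congr rfl fun l _ => ?_
    rw [map_mul, map_mul, Al.act_cst, h0, hze, map_sum, map_sum]
    show _ = _ * D.b l g
    rw [hb]
    congr 1
    refine Finset.sum_congr rfl fun m _ => ?_
    rw [map_mul, map_mul, Al.act_cst, h0]

end

end Pool.Agent.MP_1c8e06_ag.CY
end
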