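import Pool.Agent.Lib.MP_1c8e06_ag.Mg.G026
import Pool.Agent.Lib.MP_1c8e06_ag.Mg.G021
import Pool.Agent.Lib.MP_1c8e06_ag.Mg.G023
import Pool.Agent.Lib.MP_1c8e06_ag.Mg.G025
import Pool.Agent.Lib.MP_1c8e06_ag.RC.Defs

section

set_option autoImplicit false

open Polynomial

namespace Pool.Agent.MP_1c8e06_ag.AK

noncomputable section

/-!
# Task T4: Tsen's theorem, for a product of conjugates

Proof.  `K := RatFunc k`, `y := algebraMap K M RatFunc.X`, `n := finrank K F`, bases `e : Fin n → M` of `F` and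
`f : Fin (d * n) → M` of `F'` over `K`.  Let `U₁ := ∏ i, span_k (range fun j => s i (f j))`, `U₂ := span_k {a} * (span_k (range e)) ^ d`,
`U := U₁ ⊔ U₂` (finitely generated: `Submodule.FG.mul`, `Submodule.FG.pow`).  `c` from `exists_bound F U`, `S := c`,
`ι := (Fin (d * n) ⊕ Fin n) × Fin (S + 1)` and
`P := ∏ i : Fin d, (∑ j, ∑ q, X (inl j, q) * C (y ^ q * s i (f j))) - C a * (∑ j, ∑ q, X (inr j, q) * C (y ^ q * e j)) ^ d : MvPolynomial ι M`.
For `v : ι → k` let `c_v := ∑ j q, algebraMap (v (inl j, q)) * y ^ q * f j ∈ F'`, `z_v := ∑ j q, … * e j ∈ F`.  Then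
`eval v P = ∏ i, s i c_v - a * z_v ^ d` (`s i` fixes `y` and constants), which is in `F` (`hs`, `ha`), and in
`Yr (d * S) * U`: each factor is in `Yr S * span (range fun j => s i (f j))`, so the product is in `Yr S ^ d * U₁ ≤ Yr (d * S) * U₁` (induct on
`Finset.prod` or on `d`, `Yr_mul`); same for the power.  `W` from `exists_bound` with `r := d * S`: `eval v P ∈ W` and
`finrank k W ≤ n * (d * S + c + 1) < (d * n + n) * (S + 1) = card ι` (as `S = c`, `n > 0`, `d > 0`).
The constant coefficient of `P` is `0` (`d > 0`).  `common_zero_alg`: `v ≠ 0` with `P(v) = 0`.  The elements `y ^ q * f j` are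
linearly independent over `k` (the `f j` are independent over `K`, the powers of `X` are independent over `k` in `K`), so if all
`v (inl j, q) = 0` fail then `c_v ≠ 0`; similarly `z_v ≠ 0` if some `v (inr j, q) ≠ 0`.
-/

private theorem T4_lin_mem {k M : Type} [Field k] [Field M] [Algebra k M] (y : M) {J : Type}
    [Fintype J] (c : ℕ) (g : J → M) (v : J → Fin (c + 1) → k) :
    ∑ j, ∑ q : Fin (c + 1), algebraMap k M (v j q) * (y ^ (q : ℕ) * g j) ∈
      Yr k y c * Submodule.span k (Set.range g) := by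
  refine Submodule.sum_mem _ fun j _ => Submodule.sum_mem _ fun q _ => ?_
  have h : algebraMap k M (v j q) * (y ^ (q : ℕ) * g j) = (v j q • y ^ (q : ℕ)) * g j := by
    rw [Algebra.smul_def]; ring
  rw [h]
  refine Submodule.mul_mem_mul (Submodule.smul_mem _ _ (Submodule.subset_span ?_))
    (Submodule.subset_span ⟨j, rfl⟩)
  exact ⟨(q : ℕ), Nat.lt_succ_iff.mp q.2, rfl⟩

private theorem T4_prod_mem {k M : Type} [Field k] [Field M] [Algebra k M] (y : M) {J : Type}
    (c : ℕ) (l : J → M) (S : J → Submodule k M) (h : ∀ i, l i ∈ Yr k y c * S i)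
    (T : Finset J) : ∏ i ∈ T, l i ∈ Yr k y (T.card * c) * ∏ i ∈ T, S i := by
  classical
  induction T using Finset.induction_on with
  | empty =>
    rw [Finset.prod_empty, Finset.prod_empty, Finset.card_empty, zero_mul]
    have h1 : (1 : M) = 1 * 1 := (one_mul 1).symm
    rw [h1]
    refine Submodule.mul_mem_mul (Submodule.subset_span ⟨0, Set.mem_Iic.mpr le_rfl, ?_⟩) ?_
    · simp
    · exact Submodule.one_le.mp le_rfl
  | insert i T hi ih =>
    rw [Finset.prod_insert hi, Finset.prod_insert hi, Finset.card_insert_of_notMem hi]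
    have h1 := Submodule.mul_mem_mul (h i) ih
    have h2 : Yr k y c * S i * (Yr k y (T.card * c) * ∏ x ∈ T, S x) =
        (Yr k y c * Yr k y (T.card * c)) * (S i * ∏ x ∈ T, S x) := by ring
    rw [h2] at h1
    have h3 : (T.card + 1) * c = c + T.card * c := by ring
    rw [h3]
    exact mul_le_mul' (Yr_mul y c (T.card * c)) le_rfl h1

private theorem T4_prod_fg {k M : Type} [Field k] [Field M] [Algebra k M] {J : Type}
    (S : J → Submodule k M) (h : ∀ i, (S i).FG) (T : Finset J) : (∏ i ∈ T, S i).FG := by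
  classical
  induction T using Finset.induction_on with
  | empty =>
    rw [Finset.prod_empty]
    rw [Submodule.one_eq_span]
    exact Submodule.fg_span_singleton 1
  | insert i T hi ih =>
    rw [Finset.prod_insert hi]
    exact (h i).mul ih

private theorem T4_lin_mem_F {k M : Type} [Field k] [Field M] [Algebra (RatFunc k) M] [Algebra k M]
    [IsScalarTower k (RatFunc k) M] (F : Submodule (RatFunc k) M) {J : Type}
    [Fintype J] (c : ℕ) (g : J → M) (hg : ∀ j, g j ∈ F) (v : J → Fin (c + 1) → k) :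
    ∑ j, ∑ q : Fin (c + 1), algebraMap k M (v j q) *
      (algebraMap (RatFunc k) M RatFunc.X ^ (q : ℕ) * g j) ∈ F := by
  refine Submodule.sum_mem _ fun j _ => Submodule.sum_mem _ fun q _ => ?_
  have h : algebraMap k M (v j q) * (algebraMap (RatFunc k) M RatFunc.X ^ (q : ℕ) * g j) =
      (algebraMap k (RatFunc k) (v j q) * RatFunc.X ^ (q : ℕ)) • g j := by
    rw [Algebra.smul_def, map_mul, map_pow, ← IsScalarTower.algebraMap_apply]; ring
  rw [h]
  exact F.smul_mem _ (hg j)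

private theorem T4_lin_ne {k M : Type} [Field k] [Field M] [Algebra (RatFunc k) M] [Algebra k M]
    [IsScalarTower k (RatFunc k) M] {J : Type}
    [Fintype J] (c : ℕ) (g : J → M) (hg : LinearIndependent (RatFunc k) g)
    (v : J → Fin (c + 1) → k)
    (h0 : ∑ j, ∑ q : Fin (c + 1), algebraMap k M (v j q) *
      (algebraMap (RatFunc k) M RatFunc.X ^ (q : ℕ) * g j) = 0) : ∀ j q, v j q = 0 := by
  classical
  have h1 : ∑ j, (∑ q : Fin (c + 1), algebraMap k (RatFunc k) (v j q) * RatFunc.X ^ (q : ℕ)) • g j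
      = 0 := by
    rw [← h0]
    refine Finset.sum_congr rfl fun j _ => ?_
    rw [Finset.sum_smul]
    refine Finset.sum_congr rfl fun q _ => ?_
    rw [Algebra.smul_def, map_mul, map_pow, ← IsScalarTower.algebraMap_apply]; ring
  have h2 := Fintype.linearIndependent_iff.mp hg _ h1
  intro j q
  have h3 := h2 j
  have h4 : algebraMap k[X] (RatFunc k) (∑ q : Fin (c + 1), Polynomial.C (v j q) * Polynomial.X ^ (q : ℕ)) = 0 := by
    rw [← h3, map_sum]
    refine Finset.sum_congr rfl fun q _ => ?_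
    rw [map_mul, map_pow, RatFunc.algebraMap_X, RatFunc.algebraMap_C, RatFunc.algebraMap_eq_C]
  have h5 : (∑ q : Fin (c + 1), Polynomial.C (v j q) * Polynomial.X ^ (q : ℕ) : k[X]) = 0 :=
    (map_eq_zero_iff _ (RatFunc.algebraMap_injective k)).mp h4
  have h6 := congrArg (fun p : k[X] => p.coeff (q : ℕ)) h5
  simp only [Polynomial.finsetSum_coeff, Polynomial.coeff_C_mul, Polynomial.coeff_X_pow,
    Polynomial.coeff_zero] at h6
  rw [Finset.sum_eq_single q] at h6
  · simpa using h6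
  · intro q' _ hq'
    rw [if_neg (fun h => hq' (Fin.ext h.symm)), mul_zero]
  · intro h; exact absurd (Finset.mem_univ q) h

theorem tsen {k M : Type} [Field k] [IsAlgClosed k] [Field M] [Algebra (RatFunc k) M]
    (F F' : Submodule (RatFunc k) M) (hF : FiniteDimensional (RatFunc k) F)
    (hF' : FiniteDimensional (RatFunc k) F') (d : ℕ) (hd : 0 < d)
    (hn : 0 < Module.finrank (RatFunc k) F)
    (hdim : Module.finrank (RatFunc k) F' = d * Module.finrank (RatFunc k) F)
    (s : Fin d → M →ₐ[RatFunc k] M) (hs : ∀ c ∈ F', ∏ i, s i c ∈ F) (a : M)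
    (ha : ∀ z ∈ F, a * z ^ d ∈ F) :
    ∃ c ∈ F', ∃ z ∈ F, (c ≠ 0 ∨ z ≠ 0) ∧ ∏ i, s i c = a * z ^ d := by
  classical
  let algkM : Algebra k M := ((algebraMap (RatFunc k) M).comp (algebraMap k (RatFunc k))).toAlgebra
  have tower : IsScalarTower k (RatFunc k) M := IsScalarTower.of_algebraMap_eq fun _ => rfl
  set y : M := algebraMap (RatFunc k) M RatFunc.X with hy
  set n : ℕ := Module.finrank (RatFunc k) F with hn'
  let bF : Module.Basis (Fin n) (RatFunc k) F := Module.finBasis (RatFunc k) F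
  let bF' : Module.Basis (Fin (d * n)) (RatFunc k) F' := Module.finBasisOfFinrankEq (RatFunc k) F' hdim
  let e : Fin n → M := fun j => (bF j : M)
  let f : Fin (d * n) → M := fun j => (bF' j : M)
  have he : LinearIndependent (RatFunc k) e :=
    bF.linearIndependent.map' F.subtype (Submodule.ker_subtype F)
  have hf : LinearIndependent (RatFunc k) f :=
    bF'.linearIndependent.map' F'.subtype (Submodule.ker_subtype F')
  let U₁ : Submodule k M := ∏ i, Submodule.span k (Set.range fun j => s i (f j))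
  let U₂ : Submodule k M := Submodule.span k {a} * (∏ _i : Fin d, Submodule.span k (Set.range e))
  have hU : (U₁ ⊔ U₂).FG := by
    refine Submodule.FG.sup (T4_prod_fg _ (fun i => ?_) _) ?_
    · exact Submodule.fg_span (Set.finite_range _)
    · exact (Submodule.fg_span (Set.finite_singleton _)).mul
        (T4_prod_fg _ (fun i => Submodule.fg_span (Set.finite_range _)) _)
  obtain ⟨c, hc⟩ := exists_bound F hF (U₁ ⊔ U₂) hU
  obtain ⟨W, hWfd, hWle, hW⟩ := hc (d * c)
  let ι : Type := (Fin (d * n) ⊕ Fin n) × Fin (c + 1)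
  let P : MvPolynomial ι M :=
    (∏ i : Fin d, ∑ j : Fin (d * n), ∑ q : Fin (c + 1),
      MvPolynomial.X ((Sum.inl j, q) : ι) * MvPolynomial.C (y ^ (q : ℕ) * s i (f j))) -
    MvPolynomial.C a * (∑ j : Fin n, ∑ q : Fin (c + 1),
      MvPolynomial.X ((Sum.inr j, q) : ι) * MvPolynomial.C (y ^ (q : ℕ) * e j)) ^ d
  let cv : (ι → k) → M := fun v => ∑ j : Fin (d * n), ∑ q : Fin (c + 1),
    algebraMap k M (v (Sum.inl j, q)) * (y ^ (q : ℕ) * f j)
  let zv : (ι → k) → M := fun v => ∑ j : Fin n, ∑ q : Fin (c + 1),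
    algebraMap k M (v (Sum.inr j, q)) * (y ^ (q : ℕ) * e j)
  have hsc : ∀ (i : Fin d) (v : ι → k), s i (cv v) = ∑ j : Fin (d * n), ∑ q : Fin (c + 1),
      algebraMap k M (v (Sum.inl j, q)) * (y ^ (q : ℕ) * s i (f j)) := by
    intro i v
    show s i (∑ j : Fin (d * n), ∑ q : Fin (c + 1),
      algebraMap k M (v (Sum.inl j, q)) * (y ^ (q : ℕ) * f j)) = _
    rw [map_sum]
    refine Finset.sum_congr rfl fun j _ => ?_
    rw [map_sum]
    refine Finset.sum_congr rfl fun q _ => ?_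
    rw [map_mul, map_mul, map_pow, hy, AlgHom.commutes,
      IsScalarTower.algebraMap_apply k (RatFunc k) M, AlgHom.commutes]
  have hP : ∀ v : ι → k, MvPolynomial.eval (fun i => algebraMap k M (v i)) P =
      ∏ i, s i (cv v) - a * zv v ^ d := by
    intro v
    have h1 : MvPolynomial.eval (fun i => algebraMap k M (v i)) P =
        (∏ i : Fin d, ∑ j : Fin (d * n), ∑ q : Fin (c + 1),
          algebraMap k M (v (Sum.inl j, q)) * (y ^ (q : ℕ) * s i (f j))) - a * zv v ^ d := by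
      show MvPolynomial.eval (fun i => algebraMap k M (v i)) (_ - _) = _
      simp only [map_sub, map_prod, map_sum, map_mul, map_pow, MvPolynomial.eval_X,
        MvPolynomial.eval_C, zv]
    rw [h1]
    congr 1
    exact Finset.prod_congr rfl fun i _ => (hsc i v).symm
  have hcF : ∀ v, cv v ∈ F' := fun v =>
    T4_lin_mem_F F' c f (fun j => (bF' j).2) (fun j q => v (Sum.inl j, q))
  have hzF : ∀ v, zv v ∈ F := fun v =>
    T4_lin_mem_F F c e (fun j => (bF j).2) (fun j q => v (Sum.inr j, q))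
  have hPW : ∀ v : ι → k, MvPolynomial.eval (fun i => algebraMap k M (v i)) P ∈ W := by
    intro v
    rw [hP v]
    refine hW _ (F.sub_mem (hs _ (hcF v)) (ha _ (hzF v))) ?_
    rw [Submodule.mul_sup]
    refine Submodule.sub_mem _ (Submodule.mem_sup_left ?_) (Submodule.mem_sup_right ?_)
    · have h1 := T4_prod_mem y c (fun i : Fin d => s i (cv v))
        (fun i => Submodule.span k (Set.range fun j => s i (f j)))
        (fun i => by
          rw [hsc i v]
          exact T4_lin_mem y c (fun j => s i (f j)) (fun j q => v (Sum.inl j, q))) Finset.univ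
      rw [Finset.card_univ, Fintype.card_fin] at h1
      exact h1
    · have h1 := T4_prod_mem y c (fun _ : Fin d => zv v)
        (fun _ => Submodule.span k (Set.range e))
        (fun i => T4_lin_mem y c e (fun j q => v (Sum.inr j, q))) Finset.univ
      have hpw : ∏ _i : Fin d, zv v = zv v ^ d := by simp
      rw [Finset.card_univ, Fintype.card_fin, hpw] at h1
      have h2 := Submodule.mul_mem_mul (Submodule.mem_span_singleton_self (R := k) a) h1
      have h3 : Submodule.span k {a} * (Yr k y (d * c) * ∏ _i : Fin d, Submodule.span k (Set.range e))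
          = Yr k y (d * c) * U₂ := by
        show _ = Yr k y (d * c) * (Submodule.span k {a} * (∏ _i : Fin d, Submodule.span k (Set.range e)))
        ring
      rw [h3] at h2
      exact h2
  have hP0 : MvPolynomial.constantCoeff P = 0 := by
    show MvPolynomial.constantCoeff (_ - _) = _
    simp only [map_sub, map_prod, map_sum, map_mul, map_pow, MvPolynomial.constantCoeff_X,
      MvPolynomial.constantCoeff_C, zero_mul, Finset.sum_const_zero, Finset.prod_const,
      Finset.card_univ, Fintype.card_fin]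
    rw [zero_pow hd.ne', mul_zero, sub_zero]
  have hcard : Module.finrank k W < Fintype.card ι := by
    have h1 : Fintype.card ι = (d * n + n) * (c + 1) := by
      show Fintype.card ((Fin (d * n) ⊕ Fin n) × Fin (c + 1)) = _
      simp
    rw [h1]
    refine lt_of_le_of_lt hWle ?_
    have h2 : 0 < d * n := Nat.mul_pos hd hn
    nlinarith
  obtain ⟨v, hv0, hv⟩ := common_zero_alg P hP0 W hWfd hPW hcard
  refine ⟨cv v, hcF v, zv v, hzF v, ?_, ?_⟩
  · by_contra hcon
    push Not at hcon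
    obtain ⟨h1, h2⟩ := hcon
    apply hv0
    funext i
    obtain ⟨i, q⟩ := i
    rcases i with j | j
    · exact T4_lin_ne c f hf (fun j q => v (Sum.inl j, q)) h1 j q
    · exact T4_lin_ne c e he (fun j q => v (Sum.inr j, q)) h2 j q
  · rw [hP v] at hv
    exact sub_eq_zero.mp hv

end

end Pool.Agent.MP_1c8e06_ag.AK
end

section

set_option autoImplicit false

open Polynomial

namespace Pool.Agent.MP_1c8e06_ag.AK

noncomputable section

/-!
# Task T5: norms are surjective

Proof.  Algebra structure `ψ.toAlgebra` on `M`.  `F := {a | a ∈ Fx H}`, `F' := {a | a ∈ Fx H'}` as `RatFunc k`-subspaces of `M`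
(`h.smul_ψ`).  `finrank F = H.index`, `finrank F' = H'.index = H'.relIndex H * H.index = ℓ * H.index` (`IsG.finrank_Fx`,
`Subgroup.relIndex_mul_index`), `M` is finite dimensional (`IsG.finiteDimensional`), `H.index > 0`.
`s i := (t ^ (i : ℕ) • ·)` as an algebra homomorphism `M →ₐ[RatFunc k] M`.  For `c ∈ Fx H'` the product
`N c := ∏_{i<ℓ} t ^ i • c` is fixed by `H`: for `h ∈ H'`, `h • t ^ i • c = t ^ i • (t ^ (-i) h t ^ i) • c = t ^ i • c` (`hnorm`), and
`t • N c = ∏_{i<ℓ} t ^ (i+1) • c = N c` since `t ^ ℓ • c = c` (`Finset.prod_range_succ'`, `prod_range_succ`); every element of `H` is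
`h * t ^ i` (`hgen`).  `tsen` with `a := n₀`, `d := ℓ` (`0 < ℓ`: `hidx` and finiteness of `R`: the relative index is nonzero): `c ∈ F'`, `z ∈ F`,
not both zero, `N c = n₀ * z ^ ℓ`.  If `z = 0` then `N c = 0`, so `t ^ i • c = 0` for an `i`, `c = 0`: contradiction.  So `z ≠ 0`, and `c / z` works:
`t ^ i • z = z`; it is nonzero since `N (c / z) = n₀ ≠ 0`.
-/

private theorem T5_smul_prod {M R : Type} [Field M] [Group R] [MulSemiringAction R M] (g : R)
    (n : ℕ) (f : ℕ → M) : g • ∏ i ∈ Finset.range n, f i = ∏ i ∈ Finset.range n, g • f i :=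
  map_prod (MulSemiringAction.toRingHom R M g) f (Finset.range n)

private theorem T5_fix {M R : Type} [Field M] [Group R] [MulSemiringAction R M]
    (H' H : Subgroup R) {ℓ : ℕ} (hℓ : 0 < ℓ) (t : R)
    (ht : t ∈ H) (htn : t ^ ℓ ∈ H') (hgen : ∀ a ∈ H, ∃ i : ℕ, ∃ h ∈ H', a = h * t ^ i)
    (hnorm : ∀ a ∈ H, ∀ h ∈ H', a * h * a⁻¹ ∈ H') (c : M) (hc : ∀ h ∈ H', h • c = c) :
    ∀ a ∈ H, a • ∏ i ∈ Finset.range ℓ, t ^ i • c = ∏ i ∈ Finset.range ℓ, t ^ i • c := by
  have h1 : ∀ h ∈ H', h • ∏ i ∈ Finset.range ℓ, t ^ i • c = ∏ i ∈ Finset.range ℓ, t ^ i • c := by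
    intro h hh
    rw [T5_smul_prod]
    refine Finset.prod_congr rfl fun i _ => ?_
    have h2 : (t ^ i)⁻¹ * h * (t ^ i)⁻¹⁻¹ ∈ H' := hnorm _ (H.inv_mem (H.pow_mem ht i)) h hh
    have h3 : h • t ^ i • c = t ^ i • ((t ^ i)⁻¹ * h * (t ^ i)⁻¹⁻¹) • c := by
      rw [smul_smul, smul_smul]
      congr 1
      group
    rw [h3, hc _ h2]
  have h2 : t • ∏ i ∈ Finset.range ℓ, t ^ i • c = ∏ i ∈ Finset.range ℓ, t ^ i • c := by
    obtain ⟨m, rfl⟩ : ∃ m, ℓ = m + 1 := ⟨ℓ - 1, by omega⟩
    rw [T5_smul_prod]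
    have h3 : ∀ i : ℕ, t • t ^ i • c = t ^ (i + 1) • c := by
      intro i
      rw [smul_smul, pow_succ']
    rw [Finset.prod_congr rfl fun i _ => h3 i, Finset.prod_range_succ, Finset.prod_range_succ',
      pow_zero, one_smul, hc _ htn]
  intro a ha
  obtain ⟨i, h, hh, rfl⟩ := hgen a ha
  have h3 : ∀ i : ℕ, t ^ i • ∏ i ∈ Finset.range ℓ, t ^ i • c =
      ∏ i ∈ Finset.range ℓ, t ^ i • c := by
    intro i
    induction i with
    | zero => rw [pow_zero, one_smul]
    | succ i ih => rw [pow_succ', mul_smul, ih, h2]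
  rw [mul_smul, h3, h1 h hh]

theorem norm_surj {k M R : Type} [Field k] [IsAlgClosed k] [Field M] [Group R] [Finite R]
    [MulSemiringAction R M] {ψ : RatFunc k →+* M} {Z : Subgroup R} (h : IsG ψ R Z)
    (H' H : Subgroup R) (hZ : Z ≤ H') (hle : H' ≤ H) {ℓ : ℕ} (hidx : H'.relIndex H = ℓ) (t : R)
    (ht : t ∈ H) (htn : t ^ ℓ ∈ H') (hgen : ∀ a ∈ H, ∃ i : ℕ, ∃ h ∈ H', a = h * t ^ i)
    (hnorm : ∀ a ∈ H, ∀ h ∈ H', a * h * a⁻¹ ∈ H') (n₀ : M) (hn₀ : n₀ ≠ 0)
    (hfix : ∀ h ∈ H, h • n₀ = n₀) :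
    ∃ c : M, c ≠ 0 ∧ (∀ h ∈ H', h • c = c) ∧ ∏ i ∈ Finset.range ℓ, t ^ i • c = n₀ := by
  let _ : Algebra (RatFunc k) M := ψ.toAlgebra
  have hψ : algebraMap (RatFunc k) M = ψ := rfl
  have hsm : ∀ (r : R) (x : RatFunc k) (a : M), r • (x • a) = x • (r • a) := by
    intro r x a
    rw [Algebra.smul_def, Algebra.smul_def, smul_mul', hψ, h.smul_ψ]
  let sub : Subgroup R → Submodule (RatFunc k) M := fun G =>
    { carrier := {a | ∀ h ∈ G, h • a = a}
      add_mem' := fun {a b} ha hb h hh => by rw [smul_add, ha h hh, hb h hh]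
      zero_mem' := fun h _ => smul_zero h
      smul_mem' := fun x a ha h hh => by rw [hsm, ha h hh] }
  have hsub : ∀ G a, a ∈ sub G ↔ a ∈ (Fx G : Subfield M) := fun G a => Iff.rfl
  have hfd : FiniteDimensional (RatFunc k) M := h.finiteDimensional hψ
  have hℓ : 0 < ℓ := by
    rw [← hidx]
    exact Nat.pos_of_ne_zero Subgroup.index_ne_zero_of_finite
  have hn : 0 < Module.finrank (RatFunc k) (sub H) := by
    rw [h.finrank_Fx H (hZ.trans hle) hψ (sub H) (hsub H)]
    exact Nat.pos_of_ne_zero Subgroup.index_ne_zero_of_finite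
  have hdim : Module.finrank (RatFunc k) (sub H') = ℓ * Module.finrank (RatFunc k) (sub H) := by
    rw [h.finrank_Fx H (hZ.trans hle) hψ (sub H) (hsub H),
      h.finrank_Fx H' hZ hψ (sub H') (hsub H'), ← hidx, Subgroup.relIndex_mul_index hle]
  let s : Fin ℓ → M →ₐ[RatFunc k] M := fun i =>
    { MulSemiringAction.toRingHom R M (t ^ (i : ℕ)) with
      commutes' := fun x => h.smul_ψ _ x }
  have hsi : ∀ i a, s i a = t ^ (i : ℕ) • a := fun i a => rfl
  have hprod : ∀ a : M, ∏ i, s i a = ∏ i ∈ Finset.range ℓ, t ^ i • a := by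
    intro a
    simp only [hsi]
    exact Fin.prod_univ_eq_prod_range (fun i => t ^ i • a) ℓ
  obtain ⟨c, hc, z, hz, hcz, hN⟩ := tsen (sub H) (sub H') inferInstance inferInstance ℓ hℓ hn hdim s
    (fun c hc => by
      rw [hprod]
      exact T5_fix H' H hℓ t ht htn hgen hnorm c hc) n₀
    (fun z hz g hg => by rw [smul_mul', smul_pow', hfix g hg, hz g hg])
  rw [hprod] at hN
  have hc' : ∀ g ∈ H', g • c = c := hc
  have hz' : ∀ g ∈ H, g • z = z := hz
  have hz0 : z ≠ 0 := by
    intro h0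
    rw [h0, zero_pow hℓ.ne', mul_zero, Finset.prod_eq_zero_iff] at hN
    obtain ⟨i, _, hi⟩ := hN
    have hc0 : c = 0 := by
      have h1 : (t ^ i)⁻¹ • t ^ i • c = (t ^ i)⁻¹ • (0 : M) := by rw [hi]
      rw [inv_smul_smul, smul_zero] at h1
      exact h1
    rcases hcz with h1 | h1
    · exact h1 hc0
    · exact h1 h0
  have hfin : ∏ i ∈ Finset.range ℓ, t ^ i • (c * z⁻¹) = n₀ := by
    have h1 : ∀ i ∈ Finset.range ℓ, t ^ i • (c * z⁻¹) = (t ^ i • c) * z⁻¹ := by
      intro i _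
      rw [smul_mul', smul_inv'', hz' _ (H.pow_mem ht i)]
    rw [Finset.prod_congr rfl h1, Finset.prod_mul_distrib, hN, Finset.prod_const,
      Finset.card_range, inv_pow, mul_assoc, mul_inv_cancel₀ (pow_ne_zero _ hz0), mul_one]
  refine ⟨c * z⁻¹, ?_, ?_, hfin⟩
  · intro h0
    rw [h0] at hfin
    simp only [smul_zero, Finset.prod_const, Finset.card_range, zero_pow hℓ.ne'] at hfin
    exact hn₀ hfin.symm
  · intro g hg
    rw [smul_mul', smul_inv'', hc' g hg, hz' g (hle hg)]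

end

end Pool.Agent.MP_1c8e06_ag.AK
end

section

set_option autoImplicit false

open Polynomial

namespace Pool.Agent.MP_1c8e06_ag.AK

noncomputable section

/-!
# Task S3b: extension of a crossed homomorphism from `H'` to `H`

Proof.  Write `c : R → M`, `b s := t • a (t⁻¹ * s * t) / a s` for `s ∈ H'` (`t⁻¹ s t ∈ H'` by `norm` for `t⁻¹ ∈ H`).
1. `b` is a crossed homomorphism on `H'` (the quotient of the crossed homomorphisms `s ↦ t • a (t⁻¹ s t)` and `a`; the first:
   `t • a (t⁻¹ s s' t) = t • (a (t⁻¹ s t) * (t⁻¹ s t) • a (t⁻¹ s' t)) = (t • a (t⁻¹ s t)) * s • (t • a (t⁻¹ s' t))`).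
   For `z ∈ Z` (i.e. `z` acts trivially, `h.ker`): `t⁻¹ z t = z` (`hZc`), `a z` is fixed by `t` (`haZ`), so `b z = 1`.
2. `hilbert90` for `H'` (`(Nat.card H' : M) ≠ 0`: a power of `ℓ`, `hℓ`, `ψ` injective... use `hℓM`): `m ≠ 0`, `s • m = b s * m` for `s ∈ H'`.
3. In the group `Equiv.Perm M` (or `M ≃+ M`) let `f s := (x ↦ a s * s • x)` for `s ∈ H'` (a homomorphism `H' → Perm M`), and for `u ≠ 0` let `τ u := (x ↦ u * t • x)`.
   For `u` with `s • u = b s * u` for all `s ∈ H'`: `τ u * f s * (τ u)⁻¹ = f (t s t⁻¹)`: at `x`: `(τ u)⁻¹ x = t⁻¹ • (u⁻¹ * x)`,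
   `f s` of it `= a s * s • t⁻¹ • (u⁻¹ x)`, `τ u`: `u * t • a s * (t s t⁻¹) • (u⁻¹ x) = u * t • a s * ((t s t⁻¹) • u)⁻¹ * (t s t⁻¹) • x`, and with
   `s' = t s t⁻¹`, `s' • u = b s' * u = (t • a s) / a s' * u`, so this is `a s' * s' • x`.
   `(τ u) ^ ℓ = (x ↦ (∏_{i<ℓ} t ^ i • u) * t ^ ℓ • x)`.
4. `n₀ := a (t ^ ℓ) / ∏_{i<ℓ} t ^ i • m`.  Then `f (t ^ ℓ) = (multiplication by n₀) * (τ m) ^ ℓ`.  By 3 `(τ m) ^ ℓ f s (τ m) ^ (-ℓ) = f (t ^ ℓ s t ^ (-ℓ)) =
   f (t ^ ℓ) f s f (t ^ ℓ)⁻¹`, so multiplication by `n₀` commutes with `f s`: `s • n₀ = n₀` for `s ∈ H'`.  `τ m` commutes with `f (t ^ ℓ)` (3 with `s = t ^ ℓ`) and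
   with `(τ m) ^ ℓ`, so `t • n₀ = n₀`.  Hence `n₀` is fixed by `H` (`gen`).
5. `norm_surj`: `n₀ = ∏_{i<ℓ} t ^ i • c`, `c ≠ 0` fixed by `H'`.  `u := m * c` satisfies `s • u = b s * u` and `(τ u) ^ ℓ = f (t ^ ℓ)`.
6. `ext_hom` for `A := H`, `N := H'.subgroupOf H`, `B := Perm M`: `F : H → Perm M`, with `F s = f s`, `F t = τ u`.
   `a' g := F g 1` for `g ∈ H` (and `a' g := a g` or `1` for `g ∉ H`).  Every `F g` is of the form `x ↦ a' g * g • x` with `a' g ≠ 0`: true for
   `g ∈ H'` and `g = t`, stable under products.  So `a'` is a crossed homomorphism on `H`, equal to `a` on `H'`.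
-/

section perm

variable {M R : Type} [Field M] [Group R] [MulSemiringAction R M]

private lemma S3b_ne (r : R) {c : M} (hc : c ≠ 0) : r • c ≠ 0 := by
  intro h
  apply hc
  have h1 : r⁻¹ • (r • c) = r⁻¹ • (0 : M) := by rw [h]
  rwa [inv_smul_smul, smul_zero] at h1

/-- The permutation `x ↦ c * r • x`. -/
private def S3b_P (c : M) (hc : c ≠ 0) (r : R) : Equiv.Perm M where
  toFun x := c * r • x
  invFun x := r⁻¹ • (c⁻¹ * x)
  left_inv x := by
    show r⁻¹ • (c⁻¹ * (c * r • x)) = x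
    rw [inv_mul_cancel_left₀ hc, inv_smul_smul]
  right_inv x := by
    show c * r • (r⁻¹ • (c⁻¹ * x)) = x
    rw [smul_inv_smul, mul_inv_cancel_left₀ hc]

private lemma S3b_one (c : M) (hc : c ≠ 0) (r : R) : S3b_P c hc r 1 = c := by
  show c * r • (1 : M) = c
  rw [smul_one, mul_one]

private lemma S3b_mul (c : M) (hc : c ≠ 0) (r : R) (c' : M) (hc' : c' ≠ 0) (r' : R) :
    S3b_P c hc r * S3b_P c' hc' r' =
      S3b_P (c * r • c') (mul_ne_zero hc (S3b_ne r hc')) (r * r') := by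
  ext x
  show c * r • (c' * r' • x) = c * r • c' * (r * r') • x
  rw [smul_mul', mul_smul, mul_assoc]

private lemma S3b_inj {c : M} {hc : c ≠ 0} {r : R} {c' : M} {hc' : c' ≠ 0} {r' : R}
    (h : S3b_P c hc r = S3b_P c' hc' r') : c = c' := by
  have h1 := congrArg (fun e : Equiv.Perm M => e 1) h
  simp only [S3b_one] at h1
  exact h1

private lemma S3b_congr {c : M} (hc : c ≠ 0) {r : R} {c' : M} (hc' : c' ≠ 0) {r' : R}
    (h : c = c') (h' : r = r') : S3b_P c hc r = S3b_P c' hc' r' := by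
  subst h
  subst h'
  rfl

private lemma S3b_prod_ne (u : M) (hu : u ≠ 0) (t : R) (n : ℕ) :
    ∏ i ∈ Finset.range n, t ^ i • u ≠ 0 :=
  Finset.prod_ne_zero_iff.2 fun _ _ => S3b_ne _ hu

private lemma S3b_pow (u : M) (hu : u ≠ 0) (t : R) (n : ℕ) :
    S3b_P u hu t ^ n = S3b_P (∏ i ∈ Finset.range n, t ^ i • u) (S3b_prod_ne u hu t n) (t ^ n) := by
  induction n with
  | zero =>
    ext x
    show x = (∏ i ∈ Finset.range 0, t ^ i • u) * (t ^ 0) • x
    rw [Finset.prod_range_zero, pow_zero, one_smul, one_mul]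
  | succ n ih =>
    rw [pow_succ, ih, S3b_mul]
    exact S3b_congr _ _ (Finset.prod_range_succ _ _).symm (pow_succ _ _).symm

end perm

theorem crossed_step {k M R : Type} [Field k] [IsAlgClosed k] [Field M] [Group R] [Finite R]
    [MulSemiringAction R M] {ψ : RatFunc k →+* M} {Z : Subgroup R} (h : IsG ψ R Z)
    {ℓ : ℕ} [hℓ : Fact ℓ.Prime] (hℓM : (ℓ : M) ≠ 0) (hR : IsPGroup ℓ R)
    (hZc : ∀ z ∈ Z, ∀ r : R, z * r = r * z) (H' H : Subgroup R) (hZ : Z ≤ H') (t : R)
    (hs : Stp H' H t ℓ) (a : R → M) (ha : IsCr H' a) (haZ : ∀ z ∈ Z, ∀ r : R, r • a z = a z) :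
    ∃ a' : R → M, IsCr H a' ∧ ∀ s ∈ H', a' s = a s := by
  classical
  have htH := hs.mem
  have hconj : ∀ s ∈ H', t⁻¹ * s * t ∈ H' := by
    intro s hs'
    have := hs.norm t⁻¹ (H.inv_mem htH) s hs'
    rwa [inv_inv] at this
  -- step 1
  obtain ⟨b, hbdef⟩ : ∃ b : R → M, ∀ s, b s = t • a (t⁻¹ * s * t) / a s := ⟨_, fun _ => rfl⟩
  have hb : IsCr H' b := by
    refine ⟨fun s hs' => ?_, fun s hs1 s' hs2 => ?_⟩
    · rw [hbdef]
      exact div_ne_zero (S3b_ne _ (ha.ne _ (hconj s hs'))) (ha.ne s hs')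
    · rw [hbdef, hbdef, hbdef]
      have e1 : t⁻¹ * (s * s') * t = (t⁻¹ * s * t) * (t⁻¹ * s' * t) := by group
      have e2 : t * (t⁻¹ * s * t) = s * t := by group
      have n1 := ha.ne s hs1
      have n2 : s • a s' ≠ 0 := S3b_ne _ (ha.ne s' hs2)
      rw [e1, ha.mul _ (hconj s hs1) _ (hconj s' hs2), ha.mul s hs1 s' hs2, smul_mul', ← mul_smul,
        e2, mul_smul, div_eq_mul_inv (t • a (t⁻¹ * s' * t)), smul_mul', smul_inv'']
      field_simp
  have hbker : ∀ z ∈ H', (∀ m : M, z • m = m) → b z = 1 := by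
    intro z hz hz'
    have hzZ : z ∈ Z := (h.ker z).1 hz'
    have e1 : t⁻¹ * z * t = z := by
      rw [mul_assoc, hZc z hzZ t, ← mul_assoc, inv_mul_cancel, one_mul]
    rw [hbdef, e1, haZ z hzZ t]
    exact div_self (ha.ne z hz)
  -- step 2
  have hcard : (Nat.card H' : M) ≠ 0 := by
    obtain ⟨n, hn⟩ := (IsPGroup.iff_card).1 (hR.to_subgroup H')
    rw [hn, Nat.cast_pow]
    exact pow_ne_zero _ hℓM
  obtain ⟨m, hm, hsm⟩ := hilbert90 H' hcard b hb hbker
  -- step 3
  have hcomm : ∀ (u : M) (hu : u ≠ 0), (∀ s ∈ H', s • u = b s * u) →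
      ∀ (s s' : R) (h1 : s ∈ H') (h2 : s' ∈ H'), s' = t * s * t⁻¹ →
      S3b_P u hu t * S3b_P (a s) (ha.ne s h1) s = S3b_P (a s') (ha.ne s' h2) s' * S3b_P u hu t := by
    intro u hu hsu s s' h1 h2 h3
    rw [S3b_mul, S3b_mul]
    refine S3b_congr _ _ ?_ ?_
    · rw [hsu s' h2, hbdef]
      have e1 : t⁻¹ * s' * t = s := by rw [h3]; group
      rw [e1]
      have n1 := ha.ne s' h2
      field_simp
    · rw [h3]
      group
  -- step 4
  have hPm := S3b_prod_ne m hm t ℓ
  have hat := ha.ne _ hs.pow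
  obtain ⟨n₀, hn₀def⟩ : ∃ n₀ : M, n₀ = a (t ^ ℓ) / ∏ i ∈ Finset.range ℓ, t ^ i • m := ⟨_, rfl⟩
  have hn₀ : n₀ ≠ 0 := by
    rw [hn₀def]
    exact div_ne_zero hat hPm
  have hn₀m : n₀ * ∏ i ∈ Finset.range ℓ, t ^ i • m = a (t ^ ℓ) := by
    rw [hn₀def]
    exact div_mul_cancel₀ _ hPm
  have hfac : S3b_P (a (t ^ ℓ)) hat (t ^ ℓ) = S3b_P n₀ hn₀ (1 : R) * S3b_P m hm t ^ ℓ := by
    rw [S3b_pow, S3b_mul]
    refine S3b_congr _ _ ?_ ?_
    · rw [one_smul, hn₀m]
    · rw [one_mul]
  have hcommt := hcomm m hm hsm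
  have hcommpow : ∀ (n : ℕ) (s s' : R) (h1 : s ∈ H') (h2 : s' ∈ H'), s' = t ^ n * s * (t ^ n)⁻¹ →
      S3b_P m hm t ^ n * S3b_P (a s) (ha.ne s h1) s =
        S3b_P (a s') (ha.ne s' h2) s' * S3b_P m hm t ^ n := by
    intro n
    induction n with
    | zero =>
      intro s s' h1 h2 h3
      rw [pow_zero, one_mul, inv_one, mul_one] at h3
      subst h3
      rw [pow_zero, one_mul, mul_one]
    | succ n ih =>
      intro s s' h1 h2 h3
      have h4 : t * s * t⁻¹ ∈ H' := hs.norm t htH s h1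
      rw [pow_succ, mul_assoc, hcommt s (t * s * t⁻¹) h1 h4 rfl, ← mul_assoc,
        ih (t * s * t⁻¹) s' h4 h2 (by rw [h3, pow_succ]; group), mul_assoc]
  have hn₀H' : ∀ s ∈ H', s • n₀ = n₀ := by
    intro s' hs'
    have h1 : (t ^ ℓ)⁻¹ * s' * t ^ ℓ ∈ H' :=
      H'.mul_mem (H'.mul_mem (H'.inv_mem hs.pow) hs') hs.pow
    have h2 := hcommpow ℓ _ s' h1 hs' (by group)
    have h3 : S3b_P (a (t ^ ℓ)) hat (t ^ ℓ) * S3b_P (a ((t ^ ℓ)⁻¹ * s' * t ^ ℓ)) (ha.ne _ h1)
        ((t ^ ℓ)⁻¹ * s' * t ^ ℓ) =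
        S3b_P (a s') (ha.ne s' hs') s' * S3b_P (a (t ^ ℓ)) hat (t ^ ℓ) := by
      rw [S3b_mul, S3b_mul]
      refine S3b_congr _ _ ?_ ?_
      · rw [← ha.mul _ hs.pow _ h1, ← ha.mul _ hs' _ hs.pow]
        congr 1
        group
      · group
    rw [hfac, mul_assoc, h2, ← mul_assoc, ← mul_assoc] at h3
    have h4 := mul_right_cancel h3
    rw [S3b_mul, S3b_mul] at h4
    have h5 := S3b_inj h4
    rw [one_smul, mul_comm] at h5
    exact (mul_left_cancel₀ (ha.ne s' hs') h5).symm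
  have hn₀t : t • n₀ = n₀ := by
    have h2 := hcommt (t ^ ℓ) (t ^ ℓ) hs.pow hs.pow (by
      rw [← pow_succ', pow_succ, mul_inv_cancel_right])
    rw [hfac, ← mul_assoc, mul_assoc (S3b_P n₀ hn₀ (1 : R)), ← pow_succ, pow_succ', ← mul_assoc] at h2
    have h4 := mul_right_cancel h2
    rw [S3b_mul, S3b_mul] at h4
    have h5 := S3b_inj h4
    rw [one_smul, mul_comm n₀ m] at h5
    exact mul_left_cancel₀ hm h5
  have hn₀tp : ∀ i : ℕ, t ^ i • n₀ = n₀ := by
    intro i
    induction i with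
    | zero => rw [pow_zero, one_smul]
    | succ i ih => rw [pow_succ, mul_smul, hn₀t, ih]
  have hn₀H : ∀ g ∈ H, g • n₀ = n₀ := by
    intro g hg
    obtain ⟨i, s, hs', rfl⟩ := hs.gen g hg
    rw [mul_smul, hn₀tp, hn₀H' s hs']
  -- step 5
  obtain ⟨c, hc, hcH', hcprod⟩ := norm_surj h H' H hZ hs.le hs.idx t hs.mem hs.pow hs.gen hs.norm
    n₀ hn₀ hn₀H
  have hu : m * c ≠ 0 := mul_ne_zero hm hc
  have hsu : ∀ s ∈ H', s • (m * c) = b s * (m * c) := by
    intro s hs'
    rw [smul_mul', hsm s hs', hcH' s hs', mul_assoc]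
  have hpow : S3b_P (m * c) hu t ^ ℓ = S3b_P (a (t ^ ℓ)) hat (t ^ ℓ) := by
    rw [S3b_pow]
    refine S3b_congr _ _ ?_ rfl
    rw [← hn₀m, ← hcprod, mul_comm, ← Finset.prod_mul_distrib]
    exact Finset.prod_congr rfl fun i _ => smul_mul' _ _ _
  -- step 6
  have hN : (H'.subgroupOf H).Normal := by
    refine ⟨fun n hn g => ?_⟩
    rw [Subgroup.mem_subgroupOf] at hn ⊢
    exact hs.norm g g.2 n hn
  have hmemN : ∀ n : H'.subgroupOf H, ((n : H) : R) ∈ H' := fun n => Subgroup.mem_subgroupOf.1 n.2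
  let f : H'.subgroupOf H →* Equiv.Perm M :=
    { toFun := fun n => S3b_P (a ((n : H) : R)) (ha.ne _ (hmemN n)) ((n : H) : R)
      map_one' := by
        ext x
        show a 1 * (1 : R) • x = x
        rw [ha.one, one_mul, one_smul]
      map_mul' := fun n n' => by
        rw [S3b_mul]
        exact S3b_congr _ _ (ha.mul _ (hmemN n) _ (hmemN n')) rfl }
  obtain ⟨F, hF1, hF2⟩ := ext_hom (H'.subgroupOf H) (⟨t, htH⟩ : H) ℓ hℓ.out.pos
    (Subgroup.mem_subgroupOf.2 hs.pow)
    (fun i h1 h2 h3 => hs.min i h1 h2 (Subgroup.mem_subgroupOf.1 h3))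
    (fun g => by
      obtain ⟨i, s, hs', hg⟩ := hs.gen g g.2
      exact ⟨i, ⟨s, hs.le hs'⟩, Subgroup.mem_subgroupOf.2 hs', Subtype.ext hg⟩)
    f (S3b_P (m * c) hu t)
    (fun n n' hnn => by
      have h1 := hcomm (m * c) hu hsu ((n : H) : R) ((n' : H) : R) (hmemN n) (hmemN n')
        (congrArg (fun g : H => (g : R)) hnn)
      rw [mul_inv_eq_iff_eq_mul]
      exact h1)
    hpow
  have hshape : ∀ g : H, ∃ (e : M) (he : e ≠ 0), F g = S3b_P e he (g : R) := by
    intro g
    obtain ⟨i, s, hs', hg⟩ := hs.gen g g.2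
    have e1 : g = ((⟨⟨s, hs.le hs'⟩, Subgroup.mem_subgroupOf.2 hs'⟩ : H'.subgroupOf H) : H) *
        (⟨t, htH⟩ : H) ^ i := Subtype.ext hg
    have e2 : F g = S3b_P (a s) (ha.ne s hs') s * S3b_P (m * c) hu t ^ i := by
      conv_lhs => rw [e1]
      rw [map_mul, map_pow, hF1, hF2]
      rfl
    rw [S3b_pow, S3b_mul] at e2
    exact ⟨_, mul_ne_zero (ha.ne s hs') (S3b_ne s (S3b_prod_ne (m * c) hu t i)),
      e2.trans (S3b_congr _ _ rfl hg.symm)⟩
  obtain ⟨a', ha'⟩ : ∃ a' : R → M, ∀ (g : R) (hg : g ∈ H), a' g = F ⟨g, hg⟩ 1 :=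
    ⟨fun g => if hg : g ∈ H then F ⟨g, hg⟩ 1 else 1, fun g hg => dif_pos hg⟩
  have ha'ne : ∀ g ∈ H, a' g ≠ 0 := by
    intro g hg
    obtain ⟨e, he, h1⟩ := hshape ⟨g, hg⟩
    rw [ha' g hg, h1, S3b_one]
    exact he
  have hFa' : ∀ (g : R) (hg : g ∈ H), F ⟨g, hg⟩ = S3b_P (a' g) (ha'ne g hg) g := by
    intro g hg
    obtain ⟨e, he, h1⟩ := hshape ⟨g, hg⟩
    rw [h1]
    refine S3b_congr _ _ ?_ rfl
    rw [ha' g hg, h1, S3b_one]
  refine ⟨a', ⟨ha'ne, fun g hg g' hg' => ?_⟩, fun s hs' => ?_⟩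
  · have h1 : F ⟨g * g', H.mul_mem hg hg'⟩ = F ⟨g, hg⟩ * F ⟨g', hg'⟩ := by
      rw [← map_mul]
      rfl
    rw [hFa', hFa', hFa', S3b_mul] at h1
    exact S3b_inj h1
  · have h1 := hF1 ⟨⟨s, hs.le hs'⟩, Subgroup.mem_subgroupOf.2 hs'⟩
    have h2 := hFa' s (hs.le hs')
    have h3 : S3b_P (a' s) (ha'ne s (hs.le hs')) s = S3b_P (a s) (ha.ne s hs') s :=
      h2.symm.trans h1
    exact S3b_inj h3

end

end Pool.Agent.MP_1c8e06_ag.AK
end

section

set_option autoImplicit false

open Polynomial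
open scoped Classical

namespace Pool.Agent.MP_1c8e06_ag.RC

noncomputable section

/-!
# Task T8: Artin-Schreier theory with the lifting property (pure field theory)

`M` is the fixed field of `τ`, `L / M` is Galois with group `zpowers τ` of order `p`.
(1) `w`: the trace `L → M`, `a ↦ ∑ i < p, τ^i a`, is not zero (linear independence of characters:
`linearIndependent_monoidHom`, or `Algebra.trace` surjective for separable extensions, `Algebra.trace_surjective`,
`Algebra.trace_eq_sum_automorphisms`); take `z` with `∑ i < p, τ^i z = 1` and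
`w := - ∑ i < p, i * τ^i z` (`i : ℕ` cast to `L`); `τ w = w + 1`, because `τ^p = 1` and `p = 0` in `L`:
`τ w = -∑ i τ^(i+1) z = -∑ (i+1) τ^(i+1) z + ∑ τ^(i+1) z = w + 1`.
(2) `w ^ p - w` is fixed by `τ`, hence in `M`.
(3) `w` generates `L` over `M`: the elements `w ^ i`, `i < p`, are linearly independent over `M` (the minimal polynomial
of `w` over `M` has the `p` different roots `w + j`, so its degree is `≥ p = [L : M]`; it is `Y ^ p - Y - (w^p - w)`).
(4) lifting: `L` is isomorphic over `M` to `AdjoinRoot (Y ^ p - Y - C c)`; or use the power basis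
of `w` (`IntermediateField.adjoin.powerBasis`, `PowerBasis.lift` with the algebra structure on `A` given by
`φ.toAlgebra`), `aeval y (minpoly) = 0`.
-/

private theorem T8_core {p : ℕ} (hp : p.Prime) {F L : Type} [Field F] [Field L] [Algebra F L]
    [FiniteDimensional F L] (hfr : Module.finrank F L = p) (w : L)
    (hw : w ∉ (algebraMap F L).range) (c : F) (hc : algebraMap F L c = w ^ p - w) :
    (∀ (A : Type) [CommRing A] (φ : F →+* A) (y : A), y ^ p - y = φ c →
      ∃ ψ : L →+* A, (∀ m : F, ψ (algebraMap F L m) = φ m) ∧ ψ w = y) ∧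
    ∀ (A : Type) [CommRing A] (ψ ψ' : L →+* A),
      (∀ m : F, ψ (algebraMap F L m) = ψ' (algebraMap F L m)) → ψ w = ψ' w → ψ = ψ' := by
  have hint : IsIntegral F w := Algebra.IsIntegral.isIntegral w
  have hdeg : (minpoly F w).natDegree = p := by
    have h1 : (minpoly F w).natDegree ∣ p := by
      have := minpoly.degree_dvd (K := F) (L := L) hint
      rwa [hfr] at this
    rcases (Nat.dvd_prime hp).1 h1 with h | h
    · exact absurd (minpoly.natDegree_eq_one_iff.1 h) hw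
    · exact h
  have hmon : (X ^ p - X - C c : F[X]).Monic ∧ (X ^ p - X - C c : F[X]).natDegree = p := by
    have e : (X ^ p - X - C c : F[X]) = X ^ p - (X + C c) := by ring
    have hlt : (X + C c : F[X]).natDegree < p := by
      rw [natDegree_X_add_C]; exact hp.one_lt
    have hlt' : (X + C c : F[X]).degree < (p : WithBot ℕ) := by
      rw [degree_X_add_C]; exact_mod_cast hp.one_lt
    refine ⟨?_, ?_⟩
    · rw [e]; exact monic_X_pow_sub hlt'
    · rw [e, natDegree_sub_eq_left_of_natDegree_lt (by rw [natDegree_X_pow]; exact hlt),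
        natDegree_X_pow]
  have hmin : minpoly F w = X ^ p - X - C c := by
    have h0 : aeval w (X ^ p - X - C c : F[X]) = 0 := by
      simp only [map_sub, map_pow, aeval_X, aeval_C, hc]
      ring
    exact eq_of_dvd_of_natDegree_le_of_leadingCoeff (minpoly.dvd F w h0)
      (by rw [hmon.2, hdeg]) (by rw [(minpoly.monic hint).leadingCoeff, hmon.1.leadingCoeff])
  have htop : Algebra.adjoin F {w} = ⊤ := by
    have h1 := (Field.primitive_element_iff_minpoly_natDegree_eq F w).2 (hdeg.trans hfr.symm)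
    rw [← IntermediateField.adjoin_simple_toSubalgebra_of_isAlgebraic hint.isAlgebraic, h1]
    rfl
  set pb := PowerBasis.ofAdjoinEqTop hint htop with hpb
  have hgen : pb.gen = w := PowerBasis.ofAdjoinEqTop_gen hint htop
  refine ⟨fun A _ φ y hy => ?_, fun A _ ψ ψ' h1 h2 => ?_⟩
  · let := φ.toAlgebra
    have hy' : aeval y (minpoly F pb.gen) = 0 := by
      rw [hgen, hmin]
      simp only [map_sub, map_pow, aeval_X, aeval_C]
      rw [hy]
      exact sub_self _
    refine ⟨(pb.lift y hy').toRingHom, fun m => ?_, ?_⟩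
    · exact AlgHom.commutes (pb.lift y hy') m
    · have := pb.lift_gen y hy'
      rw [hgen] at this
      exact this
  · let := (ψ.comp (algebraMap F L)).toAlgebra
    let f : L →ₐ[F] A := { ψ with commutes' := fun m => rfl }
    let g : L →ₐ[F] A := { ψ' with commutes' := fun m => (h1 m).symm }
    have hfg : f = g := by
      apply pb.algHom_ext
      rw [hgen]
      exact h2
    ext x
    exact DFunLike.congr_fun hfg x

theorem exists_AS {p : ℕ} [hp : Fact p.Prime] {K L : Type} [Field K] [Field L] [Algebra K L]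
    [FiniteDimensional K L] [IsGalois K L] [CharP L p] (τ : L ≃ₐ[K] L) (hτ : orderOf τ = p) :
    ∃ w : L, τ w = w + 1 ∧
      ∃ c : IntermediateField.fixedField (Subgroup.zpowers τ), (c : L) = w ^ p - w ∧
        (∀ (A : Type) [CommRing A] (φ : IntermediateField.fixedField (Subgroup.zpowers τ) →+* A)
          (y : A), y ^ p - y = φ c → ∃ ψ : L →+* A, (∀ m : IntermediateField.fixedField
            (Subgroup.zpowers τ), ψ (m : L) = φ m) ∧ ψ w = y) ∧
        ∀ (A : Type) [CommRing A] (ψ ψ' : L →+* A), (∀ m : IntermediateField.fixedField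
            (Subgroup.zpowers τ), ψ (m : L) = ψ' (m : L)) → ψ w = ψ' w → ψ = ψ' := by
  have hpp : p.Prime := hp.out
  have hτp : τ ^ p = 1 := by rw [← hτ]; exact pow_orderOf_eq_one τ
  have hsucc : ∀ (i : ℕ) (a : L), τ ((τ ^ i) a) = (τ ^ (i + 1)) a := by
    intro i a
    rw [pow_succ']
    rfl
  -- the trace is nonzero
  obtain ⟨z0, hz0⟩ : ∃ z0 : L, ∑ i ∈ Finset.range p, (τ ^ i) z0 ≠ 0 := by
    by_contra hcon
    push Not at hcon
    have hinj : Function.Injective
        (fun i : Fin p => (((τ ^ (i : ℕ) : L ≃ₐ[K] L) : L →* L))) := by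
      intro i j hij
      have h1 : τ ^ (i : ℕ) = τ ^ (j : ℕ) := by
        ext x
        exact DFunLike.congr_fun hij x
      have h2 := pow_injOn_Iio_orderOf (x := τ) (by rw [hτ]; exact i.2) (by rw [hτ]; exact j.2) h1
      exact Fin.ext h2
    have hli := (linearIndependent_monoidHom L L).comp _ hinj
    rw [Fintype.linearIndependent_iff] at hli
    have h3 := hli (fun _ => 1) (by
      funext x
      simp only [Function.comp, one_smul, Finset.sum_apply, Pi.zero_apply]
      have := hcon x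
      rw [Finset.sum_range] at this
      exact this) ⟨0, hpp.pos⟩
    exact one_ne_zero h3
  set t0 : L := ∑ i ∈ Finset.range p, (τ ^ i) z0 with ht0
  have hshift : ∀ a : L, ∑ i ∈ Finset.range p, (τ ^ (i + 1)) a
      = ∑ i ∈ Finset.range p, (τ ^ i) a := by
    intro a
    have h1 := Finset.sum_range_succ (fun i => (τ ^ i) a) p
    have h2 := Finset.sum_range_succ' (fun i => (τ ^ i) a) p
    rw [h1] at h2
    simp only [hτp, pow_zero] at h2
    exact (add_right_cancel h2).symm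
  have hτt0 : τ t0 = t0 := by
    rw [ht0, map_sum]
    simp only [hsucc]
    exact hshift z0
  have hτit0 : ∀ i : ℕ, (τ ^ i) t0 = t0 := by
    intro i
    induction i with
    | zero => rfl
    | succ n ih => rw [← hsucc, ih, hτt0]
  set z : L := z0 / t0 with hz
  have hz1 : ∑ i ∈ Finset.range p, (τ ^ i) z = 1 := by
    simp only [hz, map_div₀, hτit0]
    rw [← Finset.sum_div]
    exact div_self hz0
  have hpL : (p : L) = 0 := CharP.cast_eq_zero L p
  set w : L := - ∑ i ∈ Finset.range p, (i : L) * (τ ^ i) z with hw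
  have hτw : τ w = w + 1 := by
    have h1 : τ w = - ∑ i ∈ Finset.range p, (i : L) * (τ ^ (i + 1)) z := by
      rw [hw, map_neg, map_sum]
      simp only [map_mul, map_natCast, hsucc]
    have h2 := Finset.sum_range_succ (fun i : ℕ => (i : L) * (τ ^ i) z) p
    have h3 := Finset.sum_range_succ' (fun i : ℕ => (i : L) * (τ ^ i) z) p
    rw [h2, hpL, zero_mul, add_zero] at h3
    simp only [Nat.cast_zero, zero_mul, add_zero, Nat.cast_add, Nat.cast_one, add_mul, one_mul,
      Finset.sum_add_distrib] at h3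
    rw [hshift z, hz1] at h3
    rw [h1, hw, h3]
    ring
  have hfix : ∀ a : L, τ a = a → a ∈ IntermediateField.fixedField (Subgroup.zpowers τ) := by
    intro a ha
    rw [IntermediateField.mem_fixedField_iff]
    intro f hf
    have h1 : Subgroup.zpowers τ ≤ MulAction.stabilizer (L ≃ₐ[K] L) a := by
      rw [Subgroup.zpowers_le]
      exact ha
    exact h1 hf
  have hfix' : ∀ m : IntermediateField.fixedField (Subgroup.zpowers τ), τ (m : L) = m := by
    intro m
    exact (IntermediateField.mem_fixedField_iff _ _).1 m.2 τ (Subgroup.mem_zpowers τ)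
  have hc : τ (w ^ p - w) = w ^ p - w := by
    rw [map_sub, map_pow, hτw, add_pow_char, one_pow]
    ring
  refine ⟨w, hτw, ⟨w ^ p - w, hfix _ hc⟩, rfl, ?_⟩
  have hfr : Module.finrank (IntermediateField.fixedField (Subgroup.zpowers τ)) L = p := by
    rw [IntermediateField.finrank_fixedField_eq_card, Nat.card_zpowers, hτ]
  have hwn : w ∉ (algebraMap (IntermediateField.fixedField (Subgroup.zpowers τ)) L).range := by
    rintro ⟨m, hm⟩
    have h1 := hfix' m
    have h2 : (m : L) = w := hm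
    rw [h2, hτw] at h1
    exact one_ne_zero (left_eq_add.1 h1.symm)
  exact T8_core hpp hfr w hwn ⟨w ^ p - w, hfix _ hc⟩ rfl

end

end Pool.Agent.MP_1c8e06_ag.RC
end
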