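import Pool.Agent.Lib.MP_1c8e06_ag.Mg.G039

section

set_option autoImplicit false

open Polynomial
open scoped Classical

namespace Pool.Agent.MP_1c8e06_ag.RC

noncomputable section

/-!
# Task T4: separation of the conjugates of the place

`D := O.decompositionSubgroup (RatFunc k)`, `C := BL k true L`.
`inf_sep`: let `σ ∉ D`.  `O' := σ⁻¹ • O` (or `O.comap σ`: the valuation subring `{x | σ x ∈ O}`) is again a place over
infinity, different from `O` (`dec_iff`).  Both contain `C` (`inf_int`), neither is `⊤`.  The centers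
`𝔭 = {c | O.valuation c < 1}` and `𝔭' = {c | O.valuation (σ c) < 1}` are maximal ideals of `C` (nonzero primes of
a Dedekind domain, `exists_center`), and `𝔭 ≠ 𝔭'` by `center_eq`.  So `𝔭 ⊔ 𝔭' = ⊤`: `1 = a + c` with
`a ∈ 𝔭`, `c ∈ 𝔭'`.  `c` is integral, so `τ c` is integral and in `O` for every `τ`.
`inf_e`: choose `c σ` for every `σ ∉ D` by `inf_sep`; `c := ∏ σ ∉ D, c σ` (a product over
`Finset.univ.filter (· ∉ D)`), so `c - 1` has valuation `< 1` (product of elements `≡ 1`), `τ c ∈ O` for all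
`τ`, and `O.valuation (σ c) < 1` for `σ ∉ D`.  `e := ∏ τ ∈ D, τ c`.  For `δ ∈ D`: `δ e = e`
(reindexing).  `e ≡ 1`: `τ c - 1 = τ (c - 1)`, `dec_val`.  For `σ ∉ D`: `σ e = ∏ τ ∈ D, σ (τ c)`, the factor `τ = 1` has
valuation `< 1`, the others are in `O`.  (The group is finite: `Fintype (L ≃ₐ[RatFunc k] L)`.)
-/

section
variable {k : Type} [Field k] {L : Type} [Field L] [Algebra (RatFunc k) L]
  [FiniteDimensional (RatFunc k) L] [IsGalois (RatFunc k) L]

omit [FiniteDimensional (RatFunc k) L] [IsGalois (RatFunc k) L] in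
private theorem T4_comap_val (O : ValuationSubring L) (σ : L ≃ₐ[RatFunc k] L) (a : L) :
    (O.comap (σ : L →+* L)).valuation a < 1 ↔ O.valuation (σ a) < 1 := by
  rw [val_lt_one_iff, val_lt_one_iff, ValuationSubring.mem_comap, ValuationSubring.mem_comap,
    map_inv₀]
  have h1 : (σ : L →+* L) a = σ a := rfl
  rw [h1, map_eq_zero]

theorem inf_sep (O : ValuationSubring L) (hO : Inf k O) (σ : L ≃ₐ[RatFunc k] L)
    (hσ : σ ∉ O.decompositionSubgroup (RatFunc k)) :
    ∃ c : L, (∀ τ : L ≃ₐ[RatFunc k] L, τ c ∈ O) ∧ O.valuation (c - 1) < 1 ∧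
      O.valuation (σ c) < 1 := by
  have hO' : Inf k (O.comap (σ : L →+* L)) := by
    refine ⟨fun c => ?_, ?_, ?_⟩
    · rw [ValuationSubring.mem_comap]
      change σ (algebraMap (RatFunc k) L _) ∈ O
      rw [σ.commutes]
      exact hO.const c
    · rw [ValuationSubring.mem_comap]
      change σ (algebraMap (RatFunc k) L _) ∈ O
      rw [σ.commutes]
      exact hO.sinv
    · rw [ValuationSubring.mem_comap]
      change ¬ σ (algebraMap (RatFunc k) L _) ∈ O
      rw [σ.commutes]
      exact hO.pole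
  have hne : O.comap (σ : L →+* L) ≠ O := by
    intro h
    apply hσ
    rw [dec_iff]
    intro a
    have h2 : a ∈ O.comap (σ : L →+* L) ↔ a ∈ O := by rw [h]
    rw [ValuationSubring.mem_comap] at h2
    exact h2
  obtain ⟨v, hv, hv2⟩ := exists_center (B := BL k true L) O (fun b => inf_int O hO _ b.2)
    (inf_ne_top O hO)
  obtain ⟨w, hw, hw2⟩ := exists_center (B := BL k true L) (O.comap (σ : L →+* L))
    (fun b => inf_int _ hO' _ b.2) (inf_ne_top _ hO')
  have hvw : v.asIdeal ≠ w.asIdeal := by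
    intro h
    have h2 : v = w := IsDedekindDomain.HeightOneSpectrum.ext h
    apply hne
    rw [hw, hv, h2]
  have hsup := Ideal.IsMaximal.coprime_of_ne v.isMaximal w.isMaximal hvw
  have h1 : (1 : BL k true L) ∈ v.asIdeal ⊔ w.asIdeal := by
    rw [hsup]
    exact Submodule.mem_top
  obtain ⟨a, ha, c, hc, hac⟩ := Submodule.mem_sup.1 h1
  refine ⟨(c : L), fun τ => ?_, ?_, ?_⟩
  · exact inf_int O hO _ (actB true τ c).2
  · have h2 : (c : L) - 1 = -(a : L) := by
      have h3 : ((a : BL k true L) : L) + (c : L) = 1 := congrArg Subtype.val hac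
      rw [← h3]
      ring
    rw [h2, Valuation.map_neg]
    exact (hv2 a).1 ha
  · exact (T4_comap_val O σ (c : L)).1 ((hw2 c).1 hc)

private theorem T4_mul_one {L : Type} [Field L] (O : ValuationSubring L) {a b : L}
    (ha : O.valuation (a - 1) < 1) (hb : O.valuation (b - 1) < 1) :
    O.valuation (a * b - 1) < 1 := by
  have haO : a ∈ O := by
    have h1 : a - 1 ∈ O := (O.valuation_le_one_iff _).1 ha.le
    have h2 : a = (a - 1) + 1 := by ring
    rw [h2]
    exact add_mem h1 (one_mem O)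
  have h3 : a * b - 1 = a * (b - 1) + (a - 1) := by ring
  rw [h3]
  refine Valuation.map_add_lt _ ?_ ha
  rw [map_mul]
  exact lt_of_le_of_lt (mul_le_of_le_one_left' ((O.valuation_le_one_iff _).2 haO)) hb

private theorem T4_prod_one {L : Type} [Field L] (O : ValuationSubring L) {ι : Type}
    (s : Finset ι) (f : ι → L) (h : ∀ i ∈ s, O.valuation (f i - 1) < 1) :
    O.valuation ((∏ i ∈ s, f i) - 1) < 1 := by
  classical
  induction s using Finset.induction_on with
  | empty => simp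
  | insert a s ha ih =>
    rw [Finset.prod_insert ha]
    exact T4_mul_one O (h a (Finset.mem_insert_self a s))
      (ih fun i hi => h i (Finset.mem_insert_of_mem hi))

private theorem T4_prod_lt {L : Type} [Field L] (O : ValuationSubring L) {ι : Type}
    (s : Finset ι) (f : ι → L) (i : ι) (hi : i ∈ s) (hlt : O.valuation (f i) < 1)
    (h : ∀ j ∈ s, f j ∈ O) : O.valuation (∏ i ∈ s, f i) < 1 := by
  classical
  rw [← Finset.mul_prod_erase s f hi, map_mul]
  refine lt_of_le_of_lt (mul_le_of_le_one_right' ((O.valuation_le_one_iff _).2 ?_)) hlt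
  exact prod_mem fun j hj => h j (Finset.mem_of_mem_erase hj)

theorem inf_e (O : ValuationSubring L) (hO : Inf k O) :
    ∃ e : L, (∀ σ ∈ O.decompositionSubgroup (RatFunc k), σ e = e) ∧ O.valuation (e - 1) < 1 ∧
      ∀ σ : L ≃ₐ[RatFunc k] L, σ ∉ O.decompositionSubgroup (RatFunc k) →
        O.valuation (σ e) < 1 := by
  have hsep : ∀ σ : L ≃ₐ[RatFunc k] L, ∃ c : L, σ ∉ O.decompositionSubgroup (RatFunc k) →
      (∀ τ : L ≃ₐ[RatFunc k] L, τ c ∈ O) ∧ O.valuation (c - 1) < 1 ∧
      O.valuation (σ c) < 1 := by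
    intro σ
    by_cases h : σ ∈ O.decompositionSubgroup (RatFunc k)
    · exact ⟨0, fun h2 => absurd h h2⟩
    · obtain ⟨c, hc⟩ := inf_sep O hO σ h
      exact ⟨c, fun _ => hc⟩
  choose f hf using hsep
  set c : L := ∏ σ ∈ Finset.univ.filter
    (fun σ : L ≃ₐ[RatFunc k] L => σ ∉ O.decompositionSubgroup (RatFunc k)), f σ with hcdef
  have hc1 : ∀ τ : L ≃ₐ[RatFunc k] L, τ c ∈ O := by
    intro τ
    rw [hcdef, map_prod]
    exact prod_mem fun σ hσ => (hf σ (Finset.mem_filter.1 hσ).2).1 τ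
  have hc2 : O.valuation (c - 1) < 1 :=
    T4_prod_one O _ _ fun σ hσ => (hf σ (Finset.mem_filter.1 hσ).2).2.1
  have hc3 : ∀ σ : L ≃ₐ[RatFunc k] L, σ ∉ O.decompositionSubgroup (RatFunc k) →
      O.valuation (σ c) < 1 := by
    intro σ hσ
    rw [hcdef, map_prod]
    exact T4_prod_lt O _ (fun τ => σ (f τ)) σ (Finset.mem_filter.2 ⟨Finset.mem_univ _, hσ⟩)
      (hf σ hσ).2.2 fun τ hτ => (hf τ (Finset.mem_filter.1 hτ).2).1 σ
  refine ⟨∏ τ ∈ Finset.univ.filter
    (fun τ : L ≃ₐ[RatFunc k] L => τ ∈ O.decompositionSubgroup (RatFunc k)), τ c, ?_, ?_, ?_⟩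
  · intro δ hδ
    rw [map_prod]
    refine Finset.prod_equiv (Equiv.mulLeft δ) (fun τ => ?_) (fun τ _ => rfl)
    simp only [Finset.mem_filter, Finset.mem_univ, true_and, Equiv.coe_mulLeft]
    exact (Subgroup.mul_mem_cancel_left _ hδ).symm
  · refine T4_prod_one O _ _ fun τ hτ => ?_
    have h2 : τ c - 1 = τ (c - 1) := by rw [map_sub, map_one]
    rw [h2, dec_val O τ (Finset.mem_filter.1 hτ).2]
    exact hc2
  · intro σ hσ
    rw [map_prod]
    refine T4_prod_lt O _ (fun τ : L ≃ₐ[RatFunc k] L => σ (τ c)) 1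
      (Finset.mem_filter.2 ⟨Finset.mem_univ _, one_mem _⟩) (hc3 σ hσ) fun τ _ => ?_
    exact hc1 (σ * τ)

end

end

end Pool.Agent.MP_1c8e06_ag.RC
end

section

set_option autoImplicit false

open Polynomial
open scoped Classical

namespace Pool.Agent.MP_1c8e06_ag.RC

noncomputable section

/-!
# Task T10: the decomposition field is maximal with an embedding in `k((s))`

`D := O.decompositionSubgroup (RatFunc k)`, `M := fixedField D`, `ι : M → k((s))` the expansion
(`exists_iota`, hypothesis `hι`), and suppose that `j : L → k((s))` extends `ι`.  Then `D = ⊥`.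
Let `O'' := {a : L | ∀ m < 0, (j a).coeff m = 0}`: a valuation subring of `L` (the power series are a valuation ring of
`k((s))`: for `f ≠ 0` with `order f < 0`, `f⁻¹` has positive order; cf. `LaurentSeries`/`HahnSeries.order_mul`).
(1) `O ≤ O''`: for `a ∈ O` the polynomial `∏ σ ∈ D, (Y - σ a)` has coefficients in `O` (as `σ a ∈ O`, `dec_iff`), fixed by
`D`, hence in `M ∩ O`; by `hι` (`N = 0`) their images under `j` are power series; so `j a` is integral over
the power series, which are integrally closed (valuation ring), so `a ∈ O''`.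
(2) `O'' ≠ ⊤`: `xL k L ∉ O''`, because `j (xL k L) = ι X = kap X = single (-1) 1`.
(3) `O = O''` by `le_eq` (`B := BL k true L`, `inf_int`).
(4) Let `σ ∈ D`, `a : L`, `N : ℕ`.  There is `r : RatFunc k` with `xL ^ N * (a - r) ∈ O`: let
`q` be the polynomial in `s`, `s⁻¹` which is the truncation of `j a` below `N`: `j a = kap r + (terms of
exponent ≥ N)` for a Laurent polynomial `r` in `X⁻¹`; `j (xL ^ N (a - r))` has no negative coefficients, so
`xL ^ N (a - r) ∈ O'' = O`.  Then `xL ^ N (σ a - r) = σ (xL ^ N (a - r)) ∈ O`, so `xL ^ N (σ a - a) ∈ O = O''`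
for all `N`: `j (σ a - a) = 0`.  So `σ a = a`, `σ = 1`.
-/

private theorem T10_kapX {k : Type} [Field k] :
    kap k RatFunc.X = HahnSeries.single (-1 : ℤ) (1 : k) := by
  rw [← RatFunc.algebraMap_X, kap_algebraMap, AI.zinv, Polynomial.coe_eval₂RingHom,
    Polynomial.eval₂_X]

private theorem T10_kapC {k : Type} [Field k] (c : k) :
    kap k (RatFunc.C c) = HahnSeries.C c := by
  rw [← RatFunc.algebraMap_C, kap_algebraMap, AI.zinv, Polynomial.coe_eval₂RingHom,
    Polynomial.eval₂_C]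

private theorem T10_kapP {k : Type} [Field k] (n : ℤ) :
    kap k ((RatFunc.X)⁻¹ ^ n) = HahnSeries.single n (1 : k) := by
  rw [map_zpow₀, map_inv₀, T10_kapX, HahnSeries.inv_single, neg_neg, inv_one,
    ← RatFunc.single_zpow]

private theorem T10_approx {k : Type} [Field k] (f : LaurentSeries k) (N : ℤ) :
    ∃ r : RatFunc k, ∀ m : ℤ, m < N → (f - kap k r).coeff m = 0 := by
  have h0 : ∀ m : ℤ, m < f.order → (f - kap k 0).coeff m = 0 := by
    intro m hm
    rw [map_zero, sub_zero]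
    exact HahnSeries.coeff_eq_zero_of_lt_order hm
  rcases le_total f.order N with h | h
  · induction N, h using Int.le_induction with
    | base => exact ⟨0, h0⟩
    | succ N hN ih =>
      obtain ⟨r, hr⟩ := ih
      refine ⟨r + RatFunc.C ((f - kap k r).coeff N) * (RatFunc.X)⁻¹ ^ N, fun m hm => ?_⟩
      rw [map_add, map_mul, T10_kapC, T10_kapP, HahnSeries.C_apply,
        HahnSeries.single_mul_single, zero_add, mul_one, ← sub_sub, HahnSeries.coeff_sub]
      rcases (Int.lt_add_one_iff.1 hm).eq_or_lt with rfl | h1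
      · rw [HahnSeries.coeff_single_same, sub_self]
      · rw [HahnSeries.coeff_single_of_ne h1.ne, hr m h1, sub_zero]
  · exact ⟨0, fun m hm => h0 m (hm.trans_le h)⟩

theorem no_embed {k : Type} [Field k] {L : Type} [Field L] [Algebra (RatFunc k) L]
    [FiniteDimensional (RatFunc k) L] [IsGalois (RatFunc k) L] (O : ValuationSubring L)
    (hO : Inf k O)
    (ι : IntermediateField.fixedField (O.decompositionSubgroup (RatFunc k)) →+* LaurentSeries k)
    (hι : ∀ r : RatFunc k, ι (algebraMap (RatFunc k) _ r) = kap k r)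
    (hv : ∀ (a : IntermediateField.fixedField (O.decompositionSubgroup (RatFunc k))) (N : ℤ),
      xL k L ^ N * (a : L) ∈ O ↔ ∀ m : ℤ, m < N → (ι a).coeff m = 0)
    (j : L →+* LaurentSeries k)
    (hj : ∀ a : IntermediateField.fixedField (O.decompositionSubgroup (RatFunc k)),
      j (a : L) = ι a) : O.decompositionSubgroup (RatFunc k) = ⊥ := by
  -- the valuation ring of the power series
  let V : ValuationSubring (LaurentSeries k) :=
    (Valued.v : Valuation (LaurentSeries k) _).valuationSubring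
  have hV : ∀ f : LaurentSeries k, f ∈ V ↔ ∀ m : ℤ, m < 0 → f.coeff m = 0 := by
    intro f
    have h := LaurentSeries.valuation_le_iff_coeff_lt_eq_zero k (D := 0) (f := f)
    rw [neg_zero, WithZero.exp_zero] at h
    exact h
  let O' : ValuationSubring L := V.comap j
  have hO' : ∀ a : L, a ∈ O' ↔ ∀ m : ℤ, m < 0 → (j a).coeff m = 0 := fun a => by
    rw [ValuationSubring.mem_comap, hV]
  have hM : ∀ a : L, (∀ σ ∈ O.decompositionSubgroup (RatFunc k), σ a = a) →
      (a ∈ O ↔ a ∈ O') := by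
    intro a ha
    let a' : IntermediateField.fixedField (O.decompositionSubgroup (RatFunc k)) :=
      ⟨a, fun σ => ha σ σ.2⟩
    have h := hv a' 0
    rw [zpow_zero, one_mul] at h
    have h1 : j a = ι a' := hj a'
    rw [hO', h1]
    exact h
  have hle : O ≤ O' := by
    intro a ha
    have hfin : Fintype (O.decompositionSubgroup (RatFunc k)) := Fintype.ofFinite _
    let p : L[X] := ∏ σ : O.decompositionSubgroup (RatFunc k),
      (X - C ((σ : L ≃ₐ[RatFunc k] L) a))
    have hp1 : p.Monic :=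
      Polynomial.monic_prod_of_monic _ _ fun σ _ => Polynomial.monic_X_sub_C _
    have hpO : ∀ i, p.coeff i ∈ O := by
      have h1 : p ∈ Polynomial.lifts O.subtype := by
        refine Subsemiring.prod_mem _ fun σ _ => ?_
        have h2 : (σ : L ≃ₐ[RatFunc k] L) a ∈ O := ((dec_iff O _).1 σ.2 a).2 ha
        rw [Polynomial.mem_lifts]
        refine ⟨X - C ⟨_, h2⟩, ?_⟩
        rw [Polynomial.map_sub, Polynomial.map_X, Polynomial.map_C]
        rfl
      rw [Polynomial.lifts_iff_coeff_lifts] at h1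
      intro i
      obtain ⟨b, hb⟩ := h1 i
      rw [← hb]
      exact b.2
    have hpD : ∀ i, ∀ τ ∈ O.decompositionSubgroup (RatFunc k), τ (p.coeff i) = p.coeff i := by
      intro i τ hτ
      have h1 : p.map (τ.toRingEquiv.toRingHom) = p := by
        change (∏ σ : O.decompositionSubgroup (RatFunc k),
          (X - C ((σ : L ≃ₐ[RatFunc k] L) a))).map _ = _
        rw [Polynomial.map_prod]
        refine Fintype.prod_equiv (Equiv.mulLeft ⟨τ, hτ⟩) _ _ fun σ => ?_
        rw [Polynomial.map_sub, Polynomial.map_X, Polynomial.map_C]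
        rfl
      conv_rhs => rw [← h1, Polynomial.coeff_map]
      rfl
    have hpO' : ∀ i, p.coeff i ∈ O' := fun i => (hM _ (hpD i)).1 (hpO i)
    have hint : IsIntegral O' a := by
      have hl : p ∈ Polynomial.lifts (algebraMap O' L) := by
        rw [Polynomial.lifts_iff_coeff_lifts]
        exact fun i => ⟨⟨_, hpO' i⟩, rfl⟩
      obtain ⟨q, hq1, hq2, hq3⟩ := Polynomial.lifts_and_natDegree_eq_and_monic hl hp1
      refine ⟨q, hq3, ?_⟩
      rw [← Polynomial.eval_map, hq1, Polynomial.eval_prod]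
      refine Finset.prod_eq_zero
        (Finset.mem_univ (1 : O.decompositionSubgroup (RatFunc k))) ?_
      rw [Polynomial.eval_sub, Polynomial.eval_X, Polynomial.eval_C, OneMemClass.coe_one,
        AlgEquiv.one_apply, sub_self]
    obtain ⟨b, hb⟩ := (IsIntegrallyClosed.isIntegral_iff (K := L)).1 hint
    rw [← hb]
    exact b.2
  have hjr : ∀ r : RatFunc k, j (algebraMap (RatFunc k) L r) = kap k r := by
    intro r
    rw [← hι r, ← hj]
    rfl
  have hjx : j (xL k L) = HahnSeries.single (-1) 1 := by rw [xL, hjr, T10_kapX]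
  have hne : O' ≠ ⊤ := by
    intro h
    have h1 : xL k L ∈ O' := by
      rw [h]
      exact ValuationSubring.mem_top _
    rw [hO'] at h1
    have h2 := h1 (-1) (by norm_num)
    rw [hjx, HahnSeries.coeff_single_same] at h2
    exact one_ne_zero h2
  have heq : O = O' := le_eq (B := BL k true L) O O' (fun b => inf_int O hO _ b.2) hle hne
  have hjp : ∀ (N : ℕ) (b : L) (m : ℤ), (j (xL k L ^ N * b)).coeff m = (j b).coeff (m + N) := by
    intro N b m
    have h1 : (HahnSeries.single (-1 : ℤ) (1 : k)) ^ N = HahnSeries.single (-(N : ℤ)) 1 := by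
      rw [HahnSeries.single_pow, one_pow]
      congr 1
      simp
    rw [map_mul, map_pow, hjx, h1, HahnSeries.coeff_single_mul, one_mul, sub_neg_eq_add]
  rw [Subgroup.eq_bot_iff_forall]
  intro σ hσ
  have hdec := (dec_iff O σ).1 hσ
  ext a
  rw [AlgEquiv.one_apply, ← sub_eq_zero, ← map_eq_zero j]
  ext m
  rw [HahnSeries.coeff_zero]
  obtain ⟨N, hN⟩ : ∃ N : ℕ, m < N := ⟨(m + 1).toNat, by omega⟩
  obtain ⟨r, hr⟩ := T10_approx (j a) (N : ℤ)
  have h1 : xL k L ^ N * (a - algebraMap (RatFunc k) L r) ∈ O := by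
    rw [heq, hO']
    intro m hm
    rw [hjp, map_sub, hjr]
    exact hr _ (by omega)
  have h2 : xL k L ^ N * (σ a - algebraMap (RatFunc k) L r) ∈ O := by
    have h3 := (hdec _).2 h1
    rw [map_mul, map_pow, map_sub, AlgEquiv.commutes, xL, AlgEquiv.commutes] at h3
    exact h3
  have h3 : xL k L ^ N * (σ a - a) ∈ O' := by
    rw [← heq]
    have h4 := O.toSubring.sub_mem h2 h1
    have h5 : xL k L ^ N * (σ a - a) = xL k L ^ N * (σ a - algebraMap (RatFunc k) L r) -
        xL k L ^ N * (a - algebraMap (RatFunc k) L r) := by ring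
    rw [h5]
    exact h4
  rw [hO'] at h3
  have h4 := h3 (m - N) (by omega)
  rw [hjp, sub_add_cancel] at h4
  exact h4

end

end Pool.Agent.MP_1c8e06_ag.RC
end

section

set_option autoImplicit false

open Polynomial
open scoped Classical

namespace Pool.Agent.MP_1c8e06_ag.RC

noncomputable section

/-!
# Task T5: the ground field is dense in the decomposition field

`D := O.decompositionSubgroup (RatFunc k)`, `Γ := L ≃ₐ[RatFunc k] L`, `x := xL k L`, `e` as in `inf_e`.
Let `a` be fixed by `D`, `N : ℕ`.  For `q = p ^ m` put `y := a * e ^ q` (fixed by `D`) and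
`r := ∑ c : Γ ⧸ D, c.out y`.  `r` is fixed by `Γ`: `τ (c.out y) = (τ • c).out y`, because `(τ * c.out)` and
`(τ • c).out` differ by an element of `D` on the right; reindex.  So `r` is in the ground field
(`IsGalois.mem_bot_iff_fixed` or `IntermediateField.mem_bot`).  Now
`a - r = a (1 - e ^ q) + (a e ^ q - out(1) (a e ^ q)) - ∑ (c ≠ 1), c.out a * (c.out e) ^ q`, the second bracket is `0`
because `out(1) ∈ D`, `1 - e ^ q = (1 - e) ^ q` (characteristic `p`), and for
`c ≠ 1` (the coset of `1`) `c.out ∉ D`, so `O.valuation (c.out e) < 1`.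
It remains: for `u` with `O.valuation u < 1`, `b : L`, `N : ℕ` there is `m₀` such that
`x ^ N * (b * u ^ q) ∈ O` for all `q ≥ m₀`: by `inf_arch1` `b * s ^ n₁ ∈ O` (`s = x⁻¹`), by `inf_arch2`
`x * u ^ n₂ ∈ O`; `m₀ = n₂ (N + n₁)`:
`x ^ N b u ^ q = (b s ^ n₁) * (x * u ^ n₂) ^ (N + n₁) * u ^ (q - m₀)`, `u ∈ O`.
Take the maximum of the finitely many `m₀` and `m` with `p ^ m ≥ m₀` (`m = m₀`, `Nat.lt_pow_self`).
-/

theorem T5_small {k : Type} [Field k] {L : Type}
    [Field L] [Algebra (RatFunc k) L] [FiniteDimensional (RatFunc k) L] [IsGalois (RatFunc k) L]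
    (O : ValuationSubring L) (hO : Inf k O) (u b : L) (hu : O.valuation u < 1) (N : ℕ) :
    ∃ m₀ : ℕ, ∀ q : ℕ, m₀ ≤ q → xL k L ^ N * (b * u ^ q) ∈ O := by
  obtain ⟨n₁, h1⟩ := inf_arch1 O hO b
  obtain ⟨n₂, h2⟩ := inf_arch2 O hO u hu
  have huO : u ∈ O := by
    rw [← ValuationSubring.valuation_le_one_iff]
    exact hu.le
  have hxs : xL k L * algebraMap (RatFunc k) L (RatFunc.X)⁻¹ = 1 := by
    unfold xL
    rw [← map_mul, mul_inv_cancel₀ RatFunc.X_ne_zero, map_one]
  refine ⟨n₂ * (N + n₁), fun q hq => ?_⟩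
  obtain ⟨t, rfl⟩ := Nat.exists_eq_add_of_le hq
  have h3 : xL k L ^ N * (b * u ^ (n₂ * (N + n₁) + t)) =
      (b * (algebraMap (RatFunc k) L (RatFunc.X)⁻¹) ^ n₁) * (xL k L * u ^ n₂) ^ (N + n₁) * u ^ t := by
    have h4 : (algebraMap (RatFunc k) L (RatFunc.X)⁻¹) ^ n₁ * xL k L ^ n₁ = 1 := by
      rw [← mul_pow, mul_comm, hxs, one_pow]
    rw [mul_pow, pow_add (xL k L), pow_add u, ← pow_mul]
    calc xL k L ^ N * (b * (u ^ (n₂ * (N + n₁)) * u ^ t))
        = xL k L ^ N * (b * (u ^ (n₂ * (N + n₁)) * u ^ t)) * 1 := (mul_one _).symm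
      _ = _ := by rw [← h4]; ring
  rw [h3]
  exact mul_mem (mul_mem h1 (pow_mem h2 _)) (pow_mem huO _)

theorem inf_dense {p : ℕ} [hp : Fact p.Prime] {k : Type} [Field k] [CharP k p] {L : Type}
    [Field L] [Algebra (RatFunc k) L] [FiniteDimensional (RatFunc k) L] [IsGalois (RatFunc k) L]
    (O : ValuationSubring L) (hO : Inf k O) (a : L)
    (ha : ∀ σ ∈ O.decompositionSubgroup (RatFunc k), σ a = a) (N : ℕ) :
    ∃ r : RatFunc k, xL k L ^ N * (a - algebraMap (RatFunc k) L r) ∈ O := by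
  obtain ⟨e, he1, he2, he3⟩ := inf_e O hO
  obtain ⟨D, hD⟩ : ∃ D : Subgroup (L ≃ₐ[RatFunc k] L), D = O.decompositionSubgroup (RatFunc k) := ⟨_, rfl⟩
  rw [← hD] at ha he1
  simp only [← hD] at he3
  have : CharP (RatFunc k) p :=
    charP_of_injective_ringHom (algebraMap k (RatFunc k)).injective p
  have : CharP L p := charP_of_injective_ringHom (algebraMap (RatFunc k) L).injective p
  have : Fintype (L ≃ₐ[RatFunc k] L) := Fintype.ofFinite _
  have : Finite ((L ≃ₐ[RatFunc k] L) ⧸ D) := Quotient.finite _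
  have : Fintype ((L ≃ₐ[RatFunc k] L) ⧸ D) := Fintype.ofFinite _
  have hs1 : O.valuation (1 - e) < 1 := by
    rw [Valuation.map_sub_swap]
    exact he2
  obtain ⟨m₁, hm₁⟩ := T5_small O hO (1 - e) a hs1 N
  have hs2 : ∀ g : L ≃ₐ[RatFunc k] L, ∃ m₀ : ℕ, g ∉ D → ∀ q : ℕ, m₀ ≤ q →
      xL k L ^ N * (g a * (g e) ^ q) ∈ O := by
    intro g
    by_cases hg : g ∈ D
    · exact ⟨0, fun h => absurd hg h⟩
    · obtain ⟨m₀, h⟩ := T5_small O hO (g e) (g a) (he3 g hg) N
      exact ⟨m₀, fun _ => h⟩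
  choose m₀ hm₀ using hs2
  obtain ⟨m, hm⟩ : ∃ m : ℕ, m = m₁ + ∑ g, m₀ g := ⟨_, rfl⟩
  obtain ⟨q, hq⟩ : ∃ q : ℕ, q = p ^ m := ⟨_, rfl⟩
  have hmq : m ≤ q := by
    rw [hq]
    exact (Nat.lt_pow_self hp.out.one_lt).le
  have hq1 : m₁ ≤ q := by omega
  have hq2 : ∀ g, m₀ g ≤ q := by
    intro g
    have := Finset.single_le_sum (f := m₀) (fun i _ => Nat.zero_le _) (Finset.mem_univ g)
    omega
  obtain ⟨y, hy⟩ : ∃ y : L, y = a * e ^ q := ⟨_, rfl⟩
  have hyD : ∀ σ ∈ D, σ y = y := by
    intro σ hσ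
    rw [hy, map_mul, map_pow, ha σ hσ, he1 σ hσ]
  -- the function on the cosets
  obtain ⟨F, hF⟩ : ∃ F : (L ≃ₐ[RatFunc k] L) ⧸ D → L, ∀ g : L ≃ₐ[RatFunc k] L, F (g : (L ≃ₐ[RatFunc k] L) ⧸ D) = g y := by
    refine ⟨Quotient.lift (fun g : L ≃ₐ[RatFunc k] L => g y) ?_, fun g => rfl⟩
    intro g h hgh
    have h1 : g⁻¹ * h ∈ D := QuotientGroup.leftRel_apply.1 hgh
    have h2 := hyD _ h1
    rw [AlgEquiv.mul_apply] at h2
    have h3 := congrArg g h2
    change g y = h y
    rw [← h3, ← AlgEquiv.mul_apply, mul_inv_cancel, AlgEquiv.one_apply]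
  have hFτ : ∀ (τ : L ≃ₐ[RatFunc k] L) (c : (L ≃ₐ[RatFunc k] L) ⧸ D), τ (F c) = F (τ • c) := by
    intro τ c
    induction c using QuotientGroup.induction_on with
    | H g =>
      rw [hF]
      change τ (g y) = F ((τ * g : L ≃ₐ[RatFunc k] L) : (L ≃ₐ[RatFunc k] L) ⧸ D)
      rw [hF, AlgEquiv.mul_apply]
  have hfix : ∀ τ : L ≃ₐ[RatFunc k] L, τ (∑ c, F c) = ∑ c, F c := by
    intro τ
    rw [map_sum]
    simp only [hFτ]
    exact Equiv.sum_comp (MulAction.toPerm τ) F
  have hbot : (∑ c, F c) ∈ (⊥ : IntermediateField (RatFunc k) L) := (IsGalois.mem_bot_iff_fixed _).2 hfix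
  obtain ⟨r, hr⟩ := IntermediateField.mem_bot.1 hbot
  refine ⟨r, ?_⟩
  rw [hr, ← Finset.add_sum_erase Finset.univ F (Finset.mem_univ ((1 : L ≃ₐ[RatFunc k] L) : (L ≃ₐ[RatFunc k] L) ⧸ D)), hF,
    AlgEquiv.one_apply]
  have h1 : a - y = a * (1 - e) ^ q := by
    rw [hy, hq, sub_pow_char_pow, one_pow]
    ring
  have h2 : ∀ w : L, xL k L ^ N * (a - (y + w)) = xL k L ^ N * (a * (1 - e) ^ q) - xL k L ^ N * w := by
    intro w
    rw [← h1]
    ring
  rw [h2]
  refine sub_mem (hm₁ q hq1) ?_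
  rw [Finset.mul_sum]
  refine sum_mem fun c hc => ?_
  have hc1 := Finset.ne_of_mem_erase hc
  induction c using QuotientGroup.induction_on with
  | H g =>
    rw [hF, hy, map_mul, map_pow]
    refine hm₀ g (fun hg => hc1 ?_) q (hq2 g)
    rw [QuotientGroup.eq]
    simpa using hg

end

end Pool.Agent.MP_1c8e06_ag.RC
end
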