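import Pool.Agent.Lib.MP_1c8e06_ag.Mg.G039

section

set_option autoImplicit false

open Polynomial
open scoped Classical

namespace Pool.Agent.MP_1c8e06_ag.RC

noncomputable section

/-!
# Task T7: the expansion at infinity

`K := RatFunc k`, `x := xL k L`.  Define the relation on `L × LaurentSeries k`
`Exp a f : ∀ N : ℤ, ∃ r : K, x ^ N * (a - r) ∈ O ∧ ∀ m < N, (kap r - f).coeff m = 0` (larger `N` is stronger: `x⁻¹ ∈ O`).
(1) uniqueness: `Exp a f`, `Exp a f'` give `f = f'`: for every `N` `x ^ N * (r - r') ∈ O`, so by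
`rat_iff` the coefficients of `kap (r - r')` below `N` vanish, hence those of `f - f'`.
(2) `Exp r (kap r)`.  (3) sums: `x ^ N (a + b - r - r')`.  Products: given `N`, choose `n₁`, `n₂ : ℕ` with
`x ^ (-n₁) * a ∈ O`, ... : `ab - rr' = (a - r) b + r (b - r')`; `b ∈ x ^ n₂ O` for some `n₂` (from `Exp b f'` at `N = 0`:
`b - r₀ ∈ O` and `r₀ ∈ x ^ n₂ O` by `rat_iff`, since the coefficients of `kap r₀` vanish below some bound:
`HahnSeries.order` / `LaurentSeries` support bounded below), the same on the side of series.  Use large `N' = N + n₁ + n₂`.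
(4) existence for `a ∈ M`: for every `N : ℕ` choose `r N`; `x ^ N (r (N+1) - r N) ∈ O`, so
`kap (r (N+1))` and `kap (r N)` have the same coefficients below `N` (`rat_iff`).  Let
`f := kap (r 0) + ofPowerSeries (∑ ...)`, i.e. the series with `f.coeff m = (kap (r (m+1))).coeff m` for
`m ≥ 0` and `f.coeff m = (kap (r 0)).coeff m` for `m < 0` (bounded below).
(5) `ι a :=` the unique `f`; a ring homomorphism by (1), (2), (3).
(6) the last statement: `x ^ N a ∈ O` iff `x ^ N r ∈ O` (with `r` for `N`) iff the coefficients of `kap r` below `N` vanish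
iff those of `ι a` below `N` vanish.
-/

/-- The valuation at infinity of `a` is at least `N`. -/
private def T7_V (k : Type) [Field k] {L : Type} [Field L] [Algebra (RatFunc k) L]
    (O : ValuationSubring L) (N : ℤ) (a : L) : Prop := xL k L ^ N * a ∈ O

/-- The coefficients below `N` vanish. -/
private def T7_C {k : Type} [Field k] (N : ℤ) (f : LaurentSeries k) : Prop :=
  ∀ m : ℤ, m < N → f.coeff m = 0

private def T7_Exp (k : Type) [Field k] {L : Type} [Field L] [Algebra (RatFunc k) L]
    (O : ValuationSubring L) (a : L) (f : LaurentSeries k) : Prop :=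
  ∀ N : ℤ, ∃ r : RatFunc k, T7_V k O N (a - algebraMap (RatFunc k) L r) ∧ T7_C N (kap k r - f)

section

variable {k : Type} [Field k]

private theorem T7_C_mono {N N' : ℤ} (h : N' ≤ N) {f : LaurentSeries k} (hf : T7_C N f) :
    T7_C N' f := fun m hm => hf m (lt_of_lt_of_le hm h)

private theorem T7_C_add {N : ℤ} {f g : LaurentSeries k} (hf : T7_C N f) (hg : T7_C N g) :
    T7_C N (f + g) := fun m hm => by
  rw [HahnSeries.coeff_add, hf m hm, hg m hm, add_zero]

private theorem T7_C_neg {N : ℤ} {f : LaurentSeries k} (hf : T7_C N f) : T7_C N (-f) :=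
  fun m hm => by rw [HahnSeries.coeff_neg, hf m hm, neg_zero]

private theorem T7_C_sub {N : ℤ} {f g : LaurentSeries k} (hf : T7_C N f) (hg : T7_C N g) :
    T7_C N (f - g) := by
  rw [sub_eq_add_neg]
  exact T7_C_add hf (T7_C_neg hg)

private theorem T7_C_mul {N M : ℤ} {f g : LaurentSeries k} (hf : T7_C N f) (hg : T7_C M g) :
    T7_C (N + M) (f * g) := fun m hm => by
  rw [HahnSeries.coeff_mul]
  refine Finset.sum_eq_zero fun ij hij => ?_
  rw [Finset.mem_antidiagonal] at hij
  rcases lt_or_ge ij.1 N with h | h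
  · rw [hf _ h, zero_mul]
  · rw [hg ij.2 (by have := hij.2.2; omega), mul_zero]

private theorem T7_C_ex (f : LaurentSeries k) : ∃ n : ℤ, n ≤ 0 ∧ T7_C n f :=
  ⟨min 0 f.order, min_le_left _ _, fun _ hm =>
    HahnSeries.coeff_eq_zero_of_lt_order (lt_of_lt_of_le hm (min_le_right _ _))⟩

variable {L : Type} [Field L] [Algebra (RatFunc k) L] {O : ValuationSubring L}

private theorem T7_x_ne (hO : Inf k O) : xL k L ≠ 0 := by
  intro h
  have h1 := hO.pole
  rw [show algebraMap (RatFunc k) L RatFunc.X = xL k L from rfl, h] at h1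
  exact h1 O.zero_mem

private theorem T7_V_mono (hO : Inf k O) {N N' : ℤ} (h : N' ≤ N) {a : L} (ha : T7_V k O N a) :
    T7_V k O N' a := by
  obtain ⟨d, hd⟩ := Int.eq_ofNat_of_zero_le (sub_nonneg.2 h)
  have h1 : (xL k L)⁻¹ ∈ O := by
    have := hO.sinv
    rwa [map_inv₀] at this
  have h2 : xL k L ^ N' * a = (xL k L)⁻¹ ^ d * (xL k L ^ N * a) := by
    rw [← mul_assoc, inv_pow, ← zpow_natCast, ← zpow_neg, ← zpow_add₀ (T7_x_ne hO)]
    congr 2
    omega
  unfold T7_V
  rw [h2]
  exact O.mul_mem _ _ (pow_mem h1 d) ha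

private theorem T7_V_add {N : ℤ} {a b : L} (ha : T7_V k O N a) (hb : T7_V k O N b) :
    T7_V k O N (a + b) := by
  unfold T7_V at *
  rw [mul_add]
  exact O.add_mem _ _ ha hb

private theorem T7_V_neg {N : ℤ} {a : L} (ha : T7_V k O N a) : T7_V k O N (-a) := by
  unfold T7_V at *
  rw [mul_neg]
  exact O.neg_mem _ ha

private theorem T7_V_sub {N : ℤ} {a b : L} (ha : T7_V k O N a) (hb : T7_V k O N b) :
    T7_V k O N (a - b) := by
  rw [sub_eq_add_neg]
  exact T7_V_add ha (T7_V_neg hb)

private theorem T7_V_mul (hO : Inf k O) {N M : ℤ} {a b : L} (ha : T7_V k O N a)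
    (hb : T7_V k O M b) : T7_V k O (N + M) (a * b) := by
  unfold T7_V at *
  have h : xL k L ^ (N + M) * (a * b) = (xL k L ^ N * a) * (xL k L ^ M * b) := by
    rw [zpow_add₀ (T7_x_ne hO)]
    ring
  rw [h]
  exact O.mul_mem _ _ ha hb

private theorem T7_rat (hO : Inf k O) (r : RatFunc k) (N : ℤ) :
    T7_V k O N (algebraMap (RatFunc k) L r) ↔ T7_C N (kap k r) := rat_iff O hO r N

private theorem T7_self (r : RatFunc k) : T7_Exp k O (algebraMap (RatFunc k) L r) (kap k r) := by
  intro N
  refine ⟨r, ?_, ?_⟩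
  · unfold T7_V
    rw [sub_self, mul_zero]
    exact O.zero_mem
  · intro m _
    rw [sub_self, HahnSeries.coeff_zero]

private theorem T7_unique (hO : Inf k O) {a : L} {f f' : LaurentSeries k} (h : T7_Exp k O a f)
    (h' : T7_Exp k O a f') : f = f' := by
  ext m
  obtain ⟨r, h1, h2⟩ := h (m + 1)
  obtain ⟨r', h1', h2'⟩ := h' (m + 1)
  have h3 : T7_V k O (m + 1) (algebraMap (RatFunc k) L (r - r')) := by
    have h4 := T7_V_sub h1' h1
    have h5 : a - algebraMap (RatFunc k) L r' - (a - algebraMap (RatFunc k) L r) =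
        algebraMap (RatFunc k) L (r - r') := by
      rw [map_sub]
      ring
    rwa [h5] at h4
  have h6 : T7_C (m + 1) (f - f') := by
    have h7 := T7_C_add (T7_C_sub ((T7_rat hO _ _).1 h3) h2) h2'
    have h8 : kap k (r - r') - (kap k r - f) + (kap k r' - f') = f - f' := by
      rw [map_sub]
      ring
    rwa [h8] at h7
  have h9 := h6 m (by omega)
  rw [HahnSeries.coeff_sub, sub_eq_zero] at h9
  exact h9

private theorem T7_iff (hO : Inf k O) {a : L} {f : LaurentSeries k} (h : T7_Exp k O a f) (N : ℤ) :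
    T7_V k O N a ↔ T7_C N f := by
  obtain ⟨r, h1, h2⟩ := h N
  constructor
  · intro h3
    have h4 := T7_V_sub h3 h1
    rw [sub_sub_cancel, T7_rat hO] at h4
    have h5 := T7_C_sub h4 h2
    rwa [sub_sub_cancel] at h5
  · intro h3
    have h4 := T7_C_add h2 h3
    rw [sub_add_cancel, ← T7_rat hO] at h4
    have h5 := T7_V_add h1 h4
    rwa [sub_add_cancel] at h5

private theorem T7_add {a b : L} {f g : LaurentSeries k} (h : T7_Exp k O a f)
    (h' : T7_Exp k O b g) : T7_Exp k O (a + b) (f + g) := by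
  intro N
  obtain ⟨r, h1, h2⟩ := h N
  obtain ⟨r', h1', h2'⟩ := h' N
  refine ⟨r + r', ?_, ?_⟩
  · have h3 := T7_V_add h1 h1'
    have h4 : a + b - algebraMap (RatFunc k) L (r + r') =
        a - algebraMap (RatFunc k) L r + (b - algebraMap (RatFunc k) L r') := by
      rw [map_add]
      ring
    rwa [h4]
  · have h3 := T7_C_add h2 h2'
    have h4 : kap k (r + r') - (f + g) = kap k r - f + (kap k r' - g) := by
      rw [map_add]
      ring
    rwa [h4]

private theorem T7_mul (hO : Inf k O) {a b : L} {f g : LaurentSeries k} (h : T7_Exp k O a f)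
    (h' : T7_Exp k O b g) : T7_Exp k O (a * b) (f * g) := by
  intro N
  obtain ⟨n₁, -, hf⟩ := T7_C_ex f
  obtain ⟨n₂, -, hg⟩ := T7_C_ex g
  have hb := (T7_iff hO h' n₂).2 hg
  have ha := (T7_iff hO h n₁).2 hf
  obtain ⟨r, h1, h2⟩ := h (max (N - n₂) n₁)
  obtain ⟨s, h1', h2'⟩ := h' (max (N - n₁) n₂)
  have hr : T7_V k O n₁ (algebraMap (RatFunc k) L r) := by
    have h3 := T7_V_sub ha (T7_V_mono hO (le_max_right _ _) h1)
    rwa [sub_sub_cancel] at h3
  have hs : T7_C n₂ (kap k s) := by
    have h3 := T7_C_add (T7_C_mono (le_max_right _ _) h2') hg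
    rwa [sub_add_cancel] at h3
  refine ⟨r * s, ?_, ?_⟩
  · have h3 := T7_V_mono hO (N' := N) (by have := le_max_left (N - n₂) n₁; omega)
      (T7_V_mul hO h1 hb)
    have h4 := T7_V_mono hO (N' := N) (by have := le_max_left (N - n₁) n₂; omega)
      (T7_V_mul hO hr h1')
    have h5 := T7_V_add h3 h4
    have h6 : a * b - algebraMap (RatFunc k) L (r * s) =
        (a - algebraMap (RatFunc k) L r) * b +
          algebraMap (RatFunc k) L r * (b - algebraMap (RatFunc k) L s) := by
      rw [map_mul]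
      ring
    rwa [h6]
  · have h3 := T7_C_mono (N' := N) (by have := le_max_left (N - n₂) n₁; omega)
      (T7_C_mul h2 hs)
    have h4 := T7_C_mono (N' := N) (by have := le_max_left (N - n₁) n₂; omega)
      (T7_C_mul hf h2')
    have h5 := T7_C_add h3 h4
    have h6 : kap k (r * s) - f * g = (kap k r - f) * kap k s + f * (kap k s - g) := by
      rw [map_mul]
      ring
    rwa [h6]

private theorem T7_exists (hO : Inf k O) {a : L}
    (hd : ∀ N : ℕ, ∃ r : RatFunc k, xL k L ^ N * (a - algebraMap (RatFunc k) L r) ∈ O) :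
    ∃ f, T7_Exp k O a f := by
  choose r hr using hd
  have hr' : ∀ N : ℕ, T7_V k O (N : ℤ) (a - algebraMap (RatFunc k) L (r N)) := by
    intro N
    unfold T7_V
    rw [zpow_natCast]
    exact hr N
  obtain ⟨n₀, hn₀, h0⟩ := T7_C_ex (kap k (r 0))
  have hbdd : BddBelow (Function.support fun m : ℤ => (kap k (r (m + 1).toNat)).coeff m) := by
    refine ⟨n₀, fun m hm => ?_⟩
    by_contra h1
    have h2 : (m + 1).toNat = 0 := by omega
    apply hm
    show (kap k (r (m + 1).toNat)).coeff m = 0
    rw [h2]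
    exact h0 m (not_le.1 h1)
  refine ⟨HahnSeries.ofSuppBddBelow _ hbdd, fun N => ⟨r N.toNat, ?_, ?_⟩⟩
  · exact T7_V_mono hO (Int.self_le_toNat N) (hr' _)
  · intro m hm
    rw [HahnSeries.coeff_sub, HahnSeries.coeff_ofSuppBddBelow]
    have h1 : T7_V k O ((m + 1).toNat : ℤ)
        (algebraMap (RatFunc k) L (r N.toNat - r (m + 1).toNat)) := by
      have h2 := T7_V_mono hO (N' := ((m + 1).toNat : ℤ)) (by omega) (hr' N.toNat)
      have h3 := T7_V_sub (hr' (m + 1).toNat) h2
      have h4 : a - algebraMap (RatFunc k) L (r (m + 1).toNat) -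
          (a - algebraMap (RatFunc k) L (r N.toNat)) =
          algebraMap (RatFunc k) L (r N.toNat - r (m + 1).toNat) := by
        rw [map_sub]
        ring
      rwa [h4] at h3
    have h5 := (T7_rat hO _ _).1 h1 m (by omega)
    rw [map_sub, HahnSeries.coeff_sub] at h5
    exact h5

end

theorem exists_iota {k : Type} [Field k] {L : Type} [Field L] [Algebra (RatFunc k) L]
    (O : ValuationSubring L) (hO : Inf k O) (M : IntermediateField (RatFunc k) L)
    (hd : ∀ a ∈ M, ∀ N : ℕ, ∃ r : RatFunc k, xL k L ^ N * (a - algebraMap (RatFunc k) L r) ∈ O) :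
    ∃ ι : M →+* LaurentSeries k, (∀ r : RatFunc k, ι (algebraMap (RatFunc k) M r) = kap k r) ∧
      ∀ (a : M) (N : ℤ), xL k L ^ N * (a : L) ∈ O ↔ ∀ m : ℤ, m < N → (ι a).coeff m = 0 := by
  have hex : ∀ a : M, ∃ f, T7_Exp k O (a : L) f := fun a => T7_exists hO (hd a a.2)
  choose ι hι using hex
  have hrat : ∀ r : RatFunc k, ι (algebraMap (RatFunc k) M r) = kap k r := fun r =>
    T7_unique hO (hι (algebraMap (RatFunc k) M r)) (T7_self (L := L) r)
  refine ⟨{ toFun := ι
            map_one' := ?_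
            map_mul' := ?_
            map_zero' := ?_
            map_add' := ?_ }, hrat, fun a N => T7_iff hO (hι a) N⟩
  · have h := hrat 1
    rwa [map_one, map_one] at h
  · intro a b
    exact T7_unique hO (hι (a * b)) (T7_mul hO (hι a) (hι b))
  · have h := hrat 0
    rwa [map_zero, map_zero] at h
  · intro a b
    exact T7_unique hO (hι (a + b)) (T7_add (hι a) (hι b))

end

end Pool.Agent.MP_1c8e06_ag.RC
end

section

set_option autoImplicit false

open Polynomial
open scoped Classical

namespace Pool.Agent.MP_1c8e06_ag.RC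

noncomputable section

/-!
# Task T3r: the residue field at infinity is `k`

`inf_res`: first for `c : C`: `c` is a root of a monic polynomial over `Pol k true`.  Let
`Q : k[X]` be the polynomial with the constant coefficients (map along `f ↦ f.coeff 0`); `th k true f - cs (f.coeff 0)` is
`X⁻¹` times an element of `O`, so `O.valuation (aeval c Q) < 1` (with `k → L`, `cs`).  `Q` is monic, so it is
a product of `X - C γ` (`k` algebraically closed, `Polynomial.Splits`); hence one of the factors
`c - cs γ` has valuation `< 1` (all of them are in `O`; a product of units of `O` is a unit).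
For `a ∈ O`: `a * d = n` with `d` a unit of `O` (`mem_center`); `n ≡ γ`, `d ≡ δ`, `δ ≠ 0`;
`a - cs (γ / δ)` has valuation `< 1`: `d (a - γ/δ) = (n - γ) - (d - δ) γ / δ`.
`inf_dec`: the decomposition group is the inertia group: `σ a - a = σ (a - γ) - (a - γ)` (`in_iff`, `dec_val`).
-/

section
variable {k : Type} [Field k] {L : Type} [Field L] [Algebra (RatFunc k) L]
  [FiniteDimensional (RatFunc k) L] [Algebra.IsSeparable (RatFunc k) L]

/-- The constants in `O`. -/
private def T3r_psi (O : ValuationSubring L) (hO : Inf k O) : k →+* O :=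
  ((algebraMap (RatFunc k) L).comp (algebraMap k (RatFunc k))).codRestrict O.toSubring hO.const

omit [FiniteDimensional (RatFunc k) L] [Algebra.IsSeparable (RatFunc k) L] in
private theorem T3r_psi_coe (O : ValuationSubring L) (hO : Inf k O) (c : k) :
    ((T3r_psi O hO c : O) : L) = cs L c := rfl

/-- The chart in `O`. -/
private def T3r_phi (O : ValuationSubring L) (hO : Inf k O) : Pol k true →+* O :=
  (algebraMap (Pol k true) L).codRestrict O.toSubring
    (fun _ => inf_int O hO _ isIntegral_algebraMap)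

omit [FiniteDimensional (RatFunc k) L] [Algebra.IsSeparable (RatFunc k) L] in
private theorem T3r_phi_coe (O : ValuationSubring L) (hO : Inf k O) (f : Pol k true) :
    ((T3r_phi O hO f : O) : L) = algebraMap (RatFunc k) L (th k true f) := rfl

/-- The constant coefficient. -/
private def T3r_eps (k : Type) [Field k] : Pol k true →+* k :=
  (Polynomial.constantCoeff : k[X] →+* k)

omit [FiniteDimensional (RatFunc k) L] [Algebra.IsSeparable (RatFunc k) L] in
private theorem T3r_th (f : Pol k true) : ∃ g : Pol k true,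
    th k true f = algebraMap k (RatFunc k) (T3r_eps k f) + (RatFunc.X : RatFunc k)⁻¹ * th k true g := by
  refine ⟨(Polynomial.divX (show k[X] from f) : k[X]), ?_⟩
  have h1 : (show k[X] from f) = Polynomial.X * Polynomial.divX (show k[X] from f) +
      Polynomial.C ((show k[X] from f).coeff 0) := (Polynomial.X_mul_divX_add _).symm
  change Polynomial.aeval (R := k) (var k true) (show k[X] from f) =
    algebraMap k (RatFunc k) ((show k[X] from f).coeff 0) +
      (RatFunc.X : RatFunc k)⁻¹ * Polynomial.aeval (R := k) (var k true) (Polynomial.divX (show k[X] from f))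
  conv_lhs => rw [h1]
  rw [map_add, map_mul, Polynomial.aeval_X, Polynomial.aeval_C, add_comm]
  rfl

omit [FiniteDimensional (RatFunc k) L] [Algebra.IsSeparable (RatFunc k) L] in
private theorem T3r_zero (O : ValuationSubring L) (a : O) :
    IsLocalRing.residue O a = 0 ↔ O.valuation (a : L) < 1 := by
  rw [IsLocalRing.residue_eq_zero_iff, ValuationSubring.valuation_lt_one_iff]

omit [FiniteDimensional (RatFunc k) L] [Algebra.IsSeparable (RatFunc k) L] in
private theorem T3r_comp (O : ValuationSubring L) (hO : Inf k O) :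
    (IsLocalRing.residue O).comp (T3r_phi O hO) =
      ((IsLocalRing.residue O).comp (T3r_psi O hO)).comp (T3r_eps k) := by
  apply RingHom.ext
  intro f
  obtain ⟨g, hg⟩ := T3r_th (k := k) f
  have hsinv : IsLocalRing.residue O ⟨algebraMap (RatFunc k) L (RatFunc.X)⁻¹, hO.sinv⟩ = 0 :=
    (T3r_zero O _).2 (inf_sinv_lt O hO)
  have h1 : T3r_phi O hO f = T3r_psi O hO (T3r_eps k f) +
      (⟨algebraMap (RatFunc k) L (RatFunc.X)⁻¹, hO.sinv⟩ : O) * T3r_phi O hO g := by
    apply Subtype.ext
    change algebraMap (RatFunc k) L (th k true f) = algebraMap (RatFunc k) L (algebraMap k (RatFunc k) (T3r_eps k f)) +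
      algebraMap (RatFunc k) L (RatFunc.X)⁻¹ * algebraMap (RatFunc k) L (th k true g)
    rw [hg, map_add, map_mul]
  rw [RingHom.comp_apply, h1, map_add, map_mul, hsinv, zero_mul, add_zero]
  rfl

omit [FiniteDimensional (RatFunc k) L] [Algebra.IsSeparable (RatFunc k) L] in
private theorem T3r_int [IsAlgClosed k] (O : ValuationSubring L) (hO : Inf k O) (c : L)
    (hc : IsIntegral (Pol k true) c) :
    ∃ γ : k, IsLocalRing.residue O ⟨c, inf_int O hO c hc⟩ = IsLocalRing.residue O (T3r_psi O hO γ) := by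
  obtain ⟨P, hPm, hP⟩ := hc
  have h1 : Polynomial.eval₂ (T3r_phi O hO) ⟨c, inf_int O hO c ⟨P, hPm, hP⟩⟩ P = 0 := by
    apply Subtype.ext
    have h2 := Polynomial.hom_eval₂ P (T3r_phi O hO) O.subtype ⟨c, inf_int O hO c ⟨P, hPm, hP⟩⟩
    change O.subtype _ = 0
    rw [h2]
    exact hP
  have h2 : Polynomial.eval₂ ((IsLocalRing.residue O).comp (T3r_psi O hO))
      (IsLocalRing.residue O ⟨c, inf_int O hO c ⟨P, hPm, hP⟩⟩) (P.map (T3r_eps k)) = 0 := by
    rw [Polynomial.eval₂_map, ← T3r_comp, ← Polynomial.hom_eval₂, h1, map_zero]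
  have hQm : (P.map (T3r_eps k)).Monic := hPm.map _
  have hsp : (P.map (T3r_eps k)).Splits := IsAlgClosed.splits _
  have hprod := hsp.eq_prod_roots_of_monic hQm
  rw [hprod, Polynomial.eval₂_multiset_prod, Multiset.prod_eq_zero_iff] at h2
  rw [Multiset.map_map, Multiset.mem_map] at h2
  obtain ⟨γ, -, hγ⟩ := h2
  refine ⟨γ, ?_⟩
  rw [Function.comp_apply, Polynomial.eval₂_sub, Polynomial.eval₂_X, Polynomial.eval₂_C, sub_eq_zero] at hγ
  exact hγ

theorem inf_res [IsAlgClosed k] (O : ValuationSubring L) (hO : Inf k O) (a : L) (ha : a ∈ O) :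
    ∃ c : k, O.valuation (a - cs L c) < 1 := by
  have hB : ∀ b : BL k true L, algebraMap (BL k true L) L b ∈ O := fun b => inf_int O hO _ b.2
  obtain ⟨n, d, hd, hnd⟩ := mem_center (B := BL k true L) O hB (inf_ne_top O hO) a ha
  obtain ⟨γ, hγ⟩ := T3r_int O hO (n : L) n.2
  obtain ⟨δ, hδ⟩ := T3r_int O hO (d : L) d.2
  have hd0 : IsLocalRing.residue O ⟨(d : L), inf_int O hO _ d.2⟩ ≠ 0 := by
    intro h
    rw [T3r_zero] at h
    have h2 : O.valuation (d : L) = 1 := hd
    exact absurd h2 (ne_of_lt h)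
  have hδ0 : δ ≠ 0 := by
    intro h
    rw [h, map_zero, map_zero] at hδ
    exact hd0 hδ
  have hmul : (⟨a, ha⟩ : O) * ⟨(d : L), inf_int O hO _ d.2⟩ = ⟨(n : L), inf_int O hO _ n.2⟩ :=
    Subtype.ext hnd
  have h1 := congrArg (IsLocalRing.residue O) hmul
  rw [map_mul, hγ] at h1
  have h2 : IsLocalRing.residue O (T3r_psi O hO (γ / δ)) * IsLocalRing.residue O ⟨(d : L), inf_int O hO _ d.2⟩ =
      IsLocalRing.residue O (T3r_psi O hO γ) := by
    rw [hδ, ← map_mul, ← map_mul, div_mul_cancel₀ γ hδ0]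
  have h3 : IsLocalRing.residue O ⟨a, ha⟩ = IsLocalRing.residue O (T3r_psi O hO (γ / δ)) :=
    mul_right_cancel₀ hd0 (h1.trans h2.symm)
  refine ⟨γ / δ, ?_⟩
  have h4 : IsLocalRing.residue O ((⟨a, ha⟩ : O) - T3r_psi O hO (γ / δ)) = 0 := by
    rw [map_sub, h3, sub_self]
  exact (T3r_zero O _).1 h4

theorem inf_dec [IsAlgClosed k] (O : ValuationSubring L) (hO : Inf k O) :
    O.inertiaSubgroup (RatFunc k) = ⊤ := by
  rw [eq_top_iff]
  rintro ⟨σ, hσ⟩ -
  rw [in_iff]
  intro a ha
  obtain ⟨c, hc⟩ := inf_res O hO a ha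
  have h1 : σ a - a = σ (a - cs L c) - (a - cs L c) := by
    have h2 : σ (cs L c) = cs L c := σ.commutes _
    rw [map_sub, h2]
    ring
  rw [h1]
  exact Valuation.map_sub_lt _ ((dec_val O σ hσ _).2 hc) hc

end

end

end Pool.Agent.MP_1c8e06_ag.RC
end
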