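import Mathlib

section

set_option autoImplicit false

open scoped Classical
open Polynomial

namespace Pool.Agent.MP_1c8e06_ag.CYH

noncomputable section

/-!
# Task O2: spherically complete fields with divisible value group and algebraically closed residue field

`K` is a complete ultrametric field; Mathlib: `Mathlib/Analysis/Normed/Unbundled/SpectralNorm.lean`, `N := spectralNorm K L` for `L := AlgebraicClosure K`:
multiplicative (`spectralNorm_mul`), ultrametric (`isNonarchimedean_spectralNorm`), extends the norm (`spectralNorm_extends`), `spectralNorm_neg`,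
`spectralNorm_zero`, `spectralNorm_zero_lt`, or bundled: `spectralMulAlgNorm`, `spectralNorm.normedField`.
By `IsAlgClosed.of_exists_root` it is enough that every monic irreducible polynomial over `K` has a root in `K`; let `α : L` be a root in `L`; we show that
`α` is in the range of `algebraMap K L` (then the preimage is a root).  Suppose not.
(1) `best`: `d := sInf {N (α - c) : c : K}`; choose `c n` with `N (α - c n) ≤ d + (1/2) ^ n =: r n`; for `n ≤ m`: `‖c n - c m‖ = N (c n - c m) ≤
max (N (α - c n)) (N (α - c m)) ≤ r n`.  `hs` gives `a : K` with `‖a - c n‖ ≤ r n` for all `n`, so `N (α - a) ≤ r n` for all `n`, so `N (α - a) ≤ d`: for all `c : K`,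
`N (α - a) ≤ N (α - c)`.
(2) `α ≠ a` in `L`, so `d' := N (α - a) > 0`; `m : K` with `‖m‖ = d'` (`hv`); `β := (α - a) / m`: `N β = 1`, and for `e : K`:
`N (β - e) = N (α - (a + m e)) / d' ≥ 1`.
(3) `Q := minpoly K β`, `spectralNorm K L β = spectralValue Q = 1`, so all coefficients of `Q` have norm `≤ 1` (`spectralValue_le_one_iff`).
Let `n = Q.natDegree`, `c i : k` with `‖Q.coeff i - σ (c i)‖ < 1` for `i < n` (`hr`), `R : k[X] := X ^ n + ∑ i < n, C (c i) X ^ i`, monic; it splits over the
algebraically closed field `k`: `R = ∏ (X - C e)` over the multiset of the roots.  Apply the composite `k → K → L` and evaluate at `β`: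
`∏ (β - σ e) = β ^ n + ∑ i < n, σ (c i) β ^ i = ∑ i < n, (σ (c i) - Q.coeff i) β ^ i` (as `Q β = 0`), which has `N < 1` (ultrametric, `N β = 1`; `n = 0` gives the
empty sum `0`).  But `N (∏ (β - σ e)) = ∏ N (β - σ e) ≥ 1` by (2).  Contradiction.
-/

/-- an absolute value `N` on `L` which extends the norm of `K`, in the form needed below -/
private structure O2_N (K L : Type) [NormedField K] [Field L] [Algebra K L] (N : L → ℝ) :
    Prop where
  mul : ∀ x y, N (x * y) = N x * N y
  add : ∀ x y, N (x + y) ≤ max (N x) (N y)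
  ext : ∀ a : K, N (algebraMap K L a) = ‖a‖
  neg : ∀ x, N (-x) = N x
  nonneg : ∀ x, 0 ≤ N x
  pos : ∀ x, x ≠ 0 → 0 < N x

private theorem O2_sub {K L : Type} [NormedField K] [Field L] [Algebra K L] {N : L → ℝ}
    (h : O2_N K L N) (x y : L) : N (x - y) ≤ max (N x) (N y) := by
  rw [sub_eq_add_neg, ← h.neg y]
  exact h.add _ _

private theorem O2_sum {K L : Type} [NormedField K] [Field L] [Algebra K L] {N : L → ℝ}
    (h : O2_N K L N) {ι : Type} (s : Finset ι) (f : ι → L) (hf : ∀ i ∈ s, N (f i) < 1) :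
    N (∑ i ∈ s, f i) < 1 := by
  induction s using Finset.induction_on with
  | empty =>
    rw [Finset.sum_empty]
    have h1 := h.ext (0 : K)
    rw [map_zero, norm_zero] at h1
    rw [h1]
    exact one_pos
  | insert a s ha ih =>
    rw [Finset.sum_insert ha]
    refine (h.add _ _).trans_lt (max_lt (hf a (Finset.mem_insert_self _ _)) (ih fun i hi => ?_))
    exact hf i (Finset.mem_insert_of_mem hi)

private theorem O2_one {K L : Type} [NormedField K] [Field L] [Algebra K L] {N : L → ℝ}
    (h : O2_N K L N) : N 1 = 1 := by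
  have h1 := h.ext (1 : K)
  rwa [map_one, norm_one] at h1

private theorem O2_pow {K L : Type} [NormedField K] [Field L] [Algebra K L] {N : L → ℝ}
    (h : O2_N K L N) {β : L} (hβ : N β = 1) (i : ℕ) : N (β ^ i) = 1 := by
  induction i with
  | zero => rw [pow_zero, O2_one h]
  | succ i ih => rw [pow_succ, h.mul, ih, hβ, mul_one]

/-- best approximation -/
private theorem O2_best {K L : Type} [NormedField K] [Field L] [Algebra K L] {N : L → ℝ}
    (h : O2_N K L N)
    (hs : ∀ (a : ℕ → K) (r : ℕ → ℝ), (∀ n, 0 < r n) → Antitone r →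
      (∀ n m, n ≤ m → ‖a n - a m‖ ≤ r n) → ∃ b : K, ∀ n, ‖b - a n‖ ≤ r n) (α : L) :
    ∃ a : K, ∀ c : K, N (α - algebraMap K L a) ≤ N (α - algebraMap K L c) := by
  let D : Set ℝ := Set.range fun c : K => N (α - algebraMap K L c)
  have hD : BddBelow D := ⟨0, by
    rintro _ ⟨c, rfl⟩
    exact h.nonneg _⟩
  have hD' : D.Nonempty := ⟨_, 0, rfl⟩
  have hd0 : 0 ≤ sInf D := le_csInf hD' (by
    rintro _ ⟨c, rfl⟩
    exact h.nonneg _)
  have hex : ∀ n : ℕ, ∃ c : K, N (α - algebraMap K L c) < sInf D + (1 / 2) ^ n := by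
    intro n
    obtain ⟨x, ⟨c, rfl⟩, hx⟩ := exists_lt_of_csInf_lt hD'
      (show sInf D < sInf D + (1 / 2) ^ n by
        have : (0 : ℝ) < (1 / 2) ^ n := by positivity
        linarith)
    exact ⟨c, hx⟩
  choose c hc using hex
  have hanti : Antitone (fun n : ℕ => sInf D + (1 / 2 : ℝ) ^ n) := by
    intro n m hnm
    have := pow_le_pow_of_le_one (by norm_num : (0 : ℝ) ≤ 1 / 2) (by norm_num) hnm
    show sInf D + (1 / 2 : ℝ) ^ m ≤ sInf D + (1 / 2 : ℝ) ^ n
    linarith
  obtain ⟨b, hb⟩ := hs c (fun n => sInf D + (1 / 2) ^ n) (fun n => by positivity) hanti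
    (fun n m hnm => by
      rw [← h.ext, map_sub]
      have e1 : algebraMap K L (c n) - algebraMap K L (c m) =
          (α - algebraMap K L (c m)) - (α - algebraMap K L (c n)) := by ring
      rw [e1]
      refine (O2_sub h _ _).trans (max_le ?_ (hc n).le)
      exact (hc m).le.trans (hanti hnm))
  refine ⟨b, fun x => ?_⟩
  have h1 : ∀ n : ℕ, N (α - algebraMap K L b) ≤ sInf D + (1 / 2) ^ n := by
    intro n
    have e1 : α - algebraMap K L b =
        (α - algebraMap K L (c n)) - algebraMap K L (b - c n) := by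
      rw [map_sub]
      ring
    rw [e1]
    refine (O2_sub h _ _).trans (max_le (hc n).le ?_)
    rw [h.ext]
    exact hb n
  have h2 : N (α - algebraMap K L b) ≤ sInf D := by
    refine le_of_forall_pos_le_add fun ε hε => ?_
    obtain ⟨n, hn⟩ := exists_pow_lt_of_lt_one hε (by norm_num : (1 / 2 : ℝ) < 1)
    exact (h1 n).trans (by linarith)
  exact h2.trans (csInf_le hD ⟨x, rfl⟩)

/-- a product of factors of value at least one -/
private theorem O2_prod {K L k : Type} [NormedField K] [Field L] [Algebra K L] {N : L → ℝ}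
    (h : O2_N K L N) (φ : k → L) (β : L) (hβ : ∀ e, 1 ≤ N (β - φ e)) (s : Multiset k) :
    1 ≤ N ((s.map fun e => β - φ e).prod) := by
  induction s using Multiset.induction_on with
  | empty =>
    rw [Multiset.map_zero, Multiset.prod_zero, O2_one h]
  | cons a s ih =>
    rw [Multiset.map_cons, Multiset.prod_cons, h.mul]
    exact one_le_mul_of_one_le_of_one_le (hβ a) ih

private theorem O2_main {K : Type} [NontriviallyNormedField K] [IsUltrametricDist K]
    [CompleteSpace K] {k : Type} [Field k] [IsAlgClosed k] (σ : k →+* K)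
    (hs : ∀ (a : ℕ → K) (r : ℕ → ℝ), (∀ n, 0 < r n) → Antitone r →
      (∀ n m, n ≤ m → ‖a n - a m‖ ≤ r n) → ∃ b : K, ∀ n, ‖b - a n‖ ≤ r n)
    (hv : ∀ r : ℝ, 0 < r → ∃ a : K, ‖a‖ = r)
    (hr : ∀ a : K, ‖a‖ ≤ 1 → ∃ c : k, ‖a - σ c‖ < 1) {L : Type} [Field L] [Algebra K L]
    [Algebra.IsAlgebraic K L] (α : L) : ∃ a : K, algebraMap K L a = α := by
  have h : O2_N K L (spectralNorm K L) :=
    { mul := fun x y => map_mul (spectralMulAlgNorm K L) x y
      add := fun x y => isNonarchimedean_spectralNorm x y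
      ext := fun a => spectralNorm_extends a
      neg := fun x => spectralNorm_neg (Algebra.IsAlgebraic.isAlgebraic x)
      nonneg := fun x => spectralNorm_nonneg x
      pos := fun x hx => spectralNorm_zero_lt hx (Algebra.IsAlgebraic.isAlgebraic x) }
  obtain ⟨a, ha⟩ := O2_best h hs α
  by_contra hcon
  push Not at hcon
  have hd : 0 < spectralNorm K L (α - algebraMap K L a) :=
    h.pos _ (sub_ne_zero.2 (hcon a).symm)
  obtain ⟨m, hm⟩ := hv _ hd
  have hm0 : m ≠ 0 := by
    rintro rfl
    rw [norm_zero] at hm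
    rw [← hm] at hd
    exact lt_irrefl _ hd
  have hm1 : algebraMap K L m ≠ 0 := by
    rw [Ne, map_eq_zero_iff _ (algebraMap K L).injective]
    exact hm0
  set β : L := (α - algebraMap K L a) / algebraMap K L m with hβ
  have hβm : ∀ e : K, (β - algebraMap K L e) * algebraMap K L m =
      α - algebraMap K L (a + m * e) := by
    intro e
    rw [hβ, sub_mul, div_mul_cancel₀ _ hm1, map_add, map_mul]
    ring
  have hN1 : spectralNorm K L β = 1 := by
    have e1 := hβm 0
    rw [map_zero, sub_zero, mul_zero, add_zero] at e1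
    have e2 := congrArg (spectralNorm K L) e1
    rw [h.mul, h.ext, hm] at e2
    exact mul_right_cancel₀ hd.ne' (e2.trans (one_mul _).symm)
  have hN2 : ∀ e : K, 1 ≤ spectralNorm K L (β - algebraMap K L e) := by
    intro e
    have e2 := congrArg (spectralNorm K L) (hβm e)
    rw [h.mul, h.ext, hm] at e2
    have e3 := ha (a + m * e)
    rw [← e2] at e3
    exact le_of_mul_le_mul_right (by rwa [one_mul]) hd
  -- the minimal polynomial
  have hint : IsIntegral K β := (Algebra.IsAlgebraic.isAlgebraic β).isIntegral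
  have hQm := minpoly.monic hint
  have hQc : ∀ n, ‖(minpoly K β).coeff n‖ ≤ 1 :=
    (spectralValue_le_one_iff hQm).1 (le_of_eq hN1)
  choose c hc using fun i => hr ((minpoly K β).coeff i) (hQc i)
  set n := (minpoly K β).natDegree with hn
  let φ : k →+* L := (algebraMap K L).comp σ
  let R : k[X] := X ^ n + ∑ i ∈ Finset.range n, C (c i) * X ^ i
  have hdeg : (∑ i ∈ Finset.range n, C (c i) * X ^ i : k[X]).degree < n := by
    refine (Polynomial.degree_sum_le _ _).trans_lt ?_
    refine (Finset.sup_lt_iff (WithBot.bot_lt_coe n)).2 fun i hi => ?_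
    refine (Polynomial.degree_C_mul_X_pow_le _ _).trans_lt ?_
    exact WithBot.coe_lt_coe.2 (Finset.mem_range.1 hi)
  have hRm : R.Monic := Polynomial.monic_X_pow_add hdeg
  have hRs : R = (R.roots.map fun e => X - C e).prod :=
    (IsAlgClosed.splits R).eq_prod_roots_of_monic hRm
  have e1 : R.eval₂ φ β = (R.roots.map fun e => β - φ e).prod := by
    conv_lhs => rw [hRs]
    rw [Polynomial.eval₂_multiset_prod, Multiset.map_map]
    congr 1
    refine Multiset.map_congr rfl fun e _ => ?_
    show (X - C e).eval₂ φ β = _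
    rw [eval₂_sub, eval₂_X, eval₂_C]
  have e2 : R.eval₂ φ β = β ^ n + ∑ i ∈ Finset.range n, φ (c i) * β ^ i := by
    show (X ^ n + ∑ i ∈ Finset.range n, C (c i) * X ^ i : k[X]).eval₂ φ β = _
    rw [eval₂_add, eval₂_X_pow, eval₂_finsetSum]
    congr 1
    refine Finset.sum_congr rfl fun i _ => ?_
    rw [eval₂_mul, eval₂_C, eval₂_X_pow]
  have e3 : (0 : L) = β ^ n +
      ∑ i ∈ Finset.range n, algebraMap K L ((minpoly K β).coeff i) * β ^ i := by
    have e4 := minpoly.aeval K β
    rw [Polynomial.aeval_eq_sum_range, Finset.sum_range_succ, ← hn] at e4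
    rw [← e4, add_comm]
    congr 1
    · have : (minpoly K β).coeff n = 1 := hQm.coeff_natDegree
      rw [this, one_smul]
    · refine Finset.sum_congr rfl fun i _ => ?_
      rw [Algebra.smul_def]
  have e5 : R.eval₂ φ β =
      ∑ i ∈ Finset.range n, (algebraMap K L (σ (c i) - (minpoly K β).coeff i)) * β ^ i := by
    have e8 : R.eval₂ φ β = (β ^ n + ∑ i ∈ Finset.range n, φ (c i) * β ^ i) -
        (β ^ n + ∑ i ∈ Finset.range n, algebraMap K L ((minpoly K β).coeff i) * β ^ i) := by
      rw [← e3, sub_zero, e2]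
    rw [e8, add_sub_add_left_eq_sub, ← Finset.sum_sub_distrib]
    refine Finset.sum_congr rfl fun i _ => ?_
    rw [map_sub, sub_mul]
    rfl
  have e6 : spectralNorm K L (R.eval₂ φ β) < 1 := by
    rw [e5]
    refine O2_sum h _ _ fun i _ => ?_
    rw [h.mul, O2_pow h hN1, mul_one, h.ext, norm_sub_rev]
    exact hc i
  have e7 : 1 ≤ spectralNorm K L (R.eval₂ φ β) := by
    rw [e1]
    exact O2_prod h φ β (fun e => hN2 (σ e)) _
  exact absurd e6 (not_lt.2 e7)

theorem isAlgClosed_of_sph {K : Type} [NontriviallyNormedField K] [IsUltrametricDist K]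
    [CompleteSpace K] {k : Type} [Field k] [IsAlgClosed k] (σ : k →+* K)
    (hs : ∀ (a : ℕ → K) (r : ℕ → ℝ), (∀ n, 0 < r n) → Antitone r →
      (∀ n m, n ≤ m → ‖a n - a m‖ ≤ r n) → ∃ b : K, ∀ n, ‖b - a n‖ ≤ r n)
    (hv : ∀ r : ℝ, 0 < r → ∃ a : K, ‖a‖ = r)
    (hr : ∀ a : K, ‖a‖ ≤ 1 → ∃ c : k, ‖a - σ c‖ < 1) : IsAlgClosed K := by
  refine IsAlgClosed.of_exists_root K fun P _ hPi => ?_
  obtain ⟨α, hα⟩ := IsAlgClosed.exists_aeval_eq_zero (AlgebraicClosure K) P
    (Polynomial.degree_pos_of_irreducible hPi).ne'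
  obtain ⟨a, ha⟩ := O2_main σ hs hv hr α
  refine ⟨a, ?_⟩
  rw [← ha, Polynomial.aeval_algebraMap_apply] at hα
  exact (map_eq_zero_iff _ (algebraMap K (AlgebraicClosure K)).injective).1 hα

end

end Pool.Agent.MP_1c8e06_ag.CYH
end

section

set_option autoImplicit false

open scoped Classical

namespace Pool.Agent.MP_1c8e06_ag.CYH

noncomputable section

theorem transc_t (κ : Type) [Field κ] :
    Transcendental κ (HahnSeries.single (1 : ℤ) (1 : κ) : LaurentSeries κ) := by
  rw [transcendental_iff]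
  intro P hP
  ext n
  have hpow : ∀ i : ℕ, (HahnSeries.single (1 : ℤ) (1 : κ) : LaurentSeries κ) ^ i
      = HahnSeries.single (i : ℤ) (1 : κ) := by
    intro i
    rw [HahnSeries.single_pow]
    simp
  have h1 : (Polynomial.aeval (HahnSeries.single (1 : ℤ) (1 : κ) : LaurentSeries κ) P).coeff (n : ℤ)
      = P.coeff n := by
    rw [Polynomial.aeval_eq_sum_range]
    simp only [hpow, Algebra.smul_def]
    rw [HahnSeries.coeff_sum]
    have hsm : ∀ b : ℕ, (algebraMap κ (LaurentSeries κ) (P.coeff b) *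
        (HahnSeries.single (b : ℤ) (1 : κ) : LaurentSeries κ)).coeff
        (n : ℤ) = P.coeff b * (HahnSeries.single (b : ℤ) (1 : κ) : LaurentSeries κ).coeff (n : ℤ) := by
      intro b
      have : algebraMap κ (LaurentSeries κ) (P.coeff b) = HahnSeries.C (P.coeff b) := by
        rw [HahnSeries.algebraMap_apply']
        show HahnSeries.ofPowerSeries ℤ κ (PowerSeries.C (P.coeff b)) = _
        rw [HahnSeries.ofPowerSeries_C]
      rw [this, HahnSeries.C_mul_eq_smul]
      rfl
    rw [Finset.sum_eq_single n]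
    · rw [hsm, HahnSeries.coeff_single_same, mul_one]
    · intro b _ hb
      rw [hsm, HahnSeries.coeff_single_of_ne, mul_zero]
      intro h
      exact hb (by exact_mod_cast h.symm)
    · intro hn
      rw [Finset.mem_range, not_lt] at hn
      rw [hsm, Polynomial.coeff_eq_zero_of_natDegree_lt (by omega), zero_mul]
  rw [hP] at h1
  simpa using h1.symm

theorem exists_phi (κ : Type) [Field κ] (k' : Type) [Field k'] [Algebra κ k']
    (ι : LaurentSeries κ →ₐ[κ] k') (Om : Type) [Field Om] [IsAlgClosed Om] [Algebra κ Om]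
    [Algebra k' Om] [IsScalarTower κ k' Om] (z : Om) (hz : Transcendental k' z) :
    ∃ φ : LaurentSeries κ →ₐ[κ] Om, φ (HahnSeries.single (1 : ℤ) (1 : κ)) = z := by
  set t : LaurentSeries κ := HahnSeries.single (1 : ℤ) (1 : κ) with ht
  have hs : AlgebraicIndepOn κ (id : LaurentSeries κ → LaurentSeries κ) {t} := by
    have := (algebraicIndependent_singleton_iff (R := κ)
      (x := fun i : ({t} : Set (LaurentSeries κ)) => id (i : LaurentSeries κ)) ⟨t, rfl⟩).2
    exact this (transc_t κ)
  obtain ⟨B, htB, hB⟩ := exists_isTranscendenceBasis_superset hs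
  have htB' : t ∈ B := htB rfl
  -- the subfamily away from t
  let B' := {b : B // (b : LaurentSeries κ) ≠ t}
  have hB' : AlgebraicIndependent κ (fun b : B' => ((b : B) : LaurentSeries κ)) :=
    hB.1.comp (fun b : B' => (b : B)) Subtype.val_injective
  have hB2 : AlgebraicIndependent κ (fun b : B' => ι ((b : B) : LaurentSeries κ)) :=
    hB'.map' (f := ι) ι.toRingHom.injective
  have hz1 : AlgebraicIndependent k' (fun _ : Unit => z) :=
    (algebraicIndependent_unique_type_iff (R := k') (x := fun _ : Unit => z)).2 hz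
  have hsum := AlgebraicIndependent.sumElim_comp (R := κ) (S := k') (A := Om) hB2 hz1
  let g : B → Unit ⊕ B' := fun b =>
    if h : (b : LaurentSeries κ) = t then Sum.inl () else Sum.inr ⟨b, h⟩
  have hg : Function.Injective g := by
    intro a b hab
    simp only [g] at hab
    by_cases ha : (a : LaurentSeries κ) = t <;> by_cases hb : (b : LaurentSeries κ) = t
    · exact Subtype.ext (ha.trans hb.symm)
    · simp [ha, hb] at hab
    · simp [ha, hb] at hab
    · simp only [ha, hb, dite_false, Sum.inr.injEq] at hab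
      exact congrArg (fun b : B' => (b : B)) hab
  have hy := hsum.comp g hg
  set y : B → Om := (Sum.elim (fun _ : Unit => z)
    (algebraMap k' Om ∘ fun b : B' => ι ((b : B) : LaurentSeries κ))) ∘ g with hydef
  have hyt : y ⟨t, htB'⟩ = z := by
    simp [y, g]
  let ψ : Algebra.adjoin κ (Set.range ((↑) : B → LaurentSeries κ)) →ₐ[κ] Om :=
    (MvPolynomial.aeval y).comp hB.1.repr
  have hψinj : Function.Injective ψ := by
    intro a b hab
    have h1 : hB.1.repr a = hB.1.repr b := hy hab
    exact hB.1.aevalEquiv.symm.injective h1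
  letI : Algebra (Algebra.adjoin κ (Set.range ((↑) : B → LaurentSeries κ))) Om :=
    ψ.toRingHom.toAlgebra
  haveI : IsScalarTower κ (Algebra.adjoin κ (Set.range ((↑) : B → LaurentSeries κ))) Om :=
    IsScalarTower.of_algebraMap_eq (fun r => (ψ.commutes r).symm)
  haveI : Algebra.IsAlgebraic (Algebra.adjoin κ (Set.range ((↑) : B → LaurentSeries κ)))
      (LaurentSeries κ) := hB.isAlgebraic
  haveI : FaithfulSMul (Algebra.adjoin κ (Set.range ((↑) : B → LaurentSeries κ))) Om := by
    rw [faithfulSMul_iff_algebraMap_injective]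
    exact hψinj
  let Φ : LaurentSeries κ →ₐ[Algebra.adjoin κ (Set.range ((↑) : B → LaurentSeries κ))] Om :=
    IsAlgClosed.lift
  refine ⟨Φ.restrictScalars κ, ?_⟩
  have hmem : t ∈ Algebra.adjoin κ (Set.range ((↑) : B → LaurentSeries κ)) :=
    Algebra.subset_adjoin ⟨⟨t, htB'⟩, rfl⟩
  have h1 : Φ t = ψ ⟨t, hmem⟩ := Φ.commutes ⟨t, hmem⟩
  have h2 : hB.1.repr ⟨t, hmem⟩ = MvPolynomial.X ⟨t, htB'⟩ := by
    apply hB.1.aevalEquiv.injective
    show hB.1.aevalEquiv (hB.1.aevalEquiv.symm ⟨t, hmem⟩) = _
    rw [AlgEquiv.apply_symm_apply]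
    apply Subtype.ext
    have := hB.1.algebraMap_aevalEquiv (MvPolynomial.X ⟨t, htB'⟩)
    rw [MvPolynomial.aeval_X] at this
    exact this.symm
  show Φ t = z
  rw [h1]
  show MvPolynomial.aeval y (hB.1.repr ⟨t, hmem⟩) = z
  rw [h2, MvPolynomial.aeval_X, hyt]

end

end Pool.Agent.MP_1c8e06_ag.CYH
end
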