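import Pool.Agent.Lib.MP_1c8e06_ag.RC.Defs
import Pool.Agent.Lib.MP_1c8e06_ag.Mg.G035
import Pool.Agent.Lib.MP_1c8e06_ag.Mg.G046

section

set_option autoImplicit false

open Polynomial
open scoped Classical

namespace Pool.Agent.MP_1c8e06_ag.RC

noncomputable section

/-!
# Task T9: Artin-Schreier reduction over `k((s))`

(1) `ps_AS`: every power series `f : k⟦s⟧` is `g ^ p - g`: the constant coefficient `c = d ^ p - d` is solvable
(`k` algebraically closed; `X ^ p - X - C c` has a root, `IsAlgClosed.exists_root` or `exists_eval₂_eq_zero`); for `f` with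
constant coefficient `0`, `g := - ∑ n, f ^ (p ^ n)`; in coefficients: define `g` by `g_m = - ∑ n, (coeff (m / p^n) f)^(p^n)` over
the `n` with `p ^ n ∣ m` (finite), or by recursion: `g_m = (g_(m/p))^p - f_m` if `p ∣ m`, `g_m = - f_m` if not
(strong recursion, `m > 0`); the coefficient of `s ^ m` in `g ^ p` is `(g_(m/p)) ^ p` if `p ∣ m` and `0` otherwise (`PowerSeries`
in characteristic `p`: e.g. `PowerSeries.map_frobenius`/`expand`-type lemmas, or truncations; compare
`AJ/L5a.lean`, `small_AS`, which has the same computation for `El S`).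
(2) `pol_AS`: every `F : k[X]` is `F' + (G ^ p - G)` with `F' = 0` or `p ∤ natDegree F'`: strong induction on `natDegree F`.  If
`natDegree F = 0`: `F = C c = C (d ^ p - d)`, `F' = 0`.  If `p ∣ natDegree F = p m`, `m > 0`, with leading coefficient
`a = b ^ p`: `F - ((b X^m) ^ p - b X^m)` has smaller degree.
(3) `laurent_AS`: a Laurent series is `AI.zinv k F + (power series)`: `F` = sum of the terms with exponent `< 0`
(`AI.zinv_coeff` in `AI/A0.lean`); apply (1), (2), `HahnSeries.ofPowerSeries`, `(x + y) ^ p = x ^ p + y ^ p`.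
-/

/-- the coefficients of the solution -/
private def T9_a {k : Type} [Field k] (p : ℕ) (hp : 2 ≤ p) (d : k) (f : ℕ → k) : ℕ → k
  | 0 => d
  | m + 1 => (if p ∣ m + 1 then (T9_a p hp d f ((m + 1) / p)) ^ p else 0) - f (m + 1)
  termination_by m => m
  decreasing_by exact Nat.div_lt_self (Nat.succ_pos m) hp

private theorem T9_root {p : ℕ} [hp : Fact p.Prime] {k : Type} [Field k] [IsAlgClosed k] (c : k) :
    ∃ d : k, c = d ^ p - d := by
  have hdeg : (X ^ p - X - C c : k[X]).degree ≠ 0 := by
    have h1 : (X ^ p - X - C c : k[X]).natDegree = p := by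
      have h2 : (X + C c : k[X]).natDegree < (X ^ p : k[X]).natDegree := by
        rw [natDegree_X_pow]
        exact lt_of_le_of_lt (natDegree_add_le _ _) (by
          rw [natDegree_X, natDegree_C]
          exact lt_of_le_of_lt (by simp) hp.out.one_lt)
      have h3 : (X ^ p - X - C c : k[X]) = X ^ p - (X + C c) := by ring
      rw [h3, natDegree_sub_eq_left_of_natDegree_lt h2, natDegree_X_pow]
    intro h
    have h4 := natDegree_eq_of_degree_eq_some (n := 0) (by exact_mod_cast h)
    rw [h1] at h4
    exact hp.out.ne_zero h4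
  obtain ⟨d, hd⟩ := IsAlgClosed.exists_root (X ^ p - X - C c : k[X]) hdeg
  refine ⟨d, ?_⟩
  have h5 : d ^ p - d - c = 0 := by
    have h6 := hd
    rw [IsRoot.def] at h6
    simpa using h6
  linear_combination -h5

private theorem T9_coeff_pow {p : ℕ} [hp : Fact p.Prime] {k : Type} [Field k] [CharP k p]
    (g : PowerSeries k) (m : ℕ) :
    PowerSeries.coeff m (g ^ p) = if p ∣ m then (PowerSeries.coeff (m / p) g) ^ p else 0 := by
  have h1 : PowerSeries.map (frobenius k p) (PowerSeries.expand p hp.out.ne_zero g) = g ^ p :=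
    MvPowerSeries.map_frobenius_expand (σ := Unit) (R := k) p hp.out.ne_zero (f := g)
  rw [← h1, PowerSeries.coeff_map, PowerSeries.coeff_expand]
  split_ifs with h
  · rfl
  · exact map_zero _

private theorem T9_ps {p : ℕ} [hp : Fact p.Prime] {k : Type} [Field k] [IsAlgClosed k] [CharP k p]
    (f : PowerSeries k) : ∃ g : PowerSeries k, f = g ^ p - g := by
  obtain ⟨d, hd⟩ := T9_root (p := p) (PowerSeries.coeff 0 f)
  refine ⟨PowerSeries.mk (T9_a p hp.out.two_le d fun n => PowerSeries.coeff n f), ?_⟩
  ext m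
  rw [map_sub, T9_coeff_pow]
  simp only [PowerSeries.coeff_mk]
  rcases m with _ | m
  · rw [if_pos (dvd_zero p), Nat.zero_div]
    have e : T9_a p hp.out.two_le d (fun n => PowerSeries.coeff n f) 0 = d := by rw [T9_a]
    rw [e]
    exact hd
  · have e : T9_a p hp.out.two_le d (fun n => PowerSeries.coeff n f) (m + 1) =
        (if p ∣ m + 1 then (T9_a p hp.out.two_le d (fun n => PowerSeries.coeff n f) ((m + 1) / p)) ^ p else 0) -
          PowerSeries.coeff (m + 1) f := by
      rw [T9_a]
    rw [e]
    ring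

private theorem T9_pol {p : ℕ} [hp : Fact p.Prime] {k : Type} [Field k] [IsAlgClosed k] [CharP k p] :
    ∀ (n : ℕ) (F : k[X]), F.natDegree = n → ∃ F' G : k[X], (F' = 0 ∨ ¬ p ∣ F'.natDegree) ∧
      F = F' + (G ^ p - G) := by
  intro n
  induction n using Nat.strong_induction_on with
  | _ n ih =>
    intro F hF
    by_cases h0 : F.natDegree = 0
    · obtain ⟨d, hd⟩ := T9_root (p := p) (F.coeff 0)
      refine ⟨0, C d, Or.inl rfl, ?_⟩
      rw [zero_add, ← C_pow, ← C_sub, ← hd]
      exact eq_C_of_natDegree_eq_zero h0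
    · by_cases hd : p ∣ F.natDegree
      · obtain ⟨m, hm⟩ := hd
        have hm0 : 0 < m := by
          rcases Nat.eq_zero_or_pos m with h | h
          · rw [h, mul_zero] at hm
            exact absurd hm h0
          · exact h
        obtain ⟨b, hb⟩ := IsAlgClosed.exists_pow_nat_eq F.leadingCoeff hp.out.pos
        have e1 : (C b * X ^ m : k[X]) ^ p = C F.leadingCoeff * X ^ F.natDegree := by
          rw [mul_pow, ← C_pow, hb, ← pow_mul, hm, mul_comm m p]
        have e2 : F - ((C b * X ^ m) ^ p - C b * X ^ m) = F.eraseLead + C b * X ^ m := by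
          rw [e1]
          have := eraseLead_add_C_mul_X_pow F
          linear_combination -this
        have h1 : (F - ((C b * X ^ m) ^ p - C b * X ^ m)).natDegree < n := by
          rw [e2]
          refine lt_of_le_of_lt (natDegree_add_le _ _) (max_lt ?_ ?_)
          · have := eraseLead_natDegree_le F
            omega
          · refine lt_of_le_of_lt (natDegree_C_mul_X_pow_le b m) ?_
            rw [← hF, hm]
            nlinarith [hp.out.two_le]
        obtain ⟨F', G, h2, h3⟩ := ih _ h1 _ rfl
        refine ⟨F', G + C b * X ^ m, h2, ?_⟩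
        rw [add_pow_char]
        linear_combination h3
      · refine ⟨F, 0, Or.inr hd, ?_⟩
        rw [zero_pow hp.out.ne_zero, sub_zero, add_zero]

private theorem T9_split {k : Type} [Field k] (f : LaurentSeries k) :
    ∃ (F : k[X]) (h : PowerSeries k), f = AI.zinv k F + HahnSeries.ofPowerSeries ℤ k h := by
  refine ⟨∑ i ∈ Finset.range ((-f.order).toNat + 1), monomial i (f.coeff (-(i : ℤ))),
    PowerSeries.mk fun n => if n = 0 then 0 else f.coeff n, ?_⟩
  ext n
  rw [HahnSeries.coeff_add, AI.zinv_coeff]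
  have hz : ∀ z : ℤ, z < f.order → f.coeff z = 0 := fun z hz => HahnSeries.coeff_eq_zero_of_lt_order hz
  by_cases hn : n ≤ 0
  · obtain ⟨m, rfl⟩ : ∃ m : ℕ, n = -(m : ℤ) := ⟨(-n).toNat, by omega⟩
    rw [if_pos hn, neg_neg, Int.toNat_natCast, Polynomial.finsetSum_coeff]
    have e1 : (HahnSeries.ofPowerSeries ℤ k (PowerSeries.mk fun n => if n = 0 then 0 else f.coeff n)).coeff
        (-(m : ℤ)) = 0 := by
      have := LaurentSeries.coeff_coe_powerSeries (PowerSeries.mk fun n => if n = 0 then 0 else f.coeff n) 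
        m
      rcases Nat.eq_zero_or_pos m with h | h
      · subst h
        rw [PowerSeries.coeff_mk, if_pos rfl] at this
        simpa using this
      · rw [HahnSeries.ofPowerSeries_apply, HahnSeries.embDomain_of_notMem_range]
        rintro ⟨j, hj⟩
        have hj' : (j : ℤ) = -(m : ℤ) := hj
        omega
    rw [e1, add_zero]
    by_cases hm : m < (-f.order).toNat + 1
    · rw [Finset.sum_eq_single m]
      · rw [coeff_monomial, if_pos rfl]
      · intro j _ hj
        rw [coeff_monomial, if_neg hj]
      · intro h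
        exact absurd (Finset.mem_range.2 hm) h
    · rw [Finset.sum_eq_zero]
      · exact hz _ (by omega)
      · intro j hj
        rw [Finset.mem_range] at hj
        rw [coeff_monomial, if_neg (by omega)]
  · obtain ⟨m, rfl⟩ : ∃ m : ℕ, n = (m : ℤ) := ⟨n.toNat, by omega⟩
    rw [if_neg hn, zero_add]
    have := LaurentSeries.coeff_coe_powerSeries (PowerSeries.mk fun n => if n = 0 then 0 else f.coeff n) m
    rw [PowerSeries.coeff_mk, if_neg (by omega)] at this
    exact this.symm

theorem laurent_AS {p : ℕ} [hp : Fact p.Prime] {k : Type} [Field k] [IsAlgClosed k] [CharP k p]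
    (f : LaurentSeries k) : ∃ (F : k[X]) (g : LaurentSeries k), (F = 0 ∨ ¬ p ∣ F.natDegree) ∧
      f = AI.zinv k F + (g ^ p - g) := by
  obtain ⟨F, h, hf⟩ := T9_split f
  obtain ⟨g, hg⟩ := T9_ps (p := p) h
  obtain ⟨F', G, h1, h2⟩ := T9_pol (p := p) _ F rfl
  have : CharP (LaurentSeries k) p :=
    charP_of_injective_ringHom (f := (HahnSeries.C : k →+* LaurentSeries k)) HahnSeries.C_injective p
  refine ⟨F', AI.zinv k G + HahnSeries.ofPowerSeries ℤ k g, h1, ?_⟩
  rw [add_pow_char, hf, hg]
  conv_lhs => rw [h2]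
  rw [map_add, map_sub, map_pow, map_sub, map_pow]
  ring

end

end Pool.Agent.MP_1c8e06_ag.RC
end

section

set_option autoImplicit false

open scoped Classical

namespace Pool.Agent.MP_1c8e06_ag.CYH

noncomputable section

/-!
# Task O4: the field `Ω` (assembly)

`k' := AlgebraicClosure (LaurentSeries κ)`, `Om := OM k'`, algebraically closed by `isAlgClosed_of_sph` (`sph`, `exists_norm_eq`, `exists_res`, `σ = cO k'`).
`z := sm k' (-1)` (norm `exp 1 > 1`) is transcendental over `k'`: `aeval z P = ∑ C (P.coeff n) * s ^ (-n)` has the coefficient `P.coeff n` at `-n`; the algebra map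
`k' → OM k'` is `cO k'` (`HahnSeries.algebraMap_apply'`, `HahnSeries.C`).  `exists_phi` gives `φ`, with `ι := IsScalarTower.toAlgHom` (the algebra map of `k'`).
-/

private theorem O4_algMap (R k : Type) [Field k] [CommRing R] [Algebra R k] (c : R) :
    toH k (algebraMap R (OM k) c) = HahnSeries.C (algebraMap R k c) := by
  change (algebraMap R (HahnSeries ℝ k)) c = _
  rw [HahnSeries.algebraMap_apply', PowerSeries.algebraMap_apply, HahnSeries.ofPowerSeries_C]

private theorem O4_coeff_smul (k : Type) [Field k] (c : k) (x : OM k) (g : ℝ) :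
    (toH k (c • x)).coeff g = c * (toH k x).coeff g := by
  rw [Algebra.smul_def, map_mul, O4_algMap, HahnSeries.C_mul_eq_smul, HahnSeries.coeff_smul]
  rfl

theorem transc_sm (k : Type) [Field k] : Transcendental k (sm k (-1)) := by
  rw [transcendental_iff]
  intro P hP
  have h1 : ∀ n : ℕ, toH k (sm k (-1) ^ n) = HahnSeries.single (-(n : ℝ)) (1 : k) := by
    intro n
    rw [map_pow]
    have h2 : toH k (sm k (-1)) = HahnSeries.single (-1 : ℝ) (1 : k) := (toH k).apply_symm_apply _
    rw [h2, HahnSeries.single_pow, one_pow]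
    congr 1
    rw [nsmul_eq_mul, mul_neg_one]
  ext n
  rw [Polynomial.coeff_zero]
  have h2 : (toH k (Polynomial.aeval (sm k (-1)) P)).coeff (-(n : ℝ)) = P.coeff n := by
    rw [Polynomial.aeval_eq_sum_range, map_sum, HahnSeries.coeff_sum]
    have h3 : ∀ i : ℕ, (toH k (P.coeff i • sm k (-1) ^ i)).coeff (-(n : ℝ)) =
        if i = n then P.coeff i else 0 := by
      intro i
      rw [O4_coeff_smul, h1, HahnSeries.coeff_single]
      by_cases h5 : i = n
      · rw [if_pos h5, if_pos (by rw [h5]), mul_one]
      · rw [if_neg h5, if_neg (fun h6 => h5 (Nat.cast_injective (neg_injective h6)).symm), mul_zero]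
    rw [Finset.sum_congr rfl fun i _ => h3 i, Finset.sum_ite_eq']
    by_cases h6 : n ∈ Finset.range (P.natDegree + 1)
    · rw [if_pos h6]
    · rw [if_neg h6]
      rw [Finset.mem_range, not_lt] at h6
      exact (Polynomial.coeff_eq_zero_of_natDegree_lt h6).symm
  rw [← h2, hP, map_zero]
  rfl

theorem exists_Om (p : ℕ) [Fact p.Prime] (κ : Type) [Field κ] [CharP κ p] :
    ∃ (Om : Type) (_ : NormedField Om), IsUltrametricDist Om ∧ CompleteSpace Om ∧
      IsAlgClosed Om ∧ CharP Om p ∧ (∀ r : ℝ, 0 < r → ∃ a : Om, ‖a‖ = r) ∧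
      ∃ φ : LaurentSeries κ →+* Om, 1 < ‖φ (HahnSeries.single (1 : ℤ) (1 : κ))‖ := by
  let k' := AlgebraicClosure (LaurentSeries κ)
  have hC : CharP k' p := charP_of_injective_algebraMap (algebraMap κ k').injective p
  have hA : IsAlgClosed (OM k') := isAlgClosed_of_sph (cO k') sph exists_norm_eq exists_res
  have hT : IsScalarTower κ k' (OM k') := IsScalarTower.of_algebraMap_eq fun x => by
    refine (toH k').injective ?_
    rw [O4_algMap, O4_algMap]
    rfl
  obtain ⟨φ, hφ⟩ := exists_phi κ k' (IsScalarTower.toAlgHom κ (LaurentSeries κ) k') (OM k')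
    (sm k' (-1)) (transc_sm k')
  refine ⟨OM k', inferInstance, inferInstance, inferInstance, hA, inferInstance, exists_norm_eq,
    φ.toRingHom, ?_⟩
  change 1 < ‖φ (HahnSeries.single (1 : ℤ) (1 : κ))‖
  rw [hφ, norm_sm, neg_neg]
  exact Real.one_lt_exp_iff.2 one_pos

end

end Pool.Agent.MP_1c8e06_ag.CYH
end
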