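import Pool.Agent.Lib.MP_1c8e06_ag.AK.G0
import Pool.Agent.Lib.MP_1c8e06_ag.Mg.G020
import Pool.Agent.Lib.MP_1c8e06_ag.Mg.G066
import Pool.Agent.Lib.MP_1c8e06_ag.Mg.G056
import Pool.Agent.Lib.MP_1c8e06_ag.Mg.G040
import Pool.Agent.Lib.MP_1c8e06_ag.Mg.G041
import Pool.Agent.Lib.MP_1c8e06_ag.Mg.G027
import Pool.Agent.Lib.MP_1c8e06_ag.Mg.G042
import Pool.Agent.Lib.MP_1c8e06_ag.Mg.G036
import Pool.Agent.Lib.MP_1c8e06_ag.Mg.G028

section

set_option autoImplicit false

open Polynomial

namespace Pool.Agent.MP_1c8e06_ag.AK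

open Pool.Agent.MP_1c8e06_ag.AJ

noncomputable section

/-!
# The base case (assembly)
-/

theorem base_L {p : ℕ} [hp : Fact p.Prime] (k : Type) [Field k] [IsAlgClosed k] [CharP k p] :
    BaseL p k := by
  intro P G _ _ _ _ u₀ i l R r hu hgen hi hl hlp hRn hR hG hRr hncl
  have hl' : Fact l.Prime := ⟨hl⟩
  have hg : orderOf (i u₀) = p := by rw [orderOf_injective i hi, hu]
  have hr : r ∈ R := by
    rw [hRr]
    exact Subgroup.subset_closure ⟨0, by simp⟩
  have hn : Subgroup.normalClosure ({i u₀} : Set G) = ⊤ := by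
    rw [eq_top_iff, ← hncl]
    apply Subgroup.normalClosure_le_normal
    rintro _ ⟨u, rfl⟩
    obtain ⟨n, rfl⟩ := hgen u
    rw [map_pow]
    exact Subgroup.pow_mem _ (Subgroup.subset_normalClosure (Set.mem_singleton _)) n
  obtain ⟨e, hpe, D, hD⟩ := base_wd k hlp (i u₀) hg R hR (fun x hx => hRn.conj_mem x hx _) r hr
    hRr.symm hG hn
  exact re_of_WD D (by rwa [natDegree_X_pow]) ⊤ hD u₀ hu hgen i rfl

end

end Pool.Agent.MP_1c8e06_ag.AK
end

section

set_option autoImplicit false

open Polynomial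
open scoped Classical

namespace Pool.Agent.MP_1c8e06_ag.RC

open Pool.Agent.MP_1c8e06_ag.AJ

noncomputable section

/-!
# Task T11: the embedding of `L` in the completion

`D := O.decompositionSubgroup (RatFunc k) = zpowers τ` has order `p`, `M := fixedField D`.
`ι : M → k((s))` from `exists_iota` and `inf_dense` (`IntermediateField.mem_fixedField_iff`).  `w`, `c` from
`exists_AS` (with `CharP L p`; rewrite `D = zpowers τ` first: `subst` is not possible, use `hD ▸` or generalize the statement
of the subgroup).  `laurent_AS (ι c)`: `ι c = zinv F + (g ^ p - g)`.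
If `F = 0`: the lifting property with `A := k((s))`, `y := g` gives `j` which extends `ι`, so `D = ⊥` by `no_embed`, a
contradiction to `orderOf τ = p`.
So `¬ p ∣ F.natDegree`; `exists_ASp u₀ hu hgen F` gives `S`, `TC p S`, `y : Al S`.  `yE := mapA S (zinv k) y : El S`:
`yE ^ p - yE = oE S (zinv F)` (`mapA_cst`), `actE S u₀ yE = yE + 1` (`mapA_act`).  Lifting property with `A := El S`,
`φ := (oE S).comp ι`, `y := yE + oE S g` : `(yE + oE g) ^ p - (yE + oE g) = oE (zinv F + g ^ p - g)`
(`AJ.add_pow_p`, `p = 0` in `El S`: `charP_Al`-type lemma or `map` of `p = 0`).  This gives `j : L →+* El S`.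
`j (algebraMap f) = oE S (kap (algebraMap f)) = oE S (zinv f) = zeE S f`.
`j ∘ τ` and `actE S u₀ ∘ j` agree on `M` (`actE_oE`, `τ` fixes `M`) and at `w` (`j w + 1`), so they are equal by the
uniqueness in `exists_AS`.
-/

/-- `no_embed` for a subgroup which is equal to the decomposition group. -/
private theorem T11_no_embed {k : Type} [Field k] {L : Type} [Field L] [Algebra (RatFunc k) L]
    [FiniteDimensional (RatFunc k) L] [IsGalois (RatFunc k) L] (O : ValuationSubring L)
    (hO : Inf k O) (H : Subgroup (L ≃ₐ[RatFunc k] L)) (hH : O.decompositionSubgroup (RatFunc k) = H)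
    (ι : IntermediateField.fixedField H →+* LaurentSeries k)
    (hι : ∀ r : RatFunc k, ι (algebraMap (RatFunc k) _ r) = kap k r)
    (hv : ∀ (a : IntermediateField.fixedField H) (N : ℤ),
      xL k L ^ N * (a : L) ∈ O ↔ ∀ m : ℤ, m < N → (ι a).coeff m = 0)
    (j : L →+* LaurentSeries k)
    (hj : ∀ a : IntermediateField.fixedField H, j (a : L) = ι a) : H = ⊥ := by
  subst hH
  exact no_embed O hO ι hι hv j hj

private theorem T11_charP_El {p : ℕ} {k : Type} [Field k] [CharP k p] {P : Type} [Group P]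
    [Fintype P] (S : SC k[X] P) : ((p : ℕ) : El S) = 0 := by
  have h := charP_Al (p := p) (R := k) S
  have h1 := congrArg (Al.mapA S (AI.zinv k)) h
  rw [map_natCast, map_zero] at h1
  exact h1

theorem exists_local {p : ℕ} [hp : Fact p.Prime] {k : Type} [Field k] [IsAlgClosed k] [CharP k p]
    {L : Type} [Field L] [Algebra (RatFunc k) L] [FiniteDimensional (RatFunc k) L]
    [IsGalois (RatFunc k) L] (O : ValuationSubring L) (hO : Inf k O) {P : Type} [Group P]
    [Fintype P] (u₀ : P) (hu : orderOf u₀ = p) (hgen : ∀ u : P, ∃ n : ℕ, u = u₀ ^ n)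
    (τ : L ≃ₐ[RatFunc k] L) (hτ : orderOf τ = p)
    (hD : O.decompositionSubgroup (RatFunc k) = Subgroup.zpowers τ) :
    ∃ S : SC k[X] P, TC p S ∧ ∃ j : L →+* El S,
      (∀ f : k[X], j (algebraMap (RatFunc k) L (algebraMap k[X] (RatFunc k) f)) = zeE S f) ∧
      ∀ a, j (τ a) = actE S u₀ (j a) := by
  have : CharP L p := charP_of_injective_ringHom
    (f := (algebraMap (RatFunc k) L).comp (algebraMap k (RatFunc k))) (RingHom.injective _) p
  obtain ⟨w, hw, c, hc, hlift, huniq⟩ := exists_AS τ hτ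
  have hfix : ∀ (a : IntermediateField.fixedField (Subgroup.zpowers τ)) (σ : L ≃ₐ[RatFunc k] L),
      σ ∈ Subgroup.zpowers τ → σ (a : L) = a := by
    intro a σ hσ
    exact (IntermediateField.mem_fixedField_iff _ _).1 a.2 σ hσ
  obtain ⟨ι, hι, hv⟩ := exists_iota O hO (IntermediateField.fixedField (Subgroup.zpowers τ))
    (fun a ha N => inf_dense (p := p) O hO a (fun σ hσ => hfix ⟨a, ha⟩ σ (hD ▸ hσ)) N)
  obtain ⟨F, g, hF, hf⟩ := laurent_AS (p := p) (ι c)
  rcases hF with hF | hF
  · exfalso
    obtain ⟨ψ, hψ, _⟩ := hlift (LaurentSeries k) ι g (by rw [hf, hF, map_zero, zero_add])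
    have hbot : Subgroup.zpowers τ = ⊥ := T11_no_embed O hO _ hD ι hι hv ψ hψ
    rw [Subgroup.zpowers_eq_bot] at hbot
    rw [hbot, orderOf_one] at hτ
    exact hp.out.one_lt.ne hτ
  · obtain ⟨S, hT, y, hy, hact⟩ := exists_ASp u₀ hu hgen F hF
    obtain ⟨yE, hyE⟩ : ∃ yE : El S, yE = Al.mapA S (AI.zinv k) y := ⟨_, rfl⟩
    have h1 : yE ^ p - yE = oE S (AI.zinv k F) := by
      rw [hyE, ← map_pow, ← map_sub, hy, Al.mapA_cst]
      rfl
    have h2 : actE S u₀ yE = yE + 1 := by
      rw [hyE, actE, ← Al.mapA_act, hact, map_add, map_one]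
    have hp0 : ((p : ℕ) : El S) = 0 := T11_charP_El S
    have h3 : (yE + oE S g) ^ p - (yE + oE S g) = ((oE S).comp ι) c := by
      rw [add_pow_p hp0, RingHom.comp_apply, hf, map_add, ← h1, map_sub, map_pow]
      ring
    obtain ⟨j, hj, hjw⟩ := hlift (El S) ((oE S).comp ι) (yE + oE S g) h3
    have hjK : ∀ r : RatFunc k, j (algebraMap (RatFunc k) L r) = oE S (kap k r) := by
      intro r
      have h4 := hj (algebraMap (RatFunc k) _ r)
      rw [RingHom.comp_apply, hι] at h4
      exact h4
    refine ⟨S, hT, j, fun f => ?_, ?_⟩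
    · rw [hjK, kap_algebraMap]
      rfl
    · have h5 : j.comp (τ : L →+* L) = (actE S u₀).comp j := by
        apply huniq
        · intro m
          rw [RingHom.comp_apply, RingHom.comp_apply, hj, RingHom.comp_apply, actE_oE]
          have h6 : (τ : L →+* L) (m : L) = m := hfix m τ (Subgroup.mem_zpowers τ)
          rw [h6, hj, RingHom.comp_apply]
        · rw [RingHom.comp_apply, RingHom.comp_apply]
          have h6 : (τ : L →+* L) w = w + 1 := hw
          rw [h6, map_add, map_one, hjw, map_add, actE_oE, h2]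
          ring
      intro a
      exact congrArg (fun f : L →+* El S => f a) h5

end

end Pool.Agent.MP_1c8e06_ag.RC
end

section

set_option autoImplicit false

open Polynomial
open scoped Classical

namespace Pool.Agent.MP_1c8e06_ag.RC

open Pool.Agent.MP_1c8e06_ag.AJ

noncomputable section

/-!
# Task T12: Theorem RC

Unpack `h : AI.Realised k G i.range`: `L`, `e`, the affine condition, and `O` with `Inf k O` and
`((O.inertiaSubgroup).map subtype).map e = i.range`.  `inf_dec`: the inertia group is everything, so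
`O.decompositionSubgroup.map e = i.range`.  Take `u₀ : P` of order `p` (`Nat.card P = p`), `τ := e.symm (i u₀)`:
`orderOf τ = p`, `O.decompositionSubgroup = zpowers τ` (`P = zpowers u₀`).  `exists_local`: `S`, `TC p S`, `j`, with
`j (τ a) = actE S u₀ (j a)`, hence `j (e.symm (i u) a) = actE S u (j a)` for all `u = u₀ ^ n` (induction).
`exists_GDL` with `affine_span`: `D₀`.  `D := D₀.push (RingHom.id k[X]) j (MonoidHom.id P) i ...`.
`Conn' ⊤`: if `∑ l, zeE S (f l) * D.b l x = zeE S (C (c x))` for all `x`, put `a := ∑ l, f l • D₀.b l 1 : L`; then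
`j (e.symm x a) = j (cs (c x))`, `j` is injective (a field; `El S` is nontrivial because `zeE` is injective), so
`e.symm x a = cs (c x)` for all `x`; at `x = 1`: `a = cs (c 1)`, which is fixed by the group, so
`cs (c x) = cs (c 1)` and `c x = c 1`.
-/

theorem RE_of_realised {p : ℕ} [hp : Fact p.Prime] {k : Type} [Field k] [IsAlgClosed k]
    [CharP k p] {P : Type} [Group P] [Fintype P] (hcard : Nat.card P = p) {G : Type} [Group G]
    [Fintype G] (i : P →* G) (hi : Function.Injective i) (h : AI.Realised k G i.range) :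
    RE p k i ⊤ := by
  obtain ⟨L, iF, iA, iD, iG, e, haff, O, hO1, hO2, hO3, hin⟩ := h
  have hO : Inf k O := ⟨hO1, hO2, hO3⟩
  have hdec : O.inertiaSubgroup (RatFunc k) = ⊤ := inf_dec O hO
  rw [hdec, ← MonoidHom.range_eq_map, Subgroup.range_subtype] at hin
  -- a generator of `P`
  have hcyc : IsCyclic P := isCyclic_of_prime_card hcard
  obtain ⟨u₀, hu₀⟩ := hcyc.exists_generator
  have hu : orderOf u₀ = p := by rw [orderOf_eq_card_of_forall_mem_zpowers hu₀, hcard]
  have hgen : ∀ u : P, ∃ n : ℕ, u = u₀ ^ n := by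
    intro u
    have h1 := hu₀ u
    rw [← mem_powers_iff_mem_zpowers] at h1
    obtain ⟨n, hn⟩ := h1
    exact ⟨n, hn.symm⟩
  have hτ : orderOf (e.symm (i u₀)) = p := by
    rw [MulEquiv.orderOf_eq, orderOf_injective i hi, hu]
  have hD : O.decompositionSubgroup (RatFunc k) = Subgroup.zpowers (e.symm (i u₀)) := by
    ext σ
    constructor
    · intro hσ
      have h1 : e σ ∈ i.range := by
        rw [← hin]
        exact ⟨σ, hσ, rfl⟩
      obtain ⟨u, hu'⟩ := h1
      obtain ⟨n, rfl⟩ := hgen u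
      refine ⟨(n : ℤ), ?_⟩
      change e.symm (i u₀) ^ (n : ℤ) = σ
      rw [zpow_natCast, ← map_pow, ← map_pow, hu', MulEquiv.symm_apply_apply]
    · rintro ⟨n, hn⟩
      have h1 : i (u₀ ^ n) ∈ (O.decompositionSubgroup (RatFunc k)).map e.toMonoidHom := by
        rw [hin]
        exact ⟨u₀ ^ n, rfl⟩
      obtain ⟨σ', hσ', h2⟩ := h1
      have h3 : e σ' = i (u₀ ^ n) := h2
      have h4 : σ' = σ := by
        have h5 : e.symm (i u₀) ^ n = σ := hn
        rw [← h5, ← map_zpow, ← map_zpow, ← h3, MulEquiv.symm_apply_apply]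
      rw [← h4]
      exact hσ'
  obtain ⟨S, hT, j, hj, hjτ⟩ := exists_local O hO u₀ hu hgen (e.symm (i u₀)) hτ hD
  have hjn : ∀ (n : ℕ) (a : L), j (e.symm (i (u₀ ^ n)) a) = actE S (u₀ ^ n) (j a) := by
    intro n
    induction n with
    | zero =>
      intro a
      rw [pow_zero, map_one, map_one, AlgEquiv.one_apply]
      exact (Al.act_one_apply _ (j a)).symm
    | succ n ih =>
      intro a
      rw [pow_succ', map_mul, map_mul, AlgEquiv.mul_apply, hjτ, ih]
      exact (Al.act_mul_apply _ _ _ _).symm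
  have hjP : ∀ (u : P) (a : L), j (e.symm (i u) a) = actE S u (j a) := by
    intro u a
    obtain ⟨n, rfl⟩ := hgen u
    exact hjn n a
  obtain ⟨D₀, hD₀⟩ := exists_GDL e i (affine_span haff)
  refine ⟨S, hT, D₀.push (RingHom.id k[X]) j (MonoidHom.id P) i (fun _ => rfl) (zeE S) (actE S)
    (fun b => hj b) (fun u a => hjP u a), ?_⟩
  intro x _ f c hfc
  have hinjz := zeE_injective S
  have hnt : Nontrivial (El S) := hinjz.nontrivial
  have hinj : Function.Injective j := j.injective
  set sc : k[X] → L := fun g => algebraMap (RatFunc k) L (algebraMap k[X] (RatFunc k) g) with hsc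
  have hscinj : ∀ g g' : k[X], sc g = sc g' → g = g' := by
    intro g g' h
    exact (IsFractionRing.injective k[X] (RatFunc k))
      ((algebraMap (RatFunc k) L).injective h)
  have hfix : ∀ (σ : L ≃ₐ[RatFunc k] L) (g : k[X]), σ (sc g) = sc g := fun σ g => σ.commutes _
  have key : ∀ y : G, e.symm y (∑ l, sc (f l) * D₀.b l 1) = sc (C (c y)) := by
    intro y
    apply hinj
    rw [map_sum, map_sum]
    have h1 : ∀ l, j (e.symm y (sc (f l) * D₀.b l 1)) = zeE S (f l) * j (D₀.b l y) := by
      intro l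
      rw [map_mul, hfix, ← hD₀, map_mul]
      exact congrArg (· * j (D₀.b l y)) (hj (f l))
    rw [Finset.sum_congr rfl fun l _ => h1 l]
    exact (hfc y).trans (hj (C (c y))).symm
  have h1 := key 1
  rw [map_one, AlgEquiv.one_apply] at h1
  have h2 := key x
  rw [h1, hfix] at h2
  exact (C_injective (hscinj _ _ h2)).symm

end

end Pool.Agent.MP_1c8e06_ag.RC
end
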