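import Pool.Agent.Lib.MP_1c8e06_ag.Mg.G006
import Pool.Agent.Lib.MP_1c8e06_ag.CY.Z1
import Pool.Agent.Lib.MP_1c8e06_ag.Mg.G011
import Pool.Agent.Lib.MP_1c8e06_ag.Mg.G009
import Pool.Agent.Lib.MP_1c8e06_ag.Mg.G012
import Pool.Agent.Lib.MP_1c8e06_ag.Mg.G017
import Pool.Agent.Lib.MP_1c8e06_ag.AK.G7
import Pool.Agent.Lib.MP_1c8e06_ag.Mg.G037
import Pool.Agent.Lib.MP_1c8e06_ag.Mg.G014
import Pool.Agent.Lib.MP_1c8e06_ag.Mg.G058
import Pool.Agent.Lib.MP_1c8e06_ag.Mg.G059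
import Pool.Agent.Lib.MP_1c8e06_ag.AJ.Fin

section

/-!
# CY G6: the cover of the affine line over the complete field
-/

set_option autoImplicit false

open Polynomial
open scoped Classical

namespace Pool.Agent.MP_1c8e06_ag.CY

open Pool.Agent.MP_1c8e06_ag.AJ

noncomputable section

set_option linter.unusedSectionVars false

variable {Om : Type} [NormedField Om] [CompleteSpace Om] [IsUltrametricDist Om] [IsAlgClosed Om]
  {p : ℕ} [Fact p.Prime] [CharP Om p] {G : Type} [Group G] [Fintype G] {x : G} {t : Om}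

theorem exists_WD_Om (hV : ∀ r : ℝ, 0 < r → ∃ c : Om, ‖c‖ = r) (hx : orderOf x = p)
    (D : TPw p x t) (ht : 1 < ‖t‖) (hconn : D.Conn) {N : Subgroup G} (hxN : x ∈ N)
    (hN : ∀ n ∈ N, n * x * n⁻¹ ∈ Subgroup.zpowers x) (hSE : SEH p N) :
    ∃ F : Om[X], ¬ p ∣ F.natDegree ∧ ∃ D' : AI.WD p Om G x F, D'.Conn' ⊤ := by
  obtain ⟨χ, hχ⟩ : ∃ χ : G → ℕ, ∀ n ∈ N, n * x * n⁻¹ = x ^ χ n := by
    have h : ∀ n : G, ∃ m : ℕ, n ∈ N → n * x * n⁻¹ = x ^ m := by
      intro n
      by_cases hn : n ∈ N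
      · obtain ⟨m, hm⟩ := (mem_powers_iff_mem_zpowers.2 (hN n hn))
        exact ⟨m, fun _ => hm.symm⟩
      · exact ⟨0, fun h => absurd h hn⟩
    choose χ hχ using h
    exact ⟨χ, hχ⟩
  obtain ⟨A0, s0, hs0, hA0, hc0, hA0v⟩ := exists_eps0 D N hxN
  obtain ⟨A1, s1, hs1, hA1, hc1, hA1v⟩ := exists_eps1 D N hxN
  have ha' : 0 < min s0 1 := lt_min hs0 one_pos
  obtain ⟨H, b, -, hr0, hr1, -, hb, hQ⟩ := exists_holes hV hx D ht hSE
    (a := min s0 1 / 2) (a' := min s0 1) (d' := max s1⁻¹ 2) (d := 2 * max s1⁻¹ 2)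
    (by linarith) (by linarith)
    (lt_of_le_of_lt (min_le_right _ _) (lt_of_lt_of_le one_lt_two (le_max_right _ _)))
    (by have h : (2 : ℝ) ≤ max s1⁻¹ 2 := le_max_right _ _
        linarith)
  have hr0' : H.r0 < s0 := lt_of_lt_of_le hr0 (min_le_left _ _)
  have hr1' : H.r1⁻¹ < s1 := by
    rw [inv_lt_comm₀ (H.r0_pos.trans H.r0_lt) hs1]
    exact lt_of_le_of_lt (le_max_left _ _) hr1
  obtain ⟨ε, hε, he0, he1⟩ := H.exists_eps D.S N b hb hQ
    (fun e e' he he' => NI_unique_gp hV hx D ht hSE H.r0_pos e e' he he')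
    (fun e e' he he' => NI_unique_gp hV hx D ht hSE (H.r0_pos.trans H.r0_lt) e e' he he')
    A0 hA0 ⟨s0, hr0', hc0⟩ A1 hA1 ⟨s1, hr1', hc1⟩
  have hv0 : ∀ g, D.h0 H (Al.act _ g ε) = if g ∈ N then 1 else 0 := fun g =>
    (D.v0_transfer H.lam H.e0 H.e0_lam ε A0 he0 g).trans (hA0v g)
  have hv1 : ∀ g, D.h1 H (Al.act _ g ε) = if g ∈ N then 1 else 0 := fun g =>
    (D.v1_transfer H.lam H.e1 H.e1_lam ε A1 he1 g).trans (hA1v g)
  have hε0 : D.h0 H ε = 1 := by
    have h := hv0 1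
    rw [Al.act_one_apply, if_pos N.one_mem] at h
    exact h
  have hε1 : D.h1 H ε = 1 := by
    have h := hv1 1
    rw [Al.act_one_apply, if_pos N.one_mem] at h
    exact h
  have hB : ((p : ℕ) : H.OO) = 0 := by
    have h : H.lam (((p : ℕ) : Lam Om)) = ((p : ℕ) : H.OO) := map_natCast _ _
    rw [← h]
    have h1 : ((p : ℕ) : Lam Om) = 0 := by
      have h2 : ((p : ℕ) : Lam Om) = LaurentPolynomial.C ((p : ℕ) : Om) := (map_natCast _ _).symm
      rw [h2, CharP.cast_eq_zero, map_zero]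
    rw [h1, map_zero]
  obtain ⟨l, a0, a1, hl, hl', h0, ha0, h1, ha1⟩ := exists_l D H.lam hx N hxN χ hχ ε hε H.e0 H.e1
    H.e0_lam H.e1_lam hB hε0 hε1
  have ht0 : t ≠ 0 := by
    rintro rfl
    rw [norm_zero] at ht
    linarith
  obtain ⟨Q⟩ := exists_GLD D ht0 H N hxN hx χ hχ ε hε l hl hl' h0 ha0 h1 ha1
  obtain ⟨F, h, ρ0, ρ1, hF, hρ0, hρx, hρ1, hρ⟩ := Q.exists_values hε0 hε1
  exact ⟨F, hF, exists_WD Q.S2 ρ0 hρ0 hρx ρ1 hρ1
    fun f c hf g => Q.conn hconn hv0 F h ρ0 hρ hρx f c hf g⟩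

end

end Pool.Agent.MP_1c8e06_ag.CY
end

section

set_option autoImplicit false

namespace Pool.Agent.MP_1c8e06_ag.AK

/-- The wild part of the inertia conjecture for `p`-solvable groups. -/
theorem main_p_solvable {p : ℕ} [hp : Fact p.Prime] (k : Type) [Field k] [IsAlgClosed k]
    [CharP k p] {G : Type} [Group G] [Finite G] (hG : PSolvable p G) (P : Subgroup G)
    (hP : IsPGroup p P) (hgen : Subgroup.normalClosure (P : Set G) = ⊤) : AI.Realised k G P :=
  main_psolvable k (base_L k) hG P hP hgen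

end Pool.Agent.MP_1c8e06_ag.AK
end

section

set_option autoImplicit false

namespace Pool.Agent.MP_1c8e06_ag.AU

open Pool.Agent.MP_1c8e06_ag.AJ

variable {G : Type} [Group G]

/-!
# Theorem U: every `p`-subgroup which contains a conjugate of `x` lies in exactly one maximal subgroup

Pure group theory.  The label of `h x h⁻¹` is `h H h⁻¹` (well defined because `C(x) ≤ H`).
-/

/-- A `p`-subgroup of `L` lies in a Sylow `p`-subgroup of `L`. -/
theorem exists_sylow_in {p : ℕ} [hp : Fact p.Prime] [Finite G] (U L : Subgroup G) (hUL : U ≤ L)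
    (hU : IsPGroup p U) :
    ∃ P : Subgroup G, U ≤ P ∧ P ≤ L ∧ IsPGroup p P ∧ ¬ p ∣ P.relIndex L := by
  have h1 : IsPGroup p (U.subgroupOf L) := hU.comap_subtype
  obtain ⟨Q, hQ⟩ := h1.exists_le_sylow
  refine ⟨(Q : Subgroup L).map L.subtype, ?_, ?_, ?_, ?_⟩
  · intro u hu
    exact ⟨⟨u, hUL hu⟩, hQ (Subgroup.mem_subgroupOf.2 hu), rfl⟩
  · rintro _ ⟨y, _, rfl⟩
    exact y.2
  · exact Q.isPGroup'.map L.subtype
  · have h2 : (((Q : Subgroup L).map L.subtype).subgroupOf L) = (Q : Subgroup L) :=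
      Subgroup.comap_map_eq_self_of_injective L.subtype_injective _
    rw [Subgroup.relIndex, h2]
    exact Q.not_dvd_index

open scoped Pointwise in
/-- Sylow's theorem inside the subgroup `A`. -/
theorem conj_into {p : ℕ} [hp : Fact p.Prime] [Finite G] (A P Q : Subgroup G) (hPA : P ≤ A)
    (hP : IsPGroup p P) (hPi : ¬ p ∣ P.relIndex A) (hQA : Q ≤ A) (hQ : IsPGroup p Q) :
    ∃ a ∈ A, BT.cj a Q ≤ P := by
  have h1 : IsPGroup p (P.subgroupOf A) := hP.comap_subtype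
  have h2 : IsPGroup p (Q.subgroupOf A) := hQ.comap_subtype
  have hPi' : ¬ p ∣ (P.subgroupOf A).index := hPi
  obtain ⟨Q', hQ'⟩ := h2.exists_le_sylow
  obtain ⟨a, ha⟩ := MulAction.exists_smul_eq A Q' (h1.toSylow hPi')
  refine ⟨a, a.2, ?_⟩
  intro x hx
  rw [BT.mem_cj] at hx
  have h3 : (a : G)⁻¹ * x * a ∈ A := hQA hx
  have h4 : (⟨(a : G)⁻¹ * x * a, h3⟩ : A) ∈ (Q' : Subgroup A) :=
    hQ' (Subgroup.mem_subgroupOf.2 hx)
  have h5 : (MulAut.conj a) • (⟨(a : G)⁻¹ * x * a, h3⟩ : A) ∈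
      ((MulAut.conj a) • (Q' : Subgroup A) : Subgroup A) :=
    Subgroup.smul_mem_pointwise_smul _ _ _ h4
  have h6 : ((MulAut.conj a) • (Q' : Subgroup A) : Subgroup A) = P.subgroupOf A := by
    have h7 : ((a • Q' : Sylow p A) : Subgroup A) = ((h1.toSylow hPi' : Sylow p A) : Subgroup A) := by
      rw [ha]
    exact h7
  rw [h6, Subgroup.mem_subgroupOf] at h5
  have h7 : (((MulAut.conj a) • (⟨(a : G)⁻¹ * x * a, h3⟩ : A) : A) : G) = x := by
    rw [MulAut.smul_def, MulAut.conj_apply]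
    show (a : G) * ((a : G)⁻¹ * x * a) * (a : G)⁻¹ = x
    group
  rwa [h7] at h5

/-- A Sylow `p`-subgroup of `L` meets a subnormal subgroup of `L` in a Sylow `p`-subgroup. -/
theorem SN_sylow {p : ℕ} [hp : Fact p.Prime] [Finite G] {A L : Subgroup G} (h : BT.SN A L) :
    ∀ P : Subgroup G, P ≤ L → IsPGroup p P → ¬ p ∣ P.relIndex L → ¬ p ∣ (P ⊓ A).relIndex A := by
  induction h with
  | refl A =>
    intro P hPL _ hPi
    rwa [inf_eq_left.2 hPL]
  | step A B L hAB hn hBL ih =>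
    intro P hPL hP hPi
    have h1 := ih P hPL hP hPi
    have hPB : IsPGroup p (P ⊓ B : Subgroup G) := hP.to_le inf_le_left
    have hPA : IsPGroup p (P ⊓ A : Subgroup G) := hP.to_le inf_le_left
    obtain ⟨T, hT1, hT2, hT3, hT4⟩ := exists_sylow_in (p := p) (P ⊓ A) A inf_le_right hPA
    obtain ⟨b, hb, hbT⟩ := conj_into (p := p) B (P ⊓ B) T inf_le_right hPB h1 (hT2.trans hAB) hT3
    have h2 : BT.cj b T ≤ P ⊓ A := by
      refine le_inf (hbT.trans inf_le_left) ?_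
      rw [← hn b hb]
      exact BT.cj_mono hT2
    have h3 : P ⊓ A = T := by
      apply Subgroup.eq_of_le_of_card_ge hT1
      rw [← BT.card_cj b T]
      exact Subgroup.card_le_of_le h2
    rw [h3]
    exact hT4

/-- A proper subgroup of a finite `p`-group is properly contained in its normaliser. -/
theorem grow {p : ℕ} [hp : Fact p.Prime] [Finite G] (P Q : Subgroup G) (hPQ : P < Q)
    (hQ : IsPGroup p Q) : ∃ n ∈ Q, n ∉ P ∧ BT.cj n P = P := by
  have h1 : Group.IsNilpotent Q := hQ.isNilpotent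
  have h2 := Group.normalizerCondition_of_isNilpotent (G := Q)
  have h3 : P.subgroupOf Q < ⊤ := by
    rw [lt_top_iff_ne_top]
    intro h
    rw [Subgroup.subgroupOf_eq_top] at h
    exact absurd (le_antisymm hPQ.le h) hPQ.ne
  obtain ⟨n, hn1, hn2⟩ := SetLike.exists_of_lt (h2 _ h3)
  refine ⟨n, n.2, fun h => hn2 (Subgroup.mem_subgroupOf.2 h), ?_⟩
  apply BT.cj_eq_of_le
  intro x hx
  rw [BT.mem_cj] at hx
  have h4 : (n : G)⁻¹ * x * n ∈ Q := hPQ.le hx
  rw [Subgroup.mem_normalizer_iff] at hn1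
  have h5 := (hn1 ⟨(n : G)⁻¹ * x * n, h4⟩).1 (Subgroup.mem_subgroupOf.2 hx)
  rw [Subgroup.mem_subgroupOf] at h5
  have h6 : (n : G) * ((n : G)⁻¹ * x * n) * (n : G)⁻¹ = x := by group
  have h7 : ((n * ⟨(n : G)⁻¹ * x * n, h4⟩ * n⁻¹ : Q) : G) =
      (n : G) * ((n : G)⁻¹ * x * n) * (n : G)⁻¹ := rfl
  rw [h7, h6] at h5
  exact h5

/-- The hypotheses of Theorem U. -/
structure UEnv (p : ℕ) (x : G) (H : Subgroup G) : Prop where
  hx : ∃ j : ℕ, x ^ p ^ j = 1
  hgen : Subgroup.normalClosure ({x} : Set G) = ⊤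
  hOp : ∀ N : Subgroup G, N.Normal → IsPGroup p N → N = ⊥
  hH : IsCoatom H
  hC : ∀ c : G, c * x = x * c → c ∈ H
  hsub : ∀ A : Subgroup G, A ≠ ⊤ → x ∈ A → A ≤ BT.clo x A → A ≤ H

/-- The labels of `L`. -/
def Lab (x : G) (H L : Subgroup G) : Set (Subgroup G) :=
  {Z | ∃ h : G, h * x * h⁻¹ ∈ L ∧ Z = BT.cj h H}

theorem Lab_mono {x : G} {H L L' : Subgroup G} (h : L ≤ L') : Lab x H L ⊆ Lab x H L' := by
  rintro Z ⟨g, hg, rfl⟩
  exact ⟨g, h hg, rfl⟩

theorem Lab_cj {x : G} {H L Z : Subgroup G} {n : G} (hn : BT.cj n L = L) (hZ : Z ∈ Lab x H L) :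
    BT.cj n Z ∈ Lab x H L := by
  obtain ⟨g, hg, rfl⟩ := hZ
  refine ⟨n * g, ?_, (BT.cj_mul n g H).symm⟩
  rw [← hn]
  have h1 : n * g * x * (n * g)⁻¹ = n * (g * x * g⁻¹) * n⁻¹ := by group
  rw [h1]
  exact BT.conj_mem_cj.2 hg

namespace UEnv

variable {p : ℕ} [hp : Fact p.Prime] [Finite G] {x : G} {H : Subgroup G}

theorem x_ne (E : UEnv p x H) : x ≠ 1 := by
  rintro rfl
  have h1 : (⊤ : Subgroup G) ≤ ⊥ := by
    rw [← E.hgen]
    refine Subgroup.normalClosure_le_normal ?_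
    intro y hy
    rw [Set.mem_singleton_iff] at hy
    rw [hy]
    exact Subgroup.one_mem _
  exact E.hH.1 (top_le_iff.1 (h1.trans bot_le))

theorem pgroup_x (E : UEnv p x H) (h : G) : IsPGroup p (Subgroup.zpowers (h * x * h⁻¹)) := by
  obtain ⟨j, hj⟩ := E.hx
  rintro ⟨y, hy⟩
  obtain ⟨n, rfl⟩ := hy
  refine ⟨j, ?_⟩
  apply Subtype.ext
  show ((h * x * h⁻¹) ^ n) ^ p ^ j = 1
  rw [← zpow_natCast, ← zpow_mul, mul_comm, zpow_mul, zpow_natCast, conj_pow, hj, mul_one,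
    mul_inv_cancel, one_zpow]

/-- The best group for `h x h⁻¹` in `L`. -/
theorem sub' (E : UEnv p x H) (L : Subgroup G) (hL : L ≠ ⊤) (h : G) (hh : h * x * h⁻¹ ∈ L) :
    ∃ A : Subgroup G, BT.SN A L ∧ h * x * h⁻¹ ∈ A ∧ A ≤ BT.cj h H := by
  obtain ⟨S, h1, h2, h3, -⟩ := BT.exists_closure hh
  refine ⟨S, h1, h2, ?_⟩
  rw [BT.le_cj_iff]
  apply E.hsub
  · intro h4
    rw [BT.cj_eq_iff, BT.cj_top] at h4
    rw [h4] at h1
    exact hL (top_le_iff.1 h1.le)
  · rw [BT.mem_cj, inv_inv]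
    exact h2
  · intro y hy
    rw [BT.mem_cj, inv_inv] at hy
    have h4 := h3 hy
    have h5 : BT.cj h⁻¹ (BT.clo (h * x * h⁻¹) S) ≤ BT.clo x (BT.cj h⁻¹ S) := by
      rw [BT.clo, BT.cj_closure, Subgroup.closure_le]
      rintro _ ⟨_, ⟨a, ha, rfl⟩, rfl⟩
      refine Subgroup.subset_closure ⟨h⁻¹ * a * h, ?_, by group⟩
      rw [BT.mem_cj, inv_inv]
      have h6 : h * (h⁻¹ * a * h) * h⁻¹ = a := by group
      rw [h6]
      exact ha
    apply h5
    rw [BT.mem_cj, inv_inv]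
    exact h4

/-- (0): the core of `H` has order prime to `p`. -/
theorem core (E : UEnv p x H) : ¬ p ∣ Nat.card H.normalCore := by
  intro hd
  have hKn : H.normalCore.Normal := Subgroup.normalCore_normal H
  have hPx : IsPGroup p (Subgroup.zpowers x) := by
    have := E.pgroup_x 1
    rwa [one_mul, inv_one, mul_one] at this
  obtain ⟨T, hTK, hTp, hTx, hTF, hT5⟩ := exists_sylow (p := p) H.normalCore
    (Subgroup.zpowers x) hKn hPx
  have hL : BT.S3_nz T ≠ ⊤ := by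
    intro htop
    have hc : ∀ g : G, BT.cj g T = T := by
      intro g
      have h1 : g ∈ BT.S3_nz T := by
        rw [htop]
        exact Subgroup.mem_top g
      exact h1
    have hTn : T.Normal := by
      refine ⟨fun y hy g => ?_⟩
      have h2 : g * y * g⁻¹ ∈ BT.cj g T := BT.conj_mem_cj.2 hy
      rwa [hc g] at h2
    have hTb : T = ⊥ := E.hOp T hTn hTp
    have h3 := hT5 hc
    obtain ⟨z, hz⟩ := exists_prime_orderOf_dvd_card' (G := H.normalCore) p hd
    have h4 := h3 z z.2 ⟨1, by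
      have h5 : z ^ p = 1 := by
        rw [← hz]
        exact pow_orderOf_eq_one z
      rw [pow_one]
      exact congrArg Subtype.val h5⟩
    rw [hTb, Subgroup.mem_bot] at h4
    have h5 : z = 1 := Subtype.ext h4
    rw [h5, orderOf_one] at hz
    exact hp.out.one_lt.ne hz
  have hxL : (1 : G) * x * 1⁻¹ ∈ BT.S3_nz T := by
    rw [one_mul, inv_one, mul_one]
    exact hTx x (Subgroup.mem_zpowers x)
  obtain ⟨A, hA1, hA2, hA3⟩ := E.sub' _ hL 1 hxL
  rw [one_mul, inv_one, mul_one] at hA2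
  rw [BT.cj_one] at hA3
  have h1 := SN_supN hA1 hKn
  have h2 : BT.S3_nz T ⊔ H.normalCore = ⊤ := by
    rw [eq_top_iff]
    intro g _
    obtain ⟨n, hn, hng⟩ := hTF g
    have h3 : g = n⁻¹ * (n * g) := by group
    rw [h3]
    exact Subgroup.mul_mem _ (Subgroup.mem_sup_right (Subgroup.inv_mem _ hn))
      (Subgroup.mem_sup_left hng)
  rw [h2] at h1
  have h3 : A ⊔ H.normalCore = ⊤ := by
    refine SN_top (S := Subgroup.zpowers x) h1 ?_ ?_
    · rw [Subgroup.zpowers_le]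
      exact Subgroup.mem_sup_left hA2
    · rw [eq_top_iff, ← E.hgen]
      refine Subgroup.normalClosure_mono ?_
      intro y hy
      rw [Set.mem_singleton_iff] at hy
      rw [hy]
      exact Subgroup.mem_zpowers x
  have h4 : A ⊔ H.normalCore ≤ H := sup_le hA3 (Subgroup.normalCore_le H)
  rw [h3, top_le_iff] at h4
  exact E.hH.1 h4

/-- (PG): a Sylow subgroup of `L` has the same labels as `L`. -/
theorem lab_sylow (E : UEnv p x H) (L : Subgroup G) (hL : L ≠ ⊤) (P : Subgroup G) (hPL : P ≤ L)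
    (hP : IsPGroup p P) (hPi : ¬ p ∣ P.relIndex L) : Lab x H L = Lab x H P := by
  apply Set.Subset.antisymm
  · rintro Z ⟨h, hh, rfl⟩
    obtain ⟨A, hA1, hA2, hA3⟩ := E.sub' L hL h hh
    have h1 := SN_sylow (p := p) hA1 P hPL hP hPi
    obtain ⟨a, ha, haP⟩ := conj_into (p := p) A (P ⊓ A) (Subgroup.zpowers (h * x * h⁻¹))
      inf_le_right (hP.to_le inf_le_left) h1 (by rw [Subgroup.zpowers_le]; exact hA2)
      (E.pgroup_x h)
    refine ⟨a * h, ?_, ?_⟩
    · have h2 : a * (h * x * h⁻¹) * a⁻¹ ∈ BT.cj a (Subgroup.zpowers (h * x * h⁻¹)) :=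
        BT.conj_mem_cj.2 (Subgroup.mem_zpowers _)
      have h3 : a * h * x * (a * h)⁻¹ = a * (h * x * h⁻¹) * a⁻¹ := by group
      rw [h3]
      exact (haP h2).1
    · rw [BT.cj_mul, BT.cj_eq_self (hA3 ha)]
  · exact Lab_mono hPL

/-- (1): a `p`-group does not carry all labels. -/
theorem lab_ne (E : UEnv p x H) (U : Subgroup G) (hU : IsPGroup p U) :
    ¬ ∀ g : G, BT.cj g H ∈ Lab x H U := by
  intro hall
  obtain ⟨h0, hh0, -⟩ := hall 1
  have hne : Nontrivial U := by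
    refine ⟨⟨⟨h0 * x * h0⁻¹, hh0⟩, 1, ?_⟩⟩
    intro h1
    have h2 : h0 * x * h0⁻¹ = 1 := congrArg Subtype.val h1
    apply E.x_ne
    have h3 : x = h0⁻¹ * (h0 * x * h0⁻¹) * h0 := by group
    rw [h3, h2]
    group
  have hc : Nontrivial (Subgroup.center U) := hU.center_nontrivial
  obtain ⟨z, hz⟩ := exists_ne (1 : Subgroup.center U)
  have hzK : ((z : U) : G) ∈ H.normalCore := by
    intro b
    obtain ⟨h, hh, hbh⟩ := hall b⁻¹
    have h1 : ((z : U) : G) * (h * x * h⁻¹) = (h * x * h⁻¹) * ((z : U) : G) := by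
      have h2 := (Subgroup.mem_center_iff.1 z.2) ⟨h * x * h⁻¹, hh⟩
      exact (congrArg Subtype.val h2).symm
    have h2 : h⁻¹ * ((z : U) : G) * h ∈ H := by
      apply E.hC
      calc h⁻¹ * ((z : U) : G) * h * x = h⁻¹ * (((z : U) : G) * (h * x * h⁻¹)) * h := by group
        _ = h⁻¹ * ((h * x * h⁻¹) * ((z : U) : G)) * h := by rw [h1]
        _ = x * (h⁻¹ * ((z : U) : G) * h) := by group
    have h3 : ((z : U) : G) ∈ BT.cj h H := h2
    rw [← hbh, BT.mem_cj, inv_inv] at h3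
    exact h3
  have h1 : p ∣ orderOf ((z : U) : G) := by
    obtain ⟨j, hj⟩ := (hU (z : U))
    have h2 : orderOf ((z : U) : G) ∣ p ^ j := by
      apply orderOf_dvd_of_pow_eq_one
      exact congrArg Subtype.val hj
    obtain ⟨i, -, hi⟩ := (Nat.dvd_prime_pow hp.out).1 h2
    rcases Nat.eq_zero_or_pos i with h3 | h3
    · exfalso
      rw [h3, pow_zero, orderOf_eq_one_iff] at hi
      apply hz
      apply Subtype.ext
      apply Subtype.ext
      exact hi
    · rw [hi]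
      exact dvd_pow_self p h3.ne'
  exact E.core (h1.trans (Subgroup.orderOf_dvd_natCard _ hzK))

/-- (2): a maximal subgroup which meets the class of `x` is the stabiliser of its labels. -/
theorem stab (E : UEnv p x H) (M : Subgroup G) (hM : IsCoatom M) (hne : ∃ h : G, h * x * h⁻¹ ∈ M)
    (g : G) (hg : ∀ Z, BT.cj g Z ∈ Lab x H M ↔ Z ∈ Lab x H M) : g ∈ M := by
  let S : Subgroup G :=
    { carrier := {g | ∀ Z, BT.cj g Z ∈ Lab x H M ↔ Z ∈ Lab x H M}
      mul_mem' := by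
        intro a b ha hb Z
        rw [BT.cj_mul, ha, hb]
      one_mem' := by
        intro Z
        rw [BT.cj_one]
      inv_mem' := by
        intro a ha Z
        rw [← ha (BT.cj a⁻¹ Z), BT.cj_cj_inv] }
  have hMS : M ≤ S := by
    intro m hm Z
    constructor
    · intro h
      have h1 := Lab_cj (n := m⁻¹) (BT.cj_eq_self (M.inv_mem hm)) h
      rwa [BT.cj_inv_cj] at h1
    · intro h
      exact Lab_cj (BT.cj_eq_self hm) h
  have hS : S ≠ ⊤ := by
    intro htop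
    obtain ⟨h, hh⟩ := hne
    obtain ⟨P, -, hP1, hP2, hP3⟩ := exists_sylow_in (p := p) ⊥ M bot_le (IsPGroup.of_bot)
    have h1 := E.lab_sylow M hM.1 P hP1 hP2 hP3
    apply E.lab_ne P hP2
    intro b
    rw [← h1]
    have h2 : (b * h⁻¹) ∈ S := by
      rw [htop]
      exact Subgroup.mem_top _
    have h3 := (h2 (BT.cj h H)).2 ⟨h, hh, rfl⟩
    rwa [← BT.cj_mul, inv_mul_cancel_right] at h3
  have h1 : S = M := by
    by_contra h2
    exact hS (hM.2 S (lt_of_le_of_ne hMS (fun h => h2 h.symm)))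
  rw [← h1]
  exact hg

/-- (3): a Sylow subgroup of a maximal subgroup which meets the class of `x` is a Sylow subgroup
of `G`. -/
theorem sylow_max (E : UEnv p x H) (M : Subgroup G) (hM : IsCoatom M)
    (hne : ∃ h : G, h * x * h⁻¹ ∈ M) (P : Subgroup G) (hPM : P ≤ M) (hP : IsPGroup p P)
    (hPi : ¬ p ∣ P.relIndex M) (Q : Subgroup G) (hQ : IsPGroup p Q) (hPQ : P ≤ Q) : Q = P := by
  by_contra hQP
  obtain ⟨n, hn1, hn2, hn3⟩ := grow P Q (lt_of_le_of_ne hPQ (fun h => hQP h.symm)) hQ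
  have h1 := E.lab_sylow M hM.1 P hPM hP hPi
  have hn3' : BT.cj n⁻¹ P = P := by
    rw [BT.cj_eq_iff, inv_inv]
    exact hn3.symm
  have hnM : n ∈ M := by
    apply E.stab M hM hne
    intro Z
    rw [h1]
    constructor
    · intro h
      have h2 := Lab_cj hn3' h
      rwa [BT.cj_inv_cj] at h2
    · intro h
      exact Lab_cj hn3 h
  have h2 : P ⊔ Subgroup.zpowers n ≤ Q := sup_le hPQ (by rw [Subgroup.zpowers_le]; exact hn1)
  have h3 : P ⊔ Subgroup.zpowers n ≤ M := sup_le hPM (by rw [Subgroup.zpowers_le]; exact hnM)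
  obtain ⟨a, -, ha⟩ := conj_into (p := p) M P _ hPM hP hPi h3 (hQ.to_le h2)
  have h4 : P = P ⊔ Subgroup.zpowers n := by
    apply Subgroup.eq_of_le_of_card_ge le_sup_left
    rw [← BT.card_cj a (P ⊔ Subgroup.zpowers n)]
    exact Subgroup.card_le_of_le ha
  apply hn2
  rw [h4]
  exact Subgroup.mem_sup_right (Subgroup.mem_zpowers n)

/-- (5): Theorem U, uniqueness. -/
theorem unique (E : UEnv p x H) : ∀ m : ℕ, ∀ U : Subgroup G, Nat.card G - Nat.card U = m →
    IsPGroup p U → (∃ h : G, h * x * h⁻¹ ∈ U) → ∀ M₁ M₂ : Subgroup G, IsCoatom M₁ → IsCoatom M₂ →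
    U ≤ M₁ → U ≤ M₂ → M₁ = M₂ := by
  intro m
  induction m using Nat.strong_induction_on with
  | _ m ih =>
    intro U hm hU hx M₁ M₂ hM₁ hM₂ hU₁ hU₂
    obtain ⟨P₁, hP₁U, hP₁M, hP₁, hP₁i⟩ := exists_sylow_in (p := p) U M₁ hU₁ hU
    obtain ⟨P₂, hP₂U, hP₂M, hP₂, hP₂i⟩ := exists_sylow_in (p := p) U M₂ hU₂ hU
    have hx₁ : ∃ h : G, h * x * h⁻¹ ∈ M₁ := by
      obtain ⟨h, hh⟩ := hx
      exact ⟨h, hU₁ hh⟩
    have hx₂ : ∃ h : G, h * x * h⁻¹ ∈ M₂ := by
      obtain ⟨h, hh⟩ := hx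
      exact ⟨h, hU₂ hh⟩
    have hs₁ := E.sylow_max M₁ hM₁ hx₁ P₁ hP₁M hP₁ hP₁i
    have hs₂ := E.sylow_max M₂ hM₂ hx₂ P₂ hP₂M hP₂ hP₂i
    by_cases hc : U = P₁ ∨ U = P₂
    · have h1 : P₁ = U ∧ P₂ = U := by
        rcases hc with h | h
        · subst h
          exact ⟨rfl, hs₁ P₂ hP₂ hP₂U⟩
        · subst h
          exact ⟨hs₂ P₁ hP₁ hP₁U, rfl⟩
      have h2 : Lab x H M₁ = Lab x H M₂ := by
        rw [E.lab_sylow M₁ hM₁.1 P₁ hP₁M hP₁ hP₁i, E.lab_sylow M₂ hM₂.1 P₂ hP₂M hP₂ hP₂i, h1.1,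
          h1.2]
      have h3 : M₂ ≤ M₁ := by
        intro g hg
        apply E.stab M₁ hM₁ hx₁
        intro Z
        rw [h2]
        constructor
        · intro h
          have h4 := Lab_cj (n := g⁻¹) (BT.cj_eq_self (M₂.inv_mem hg)) h
          rwa [BT.cj_inv_cj] at h4
        · intro h
          exact Lab_cj (BT.cj_eq_self hg) h
      by_contra hne
      exact hM₁.1 (hM₂.2 M₁ (lt_of_le_of_ne h3 (fun h => hne h.symm)))
    · push Not at hc
      obtain ⟨n₁, hn₁, hn₁U, hn₁c⟩ := grow U P₁ (lt_of_le_of_ne hP₁U hc.1) hP₁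
      obtain ⟨n₂, hn₂, hn₂U, hn₂c⟩ := grow U P₂ (lt_of_le_of_ne hP₂U hc.2) hP₂
      have hN : BT.S3_nz U ≠ ⊤ := by
        intro htop
        have hUn : U.Normal := by
          refine ⟨fun y hy g => ?_⟩
          have h1 : g ∈ BT.S3_nz U := by
            rw [htop]
            exact Subgroup.mem_top g
          have h2 : g * y * g⁻¹ ∈ BT.cj g U := BT.conj_mem_cj.2 hy
          rwa [BT.S3_mem_nz.1 h1] at h2
        have hUb := E.hOp U hUn hU
        obtain ⟨h, hh⟩ := hx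
        rw [hUb, Subgroup.mem_bot] at hh
        apply E.x_ne
        have h3 : x = h⁻¹ * (h * x * h⁻¹) * h := by group
        rw [h3, hh]
        group
      obtain ⟨M₃, hM₃, hNM₃⟩ := (eq_top_or_exists_le_coatom (BT.S3_nz U)).resolve_left hN
      have key : ∀ (P M : Subgroup G) (n : G), IsCoatom M → P ≤ M → IsPGroup p P → U ≤ P →
          n ∈ P → n ∉ U → BT.cj n U = U → M = M₃ := by
        intro P M n hM hPM hP hUP hnP hnU hnc
        have h1 : U ⊔ Subgroup.zpowers n ≤ P := sup_le hUP (by rw [Subgroup.zpowers_le]; exact hnP)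
        have h2 : U ⊔ Subgroup.zpowers n ≤ M₃ := by
          refine sup_le ?_ ?_
          · intro u hu
            exact hNM₃ (BT.S3_mem_nz.2 (BT.cj_eq_self hu))
          · rw [Subgroup.zpowers_le]
            exact hNM₃ (BT.S3_mem_nz.2 hnc)
        have h3 : Nat.card U < Nat.card (U ⊔ Subgroup.zpowers n : Subgroup G) := by
          refine lt_of_le_of_ne (Subgroup.card_le_of_le le_sup_left) ?_
          intro h4
          have h5 : U = U ⊔ Subgroup.zpowers n :=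
            Subgroup.eq_of_le_of_card_ge le_sup_left h4.ge
          apply hnU
          rw [h5]
          exact Subgroup.mem_sup_right (Subgroup.mem_zpowers n)
        have h4 : Nat.card (U ⊔ Subgroup.zpowers n : Subgroup G) ≤ Nat.card G :=
          Subgroup.card_le_card_group _
        refine ih (Nat.card G - Nat.card (U ⊔ Subgroup.zpowers n : Subgroup G)) (by omega)
          (U ⊔ Subgroup.zpowers n) rfl (hP.to_le h1) ?_ M M₃ hM hM₃ (h1.trans hPM) h2
        obtain ⟨h, hh⟩ := hx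
        exact ⟨h, Subgroup.mem_sup_left hh⟩
      rw [key P₁ M₁ n₁ hM₁ hP₁M hP₁ hP₁U hn₁ hn₁U hn₁c,
        key P₂ M₂ n₂ hM₂ hP₂M hP₂ hP₂U hn₂ hn₂U hn₂c]

end UEnv

/-- Theorem U. -/
theorem unique_coatom {p : ℕ} [hp : Fact p.Prime] [Finite G] (x : G)
    (hx : ∃ j : ℕ, x ^ p ^ j = 1) (hgen : Subgroup.normalClosure ({x} : Set G) = ⊤)
    (hOp : ∀ N : Subgroup G, N.Normal → IsPGroup p N → N = ⊥) (H : Subgroup G) (hH : IsCoatom H)
    (hC : ∀ c : G, c * x = x * c → c ∈ H)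
    (hsub : ∀ A : Subgroup G, A ≠ ⊤ → x ∈ A → A ≤ BT.clo x A → A ≤ H) (U : Subgroup G)
    (hU : IsPGroup p U) (hUx : ∃ h : G, h * x * h⁻¹ ∈ U) :
    ∃ M : Subgroup G, IsCoatom M ∧ U ≤ M ∧ ∀ K : Subgroup G, IsCoatom K → U ≤ K → K = M := by
  have E : UEnv p x H := ⟨hx, hgen, hOp, hH, hC, hsub⟩
  have hUt : U ≠ ⊤ := by
    rintro rfl
    have h1 : (⊤ : Subgroup G) = ⊥ := hOp ⊤ inferInstance hU
    apply E.x_ne
    have h2 : x ∈ (⊤ : Subgroup G) := Subgroup.mem_top x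
    rwa [h1, Subgroup.mem_bot] at h2
  obtain ⟨M, hM, hUM⟩ := (eq_top_or_exists_le_coatom U).resolve_left hUt
  exact ⟨M, hM, hUM, fun K hK hUK => E.unique _ U rfl hU hUx K M hK hM hUK hUM⟩

end Pool.Agent.MP_1c8e06_ag.AU
end

section

set_option autoImplicit false

open Polynomial
open scoped Classical

namespace Pool.Agent.MP_1c8e06_ag.AU

open Pool.Agent.MP_1c8e06_ag.AJ

noncomputable section

/-!
# Theorem U in a minimal counterexample
-/

/-- The situation: `M` is the only maximal subgroup which contains `x`, and the consequences. -/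
structure UMax (p : ℕ) {G : Type} [Group G] (x : G) (M : Subgroup G) : Prop where
  ord : orderOf x = p
  hgen : Subgroup.normalClosure ({x} : Set G) = ⊤
  hOp : ∀ N : Subgroup G, N.Normal → IsPGroup p N → N = ⊥
  coat : IsCoatom M
  mem : x ∈ M
  /-- `x` lies in exactly one maximal subgroup -/
  uniq : ∀ K : Subgroup G, IsCoatom K → x ∈ K → K = M
  /-- a proper subgroup containing `x` lies in `M` -/
  le : ∀ L : Subgroup G, L ≠ ⊤ → x ∈ L → L ≤ M
  /-- every `p`-subgroup which contains a conjugate of `x` lies in exactly one maximal subgroup -/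
  unique : ∀ U : Subgroup G, IsPGroup p U → (∃ h : G, h * x * h⁻¹ ∈ U) →
    ∃ K : Subgroup G, IsCoatom K ∧ U ≤ K ∧ ∀ K' : Subgroup G, IsCoatom K' → U ≤ K' → K' = K
  /-- normalisers of `p`-subgroups normalised by `x` -/
  nz : ∀ J : Subgroup G, IsPGroup p J → J ≠ ⊥ → BT.cj x J = J → BT.S3_nz J ≤ M
  /-- the conjugates of `x` in `M` are conjugate in `M` -/
  fus : ∀ h : G, h * x * h⁻¹ ∈ M → h ∈ M
  cent : ∀ c : G, c * x = x * c → c ∈ M
  /-- `M` contains a Sylow `p`-subgroup containing `x` -/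
  syl : ∃ S : Subgroup G, x ∈ S ∧ S ≤ M ∧ IsPGroup p S ∧ ¬ p ∣ S.index

theorem UEnv.umax {p : ℕ} [hp : Fact p.Prime] {G : Type} [Group G] [Finite G] {x : G}
    {H : Subgroup G} (E : UEnv p x H) (hx : orderOf x = p) (hxH : x ∈ H) : UMax p x H := by
  have hPx : IsPGroup p (Subgroup.zpowers x) := by
    have := E.pgroup_x 1
    rwa [one_mul, inv_one, mul_one] at this
  have huniq : ∀ K : Subgroup G, IsCoatom K → x ∈ K → K = H := by
    intro K hK hxK
    refine E.unique _ (Subgroup.zpowers x) rfl hPx ⟨1, ?_⟩ K H hK E.hH ?_ ?_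
    · rw [one_mul, inv_one, mul_one]
      exact Subgroup.mem_zpowers x
    · rw [Subgroup.zpowers_le]
      exact hxK
    · rw [Subgroup.zpowers_le]
      exact hxH
  have hle : ∀ L : Subgroup G, L ≠ ⊤ → x ∈ L → L ≤ H := by
    intro L hL hxL
    obtain ⟨K, hK, hLK⟩ := (eq_top_or_exists_le_coatom L).resolve_left hL
    rw [← huniq K hK (hLK hxL)]
    exact hLK
  have hnzH : BT.S3_nz H ≠ ⊤ := by
    intro htop
    have h1 : H.Normal := by
      refine ⟨fun y hy g => ?_⟩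
      have h2 : g ∈ BT.S3_nz H := by
        rw [htop]
        exact Subgroup.mem_top g
      rw [← BT.S3_mem_nz.1 h2]
      exact BT.conj_mem_cj.2 hy
    apply E.hH.1
    rw [eq_top_iff, ← E.hgen]
    apply Subgroup.normalClosure_le_normal
    intro y hy
    rw [Set.mem_singleton_iff] at hy
    rw [hy]
    exact hxH
  refine ⟨hx, E.hgen, E.hOp, E.hH, hxH, huniq, hle, ?_, ?_, ?_, E.hC, ?_⟩
  · intro U hU hUx
    exact unique_coatom x E.hx E.hgen E.hOp H E.hH E.hC E.hsub U hU hUx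
  · intro J hJ hJb hJx
    apply hle
    · intro htop
      apply hJb
      apply E.hOp J _ hJ
      refine ⟨fun y hy g => ?_⟩
      have h2 : g ∈ BT.S3_nz J := by
        rw [htop]
        exact Subgroup.mem_top g
      have h3 : g * y * g⁻¹ ∈ BT.cj g J := BT.conj_mem_cj.2 hy
      rwa [BT.S3_mem_nz.1 h2] at h3
    · exact BT.S3_mem_nz.2 hJx
  · intro h hh
    have h1 : BT.cj h⁻¹ H = H := by
      apply huniq _ (BT.isCoatom_cj E.hH)
      rw [BT.mem_cj, inv_inv]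
      exact hh
    have h2 : h⁻¹ ∈ BT.S3_nz H := BT.S3_mem_nz.2 h1
    have h3 : BT.S3_nz H ≤ H := by
      apply hle _ hnzH
      exact BT.S3_mem_nz.2 (BT.cj_eq_self hxH)
    have h4 := (BT.S3_nz H).inv_mem h2
    rw [inv_inv] at h4
    exact h3 h4
  · obtain ⟨S, hS1, hS2, hS3, hS4⟩ := exists_sylow_in (p := p) (Subgroup.zpowers x) H
      (by rw [Subgroup.zpowers_le]; exact hxH) hPx
    have hmax := E.sylow_max H E.hH ⟨1, by rw [one_mul, inv_one, mul_one]; exact hxH⟩ S hS2 hS3 hS4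
    refine ⟨S, hS1 (Subgroup.mem_zpowers x), hS2, hS3, ?_⟩
    obtain ⟨Q, hQ1, -, hQ2, hQ3⟩ := exists_sylow_in (p := p) S ⊤ le_top hS3
    have h1 := hmax Q hQ2 hQ1
    rw [h1, Subgroup.relIndex_top_right] at hQ3
    exact hQ3

/-- Theorem U in a minimal counterexample. -/
theorem min_umax {p : ℕ} [hp : Fact p.Prime] {k : Type} [Field k] [IsAlgClosed k] [CharP k p]
    (CC : Cls) {P G : Type} [Group P] [Fintype P] [Group G] [Fintype G] (u₀ : P)
    (hu : orderOf u₀ = p) (hgen₀ : ∀ u : P, ∃ n : ℕ, u = u₀ ^ n) (i : P →* G) (hG : CC.mem G)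
    (hind : Ind p k CC (Nat.card G)) (hP : IsPGroup p P) (hi : Function.Injective i)
    (hgen : Subgroup.normalClosure (i.range : Set G) = ⊤) (H₀ : Subgroup G) (h0 : RE p k i H₀)
    (hmax : ∀ H, RE p k i H → H ≤ H₀) (hne : H₀ ≠ ⊤)
    (hOp : ∀ N : Subgroup G, N.Normal → IsPGroup p N → N = ⊥) :
    ∃ M : Subgroup G, UMax p (i u₀) M ∧ H₀ ≤ M ∧ BT.S3_nz H₀ ≤ M := by
  have hrange : i.range = Subgroup.zpowers (i u₀) := by
    ext x
    rw [MonoidHom.mem_range, Subgroup.mem_zpowers_iff]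
    constructor
    · rintro ⟨u, rfl⟩
      obtain ⟨n, rfl⟩ := hgen₀ u
      exact ⟨n, by rw [map_pow, zpow_natCast]⟩
    · rintro ⟨n, rfl⟩
      exact ⟨u₀ ^ n, by rw [map_zpow]⟩
  have hord : orderOf (i u₀) = p := by rw [orderOf_injective i hi, hu]
  have hI : Subgroup.zpowers (i u₀) ≤ H₀ := by
    rw [← hrange]
    exact hmax _ (re_range hP i hi)
  have hxH₀ : i u₀ ∈ H₀ := hI (Subgroup.mem_zpowers _)
  have hgen' : Subgroup.normalClosure ({i u₀} : Set G) = ⊤ := by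
    rw [eq_top_iff, ← hgen]
    apply Subgroup.normalClosure_le_normal
    rw [hrange]
    intro y hy
    have h1 : Subgroup.zpowers (i u₀) ≤ Subgroup.normalClosure ({i u₀} : Set G) := by
      rw [Subgroup.zpowers_le]
      exact Subgroup.subset_normalClosure (Set.mem_singleton _)
    exact h1 hy
  have hN : BT.S3_nz H₀ ≠ ⊤ := by
    intro htop
    have h1 : H₀.Normal := by
      refine ⟨fun y hy g => ?_⟩
      have h2 : g ∈ BT.S3_nz H₀ := by
        rw [htop]
        exact Subgroup.mem_top g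
      rw [← BT.S3_mem_nz.1 h2]
      exact BT.conj_mem_cj.2 hy
    apply hne
    rw [eq_top_iff, ← hgen']
    apply Subgroup.normalClosure_le_normal
    intro y hy
    rw [Set.mem_singleton_iff] at hy
    rw [hy]
    exact hxH₀
  obtain ⟨M, hM, hNM⟩ := (eq_top_or_exists_le_coatom (BT.S3_nz H₀)).resolve_left hN
  have hH₀N : H₀ ≤ BT.S3_nz H₀ := fun y hy => BT.S3_mem_nz.2 (BT.cj_eq_self hy)
  have E : UEnv p (i u₀) M := by
    refine ⟨⟨1, ?_⟩, hgen', hOp, hM, ?_, ?_⟩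
    · rw [pow_one, ← hord]
      exact pow_orderOf_eq_one _
    · intro c hc
      apply hNM
      apply BT.S3_mem_nz.2
      apply AK.cent_H0 i hi H₀ h0 hmax c
      intro u
      obtain ⟨n, rfl⟩ := hgen₀ u
      rw [map_pow]
      exact Commute.pow_right (show Commute c (i u₀) from hc) n
    · intro A hA hxA hAc
      refine le_trans ?_ (hH₀N.trans hNM)
      refine AK.sub_H0 CC i hG hind hP hi H₀ hmax A hA ?_ ?_
      · rw [hrange, Subgroup.zpowers_le]
        exact hxA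
      · apply le_antisymm
        · rw [clS, Subgroup.closure_le]
          rintro _ ⟨b, hb, y, hy, rfl⟩
          rw [hrange] at hy
          have h1 : Subgroup.zpowers (i u₀) ≤ A := by
            rw [Subgroup.zpowers_le]
            exact hxA
          exact A.mul_mem (A.mul_mem hb (h1 hy)) (A.inv_mem hb)
        · refine hAc.trans ?_
          rw [BT.clo, Subgroup.closure_le]
          rintro _ ⟨a, ha, rfl⟩
          exact mem_clS ha ⟨u₀, rfl⟩
  exact ⟨M, E.umax hord (hNM (hH₀N hxH₀)), hH₀N.trans hNM, hNM⟩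

end

end Pool.Agent.MP_1c8e06_ag.AU
end
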