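import Pool.Agent.Lib.MP_1c8e06_ag.AU.FN
import Pool.Agent.Lib.MP_1c8e06_ag.Mg.G018
import Pool.Agent.Lib.MP_1c8e06_ag.Mg.G037

section

set_option autoImplicit false

open Polynomial
open scoped Classical

namespace Pool.Agent.MP_1c8e06_ag.AU

open Pool.Agent.MP_1c8e06_ag.AJ

noncomputable section

/-- Theorem AU. -/
theorem main_au {p : ℕ} [hp : Fact p.Prime] (k : Type) [Field k] [IsAlgClosed k] [CharP k p]
    {G : Type} [Group G] [Finite G]
    (hG : ∀ (L : Subgroup G) (A : Type) [Group A] (f : L →* A), Function.Surjective f → ¬ Bad p A)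
    (P : Subgroup G) (hP : IsPGroup p P) (hgen : Subgroup.normalClosure (P : Set G) = ⊤) :
    AI.Realised k G P :=
  main_au_of k (AK.base_L (p := p) (k := k)) hG P hP hgen

end

end Pool.Agent.MP_1c8e06_ag.AU
end

section

set_option autoImplicit false

open Polynomial
open scoped Classical

namespace Pool.Agent.MP_1c8e06_ag.RC

open Pool.Agent.MP_1c8e06_ag.AJ Pool.Agent.MP_1c8e06_ag.AU

noncomputable section

/-!
# The local-global theorem
-/

/-- The minimal situations: `x` has order `p`, its conjugates generate `X`, it lies in exactly one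
maximal subgroup, and modulo a normal subgroup `R` of order prime to `p`, which is contained in all
maximal subgroups, `X` is almost simple. -/
def Mi (p : ℕ) (X : Type) [Group X] (x : X) : Prop :=
  orderOf x = p ∧ Subgroup.normalClosure ({x} : Set X) = ⊤ ∧
    (∃! M : Subgroup X, IsCoatom M ∧ x ∈ M) ∧
    ∃ (R : Subgroup X) (_ : R.Normal) (T : Subgroup (X ⧸ R)), ¬ p ∣ Nat.card R ∧
      (∀ M : Subgroup X, IsCoatom M → R ≤ M) ∧ T.Normal ∧ IsSimpleGroup T ∧
      Subgroup.centralizer (T : Set (X ⧸ R)) = ⊥ ∧ p ∣ Nat.card T ∧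
      T ⊔ Subgroup.zpowers (QuotientGroup.mk x : X ⧸ R) = ⊤

/-- The class of groups whose minimal sections are realised. -/
def LG (p : ℕ) (k : Type) [Field k] : Cls where
  mem G _ := ∀ (L : Subgroup G) (X : Type) [Group X] (f : L →* X) (x : X),
    Function.Surjective f → Mi p X x → AI.Realised k X (Subgroup.zpowers x)
  sub G _ _ H h L X _ f x hf := by
    have e : L ≃* L.map H.subtype := L.equivMapOfInjective H.subtype H.subtype_injective
    exact h (L.map H.subtype) X (f.comp e.symm.toMonoidHom) x (hf.comp e.symm.surjective)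
  quot G _ _ N _ h L X _ f x hf := by
    refine h (L.comap (QuotientGroup.mk' N)) X
      (f.comp ((QuotientGroup.mk' N).subgroupComap L)) x (hf.comp ?_)
    rintro ⟨y, hy⟩
    obtain ⟨g, rfl⟩ := QuotientGroup.mk'_surjective N y
    exact ⟨⟨g, hy⟩, rfl⟩

theorem sup_zpowers {A : Type} [Group A] (T : Subgroup A) [hT : T.Normal] (y x : A)
    (h : T ⊔ Subgroup.zpowers y = ⊤) (hx : Subgroup.normalClosure ({x} : Set A) = ⊤) :
    T ⊔ Subgroup.zpowers x = ⊤ := by
  have hy : ∀ a : A, ∃ n : ℤ, (QuotientGroup.mk' T y) ^ n = QuotientGroup.mk' T a := by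
    intro a
    have h1 : QuotientGroup.mk' T a ∈ (⊤ : Subgroup A).map (QuotientGroup.mk' T) :=
      ⟨a, Subgroup.mem_top a, rfl⟩
    rw [← h, Subgroup.map_sup, QuotientGroup.map_mk'_self, bot_sup_eq, MonoidHom.map_zpowers] at h1
    exact h1
  have hcomm : ∀ a b : A ⧸ T, a * b = b * a := by
    intro a b
    obtain ⟨a, rfl⟩ := QuotientGroup.mk'_surjective T a
    obtain ⟨b, rfl⟩ := QuotientGroup.mk'_surjective T b
    obtain ⟨m, hm⟩ := hy a
    obtain ⟨n, hn⟩ := hy b
    rw [← hm, ← hn, ← zpow_add, ← zpow_add, add_comm]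
  have hn : ((Subgroup.zpowers (QuotientGroup.mk' T x)).comap (QuotientGroup.mk' T)).Normal := by
    constructor
    intro a ha g
    rw [Subgroup.mem_comap] at ha ⊢
    rw [map_mul, map_mul, hcomm (QuotientGroup.mk' T g), mul_assoc, ← map_mul, mul_inv_cancel,
      map_one, mul_one]
    exact ha
  have hle : Subgroup.normalClosure ({x} : Set A) ≤
      (Subgroup.zpowers (QuotientGroup.mk' T x)).comap (QuotientGroup.mk' T) := by
    apply Subgroup.normalClosure_le_normal
    rintro _ rfl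
    exact Subgroup.mem_zpowers _
  rw [hx] at hle
  rw [eq_top_iff]
  intro a _
  have h1 := hle (Subgroup.mem_top a)
  rw [Subgroup.mem_comap] at h1
  obtain ⟨n, hn'⟩ := h1
  have hn2 : QuotientGroup.mk' T (x ^ n) = QuotientGroup.mk' T a := by
    rw [map_zpow]
    exact hn'
  have h3 : a * (x ^ n)⁻¹ ∈ T := by
    rw [← QuotientGroup.ker_mk' T, MonoidHom.mem_ker, map_mul, map_inv, hn2, mul_inv_cancel]
  have h4 : a = (a * (x ^ n)⁻¹) * x ^ n := by group
  rw [h4]
  exact Subgroup.mul_mem_sup h3 (Subgroup.zpow_mem _ (Subgroup.mem_zpowers x) n)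

theorem base_LG {p : ℕ} [hp : Fact p.Prime] {k : Type} [Field k] [IsAlgClosed k] [CharP k p]
    (hL : AK.BaseL p k) : Base p k (LG p k) := by
  apply base_red hL (LG p k)
  intro P G _ _ _ _ i u₀ M R hRn hG _ hcard hu hgen hi E hR hRmax hRM hB
  apply RE_of_realised hcard i hi
  have hrange : i.range = Subgroup.zpowers (i u₀) := by
    ext g
    constructor
    · rintro ⟨u, rfl⟩
      obtain ⟨n, rfl⟩ := hgen u
      rw [map_pow]
      exact Subgroup.pow_mem _ (Subgroup.mem_zpowers _) n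
    · rintro ⟨n, rfl⟩
      exact ⟨u₀ ^ n, map_zpow i u₀ n⟩
  rw [hrange]
  obtain ⟨T, y, hTn, hTs, hTc, hpT, -, hTy, -⟩ := hB
  have hx' : Subgroup.normalClosure ({(QuotientGroup.mk (i u₀) : G ⧸ R)} : Set (G ⧸ R)) = ⊤ := by
    have h1 : (Subgroup.normalClosure ({i u₀} : Set G)).map (QuotientGroup.mk' R) ≤
        Subgroup.normalClosure ({(QuotientGroup.mk (i u₀) : G ⧸ R)} : Set (G ⧸ R)) := by
      rw [Subgroup.map_le_iff_le_comap]
      apply Subgroup.normalClosure_le_normal
      rintro _ rfl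
      exact Subgroup.subset_normalClosure (Set.mem_singleton _)
    rw [E.hgen, ← MonoidHom.range_eq_map, MonoidHom.range_eq_top.2
      (QuotientGroup.mk'_surjective R)] at h1
    exact eq_top_iff.2 h1
  refine hG ⊤ G (⊤ : Subgroup G).subtype (i u₀) (fun g => ⟨⟨g, Subgroup.mem_top g⟩, rfl⟩)
    ⟨E.ord, E.hgen, ⟨M, ⟨E.coat, E.mem⟩, fun K hK => E.uniq K hK.1 hK.2⟩, R, hRn, T, hR, hRM, hTn,
      hTs, hTc, hpT, sup_zpowers T y _ hTy hx'⟩

/-- The local-global theorem. -/
theorem main_lg {p : ℕ} [hp : Fact p.Prime] (k : Type) [Field k] [IsAlgClosed k] [CharP k p]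
    {G : Type} [Group G] [Finite G]
    (hG : ∀ (L : Subgroup G) (X : Type) [Group X] (f : L →* X) (x : X),
      Function.Surjective f → Mi p X x → AI.Realised k X (Subgroup.zpowers x))
    (P : Subgroup G) (hP : IsPGroup p P) (hgen : Subgroup.normalClosure (P : Set G) = ⊤) :
    AI.Realised k G P :=
  main_class k (LG p k) (base_LG (AK.base_L (p := p) (k := k))) hG P hP hgen

end

end Pool.Agent.MP_1c8e06_ag.RC
end
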