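import Pool.Agent.Lib.MP_1c8e06_ag.CYH.HDefs2
import Pool.Agent.Lib.MP_1c8e06_ag.CYH.HDefs
import Pool.Agent.Lib.MP_1c8e06_ag.Mg.G090

section

set_option autoImplicit false

open Polynomial LaurentPolynomial
open scoped Classical

namespace Pool.Agent.MP_1c8e06_ag.CYH

open Pool.Agent.MP_1c8e06_ag.AJ Pool.Agent.MP_1c8e06_ag.CY

noncomputable section

/-!
# Task H1: sums over `F_p` of polynomials in `Y + c`

`E` is a commutative ring with `p = 0`, `Y : E`, `s_n := ∑ c, (Y + zc E c) ^ n`.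
(1) `s_n = 0` for `n ≤ p - 2`, `s_(p-1) = -1`: binomial theorem, `∑ c : ZMod p, c ^ m = 0` for `m < p - 1` and `= -1` for
`m = p - 1` (`FiniteField.sum_pow_lt_card_sub_one`, `FiniteField.sum_pow_units`/`ZMod.pow_card_sub_one_eq_one`; the map
`zc` is additive and multiplicative: `zc_add`, `zc_mul` in `AJ/Defs5.lean`; `0 ^ 0 = 1`).
(2) `s_(n+p) = s_(n+1) + (Y ^ p - Y) s_n`, because `(Y + c) ^ p = (Y + c) + (Y ^ p - Y)` (`AJ.add_pow_p`, `zc_pow`).
`sum_dl`: `∑ dl (Y + c) = p - s_(p-1) = 1`.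
`sum_dl_dl`: put `Z = Y + c`.  `j = 0`: `(1 - Z^(p-1))^2 = 1 - 2 Z^(p-1) + Z^(2p-2)`, `s_(2p-2) = s_(p-1) + f s_(p-2) = -1`, total `1`.
`j ≠ 0`: `1 - Z^(p-1) - (Z+j)^(p-1) + Z^(p-1) (Z+j)^(p-1)`; the last term is `∑ i, choose (p-1) i * j^i * Z^(2p-2-i)`; its sum is
`s_(2p-2) + j^(p-1) s_(p-1) = -2` because `s_m = 0` for `p ≤ m ≤ 2p-3` by (2) and (1); `j ^ (p-1) = 1`.  Total `0 + 1 + 1 - 2 = 0`.
(`(Z+j)` runs through the same elements, so `∑ (Z+j)^(p-1) = -1`.)
`dl_zc`: `dl (zc j) = 1 - j^(p-1)` is `1` for `j = 0` and `0` for `j ≠ 0`.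
`exists_sum`: for `P = X ^ n` define `Q` by the recursion (2): `Q_n = 0` for `n ≤ p-2`, `Q_(p-1) = -1`,
`Q_(n+p) = Q_(n+1) + X * Q_n`; then linear combinations.
-/

section
variable {p : ℕ} [hp : Fact p.Prime] {E : Type} [CommRing E]

/-- `zc` as a ring homomorphism. -/
private def H1_zh (h0 : (p : E) = 0) : ZMod p →+* E where
  toFun := zc E
  map_one' := zc_one
  map_mul' := zc_mul h0
  map_zero' := zc_zero
  map_add' := zc_add h0

private theorem H1_zh_apply (h0 : (p : E) = 0) (c : ZMod p) : H1_zh h0 c = zc E c := rfl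

private theorem H1_sum_zero {n : ℕ} (hn : n < p - 1) : ∑ c : ZMod p, c ^ n = 0 := by
  apply FiniteField.sum_pow_lt_card_sub_one (ZMod p) n
  rw [ZMod.card]
  exact hn

private theorem H1_sum_last : ∑ c : ZMod p, c ^ (p - 1) = -1 := by
  have h2 := hp.out.two_le
  have h : ∀ c : ZMod p, c ^ (p - 1) = 1 - if c = 0 then 1 else 0 := by
    intro c
    split_ifs with hc
    · rw [hc, zero_pow (by omega), sub_self]
    · rw [ZMod.pow_card_sub_one_eq_one hc, sub_zero]
  rw [Finset.sum_congr rfl fun c _ => h c, Finset.sum_sub_distrib]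
  simp

private theorem H1_low (h0 : (p : E) = 0) (Y : E) {n : ℕ} (hn : n < p - 1) :
    ∑ c : ZMod p, (Y + zc E c) ^ n = 0 := by
  simp only [add_pow, ← H1_zh_apply h0]
  rw [Finset.sum_comm]
  refine Finset.sum_eq_zero fun m hm => ?_
  have h : ∑ c : ZMod p, Y ^ m * H1_zh h0 c ^ (n - m) * (n.choose m : E) =
      Y ^ m * H1_zh h0 (∑ c : ZMod p, c ^ (n - m)) * (n.choose m : E) := by
    rw [map_sum, Finset.mul_sum, Finset.sum_mul]
    simp only [map_pow]
  rw [h, H1_sum_zero (by omega), map_zero]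
  ring

private theorem H1_last (h0 : (p : E) = 0) (Y : E) :
    ∑ c : ZMod p, (Y + zc E c) ^ (p - 1) = -1 := by
  have h2 := hp.out.two_le
  simp only [add_pow, ← H1_zh_apply h0]
  rw [Finset.sum_comm]
  have h : ∀ m, ∑ c : ZMod p, Y ^ m * H1_zh h0 c ^ (p - 1 - m) * ((p - 1).choose m : E) =
      Y ^ m * H1_zh h0 (∑ c : ZMod p, c ^ (p - 1 - m)) * ((p - 1).choose m : E) := by
    intro m
    rw [map_sum, Finset.mul_sum, Finset.sum_mul]
    simp only [map_pow]
  simp only [h]
  rw [Finset.sum_range_succ', Nat.sub_zero, H1_sum_last, Finset.sum_eq_zero]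
  · simp
  · intro m hm
    rw [Finset.mem_range] at hm
    rw [H1_sum_zero (by omega), map_zero]
    ring

private theorem H1_pow (h0 : (p : E) = 0) (Y : E) (c : ZMod p) :
    (Y + zc E c) ^ p = (Y + zc E c) + (Y ^ p - Y) := by
  rw [add_pow_p h0, zc_pow h0]
  ring

private theorem H1_rec (h0 : (p : E) = 0) (Y : E) (n : ℕ) :
    ∑ c : ZMod p, (Y + zc E c) ^ (n + p) =
      ∑ c : ZMod p, (Y + zc E c) ^ (n + 1) + (Y ^ p - Y) * ∑ c : ZMod p, (Y + zc E c) ^ n := by
  rw [Finset.mul_sum, ← Finset.sum_add_distrib]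
  refine Finset.sum_congr rfl fun c _ => ?_
  rw [pow_add, H1_pow h0]
  ring

private theorem H1_mul_dl (h0 : (p : E) = 0) (Y : E) (c : ZMod p) :
    (Y + zc E c) * dl p (Y + zc E c) = -(Y ^ p - Y) := by
  have h2 := hp.out.two_le
  have h : (Y + zc E c) * (Y + zc E c) ^ (p - 1) = (Y + zc E c) ^ p := by
    rw [← pow_succ', Nat.sub_add_cancel (by omega)]
  rw [dl, mul_sub, mul_one, h, H1_pow h0]
  ring

end

theorem sum_dl {p : ℕ} [hp : Fact p.Prime] {E : Type} [CommRing E] (h0 : (p : E) = 0) (Y : E) :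
    ∑ c : ZMod p, dl p (Y + zc E c) = 1 := by
  simp only [dl]
  rw [Finset.sum_sub_distrib, H1_last h0]
  simp [h0]

theorem sum_dl_dl {p : ℕ} [hp : Fact p.Prime] {E : Type} [CommRing E] (h0 : (p : E) = 0) (Y : E)
    (j : ZMod p) :
    ∑ c : ZMod p, dl p (Y + zc E c) * dl p (Y + zc E (c + j)) = if j = 0 then 1 else 0 := by
  have h2 := hp.out.two_le
  split_ifs with hj
  · subst hj
    have h : ∀ c : ZMod p, dl p (Y + zc E c) * dl p (Y + zc E (c + 0)) =
        dl p (Y + zc E c) + (Y ^ p - Y) * (Y + zc E c) ^ (p - 2) := by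
      intro c
      rw [add_zero]
      have h3 : (Y + zc E c) ^ (p - 2) * dl p (Y + zc E c) * (Y + zc E c) =
          (Y + zc E c) ^ (p - 2) * -(Y ^ p - Y) := by
        rw [mul_assoc, mul_comm (dl p _), H1_mul_dl h0]
      have h4 : (Y + zc E c) ^ (p - 1) = (Y + zc E c) ^ (p - 2) * (Y + zc E c) := by
        rw [← pow_succ]
        congr 1
        omega
      have h5 : dl p (Y + zc E c) = 1 - (Y + zc E c) ^ (p - 1) := rfl
      calc dl p (Y + zc E c) * dl p (Y + zc E c)
          = (1 - (Y + zc E c) ^ (p - 1)) * dl p (Y + zc E c) := by rw [← h5]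
        _ = dl p (Y + zc E c) - (Y + zc E c) ^ (p - 2) * dl p (Y + zc E c) * (Y + zc E c) := by
          rw [h4]; ring
        _ = _ := by rw [h3]; ring
    rw [Finset.sum_congr rfl fun c _ => h c, Finset.sum_add_distrib, sum_dl h0,
      ← Finset.mul_sum, H1_low h0 Y (by omega)]
    ring
  · have h : ∀ c : ZMod p, zc E j * (dl p (Y + zc E c) * dl p (Y + zc E (c + j))) =
        -(Y ^ p - Y) * dl p (Y + zc E c) + (Y ^ p - Y) * dl p (Y + zc E (c + j)) := by
      intro c
      have h3 := H1_mul_dl h0 Y c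
      have h4 := H1_mul_dl h0 Y (c + j)
      have h5 : zc E j = (Y + zc E (c + j)) - (Y + zc E c) := by
        rw [zc_add h0]
        ring
      calc zc E j * (dl p (Y + zc E c) * dl p (Y + zc E (c + j)))
          = ((Y + zc E (c + j)) * dl p (Y + zc E (c + j))) * dl p (Y + zc E c) -
            ((Y + zc E c) * dl p (Y + zc E c)) * dl p (Y + zc E (c + j)) := by
              rw [h5]; ring
        _ = _ := by rw [h3, h4]; ring
    have h6 : ∑ c : ZMod p, dl p (Y + zc E (c + j)) = 1 := by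
      rw [← sum_dl h0 Y]
      exact Fintype.sum_equiv (Equiv.addRight j) _ _ fun c => rfl
    have h7 : zc E j * ∑ c : ZMod p, dl p (Y + zc E c) * dl p (Y + zc E (c + j)) = 0 := by
      rw [Finset.mul_sum, Finset.sum_congr rfl fun c _ => h c, Finset.sum_add_distrib,
        ← Finset.mul_sum, ← Finset.mul_sum, sum_dl h0, h6]
      ring
    have h8 : zc E j⁻¹ * zc E j = 1 := by
      rw [← zc_mul h0, inv_mul_cancel₀ hj, zc_one]
    rw [← one_mul (∑ c : ZMod p, _), ← h8, mul_assoc, h7, mul_zero]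

theorem dl_zc {p : ℕ} [hp : Fact p.Prime] {E : Type} [CommRing E] (h0 : (p : E) = 0)
    (j : ZMod p) : dl p (zc E j) = if j = 0 then 1 else 0 := by
  have h2 := hp.out.two_le
  rw [dl, ← H1_zh_apply h0, ← map_pow]
  split_ifs with hj
  · rw [hj, zero_pow (by omega), map_zero, sub_zero]
  · rw [ZMod.pow_card_sub_one_eq_one hj, map_one, sub_self]

/-- The power sums are polynomials in `Y ^ p - Y`. -/
private theorem H1_pw (p : ℕ) [hp : Fact p.Prime] (n : ℕ) :
    ∃ Q : ℤ[X], ∀ (E : Type) [CommRing E], (p : E) = 0 → ∀ Y : E,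
      ∑ c : ZMod p, (Y + zc E c) ^ n = Polynomial.eval₂ (Int.castRingHom E) (Y ^ p - Y) Q := by
  have h2 := hp.out.two_le
  induction n using Nat.strong_induction_on with
  | _ n ih =>
    rcases lt_trichotomy n (p - 1) with hn | hn | hn
    · refine ⟨0, fun E _ h0 Y => ?_⟩
      rw [H1_low h0 Y hn, Polynomial.eval₂_zero]
    · refine ⟨-1, fun E _ h0 Y => ?_⟩
      rw [hn, H1_last h0 Y, Polynomial.eval₂_neg, Polynomial.eval₂_one]
    · obtain ⟨m, rfl⟩ : ∃ m, n = m + p := ⟨n - p, by omega⟩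
      obtain ⟨Q₁, hQ₁⟩ := ih (m + 1) (by omega)
      obtain ⟨Q₀, hQ₀⟩ := ih m (by omega)
      refine ⟨Q₁ + X * Q₀, fun E _ h0 Y => ?_⟩
      rw [H1_rec h0, hQ₁ E h0 Y, hQ₀ E h0 Y, Polynomial.eval₂_add, Polynomial.eval₂_mul,
        Polynomial.eval₂_X]

/-- The sum over `F_p` of the translates of a polynomial is a polynomial in `Y ^ p - Y`. -/
theorem exists_sum (p : ℕ) [hp : Fact p.Prime] (P : ℤ[X]) :
    ∃ Q : ℤ[X], ∀ (E : Type) [CommRing E], (p : E) = 0 → ∀ Y : E,
      ∑ c : ZMod p, Polynomial.eval₂ (Int.castRingHom E) (Y + zc E c) P =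
        Polynomial.eval₂ (Int.castRingHom E) (Y ^ p - Y) Q := by
  induction P using Polynomial.induction_on' with
  | add f g hf hg =>
    obtain ⟨Q₁, hQ₁⟩ := hf
    obtain ⟨Q₂, hQ₂⟩ := hg
    refine ⟨Q₁ + Q₂, fun E _ h0 Y => ?_⟩
    simp only [Polynomial.eval₂_add]
    rw [Finset.sum_add_distrib, hQ₁ E h0 Y, hQ₂ E h0 Y]
  | monomial n a =>
    obtain ⟨Q, hQ⟩ := H1_pw p n
    refine ⟨Polynomial.C a * Q, fun E _ h0 Y => ?_⟩
    simp only [Polynomial.eval₂_monomial]
    rw [← Finset.mul_sum, hQ E h0 Y, Polynomial.eval₂_mul, Polynomial.eval₂_C]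

end

end Pool.Agent.MP_1c8e06_ag.CYH
end

section

set_option autoImplicit false

open Polynomial LaurentPolynomial
open scoped Classical

namespace Pool.Agent.MP_1c8e06_ag.CYH

open Pool.Agent.MP_1c8e06_ag.AJ Pool.Agent.MP_1c8e06_ag.CY

noncomputable section

/-!
# Task H2: the basis functions `bb`

`x : G` has order `p`.  `z = x ^ j.val` for at most one `j : ZMod p` (`pow_eq_pow_iff_modEq`, `orderOf x = p`), so
`Dx p x w (x ^ j.val) = dl p (w + zc j)` and `Dx = 0` outside `⟨x⟩`.
`bb_map`: immediate from the definitions (`map_zc`).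
`bb_x`: `x ^ j.val * x = x ^ (j+1).val`.  `bb_right`: `g * h * l⁻¹ = g * (l * h⁻¹)⁻¹`.
`bb_sum`: reindex by `z = g * l⁻¹`, the sum over `z ∈ ⟨x⟩`, i.e. over `ZMod p` (`j ↦ x ^ j.val` is injective): `sum_dl`.
`bb_dual`: `∑ l, Dx (g l⁻¹) Dx (g' l⁻¹)`: with `z = g l⁻¹`, `g' l⁻¹ = (g' g⁻¹) z`: zero unless `g' g⁻¹ = x ^ j.val` for some `j`, then
`sum_dl_dl`; `j = 0` iff `g = g'`.
`bb_orth`: the same with `∑ g`: `z = g l⁻¹`, `g j⁻¹ = z (l j⁻¹)`; for `z ∈ ⟨x⟩` nonzero only if `l j⁻¹ ∈ ⟨x⟩`; `⟨x⟩` is commutative.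
`bb_zero`: `dl_zc` and `Dx p x 0 1 = 1`.
`exists_mu`: `μ j l m := Q` from `exists_sum` applied to polynomials: `∑ g, bb j g * bb l g * bb m g` is the sum over the cosets
`⟨x⟩ \ G` (only the coset which contains `j`, `l`, `m` contributes; if they are not in one coset it is `0`) of
`∑ c : ZMod p, dl (w + c + a) dl (w + c + b) dl (w + c + e)` with constants `a b e : ZMod p`, a polynomial with integer coefficients in
`w + c` (`zc E a` is an integer).  Then `bb j g * bb l g = ∑ m, (∑ g', bb j g' * bb l g' * bb m g') * bb m g` by `bb_dual`.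
-/

section
variable {p : ℕ} [hp : Fact p.Prime] {G : Type} [Group G] [Fintype G] {x : G}

private theorem H2_pw_add (hx : orderOf x = p) (i j : ZMod p) :
    x ^ (i + j).val = x ^ i.val * x ^ j.val := by
  rw [ZMod.val_add, ← pow_add, ← pow_mod_orderOf x (i.val + j.val), hx]

private theorem H2_pw_inj (hx : orderOf x = p) : Function.Injective fun j : ZMod p => x ^ j.val := by
  intro i j h
  have h1 : i.val ≡ j.val [MOD orderOf x] := pow_eq_pow_iff_modEq.mp h
  rw [hx] at h1
  have h2 : i.val = j.val := Nat.ModEq.eq_of_lt_of_lt h1 (ZMod.val_lt i) (ZMod.val_lt j)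
  exact ZMod.val_injective p h2

private theorem H2_ex (hx : orderOf x = p) (j : ZMod p) : ex p x (x ^ j.val) = j := by
  have h : ∃ i : ZMod p, x ^ i.val = x ^ j.val := ⟨j, rfl⟩
  rw [ex, dif_pos h]
  exact H2_pw_inj hx h.choose_spec

private theorem H2_Dx_pw (hx : orderOf x = p) {E : Type} [CommRing E] (w : E) (j : ZMod p) :
    Dx p x w (x ^ j.val) = dl p (w + zc E j) := by
  rw [Dx, if_pos ⟨j, rfl⟩, H2_ex hx]

private theorem H2_Dx_out {E : Type} [CommRing E] (w : E) {z : G}
    (hz : ¬ ∃ j : ZMod p, x ^ j.val = z) : Dx p x w z = 0 := by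
  rw [Dx, if_neg hz]

private theorem H2_Dx_mul (hx : orderOf x = p) {E : Type} [CommRing E] (h0 : (p : E) = 0) (w : E)
    (i : ZMod p) (z : G) : Dx p x w (x ^ i.val * z) = Dx p x (w + zc E i) z := by
  by_cases hz : ∃ j : ZMod p, x ^ j.val = z
  · obtain ⟨j, rfl⟩ := hz
    rw [← H2_pw_add hx, H2_Dx_pw hx, H2_Dx_pw hx, zc_add h0, add_assoc]
  · rw [H2_Dx_out _ hz, H2_Dx_out]
    rintro ⟨k, hk⟩
    apply hz
    refine ⟨-i + k, ?_⟩
    rw [H2_pw_add hx, hk, ← mul_assoc, ← H2_pw_add hx, neg_add_cancel, ZMod.val_zero, pow_zero,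
      one_mul]

private theorem H2_Dx_mul' (hx : orderOf x = p) {E : Type} [CommRing E] (h0 : (p : E) = 0) (w : E)
    (i : ZMod p) (z : G) : Dx p x w (z * x ^ i.val) = Dx p x (w + zc E i) z := by
  by_cases hz : ∃ j : ZMod p, x ^ j.val = z
  · obtain ⟨j, rfl⟩ := hz
    rw [← H2_pw_add hx, H2_Dx_pw hx, H2_Dx_pw hx, zc_add h0, add_assoc, add_comm (zc E i)]
  · rw [H2_Dx_out _ hz, H2_Dx_out]
    rintro ⟨k, hk⟩
    apply hz
    refine ⟨k + -i, ?_⟩
    rw [H2_pw_add hx, hk, mul_assoc, ← H2_pw_add hx, add_neg_cancel, ZMod.val_zero, pow_zero,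
      mul_one]

private theorem H2_sum (hx : orderOf x = p) {E : Type} [CommRing E] (F : G → E)
    (hF : ∀ z, (¬ ∃ j : ZMod p, x ^ j.val = z) → F z = 0) :
    ∑ z, F z = ∑ j : ZMod p, F (x ^ j.val) :=
  (Fintype.sum_of_injective (fun j : ZMod p => x ^ j.val) (H2_pw_inj hx) _ _
    (fun z hz => hF z hz) (fun _ => rfl)).symm

private theorem H2_one_iff (hx : orderOf x = p) (j : ZMod p) : x ^ j.val = 1 ↔ j = 0 := by
  constructor
  · intro h
    apply H2_pw_inj hx
    change x ^ j.val = x ^ (0 : ZMod p).val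
    rw [h, ZMod.val_zero, pow_zero]
  · rintro rfl
    rw [ZMod.val_zero, pow_zero]

private theorem H2_A (hx : orderOf x = p) {E : Type} [CommRing E] (h0 : (p : E) = 0) (w : E)
    (u : G) : ∑ z, Dx p x w z * Dx p x w (u * z) = if u = 1 then 1 else 0 := by
  rw [H2_sum hx (fun z => Dx p x w z * Dx p x w (u * z)) (fun z hz => by
    simp only [H2_Dx_out w hz, zero_mul])]
  by_cases hu : ∃ j : ZMod p, x ^ j.val = u
  · obtain ⟨j, rfl⟩ := hu
    simp only [H2_Dx_mul hx h0, H2_Dx_pw hx, H2_one_iff hx]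
    rw [← sum_dl_dl h0 w j]
    refine Finset.sum_congr rfl fun c _ => ?_
    rw [zc_add h0, add_assoc, add_comm (zc E j)]
  · rw [if_neg (fun h => hu ⟨0, by rw [h, ZMod.val_zero, pow_zero]⟩)]
    refine Finset.sum_eq_zero fun c _ => ?_
    rw [H2_Dx_mul' hx h0, H2_Dx_out _ hu, mul_zero]

private theorem H2_A' (hx : orderOf x = p) {E : Type} [CommRing E] (h0 : (p : E) = 0) (w : E)
    (u : G) : ∑ z, Dx p x w z * Dx p x w (z * u) = if u = 1 then 1 else 0 := by
  rw [H2_sum hx (fun z => Dx p x w z * Dx p x w (z * u)) (fun z hz => by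
    simp only [H2_Dx_out w hz, zero_mul])]
  by_cases hu : ∃ j : ZMod p, x ^ j.val = u
  · obtain ⟨j, rfl⟩ := hu
    simp only [H2_Dx_mul' hx h0, H2_Dx_pw hx, H2_one_iff hx]
    rw [← sum_dl_dl h0 w j]
    refine Finset.sum_congr rfl fun c _ => ?_
    rw [zc_add h0, add_assoc, add_comm (zc E j)]
  · rw [if_neg (fun h => hu ⟨0, by rw [h, ZMod.val_zero, pow_zero]⟩)]
    refine Finset.sum_eq_zero fun c _ => ?_
    rw [H2_Dx_mul hx h0, H2_Dx_out _ hu, mul_zero]

theorem bb_map {E E' : Type} [CommRing E] [CommRing E'] (φ : E →+* E') (w : E) (l g : G) :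
    φ (bb p x w l g) = bb p x (φ w) l g := by
  rw [bb, bb, Dx, Dx]
  split_ifs
  · rw [dl, dl, map_sub, map_one, map_pow, map_add, map_zc]
  · rw [map_zero]

theorem bb_x (hx : orderOf x = p) {E : Type} [CommRing E] (h0 : (p : E) = 0) (w : E) (l g : G) :
    bb p x w l (x * g) = bb p x (w + 1) l g := by
  have h := H2_Dx_mul hx h0 w 1 (g * l⁻¹)
  rw [ZMod.val_one, pow_one, zc_one] at h
  rw [bb, bb, mul_assoc, h]

theorem bb_right {E : Type} [CommRing E] (w : E) (l g h : G) :
    bb p x w l (g * h) = bb p x w (l * h⁻¹) g := by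
  rw [bb, bb, mul_inv_rev, inv_inv, mul_assoc]

theorem bb_sum (hx : orderOf x = p) {E : Type} [CommRing E] (h0 : (p : E) = 0) (w : E) (g : G) :
    ∑ l, bb p x w l g = 1 := by
  have h1 : ∑ l, bb p x w l g = ∑ z, Dx p x w z :=
    Fintype.sum_equiv ((Equiv.inv G).trans (Equiv.mulLeft g)) _ _ fun l => rfl
  rw [h1, H2_sum hx (fun z => Dx p x w z) (fun z hz => H2_Dx_out w hz), ← sum_dl h0 w]
  refine Finset.sum_congr rfl fun c _ => ?_
  rw [H2_Dx_pw hx]

theorem bb_dual (hx : orderOf x = p) {E : Type} [CommRing E] (h0 : (p : E) = 0) (w : E)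
    (g g' : G) : ∑ l, bb p x w l g * bb p x w l g' = if g = g' then 1 else 0 := by
  have h1 : ∑ l, bb p x w l g * bb p x w l g' =
      ∑ z, Dx p x w z * Dx p x w ((g' * g⁻¹) * z) := by
    refine Fintype.sum_equiv ((Equiv.inv G).trans (Equiv.mulLeft g)) _ _ fun l => ?_
    change Dx p x w (g * l⁻¹) * Dx p x w (g' * l⁻¹) =
      Dx p x w (g * l⁻¹) * Dx p x w (g' * g⁻¹ * (g * l⁻¹))
    congr 2
    group
  rw [h1, H2_A hx h0]
  congr 1
  rw [mul_inv_eq_one]
  exact propext eq_comm

theorem bb_orth (hx : orderOf x = p) {E : Type} [CommRing E] (h0 : (p : E) = 0) (w : E)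
    (j l : G) : ∑ g, bb p x w j g * bb p x w l g = if j = l then 1 else 0 := by
  have h1 : ∑ g, bb p x w j g * bb p x w l g =
      ∑ z, Dx p x w z * Dx p x w (z * (j * l⁻¹)) := by
    refine Fintype.sum_equiv (Equiv.mulRight j⁻¹) _ _ fun g => ?_
    change Dx p x w (g * j⁻¹) * Dx p x w (g * l⁻¹) =
      Dx p x w (g * j⁻¹) * Dx p x w (g * j⁻¹ * (j * l⁻¹))
    congr 2
    group
  rw [h1, H2_A' hx h0]
  congr 1
  rw [mul_inv_eq_one]

theorem bb_zero (hx : orderOf x = p) {E : Type} [CommRing E] (h0 : (p : E) = 0) (l g : G) :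
    bb p x (0 : E) l g = if l = g then 1 else 0 := by
  rw [bb]
  by_cases hu : ∃ j : ZMod p, x ^ j.val = g * l⁻¹
  · obtain ⟨j, hj⟩ := hu
    have hiff : j = 0 ↔ l = g := by
      rw [← H2_one_iff hx, hj, mul_inv_eq_one]
      exact eq_comm
    rw [← hj, H2_Dx_pw hx, zero_add, dl_zc h0]
    by_cases hlg : l = g
    · rw [if_pos (hiff.mpr hlg), if_pos hlg]
    · rw [if_neg (fun h => hlg (hiff.mp h)), if_neg hlg]
  · rw [H2_Dx_out _ hu, if_neg]
    rintro rfl
    exact hu ⟨0, by rw [ZMod.val_zero, pow_zero, mul_inv_cancel]⟩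

/-- The polynomial `d(X + n)` over the integers. -/
private def H2_P (p n : ℕ) : ℤ[X] := 1 - (X + (n : ℤ[X])) ^ (p - 1)

private theorem H2_P_eval {E : Type} [CommRing E] (n : ZMod p) (Y : E) :
    Polynomial.eval₂ (Int.castRingHom E) Y (H2_P p n.val) = dl p (Y + zc E n) := by
  rw [H2_P, dl, Polynomial.eval₂_sub, Polynomial.eval₂_one, Polynomial.eval₂_pow,
    Polynomial.eval₂_add, Polynomial.eval₂_X, Polynomial.eval₂_natCast]
  rfl

private theorem H2_triple (hx : orderOf x = p) (j l m : G) :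
    ∃ Q : ℤ[X], ∀ (E : Type) [CommRing E], (p : E) = 0 → ∀ w : E,
      ∑ g, bb p x w j g * bb p x w l g * bb p x w m g =
        Polynomial.eval₂ (Int.castRingHom E) (w ^ p - w) Q := by
  have key : ∀ (E : Type) [CommRing E] (w : E),
      ∑ g, bb p x w j g * bb p x w l g * bb p x w m g =
        ∑ c : ZMod p, Dx p x w (x ^ c.val) * Dx p x w (x ^ c.val * (j * l⁻¹)) *
          Dx p x w (x ^ c.val * (j * m⁻¹)) := by
    intro E _ w
    rw [← H2_sum hx (fun z => Dx p x w z * Dx p x w (z * (j * l⁻¹)) *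
      Dx p x w (z * (j * m⁻¹))) (fun z hz => by simp only [H2_Dx_out w hz, zero_mul])]
    refine Fintype.sum_equiv (Equiv.mulRight j⁻¹) _ _ fun g => ?_
    change Dx p x w (g * j⁻¹) * Dx p x w (g * l⁻¹) * Dx p x w (g * m⁻¹) =
      Dx p x w (g * j⁻¹) * Dx p x w (g * j⁻¹ * (j * l⁻¹)) * Dx p x w (g * j⁻¹ * (j * m⁻¹))
    have e1 : g * j⁻¹ * (j * l⁻¹) = g * l⁻¹ := by group
    have e2 : g * j⁻¹ * (j * m⁻¹) = g * m⁻¹ := by group
    rw [e1, e2]
  by_cases hl : ∃ a : ZMod p, x ^ a.val = j * l⁻¹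
  · by_cases hm : ∃ b : ZMod p, x ^ b.val = j * m⁻¹
    · obtain ⟨a, ha⟩ := hl
      obtain ⟨b, hb⟩ := hm
      obtain ⟨Q, hQ⟩ := exists_sum p (H2_P p (0 : ZMod p).val * H2_P p a.val * H2_P p b.val)
      refine ⟨Q, fun E _ h0 w => ?_⟩
      rw [key E w, ← hQ E h0 w]
      refine Finset.sum_congr rfl fun c _ => ?_
      rw [Polynomial.eval₂_mul, Polynomial.eval₂_mul, H2_P_eval, H2_P_eval, H2_P_eval, ← ha, ← hb,
        ← H2_pw_add hx, ← H2_pw_add hx, H2_Dx_pw hx, H2_Dx_pw hx, H2_Dx_pw hx, zc_zero, add_zero,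
        zc_add h0, zc_add h0, add_assoc, add_assoc]
    · refine ⟨0, fun E _ h0 w => ?_⟩
      rw [key E w, Polynomial.eval₂_zero]
      refine Finset.sum_eq_zero fun c _ => ?_
      rw [H2_Dx_mul hx h0 w c (j * m⁻¹), H2_Dx_out _ hm, mul_zero]
  · refine ⟨0, fun E _ h0 w => ?_⟩
    rw [key E w, Polynomial.eval₂_zero]
    refine Finset.sum_eq_zero fun c _ => ?_
    rw [H2_Dx_mul hx h0 w c (j * l⁻¹), H2_Dx_out _ hl, mul_zero, zero_mul]

end

/-- The structure constants are integer polynomials in `w ^ p - w`. -/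
theorem exists_mu (p : ℕ) [hp : Fact p.Prime] {G : Type} [Group G] [Fintype G] (x : G)
    (hx : orderOf x = p) :
    ∃ μ : G → G → G → ℤ[X], ∀ (E : Type) [CommRing E], (p : E) = 0 → ∀ (w : E) (j l g : G),
      bb p x w j g * bb p x w l g =
        ∑ m, Polynomial.eval₂ (Int.castRingHom E) (w ^ p - w) (μ j l m) * bb p x w m g := by
  refine ⟨fun j l m => (H2_triple hx j l m).choose, fun E _ h0 w j l g => ?_⟩
  have h1 : ∀ m, Polynomial.eval₂ (Int.castRingHom E) (w ^ p - w) (H2_triple hx j l m).choose *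
      bb p x w m g = ∑ g', bb p x w j g' * bb p x w l g' * (bb p x w m g' * bb p x w m g) := by
    intro m
    rw [← (H2_triple hx j l m).choose_spec E h0 w, Finset.sum_mul]
    refine Finset.sum_congr rfl fun g' _ => ?_
    ring
  rw [Finset.sum_congr rfl fun m _ => h1 m, Finset.sum_comm]
  simp only [← Finset.mul_sum, bb_dual hx h0]
  simp

/-- The structure constants of the induced Artin-Schreier algebra `w ^ p - w = f`. -/
def kx (p : ℕ) [hp : Fact p.Prime] {G : Type} [Group G] [Fintype G] (x : G) (hx : orderOf x = p)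
    {B : Type} [CommRing B] (f : B) : Ks B G where
  μ j l m := Polynomial.eval₂ (Int.castRingHom B) f ((exists_mu p x hx).choose j l m)
  α h l m := if m = l * h⁻¹ then 1 else 0
  ν _ := 1
  T j l := if j = l then 1 else 0
  T' j l := if j = l then 1 else 0

/-- The datum of the induced Artin-Schreier algebra. -/
theorem exists_GDx {p : ℕ} [hp : Fact p.Prime] {G : Type} [Group G] [Fintype G] (x : G)
    (hx : orderOf x = p) {B A : Type} [CommRing B] [CommRing A] (h0 : (p : A) = 0) (ze : B →+* A)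
    (f : B) (w : A) (hw : w ^ p - w = ze f) :
    ∃ D : GD (1 : Unit →* G) ze (1 : Unit →* (A →+* A)), D.k = kx p x hx f ∧
      ∀ l g, D.b l g = bb p x w l g := by
  refine ⟨{ b := fun l g => bb p x w l g
            k := kx p x hx f
            hP := fun u l g => ?_
            hmul := fun j l g => ?_
            hact := fun h l g => ?_
            hone := fun g => ?_
            htr := fun j l => ?_
            hdual := fun g g' => ?_ }, rfl, fun l g => rfl⟩
  · rw [MonoidHom.one_apply, MonoidHom.one_apply, one_mul]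
    rfl
  · rw [(exists_mu p x hx).choose_spec A h0 w j l g]
    refine Finset.sum_congr rfl fun m _ => ?_
    congr 1
    change _ = ze (Polynomial.eval₂ (Int.castRingHom B) f ((exists_mu p x hx).choose j l m))
    rw [Polynomial.hom_eval₂, hw]
    congr 1
    exact RingHom.ext_int _ _
  · rw [bb_right]
    change _ = ∑ m, ze (if m = l * h⁻¹ then 1 else 0) * bb p x w m g
    simp [apply_ite ze]
  · change ∑ l, ze 1 * bb p x w l g = 1
    simp only [map_one, one_mul]
    exact bb_sum hx h0 w g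
  · change _ = ze (if j = l then 1 else 0)
    rw [bb_orth hx h0]
    split_ifs <;> simp
  · change ∑ l, ∑ m, bb p x w l g * ze (if l = m then 1 else 0) * bb p x w m g' = _
    rw [← bb_dual hx h0 w g g']
    refine Finset.sum_congr rfl fun l _ => ?_
    simp [apply_ite ze]

end

end Pool.Agent.MP_1c8e06_ag.CYH
end

section

set_option autoImplicit false

open Polynomial LaurentPolynomial
open scoped Classical

namespace Pool.Agent.MP_1c8e06_ag.CYH

open Pool.Agent.MP_1c8e06_ag.AJ Pool.Agent.MP_1c8e06_ag.CY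

noncomputable section

/-!
# Task H3: the rings of the annulus

`AA κ = κ[T,T⁻¹]((t))`, `A0 κ`, `A1 κ`, `s0 κ`, `s1 κ`, `iK κ` in `CY/HDefs2.lean`.  In coefficients (`mem_BL`, `AI.mapL_coeff`,
`lz_coeff`, `lzi_coeff`, `sw_coeff`): `a ∈ A0` iff the `T`-exponents of all `a.coeff n` are bounded below by one constant,
`a ∈ A1` iff they are bounded above; `((s0 a).coeff m).coeff n = (a.coeff n).coeff m`,
`((s1 a).coeff m).coeff n = (a.coeff n).coeff (-m)` (for `LaurentPolynomial`: `f.coeff m`).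
`iK`: `(iK f).coeff n` is the Laurent polynomial with `coeff m = (f.coeff m).coeff n` (check on `C c * T m`, additivity).
`inter`: if the exponents are between `-N` and `N`: `f := ∑ m ∈ Icc (-N) N, C c_m * T m` with
`c_m : LaurentSeries κ`, `c_m.coeff n = (a.coeff n).coeff m` (`HahnSeries.map a` of the linear map coefficient `m`, compare
`AJ/B1.lean`, `exists_of_mem`).
`pos_mem`, `neg_mem`, `f0_mem`, `f1_mem`...: exponents of `pos a` are `≥ 0`, of `neg a` are `≤ 0`.
`s0_f0`: `s0 (t/T) = ofL`-value `zinv (C t * X)`, where `t = HahnSeries.single 1 1 : LaurentSeries κ`; the same for `s1 (t T)`.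
-/

section
variable {κ : Type} [Field κ]

private theorem h3_CT (c : κ) (m n : ℤ) :
    (LaurentPolynomial.C c * LaurentPolynomial.T m : LaurentPolynomial κ).coeff n =
      if m = n then c else 0 := by
  rw [← LaurentPolynomial.single_eq_C_mul_T, AddMonoidAlgebra.coeff_single, Finsupp.single_apply]

private theorem h3_T (m n : ℤ) :
    (LaurentPolynomial.T m : LaurentPolynomial κ).coeff n = if m = n then 1 else 0 := by
  have h := h3_CT (1 : κ) m n
  rwa [map_one, one_mul] at h

private theorem h3_TU_nat (m : ℕ) : ((TU κ ^ m : (AA κ)ˣ) : AA κ) =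
    HahnSeries.C (LaurentPolynomial.T (m : ℤ)) := by
  rw [Units.val_pow_eq_pow_val]
  change (HahnSeries.C (LaurentPolynomial.T 1) : AA κ) ^ m = _
  rw [← map_pow, LaurentPolynomial.T_pow, mul_one]

private theorem h3_TU_nat' (m : ℕ) : (((TU κ)⁻¹ ^ m : (AA κ)ˣ) : AA κ) =
    HahnSeries.C (LaurentPolynomial.T (-(m : ℤ))) := by
  rw [Units.val_pow_eq_pow_val]
  change (HahnSeries.C (LaurentPolynomial.T (-1)) : AA κ) ^ m = _
  rw [← map_pow, LaurentPolynomial.T_pow]
  congr 2
  ring

private theorem h3_TU (m : ℤ) : ((TU κ ^ m : (AA κ)ˣ) : AA κ) =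
    HahnSeries.C (LaurentPolynomial.T m) := by
  obtain ⟨n, rfl | rfl⟩ := m.eq_nat_or_neg
  · rw [zpow_natCast, h3_TU_nat]
  · rw [zpow_neg, zpow_natCast, ← inv_pow, h3_TU_nat']

private theorem h3_j0 (a : A0 κ) (m n : ℤ) :
    (((j0 κ a : BL κ) : AL κ).coeff n).coeff m = ((a : AA κ).coeff n).coeff m := by
  change (lz κ ((a : AA κ).coeff n)).coeff m = _
  rw [lz_coeff]

private theorem h3_j1 (a : A1 κ) (m n : ℤ) :
    (((j1 κ a : BL κ) : AL κ).coeff n).coeff m = ((a : AA κ).coeff n).coeff (-m) := by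
  change (lzi κ ((a : AA κ).coeff n)).coeff m = _
  rw [lzi_coeff]

private theorem h3_mem0 (a : AA κ) : a ∈ A0 κ ↔
    ∃ N : ℕ, ∀ n m : ℤ, m < -(N : ℤ) → (a.coeff n).coeff m = 0 := by
  change jA0 κ a ∈ BL κ ↔ _
  rw [mem_BL]
  have h : ∀ n m : ℤ, ((jA0 κ a).coeff n).coeff m = (a.coeff n).coeff m := by
    intro n m
    change (lz κ (a.coeff n)).coeff m = _
    rw [lz_coeff]
  simp only [h]

private theorem h3_mem1 (a : AA κ) : a ∈ A1 κ ↔
    ∃ N : ℕ, ∀ n m : ℤ, m < -(N : ℤ) → (a.coeff n).coeff (-m) = 0 := by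
  change jA1 κ a ∈ BL κ ↔ _
  rw [mem_BL]
  have h : ∀ n m : ℤ, ((jA1 κ a).coeff n).coeff m = (a.coeff n).coeff (-m) := by
    intro n m
    change (lzi κ (a.coeff n)).coeff m = _
    rw [lzi_coeff]
  simp only [h]

private theorem h3_bound (f : LaurentPolynomial (LaurentSeries κ)) :
    ∃ N : ℕ, ∀ m : ℤ, (N : ℤ) < |m| → f.coeff m = 0 := by
  refine ⟨∑ m ∈ f.coeff.support, m.natAbs, fun m hm => ?_⟩
  by_contra h
  have h1 : m ∈ f.coeff.support := Finsupp.mem_support_iff.mpr h
  have h2 : m.natAbs ≤ ∑ m ∈ f.coeff.support, m.natAbs :=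
    Finset.single_le_sum (f := fun m : ℤ => m.natAbs) (fun _ _ => Nat.zero_le _) h1
  have h3 : |m| = (m.natAbs : ℤ) := Int.abs_eq_natAbs m
  omega

private theorem h3_pT (P : κ[X]) (m : ℤ) (hm : m < 0) : (pT κ P).coeff m = 0 := by
  induction P using Polynomial.induction_on' with
  | add p q hp hq => rw [map_add, AddMonoidAlgebra.coeff_add, Finsupp.add_apply, hp, hq, add_zero]
  | monomial n a =>
    have h : pT κ (Polynomial.monomial n a) = LaurentPolynomial.C a * LaurentPolynomial.T (n : ℤ) := by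
      rw [pT, Polynomial.coe_eval₂RingHom, Polynomial.eval₂_monomial, LaurentPolynomial.T_pow, mul_one]
    rw [h, h3_CT, if_neg (by omega)]

private theorem h3_nT (P : κ[X]) (m : ℤ) (hm : 0 < m) : (nT κ P).coeff m = 0 := by
  induction P using Polynomial.induction_on' with
  | add p q hp hq => rw [map_add, AddMonoidAlgebra.coeff_add, Finsupp.add_apply, hp, hq, add_zero]
  | monomial n a =>
    have h : nT κ (Polynomial.monomial n a) = LaurentPolynomial.C a * LaurentPolynomial.T (-(n : ℤ)) := by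
      rw [nT, Polynomial.coe_eval₂RingHom, Polynomial.eval₂_monomial, LaurentPolynomial.T_pow]
      congr 2
      ring
    rw [h, h3_CT, if_neg (by omega)]

private theorem h3_ofPS (f : PowerSeries (LaurentPolynomial κ)) (n : ℤ) :
    (HahnSeries.ofPowerSeries ℤ (LaurentPolynomial κ) f).coeff n =
      if n < 0 then 0 else PowerSeries.coeff n.natAbs f := PowerSeries.coeff_coe f n

theorem s0_coeff (a : A0 κ) (m n : ℤ) :
    ((s0 κ a).coeff m).coeff n = ((a : AA κ).coeff n).coeff m := by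
  change ((sw κ (j0 κ a)).coeff m).coeff n = _
  rw [sw_coeff, h3_j0]

theorem s1_coeff (a : A1 κ) (m n : ℤ) :
    ((s1 κ a).coeff m).coeff n = ((a : AA κ).coeff n).coeff (-m) := by
  change ((sw κ (j1 κ a)).coeff m).coeff n = _
  rw [sw_coeff, h3_j1]

theorem s0_injective : Function.Injective (s0 κ) := by
  intro a b h
  refine Subtype.ext ?_
  ext n m
  rw [← s0_coeff, ← s0_coeff, h]

theorem s1_injective : Function.Injective (s1 κ) := by
  intro a b h
  refine Subtype.ext ?_
  ext n m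
  have h1 := s1_coeff a (-m) n
  have h2 := s1_coeff b (-m) n
  rw [neg_neg] at h1 h2
  rw [← h1, ← h2, h]

theorem iK_coeff (f : LaurentPolynomial (LaurentSeries κ)) (m n : ℤ) :
    ((iK κ f).coeff n).coeff m = (f.coeff m).coeff n := by
  induction f using LaurentPolynomial.induction_on' with
  | add f g hf hg =>
    rw [map_add, HahnSeries.coeff_add, AddMonoidAlgebra.coeff_add, Finsupp.add_apply, hf, hg,
      AddMonoidAlgebra.coeff_add, Finsupp.add_apply, HahnSeries.coeff_add]
  | C_mul_T i c =>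
    have h1 : iK κ (LaurentPolynomial.C c * LaurentPolynomial.T i) =
        AI.mapL (LaurentPolynomial.C : κ →+* LaurentPolynomial κ) c *
          HahnSeries.C (LaurentPolynomial.T i) := by
      rw [map_mul, iK, LaurentPolynomial.eval₂_C, LaurentPolynomial.eval₂_T, h3_TU]
    rw [h1, HahnSeries.C_apply, HahnSeries.coeff_mul_single_zero, AI.mapL_coeff, h3_CT,
      ← LaurentPolynomial.single_eq_C_mul_T, AddMonoidAlgebra.coeff_single, Finsupp.single_apply]
    split_ifs <;> rfl

theorem iK_injective : Function.Injective (iK κ) := by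
  intro f g h
  ext m n
  rw [← iK_coeff, ← iK_coeff, h]

theorem iK_mem0 (f : LaurentPolynomial (LaurentSeries κ)) : iK κ f ∈ A0 κ := by
  rw [h3_mem0]
  obtain ⟨N, hN⟩ := h3_bound f
  refine ⟨N, fun n m hm => ?_⟩
  rw [iK_coeff, hN m (by rw [abs_of_neg (by omega)]; omega), HahnSeries.coeff_zero]

theorem iK_mem1 (f : LaurentPolynomial (LaurentSeries κ)) : iK κ f ∈ A1 κ := by
  rw [h3_mem1]
  obtain ⟨N, hN⟩ := h3_bound f
  refine ⟨N, fun n m hm => ?_⟩
  rw [iK_coeff, hN (-m) (by rw [abs_of_pos (by omega)]; omega), HahnSeries.coeff_zero]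

theorem s0_iK (f : LaurentPolynomial (LaurentSeries κ)) :
    s0 κ ⟨iK κ f, iK_mem0 f⟩ = lz (LaurentSeries κ) f := by
  ext m n
  rw [s0_coeff, iK_coeff, lz_coeff]

theorem s1_iK (f : LaurentPolynomial (LaurentSeries κ)) :
    s1 κ ⟨iK κ f, iK_mem1 f⟩ = lzi (LaurentSeries κ) f := by
  ext m n
  rw [s1_coeff, iK_coeff, lzi_coeff]

theorem inter (a : AA κ) (h0 : a ∈ A0 κ) (h1 : a ∈ A1 κ) : ∃ f, iK κ f = a := by
  rw [h3_mem0] at h0
  rw [h3_mem1] at h1
  obtain ⟨N, hN⟩ := h0
  obtain ⟨M, hM⟩ := h1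
  let ev (m : ℤ) : LaurentPolynomial κ →+ κ :=
    { toFun := fun f => f.coeff m
      map_zero' := rfl
      map_add' := fun f g => by rw [AddMonoidAlgebra.coeff_add, Finsupp.add_apply] }
  let c (m : ℤ) : LaurentSeries κ := HahnSeries.map a (ev m)
  have hc : ∀ m n : ℤ, (c m).coeff n = (a.coeff n).coeff m := fun m n => rfl
  refine ⟨∑ m ∈ Finset.Icc (-(N : ℤ)) M, LaurentPolynomial.C (c m) * LaurentPolynomial.T m, ?_⟩
  have hf : ∀ m : ℤ, (∑ i ∈ Finset.Icc (-(N : ℤ)) M,
      LaurentPolynomial.C (c i) * LaurentPolynomial.T i :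
        LaurentPolynomial (LaurentSeries κ)).coeff m =
      if m ∈ Finset.Icc (-(N : ℤ)) M then c m else 0 := by
    intro m
    rw [AddMonoidAlgebra.coeff_sum, Finsupp.finsetSum_apply]
    have h2 : ∀ i ∈ Finset.Icc (-(N : ℤ)) M, (LaurentPolynomial.C (c i) * LaurentPolynomial.T i :
        LaurentPolynomial (LaurentSeries κ)).coeff m = if i = m then c i else 0 := by
      intro i _
      rw [← LaurentPolynomial.single_eq_C_mul_T, AddMonoidAlgebra.coeff_single, Finsupp.single_apply]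
    rw [Finset.sum_congr rfl h2, Finset.sum_ite_eq']
  ext n m
  rw [iK_coeff, hf]
  split_ifs with h
  · exact hc m n
  · rw [HahnSeries.coeff_zero]
    rw [Finset.mem_Icc, not_and_or, not_le, not_le] at h
    rcases h with h | h
    · exact (hN n m h).symm
    · have h2 := hM n (-m) (by omega)
      rw [neg_neg] at h2
      exact h2.symm

theorem pos_mem (a : PowerSeries κ[X]) : pos κ a ∈ A0 κ := by
  rw [h3_mem0]
  refine ⟨0, fun n m hm => ?_⟩
  change ((HahnSeries.ofPowerSeries ℤ (LaurentPolynomial κ)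
    (PowerSeries.map (pT κ) a)).coeff n).coeff m = 0
  rw [h3_ofPS]
  split_ifs
  · rfl
  · rw [PowerSeries.coeff_map]
    exact h3_pT _ _ (by simpa using hm)

theorem neg_mem (a : PowerSeries κ[X]) : neg κ a ∈ A1 κ := by
  rw [h3_mem1]
  refine ⟨0, fun n m hm => ?_⟩
  change ((HahnSeries.ofPowerSeries ℤ (LaurentPolynomial κ)
    (PowerSeries.map (nT κ) a)).coeff n).coeff (-m) = 0
  rw [h3_ofPS]
  split_ifs
  · rfl
  · rw [PowerSeries.coeff_map]
    refine h3_nT _ _ ?_
    have : m < 0 := by simpa using hm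
    omega

theorem f0_mem : f0 κ ∈ A0 κ := by
  rw [h3_mem0]
  refine ⟨1, fun n m hm => ?_⟩
  rw [f0, HahnSeries.coeff_single]
  split_ifs
  · rw [h3_T, if_neg]
    rintro rfl
    norm_num at hm
  · rfl

theorem f1_mem : f1 κ ∈ A1 κ := by
  rw [h3_mem1]
  refine ⟨1, fun n m hm => ?_⟩
  rw [f1, HahnSeries.coeff_single]
  split_ifs
  · rw [h3_T, if_neg]
    intro h
    push_cast at hm
    omega
  · rfl

theorem s0_f0 : s0 κ ⟨f0 κ, f0_mem⟩ = AI.zinv (LaurentSeries κ)
    (Polynomial.C (HahnSeries.single (1 : ℤ) (1 : κ)) * Polynomial.X) := by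
  rw [map_mul, AI.zinv_C, AI.zinv_X, HahnSeries.C_apply, HahnSeries.single_mul_single, zero_add,
    mul_one]
  ext m n
  rw [s0_coeff]
  change ((f0 κ).coeff n).coeff m = _
  rw [f0, HahnSeries.coeff_single, HahnSeries.coeff_single]
  by_cases h1 : n = 1 <;> by_cases h2 : m = -1
  · subst h1; subst h2
    rw [if_pos rfl, if_pos rfl, h3_T, if_pos rfl, HahnSeries.coeff_single, if_pos rfl]
  · rw [if_pos h1, if_neg h2, h3_T, if_neg (fun h => h2 h.symm)]; rfl
  · rw [if_neg h1, if_pos h2, HahnSeries.coeff_single, if_neg h1]; rfl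
  · rw [if_neg h1, if_neg h2]; rfl

theorem s1_f1 : s1 κ ⟨f1 κ, f1_mem⟩ = AI.zinv (LaurentSeries κ)
    (Polynomial.C (HahnSeries.single (1 : ℤ) (1 : κ)) * Polynomial.X) := by
  rw [map_mul, AI.zinv_C, AI.zinv_X, HahnSeries.C_apply, HahnSeries.single_mul_single, zero_add,
    mul_one]
  ext m n
  rw [s1_coeff]
  change ((f1 κ).coeff n).coeff (-m) = _
  rw [f1, HahnSeries.coeff_single, HahnSeries.coeff_single]
  by_cases h1 : n = 1 <;> by_cases h2 : m = -1
  · subst h1; subst h2
    rw [if_pos rfl, if_pos rfl, h3_T, if_pos (by norm_num), HahnSeries.coeff_single, if_pos rfl]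
  · rw [if_pos h1, if_neg h2, h3_T, if_neg (fun h => h2 (by omega))]; rfl
  · rw [if_neg h1, if_pos h2, HahnSeries.coeff_single, if_neg h1]; rfl
  · rw [if_neg h1, if_neg h2]; rfl

/-- `f0` is the value of `neg` at `t X`, `f1` the value of `pos`. -/
theorem neg_tX : neg κ (PowerSeries.X * PowerSeries.C (Polynomial.X : κ[X])) = f0 κ := by
  rw [neg, RingHom.comp_apply, map_mul, PowerSeries.map_X, PowerSeries.map_C, map_mul,
    HahnSeries.ofPowerSeries_X, HahnSeries.ofPowerSeries_C, HahnSeries.C_apply,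
    HahnSeries.single_mul_single, add_zero, one_mul, f0]
  congr 1
  rw [nT, Polynomial.coe_eval₂RingHom, Polynomial.eval₂_X]

theorem pos_tX : pos κ (PowerSeries.X * PowerSeries.C (Polynomial.X : κ[X])) = f1 κ := by
  rw [pos, RingHom.comp_apply, map_mul, PowerSeries.map_X, PowerSeries.map_C, map_mul,
    HahnSeries.ofPowerSeries_X, HahnSeries.ofPowerSeries_C, HahnSeries.C_apply,
    HahnSeries.single_mul_single, add_zero, one_mul, f1]
  congr 1
  rw [pT, Polynomial.coe_eval₂RingHom, Polynomial.eval₂_X]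

end

end

end Pool.Agent.MP_1c8e06_ag.CYH
end

section

set_option autoImplicit false

open Polynomial LaurentPolynomial
open scoped Classical

namespace Pool.Agent.MP_1c8e06_ag.CYH

open Pool.Agent.MP_1c8e06_ag.AJ Pool.Agent.MP_1c8e06_ag.CY

noncomputable section

/-!
# Task H4: the Artin-Schreier root and the factorization

`exists_root`: in `PowerSeries κ[X]` (variable `t`) with `F := t X`: `w := - ∑ k, F ^ (p ^ k)`, i.e. `coeff n w = - X ^ n` if
`n` is a power of `p` and `0` otherwise; `w ^ p - w = F` (`(∑ a_n t^n) ^ p = ∑ a_n ^ p t^(pn)` in characteristic `p`: check on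
coefficients, or use partial sums `w_N = - ∑ k < N, F ^ (p^k)`, `w_N ^ p - w_N = F - F^(p^N)`, and `w - w_N` divisible by `t ^ (p ^ N)`).
`factor`: `M : Matrix G G (PowerSeries (LaurentPolynomial κ))` with `M ≡ 1` mod `t`.  There are `X, Z` with entries in
`PowerSeries κ[X]`, both `≡ 1` mod `t`, with `X(T) * M = Z(T⁻¹)`.  Recursion on `n`: suppose `X`, `Z` are known modulo `t^n`; write the coefficient
of `t^n`: `X_n + (known) = Z_n`, where `(known) = ∑ (i < n) X_i(T) M_(n-i)` is a matrix of Laurent polynomials; every Laurent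
polynomial is `q(T⁻¹) - r(T)` with `q, r : κ[X]`.  Compare `AI.exists_factor` in the AI library (the same proof for `κ((s))`).
`exists_invX`: a matrix `≡ 1` mod `t` over power series is invertible (`AI.exists_inv`).
-/

private theorem h4_F (κ : Type) [Field κ] (j m : ℕ) :
    PowerSeries.coeff m ((PowerSeries.X * PowerSeries.C (Polynomial.X : κ[X])) ^ j) =
      if m = j then (Polynomial.X : κ[X]) ^ j else 0 := by
  rw [mul_pow, ← map_pow, PowerSeries.coeff_mul_C, PowerSeries.coeff_X_pow]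
  split_ifs
  · rw [one_mul]
  · rw [zero_mul]

private theorem h4_split {κ : Type} [Field κ] (c : LaurentPolynomial κ) :
    ∃ (P v : κ[X]), nT κ P = c + pT κ v := by
  induction c using LaurentPolynomial.induction_on' with
  | add f g hf hg =>
    obtain ⟨P, v, h⟩ := hf
    obtain ⟨P', v', h'⟩ := hg
    refine ⟨P + P', v + v', ?_⟩
    rw [map_add, map_add, h, h']
    ring
  | C_mul_T n a =>
    rcases le_or_gt 0 n with hn | hn
    · obtain ⟨k, rfl⟩ := Int.eq_ofNat_of_zero_le hn
      refine ⟨0, -Polynomial.monomial k a, ?_⟩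
      rw [map_zero, map_neg, pT, Polynomial.coe_eval₂RingHom, Polynomial.eval₂_monomial,
        LaurentPolynomial.T_pow, mul_one]
      exact (add_neg_cancel _).symm
    · obtain ⟨k, hk⟩ := Int.eq_ofNat_of_zero_le (neg_nonneg.mpr hn.le)
      refine ⟨Polynomial.monomial k a, 0, ?_⟩
      rw [map_zero, add_zero, nT, Polynomial.coe_eval₂RingHom, Polynomial.eval₂_monomial,
        LaurentPolynomial.T_pow]
      congr 2
      omega

/-- The sequence of the coefficients of `X`. -/
private def h4_V {κ : Type} [Field κ] {n : Type} [Fintype n] [DecidableEq n]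
    (v : LaurentPolynomial κ → κ[X]) (M : ℕ → Matrix n n (LaurentPolynomial κ)) :
    ℕ → Matrix n n κ[X]
  | 0 => 1
  | k + 1 => (∑ i : Fin (k + 1), (h4_V v M i).map (pT κ) *
      M (k + 1 - i)).map v
decreasing_by exact i.2

theorem exists_root {p : ℕ} [hp : Fact p.Prime] (κ : Type) [Field κ] [CharP κ p] :
    ∃ w : PowerSeries κ[X], PowerSeries.constantCoeff w = 0 ∧
      w ^ p - w = PowerSeries.X * PowerSeries.C (Polynomial.X : κ[X]) := by
  have hcp : CharP (PowerSeries κ[X]) p :=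
    charP_of_injective_ringHom (PowerSeries.C_injective (R := κ[X])) p
  let F : PowerSeries κ[X] := PowerSeries.X * PowerSeries.C (Polynomial.X : κ[X])
  let w : PowerSeries κ[X] := PowerSeries.mk fun n =>
    if ∃ k : ℕ, n = p ^ k then -(Polynomial.X : κ[X]) ^ n else 0
  let wN : ℕ → PowerSeries κ[X] := fun N => -∑ k ∈ Finset.range N, F ^ p ^ k
  have hp1 : 1 < p := hp.out.one_lt
  have h1 : ∀ N, wN N ^ p - wN N = F - F ^ p ^ N := by
    intro N
    induction N with
    | zero =>
      change (-∑ k ∈ Finset.range 0, F ^ p ^ k) ^ p - (-∑ k ∈ Finset.range 0, F ^ p ^ k) = _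
      rw [Finset.sum_range_zero, neg_zero, zero_pow hp.out.ne_zero, sub_zero, pow_zero, pow_one,
        sub_self]
    | succ N ih =>
      have h2 : wN (N + 1) = wN N - F ^ p ^ N := by
        change -∑ k ∈ Finset.range (N + 1), F ^ p ^ k = -∑ k ∈ Finset.range N, F ^ p ^ k - F ^ p ^ N
        rw [Finset.sum_range_succ]
        ring
      have h3 : (wN N - F ^ p ^ N) ^ p = wN N ^ p - (F ^ p ^ N) ^ p := sub_pow_char _ _
      rw [h2, h3, ← pow_mul, ← pow_succ]
      have h4 : wN N ^ p - F ^ p ^ (N + 1) - (wN N - F ^ p ^ N) =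
          (wN N ^ p - wN N) + F ^ p ^ N - F ^ p ^ (N + 1) := by ring
      rw [h4, ih]
      ring
  have h2 : ∀ N, PowerSeries.X ^ p ^ N ∣ w - wN N := by
    intro N
    rw [PowerSeries.X_pow_dvd_iff]
    intro m hm
    have h3 : PowerSeries.coeff m (wN N) = -∑ k ∈ Finset.range N,
        if m = p ^ k then (Polynomial.X : κ[X]) ^ p ^ k else 0 := by
      change PowerSeries.coeff m (-∑ k ∈ Finset.range N, F ^ p ^ k) = _
      rw [map_neg, map_sum]
      congr 1
      exact Finset.sum_congr rfl fun k _ => h4_F κ _ _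
    rw [map_sub, h3, PowerSeries.coeff_mk]
    split_ifs with h4
    · obtain ⟨k, rfl⟩ := h4
      have hk : k < N := (Nat.pow_lt_pow_iff_right hp1).mp hm
      rw [Finset.sum_eq_single k]
      · rw [if_pos rfl]; ring
      · intro b _ hb
        rw [if_neg]
        intro h5
        exact hb (Nat.pow_right_injective hp1 h5).symm
      · intro h5
        exact absurd (Finset.mem_range.mpr hk) h5
    · rw [Finset.sum_eq_zero]
      · ring
      · intro k _
        rw [if_neg fun h5 => h4 ⟨k, h5⟩]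
  refine ⟨w, ?_, ?_⟩
  · rw [← PowerSeries.coeff_zero_eq_constantCoeff_apply, PowerSeries.coeff_mk, if_neg]
    rintro ⟨k, hk⟩
    exact absurd hk.symm (pow_ne_zero _ hp.out.ne_zero)
  · ext1 n
    have h3 : n < p ^ n := Nat.lt_pow_self hp1
    have h4 : (w ^ p - w) - F = (w - wN n) ^ p - (w - wN n) - F ^ p ^ n := by
      have h5 : (w - wN n) ^ p = w ^ p - wN n ^ p := sub_pow_char _ _
      rw [h5]
      have h6 := h1 n
      have h7 : wN n ^ p = wN n + F - F ^ p ^ n := by
        rw [sub_eq_iff_eq_add.mp h6]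
        ring
      rw [h7]
      ring
    have h5 : PowerSeries.X ^ p ^ n ∣ (w ^ p - w) - F := by
      rw [h4]
      refine dvd_sub (dvd_sub (dvd_pow (h2 n) hp.out.ne_zero) (h2 n)) ?_
      change PowerSeries.X ^ p ^ n ∣ (PowerSeries.X * PowerSeries.C (Polynomial.X : κ[X])) ^ p ^ n
      rw [mul_pow]
      exact dvd_mul_right _ _
    have h6 := (PowerSeries.X_pow_dvd_iff.mp h5) n h3
    rw [map_sub, sub_eq_zero] at h6
    exact h6

theorem factor {κ : Type} [Field κ] {G : Type} [Fintype G] [DecidableEq G]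
    (M : Matrix G G (PowerSeries (LaurentPolynomial κ)))
    (hM : M.map PowerSeries.constantCoeff = 1) :
    ∃ X Z : Matrix G G (PowerSeries κ[X]), X.map PowerSeries.constantCoeff = 1 ∧
      Z.map PowerSeries.constantCoeff = 1 ∧
      X.map (PowerSeries.map (pT κ)) * M = Z.map (PowerSeries.map (nT κ)) := by
  classical
  choose P v hPv using h4_split (κ := κ)
  let Mk : ℕ → Matrix G G (LaurentPolynomial κ) := fun k => M.map (PowerSeries.coeff k)
  let Vk := h4_V v Mk
  let Wk : ℕ → Matrix G G (LaurentPolynomial κ) := fun k =>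
    ∑ i : Fin (k + 1), (Vk i).map (pT κ) * Mk (k + 1 - i)
  have hV0 : Vk 0 = 1 := by
    show h4_V v Mk 0 = 1
    rw [h4_V]
  have hV : ∀ k, Vk (k + 1) = (Wk k).map v := by
    intro k
    show h4_V v Mk (k + 1) = _
    rw [h4_V]
  let Uk : ℕ → Matrix G G κ[X] := fun k => match k with
    | 0 => 1
    | k + 1 => (Wk k).map P
  have hM0 : Mk 0 = 1 := by
    rw [← hM]
    refine Matrix.ext fun i j => ?_
    show PowerSeries.coeff 0 (M i j) = PowerSeries.constantCoeff (M i j)
    rw [PowerSeries.coeff_zero_eq_constantCoeff_apply]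
  have key : ∀ k, ∑ ab ∈ Finset.HasAntidiagonal.antidiagonal k,
      (Vk ab.1).map (pT κ) * Mk ab.2 = (Uk k).map (nT κ) := by
    intro k
    cases k with
    | zero =>
      rw [Finset.Nat.antidiagonal_zero, Finset.sum_singleton, hV0, hM0, mul_one]
      show (1 : Matrix G G κ[X]).map _ = (1 : Matrix G G κ[X]).map _
      rw [Matrix.map_one _ (map_zero _) (map_one _), Matrix.map_one _ (map_zero _) (map_one _)]
    | succ k =>
      rw [Finset.Nat.sum_antidiagonal_eq_sum_range_succ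
        (fun a b => (Vk a).map (pT κ) * Mk b) (k + 1),
        Finset.sum_range_succ, Nat.sub_self, hM0, mul_one, Finset.sum_range]
      show Wk k + (Vk (k + 1)).map (pT κ) = ((Wk k).map P).map (nT κ)
      rw [hV]
      refine Matrix.ext fun i j => ?_
      show Wk k i j + pT κ (v (Wk k i j)) = nT κ (P (Wk k i j))
      rw [hPv]
  refine ⟨Matrix.of fun i j => PowerSeries.mk fun k => Vk k i j,
    Matrix.of fun i j => PowerSeries.mk fun k => Uk k i j, ?_, ?_, ?_⟩
  · refine Matrix.ext fun i j => ?_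
    rw [Matrix.map_apply, Matrix.of_apply, ← PowerSeries.coeff_zero_eq_constantCoeff_apply,
      PowerSeries.coeff_mk, hV0]
  · refine Matrix.ext fun i j => ?_
    rw [Matrix.map_apply, Matrix.of_apply, ← PowerSeries.coeff_zero_eq_constantCoeff_apply,
      PowerSeries.coeff_mk]
  · refine Matrix.ext fun i j => PowerSeries.ext fun k => ?_
    rw [Matrix.mul_apply, map_sum, Matrix.map_apply, Matrix.of_apply, PowerSeries.coeff_map,
      PowerSeries.coeff_mk]
    have h1 := congrFun (congrFun (key k) i) j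
    rw [Matrix.sum_apply, Matrix.map_apply] at h1
    rw [← h1]
    simp only [PowerSeries.coeff_mul]
    rw [Finset.sum_comm]
    refine Finset.sum_congr rfl fun ab _ => ?_
    rw [Matrix.mul_apply]
    refine Finset.sum_congr rfl fun l _ => ?_
    rw [Matrix.map_apply, Matrix.of_apply, PowerSeries.coeff_map, PowerSeries.coeff_mk]
    rfl

theorem exists_invX {A : Type} [CommRing A] {G : Type} [Fintype G] [DecidableEq G]
    (X : Matrix G G (PowerSeries A)) (hX : X.map PowerSeries.constantCoeff = 1) :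
    ∃ Y : Matrix G G (PowerSeries A), X * Y = 1 ∧ Y * X = 1 := by
  have h1 : IsUnit X.det := by
    rw [PowerSeries.isUnit_iff_constantCoeff]
    have h2 := RingHom.map_det (PowerSeries.constantCoeff : PowerSeries A →+* A) X
    rw [RingHom.mapMatrix_apply, hX, Matrix.det_one] at h2
    rw [h2]
    exact isUnit_one
  exact ⟨X⁻¹, Matrix.mul_nonsing_inv _ h1, Matrix.nonsing_inv_mul _ h1⟩

end

end Pool.Agent.MP_1c8e06_ag.CYH
end

section

set_option autoImplicit false

open Polynomial LaurentPolynomial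
open scoped Classical

namespace Pool.Agent.MP_1c8e06_ag.CYH

open Pool.Agent.MP_1c8e06_ag.AJ Pool.Agent.MP_1c8e06_ag.CY

noncomputable section

/-!
# Task H9: injectivity of maps out of Artin-Schreier algebras

`AS p b = A[Y]/(Y^p - Y - b)` has the basis `1, Y, ..., Y^(p-1)` over `A` (`asP p b` is monic of degree `p`:
`AdjoinRoot.powerBasis'`, or `AdjoinRoot.modByMonicHom`, `AdjoinRoot.mk_surjective`; compare `AI.coordE`).
`AS_inj`: `AS p b → AS p (σ b)` is injective if `σ` is: an element is `∑ i < p, of (a i) * rt ^ i`; its image is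
`∑ i < p, of (σ (a i)) * rt ^ i`.
`AS_joint`: `z = ∑ i < p, of (a i) * rt ^ i` and `∑ i < p, σ (a i) (w + j)^i = 0` for all `j : ZMod p`: a polynomial of degree `< p`
over `A'` with the `p` zeros `w + j`, whose differences `zc j - zc j'` are units (`zc` of a nonzero element of `F_p`; its inverse is
`zc` of the inverse), so it is zero (Vandermonde: `Matrix.eq_zero_of_mulVec_eq_zero` / `Matrix.det_vandermonde`, the determinant is a unit;
or divide successively by `Y - (w + j)`).
`AS_prod`: immediate from `AS_joint` for `∏ j, (z - of (C j))`.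
`EE_dom`: `AI.isDomain_EE` with `natDegree (C t * X) = 1` for `t ≠ 0`.
-/

theorem H9_monic {p : ℕ} [hp : Fact p.Prime] {A : Type} [CommRing A] (b : A) :
    (asP p b).Monic := by
  have h2 := hp.out.two_le
  have e : asP p b = Polynomial.X ^ p + (-(Polynomial.X + Polynomial.C b)) := by
    unfold asP
    ring
  rw [e]
  refine monic_X_pow_add (lt_of_le_of_lt (degree_neg_le_of_le ?_) (?_ : (1 : WithBot ℕ) < p))
  · exact (Polynomial.degree_add_le _ _).trans
      (max_le Polynomial.degree_X_le (Polynomial.degree_C_le.trans (by decide)))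
  · exact_mod_cast h2

theorem H9_natDegree {p : ℕ} [hp : Fact p.Prime] {A : Type} [CommRing A] [Nontrivial A] (b : A) :
    (asP p b).natDegree = p := by
  have h2 := hp.out.two_le
  unfold asP
  rw [sub_sub, natDegree_sub_eq_left_of_natDegree_lt, natDegree_X_pow]
  rw [natDegree_X_pow]
  refine lt_of_le_of_lt (natDegree_add_le _ _) ?_
  rw [natDegree_C, natDegree_X]
  simp only [max_lt_iff]
  omega

/-- Representatives of degree less than `p`. -/
theorem H9_rep {p : ℕ} [hp : Fact p.Prime] {A : Type} [CommRing A] (b : A) (z : AS p b) :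
    ∃ g : A[X], g.degree < (p : WithBot ℕ) ∧ z = AdjoinRoot.mk (asP p b) g := by
  obtain ⟨f, rfl⟩ := AdjoinRoot.mk_surjective z
  rcases subsingleton_or_nontrivial A with hA | hA
  · refine ⟨0, ?_, ?_⟩
    · rw [Polynomial.degree_zero]
      exact WithBot.bot_lt_coe _
    · rw [Subsingleton.elim f 0]
  · refine ⟨f %ₘ asP p b, ?_, ?_⟩
    · have h1 := Polynomial.degree_modByMonic_lt f (H9_monic (p := p) b)
      rwa [Polynomial.degree_eq_natDegree (H9_monic (p := p) b).ne_zero, H9_natDegree] at h1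
    · rw [AdjoinRoot.mk_eq_mk, Polynomial.modByMonic_eq_sub_mul_div]
      simp

theorem H9_zero {p : ℕ} [hp : Fact p.Prime] {A : Type} [CommRing A] (b : A) {h : A[X]}
    (hd : h.degree < (p : WithBot ℕ)) (h0 : AdjoinRoot.mk (asP p b) h = 0) : h = 0 := by
  by_contra hne
  have hA : Nontrivial A := by
    by_contra hA
    rw [not_nontrivial_iff_subsingleton] at hA
    exact hne (Subsingleton.elim _ _)
  have h1 := AdjoinRoot.mk_eq_zero.1 h0
  refine (H9_monic (p := p) b).not_dvd_of_degree_lt hne ?_ h1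
  rw [Polynomial.degree_eq_natDegree (H9_monic (p := p) b).ne_zero, H9_natDegree]
  exact hd

theorem H9_map_zero {A A' : Type} [CommRing A] [CommRing A'] (σ : A →+* A')
    (hσ : Function.Injective σ) {g : A[X]} (h : g.map σ = 0) : g = 0 :=
  Polynomial.map_injective σ hσ (by rw [h, Polynomial.map_zero])

theorem AS_inj {p : ℕ} [hp : Fact p.Prime] {A A' : Type} [CommRing A] [CommRing A'] (b : A)
    (σ : A →+* A') (hσ : Function.Injective σ) (e : AS p b →+* AS p (σ b))
    (h1 : ∀ a, e (AS.of p b a) = AS.of p (σ b) (σ a)) (h2 : e (AS.rt p b) = AS.rt p (σ b)) :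
    Function.Injective e := by
  rw [injective_iff_map_eq_zero]
  intro z hz
  obtain ⟨g, hg, rfl⟩ := H9_rep b z
  have h3 : e.comp (AdjoinRoot.mk (asP p b)) =
      (AdjoinRoot.mk (asP p (σ b))).comp (Polynomial.mapRingHom σ) := by
    refine Polynomial.ringHom_ext (fun a => ?_) ?_
    · rw [RingHom.comp_apply, RingHom.comp_apply, Polynomial.coe_mapRingHom, Polynomial.map_C]
      exact h1 a
    · rw [RingHom.comp_apply, RingHom.comp_apply, Polynomial.coe_mapRingHom, Polynomial.map_X]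
      exact h2
  have h4 : AdjoinRoot.mk (asP p (σ b)) (g.map σ) = 0 := by
    have h5 := congrArg (fun q : A[X] →+* AS p (σ b) => q g) h3
    change e (AdjoinRoot.mk (asP p b) g) = AdjoinRoot.mk (asP p (σ b)) (g.map σ) at h5
    rw [← h5, hz]
  have h5 := H9_zero (σ b) (lt_of_le_of_lt Polynomial.degree_map_le hg) h4
  rw [H9_map_zero σ hσ h5, map_zero]

theorem H9_unit {p : ℕ} [hp : Fact p.Prime] {A : Type} [CommRing A] (h0 : (p : A) = 0) {i j : ℕ}
    (hij : i < j) (hj : j < p) : IsUnit ((j : A) - (i : A)) := by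
  have h1 : (Nat.Coprime (j - i) p) := by
    refine ((Nat.Prime.coprime_iff_not_dvd hp.out).2 ?_).symm
    intro h
    have h2 := Nat.le_of_dvd (by omega) h
    omega
  have h2 := Nat.gcd_eq_gcd_ab (j - i) p
  rw [h1.gcd_eq_one] at h2
  have h3 := congrArg (Int.cast : ℤ → A) h2
  push_cast at h3
  rw [h0, zero_mul, add_zero, Nat.cast_sub hij.le] at h3
  exact IsUnit.of_mul_eq_one _ h3.symm

/-- A polynomial of degree less than `p` with the zeros `w, w + 1, ..., w + (p - 1)`. -/
theorem H9_vander {p : ℕ} [hp : Fact p.Prime] {A : Type} [CommRing A] (h0 : (p : A) = 0) (w : A)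
    {h : A[X]} (hd : h.degree < (p : WithBot ℕ)) (hz : ∀ k : ℕ, k < p → h.eval (w + (k : A)) = 0) :
    h = 0 := by
  set v : Fin p → A := fun k => w + ((k : ℕ) : A) with hv
  set c : Fin p → A := fun i => h.coeff i with hc
  have hu : IsUnit (Matrix.vandermonde v).det := by
    rw [Matrix.det_vandermonde]
    refine Finset.prod_induction _ IsUnit (fun _ _ => IsUnit.mul) isUnit_one fun i _ => ?_
    refine Finset.prod_induction _ IsUnit (fun _ _ => IsUnit.mul) isUnit_one fun j hj => ?_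
    rw [Finset.mem_Ioi] at hj
    have h1 : v j - v i = ((j : ℕ) : A) - ((i : ℕ) : A) := by
      rw [hv]
      ring
    rw [h1]
    exact H9_unit h0 hj j.2
  have hlt : h.degree < (p : WithBot ℕ) := hd
  have hmul : Matrix.mulVec (Matrix.vandermonde v) c = 0 := by
    funext k
    have h1 := hz k k.2
    have h2 : h.eval (w + ((k : ℕ) : A)) = ∑ i : Fin p, v k ^ (i : ℕ) * c i := by
      have h3 : h.natDegree < p := by
        by_cases hh : h = 0
        · rw [hh, Polynomial.natDegree_zero]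
          exact hp.out.pos
        · rwa [Polynomial.degree_eq_natDegree hh, Nat.cast_lt] at hlt
      rw [Polynomial.eval_eq_sum_range' h3, Finset.sum_range]
      refine Finset.sum_congr rfl fun i _ => ?_
      rw [mul_comm]
    rw [h2] at h1
    change ∑ i : Fin p, Matrix.vandermonde v k i * c i = 0
    simp only [Matrix.vandermonde_apply]
    exact h1
  have hc0 : c = 0 := by
    have h1 := congrArg (Matrix.mulVec (Matrix.vandermonde v)⁻¹) hmul
    rwa [Matrix.mulVec_mulVec, Matrix.nonsing_inv_mul _ hu, Matrix.one_mulVec,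
      Matrix.mulVec_zero] at h1
  ext n
  rw [Polynomial.coeff_zero]
  by_cases hn : n < p
  · exact congrFun hc0 ⟨n, hn⟩
  · refine Polynomial.coeff_eq_zero_of_degree_lt (lt_of_lt_of_le hlt ?_)
    exact_mod_cast not_lt.1 hn

theorem AS_joint {p : ℕ} [hp : Fact p.Prime] {A A' : Type} [CommRing A] [CommRing A'] (b : A)
    (σ : A →+* A') (hσ : Function.Injective σ) (h0 : (p : A') = 0) (w : A')
    (hw : w ^ p - w = σ b) (e : ZMod p → AS p b →+* A')
    (h1 : ∀ j a, e j (AS.of p b a) = σ a) (h2 : ∀ j, e j (AS.rt p b) = w + zc A' j)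
    (z : AS p b) (hz : ∀ j, e j z = 0) : z = 0 := by
  have hne : NeZero p := ⟨hp.out.ne_zero⟩
  obtain ⟨g, hg, rfl⟩ := H9_rep b z
  have h3 : g.map σ = 0 := by
    refine H9_vander h0 w (lt_of_le_of_lt Polynomial.degree_map_le hg) fun k hk => ?_
    have h4 : (e (k : ZMod p)).comp (AdjoinRoot.mk (asP p b)) =
        Polynomial.eval₂RingHom σ (w + (k : A')) := by
      refine Polynomial.ringHom_ext (fun a => ?_) ?_
      · rw [RingHom.comp_apply, Polynomial.coe_eval₂RingHom, Polynomial.eval₂_C]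
        exact h1 _ a
      · rw [RingHom.comp_apply, Polynomial.coe_eval₂RingHom, Polynomial.eval₂_X,
          ← zc_natCast h0 k]
        exact h2 _
    have h5 := congrArg (fun q : A[X] →+* A' => q g) h4
    change e (k : ZMod p) (AdjoinRoot.mk (asP p b) g) = Polynomial.eval₂ σ (w + (k : A')) g at h5
    rw [hz] at h5
    rw [Polynomial.eval_map, ← h5]
  rw [H9_map_zero σ hσ h3, map_zero]

theorem EE_dom {p : ℕ} [hp : Fact p.Prime] {K : Type} [Field K] [CharP K p] (t : K)
    (ht : t ≠ 0) : IsDomain (AI.EE p (Polynomial.C t * Polynomial.X : K[X])) := by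
  refine AI.isDomain_EE ?_
  rw [Polynomial.natDegree_C_mul_X t ht]
  exact fun h => hp.out.one_lt.ne' (Nat.dvd_one.1 h)

end

end Pool.Agent.MP_1c8e06_ag.CYH
end
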