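import Pool.Agent.Lib.MP_1c8e06_ag.CYH.HDefs3
import Pool.Agent.Lib.MP_1c8e06_ag.CYH.H6
import Pool.Agent.Lib.MP_1c8e06_ag.Mg.G044

section

set_option autoImplicit false

open Polynomial LaurentPolynomial
open scoped Classical

namespace Pool.Agent.MP_1c8e06_ag.CYH

open Pool.Agent.MP_1c8e06_ag.AJ Pool.Agent.MP_1c8e06_ag.CY

noncomputable section

/-!
# Task H5: the patching data

`w` from `exists_root`.  Over `R := PowerSeries (LaurentPolynomial κ)` put `w0 := PowerSeries.map nT w`, `w1 := PowerSeries.map pT w`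
(constant coefficient `0`) and the matrices `M0 l g = bb p x w0 l g`, `M1 l g = bb p y w1 l g`.  `M1 * M1ᵀ = 1` (`bb_orth`), so
`M1ᵀ * M1 = 1` (`Matrix.mul_eq_one_comm`).  `M := M0 * M1ᵀ`; modulo `t` both matrices are the identity (`bb_map` for
`PowerSeries.constantCoeff`, `bb_zero`), so `factor` gives `X`, `Z` with `X(T) * M = Z(T⁻¹)`; multiply by `M1` on the right:
`X(T) * M0 = Z(T⁻¹) * M1`.  Apply `HahnSeries.ofPowerSeries ℤ _` (`bb_map`; `pos`, `neg` are the composites).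
`Xi`, `Zi` from `exists_invX`.  (`p = 0` in all rings: `CharP κ p`; e.g. `map_natCast` and `CharP.cast_eq_zero`.)
-/

private theorem H5_p0 {p : ℕ} [Fact p.Prime] (κ : Type) [Field κ] [CharP κ p] :
    ((p : ℕ) : PowerSeries (LaurentPolynomial κ)) = 0 ∧ ((p : ℕ) : LaurentPolynomial κ) = 0 := by
  have h0 : ((p : ℕ) : κ) = 0 := CharP.cast_eq_zero κ p
  have h1 : ((p : ℕ) : LaurentPolynomial κ) = 0 := by
    have h := map_natCast (LaurentPolynomial.C : κ →+* LaurentPolynomial κ) p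
    rw [h0, map_zero] at h
    exact h.symm
  refine ⟨?_, h1⟩
  have h := map_natCast (PowerSeries.C : LaurentPolynomial κ →+* PowerSeries (LaurentPolynomial κ)) p
  rw [h1, map_zero] at h
  exact h.symm

theorem exists_PD {p : ℕ} [hp : Fact p.Prime] (κ : Type) [Field κ] [CharP κ p] {G : Type}
    [Group G] [Fintype G] (x y : G) (hx : orderOf x = p) (hy : orderOf y = p) :
    Nonempty (PD p κ G x y) := by
  obtain ⟨w, hw0, hw⟩ := exists_root (p := p) κ
  obtain ⟨hP, hL⟩ := H5_p0 (p := p) κ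
  obtain ⟨w0, hw0'⟩ : ∃ w0 : PowerSeries (LaurentPolynomial κ), w0 = PowerSeries.map (nT κ) w := ⟨_, rfl⟩
  obtain ⟨w1, hw1'⟩ : ∃ w1 : PowerSeries (LaurentPolynomial κ), w1 = PowerSeries.map (pT κ) w := ⟨_, rfl⟩
  have c0 : PowerSeries.constantCoeff w0 = 0 := by
    rw [hw0', ← PowerSeries.coeff_zero_eq_constantCoeff_apply, PowerSeries.coeff_map,
      PowerSeries.coeff_zero_eq_constantCoeff_apply, hw0, map_zero]
  have c1 : PowerSeries.constantCoeff w1 = 0 := by
    rw [hw1', ← PowerSeries.coeff_zero_eq_constantCoeff_apply, PowerSeries.coeff_map,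
      PowerSeries.coeff_zero_eq_constantCoeff_apply, hw0, map_zero]
  obtain ⟨M0, hM0⟩ : ∃ M0 : Matrix G G (PowerSeries (LaurentPolynomial κ)), M0 = Matrix.of fun l g => bb p x w0 l g := ⟨_, rfl⟩
  obtain ⟨M1, hM1⟩ : ∃ M1 : Matrix G G (PowerSeries (LaurentPolynomial κ)), M1 = Matrix.of fun l g => bb p y w1 l g := ⟨_, rfl⟩
  have hor : M1 * M1.transpose = 1 := by
    ext1 j l
    rw [Matrix.mul_apply, Matrix.one_apply]
    simp only [hM1, Matrix.transpose_apply, Matrix.of_apply]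
    exact bb_orth hy hP w1 j l
  have hor' : M1.transpose * M1 = 1 := mul_eq_one_comm.mp hor
  have hm0 : M0.map PowerSeries.constantCoeff = 1 := by
    ext1 l g
    rw [Matrix.map_apply, Matrix.one_apply, hM0, Matrix.of_apply]
    have h := bb_map (p := p) (x := x) (PowerSeries.constantCoeff (R := LaurentPolynomial κ)) w0 l g
    rw [h, c0]
    exact bb_zero hx hL l g
  have hm1 : M1.map PowerSeries.constantCoeff = 1 := by
    ext1 l g
    rw [Matrix.map_apply, Matrix.one_apply, hM1, Matrix.of_apply]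
    have h := bb_map (p := p) (x := y) (PowerSeries.constantCoeff (R := LaurentPolynomial κ)) w1 l g
    rw [h, c1]
    exact bb_zero hy hL l g
  have hM : (M0 * M1.transpose).map PowerSeries.constantCoeff = 1 := by
    have h1 := Matrix.map_mul (f := (PowerSeries.constantCoeff (R := LaurentPolynomial κ))) (L := M0) (M := M1.transpose)
    have h2 : M1.transpose.map (PowerSeries.constantCoeff (R := LaurentPolynomial κ)) = 1 := by
      rw [Matrix.transpose_map, hm1, Matrix.transpose_one]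
    rw [h1, hm0, h2, Matrix.mul_one]
  obtain ⟨X, Z, hX, hZ, hXZ⟩ := factor (M0 * M1.transpose) hM
  obtain ⟨Xi, hX1, hX2⟩ := exists_invX X hX
  obtain ⟨Zi, hZ1, hZ2⟩ := exists_invX Z hZ
  have key : X.map (PowerSeries.map (pT κ)) * M0 = Z.map (PowerSeries.map (nT κ)) * M1 := by
    rw [← hXZ, Matrix.mul_assoc, Matrix.mul_assoc, hor', Matrix.mul_one]
  refine ⟨⟨w, hw, X, Xi, Z, Zi, hX1, hX2, hZ1, hZ2, ?_⟩⟩
  intro l g
  have h1 := congrArg (fun A : Matrix G G (PowerSeries (LaurentPolynomial κ)) =>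
    HahnSeries.ofPowerSeries ℤ (LaurentPolynomial κ) (A l g)) key
  simp only [Matrix.mul_apply, map_sum, map_mul, Matrix.map_apply, hM0, hM1, Matrix.of_apply] at h1
  have e0 : ∀ m : G, HahnSeries.ofPowerSeries ℤ (LaurentPolynomial κ) (bb p x w0 m g) = bb p x (neg κ w) m g := by
    intro m
    rw [bb_map, hw0']
    rfl
  have e1 : ∀ m : G, HahnSeries.ofPowerSeries ℤ (LaurentPolynomial κ) (bb p y w1 m g) = bb p y (pos κ w) m g := by
    intro m
    rw [bb_map, hw1']
    rfl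
  simp only [e0, e1] at h1
  exact h1

end

end Pool.Agent.MP_1c8e06_ag.CYH
end

section

set_option autoImplicit false

open Polynomial LaurentPolynomial
open scoped Classical

namespace Pool.Agent.MP_1c8e06_ag.CYH

open Pool.Agent.MP_1c8e06_ag.AJ Pool.Agent.MP_1c8e06_ag.CY

noncomputable section

/-!
# Task H7: the values over the two punctured discs

General: `k : Ks (LaurentPolynomial K) G` with `k.map φ = (kx p x hx f).chb X Xi` over a ring `B`, and a ring hom
`ze : B → A`, `w : A` with `w ^ p - w = ze f`.  `exists_GDx` (over `B`, `A`, `ze`) and `GD.exists_chb` give a datum over `B` with the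
constants `k.map φ`; its relations are those of the wanted datum over `ze ∘ φ`, since `ze ((k.map φ).μ j l m) = ze (φ (k.μ j l m))`
(unfold `Ks.map`).
`exists_at0`: `B = A0 κ`, `A = AI.EE p (FX κ)`, `ze = ofL ∘ s0`, `w = yy`: `yy ^ p - yy = ze F` is `AI.yy_pow`, and
`s0 (f0A) = zinv (FX)` is `s0_f0`; `φ = iA0`, `ofL (s0 (iA0 f)) = ofL (lz f)` (`s0_iA0`).  `exists_at1` in the same way.
-/

theorem H7_gen {p : ℕ} [hp : Fact p.Prime] {G : Type} [Group G] [Fintype G] (x : G)
    (hx : orderOf x = p) {B₀ B A : Type} [CommRing B₀] [CommRing B] [CommRing A]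
    (h0 : (p : A) = 0) (φ : B₀ →+* B) (ze : B →+* A) (f : B) (w : A) (hw : w ^ p - w = ze f)
    (X Xi : Matrix G G B) (h1 : X * Xi = 1) (h2 : Xi * X = 1) (k : Ks B₀ G)
    (hk : k.map φ = (kx p x hx f).chb X Xi) :
    ∃ D : GD (1 : Unit →* G) (ze.comp φ) (1 : Unit →* (A →+* A)), D.k = k ∧
      ∀ l g, D.b l g = ∑ m, ze (X l m) * bb p x w m g := by
  obtain ⟨D0, e0, hb0⟩ := exists_GDx x hx h0 ze f w hw
  obtain ⟨D1, e1, hb1⟩ := D0.exists_chb (fun u b => rfl) X Xi h1 h2
  have e2 : D1.k = k.map φ := by rw [e1, e0, hk]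
  refine ⟨{ b := D1.b
            k := k
            hP := D1.hP
            hmul := fun j l y => ?_
            hact := fun h l y => ?_
            hone := fun y => ?_
            htr := fun j l => ?_
            hdual := fun y y' => ?_ }, rfl, fun l g => ?_⟩
  · have h := D1.hmul j l y
    rw [e2] at h
    exact h
  · have h := D1.hact h l y
    rw [e2] at h
    exact h
  · have h := D1.hone y
    rw [e2] at h
    exact h
  · have h := D1.htr j l
    rw [e2] at h
    exact h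
  · have h := D1.hdual y y'
    rw [e2] at h
    exact h
  · change D1.b l g = _
    rw [hb1]
    simp only [hb0]

private theorem H7_p0 (p : ℕ) [Fact p.Prime] (κ : Type) [Field κ] [CharP κ p] :
    ((p : ℕ) : AI.EE p (FX κ)) = 0 := by
  rw [← map_natCast (AI.ofL p (FX κ)) p, CharP.cast_eq_zero, map_zero]

private theorem H7_yy (p : ℕ) [Fact p.Prime] (κ : Type) [Field κ] [CharP κ p] :
    AI.yy p (FX κ) ^ p - AI.yy p (FX κ) = AI.ofL p (FX κ) (AI.zinv (LaurentSeries κ) (FX κ)) :=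
  sub_eq_zero.1 (AI.yy_pow p (FX κ))

private theorem H7_map {B B' G : Type} [CommRing B] [CommRing B'] [Fintype G] (φ : B →+* B')
    (X Y : Matrix G G B) (h : X * Y = 1) : X.map φ * Y.map φ = 1 := by
  rw [← Matrix.map_mul, h]
  exact Matrix.map_one φ (map_zero φ) (map_one φ)

theorem exists_at0 {p : ℕ} [hp : Fact p.Prime] {κ : Type} [Field κ] [CharP κ p] {G : Type}
    [Group G] [Fintype G] {x y : G} (hx : orderOf x = p) (E : PD p κ G x y)
    (k : Ks (LaurentPolynomial (LaurentSeries κ)) G)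
    (hk : k.map (iA0 κ) = (kx p x hx (f0A κ)).chb (E.X.map (posA κ)) (E.Xi.map (posA κ))) :
    ∃ D : GD (1 : Unit →* G) ((AI.ofL p (FX κ)).comp (lz (LaurentSeries κ)))
        (1 : Unit →* (AI.EE p (FX κ) →+* AI.EE p (FX κ))), D.k = k ∧
      ∀ l g, D.b l g = ∑ m, AI.ofL p (FX κ) (s0 κ (posA κ (E.X l m))) *
        bb p x (AI.yy p (FX κ)) m g := by
  have e : ((AI.ofL p (FX κ)).comp (s0 κ)).comp (iA0 κ) =
      (AI.ofL p (FX κ)).comp (lz (LaurentSeries κ)) :=
    RingHom.ext fun f => congrArg (AI.ofL p (FX κ)) (s0_iA0 κ f)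
  have hw : AI.yy p (FX κ) ^ p - AI.yy p (FX κ) = ((AI.ofL p (FX κ)).comp (s0 κ)) (f0A κ) := by
    rw [H7_yy]
    exact congrArg (AI.ofL p (FX κ)) s0_f0.symm
  have h := H7_gen x hx (H7_p0 p κ) (iA0 κ) ((AI.ofL p (FX κ)).comp (s0 κ)) (f0A κ)
    (AI.yy p (FX κ)) hw (E.X.map (posA κ)) (E.Xi.map (posA κ)) (H7_map _ _ _ E.X1)
    (H7_map _ _ _ E.X2) k hk
  rw [e] at h
  exact h

theorem exists_at1 {p : ℕ} [hp : Fact p.Prime] {κ : Type} [Field κ] [CharP κ p] {G : Type}
    [Group G] [Fintype G] {x y : G} (hy : orderOf y = p) (E : PD p κ G x y)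
    (k : Ks (LaurentPolynomial (LaurentSeries κ)) G)
    (hk : k.map (iA1 κ) = (kx p y hy (f1A κ)).chb (E.Z.map (negA κ)) (E.Zi.map (negA κ))) :
    ∃ D : GD (1 : Unit →* G) ((AI.ofL p (FX κ)).comp (lzi (LaurentSeries κ)))
        (1 : Unit →* (AI.EE p (FX κ) →+* AI.EE p (FX κ))), D.k = k ∧
      ∀ l g, D.b l g = ∑ m, AI.ofL p (FX κ) (s1 κ (negA κ (E.Z l m))) *
        bb p y (AI.yy p (FX κ)) m g := by
  have e : ((AI.ofL p (FX κ)).comp (s1 κ)).comp (iA1 κ) =
      (AI.ofL p (FX κ)).comp (lzi (LaurentSeries κ)) :=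
    RingHom.ext fun f => congrArg (AI.ofL p (FX κ)) (s1_iA1 κ f)
  have hw : AI.yy p (FX κ) ^ p - AI.yy p (FX κ) = ((AI.ofL p (FX κ)).comp (s1 κ)) (f1A κ) := by
    rw [H7_yy]
    exact congrArg (AI.ofL p (FX κ)) s1_f1.symm
  have h := H7_gen y hy (H7_p0 p κ) (iA1 κ) ((AI.ofL p (FX κ)).comp (s1 κ)) (f1A κ)
    (AI.yy p (FX κ)) hw (E.Z.map (negA κ)) (E.Zi.map (negA κ)) (H7_map _ _ _ E.Z1)
    (H7_map _ _ _ E.Z2) k hk
  rw [e] at h
  exact h

end

end Pool.Agent.MP_1c8e06_ag.CYH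
end

section

set_option autoImplicit false

open Polynomial LaurentPolynomial
open scoped Classical

namespace Pool.Agent.MP_1c8e06_ag.CYH

open Pool.Agent.MP_1c8e06_ag.AJ Pool.Agent.MP_1c8e06_ag.CY

noncomputable section

/-!
# Task H8: the two point cover over `κ((t))` (without connectedness)

`y := g0 * x * g0⁻¹`.  `E` from `exists_PD`, `Dm` from `exists_D`, `S` from `GD.exists_SC Dm iK_injective` (`S.ks = Dm.k`), `D0`, `D1` from
`exists_at0`, `exists_at1` with `k := Dm.k`.  `r0 := D0.ev S _ 1`, `r1 := D1.ev S _ g0`.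
`r0_cst`: `GD.ev_cst`.  `r0_x`: `GD.ev_act`: `ev 1 (act x a) = ev (1 * x) a`, and `ev (x * g) a = tau (ev g a)`: on coordinates
`ev_apply`, `tau` fixes `ofL`, and `bb (yy) m (x * g) = bb (yy + 1) m g = tau (bb yy m g)` (`bb_x`, `bb_map`, `tau yy = yy + 1`).
`r1_x`: `ev g0 (act x a) = ev (g0 * x) a = ev (y * g0) a = tau (ev g0 a)`.
-/

/-- The data of the construction, for the connectedness. -/
structure TD (p : ℕ) [Fact p.Prime] (κ : Type) [Field κ] [CharP κ p] (G : Type) [Group G]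
    [Fintype G] (x g0 : G) where
  D : TPw p (K := LaurentSeries κ) x (tK κ)
  E : PD p κ G x (g0 * x * g0⁻¹)
  Dm : GD (1 : Unit →* G) (iK κ) (1 : Unit →* (AA κ →+* AA κ))
  hS : D.S.ks = Dm.k
  b0 : ∀ l g, Dm.b l g = ∑ m, pos κ (E.X l m) * bb p x (neg κ E.w) m g
  b1 : ∀ l g, Dm.b l g = ∑ m, neg κ (E.Z l m) * bb p (g0 * x * g0⁻¹) (pos κ E.w) m g
  v0 : ∀ (f : Al D.S) (g : G), D.r0 (Al.act D.S g f) =
    ∑ l, AI.ofL p (FX κ) (lz _ (f l)) * ∑ m, AI.ofL p (FX κ) (s0 κ (posA κ (E.X l m))) *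
      bb p x (AI.yy p (FX κ)) m g
  v1 : ∀ (f : Al D.S) (g : G), D.r1 (Al.act D.S (g0⁻¹ * g) f) =
    ∑ l, AI.ofL p (FX κ) (lzi _ (f l)) * ∑ m, AI.ofL p (FX κ) (s1 κ (negA κ (E.Z l m))) *
      bb p (g0 * x * g0⁻¹) (AI.yy p (FX κ)) m g

private theorem H8_tau {p : ℕ} [hp : Fact p.Prime] {R : Type} [Field R] [CharP R p] (F : R[X])
    {G : Type} [Group G] [Fintype G] (y : G) (hy : orderOf y = p) {B : Type} [CommRing B]
    (φ : B →+* LaurentSeries R)
    (D : GD (1 : Unit →* G) ((AI.ofL p F).comp φ) (1 : Unit →* (AI.EE p F →+* AI.EE p F)))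
    (X : G → G → LaurentSeries R)
    (hb : ∀ l g, D.b l g = ∑ m, AI.ofL p F (X l m) * bb p y (AI.yy p F) m g)
    (S : SC B G) (hS : S.ks = D.k) (g : G) (a : Al S) :
    D.ev S hS (y * g) a = AI.tau p F (D.ev S hS g a) := by
  have h0 : ((p : ℕ) : AI.EE p F) = 0 := by
    have h1 : ((p : ℕ) : AI.EE p F) = AI.ofL p F (HahnSeries.C ((p : ℕ) : R)) := by
      rw [map_natCast, map_natCast]
    rw [h1, CharP.cast_eq_zero, map_zero, map_zero]
  have ht : ∀ c : LaurentSeries R, AI.tau p F (AI.ofL p F c) = AI.ofL p F c := fun c =>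
    AdjoinRoot.lift_of _
  have hy' : AI.tau p F (AI.yy p F) = AI.yy p F + 1 := AdjoinRoot.lift_root _
  rw [GD.ev_apply, GD.ev_apply, map_sum]
  refine Finset.sum_congr rfl fun l _ => ?_
  rw [map_mul, hb, hb, map_sum]
  congr 1
  · rw [RingHom.comp_apply, ht]
  · refine Finset.sum_congr rfl fun m _ => ?_
    rw [map_mul, ht, bb_x hy h0, bb_map, hy']

theorem exists_TD {p : ℕ} [hp : Fact p.Prime] (κ : Type) [Field κ] [CharP κ p] {G : Type}
    [Group G] [Fintype G] (x g0 : G) (hx : orderOf x = p) : Nonempty (TD p κ G x g0) := by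
  have hy : orderOf (g0 * x * g0⁻¹) = p := by
    rw [← hx]
    exact MulEquiv.orderOf_eq (MulAut.conj g0) x
  obtain ⟨E⟩ := exists_PD κ x (g0 * x * g0⁻¹) hx hy
  obtain ⟨Dm, hb0, hb1, hk0, hk1⟩ := exists_D hx hy E
  obtain ⟨S, hS⟩ := GD.exists_SC Dm iK_injective
  obtain ⟨D0, hk0', hD0⟩ := exists_at0 hx E Dm.k hk0
  obtain ⟨D1, hk1', hD1⟩ := exists_at1 hy E Dm.k hk1
  have hS0 : S.ks = D0.k := hS.trans hk0'.symm
  have hS1 : S.ks = D1.k := hS.trans hk1'.symm
  refine ⟨{ D := { S := S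
                   r0 := D0.ev S hS0 1
                   r1 := D1.ev S hS1 g0
                   r0_cst := ?_
                   r1_cst := ?_
                   r0_x := ?_
                   r1_x := ?_ }
            E := E
            Dm := Dm
            hS := hS
            b0 := hb0
            b1 := hb1
            v0 := ?_
            v1 := ?_ }⟩
  · intro f
    exact GD.ev_cst D0 S hS0 1 f
  · intro f
    exact GD.ev_cst D1 S hS1 g0 f
  · intro a
    rw [GD.ev_act, one_mul]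
    have h := H8_tau (FX κ) x hx (lz (LaurentSeries κ)) D0
      (fun l m => s0 κ (posA κ (E.X l m))) hD0 S hS0 1 a
    rw [mul_one] at h
    exact h
  · intro a
    rw [GD.ev_act]
    have h := H8_tau (FX κ) (g0 * x * g0⁻¹) hy (lzi (LaurentSeries κ)) D1
      (fun l m => s1 κ (negA κ (E.Z l m))) hD1 S hS1 g0 a
    rw [inv_mul_cancel_right] at h
    exact h
  · intro f g
    change D0.ev S hS0 1 (Al.act S g f) = _
    rw [GD.ev_act, one_mul, GD.ev_apply]
    refine Finset.sum_congr rfl fun l _ => ?_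
    rw [hD0]
    rfl
  · intro f g
    change D1.ev S hS1 g0 (Al.act S (g0⁻¹ * g) f) = _
    rw [GD.ev_act, mul_inv_cancel_left, GD.ev_apply]
    refine Finset.sum_congr rfl fun l _ => ?_
    rw [hD1]
    rfl

end

end Pool.Agent.MP_1c8e06_ag.CYH
end

section

set_option autoImplicit false

open Polynomial LaurentPolynomial
open scoped Classical

namespace Pool.Agent.MP_1c8e06_ag.CYH

open Pool.Agent.MP_1c8e06_ag.AJ Pool.Agent.MP_1c8e06_ag.CY

noncomputable section

/-!
# Task H10: connectedness of the two point cover over `κ((t))`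

`T : TD p κ G x g0`, `y := g0 x g0⁻¹`, `f : Al S`, `c : G → κ((t))`, `r0 (act g f) = ofL (C (c g))` for all `g`.
(1) `c (x g) = c g`: `act (x * g) f = act x (act g f)` (`Al.act_mul_apply`), `r0_x`, `tau` fixes `ofL`; `ofL` and `HahnSeries.C` are injective.
(2) Over `A0`: `Φ0 g := ∑ l, of (iA0 (f l)) * ∑ m, of (posA (X l m)) * bb p x rt m g` in `AS p (f0A κ)`.  The map
`e0 : AS p f0A → EE p (FX κ)` (`of a ↦ ofL (s0 a)`, `rt ↦ yy`; `EE p F` is `AS p (zinv F)` by definition, and `s0 f0A = zinv F`) is injective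
(`AS_inj`, `s0_injective`) and maps `Φ0 g` to `r0 (act g f)` (`TD.v0`) `= ofL (C (c g)) = e0 (of (iA0 (C (c g))))`; so
`Φ0 g = of (iA0 (C (c g)))`; apply `a0 : AS p f0A → AA κ`, `of ↦ subtype`, `rt ↦ neg w`: `∑ l, iK (f l) * Dm.b l g = iK (C (c g))` (`TD.b0`).
(3) Over `A1`: `Φ1 g := ∑ l, of (iA1 (f l)) * ∑ m, of (negA (Z l m)) * bb p y rt m g` in `AS p (f1A κ)`, and the maps
`a1 j : AS p f1A → AA κ`, `rt ↦ pos w + zc j` (`j : ZMod p`): `a1 j (Φ1 g) = ∑ l, iK (f l) * Dm.b l (y ^ j.val * g) = iK (C (c (y ^ j.val * g)))`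
(`bb_x` iterated: `bb y w m (y ^ n * g) = bb y (w + n) m g`, `TD.b1`).
So the product `∏ j, (Φ1 g - of (iA1 (C (c (y^j g)))))` is killed by all `a1 j`, hence `0` (`AS_joint`).  Apply the injective
`e1 : AS p f1A → EE p (FX κ)`, a domain (`EE_dom`, `tK ≠ 0`): `e1 (Φ1 g) = e1 (of (iA1 (C c')))` for `c' = c (y ^ j₀ g)`, so
`Φ1 g = of (iA1 (C c'))`, and then `a1 j` gives `c (y ^ j g) = c'` for all `j`.  So `c (y g) = c g`.
(4) `{h | ∀ g, c (h g) = c g}` is a subgroup containing `x` and `y`, so it is everything.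
-/


section
variable {p : ℕ} [hp : Fact p.Prime]

theorem H10_e {A A' : Type} [CommRing A] [CommRing A'] (b : A) (σ : A →+* A')
    (hσ : Function.Injective σ) (b' : A') (h : σ b = b') : ∃ e : AS p b →+* AS p b',
      (∀ a, e (AS.of p b a) = AS.of p b' (σ a)) ∧ e (AS.rt p b) = AS.rt p b' ∧
      Function.Injective e := by
  subst h
  refine ⟨AS.lift ((AS.of p (σ b)).comp σ) (AS.rt p (σ b)) (AS.rt_eq p (σ b)), fun a => ?_, ?_, ?_⟩
  · exact AS.lift_of _ _ _ a
  · exact AS.lift_rt _ _ _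
  · exact AS_inj b σ hσ _ (fun a => AS.lift_of _ _ _ a) (AS.lift_rt _ _ _)

theorem H10_eE {A K : Type} [CommRing A] [Field K] (F : K[X]) (b : A)
    (σ : A →+* LaurentSeries K) (hσ : Function.Injective σ) (h : σ b = AI.zinv K F) :
    ∃ e : AS p b →+* AI.EE p F,
      (∀ a, e (AS.of p b a) = AI.ofL p F (σ a)) ∧ e (AS.rt p b) = AI.yy p F ∧
      Function.Injective e :=
  H10_e b σ hσ _ h

theorem H10_phi {G : Type} [Group G] [Fintype G] {A A' : Type} [CommRing A] [CommRing A']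
    (ψ : A →+* A') (x : G) (u : A) (a : G → A) (M : G → G → A) (g : G) :
    ψ (∑ l, a l * ∑ m, M l m * bb p x u m g) =
      ∑ l, ψ (a l) * ∑ m, ψ (M l m) * bb p x (ψ u) m g := by
  rw [map_sum]
  refine Finset.sum_congr rfl fun l _ => ?_
  rw [map_mul, map_sum]
  congr 1
  refine Finset.sum_congr rfl fun m _ => ?_
  rw [map_mul, bb_map]

theorem H10_bb {G : Type} [Group G] [Fintype G] {y : G} (hy : orderOf y = p) {E : Type}
    [CommRing E] (h0 : (p : E) = 0) (l g : G) (n : ℕ) : ∀ w : E,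
      bb p y (w + (n : E)) l g = bb p y w l (y ^ n * g) := by
  induction n with
  | zero =>
    intro w
    rw [Nat.cast_zero, add_zero, pow_zero, one_mul]
  | succ n ih =>
    intro w
    rw [pow_succ', mul_assoc, bb_x hy h0, ← ih]
    congr 1
    push_cast
    ring

end

theorem TD.conn {p : ℕ} [hp : Fact p.Prime] {κ : Type} [Field κ] [CharP κ p] {G : Type}
    [Group G] [Fintype G] {x g0 : G} (hx : orderOf x = p) (T : TD p κ G x g0)
    (hgen : Subgroup.closure ({x, g0 * x * g0⁻¹} : Set G) = ⊤) : T.D.Conn := by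
  intro f c hf
  set y : G := g0 * x * g0⁻¹ with hy
  have hyo : orderOf y = p := by
    rw [hy, ← hx]
    exact orderOf_injective (MulAut.conj g0).toMonoidHom (MulAut.conj g0).injective x
  have hpA : ((p : ℕ) : AA κ) = 0 := by
    have h1 : ((p : ℕ) : AA κ) = HahnSeries.C (LaurentPolynomial.C ((p : ℕ) : κ)) := by
      rw [map_natCast, map_natCast]
    rw [h1, CharP.cast_eq_zero, map_zero, map_zero]
  -- the element `x`
  have hcx : ∀ g, c (x * g) = c g := by
    intro g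
    have h1 := hf (x * g)
    rw [Al.act_mul_apply, T.D.r0_x, hf g, AI.tau_ofL] at h1
    exact (HahnSeries.C_injective (AI.ofL_injective h1)).symm
  -- the values over the annulus
  obtain ⟨e0, e01, e02, e0i⟩ := H10_eE (p := p) (FX κ) (f0A κ) (s0 κ) s0_injective s0_f0
  have hP0 : ∀ g, (∑ l, AS.of p (f0A κ) (iA0 κ (f l)) * ∑ m, AS.of p (f0A κ) (posA κ (T.E.X l m)) *
      bb p x (AS.rt p (f0A κ)) m g) = AS.of p (f0A κ) (iA0 κ (LaurentPolynomial.C (c g))) := by
    intro g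
    apply e0i
    rw [H10_phi, e02, e01, s0_iA0, lz_C, ← hf g, T.v0]
    refine Finset.sum_congr rfl fun l _ => ?_
    rw [e01, s0_iA0]
    congr 1
    refine Finset.sum_congr rfl fun m _ => ?_
    rw [e01]
  have hw0 : (neg κ T.E.w) ^ p - neg κ T.E.w = (A0 κ).subtype (f0A κ) := by
    rw [← map_pow, ← map_sub, T.E.hw, neg_tX]
    rfl
  obtain ⟨a0, a0of, a0rt⟩ : ∃ a0 : AS p (f0A κ) →+* AA κ,
      (∀ a, a0 (AS.of p (f0A κ) a) = (A0 κ).subtype a) ∧
      a0 (AS.rt p (f0A κ)) = neg κ T.E.w :=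
    ⟨AS.lift (A0 κ).subtype (neg κ T.E.w) hw0, fun a => AS.lift_of _ _ _ a, AS.lift_rt _ _ _⟩
  have hA : ∀ g, ∑ l, iK κ (f l) * T.Dm.b l g = iK κ (LaurentPolynomial.C (c g)) := by
    intro g
    have h1 := (congrArg a0 (hP0 g)).trans (a0of _)
    refine Eq.trans ?_ h1
    refine Eq.symm ((H10_phi a0 x (AS.rt p (f0A κ)) _ _ g).trans ?_)
    refine Finset.sum_congr rfl fun l _ => ?_
    refine congrArg₂ (· * ·) (a0of _) ?_
    refine Eq.trans ?_ (T.b0 l g).symm
    refine Finset.sum_congr rfl fun m _ => ?_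
    refine congrArg₂ (· * ·) (a0of _) ?_
    exact congrArg (fun w => bb p x w m g) a0rt
  -- the element `y`
  have hw1 : (pos κ T.E.w) ^ p - pos κ T.E.w = (A1 κ).subtype (f1A κ) := by
    rw [← map_pow, ← map_sub, T.E.hw, pos_tX]
    rfl
  have hw1' : ∀ j : ZMod p, (pos κ T.E.w + zc (AA κ) j) ^ p - (pos κ T.E.w + zc (AA κ) j) =
      (A1 κ).subtype (f1A κ) := by
    intro j
    rw [add_pow_p hpA, zc_pow hpA, ← hw1]
    ring
  obtain ⟨a1, a1of, a1rt⟩ : ∃ a1 : ZMod p → AS p (f1A κ) →+* AA κ,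
      (∀ j a, a1 j (AS.of p (f1A κ) a) = (A1 κ).subtype a) ∧
      ∀ j, a1 j (AS.rt p (f1A κ)) = pos κ T.E.w + zc (AA κ) j :=
    ⟨fun j => AS.lift (A1 κ).subtype (pos κ T.E.w + zc (AA κ) j) (hw1' j),
      fun j a => AS.lift_of _ _ _ a, fun j => AS.lift_rt _ _ _⟩
  have hcy : ∀ g, c (y * g) = c g := by
    intro g
    obtain ⟨Ph, hPh⟩ : ∃ Ph : AS p (f1A κ), Ph = ∑ l, AS.of p (f1A κ) (iA1 κ (f l)) *
      ∑ m, AS.of p (f1A κ) (negA κ (T.E.Z l m)) * bb p y (AS.rt p (f1A κ)) m g := ⟨_, rfl⟩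
    have hB : ∀ j : ZMod p, a1 j Ph = iK κ (LaurentPolynomial.C (c (y ^ j.val * g))) := by
      intro j
      refine Eq.trans ?_ (hA (y ^ j.val * g))
      refine (congrArg (a1 j) hPh).trans ?_
      refine (H10_phi (a1 j) y (AS.rt p (f1A κ)) _ _ g).trans ?_
      refine Finset.sum_congr rfl fun l _ => ?_
      refine congrArg₂ (· * ·) (a1of j _) ?_
      refine Eq.trans ?_ (T.b1 l (y ^ j.val * g)).symm
      refine Finset.sum_congr rfl fun m _ => ?_
      refine congrArg₂ (· * ·) (a1of j _) ?_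
      rw [a1rt]
      exact H10_bb hyo hpA m g j.val (pos κ T.E.w)
    have hC : ∀ (j : ZMod p) (z : LaurentSeries κ),
        a1 j (AS.of p (f1A κ) (iA1 κ (LaurentPolynomial.C z))) = iK κ (LaurentPolynomial.C z) := by
      intro j z
      exact a1of j _
    have hprod : ∏ j : ZMod p, (Ph - AS.of p (f1A κ)
        (iA1 κ (LaurentPolynomial.C (c (y ^ j.val * g))))) = 0 := by
      refine AS_joint (f1A κ) (A1 κ).subtype Subtype.val_injective hpA (pos κ T.E.w) hw1 a1 a1of
        a1rt _ fun j => ?_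
      refine (map_prod (a1 j) _ _).trans ?_
      refine Finset.prod_eq_zero (Finset.mem_univ j) ?_
      refine (map_sub (a1 j) _ _).trans ?_
      exact sub_eq_zero.2 ((hB j).trans (hC j _).symm)
    obtain ⟨e1, e11, e12, e1i⟩ := H10_eE (p := p) (FX κ) (f1A κ) (s1 κ) s1_injective s1_f1
    have htK : tK κ ≠ 0 := HahnSeries.single_ne_zero one_ne_zero
    haveI : IsDomain (AI.EE p (FX κ)) := EE_dom (tK κ) htK
    have h3 := (map_prod e1 _ _).symm.trans ((congrArg e1 hprod).trans (map_zero e1))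
    obtain ⟨j0, _, h4⟩ := Finset.prod_eq_zero_iff.1 h3
    have h5 : Ph = AS.of p (f1A κ) (iA1 κ (LaurentPolynomial.C (c (y ^ j0.val * g)))) := by
      refine sub_eq_zero.1 (e1i ?_)
      exact h4.trans (map_zero e1).symm
    have h6 : ∀ j : ZMod p, c (y ^ j.val * g) = c (y ^ j0.val * g) := by
      intro j
      have h7 : iK κ (LaurentPolynomial.C (c (y ^ j.val * g))) =
          iK κ (LaurentPolynomial.C (c (y ^ j0.val * g))) :=
        (hB j).symm.trans ((congrArg (a1 j) h5).trans (hC j _))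
      have h8 := congrArg (lz (LaurentSeries κ)) (iK_injective h7)
      rw [lz_C, lz_C] at h8
      exact HahnSeries.C_injective h8
    have h8 := h6 0
    have h9 := h6 1
    rw [ZMod.val_zero, pow_zero, one_mul] at h8
    rw [ZMod.val_one, pow_one] at h9
    rw [h9, h8]
  -- the subgroup
  let H : Subgroup G :=
    { carrier := {h | ∀ g, c (h * g) = c g}
      one_mem' := fun g => by rw [one_mul]
      mul_mem' := fun {a b} ha hb g => by rw [mul_assoc, ha, hb]
      inv_mem' := fun {a} ha g => by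
        have h1 := ha (a⁻¹ * g)
        rw [mul_inv_cancel_left] at h1
        exact h1.symm }
  have hH : (⊤ : Subgroup G) ≤ H := by
    rw [← hgen, Subgroup.closure_le]
    rintro z (rfl | rfl)
    · exact hcx
    · exact hcy
  intro g
  have h1 := hH (Subgroup.mem_top g) 1
  rwa [mul_one] at h1

/-- The two point cover over `κ((t))`. -/
theorem exists_TP {p : ℕ} [hp : Fact p.Prime] (κ : Type) [Field κ] [CharP κ p] {G : Type}
    [Group G] [Fintype G] (x g0 : G) (hx : orderOf x = p)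
    (hgen : Subgroup.closure ({x, g0 * x * g0⁻¹} : Set G) = ⊤) :
    ∃ D : TPw p (K := LaurentSeries κ) x (tK κ), D.Conn := by
  obtain ⟨T⟩ := exists_TD κ x g0 hx
  exact ⟨T.D, T.conn hx hgen⟩

end

end Pool.Agent.MP_1c8e06_ag.CYH
end
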