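import Pool.Agent.Lib.MP_1c8e06_ag.Mg.G019
import Pool.Agent.Lib.MP_1c8e06_ag.Mg.G038
import Pool.Agent.Lib.MP_1c8e06_ag.Mg.G018
import Pool.Agent.Lib.MP_1c8e06_ag.Mg.G045
import Pool.Agent.Lib.MP_1c8e06_ag.CYH.H11
import Pool.Agent.Lib.MP_1c8e06_ag.Mg.G042
import Pool.Agent.Lib.MP_1c8e06_ag.Mg.G066
import Pool.Agent.Lib.MP_1c8e06_ag.Mg.G055

section

set_option autoImplicit false

open scoped Classical

namespace Pool.Agent.MP_1c8e06_ag.CY

open Pool.Agent.MP_1c8e06_ag.AJ Pool.Agent.MP_1c8e06_ag.RC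

/-!
# The final reduction: Theorem C and the local-global theorem
-/

/-- THEOREM C as a statement. -/
def ThC (p : ℕ) (k : Type) [Field k] : Prop :=
  ∀ (X : Type) [Group X] [Fintype X] (x : X), orderOf x = p →
    SEH p (Subgroup.normalizer (Subgroup.zpowers x : Set X)) →
    (∃ g : X, Subgroup.closure ({x, g * x * g⁻¹} : Set X) = ⊤) →
    ∀ (P : Type) [Group P] [Fintype P] (i : P →* X) (u₀ : P), orderOf u₀ = p →
      (∀ u : P, ∃ n : ℕ, u = u₀ ^ n) → i u₀ = x → RE p k i ⊤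

/-- The form in which Theorem C is proved. -/
def ThC' (p : ℕ) (k : Type) [Field k] : Prop :=
  ∀ (X : Type) [Group X] [Fintype X] (x g0 : X), orderOf x = p →
    Subgroup.closure ({x, g0 * x * g0⁻¹} : Set X) = ⊤ →
    ∀ N : Subgroup X, x ∈ N → (∀ n ∈ N, n * x * n⁻¹ ∈ Subgroup.zpowers x) → SEH p N →
    ∀ (P : Type) [Group P] [Fintype P] (u₀ : P), orderOf u₀ = p →
      (∀ u : P, ∃ n : ℕ, u = u₀ ^ n) → ∀ i : P →* X, i u₀ = x → RE p k i ⊤

theorem ThC_of {p : ℕ} {k : Type} [Field k] (h : ThC' p k) : ThC p k := by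
  rintro X _ _ x hx hSE ⟨g0, hg⟩ P _ _ i u₀ hu hgen hi
  refine h X x g0 hx hg _ ?_ ?_ hSE P u₀ hu hgen i hi
  · exact Subgroup.le_normalizer (Subgroup.mem_zpowers x)
  · intro n hn
    exact (Subgroup.mem_normalizer_iff.1 hn x).1 (Subgroup.mem_zpowers x)

theorem realised_of_ThC {p : ℕ} [hp : Fact p.Prime] {k : Type} [Field k] [IsAlgClosed k] [CharP k p]
    (hC : ThC p k) (X : Type) [Group X] [Finite X] (x : X) (hx : orderOf x = p)
    (hSE : SEH p (Subgroup.normalizer (Subgroup.zpowers x : Set X)))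
    (hg : ∃ g : X, Subgroup.closure ({x, g * x * g⁻¹} : Set X) = ⊤) :
    AI.Realised k X (Subgroup.zpowers x) := by
  have : Fintype X := Fintype.ofFinite X
  have hcard : Nat.card (Subgroup.zpowers x) = p := by rw [Nat.card_zpowers, hx]
  have hP : IsPGroup p (Subgroup.zpowers x) := IsPGroup.of_card (n := 1) (by rw [hcard, pow_one])
  have h := hC X x hx hSE hg (Subgroup.zpowers x) (Subgroup.zpowers x).subtype
    ⟨x, Subgroup.mem_zpowers x⟩ (by rw [← hx]; exact Subgroup.orderOf_mk _ _) (by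
      rintro ⟨u, hu⟩
      rw [mem_zpowers_iff_mem_range_orderOf] at hu
      obtain ⟨m, -, hm⟩ := Finset.mem_image.1 hu
      exact ⟨m, Subtype.ext (by simpa using hm.symm)⟩) rfl
  have h2 := realised_of_RE hP (Subgroup.zpowers x).subtype h
  rwa [Subgroup.range_subtype] at h2

/-- The local-global theorem with Theorem C: only the minimal sections `(X, x)` have to be
realised for which the normaliser of `⟨x⟩` is not strongly `p`-embedded. -/
theorem main_lgC {p : ℕ} [hp : Fact p.Prime] (k : Type) [Field k] [IsAlgClosed k] [CharP k p]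
    (hC : ThC p k) {G : Type} [Group G] [Finite G]
    (hG : ∀ (L : Subgroup G) (X : Type) [Group X] (f : L →* X) (x : X),
      Function.Surjective f → Mi p X x →
      ¬ SEH p (Subgroup.normalizer (Subgroup.zpowers x : Set X)) →
      AI.Realised k X (Subgroup.zpowers x))
    (P : Subgroup G) (hP : IsPGroup p P) (hgen : Subgroup.normalClosure (P : Set G) = ⊤) :
    AI.Realised k G P := by
  refine main_lg k ?_ P hP hgen
  intro L X _ f x hf hM
  by_cases h : SEH p (Subgroup.normalizer (Subgroup.zpowers x : Set X))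
  · have : Finite X := Finite.of_surjective f hf
    exact realised_of_ThC hC X x hM.1 h (exists_g0 x hM.2.1 hM.2.2.1)
  · exact hG L X f x hf hM h

end Pool.Agent.MP_1c8e06_ag.CY
end

section

/-!
# CY G7: Theorem C
-/

set_option autoImplicit false

open Polynomial
open scoped Classical

namespace Pool.Agent.MP_1c8e06_ag.CY

open Pool.Agent.MP_1c8e06_ag.AJ

noncomputable section

/-- THEOREM C. -/
theorem theoremC {p : ℕ} [hp : Fact p.Prime] (k : Type) [Field k] [IsAlgClosed k] [CharP k p] :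
    ThC' p k := by
  intro X _ _ x g0 hx hg N hxN hN hSE P _ _ u₀ hu hgen i hi
  obtain ⟨D0, hD0⟩ := CYH.exists_TP (p := p) k x g0 hx hg
  obtain ⟨Om, iOm, h1, h2, h3, h4, hV, φ, hφ⟩ := CYH.exists_Om p k
  obtain ⟨D, hD, -⟩ := CYH.TPw.base_change φ D0 hD0
  obtain ⟨F, hF, D', hD'⟩ := exists_WD_Om hV hx D hφ hD hxN hN hSE
  obtain ⟨S, hS, E, hE⟩ := re_of_WD D' hF ⊤ hD' u₀ hu hgen i hi
  letI : Algebra k Om := (φ.comp (HahnSeries.C : k →+* LaurentSeries k)).toAlgebra
  exact specialise k hS E ⊤ hE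

end

end Pool.Agent.MP_1c8e06_ag.CY
end

section

set_option autoImplicit false

open scoped Classical

namespace Pool.Agent.MP_1c8e06_ag.CY

/-!
# Isolated elements of order `p`
-/

/-- The conjugates of `⟨x⟩` have no common normalising `p`-subgroup: every nontrivial `p`-subgroup
normalises exactly one conjugate of `⟨x⟩`. -/
def Iso (p : ℕ) {X : Type} [Group X] (x : X) : Prop :=
  ∀ J : Subgroup X, IsPGroup p J → J ≠ ⊥ →
    ∃! C : Subgroup X, (∃ g : X, C = Subgroup.zpowers (g * x * g⁻¹)) ∧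
      J ≤ Subgroup.normalizer (C : Set X)

theorem zpowers_conj {X : Type} [Group X] (x g : X) :
    Subgroup.zpowers (g * x * g⁻¹) = (Subgroup.zpowers x).map (MulAut.conj g).toMonoidHom := by
  rw [MonoidHom.map_zpowers]
  rfl

theorem mem_norm_conj {X : Type} [Group X] (x g a : X) :
    a ∈ Subgroup.normalizer (Subgroup.zpowers (g * x * g⁻¹) : Set X) ↔
      g⁻¹ * a * g ∈ Subgroup.normalizer (Subgroup.zpowers x : Set X) := by
  have hmem : ∀ y : X, y ∈ Subgroup.zpowers (g * x * g⁻¹) ↔ g⁻¹ * y * g ∈ Subgroup.zpowers x := by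
    intro y
    rw [zpowers_conj]
    constructor
    · rintro ⟨z, hz, rfl⟩
      have : g⁻¹ * (MulAut.conj g).toMonoidHom z * g = z := by
        change g⁻¹ * (g * z * g⁻¹) * g = z
        group
      rwa [this]
    · intro h
      refine ⟨_, h, ?_⟩
      change g * (g⁻¹ * y * g) * g⁻¹ = y
      group
  rw [Subgroup.mem_normalizer_iff, Subgroup.mem_normalizer_iff]
  constructor
  · intro h y
    have h1 := h (g * y * g⁻¹)
    change g * y * g⁻¹ ∈ Subgroup.zpowers (g * x * g⁻¹) ↔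
      a * (g * y * g⁻¹) * a⁻¹ ∈ Subgroup.zpowers (g * x * g⁻¹) at h1
    rw [hmem, hmem] at h1
    have h2 : g⁻¹ * (g * y * g⁻¹) * g = y := by group
    have h3 : g⁻¹ * (a * (g * y * g⁻¹) * a⁻¹) * g = g⁻¹ * a * g * y * (g⁻¹ * a * g)⁻¹ := by group
    rw [h2, h3] at h1
    exact h1
  · intro h y
    change y ∈ Subgroup.zpowers (g * x * g⁻¹) ↔ a * y * a⁻¹ ∈ Subgroup.zpowers (g * x * g⁻¹)
    rw [hmem, hmem]
    have h1 := h (g⁻¹ * y * g)
    have h3 : g⁻¹ * (a * y * a⁻¹) * g = g⁻¹ * a * g * (g⁻¹ * y * g) * (g⁻¹ * a * g)⁻¹ := by group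
    rw [h3]
    exact h1

theorem SEH_of_iso {p : ℕ} {X : Type} [Group X] [Finite X] (x : X) (h : Iso p x) :
    SEH p (Subgroup.normalizer (Subgroup.zpowers x : Set X)) := by
  intro J hJ hJne
  obtain ⟨C, ⟨⟨g, rfl⟩, hC⟩, huniq⟩ := h J hJ hJne
  refine ⟨g, fun a ha => (mem_norm_conj x g a).1 (hC ha), fun g' hg' => ?_⟩
  have h1 : Subgroup.zpowers (g' * x * g'⁻¹) = Subgroup.zpowers (g * x * g⁻¹) :=
    huniq _ ⟨⟨g', rfl⟩, fun a ha => (mem_norm_conj x g' a).2 (hg' a ha)⟩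
  -- g⁻¹ g' normalises ⟨x⟩
  have h2 : (Subgroup.zpowers x).map (MulAut.conj (g⁻¹ * g')).toMonoidHom = Subgroup.zpowers x := by
    rw [← zpowers_conj]
    have h3 : g⁻¹ * g' * x * (g⁻¹ * g')⁻¹ = g⁻¹ * (g' * x * g'⁻¹) * g⁻¹⁻¹ := by group
    rw [h3, zpowers_conj (g' * x * g'⁻¹) g⁻¹, h1, ← zpowers_conj]
    congr 1
    group
  rw [Subgroup.mem_normalizer_iff]
  intro y
  constructor
  · intro hy
    have : (g⁻¹ * g') * y * (g⁻¹ * g')⁻¹ ∈ (Subgroup.zpowers x).map
        (MulAut.conj (g⁻¹ * g')).toMonoidHom := ⟨y, hy, rfl⟩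
    rwa [h2] at this
  · intro hy
    change (g⁻¹ * g') * y * (g⁻¹ * g')⁻¹ ∈ Subgroup.zpowers x at hy
    rw [← h2] at hy
    obtain ⟨z, hz, hz2⟩ := hy
    have : z = y := by
      have h4 : (g⁻¹ * g') * z * (g⁻¹ * g')⁻¹ = (g⁻¹ * g') * y * (g⁻¹ * g')⁻¹ := hz2
      exact mul_left_cancel (mul_right_cancel h4)
    rwa [← this]

/-- Theorem C and the local-global theorem. -/
theorem main_iso {p : ℕ} [hp : Fact p.Prime] (k : Type) [Field k] [IsAlgClosed k] [CharP k p]
    (hC : ThC' p k) {G : Type} [Group G] [Finite G]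
    (hG : ∀ (L : Subgroup G) (X : Type) [Group X] (f : L →* X) (x : X),
      Function.Surjective f → RC.Mi p X x → ¬ Iso p x → (¬ ∀ Q : Sylow p X, IsCyclic Q) →
      AI.Realised k X (Subgroup.zpowers x))
    (P : Subgroup G) (hP : IsPGroup p P) (hgen : Subgroup.normalClosure (P : Set G) = ⊤) :
    AI.Realised k G P := by
  refine main_lgC k (ThC_of hC) ?_ P hP hgen
  intro L X _ f x hf hM hS
  have : Finite X := Finite.of_surjective f hf
  exact hG L X f x hf hM (fun h => hS (SEH_of_iso x h))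
    (fun h => hS (SEH_of_cyclic h x hM.1))

end Pool.Agent.MP_1c8e06_ag.CY
end
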