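import Pool.Agent.Lib.MP_1c8e06_ag.Mg.G058
import Pool.Agent.Lib.MP_1c8e06_ag.BT.S3

section

set_option autoImplicit false

namespace Pool.Agent.MP_1c8e06_ag.BT

variable {G : Type} [Group G]

namespace BEnv

/-!
# Task B4: an element outside of `W` preserving the set `Phi`

Let `F = {T | ∃ Z, Z ≠ H ∧ Full s Z T ∧ T ≤ W}` and `EE = sSup F`, `EE ≤ W`.
(a) `SN EE H`: for `T ∈ F`: `T ≤ W ≤ H`, `H ≠ ⊤`, `¬ H ≤ Z` (`Z` and `H` are distinct coatoms, `full_om`,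
`om_coatom`, `not_le_of_coatom`), so `full_sn`; then `SN.sSup_mem`.
(b) if `h ∈ H` and `cj h T ≤ W` for all `T ∈ F` then `cj h EE ≤ EE`, hence `cj h EE = EE` (`cj_eq_of_le`): indeed
`cj h T` is `Full s (cj h Z)` (`full_cj`), `cj h Z ≠ cj h H = H`, so `cj h T ∈ F`.  (`cj h (sSup F) ≤ sSup F` follows
from `cj_le_iff` and `sSup_le`.)
In particular all `w ∈ W` satisfy `cj w EE = EE`.
(c) Suppose every `n ∈ H` with `cj n EE = EE` lies in `W`.  If all `n ∈ H` normalise `EE` then `H ≤ W`,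
contradiction.  Otherwise `SN.exists_conj`: `h ∈ H`, `cj h EE ≠ EE`, all `b ∈ cj h EE` normalise `EE`; moreover
`cj h EE ≤ cj h H = H`, so `cj h EE ≤ W`, and (b) gives `cj h EE = EE`, contradiction.
So there is `n ∈ H`, `n ∉ W`, `cj n EE = EE`.  For `Z ∈ Phi s W` with `T`: if `Z = H`, `cj n Z = Z`
(`cj_eq_self`); otherwise `T ≤ EE`, `cj n T ≤ cj n EE = EE ≤ W`, `full_cj`.
-/
theorem exists_move [Finite G] (E : BEnv G) {s : ℕ} (hs : E.Max s) {W H : Subgroup G}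
    (hH : IsCoatom H) (hWH : W ≤ H) (hne : W ≠ H) :
    ∃ n ∈ H, n ∉ W ∧ (∀ Z ∈ E.Phi s W, cj n Z ∈ E.Phi s W) ∧
      cj n (sSup {T : Subgroup G | ∃ Z, Z ≠ H ∧ E.Full s Z T ∧ T ≤ W}) =
        sSup {T : Subgroup G | ∃ Z, Z ≠ H ∧ E.Full s Z T ∧ T ≤ W} := by
  set F : Set (Subgroup G) := {T : Subgroup G | ∃ Z, Z ≠ H ∧ E.Full s Z T ∧ T ≤ W} with hF
  set EE : Subgroup G := sSup F with hEE
  have hFW : ∀ T ∈ F, T ≤ W := by
    rintro T ⟨Z, _, _, h⟩
    exact h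
  have hEEW : EE ≤ W := sSup_le hFW
  have hSN : SN EE H := by
    refine SN.sSup_mem F H ?_
    rintro T ⟨Z, hZ, hfull, hTW⟩
    exact full_sn E hs hfull hH.1 (hTW.trans hWH)
      (not_le_of_coatom hH (om_coatom E (full_om E hfull)) (Ne.symm hZ))
  have hb : ∀ h ∈ H, (∀ T ∈ F, cj h T ≤ W) → cj h EE = EE := by
    intro h hh hT
    refine cj_eq_of_le ?_
    rw [cj_le_iff]
    refine sSup_le ?_
    rintro T ⟨Z, hZ, hfull, hTW⟩
    rw [le_cj_iff, inv_inv]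
    refine le_sSup ⟨cj h Z, ?_, full_cj E hfull h, hT T ⟨Z, hZ, hfull, hTW⟩⟩
    intro h2
    rw [cj_eq_iff, cj_eq_self (H.inv_mem hh)] at h2
    exact hZ h2
  obtain ⟨n, hnH, hnW, hn⟩ : ∃ n ∈ H, n ∉ W ∧ cj n EE = EE := by
    by_contra hno
    have hno' : ∀ n ∈ H, cj n EE = EE → n ∈ W := by
      intro n hn h2
      by_contra h3
      exact hno ⟨n, hn, h3, h2⟩
    by_cases hall : ∀ h ∈ H, cj h EE = EE
    · exact hne (le_antisymm hWH fun n hn => hno' n hn (hall n hn))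
    · obtain ⟨h, hh, hne', hnorm⟩ := SN.exists_conj hSN hall
      have h1 : cj h EE ≤ H := by
        have h2 : cj h EE ≤ cj h H := cj_mono (hEEW.trans hWH)
        rw [cj_eq_self hh] at h2
        exact h2
      have h3 : cj h EE ≤ W := fun b hb => hno' b (h1 hb) (hnorm b hb)
      exact hne' (hb h hh fun T hT => (cj_mono (le_sSup hT)).trans h3)
  refine ⟨n, hnH, hnW, ?_, hn⟩
  rintro Z ⟨T, hfull, hTW⟩
  by_cases hZ : Z = H
  · rw [hZ, cj_eq_self hnH, ← hZ]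
    exact ⟨T, hfull, hTW⟩
  · refine ⟨cj n T, full_cj E hfull n, ?_⟩
    have h1 : cj n T ≤ cj n EE := cj_mono (le_sSup ⟨Z, hZ, hfull, hTW⟩)
    rw [hn] at h1
    exact h1.trans hEEW

end BEnv

end Pool.Agent.MP_1c8e06_ag.BT
end

section

set_option autoImplicit false

namespace Pool.Agent.MP_1c8e06_ag.BT

variable {G : Type} [Group G]

namespace BEnv

/-!
# Task B5: `Phi` is everything

`phi_all`: let `W = K ⊓ Y`.  `W ≤ K`, `W ≠ K` (else `K ≤ Y`), `W ≤ Y`, `W ≠ Y` (else `Y ≤ K`).  `exists_move` for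
`H = K` gives `n ∈ K`, `n ∉ W` and for `H = Y` gives `m ∈ Y`, `m ∉ W`, both preserving `Phi s W`.  The set
`{g | ∀ Z ∈ Phi s W, cj g Z ∈ Phi s W}` is a subgroup `L` (`Phi s W` is finite, so `cj g` is a bijection of it:
the map `Z ↦ cj g Z` is injective on a finite set which it maps into itself), it contains `W` (for `w ∈ W` and
`T ≤ W`: `cj w T ≤ cj w W = W`, `full_cj`), `n` and `m`.  `n ∉ Y` (otherwise `n ∈ K ⊓ Y`), so `¬ L ≤ Y`.  If
`L ≠ ⊤` then `hmax` gives `L ⊓ Y = W`, but `m ∈ L ⊓ Y`, `m ∉ W`.  So `L = ⊤`.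
`om_phi`: `Y ∈ Phi s W` (`S ≤ W` by `full_le`), and every `Z ∈ Om` is `cj g Y` (`om_trans`).
-/
theorem B5_stab [Finite G] (F : Set (Subgroup G)) :
    ∃ L : Subgroup G, ∀ g : G, g ∈ L ↔ ∀ Z ∈ F, cj g Z ∈ F := by
  refine ⟨{ carrier := {g | ∀ Z ∈ F, cj g Z ∈ F}, mul_mem' := ?_, one_mem' := ?_, inv_mem' := ?_ },
    fun g => Iff.rfl⟩
  · intro a b ha hb Z hZ
    rw [cj_mul]
    exact ha _ (hb Z hZ)
  · intro Z hZ
    rw [cj_one]
    exact hZ
  · intro a ha Z hZ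
    have hinj : Function.Injective (fun Z : F => (⟨cj a Z.1, ha Z.1 Z.2⟩ : F)) := by
      intro Z Z' h
      have h2 : cj a Z.1 = cj a Z'.1 := congrArg Subtype.val h
      exact Subtype.ext (cj_inj.1 h2)
    obtain ⟨Z', hZ'⟩ := (Finite.surjective_of_injective hinj) ⟨Z, hZ⟩
    have h3 : cj a Z'.1 = Z := congrArg Subtype.val hZ'
    rw [← h3, cj_inv_cj]
    exact Z'.2

theorem phi_all [Finite G] (E : BEnv G) {s : ℕ} (hs : E.Max s) {Y S K : Subgroup G}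
    (hS : E.Full s Y S) (hK : IsCoatom K) (hKY : K ≠ Y) (hSK : S ≤ K)
    (hmax : ∀ L : Subgroup G, L ≠ ⊤ → K ⊓ Y ≤ L → ¬ L ≤ Y → L ⊓ Y = K ⊓ Y) (g : G)
    {Z : Subgroup G} (hZ : Z ∈ E.Phi s (K ⊓ Y)) : cj g Z ∈ E.Phi s (K ⊓ Y) := by
  have hY : IsCoatom Y := E.om_coatom (E.full_om hS)
  have hWK : K ⊓ Y ≠ K := fun h => not_le_of_coatom hK hY hKY (inf_eq_left.1 h)
  have hWY : K ⊓ Y ≠ Y := fun h => not_le_of_coatom hY hK hKY.symm (inf_eq_right.1 h)
  obtain ⟨n, hnK, hnW, hn, -⟩ := E.exists_move hs hK inf_le_left hWK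
  obtain ⟨m, hmY, hmW, hm, -⟩ := E.exists_move hs hY inf_le_right hWY
  obtain ⟨L, hL⟩ := B5_stab (E.Phi s (K ⊓ Y))
  have hWL : K ⊓ Y ≤ L := by
    intro w hw
    rw [hL]
    rintro Z ⟨T, hT, hTW⟩
    refine ⟨cj w T, E.full_cj hT w, ?_⟩
    have h1 := cj_mono (g := w) hTW
    rwa [cj_eq_self hw] at h1
  have hnL : n ∈ L := (hL n).2 hn
  have hmL : m ∈ L := (hL m).2 hm
  have hLY : ¬ L ≤ Y := fun h => hnW ⟨hnK, h hnL⟩
  have htop : L = ⊤ := by
    by_contra hne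
    have h1 := hmax L hne hWL hLY
    refine hmW ?_
    rw [← h1]
    exact ⟨hmL, hmY⟩
  have hg : g ∈ L := by
    rw [htop]
    exact Subgroup.mem_top g
  exact (hL g).1 hg Z hZ

theorem om_phi [Finite G] (E : BEnv G) {s : ℕ} (hs : E.Max s) {Y S K : Subgroup G}
    (hS : E.Full s Y S) (hK : IsCoatom K) (hKY : K ≠ Y) (hSK : S ≤ K)
    (hmax : ∀ L : Subgroup G, L ≠ ⊤ → K ⊓ Y ≤ L → ¬ L ≤ Y → L ⊓ Y = K ⊓ Y)
    {Z : Subgroup G} (hZ : Z ∈ E.Om) : Z ∈ E.Phi s (K ⊓ Y) := by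
  have hY : Y ∈ E.Phi s (K ⊓ Y) := ⟨S, hS, le_inf hSK (E.full_le hS)⟩
  obtain ⟨g, rfl⟩ := E.om_trans (E.full_om hS) hZ
  exact E.phi_all hs hS hK hKY hSK hmax g hY

end BEnv

end Pool.Agent.MP_1c8e06_ag.BT
end

section

set_option autoImplicit false

namespace Pool.Agent.MP_1c8e06_ag.BT

variable {G : Type} [Group G]

/-!
# Task S5: Wielandt's zipper lemma

Strong induction on `Nat.card G - Nat.card A` (larger `A` first).  The set `{g | cj g A = A}` is a subgroup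
`NA` (define it), `A ≤ NA`, and `NA ≠ ⊤` (otherwise `SN A ⊤` by `SN.of_normal`); let `C` be a coatom with
`NA ≤ C` (`eq_top_or_exists_le_coatom`).  Claim: every coatom `Y ≥ A` is equal to `C`.
`SN A Y` by `h1`.  If all elements of `Y` normalise `A` then `Y ≤ NA ≤ C`, so `Y = C` (coatoms).
Otherwise `SN.exists_conj`: `h ∈ Y`, `cj h A ≠ A`, `cj h A ≤ NA`.  Let `T = A ⊔ cj h A`: `T ≤ Y`, `T ≤ NA ≤ C`,
`Nat.card A < Nat.card T` (`cj h A ≤ A` would give equality by `cj_eq_of_le`).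
`T` satisfies the hypotheses: for `L ≠ ⊤`, `T ≤ L`: `SN A L`, and `SN (cj h A) L` (apply `h1` to `cj h⁻¹ L`,
which contains `A` and is `≠ ⊤`, and conjugate); `SN.sup`.  Not `SN T ⊤`: `A` is normal in `T`, so `SN A ⊤`
would follow (`SN.trans`).  The induction hypothesis for `T` gives `Y = C`.
-/
private theorem S5_aux [Finite G] : ∀ n : ℕ, ∀ A : Subgroup G, Nat.card G - Nat.card A = n →
    (∀ L : Subgroup G, L ≠ ⊤ → A ≤ L → SN A L) → ¬ SN A ⊤ →
    ∃ C : Subgroup G, (∀ g, BT.cj g A = A → g ∈ C) ∧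
      ∀ Y : Subgroup G, IsCoatom Y → A ≤ Y → Y = C := by
  intro n
  induction n using Nat.strong_induction_on with
  | _ n ih =>
    intro A hn h1 h2
    have hA : A ≤ S3_nz A := fun a ha => cj_eq_self ha
    have hne : S3_nz A ≠ ⊤ := by
      intro e
      apply h2
      refine SN.of_normal le_top fun b _ => ?_
      have hb : b ∈ S3_nz A := by rw [e]; exact Subgroup.mem_top b
      exact hb
    obtain ⟨C, hC, hNC⟩ := (eq_top_or_exists_le_coatom (S3_nz A)).resolve_left hne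
    refine ⟨C, fun g hg => hNC hg, ?_⟩
    intro Y hY hAY
    by_cases hall : ∀ h ∈ Y, BT.cj h A = A
    · have h3 : Y ≤ C := le_trans (fun h hh => hall h hh) hNC
      exact ((hY.le_iff).mp h3).resolve_left hC.1 |>.symm
    · obtain ⟨h, hhY, hhA, hnorm⟩ := (h1 Y hY.1 hAY).exists_conj hall
      have hcY : BT.cj h A ≤ Y := by
        have := cj_mono (g := h) hAY
        rwa [cj_eq_self hhY] at this
      have hcN : BT.cj h A ≤ S3_nz A := fun b hb => hnorm b hb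
      have hTY : A ⊔ BT.cj h A ≤ Y := sup_le hAY hcY
      have hTN : A ⊔ BT.cj h A ≤ S3_nz A := sup_le hA hcN
      have hcard : Nat.card A < Nat.card (A ⊔ BT.cj h A : Subgroup G) := by
        refine lt_of_le_of_ne (Nat.card_mono (Set.toFinite _) (SetLike.coe_subset_coe.mpr le_sup_left)) ?_
        intro e
        have h3 : A = A ⊔ BT.cj h A := Subgroup.eq_of_le_of_card_ge le_sup_left e.ge
        apply hhA
        apply cj_eq_of_le
        have h4 : BT.cj h A ≤ A ⊔ BT.cj h A := le_sup_right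
        rwa [← h3] at h4
      have hcG : Nat.card (A ⊔ BT.cj h A : Subgroup G) ≤ Nat.card G :=
        Subgroup.card_le_card_group _
      have hyp1 : ∀ L : Subgroup G, L ≠ ⊤ → A ⊔ BT.cj h A ≤ L → SN (A ⊔ BT.cj h A) L := by
        intro L hL hTL
        refine SN.sup (h1 L hL (le_sup_left.trans hTL)) ?_
        have h3 : SN A (BT.cj h⁻¹ L) := by
          apply h1
          · intro e
            apply hL
            rw [cj_eq_iff, inv_inv, cj_top] at e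
            exact e
          · rw [← cj_le_iff]
            exact le_sup_right.trans hTL
        have h4 := h3.cj h
        rwa [cj_cj_inv] at h4
      have hyp2 : ¬ SN (A ⊔ BT.cj h A) ⊤ := by
        intro h3
        apply h2
        exact (SN.of_normal le_sup_left fun b hb => hTN hb).trans h3
      obtain ⟨C', hC'1, hC'2⟩ := ih _ (by omega) (A ⊔ BT.cj h A) rfl hyp1 hyp2
      rw [hC'2 Y hY hTY, hC'2 C hC (hTN.trans hNC)]

theorem zipper [Finite G] (A : Subgroup G) (h1 : ∀ L : Subgroup G, L ≠ ⊤ → A ≤ L → SN A L)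
    (h2 : ¬ SN A ⊤) (Y Z : Subgroup G) (hY : IsCoatom Y) (hZ : IsCoatom Z) (hAY : A ≤ Y)
    (hAZ : A ≤ Z) : Y = Z := by
  obtain ⟨C, -, hC⟩ := S5_aux _ A rfl h1 h2
  rw [hC Y hY hAY, hC Z hZ hAZ]

end Pool.Agent.MP_1c8e06_ag.BT
end
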