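import Pool.Agent.Lib.MP_1c8e06_ag.BT.S4
import Pool.Agent.Lib.MP_1c8e06_ag.Mg.G067

section

set_option autoImplicit false

namespace Pool.Agent.MP_1c8e06_ag.BT

variable {G : Type} [Group G]

/-!
# Task V1: facts on `MM x` in a minimal counterexample

`MM x = closure {y | ∃ k ∈ closure {x, y}, y = k x k⁻¹}`.
`self_mem_MM`: `k = 1`.  `MM_le_clo`: a generator `y = k x k⁻¹`, `k ∈ closure {x, y} ≤ MM x` (both `x`, `y` are in
`MM x`).  `MM_conj`: `cj_closure`; the generating set of `MM x` is mapped by conjugation with `h` onto the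
one of `MM (h x h⁻¹)` (if `y = k x k⁻¹`, `k ∈ closure {x, y}` then `h y h⁻¹ = (h k h⁻¹) (h x h⁻¹) (h k h⁻¹)⁻¹`
and `h k h⁻¹ ∈ closure {h x h⁻¹, h y h⁻¹}`, by `cj_closure`).
`mm_facts`: (1) `MM x = cj h (MM x0) ≠ ⊤`.
(4) for `L ≠ ⊤`, `x ∈ L`: `S` from `exists_closure`; `S ≤ L` so `S ≠ ⊤`, and `H1` gives `S ≤ MM x`.
(2) for `L ≠ ⊤`, `MM x ≤ L`: with this `S`: `SN (S ⊓ MM x) (L ⊓ MM x) = SN _ (MM x)`, `x ∈ S ⊓ MM x`, so by
`SN.eq_of_clo` and `MM_le_clo`: `S ⊓ MM x = MM x`; hence `S = MM x` and `SN (MM x) L`.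
(3) `SN (MM x) ⊤` would give `MM x = ⊤` by `SN.eq_of_clo` (`⊤ ≤ clo x ⊤`, since `clo x ⊤ = clo x0 ⊤`).
-/
theorem self_mem_MM (x : G) : x ∈ MM x :=
  Subgroup.subset_closure ⟨1, Subgroup.one_mem _, by group⟩

theorem MM_le_clo (x : G) : MM x ≤ clo x (MM x) := by
  refine (Subgroup.closure_le _).mpr ?_
  rintro y ⟨k, hk, hy⟩
  refine Subgroup.subset_closure ⟨k, ?_, hy⟩
  have h1 : Subgroup.closure ({x, y} : Set G) ≤ MM x := by
    rw [Subgroup.closure_le]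
    rintro z (rfl | hz)
    · exact self_mem_MM _
    · rw [Set.mem_singleton_iff] at hz
      rw [hz]
      exact Subgroup.subset_closure ⟨k, hk, hy⟩
  exact h1 hk

private theorem V1_pair (h x y : G) : cj h (Subgroup.closure ({x, y} : Set G)) =
    Subgroup.closure ({h * x * h⁻¹, h * y * h⁻¹} : Set G) := by
  rw [cj_closure, Set.image_pair]

theorem MM_conj (h x : G) : MM (h * x * h⁻¹) = cj h (MM x) := by
  unfold MM
  rw [cj_closure]
  congr 1
  ext y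
  constructor
  · rintro ⟨k, hk, hy⟩
    have e : h * (h⁻¹ * y * h) * h⁻¹ = y := by group
    refine ⟨h⁻¹ * y * h, ⟨h⁻¹ * k * h, ?_, ?_⟩, e⟩
    · have h1 := V1_pair h x (h⁻¹ * y * h)
      rw [e] at h1
      rw [← h1, mem_cj] at hk
      exact hk
    · nth_rewrite 1 [hy]
      group
  · rintro ⟨z, ⟨k, hk, hz⟩, rfl⟩
    refine ⟨h * k * h⁻¹, ?_, ?_⟩
    · change h * k * h⁻¹ ∈ Subgroup.closure ({h * x * h⁻¹, h * z * h⁻¹} : Set G)
      rw [← V1_pair]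
      exact conj_mem_cj.2 hk
    · change h * z * h⁻¹ = _
      nth_rewrite 1 [hz]
      group

theorem mm_facts [Finite G] (x0 : G) (hX : clo x0 ⊤ = ⊤)
    (H1 : ∀ L : Subgroup G, L ≠ ⊤ → ∀ x ∈ L, (∃ h : G, x = h * x0 * h⁻¹) → L ≤ clo x L → L ≤ MM x)
    (hne : MM x0 ≠ ⊤) (x : G) (hx : ∃ h : G, x = h * x0 * h⁻¹) :
    MM x ≠ ⊤ ∧ (∀ L : Subgroup G, L ≠ ⊤ → MM x ≤ L → SN (MM x) L) ∧ (¬ SN (MM x) ⊤) ∧
    (∀ L : Subgroup G, L ≠ ⊤ → x ∈ L → ∃ S : Subgroup G, SN S L ∧ x ∈ S ∧ S ≤ clo x S ∧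
      S ≤ MM x) := by
  have h4 : ∀ L : Subgroup G, L ≠ ⊤ → x ∈ L → ∃ S : Subgroup G, SN S L ∧ x ∈ S ∧ S ≤ clo x S ∧
      S ≤ MM x := by
    intro L hL hxL
    obtain ⟨S, h1, h2, h3, -⟩ := exists_closure hxL
    refine ⟨S, h1, h2, h3, H1 S ?_ x h2 hx h3⟩
    rintro rfl
    exact hL (top_le_iff.mp h1.le)
  have h1 : MM x ≠ ⊤ := by
    obtain ⟨h, rfl⟩ := hx
    rw [MM_conj]
    intro h2
    rw [cj_eq_iff, cj_top] at h2
    exact hne h2
  refine ⟨h1, ?_, ?_, h4⟩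
  · intro L hL hML
    obtain ⟨S, hS1, hS2, -, hS4⟩ := h4 L hL (hML (self_mem_MM x))
    have h2 := hS1.inf_inf (MM x)
    rw [inf_eq_right.mpr hML] at h2
    have h3 := h2.eq_of_clo (x := x) ⟨hS2, self_mem_MM x⟩ (MM_le_clo x)
    have h5 : S = MM x := le_antisymm hS4 (inf_eq_right.mp h3)
    rw [← h5]
    exact hS1
  · intro hs
    refine h1 (hs.eq_of_clo (x := x) (self_mem_MM x) ?_)
    rw [← hX]
    obtain ⟨h, rfl⟩ := hx
    refine Subgroup.closure_mono ?_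
    rintro y ⟨a, -, rfl⟩
    refine ⟨a * h⁻¹, ?_, by group⟩
    rw [hX]
    exact Subgroup.mem_top _

end Pool.Agent.MP_1c8e06_ag.BT
end

section

set_option autoImplicit false

namespace Pool.Agent.MP_1c8e06_ag.BT

variable {G : Type} [Group G]

/-!
# Task V2: the environment of a minimal counterexample

Let `X = {x | ∃ h, x = h x0 h⁻¹}`.  For `x ∈ X` all facts of `mm_facts` hold; `MM x ≠ ⊤`, so there is a coatom
`≥ MM x`; `v x` := a chosen one (and `⊤` for `x` without one).  Uniqueness (`zipper` with (2), (3)): every coatom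
`≥ MM x` is `v x`.
* `gen`: `closure X = clo x0 ⊤ = ⊤`.
* `vconj`: `cj h (v x)` is a coatom (`isCoatom_cj`) containing `cj h (MM x) = MM (h x h⁻¹)`; uniqueness.
* `sn`, `le`: for `L ≠ ⊤`, `x ∈ X`: for every `z ∈ X` with `z ∈ L`, `v z = v x` choose `S z` by (4).  Then
  `S z ≤ MM z ≤ v z = v x`, and `clo z (S z) ≤ col X v L (v x)`: a generator `a z a⁻¹` with `a ∈ S z` lies in `X`, in
  `L`, and `v (a z a⁻¹) = cj a (v z) = v z` because `a ∈ S z ≤ v z` (`cj_eq_self`).  So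
  `col X v L (v x) = sSup {S z}`; use `SN.sSup_mem`.
* `big`: `SN (T ⊓ MM x) (v x ⊓ MM x) = SN _ (MM x)` contains `x`, so `MM x ≤ T` (`SN.eq_of_clo`, `MM_le_clo`);
  `MM x ≤ T ≤ K` gives `K = v x`.
* `pair`: if `closure {x, y} = ⊤` then `y = h x h⁻¹` with `h ∈ ⊤ = closure {x, y}` so `y ∈ MM x`, `x ∈ MM x`,
  `MM x = ⊤`.
-/
theorem exists_env [Finite G] (x0 : G) (hX : clo x0 ⊤ = ⊤)
    (H1 : ∀ L : Subgroup G, L ≠ ⊤ → ∀ x ∈ L, (∃ h : G, x = h * x0 * h⁻¹) → L ≤ clo x L → L ≤ MM x)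
    (hne : MM x0 ≠ ⊤) : Nonempty (BEnv G) := by
  classical
  set X : Set G := {x | ∃ h : G, x = h * x0 * h⁻¹} with hXdef
  have hcoat : ∀ x ∈ X, ∃ Y : Subgroup G, IsCoatom Y ∧ MM x ≤ Y := by
    intro x hx
    rcases eq_top_or_exists_le_coatom (MM x) with h | h
    · exact absurd h (mm_facts x0 hX H1 hne x hx).1
    · exact h
  set v : G → Subgroup G := fun x =>
    if h : ∃ Y : Subgroup G, IsCoatom Y ∧ MM x ≤ Y then h.choose else ⊤ with hv
  have vspec : ∀ x ∈ X, IsCoatom (v x) ∧ MM x ≤ v x := by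
    intro x hx
    have h := hcoat x hx
    have hvx : v x = h.choose := by
      rw [hv]
      simp only
      rw [dif_pos h]
    rw [hvx]
    exact h.choose_spec
  have uniq : ∀ x ∈ X, ∀ K : Subgroup G, IsCoatom K → MM x ≤ K → K = v x := by
    intro x hx K hK hMK
    obtain ⟨-, h2, h3, -⟩ := mm_facts x0 hX H1 hne x hx
    exact zipper (MM x) h2 h3 K (v x) hK (vspec x hx).1 hMK (vspec x hx).2
  have hconj : ∀ x ∈ X, ∀ y ∈ X, ∃ h : G, y = h * x * h⁻¹ := by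
    rintro x ⟨g, rfl⟩ y ⟨k, rfl⟩
    exact ⟨k * g⁻¹, by group⟩
  have hinv : ∀ x ∈ X, ∀ h : G, h * x * h⁻¹ ∈ X := by
    rintro x ⟨g, rfl⟩ h
    exact ⟨h * g, by group⟩
  have hvconj : ∀ x ∈ X, ∀ h : G, v (h * x * h⁻¹) = cj h (v x) := by
    intro x hx h
    refine (uniq _ (hinv x hx h) _ (isCoatom_cj (vspec x hx).1) ?_).symm
    rw [MM_conj]
    exact cj_mono (vspec x hx).2
  have hcol : ∀ L : Subgroup G, L ≠ ⊤ → ∀ x ∈ X, col X v L (v x) =
      sSup {S : Subgroup G | ∃ z ∈ X, z ∈ L ∧ v z = v x ∧ SN S L ∧ z ∈ S ∧ S ≤ clo z S ∧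
        S ≤ MM z} := by
    intro L hL x hx
    apply le_antisymm
    · unfold col
      rw [Subgroup.closure_le]
      rintro z ⟨hz1, hz2, hz3⟩
      obtain ⟨S, h1, h2, h3, h4⟩ := (mm_facts x0 hX H1 hne z hz1).2.2.2 L hL hz2
      have hle : S ≤ sSup {S : Subgroup G | ∃ z ∈ X, z ∈ L ∧ v z = v x ∧ SN S L ∧ z ∈ S ∧
          S ≤ clo z S ∧ S ≤ MM z} := le_sSup ⟨z, hz1, hz2, hz3, h1, h2, h3, h4⟩
      exact hle h2
    · apply sSup_le
      rintro S ⟨z, hz1, hz2, hz3, h1, h2, h3, h4⟩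
      refine h3.trans ?_
      unfold clo col
      rw [Subgroup.closure_le]
      rintro y ⟨a, ha, rfl⟩
      refine Subgroup.subset_closure ⟨hinv z hz1 a, ?_, ?_⟩
      · exact h1.le (S.mul_mem (S.mul_mem ha h2) (S.inv_mem ha))
      · rw [hvconj z hz1 a, cj_eq_self ((vspec z hz1).2 (h4 ha)), hz3]
  refine ⟨{ X := X, v := v, ne := ⟨x0, 1, by group⟩, conj := hconj, inv := hinv, gen := ?_,
            coat := fun x hx => (vspec x hx).1, vconj := hvconj, sn := ?_, le := ?_, big := ?_,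
            pair := ?_ }⟩
  · rw [← hX]
    unfold clo
    congr 1
    ext y
    constructor
    · rintro ⟨h, hh⟩
      exact ⟨h, Subgroup.mem_top h, hh⟩
    · rintro ⟨h, -, hh⟩
      exact ⟨h, hh⟩
  · intro L hL x hx
    rw [hcol L hL x hx]
    apply SN.sSup_mem
    rintro S ⟨z, -, -, -, h1, -⟩
    exact h1
  · intro L hL x hx
    rw [hcol L hL x hx]
    apply sSup_le
    rintro S ⟨z, hz1, -, hz3, -, -, -, h4⟩
    rw [← hz3]
    exact h4.trans (vspec z hz1).2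
  · intro x hx T hxT hT K hK hTK
    apply uniq x hx K hK
    have h1 := hT.inf_inf (MM x)
    rw [inf_eq_right.mpr (vspec x hx).2] at h1
    have h2 := h1.eq_of_clo ⟨hxT, self_mem_MM x⟩ (MM_le_clo x)
    exact (inf_eq_right.mp h2).trans hTK
  · intro x hx y hy htop
    obtain ⟨h, hh⟩ := hconj x hx y hy
    have h1 : y ∈ MM x := by
      unfold MM
      exact Subgroup.subset_closure ⟨h, by rw [htop]; exact Subgroup.mem_top h, hh⟩
    have h2 : Subgroup.closure ({x, y} : Set G) ≤ MM x := by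
      rw [Subgroup.closure_le]
      intro z hz
      rcases hz with rfl | hz
      · exact self_mem_MM _
      · rw [Set.mem_singleton_iff] at hz
        rw [hz]
        exact h1
    rw [htop, top_le_iff] at h2
    exact (mm_facts x0 hX H1 hne x hx).1 h2

end Pool.Agent.MP_1c8e06_ag.BT
end
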