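import Mathlib

section

set_option autoImplicit false

namespace Pool.Agent.MP_1c8e06_ag.AL

noncomputable section

/-!
# Task M1: a fixed point lemma for power series

Proof.  Define the coefficients by strong recursion: `a n := coeff n (Φ (mk (fun m => if m < n then a m else 0)))`
(e.g. with `Nat.strongRec'`/`WellFounded.fix`, or build a sequence `f_0 := 0`, `f_(n+1) := Φ f_n` of power series and take the
diagonal: by induction `coeff m f_n = coeff m f_(n+1)` for `m < n`, so `f := mk (fun m => coeff m (f_(m+1)))` agrees with `f_n` in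
all degrees `< n`, and `coeff n (Φ f) = coeff n (Φ f_n) = coeff n f_(n+1) = coeff n f`).
-/

theorem exists_fix {κ : Type} [Field κ] (Φ : PowerSeries κ → PowerSeries κ)
    (hΦ : ∀ (n : ℕ) (f g : PowerSeries κ),
      (∀ m < n, PowerSeries.coeff m f = PowerSeries.coeff m g) →
      PowerSeries.coeff n (Φ f) = PowerSeries.coeff n (Φ g)) :
    ∃ f : PowerSeries κ, Φ f = f := by
  obtain ⟨F, hF⟩ : ∃ F : ℕ → PowerSeries κ, ∀ n, F (n + 1) = Φ (F n) :=
    ⟨fun n => Φ^[n] 0, fun n => Function.iterate_succ_apply' Φ n 0⟩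
  have h1 : ∀ n m : ℕ, m < n → PowerSeries.coeff m (F n) = PowerSeries.coeff m (F (n + 1)) := by
    intro n
    induction n with
    | zero => intro m hm; omega
    | succ n ih =>
      intro m hm
      rw [hF n, hF (n + 1)]
      refine hΦ m _ _ (fun m' hm' => ?_)
      have h2 := ih m' (by omega)
      rwa [hF n] at h2 ⊢
  have h2 : ∀ m d : ℕ, PowerSeries.coeff m (F (m + 1)) = PowerSeries.coeff m (F (m + 1 + d)) := by
    intro m d
    induction d with
    | zero => rfl
    | succ d ih => rw [ih, h1 (m + 1 + d) m (by omega)]; rfl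
  refine ⟨PowerSeries.mk fun m => PowerSeries.coeff m (F (m + 1)), ?_⟩
  ext n
  have h3 : PowerSeries.coeff n (Φ (PowerSeries.mk fun m => PowerSeries.coeff m (F (m + 1)))) =
      PowerSeries.coeff n (Φ (F n)) := by
    refine hΦ n _ _ (fun m hm => ?_)
    rw [PowerSeries.coeff_mk, h2 m (n - (m + 1))]
    congr 2
    omega
  rw [h3, PowerSeries.coeff_mk, hF n]

end

end Pool.Agent.MP_1c8e06_ag.AL
end

section

set_option autoImplicit false

namespace Pool.Agent.MP_1c8e06_ag.AL

noncomputable section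

/-!
# Task INT: intertwining maps with a single Jordan block

Setting: `T : W → W` nilpotent, `T ^ (d+1) = 0`, `T ^ d w₀ ≠ 0`, `dim W = d + 1`; `N : V → V` with `N ^ (d+1) = 0`.
Proofs.
* `INT_basis`: the vectors `T ^ j w₀`, `j ≤ d`, are linearly independent (in a relation take the smallest `j` with nonzero coefficient and apply
  `T ^ (d - j)`), hence a basis of `W`.
* `INT_from`: define `η` on this basis by `η (T ^ j w₀) := N ^ j v`; `η (T (T ^ j w₀)) = N (η (T ^ j w₀))` also for `j = d` (both sides are `0`).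
* `INT_nondeg`: `μ (T ^ j w) = 0` for all `j ≤ d` implies `w = 0`: write `w = ∑ c_j T ^ j w₀`, let `j` be minimal with `c_j ≠ 0`; then
  `μ (T ^ (d - j) w) = c_j μ (T ^ d w₀) ≠ 0`.
* `INT_to`: the linear map `W → (Fin (d+1) → F)`, `w ↦ (μ (T ^ j w))_j` is injective by `INT_nondeg`, hence bijective (dimensions).  `η x` := the
  `w` with `μ (T ^ j w) = ℓ (N ^ j x)` for all `j ≤ d`; linear.  `j = 0`: `μ (η x) = ℓ x`.  `η (N x) = T (η x)`: compare
  `μ (T ^ j _)` for `j ≤ d` (`ℓ (N ^ (j+1) x) = μ (T ^ (j+1) (η x))`; for `j = d` both are `0`).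
* `INT_pair`: choose `v` with `N ^ d v ≠ 0`, `Θ` from `INT_from` with `Θ w₀ = v`.  `Θ` is injective: its kernel is `T`-stable, and a nonzero `w` in it
  would give (apply a power of `T`) `T ^ d w₀` in it (up to a nonzero scalar), but `Θ (T ^ d w₀) = N ^ d v ≠ 0`.  Choose a functional
  `ℓ` on `V` with `ℓ (Θ w) = μ w` (`Θ` injective: `LinearMap.exists_leftInverse_of_injective`), `Ξ` from `INT_to` for `ℓ`.
  For `w ∈ W`: `μ (T ^ j (Ξ (Θ w))) = μ (Ξ (N ^ j (Θ w))) = ℓ (Θ (T ^ j w)) = μ (T ^ j w)`, so `Ξ (Θ w) = w` by `INT_nondeg`.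
-/

/-- a power of `T` singles out one coefficient -/
private theorem INT_pow_sum {F W : Type} [Field F] [AddCommGroup W] [Module F W] (T : W →ₗ[F] W)
    (d : ℕ) (w₀ : W) (hT : T ^ (d + 1) = 0) (c : Fin (d + 1) → F) (j : Fin (d + 1))
    (h : ∀ i < j, c i = 0) :
    (T ^ (d - (j : ℕ))) (∑ i, c i • (T ^ (i : ℕ)) w₀) = c j • (T ^ d) w₀ := by
  rw [map_sum]
  rw [Finset.sum_eq_single j]
  · rw [map_smul, ← Module.End.mul_apply, ← pow_add]
    congr 3
    have := j.isLt
    omega
  · intro i _ hij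
    rcases lt_or_gt_of_ne hij with hlt | hgt
    · rw [h i hlt, zero_smul, map_zero]
    · rw [map_smul, ← Module.End.mul_apply, ← pow_add]
      have e : d - (j : ℕ) + (i : ℕ) = (d + 1) + (d - (j : ℕ) + (i : ℕ) - (d + 1)) := by
        have h1 := j.isLt
        have h2 : (j : ℕ) < (i : ℕ) := hgt
        omega
      rw [e, pow_add, hT, zero_mul, LinearMap.zero_apply, smul_zero]
  · intro hj
    exact absurd (Finset.mem_univ j) hj

private theorem INT_li {F W : Type} [Field F] [AddCommGroup W] [Module F W] (T : W →ₗ[F] W)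
    (d : ℕ) (w₀ : W) (hT : T ^ (d + 1) = 0) (hTw : (T ^ d) w₀ ≠ 0) :
    LinearIndependent F (fun j : Fin (d + 1) => (T ^ (j : ℕ)) w₀) := by
  rw [Fintype.linearIndependent_iff]
  intro c hc
  intro j
  induction j using WellFoundedLT.induction with
  | ind j ih =>
    have h := INT_pow_sum T d w₀ hT c j ih
    rw [hc, map_zero] at h
    exact (smul_eq_zero.1 h.symm).resolve_right hTw

private theorem INT_basis {F W : Type} [Field F] [AddCommGroup W] [Module F W] (T : W →ₗ[F] W)
    (d : ℕ) (w₀ : W) (hT : T ^ (d + 1) = 0) (hTw : (T ^ d) w₀ ≠ 0)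
    (hW : Module.finrank F W = d + 1) :
    ∃ b : Module.Basis (Fin (d + 1)) F W, ∀ j, b j = (T ^ (j : ℕ)) w₀ := by
  refine ⟨basisOfLinearIndependentOfCardEqFinrank (INT_li T d w₀ hT hTw) ?_, ?_⟩
  · rw [hW, Fintype.card_fin]
  · intro j
    rw [coe_basisOfLinearIndependentOfCardEqFinrank]

theorem INT_from {F V W : Type} [Field F] [AddCommGroup V] [Module F V] [AddCommGroup W]
    [Module F W] (N : V →ₗ[F] V) (T : W →ₗ[F] W) (d : ℕ) (w₀ : W) (hT : T ^ (d + 1) = 0)
    (hTw : (T ^ d) w₀ ≠ 0) (hW : Module.finrank F W = d + 1) (hN : N ^ (d + 1) = 0) (v : V) :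
    ∃ η : W →ₗ[F] V, η w₀ = v ∧ ∀ w, η (T w) = N (η w) := by
  obtain ⟨b, hb⟩ := INT_basis T d w₀ hT hTw hW
  have hη : ∀ j : Fin (d + 1), b.constr F (fun j : Fin (d + 1) => (N ^ (j : ℕ)) v) (b j) =
      (N ^ (j : ℕ)) v := fun j => b.constr_basis F _ j
  refine ⟨b.constr F (fun j : Fin (d + 1) => (N ^ (j : ℕ)) v), ?_, ?_⟩
  · have h := hη 0
    rw [hb 0] at h
    simpa using h
  · intro w
    have key : (b.constr F (fun j : Fin (d + 1) => (N ^ (j : ℕ)) v)) ∘ₗ T =
        N ∘ₗ (b.constr F (fun j : Fin (d + 1) => (N ^ (j : ℕ)) v)) := by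
      refine b.ext fun j => ?_
      rw [LinearMap.comp_apply, LinearMap.comp_apply, hη j, hb j, ← Module.End.mul_apply,
        ← pow_succ', ← Module.End.mul_apply, ← pow_succ']
      by_cases hj : (j : ℕ) + 1 < d + 1
      · have h1 := hη ⟨(j : ℕ) + 1, hj⟩
        rw [hb ⟨(j : ℕ) + 1, hj⟩] at h1
        exact h1
      · have e : (j : ℕ) + 1 = d + 1 := by
          have := j.isLt
          omega
        rw [e, hT, hN, LinearMap.zero_apply, LinearMap.zero_apply, map_zero]
    exact LinearMap.congr_fun key w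

private theorem INT_pow_comm {F V W : Type} [Field F] [AddCommGroup V] [Module F V]
    [AddCommGroup W] [Module F W] {N : V →ₗ[F] V} {T : W →ₗ[F] W} {η : W →ₗ[F] V}
    (hη : ∀ w, η (T w) = N (η w)) (j : ℕ) (w : W) : η ((T ^ j) w) = (N ^ j) (η w) := by
  induction j with
  | zero => simp
  | succ j ih =>
    rw [pow_succ', pow_succ', Module.End.mul_apply, Module.End.mul_apply, hη, ih]

theorem INT_ext {F V W : Type} [Field F] [AddCommGroup V] [Module F V] [AddCommGroup W]
    [Module F W] (N : V →ₗ[F] V) (T : W →ₗ[F] W) (d : ℕ) (w₀ : W) (hT : T ^ (d + 1) = 0)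
    (hTw : (T ^ d) w₀ ≠ 0) (hW : Module.finrank F W = d + 1) (η : W →ₗ[F] V)
    (hη : ∀ w, η (T w) = N (η w)) (h0 : η w₀ = 0) : η = 0 := by
  obtain ⟨b, hb⟩ := INT_basis T d w₀ hT hTw hW
  refine b.ext fun j => ?_
  rw [hb j, INT_pow_comm hη, h0, map_zero, LinearMap.zero_apply]

theorem INT_nondeg {F W : Type} [Field F] [AddCommGroup W]
    [Module F W] (T : W →ₗ[F] W) (d : ℕ) (w₀ : W) (hT : T ^ (d + 1) = 0)
    (hTw : (T ^ d) w₀ ≠ 0) (hW : Module.finrank F W = d + 1) (μ : Module.Dual F W)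
    (hμ : μ ((T ^ d) w₀) ≠ 0) (w : W) (h : ∀ j ≤ d, μ ((T ^ j) w) = 0) : w = 0 := by
  obtain ⟨b, hb⟩ := INT_basis T d w₀ hT hTw hW
  have hw : ∑ i, b.repr w i • (T ^ (i : ℕ)) w₀ = w := by
    have h1 := b.sum_repr w
    simpa only [hb] using h1
  have hc : ∀ j, b.repr w j = 0 := by
    intro j
    induction j using WellFoundedLT.induction with
    | ind j ih =>
      have h1 := INT_pow_sum T d w₀ hT (fun i => b.repr w i) j ih
      rw [hw] at h1
      have h2 := h (d - (j : ℕ)) (Nat.sub_le _ _)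
      rw [h1, map_smul, smul_eq_mul] at h2
      exact (mul_eq_zero.1 h2).resolve_right hμ
  rw [← hw]
  exact Finset.sum_eq_zero fun i _ => by rw [hc i, zero_smul]

theorem INT_to {F V W : Type} [Field F] [AddCommGroup V] [Module F V] [AddCommGroup W]
    [Module F W] (N : V →ₗ[F] V) (T : W →ₗ[F] W) (d : ℕ) (w₀ : W) (hT : T ^ (d + 1) = 0)
    (hTw : (T ^ d) w₀ ≠ 0) (hW : Module.finrank F W = d + 1) (hN : N ^ (d + 1) = 0)
    (μ : Module.Dual F W) (hμ : μ ((T ^ d) w₀) ≠ 0) (ℓ : Module.Dual F V) :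
    ∃ η : V →ₗ[F] W, (∀ x, μ (η x) = ℓ x) ∧ ∀ x, η (N x) = T (η x) := by
  have : FiniteDimensional F W := FiniteDimensional.of_finrank_pos (by omega)
  let Φ : W →ₗ[F] (Fin (d + 1) → F) := LinearMap.pi fun j => μ ∘ₗ (T ^ (j : ℕ))
  have hΦ : ∀ w j, Φ w j = μ ((T ^ (j : ℕ)) w) := fun w j => rfl
  have hinj : Function.Injective Φ := by
    rw [injective_iff_map_eq_zero]
    intro w hw
    refine INT_nondeg T d w₀ hT hTw hW μ hμ w fun j hj => ?_
    have h1 := hΦ w ⟨j, Nat.lt_succ_of_le hj⟩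
    rw [hw] at h1
    exact h1.symm
  have hfr : Module.finrank F W = Module.finrank F (Fin (d + 1) → F) := by
    rw [hW, Module.finrank_fin_fun]
  let e : W ≃ₗ[F] (Fin (d + 1) → F) := LinearEquiv.ofInjectiveOfFinrankEq Φ hinj hfr
  have he : ∀ w, e w = Φ w := fun w => rfl
  let Ψ : V →ₗ[F] (Fin (d + 1) → F) := LinearMap.pi fun j => ℓ ∘ₗ (N ^ (j : ℕ))
  have hΨ : ∀ x j, Ψ x j = ℓ ((N ^ (j : ℕ)) x) := fun x j => rfl
  have key : ∀ (x : V) (j : ℕ), j ≤ d → μ ((T ^ j) (e.symm (Ψ x))) = ℓ ((N ^ j) x) := by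
    intro x j hj
    have h1 : e (e.symm (Ψ x)) = Ψ x := e.apply_symm_apply _
    rw [he] at h1
    have h2 := congrFun h1 ⟨j, Nat.lt_succ_of_le hj⟩
    rw [hΦ, hΨ] at h2
    exact h2
  refine ⟨e.symm.toLinearMap ∘ₗ Ψ, ?_, ?_⟩
  · intro x
    have h1 := key x 0 (Nat.zero_le d)
    rw [pow_zero, pow_zero, Module.End.one_apply, Module.End.one_apply] at h1
    exact h1
  · intro x
    show e.symm (Ψ (N x)) = T (e.symm (Ψ x))
    rw [← sub_eq_zero]
    refine INT_nondeg T d w₀ hT hTw hW μ hμ _ fun j hj => ?_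
    rw [map_sub, map_sub, key (N x) j hj, ← Module.End.mul_apply, ← pow_succ,
      ← Module.End.mul_apply, ← pow_succ]
    rcases Nat.lt_or_eq_of_le hj with hlt | heq
    · rw [key x (j + 1) hlt, sub_self]
    · rw [heq, hT, hN, LinearMap.zero_apply, LinearMap.zero_apply, map_zero, map_zero, sub_self]

theorem INT_pair {F V W : Type} [Field F] [AddCommGroup V] [Module F V] [AddCommGroup W]
    [Module F W] (N : V →ₗ[F] V) (T : W →ₗ[F] W) (d : ℕ) (w₀ : W) (hT : T ^ (d + 1) = 0)
    (hTw : (T ^ d) w₀ ≠ 0) (hW : Module.finrank F W = d + 1) (hN : N ^ (d + 1) = 0)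
    (hN' : N ^ d ≠ 0) :
    ∃ (Θ : W →ₗ[F] V) (Ξ : V →ₗ[F] W), (∀ w, Ξ (Θ w) = w) ∧ (∀ w, Θ (T w) = N (Θ w)) ∧
      ∀ x, Ξ (N x) = T (Ξ x) := by
  obtain ⟨v, hv⟩ : ∃ v, (N ^ d) v ≠ 0 := by
    by_contra hcon
    exact hN' (LinearMap.ext fun v => by
      by_contra h1
      exact hcon ⟨v, h1⟩)
  obtain ⟨b, hb⟩ := INT_basis T d w₀ hT hTw hW
  obtain ⟨Θ, hΘ0, hΘ⟩ := INT_from N T d w₀ hT hTw hW hN v
  have hker : LinearMap.ker Θ = ⊥ := by
    rw [LinearMap.ker_eq_bot']
    intro w hw0
    have hw : ∑ i, b.repr w i • (T ^ (i : ℕ)) w₀ = w := by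
      have h1 := b.sum_repr w
      simpa only [hb] using h1
    have hc : ∀ j, b.repr w j = 0 := by
      intro j
      induction j using WellFoundedLT.induction with
      | ind j ih =>
        have h1 := INT_pow_sum T d w₀ hT (fun i => b.repr w i) j ih
        rw [hw] at h1
        have h2 : Θ ((T ^ (d - (j : ℕ))) w) = 0 := by
          rw [INT_pow_comm hΘ, hw0, map_zero]
        rw [h1, map_smul, INT_pow_comm hΘ, hΘ0] at h2
        exact (smul_eq_zero.1 h2).resolve_right hv
    rw [← hw]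
    exact Finset.sum_eq_zero fun i _ => by rw [hc i, zero_smul]
  obtain ⟨g, hg⟩ := Θ.exists_leftInverse_of_injective hker
  have hμ : b.coord (Fin.last d) ((T ^ d) w₀) ≠ 0 := by
    have h1 : b (Fin.last d) = (T ^ d) w₀ := by rw [hb, Fin.val_last]
    rw [← h1, Module.Basis.coord_apply, b.repr_self, Finsupp.single_eq_same]
    exact one_ne_zero
  obtain ⟨Ξ, hΞμ, hΞ⟩ := INT_to N T d w₀ hT hTw hW hN (b.coord (Fin.last d)) hμ
    ((b.coord (Fin.last d)) ∘ₗ g)
  refine ⟨Θ, Ξ, ?_, hΘ, hΞ⟩
  intro w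
  rw [← sub_eq_zero]
  refine INT_nondeg T d w₀ hT hTw hW (b.coord (Fin.last d)) hμ _ fun j _ => ?_
  have h1 : g (Θ ((T ^ j) w)) = (T ^ j) w := LinearMap.congr_fun hg ((T ^ j) w)
  rw [map_sub, map_sub, ← INT_pow_comm hΞ, hΞμ, ← INT_pow_comm hΘ, LinearMap.comp_apply, h1,
    sub_self]

end

end Pool.Agent.MP_1c8e06_ag.AL
end

section

set_option autoImplicit false

namespace Pool.Agent.MP_1c8e06_ag.AL

noncomputable section

variable {F V : Type} [Field F] [AddCommGroup V] [Module F V]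

/-- The subgroup `M` contains the transvections `x ↦ x + c f(x) a` for all scalars `c`. -/
def TP (M : Subgroup (V ≃ₗ[F] V)) (a : V) (f : Module.Dual F V) : Prop :=
  f a = 0 ∧ ∀ (c : F) (g : V ≃ₗ[F] V), (∀ x, g x = x + (c * f x) • a) → g ∈ M

/-!
# Task TP: calculus of transvections

For `f a = 0` the linear equivalence `x ↦ x + f x • a` is `LinearEquiv.transvection (h : f a = 0)` (`LinearEquiv.transvection.apply`), inverse
`x ↦ x - f x • a`.  The group law of `V ≃ₗ[F] V` is composition: `(g * h) x = g (h x)`.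
Proofs.
* `TP.smul_left`, `TP.smul_right`: `c * f x • (s • a) = (c * s) * f x • a` etc.
* `TP.add_right`: `g x = x + (c * (f x + f' x)) • a = g₁ (g₂ x)` with `g₂ x = x + (c * f' x) • a`, `g₁ x = x + (c * f x) • a` (`f a = 0`).
* `TP.add_left`: same with `g₁ x = x + (c * f x) • a`, `g₂ x = x + (c * f x) • b`.
* `TP.comm`: for scalars `s, t` let `A x = x + (s * f x) • a`, `B x = x + (t * g x) • b`.  `A B A⁻¹ B⁻¹ x = x + (s * t * f b * g x) • a`: check
  `A (B x) = (the map x ↦ x + (s t f(b) g(x)) a) (B (A x))`, using `f a = 0`, `g b = 0`, `g a = 0`.  Given `c` take `t := 1`, `s := c / f b`.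
* `TP.conj`: the element `g x = x + (c * f (h⁻¹ x)) • h a` is `h * g₀ * h⁻¹` with `g₀ x = x + (c * f x) • a`.
* `TP.comm_one_add`: let `A x = x + h x` (in `M`), `h (h x) = 0`, `f (h x) = 0` for all `x`; the commutator of `A` and `B x = x + (c * f x) • a` is
  `x ↦ x + (c * f x) • h a`: check `A (B x) = C (B (A x))` with `C x = x + (c * f x) • h a` (`f a = 0`, `f (h x) = 0`, `h (h a) = 0`).
* `TP.one_add_comm`: let `A x = x + h x` (in `M`), `h a = 0`, `f a = 0`; the commutator of `B x = x + (c * f x) • a` and `A` is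
  `x ↦ x + (c * f (h x)) • a`: check `B (A x) = C (A (B x))` with `C x = x + (c * f (h x)) • a` (`C` fixes `a`, as `h a = 0`).  To prove the statement for
  `C`, one needs `f (h (h x)) = 0` (hypothesis).
-/

private def TP_tv (η : V →ₗ[F] V) (h : ∀ x, η (η x) = 0) : V ≃ₗ[F] V :=
  LinearEquiv.ofLinear (LinearMap.id + η) (LinearMap.id - η)
    (by
      ext x
      simp only [LinearMap.comp_apply, LinearMap.add_apply, LinearMap.sub_apply,
        LinearMap.id_apply, map_sub, h]
      abel)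
    (by
      ext x
      simp only [LinearMap.comp_apply, LinearMap.add_apply, LinearMap.sub_apply,
        LinearMap.id_apply, map_add, h]
      abel)

private theorem TP_tv_apply (η : V →ₗ[F] V) (h : ∀ x, η (η x) = 0) (x : V) :
    TP_tv η h x = x + η x := rfl

private theorem TP_ex {a : V} {f : Module.Dual F V} (hfa : f a = 0) (c : F) :
    ∃ g : V ≃ₗ[F] V, ∀ x, g x = x + (c * f x) • a := by
  refine ⟨TP_tv (c • (LinearMap.smulRight f a)) ?_, ?_⟩
  · intro x
    simp [hfa]
  · intro x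
    rw [TP_tv_apply]
    simp [mul_smul]

private theorem TP_aux {M : Subgroup (V ≃ₗ[F] V)} {A B g : V ≃ₗ[F] V} (hA : A ∈ M) (hB : B ∈ M)
    (h : ∀ x, A (B x) = g (B (A x))) : g ∈ M := by
  have h1 : g * (B * A) = A * B := by
    ext x
    exact (h x).symm
  have h2 : g = A * B * (B * A)⁻¹ := by
    rw [← h1]
    group
  rw [h2]
  exact M.mul_mem (M.mul_mem hA hB) (M.inv_mem (M.mul_mem hB hA))

theorem TP.smul_left {M : Subgroup (V ≃ₗ[F] V)} {a : V} {f : Module.Dual F V} (h : TP M a f)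
    (s : F) : TP M (s • a) f := by
  refine ⟨by rw [map_smul, h.1, smul_zero], ?_⟩
  intro c g hg
  refine h.2 (c * s) g ?_
  intro x
  rw [hg x, smul_smul]
  congr 2
  ring

theorem TP.smul_right {M : Subgroup (V ≃ₗ[F] V)} {a : V} {f : Module.Dual F V} (h : TP M a f)
    (s : F) : TP M a (s • f) := by
  refine ⟨by rw [LinearMap.smul_apply, h.1, smul_zero], ?_⟩
  intro c g hg
  refine h.2 (c * s) g ?_
  intro x
  rw [hg x, LinearMap.smul_apply, smul_eq_mul, mul_assoc]

theorem TP.add_right {M : Subgroup (V ≃ₗ[F] V)} {a : V} {f f' : Module.Dual F V}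
    (h : TP M a f) (h' : TP M a f') : TP M a (f + f') := by
  refine ⟨by rw [LinearMap.add_apply, h.1, h'.1, add_zero], ?_⟩
  intro c g hg
  obtain ⟨g₁, hg₁⟩ := TP_ex h.1 c
  obtain ⟨g₂, hg₂⟩ := TP_ex h'.1 c
  have h1 : g = g₁ * g₂ := by
    ext x
    change g x = g₁ (g₂ x)
    rw [hg x, hg₁, hg₂, map_add, map_smul, h.1, smul_zero, add_zero, LinearMap.add_apply, mul_add,
      add_smul]
    abel
  rw [h1]
  exact M.mul_mem (h.2 c g₁ hg₁) (h'.2 c g₂ hg₂)

theorem TP.add_left {M : Subgroup (V ≃ₗ[F] V)} {a b : V} {f : Module.Dual F V}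
    (h : TP M a f) (h' : TP M b f) : TP M (a + b) f := by
  refine ⟨by rw [map_add, h.1, h'.1, add_zero], ?_⟩
  intro c g hg
  obtain ⟨g₁, hg₁⟩ := TP_ex h.1 c
  obtain ⟨g₂, hg₂⟩ := TP_ex h'.1 c
  have h1 : g = g₁ * g₂ := by
    ext x
    change g x = g₁ (g₂ x)
    rw [hg x, hg₁, hg₂, map_add, map_smul, h'.1, smul_zero, add_zero, smul_add]
    abel
  rw [h1]
  exact M.mul_mem (h.2 c g₁ hg₁) (h'.2 c g₂ hg₂)

theorem TP.comm {M : Subgroup (V ≃ₗ[F] V)} {a b : V} {f g : Module.Dual F V}
    (h : TP M a f) (h' : TP M b g) (hfb : f b ≠ 0) (hga : g a = 0) : TP M a g := by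
  refine ⟨hga, ?_⟩
  intro c C hC
  obtain ⟨A, hA⟩ := TP_ex h.1 (c / f b)
  obtain ⟨B, hB⟩ := TP_ex h'.1 (1 : F)
  refine TP_aux (h.2 _ A hA) (h'.2 _ B hB) ?_
  intro x
  have e1 : A (B x) = x + g x • b + (c / f b * f x) • a + (c * g x) • a := by
    rw [hA, hB, map_add, map_smul, one_mul, smul_eq_mul, mul_add, add_smul]
    have : c / f b * (g x * f b) = c * g x := by
      field_simp
    rw [this]
    abel
  have e2 : B (A x) = x + (c / f b * f x) • a + g x • b := by
    rw [hB, hA, map_add, map_smul, hga, smul_zero, add_zero, one_mul]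
  have e3 : g (B (A x)) = g x := by
    rw [e2, map_add, map_add, map_smul, map_smul, hga, h'.1, smul_zero, smul_zero, add_zero,
      add_zero]
  rw [e1, hC, e3, e2]
  abel

theorem TP.conj {M : Subgroup (V ≃ₗ[F] V)} {a : V} {f : Module.Dual F V} (h : TP M a f)
    (g : V ≃ₗ[F] V) (hg : g ∈ M) : TP M (g a) (f ∘ₗ g.symm.toLinearMap) := by
  refine ⟨?_, ?_⟩
  · change f (g.symm (g a)) = 0
    rw [LinearEquiv.symm_apply_apply, h.1]
  · intro c k hk
    obtain ⟨g₀, hg₀⟩ := TP_ex h.1 c
    have h1 : k = g * g₀ * g⁻¹ := by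
      ext x
      change k x = g (g₀ (g.symm x))
      rw [hk x, hg₀, map_add, map_smul, LinearEquiv.apply_symm_apply]
      rfl
    rw [h1]
    exact M.mul_mem (M.mul_mem hg (h.2 c g₀ hg₀)) (M.inv_mem hg)

theorem TP.comm_one_add {M : Subgroup (V ≃ₗ[F] V)} {a : V} {f : Module.Dual F V} (h : TP M a f)
    (η : V →ₗ[F] V) (hη : ∀ g : V ≃ₗ[F] V, (∀ x, g x = x + η x) → g ∈ M)
    (h2 : ∀ x, η (η x) = 0) (hf : ∀ x, f (η x) = 0) : TP M (η a) f := by
  refine ⟨hf a, ?_⟩
  intro c C hC
  obtain ⟨B, hB⟩ := TP_ex h.1 c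
  have hA := TP_tv_apply η h2
  refine TP_aux (A := TP_tv η h2) (hη _ hA) (h.2 _ B hB) ?_
  intro x
  have e1 : TP_tv η h2 (B x) = x + (c * f x) • a + η x + (c * f x) • η a := by
    rw [hA, hB, map_add, map_smul]
    abel
  have e2 : B (TP_tv η h2 x) = x + η x + (c * f x) • a := by
    rw [hB, hA, map_add, hf, add_zero]
  have e3 : f (B (TP_tv η h2 x)) = f x := by
    rw [e2, map_add, map_add, map_smul, hf, h.1, smul_zero, add_zero, add_zero]
  rw [e1, hC, e3, e2]
  abel

theorem TP.one_add_comm {M : Subgroup (V ≃ₗ[F] V)} {a : V} {f : Module.Dual F V} (h : TP M a f)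
    (η : V →ₗ[F] V) (hη : ∀ g : V ≃ₗ[F] V, (∀ x, g x = x + η x) → g ∈ M)
    (h2 : ∀ x, η (η x) = 0) (ha : η a = 0) : TP M a (f ∘ₗ η) := by
  refine ⟨?_, ?_⟩
  · change f (η a) = 0
    rw [ha, map_zero]
  intro c C hC
  obtain ⟨B, hB⟩ := TP_ex h.1 c
  have hA := TP_tv_apply η h2
  refine TP_aux (A := B) (B := TP_tv η h2) (h.2 _ B hB) (hη _ hA) ?_
  intro x
  have e1 : B (TP_tv η h2 x) = x + η x + (c * f x) • a + (c * f (η x)) • a := by
    rw [hB, hA, map_add, mul_add, add_smul]
    abel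
  have e2 : TP_tv η h2 (B x) = x + (c * f x) • a + η x := by
    rw [hA, hB, map_add, map_smul, ha, smul_zero, add_zero]
  have e3 : η (TP_tv η h2 (B x)) = η x := by
    rw [e2, map_add, map_add, map_smul, ha, h2, smul_zero, add_zero, add_zero]
  rw [e1, hC]
  change _ = _ + (c * f (η (TP_tv η h2 (B x)))) • a
  rw [e3, e2]
  abel

end

end Pool.Agent.MP_1c8e06_ag.AL
end

section

set_option autoImplicit false

namespace Pool.Agent.MP_1c8e06_ag.AL

noncomputable section

/-!
# Task TPg: elementary transvections generate the special linear group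

Proof.  Pass to matrices with respect to `B`: `LinearMap.toMatrix B B g` has determinant `1`.  By
`Matrix.Pivot.exists_list_transvec_mul_diagonal_mul_list_transvec` (`Mathlib/LinearAlgebra/Matrix/Transvection.lean`) every matrix over a field is
`L.prod * diagonal D * L'.prod` with lists of transvection matrices `1 + c E_ij` (`i ≠ j`; `Matrix.TransvectionStruct`), which correspond to
the maps `x ↦ x + (c * B.coord j x) • B i` in `M` (`hM`).  `∏ D i = 1` (determinants of transvections are `1`), and it remains to see that the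
diagonal map of `D` is in `M`: induction on the number of `i` with `D i ≠ 1`.  If it is not `0` there are `i ≠ j` with `D i ≠ 1`
(and `D j ≠ 1`, because of the product).  With `x_ij(c) := 1 + c E_ij`, `w(d) := x_ij(d) x_ji(-d⁻¹) x_ij(d)` the element
`w(d) * w(-1)` is the diagonal matrix with entries `d` at `i`, `d⁻¹` at `j` and `1` elsewhere; multiply `diagonal D` by its inverse for
`d := D i`: the number of entries different from `1` decreases (the entry at `i` becomes `1`).
-/

/-- the elementary transvection -/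
private def TPg_x {F V : Type} [Field F] [AddCommGroup V] [Module F V] {ι : Type} (B : Module.Basis ι F V)
    {i j : ι} (hij : i ≠ j) (c : F) : V ≃ₗ[F] V :=
  LinearEquiv.transvection (f := c • B.coord j) (v := B i) (by
    rw [LinearMap.smul_apply, Module.Basis.coord_apply, Module.Basis.repr_self, Finsupp.single_eq_of_ne (by exact hij.symm),
      smul_zero])

private theorem TPg_x_apply {F V : Type} [Field F] [AddCommGroup V] [Module F V] {ι : Type}
    (B : Module.Basis ι F V) {i j : ι} (hij : i ≠ j) (c : F) (x : V) :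
    TPg_x B hij c x = x + (c * B.coord j x) • B i := rfl

private theorem TPg_x_self {F V : Type} [Field F] [AddCommGroup V] [Module F V] {ι : Type}
    (B : Module.Basis ι F V) {i j : ι} (hij : i ≠ j) (c : F) :
    TPg_x B hij c (B j) = B j + c • B i := by
  rw [TPg_x_apply, Module.Basis.coord_apply, Module.Basis.repr_self, Finsupp.single_eq_same, mul_one]

private theorem TPg_x_ne {F V : Type} [Field F] [AddCommGroup V] [Module F V] {ι : Type}
    (B : Module.Basis ι F V) {i j : ι} (hij : i ≠ j) (c : F) {k : ι} (hk : k ≠ j) :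
    TPg_x B hij c (B k) = B k := by
  rw [TPg_x_apply, Module.Basis.coord_apply, Module.Basis.repr_self, Finsupp.single_eq_of_ne (by exact hk.symm), mul_zero,
    zero_smul, add_zero]

private theorem TPg_x_mem {F V : Type} [Field F] [AddCommGroup V] [Module F V] {ι : Type}
    (B : Module.Basis ι F V) (M : Subgroup (V ≃ₗ[F] V))
    (hM : ∀ i j, i ≠ j → TP M (B i) (B.coord j)) {i j : ι} (hij : i ≠ j) (c : F) : TPg_x B hij c ∈ M :=
  (hM i j hij).2 c _ fun x => TPg_x_apply B hij c x

theorem TP_gen {F V : Type} [Field F] [AddCommGroup V] [Module F V] {ι : Type} [Fintype ι]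
    [DecidableEq ι] (B : Module.Basis ι F V) (M : Subgroup (V ≃ₗ[F] V))
    (hM : ∀ i j, i ≠ j → TP M (B i) (B.coord j)) (g : V ≃ₗ[F] V)
    (hg : LinearMap.det g.toLinearMap = 1) : g ∈ M := by
  have hdet : (LinearMap.toMatrix B B g.toLinearMap).det = 1 := by rw [LinearMap.det_toMatrix, hg]
  rcases subsingleton_or_nontrivial ι with hs | hn
  · have h1 : LinearMap.toMatrix B B g.toLinearMap = 1 := by
      ext i j
      obtain rfl : i = j := Subsingleton.elim _ _
      rw [Matrix.one_apply_eq, ← hdet]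
      exact (Matrix.det_eq_elem_of_subsingleton _ i).symm
    have h2 : g = 1 := by
      apply LinearEquiv.toLinearMap_injective
      apply (LinearMap.toMatrix B B).injective
      rw [h1]
      exact (LinearMap.toMatrix_one B).symm
    rw [h2]
    exact M.one_mem
  · have H : ∀ A : Matrix.SpecialLinearGroup ι F, ∀ g : V ≃ₗ[F] V,
        g.toLinearMap = Matrix.toLin B B A.1 → g ∈ M := by
      intro A
      refine Matrix.SpecialLinearGroup.diagonal_transvection_induction'
        (fun A => ∀ g : V ≃ₗ[F] V, g.toLinearMap = Matrix.toLin B B A.1 → g ∈ M) A ?_ ?_ ?_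
      · intro i j hij c hc g hg
        have h1 : g = (TPg_x B hij c * TPg_x B hij.symm (-c⁻¹) * TPg_x B hij c) *
            (TPg_x B hij (-1) * TPg_x B hij.symm 1 * TPg_x B hij (-1)) := by
          apply LinearEquiv.toLinearMap_injective
          refine B.ext fun k => ?_
          have h2 : g.toLinearMap (B k) = (if k = i then c else if k = j then c⁻¹ else 1) • B k := by
            rw [hg, Matrix.toLin_self, Finset.sum_eq_single k]
            · rw [Matrix.SpecialLinearGroup.diag2n_coe, Matrix.diagonal_apply_eq]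
            · intro m _ hm
              rw [Matrix.SpecialLinearGroup.diag2n_coe, Matrix.diagonal_apply_ne _ hm, zero_smul]
            · intro h; exact absurd (Finset.mem_univ _) h
          rw [h2]
          simp only [LinearEquiv.coe_coe, LinearEquiv.mul_apply]
          by_cases hki : k = i
          · subst hki
            rw [if_pos rfl, TPg_x_ne B hij (-1) hij, TPg_x_self B hij.symm 1, map_add, map_smul,
              TPg_x_ne B hij (-1) hij, TPg_x_self B hij (-1)]
            have h3 : B k + (1 : F) • (B j + (-1 : F) • B k) = B j := by module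
            rw [h3, TPg_x_self B hij c, map_add, map_smul, TPg_x_ne B hij.symm _ hij.symm, TPg_x_self B hij.symm,
              map_add, map_smul, map_add, map_smul, TPg_x_self B hij c, TPg_x_ne B hij c hij]
            have h4 : c • (-c⁻¹) • (B j + c • B k) = -(B j + c • B k) := by
              rw [smul_smul, mul_neg, mul_inv_cancel₀ hc, neg_one_smul]
            rw [smul_add, h4]
            module
          · rw [if_neg hki]
            by_cases hkj : k = j
            · subst hkj
              rw [if_pos rfl, TPg_x_self B hij (-1), map_add, map_smul, TPg_x_ne B hij.symm 1 hij.symm,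
                TPg_x_self B hij.symm 1]
              have h3 : B k + (-1 : F) • (B i + (1 : F) • B k) = -B i := by module
              rw [h3, map_neg, map_neg, map_neg, map_neg, TPg_x_ne B hij (-1) hij, TPg_x_ne B hij c hij,
                TPg_x_self B hij.symm, map_add, map_smul, TPg_x_ne B hij c hij, TPg_x_self B hij c, smul_add,
                smul_smul, neg_mul, inv_mul_cancel₀ hc]
              module
            · rw [if_neg hkj, TPg_x_ne B hij (-1) hkj, TPg_x_ne B hij.symm 1 hki, TPg_x_ne B hij (-1) hkj,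
                TPg_x_ne B hij c hkj, TPg_x_ne B hij.symm _ hki, TPg_x_ne B hij c hkj, one_smul]
        rw [h1]
        exact M.mul_mem (M.mul_mem (M.mul_mem (TPg_x_mem B M hM _ _) (TPg_x_mem B M hM _ _)) (TPg_x_mem B M hM _ _))
          (M.mul_mem (M.mul_mem (TPg_x_mem B M hM _ _) (TPg_x_mem B M hM _ _)) (TPg_x_mem B M hM _ _))
      · intro i j hij a g hg
        have h1 : g = TPg_x B hij a := by
          apply LinearEquiv.toLinearMap_injective
          refine B.ext fun k => ?_
          rw [hg, Matrix.toLin_self, Matrix.SpecialLinearGroup.transvection_coe]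
          simp only [Matrix.add_apply, add_smul, Finset.sum_add_distrib, LinearEquiv.coe_coe]
          have h2 : ∑ m, (1 : Matrix ι ι F) m k • B m = B k := by
            rw [Finset.sum_eq_single k]
            · rw [Matrix.one_apply_eq, one_smul]
            · intro m _ hm
              rw [Matrix.one_apply_ne hm, zero_smul]
            · intro h; exact absurd (Finset.mem_univ _) h
          rw [h2]
          by_cases hkj : k = j
          · subst hkj
            rw [TPg_x_self, Finset.sum_eq_single i]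
            · rw [Matrix.single_apply_same]
            · intro m _ hm
              rw [Matrix.single_apply_of_row_ne hm.symm, zero_smul]
            · intro h; exact absurd (Finset.mem_univ _) h
          · rw [TPg_x_ne B hij a hkj, Finset.sum_eq_zero, add_zero]
            intro m _
            rw [Matrix.single_apply_of_col_ne _ _ (Ne.symm hkj), zero_smul]
        rw [h1]
        exact TPg_x_mem B M hM _ _
      · intro A₁ A₂ h₁ h₂ g hg
        have hu₁ : IsUnit A₁.1.det := by rw [A₁.2]; exact isUnit_one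
        have hu₂ : IsUnit A₂.1.det := by rw [A₂.2]; exact isUnit_one
        have e₁ : (Matrix.toLinearEquiv B A₁.1 hu₁).toLinearMap = Matrix.toLin B B A₁.1 := rfl
        have e₂ : (Matrix.toLinearEquiv B A₂.1 hu₂).toLinearMap = Matrix.toLin B B A₂.1 := rfl
        have h3 : g = Matrix.toLinearEquiv B A₁.1 hu₁ * Matrix.toLinearEquiv B A₂.1 hu₂ := by
          apply LinearEquiv.toLinearMap_injective
          rw [hg, Matrix.SpecialLinearGroup.coe_mul, Matrix.toLin_mul B B B]
          rfl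
        rw [h3]
        exact M.mul_mem (h₁ _ e₁) (h₂ _ e₂)
    refine H ⟨LinearMap.toMatrix B B g.toLinearMap, hdet⟩ g ?_
    exact (Matrix.toLin_toMatrix B B g.toLinearMap).symm

end

end Pool.Agent.MP_1c8e06_ag.AL
end

section

set_option autoImplicit false

open Polynomial

namespace Pool.Agent.MP_1c8e06_ag.AL

noncomputable section

/-!
# Task TPa: from a block to the whole space

`V' := {v | f j v = 0 for all j ≤ d}`, `V = span (b j) ⊕ V'` (`x = ∑_{j ≤ d} f j x • b j + (rest in V')`).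
Proofs.
* `TP_mix1`: let `η` be from `h1 v`: `η (b 0) = v`, the image of `η` is in `V'`, `η` kills `V'`, so `η (η x) = 0`, `f j (η x) = 0`.  For `1 ≤ j ≤ d`:
  `TP.comm_one_add` for `hblock 0 j`: `TP M (η (b 0)) (f j) = TP M v (f j)`.  For `j = 0`: `TP.comm` for `TP M v (f 1)` and `hblock 1 0 :
  TP M (b 1) (f 0)`: `f 1 (b 1) = 1`, `f 0 v = 0`.
* `TP_mix2`: let `η` be from `h2 ℓ`: `f d (η x) = ℓ x`, `η` kills the `b j`, its image is in their span, so `η (η x) = 0`.  For `j < d`:
  `TP.one_add_comm` for `hblock j d`: `TP M (b j) (f d ∘ η) = TP M (b j) ℓ`.  For `j = d`: `TP.comm` for `hblock d 0 : TP M (b d) (f 0)` and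
  `TP M (b 0) ℓ`: `f 0 (b 0) = 1`, `ℓ (b d) = 0`.
* `TP_all`: `TP M v ℓ` for `v ∈ V'`, `ℓ (b j) = 0` for all `j`, `ℓ v = 0`: `TP.comm` for `TP_mix1 : TP M v (f 0)` and `TP_mix2 : TP M (b 0) ℓ`.
  Take a basis `c` of `V'` (finite dimensional); the `b j` (`j ≤ d`) and the `c l` form a basis `B` of `V` indexed by `Fin (d+1) ⊕ Fin r`
  (`Module.Basis.mk` or `Basis.prod` with the isomorphism `V ≃ (Fin (d+1) → F) × V'`); `B.coord (inl j) = f j`, and `B.coord (inr l)` kills
  the `b j`.  The four kinds of pairs are covered by `hblock`, `TP_mix1`, `TP_mix2` and `TP M v ℓ`; `TP_gen`.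
-/

theorem TP_mix1 {F V : Type} [Field F] [AddCommGroup V] [Module F V]
    (M : Subgroup (V ≃ₗ[F] V)) (d : ℕ) (hd : 1 ≤ d) (b : ℕ → V) (f : ℕ → Module.Dual F V)
    (hfb : ∀ i j, i ≤ d → j ≤ d → f i (b j) = if i = j then 1 else 0)
    (hblock : ∀ i j, i ≤ d → j ≤ d → i ≠ j → TP M (b i) (f j))
    (h1 : ∀ v : V, (∀ j ≤ d, f j v = 0) → ∃ η : V →ₗ[F] V, η (b 0) = v ∧
      (∀ x, ∀ j ≤ d, f j (η x) = 0) ∧
      (∀ x, η x = ∑ j ∈ Finset.range (d + 1), f j x • η (b j)) ∧
      ∀ g : V ≃ₗ[F] V, (∀ x, g x = x + η x) → g ∈ M)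
    (v : V) (hv : ∀ j ≤ d, f j v = 0) (j : ℕ) (hj : j ≤ d) : TP M v (f j) := by
  have key : ∀ j, j ≤ d → j ≠ 0 → TP M v (f j) := by
    intro j hj hj0
    obtain ⟨η, hη0, hη1, hη2, hη3⟩ := h1 v hv
    have hηη : ∀ x, η (η x) = 0 := by
      intro x
      rw [hη2 (η x)]
      refine Finset.sum_eq_zero fun i hi => ?_
      rw [hη1 x i (Nat.lt_succ_iff.1 (Finset.mem_range.1 hi)), zero_smul]
    have h3 := (hblock 0 j (Nat.zero_le _) hj (Ne.symm hj0)).comm_one_add η hη3 hηη (fun x => hη1 x j hj)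
    rw [hη0] at h3
    exact h3
  by_cases hj0 : j = 0
  · subst hj0
    refine (key 1 hd one_ne_zero).comm (hblock 1 0 hd (Nat.zero_le _) one_ne_zero) ?_ (hv 0 (Nat.zero_le _))
    rw [hfb 1 1 hd hd, if_pos rfl]
    exact one_ne_zero
  · exact key j hj hj0

theorem TP_mix2 {F V : Type} [Field F] [AddCommGroup V] [Module F V]
    (M : Subgroup (V ≃ₗ[F] V)) (d : ℕ) (hd : 1 ≤ d) (b : ℕ → V) (f : ℕ → Module.Dual F V)
    (hfb : ∀ i j, i ≤ d → j ≤ d → f i (b j) = if i = j then 1 else 0)
    (hblock : ∀ i j, i ≤ d → j ≤ d → i ≠ j → TP M (b i) (f j))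
    (h2 : ∀ ℓ : Module.Dual F V, (∀ j ≤ d, ℓ (b j) = 0) → ∃ η : V →ₗ[F] V,
      (∀ x, f d (η x) = ℓ x) ∧ (∀ j ≤ d, η (b j) = 0) ∧
      (∀ x, η x = ∑ j ∈ Finset.range (d + 1), f j (η x) • b j) ∧
      ∀ g : V ≃ₗ[F] V, (∀ x, g x = x + η x) → g ∈ M)
    (ℓ : Module.Dual F V) (hℓ : ∀ j ≤ d, ℓ (b j) = 0) (j : ℕ) (hj : j ≤ d) : TP M (b j) ℓ := by
  have key : ∀ j, j < d → TP M (b j) ℓ := by
    intro j hj
    obtain ⟨η, hη0, hη1, hη2, hη3⟩ := h2 ℓ hℓ
    have hηη : ∀ x, η (η x) = 0 := by
      intro x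
      rw [hη2 x, map_sum]
      refine Finset.sum_eq_zero fun i hi => ?_
      rw [map_smul, hη1 i (Nat.lt_succ_iff.1 (Finset.mem_range.1 hi)), smul_zero]
    have h3 := (hblock j d hj.le (le_refl d) hj.ne).one_add_comm η hη3 hηη (hη1 j hj.le)
    have h4 : f d ∘ₗ η = ℓ := by
      ext x
      exact hη0 x
    rw [h4] at h3
    exact h3
  by_cases hjd : j = d
  · subst hjd
    refine (hblock j 0 (le_refl _) (Nat.zero_le _) (by omega)).comm (key 0 (by omega)) ?_ (hℓ j (le_refl _))
    rw [hfb 0 0 (Nat.zero_le _) (Nat.zero_le _), if_pos rfl]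
    exact one_ne_zero
  · exact key j (by omega)

theorem TP_all {F V : Type} [Field F] [AddCommGroup V] [Module F V] [FiniteDimensional F V]
    (M : Subgroup (V ≃ₗ[F] V)) (d : ℕ) (hd : 1 ≤ d) (b : ℕ → V) (f : ℕ → Module.Dual F V)
    (hfb : ∀ i j, i ≤ d → j ≤ d → f i (b j) = if i = j then 1 else 0)
    (hblock : ∀ i j, i ≤ d → j ≤ d → i ≠ j → TP M (b i) (f j))
    (h1 : ∀ v : V, (∀ j ≤ d, f j v = 0) → ∃ η : V →ₗ[F] V, η (b 0) = v ∧
      (∀ x, ∀ j ≤ d, f j (η x) = 0) ∧
      (∀ x, η x = ∑ j ∈ Finset.range (d + 1), f j x • η (b j)) ∧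
      ∀ g : V ≃ₗ[F] V, (∀ x, g x = x + η x) → g ∈ M)
    (h2 : ∀ ℓ : Module.Dual F V, (∀ j ≤ d, ℓ (b j) = 0) → ∃ η : V →ₗ[F] V,
      (∀ x, f d (η x) = ℓ x) ∧ (∀ j ≤ d, η (b j) = 0) ∧
      (∀ x, η x = ∑ j ∈ Finset.range (d + 1), f j (η x) • b j) ∧
      ∀ g : V ≃ₗ[F] V, (∀ x, g x = x + η x) → g ∈ M)
    (g : V ≃ₗ[F] V) (hg : LinearMap.det g.toLinearMap = 1) : g ∈ M := by
  classical
  have mix3 : ∀ (v : V) (ℓ : Module.Dual F V), (∀ j ≤ d, f j v = 0) → (∀ j ≤ d, ℓ (b j) = 0) → ℓ v = 0 →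
      TP M v ℓ := by
    intro v ℓ hv hℓ hℓv
    refine (TP_mix1 M d hd b f hfb hblock h1 v hv 0 (Nat.zero_le _)).comm
      (TP_mix2 M d hd b f hfb hblock h2 ℓ hℓ 0 (Nat.zero_le _)) ?_ hℓv
    rw [hfb 0 0 (Nat.zero_le _) (Nat.zero_le _), if_pos rfl]
    exact one_ne_zero
  -- the complement
  let V' : Submodule F V :=
    { carrier := {v | ∀ j ≤ d, f j v = 0}
      add_mem' := fun {x y} hx hy j hj => by
        show f j (x + y) = 0
        rw [map_add, hx j hj, hy j hj, add_zero]
      zero_mem' := fun j _ => map_zero _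
      smul_mem' := fun c x hx j hj => by
        show f j (c • x) = 0
        rw [map_smul, hx j hj, smul_zero] }
  let pr : V →ₗ[F] V := LinearMap.id - ∑ i : Fin (d + 1), (f i).smulRight (b i)
  have hpr : ∀ x, pr x = x - ∑ i : Fin (d + 1), f i x • b i := by
    intro x
    simp only [pr, LinearMap.sub_apply, LinearMap.id_apply, LinearMap.sum_apply, LinearMap.smulRight_apply]
  have hsum : ∀ (a : Fin (d + 1) → F) (j : ℕ) (hj : j ≤ d), f j (∑ i : Fin (d + 1), a i • b i) = a ⟨j, by omega⟩ := by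
    intro a j hj
    rw [map_sum, Finset.sum_eq_single (⟨j, by omega⟩ : Fin (d + 1))]
    · rw [map_smul, hfb j j hj hj, if_pos rfl, smul_eq_mul, mul_one]
    · intro i _ hi
      have hne : ¬ (j = (i : ℕ)) := fun h => hi (Fin.ext h.symm)
      rw [map_smul, hfb j i hj (by omega), if_neg hne, smul_zero]
    · intro h
      exact absurd (Finset.mem_univ _) h
  have hprV : ∀ x, pr x ∈ V' := by
    intro x j hj
    rw [hpr, map_sub, hsum (fun i => f i x) j hj, sub_self]
  let e1 : V →ₗ[F] (Fin (d + 1) → F) × V' :=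
    (LinearMap.pi fun i : Fin (d + 1) => f i).prod (pr.codRestrict V' hprV)
  let e2 : (Fin (d + 1) → F) × V' →ₗ[F] V :=
    (∑ i : Fin (d + 1), (LinearMap.proj i : (Fin (d + 1) → F) →ₗ[F] F).smulRight (b i)).coprod V'.subtype
  have he2 : ∀ (a : Fin (d + 1) → F) (w : V'), e2 (a, w) = ∑ i : Fin (d + 1), a i • b i + (w : V) := by
    intro a w
    simp only [e2, LinearMap.coprod_apply, LinearMap.sum_apply, LinearMap.smulRight_apply, LinearMap.proj_apply,
      Submodule.subtype_apply]
  have he1 : ∀ x, e1 x = (fun i : Fin (d + 1) => f i x, ⟨pr x, hprV x⟩) := fun x => rfl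
  let e : V ≃ₗ[F] (Fin (d + 1) → F) × V' := LinearEquiv.ofLinearMap e1 e2 (by
      refine LinearMap.ext fun q => ?_
      obtain ⟨a, w⟩ := q
      show e1 (e2 (a, w)) = (a, w)
      rw [he1, he2]
      have h3 : ∀ i : Fin (d + 1), f i (∑ i : Fin (d + 1), a i • b i + (w : V)) = a i := by
        intro i
        rw [map_add, hsum a i (by omega), w.2 i (by omega), add_zero]
      refine Prod.ext (funext fun i => h3 i) (Subtype.ext ?_)
      show pr _ = _
      rw [hpr]
      simp only [h3]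
      rw [add_sub_cancel_left]) (by
      refine LinearMap.ext fun x => ?_
      show e2 (e1 x) = x
      rw [he1, he2]
      show ∑ i : Fin (d + 1), f i x • b i + pr x = x
      rw [hpr, add_sub_cancel])
  let c := Module.finBasis F V'
  let B : Module.Basis (Fin (d + 1) ⊕ Fin (Module.finrank F V')) F V :=
    ((Pi.basisFun F (Fin (d + 1))).prod c).map e.symm
  have hBl : ∀ i : Fin (d + 1), B (Sum.inl i) = b i := by
    intro i
    show e2 (((Pi.basisFun F (Fin (d + 1))).prod c) (Sum.inl i)) = b i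
    rw [Module.Basis.prod_apply]
    simp only [Sum.elim_inl, Function.comp_apply, LinearMap.inl_apply]
    rw [he2, Pi.basisFun_apply, Finset.sum_eq_single i]
    · simp
    · intro j _ hj
      rw [Pi.single_eq_of_ne hj, zero_smul]
    · intro h
      exact absurd (Finset.mem_univ _) h
  have hBr : ∀ l, B (Sum.inr l) = (c l : V) := by
    intro l
    show e2 (((Pi.basisFun F (Fin (d + 1))).prod c) (Sum.inr l)) = (c l : V)
    rw [Module.Basis.prod_apply]
    simp only [Sum.elim_inr, Function.comp_apply, LinearMap.inr_apply]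
    rw [he2]
    simp
  have hcoordl : ∀ j : Fin (d + 1), B.coord (Sum.inl j) = f j := by
    intro j
    refine B.ext fun i => ?_
    rw [Module.Basis.coord_apply, Module.Basis.repr_self]
    rcases i with i | l
    · rw [hBl, hfb j i (by omega) (by omega)]
      by_cases hij : i = j
      · subst hij
        simp
      · rw [Finsupp.single_eq_of_ne (by
          intro h
          exact hij (Sum.inl.inj h).symm), if_neg (fun h => hij (Fin.ext h.symm))]
    · rw [hBr, (c l).2 j (by omega), Finsupp.single_eq_of_ne (by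
        intro h
        exact absurd h (by simp))]
  have hcr : ∀ (l : Fin (Module.finrank F V')) (j : ℕ), j ≤ d → B.coord (Sum.inr l) (b j) = 0 := by
    intro l j hj
    have h3 := hBl ⟨j, by omega⟩
    have h4 : b j = B (Sum.inl ⟨j, by omega⟩) := h3.symm
    rw [h4, Module.Basis.coord_apply, Module.Basis.repr_self, Finsupp.single_eq_of_ne (by
      intro h
      exact absurd h (by simp))]
  refine TP_gen B M ?_ g hg
  intro i j hij
  rcases i with i | l <;> rcases j with j | l'
  · rw [hBl, hcoordl]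
    exact hblock i j (by omega) (by omega) (fun h => hij (by rw [Fin.ext h]))
  · rw [hBl]
    exact TP_mix2 M d hd b f hfb hblock h2 _ (fun j hj => hcr l' j hj) i (by omega)
  · rw [hBr, hcoordl]
    exact TP_mix1 M d hd b f hfb hblock h1 _ (fun j hj => (c l).2 j hj) j (by omega)
  · rw [hBr]
    refine mix3 _ _ (fun j hj => (c l).2 j hj) (fun j hj => hcr l' j hj) ?_
    rw [← hBr, Module.Basis.coord_apply, Module.Basis.repr_self, Finsupp.single_eq_of_ne (Ne.symm hij)]

end

end Pool.Agent.MP_1c8e06_ag.AL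
end

section

set_option autoImplicit false

open Polynomial

namespace Pool.Agent.MP_1c8e06_ag.AL

noncomputable section

/-!
# Task TPb: all elementary transvections of a block

Setting: vectors `b 0, …, b d`, functionals `f 0, …, f d` with `f i (b j) = δ_ij`, `D x = ∑_{j<d} f j x • b (j+1)`; so `D (b j) = b (j+1)` for `j < d`,
`D (b d) = 0`, `f (j+1) (D x) = f j x` for `j < d`, `f 0 (D x) = 0`; hence `D ^ l (b j) = b (j + l)` if `j + l ≤ d` and `0` otherwise,
`f j (D ^ l x) = f (j - l) x` if `l ≤ j` and `0` otherwise, `D ^ (d + 1) = 0`.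
For a polynomial `q` with `q.coeff 0 = 0` the map `1 + q(D)` is invertible (unipotent: `q(D)` is nilpotent, `IsNilpotent.isUnit_one_add`), and the
corresponding linear equivalence is in `M` (`hM`); so is its inverse.
Proof.
(1) `TP M (b 0) (f (d - 1))` if `d ≥ 2`: let `t` be the equivalence `1 + D`, `h := t⁻¹ ∈ M`.  `TP.conj` for `hT` and `h`:
    `TP M (h (b 0)) (f d ∘ t)`, `f d ∘ t = f d + f (d-1)`.  `h (b 0) = ∑_{l ≤ d} (-1)^l • b l` (apply `t`), so `f d (h (b 0)) = (-1)^d ≠ 0`.
    `(f d ∘ t) (b 0) = 0` as `d ≥ 2`.  `TP.comm hT this`: `TP M (b 0) (f d + f (d-1))`; subtract `hT` (`TP.add_right`, `TP.smul_right`).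
(2) `TP M (b 0) (f (d - 1 - i))` for `1 ≤ i ≤ d - 2`: let `t₀ := 1 + D^i`, `h₀ := t₀⁻¹`.  If `f d (h₀ (b 0)) ≠ 0` put `t := t₀`; otherwise
    `t := 1 + D^i + D^d = t₀ (1 + D^d)`, `h := t⁻¹ = (1 - D^d) h₀`, and `f d (h (b 0)) = f d (h₀ (b 0)) - f d (D^d (h₀ (b 0))) = 0 - f 0 (h₀ (b 0)) = -1`
    (`f 0 (h₀ x) = f 0 x`, because `f 0 (t₀ x) = f 0 x`).  In both cases `f d (h (b 0)) ≠ 0`.  `TP.conj` for (1) and `h`:
    `TP M (h (b 0)) (f (d-1) ∘ t)`, `f (d-1) ∘ t = f (d-1) + f (d-1-i)` (`f (d-1) ∘ D^d = 0`), which vanishes at `b 0` (`d - 1 ≠ 0`, `d-1-i ≠ 0`).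
    `TP.comm hT this`: `TP M (b 0) (f (d-1) + f (d-1-i))`; subtract (1).
    So `TP M (b 0) (f l)` for all `1 ≤ l ≤ d`.
(3) `TP M (b i) (f j)` for `1 ≤ i ≤ d`, `1 ≤ j ≤ d`, `j ≠ i`: let `z` be the equivalence `1 + D^i`.  `f j ∘ z = f j + f (j-i)` if `i < j` and `f j` if
    `j < i`: in both cases `TP M (b 0) (f j ∘ z)` by (2).  `TP.conj` with `z`: `TP M (b 0 + b i) (f j ∘ z ∘ z⁻¹) = TP M (b 0 + b i) (f j)`.
    Subtract `TP M (b 0) (f j)` (`TP.add_left`, `TP.smul_left`).
(4) `TP M (b d) (f 0)`: `D^d x = f 0 x • b d`; `hM` for `q = C c * X^d` (`d ≥ 1`).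
(5) `TP M (b i) (f 0)` for `1 ≤ i < d`: `TP.comm` for (3) `TP M (b i) (f d)` and (4): `f d (b d) = 1`, `f 0 (b i) = 0`.
-/

section aux
variable {F V : Type} [Field F] [AddCommGroup V] [Module F V] {d : ℕ} {b : ℕ → V}
  {f : ℕ → Module.Dual F V} {D : V →ₗ[F] V}

private theorem TPb_Db (hfb : ∀ i j, i ≤ d → j ≤ d → f i (b j) = if i = j then 1 else 0)
    (hD : ∀ x, D x = ∑ j ∈ Finset.range d, f j x • b (j + 1)) {j : ℕ} (hj : j ≤ d) :
    D (b j) = if j < d then b (j + 1) else 0 := by
  rw [hD]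
  split_ifs with h
  · rw [Finset.sum_eq_single j]
    · rw [hfb j j hj hj, if_pos rfl, one_smul]
    · intro i hi hij
      rw [hfb i j (Finset.mem_range.1 hi).le hj, if_neg hij, zero_smul]
    · intro h1
      exact absurd (Finset.mem_range.2 h) h1
  · refine Finset.sum_eq_zero fun i hi => ?_
    have h1 := Finset.mem_range.1 hi
    rw [hfb i j h1.le hj, if_neg (by omega), zero_smul]

private theorem TPb_fD (hfb : ∀ i j, i ≤ d → j ≤ d → f i (b j) = if i = j then 1 else 0)
    (hD : ∀ x, D x = ∑ j ∈ Finset.range d, f j x • b (j + 1)) {j : ℕ} (hj : j ≤ d) (x : V) :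
    f j (D x) = if 1 ≤ j then f (j - 1) x else 0 := by
  rw [hD, map_sum]
  split_ifs with h
  · rw [Finset.sum_eq_single (j - 1)]
    · rw [map_smul, hfb j _ hj (by omega), if_pos (by omega), smul_eq_mul, mul_one]
    · intro i hi hij
      have h1 := Finset.mem_range.1 hi
      rw [map_smul, hfb j _ hj (by omega), if_neg (by omega), smul_zero]
    · intro h1
      exact absurd (Finset.mem_range.2 (by omega)) h1
  · refine Finset.sum_eq_zero fun i hi => ?_
    have h1 := Finset.mem_range.1 hi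
    rw [map_smul, hfb j _ hj (by omega), if_neg (by omega), smul_zero]

private theorem TPb_fDp (hfb : ∀ i j, i ≤ d → j ≤ d → f i (b j) = if i = j then 1 else 0)
    (hD : ∀ x, D x = ∑ j ∈ Finset.range d, f j x • b (j + 1)) (l : ℕ) :
    ∀ {j : ℕ}, j ≤ d → ∀ x : V, f j ((D ^ l) x) = if l ≤ j then f (j - l) x else 0 := by
  induction l with
  | zero => intro j _ x; simp
  | succ l ih =>
    intro j hj x
    rw [pow_succ, Module.End.mul_apply, ih hj]
    by_cases h1 : l ≤ j
    · rw [if_pos h1, TPb_fD hfb hD (by omega)]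
      by_cases h2 : l + 1 ≤ j
      · rw [if_pos h2, if_pos (by omega), Nat.sub_sub]
      · rw [if_neg h2, if_neg (by omega)]
    · rw [if_neg h1, if_neg (by omega)]

private theorem TPb_Dpb (hfb : ∀ i j, i ≤ d → j ≤ d → f i (b j) = if i = j then 1 else 0)
    (hD : ∀ x, D x = ∑ j ∈ Finset.range d, f j x • b (j + 1)) (l : ℕ) {j : ℕ} (hj : j ≤ d) :
    (D ^ l) (b j) = if j + l ≤ d then b (j + l) else 0 := by
  induction l with
  | zero => simp [hj]
  | succ l ih =>
    rw [pow_succ', Module.End.mul_apply, ih]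
    by_cases h1 : j + l ≤ d
    · rw [if_pos h1, TPb_Db hfb hD h1]
      by_cases h2 : j + l < d
      · rw [if_pos h2, if_pos (by omega), add_assoc]
      · rw [if_neg h2, if_neg (by omega)]
    · rw [if_neg h1, map_zero, if_neg (by omega)]

private theorem TPb_Dd (hd : 1 ≤ d)
    (hfb : ∀ i j, i ≤ d → j ≤ d → f i (b j) = if i = j then 1 else 0)
    (hD : ∀ x, D x = ∑ j ∈ Finset.range d, f j x • b (j + 1)) (x : V) :
    (D ^ d) x = f 0 x • b d := by
  obtain ⟨e, rfl⟩ : ∃ e, d = e + 1 := ⟨d - 1, by omega⟩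
  rw [pow_succ, Module.End.mul_apply, hD x, map_sum, Finset.sum_eq_single 0]
  · rw [map_smul, TPb_Dpb hfb hD e (by omega), if_pos (by omega)]
    congr 2
    omega
  · intro i hi hi0
    have h1 := Finset.mem_range.1 hi
    rw [map_smul, TPb_Dpb hfb hD e (by omega), if_neg (by omega), smul_zero]
  · intro h
    exact absurd (Finset.mem_range.2 (by omega)) h

private theorem TPb_nil (hfb : ∀ i j, i ≤ d → j ≤ d → f i (b j) = if i = j then 1 else 0)
    (hD : ∀ x, D x = ∑ j ∈ Finset.range d, f j x • b (j + 1)) : D ^ (d + 1) = 0 := by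
  ext x
  rw [pow_succ, Module.End.mul_apply, hD x, map_sum, LinearMap.zero_apply]
  refine Finset.sum_eq_zero fun i hi => ?_
  have h1 := Finset.mem_range.1 hi
  rw [map_smul, TPb_Dpb hfb hD d (by omega), if_neg (by omega), smul_zero]

private theorem TPb_equiv (hfb : ∀ i j, i ≤ d → j ≤ d → f i (b j) = if i = j then 1 else 0)
    (hD : ∀ x, D x = ∑ j ∈ Finset.range d, f j x • b (j + 1)) (M : Subgroup (V ≃ₗ[F] V))
    (hM : ∀ q : F[X], q.coeff 0 = 0 → ∀ g : V ≃ₗ[F] V,
      (∀ x, g x = x + (Polynomial.aeval D q) x) → g ∈ M) (q : F[X]) (hq : q.coeff 0 = 0) :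
    ∃ g : V ≃ₗ[F] V, g ∈ M ∧ ∀ x, g x = x + (Polynomial.aeval D q) x := by
  obtain ⟨q', hq'⟩ := Polynomial.X_dvd_iff.2 hq
  have hc : Commute D (Polynomial.aeval D q') := by
    have h := (Commute.all (X : F[X]) q').map (Polynomial.aeval D)
    rwa [Polynomial.aeval_X] at h
  have hn : IsNilpotent (Polynomial.aeval D q) := by
    refine ⟨d + 1, ?_⟩
    rw [hq', map_mul, Polynomial.aeval_X, hc.mul_pow, TPb_nil hfb hD, zero_mul]
  have hu : IsUnit (1 + Polynomial.aeval D q) := IsNilpotent.isUnit_one_add hn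
  have hb := (Module.End.isUnit_iff _).1 hu
  refine ⟨LinearEquiv.ofBijective _ hb, hM q hq _ fun x => rfl, fun x => rfl⟩

end aux

theorem TP_block {F V : Type} [Field F] [AddCommGroup V] [Module F V]
    (M : Subgroup (V ≃ₗ[F] V)) (d : ℕ) (hd : 1 ≤ d) (b : ℕ → V) (f : ℕ → Module.Dual F V)
    (hfb : ∀ i j, i ≤ d → j ≤ d → f i (b j) = if i = j then 1 else 0) (D : V →ₗ[F] V)
    (hD : ∀ x, D x = ∑ j ∈ Finset.range d, f j x • b (j + 1))
    (hM : ∀ q : F[X], q.coeff 0 = 0 → ∀ g : V ≃ₗ[F] V,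
      (∀ x, g x = x + (Polynomial.aeval D q) x) → g ∈ M)
    (hT : TP M (b 0) (f d)) :
    ∀ i j, i ≤ d → j ≤ d → i ≠ j → TP M (b i) (f j) := by
  have hE := TPb_equiv hfb hD M hM
  -- (1)
  have h1 : 2 ≤ d → TP M (b 0) (f (d - 1)) := by
    intro hd2
    obtain ⟨t, htM, ht⟩ := hE X (by simp)
    have ht' : ∀ x, t x = x + D x := by
      intro x
      rw [ht, Polynomial.aeval_X]
    have hc := hT.conj t⁻¹ (M.inv_mem htM)
    set y : V := t⁻¹ (b 0) with hy
    have hty : y + D y = b 0 := by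
      rw [← ht', hy]
      exact t.apply_symm_apply (b 0)
    have hfy : ∀ j, j ≤ d → f j y = (-1) ^ j := by
      intro j
      induction j with
      | zero =>
        intro _
        have h := congrArg (f 0) hty
        rw [map_add, TPb_fD hfb hD (by omega), if_neg (by omega), hfb 0 0 (by omega) (by omega),
          if_pos rfl, add_zero] at h
        rw [h, pow_zero]
      | succ j ih =>
        intro hj
        have h := congrArg (f (j + 1)) hty
        rw [map_add, TPb_fD hfb hD hj, if_pos (by omega), hfb (j + 1) 0 hj (by omega),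
          if_neg (by omega), Nat.add_sub_cancel, ih (by omega)] at h
        rw [pow_succ, mul_neg, mul_one]
        exact eq_neg_of_add_eq_zero_left h
    have hg : (f d) ∘ₗ (t⁻¹).symm.toLinearMap = f d + f (d - 1) := by
      ext x
      change f d (t x) = f d x + f (d - 1) x
      rw [ht', map_add, TPb_fD hfb hD le_rfl, if_pos hd]
    rw [hg] at hc
    have h2 := TP.comm hT hc (by
      rw [hfy d le_rfl]
      exact pow_ne_zero _ (neg_ne_zero.2 one_ne_zero)) (by
      rw [LinearMap.add_apply, hfb d 0 le_rfl (by omega), if_neg (by omega),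
        hfb (d - 1) 0 (by omega) (by omega), if_neg (by omega), add_zero])
    have h3 := TP.add_right h2 (hT.smul_right (-1))
    have e : f d + f (d - 1) + (-1 : F) • f d = f (d - 1) := by
      ext x
      simp only [LinearMap.add_apply, LinearMap.smul_apply, smul_eq_mul]
      ring
    rwa [e] at h3
  -- (2)
  have h2 : ∀ l, 1 ≤ l → l ≤ d → TP M (b 0) (f l) := by
    intro l hl hld
    rcases Nat.lt_or_ge l (d - 1) with hlt | hge
    · obtain ⟨i, hi, hi1, hi2⟩ : ∃ i, l = d - 1 - i ∧ 1 ≤ i ∧ i ≤ d - 2 :=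
        ⟨d - 1 - l, by omega, by omega, by omega⟩
      have hkey : ∀ c : F, ∃ t : V ≃ₗ[F] V, t ∈ M ∧
          ∀ x, t x = x + ((D ^ i) x + c • (D ^ d) x) := by
        intro c
        obtain ⟨t, htM, ht⟩ := hE (X ^ i + C c * X ^ d) (by
          rw [Polynomial.coeff_add, Polynomial.coeff_C_mul, Polynomial.coeff_X_pow,
            Polynomial.coeff_X_pow, if_neg (by omega), if_neg (by omega), mul_zero, add_zero])
        refine ⟨t, htM, fun x => ?_⟩
        rw [ht, map_add, map_mul, map_pow, map_pow, Polynomial.aeval_X, Polynomial.aeval_C,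
          LinearMap.add_apply, Module.End.mul_apply, Module.algebraMap_end_apply]
      obtain ⟨t₀, ht₀M, ht₀⟩ := hkey 0
      have hy₀ : t₀.symm (b 0) + (D ^ i) (t₀.symm (b 0)) = b 0 := by
        have h := ht₀ (t₀.symm (b 0))
        rw [t₀.apply_symm_apply, zero_smul, add_zero] at h
        exact h.symm
      have hf0y : f 0 (t₀.symm (b 0)) = 1 := by
        have h := congrArg (f 0) hy₀
        rwa [map_add, TPb_fDp hfb hD i (by omega), if_neg (by omega),
          hfb 0 0 (by omega) (by omega), if_pos rfl, add_zero] at h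
      have hkey2 : ∃ (c : F) (t : V ≃ₗ[F] V), t ∈ M ∧
          (∀ x, t x = x + ((D ^ i) x + c • (D ^ d) x)) ∧ f d (t.symm (b 0)) ≠ 0 := by
        by_cases hz : f d (t₀.symm (b 0)) = 0
        · obtain ⟨t, htM, ht⟩ := hkey 1
          refine ⟨1, t, htM, ht, ?_⟩
          have hyt : t.symm (b 0) = t₀.symm (b 0) - b d := by
            rw [LinearEquiv.symm_apply_eq, ht, map_sub, map_sub, TPb_Dpb hfb hD i le_rfl,
              if_neg (by omega), TPb_Dpb hfb hD d le_rfl, if_neg (by omega), TPb_Dd hd hfb hD,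
              hf0y, one_smul, one_smul, sub_zero, sub_zero]
            have h := hy₀
            calc b 0 = t₀.symm (b 0) + (D ^ i) (t₀.symm (b 0)) := h.symm
              _ = _ := by abel
          rw [hyt, map_sub, hz, hfb d d le_rfl le_rfl, if_pos rfl, zero_sub]
          exact neg_ne_zero.2 one_ne_zero
        · exact ⟨0, t₀, ht₀M, ht₀, hz⟩
      obtain ⟨c, t, htM, ht, hfd⟩ := hkey2
      have hc := (h1 (by omega)).conj t⁻¹ (M.inv_mem htM)
      have hg : (f (d - 1)) ∘ₗ (t⁻¹).symm.toLinearMap = f (d - 1) + f l := by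
        ext x
        change f (d - 1) (t x) = f (d - 1) x + f l x
        rw [ht, map_add, map_add, map_smul, TPb_fDp hfb hD i (by omega), if_pos (by omega),
          TPb_fDp hfb hD d (by omega), if_neg (by omega), smul_zero, add_zero, hi]
      rw [hg] at hc
      have h3 := TP.comm hT hc hfd (by
        rw [LinearMap.add_apply, hfb (d - 1) 0 (by omega) (by omega), if_neg (by omega),
          hfb l 0 (by omega) (by omega), if_neg (by omega), add_zero])
      have h4 := TP.add_right h3 ((h1 (by omega)).smul_right (-1))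
      have e : f (d - 1) + f l + (-1 : F) • f (d - 1) = f l := by
        ext x
        simp only [LinearMap.add_apply, LinearMap.smul_apply, smul_eq_mul]
        ring
      rwa [e] at h4
    · rcases Nat.lt_or_ge l d with h | h
      · have e : l = d - 1 := by omega
        rw [e]
        exact h1 (by omega)
      · have e : l = d := by omega
        rw [e]
        exact hT
  -- (3)
  have h3 : ∀ i j, 1 ≤ i → i ≤ d → 1 ≤ j → j ≤ d → i ≠ j → TP M (b i) (f j) := by
    intro i j hi hid hj hjd hij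
    obtain ⟨z, hzM, hz⟩ := hE (X ^ i) (by
      rw [Polynomial.coeff_X_pow, if_neg (by omega)])
    have hz' : ∀ x, z x = x + (D ^ i) x := by
      intro x
      rw [hz, map_pow, Polynomial.aeval_X]
    have hg : TP M (b 0) (f j ∘ₗ z.toLinearMap) := by
      rcases Nat.lt_or_ge i j with h | h
      · have e : f j ∘ₗ z.toLinearMap = f j + f (j - i) := by
          ext x
          change f j (z x) = f j x + f (j - i) x
          rw [hz', map_add, TPb_fDp hfb hD i hjd, if_pos (by omega)]
        rw [e]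
        exact TP.add_right (h2 j hj hjd) (h2 (j - i) (by omega) (by omega))
      · have e : f j ∘ₗ z.toLinearMap = f j := by
          ext x
          change f j (z x) = f j x
          rw [hz', map_add, TPb_fDp hfb hD i hjd, if_neg (by omega), add_zero]
        rw [e]
        exact h2 j hj hjd
    have hc := hg.conj z hzM
    have e1 : z (b 0) = b 0 + b i := by
      rw [hz', TPb_Dpb hfb hD i (by omega), if_pos (by omega), zero_add]
    have e2 : (f j ∘ₗ z.toLinearMap) ∘ₗ z.symm.toLinearMap = f j := by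
      ext x
      change f j (z (z.symm x)) = f j x
      rw [z.apply_symm_apply]
    rw [e1, e2] at hc
    have h4 := TP.add_left hc ((h2 j hj hjd).smul_left (-1))
    have e : b 0 + b i + (-1 : F) • b 0 = b i := by
      rw [neg_one_smul]
      abel
    rwa [e] at h4
  -- (4)
  have h4 : TP M (b d) (f 0) := by
    refine ⟨by rw [hfb 0 d (by omega) le_rfl, if_neg (by omega)], fun c g hg => ?_⟩
    refine hM (C c * X ^ d) ?_ g fun x => ?_
    · rw [Polynomial.coeff_C_mul, Polynomial.coeff_X_pow, if_neg (by omega), mul_zero]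
    · rw [hg, map_mul, map_pow, Polynomial.aeval_X, Polynomial.aeval_C, Module.End.mul_apply,
        Module.algebraMap_end_apply, TPb_Dd hd hfb hD, smul_smul]
  intro i j hi hj hij
  rcases Nat.eq_zero_or_pos i with hi0 | hi0
  · subst hi0
    exact h2 j (by omega) hj
  rcases Nat.eq_zero_or_pos j with hj0 | hj0
  · subst hj0
    rcases Nat.lt_or_ge i d with h | h
    · refine TP.comm (h3 i d hi0 hi hd le_rfl (by omega)) h4 ?_ ?_
      · rw [hfb d d le_rfl le_rfl, if_pos rfl]
        exact one_ne_zero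
      · rw [hfb 0 i (by omega) hi, if_neg (by omega)]
    · have e : i = d := by omega
      rw [e]
      exact h4
  · exact h3 i j hi0 hi hj0 hj hij

end

end Pool.Agent.MP_1c8e06_ag.AL
end
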