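import Pool.Agent.Lib.MP_1c8e06_ag.Mg.G077
import Pool.Agent.Lib.MP_1c8e06_ag.AL.Defs
import Pool.Agent.Lib.MP_1c8e06_ag.Mg.G074

section

set_option autoImplicit false

namespace Pool.Agent.MP_1c8e06_ag.AL

noncomputable section

/-!
# Task LR: lifting a representation to a direct summand; determinants

Proofs.
* `lift_rep`: `φ g x := x + Θ (ρ g (Ξ x) - Ξ x)`.  `Ξ (φ g x) = ρ g (Ξ x)` (as `Ξ Θ = id`), so
  `φ g (φ h x) = φ h x + Θ (ρ g (ρ h (Ξ x)) - ρ h (Ξ x)) = x + Θ (ρ (g h) (Ξ x) - Ξ x)`; `φ 1 = id`; inverse `φ g⁻¹`.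
* `SL2_char`: `χ (eSL p) ^ p = 1` (`orderOf_eSL`), and in a field of characteristic `p` `x ^ p = 1` implies `(x - 1) ^ p = 0`, `x = 1`; so the kernel of `χ` is a
  normal subgroup containing `eSL p`, i.e. everything (`SL2_ncl`).
* `det_one_add`: `η` nilpotent: `det (1 + η) = 1`: the characteristic polynomial of the nilpotent `-η` (or `η`) is `X ^ n`
  (`LinearMap.charpoly_eq_X_pow_finrank`-type lemma / `Matrix.isNilpotent_charpoly_sub_pow_of_isNilpotent`, over a field
  `LinearMap.IsNilpotent.charpoly_eq_X_pow_finrank`), evaluate at `1`.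
-/

theorem lift_rep {F V W H : Type} [Field F] [AddCommGroup V] [Module F V] [AddCommGroup W]
    [Module F W] [Group H] (ρ : H →* (W ≃ₗ[F] W)) (Θ : W →ₗ[F] V) (Ξ : V →ₗ[F] W)
    (hΞ : ∀ w, Ξ (Θ w) = w) :
    ∃ φ : H →* (V ≃ₗ[F] V), ∀ g x, φ g x = x + Θ (ρ g (Ξ x) - Ξ x) := by
  let A : H → (V →ₗ[F] V) := fun g =>
    LinearMap.id + Θ.comp (((ρ g).toLinearMap - LinearMap.id).comp Ξ)
  have hA : ∀ g x, A g x = x + Θ (ρ g (Ξ x) - Ξ x) := fun g x => rfl
  have hΞA : ∀ g x, Ξ (A g x) = ρ g (Ξ x) := by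
    intro g x
    rw [hA, map_add, hΞ]
    abel
  have hmul : ∀ g h x, A g (A h x) = A (g * h) x := by
    intro g h x
    rw [hA g (A h x), hΞA, hA h x, hA (g * h) x, map_mul, add_assoc, ← map_add]
    congr 2
    rw [LinearEquiv.mul_apply]
    abel
  have hone : ∀ x, A 1 x = x := by
    intro x
    rw [hA, map_one]
    simp
  let B : H → (V ≃ₗ[F] V) := fun g =>
    LinearEquiv.ofLinearMap (A g) (A g⁻¹)
      (by ext x; rw [LinearMap.comp_apply, hmul, mul_inv_cancel, hone]; rfl)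
      (by ext x; rw [LinearMap.comp_apply, hmul, inv_mul_cancel, hone]; rfl)
  refine ⟨MonoidHom.mk' B ?_, ?_⟩
  · intro g h
    ext x
    exact (hmul g h x).symm
  · intro g x
    exact hA g x

theorem SL2_char {p : ℕ} [hp : Fact p.Prime] {F : Type} [Field F] [CharP F p]
    (χ : SL2 p →* F) (g : SL2 p) : χ g = 1 := by
  have h1 : χ (eSL p) ^ p = 1 := by
    rw [← map_pow]
    have h := pow_orderOf_eq_one (eSL p)
    rw [orderOf_eSL] at h
    rw [h, map_one]
  have h2 : χ (eSL p) = 1 := by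
    have h3 : (χ (eSL p) - 1) ^ p = 0 := by
      rw [sub_pow_char, h1, one_pow, sub_self]
    exact sub_eq_zero.mp (pow_eq_zero_iff hp.out.ne_zero |>.mp h3)
  have h4 : Subgroup.normalClosure ({eSL p} : Set (SL2 p)) ≤ χ.ker := by
    apply Subgroup.normalClosure_le_normal
    intro x hx
    rw [Set.mem_singleton_iff] at hx
    rw [hx]
    exact h2
  rw [SL2_ncl] at h4
  exact h4 (Subgroup.mem_top g)

theorem det_one_add {F V : Type} [Field F] [AddCommGroup V] [Module F V] [FiniteDimensional F V]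
    (η : V →ₗ[F] V) (h : IsNilpotent η) : LinearMap.det (1 + η) = 1 := by
  have h1 : IsNilpotent (-η) := h.neg
  have h2 := IsNilpotent.charpoly_eq_X_pow_finrank h1
  have h3 := LinearMap.eval_charpoly (-η) 1
  rw [h2] at h3
  simp only [Polynomial.eval_pow, Polynomial.eval_X, one_pow, map_one, sub_neg_eq_add] at h3
  exact h3.symm

end

end Pool.Agent.MP_1c8e06_ag.AL
end

section

set_option autoImplicit false

namespace Pool.Agent.MP_1c8e06_ag.AL

noncomputable section

/-!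
# Task SYM: the symmetric powers of the natural representation of `SL_2(F_p)`

Proof.  Let `x = X 0`, `y = X 1` in `A := MvPolynomial (Fin 2) F`.  For `g ∈ SL2 p` let `α g : A →ₐ[F] A` be the algebra homomorphism
with `α g (X j) = ∑ i, C (g i j) * X i` (`MvPolynomial.aeval`; the entries are mapped to `F` by `ZMod.castHom (dvd_refl p) F`);
`α (g h) = (α g).comp (α h)` and `α 1 = id` (check on the generators).  So `e := eSL p` acts by `x ↦ x`, `y ↦ x + y`, and
`w := wSL p = (0 -1; 1 0)` by `x ↦ y`, `y ↦ -x`.  Let `D : A → A` be the derivation with `D x = 0`, `D y = x`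
(`MvPolynomial.mkDerivation`).  `α e ∘ D = D ∘ α e`: `a ↦ α e (D (α e⁻¹ a))` is a derivation with the same values on `x`, `y`
(or compare on monomials / by `MvPolynomial.induction_on`).
`B j := D ^ j (y ^ d) = (d! / (d - j)!) x ^ j y ^ (d - j)` for `0 ≤ j ≤ d`, the coefficient is nonzero in `F` because `d < p`.  These `d + 1` vectors are
linearly independent and span the space `W` of homogeneous polynomials of degree `d` (multiples of the `d + 1` monomials of degree `d`;
one may take `W := Submodule.span F (range B)`), `D` and all `α g` preserve `W`, `D (B j) = B (j + 1)`, `D (B d) = 0`.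
`ρ g` := the restriction of `α g` to `W` (a linear equivalence with inverse `ρ g⁻¹`).
`ρ w (x ^ j y ^ (d-j)) = y ^ j (-x) ^ (d-j)`, so `ρ w (B j) = c • B (d - j)` with `c ≠ 0`.
`T := ρ e - 1`: `T (x^j y^m) = x^j ((x + y)^m - y^m) = m x^(j+1) y^(m-1) + (terms with higher powers of x)`.  So `T ^ (d+1) = 0` on `W`,
and `T ^ d (y ^ d) = d! x ^ d = D ^ d (y ^ d) = B d` (by induction on `m`: `T ^ m (x^j y^m) = m! x^(j+m)` and `T ^ (m+1) (x^j y^m) = 0`;
`T` commutes with multiplication by `x`; `(α e - 1)(y * u) = y * (α e - 1) u + x * α e u`).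
-/

open MvPolynomial

set_option linter.unusedSectionVars false

variable {p : ℕ} [hp : Fact p.Prime] {F : Type} [Field F] [CharP F p]

private def SYM_al (F : Type) [Field F] [CharP F p] (g : SL2 p) :
    MvPolynomial (Fin 2) F →ₐ[F] MvPolynomial (Fin 2) F :=
  aeval (fun j => C (ZMod.castHom (dvd_refl p) F (g.1 0 j)) * X 0 +
    C (ZMod.castHom (dvd_refl p) F (g.1 1 j)) * X 1)

omit hp in
private theorem SYM_al_X (g : SL2 p) (j : Fin 2) : SYM_al F g (X j) =
    C (ZMod.castHom (dvd_refl p) F (g.1 0 j)) * X 0 +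
    C (ZMod.castHom (dvd_refl p) F (g.1 1 j)) * X 1 := by
  unfold SYM_al; rw [aeval_X]

omit hp in
private theorem SYM_al_C (g : SL2 p) (a : F) : SYM_al F g (C a) = C a := by
  exact (SYM_al F g).commutes a

private theorem SYM_al_mul (g h : SL2 p) : SYM_al F (g * h) = (SYM_al F g).comp (SYM_al F h) := by
  apply MvPolynomial.algHom_ext
  intro j
  rw [AlgHom.comp_apply, SYM_al_X, SYM_al_X, map_add, map_mul, map_mul, SYM_al_C, SYM_al_C,
    SYM_al_X, SYM_al_X, Matrix.SpecialLinearGroup.coe_mul, Matrix.mul_apply, Matrix.mul_apply,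
    Fin.sum_univ_two, Fin.sum_univ_two]
  simp only [map_add, map_mul]
  ring

private theorem SYM_al_one : SYM_al F (1 : SL2 p) = AlgHom.id F _ := by
  apply MvPolynomial.algHom_ext
  intro j
  rw [SYM_al_X]
  fin_cases j <;> simp

private theorem SYM_al_hom (g : SL2 p) {d : ℕ} {f : MvPolynomial (Fin 2) F}
    (hf : f ∈ homogeneousSubmodule (Fin 2) F d) :
    SYM_al F g f ∈ homogeneousSubmodule (Fin 2) F d := by
  rw [mem_homogeneousSubmodule] at hf ⊢
  have h := hf.aeval (fun j => (C (ZMod.castHom (dvd_refl p) F (g.1 0 j)) * X 0 +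
    C (ZMod.castHom (dvd_refl p) F (g.1 1 j)) * X 1 : MvPolynomial (Fin 2) F)) (n := 1) (fun j =>
      ((isHomogeneous_X F (0 : Fin 2)).C_mul _).add ((isHomogeneous_X F (1 : Fin 2)).C_mul _))
  rw [one_mul] at h
  unfold SYM_al
  exact h

/-- The representation on the homogeneous polynomials. -/
private def SYM_r (F : Type) [Field F] [CharP F p] (d : ℕ) :
    SL2 p →* Module.End F (homogeneousSubmodule (Fin 2) F d) where
  toFun g := (SYM_al F g).toLinearMap.restrict (fun _ hf => SYM_al_hom g hf)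
  map_one' := by
    ext w : 2
    simp only [LinearMap.coe_restrict_apply, AlgHom.toLinearMap_apply, SYM_al_one]
    rfl
  map_mul' g h := by
    ext w : 2
    simp only [LinearMap.coe_restrict_apply, AlgHom.toLinearMap_apply, SYM_al_mul]
    rfl

private def SYM_rho (F : Type) [Field F] [CharP F p] (d : ℕ) :
    SL2 p →* (homogeneousSubmodule (Fin 2) F d ≃ₗ[F] homogeneousSubmodule (Fin 2) F d) :=
  (LinearMap.GeneralLinearGroup.generalLinearEquiv F _).toMonoidHom.comp (SYM_r F d).toHomUnits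

private theorem SYM_rho_coe (d : ℕ) (g : SL2 p) (w : homogeneousSubmodule (Fin 2) F d) :
    ((SYM_rho F d g w : homogeneousSubmodule (Fin 2) F d) : MvPolynomial (Fin 2) F) =
      SYM_al F g w := rfl

omit hp in
private theorem SYM_D_mem (F : Type) [Field F] {d : ℕ} {f : MvPolynomial (Fin 2) F}
    (hf : f ∈ homogeneousSubmodule (Fin 2) F d) :
    ((LinearMap.mulLeft F (X 0 : MvPolynomial (Fin 2) F)).comp (pderiv 1).toLinearMap) f ∈
      homogeneousSubmodule (Fin 2) F d := by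
  rw [mem_homogeneousSubmodule] at hf ⊢
  rcases Nat.eq_zero_or_pos d with h0 | h0
  · subst h0
    have h1 : f = C (coeff 0 f) :=
      totalDegree_eq_zero_iff_eq_C.mp (Nat.le_zero.mp hf.totalDegree_le)
    have : ((LinearMap.mulLeft F (X 0 : MvPolynomial (Fin 2) F)).comp
        (pderiv 1).toLinearMap) f = 0 := by
      rw [h1]; simp
    rw [this]
    exact isHomogeneous_zero _ _ _
  · have h := (isHomogeneous_X F (0 : Fin 2)).mul (hf.pderiv (i := 1))
    have h2 : 1 + (d - 1) = d := by omega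
    rw [h2] at h
    exact h

private def SYM_D (F : Type) [Field F] (d : ℕ) :
    homogeneousSubmodule (Fin 2) F d →ₗ[F] homogeneousSubmodule (Fin 2) F d :=
  ((LinearMap.mulLeft F (X 0 : MvPolynomial (Fin 2) F)).comp (pderiv 1).toLinearMap).restrict
    (fun _ hf => SYM_D_mem F hf)

private theorem SYM_D_coe (d : ℕ) (w : homogeneousSubmodule (Fin 2) F d) :
    ((SYM_D F d w : homogeneousSubmodule (Fin 2) F d) : MvPolynomial (Fin 2) F) =
      X 0 * pderiv 1 (w : MvPolynomial (Fin 2) F) := rfl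

private def SYM_v (F : Type) [Field F] (d : ℕ) (j : Fin (d + 1)) :
    homogeneousSubmodule (Fin 2) F d :=
  ⟨X 0 ^ (j : ℕ) * X 1 ^ (d - (j : ℕ)), by
    rw [mem_homogeneousSubmodule]
    have h := (isHomogeneous_X_pow (R := F) (0 : Fin 2) (j : ℕ)).mul
      (isHomogeneous_X_pow (R := F) (1 : Fin 2) (d - (j : ℕ)))
    have h2 : (j : ℕ) + (d - (j : ℕ)) = d := by omega
    rw [h2] at h
    exact h⟩

private theorem SYM_v_coe (d : ℕ) (j : Fin (d + 1)) :
    ((SYM_v F d j : homogeneousSubmodule (Fin 2) F d) : MvPolynomial (Fin 2) F) =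
      X 0 ^ (j : ℕ) * X 1 ^ (d - (j : ℕ)) := rfl

private theorem SYM_v_monomial (d : ℕ) (j : Fin (d + 1)) :
    ((SYM_v F d j : homogeneousSubmodule (Fin 2) F d) : MvPolynomial (Fin 2) F) =
      monomial (Finsupp.single 0 (j : ℕ) + Finsupp.single 1 (d - (j : ℕ))) 1 := by
  rw [SYM_v_coe, X_pow_eq_monomial, X_pow_eq_monomial, monomial_mul, one_mul]

private theorem SYM_li (F : Type) [Field F] (d : ℕ) : LinearIndependent F (SYM_v F d) := by
  have hinj : Function.Injective (fun j : Fin (d + 1) =>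
      (Finsupp.single 0 (j : ℕ) + Finsupp.single 1 (d - (j : ℕ)) : Fin 2 →₀ ℕ)) := by
    intro i j hij
    have := DFunLike.congr_fun hij 0
    simp at this
    exact Fin.ext this
  have h := (MvPolynomial.basisMonomials (Fin 2) F).linearIndependent.comp _ hinj
  apply LinearIndependent.of_comp (homogeneousSubmodule (Fin 2) F d).subtype
  convert h using 1
  funext j
  simp only [Function.comp_apply, Submodule.subtype_apply, SYM_v_monomial, coe_basisMonomials]

private theorem SYM_sp (F : Type) [Field F] (d : ℕ) : ⊤ ≤ Submodule.span F (Set.range (SYM_v F d)) := by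
  intro w _
  have hw : (w : MvPolynomial (Fin 2) F) ∈
      Submodule.map (homogeneousSubmodule (Fin 2) F d).subtype
        (Submodule.span F (Set.range (SYM_v F d))) := by
    rw [← support_sum_monomial_coeff (w : MvPolynomial (Fin 2) F)]
    refine Submodule.sum_mem _ fun s hs => ?_
    have hdeg : s 0 + s 1 = d := by
      have h := w.2
      rw [mem_homogeneousSubmodule] at h
      have h2 := h (mem_support_iff.mp hs)
      rw [Finsupp.weight_apply] at h2
      simpa [Finsupp.sum_fintype, Fin.sum_univ_two] using h2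
    have h1 : monomial s (coeff s (w : MvPolynomial (Fin 2) F)) =
        coeff s (w : MvPolynomial (Fin 2) F) •
          ((SYM_v F d ⟨s 0, by omega⟩ : homogeneousSubmodule (Fin 2) F d) :
            MvPolynomial (Fin 2) F) := by
      have hs' : (Finsupp.single 0 (s 0) + Finsupp.single 1 (d - s 0) : Fin 2 →₀ ℕ) = s := by
        ext i
        fin_cases i
        · simp
        · simp; omega
      rw [SYM_v_monomial, smul_monomial, smul_eq_mul, mul_one]
      rw [hs']
    rw [h1]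
    exact Submodule.smul_mem _ _ ⟨_, Submodule.subset_span ⟨_, rfl⟩, rfl⟩
  obtain ⟨w', hw', h⟩ := hw
  have : w' = w := Subtype.ext h
  rwa [← this]

private theorem SYM_e_X0 : SYM_al F (eSL p) (X 0) = X 0 := by
  rw [SYM_al_X]; simp [eSL]

private theorem SYM_e_X1 : SYM_al F (eSL p) (X 1) = X 0 + X 1 := by
  rw [SYM_al_X]; simp [eSL]

private theorem SYM_w_X0 : SYM_al F (wSL p) (X 0) = X 1 := by
  rw [SYM_al_X]; simp [wSL]

private theorem SYM_w_X1 : SYM_al F (wSL p) (X 1) = - X 0 := by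
  rw [SYM_al_X]; simp [wSL]

private def SYM_T (p : ℕ) [Fact p.Prime] (F : Type) [Field F] [CharP F p] :
    MvPolynomial (Fin 2) F →ₗ[F] MvPolynomial (Fin 2) F :=
  (SYM_al F (eSL p)).toLinearMap - 1

private theorem SYM_T_apply (u : MvPolynomial (Fin 2) F) :
    SYM_T p F u = SYM_al F (eSL p) u - u := rfl

private theorem SYM_T_X0 (k : ℕ) (u : MvPolynomial (Fin 2) F) :
    (SYM_T p F ^ k) (X 0 * u) = X 0 * (SYM_T p F ^ k) u := by
  induction k generalizing u with
  | zero => simp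
  | succ k ih =>
    rw [pow_succ', Module.End.mul_apply, ih, Module.End.mul_apply, SYM_T_apply, SYM_T_apply,
      map_mul, SYM_e_X0]
    ring

private theorem SYM_T_X1 (k : ℕ) (u : MvPolynomial (Fin 2) F) :
    (SYM_T p F ^ (k + 1)) (X 1 * u) = (X 1 + (k + 1 : MvPolynomial (Fin 2) F) * X 0) *
      (SYM_T p F ^ (k + 1)) u + (k + 1 : MvPolynomial (Fin 2) F) * X 0 * (SYM_T p F ^ k) u := by
  induction k with
  | zero =>
    simp only [zero_add, pow_one, pow_zero, Module.End.one_apply, SYM_T_apply, map_mul, SYM_e_X1]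
    push_cast
    ring
  | succ k ih =>
    rw [pow_succ' (SYM_T p F) (k + 1), Module.End.mul_apply, ih, map_add, Module.End.mul_apply]
    have h1 : ∀ v : MvPolynomial (Fin 2) F,
        SYM_T p F ((X 1 + (k + 1 : MvPolynomial (Fin 2) F) * X 0) * v) =
        (X 1 + (k + 1 + 1 : MvPolynomial (Fin 2) F) * X 0) * SYM_T p F v + X 0 * v := by
      intro v
      simp only [SYM_T_apply, map_mul, map_add, SYM_e_X1, SYM_e_X0, map_natCast, map_one]
      ring
    have h2 : ∀ v : MvPolynomial (Fin 2) F,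
        SYM_T p F ((k + 1 : MvPolynomial (Fin 2) F) * X 0 * v) =
        (k + 1 : MvPolynomial (Fin 2) F) * X 0 * SYM_T p F v := by
      intro v
      simp only [SYM_T_apply, map_mul, map_add, SYM_e_X0, map_natCast, map_one]
      ring
    rw [h1, h2]
    have h3 : SYM_T p F ((SYM_T p F ^ k) u) = (SYM_T p F ^ (k + 1)) u := by
      rw [pow_succ', Module.End.mul_apply]
    rw [h3]
    push_cast
    ring

private theorem SYM_T_pow (m : ℕ) :
    (SYM_T p F ^ m) (X 1 ^ m) = (m.factorial : MvPolynomial (Fin 2) F) * X 0 ^ m ∧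
    (SYM_T p F ^ (m + 1)) (X 1 ^ m) = 0 := by
  induction m with
  | zero =>
    refine ⟨by simp, ?_⟩
    simp [SYM_T_apply]
  | succ m ih =>
    obtain ⟨h1, h2⟩ := ih
    have h3 : (SYM_T p F ^ (m + 1 + 1)) (X 1 ^ m : MvPolynomial (Fin 2) F) = 0 := by
      rw [pow_succ', Module.End.mul_apply, h2, map_zero]
    constructor
    · rw [pow_succ' (X 1) m, SYM_T_X1, h1, h2, mul_zero, zero_add, Nat.factorial_succ]
      push_cast
      ring
    · rw [pow_succ' (X 1) m, SYM_T_X1, h3, h2, mul_zero, mul_zero, zero_add]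

private theorem SYM_T_X0pow (k j : ℕ) (u : MvPolynomial (Fin 2) F) :
    (SYM_T p F ^ k) (X 0 ^ j * u) = X 0 ^ j * (SYM_T p F ^ k) u := by
  induction j with
  | zero => simp
  | succ j ih => rw [pow_succ', mul_assoc, SYM_T_X0, ih, mul_assoc]

private theorem SYM_rho_T (d k : ℕ) (w : homogeneousSubmodule (Fin 2) F d) :
    (((((SYM_rho F d (eSL p)).toLinearMap - 1) ^ k) w : homogeneousSubmodule (Fin 2) F d) :
      MvPolynomial (Fin 2) F) = (SYM_T p F ^ k) (w : MvPolynomial (Fin 2) F) := by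
  induction k with
  | zero => simp
  | succ k ih =>
    rw [pow_succ', pow_succ', Module.End.mul_apply, Module.End.mul_apply, ← ih]
    rfl

theorem exists_sym {p : ℕ} [hp : Fact p.Prime] (F : Type) [Field F] [CharP F p] (d : ℕ)
    (hd : d < p) :
    ∃ (W : Type) (_ : AddCommGroup W) (_ : Module F W) (B : Module.Basis (Fin (d + 1)) F W)
      (ρ : SL2 p →* (W ≃ₗ[F] W)) (D : W →ₗ[F] W),
      (∀ j : Fin (d + 1), ∀ h : (j : ℕ) < d, D (B j) = B ⟨(j : ℕ) + 1, by omega⟩) ∧
      D (B (Fin.last d)) = 0 ∧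
      (∀ x, D (ρ (eSL p) x) = ρ (eSL p) (D x)) ∧
      (∀ j : Fin (d + 1), ∃ c : F, c ≠ 0 ∧ ρ (wSL p) (B j) = c • B (Fin.rev j)) ∧
      (((ρ (eSL p)).toLinearMap - 1) ^ (d + 1) = 0) ∧
      (((ρ (eSL p)).toLinearMap - 1) ^ d) (B 0) = B (Fin.last d) := by
  have hc : ∀ j : Fin (d + 1), ((d.descFactorial (j : ℕ) : ℕ) : F) ≠ 0 := by
    intro j h
    rw [CharP.cast_eq_zero_iff F p] at h
    have h2 : d.descFactorial (j : ℕ) ∣ d.factorial := by
      rw [← Nat.factorial_mul_descFactorial (show (j : ℕ) ≤ d by omega)]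
      exact Dvd.intro_left _ rfl
    have h3 := (hp.out.dvd_factorial).mp (h.trans h2)
    omega
  have hu : ∀ j : Fin (d + 1), IsUnit ((d.descFactorial (j : ℕ) : ℕ) : F) := fun j =>
    (hc j).isUnit
  let B0 : Module.Basis (Fin (d + 1)) F (homogeneousSubmodule (Fin 2) F d) :=
    Module.Basis.mk (SYM_li F d) (SYM_sp F d)
  let B : Module.Basis (Fin (d + 1)) F (homogeneousSubmodule (Fin 2) F d) := B0.isUnitSMul hu
  have hB0 : ∀ j, B0 j = SYM_v F d j := fun j => Module.Basis.mk_apply _ _ j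
  have hB : ∀ j, B j = ((d.descFactorial (j : ℕ) : ℕ) : F) • SYM_v F d j := by
    intro j
    rw [Module.Basis.isUnitSMul_apply, hB0]
  have hBc : ∀ j, ((B j : homogeneousSubmodule (Fin 2) F d) : MvPolynomial (Fin 2) F) =
      (d.descFactorial (j : ℕ) : MvPolynomial (Fin 2) F) * (X 0 ^ (j : ℕ) * X 1 ^ (d - (j : ℕ))) := by
    intro j
    rw [hB, Submodule.coe_smul, SYM_v_coe, smul_eq_C_mul, map_natCast]
  have hder : ∀ j m : ℕ, pderiv 1 (X 0 ^ j * X 1 ^ m : MvPolynomial (Fin 2) F) =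
      X 0 ^ j * ((m : MvPolynomial (Fin 2) F) * X 1 ^ (m - 1)) := by
    intro j m
    rw [Derivation.leibniz, Derivation.leibniz_pow, Derivation.leibniz_pow, pderiv_X_self,
      pderiv_X_of_ne (by decide)]
    simp [nsmul_eq_mul]
  refine ⟨homogeneousSubmodule (Fin 2) F d, inferInstance, inferInstance, B, SYM_rho F d,
    SYM_D F d, ?_, ?_, ?_, ?_, ?_, ?_⟩
  · intro j hj
    apply Subtype.ext
    rw [SYM_D_coe, hBc, hBc]
    have h1 : pderiv 1 ((d.descFactorial (j : ℕ) : MvPolynomial (Fin 2) F) *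
        (X 0 ^ (j : ℕ) * X 1 ^ (d - (j : ℕ)))) =
        (d.descFactorial (j : ℕ) : MvPolynomial (Fin 2) F) *
        pderiv 1 (X 0 ^ (j : ℕ) * X 1 ^ (d - (j : ℕ))) := by
      rw [Derivation.leibniz, Derivation.map_natCast, smul_zero, add_zero, smul_eq_mul]
    rw [h1, hder]
    have h2 : d - (j : ℕ) - 1 = d - ((j : ℕ) + 1) := by omega
    simp only [Nat.descFactorial_succ, h2]
    push_cast
    ring
  · apply Subtype.ext
    rw [SYM_D_coe, hBc]
    have h1 : pderiv 1 ((d.descFactorial ((Fin.last d : Fin (d + 1)) : ℕ) :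
        MvPolynomial (Fin 2) F) * (X 0 ^ ((Fin.last d : Fin (d + 1)) : ℕ) *
          X 1 ^ (d - ((Fin.last d : Fin (d + 1)) : ℕ)))) =
        (d.descFactorial ((Fin.last d : Fin (d + 1)) : ℕ) : MvPolynomial (Fin 2) F) *
        pderiv 1 (X 0 ^ ((Fin.last d : Fin (d + 1)) : ℕ) *
          X 1 ^ (d - ((Fin.last d : Fin (d + 1)) : ℕ))) := by
      rw [Derivation.leibniz, Derivation.map_natCast, smul_zero, add_zero, smul_eq_mul]
    rw [h1, hder]
    simp
  · intro x
    have hlin : (SYM_D F d) ∘ₗ (SYM_rho F d (eSL p)).toLinearMap =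
        (SYM_rho F d (eSL p)).toLinearMap ∘ₗ (SYM_D F d) := by
      apply B0.ext
      intro j
      rw [hB0]
      apply Subtype.ext
      simp only [LinearMap.comp_apply, LinearEquiv.coe_coe]
      rw [SYM_D_coe, SYM_rho_coe, SYM_rho_coe, SYM_D_coe, SYM_v_coe, hder]
      simp only [map_mul, map_pow, SYM_e_X0, SYM_e_X1, map_natCast]
      rw [Derivation.leibniz, Derivation.leibniz_pow, Derivation.leibniz_pow, map_add,
        pderiv_X_self, pderiv_X_of_ne (by decide)]
      simp [nsmul_eq_mul]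
    exact LinearMap.congr_fun hlin x
  · intro j
    refine ⟨((d.descFactorial (j : ℕ) : ℕ) : F) * (-1) ^ (d - (j : ℕ)) *
      (((d.descFactorial ((Fin.rev j : Fin (d + 1)) : ℕ) : ℕ) : F))⁻¹, ?_, ?_⟩
    · exact mul_ne_zero (mul_ne_zero (hc j) (pow_ne_zero _ (by norm_num))) (inv_ne_zero (hc _))
    · rw [hB, hB, smul_smul, mul_assoc _ _ (((d.descFactorial ((Fin.rev j : Fin (d + 1)) : ℕ) :
        ℕ) : F)), inv_mul_cancel₀ (hc _), mul_one, mul_smul, map_smul]
      congr 1
      apply Subtype.ext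
      rw [SYM_rho_coe, SYM_v_coe, Submodule.coe_smul, SYM_v_coe]
      simp only [map_mul, map_pow, SYM_w_X0, SYM_w_X1]
      have h1 : ((Fin.rev j : Fin (d + 1)) : ℕ) = d - (j : ℕ) := by
        rw [Fin.val_rev]; omega
      have h2 : d - (d - (j : ℕ)) = (j : ℕ) := by omega
      rw [h1, h2, neg_pow, smul_eq_C_mul, map_pow, map_neg, map_one]
      ring
  · apply B0.ext
    intro j
    rw [hB0]
    apply Subtype.ext
    rw [SYM_rho_T, SYM_v_coe, SYM_T_X0pow]
    have h1 : SYM_T p F ^ (d + 1) = SYM_T p F ^ (j : ℕ) * SYM_T p F ^ ((d - (j : ℕ)) + 1) := by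
      rw [← pow_add]
      congr 1
      omega
    rw [h1, Module.End.mul_apply, (SYM_T_pow (p := p) (F := F) (d - (j : ℕ))).2, map_zero,
      mul_zero]
    rfl
  · apply Subtype.ext
    rw [SYM_rho_T, hBc, hBc]
    simp only [Fin.val_zero, Nat.descFactorial_zero, Nat.cast_one, one_mul, pow_zero, Nat.sub_zero,
      Fin.val_last, Nat.sub_self, mul_one, Nat.descFactorial_self]
    exact (SYM_T_pow (p := p) (F := F) d).1

end

end Pool.Agent.MP_1c8e06_ag.AL
end

section

set_option autoImplicit false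

open Polynomial

namespace Pool.Agent.MP_1c8e06_ag.AL

noncomputable section

/-!
# Tasks ASM: the homomorphism `φ : SL_2(F_p) → SL(V)` attached to a unipotent element of order `p`

Setting of `ASM_gen` (everything is given): `T := ρ e - 1` on `W`, `N := u - 1` on `V`, `Ξ Θ = id`, `Θ T = N Θ`, `Ξ N = T Ξ`, `b j := Θ (B j)`,
`f j := (coordinate j) ∘ Ξ` (`j ≤ d`; extend by `0` for `j > d`), `D' := Θ ∘ D ∘ Ξ`, `w₀ := B 0`.
Facts.
(a) `f i (b j) = δ_ij`; `D' x = ∑_{j<d} f j x • b (j+1)` (expand `Ξ x` in the basis `B`).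
(b) `D'` commutes with `N`, hence with `u`: `D' N = Θ D Ξ N = Θ D T Ξ = Θ T D Ξ = N Θ D Ξ` (`D` commutes with `T = ρ e - 1`).  `D'` is nilpotent
    (`D' ^ (d + 1) = 0`).  So for `q.coeff 0 = 0` an equivalence `g = 1 + q(D')` commutes with `u` and has determinant `1` (`det_one_add`;
    `q(D')` is nilpotent because `X ∣ q`): it is in `M` by `hC`.
(c) `TP M (b d) (f 0)`: `D' ^ d x = f 0 x • b d`; (b) with `q = C c * X ^ d`.
(d) `TP M (b 0) (f d)`: `TP.conj` of (c) with `φ w` (`w := wSL p`): `φ w (b d) = b d + Θ (ρ w (Ξ (b d)) - Ξ (b d)) = Θ (ρ w (B d)) = c • b 0`, `c ≠ 0`; and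
    `f 0 ((φ w)⁻¹ x) = f 0 x + coord 0 (ρ w⁻¹ (Ξ x) - Ξ x) = coord 0 (ρ w⁻¹ (Ξ x)) = ∑_j f j x • coord 0 (ρ w⁻¹ (B j))`, and
    `ρ w⁻¹ (B j)` is a nonzero multiple of `B (d - j)` (from `ρ w (B (d - j)) = c_j • B j`): only `j = d` contributes, so it is `c' * f d x`,
    `c' ≠ 0`.  Scale (`TP.smul_left`, `TP.smul_right`).
(e) `TP_block` gives the block.
(f) Hypothesis `h1` of `TP_all`: let `f j v = 0` for all `j ≤ d`, i.e. `Ξ v = 0`.  `η₁ : W → V` from `INT_from` with `η₁ w₀ = v`, `η := η₁ ∘ Ξ`.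
    `η (b 0) = η₁ w₀ = v`.  `Ξ ∘ η₁ : W → W` commutes with `T` and kills `w₀`, so it is `0` (`INT_ext`): `f j (η x) = 0`.  `Ξ x = ∑ f j x • B j` gives
    the formula.  `η` commutes with `N` (`η N = η₁ Ξ N = η₁ T Ξ = N η₁ Ξ`), and `η ∘ η = η₁ (Ξ η₁) Ξ = 0`: `g = 1 + η` commutes with `u`, determinant `1`.
(g) Hypothesis `h2`: `ℓ (b j) = 0` for all `j`.  `η₂ : V → W` from `INT_to` with `μ := coordinate d` (`μ (T ^ d w₀) = coord d (B d) = 1`) and `ℓ`;
    `η := Θ ∘ η₂`.  `f d (η x) = μ (η₂ x) = ℓ x`.  `η₂ ∘ Θ : W → W` commutes with `T`, and `μ (T ^ j (η₂ (Θ w))) = μ (η₂ (Θ (T ^ j w))) = ℓ (Θ (T ^ j w)) = 0`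
    (`ℓ` kills `Θ W = span (b j)`), so `η₂ ∘ Θ = 0` (`INT_nondeg`): `η (b j) = 0`.  The image of `η` is in `Θ W`: formula.  `η` commutes with
    `N`, `η ∘ η = 0`: as in (f).
(h) `TP_all`.
-/

theorem ASM_gen {p : ℕ} [hp : Fact p.Prime] {F V W : Type} [Field F] [CharP F p]
    [AddCommGroup V] [Module F V] [FiniteDimensional F V] [AddCommGroup W] [Module F W]
    (d : ℕ) (hd : 1 ≤ d) (B : Module.Basis (Fin (d + 1)) F W) (ρ : SL2 p →* (W ≃ₗ[F] W))
    (D : W →ₗ[F] W)
    (hD1 : ∀ j : Fin (d + 1), ∀ h : (j : ℕ) < d, D (B j) = B ⟨(j : ℕ) + 1, by omega⟩)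
    (hD2 : D (B (Fin.last d)) = 0)
    (hD3 : ∀ x, D (ρ (eSL p) x) = ρ (eSL p) (D x))
    (hw : ∀ j : Fin (d + 1), ∃ c : F, c ≠ 0 ∧ ρ (wSL p) (B j) = c • B (Fin.rev j))
    (hT : ((ρ (eSL p)).toLinearMap - 1) ^ (d + 1) = 0)
    (hT' : (((ρ (eSL p)).toLinearMap - 1) ^ d) (B 0) = B (Fin.last d))
    (u : V ≃ₗ[F] V) (hN : (u.toLinearMap - 1) ^ (d + 1) = 0)
    (Θ : W →ₗ[F] V) (Ξ : V →ₗ[F] W) (hΞΘ : ∀ w, Ξ (Θ w) = w)
    (hΘ : ∀ w, Θ (ρ (eSL p) w) = u (Θ w)) (hΞ : ∀ x, Ξ (u x) = ρ (eSL p) (Ξ x))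
    (φ : SL2 p →* (V ≃ₗ[F] V)) (hφ : ∀ g x, φ g x = x + Θ (ρ g (Ξ x) - Ξ x))
    (M : Subgroup (V ≃ₗ[F] V)) (hM : ∀ g, φ g ∈ M)
    (hC : ∀ x : V ≃ₗ[F] V, x * u = u * x → LinearMap.det x.toLinearMap = 1 → x ∈ M)
    (g : V ≃ₗ[F] V) (hg : LinearMap.det g.toLinearMap = 1) : g ∈ M := by
  -- notation
  set T : W →ₗ[F] W := (ρ (eSL p)).toLinearMap - 1 with hTdef
  set N : V →ₗ[F] V := u.toLinearMap - 1 with hNdef
  have hTa : ∀ w, T w = ρ (eSL p) w - w := fun w => rfl
  have hNa : ∀ x, N x = u x - x := fun x => rfl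
  have hΘT : ∀ w, Θ (T w) = N (Θ w) := fun w => by rw [hTa, hNa, map_sub, hΘ]
  have hΞN : ∀ x, Ξ (N x) = T (Ξ x) := fun x => by rw [hTa, hNa, map_sub, hΞ]
  have hDT : ∀ x, D (T x) = T (D x) := fun x => by rw [hTa, hTa, map_sub, hD3]
  let Bn : ℕ → W := fun j => if h : j < d + 1 then B ⟨j, h⟩ else 0
  let cn : ℕ → Module.Dual F W := fun j => if h : j < d + 1 then B.coord ⟨j, h⟩ else 0
  have hBn : ∀ j (h : j < d + 1), Bn j = B ⟨j, h⟩ := fun j h => dif_pos h
  have hBn' : ∀ j, ¬ j < d + 1 → Bn j = 0 := fun j h => dif_neg h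
  have hcn : ∀ j (h : j < d + 1), cn j = B.coord ⟨j, h⟩ := fun j h => dif_pos h
  have hexp : ∀ w, w = ∑ j ∈ Finset.range (d + 1), cn j w • Bn j := by
    intro w
    rw [Finset.sum_range]
    conv_lhs => rw [← B.sum_repr w]
    refine Finset.sum_congr rfl fun j _ => ?_
    rw [hcn j j.2, hBn j j.2]
    rfl
  have hcB : ∀ i j, i ≤ d → j ≤ d → cn i (Bn j) = if i = j then 1 else 0 := by
    intro i j hi hj
    rw [hcn i (by omega), hBn j (by omega), Module.Basis.coord_apply, B.repr_self,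
      Finsupp.single_apply]
    by_cases hij : i = j
    · subst hij
      simp
    · rw [if_neg hij, if_neg]
      intro h
      exact hij (Fin.mk.inj h).symm
  have hDB : ∀ j, D (Bn j) = Bn (j + 1) := by
    intro j
    by_cases hj : j < d
    · rw [hBn j (by omega), hBn (j + 1) (by omega)]
      exact hD1 ⟨j, by omega⟩ hj
    · rw [hBn' (j + 1) (by omega)]
      by_cases hj' : j = d
      · rw [hBn j (by omega)]
        have : (⟨j, by omega⟩ : Fin (d + 1)) = Fin.last d := Fin.ext hj'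
        rw [this, hD2]
      · rw [hBn' j (by omega), map_zero]
  have hDB' : ∀ k j, (D ^ k) (Bn j) = Bn (j + k) := by
    intro k
    induction k with
    | zero => intro j; simp
    | succ k ih => intro j; rw [pow_succ, Module.End.mul_apply, hDB, ih, Nat.add_right_comm, Nat.add_assoc]
  let b : ℕ → V := fun j => Θ (Bn j)
  let f : ℕ → Module.Dual F V := fun j => (cn j) ∘ₗ Ξ
  have hb : ∀ j, b j = Θ (Bn j) := fun j => rfl
  have hf : ∀ j x, f j x = cn j (Ξ x) := fun j x => rfl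
  have hΞb : ∀ j, Ξ (b j) = Bn j := fun j => hΞΘ _
  have hfb : ∀ i j, i ≤ d → j ≤ d → f i (b j) = if i = j then 1 else 0 := by
    intro i j hi hj
    rw [hf, hΞb, hcB i j hi hj]
  have hΘexp : ∀ w, Θ w = ∑ j ∈ Finset.range (d + 1), cn j w • b j := by
    intro w
    conv_lhs => rw [hexp w]
    rw [map_sum]
    refine Finset.sum_congr rfl fun j _ => ?_
    rw [map_smul]
  -- nilpotent operators commuting with N
  have hcomm : ∀ η : V →ₗ[F] V, (∀ x, η (N x) = N (η x)) → IsNilpotent η →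
      ∀ g : V ≃ₗ[F] V, (∀ x, g x = x + η x) → g ∈ M := by
    intro η h1 h2 g hgx
    refine hC g ?_ ?_
    · ext x
      show g (u x) = u (g x)
      have h3 := h1 x
      rw [hNa, hNa, map_sub] at h3
      rw [hgx, hgx, map_add]
      have h4 : η (u x) = u (η x) := by
        have := sub_left_inj.1 h3
        exact this
      rw [h4]
    · have h3 : g.toLinearMap = 1 + η := by
        ext x
        exact hgx x
      rw [h3]
      exact det_one_add η h2
  -- the operator D'
  let D' : V →ₗ[F] V := Θ ∘ₗ D ∘ₗ Ξ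
  have hD'a : ∀ x, D' x = Θ (D (Ξ x)) := fun x => rfl
  have hD'k : ∀ k x, (D' ^ (k + 1)) x = Θ ((D ^ (k + 1)) (Ξ x)) := by
    intro k
    induction k with
    | zero => intro x; rw [zero_add, pow_one, pow_one, hD'a]
    | succ k ih =>
      intro x
      rw [pow_succ', Module.End.mul_apply, ih, hD'a, hΞΘ, ← Module.End.mul_apply, ← pow_succ']
  have hD'N : ∀ x, D' (N x) = N (D' x) := by
    intro x
    rw [hD'a, hΞN, hDT, hΘT, hD'a]
  have hDexp : ∀ k w, (D ^ k) w = ∑ j ∈ Finset.range (d + 1), cn j w • Bn (j + k) := by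
    intro k w
    conv_lhs => rw [hexp w]
    rw [map_sum]
    refine Finset.sum_congr rfl fun j _ => ?_
    rw [map_smul, hDB']
  have hD'nil : IsNilpotent D' := by
    refine ⟨d + 1, ?_⟩
    ext x
    rw [hD'k, hDexp, LinearMap.zero_apply]
    rw [Finset.sum_eq_zero, map_zero]
    intro j _
    rw [hBn' _ (by omega), smul_zero]
  have hD' : ∀ x, D' x = ∑ j ∈ Finset.range d, f j x • b (j + 1) := by
    intro x
    have h1 := hDexp 1 (Ξ x)
    rw [pow_one] at h1
    rw [hD'a, h1, Finset.sum_range_succ, hBn' (d + 1) (by omega), smul_zero, add_zero, map_sum]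
    refine Finset.sum_congr rfl fun j _ => ?_
    rw [map_smul]
    rfl
  have hMq : ∀ q : F[X], q.coeff 0 = 0 → ∀ g : V ≃ₗ[F] V,
      (∀ x, g x = x + (Polynomial.aeval D' q) x) → g ∈ M := by
    intro q hq g hgx
    refine hcomm _ ?_ ?_ g hgx
    · have h1 : Commute D' N := by
        ext x
        exact hD'N x
      have h2 : Commute (Polynomial.aeval D' q) N := by
        rw [Polynomial.aeval_eq_sum_range]
        exact Commute.sum_left _ _ _ fun i _ => (h1.pow_left i).smul_left _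
      intro x
      exact LinearMap.congr_fun h2 x
    · obtain ⟨r, hr⟩ := Polynomial.X_dvd_iff.2 hq
      rw [hr, map_mul, Polynomial.aeval_X]
      have h3 : Commute (Polynomial.aeval D' (X : F[X])) (Polynomial.aeval D' r) :=
        (Commute.all (X : F[X]) r).map (Polynomial.aeval D')
      rw [Polynomial.aeval_X] at h3
      exact h3.isNilpotent_mul_right hD'nil
  -- the transvection of (c)
  have hc : TP M (b d) (f 0) := by
    refine ⟨?_, fun c g hgx => ?_⟩
    · rw [hfb 0 d (by omega) le_rfl, if_neg (by omega)]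
    · refine hMq (C c * X ^ d) ?_ g fun x => ?_
      · rw [Polynomial.coeff_C_mul, Polynomial.coeff_X_pow, if_neg (by omega), mul_zero]
      · rw [hgx, map_mul, Polynomial.aeval_C, map_pow, Polynomial.aeval_X]
        congr 1
        obtain ⟨d', rfl⟩ : ∃ d', d = d' + 1 := ⟨d - 1, by omega⟩
        rw [Module.End.mul_apply, hD'k, hDexp, Finset.sum_range_succ', Finset.sum_eq_zero,
          zero_add, zero_add, map_smul]
        · show (c * f 0 x) • b (d' + 1) = c • (cn 0 (Ξ x) • Θ (Bn (d' + 1)))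
          rw [smul_smul]
          rfl
        · intro j _
          rw [hBn' _ (by omega), smul_zero]
  choose cw hcw0 hcw using hw
  have hwi : ∀ j, ρ (wSL p)⁻¹ (B j) = (cw (Fin.rev j))⁻¹ • B (Fin.rev j) := by
    intro j
    have h1 := hcw (Fin.rev j)
    rw [Fin.rev_rev] at h1
    have h2 : B (Fin.rev j) = cw (Fin.rev j) • ρ (wSL p)⁻¹ (B j) := by
      rw [← map_smul, ← h1, ← LinearEquiv.mul_apply, ← map_mul, inv_mul_cancel, map_one]
      rfl
    conv_rhs => rw [h2]
    rw [smul_smul, inv_mul_cancel₀ (hcw0 _), one_smul]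
  have hdual : ∀ y, cn 0 (ρ (wSL p)⁻¹ y) = (cw 0)⁻¹ * cn d y := by
    have h1 : (cn 0) ∘ₗ (ρ (wSL p)⁻¹).toLinearMap = (cw 0)⁻¹ • cn d := by
      refine B.ext fun j => ?_
      show cn 0 (ρ (wSL p)⁻¹ (B j)) = (cw 0)⁻¹ • cn d (B j)
      rw [hwi, map_smul]
      have e1 : B (Fin.rev j) = Bn (d - j) := by
        rw [hBn _ (by omega)]
        congr 1
        ext
        simp [Fin.val_rev]
      have e2 : B j = Bn j := by rw [hBn _ j.2]
      rw [e1, e2, hcB 0 (d - j) (by omega) (by omega), hcB d j le_rfl (by omega)]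
      by_cases hj : (j : ℕ) = d
      · have e3 : Fin.rev j = 0 := by
          ext
          simp [Fin.val_rev, hj]
        rw [if_pos (by omega), if_pos hj.symm, e3]
      · rw [if_neg (by omega), if_neg (by omega), smul_zero, smul_zero]
    intro y
    exact LinearMap.congr_fun h1 y
  have hT0d : TP M (b 0) (f d) := by
    have h1 := hc.conj (φ (wSL p)) (hM _)
    have h2 : φ (wSL p) (b d) = cw (Fin.last d) • b 0 := by
      rw [hφ, hΞb, map_sub]
      have e1 : Bn d = B (Fin.last d) := hBn d (by omega)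
      have e2 : Bn 0 = B 0 := hBn 0 (by omega)
      rw [hb, hb, e1, e2, hcw, Fin.rev_last, map_smul]
      abel
    have h3 : (f 0) ∘ₗ (φ (wSL p)).symm.toLinearMap = (cw 0)⁻¹ • f d := by
      ext x
      show f 0 ((φ (wSL p)).symm x) = (cw 0)⁻¹ • f d x
      have e1 : (φ (wSL p)).symm x = φ (wSL p)⁻¹ x := by
        rw [map_inv]
        rfl
      rw [e1, hφ, hf, map_add, hΞΘ, add_sub_cancel, hdual]
      rfl
    rw [h2, h3] at h1
    have h4 := (h1.smul_left (cw (Fin.last d))⁻¹).smul_right (cw 0)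
    rw [smul_smul, smul_smul, inv_mul_cancel₀ (hcw0 _), mul_inv_cancel₀ (hcw0 _), one_smul,
      one_smul] at h4
    exact h4
  have hblock := TP_block M d hd b f hfb D' hD' hMq hT0d
  have hW : Module.finrank F W = d + 1 := by
    rw [Module.finrank_eq_card_basis B, Fintype.card_fin]
  have hTw : (T ^ d) (B 0) ≠ 0 := by
    rw [hT']
    exact B.ne_zero _
  have hB0 : Bn 0 = B 0 := hBn 0 (by omega)
  refine TP_all M d hd b f hfb hblock ?_ ?_ g hg
  · intro v hv
    have hΞv : Ξ v = 0 := by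
      rw [hexp (Ξ v)]
      refine Finset.sum_eq_zero fun j hj => ?_
      have := hv j (by have := Finset.mem_range.1 hj; omega)
      rw [hf] at this
      rw [this, zero_smul]
    obtain ⟨η₁, h1, h2⟩ := INT_from N T d (B 0) hT hTw hW hN v
    have h3 : Ξ ∘ₗ η₁ = 0 := by
      refine INT_ext T T d (B 0) hT hTw hW (Ξ ∘ₗ η₁) (fun w => ?_) ?_
      · show Ξ (η₁ (T w)) = T (Ξ (η₁ w))
        rw [h2, hΞN]
      · show Ξ (η₁ (B 0)) = 0
        rw [h1, hΞv]
    have h3' : ∀ w, Ξ (η₁ w) = 0 := fun w => LinearMap.congr_fun h3 w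
    refine ⟨η₁ ∘ₗ Ξ, ?_, ?_, ?_, ?_⟩
    · show η₁ (Ξ (b 0)) = v
      rw [hΞb, hB0, h1]
    · intro x j _
      show cn j (Ξ (η₁ (Ξ x))) = 0
      rw [h3', map_zero]
    · intro x
      show η₁ (Ξ x) = ∑ j ∈ Finset.range (d + 1), cn j (Ξ x) • η₁ (Ξ (b j))
      conv_lhs => rw [hexp (Ξ x)]
      rw [map_sum]
      refine Finset.sum_congr rfl fun j _ => ?_
      rw [map_smul, hΞb]
    · refine hcomm _ (fun x => ?_) ⟨2, ?_⟩
      · show η₁ (Ξ (N x)) = N (η₁ (Ξ x))
        rw [hΞN, h2]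
      · ext x
        rw [pow_two]
        show η₁ (Ξ (η₁ (Ξ x))) = 0
        rw [h3', map_zero]
  · intro ℓ hℓ
    have hℓΘ : ∀ w, ℓ (Θ w) = 0 := by
      intro w
      rw [hΘexp w, map_sum]
      refine Finset.sum_eq_zero fun j hj => ?_
      rw [map_smul, hℓ j (by have := Finset.mem_range.1 hj; omega), smul_zero]
    have hμ : cn d ((T ^ d) (B 0)) ≠ 0 := by
      have e1 : B (Fin.last d) = Bn d := (hBn d (by omega)).symm
      rw [hT', e1, hcB d d le_rfl le_rfl, if_pos rfl]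
      exact one_ne_zero
    obtain ⟨η₂, h1, h2⟩ := INT_to N T d (B 0) hT hTw hW hN (cn d) hμ ℓ
    have hpow : ∀ j w, (T ^ j) (η₂ (Θ w)) = η₂ (Θ ((T ^ j) w)) := by
      intro j
      induction j with
      | zero => intro w; simp
      | succ j ih =>
        intro w
        rw [pow_succ, Module.End.mul_apply, Module.End.mul_apply, ← h2, ← hΘT, ih]
    have h3 : ∀ w, η₂ (Θ w) = 0 := by
      intro w
      refine INT_nondeg T d (B 0) hT hTw hW (cn d) hμ _ fun j _ => ?_
      rw [hpow, h1, hℓΘ]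
    refine ⟨Θ ∘ₗ η₂, ?_, ?_, ?_, ?_⟩
    · intro x
      show cn d (Ξ (Θ (η₂ x))) = ℓ x
      rw [hΞΘ, h1]
    · intro j _
      show Θ (η₂ (Θ (Bn j))) = 0
      rw [h3, map_zero]
    · intro x
      show Θ (η₂ x) = ∑ j ∈ Finset.range (d + 1), cn j (Ξ (Θ (η₂ x))) • b j
      rw [hΞΘ]
      exact hΘexp _
    · refine hcomm _ (fun x => ?_) ⟨2, ?_⟩
      · show Θ (η₂ (N x)) = N (Θ (η₂ x))
        rw [h2, hΘT]
      · ext x
        rw [pow_two]
        show Θ (η₂ (Θ (η₂ x))) = 0
        rw [h3, map_zero]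

end

end Pool.Agent.MP_1c8e06_ag.AL
end
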