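import Pool.Agent.Lib.MP_1c8e06_ag.Mg.G071
import Pool.Agent.Lib.MP_1c8e06_ag.Mg.G088

section

set_option autoImplicit false

namespace Pool.Agent.MP_1c8e06_ag.AN

/-!
# Task SU3r: regular elements

`y = uU 1 (-1/2)` (`valid`: `-1/2 - 1/2 + 1 = 0`).  `φ` from `phi0`: `φ (up 1) = y`, so `φ g ∈ Y` for all `g`.
1. `Z`: all `uU 0 d`, `σ d = - d`, commute with `y` (`uU_mul`), so they are in `Y`.  `w := φ (wF)` has the matrix `(0 0 -1/2; 0 -1 0; -2 0 0)`; `w * uU 0 d * w⁻¹ = nU * uU 0 (4 d) * nU` (matrices: `w * uU 0 d = nU * uU 0 (4 d) * nU * w`), so all `nU * uU 0 d * nU` are in `Y`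
   (`d = 4 (d / 4)`).  `torus`: `hU l ∈ Y` for units `l` with `σ l = l`; in particular `t₁ := hU (-1) ∈ Y`.
2. Let `e ≠ 0`, `σ e = - e` (`h1`), `g := φ (lo 1) * uU 0 e ∈ Y`.  Its last column is `(e, -2 e, 1 - 2 e)` (`φ (lo 1)` has the matrix `(1 0 0; -2 1 0; -2 2 1)`, and the last column of `uU 0 e` is `(e, 0, 1)`).  `1 - 2 e ≠ 0` (otherwise `σ (1/2) = - 1/2`, so `1 = 0`).
   `α := -2 e / (1 - 2 e)`, `β := e / (1 - 2 e)`: `valid α β` (`σ β = - e / (1 + 2 e)`, `σ α = 2 e / (1 + 2 e)`).  `v := uU α β` has the last column `(β, α, 1)`, so `m := v⁻¹ * g ∈ SU_3` has the last column `(1 - 2 e) • (0, 0, 1)`.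
3. `m` normalises `Z⁻ := {nU * uU 0 d * nU}`: for the element `m' := nU * m * nU` has first column `(1 - 2 e) • (1, 0, 0)`, so `m' 2 0 = 0` and `borel`: `m' = uU a b * hU l`; `m' * uU 0 d * m'⁻¹ = uU 0 (l d σ l)` (`hU_conj`, `uU_mul`).
   So for all `d` with `σ d = - d`: `v * (nU * uU 0 d * nU) * v⁻¹ = g * (m⁻¹ * (nU uU 0 d nU) * m) * g⁻¹ ∈ Y` (`m⁻¹ (nU uU 0 d nU) m = nU * uU 0 d' * nU`, `σ d' = - d'`).
4. `Y' := Y.comap (conj v)` (elements `x` with `v * x * v⁻¹ ∈ Y`): it contains all `uU 0 d` (`v` commutes with them) and all `nU * uU 0 d * nU` (3.), so `torus` gives `hU l ∈ Y'`: `v * hU (-1) * v⁻¹ ∈ Y`.  With `t₁ = hU (-1) ∈ Y`: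
   `v * (t₁ * v⁻¹ * t₁⁻¹) ∈ Y`; `t₁ * v⁻¹ * t₁⁻¹ = uU α (..)` (`uU_inv`, `hU_conj` with `l = -1`: `-α ↦ -(-α) = α`), so the product is `uU (2 α) b₁` for some `b₁` (`uU_mul`), valid because it is in `SU_3` (or compute).
5. The set `S` of the `a` such that `uU a b ∈ Y` for some `b` with `valid a b`: contains `σ`-fixed `t` (`φ (up t) = uU t (-t²/2)`), contains `2 α`; closed under addition (`uU_mul`; the product of valid elements is valid) and under multiplication by `σ`-fixed units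
   (`hU_conj` with `l` fixed: `a ↦ a l`).  `2 α` is not fixed by `σ`: `σ (2α) = 2α` would give `-2e/(1-2e) = 2e/(1+2e)`, `e = 0`.  Every `x : F` is `s + t (2 α)` with `s, t` fixed: `t := (x - σ x)/(2 α - σ (2 α))` is fixed (numerator and denominator change sign), `s := x - t (2 α)`.
   So `S` is everything: for every valid `(a, b)` there is `uU a b' ∈ Y`, `valid a b'`, and `uU a b = uU a b' * uU 0 (b - b')` with `σ (b - b') = -(b - b')`, so `uU a b ∈ Y`.
6. `SU3_gen` with `g := φ (lo 1)` (entry `(2,0)` is `-2 ≠ 0`).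
-/

section
variable {F : Type} [Field F] (σ : F ≃+* F)

theorem SU3r_central (d a b : F) : uU σ 0 d * uU σ a b = uU σ a b * uU σ 0 d := by
  rw [uU_mul, uU_mul]
  congr 1
  · ring
  · rw [map_zero]; ring

theorem SU3r_low (d : F) : (nU F * uU σ 0 d * nU F).1 = !![1, 0, 0; 0, 1, 0; d, 0, 1] := by
  ext i j
  fin_cases i <;> fin_cases j <;>
    simp [nU, uU, Matrix.mul_apply, Fin.sum_univ_three]

theorem SU3r_entry (A : Matrix.SpecialLinearGroup (Fin 3) F) :
    (nU F * A * nU F).1 2 0 = A.1 0 2 := by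
  simp only [Matrix.SpecialLinearGroup.coe_mul, Matrix.mul_apply, Fin.sum_univ_three]
  simp [nU]

/-- step 1 -/
theorem SU3r_step1 (h2 : (2 : F) ≠ 0)
    (w : Matrix.SpecialLinearGroup (Fin 3) F)
    (hw : w.1 = !![0, 0, -(1 / 2 : F); 0, -1, 0; -2, 0, 0]) (d : F) :
    w * uU σ 0 d = nU F * uU σ 0 (4 * d) * nU F * w := by
  apply Subtype.ext
  rw [Matrix.SpecialLinearGroup.coe_mul, Matrix.SpecialLinearGroup.coe_mul, SU3r_low, hw]
  ext i j
  fin_cases i <;> fin_cases j <;>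
    simp [uU, Matrix.mul_apply, Fin.sum_univ_three]
  field_simp
  ring

end

theorem regular {F : Type} [Field F] (σ : F ≃+* F) (hs : ∀ x, σ (σ x) = x)
    (h1 : ∃ x, σ x ≠ x) (h2 : (2 : F) ≠ 0)
    (Y : Subgroup (Matrix.SpecialLinearGroup (Fin 3) F)) (hY : Y ≤ SU3 F σ)
    (hC : ∀ z ∈ SU3 F σ, z * uU σ 1 (-1 / 2) = uU σ 1 (-1 / 2) * z → z ∈ Y)
    (hφ : ∀ φ : Matrix.SpecialLinearGroup (Fin 2) (fixF σ) →* Matrix.SpecialLinearGroup (Fin 3) F,
      (∀ g, φ g ∈ SU3 F σ) → uU σ 1 (-1 / 2) ∈ φ.range → ∀ g, φ g ∈ Y) : Y = SU3 F σ := by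
  obtain ⟨φ, hφm, hφM⟩ := phi0 σ hs h2
  have h4 : (4 : F) ≠ 0 := by
    have : (4 : F) = 2 * 2 := by norm_num
    rw [this]; exact mul_ne_zero h2 h2
  -- the images of the upper unipotent elements
  have hup : ∀ t : fixF σ, φ ⟨!![1, t; 0, 1], by simp⟩ = uU σ (t : F) (-((t : F) ^ 2 / 2)) := by
    intro t
    apply Subtype.ext
    rw [hφM]
    have ht : σ (t : F) = t := t.2
    ext i j
    fin_cases i <;> fin_cases j <;> simp [uU, ht]
  have hYφ : ∀ g, φ g ∈ Y := by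
    refine hφ φ hφm ⟨⟨!![1, 1; 0, 1], by simp⟩, ?_⟩
    have h := hup 1
    have e1 : (((1 : fixF σ) : F)) = 1 := rfl
    rw [e1] at h
    rw [h]
    congr 1
    ring
  -- the centre of the root group
  have hval0 : ∀ d, σ d = -d → valid σ 0 d := by
    intro d hd
    unfold valid
    rw [hd, map_zero]; ring
  have hZ : ∀ d, σ d = -d → uU σ 0 d ∈ Y := by
    intro d hd
    exact hC _ (uU_mem σ hs (hval0 d hd)) (SU3r_central σ _ _ _)
  have hZ' : ∀ d, σ d = -d → nU F * uU σ 0 d * nU F ∈ Y := by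
    intro d hd
    let w0 : Matrix.SpecialLinearGroup (Fin 2) (fixF σ) := ⟨!![0, 1; -1, 0], by simp⟩
    have hw : (φ w0).1 = !![0, 0, -(1 / 2 : F); 0, -1, 0; -2, 0, 0] := by
      rw [hφM]
      ext i j
      fin_cases i <;> fin_cases j <;> simp [w0]
    have h5 := SU3r_step1 σ h2 (φ w0) hw (d / 4)
    have h6 : 4 * (d / 4) = d := by field_simp
    rw [h6] at h5
    have h7 : nU F * uU σ 0 d * nU F = φ w0 * uU σ 0 (d / 4) * (φ w0)⁻¹ :=
      eq_mul_inv_of_mul_eq h5.symm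
    rw [h7]
    refine Y.mul_mem (Y.mul_mem (hYφ _) (hZ _ ?_)) (Y.inv_mem (hYφ _))
    have h8 : σ (4 : F) = 4 := map_ofNat σ 4
    rw [map_div₀, hd, h8, neg_div]
  -- the element e
  obtain ⟨x0, hx0⟩ := h1
  obtain ⟨e, he, hse⟩ : ∃ e : F, e ≠ 0 ∧ σ e = -e := by
    refine ⟨x0 - σ x0, fun h => hx0 (sub_eq_zero.1 h).symm, ?_⟩
    rw [map_sub, hs]; ring
  have hs2 : σ (2 : F) = 2 := map_ofNat σ 2
  have hm : (1 : F) - 2 * e ≠ 0 := by
    intro h
    have h5 : σ ((1 : F) - 2 * e) = 1 + 2 * e := by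
      rw [map_sub, map_mul, map_one, hs2, hse]; ring
    rw [h, map_zero] at h5
    have h6 : (2 : F) = 0 := by linear_combination h + (-1 : F) * h5
    exact h2 h6
  have hp : (1 : F) + 2 * e ≠ 0 := by
    intro h
    have h5 : σ ((1 : F) + 2 * e) = 1 - 2 * e := by
      rw [map_add, map_mul, map_one, hs2, hse]; ring
    rw [h, map_zero] at h5
    exact hm h5.symm
  obtain ⟨α, hα⟩ : ∃ α : F, α = -2 * e / (1 - 2 * e) := ⟨_, rfl⟩
  obtain ⟨β, hβ⟩ : ∃ β : F, β = e / (1 - 2 * e) := ⟨_, rfl⟩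
  have hsm : σ ((1 : F) - 2 * e) = 1 + 2 * e := by
    rw [map_sub, map_mul, map_one, hs2, hse]; ring
  have hsα : σ α = 2 * e / (1 + 2 * e) := by
    rw [hα, map_div₀, hsm, map_mul, map_neg, hs2, hse]; ring
  have hsβ : σ β = -e / (1 + 2 * e) := by
    rw [hβ, map_div₀, hsm, hse]
  have kα : α * (1 - 2 * e) = -2 * e := by rw [hα]; exact div_mul_cancel₀ _ hm
  have kβ : β * (1 - 2 * e) = e := by rw [hβ]; exact div_mul_cancel₀ _ hm
  have ksα : σ α * (1 + 2 * e) = 2 * e := by rw [hsα]; exact div_mul_cancel₀ _ hp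
  have ksβ : σ β * (1 + 2 * e) = -e := by rw [hsβ]; exact div_mul_cancel₀ _ hp
  have hvαβ : valid σ α β := by
    unfold valid
    apply mul_left_cancel₀ (mul_ne_zero hm hp)
    linear_combination (1 + 2 * e) * kβ + (1 - 2 * e) * ksβ + (σ α * (1 + 2 * e)) * kα +
      (-2 * e) * ksα
  let lo1 : Matrix.SpecialLinearGroup (Fin 2) (fixF σ) := ⟨!![1, 0; 1, 1], by simp⟩
  have hlo : (φ lo1).1 = !![1, 0, 0; -2, 1, 0; -2, 2, 1] := by
    rw [hφM]
    ext i j
    fin_cases i <;> fin_cases j <;> simp [lo1]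
  obtain ⟨g, hg⟩ : ∃ g, g = φ lo1 * uU σ 0 e := ⟨_, rfl⟩
  have hgY : g ∈ Y := by
    rw [hg]; exact Y.mul_mem (hYφ _) (hZ e hse)
  have hgM : g.1 = !![1, 0, e; -2, 1, -2 * e; -2, 2, 1 - 2 * e] := by
    rw [hg, Matrix.SpecialLinearGroup.coe_mul, hlo]
    ext i j
    fin_cases i <;> fin_cases j <;>
      simp [uU, Matrix.mul_apply, Fin.sum_univ_three] <;> ring
  obtain ⟨v, hv⟩ : ∃ v, v = uU σ α β := ⟨_, rfl⟩
  have hvS : v ∈ SU3 F σ := by rw [hv]; exact uU_mem σ hs hvαβ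
  have hvi : v⁻¹ = uU σ (-α) (σ β) := by rw [hv]; exact uU_inv σ hs hvαβ
  obtain ⟨m, hmd⟩ : ∃ m, m = v⁻¹ * g := ⟨_, rfl⟩
  have hmS : m ∈ SU3 F σ := by
    rw [hmd]; exact (SU3 F σ).mul_mem ((SU3 F σ).inv_mem hvS) (hY hgY)
  have hm02 : m.1 0 2 = 0 := by
    rw [hmd, hvi, Matrix.SpecialLinearGroup.coe_mul, hgM]
    simp only [uU, Matrix.mul_apply, Fin.sum_univ_three, Matrix.of_apply, Matrix.cons_val',
      Matrix.cons_val_zero, Matrix.cons_val_one, Matrix.cons_val, map_neg]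
    apply mul_left_cancel₀ hp
    linear_combination (-2 * e) * ksα + (1 - 2 * e) * ksβ
  obtain ⟨m', hm'⟩ : ∃ m', m' = nU F * m * nU F := ⟨_, rfl⟩
  have hm'S : m' ∈ SU3 F σ := by
    rw [hm']
    exact (SU3 F σ).mul_mem ((SU3 F σ).mul_mem (nU_mem σ) hmS) (nU_mem σ)
  have hm'0 : m'.1 2 0 = 0 := by
    rw [hm', SU3r_entry]
    exact hm02
  obtain ⟨l, a, b, hab, hm'e⟩ := borel σ hs hm'S hm'0
  have hnn : nU F * nU F = 1 := nU_mul_nU
  have hmm' : m = nU F * m' * nU F := by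
    rw [hm']
    calc m = 1 * m * 1 := by rw [one_mul, mul_one]
      _ = (nU F * nU F) * m * (nU F * nU F) := by rw [hnn]
      _ = _ := by simp only [mul_assoc]
  -- step 3
  have hstep3 : ∀ d, σ d = -d → v * (nU F * uU σ 0 d * nU F) * v⁻¹ ∈ Y := by
    intro d hd
    have hl0 : (l : F) ≠ 0 := l.ne_zero
    have hsl0 : σ (l : F) ≠ 0 := fun h => hl0 ((map_eq_zero σ).1 h)
    obtain ⟨d', hd'⟩ : ∃ d' : F, d' = d / (l * σ l) := ⟨_, rfl⟩
    have hsd' : σ d' = -d' := by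
      rw [hd', map_div₀, map_mul, hs, hd, neg_div, mul_comm (σ (l : F))]
    have hc := hU_conj σ hs l 0 d'
    have hc1 : (0 : F) * σ l ^ 2 / l = 0 := by simp
    have hc2 : (l : F) * d' * σ l = d := by rw [hd']; field_simp
    rw [hc1, hc2] at hc
    have hc3 : hU σ l * uU σ 0 d' = uU σ 0 d * hU σ l := by
      rw [← hc]; group
    have hc4 : m' * uU σ 0 d' = uU σ 0 d * m' := by
      rw [hm'e, mul_assoc, hc3, ← mul_assoc, ← mul_assoc, SU3r_central]
    have hc5 : (nU F * uU σ 0 d * nU F) * m = m * (nU F * uU σ 0 d' * nU F) := by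
      rw [hmm']
      calc (nU F * uU σ 0 d * nU F) * (nU F * m' * nU F)
          = nU F * uU σ 0 d * (nU F * nU F) * m' * nU F := by simp only [mul_assoc]
        _ = nU F * (uU σ 0 d * m') * nU F := by rw [hnn, mul_one]; simp only [mul_assoc]
        _ = nU F * (m' * uU σ 0 d') * nU F := by rw [hc4]
        _ = nU F * m' * (nU F * nU F) * uU σ 0 d' * nU F := by
            rw [hnn, mul_one]; simp only [mul_assoc]
        _ = _ := by simp only [mul_assoc]
    have hvg : v = g * m⁻¹ := by rw [hmd]; group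
    have hc6 : v * (nU F * uU σ 0 d * nU F) * v⁻¹ = g * (nU F * uU σ 0 d' * nU F) * g⁻¹ := by
      have hc7 : m⁻¹ * (nU F * uU σ 0 d * nU F) * m = nU F * uU σ 0 d' * nU F := by
        rw [mul_assoc, hc5, ← mul_assoc, inv_mul_cancel, one_mul]
      rw [← hc7, hvg]
      group
    rw [hc6]
    exact Y.mul_mem (Y.mul_mem hgY (hZ' d' hsd')) (Y.inv_mem hgY)
  -- step 4
  have htor : ∀ l : Fˣ, σ (l : F) = l → hU σ l ∈ Y := fun l hl =>
    torus σ hs ⟨x0, hx0⟩ Y hZ hZ' l hl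
  have hsm1 : σ (((-1 : Fˣ) : F)) = ((-1 : Fˣ) : F) := by simp
  have ht1 : hU σ (-1) ∈ Y := htor (-1) hsm1
  have ht2 : v * hU σ (-1) * v⁻¹ ∈ Y := by
    have h5 : hU σ (-1) ∈ Y.comap (MulAut.conj v).toMonoidHom := by
      refine torus σ hs ⟨x0, hx0⟩ _ ?_ ?_ (-1) hsm1
      · intro d hd
        rw [Subgroup.mem_comap]
        change v * uU σ 0 d * v⁻¹ ∈ Y
        have h6 : v * uU σ 0 d * v⁻¹ = uU σ 0 d := by
          rw [hv, ← SU3r_central, mul_assoc, mul_inv_cancel, mul_one]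
        rw [h6]
        exact hZ d hd
      · intro d hd
        rw [Subgroup.mem_comap]
        exact hstep3 d hd
    rw [Subgroup.mem_comap] at h5
    exact h5
  have hsub : ∃ b₁, valid σ (2 * α) b₁ ∧ uU σ (2 * α) b₁ ∈ Y := by
    refine ⟨σ β + β - σ α * α, ?_, ?_⟩
    · unfold valid at hvαβ ⊢
      rw [map_sub, map_add, map_mul, map_mul, hs, hs, hs2]
      linear_combination 2 * hvαβ
    · have h5 := Y.mul_mem ht2 (Y.inv_mem ht1)
      have h6 : v * hU σ (-1) * v⁻¹ * (hU σ (-1))⁻¹ = uU σ (2 * α) (σ β + β - σ α * α) := by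
        have h7 := hU_conj σ hs (-1) (-α) (σ β)
        rw [← hvi] at h7
        have h8 : (-α) * σ (((-1 : Fˣ) : F)) ^ 2 / ((-1 : Fˣ) : F) = α := by
          rw [hsm1]; simp
        have h9 : (((-1 : Fˣ) : F)) * σ β * σ (((-1 : Fˣ) : F)) = σ β := by
          rw [hsm1]; simp
        rw [h8, h9] at h7
        calc v * hU σ (-1) * v⁻¹ * (hU σ (-1))⁻¹ = v * (hU σ (-1) * v⁻¹ * (hU σ (-1))⁻¹) := by
              simp only [mul_assoc]
          _ = uU σ α β * uU σ α (σ β) := by rw [h7, hv]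
          _ = _ := by
            rw [uU_mul]
            congr 1
            ring
      rw [← h6]
      exact h5
  -- step 5
  have hadd : ∀ a a', (∃ b, valid σ a b ∧ uU σ a b ∈ Y) → (∃ b, valid σ a' b ∧ uU σ a' b ∈ Y) →
      ∃ b, valid σ (a + a') b ∧ uU σ (a + a') b ∈ Y := by
    rintro a a' ⟨b, hb, hbY⟩ ⟨b', hb', hbY'⟩
    refine ⟨b' + b - σ a * a', ?_, ?_⟩
    · unfold valid at hb hb' ⊢
      rw [map_sub, map_add, map_mul, map_add, hs]
      linear_combination hb + hb'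
    · rw [← uU_mul]
      exact Y.mul_mem hbY hbY'
  have hfix : ∀ t, σ t = t → ∃ b, valid σ t b ∧ uU σ t b ∈ Y := by
    intro t ht
    refine ⟨-(t ^ 2 / 2), ?_, ?_⟩
    · unfold valid
      rw [map_neg, map_div₀, map_pow, ht, hs2]
      field_simp
      ring
    · have h5 := hYφ ⟨!![1, (⟨t, ht⟩ : fixF σ); 0, 1], by simp⟩
      rw [hup ⟨t, ht⟩] at h5
      exact h5
  have hscal : ∀ a t, σ t = t → (∃ b, valid σ a b ∧ uU σ a b ∈ Y) →
      ∃ b, valid σ (t * a) b ∧ uU σ (t * a) b ∈ Y := by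
    rintro a t ht ⟨b, hb, hbY⟩
    by_cases h0 : t = 0
    · subst h0
      rw [zero_mul]
      exact hfix 0 (map_zero σ)
    · have h5 := hU_conj σ hs (Units.mk0 t h0) a b
      have hm0 : ((Units.mk0 t h0 : Fˣ) : F) = t := rfl
      rw [hm0, ht] at h5
      have h6 : a * t ^ 2 / t = t * a := by field_simp
      rw [h6] at h5
      refine ⟨t * b * t, ?_, ?_⟩
      · unfold valid at hb ⊢
        rw [map_mul, map_mul, map_mul, ht]
        linear_combination t ^ 2 * hb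
      · rw [← h5]
        have h7 : hU σ (Units.mk0 t h0) ∈ Y := htor _ ht
        exact Y.mul_mem (Y.mul_mem h7 hbY) (Y.inv_mem h7)
  have hall : ∀ x : F, ∃ b, valid σ x b ∧ uU σ x b ∈ Y := by
    intro x
    have hden : 2 * α - σ (2 * α) ≠ 0 := by
      intro h
      rw [map_mul, hs2, hsα, hα] at h
      have h5 : (-8 : F) * e = 0 := by
        field_simp at h
        linear_combination h
      have h6 : (8 : F) ≠ 0 := by
        have : (8 : F) = 2 * 4 := by norm_num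
        rw [this]; exact mul_ne_zero h2 h4
      have h7 : (8 : F) * e = 0 := by linear_combination -h5
      rcases mul_eq_zero.1 h7 with h8 | h8
      · exact h6 h8
      · exact he h8
    obtain ⟨t, ht⟩ : ∃ t : F, t = (x - σ x) / (2 * α - σ (2 * α)) := ⟨_, rfl⟩
    have hst : σ t = t := by
      rw [ht, map_div₀, map_sub, map_sub, hs, hs]
      rw [← neg_sub x (σ x), ← neg_sub (2 * α) (σ (2 * α)), neg_div_neg_eq]
    have htd : t * (2 * α - σ (2 * α)) = x - σ x := by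
      rw [ht]; field_simp
    have hss : σ (x - t * (2 * α)) = x - t * (2 * α) := by
      rw [map_sub, map_mul, hst]
      linear_combination htd
    have h5 := hadd _ _ (hfix _ hss) (hscal (2 * α) t hst hsub)
    have h6 : x - t * (2 * α) + t * (2 * α) = x := by ring
    rw [h6] at h5
    exact h5
  have hUall : ∀ a b, valid σ a b → uU σ a b ∈ Y := by
    intro a b hab
    obtain ⟨b', hb', hbY'⟩ := hall a
    have h5 : uU σ a b = uU σ a b' * uU σ 0 (b - b') := by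
      rw [uU_mul]
      congr 1
      · ring
      · ring
    rw [h5]
    refine Y.mul_mem hbY' (hZ _ ?_)
    unfold valid at hab hb'
    rw [map_sub]
    linear_combination hab - hb'
  refine SU3_gen σ hs ⟨x0, hx0⟩ Y hY hUall (φ lo1) (hYφ lo1) ?_
  rw [hlo]
  simp
  exact h2

end Pool.Agent.MP_1c8e06_ag.AN
end

section

set_option autoImplicit false

namespace Pool.Agent.MP_1c8e06_ag.AN

/-!
# Task SU3x: all elements of order `p` (assembly)

`scale`: `θ A := D * A * D⁻¹` with `D = diag(l, 1, (σ l)⁻¹)` (as explicit matrices `D`, `D' = diag(l⁻¹, 1, σ l)`; `D D' = 1`; the determinant of `D A D'` is that of `A`); it preserves `SU_3` because `D J σ(D)ᵀ = J` (and the same for `D'`); on `uU a b`: entries.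
`SU3_all`: transport: if `θ : SL_3 ≃* SL_3` maps `SU_3` onto itself (`θ A ∈ SU_3 ↔ A ∈ SU_3`), then `Y' := Y.map θ.toMonoidHom`, `y' := θ y` satisfy the same hypotheses (`hC`, `hφ`: for `φ` with `y' ∈ φ.range` take `θ.symm.toMonoidHom.comp φ`), and `Y' = SU_3` gives `Y = SU_3`.
First `θ₁ := MulAut.conj g₁⁻¹` with `g₁` from `SU3_conj` (`g₁ ∈ SU_3`): `θ₁ y = uU a b`, `valid a b`.  If `a = 0`: `σ b = - b`, `b ≠ 0` (otherwise `y = 1`): `transv`.
If `a ≠ 0`: `θ₂` from `scale` with `l := σ a⁻¹` (so `σ l = a⁻¹`): `uU a b ↦ uU 1 b'`, `valid 1 b'` (membership, or compute `b' = b / (a σ a)`), i.e. `b' + σ b' + 1 = 0`.  `c := -(b' + 1/2) / 2`, `σ (b' + 1/2) = -(b' + 1/2)`, so `σ c = - c`; `valid c d` for `d := - c σ c / 2`.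
`θ₃ := MulAut.conj (uU c d)`: `uU c d * uU 1 b' = uU (c + 1) (b' + d - σ c)`, `uU 1 (-1/2) * uU c d = uU (1 + c) (d - 1/2 - c)` (`uU_mul`); these are equal iff `b' - σ c = -1/2 - c` iff `b' + 1/2 = σ c - c = -2 c`: true.  So `θ₃ (uU 1 b') = uU 1 (-1/2)`.  `regular`
(`2 ≠ 0` in `F` since `p ≠ 2`).
-/

section
variable {F : Type} [Field F]

/-- Conjugation by an invertible matrix `D` with inverse `D'`. -/
private def SU3x_conj (D D' : Matrix (Fin 3) (Fin 3) F) (h : D * D' = 1) (h' : D' * D = 1) :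
    Matrix.SpecialLinearGroup (Fin 3) F ≃* Matrix.SpecialLinearGroup (Fin 3) F where
  toFun A := ⟨D * (A : Matrix (Fin 3) (Fin 3) F) * D', by
    rw [Matrix.det_mul, Matrix.det_mul, A.2, mul_one, ← Matrix.det_mul, h, Matrix.det_one]⟩
  invFun A := ⟨D' * (A : Matrix (Fin 3) (Fin 3) F) * D, by
    rw [Matrix.det_mul, Matrix.det_mul, A.2, mul_one, ← Matrix.det_mul, h', Matrix.det_one]⟩
  left_inv A := by
    apply Subtype.ext
    change D' * (D * (A : Matrix (Fin 3) (Fin 3) F) * D') * D = (A : Matrix (Fin 3) (Fin 3) F)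
    calc D' * (D * (A : Matrix (Fin 3) (Fin 3) F) * D') * D
        = (D' * D) * (A : Matrix (Fin 3) (Fin 3) F) * (D' * D) := by simp only [Matrix.mul_assoc]
      _ = _ := by rw [h', Matrix.one_mul, Matrix.mul_one]
  right_inv A := by
    apply Subtype.ext
    change D * (D' * (A : Matrix (Fin 3) (Fin 3) F) * D) * D' = (A : Matrix (Fin 3) (Fin 3) F)
    calc D * (D' * (A : Matrix (Fin 3) (Fin 3) F) * D) * D'
        = (D * D') * (A : Matrix (Fin 3) (Fin 3) F) * (D * D') := by simp only [Matrix.mul_assoc]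
      _ = _ := by rw [h, Matrix.one_mul, Matrix.mul_one]
  map_mul' A B := by
    apply Subtype.ext
    change D * ((A * B : Matrix.SpecialLinearGroup (Fin 3) F) : Matrix (Fin 3) (Fin 3) F) * D' =
      (D * (A : Matrix (Fin 3) (Fin 3) F) * D') * (D * (B : Matrix (Fin 3) (Fin 3) F) * D')
    rw [Matrix.SpecialLinearGroup.coe_mul]
    calc D * ((A : Matrix (Fin 3) (Fin 3) F) * (B : Matrix (Fin 3) (Fin 3) F)) * D'
        = D * (A : Matrix (Fin 3) (Fin 3) F) * 1 * (B : Matrix (Fin 3) (Fin 3) F) * D' := by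
          rw [Matrix.mul_one]; simp only [Matrix.mul_assoc]
      _ = D * (A : Matrix (Fin 3) (Fin 3) F) * (D' * D) * (B : Matrix (Fin 3) (Fin 3) F) * D' := by
          rw [h']
      _ = _ := by simp only [Matrix.mul_assoc]

private theorem SU3x_conj_coe (D D' : Matrix (Fin 3) (Fin 3) F) (h : D * D' = 1) (h' : D' * D = 1)
    (A : Matrix.SpecialLinearGroup (Fin 3) F) :
    ((SU3x_conj D D' h h' A : Matrix.SpecialLinearGroup (Fin 3) F) : Matrix (Fin 3) (Fin 3) F) =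
      D * (A : Matrix (Fin 3) (Fin 3) F) * D' := rfl

private theorem SU3x_conj_mem (σ : F ≃+* F) (D D' : Matrix (Fin 3) (Fin 3) F) (h : D * D' = 1)
    (h' : D' * D = 1) (hD : D * J3 F * (D.map σ).transpose = J3 F)
    (A : Matrix.SpecialLinearGroup (Fin 3) F) (hA : A ∈ SU3 F σ) :
    SU3x_conj D D' h h' A ∈ SU3 F σ := by
  have h1 : (D.map σ).transpose * (D'.map σ).transpose = 1 := by
    rw [← Matrix.transpose_mul, ← Matrix.map_mul, h', Matrix.map_one σ (map_zero σ) (map_one σ),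
      Matrix.transpose_one]
  have hD' : D' * J3 F * (D'.map σ).transpose = J3 F := by
    calc D' * J3 F * (D'.map σ).transpose
        = D' * (D * J3 F * (D.map σ).transpose) * (D'.map σ).transpose := by rw [hD]
      _ = (D' * D) * J3 F * ((D.map σ).transpose * (D'.map σ).transpose) := by
          simp only [Matrix.mul_assoc]
      _ = J3 F := by rw [h', h1, Matrix.one_mul, Matrix.mul_one]
  change (A : Matrix (Fin 3) (Fin 3) F) * J3 F *
    ((A : Matrix (Fin 3) (Fin 3) F).map σ).transpose = J3 F at hA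
  change ((SU3x_conj D D' h h' A : Matrix.SpecialLinearGroup (Fin 3) F) :
      Matrix (Fin 3) (Fin 3) F) * J3 F *
    (((SU3x_conj D D' h h' A : Matrix.SpecialLinearGroup (Fin 3) F) :
      Matrix (Fin 3) (Fin 3) F).map σ).transpose = J3 F
  rw [SU3x_conj_coe, Matrix.map_mul, Matrix.map_mul, Matrix.transpose_mul, Matrix.transpose_mul]
  calc _ = D * ((A : Matrix (Fin 3) (Fin 3) F) * (D' * J3 F * (D'.map σ).transpose) *
          ((A : Matrix (Fin 3) (Fin 3) F).map σ).transpose) * (D.map σ).transpose := by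
          simp only [Matrix.mul_assoc]
    _ = J3 F := by rw [hD', hA, hD]

private theorem SU3x_conj_symm (D D' : Matrix (Fin 3) (Fin 3) F) (h : D * D' = 1)
    (h' : D' * D = 1) (A : Matrix.SpecialLinearGroup (Fin 3) F) :
    SU3x_conj D' D h' h (SU3x_conj D D' h h' A) = A := (SU3x_conj D D' h h').left_inv A

end

theorem scale {F : Type} [Field F] (σ : F ≃+* F) (hs : ∀ x, σ (σ x) = x) (l : Fˣ) :
    ∃ θ : Matrix.SpecialLinearGroup (Fin 3) F ≃* Matrix.SpecialLinearGroup (Fin 3) F,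
      (∀ A, θ A ∈ SU3 F σ ↔ A ∈ SU3 F σ) ∧
      ∀ a b, θ (uU σ a b) = uU σ (a * σ l) (l * b * σ l) := by
  have hl : (l : F) ≠ 0 := l.ne_zero
  have hsl : σ l ≠ 0 := fun h => hl ((map_eq_zero σ).1 h)
  let D : Matrix (Fin 3) (Fin 3) F := !![(l : F), 0, 0; 0, 1, 0; 0, 0, (σ l)⁻¹]
  let D' : Matrix (Fin 3) (Fin 3) F := !![(l : F)⁻¹, 0, 0; 0, 1, 0; 0, 0, σ l]
  have h : D * D' = 1 := by
    ext i j
    fin_cases i <;> fin_cases j <;>
      simp [D, D', Matrix.mul_apply, Fin.sum_univ_three, hl, hsl]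
  have h' : D' * D = 1 := by
    ext i j
    fin_cases i <;> fin_cases j <;>
      simp [D, D', Matrix.mul_apply, Fin.sum_univ_three, hl, hsl]
  have hD : D * J3 F * (D.map σ).transpose = J3 F := by
    ext i j
    fin_cases i <;> fin_cases j <;>
      simp [D, J3, Matrix.mul_apply, Fin.sum_univ_three, hl, hsl, hs]
  have hD' : D' * J3 F * (D'.map σ).transpose = J3 F := by
    ext i j
    fin_cases i <;> fin_cases j <;>
      simp [D', J3, Matrix.mul_apply, Fin.sum_univ_three, hl, hsl, hs]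
  refine ⟨SU3x_conj D D' h h', fun A => ⟨fun hA => ?_, SU3x_conj_mem σ D D' h h' hD A⟩, ?_⟩
  · have := SU3x_conj_mem σ D' D h' h hD' _ hA
    rwa [SU3x_conj_symm] at this
  · intro a b
    apply Subtype.ext
    change D * ((uU σ a b : Matrix.SpecialLinearGroup (Fin 3) F) : Matrix (Fin 3) (Fin 3) F) * D' =
      ((uU σ (a * σ l) (l * b * σ l) : Matrix.SpecialLinearGroup (Fin 3) F) :
        Matrix (Fin 3) (Fin 3) F)
    ext i j
    fin_cases i <;> fin_cases j <;>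
      simp [D, D', uU, Matrix.mul_apply, Fin.sum_univ_three, hl, hsl, hs, mul_comm]

private theorem SU3x_transport {F : Type} [Field F] (σ : F ≃+* F)
    (θ : Matrix.SpecialLinearGroup (Fin 3) F ≃* Matrix.SpecialLinearGroup (Fin 3) F)
    (hθ : ∀ A, θ A ∈ SU3 F σ ↔ A ∈ SU3 F σ)
    (y : Matrix.SpecialLinearGroup (Fin 3) F)
    (H : ∀ Y : Subgroup (Matrix.SpecialLinearGroup (Fin 3) F), Y ≤ SU3 F σ →
      (∀ z ∈ SU3 F σ, z * θ y = θ y * z → z ∈ Y) →
      (∀ φ : Matrix.SpecialLinearGroup (Fin 2) (fixF σ) →* Matrix.SpecialLinearGroup (Fin 3) F,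
        (∀ g, φ g ∈ SU3 F σ) → θ y ∈ φ.range → ∀ g, φ g ∈ Y) → Y = SU3 F σ)
    (Y : Subgroup (Matrix.SpecialLinearGroup (Fin 3) F)) (hY : Y ≤ SU3 F σ)
    (hC : ∀ z ∈ SU3 F σ, z * y = y * z → z ∈ Y)
    (hφ : ∀ φ : Matrix.SpecialLinearGroup (Fin 2) (fixF σ) →* Matrix.SpecialLinearGroup (Fin 3) F,
      (∀ g, φ g ∈ SU3 F σ) → y ∈ φ.range → ∀ g, φ g ∈ Y) : Y = SU3 F σ := by
  have key := H (Y.map θ.toMonoidHom) ?_ ?_ ?_
  · refine le_antisymm hY fun x hx => ?_
    have hx' : θ x ∈ Y.map θ.toMonoidHom := by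
      rw [key]
      exact (hθ x).2 hx
    obtain ⟨x', hx'Y, hx'e⟩ := Subgroup.mem_map.1 hx'
    have : x' = x := θ.injective hx'e
    rwa [← this]
  · intro z hz
    obtain ⟨x, hx, rfl⟩ := Subgroup.mem_map.1 hz
    exact (hθ x).2 (hY hx)
  · intro z hz hzy
    refine Subgroup.mem_map.2 ⟨θ.symm z, ?_, θ.apply_symm_apply z⟩
    refine hC _ ?_ ?_
    · rw [← hθ, θ.apply_symm_apply]
      exact hz
    · apply θ.injective
      rw [map_mul, map_mul, θ.apply_symm_apply]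
      exact hzy
  · intro φ hφ1 hφ2 g
    refine Subgroup.mem_map.2 ⟨θ.symm (φ g), ?_, θ.apply_symm_apply _⟩
    refine hφ (θ.symm.toMonoidHom.comp φ) (fun g => ?_) ?_ g
    · rw [← hθ]
      change θ (θ.symm (φ g)) ∈ SU3 F σ
      rw [θ.apply_symm_apply]
      exact hφ1 g
    · obtain ⟨g₀, hg₀⟩ := MonoidHom.mem_range.1 hφ2
      refine MonoidHom.mem_range.2 ⟨g₀, ?_⟩
      change θ.symm (φ g₀) = y
      rw [hg₀, θ.symm_apply_apply]

theorem SU3_all {p : ℕ} [hp : Fact p.Prime] (hp2 : p ≠ 2) {F : Type} [Field F] [Finite F]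
    [CharP F p] (σ : F ≃+* F) (hs : ∀ x, σ (σ x) = x) (h1 : ∃ x, σ x ≠ x)
    (y : Matrix.SpecialLinearGroup (Fin 3) F) (hy : y ∈ SU3 F σ) (hyp : y ^ p = 1) (hy1 : y ≠ 1)
    (Y : Subgroup (Matrix.SpecialLinearGroup (Fin 3) F)) (hY : Y ≤ SU3 F σ)
    (hC : ∀ z ∈ SU3 F σ, z * y = y * z → z ∈ Y)
    (hφ : ∀ φ : Matrix.SpecialLinearGroup (Fin 2) (fixF σ) →* Matrix.SpecialLinearGroup (Fin 3) F,
      (∀ g, φ g ∈ SU3 F σ) → y ∈ φ.range → ∀ g, φ g ∈ Y) : Y = SU3 F σ := by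
  have h2 : (2 : F) ≠ 0 := by
    intro h
    have h3 : ((2 : ℕ) : F) = 0 := by exact_mod_cast h
    rw [CharP.cast_eq_zero_iff F p 2] at h3
    exact hp2 ((Nat.prime_dvd_prime_iff_eq hp.out Nat.prime_two).1 h3)
  obtain ⟨g, hg, a, b, hv, hga⟩ := SU3_conj σ hs h1 y hy hyp
  have hconj : ∀ u ∈ SU3 F σ, ∀ A, MulAut.conj u A ∈ SU3 F σ ↔ A ∈ SU3 F σ := by
    intro u hu A
    rw [MulAut.conj_apply]
    constructor
    · intro hA
      have h3 := (SU3 F σ).mul_mem ((SU3 F σ).mul_mem ((SU3 F σ).inv_mem hu) hA) hu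
      have h4 : u⁻¹ * (u * A * u⁻¹) * u = A := by group
      rwa [h4] at h3
    · intro hA
      exact (SU3 F σ).mul_mem ((SU3 F σ).mul_mem hu hA) ((SU3 F σ).inv_mem hu)
  refine SU3x_transport σ (MulAut.conj g⁻¹) (hconj _ ((SU3 F σ).inv_mem hg)) y ?_ Y hY hC hφ
  have e1 : MulAut.conj g⁻¹ y = uU σ a b := by
    rw [MulAut.conj_apply, inv_inv, hga]
  rw [e1]
  by_cases ha : a = 0
  · subst ha
    have hsb : σ b = -b := by
      have : b + σ b = 0 := by simpa [valid] using hv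
      linear_combination this
    have hb : b ≠ 0 := by
      rintro rfl
      apply hy1
      rw [uU_zero] at hga
      calc y = g * (g⁻¹ * y * g) * g⁻¹ := by group
        _ = 1 := by rw [hga]; group
    exact fun Y hY hC hφ => transv σ hs h1 b hb hsb Y hY hC hφ
  · have hsa : σ a ≠ 0 := fun h => ha ((map_eq_zero σ).1 h)
    obtain ⟨θ, hθ, hθu⟩ := scale σ hs (Units.mk0 (σ a)⁻¹ (inv_ne_zero hsa))
    have e2 : θ (uU σ a b) = uU σ 1 ((σ a)⁻¹ * b * a⁻¹) := by
      rw [hθu]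
      simp only [Units.val_mk0, map_inv₀, hs, mul_inv_cancel₀ ha]
    intro Y hY hC hφ
    refine SU3x_transport σ θ hθ (uU σ a b) ?_ Y hY hC hφ
    rw [e2]
    set b' := (σ a)⁻¹ * b * a⁻¹ with hb'
    have hv' : b' + σ b' + 1 = 0 := by
      have h3 : b + σ b + a * σ a = 0 := hv
      have h4 : σ b' = a⁻¹ * σ b * (σ a)⁻¹ := by
        rw [hb']
        simp only [map_mul, map_inv₀, hs]
      rw [h4, hb']
      field_simp
      linear_combination h3
    have hs2 : σ (1 / 2 : F) = 1 / 2 := by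
      rw [map_div₀, map_one, map_ofNat]
    set c : F := -(b' + 1 / 2) / 2 with hc
    have hsc : σ c = -c := by
      have h3 : σ b' = - b' - 1 := by linear_combination hv'
      rw [hc, map_div₀, map_neg, map_add, hs2, map_ofNat, h3]
      field_simp
      ring
    set d : F := -c * σ c / 2 with hd
    have hvd : valid σ c d := by
      have h3 : σ d = d := by
        rw [hd, map_div₀, map_mul, map_neg, map_ofNat, hs, hsc]
        ring
      change d + σ d + c * σ c = 0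
      rw [h3, hd]
      field_simp
      ring
    have e3 : MulAut.conj (uU σ c d) (uU σ 1 b') = uU σ 1 (-1 / 2) := by
      rw [MulAut.conj_apply, mul_inv_eq_iff_eq_mul, uU_mul, uU_mul, map_one, hsc]
      have h3 : c + 1 = 1 + c := add_comm _ _
      have h4 : b' + d - -c * 1 = d + -1 / 2 - 1 * c := by
        have : b' = -2 * c - 1 / 2 := by
          rw [hc]
          field_simp
          ring
        rw [this]
        ring
      rw [h3, h4]
    intro Y hY hC hφ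
    refine SU3x_transport σ (MulAut.conj (uU σ c d)) (hconj _ (uU_mem σ hs hvd)) (uU σ 1 b') ?_
      Y hY hC hφ
    rw [e3]
    exact fun Y hY hC hφ => regular σ hs h1 h2 Y hY hC hφ

end Pool.Agent.MP_1c8e06_ag.AN
end
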