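import Pool.Agent.Lib.MP_1c8e06_ag.Mg.G096
import Pool.Agent.Lib.MP_1c8e06_ag.Mg.G095
import Pool.Agent.Lib.MP_1c8e06_ag.Mg.G094
import Pool.Agent.Lib.MP_1c8e06_ag.Mg.G090
import Pool.Agent.Lib.MP_1c8e06_ag.Mg.G093
import Pool.Agent.Lib.MP_1c8e06_ag.Mg.G098

section

set_option autoImplicit false

open Polynomial

namespace Pool.Agent.MP_1c8e06_ag.AI

noncomputable section

private theorem EN_compL {κ : Type} [Field κ] (q f : κ[X]) :
    compL q f = (f.map (HahnSeries.C : κ →+* LaurentSeries κ)).comp (ftL q) := by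
  have h1 : compL q f = Polynomial.map (HahnSeries.ofPowerSeries ℤ κ)
      (Polynomial.eval₂ ((Polynomial.C : PowerSeries κ →+* (PowerSeries κ)[X]).comp
        (PowerSeries.C : κ →+* PowerSeries κ)) (ft q) f) := rfl
  have h2 := Polynomial.hom_eval₂ f ((Polynomial.C : PowerSeries κ →+* (PowerSeries κ)[X]).comp
        (PowerSeries.C : κ →+* PowerSeries κ)) (Polynomial.mapRingHom (HahnSeries.ofPowerSeries ℤ κ))
        (ft q)
  have h3 : (Polynomial.mapRingHom (HahnSeries.ofPowerSeries ℤ κ)).comp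
      ((Polynomial.C : PowerSeries κ →+* (PowerSeries κ)[X]).comp
        (PowerSeries.C : κ →+* PowerSeries κ)) =
      (Polynomial.C : LaurentSeries κ →+* (LaurentSeries κ)[X]).comp
        (HahnSeries.C : κ →+* LaurentSeries κ) := by
    refine RingHom.ext fun c => ?_
    rw [RingHom.comp_apply, RingHom.comp_apply, RingHom.comp_apply, Polynomial.coe_mapRingHom,
      Polynomial.map_C, HahnSeries.ofPowerSeries_C]
  rw [h3] at h2
  rw [h1, Polynomial.comp, Polynomial.eval₂_map]
  exact h2

private theorem EN_natDegree_ftL {κ : Type} [Field κ] (q : κ[X]) (hq0 : q.coeff 0 = 1) :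
    (ftL q).natDegree = 1 + q.natDegree := by
  have h1 : ftL q = X * (q.map (HahnSeries.C : κ →+* LaurentSeries κ)).comp
      (C (HahnSeries.single 1 1) * X) := by
    unfold ftL ft
    rw [Polynomial.map_mul, Polynomial.map_X, Polynomial.map_comp, Polynomial.map_map,
      Polynomial.map_mul, Polynomial.map_X, Polynomial.map_C, HahnSeries.ofPowerSeries_X]
    congr 3
    refine RingHom.ext fun c => ?_
    rw [RingHom.comp_apply, HahnSeries.ofPowerSeries_C]
  have h2 : (q.map (HahnSeries.C : κ →+* LaurentSeries κ)).comp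
      (C (HahnSeries.single 1 1) * X) ≠ 0 := by
    intro h
    have h3 := congrArg (Polynomial.eval 0) h
    rw [Polynomial.eval_comp, Polynomial.eval_mul, Polynomial.eval_X, mul_zero,
      Polynomial.eval_zero, ← Polynomial.coeff_zero_eq_eval_zero, Polynomial.coeff_map, hq0,
      map_one] at h3
    exact one_ne_zero h3
  have h4 : (HahnSeries.single (1 : ℤ) (1 : κ) : LaurentSeries κ) ≠ 0 :=
    HahnSeries.single_ne_zero one_ne_zero
  rw [h1, Polynomial.natDegree_X_mul h2, Polynomial.natDegree_comp, Polynomial.natDegree_map,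
    Polynomial.natDegree_C_mul_X _ h4, mul_one, add_comm]


/-!
# Task EN: the environment exists

Proof.  `compL q f = (f.map HahnSeries.C).comp (ftL q)` for all `f` (both sides are ring
homomorphisms in `f`; check `C c`, `X`; `ofPowerSeries (PowerSeries.C c) = HahnSeries.C c`).
`(ftL q).natDegree = 1 + q.natDegree`: `ftL q = X * ∑_n C (q_n t^n) X^n` with
`q_n t^n = single n q_n`; leading coefficient `q_d t^d ≠ 0`.
`σ`: `exists_sigmaE F HahnSeries.C (ftL q) _ (compL q F) _`.
The rest: `exists_TayE`, `exists_sw`, `exists_nab`.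
Also prove the degree formula `(compL q f).natDegree = f.natDegree * (1 + q.natDegree)`
(`natDegree_comp`, `natDegree_map_eq_of_injective`).
-/
theorem natDegree_compL {κ : Type} [Field κ] (q : κ[X]) (hq0 : q.coeff 0 = 1) (f : κ[X]) :
    (compL q f).natDegree = f.natDegree * (1 + q.natDegree) := by
  rw [EN_compL, natDegree_comp, natDegree_map, EN_natDegree_ftL q hq0]

theorem exists_Env {p : ℕ} [hp : Fact p.Prime] {κ : Type} [Field κ] [CharP κ p] (F q : κ[X])
    (hq0 : q.coeff 0 = 1) (hq1 : q.eval 1 = 0) (hq' : (derivative q).eval 1 ≠ 0) :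
    Nonempty (Env p κ F q) := by
  obtain ⟨T, hT0, hTze, hTtau⟩ := exists_TayE F q hq0
  obtain ⟨σ, hσze, -, hσtau, -, -⟩ := exists_sigmaE (p := p) F
    (HahnSeries.C : κ →+* LaurentSeries κ) (ftL q)
    (by rw [EN_natDegree_ftL q hq0]; omega) (compL q F) (EN_compL q F)
  obtain ⟨sw, hsw, hswi⟩ := exists_sw κ
  obtain ⟨nab, hnab, ξ, c1, hc1, hξ, hnabi⟩ := exists_nab q hq1 hq'
  exact ⟨
    { T := T
      T0 := hT0
      Tze := hTze
      Ttau := hTtau
      σ := σ
      σze := fun f => by rw [hσze, ← EN_compL]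
      σtau := hσtau
      sw := sw
      sw_inj := hsw
      sw_incl := hswi
      nab := nab
      nab_inj := hnab
      ξ := ξ
      c1 := c1
      c1_ne := hc1
      ξ0 := hξ
      nab_incl := hnabi }⟩

end

end Pool.Agent.MP_1c8e06_ag.AI
end

section

set_option autoImplicit false

open Polynomial

namespace Pool.Agent.MP_1c8e06_ag.AI

noncomputable section

/-!
# Task MT: transport of linear relations

Notation: `B̃ l x := E.T (D.b l x) ∈ PowerSeries (EE p F)`,
`b' l x := E.σ (D.b l x) ∈ EE p (compL q F)`.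
Proof.  Take `r, c, β, γ` from `exists_component_basis`.
Let `𝓔 := PowerSeries (EE p F)` (a domain since `EE p F` is, `isDomain_EE hF`) and
`E' := EE p (compL q F)` (a domain: `isDomain_EE hF'`).
`j₁ : Bm κ → 𝓔`, `a ↦ PowerSeries.map (ofL p F) (a : AA κ)`, injective; `c₁ m := E.T (c m)`.
`j₂ : Bm κ → E'`, `a ↦ ofL (E.sw a)`, injective; `c₂ m := E.σ (c m)`.
By `Env.Tze`: `E.T (ze f) = j₁ (inclB (compft q f))`; by `Env.σze` and `Env.sw_incl`:
`E.σ (ze f) = ze (compL q f) = ofL (zinv ((compft q f).map ofPowerSeries)) = j₂ (inclB (compft q f))`.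
So for `i = 1, 2` the family `c_i` has the multiplication table required in `indep`, and
`c_i` is not identically zero (`T`, `σ` are injective: `T0` for `T`; a ring homomorphism from a
field for `σ`, `EE p F` being a field; or: `c m` divides ... simply `E.σ` injective because
`EE p F` is a field, `irreducible_asPoly`).
`∑_l j_i(a l) * (B̃ or b')(l, x) = ∑_m j_i (A x m) * c_i m` with
`A x m := ∑_l a l * inclB (compft q (β l x m)) ∈ Bm κ`.  By `indep` both sums vanish iff `A x = 0`.
Second part: for `h ∈ H`, `A (h x) m = ∑_n A x n * inclB (compft q (δ n m))`, so `A x = 0` implies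
`A (h x) = 0`.
-/
private theorem MT_sum {p : ℕ} [hp : Fact p.Prime] {κ : Type} [Field κ] [CharP κ p] {G : Type}
    [Fintype G] {F q : κ[X]} {r : ℕ}
    {D' : Type} [CommRing D'] (j : Bm κ →+* D') (τ : EE p F →+* D')
    (hτ : ∀ f : κ[X], τ (ze p F f) = j (inclB (compft q f)))
    (c : Fin r → EE p F) (β : G → Fin r → κ[X]) (b : G → EE p F)
    (hβ : ∀ l, b l = ∑ m, ze p F (β l m) * c m) (a : G → Bm κ) :
    ∑ l, j (a l) * τ (b l) = ∑ m, j (∑ l, a l * inclB (compft q (β l m))) * τ (c m) := by
  calc ∑ l, j (a l) * τ (b l)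
      = ∑ l, ∑ m, j (a l * inclB (compft q (β l m))) * τ (c m) := by
        refine Finset.sum_congr rfl fun l _ => ?_
        rw [hβ l, map_sum, Finset.mul_sum]
        refine Finset.sum_congr rfl fun m _ => ?_
        rw [map_mul, hτ, map_mul, mul_assoc]
    _ = _ := by
        rw [Finset.sum_comm]
        refine Finset.sum_congr rfl fun m _ => ?_
        rw [map_sum, Finset.sum_mul]

theorem transport {p : ℕ} [hp : Fact p.Prime] {κ : Type} [Field κ] [CharP κ p] {G : Type}
    [Group G] [Fintype G] {g : G} {F q : κ[X]} (E : Env p κ F q) (D : WD p κ G g F)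
    (hF : ¬ p ∣ F.natDegree) (hF' : ¬ p ∣ (compL q F).natDegree) (H : Subgroup G)
    (hD : D.Conn H) (a : G → Bm κ) :
    (∀ x, (∑ l, PowerSeries.map (ofL p F) (a l : AA κ) * E.T (D.b l x) = 0 ↔
      ∑ l, ofL p (compL q F) (E.sw (a l)) * E.σ (D.b l x) = 0)) ∧
    (∀ x, ∀ h ∈ H, ∑ l, ofL p (compL q F) (E.sw (a l)) * E.σ (D.b l x) = 0 →
      ∑ l, ofL p (compL q F) (E.sw (a l)) * E.σ (D.b l (h * x)) = 0) := by
  have dom1 : IsDomain (EE p F) := isDomain_EE hF
  have dom2 : IsDomain (EE p (compL q F)) := isDomain_EE hF'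
  obtain ⟨r, c, β, γ, hβ, hcc, _, hdet, ⟨i₀, hi₀⟩, hδ⟩ := exists_component_basis D hF H hD
  let j₁ : Bm κ →+* PowerSeries (EE p F) := (PowerSeries.map (ofL p F)).comp (Bm κ).subtype
  let j₂ : Bm κ →+* EE p (compL q F) := (ofL p (compL q F)).comp E.sw
  have hj₁ : Function.Injective j₁ := by
    intro u v huv
    apply Subtype.ext
    ext n : 1
    have h := congrArg (PowerSeries.coeff n) huv
    exact ofL_injective h
  have hj₂ : Function.Injective j₂ := ofL_injective.comp E.sw_inj
  have hτ₁ : ∀ f : κ[X], E.T (ze p F f) = j₁ (inclB (compft q f)) := fun f => E.Tze f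
  have hτ₂ : ∀ f : κ[X], E.σ (ze p F f) = j₂ (inclB (compft q f)) := by
    intro f
    rw [E.σze]
    show ofL p (compL q F) (zinv _ (compL q f)) = ofL p (compL q F) (E.sw (inclB (compft q f)))
    rw [E.sw_incl]
    rfl
  have hTinj : Function.Injective E.T := by
    intro u v huv
    rw [← E.T0 u, ← E.T0 v, huv]
  have hirr := irreducible_asPoly (p := p) (F := F) hF
  have hσinj : Function.Injective E.σ := by
    have : Fact (Irreducible (asPoly p F)) := ⟨hirr⟩
    exact RingHom.injective E.σ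
  have hm₁ : ∀ i k, E.T (c i) * E.T (c k) = ∑ m, j₁ (inclB (compft q (γ i k m))) * E.T (c m) := by
    intro i k
    rw [← map_mul, hcc, map_sum]
    exact Finset.sum_congr rfl fun m _ => by rw [map_mul, hτ₁]
  have hm₂ : ∀ i k, E.σ (c i) * E.σ (c k) = ∑ m, j₂ (inclB (compft q (γ i k m))) * E.σ (c m) := by
    intro i k
    rw [← map_mul, hcc, map_sum]
    exact Finset.sum_congr rfl fun m _ => by rw [map_mul, hτ₂]
  have hc₁ : ∃ i, E.T (c i) ≠ 0 := ⟨i₀, fun h => hi₀ (hTinj (h.trans (map_zero _).symm))⟩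
  have hc₂ : ∃ i, E.σ (c i) ≠ 0 := ⟨i₀, fun h => hi₀ (hσinj (h.trans (map_zero _).symm))⟩
  have key₁ : ∀ x, ∑ l, PowerSeries.map (ofL p F) (a l : AA κ) * E.T (D.b l x) = 0 ↔
      (fun m => ∑ l, a l * inclB (compft q (β l x m))) = 0 := by
    intro x
    have h := MT_sum j₁ E.T hτ₁ c (fun l m => β l x m) (fun l => D.b l x) (fun l => hβ l x) a
    constructor
    · intro h0
      exact indep E γ hdet j₁ hj₁ (fun m => E.T (c m)) hc₁ hm₁ _ (h.symm.trans h0)
    · intro h0
      refine h.trans (Finset.sum_eq_zero fun m _ => ?_)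
      rw [show (∑ l, a l * inclB (compft q (β l x m))) = 0 from congrFun h0 m, map_zero, zero_mul]
  have key₂ : ∀ x, ∑ l, ofL p (compL q F) (E.sw (a l)) * E.σ (D.b l x) = 0 ↔
      (fun m => ∑ l, a l * inclB (compft q (β l x m))) = 0 := by
    intro x
    have h := MT_sum j₂ E.σ hτ₂ c (fun l m => β l x m) (fun l => D.b l x) (fun l => hβ l x) a
    constructor
    · intro h0
      exact indep E γ hdet j₂ hj₂ (fun m => E.σ (c m)) hc₂ hm₂ _ (h.symm.trans h0)
    · intro h0
      refine h.trans (Finset.sum_eq_zero fun m _ => ?_)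
      rw [show (∑ l, a l * inclB (compft q (β l x m))) = 0 from congrFun h0 m, map_zero, zero_mul]
  refine ⟨fun x => (key₁ x).trans (key₂ x).symm, fun x h hh h0 => ?_⟩
  rw [key₂] at h0 ⊢
  obtain ⟨δ, hδ'⟩ := hδ h hh
  funext m
  show ∑ l, a l * inclB (compft q (β l (h * x) m)) = 0
  calc ∑ l, a l * inclB (compft q (β l (h * x) m))
      = ∑ l, ∑ n, (a l * inclB (compft q (β l x n))) * inclB (compft q (δ n m)) := by
        refine Finset.sum_congr rfl fun l _ => ?_
        rw [hδ', map_sum, map_sum, Finset.mul_sum]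
        refine Finset.sum_congr rfl fun n _ => ?_
        rw [map_mul, map_mul, mul_assoc]
    _ = ∑ n, (∑ l, a l * inclB (compft q (β l x n))) * inclB (compft q (δ n m)) := by
        rw [Finset.sum_comm]
        refine Finset.sum_congr rfl fun n _ => ?_
        rw [Finset.sum_mul]
    _ = 0 := by
        refine Finset.sum_eq_zero fun n _ => ?_
        rw [show (∑ l, a l * inclB (compft q (β l x n))) = 0 from congrFun h0 n, zero_mul]

end

end Pool.Agent.MP_1c8e06_ag.AI
end

section

set_option autoImplicit false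

open Polynomial

namespace Pool.Agent.MP_1c8e06_ag.AI

noncomputable section

private theorem P4_range {κ : Type} [Field κ] (x : LaurentSeries κ) (N : ℕ)
    (hN : 0 ≤ (N : ℤ) + x.order) :
    HahnSeries.single (N : ℤ) (1 : κ) * x ∈ (HahnSeries.ofPowerSeries ℤ κ).range := by
  refine ⟨PowerSeries.X ^ ((N : ℤ) + x.order).toNat * x.powerSeriesPart, ?_⟩
  have h1 : ((((N : ℤ) + x.order).toNat : ℕ) : ℤ) = (N : ℤ) + x.order := Int.toNat_of_nonneg hN
  rw [map_mul, HahnSeries.ofPowerSeries_X_pow, h1]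
  conv_rhs => rw [← LaurentSeries.single_order_mul_powerSeriesPart x]
  rw [← mul_assoc, HahnSeries.single_mul_single, one_mul]

private theorem P4_clear {κ : Type} [Field κ] {G : Type} [Fintype G]
    (f : G → (LaurentSeries κ)[X]) :
    ∃ (N : ℕ) (P : G → (PowerSeries κ)[X]), ∀ l,
      C (HahnSeries.single (N : ℤ) (1 : κ)) * f l = (P l).map (HahnSeries.ofPowerSeries ℤ κ) := by
  classical
  set N : ℕ := ∑ l, ∑ i ∈ (f l).support, (-((f l).coeff i).order).toNat with hN
  have hle : ∀ l, ∀ i ∈ (f l).support, 0 ≤ (N : ℤ) + ((f l).coeff i).order := by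
    intro l i hi
    have h1 : (-((f l).coeff i).order).toNat ≤ ∑ i ∈ (f l).support, (-((f l).coeff i).order).toNat :=
      Finset.single_le_sum (f := fun i => (-((f l).coeff i).order).toNat)
        (fun _ _ => Nat.zero_le _) hi
    have h2 : ∑ i ∈ (f l).support, (-((f l).coeff i).order).toNat ≤ N :=
      Finset.single_le_sum (f := fun l => ∑ i ∈ (f l).support, (-((f l).coeff i).order).toNat)
        (fun _ _ => Nat.zero_le _) (Finset.mem_univ l)
    omega
  have hex : ∀ l, ∃ P : (PowerSeries κ)[X],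
      C (HahnSeries.single (N : ℤ) (1 : κ)) * f l = P.map (HahnSeries.ofPowerSeries ℤ κ) := by
    intro l
    have hmem : C (HahnSeries.single (N : ℤ) (1 : κ)) * f l ∈
        (Polynomial.mapRingHom (HahnSeries.ofPowerSeries ℤ κ)).range := by
      rw [Polynomial.mem_map_range]
      intro n
      rw [coeff_C_mul]
      by_cases hn : n ∈ (f l).support
      · exact P4_range _ N (hle l n hn)
      · rw [notMem_support_iff.1 hn, mul_zero]
        exact zero_mem _
    obtain ⟨P, hP⟩ := hmem
    exact ⟨P, hP.symm⟩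
  choose P hP using hex
  exact ⟨N, P, hP⟩

/-!
# Task P4: connectedness of the new cover

Notation as in `AI/P3.lean`; `κ' = LaurentSeries κ`, `F' = compL q F`.
First: clearing denominators.  For `f : G → κ'[X]` there are `N : ℕ` and `P : G → (PowerSeries κ)[X]`
with `C (single N 1) * f l = (P l).map ofPowerSeries` for all `l` (finitely many coefficients in
`κ((t))`).  Since `ze (C (single N 1))` is a unit of `EE p F'`,
`∑ ze(f l) b' l x = 0 ↔ ∑ ze (P l)' b' l x = 0`, and `ze (P l)' = ofL (E.sw (inclB (P l)))`.  Put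
`a m := ∑_l inclB (P l) * W l m ∈ Bm κ`; then `∑_l ze(P l)' b' l x = ∑_m ofL (sw (a m)) * σ (b2 m x)`.
(a) `H₂` : directly from the second part of `transport` for `D₂` (with `x = 1`).
(b) `H₁` : by the first part of `transport` at `x = 1`: `∑_m j (a m) * E.T (b2 m 1) = 0`, which by `hUW` is
`∑_l j(incl (P l)) * (∑_m j (plus (U l m)) * C (b1 m 1)) = 0`.  By `exists_plus_of_incl`,
`incl (P l) = plus (P~ l)`; so `∑_m j (plus (A m)) * C (b1 m 1) = 0` with
`A m := ∑_l P~ l * U l m ∈ κ[X][[t]]`.  Taking the coefficient of `t^n`: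
`∑_m ze (coeff n (A m)) * b1 m 1 = 0` for every `n`, so by `hD₁` the same with `h` in place of `1`, for
every `h ∈ H₁`; go back: `∑_m j (a m) * E.T (b2 m h) = 0`, and the first part of `transport` at
`x = h` gives the claim.
(c) `WD.conn_sup`.
-/
theorem conn_new {p : ℕ} [hp : Fact p.Prime] {κ : Type} [Field κ] [CharP κ p] {G : Type}
    [Group G] [Fintype G] [DecidableEq G] {g : G} {F q : κ[X]} (E : Env p κ F q)
    (D₁ D₂ : WD p κ G g F) (hF : ¬ p ∣ F.natDegree) (hF' : ¬ p ∣ (compL q F).natDegree)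
    (U : Matrix G G (PowerSeries κ[X])) (W : Matrix G G (Bm κ))
    (hUW : ∀ l x, ∑ m, PowerSeries.map (ofL p F) (plus κ (U l m)) * PowerSeries.C (D₁.b m x) =
      ∑ m, PowerSeries.map (ofL p F) (W l m : AA κ) * E.T (D₂.b m x))
    (H₁ H₂ : Subgroup G) (hD₁ : D₁.Conn H₁) (hD₂ : D₂.Conn H₂)
    (D' : WD p (LaurentSeries κ) G g (compL q F))
    (hD' : ∀ l x, D'.b l x = ∑ m, ofL p (compL q F) (E.sw (W l m)) * E.σ (D₂.b m x)) :
    D'.Conn (H₁ ⊔ H₂) := by
  have key : ∀ f : G → (LaurentSeries κ)[X], ∃ P : G → (PowerSeries κ)[X], ∀ x,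
      (∑ l, ze p (compL q F) (f l) * D'.b l x = 0 ↔
        ∑ m, ofL p (compL q F) (E.sw (∑ l, inclB (P l) * W l m)) * E.σ (D₂.b m x) = 0) := by
    intro f
    obtain ⟨N, P, hP⟩ := P4_clear f
    refine ⟨P, fun x => ?_⟩
    have hu : IsUnit (ze p (compL q F) (C (HahnSeries.single (N : ℤ) (1 : κ)))) := by
      apply IsUnit.map
      apply IsUnit.map C
      rw [isUnit_iff_ne_zero]
      exact HahnSeries.single_ne_zero one_ne_zero
    have hsum : ∑ m, ofL p (compL q F) (E.sw (∑ l, inclB (P l) * W l m)) * E.σ (D₂.b m x) =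
        ze p (compL q F) (C (HahnSeries.single (N : ℤ) (1 : κ))) *
          ∑ l, ze p (compL q F) (f l) * D'.b l x := by
      have h1 : ∀ l, ze p (compL q F) (C (HahnSeries.single (N : ℤ) (1 : κ))) *
          (ze p (compL q F) (f l) * D'.b l x) =
          ∑ m, ofL p (compL q F) (E.sw (inclB (P l))) *
            (ofL p (compL q F) (E.sw (W l m)) * E.σ (D₂.b m x)) := by
        intro l
        rw [← mul_assoc, ← map_mul, hP l, hD', Finset.mul_sum, E.sw_incl]
        rfl
      rw [Finset.mul_sum]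
      simp only [h1]
      rw [Finset.sum_comm]
      refine Finset.sum_congr rfl fun m _ => ?_
      rw [map_sum, map_sum, Finset.sum_mul]
      refine Finset.sum_congr rfl fun l _ => ?_
      rw [map_mul, map_mul, mul_assoc]
    rw [hsum]
    exact (hu.mul_right_eq_zero).symm
  have h₂ : D'.Conn H₂ := by
    intro h hh f h0
    obtain ⟨P, hP⟩ := key f
    rw [hP] at h0 ⊢
    have h1 := (transport E D₂ hF hF' H₂ hD₂ (fun m => ∑ l, inclB (P l) * W l m)).2 1 h hh h0
    rw [mul_one] at h1
    exact h1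
  have h₁ : D'.Conn H₁ := by
    intro h hh f h0
    obtain ⟨P, hP⟩ := key f
    rw [hP] at h0 ⊢
    have htr := (transport E D₂ hF hF' H₂ hD₂ (fun m => ∑ l, inclB (P l) * W l m)).1
    rw [← htr] at h0 ⊢
    choose Q hQ using fun l => exists_plus_of_incl (P l)
    have hre : ∀ x, ∑ m, PowerSeries.map (ofL p F)
          ((∑ l, inclB (P l) * W l m : Bm κ) : AA κ) * E.T (D₂.b m x) =
        ∑ m, PowerSeries.map (ofL p F) (plus κ (∑ l, Q l * U l m)) *
          PowerSeries.C (D₁.b m x) := by
      intro x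
      have e1 : ∀ m, PowerSeries.map (ofL p F) ((∑ l, inclB (P l) * W l m : Bm κ) : AA κ) =
          ∑ l, PowerSeries.map (ofL p F) (incl κ (P l)) *
            PowerSeries.map (ofL p F) (W l m : AA κ) := by
        intro m
        rw [AddSubmonoidClass.coe_finsetSum, map_sum]
        refine Finset.sum_congr rfl fun l _ => ?_
        rw [← map_mul]
        rfl
      have e2 : ∀ m, PowerSeries.map (ofL p F) (plus κ (∑ l, Q l * U l m)) =
          ∑ l, PowerSeries.map (ofL p F) (incl κ (P l)) *
            PowerSeries.map (ofL p F) (plus κ (U l m)) := by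
        intro m
        rw [map_sum, map_sum]
        refine Finset.sum_congr rfl fun l _ => ?_
        rw [map_mul, map_mul, hQ]
      simp only [e1, e2, Finset.sum_mul]
      rw [Finset.sum_comm]
      conv_rhs => rw [Finset.sum_comm]
      refine Finset.sum_congr rfl fun l _ => ?_
      have e3 := hUW l x
      have e4 : ∑ m, PowerSeries.map (ofL p F) (incl κ (P l)) *
          PowerSeries.map (ofL p F) (W l m : AA κ) * E.T (D₂.b m x) =
          PowerSeries.map (ofL p F) (incl κ (P l)) *
            ∑ m, PowerSeries.map (ofL p F) (W l m : AA κ) * E.T (D₂.b m x) := by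
        rw [Finset.mul_sum]
        exact Finset.sum_congr rfl fun m _ => mul_assoc _ _ _
      rw [e4, ← e3, Finset.mul_sum]
      exact Finset.sum_congr rfl fun m _ => (mul_assoc _ _ _).symm
    have hco : ∀ x (n : ℕ), PowerSeries.coeff n (∑ m, PowerSeries.map (ofL p F)
        (plus κ (∑ l, Q l * U l m)) * PowerSeries.C (D₁.b m x)) =
        ∑ m, ze p F (PowerSeries.coeff n (∑ l, Q l * U l m)) * D₁.b m x := by
      intro x n
      rw [map_sum]
      refine Finset.sum_congr rfl fun m _ => ?_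
      rw [PowerSeries.coeff_mul_C, PowerSeries.coeff_map]
      unfold plus
      rw [PowerSeries.coeff_map]
      rfl
    have g0 := h0
    rw [hre] at g0 ⊢
    ext n
    rw [hco, map_zero]
    apply hD₁ h hh
    rw [← hco, g0, map_zero]
  exact D'.conn_sup h₁ h₂

end

end Pool.Agent.MP_1c8e06_ag.AI
end
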