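import Pool.Agent.Lib.MP_1c8e06_ag.Mg.G098
import Pool.Agent.Lib.MP_1c8e06_ag.Mg.G097

section

set_option autoImplicit false

open Polynomial

namespace Pool.Agent.MP_1c8e06_ag.AI

noncomputable section

private theorem P2_mul {𝓔 S G : Type} [CommRing 𝓔] [CommRing S] [Fintype G] (i : S →+* 𝓔)
    (b : G → G → 𝓔) (μ : G → G → G → S) (U : Matrix G G S) (bn : G → G → 𝓔)
    (hb : ∀ a c x, b a x * b c x = ∑ l, i (μ a c l) * b l x)
    (hbn : ∀ l x, bn l x = ∑ m, i (U l m) * b m x) (k n x : G) :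
    bn k x * bn n x = ∑ l, i (∑ a, ∑ c, U k a * U n c * μ a c l) * b l x := by
  rw [hbn, hbn, Finset.sum_mul_sum]
  have h1 : ∀ a c, (i (U k a) * b a x) * (i (U n c) * b c x) =
      ∑ l, i (U k a * U n c * μ a c l) * b l x := by
    intro a c
    have e : (i (U k a) * b a x) * (i (U n c) * b c x) = i (U k a) * i (U n c) * (b a x * b c x) := by
      ring
    rw [e, hb a c x, Finset.mul_sum]
    refine Finset.sum_congr rfl fun l _ => ?_
    rw [map_mul, map_mul]
    ring
  rw [Finset.sum_congr rfl fun a _ => Finset.sum_congr rfl fun c _ => h1 a c]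
  rw [Finset.sum_congr rfl fun a _ => Finset.sum_comm, Finset.sum_comm]
  refine Finset.sum_congr rfl fun l _ => ?_
  rw [map_sum, Finset.sum_mul]
  refine Finset.sum_congr rfl fun a _ => ?_
  rw [map_sum, Finset.sum_mul]

private theorem P2_act {𝓔 S G : Type} [CommRing 𝓔] [CommRing S] [Fintype G] [Group G] (i : S →+* 𝓔)
    (b : G → G → 𝓔) (α : G → G → G → S) (U : Matrix G G S) (bn : G → G → 𝓔)
    (hb : ∀ h l x, b l (x * h) = ∑ m, i (α h l m) * b m x)
    (hbn : ∀ l x, bn l x = ∑ m, i (U l m) * b m x) (h l x : G) :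
    bn l (x * h) = ∑ n, i (∑ m, U l m * α h m n) * b n x := by
  rw [hbn]
  rw [Finset.sum_congr rfl fun m _ => by rw [hb h m x, Finset.mul_sum]]
  rw [Finset.sum_comm]
  refine Finset.sum_congr rfl fun n _ => ?_
  rw [map_sum, Finset.sum_mul]
  refine Finset.sum_congr rfl fun m _ => ?_
  rw [map_mul]
  ring

private theorem P2_tr {𝓔 S G : Type} [CommRing 𝓔] [CommRing S] [Fintype G] (i : S →+* 𝓔)
    (b : G → G → 𝓔) (T : G → G → S) (U : Matrix G G S) (bn : G → G → 𝓔)
    (hb : ∀ m n, ∑ x, b m x * b n x = i (T m n))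
    (hbn : ∀ l x, bn l x = ∑ m, i (U l m) * b m x) (k n : G) :
    ∑ x, bn k x * bn n x = i (∑ m, ∑ c, U k m * T m c * U n c) := by
  have h1 : ∀ x, bn k x * bn n x = ∑ m, ∑ c, i (U k m) * i (U n c) * (b m x * b c x) := by
    intro x
    rw [hbn, hbn, Finset.sum_mul_sum]
    refine Finset.sum_congr rfl fun m _ => Finset.sum_congr rfl fun c _ => ?_
    ring
  rw [Finset.sum_congr rfl fun x _ => h1 x, Finset.sum_comm, map_sum]
  refine Finset.sum_congr rfl fun m _ => ?_
  rw [Finset.sum_comm, map_sum]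
  refine Finset.sum_congr rfl fun c _ => ?_
  rw [← Finset.mul_sum, hb m c, map_mul, map_mul]
  ring

private theorem P2_change {𝓔 S G : Type} [CommRing 𝓔] [CommRing S] [Fintype G] [DecidableEq G]
    (i : S →+* 𝓔) (b : G → G → 𝓔) (U Ui : Matrix G G S) (hUi : Ui * U = 1) (bn : G → G → 𝓔)
    (hbn : ∀ l x, bn l x = ∑ m, i (U l m) * b m x) (A : G → S) (x : G) :
    ∑ m, i (A m) * b m x = ∑ l, i (∑ m, A m * Ui m l) * bn l x := by
  symm
  have h1 : ∀ l, i (∑ m, A m * Ui m l) * bn l x =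
      ∑ m, ∑ n, i (A m) * (i (Ui m l * U l n) * b n x) := by
    intro l
    rw [hbn, map_sum, Finset.sum_mul_sum]
    refine Finset.sum_congr rfl fun m _ => Finset.sum_congr rfl fun n _ => ?_
    rw [map_mul, map_mul]
    ring
  rw [Finset.sum_congr rfl fun l _ => h1 l, Finset.sum_comm]
  refine Finset.sum_congr rfl fun m _ => ?_
  rw [Finset.sum_comm]
  have h2 : ∀ n, ∑ l, i (A m) * (i (Ui m l * U l n) * b n x) =
      i (A m) * (i ((1 : Matrix G G S) m n) * b n x) := by
    intro n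
    rw [← Finset.mul_sum, ← Finset.sum_mul, ← map_sum, ← hUi, Matrix.mul_apply]
  rw [Finset.sum_congr rfl fun n _ => h2 n, Finset.sum_eq_single m]
  · rw [Matrix.one_apply_eq, map_one, one_mul]
  · intro n _ hn
    rw [Matrix.one_apply_ne (Ne.symm hn), map_zero, zero_mul, mul_zero]
  · intro h
    exact absurd (Finset.mem_univ m) h

/-- `𝒯 = U T Uᵀ`, `X = Uiᵀ T' Ui`, `T T' = 1`, `Ui U = 1 = U Ui`: `𝒯 X = 1`. -/
private theorem P2_inv {S G : Type} [CommRing S] [Fintype G] [DecidableEq G]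
    (U Ui T T' : Matrix G G S) (hU : U * Ui = 1) (hUi : Ui * U = 1) (hT : T * T' = 1) :
    (U * T * U.transpose) * (Ui.transpose * T' * Ui) = 1 := by
  have h1 : U.transpose * Ui.transpose = 1 := by
    rw [← Matrix.transpose_mul, hUi, Matrix.transpose_one]
  calc (U * T * U.transpose) * (Ui.transpose * T' * Ui)
      = U * T * (U.transpose * Ui.transpose) * T' * Ui := by simp only [Matrix.mul_assoc]
    _ = U * (T * T') * Ui := by rw [h1, Matrix.mul_one]; simp only [Matrix.mul_assoc]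
    _ = 1 := by rw [hT, Matrix.mul_one, hU]

/-!
# Task P2: the structure constants of the glued basis are polynomial

`bn l x := ∑_m j (plus (U l m)) * C (D₁.b m x) = ∑_m j (W l m) * E.T (D₂.b m x)`,
`j = PowerSeries.map (ofL p F)`.
Proof.
(0) Independence: if `a : G → AA κ` and `∑_l j (a l) * bn l x = 0` for all `x` then `a = 0`:
    `coord_unique'` for `D₁` gives `∑_l a l * plus (U l m) = 0` for all `m`, multiply by `plus Ui`.
(1) Principle: let `v : G → PowerSeries (EE p F)`, `v x = ∑_m j (plus (A m)) * C (D₁.b m x)` and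
    `v x = ∑_m j (B m) * E.T (D₂.b m x)` for all `x` with `A m ∈ κ[X][[t]]`, `B m ∈ Bm κ`.
    Then `v x = ∑_l j (plus ((A ᵥ* Ui) l)) bn l x = ∑_l j ((B ᵥ* Wi) l) bn l x`; by (0)
    `plus ((A ᵥ* Ui) l) = (B ᵥ* Wi) l ∈ Bm`, so by `exists_incl_of_plus` it is `incl (P l)`.
(2) Apply it to `v x = bn i x * bn j x` (use `D₁.hmul`, `C (ze f) = j (plus (C f))`... precisely
    `PowerSeries.C (ze p F f) = j (plus (PowerSeries.C f))`; and `E.T (ze f) = j (incl (compft q f))`
    by `Tze`), to `v x = bn l (x * h)` (`hact`), and to `v x = 1` (`hone`).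
(3) `T`: `∑_x bn i x * bn j x = j (plus (U T₁ Uᵀ)_{ij}) = j ((W T₂~ Wᵀ)_{ij})` where
    `T₂~ = inclB (compft q (D₂.T _ _))`; `j` injective, so it is `incl (Tn i j)`.
    `T'`: put `X₁ := Uiᵀ T₁' Ui` (over `κ[X][[t]]`) and `X₂ := Wiᵀ T₂'~ Wi` (over `Bm`).  Both
    `plus X₁` and `X₂` are inverse to `incl Tn` (`WD.TT'`, `WD.T'T`), so they are equal and equal to
    `incl (Tn' i j)`.  The last identity `∑_{l,m} bn l x * j(incl (Tn' l m)) * bn m x' = δ`: insert
    `bn = j(plus U) b1` and `Tn' = Uiᵀ T₁' Ui`: it becomes `hdual` for `D₁`.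
-/
theorem exists_constants {p : ℕ} [hp : Fact p.Prime] {κ : Type} [Field κ] [CharP κ p] {G : Type}
    [Group G] [Fintype G] [DecidableEq G] {g : G} {F q : κ[X]} (E : Env p κ F q)
    (D₁ D₂ : WD p κ G g F) (U Ui : Matrix G G (PowerSeries κ[X])) (W Wi : Matrix G G (Bm κ))
    (hU : U * Ui = 1) (hUi : Ui * U = 1) (hW : W * Wi = 1) (hWi : Wi * W = 1)
    (bn : G → G → PowerSeries (EE p F))
    (h1 : ∀ l x, bn l x =
      ∑ m, PowerSeries.map (ofL p F) (plus κ (U l m)) * PowerSeries.C (D₁.b m x))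
    (h2 : ∀ l x, bn l x = ∑ m, PowerSeries.map (ofL p F) (W l m : AA κ) * E.T (D₂.b m x)) :
    ∃ (μ α : G → G → G → (PowerSeries κ)[X]) (ν : G → (PowerSeries κ)[X])
      (T T' : G → G → (PowerSeries κ)[X]),
      (∀ i j x, bn i x * bn j x =
        ∑ l, PowerSeries.map (ofL p F) (incl κ (μ i j l)) * bn l x) ∧
      (∀ h l x, bn l (x * h) =
        ∑ m, PowerSeries.map (ofL p F) (incl κ (α h l m)) * bn m x) ∧
      (∀ x, ∑ l, PowerSeries.map (ofL p F) (incl κ (ν l)) * bn l x = 1) ∧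
      (∀ i j, inclB (T i j) = ∑ m, ∑ n, W i m * inclB (compft q (D₂.T m n)) * W j n) ∧
      (∀ i j, inclB (T' i j) = ∑ m, ∑ n, Wi m i * inclB (compft q (D₂.T' m n)) * Wi n j) := by
  classical
  have jinj : Function.Injective (PowerSeries.map (ofL p F) : AA κ →+* PowerSeries (EE p F)) := by
    intro a b h
    ext n : 1
    have h1 := congrArg (PowerSeries.coeff n) h
    rw [PowerSeries.coeff_map, PowerSeries.coeff_map] at h1
    exact ofL_injective h1
  let jj : AA κ →+* PowerSeries (EE p F) := PowerSeries.map (ofL p F)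
  let ip : PowerSeries κ[X] →+* PowerSeries (EE p F) := jj.comp (plus κ)
  let iw : Bm κ →+* PowerSeries (EE p F) := jj.comp (Bm κ).subtype
  have hC : ∀ f : κ[X], PowerSeries.C (ze p F f) = ip (PowerSeries.C f) := by
    intro f
    show _ = PowerSeries.map (ofL p F) (PowerSeries.map (zinv κ) (PowerSeries.C f))
    rw [PowerSeries.map_C, PowerSeries.map_C]
    rfl
  have hTz : ∀ f : κ[X], E.T (ze p F f) = iw (inclB (compft q f)) := fun f => E.Tze f
  have h1' : ∀ l x, bn l x = ∑ m, ip (U l m) * PowerSeries.C (D₁.b m x) := h1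
  have h2' : ∀ l x, bn l x = ∑ m, iw (W l m) * E.T (D₂.b m x) := h2
  -- independence
  have indep : ∀ a : G → AA κ, (∀ x, ∑ l, jj (a l) * bn l x = 0) → a = 0 := by
    intro a ha
    have h3 : (fun m => ∑ l, jj (a l) * ip (U l m)) = 0 := by
      refine D₁.coord_unique' (PowerSeries.C : EE p F →+* PowerSeries (EE p F)) _ fun x => ?_
      rw [← ha x]
      have e : ∀ l, jj (a l) * bn l x =
          ∑ m, jj (a l) * (ip (U l m) * PowerSeries.C (D₁.b m x)) := by
        intro l
        rw [h1' l x, Finset.mul_sum]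
      rw [Finset.sum_congr (f := fun l => jj (a l) * bn l x) rfl fun l _ => e l]
      rw [Finset.sum_comm (f := fun l m => jj (a l) * (ip (U l m) * PowerSeries.C (D₁.b m x)))]
      refine Finset.sum_congr rfl fun m _ => ?_
      rw [Finset.sum_mul]
      refine Finset.sum_congr rfl fun l _ => ?_
      ring
    funext n
    apply jinj
    show jj (a n) = jj 0
    rw [map_zero]
    have h4 : ∑ m, (∑ l, jj (a l) * ip (U l m)) * ip (Ui m n) = 0 := by
      refine Finset.sum_eq_zero fun m _ => ?_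
      have := congrFun h3 m
      simp only [Pi.zero_apply] at this
      rw [this, zero_mul]
    rw [← h4]
    rw [Finset.sum_congr rfl fun m _ => by rw [Finset.sum_mul]]
    rw [Finset.sum_comm]
    have h5 : ∀ l, ∑ m, jj (a l) * ip (U l m) * ip (Ui m n) =
        jj (a l) * ip ((1 : Matrix G G (PowerSeries κ[X])) l n) := by
      intro l
      rw [← hU, Matrix.mul_apply, map_sum, Finset.mul_sum]
      refine Finset.sum_congr rfl fun m _ => ?_
      rw [map_mul, mul_assoc]
    rw [Finset.sum_congr rfl fun l _ => h5 l, Finset.sum_eq_single n]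
    · rw [Matrix.one_apply_eq, map_one, mul_one]
    · intro l _ hl
      rw [Matrix.one_apply_ne hl, map_zero, mul_zero]
    · intro h
      exact absurd (Finset.mem_univ n) h
  -- the principle
  have princ : ∀ (v : G → PowerSeries (EE p F)) (A : G → PowerSeries κ[X]) (B : G → Bm κ),
      (∀ x, v x = ∑ m, ip (A m) * PowerSeries.C (D₁.b m x)) →
      (∀ x, v x = ∑ m, iw (B m) * E.T (D₂.b m x)) →
      ∃ P : G → (PowerSeries κ)[X], ∀ x, v x = ∑ l, jj (incl κ (P l)) * bn l x := by
    intro v A B hA hB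
    have hA' : ∀ x, v x = ∑ l, ip (∑ m, A m * Ui m l) * bn l x := fun x => by
      rw [hA x]
      exact P2_change ip _ U Ui hUi bn h1' A x
    have hB' : ∀ x, v x = ∑ l, iw (∑ m, B m * Wi m l) * bn l x := fun x => by
      rw [hB x]
      exact P2_change iw _ W Wi hWi bn h2' B x
    have heq : (fun l => plus κ (∑ m, A m * Ui m l) - ((∑ m, B m * Wi m l : Bm κ) : AA κ)) = 0 := by
      apply indep
      intro x
      have h3 : ∀ l, jj (plus κ (∑ m, A m * Ui m l) - ((∑ m, B m * Wi m l : Bm κ) : AA κ)) * bn l x =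
          ip (∑ m, A m * Ui m l) * bn l x - iw (∑ m, B m * Wi m l) * bn l x := by
        intro l
        rw [map_sub, sub_mul]
        rfl
      rw [Finset.sum_congr rfl fun l _ => h3 l, Finset.sum_sub_distrib, ← hA' x, ← hB' x, sub_self]
    have hmem : ∀ l, plus κ (∑ m, A m * Ui m l) ∈ Bm κ := by
      intro l
      have := congrFun heq l
      simp only [Pi.zero_apply] at this
      rw [sub_eq_zero.1 this]
      exact SetLike.coe_mem _
    choose P hP using fun l => exists_incl_of_plus _ (hmem l)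
    refine ⟨P, fun x => ?_⟩
    rw [hA' x]
    refine Finset.sum_congr rfl fun l _ => ?_
    rw [hP l]
    rfl
  -- structure constants of the two bases
  have m1 : ∀ a c x, (PowerSeries.C (D₁.b a x) : PowerSeries (EE p F)) * PowerSeries.C (D₁.b c x) =
      ∑ l, ip (PowerSeries.C (D₁.μ a c l)) * PowerSeries.C (D₁.b l x) := by
    intro a c x
    rw [← map_mul, D₁.hmul, map_sum]
    refine Finset.sum_congr rfl fun l _ => ?_
    rw [map_mul, hC]
  have m2 : ∀ a c x, E.T (D₂.b a x) * E.T (D₂.b c x) =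
      ∑ l, iw (inclB (compft q (D₂.μ a c l))) * E.T (D₂.b l x) := by
    intro a c x
    rw [← map_mul, D₂.hmul, map_sum]
    refine Finset.sum_congr rfl fun l _ => ?_
    rw [map_mul, hTz]
  have a1 : ∀ h l x, (PowerSeries.C (D₁.b l (x * h)) : PowerSeries (EE p F)) =
      ∑ m, ip (PowerSeries.C (D₁.α h l m)) * PowerSeries.C (D₁.b m x) := by
    intro h l x
    rw [D₁.hact, map_sum]
    refine Finset.sum_congr rfl fun m _ => ?_
    rw [map_mul, hC]
  have a2 : ∀ h l x, E.T (D₂.b l (x * h)) =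
      ∑ m, iw (inclB (compft q (D₂.α h l m))) * E.T (D₂.b m x) := by
    intro h l x
    rw [D₂.hact, map_sum]
    refine Finset.sum_congr rfl fun m _ => ?_
    rw [map_mul, hTz]
  have o1 : ∀ x, (1 : PowerSeries (EE p F)) =
      ∑ l, ip (PowerSeries.C (D₁.ν l)) * PowerSeries.C (D₁.b l x) := by
    intro x
    rw [← map_one (PowerSeries.C : EE p F →+* PowerSeries (EE p F)), ← D₁.hone x, map_sum]
    refine Finset.sum_congr rfl fun m _ => ?_
    rw [map_mul, hC]
  have o2 : ∀ x, (1 : PowerSeries (EE p F)) =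
      ∑ l, iw (inclB (compft q (D₂.ν l))) * E.T (D₂.b l x) := by
    intro x
    rw [← map_one E.T, ← D₂.hone x, map_sum]
    refine Finset.sum_congr rfl fun m _ => ?_
    rw [map_mul, hTz]
  have t1 : ∀ m n, ∑ x, (PowerSeries.C (D₁.b m x) : PowerSeries (EE p F)) *
      PowerSeries.C (D₁.b n x) = ip (PowerSeries.C (D₁.T m n)) := by
    intro m n
    rw [← hC, ← D₁.htr, map_sum]
    refine Finset.sum_congr rfl fun x _ => ?_
    rw [map_mul]
  have t2 : ∀ m n, ∑ x, E.T (D₂.b m x) * E.T (D₂.b n x) = iw (inclB (compft q (D₂.T m n))) := by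
    intro m n
    rw [← hTz, ← D₂.htr, map_sum]
    refine Finset.sum_congr rfl fun x _ => ?_
    rw [map_mul]
  choose μ hμ using fun i j => princ (fun x => bn i x * bn j x) _ _
    (fun x => P2_mul ip _ _ U bn m1 h1' i j x) (fun x => P2_mul iw _ _ W bn m2 h2' i j x)
  choose α hα using fun h l => princ (fun x => bn l (x * h)) _ _
    (fun x => P2_act ip _ _ U bn a1 h1' h l x) (fun x => P2_act iw _ _ W bn a2 h2' h l x)
  obtain ⟨ν, hν⟩ := princ (fun _ => 1) _ _ o1 o2
  -- the trace matrix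
  have hTT : ∀ i j, plus κ (∑ m, ∑ n, U i m * PowerSeries.C (D₁.T m n) * U j n) =
      ((∑ m, ∑ n, W i m * inclB (compft q (D₂.T m n)) * W j n : Bm κ) : AA κ) := by
    intro i j
    apply jinj
    have e1 := P2_tr ip _ _ U bn t1 h1' i j
    have e2 := P2_tr iw _ _ W bn t2 h2' i j
    exact e1.symm.trans e2
  have hT'T' : ∀ i j, plus κ (∑ m, ∑ n, Ui m i * PowerSeries.C (D₁.T' m n) * Ui n j) =
      ((∑ m, ∑ n, Wi m i * inclB (compft q (D₂.T' m n)) * Wi n j : Bm κ) : AA κ) := by
    -- matrices over `AA κ`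
    let U1 : Matrix G G (AA κ) := (plus κ).mapMatrix U
    let Ui1 : Matrix G G (AA κ) := (plus κ).mapMatrix Ui
    let W1 : Matrix G G (AA κ) := ((Bm κ).subtype).mapMatrix W
    let Wi1 : Matrix G G (AA κ) := ((Bm κ).subtype).mapMatrix Wi
    let T1 : Matrix G G (AA κ) := fun m n => plus κ (PowerSeries.C (D₁.T m n))
    let T1' : Matrix G G (AA κ) := fun m n => plus κ (PowerSeries.C (D₁.T' m n))
    let T2 : Matrix G G (AA κ) := fun m n => incl κ (compft q (D₂.T m n))
    let T2' : Matrix G G (AA κ) := fun m n => incl κ (compft q (D₂.T' m n))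
    have hU1 : U1 * Ui1 = 1 := by
      show (plus κ).mapMatrix U * (plus κ).mapMatrix Ui = 1
      rw [← map_mul, hU, map_one]
    have hUi1 : Ui1 * U1 = 1 := by
      show (plus κ).mapMatrix Ui * (plus κ).mapMatrix U = 1
      rw [← map_mul, hUi, map_one]
    have hW1 : W1 * Wi1 = 1 := by
      show ((Bm κ).subtype).mapMatrix W * ((Bm κ).subtype).mapMatrix Wi = 1
      rw [← map_mul, hW, map_one]
    have hWi1 : Wi1 * W1 = 1 := by
      show ((Bm κ).subtype).mapMatrix Wi * ((Bm κ).subtype).mapMatrix W = 1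
      rw [← map_mul, hWi, map_one]
    have hT1 : T1 * T1' = 1 := by
      ext m n : 2
      rw [Matrix.mul_apply]
      have e : ∀ l, T1 m l * T1' l n = plus κ (PowerSeries.C (D₁.T m l * D₁.T' l n)) := by
        intro l
        show plus κ (PowerSeries.C (D₁.T m l)) * plus κ (PowerSeries.C (D₁.T' l n)) = _
        rw [← map_mul, ← map_mul]
      rw [Finset.sum_congr rfl fun l _ => e l, ← map_sum, ← map_sum, D₁.TT' m n, Matrix.one_apply]
      split_ifs
      · rw [map_one, map_one]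
      · rw [map_zero, map_zero]
    have hT2 : T2 * T2' = 1 := by
      ext m n : 2
      rw [Matrix.mul_apply]
      have e : ∀ l, T2 m l * T2' l n = incl κ (compft q (D₂.T m l * D₂.T' l n)) := by
        intro l
        show incl κ (compft q (D₂.T m l)) * incl κ (compft q (D₂.T' l n)) = _
        rw [← map_mul, ← map_mul]
      rw [Finset.sum_congr rfl fun l _ => e l, ← map_sum, ← map_sum, D₂.TT' m n, Matrix.one_apply]
      split_ifs
      · rw [map_one, map_one]
      · rw [map_zero, map_zero]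
    have key : U1 * T1 * U1.transpose = W1 * T2 * W1.transpose := by
      ext i j : 2
      have e := hTT i j
      have e1 : (U1 * T1 * U1.transpose) i j =
          plus κ (∑ m, ∑ n, U i m * PowerSeries.C (D₁.T m n) * U j n) := by
        rw [Matrix.mul_apply, map_sum]
        rw [Finset.sum_congr rfl fun m _ => by rw [Matrix.mul_apply, Finset.sum_mul]]
        rw [Finset.sum_comm]
        refine Finset.sum_congr rfl fun m _ => ?_
        rw [map_sum]
        refine Finset.sum_congr rfl fun n _ => ?_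
        rw [map_mul, map_mul]
        rfl
      have e2 : (W1 * T2 * W1.transpose) i j =
          ((∑ m, ∑ n, W i m * inclB (compft q (D₂.T m n)) * W j n : Bm κ) : AA κ) := by
        rw [Matrix.mul_apply]
        rw [Finset.sum_congr rfl fun m _ => by rw [Matrix.mul_apply, Finset.sum_mul]]
        rw [Finset.sum_comm]
        show _ = (Bm κ).subtype (∑ m, ∑ n, W i m * inclB (compft q (D₂.T m n)) * W j n)
        rw [map_sum]
        refine Finset.sum_congr rfl fun m _ => ?_
        rw [map_sum]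
        refine Finset.sum_congr rfl fun n _ => ?_
        rw [map_mul, map_mul]
        rfl
      rw [e1, e2, e]
    have i1 := P2_inv U1 Ui1 T1 T1' hU1 hUi1 hT1
    have i2 := P2_inv W1 Wi1 T2 T2' hW1 hWi1 hT2
    have hXX : Ui1.transpose * T1' * Ui1 = Wi1.transpose * T2' * Wi1 := by
      have i1' := mul_eq_one_comm.1 i1
      calc Ui1.transpose * T1' * Ui1
          = (Ui1.transpose * T1' * Ui1) * ((W1 * T2 * W1.transpose) *
              (Wi1.transpose * T2' * Wi1)) := by rw [i2, Matrix.mul_one]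
        _ = ((Ui1.transpose * T1' * Ui1) * (U1 * T1 * U1.transpose)) *
              (Wi1.transpose * T2' * Wi1) := by
            rw [← key]
            simp only [Matrix.mul_assoc]
        _ = Wi1.transpose * T2' * Wi1 := by rw [i1', Matrix.one_mul]
    intro i j
    have e := congrFun (congrFun hXX i) j
    have e1 : (Ui1.transpose * T1' * Ui1) i j =
        plus κ (∑ m, ∑ n, Ui m i * PowerSeries.C (D₁.T' m n) * Ui n j) := by
      rw [Matrix.mul_apply, map_sum]
      rw [Finset.sum_congr rfl fun m _ => by rw [Matrix.mul_apply, Finset.sum_mul]]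
      rw [Finset.sum_comm]
      refine Finset.sum_congr rfl fun m _ => ?_
      rw [map_sum]
      refine Finset.sum_congr rfl fun n _ => ?_
      rw [map_mul, map_mul]
      rfl
    have e2 : (Wi1.transpose * T2' * Wi1) i j =
        ((∑ m, ∑ n, Wi m i * inclB (compft q (D₂.T' m n)) * Wi n j : Bm κ) : AA κ) := by
      rw [Matrix.mul_apply]
      rw [Finset.sum_congr rfl fun m _ => by rw [Matrix.mul_apply, Finset.sum_mul]]
      rw [Finset.sum_comm]
      show _ = (Bm κ).subtype (∑ m, ∑ n, Wi m i * inclB (compft q (D₂.T' m n)) * Wi n j)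
      rw [map_sum]
      refine Finset.sum_congr rfl fun m _ => ?_
      rw [map_sum]
      refine Finset.sum_congr rfl fun n _ => ?_
      rw [map_mul, map_mul]
      rfl
    rw [← e1, ← e2, e]
  have exT : ∀ i j, ∃ P : (PowerSeries κ)[X], inclB P =
      ∑ m, ∑ n, W i m * inclB (compft q (D₂.T m n)) * W j n := by
    intro i j
    have hmem : plus κ (∑ m, ∑ n, U i m * PowerSeries.C (D₁.T m n) * U j n) ∈ Bm κ := by
      rw [hTT i j]
      exact SetLike.coe_mem _
    obtain ⟨P, hP⟩ := exists_incl_of_plus _ hmem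
    refine ⟨P, Subtype.ext ?_⟩
    rw [← hTT i j, ← hP]
    rfl
  have exT' : ∀ i j, ∃ P : (PowerSeries κ)[X], inclB P =
      ∑ m, ∑ n, Wi m i * inclB (compft q (D₂.T' m n)) * Wi n j := by
    intro i j
    have hmem : plus κ (∑ m, ∑ n, Ui m i * PowerSeries.C (D₁.T' m n) * Ui n j) ∈ Bm κ := by
      rw [hT'T' i j]
      exact SetLike.coe_mem _
    obtain ⟨P, hP⟩ := exists_incl_of_plus _ hmem
    refine ⟨P, Subtype.ext ?_⟩
    rw [← hT'T' i j, ← hP]
    rfl
  choose T hT using exT
  choose T' hT' using exT'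
  exact ⟨μ, α, ν, T, T', hμ, hα, fun x => (hν x).symm, hT, hT'⟩

end

end Pool.Agent.MP_1c8e06_ag.AI
end

section

set_option autoImplicit false

open Polynomial

namespace Pool.Agent.MP_1c8e06_ag.AI

noncomputable section

private theorem P3_mul {𝓔 S G : Type} [CommRing 𝓔] [CommRing S] [Fintype G] (i : S →+* 𝓔)
    (b : G → G → 𝓔) (μ : G → G → G → S) (U : Matrix G G S) (bn : G → G → 𝓔)
    (hb : ∀ a c x, b a x * b c x = ∑ l, i (μ a c l) * b l x)
    (hbn : ∀ l x, bn l x = ∑ m, i (U l m) * b m x) (k n x : G) :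
    bn k x * bn n x = ∑ l, i (∑ a, ∑ c, U k a * U n c * μ a c l) * b l x := by
  rw [hbn, hbn, Finset.sum_mul_sum]
  have h1 : ∀ a c, (i (U k a) * b a x) * (i (U n c) * b c x) =
      ∑ l, i (U k a * U n c * μ a c l) * b l x := by
    intro a c
    have e : (i (U k a) * b a x) * (i (U n c) * b c x) = i (U k a) * i (U n c) * (b a x * b c x) := by
      ring
    rw [e, hb a c x, Finset.mul_sum]
    refine Finset.sum_congr rfl fun l _ => ?_
    rw [map_mul, map_mul]
    ring
  rw [Finset.sum_congr rfl fun a _ => Finset.sum_congr rfl fun c _ => h1 a c]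
  rw [Finset.sum_congr rfl fun a _ => Finset.sum_comm, Finset.sum_comm]
  refine Finset.sum_congr rfl fun l _ => ?_
  rw [map_sum, Finset.sum_mul]
  refine Finset.sum_congr rfl fun a _ => ?_
  rw [map_sum, Finset.sum_mul]

private theorem P3_act {𝓔 S G : Type} [CommRing 𝓔] [CommRing S] [Fintype G] [Group G] (i : S →+* 𝓔)
    (b : G → G → 𝓔) (α : G → G → G → S) (U : Matrix G G S) (bn : G → G → 𝓔)
    (hb : ∀ h l x, b l (x * h) = ∑ m, i (α h l m) * b m x)
    (hbn : ∀ l x, bn l x = ∑ m, i (U l m) * b m x) (h l x : G) :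
    bn l (x * h) = ∑ n, i (∑ m, U l m * α h m n) * b n x := by
  rw [hbn]
  rw [Finset.sum_congr rfl fun m _ => by rw [hb h m x, Finset.mul_sum]]
  rw [Finset.sum_comm]
  refine Finset.sum_congr rfl fun n _ => ?_
  rw [map_sum, Finset.sum_mul]
  refine Finset.sum_congr rfl fun m _ => ?_
  rw [map_mul]
  ring

private theorem P3_tr {𝓔 S G : Type} [CommRing 𝓔] [CommRing S] [Fintype G] (i : S →+* 𝓔)
    (b : G → G → 𝓔) (T : G → G → S) (U : Matrix G G S) (bn : G → G → 𝓔)
    (hb : ∀ m n, ∑ x, b m x * b n x = i (T m n))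
    (hbn : ∀ l x, bn l x = ∑ m, i (U l m) * b m x) (k n : G) :
    ∑ x, bn k x * bn n x = i (∑ m, ∑ c, U k m * T m c * U n c) := by
  have h1 : ∀ x, bn k x * bn n x = ∑ m, ∑ c, i (U k m) * i (U n c) * (b m x * b c x) := by
    intro x
    rw [hbn, hbn, Finset.sum_mul_sum]
    refine Finset.sum_congr rfl fun m _ => Finset.sum_congr rfl fun c _ => ?_
    ring
  rw [Finset.sum_congr rfl fun x _ => h1 x, Finset.sum_comm, map_sum]
  refine Finset.sum_congr rfl fun m _ => ?_
  rw [Finset.sum_comm, map_sum]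
  refine Finset.sum_congr rfl fun c _ => ?_
  rw [← Finset.mul_sum, hb m c, map_mul, map_mul]
  ring

private theorem P3_comb {𝓔 S G : Type} [CommRing 𝓔] [CommRing S] [Fintype G] (i : S →+* 𝓔)
    (b : G → G → 𝓔) (U : Matrix G G S) (bn : G → G → 𝓔)
    (hbn : ∀ l x, bn l x = ∑ m, i (U l m) * b m x) (c : G → S) (x : G) :
    ∑ l, i (c l) * bn l x = ∑ m, i (∑ l, c l * U l m) * b m x := by
  have h1 : ∀ l, i (c l) * bn l x = ∑ m, i (c l * U l m) * b m x := by
    intro l
    rw [hbn, Finset.mul_sum]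
    refine Finset.sum_congr rfl fun m _ => ?_
    rw [map_mul]
    ring
  rw [Finset.sum_congr rfl fun l _ => h1 l, Finset.sum_comm]
  refine Finset.sum_congr rfl fun m _ => ?_
  rw [map_sum, Finset.sum_mul]

private theorem P3_dual {E' S G : Type} [CommRing E'] [CommRing S] [Fintype G] [DecidableEq G]
    (i : S →+* E') (W Wi t : Matrix G G S) (hWi : Wi * W = 1) (v v' : G → E') :
    ∑ l, ∑ m, (∑ a, i (W l a) * v a) * i (∑ c, ∑ d, Wi c l * t c d * Wi d m) *
      (∑ e, i (W m e) * v' e) = ∑ a, ∑ e, v a * i (t a e) * v' e := by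
  have hX : ∀ l m, ∑ c, ∑ d, Wi c l * t c d * Wi d m = (Wi.transpose * t * Wi) l m := by
    intro l m
    rw [Matrix.mul_apply]
    rw [Finset.sum_congr (f := fun j => (Wi.transpose * t) l j * Wi j m) rfl
      fun d _ => by rw [Matrix.mul_apply, Finset.sum_mul]]
    rw [Finset.sum_comm]
    rfl
  have hmat : W.transpose * (Wi.transpose * t * Wi) * W = t := by
    have h1 : W.transpose * Wi.transpose = 1 := by
      rw [← Matrix.transpose_mul, hWi, Matrix.transpose_one]
    calc W.transpose * (Wi.transpose * t * Wi) * W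
        = (W.transpose * Wi.transpose) * t * (Wi * W) := by simp only [Matrix.mul_assoc]
      _ = t := by rw [h1, hWi, Matrix.one_mul, Matrix.mul_one]
  generalize hXX : Wi.transpose * t * Wi = X at hX hmat
  have hR : ∀ a e, t a e = ∑ l, ∑ m, W l a * X l m * W m e := by
    intro a e
    rw [← hmat, Matrix.mul_apply]
    rw [Finset.sum_congr (f := fun j => (W.transpose * X) a j * W j e) rfl
      fun d _ => by rw [Matrix.mul_apply, Finset.sum_mul]]
    rw [Finset.sum_comm]
    rfl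
  have hL : ∀ l m, (∑ a, i (W l a) * v a) * i (∑ c, ∑ d, Wi c l * t c d * Wi d m) *
      (∑ e, i (W m e) * v' e) = ∑ a, ∑ e, v a * i (W l a * X l m * W m e) * v' e := by
    intro l m
    rw [hX l m, Finset.sum_mul, Finset.sum_mul_sum]
    refine Finset.sum_congr rfl fun a _ => Finset.sum_congr rfl fun e _ => ?_
    rw [map_mul, map_mul]
    ring
  have hR' : ∀ a e, v a * i (t a e) * v' e =
      ∑ l, ∑ m, v a * i (W l a * X l m * W m e) * v' e := by
    intro a e
    rw [hR a e, map_sum, Finset.mul_sum, Finset.sum_mul]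
    refine Finset.sum_congr rfl fun l _ => ?_
    rw [map_sum, Finset.mul_sum, Finset.sum_mul]
  rw [Finset.sum_congr rfl fun l _ => Finset.sum_congr rfl fun m _ => hL l m]
  rw [Finset.sum_congr rfl fun a _ => Finset.sum_congr rfl fun e _ => hR' a e]
  -- ∑ l, ∑ m, ∑ a, ∑ e = ∑ a, ∑ e, ∑ l, ∑ m
  calc ∑ l, ∑ m, ∑ a, ∑ e, v a * i (W l a * X l m * W m e) * v' e
      = ∑ l, ∑ a, ∑ m, ∑ e, v a * i (W l a * X l m * W m e) * v' e :=
        Finset.sum_congr rfl fun l _ => Finset.sum_comm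
    _ = ∑ a, ∑ l, ∑ m, ∑ e, v a * i (W l a * X l m * W m e) * v' e := Finset.sum_comm
    _ = ∑ a, ∑ l, ∑ e, ∑ m, v a * i (W l a * X l m * W m e) * v' e :=
        Finset.sum_congr rfl fun a _ => Finset.sum_congr rfl fun l _ => Finset.sum_comm
    _ = ∑ a, ∑ e, ∑ l, ∑ m, v a * i (W l a * X l m * W m e) * v' e :=
        Finset.sum_congr rfl fun a _ => Finset.sum_comm

/-!
# Task P3: the new covering data over `κ((t))`

`F' := compL q F`, `κ' := LaurentSeries κ`, `j₂ := (ofL p F').comp E.sw : Bm κ → EE p F'`.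
`b' l x := ∑_m j₂ (W l m) * E.σ (D₂.b m x)`.
Proof.  For `P ∈ κ[[t]][X]` put `P' := P.map ofPowerSeries ∈ κ'[X]`; `ze P' = j₂ (inclB P)`
(`Env.sw_incl`); `E.σ (ze f) = j₂ (inclB (compft q f))`.
Constants: `μ' = (μ i j l)'`, etc., with `μ, α, ν, T, T'` from `exists_constants`.
* `hg`: `tau` fixes `ofL`, `E.σtau`, `D₂.hg`.
* General transport principle.  For `a : G → Bm κ` let `R(a,x) := ∑_l j(a l) * E.T (D₂.b l x)` and
  `R'(a,x) := ∑_l j₂(a l) * E.σ (D₂.b l x)`.  Then `R(a,x) R(a',x) = R(a*a',x)` and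
  `R'(a,x) R'(a',x) = R'(a*a',x)` with `(a*a')_l = ∑_{i,k} a_i a'_k inclB(compft q (μ₂ i k l))`
  (`D₂.hmul`); `R(a, x h) = R(a^h, x)`, `R'(a, x h) = R'(a^h, x)` with
  `(a^h)_m = ∑_l a_l inclB (compft q (α₂ h l m))`; `1 = R(ν₂~, x) = R'(ν₂~, x)`; and
  `R(a,x) = R(a',x) ↔ R'(a,x) = R'(a',x)` by `transport` applied to `a - a'` (with `H = ⊥`, or the
  given `H`).  `bn l x = R(W l, x)` and `b' l x = R'(W l, x)`.  So the relations `hmul`, `hact`, `hone`
  for `bn` (from `exists_constants`) transport to `b'`.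
* `htr`: `∑_x b' i x * b' j x = ∑_{m,n} j₂ (W i m) j₂ (W j n) E.σ (∑_x b2 m x b2 n x)
  = j₂ (∑ W i m * inclB (compft q (T₂ m n)) * W j n) = j₂ (inclB (T i j)) = ze (T i j)'`.
* `hdual`: insert `T' = Wiᵀ T₂'~ Wi` and `Wi W = 1` and apply `E.σ` to `D₂.hdual`.
The statement also records `b'`.
-/
theorem exists_new {p : ℕ} [hp : Fact p.Prime] {κ : Type} [Field κ] [CharP κ p] {G : Type}
    [Group G] [Fintype G] [DecidableEq G] {g : G} {F q : κ[X]} (E : Env p κ F q)
    (D₁ D₂ : WD p κ G g F) (hF : ¬ p ∣ F.natDegree) (hF' : ¬ p ∣ (compL q F).natDegree)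
    (U Ui : Matrix G G (PowerSeries κ[X])) (W Wi : Matrix G G (Bm κ))
    (hU : U * Ui = 1) (hUi : Ui * U = 1) (hW : W * Wi = 1) (hWi : Wi * W = 1)
    (hUW : ∀ l x, ∑ m, PowerSeries.map (ofL p F) (plus κ (U l m)) * PowerSeries.C (D₁.b m x) =
      ∑ m, PowerSeries.map (ofL p F) (W l m : AA κ) * E.T (D₂.b m x)) :
    ∃ D' : WD p (LaurentSeries κ) G g (compL q F), ∀ l x,
      D'.b l x = ∑ m, ofL p (compL q F) (E.sw (W l m)) * E.σ (D₂.b m x) := by
  classical
  obtain ⟨μ, α, ν, T, T', hμ, hα, hν, hT, hT'⟩ := exists_constants E D₁ D₂ U Ui W Wi hU hUi hW hWi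
    (fun l x => ∑ m, PowerSeries.map (ofL p F) (W l m : AA κ) * E.T (D₂.b m x))
    (fun l x => (hUW l x).symm) (fun l x => rfl)
  let iw : Bm κ →+* PowerSeries (EE p F) := (PowerSeries.map (ofL p F)).comp (Bm κ).subtype
  let jw : Bm κ →+* EE p (compL q F) := (ofL p (compL q F)).comp E.sw
  have hze : ∀ P : (PowerSeries κ)[X],
      ze p (compL q F) (P.map (HahnSeries.ofPowerSeries ℤ κ)) = jw (inclB P) := by
    intro P
    show ofL p (compL q F) (zinv _ _) = ofL p (compL q F) (E.sw (inclB P))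
    rw [E.sw_incl]
  have hTz : ∀ f : κ[X], E.T (ze p F f) = iw (inclB (compft q f)) := fun f => E.Tze f
  have hσz : ∀ f : κ[X], E.σ (ze p F f) = jw (inclB (compft q f)) := by
    intro f
    rw [E.σze, ← hze]
    rfl
  have hbot : D₂.Conn ⊥ := by
    intro h hh f hf
    rw [Subgroup.mem_bot] at hh
    rw [hh]
    exact hf
  have tr : ∀ (a a' : G → Bm κ),
      (∀ x, ∑ l, iw (a l) * E.T (D₂.b l x) = ∑ l, iw (a' l) * E.T (D₂.b l x)) →
      ∀ x, ∑ l, jw (a l) * E.σ (D₂.b l x) = ∑ l, jw (a' l) * E.σ (D₂.b l x) := by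
    intro a a' h x
    have h1 := (transport E D₂ hF hF' ⊥ hbot (fun l => a l - a' l)).1 x
    have e1 : ∑ l, PowerSeries.map (ofL p F) ((a l - a' l : Bm κ) : AA κ) * E.T (D₂.b l x) =
        ∑ l, iw (a l) * E.T (D₂.b l x) - ∑ l, iw (a' l) * E.T (D₂.b l x) := by
      rw [← Finset.sum_sub_distrib]
      refine Finset.sum_congr rfl fun l _ => ?_
      rw [← sub_mul, ← map_sub]
      rfl
    have e2 : ∑ l, ofL p (compL q F) (E.sw (a l - a' l)) * E.σ (D₂.b l x) =
        ∑ l, jw (a l) * E.σ (D₂.b l x) - ∑ l, jw (a' l) * E.σ (D₂.b l x) := by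
      rw [← Finset.sum_sub_distrib]
      refine Finset.sum_congr rfl fun l _ => ?_
      rw [← sub_mul, ← map_sub]
      rfl
    rw [← sub_eq_zero, ← e2]
    refine h1.1 ?_
    rw [e1, h x, sub_self]
  -- the two bases
  let bn : G → G → PowerSeries (EE p F) := fun l x => ∑ m, iw (W l m) * E.T (D₂.b m x)
  let b' : G → G → EE p (compL q F) := fun l x => ∑ m, jw (W l m) * E.σ (D₂.b m x)
  have hbn : ∀ l x, bn l x = ∑ m, iw (W l m) * E.T (D₂.b m x) := fun _ _ => rfl
  have hb' : ∀ l x, b' l x = ∑ m, jw (W l m) * E.σ (D₂.b m x) := fun _ _ => rfl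
  have m2 : ∀ a c x, E.T (D₂.b a x) * E.T (D₂.b c x) =
      ∑ l, iw (inclB (compft q (D₂.μ a c l))) * E.T (D₂.b l x) := by
    intro a c x
    rw [← map_mul, D₂.hmul, map_sum]
    refine Finset.sum_congr rfl fun l _ => ?_
    rw [map_mul, hTz]
  have m3 : ∀ a c x, E.σ (D₂.b a x) * E.σ (D₂.b c x) =
      ∑ l, jw (inclB (compft q (D₂.μ a c l))) * E.σ (D₂.b l x) := by
    intro a c x
    rw [← map_mul, D₂.hmul, map_sum]
    refine Finset.sum_congr rfl fun l _ => ?_
    rw [map_mul, hσz]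
  have a2 : ∀ h l x, E.T (D₂.b l (x * h)) =
      ∑ m, iw (inclB (compft q (D₂.α h l m))) * E.T (D₂.b m x) := by
    intro h l x
    rw [D₂.hact, map_sum]
    refine Finset.sum_congr rfl fun m _ => ?_
    rw [map_mul, hTz]
  have a3 : ∀ h l x, E.σ (D₂.b l (x * h)) =
      ∑ m, jw (inclB (compft q (D₂.α h l m))) * E.σ (D₂.b m x) := by
    intro h l x
    rw [D₂.hact, map_sum]
    refine Finset.sum_congr rfl fun m _ => ?_
    rw [map_mul, hσz]
  have o2 : ∀ x, (1 : PowerSeries (EE p F)) =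
      ∑ l, iw (inclB (compft q (D₂.ν l))) * E.T (D₂.b l x) := by
    intro x
    rw [← map_one E.T, ← D₂.hone x, map_sum]
    refine Finset.sum_congr rfl fun m _ => ?_
    rw [map_mul, hTz]
  have o3 : ∀ x, (1 : EE p (compL q F)) =
      ∑ l, jw (inclB (compft q (D₂.ν l))) * E.σ (D₂.b l x) := by
    intro x
    rw [← map_one E.σ, ← D₂.hone x, map_sum]
    refine Finset.sum_congr rfl fun m _ => ?_
    rw [map_mul, hσz]
  have t3 : ∀ m n, ∑ x, E.σ (D₂.b m x) * E.σ (D₂.b n x) = jw (inclB (compft q (D₂.T m n))) := by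
    intro m n
    rw [← hσz, ← D₂.htr, map_sum]
    refine Finset.sum_congr rfl fun x _ => ?_
    rw [map_mul]
  have key_mul : ∀ i j x, b' i x * b' j x =
      ∑ l, ze p (compL q F) ((μ i j l).map (HahnSeries.ofPowerSeries ℤ κ)) * b' l x := by
    intro i j x
    rw [P3_mul jw _ _ W b' m3 hb' i j x]
    rw [Finset.sum_congr (f := fun l => ze p (compL q F)
      ((μ i j l).map (HahnSeries.ofPowerSeries ℤ κ)) * b' l x) rfl fun l _ => by rw [hze]]
    rw [P3_comb jw _ W b' hb' (fun l => inclB (μ i j l)) x]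
    refine tr _ _ (fun x => ?_) x
    rw [← P3_comb iw _ W bn hbn (fun l => inclB (μ i j l)) x]
    rw [← P3_mul iw _ _ W bn m2 hbn i j x]
    exact hμ i j x
  have key_act : ∀ h l x, b' l (x * h) =
      ∑ m, ze p (compL q F) ((α h l m).map (HahnSeries.ofPowerSeries ℤ κ)) * b' m x := by
    intro h l x
    rw [P3_act jw _ _ W b' a3 hb' h l x]
    rw [Finset.sum_congr (f := fun m => ze p (compL q F)
      ((α h l m).map (HahnSeries.ofPowerSeries ℤ κ)) * b' m x) rfl fun m _ => by rw [hze]]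
    rw [P3_comb jw _ W b' hb' (fun m => inclB (α h l m)) x]
    refine tr _ _ (fun x => ?_) x
    rw [← P3_comb iw _ W bn hbn (fun m => inclB (α h l m)) x]
    rw [← P3_act iw _ _ W bn a2 hbn h l x]
    exact hα h l x
  have key_one : ∀ x,
      ∑ l, ze p (compL q F) ((ν l).map (HahnSeries.ofPowerSeries ℤ κ)) * b' l x = 1 := by
    intro x
    rw [Finset.sum_congr (f := fun l => ze p (compL q F)
      ((ν l).map (HahnSeries.ofPowerSeries ℤ κ)) * b' l x) rfl fun l _ => by rw [hze]]
    rw [P3_comb jw _ W b' hb' (fun l => inclB (ν l)) x, o3 x]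
    refine tr _ _ (fun x => ?_) x
    rw [← P3_comb iw _ W bn hbn (fun l => inclB (ν l)) x, ← o2 x]
    exact hν x
  have key_tr : ∀ i j, ∑ x, b' i x * b' j x =
      ze p (compL q F) ((T i j).map (HahnSeries.ofPowerSeries ℤ κ)) := by
    intro i j
    rw [P3_tr jw _ _ W b' t3 hb' i j, hze, hT i j]
  have key_dual : ∀ x x' [Decidable (x = x')], ∑ l, ∑ m, b' l x *
      ze p (compL q F) ((T' l m).map (HahnSeries.ofPowerSeries ℤ κ)) * b' m x' =
      if x = x' then 1 else 0 := by
    intro x x' hd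
    have h1 : ∀ l m, b' l x * ze p (compL q F) ((T' l m).map (HahnSeries.ofPowerSeries ℤ κ)) *
        b' m x' = (∑ a, jw (W l a) * E.σ (D₂.b a x)) *
          jw (∑ c, ∑ d, Wi c l * inclB (compft q (D₂.T' c d)) * Wi d m) *
          (∑ e, jw (W m e) * E.σ (D₂.b e x')) := by
      intro l m
      rw [hze, hT' l m]
    rw [Finset.sum_congr rfl fun l _ => Finset.sum_congr rfl fun m _ => h1 l m]
    rw [P3_dual jw W Wi (fun c d => inclB (compft q (D₂.T' c d))) hWi
      (fun a => E.σ (D₂.b a x)) (fun a => E.σ (D₂.b a x'))]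
    have h2 := congrArg E.σ (D₂.hdual x x')
    rw [map_sum] at h2
    have h3 : ∀ a, E.σ (∑ m, D₂.b a x * ze p F (D₂.T' a m) * D₂.b m x') =
        ∑ e, E.σ (D₂.b a x) * jw (inclB (compft q (D₂.T' a e))) * E.σ (D₂.b e x') := by
      intro a
      rw [map_sum]
      refine Finset.sum_congr rfl fun e _ => ?_
      rw [map_mul, map_mul, hσz]
    rw [Finset.sum_congr rfl fun a _ => h3 a] at h2
    rw [h2]
    split_ifs
    · exact map_one _
    · exact map_zero _
  refine ⟨{ b := b'
            μ := fun i j l => (μ i j l).map (HahnSeries.ofPowerSeries ℤ κ)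
            α := fun h l m => (α h l m).map (HahnSeries.ofPowerSeries ℤ κ)
            ν := fun l => (ν l).map (HahnSeries.ofPowerSeries ℤ κ)
            T := fun i j => (T i j).map (HahnSeries.ofPowerSeries ℤ κ)
            T' := fun i j => (T' i j).map (HahnSeries.ofPowerSeries ℤ κ)
            hg := ?_
            hmul := key_mul
            hact := key_act
            hone := key_one
            htr := key_tr
            hdual := key_dual }, fun l x => rfl⟩
  intro l x
  rw [hb', hb', map_sum]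
  refine Finset.sum_congr rfl fun m _ => ?_
  rw [map_mul, D₂.hg, E.σtau]
  congr 1
  exact (tau_ofL _).symm

end

end Pool.Agent.MP_1c8e06_ag.AI
end
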