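import Pool.Agent.Lib.MP_1c8e06_ag.Mg.G097
import Pool.Agent.Lib.MP_1c8e06_ag.Mg.G099
import Pool.Agent.Lib.MP_1c8e06_ag.Mg.G092
import Pool.Agent.Lib.MP_1c8e06_ag.Mg.G102

section

set_option autoImplicit false

open Polynomial

namespace Pool.Agent.MP_1c8e06_ag.AI

noncomputable section

/-!
# Task OP: the patching step (assembly)

Proof.  `exists_Env`, `exists_glue`, `exists_new`, `conn_new`, `natDegree_compL`.  (`classical`.)
-/
theorem patch {p : ℕ} [hp : Fact p.Prime] {κ : Type} [Field κ] [CharP κ p] {G : Type}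
    [Group G] [Fintype G] {g : G} {F : κ[X]} (q : κ[X])
    (hq0 : q.coeff 0 = 1) (hq1 : q.eval 1 = 0) (hq' : (derivative q).eval 1 ≠ 0)
    (hqp : ¬ p ∣ 1 + q.natDegree) (hF : ¬ p ∣ F.natDegree) (H₁ H₂ : Subgroup G)
    (D₁ : WD p κ G g F) (D₂ : WD p κ G g F) (hD₁ : D₁.Conn H₁) (hD₂ : D₂.Conn H₂) :
    ∃ D' : WD p (LaurentSeries κ) G g (compL q F), D'.Conn (H₁ ⊔ H₂) := by
  classical
  obtain ⟨E⟩ := exists_Env (p := p) F q hq0 hq1 hq'
  have hF' : ¬ p ∣ (compL q F).natDegree := by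
    rw [natDegree_compL q hq0]
    intro h
    rcases hp.out.dvd_mul.1 h with h | h
    · exact hF h
    · exact hqp h
  obtain ⟨U, Ui, W, Wi, hU, hUi, hW, hWi, hUW⟩ := exists_glue E D₁ D₂
  obtain ⟨D', hD'⟩ := exists_new E D₁ D₂ hF hF' U Ui W Wi hU hUi hW hWi hUW
  exact ⟨D', conn_new E D₁ D₂ hF hF' U W hUW H₁ H₂ hD₁ hD₂ D' hD'⟩

end

end Pool.Agent.MP_1c8e06_ag.AI
end

section

set_option autoImplicit false

open Polynomial

namespace Pool.Agent.MP_1c8e06_ag.AI

noncomputable section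

/-!
# Task IT: iteration of the patching step

Proof.  `q`: choose `q : κ[X]` (defined over every field of characteristic `p`) with `q(0) = 1`,
`q(1) = 0`, `q'(1) ≠ 0`, `p ∤ 1 + deg q`: for `p` odd `q = 1 - X`; for `p = 2`
`q = 1 + X^2 + X^3 + X^4` (`q(1) = 4 = 0`, `q'(1) = 2 + 3 + 4 = 9 = 1`, degree `4`).
Induction on the list `as` (generalising nothing; `k` fixed):
* `[]`: `κ = k`, `h = X`, `exists_base` with `a = 1` (`closure {g, 1 * g * 1⁻¹} = closure {g}`);
  `X ^ e` as `F`; state `F = h ^ e` with `h = X`.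
* `a :: as`: from `κ, h, D` for `as`; `exists_base` over `κ` for `a` (`ζ` mapped to `κ` stays a primitive
  root: `IsPrimitiveRoot.map_of_injective`), `pullback` along `h`:
  `WD p κ G g ((X^e).comp h)`, `(X^e).comp h = h^e` (`X_pow_comp`).  `patch q` gives
  `WD p (LaurentSeries κ) G g (compL q (h^e))`, `compL q (h^e) = (compL q h)^e` (`map_pow`), and
  `natDegree (compL q h) = natDegree h * (1 + natDegree q)` is prime to `p`.
  `Algebra k (LaurentSeries κ)`: `((HahnSeries.C).comp (algebraMap k κ)).toAlgebra`.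
  The subgroups: `closure ({g} ∪ conj(as)) ⊔ closure {g, a g a⁻¹} = closure ({g} ∪ conj (a :: as))`.
-/
private theorem IT_q (p : ℕ) [hp : Fact p.Prime] (κ : Type) [Field κ] [CharP κ p] :
    ∃ q : κ[X], q.coeff 0 = 1 ∧ q.eval 1 = 0 ∧ (derivative q).eval 1 ≠ 0 ∧
      ¬ p ∣ 1 + q.natDegree := by
  by_cases h2 : p = 2
  · subst h2
    have h20 : (2 : κ) = 0 := by
      have := CharP.cast_eq_zero κ 2
      exact_mod_cast this
    refine ⟨1 + X ^ 2 + X ^ 3 + X ^ 4, ?_, ?_, ?_, ?_⟩
    · simp [coeff_one, coeff_X_pow]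
    · simp only [eval_add, eval_one, eval_pow, eval_X, one_pow]
      linear_combination 2 * h20
    · have e : eval 1 (derivative (1 + X ^ 2 + X ^ 3 + X ^ 4 : κ[X])) = 1 := by
        simp only [derivative_add, derivative_one, derivative_X_pow, eval_add, eval_mul, eval_C,
          eval_pow, eval_X, one_pow, eval_zero, Nat.cast_ofNat]
        linear_combination 4 * h20
      rw [e]; exact one_ne_zero
    · have e : (1 + X ^ 2 + X ^ 3 + X ^ 4 : κ[X]).natDegree = 4 := by compute_degree!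
      rw [e]; decide
  · refine ⟨1 - X, ?_, ?_, ?_, ?_⟩
    · simp
    · simp
    · simp
    · have e : (1 - X : κ[X]).natDegree = 1 := by
        rw [natDegree_sub_eq_right_of_natDegree_lt, natDegree_X]
        simp
      rw [e]
      intro h
      exact h2 ((Nat.prime_dvd_prime_iff_eq hp.out Nat.prime_two).1 h)

private theorem IT_mono {p : ℕ} [Fact p.Prime] {R : Type} [CommRing R] [CharP R p] {G : Type}
    [Group G] [Fintype G] {g : G} {F : R[X]} {D : WD p R G g F} {H K : Subgroup G}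
    (h : D.Conn H) (hK : K ≤ H) : D.Conn K := fun x hx => h x (hK hx)

theorem exists_iterate {p : ℕ} [hp : Fact p.Prime] (k : Type) [Field k] [CharP k p] {e : ℕ}
    (hpe : ¬ p ∣ e) (ζ : k) (hζ : IsPrimitiveRoot ζ e) {G : Type} [Group G] [Fintype G]
    (g : G) (hg : orderOf g = p) (as : List G)
    (has : ∀ a ∈ as, a ^ e = 1 ∧ ∀ i : ℕ, Commute a (g ^ i * a * (g ^ i)⁻¹)) :
    ∃ (κ : Type) (_ : Field κ) (_ : CharP κ p) (_ : Algebra k κ) (h : κ[X]),
      ¬ p ∣ h.natDegree ∧ ∃ D : WD p κ G g (h ^ e),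
        D.Conn (Subgroup.closure ({g} ∪ {x | ∃ a ∈ as, x = a * g * a⁻¹})) := by
  induction as with
  | nil =>
    obtain ⟨D, hD⟩ := exists_base hpe ζ hζ g 1 hg (one_pow e) (fun i => Commute.one_left _)
    refine ⟨k, inferInstance, inferInstance, Algebra.id k, X, ?_, D, IT_mono hD ?_⟩
    · rw [natDegree_X]
      intro h
      exact hp.out.one_lt.ne' (Nat.dvd_one.1 h)
    · refine Subgroup.closure_mono ?_
      rintro x (hx | ⟨a, ha, -⟩)
      · exact Or.inl hx
      · exact absurd ha List.not_mem_nil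
  | cons a as ih =>
    obtain ⟨κ, iF, iC, iA, h, hh, D, hD⟩ := ih fun b hb => has b (List.mem_cons_of_mem a hb)
    obtain ⟨ha1, ha2⟩ := has a List.mem_cons_self
    have hζ' : IsPrimitiveRoot (algebraMap k κ ζ) e :=
      hζ.map_of_injective (algebraMap k κ).injective
    obtain ⟨D0, hD0⟩ := exists_base hpe (algebraMap k κ ζ) hζ' g a hg ha1 ha2
    have hXe : ¬ p ∣ (X ^ e : κ[X]).natDegree := by rwa [natDegree_X_pow]
    have hP := pullback D0 hXe _ hD0 h hh
    rw [X_pow_comp] at hP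
    obtain ⟨D2, hD2⟩ := hP
    obtain ⟨q, hq0, hq1, hq', hqp⟩ := IT_q p κ
    have hF : ¬ p ∣ (h ^ e).natDegree := by
      rw [natDegree_pow]
      intro hd
      rcases hp.out.dvd_mul.1 hd with h1 | h1
      · exact hpe h1
      · exact hh h1
    have hN := patch q hq0 hq1 hq' hqp hF _ _ D D2 hD hD2
    rw [map_pow] at hN
    obtain ⟨D', hD'⟩ := hN
    refine ⟨LaurentSeries κ, inferInstance, charP_laurent p κ,
      ((HahnSeries.C : κ →+* LaurentSeries κ).comp (algebraMap k κ)).toAlgebra, compL q h, ?_,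
      D', IT_mono hD' ?_⟩
    · rw [natDegree_compL q hq0]
      intro hd
      rcases hp.out.dvd_mul.1 hd with h1 | h1
      · exact hh h1
      · exact hqp h1
    · rw [Subgroup.closure_le]
      rintro x (hx | ⟨b, hb, rfl⟩)
      · exact Subgroup.mem_sup_left (Subgroup.subset_closure (Or.inl hx))
      · rcases List.mem_cons.1 hb with rfl | hb
        · exact Subgroup.mem_sup_right (Subgroup.subset_closure (Or.inr rfl))
        · exact Subgroup.mem_sup_left (Subgroup.subset_closure (Or.inr ⟨b, hb, rfl⟩))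

end

end Pool.Agent.MP_1c8e06_ag.AI
end
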